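import Pool.Agent.Work.MP_b5407d_g1.Pl_PWL

/-!
# G1, line P-a: certificate cells, window t in [1434, 2731]/4096, tau in [112, 208]/1024

Cells of helper93 (optimiser), checker of helper97, bridge of helper38.
-/

set_option autoImplicit false
set_option maxRecDepth 100000

namespace Pool.G1.Gap.PB

def hi1a0 : CellD :=
  ⟨⟨0, 256, 0, 512, 112, 208⟩, 5202, 1192, 4055, 1434, 2731, ⟨1488, 423, 2018, -1283⟩,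
   ⟨882, -642, 89, 877⟩, ⟨-46, 147, -34, -25⟩, ⟨-41, 149, 16, -11⟩, ⟨891, -724, -24, -573⟩,
   ⟨8206, -2626, 436, 276⟩, ⟨8603, -5797, -568, -470⟩, ⟨710, 3958, -1407⟩, ⟨6, 10086, 2309⟩,
   -5412, 1452, 5264, 1727, ⟨7669, -3037, 6578⟩, ⟨6934, 1772, 2110⟩, ⟨12, -4, 18⟩, ⟨46, -16, 47⟩,
   ⟨7672, -562, 2639⟩, ⟨6, -2, 8⟩, ⟨3304, -3704, 4473⟩, -2614, 4978, ⟨13474, 39412, 117714⟩,
   -112, 512, 208, 0⟩

theorem hi1a0_ok : hi1a0.ok = true := by decide +kernel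

def hi1a1 : CellD :=
  ⟨⟨0, 64, 512, 1024, 112, 208⟩, 5202, 1192, 4055, 1434, 2731, ⟨1193, -2347, 1808, 375⟩,
   ⟨1042, -751, -587, 1616⟩, ⟨-8, 586, -250, 200⟩, ⟨-61, 78, 33, 119⟩, ⟨907, -1440, 94, -752⟩,
   ⟨8230, -864, 108, 26⟩, ⟨8459, -8223, -146, -209⟩, ⟨147, 810, -146⟩, ⟨-422, 23519, 859⟩, -2277,
   3283, 3067, 5046, ⟨4809, -12095, 65970⟩, ⟨2669, 1995, 15102⟩, ⟨47, 0, 0⟩, ⟨7, 0, 0⟩,
   ⟨8448, -5088, 3315⟩, ⟨11, -53, 283⟩, ⟨743, -2492, 8444⟩, -6065, 9422, ⟨13177, 40015, 121532⟩,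
   -112, 1024, 208, -512⟩

theorem hi1a1_ok : hi1a1.ok = true := by decide +kernel

def hi1a2 : CellD :=
  ⟨⟨64, 128, 512, 1024, 112, 208⟩, 5202, 1192, 4055, 1434, 2731, ⟨1070, 892, 1843, -52⟩,
   ⟨1050, -1514, -561, 1603⟩, ⟨51, -77, -314, 140⟩, ⟨-55, 128, 34, 27⟩, ⟨909, -1264, 20, -608⟩,
   ⟨8057, -867, 325, 89⟩, ⟨8729, -8100, -433, -608⟩, ⟨323, 868, -376⟩, ⟨-1407, 21083, 2364⟩,
   -3161, -1229, 3626, 2266, ⟨5406, -6966, 58590⟩, ⟨3296, 1615, 3645⟩, ⟨117, 0, 0⟩, ⟨10, 0, 0⟩,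
   ⟨7750, -8004, 8830⟩, ⟨3, -1, 8⟩, ⟨50, -25, 99⟩, -1346, -10875, ⟨17595, 46229, 121655⟩, -112,
   1024, 208, -512⟩

theorem hi1a2_ok : hi1a2.ok = true := by decide +kernel

def hi1a3 : CellD :=
  ⟨⟨128, 256, 512, 1024, 112, 208⟩, 5202, 1192, 4055, 1434, 2731, ⟨1137, 1027, 1708, -818⟩,
   ⟨1200, -1955, -558, 1612⟩, ⟨215, -443, -447, 30⟩, ⟨-43, 145, 24, -33⟩, ⟨915, -1269, 36, -678⟩,
   ⟨7809, -868, 653, 162⟩, ⟨9103, -7918, -845, -1093⟩, ⟨629, 801, -728⟩, ⟨-2018, 17088, 4104⟩,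
   -3814, -28, 3975, 547, ⟨5001, -6409, 44167⟩, ⟨3906, 312, 1350⟩, ⟨73, 0, 0⟩, ⟨4, 0, 0⟩,
   ⟨5697, -8424, 13062⟩, ⟨2, -2, 9⟩, ⟨2027, -1150, 725⟩, -288, -1704, ⟨14984, 42595, 121176⟩,
   -112, 1024, 208, -512⟩

theorem hi1a3_ok : hi1a3.ok = true := by decide +kernel

def hi1a4 : CellD :=
  ⟨⟨256, 512, 0, 512, 112, 208⟩, 5202, 1192, 4055, 1434, 2731, ⟨1617, 379, 1326, -2938⟩,
   ⟨909, -627, 155, 196⟩, ⟨-2, 100, -111, -197⟩, ⟨-37, 187, 9, -118⟩, ⟨836, -601, -118, -453⟩,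
   ⟨7897, -2715, 1357, 919⟩, ⟨8939, -5534, -1653, -1402⟩, ⟨1500, 2693, -3414⟩, ⟨188, 6776, 5097⟩,
   -3101, 6373, 4864, 1724, ⟨2378, -4747, 10229⟩, ⟨5838, 1971, 979⟩, ⟨10, -13, 59⟩, ⟨13, -8, 21⟩,
   ⟨5035, 243, 3083⟩, ⟨3, -2, 9⟩, ⟨37, -26, 93⟩, -2402, 3028, ⟨4714, 17464, 65770⟩, -112, 512,
   208, 0⟩

theorem hi1a4_ok : hi1a4.ok = true := by decide +kernel

def hi1a5 : CellD :=
  ⟨⟨256, 512, 512, 1024, 112, 208⟩, 5202, 1192, 4055, 1434, 2731, ⟨1184, 1358, 1838, -3460⟩,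
   ⟨1467, -1397, -482, 56⟩, ⟨563, -444, -702, -1009⟩, ⟨-40, 177, 31, -72⟩,
   ⟨899, -1357, 52, -276⟩, ⟨7329, -872, 1313, 276⟩, ⟨9707, -7533, -1599, -1733⟩,
   ⟨1197, 664, -1362⟩, ⟨-1223, 9137, 6121⟩, -4680, 7973, 4072, 58, ⟨6142, -12994, 39859⟩,
   ⟨4078, -93, 857⟩, ⟨40, 0, 0⟩, ⟨1, 0, 0⟩, ⟨4002, -7008, 17204⟩, ⟨1, -2, 9⟩,
   ⟨5472, -4257, 3355⟩, -2164, 5554, ⟨11294, 37044, 121668⟩, -112, 1024, 208, -512⟩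

theorem hi1a5_ok : hi1a5.ok = true := by decide +kernel

def hi1a6 : CellD :=
  ⟨⟨512, 768, 0, 512, 112, 208⟩, 5202, 1192, 4055, 1434, 2731, ⟨1594, -157, 1164, -2290⟩,
   ⟨914, -649, 221, -66⟩, ⟨19, 146, -148, -324⟩, ⟨-70, 297, 61, -212⟩, ⟨758, -507, -180, -336⟩,
   ⟨7617, -2799, 2335, 1410⟩, ⟨9033, -5150, -2575, -1903⟩, ⟨2298, 1658, -4531⟩,
   ⟨1847, 3215, 5751⟩, -2878, 6786, 4064, 1327, ⟨2042, -4753, 11323⟩, ⟨4060, 1289, 507⟩,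
   ⟨44, -141, 540⟩, ⟨8, -5, 12⟩, ⟨2474, 629, 1868⟩, ⟨3, -2, 7⟩, ⟨16, -9, 31⟩, -2871, 3187,
   ⟨2082, 7982, 31166⟩, -112, 512, 208, 0⟩

theorem hi1a6_ok : hi1a6.ok = true := by decide +kernel

def hi1a7 : CellD :=
  ⟨⟨512, 768, 512, 1024, 112, 208⟩, 5202, 1192, 4055, 1434, 2731, ⟨3797, -2583, 907, -4508⟩,
   ⟨2303, -1821, -951, -1679⟩, ⟨2896, -2554, -2387, -3657⟩, ⟨199, -177, 47, -325⟩,
   ⟨1585, -2347, -28, -426⟩, ⟨6623, -879, 2214, 497⟩, ⟨6551, -2311, -815, -547⟩,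
   ⟨1814, 521, -2067⟩, ⟨12649, -10020, -9⟩, 359, 15354, 4337, -2352, ⟨724, -1414, 71707⟩,
   ⟨4639, -2702, 2409⟩, ⟨33, 0, 0⟩, ⟨1, 0, 0⟩, ⟨4439, -9616, 27402⟩, ⟨1, -3, 12⟩,
   ⟨8539, -6959, 5737⟩, -5199, 7986, ⟨10037, 34846, 120981⟩, -112, 1024, 208, -512⟩

theorem hi1a7_ok : hi1a7.ok = true := by decide +kernel

def hi1a8 : CellD :=
  ⟨⟨768, 1024, 0, 512, 112, 208⟩, 5202, 1192, 4055, 1434, 2731, ⟨2084, -1029, 525, -1627⟩,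
   ⟨738, -479, 291, -81⟩, ⟨-88, 302, -181, -256⟩, ⟨-294, 550, 210, -88⟩, ⟨598, -374, -190, -231⟩,
   ⟨7315, -2814, 3336, 1736⟩, ⟨933, 5353, 451, -194⟩, ⟨2971, 1134, -4796⟩, ⟨11413, -8516, -1256⟩,
   859, 3501, 3215, 617, ⟨220, 734, 3021⟩, ⟨2566, 457, 164⟩, ⟨130, 52, 653⟩, ⟨5, -3, 9⟩,
   ⟨850, 184, 810⟩, ⟨4, -2, 6⟩, ⟨17, -5, 21⟩, -2654, 2445, ⟨1161, 3166, 9258⟩, -112, 512, 208, 0⟩

theorem hi1a8_ok : hi1a8.ok = true := by decide +kernel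

def hi1a9 : CellD :=
  ⟨⟨768, 1024, 512, 1024, 112, 208⟩, 5202, 1192, 4055, 1434, 2731, ⟨4267, -1272, -3506, -1053⟩,
   ⟨3295, -1700, -2354, -2771⟩, ⟨5740, -3836, -4188, -6986⟩, ⟨1487, -921, -699, -2120⟩,
   ⟨4179, -4104, -1133, -3340⟩, ⟨5901, -881, 3134, 697⟩, ⟨-8948, 15032, 2271, -700⟩,
   ⟨2369, 373, -2641⟩, ⟨21552, -16970, -4550⟩, 700, 16513, 3619, 159, ⟨935, 61, 77894⟩,
   ⟨3358, -546, 3298⟩, ⟨787, 0, 0⟩, ⟨2, 0, 0⟩, ⟨3707, -8847, 33715⟩, ⟨5, -14, 69⟩,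
   ⟨13215, -7632, 4617⟩, -9034, 10225, ⟨8828, 31526, 112897⟩, -112, 1024, 208, -512⟩

theorem hi1a9_ok : hi1a9.ok = true := by decide +kernel

theorem hi1a_win : WGood ⟨5202, 1192, 4055, 1434, 2731⟩ ⟨0, 1024, 0, 1024, 112, 208⟩ :=
  wgood_cover (cells := [hi1a0.box, hi1a1.box, hi1a2.box, hi1a3.box, hi1a4.box, hi1a5.box, hi1a6.box, hi1a7.box, hi1a8.box, hi1a9.box])
    (by
      intro c hc
      simp only [List.mem_cons, List.not_mem_nil, or_false] at hc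
      rcases hc with rfl | rfl | rfl | rfl | rfl | rfl | rfl | rfl | rfl | rfl
      · exact wgood_of_ok hi1a0_ok (by decide)
      · exact wgood_of_ok hi1a1_ok (by decide)
      · exact wgood_of_ok hi1a2_ok (by decide)
      · exact wgood_of_ok hi1a3_ok (by decide)
      · exact wgood_of_ok hi1a4_ok (by decide)
      · exact wgood_of_ok hi1a5_ok (by decide)
      · exact wgood_of_ok hi1a6_ok (by decide)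
      · exact wgood_of_ok hi1a7_ok (by decide)
      · exact wgood_of_ok hi1a8_ok (by decide)
      · exact wgood_of_ok hi1a9_ok (by decide))
    (CTree.n1 512 (CTree.n1 256 (CTree.n2 512 (CTree.leaf 0) (CTree.n1 128 (CTree.n1 64
    (CTree.leaf 1) (CTree.leaf 2)) (CTree.leaf 3))) (CTree.n2 512 (CTree.leaf 4) (CTree.leaf
    5))) (CTree.n1 768 (CTree.n2 512 (CTree.leaf 6) (CTree.leaf 7)) (CTree.n2 512 (CTree.leaf 8)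
    (CTree.leaf 9))))
    (by decide +kernel)

def hi1b0 : CellD :=
  ⟨⟨0, 256, 0, 512, -208, -112⟩, 5202, 1192, 4055, 1434, 2731, ⟨1465, 800, 1564, 1017⟩,
   ⟨796, -329, 60, 454⟩, ⟨-68, 218, -34, -34⟩, ⟨-57, 203, 17, -27⟩, ⟨954, -1103, -66, -913⟩,
   ⟨8282, -3506, 578, 260⟩, ⟨8397, -4429, -440, -497⟩, ⟨723, 4113, -1434⟩, ⟨6, 9242, 2370⟩,
   -6311, -3926, 6204, -455, ⟨9810, 6284, 5612⟩, ⟨9586, -105, 2231⟩, ⟨6, 2, 8⟩, ⟨349, 152, 141⟩,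
   ⟨1773, 501, 242⟩, ⟨10, 3, 14⟩, ⟨12026, 10738, 9730⟩, -576, 986, ⟨8768, 9423, 63035⟩, 208, 0,
   -112, -512⟩

theorem hi1b0_ok : hi1b0.ok = true := by decide +kernel

def hi1b1 : CellD :=
  ⟨⟨0, 128, 512, 1024, -208, -112⟩, 5202, 1192, 4055, 1434, 2731, ⟨1571, 1540, 997, 1305⟩,
   ⟨766, -476, -343, -206⟩, ⟨14, 402, -398, -241⟩, ⟨-84, 168, 34, -163⟩,
   ⟨835, -2044, 124, -1408⟩, ⟨8116, -1179, 295, 29⟩, ⟨8431, -6165, -219, -393⟩, ⟨289, 792, -287⟩,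
   ⟨-817, 20855, 1646⟩, -4913, -11392, 4302, 1980, ⟨6648, 17100, 66713⟩, ⟨4712, 3348, 10998⟩,
   ⟨35, 0, 0⟩, ⟨10, 0, 0⟩, ⟨1752, 506, 160⟩, ⟨3, 2, 14⟩, ⟨8559, 9169, 10012⟩, -2164, -3724,
   ⟨8325, 17786, 118538⟩, 208, 512, -112, -1024⟩

theorem hi1b1_ok : hi1b1.ok = true := by decide +kernel

def hi1b2 : CellD :=
  ⟨⟨128, 256, 512, 1024, -208, -112⟩, 5202, 1192, 4055, 1434, 2731, ⟨1393, 1584, 1062, 1299⟩,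
   ⟨786, -194, -324, -276⟩, ⟨34, 388, -414, -268⟩, ⟨-75, 150, 22, -191⟩, ⟨962, -2050, 39, -1337⟩,
   ⟨7693, -1168, 882, 153⟩, ⟨8700, -6406, -687, -1102⟩, ⟨637, 819, -739⟩, ⟨-1671, 15291, 3809⟩,
   -5941, -17130, 4743, 5955, ⟨8721, 25464, 79614⟩, ⟨5517, 7053, 9933⟩, ⟨12, 0, 0⟩, ⟨1, 0, 0⟩,
   ⟨2252, 1620, 1172⟩, ⟨1, 1, 8⟩, ⟨6240, 8821, 13183⟩, 149, -2183, ⟨4475, 9517, 48198⟩, 208, 512,
   -112, -1024⟩

theorem hi1b2_ok : hi1b2.ok = true := by decide +kernel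

def hi1b3 : CellD :=
  ⟨⟨256, 512, 0, 512, -208, -112⟩, 5202, 1192, 4055, 1434, 2731, ⟨1514, 268, 1654, 1927⟩,
   ⟨781, -410, 144, 517⟩, ⟨-82, 273, -83, 58⟩, ⟨-93, 303, 36, 45⟩, ⟨986, -916, -182, -438⟩,
   ⟨8069, -3406, 1703, 910⟩, ⟨8554, -4674, -1402, -1411⟩, ⟨1517, 3081, -3629⟩, ⟨431, 5755, 4583⟩,
   -4513, -7959, 4709, 375, ⟨4994, 8759, 15515⟩, ⟨5427, 485, 273⟩, ⟨2, 1, 9⟩, ⟨1200, 1206, 1232⟩,
   ⟨3040, 2473, 2048⟩, ⟨3, 3, 12⟩, ⟨49, 36, 80⟩, 2, 958, ⟨5042, 7546, 20712⟩, 208, 0, -112, -512⟩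

theorem hi1b3_ok : hi1b3.ok = true := by decide +kernel

def hi1b4 : CellD :=
  ⟨⟨256, 384, 512, 1024, -208, -112⟩, 5202, 1192, 4055, 1434, 2731, ⟨1586, 1964, 777, 2438⟩,
   ⟨1091, -624, -349, 299⟩, ⟨207, 180, -531, -4⟩, ⟨-55, 210, 19, -63⟩,
   ⟨1153, -1855, -102, -1009⟩, ⟨7272, -1158, 1464, 270⟩, ⟨9057, -6649, -1188, -1611⟩,
   ⟨987, 776, -1180⟩, ⟨-1082, 9814, 4845⟩, -6213, -19421, 4164, 645, ⟨9435, 29495, 93631⟩,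
   ⟨4239, 686, 331⟩, ⟨7, 0, 0⟩, ⟨0, 0, 0⟩, ⟨2311, 2639, 3016⟩, ⟨0, 0, 3⟩, ⟨4710, 2680, 12695⟩,
   412, -2822, ⟨4707, 10918, 36558⟩, 208, 512, -112, -1024⟩

theorem hi1b4_ok : hi1b4.ok = true := by decide +kernel

def hi1b5 : CellD :=
  ⟨⟨384, 512, 512, 768, -208, -112⟩, 5202, 1192, 4055, 1434, 2731, ⟨1190, -1064, 2580, 1269⟩,
   ⟨783, -814, -55, -538⟩, ⟨527, -431, -1106, -704⟩, ⟨-11, 200, -134, -180⟩,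
   ⟨1068, -1818, -30, -850⟩, ⟨7137, -1732, 2025, 608⟩, ⟨9250, -6346, -1708, -1868⟩,
   ⟨1589, 997, -2357⟩, ⟨619, 5155, 4886⟩, 1148, -12713, 3652, 1891, ⟨647, -2874, 43442⟩,
   ⟨3331, 1973, 2036⟩, ⟨7, 8, 32⟩, ⟨8, 11, 40⟩, ⟨3830, 6330, 10575⟩, ⟨6, 8, 31⟩, ⟨85, 83, 236⟩,
   608, -1575, ⟨17247, 41386, 115725⟩, 208, 512, -112, -768⟩

theorem hi1b5_ok : hi1b5.ok = true := by decide +kernel

def hi1b6 : CellD :=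
  ⟨⟨384, 512, 768, 1024, -208, -112⟩, 5202, 1192, 4055, 1434, 2731, ⟨3157, -1628, -71, 1115⟩,
   ⟨2356, -1620, -2140, -2334⟩, ⟨3768, -1276, -5119, -2367⟩, ⟨-27, 185, -68, -300⟩,
   ⟨1168, -3095, 76, -2148⟩, ⟨6549, -583, 2056, 209⟩, ⟨9738, -7449, -1738, -1972⟩,
   ⟨766, 212, -844⟩, ⟨1395, 3867, 4608⟩, -2520, -20877, 4276, 2057, ⟨1942, 13379, 113492⟩,
   ⟨4497, 2314, 2009⟩, ⟨29, 0, 0⟩, ⟨1, 0, 0⟩, ⟨2444, 5209, 11133⟩, ⟨2, 4, 25⟩,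
   ⟨3893, -2310, 2285⟩, 627, -2072, ⟨13535, 38765, 113635⟩, 208, 768, -112, -1024⟩

theorem hi1b6_ok : hi1b6.ok = true := by decide +kernel

def hi1b7 : CellD :=
  ⟨⟨512, 768, 0, 512, -208, -112⟩, 5202, 1192, 4055, 1434, 2731, ⟨1668, -279, 1294, 2233⟩,
   ⟨794, -500, 175, 478⟩, ⟨-99, 304, -133, 113⟩, ⟨-149, 389, 92, 126⟩, ⟨898, -698, -236, -139⟩,
   ⟨7820, -3296, 2762, 1402⟩, ⟨8835, -4883, -2442, -1922⟩, ⟨2535, 1840, -5129⟩,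
   ⟨2213, 2135, 4728⟩, -3691, -6239, 4423, -46, ⟨3337, 5613, 9516⟩, ⟨4781, -35, 69⟩, ⟨1, 3, 22⟩,
   ⟨807, 1151, 1655⟩, ⟨1333, 858, 618⟩, ⟨2, 3, 13⟩, ⟨8, 8, 32⟩, -11, 687, ⟨2765, 5058, 10390⟩,
   208, 0, -112, -512⟩

theorem hi1b7_ok : hi1b7.ok = true := by decide +kernel

def hi1b8 : CellD :=
  ⟨⟨512, 768, 512, 768, -208, -112⟩, 5202, 1192, 4055, 1434, 2731, ⟨1451, -1556, 2486, 1012⟩,
   ⟨1125, -1146, -278, -646⟩, ⟨1274, -1177, -1725, -891⟩, ⟨91, 129, -234, -213⟩,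
   ⟨1544, -2361, -367, -1294⟩, ⟨6649, -1713, 2862, 818⟩, ⟨9723, -6460, -2391, -1963⟩,
   ⟨2182, 884, -3171⟩, ⟨4902, -1211, 3494⟩, 2078, -12056, 3252, 1757, ⟨1288, -5651, 37703⟩,
   ⟨2659, 1672, 1784⟩, ⟨8, 12, 42⟩, ⟨7, 12, 44⟩, ⟨3266, 7181, 16338⟩, ⟨5, 10, 38⟩,
   ⟨292, 226, 307⟩, 1746, -3529, ⟨19575, 46181, 110315⟩, 208, 512, -112, -768⟩

theorem hi1b8_ok : hi1b8.ok = true := by decide +kernel

def hi1b9 : CellD :=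
  ⟨⟨512, 768, 768, 1024, -208, -112⟩, 5202, 1192, 4055, 1434, 2731, ⟨4729, -3015, -710, 564⟩,
   ⟨3604, -2312, -2479, -68⟩, ⟨8889, -4487, -8979, -454⟩, ⟨207, -35, -120, -12⟩,
   ⟨2482, -3949, -832, -2842⟩, ⟨5808, -578, 2928, 270⟩, ⟨7819, -4716, -752, -696⟩,
   ⟨1085, 193, -1180⟩, ⟨13892, -10766, -1087⟩, -1992, -22305, 4288, 1913, ⟨1120, 10921, 122195⟩,
   ⟨4515, 2143, 1704⟩, ⟨9, 0, 0⟩, ⟨0, 0, 0⟩, ⟨2304, 6205, 18970⟩, ⟨1, 3, 17⟩, ⟨4953, -1904, 847⟩,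
   2938, -6482, ⟨15978, 43961, 121054⟩, 208, 768, -112, -1024⟩

theorem hi1b9_ok : hi1b9.ok = true := by decide +kernel

def hi1b10 : CellD :=
  ⟨⟨768, 1024, 0, 512, -208, -112⟩, 5202, 1192, 4055, 1434, 2731, ⟨1848, -934, 703, 891⟩,
   ⟨685, -428, 205, 294⟩, ⟨-177, 377, -214, -64⟩, ⟨-253, 487, 169, 116⟩, ⟨733, -518, -252, -66⟩,
   ⟨6437, -1787, 3052, 553⟩, ⟨3687, 2398, -230, -199⟩, ⟨3523, 801, -5117⟩, ⟨9576, -6616, -846⟩,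
   -1293, -3931, 3624, -662, ⟨445, 1234, 3780⟩, ⟨3226, -571, 152⟩, ⟨3, -19, 376⟩, ⟨73, 181, 472⟩,
   ⟨238, 128, 234⟩, ⟨4, 4, 17⟩, ⟨10, 6, 23⟩, 28, 259, ⟨543, 2360, 11389⟩, 208, 0, -112, -512⟩

theorem hi1b10_ok : hi1b10.ok = true := by decide +kernel

def hi1b11 : CellD :=
  ⟨⟨768, 1024, 512, 768, -208, -112⟩, 5202, 1192, 4055, 1434, 2731, ⟨2692, -1645, 255, 625⟩,
   ⟨1344, -771, -777, -146⟩, ⟨2797, -1816, -2902, 91⟩, ⟨400, 53, -495, 103⟩,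
   ⟨2810, -2461, -1843, -683⟩, ⟨5988, -1684, 3952, 1091⟩, ⟨-5066, 10987, 1490, -456⟩,
   ⟨2857, 752, -4088⟩, ⟨19561, -15782, -4323⟩, 2567, -10561, 3693, -993, ⟨1881, -5883, 30023⟩,
   ⟨3499, -290, 2462⟩, ⟨164, -86, 210⟩, ⟨8, 23, 87⟩, ⟨2214, 6272, 21178⟩, ⟨7, 18, 72⟩,
   ⟨5492, 2000, 887⟩, 616, -1063, ⟨18054, 42068, 98198⟩, 208, 512, -112, -768⟩

theorem hi1b11_ok : hi1b11.ok = true := by decide +kernel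

def hi1b12 : CellD :=
  ⟨⟨768, 1024, 768, 1024, -208, -112⟩, 5202, 1192, 4055, 1434, 2731, ⟨7838, -2677, -5501, 808⟩,
   ⟨6740, -3028, -6152, -3007⟩, ⟨21767, -11879, -19719, -9143⟩, ⟨1886, -1249, -1243, -958⟩,
   ⟨9565, -9120, -5106, -6127⟩, ⟨4810, -571, 4082, 379⟩, ⟨-11903, 16950, 3143, -272⟩,
   ⟨1465, 179, -1598⟩, ⟨22776, -17123, -5620⟩, -124, -20355, 2829, -3856, ⟨633, 2306, 109144⟩,
   ⟨2154, -1722, 8344⟩, ⟨246, 0, 0⟩, ⟨2, 0, 0⟩, ⟨2238, 7820, 35119⟩, ⟨6, 21, 111⟩,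
   ⟨9867, 734, 786⟩, 3198, -4652, ⟨19142, 46946, 116004⟩, 208, 768, -112, -1024⟩

theorem hi1b12_ok : hi1b12.ok = true := by decide +kernel

theorem hi1b_win : WGood ⟨5202, 1192, 4055, 1434, 2731⟩ ⟨0, 1024, 0, 1024, -208, -112⟩ :=
  wgood_cover (cells := [hi1b0.box, hi1b1.box, hi1b2.box, hi1b3.box, hi1b4.box, hi1b5.box, hi1b6.box, hi1b7.box, hi1b8.box, hi1b9.box, hi1b10.box, hi1b11.box, hi1b12.box])
    (by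
      intro c hc
      simp only [List.mem_cons, List.not_mem_nil, or_false] at hc
      rcases hc with rfl | rfl | rfl | rfl | rfl | rfl | rfl | rfl | rfl | rfl | rfl | rfl | rfl
      · exact wgood_of_ok hi1b0_ok (by decide)
      · exact wgood_of_ok hi1b1_ok (by decide)
      · exact wgood_of_ok hi1b2_ok (by decide)
      · exact wgood_of_ok hi1b3_ok (by decide)
      · exact wgood_of_ok hi1b4_ok (by decide)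
      · exact wgood_of_ok hi1b5_ok (by decide)
      · exact wgood_of_ok hi1b6_ok (by decide)
      · exact wgood_of_ok hi1b7_ok (by decide)
      · exact wgood_of_ok hi1b8_ok (by decide)
      · exact wgood_of_ok hi1b9_ok (by decide)
      · exact wgood_of_ok hi1b10_ok (by decide)
      · exact wgood_of_ok hi1b11_ok (by decide)
      · exact wgood_of_ok hi1b12_ok (by decide))
    (CTree.n1 512 (CTree.n1 256 (CTree.n2 512 (CTree.leaf 0) (CTree.n1 128 (CTree.leaf 1)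
    (CTree.leaf 2))) (CTree.n2 512 (CTree.leaf 3) (CTree.n1 384 (CTree.leaf 4) (CTree.n2 768
    (CTree.leaf 5) (CTree.leaf 6))))) (CTree.n1 768 (CTree.n2 512 (CTree.leaf 7) (CTree.n2 768
    (CTree.leaf 8) (CTree.leaf 9))) (CTree.n2 512 (CTree.leaf 10) (CTree.n2 768 (CTree.leaf 11)
    (CTree.leaf 12)))))
    (by decide +kernel)

end Pool.G1.Gap.PB
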