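import Pool.Agent.Work.MP_b5407d_g1.Pl_PWL

/-!
# G1, line P-a: certificate cells, window t in [1434, 2731]/4096, tau in [208, 304]/1024

Cells of helper93 (optimiser), checker of helper97, bridge of helper38.
-/

set_option autoImplicit false
set_option maxRecDepth 100000

namespace Pool.G1.Gap.PB

def hi2a0 : CellD :=
  ⟨⟨0, 512, 0, 512, 208, 304⟩, 5243, 1430, 3396, 1434, 2731, ⟨1567, -106, 1621, -1789⟩,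
   ⟨908, -801, 293, 655⟩, ⟨-32, 109, -24, -54⟩, ⟨-44, 149, 11, -29⟩, ⟨833, -632, -58, -368⟩,
   ⟨8121, -2410, 803, 485⟩, ⟨9004, -5986, -1122, -776⟩, ⟨1409, 2572, -2805⟩, ⟨76, 7857, 4383⟩,
   207, 3501, 4710, 121, ⟨789, -323, 4181⟩, ⟨5512, -40, 413⟩, ⟨24, -13, 37⟩, ⟨36, -11, 18⟩,
   ⟨9691, -3611, 3471⟩, ⟨7, -2, 6⟩, ⟨3801, -866, 282⟩, -3211, 5156, ⟨8507, 18652, 44804⟩, -208,
   512, 304, 0⟩

theorem hi2a0_ok : hi2a0.ok = true := by decide +kernel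

def hi2a1 : CellD :=
  ⟨⟨0, 128, 512, 1024, 208, 304⟩, 5243, 1430, 3396, 1434, 2731, ⟨1298, -3047, 1996, -650⟩,
   ⟨877, -743, -429, 1812⟩, ⟨-8, 172, -222, 127⟩, ⟨-54, 91, 27, 67⟩, ⟨918, -1401, 82, -734⟩,
   ⟨8166, -770, 193, 41⟩, ⟨8660, -8770, -307, -377⟩, ⟨287, 784, -285⟩, ⟨-819, 22147, 1650⟩,
   -2291, 2122, 3977, 348, ⟨8299, -13236, 58572⟩, ⟨4080, -314, 2499⟩, ⟨249, 0, 0⟩, ⟨23, 0, 0⟩,
   ⟨8696, -5960, 4208⟩, ⟨33, -109, 434⟩, ⟨1762, -2198, 2977⟩, -2990, 3450,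
   ⟨16082, 43452, 120767⟩, -208, 1024, 304, -512⟩

theorem hi2a1_ok : hi2a1.ok = true := by decide +kernel

def hi2a2 : CellD :=
  ⟨⟨128, 256, 512, 1024, 208, 304⟩, 5243, 1430, 3396, 1434, 2731, ⟨1479, -511, 1717, -1875⟩,
   ⟨1053, -1538, -400, 1394⟩, ⟨186, -378, -424, -22⟩, ⟨-48, 153, 28, -25⟩,
   ⟨854, -1017, 45, -573⟩, ⟨7843, -778, 584, 165⟩, ⟨9223, -8371, -893, -1091⟩, ⟨627, 795, -725⟩,
   ⟨-2134, 17697, 4201⟩, -4690, 10202, 3891, 628, ⟨8450, -18970, 58242⟩, ⟨3776, 352, 1058⟩,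
   ⟨254, 0, 0⟩, ⟨7, 0, 0⟩, ⟨6647, -7358, 8280⟩, ⟨5, -2, 9⟩, ⟨2360, -897, 444⟩, -3124, 10789,
   ⟨12173, 37977, 119491⟩, -208, 1024, 304, -512⟩

theorem hi2a2_ok : hi2a2.ok = true := by decide +kernel

def hi2a3 : CellD :=
  ⟨⟨256, 512, 512, 1024, 208, 304⟩, 5243, 1430, 3396, 1434, 2731, ⟨1677, -633, 961, -1593⟩,
   ⟨1268, -1476, -411, 831⟩, ⟨553, -680, -781, -388⟩, ⟨-79, 225, 68, -100⟩,
   ⟨857, -1171, 78, -531⟩, ⟨7394, -786, 1181, 284⟩, ⟨9824, -7762, -1642, -1730⟩,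
   ⟨1189, 655, -1351⟩, ⟨-1546, 9959, 6412⟩, -934, 9277, 4213, -757, ⟨2973, -8673, 42469⟩,
   ⟨4393, -958, 782⟩, ⟨248, 0, 0⟩, ⟨3, 0, 0⟩, ⟨5533, -8084, 12131⟩, ⟨4, -4, 12⟩,
   ⟨6180, -2385, 1006⟩, -2044, 4687, ⟨9467, 32275, 110805⟩, -208, 1024, 304, -512⟩

theorem hi2a3_ok : hi2a3.ok = true := by decide +kernel

def hi2a4 : CellD :=
  ⟨⟨512, 1024, 0, 512, 208, 304⟩, 5243, 1430, 3396, 1434, 2731, ⟨2427, -848, 843, -3075⟩,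
   ⟨902, -608, 339, -87⟩, ⟨8, 229, -125, -311⟩, ⟨-72, 319, 92, -156⟩, ⟨689, -410, -202, -293⟩,
   ⟨7506, -2647, 2648, 1538⟩, ⟨5200, 1298, 239, -4⟩, ⟨2639, 1221, -4746⟩, ⟨6860, -4174, 1023⟩,
   -364, 4549, 2836, 707, ⟨55, -413, 5072⟩, ⟨2000, 449, 190⟩, ⟨180, 183, 554⟩, ⟨6, -4, 5⟩,
   ⟨2985, -292, 1332⟩, ⟨2, -1, 3⟩, ⟨55, -8, 10⟩, -2917, 2849, ⟨1404, 4084, 11996⟩, -208, 512,
   304, 0⟩

theorem hi2a4_ok : hi2a4.ok = true := by decide +kernel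

def hi2a5 : CellD :=
  ⟨⟨512, 1024, 512, 1024, 208, 304⟩, 5243, 1430, 3396, 1434, 2731, ⟨2697, -410, -818, -1401⟩,
   ⟨1502, -671, -593, -581⟩, ⟨2089, -1099, -1838, -3109⟩, ⟨106, 202, 96, -807⟩,
   ⟨1143, -1365, -166, -381⟩, ⟨6515, -799, 2404, 488⟩, ⟨1388, 6503, 599, -946⟩,
   ⟨2147, 364, -2322⟩, ⟨14777, -12743, -1612⟩, -187, 13860, 4340, -1236, ⟨1121, -3365, 54103⟩,
   ⟨4651, -1514, 1250⟩, ⟨271, 0, 0⟩, ⟨1, 0, 0⟩, ⟨5050, -8080, 17889⟩, ⟨2, -4, 16⟩,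
   ⟨12970, -4545, 1736⟩, -2186, 3367, ⟨5562, 22998, 95691⟩, -208, 1024, 304, -512⟩

theorem hi2a5_ok : hi2a5.ok = true := by decide +kernel

theorem hi2a_win : WGood ⟨5243, 1430, 3396, 1434, 2731⟩ ⟨0, 1024, 0, 1024, 208, 304⟩ :=
  wgood_cover (cells := [hi2a0.box, hi2a1.box, hi2a2.box, hi2a3.box, hi2a4.box, hi2a5.box])
    (by
      intro c hc
      simp only [List.mem_cons, List.not_mem_nil, or_false] at hc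
      rcases hc with rfl | rfl | rfl | rfl | rfl | rfl
      · exact wgood_of_ok hi2a0_ok (by decide)
      · exact wgood_of_ok hi2a1_ok (by decide)
      · exact wgood_of_ok hi2a2_ok (by decide)
      · exact wgood_of_ok hi2a3_ok (by decide)
      · exact wgood_of_ok hi2a4_ok (by decide)
      · exact wgood_of_ok hi2a5_ok (by decide))
    (CTree.n1 512 (CTree.n2 512 (CTree.leaf 0) (CTree.n1 256 (CTree.n1 128 (CTree.leaf 1)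
    (CTree.leaf 2)) (CTree.leaf 3))) (CTree.n2 512 (CTree.leaf 4) (CTree.leaf 5)))
    (by decide +kernel)

def hi2b0 : CellD :=
  ⟨⟨0, 512, 0, 512, -304, -208⟩, 5243, 1430, 3396, 1434, 2731, ⟨1569, 346, 1669, 2206⟩,
   ⟨788, -422, 152, 446⟩, ⟨-61, 216, -39, 20⟩, ⟨-92, 301, 38, 13⟩, ⟨1066, -1076, -183, -463⟩,
   ⟨8351, -3692, 1195, 456⟩, ⟨8449, -4164, -816, -875⟩, ⟨1356, 3221, -2701⟩, ⟨201, 7034, 3990⟩,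
   -6113, -5937, 6000, -232, ⟨9181, 8895, 8774⟩, ⟨8866, -183, 383⟩, ⟨3, 2, 5⟩, ⟨1310, 1126, 985⟩,
   ⟨2147, 1674, 1327⟩, ⟨6, 4, 10⟩, ⟨5753, 3876, 2651⟩, 657, -451, ⟨4071, 6034, 31263⟩, 304, 0,
   -208, -512⟩

theorem hi2b0_ok : hi2b0.ok = true := by decide +kernel

def hi2b1 : CellD :=
  ⟨⟨0, 512, 512, 768, -304, -208⟩, 5243, 1430, 3396, 1434, 2731, ⟨1068, 457, 2281, 2350⟩,
   ⟨772, -382, 106, 420⟩, ⟨59, 120, -171, 110⟩, ⟨-79, 320, -3, -2⟩, ⟨1107, -1579, -149, -746⟩,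
   ⟨7684, -1884, 1238, 255⟩, ⟨8549, -5651, -788, -1499⟩, ⟨1085, 1040, -1445⟩, ⟨-865, 8911, 5230⟩,
   -7352, -17193, 6188, 3070, ⟨13490, 31553, 74704⟩, ⟨9470, 4964, 3229⟩, ⟨2, 1, 5⟩, ⟨7, 6, 14⟩,
   ⟨2992, 2892, 2883⟩, ⟨3, 3, 9⟩, ⟨5553, 3549, 2306⟩, 1054, -810, ⟨7320, 21811, 115604⟩, 304,
   512, -208, -768⟩

theorem hi2b1_ok : hi2b1.ok = true := by decide +kernel

def hi2b2 : CellD :=
  ⟨⟨0, 256, 768, 1024, -304, -208⟩, 5243, 1430, 3396, 1434, 2731, ⟨1322, 530, 1411, 2454⟩,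
   ⟨694, 50, -372, -767⟩, ⟨105, 272, -383, -376⟩, ⟨-48, 217, 9, -43⟩, ⟨607, -2719, 265, -1928⟩,
   ⟨7785, -636, 637, 26⟩, ⟨8494, -6212, -405, -842⟩, ⟨289, 198, -288⟩, ⟨-1879, 19953, 3165⟩,
   -8405, -21365, 5151, 5210, ⟨17503, 44761, 116678⟩, ⟨6590, 7039, 8806⟩, ⟨5, 0, 0⟩, ⟨1, 0, 0⟩,
   ⟨1674, 619, 231⟩, ⟨1, 1, 3⟩, ⟨6348, 5730, 5552⟩, 837, -2948, ⟨2229, 5909, 63958⟩, 304, 768,
   -208, -1024⟩

theorem hi2b2_ok : hi2b2.ok = true := by decide +kernel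

def hi2b3 : CellD :=
  ⟨⟨256, 384, 768, 1024, -304, -208⟩, 5243, 1430, 3396, 1434, 2731, ⟨2034, 411, 754, 2311⟩,
   ⟨850, -457, -335, -443⟩, ⟨557, -235, -986, -678⟩, ⟨-83, 209, 27, -109⟩,
   ⟨886, -2059, 179, -1003⟩, ⟨6965, -631, 1587, 148⟩, ⟨9071, -6878, -1147, -1687⟩,
   ⟨562, 220, -616⟩, ⟨-1088, 9670, 4740⟩, -8361, -21340, 4407, 1568, ⟨17506, 44421, 116201⟩,
   ⟨4798, 1903, 1527⟩, ⟨10, 0, 0⟩, ⟨1, 0, 0⟩, ⟨1911, 1458, 1118⟩, ⟨1, 2, 7⟩, ⟨4507, 1829, 6392⟩,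
   -26, -87, ⟨4438, 13368, 74724⟩, 304, 768, -208, -1024⟩

theorem hi2b3_ok : hi2b3.ok = true := by decide +kernel

def hi2b4 : CellD :=
  ⟨⟨384, 512, 768, 1024, -304, -208⟩, 5243, 1430, 3396, 1434, 2731, ⟨3101, -1003, 149, 2689⟩,
   ⟨1295, -763, -586, -70⟩, ⟨1414, -465, -1842, -370⟩, ⟨-56, 271, -8, -48⟩,
   ⟨1210, -2163, -74, -895⟩, ⟨6431, -629, 2214, 210⟩, ⟨9656, -7320, -1708, -1973⟩,
   ⟨769, 214, -848⟩, ⟨1672, 3241, 4332⟩, -6250, -20715, 4529, 2267, ⟨9850, 32632, 110932⟩,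
   ⟨5057, 2672, 1835⟩, ⟨19, 0, 0⟩, ⟨1, 0, 0⟩, ⟨2014, 2457, 3016⟩, ⟨2, 3, 11⟩,
   ⟨3657, -1331, 2694⟩, -58, 297, ⟨6490, 19192, 75810⟩, 304, 768, -208, -1024⟩

theorem hi2b4_ok : hi2b4.ok = true := by decide +kernel

def hi2b5 : CellD :=
  ⟨⟨512, 768, 0, 512, -304, -208⟩, 5243, 1430, 3396, 1434, 2731, ⟨1775, -593, 1246, 1774⟩,
   ⟨745, -452, 174, 339⟩, ⟨-89, 263, -138, 14⟩, ⟨-123, 334, 81, 53⟩, ⟨967, -813, -259, -212⟩,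
   ⟨7879, -3441, 2889, 1400⟩, ⟨8758, -4782, -2391, -1924⟩, ⟨2608, 1914, -5329⟩,
   ⟨2300, 1867, 4471⟩, -3690, -4568, 3729, -434, ⟨3345, 4099, 5139⟩, ⟨3426, -356, 130⟩,
   ⟨5, 5, 20⟩, ⟨1201, 1331, 1494⟩, ⟨1337, 761, 489⟩, ⟨11, 12, 27⟩, ⟨27, 17, 42⟩, 315, 68,
   ⟨2051, 3529, 7972⟩, 304, 0, -208, -512⟩

theorem hi2b5_ok : hi2b5.ok = true := by decide +kernel

def hi2b6 : CellD :=
  ⟨⟨512, 768, 512, 768, -304, -208⟩, 5243, 1430, 3396, 1434, 2731, ⟨1647, -1570, 2314, 1692⟩,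
   ⟨933, -749, -48, 49⟩, ⟨628, -508, -891, -295⟩, ⟨-21, 254, -74, -45⟩,
   ⟨1308, -1713, -275, -634⟩, ⟨6602, -1822, 3046, 816⟩, ⟨9832, -6561, -2483, -2018⟩,
   ⟨2213, 908, -3227⟩, ⟨4857, -1376, 3337⟩, 769, -8887, 3281, 1987, ⟨232, -1657, 19469⟩,
   ⟨2743, 1870, 1652⟩, ⟨6, 7, 18⟩, ⟨8, 10, 24⟩, ⟨3160, 4575, 6702⟩, ⟨7, 8, 21⟩, ⟨77, 62, 112⟩,
   1767, -3010, ⟨11572, 29750, 93850⟩, 304, 512, -208, -768⟩

theorem hi2b6_ok : hi2b6.ok = true := by decide +kernel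

def hi2b7 : CellD :=
  ⟨⟨512, 768, 768, 1024, -304, -208⟩, 5243, 1430, 3396, 1434, 2731, ⟨3679, -1965, 88, 2919⟩,
   ⟨2028, -1212, -973, 522⟩, ⟨3721, -1515, -3859, 361⟩, ⟨-12, 262, -12, 49⟩,
   ⟨1626, -2560, -266, -1057⟩, ⟨5640, -621, 3150, 267⟩, ⟨8517, -5545, -996, -784⟩,
   ⟨1092, 196, -1189⟩, ⟨12745, -9543, -730⟩, -3957, -21006, 4530, 2380, ⟨4298, 21322, 112372⟩,
   ⟨5053, 2776, 1912⟩, ⟨22, 0, 0⟩, ⟨1, 0, 0⟩, ⟨2112, 3977, 7647⟩, ⟨2, 4, 14⟩, ⟨4277, -1689, 890⟩,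
   1681, -3588, ⟨8821, 22620, 60365⟩, 304, 768, -208, -1024⟩

theorem hi2b7_ok : hi2b7.ok = true := by decide +kernel

def hi2b8 : CellD :=
  ⟨⟨768, 1024, 0, 512, -304, -208⟩, 5243, 1430, 3396, 1434, 2731, ⟨1911, -1102, 633, 713⟩,
   ⟨699, -431, 188, 261⟩, ⟨-162, 361, -227, -54⟩, ⟨-192, 421, 144, 95⟩, ⟨808, -588, -283, -71⟩,
   ⟨5896, -1167, 2815, 17⟩, ⟨4449, 1596, -477, -201⟩, ⟨3731, 509, -4984⟩, ⟨9087, -6118, -698⟩,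
   -1388, -2522, 3025, -503, ⟨506, 842, 1561⟩, ⟨2253, -344, 116⟩, ⟨5, 16, 371⟩, ⟨326, 470, 693⟩,
   ⟨266, 67, 40⟩, ⟨10, 11, 25⟩, ⟨19, 11, 26⟩, 432, -150, ⟨580, 2168, 9681⟩, 304, 0, -208, -512⟩

theorem hi2b8_ok : hi2b8.ok = true := by decide +kernel

def hi2b9 : CellD :=
  ⟨⟨768, 1024, 512, 768, -304, -208⟩, 5243, 1430, 3396, 1434, 2731, ⟨2768, -1623, 192, 1043⟩,
   ⟨972, -599, -183, 132⟩, ⟨1373, -936, -1379, -77⟩, ⟨32, 293, -116, 85⟩,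
   ⟨1942, -1779, -947, -320⟩, ⟨5929, -1778, 4178, 1089⟩, ⟨-4139, 9990, 1404, -488⟩,
   ⟨2914, 784, -4192⟩, ⟨18662, -14948, -4212⟩, 2013, -8555, 3972, 272, ⟨1269, -3790, 18740⟩,
   ⟨4083, 797, 1269⟩, ⟨101, -51, 164⟩, ⟨13, 24, 59⟩, ⟨2388, 4652, 9991⟩, ⟨11, 19, 48⟩,
   ⟨5709, 2694, 1377⟩, 1165, -1572, ⟨11635, 23690, 52522⟩, 304, 512, -208, -768⟩

theorem hi2b9_ok : hi2b9.ok = true := by decide +kernel

def hi2b10 : CellD :=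
  ⟨⟨768, 1024, 768, 1024, -304, -208⟩, 5243, 1430, 3396, 1434, 2731, ⟨6633, -2440, -4024, 1239⟩,
   ⟨2807, -1419, -1915, -460⟩, ⟨9503, -5395, -8361, -2652⟩, ⟨535, -102, -406, -172⟩,
   ⟨5061, -4714, -2584, -2039⟩, ⟨4582, -611, 4382, 376⟩, ⟨-11481, 16619, 2937, -672⟩,
   ⟨1479, 182, -1614⟩, ⟨21906, -16541, -5331⟩, -985, -16158, 3043, -2118, ⟨1341, 6566, 72156⟩,
   ⟨2491, -850, 3483⟩, ⟨188, 0, 0⟩, ⟨2, 0, 0⟩, ⟨2237, 5462, 15748⟩, ⟨7, 17, 57⟩,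
   ⟨9367, 563, 406⟩, 2918, -4083, ⟨12624, 29236, 69529⟩, 304, 768, -208, -1024⟩

theorem hi2b10_ok : hi2b10.ok = true := by decide +kernel

theorem hi2b_win : WGood ⟨5243, 1430, 3396, 1434, 2731⟩ ⟨0, 1024, 0, 1024, -304, -208⟩ :=
  wgood_cover (cells := [hi2b0.box, hi2b1.box, hi2b2.box, hi2b3.box, hi2b4.box, hi2b5.box, hi2b6.box, hi2b7.box, hi2b8.box, hi2b9.box, hi2b10.box])
    (by
      intro c hc
      simp only [List.mem_cons, List.not_mem_nil, or_false] at hc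
      rcases hc with rfl | rfl | rfl | rfl | rfl | rfl | rfl | rfl | rfl | rfl | rfl
      · exact wgood_of_ok hi2b0_ok (by decide)
      · exact wgood_of_ok hi2b1_ok (by decide)
      · exact wgood_of_ok hi2b2_ok (by decide)
      · exact wgood_of_ok hi2b3_ok (by decide)
      · exact wgood_of_ok hi2b4_ok (by decide)
      · exact wgood_of_ok hi2b5_ok (by decide)
      · exact wgood_of_ok hi2b6_ok (by decide)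
      · exact wgood_of_ok hi2b7_ok (by decide)
      · exact wgood_of_ok hi2b8_ok (by decide)
      · exact wgood_of_ok hi2b9_ok (by decide)
      · exact wgood_of_ok hi2b10_ok (by decide))
    (CTree.n1 512 (CTree.n2 512 (CTree.leaf 0) (CTree.n2 768 (CTree.leaf 1) (CTree.n1 256
    (CTree.leaf 2) (CTree.n1 384 (CTree.leaf 3) (CTree.leaf 4))))) (CTree.n1 768 (CTree.n2 512
    (CTree.leaf 5) (CTree.n2 768 (CTree.leaf 6) (CTree.leaf 7))) (CTree.n2 512 (CTree.leaf 8)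
    (CTree.n2 768 (CTree.leaf 9) (CTree.leaf 10)))))
    (by decide +kernel)

end Pool.G1.Gap.PB
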