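import Pool.Agent.Work.MP_b5407d_g1.Pl_PWL

/-!
# G1, line P-a: certificate cells, window t in [1434, 2731]/4096, tau in [304, 416]/1024

Cells of helper93 (optimiser), checker of helper97, bridge of helper38.
-/

set_option autoImplicit false
set_option maxRecDepth 100000

namespace Pool.G1.Gap.PB

def hi3a0 : CellD :=
  ⟨⟨0, 512, 0, 512, 304, 416⟩, 5005, 1434, 3457, 1434, 2731, ⟨1773, -1261, 978, -1601⟩,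
   ⟨893, -964, 367, 907⟩, ⟨-35, 112, -28, -41⟩, ⟨-48, 164, 11, -28⟩, ⟨799, -580, -44, -328⟩,
   ⟨8072, -2143, 714, 503⟩, ⟨9109, -6340, -1164, -776⟩, ⟨1420, 2450, -2826⟩, ⟨67, 8001, 4456⟩,
   2153, 1799, 4074, 237, ⟨3308, -204, 2605⟩, ⟨4265, -18, 391⟩, ⟨3069, -1034, 446⟩,
   ⟨64, -14, 16⟩, ⟨14946, -5488, 3644⟩, ⟨14, -3, 6⟩, ⟨1071, -225, 137⟩, -3368, 5835,
   ⟨7651, 14848, 34721⟩, -304, 512, 416, 0⟩

theorem hi3a0_ok : hi3a0.ok = true := by decide +kernel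

def hi3a1 : CellD :=
  ⟨⟨0, 256, 512, 768, 304, 416⟩, 5005, 1434, 3457, 1434, 2731, ⟨1394, -3267, 2652, -2027⟩,
   ⟨638, -857, 150, 1678⟩, ⟨-57, 21, -52, 1⟩, ⟨-41, 108, 23, 1⟩, ⟨861, -951, 28, -484⟩,
   ⟨8045, -1016, 342, 173⟩, ⟨8959, -8526, -619, -656⟩, ⟨565, 1087, -751⟩, ⟨-1330, 17975, 2939⟩,
   1638, -892, 3152, 1137, ⟨15906, -18293, 44468⟩, ⟨2896, -33, 2086⟩, ⟨982, -222, 201⟩,
   ⟨44, -13, 22⟩, ⟨12780, -8220, 5486⟩, ⟨14, -4, 7⟩, ⟨320, -116, 138⟩, -437, -6509,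
   ⟨22535, 38074, 120803⟩, -304, 768, 416, -512⟩

theorem hi3a1_ok : hi3a1.ok = true := by decide +kernel

def hi3a2 : CellD :=
  ⟨⟨0, 256, 768, 1024, 304, 416⟩, 5005, 1434, 3457, 1434, 2731, ⟨921, -1328, 2477, -1143⟩,
   ⟨962, -772, -872, 2359⟩, ⟨287, 85, -723, 347⟩, ⟨-47, 0, 46, 2⟩, ⟨575, -883, 307, -380⟩,
   ⟨8010, -333, 334, 46⟩, ⟨9130, -9752, -606, -734⟩, ⟨286, 195, -285⟩, ⟨-2307, 23244, 3362⟩, 591,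
   -1695, 5574, -4986, ⟨2702, -7477, 21447⟩, ⟨7615, -6879, 6388⟩, ⟨1, 0, 0⟩, ⟨0, 0, 0⟩,
   ⟨10067, -6866, 4684⟩, ⟨0, 0, 0⟩, ⟨2, 0, 0⟩, -5359, 2884, ⟨4532, 15554, 53385⟩, -304, 1024,
   416, -768⟩

theorem hi3a2_ok : hi3a2.ok = true := by decide +kernel

def hi3a3 : CellD :=
  ⟨⟨256, 512, 512, 1024, 304, 416⟩, 5005, 1434, 3457, 1434, 2731, ⟨2830, -1436, -537, -2523⟩,
   ⟨1118, -1416, -261, 1129⟩, ⟨467, -625, -671, -245⟩, ⟨-91, 261, 81, -91⟩,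
   ⟨818, -957, 77, -489⟩, ⟨7463, -691, 1038, 293⟩, ⟨9949, -8007, -1686, -1727⟩,
   ⟨1180, 645, -1340⟩, ⟨-1944, 10965, 6772⟩, -664, 6827, 3755, -395, ⟨5121, -9784, 31214⟩,
   ⟨3503, -522, 472⟩, ⟨604, 0, 0⟩, ⟨4, 0, 0⟩, ⟨6838, -7759, 8951⟩, ⟨6, -4, 9⟩,
   ⟨5883, -1549, 480⟩, -2051, 4591, ⟨6353, 23021, 84510⟩, -304, 1024, 416, -512⟩

theorem hi3a3_ok : hi3a3.ok = true := by decide +kernel

def hi3a4 : CellD :=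
  ⟨⟨512, 1024, 0, 512, 304, 416⟩, 5005, 1434, 3457, 1434, 2731, ⟨1935, -972, -728, -1364⟩,
   ⟨889, -627, 444, 13⟩, ⟨8, 226, -128, -239⟩, ⟨-175, 439, 146, -65⟩, ⟨695, -400, -161, -347⟩,
   ⟨7440, -2517, 2517, 1544⟩, ⟨4742, 1927, 235, -8⟩, ⟨2583, 1169, -4590⟩, ⟨7093, -4482, 995⟩,
   1883, 3317, 3726, 57, ⟨935, 1526, 2723⟩, ⟨3509, -30, 99⟩, ⟨1781, -228, 1259⟩, ⟨11, -4, 5⟩,
   ⟨5314, -1308, 1629⟩, ⟨7, -2, 3⟩, ⟨2271, 42, 18⟩, -3071, 2871, ⟨1787, 4826, 13286⟩, -304, 512,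
   416, 0⟩

theorem hi3a4_ok : hi3a4.ok = true := by decide +kernel

def hi3a5 : CellD :=
  ⟨⟨512, 1024, 512, 1024, 304, 416⟩, 5005, 1434, 3457, 1434, 2731, ⟨3943, -606, -4273, -1228⟩,
   ⟨1474, -1037, -409, 140⟩, ⟨1472, -1118, -1225, -1363⟩, ⟨42, 216, 146, -512⟩,
   ⟨1137, -1334, 0, -609⟩, ⟨6642, -711, 2139, 506⟩, ⟨1101, 7053, 437, -941⟩, ⟨2117, 350, -2285⟩,
   ⟨15382, -13430, -1477⟩, 1266, 6091, 4347, -1017, ⟨2655, -1748, 16102⟩, ⟨4735, -1376, 1097⟩,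
   ⟨994, 0, 0⟩, ⟨3, 0, 0⟩, ⟨6991, -8332, 13552⟩, ⟨5, -7, 17⟩, ⟨15249, -4002, 1207⟩, -66, 1075,
   ⟨3790, 13774, 52294⟩, -304, 1024, 416, -512⟩

theorem hi3a5_ok : hi3a5.ok = true := by decide +kernel

theorem hi3a_win : WGood ⟨5005, 1434, 3457, 1434, 2731⟩ ⟨0, 1024, 0, 1024, 304, 416⟩ :=
  wgood_cover (cells := [hi3a0.box, hi3a1.box, hi3a2.box, hi3a3.box, hi3a4.box, hi3a5.box])
    (by
      intro c hc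
      simp only [List.mem_cons, List.not_mem_nil, or_false] at hc
      rcases hc with rfl | rfl | rfl | rfl | rfl | rfl
      · exact wgood_of_ok hi3a0_ok (by decide)
      · exact wgood_of_ok hi3a1_ok (by decide)
      · exact wgood_of_ok hi3a2_ok (by decide)
      · exact wgood_of_ok hi3a3_ok (by decide)
      · exact wgood_of_ok hi3a4_ok (by decide)
      · exact wgood_of_ok hi3a5_ok (by decide))
    (CTree.n1 512 (CTree.n2 512 (CTree.leaf 0) (CTree.n1 256 (CTree.n2 768 (CTree.leaf 1)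
    (CTree.leaf 2)) (CTree.leaf 3))) (CTree.n2 512 (CTree.leaf 4) (CTree.leaf 5)))
    (by decide +kernel)

def hi3b0 : CellD :=
  ⟨⟨0, 512, 0, 512, -416, -304⟩, 5005, 1434, 3457, 1434, 2731, ⟨1761, -6, 1431, 2315⟩,
   ⟨750, -383, 138, 372⟩, ⟨-67, 185, -29, -1⟩, ⟨-88, 272, 36, -2⟩, ⟨1097, -1262, -217, -645⟩,
   ⟨8399, -3947, 1267, 456⟩, ⟨8294, -3772, -714, -957⟩, ⟨1350, 3356, -2689⟩, ⟨248, 6796, 3917⟩,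
   -5170, -2976, 3938, -411, ⟨6641, 3850, 2470⟩, ⟨4037, -64, 526⟩, ⟨9, 3, 6⟩, ⟨4538, 3053, 2089⟩,
   ⟨417, 191, 124⟩, ⟨37, 18, 25⟩, ⟨5791, 3920, 2761⟩, 262, -175, ⟨4733, 7611, 34761⟩, 416, 0,
   -304, -512⟩

theorem hi3b0_ok : hi3b0.ok = true := by decide +kernel

def hi3b1 : CellD :=
  ⟨⟨0, 256, 512, 1024, -416, -304⟩, 5005, 1434, 3457, 1434, 2731, ⟨1642, 1286, 730, 1959⟩,
   ⟨609, 11, -18, 52⟩, ⟨-113, 426, -126, -162⟩, ⟨-62, 218, 13, -51⟩, ⟨842, -2348, 18, -1656⟩,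
   ⟨7898, -1368, 684, 14⟩, ⟨8372, -5160, -359, -760⟩, ⟨559, 753, -558⟩, ⟨-1362, 16977, 3042⟩,
   -7590, -12142, 4643, 1890, ⟨14659, 24301, 43129⟩, ⟨5575, 2949, 3159⟩, ⟨29, 0, 0⟩, ⟨8, 0, 0⟩,
   ⟨1617, 557, 204⟩, ⟨6, 3, 11⟩, ⟨7493, 7133, 6956⟩, -454, 1218, ⟨4844, 12569, 67705⟩, 416, 512,
   -304, -1024⟩

theorem hi3b1_ok : hi3b1.ok = true := by decide +kernel

def hi3b2 : CellD :=
  ⟨⟨256, 512, 512, 1024, -416, -304⟩, 5005, 1434, 3457, 1434, 2731, ⟨1368, 2548, 1404, 4991⟩,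
   ⟨826, -437, -4, 281⟩, ⟨43, 120, -213, -78⟩, ⟨-70, 265, 24, -6⟩, ⟨1253, -2100, -186, -948⟩,
   ⟨6966, -1328, 2026, 255⟩, ⟨9018, -6236, -1334, -1768⟩, ⟨1243, 718, -1421⟩, ⟨118, 5710, 4825⟩,
   -8067, -13543, 4577, 1636, ⟨15918, 26796, 45739⟩, ⟨5142, 1889, 820⟩, ⟨12, 0, 0⟩, ⟨1, 0, 0⟩,
   ⟨1992, 1809, 1648⟩, ⟨1, 2, 5⟩, ⟨4397, 1237, 3647⟩, -528, 1403, ⟨2008, 3071, 20698⟩, 416, 512,
   -304, -1024⟩

theorem hi3b2_ok : hi3b2.ok = true := by decide +kernel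

def hi3b3 : CellD :=
  ⟨⟨512, 1024, 0, 512, -416, -304⟩, 5005, 1434, 3457, 1434, 2731, ⟨1657, -542, 765, 1547⟩,
   ⟨676, -389, 185, 247⟩, ⟨-99, 300, -162, 13⟩, ⟨-131, 350, 98, 63⟩, ⟨857, -609, -308, -59⟩,
   ⟨6859, -1981, 2012, -170⟩, ⟨7661, -1780, -373, -36⟩, ⟨2907, 1399, -4890⟩, ⟨5410, -2415, 1508⟩,
   -3455, -3903, 2991, -529, ⟨2944, 3294, 3738⟩, ⟨2209, -359, 110⟩, ⟨6, 8, 60⟩,
   ⟨1710, 1525, 1377⟩, ⟨687, 224, 94⟩, ⟨47, 68, 114⟩, ⟨33, 18, 27⟩, 409, -87, ⟨1592, 1753, 7508⟩,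
   416, 0, -304, -512⟩

theorem hi3b3_ok : hi3b3.ok = true := by decide +kernel

def hi3b4 : CellD :=
  ⟨⟨512, 768, 512, 1024, -416, -304⟩, 5005, 1434, 3457, 1434, 2731, ⟨2702, -572, 535, 3234⟩,
   ⟨872, -470, -5, 348⟩, ⟨268, 148, -509, 196⟩, ⟨-85, 341, 33, 60⟩, ⟨1332, -1317, -316, -203⟩,
   ⟨6050, -1280, 3320, 466⟩, ⟨9225, -5756, -1893, -1442⟩, ⟨1931, 603, -2226⟩,
   ⟨8196, -5159, 1391⟩, -6426, -14445, 4484, 1337, ⟨10100, 22653, 51185⟩, ⟨4925, 1497, 516⟩,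
   ⟨7, 0, 0⟩, ⟨1, 0, 0⟩, ⟨1941, 2645, 3715⟩, ⟨1, 1, 4⟩, ⟨4350, -731, 158⟩, 57, -192,
   ⟨3358, 5841, 13368⟩, 416, 512, -304, -1024⟩

theorem hi3b4_ok : hi3b4.ok = true := by decide +kernel

def hi3b5 : CellD :=
  ⟨⟨768, 1024, 512, 768, -416, -304⟩, 5005, 1434, 3457, 1434, 2731, ⟨2575, -1371, 187, 1403⟩,
   ⟨800, -469, -13, 195⟩, ⟨831, -505, -928, -29⟩, ⟨-79, 370, -12, 80⟩, ⟨1542, -1361, -652, -69⟩,
   ⟨5864, -1878, 4421, 1087⟩, ⟨-3105, 8882, 1333, -483⟩, ⟨2977, 826, -4316⟩,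
   ⟨17728, -14066, -4114⟩, 1544, -4938, 3799, 1731, ⟨915, -1473, 6427⟩, ⟨3825, 2144, 1710⟩,
   ⟨53, -8, 241⟩, ⟨21, 31, 55⟩, ⟨2071, 2801, 4306⟩, ⟨17, 23, 44⟩, ⟨4414, 1397, 547⟩, 890, -996,
   ⟨7805, 14978, 45747⟩, 416, 512, -304, -768⟩

theorem hi3b5_ok : hi3b5.ok = true := by decide +kernel

def hi3b6 : CellD :=
  ⟨⟨768, 1024, 768, 1024, -416, -304⟩, 5005, 1434, 3457, 1434, 2731, ⟨6079, -1954, -3759, 1665⟩,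
   ⟨1667, -859, -833, -34⟩, ⟨5304, -3097, -4579, -1040⟩, ⟨155, 187, -141, -8⟩,
   ⟨3261, -3019, -1546, -880⟩, ⟨4334, -652, 4707, 373⟩, ⟨-10852, 16090, 2747, -765⟩,
   ⟨1494, 186, -1632⟩, ⟨20774, -15775, -4964⟩, -1973, -13621, 3508, 113, ⟨2249, 8888, 50556⟩,
   ⟨3308, 826, 1769⟩, ⟨174, 0, 0⟩, ⟨2, 0, 0⟩, ⟨1924, 3242, 6609⟩, ⟨9, 18, 45⟩, ⟨7714, -727, 382⟩,
   1446, -1968, ⟨8110, 17291, 50393⟩, 416, 768, -304, -1024⟩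

theorem hi3b6_ok : hi3b6.ok = true := by decide +kernel

theorem hi3b_win : WGood ⟨5005, 1434, 3457, 1434, 2731⟩ ⟨0, 1024, 0, 1024, -416, -304⟩ :=
  wgood_cover (cells := [hi3b0.box, hi3b1.box, hi3b2.box, hi3b3.box, hi3b4.box, hi3b5.box, hi3b6.box])
    (by
      intro c hc
      simp only [List.mem_cons, List.not_mem_nil, or_false] at hc
      rcases hc with rfl | rfl | rfl | rfl | rfl | rfl | rfl
      · exact wgood_of_ok hi3b0_ok (by decide)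
      · exact wgood_of_ok hi3b1_ok (by decide)
      · exact wgood_of_ok hi3b2_ok (by decide)
      · exact wgood_of_ok hi3b3_ok (by decide)
      · exact wgood_of_ok hi3b4_ok (by decide)
      · exact wgood_of_ok hi3b5_ok (by decide)
      · exact wgood_of_ok hi3b6_ok (by decide))
    (CTree.n1 512 (CTree.n2 512 (CTree.leaf 0) (CTree.n1 256 (CTree.leaf 1) (CTree.leaf 2)))
    (CTree.n2 512 (CTree.leaf 3) (CTree.n1 768 (CTree.leaf 4) (CTree.n2 768 (CTree.leaf 5)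
    (CTree.leaf 6)))))
    (by decide +kernel)

end Pool.G1.Gap.PB
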