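import Pool.Agent.Work.MP_b5407d_g1.Pl_PWL

/-!
# G1, line P-a: certificate cells, window t in [1434, 2731]/4096, tau in [416, 608]/1024

Cells of helper93 (optimiser), checker of helper97, bridge of helper38.
-/

set_option autoImplicit false
set_option maxRecDepth 100000

namespace Pool.G1.Gap.PB

def hi4a0 : CellD :=
  ⟨⟨0, 512, 0, 512, 416, 608⟩, 4801, 1487, 3318, 1434, 2731, ⟨1874, -1718, 217, -1394⟩,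
   ⟨844, -1288, 528, 1287⟩, ⟨-17, 87, -6, -50⟩, ⟨-24, 99, 16, -34⟩, ⟨787, -559, -40, -302⟩,
   ⟨7992, -1756, 563, 564⟩, ⟨9276, -6844, -1209, -777⟩, ⟨1434, 2282, -2855⟩, ⟨57, 8237, 4539⟩,
   3548, 1862, 3942, 143, ⟨8130, -491, 3415⟩, ⟨4045, -96, 252⟩, ⟨12983, -3644, 1083⟩,
   ⟨81, -14, 10⟩, ⟨21458, -6985, 3744⟩, ⟨18, -3, 4⟩, ⟨946, -134, 61⟩, -3754, 6676,
   ⟨5204, 7965, 23478⟩, -416, 512, 608, 0⟩

theorem hi4a0_ok : hi4a0.ok = true := by decide +kernel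

def hi4a1 : CellD :=
  ⟨⟨0, 256, 512, 768, 416, 608⟩, 4801, 1487, 3318, 1434, 2731, ⟨2606, -5910, 1439, -3028⟩,
   ⟨337, -1187, 254, 2355⟩, ⟨-49, -5, -18, -20⟩, ⟨-34, 93, 22, -4⟩, ⟨807, -749, 27, -380⟩,
   ⟨8067, -799, 265, 173⟩, ⟨9101, -9315, -652, -659⟩, ⟨561, 1078, -747⟩, ⟨-1359, 18491, 2941⟩,
   690, -746, 3321, 1458, ⟨29689, -23475, 46270⟩, ⟨3289, 333, 1769⟩, ⟨5891, -2504, 1291⟩,
   ⟨59, -13, 16⟩, ⟨16404, -8405, 4496⟩, ⟨20, -4, 6⟩, ⟨379, -91, 92⟩, -1387, -474,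
   ⟨15425, 30858, 120262⟩, -416, 768, 608, -512⟩

theorem hi4a1_ok : hi4a1.ok = true := by decide +kernel

def hi4a2 : CellD :=
  ⟨⟨0, 256, 768, 1024, 416, 608⟩, 4801, 1487, 3318, 1434, 2731, ⟨2778, -4318, 1601, -3617⟩,
   ⟨454, -831, -482, 2871⟩, ⟨252, -283, -545, 113⟩, ⟨-50, 0, 35, 24⟩, ⟨590, -895, 210, -268⟩,
   ⟨8067, -258, 257, 49⟩, ⟨9292, -10627, -635, -737⟩, ⟨285, 195, -284⟩, ⟨-2394, 24023, 3396⟩,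
   2621, -3513, 4194, -248, ⟨23214, -30078, 60463⟩, ⟨4364, -401, 359⟩, ⟨138, 0, 0⟩, ⟨12, 0, 0⟩,
   ⟨11905, -5789, 2818⟩, ⟨8, -25, 85⟩, ⟨638, -53, 7⟩, -4936, 18405, ⟨11458, 35766, 117574⟩, -416,
   1024, 608, -768⟩

theorem hi4a2_ok : hi4a2.ok = true := by decide +kernel

def hi4a3 : CellD :=
  ⟨⟨256, 512, 512, 1024, 416, 608⟩, 4801, 1487, 3318, 1434, 2731, ⟨5502, -3801, -3681, -3419⟩,
   ⟨855, -1583, -129, 1787⟩, ⟨390, -538, -618, -131⟩, ⟨-94, 285, 86, -77⟩, ⟨776, -778, 45, -362⟩,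
   ⟨7557, -539, 830, 311⟩, ⟨10130, -8359, -1749, -1724⟩, ⟨1165, 634, -1323⟩,
   ⟨-2696, 12871, 7448⟩, 790, 2261, 4009, -313, ⟨7103, -7610, 15012⟩, ⟨3998, -435, 291⟩,
   ⟨1525, 0, 0⟩, ⟨6, 0, 0⟩, ⟨8938, -7671, 6711⟩, ⟨7, -4, 7⟩, ⟨6053, -707, 169⟩, -2118, 4920,
   ⟨3438, 12323, 45041⟩, -416, 1024, 608, -512⟩

theorem hi4a3_ok : hi4a3.ok = true := by decide +kernel

def hi4a4 : CellD :=
  ⟨⟨512, 1024, 0, 512, 416, 608⟩, 4801, 1487, 3318, 1434, 2731, ⟨2376, -1552, -2874, -1858⟩,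
   ⟨909, -728, 576, 180⟩, ⟨-12, 248, -146, -179⟩, ⟨-252, 520, 180, -21⟩, ⟨696, -401, -171, -274⟩,
   ⟨7334, -2309, 2309, 1549⟩, ⟨4100, 2884, 194, -16⟩, ⟨2523, 1102, -4406⟩, ⟨7392, -4906, 955⟩,
   3425, 2849, 3943, 49, ⟨3523, 2192, 2102⟩, ⟨3959, -39, 102⟩, ⟨6362, -1337, 2131⟩, ⟨15, -5, 5⟩,
   ⟨9207, -2264, 2144⟩, ⟨10, -3, 3⟩, ⟨6666, 447, 55⟩, -3135, 2702, ⟨1656, 3539, 8224⟩, -416, 512,
   608, 0⟩

theorem hi4a4_ok : hi4a4.ok = true := by decide +kernel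

def hi4a5 : CellD :=
  ⟨⟨512, 1024, 512, 1024, 416, 608⟩, 4801, 1487, 3318, 1434, 2731, ⟨7399, -2360, -9297, -2300⟩,
   ⟨1149, -1205, 35, 731⟩, ⟨831, -569, -792, -729⟩, ⟨-84, 356, 180, -297⟩, ⟨996, -1023, 3, -455⟩,
   ⟨6799, -561, 1753, 565⟩, ⟨702, 7884, 159, -905⟩, ⟨2071, 334, -2231⟩, ⟨16339, -14565, -1171⟩,
   2497, 1123, 4061, -769, ⟨3669, -1135, 3107⟩, ⟨4189, -1037, 711⟩, ⟨2350, 0, 0⟩, ⟨5, 0, 0⟩,
   ⟨9598, -8064, 9484⟩, ⟨8, -7, 13⟩, ⟨18662, -3433, 752⟩, -516, 1591, ⟨1680, 5797, 22398⟩, -416,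
   1024, 608, -512⟩

theorem hi4a5_ok : hi4a5.ok = true := by decide +kernel

theorem hi4a_win : WGood ⟨4801, 1487, 3318, 1434, 2731⟩ ⟨0, 1024, 0, 1024, 416, 608⟩ :=
  wgood_cover (cells := [hi4a0.box, hi4a1.box, hi4a2.box, hi4a3.box, hi4a4.box, hi4a5.box])
    (by
      intro c hc
      simp only [List.mem_cons, List.not_mem_nil, or_false] at hc
      rcases hc with rfl | rfl | rfl | rfl | rfl | rfl
      · exact wgood_of_ok hi4a0_ok (by decide)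
      · exact wgood_of_ok hi4a1_ok (by decide)
      · exact wgood_of_ok hi4a2_ok (by decide)
      · exact wgood_of_ok hi4a3_ok (by decide)
      · exact wgood_of_ok hi4a4_ok (by decide)
      · exact wgood_of_ok hi4a5_ok (by decide))
    (CTree.n1 512 (CTree.n2 512 (CTree.leaf 0) (CTree.n1 256 (CTree.n2 768 (CTree.leaf 1)
    (CTree.leaf 2)) (CTree.leaf 3))) (CTree.n2 512 (CTree.leaf 4) (CTree.leaf 5)))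
    (by decide +kernel)

def hi4b0 : CellD :=
  ⟨⟨0, 512, 0, 512, -608, -416⟩, 4801, 1487, 3318, 1434, 2731, ⟨2003, -179, 1214, 2596⟩,
   ⟨727, -364, 121, 306⟩, ⟨-62, 142, -18, -16⟩, ⟨-78, 234, 27, -11⟩, ⟨1164, -1545, -296, -840⟩,
   ⟨8484, -4309, 1362, 460⟩, ⟨8037, -3238, -542, -1137⟩, ⟨1344, 3552, -2676⟩, ⟨313, 6455, 3816⟩,
   -4553, -1934, 3203, -960, ⟨5292, 2284, 1165⟩, ⟨3161, -297, 715⟩, ⟨13, 4, 5⟩,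
   ⟨6781, 3625, 1974⟩, ⟨113, 40, 32⟩, ⟨150, 61, 61⟩, ⟨7003, 3902, 2303⟩, 462, -875,
   ⟨4539, 8083, 30434⟩, 608, 0, -416, -512⟩

theorem hi4b0_ok : hi4b0.ok = true := by decide +kernel

def hi4b1 : CellD :=
  ⟨⟨0, 256, 512, 1024, -608, -416⟩, 4801, 1487, 3318, 1434, 2731, ⟨1980, 963, 363, 2545⟩,
   ⟨607, -90, 20, 140⟩, ⟨-126, 353, -106, -137⟩, ⟨-62, 212, 15, -34⟩, ⟨855, -2922, -88, -1936⟩,
   ⟨7861, -1510, 755, 11⟩, ⟨8196, -4354, -284, -814⟩, ⟨561, 757, -560⟩, ⟨-1298, 16527, 2980⟩,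
   -7088, -8284, 4164, 261, ⟨13001, 15881, 21240⟩, ⟨5047, 1747, 2967⟩, ⟨37, 0, 0⟩, ⟨18, 0, 0⟩,
   ⟨1005, 281, 90⟩, ⟨16, 9, 22⟩, ⟨9432, 7312, 5750⟩, -699, 1944, ⟨5819, 15125, 63678⟩, 608, 512,
   -416, -1024⟩

theorem hi4b1_ok : hi4b1.ok = true := by decide +kernel

def hi4b2 : CellD :=
  ⟨⟨256, 512, 512, 1024, -608, -416⟩, 4801, 1487, 3318, 1434, 2731, ⟨2100, 13, 1014, 3474⟩,
   ⟨719, -375, 3, 157⟩, ⟨-26, 113, -208, -174⟩, ⟨-60, 211, 22, -19⟩, ⟨1294, -2188, -232, -903⟩,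
   ⟨6865, -1448, 2231, 257⟩, ⟨8793, -5847, -1242, -1792⟩, ⟨1256, 737, -1439⟩, ⟨383, 5007, 4584⟩,
   -7374, -9387, 4256, 412, ⟨13315, 17020, 22138⟩, ⟨4473, 503, 169⟩, ⟨11, 0, 0⟩, ⟨3, 0, 0⟩,
   ⟨1699, 1080, 690⟩, ⟨4, 5, 13⟩, ⟨5390, 4035, 5504⟩, -455, 982, ⟨1349, 1152, 9465⟩, 608, 512,
   -416, -1024⟩

theorem hi4b2_ok : hi4b2.ok = true := by decide +kernel

def hi4b3 : CellD :=
  ⟨⟨512, 1024, 0, 512, -608, -416⟩, 4801, 1487, 3318, 1434, 2731, ⟨1560, -483, 455, 1371⟩,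
   ⟨623, -343, 168, 191⟩, ⟨-125, 334, -177, 0⟩, ⟨-127, 339, 92, 50⟩, ⟨908, -659, -339, -76⟩,
   ⟨6648, -1465, 1611, -244⟩, ⟨7947, -2219, -708, -399⟩, ⟨2939, 1184, -4623⟩,
   ⟨5104, -2119, 1727⟩, -3575, -3029, 2052, -518, ⟨3191, 2665, 2276⟩, ⟨1085, -218, 116⟩,
   ⟨11, 2, 9⟩, ⟨3419, 2274, 1553⟩, ⟨318, 29, 11⟩, ⟨439, 486, 566⟩, ⟨69, 24, 29⟩, 272, -9,
   ⟨1382, 1326, 5402⟩, 608, 0, -416, -512⟩

theorem hi4b3_ok : hi4b3.ok = true := by decide +kernel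

def hi4b4 : CellD :=
  ⟨⟨512, 768, 512, 1024, -608, -416⟩, 4801, 1487, 3318, 1434, 2731, ⟨2654, -938, 370, 2484⟩,
   ⟨774, -434, 19, 210⟩, ⟨193, 25, -451, -86⟩, ⟨-70, 285, 27, 13⟩, ⟨1349, -1403, -330, -253⟩,
   ⟨5888, -1374, 3637, 470⟩, ⟨9766, -6567, -2247, -1923⟩, ⟨1962, 636, -2273⟩,
   ⟨7152, -4181, 1748⟩, -5449, -9208, 4853, 2174, ⟨7265, 12245, 20871⟩, ⟨5794, 2654, 1295⟩,
   ⟨11, 0, 0⟩, ⟨3, 0, 0⟩, ⟨1931, 1787, 1658⟩, ⟨4, 5, 14⟩, ⟨2508, -1432, 1200⟩, 108, -107,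
   ⟨1990, 2762, 8417⟩, 608, 512, -416, -1024⟩

theorem hi4b4_ok : hi4b4.ok = true := by decide +kernel

def hi4b5 : CellD :=
  ⟨⟨768, 1024, 512, 768, -608, -416⟩, 4801, 1487, 3318, 1434, 2731, ⟨2367, -999, -1, 1580⟩,
   ⟨672, -364, 81, 203⟩, ⟨392, -156, -565, -2⟩, ⟨-116, 386, 41, 86⟩, ⟨1214, -1065, -385, -12⟩,
   ⟨5768, -2019, 4774, 1085⟩, ⟨-1502, 7233, 1203, -459⟩, ⟨3081, 905, -4527⟩,
   ⟨16385, -12803, -3964⟩, 165, -3791, 3222, 1353, ⟨311, 100, 3745⟩, ⟨2810, 1430, 952⟩,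
   ⟨77, 87, 267⟩, ⟨40, 45, 58⟩, ⟨1622, 1455, 1527⟩, ⟨28, 30, 41⟩, ⟨2838, 215, 136⟩, 452, -379,
   ⟨3874, 5917, 19313⟩, 608, 512, -416, -768⟩

theorem hi4b5_ok : hi4b5.ok = true := by decide +kernel

def hi4b6 : CellD :=
  ⟨⟨768, 1024, 768, 1024, -608, -416⟩, 4801, 1487, 3318, 1434, 2731, ⟨5466, -1508, -3355, 1890⟩,
   ⟨1075, -537, -320, 114⟩, ⟨2674, -1303, -2554, -308⟩, ⟨-6, 310, -26, 53⟩,
   ⟨2081, -1815, -901, -266⟩, ⟨3974, -704, 5180, 373⟩, ⟨-9787, 15150, 2537, -762⟩,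
   ⟨1514, 193, -1657⟩, ⟨19229, -14644, -4580⟩, -3030, -10521, 3737, 1089, ⟨3155, 8868, 28845⟩,
   ⟨3694, 1474, 1155⟩, ⟨144, 0, 0⟩, ⟨2, 0, 0⟩, ⟨1400, 1546, 2143⟩, ⟨12, 17, 32⟩,
   ⟨5851, -1652, 738⟩, 694, -888, ⟨3586, 6271, 19085⟩, 608, 768, -416, -1024⟩

theorem hi4b6_ok : hi4b6.ok = true := by decide +kernel

theorem hi4b_win : WGood ⟨4801, 1487, 3318, 1434, 2731⟩ ⟨0, 1024, 0, 1024, -608, -416⟩ :=
  wgood_cover (cells := [hi4b0.box, hi4b1.box, hi4b2.box, hi4b3.box, hi4b4.box, hi4b5.box, hi4b6.box])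
    (by
      intro c hc
      simp only [List.mem_cons, List.not_mem_nil, or_false] at hc
      rcases hc with rfl | rfl | rfl | rfl | rfl | rfl | rfl
      · exact wgood_of_ok hi4b0_ok (by decide)
      · exact wgood_of_ok hi4b1_ok (by decide)
      · exact wgood_of_ok hi4b2_ok (by decide)
      · exact wgood_of_ok hi4b3_ok (by decide)
      · exact wgood_of_ok hi4b4_ok (by decide)
      · exact wgood_of_ok hi4b5_ok (by decide)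
      · exact wgood_of_ok hi4b6_ok (by decide))
    (CTree.n1 512 (CTree.n2 512 (CTree.leaf 0) (CTree.n1 256 (CTree.leaf 1) (CTree.leaf 2)))
    (CTree.n2 512 (CTree.leaf 3) (CTree.n1 768 (CTree.leaf 4) (CTree.n2 768 (CTree.leaf 5)
    (CTree.leaf 6)))))
    (by decide +kernel)

end Pool.G1.Gap.PB
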