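import Pool.Agent.Work.MP_b5407d_g1.Pl_PWL

/-!
# G1, line P-a: certificate cells, window t in [1434, 2731]/4096, tau in [608, 816]/1024

Cells of helper93 (optimiser), checker of helper97, bridge of helper38.
-/

set_option autoImplicit false
set_option maxRecDepth 100000

namespace Pool.G1.Gap.PB

def hi5a0 : CellD :=
  ⟨⟨0, 1024, 0, 512, 608, 816⟩, 3686, 1487, 3248, 1434, 2731, ⟨-343, -10, -4455, 607⟩,
   ⟨1034, -1013, 822, 411⟩, ⟨-8, 95, 4, -69⟩, ⟨21, 0, 24, -58⟩, ⟨785, -492, -112, -281⟩,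
   ⟨7422, -1401, 609, 1371⟩, ⟨7750, -1643, 1326, 771⟩, ⟨2463, 1187, -4342⟩, ⟨3138, 48, 5823⟩,
   4500, 1457, 2242, 747, ⟨6926, 1320, 690⟩, ⟨1371, 300, 238⟩, ⟨16809, -1978, 1111⟩, ⟨30, -4, 2⟩,
   ⟨18410, -4642, 3623⟩, ⟨13, -2, 2⟩, ⟨6259, -182, 17⟩, -2706, 1774, ⟨1262, -280, 25509⟩, -608,
   512, 816, 0⟩

theorem hi5a0_ok : hi5a0.ok = true := by decide +kernel

def hi5a1 : CellD :=
  ⟨⟨0, 256, 512, 1024, 608, 816⟩, 3686, 1487, 3248, 1434, 2731, ⟨6147, -5650, -2126, -5983⟩,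
   ⟨-1270, -2923, -207, 5809⟩, ⟨-7, -62, -176, 36⟩, ⟨-33, 67, 18, 6⟩, ⟨750, -593, 19, -298⟩,
   ⟨8138, -322, 161, 87⟩, ⟨9438, -11061, -713, -642⟩, ⟨542, 717, -541⟩, ⟨-1508, 21461, 3099⟩,
   -1220, 1087, 4075, -135, ⟨36625, -21433, 40589⟩, ⟨4242, -373, 367⟩, ⟨8965, 0, 0⟩, ⟨25, 0, 0⟩,
   ⟨14994, -7428, 3792⟩, ⟨14, -2, 4⟩, ⟨265, -40, 32⟩, -1939, 6041, ⟨5771, 16473, 67943⟩, -608,
   1024, 816, -512⟩

theorem hi5a1_ok : hi5a1.ok = true := by decide +kernel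

def hi5a2 : CellD :=
  ⟨⟨256, 512, 512, 1024, 608, 816⟩, 3686, 1487, 3248, 1434, 2731, ⟨10575, -8545, -8974, -5390⟩,
   ⟨-206, -2484, 201, 3809⟩, ⟨327, -490, -478, -114⟩, ⟨-82, 305, 82, -71⟩, ⟨752, -668, 12, -272⟩,
   ⟨7678, -358, 559, 332⟩, ⟨10346, -8804, -1823, -1716⟩, ⟨1148, 617, -1301⟩,
   ⟨-3768, 15796, 8250⟩, 1, 1473, 2866, 232, ⟨12270, -7309, 10696⟩, ⟨2105, 37, 196⟩,
   ⟨6221, 0, 0⟩, ⟨8, 0, 0⟩, ⟨13619, -8828, 5834⟩, ⟨10, -4, 5⟩, ⟨5092, -203, 111⟩, -1188, 3391,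
   ⟨2432, 8760, 32477⟩, -608, 1024, 816, -512⟩

theorem hi5a2_ok : hi5a2.ok = true := by decide +kernel

def hi5a3 : CellD :=
  ⟨⟨512, 1024, 512, 1024, 608, 816⟩, 3686, 1487, 3248, 1434, 2731,
   ⟨19761, -11196, -16260, -9437⟩, ⟨586, -1757, 888, 1672⟩, ⟨663, -185, -326, -943⟩,
   ⟨-78, 418, 178, -264⟩, ⟨899, -811, -43, -295⟩, ⟨6967, -369, 1250, 650⟩,
   ⟨123, 8978, -200, -869⟩, ⟨2019, 309, -2166⟩, ⟨17930, -16431, -676⟩, 296, 1271, 2118, 264,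
   ⟨4370, -1010, 1965⟩, ⟨1590, -336, 614⟩, ⟨8124, 0, 0⟩, ⟨10, 0, 0⟩, ⟨19981, -12237, 10423⟩,
   ⟨17, -10, 12⟩, ⟨23573, -3705, 739⟩, -347, 1693, ⟨957, 3060, 18836⟩, -608, 1024, 816, -512⟩

theorem hi5a3_ok : hi5a3.ok = true := by decide +kernel

theorem hi5a_win : WGood ⟨3686, 1487, 3248, 1434, 2731⟩ ⟨0, 1024, 0, 1024, 608, 816⟩ :=
  wgood_cover (cells := [hi5a0.box, hi5a1.box, hi5a2.box, hi5a3.box])
    (by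
      intro c hc
      simp only [List.mem_cons, List.not_mem_nil, or_false] at hc
      rcases hc with rfl | rfl | rfl | rfl
      · exact wgood_of_ok hi5a0_ok (by decide)
      · exact wgood_of_ok hi5a1_ok (by decide)
      · exact wgood_of_ok hi5a2_ok (by decide)
      · exact wgood_of_ok hi5a3_ok (by decide))
    (CTree.n2 512 (CTree.leaf 0) (CTree.n1 512 (CTree.n1 256 (CTree.leaf 1) (CTree.leaf 2))
    (CTree.leaf 3)))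
    (by decide +kernel)

def hi5b0 : CellD :=
  ⟨⟨0, 1024, 0, 512, -816, -608⟩, 3686, 1487, 3248, 1434, 2731, ⟨367, 318, 591, 1099⟩,
   ⟨638, -320, 147, 215⟩, ⟨-17, 16, 21, 7⟩, ⟨-143, 274, 22, -33⟩, ⟨983, -680, -333, -16⟩,
   ⟨8046, -2820, -440, -653⟩, ⟨7368, -2906, -589, -2473⟩, ⟨2330, 1759, -4433⟩,
   ⟨2542, 1017, 7477⟩, -3624, -2431, 1878, -373, ⟨3310, 2185, 1475⟩, ⟨930, -143, 52⟩, ⟨10, 1, 1⟩,
   ⟨5458, 2132, 1665⟩, ⟨341, 29, 4⟩, ⟨2606, 1261, 620⟩, ⟨585, 252, 119⟩, 923, -710,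
   ⟨1119, 248, 5232⟩, 816, 0, -608, -512⟩

theorem hi5b0_ok : hi5b0.ok = true := by decide +kernel

def hi5b1 : CellD :=
  ⟨⟨0, 512, 512, 1024, -816, -608⟩, 3686, 1487, 3248, 1434, 2731, ⟨1866, 472, 252, 2893⟩,
   ⟨636, -244, 23, 170⟩, ⟨-44, 138, -158, -95⟩, ⟨-78, 269, 7, -16⟩, ⟨1245, -2348, -433, -1224⟩,
   ⟨7390, -1669, 1669, 1⟩, ⟨7740, -4160, -317, -1784⟩, ⟨1058, 682, -1057⟩, ⟨-450, 6638, 5012⟩,
   -6773, -6468, 4842, 1407, ⟨11357, 10936, 10847⟩, ⟨6047, 2040, 958⟩, ⟨30, 0, 0⟩, ⟨21, 0, 0⟩,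
   ⟨1903, 1009, 545⟩, ⟨36, 41, 72⟩, ⟨8409, 5860, 4156⟩, -341, 392, ⟨2858, 3887, 14711⟩, 816, 512,
   -608, -1024⟩

theorem hi5b1_ok : hi5b1.ok = true := by decide +kernel

def hi5b2 : CellD :=
  ⟨⟨512, 768, 512, 1024, -816, -608⟩, 3686, 1487, 3248, 1434, 2731, ⟨2346, -752, -217, 1918⟩,
   ⟨669, -342, 17, 140⟩, ⟨69, 94, -473, -193⟩, ⟨-65, 262, 20, 4⟩, ⟨1423, -1456, -358, -208⟩,
   ⟨5667, -1518, 4057, 468⟩, ⟨10404, -7313, -2590, -2045⟩, ⟨2011, 676, -2342⟩,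
   ⟨6362, -3616, 1805⟩, -4496, -5503, 4280, 1630, ⟨4950, 6047, 7508⟩, ⟨4559, 1813, 790⟩,
   ⟨11, 0, 0⟩, ⟨8, 0, 0⟩, ⟨2238, 1674, 1254⟩, ⟨37, 66, 126⟩, ⟨4287, 3112, 3903⟩, 442, -920,
   ⟨2102, 1744, 4182⟩, 816, 512, -608, -1024⟩

theorem hi5b2_ok : hi5b2.ok = true := by decide +kernel

def hi5b3 : CellD :=
  ⟨⟨768, 1024, 512, 1024, -816, -608⟩, 3686, 1487, 3248, 1434, 2731, ⟨2976, -1418, -514, 1408⟩,
   ⟨658, -331, 38, 143⟩, ⟨328, 0, -712, -124⟩, ⟨-68, 331, 18, 51⟩, ⟨1223, -854, -423, 104⟩,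
   ⟨4596, -1370, 5494, 637⟩, ⟨-3342, 9185, 1798, -953⟩, ⟨2745, 568, -3163⟩,
   ⟨14312, -11321, -2985⟩, -2523, -4692, 4206, 693, ⟨1576, 2889, 5399⟩, ⟨4435, 846, 280⟩,
   ⟨21, 0, 0⟩, ⟨4, 0, 0⟩, ⟨1530, 1159, 950⟩, ⟨9, 12, 21⟩, ⟨2452, -1277, 797⟩, 63, -185,
   ⟨1723, 964, 1187⟩, 816, 512, -608, -1024⟩

theorem hi5b3_ok : hi5b3.ok = true := by decide +kernel

theorem hi5b_win : WGood ⟨3686, 1487, 3248, 1434, 2731⟩ ⟨0, 1024, 0, 1024, -816, -608⟩ :=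
  wgood_cover (cells := [hi5b0.box, hi5b1.box, hi5b2.box, hi5b3.box])
    (by
      intro c hc
      simp only [List.mem_cons, List.not_mem_nil, or_false] at hc
      rcases hc with rfl | rfl | rfl | rfl
      · exact wgood_of_ok hi5b0_ok (by decide)
      · exact wgood_of_ok hi5b1_ok (by decide)
      · exact wgood_of_ok hi5b2_ok (by decide)
      · exact wgood_of_ok hi5b3_ok (by decide))
    (CTree.n2 512 (CTree.leaf 0) (CTree.n1 512 (CTree.leaf 1) (CTree.n1 768 (CTree.leaf 2)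
    (CTree.leaf 3))))
    (by decide +kernel)

end Pool.G1.Gap.PB
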