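import Pool.Agent.Work.MP_b5407d_g1.Pl_PWL

/-!
# G1, line P-a: certificate cells, window t in [1434, 2731]/4096, tau in [816, 928]/1024

Cells of helper93 (optimiser), checker of helper97, bridge of helper38.
-/

set_option autoImplicit false
set_option maxRecDepth 100000

namespace Pool.G1.Gap.PB

def hi6a0 : CellD :=
  ⟨⟨0, 1024, 0, 512, 816, 928⟩, 2494, 1462, 3138, 1434, 2731, ⟨1404, -828, -4413, -1561⟩,
   ⟨1131, -1260, 1062, 474⟩, ⟨13, 98, -6, -80⟩, ⟨49, -5, 32, -85⟩, ⟨697, -435, -103, -187⟩,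
   ⟨7135, -1033, 329, 1557⟩, ⟨7602, -1364, 1248, 763⟩, ⟨2407, 1098, -4164⟩, ⟨3228, -195, 5737⟩,
   5134, 714, 1123, 735, ⟨15869, -589, 753⟩, ⟨560, 63, 229⟩, ⟨41644, -4052, 2855⟩, ⟨78, -8, 4⟩,
   ⟨29049, -6036, 3434⟩, ⟨53, -3, 3⟩, ⟨5845, 226, 37⟩, -1083, 344, ⟨720, -1421, 4650⟩, -816, 512,
   928, 0⟩

theorem hi6a0_ok : hi6a0.ok = true := by decide +kernel

def hi6a1 : CellD :=
  ⟨⟨0, 512, 512, 1024, 816, 928⟩, 2494, 1462, 3138, 1434, 2731, ⟨7288, -10879, -5189, -5105⟩,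
   ⟨-7856, -4983, 1517, 13689⟩, ⟨-152, -155, -96, 193⟩, ⟨-40, 0, 13, 29⟩, ⟨676, -593, -4, -165⟩,
   ⟨8037, -190, 190, 170⟩, ⟨10014, -10378, -975, -914⟩, ⟨984, 588, -983⟩, ⟨-3064, 17010, 6401⟩,
   -1707, 1867, 4858, -2291, ⟨30900, -9484, 12615⟩, ⟨5798, -2760, 1341⟩, ⟨15572, 0, 0⟩,
   ⟨7, 0, 0⟩, ⟨11285, -6758, 4762⟩, ⟨14, -1, 2⟩, ⟨2065, -113, 12⟩, 1124, -761,
   ⟨3149, 5326, 37188⟩, -816, 1024, 928, -512⟩

theorem hi6a1_ok : hi6a1.ok = true := by decide +kernel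

def hi6a2 : CellD :=
  ⟨⟨512, 1024, 512, 1024, 816, 928⟩, 2494, 1462, 3138, 1434, 2731,
   ⟨37555, -26993, -12463, -22040⟩, ⟨-1247, -3095, 2304, 4311⟩, ⟨802, -122, -199, -972⟩,
   ⟨97, 355, 116, -314⟩, ⟨856, -695, -83, -227⟩, ⟨7095, -220, 824, 725⟩,
   ⟨-363, 9822, -416, -918⟩, ⟨1978, 283, -2112⟩, ⟨19644, -18355, -282⟩, -92, 745, 1109, 374,
   ⟨9942, -1316, 1721⟩, ⟨1447, -737, 797⟩, ⟨16767, 0, 0⟩, ⟨14, 0, 0⟩, ⟨37820, -17607, 12170⟩,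
   ⟨26, -13, 11⟩, ⟨26284, -3129, 770⟩, 428, 860, ⟨1275, -1285, 42354⟩, -816, 1024, 928, -512⟩

theorem hi6a2_ok : hi6a2.ok = true := by decide +kernel

theorem hi6a_win : WGood ⟨2494, 1462, 3138, 1434, 2731⟩ ⟨0, 1024, 0, 1024, 816, 928⟩ :=
  wgood_cover (cells := [hi6a0.box, hi6a1.box, hi6a2.box])
    (by
      intro c hc
      simp only [List.mem_cons, List.not_mem_nil, or_false] at hc
      rcases hc with rfl | rfl | rfl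
      · exact wgood_of_ok hi6a0_ok (by decide)
      · exact wgood_of_ok hi6a1_ok (by decide)
      · exact wgood_of_ok hi6a2_ok (by decide))
    (CTree.n2 512 (CTree.leaf 0) (CTree.n1 512 (CTree.leaf 1) (CTree.leaf 2)))
    (by decide +kernel)

def hi6b0 : CellD :=
  ⟨⟨0, 1024, 0, 512, -928, -816⟩, 2494, 1462, 3138, 1434, 2731, ⟨567, 47, 659, 1383⟩,
   ⟨609, -292, 127, 184⟩, ⟨-16, -1, 25, 0⟩, ⟨-136, 256, 17, -34⟩, ⟨1109, -762, -374, 10⟩,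
   ⟨7861, -2806, -909, -1010⟩, ⟨7076, -2614, -304, -2552⟩, ⟨2239, 1765, -4253⟩,
   ⟨2582, 681, 6816⟩, -3455, -1239, 1133, -258, ⟨3148, 1094, 413⟩, ⟨559, 8, 59⟩, ⟨12, 1, 1⟩,
   ⟨9064, 2675, 1922⟩, ⟨91, 5, 2⟩, ⟨9709, 4228, 2009⟩, ⟨354, 73, 28⟩, 446, -73, ⟨1183, 36, 4065⟩,
   928, 0, -816, -512⟩

theorem hi6b0_ok : hi6b0.ok = true := by decide +kernel

def hi6b1 : CellD :=
  ⟨⟨0, 512, 512, 1024, -928, -816⟩, 2494, 1462, 3138, 1434, 2731, ⟨2259, 304, -43, 3276⟩,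
   ⟨623, -209, 16, 175⟩, ⟨-13, 140, -168, -51⟩, ⟨-65, 260, 7, -3⟩, ⟨1528, -2744, -623, -1242⟩,
   ⟨7311, -1823, 1824, -1⟩, ⟨7422, -3436, -157, -1795⟩, ⟨1066, 692, -1065⟩, ⟨-187, 5818, 4682⟩,
   -5109, -3846, 3310, 439, ⟨6600, 5074, 4171⟩, ⟨3887, 1431, 1066⟩, ⟨55, 0, 0⟩, ⟨97, 0, 0⟩,
   ⟨2028, 799, 326⟩, ⟨1493, 1740, 2075⟩, ⟨9335, 5857, 3729⟩, -1206, 1499, ⟨5096, 9272, 30371⟩,
   928, 512, -816, -1024⟩

theorem hi6b1_ok : hi6b1.ok = true := by decide +kernel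

def hi6b2 : CellD :=
  ⟨⟨512, 768, 512, 1024, -928, -816⟩, 2494, 1462, 3138, 1434, 2731, ⟨1515, -140, -673, 1347⟩,
   ⟨623, -297, 6, 117⟩, ⟨47, 159, -543, -188⟩, ⟨-82, 304, 22, 18⟩, ⟨1237, -1357, -343, -320⟩,
   ⟨5467, -1651, 4400, 454⟩, ⟨10535, -7471, -2658, -2067⟩, ⟨2062, 700, -2406⟩,
   ⟨6301, -3781, 1504⟩, -3506, -3449, 3705, 1272, ⟨3031, 2966, 2997⟩, ⟨3503, 1299, 545⟩,
   ⟨22, 0, 0⟩, ⟨11, 0, 0⟩, ⟨2607, 1628, 1020⟩, ⟨803, 1058, 1405⟩, ⟨2345, 2125, 1975⟩, -201, 72,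
   ⟨2085, 1421, 5963⟩, 928, 512, -816, -1024⟩

theorem hi6b2_ok : hi6b2.ok = true := by decide +kernel

def hi6b3 : CellD :=
  ⟨⟨768, 1024, 512, 1024, -928, -816⟩, 2494, 1462, 3138, 1434, 2731, ⟨2064, -942, -719, 823⟩,
   ⟨612, -304, 39, 115⟩, ⟨122, -132, -603, -401⟩, ⟨-70, 312, 25, 37⟩, ⟨1206, -1146, -307, -149⟩,
   ⟨4308, -1457, 5925, 619⟩, ⟨-2411, 8107, 1724, -989⟩, ⟨2853, 593, -3291⟩,
   ⟨13515, -10726, -2782⟩, -2324, -2736, 4254, 710, ⟨1329, 1547, 1841⟩, ⟨4563, 879, 265⟩,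
   ⟨4, 0, 0⟩, ⟨2, 0, 0⟩, ⟨2636, 1788, 1229⟩, ⟨64, 91, 130⟩, ⟨704, -613, 1249⟩, 654, -880,
   ⟨2053, 654, 228⟩, 928, 512, -816, -1024⟩

theorem hi6b3_ok : hi6b3.ok = true := by decide +kernel

theorem hi6b_win : WGood ⟨2494, 1462, 3138, 1434, 2731⟩ ⟨0, 1024, 0, 1024, -928, -816⟩ :=
  wgood_cover (cells := [hi6b0.box, hi6b1.box, hi6b2.box, hi6b3.box])
    (by
      intro c hc
      simp only [List.mem_cons, List.not_mem_nil, or_false] at hc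
      rcases hc with rfl | rfl | rfl | rfl
      · exact wgood_of_ok hi6b0_ok (by decide)
      · exact wgood_of_ok hi6b1_ok (by decide)
      · exact wgood_of_ok hi6b2_ok (by decide)
      · exact wgood_of_ok hi6b3_ok (by decide))
    (CTree.n2 512 (CTree.leaf 0) (CTree.n1 512 (CTree.leaf 1) (CTree.n1 768 (CTree.leaf 2)
    (CTree.leaf 3))))
    (by decide +kernel)

end Pool.G1.Gap.PB
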