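import Pool.Agent.Work.MP_b5407d_g1.Pl_PWL

/-!
# G1, line P-a: certificate cells, window t in [1434, 2731]/4096, tau in [928, 1024]/1024

Cells of helper93 (optimiser), checker of helper97, bridge of helper38.
-/

set_option autoImplicit false
set_option maxRecDepth 100000

namespace Pool.G1.Gap.PB

def hi7a0 : CellD :=
  ⟨⟨0, 1024, 0, 512, 928, 1024⟩, 2540, 1581, 2769, 1434, 2731, ⟨2531, -926, -4018, -2841⟩,
   ⟨1517, -1279, 1044, 55⟩, ⟨-17, 102, -25, -39⟩, ⟨19, -12, 24, -41⟩, ⟨652, -402, -92, -149⟩,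
   ⟨7063, -833, 120, 1575⟩, ⟨7521, -1172, 1174, 760⟩, ⟨2365, 1050, -4047⟩, ⟨3278, -344, 5703⟩,
   7257, -274, 936, 805, ⟨30602, -3692, 1235⟩, ⟨533, 53, 244⟩, ⟨44384, -3814, 4338⟩,
   ⟨113, -11, 4⟩, ⟨35498, -5992, 3094⟩, ⟨86, -3, 4⟩, ⟨7946, 691, 145⟩, -936, 512,
   ⟨528, -1152, 3305⟩, -928, 512, 1024, 0⟩

theorem hi7a0_ok : hi7a0.ok = true := by decide +kernel

def hi7a1 : CellD :=
  ⟨⟨0, 512, 512, 1024, 928, 1024⟩, 2540, 1581, 2769, 1434, 2731, ⟨12661, -7942, -6277, -10428⟩,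
   ⟨-27155, -10018, 6711, 33244⟩, ⟨-167, -219, -115, 193⟩, ⟨-27, 2, 14, 9⟩,
   ⟨652, -533, -29, -140⟩, ⟨8045, -98, 98, 211⟩, ⟨10046, -10718, -925, -910⟩, ⟨978, 582, -977⟩,
   ⟨-2983, 18239, 6094⟩, -1785, 1735, 3672, -835, ⟨62857, -5752, 14969⟩, ⟨3475, -912, 335⟩,
   ⟨55080, 0, 0⟩, ⟨18, 0, 0⟩, ⟨16163, -7349, 3914⟩, ⟨42, -2, 3⟩, ⟨3374, -134, 31⟩, 935, -1056,
   ⟨3121, 4971, 26854⟩, -928, 1024, 1024, -512⟩

theorem hi7a1_ok : hi7a1.ok = true := by decide +kernel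

def hi7a2 : CellD :=
  ⟨⟨512, 1024, 512, 1024, 928, 1024⟩, 2540, 1581, 2769, 1434, 2731,
   ⟨39619, -30661, -7377, -22895⟩, ⟨-4061, -4593, 3944, 7635⟩, ⟨446, -147, -184, -428⟩,
   ⟨148, 300, 76, -270⟩, ⟨763, -632, -109, -120⟩, ⟨7165, -113, 570, 761⟩,
   ⟨-673, 10391, -593, -913⟩, ⟨1951, 269, -2078⟩, ⟨20888, -19837, 171⟩, 263, 445, 1071, 362,
   ⟨13594, -1081, 1555⟩, ⟨1757, -836, 775⟩, ⟨20274, 0, 0⟩, ⟨17, 0, 0⟩, ⟨51898, -21174, 13072⟩,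
   ⟨30, -13, 10⟩, ⟨28090, -2860, 1249⟩, 409, 785, ⟨1496, -3262, 39735⟩, -928, 1024, 1024, -512⟩

theorem hi7a2_ok : hi7a2.ok = true := by decide +kernel

theorem hi7a_win : WGood ⟨2540, 1581, 2769, 1434, 2731⟩ ⟨0, 1024, 0, 1024, 928, 1024⟩ :=
  wgood_cover (cells := [hi7a0.box, hi7a1.box, hi7a2.box])
    (by
      intro c hc
      simp only [List.mem_cons, List.not_mem_nil, or_false] at hc
      rcases hc with rfl | rfl | rfl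
      · exact wgood_of_ok hi7a0_ok (by decide)
      · exact wgood_of_ok hi7a1_ok (by decide)
      · exact wgood_of_ok hi7a2_ok (by decide))
    (CTree.n2 512 (CTree.leaf 0) (CTree.n1 512 (CTree.leaf 1) (CTree.leaf 2)))
    (by decide +kernel)

def hi7b0 : CellD :=
  ⟨⟨0, 1024, 0, 512, -1024, -928⟩, 2540, 1581, 2769, 1434, 2731, ⟨1354, -135, 682, 2216⟩,
   ⟨590, -285, 106, 157⟩, ⟨-5, 1, 21, 14⟩, ⟨-126, 243, 23, -25⟩, ⟨1170, -809, -431, 3⟩,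
   ⟨7852, -2721, -1152, -1030⟩, ⟨6914, -2405, -99, -2556⟩, ⟨2199, 1734, -4151⟩,
   ⟨2617, 488, 6459⟩, -3523, -953, 675, -372, ⟨3405, 897, 267⟩, ⟨726, 156, 142⟩, ⟨17, 2, 1⟩,
   ⟨12044, 3339, 2022⟩, ⟨57, 6, 3⟩, ⟨18800, 7437, 3356⟩, ⟨552, 95, 36⟩, 279, 97,
   ⟨1101, -16, 3259⟩, 1024, 0, -928, -512⟩

theorem hi7b0_ok : hi7b0.ok = true := by decide +kernel

def hi7b1 : CellD :=
  ⟨⟨0, 512, 512, 1024, -1024, -928⟩, 2540, 1581, 2769, 1434, 2731, ⟨2491, 86, -186, 3378⟩,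
   ⟨640, -218, 23, 196⟩, ⟨24, 107, -120, 6⟩, ⟨-61, 253, 10, 1⟩, ⟨1793, -3189, -792, -1294⟩,
   ⟨7265, -1919, 1919, 1⟩, ⟨7238, -3015, -53, -1795⟩, ⟨1071, 698, -1070⟩, ⟨-49, 5394, 4506⟩,
   -4327, -2536, 2163, -599, ⟨4980, 3112, 2184⟩, ⟨3272, 1327, 1455⟩, ⟨67, 0, 0⟩, ⟨171, 0, 0⟩,
   ⟨1168, 368, 133⟩, ⟨4973, 4684, 4473⟩, ⟨12199, 6412, 3425⟩, -1308, 1105, ⟨5864, 11624, 35409⟩,
   1024, 512, -928, -1024⟩

theorem hi7b1_ok : hi7b1.ok = true := by decide +kernel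

def hi7b2 : CellD :=
  ⟨⟨512, 1024, 512, 1024, -1024, -928⟩, 2540, 1581, 2769, 1434, 2731, ⟨1848, -803, -715, 1105⟩,
   ⟨587, -280, 31, 108⟩, ⟨33, 211, -496, -130⟩, ⟨-113, 340, 42, 30⟩, ⟨851, -687, -302, -73⟩,
   ⟨4900, -1569, 5326, 444⟩, ⟨4876, 725, 1754, -941⟩, ⟨2546, 571, -2826⟩, ⟨11014, -8447, -2359⟩,
   -2689, -2526, 4949, 1080, ⟨1772, 1657, 1579⟩, ⟨6088, 1400, 372⟩, ⟨5, 0, 0⟩, ⟨14, 0, 0⟩,
   ⟨2439, 1484, 911⟩, ⟨934, 1114, 1330⟩, ⟨6213, 2423, 953⟩, -936, 964, ⟨1674, -1, 20⟩, 1024, 512,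
   -928, -1024⟩

theorem hi7b2_ok : hi7b2.ok = true := by decide +kernel

theorem hi7b_win : WGood ⟨2540, 1581, 2769, 1434, 2731⟩ ⟨0, 1024, 0, 1024, -1024, -928⟩ :=
  wgood_cover (cells := [hi7b0.box, hi7b1.box, hi7b2.box])
    (by
      intro c hc
      simp only [List.mem_cons, List.not_mem_nil, or_false] at hc
      rcases hc with rfl | rfl | rfl
      · exact wgood_of_ok hi7b0_ok (by decide)
      · exact wgood_of_ok hi7b1_ok (by decide)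
      · exact wgood_of_ok hi7b2_ok (by decide))
    (CTree.n2 512 (CTree.leaf 0) (CTree.n1 512 (CTree.leaf 1) (CTree.leaf 2)))
    (by decide +kernel)

end Pool.G1.Gap.PB
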