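import Pool.Agent.Work.MP_b5407d_g1.Pl_HI0
import Pool.Agent.Work.MP_b5407d_g1.Pl_HI1
import Pool.Agent.Work.MP_b5407d_g1.Pl_HI2
import Pool.Agent.Work.MP_b5407d_g1.Pl_HI3
import Pool.Agent.Work.MP_b5407d_g1.Pl_HI4
import Pool.Agent.Work.MP_b5407d_g1.Pl_HI5
import Pool.Agent.Work.MP_b5407d_g1.Pl_HI6
import Pool.Agent.Work.MP_b5407d_g1.Pl_HI7

/-!
# G1, line P-a: all windows `t ∈ [1434, 2731] / 4096`, every tilt `τ ∈ (0, 1)`
-/

set_option autoImplicit false

namespace Pool.G1.Gap.PB

theorem hi0_p : WGood ⟨5325, 1638, 3277, 1434, 2731⟩ ⟨0, 1024, 0, 1024, 0, 112⟩ :=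
  wgood_cover (cells := [⟨0, 1024, 0, 1024, -112, 112⟩])
    (by
      intro c hc
      simp only [List.mem_cons, List.not_mem_nil, or_false] at hc
      rcases hc with rfl
      exact hi0a_win)
    (CTree.leaf 0) (by decide +kernel)

theorem hi0_n : WGood ⟨5325, 1638, 3277, 1434, 2731⟩ ⟨0, 1024, 0, 1024, -112, 0⟩ :=
  wgood_cover (cells := [⟨0, 1024, 0, 1024, -112, 112⟩])
    (by
      intro c hc
      simp only [List.mem_cons, List.not_mem_nil, or_false] at hc
      rcases hc with rfl
      exact hi0a_win)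
    (CTree.leaf 0) (by decide +kernel)

/-- **all tilts, mean load in `[1434, 2731] / 4096`** -/
theorem HI_all (τ t : ℝ) (hτ : 0 < τ) (hτ1 : τ < 1) (ht0 : (1434 : ℝ) / 4096 ≤ t)
    (ht1 : t ≤ (2731 : ℝ) / 4096) : ∃ kap lp nu : ℝ, 0 ≤ kap ∧ PWat 0 τ t kap lp nu := by
  rcases le_total τ ((112 : ℝ) / 1024) with h0 | h0
  · exact MIX_of_win (w := ⟨5325, 1638, 3277, 1434, 2731⟩) (tl := 0) (th := 112) (by decide) hi0_p
      (by simpa using hi0_n) hτ hτ1 (by push_cast; linarith) (by push_cast; linarith)
      (by push_cast; linarith) (by push_cast; linarith)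
  rcases le_total τ ((208 : ℝ) / 1024) with h1 | h1
  · exact MIX_of_win (w := ⟨5202, 1192, 4055, 1434, 2731⟩) (tl := 112) (th := 208) (by decide) hi1a_win
      (by simpa using hi1b_win) hτ hτ1 (by push_cast; linarith) (by push_cast; linarith)
      (by push_cast; linarith) (by push_cast; linarith)
  rcases le_total τ ((304 : ℝ) / 1024) with h2 | h2
  · exact MIX_of_win (w := ⟨5243, 1430, 3396, 1434, 2731⟩) (tl := 208) (th := 304) (by decide) hi2a_win
      (by simpa using hi2b_win) hτ hτ1 (by push_cast; linarith) (by push_cast; linarith)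
      (by push_cast; linarith) (by push_cast; linarith)
  rcases le_total τ ((416 : ℝ) / 1024) with h3 | h3
  · exact MIX_of_win (w := ⟨5005, 1434, 3457, 1434, 2731⟩) (tl := 304) (th := 416) (by decide) hi3a_win
      (by simpa using hi3b_win) hτ hτ1 (by push_cast; linarith) (by push_cast; linarith)
      (by push_cast; linarith) (by push_cast; linarith)
  rcases le_total τ ((608 : ℝ) / 1024) with h4 | h4
  · exact MIX_of_win (w := ⟨4801, 1487, 3318, 1434, 2731⟩) (tl := 416) (th := 608) (by decide) hi4a_win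
      (by simpa using hi4b_win) hτ hτ1 (by push_cast; linarith) (by push_cast; linarith)
      (by push_cast; linarith) (by push_cast; linarith)
  rcases le_total τ ((816 : ℝ) / 1024) with h5 | h5
  · exact MIX_of_win (w := ⟨3686, 1487, 3248, 1434, 2731⟩) (tl := 608) (th := 816) (by decide) hi5a_win
      (by simpa using hi5b_win) hτ hτ1 (by push_cast; linarith) (by push_cast; linarith)
      (by push_cast; linarith) (by push_cast; linarith)
  rcases le_total τ ((928 : ℝ) / 1024) with h6 | h6
  · exact MIX_of_win (w := ⟨2494, 1462, 3138, 1434, 2731⟩) (tl := 816) (th := 928) (by decide) hi6a_win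
      (by simpa using hi6b_win) hτ hτ1 (by push_cast; linarith) (by push_cast; linarith)
      (by push_cast; linarith) (by push_cast; linarith)
  exact MIX_of_win (w := ⟨2540, 1581, 2769, 1434, 2731⟩) (tl := 928) (th := 1024) (by decide) hi7a_win
      (by simpa using hi7b_win) hτ hτ1 (by push_cast; linarith) (by push_cast; linarith)
      (by push_cast; linarith) (by push_cast; linarith)

end Pool.G1.Gap.PB
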