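import Pool.Agent.Work.MP_b5407d_g1.Pl_PWL

/-!
# G1, line P-a: cells of the windows `t ∈ [1024, 1434] / 4096`, part b

Generated from the certificate file (79 integers per cell).
-/

set_option autoImplicit false

namespace Pool.G1.Gap

namespace PB

/-- cell -/
def cmid24 : CellD := ⟨⟨0,512,0,1024,208,304⟩, 2961,1327,3457,1024,1434,
  ⟨1120,-55,1577,-685⟩, ⟨770,-746,131,845⟩, ⟨-1021,11,-727,1032⟩, ⟨-816,1190,324,95⟩, ⟨791,-753,-44,-170⟩, ⟨8223,-1548,774,9⟩, ⟨9499,-6986,-1061,-766⟩, ⟨1809,1460,-1803⟩, ⟨79,7324,4905⟩,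
  3410,-1873,2793,616, ⟨3391,-1512,1668⟩, ⟨1927,383,229⟩, ⟨378,0,0⟩, ⟨5,0,0⟩, ⟨2114,586,225⟩, ⟨18,-23,76⟩, ⟨32027,-30602,90723⟩, -2602,5226, ⟨758,2627,9445⟩, -208,1024,304,0⟩

theorem cmid24_ok : cmid24.ok = true := by decide +kernel

/-- cell -/
def cmid25 : CellD := ⟨⟨512,1024,0,512,208,304⟩, 2961,1327,3457,1024,1434,
  ⟨1744,-931,-2803,-1016⟩, ⟨641,-398,501,-237⟩, ⟨-946,971,249,-400⟩, ⟨-865,1059,491,20⟩, ⟨658,-502,-185,-353⟩, ⟨7506,-2647,2648,1538⟩, ⟨5200,1298,239,-4⟩, ⟨2639,1221,-4746⟩, ⟨6860,-4174,1023⟩,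
  4603,3771,2939,3108, ⟨5422,3846,4238⟩, ⟨2217,2076,2642⟩, ⟨2898,-2471,7721⟩, ⟨11,-15,26⟩, ⟨2666,-749,3707⟩, ⟨27,-43,75⟩, ⟨32210,-33758,117233⟩, -2094,1066, ⟨819,4583,26055⟩, -208,512,304,0⟩

theorem cmid25_ok : cmid25.ok = true := by decide +kernel

/-- cell -/
def cmid26 : CellD := ⟨⟨512,768,512,1024,208,304⟩, 2961,1327,3457,1024,1434,
  ⟨1327,724,-52,-515⟩, ⟨283,18,42,863⟩, ⟨-2133,2060,-1277,2534⟩, ⟨-708,947,312,-3⟩, ⟨204,-997,2,1239⟩, ⟨6723,-800,2008,508⟩, ⟨5945,-1480,-698,-534⟩, ⟨1793,508,-2040⟩, ⟨13646,-11289,-190⟩,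
  2233,6055,3446,-1163, ⟨2879,-1063,21755⟩, ⟨2988,-1277,1388⟩, ⟨244,0,0⟩, ⟨1,0,0⟩, ⟨3068,-4704,15096⟩, ⟨5,-10,34⟩, ⟨28026,-52723,120507⟩, -1227,2898, ⟨5552,23592,100518⟩, -208,1024,304,-512⟩

theorem cmid26_ok : cmid26.ok = true := by decide +kernel

/-- cell -/
def cmid27 : CellD := ⟨⟨768,1024,512,768,208,304⟩, 2961,1327,3457,1024,1434,
  ⟨2558,-293,-3143,-39⟩, ⟨830,-530,17,-63⟩, ⟨686,-1413,-959,1600⟩, ⟨-427,615,215,-37⟩, ⟨1172,-2079,-608,1994⟩, ⟨6240,-1273,2974,1101⟩, ⟨-8943,14497,2359,478⟩, ⟨2632,634,-3682⟩, ⟨24319,-19620,-5632⟩,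
  4572,2095,2707,2126, ⟨7530,-3512,16140⟩, ⟨2224,311,3922⟩, ⟨2374,-3866,11452⟩, ⟨13,-25,64⟩, ⟨6764,-13937,34632⟩, ⟨14,-28,69⟩, ⟨37271,-58153,121491⟩, 5958,-6021, ⟨8626,31258,113273⟩, -208,768,304,-512⟩

theorem cmid27_ok : cmid27.ok = true := by decide +kernel

/-- cell -/
def cmid28 : CellD := ⟨⟨768,1024,768,1024,208,304⟩, 2961,1327,3457,1024,1434,
  ⟨9987,-2686,-9026,1579⟩, ⟨3351,-1387,-2414,350⟩, ⟨9525,-7205,-7921,4088⟩, ⟨216,79,79,-413⟩, ⟨3484,-5467,-990,4230⟩, ⟨5793,-396,2780,398⟩, ⟨-10660,16336,2428,597⟩, ⟨1407,166,-1531⟩, ⟨20610,-15828,-4776⟩,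
  2304,5889,2548,3552, ⟨4997,-8161,46523⟩, ⟨2015,639,8960⟩, ⟨412,0,0⟩, ⟨1,0,0⟩, ⟨4404,-12872,44832⟩, ⟨5,-15,57⟩, ⟨39780,-44288,120298⟩, 3081,-2152, ⟨4859,22128,101321⟩, -208,1024,304,-768⟩

theorem cmid28_ok : cmid28.ok = true := by decide +kernel

/-- cell -/
def cmid29 : CellD := ⟨⟨0,512,0,1024,-304,-208⟩, 2961,1327,3457,1024,1434,
  ⟨1287,-241,808,599⟩, ⟨562,-369,46,-104⟩, ⟨-1816,522,-443,-3760⟩, ⟨-801,551,194,-1156⟩, ⟨1025,-1423,-121,-606⟩, ⟨8223,-2441,1221,3⟩, ⟨8864,-4973,-818,-817⟩, ⟨1848,1706,-1843⟩, ⟨334,5930,4655⟩,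
  1166,-6164,3172,1874, ⟨1723,8,12910⟩, ⟨2531,1624,1540⟩, ⟨402,0,0⟩, ⟨18,0,0⟩, ⟨23,11,31⟩, ⟨2559,4962,9832⟩, ⟨53196,44453,121447⟩, -5298,9541, ⟨54,136,2238⟩, 304,0,-208,-1024⟩

theorem cmid29_ok : cmid29.ok = true := by decide +kernel

/-- cell -/
def cmid30 : CellD := ⟨⟨512,1024,0,512,-304,-208⟩, 2961,1327,3457,1024,1434,
  ⟨1688,-891,180,485⟩, ⟨597,-312,372,726⟩, ⟨-1570,1336,-302,-1089⟩, ⟨-681,882,462,532⟩, ⟨831,-995,-322,-630⟩, ⟨7149,-2269,2273,499⟩, ⟨7299,-1367,-170,-3⟩, ⟨2888,1506,-5034⟩, ⟨5652,-2680,1371⟩,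
  4128,-995,3006,-489, ⟨4255,-823,636⟩, ⟨2285,-229,361⟩, ⟨909,955,1994⟩, ⟨18,30,67⟩, ⟨1173,775,559⟩, ⟨1669,3648,8002⟩, ⟨80002,70143,121425⟩, -1635,1723, ⟨119,368,2084⟩, 304,0,-208,-512⟩

theorem cmid30_ok : cmid30.ok = true := by decide +kernel

/-- cell -/
def cmid31 : CellD := ⟨⟨512,768,512,1024,-304,-208⟩, 2961,1327,3457,1024,1434,
  ⟨1668,-434,950,1931⟩, ⟨174,159,112,73⟩, ⟨-5848,5070,-777,-5954⟩, ⟨-824,1164,233,197⟩, ⟨1225,-2055,-229,-693⟩, ⟨6164,-1204,3100,467⟩, ⟨8864,-5193,-1632,-917⟩, ⟨1908,585,-2193⟩, ⟨8978,-5898,1076⟩,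
  1796,-7183,3655,5009, ⟨1637,-955,18978⟩, ⟨3304,4626,6754⟩, ⟨33,0,0⟩, ⟨1,0,0⟩, ⟨1981,3848,7615⟩, ⟨8,27,128⟩, ⟨18772,31847,121096⟩, 18,1129, ⟨6935,18812,51203⟩, 304,512,-208,-1024⟩

theorem cmid31_ok : cmid31.ok = true := by decide +kernel

/-- cell -/
def cmid32 : CellD := ⟨⟨768,1024,512,768,-304,-208⟩, 2961,1327,3457,1024,1434,
  ⟨2856,-1345,-157,1962⟩, ⟨464,-184,218,457⟩, ⟨-1781,821,-349,-3040⟩, ⟨-445,661,201,146⟩, ⟨-279,-426,-414,-2106⟩, ⟨5929,-1778,4178,1089⟩, ⟨-4139,9990,1404,-488⟩, ⟨2914,784,-4192⟩, ⟨18662,-14948,-4212⟩,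
  3719,-4341,4814,2564, ⟨4028,-2291,9044⟩, ⟨5899,3676,3448⟩, ⟨43,-98,1225⟩, ⟨9,21,60⟩, ⟨2396,4705,10911⟩, ⟨11,27,79⟩, ⟨25932,43347,121527⟩, -1081,1696, ⟨9552,28696,86440⟩, 304,512,-208,-768⟩

theorem cmid32_ok : cmid32.ok = true := by decide +kernel

/-- cell -/
def cmid33 : CellD := ⟨⟨768,896,768,1024,-304,-208⟩, 2961,1327,3457,1024,1434,
  ⟨3643,-761,-1353,2212⟩, ⟨639,47,-332,308⟩, ⟨-801,2470,-5781,-7663⟩, ⟨-368,630,122,104⟩, ⟨-4198,410,1189,-7333⟩, ⟨4836,-615,4074,377⟩, ⟨-7676,12764,1946,-116⟩, ⟨1367,193,-1510⟩, ⟨28668,-24224,-6747⟩,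
  905,-10667,5072,6465, ⟨3659,8729,64274⟩, ⟨6453,8645,12626⟩, ⟨67,0,0⟩, ⟨1,0,0⟩, ⟨2345,6302,17848⟩, ⟨5,14,57⟩, ⟨16742,23993,113418⟩, 2540,-2846, ⟨11342,30848,84038⟩, 304,768,-208,-1024⟩

theorem cmid33_ok : cmid33.ok = true := by decide +kernel

/-- cell -/
def cmid34 : CellD := ⟨⟨896,1024,768,1024,-304,-208⟩, 2961,1327,3457,1024,1434,
  ⟨2926,1333,-3573,2163⟩, ⟨1084,-403,-252,567⟩, ⟨4719,259,-6420,1487⟩, ⟨-163,672,-71,400⟩, ⟨3814,-892,-4228,-109⟩, ⟨4307,-608,4687,428⟩, ⟨-16304,20612,4098,599⟩, ⟨1557,185,-1718⟩, ⟨13341,-9612,-3723⟩,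
  1876,-7463,4040,-149, ⟨4635,9193,55840⟩, ⟨4292,972,4146⟩, ⟨142,0,0⟩, ⟨0,0,0⟩, ⟨1220,3178,10768⟩, ⟨2,8,34⟩, ⟨20637,19945,108970⟩, 877,-1034, ⟨3084,8912,25786⟩, 304,768,-208,-1024⟩

theorem cmid34_ok : cmid34.ok = true := by decide +kernel

/-- window `|τ| ∈ [208, 304] / 1024` -/
def wmid2 : WinD := ⟨2961, 1327, 3457, 1024, 1434⟩

theorem wmid2_cells : ∀ c ∈ [cmid24.box, cmid25.box, cmid26.box, cmid27.box, cmid28.box, cmid29.box, cmid30.box, cmid31.box, cmid32.box, cmid33.box, cmid34.box], WGood wmid2 c :=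
  wg_cons (wgood_of_ok cmid24_ok (by decide +kernel)) <|
  wg_cons (wgood_of_ok cmid25_ok (by decide +kernel)) <|
  wg_cons (wgood_of_ok cmid26_ok (by decide +kernel)) <|
  wg_cons (wgood_of_ok cmid27_ok (by decide +kernel)) <|
  wg_cons (wgood_of_ok cmid28_ok (by decide +kernel)) <|
  wg_cons (wgood_of_ok cmid29_ok (by decide +kernel)) <|
  wg_cons (wgood_of_ok cmid30_ok (by decide +kernel)) <|
  wg_cons (wgood_of_ok cmid31_ok (by decide +kernel)) <|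
  wg_cons (wgood_of_ok cmid32_ok (by decide +kernel)) <|
  wg_cons (wgood_of_ok cmid33_ok (by decide +kernel)) <|
  wg_cons (wgood_of_ok cmid34_ok (by decide +kernel)) <|
  wg_nil _

theorem wmid2_pos : WGood wmid2 ⟨0, 1024, 0, 1024, 208, 304⟩ :=
  wgood_cover wmid2_cells (CTree.n1 512 (CTree.leaf 0) (CTree.n2 512 (CTree.leaf 1) (CTree.n1 768 (CTree.leaf 2) (CTree.n2 768 (CTree.leaf 3) (CTree.leaf 4))))) (by decide +kernel)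

theorem wmid2_neg : WGood wmid2 ⟨0, 1024, 0, 1024, -304, -208⟩ :=
  wgood_cover wmid2_cells (CTree.n1 512 (CTree.leaf 5) (CTree.n2 512 (CTree.leaf 6) (CTree.n1 768 (CTree.leaf 7) (CTree.n2 768 (CTree.leaf 8) (CTree.n1 896 (CTree.leaf 9) (CTree.leaf 10)))))) (by decide +kernel)

/-- cell -/
def cmid35 : CellD := ⟨⟨0,512,0,1024,304,416⟩, 2871,1311,3580,1024,1434,
  ⟨1222,146,1590,-1210⟩, ⟨744,-911,164,1080⟩, ⟨-1332,660,-427,1301⟩, ⟨-654,1138,201,82⟩, ⟨746,-678,-39,-157⟩, ⟨8222,-1354,677,11⟩, ⟨9607,-7350,-1088,-763⟩, ⟨1801,1410,-1796⟩, ⟨60,7599,4945⟩,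
  4217,-2337,2705,723, ⟨4869,-2305,2131⟩, ⟨1821,423,269⟩, ⟨573,0,0⟩, ⟨5,0,0⟩, ⟨2576,794,322⟩, ⟨20,-19,53⟩, ⟨29930,-33907,79308⟩, -2300,5102, ⟨561,2046,7666⟩, -304,1024,416,0⟩

theorem cmid35_ok : cmid35.ok = true := by decide +kernel

/-- cell -/
def cmid36 : CellD := ⟨⟨512,1024,0,512,304,416⟩, 2871,1311,3580,1024,1434,
  ⟨1334,-855,-4346,-440⟩, ⟨815,-520,516,-220⟩, ⟨-430,722,19,-674⟩, ⟨-778,1070,416,-94⟩, ⟨700,-395,-156,-591⟩, ⟨7440,-2517,2517,1544⟩, ⟨4742,1927,235,-8⟩, ⟨2583,1169,-4590⟩, ⟨7093,-4482,995⟩,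
  4521,2223,2504,2437, ⟨5479,1970,1766⟩, ⟨1704,1323,1655⟩, ⟨5938,-3730,5861⟩, ⟨15,-13,16⟩, ⟨4225,-946,2731⟩, ⟨28,-28,34⟩, ⟨44273,-41835,82789⟩, -3251,2663, ⟨417,2588,16420⟩, -304,512,416,0⟩

theorem cmid36_ok : cmid36.ok = true := by decide +kernel

/-- cell -/
def cmid37 : CellD := ⟨⟨512,768,512,1024,304,416⟩, 2871,1311,3580,1024,1434,
  ⟨3167,42,-2931,-1192⟩, ⟨584,-545,145,1007⟩, ⟨-1051,585,-611,1108⟩, ⟨-545,822,254,-13⟩, ⟨414,-958,27,507⟩, ⟨6828,-709,1786,525⟩, ⟨5287,-518,-601,-539⟩, ⟨1770,494,-2010⟩, ⟨14770,-12787,-340⟩,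
  1637,5788,3381,-702, ⟨3150,-2156,17371⟩, ⟨2925,-897,914⟩, ⟨574,0,0⟩, ⟨2,0,0⟩, ⟨4138,-5271,11966⟩, ⟨7,-9,22⟩, ⟨37227,-61867,108168⟩, 124,1181, ⟨3169,14636,67882⟩, -304,1024,416,-512⟩

theorem cmid37_ok : cmid37.ok = true := by decide +kernel

/-- cell -/
def cmid38 : CellD := ⟨⟨768,1024,512,1024,304,416⟩, 2871,1311,3580,1024,1434,
  ⟨2176,1054,-4915,1375⟩, ⟨902,-713,291,393⟩, ⟨842,-433,-751,-1079⟩, ⟨-428,877,253,-442⟩, ⟨863,-992,-580,681⟩, ⟨6150,-714,2578,758⟩, ⟨-9681,15473,2256,584⟩, ⟨2291,341,-2539⟩, ⟨22202,-17507,-4663⟩,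
  1241,6947,1892,3262, ⟨1078,906,14081⟩, ⟨1131,930,3950⟩, ⟨723,0,0⟩, ⟨1,0,0⟩, ⟨3602,-6199,16128⟩, ⟨5,-9,20⟩, ⟨35218,-33517,75284⟩, 1395,-404, ⟨768,4390,25309⟩, -304,1024,416,-512⟩

theorem cmid38_ok : cmid38.ok = true := by decide +kernel

/-- cell -/
def cmid39 : CellD := ⟨⟨0,512,0,1024,-416,-304⟩, 2871,1311,3580,1024,1434,
  ⟨1505,-74,819,1492⟩, ⟨608,-329,75,115⟩, ⟨-1761,799,-162,-2622⟩, ⟨-550,632,157,-371⟩, ⟨1085,-1593,-181,-750⟩, ⟨8223,-2613,1306,3⟩, ⟨8685,-4496,-730,-866⟩, ⟨1857,1755,-1852⟩, ⟨398,5652,4587⟩,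
  1141,-4951,2534,1307, ⟨1765,406,9038⟩, ⟨1677,1052,1041⟩, ⟨241,0,0⟩, ⟨14,0,0⟩, ⟨17,9,20⟩, ⟨2603,4066,6411⟩, ⟨48727,54657,120234⟩, -3839,5904, ⟨52,291,2416⟩, 416,0,-304,-1024⟩

theorem cmid39_ok : cmid39.ok = true := by decide +kernel

/-- cell -/
def cmid40 : CellD := ⟨⟨512,1024,0,512,-416,-304⟩, 2871,1311,3580,1024,1434,
  ⟨1582,-753,229,846⟩, ⟨622,-321,300,495⟩, ⟨-1728,1321,-650,-1643⟩, ⟨-561,809,347,392⟩, ⟨775,-915,-428,-718⟩, ⟨6859,-1981,2012,-170⟩, ⟨7661,-1780,-373,-36⟩, ⟨2907,1399,-4890⟩, ⟨5410,-2415,1508⟩,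
  2030,-1455,2126,-231, ⟨1106,-598,697⟩, ⟨1203,5,207⟩, ⟨521,316,685⟩, ⟨43,47,70⟩, ⟨807,292,125⟩, ⟨3797,4852,6207⟩, ⟨110368,82788,114033⟩, -942,1106, ⟨92,304,2293⟩, 416,0,-304,-512⟩

theorem cmid40_ok : cmid40.ok = true := by decide +kernel

/-- cell -/
def cmid41 : CellD := ⟨⟨512,768,512,1024,-416,-304⟩, 2871,1311,3580,1024,1434,
  ⟨2025,-555,464,2067⟩, ⟨432,-98,111,237⟩, ⟨-3980,3429,-379,-2527⟩, ⟨-591,918,183,180⟩, ⟨1228,-1722,-251,-460⟩, ⟨6050,-1280,3320,466⟩, ⟨9225,-5756,-1893,-1442⟩, ⟨1931,603,-2226⟩, ⟨8196,-5159,1391⟩,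
  1992,-4084,3584,3829, ⟨2145,190,8612⟩, ⟨3198,3500,3990⟩, ⟨63,0,0⟩, ⟨2,0,0⟩, ⟨1745,2522,3728⟩, ⟨24,66,234⟩, ⟨30783,51585,121192⟩, -1237,2406, ⟨3931,10473,28108⟩, 416,512,-304,-1024⟩

theorem cmid41_ok : cmid41.ok = true := by decide +kernel

/-- cell -/
def cmid42 : CellD := ⟨⟨768,1024,512,768,-416,-304⟩, 2871,1311,3580,1024,1434,
  ⟨2707,-1177,-345,1546⟩, ⟨472,-236,245,333⟩, ⟨-1735,449,-209,-2726⟩, ⟨-430,606,215,91⟩, ⟨412,-1162,-316,-1473⟩, ⟨5864,-1878,4421,1087⟩, ⟨-3105,8882,1333,-483⟩, ⟨2977,826,-4316⟩, ⟨17728,-14066,-4114⟩,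
  2997,-4236,4286,2410, ⟨3079,-1597,7028⟩, ⟨4812,3152,2652⟩, ⟨75,150,1196⟩, ⟨19,32,64⟩, ⟨2174,3154,5321⟩, ⟨26,45,92⟩, ⟨45495,62535,121654⟩, -1402,1924, ⟨5633,16614,49371⟩, 416,512,-304,-768⟩

theorem cmid42_ok : cmid42.ok = true := by decide +kernel

/-- cell -/
def cmid43 : CellD := ⟨⟨768,896,768,1024,-416,-304⟩, 2871,1311,3580,1024,1434,
  ⟨4335,-1547,-1546,2011⟩, ⟨642,-106,-134,335⟩, ⟨-737,1123,-3690,-4407⟩, ⟨-312,577,137,162⟩, ⟨-1511,-1238,670,-3599⟩, ⟨4602,-655,4379,374⟩, ⟨-6339,11450,1623,-298⟩, ⟨1379,197,-1526⟩, ⟨27049,-22802,-6356⟩,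
  441,-8874,5045,5383, ⟨4250,8538,41396⟩, ⟨6424,7218,8727⟩, ⟨67,0,0⟩, ⟨1,0,0⟩, ⟨2232,4438,8981⟩, ⟨8,17,51⟩, ⟨23176,39439,120856⟩, 743,-724, ⟨7255,18875,49226⟩, 416,768,-304,-1024⟩

theorem cmid43_ok : cmid43.ok = true := by decide +kernel

/-- cell -/
def cmid44 : CellD := ⟨⟨896,1024,768,1024,-416,-304⟩, 2871,1311,3580,1024,1434,
  ⟨5591,-2324,-2718,1298⟩, ⟨946,-358,-208,371⟩, ⟨2691,-1939,-4224,-4295⟩, ⟨-52,425,7,227⟩, ⟨1534,-2982,-1577,-5049⟩, ⟨4043,-648,5032,426⟩, ⟨-16890,20990,4367,602⟩, ⟨1574,190,-1739⟩, ⟨13680,-9835,-3839⟩,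
  1217,-7022,3777,82, ⟨3871,5975,30913⟩, ⟨4036,1465,3499⟩, ⟨119,0,0⟩, ⟨1,0,0⟩, ⟨1576,3226,7631⟩, ⟨10,23,60⟩, ⟨27574,35596,120752⟩, 1299,-1673, ⟨3272,8937,24531⟩, 416,768,-304,-1024⟩

theorem cmid44_ok : cmid44.ok = true := by decide +kernel

/-- window `|τ| ∈ [304, 416] / 1024` -/
def wmid3 : WinD := ⟨2871, 1311, 3580, 1024, 1434⟩

theorem wmid3_cells : ∀ c ∈ [cmid35.box, cmid36.box, cmid37.box, cmid38.box, cmid39.box, cmid40.box, cmid41.box, cmid42.box, cmid43.box, cmid44.box], WGood wmid3 c :=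
  wg_cons (wgood_of_ok cmid35_ok (by decide +kernel)) <|
  wg_cons (wgood_of_ok cmid36_ok (by decide +kernel)) <|
  wg_cons (wgood_of_ok cmid37_ok (by decide +kernel)) <|
  wg_cons (wgood_of_ok cmid38_ok (by decide +kernel)) <|
  wg_cons (wgood_of_ok cmid39_ok (by decide +kernel)) <|
  wg_cons (wgood_of_ok cmid40_ok (by decide +kernel)) <|
  wg_cons (wgood_of_ok cmid41_ok (by decide +kernel)) <|
  wg_cons (wgood_of_ok cmid42_ok (by decide +kernel)) <|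
  wg_cons (wgood_of_ok cmid43_ok (by decide +kernel)) <|
  wg_cons (wgood_of_ok cmid44_ok (by decide +kernel)) <|
  wg_nil _

theorem wmid3_pos : WGood wmid3 ⟨0, 1024, 0, 1024, 304, 416⟩ :=
  wgood_cover wmid3_cells (CTree.n1 512 (CTree.leaf 0) (CTree.n2 512 (CTree.leaf 1) (CTree.n1 768 (CTree.leaf 2) (CTree.leaf 3)))) (by decide +kernel)

theorem wmid3_neg : WGood wmid3 ⟨0, 1024, 0, 1024, -416, -304⟩ :=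
  wgood_cover wmid3_cells (CTree.n1 512 (CTree.leaf 4) (CTree.n2 512 (CTree.leaf 5) (CTree.n1 768 (CTree.leaf 6) (CTree.n2 768 (CTree.leaf 7) (CTree.n1 896 (CTree.leaf 8) (CTree.leaf 9)))))) (by decide +kernel)

end PB

end Pool.G1.Gap
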