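import Pool.Agent.Work.MP_b5407d_g1.Pl_PWL

/-!
# G1, line P-a: cells of the windows `t ∈ [1024, 1434] / 4096`, part c

Generated from the certificate file (79 integers per cell).
-/

set_option autoImplicit false

namespace Pool.G1.Gap

namespace PB

/-- cell -/
def cmid45 : CellD := ⟨⟨0,512,0,1024,416,608⟩, 2908,1389,3236,1024,1434,
  ⟨1704,-58,925,-1962⟩, ⟨600,-1214,282,1585⟩, ⟨-1249,958,-278,926⟩, ⟨-493,904,166,70⟩, ⟨707,-591,-40,-163⟩, ⟨8217,-1034,517,25⟩, ⟨9770,-7847,-1109,-762⟩, ⟨1789,1328,-1783⟩, ⟨50,7960,5012⟩,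
  4612,-2504,2647,994, ⟨6125,-2839,2578⟩, ⟨1768,563,390⟩, ⟨1650,0,0⟩, ⟨7,0,0⟩, ⟨2754,1122,556⟩, ⟨30,-33,105⟩, ⟨34469,-33748,55033⟩, -1738,4517, ⟨423,1514,5565⟩, -416,1024,608,0⟩

theorem cmid45_ok : cmid45.ok = true := by decide +kernel

/-- cell -/
def cmid46 : CellD := ⟨⟨512,1024,0,512,416,608⟩, 2908,1389,3236,1024,1434,
  ⟨1548,-1192,-5205,-948⟩, ⟨780,-603,601,131⟩, ⟨-592,573,-250,246⟩, ⟨-652,915,316,38⟩, ⟨496,-416,-276,39⟩, ⟨7334,-2309,2309,1549⟩, ⟨4100,2884,194,-16⟩, ⟨2523,1102,-4406⟩, ⟨7392,-4906,955⟩,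
  4796,1362,2412,1675, ⟨6424,1066,911⟩, ⟨1679,828,831⟩, ⟨10799,-4371,4125⟩, ⟨21,-9,9⟩, ⟨6045,-936,2087⟩, ⟨27,-14,14⟩, ⟨69768,-42002,49706⟩, -2884,2731, ⟨152,858,5590⟩, -416,512,608,0⟩

theorem cmid46_ok : cmid46.ok = true := by decide +kernel

/-- cell -/
def cmid47 : CellD := ⟨⟨512,1024,512,1024,416,608⟩, 2908,1389,3236,1024,1434,
  ⟨2988,368,-2927,-2008⟩, ⟨729,-928,473,992⟩, ⟨-98,-436,-497,589⟩, ⟨-474,722,294,-62⟩, ⟨814,-1028,-56,13⟩, ⟨6799,-561,1753,565⟩, ⟨702,7884,159,-905⟩, ⟨2071,334,-2231⟩, ⟨16339,-14565,-1171⟩,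
  946,5018,3256,400, ⟨1208,4,7890⟩, ⟨2730,35,640⟩, ⟨620,0,0⟩, ⟨1,0,0⟩, ⟨5072,-5862,10638⟩, ⟨4,-5,8⟩, ⟨41166,-31406,45794⟩, 529,107, ⟨441,2860,18887⟩, -416,1024,608,-512⟩

theorem cmid47_ok : cmid47.ok = true := by decide +kernel

/-- cell -/
def cmid48 : CellD := ⟨⟨0,512,0,1024,-608,-416⟩, 2908,1389,3236,1024,1434,
  ⟨1709,111,637,2284⟩, ⟨616,-282,80,198⟩, ⟨-1519,1014,-20,-1397⟩, ⟨-409,547,108,-183⟩, ⟨1140,-1828,-275,-927⟩, ⟨8223,-2850,1425,2⟩, ⟨8332,-3771,-550,-1062⟩, ⟨1870,1825,-1865⟩, ⟨491,5271,4479⟩,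
  1082,-3130,2151,528, ⟨1986,977,4933⟩, ⟨1427,697,791⟩, ⟨203,0,0⟩, ⟨17,0,0⟩, ⟨18,8,12⟩, ⟨4552,4857,5254⟩, ⟨56417,70043,114819⟩, -2197,2712, ⟨74,609,5775⟩, 608,0,-416,-1024⟩

theorem cmid48_ok : cmid48.ok = true := by decide +kernel

/-- cell -/
def cmid49 : CellD := ⟨⟨512,1024,0,512,-608,-416⟩, 2908,1389,3236,1024,1434,
  ⟨1262,-284,2,1080⟩, ⟨577,-301,251,282⟩, ⟨-1236,1081,-664,-827⟩, ⟨-422,661,226,175⟩, ⟨831,-921,-501,-575⟩, ⟨6648,-1465,1611,-244⟩, ⟨7947,-2219,-708,-399⟩, ⟨2939,1184,-4623⟩, ⟨5104,-2119,1727⟩,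
  2245,-1332,2458,-131, ⟨1400,-647,522⟩, ⟨1623,37,149⟩, ⟨223,-110,195⟩, ⟨227,210,224⟩, ⟨1159,320,97⟩, ⟨5506,4927,4477⟩, ⟨93195,53527,66727⟩, -735,1203, ⟨73,423,5206⟩, 608,0,-416,-512⟩

theorem cmid49_ok : cmid49.ok = true := by decide +kernel

/-- cell -/
def cmid50 : CellD := ⟨⟨512,768,512,1024,-608,-416⟩, 2908,1389,3236,1024,1434,
  ⟨2130,-367,117,2281⟩, ⟨524,-188,121,251⟩, ⟨-2604,2178,-80,-1055⟩, ⟨-398,703,141,135⟩, ⟨1211,-1487,-254,-334⟩, ⟨5888,-1374,3637,470⟩, ⟨9766,-6567,-2247,-1923⟩, ⟨1962,636,-2273⟩, ⟨7152,-4181,1748⟩,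
  2186,-1764,3113,2463, ⟨2352,675,3257⟩, ⟨2422,1974,1684⟩, ⟨71,0,0⟩, ⟨3,0,0⟩, ⟨1086,1045,1052⟩, ⟨203,490,1223⟩, ⟨47243,66938,106060⟩, -1857,2821, ⟨1429,4165,12188⟩, 608,512,-416,-1024⟩

theorem cmid50_ok : cmid50.ok = true := by decide +kernel

/-- cell -/
def cmid51 : CellD := ⟨⟨768,1024,512,1024,-608,-416⟩, 2908,1389,3236,1024,1434,
  ⟨2677,-504,-283,2472⟩, ⟨674,-313,146,356⟩, ⟨-868,894,-173,286⟩, ⟨-245,554,132,214⟩, ⟨816,-1128,-200,-451⟩, ⟨4905,-1273,4964,642⟩, ⟨-4631,10560,1896,-941⟩, ⟨2647,517,-3028⟩, ⟨15504,-12238,-3261⟩,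
  3907,-150,4223,1310, ⟨3841,52,374⟩, ⟨4422,1478,679⟩, ⟨49,0,0⟩, ⟨0,0,0⟩, ⟨1180,1580,2410⟩, ⟨4,8,20⟩, ⟨18593,19689,64042⟩, 32,-32, ⟨320,731,1686⟩, 608,512,-416,-1024⟩

theorem cmid51_ok : cmid51.ok = true := by decide +kernel

/-- window `|τ| ∈ [416, 608] / 1024` -/
def wmid4 : WinD := ⟨2908, 1389, 3236, 1024, 1434⟩

theorem wmid4_cells : ∀ c ∈ [cmid45.box, cmid46.box, cmid47.box, cmid48.box, cmid49.box, cmid50.box, cmid51.box], WGood wmid4 c :=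
  wg_cons (wgood_of_ok cmid45_ok (by decide +kernel)) <|
  wg_cons (wgood_of_ok cmid46_ok (by decide +kernel)) <|
  wg_cons (wgood_of_ok cmid47_ok (by decide +kernel)) <|
  wg_cons (wgood_of_ok cmid48_ok (by decide +kernel)) <|
  wg_cons (wgood_of_ok cmid49_ok (by decide +kernel)) <|
  wg_cons (wgood_of_ok cmid50_ok (by decide +kernel)) <|
  wg_cons (wgood_of_ok cmid51_ok (by decide +kernel)) <|
  wg_nil _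

theorem wmid4_pos : WGood wmid4 ⟨0, 1024, 0, 1024, 416, 608⟩ :=
  wgood_cover wmid4_cells (CTree.n1 512 (CTree.leaf 0) (CTree.n2 512 (CTree.leaf 1) (CTree.leaf 2))) (by decide +kernel)

theorem wmid4_neg : WGood wmid4 ⟨0, 1024, 0, 1024, -608, -416⟩ :=
  wgood_cover wmid4_cells (CTree.n1 512 (CTree.leaf 3) (CTree.n2 512 (CTree.leaf 4) (CTree.n1 768 (CTree.leaf 5) (CTree.leaf 6)))) (by decide +kernel)

/-- cell -/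
def cmid52 : CellD := ⟨⟨0,512,0,1024,608,816⟩, 2867,1360,3318,1024,1434,
  ⟨2411,-610,-633,-2816⟩, ⟨-33,-2028,632,2974⟩, ⟨-871,728,-166,473⟩, ⟨-379,890,155,-74⟩, ⟨664,-524,-37,-144⟩, ⟨8188,-618,309,74⟩, ⟨9937,-8482,-1128,-754⟩, ⟨1773,1228,-1767⟩, ⟨43,8576,5059⟩,
  3526,-998,2614,963, ⟨5792,-1118,1682⟩, ⟨1770,491,402⟩, ⟨6343,0,0⟩, ⟨9,0,0⟩, ⟨2845,1268,841⟩, ⟨137,47,202⟩, ⟨44058,-36604,39642⟩, -667,3163, ⟨289,1029,3797⟩, -608,1024,816,0⟩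

theorem cmid52_ok : cmid52.ok = true := by decide +kernel

/-- cell -/
def cmid53 : CellD := ⟨⟨512,1024,0,512,608,816⟩, 2867,1360,3318,1024,1434,
  ⟨2740,-2454,-7552,-1998⟩, ⟨952,-932,771,367⟩, ⟨-308,462,-240,-29⟩, ⟨-502,755,257,55⟩, ⟨549,-377,-219,-76⟩, ⟨7186,-2026,2026,1562⟩, ⟨3172,4158,116,-6⟩, ⟨2421,1015,-4130⟩, ⟨7985,-5635,925⟩,
  4545,942,1922,1241, ⟨6937,412,634⟩, ⟨1405,406,486⟩, ⟨20919,-5336,3208⟩, ⟨30,-8,5⟩, ⟨13135,-2204,2293⟩, ⟨33,-9,7⟩, ⟨74384,-28151,29351⟩, -2546,2387, ⟨40,137,1191⟩, -608,512,816,0⟩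

theorem cmid53_ok : cmid53.ok = true := by decide +kernel

/-- cell -/
def cmid54 : CellD := ⟨⟨512,1024,512,1024,608,816⟩, 2867,1360,3318,1024,1434,
  ⟨8660,-2045,-10599,-4112⟩, ⟨258,-1807,820,2396⟩, ⟨-323,-466,-286,651⟩, ⟨-325,620,202,-38⟩, ⟨715,-900,-99,60⟩, ⟨6967,-369,1250,650⟩, ⟨123,8978,-200,-869⟩, ⟨2019,309,-2166⟩, ⟨17930,-16431,-676⟩,
  -2165,5488,1948,900, ⟨3841,-4484,9154⟩, ⟨1351,-65,826⟩, ⟨3098,0,0⟩, ⟨3,0,0⟩, ⟨7785,-6771,9542⟩, ⟨9,-8,10⟩, ⟨81464,-53219,60632⟩, 2245,-1430, ⟨150,1774,22000⟩, -608,1024,816,-512⟩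

theorem cmid54_ok : cmid54.ok = true := by decide +kernel

/-- cell -/
def cmid55 : CellD := ⟨⟨0,512,0,1024,-816,-608⟩, 2867,1360,3318,1024,1434,
  ⟨2173,131,499,3066⟩, ⟨621,-266,75,206⟩, ⟨-1075,865,19,-637⟩, ⟨-260,449,83,-43⟩, ⟨1305,-2200,-430,-1037⟩, ⟨8223,-3168,1584,3⟩, ⟨7725,-2809,-306,-1377⟩, ⟨1889,1921,-1884⟩, ⟨601,4854,4322⟩,
  1486,-1229,1194,-334, ⟨1869,658,1648⟩, ⟨1178,633,912⟩, ⟨146,0,0⟩, ⟨16,0,0⟩, ⟨15,6,7⟩, ⟨6806,6064,5449⟩, ⟨62434,64323,75732⟩, -973,553, ⟨193,1570,13143⟩, 816,0,-608,-1024⟩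

theorem cmid55_ok : cmid55.ok = true := by decide +kernel

/-- cell -/
def cmid56 : CellD := ⟨⟨512,1024,0,512,-816,-608⟩, 2867,1360,3318,1024,1434,
  ⟨313,661,-123,1044⟩, ⟨576,-271,217,253⟩, ⟨-1015,998,-634,-490⟩, ⟨-270,536,161,147⟩, ⟨885,-1117,-683,-683⟩, ⟨6200,-769,1207,-392⟩, ⟨7714,-2591,-1255,-1278⟩, ⟨2969,880,-4591⟩, ⟨4824,-1863,2144⟩,
  2360,-1080,3324,117, ⟨1627,-509,363⟩, ⟨2946,250,131⟩, ⟨227,-88,82⟩, ⟨782,639,579⟩, ⟨904,210,53⟩, ⟨11545,6614,4327⟩, ⟨85591,39252,43131⟩, -406,844, ⟨30,-196,6388⟩, 816,0,-608,-512⟩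

theorem cmid56_ok : cmid56.ok = true := by decide +kernel

/-- cell -/
def cmid57 : CellD := ⟨⟨512,1024,512,1024,-816,-608⟩, 2867,1360,3318,1024,1434,
  ⟨1708,-145,-380,1374⟩, ⟨572,-265,130,224⟩, ⟨-1521,656,-391,-1221⟩, ⟨-212,484,123,145⟩, ⟨1471,-1578,-366,-137⟩, ⟨5275,-1432,4729,454⟩, ⟨4193,1832,1630,-929⟩, ⟨2438,528,-2696⟩, ⟨11425,-8936,-2283⟩,
  372,-1805,4396,1949, ⟨228,13,1029⟩, ⟨4778,2180,1066⟩, ⟨25,0,0⟩, ⟨2,0,0⟩, ⟨858,898,1121⟩, ⟨30,49,89⟩, ⟨35125,35182,56423⟩, -106,14, ⟨365,1073,3428⟩, 816,512,-608,-1024⟩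

theorem cmid57_ok : cmid57.ok = true := by decide +kernel

/-- window `|τ| ∈ [608, 816] / 1024` -/
def wmid5 : WinD := ⟨2867, 1360, 3318, 1024, 1434⟩

theorem wmid5_cells : ∀ c ∈ [cmid52.box, cmid53.box, cmid54.box, cmid55.box, cmid56.box, cmid57.box], WGood wmid5 c :=
  wg_cons (wgood_of_ok cmid52_ok (by decide +kernel)) <|
  wg_cons (wgood_of_ok cmid53_ok (by decide +kernel)) <|
  wg_cons (wgood_of_ok cmid54_ok (by decide +kernel)) <|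
  wg_cons (wgood_of_ok cmid55_ok (by decide +kernel)) <|
  wg_cons (wgood_of_ok cmid56_ok (by decide +kernel)) <|
  wg_cons (wgood_of_ok cmid57_ok (by decide +kernel)) <|
  wg_nil _

theorem wmid5_pos : WGood wmid5 ⟨0, 1024, 0, 1024, 608, 816⟩ :=
  wgood_cover wmid5_cells (CTree.n1 512 (CTree.leaf 0) (CTree.n2 512 (CTree.leaf 1) (CTree.leaf 2))) (by decide +kernel)

theorem wmid5_neg : WGood wmid5 ⟨0, 1024, 0, 1024, -816, -608⟩ :=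
  wgood_cover wmid5_cells (CTree.n1 512 (CTree.leaf 3) (CTree.n2 512 (CTree.leaf 4) (CTree.leaf 5))) (by decide +kernel)

/-- cell -/
def cmid58 : CellD := ⟨⟨0,512,0,1024,816,1024⟩, 2580,1323,3400,1024,1434,
  ⟨3009,-472,-1896,-3498⟩, ⟨-2142,-4423,1683,6421⟩, ⟨-1002,428,-76,725⟩, ⟨-298,887,104,-106⟩, ⟨627,-451,-43,-127⟩, ⟨8007,-231,116,305⟩, ⟨10073,-9087,-1120,-745⟩, ⟨1750,1148,-1744⟩, ⟨40,9570,4968⟩,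
  2206,31,2088,940, ⟨11724,-634,1677⟩, ⟨1192,356,353⟩, ⟨18811,0,0⟩, ⟨11,0,0⟩, ⟨3570,1438,971⟩, ⟨218,119,171⟩, ⟨55166,-37041,30868⟩, -223,2722, ⟨126,411,1485⟩, -816,1024,1024,0⟩

theorem cmid58_ok : cmid58.ok = true := by decide +kernel

/-- cell -/
def cmid59 : CellD := ⟨⟨512,1024,0,1024,816,1024⟩, 2580,1323,3400,1024,1434,
  ⟨2488,-1446,-1114,-2233⟩, ⟨1071,-1362,832,777⟩, ⟨-571,211,-131,414⟩, ⟨-408,693,232,-12⟩, ⟨634,-492,-104,-74⟩, ⟨6399,-230,984,1554⟩, ⟨1502,8055,-604,-745⟩, ⟨2707,182,-2786⟩, ⟨12972,-11043,594⟩,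
  -2478,3617,-868,2158, ⟨1990,-2237,3263⟩, ⟨377,-542,1223⟩, ⟨4875,0,0⟩, ⟨3,0,0⟩, ⟨5951,-2186,3632⟩, ⟨9,-5,4⟩, ⟨35387,-7530,13725⟩, 855,-376, ⟨3,-34,546⟩, -816,1024,1024,0⟩

theorem cmid59_ok : cmid59.ok = true := by decide +kernel

/-- cell -/
def cmid60 : CellD := ⟨⟨0,1024,0,512,-1024,-816⟩, 2580,1323,3400,1024,1434,
  ⟨1344,27,158,2041⟩, ⟨625,-289,144,223⟩, ⟨-614,929,-376,18⟩, ⟨-199,408,113,59⟩, ⟨949,-839,-723,-292⟩, ⟨7970,-2735,-997,-926⟩, ⟨7044,-2551,-204,-2547⟩, ⟨2229,1731,-4210⟩, ⟨2577,682,6772⟩,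
  417,-651,1118,-129, ⟨477,39,162⟩, ⟨992,264,180⟩, ⟨66,24,36⟩, ⟨2067,1013,578⟩, ⟨51,9,5⟩, ⟨24581,9965,5188⟩, ⟨109800,40116,33706⟩, 52,147, ⟨58,-136,4759⟩, 1024,0,-816,-512⟩

theorem cmid60_ok : cmid60.ok = true := by decide +kernel

/-- cell -/
def cmid61 : CellD := ⟨⟨0,512,512,1024,-1024,-816⟩, 2580,1323,3400,1024,1434,
  ⟨2889,-69,-229,3590⟩, ⟨616,-248,36,185⟩, ⟨-1101,942,-129,-460⟩, ⟨-193,365,82,-2⟩, ⟨1767,-2635,-574,-848⟩, ⟨7293,-1861,1861,0⟩, ⟨7362,-3307,-108,-1792⟩, ⟨1068,694,-1067⟩, ⟨-165,5750,4668⟩,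
  2293,417,-1516,-944, ⟨13495,10452,9167⟩, ⟨3308,2595,2329⟩, ⟨179,0,0⟩, ⟨17,0,0⟩, ⟨14,5,5⟩, ⟨10373,9059,8045⟩, ⟨119874,86963,63439⟩, -1009,-433, ⟨1550,10789,75867⟩, 1024,512,-816,-1024⟩

theorem cmid61_ok : cmid61.ok = true := by decide +kernel

/-- cell -/
def cmid62 : CellD := ⟨⟨512,1024,512,1024,-1024,-816⟩, 2580,1323,3400,1024,1434,
  ⟨1112,578,-861,1270⟩, ⟨537,-243,102,162⟩, ⟨-1270,647,-413,-811⟩, ⟨-151,414,88,100⟩, ⟨957,-831,-388,-128⟩, ⟨5002,-1529,5188,451⟩, ⟨4786,970,1712,-927⟩, ⟨2513,566,-2789⟩, ⟨11070,-8528,-2338⟩,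
  -534,-1398,2943,941, ⟨148,214,540⟩, ⟨2230,786,335⟩, ⟨43,0,0⟩, ⟨4,0,0⟩, ⟨486,360,396⟩, ⟨1129,1334,1583⟩, ⟨55234,43637,48482⟩, -1191,1251, ⟨155,673,3226⟩, 1024,512,-816,-1024⟩

theorem cmid62_ok : cmid62.ok = true := by decide +kernel

/-- window `|τ| ∈ [816, 1024] / 1024` -/
def wmid6 : WinD := ⟨2580, 1323, 3400, 1024, 1434⟩

theorem wmid6_cells : ∀ c ∈ [cmid58.box, cmid59.box, cmid60.box, cmid61.box, cmid62.box], WGood wmid6 c :=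
  wg_cons (wgood_of_ok cmid58_ok (by decide +kernel)) <|
  wg_cons (wgood_of_ok cmid59_ok (by decide +kernel)) <|
  wg_cons (wgood_of_ok cmid60_ok (by decide +kernel)) <|
  wg_cons (wgood_of_ok cmid61_ok (by decide +kernel)) <|
  wg_cons (wgood_of_ok cmid62_ok (by decide +kernel)) <|
  wg_nil _

theorem wmid6_pos : WGood wmid6 ⟨0, 1024, 0, 1024, 816, 1024⟩ :=
  wgood_cover wmid6_cells (CTree.n1 512 (CTree.leaf 0) (CTree.leaf 1)) (by decide +kernel)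

theorem wmid6_neg : WGood wmid6 ⟨0, 1024, 0, 1024, -1024, -816⟩ :=
  wgood_cover wmid6_cells (CTree.n2 512 (CTree.leaf 2) (CTree.n1 512 (CTree.leaf 3) (CTree.leaf 4))) (by decide +kernel)

end PB

end Pool.G1.Gap
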