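import Pool.Agent.Work.MP_b5407d_g1.Pl_MIDa
import Pool.Agent.Work.MP_b5407d_g1.Pl_MIDb
import Pool.Agent.Work.MP_b5407d_g1.Pl_MIDc

/-!
# G1, line P-a: the windows `t ∈ [1024, 1434] / 4096` for all tilts
-/

set_option autoImplicit false

namespace Pool.G1.Gap

namespace PB

theorem win_step0 (τ t : ℝ) (hτ : 0 < τ) (hτ1 : τ < 1) (a : (0 : ℝ) / 1024 ≤ τ)
    (b : τ ≤ (112 : ℝ) / 1024) (h0 : (1024 : ℝ) / 4096 ≤ t) (h1 : t ≤ 1434 / 4096) :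
    ∃ kap lp nu : ℝ, 0 ≤ kap ∧ PWat 0 τ t kap lp nu :=
  MIX_of_win (w := wmid0) (tl := 0) (th := 112) (by decide +kernel) wmid0_pos wmid0_neg hτ hτ1
    (by simpa using a) (by simpa using b) (by simpa [wmid0] using h0) (by simpa [wmid0] using h1)

theorem win_step1 (τ t : ℝ) (hτ : 0 < τ) (hτ1 : τ < 1) (a : (112 : ℝ) / 1024 ≤ τ)
    (b : τ ≤ (208 : ℝ) / 1024) (h0 : (1024 : ℝ) / 4096 ≤ t) (h1 : t ≤ 1434 / 4096) :
    ∃ kap lp nu : ℝ, 0 ≤ kap ∧ PWat 0 τ t kap lp nu :=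
  MIX_of_win (w := wmid1) (tl := 112) (th := 208) (by decide +kernel) wmid1_pos wmid1_neg hτ hτ1
    (by simpa using a) (by simpa using b) (by simpa [wmid1] using h0) (by simpa [wmid1] using h1)

theorem win_step2 (τ t : ℝ) (hτ : 0 < τ) (hτ1 : τ < 1) (a : (208 : ℝ) / 1024 ≤ τ)
    (b : τ ≤ (304 : ℝ) / 1024) (h0 : (1024 : ℝ) / 4096 ≤ t) (h1 : t ≤ 1434 / 4096) :
    ∃ kap lp nu : ℝ, 0 ≤ kap ∧ PWat 0 τ t kap lp nu :=
  MIX_of_win (w := wmid2) (tl := 208) (th := 304) (by decide +kernel) wmid2_pos wmid2_neg hτ hτ1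
    (by simpa using a) (by simpa using b) (by simpa [wmid2] using h0) (by simpa [wmid2] using h1)

theorem win_step3 (τ t : ℝ) (hτ : 0 < τ) (hτ1 : τ < 1) (a : (304 : ℝ) / 1024 ≤ τ)
    (b : τ ≤ (416 : ℝ) / 1024) (h0 : (1024 : ℝ) / 4096 ≤ t) (h1 : t ≤ 1434 / 4096) :
    ∃ kap lp nu : ℝ, 0 ≤ kap ∧ PWat 0 τ t kap lp nu :=
  MIX_of_win (w := wmid3) (tl := 304) (th := 416) (by decide +kernel) wmid3_pos wmid3_neg hτ hτ1
    (by simpa using a) (by simpa using b) (by simpa [wmid3] using h0) (by simpa [wmid3] using h1)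

theorem win_step4 (τ t : ℝ) (hτ : 0 < τ) (hτ1 : τ < 1) (a : (416 : ℝ) / 1024 ≤ τ)
    (b : τ ≤ (608 : ℝ) / 1024) (h0 : (1024 : ℝ) / 4096 ≤ t) (h1 : t ≤ 1434 / 4096) :
    ∃ kap lp nu : ℝ, 0 ≤ kap ∧ PWat 0 τ t kap lp nu :=
  MIX_of_win (w := wmid4) (tl := 416) (th := 608) (by decide +kernel) wmid4_pos wmid4_neg hτ hτ1
    (by simpa using a) (by simpa using b) (by simpa [wmid4] using h0) (by simpa [wmid4] using h1)

theorem win_step5 (τ t : ℝ) (hτ : 0 < τ) (hτ1 : τ < 1) (a : (608 : ℝ) / 1024 ≤ τ)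
    (b : τ ≤ (816 : ℝ) / 1024) (h0 : (1024 : ℝ) / 4096 ≤ t) (h1 : t ≤ 1434 / 4096) :
    ∃ kap lp nu : ℝ, 0 ≤ kap ∧ PWat 0 τ t kap lp nu :=
  MIX_of_win (w := wmid5) (tl := 608) (th := 816) (by decide +kernel) wmid5_pos wmid5_neg hτ hτ1
    (by simpa using a) (by simpa using b) (by simpa [wmid5] using h0) (by simpa [wmid5] using h1)

theorem win_step6 (τ t : ℝ) (hτ : 0 < τ) (hτ1 : τ < 1) (a : (816 : ℝ) / 1024 ≤ τ)
    (b : τ ≤ (1024 : ℝ) / 1024) (h0 : (1024 : ℝ) / 4096 ≤ t) (h1 : t ≤ 1434 / 4096) :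
    ∃ kap lp nu : ℝ, 0 ≤ kap ∧ PWat 0 τ t kap lp nu :=
  MIX_of_win (w := wmid6) (tl := 816) (th := 1024) (by decide +kernel) wmid6_pos wmid6_neg hτ hτ1
    (by simpa using a) (by simpa using b) (by simpa [wmid6] using h0) (by simpa [wmid6] using h1)

/-- **all tilts, `1/4 ≤ t ≤ 1434/4096`** -/
theorem MID_all (τ t : ℝ) (hτ : 0 < τ) (hτ1 : τ < 1) (h0 : (1024 : ℝ) / 4096 ≤ t)
    (h1 : t ≤ 1434 / 4096) : ∃ kap lp nu : ℝ, 0 ≤ kap ∧ PWat 0 τ t kap lp nu := by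
  rcases le_total τ ((112 : ℝ) / 1024) with h | h
  · exact win_step0 τ t hτ hτ1 (by simpa using hτ.le) (by exact h) h0 h1
  have g0 := h
  clear h
  rcases le_total τ ((208 : ℝ) / 1024) with h | h
  · exact win_step1 τ t hτ hτ1 (by exact g0) (by exact h) h0 h1
  have g1 := h
  clear h
  rcases le_total τ ((304 : ℝ) / 1024) with h | h
  · exact win_step2 τ t hτ hτ1 (by exact g1) (by exact h) h0 h1
  have g2 := h
  clear h
  rcases le_total τ ((416 : ℝ) / 1024) with h | h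
  · exact win_step3 τ t hτ hτ1 (by exact g2) (by exact h) h0 h1
  have g3 := h
  clear h
  rcases le_total τ ((608 : ℝ) / 1024) with h | h
  · exact win_step4 τ t hτ hτ1 (by exact g3) (by exact h) h0 h1
  have g4 := h
  clear h
  rcases le_total τ ((816 : ℝ) / 1024) with h | h
  · exact win_step5 τ t hτ hτ1 (by exact g4) (by exact h) h0 h1
  have g5 := h
  clear h
  exact win_step6 τ t hτ hτ1 (by exact g5) (by simpa using hτ1.le) h0 h1

end PB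

end Pool.G1.Gap
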