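import Pool.Agent.Work.MP_b5407d_g1.Pl_PWC

/-!
# G1, line P-a: boxes, covers, windows

Boxes in `(ρ, v, τ)` with corners in `ℤ / 1024`; a bisection tree whose leaves point into a list of
cells; the kernel checks that the cells cover a box.  `PWat_window`: cells which are good for the
constants `kap, A, B` on `t ∈ [t0, t1]` and cover both signs of the tilt give `PWat`.
-/

set_option autoImplicit false

namespace Pool.G1.Gap

namespace PB

/-- a box with corners in `ℤ / 1024` -/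
structure BoxZ where
  l1 : Int
  h1 : Int
  l2 : Int
  h2 : Int
  l3 : Int
  h3 : Int

/-- the points of a box -/
def BoxZ.mem (b : BoxZ) (x y z : ℝ) : Prop :=
  (b.l1 : ℝ) / 1024 ≤ x ∧ x ≤ (b.h1 : ℝ) / 1024 ∧ (b.l2 : ℝ) / 1024 ≤ y ∧ y ≤ (b.h2 : ℝ) / 1024 ∧
    (b.l3 : ℝ) / 1024 ≤ z ∧ z ≤ (b.h3 : ℝ) / 1024

/-- `c` contains `b` -/
def BoxZ.contains (c b : BoxZ) : Bool :=
  Int.ble' c.l1 b.l1 && Int.ble' b.h1 c.h1 && Int.ble' c.l2 b.l2 && Int.ble' b.h2 c.h2 &&
    Int.ble' c.l3 b.l3 && Int.ble' b.h3 c.h3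
where
  /-- comparison of integers by matching (fast in the kernel) -/
  Int.ble' : Int → Int → Bool
    | Int.ofNat m, Int.ofNat n => Nat.ble m n
    | Int.negSucc m, Int.negSucc n => Nat.ble n m
    | Int.negSucc _, Int.ofNat _ => true
    | Int.ofNat _, Int.negSucc _ => false

lemma ble'_le {m n : Int} (h : BoxZ.contains.Int.ble' m n = true) : m ≤ n := by
  cases m with
  | ofNat m =>
    cases n with
    | ofNat n =>
      have h1 : Nat.ble m n = true := h
      have h2 := Nat.le_of_ble_eq_true h1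
      exact Int.ofNat_le.2 h2
    | negSucc n => exact absurd h (by simp [BoxZ.contains.Int.ble'])
  | negSucc m =>
    cases n with
    | ofNat n =>
      have : (0 : Int) ≤ Int.ofNat n := Int.natCast_nonneg n
      have h2 : Int.negSucc m < 0 := Int.negSucc_lt_zero m
      exact le_trans h2.le this
    | negSucc n =>
      have h1 : Nat.ble n m = true := h
      have h2 := Nat.le_of_ble_eq_true h1
      rw [Int.negSucc_eq, Int.negSucc_eq]
      have : (n : Int) ≤ m := by exact_mod_cast h2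
      omega

lemma BoxZ.mem_of_contains {c b : BoxZ} (h : c.contains b = true) {x y z : ℝ} (hb : b.mem x y z) :
    c.mem x y z := by
  unfold BoxZ.contains at h
  simp only [Bool.and_eq_true] at h
  obtain ⟨⟨⟨⟨⟨a1, a2⟩, a3⟩, a4⟩, a5⟩, a6⟩ := h
  obtain ⟨b1, b2, b3, b4, b5, b6⟩ := hb
  have k : ∀ m n : Int, BoxZ.contains.Int.ble' m n = true → (m : ℝ) / 1024 ≤ (n : ℝ) / 1024 := by
    intro m n h
    have h1 : (m : ℝ) ≤ n := by exact_mod_cast ble'_le h
    linarith
  exact ⟨(k _ _ a1).trans b1, b2.trans (k _ _ a2), (k _ _ a3).trans b3, b4.trans (k _ _ a4),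
    (k _ _ a5).trans b5, b6.trans (k _ _ a6)⟩

/-- bisection trees; `leaf n` = the cell with index `n` -/
inductive CTree where
  | leaf (n : Nat)
  | n1 (m : Int) (l r : CTree)
  | n2 (m : Int) (l r : CTree)
  | n3 (m : Int) (l r : CTree)

/-- the cells of the list cover the box -/
def covers (cells : List BoxZ) : CTree → BoxZ → Bool
  | CTree.leaf n, b => match cells[n]? with
    | some c => c.contains b
    | none => false
  | CTree.n1 m l r, b => covers cells l { b with h1 := m } && covers cells r { b with l1 := m }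
  | CTree.n2 m l r, b => covers cells l { b with h2 := m } && covers cells r { b with l2 := m }
  | CTree.n3 m l r, b => covers cells l { b with h3 := m } && covers cells r { b with l3 := m }

theorem covers_sound (cells : List BoxZ) (t : CTree) : ∀ b : BoxZ, covers cells t b = true →
    ∀ x y z : ℝ, b.mem x y z → ∃ c ∈ cells, c.mem x y z := by
  induction t with
  | leaf n =>
    intro b h x y z hb
    unfold covers at h
    cases hc : cells[n]? with
    | none => rw [hc] at h; exact absurd h (by simp)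
    | some c =>
      rw [hc] at h
      exact ⟨c, List.mem_of_getElem? hc, BoxZ.mem_of_contains h hb⟩
  | n1 m l r ihl ihr =>
    intro b h x y z hb
    unfold covers at h
    rw [Bool.and_eq_true] at h
    obtain ⟨b1, b2, b3, b4, b5, b6⟩ := hb
    rcases le_total x ((m : ℝ) / 1024) with hx | hx
    · exact ihl _ h.1 x y z ⟨b1, hx, b3, b4, b5, b6⟩
    · exact ihr _ h.2 x y z ⟨hx, b2, b3, b4, b5, b6⟩
  | n2 m l r ihl ihr =>
    intro b h x y z hb
    unfold covers at h
    rw [Bool.and_eq_true] at h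
    obtain ⟨b1, b2, b3, b4, b5, b6⟩ := hb
    rcases le_total y ((m : ℝ) / 1024) with hx | hx
    · exact ihl _ h.1 x y z ⟨b1, b2, b3, hx, b5, b6⟩
    · exact ihr _ h.2 x y z ⟨b1, b2, hx, b4, b5, b6⟩
  | n3 m l r ihl ihr =>
    intro b h x y z hb
    unfold covers at h
    rw [Bool.and_eq_true] at h
    obtain ⟨b1, b2, b3, b4, b5, b6⟩ := hb
    rcases le_total z ((m : ℝ) / 1024) with hx | hx
    · exact ihl _ h.1 x y z ⟨b1, b2, b3, b4, b5, hx⟩
    · exact ihr _ h.2 x y z ⟨b1, b2, b3, b4, hx, b6⟩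

/-- every point of the box is good -/
def GoodBox (kap A B t0 t1 : ℝ) (b : BoxZ) : Prop :=
  ∀ ρ v τ : ℝ, b.mem ρ v τ → 0 < ρ → ρ ≤ 1 → 0 ≤ v → v ≤ 1 → -1 < τ → τ < 1 →
    OKp kap A B t0 t1 ρ v τ

/-- **one window**: `tl / 1024 ≤ τ ≤ th / 1024`, `t0 ≤ t ≤ t1`; `cp` covers the positive tilts,
`cn` the negative ones -/
theorem PWat_window {kap A B t0 t1 : ℝ} (hk : 0 ≤ kap) {cells : List BoxZ}
    (hg : ∀ c ∈ cells, GoodBox kap A B t0 t1 c) {tl th : Int} {cp cn : CTree}
    (hp : covers cells cp ⟨0, 1024, 0, 1024, tl, th⟩ = true)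
    (hn : covers cells cn ⟨0, 1024, 0, 1024, -th, -tl⟩ = true)
    {τ t : ℝ} (hτ : 0 < τ) (hτ1 : τ < 1) (h1 : (tl : ℝ) / 1024 ≤ τ) (h2 : τ ≤ (th : ℝ) / 1024)
    (ht0 : t0 ≤ t) (ht1 : t ≤ t1) :
    PWat 0 τ t kap (A + B * t) (1 / 6 - t ^ 2 / 2) := by
  refine PWat_of_OKp hτ hτ1 hk ht0 ht1 ?_
  intro s hs ρ v hρ hρ1 hv hv1
  have hs1 : -1 < s ∧ s < 1 := by rcases hs with h | h <;> rw [h] <;> constructor <;> linarith
  have hb : ∃ c ∈ cells, c.mem ρ v s := by
    rcases hs with h | h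
    · refine covers_sound cells cp _ hp ρ v s ⟨?_, ?_, ?_, ?_, ?_, ?_⟩
      all_goals simp only [Int.cast_zero, Int.cast_ofNat]
      all_goals linarith
    · refine covers_sound cells cn _ hn ρ v s ⟨?_, ?_, ?_, ?_, ?_, ?_⟩
      all_goals simp only [Int.cast_zero, Int.cast_ofNat, Int.cast_neg]
      all_goals linarith
  obtain ⟨c, hc, hm⟩ := hb
  exact hg c hc ρ v s hm hρ hρ1 hv hv1 hs1.1 hs1.2

/-- the same, as one branch of `MIXat` -/
theorem MIX_window {kap A B t0 t1 : ℝ} (hk : 0 ≤ kap) {cells : List BoxZ}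
    (hg : ∀ c ∈ cells, GoodBox kap A B t0 t1 c) {tl th : Int} {cp cn : CTree}
    (hp : covers cells cp ⟨0, 1024, 0, 1024, tl, th⟩ = true)
    (hn : covers cells cn ⟨0, 1024, 0, 1024, -th, -tl⟩ = true)
    {τ t : ℝ} (hτ : 0 < τ) (hτ1 : τ < 1) (h1 : (tl : ℝ) / 1024 ≤ τ) (h2 : τ ≤ (th : ℝ) / 1024)
    (ht0 : t0 ≤ t) (ht1 : t ≤ t1) :
    ∃ kap lp nu : ℝ, 0 ≤ kap ∧ PWat 0 τ t kap lp nu :=
  ⟨kap, _, _, hk, PWat_window hk hg hp hn hτ hτ1 h1 h2 ht0 ht1⟩

end PB

end Pool.G1.Gap
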