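import Pool.Agent.Work.MP_b5407d_g1.Pl_FAM6s
import Pool.Agent.Work.MP_b5407d_g1.Pl_PWK
import Pool.Agent.Work.MP_b5407d_g1.Pl_PWF

/-!
# G1, line P-a: the check of a cell and its soundness

`CellD.ok c = true` (one kernel evaluation) proves that every point of the box of `c` is good for
the constants `kap, A, B` of the cell and `t ∈ [t0, t1]`.
-/

set_option autoImplicit false

namespace Pool.G1.Gap

namespace PB

open Pool.G1.MB

/-- **the check of a cell** -/
noncomputable def CellD.ok (c : CellD) : Bool :=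
  cond c.ints (cond c.scalB (F6.on c.box.toB c.consts) false) false

/-- **soundness of the check of a cell** -/
theorem good_of_ok {c : CellD} (h : c.ok = true) :
    GoodBox (c.kap / 4096) (c.A / 4096) (c.B / 4096) (c.t0 / 4096) (c.t1 / 4096) c.box := by
  obtain ⟨h1, h⟩ := cond_and h
  obtain ⟨h2, h3⟩ := cond_and h
  intro ρ v τ hb hρ hρ1 hv hv1 hτ hτ1
  refine OKp_of_lc hτ hτ1 hρ hρ1 hv hv1 h1 (scal_of_scalB h2 hb) fun p y z => ?_
  rw [lc_eq]
  have := En_nonneg h3 (BoxZ.toB_in hb) p y z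
  positivity

/-- constants of a window -/
structure WinD where
  kap : Int
  A : Int
  B : Int
  t0 : Int
  t1 : Int

/-- the cell belongs to the window -/
def CellD.inWin (c : CellD) (w : WinD) : Bool :=
  decide (c.kap = w.kap) && decide (c.A = w.A) && decide (c.B = w.B) && decide (c.t0 = w.t0) &&
    decide (c.t1 = w.t1)

/-- **the cells of the box `b` are good for the window `w`** -/
def WGood (w : WinD) (b : BoxZ) : Prop :=
  GoodBox (w.kap / 4096) (w.A / 4096) (w.B / 4096) (w.t0 / 4096) (w.t1 / 4096) b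

theorem wgood_of_ok {c : CellD} (h : c.ok = true) {w : WinD} (hw : c.inWin w = true) :
    WGood w c.box := by
  unfold CellD.inWin at hw
  simp only [Bool.and_eq_true, decide_eq_true_eq] at hw
  obtain ⟨⟨⟨⟨h1, h2⟩, h3⟩, h4⟩, h5⟩ := hw
  have := good_of_ok h
  rw [h1, h2, h3, h4, h5] at this
  exact this

/-- **glueing**: good boxes which cover a box -/
theorem wgood_cover {w : WinD} {cells : List BoxZ} (hg : ∀ c ∈ cells, WGood w c) (t : CTree)
    {b : BoxZ} (h : covers cells t b = true) : WGood w b := by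
  intro ρ v τ hb
  obtain ⟨c, hc, hm⟩ := covers_sound cells t b h ρ v τ hb
  exact hg c hc ρ v τ hm

lemma wg_nil (w : WinD) : ∀ c ∈ ([] : List BoxZ), WGood w c := fun c hc => absurd hc (by simp)

lemma wg_cons {w : WinD} {b : BoxZ} {bs : List BoxZ} (h : WGood w b)
    (hs : ∀ c ∈ bs, WGood w c) : ∀ c ∈ b :: bs, WGood w c := by
  intro c hc
  rcases List.mem_cons.1 hc with rfl | hc
  · exact h
  · exact hs c hc

/-- **one window**: `tl / 1024 ≤ τ ≤ th / 1024`, `t0 / 4096 ≤ t ≤ t1 / 4096` -/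
theorem MIX_of_win {w : WinD} (hk : 0 ≤ w.kap) {tl th : Int} (hp : WGood w ⟨0, 1024, 0, 1024, tl, th⟩)
    (hn : WGood w ⟨0, 1024, 0, 1024, -th, -tl⟩) {τ t : ℝ} (hτ : 0 < τ) (hτ1 : τ < 1)
    (h1 : (tl : ℝ) / 1024 ≤ τ) (h2 : τ ≤ (th : ℝ) / 1024)
    (ht0 : (w.t0 : ℝ) / 4096 ≤ t) (ht1 : t ≤ (w.t1 : ℝ) / 4096) :
    ∃ kap lp nu : ℝ, 0 ≤ kap ∧ PWat 0 τ t kap lp nu := by
  have hk' : (0 : ℝ) ≤ (w.kap : ℝ) / 4096 := by
    have : (0 : ℝ) ≤ (w.kap : ℝ) := by exact_mod_cast hk
    positivity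
  refine MIX_window (A := (w.A : ℝ) / 4096) (B := (w.B : ℝ) / 4096) (cells := [⟨0, 1024, 0, 1024, tl, th⟩, ⟨0, 1024, 0, 1024, -th, -tl⟩])
    (cp := CTree.leaf 0) (cn := CTree.leaf 1) hk' ?_ ?_ ?_ hτ hτ1 h1 h2 ht0 ht1
  · intro c hc
    simp only [List.mem_cons, List.not_mem_nil, or_false] at hc
    rcases hc with rfl | rfl
    · exact hp
    · exact hn
  · have k : ∀ m : Int, BoxZ.contains.Int.ble' m m = true := by
      intro m; cases m <;> simp [BoxZ.contains.Int.ble']
    simp [covers, BoxZ.contains, k]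
  · have k : ∀ m : Int, BoxZ.contains.Int.ble' m m = true := by
      intro m; cases m <;> simp [BoxZ.contains.Int.ble']
    simp [covers, BoxZ.contains, k]

end PB

end Pool.G1.Gap
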