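import Pool.Agent.Work.MP_b5407d_g1.Pl_GLUE
import Pool.Agent.Work.MP_b5407d_g1.Pl_PWL

/-!
# G1: assembly of the windows

`Strip` = range `[tl/1024, th/1024]` of the tilt with a list of windows `[t0/4096, t1/4096]` of the
chain mean.  `stripsOK` checks that the strips cover `(0,1)` and that in every strip the windows cover
`[1/4, 2/3]`.  `PL_of_strips`: P2 (`FIN6at` on `[1/8, 1/4]`) and good windows imply `Stmt_PL`.
-/

set_option autoImplicit false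

namespace Pool.G1.Gap

open PB

/-- one strip of tilts with its windows -/
structure Strip where
  tl : Int
  th : Int
  ws : List WinD

/-- the windows are adjacent and cover `[lo, 2731/4096]` -/
def winsOK : Int → List WinD → Bool
  | lo, [] => decide (2731 ≤ lo)
  | lo, w :: l => decide (0 ≤ w.kap) && decide (w.t0 ≤ lo) && winsOK w.t1 l

/-- the strips are adjacent and cover `[lo, 1024/1024]` -/
def stripsOK : Int → List Strip → Bool
  | lo, [] => decide (1024 ≤ lo)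
  | lo, s :: l => decide (s.tl ≤ lo) && winsOK 1024 s.ws && stripsOK s.th l

/-- both signs of the tilt are certified for the window -/
def WinGood (s : Strip) (w : WinD) : Prop :=
  WGood w ⟨0, 1024, 0, 1024, s.tl, s.th⟩ ∧ WGood w ⟨0, 1024, 0, 1024, -s.th, -s.tl⟩

/-- all windows of the strip are certified -/
def StripGood (s : Strip) : Prop := ∀ w ∈ s.ws, WinGood s w

lemma wins_cover {l : List WinD} : ∀ {lo : Int}, winsOK lo l = true → ∀ t : ℝ, (lo : ℝ) / 4096 ≤ t →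
    t ≤ 2 / 3 → ∃ w ∈ l, 0 ≤ w.kap ∧ (w.t0 : ℝ) / 4096 ≤ t ∧ t ≤ (w.t1 : ℝ) / 4096 := by
  induction l with
  | nil =>
    intro lo h t h1 h2
    simp only [winsOK, decide_eq_true_eq] at h
    have : (2731 : ℝ) ≤ (lo : ℝ) := by exact_mod_cast h
    exfalso
    have h3 : (2731 : ℝ) / 4096 ≤ 2 / 3 := by
      calc (2731 : ℝ) / 4096 ≤ (lo : ℝ) / 4096 := by gcongr
        _ ≤ t := h1
        _ ≤ 2 / 3 := h2
    norm_num at h3
  | cons w l ih =>
    intro lo h t h1 h2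
    simp only [winsOK, Bool.and_eq_true, decide_eq_true_eq] at h
    obtain ⟨⟨hk, h0⟩, hr⟩ := h
    rcases le_total t ((w.t1 : ℝ) / 4096) with h3 | h3
    · refine ⟨w, List.mem_cons_self, hk, ?_, h3⟩
      have : (w.t0 : ℝ) ≤ (lo : ℝ) := by exact_mod_cast h0
      calc (w.t0 : ℝ) / 4096 ≤ (lo : ℝ) / 4096 := by gcongr
        _ ≤ t := h1
    · obtain ⟨w', hw', g⟩ := ih hr t h3 h2
      exact ⟨w', List.mem_cons_of_mem _ hw', g⟩

lemma strips_cover {l : List Strip} : ∀ {lo : Int}, stripsOK lo l = true → ∀ τ : ℝ,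
    (lo : ℝ) / 1024 ≤ τ → τ < 1 → ∃ s ∈ l, winsOK 1024 s.ws = true ∧ (s.tl : ℝ) / 1024 ≤ τ ∧
      τ ≤ (s.th : ℝ) / 1024 := by
  induction l with
  | nil =>
    intro lo h τ h1 h2
    simp only [stripsOK, decide_eq_true_eq] at h
    have : (1024 : ℝ) ≤ (lo : ℝ) := by exact_mod_cast h
    exfalso
    have h3 : (1 : ℝ) ≤ (lo : ℝ) / 1024 := by
      rw [le_div_iff₀ (by norm_num)]; linarith
    linarith
  | cons s l ih =>
    intro lo h τ h1 h2
    simp only [stripsOK, Bool.and_eq_true, decide_eq_true_eq] at h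
    obtain ⟨⟨h0, hw⟩, hr⟩ := h
    rcases le_total τ ((s.th : ℝ) / 1024) with h3 | h3
    · refine ⟨s, List.mem_cons_self, hw, ?_, h3⟩
      have : (s.tl : ℝ) ≤ (lo : ℝ) := by exact_mod_cast h0
      calc (s.tl : ℝ) / 1024 ≤ (lo : ℝ) / 1024 := by gcongr
        _ ≤ τ := h1
    · obtain ⟨s', hs', g⟩ := ih hr τ h3 h2
      exact ⟨s', List.mem_cons_of_mem _ hs', g⟩

/-- **assembly**: P2 and the windows give the mixed certificate -/
theorem MIX_of_strips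
    (hP2 : ∀ τ th : ℝ, 0 < τ → τ < 1 → 1 / 8 ≤ th → th ≤ 1 / 4 → FIN6at 0 τ th)
    {L : List Strip} (hL : stripsOK 0 L = true) (hG : ∀ s ∈ L, StripGood s) : Stmt_MIX := by
  intro τ th h0 h1 hth0 hth1
  rcases le_total th (1 / 8) with c1 | c1
  · exact Or.inl c1
  rcases le_total th (1 / 4) with c2 | c2
  · exact Or.inr (Or.inl (hP2 τ th h0 h1 c1 c2))
  obtain ⟨s, hs, hws, hs1, hs2⟩ := strips_cover hL τ (by simpa using h0.le) h1
  obtain ⟨w, hw, hk, hw1, hw2⟩ := wins_cover hws th (by norm_num; linarith) hth1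
  obtain ⟨g1, g2⟩ := hG s hs w hw
  exact Or.inr (Or.inr (Or.inl (MIX_of_win hk g1 g2 h0 h1 hs1 hs2 hw1 hw2)))

/-- **assembly**: the planar target -/
theorem PL_of_strips
    (hP2 : ∀ τ th : ℝ, 0 < τ → τ < 1 → 1 / 8 ≤ th → th ≤ 1 / 4 → FIN6at 0 τ th)
    {L : List Strip} (hL : stripsOK 0 L = true) (hG : ∀ s ∈ L, StripGood s) : Stmt_PL :=
  PL_of_MIX (MIX_of_strips hP2 hL hG)

/-- **assembly in three parts** (P2, MID, HI) -/
theorem MIX_of_parts
    (hP2 : ∀ τ th : ℝ, 0 < τ → τ < 1 → 1 / 8 ≤ th → th ≤ 1 / 4 → FIN6at 0 τ th)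
    (hMID : ∀ τ t : ℝ, 0 < τ → τ < 1 → (1024 : ℝ) / 4096 ≤ t → t ≤ 1434 / 4096 →
      ∃ kap lp nu : ℝ, 0 ≤ kap ∧ PWat 0 τ t kap lp nu)
    (hHI : ∀ τ t : ℝ, 0 < τ → τ < 1 → (1434 : ℝ) / 4096 ≤ t → t ≤ 2731 / 4096 →
      ∃ kap lp nu : ℝ, 0 ≤ kap ∧ PWat 0 τ t kap lp nu) : Stmt_MIX := by
  intro τ th h0 h1 hth0 hth1
  rcases le_total th (1 / 8) with c1 | c1
  · exact Or.inl c1
  rcases le_total th (1 / 4) with c2 | c2
  · exact Or.inr (Or.inl (hP2 τ th h0 h1 c1 c2))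
  rcases le_total th (1434 / 4096) with c3 | c3
  · exact Or.inr (Or.inr (Or.inl (hMID τ th h0 h1 (by norm_num; linarith) c3)))
  · exact Or.inr (Or.inr (Or.inl (hHI τ th h0 h1 c3 (by linarith))))

/-- **assembly in three parts**: the planar target -/
theorem PL_of_parts
    (hP2 : ∀ τ th : ℝ, 0 < τ → τ < 1 → 1 / 8 ≤ th → th ≤ 1 / 4 → FIN6at 0 τ th)
    (hMID : ∀ τ t : ℝ, 0 < τ → τ < 1 → (1024 : ℝ) / 4096 ≤ t → t ≤ 1434 / 4096 →
      ∃ kap lp nu : ℝ, 0 ≤ kap ∧ PWat 0 τ t kap lp nu)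
    (hHI : ∀ τ t : ℝ, 0 < τ → τ < 1 → (1434 : ℝ) / 4096 ≤ t → t ≤ 2731 / 4096 →
      ∃ kap lp nu : ℝ, 0 ≤ kap ∧ PWat 0 τ t kap lp nu) : Stmt_PL :=
  PL_of_MIX (MIX_of_parts hP2 hMID hHI)

end Pool.G1.Gap
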