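import Pool.Agent.Work.MP_b5407d_g1.InterfaceF

/-!
# `ALL` (from `KEY`): strong induction (helper65)
-/

set_option autoImplicit false

namespace Pool.G1

theorem blk_ALL (hKEY : Stmt_KEY) : Stmt_ALL := by
  intro hPL N
  induction N using Nat.strong_induction_on with
  | _ N ih => exact hKEY hPL N ih

end Pool.G1
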