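import Pool.Agent.Work.MP_b5407d_g1.Planar

/-!
# Block PEU (helper79): closure, Euler relations, translations, symmetry of `B2`
-/

set_option autoImplicit false

namespace Pool.G1

namespace PEUaux

/-- sums over a period can be shifted -/
lemma shift {n : ℕ} {f : ℕ → ℝ} (h : ∀ i, f (i + n) = f i) :
    ∑ i ∈ Finset.range n, f (i + 1) = ∑ i ∈ Finset.range n, f i := by
  have h1 := Finset.sum_range_succ f n
  have h2 := Finset.sum_range_succ' f n
  have h3 : f n = f 0 := by simpa using h 0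
  linarith

lemma tele {n : ℕ} {f : ℕ → ℝ} (h : ∀ i, f (i + n) = f i) :
    ∑ i ∈ Finset.range n, (f (i + 1) - f i) = 0 := by
  rw [Finset.sum_sub_distrib, shift h, sub_self]

variable {n : ℕ} {ν v : ℕ → R2} {ℓ : ℕ → ℝ}

lemma edge1 (h : Poly n ν v ℓ) (i : ℕ) : (v (i + 1)).1 = (v i).1 - ℓ i * (ν i).2 := by
  rw [h.edge i]
  simp only [rt, Prod.fst_add, Prod.smul_fst, smul_eq_mul]
  ring

lemma edge2 (h : Poly n ν v ℓ) (i : ℕ) : (v (i + 1)).2 = (v i).2 + ℓ i * (ν i).1 := by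
  rw [h.edge i]
  simp only [rt, Prod.snd_add, Prod.smul_snd, smul_eq_mul]

lemma closure1 (h : Poly n ν v ℓ) : ∑ i ∈ Finset.range n, ℓ i * (ν i).1 = 0 := by
  have h1 : ∑ i ∈ Finset.range n, ((v (i + 1)).2 - (v i).2) = 0 :=
    tele (f := fun i => (v i).2) (fun i => by rw [h.pv])
  rw [← h1]
  refine Finset.sum_congr rfl fun i _ => ?_
  rw [edge2 h]
  ring

lemma closure2 (h : Poly n ν v ℓ) : ∑ i ∈ Finset.range n, ℓ i * (ν i).2 = 0 := by
  have h1 : ∑ i ∈ Finset.range n, ((v (i + 1)).1 - (v i).1) = 0 :=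
    tele (f := fun i => (v i).1) (fun i => by rw [h.pv])
  have h2 : ∑ i ∈ Finset.range n, ℓ i * (ν i).2
      = -∑ i ∈ Finset.range n, ((v (i + 1)).1 - (v i).1) := by
    rw [← Finset.sum_neg_distrib]
    refine Finset.sum_congr rfl fun i _ => ?_
    rw [edge1 h]
    ring
  rw [h2, h1, neg_zero]

lemma closure_dp (h : Poly n ν v ℓ) (x : R2) :
    ∑ i ∈ Finset.range n, ℓ i * dp (ν i) x = 0 := by
  have h1 : ∑ i ∈ Finset.range n, ℓ i * dp (ν i) x
      = (∑ i ∈ Finset.range n, ℓ i * (ν i).1) * x.1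
        + (∑ i ∈ Finset.range n, ℓ i * (ν i).2) * x.2 := by
    rw [Finset.sum_mul, Finset.sum_mul, ← Finset.sum_add_distrib]
    refine Finset.sum_congr rfl fun i _ => ?_
    unfold dp
    ring
  rw [h1, closure1 h, closure2 h]
  ring

lemma cp_edge (h : Poly n ν v ℓ) (i : ℕ) : cp (v i) (v (i + 1)) = ℓ i * dp (ν i) (v i) := by
  unfold cp dp
  rw [edge1 h, edge2 h]
  ring

lemma two_ar (h : Poly n ν v ℓ) (x : R2) :
    ∑ i ∈ Finset.range n, ℓ i * dp (ν i) (v i - x) = 2 * ar n v := by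
  have h1 : ∑ i ∈ Finset.range n, ℓ i * dp (ν i) (v i - x)
      = ∑ i ∈ Finset.range n, cp (v i) (v (i + 1)) - ∑ i ∈ Finset.range n, ℓ i * dp (ν i) x := by
    rw [← Finset.sum_sub_distrib]
    refine Finset.sum_congr rfl fun i _ => ?_
    rw [cp_edge h]
    simp only [dp, Prod.fst_sub, Prod.snd_sub]
    ring
  rw [h1, closure_dp h, sub_zero]
  unfold ar
  rw [Finset.mul_sum]
  refine Finset.sum_congr rfl fun i _ => ?_
  ring

lemma dp_sub_nonneg (h : Poly n ν v ℓ) (i k : ℕ) : 0 ≤ dp (ν i) (v i - v k) := by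
  have h1 := h.conv i k
  have h2 : dp (ν i) (v i - v k) = dp (ν i) (v i) - dp (ν i) (v k) := by
    simp only [dp, Prod.fst_sub, Prod.snd_sub]
    ring
  rw [h2]
  linarith

lemma ar_pos (h : Poly n ν v ℓ) : 0 < ar n v := by
  have h1 := two_ar h (v 0)
  have h2 : ∀ i ∈ Finset.range n, 0 ≤ ℓ i * dp (ν i) (v i - v 0) := fun i _ =>
    mul_nonneg (h.pos i).le (dp_sub_nonneg h i 0)
  have h3 : 0 < ℓ 1 * dp (ν 1) (v 1 - v 0) := by
    apply mul_pos (h.pos 1)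
    have h4 : dp (ν 1) (v 1 - v 0) = ℓ 0 * cp (ν 0) (ν 1) := by
      have e1 := edge1 h 0
      have e2 := edge2 h 0
      rw [zero_add] at e1 e2
      simp only [dp, cp, Prod.fst_sub, Prod.snd_sub, e1, e2]
      ring
    rw [h4]
    exact mul_pos (h.pos 0) (h.turn 0)
  have h5 : ℓ 1 * dp (ν 1) (v 1 - v 0) ≤ ∑ i ∈ Finset.range n, ℓ i * dp (ν i) (v i - v 0) :=
    Finset.single_le_sum h2 (Finset.mem_range.2 (by have := h.n3; omega))
  linarith

lemma J1_dp (h : Poly n ν v ℓ) (x : R2) (r : ℝ × R2) :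
    J1 n v ℓ r (fun i => dp (ν i) x) = dp r.2 x * ar n v := by
  set F : ℕ → ℝ := fun i => cp x (v i) * (r.1 + dp r.2 (v i) / 2) with hF
  have hFp : ∀ i, F (i + n) = F i := fun i => by simp only [hF, h.pv]
  have h1 : J1 n v ℓ r (fun i => dp (ν i) x)
      = dp r.2 x * ar n v + ∑ i ∈ Finset.range n, (F (i + 1) - F i) := by
    unfold J1 ar
    rw [Finset.mul_sum, ← Finset.sum_add_distrib]
    refine Finset.sum_congr rfl fun i _ => ?_
    simp only [hF, EI, af, dp, cp]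
    rw [edge1 h, edge2 h]
    ring
  rw [h1, tele hFp, add_zero]

lemma J1_b (h : Poly n ν v ℓ) (x : R2) (r : ℝ × R2) :
    J1 n v ℓ r (fun i => dp (ν i) (v i - x)) = 3 * J0 n v r - af r x * ar n v := by
  have h1 : J1 n v ℓ r (fun i => dp (ν i) (v i - x))
      = 3 * J0 n v r - r.1 * ar n v - J1 n v ℓ r (fun i => dp (ν i) x) := by
    unfold J1 J0 ar
    rw [Finset.mul_sum, Finset.mul_sum, ← Finset.sum_sub_distrib, ← Finset.sum_sub_distrib]
    refine Finset.sum_congr rfl fun i _ => ?_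
    rw [cp_edge h]
    simp only [EI, dp, Prod.fst_sub, Prod.snd_sub]
    ring
  rw [h1, J1_dp h]
  unfold af
  ring

/-- every vector is the velocity of its own support numbers -/
lemma ve_dp (h : Poly n ν v ℓ) (i : ℕ) (V : R2) (η : ℕ → ℝ) (h0 : η i = dp (ν i) V)
    (h1 : η (i + 1) = dp (ν (i + 1)) V) : ve ν η i = V := by
  have hc := (h.turn i).ne'
  unfold ve
  rw [h0, h1]
  have key : dp (ν (i + 1)) V • rt (ν i) - dp (ν i) V • rt (ν (i + 1))
      = cp (ν i) (ν (i + 1)) • V := by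
    ext
    · simp only [dp, cp, rt, Prod.fst_sub, Prod.smul_fst, smul_eq_mul]
      ring
    · simp only [dp, cp, rt, Prod.snd_sub, Prod.smul_snd, smul_eq_mul]
      ring
  rw [key, smul_smul, one_div, inv_mul_cancel₀ hc, one_smul]

lemma dp_edge (h : Poly n ν v ℓ) (i : ℕ) (x : R2) :
    dp (ν i) (v i - x) = dp (ν i) (v (i + 1) - x) := by
  simp only [dp, Prod.fst_sub, Prod.snd_sub]
  rw [edge1 h, edge2 h]
  ring

lemma ve_b (h : Poly n ν v ℓ) (i : ℕ) (x : R2) :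
    ve ν (fun i => dp (ν i) (v i - x)) i = v (i + 1) - x :=
  ve_dp h i _ _ (dp_edge h i x) rfl

lemma ve_x (h : Poly n ν v ℓ) (i : ℕ) (x : R2) :
    ve ν (fun i => dp (ν i) x) i = x := ve_dp h i _ _ rfl rfl

/-- symmetric vertex term of `B2` -/
noncomputable def SV (ν v : ℕ → R2) (ℓ : ℕ → ℝ) (r : ℝ × R2) (δ η : ℕ → ℝ) (i : ℕ) : ℝ :=
  af r (v (i + 1)) / cp (ν i) (ν (i + 1)) *
      (δ i * η (i + 1) + δ (i + 1) * η i - dp (ν i) (ν (i + 1)) *
        (δ i * η i + δ (i + 1) * η (i + 1))) +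
    (ℓ (i + 1) * dp r.2 (ν (i + 1)) * (δ (i + 1) * η (i + 1)) +
      ℓ i * dp r.2 (ν i) * (δ i * η i)) / 2

lemma SV_symm (ν v : ℕ → R2) (ℓ : ℕ → ℝ) (r : ℝ × R2) (δ η : ℕ → ℝ) (i : ℕ) :
    SV ν v ℓ r δ η i = SV ν v ℓ r η δ i := by
  unfold SV
  ring

/-- the part of the `i`-th term of `B2` with the velocity of the first end point -/
noncomputable def X1 (ν v : ℕ → R2) (ℓ : ℕ → ℝ) (r : ℝ × R2) (δ η : ℕ → ℝ) (i : ℕ) : ℝ :=
  δ (i + 1) * (-(dp (ve ν η i) (rt (ν (i + 1)))) * ((af r (v (i + 1)) + af r (v (i + 2))) / 2)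
    + ℓ (i + 1) * dp r.2 (ve ν η i) / 2)

/-- the part with the velocity of the second end point -/
noncomputable def Y1 (ν v : ℕ → R2) (ℓ : ℕ → ℝ) (r : ℝ × R2) (δ η : ℕ → ℝ) (i : ℕ) : ℝ :=
  δ i * (dp (ve ν η i) (rt (ν i)) * ((af r (v i) + af r (v (i + 1))) / 2)
    + ℓ i * dp r.2 (ve ν η i) / 2)

/-- the algebra behind `vertex`; `V` is the velocity of the vertex `w`, `u`, `w`, `z` are consecutive
vertices -/
lemma vertex_alg (a1 a2 b1 b2 u1 u2 w1 w2 z1 z2 l m d d' t t' r0 g1 g2 c V1 V2 q : ℝ)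
    (hcdef : c = a1 * b2 - a2 * b1) (hc : c ≠ 0) (hu : a1 * a1 + a2 * a2 = 1)
    (hu' : b1 * b1 + b2 * b2 = 1) (e1 : w1 = u1 - l * a2) (e2 : w2 = u2 + l * a1)
    (e3 : z1 = w1 - m * b2) (e4 : z2 = w2 + m * b1)
    (hV1 : c * V1 = -(t' * a2) + t * b2) (hV2 : c * V2 = t' * a1 - t * b1)
    (hq : c * q = r0 + (g1 * w1 + g2 * w2)) :
    d' * (-(V1 * (-b2) + V2 * b1) * ((r0 + (g1 * w1 + g2 * w2) + (r0 + (g1 * z1 + g2 * z2))) / 2)
        + m * (g1 * V1 + g2 * V2) / 2)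
      + d * ((V1 * (-a2) + V2 * a1) *
        ((r0 + (g1 * u1 + g2 * u2) + (r0 + (g1 * w1 + g2 * w2))) / 2)
        + l * (g1 * V1 + g2 * V2) / 2)
      = q * (d * t' + d' * t - (a1 * b1 + a2 * b2) * (d * t + d' * t'))
        + (m * (g1 * b1 + g2 * b2) * (d' * t') + l * (g1 * a1 + g2 * a2) * (d * t)) / 2 := by
  apply mul_left_cancel₀ hc
  subst e1 e2 e3 e4
  set A := r0 + (g1 * (u1 - l * a2) + g2 * (u2 + l * a1)) with hA
  set B := r0 + (g1 * (u1 - l * a2 - m * b2) + g2 * (u2 + l * a1 + m * b1)) with hB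
  set Z := r0 + (g1 * u1 + g2 * u2) with hZ
  set gW := g1 * (-(t' * a2) + t * b2) + g2 * (t' * a1 - t * b1) with hgW
  linear_combination (exp := 1)
    (d' * (b2 * ((A + B) / 2) + m * g1 / 2) + d * (-a2 * ((Z + A) / 2) + l * g1 / 2)) * hV1
    + (d' * (-b1 * ((A + B) / 2) + m * g2 / 2) + d * (a1 * ((Z + A) / 2) + l * g2 / 2)) * hV2
    - (d * t' + d' * t - (a1 * b1 + a2 * b2) * (d * t + d' * t')) * hq
    - ((m * (g1 * b1 + g2 * b2) * (d' * t') + l * (g1 * a1 + g2 * a2) * (d * t)) / 2) * hcdef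
    + (A * d' * t - d' * m / 2 * gW) * hu' + (A * d * t' - d * l / 2 * gW) * hu

lemma vertex (h : Poly n ν v ℓ) (r : ℝ × R2) (δ η : ℕ → ℝ) (i : ℕ) :
    X1 ν v ℓ r δ η i + Y1 ν v ℓ r δ η i = SV ν v ℓ r δ η i := by
  have hc := (h.turn i).ne'
  have hu := h.unit i
  have hu' := h.unit (i + 1)
  have e1 := edge1 h i
  have e2 := edge2 h i
  have e3 := edge1 h (i + 1)
  have e4 := edge2 h (i + 1)
  simp only [dp] at hu hu'
  have hV1 : cp (ν i) (ν (i + 1)) * (ve ν η i).1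
      = -(η (i + 1) * (ν i).2) + η i * (ν (i + 1)).2 := by
    unfold ve
    simp only [rt, Prod.smul_fst, Prod.fst_sub, smul_eq_mul]
    field_simp
    ring
  have hV2 : cp (ν i) (ν (i + 1)) * (ve ν η i).2
      = η (i + 1) * (ν i).1 - η i * (ν (i + 1)).1 := by
    unfold ve
    simp only [rt, Prod.smul_snd, Prod.snd_sub, smul_eq_mul]
    field_simp
  have hq : cp (ν i) (ν (i + 1)) * (af r (v (i + 1)) / cp (ν i) (ν (i + 1)))
      = r.1 + (r.2.1 * (v (i + 1)).1 + r.2.2 * (v (i + 1)).2) := by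
    rw [mul_div_cancel₀ _ hc]
    rfl
  have key := vertex_alg (ν i).1 (ν i).2 (ν (i + 1)).1 (ν (i + 1)).2 (v i).1 (v i).2 (v (i + 1)).1
    (v (i + 1)).2 (v (i + 1 + 1)).1 (v (i + 1 + 1)).2 (ℓ i) (ℓ (i + 1)) (δ i) (δ (i + 1)) (η i)
    (η (i + 1)) r.1 r.2.1 r.2.2 (cp (ν i) (ν (i + 1))) (ve ν η i).1 (ve ν η i).2
    (af r (v (i + 1)) / cp (ν i) (ν (i + 1))) rfl hc hu hu' e1 e2 e3 e4 hV1 hV2 hq
  exact key

lemma per_ve (h : Poly n ν v ℓ) {η : ℕ → ℝ} (hη : ∀ i, η (i + n) = η i) (i : ℕ) :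
    ve ν η (i + n) = ve ν η i := by
  unfold ve
  rw [show i + n + 1 = i + 1 + n by ring, h.pν, h.pν, hη, hη]

lemma B2_eq (h : Poly n ν v ℓ) (r : ℝ × R2) (δ η : ℕ → ℝ) (hδ : ∀ i, δ (i + n) = δ i)
    (hη : ∀ i, η (i + n) = η i) :
    B2 n ν v ℓ r δ η = ∑ i ∈ Finset.range n, SV ν v ℓ r δ η i := by
  have h1 : B2 n ν v ℓ r δ η = ∑ i ∈ Finset.range n, X1 ν v ℓ r δ η i
      + ∑ i ∈ Finset.range n, Y1 ν v ℓ r δ η (i + 1) := by
    unfold B2
    rw [← Finset.sum_add_distrib]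
    refine Finset.sum_congr rfl fun i _ => ?_
    unfold X1 Y1
    simp only [dp, Prod.fst_sub, Prod.snd_sub, Prod.fst_add, Prod.snd_add]
    ring
  have h2 : ∀ i, Y1 ν v ℓ r δ η (i + n) = Y1 ν v ℓ r δ η i := by
    intro i
    unfold Y1
    rw [per_ve h hη, hδ, h.pν, h.pv, h.pℓ, show i + n + 1 = i + 1 + n by ring, h.pv]
  rw [h1, shift h2, ← Finset.sum_add_distrib]
  exact Finset.sum_congr rfl fun i _ => vertex h r δ η i

end PEUaux

open PEUaux in
theorem blk_PEU : Stmt_PEU := by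
  intro n ν v ℓ h
  refine ⟨?_, ar_pos h, two_ar h, J1_b h, J1_dp h, ?_, ?_, ?_⟩
  · ext
    · rw [Prod.fst_sum]
      simpa using closure1 h
    · rw [Prod.snd_sum]
      simpa using closure2 h
  · intro r δ η hδ hη
    rw [B2_eq h r δ η hδ hη, B2_eq h r η δ hη hδ]
    exact Finset.sum_congr rfl fun i _ => SV_symm ν v ℓ r δ η i
  · intro x r δ hδ
    set f : ℕ → ℝ := fun i => ℓ i * δ i * (af r (v i) + af r (v (i + 1)) - af r x) with hf
    have hfp : ∀ i, f (i + n) = f i := by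
      intro i
      simp only [hf]
      rw [hδ, h.pv, h.pℓ, show i + n + 1 = i + 1 + n by ring, h.pv]
    have h1 : B2 n ν v ℓ r δ (fun i => dp (ν i) (v i - x))
        = ∑ i ∈ Finset.range n, f (i + 1) := by
      unfold B2
      refine Finset.sum_congr rfl fun i _ => ?_
      rw [ve_b h, ve_b h]
      have e0 : v (i + 1 + 1) = v (i + 1) + ℓ (i + 1) • rt (ν (i + 1)) := h.edge (i + 1)
      have hu := h.unit (i + 1)
      simp only [hf]
      have e1 : dp (v (i + 1 + 1) - x - (v (i + 1) - x)) (rt (ν (i + 1))) = ℓ (i + 1) := by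
        rw [e0]
        simp only [dp] at hu
        simp only [dp, rt, Prod.fst_sub, Prod.snd_sub, Prod.fst_add, Prod.snd_add,
          Prod.smul_fst, Prod.smul_snd, smul_eq_mul]
        linear_combination ℓ (i + 1) * hu
      rw [e1]
      simp only [af, dp, Prod.fst_sub, Prod.snd_sub, Prod.fst_add, Prod.snd_add]
      ring
    rw [h1, shift hfp]
    unfold J1
    rw [Finset.mul_sum, Finset.mul_sum, ← Finset.sum_sub_distrib]
    refine Finset.sum_congr rfl fun i _ => ?_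
    simp only [hf, EI]
    ring
  · intro x r δ hδ
    set f : ℕ → ℝ := fun i => dp r.2 x * (ℓ i * δ i) with hf
    have hfp : ∀ i, f (i + n) = f i := by
      intro i
      simp only [hf]
      rw [hδ, h.pℓ]
    have h1 : B2 n ν v ℓ r δ (fun i => dp (ν i) x) = ∑ i ∈ Finset.range n, f (i + 1) := by
      unfold B2
      refine Finset.sum_congr rfl fun i _ => ?_
      rw [ve_x h, ve_x h]
      simp only [hf, dp, Prod.fst_sub, Prod.snd_sub, Prod.fst_add, Prod.snd_add]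
      ring
    rw [h1, shift hfp, Finset.mul_sum]

end Pool.G1
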