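import Pool.Agent.Work.MP_b5407d_g1.InterfaceF
import Pool.Agent.Work.MP_b5407d_g1.PEU

/-!
# Block ARE (helper51): integrals of affine functions over a polygon
-/

set_option autoImplicit false

open MeasureTheory Set Filter Topology

namespace Pool.G1

namespace AREaux

/-! ## the standard triangle -/

/-- standard triangle -/
def ST : Set R2 := {u | 0 ≤ u.1 ∧ 0 ≤ u.2 ∧ u.1 + u.2 ≤ 1}

lemma ST_closed : IsClosed ST := by
  have h1 : IsClosed {u : R2 | 0 ≤ u.1} := isClosed_le continuous_const continuous_fst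
  have h2 : IsClosed {u : R2 | 0 ≤ u.2} := isClosed_le continuous_const continuous_snd
  have h3 : IsClosed {u : R2 | u.1 + u.2 ≤ 1} :=
    isClosed_le (continuous_fst.add continuous_snd) continuous_const
  exact h1.inter (h2.inter h3)

lemma ST_compact : IsCompact ST := by
  have h : ST ⊆ Icc (0 : ℝ) 1 ×ˢ Icc (0 : ℝ) 1 := by
    rintro ⟨x, y⟩ ⟨h1, h2, h3⟩
    simp only at h1 h2 h3
    exact ⟨⟨h1, by linarith⟩, ⟨h2, by linarith⟩⟩
  exact (isCompact_Icc.prod isCompact_Icc).of_isClosed_subset ST_closed h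

lemma int_ST (A B C : ℝ) : ∫ u in ST, (A + B * u.1 + C * u.2) = A / 2 + B / 6 + C / 6 := by
  have hc : Continuous (fun u : R2 => A + B * u.1 + C * u.2) := by fun_prop
  have hi : IntegrableOn (fun u : R2 => A + B * u.1 + C * u.2) ST :=
    hc.continuousOn.integrableOn_compact ST_compact
  rw [← integral_indicator ST_closed.measurableSet]
  rw [← integrable_indicator_iff ST_closed.measurableSet] at hi
  rw [Measure.volume_eq_prod] at hi ⊢
  rw [integral_prod _ hi]
  have h1 : ∀ x : ℝ, ∫ y : ℝ, ST.indicator (fun u : R2 => A + B * u.1 + C * u.2) (x, y)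
      = (Icc (0 : ℝ) 1).indicator
        (fun x => (A + C / 2) + ((B - A - C) * x + (C / 2 - B) * x ^ 2)) x := by
    intro x
    by_cases hx : x ∈ Icc (0 : ℝ) 1
    · rw [indicator_of_mem hx]
      have h2 : (fun y : ℝ => ST.indicator (fun u : R2 => A + B * u.1 + C * u.2) (x, y))
          = (Icc (0 : ℝ) (1 - x)).indicator (fun y => A + B * x + C * y) := by
        funext y
        by_cases hy : y ∈ Icc (0 : ℝ) (1 - x)
        · rw [indicator_of_mem hy, indicator_of_mem (show ((x, y) : R2) ∈ ST from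
            ⟨hx.1, hy.1, by have := hy.2; simp only; linarith⟩)]
        · rw [indicator_of_notMem hy, indicator_of_notMem]
          rintro ⟨_, h4, h5⟩
          simp only at h4 h5
          exact hy ⟨h4, by linarith⟩
      rw [h2, integral_indicator measurableSet_Icc, integral_Icc_eq_integral_Ioc,
        ← intervalIntegral.integral_of_le (by linarith [hx.2])]
      have h3 : ∫ y in (0 : ℝ)..(1 - x), (A + B * x + C * y)
          = (A + B * x) * (1 - x) + C * ((1 - x) ^ 2 / 2) := by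
        rw [intervalIntegral.integral_add (by simp) (by
          apply Continuous.intervalIntegrable; fun_prop)]
        rw [intervalIntegral.integral_const, intervalIntegral.integral_const_mul, integral_id]
        simp only [smul_eq_mul]
        ring
      rw [h3]
      ring
    · rw [indicator_of_notMem hx]
      have h2 : (fun y : ℝ => ST.indicator (fun u : R2 => A + B * u.1 + C * u.2) (x, y))
          = fun _ => 0 := by
        funext y
        rw [indicator_of_notMem]
        rintro ⟨h3, h4, h5⟩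
        simp only at h3 h4 h5
        exact hx ⟨h3, by linarith⟩
      rw [h2, integral_zero]
  simp only [h1]
  rw [integral_indicator measurableSet_Icc, integral_Icc_eq_integral_Ioc,
    ← intervalIntegral.integral_of_le zero_le_one]
  rw [intervalIntegral.integral_add (f := fun _ : ℝ => A + C / 2)
    (g := fun x : ℝ => (B - A - C) * x + (C / 2 - B) * x ^ 2)
    (by apply Continuous.intervalIntegrable; fun_prop) (by
    apply Continuous.intervalIntegrable; fun_prop)]
  rw [intervalIntegral.integral_add (f := fun x : ℝ => (B - A - C) * x)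
    (g := fun x : ℝ => (C / 2 - B) * x ^ 2)
    (by apply Continuous.intervalIntegrable; fun_prop) (by
    apply Continuous.intervalIntegrable; fun_prop)]
  rw [intervalIntegral.integral_const, intervalIntegral.integral_const_mul, integral_id,
    intervalIntegral.integral_const_mul, integral_pow]
  simp only [smul_eq_mul]
  norm_num
  ring

/-- triangle map -/
def tm (x a b : R2) (u : R2) : R2 := x + (u.1 • a + u.2 • b)

/-- linear part -/
noncomputable def tl (a b : R2) : R2 →L[ℝ] R2 :=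
  (ContinuousLinearMap.fst ℝ ℝ ℝ).smulRight a + (ContinuousLinearMap.snd ℝ ℝ ℝ).smulRight b

lemma tl_apply (a b u : R2) : tl a b u = u.1 • a + u.2 • b := rfl

lemma tl_det (a b : R2) : (tl a b).det = cp a b := by
  have h1 : (tl a b).det = LinearMap.det (tl a b : R2 →ₗ[ℝ] R2) := rfl
  rw [h1, ← LinearMap.det_toMatrix (Module.Basis.finTwoProd ℝ), Matrix.det_fin_two]
  simp only [LinearMap.toMatrix_apply, Module.Basis.finTwoProd_zero, Module.Basis.finTwoProd_one,
    ContinuousLinearMap.coe_coe, tl_apply]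
  simp [cp]
  ring

/-- triangle -/
def TT (x a b : R2) : Set R2 := tm x a b '' ST

lemma tm_cont (x a b : R2) : Continuous (tm x a b) := by
  unfold tm; fun_prop

lemma TT_compact (x a b : R2) : IsCompact (TT x a b) := ST_compact.image (tm_cont x a b)

lemma tm_inj (x a b : R2) (h : cp a b ≠ 0) : Function.Injective (tm x a b) := by
  intro u w huw
  have h1 : u.1 • a + u.2 • b = w.1 • a + w.2 • b := by
    simpa [tm] using huw
  have e1 : u.1 * a.1 + u.2 * b.1 = w.1 * a.1 + w.2 * b.1 := by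
    simpa using congrArg Prod.fst h1
  have e2 : u.1 * a.2 + u.2 * b.2 = w.1 * a.2 + w.2 * b.2 := by
    simpa using congrArg Prod.snd h1
  have f1 : (u.1 - w.1) * cp a b = 0 := by
    unfold cp; linear_combination b.2 * e1 - b.1 * e2
  have f2 : (u.2 - w.2) * cp a b = 0 := by
    unfold cp; linear_combination a.1 * e2 - a.2 * e1
  have g1 : u.1 - w.1 = 0 := by
    rcases mul_eq_zero.1 f1 with h | h'
    · exact h
    · exact absurd h' h
  have g2 : u.2 - w.2 = 0 := by
    rcases mul_eq_zero.1 f2 with h | h'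
    · exact h
    · exact absurd h' h
  exact Prod.ext (by linarith) (by linarith)

lemma int_TT (x a b : R2) (h : 0 < cp a b) (r : ℝ × R2) :
    ∫ ξ in TT x a b, af r ξ = cp a b / 2 * ((af r x + af r (x + a) + af r (x + b)) / 3) := by
  have hd : ∀ u ∈ ST, HasFDerivWithinAt (tm x a b) (tl a b) ST u := by
    intro u _
    have h1 : HasFDerivAt (fun u : R2 => x + tl a b u) (tl a b) u :=
      ((tl a b).hasFDerivAt).const_add x
    exact h1.hasFDerivWithinAt
  have hcv := integral_image_eq_integral_abs_det_fderiv_smul volume ST_closed.measurableSet hd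
    (tm_inj x a b h.ne').injOn (fun ξ => af r ξ)
  have h2 : TT x a b = tm x a b '' ST := rfl
  rw [h2, hcv, tl_det, abs_of_pos h]
  have h3 : ∀ u : R2, cp a b • af r (tm x a b u)
      = cp a b * af r x + cp a b * dp r.2 a * u.1 + cp a b * dp r.2 b * u.2 := by
    intro u
    simp only [smul_eq_mul, tm, af, dp, Prod.fst_add, Prod.snd_add, Prod.smul_fst, Prod.smul_snd]
    ring
  simp only [h3]
  rw [int_ST]
  simp only [af, dp, Prod.fst_add, Prod.snd_add]
  ring

/-! ## lines are null sets -/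

lemma line_null (c x : R2) (hc : c ≠ 0) : volume {ξ : R2 | dp c (ξ - x) = 0} = 0 := by
  set L : R2 →ₗ[ℝ] ℝ :=
    { toFun := fun ξ => dp c ξ
      map_add' := fun u w => by
        simp only [dp, Prod.fst_add, Prod.snd_add]; ring
      map_smul' := fun t u => by
        simp only [dp, Prod.smul_fst, Prod.smul_snd, smul_eq_mul, RingHom.id_apply]; ring } with hL
  have h1 : {ξ : R2 | dp c (ξ - x) = 0}
      = (fun ξ => ξ + (-x)) ⁻¹' ((LinearMap.ker L : Submodule ℝ R2) : Set R2) := by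
    ext ξ
    simp only [mem_ofPred_eq, mem_preimage, SetLike.mem_coe, LinearMap.mem_ker, ← sub_eq_add_neg]
    rfl
  rw [h1, measure_preimage_add_right]
  apply Measure.addHaar_submodule
  intro htop
  have h2 : c ∈ (LinearMap.ker L : Submodule ℝ R2) := by rw [htop]; trivial
  have h3 : dp c c = 0 := h2
  apply hc
  unfold dp at h3
  have h4 : c.1 = 0 := by nlinarith [sq_nonneg c.1, sq_nonneg c.2]
  have h5 : c.2 = 0 := by nlinarith [sq_nonneg c.1, sq_nonneg c.2]
  exact Prod.ext h4 h5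

/-! ## the decomposition -/

variable {n : ℕ} {ν v : ℕ → R2} {ℓ : ℕ → ℝ}

lemma dp_sub (a b c : R2) : dp a (b - c) = dp a b - dp a c := by
  simp only [dp, Prod.fst_sub, Prod.snd_sub]; ring

lemma cross_id (a b c : R2) : cp a b * dp c c = cp a c * dp b c - cp b c * dp a c := by
  unfold cp dp; ring

/-- the vertex `i + 1` is on the line `i` -/
lemma on_line (h : Poly n ν v ℓ) (i : ℕ) : dp (ν i) (v (i + 1)) = dp (ν i) (v i) := by
  rw [h.edge i]
  simp only [dp, rt, Prod.fst_add, Prod.snd_add, Prod.smul_fst, Prod.smul_snd, smul_eq_mul]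
  ring

lemma dp_edge (h : Poly n ν v ℓ) (a : R2) (i : ℕ) :
    dp a (v (i + 1)) = dp a (v i) - ℓ i * cp a (ν i) := by
  rw [h.edge i]
  simp only [dp, cp, rt, Prod.fst_add, Prod.snd_add, Prod.smul_fst, Prod.smul_snd, smul_eq_mul]
  ring

/-- interior point -/
lemma interior_pt (h : Poly n ν v ℓ) :
    ∀ i, 0 < dp (ν i) (v i - (1 / 3 : ℝ) • (v 0 + v 1 + v 2)) := by
  intro i
  have e0 := h.conv i 0
  have e1 := h.conv i 1
  have e2 := h.conv i 2
  have hx : dp (ν i) (v i - (1 / 3 : ℝ) • (v 0 + v 1 + v 2))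
      = ((dp (ν i) (v i) - dp (ν i) (v 0)) + (dp (ν i) (v i) - dp (ν i) (v 1))
        + (dp (ν i) (v i) - dp (ν i) (v 2))) / 3 := by
    simp only [dp, Prod.fst_add, Prod.snd_add, Prod.smul_fst, Prod.smul_snd, smul_eq_mul,
      Prod.fst_sub, Prod.snd_sub]
    ring
  rw [hx]
  by_contra hcon
  have g0 : dp (ν i) (v 0) = dp (ν i) (v i) := by linarith
  have g1 : dp (ν i) (v 1) = dp (ν i) (v i) := by linarith
  have g2 : dp (ν i) (v 2) = dp (ν i) (v i) := by linarith
  have f0 := dp_edge h (ν i) 0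
  have f1 := dp_edge h (ν i) 1
  rw [zero_add] at f0
  have c0 : cp (ν i) (ν 0) = 0 := by
    have : ℓ 0 * cp (ν i) (ν 0) = 0 := by linarith
    rcases mul_eq_zero.1 this with h' | h'
    · exact absurd h' (h.pos 0).ne'
    · exact h'
  have c1 : cp (ν i) (ν 1) = 0 := by
    have h1' : (1 + 1 : ℕ) = 2 := rfl
    rw [h1'] at f1
    have : ℓ 1 * cp (ν i) (ν 1) = 0 := by linarith
    rcases mul_eq_zero.1 this with h' | h'
    · exact absurd h' (h.pos 1).ne'
    · exact h'
  have ht := h.turn 0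
  rw [zero_add] at ht
  have hcr := cross_id (ν 0) (ν 1) (ν i)
  have s0 : cp (ν 0) (ν i) = - cp (ν i) (ν 0) := by unfold cp; ring
  have s1 : cp (ν 1) (ν i) = - cp (ν i) (ν 1) := by unfold cp; ring
  rw [s0, s1, c0, c1, h.unit i] at hcr
  linarith

lemma mod_eq {α : Type} {n : ℕ} {f : ℕ → α} (h : ∀ i, f (i + n) = f i) (i : ℕ) :
    f (i % n) = f i :=
  Function.Periodic.map_mod_nat (f := f) h i

/-- the polygon -/
def PL (ν v : ℕ → R2) : Set R2 := {ξ : R2 | ∀ i, dp (ν i) ξ ≤ dp (ν i) (v i)}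

/-- the triangles -/
def Tr (v : ℕ → R2) (x : R2) (k : ℕ) : Set R2 := TT x (v (k + 1) - x) (v (k + 2) - x)

/-- on the triangle `k` the normalised levels are at most the level of the line `k + 1` -/
lemma Tr_level (h : Poly n ν v ℓ) {x : R2} (_hx : ∀ i, 0 < dp (ν i) (v i - x)) {k : ℕ} {ξ : R2}
    (hξ : ξ ∈ Tr v x k) : ∃ g : ℝ, 0 ≤ g ∧ g ≤ 1 ∧
      dp (ν (k + 1)) (ξ - x) = g * dp (ν (k + 1)) (v (k + 1) - x) ∧
      ∀ j, dp (ν j) (ξ - x) ≤ g * dp (ν j) (v j - x) := by
  obtain ⟨u, ⟨hu1, hu2, hu3⟩, rfl⟩ := hξ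
  refine ⟨u.1 + u.2, by linarith, hu3, ?_, ?_⟩
  · have h1 := on_line h (k + 1)
    have h2 : dp (ν (k + 1)) (tm x (v (k + 1) - x) (v (k + 2) - x) u - x)
        = u.1 * (dp (ν (k + 1)) (v (k + 1)) - dp (ν (k + 1)) x)
          + u.2 * (dp (ν (k + 1)) (v (k + 2)) - dp (ν (k + 1)) x) := by
      simp only [tm, dp, Prod.fst_add, Prod.snd_add, Prod.smul_fst, Prod.smul_snd, smul_eq_mul,
        Prod.fst_sub, Prod.snd_sub]
      ring
    have h3 : (k + 1 + 1 : ℕ) = k + 2 := rfl
    rw [h3] at h1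
    rw [h2, h1, dp_sub]
    ring
  · intro j
    have h2 : dp (ν j) (tm x (v (k + 1) - x) (v (k + 2) - x) u - x)
        = u.1 * (dp (ν j) (v (k + 1)) - dp (ν j) x)
          + u.2 * (dp (ν j) (v (k + 2)) - dp (ν j) x) := by
      simp only [tm, dp, Prod.fst_add, Prod.snd_add, Prod.smul_fst, Prod.smul_snd, smul_eq_mul,
        Prod.fst_sub, Prod.snd_sub]
      ring
    rw [h2, dp_sub]
    have c1 := h.conv j (k + 1)
    have c2 := h.conv j (k + 2)
    nlinarith [mul_le_mul_of_nonneg_left c1 hu1, mul_le_mul_of_nonneg_left c2 hu2]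

lemma Tr_sub (h : Poly n ν v ℓ) {x : R2} (hx : ∀ i, 0 < dp (ν i) (v i - x)) (k : ℕ) :
    Tr v x k ⊆ PL ν v := by
  intro ξ hξ j
  obtain ⟨g, g0, g1, _, hj⟩ := Tr_level h hx hξ
  have h1 := hj j
  have h2 := hx j
  have h3 : dp (ν j) (ξ - x) ≤ dp (ν j) (v j - x) := by nlinarith
  rw [dp_sub, dp_sub] at h3
  linarith

lemma sub_Tr (h : Poly n ν v ℓ) {x : R2} (hx : ∀ i, 0 < dp (ν i) (v i - x)) {ξ : R2}
    (hξ : ξ ∈ PL ν v) : ∃ k, k < n ∧ ξ ∈ Tr v x k := by
  have hn : 0 < n := by have := h.n3; omega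
  set G : ℕ → ℝ := fun j => dp (ν j) (ξ - x) / dp (ν j) (v j - x) with hG
  have hGp : ∀ j, G (j + n) = G j := fun j => by simp only [hG, h.pν, h.pv]
  obtain ⟨k, hk, hmax⟩ := Finset.exists_max_image (Finset.range n) (fun k => G (k + 1))
    ⟨0, Finset.mem_range.2 hn⟩
  have hk' : k < n := Finset.mem_range.1 hk
  have hall : ∀ j, G j ≤ G (k + 1) := by
    intro j
    have h1 := hmax ((j + (n - 1)) % n) (Finset.mem_range.2 (Nat.mod_lt _ hn))
    have h2 : G ((j + (n - 1)) % n + 1) = G j := by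
      have h3 : ∀ i, (fun k => G (k + 1)) (i + n) = (fun k => G (k + 1)) i := by
        intro i
        have : i + n + 1 = (i + 1) + n := by ring
        simp only [this, hGp]
      have h4 : G ((j + (n - 1)) % n + 1) = G (j + (n - 1) + 1) :=
        mod_eq (f := fun k => G (k + 1)) h3 (j + (n - 1))
      rw [h4]
      have h5 : j + (n - 1) + 1 = j + n := by omega
      rw [h5, hGp]
    have h6 : G ((j + (n - 1)) % n + 1) ≤ G (k + 1) := h1
    rw [h2] at h6
    exact h6
  refine ⟨k, hk', ?_⟩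
  -- coordinates
  set a : R2 := v (k + 1) - x with ha
  set b : R2 := v (k + 2) - x with hb
  set β : ℝ := dp (ν (k + 1)) (v (k + 1) - x) with hβ
  have hβ0 : 0 < β := hx (k + 1)
  have hcab : cp a b = ℓ (k + 1) * β := by
    have h1 : v (k + 2) = v (k + 1) + ℓ (k + 1) • rt (ν (k + 1)) := h.edge (k + 1)
    rw [ha, hb, hβ, h1]
    simp only [dp, cp, rt, Prod.fst_add, Prod.snd_add, Prod.smul_fst, Prod.smul_snd, smul_eq_mul,
      Prod.fst_sub, Prod.snd_sub]
    ring
  have hc0 : 0 < cp a b := by rw [hcab]; exact mul_pos (h.pos _) hβ0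
  set p : ℝ := cp (ξ - x) b / cp a b with hp
  set q : ℝ := cp a (ξ - x) / cp a b with hq
  have hpc : p * cp a b = cp (ξ - x) b := div_mul_cancel₀ _ hc0.ne'
  have hqc : q * cp a b = cp a (ξ - x) := div_mul_cancel₀ _ hc0.ne'
  have e1 : (ξ - x).1 = p * a.1 + q * b.1 := by
    have : (ξ - x).1 * cp a b = (p * a.1 + q * b.1) * cp a b := by
      have : (p * a.1 + q * b.1) * cp a b = (p * cp a b) * a.1 + (q * cp a b) * b.1 := by ring
      rw [this, hpc, hqc]
      unfold cp; ring
    exact mul_right_cancel₀ hc0.ne' this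
  have e2 : (ξ - x).2 = p * a.2 + q * b.2 := by
    have : (ξ - x).2 * cp a b = (p * a.2 + q * b.2) * cp a b := by
      have : (p * a.2 + q * b.2) * cp a b = (p * cp a b) * a.2 + (q * cp a b) * b.2 := by ring
      rw [this, hpc, hqc]
      unfold cp; ring
    exact mul_right_cancel₀ hc0.ne' this
  have hdp : ∀ c : R2, dp c (ξ - x) = p * dp c a + q * dp c b := by
    intro c
    unfold dp
    rw [e1, e2]
    ring
  -- the level
  have hlev : ∀ j, dp (ν j) (ξ - x) ≤ (p + q) * dp (ν j) (v j - x) := by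
    have h1 : G (k + 1) = p + q := by
      simp only [hG]
      rw [hdp]
      have h2 : dp (ν (k + 1)) b = β := by
        have := on_line h (k + 1)
        have h3 : (k + 1 + 1 : ℕ) = k + 2 := rfl
        rw [h3] at this
        rw [hb, hβ, dp_sub, dp_sub, this]
      rw [h2, ← ha, ← hβ]
      field_simp
    intro j
    have h2 := hall j
    rw [h1] at h2
    simp only [hG] at h2
    exact (div_le_iff₀ (hx j)).1 h2
  have hp0 : 0 ≤ p := by
    have h1 := hlev (k + 2)
    rw [hdp] at h1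
    have h2 : dp (ν (k + 2)) a = dp (ν (k + 2)) (v (k + 2) - x)
        - ℓ (k + 1) * cp (ν (k + 1)) (ν (k + 2)) := by
      have h3 := dp_edge h (ν (k + 2)) (k + 1)
      have h4 : (k + 1 + 1 : ℕ) = k + 2 := rfl
      rw [h4] at h3
      have h5 : cp (ν (k + 2)) (ν (k + 1)) = - cp (ν (k + 1)) (ν (k + 2)) := by unfold cp; ring
      rw [ha, dp_sub, dp_sub]
      rw [h5] at h3
      linarith
    have h6 := h.turn (k + 1)
    have h7 : (k + 1 + 1 : ℕ) = k + 2 := rfl
    rw [h7] at h6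
    have h8 : 0 < ℓ (k + 1) * cp (ν (k + 1)) (ν (k + 2)) := mul_pos (h.pos _) h6
    rw [h2, ← hb] at h1
    by_contra hcon
    have h9 := not_le.1 hcon
    have h10 := mul_pos_of_neg_of_neg h9 (neg_lt_zero.2 h8)
    linarith [h1, h10, mul_neg p (ℓ (k + 1) * cp (ν (k + 1)) (ν (k + 2)))]
  have hq0 : 0 ≤ q := by
    have h1 := hlev k
    rw [hdp] at h1
    have h2 : dp (ν k) a = dp (ν k) (v k - x) := by
      rw [ha, dp_sub, dp_sub, on_line h k]
    have h3 : dp (ν k) b = dp (ν k) (v k - x) - ℓ (k + 1) * cp (ν k) (ν (k + 1)) := by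
      have h4 := dp_edge h (ν k) (k + 1)
      have h5 : (k + 1 + 1 : ℕ) = k + 2 := rfl
      rw [h5] at h4
      rw [hb, dp_sub, dp_sub, h4, on_line h k]
      ring
    have h8 : 0 < ℓ (k + 1) * cp (ν k) (ν (k + 1)) := mul_pos (h.pos _) (h.turn k)
    rw [h2, h3] at h1
    by_contra hcon
    have h9 := not_le.1 hcon
    have h10 := mul_pos_of_neg_of_neg h9 (neg_lt_zero.2 h8)
    linarith [h1, h10, mul_neg q (ℓ (k + 1) * cp (ν k) (ν (k + 1)))]
  have hpq : p + q ≤ 1 := by
    have h1 : dp (ν (k + 1)) (ξ - x) = (p + q) * β := by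
      rw [hdp]
      have h2 : dp (ν (k + 1)) b = β := by
        have := on_line h (k + 1)
        have h3 : (k + 1 + 1 : ℕ) = k + 2 := rfl
        rw [h3] at this
        rw [hb, hβ, dp_sub, dp_sub, this]
      rw [h2, ← hβ]
      ring
    have h2 := hξ (k + 1)
    have h3 : dp (ν (k + 1)) (ξ - x) ≤ β := by
      rw [hβ, dp_sub, dp_sub]; linarith
    rw [h1] at h3
    by_contra hcon
    have := not_le.1 hcon
    nlinarith
  refine ⟨(p, q), ⟨hp0, hq0, hpq⟩, ?_⟩
  have g1 : ξ.1 - x.1 = p * a.1 + q * b.1 := e1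
  have g2 : ξ.2 - x.2 = p * a.2 + q * b.2 := e2
  apply Prod.ext
  · simp only [tm, Prod.fst_add, Prod.smul_fst, smul_eq_mul]
    rw [← ha, ← hb]
    linarith
  · simp only [tm, Prod.snd_add, Prod.smul_snd, smul_eq_mul]
    rw [← ha, ← hb]
    linarith

lemma PL_eq (h : Poly n ν v ℓ) {x : R2} (hx : ∀ i, 0 < dp (ν i) (v i - x)) :
    PL ν v = ⋃ k : Fin n, Tr v x k := by
  ext ξ
  rw [mem_iUnion]
  constructor
  · intro hξ
    obtain ⟨k, hk, h1⟩ := sub_Tr h hx hξ
    exact ⟨⟨k, hk⟩, h1⟩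
  · rintro ⟨k, hk⟩
    exact Tr_sub h hx k hk

lemma Tr_disj (h : Poly n ν v ℓ) {x : R2} (hx : ∀ i, 0 < dp (ν i) (v i - x)) {k l : ℕ}
    (hk : k < n) (hl : l < n) (hkl : k ≠ l) : volume (Tr v x k ∩ Tr v x l) = 0 := by
  have hn : 0 < n := by omega
  set βk := dp (ν (k + 1)) (v (k + 1) - x) with hβk
  set βl := dp (ν (l + 1)) (v (l + 1) - x) with hβl
  have bk : 0 < βk := hx _
  have bl : 0 < βl := hx _
  set c : R2 := βl • ν (k + 1) - βk • ν (l + 1) with hc
  have hsub : Tr v x k ∩ Tr v x l ⊆ {ξ : R2 | dp c (ξ - x) = 0} := by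
    rintro ξ ⟨h1, h2⟩
    obtain ⟨g, g0, g1, e1, f1⟩ := Tr_level h hx h1
    obtain ⟨g', g0', g1', e2, f2⟩ := Tr_level h hx h2
    have a1 := f1 (l + 1)
    have a2 := f2 (k + 1)
    rw [e2] at a1
    rw [e1] at a2
    have b1 : g' ≤ g := by
      by_contra hcon
      have := not_le.1 hcon
      nlinarith
    have b2 : g ≤ g' := by
      by_contra hcon
      have := not_le.1 hcon
      nlinarith
    have b3 : g = g' := le_antisymm b2 b1
    have h3 : dp c (ξ - x) = βl * dp (ν (k + 1)) (ξ - x) - βk * dp (ν (l + 1)) (ξ - x) := by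
      rw [hc]
      simp only [dp, Prod.fst_sub, Prod.snd_sub, Prod.smul_fst, Prod.smul_snd, smul_eq_mul]
      ring
    rw [mem_ofPred_eq, h3, e1, e2, ← hβk, ← hβl, b3]
    ring
  refine measure_mono_null hsub (line_null c x ?_)
  intro hc0
  have h1 : βl • ν (k + 1) = βk • ν (l + 1) := sub_eq_zero.1 hc0
  have e1 : βl * (ν (k + 1)).1 = βk * (ν (l + 1)).1 := by simpa using congrArg Prod.fst h1
  have e2 : βl * (ν (k + 1)).2 = βk * (ν (l + 1)).2 := by simpa using congrArg Prod.snd h1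
  have u1 := h.unit (k + 1)
  have u2 := h.unit (l + 1)
  unfold dp at u1 u2
  have h2 : βl ^ 2 = βk ^ 2 := by
    have : βl ^ 2 * ((ν (k + 1)).1 * (ν (k + 1)).1 + (ν (k + 1)).2 * (ν (k + 1)).2)
        = βk ^ 2 * ((ν (l + 1)).1 * (ν (l + 1)).1 + (ν (l + 1)).2 * (ν (l + 1)).2) := by
      have s1 : βl ^ 2 * ((ν (k + 1)).1 * (ν (k + 1)).1 + (ν (k + 1)).2 * (ν (k + 1)).2)
        = (βl * (ν (k + 1)).1) * (βl * (ν (k + 1)).1)
          + (βl * (ν (k + 1)).2) * (βl * (ν (k + 1)).2) := by ring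
      rw [s1, e1, e2]; ring
    rw [u1, u2] at this
    linarith
  have h3 : βl = βk := by
    have := abs_eq_abs.2 (sq_eq_sq_iff_eq_or_eq_neg.1 h2)
    rwa [abs_of_pos bl, abs_of_pos bk] at this
  rw [h3] at e1 e2
  have h4 : ν (k + 1) = ν (l + 1) :=
    Prod.ext (mul_left_cancel₀ bk.ne' e1) (mul_left_cancel₀ bk.ne' e2)
  have h5 : (k + 1) % n = (l + 1) % n := by
    apply h.inj _ _ (Nat.mod_lt _ hn) (Nat.mod_lt _ hn)
    rw [mod_eq (f := ν) h.pν, mod_eq (f := ν) h.pν, h4]
  have h6 : k ≡ l [MOD n] := Nat.ModEq.add_right_cancel' 1 h5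
  have h7 : k = l := by
    have := h6
    unfold Nat.ModEq at this
    rwa [Nat.mod_eq_of_lt hk, Nat.mod_eq_of_lt hl] at this
  exact hkl h7

lemma PL_compact (h : Poly n ν v ℓ) : IsCompact (PL ν v) := by
  rw [PL_eq h (interior_pt h)]
  exact isCompact_iUnion fun k => TT_compact _ _ _

lemma int_PL (h : Poly n ν v ℓ) (r : ℝ × R2) : ∫ ξ in PL ν v, af r ξ = J0 n v r := by
  set x : R2 := (1 / 3 : ℝ) • (v 0 + v 1 + v 2) with hxdef
  have hx : ∀ i, 0 < dp (ν i) (v i - x) := interior_pt h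
  have hcont : Continuous (fun ξ : R2 => af r ξ) := by
    unfold af dp; fun_prop
  have hint : IntegrableOn (fun ξ : R2 => af r ξ) (⋃ k : Fin n, Tr v x k) := by
    rw [← PL_eq h hx]
    exact hcont.continuousOn.integrableOn_compact (PL_compact h)
  have h1 : ∫ ξ in PL ν v, af r ξ = ∑ k : Fin n, ∫ ξ in Tr v x k, af r ξ := by
    have hm : ∀ k : Fin n, NullMeasurableSet (Tr v x k) volume := fun k =>
      (TT_compact _ _ _).measurableSet.nullMeasurableSet
    have hd : Pairwise (Function.onFun (AEDisjoint volume) fun k : Fin n => Tr v x k) := by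
      intro k l hkl
      exact Tr_disj h hx k.2 l.2 (fun h' => hkl (Fin.ext h'))
    rw [PL_eq h hx, integral_iUnion_ae hm hd hint, tsum_fintype]
  have h2 : ∀ i, cp (v i - x) (v (i + 1) - x) = ℓ i * dp (ν i) (v i - x) := by
    intro i
    rw [h.edge i]
    simp only [dp, cp, rt, Prod.fst_add, Prod.snd_add, Prod.smul_fst, Prod.smul_snd, smul_eq_mul,
      Prod.fst_sub, Prod.snd_sub]
    ring
  set F : ℕ → ℝ := fun i => ℓ i * dp (ν i) (v i - x) / 2 *
    ((af r x + af r (v i) + af r (v (i + 1))) / 3) with hF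
  have hFp : ∀ i, F (i + n) = F i := by
    intro i
    have h3 : i + n + 1 = (i + 1) + n := by ring
    simp only [hF, h3, h.pν, h.pv, h.pℓ]
  have h3 : ∀ k : ℕ, ∫ ξ in Tr v x k, af r ξ = F (k + 1) := by
    intro k
    have hpos : 0 < cp (v (k + 1) - x) (v (k + 2) - x) := by
      have := h2 (k + 1)
      have h4 : (k + 1 + 1 : ℕ) = k + 2 := rfl
      rw [h4] at this
      rw [this]
      exact mul_pos (h.pos _) (hx _)
    unfold Tr
    rw [int_TT _ _ _ hpos]
    simp only [hF]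
    have h4 : (k + 1 + 1 : ℕ) = k + 2 := rfl
    have h5 := h2 (k + 1)
    rw [h4] at h5
    rw [h4, h5, add_sub_cancel, add_sub_cancel]
  rw [h1]
  have h4 : ∑ k : Fin n, ∫ ξ in Tr v x k, af r ξ = ∑ k ∈ Finset.range n, F (k + 1) := by
    rw [Finset.sum_range]
    exact Finset.sum_congr rfl fun k _ => h3 k
  rw [h4, PEUaux.shift hFp]
  have e1 := PEUaux.two_ar h x
  have e2 := PEUaux.J1_b h x r
  have e3 : ∑ i ∈ Finset.range n, F i
      = (af r x * ∑ i ∈ Finset.range n, ℓ i * dp (ν i) (v i - x)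
        + 2 * J1 n v ℓ r (fun i => dp (ν i) (v i - x))) / 6 := by
    unfold J1
    rw [Finset.mul_sum, Finset.mul_sum, ← Finset.sum_add_distrib, Finset.sum_div]
    refine Finset.sum_congr rfl fun i _ => ?_
    simp only [hF, EI]
    ring
  rw [e3, e1, e2]
  ring

end AREaux

/-- block `ARE` -/
theorem blk_ARE : Stmt_ARE := by
  intro n ν v ℓ h
  refine ⟨AREaux.PL_compact h, ?_, fun r => AREaux.int_PL h r⟩
  have h1 := AREaux.int_PL h ((1 : ℝ), ((0 : ℝ), (0 : ℝ)))
  have h2 : ∀ ξ : R2, af ((1 : ℝ), ((0 : ℝ), (0 : ℝ))) ξ = 1 := by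
    intro ξ; simp [af, dp]
  simp only [h2] at h1
  rw [integral_const, smul_eq_mul, mul_one, measureReal_restrict_apply_univ] at h1
  have h3 : J0 n v ((1 : ℝ), ((0 : ℝ), (0 : ℝ))) = ar n v := by
    unfold J0 ar
    refine Finset.sum_congr rfl fun i _ => ?_
    rw [h2, h2]
    norm_num
  rw [h3] at h1
  exact h1

end Pool.G1
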