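import Pool.Agent.Work.MP_b5407d_g1.Interface

/-!
# G1, block `CTV` (helper41): continuity of the volumes `vo`, `mu`
-/

set_option autoImplicit false

open MeasureTheory Set Filter Topology

namespace Pool.G1

namespace CTV

open Pool.T3 (R3 dt cr de K V S H Fam Pos pt Lam Q J lin)

/-- `dt` is continuous -/
theorem cont_dt {X : Type} [TopologicalSpace X] {f g : X → R3} (hf : Continuous f)
    (hg : Continuous g) : Continuous (fun x => dt (f x) (g x)) := by
  unfold dt
  exact ((((continuous_apply 0).comp hf).mul ((continuous_apply 0).comp hg)).add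
    (((continuous_apply 1).comp hf).mul ((continuous_apply 1).comp hg))).add
    (((continuous_apply 2).comp hf).mul ((continuous_apply 2).comp hg))

theorem dt_smul (a x : R3) (c : ℝ) : dt a (c • x) = c * dt a x := by
  simp only [dt, Pi.smul_apply, smul_eq_mul]; ring

/-- `dt a` as a linear map -/
def dl (a : R3) : R3 →ₗ[ℝ] ℝ where
  toFun := dt a
  map_add' x x' := by simp only [dt, Pi.add_apply]; ring
  map_smul' c x := by simp only [dt_smul, RingHom.id_apply, smul_eq_mul]

/-- a hyperplane is a null set -/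
theorem null_plane (a : R3) (c : ℝ) (h : a ≠ 0 ∨ c ≠ 0) : volume {x : R3 | dt a x = c} = 0 := by
  by_cases ha : a = 0
  · have hc : c ≠ 0 := by
      rcases h with h | h
      · exact absurd ha h
      · exact h
    have : {x : R3 | dt a x = c} = ∅ := by
      ext x
      simp only [mem_ofPred_eq, mem_empty_iff_false, iff_false]
      intro hx
      apply hc
      rw [← hx, ha]
      simp [dt]
    rw [this]; exact measure_empty
  · -- affine subspace
    obtain ⟨x0, hx0⟩ : ∃ x0 : R3, dt a x0 ≠ 0 := by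
      refine ⟨a, ?_⟩
      intro h0
      apply ha
      have h1 : a 0 * a 0 + a 1 * a 1 + a 2 * a 2 = 0 := h0
      have e0 : a 0 = 0 := by nlinarith [mul_self_nonneg (a 0), mul_self_nonneg (a 1), mul_self_nonneg (a 2)]
      have e1 : a 1 = 0 := by nlinarith [mul_self_nonneg (a 0), mul_self_nonneg (a 1), mul_self_nonneg (a 2)]
      have e2 : a 2 = 0 := by nlinarith [mul_self_nonneg (a 0), mul_self_nonneg (a 1), mul_self_nonneg (a 2)]
      funext k
      fin_cases k
      · exact e0
      · exact e1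
      · exact e2
    set P : AffineSubspace ℝ R3 := (AffineSubspace.mk' ((c / dt a x0) • x0) (LinearMap.ker (dl a)))
      with hP
    have hmem : ∀ x : R3, x ∈ P ↔ dt a x = c := by
      intro x
      rw [hP, AffineSubspace.mem_mk', LinearMap.mem_ker]
      have : (dl a) (x -ᵥ (c / dt a x0) • x0) = dt a x - c := by
        rw [vsub_eq_sub, map_sub, map_smul]
        change dt a x - (c / dt a x0) * dt a x0 = dt a x - c
        rw [div_mul_cancel₀ _ hx0]
      rw [this]
      constructor <;> intro h <;> linarith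
    have htop : P ≠ ⊤ := by
      intro ht
      have h1 : dt a (((c + 1) / dt a x0) • x0) = c := by
        rw [← hmem, ht]; exact AffineSubspace.mem_top ℝ R3 _
      rw [dt_smul, div_mul_cancel₀ _ hx0] at h1
      linarith
    have := Measure.addHaar_affineSubspace (volume : Measure R3) P htop
    have e : {x : R3 | dt a x = c} = (P : Set R3) := by
      ext x
      exact (hmem x).symm
    rw [e]; exact this

theorem ae_ne (a : R3) (c : ℝ) (h : a ≠ 0 ∨ c ≠ 0) : ∀ᵐ x : R3, dt a x ≠ c := by
  have := null_plane a c h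
  rw [ae_iff]
  simpa only [ne_eq, not_not] using this

variable {ι : Type}

theorem mem_KK (y : ι → R3) (x : R3) : x ∈ KK y ↔ ∀ i, |dt (y i) x| ≤ 1 := Iff.rfl

theorem closed_KK (y : ι → R3) : IsClosed (KK y) := by
  have : KK y = ⋂ i, {x : R3 | |dt (y i) x| ≤ 1} := by
    ext x; simp only [mem_KK, mem_iInter, mem_ofPred_eq]
  rw [this]
  exact isClosed_iInter fun i =>
    isClosed_le (cont_dt continuous_const continuous_id).abs continuous_const

theorem closed_co (y : ι → R3) (i : ι) : IsClosed (co y i) := by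
  have : co y i = KK y ∩ ⋂ l, {x : R3 | |dt (y l) x| ≤ |dt (y i) x|} := by
    ext x; simp only [co, mem_inter_iff, mem_iInter, mem_ofPred_eq]
  rw [this]
  exact (closed_KK y).inter (isClosed_iInter fun l =>
    isClosed_le (cont_dt continuous_const continuous_id).abs
      (cont_dt continuous_const continuous_id).abs)

/-- uniform bound near `y` -/
theorem bound_near [Fintype ι] (y : ι → R3) (R : ℝ) (hR : ∀ x ∈ KK y, ∀ k, |x k| ≤ R) :
    ∀ᶠ y' in 𝓝 y, ∀ x ∈ KK y', ∀ k, |x k| ≤ R + 1 := by
  have hR0 : 0 ≤ R := by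
    have h0 : (0 : R3) ∈ KK y := by
      intro i
      simp [dt]
    have := hR 0 h0 0
    simpa using this
  have hcomp : IsCompact (Metric.sphere (0 : R3) (R + 1)) := isCompact_sphere 0 (R + 1)
  have key : ∀ᶠ y' in 𝓝 y, ∀ x ∈ Metric.sphere (0 : R3) (R + 1), ∃ i, 1 < |dt (y' i) x| := by
    apply hcomp.eventually_forall_of_forall_eventually
    intro x hx
    have hx1 : x ∉ KK y := by
      intro hmem
      have h1 := hR x hmem
      have h2 : ‖x‖ ≤ R := by
        rw [pi_norm_le_iff_of_nonneg hR0]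
        intro k
        rw [Real.norm_eq_abs]; exact h1 k
      rw [mem_sphere_zero_iff_norm] at hx
      linarith
    rw [mem_KK] at hx1
    push Not at hx1
    obtain ⟨i, hi⟩ := hx1
    have hc : Continuous (fun z : (ι → R3) × R3 => |dt (z.1 i) z.2|) :=
      (cont_dt ((continuous_apply i).comp continuous_fst) continuous_snd).abs
    have := (hc.tendsto (y, x)).eventually (lt_mem_nhds hi)
    exact this.mono fun z hz => ⟨i, hz⟩
  filter_upwards [key] with y' hy' x hx
  have hn : ‖x‖ ≤ R + 1 := by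
    by_contra hcon
    push Not at hcon
    have hpos : 0 < ‖x‖ := by linarith
    obtain ⟨i, hi⟩ := hy' (((R + 1) / ‖x‖) • x) (by
      rw [mem_sphere_zero_iff_norm, norm_smul, Real.norm_eq_abs, abs_of_nonneg (by positivity),
        div_mul_cancel₀ _ hpos.ne'])
    rw [dt_smul, abs_mul, abs_of_nonneg (by positivity)] at hi
    have h1 := hx i
    have h2 : (R + 1) / ‖x‖ < 1 := by
      rw [div_lt_one hpos]; exact hcon
    have h3 : (R + 1) / ‖x‖ * |dt (y' i) x| ≤ 1 * 1 :=
      mul_le_mul h2.le h1 (abs_nonneg _) (by norm_num)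
    linarith
  intro k
  have := norm_le_pi_norm x k
  rw [Real.norm_eq_abs] at this
  linarith

/-- off the plane the inequality `|p| ≤ |q|` is stable -/
theorem stab {X : Type} [TopologicalSpace X] (f g : X → ℝ) (x0 : X) (hf : ContinuousAt f x0)
    (hg : ContinuousAt g x0) (h : f x0 ≠ g x0) : ∀ᶠ x in 𝓝 x0, (f x ≤ g x ↔ f x0 ≤ g x0) := by
  rcases lt_or_gt_of_ne h with h | h
  · filter_upwards [hf.eventually_lt hg h] with x hx
    exact ⟨fun _ => h.le, fun _ => hx.le⟩
  · filter_upwards [hg.eventually_lt hf h] with x hx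
    exact ⟨fun h' => absurd h' (not_le.mpr hx), fun h' => absurd h' (not_le.mpr h)⟩

theorem ca (x : R3) (i : ι) (y : ι → R3) : ContinuousAt (fun y' : ι → R3 => |dt (y' i) x|) y :=
  (cont_dt (continuous_apply i) continuous_const).abs.continuousAt

theorem ev_KK [Fintype ι] (y : ι → R3) :
    ∀ᵐ x : R3, ∀ᶠ y' in 𝓝 y, (x ∈ KK y' ↔ x ∈ KK y) := by
  have h1 : ∀ᵐ x : R3, ∀ i, dt (y i) x ≠ 1 ∧ dt (y i) x ≠ -1 := by
    rw [ae_all_iff]
    intro i
    exact (ae_ne (y i) 1 (Or.inr one_ne_zero)).and (ae_ne (y i) (-1) (Or.inr (by norm_num)))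
  filter_upwards [h1] with x hx
  have h2 : ∀ᶠ y' in 𝓝 y, ∀ i, (|dt (y' i) x| ≤ 1 ↔ |dt (y i) x| ≤ 1) := by
    rw [eventually_all]
    intro i
    refine stab (fun y' : ι → R3 => |dt (y' i) x|) (fun _ => (1 : ℝ)) y (ca x i y)
      continuousAt_const ?_
    intro h
    rcases (abs_eq (by norm_num : (0 : ℝ) ≤ 1)).mp h with h | h
    · exact (hx i).1 h
    · exact (hx i).2 h
  filter_upwards [h2] with y' hy'
  rw [mem_KK, mem_KK]
  exact forall_congr' hy'

theorem ev_co [Fintype ι] (y : ι → R3) (hy : Npb y) (i : ι) :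
    ∀ᵐ x : R3, ∀ᶠ y' in 𝓝 y, (x ∈ co y' i ↔ x ∈ co y i) := by
  have h1 : ∀ᵐ x : R3, ∀ l, l ≠ i → |dt (y l) x| ≠ |dt (y i) x| := by
    rw [ae_all_iff]
    intro l
    by_cases hl : l = i
    · exact Eventually.of_forall fun x h => absurd hl h
    have hcr := hy.np l i hl
    have ha : y l - y i ≠ 0 := by
      intro h
      apply hcr
      have : y l = y i := by simpa [sub_eq_zero] using h
      rw [this]
      funext k
      fin_cases k <;> simp [cr] <;> ring
    have hb : y l + y i ≠ 0 := by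
      intro h
      apply hcr
      have : y l = -(y i) := eq_neg_of_add_eq_zero_left h
      rw [this]
      funext k
      fin_cases k <;> simp [cr] <;> ring
    filter_upwards [ae_ne (y l - y i) 0 (Or.inl ha), ae_ne (y l + y i) 0 (Or.inl hb)] with x h1 h2 _
    intro h
    rcases abs_eq_abs.mp h with h | h
    · apply h1
      simp only [dt, Pi.sub_apply] at h ⊢
      linarith
    · apply h2
      simp only [dt, Pi.add_apply] at h ⊢
      linarith
  filter_upwards [h1, ev_KK y] with x hx hK
  have h2 : ∀ᶠ y' in 𝓝 y, ∀ l, (|dt (y' l) x| ≤ |dt (y' i) x| ↔ |dt (y l) x| ≤ |dt (y i) x|) := by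
    rw [eventually_all]
    intro l
    by_cases hl : l = i
    · subst hl
      exact Eventually.of_forall fun y' => ⟨fun _ => le_refl _, fun _ => le_refl _⟩
    · exact stab (fun y' : ι → R3 => |dt (y' l) x|) (fun y' : ι → R3 => |dt (y' i) x|) y (ca x l y)
        (ca x i y) (hx l hl)
  filter_upwards [h2, hK] with y' hy' hK'
  simp only [co, mem_ofPred_eq]
  exact and_congr hK' (forall_congr' hy')

theorem KK_sub_ball (y : ι → R3) (R : ℝ) (hR0 : 0 ≤ R) (hR : ∀ x ∈ KK y, ∀ k, |x k| ≤ R) :
    KK y ⊆ Metric.closedBall (0 : R3) R := by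
  intro x hx
  rw [mem_closedBall_zero_iff, pi_norm_le_iff_of_nonneg hR0]
  intro k
  rw [Real.norm_eq_abs]; exact hR x hx k

theorem R_nonneg (y : ι → R3) (R : ℝ) (hR : ∀ x ∈ KK y, ∀ k, |x k| ≤ R) : 0 ≤ R := by
  have h0 : (0 : R3) ∈ KK y := by
    intro i
    simp [dt]
  have := hR 0 h0 0
  simpa using this

theorem main [Fintype ι] (y : ι → R3) (R : ℝ) (hR : ∀ x ∈ KK y, ∀ k, |x k| ≤ R)
    (A : (ι → R3) → Set R3) (hm : ∀ y', IsClosed (A y')) (hs : ∀ y', A y' ⊆ KK y')
    (hae : ∀ᵐ x : R3, ∀ᶠ y' in 𝓝 y, (x ∈ A y' ↔ x ∈ A y)) :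
    ContinuousAt (fun y' => (volume (A y')).toReal) y := by
  have hR0 := R_nonneg y R hR
  have hfin : volume (Metric.closedBall (0 : R3) (R + 1)) ≠ ⊤ :=
    (isCompact_closedBall (0 : R3) (R + 1)).measure_lt_top.ne
  have h := tendsto_measure_of_ae_tendsto_indicator (μ := (volume : Measure R3)) (𝓝 y)
    (A := A y) (As := A) (hm y).measurableSet (fun y' => (hm y').measurableSet)
    (B := Metric.closedBall (0 : R3) (R + 1)) Metric.isClosed_closedBall.measurableSet hfin
    ((bound_near y R hR).mono fun y' hy' =>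
      (hs y').trans (KK_sub_ball y' (R + 1) (by linarith) hy')) hae
  have hfin2 : volume (A y) ≠ ⊤ := by
    refine ne_top_of_le_ne_top hfin (measure_mono ?_)
    exact (hs y).trans ((KK_sub_ball y R hR0 hR).trans (Metric.closedBall_subset_closedBall (by linarith)))
  exact (ENNReal.tendsto_toReal hfin2).comp h

end CTV

/-- block `CTV` -/
theorem blk_CTV : Stmt_CTV := by
  refine ⟨?_, ?_⟩
  · intro ι _ y ⟨R, hR⟩
    exact ⟨CTV.main y R hR KK CTV.closed_KK (fun _ => Subset.rfl) (CTV.ev_KK y),
      R + 1, CTV.bound_near y R hR⟩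
  · intro ι _ y hy i
    obtain ⟨R, hR⟩ := hy.bd
    exact CTV.main y R hR (fun y' => co y' i) (fun y' => CTV.closed_co y' i)
      (fun y' x hx => hx.1) (CTV.ev_co y hy i)

end Pool.G1
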