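import Pool.Agent.Work.MP_b5407d_g1.Interface
import Pool.Agent.Work.MP_b5407d_g1.CTV
import Pool.Agent.Work.MP_b5407d_t3.LAMC

/-!
# G1, block `BAS` (helper24): basic facts
-/

set_option autoImplicit false

open MeasureTheory Set Filter Topology

namespace Pool.G1

namespace BAS

open Pool.T3 (R3 dt cr de K V S H Fam Pos pt Lam Q J lin)

variable {ι : Type}

theorem isBounded_KK (y : ι → R3) (R : ℝ) (hR : ∀ x ∈ KK y, ∀ k, |x k| ≤ R) :
    Bornology.IsBounded (KK y) := by
  have h0 : (0 : R3) ∈ KK y := by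
    intro i
    simp [dt]
  have hR0 : 0 ≤ R := by
    have := hR 0 h0 0
    simpa using this
  rw [isBounded_iff_forall_norm_le]
  refine ⟨R, fun x hx => ?_⟩
  rw [pi_norm_le_iff_of_nonneg hR0]
  intro k
  rw [Real.norm_eq_abs]
  exact hR x hx k

theorem compact_KK (y : ι → R3) (R : ℝ) (hR : ∀ x ∈ KK y, ∀ k, |x k| ≤ R) :
    IsCompact (KK y) :=
  Metric.isCompact_of_isClosed_isBounded (CTV.closed_KK y) (isBounded_KK y R hR)

theorem convex_KK (y : ι → R3) : Convex ℝ (KK y) := by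
  intro x hx x' hx' a b ha hb hab i
  have h1 := hx i
  have h2 := hx' i
  have e : dt (y i) (a • x + b • x') = a * dt (y i) x + b * dt (y i) x' := by
    simp only [dt, Pi.add_apply, Pi.smul_apply, smul_eq_mul]; ring
  rw [e]
  rw [abs_le] at h1 h2 ⊢
  constructor
  · nlinarith [h1.1, h2.1]
  · nlinarith [h1.2, h2.2]

theorem vol_pos [Finite ι] (y : ι → R3) : 0 < volume (KK y) := by
  have hopen : IsOpen {x : R3 | ∀ i, |dt (y i) x| < 1} := by
    have : {x : R3 | ∀ i, |dt (y i) x| < 1} = ⋂ i, {x : R3 | |dt (y i) x| < 1} := by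
      ext x; simp only [mem_iInter, mem_ofPred_eq]
    rw [this]
    exact isOpen_iInter_of_finite fun i =>
      isOpen_lt (CTV.cont_dt continuous_const continuous_id).abs continuous_const
  have hne : ({x : R3 | ∀ i, |dt (y i) x| < 1}).Nonempty := by
    refine ⟨0, fun i => ?_⟩
    simp [dt]
  have h1 : 0 < volume {x : R3 | ∀ i, |dt (y i) x| < 1} := hopen.measure_pos volume hne
  exact h1.trans_le (measure_mono fun x hx i => (hx i).le)

theorem cr_self_smul (a : R3) (s : ℝ) : cr a (s • a) = 0 := by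
  ext l
  fin_cases l <;> simp [cr] <;> ring

theorem ne_pm (y : ι → R3) (h : Npb y) (i k : ι) (hik : i ≠ k) :
    y i - y k ≠ 0 ∧ y i + y k ≠ 0 := by
  constructor
  · intro h0
    apply h.np k i (Ne.symm hik)
    have : y i = (1 : ℝ) • y k := by
      rw [one_smul]; exact sub_eq_zero.mp h0
    rw [this]; exact cr_self_smul _ _
  · intro h0
    apply h.np k i (Ne.symm hik)
    have : y i = (-1 : ℝ) • y k := by
      rw [neg_one_smul]; exact eq_neg_of_add_eq_zero_left h0
    rw [this]; exact cr_self_smul _ _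

theorem ae_disj (y : ι → R3) (h : Npb y) (i k : ι) (hik : i ≠ k) :
    AEDisjoint volume (co y i) (co y k) := by
  obtain ⟨h1, h2⟩ := ne_pm y h i k hik
  have n1 := CTV.null_plane (y i - y k) 0 (Or.inl h1)
  have n2 := CTV.null_plane (y i + y k) 0 (Or.inl h2)
  refine measure_mono_null ?_ (measure_union_null n1 n2)
  rintro x ⟨hx, hx'⟩
  have e := le_antisymm (hx.2 k) (hx'.2 i)
  have d1 : dt (y i - y k) x = dt (y i) x - dt (y k) x := by
    simp only [dt, Pi.sub_apply]; ring
  have d2 : dt (y i + y k) x = dt (y i) x + dt (y k) x := by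
    simp only [dt, Pi.add_apply]; ring
  rcases abs_eq_abs.mp e with e | e
  · left
    change dt (y i - y k) x = 0
    rw [d1, e, sub_self]
  · right
    change dt (y i + y k) x = 0
    rw [d2, e]; ring

theorem iUnion_co [Finite ι] [Nonempty ι] (y : ι → R3) : (⋃ i, co y i) = KK y := by
  ext x
  simp only [mem_iUnion]
  constructor
  · rintro ⟨i, hi⟩; exact hi.1
  · intro hx
    obtain ⟨i, hi⟩ := Finite.exists_max (fun l => |dt (y l) x|)
    exact ⟨i, hx, hi⟩

theorem sum_mu [Fintype ι] [Nonempty ι] (y : ι → R3) (h : Npb y) : ∑ i, mu y i = vo y := by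
  obtain ⟨R, hR⟩ := h.bd
  have hfin : volume (KK y) ≠ ⊤ := (compact_KK y R hR).measure_lt_top.ne
  have h1 : volume (⋃ i, co y i) = ∑ i, volume (co y i) := by
    rw [measure_iUnion₀ (fun i k hik => ae_disj y h i k hik)
      (fun i => (CTV.closed_co y i).measurableSet.nullMeasurableSet), tsum_fintype]
  rw [iUnion_co] at h1
  unfold vo mu
  rw [h1, ENNReal.toReal_sum]
  intro i _
  exact ne_top_of_le_ne_top hfin (measure_mono fun x hx => hx.1)

theorem card_three [Fintype ι] (y : ι → R3) (R : ℝ) (hR : ∀ x ∈ KK y, ∀ k, |x k| ≤ R) :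
    3 ≤ Fintype.card ι := by
  by_contra hcon
  push Not at hcon
  let f : R3 →ₗ[ℝ] (ι → ℝ) := LinearMap.pi fun i => CTV.dl (y i)
  have hk : LinearMap.ker f ≠ ⊥ := by
    apply LinearMap.ker_ne_bot_of_finrank_lt
    rw [Module.finrank_fintype_fun_eq_card, Module.finrank_fin_fun]
    exact hcon
  obtain ⟨x, hx, hx0⟩ := Submodule.exists_mem_ne_zero_of_ne_bot hk
  have hd : ∀ i, dt (y i) x = 0 := fun i => congrFun (LinearMap.mem_ker.mp hx) i
  obtain ⟨k, hk⟩ : ∃ k, x k ≠ 0 := by
    by_contra hcon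
    push Not at hcon
    exact hx0 (funext hcon)
  have h1 := hR (((R + 1) / x k) • x) (by
    intro i
    rw [CTV.dt_smul, hd i, mul_zero, abs_zero]; norm_num) k
  rw [Pi.smul_apply, smul_eq_mul, div_mul_cancel₀ _ hk] at h1
  have := le_abs_self (R + 1)
  linarith

theorem Lam_symm (y : ι → R3) (i k : ι) (s : ℝ) (hs : s = 1 ∨ s = -1) :
    Lam y k i 1 s (fun _ => (1 : ℝ)) = Lam y i k 1 s (fun _ => (1 : ℝ)) := by
  rcases hs with rfl | rfl
  · have hs : {c : ℝ | ∀ m, m ≠ k → m ≠ i →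
        |dt (y m) (pt y k i 1 1) + c * de (y k) (y i) (y m)| ≤ (fun _ : ι => (1 : ℝ)) m} =
        Neg.neg ⁻¹' {c : ℝ | ∀ m, m ≠ i → m ≠ k →
        |dt (y m) (pt y i k 1 1) + c * de (y i) (y k) (y m)| ≤ (fun _ : ι => (1 : ℝ)) m} := by
      ext c
      simp only [mem_ofPred_eq, mem_preimage]
      constructor
      · intro hc m h1 h2
        have := hc m h2 h1
        rw [Pool.T3.LAMC_.pt_symm, Pool.T3.LAMC_.de_anti] at this
        rwa [neg_mul, ← mul_neg]
      · intro hc m h1 h2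
        have := hc m h2 h1
        rw [Pool.T3.LAMC_.pt_symm, Pool.T3.LAMC_.de_anti]
        rwa [mul_neg, ← neg_mul]
    unfold Lam
    rw [hs, Measure.measure_preimage_neg]
  · have hs : {c : ℝ | ∀ m, m ≠ k → m ≠ i →
        |dt (y m) (pt y k i 1 (-1)) + c * de (y k) (y i) (y m)| ≤ (fun _ : ι => (1 : ℝ)) m} =
        {c : ℝ | ∀ m, m ≠ i → m ≠ k →
        |dt (y m) (pt y i k 1 (-1)) + c * de (y i) (y k) (y m)| ≤ (fun _ : ι => (1 : ℝ)) m} := by
      ext c
      simp only [mem_ofPred_eq]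
      have e : ∀ m, |dt (y m) (pt y k i 1 (-1)) + c * de (y k) (y i) (y m)| =
          |dt (y m) (pt y i k 1 (-1)) + c * de (y i) (y k) (y m)| := by
        intro m
        have e1 : pt y k i 1 (-1) = -pt y i k 1 (-1) := by
          rw [Pool.T3.LAMC_.pt_symm, ← Pool.T3.LAMC_.pt_neg, neg_neg]
        rw [e1, Pool.T3.LAMC_.dt_neg_right, Pool.T3.LAMC_.de_anti, ← abs_neg]
        congr 1
        ring
      constructor
      · intro hc m h1 h2
        have := hc m h2 h1
        rwa [e m] at this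
      · intro hc m h1 h2
        have := hc m h2 h1
        rwa [e m]
    unfold Lam
    rw [hs]

end BAS

open BAS in
theorem blk_BAS : Stmt_BAS := by
  intro ι _ y h hne
  obtain ⟨R, hR⟩ := h.bd
  have hc := compact_KK y R hR
  refine ⟨?_, sum_mu y h, fun i => ENNReal.toReal_nonneg, ?_, ?_, card_three y R hR,
    (CTV.closed_KK y).measurableSet, hc, convex_KK y⟩
  · exact ENNReal.toReal_pos (vol_pos y).ne' hc.measure_lt_top.ne
  · intro i k
    unfold cc Pool.T3.Lam
    have h1 := fun s : Set ℝ => (ENNReal.toReal_nonneg : 0 ≤ (volume s).toReal)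
    have := h1 {c : ℝ | ∀ m, m ≠ i → m ≠ k →
      |Pool.T3.dt (y m) (Pool.T3.pt y i k 1 1) + c * Pool.T3.de (y i) (y k) (y m)| ≤ 1}
    have h2 := h1 {c : ℝ | ∀ m, m ≠ i → m ≠ k →
      |Pool.T3.dt (y m) (Pool.T3.pt y i k 1 (-1)) + c * Pool.T3.de (y i) (y k) (y m)| ≤ 1}
    positivity
  · intro i k _
    unfold cc
    rw [Lam_symm y i k 1 (Or.inl rfl), Lam_symm y i k (-1) (Or.inr rfl)]

end Pool.G1
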