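import Pool.Agent.Work.MP_b5407d_g1.Interface

/-!
# GDI: the local inequality at good families

Both sides of `(2 + c) Qm y w ≤ En y w` are continuous at a good family (`CTV`, `CTL`), and admissible families
are dense (`DEN`).
-/

set_option autoImplicit false

open MeasureTheory Set Filter Topology

namespace Pool.G1

open Pool.T3 (R3 dt cr de)

/-- a good family is nonempty -/
theorem good_nonempty {ι : Type} {y : ι → R3} (hy : Npb y) : Nonempty ι := by
  by_contra hne
  rw [not_nonempty_iff] at hne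
  obtain ⟨R, hR⟩ := hy.bd
  have h1 : (fun _ => |R| + 1 : R3) ∈ KK y := by
    show ∀ i, |dt (y i) (fun _ => |R| + 1)| ≤ 1
    intro i
    exact (hne.false i).elim
  have h2 := hR _ h1 0
  have h3 : |(|R| + 1)| = |R| + 1 := abs_of_nonneg (by positivity)
  rw [h3] at h2
  have := le_abs_self R
  linarith

/-- `Qm` is continuous at a good family -/
theorem continuousAt_Qm (hCTV : Stmt_CTV) (hBAS : Stmt_BAS) {ι : Type} [Fintype ι] {y : ι → R3}
    (hy : Npb y) (w : ι → ℝ) : ContinuousAt (fun y => Qm y w) y := by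
  have hne := good_nonempty hy
  have hv : ContinuousAt (vo : (ι → R3) → ℝ) y := (hCTV.1 ι y hy.bd).1
  have hm : ∀ i, ContinuousAt (fun y => mu y i) y := hCTV.2 ι y hy
  have hpos : 0 < vo y := (hBAS ι y hy hne).1
  unfold Qm
  refine ContinuousAt.mul continuousAt_const (ContinuousAt.sub ?_ (ContinuousAt.div ?_ hv hpos.ne'))
  · exact tendsto_finsetSum _ fun i _ => (hm i).mul continuousAt_const
  · exact (tendsto_finsetSum _ fun i _ => (hm i).mul continuousAt_const).pow 2

/-- `En` is continuous at a good family -/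
theorem continuousAt_En (hCTL : Stmt_CTL) {ι : Type} [Fintype ι] {y : ι → R3}
    (hy : Good y) (w : ι → ℝ) : ContinuousAt (fun y => En y w) y := by
  unfold En
  refine ContinuousAt.mul continuousAt_const ?_
  refine tendsto_finsetSum _ fun i _ => tendsto_finsetSum _ fun k _ => ?_
  by_cases hik : i = k
  · subst hik
    simp
  · exact (hCTL ι y hy i k hik).mul continuousAt_const

/-- admissible families accumulate at every family of at least three vectors -/
theorem frequently_FamG (hDEN : Stmt_DEN) {ι : Type} [Fintype ι] (h3 : 3 ≤ Fintype.card ι)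
    (y : ι → R3) : ∃ᶠ y' in 𝓝 y, FamG y' := by
  rw [Metric.nhds_basis_ball.frequently_iff]
  intro η hη
  obtain ⟨y', hF, hy'⟩ := hDEN ι h3 y η hη
  refine ⟨y', ?_, hF⟩
  rw [Metric.mem_ball, dist_pi_lt_iff hη]
  intro i
  rw [dist_pi_lt_iff hη]
  intro k
  rw [Real.dist_eq]
  exact hy' i k

theorem blk_GDI (hDEN : Stmt_DEN) (hCTV : Stmt_CTV) (hCTL : Stmt_CTL) (hBAS : Stmt_BAS) :
    Stmt_GDI := by
  intro N c hLI ι _ _ hN y hy w
  have hne := good_nonempty hy.toNpb
  have h3 : 3 ≤ Fintype.card ι := (hBAS ι y hy.toNpb hne).2.2.2.2.2.1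
  by_contra hlt
  rw [not_le] at hlt
  have hQ := (continuousAt_Qm hCTV hBAS hy.toNpb w).const_mul (2 + c)
  have hE := continuousAt_En hCTL hy w
  have hev : ∀ᶠ y' in 𝓝 y, En y' w < (2 + c) * Qm y' w := hE.eventually_lt hQ hlt
  obtain ⟨y', hF, hlt'⟩ := ((frequently_FamG hDEN h3 y).and_eventually hev).exists
  exact absurd (hLI ι hN y' hF w) (not_le.mpr hlt')

end Pool.G1
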