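import Pool.Agent.Work.MP_b5407d_g1.Interface
import Pool.Agent.Work.MP_b5407d_g1.GDI

/-!
# G1, block `C2G` (helper34): second order expansion of the volume at a good family

Near a good family the second derivative of `DER` is close to its value; Taylor's formula (two mean value
estimates) for admissible families near `y`, then the limit (`DEN`, `CTV`).
-/

set_option autoImplicit false

open MeasureTheory Set Filter Topology

namespace Pool.G1

open Pool.T3 (R3 dt cr de)

namespace C2G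

/-- Taylor estimate of second order -/
theorem taylor (f g g' : ℝ → ℝ) (A η s0 : ℝ) (hη : 0 ≤ η)
    (hf : ∀ σ, |σ| < s0 → HasDerivAt f (g σ) σ)
    (hg : ∀ σ, |σ| < s0 → HasDerivAt g (g' σ) σ)
    (hb : ∀ σ, |σ| < s0 → |g' σ - A| ≤ η) (s : ℝ) (hs : |s| < s0) :
    |f s - f 0 - s * g 0 - s ^ 2 / 2 * A| ≤ η * s ^ 2 := by
  have h0 : |(0 : ℝ)| < s0 := by
    rw [abs_zero]
    exact lt_of_le_of_lt (abs_nonneg s) hs
  -- first step
  have step1 : ∀ σ, |σ| < s0 → |g σ - g 0 - A * σ| ≤ η * |σ| := by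
    intro σ hσ
    have hd : ∀ x ∈ Ioo (-s0) s0, HasDerivWithinAt (fun x => g x - A * x) (g' x - A) (Ioo (-s0) s0) x := by
      intro x hx
      have h1 := hg x (abs_lt.mpr hx)
      have h2 : HasDerivAt (fun x : ℝ => A * x) A x := by
        have := (hasDerivAt_id x).const_mul A
        simpa using this
      exact (h1.sub h2).hasDerivWithinAt
    have hbd : ∀ x ∈ Ioo (-s0) s0, ‖g' x - A‖ ≤ η := by
      intro x hx
      rw [Real.norm_eq_abs]
      exact hb x (abs_lt.mpr hx)
    have h := Convex.norm_image_sub_le_of_norm_hasDerivWithin_le hd hbd (convex_Ioo _ _)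
      (abs_lt.mp h0) (abs_lt.mp hσ)
    rw [Real.norm_eq_abs, Real.norm_eq_abs, sub_zero] at h
    have e : g σ - A * σ - (g 0 - A * 0) = g σ - g 0 - A * σ := by ring
    rw [e] at h
    exact h
  -- second step
  have hle : ∀ x ∈ uIcc 0 s, |x| ≤ |s| := by
    intro x hx
    have := abs_sub_left_of_mem_uIcc hx
    simpa using this
  have hd : ∀ x ∈ uIcc 0 s, HasDerivWithinAt (fun x => f x - x * g 0 - x ^ 2 / 2 * A)
      (g x - g 0 - A * x) (uIcc 0 s) x := by
    intro x hx
    have hxs : |x| < s0 := lt_of_le_of_lt (hle x hx) hs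
    have h1 := hf x hxs
    have h2 : HasDerivAt (fun x : ℝ => x * g 0) (g 0) x := by
      have := (hasDerivAt_id x).mul_const (g 0)
      simpa using this
    have h3 : HasDerivAt (fun x : ℝ => x ^ 2 / 2 * A) (A * x) x := by
      have := ((hasDerivAt_pow 2 x).div_const 2).mul_const A
      have e : ((2 : ℕ) : ℝ) * x ^ (2 - 1) / 2 * A = A * x := by
        norm_num
        ring
      rw [e] at this
      exact this
    exact ((h1.sub h2).sub h3).hasDerivWithinAt
  have hbd : ∀ x ∈ uIcc 0 s, ‖g x - g 0 - A * x‖ ≤ η * |s| := by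
    intro x hx
    rw [Real.norm_eq_abs]
    exact (step1 x (lt_of_le_of_lt (hle x hx) hs)).trans
      (mul_le_mul_of_nonneg_left (hle x hx) hη)
  have h := Convex.norm_image_sub_le_of_norm_hasDerivWithin_le hd hbd (convex_uIcc _ _)
    left_mem_uIcc right_mem_uIcc
  rw [Real.norm_eq_abs, Real.norm_eq_abs, sub_zero] at h
  have e1 : f s - s * g 0 - s ^ 2 / 2 * A - (f 0 - 0 * g 0 - 0 ^ 2 / 2 * A) =
      f s - f 0 - s * g 0 - s ^ 2 / 2 * A := by ring
  have e2 : η * |s| * |s| = η * s ^ 2 := by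
    rw [mul_assoc, ← sq, sq_abs]
  rw [e1, e2] at h
  exact h

theorem dv_one {ι : Type} (y : ι → R3) (z : ι → ℝ) : dv y (fun i => 1 + 0 * z i) = y := by
  funext i
  simp [dv]

/-- the family along the path, jointly continuous -/
theorem cont_path {ι : Type} (y : ι → R3) (z : ι → ℝ) :
    ContinuousAt (fun p : (ι → R3) × ℝ => dv p.1 (fun i => 1 + p.2 * z i)) (y, 0) := by
  rw [continuousAt_pi]
  intro i
  unfold dv
  have h1 : ContinuousAt (fun p : (ι → R3) × ℝ => 1 / (1 + p.2 * z i)) (y, 0) := by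
    refine ContinuousAt.div continuousAt_const ?_ ?_
    · exact (continuous_const.add (continuous_snd.mul continuous_const)).continuousAt
    · simp
  have h2 : ContinuousAt (fun p : (ι → R3) × ℝ => p.1 i) (y, 0) :=
    ((continuous_apply i).comp continuous_fst).continuousAt
  exact h1.smul h2

theorem cont_zeta {ι : Type} (y : ι → R3) (z : ι → ℝ) (i : ι) :
    ContinuousAt (fun p : (ι → R3) × ℝ => z i / (1 + p.2 * z i)) (y, 0) := by
  refine ContinuousAt.div continuousAt_const ?_ ?_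
  · exact (continuous_const.add (continuous_snd.mul continuous_const)).continuousAt
  · simp

/-- the path at a fixed parameter is continuous in the family -/
theorem cont_dv {ι : Type} (a : ι → ℝ) : Continuous (fun y : ι → R3 => dv y a) := by
  rw [continuous_pi_iff]
  intro i
  unfold dv
  exact (continuous_apply i).const_smul (1 / a i)

/-- second derivative along the path -/
theorem cont_G (hCTV : Stmt_CTV) (hCTL : Stmt_CTL) {ι : Type} [Fintype ι] {y : ι → R3}
    (hy : Good y) (z : ι → ℝ) :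
    ContinuousAt (fun p : (ι → R3) × ℝ =>
      6 * (∑ i, mu (dv p.1 (fun i => 1 + p.2 * z i)) i * (z i / (1 + p.2 * z i)) ^ 2) -
        En (dv p.1 (fun i => 1 + p.2 * z i)) (fun i => z i / (1 + p.2 * z i))) (y, 0) := by
  have hP := cont_path y z
  have hone : (fun p : (ι → R3) × ℝ => dv p.1 (fun i => 1 + p.2 * z i)) (y, 0) = y := dv_one y z
  have hm : ∀ i, ContinuousAt
      (fun p : (ι → R3) × ℝ => mu (dv p.1 (fun i => 1 + p.2 * z i)) i) (y, 0) := by
    intro i
    have h1 : ContinuousAt (fun y => mu y i)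
        ((fun p : (ι → R3) × ℝ => dv p.1 (fun i => 1 + p.2 * z i)) (y, 0)) := by
      rw [hone]
      exact hCTV.2 ι y hy.toNpb i
    exact ContinuousAt.comp (f := fun p : (ι → R3) × ℝ => dv p.1 (fun i => 1 + p.2 * z i)) h1 hP
  have hc : ∀ i k, i ≠ k → ContinuousAt
      (fun p : (ι → R3) × ℝ => cc (dv p.1 (fun i => 1 + p.2 * z i)) i k) (y, 0) := by
    intro i k hik
    have h1 : ContinuousAt (fun y => cc y i k)
        ((fun p : (ι → R3) × ℝ => dv p.1 (fun i => 1 + p.2 * z i)) (y, 0)) := by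
      rw [hone]
      exact hCTL ι y hy i k hik
    exact ContinuousAt.comp (f := fun p : (ι → R3) × ℝ => dv p.1 (fun i => 1 + p.2 * z i)) h1 hP
  unfold En
  refine ContinuousAt.sub (ContinuousAt.mul continuousAt_const ?_)
    (ContinuousAt.mul continuousAt_const ?_)
  · exact tendsto_finsetSum _ fun i _ => (hm i).mul ((cont_zeta y z i).pow 2)
  · refine tendsto_finsetSum _ fun i _ => tendsto_finsetSum _ fun k _ => ?_
    by_cases hik : i = k
    · subst hik
      simp
    · exact (hc i k hik).mul (((cont_zeta y z i).sub (cont_zeta y z k)).pow 2)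

end C2G

/-- block `C2G` -/
theorem blk_C2G (hDER : Stmt_DER) (hDEN : Stmt_DEN) (hCTV : Stmt_CTV) (hCTL : Stmt_CTL)
    (hBAS : Stmt_BAS) : Stmt_C2G := by
  intro ι _ _ y hy z η hη
  have hne := good_nonempty hy.toNpb
  have h3 : 3 ≤ Fintype.card ι := (hBAS ι y hy.toNpb hne).2.2.2.2.2.1
  set A : ℝ := 6 * (∑ i, mu y i * z i ^ 2) - En y z with hA
  obtain ⟨R, hR⟩ := (hCTV.1 ι y hy.bd).2
  -- events near `(y, 0)`
  have hP := C2G.cont_path y z
  have hone : (fun p : (ι → R3) × ℝ => dv p.1 (fun i => 1 + p.2 * z i)) (y, 0) = y :=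
    C2G.dv_one y z
  have e1 : ∀ᶠ p : (ι → R3) × ℝ in 𝓝 (y, 0), ∀ x ∈ KK (dv p.1 (fun i => 1 + p.2 * z i)),
      ∀ k, |x k| ≤ R := by
    have hP' : Tendsto (fun p : (ι → R3) × ℝ => dv p.1 (fun i => 1 + p.2 * z i)) (𝓝 (y, 0))
        (𝓝 ((fun p : (ι → R3) × ℝ => dv p.1 (fun i => 1 + p.2 * z i)) (y, 0))) := hP
    rw [hone] at hP'
    exact hP'.eventually hR
  have e2 : ∀ᶠ p : (ι → R3) × ℝ in 𝓝 (y, 0), ∀ i, 0 < 1 + p.2 * z i := by
    rw [eventually_all]
    intro i
    have hc : ContinuousAt (fun p : (ι → R3) × ℝ => 1 + p.2 * z i) (y, 0) :=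
      (continuous_const.add (continuous_snd.mul continuous_const)).continuousAt
    have h1 : (0 : ℝ) < (fun p : (ι → R3) × ℝ => 1 + p.2 * z i) (y, 0) := by simp
    exact hc.eventually (lt_mem_nhds h1)
  have e3 : ∀ᶠ p : (ι → R3) × ℝ in 𝓝 (y, 0),
      |(6 * (∑ i, mu (dv p.1 (fun i => 1 + p.2 * z i)) i * (z i / (1 + p.2 * z i)) ^ 2) -
        En (dv p.1 (fun i => 1 + p.2 * z i)) (fun i => z i / (1 + p.2 * z i))) - A| ≤ η := by
    have hG := C2G.cont_G hCTV hCTL hy z
    have hval : (fun p : (ι → R3) × ℝ =>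
      6 * (∑ i, mu (dv p.1 (fun i => 1 + p.2 * z i)) i * (z i / (1 + p.2 * z i)) ^ 2) -
        En (dv p.1 (fun i => 1 + p.2 * z i)) (fun i => z i / (1 + p.2 * z i))) (y, 0) = A := by
      have ez : (fun i => z i / (1 + 0 * z i)) = z := by
        funext i
        simp
      show 6 * (∑ i, mu (dv y (fun i => 1 + 0 * z i)) i * (z i / (1 + 0 * z i)) ^ 2) -
        En (dv y (fun i => 1 + 0 * z i)) (fun i => z i / (1 + 0 * z i)) = A
      rw [C2G.dv_one, ez, hA]
      simp
    have h1 : Tendsto (fun p : (ι → R3) × ℝ =>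
      6 * (∑ i, mu (dv p.1 (fun i => 1 + p.2 * z i)) i * (z i / (1 + p.2 * z i)) ^ 2) -
        En (dv p.1 (fun i => 1 + p.2 * z i)) (fun i => z i / (1 + p.2 * z i))) (𝓝 (y, 0))
        (𝓝 ((fun p : (ι → R3) × ℝ =>
      6 * (∑ i, mu (dv p.1 (fun i => 1 + p.2 * z i)) i * (z i / (1 + p.2 * z i)) ^ 2) -
        En (dv p.1 (fun i => 1 + p.2 * z i)) (fun i => z i / (1 + p.2 * z i))) (y, 0))) := hG
    rw [hval] at h1
    have h2 := h1.eventually (Metric.closedBall_mem_nhds A hη)
    filter_upwards [h2] with p hp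
    rw [Real.dist_eq] at hp
    exact hp
  have e := (e1.and (e2.and e3))
  rw [nhds_prod_eq, eventually_prod_iff] at e
  obtain ⟨pa, hpa, pb, hpb, hpp⟩ := e
  obtain ⟨s0, hs0, hball⟩ := Metric.eventually_nhds_iff.mp hpb
  have hb : ∀ σ : ℝ, |σ| < s0 → pb σ := by
    intro σ hσ
    apply hball
    rw [Real.dist_eq, sub_zero]
    exact hσ
  have hball' : ∀ᶠ s : ℝ in 𝓝 0, |s| < s0 := by
    filter_upwards [Metric.ball_mem_nhds (0 : ℝ) hs0] with s hs
    rw [Metric.mem_ball, Real.dist_eq, sub_zero] at hs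
    exact hs
  filter_upwards [hball'] with s hs
  -- Taylor for admissible families
  have hT : ∀ y' : ι → R3, FamG y' → pa y' →
      |vo (dv y' (fun i => 1 + s * z i)) - vo y' - 3 * s * (∑ i, mu y' i * z i) -
        s ^ 2 / 2 * A| ≤ η * s ^ 2 := by
    intro y' hF hpy
    have h := C2G.taylor (fun σ => vo (dv y' (fun i => 1 + σ * z i)))
      (fun σ => 3 * ∑ i, mu (dv y' (fun i => 1 + σ * z i)) i * (z i / (1 + σ * z i)))
      (fun σ => 6 * (∑ i, mu (dv y' (fun i => 1 + σ * z i)) i * (z i / (1 + σ * z i)) ^ 2) -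
        En (dv y' (fun i => 1 + σ * z i)) (fun i => z i / (1 + σ * z i))) A η s0 hη.le
      (fun σ hσ => (hDER ι y' hF z σ (hpp hpy (hb σ hσ)).2.1).1)
      (fun σ hσ => (hDER ι y' hF z σ (hpp hpy (hb σ hσ)).2.1).2)
      (fun σ hσ => (hpp hpy (hb σ hσ)).2.2) s hs
    have ez : ∀ i, z i / (1 + 0 * z i) = z i := by
      intro i
      simp
    have h' : |vo (dv y' (fun i => 1 + s * z i)) - vo (dv y' (fun i => 1 + 0 * z i)) -
        s * (3 * ∑ i, mu (dv y' (fun i => 1 + 0 * z i)) i * (z i / (1 + 0 * z i))) -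
        s ^ 2 / 2 * A| ≤ η * s ^ 2 := h
    rw [C2G.dv_one] at h'
    simp only [ez] at h'
    have e4 : vo (dv y' (fun i => 1 + s * z i)) - vo y' - 3 * s * (∑ i, mu y' i * z i) -
        s ^ 2 / 2 * A = vo (dv y' (fun i => 1 + s * z i)) - vo y' - s * (3 * ∑ i, mu y' i * z i) -
        s ^ 2 / 2 * A := by ring
    rw [e4]
    exact h'
  -- limit
  have hcont : ContinuousAt (fun y' : ι → R3 =>
      |vo (dv y' (fun i => 1 + s * z i)) - vo y' - 3 * s * (∑ i, mu y' i * z i) -
        s ^ 2 / 2 * A|) y := by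
    have hpy : pa y := hpa.self_of_nhds
    have hbd := (hpp hpy (hb s hs)).1
    have h1 : ContinuousAt vo (dv y (fun i => 1 + s * z i)) :=
      (hCTV.1 ι (dv y (fun i => 1 + s * z i)) ⟨R, hbd⟩).1
    have h2 : ContinuousAt (fun y' : ι → R3 => vo (dv y' (fun i => 1 + s * z i))) y :=
      ContinuousAt.comp (f := fun y' : ι → R3 => dv y' (fun i => 1 + s * z i)) h1
        (C2G.cont_dv (fun i => 1 + s * z i)).continuousAt
    have h4 : ContinuousAt (vo : (ι → R3) → ℝ) y := (hCTV.1 ι y hy.bd).1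
    have h5 : ContinuousAt (fun y' : ι → R3 => ∑ i, mu y' i * z i) y :=
      tendsto_finsetSum _ fun i _ => (hCTV.2 ι y hy.toNpb i).mul continuousAt_const
    exact ((((h2.sub h4).sub (continuousAt_const.mul h5)).sub continuousAt_const)).abs
  by_contra hcon
  rw [not_le] at hcon
  have hev := hcont.eventually (lt_mem_nhds hcon)
  obtain ⟨y', hF, hlt, hpa'⟩ := ((frequently_FamG hDEN h3 y).and_eventually (hev.and hpa)).exists
  exact absurd (hT y' hF hpa') (not_le.mpr hlt)

end Pool.G1
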