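import Pool.Agent.Work.MP_b5407d_g1.InterfaceF

/-!
# CRN: the corner cut is nearly convex in the levels

For fixed `u1 ≥ 0` the section of the cut is `[0, R(u1))`, `R(u1) = max_k ((x k - A k u1)/B k)^+`, convex and
Lipschitz in `x`; `Psi = ∫ ((c0 + c1 u1) R + c2 R²/2) du1` over a small interval.
-/

set_option autoImplicit false

open MeasureTheory Set Filter Topology

namespace Pool.G1

open Classical in
/-- height of the section of the corner cut -/
noncomputable def Rr {κ : Type} [Fintype κ] (T : κ → Prop) (A B x : κ → ℝ) (u : ℝ) : ℝ :=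
  (Finset.univ.filter T).fold max 0 (fun k => (x k - A k * u) / B k)

section
variable {κ : Type} [Fintype κ] {T : κ → Prop} {A B x : κ → ℝ} {u : ℝ}

theorem Rr_nonneg : 0 ≤ Rr T A B x u := by
  unfold Rr
  rw [Finset.le_fold_max]
  exact Or.inl le_rfl

theorem le_Rr {k : κ} (hk : T k) : (x k - A k * u) / B k ≤ Rr T A B x u := by
  unfold Rr
  rw [Finset.le_fold_max]
  exact Or.inr ⟨k, by simp [hk], le_rfl⟩

theorem Rr_le {c : ℝ} (hc : 0 ≤ c) (h : ∀ k, T k → (x k - A k * u) / B k ≤ c) :
    Rr T A B x u ≤ c := by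
  unfold Rr
  rw [Finset.fold_max_le]
  refine ⟨hc, fun k hk => h k ?_⟩
  simpa using hk

theorem lt_Rr {t : ℝ} (ht : 0 ≤ t) :
    t < Rr T A B x u ↔ ∃ k, T k ∧ t < (x k - A k * u) / B k := by
  unfold Rr
  rw [Finset.lt_fold_max]
  constructor
  · rintro (h | ⟨k, hk, h⟩)
    · exact absurd h (not_lt.mpr ht)
    · exact ⟨k, by simpa using hk, h⟩
  · rintro ⟨k, hk, h⟩
    exact Or.inr ⟨k, by simpa using hk, h⟩

end

theorem cont_Rr {κ : Type} [Fintype κ] (T : κ → Prop) (A B x : κ → ℝ) :
    Continuous (Rr T A B x) := by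
  classical
  unfold Rr
  generalize (Finset.univ.filter T) = s
  induction s using Finset.induction_on with
  | empty => simpa using continuous_const
  | insert a s ha ih =>
    simp only [Finset.fold_insert ha]
    exact Continuous.max (by fun_prop) ih

theorem Psi_eq {κ : Type} [Fintype κ] (T : κ → Prop) (A B x : κ → ℝ) (c0 c1 c2 : ℝ) {m L : ℝ}
    (hm : 0 < m) (hL : 0 ≤ L) (hA : ∀ k, T k → m ≤ A k) (hB : ∀ k, T k → m ≤ B k)
    (hx : ∀ k, T k → x k ≤ m * L) :
    Psi T A B x c0 c1 c2 =
      ∫ u in Icc 0 L, ((c0 + c1 * u) * Rr T A B x u + c2 / 2 * Rr T A B x u ^ 2) := by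
  unfold Psi
  set D : Set (ℝ × ℝ) := {u : ℝ × ℝ | 0 ≤ u.1 ∧ 0 ≤ u.2 ∧ ∃ k, T k ∧ A k * u.1 + B k * u.2 < x k}
    with hD
  have hDm : MeasurableSet D := by
    have h1 : D = ({u : ℝ × ℝ | 0 ≤ u.1} ∩ {u : ℝ × ℝ | 0 ≤ u.2}) ∩
        ⋃ k, {u : ℝ × ℝ | T k ∧ A k * u.1 + B k * u.2 < x k} := by
      ext u
      simp only [hD, mem_ofPred_eq, mem_inter_iff, mem_iUnion]
      tauto
    rw [h1]
    refine MeasurableSet.inter (MeasurableSet.inter ?_ ?_) (MeasurableSet.iUnion fun k => ?_)
    · exact measurableSet_le measurable_const measurable_fst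
    · exact measurableSet_le measurable_const measurable_snd
    · by_cases hk : T k
      · simp only [hk, true_and]
        exact measurableSet_lt (by fun_prop) measurable_const
      · simp [hk]
  have hsub : D ⊆ Icc 0 L ×ˢ Icc 0 L := by
    rintro ⟨u, v⟩ ⟨hu, hv, k, hk, hlt⟩
    simp only at hu hv hlt
    have h1 := hA k hk
    have h2 := hB k hk
    have h3 := hx k hk
    have h4 : m * u ≤ A k * u := mul_le_mul_of_nonneg_right h1 hu
    have h5 : m * v ≤ B k * v := mul_le_mul_of_nonneg_right h2 hv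
    have h6 : 0 ≤ m * u := by positivity
    have h7 : 0 ≤ m * v := by positivity
    refine ⟨⟨hu, ?_⟩, ⟨hv, ?_⟩⟩
    · exact le_of_mul_le_mul_left (by linarith) hm
    · exact le_of_mul_le_mul_left (by linarith) hm
  have hint : Integrable (D.indicator fun u : ℝ × ℝ => c0 + c1 * u.1 + c2 * u.2) := by
    rw [integrable_indicator_iff hDm]
    have hc : Continuous fun u : ℝ × ℝ => c0 + c1 * u.1 + c2 * u.2 := by fun_prop
    exact (hc.continuousOn.integrableOn_compact (isCompact_Icc.prod isCompact_Icc)).mono_set hsub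
  rw [← integral_indicator hDm]
  rw [Measure.volume_eq_prod] at hint ⊢
  rw [integral_prod _ hint, ← integral_indicator measurableSet_Icc]
  refine integral_congr_ae (Eventually.of_forall fun u => ?_)
  simp only
  by_cases hu : u ∈ Icc 0 L
  · rw [indicator_of_mem hu]
    have hR := Rr_nonneg (T := T) (A := A) (B := B) (x := x) (u := u)
    have h1 : (fun v => D.indicator (fun u : ℝ × ℝ => c0 + c1 * u.1 + c2 * u.2) (u, v)) =
        (Ico 0 (Rr T A B x u)).indicator fun v => (c0 + c1 * u) + c2 * v := by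
      funext v
      by_cases hv : v ∈ Ico 0 (Rr T A B x u)
      · have hmem : (u, v) ∈ D := by
          obtain ⟨k, hk, hlt⟩ := (lt_Rr hv.1).1 hv.2
          have hBk : 0 < B k := lt_of_lt_of_le hm (hB k hk)
          rw [lt_div_iff₀ hBk] at hlt
          refine ⟨hu.1, hv.1, k, hk, ?_⟩
          simp only
          linarith [mul_comm v (B k)]
        rw [indicator_of_mem hmem, indicator_of_mem hv]
      · have hmem : (u, v) ∉ D := by
          rintro ⟨_, hv0, k, hk, hlt⟩
          simp only at hv0 hlt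
          apply hv
          have hBk : 0 < B k := lt_of_lt_of_le hm (hB k hk)
          refine ⟨hv0, (lt_Rr hv0).2 ⟨k, hk, ?_⟩⟩
          rw [lt_div_iff₀ hBk]
          linarith [mul_comm v (B k)]
        rw [indicator_of_notMem hmem, indicator_of_notMem hv]
    rw [h1, integral_indicator measurableSet_Ico, integral_Ico_eq_integral_Ioc,
      ← intervalIntegral.integral_of_le hR]
    have ha : IntervalIntegrable (fun _ : ℝ => c0 + c1 * u) volume 0 (Rr T A B x u) :=
      intervalIntegrable_const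
    have hb : IntervalIntegrable (fun v : ℝ => c2 * v) volume 0 (Rr T A B x u) :=
      (by fun_prop : Continuous fun v : ℝ => c2 * v).intervalIntegrable _ _
    rw [intervalIntegral.integral_add ha hb, intervalIntegral.integral_const,
      intervalIntegral.integral_const_mul, integral_id]
    simp only [smul_eq_mul]
    ring
  · rw [indicator_of_notMem hu]
    have h1 : (fun v => D.indicator (fun u : ℝ × ℝ => c0 + c1 * u.1 + c2 * u.2) (u, v)) =
        fun _ => (0 : ℝ) := by
      funext v
      apply indicator_of_notMem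
      intro hmem
      exact hu (hsub hmem).1
    rw [h1]
    simp

theorem int_split {S : Set ℝ} (f g h : ℝ → ℝ) (hf : IntegrableOn f S) (hg : IntegrableOn g S)
    (hh : IntegrableOn h S) : ∫ u in S, (f u + g u - 2 * h u) =
      (∫ u in S, f u) + (∫ u in S, g u) - 2 * (∫ u in S, h u) := by
  have h1 : ∫ u in S, ((f + g) u - (fun u => 2 * h u) u) =
      (∫ u in S, (f + g) u) - ∫ u in S, 2 * h u := integral_sub (hf.add hg) (hh.const_mul 2)
  have h2 : ∫ u in S, (f + g) u = (∫ u in S, f u) + ∫ u in S, g u := integral_add hf hg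
  rw [h2, integral_const_mul] at h1
  exact h1

theorem blk_CRN : Stmt_CRN := by
  intro κ _ T m X η hm hX hη
  set K : ℝ := 2 * X ^ 2 / m + X ^ 3 / m ^ 2 with hK
  set K1 : ℝ := 3 * X ^ 2 / m + X with hK1
  have hK0 : 0 < K := by positivity
  have hK10 : 0 < K1 := by positivity
  set L : ℝ := min 1 (min (m / (2 * X)) (η / (K + K1))) with hLdef
  have hL0 : 0 < L := by
    rw [hLdef]
    exact lt_min one_pos (lt_min (by positivity) (by positivity))
  have hL1 : L ≤ 1 := min_le_left _ _
  have hL2 : 2 * X * L ≤ m := by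
    have h1 : L ≤ m / (2 * X) := (min_le_right _ _).trans (min_le_left _ _)
    rw [le_div_iff₀ (by positivity)] at h1
    linarith
  have hL3 : (K + K1) * L ≤ η := by
    have h1 : L ≤ η / (K + K1) := (min_le_right _ _).trans (min_le_right _ _)
    rw [le_div_iff₀ (by positivity)] at h1
    linarith
  refine ⟨m * L / (1 + X), by positivity, ?_⟩
  intro A B x x' c0 c0' c1 c2 s hk hc0 hc0X hc0' hc1 hc2 hs
  set ρ : ℝ := m * L / (1 + X) with hρ
  have hρ1 : ρ * (1 + X) = m * L := by
    rw [hρ]
    field_simp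
  have hA : ∀ k, T k → m ≤ A k := fun k h => (hk k h).1
  have hB : ∀ k, T k → m ≤ B k := fun k h => (hk k h).2.1
  have hsx : ∀ k, T k → |s * x' k| ≤ ρ * X := by
    intro k h
    rw [abs_mul]
    exact mul_le_mul hs (hk k h).2.2.2 (abs_nonneg _) ((abs_nonneg _).trans hs)
  have hx0 : ∀ k, T k → x k ≤ m * L := by
    intro k h
    have h1 := (abs_le.1 (hk k h).2.2.1).2
    have h2 := (abs_nonneg _).trans (hsx k h)
    nlinarith
  have hxp : ∀ k, T k → x k + s * x' k ≤ m * L := by
    intro k h
    have h1 := (abs_le.1 (hk k h).2.2.1).2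
    have h2 := (abs_le.1 (hsx k h)).2
    nlinarith
  have hxm : ∀ k, T k → x k - s * x' k ≤ m * L := by
    intro k h
    have h1 := (abs_le.1 (hk k h).2.2.1).2
    have h2 := (abs_le.1 (hsx k h)).1
    nlinarith
  rw [Psi_eq T A B (fun k => x k + s * x' k) (c0 + s * c0') c1 c2 hm hL0.le hA hB hxp,
    Psi_eq T A B (fun k => x k - s * x' k) (c0 - s * c0') c1 c2 hm hL0.le hA hB hxm,
    Psi_eq T A B x c0 c1 c2 hm hL0.le hA hB hx0]
  set Rp : ℝ → ℝ := Rr T A B (fun k => x k + s * x' k) with hRp
  set Rm : ℝ → ℝ := Rr T A B (fun k => x k - s * x' k) with hRm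
  set R0 : ℝ → ℝ := Rr T A B x with hR0
  have cp : Continuous Rp := cont_Rr _ _ _ _
  have cm : Continuous Rm := cont_Rr _ _ _ _
  have c0c : Continuous R0 := cont_Rr _ _ _ _
  -- pointwise facts
  have hle : ∀ (z : κ → ℝ), (∀ k, T k → z k ≤ m * L) → ∀ u ∈ Icc 0 L, Rr T A B z u ≤ L := by
    intro z hz u hu
    refine Rr_le hL0.le fun k h => ?_
    have hBk : 0 < B k := lt_of_lt_of_le hm (hB k h)
    have hAk : 0 < A k := lt_of_lt_of_le hm (hA k h)
    rw [div_le_iff₀ hBk]
    have h1 := hz k h
    have h2 : m * L ≤ B k * L := mul_le_mul_of_nonneg_right (hB k h) hL0.le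
    have h3 : 0 ≤ A k * u := mul_nonneg hAk.le hu.1
    linarith [mul_comm L (B k)]
  have hlip : ∀ (z z' : κ → ℝ), (∀ k, T k → |z k - z' k| ≤ |s| * X) → ∀ u,
      Rr T A B z u ≤ Rr T A B z' u + |s| * X / m := by
    intro z z' hz u
    have hR := Rr_nonneg (T := T) (A := A) (B := B) (x := z') (u := u)
    refine Rr_le (by positivity) fun k h => ?_
    have hBk : 0 < B k := lt_of_lt_of_le hm (hB k h)
    have h1 : (z k - A k * u) / B k = (z' k - A k * u) / B k + (z k - z' k) / B k := by
      rw [← add_div]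
      congr 1
      ring
    have h2 : (z k - z' k) / B k ≤ |s| * X / m := by
      have h3 : (z k - z' k) / B k ≤ |s| * X / B k :=
        div_le_div_of_nonneg_right ((le_abs_self _).trans (hz k h)) hBk.le
      have h4 : |s| * X / B k ≤ |s| * X / m :=
        div_le_div_of_nonneg_left (by positivity) hm (hB k h)
      exact h3.trans h4
    rw [h1]
    exact add_le_add (le_Rr h) h2
  have hsX : ∀ k, T k → |s * x' k| ≤ |s| * X := by
    intro k h
    rw [abs_mul]
    exact mul_le_mul_of_nonneg_left (hk k h).2.2.2 (abs_nonneg _)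
  have hap : ∀ u, |Rp u - R0 u| ≤ |s| * X / m := by
    intro u
    rw [abs_le]
    constructor
    · have := hlip x (fun k => x k + s * x' k) (fun k h => by
        rw [show x k - (x k + s * x' k) = -(s * x' k) by ring, abs_neg]
        exact hsX k h) u
      linarith
    · have := hlip (fun k => x k + s * x' k) x (fun k h => by
        rw [show x k + s * x' k - x k = s * x' k by ring]
        exact hsX k h) u
      linarith
  have ham : ∀ u, |Rm u - R0 u| ≤ |s| * X / m := by
    intro u
    rw [abs_le]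
    constructor
    · have := hlip x (fun k => x k - s * x' k) (fun k h => by
        rw [show x k - (x k - s * x' k) = s * x' k by ring]
        exact hsX k h) u
      linarith
    · have := hlip (fun k => x k - s * x' k) x (fun k h => by
        rw [show x k - s * x' k - x k = -(s * x' k) by ring, abs_neg]
        exact hsX k h) u
      linarith
  have hconv : ∀ u, 2 * R0 u ≤ Rp u + Rm u := by
    intro u
    have h1 : R0 u ≤ (Rp u + Rm u) / 2 := by
      have hR1 := Rr_nonneg (T := T) (A := A) (B := B) (x := fun k => x k + s * x' k) (u := u)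
      have hR2 := Rr_nonneg (T := T) (A := A) (B := B) (x := fun k => x k - s * x' k) (u := u)
      refine Rr_le (by linarith) fun k h => ?_
      have h3 := le_Rr (T := T) (A := A) (B := B) (x := fun k => x k + s * x' k) (u := u) h
      have h4 := le_Rr (T := T) (A := A) (B := B) (x := fun k => x k - s * x' k) (u := u) h
      have h5 : (x k - A k * u) / B k = ((x k + s * x' k - A k * u) / B k +
          (x k - s * x' k - A k * u) / B k) / 2 := by
        rw [← add_div]
        ring
      rw [h5]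
      linarith
    linarith
  have hR0n : ∀ u, 0 ≤ R0 u := fun u => Rr_nonneg
  have hRpn : ∀ u, 0 ≤ Rp u := fun u => Rr_nonneg
  have hRmn : ∀ u, 0 ≤ Rm u := fun u => Rr_nonneg
  have hR0L : ∀ u ∈ Icc 0 L, R0 u ≤ L := hle x hx0
  have hRpL : ∀ u ∈ Icc 0 L, Rp u ≤ L := hle _ hxp
  have i0 : IntegrableOn (fun u => (c0 + c1 * u) * R0 u + c2 / 2 * R0 u ^ 2) (Icc 0 L) :=
    Continuous.integrableOn_Icc (by fun_prop)
  have ip : IntegrableOn (fun u => (c0 + s * c0' + c1 * u) * Rp u + c2 / 2 * Rp u ^ 2) (Icc 0 L) :=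
    Continuous.integrableOn_Icc (by fun_prop)
  have im : IntegrableOn (fun u => (c0 - s * c0' + c1 * u) * Rm u + c2 / 2 * Rm u ^ 2) (Icc 0 L) :=
    Continuous.integrableOn_Icc (by fun_prop)
  have hvol : ∀ c : ℝ, ∫ _ in Icc 0 L, c = c * L := by
    intro c
    rw [setIntegral_const]
    simp [hL0.le, mul_comm]
  obtain ⟨hc0'1, hc0'2⟩ := abs_le.1 hc0'
  obtain ⟨hc1a, hc1b⟩ := abs_le.1 hc1
  obtain ⟨hc2a, hc2b⟩ := abs_le.1 hc2
  constructor
  · -- second difference
    have hpt : ∀ u ∈ Icc 0 L, -(K * s ^ 2) ≤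
        ((c0 + s * c0' + c1 * u) * Rp u + c2 / 2 * Rp u ^ 2) +
        ((c0 - s * c0' + c1 * u) * Rm u + c2 / 2 * Rm u ^ 2) -
        2 * ((c0 + c1 * u) * R0 u + c2 / 2 * R0 u ^ 2) := by
      intro u hu
      set a := Rp u - R0 u with ha
      set b := Rm u - R0 u with hb
      have e1 : Rp u = R0 u + a := by rw [ha]; ring
      have e2 : Rm u = R0 u + b := by rw [hb]; ring
      have haL : |a| ≤ |s| * X / m := hap u
      have hbL : |b| ≤ |s| * X / m := ham u
      have hab : 0 ≤ a + b := by
        have := hconv u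
        rw [ha, hb]
        linarith
      have hkey : ((c0 + s * c0' + c1 * u) * Rp u + c2 / 2 * Rp u ^ 2) +
          ((c0 - s * c0' + c1 * u) * Rm u + c2 / 2 * Rm u ^ 2) -
          2 * ((c0 + c1 * u) * R0 u + c2 / 2 * R0 u ^ 2) =
          (a + b) * (c0 + c1 * u + c2 * R0 u) + s * c0' * (a - b) + c2 / 2 * (a ^ 2 + b ^ 2) := by
        rw [e1, e2]
        ring
      rw [hkey]
      have hg : 0 ≤ c0 + c1 * u + c2 * R0 u := by
        have h1 : -(X * L) ≤ c1 * u := by
          have : |c1 * u| ≤ X * L := by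
            rw [abs_mul, abs_of_nonneg hu.1]
            exact mul_le_mul hc1 hu.2 hu.1 hX.le
          exact (abs_le.1 this).1
        have h2 : -(X * L) ≤ c2 * R0 u := by
          have : |c2 * R0 u| ≤ X * L := by
            rw [abs_mul, abs_of_nonneg (hR0n u)]
            exact mul_le_mul hc2 (hR0L u hu) (hR0n u) hX.le
          exact (abs_le.1 this).1
        linarith
      have t1 : 0 ≤ (a + b) * (c0 + c1 * u + c2 * R0 u) := mul_nonneg hab hg
      have t2 : |s * c0' * (a - b)| ≤ |s| * X * (2 * (|s| * X / m)) := by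
        rw [abs_mul, abs_mul]
        have h1 : |a - b| ≤ 2 * (|s| * X / m) := by
          calc |a - b| ≤ |a| + |b| := abs_sub _ _
            _ ≤ _ := by linarith
        exact mul_le_mul (mul_le_mul_of_nonneg_left hc0' (abs_nonneg _)) h1 (abs_nonneg _)
          (by positivity)
      have a2 : a ^ 2 ≤ (|s| * X / m) ^ 2 := by
        rw [← sq_abs a]
        exact pow_le_pow_left₀ (abs_nonneg _) haL 2
      have b2 : b ^ 2 ≤ (|s| * X / m) ^ 2 := by
        rw [← sq_abs b]
        exact pow_le_pow_left₀ (abs_nonneg _) hbL 2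
      have t3 : |c2 / 2 * (a ^ 2 + b ^ 2)| ≤ X / 2 * (2 * (|s| * X / m) ^ 2) := by
        rw [abs_mul]
        have h1 : |c2 / 2| ≤ X / 2 := by
          rw [abs_div, abs_two]
          linarith
        have h2 : |a ^ 2 + b ^ 2| ≤ 2 * (|s| * X / m) ^ 2 := by
          rw [abs_of_nonneg (by positivity)]
          linarith
        exact mul_le_mul h1 h2 (abs_nonneg _) (by positivity)
      have hKs : K * s ^ 2 = |s| * X * (2 * (|s| * X / m)) + X / 2 * (2 * (|s| * X / m) ^ 2) := by
        rw [hK, ← sq_abs s]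
        field_simp
      have := (abs_le.1 t2).1
      have := (abs_le.1 t3).1
      linarith
    have h1 : ∫ u in Icc 0 L, -(K * s ^ 2) ≤ ∫ u in Icc 0 L,
        (((c0 + s * c0' + c1 * u) * Rp u + c2 / 2 * Rp u ^ 2) +
        ((c0 - s * c0' + c1 * u) * Rm u + c2 / 2 * Rm u ^ 2) -
        2 * ((c0 + c1 * u) * R0 u + c2 / 2 * R0 u ^ 2)) := by
      refine setIntegral_mono_on ?_ ?_ measurableSet_Icc hpt
      · exact Continuous.integrableOn_Icc (by fun_prop)
      · exact Continuous.integrableOn_Icc (by fun_prop)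
    have e : ∫ u in Icc 0 L,
        (((c0 + s * c0' + c1 * u) * Rp u + c2 / 2 * Rp u ^ 2) +
        ((c0 - s * c0' + c1 * u) * Rm u + c2 / 2 * Rm u ^ 2) -
        2 * ((c0 + c1 * u) * R0 u + c2 / 2 * R0 u ^ 2)) =
        (∫ u in Icc 0 L, ((c0 + s * c0' + c1 * u) * Rp u + c2 / 2 * Rp u ^ 2)) +
        (∫ u in Icc 0 L, ((c0 - s * c0' + c1 * u) * Rm u + c2 / 2 * Rm u ^ 2)) -
        2 * (∫ u in Icc 0 L, ((c0 + c1 * u) * R0 u + c2 / 2 * R0 u ^ 2)) :=
      int_split _ _ _ ip im i0
    rw [e, hvol] at h1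
    have h2 : K * L ≤ η := by nlinarith
    have h3 : K * s ^ 2 * L ≤ η * s ^ 2 := by
      have := mul_le_mul_of_nonneg_right h2 (sq_nonneg s)
      linarith
    linarith
  · -- first difference
    rw [← integral_sub ip i0]
    have hpt : ∀ u ∈ Icc 0 L,
        ‖((c0 + s * c0' + c1 * u) * Rp u + c2 / 2 * Rp u ^ 2) -
        ((c0 + c1 * u) * R0 u + c2 / 2 * R0 u ^ 2)‖ ≤ K1 * |s| := by
      intro u hu
      rw [Real.norm_eq_abs]
      set a := Rp u - R0 u with ha
      have haL : |a| ≤ |s| * X / m := hap u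
      have hkey : ((c0 + s * c0' + c1 * u) * Rp u + c2 / 2 * Rp u ^ 2) -
          ((c0 + c1 * u) * R0 u + c2 / 2 * R0 u ^ 2) =
          (c0 + c1 * u) * a + s * c0' * Rp u + c2 / 2 * (a * (Rp u + R0 u)) := by
        rw [ha]
        ring
      rw [hkey]
      have hr1 : |(c0 + c1 * u) * a| ≤ (X + X) * (|s| * X / m) := by
        rw [abs_mul]
        have h1 : |c0 + c1 * u| ≤ X + X := by
          have h2 : |c1 * u| ≤ X * 1 := by
            rw [abs_mul, abs_of_nonneg hu.1]
            exact mul_le_mul hc1 (hu.2.trans hL1) hu.1 hX.le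
          calc |c0 + c1 * u| ≤ |c0| + |c1 * u| := abs_add_le _ _
            _ ≤ _ := by linarith
        exact mul_le_mul h1 haL (abs_nonneg _) (by positivity)
      have hr2 : |s * c0' * Rp u| ≤ |s| * X * 1 := by
        rw [abs_mul, abs_mul, abs_of_nonneg (hRpn u)]
        exact mul_le_mul (mul_le_mul_of_nonneg_left hc0' (abs_nonneg _))
          ((hRpL u hu).trans hL1) (hRpn u) (by positivity)
      have hr3 : |c2 / 2 * (a * (Rp u + R0 u))| ≤ X / 2 * (|s| * X / m * 2) := by
        rw [abs_mul, abs_mul]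
        have h1 : |c2 / 2| ≤ X / 2 := by
          rw [abs_div, abs_two]
          linarith
        have h2 : |Rp u + R0 u| ≤ 2 := by
          rw [abs_of_nonneg (add_nonneg (hRpn u) (hR0n u))]
          have := hRpL u hu
          have := hR0L u hu
          linarith
        exact mul_le_mul h1 (mul_le_mul haL h2 (abs_nonneg _) (by positivity)) (by positivity)
          (by positivity)
      calc |(c0 + c1 * u) * a + s * c0' * Rp u + c2 / 2 * (a * (Rp u + R0 u))|
          ≤ |(c0 + c1 * u) * a| + |s * c0' * Rp u| + |c2 / 2 * (a * (Rp u + R0 u))| :=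
            abs_add_three _ _ _
        _ ≤ (X + X) * (|s| * X / m) + |s| * X * 1 + X / 2 * (|s| * X / m * 2) := by linarith
        _ = K1 * |s| := by
          rw [hK1]
          field_simp
          ring
    have h1 := norm_setIntegral_le_of_norm_le_const (μ := volume) (s := Icc (0:ℝ) L)
      (by simp) hpt
    rw [Real.norm_eq_abs] at h1
    refine h1.trans ?_
    have h2 : volume.real (Icc (0:ℝ) L) = L := by
      rw [Measure.real, Real.volume_Icc, sub_zero, ENNReal.toReal_ofReal hL0.le]
    rw [h2]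
    have h3 : K1 * L ≤ η := by nlinarith
    have := mul_le_mul_of_nonneg_right h3 (abs_nonneg s)
    linarith

end Pool.G1
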