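import Pool.Agent.Work.MP_b5407d_g1.InterfaceF

/-!
# G1, block DEC: polygon = essential polygon minus corner cuts
-/

set_option autoImplicit false
set_option linter.unusedSectionVars false

open MeasureTheory Set Filter Topology

namespace Pool.G1

open Pool.T3 (R3 dt cr de K V S H Fam Pos pt Lam Q J lin)

namespace DECaux

/-! ## algebra -/

lemma dp_smul_l (t : ℝ) (a b : R2) : dp (t • a) b = t * dp a b := by
  simp only [dp, Prod.smul_fst, Prod.smul_snd, smul_eq_mul]; ring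

lemma dp_add_l (a b c : R2) : dp (a + b) c = dp a c + dp b c := by
  simp only [dp, Prod.fst_add, Prod.snd_add]; ring

lemma dp_add_r (a b c : R2) : dp a (b + c) = dp a b + dp a c := by
  simp only [dp, Prod.fst_add, Prod.snd_add]; ring

lemma dp_smul_r (t : ℝ) (a b : R2) : dp a (t • b) = t * dp a b := by
  simp only [dp, Prod.smul_fst, Prod.smul_snd, smul_eq_mul]; ring

lemma cram (a b u : R2) (h : cp a b ≠ 0) :
    u = (cp u b / cp a b) • a + (cp a u / cp a b) • b := by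
  have h1 : cp a b * u.1 = cp u b * a.1 + cp a u * b.1 := by simp only [cp]; ring
  have h2 : cp a b * u.2 = cp u b * a.2 + cp a u * b.2 := by simp only [cp]; ring
  ext
  · simp only [Prod.fst_add, Prod.smul_fst, smul_eq_mul]
    field_simp
    linarith
  · simp only [Prod.snd_add, Prod.smul_snd, smul_eq_mul]
    field_simp
    linarith

lemma decomp (a b x : R2) : cp a b • x = dp b x • rt a - dp a x • rt b := by
  ext
  · simp only [Prod.smul_fst, Prod.fst_sub, smul_eq_mul, cp, dp, rt]; ring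
  · simp only [Prod.smul_snd, Prod.snd_sub, smul_eq_mul, cp, dp, rt]; ring

lemma isx_eq (a b x : R2) (h : cp a b ≠ 0) : isx a (dp a x) b (dp b x) = x := by
  unfold isx
  rw [← decomp, smul_smul, one_div, inv_mul_cancel₀ h, one_smul]

variable {n : ℕ} {ν v : ℕ → R2} {ℓ : ℕ → ℝ}

lemma dp_vs (h : Poly n ν v ℓ) (i : ℕ) : dp (ν i) (v (i + 1)) = dp (ν i) (v i) := by
  rw [h.edge i]
  simp only [dp, rt, Prod.fst_add, Prod.snd_add, Prod.smul_fst, Prod.smul_snd, smul_eq_mul]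
  ring

lemma dp_step (h : Poly n ν v ℓ) (u : R2) (i : ℕ) :
    dp u (v (i + 1)) = dp u (v i) + ℓ i * cp (ν i) u := by
  rw [h.edge i]
  simp only [dp, rt, cp, Prod.fst_add, Prod.snd_add, Prod.smul_fst, Prod.smul_snd, smul_eq_mul]
  ring

lemma cone_at (h : Poly n ν v ℓ) (u : R2) (i : ℕ) (h1 : dp u (v i) ≤ dp u (v (i + 1)))
    (h2 : dp u (v (i + 2)) ≤ dp u (v (i + 1))) : 0 ≤ cp (ν i) u ∧ 0 ≤ cp u (ν (i + 1)) := by
  have e1 := dp_step h u i
  have e2 := dp_step h u (i + 1)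
  have p1 := h.pos i
  have p2 := h.pos (i + 1)
  have e3 : cp u (ν (i + 1)) = -cp (ν (i + 1)) u := by simp only [cp]; ring
  constructor
  · by_contra hc
    push Not at hc
    have := mul_neg_of_pos_of_neg p1 hc
    linarith
  · rw [e3]
    by_contra hc
    push Not at hc
    have h3 : 0 < cp (ν (i + 1)) u := by linarith
    have := mul_pos p2 h3
    have e4 : dp u (v (i + 2)) = dp u (v (i + 1 + 1)) := rfl
    linarith

lemma exists_top (h : Poly n ν v ℓ) (u : R2) : ∃ i, ∀ j, dp u (v j) ≤ dp u (v (i + 1)) := by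
  have hn : 0 < n := by have := h.n3; omega
  obtain ⟨j0, hj0, hmax⟩ := Finset.exists_max_image (Finset.range n) (fun j => dp u (v j))
    ⟨0, Finset.mem_range.2 hn⟩
  refine ⟨j0 + (n - 1), fun j => ?_⟩
  have e : j0 + (n - 1) + 1 = j0 + n := by omega
  rw [e, h.pv]
  have e2 : v (j % n) = v j := Function.Periodic.map_mod_nat (f := v) h.pv j
  rw [← e2]
  exact hmax _ (Finset.mem_range.2 (Nat.mod_lt _ hn))

lemma unit_eq (a b : R2) (t : ℝ) (ht : 0 ≤ t) (ha : dp a a = 1) (hb : dp b b = 1)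
    (h : b = t • a) : b = a := by
  have h1 : t * t = 1 := by
    have : dp b b = t * t * dp a a := by
      rw [h]
      simp only [dp, Prod.smul_fst, Prod.smul_snd, smul_eq_mul]
      ring
    rw [hb, ha] at this
    linarith
  have h2 : t = 1 := by nlinarith
  rw [h, h2, one_smul]

lemma eq_of_lines (a b x y : R2) (hc : cp a b ≠ 0) (h1 : dp a x = dp a y)
    (h2 : dp b x = dp b y) : x = y := by
  rw [← isx_eq a b x hc, ← isx_eq a b y hc, h1, h2]

lemma strict (h : Poly n ν v ℓ) (i j : ℕ) (he : dp (ν j) (v (i + 1)) = dp (ν j) (v j)) :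
    ν j = ν i ∨ ν j = ν (i + 1) := by
  have ht := h.turn i
  obtain ⟨h1, h2⟩ := cone_at h (ν j) i (by rw [he]; exact h.conv j i)
    (by rw [he]; exact h.conv j (i + 2))
  have hcr := cram (ν i) (ν (i + 1)) (ν j) ht.ne'
  rcases h1.lt_or_eq with h1 | h1
  · rcases h2.lt_or_eq with h2 | h2
    · exfalso
      set α := cp (ν j) (ν (i + 1)) / cp (ν i) (ν (i + 1)) with hα
      set β := cp (ν i) (ν j) / cp (ν i) (ν (i + 1)) with hβ
      have pα : 0 < α := div_pos h2 ht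
      have pβ : 0 < β := div_pos h1 ht
      have key : ∀ w, dp (ν j) w = dp (ν j) (v j) → dp (ν i) w ≤ dp (ν i) (v i) →
          dp (ν (i + 1)) w ≤ dp (ν (i + 1)) (v (i + 1)) → w = v (i + 1) := by
        intro w hw1 hw2 hw3
        have e1 : dp (ν j) w = α * dp (ν i) w + β * dp (ν (i + 1)) w := by
          rw [hcr, dp_add_l, dp_smul_l, dp_smul_l]
        have e2 : dp (ν j) (v (i + 1)) =
            α * dp (ν i) (v (i + 1)) + β * dp (ν (i + 1)) (v (i + 1)) := by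
          rw [hcr, dp_add_l, dp_smul_l, dp_smul_l]
        have e3 := dp_vs h i
        have e4 : α * (dp (ν i) (v i) - dp (ν i) w) +
            β * (dp (ν (i + 1)) (v (i + 1)) - dp (ν (i + 1)) w) = 0 := by
          rw [← e3]
          have := he
          linarith
        have e5 : 0 ≤ α * (dp (ν i) (v i) - dp (ν i) w) :=
          mul_nonneg pα.le (by linarith)
        have e6 : 0 ≤ β * (dp (ν (i + 1)) (v (i + 1)) - dp (ν (i + 1)) w) :=
          mul_nonneg pβ.le (by linarith)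
        have e7 : α * (dp (ν i) (v i) - dp (ν i) w) = 0 := by linarith
        have e8 : β * (dp (ν (i + 1)) (v (i + 1)) - dp (ν (i + 1)) w) = 0 := by linarith
        have e9 : dp (ν i) (v i) - dp (ν i) w = 0 :=
          (mul_eq_zero.1 e7).resolve_left pα.ne'
        have e10 : dp (ν (i + 1)) (v (i + 1)) - dp (ν (i + 1)) w = 0 :=
          (mul_eq_zero.1 e8).resolve_left pβ.ne'
        exact eq_of_lines _ _ _ _ ht.ne' (by linarith) (by linarith)
      have e1 := key (v j) rfl (h.conv i j) (h.conv (i + 1) j)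
      have e2 := key (v (j + 1)) (dp_vs h j) (h.conv i (j + 1)) (h.conv (i + 1) (j + 1))
      have e3 : v (j + 1) = v j := e2.trans e1.symm
      have e4 := dp_step h (rt (ν j)) j
      rw [e3] at e4
      have e5 : cp (ν j) (rt (ν j)) = 1 := by
        have := h.unit j
        simp only [dp, cp, rt] at this ⊢
        linarith
      have p1 := h.pos j
      rw [e5] at e4
      linarith
    · right
      rw [← h2, zero_div, zero_smul, zero_add] at hcr
      exact unit_eq _ _ _ (div_nonneg h1.le ht.le) (h.unit _) (h.unit _) hcr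
  · left
    rw [← h1, zero_div, zero_smul, add_zero] at hcr
    exact unit_eq _ _ _ (div_nonneg h2 ht.le) (h.unit _) (h.unit _) hcr

lemma vdist (h : Poly n ν v ℓ) (i j : ℕ) (he : v (i + 1) = v (j + 1)) : ν j = ν i := by
  have h1 : dp (ν j) (v (i + 1)) = dp (ν j) (v j) := by rw [he, dp_vs h j]
  rcases strict h i j h1 with h2 | h2
  · exact h2
  · exfalso
    have h3 : dp (ν (j + 1)) (v (i + 1)) = dp (ν (j + 1)) (v (j + 1)) := by rw [he]
    have ht := h.turn j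
    have ht' := h.turn i
    rcases strict h i (j + 1) h3 with h4 | h4
    · rw [h2, h4] at ht
      simp only [cp] at ht ht'
      linarith
    · rw [h2, h4] at ht
      simp only [cp] at ht
      linarith

variable {κ : Type} {N M : κ → R2} {b e : κ → ℝ} {c : ℕ → ℝ} {kk : ℕ → κ}

lemma L_sup (hP : PD N b n ν v ℓ c kk) (u : R2) : ∃ i, ∃ Γ : ℝ, 0 ≤ Γ ∧
    ∀ (ξ : R2) (δ : ℝ), (∀ j, dp (N (kk j)) ξ ≤ b (kk j) + δ) →
      dp u ξ ≤ dp u (v (i + 1)) + Γ * δ := by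
  have h := hP.poly
  obtain ⟨i, hi⟩ := exists_top h u
  obtain ⟨h1, h2⟩ := cone_at h u i (hi i) (hi (i + 2))
  have ht := h.turn i
  have hcr := cram (ν i) (ν (i + 1)) u ht.ne'
  set α := cp u (ν (i + 1)) / cp (ν i) (ν (i + 1)) with hα
  set β := cp (ν i) u / cp (ν i) (ν (i + 1)) with hβ
  have pα : 0 ≤ α := div_nonneg h2 ht.le
  have pβ : 0 ≤ β := div_nonneg h1 ht.le
  have c1 := hP.cpos i
  have c2 := hP.cpos (i + 1)
  refine ⟨i, α / c i + β / c (i + 1), by positivity, fun ξ δ hξ => ?_⟩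
  have a1 : dp (ν i) ξ ≤ dp (ν i) (v (i + 1)) + δ / c i := by
    have := hξ i
    rw [hP.hN, hP.hb, dp_smul_l] at this
    rw [dp_vs h i]
    have e1 : c i * (dp (ν i) (v i) + δ / c i) = c i * dp (ν i) (v i) + δ := by
      field_simp
    have e2 : c i * dp (ν i) ξ ≤ c i * (dp (ν i) (v i) + δ / c i) := by rw [e1]; exact this
    exact le_of_mul_le_mul_left e2 c1
  have a2 : dp (ν (i + 1)) ξ ≤ dp (ν (i + 1)) (v (i + 1)) + δ / c (i + 1) := by
    have := hξ (i + 1)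
    rw [hP.hN, hP.hb, dp_smul_l] at this
    have e1 : c (i + 1) * (dp (ν (i + 1)) (v (i + 1)) + δ / c (i + 1)) =
        c (i + 1) * dp (ν (i + 1)) (v (i + 1)) + δ := by
      field_simp
    have e2 : c (i + 1) * dp (ν (i + 1)) ξ ≤
        c (i + 1) * (dp (ν (i + 1)) (v (i + 1)) + δ / c (i + 1)) := by rw [e1]; exact this
    exact le_of_mul_le_mul_left e2 c2
  have e1 : dp u ξ = α * dp (ν i) ξ + β * dp (ν (i + 1)) ξ := by
    conv_lhs => rw [hcr]
    rw [dp_add_l, dp_smul_l, dp_smul_l]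
  have e2 : dp u (v (i + 1)) = α * dp (ν i) (v (i + 1)) + β * dp (ν (i + 1)) (v (i + 1)) := by
    conv_lhs => rw [hcr]
    rw [dp_add_l, dp_smul_l, dp_smul_l]
  have b1 := mul_le_mul_of_nonneg_left a1 pα
  have b2 := mul_le_mul_of_nonneg_left a2 pβ
  rw [e1, e2]
  have e3 : (α / c i + β / c (i + 1)) * δ = α * (δ / c i) + β * (δ / c (i + 1)) := by ring
  rw [e3]
  nlinarith

/-! ## the essential polygon -/

/-- essential polygon -/
def Pe {κ : Type} (N M : κ → R2) (b e : κ → ℝ) (kk : ℕ → κ) (p : ℝ × ℝ) : Set R2 :=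
  {ξ | ∀ i, dp (Np N M p.1 (kk i)) ξ ≤ bp b e p.2 (kk i)}

lemma dp_Np (τ : ℝ) (k : κ) (ξ : R2) : dp (Np N M τ k) ξ = dp (N k) ξ + τ * dp (M k) ξ := by
  unfold Np
  rw [dp_add_l, dp_smul_l]

lemma abs_dp (a ξ : R2) : |dp a ξ| ≤ (|a.1| + |a.2|) * (|ξ.1| + |ξ.2|) := by
  unfold dp
  refine (abs_add_le _ _).trans ?_
  rw [abs_mul, abs_mul]
  have h1 := abs_nonneg a.1
  have h2 := abs_nonneg a.2
  have h3 := abs_nonneg ξ.1
  have h4 := abs_nonneg ξ.2
  nlinarith [mul_nonneg h1 h4, mul_nonneg h2 h3]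

variable [Fintype κ]

/-- bound of the tilts -/
noncomputable def m0 {κ : Type} [Fintype κ] (M : κ → R2) : ℝ := ∑ k, (|(M k).1| + |(M k).2|)

/-- bound of the motions -/
noncomputable def E0 {κ : Type} [Fintype κ] (e : κ → ℝ) : ℝ := ∑ k, |e k|

lemma m0_nonneg (M : κ → R2) : 0 ≤ m0 M := Finset.sum_nonneg fun _ _ => by positivity

lemma E0_nonneg (e : κ → ℝ) : 0 ≤ E0 e := Finset.sum_nonneg fun _ _ => by positivity

lemma le_m0 (M : κ → R2) (k : κ) : |(M k).1| + |(M k).2| ≤ m0 M :=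
  Finset.single_le_sum (f := fun k => |(M k).1| + |(M k).2|) (fun _ _ => by positivity)
    (Finset.mem_univ k)

lemma le_E0 (e : κ → ℝ) (k : κ) : |e k| ≤ E0 e :=
  Finset.single_le_sum (f := fun k => |e k|) (fun _ _ => by positivity) (Finset.mem_univ k)

lemma tilt_le (τ : ℝ) (k : κ) (ξ : R2) :
    |τ * dp (M k) ξ| ≤ |τ| * m0 M * (|ξ.1| + |ξ.2|) := by
  rw [abs_mul, mul_assoc]
  refine mul_le_mul_of_nonneg_left ?_ (abs_nonneg _)
  exact (abs_dp _ _).trans (mul_le_mul_of_nonneg_right (le_m0 M k) (by positivity))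

lemma move_le (s : ℝ) (k : κ) : |s * e k| ≤ |s| * E0 e := by
  rw [abs_mul]
  exact mul_le_mul_of_nonneg_left (le_E0 e k) (abs_nonneg _)

lemma Pe_le (p : ℝ × ℝ) (ξ : R2) (hξ : ξ ∈ Pe N M b e kk p) (j : ℕ) :
    dp (N (kk j)) ξ ≤ b (kk j) + (|p.2| * E0 e + |p.1| * m0 M * (|ξ.1| + |ξ.2|)) := by
  have h1 := hξ j
  rw [dp_Np] at h1
  unfold bp at h1
  have h2 := (abs_le.1 (tilt_le (M := M) p.1 (kk j) ξ)).1
  have h3 := (abs_le.1 (move_le (e := e) p.2 (kk j))).2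
  linarith

/-- uniform boundedness -/
lemma ev2 (hP : PD N b n ν v ℓ c kk) (M : κ → R2) (e : κ → ℝ) : ∃ R : ℝ, 0 ≤ R ∧
    ∀ᶠ p : ℝ × ℝ in 𝓝 (0, 0), ∀ ξ ∈ Pe N M b e kk p, |ξ.1| + |ξ.2| ≤ R := by
  obtain ⟨i1, G1, hG1, h1⟩ := L_sup hP ((1 : ℝ), (0 : ℝ))
  obtain ⟨i2, G2, hG2, h2⟩ := L_sup hP ((-1 : ℝ), (0 : ℝ))
  obtain ⟨i3, G3, hG3, h3⟩ := L_sup hP ((0 : ℝ), (1 : ℝ))
  obtain ⟨i4, G4, hG4, h4⟩ := L_sup hP ((0 : ℝ), (-1 : ℝ))
  set D := |(v (i1 + 1)).1| + |(v (i2 + 1)).1| + |(v (i3 + 1)).2| + |(v (i4 + 1)).2| with hD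
  set G := G1 + G2 + G3 + G4 with hG
  have hD0 : 0 ≤ D := by positivity
  have hG0 : 0 ≤ G := by positivity
  refine ⟨2 * (D + G), by positivity, ?_⟩
  have c1 : Tendsto (fun p : ℝ × ℝ => |p.2| * E0 e) (𝓝 (0, 0)) (𝓝 0) := by
    have : Continuous (fun p : ℝ × ℝ => |p.2| * E0 e) := by fun_prop
    have h := this.tendsto ((0 : ℝ), (0 : ℝ))
    simpa using h
  have c2 : Tendsto (fun p : ℝ × ℝ => |p.1| * m0 M * G) (𝓝 (0, 0)) (𝓝 0) := by
    have : Continuous (fun p : ℝ × ℝ => |p.1| * m0 M * G) := by fun_prop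
    have h := this.tendsto ((0 : ℝ), (0 : ℝ))
    simpa using h
  filter_upwards [c1.eventually_lt_const (show (0 : ℝ) < 1 by norm_num),
    c2.eventually_lt_const (show (0 : ℝ) < 1 / 2 by norm_num)] with p q1 q2 ξ hξ
  set X := |ξ.1| + |ξ.2| with hX
  have hX0 : 0 ≤ X := by positivity
  set δ := |p.2| * E0 e + |p.1| * m0 M * X with hδ
  have hδ0 : 0 ≤ δ := by
    have := m0_nonneg M
    have := E0_nonneg e
    positivity
  have hj : ∀ j, dp (N (kk j)) ξ ≤ b (kk j) + δ := fun j => Pe_le p ξ hξ j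
  have k1 := h1 ξ δ hj
  have k2 := h2 ξ δ hj
  have k3 := h3 ξ δ hj
  have k4 := h4 ξ δ hj
  simp only [dp, one_mul, zero_mul, add_zero, zero_add, neg_mul] at k1 k2 k3 k4
  have a1 := le_abs_self (v (i1 + 1)).1
  have a2 := neg_abs_le (v (i2 + 1)).1
  have a3 := le_abs_self (v (i3 + 1)).2
  have a4 := neg_abs_le (v (i4 + 1)).2
  have m1 := mul_nonneg hG1 hδ0
  have m2 := mul_nonneg hG2 hδ0
  have m3 := mul_nonneg hG3 hδ0
  have m4 := mul_nonneg hG4 hδ0
  have n1 := abs_nonneg (v (i1 + 1)).1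
  have n2 := abs_nonneg (v (i2 + 1)).1
  have n3 := abs_nonneg (v (i3 + 1)).2
  have n4 := abs_nonneg (v (i4 + 1)).2
  have b1 : |ξ.1| ≤ |(v (i1 + 1)).1| + |(v (i2 + 1)).1| + (G1 * δ + G2 * δ) := by
    rw [abs_le]
    constructor <;> linarith
  have b2 : |ξ.2| ≤ |(v (i3 + 1)).2| + |(v (i4 + 1)).2| + (G3 * δ + G4 * δ) := by
    rw [abs_le]
    constructor <;> linarith
  have b3 : X ≤ D + G * δ := by
    rw [hX, hD, hG]
    linarith
  have b4 : G * δ ≤ G + X / 2 := by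
    have e1 : G * δ = G * (|p.2| * E0 e) + (|p.1| * m0 M * G) * X := by rw [hδ]; ring
    rw [e1]
    have e2 : G * (|p.2| * E0 e) ≤ G * 1 := mul_le_mul_of_nonneg_left q1.le hG0
    have e3 : (|p.1| * m0 M * G) * X ≤ 1 / 2 * X := mul_le_mul_of_nonneg_right q2.le hX0
    linarith
  linarith

/-- constraints which do not touch -/
lemma ev3 (hP : PD N b n ν v ℓ c kk) (M : κ → R2) (e : κ → ℝ) (k : κ)
    (hk : ∀ j, dp (N k) (v j) < b k) :
    ∀ᶠ p : ℝ × ℝ in 𝓝 (0, 0), ∀ ξ ∈ Pe N M b e kk p,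
      dp (Np N M p.1 k) ξ ≤ bp b e p.2 k := by
  obtain ⟨R, hR0, hR⟩ := ev2 hP M e
  obtain ⟨i, G, hG, h1⟩ := L_sup hP (N k)
  have c1 : Tendsto (fun p : ℝ × ℝ => dp (N k) (v (i + 1)) +
      G * (|p.2| * E0 e + |p.1| * m0 M * R) + |p.1| * m0 M * R + |p.2| * E0 e) (𝓝 (0, 0))
      (𝓝 (dp (N k) (v (i + 1)))) := by
    have : Continuous (fun p : ℝ × ℝ => dp (N k) (v (i + 1)) +
      G * (|p.2| * E0 e + |p.1| * m0 M * R) + |p.1| * m0 M * R + |p.2| * E0 e) := by fun_prop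
    have h := this.tendsto ((0 : ℝ), (0 : ℝ))
    simpa using h
  filter_upwards [hR, c1.eventually_lt_const (hk (i + 1))] with p q1 q2 ξ hξ
  have hX := q1 ξ hξ
  set X := |ξ.1| + |ξ.2| with hXd
  have hj : ∀ j, dp (N (kk j)) ξ ≤ b (kk j) + (|p.2| * E0 e + |p.1| * m0 M * R) := by
    intro j
    refine (Pe_le p ξ hξ j).trans ?_
    have := m0_nonneg M
    have h3 : |p.1| * m0 M * (|ξ.1| + |ξ.2|) ≤ |p.1| * m0 M * R :=
      mul_le_mul_of_nonneg_left hX (by positivity)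
    linarith
  have h2 := h1 ξ _ hj
  rw [dp_Np]
  unfold bp
  have h3 := (abs_le.1 (tilt_le (M := M) p.1 k ξ)).2
  have h4 := (abs_le.1 (move_le (e := e) p.2 k)).1
  have h5 : |p.1| * m0 M * (|ξ.1| + |ξ.2|) ≤ |p.1| * m0 M * R := by
    have := m0_nonneg M
    exact mul_le_mul_of_nonneg_left hX (by positivity)
  linarith

/-! ## the vertices -/

lemma cp_pos0 (hP : PD N b n ν v ℓ c kk) (i : ℕ) : 0 < cp (N (kk i)) (N (kk (i + 1))) := by
  rw [hP.hN, hP.hN]
  have := hP.poly.turn i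
  have e1 : cp (c i • ν i) (c (i + 1) • ν (i + 1)) = c i * c (i + 1) * cp (ν i) (ν (i + 1)) := by
    simp only [cp, Prod.smul_fst, Prod.smul_snd, smul_eq_mul]; ring
  rw [e1]
  exact mul_pos (mul_pos (hP.cpos _) (hP.cpos _)) this

lemma cont_Np (N M : κ → R2) (k : κ) : Continuous (fun p : ℝ × ℝ => Np N M p.1 k) := by
  unfold Np; fun_prop

lemma cont_bp (b e : κ → ℝ) (k : κ) : Continuous (fun p : ℝ × ℝ => bp b e p.2 k) := by
  unfold bp; fun_prop

lemma Np_zero (N M : κ → R2) (k : κ) : Np N M 0 k = N k := by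
  unfold Np; rw [zero_smul, add_zero]

lemma bp_zero (b e : κ → ℝ) (k : κ) : bp b e 0 k = b k := by
  unfold bp; rw [zero_mul, add_zero]

lemma ca_cp {f g : ℝ × ℝ → R2} {p0 : ℝ × ℝ} (hf : ContinuousAt f p0) (hg : ContinuousAt g p0) :
    ContinuousAt (fun p => cp (f p) (g p)) p0 := by
  unfold cp
  exact (hf.fst.mul hg.snd).sub (hf.snd.mul hg.fst)

lemma ca_dp {f g : ℝ × ℝ → R2} {p0 : ℝ × ℝ} (hf : ContinuousAt f p0) (hg : ContinuousAt g p0) :
    ContinuousAt (fun p => dp (f p) (g p)) p0 := by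
  unfold dp
  exact (hf.fst.mul hg.fst).add (hf.snd.mul hg.snd)

lemma ca_rt {f : ℝ × ℝ → R2} {p0 : ℝ × ℝ} (hf : ContinuousAt f p0) :
    ContinuousAt (fun p => rt (f p)) p0 := by
  unfold rt
  exact hf.snd.neg.prodMk hf.fst

lemma b_eq (hP : PD N b n ν v ℓ c kk) (i : ℕ) : b (kk i) = dp (N (kk i)) (v (i + 1)) := by
  rw [hP.hb, hP.hN, dp_smul_l, dp_vs hP.poly]

lemma b_eq' (hP : PD N b n ν v ℓ c kk) (i : ℕ) :
    b (kk (i + 1)) = dp (N (kk (i + 1))) (v (i + 1)) := by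
  rw [hP.hb, hP.hN, dp_smul_l]

lemma vx_zero (hP : PD N b n ν v ℓ c kk) (M : κ → R2) (e : κ → ℝ) (i : ℕ) :
    vx N M b e kk 0 0 i = v (i + 1) := by
  unfold vx
  rw [Np_zero, Np_zero, bp_zero, bp_zero, b_eq hP, b_eq' hP]
  exact isx_eq _ _ _ (cp_pos0 hP i).ne'

lemma vx_cont (hP : PD N b n ν v ℓ c kk) (M : κ → R2) (e : κ → ℝ) (i : ℕ) :
    ContinuousAt (fun p : ℝ × ℝ => vx N M b e kk p.1 p.2 i) (0, 0) := by
  unfold vx isx
  have hD : ContinuousAt (fun p : ℝ × ℝ => cp (Np N M p.1 (kk i)) (Np N M p.1 (kk (i + 1))))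
      (0, 0) := ca_cp (cont_Np N M _).continuousAt (cont_Np N M _).continuousAt
  have h0 : cp (Np N M ((0 : ℝ), (0 : ℝ)).1 (kk i)) (Np N M ((0 : ℝ), (0 : ℝ)).1 (kk (i + 1))) ≠
      0 := by
    simp only [Np_zero]
    exact (cp_pos0 hP i).ne'
  exact (continuousAt_const.div hD h0).smul
    (((cont_bp b e _).continuousAt.smul (ca_rt (cont_Np N M _).continuousAt)).sub
      ((cont_bp b e _).continuousAt.smul (ca_rt (cont_Np N M _).continuousAt)))

lemma dp_isx_left (A B : R2) (x y : ℝ) (h : cp A B ≠ 0) : dp A (isx A x B y) = x := by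
  unfold isx
  have e1 : dp A ((1 / cp A B) • (y • rt A - x • rt B)) = 1 / cp A B * (x * cp A B) := by
    simp only [dp, cp, rt, Prod.smul_fst, Prod.smul_snd, Prod.fst_sub, Prod.snd_sub, smul_eq_mul]
    ring
  rw [e1]
  field_simp

lemma dp_isx_right (A B : R2) (x y : ℝ) (h : cp A B ≠ 0) : dp B (isx A x B y) = y := by
  unfold isx
  have e1 : dp B ((1 / cp A B) • (y • rt A - x • rt B)) = 1 / cp A B * (y * cp A B) := by
    simp only [dp, cp, rt, Prod.smul_fst, Prod.smul_snd, Prod.fst_sub, Prod.snd_sub, smul_eq_mul]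
    ring
  rw [e1]
  field_simp

/-- the cut-off part of a wedge -/
lemma wedge_bound (A B K w ξ : R2) (x y z : ℝ) (hD : 0 < cp A B) (hAK : 0 < cp A K)
    (hKB : 0 < cp K B) (hwA : dp A w = x) (hwB : dp B w = y) (h1 : dp A ξ ≤ x) (h2 : dp B ξ ≤ y)
    (h3 : z < dp K ξ) :
    |ξ.1 - w.1| ≤ (dp K w - z) * ((|A.1| + |A.2|) / cp A K + (|B.1| + |B.2|) / cp K B) ∧
    |ξ.2 - w.2| ≤ (dp K w - z) * ((|A.1| + |A.2|) / cp A K + (|B.1| + |B.2|) / cp K B) := by
  set u1 := y - dp B ξ with hu1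
  set u2 := x - dp A ξ with hu2
  have p1 : 0 ≤ u1 := by linarith
  have p2 : 0 ≤ u2 := by linarith
  have e0 : u1 * cp A K + u2 * cp K B = cp A B * (dp K w - dp K ξ) := by
    rw [hu1, hu2, ← hwA, ← hwB]
    simp only [cp, dp]
    ring
  have e1 : cp A B * (ξ.1 - w.1) = u1 * A.2 - u2 * B.2 := by
    rw [hu1, hu2, ← hwA, ← hwB]
    simp only [cp, dp]
    ring
  have e2 : cp A B * (ξ.2 - w.2) = u2 * B.1 - u1 * A.1 := by
    rw [hu1, hu2, ← hwA, ← hwB]
    simp only [cp, dp]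
    ring
  set Z := cp A B * (dp K w - z) with hZ
  have hlt : u1 * cp A K + u2 * cp K B ≤ Z := by
    rw [e0, hZ]
    exact mul_le_mul_of_nonneg_left (by linarith) hD.le
  have q1 : u1 ≤ Z / cp A K := by
    rw [le_div_iff₀ hAK]
    have := mul_nonneg p2 hKB.le
    linarith
  have q2 : u2 ≤ Z / cp K B := by
    rw [le_div_iff₀ hKB]
    have := mul_nonneg p1 hAK.le
    linarith
  have hR : (dp K w - z) * ((|A.1| + |A.2|) / cp A K + (|B.1| + |B.2|) / cp K B) =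
      (Z / cp A K * (|A.1| + |A.2|) + Z / cp K B * (|B.1| + |B.2|)) / cp A B := by
    rw [hZ]
    field_simp
  have nA1 := abs_nonneg A.1
  have nA2 := abs_nonneg A.2
  have nB1 := abs_nonneg B.1
  have nB2 := abs_nonneg B.2
  have k1 : u1 * |A.2| + u2 * |B.2| ≤
      Z / cp A K * (|A.1| + |A.2|) + Z / cp K B * (|B.1| + |B.2|) :=
    add_le_add (mul_le_mul q1 (by linarith) nA2 (p1.trans q1))
      (mul_le_mul q2 (by linarith) nB2 (p2.trans q2))
  have k2 : u1 * |A.1| + u2 * |B.1| ≤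
      Z / cp A K * (|A.1| + |A.2|) + Z / cp K B * (|B.1| + |B.2|) :=
    add_le_add (mul_le_mul q1 (by linarith) nA1 (p1.trans q1))
      (mul_le_mul q2 (by linarith) nB1 (p2.trans q2))
  rw [hR]
  constructor
  · rw [le_div_iff₀ hD]
    have : |ξ.1 - w.1| * cp A B = |u1 * A.2 - u2 * B.2| := by
      rw [← e1, abs_mul, abs_of_pos hD, mul_comm]
    rw [this]
    refine (abs_sub _ _).trans ?_
    rw [abs_mul, abs_mul, abs_of_nonneg p1, abs_of_nonneg p2]
    exact k1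
  · rw [le_div_iff₀ hD]
    have : |ξ.2 - w.2| * cp A B = |u2 * B.1 - u1 * A.1| := by
      rw [← e2, abs_mul, abs_of_pos hD, mul_comm]
    rw [this]
    refine (abs_sub _ _).trans ?_
    rw [abs_mul, abs_mul, abs_of_nonneg p1, abs_of_nonneg p2]
    linarith

/-- positivity at a touching constraint -/
lemma touch_pos (hP : PD N b n ν v ℓ c kk) (i : ℕ) (k : κ) (hk : Tc N b v kk i k) :
    0 < cp (N (kk i)) (N k) ∧ 0 < cp (N k) (N (kk (i + 1))) := by
  have h := hP.poly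
  have c1 := hP.cpos i
  have c2 := hP.cpos (i + 1)
  have p1 := h.pos i
  have p2 := h.pos (i + 1)
  have s1 := dp_step h (N k) i
  have s2 := dp_step h (N k) (i + 1)
  have t1 : dp (N k) (v i) < b k := by
    refine lt_of_le_of_ne (hP.le k i) fun he => ?_
    exact hP.tch k hk.1 i ⟨he, hk.2⟩
  have t2 : dp (N k) (v (i + 1 + 1)) < b k := by
    refine lt_of_le_of_ne (hP.le k (i + 1 + 1)) fun he => ?_
    exact hP.tch k hk.1 (i + 1) ⟨hk.2, he⟩
  rw [hk.2] at s1 s2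
  have q1 : 0 < cp (ν i) (N k) := by
    by_contra hc
    push Not at hc
    have := mul_nonpos_of_nonneg_of_nonpos p1.le hc
    linarith
  have q2 : cp (ν (i + 1)) (N k) < 0 := by
    by_contra hc
    push Not at hc
    have := mul_nonneg p2.le hc
    linarith
  rw [hP.hN i, hP.hN (i + 1)]
  constructor
  · have : cp (c i • ν i) (N k) = c i * cp (ν i) (N k) := by
      simp only [cp, Prod.smul_fst, Prod.smul_snd, smul_eq_mul]; ring
    rw [this]
    exact mul_pos c1 q1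
  · have : cp (N k) (c (i + 1) • ν (i + 1)) = c (i + 1) * (-cp (ν (i + 1)) (N k)) := by
      simp only [cp, Prod.smul_fst, Prod.smul_snd, smul_eq_mul]; ring
    rw [this]
    exact mul_pos c2 (by linarith)

/-- the corner cuts are small -/
lemma ev4 (hP : PD N b n ν v ℓ c kk) (M : κ → R2) (e : κ → ℝ) (i : ℕ) (k : κ)
    (hk : Tc N b v kk i k) (U : Set R2) (hU : U ∈ 𝓝 (v (i + 1))) :
    ∀ᶠ p : ℝ × ℝ in 𝓝 (0, 0), ∀ ξ : R2,
      dp (Np N M p.1 (kk i)) ξ ≤ bp b e p.2 (kk i) →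
      dp (Np N M p.1 (kk (i + 1))) ξ ≤ bp b e p.2 (kk (i + 1)) →
      bp b e p.2 k < dp (Np N M p.1 k) ξ → ξ ∈ U := by
  obtain ⟨ε, hε, hball⟩ := Metric.mem_nhds_iff.1 hU
  obtain ⟨t1, t2⟩ := touch_pos hP i k hk
  have hA := (cont_Np N M (kk i)).continuousAt (x := ((0 : ℝ), (0 : ℝ)))
  have hB := (cont_Np N M (kk (i + 1))).continuousAt (x := ((0 : ℝ), (0 : ℝ)))
  have hK := (cont_Np N M k).continuousAt (x := ((0 : ℝ), (0 : ℝ)))
  have hw := vx_cont hP M e i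
  have hz := (cont_bp b e k).continuousAt (x := ((0 : ℝ), (0 : ℝ)))
  have cAB := ca_cp hA hB
  have cAK := ca_cp hA hK
  have cKB := ca_cp hK hB
  have hAK0 : cp (Np N M ((0 : ℝ), (0 : ℝ)).1 (kk i)) (Np N M ((0 : ℝ), (0 : ℝ)).1 k) ≠ 0 := by
    simp only [Np_zero]; exact t1.ne'
  have hKB0 : cp (Np N M ((0 : ℝ), (0 : ℝ)).1 k) (Np N M ((0 : ℝ), (0 : ℝ)).1 (kk (i + 1))) ≠
      0 := by
    simp only [Np_zero]; exact t2.ne'
  have cG : ContinuousAt (fun p : ℝ × ℝ =>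
      (dp (Np N M p.1 k) (vx N M b e kk p.1 p.2 i) - bp b e p.2 k) *
      ((|(Np N M p.1 (kk i)).1| + |(Np N M p.1 (kk i)).2|) /
        cp (Np N M p.1 (kk i)) (Np N M p.1 k) +
        (|(Np N M p.1 (kk (i + 1))).1| + |(Np N M p.1 (kk (i + 1))).2|) /
        cp (Np N M p.1 k) (Np N M p.1 (kk (i + 1))))) (0, 0) :=
    ((ca_dp hK hw).sub hz).mul (((hA.fst.abs.add hA.snd.abs).div cAK hAK0).add
      ((hB.fst.abs.add hB.snd.abs).div cKB hKB0))
  have tG : Tendsto (fun p : ℝ × ℝ =>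
      (dp (Np N M p.1 k) (vx N M b e kk p.1 p.2 i) - bp b e p.2 k) *
      ((|(Np N M p.1 (kk i)).1| + |(Np N M p.1 (kk i)).2|) /
        cp (Np N M p.1 (kk i)) (Np N M p.1 k) +
        (|(Np N M p.1 (kk (i + 1))).1| + |(Np N M p.1 (kk (i + 1))).2|) /
        cp (Np N M p.1 k) (Np N M p.1 (kk (i + 1))))) (𝓝 (0, 0)) (𝓝 0) := by
    have := cG.tendsto
    have e0 : dp (Np N M 0 k) (vx N M b e kk 0 0 i) - bp b e 0 k = 0 := by
      rw [Np_zero, bp_zero, vx_zero hP, hk.2, sub_self]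
    simp only [e0, zero_mul] at this
    exact this
  have tw : Tendsto (fun p : ℝ × ℝ => dist (vx N M b e kk p.1 p.2 i) (v (i + 1))) (𝓝 (0, 0))
      (𝓝 0) := by
    have := (hw.tendsto).dist (tendsto_const_nhds (x := v (i + 1)))
    simp only [vx_zero hP, dist_self] at this
    exact this
  have pAB : 0 < cp (Np N M ((0 : ℝ), (0 : ℝ)).1 (kk i))
      (Np N M ((0 : ℝ), (0 : ℝ)).1 (kk (i + 1))) := by
    simp only [Np_zero]; exact cp_pos0 hP i
  have pAK : 0 < cp (Np N M ((0 : ℝ), (0 : ℝ)).1 (kk i)) (Np N M ((0 : ℝ), (0 : ℝ)).1 k) := by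
    simp only [Np_zero]; exact t1
  have pKB : 0 < cp (Np N M ((0 : ℝ), (0 : ℝ)).1 k)
      (Np N M ((0 : ℝ), (0 : ℝ)).1 (kk (i + 1))) := by
    simp only [Np_zero]; exact t2
  filter_upwards [tG.eventually_lt_const (half_pos hε), tw.eventually_lt_const (half_pos hε),
    cAB.eventually (lt_mem_nhds pAB), cAK.eventually (lt_mem_nhds pAK),
    cKB.eventually (lt_mem_nhds pKB)] with p g1 g2 g3 g4 g5 ξ x1 x2 x3
  have hwA : dp (Np N M p.1 (kk i)) (vx N M b e kk p.1 p.2 i) = bp b e p.2 (kk i) :=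
    dp_isx_left _ _ _ _ g3.ne'
  have hwB : dp (Np N M p.1 (kk (i + 1))) (vx N M b e kk p.1 p.2 i) = bp b e p.2 (kk (i + 1)) :=
    dp_isx_right _ _ _ _ g3.ne'
  obtain ⟨y1, y2⟩ := wedge_bound _ _ _ _ ξ _ _ _ g3 g4 g5 hwA hwB x1 x2 x3
  apply hball
  rw [Metric.mem_ball]
  refine lt_of_le_of_lt (dist_triangle _ (vx N M b e kk p.1 p.2 i) _) ?_
  have y3 : dist ξ (vx N M b e kk p.1 p.2 i) < ε / 2 := by
    rw [Prod.dist_eq, max_lt_iff, Real.dist_eq, Real.dist_eq]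
    exact ⟨lt_of_le_of_lt y1 g1, lt_of_le_of_lt y2 g1⟩
  linarith

lemma kk_mod (hP : PD N b n ν v ℓ c kk) (j : ℕ) : kk (j % n) = kk j :=
  Function.Periodic.map_mod_nat (f := kk) hP.pk j

lemma kk_of_nu (hP : PD N b n ν v ℓ c kk) (i j : ℕ) (h : ν j = ν i) : kk j = kk i := by
  have hn : 0 < n := by have := hP.poly.n3; omega
  have e1 : ν (j % n) = ν j := Function.Periodic.map_mod_nat (f := ν) hP.poly.pν j
  have e2 : ν (i % n) = ν i := Function.Periodic.map_mod_nat (f := ν) hP.poly.pν i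
  have e3 : j % n = i % n :=
    hP.poly.inj _ _ (Nat.mod_lt _ hn) (Nat.mod_lt _ hn) (by rw [e1, e2, h])
  rw [← kk_mod hP j, ← kk_mod hP i, e3]

/-- other constraints are strict near a vertex -/
lemma ev5 (hP : PD N b n ν v ℓ c kk) (M : κ → R2) (e : κ → ℝ) (i j : ℕ) (h1 : kk j ≠ kk i)
    (h2 : kk j ≠ kk (i + 1)) : ∃ U ∈ 𝓝 (v (i + 1)), ∀ᶠ p : ℝ × ℝ in 𝓝 (0, 0), ∀ ξ ∈ U,
      dp (Np N M p.1 (kk j)) ξ ≤ bp b e p.2 (kk j) := by
  have hs : dp (N (kk j)) (v (i + 1)) < b (kk j) := by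
    refine lt_of_le_of_ne (hP.le _ _) fun he => ?_
    rw [hP.hN, hP.hb, dp_smul_l] at he
    have he' := mul_left_cancel₀ (hP.cpos j).ne' he
    rcases strict hP.poly i j he' with h3 | h3
    · exact h1 (kk_of_nu hP i j h3)
    · exact h2 (kk_of_nu hP (i + 1) j h3)
  have hc : Continuous (fun q : R2 × (ℝ × ℝ) =>
      bp b e q.2.2 (kk j) - dp (Np N M q.2.1 (kk j)) q.1) := by
    unfold bp dp Np
    fun_prop
  have hpos : 0 < (fun q : R2 × (ℝ × ℝ) =>
      bp b e q.2.2 (kk j) - dp (Np N M q.2.1 (kk j)) q.1) (v (i + 1), ((0 : ℝ), (0 : ℝ))) := by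
    simp only [Np_zero, bp_zero]
    linarith
  have hev := hc.continuousAt.eventually (lt_mem_nhds hpos)
  rw [nhds_prod_eq] at hev
  obtain ⟨U, hU, W, hW, hUW⟩ := Filter.mem_prod_iff.1 hev
  refine ⟨U, hU, ?_⟩
  filter_upwards [hW] with p hp ξ hξ
  have : 0 < bp b e p.2 (kk j) - dp (Np N M p.1 (kk j)) ξ := hUW (mk_mem_prod hξ hp)
  linarith

/-- the corner cuts are inside the essential polygon -/
lemma ev45 (hP : PD N b n ν v ℓ c kk) (M : κ → R2) (e : κ → ℝ) (i : ℕ) (k : κ)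
    (hk : Tc N b v kk i k) :
    ∀ᶠ p : ℝ × ℝ in 𝓝 (0, 0), ∀ ξ : R2,
      dp (Np N M p.1 (kk i)) ξ ≤ bp b e p.2 (kk i) →
      dp (Np N M p.1 (kk (i + 1))) ξ ≤ bp b e p.2 (kk (i + 1)) →
      bp b e p.2 k < dp (Np N M p.1 k) ξ → ξ ∈ Pe N M b e kk p := by
  have hn : 0 < n := by have := hP.poly.n3; omega
  have h1 : ∀ j ∈ Finset.range n, ∀ᶠ p : ℝ × ℝ in 𝓝 (0, 0), ∀ ξ : R2,
      dp (Np N M p.1 (kk i)) ξ ≤ bp b e p.2 (kk i) →
      dp (Np N M p.1 (kk (i + 1))) ξ ≤ bp b e p.2 (kk (i + 1)) →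
      bp b e p.2 k < dp (Np N M p.1 k) ξ → dp (Np N M p.1 (kk j)) ξ ≤ bp b e p.2 (kk j) := by
    intro j _
    by_cases c1 : kk j = kk i
    · exact Eventually.of_forall fun p ξ x1 _ _ => by rw [c1]; exact x1
    by_cases c2 : kk j = kk (i + 1)
    · exact Eventually.of_forall fun p ξ _ x2 _ => by rw [c2]; exact x2
    obtain ⟨U, hU, hev⟩ := ev5 hP M e i j c1 c2
    filter_upwards [hev, ev4 hP M e i k hk U hU] with p q1 q2 ξ x1 x2 x3
    exact q1 ξ (q2 ξ x1 x2 x3)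
  have h2 := (eventually_all_finset (Finset.range n)).2 h1
  filter_upwards [h2] with p hp ξ x1 x2 x3 j
  rw [← kk_mod hP j]
  exact hp _ (Finset.mem_range.2 (Nat.mod_lt _ hn)) ξ x1 x2 x3

/-- the corner cuts at different vertices are disjoint -/
lemma ev6 (hP : PD N b n ν v ℓ c kk) (M : κ → R2) (e : κ → ℝ) (i j : ℕ) (hi : i < n) (hj : j < n)
    (hij : i ≠ j) (k k' : κ) (hk : Tc N b v kk i k) (hk' : Tc N b v kk j k') :
    ∀ᶠ p : ℝ × ℝ in 𝓝 (0, 0), ∀ ξ : R2,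
      dp (Np N M p.1 (kk i)) ξ ≤ bp b e p.2 (kk i) →
      dp (Np N M p.1 (kk (i + 1))) ξ ≤ bp b e p.2 (kk (i + 1)) →
      bp b e p.2 k < dp (Np N M p.1 k) ξ →
      dp (Np N M p.1 (kk j)) ξ ≤ bp b e p.2 (kk j) →
      dp (Np N M p.1 (kk (j + 1))) ξ ≤ bp b e p.2 (kk (j + 1)) →
      ¬ (bp b e p.2 k' < dp (Np N M p.1 k') ξ) := by
  have hne : v (i + 1) ≠ v (j + 1) := by
    intro he
    exact hij (hP.poly.inj j i hj hi (vdist hP.poly i j he)).symm
  obtain ⟨U, W, hU, hW, hd⟩ := t2_separation_nhds hne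
  filter_upwards [ev4 hP M e i k hk U hU, ev4 hP M e j k' hk' W hW] with p q1 q2 ξ x1 x2 x3 x4
    x5 x6
  exact Set.disjoint_left.1 hd (q1 ξ x1 x2 x3) (q2 ξ x4 x5 x6)

/-! ## change of variables -/

/-- the linear map -/
noncomputable def LM (z1 z2 : R2) : R2 →ₗ[ℝ] R2 :=
  (LinearMap.fst ℝ ℝ ℝ).smulRight z1 + (LinearMap.snd ℝ ℝ ℝ).smulRight z2

lemma LM_apply (z1 z2 u : R2) : LM z1 z2 u = u.1 • z1 + u.2 • z2 := by
  simp [LM]

lemma LM_det (z1 z2 : R2) : LinearMap.det (LM z1 z2) = cp z1 z2 := by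
  have h : LinearMap.toMatrix (Module.Basis.finTwoProd ℝ) (Module.Basis.finTwoProd ℝ) (LM z1 z2) =
      !![z1.1, z2.1; z1.2, z2.2] := by
    ext i j
    fin_cases i <;> fin_cases j <;> simp [LinearMap.toMatrix_apply, LM_apply]
  rw [← LinearMap.det_toMatrix (Module.Basis.finTwoProd ℝ), h, Matrix.det_fin_two_of]
  simp only [cp]
  ring

lemma cov (A B w : R2) (hD : 0 < cp A B) (g : R2 → ℝ) (hg : Measurable g) :
    ∫ ξ, g ξ = 1 / cp A B * ∫ u : R2,
      g (w + (u.1 • ((-(1 / cp A B)) • rt A) + u.2 • ((1 / cp A B) • rt B))) := by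
  set z1 : R2 := (-(1 / cp A B)) • rt A with hz1
  set z2 : R2 := (1 / cp A B) • rt B with hz2
  have hdet : LinearMap.det (LM z1 z2) = -(1 / cp A B) := by
    rw [LM_det]
    have : cp z1 z2 = -(1 / cp A B) * (1 / cp A B) * cp A B := by
      simp only [hz1, hz2, cp, rt, Prod.smul_fst, Prod.smul_snd, smul_eq_mul]
      ring
    rw [this]
    field_simp
  have hne : LinearMap.det (LM z1 z2) ≠ 0 := by
    rw [hdet]
    have := one_div_pos.2 hD
    linarith
  have hmap := Measure.map_linearMap_addHaar_eq_smul_addHaar (volume : Measure R2) hne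
  have habs : |(LinearMap.det (LM z1 z2))⁻¹| = cp A B := by
    rw [hdet, inv_neg, abs_neg, one_div, inv_inv, abs_of_pos hD]
  rw [habs] at hmap
  have e1 : ∫ ξ, g ξ = ∫ ξ, g (w + ξ) := (integral_add_left_eq_self g w).symm
  have hg' : Measurable (fun ξ : R2 => g (w + ξ)) := hg.comp (measurable_const_add w)
  have hLm : Measurable (LM z1 z2) :=
    (LM z1 z2).continuous_of_finiteDimensional.measurable
  have e2 : ∫ ξ, g (w + ξ) ∂(Measure.map (LM z1 z2) volume) =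
      ∫ u, g (w + LM z1 z2 u) := integral_map hLm.aemeasurable hg'.aestronglyMeasurable
  rw [hmap, integral_smul_measure, ENNReal.toReal_ofReal hD.le, smul_eq_mul] at e2
  rw [e1]
  simp only [LM_apply] at e2
  rw [← e2]
  field_simp

/-! ## corner sets -/

/-- corner set at the vertex `i+1` -/
def Cs {κ : Type} (N M : κ → R2) (b e : κ → ℝ) (v : ℕ → R2) (kk : ℕ → κ) (p : ℝ × ℝ)
    (i : ℕ) : Set R2 :=
  {ξ | dp (Np N M p.1 (kk i)) ξ ≤ bp b e p.2 (kk i) ∧
    dp (Np N M p.1 (kk (i + 1))) ξ ≤ bp b e p.2 (kk (i + 1)) ∧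
    ∃ k, Tc N b v kk i k ∧ bp b e p.2 k < dp (Np N M p.1 k) ξ}

lemma meas_dp (a : R2) : Measurable (fun ξ : R2 => dp a ξ) := by
  unfold dp
  fun_prop

lemma meas_af (r : ℝ × R2) : Measurable (fun ξ : R2 => af r ξ) := by
  unfold af dp
  fun_prop

lemma meas_Cs (N M : κ → R2) (b e : κ → ℝ) (v : ℕ → R2) (kk : ℕ → κ) (p : ℝ × ℝ) (i : ℕ) :
    MeasurableSet (Cs N M b e v kk p i) := by
  unfold Cs
  refine MeasurableSet.inter (measurableSet_le (meas_dp _) measurable_const)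
    (MeasurableSet.inter (measurableSet_le (meas_dp _) measurable_const) ?_)
  have : {ξ : R2 | ∃ k, Tc N b v kk i k ∧ bp b e p.2 k < dp (Np N M p.1 k) ξ} =
      ⋃ k, {ξ : R2 | Tc N b v kk i k ∧ bp b e p.2 k < dp (Np N M p.1 k) ξ} := by
    ext ξ
    simp
  change MeasurableSet {ξ : R2 | ∃ k, Tc N b v kk i k ∧ bp b e p.2 k < dp (Np N M p.1 k) ξ}
  rw [this]
  refine MeasurableSet.iUnion fun k => ?_
  exact (MeasurableSet.const _).inter (measurableSet_lt measurable_const (meas_dp _))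

lemma meas_S (T : κ → Prop) (A B x : κ → ℝ) :
    MeasurableSet {u : ℝ × ℝ | 0 ≤ u.1 ∧ 0 ≤ u.2 ∧ ∃ k, T k ∧ A k * u.1 + B k * u.2 < x k} := by
  refine MeasurableSet.inter (measurableSet_le measurable_const measurable_fst)
    (MeasurableSet.inter (measurableSet_le measurable_const measurable_snd) ?_)
  have : {u : ℝ × ℝ | ∃ k, T k ∧ A k * u.1 + B k * u.2 < x k} =
      ⋃ k, {u : ℝ × ℝ | T k ∧ A k * u.1 + B k * u.2 < x k} := by
    ext u
    simp
  change MeasurableSet {u : ℝ × ℝ | ∃ k, T k ∧ A k * u.1 + B k * u.2 < x k}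
  rw [this]
  refine MeasurableSet.iUnion fun k => ?_
  have hm : Measurable (fun u : ℝ × ℝ => A k * u.1 + B k * u.2) := by fun_prop
  exact (MeasurableSet.const _).inter (measurableSet_lt hm measurable_const)

lemma int_Cs (N M : κ → R2) (b e : κ → ℝ) (v : ℕ → R2) (kk : ℕ → κ) (τ s : ℝ) (i : ℕ)
    (r : ℝ × R2) (hD : 0 < cp (Np N M τ (kk i)) (Np N M τ (kk (i + 1)))) :
    ∫ ξ in Cs N M b e v kk (τ, s) i, af r ξ = Cu N M b e v kk r τ s i := by
  rw [← integral_indicator (meas_Cs N M b e v kk (τ, s) i),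
    cov (Np N M τ (kk i)) (Np N M τ (kk (i + 1))) (vx N M b e kk τ s i) hD _
      ((meas_af r).indicator (meas_Cs N M b e v kk (τ, s) i))]
  unfold Cu Psi
  rw [← integral_indicator (meas_S _ _ _ _)]
  congr 2
  funext u
  have hwA : dp (Np N M τ (kk i)) (vx N M b e kk τ s i) = bp b e s (kk i) :=
    dp_isx_left _ _ _ _ hD.ne'
  have hwB : dp (Np N M τ (kk (i + 1))) (vx N M b e kk τ s i) = bp b e s (kk (i + 1)) :=
    dp_isx_right _ _ _ _ hD.ne'
  set A := Np N M τ (kk i) with hA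
  set B := Np N M τ (kk (i + 1)) with hB
  set w := vx N M b e kk τ s i with hw
  have eK : ∀ K : R2, dp K (w + (u.1 • ((-(1 / cp A B)) • rt A) + u.2 • ((1 / cp A B) • rt B))) =
      dp K w - (cp A K / cp A B * u.1 + cp K B / cp A B * u.2) := by
    intro K
    simp only [dp, cp, rt, Prod.fst_add, Prod.snd_add, Prod.smul_fst, Prod.smul_snd, smul_eq_mul]
    ring
  have eA : dp A (w + (u.1 • ((-(1 / cp A B)) • rt A) + u.2 • ((1 / cp A B) • rt B))) =
      bp b e s (kk i) - u.2 := by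
    rw [eK, hwA]
    have : cp A A = 0 := by simp only [cp]; ring
    rw [this, div_self hD.ne']
    ring
  have eB : dp B (w + (u.1 • ((-(1 / cp A B)) • rt A) + u.2 • ((1 / cp A B) • rt B))) =
      bp b e s (kk (i + 1)) - u.1 := by
    rw [eK, hwB]
    have : cp B B = 0 := by simp only [cp]; ring
    rw [this, div_self hD.ne']
    ring
  have eaf : af r (w + (u.1 • ((-(1 / cp A B)) • rt A) + u.2 • ((1 / cp A B) • rt B))) =
      af r w + -(dp r.2 (rt A)) / cp A B * u.1 + dp r.2 (rt B) / cp A B * u.2 := by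
    simp only [af, dp, rt, Prod.fst_add, Prod.snd_add, Prod.smul_fst, Prod.smul_snd, smul_eq_mul]
    ring
  have hmem : (w + (u.1 • ((-(1 / cp A B)) • rt A) + u.2 • ((1 / cp A B) • rt B))) ∈
      Cs N M b e v kk (τ, s) i ↔ u ∈ {u : ℝ × ℝ | 0 ≤ u.1 ∧ 0 ≤ u.2 ∧
        ∃ k, Tc N b v kk i k ∧ cp A (Np N M τ k) / cp A B * u.1 +
          cp (Np N M τ k) B / cp A B * u.2 <
          dp (Np N M τ k) w - bp b e s k} := by
    unfold Cs
    simp only [Set.mem_ofPred_eq]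
    change (dp A _ ≤ bp b e s (kk i) ∧ dp B _ ≤ bp b e s (kk (i + 1)) ∧
      ∃ k, Tc N b v kk i k ∧ bp b e s k < dp (Np N M τ k) _) ↔ _
    rw [eA, eB]
    simp only [eK]
    constructor
    · rintro ⟨a1, a2, k, a3, a4⟩
      exact ⟨by linarith, by linarith, k, a3, by linarith⟩
    · rintro ⟨a1, a2, k, a3, a4⟩
      exact ⟨by linarith, by linarith, k, a3, by linarith⟩
  by_cases hu : u ∈ {u : ℝ × ℝ | 0 ≤ u.1 ∧ 0 ≤ u.2 ∧
        ∃ k, Tc N b v kk i k ∧ cp A (Np N M τ k) / cp A B * u.1 +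
          cp (Np N M τ k) B / cp A B * u.2 <
          dp (Np N M τ k) w - bp b e s k}
  · rw [indicator_of_mem (hmem.2 hu), indicator_of_mem hu, eaf]
  · rw [indicator_of_notMem (fun hc => hu (hmem.1 hc)), indicator_of_notMem hu]

end DECaux

open DECaux

theorem blk_DEC (hPPS : Stmt_PPS) : Stmt_DEC := by
  intro κ _ N M b e n ν v ℓ c kk hP
  have hn : 0 < n := by have := hP.poly.n3; omega
  obtain ⟨τ1, hτ1, hpps⟩ := hPPS κ N M b e n ν v ℓ c kk hP
  obtain ⟨R, hR0, hR⟩ := ev2 hP M e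
  have F3 : ∀ᶠ p : ℝ × ℝ in 𝓝 (0, 0), ∀ k, (∀ j, dp (N k) (v j) < b k) →
      ∀ ξ ∈ Pe N M b e kk p, dp (Np N M p.1 k) ξ ≤ bp b e p.2 k := by
    rw [eventually_all]
    intro k
    by_cases hk : ∀ j, dp (N k) (v j) < b k
    · filter_upwards [ev3 hP M e k hk] with p hp _
      exact hp
    · exact Eventually.of_forall fun p h => absurd h hk
  have F4 : ∀ᶠ p : ℝ × ℝ in 𝓝 (0, 0), ∀ i ∈ Finset.range n, ∀ k, Tc N b v kk i k → ∀ ξ : R2,
      dp (Np N M p.1 (kk i)) ξ ≤ bp b e p.2 (kk i) →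
      dp (Np N M p.1 (kk (i + 1))) ξ ≤ bp b e p.2 (kk (i + 1)) →
      bp b e p.2 k < dp (Np N M p.1 k) ξ → ξ ∈ Pe N M b e kk p := by
    rw [eventually_all_finset]
    intro i _
    rw [eventually_all]
    intro k
    by_cases hk : Tc N b v kk i k
    · filter_upwards [ev45 hP M e i k hk] with p hp _
      exact hp
    · exact Eventually.of_forall fun p h => absurd h hk
  have F6 : ∀ᶠ p : ℝ × ℝ in 𝓝 (0, 0), ∀ i ∈ Finset.range n, ∀ j ∈ Finset.range n, ∀ k k' : κ,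
      i ≠ j → Tc N b v kk i k → Tc N b v kk j k' → ∀ ξ : R2,
      dp (Np N M p.1 (kk i)) ξ ≤ bp b e p.2 (kk i) →
      dp (Np N M p.1 (kk (i + 1))) ξ ≤ bp b e p.2 (kk (i + 1)) →
      bp b e p.2 k < dp (Np N M p.1 k) ξ →
      dp (Np N M p.1 (kk j)) ξ ≤ bp b e p.2 (kk j) →
      dp (Np N M p.1 (kk (j + 1))) ξ ≤ bp b e p.2 (kk (j + 1)) →
      ¬ (bp b e p.2 k' < dp (Np N M p.1 k') ξ) := by
    rw [eventually_all_finset]
    intro i hi
    rw [eventually_all_finset]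
    intro j hj
    rw [eventually_all]
    intro k
    rw [eventually_all]
    intro k'
    by_cases hk : i ≠ j ∧ Tc N b v kk i k ∧ Tc N b v kk j k'
    · filter_upwards [ev6 hP M e i j (Finset.mem_range.1 hi) (Finset.mem_range.1 hj) hk.1 k k'
        hk.2.1 hk.2.2] with p hp _ _ _
      exact hp
    · exact Eventually.of_forall fun p h1 h2 h3 => absurd ⟨h1, h2, h3⟩ hk
  obtain ⟨ε, hε, hball⟩ := Metric.eventually_nhds_iff.1 (((hR.and F3).and F4).and F6)
  refine ⟨min τ1 (ε / 2), lt_min hτ1 (half_pos hε), fun τ s hτ hs r => ?_⟩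
  have hdist : dist ((τ, s) : ℝ × ℝ) (0, 0) < ε := by
    rw [Prod.dist_eq, max_lt_iff, Real.dist_eq, Real.dist_eq]
    have h1 := min_le_right τ1 (ε / 2)
    constructor
    · simp only [sub_zero]
      linarith
    · simp only [sub_zero]
      linarith
  obtain ⟨⟨⟨g1, g3⟩, g4⟩, g6⟩ := hball hdist
  obtain ⟨q1, q2, q3⟩ := hpps τ s (hτ.trans (min_le_left _ _)) (hs.trans (min_le_left _ _))
  have hint : IntegrableOn (fun ξ : R2 => af r ξ) (Pe N M b e kk (τ, s)) := by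
    have hc : Continuous (fun ξ : R2 => af r ξ) := by
      unfold af dp
      fun_prop
    have hI : IntegrableOn (fun ξ : R2 => af r ξ) (Icc ((-R, -R) : R2) (R, R)) :=
      hc.locallyIntegrable.integrableOn_isCompact isCompact_Icc
    refine hI.mono_set ?_
    intro ξ hξ
    have h1 := g1 ξ hξ
    have h2 := abs_nonneg ξ.1
    have h3 := abs_nonneg ξ.2
    have h4 : |ξ.1| ≤ R := by linarith
    have h5 : |ξ.2| ≤ R := by linarith
    rw [abs_le] at h4 h5
    exact ⟨⟨h4.1, h5.1⟩, ⟨h4.2, h5.2⟩⟩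
  have hsub : (⋃ i ∈ Finset.range n, Cs N M b e v kk (τ, s) i) ⊆ Pe N M b e kk (τ, s) := by
    intro ξ hξ
    simp only [Set.mem_iUnion] at hξ
    obtain ⟨i, hi, a1, a2, k, a3, a4⟩ := hξ
    exact g4 i hi k a3 ξ a1 a2 a4
  have hset : PP N M b e τ s =
      Pe N M b e kk (τ, s) \ ⋃ i ∈ Finset.range n, Cs N M b e v kk (τ, s) i := by
    ext ξ
    constructor
    · intro hξ
      refine ⟨fun i => hξ (kk i), ?_⟩
      simp only [Set.mem_iUnion, not_exists]
      rintro i hi ⟨-, -, k, -, a4⟩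
      exact absurd (hξ k) (not_le.2 a4)
    · rintro ⟨h1, h2⟩ k
      by_cases hk1 : ∃ i, kk i = k
      · obtain ⟨i, rfl⟩ := hk1
        exact h1 i
      push Not at hk1
      by_cases hk2 : ∀ j, dp (N k) (v j) < b k
      · exact g3 k hk2 ξ h1
      push Not at hk2
      obtain ⟨j, hj⟩ := hk2
      by_contra hviol
      push Not at hviol
      apply h2
      simp only [Set.mem_iUnion]
      refine ⟨(j + (n - 1)) % n, Finset.mem_range.2 (Nat.mod_lt _ hn), ?_⟩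
      have hv1 : v ((j + (n - 1)) % n + 1) = v j := by
        have e1 : ((j + (n - 1)) % n + 1) % n = j % n := by
          have e2 : j + (n - 1) + 1 = j + n := by omega
          rw [Nat.mod_add_mod, e2, Nat.add_mod_right]
        have e3 : v (((j + (n - 1)) % n + 1) % n) = v ((j + (n - 1)) % n + 1) :=
          Function.Periodic.map_mod_nat (f := v) hP.poly.pv _
        have e4 : v (j % n) = v j := Function.Periodic.map_mod_nat (f := v) hP.poly.pv _
        rw [← e3, e1, e4]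
      refine ⟨h1 _, h1 _, k, ⟨hk1, ?_⟩, hviol⟩
      rw [hv1]
      exact le_antisymm (hP.le k j) hj
  have hUm : MeasurableSet (⋃ i ∈ Finset.range n, Cs N M b e v kk (τ, s) i) :=
    Finset.measurableSet_biUnion _ fun i _ => meas_Cs N M b e v kk (τ, s) i
  rw [hset, setIntegral_sdiff hUm hint hsub,
    integral_biUnion_finset (Finset.range n) (fun i _ => meas_Cs N M b e v kk (τ, s) i) ?_
      (fun i hi => hint.mono_set ((Set.subset_biUnion_of_mem (u := fun i =>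
        Cs N M b e v kk (τ, s) i) hi).trans hsub))]
  · have e1 : ∫ ξ in Pe N M b e kk (τ, s), af r ξ = J0 n (vx N M b e kk τ s) r := q3 r
    rw [e1]
    congr 1
    exact Finset.sum_congr rfl fun i _ => int_Cs N M b e v kk τ s i r (q1 i)
  · intro i hi j hj hij
    rw [Function.onFun, Set.disjoint_left]
    rintro ξ ⟨a1, a2, k, a3, a4⟩ ⟨b1, b2, k', b3, b4⟩
    exact g6 i hi j hj k k' hij a3 b3 ξ a1 a2 a4 b1 b2 b4

end Pool.G1
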