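import Pool.Agent.Work.MP_b5407d_g1.Interface
import Pool.Agent.Work.MP_b5407d_t3.GPD

/-!
# G1, block `DEN`: admissible families are dense (helper53)
-/

set_option autoImplicit false

open MeasureTheory Set Filter Topology

namespace Pool.G1

open Pool.T3 (R3 dt cr de)
open Pool.T3.GPD_ (w g de_cubic cubic_finite ev_not_mem w_cont w_zero)

theorem blk_DEN : Stmt_DEN := by
  intro ι _ hN y η hη
  set N := Fintype.card ι with hNdef
  obtain ⟨e⟩ : Nonempty (ι ≃ Fin N) := ⟨Fintype.equivFin ι⟩
  set θ : Fin N → R3 := fun i => y (e.symm i) with hθ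
  have hA : ∀ᶠ s : ℝ in 𝓝[>] 0, ∀ i j k : Fin N, i ≠ j → i ≠ k → j ≠ k →
      de (w θ s i) (w θ s j) (w θ s k) ≠ 0 := by
    rw [Filter.eventually_all]; intro i
    rw [Filter.eventually_all]; intro j
    rw [Filter.eventually_all]; intro k
    by_cases hij : i ≠ j
    swap
    · exact Filter.Eventually.of_forall fun s h => absurd h hij
    by_cases hik : i ≠ k
    swap
    · exact Filter.Eventually.of_forall fun s _ h => absurd h hik
    by_cases hjk : j ≠ k
    swap
    · exact Filter.Eventually.of_forall fun s _ _ h => absurd h hjk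
    obtain ⟨a, b, c, habc⟩ := de_cubic θ i j k
    have hd : ((j : ℝ) - i) * ((k : ℝ) - i) * ((k : ℝ) - j) ≠ 0 := by
      refine mul_ne_zero (mul_ne_zero ?_ ?_) ?_
      · rw [sub_ne_zero]
        exact fun h => hij (Fin.ext (by exact_mod_cast h.symm))
      · rw [sub_ne_zero]
        exact fun h => hik (Fin.ext (by exact_mod_cast h.symm))
      · rw [sub_ne_zero]
        exact fun h => hjk (Fin.ext (by exact_mod_cast h.symm))
    filter_upwards [ev_not_mem _ (cubic_finite a b c _ hd)] with s hs _ _ _ h0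
    apply hs
    rw [habc s] at h0
    exact h0
  have hC : ∀ᶠ s : ℝ in 𝓝[>] 0, ∀ (i : Fin N) (k : Fin 3), |w θ s i k - θ i k| < η := by
    rw [Filter.eventually_all]; intro i
    rw [Filter.eventually_all]; intro k
    have h1 : Tendsto (fun s : ℝ => w θ s i k - θ i k) (𝓝 0) (𝓝 (θ i k - θ i k)) := by
      have ha : Tendsto (fun s : ℝ => w θ s i k) (𝓝 0) (𝓝 (θ i k)) := by
        have := (w_cont θ i k).tendsto 0
        rwa [w_zero] at this
      exact ha.sub tendsto_const_nhds
    rw [sub_self] at h1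
    have h2 := h1.abs
    rw [abs_zero] at h2
    exact nhdsWithin_le_nhds (h2.eventually (gt_mem_nhds hη))
  obtain ⟨s, hsA, hsC⟩ := (hA.and hC).exists
  refine ⟨fun i => w θ s (e i), ⟨?_, ?_⟩, ?_⟩
  · intro i j k hij hik hjk
    exact hsA (e i) (e j) (e k) (fun h => hij (e.injective h)) (fun h => hik (e.injective h))
      (fun h => hjk (e.injective h))
  · refine ⟨e.symm ⟨0, by omega⟩, e.symm ⟨1, by omega⟩, e.symm ⟨2, by omega⟩, ?_, ?_, ?_⟩ <;>
      simp [Fin.ext_iff]
  · intro i k
    have h := hsC (e i) k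
    rw [hθ] at h
    simpa only [Equiv.symm_apply_apply] using h

end Pool.G1
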