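import Pool.Agent.Work.MP_b5407d_g1.Interface

/-!
# G1, block FGN (helper83): admissible families
-/

set_option autoImplicit false

open MeasureTheory Set Filter Topology

namespace Pool.G1

open Pool.T3 (R3 dt cr de K V S H Fam Pos pt Lam Q J lin)

namespace FGN

theorem dt_smul (a b : ℝ) (x y : R3) : dt (a • x) (b • y) = a * b * dt x y := by
  simp only [dt, Pi.smul_apply, smul_eq_mul]; ring

theorem de_smul (a b c : ℝ) (x y z : R3) : de (a • x) (b • y) (c • z) = a * b * c * de x y z := by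
  simp only [de, dt, cr, Pi.smul_apply, smul_eq_mul, Matrix.cons_val_zero, Matrix.cons_val_one,
    Matrix.cons_val]
  ring

theorem third {ι : Type} (h3 : ∃ i j k : ι, i ≠ j ∧ i ≠ k ∧ j ≠ k) (i k : ι) :
    ∃ m : ι, i ≠ m ∧ k ≠ m := by
  obtain ⟨a, b, c, hab, hac, hbc⟩ := h3
  by_cases ha : i = a ∨ k = a
  · by_cases hb : i = b ∨ k = b
    · refine ⟨c, ?_, ?_⟩
      · rintro rfl
        rcases ha with h | h
        · exact hac h.symm
        · rcases hb with h' | h'
          · exact hbc h'.symm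
          · exact hab (h.symm.trans h')
      · rintro rfl
        rcases ha with h | h
        · rcases hb with h' | h'
          · exact hab (h.symm.trans h')
          · exact hbc h'.symm
        · exact hac h.symm
    · push Not at hb
      exact ⟨b, hb.1, hb.2⟩
  · push Not at ha
    exact ⟨a, ha.1, ha.2⟩

theorem other {ι : Type} (h3 : ∃ i j k : ι, i ≠ j ∧ i ≠ k ∧ j ≠ k) (i : ι) :
    ∃ j k : ι, i ≠ j ∧ i ≠ k ∧ j ≠ k := by
  obtain ⟨j, hj, _⟩ := third h3 i i
  obtain ⟨k, hk, hk'⟩ := third h3 i j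
  exact ⟨j, k, hj, hk, hk'⟩

theorem dt_self_pos {ι : Type} {y : ι → R3} (hy : FamG y) (i : ι) : 0 < dt (y i) (y i) := by
  obtain ⟨j, k, hij, hik, hjk⟩ := other hy.three i
  have h := hy.ind i j k hij hik hjk
  rcases lt_or_ge 0 (dt (y i) (y i)) with h0 | h0
  · exact h0
  · exfalso
    apply h
    have e : y i 0 * y i 0 + y i 1 * y i 1 + y i 2 * y i 2 ≤ 0 := h0
    have a0 : y i 0 = 0 := by nlinarith [sq_nonneg (y i 0), sq_nonneg (y i 1), sq_nonneg (y i 2)]
    have a1 : y i 1 = 0 := by nlinarith [sq_nonneg (y i 0), sq_nonneg (y i 1), sq_nonneg (y i 2)]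
    have a2 : y i 2 = 0 := by nlinarith [sq_nonneg (y i 0), sq_nonneg (y i 1), sq_nonneg (y i 2)]
    simp only [de, dt, cr, Matrix.cons_val_zero, Matrix.cons_val_one, Matrix.cons_val, a0, a1, a2]
    ring

theorem dvG {ι : Type} {y : ι → R3} {a : ι → ℝ}
    (hi : ∀ i j k, i ≠ j → i ≠ k → j ≠ k → de (y i) (y j) (y k) ≠ 0)
    (h3 : ∃ i j k : ι, i ≠ j ∧ i ≠ k ∧ j ≠ k) (ha : Pos a) : FamG (dv y a) := by
  refine ⟨?_, h3⟩
  intro i j k hij hik hjk
  have e : de (dv y a i) (dv y a j) (dv y a k) =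
      (1 / a i) * (1 / a j) * (1 / a k) * de (y i) (y j) (y k) := by
    simp only [dv]
    exact de_smul _ _ _ _ _ _
  rw [e]
  have h1 := (ha i).ne'
  have h2 := (ha j).ne'
  have h4 := (ha k).ne'
  exact mul_ne_zero (mul_ne_zero (mul_ne_zero (one_div_ne_zero h1) (one_div_ne_zero h2))
    (one_div_ne_zero h4)) (hi i j k hij hik hjk)

theorem cramer (a b c x : R3) (k : Fin 3) :
    x k * de a b c = dt a x * cr b c k + dt b x * cr c a k + dt c x * cr a b k := by
  fin_cases k <;>
  · simp [de, dt, cr]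
    ring

end FGN

open FGN in
/-- block FGN -/
theorem blk_FGN : Stmt_FGN := by
  refine ⟨?_, ?_, ?_, ?_⟩
  · intro ι y hy
    refine ⟨fun i => (1 / Real.sqrt (dt (y i) (y i))) • y i,
      fun i => 1 / Real.sqrt (dt (y i) (y i)), ?_, ?_, ?_⟩
    · refine ⟨?_, ?_, hy.three⟩
      · intro i
        have hp := dt_self_pos hy i
        have hs : Real.sqrt (dt (y i) (y i)) ≠ 0 := (Real.sqrt_pos.2 hp).ne'
        have hq : Real.sqrt (dt (y i) (y i)) * Real.sqrt (dt (y i) (y i)) = dt (y i) (y i) :=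
          Real.mul_self_sqrt hp.le
        have e := dt_smul (1 / Real.sqrt (dt (y i) (y i))) (1 / Real.sqrt (dt (y i) (y i))) (y i) (y i)
        show dt ((1 / Real.sqrt (dt (y i) (y i))) • y i) ((1 / Real.sqrt (dt (y i) (y i))) • y i) = 1
        rw [e]
        nth_rewrite 3 [← hq]
        field_simp
      · intro i j k hij hik hjk
        show de ((1 / Real.sqrt (dt (y i) (y i))) • y i) ((1 / Real.sqrt (dt (y j) (y j))) • y j)
          ((1 / Real.sqrt (dt (y k) (y k))) • y k) ≠ 0
        rw [de_smul]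
        have h1 := (Real.sqrt_pos.2 (dt_self_pos hy i)).ne'
        have h2 := (Real.sqrt_pos.2 (dt_self_pos hy j)).ne'
        have h4 := (Real.sqrt_pos.2 (dt_self_pos hy k)).ne'
        exact mul_ne_zero (mul_ne_zero (mul_ne_zero (one_div_ne_zero h1) (one_div_ne_zero h2))
          (one_div_ne_zero h4)) (hy.ind i j k hij hik hjk)
    · intro i
      exact one_div_pos.2 (Real.sqrt_pos.2 (dt_self_pos hy i))
    · funext i
      have h1 := (Real.sqrt_pos.2 (dt_self_pos hy i)).ne'
      simp only [dv]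
      rw [smul_smul]
      have : 1 / (1 / Real.sqrt (dt (y i) (y i))) * (1 / Real.sqrt (dt (y i) (y i))) = 1 := by
        field_simp
      rw [this, one_smul]
  · intro ι u h hu hh
    exact dvG hu.ind hu.three hh
  · intro ι y a hy ha
    exact dvG hy.ind hy.three ha
  · intro ι _ y hy
    refine ⟨?_, ?_⟩
    · intro i k hik h0
      obtain ⟨m, hm, hm'⟩ := third hy.three i k
      apply hy.ind i k m hik hm hm'
      rw [de, h0]
      simp [dt]
    · obtain ⟨a, b, c, hab, hac, hbc⟩ := hy.three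
      have hd := hy.ind a b c hab hac hbc
      have hdp : 0 < |de (y a) (y b) (y c)| := abs_pos.2 hd
      refine ⟨(∑ k : Fin 3, (|cr (y b) (y c) k| + |cr (y c) (y a) k| + |cr (y a) (y b) k|)) /
        |de (y a) (y b) (y c)|, ?_⟩
      intro x hx k
      have ha : |dt (y a) x| ≤ 1 := hx a
      have hb : |dt (y b) x| ≤ 1 := hx b
      have hc : |dt (y c) x| ≤ 1 := hx c
      rw [le_div_iff₀ hdp, ← abs_mul, cramer]
      have h1 : |dt (y a) x * cr (y b) (y c) k + dt (y b) x * cr (y c) (y a) k +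
          dt (y c) x * cr (y a) (y b) k| ≤
          |cr (y b) (y c) k| + |cr (y c) (y a) k| + |cr (y a) (y b) k| := by
        have e1 : |dt (y a) x * cr (y b) (y c) k| ≤ |cr (y b) (y c) k| := by
          rw [abs_mul]
          exact mul_le_of_le_one_left (abs_nonneg _) ha
        have e2 : |dt (y b) x * cr (y c) (y a) k| ≤ |cr (y c) (y a) k| := by
          rw [abs_mul]
          exact mul_le_of_le_one_left (abs_nonneg _) hb
        have e3 : |dt (y c) x * cr (y a) (y b) k| ≤ |cr (y a) (y b) k| := by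
          rw [abs_mul]
          exact mul_le_of_le_one_left (abs_nonneg _) hc
        exact (abs_add_three _ _ _).trans (by linarith)
      refine h1.trans ?_
      exact Finset.single_le_sum (f := fun k : Fin 3 =>
        |cr (y b) (y c) k| + |cr (y c) (y a) k| + |cr (y a) (y b) k|)
        (fun k _ => by positivity) (Finset.mem_univ k)

end Pool.G1
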