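import Pool.Agent.Work.MP_b5407d_g1.Interface
import Pool.Agent.Work.MP_b5407d_g1.FGN
import Pool.Agent.Work.MP_b5407d_t3.COO
import Pool.Agent.Work.MP_b5407d_t3.BND
import Pool.Agent.Work.MP_b5407d_t3.LAMF
import Pool.Agent.Work.MP_b5407d_t3.LAMC
import Pool.Agent.Work.MP_b5407d_t3.VIN
import Pool.Agent.Work.MP_b5407d_t3.SF
import Pool.Agent.Work.MP_b5407d_t3.HF
import Pool.Agent.Work.MP_b5407d_t3.HOM
import Pool.Agent.Work.MP_b5407d_t3.PAR
import Pool.Agent.Work.MP_b5407d_t3.DV1
import Pool.Agent.Work.MP_b5407d_t3.PARH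
import Pool.Agent.Work.MP_b5407d_t3.DVS

/-!
# G1, block DER (helper83): derivatives of the volume along `1 + s z`
-/

set_option autoImplicit false

open MeasureTheory Set Filter Topology

namespace Pool.G1

open Pool.T3 (R3 dt cr de K V S H Fam Pos pt Lam Q J lin)

namespace DER

/-- the volume is twice continuously differentiable (T3) -/
theorem t3_DVS : Pool.T3.Stmt_DVS := by
  have hCOO := Pool.T3.stmt_COO
  have hBND := Pool.T3.stmt_BND
  have hLAMF := Pool.T3.stmt_LAMF
  have hLAMC := Pool.T3.stmt_LAMC hLAMF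
  have hVIN := Pool.T3.stmt_VIN hCOO hBND hLAMC
  have hSF := Pool.T3.stmt_SF hVIN hLAMC
  have hHF := Pool.T3.stmt_HF hSF hLAMC
  have hHOM := Pool.T3.stmt_HOM hSF hHF hLAMC hBND
  have hPAR := Pool.T3.stmt_PAR
  have hDV1 := Pool.T3.stmt_DV1 hSF hLAMC hPAR
  have hPARH := Pool.T3.stmt_PARH hPAR
  exact Pool.T3.stmt_DVS hHOM hDV1 hHF hLAMC hPARH

theorem dv_dv {ι : Type} (u : ι → R3) (h a : ι → ℝ) :
    dv (dv u h) a = dv u (fun i => h i * a i) := by
  funext i
  simp only [dv, smul_smul]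
  congr 1
  rw [one_div, one_div, one_div, mul_inv, mul_comm]

theorem lin_ap {ι : Type} [Fintype ι] (a f : ι → ℝ) : lin a f = ∑ i, a i * f i :=
  Pool.T3.DVS_.lin_apply a f

theorem ev_pos {ι : Type} [Fintype ι] (z : ι → ℝ) (s : ℝ) (hs : ∀ i, 0 < 1 + s * z i) :
    ∀ᶠ t : ℝ in 𝓝 s, ∀ i, 0 < 1 + t * z i := by
  rw [eventually_all]
  intro i
  have hc : ContinuousAt (fun t : ℝ => 1 + t * z i) s := by fun_prop
  exact hc.eventually (lt_mem_nhds (hs i))

end DER

open DER in
/-- block DER -/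
theorem blk_DER (hMUS : Stmt_MUS) (hQJT : Stmt_QJT) : Stmt_DER := by
  intro ι _ _ y hy z s hs
  obtain ⟨u, h, hu, hh, rfl⟩ := blk_FGN.1 ι y hy
  obtain ⟨hV, hS, -, -, -, -⟩ := t3_DVS ι u hu
  -- the path of levels
  let hs' : ℝ → ι → ℝ := fun t i => h i * (1 + t * z i)
  have hP : ∀ t : ℝ, (∀ i, 0 < 1 + t * z i) → Pos (hs' t) := fun t ht i => mul_pos (hh i) (ht i)
  have hdv : ∀ t : ℝ, dv (dv u h) (fun i => 1 + t * z i) = dv u (hs' t) := fun t =>
    dv_dv u h (fun i => 1 + t * z i)
  have hd : HasDerivAt hs' (fun i => h i * z i) s := by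
    rw [hasDerivAt_pi]
    intro i
    have h1 : HasDerivAt (fun t : ℝ => t * z i) (1 * z i) s := (hasDerivAt_id s).mul_const (z i)
    have h2 : HasDerivAt (fun t : ℝ => 1 + t * z i) (1 * z i) s := h1.const_add 1
    have h3 := h2.const_mul (h i)
    rw [one_mul] at h3
    exact h3
  have hev := ev_pos z s hs
  -- cone volumes
  have hmu : ∀ t : ℝ, (∀ i, 0 < 1 + t * z i) → ∀ i,
      S u (hs' t) i * (h i * z i) = 3 * (mu (dv u (hs' t)) i * (z i / (1 + t * z i))) := by
    intro t ht i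
    have e := (hMUS ι u hu (hs' t) (hP t ht)).2.1 i
    have hn : (1 + t * z i) ≠ 0 := (ht i).ne'
    have e2 : S u (hs' t) i * (h i * (1 + t * z i)) = 3 * mu (dv u (hs' t)) i := e
    have e3 : S u (hs' t) i * (h i * z i) =
        (S u (hs' t) i * (h i * (1 + t * z i))) * (z i / (1 + t * z i)) := by
      have e4 : (1 + t * z i) * (z i / (1 + t * z i)) = z i := by
        rw [mul_div_assoc']
        exact mul_div_cancel_left₀ _ hn
      calc S u (hs' t) i * (h i * z i)
          = S u (hs' t) i * (h i * ((1 + t * z i) * (z i / (1 + t * z i)))) := by rw [e4]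
        _ = (S u (hs' t) i * (h i * (1 + t * z i))) * (z i / (1 + t * z i)) := by ring
    rw [e3, e2]
    ring
  have hsum : ∀ t : ℝ, (∀ i, 0 < 1 + t * z i) →
      3 * ∑ i, mu (dv (dv u h) (fun i => 1 + t * z i)) i * (z i / (1 + t * z i)) =
        ∑ i, S u (hs' t) i * (h i * z i) := by
    intro t ht
    rw [hdv t, Finset.mul_sum]
    exact Finset.sum_congr rfl (fun i _ => (hmu t ht i).symm)
  constructor
  · rw [hsum s hs]
    have h1 : HasDerivAt (fun t => V u (hs' t)) (lin (S u (hs' s)) (fun i => h i * z i)) s :=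
      (hV (hs' s) (hP s hs)).comp_hasDerivAt s hd
    rw [lin_ap] at h1
    refine h1.congr_of_eventuallyEq ?_
    filter_upwards [hev] with t ht
    show vo (dv (dv u h) (fun i => 1 + t * z i)) = V u (hs' t)
    rw [hdv t, (hMUS ι u hu (hs' t) (hP t ht)).1]
  · have h1 : ∀ i, HasDerivAt (fun t => S u (hs' t) i * (h i * z i))
        (lin (H u (hs' s) i) (fun i => h i * z i) * (h i * z i)) s := fun i =>
      ((hS (hs' s) (hP s hs) i).comp_hasDerivAt s hd).mul_const (h i * z i)
    have h2 : HasDerivAt (fun t => ∑ i, S u (hs' t) i * (h i * z i))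
        (∑ i, lin (H u (hs' s) i) (fun i => h i * z i) * (h i * z i)) s :=
      HasDerivAt.fun_sum (fun i _ => h1 i)
    have h3 : (∑ i, lin (H u (hs' s) i) (fun i => h i * z i) * (h i * z i)) =
        6 * (∑ i, mu (dv (dv u h) (fun i => 1 + s * z i)) i * (z i / (1 + s * z i)) ^ 2) -
          En (dv (dv u h) (fun i => 1 + s * z i)) (fun i => z i / (1 + s * z i)) := by
      have e := (hQJT ι u hu (hs' s) (hP s hs) (fun i => h i * z i)).2.1
      have hf : (fun i => h i * z i / hs' s i) = fun i => z i / (1 + s * z i) := by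
        funext i
        show h i * z i / (h i * (1 + s * z i)) = z i / (1 + s * z i)
        exact mul_div_mul_left _ _ (hh i).ne'
      have hf' : ∀ i, h i * z i / hs' s i = z i / (1 + s * z i) := fun i => congrFun hf i
      rw [hdv s]
      rw [hf] at e
      simp only [hf'] at e
      rw [← e]
      refine Finset.sum_congr rfl (fun i _ => ?_)
      rw [lin_ap, Finset.sum_mul]
      refine Finset.sum_congr rfl (fun j _ => ?_)
      ring
    rw [← h3]
    refine h2.congr_of_eventuallyEq ?_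
    filter_upwards [hev] with t ht
    exact hsum t ht

end Pool.G1
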