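import Pool.Agent.Work.MP_b5407d_g1.Interface

/-!
# Block `EQI`: no concentration (helper43)
-/

set_option autoImplicit false

open MeasureTheory Set Filter Topology

namespace Pool.G1

open Pool.T3 (R3 dt cr de K V S H Fam Pos pt Lam Q J lin)

namespace EQI

lemma dt_add_right (a x v : R3) : dt a (x + v) = dt a x + dt a v := by
  simp only [dt, Pi.add_apply]; ring

lemma dt_smul_right (a x : R3) (c : ℝ) : dt a (c • x) = c * dt a x := by
  simp only [dt, Pi.smul_apply, smul_eq_mul]; ring

lemma dt_sub_left (a b v : R3) : dt (a - b) v = dt a v - dt b v := by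
  simp only [dt, Pi.sub_apply]; ring

lemma dt_neg_left (a v : R3) : dt (-a) v = -(dt a v) := by
  simp only [dt, Pi.neg_apply]; ring

lemma mem_KK {ι : Type} {y : ι → R3} {x : R3} : x ∈ KK y ↔ ∀ i, |dt (y i) x| ≤ 1 := Iff.rfl

lemma convex_KK {ι : Type} (y : ι → R3) : Convex ℝ (KK y) := by
  intro a ha b hb p q hp hq hpq
  rw [mem_KK] at ha hb ⊢
  intro i
  have h1 := ha i
  have h2 := hb i
  rw [abs_le] at h1 h2
  rw [dt_add_right, dt_smul_right, dt_smul_right, abs_le]
  constructor
  · nlinarith [mul_nonneg hp (by linarith [h1.1] : (0:ℝ) ≤ 1 + dt (y i) a),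
      mul_nonneg hq (by linarith [h2.1] : (0:ℝ) ≤ 1 + dt (y i) b)]
  · nlinarith [mul_nonneg hp (by linarith [h1.2] : (0:ℝ) ≤ 1 - dt (y i) a),
      mul_nonneg hq (by linarith [h2.2] : (0:ℝ) ≤ 1 - dt (y i) b)]

lemma continuous_dt (a : R3) : Continuous (fun x : R3 => dt a x) := by
  unfold dt
  fun_prop

lemma isClosed_KK {ι : Type} (y : ι → R3) : IsClosed (KK y) := by
  have : KK y = ⋂ i, {x : R3 | |dt (y i) x| ≤ 1} := by
    ext x; simp [mem_KK]
  rw [this]
  exact isClosed_iInter fun i => isClosed_le (continuous_dt (y i)).abs continuous_const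

lemma KK_subset_Icc {ι : Type} {y : ι → R3} (hN : Nm y) :
    KK y ⊆ Icc (fun _ => (-1 : ℝ)) (fun _ => (1 : ℝ)) := by
  intro x hx
  rw [mem_Icc, Pi.le_def, Pi.le_def]
  exact ⟨fun k => (abs_le.1 (hN.cub x hx k)).1, fun k => (abs_le.1 (hN.cub x hx k)).2⟩

lemma volume_KK_lt_top {ι : Type} {y : ι → R3} (hN : Nm y) : volume (KK y) < ⊤ :=
  lt_of_le_of_lt (measure_mono (KK_subset_Icc hN)) (isCompact_Icc.measure_lt_top)

/-- the cube -/
def Vs (s : ℝ) : Set R3 := Icc (fun _ => -(s / 3)) (fun _ => s / 3)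

lemma mem_Vs {s : ℝ} {v : R3} : v ∈ Vs s ↔ ∀ k, |v k| ≤ s / 3 := by
  unfold Vs
  rw [mem_Icc, Pi.le_def, Pi.le_def]
  constructor
  · intro h k
    exact abs_le.2 ⟨h.1 k, h.2 k⟩
  · intro h
    exact ⟨fun k => (abs_le.1 (h k)).1, fun k => (abs_le.1 (h k)).2⟩

lemma measurableSet_Vs (s : ℝ) : MeasurableSet (Vs s) := measurableSet_Icc

lemma volume_Vs {s : ℝ} (hs : 0 < s) : (volume (Vs s)).toReal = 8 * s ^ 3 / 27 := by
  unfold Vs
  rw [Real.volume_Icc_pi_toReal]
  · simp only [Finset.prod_const, Finset.card_univ, Fintype.card_fin]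
    ring
  · intro k
    simp only
    linarith

lemma volume_Vs_lt_top (s : ℝ) : volume (Vs s) < ⊤ := isCompact_Icc.measure_lt_top

lemma dt_le {a v : R3} {s : ℝ} (ha : ∀ k, |a k| ≤ 1) (hv : ∀ k, |v k| ≤ s / 3) : |dt a v| ≤ s := by
  have hk : ∀ k, |a k * v k| ≤ s / 3 := by
    intro k
    rw [abs_mul]
    have h0 := abs_nonneg (v k)
    have h1 := ha k
    have h2 := hv k
    nlinarith
  unfold dt
  have h1 := abs_add_le (a 0 * v 0 + a 1 * v 1) (a 2 * v 2)
  have h2 := abs_add_le (a 0 * v 0) (a 1 * v 1)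
  have e0 := hk 0
  have e1 := hk 1
  have e2 := hk 2
  linarith

end EQI

open EQI

theorem blk_EQI (hT : Stmt_TLC) (hO : Stmt_OMI) : Stmt_EQI := by
  intro ι _ y hnp hN w Z hZ hZ2 s hs hs2
  obtain ⟨hmeas, ⟨C, hC⟩, _, hsq, _, _⟩ := hO ι y hnp w
  set V := Vs s with hVdef
  have hVm : MeasurableSet V := measurableSet_Vs s
  have hVt : volume V < ⊤ := volume_Vs_lt_top s
  have hVv : (volume V).toReal = 8 * s ^ 3 / 27 := volume_Vs hs
  have hKm : MeasurableSet (KK y) := (isClosed_KK y).measurableSet
  have hKt : volume (KK y) < ⊤ := volume_KK_lt_top hN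
  have hC0 : 0 ≤ C := le_trans (abs_nonneg _) (hC 0)
  -- the sum
  have hsum : ∫ x in KK y, om y w x ^ 2 = ∑ i, mu y i * w i ^ 2 := by
    have h := hsq 1 one_pos
    have e : (fun x : R3 => (1 : ℝ) • x) '' KK y = KK y := by simp
    rw [e] at h
    rw [h]; ring
  -- membership
  have hZK : ∀ x ∈ Z, ∀ v ∈ V, x + v ∈ KK y := by
    intro x hx v hv
    rw [mem_KK]
    intro i
    have h1 := hZ2 x hx i
    rw [dt_smul_right, abs_mul, abs_of_pos (by norm_num : (0:ℝ) < 2)] at h1
    have h2 : |dt (y i) v| ≤ s := dt_le (fun k => hN.le i k) (mem_Vs.1 hv)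
    rw [dt_add_right]
    have h3 := abs_add_le (dt (y i) x) (dt (y i) v)
    linarith
  have h0V : (0 : R3) ∈ V := by
    rw [hVdef, mem_Vs]
    intro k
    simp only [Pi.zero_apply, abs_zero]
    linarith
  have hZK0 : Z ⊆ KK y := by
    intro x hx
    have := hZK x hx 0 h0V
    rwa [add_zero] at this
  have hZt : volume Z < ⊤ := lt_of_le_of_lt (measure_mono hZK0) hKt
  have : IsFiniteMeasure (volume.restrict Z) := ⟨by rw [Measure.restrict_apply_univ]; exact hZt⟩
  have : IsFiniteMeasure (volume.restrict V) := ⟨by rw [Measure.restrict_apply_univ]; exact hVt⟩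
  have : IsFiniteMeasure (volume.restrict (KK y)) :=
    ⟨by rw [Measure.restrict_apply_univ]; exact hKt⟩
  -- measurability and bounds
  have hgm : Measurable (fun p : R3 × R3 => (om y w (p.1 + p.2) - om y w p.1) ^ 2) :=
    ((hmeas.comp (measurable_fst.add measurable_snd)).sub (hmeas.comp measurable_fst)).pow_const 2
  have hgb : ∀ a b : R3, |(om y w a - om y w b) ^ 2| ≤ (2 * C) ^ 2 := by
    intro a b
    rw [abs_pow]
    have h1 : |om y w a - om y w b| ≤ 2 * C := by
      have := abs_sub (om y w a) (om y w b)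
      have h2 := hC a
      have h3 := hC b
      linarith
    exact pow_le_pow_left₀ (abs_nonneg _) h1 2
  have hbd : ∀ (μ : Measure R3) [IsFiniteMeasure μ] (g : R3 → ℝ) (B : ℝ), Measurable g →
      (∀ x, |g x| ≤ B) → Integrable g μ := by
    intro μ _ g B hg hB
    exact Integrable.of_bound hg.aestronglyMeasurable B (Filter.Eventually.of_forall hB)
  have homb : ∀ x, |om y w x ^ 2| ≤ C ^ 2 := by
    intro x
    rw [abs_pow]
    exact pow_le_pow_left₀ (abs_nonneg _) (hC x) 2
  have hom2m : Measurable (fun x => om y w x ^ 2) := hmeas.pow_const 2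
  have hgx : ∀ x : R3, Measurable (fun v : R3 => (om y w (x + v) - om y w x) ^ 2) := fun x =>
    ((hmeas.comp (measurable_const.add measurable_id)).sub measurable_const).pow_const 2
  have hgv : ∀ v : R3, Measurable (fun x : R3 => (om y w (x + v) - om y w x) ^ 2) := fun v =>
    ((hmeas.comp (measurable_id.add measurable_const)).sub hmeas).pow_const 2
  have hgint : Integrable (Function.uncurry
      (fun (x v : R3) => (om y w (x + v) - om y w x) ^ 2))
      ((volume.restrict Z).prod (volume.restrict V)) := by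
    refine Integrable.of_bound hgm.aestronglyMeasurable ((2 * C) ^ 2)
      (Filter.Eventually.of_forall ?_)
    rintro ⟨x, v⟩
    exact hgb _ _
  -- pointwise inequality
  set Sw : ℝ := ∑ i, mu y i * w i ^ 2 with hSdef
  have hpt : ∀ x ∈ Z, (volume V).toReal * om y w x ^ 2 ≤
      2 * Sw + 2 * ∫ v in V, (om y w (x + v) - om y w x) ^ 2 := by
    intro x hx
    have h1 : ∫ v in V, om y w (x + v) ^ 2 ≤ Sw := by
      have e1 : ∫ v in V, om y w (x + v) ^ 2 = ∫ u in (fun v : R3 => x + v) '' V, om y w u ^ 2 := by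
        have hmp : MeasurePreserving (fun v : R3 => x + v) volume volume :=
          measurePreserving_add_left volume x
        have hemb : MeasurableEmbedding (fun v : R3 => x + v) :=
          (MeasurableEquiv.addLeft x).measurableEmbedding
        exact (hmp.setIntegral_image_emb hemb (fun u => om y w u ^ 2) V).symm
      rw [e1, ← hsum]
      refine setIntegral_mono_set (hbd _ _ (C ^ 2) hom2m homb)
        (Filter.Eventually.of_forall fun u => sq_nonneg _) (LE.le.eventuallyLE ?_)
      rintro _ ⟨v, hv, rfl⟩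
      exact hZK x hx v hv
    have h2 : ∫ v in V, om y w x ^ 2 ≤
        ∫ v in V, (2 * om y w (x + v) ^ 2 + 2 * (om y w (x + v) - om y w x) ^ 2) := by
      refine integral_mono (integrable_const _) ?_ ?_
      · refine Integrable.add (Integrable.const_mul ?_ 2) (Integrable.const_mul ?_ 2)
        · exact hbd _ _ (C ^ 2) ((hmeas.comp (measurable_const.add measurable_id)).pow_const 2)
            (fun v => homb _)
        · exact hbd _ _ ((2 * C) ^ 2) (hgx x) (fun v => hgb _ _)
      · intro v
        show om y w x ^ 2 ≤ 2 * om y w (x + v) ^ 2 + 2 * (om y w (x + v) - om y w x) ^ 2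
        nlinarith [sq_nonneg (2 * om y w (x + v) - om y w x)]
    rw [setIntegral_const, integral_add, integral_const_mul, integral_const_mul] at h2
    · have e : (volume.real V) = (volume V).toReal := rfl
      rw [e, smul_eq_mul] at h2
      linarith
    · exact Integrable.const_mul (hbd _ _ (C ^ 2)
        ((hmeas.comp (measurable_const.add measurable_id)).pow_const 2) (fun v => homb _)) 2
    · exact Integrable.const_mul (hbd _ _ ((2 * C) ^ 2) (hgx x) (fun v => hgb _ _)) 2
  -- integrate over Z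
  have hint : Integrable (fun x => ∫ v in V, (om y w (x + v) - om y w x) ^ 2)
      (volume.restrict Z) := hgint.integral_prod_left
  have hI : (volume V).toReal * (∫ x in Z, om y w x ^ 2) ≤
      2 * Sw * (volume Z).toReal +
        2 * ∫ x in Z, ∫ v in V, (om y w (x + v) - om y w x) ^ 2 := by
    have h3 : ∫ x in Z, (volume V).toReal * om y w x ^ 2 ≤
        ∫ x in Z, (2 * Sw + 2 * ∫ v in V, (om y w (x + v) - om y w x) ^ 2) := by
      refine setIntegral_mono_on ?_ ?_ hZ hpt
      · exact Integrable.const_mul (hbd _ _ (C ^ 2) hom2m homb) _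
      · exact (integrable_const _).add (hint.const_mul 2)
    have e3 : ∫ x in Z, 2 * ∫ v in V, (om y w (x + v) - om y w x) ^ 2 =
        2 * ∫ x in Z, ∫ v in V, (om y w (x + v) - om y w x) ^ 2 := integral_const_mul _ _
    have e4 : ∫ x in Z, (volume V).toReal * om y w x ^ 2 =
        (volume V).toReal * ∫ x in Z, om y w x ^ 2 := integral_const_mul _ _
    have e5 : ∫ _ in Z, 2 * Sw = (volume Z).toReal * (2 * Sw) := by
      rw [setIntegral_const, smul_eq_mul]; rfl
    rw [integral_add (integrable_const _) (hint.const_mul 2), e3, e4, e5] at h3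
    linarith
  -- swap
  have hsw : ∫ x in Z, ∫ v in V, (om y w (x + v) - om y w x) ^ 2 =
      ∫ v in V, ∫ x in Z, (om y w (x + v) - om y w x) ^ 2 := integral_integral_swap hgint
  have hin : ∀ v ∈ V, ∫ x in Z, (om y w (x + v) - om y w x) ^ 2 ≤ s * En y w := by
    intro v hv
    have h4 := hT ι y hnp w (KK y) (convex_KK y) hKm (le_refl _) v (2 * s) (by linarith) (by
      intro x _ x' _ P P' _ _
      have hP : ∀ P : ι × Bool, |dt (sy y P) v| ≤ s := by
        intro P
        unfold sy
        split_ifs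
        · exact dt_le (fun k => hN.le _ k) (mem_Vs.1 hv)
        · rw [dt_neg_left, abs_neg]
          exact dt_le (fun k => hN.le _ k) (mem_Vs.1 hv)
      rw [dt_sub_left]
      have := abs_sub (dt (sy y P) v) (dt (sy y P') v)
      linarith [hP P, hP P'])
    have h5 : ∫ x in Z, (om y w (x + v) - om y w x) ^ 2 ≤
        ∫ x in {x | x ∈ KK y ∧ x + v ∈ KK y}, (om y w (x + v) - om y w x) ^ 2 := by
      refine setIntegral_mono_set ?_
        (Filter.Eventually.of_forall fun u => sq_nonneg _) (LE.le.eventuallyLE ?_)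
      · have : IntegrableOn (fun x => (om y w (x + v) - om y w x) ^ 2) (KK y) volume :=
          hbd _ _ ((2 * C) ^ 2) (hgv v) (fun x => hgb _ _)
        exact this.mono_set (fun x hx => hx.1)
      · intro x hx
        exact ⟨hZK0 hx, hZK x hx v hv⟩
    linarith
  have hII : ∫ v in V, ∫ x in Z, (om y w (x + v) - om y w x) ^ 2 ≤
      (volume V).toReal * (s * En y w) := by
    have h6 : ∫ v in V, ∫ x in Z, (om y w (x + v) - om y w x) ^ 2 ≤
        ∫ v in V, s * En y w := by
      refine setIntegral_mono_on ?_ (integrable_const _) hVm hin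
      exact hgint.integral_prod_right
    rw [setIntegral_const, smul_eq_mul] at h6
    exact h6
  rw [hsw] at hI
  have hV0 : 0 < (volume V).toReal := by rw [hVv]; positivity
  have hfin : (volume V).toReal * (∫ x in Z, om y w x ^ 2) ≤ (volume V).toReal *
      (27 / (4 * s ^ 3) * (volume Z).toReal * Sw + 2 * s * En y w) := by
    have e1 : (volume V).toReal *
        (27 / (4 * s ^ 3) * (volume Z).toReal * Sw + 2 * s * En y w) =
        2 * Sw * (volume Z).toReal + 2 * ((volume V).toReal * (s * En y w)) := by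
      rw [hVv]
      field_simp
      ring
    rw [e1]
    linarith
  exact le_of_mul_le_mul_left hfin hV0

end Pool.G1
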