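import Pool.Agent.Work.MP_b5407d_g1.InterfaceH
import Pool.Agent.Work.MP_b5407d_lp_helper68.EQL
import Pool.Agent.Work.MP_b5407d_lp_helper23.CEN

/-!
# G1, block EQQ: the case of equality, equal volumes, all `0 < p < 1`
(copy of T3 `EQL3` of helper23 with the comparison exponent `p / 2`)
-/

set_option autoImplicit false

open MeasureTheory Set Filter Topology

namespace Pool.G1

open Pool.Agent.Work.LPBM (E supp Wulff CBody mp Span Pset)
open Pool.Agent.Work.LPBM.helper68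

open Pool.Agent.Work.LPBM in
theorem blk_EQQ : Stmt_EQQ := by
  intro hG p K C hp0 hp1 hK hCb hKs hCs hvol t ht hWvol
  have hn1 : 1 ≤ 3 := by norm_num
  obtain ⟨ht0, ht1⟩ := ht
  obtain ⟨p0, hp0def⟩ : ∃ p0 : ℝ, p0 = p / 2 := ⟨_, rfl⟩
  have hp0pos : 0 < p0 := by
    rw [hp0def]
    linarith
  have hp0lt1 : p0 < 1 := by
    rw [hp0def]
    linarith
  have hp0p : p0 < p := by
    rw [hp0def]
    linarith
  obtain ⟨hK0, hKpos, hKc, -, hKle, hKmem⟩ := helper23.stmt_CEN 3 K hn1 hK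
  obtain ⟨hC0, hCpos, hCc, -, hCle, hCmem⟩ := helper23.stmt_CEN 3 C hn1 hCb
  have hsne : ∀ u ∈ Metric.sphere (0 : E 3) 1, u ≠ 0 := by
    intro u hu h
    rw [h] at hu
    simp at hu
  set M0 : E 3 → ℝ := fun u => mp p0 t (supp K u) (supp C u) with hM0
  set M1 : E 3 → ℝ := fun u => mp p t (supp K u) (supp C u) with hM1
  have hM0c : Continuous M0 := mp_cont hp0pos _ _ hKc hCc
  have hM1c : Continuous M1 := mp_cont hp0 _ _ hKc hCc
  have hM0pos : ∀ u ∈ Metric.sphere (0 : E 3) 1, 0 < M0 u := fun u hu =>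
    mp_pos ht0 ht1 (hKpos u (hsne u hu)) (hCpos u (hsne u hu))
  have hM1pos : ∀ u ∈ Metric.sphere (0 : E 3) 1, 0 < M1 u := fun u hu =>
    mp_pos ht0 ht1 (hKpos u (hsne u hu)) (hCpos u (hsne u hu))
  have hle : ∀ u ∈ Metric.sphere (0 : E 3) 1, M0 u ≤ M1 u := fun u hu =>
    mp_le hp0pos hp0p ht0 ht1 (hKpos u (hsne u hu)) (hCpos u (hsne u hu))
  have hsub : Wulff M0 ⊆ Wulff M1 := fun x hx u hu => (hx u hu).trans (hle u hu)
  have hgen := hG p0 K C hp0pos hp0lt1 hK hCb hKs hCs t ⟨ht0.le, ht1.le⟩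
  have hVnn : 0 ≤ (volume K).toReal := ENNReal.toReal_nonneg
  have hKfin : volume K ≠ ⊤ := hK.2.1.measure_lt_top.ne
  have hCfin : volume C ≠ ⊤ := hCb.2.1.measure_lt_top.ne
  have hVpos : 0 < (volume K).toReal := by
    apply ENNReal.toReal_pos _ hKfin
    have h1 : 0 < volume (interior K) := isOpen_interior.measure_pos volume hK.2.2.1
    exact (h1.trans_le (measure_mono interior_subset)).ne'
  rw [← hvol, ← Real.rpow_add hVpos, sub_add_cancel, Real.rpow_one] at hgen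
  have hWf : volume (Wulff M1) ≠ ⊤ := wulff_fin hn1 M1 hM1c
  have hWeq : Wulff M0 = Wulff M1 := by
    apply eq_of_vol hsub (wulff_closed M0) (wulff_convex M1) ⟨0, wulff_zero hn1 M1 hM1c hM1pos⟩ hWf
    rw [hWvol]
    exact hgen
  -- frontier points
  have hfr : ∀ z ∈ frontier (Wulff M1), ∃ u ∈ Metric.sphere (0 : E 3) 1,
      inner ℝ z u = supp K u ∧ supp K u = supp C u := by
    intro z hz
    obtain ⟨u, hu, hzu⟩ := wulff_frontier hn1 M1 hM1c z hz
    have hzW : z ∈ Wulff M0 := by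
      rw [hWeq]
      exact (wulff_closed M1).frontier_subset hz
    have h1 : M1 u ≤ M0 u := by
      rw [← hzu]
      exact hzW u hu
    have hab : supp K u = supp C u := by
      by_contra hne
      have := mp_lt hp0pos hp0p ht0 ht1 (hKpos u (hsne u hu)) (hCpos u (hsne u hu)) hne
      exact absurd h1 (not_le.2 this)
    refine ⟨u, hu, ?_, hab⟩
    rw [hzu]
    show mp p t (supp K u) (supp C u) = supp K u
    rw [← hab]
    exact mp_self hp0 (hKpos u (hsne u hu))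
  have h0W : (0 : E 3) ∈ interior (Wulff M1) := wulff_zero hn1 M1 hM1c hM1pos
  have hKW : K ⊆ Wulff M1 := by
    apply sub_of_frontier K (Wulff M1) (wulff_closed M1) h0W
    intro y hy z hz
    obtain ⟨u, hu, h1, h2⟩ := hfr z hz
    exact ⟨u, hKle u y hy, hKpos u (hsne u hu), h1⟩
  have hCW : C ⊆ Wulff M1 := by
    apply sub_of_frontier C (Wulff M1) (wulff_closed M1) h0W
    intro y hy z hz
    obtain ⟨u, hu, h1, h2⟩ := hfr z hz
    exact ⟨u, hCle u y hy, hCpos u (hsne u hu), h1.trans h2⟩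
  have e1 : K = Wulff M1 := eq_of_vol hKW hK.2.1.isClosed (wulff_convex M1)
    ⟨0, wulff_zero hn1 M1 hM1c hM1pos⟩ hWf (by rw [hWvol])
  have e2 : C = Wulff M1 := eq_of_vol hCW hCb.2.1.isClosed (wulff_convex M1)
    ⟨0, wulff_zero hn1 M1 hM1c hM1pos⟩ hWf (by rw [hWvol, hvol])
  rw [e1, ← e2]

end Pool.G1
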