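import Pool.Agent.Work.MP_b5407d_g1.Interface

/-!
# G1, block EXT (helper2): existence of the extremal pair
-/

set_option autoImplicit false

open MeasureTheory Set Filter Topology

namespace Pool.G1

open Pool.T3 (R3 dt cr de K V S H Fam Pos pt Lam Q J lin)

namespace EXT

/-! ### algebra of the forms -/

theorem En_smul {ι : Type} [Fintype ι] (y : ι → R3) (w : ι → ℝ) (c : ℝ) :
    En y (fun i => c * w i) = c ^ 2 * En y w := by
  have h : ∀ i k, cc y i k * (c * w i - c * w k) ^ 2 = c ^ 2 * (cc y i k * (w i - w k) ^ 2) :=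
    fun i k => by ring
  simp only [En, h, ← Finset.mul_sum]
  ring

theorem En_shift {ι : Type} [Fintype ι] (y : ι → R3) (w : ι → ℝ) (c : ℝ) :
    En y (fun i => w i - c) = En y w := by
  unfold En
  congr 1
  refine Finset.sum_congr rfl fun i _ => ?_
  refine Finset.sum_congr rfl fun k _ => ?_
  ring

theorem Qm_smul {ι : Type} [Fintype ι] (y : ι → R3) (w : ι → ℝ) (c : ℝ) :
    Qm y (fun i => c * w i) = c ^ 2 * Qm y w := by
  unfold Qm
  have h1 : ∑ i, mu y i * (c * w i) ^ 2 = c ^ 2 * ∑ i, mu y i * w i ^ 2 := by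
    rw [Finset.mul_sum]
    exact Finset.sum_congr rfl fun i _ => by ring
  have h2 : ∑ i, mu y i * (c * w i) = c * ∑ i, mu y i * w i := by
    rw [Finset.mul_sum]
    exact Finset.sum_congr rfl fun i _ => by ring
  rw [h1, h2]
  ring

theorem sum_shift {ι : Type} [Fintype ι] (y : ι → R3) (w : ι → ℝ) (c : ℝ) :
    ∑ i, mu y i * (w i - c) = (∑ i, mu y i * w i) - c * ∑ i, mu y i := by
  rw [Finset.mul_sum, ← Finset.sum_sub_distrib]
  exact Finset.sum_congr rfl fun i _ => by ring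

theorem sum_shift2 {ι : Type} [Fintype ι] (y : ι → R3) (w : ι → ℝ) (c : ℝ) :
    ∑ i, mu y i * (w i - c) ^ 2 =
      (∑ i, mu y i * w i ^ 2) - 2 * c * (∑ i, mu y i * w i) + c ^ 2 * ∑ i, mu y i := by
  rw [Finset.mul_sum, Finset.mul_sum, ← Finset.sum_sub_distrib, ← Finset.sum_add_distrib]
  exact Finset.sum_congr rfl fun i _ => by ring

/-- `Qm` is three times the variance -/
theorem Qm_eq {ι : Type} [Fintype ι] (y : ι → R3) (w : ι → ℝ) (hv : 0 < vo y)
    (hs : ∑ i, mu y i = vo y) :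
    Qm y w = 3 * ∑ i, mu y i * (w i - (∑ i, mu y i * w i) / vo y) ^ 2 := by
  unfold Qm
  rw [sum_shift2, hs]
  field_simp
  ring

theorem Qm_nonneg {ι : Type} [Fintype ι] (y : ι → R3) (w : ι → ℝ) (hv : 0 < vo y)
    (hs : ∑ i, mu y i = vo y) (hm : ∀ i, 0 ≤ mu y i) : 0 ≤ Qm y w := by
  rw [Qm_eq y w hv hs]
  exact mul_nonneg (by norm_num) (Finset.sum_nonneg fun i _ => mul_nonneg (hm i) (sq_nonneg _))

theorem En_nonneg {ι : Type} [Fintype ι] (y : ι → R3) (w : ι → ℝ) (hc : ∀ i k, 0 ≤ cc y i k) :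
    0 ≤ En y w := by
  unfold En
  exact mul_nonneg (by norm_num) (Finset.sum_nonneg fun i _ => Finset.sum_nonneg fun k _ =>
    mul_nonneg (hc i k) (sq_nonneg _))

/-! ### change of the index type -/

theorem KK_equiv {ι κ : Type} (e : κ ≃ ι) (y : ι → R3) : KK (fun k => y (e k)) = KK y := by
  ext x
  simp only [KK, Pool.T3.K, mem_ofPred_eq]
  exact ⟨fun h i => by simpa using h (e.symm i), fun h k => h (e k)⟩

theorem vo_equiv {ι κ : Type} (e : κ ≃ ι) (y : ι → R3) : vo (fun k => y (e k)) = vo y := by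
  unfold vo
  rw [KK_equiv]

theorem mu_equiv {ι κ : Type} (e : κ ≃ ι) (y : ι → R3) (k : κ) :
    mu (fun k => y (e k)) k = mu y (e k) := by
  unfold mu co
  rw [KK_equiv]
  congr 2
  ext x
  simp only [mem_ofPred_eq]
  exact ⟨fun h => ⟨h.1, fun i => by simpa using h.2 (e.symm i)⟩, fun h => ⟨h.1, fun l => h.2 (e l)⟩⟩

theorem Lam_equiv {ι κ : Type} (e : κ ≃ ι) (y : ι → R3) (k l : κ) (α β : ℝ) (h : ι → ℝ) :
    Lam (fun k => y (e k)) k l α β (fun k => h (e k)) = Lam y (e k) (e l) α β h := by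
  unfold Pool.T3.Lam
  congr 2
  ext c
  simp only [mem_ofPred_eq]
  constructor
  · intro hh m h1 h2
    have := hh (e.symm m) (fun e1 => h1 (by rw [← e1, e.apply_symm_apply]))
      (fun e1 => h2 (by rw [← e1, e.apply_symm_apply]))
    simpa [Pool.T3.pt] using this
  · intro hh m h1 h2
    have := hh (e m) (fun e1 => h1 (e.injective e1)) (fun e1 => h2 (e.injective e1))
    simpa [Pool.T3.pt] using this

theorem cc_equiv {ι κ : Type} (e : κ ≃ ι) (y : ι → R3) (k l : κ) :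
    cc (fun k => y (e k)) k l = cc y (e k) (e l) := by
  unfold cc
  rw [← Lam_equiv e y k l 1 1 (fun _ => (1 : ℝ)), ← Lam_equiv e y k l 1 (-1) (fun _ => (1 : ℝ))]

theorem FamG_equiv {ι κ : Type} (e : κ ≃ ι) (y : ι → R3) (hy : FamG y) :
    FamG (fun k => y (e k)) := by
  refine ⟨fun i j k h1 h2 h3 => hy.ind _ _ _ (fun h => h1 (e.injective h))
    (fun h => h2 (e.injective h)) (fun h => h3 (e.injective h)), ?_⟩
  obtain ⟨i, j, k, h1, h2, h3⟩ := hy.three
  exact ⟨e.symm i, e.symm j, e.symm k, fun h => h1 (e.symm.injective h),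
    fun h => h2 (e.symm.injective h), fun h => h3 (e.symm.injective h)⟩

theorem En_equiv {ι κ : Type} [Fintype ι] [Fintype κ] (e : κ ≃ ι) (y : ι → R3) (w : ι → ℝ) :
    En (fun k => y (e k)) (fun k => w (e k)) = En y w := by
  unfold En
  congr 1
  rw [← e.sum_comp]
  refine Finset.sum_congr rfl fun k _ => ?_
  rw [← e.sum_comp]
  refine Finset.sum_congr rfl fun l _ => ?_
  rw [cc_equiv]

theorem Qm_equiv {ι κ : Type} [Fintype ι] [Fintype κ] (e : κ ≃ ι) (y : ι → R3) (w : ι → ℝ) :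
    Qm (fun k => y (e k)) (fun k => w (e k)) = Qm y w := by
  unfold Qm
  rw [vo_equiv, ← e.sum_comp (fun i => mu y i * w i ^ 2), ← e.sum_comp (fun i => mu y i * w i)]
  simp only [mu_equiv]

/-- the local inequality on `Fin N` suffices -/
theorem LI_fin {c : ℝ} {N : ℕ}
    (h : ∀ y : Fin N → R3, FamG y → ∀ w : Fin N → ℝ, (2 + c) * Qm y w ≤ En y w) : LI c N := by
  intro ι _ _ hcard y hy w
  let e : Fin N ≃ ι := (Fintype.equivFinOfCardEq hcard).symm
  have h1 := h (fun k => y (e k)) (FamG_equiv e y hy) (fun k => w (e k))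
  rwa [En_equiv, Qm_equiv] at h1

/-! ### removing a facet -/

theorem sum_ne {ι : Type} [Fintype ι] [DecidableEq ι] (k : ι) (g : ι → ℝ) (hg : g k = 0) :
    ∑ i : {i // i ≠ k}, g i = ∑ i, g i := by
  have h1 : ∑ i : {i // i ≠ k}, g i = ∑ i ∈ Finset.univ.filter (fun i => i ≠ k), g i := by
    rw [Finset.sum_subtype (Finset.univ.filter (fun i => i ≠ k)) (p := fun i => i ≠ k)
      (fun x => by simp)]
  rw [h1]
  refine Finset.sum_subset (Finset.filter_subset _ _) fun i _ hi => ?_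
  have h2 : i = k := by
    by_contra hne
    exact hi (by simp [hne])
  rw [h2, hg]

end EXT

open EXT in
/-- facts for admissible families -/
theorem EXT.basics (hBAS : Stmt_BAS) (hFGN : Stmt_FGN) {ι : Type} [Fintype ι] (y : ι → R3)
    (hy : FamG y) :
    0 < vo y ∧ (∑ i, mu y i = vo y) ∧ (∀ i, 0 ≤ mu y i) ∧ (∀ i k, 0 ≤ cc y i k) := by
  have hne : Nonempty ι := ⟨hy.three.choose⟩
  obtain ⟨h1, h2, h3, h4, _⟩ := hBAS ι y (hFGN.2.2.2 ι y hy) hne
  exact ⟨h1, h2, h3, h4⟩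

open EXT in
/-- the known constant -/
theorem EXT.known (hRDM : Stmt_RDM) (hGPM : Stmt_GPM) (hBAS : Stmt_BAS) (hFGN : Stmt_FGN) (N : ℕ)
    (hlt : ∀ M, M < N → LI 1 M) : LI (1 / 486) N := by
  intro ι _ _ hcard y hy w
  obtain ⟨b1, b2, b3, b4⟩ := EXT.basics hBAS hFGN y hy
  by_cases hall : ∀ i, 0 < mu y i
  · exact hGPM ι y hy hall w
  · push Not at hall
    obtain ⟨k, hk⟩ := hall
    have hk0 : mu y k = 0 := le_antisymm hk (b3 k)
    obtain ⟨r1, r2, r3, r4, r5⟩ := hRDM ι y hy k hk0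
    have hpos : 0 < N := by
      rw [← hcard]
      exact Fintype.card_pos_iff.mpr ⟨k⟩
    have hc : Fintype.card {i // i ≠ k} = N - 1 := by
      rw [Fintype.card_subtype_compl, Fintype.card_subtype_eq, hcard]
    have h1 := hlt (N - 1) (by omega) {i // i ≠ k} hc (fun i : {i // i ≠ k} => y i) r1
      (fun i => w i)
    have hQ : Qm (fun i : {i // i ≠ k} => y i) (fun i : {i // i ≠ k} => w i) = Qm y w := by
      unfold Qm
      rw [r2]
      have e1 : ∑ i : {i // i ≠ k}, mu (fun i : {i // i ≠ k} => y i) i * w i ^ 2 =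
          ∑ i, mu y i * w i ^ 2 := by
        rw [← sum_ne k (fun i => mu y i * w i ^ 2) (by simp [hk0])]
        exact Finset.sum_congr rfl fun i _ => by rw [r3 i]
      have e2 : ∑ i : {i // i ≠ k}, mu (fun i : {i // i ≠ k} => y i) i * w i =
          ∑ i, mu y i * w i := by
        rw [← sum_ne k (fun i => mu y i * w i) (by simp [hk0])]
        exact Finset.sum_congr rfl fun i _ => by rw [r3 i]
      rw [e1, e2]
    have hE : En (fun i : {i // i ≠ k} => y i) (fun i : {i // i ≠ k} => w i) = En y w := by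
      unfold En
      congr 1
      rw [← sum_ne k (fun i => ∑ j, cc y i j * (w i - w j) ^ 2)]
      · refine Finset.sum_congr rfl fun i _ => ?_
        rw [← sum_ne k (fun j => cc y i j * (w i - w j) ^ 2) (by simp [(r5 i i.2).2])]
        refine Finset.sum_congr rfl fun j _ => ?_
        by_cases hij : i = j
        · subst hij
          simp
        · rw [r4 i j hij]
      · refine Finset.sum_eq_zero fun j _ => ?_
        by_cases hj : j = k
        · rw [hj]; simp
        · rw [(r5 j hj).1, zero_mul]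
    rw [hQ, hE] at h1
    have hq := Qm_nonneg y w b1 b2 b3
    linarith

open EXT in
/-- the best constant -/
theorem EXT.best (hBAS : Stmt_BAS) (hFGN : Stmt_FGN) (N : ℕ) (h486 : LI (1 / 486) N)
    (hnot : ¬ LI 1 N) : ∃ ε : ℝ, 0 < ε ∧ ε < 1 ∧ LI ε N ∧ ∀ c, ε < c → ¬ LI c N := by
  have hmono : ∀ c c' : ℝ, c' ≤ c → LI c N → LI c' N := by
    intro c c' hcc hc ι _ _ hcard y hy w
    obtain ⟨b1, b2, b3, b4⟩ := EXT.basics hBAS hFGN y hy
    have h1 := hc ι hcard y hy w
    have h2 := Qm_nonneg y w b1 b2 b3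
    nlinarith
  have hbdd : BddAbove {c : ℝ | LI c N} := by
    refine ⟨1, fun c hc => ?_⟩
    by_contra h1
    push Not at h1
    exact hnot (hmono c 1 h1.le hc)
  have hne : {c : ℝ | LI c N}.Nonempty := ⟨_, h486⟩
  set ε : ℝ := sSup {c : ℝ | LI c N} with hε
  have hLI : LI ε N := by
    intro ι _ _ hcard y hy w
    obtain ⟨b1, b2, b3, b4⟩ := EXT.basics hBAS hFGN y hy
    have h2 := Qm_nonneg y w b1 b2 b3
    refine le_of_forall_pos_le_add fun η hη => ?_
    obtain ⟨c, hc, hc'⟩ := exists_lt_of_lt_csSup hne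
      (show ε - η / (Qm y w + 1) < ε by
        have : 0 < η / (Qm y w + 1) := by positivity
        linarith)
    have h1 := (show LI c N from hc) ι hcard y hy w
    have h3 : η / (Qm y w + 1) * Qm y w ≤ η := by
      rw [div_mul_eq_mul_div, div_le_iff₀ (by linarith)]
      nlinarith
    nlinarith
  have h0 : 1 / 486 ≤ ε := le_csSup hbdd h486
  refine ⟨ε, by linarith, ?_, hLI, fun c hc h => ?_⟩
  · by_contra h1
    push Not at h1
    exact hnot (hmono ε 1 h1 hLI)
  · exact absurd (le_csSup hbdd h) (not_le.mpr hc)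

open EXT in
/-- a normalised pair with almost extremal energy -/
theorem EXT.almost (hGLN : Stmt_GLN) (hBAS : Stmt_BAS) (hFGN : Stmt_FGN) (N : ℕ) (c : ℝ)
    (hc0 : 0 ≤ c) (hc : ¬ LI c N) :
    ∃ (y : Fin N → R3) (w : Fin N → ℝ), FamG y ∧ Nm y ∧ (∑ i, mu y i * w i = 0) ∧
      (∑ i, mu y i * w i ^ 2 = 1) ∧ En y w ≤ 3 * (2 + c) := by
  have h1 : ∃ (y : Fin N → R3) (w : Fin N → ℝ), FamG y ∧ En y w < (2 + c) * Qm y w := by
    by_contra hno
    push Not at hno
    exact hc (LI_fin fun y hy w => hno y w hy)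
  obtain ⟨y, w, hy, hE⟩ := h1
  obtain ⟨b1, b2, b3, b4⟩ := EXT.basics hBAS hFGN y hy
  have hQ : 0 < Qm y w := by
    have h2 := En_nonneg y w b4
    by_contra hq
    push Not at hq
    nlinarith
  obtain ⟨y', κ, hκ, hy', hn', hv', hm', hc'⟩ := hGLN (Fin N) y hy
  obtain ⟨b1', b2', b3', b4'⟩ := EXT.basics hBAS hFGN y' hy'
  -- the forms of `y'`
  have hE' : ∀ w : Fin N → ℝ, En y' w = κ * En y w := by
    intro w
    have h : ∀ i k, cc y' i k * (w i - w k) ^ 2 = κ * (cc y i k * (w i - w k) ^ 2) := by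
      intro i k
      by_cases hik : i = k
      · subst hik
        simp
      · rw [hc' i k hik]
        ring
    simp only [En, h, ← Finset.mul_sum]
    ring
  have hS1 : ∀ w : Fin N → ℝ, ∑ i, mu y' i * w i = κ * ∑ i, mu y i * w i := by
    intro w
    rw [Finset.mul_sum]
    exact Finset.sum_congr rfl fun i _ => by rw [hm' i]; ring
  have hQ' : ∀ w : Fin N → ℝ, Qm y' w = κ * Qm y w := by
    intro w
    unfold Qm
    rw [hS1 (fun i => w i ^ 2), hS1 w, hv']
    have hvne : vo y ≠ 0 := b1.ne'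
    field_simp
  -- subtract the mean
  set m : ℝ := (∑ i, mu y' i * w i) / vo y' with hm
  have e1 : ∑ i, mu y' i * (w i - m) = 0 := by
    rw [sum_shift, b2', hm]
    field_simp
    ring
  have e2 : Qm y' w = 3 * ∑ i, mu y' i * (w i - m) ^ 2 := Qm_eq y' w b1' b2'
  set q : ℝ := ∑ i, mu y' i * (w i - m) ^ 2 with hq
  have hqpos : 0 < q := by
    have h3 : 0 < Qm y' w := by
      rw [hQ']
      exact mul_pos hκ hQ
    linarith
  have hs : 0 < Real.sqrt q := Real.sqrt_pos.mpr hqpos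
  refine ⟨y', fun i => (1 / Real.sqrt q) * (w i - m), hy', hn', ?_, ?_, ?_⟩
  · have : ∑ i, mu y' i * (1 / Real.sqrt q * (w i - m)) =
        1 / Real.sqrt q * ∑ i, mu y' i * (w i - m) := by
      rw [Finset.mul_sum]
      exact Finset.sum_congr rfl fun i _ => by ring
    rw [this, e1, mul_zero]
  · have : ∑ i, mu y' i * (1 / Real.sqrt q * (w i - m)) ^ 2 =
        (1 / Real.sqrt q) ^ 2 * q := by
      rw [hq, Finset.mul_sum]
      exact Finset.sum_congr rfl fun i _ => by ring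
    rw [this, div_pow, one_pow, Real.sq_sqrt hqpos.le, one_div, inv_mul_cancel₀ hqpos.ne']
  · rw [En_smul, En_shift, hE', div_pow, one_pow, Real.sq_sqrt hqpos.le]
    have h4 : 3 * q = κ * Qm y w := by rw [← e2, hQ']
    have h5 : κ * En y w ≤ (2 + c) * (3 * q) := by
      rw [h4]
      nlinarith
    rw [one_div, inv_mul_eq_div, div_le_iff₀ hqpos]
    linarith

open EXT in
theorem blk_EXT (hRDM : Stmt_RDM) (hGPM : Stmt_GPM) (hGLN : Stmt_GLN) (hNML : Stmt_NML)
    (hSEL : Stmt_SEL) (hLS3 : Stmt_LS3) (hLS4 : Stmt_LS4) (hGDI : Stmt_GDI) (hBAS : Stmt_BAS)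
    (hFGN : Stmt_FGN) : Stmt_EXT := by
  intro N hlt hnot
  obtain ⟨ε, hε0, hε1, hLI, hmax⟩ :=
    EXT.best hBAS hFGN N (EXT.known hRDM hGPM hBAS hFGN N hlt) hnot
  refine ⟨ε, hε0, hε1, hLI, ?_⟩
  -- almost extremal pairs
  have hal : ∀ n : ℕ, ∃ (y : Fin N → R3) (w : Fin N → ℝ), FamG y ∧ Nm y ∧
      (∑ i, mu y i * w i = 0) ∧ (∑ i, mu y i * w i ^ 2 = 1) ∧
      En y w ≤ 3 * (2 + (ε + 1 / ((n : ℝ) + 1))) := fun n =>
    EXT.almost hGLN hBAS hFGN N (ε + 1 / ((n : ℝ) + 1)) (by positivity)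
      (hmax _ (by
        have : (0 : ℝ) < 1 / ((n : ℝ) + 1) := by positivity
        linarith))
  choose ys0 ws0 hfam0 hnm0 hmean0 hvar0 hE0 using hal
  -- a convergent subsequence
  have hcpt : IsCompact (Set.univ.pi fun _ : Fin N => Set.univ.pi fun _ : Fin 3 => Icc (-1 : ℝ) 1) :=
    isCompact_univ_pi fun _ => isCompact_univ_pi fun _ => isCompact_Icc
  obtain ⟨y, _, φ, hφ, hlim⟩ := hcpt.tendsto_subseq (x := ys0) (fun n => by
    simp only [Set.mem_univ_pi]
    intro i k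
    exact abs_le.mp ((hnm0 n).le i k))
  have hNm : Nm y := hNML (Fin N) (fun n => ys0 (φ n)) y (fun n => hnm0 (φ n)) hlim
  obtain ⟨ι', i1, i2, f, hsel, hgood, hcard⟩ := hSEL (Fin N) y hNm
  have hSq : ∀ ψ : ℕ → ℕ, StrictMono ψ →
      Sq (fun n => ys0 (φ (ψ n))) (fun n => ws0 (φ (ψ n))) y (3 * (2 + (ε + 1))) := by
    intro ψ hψ
    refine ⟨fun n => hfam0 _, fun n => hnm0 _, hlim.comp hψ.tendsto_atTop, fun n => hmean0 _,
      fun n => hvar0 _, fun n => (hE0 _).trans ?_⟩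
    have h1 : 1 / (((φ (ψ n) : ℕ) : ℝ) + 1) ≤ 1 := by
      rw [div_le_one (by positivity)]
      have : (0 : ℝ) ≤ ((φ (ψ n) : ℕ) : ℝ) := Nat.cast_nonneg _
      linarith
    linarith
  obtain ⟨ψ, W, hψ, hae, hW0, hW1⟩ := hLS3 (Fin N) (fun n => ys0 (φ n)) (fun n => ws0 (φ n)) y _
    (hSq id strictMono_id) ι' f hsel hgood
  have hlsc := hLS4 (Fin N) (fun n => ys0 (φ (ψ n))) (fun n => ws0 (φ (ψ n))) y _
    (hSq ψ hψ) ι' f hsel hgood W hae
  -- the energy of the limit
  have hEW : En (fun i' => y (f i')) W ≤ 3 * (2 + ε) := by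
    refine le_of_forall_pos_le_add fun η hη => ?_
    have h1 : Tendsto (fun n : ℕ => 1 / (((φ (ψ n) : ℕ) : ℝ) + 1)) atTop (𝓝 0) :=
      (tendsto_one_div_add_atTop_nhds_zero_nat (𝕜 := ℝ)).comp
        (hφ.tendsto_atTop.comp hψ.tendsto_atTop)
    have h2 : ∀ᶠ n : ℕ in atTop, 1 / (((φ (ψ n) : ℕ) : ℝ) + 1) < η / 6 :=
      h1.eventually (gt_mem_nhds (by positivity))
    obtain ⟨n, hn1, hn2⟩ := ((hlsc (η / 2) (by positivity)).and h2).exists
    have h3 := hE0 (φ (ψ n))
    linarith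
  have hne' : Nonempty ι' := by
    by_contra hemp
    rw [not_nonempty_iff] at hemp
    rw [Finset.univ_eq_empty, Finset.sum_empty] at hW1
    exact zero_ne_one hW1
  obtain ⟨b1, b2, b3, b4, _⟩ := hBAS ι' (fun i' => y (f i')) hgood.toNpb hne'
  have hQW : Qm (fun i' => y (f i')) W = 3 := by
    unfold Qm
    rw [hW0, hW1]
    norm_num
  rw [Fintype.card_fin] at hcard
  have hcardN : Fintype.card ι' = N := by
    refine le_antisymm hcard (not_lt.mp fun hlt' => ?_)
    have h1 := hGDI _ 1 (hlt _ hlt') ι' rfl (fun i' => y (f i')) hgood W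
    rw [hQW] at h1
    linarith
  have hEeq : En (fun i' => y (f i')) W = (2 + ε) * Qm (fun i' => y (f i')) W := by
    refine le_antisymm (by rw [hQW]; linarith) (hGDI _ ε hLI ι' hcardN _ hgood W)
  -- normalise the maximum
  obtain ⟨j, hj⟩ := Finite.exists_max (fun i' => |W i'|)
  have hWj : W j ≠ 0 := by
    intro h0
    have hz : ∀ i', W i' = 0 := fun i' => by
      have := hj i'
      rw [h0, abs_zero] at this
      exact abs_eq_zero.mp (le_antisymm this (abs_nonneg _))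
    have : ∑ i', mu (fun i' => y (f i')) i' * W i' ^ 2 = 0 :=
      Finset.sum_eq_zero fun i' _ => by rw [hz i']; ring
    rw [this] at hW1
    exact zero_ne_one hW1
  refine ⟨ι', i1, i2, fun i' => y (f i'), fun i' => (1 / W j) * W i', j, hcardN, hgood, ?_, ?_, ?_,
    ?_⟩
  · exact one_div_mul_cancel hWj
  · intro i'
    rw [abs_mul, abs_div, abs_one, one_div, inv_mul_eq_div, div_le_one (abs_pos.mpr hWj)]
    exact hj i'
  · have : ∑ i', mu (fun i' => y (f i')) i' * (1 / W j * W i') =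
        1 / W j * ∑ i', mu (fun i' => y (f i')) i' * W i' := by
      rw [Finset.mul_sum]
      exact Finset.sum_congr rfl fun i _ => by ring
    rw [this, hW0, mul_zero]
  · rw [En_smul, Qm_smul, hEeq]
    ring

end Pool.G1
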