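import Pool.Agent.Work.MP_b5407d_g1.InterfaceF
import Pool.Agent.Work.MP_b5407d_g1.CTV

/-!
# Block `FCE`: polygon data of a facet of a good family (helper43)
-/

set_option autoImplicit false

open MeasureTheory Set Filter Topology

namespace Pool.G1

open Pool.T3 (R3 dt cr de K V S H Fam Pos pt Lam Q J lin)

namespace FCE

/-- a covector is determined by its values on the chart vectors -/
lemma eq_zero {a n0 p1 p2 : R3} (hd : de n0 p1 p2 ≠ 0) (h0 : dt a n0 = 0) (h1 : dt a p1 = 0)
    (h2 : dt a p2 = 0) : a = 0 := by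
  have key : ∀ k, a k * de n0 p1 p2 =
      dt a n0 * cr p1 p2 k + dt a p1 * cr p2 n0 k + dt a p2 * cr n0 p1 k := by
    intro k
    fin_cases k <;> simp [dt, de, cr] <;> ring
  funext k
  have h := key k
  rw [h0, h1, h2] at h
  have : a k * de n0 p1 p2 = 0 := by rw [h]; ring
  rcases mul_eq_zero.1 this with h' | h'
  · simpa using h'
  · exact absurd h' hd

lemma dt_chp (a n0 p1 p2 : R3) (α : ℝ) (ξ : R2) :
    dt a (chp n0 p1 p2 α ξ) = α * dt a n0 + ξ.1 * dt a p1 + ξ.2 * dt a p2 := by
  simp only [dt, chp, Pi.add_apply, Pi.smul_apply, smul_eq_mul]; ring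

/-- coordinates of a point of the plane of the chart -/
lemma chp_eq {ι : Type} {y : ι → R3} {j : ι} {n0 p1 p2 : R3} (hc : Chart y j n0 p1 p2) {x : R3}
    (hx : dt (y j) x = 1) :
    x = chp n0 p1 p2 1 (-(dt (cr n0 p2) x) / de n0 p1 p2, dt (cr n0 p1) x / de n0 p1 p2) := by
  have hd : de n0 p1 p2 ≠ 0 := hc.hd.ne'
  have e : ∀ a : R3, de n0 p1 p2 * dt a x =
      dt (cr p1 p2) x * dt a n0 + (-(dt (cr n0 p2) x)) * dt a p1 + dt (cr n0 p1) x * dt a p2 := by
    intro a
    simp [dt, de, cr]; ring
  have e1 : dt (cr p1 p2) x = de n0 p1 p2 := by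
    have h := e (y j)
    rw [hx, hc.h0, hc.h1, hc.h2] at h
    linarith
  have e2 : ∀ a : R3, dt a x = dt a (chp n0 p1 p2 1
      (-(dt (cr n0 p2) x) / de n0 p1 p2, dt (cr n0 p1) x / de n0 p1 p2)) := by
    intro a
    rw [dt_chp]
    have h := e a
    rw [e1] at h
    field_simp
    linarith
  funext k
  fin_cases k
  · have h := e2 ![1, 0, 0]
    simpa [dt] using h
  · have h := e2 ![0, 1, 0]
    simpa [dt] using h
  · have h := e2 ![0, 0, 1]
    simpa [dt] using h

lemma abs_dt_le {a x : R3} {R : ℝ} (hx : ∀ k, |x k| ≤ R) :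
    |dt a x| ≤ (|a 0| + |a 1| + |a 2|) * R := by
  have hk : ∀ k, |a k * x k| ≤ |a k| * R := by
    intro k
    rw [abs_mul]
    exact mul_le_mul_of_nonneg_left (hx k) (abs_nonneg _)
  unfold dt
  have h1 := abs_add_le (a 0 * x 0 + a 1 * x 1) (a 2 * x 2)
  have h2 := abs_add_le (a 0 * x 0) (a 1 * x 1)
  have e0 := hk 0
  have e1 := hk 1
  have e2 := hk 2
  linarith

lemma sg_cases (e : Bool) : sg e = 1 ∨ sg e = -1 := by
  cases e <;> simp [sg]

lemma sg_mul_self (e : Bool) : sg e * sg e = 1 := by
  cases e <;> simp [sg]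

lemma sy_eq {ι : Type} (y : ι → R3) (l : ι) (e : Bool) : sy y (l, e) = sg e • y l := by
  cases e <;> simp [sy, sg]

/-- the inequality of a half plane, in space -/
lemma half_iff {ι : Type} (y : ι → R3) (j : ι) (n0 p1 p2 : R3) (k : {l : ι // l ≠ j} × Bool)
    (ξ : R2) :
    Fb y j n0 k - dp (FN y j p1 p2 k) ξ = 1 - sg k.2 * dt (y k.1) (chp n0 p1 p2 1 ξ) := by
  rw [dt_chp]
  simp only [Fb, FN, dp, Prod.smul_fst, Prod.smul_snd, smul_eq_mul]
  ring

end FCE

open FCE

theorem blk_FCE (hP : Stmt_PEX) (hG : Stmt_GTR) : Stmt_FCE := by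
  intro ι _ _ y hg j n0 p1 p2 hc
  have hd : de n0 p1 p2 ≠ 0 := hc.hd.ne'
  -- parallel vectors
  have hpar : ∀ l : ι, l ≠ j → ∀ c : ℝ, y l ≠ c • y j := by
    intro l hl c h
    apply hg.np l j hl
    rw [h]
    funext k
    fin_cases k <;> simp [cr] <;> ring
  have hyj0 : y j ≠ 0 := by
    intro h
    have := hc.h0
    rw [h] at this
    simp [dt] at this
  -- a covector with given values
  have hdet : ∀ (a : R3) (c : ℝ), dt a n0 = c → dt a p1 = 0 → dt a p2 = 0 → a = c • y j := by
    intro a c h0 h1 h2
    have h : a - c • y j = 0 := by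
      apply eq_zero hd
      · have e : dt (a - c • y j) n0 = dt a n0 - c * dt (y j) n0 := by
          simp only [dt, Pi.sub_apply, Pi.smul_apply, smul_eq_mul]; ring
        rw [e, h0, hc.h0]; ring
      · have e : dt (a - c • y j) p1 = dt a p1 - c * dt (y j) p1 := by
          simp only [dt, Pi.sub_apply, Pi.smul_apply, smul_eq_mul]; ring
        rw [e, h1, hc.h1]; ring
      · have e : dt (a - c • y j) p2 = dt a p2 - c * dt (y j) p2 := by
          simp only [dt, Pi.sub_apply, Pi.smul_apply, smul_eq_mul]; ring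
        rw [e, h2, hc.h2]; ring
    exact sub_eq_zero.1 h
  refine hP ({l : ι // l ≠ j} × Bool) (FN y j p1 p2) (Fb y j n0) ?_ ?_ ?_ ?_
  · -- normals
    rintro ⟨⟨l, hl⟩, e⟩ h
    simp only [FN, Prod.smul_mk, smul_eq_mul, Prod.mk_eq_zero] at h
    have hs : sg e ≠ 0 := by rcases sg_cases e with h' | h' <;> rw [h'] <;> norm_num
    have h1 : dt (y l) p1 = 0 := (mul_eq_zero.1 h.1).resolve_left hs
    have h2 : dt (y l) p2 = 0 := (mul_eq_zero.1 h.2).resolve_left hs
    exact hpar l hl _ (hdet (y l) (dt (y l) n0) rfl h1 h2)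
  · -- bounded
    obtain ⟨R, hR⟩ := hg.bd
    refine ⟨((|cr n0 p2 0| + |cr n0 p2 1| + |cr n0 p2 2|) * R +
      (|cr n0 p1 0| + |cr n0 p1 1| + |cr n0 p1 2|) * R) / de n0 p1 p2, ?_⟩
    intro ξ hξ
    set x := chp n0 p1 p2 1 ξ with hx
    have hxj : dt (y j) x = 1 := by
      rw [hx, dt_chp, hc.h0, hc.h1, hc.h2]; ring
    have hxK : x ∈ KK y := by
      intro l
      show |dt (y l) x| ≤ 1
      by_cases hl : l = j
      · rw [hl, hxj]; simp
      · have h1 := hξ (⟨l, hl⟩, true)
        have h2 := hξ (⟨l, hl⟩, false)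
        have e1 := half_iff y j n0 p1 p2 (⟨l, hl⟩, true) ξ
        have e2 := half_iff y j n0 p1 p2 (⟨l, hl⟩, false) ξ
        simp only [sg, if_true, Bool.false_eq_true, if_false] at e1 e2
        rw [abs_le]
        constructor
        · rw [hx]; linarith
        · rw [hx]; linarith
    have hb := hR x hxK
    have hR0 : 0 ≤ R := le_trans (abs_nonneg _) (hb 0)
    -- the coordinates
    have eξ : ξ = (-(dt (cr n0 p2) x) / de n0 p1 p2, dt (cr n0 p1) x / de n0 p1 p2) := by
      have hdp := hc.hd
      have e1 : dt (cr n0 p2) x = -(ξ.1 * de n0 p1 p2) := by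
        rw [hx, dt_chp]
        simp [dt, de, cr]; ring
      have e2 : dt (cr n0 p1) x = ξ.2 * de n0 p1 p2 := by
        rw [hx, dt_chp]
        simp [dt, de, cr]; ring
      rw [e1, e2]
      ext
      · simp only; field_simp
      · simp only; field_simp
    have b1 := abs_dt_le (a := cr n0 p2) hb
    have b2 := abs_dt_le (a := cr n0 p1) hb
    have n1 : 0 ≤ (|cr n0 p2 0| + |cr n0 p2 1| + |cr n0 p2 2|) * R := by positivity
    have n2 : 0 ≤ (|cr n0 p1 0| + |cr n0 p1 1| + |cr n0 p1 2|) * R := by positivity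
    constructor
    · rw [eξ]
      simp only
      rw [abs_div, abs_neg, abs_of_pos hc.hd]
      exact div_le_div_of_nonneg_right (by linarith) hc.hd.le
    · rw [eξ]
      simp only
      rw [abs_div, abs_of_pos hc.hd]
      exact div_le_div_of_nonneg_right (by linarith) hc.hd.le
  · -- interior point
    have hmu := hg.mp j
    have hne : ∃ x : R3, dt (y j) x ≠ 0 ∧ ∀ l, l ≠ j → |dt (y l) x| < |dt (y j) x| := by
      by_contra hcon
      push Not at hcon
      have hz : volume (co y j) = 0 := by
        have hsub : co y j ⊆ {x : R3 | dt (y j) x = 0} ∪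
            ⋃ l ∈ {l : ι | l ≠ j}, ({x : R3 | dt (y l - y j) x = 0} ∪
              {x : R3 | dt (y l + y j) x = 0}) := by
          intro x hx
          by_cases h0 : dt (y j) x = 0
          · exact Or.inl h0
          · right
            obtain ⟨l, hl, hle⟩ := hcon x h0
            have heq : |dt (y l) x| = |dt (y j) x| := le_antisymm (hx.2 l) hle
            rw [mem_iUnion₂]
            refine ⟨l, hl, ?_⟩
            rcases abs_eq_abs.1 heq with h | h
            · left
              show dt (y l - y j) x = 0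
              have e : dt (y l - y j) x = dt (y l) x - dt (y j) x := by
                simp only [dt, Pi.sub_apply]; ring
              rw [e, h]; ring
            · right
              show dt (y l + y j) x = 0
              have e : dt (y l + y j) x = dt (y l) x + dt (y j) x := by
                simp only [dt, Pi.add_apply]; ring
              rw [e, h]; ring
        refine measure_mono_null hsub ?_
        rw [measure_union_null_iff]
        constructor
        · exact CTV.null_plane _ 0 (Or.inl hyj0)
        · rw [measure_biUnion_null_iff (Set.toFinite _).countable]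
          intro l hl
          rw [measure_union_null_iff]
          constructor
          · refine CTV.null_plane _ 0 (Or.inl ?_)
            intro h
            exact hpar l hl 1 (by rw [one_smul]; exact sub_eq_zero.1 h)
          · refine CTV.null_plane _ 0 (Or.inl ?_)
            intro h
            exact hpar l hl (-1) (by rw [neg_smul, one_smul]; exact eq_neg_of_add_eq_zero_left h)
      unfold mu at hmu
      rw [hz] at hmu
      simp at hmu
    obtain ⟨x, hx0, hx⟩ := hne
    set x' : R3 := (1 / dt (y j) x) • x with hx'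
    have es : ∀ a : R3, dt a x' = dt a x / dt (y j) x := by
      intro a
      rw [hx']
      simp only [dt, Pi.smul_apply, smul_eq_mul]
      ring
    have hj' : dt (y j) x' = 1 := by rw [es, div_self hx0]
    have hl' : ∀ l, l ≠ j → |dt (y l) x'| < 1 := by
      intro l hl
      rw [es, abs_div, div_lt_one (abs_pos.2 hx0)]
      exact hx l hl
    have hch := chp_eq hc hj'
    refine ⟨(-(dt (cr n0 p2) x') / de n0 p1 p2, dt (cr n0 p1) x' / de n0 p1 p2), ?_⟩
    rintro ⟨⟨l, hl⟩, e⟩
    have h := half_iff y j n0 p1 p2 (⟨l, hl⟩, e)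
      (-(dt (cr n0 p2) x') / de n0 p1 p2, dt (cr n0 p1) x' / de n0 p1 p2)
    rw [← hch] at h
    have h1 := hl' l hl
    rw [abs_lt] at h1
    simp only at h
    rcases sg_cases e with h' | h'
    · rw [h'] at h; linarith [h1.1, h1.2]
    · rw [h'] at h; linarith [h1.1, h1.2]
  · -- coincidences
    rintro ⟨⟨l, hl⟩, e⟩ ⟨⟨l', hl'⟩, e'⟩ hne c hcp ⟨hN, hb⟩
    simp only [FN, Prod.smul_mk, smul_eq_mul, Prod.mk.injEq] at hN
    simp only [Fb] at hb
    have heq : sg e' • y l' - c • (sg e • y l) = (1 - c) • y j := by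
      apply hdet
      · simp only [dt, Pi.sub_apply, Pi.smul_apply, smul_eq_mul] at hb ⊢
        linarith
      · have h := hN.1
        simp only [dt, Pi.sub_apply, Pi.smul_apply, smul_eq_mul] at h ⊢
        linarith
      · have h := hN.2
        simp only [dt, Pi.sub_apply, Pi.smul_apply, smul_eq_mul] at h ⊢
        linarith
    by_cases hll : l = l'
    · subst hll
      have hee : e ≠ e' := by
        intro h
        exact hne (by rw [h])
      have hs : sg e' = -(sg e) := by
        cases e <;> cases e' <;> first | exact absurd rfl hee | simp [sg]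
      rw [hs] at heq
      have hs2 := sg_mul_self e
      apply hpar l hl (-(sg e) * (1 - c) / (1 + c))
      have hc1 : (1 + c) ≠ 0 := by positivity
      funext k
      have h := congrFun heq k
      simp only [Pi.sub_apply, Pi.smul_apply, smul_eq_mul] at h ⊢
      have h3 : sg e * (-(sg e) * y l k - c * (sg e * y l k)) = sg e * ((1 - c) * y j k) := by
        rw [h]
      have h4 : -(sg e * sg e) * ((1 + c) * y l k) = sg e * ((1 - c) * y j k) := by
        rw [← h3]; ring
      rw [hs2] at h4
      field_simp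
      linarith
    · refine hG ι y hg (l, e) (j, true) (l', e') hl hll ?_ c (1 - c) (by ring) ?_
      · exact fun h => hl' h.symm
      · rw [sy_eq, sy_eq]
        have e3 : sy y (j, true) = y j := by simp [sy]
        rw [e3]
        have := sub_eq_iff_eq_add.1 heq
        rw [this, add_comm]

end Pool.G1
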