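import Pool.Agent.Work.MP_b5407d_g1.InterfaceH
import Pool.Agent.Work.MP_b5407d_t3.FIN3
import Pool.Agent.Work.MP_b5407d_lp_helper68.FIN
import Pool.Agent.Work.MP_b5407d_lp_helper23.CEN

/-!
# G1, block FINQ: the theorem for origin symmetric bodies, all `0 < p < 1`
(copy of T3 `FIN3` of helper44)
-/

set_option autoImplicit false

open MeasureTheory Set Filter Topology
open scoped Pointwise

namespace Pool.G1

open Pool.Agent.Work.LPBM (E supp Wulff CBody mp Span Pset)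
open Pool.Agent.Work.LPBM.helper68

open Pool.T3.FIN3_ in
theorem blk_FINQ (hEQQ : Stmt_EQQ) : Stmt_FINQ := by
  intro hG p hp0 hp1 K C hK1 hK2 hK3 hKs' hC1 hC2 hC3 hCs' α β hα hβ
  have hC := Pool.Agent.Work.LPBM.helper23.stmt_CEN
  have hKb : CBody K := ⟨hK1, hK2, hK3, sym_int hK2 hKs'⟩
  have hCb : CBody C := ⟨hC1, hC2, hC3, sym_int hC2 hCs'⟩
  have hn1 : 1 ≤ 3 := by norm_num
  have hn0 : (3 : ℝ) ≠ 0 := by norm_num
  have hVK := body_pos hKb
  have hVC := body_pos hCb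
  obtain ⟨hl, hln, hlp⟩ := root (n := 3) (p := p) hn1 hVK
  obtain ⟨hm, hmn, hmp⟩ := root (n := 3) (p := p) hn1 hVC
  have hcast : ((3 : ℕ) : ℝ) = (3 : ℝ) := by norm_num
  rw [hcast] at hl hln hlp hm hmn hmp
  set lam : ℝ := (volume K).toReal ^ (1 / (3 : ℝ)) with hlam
  set mu : ℝ := (volume C).toReal ^ (1 / (3 : ℝ)) with hmu
  have hli : 0 < lam⁻¹ := inv_pos.2 hl
  have hmi : 0 < mu⁻¹ := inv_pos.2 hm
  set K1 : Set (E 3) := lam⁻¹ • K with hK1def
  set C1 : Set (E 3) := mu⁻¹ • C with hC1def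
  have hK1b : CBody K1 := smul_body hKb hli
  have hC1b : CBody C1 := smul_body hCb hmi
  have hK1s : ∀ x ∈ K1, -x ∈ K1 := smul_sym hKs'
  have hC1s : ∀ x ∈ C1, -x ∈ C1 := smul_sym hCs'
  have hK1v : (volume K1).toReal = 1 := by
    rw [hK1def, smul_vol K hli, ← hln, inv_pow, inv_mul_cancel₀ (pow_ne_zero _ hl.ne')]
  have hC1v : (volume C1).toReal = 1 := by
    rw [hC1def, smul_vol C hmi, ← hmn, inv_pow, inv_mul_cancel₀ (pow_ne_zero _ hm.ne')]
  have hKs : ∀ u, supp K u = lam * supp K1 u := by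
    intro u
    rw [hK1def, smul_supp K hli, mul_inv_cancel_left₀ hl.ne']
  have hCs : ∀ u, supp C u = mu * supp C1 u := by
    intro u
    rw [hC1def, smul_supp C hmi, mul_inv_cancel_left₀ hm.ne']
  obtain ⟨-, hKpos, -, -, hKle, hKmem⟩ := hC 3 K1 hn1 hK1b
  obtain ⟨-, hCpos, -, -, hCle, hCmem⟩ := hC 3 C1 hn1 hC1b
  have hsne : ∀ u ∈ Metric.sphere (0 : E 3) 1, u ≠ 0 := by
    intro u hu h
    rw [h] at hu
    simp at hu
  have hlpp : 0 < lam ^ p := Real.rpow_pos_of_pos hl _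
  have hmpp : 0 < mu ^ p := Real.rpow_pos_of_pos hm _
  set sg : ℝ := α * lam ^ p + β * mu ^ p with hsg
  have hsgp : 0 < sg := by
    have := mul_pos hα hlpp
    have := mul_pos hβ hmpp
    linarith
  set t : ℝ := β * mu ^ p / sg with ht
  have ht0 : 0 < t := div_pos (mul_pos hβ hmpp) hsgp
  have ht1 : t < 1 := by
    rw [ht, div_lt_one hsgp, hsg]
    have := mul_pos hα hlpp
    linarith
  have hsgt : sg * t = β * mu ^ p := by
    rw [ht, mul_div_cancel₀ _ hsgp.ne']
  have hsgt' : sg * (1 - t) = α * lam ^ p := by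
    rw [mul_sub, hsgt, hsg]
    ring
  set c : ℝ := sg ^ (1 / p) with hc
  have hcp : 0 < c := Real.rpow_pos_of_pos hsgp _
  set M : E 3 → ℝ := fun u => mp p t (supp K1 u) (supp C1 u) with hM
  have hset : {x : EuclideanSpace ℝ (Fin 3) |
              ∀ u ∈ Metric.sphere (0 : EuclideanSpace ℝ (Fin 3)) 1,
                inner ℝ x u ≤ (α * (sSup ((fun y : EuclideanSpace ℝ (Fin 3) => inner ℝ y u) '' K)) ^ p
                    + β * (sSup ((fun y : EuclideanSpace ℝ (Fin 3) => inner ℝ y u) '' C)) ^ p) ^ (1 / p)}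
      = c • Wulff M := by
    rw [← wulff_smul M hcp]
    apply wulff_congr (fun u => (α * (supp K u) ^ p + β * (supp C u) ^ p) ^ (1 / p))
    intro u hu
    have h1 := hKpos u (hsne u hu)
    have h2 := hCpos u (hsne u hu)
    show (α * (supp K u) ^ p + β * (supp C u) ^ p) ^ (1 / p) = c * mp p t (supp K1 u) (supp C1 u)
    have h3 : 0 ≤ (1 - t) * supp K1 u ^ p + t * supp C1 u ^ p := by
      have := mul_pos (sub_pos.2 ht1) (Real.rpow_pos_of_pos h1 p)
      have := mul_pos ht0 (Real.rpow_pos_of_pos h2 p)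
      linarith
    unfold mp
    rw [hc, ← Real.mul_rpow hsgp.le h3, hKs u, hCs u, Real.mul_rpow hl.le h1.le,
      Real.mul_rpow hm.le h2.le]
    congr 1
    rw [mul_add, ← mul_assoc, ← mul_assoc, ← mul_assoc, ← mul_assoc, hsgt, hsgt']
  rw [hset]
  have hWv : (volume (c • Wulff M)).toReal = c ^ 3 * (volume (Wulff M)).toReal :=
    smul_vol (Wulff M) hcp
  have hWn : 0 ≤ (volume (Wulff M)).toReal := ENNReal.toReal_nonneg
  have hcn : (c ^ 3) ^ (p / (3 : ℝ)) = sg := by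
    rw [← Real.rpow_natCast c 3, hcast, ← Real.rpow_mul hcp.le, mul_div_cancel₀ _ hn0, hc,
      ← Real.rpow_mul hsgp.le, one_div_mul_cancel hp0.ne', Real.rpow_one]
  have hW2 : (volume (c • Wulff M)).toReal ^ (p / (3 : ℝ))
      = sg * (volume (Wulff M)).toReal ^ (p / (3 : ℝ)) := by
    rw [hWv, Real.mul_rpow (pow_nonneg hcp.le 3) hWn, hcn]
  have hLHS : α * (volume K).toReal ^ (p / (3 : ℝ)) + β * (volume C).toReal ^ (p / (3 : ℝ)) = sg := by
    rw [hlp, hmp]
  have hgen := hG p K1 C1 hp0 hp1 hK1b hC1b hK1s hC1s t ⟨ht0.le, ht1.le⟩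
  rw [hK1v, hC1v, Real.one_rpow, Real.one_rpow, mul_one] at hgen
  have hW1 : 1 ≤ (volume (Wulff M)).toReal := hgen
  have hpn0 : 0 < p / (3 : ℝ) := div_pos hp0 (by norm_num)
  rw [hW2, hLHS]
  refine ⟨?_, ?_⟩
  · have : (1 : ℝ) ≤ (volume (Wulff M)).toReal ^ (p / (3 : ℝ)) := Real.one_le_rpow hW1 hpn0.le
    nlinarith
  refine ⟨?_, ?_⟩
  · intro h
    have h1 : (volume (Wulff M)).toReal ^ (p / (3 : ℝ)) = 1 := by
      have : sg * (volume (Wulff M)).toReal ^ (p / (3 : ℝ)) = sg * 1 := by rw [h, mul_one]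
      exact mul_left_cancel₀ hsgp.ne' this
    have h2 : (volume (Wulff M)).toReal = 1 := by
      rcases hW1.lt_or_eq with h3 | h3
      · have := Real.one_lt_rpow h3 hpn0
        linarith
      · exact h3.symm
    have h3 : K1 = C1 := hEQQ hG p K1 C1 hp0 hp1 hK1b hC1b hK1s hC1s (by rw [hK1v, hC1v]) t
      ⟨ht0, ht1⟩ (by rw [hK1v]; exact h2)
    refine ⟨mu * lam⁻¹, mul_pos hm hli, ?_⟩
    show C = (mu * lam⁻¹) • K
    rw [mul_smul, ← hK1def, h3, hC1def, smul_inv_smul₀ hm.ne']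
  · rintro ⟨s, hs, hCK⟩
    have hCK' : C = s • K := hCK
    have hms : mu = s * lam := by
      rw [hmu, hCK', smul_vol K hs, Real.mul_rpow (pow_nonneg hs.le 3) ENNReal.toReal_nonneg,
        ← Real.rpow_natCast s 3, hcast, ← Real.rpow_mul hs.le, mul_one_div_cancel hn0,
        Real.rpow_one]
    have h1 : C1 = K1 := by
      rw [hC1def, hK1def, hms, hCK', ← mul_smul, mul_inv, mul_comm s⁻¹ lam⁻¹, mul_assoc,
        inv_mul_cancel₀ hs.ne', mul_one]
    have h2 : Wulff M = K1 := by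
      ext x
      constructor
      · intro hx
        apply hKmem
        intro u hu
        have := hx u hu
        rw [hM] at this
        simp only at this
        rw [h1, mp_self' hp0 (hKpos u (hsne u hu))] at this
        exact this
      · intro hx u hu
        show inner ℝ x u ≤ mp p t (supp K1 u) (supp C1 u)
        rw [h1, mp_self' hp0 (hKpos u (hsne u hu))]
        exact hKle u x hx
    rw [h2, hK1v, Real.one_rpow, mul_one]

end Pool.G1
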