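import Pool.Agent.Work.MP_b5407d_g1.InterfaceH

/-!
# G1, block FIQ: the inequality for admissible families from `LI 1 N`
-/

set_option autoImplicit false

open MeasureTheory Set Filter Topology

namespace Pool.G1

open Pool.T3 (R3 dt cr de K V S H Fam Pos pt Lam Q J lin Calc)

theorem blk_FIQ (hCALC : Pool.T3.Stmt_CALC) (hSUQ : Stmt_SUQ) (hQJT : Stmt_QJT)
    (hFGN : Stmt_FGN) : Stmt_FIQ := by
  intro hLI ι _ _ u hu p hp0 hp1 a b ha hb s hs
  refine hSUQ ι (V u) (S u) (H u) (hCALC ι u hu) ?_ p hp0 hp1 a b ha hb s hs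
  intro h hh f
  obtain ⟨hQ, -, hJ⟩ := hQJT ι u hu h hh f
  have h1 := hLI (Fintype.card ι) ι rfl (dv u h) (hFGN.2.1 ι u h hu hh) (fun i => f i / h i)
  rw [hQ, hJ]
  linarith

end Pool.G1
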