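import Pool.Agent.Work.MP_b5407d_g1.InterfaceF

/-!
# G1, block FCQ: the facet is the polygon `PP` (algebra)
-/

set_option autoImplicit false

namespace Pool.G1

open Pool.T3 (R3 dt cr de)

/-- `dt` of a chart point -/
theorem fcq_dt (x n0 p1 p2 : R3) (α : ℝ) (ξ : R2) :
    dt x (chp n0 p1 p2 α ξ) = α * dt x n0 + ξ.1 * dt x p1 + ξ.2 * dt x p2 := by
  simp only [chp, dt, Pi.add_apply, Pi.smul_apply, smul_eq_mul]
  ring

/-- the left side of a constraint of `PP` -/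
theorem fcq_dp {ι : Type} (y : ι → R3) (j : ι) (n0 p1 p2 : R3) (β : R2) (τ : ℝ)
    (k : {l : ι // l ≠ j} × Bool) (ξ : R2) :
    dp (Np (FN y j p1 p2) (FM y j n0 β) τ k) ξ =
      sg k.2 * (dt (y k.1) p1 * ξ.1 + dt (y k.1) p2 * ξ.2 - τ * dp β ξ * dt (y k.1) n0) := by
  simp only [Np, FN, FM, dp, Prod.fst_add, Prod.snd_add, Prod.smul_fst, Prod.smul_snd, smul_eq_mul]
  ring

/-- `FCQ`: the facet is the polygon `PP` (algebra), for `a = 1 + s z`. -/
theorem blk_FCQ : Stmt_FCQ := by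
  intro ι y j n0 p1 p2 β z τ s
  ext ξ
  simp only [Fc, PP, Set.mem_ofPred_eq]
  constructor
  · rintro h ⟨⟨l, hl⟩, e⟩
    have h1 := abs_le.1 (h l hl)
    rw [fcq_dt] at h1
    rw [fcq_dp]
    simp only [bp, Fb, Fe]
    cases e
    · simp only [sg, Bool.false_eq_true, if_false]
      nlinarith [h1.1]
    · simp only [sg, if_true]
      nlinarith [h1.2]
  · intro h l hl
    have h1 := h (⟨l, hl⟩, true)
    have h2 := h (⟨l, hl⟩, false)
    rw [fcq_dp] at h1 h2
    simp only [bp, Fb, Fe, sg, if_true, Bool.false_eq_true, if_false] at h1 h2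
    rw [fcq_dt]
    refine abs_le.2 ⟨?_, ?_⟩
    · nlinarith [h2]
    · nlinarith [h1]

end Pool.G1
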