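import Pool.Agent.Work.MP_b5407d_g1.InterfaceF
import Pool.Agent.Work.MP_b5407d_g1.ARE
import Pool.Agent.Work.MP_b5407d_g1.FCQ
import Pool.Agent.Work.MP_b5407d_t3.COO

/-!
# Block FMU (helper89): the facet area and the edge weights
-/

set_option autoImplicit false

open MeasureTheory Set Filter Topology

namespace Pool.G1

open Pool.T3 (R3 dt cr de K V S H Fam Pos pt Lam Q J lin)

namespace FMUaux

/-! ## planar part -/

/-- the polygon of all constraints -/
def FP {κ : Type} (N : κ → R2) (b : κ → ℝ) : Set R2 := {ξ | ∀ k, dp (N k) ξ ≤ b k}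

lemma dp_smul_left (a x : R2) (t : ℝ) : dp (t • a) x = t * dp a x := by
  simp only [dp, Prod.smul_fst, Prod.smul_snd, smul_eq_mul]; ring

lemma dp_add_right (a x z : R2) : dp a (x + z) = dp a x + dp a z := by
  simp only [dp, Prod.fst_add, Prod.snd_add]; ring

lemma dp_smul_right (a x : R2) (t : ℝ) : dp a (t • x) = t * dp a x := by
  simp only [dp, Prod.smul_fst, Prod.smul_snd, smul_eq_mul]; ring

lemma dp_rt (a b : R2) : dp a (rt b) = -cp a b := by
  simp only [dp, rt, cp]; ring

section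

variable {κ : Type} {N : κ → R2} {b : κ → ℝ} {n : ℕ} {ν v : ℕ → R2} {ℓ c : ℕ → ℝ} {kk : ℕ → κ}

/-- points of the polygon are convex combinations -/
lemma rep (h : Poly n ν v ℓ) {ξ : R2} (hξ : ξ ∈ AREaux.PL ν v) :
    ∃ (a : ℕ) (u0 u1 u2 : ℝ), 0 ≤ u0 ∧ 0 ≤ u1 ∧ 0 ≤ u2 ∧ u0 + u1 + u2 = 1 ∧
      ξ = u0 • ((1 / 3 : ℝ) • (v 0 + v 1 + v 2)) + (u1 • v (a + 1) + u2 • v (a + 2)) := by
  obtain ⟨a, _, hTr⟩ := AREaux.sub_Tr h (AREaux.interior_pt h) hξ
  obtain ⟨u, ⟨hu1, hu2, hu3⟩, rfl⟩ := hTr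
  refine ⟨a, 1 - u.1 - u.2, u.1, u.2, by linarith, hu1, hu2, by ring, ?_⟩
  apply Prod.ext
  · simp only [AREaux.tm, Prod.fst_add, Prod.smul_fst, smul_eq_mul, Prod.fst_sub]
    ring
  · simp only [AREaux.tm, Prod.snd_add, Prod.smul_snd, smul_eq_mul, Prod.snd_sub]
    ring

lemma rep_dp (a : ℕ) (u0 u1 u2 : ℝ) (M : R2) :
    dp M (u0 • ((1 / 3 : ℝ) • (v 0 + v 1 + v 2)) + (u1 • v (a + 1) + u2 • v (a + 2))) =
      u0 * ((dp M (v 0) + dp M (v 1) + dp M (v 2)) / 3) + (u1 * dp M (v (a + 1)) +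
        u2 * dp M (v (a + 2))) := by
  simp only [dp_add_right, dp_smul_right]
  ring

theorem FP_eq (h : PD N b n ν v ℓ c kk) : FP N b = AREaux.PL ν v := by
  ext ξ
  constructor
  · intro hξ i
    have h1 := hξ (kk i)
    rw [h.hN i, h.hb i, dp_smul_left] at h1
    exact le_of_mul_le_mul_left h1 (h.cpos i)
  · intro hξ k
    obtain ⟨a, u0, u1, u2, h0, h1, h2, hs, rfl⟩ := rep h.poly hξ
    rw [rep_dp]
    have e0 := h.le k 0
    have e1 := h.le k 1
    have e2 := h.le k 2
    have f1 := h.le k (a + 1)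
    have f2 := h.le k (a + 2)
    have g0 : (dp (N k) (v 0) + dp (N k) (v 1) + dp (N k) (v 2)) / 3 ≤ b k := by linarith
    have k0 := mul_le_mul_of_nonneg_left g0 h0
    have k1 := mul_le_mul_of_nonneg_left f1 h1
    have k2 := mul_le_mul_of_nonneg_left f2 h2
    have k3 : b k = u0 * b k + (u1 * b k + u2 * b k) := by
      have : u0 * b k + (u1 * b k + u2 * b k) = (u0 + u1 + u2) * b k := by ring
      rw [this, hs, one_mul]
    rw [k3]
    linarith

/-- nonessential constraints touch only in vertices -/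
theorem noness (h : PD N b n ν v ℓ c kk) {k : κ} (hk : ∀ i, kk i ≠ k) {ξ : R2}
    (hξ : ξ ∈ FP N b) (he : dp (N k) ξ = b k) : ∃ m, m < n ∧ ξ = v m := by
  rw [FP_eq h] at hξ
  have hn : 0 < n := by have := h.poly.n3; omega
  have hmod : ∀ m, ∃ m', m' < n ∧ v m = v m' := fun m =>
    ⟨m % n, Nat.mod_lt _ hn, (AREaux.mod_eq (f := v) h.poly.pv m).symm⟩
  obtain ⟨a, u0, u1, u2, h0, h1, h2, hs, rfl⟩ := rep h.poly hξ
  rw [rep_dp] at he
  have e0 := h.le k 0
  have e1 := h.le k 1
  have e2 := h.le k 2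
  have f1 := h.le k (a + 1)
  have f2 := h.le k (a + 2)
  have k3 : b k = u0 * b k + (u1 * b k + u2 * b k) := by
    have : u0 * b k + (u1 * b k + u2 * b k) = (u0 + u1 + u2) * b k := by ring
    rw [this, hs, one_mul]
  have g0 : (dp (N k) (v 0) + dp (N k) (v 1) + dp (N k) (v 2)) / 3 ≤ b k := by linarith
  have k0 := mul_le_mul_of_nonneg_left g0 h0
  have k1 := mul_le_mul_of_nonneg_left f1 h1
  have k2 := mul_le_mul_of_nonneg_left f2 h2
  have q0 : u0 * ((dp (N k) (v 0) + dp (N k) (v 1) + dp (N k) (v 2)) / 3) = u0 * b k := by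
    linarith
  have q1 : u1 * dp (N k) (v (a + 1)) = u1 * b k := by linarith
  have q2 : u2 * dp (N k) (v (a + 2)) = u2 * b k := by linarith
  have z0 : u0 = 0 := by
    by_contra hne
    have r := mul_left_cancel₀ hne q0
    have r0 : dp (N k) (v 0) = b k := by linarith
    have r1 : dp (N k) (v (0 + 1)) = b k := by
      rw [zero_add]; linarith
    exact h.tch k hk 0 ⟨r0, r1⟩
  have z12 : u1 = 0 ∨ u2 = 0 := by
    by_contra hcon
    push Not at hcon
    have r1 := mul_left_cancel₀ hcon.1 q1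
    have r2 := mul_left_cancel₀ hcon.2 q2
    exact h.tch k hk (a + 1) ⟨r1, r2⟩
  rcases z12 with z | z
  · have hu2 : u2 = 1 := by linarith
    obtain ⟨m', hm', e⟩ := hmod (a + 2)
    refine ⟨m', hm', ?_⟩
    rw [← e, z0, z, hu2, zero_smul, zero_smul, one_smul, zero_add, zero_add]
  · have hu1 : u1 = 1 := by linarith
    obtain ⟨m', hm', e⟩ := hmod (a + 1)
    refine ⟨m', hm', ?_⟩
    rw [← e, z0, z, hu1, zero_smul, zero_smul, one_smul, zero_add, add_zero]

/-- the line of an edge meets the polygon in the edge -/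
theorem edge_iff (h : Poly n ν v ℓ) (i : ℕ) (t : ℝ) :
    v i + t • rt (ν i) ∈ AREaux.PL ν v ↔ 0 ≤ t ∧ t ≤ ℓ i := by
  have hn : 0 < n := by have := h.n3; omega
  constructor
  · intro hξ
    constructor
    · -- previous constraint
      have h1 := hξ (i + n - 1)
      have hidx : i + n - 1 + 1 = i + n := by omega
      have e1 := AREaux.on_line h (i + n - 1)
      rw [hidx, h.pv i] at e1
      have ht := h.turn (i + n - 1)
      rw [hidx, h.pν i] at ht
      rw [dp_add_right, dp_smul_right, dp_rt, e1] at h1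
      by_contra hcon
      have hlt := not_le.1 hcon
      have := mul_pos_of_neg_of_neg hlt (neg_lt_zero.2 ht)
      linarith
    · have h1 := hξ (i + 1)
      have e1 := AREaux.dp_edge h (ν (i + 1)) i
      have ht := h.turn i
      have hs : cp (ν (i + 1)) (ν i) = -cp (ν i) (ν (i + 1)) := by unfold cp; ring
      rw [dp_add_right, dp_smul_right, dp_rt] at h1
      rw [hs] at h1 e1
      by_contra hcon
      have hlt := not_le.1 hcon
      have : 0 < (t - ℓ i) * cp (ν i) (ν (i + 1)) := mul_pos (by linarith) ht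
      linarith [this, h1, e1, sub_mul t (ℓ i) (cp (ν i) (ν (i + 1)))]
  · rintro ⟨h0, h1⟩ j
    have hL := h.pos i
    have e1 : v i + t • rt (ν i) = (1 - t / ℓ i) • v i + (t / ℓ i) • v (i + 1) := by
      have e2 := h.edge i
      rw [e2]
      apply Prod.ext
      · simp only [Prod.fst_add, Prod.smul_fst, smul_eq_mul]
        field_simp
        ring
      · simp only [Prod.snd_add, Prod.smul_snd, smul_eq_mul]
        field_simp
        ring
    rw [e1, dp_add_right, dp_smul_right, dp_smul_right]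
    have c1 := h.conv j i
    have c2 := h.conv j (i + 1)
    have t0 : 0 ≤ t / ℓ i := div_nonneg h0 hL.le
    have t1 : t / ℓ i ≤ 1 := (div_le_one hL).2 h1
    have m1 := mul_le_mul_of_nonneg_left c1 (sub_nonneg.2 t1)
    have m2 := mul_le_mul_of_nonneg_left c2 t0
    linarith

end

/-! ## charts -/

lemma cramer (a b d x : R3) (k : Fin 3) :
    de a b d * x k = de x b d * a k + de a x d * b k + de a b x * d k := by
  fin_cases k <;> simp [de, dt, cr] <;> ring

lemma dual_cramer (a b d x : R3) (k : Fin 3) :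
    de a b d * x k = dt x a * cr b d k + dt x b * cr d a k + dt x d * cr a b k := by
  fin_cases k <;> simp [de, dt, cr] <;> ring

section

variable {ι : Type} {y : ι → R3} {j : ι} {n0 p1 p2 : R3}

/-- coordinates of a point in the chart -/
noncomputable def cx (n0 p1 p2 x : R3) : R2 := (de n0 x p2 / de n0 p1 p2, de n0 p1 x / de n0 p1 p2)

lemma chart_pt (h : Chart y j n0 p1 p2) (x : R3) :
    x = chp n0 p1 p2 (dt (y j) x) (cx n0 p1 p2 x) := by
  have hD := h.hd
  have h1 : dt (y j) x * de n0 p1 p2 = de x p1 p2 := by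
    have e : ∀ k, de n0 p1 p2 * x k =
        de x p1 p2 * n0 k + de n0 x p2 * p1 k + de n0 p1 x * p2 k := fun k => cramer _ _ _ _ k
    have h0 := h.h0
    have h1 := h.h1
    have h2 := h.h2
    have e0 := e 0
    have e1 := e 1
    have e2 := e 2
    simp only [dt] at h0 h1 h2 ⊢
    linear_combination (y j 0) * e0 + (y j 1) * e1 + (y j 2) * e2 + de x p1 p2 * h0 +
      de n0 x p2 * h1 + de n0 p1 x * h2
  funext k
  have e := cramer n0 p1 p2 x k
  rw [← h1] at e
  simp only [chp, cx, Pi.add_apply, Pi.smul_apply, smul_eq_mul]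
  field_simp
  linarith

lemma mem_FP (ξ : R2) : ξ ∈ FP (FN y j p1 p2) (Fb y j n0) ↔
    ∀ m, m ≠ j → |dt (y m) (chp n0 p1 p2 1 ξ)| ≤ 1 := by
  constructor
  · intro h m hm
    have h1 := h (⟨m, hm⟩, true)
    have h2 := h (⟨m, hm⟩, false)
    simp only [FN, Fb, sg, if_true, Bool.false_eq_true, if_false, dp, Prod.smul_fst, Prod.smul_snd,
      smul_eq_mul] at h1 h2
    rw [fcq_dt, abs_le]
    constructor
    · linarith
    · linarith
  · rintro h ⟨⟨m, hm⟩, e⟩
    have h1 := abs_le.1 (h m hm)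
    rw [fcq_dt] at h1
    cases e
    · simp only [FN, Fb, sg, Bool.false_eq_true, if_false, dp, Prod.smul_fst, Prod.smul_snd,
        smul_eq_mul]
      linarith [h1.1]
    · simp only [FN, Fb, sg, if_true, dp, Prod.smul_fst, Prod.smul_snd, smul_eq_mul]
      linarith [h1.2]

/-- the edge direction in the chart -/
lemma T_chart (h : Chart y j n0 p1 p2) (l : ι) :
    cx n0 p1 p2 (cr (y j) (y l)) = (1 / de n0 p1 p2) • rt (dt (y l) p1, dt (y l) p2) := by
  have hD := h.hd
  have hy : ∀ k, de n0 p1 p2 * y j k = cr p1 p2 k := by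
    intro k
    have e := dual_cramer n0 p1 p2 (y j) k
    rw [h.h0, h.h1, h.h2] at e
    linarith
  have hT : ∀ k, de n0 p1 p2 * cr (y j) (y l) k =
      -(dt (y l) p2) * p1 k + dt (y l) p1 * p2 k := by
    have y0 := hy 0
    have y1 := hy 1
    have y2 := hy 2
    simp only [cr, Matrix.cons_val_zero, Matrix.cons_val_one, Matrix.cons_val] at y0 y1 y2
    intro k
    fin_cases k
    · simp only [cr, dt, Fin.zero_eta, Matrix.cons_val_zero]
      linear_combination (y l 2) * y1 - (y l 1) * y2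
    · simp only [cr, dt, Fin.mk_one, Matrix.cons_val_one, Matrix.cons_val_zero]
      linear_combination (y l 0) * y2 - (y l 2) * y0
    · simp only [cr, dt, Fin.reduceFinMk, Matrix.cons_val]
      linear_combination (y l 1) * y0 - (y l 0) * y1
  have t0 := hT 0
  have t1 := hT 1
  have t2 := hT 2
  set T := cr (y j) (y l) with hTdef
  have g1 : de n0 T p2 = -(dt (y l) p2) := by
    have : de n0 p1 p2 * de n0 T p2 = de n0 p1 p2 * (-(dt (y l) p2)) := by
      have e1 : de n0 p1 p2 * de n0 T p2 = (cr p2 n0 0) * (de n0 p1 p2 * T 0) +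
          (cr p2 n0 1) * (de n0 p1 p2 * T 1) + (cr p2 n0 2) * (de n0 p1 p2 * T 2) := by
        simp only [de, dt, cr]
        simp
        ring
      rw [e1, t0, t1, t2]
      simp only [de, dt, cr]
      simp
      ring
    exact mul_left_cancel₀ hD.ne' this
  have g2 : de n0 p1 T = dt (y l) p1 := by
    have : de n0 p1 p2 * de n0 p1 T = de n0 p1 p2 * dt (y l) p1 := by
      have e1 : de n0 p1 p2 * de n0 p1 T = (cr n0 p1 0) * (de n0 p1 p2 * T 0) +
          (cr n0 p1 1) * (de n0 p1 p2 * T 1) + (cr n0 p1 2) * (de n0 p1 p2 * T 2) := by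
        simp only [de, dt]
        ring
      rw [e1, t0, t1, t2]
      simp only [de, dt, cr]
      simp
      ring
    exact mul_left_cancel₀ hD.ne' this
  unfold cx
  rw [g1, g2]
  apply Prod.ext
  · simp only [rt, Prod.smul_fst, smul_eq_mul]
    ring
  · simp only [rt, Prod.smul_snd, smul_eq_mul]
    ring

lemma cx_add (x z : R3) (t : ℝ) : cx n0 p1 p2 (x + t • z) = cx n0 p1 p2 x + t • cx n0 p1 p2 z := by
  apply Prod.ext
  · simp only [cx, Prod.fst_add, Prod.smul_fst, smul_eq_mul, de, dt, cr, Pi.add_apply,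
      Pi.smul_apply]
    simp
    ring
  · simp only [cx, Prod.snd_add, Prod.smul_snd, smul_eq_mul, de, dt, cr, Pi.add_apply,
      Pi.smul_apply]
    ring

lemma rt_smul (a : R2) (t : ℝ) : rt (t • a) = t • rt a := by
  simp only [rt, Prod.smul_mk, Prod.smul_fst, Prod.smul_snd, smul_eq_mul]
  apply Prod.ext
  · simp
  · simp

lemma sg_sq (e : Bool) : sg e * sg e = 1 := by
  cases e <;> norm_num [sg]

lemma abs_sg (e : Bool) : |sg e| = 1 := by
  cases e <;> norm_num [sg]

/-- the points of the chord in the chart -/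
lemma chord (h : Chart y j n0 p1 p2) (hy : Npb y) (l : ι) (hl : l ≠ j) (e : Bool) (t : ℝ) :
    (∀ m, m ≠ j → m ≠ l →
      |dt (y m) (pt y j l 1 (sg e)) + t * de (y j) (y l) (y m)| ≤ (fun _ : ι => (1 : ℝ)) m) ↔
    cx n0 p1 p2 (pt y j l 1 (sg e)) + (t / de n0 p1 p2) • rt (dt (y l) p1, dt (y l) p2) ∈
      FP (FN y j p1 p2) (Fb y j n0) := by
  set q := pt y j l 1 (sg e) with hq
  have hnp := hy.np j l (Ne.symm hl)
  have hT0 := Pool.T3.COO_.dt_self_pos hnp
  have hq1 : dt (y j) q = 1 := by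
    rw [hq, Pool.T3.COO_.dt_pt, Pool.T3.COO_.id1, Pool.T3.COO_.id2]
    field_simp
    ring
  have hq2 : dt (y l) q = sg e := by
    rw [hq, Pool.T3.COO_.dt_pt, Pool.T3.COO_.id3, Pool.T3.COO_.id4]
    field_simp
    ring
  have hx1 : dt (y j) (q + t • cr (y j) (y l)) = 1 := by
    rw [Pool.T3.COO_.dt_add_smul, Pool.T3.COO_.id5, hq1]; ring
  have hx2 : dt (y l) (q + t • cr (y j) (y l)) = sg e := by
    rw [Pool.T3.COO_.dt_add_smul, Pool.T3.COO_.id6, hq2]; ring
  have hc : chp n0 p1 p2 1 (cx n0 p1 p2 q + (t / de n0 p1 p2) • rt (dt (y l) p1, dt (y l) p2)) =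
      q + t • cr (y j) (y l) := by
    have h1 := chart_pt h (q + t • cr (y j) (y l))
    rw [hx1, cx_add, T_chart h l, smul_smul] at h1
    rw [h1]
    congr 3
    ring
  rw [mem_FP, hc]
  have hm : ∀ m, dt (y m) (q + t • cr (y j) (y l)) = dt (y m) q + t * de (y j) (y l) (y m) := by
    intro m
    rw [Pool.T3.COO_.dt_add_smul]
    congr 2
    simp only [de, dt]
    ring
  constructor
  · intro hh m hmj
    by_cases hml : m = l
    · rw [hml, hx2, abs_sg]
    · rw [hm]
      exact hh m hmj hml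
  · intro hh m hmj _
    have := hh m hmj
    rw [hm] at this
    exact this

/-- the value of the constraint at the chord -/
lemma chord_val (h : Chart y j n0 p1 p2) (hy : Npb y) (l : ι) (hl : l ≠ j) (e : Bool) (t : ℝ) :
    dp (FN y j p1 p2 (⟨l, hl⟩, e))
      (cx n0 p1 p2 (pt y j l 1 (sg e)) + (t / de n0 p1 p2) • rt (dt (y l) p1, dt (y l) p2)) =
      Fb y j n0 (⟨l, hl⟩, e) := by
  set q := pt y j l 1 (sg e) with hq
  have hnp := hy.np j l (Ne.symm hl)
  have hT0 := Pool.T3.COO_.dt_self_pos hnp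
  have hq1 : dt (y j) q = 1 := by
    rw [hq, Pool.T3.COO_.dt_pt, Pool.T3.COO_.id1, Pool.T3.COO_.id2]
    field_simp
    ring
  have hq2 : dt (y l) q = sg e := by
    rw [hq, Pool.T3.COO_.dt_pt, Pool.T3.COO_.id3, Pool.T3.COO_.id4]
    field_simp
    ring
  have h1 := chart_pt h q
  have h2 := fcq_dt (y l) n0 p1 p2 (dt (y j) q) (cx n0 p1 p2 q)
  rw [← h1, hq1, hq2] at h2
  rw [dp_add_right, dp_smul_right, dp_rt]
  have h3 : cp (FN y j p1 p2 (⟨l, hl⟩, e)) (dt (y l) p1, dt (y l) p2) = 0 := by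
    simp only [FN, cp, Prod.smul_fst, Prod.smul_snd, smul_eq_mul]
    ring
  rw [h3]
  simp only [FN, Fb, dp, Prod.smul_fst, Prod.smul_snd, smul_eq_mul]
  linear_combination (sg_sq e) - (sg e) * h2

variable {n : ℕ} {ν v : ℕ → R2} {ℓ c : ℕ → ℝ} {kk : ℕ → {l : ι // l ≠ j} × Bool}

lemma vol_affine (g a L : ℝ) (hg : g ≠ 0) (hL : 0 ≤ L) :
    (volume {t : ℝ | 0 ≤ a + t * g ∧ a + t * g ≤ L}).toReal = L / |g| := by
  have e : {t : ℝ | 0 ≤ a + t * g ∧ a + t * g ≤ L} = (fun t => g * t) ⁻¹' (Icc (-a) (L - a)) := by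
    ext t
    simp only [mem_ofPred_eq, mem_preimage, mem_Icc]
    constructor
    · rintro ⟨h1, h2⟩
      exact ⟨by linarith, by linarith⟩
    · rintro ⟨h1, h2⟩
      exact ⟨by linarith, by linarith⟩
  rw [e, Real.volume_preimage_mul_left hg, Real.volume_Icc, ENNReal.toReal_mul,
    ENNReal.toReal_ofReal (abs_nonneg _), ENNReal.toReal_ofReal (by linarith), abs_inv]
  rw [div_eq_inv_mul]
  ring

/-- essential edges -/
theorem Lam_ess (h : Chart y j n0 p1 p2) (hy : Npb y)
    (hP : PD (FN y j p1 p2) (Fb y j n0) n ν v ℓ c kk) (i : ℕ) :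
    Lam y j (kk i).1 1 (sg (kk i).2) (fun _ => (1 : ℝ)) = de n0 p1 p2 * (ℓ i / c i) := by
  rcases hk : kk i with ⟨⟨l, hl⟩, e⟩
  have hD := h.hd
  have hc := hP.cpos i
  unfold Lam
  simp only
  have hset : {t : ℝ | ∀ m, m ≠ j → m ≠ l →
      |dt (y m) (pt y j l 1 (sg e)) + t * de (y j) (y l) (y m)| ≤ (fun _ : ι => (1 : ℝ)) m} =
      {t : ℝ | cx n0 p1 p2 (pt y j l 1 (sg e)) +
        (t / de n0 p1 p2) • rt (dt (y l) p1, dt (y l) p2) ∈ FP (FN y j p1 p2) (Fb y j n0)} := by
    ext t
    exact chord h hy l hl e t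
  rw [hset, FP_eq hP]
  have hN := hP.hN i
  rw [hk] at hN
  have hrt : rt (dt (y l) p1, dt (y l) p2) = (sg e * c i) • rt (ν i) := by
    have h1 : (dt (y l) p1, dt (y l) p2) = sg e • FN y j p1 p2 (⟨l, hl⟩, e) := by
      simp only [FN, smul_smul, sg_sq, one_smul]
    rw [h1, hN, smul_smul, rt_smul]
  have hb := hP.hb i
  rw [hk] at hb
  set q := cx n0 p1 p2 (pt y j l 1 (sg e)) with hqdef
  have hv := chord_val h hy l hl e 0
  rw [zero_div, zero_smul, add_zero, ← hqdef, hN, hb, dp_smul_left] at hv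
  have hv' : dp (ν i) q = dp (ν i) (v i) := mul_left_cancel₀ hc.ne' hv
  have hu := hP.poly.unit i
  have hq : q = v i + (dp (rt (ν i)) (q - v i)) • rt (ν i) := by
    unfold dp at hu hv'
    apply Prod.ext
    · simp only [dp, rt, Prod.fst_add, Prod.smul_fst, smul_eq_mul, Prod.fst_sub, Prod.snd_sub]
      linear_combination (ν i).1 * hv' - (q.1 - (v i).1) * hu
    · simp only [dp, rt, Prod.snd_add, Prod.smul_snd, smul_eq_mul, Prod.fst_sub, Prod.snd_sub]
      linear_combination (ν i).2 * hv' - (q.2 - (v i).2) * hu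
  set a := dp (rt (ν i)) (q - v i) with hadef
  have hg : sg e * c i / de n0 p1 p2 ≠ 0 := by
    have hs : sg e ≠ 0 := by
      intro h0
      have := sg_sq e
      rw [h0] at this
      norm_num at this
    exact div_ne_zero (mul_ne_zero hs hc.ne') hD.ne'
  have hset2 : {t : ℝ | q + (t / de n0 p1 p2) • rt (dt (y l) p1, dt (y l) p2) ∈
      AREaux.PL ν v} =
      {t : ℝ | 0 ≤ a + t * (sg e * c i / de n0 p1 p2) ∧
        a + t * (sg e * c i / de n0 p1 p2) ≤ ℓ i} := by
    ext t
    rw [mem_ofPred_eq, mem_ofPred_eq, hrt, ← edge_iff hP.poly i]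
    have : q + (t / de n0 p1 p2) • (sg e * c i) • rt (ν i) =
        v i + (a + t * (sg e * c i / de n0 p1 p2)) • rt (ν i) := by
      nth_rewrite 1 [hq]
      rw [add_assoc, smul_smul, ← add_smul]
      congr 2
      ring
    rw [this]
  rw [hset2, vol_affine _ _ _ hg (hP.poly.pos i).le, abs_div, abs_mul, abs_sg, one_mul,
    abs_of_pos hc, abs_of_pos hD]
  field_simp

/-- nonessential edges -/
theorem Lam_noness (h : Chart y j n0 p1 p2) (hy : Npb y)
    (hP : PD (FN y j p1 p2) (Fb y j n0) n ν v ℓ c kk) (k : {l : ι // l ≠ j} × Bool)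
    (hk : ∀ i, kk i ≠ k) : Lam y j k.1 1 (sg k.2) (fun _ => (1 : ℝ)) = 0 := by
  obtain ⟨⟨l, hl⟩, e⟩ := k
  have hD := h.hd
  unfold Lam
  simp only
  set q := cx n0 p1 p2 (pt y j l 1 (sg e)) with hqdef
  have hrt0 : rt (dt (y l) p1, dt (y l) p2) ≠ 0 := by
    intro h0
    have h1 := T_chart h l
    rw [h0, smul_zero] at h1
    have h2 := chart_pt h (cr (y j) (y l))
    rw [h1, Pool.T3.COO_.id5] at h2
    apply hy.np j l (Ne.symm hl)
    rw [h2]
    simp [chp]
  have hsub : {t : ℝ | ∀ m, m ≠ j → m ≠ l →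
      |dt (y m) (pt y j l 1 (sg e)) + t * de (y j) (y l) (y m)| ≤ (fun _ : ι => (1 : ℝ)) m} ⊆
      ⋃ m ∈ Finset.range n, {t : ℝ | q + (t / de n0 p1 p2) •
        rt (dt (y l) p1, dt (y l) p2) = v m} := by
    intro t ht
    have h1 := (chord h hy l hl e t).1 ht
    have h2 := chord_val h hy l hl e t
    obtain ⟨m, hm, h3⟩ := noness hP hk h1 h2
    rw [mem_iUnion₂]
    exact ⟨m, Finset.mem_range.2 hm, h3⟩
  have hnull : volume (⋃ m ∈ Finset.range n, {t : ℝ | q + (t / de n0 p1 p2) •
        rt (dt (y l) p1, dt (y l) p2) = v m}) = 0 := by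
    refine le_antisymm ((measure_biUnion_finset_le _ _).trans
      (le_of_eq (Finset.sum_eq_zero ?_))) bot_le
    intro m _
    apply Set.Subsingleton.measure_zero
    intro t ht t' ht'
    have h1 : (t / de n0 p1 p2) • rt (dt (y l) p1, dt (y l) p2) =
        (t' / de n0 p1 p2) • rt (dt (y l) p1, dt (y l) p2) := by
      have e1 : q + (t / de n0 p1 p2) • rt (dt (y l) p1, dt (y l) p2) = v m := ht
      have e2 : q + (t' / de n0 p1 p2) • rt (dt (y l) p1, dt (y l) p2) = v m := ht'
      rw [← e2] at e1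
      exact add_left_cancel e1
    have h2 : ((t - t') / de n0 p1 p2) • rt (dt (y l) p1, dt (y l) p2) = 0 := by
      rw [sub_div, sub_smul, h1, sub_self]
    rcases smul_eq_zero.1 h2 with h3 | h3
    · rcases div_eq_zero_iff.1 h3 with h4 | h4
      · linarith
      · exact absurd h4 hD.ne'
    · exact absurd h3 hrt0
  rw [measure_mono_null hsub hnull, ENNReal.toReal_zero]

/-! ## the cone -/

theorem vol_cone (h : Chart y j n0 p1 p2) :
    (volume (co y j)).toReal =
      de n0 p1 p2 * (2 / 3 * (volume (FP (FN y j p1 p2) (Fb y j n0))).toReal) := by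
  have hD := h.hd
  set M := Pool.T3.COO_.mat n0 p1 p2 with hM
  have hdet : M.det = de n0 p1 p2 := by
    rw [hM, Pool.T3.COO_.det_mat]; simp only [de, dt]; ring
  set F := FP (FN y j p1 p2) (Fb y j n0) with hF
  have hmap : ∀ p : ℝ × ℝ × ℝ, Matrix.toLin' M (Pool.T3.COO_.eq3 p) = chp n0 p1 p2 p.1 p.2 := by
    intro p
    funext k
    simp only [Matrix.toLin'_apply, Matrix.mulVec, dotProduct,
      Fin.sum_univ_three, hM, Pool.T3.COO_.mat, Matrix.of_apply, Pool.T3.COO_.eq3, chp, Pi.add_apply,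
      Pi.smul_apply, smul_eq_mul, Matrix.cons_val_zero, Matrix.cons_val_one, Matrix.cons_val]
    ring
  have hdc : ∀ a : R3, Continuous (fun x : R3 => dt a x) := by
    intro a
    unfold dt
    fun_prop
  have hclosed : IsClosed (co y j) := by
    have e : co y j = (⋂ l, {x : R3 | |dt (y l) x| ≤ 1}) ∩
        ⋂ l, {x : R3 | |dt (y l) x| ≤ |dt (y j) x|} := by
      ext x
      simp only [co, KK, K, mem_ofPred_eq, mem_inter_iff, mem_iInter]
    rw [e]
    refine IsClosed.inter (isClosed_iInter fun l => ?_) (isClosed_iInter fun l => ?_)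
    · exact isClosed_le (hdc _).abs continuous_const
    · exact isClosed_le (hdc _).abs (hdc _).abs
  have hdl : LinearMap.det (Matrix.toLin' M) = de n0 p1 p2 := by
    rw [LinearMap.det_toLin', hdet]
  have e1 : volume ((Matrix.toLin' M) ⁻¹' co y j) =
      ENNReal.ofReal |(de n0 p1 p2)⁻¹| * volume (co y j) := by
    rw [← hdl]
    exact Measure.addHaar_preimage_linearMap volume (by rw [hdl]; exact hD.ne') _
  have hcl2 : IsClosed ((Matrix.toLin' M) ⁻¹' co y j) :=
    hclosed.preimage (Matrix.toLin' M).continuous_of_finiteDimensional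
  have e2 : volume (Pool.T3.COO_.eq3 ⁻¹' ((Matrix.toLin' M) ⁻¹' co y j)) =
      volume ((Matrix.toLin' M) ⁻¹' co y j) :=
    Pool.T3.COO_.mp_eq3.measure_preimage hcl2.measurableSet.nullMeasurableSet
  set A : Set (ℝ × ℝ × ℝ) := Pool.T3.COO_.eq3 ⁻¹' ((Matrix.toLin' M) ⁻¹' co y j) with hA
  have hAm : MeasurableSet A := Pool.T3.COO_.mp_eq3.measurable hcl2.measurableSet
  have hmem : ∀ (α : ℝ) (ξ : ℝ × ℝ), (α, ξ) ∈ A ↔
      |α| ≤ 1 ∧ ∀ l, l ≠ j → |dt (y l) (chp n0 p1 p2 α ξ)| ≤ |α| := by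
    intro α ξ
    have h0 : (α, ξ) ∈ A ↔ chp n0 p1 p2 α ξ ∈ co y j := by
      rw [hA, mem_preimage, mem_preimage, hmap]
    have hj : dt (y j) (chp n0 p1 p2 α ξ) = α := by
      rw [fcq_dt, h.h0, h.h1, h.h2]; ring
    rw [h0]
    constructor
    · rintro ⟨h1, h2⟩
      have h3 : |dt (y j) (chp n0 p1 p2 α ξ)| ≤ 1 := h1 j
      rw [hj] at h3
      refine ⟨h3, fun l _ => ?_⟩
      have h4 := h2 l
      rwa [hj] at h4
    · rintro ⟨h1, h2⟩
      have h3 : ∀ l, |dt (y l) (chp n0 p1 p2 α ξ)| ≤ |α| := by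
        intro l
        by_cases hl : l = j
        · rw [hl, hj]
        · exact h2 l hl
      exact ⟨fun l => (h3 l).trans h1, fun l => by rw [hj]; exact h3 l⟩
  have h0 : ∀ᵐ α : ℝ, volume (Prod.mk α ⁻¹' A) =
      (Icc (-1 : ℝ) 1).indicator (fun α => ENNReal.ofReal (α ^ 2) * volume F) α := by
    have : ∀ᵐ α : ℝ, α ≠ 0 := by
      have : ({0}ᶜ : Set ℝ) ∈ ae (volume : Measure ℝ) := by
        rw [compl_mem_ae_iff]; exact measure_singleton 0
      filter_upwards [this] with x hx
      simpa using hx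
    filter_upwards [this] with α hα
    by_cases h1 : α ∈ Icc (-1 : ℝ) 1
    · rw [indicator_of_mem h1]
      have e : Prod.mk α ⁻¹' A = (fun ξ : ℝ × ℝ => α⁻¹ • ξ) ⁻¹' F := by
        ext ξ
        rw [mem_preimage, hmem, mem_preimage, hF, mem_FP]
        have hsc : ∀ l, |dt (y l) (chp n0 p1 p2 α ξ)| =
            |α| * |dt (y l) (chp n0 p1 p2 1 (α⁻¹ • ξ))| := by
          intro l
          rw [← abs_mul]
          congr 1
          rw [fcq_dt, fcq_dt, Prod.smul_fst, Prod.smul_snd, smul_eq_mul, smul_eq_mul]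
          field_simp
        have hα' : 0 < |α| := abs_pos.2 hα
        constructor
        · rintro ⟨_, h2⟩ l hl
          have h3 := h2 l hl
          rw [hsc] at h3
          by_contra hcon
          have := mul_lt_mul_of_pos_left (not_le.1 hcon) hα'
          linarith
        · intro h2
          refine ⟨abs_le.2 h1, fun l hl => ?_⟩
          rw [hsc]
          have := mul_le_mul_of_nonneg_left (h2 l hl) hα'.le
          linarith
      rw [e, Measure.addHaar_preimage_smul volume (inv_ne_zero hα)]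
      congr 2
      rw [Module.finrank_prod, Module.finrank_self]
      norm_num
    · rw [indicator_of_notMem h1]
      have e : Prod.mk α ⁻¹' A = ∅ := by
        ext ξ
        rw [mem_preimage, hmem]
        simp only [mem_empty_iff_false, iff_false, not_and]
        intro h2
        exact absurd (abs_le.1 h2) (fun h3 => h1 ⟨h3.1, h3.2⟩)
      rw [e, measure_empty]
  have hvol : volume A = ENNReal.ofReal (2 / 3) * volume F := by
    rw [Measure.volume_eq_prod, Measure.prod_apply hAm]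
    rw [lintegral_congr_ae h0, lintegral_indicator measurableSet_Icc,
      lintegral_mul_const _ (by fun_prop)]
    congr 1
    rw [← ofReal_integral_eq_lintegral_ofReal]
    · congr 1
      rw [integral_Icc_eq_integral_Ioc, ← intervalIntegral.integral_of_le (by norm_num),
        integral_pow]
      norm_num
    · exact (continuous_pow 2).integrableOn_Icc
    · filter_upwards with x
      positivity
  rw [hvol, e1] at e2
  have e3 := congrArg ENNReal.toReal e2
  rw [ENNReal.toReal_mul, ENNReal.toReal_mul, ENNReal.toReal_ofReal (by norm_num),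
    ENNReal.toReal_ofReal (abs_nonneg _), abs_of_pos (inv_pos.2 hD)] at e3
  rw [e3]
  field_simp

end

end FMUaux

/-- block `FMU` -/
theorem blk_FMU (hARE : Stmt_ARE) (_hFCQ : Stmt_FCQ) : Stmt_FMU := by
  intro ι _ _ y hy j n0 p1 p2 h n ν v ℓ c kk hP
  constructor
  · have h1 := FMUaux.vol_cone h
    rw [FMUaux.FP_eq hP] at h1
    have h2 := (hARE n ν v ℓ hP.poly).2.1
    unfold AREaux.PL at h1
    rw [h2] at h1
    unfold mu
    rw [h1]
    ring
  · intro t ht
    have hn : 0 < n := by have := hP.poly.n3; omega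
    set G : {l : ι // l ≠ j} × Bool → ℝ := fun k =>
      Lam y j k.1 1 (sg k.2) (fun _ => (1 : ℝ)) * t k.1 with hG
    have h1 : ∑ l, cc y j l * t l = 2 * ∑ k, G k := by
      rw [Fintype.sum_eq_add_sum_subtype_ne _ j, ht, mul_zero, zero_add, Fintype.sum_prod_type,
        Finset.mul_sum]
      refine Finset.sum_congr rfl fun l _ => ?_
      rw [Fintype.sum_bool]
      simp only [hG, cc, sg, if_true, Bool.false_eq_true, if_false]
      ring
    have h2 : ∑ k, G k = ∑ i ∈ Finset.range n, G (kk i) := by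
      have hinj : ∀ i ∈ Finset.range n, ∀ i' ∈ Finset.range n, kk i = kk i' → i = i' := by
        intro i hi i' hi' he
        exact hP.inj i i' (Finset.mem_range.1 hi) (Finset.mem_range.1 hi') he
      rw [← Finset.sum_image (g := kk) (f := G) (by
        intro i hi i' hi' he
        exact hinj i hi i' hi' he)]
      symm
      refine Finset.sum_subset (Finset.subset_univ _) ?_
      intro k _ hk
      have hk' : ∀ i, kk i ≠ k := by
        intro i hi
        apply hk
        rw [Finset.mem_image]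
        refine ⟨i % n, Finset.mem_range.2 (Nat.mod_lt _ hn), ?_⟩
        rw [AREaux.mod_eq (f := kk) hP.pk, hi]
      simp only [hG]
      rw [FMUaux.Lam_noness h hy.toNpb hP k hk', zero_mul]
    rw [h1, h2, Finset.mul_sum, Finset.mul_sum]
    refine Finset.sum_congr rfl fun i _ => ?_
    simp only [hG]
    rw [FMUaux.Lam_ess h hy.toNpb hP i]
    ring

end Pool.G1
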