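import Pool.Agent.Work.MP_b5407d_g1.Interface

/-!
# G1, block GLN: linear normalisation of a family of vectors
-/

set_option autoImplicit false

open MeasureTheory Set Filter Topology

namespace Pool.G1

open Pool.T3 (R3 dt cr de K V S H Fam Pos pt Lam Q J lin)

namespace GLNaux

/-- the linear map with `a ↦ e1`, `b ↦ e2`, `c ↦ e3` -/
noncomputable def Am (a b c v : R3) : R3 :=
  ![dt (cr b c) v / de a b c, dt (cr c a) v / de a b c, dt (cr a b) v / de a b c]

/-- the matrix of the transposed map -/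
noncomputable def Mm (a b c : R3) : Matrix (Fin 3) (Fin 3) ℝ :=
  !![cr b c 0 / de a b c, cr c a 0 / de a b c, cr a b 0 / de a b c;
     cr b c 1 / de a b c, cr c a 1 / de a b c, cr a b 1 / de a b c;
     cr b c 2 / de a b c, cr c a 2 / de a b c, cr a b 2 / de a b c]

/-- the transposed map -/
noncomputable def Bm (a b c : R3) : R3 →ₗ[ℝ] R3 := Matrix.toLin' (Mm a b c)

lemma Bm_apply (a b c x : R3) (k : Fin 3) :
    Bm a b c x k = (x 0 * cr b c k + x 1 * cr c a k + x 2 * cr a b k) / de a b c := by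
  unfold Bm Mm
  rw [Matrix.toLin'_apply, Matrix.mulVec, dotProduct, Fin.sum_univ_three]
  fin_cases k <;> simp <;> ring

lemma dt_Am (a b c v x : R3) : dt (Am a b c v) x = dt v (Bm a b c x) := by
  unfold dt
  rw [Bm_apply, Bm_apply, Bm_apply]
  unfold Am dt
  simp only [Matrix.cons_val_zero, Matrix.cons_val_one, Matrix.cons_val]
  ring

lemma de_cr (a b c : R3) : de (cr b c) (cr c a) (cr a b) = de a b c ^ 2 := by
  unfold de dt cr
  simp only [Matrix.cons_val_zero, Matrix.cons_val_one, Matrix.cons_val]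
  ring

lemma de_mat (r0 r1 r2 u v w : R3) :
    de ![dt r0 u, dt r1 u, dt r2 u] ![dt r0 v, dt r1 v, dt r2 v] ![dt r0 w, dt r1 w, dt r2 w]
      = de r0 r1 r2 * de u v w := by
  unfold de dt cr
  simp only [Matrix.cons_val_zero, Matrix.cons_val_one, Matrix.cons_val]
  ring

lemma de_smul (s : ℝ) (u v w : R3) : de (s • u) (s • v) (s • w) = s ^ 3 * de u v w := by
  unfold de dt cr
  simp only [Matrix.cons_val_zero, Matrix.cons_val_one, Matrix.cons_val, Pi.smul_apply, smul_eq_mul]
  ring

lemma Am_eq (a b c v : R3) :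
    Am a b c v = (1 / de a b c) • ![dt (cr b c) v, dt (cr c a) v, dt (cr a b) v] := by
  unfold Am
  ext k
  fin_cases k <;> simp <;> ring

lemma de_Am (a b c : R3) (h : de a b c ≠ 0) (u v w : R3) :
    de (Am a b c u) (Am a b c v) (Am a b c w) = de u v w / de a b c := by
  rw [Am_eq, Am_eq, Am_eq, de_smul, de_mat, de_cr]
  field_simp

lemma det_Bm (a b c : R3) (h : de a b c ≠ 0) : LinearMap.det (Bm a b c) = (de a b c)⁻¹ := by
  unfold Bm
  rw [LinearMap.det_toLin', Matrix.det_fin_three]
  have h1 := de_cr a b c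
  have h2 : de (cr b c) (cr c a) (cr a b) =
      cr b c 0 * cr c a 1 * cr a b 2 - cr b c 0 * cr a b 1 * cr c a 2
        - cr c a 0 * cr b c 1 * cr a b 2 + cr c a 0 * cr a b 1 * cr b c 2
        + cr a b 0 * cr b c 1 * cr c a 2 - cr a b 0 * cr c a 1 * cr b c 2 := by
    generalize cr b c = p
    generalize cr c a = q
    generalize cr a b = r
    unfold de dt cr
    simp only [Matrix.cons_val_zero, Matrix.cons_val_one, Matrix.cons_val]
    ring
  rw [h1] at h2
  unfold Mm
  simp only [Matrix.of_apply, Matrix.cons_val_zero, Matrix.cons_val_one, Matrix.cons_val]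
  field_simp
  linarith

lemma vol_pre (a b c : R3) (h : de a b c ≠ 0) (s : Set R3) :
    (volume (Bm a b c ⁻¹' s)).toReal = |de a b c| * (volume s).toReal := by
  have hd : LinearMap.det (Bm a b c) ≠ 0 := by
    rw [det_Bm a b c h]
    exact inv_ne_zero h
  rw [Measure.addHaar_preimage_linearMap volume hd, det_Bm a b c h, inv_inv, ENNReal.toReal_mul,
    ENNReal.toReal_ofReal (abs_nonneg _)]

lemma decomp (u v w : R3) :
    dt (cr u v) (cr u v) • w = dt w (cr u v) • cr u v
      + (dt u w • cr v (cr u v) + dt v w • cr (cr u v) u) := by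
  ext k
  fin_cases k
  · simp only [dt, cr, Matrix.cons_val_zero, Matrix.cons_val_one, Matrix.cons_val, Pi.smul_apply,
      Pi.add_apply, smul_eq_mul, Fin.zero_eta, Fin.mk_one, Fin.reduceFinMk]
    ring
  · simp only [dt, cr, Matrix.cons_val_zero, Matrix.cons_val_one, Matrix.cons_val, Pi.smul_apply,
      Pi.add_apply, smul_eq_mul, Fin.zero_eta, Fin.mk_one, Fin.reduceFinMk]
    ring
  · simp only [dt, cr, Matrix.cons_val_zero, Matrix.cons_val_one, Matrix.cons_val, Pi.smul_apply,
      Pi.add_apply, smul_eq_mul, Fin.zero_eta, Fin.mk_one, Fin.reduceFinMk]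
    ring

lemma dt_cr_self (u v : R3) (h : ∃ w, de u v w ≠ 0) : dt (cr u v) (cr u v) ≠ 0 := by
  intro h0
  obtain ⟨w, hw⟩ := h
  have h1 : cr u v 0 = 0 ∧ cr u v 1 = 0 ∧ cr u v 2 = 0 := by
    unfold dt at h0
    refine ⟨?_, ?_, ?_⟩ <;>
      nlinarith [mul_self_nonneg (cr u v 0), mul_self_nonneg (cr u v 1), mul_self_nonneg (cr u v 2)]
  apply hw
  unfold de dt
  rw [h1.1, h1.2.1, h1.2.2]
  ring

lemma dt_pt_left {ι : Type} (y : ι → R3) (i k : ι) (α β : ℝ)
    (h : dt (cr (y i) (y k)) (cr (y i) (y k)) ≠ 0) : dt (y i) (pt y i k α β) = α := by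
  unfold pt
  generalize hu : y i = u at *
  generalize hv : y k = v at *
  have h1 : dt u ((1 / dt (cr u v) (cr u v)) • (α • cr v (cr u v) + β • cr (cr u v) u))
      = (1 / dt (cr u v) (cr u v)) * (α * dt (cr u v) (cr u v)) := by
    generalize 1 / dt (cr u v) (cr u v) = s
    simp only [dt, cr, Matrix.cons_val_zero, Matrix.cons_val_one, Matrix.cons_val, Pi.smul_apply,
      Pi.add_apply, smul_eq_mul]
    ring
  rw [h1]
  field_simp

lemma dt_pt_right {ι : Type} (y : ι → R3) (i k : ι) (α β : ℝ)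
    (h : dt (cr (y i) (y k)) (cr (y i) (y k)) ≠ 0) : dt (y k) (pt y i k α β) = β := by
  unfold pt
  generalize hu : y i = u at *
  generalize hv : y k = v at *
  have h1 : dt v ((1 / dt (cr u v) (cr u v)) • (α • cr v (cr u v) + β • cr (cr u v) u))
      = (1 / dt (cr u v) (cr u v)) * (β * dt (cr u v) (cr u v)) := by
    generalize 1 / dt (cr u v) (cr u v) = s
    simp only [dt, cr, Matrix.cons_val_zero, Matrix.cons_val_one, Matrix.cons_val, Pi.smul_apply,
      Pi.add_apply, smul_eq_mul]
    ring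
  rw [h1]
  field_simp

lemma dt_add_smul (u v w : R3) (s : ℝ) : dt u (v + s • w) = dt u v + s * dt u w := by
  simp only [dt, Pi.smul_apply, Pi.add_apply, smul_eq_mul]
  ring

lemma dt_comm (u v : R3) : dt u v = dt v u := by
  unfold dt
  ring

/-- the chord of the transformed family -/
lemma chord {ι : Type} (y : ι → R3) (a b c : R3) (h : de a b c ≠ 0) (i k : ι) (α β : ℝ)
    (h1 : dt (cr (y i) (y k)) (cr (y i) (y k)) ≠ 0)
    (h2 : dt (cr (Am a b c (y i)) (Am a b c (y k))) (cr (Am a b c (y i)) (Am a b c (y k))) ≠ 0) :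
    Lam (fun i => Am a b c (y i)) i k α β (fun _ => (1 : ℝ))
      = |de a b c| * Lam y i k α β (fun _ => (1 : ℝ)) := by
  set y' : ι → R3 := fun i => Am a b c (y i) with hy'
  set p' := pt y' i k α β with hp'
  set n := cr (y i) (y k) with hn
  set c0 := dt (Bm a b c p') n / dt n n with hc0
  have hi : dt (y i) (Bm a b c p') = α := by
    rw [← dt_Am]
    exact dt_pt_left y' i k α β h2
  have hk : dt (y k) (Bm a b c p') = β := by
    rw [← dt_Am]
    exact dt_pt_right y' i k α β h2
  have hB : Bm a b c p' = pt y i k α β + c0 • n := by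
    have hd := decomp (y i) (y k) (Bm a b c p')
    rw [hi, hk, ← hn] at hd
    have h3 : Bm a b c p' = (1 / dt n n) • (dt n n • Bm a b c p') := by
      rw [smul_smul, one_div, inv_mul_cancel₀ h1, one_smul]
    rw [h3, hd, smul_add, smul_smul, add_comm]
    unfold pt
    rw [← hn, hc0]
    congr 2
    ring
  have hset : {x : ℝ | ∀ m, m ≠ i → m ≠ k →
      |dt (y' m) p' + x * de (y' i) (y' k) (y' m)| ≤ 1}
      = (fun x : ℝ => (de a b c)⁻¹ * x) ⁻¹' ((fun z : ℝ => c0 + z) ⁻¹' {x : ℝ | ∀ m, m ≠ i → m ≠ k →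
        |dt (y m) (pt y i k α β) + x * de (y i) (y k) (y m)| ≤ 1}) := by
    ext x
    simp only [mem_setOf_eq, mem_preimage]
    refine forall_congr' fun m => forall_congr' fun _ => forall_congr' fun _ => ?_
    have e1 : dt (y' m) p' = dt (y m) (pt y i k α β) + c0 * de (y i) (y k) (y m) := by
      rw [hy']
      change dt (Am a b c (y m)) p' = _
      rw [dt_Am, hB, dt_add_smul]
      congr 2
      rw [dt_comm]
      rfl
    have e2 : de (y' i) (y' k) (y' m) = de (y i) (y k) (y m) / de a b c := de_Am a b c h _ _ _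
    rw [e1, e2]
    have e3 : dt (y m) (pt y i k α β) + c0 * de (y i) (y k) (y m)
        + x * (de (y i) (y k) (y m) / de a b c)
        = dt (y m) (pt y i k α β) + (c0 + (de a b c)⁻¹ * x) * de (y i) (y k) (y m) := by
      field_simp
      ring
    rw [e3]
  have hv : (volume {x : ℝ | ∀ m, m ≠ i → m ≠ k →
      |dt (y' m) p' + x * de (y' i) (y' k) (y' m)| ≤ 1}).toReal
      = |de a b c| * (volume {x : ℝ | ∀ m, m ≠ i → m ≠ k →
        |dt (y m) (pt y i k α β) + x * de (y i) (y k) (y m)| ≤ 1}).toReal := by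
    rw [hset, Real.volume_preimage_mul_left (inv_ne_zero h), measure_preimage_add, inv_inv,
      ENNReal.toReal_mul, ENNReal.toReal_ofReal (abs_nonneg _)]
  exact hv

end GLNaux

open GLNaux in
theorem blk_GLN : Stmt_GLN := by
  intro ι _ y hy
  obtain ⟨j1, j2, j3, h12, h13, h23⟩ := hy.three
  have hne : Nonempty (ι × ι × ι) := ⟨(j1, j2, j3)⟩
  obtain ⟨⟨i1, i2, i3⟩, hmax⟩ := Finite.exists_max
    (fun p : ι × ι × ι => |de (y p.1) (y p.2.1) (y p.2.2)|)
  have hmax' : ∀ i j k, |de (y i) (y j) (y k)| ≤ |de (y i1) (y i2) (y i3)| :=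
    fun i j k => hmax (i, j, k)
  set a := y i1 with ha
  set b := y i2 with hb
  set c := y i3 with hc
  have hD : de a b c ≠ 0 := by
    have h1 := hmax' j1 j2 j3
    have h2 : 0 < |de (y j1) (y j2) (y j3)| := abs_pos.mpr (hy.ind j1 j2 j3 h12 h13 h23)
    exact abs_pos.mp (lt_of_lt_of_le h2 h1)
  have hDp : 0 < |de a b c| := abs_pos.mpr hD
  set y' : ι → R3 := fun i => Am a b c (y i) with hy'
  have hFG : FamG y' := by
    refine ⟨fun i j k hij hik hjk => ?_, hy.three⟩
    have e : de (y' i) (y' j) (y' k) = de (y i) (y j) (y k) / de a b c := de_Am a b c hD _ _ _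
    rw [e]
    exact div_ne_zero (hy.ind i j k hij hik hjk) hD
  have hthird : ∀ i k : ι, i ≠ k → ∃ m, m ≠ i ∧ m ≠ k := by
    intro i k _
    by_contra hcon
    push Not at hcon
    have g : ∀ m, m = i ∨ m = k := fun m => by
      by_cases hm : m = i
      · exact Or.inl hm
      · exact Or.inr (hcon m hm)
    rcases g j1 with r1 | r1 <;> rcases g j2 with r2 | r2 <;> rcases g j3 with r3 | r3
    · exact h12 (r1.trans r2.symm)
    · exact h12 (r1.trans r2.symm)
    · exact h13 (r1.trans r3.symm)
    · exact h23 (r2.trans r3.symm)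
    · exact h23 (r2.trans r3.symm)
    · exact h13 (r1.trans r3.symm)
    · exact h12 (r1.trans r2.symm)
    · exact h12 (r1.trans r2.symm)
  have hnn : ∀ (z : ι → R3), FamG z → ∀ i k, i ≠ k →
      dt (cr (z i) (z k)) (cr (z i) (z k)) ≠ 0 := by
    intro z hz i k hik
    obtain ⟨m, hm1, hm2⟩ := hthird i k hik
    exact dt_cr_self _ _ ⟨z m, hz.ind i k m hik (Ne.symm hm1) (Ne.symm hm2)⟩
  have hKK : KK y' = Bm a b c ⁻¹' KK y := by
    ext x
    change (∀ i, |dt (y' i) x| ≤ 1) ↔ ∀ i, |dt (y i) (Bm a b c x)| ≤ 1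
    refine forall_congr' fun i => ?_
    rw [hy']
    change |dt (Am a b c (y i)) x| ≤ 1 ↔ _
    rw [dt_Am]
  have hco : ∀ i, co y' i = Bm a b c ⁻¹' co y i := by
    intro i
    ext x
    have e : ∀ l, dt (y' l) x = dt (y l) (Bm a b c x) := fun l => dt_Am a b c (y l) x
    have hm : x ∈ KK y' ↔ Bm a b c x ∈ KK y := by rw [hKK]; rfl
    change (x ∈ KK y' ∧ ∀ l, |dt (y' l) x| ≤ |dt (y' i) x|) ↔
      (Bm a b c x ∈ KK y ∧ ∀ l, |dt (y l) (Bm a b c x)| ≤ |dt (y i) (Bm a b c x)|)
    rw [hm]
    simp only [e]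
  refine ⟨y', |de a b c|, hDp, hFG, ⟨?_, ?_⟩, ?_, ?_, ?_⟩
  · intro i k
    have q0 : de b c (y i) = dt (cr b c) (y i) := rfl
    have hb0 : ∀ t : ℝ, |t| ≤ |de a b c| → |t / de a b c| ≤ 1 := by
      intro t ht
      rw [abs_div, div_le_one hDp]
      exact ht
    have g0 : |dt (cr b c) (y i)| ≤ |de a b c| := hmax' i2 i3 i
    have g1 : |dt (cr c a) (y i)| ≤ |de a b c| := hmax' i3 i1 i
    have g2 : |dt (cr a b) (y i)| ≤ |de a b c| := hmax' i1 i2 i
    rw [hy']
    change |Am a b c (y i) k| ≤ 1
    unfold Am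
    fin_cases k
    · exact hb0 _ g0
    · exact hb0 _ g1
    · exact hb0 _ g2
  · intro x hx k
    have hx' : ∀ i, |dt (y' i) x| ≤ 1 := hx
    have e0 : dt (y' i1) x = x 0 := by
      rw [hy']
      change dt (Am a b c a) x = x 0
      have f0 : dt (cr b c) a = de a b c := by
        unfold de dt cr
        simp only [Matrix.cons_val_zero, Matrix.cons_val_one, Matrix.cons_val]
        ring
      have f1 : dt (cr c a) a = 0 := by
        unfold dt cr
        simp only [Matrix.cons_val_zero, Matrix.cons_val_one, Matrix.cons_val]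
        ring
      have f2 : dt (cr a b) a = 0 := by
        unfold dt cr
        simp only [Matrix.cons_val_zero, Matrix.cons_val_one, Matrix.cons_val]
        ring
      unfold Am
      rw [f0, f1, f2, div_self hD, zero_div]
      unfold dt
      simp
    have e1 : dt (y' i2) x = x 1 := by
      rw [hy']
      change dt (Am a b c b) x = x 1
      have f0 : dt (cr b c) b = 0 := by
        unfold dt cr
        simp only [Matrix.cons_val_zero, Matrix.cons_val_one, Matrix.cons_val]
        ring
      have f1 : dt (cr c a) b = de a b c := by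
        unfold de dt cr
        simp only [Matrix.cons_val_zero, Matrix.cons_val_one, Matrix.cons_val]
        ring
      have f2 : dt (cr a b) b = 0 := by
        unfold dt cr
        simp only [Matrix.cons_val_zero, Matrix.cons_val_one, Matrix.cons_val]
        ring
      unfold Am
      rw [f0, f1, f2, div_self hD, zero_div]
      unfold dt
      simp
    have e2 : dt (y' i3) x = x 2 := by
      rw [hy']
      change dt (Am a b c c) x = x 2
      have f0 : dt (cr b c) c = 0 := by
        unfold dt cr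
        simp only [Matrix.cons_val_zero, Matrix.cons_val_one, Matrix.cons_val]
        ring
      have f1 : dt (cr c a) c = 0 := by
        unfold dt cr
        simp only [Matrix.cons_val_zero, Matrix.cons_val_one, Matrix.cons_val]
        ring
      have f2 : dt (cr a b) c = de a b c := rfl
      unfold Am
      rw [f0, f1, f2, div_self hD, zero_div]
      unfold dt
      simp
    fin_cases k
    · have := hx' i1
      rw [e0] at this
      exact this
    · have := hx' i2
      rw [e1] at this
      exact this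
    · have := hx' i3
      rw [e2] at this
      exact this
  · unfold vo
    rw [hKK, vol_pre a b c hD]
  · intro i
    unfold mu
    rw [hco, vol_pre a b c hD]
  · intro i k hik
    have h1 := hnn y hy i k hik
    have h2 := hnn y' hFG i k hik
    unfold cc
    have c1 := chord y a b c hD i k 1 1 h1 h2
    have c2 := chord y a b c hD i k 1 (-1) h1 h2
    rw [hy', c1, c2]
    ring

end Pool.G1
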