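import Pool.Agent.Work.MP_b5407d_g1.Interface

/-!
# G1, block `GOP` (helper6): good families form an open set
-/

set_option autoImplicit false

open MeasureTheory Set Filter Topology

namespace Pool.G1

open Pool.T3 (R3 dt cr de)

/-- block `GOP` -/
theorem blk_GOP (hCTV : Stmt_CTV) : Stmt_GOP := by
  intro ι _ y hy
  obtain ⟨h1, h2⟩ := hCTV
  have hb := (h1 ι y hy.bd).2
  have hm : ∀ᶠ y' in 𝓝 y, ∀ i, 0 < mu y' i := by
    rw [eventually_all]
    intro i
    exact (h2 ι y hy.toNpb i).eventually (lt_mem_nhds (hy.mp i))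
  have hn : ∀ᶠ y' in 𝓝 y, ∀ i k, i ≠ k → cr (y' i) (y' k) ≠ 0 := by
    rw [eventually_all]
    intro i
    rw [eventually_all]
    intro k
    by_cases hik : i = k
    · exact Eventually.of_forall fun y' h => absurd hik h
    · have hc : Continuous (fun y' : ι → R3 => cr (y' i) (y' k)) := by
        have ha : ∀ (j : ι) (l : Fin 3), Continuous (fun y' : ι → R3 => y' j l) := fun j l =>
          (continuous_apply l).comp (continuous_apply j)
        refine continuous_pi fun l => ?_
        fin_cases l
        · exact ((ha i 1).mul (ha k 2)).sub ((ha i 2).mul (ha k 1))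
        · exact ((ha i 2).mul (ha k 0)).sub ((ha i 0).mul (ha k 2))
        · exact ((ha i 0).mul (ha k 1)).sub ((ha i 1).mul (ha k 0))
      filter_upwards [hc.continuousAt.eventually_ne (hy.np i k hik)] with y' h _
      exact h
  obtain ⟨R, hR⟩ := hb
  filter_upwards [hR, hm, hn] with y' a b c
  exact { np := c, bd := ⟨R, a⟩, mp := b }

end Pool.G1
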