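import Pool.Agent.Work.MP_b5407d_g1.Interface

/-!
# G1, block GPM (helper68): the known constant `1/486`
-/

set_option autoImplicit false

open MeasureTheory Set Filter Topology

namespace Pool.G1

open Pool.T3 (R3 dt cr de K V S H Fam Pos pt Lam Q J lin)

theorem blk_GPM (hGAP : Pool.T3.Stmt_GAP) (hFGN : Stmt_FGN) (hMUS : Stmt_MUS) (hQJT : Stmt_QJT) :
    Stmt_GPM := by
  intro ι _ _ y hy hmu w
  obtain ⟨u, h, hu, hh, rfl⟩ := hFGN.1 ι y hy
  obtain ⟨-, hS, -⟩ := hMUS ι u hu h hh
  have hSpos : ∀ i, 0 < S u h i := by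
    intro i
    have h1 := hS i
    have h2 := hmu i
    have h3 := hh i
    have h4 : 0 < S u h i * h i := by rw [h1]; linarith
    exact pos_of_mul_pos_left h4 h3.le
  have hw : (fun i => (w i * h i) / h i) = w := by
    funext i
    exact mul_div_cancel_right₀ _ (hh i).ne'
  obtain ⟨hQ, -, hJ⟩ := hQJT ι u hu h hh (fun i => w i * h i)
  have hG := hGAP ι u hu h hh hSpos (fun i => w i * h i)
  rw [hQ, hJ] at hG
  rw [hw] at hG
  linarith

end Pool.G1
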