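import Pool.Agent.Work.MP_b5407d_g1.Interface
import Pool.Agent.Work.MP_b5407d_g1.CTV

/-!
# Block GTR: no three collinear signed vectors in a good family
-/

set_option autoImplicit false

open MeasureTheory Set

namespace Pool.G1

open Pool.T3 (R3 dt cr)

namespace GTR

lemma dt_add_left (a b x : R3) : dt (a + b) x = dt a x + dt b x := by
  simp only [dt, Pi.add_apply]; ring

lemma dt_sub_left (a b x : R3) : dt (a - b) x = dt a x - dt b x := by
  simp only [dt, Pi.sub_apply]; ring

lemma dt_smul_left (c : ℝ) (a x : R3) : dt (c • a) x = c * dt a x := by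
  simp only [dt, Pi.smul_apply, smul_eq_mul]; ring

lemma dt_neg_left (a x : R3) : dt (-a) x = -dt a x := by
  simp only [dt, Pi.neg_apply]; ring

lemma abs_sy {ι : Type} (y : ι → R3) (P : ι × Bool) (x : R3) :
    |dt (sy y P) x| = |dt (y P.1) x| := by
  unfold sy
  split_ifs
  · rfl
  · rw [dt_neg_left, abs_neg]

lemma cr_smul_right (c : ℝ) (a : R3) : cr a (c • a) = 0 := by
  ext k
  fin_cases k <;> simp [cr] <;> ring

lemma cr_neg_right (a b : R3) : cr a (-b) = -cr a b := by
  ext k
  fin_cases k <;> simp [cr] <;> ring

lemma cr_neg_left (a b : R3) : cr (-a) b = -cr a b := by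
  ext k
  fin_cases k <;> simp [cr] <;> ring

lemma cr_sy {ι : Type} (y : ι → R3) (P P' : ι × Bool) (h : cr (y P.1) (y P'.1) ≠ 0) :
    cr (sy y P) (sy y P') ≠ 0 := by
  unfold sy
  split_ifs
  · exact h
  · rw [cr_neg_right, neg_ne_zero]; exact h
  · rw [cr_neg_left, neg_ne_zero]; exact h
  · rw [cr_neg_left, cr_neg_right, neg_neg]; exact h

lemma conv_eq (s a b l m : ℝ) (hl : 0 < l) (hm : 0 < m) (hs : l + m = 1) (ha : |a| ≤ |s|)
    (hb : |b| ≤ |s|) (h : s = l * a + m * b) : a - b = 0 := by
  rcases le_total 0 s with h0 | h0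
  · rw [abs_of_nonneg h0] at ha hb
    have h1 : a ≤ s := (le_abs_self a).trans ha
    have h2 : b ≤ s := (le_abs_self b).trans hb
    have h3 : l * (s - a) + m * (s - b) = 0 := by
      have : l * s + m * s = s := by rw [← add_mul, hs, one_mul]
      linarith
    have h4 : 0 ≤ l * (s - a) := mul_nonneg hl.le (by linarith)
    have h5 : 0 ≤ m * (s - b) := mul_nonneg hm.le (by linarith)
    have h6 : l * (s - a) = 0 := by linarith
    have h7 : m * (s - b) = 0 := by linarith
    have h8 : s - a = 0 := by rcases mul_eq_zero.1 h6 with h | h; · exact absurd h hl.ne'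
                              · exact h
    have h9 : s - b = 0 := by rcases mul_eq_zero.1 h7 with h | h; · exact absurd h hm.ne'
                              · exact h
    linarith
  · rw [abs_of_nonpos h0] at ha hb
    have h1 : -a ≤ -s := (neg_le_abs a).trans ha
    have h2 : -b ≤ -s := (neg_le_abs b).trans hb
    have h3 : l * (a - s) + m * (b - s) = 0 := by
      have : l * s + m * s = s := by rw [← add_mul, hs, one_mul]
      linarith
    have h4 : 0 ≤ l * (a - s) := mul_nonneg hl.le (by linarith)
    have h5 : 0 ≤ m * (b - s) := mul_nonneg hm.le (by linarith)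
    have h6 : l * (a - s) = 0 := by linarith
    have h7 : m * (b - s) = 0 := by linarith
    have h8 : a - s = 0 := by rcases mul_eq_zero.1 h6 with h | h; · exact absurd h hl.ne'
                              · exact h
    have h9 : b - s = 0 := by rcases mul_eq_zero.1 h7 with h | h; · exact absurd h hm.ne'
                              · exact h
    linarith

/-- the proper convex combination case -/
lemma core {ι : Type} [Fintype ι] (y : ι → R3) (hG : Good y) (Z Z' Z'' : ι × Bool)
    (h12 : Z'.1 ≠ Z''.1) (l m : ℝ) (hl : 0 < l) (hm : 0 < m) (hs : l + m = 1) :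
    sy y Z ≠ l • sy y Z' + m • sy y Z'' := by
  intro h
  have hsub : co y Z.1 ⊆ {x : R3 | dt (sy y Z' - sy y Z'') x = 0} := by
    intro x hx
    have hx2 := hx.2
    show dt (sy y Z' - sy y Z'') x = 0
    rw [dt_sub_left]
    refine conv_eq (dt (sy y Z) x) _ _ l m hl hm hs ?_ ?_ ?_
    · rw [abs_sy, abs_sy]; exact hx2 _
    · rw [abs_sy, abs_sy]; exact hx2 _
    · rw [h, dt_add_left, dt_smul_left, dt_smul_left]
  have hne : sy y Z' - sy y Z'' ≠ 0 := by
    intro h0
    have h1 : sy y Z' = sy y Z'' := sub_eq_zero.1 h0
    have h2 := cr_sy y Z' Z'' (hG.np _ _ h12)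
    apply h2
    rw [h1]
    have := cr_smul_right 1 (sy y Z'')
    rwa [one_smul] at this
  have hnull := CTV.null_plane (sy y Z' - sy y Z'') 0 (Or.inl hne)
  have h3 : volume (co y Z.1) = 0 := measure_mono_null hsub hnull
  have h4 := hG.mp Z.1
  unfold mu at h4
  rw [h3] at h4
  simp at h4

end GTR

open GTR in
theorem blk_GTR : Stmt_GTR := by
  intro ι _ y hG P P' P'' h1 h2 h3 α β hαβ h
  have hα : α ≠ 0 := by
    intro h0
    have hβ : β = 1 := by linarith
    rw [h0, hβ, zero_smul, zero_add, one_smul] at h
    have h4 := cr_sy y P' P'' (hG.np _ _ h3)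
    apply h4
    rw [h]
    have := cr_smul_right 1 (sy y P')
    rwa [one_smul] at this
  have hβ : β ≠ 0 := by
    intro h0
    have hα : α = 1 := by linarith
    rw [h0, hα, zero_smul, add_zero, one_smul] at h
    have h4 := cr_sy y P P'' (hG.np _ _ h2)
    apply h4
    rw [h]
    have := cr_smul_right 1 (sy y P)
    rwa [one_smul] at this
  rcases lt_or_gt_of_ne hα with ha | ha
  · -- `α < 0`: `P'` is the convex combination
    have hb : 0 < β := by linarith
    refine core y hG P' P'' P h2.symm (1 / β) (-α / β) (by positivity)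
      (div_pos (by linarith) hb) (by field_simp; linarith) ?_
    rw [h, smul_add, smul_smul, smul_smul]
    have e1 : 1 / β * β = 1 := by field_simp
    have e2 : 1 / β * α + -α / β = 0 := by field_simp; ring
    rw [e1, one_smul]
    have e3 : (1 / β * α) • sy y P + sy y P' + (-α / β) • sy y P =
        (1 / β * α + -α / β) • sy y P + sy y P' := by
      rw [add_smul]; abel
    rw [e3, e2, zero_smul, zero_add]
  · rcases lt_or_gt_of_ne hβ with hb | hb
    · -- `β < 0`: `P` is the convex combination
      have ha' : 0 < α := ha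
      refine core y hG P P'' P' h3.symm (1 / α) (-β / α) (by positivity)
        (div_pos (by linarith) ha') (by field_simp; linarith) ?_
      rw [h, smul_add, smul_smul, smul_smul]
      have e1 : 1 / α * α = 1 := by field_simp
      have e2 : 1 / α * β + -β / α = 0 := by field_simp; ring
      rw [e1, one_smul]
      have e3 : sy y P + (1 / α * β) • sy y P' + (-β / α) • sy y P' =
          sy y P + (1 / α * β + -β / α) • sy y P' := by
        rw [add_smul]; abel
      rw [e3, e2, zero_smul, add_zero]
    · exact core y hG P'' P P' h1 α β ha hb hαβ h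

end Pool.G1
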