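import Pool.Agent.Work.MP_b5407d_g1.InterfaceF

/-!
# G1, block `KEY`: the induction step
-/

set_option autoImplicit false

open MeasureTheory Set Filter Topology

namespace Pool.G1

open Pool.T3 (R3 dt cr de K V S H Fam Pos pt Lam Q J lin)

namespace KEY

/-! ## algebra in `ℝ³` -/

lemma dt_add (a b c : R3) : dt a (b + c) = dt a b + dt a c := by
  simp only [dt, Pi.add_apply]; ring
lemma dt_smul (t : ℝ) (a b : R3) : dt a (t • b) = t * dt a b := by
  simp only [dt, Pi.smul_apply, smul_eq_mul]; ring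
lemma cr0 (a b : R3) : cr a b 0 = a 1 * b 2 - a 2 * b 1 := rfl
lemma cr1 (a b : R3) : cr a b 1 = a 2 * b 0 - a 0 * b 2 := rfl
lemma cr2 (a b : R3) : cr a b 2 = a 0 * b 1 - a 1 * b 0 := rfl

lemma dt_nonneg (a : R3) : 0 ≤ dt a a := by
  simp only [dt]; nlinarith [mul_self_nonneg (a 0), mul_self_nonneg (a 1), mul_self_nonneg (a 2)]

lemma dt_pos {a : R3} (h : a ≠ 0) : 0 < dt a a := by
  refine lt_of_le_of_ne (dt_nonneg a) fun h0 => h ?_
  have h0' : dt a a = 0 := h0.symm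
  simp only [dt] at h0'
  have a0 : a 0 = 0 := by
    have : a 0 * a 0 = 0 := by
      nlinarith [mul_self_nonneg (a 0), mul_self_nonneg (a 1), mul_self_nonneg (a 2)]
    exact mul_self_eq_zero.1 this
  have a1 : a 1 = 0 := by
    have : a 1 * a 1 = 0 := by
      nlinarith [mul_self_nonneg (a 0), mul_self_nonneg (a 1), mul_self_nonneg (a 2)]
    exact mul_self_eq_zero.1 this
  have a2 : a 2 = 0 := by
    have : a 2 * a 2 = 0 := by
      nlinarith [mul_self_nonneg (a 0), mul_self_nonneg (a 1), mul_self_nonneg (a 2)]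
    exact mul_self_eq_zero.1 this
  funext k
  fin_cases k
  · exact a0
  · exact a1
  · exact a2

/-- existence of a chart -/
lemma exists_chart {ι : Type} (y : ι → R3) (j k : ι) (h : cr (y j) (y k) ≠ 0) :
    ∃ n0 p1 p2 : R3, Chart y j n0 p1 p2 := by
  have hp := dt_pos h
  have hY : 0 < dt (y j) (y j) := by
    refine lt_of_le_of_ne (dt_nonneg _) fun h0 => ?_
    have e : dt (cr (y j) (y k)) (cr (y j) (y k)) =
        dt (y j) (y j) * dt (y k) (y k) - dt (y j) (y k) ^ 2 := by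
      simp only [dt, cr0, cr1, cr2]; ring
    rw [e, ← h0] at hp
    nlinarith [sq_nonneg (dt (y j) (y k))]
  refine ⟨(1 / dt (y j) (y j)) • y j, cr (y j) (y k), cr (y j) (cr (y j) (y k)), ?_, ?_, ?_, ?_⟩
  · rw [dt_smul]; field_simp
  · simp only [dt, cr0, cr1, cr2]; ring
  · simp only [dt, cr0, cr1, cr2]; ring
  · have e : de ((1 / dt (y j) (y j)) • y j) (cr (y j) (y k)) (cr (y j) (cr (y j) (y k))) =
        1 / dt (y j) (y j) * (dt (y j) (y j) * dt (cr (y j) (y k)) (cr (y j) (y k))) := by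
      simp only [de, dt, cr0, cr1, cr2, Pi.smul_apply, smul_eq_mul]; ring
    rw [e]
    have : 0 < 1 / dt (y j) (y j) := by positivity
    exact mul_pos this (mul_pos hY hp)

/-! ## algebra in the plane -/

lemma dp_sub (a b c : R2) : dp a (b - c) = dp a b - dp a c := by
  simp only [dp, Prod.fst_sub, Prod.snd_sub]; ring
lemma dp_smul (t : ℝ) (a b : R2) : dp a (t • b) = t * dp a b := by
  simp only [dp, Prod.smul_fst, Prod.smul_snd, smul_eq_mul]; ring
lemma smul_dp (t : ℝ) (a b : R2) : dp (t • a) b = t * dp a b := by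
  simp only [dp, Prod.smul_fst, Prod.smul_snd, smul_eq_mul]; ring

lemma af_add (r q : ℝ × R2) (t : ℝ) (x : R2) : af (r + t • q) x = af r x + t * af q x := by
  simp only [af, dp, Prod.fst_add, Prod.snd_add, Prod.smul_fst, Prod.smul_snd, smul_eq_mul]
  ring

section
variable {n : ℕ} {ν v : ℕ → R2} {ℓ : ℕ → ℝ}

lemma EI_add (r q : ℝ × R2) (t : ℝ) (i : ℕ) : EI v ℓ (r + t • q) i = EI v ℓ r i + t * EI v ℓ q i := by
  simp only [EI, af_add]; ring

lemma J1_add (r q : ℝ × R2) (t : ℝ) (δ : ℕ → ℝ) :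
    J1 n v ℓ (r + t • q) δ = J1 n v ℓ r δ + t * J1 n v ℓ q δ := by
  simp only [J1, EI_add, Finset.mul_sum, ← Finset.sum_add_distrib]
  exact Finset.sum_congr rfl fun i _ => by ring

lemma T1_add (r q : ℝ × R2) (t : ℝ) (δ θ : ℕ → ℝ) :
    T1 n v ℓ (r + t • q) δ θ = T1 n v ℓ r δ θ + t * T1 n v ℓ q δ θ := by
  simp only [T1, EI_add, Finset.mul_sum, ← Finset.sum_add_distrib]
  exact Finset.sum_congr rfl fun i _ => by ring

lemma J0_add (r q : ℝ × R2) (t : ℝ) :
    J0 n v (r + t • q) = J0 n v r + t * J0 n v q := by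
  simp only [J0, af_add, Finset.mul_sum, ← Finset.sum_add_distrib]
  refine Finset.sum_congr rfl fun i _ => ?_
  simp only [Prod.fst_add, Prod.smul_fst, smul_eq_mul]
  ring

lemma dp_add_left (a b x : R2) (t : ℝ) : dp (a + t • b) x = dp a x + t * dp b x := by
  simp only [dp, Prod.fst_add, Prod.snd_add, Prod.smul_fst, Prod.smul_snd, smul_eq_mul]
  ring

lemma J2_add (r q : ℝ × R2) (t : ℝ) (δ : ℕ → ℝ) :
    J2 n ν v ℓ (r + t • q) δ = J2 n ν v ℓ r δ + t * J2 n ν v ℓ q δ := by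
  simp only [J2, B2, af_add, Finset.mul_sum, ← Finset.sum_add_distrib, Prod.snd_add,
    Prod.smul_snd, dp_add_left]
  exact Finset.sum_congr rfl fun i _ => by ring

lemma J1_sub (r : ℝ × R2) (δ η : ℕ → ℝ) :
    J1 n v ℓ r (fun i => δ i - η i) = J1 n v ℓ r δ - J1 n v ℓ r η := by
  simp only [J1, ← Finset.sum_sub_distrib]
  exact Finset.sum_congr rfl fun i _ => by ring

lemma ve_sub (δ η : ℕ → ℝ) (i : ℕ) : ve ν (fun i => δ i - η i) i = ve ν δ i - ve ν η i := by
  simp only [ve]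
  rw [← smul_sub]
  congr 1
  ext
  · simp only [rt, Prod.fst_sub, Prod.smul_fst, smul_eq_mul]; ring
  · simp only [rt, Prod.snd_sub, Prod.smul_snd, smul_eq_mul]; ring

lemma B2_sub_left (r : ℝ × R2) (δ δ' η : ℕ → ℝ) :
    B2 n ν v ℓ r (fun i => δ i - δ' i) η = B2 n ν v ℓ r δ η - B2 n ν v ℓ r δ' η := by
  simp only [B2, ← Finset.sum_sub_distrib]
  exact Finset.sum_congr rfl fun i _ => by ring

lemma B2_sub_right (r : ℝ × R2) (δ η η' : ℕ → ℝ) :
    B2 n ν v ℓ r δ (fun i => η i - η' i) = B2 n ν v ℓ r δ η - B2 n ν v ℓ r δ η' := by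
  simp only [B2, ← Finset.sum_sub_distrib, ve_sub]
  refine Finset.sum_congr rfl fun i _ => ?_
  simp only [dp, rt, Prod.fst_sub, Prod.snd_sub, Prod.fst_add, Prod.snd_add]
  ring

/-- translation of the origin -/
lemma af_tr (r : ℝ × R2) (ξ x : R2) (h : af r ξ = 0) : af (0, r.2) (x - ξ) = af r x := by
  simp only [af, dp_sub] at *
  linarith

lemma EI_tr (r : ℝ × R2) (ξ : R2) (h : af r ξ = 0) (i : ℕ) :
    EI (fun i => v i - ξ) ℓ (0, r.2) i = EI v ℓ r i := by
  simp only [EI, af_tr r ξ _ h]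

lemma J1_tr (r : ℝ × R2) (ξ : R2) (h : af r ξ = 0) (δ : ℕ → ℝ) :
    J1 n (fun i => v i - ξ) ℓ (0, r.2) δ = J1 n v ℓ r δ := by
  simp only [J1, EI_tr r ξ h]

lemma J2_tr (r : ℝ × R2) (ξ : R2) (h : af r ξ = 0) (δ : ℕ → ℝ) :
    J2 n ν (fun i => v i - ξ) ℓ (0, r.2) δ = J2 n ν v ℓ r δ := by
  simp only [J2, B2, af_tr r ξ _ h]

lemma poly_tr (P : Poly n ν v ℓ) (ξ : R2) : Poly n ν (fun i => v i - ξ) ℓ := by
  refine ⟨P.n3, P.pν, fun i => by simp only [P.pv], P.pℓ, P.unit, P.pos, fun i => ?_, P.turn,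
    fun i k => ?_, P.inj⟩
  · show v (i + 1) - ξ = v i - ξ + ℓ i • rt (ν i)
    rw [P.edge i]; abel
  · simp only [dp_sub]
    linarith [P.conv i k]

end

/-! ## charts -/

section
variable {ι : Type} (y : ι → R3) (j : ι) (n0 p1 p2 : R3) (ξ : R2)

lemma dt_chp (a : R3) : dt a (chp n0 p1 p2 1 ξ) = dt a n0 + ξ.1 * dt a p1 + ξ.2 * dt a p2 := by
  unfold chp
  rw [dt_add, dt_add, dt_smul, dt_smul, dt_smul]; ring

lemma chart_tr (h : Chart y j n0 p1 p2) : Chart y j (chp n0 p1 p2 1 ξ) p1 p2 := by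
  refine ⟨?_, h.h1, h.h2, ?_⟩
  · rw [dt_chp, h.h0, h.h1, h.h2]; ring
  · have e : de (chp n0 p1 p2 1 ξ) p1 p2 = de n0 p1 p2 := by
      simp only [chp, de, dt, cr0, cr1, cr2, Pi.smul_apply, Pi.add_apply, smul_eq_mul]; ring
    rw [e]; exact h.hd

lemma Fb_tr (k : {l : ι // l ≠ j} × Bool) :
    Fb y j (chp n0 p1 p2 1 ξ) k = Fb y j n0 k - dp (FN y j p1 p2 k) ξ := by
  simp only [Fb, FN, dt_chp, smul_dp]
  simp only [dp]
  ring

variable {n : ℕ} {ν v : ℕ → R2} {ℓ c : ℕ → ℝ} {kk : ℕ → {l : ι // l ≠ j} × Bool}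

lemma PD_tr (D : PD (FN y j p1 p2) (Fb y j n0) n ν v ℓ c kk) :
    PD (FN y j p1 p2) (Fb y j (chp n0 p1 p2 1 ξ)) n ν (fun i => v i - ξ) ℓ c kk := by
  refine ⟨poly_tr D.poly ξ, D.pk, D.pc, D.cpos, D.hN, fun i => ?_, D.inj, fun k i => ?_,
    fun k hk i => ?_⟩
  · rw [Fb_tr, D.hb, D.hN, smul_dp, dp_sub]; ring
  · rw [Fb_tr, dp_sub]; linarith [D.le k i]
  · have := D.tch k hk i
    simp only [Fb_tr, dp_sub, sub_left_inj]
    exact this

end

/-! ## forms on families -/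

section
variable {ι : Type} [Fintype ι] [DecidableEq ι] (y : ι → R3) (w : ι → ℝ) (j : ι)

lemma En_pert (hs : ∀ i k, i ≠ k → cc y i k = cc y k i) : ∃ q : ℝ, ∀ x : ℝ,
    En y (fun i => w i + x * (if i = j then 1 else 0)) =
      En y w + 2 * x * (∑ k, cc y j k * (w j - w k)) + x ^ 2 * q := by
  refine ⟨1 / 2 * ∑ i, ∑ k, cc y i k * ((if i = j then (1 : ℝ) else 0) -
    (if k = j then 1 else 0)) ^ 2, fun x => ?_⟩
  have e1 : ∑ i, ∑ k, cc y i k * (w i - w k) * (if i = j then (1 : ℝ) else 0) =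
      ∑ k, cc y j k * (w j - w k) := by
    rw [Finset.sum_eq_single j]
    · simp
    · intro i _ hi
      simp [hi]
    · intro h; exact absurd (Finset.mem_univ _) h
  have e2 : ∑ i, ∑ k, cc y i k * (w i - w k) * (if k = j then (1 : ℝ) else 0) =
      -∑ k, cc y j k * (w j - w k) := by
    rw [Finset.sum_comm, Finset.sum_eq_single j, ← Finset.sum_neg_distrib]
    · refine Finset.sum_congr rfl fun i _ => ?_
      by_cases hi : i = j
      · subst hi; simp
      · rw [hs i j hi]; simp only [if_true]; ring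
    · intro i _ hi
      simp [hi]
    · intro h; exact absurd (Finset.mem_univ _) h
  have e3 : En y (fun i => w i + x * (if i = j then 1 else 0)) =
      En y w + x * ((∑ i, ∑ k, cc y i k * (w i - w k) * (if i = j then (1 : ℝ) else 0)) -
        ∑ i, ∑ k, cc y i k * (w i - w k) * (if k = j then (1 : ℝ) else 0)) +
      x ^ 2 * (1 / 2 * ∑ i, ∑ k, cc y i k * ((if i = j then (1 : ℝ) else 0) -
        (if k = j then 1 else 0)) ^ 2) := by
    simp only [En, Finset.mul_sum, ← Finset.sum_sub_distrib, ← Finset.sum_add_distrib]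
    refine Finset.sum_congr rfl fun i _ => Finset.sum_congr rfl fun k _ => ?_
    ring
  rw [e3, e1, e2]
  ring

lemma Qm_pert (hm : ∑ i, mu y i * w i = 0) : ∃ q : ℝ, ∀ x : ℝ,
    Qm y (fun i => w i + x * (if i = j then 1 else 0)) =
      Qm y w + 6 * x * (mu y j * w j) + x ^ 2 * q := by
  refine ⟨3 * (mu y j - (mu y j) ^ 2 / vo y), fun x => ?_⟩
  have e1 : ∑ i, mu y i * (w i + x * (if i = j then (1 : ℝ) else 0)) = x * mu y j := by
    have : ∑ i, mu y i * (w i + x * (if i = j then (1 : ℝ) else 0)) =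
        (∑ i, mu y i * w i) + ∑ i, x * mu y i * (if i = j then (1 : ℝ) else 0) := by
      rw [← Finset.sum_add_distrib]
      exact Finset.sum_congr rfl fun i _ => by ring
    rw [this, hm]
    simp
  have e2 : ∑ i, mu y i * (w i + x * (if i = j then (1 : ℝ) else 0)) ^ 2 =
      (∑ i, mu y i * w i ^ 2) + 2 * x * (mu y j * w j) + x ^ 2 * mu y j := by
    have : ∑ i, mu y i * (w i + x * (if i = j then (1 : ℝ) else 0)) ^ 2 =
        (∑ i, mu y i * w i ^ 2) +
          ∑ i, (2 * x * (mu y i * w i) + x ^ 2 * mu y i) * (if i = j then (1 : ℝ) else 0) := by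
      rw [← Finset.sum_add_distrib]
      refine Finset.sum_congr rfl fun i _ => ?_
      by_cases hi : i = j
      · simp only [hi, if_true]; ring
      · simp only [hi, if_false]; ring
    rw [this]
    simp
    ring
  unfold Qm
  rw [e1, e2, hm]
  ring

end

/-- a nonnegative quadratic function vanishing at zero -/
lemma lin_zero (a q : ℝ) (h : ∀ x : ℝ, 0 ≤ x * a + x ^ 2 * q) : a = 0 := by
  have h1 := h (-a / (1 + |q|))
  by_contra ha
  have hq : 0 < 1 + |q| := by positivity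
  have ha2 : 0 < a ^ 2 := by positivity
  have e : -a / (1 + |q|) * a + (-a / (1 + |q|)) ^ 2 * q =
      a ^ 2 / (1 + |q|) ^ 2 * (q - (1 + |q|)) := by
    field_simp
    ring
  rw [e] at h1
  have h2 : q - (1 + |q|) < 0 := by linarith [le_abs_self q]
  have h3 : 0 < a ^ 2 / (1 + |q|) ^ 2 := by positivity
  have := mul_neg_of_pos_of_neg h3 h2
  linarith

/-- make the affine function positive on the vertices with nonzero gradient -/
lemma perturb {n : ℕ} {ν v : ℕ → R2} {ℓ : ℕ → ℝ} (hn : 0 < n) (pv : ∀ i, v (i + n) = v i)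
    (E : ℝ × R2 → ℝ)
    (hE : ∀ (r q : ℝ × R2) (t : ℝ), E (r + t • q) = E r + t * E q) (r : ℝ × R2)
    (hr : ∀ k, 0 ≤ af r (v k)) (hneg : E r < 0) :
    ∃ r' : ℝ × R2, (∀ k, 0 < af r' (v k)) ∧ r'.2 ≠ 0 ∧ E r' < 0 := by
  -- a bound for the first coordinate
  obtain ⟨C, hC⟩ : ∃ C : ℝ, ∀ k, |(v k).1| ≤ C := by
    refine ⟨∑ i ∈ Finset.range n, |(v i).1|, fun k => ?_⟩
    have e : v (k % n) = v k := Function.Periodic.map_mod_nat pv k
    rw [← e]
    exact Finset.single_le_sum (f := fun i => |(v i).1|) (fun i _ => abs_nonneg _)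
      (Finset.mem_range.2 (Nat.mod_lt _ hn))
  set q : ℝ × R2 := (1 + C, ((1 : ℝ), (0 : ℝ))) with hq
  have hq1 : ∀ k, 0 < af q (v k) := by
    intro k
    have := hC k
    have := neg_abs_le (v k).1
    simp only [hq, af, dp]
    linarith
  -- small `t`
  have key : ∃ t0 : ℝ, 0 < t0 ∧ ∀ t : ℝ, 0 < t → t ≤ t0 → E (r + t • q) < 0 := by
    refine ⟨-E r / (2 * (1 + |E q|)), ?_, ?_⟩
    · have : 0 < 1 + |E q| := by positivity
      have h2 : 0 < -E r := by linarith
      positivity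
    · intro t ht ht'
      rw [hE]
      have h1 : 0 < 1 + |E q| := by positivity
      have h2 : t * E q ≤ t * (1 + |E q|) :=
        mul_le_mul_of_nonneg_left (by linarith [le_abs_self (E q)]) ht.le
      have h3 : t * (1 + |E q|) ≤ -E r / (2 * (1 + |E q|)) * (1 + |E q|) :=
        mul_le_mul_of_nonneg_right ht' h1.le
      have h4 : -E r / (2 * (1 + |E q|)) * (1 + |E q|) = -E r / 2 := by
        field_simp
      linarith
  obtain ⟨t0, ht0, H⟩ := key
  have pos : ∀ t : ℝ, 0 < t → ∀ k, 0 < af (r + t • q) (v k) := by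
    intro t ht k
    rw [af_add]
    have := hr k
    have := mul_pos ht (hq1 k)
    linarith
  by_cases h : (r + t0 • q).2 = 0
  · refine ⟨r + (t0 / 2) • q, pos _ (by linarith), ?_, H _ (by linarith) (by linarith)⟩
    intro h'
    have e1 := congrArg Prod.fst h
    have e2 := congrArg Prod.fst h'
    simp only [hq, Prod.snd_add, Prod.smul_snd, Prod.fst_add, Prod.smul_fst, smul_eq_mul,
      Prod.fst_zero] at e1 e2
    linarith
  · exact ⟨r + t0 • q, pos _ ht0, h, H _ ht0 le_rfl⟩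

end KEY

open KEY

theorem blk_KEY (hRAW : Stmt_RAW) (hFCE : Stmt_FCE) (hFMU : Stmt_FMU) (hGDI : Stmt_GDI)
    (hEXT : Stmt_EXT) (hPEU : Stmt_PEU) (hBAS : Stmt_BAS) : Stmt_KEY := by
  intro hPL N hM
  by_contra hN
  obtain ⟨ε, hε0, hε1, hLI, ι, _, _, y, w, j, hcard, hg, hwj, hw1, hwm, hEn⟩ := hEXT N hM hN
  obtain ⟨hvo, -, -, -, hsym, h3, -⟩ := hBAS ι y hg.toNpb ⟨j⟩
  -- a second index and a chart
  obtain ⟨k0, hk0⟩ : ∃ k : ι, k ≠ j := by
    by_contra hh
    push Not at hh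
    have : Fintype.card ι ≤ 1 := Fintype.card_le_one_iff.2 fun a b => by rw [hh a, hh b]
    omega
  obtain ⟨n0, p1, p2, hch⟩ := exists_chart y j k0 (hg.np j k0 (Ne.symm hk0))
  obtain ⟨n, ν, v, ℓ, c, kk, D⟩ := hFCE ι y hg j n0 p1 p2 hch
  obtain ⟨hmu, hcc⟩ := hFMU ι y hg j n0 p1 p2 hch n ν v ℓ c kk D
  have P := D.poly
  have hn0 : 0 < n := by have := P.n3; omega
  -- the weights
  set t : ℕ → ℝ := fun i => 1 - w (kk i).1 with ht
  set δ : ℕ → ℝ := fun i => t i / c i with hδ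
  have pt' : ∀ i, t (i + n) = t i := fun i => by simp only [ht, D.pk]
  have pδ : ∀ i, δ (i + n) = δ i := fun i => by simp only [hδ, pt', D.pc]
  have t0 : ∀ i, 0 ≤ t i := fun i => by
    have := (abs_le.1 (hw1 (kk i).1)).2
    simp only [ht]; linarith
  have t2 : ∀ i, t i ≤ 2 := fun i => by
    have := (abs_le.1 (hw1 (kk i).1)).1
    simp only [ht]; linarith
  have δ0 : ∀ i, 0 ≤ δ i := fun i => div_nonneg (t0 i) (D.cpos i).le
  -- widths
  have hwid : ∀ i k, c i * dp (ν i) (v i - v k) ≤ 2 := by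
    intro i k
    have e1 := D.hb i
    have e2 := D.hN i
    have e3 := D.le ((kk i).1, !(kk i).2) k
    have e4 : FN y j p1 p2 ((kk i).1, !(kk i).2) = (-1 : ℝ) • FN y j p1 p2 (kk i) := by
      cases h : (kk i).2
      · simp only [FN, sg, h, Bool.not_false, if_true, Bool.false_eq_true, if_false, smul_smul]
        norm_num
      · simp only [FN, sg, h, Bool.not_true, if_true, Bool.false_eq_true, if_false, smul_smul]
        norm_num
    have e5 : Fb y j n0 ((kk i).1, !(kk i).2) = 2 - Fb y j n0 (kk i) := by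
      cases h : (kk i).2
      · simp only [Fb, sg, h, Bool.not_false, if_true, Bool.false_eq_true, if_false]
        ring
      · simp only [Fb, sg, h, Bool.not_true, if_true, Bool.false_eq_true, if_false]
        ring
    rw [e4, e5, smul_dp, e2, smul_dp, e1] at e3
    rw [dp_sub, mul_sub]
    linarith
  have htW : ∀ i k, t i * dp (ν i) (v i - v k) ≤ 2 * δ i := by
    intro i k
    have h1 := mul_le_mul_of_nonneg_left (hwid i k) (δ0 i)
    have h2 : δ i * (c i * dp (ν i) (v i - v k)) = t i * dp (ν i) (v i - v k) := by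
      have := (D.cpos i).ne'
      simp only [hδ]
      field_simp
    rw [h2] at h1
    linarith
  -- the equation of `j`
  have hEL : ∑ l, cc y j l * (w j - w l) = 3 * (2 + ε) * mu y j := by
    obtain ⟨q1, hq1⟩ := En_pert y w j hsym
    obtain ⟨q2, hq2⟩ := Qm_pert y w j hwm
    have h := lin_zero (2 * (∑ l, cc y j l * (w j - w l)) - (2 + ε) * (6 * (mu y j * w j)))
      (q1 - (2 + ε) * q2) (fun x => by
        have h1 := hGDI N ε hLI ι hcard y hg (fun i => w i + x * (if i = j then 1 else 0))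
        rw [hq1, hq2, hEn] at h1
        linarith)
    rw [hwj, mul_one] at h
    rw [hwj]
    linarith
  have hbal : ∑ i ∈ Finset.range n, ℓ i * δ i = (2 + ε) * ar n v := by
    have h1 := hcc (fun l => w j - w l) (by simp)
    rw [hEL] at h1
    have h2 : ∑ i ∈ Finset.range n, ℓ i * ((w j - w (kk i).1) / c i) =
        ∑ i ∈ Finset.range n, ℓ i * δ i := by
      refine Finset.sum_congr rfl fun i _ => ?_
      simp only [hδ, ht, hwj]
    rw [h2] at h1
    have hd := hch.hd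
    have h3 : 2 * de n0 p1 p2 * (∑ i ∈ Finset.range n, ℓ i * δ i - (2 + ε) * ar n v) = 0 := by
      linear_combination (-1 : ℝ) * h1 + (2 + ε) * hmu
    rcases mul_eq_zero.1 h3 with h4 | h4
    · exfalso; linarith
    · linarith
  -- the planar theorem
  obtain ⟨r, hr, hE⟩ := hPL n ν v ℓ P δ t ε pδ pt' δ0 t0 t2 htW hε0 hε1 hbal
  obtain ⟨r', hr', hr2, hE'⟩ := perturb (ν := ν) (ℓ := ℓ) hn0 P.pv
    (fun r => J2 n ν v ℓ r δ + ε * T1 n v ℓ r δ t - 2 * (2 + ε) * J1 n v ℓ r δ +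
        3 * (2 + ε) * J0 n v r)
    (fun r q s => by
      simp only [J2_add, T1_add, J1_add, J0_add]
      ring) r hr hE
  -- a zero of `r'`
  obtain ⟨ξ, hξ⟩ : ∃ ξ : R2, af r' ξ = 0 := by
    have hb : 0 < dp r'.2 r'.2 := by
      have h0 : 0 ≤ dp r'.2 r'.2 := by
        simp only [dp]; nlinarith [mul_self_nonneg r'.2.1, mul_self_nonneg r'.2.2]
      refine lt_of_le_of_ne h0 fun h => hr2 ?_
      simp only [dp] at h
      have a1 : r'.2.1 * r'.2.1 = 0 := by
        nlinarith [mul_self_nonneg r'.2.1, mul_self_nonneg r'.2.2]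
      have a2 : r'.2.2 * r'.2.2 = 0 := by
        nlinarith [mul_self_nonneg r'.2.1, mul_self_nonneg r'.2.2]
      exact Prod.ext (mul_self_eq_zero.1 a1) (mul_self_eq_zero.1 a2)
    refine ⟨(-r'.1 / dp r'.2 r'.2) • r'.2, ?_⟩
    simp only [af, dp_smul]
    field_simp
    ring
  -- move the chart
  have hch' := chart_tr y j n0 p1 p2 ξ hch
  have D' := PD_tr y j n0 p1 p2 ξ D
  have hβ : ∀ i, 0 < dp r'.2 (v i - ξ) := by
    intro i
    have h1 := hr' i
    rw [← af_tr r' ξ _ hξ] at h1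
    simpa only [af, zero_add] using h1
  have hraw := hRAW N ε hε0 hε1 hLI ι hcard y w hg hwm hEn j _ p1 p2 hch' n ν _ ℓ c kk D'
    r'.2 hβ
  -- the loads
  have eb : ∀ i, Fb y j (chp n0 p1 p2 1 ξ) (kk i) = c i * dp (ν i) (v i - ξ) := fun i => D'.hb i
  have f1 : (fun i => Fe y j (chp n0 p1 p2 1 ξ) w (kk i) / c i) =
      fun i => dp (ν i) (v i - ξ) - δ i := by
    funext i
    have e : Fe y j (chp n0 p1 p2 1 ξ) w (kk i) = Fb y j (chp n0 p1 p2 1 ξ) (kk i) - t i := by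
      simp only [Fe, Fb, ht, hwj]; ring
    have := (D.cpos i).ne'
    rw [e, eb]
    simp only [hδ]
    field_simp
  have f2 : (fun i => Fe y j (chp n0 p1 p2 1 ξ) (fun i => w i ^ 2) (kk i) / c i) =
      fun i => dp (ν i) (v i - ξ) - (2 * δ i - δ i * t i) := by
    funext i
    have e : Fe y j (chp n0 p1 p2 1 ξ) (fun i => w i ^ 2) (kk i) =
        Fb y j (chp n0 p1 p2 1 ξ) (kk i) - (2 * t i - t i * t i) := by
      simp only [Fe, Fb, ht, hwj]; ring
    have := (D.cpos i).ne'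
    rw [e, eb]
    simp only [hδ]
    field_simp
  rw [f1, f2, J2_tr r' ξ hξ, J1_tr r' ξ hξ] at hraw
  -- Euler relations
  obtain ⟨-, -, -, q4, -, q6, q7, -⟩ := hPEU n ν v ℓ P
  have pb : ∀ i, (fun i => dp (ν i) (v i - ξ)) (i + n) = (fun i => dp (ν i) (v i - ξ)) i := by
    intro i
    simp only [P.pν, P.pv]
  have g1 := q4 ξ r'
  have g2 := q7 ξ r' δ pδ
  have g3 := q7 ξ r' (fun i => dp (ν i) (v i - ξ)) pb
  have g4 := q6 r' δ (fun i => dp (ν i) (v i - ξ)) pδ pb
  rw [hξ] at g1 g2 g3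
  have k1 : J2 n ν v ℓ r' (fun i => dp (ν i) (v i - ξ) - δ i) =
      6 * J0 n v r' - 4 * J1 n v ℓ r' δ + J2 n ν v ℓ r' δ := by
    rw [J2, B2_sub_left, B2_sub_right, B2_sub_right, J2, g3, ← g4, g2, g1]
    ring
  have k2 : J1 n v ℓ r' (fun i => dp (ν i) (v i - ξ) - (2 * δ i - δ i * t i)) =
      3 * J0 n v r' - 2 * J1 n v ℓ r' δ + T1 n v ℓ r' δ t := by
    rw [J1_sub, g1]
    have : J1 n v ℓ r' (fun i => 2 * δ i - δ i * t i) =
        2 * J1 n v ℓ r' δ - T1 n v ℓ r' δ t := by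
      simp only [J1, T1, Finset.mul_sum, ← Finset.sum_sub_distrib]
      exact Finset.sum_congr rfl fun i _ => by ring
    rw [this]
    ring
  rw [k1, k2] at hraw
  linarith

end Pool.G1
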