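import Pool.Agent.Work.MP_b5407d_g1.Interface

/-!
# G1, block LIN: the line formula
-/

set_option autoImplicit false

open MeasureTheory Set Filter Topology

namespace Pool.G1

open Pool.T3 (R3 dt cr de K V S H Fam Pos pt Lam Q J lin)

namespace LINaux

lemma dt_add_left (a b c : R3) : dt (a + b) c = dt a c + dt b c := by
  simp only [dt, Pi.add_apply]; ring
lemma dt_sub_left (a b c : R3) : dt (a - b) c = dt a c - dt b c := by
  simp only [dt, Pi.sub_apply]; ring
lemma dt_neg_left (a c : R3) : dt (-a) c = -dt a c := by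
  simp only [dt, Pi.neg_apply]; ring
lemma dt_neg_right (a c : R3) : dt a (-c) = -dt a c := by
  simp only [dt, Pi.neg_apply]; ring
lemma dt_smul_left (t : ℝ) (a c : R3) : dt (t • a) c = t * dt a c := by
  simp only [dt, Pi.smul_apply, smul_eq_mul]; ring

/-- relative sign -/
noncomputable def sg {ι : Type} (P P' : ι × Bool) : ℝ := if P.2 = P'.2 then 1 else -1

variable {ι : Type} [Fintype ι] (y : ι → R3) (w : ι → ℝ) (b1 b2 a : R3)

/-- the set of lines through the wall between `P` and `P'` -/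
def AA' (P P' : ι × Bool) : Set (ℝ × ℝ) :=
  {z : ℝ × ℝ | ∃ t : ℝ, lnp b1 b2 a z t ∈ KK y ∧ act y P (lnp b1 b2 a z t) ∧
      act y P' (lnp b1 b2 a z t)}

/-- the set of `WAL` -/
def WW (i k : ι) (s : ℝ) : Set (ℝ × ℝ) :=
  {z | ∃ t : ℝ, dt (y i) (lnp b1 b2 a z t) = s * dt (y k) (lnp b1 b2 a z t) ∧
      (∀ m, |dt (y m) (lnp b1 b2 a z t)| ≤ dt (y i) (lnp b1 b2 a z t)) ∧
      dt (y i) (lnp b1 b2 a z t) ≤ 1}

omit [Fintype ι] in
lemma pt_iff (i k : ι) (b : Bool) (x : R3) :
    (x ∈ KK y ∧ act y (i, true) x ∧ act y (k, b) x) ↔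
      (dt (y i) x = sg (i, true) (k, b) * dt (y k) x ∧ (∀ m, |dt (y m) x| ≤ dt (y i) x) ∧
        dt (y i) x ≤ 1) := by
  have hs : dt (sy y (k, b)) x = sg (i, true) (k, b) * dt (y k) x := by
    cases b
    · simp only [sy, sg]
      rw [if_neg (by simp), if_neg (by simp), dt_neg_left]
      ring
    · simp only [sy, sg, if_true]
      ring
  have hi : dt (sy y (i, true)) x = dt (y i) x := by simp only [sy, if_true]
  have habs : sg (i, true) (k, b) * dt (y k) x ≤ |dt (y k) x| := by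
    cases b
    · simp only [sg]
      rw [if_neg (by simp)]
      linarith [neg_abs_le (dt (y k) x)]
    · simp only [sg, if_true]
      linarith [le_abs_self (dt (y k) x)]
  constructor
  · rintro ⟨hK, h1, h2⟩
    have h1' : ∀ l, |dt (y l) x| ≤ dt (y i) x := fun l => by rw [← hi]; exact h1 l
    have h2' : ∀ l, |dt (y l) x| ≤ sg (i, true) (k, b) * dt (y k) x :=
      fun l => by rw [← hs]; exact h2 l
    refine ⟨?_, h1', ?_⟩
    · exact le_antisymm (le_trans (le_abs_self _) (h2' i)) (le_trans habs (h1' k))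
    · exact le_trans (le_abs_self _) (hK i)
  · rintro ⟨h1, h2, h3⟩
    refine ⟨fun l => le_trans (h2 l) h3, fun l => ?_, fun l => ?_⟩
    · rw [hi]; exact h2 l
    · rw [hs, ← h1]; exact h2 l

omit [Fintype ι] in
lemma set_true (i k : ι) (b : Bool) :
    AA' y b1 b2 a (i, true) (k, b) = WW y b1 b2 a i k (sg (i, true) (k, b)) := by
  ext z
  exact exists_congr (fun t => pt_iff y i k b _)

omit [Fintype ι] in
lemma act_neg (P : ι × Bool) (x : R3) : act y (P.1, !P.2) (-x) ↔ act y P x := by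
  obtain ⟨i, b⟩ := P
  refine forall_congr' (fun l => ?_)
  rw [dt_neg_right, abs_neg]
  have : dt (sy y (i, !b)) (-x) = dt (sy y (i, b)) x := by
    rw [dt_neg_right]
    cases b <;> simp [sy, dt_neg_left]
  rw [this]

lemma lnp_neg (z : ℝ × ℝ) (t : ℝ) : lnp b1 b2 a (-z) (-t) = -lnp b1 b2 a z t := by
  unfold lnp
  simp only [Prod.fst_neg, Prod.snd_neg, neg_smul, neg_add_rev]
  abel

omit [Fintype ι] in
lemma KK_neg (x : R3) (h : x ∈ KK y) : -x ∈ KK y := by
  intro l
  have := h l
  rwa [dt_neg_right, abs_neg]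

omit [Fintype ι] in
lemma set_neg (P P' : ι × Bool) :
    AA' y b1 b2 a P P' = -(AA' y b1 b2 a (P.1, !P.2) (P'.1, !P'.2)) := by
  ext z
  rw [Set.mem_neg]
  constructor
  · rintro ⟨t, h1, h2, h3⟩
    refine ⟨-t, ?_, ?_, ?_⟩
    · rw [lnp_neg]; exact KK_neg y _ h1
    · rw [lnp_neg]; exact (act_neg y P _).2 h2
    · rw [lnp_neg]; exact (act_neg y P' _).2 h3
  · rintro ⟨t, h1, h2, h3⟩
    have e : lnp b1 b2 a (-z) t = -lnp b1 b2 a z (-t) := by
      rw [← lnp_neg b1 b2 a z (-t), neg_neg]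
    rw [e] at h1 h2 h3
    refine ⟨-t, ?_, (act_neg y P _).1 h2, (act_neg y P' _).1 h3⟩
    have := KK_neg y _ h1
    rwa [neg_neg] at this

omit [Fintype ι] in
lemma sg_neg (P P' : ι × Bool) : sg (P.1, !P.2) (P'.1, !P'.2) = sg P P' := by
  obtain ⟨i, b⟩ := P
  obtain ⟨k, b'⟩ := P'
  cases b <;> cases b' <;> simp [sg]

/-- compactness and area of the sets -/
lemma set_props (hWAL : Stmt_WAL) (hN : Npb y) (hde : |de b1 b2 a| = 1) (P P' : ι × Bool)
    (hne : P.1 ≠ P'.1) : IsCompact (AA' y b1 b2 a P P') ∧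
      (volume (AA' y b1 b2 a P P')).toReal =
        1 / 2 * Lam y P.1 P'.1 1 (sg P P') (fun _ => (1 : ℝ)) * |dt (sy y P - sy y P') a| := by
  have key : ∀ (i k : ι) (b : Bool), i ≠ k → IsCompact (AA' y b1 b2 a (i, true) (k, b)) ∧
      (volume (AA' y b1 b2 a (i, true) (k, b))).toReal =
        1 / 2 * Lam y i k 1 (sg (i, true) (k, b)) (fun _ => (1 : ℝ)) *
          |dt (sy y (i, true) - sy y (k, b)) a| := by
    intro i k b hik
    have hs : sg (i, true) (k, b) = 1 ∨ sg (i, true) (k, b) = -1 := by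
      unfold sg; split_ifs
      · exact Or.inl rfl
      · exact Or.inr rfl
    have h := hWAL ι y hN i k hik _ hs b1 b2 a hde
    rw [set_true]
    refine ⟨h.1, h.2.trans ?_⟩
    congr 2
    have e0 : sy y (i, true) = y i := by simp [sy]
    cases b
    · have e1 : sy y (k, false) = -(y k) := by simp [sy]
      have e2 : sg (i, true) (k, false) = -1 := by simp [sg]
      rw [e0, e1, e2, dt_sub_left, dt_sub_left, dt_smul_left, dt_neg_left]
      ring
    · have e1 : sy y (k, true) = y k := by simp [sy]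
      have e2 : sg (i, true) (k, true) = 1 := by simp [sg]
      rw [e0, e1, e2, dt_sub_left, dt_sub_left, dt_smul_left, one_mul]
  obtain ⟨i, b⟩ := P
  obtain ⟨k, b'⟩ := P'
  cases b
  · have h := key i k (!b') hne
    rw [set_neg]
    refine ⟨h.1.neg, ?_⟩
    rw [Measure.measure_neg]
    refine h.2.trans ?_
    have e1 : sg (i, true) (k, !b') = sg (i, false) (k, b') := sg_neg (i, false) (k, b')
    rw [e1]
    congr 1
    have e2 : dt (sy y (i, true) - sy y (k, !b')) a = -dt (sy y (i, false) - sy y (k, b')) a := by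
      rw [dt_sub_left, dt_sub_left]
      cases b' <;> simp [sy, dt_neg_left] <;> ring
    rw [e2, abs_neg]
  · exact key i k b' hne

/-- the terms of `EL` -/
noncomputable def tm (P P' : ι × Bool) : (ℝ × ℝ) → ℝ :=
  (AA' y b1 b2 a P P').indicator
    (fun _ => (w P.1 - w P'.1) ^ 2 / |dt (sy y P - sy y P') a|)

/-- their integrals -/
noncomputable def T0 (P P' : ι × Bool) : ℝ :=
  1 / 2 * Lam y P.1 P'.1 1 (sg P P') (fun _ => (1 : ℝ)) * (w P.1 - w P'.1) ^ 2

omit [Fintype ι] in
lemma T0_nonneg (P P' : ι × Bool) : 0 ≤ T0 y w P P' := by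
  unfold T0 Lam
  positivity

lemma tm_props (hWAL : Stmt_WAL) (hN : Npb y) (hde : |de b1 b2 a| = 1) (P P' : ι × Bool) :
    Measurable (tm y w b1 b2 a P P') ∧ Integrable (tm y w b1 b2 a P P') ∧
      (∫ z, tm y w b1 b2 a P P' z) ≤ T0 y w P P' ∧
      ((P.1 ≠ P'.1 → dt (sy y P - sy y P') a ≠ 0) →
        (∫ z, tm y w b1 b2 a P P' z) = T0 y w P P') := by
  by_cases hne : P.1 = P'.1
  · have h0 : tm y w b1 b2 a P P' = fun _ => 0 := by
      unfold tm
      rw [hne]
      simp
    have hT : T0 y w P P' = 0 := by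
      unfold T0
      rw [hne]
      simp
    rw [h0, hT]
    refine ⟨measurable_const, integrable_zero _ _ _, ?_, fun _ => ?_⟩ <;> simp
  · obtain ⟨hcpt, hvol⟩ := set_props y b1 b2 a hWAL hN hde P P' hne
    have hmeas : MeasurableSet (AA' y b1 b2 a P P') := hcpt.measurableSet
    have hfin : volume (AA' y b1 b2 a P P') ≠ ⊤ := hcpt.measure_lt_top.ne
    have hint : (∫ z, tm y w b1 b2 a P P' z) =
        (volume (AA' y b1 b2 a P P')).toReal *
          ((w P.1 - w P'.1) ^ 2 / |dt (sy y P - sy y P') a|) := by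
      unfold tm
      rw [integral_indicator hmeas, setIntegral_const, smul_eq_mul]
      rfl
    have heq : dt (sy y P - sy y P') a ≠ 0 →
        (∫ z, tm y w b1 b2 a P P' z) = T0 y w P P' := by
      intro hD
      have hD' : |dt (sy y P - sy y P') a| ≠ 0 := abs_ne_zero.2 hD
      rw [hint, hvol]
      unfold T0
      field_simp
    refine ⟨measurable_const.indicator hmeas, ?_, ?_, fun h => heq (h hne)⟩
    · unfold tm
      exact (integrable_indicator_iff hmeas).2 (integrableOn_const hfin)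
    · by_cases hD : dt (sy y P - sy y P') a = 0
      · rw [hint, hD, abs_zero, div_zero, mul_zero]
        exact T0_nonneg y w P P'
      · exact (heq hD).le

lemma EL_eq : EL y w b1 b2 a =
    fun z => 1 / 2 * ∑ P : ι × Bool, ∑ P' : ι × Bool, tm y w b1 b2 a P P' z := rfl

lemma sum_T0 : ∑ P : ι × Bool, ∑ P' : ι × Bool, T0 y w P P' = En y w := by
  unfold En
  rw [Fintype.sum_prod_type, Finset.mul_sum]
  refine Finset.sum_congr rfl (fun i _ => ?_)
  rw [Fintype.sum_bool, Fintype.sum_prod_type, Fintype.sum_prod_type, ← Finset.sum_add_distrib,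
    Finset.mul_sum]
  refine Finset.sum_congr rfl (fun k _ => ?_)
  rw [Fintype.sum_bool, Fintype.sum_bool]
  unfold T0 cc
  have e1 : sg (i, true) (k, true) = 1 := by simp [sg]
  have e2 : sg (i, true) (k, false) = -1 := by simp [sg]
  have e3 : sg (i, false) (k, true) = -1 := by simp [sg]
  have e4 : sg (i, false) (k, false) = 1 := by simp [sg]
  rw [e1, e2, e3, e4]
  ring

end LINaux

open LINaux in
/-- the line formula -/
theorem blk_LIN (hWAL : Stmt_WAL) : Stmt_LIN := by
  intro ι _ y hN w b1 b2 a hde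
  have hp := fun P P' => tm_props y w b1 b2 a hWAL hN hde P P'
  have hmeas : Measurable (EL y w b1 b2 a) := by
    rw [EL_eq]
    refine Measurable.const_mul ?_ _
    exact Finset.measurable_sum _ (fun P _ => Finset.measurable_sum _ (fun P' _ => (hp P P').1))
  have hi1 : ∀ P : ι × Bool, Integrable (fun z => ∑ P' : ι × Bool, tm y w b1 b2 a P P' z) :=
    fun P => integrable_finsetSum _ (fun P' _ => (hp P P').2.1)
  have hi2 : Integrable
      (fun z => ∑ P : ι × Bool, ∑ P' : ι × Bool, tm y w b1 b2 a P P' z) :=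
    integrable_finsetSum _ (fun P _ => hi1 P)
  have hint : 2 * (∫ z, EL y w b1 b2 a z) =
      ∑ P : ι × Bool, ∑ P' : ι × Bool, ∫ z, tm y w b1 b2 a P P' z := by
    rw [EL_eq, integral_const_mul, integral_finsetSum _ (fun P _ => hi1 P)]
    have : ∀ P : ι × Bool, (∫ z, ∑ P' : ι × Bool, tm y w b1 b2 a P P' z) =
        ∑ P' : ι × Bool, ∫ z, tm y w b1 b2 a P P' z :=
      fun P => integral_finsetSum _ (fun P' _ => (hp P P').2.1)
    rw [Finset.sum_congr rfl (fun P _ => this P)]
    ring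
  refine ⟨hmeas, ?_, ?_, ?_⟩
  · rw [EL_eq]
    exact hi2.const_mul _
  · rw [hint, ← sum_T0]
    exact Finset.sum_le_sum (fun P _ => Finset.sum_le_sum (fun P' _ => (hp P P').2.2.1))
  · intro hD
    rw [hint, ← sum_T0]
    exact (Finset.sum_congr rfl (fun P _ => Finset.sum_congr rfl
      (fun P' _ => (hp P P').2.2.2 (hD P P')))).symm

end Pool.G1
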