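import Pool.Agent.Work.MP_b5407d_g1.Interface

/-!
# G1: block LL1 (one-dimensional lower semicontinuity)
-/

set_option autoImplicit false

open MeasureTheory Set Filter Topology

namespace Pool.G1

open Classical in
/-- the energy as a sum over the pairs with increasing slopes -/
lemma ll1_E1_eq {κ : Type} [Fintype κ] (p q w : κ → ℝ) :
    E1 p q w = ∑ c ∈ (Finset.univ : Finset (κ × κ)).filter
      (fun c => q c.1 < q c.2 ∧ ∃ t : ℝ, ac p q c.1 t ∧ ac p q c.2 t ∧ p c.1 + q c.1 * t ≤ 1),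
      (w c.1 - w c.2) ^ 2 / (q c.2 - q c.1) := by
  have hsym : ∀ P P' : κ, (∃ t : ℝ, ac p q P t ∧ ac p q P' t ∧ p P + q P * t ≤ 1) →
      (∃ t : ℝ, ac p q P' t ∧ ac p q P t ∧ p P' + q P' * t ≤ 1) := by
    rintro P P' ⟨t, h1, h2, h3⟩
    exact ⟨t, h2, h1, (h1 P').trans h3⟩
  rw [Finset.sum_filter, ← Finset.univ_product_univ, Finset.sum_product]
  unfold E1
  have key : ∀ P P' : κ, (if ∃ t : ℝ, ac p q P t ∧ ac p q P' t ∧ p P + q P * t ≤ 1 then
      (w P - w P') ^ 2 / |q P - q P'| else 0) =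
      (if q P < q P' ∧ ∃ t : ℝ, ac p q P t ∧ ac p q P' t ∧ p P + q P * t ≤ 1 then
        (w P - w P') ^ 2 / (q P' - q P) else 0) +
      (if q P' < q P ∧ ∃ t : ℝ, ac p q P' t ∧ ac p q P t ∧ p P' + q P' * t ≤ 1 then
        (w P' - w P) ^ 2 / (q P - q P') else 0) := by
    intro P P'
    by_cases hB : ∃ t : ℝ, ac p q P t ∧ ac p q P' t ∧ p P + q P * t ≤ 1
    · have hB' := hsym P P' hB
      rw [if_pos hB]
      rcases lt_trichotomy (q P) (q P') with h | h | h
      · rw [if_pos ⟨h, hB⟩, if_neg (fun hh => absurd hh.1 (not_lt.mpr h.le)), add_zero,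
          abs_sub_comm, abs_of_pos (sub_pos.mpr h)]
      · rw [if_neg (fun hh => absurd hh.1 (not_lt.mpr h.ge)),
          if_neg (fun hh => absurd hh.1 (not_lt.mpr h.le)), h]
        simp
      · rw [if_neg (fun hh => absurd hh.1 (not_lt.mpr h.le)), if_pos ⟨h, hB'⟩, zero_add,
          abs_of_pos (sub_pos.mpr h)]
        congr 1
        ring
    · rw [if_neg hB, if_neg (fun hh => hB hh.2), if_neg (fun hh => hB (hsym P' P hh.2)), add_zero]
  simp_rw [key, Finset.sum_add_distrib]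
  have hc : (∑ P : κ, ∑ P' : κ,
      (if q P' < q P ∧ ∃ t : ℝ, ac p q P' t ∧ ac p q P t ∧ p P' + q P' * t ≤ 1 then
        (w P' - w P) ^ 2 / (q P - q P') else 0)) =
      ∑ P : κ, ∑ P' : κ,
      (if q P < q P' ∧ ∃ t : ℝ, ac p q P t ∧ ac p q P' t ∧ p P + q P * t ≤ 1 then
        (w P - w P') ^ 2 / (q P' - q P) else 0) := Finset.sum_comm
  rw [hc]
  ring

/-- points of a full measure set in an interval -/
lemma ll1_dense {G : ℝ → Prop} (h : ∀ᵐ t : ℝ, G t) {a b : ℝ} (hab : a < b) :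
    ∃ t, a < t ∧ t < b ∧ G t := by
  by_contra hcon
  push Not at hcon
  have hsub : Ioo a b ⊆ {t | ¬ G t} := fun t ht => hcon t ht.1 ht.2
  have h0 : volume (Ioo a b) = 0 := measure_mono_null hsub (ae_iff.mp h)
  rw [Real.volume_Ioo] at h0
  have : b - a ≤ 0 := ENNReal.ofReal_eq_zero.mp h0
  linarith

/-- an active index exists -/
lemma ll1_exists_ac {κ : Type} [Fintype κ] [Nonempty κ] (p q : κ → ℝ) (t : ℝ) :
    ∃ R, ac p q R t := by
  obtain ⟨R, -, hR⟩ := Finset.exists_max_image (Finset.univ : Finset κ)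
    (fun R => p R + q R * t) Finset.univ_nonempty
  exact ⟨R, fun R' => hR R' (Finset.mem_univ _)⟩

open Classical in
/-- the energies of disjoint intervals add up to at most `E1` -/
lemma ll1_sum_EE {κ σ : Type} [Fintype κ] (p q w : κ → ℝ) (s : Finset σ) (t1 t2 : σ → ℝ)
    (hdis : ∀ c ∈ s, ∀ c' ∈ s, c ≠ c' → Disjoint (Icc (t1 c) (t2 c)) (Icc (t1 c') (t2 c')))
    (hv : ∀ c ∈ s, ∀ R, p R + q R * t1 c < 1 ∧ p R + q R * t2 c < 1) :
    ∑ c ∈ s, EE p q w (t1 c) (t2 c) ≤ E1 p q w := by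
  unfold EE E1
  rw [← Finset.mul_sum]
  refine mul_le_mul_of_nonneg_left ?_ (by norm_num)
  rw [Finset.sum_comm]
  refine Finset.sum_le_sum fun R _ => ?_
  rw [Finset.sum_comm]
  refine Finset.sum_le_sum fun R' _ => ?_
  set g := (w R - w R') ^ 2 / |q R - q R'| with hg
  have g0 : 0 ≤ g := by positivity
  by_cases hqq : q R = q R'
  · have : g = 0 := by rw [hg, hqq]; simp
    rw [this]; simp
  by_cases hex : ∃ c ∈ s, ∃ t ∈ Icc (t1 c) (t2 c), ac p q R t ∧ ac p q R' t
  · obtain ⟨c0, hc0, t, ht, hR, hR'⟩ := hex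
    have huniq : ∀ t', ac p q R t' → ac p q R' t' → t' = t := by
      intro t' h1 h2
      have e1 : p R + q R * t = p R' + q R' * t := le_antisymm (hR' R) (hR R')
      have e2 : p R + q R * t' = p R' + q R' * t' := le_antisymm (h2 R) (h1 R')
      have : (q R - q R') * (t' - t) = 0 := by linarith [mul_sub (q R - q R') t' t]
      rcases mul_eq_zero.mp this with h | h
      · exact absurd (sub_eq_zero.mp h) hqq
      · linarith
    have hval : p R + q R * t ≤ 1 := by
      have h1 := (hv c0 hc0 R).1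
      have h2 := (hv c0 hc0 R).2
      rcases le_total 0 (q R) with h | h
      · have := mul_le_mul_of_nonneg_left ht.2 h
        linarith
      · have := mul_le_mul_of_nonpos_left ht.1 h
        linarith
    rw [if_pos ⟨t, hR, hR', hval⟩]
    have hle : (∑ c ∈ s, if ∃ t ∈ Icc (t1 c) (t2 c), ac p q R t ∧ ac p q R' t then g else 0) ≤
        ∑ c ∈ s, if c = c0 then g else 0 := by
      refine Finset.sum_le_sum fun c hc => ?_
      by_cases hcc : c = c0
      · rw [if_pos hcc]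
        split_ifs <;> linarith
      · rw [if_neg hcc, if_neg]
        rintro ⟨t', ht', h1, h2⟩
        have := huniq t' h1 h2
        rw [this] at ht'
        exact (Set.disjoint_left.mp (hdis c hc c0 hc0 hcc)) ht' ht
    refine hle.trans ?_
    rw [Finset.sum_ite_eq' s c0 (fun _ => g), if_pos hc0]
  · have hz : (∑ c ∈ s, if ∃ t ∈ Icc (t1 c) (t2 c), ac p q R t ∧ ac p q R' t then g else 0) = 0 := by
      refine Finset.sum_eq_zero fun c hc => ?_
      rw [if_neg]
      intro h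
      exact hex ⟨c, hc, h⟩
    rw [hz]
    split_ifs <;> linarith

theorem blk_LL1 (hPA : Stmt_PA1) : Stmt_LL1 := by
  classical
  intro κ κ' _ _ _ p q W pn qn wn hinj tri ne1 hcol hslope hw η hη
  set PP := (Finset.univ : Finset (κ' × κ')).filter
      (fun c => q c.1 < q c.2 ∧ ∃ t : ℝ, ac p q c.1 t ∧ ac p q c.2 t ∧ p c.1 + q c.1 * t ≤ 1)
      with hPP
  have hE : E1 p q W = ∑ c ∈ PP, (W c.1 - W c.2) ^ 2 / (q c.2 - q c.1) := by
    rw [ll1_E1_eq]
  have hlt : ∀ c ∈ PP, q c.1 < q c.2 := fun c hc => (Finset.mem_filter.mp hc).2.1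
  have hne : ∀ c ∈ PP, c.1 ≠ c.2 := by
    intro c hc h
    have := hlt c hc
    rw [h] at this
    exact lt_irrefl _ this
  have h0 : ∀ c : κ' × κ', ∃ t : ℝ, c ∈ PP → ac p q c.1 t ∧ ac p q c.2 t ∧ p c.1 + q c.1 * t < 1 := by
    intro c
    by_cases hc : c ∈ PP
    · obtain ⟨t, h1, h2, h3⟩ := (Finset.mem_filter.mp hc).2.2
      exact ⟨t, fun _ => ⟨h1, h2, lt_of_le_of_ne h3 (ne1 _ _ t (hne c hc) h1 h2)⟩⟩
    · exact ⟨0, fun h => absurd h hc⟩
  choose t0 ht0 using h0
  have heq0 : ∀ c ∈ PP, p c.1 + q c.1 * t0 c = p c.2 + q c.2 * t0 c := fun c hc =>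
    le_antisymm ((ht0 c hc).2.1 c.1) ((ht0 c hc).1 c.2)
  -- distinct crossing points
  have hdist : ∀ c ∈ PP, ∀ c' ∈ PP, c ≠ c' → t0 c ≠ t0 c' := by
    intro c hc c' hc' hcc ht
    apply hcc
    have a1 := (ht0 c hc).1
    have a2 := (ht0 c hc).2.1
    have b1 := (ht0 c' hc').1
    have b2 := (ht0 c' hc').2.1
    rw [← ht] at b1 b2
    have n1 := hne c hc
    have n2 := hne c' hc'
    have l1 := hlt c hc
    have l2 := hlt c' hc'
    rcases tri c.1 c.2 c'.1 _ a1 a2 b1 with h | h | h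
    · exact absurd h n1
    · rcases tri c.1 c.2 c'.2 _ a1 a2 b2 with h' | h' | h'
      · exact absurd h' n1
      · exact absurd (h.symm.trans h') n2
      · exact Prod.ext h h'
    · rcases tri c.1 c.2 c'.2 _ a1 a2 b2 with h' | h' | h'
      · exact absurd h' n1
      · rw [← h, ← h'] at l2
        exact absurd l1 (not_lt.mpr l2.le)
      · exact absurd (h.symm.trans h') n2
  -- small neighbourhoods
  have hnb : ∀ c ∈ PP, ∀ᶠ t in 𝓝 (t0 c),
      (∀ R, R ≠ c.1 → R ≠ c.2 → p R + q R * t < p c.1 + q c.1 * t ∧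
        p R + q R * t < p c.2 + q c.2 * t) ∧ p c.1 + q c.1 * t < 1 ∧ p c.2 + q c.2 * t < 1 := by
    intro c hc
    have hcont : ∀ R : κ', ContinuousAt (fun t : ℝ => p R + q R * t) (t0 c) := fun R => by fun_prop
    have hstrict : ∀ R, R ≠ c.1 → R ≠ c.2 → p R + q R * t0 c < p c.1 + q c.1 * t0 c := by
      intro R h1 h2
      refine lt_of_le_of_ne ((ht0 c hc).1 R) ?_
      intro he
      have hR : ac p q R (t0 c) := by
        intro R'
        rw [he]
        exact (ht0 c hc).1 R'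
      rcases tri c.1 c.2 R _ (ht0 c hc).1 (ht0 c hc).2.1 hR with h | h | h
      · exact hne c hc h
      · exact h1 h.symm
      · exact h2 h.symm
    refine Filter.Eventually.and ?_ (Filter.Eventually.and ?_ ?_)
    · rw [Filter.eventually_all]
      intro R
      by_cases h1 : R = c.1
      · exact Filter.Eventually.of_forall fun t h => absurd h1 h
      by_cases h2 : R = c.2
      · exact Filter.Eventually.of_forall fun t _ h => absurd h2 h
      have e1 : ∀ᶠ t in 𝓝 (t0 c), p R + q R * t < p c.1 + q c.1 * t :=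
        (hcont R).eventually_lt (hcont c.1) (hstrict R h1 h2)
      have e2 : ∀ᶠ t in 𝓝 (t0 c), p R + q R * t < p c.2 + q c.2 * t :=
        (hcont R).eventually_lt (hcont c.2) (by rw [← heq0 c hc]; exact hstrict R h1 h2)
      filter_upwards [e1, e2] with t h h'
      exact fun _ _ => ⟨h, h'⟩
    · exact (hcont c.1).eventually_lt continuousAt_const (ht0 c hc).2.2
    · exact (hcont c.2).eventually_lt continuousAt_const (by rw [← heq0 c hc]; exact (ht0 c hc).2.2)
  -- a common radius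
  obtain ⟨δ, hδ0, hδ1, hδ2⟩ : ∃ δ : ℝ, 0 < δ ∧
      (∀ c ∈ PP, ∀ c' ∈ PP, c ≠ c' → 2 * δ < |t0 c - t0 c'|) ∧
      (∀ c ∈ PP, ∀ t, |t - t0 c| < δ →
        (∀ R, R ≠ c.1 → R ≠ c.2 → p R + q R * t < p c.1 + q c.1 * t ∧
        p R + q R * t < p c.2 + q c.2 * t) ∧ p c.1 + q c.1 * t < 1 ∧ p c.2 + q c.2 * t < 1) := by
    have ev1 : ∀ᶠ δ in 𝓝[>] (0 : ℝ), ∀ c ∈ PP, ∀ c' ∈ PP, c ≠ c' → 2 * δ < |t0 c - t0 c'| := by
      rw [Filter.eventually_all_finset]
      intro c hc
      rw [Filter.eventually_all_finset]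
      intro c' hc'
      by_cases hcc : c = c'
      · exact Filter.Eventually.of_forall fun _ h => absurd hcc h
      · have hpos : 0 < |t0 c - t0 c'| / 2 := by
          have := abs_pos.mpr (sub_ne_zero.mpr (hdist c hc c' hc' hcc))
          linarith
        filter_upwards [Ioo_mem_nhdsGT hpos] with δ hδ _
        linarith [hδ.2]
    have ev2 : ∀ᶠ δ in 𝓝[>] (0 : ℝ), ∀ c ∈ PP, ∀ t, |t - t0 c| < δ →
        (∀ R, R ≠ c.1 → R ≠ c.2 → p R + q R * t < p c.1 + q c.1 * t ∧
        p R + q R * t < p c.2 + q c.2 * t) ∧ p c.1 + q c.1 * t < 1 ∧ p c.2 + q c.2 * t < 1 := by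
      rw [Filter.eventually_all_finset]
      intro c hc
      obtain ⟨ε, hε, hh⟩ := Metric.eventually_nhds_iff.mp (hnb c hc)
      filter_upwards [Ioo_mem_nhdsGT hε] with δ hδ t ht
      exact hh (by rw [Real.dist_eq]; linarith [hδ.2])
    obtain ⟨δ, h1, h2, h3⟩ := (ev1.and (ev2.and self_mem_nhdsWithin)).exists
    exact ⟨δ, h3, h1, h2⟩
  -- the end points
  have hend : ∀ c : κ' × κ', ∃ t1 t2 : ℝ, c ∈ PP →
      (t0 c - δ < t1 ∧ t1 < t0 c ∧ t0 c < t2 ∧ t2 < t0 c + δ) ∧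
      (∀ η : ℝ, 0 < η → ∀ᶠ n in atTop, ∀ R : κ, ac (pn n) (qn n) R t1 →
        |qn n R - q c.1| < η ∧ pn n R + qn n R * t1 < 1 ∧ |wn n R - W c.1| < η) ∧
      (∀ η : ℝ, 0 < η → ∀ᶠ n in atTop, ∀ R : κ, ac (pn n) (qn n) R t2 →
        |qn n R - q c.2| < η ∧ pn n R + qn n R * t2 < 1 ∧ |wn n R - W c.2| < η) := by
    intro c
    by_cases hc : c ∈ PP
    swap
    · exact ⟨0, 0, fun h => absurd h hc⟩
    obtain ⟨t1, ha1, hb1, hG1⟩ := ll1_dense hw (show t0 c - δ < t0 c by linarith)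
    obtain ⟨t2, ha2, hb2, hG2⟩ := ll1_dense hw (show t0 c < t0 c + δ by linarith)
    refine ⟨t1, t2, fun _ => ⟨⟨ha1, hb1, ha2, hb2⟩, ?_, ?_⟩⟩
    · have hn := hδ2 c hc t1 (by rw [abs_lt]; constructor <;> linarith)
      have huniq : ∀ P', P' ≠ c.1 → p P' + q P' * t1 < p c.1 + q c.1 * t1 := by
        intro P' hP'
        by_cases h2 : P' = c.2
        · rw [h2]
          have := heq0 c hc
          have := hlt c hc
          nlinarith
        · exact (hn.1 P' hP' h2).1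
      intro η hη
      filter_upwards [hslope c.1 t1 huniq hn.2.1 η hη, hG1 c.1 huniq hn.2.1 η hη] with n h1 h2 R hR
      exact ⟨(h1 R hR).1, (h1 R hR).2, h2 R hR⟩
    · have hn := hδ2 c hc t2 (by rw [abs_lt]; constructor <;> linarith)
      have huniq : ∀ P', P' ≠ c.2 → p P' + q P' * t2 < p c.2 + q c.2 * t2 := by
        intro P' hP'
        by_cases h2 : P' = c.1
        · rw [h2]
          have := heq0 c hc
          have := hlt c hc
          nlinarith
        · exact (hn.1 P' h2 hP').2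
      intro η hη
      filter_upwards [hslope c.2 t2 huniq hn.2.2 η hη, hG2 c.2 huniq hn.2.2 η hη] with n h1 h2 R hR
      exact ⟨(h1 R hR).1, (h1 R hR).2, h2 R hR⟩
  choose t1 t2 ht using hend
  set m : ℝ := (PP.card : ℝ) + 1 with hm
  have hm0 : 0 < m := by positivity
  -- each interval
  have hint : ∀ c ∈ PP, ∀ᶠ n in atTop,
      (W c.1 - W c.2) ^ 2 / (q c.2 - q c.1) - η / m ≤ EE (pn n) (qn n) (wn n) (t1 c) (t2 c) ∧
      (∀ R, pn n R + qn n R * t1 c < 1 ∧ pn n R + qn n R * t2 c < 1) := by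
    intro c hc
    set a := W c.1 - W c.2 with ha
    set d := q c.2 - q c.1 with hd
    have hd0 : 0 < d := sub_pos.mpr (hlt c hc)
    have hcont : ContinuousAt (fun z : ℝ × ℝ => z.1 ^ 2 / z.2) (a, d) := by
      apply ContinuousAt.div
      · fun_prop
      · fun_prop
      · exact hd0.ne'
    have hev : ∀ᶠ z : ℝ × ℝ in 𝓝 (a, d), a ^ 2 / d - η / m < z.1 ^ 2 / z.2 ∧ 0 < z.2 := by
      have hem : 0 < η / m := div_pos hη hm0
      refine Filter.Eventually.and ?_ ?_
      · exact continuousAt_const.eventually_lt hcont (by show a ^ 2 / d - η / m < a ^ 2 / d; linarith)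
      · exact continuousAt_const.eventually_lt continuousAt_snd hd0
    obtain ⟨ε, hε, hh⟩ := Metric.eventually_nhds_iff.mp hev
    obtain ⟨-, hA, hB⟩ := ht c hc
    filter_upwards [hA (ε / 2) (by linarith), hB (ε / 2) (by linarith)] with n h1 h2
    obtain ⟨R1, hR1⟩ := ll1_exists_ac (pn n) (qn n) (t1 c)
    obtain ⟨R2, hR2⟩ := ll1_exists_ac (pn n) (qn n) (t2 c)
    have g1 := h1 R1 hR1
    have g2 := h2 R2 hR2
    have hz := @hh (wn n R1 - wn n R2, qn n R2 - qn n R1) (by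
      rw [Prod.dist_eq, max_lt_iff, Real.dist_eq, Real.dist_eq]
      constructor
      · have h3 := abs_lt.mp g1.2.2
        have h4 := abs_lt.mp g2.2.2
        rw [abs_lt]
        constructor <;> simp only [ha] <;> linarith
      · have h3 := abs_lt.mp g1.1
        have h4 := abs_lt.mp g2.1
        rw [abs_lt]
        constructor <;> simp only [hd] <;> linarith)
    have hpos : 0 < qn n R2 - qn n R1 := hz.2
    have hPA1 := hPA κ (pn n) (qn n) (wn n) (hcol n) (t1 c) (t2 c)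
      (by have := (ht c hc).1; linarith) R1 R2 hR1 hR2 (by linarith)
    refine ⟨?_, fun R => ⟨lt_of_le_of_lt (hR1 R) g1.2.1, lt_of_le_of_lt (hR2 R) g2.2.1⟩⟩
    have : (wn n R1 - wn n R2) ^ 2 / (qn n R2 - qn n R1) ≤ EE (pn n) (qn n) (wn n) (t1 c) (t2 c) := by
      rw [div_le_iff₀ hpos]
      linarith
    have hz1 := hz.1
    simp only at hz1
    linarith
  have hall : ∀ᶠ n in atTop, ∀ c ∈ PP,
      (W c.1 - W c.2) ^ 2 / (q c.2 - q c.1) - η / m ≤ EE (pn n) (qn n) (wn n) (t1 c) (t2 c) ∧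
      (∀ R, pn n R + qn n R * t1 c < 1 ∧ pn n R + qn n R * t2 c < 1) := by
    rw [Filter.eventually_all_finset]
    exact hint
  filter_upwards [hall] with n hn
  have hsum := ll1_sum_EE (pn n) (qn n) (wn n) PP t1 t2 (by
    intro c hc c' hc' hcc
    have h1 := (ht c hc).1
    have h2 := (ht c' hc').1
    have h3 := hδ1 c hc c' hc' hcc
    rw [Set.disjoint_left]
    intro t h4 h5
    have : |t0 c - t0 c'| ≤ 2 * δ := by
      rw [abs_le]
      constructor <;> linarith [h4.1, h4.2, h5.1, h5.2]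
    linarith) (fun c hc => (hn c hc).2)
  have hlow : ∑ c ∈ PP, ((W c.1 - W c.2) ^ 2 / (q c.2 - q c.1) - η / m) ≤
      ∑ c ∈ PP, EE (pn n) (qn n) (wn n) (t1 c) (t2 c) :=
    Finset.sum_le_sum fun c hc => (hn c hc).1
  rw [Finset.sum_sub_distrib, ← hE, Finset.sum_const, nsmul_eq_mul] at hlow
  have hle : (PP.card : ℝ) * (η / m) ≤ η := by
    rw [mul_div_assoc', div_le_iff₀ hm0, hm]
    nlinarith
  linarith

end Pool.G1
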