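import Pool.Agent.Work.MP_b5407d_g1.InterfaceH
import Pool.Agent.Work.MP_b5407d_t3.FIN3

/-!
# G1, block `LOG` (helper41): the logarithmic Brunn-Minkowski inequality as the limit `p → 0`
-/

set_option autoImplicit false

open MeasureTheory Set Filter Topology

namespace Pool.G1

open Pool.Agent.Work.LPBM (E supp Wulff CBody mp Span Pset)

namespace LOG

/-- the exponents -/
noncomputable def pn (n : ℕ) : ℝ := 1 / ((n : ℝ) + 2)

theorem pn_pos (n : ℕ) : 0 < pn n := by unfold pn; positivity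

theorem pn_lt (n : ℕ) : pn n < 1 := by
  unfold pn
  rw [div_lt_one (by positivity)]
  have : (0 : ℝ) ≤ n := Nat.cast_nonneg n
  linarith

theorem pn_anti {m n : ℕ} (h : m ≤ n) : pn n ≤ pn m := by
  unfold pn
  apply one_div_le_one_div_of_le (by positivity)
  have : (m : ℝ) ≤ n := by exact_mod_cast h
  linarith

theorem pn_tendsto : Tendsto pn atTop (𝓝[≠] 0) := by
  rw [tendsto_nhdsWithin_iff]
  refine ⟨?_, Eventually.of_forall fun n => (pn_pos n).ne'⟩
  unfold pn
  have h : Tendsto (fun n : ℕ => (n : ℝ) + 2) atTop atTop :=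
    tendsto_atTop_add_const_right _ _ tendsto_natCast_atTop_atTop
  exact h.inv_tendsto_atTop.congr fun n => (one_div _).symm

theorem S_pos {p t a b : ℝ} (ht : t ∈ Icc (0 : ℝ) 1) (ha : 0 < a) (hb : 0 < b) :
    0 < (1 - t) * a ^ p + t * b ^ p := by
  have h1 := Real.rpow_pos_of_pos ha p
  have h2 := Real.rpow_pos_of_pos hb p
  rcases ht.1.lt_or_eq with h | h
  · have := mul_pos h h2
    have := mul_nonneg (sub_nonneg.2 ht.2) h1.le
    linarith
  · rw [← h]; simpa using h1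

/-- the power means decrease to the geometric mean -/
theorem mp_tendsto {t a b : ℝ} (ht : t ∈ Icc (0 : ℝ) 1) (ha : 0 < a) (hb : 0 < b) :
    Tendsto (fun n : ℕ => mp (pn n) t a b) atTop (𝓝 (a ^ (1 - t) * b ^ t)) := by
  set f : ℝ → ℝ := fun p => Real.log ((1 - t) * a ^ p + t * b ^ p) with hf
  have hd : HasDerivAt f ((1 - t) * Real.log a + t * Real.log b) 0 := by
    have h1 : HasDerivAt (fun p : ℝ => a ^ p) (Real.log a) 0 := by
      have := Real.hasStrictDerivAt_const_rpow ha (0 : ℝ)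
      simpa using this.hasDerivAt
    have h2 : HasDerivAt (fun p : ℝ => b ^ p) (Real.log b) 0 := by
      have := Real.hasStrictDerivAt_const_rpow hb (0 : ℝ)
      simpa using this.hasDerivAt
    have h3 := ((h1.const_mul (1 - t)).add (h2.const_mul t))
    have h4 : (1 - t) * a ^ (0 : ℝ) + t * b ^ (0 : ℝ) ≠ 0 := (S_pos ht ha hb).ne'
    have h5 : HasDerivAt f (((1 - t) * Real.log a + t * Real.log b) /
        ((1 - t) * a ^ (0 : ℝ) + t * b ^ (0 : ℝ))) 0 := h3.log h4
    have h6 : ((1 - t) * Real.log a + t * Real.log b) / ((1 - t) * a ^ (0 : ℝ) + t * b ^ (0 : ℝ)) =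
        (1 - t) * Real.log a + t * Real.log b := by
      rw [Real.rpow_zero, Real.rpow_zero]
      have : (1 - t) * (1 : ℝ) + t * 1 = 1 := by ring
      rw [this, div_one]
    rw [h6] at h5
    exact h5
  have hs := (hasDerivAt_iff_tendsto_slope_zero.1 hd).comp pn_tendsto
  have he := (Real.continuous_exp.tendsto _).comp hs
  have e1 : Real.exp ((1 - t) * Real.log a + t * Real.log b) = a ^ (1 - t) * b ^ t := by
    rw [Real.exp_add, Real.rpow_def_of_pos ha, Real.rpow_def_of_pos hb, mul_comm (1 - t),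
      mul_comm t]
  rw [e1] at he
  refine he.congr fun n => ?_
  have hS := S_pos (p := pn n) ht ha hb
  have hf0 : f 0 = 0 := by
    simp only [hf, Real.rpow_zero]
    have : (1 - t) * (1 : ℝ) + t * 1 = 1 := by ring
    rw [this, Real.log_one]
  simp only [Function.comp_apply, zero_add, hf0, sub_zero, smul_eq_mul]
  unfold mp
  rw [Real.rpow_def_of_pos hS, one_div, mul_comm]

theorem mp_mono {t a b q r : ℝ} (ht : t ∈ Icc (0 : ℝ) 1) (ha : 0 < a) (hb : 0 < b) (hq : 0 < q)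
    (hqr : q ≤ r) : mp q t a b ≤ mp r t a b := by
  have hr : 0 < r := hq.trans_le hqr
  have hSq := S_pos (p := q) ht ha hb
  have h1 : ((1 - t) * a ^ q + t * b ^ q) ^ (r / q) ≤ (1 - t) * a ^ r + t * b ^ r := by
    have h := (convexOn_rpow (p := r / q) ((one_le_div hq).2 hqr)).2
      (mem_Ici.2 (Real.rpow_pos_of_pos ha q).le) (mem_Ici.2 (Real.rpow_pos_of_pos hb q).le)
      (sub_nonneg.2 ht.2) ht.1 (by ring)
    simp only [smul_eq_mul] at h
    rw [← Real.rpow_mul ha.le, ← Real.rpow_mul hb.le, mul_div_cancel₀ _ hq.ne'] at h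
    exact h
  have h2 : (((1 - t) * a ^ q + t * b ^ q) ^ (r / q)) ^ (1 / r) =
      ((1 - t) * a ^ q + t * b ^ q) ^ (1 / q) := by
    rw [← Real.rpow_mul hSq.le]
    congr 1
    field_simp
  unfold mp
  rw [← h2]
  exact Real.rpow_le_rpow (Real.rpow_nonneg hSq.le _) h1 (by positivity)

theorem mp_le {t a b p R : ℝ} (ht : t ∈ Icc (0 : ℝ) 1) (ha : 0 < a) (hb : 0 < b) (hp : 0 < p)
    (haR : a ≤ R) (hbR : b ≤ R) : mp p t a b ≤ R := by
  have hR : 0 < R := ha.trans_le haR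
  have h1 : a ^ p ≤ R ^ p := Real.rpow_le_rpow ha.le haR hp.le
  have h2 : b ^ p ≤ R ^ p := Real.rpow_le_rpow hb.le hbR hp.le
  have h3 : (1 - t) * a ^ p + t * b ^ p ≤ R ^ p := by
    have := mul_le_mul_of_nonneg_left h1 (sub_nonneg.2 ht.2)
    have := mul_le_mul_of_nonneg_left h2 ht.1
    nlinarith
  unfold mp
  calc ((1 - t) * a ^ p + t * b ^ p) ^ (1 / p) ≤ (R ^ p) ^ (1 / p) :=
        Real.rpow_le_rpow (S_pos ht ha hb).le h3 (by positivity)
    _ = R := by rw [← Real.rpow_mul hR.le, mul_one_div_cancel hp.ne', Real.rpow_one]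

theorem closed_Wulff (M : E 3 → ℝ) : IsClosed (Wulff M) := by
  have : Wulff M = ⋂ u ∈ Metric.sphere (0 : E 3) 1, {x : E 3 | inner ℝ x u ≤ M u} := by
    ext x
    simp only [Wulff, mem_ofPred_eq, mem_iInter]
  rw [this]
  refine isClosed_biInter fun u _ => isClosed_le ?_ continuous_const
  exact continuous_id.inner continuous_const

theorem Wulff_bdd (M : E 3 → ℝ) (R : ℝ) (hR : 0 ≤ R) (h : ∀ u ∈ Metric.sphere (0 : E 3) 1, M u ≤ R) :
    Wulff M ⊆ Metric.closedBall (0 : E 3) R := by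
  intro x hx
  rw [mem_closedBall_zero_iff]
  by_cases hx0 : x = 0
  · rw [hx0, norm_zero]; exact hR
  have hn : 0 < ‖x‖ := norm_pos_iff.2 hx0
  have hu : (‖x‖⁻¹ • x) ∈ Metric.sphere (0 : E 3) 1 := by
    rw [mem_sphere_zero_iff_norm, norm_smul, norm_inv, norm_norm, inv_mul_cancel₀ hn.ne']
  have h1 := (hx _ hu).trans (h _ hu)
  rw [real_inner_smul_right, real_inner_self_eq_norm_sq] at h1
  have : ‖x‖⁻¹ * ‖x‖ ^ 2 = ‖x‖ := by field_simp
  linarith

theorem supp_le (K : Set (E 3)) (hK : IsCompact K) (hne : K.Nonempty) :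
    ∃ R : ℝ, 0 ≤ R ∧ ∀ u ∈ Metric.sphere (0 : E 3) 1, supp K u ≤ R := by
  obtain ⟨R, hR⟩ := hK.isBounded.subset_closedBall (0 : E 3)
  obtain ⟨x0, hx0⟩ := hne
  have hR0 : 0 ≤ R := by
    have := hR hx0
    rw [mem_closedBall_zero_iff] at this
    exact (norm_nonneg _).trans this
  refine ⟨R, hR0, fun u hu => ?_⟩
  unfold supp
  apply csSup_le ⟨_, mem_image_of_mem _ hx0⟩
  rintro _ ⟨x, hx, rfl⟩
  rw [mem_sphere_zero_iff_norm] at hu
  have h1 := hR hx
  rw [mem_closedBall_zero_iff] at h1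
  calc inner ℝ x u ≤ ‖x‖ * ‖u‖ := real_inner_le_norm x u
    _ = ‖x‖ := by rw [hu, mul_one]
    _ ≤ R := h1

end LOG

open LOG in
/-- block `LOG` -/
theorem blk_LOG : Stmt_LOG := by
  intro hG K C hK1 hK2 hK3 hKs hC1 hC2 hC3 hCs t ht
  have hCEN := Pool.Agent.Work.LPBM.helper23.stmt_CEN
  have hKb : CBody K := ⟨hK1, hK2, hK3, Pool.T3.FIN3_.sym_int hK2 hKs⟩
  have hCb : CBody C := ⟨hC1, hC2, hC3, Pool.T3.FIN3_.sym_int hC2 hCs⟩
  obtain ⟨hK0, hKpos, -, -, -, -⟩ := hCEN 3 K (by norm_num) hKb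
  obtain ⟨hC0, hCpos, -, -, -, -⟩ := hCEN 3 C (by norm_num) hCb
  have hsne : ∀ u ∈ Metric.sphere (0 : E 3) 1, u ≠ 0 := by
    intro u hu h
    rw [h] at hu
    simp at hu
  set c : ℝ := (volume K).toReal ^ (1 - t) * (volume C).toReal ^ t with hc
  set W : ℕ → Set (E 3) := fun n => Wulff (fun u => mp (pn n) t (supp K u) (supp C u)) with hW
  have hcW : ∀ n, c ≤ (volume (W n)).toReal := fun n =>
    hG (pn n) K C (pn_pos n) (pn_lt n) hKb hCb hKs hCs t ht
  obtain ⟨R1, hR1, hKR⟩ := supp_le K hK2 ⟨0, interior_subset hK0⟩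
  obtain ⟨R2, hR2, hCR⟩ := supp_le C hC2 ⟨0, interior_subset hC0⟩
  have hanti : Antitone W := by
    intro m n hmn x hx u hu
    exact (hx u hu).trans (mp_mono ht (hKpos u (hsne u hu)) (hCpos u (hsne u hu)) (pn_pos n)
      (pn_anti hmn))
  have hfin : volume (W 0) ≠ ⊤ := by
    refine ne_top_of_le_ne_top (isCompact_closedBall (0 : E 3) (max R1 R2)).measure_lt_top.ne
      (measure_mono (Wulff_bdd _ _ (hR1.trans (le_max_left _ _)) fun u hu => ?_))
    exact mp_le ht (hKpos u (hsne u hu)) (hCpos u (hsne u hu)) (pn_pos 0)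
      ((hKR u hu).trans (le_max_left _ _)) ((hCR u hu).trans (le_max_right _ _))
  have hlim := tendsto_measure_iInter_atTop (μ := (volume : Measure (E 3))) (s := W)
    (fun n => (closed_Wulff _).measurableSet.nullMeasurableSet) hanti ⟨0, hfin⟩
  have hfinI : volume (⋂ n, W n) ≠ ⊤ :=
    ne_top_of_le_ne_top hfin (measure_mono (iInter_subset _ 0))
  have hlim2 := (ENNReal.tendsto_toReal hfinI).comp hlim
  have hcI : c ≤ (volume (⋂ n, W n)).toReal := ge_of_tendsto' hlim2 hcW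
  have hsub : (⋂ n, W n) ⊆ {x : E 3 | ∀ u ∈ Metric.sphere (0 : E 3) 1,
      inner ℝ x u ≤ (supp K u) ^ (1 - t) * (supp C u) ^ t} := by
    intro x hx u hu
    rw [mem_iInter] at hx
    exact ge_of_tendsto' (mp_tendsto ht (hKpos u (hsne u hu)) (hCpos u (hsne u hu)))
      fun n => hx n u hu
  have hfinG : volume {x : E 3 | ∀ u ∈ Metric.sphere (0 : E 3) 1,
      inner ℝ x u ≤ (supp K u) ^ (1 - t) * (supp C u) ^ t} ≠ ⊤ := by
    refine ne_top_of_le_ne_top hfin (measure_mono ?_)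
    intro x hx u hu
    refine (hx u hu).trans ?_
    refine le_of_tendsto (mp_tendsto ht (hKpos u (hsne u hu)) (hCpos u (hsne u hu)))
      (Eventually.of_forall fun n => ?_)
    exact mp_mono ht (hKpos u (hsne u hu)) (hCpos u (hsne u hu)) (pn_pos n) (pn_anti (Nat.zero_le n))
  exact hcI.trans (ENNReal.toReal_mono hfinG (measure_mono hsub))

end Pool.G1
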