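import Pool.Agent.Work.MP_b5407d_g1.Interface

/-!
# `LS2`: `om` is asymptotically constant on compact convex parts of a limit cone
-/

set_option autoImplicit false

open MeasureTheory Set Filter Topology

namespace Pool.G1

open Pool.T3 (R3 dt cr de K V S H Fam Pos pt Lam Q J lin)

namespace LS2

/-! ## scalar product -/

lemma dt_abs_le (a x : R3) : |dt a x| ≤ 3 * ‖a‖ * ‖x‖ := by
  have h : ∀ k, |a k * x k| ≤ ‖a‖ * ‖x‖ := fun k => by
    rw [abs_mul]
    exact mul_le_mul (by simpa using norm_le_pi_norm a k) (by simpa using norm_le_pi_norm x k)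
      (abs_nonneg _) (norm_nonneg _)
  unfold dt
  have h3 : |a 0 * x 0 + a 1 * x 1 + a 2 * x 2| ≤ |a 0 * x 0| + |a 1 * x 1| + |a 2 * x 2| :=
    abs_add_three _ _ _
  linarith [h 0, h 1, h 2]

lemma dt_sub_left (a b x : R3) : dt (a - b) x = dt a x - dt b x := by
  simp only [dt, Pi.sub_apply]; ring

lemma dt_neg_left (a x : R3) : dt (-a) x = -dt a x := by
  simp only [dt, Pi.neg_apply]; ring

lemma dt_smul_right (t : ℝ) (a x : R3) : dt a (t • x) = t * dt a x := by
  simp only [dt, Pi.smul_apply, smul_eq_mul]; ring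

lemma dt_cont (a : R3) : Continuous (fun x => dt a x) := by
  unfold dt; fun_prop

lemma kk_closed {ι : Type} (y : ι → R3) : IsClosed (KK y) := by
  have : KK y = ⋂ i, {x : R3 | |dt (y i) x| ≤ 1} := by
    ext x; simp [KK, K]
  rw [this]
  exact isClosed_iInter fun i => isClosed_le (dt_cont (y i)).abs continuous_const

lemma npb_of {ι : Type} {y : ι → R3} (hf : FamG y) (hn : Nm y) : Npb y := by
  refine ⟨?_, ⟨1, hn.cub⟩⟩
  intro i k hik h
  obtain ⟨a, b, c, hab, hac, hbc⟩ := hf.three
  have key : ∀ m, i ≠ m → k ≠ m → False := by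
    intro m him hkm
    have h1 := hf.ind i k m hik him hkm
    apply h1
    unfold de
    rw [h]
    simp [dt]
  have h2 : ∀ m, m = i ∨ m = k := by
    intro m
    by_contra hcon
    push Not at hcon
    exact key m (Ne.symm hcon.1) (Ne.symm hcon.2)
  rcases h2 a with ha | ha <;> rcases h2 b with hb | hb <;> rcases h2 c with hc | hc <;>
    first
      | exact hab (ha.trans hb.symm)
      | exact hac (ha.trans hc.symm)
      | exact hbc (hb.trans hc.symm)

lemma interior_lt {ι : Type} {y : ι → R3} {x : R3} (hx : x ∈ interior (KK y)) (l : ι) :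
    |dt (y l) x| < 1 := by
  have hc : Tendsto (fun t : ℝ => t • x) (𝓝[>] 1) (𝓝 x) := by
    have h0 : ContinuousAt (fun t : ℝ => t • x) 1 := by fun_prop
    have h1 := h0.tendsto.mono_left (nhdsWithin_le_nhds (s := Ioi (1 : ℝ)))
    simpa using h1
  have h1 : ∀ᶠ t in 𝓝[>] (1:ℝ), t • x ∈ KK y := hc.eventually (mem_interior_iff_mem_nhds.1 hx)
  obtain ⟨t, ht, ht1⟩ := (h1.and self_mem_nhdsWithin).exists
  have ht1' : (1 : ℝ) < t := ht1
  have h2 : |dt (y l) (t • x)| ≤ 1 := ht l
  rw [dt_smul_right, abs_mul, abs_of_pos (lt_trans one_pos ht1')] at h2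
  by_contra hcon
  push Not at hcon
  nlinarith

/-! ## integrals -/

lemma int_of_bdd {μ : Measure R3} [IsFiniteMeasure μ] {f : R3 → ℝ} (hf : Measurable f) {B : ℝ}
    (hB : ∀ x, |f x| ≤ B) : Integrable f μ :=
  Integrable.of_bound hf.aestronglyMeasurable B (Eventually.of_forall fun x => by simpa using hB x)

lemma sq_bdd {f : R3 → ℝ} {B : ℝ} (hB : ∀ x, |f x| ≤ B) (x : R3) : |f x ^ 2| ≤ B ^ 2 := by
  rw [abs_pow]
  exact pow_le_pow_left₀ (abs_nonneg _) (hB x) 2

lemma sq_sub (μ : Measure R3) [IsFiniteMeasure μ] {f : R3 → ℝ} (hf : Measurable f) {B : ℝ}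
    (hB : ∀ x, |f x| ≤ B) (c : ℝ) :
    ∫ x, (f x - c) ^ 2 ∂μ = (∫ x, f x ^ 2 ∂μ) - 2 * c * (∫ x, f x ∂μ) + μ.real univ * c ^ 2 := by
  have h1 : Integrable f μ := int_of_bdd hf hB
  have h2 : Integrable (fun x => f x ^ 2) μ := int_of_bdd (hf.pow_const 2) (sq_bdd hB)
  have h3 : (fun x => (f x - c) ^ 2) = fun x => (f x ^ 2 - 2 * c * f x) + c ^ 2 := by
    funext x; ring
  have h4 : Integrable (fun x => 2 * c * f x) μ := h1.const_mul (2 * c)
  have h5 : Integrable (fun x => f x ^ 2 - 2 * c * f x) μ := h2.sub h4
  rw [h3, integral_add h5 (integrable_const _),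
    integral_sub h2 h4, integral_const_mul, integral_const, smul_eq_mul]

lemma double (μ : Measure R3) [IsFiniteMeasure μ] {f : R3 → ℝ} (hf : Measurable f) {B : ℝ}
    (hB : ∀ x, |f x| ≤ B) :
    ∫ x, ∫ x', (f x' - f x) ^ 2 ∂μ ∂μ =
      2 * (μ.real univ * (∫ x, f x ^ 2 ∂μ) - (∫ x, f x ∂μ) ^ 2) := by
  have h1 : Integrable f μ := int_of_bdd hf hB
  have h2 : Integrable (fun x => f x ^ 2) μ := int_of_bdd (hf.pow_const 2) (sq_bdd hB)
  have h3 : ∀ x, ∫ x', (f x' - f x) ^ 2 ∂μ =
      (∫ x, f x ^ 2 ∂μ) - 2 * (∫ x, f x ∂μ) * f x + μ.real univ * f x ^ 2 := by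
    intro x
    rw [sq_sub μ hf hB (f x)]
    ring
  simp_rw [h3]
  set I2 := ∫ x, f x ^ 2 ∂μ with hI2
  set I1 := ∫ x, f x ∂μ with hI1
  have h4 : Integrable (fun x => 2 * I1 * f x) μ := h1.const_mul (2 * I1)
  have h5 : Integrable (fun x => I2 - 2 * I1 * f x) μ := (integrable_const _).sub h4
  have h6 : Integrable (fun x => μ.real univ * f x ^ 2) μ := h2.const_mul _
  rw [integral_add h5 h6, integral_sub (integrable_const _) h4, integral_const_mul,
    integral_const_mul, integral_const, smul_eq_mul]
  ring

lemma core {C : Set R3} (hC : IsCompact C) (hV : 0 < volume C) {f : R3 → ℝ} (hf : Measurable f)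
    {B : ℝ} (hB : ∀ x, |f x| ≤ B) {D b : ℝ} (hD : ∀ x ∈ C, ∀ x' ∈ C, ‖x' - x‖ ≤ D)
    (hb : ∀ v : R3, ‖v‖ ≤ D → ∫ x in {x | x ∈ C ∧ x + v ∈ C}, (f (x + v) - f x) ^ 2 ≤ b) :
    ∫ x in C, (f x - (∫ x in C, f x) / (volume C).toReal) ^ 2 ≤
      (volume (Metric.closedBall (0 : R3) D)).toReal * b / (2 * (volume C).toReal) := by
  have hCm : MeasurableSet C := hC.measurableSet
  have hCt : volume C ≠ ⊤ := hC.measure_lt_top.ne
  have hVr : 0 < (volume C).toReal := ENNReal.toReal_pos hV.ne' hCt
  have : IsFiniteMeasure (volume.restrict C : Measure R3) := ⟨by simpa using hC.measure_lt_top⟩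
  set D' : Set R3 := Metric.closedBall (0 : R3) D with hD'
  have hD'c : IsCompact D' := isCompact_closedBall _ _
  have : IsFiniteMeasure (volume.restrict D' : Measure R3) :=
    ⟨by simpa using hD'c.measure_lt_top⟩
  -- the double integral
  have hdd := double (volume.restrict C) hf hB
  have hreal : (volume.restrict C : Measure R3).real univ = (volume C).toReal := by
    simp [Measure.real]
  have hss := sq_sub (volume.restrict C) hf hB ((∫ x in C, f x) / (volume C).toReal)
  rw [hreal] at hdd hss
  -- change of variables in the inner integral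
  set G : R3 → R3 → ℝ := fun x v => C.indicator (fun x' => (f x' - f x) ^ 2) (x + v) with hG
  have hinner : ∀ x ∈ C, ∫ x' in C, (f x' - f x) ^ 2 = ∫ v in D', G x v := by
    intro x hx
    have e1 : ∫ x' in C, (f x' - f x) ^ 2 =
        ∫ x', C.indicator (fun x' => (f x' - f x) ^ 2) x' := (integral_indicator hCm).symm
    have e2 : ∫ x', C.indicator (fun x' => (f x' - f x) ^ 2) x' =
        ∫ v, C.indicator (fun x' => (f x' - f x) ^ 2) (x + v) :=
      (integral_add_left_eq_self (C.indicator (fun x' => (f x' - f x) ^ 2)) x).symm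
    rw [e1, e2]
    symm
    apply setIntegral_eq_integral_of_forall_compl_eq_zero
    intro v hv
    have hxv : x + v ∉ C := by
      intro hxv
      apply hv
      have := hD x hx (x + v) hxv
      rw [hD', mem_closedBall_zero_iff]
      simpa using this
    exact indicator_of_notMem hxv _
  have hB0 : 0 ≤ B := (abs_nonneg _).trans (hB 0)
  have hGb : ∀ x v, |G x v| ≤ (2 * B) ^ 2 := by
    intro x v
    have hp : (0 : ℝ) ≤ (2 * B) ^ 2 := by positivity
    simp only [hG, indicator]
    split_ifs with h
    · rw [abs_pow]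
      apply pow_le_pow_left₀ (abs_nonneg _)
      calc |f (x + v) - f x| ≤ |f (x + v)| + |f x| := abs_sub _ _
        _ ≤ 2 * B := by linarith [hB (x + v), hB x]
    · simpa using hp
  have hGm : Measurable (fun p : R3 × R3 => G p.1 p.2) := by
    have : (fun p : R3 × R3 => G p.1 p.2) =
        {p : R3 × R3 | p.1 + p.2 ∈ C}.indicator (fun p => (f (p.1 + p.2) - f p.1) ^ 2) := by
      funext p
      simp only [hG, indicator]
      rfl
    rw [this]
    apply Measurable.indicator
    · exact ((hf.comp (measurable_fst.add measurable_snd)).sub (hf.comp measurable_fst)).pow_const 2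
    · exact (measurable_fst.add measurable_snd) hCm
  have hGi : Integrable (fun p : R3 × R3 => G p.1 p.2)
      ((volume.restrict C).prod (volume.restrict D')) :=
    Integrable.of_bound hGm.aestronglyMeasurable ((2 * B) ^ 2)
      (Eventually.of_forall fun p => by simpa using hGb p.1 p.2)
  have hswap : ∫ x in C, ∫ v in D', G x v = ∫ v in D', ∫ x in C, G x v :=
    integral_integral_swap hGi
  have hle : ∀ v ∈ D', ∫ x in C, G x v ≤ b := by
    intro v hv
    have hv' : ‖v‖ ≤ D := by rwa [hD', mem_closedBall_zero_iff] at hv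
    refine le_trans (le_of_eq ?_) (hb v hv')
    have hm2 : MeasurableSet {x : R3 | x + v ∈ C} := (measurable_id.add_const v) hCm
    have e1 : (fun x => G x v) = {x : R3 | x + v ∈ C}.indicator (fun x => (f (x + v) - f x) ^ 2) := by
      funext x
      simp only [hG, indicator]
      rfl
    rw [e1, integral_indicator hm2, Measure.restrict_restrict hm2]
    congr 2
    ext x
    simp [and_comm]
  have hdi : ∫ x in C, ∫ x' in C, (f x' - f x) ^ 2 ≤ (volume D').toReal * b := by
    calc ∫ x in C, ∫ x' in C, (f x' - f x) ^ 2 = ∫ x in C, ∫ v in D', G x v :=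
          setIntegral_congr_fun hCm hinner
      _ = ∫ v in D', ∫ x in C, G x v := hswap
      _ ≤ ∫ v in D', b := by
          apply setIntegral_mono_on
          · exact hGi.swap.integral_prod_left
          · exact integrable_const _
          · exact hD'c.measurableSet
          · exact hle
      _ = (volume D').toReal * b := by
          rw [integral_const, smul_eq_mul]
          simp [Measure.real]
  rw [hdd] at hdi
  rw [hss, le_div_iff₀ (by positivity)]
  have hne : (volume C).toReal ≠ 0 := hVr.ne'
  have e3 : ((∫ x in C, f x ^ 2) - 2 * ((∫ x in C, f x) / (volume C).toReal) * (∫ x in C, f x) +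
      (volume C).toReal * ((∫ x in C, f x) / (volume C).toReal) ^ 2) * (2 * (volume C).toReal) =
      2 * ((volume C).toReal * (∫ x in C, f x ^ 2) - (∫ x in C, f x) ^ 2) := by
    field_simp
    ring
  rw [e3]
  exact hdi

lemma mean_sq {C : Set R3} (hC : IsCompact C) (hV : 0 < volume C) {f : R3 → ℝ} (hf : Measurable f)
    {B : ℝ} (hB : ∀ x, |f x| ≤ B) :
    ((∫ x in C, f x) / (volume C).toReal) ^ 2 ≤ (∫ x in C, f x ^ 2) / (volume C).toReal := by
  have hCt : volume C ≠ ⊤ := hC.measure_lt_top.ne
  have hVr : 0 < (volume C).toReal := ENNReal.toReal_pos hV.ne' hCt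
  have : IsFiniteMeasure (volume.restrict C : Measure R3) := ⟨by simpa using hC.measure_lt_top⟩
  have hreal : (volume.restrict C : Measure R3).real univ = (volume C).toReal := by
    simp [Measure.real]
  have hss := sq_sub (volume.restrict C) hf hB ((∫ x in C, f x) / (volume C).toReal)
  rw [hreal] at hss
  have h0 : 0 ≤ ∫ x in C, (f x - (∫ x in C, f x) / (volume C).toReal) ^ 2 :=
    integral_nonneg fun x => sq_nonneg _
  rw [hss] at h0
  have hne : (volume C).toReal ≠ 0 := hVr.ne'
  rw [le_div_iff₀ hVr]
  have e3 : 2 * ((∫ x in C, f x) / (volume C).toReal) * (∫ x in C, f x) =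
      2 * (((∫ x in C, f x) / (volume C).toReal) ^ 2 * (volume C).toReal) := by
    field_simp
  nlinarith

end LS2

open LS2 in
theorem blk_LS2 (hTLC : Stmt_TLC) (hOMI : Stmt_OMI) : Stmt_LS2 := by
  classical
  intro ι _ _ ys ws y C0 hSq i C hC hCc hV hx
  have hCt : volume C ≠ ⊤ := hC.measure_lt_top.ne
  have hVr : 0 < (volume C).toReal := ENNReal.toReal_pos hV.ne' hCt
  have hnpb : ∀ n, Npb (ys n) := fun n => npb_of (hSq.fam n) (hSq.nm n)
  refine ⟨fun n => if C ⊆ KK (ys n) then (∫ x in C, om (ys n) (ws n) x) / (volume C).toReal else 0,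
    ?_, ?_⟩
  · intro n
    dsimp only
    split_ifs with hsub
    · obtain ⟨hm, ⟨B, hB⟩, -, hint, -⟩ := hOMI ι (ys n) (hnpb n) (ws n)
      have h1 := mean_sq hC hV hm hB
      have h2 := hint 1 one_pos
      rw [hSq.var n] at h2
      have h3 : (fun x : R3 => (1 : ℝ) • x) '' KK (ys n) = KK (ys n) := by simp
      rw [h3] at h2
      have hKb : KK (ys n) ⊆ Metric.closedBall (0 : R3) 1 := by
        intro x hxx
        rw [mem_closedBall_zero_iff, pi_norm_le_iff_of_nonneg zero_le_one]
        intro k
        simpa using (hSq.nm n).cub x hxx k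
      have : IsFiniteMeasure (volume.restrict (KK (ys n)) : Measure R3) := ⟨by
        simpa using lt_of_le_of_lt (measure_mono hKb) (isCompact_closedBall (0 : R3) 1).measure_lt_top⟩
      have h4 : ∫ x in C, om (ys n) (ws n) x ^ 2 ≤ ∫ x in KK (ys n), om (ys n) (ws n) x ^ 2 := by
        apply setIntegral_mono_set
        · exact int_of_bdd (hm.pow_const 2) (sq_bdd hB)
        · exact Eventually.of_forall fun x => sq_nonneg _
        · exact Eventually.of_forall hsub
      have h5 : (∫ x in C, om (ys n) (ws n) x ^ 2) / (volume C).toReal ≤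
          1 / (volume C).toReal := by
        apply div_le_div_of_nonneg_right _ hVr.le
        rw [h2] at h4
        simpa using h4
      have h6 : (0 : ℝ) ≤ 1 / ((n : ℝ) + 1) := by positivity
      linarith
    · have h6 : (0 : ℝ) ≤ 1 / ((n : ℝ) + 1) := by positivity
      have h7 : (0 : ℝ) ≤ 1 / (volume C).toReal := by positivity
      have h8 : (0 : ℝ) ^ 2 = 0 := by norm_num
      rw [h8]
      linarith
  · -- bound for `C`
    obtain ⟨M, hM0, hM⟩ : ∃ M : ℝ, 0 < M ∧ ∀ x ∈ C, ‖x‖ ≤ M := by
      obtain ⟨M, hM⟩ := hC.isBounded.exists_norm_le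
      exact ⟨max M 1, lt_of_lt_of_le one_pos (le_max_right _ _), fun x hxC =>
        (hM x hxC).trans (le_max_left _ _)⟩
    have hdt : ∀ x ∈ C, ∀ a : R3, |dt a x| ≤ 3 * M * ‖a‖ := by
      intro x hxC a
      have h1 := dt_abs_le a x
      have h2 : 3 * ‖a‖ * ‖x‖ ≤ 3 * ‖a‖ * M :=
        mul_le_mul_of_nonneg_left (hM x hxC) (by positivity)
      linarith
    have hlimn : Tendsto (fun n => ‖ys n - y‖) atTop (𝓝 0) := by
      have := (hSq.lim.sub_const y).norm
      simpa using this
    have hlim' : ∀ δ : ℝ, 0 < δ → ∀ᶠ n in atTop, 3 * M * ‖ys n - y‖ < δ := by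
      intro δ hδ
      have h1 : Tendsto (fun n => 3 * M * ‖ys n - y‖) atTop (𝓝 0) := by
        simpa using hlimn.const_mul (3 * M)
      exact h1.eventually (gt_mem_nhds hδ)
    have hcomp : ∀ n (l : ι), ‖ys n l - y l‖ ≤ ‖ys n - y‖ := fun n l => by
      simpa using norm_le_pi_norm (ys n - y) l
    have hsy : ∀ n (P : ι × Bool), ‖sy (ys n) P - sy y P‖ ≤ ‖ys n - y‖ := by
      intro n P
      unfold sy
      split_ifs
      · exact hcomp n P.1
      · have : -ys n P.1 - -y P.1 = -(ys n P.1 - y P.1) := by abel
        rw [this, norm_neg]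
        exact hcomp n P.1
    -- `C ⊆ KK (ys n)`
    have hA : ∀ᶠ n in atTop, C ⊆ KK (ys n) := by
      have h1 : ∀ᶠ n in atTop, ∀ l, ∀ x ∈ C, |dt (ys n l) x| ≤ 1 := by
        rw [eventually_all]
        intro l
        obtain ⟨δ, hδ, hδ'⟩ := hC.exists_forall_le' (f := fun x => 1 - |dt (y l) x|)
          (continuous_const.sub (dt_cont (y l)).abs).continuousOn (a := 0)
          (fun x hxC => by
            have := interior_lt (hx x hxC).1 l
            linarith)
        filter_upwards [hlim' δ hδ] with n hn x hxC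
        have h2 := hdt x hxC (ys n l - y l)
        rw [dt_sub_left] at h2
        have h3 : 3 * M * ‖ys n l - y l‖ ≤ 3 * M * ‖ys n - y‖ :=
          mul_le_mul_of_nonneg_left (hcomp n l) (by positivity)
        have h4 := hδ' x hxC
        have h5 : |dt (ys n l) x| ≤ |dt (ys n l) x - dt (y l) x| + |dt (y l) x| := by
          have := abs_add_le (dt (ys n l) x - dt (y l) x) (dt (y l) x)
          simpa using this
        linarith
      filter_upwards [h1] with n hn x hxC
      intro l
      exact hn l x hxC
    -- active indices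
    have hBB : ∀ᶠ n in atTop, ∀ P : ι × Bool, sy y P ≠ y i → ∀ x ∈ C, ¬ act (ys n) P x := by
      rw [eventually_all]
      intro P
      by_cases hP : sy y P = y i
      · exact Eventually.of_forall fun n h => absurd hP h
      obtain ⟨δ, hδ, hδ'⟩ := hC.exists_forall_le' (f := fun x => dt (y i) x - dt (sy y P) x)
        ((dt_cont (y i)).sub (dt_cont (sy y P))).continuousOn (a := 0)
        (fun x hxC => by
          obtain ⟨-, hpos, hmax⟩ := hx x hxC
          have hs : dt (sy y P) x < dt (y i) x := by
            by_cases h1 : y P.1 = y i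
            · have h2 : sy y P = -(y i) := by
                unfold sy at hP ⊢
                split_ifs at hP ⊢ with hb
                · exact absurd h1 hP
                · rw [h1]
              rw [h2, dt_neg_left]
              linarith
            · by_cases h2 : y P.1 = -(y i)
              · have h3 : sy y P = -(y i) := by
                  unfold sy at hP ⊢
                  split_ifs at hP ⊢ with hb
                  · exact h2
                  · exact absurd (by rw [h2, neg_neg]) hP
                rw [h3, dt_neg_left]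
                linarith
              · have h3 := hmax P.1 h1 h2
                refine lt_of_le_of_lt ?_ h3
                unfold sy
                split_ifs
                · exact le_abs_self _
                · rw [dt_neg_left]
                  exact neg_le_abs _
          linarith)
      filter_upwards [hlim' (δ / 2) (by positivity)] with n hn _ x hxC hact
      have h1 := hact i
      have h2 := hdt x hxC (ys n i - y i)
      rw [dt_sub_left] at h2
      have h3 := hdt x hxC (sy (ys n) P - sy y P)
      rw [dt_sub_left] at h3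
      have h4 : 3 * M * ‖ys n i - y i‖ ≤ 3 * M * ‖ys n - y‖ :=
        mul_le_mul_of_nonneg_left (hcomp n i) (by positivity)
      have h5 : 3 * M * ‖sy (ys n) P - sy y P‖ ≤ 3 * M * ‖ys n - y‖ :=
        mul_le_mul_of_nonneg_left (hsy n P) (by positivity)
      have h6 := hδ' x hxC
      have h7 := (abs_le.1 (h2.trans h4)).1
      have h8 := (abs_le.1 (h3.trans h5)).2
      have h9 := le_abs_self (dt (ys n i) x)
      linarith
    -- the bound
    have hbound : ∀ᶠ n in atTop, ∫ x in C, (om (ys n) (ws n) x -
        (if C ⊆ KK (ys n) then (∫ x in C, om (ys n) (ws n) x) / (volume C).toReal else 0)) ^ 2 ≤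
        (volume (Metric.closedBall (0 : R3) (2 * M))).toReal *
          (12 * M * ‖ys n - y‖ / 2 * C0) / (2 * (volume C).toReal) := by
      filter_upwards [hA, hBB] with n hsub hact
      rw [if_pos hsub]
      obtain ⟨hm, ⟨B, hB⟩, -, -, -⟩ := hOMI ι (ys n) (hnpb n) (ws n)
      apply core hC hV hm hB
      · intro x hxC x' hxC'
        have := norm_sub_le x' x
        linarith [hM x hxC, hM x' hxC']
      · intro v hv
        have hκ : (0 : ℝ) ≤ 12 * M * ‖ys n - y‖ := by positivity
        have h1 := hTLC ι (ys n) (hnpb n) (ws n) C hCc hC.measurableSet hsub v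
          (12 * M * ‖ys n - y‖) hκ ?_
        · refine h1.trans ?_
          exact mul_le_mul_of_nonneg_left (hSq.bdd n) (by positivity)
        · intro x hxC x' hxC' P P' hP hP'
          have e1 : sy y P = y i := by
            by_contra hne
            exact hact P hne x hxC hP
          have e2 : sy y P' = y i := by
            by_contra hne
            exact hact P' hne x' hxC' hP'
          have e3 : ‖sy (ys n) P - sy (ys n) P'‖ ≤ 2 * ‖ys n - y‖ := by
            have e4 : sy (ys n) P - sy (ys n) P' =
                (sy (ys n) P - sy y P) - (sy (ys n) P' - sy y P') := by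
              rw [e1, e2]; abel
            rw [e4]
            have e5 := norm_sub_le (sy (ys n) P - sy y P) (sy (ys n) P' - sy y P')
            linarith [hsy n P, hsy n P']
          have e6 := dt_abs_le (sy (ys n) P - sy (ys n) P') v
          have e7 : ‖sy (ys n) P - sy (ys n) P'‖ * ‖v‖ ≤ 2 * ‖ys n - y‖ * (2 * M) :=
            mul_le_mul e3 hv (norm_nonneg _) (by positivity)
          linarith
    have hzero : Tendsto (fun n => (volume (Metric.closedBall (0 : R3) (2 * M))).toReal *
          (12 * M * ‖ys n - y‖ / 2 * C0) / (2 * (volume C).toReal)) atTop (𝓝 0) := by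
      have h1 : Tendsto (fun n => (volume (Metric.closedBall (0 : R3) (2 * M))).toReal *
          (12 * M * ‖ys n - y‖ / 2 * C0) / (2 * (volume C).toReal)) atTop
          (𝓝 ((volume (Metric.closedBall (0 : R3) (2 * M))).toReal *
          (12 * M * 0 / 2 * C0) / (2 * (volume C).toReal))) :=
        ((((hlimn.const_mul (12 * M)).div_const 2).mul_const C0).const_mul _).div_const _
      simpa using h1
    refine tendsto_of_tendsto_of_tendsto_of_le_of_le' tendsto_const_nhds hzero ?_ hbound
    exact Eventually.of_forall fun n => integral_nonneg fun x => sq_nonneg _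

end Pool.G1
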