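import Mathlib

/-!
# G1: planar definitions for the symmetric log-Brunn-Minkowski theorem in `ℝ³` (MP_b5407d_gt)

A convex polygon is given by `n`-periodic sequences on `ℕ`: outward unit normals `ν i`, vertices `v i`,
edge lengths `ℓ i`; edge `i` goes from `v i` to `v (i+1)` (counterclockwise).  Sums are over
`Finset.range n` (a period).  An affine function is `af r x = r.1 + r.2 . x`.
All formulas are explicit (no integrals); the 3D part supplies the meaning.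
-/

set_option autoImplicit false

namespace Pool.G1

abbrev R2 : Type := ℝ × ℝ

/-- scalar product -/
def dp (a b : R2) : ℝ := a.1 * b.1 + a.2 * b.2

/-- cross product -/
def cp (a b : R2) : ℝ := a.1 * b.2 - a.2 * b.1

/-- rotation by 90 degrees counterclockwise -/
def rt (a : R2) : R2 := (-a.2, a.1)

/-- affine function with coefficients `r = (r0, ∇)` -/
def af (r : ℝ × R2) (x : R2) : ℝ := r.1 + dp r.2 x

/-- convex polygon, counterclockwise, `n`-periodic data -/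
structure Poly (n : ℕ) (ν v : ℕ → R2) (ℓ : ℕ → ℝ) : Prop where
  n3 : 3 ≤ n
  pν : ∀ i, ν (i + n) = ν i
  pv : ∀ i, v (i + n) = v i
  pℓ : ∀ i, ℓ (i + n) = ℓ i
  unit : ∀ i, dp (ν i) (ν i) = 1
  pos : ∀ i, 0 < ℓ i
  edge : ∀ i, v (i + 1) = v i + ℓ i • rt (ν i)
  turn : ∀ i, 0 < cp (ν i) (ν (i + 1))
  conv : ∀ i k, dp (ν i) (v k) ≤ dp (ν i) (v i)
  inj : ∀ i j, i < n → j < n → ν i = ν j → i = j

/-- area -/
noncomputable def ar (n : ℕ) (v : ℕ → R2) : ℝ := ∑ i ∈ Finset.range n, cp (v i) (v (i + 1)) / 2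

/-- `∫_F ρ` -/
noncomputable def J0 (n : ℕ) (v : ℕ → R2) (r : ℝ × R2) : ℝ :=
  ∑ i ∈ Finset.range n, cp (v i) (v (i + 1)) / 2 * ((r.1 + af r (v i) + af r (v (i + 1))) / 3)

/-- edge integral `∫_{e_i} ρ` -/
noncomputable def EI (v : ℕ → R2) (ℓ : ℕ → ℝ) (r : ℝ × R2) (i : ℕ) : ℝ :=
  ℓ i * ((af r (v i) + af r (v (i + 1))) / 2)

/-- first variation `Σ δ_i ∫_{e_i} ρ` -/
noncomputable def J1 (n : ℕ) (v : ℕ → R2) (ℓ : ℕ → ℝ) (r : ℝ × R2) (δ : ℕ → ℝ) : ℝ :=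
  ∑ i ∈ Finset.range n, δ i * EI v ℓ r i

/-- velocity of the vertex `v (i+1)` when every line `i` moves outward with speed `δ i`:
`ve . ν i = δ i`, `ve . ν (i+1) = δ (i+1)` -/
noncomputable def ve (ν : ℕ → R2) (δ : ℕ → ℝ) (i : ℕ) : R2 :=
  (1 / cp (ν i) (ν (i + 1))) • (δ (i + 1) • rt (ν i) - δ i • rt (ν (i + 1)))

/-- second variation of `∫_F ρ` (symmetric bilinear form in `δ`, `η`) -/
noncomputable def B2 (n : ℕ) (ν v : ℕ → R2) (ℓ : ℕ → ℝ) (r : ℝ × R2) (δ η : ℕ → ℝ) : ℝ :=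
  ∑ i ∈ Finset.range n, δ (i + 1) *
    (dp (ve ν η (i + 1) - ve ν η i) (rt (ν (i + 1))) *
        ((af r (v (i + 1)) + af r (v (i + 2))) / 2) +
      ℓ (i + 1) * dp r.2 (ve ν η i + ve ν η (i + 1)) / 2)

/-- `J''_δ[ρ]` -/
noncomputable def J2 (n : ℕ) (ν v : ℕ → R2) (ℓ : ℕ → ℝ) (r : ℝ × R2) (δ : ℕ → ℝ) : ℝ :=
  B2 n ν v ℓ r δ δ

/-- `T = Σ δ_i θ_i ∫_{e_i} ρ` -/
noncomputable def T1 (n : ℕ) (v : ℕ → R2) (ℓ : ℕ → ℝ) (r : ℝ × R2) (δ θ : ℕ → ℝ) : ℝ :=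
  ∑ i ∈ Finset.range n, δ i * θ i * EI v ℓ r i

/-! ## Calculus blocks -/

/-- `PEU`: closure, Euler relations, translations, symmetry.  `b i = ν i . (v i - x)` is the distance of
the point `x` from the line `i`.
Proof: algebra.  Sums over a period can be shifted (`Finset.sum_range` of a periodic function); closure: the
sum of `v (i+1) - v i` vanishes.  For `b i = ν i . (v i - x)`: `ve ν b i = v (i+1) - x` (two linear
equations, `cp (ν i) (ν (i+1)) ≠ 0`, and `ν (i+1) . v (i+1) = ...`, note `ν i . v i = ν i . v (i+1)` by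
`edge`); for `e i = ν i . x`: `ve ν e i = x`.  Symmetry of `B2`: rearrange as a sum over the vertices:
the coefficient of `δ (i+1) η i` and of `δ i η (i+1)` agree. -/
def Stmt_PEU : Prop :=
  ∀ (n : ℕ) (ν v : ℕ → R2) (ℓ : ℕ → ℝ), Poly n ν v ℓ →
    (∑ i ∈ Finset.range n, ℓ i • ν i = 0) ∧
    (0 < ar n v) ∧
    (∀ x : R2, ∑ i ∈ Finset.range n, ℓ i * dp (ν i) (v i - x) = 2 * ar n v) ∧
    (∀ (x : R2) (r : ℝ × R2),
      J1 n v ℓ r (fun i => dp (ν i) (v i - x)) = 3 * J0 n v r - af r x * ar n v) ∧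
    (∀ (x : R2) (r : ℝ × R2), J1 n v ℓ r (fun i => dp (ν i) x) = dp r.2 x * ar n v) ∧
    (∀ (r : ℝ × R2) (δ η : ℕ → ℝ), (∀ i, δ (i + n) = δ i) → (∀ i, η (i + n) = η i) →
      B2 n ν v ℓ r δ η = B2 n ν v ℓ r η δ) ∧
    (∀ (x : R2) (r : ℝ × R2) (δ : ℕ → ℝ), (∀ i, δ (i + n) = δ i) →
      B2 n ν v ℓ r δ (fun i => dp (ν i) (v i - x)) =
        2 * J1 n v ℓ r δ - af r x * ∑ i ∈ Finset.range n, ℓ i * δ i) ∧
    (∀ (x : R2) (r : ℝ × R2) (δ : ℕ → ℝ), (∀ i, δ (i + n) = δ i) →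
      B2 n ν v ℓ r δ (fun i => dp (ν i) x) = dp r.2 x * ∑ i ∈ Finset.range n, ℓ i * δ i)

/-- `PMI`: weighted Minkowski inequality (from `PEU`).
Proof: by `PEU` adding `ν i . x` to `ζ` does not change `J2` (when `Σ ℓ ζ = 0`).  Matrix form: in the basis of
vertices the form `B2` has nonnegative off-diagonal entries and `B2(b, .) = ...`; or: Brunn-Minkowski for the
weight `ρ` (Prekopa-Leindler); or planar: for `ρ = 1` it is Minkowski's inequality; or copy an existing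
proof of the team.  (Equality case is not part of this block.) -/
def Stmt_PMI : Prop :=
  ∀ (n : ℕ) (ν v : ℕ → R2) (ℓ : ℕ → ℝ), Poly n ν v ℓ → ∀ r : ℝ × R2, (∀ k, 0 ≤ af r (v k)) →
    ∀ ζ : ℕ → ℝ, (∀ i, ζ (i + n) = ζ i) → ∑ i ∈ Finset.range n, ℓ i * ζ i = 0 →
      J2 n ν v ℓ r ζ ≤ 0

/-- `PGS`: the explicit integral over the moved polygon is a cubic polynomial.
Proof: algebra (shift of sums).  `J0` of the vertices `v (i+1) + s • ve ν δ i`. -/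
def Stmt_PGS : Prop :=
  ∀ (n : ℕ) (ν v : ℕ → R2) (ℓ : ℕ → ℝ), Poly n ν v ℓ → ∀ (r : ℝ × R2) (δ : ℕ → ℝ),
    (∀ i, δ (i + n) = δ i) → ∃ c : ℝ, ∀ s : ℝ,
      J0 n (fun i => v (i + 1) + s • ve ν δ i) r =
        J0 n v r + s * J1 n v ℓ r δ + s ^ 2 / 2 * J2 n ν v ℓ r δ + c * s ^ 3

/-! ## The planar theorem -/

/-- (S2+) of helper57, helper32: `θ i ≤ min (δ i / W i, 2/3)`, `W i` the width from the edge `i`.
`A(ρ) = Σ δ θ ∫_{e} ρ - 2 Σ δ ∫_e ρ + (1/2) J''_δ[ρ] + 2 ∫ ρ ≤ 0` for some affine `ρ ≥ 0`, `ρ ≠ 0`. -/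
def Stmt_S2 : Prop :=
  ∀ (n : ℕ) (ν v : ℕ → R2) (ℓ : ℕ → ℝ), Poly n ν v ℓ → ∀ δ θ : ℕ → ℝ,
    (∀ i, δ (i + n) = δ i) → (∀ i, θ (i + n) = θ i) → (∀ i, 0 ≤ δ i) → (∀ i, 0 ≤ θ i) →
    (∀ i, θ i ≤ 2 / 3) → (∀ i k, θ i * dp (ν i) (v i - v k) ≤ δ i) →
    ∑ i ∈ Finset.range n, ℓ i * δ i = 2 * ar n v →
    ∃ r : ℝ × R2, r ≠ 0 ∧ (∀ k, 0 ≤ af r (v k)) ∧
      T1 n v ℓ r δ θ - 2 * J1 n v ℓ r δ + 1 / 2 * J2 n ν v ℓ r δ + 2 * J0 n v r ≤ 0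

/-- `PL`: THE PLANAR TARGET, exactly what the three-dimensional part uses.
`E(ρ) = J''_δ[ρ] + ε Σ δ t ∫_e ρ - 2(2+ε) Σ δ ∫_e ρ + 3(2+ε) ∫ ρ < 0` for some affine `ρ ≥ 0` on `F`.
From (S2+) with `δ' = (2/λ) δ`, `λ = 2 + ε`, `θ = min(δ'/W, 2/3)`, `t ≤ 3θ`:
`E ≤ (λ/2) (3 ε A - (1-ε) |J''_ζ| - ε Σ δ' (3θ - t) ∫_e ρ)`, `ζ = δ' - b(x)`; strictness needs an argument in
the case of equality everywhere (then `t = 2`, `θ = 2/3` on all edges with `δ ∫_e ρ > 0`, and `J''_ζ = 0`). -/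
def Stmt_PL : Prop :=
  ∀ (n : ℕ) (ν v : ℕ → R2) (ℓ : ℕ → ℝ), Poly n ν v ℓ → ∀ (δ t : ℕ → ℝ) (ε : ℝ),
    (∀ i, δ (i + n) = δ i) → (∀ i, t (i + n) = t i) → (∀ i, 0 ≤ δ i) → (∀ i, 0 ≤ t i) →
    (∀ i, t i ≤ 2) → (∀ i k, t i * dp (ν i) (v i - v k) ≤ 2 * δ i) → 0 < ε → ε < 1 →
    ∑ i ∈ Finset.range n, ℓ i * δ i = (2 + ε) * ar n v →
    ∃ r : ℝ × R2, (∀ k, 0 ≤ af r (v k)) ∧
      J2 n ν v ℓ r δ + ε * T1 n v ℓ r δ t - 2 * (2 + ε) * J1 n v ℓ r δ +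
        3 * (2 + ε) * J0 n v r < 0

end Pool.G1
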