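import Pool.Agent.Work.MP_b5407d_t3.Interface
import Pool.Agent.Work.MP_b5407d_g1.Planar

/-!
# G1: `L_p`-Brunn-Minkowski (all `0 < p < 1`, and `p = 0`) for origin symmetric bodies of `ℝ³`

Three-dimensional part (Lean lead helper97).  It reduces the theorem to the planar statement
`Stmt_PL` of `Planar.lean`.  Every block is a proposition `Stmt_X`, its proof is in the docstring.

GENERAL IDEA.  For a finite family `y : ι → ℝ³` let `KK y = {x : |y i . x| ≤ 1}`, `vo y` its volume,
`mu y i` the volume of the double cone over the two facets `±i`, `cc y i k` the weight of the edges between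
the facets `±i`, `±k`, `En y w = (1/2) Σ cc (w i - w k)²`, `Qm y w = 3 (Σ mu w² - (Σ mu w)²/vo)`.  For unit
vectors `u`, levels `h`, `y = u/h`, `w = f/h`: `Q = Qm y w` and `J = En y w - 2 Qm y w` in the notation of
T3.  `LI c N`: `(2 + c) Qm ≤ En` for all admissible families of `N` vectors.  Goal: `LI 1 N` for all `N`, by
strong induction.  If it fails for `N`, let `ε < 1` be the best constant.  COMPACTNESS (parts C, D, E): there is
an extremal pair `(y, w)`, `En = (2+ε) Qm`, with `N` facets (normals are variable!).  TILT (part G): at the facet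
`j` where `|w|` is maximal move the normal `y j` to `y j + τ b`, `τ ↓ 0`, `ρ = b . x > 0` on the facet; compare
`V(1 + s w)` before and after (`L_p`-inequality, `p = 1 - ε`, as an upper bound): the facet polygon satisfies
`E(ρ) ≥ 0` for all affine `ρ ≥ 0`.  This contradicts `Stmt_PL`.

KEY TOOL of the compactness: the function `om y w` (`= w i` on the cone over facet `i`) and lines: for every
direction `a`, `En y w = 2 ∫ dz Σ_{breaks of the line z + ℝ a inside K} (Δw)²/|Δ slope|`, the slope being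
the one of the convex function `t ↦ max_i |y i . (z + t a)|`.
-/

set_option autoImplicit false

open MeasureTheory Set Filter Topology

namespace Pool.G1

open Pool.T3 (R3 dt cr de K V S H Fam Pos pt Lam Q J lin)

/-! ## Definitions -/

/-- body with all levels equal to `1` -/
def KK {ι : Type} (y : ι → R3) : Set R3 := K y (fun _ => (1 : ℝ))

/-- division of the vectors by the levels: `K y a = KK (dv y a)` for positive `a` -/
noncomputable def dv {ι : Type} (y : ι → R3) (a : ι → ℝ) : ι → R3 := fun i => (1 / a i) • y i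

/-- volume -/
noncomputable def vo {ι : Type} (y : ι → R3) : ℝ := (volume (KK y)).toReal

/-- double cone over the facets `±i` -/
def co {ι : Type} (y : ι → R3) (i : ι) : Set R3 := {x | x ∈ KK y ∧ ∀ l, |dt (y l) x| ≤ |dt (y i) x|}

/-- its volume -/
noncomputable def mu {ι : Type} (y : ι → R3) (i : ι) : ℝ := (volume (co y i)).toReal

/-- edge weights -/
noncomputable def cc {ι : Type} (y : ι → R3) (i k : ι) : ℝ :=
  2 * (Lam y i k 1 1 (fun _ => (1 : ℝ)) + Lam y i k 1 (-1) (fun _ => (1 : ℝ)))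

/-- energy -/
noncomputable def En {ι : Type} [Fintype ι] (y : ι → R3) (w : ι → ℝ) : ℝ :=
  1 / 2 * ∑ i, ∑ k, cc y i k * (w i - w k) ^ 2

/-- variance (three times, with respect to `mu`) -/
noncomputable def Qm {ι : Type} [Fintype ι] (y : ι → R3) (w : ι → ℝ) : ℝ :=
  3 * ((∑ i, mu y i * w i ^ 2) - (∑ i, mu y i * w i) ^ 2 / vo y)

/-- admissible families (not normalised): any three independent, at least three -/
structure FamG {ι : Type} (y : ι → R3) : Prop where
  ind : ∀ i j k, i ≠ j → i ≠ k → j ≠ k → de (y i) (y j) (y k) ≠ 0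
  three : ∃ i j k : ι, i ≠ j ∧ i ≠ k ∧ j ≠ k

/-- normalised family: `{Σ |x k| ≤ 1} ⊆ KK y ⊆ [-1, 1]³` -/
structure Nm {ι : Type} (y : ι → R3) : Prop where
  le : ∀ i k, |y i k| ≤ 1
  cub : ∀ x ∈ KK y, ∀ k, |x k| ≤ 1

/-- pairwise non parallel, bounded body -/
structure Npb {ι : Type} (y : ι → R3) : Prop where
  np : ∀ i k, i ≠ k → cr (y i) (y k) ≠ 0
  bd : ∃ R : ℝ, ∀ x ∈ KK y, ∀ k, |x k| ≤ R

/-- pairwise non parallel, all facets real, bounded body -/
structure Good {ι : Type} (y : ι → R3) : Prop extends Npb y where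
  mp : ∀ i, 0 < mu y i

/-- local inequality with constant `c` for all admissible families of `N` vectors -/
def LI (c : ℝ) (N : ℕ) : Prop :=
  ∀ (ι : Type) [Fintype ι] [DecidableEq ι], Fintype.card ι = N → ∀ y : ι → R3, FamG y →
    ∀ w : ι → ℝ, (2 + c) * Qm y w ≤ En y w

/-- signed vectors -/
def sy {ι : Type} (y : ι → R3) (P : ι × Bool) : R3 := if P.2 then y P.1 else -(y P.1)

/-- the signed index `P` is active at `x`: `sy y P . x = max_l |y l . x|` -/
def act {ι : Type} (y : ι → R3) (P : ι × Bool) (x : R3) : Prop := ∀ l, |dt (y l) x| ≤ dt (sy y P) x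

/-- the function equal to `w i` in the interior of the cone over the facets `±i` (`0` on the walls) -/
noncomputable def om {ι : Type} [Fintype ι] (y : ι → R3) (w : ι → ℝ) (x : R3) : ℝ :=
  ∑ i, {x : R3 | ∀ l, l ≠ i → |dt (y l) x| < |dt (y i) x|}.indicator (fun _ => w i) x

/-- point of a line -/
def lnp (b1 b2 a : R3) (z : ℝ × ℝ) (t : ℝ) : R3 := z.1 • b1 + z.2 • b2 + t • a

/-- energy of the line `z + ℝ a`: ordered pairs of signed indices which are active at a common point of the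
line in `KK y` (terms with `Δ slope = 0` are zero by `x/0 = 0`) -/
noncomputable def EL {ι : Type} [Fintype ι] (y : ι → R3) (w : ι → ℝ) (b1 b2 a : R3)
    (z : ℝ × ℝ) : ℝ :=
  1 / 2 * ∑ P : ι × Bool, ∑ P' : ι × Bool,
    {z : ℝ × ℝ | ∃ t : ℝ, lnp b1 b2 a z t ∈ KK y ∧ act y P (lnp b1 b2 a z t) ∧
      act y P' (lnp b1 b2 a z t)}.indicator
      (fun _ => (w P.1 - w P'.1) ^ 2 / |dt (sy y P - sy y P') a|) z

/-! ## Part A: consequences of T3 -/

/-- `FGN`: admissible families are the families `u/h`.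
Proof: `u i = y i/|y i|`, `h i = 1/|y i|` (Euclidean norm `sqrt (dt (y i) (y i))`, nonzero because a
determinant with `y i` is nonzero); determinants are multiplied by positive numbers. -/
def Stmt_FGN : Prop :=
  (∀ (ι : Type) (y : ι → R3), FamG y → ∃ (u : ι → R3) (h : ι → ℝ), Fam u ∧ Pos h ∧ y = dv u h) ∧
  (∀ (ι : Type) (u : ι → R3) (h : ι → ℝ), Fam u → Pos h → FamG (dv u h)) ∧
  (∀ (ι : Type) (y : ι → R3) (a : ι → ℝ), FamG y → Pos a → FamG (dv y a)) ∧
  (∀ (ι : Type) [Fintype ι] (y : ι → R3), FamG y → Npb y)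

/-- `MUS` (T3: `COO`, `VIN`, `SF`, `HF`, `LAMC`): cones and edges.
Proof: `K u h = KK (dv u h)`.  Cone: in the coordinates `(α, β, c)` of `COO` (any `j ≠ i`), the section
`u i . x = α` of the cone, `0 < α ≤ h i`, is `(α/h i)` times the section of `K u h` at `α = h i`, so its area is
`(α/h i)² S i/2` (`SF`); integrate over `-h i < α < h i`: `S i h i/3`.  Edges: `pt (dv u h) i k 1 s =
pt u i k (h i) (s h k)`, `cr (dv u h i) (dv u h k) = cr (u i) (u k)/(h i h k)`, so
`Lam (dv u h) i k 1 s 1 = h i h k Lam u i k (h i) (s h k) h`. -/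
def Stmt_MUS : Prop :=
  ∀ (ι : Type) [Fintype ι] [DecidableEq ι] (u : ι → R3), Fam u → ∀ h, Pos h →
    V u h = vo (dv u h) ∧ (∀ i, S u h i * h i = 3 * mu (dv u h) i) ∧
    (∀ i k, i ≠ k → H u h i k * (h i * h k) = cc (dv u h) i k)

/-- `BAS`: basic facts.
Proof: `0 < vo`: a small ball is in `KK y`; the cones `co y i` cover `KK y` (maximum of finitely many numbers)
and the intersection of two is contained in the planes `y i . x = ± y k . x`, null sets because
`y i ≠ ± y k`.  `cc`: symmetry and signs as in T3 `LAMC` (`Lam y k i 1 s = Lam y i k 1 s` for `s = ±1`: exchange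
of the indices and `x ↦ s x`); lengths are nonnegative. -/
def Stmt_BAS : Prop :=
  ∀ (ι : Type) [Fintype ι] (y : ι → R3), Npb y → Nonempty ι →
    0 < vo y ∧ (∑ i, mu y i = vo y) ∧ (∀ i, 0 ≤ mu y i) ∧ (∀ i k, 0 ≤ cc y i k) ∧
    (∀ i k, i ≠ k → cc y i k = cc y k i) ∧ (3 ≤ Fintype.card ι) ∧ MeasurableSet (KK y) ∧
    IsCompact (KK y) ∧ Convex ℝ (KK y)

/-- `QJT` (from `MUS`; T3: `DVS`): the forms of T3.
Proof: `w = f/h`.  `Σ S f²/h = Σ S h w² = 3 Σ mu w²`, `Σ S f = 3 Σ mu w`.
`f^T H f = Σ_{i≠k} cc w i w k + Σ_i H i i h i² w i²` and `H i i h i² = 2 S i h i - Σ_{k≠i} H i k h i h k =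
6 mu i - Σ_{k≠i} cc i k` (Euler, `DVS`), so `f^T H f = 6 Σ mu w² - En`. -/
def Stmt_QJT : Prop :=
  ∀ (ι : Type) [Fintype ι] [DecidableEq ι] (u : ι → R3), Fam u → ∀ h, Pos h → ∀ f : ι → ℝ,
    Q (V u) (S u) h f = Qm (dv u h) (fun i => f i / h i) ∧
    (∑ i, ∑ k, H u h i k * f i * f k) =
      6 * (∑ i, mu (dv u h) i * (f i / h i) ^ 2) - En (dv u h) (fun i => f i / h i) ∧
    J (V u) (S u) (H u) h f =
      En (dv u h) (fun i => f i / h i) - 2 * Qm (dv u h) (fun i => f i / h i)

/-- `DER` (from `FGN`, `MUS`, `QJT`; T3: `DVS`): first and second derivative of the volume along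
`a(s) = 1 + s z`.
Proof: `y = dv u h`; `dv y (1 + s z) = dv u (h (1 + s z))`; `V u (h + s h z)`, chain rule with `DVS`:
first derivative `Σ S h z = 3 Σ mu (y_s) ζ`, `ζ = z/(1 + s z)`; second derivative `f^T H f` with `f = h z` at
`h_s = h (1 + s z)`, `f/h_s = ζ`, `QJT`. -/
def Stmt_DER : Prop :=
  ∀ (ι : Type) [Fintype ι] [DecidableEq ι] (y : ι → R3), FamG y → ∀ (z : ι → ℝ) (s : ℝ),
    (∀ i, 0 < 1 + s * z i) →
    HasDerivAt (fun s : ℝ => vo (dv y (fun i => 1 + s * z i)))
      (3 * ∑ i, mu (dv y (fun i => 1 + s * z i)) i * (z i / (1 + s * z i))) s ∧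
    HasDerivAt (fun s : ℝ => 3 * ∑ i, mu (dv y (fun i => 1 + s * z i)) i * (z i / (1 + s * z i)))
      (6 * (∑ i, mu (dv y (fun i => 1 + s * z i)) i * (z i / (1 + s * z i)) ^ 2) -
        En (dv y (fun i => 1 + s * z i)) (fun i => z i / (1 + s * z i))) s

/-- `RDM` (from `FGN`, `MUS`; T3: `RED`): a facet with `mu = 0` can be removed. -/
def Stmt_RDM : Prop :=
  ∀ (ι : Type) [Fintype ι] [DecidableEq ι] (y : ι → R3), FamG y → ∀ k, mu y k = 0 →
    FamG (fun i : {i // i ≠ k} => y i) ∧ vo (fun i : {i // i ≠ k} => y i) = vo y ∧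
    (∀ i : {i // i ≠ k}, mu (fun i : {i // i ≠ k} => y i) i = mu y i) ∧
    (∀ i j : {i // i ≠ k}, i ≠ j → cc (fun i : {i // i ≠ k} => y i) i j = cc y i j) ∧
    (∀ j, j ≠ k → cc y k j = 0 ∧ cc y j k = 0)

/-- `GPM` (from `FGN`, `MUS`, `QJT`; T3: `GAP`): the known constant. -/
def Stmt_GPM : Prop :=
  ∀ (ι : Type) [Fintype ι] [DecidableEq ι] (y : ι → R3), FamG y → (∀ i, 0 < mu y i) →
    ∀ w : ι → ℝ, (2 + 1 / 486) * Qm y w ≤ En y w

/-- `TAN` (from `FGN`, `MUS`, `QJT`; T3: `PATH`, `CALC`): the `L_p` Minkowski inequality, `p = 1 - ε`.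
Proof: `y = dv u h`, `g = a h`, `p = 1 - ε`.  By `LI ε N` and `QJT`: `ε Q ≤ J` for `u` at all positive levels
(`dv u h'` is in `FamG`).  `PATH` with `y0 = h^p`, `y1 = g^p - h^p`: `Φ(s) = V(hh s)^(p/3)` is concave on
`[0, 1]`, so `Φ(1) ≤ Φ(0) + Φ'(0)`, `Φ'(0) = (1/3) V^(p/3-1) Σ S h^(1-p) (g^p - h^p)`, and `Σ S h = 3 V`:
`V(g)^(p/3) ≤ (1/3) V(h)^(p/3-1) Σ S h (g/h)^p = V(h)^(p/3-1) Σ mu a^p`. -/
def Stmt_TAN : Prop :=
  ∀ (N : ℕ) (ε : ℝ), 0 < ε → ε < 1 → LI ε N → ∀ (ι : Type) [Fintype ι] [DecidableEq ι],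
    Fintype.card ι = N → ∀ y : ι → R3, FamG y → ∀ a, Pos a →
      vo (dv y a) ^ ((1 - ε) / 3) * vo y ^ (1 - (1 - ε) / 3) ≤ ∑ i, mu y i * a i ^ (1 - ε)

/-! ## Part B: normalisation, density, continuity -/

/-- `DEN`: admissible families are dense.
Proof: as T3 `GPD` (without normalisation): `y i + s (1, x i, x i²)` with distinct `x i`; each determinant is a
polynomial in `s` with leading coefficient a Vandermonde determinant. -/
def Stmt_DEN : Prop :=
  ∀ (ι : Type) [Fintype ι], 3 ≤ Fintype.card ι → ∀ (y : ι → R3) (η : ℝ), 0 < η →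
    ∃ y' : ι → R3, FamG y' ∧ ∀ i k, |y' i k - y i k| < η

/-- `GLN`: linear normalisation.
Proof: choose `(i1, i2, i3)` with `|de|` maximal, `A` the linear map with `A (y i1) = e1`, `A (y i2) = e2`,
`A (y i3) = e3` and `y' = A y`.  Cramer: the coordinates of `A (y l)` are quotients of determinants, of
absolute value `≤ 1`.  `KK y' ⊆ [-1,1]³` because `e1, e2, e3` are among the `y'`.
`KK (A y) = A^{-T} (KK y)`, the same for `co`; `cr (A a) (A b) = (det A) A^{-T} (cr a b)`: all volumes and all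
`Lam` are multiplied by `κ = 1/|det A|` (the chord is mapped to the chord; a translation of the parameter `c`
does not matter). -/
def Stmt_GLN : Prop :=
  ∀ (ι : Type) [Fintype ι] (y : ι → R3), FamG y → ∃ (y' : ι → R3) (κ : ℝ), 0 < κ ∧ FamG y' ∧ Nm y' ∧
    vo y' = κ * vo y ∧ (∀ i, mu y' i = κ * mu y i) ∧ (∀ i k, i ≠ k → cc y' i k = κ * cc y i k)

/-- `CTV`: continuity of volumes.
Proof: let `|x k| ≤ R` on `KK y`; the open set `{max_i |y i . x| > 1}` contains the compact surface of the cube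
of size `2R+1`, so for `y'` near `y` the (star shaped) body `KK y'` is contained in this cube.  Dominated
convergence: the indicator functions converge except on `{max_i |y i . x| = 1}` (a null set: the boundary
of a convex set, or `vo (λ)` scaling), and for `mu` except also on the planes `y i . x = ± y k . x`. -/
def Stmt_CTV : Prop :=
  (∀ (ι : Type) [Fintype ι] (y : ι → R3), (∃ R : ℝ, ∀ x ∈ KK y, ∀ k, |x k| ≤ R) →
    ContinuousAt vo y ∧ ∃ R : ℝ, ∀ᶠ y' in 𝓝 y, ∀ x ∈ KK y', ∀ k, |x k| ≤ R) ∧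
  (∀ (ι : Type) [Fintype ι] (y : ι → R3), Npb y → ∀ i, ContinuousAt (fun y => mu y i) y)

/-- `GTR`: no three collinear signed vectors in a good family.
Proof: let `Y'' = α Y + β Y'`, `α + β = 1`.  `α, β ≠ 0` (not parallel).  One of the three is a proper convex
combination of the two others, say `Z = λ Z' + (1-λ) Z''`, `0 < λ < 1`.  Where `|Z . x| ≥ |Z' . x|, |Z'' . x|`
we have `Z . x = Z' . x = Z'' . x` (up to a common sign), so the cone of `Z` is contained in a plane
(`Z' ≠ Z''`) and `mu = 0`. -/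
def Stmt_GTR : Prop :=
  ∀ (ι : Type) [Fintype ι] (y : ι → R3), Good y → ∀ P P' P'' : ι × Bool, P.1 ≠ P'.1 →
    P.1 ≠ P''.1 → P'.1 ≠ P''.1 → ∀ α β : ℝ, α + β = 1 → sy y P'' ≠ α • sy y P + β • sy y P'

/-- `CTL` (from `GTR`, `CTV`): continuity of the edge weights at a good family.
Proof: `Lam y' i k 1 s 1` is the length of the intersection of the intervals
`{c : |A m + c D m| ≤ 1}`, `m ≠ i, k`, `A m = y' m . pt`, `D m = de (y' i) (y' k) (y' m)`, all continuous in `y'`, and
contained in a fixed bounded interval (`CTV`, `|cr| ≠ 0`).  If `D m ≠ 0` at `y` the end points are continuous.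
If `D m = 0` at `y`: `|A m| ≠ 1` (`A m = ± 1` would give three collinear signed vectors, `GTR`); if
`|A m| < 1` the constraint is satisfied on the bounded interval for `y'` near `y`; if `|A m| > 1` both chords
are empty.  Intersection of intervals with continuous end points: length `max 0 (min - max)`. -/
def Stmt_CTL : Prop :=
  ∀ (ι : Type) [Fintype ι] (y : ι → R3), Good y → ∀ i k, i ≠ k →
    ContinuousAt (fun y => cc y i k) y

/-- `GOP` (from `CTV`): good families form an open set. -/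
def Stmt_GOP : Prop :=
  ∀ (ι : Type) [Fintype ι] (y : ι → R3), Good y → ∀ᶠ y' in 𝓝 y, Good y'

/-- `GDI` (from `DEN`, `CTV`, `CTL`, `BAS`): the local inequality at good families. -/
def Stmt_GDI : Prop :=
  ∀ (N : ℕ) (c : ℝ), LI c N → ∀ (ι : Type) [Fintype ι] [DecidableEq ι], Fintype.card ι = N →
    ∀ y : ι → R3, Good y → ∀ w : ι → ℝ, (2 + c) * Qm y w ≤ En y w

/-- `C2G` (from `DER`, `DEN`, `CTV`, `CTL`, `BAS`): second order expansion at a good family.
Proof: let `A = 6 Σ mu z² - En y z`.  For `y'` in `FamG` near `y` and `|σ| ≤ s0` the second derivative in `DER` at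
`dv y' (1 + σ z)` (near `y`) differs from `A` by at most `η`.  Taylor for `y'`, then `y' → y` (`vo`, `mu` are
continuous, also `y' ↦ vo (dv y' (1 + s z))`). -/
def Stmt_C2G : Prop :=
  ∀ (ι : Type) [Fintype ι] [DecidableEq ι] (y : ι → R3), Good y → ∀ (z : ι → ℝ) (η : ℝ), 0 < η →
    ∀ᶠ s : ℝ in 𝓝 0,
      |vo (dv y (fun i => 1 + s * z i)) - vo y - 3 * s * (∑ i, mu y i * z i) -
        s ^ 2 / 2 * (6 * (∑ i, mu y i * z i ^ 2) - En y z)| ≤ η * s ^ 2

/-- `TNG` (from `TAN`, `DEN`, `CTV`, `BAS`): `TAN` at good families (limit). -/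
def Stmt_TNG : Prop :=
  ∀ (N : ℕ) (ε : ℝ), 0 < ε → ε < 1 → LI ε N → ∀ (ι : Type) [Fintype ι] [DecidableEq ι],
    Fintype.card ι = N → ∀ y : ι → R3, Good y → ∀ a, Pos a →
      vo (dv y a) ^ ((1 - ε) / 3) * vo y ^ (1 - (1 - ε) / 3) ≤ ∑ i, mu y i * a i ^ (1 - ε)

/-- `TN2` (from `TNG`, `BAS`): second order form of `TNG`.
Proof: let `p = 1 - ε`, `v = vo y`, `m1 = Σ mu z`, `m2 = Σ mu z²`.  `TNG` with `a = 1 ± s z`:
`(vo(1+sz)/v)^(p/3) ≤ 1 + (p/v) s m1 - (p ε/2) (s²/v) m2 + O(s³)`, raise to the power `3/p`: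
`vo(1+sz) ≤ v + 3 s m1 + (s²/2) (-3 ε m2 + 3 (3-p) m1²/v) + O(s³)`, and `3 - p = 2 + ε`. Add for `± s`. -/
def Stmt_TN2 : Prop :=
  ∀ (N : ℕ) (ε : ℝ), 0 < ε → ε < 1 → LI ε N → ∀ (ι : Type) [Fintype ι] [DecidableEq ι],
    Fintype.card ι = N → ∀ y : ι → R3, Good y → ∀ (z : ι → ℝ) (η : ℝ), 0 < η → ∀ᶠ s : ℝ in 𝓝 0,
      vo (dv y (fun i => 1 + s * z i)) + vo (dv y (fun i => 1 - s * z i)) - 2 * vo y ≤
        s ^ 2 * (3 * (2 + ε) * (∑ i, mu y i * z i) ^ 2 / vo y - 3 * ε * (∑ i, mu y i * z i ^ 2) + η)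

/-! ## Part C: lines -/

/-- `WAL`: the area of the projection of a wall along `a`.
Proof: let `s = ±1` and `Y = y i`, `Y' = s y k`, `T = cr (y i) (y k)`, `q = pt y i k 1 s` (`Y . q = Y' . q = 1`),
`[c1, c2]` the chord `{c : |y m . (q + c T)| ≤ 1, m ≠ i, k}` (a bounded interval, subset of `KK y`, maybe empty).
The wall `{x : Y . x = Y' . x, |y m . x| ≤ Y . x ≤ 1}` is `{σ q + c T : 0 ≤ σ ≤ 1, σ c1 ≤ c ≤ σ c2}`
(`x = σ q + c T`, `σ = Y . x`; if `σ = 0` then all `y m . x = 0`, `x = 0`).  The projection along `a` in the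
coordinates `z` of `lnp` is a linear image of the set of the `(σ, c)`, of area `(c2 - c1)/2`, under a linear map
of determinant `± de a q T` (because `|de b1 b2 a| = 1`), and
`de a q T = ± a . (q × (Y × Y')) = ± a . (Y - Y')` (as `q . Y = q . Y' = 1`). -/
def Stmt_WAL : Prop :=
  ∀ (ι : Type) [Fintype ι] (y : ι → R3), Npb y → ∀ i k, i ≠ k → ∀ s : ℝ, (s = 1 ∨ s = -1) →
    ∀ b1 b2 a : R3, |de b1 b2 a| = 1 →
    let W : Set (ℝ × ℝ) := {z | ∃ t : ℝ, dt (y i) (lnp b1 b2 a z t) = s * dt (y k) (lnp b1 b2 a z t) ∧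
      (∀ m, |dt (y m) (lnp b1 b2 a z t)| ≤ dt (y i) (lnp b1 b2 a z t)) ∧
      dt (y i) (lnp b1 b2 a z t) ≤ 1}
    IsCompact W ∧
    (volume W).toReal = 1 / 2 * Lam y i k 1 s (fun _ => (1 : ℝ)) * |dt (y i - s • y k) a|

/-- `LIN` (from `WAL`): the line formula.
Proof: `En = Σ_{i≠k} Σ_{s=±1} Lam y i k 1 s (w i - w k)²`.  For `P = (i, +)`, `P' = (k, sign s)`, `i ≠ k`, the set in
`EL` is the set `W` of `WAL`; for `P = (i, -)` it is the reflected set `-W` (`x ↦ -x`).  So
`∫ EL = (1/2) Σ_{i≠k} Σ_s 2 (1/2) Lam |Δ| (w i - w k)²/|Δ|` with `Δ = (y i - s y k) . a` (terms with `Δ = 0` are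
dropped, that is the inequality).  Terms with `P.1 = P'.1` are zero. -/
def Stmt_LIN : Prop :=
  ∀ (ι : Type) [Fintype ι] (y : ι → R3), Npb y → ∀ (w : ι → ℝ) (b1 b2 a : R3), |de b1 b2 a| = 1 →
    Measurable (EL y w b1 b2 a) ∧ Integrable (EL y w b1 b2 a) ∧
    2 * (∫ z, EL y w b1 b2 a z) ≤ En y w ∧
    ((∀ P P' : ι × Bool, P.1 ≠ P'.1 → dt (sy y P - sy y P') a ≠ 0) →
      En y w = 2 * ∫ z, EL y w b1 b2 a z)

/-- active index of the maximum of affine functions of one variable -/
def ac {κ : Type} (p q : κ → ℝ) (P : κ) (t : ℝ) : Prop := ∀ R, p R + q R * t ≤ p P + q P * t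

open Classical in
/-- energy of an interval -/
noncomputable def EE {κ : Type} [Fintype κ] (p q w : κ → ℝ) (t1 t2 : ℝ) : ℝ :=
  1 / 2 * ∑ P : κ, ∑ P' : κ, if ∃ t ∈ Icc t1 t2, ac p q P t ∧ ac p q P' t then
    (w P - w P') ^ 2 / |q P - q P'| else 0

/-- `PA1`: Cauchy-Schwarz along a line.
Proof: let `EE'` be the same sum restricted to pairs with both slopes in `[q P1, q P2]`.  Claim with `EE'`, by
induction on the number of indices `P`, active somewhere in `[t1, t2]`, with `q P1 < q P < q P2`.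
(Slopes increase: if `P` is active at `t`, `P'` at `t' ≥ t` then `q P ≤ q P'` or `t = t'`... precisely
`(q P' - q P)(t' - t) ≥ 0`; if `t = t'` order the pair so that the claim is about `q P1 ≤ q P2`; note for
`t1 = t2` both are active at the same point.)  If `q P1 = q P2` the two affine functions coincide
(both `≥` at one point), so `w P1 = w P2`.  No index between: at the crossing point `t*` of `P1`, `P2`
(`t1 ≤ t* ≤ t2`) both are active (an index larger there would have a slope strictly between): the pair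
`(P1, P2)` appears twice in the sum.  If `P` is between, active at `t ∈ [t1, t2]`: apply the claim to `(P1, P)` on
`[t1, t]` and `(P, P2)` on `[t, t2]`; a pair with different slopes cannot occur in both sums; and
`(a + b)² ≤ (x + y)(a²/x + b²/y)`. -/
def Stmt_PA1 : Prop :=
  ∀ (κ : Type) [Fintype κ] (p q w : κ → ℝ), (∀ P P', p P = p P' → q P = q P' → w P = w P') →
    ∀ t1 t2 : ℝ, t1 ≤ t2 → ∀ P1 P2 : κ, ac p q P1 t1 → ac p q P2 t2 → q P1 ≤ q P2 →
      (w P1 - w P2) ^ 2 ≤ (q P2 - q P1) * EE p q w t1 t2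

/-- `TLC` (from `LIN`, `PA1`): translation estimate.
Proof: `v = 0` trivial.  `a = v`, complete to `b1, b2, v` with determinant 1; `x = lnp b1 b2 v z t`, volume
preserving; `x + v` is `t + 1`.  For almost every `z` two different signed vectors do not give the same
affine function of `t` (`p P = sy P . (z1 b1 + z2 b2)`, `q P = sy P . v`), and for almost every `t` exactly one
signed index is active at `t` and at `t + 1`.  The set `I = {t : lnp z t ∈ C}` is an interval.  `PA1`:
`(om(t+1) - om(t))² ≤ (q(t+1) - q(t)) EL(z)` for `t, t+1 ∈ I` (`EE ≤ EL`, the segment is in `KK y`), `q(t)` the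
slope of the active index, nondecreasing with oscillation `≤ κ` on `I`; so
`∫ (q(t+1) - q(t)) dt ≤ κ` (`= ∫_{last unit interval} q - ∫_{first} q`).  Integrate over `z`, `LIN`. -/
def Stmt_TLC : Prop :=
  ∀ (ι : Type) [Fintype ι] (y : ι → R3), Npb y → ∀ (w : ι → ℝ) (C : Set R3), Convex ℝ C →
    MeasurableSet C → C ⊆ KK y → ∀ (v : R3) (κ : ℝ), 0 ≤ κ →
    (∀ x ∈ C, ∀ x' ∈ C, ∀ P P' : ι × Bool, act y P x → act y P' x' →
      |dt (sy y P - sy y P') v| ≤ κ) →
    ∫ x in {x | x ∈ C ∧ x + v ∈ C}, (om y w (x + v) - om y w x) ^ 2 ≤ κ / 2 * En y w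

/-- `OMI`: integrals of `om`.
Proof: the open cones are disjoint, `KK y` minus their union is in the planes `y i . x = ± y k . x`.
`om y w (c x) = om y w x` for `c ≠ 0` (change of variables `x = c x'`). -/
def Stmt_OMI : Prop :=
  ∀ (ι : Type) [Fintype ι] (y : ι → R3), Npb y → ∀ (w : ι → ℝ),
    Measurable (om y w) ∧ (∃ C : ℝ, ∀ x, |om y w x| ≤ C) ∧
    (∀ (c : ℝ) (x : R3), c ≠ 0 → om y w (c • x) = om y w x) ∧
    (∀ c : ℝ, 0 < c → ∫ x in (fun x : R3 => c • x) '' KK y, om y w x ^ 2 =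
      c ^ 3 * ∑ i, mu y i * w i ^ 2) ∧
    (∀ c : ℝ, 0 < c → ∫ x in (fun x : R3 => c • x) '' KK y, om y w x = c ^ 3 * ∑ i, mu y i * w i) ∧
    (∀ᵐ x : R3, ∃ P : ι × Bool, act y P x ∧ om y w x = w P.1 ∧ ∀ P', act y P' x → P' = P)

/-- `EQI` (from `TLC`, `OMI`): no concentration.
Proof: for `x ∈ (1/2) KK y` and `v` in the cube `V_s = {|v k| ≤ s/3}`: `|y i . v| ≤ s ≤ 1/2`, so `x + v ∈ KK y`.
`om(x)² ≤ 2 om(x+v)² + 2 (om(x+v) - om(x))²`; average over `v ∈ V_s` (volume `8 s³/27`) and integrate over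
`x ∈ Z`: the first term is at most `2 |Z|/|V_s| ∫_{KK y} om²`, the second `2 s En` by `TLC` with `C = KK y`,
`κ = 2 s` (`|sy P . v| ≤ s`). -/
def Stmt_EQI : Prop :=
  ∀ (ι : Type) [Fintype ι] (y : ι → R3), Npb y → Nm y → ∀ (w : ι → ℝ) (Z : Set R3), MeasurableSet Z →
    (∀ x ∈ Z, (2 : ℝ) • x ∈ KK y) → ∀ s : ℝ, 0 < s → s ≤ 1 / 2 →
    ∫ x in Z, om y w x ^ 2 ≤
      27 / (4 * s ^ 3) * (volume Z).toReal * (∑ i, mu y i * w i ^ 2) + 2 * s * En y w

/-! ## Part D: compactness -/

/-- `f : ι' → ι` selects the essential vectors of `y` up to sign -/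
structure Sel {ι ι' : Type} (y : ι → R3) (f : ι' → ι) : Prop where
  inj : Function.Injective f
  same : KK (fun i' => y (f i')) = KK y
  cls : ∀ l, (∃ i', y l = y (f i') ∨ y l = -(y (f i'))) ∨ volume (co y l) = 0

/-- `SEL`: reduction of a limit family.
Proof: `i` is essential if `volume (co y i) > 0`.  Choose one representative of each class `{±}` of essential
vectors.  Essential vectors which are parallel are equal up to sign (the shorter one is nowhere maximal
except on a plane).  The maximum over all `|y l . x|` is attained by an essential vector for almost every `x`,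
hence by continuity for all `x`; so `KK` is the same and the cones of the representatives have positive
volume. -/
def Stmt_SEL : Prop :=
  ∀ (ι : Type) [Fintype ι] [DecidableEq ι] (y : ι → R3), Nm y →
    ∃ (ι' : Type) (_ : Fintype ι') (_ : DecidableEq ι') (f : ι' → ι), Sel y f ∧
      Good (fun i' => y (f i')) ∧ Fintype.card ι' ≤ Fintype.card ι

/-- a sequence of normalised pairs with bounded energy -/
structure Sq {ι : Type} [Fintype ι] (ys : ℕ → ι → R3) (ws : ℕ → ι → ℝ) (y : ι → R3) (C : ℝ) :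
    Prop where
  fam : ∀ n, FamG (ys n)
  nm : ∀ n, Nm (ys n)
  lim : Tendsto ys atTop (𝓝 y)
  mean : ∀ n, ∑ i, mu (ys n) i * ws n i = 0
  var : ∀ n, ∑ i, mu (ys n) i * ws n i ^ 2 = 1
  bdd : ∀ n, En (ys n) (ws n) ≤ C

/-- `NML` (limits of normalised families). -/
def Stmt_NML : Prop :=
  ∀ (ι : Type) [Fintype ι] (ys : ℕ → ι → R3) (y : ι → R3), (∀ n, Nm (ys n)) →
    Tendsto ys atTop (𝓝 y) → Nm y

/-- `LS2` (from `TLC`, `OMI`): asymptotically constant on compact parts of a limit cone.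
Proof: `C` compact convex in the open set where only the vectors `± y i` are maximal for `y`.  For `n` large every
signed index active at a point of `C` for `ys n` is a signed `l` with `sy y P = y i` (compactness), so
`|(sy P - sy P') . v| ≤ κ_n |v|`, `κ_n → 0`.  `TLC`: for all `v ∈ C - C`,
`∫_{x, x+v ∈ C} (om(x+v) - om(x))² ≤ κ_n c`; integrate over `v`: `∫_C ∫_C (om(x) - om(x'))² → 0`.  Let `c_n` be the mean
of `om` over `C`: `∫_C (om - c_n)² ≤ (1/|C|) ∫∫ → 0` and `c_n² ≤ (1/|C|) ∫ om² ≤ 1/|C|`. -/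
def Stmt_LS2 : Prop :=
  ∀ (ι : Type) [Fintype ι] [DecidableEq ι] (ys : ℕ → ι → R3) (ws : ℕ → ι → ℝ) (y : ι → R3)
    (C0 : ℝ), Sq ys ws y C0 → ∀ (i : ι) (C : Set R3), IsCompact C → Convex ℝ C → 0 < volume C →
    (∀ x ∈ C, x ∈ interior (KK y) ∧ 0 < dt (y i) x ∧
      ∀ l, y l ≠ y i → y l ≠ -(y i) → |dt (y l) x| < dt (y i) x) →
    ∃ c : ℕ → ℝ, (∀ n, c n ^ 2 ≤ 1 / (volume C).toReal + 1 / (n + 1)) ∧
      Tendsto (fun n => ∫ x in C, (om (ys n) (ws n) x - c n) ^ 2) atTop (𝓝 0)

/-- `LS3` (from `LS2`, `EQI`, `OMI`, `BAS`, `SEL`): strong convergence.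
Proof: for each `i'` fix a compact convex `C i'` as in `LS2` for `i = f i'` (a small ball in the open cone of
`y (f i')` inside the body); a subsequence of `c n` converges to `W i'` for all `i'`.  For a larger compact
convex `C'` in the same cone the constants of `C'` and `C i'` differ by `o(1)`, so `om → W i'` in `L²(C')`;
also on `-C'` (`om` is even).  Such sets exhaust `KK y` up to a null set (`Sel.cls`): convergence in measure on
`KK y`, so a further subsequence converges almost everywhere.  Mass: `Σ mu w² = 8 ∫_{(1/2) KK(ys n)} om²`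
(`OMI`); on finitely many compact sets as above inside `(1/2) KK y` we have `L²` convergence; the rest `Z` of
`(1/2) KK (ys n)` has small volume, `EQI` (with `s` small, then `|Z| ≤ s⁴`).  The same for `∫ om` (`∫_Z |om| ≤
|Z|^(1/2) (∫ om²)^(1/2)`). -/
def Stmt_LS3 : Prop :=
  ∀ (ι : Type) [Fintype ι] [DecidableEq ι] (ys : ℕ → ι → R3) (ws : ℕ → ι → ℝ) (y : ι → R3)
    (C0 : ℝ), Sq ys ws y C0 → ∀ (ι' : Type) [Fintype ι'] [DecidableEq ι'] (f : ι' → ι), Sel y f →
    Good (fun i' => y (f i')) →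
    ∃ (φ : ℕ → ℕ) (W : ι' → ℝ), StrictMono φ ∧
      (∀ᵐ x ∂(volume.restrict (KK y)), Tendsto (fun n => om (ys (φ n)) (ws (φ n)) x) atTop
        (𝓝 (om (fun i' => y (f i')) W x))) ∧
      (∑ i', mu (fun i' => y (f i')) i' * W i' = 0) ∧
      (∑ i', mu (fun i' => y (f i')) i' * W i' ^ 2 = 1)

open Classical in
/-- line energy restricted to the set where the maximum is at most one -/
noncomputable def E1 {κ : Type} [Fintype κ] (p q w : κ → ℝ) : ℝ :=
  1 / 2 * ∑ P : κ, ∑ P' : κ, if ∃ t : ℝ, ac p q P t ∧ ac p q P' t ∧ p P + q P * t ≤ 1 then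
    (w P - w P') ^ 2 / |q P - q P'| else 0

/-- `LL1` (from `PA1`): one-dimensional lower semicontinuity.
Proof: for each unordered pair `{P, P'}` of limit indices, both active at `t0 = t0(P, P')` with value `≤ 1`, so
`< 1` (`ne1`): these points are different for different pairs (`tri`).  Choose disjoint small intervals
`[t0 - ρ1, t0 + ρ2]` with end points outside the exceptional null set, such that on the left part only
`P` (the smaller slope) and on the right part only `P'` is active and all values are `< 1`.  For `n` large: the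
active indices at the end points have slopes close to `q P`, `q P'`, weights close to `W P`, `W P'`, values
`< 1` (then also on the interval, by convexity of the maximum).  `PA1`:
`(W P - W P')² - o(1) ≤ (q P' - q P + o(1)) EE_n(interval)`.  The sum of the `EE_n` over the disjoint intervals
is at most `E1_n`: a pair with different slopes has only one crossing point.  And
`E1 (limit) = Σ_{unordered pairs} (W P - W P')²/|q P - q P'|`. -/
def Stmt_LL1 : Prop :=
  ∀ (κ κ' : Type) [Fintype κ] [Nonempty κ] [Fintype κ'] (p q W : κ' → ℝ) (pn qn wn : ℕ → κ → ℝ),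
    Function.Injective q →
    (∀ (P P' P'' : κ') (t : ℝ), ac p q P t → ac p q P' t → ac p q P'' t →
      P = P' ∨ P = P'' ∨ P' = P'') →
    (∀ (P P' : κ') (t : ℝ), P ≠ P' → ac p q P t → ac p q P' t → p P + q P * t ≠ 1) →
    (∀ n P P', pn n P = pn n P' → qn n P = qn n P' → wn n P = wn n P') →
    (∀ (P : κ') (t : ℝ), (∀ P', P' ≠ P → p P' + q P' * t < p P + q P * t) →
      p P + q P * t < 1 → ∀ η : ℝ, 0 < η → ∀ᶠ n in atTop, ∀ R : κ, ac (pn n) (qn n) R t →
        |qn n R - q P| < η ∧ pn n R + qn n R * t < 1) →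
    (∀ᵐ t : ℝ, ∀ P : κ', (∀ P', P' ≠ P → p P' + q P' * t < p P + q P * t) →
      p P + q P * t < 1 → ∀ η : ℝ, 0 < η → ∀ᶠ n in atTop, ∀ R : κ, ac (pn n) (qn n) R t →
        |wn n R - W P| < η) →
    ∀ η : ℝ, 0 < η → ∀ᶠ n in atTop, E1 p q W ≤ E1 (pn n) (qn n) (wn n) + η

/-- `LS4` (from `LL1`, `LIN`, `OMI`, `GTR`, `FGN`): lower semicontinuity of the energy.
Proof: choose `a` with `(sy P - sy P') . a ≠ 0` for all signed `P ≠ P'` of the limit family `y' = y ∘ f` (finitely many
nonzero vectors), and `b1, b2` with `de b1 b2 a = 1`.  `LIN`: `En y' W = 2 ∫ EL`, `2 ∫ EL_n ≤ En (ys n) (ws n)`.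
Fatou: it suffices that `EL(z) ≤ liminf EL_n(z)` for almost every `z`; `EL(z) = E1 p q W`,
`p P = sy y' P . (z1 b1 + z2 b2)`, `q P = sy y' P . a`.  Check the hypotheses of `LL1` for almost every `z`: slopes are
injective by the choice of `a` (also for `(i,+)`, `(i,-)`: choose `y' i . a ≠ 0` too); three signed vectors are not
collinear (`GTR`; `(i,+), (i,-), P` neither, not parallel), so the set where three of them agree is a line
through the origin, its projection is a null set; `value = 1` at a wall: projection of edges, a null set;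
the sequence: two signed vectors giving the same affine function: null set for each `n`; convergence of
slopes: at `x = lnp z t` where only `P` is maximal for `y'` with value `< 1`, every signed index active for
`ys n` at `x`, `n` large, is an `l` in the class of `f P.1` (by `Sel.cls` and `Sel.same`: an `l` with a null cone is
not maximal at an interior point of the cone of `P` unless `y l = ± y (f P.1)`), so its vector tends to
`sy y' P`; weights: by `ae` and Fubini, `om (ys n) (ws n) x → om y' W x = W P` and the active index is unique for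
almost every `x` (`OMI`), for all `n`. -/
def Stmt_LS4 : Prop :=
  ∀ (ι : Type) [Fintype ι] [DecidableEq ι] (ys : ℕ → ι → R3) (ws : ℕ → ι → ℝ) (y : ι → R3)
    (C0 : ℝ), Sq ys ws y C0 → ∀ (ι' : Type) [Fintype ι'] [DecidableEq ι'] (f : ι' → ι), Sel y f →
    Good (fun i' => y (f i')) → ∀ W : ι' → ℝ,
    (∀ᵐ x ∂(volume.restrict (KK y)), Tendsto (fun n => om (ys n) (ws n) x) atTop
        (𝓝 (om (fun i' => y (f i')) W x))) →
    ∀ η : ℝ, 0 < η → ∀ᶠ n in atTop, En (fun i' => y (f i')) W ≤ En (ys n) (ws n) + η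

/-! ## Part E: the extremal pair -/

/-- `EXT` (from `RDM`, `GPM`, `GLN`, `NML`, `SEL`, `LS3`, `LS4`, `GDI`, `BAS`, `FGN`): existence.
Proof: (1) `LI (1/486) N`: `GPM` if all `mu > 0`; otherwise `RDM` and `LI 1 (N-1)`.  Let
`ε = sup {c ≤ 1 : LI c N}`; `LI ε N` (closed condition), `1/486 ≤ ε < 1`.
(2) For every `n` there are `y_n`, `w_n` with `En < (2 + ε + 1/(n+1)) Qm`; `Qm > 0` (`En ≥ 0`); subtract the mean
from `w_n` (`En`, `Qm` do not change; `Σ mu = vo`), `GLN` and scaling of `w_n`: `Nm`, `Σ mu w = 0`, `Σ mu w² = 1`,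
`En ≤ 3 (2 + ε + 1/(n+1))`.  The types `ι_n` have `N` elements: transport to `Fin N`.
(3) `ys n` is in a compact set: a subsequence converges to `y`, `Nm y` (`NML`).  `SEL`, `LS3`, `LS4`: `W` on `ι'` with
`En(y', W) ≤ 3 (2 + ε)`, `Qm(y', W) = 3`.
(4) If `card ι' < N`: `GDI` with `c = 1`: `En ≥ 9`, contradiction (`ε < 1`).  So `card ι' = N` and by `GDI` with
`c = ε` equality.  `W ≠ 0`; scale so that the maximum of `|W|` is `1`, attained with `W j = 1`. -/
def Stmt_EXT : Prop :=
  ∀ N : ℕ, (∀ M, M < N → LI 1 M) → ¬ LI 1 N → ∃ ε : ℝ, 0 < ε ∧ ε < 1 ∧ LI ε N ∧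
    ∃ (ι : Type) (_ : Fintype ι) (_ : DecidableEq ι) (y : ι → R3) (w : ι → ℝ) (j : ι),
      Fintype.card ι = N ∧ Good y ∧ w j = 1 ∧ (∀ i, |w i| ≤ 1) ∧
      (∑ i, mu y i * w i = 0) ∧ En y w = (2 + ε) * Qm y w

end Pool.G1
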