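import Mathlib
import Pool.Agent.Work.MP_b5407d_g1.Interface

/-!
# G1, block LS3: strong convergence and mass (helper84)
-/

set_option autoImplicit false

open MeasureTheory Set Filter Topology
open scoped Pointwise

namespace Pool.G1

open Pool.T3 (R3 dt cr de K V S H Fam Pos pt Lam Q J lin)

namespace LS3aux

/-! ### elementary facts about `dt` -/

lemma dt_smul (a x : R3) (c : ℝ) : dt a (c • x) = c * dt a x := by
  simp [dt]; ring

lemma dt_neg (a x : R3) : dt a (-x) = -dt a x := by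
  simp [dt]; ring

lemma neg_dt (a x : R3) : dt (-a) x = -dt a x := by
  simp [dt]; ring

lemma dt_add (a x z : R3) : dt a (x + z) = dt a x + dt a z := by
  simp [dt]; ring

lemma sub_dt (a b x : R3) : dt (a - b) x = dt a x - dt b x := by
  simp [dt]; ring

lemma add_dt (a b x : R3) : dt (a + b) x = dt a x + dt b x := by
  simp [dt]; ring

/-- `dt a` as a linear map -/
def dL (a : R3) : R3 →ₗ[ℝ] ℝ where
  toFun := dt a
  map_add' := dt_add a
  map_smul' := by intro c x; simp [dt_smul]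

lemma dL_apply (a x : R3) : dL a x = dt a x := rfl

lemma cont_dt (a : R3) : Continuous (fun x : R3 => dt a x) := by
  have : Continuous (dL a) := (dL a).continuous_of_finiteDimensional
  exact this

lemma dt_self_ne {a : R3} (ha : a ≠ 0) : dt a a ≠ 0 := by
  intro h
  apply ha
  have h0 : a 0 ^ 2 + a 1 ^ 2 + a 2 ^ 2 = 0 := by simpa [dt, sq] using h
  funext i
  fin_cases i
  · have : a 0 ^ 2 = 0 := by nlinarith [sq_nonneg (a 0), sq_nonneg (a 1), sq_nonneg (a 2)]
    simpa using this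
  · have : a 1 ^ 2 = 0 := by nlinarith [sq_nonneg (a 0), sq_nonneg (a 1), sq_nonneg (a 2)]
    simpa using this
  · have : a 2 ^ 2 = 0 := by nlinarith [sq_nonneg (a 0), sq_nonneg (a 1), sq_nonneg (a 2)]
    simpa using this

/-- planes are null sets -/
lemma plane_null (a : R3) (c : ℝ) (h : a ≠ 0 ∨ c ≠ 0) : volume {x : R3 | dt a x = c} = 0 := by
  by_cases ha : a = 0
  · have hc : c ≠ 0 := by
      rcases h with h | h
      · exact absurd ha h
      · exact h
    have : {x : R3 | dt a x = c} = ∅ := by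
      ext x
      simp only [mem_ofPred_eq, mem_empty_iff_false, iff_false]
      intro hx
      apply hc
      rw [← hx, ha]; simp [dt]
    rw [this]; simp
  · have haa := dt_self_ne ha
    set x0 : R3 := (c / dt a a) • a with hx0
    have hx0' : dt a x0 = c := by rw [hx0, dt_smul]; field_simp
    have hset : {x : R3 | dt a x = c} = (fun x => x + (-x0)) ⁻¹' (LinearMap.ker (dL a) : Set R3) := by
      ext x
      simp only [mem_ofPred_eq, mem_preimage, SetLike.mem_coe, LinearMap.mem_ker, dL_apply, dt_add,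
        dt_neg, hx0']
      constructor
      · intro h; rw [h]; ring
      · intro h; linarith
    rw [hset, measure_preimage_add_right]
    apply Measure.addHaar_submodule
    intro htop
    have : a ∈ LinearMap.ker (dL a) := by rw [htop]; trivial
    rw [LinearMap.mem_ker, dL_apply] at this
    exact haa this

/-! ### the compact pieces -/

/-- the compact pieces of the open cone of `Y` inside the body -/
def CP {ι : Type} (y : ι → R3) (Y : R3) (k : ℕ) : Set R3 :=
  {x | (∀ l, |dt (y l) x| ≤ 1 - 1 / ((k : ℝ) + 1)) ∧ 1 / ((k : ℝ) + 1) ≤ dt Y x ∧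
    ∀ l, y l ≠ Y → y l ≠ -Y → |dt (y l) x| ≤ dt Y x - 1 / ((k : ℝ) + 1)}

variable {ι : Type}

lemma inv_pos' (k : ℕ) : (0 : ℝ) < 1 / ((k : ℝ) + 1) := by positivity

lemma CP_mono (y : ι → R3) (Y : R3) {k k' : ℕ} (h : k ≤ k') : CP y Y k ⊆ CP y Y k' := by
  intro x hx
  obtain ⟨h1, h2, h3⟩ := hx
  have hk : 1 / ((k' : ℝ) + 1) ≤ 1 / ((k : ℝ) + 1) := by
    apply one_div_le_one_div_of_le (by positivity)
    have : (k : ℝ) ≤ k' := by exact_mod_cast h
    linarith
  exact ⟨fun l => (h1 l).trans (by linarith), hk.trans h2,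
    fun l ha hb => (h3 l ha hb).trans (by linarith)⟩

lemma CP_neg (y : ι → R3) (Y : R3) (k : ℕ) (x : R3) : x ∈ CP y (-Y) k ↔ -x ∈ CP y Y k := by
  simp only [CP, mem_ofPred_eq, dt_neg, neg_dt, abs_neg, neg_neg]
  constructor
  · rintro ⟨h1, h2, h3⟩
    exact ⟨h1, h2, fun l ha hb => h3 l hb ha⟩
  · rintro ⟨h1, h2, h3⟩
    exact ⟨h1, h2, fun l ha hb => h3 l hb ha⟩

lemma CP_closed [Fintype ι] (y : ι → R3) (Y : R3) (k : ℕ) : IsClosed (CP y Y k) := by
  have e : CP y Y k = (⋂ l, {x | |dt (y l) x| ≤ 1 - 1 / ((k : ℝ) + 1)}) ∩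
      ({x | 1 / ((k : ℝ) + 1) ≤ dt Y x} ∩
        ⋂ l, ⋂ (_ : y l ≠ Y), ⋂ (_ : y l ≠ -Y), {x | |dt (y l) x| ≤ dt Y x - 1 / ((k : ℝ) + 1)}) := by
    ext x
    simp only [CP, mem_ofPred_eq, mem_inter_iff, mem_iInter]
  rw [e]
  refine (isClosed_iInter fun l => ?_).inter ((?_ : IsClosed _).inter
    (isClosed_iInter fun l => isClosed_iInter fun _ => isClosed_iInter fun _ => ?_))
  · exact isClosed_le (cont_dt _).abs continuous_const
  · exact isClosed_le continuous_const (cont_dt _)
  · exact isClosed_le (cont_dt _).abs ((cont_dt _).sub continuous_const)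

lemma CP_sub (y : ι → R3) (Y : R3) (k : ℕ) : CP y Y k ⊆ KK y := by
  intro x hx
  have hk := inv_pos' k
  intro l
  exact (hx.1 l).trans (by linarith)

lemma CP_convex (y : ι → R3) (Y : R3) (k : ℕ) : Convex ℝ (CP y Y k) := by
  intro x hx x' hx' a b ha hb hab
  obtain ⟨h1, h2, h3⟩ := hx
  obtain ⟨h1', h2', h3'⟩ := hx'
  set e : ℝ := 1 / ((k : ℝ) + 1) with he
  have habs : ∀ l, |dt (y l) (a • x + b • x')| ≤ a * |dt (y l) x| + b * |dt (y l) x'| := by
    intro l
    rw [dt_add, dt_smul, dt_smul]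
    refine (abs_add_le _ _).trans ?_
    rw [abs_mul, abs_mul, abs_of_nonneg ha, abs_of_nonneg hb]
  refine ⟨fun l => (habs l).trans ?_, ?_, fun l hl hl' => (habs l).trans ?_⟩
  · have := mul_le_mul_of_nonneg_left (h1 l) ha
    have := mul_le_mul_of_nonneg_left (h1' l) hb
    calc a * |dt (y l) x| + b * |dt (y l) x'| ≤ a * (1 - e) + b * (1 - e) := by linarith
      _ = 1 - e := by rw [← add_mul, hab, one_mul]
  · rw [dt_add, dt_smul, dt_smul]
    have := mul_le_mul_of_nonneg_left h2 ha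
    have := mul_le_mul_of_nonneg_left h2' hb
    calc e = a * e + b * e := by rw [← add_mul, hab, one_mul]
      _ ≤ _ := by linarith
  · rw [dt_add, dt_smul, dt_smul]
    have := mul_le_mul_of_nonneg_left (h3 l hl hl') ha
    have := mul_le_mul_of_nonneg_left (h3' l hl hl') hb
    calc a * |dt (y l) x| + b * |dt (y l) x'| ≤ a * (dt Y x - e) + b * (dt Y x' - e) := by linarith
      _ = a * dt Y x + b * dt Y x' - (a + b) * e := by ring
      _ = _ := by rw [hab, one_mul]

lemma bounded_of_coord {A : Set R3} {R : ℝ} (h : ∀ x ∈ A, ∀ k, |x k| ≤ R) : Bornology.IsBounded A := by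
  rw [isBounded_iff_forall_norm_le]
  refine ⟨max R 0, fun x hx => ?_⟩
  rw [pi_norm_le_iff_of_nonneg (le_max_right _ _)]
  intro k
  exact (h x hx k).trans (le_max_left _ _)

lemma CP_compact [Fintype ι] (y : ι → R3) (Y : R3) (k : ℕ) {R : ℝ} (h : ∀ x ∈ KK y, ∀ k, |x k| ≤ R) :
    IsCompact (CP y Y k) :=
  Metric.isCompact_of_isClosed_isBounded (CP_closed y Y k)
    (bounded_of_coord fun x hx => h x (CP_sub y Y k hx))

lemma CP_int [Fintype ι] (y : ι → R3) (Y : R3) (k : ℕ) : ∀ x ∈ CP y Y k, x ∈ interior (KK y) ∧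
    0 < dt Y x ∧ ∀ l, y l ≠ Y → y l ≠ -Y → |dt (y l) x| < dt Y x := by
  intro x hx
  have hk := inv_pos' k
  obtain ⟨h1, h2, h3⟩ := hx
  refine ⟨?_, by linarith, fun l ha hb => by linarith [h3 l ha hb]⟩
  have ho : IsOpen {x : R3 | ∀ l, |dt (y l) x| < 1} := by
    rw [ofPred_forall]
    exact isOpen_iInter_of_finite fun l => isOpen_lt (cont_dt _).abs continuous_const
  have hs : {x : R3 | ∀ l, |dt (y l) x| < 1} ⊆ KK y := fun x hx l => (hx l).le
  exact interior_maximal hs ho (fun l => by linarith [h1 l])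

/-- for good families: distinct vectors are not parallel -/
lemma np_ne {ι' : Type} {y' : ι' → R3} (hg : Good y') {i l : ι'} (h : i ≠ l) :
    y' l ≠ y' i ∧ y' l ≠ -(y' i) := by
  have := hg.np i l h
  constructor
  · intro e
    apply this
    rw [e]
    funext j; fin_cases j <;> simp [cr] <;> ring
  · intro e
    apply this
    rw [e]
    funext j; fin_cases j <;> simp [cr] <;> ring

lemma sy_cases {ι' : Type} (y' : ι' → R3) (P : ι' × Bool) : sy y' P = y' P.1 ∨ sy y' P = -(y' P.1) := by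
  unfold sy
  split_ifs
  · left; rfl
  · right; rfl

/-- the value of `om` on the pieces -/
lemma om_CP [Fintype ι] {ι' : Type} [Fintype ι'] {y : ι → R3} {f : ι' → ι}
    (hg : Good (fun i' => y (f i'))) (W : ι' → ℝ) (P : ι' × Bool) (k : ℕ) {x : R3}
    (hx : x ∈ CP y (sy (fun i' => y (f i')) P) k) : om (fun i' => y (f i')) W x = W P.1 := by
  classical
  have hk := inv_pos' k
  obtain ⟨-, h2, h3⟩ := hx
  set Y : R3 := sy (fun i' => y (f i')) P with hY
  have habs : |dt (y (f P.1)) x| = dt Y x := by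
    rcases sy_cases (fun i' => y (f i')) P with h | h
    · rw [hY, h]; exact abs_of_pos (by rw [← h, ← hY]; linarith)
    · have h5 : dt Y x = -dt (y (f P.1)) x := by rw [hY, h, neg_dt]
      rw [h5, abs_of_neg (by linarith)]
  have hlt : ∀ l, l ≠ P.1 → |dt (y (f l)) x| < |dt (y (f P.1)) x| := by
    intro l hl
    have hne := np_ne hg (Ne.symm hl)
    rw [habs]
    have h6 : y (f l) ≠ Y ∧ y (f l) ≠ -Y := by
      rcases sy_cases (fun i' => y (f i')) P with h | h
      · rw [hY, h]; exact hne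
      · rw [hY, h, neg_neg]; exact ⟨hne.2, hne.1⟩
    linarith [h3 (f l) h6.1 h6.2]
  unfold om
  rw [Finset.sum_eq_single P.1]
  · rw [indicator_of_mem]
    exact hlt
  · intro i _ hi
    rw [indicator_of_notMem]
    intro hmem
    have h7 := hmem P.1 (Ne.symm hi)
    have h8 := hlt i hi
    simp only at h7
    linarith
  · intro h; exact absurd (Finset.mem_univ _) h

/-! ### exhaustion -/

lemma KK_closed [Fintype ι] (y : ι → R3) : IsClosed (KK y) := by
  have e : KK y = ⋂ l, {x | |dt (y l) x| ≤ 1} := by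
    ext x; simp [KK, K]
  rw [e]
  exact isClosed_iInter fun l => isClosed_le (cont_dt _).abs continuous_const

lemma KK_meas [Fintype ι] (y : ι → R3) : MeasurableSet (KK y) := (KK_closed y).measurableSet

lemma KK_compact [Fintype ι] {y : ι → R3} {R : ℝ} (h : ∀ x ∈ KK y, ∀ k, |x k| ≤ R) :
    IsCompact (KK y) :=
  Metric.isCompact_of_isClosed_isBounded (KK_closed y) (bounded_of_coord h)

lemma nonempty_of_npb {ι' : Type} {y' : ι' → R3} (h : Npb y') : Nonempty ι' := by
  by_contra hne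
  rw [not_nonempty_iff] at hne
  obtain ⟨R, hR⟩ := h.bd
  have h1 : (fun _ => |R| + 1 : R3) ∈ KK y' := fun i => (hne.false i).elim
  have h2 := hR _ h1 0
  have h3 := le_abs_self R
  have h4 := abs_nonneg R
  rw [abs_of_nonneg (by linarith)] at h2
  linarith

lemma ne_zero_of_good {ι' : Type} [Fintype ι'] (hBAS : Stmt_BAS) {y' : ι' → R3} (hg : Good y')
    (i : ι') : y' i ≠ 0 := by
  have := nonempty_of_npb hg.toNpb
  have hc := (hBAS ι' y' hg.toNpb inferInstance).2.2.2.2.2.1
  obtain ⟨l, hl⟩ := Fintype.exists_ne_of_one_lt_card (by omega : 1 < Fintype.card ι') i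
  intro h0
  apply hg.np i l (Ne.symm hl)
  rw [h0]
  funext j; fin_cases j <;> simp [cr]

lemma exhaust [Fintype ι] {ι' : Type} [Fintype ι'] (hBAS : Stmt_BAS) {y : ι → R3} {f : ι' → ι}
    (hs : Sel y f) (hg : Good (fun i' => y (f i'))) :
    ∀ᵐ x ∂(volume.restrict (KK y)), ∃ P : ι' × Bool, ∀ᶠ k : ℕ in atTop,
      x ∈ CP y (sy (fun i' => y (f i')) P) k := by
  have hne' := nonempty_of_npb hg.toNpb
  have : Nonempty ι := ⟨f hne'.some⟩
  rw [ae_restrict_iff' (KK_meas y)]
  have h1 : ∀ᵐ x : R3, ∀ l l' : ι, y l ≠ y l' → dt (y l) x ≠ dt (y l') x := by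
    rw [ae_all_iff]; intro l
    rw [ae_all_iff]; intro l'
    by_cases h : y l = y l'
    · exact Eventually.of_forall fun x hx => absurd h hx
    · have := plane_null (y l - y l') 0 (Or.inl (sub_ne_zero.mpr h))
      have h2 : ∀ᵐ x : R3, ¬ (dt (y l - y l') x = 0) := by
        rw [ae_iff]; simpa using this
      filter_upwards [h2] with x hx _ hxx
      apply hx; rw [sub_dt, hxx, sub_self]
  have h2 : ∀ᵐ x : R3, ∀ l l' : ι, y l ≠ -(y l') → dt (y l) x ≠ -dt (y l') x := by
    rw [ae_all_iff]; intro l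
    rw [ae_all_iff]; intro l'
    by_cases h : y l = -(y l')
    · exact Eventually.of_forall fun x hx => absurd h hx
    · have h0 : y l + y l' ≠ 0 := fun h' => h (eq_neg_of_add_eq_zero_left h')
      have := plane_null (y l + y l') 0 (Or.inl h0)
      have h2 : ∀ᵐ x : R3, ¬ (dt (y l + y l') x = 0) := by
        rw [ae_iff]; simpa using this
      filter_upwards [h2] with x hx _ hxx
      apply hx; rw [add_dt, hxx]; ring
  have h3 : ∀ᵐ x : R3, ∀ l : ι, |dt (y l) x| ≠ 1 := by
    rw [ae_all_iff]; intro l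
    have ha := plane_null (y l) 1 (Or.inr one_ne_zero)
    have hb := plane_null (y l) (-1) (Or.inr (by norm_num))
    have ha' : ∀ᵐ x : R3, ¬ (dt (y l) x = 1) := by rw [ae_iff]; simpa using ha
    have hb' : ∀ᵐ x : R3, ¬ (dt (y l) x = -1) := by rw [ae_iff]; simpa using hb
    filter_upwards [ha', hb'] with x hx hx' h
    rcases (abs_eq (by norm_num : (0 : ℝ) ≤ 1)).mp h with h | h
    · exact hx h
    · exact hx' h
  have h4 : ∀ᵐ x : R3, ∀ l : ι, volume (co y l) = 0 → x ∉ co y l := by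
    rw [ae_all_iff]; intro l
    by_cases h : volume (co y l) = 0
    · have : ∀ᵐ x : R3, x ∉ co y l := by rw [ae_iff]; simpa using h
      filter_upwards [this] with x hx _ using hx
    · exact Eventually.of_forall fun x hx => absurd hx h
  have ht : Tendsto (fun k : ℕ => 1 / ((k : ℝ) + 1)) atTop (𝓝 0) :=
    tendsto_one_div_add_atTop_nhds_zero_nat
  have hev : ∀ e : ℝ, 0 < e → ∀ᶠ k : ℕ in atTop, 1 / ((k : ℝ) + 1) < e := fun e he =>
    ht.eventually (gt_mem_nhds he)
  filter_upwards [h1, h2, h3, h4] with x hx1 hx2 hx3 hx4 hxK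
  obtain ⟨l0, hl0⟩ := Finite.exists_max (fun l => |dt (y l) x|)
  have hco : x ∈ co y l0 := ⟨hxK, hl0⟩
  rcases hs.cls l0 with ⟨i', hi'⟩ | hnull
  swap
  · exact absurd hco (hx4 l0 hnull)
  have habs : |dt (y (f i')) x| = |dt (y l0) x| := by
    rcases hi' with h | h
    · rw [h]
    · rw [h, neg_dt, abs_neg]
  have hy0 : y (f i') ≠ 0 := ne_zero_of_good hBAS hg i'
  have hyn : y (f i') ≠ -(y (f i')) := by
    intro h
    apply hy0
    have h5 : (2 : ℝ) • y (f i') = 0 := by
      rw [two_smul]; nth_rewrite 1 [h]; simp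
    exact (smul_eq_zero.mp h5).resolve_left two_ne_zero
  have hd0 : dt (y (f i')) x ≠ 0 := by
    intro h
    apply hx2 (f i') (f i') hyn
    rw [h, neg_zero]
  -- choose the sign
  obtain ⟨b, hb⟩ : ∃ b : Bool, dt (sy (fun i' => y (f i')) (i', b)) x = |dt (y (f i')) x| := by
    rcases lt_or_gt_of_ne hd0 with h | h
    · refine ⟨false, ?_⟩
      simp only [sy, Bool.false_eq_true, if_false, neg_dt]
      rw [abs_of_neg h]
    · refine ⟨true, ?_⟩
      simp only [sy, if_true]
      rw [abs_of_pos h]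
  refine ⟨(i', b), ?_⟩
  set Y : R3 := sy (fun i' => y (f i')) (i', b) with hY
  have hYpos : 0 < dt Y x := by rw [hb]; exact abs_pos.mpr hd0
  have hmax : ∀ l, |dt (y l) x| ≤ dt Y x := fun l => by rw [hb, habs]; exact hl0 l
  have hYc : Y = y (f i') ∨ Y = -(y (f i')) := sy_cases _ _
  have c1 : ∀ᶠ k : ℕ in atTop, ∀ l, |dt (y l) x| ≤ 1 - 1 / ((k : ℝ) + 1) := by
    rw [eventually_all]
    intro l
    have h5 : |dt (y l) x| < 1 := lt_of_le_of_ne (hxK l) (hx3 l)
    filter_upwards [hev (1 - |dt (y l) x|) (by linarith)] with k hk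
    linarith
  have c2 : ∀ᶠ k : ℕ in atTop, 1 / ((k : ℝ) + 1) ≤ dt Y x := by
    filter_upwards [hev _ hYpos] with k hk using hk.le
  have c3 : ∀ᶠ k : ℕ in atTop, ∀ l, y l ≠ Y → y l ≠ -Y →
      |dt (y l) x| ≤ dt Y x - 1 / ((k : ℝ) + 1) := by
    rw [eventually_all]
    intro l
    by_cases ha : y l ≠ Y
    swap
    · exact Eventually.of_forall fun k h => absurd h ha
    by_cases hb' : y l ≠ -Y
    swap
    · exact Eventually.of_forall fun k _ h => absurd h hb'
    have h5 : |dt (y l) x| < dt Y x := by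
      refine lt_of_le_of_ne (hmax l) ?_
      intro he
      rcases hYc with hc | hc
      · rcases abs_choice (dt (y l) x) with h6 | h6
        · exact hx1 l (f i') (by rw [← hc]; exact ha) (by rw [← hc, ← he, h6])
        · exact hx2 l (f i') (by rw [← hc]; exact hb') (by rw [← hc, ← he, h6, neg_neg])
      · have h7 : dt (y (f i')) x = -dt Y x := by rw [hc, neg_dt, neg_neg]
        rcases abs_choice (dt (y l) x) with h6 | h6
        · exact hx2 l (f i') (by rw [← hc]; exact ha) (by rw [h7, ← he, h6, neg_neg])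
        · exact hx1 l (f i') (by rw [hc, neg_neg] at hb'; exact hb') (by rw [h7, ← he, h6, neg_neg])
    filter_upwards [hev (dt Y x - |dt (y l) x|) (by linarith)] with k hk _ _
    linarith
  filter_upwards [c1, c2, c3] with k k1 k2 k3
  exact ⟨k1, k2, k3⟩

/-- union of the pieces -/
def UU {ι' : Type} (y : ι → R3) (f : ι' → ι) (k : ℕ) : Set R3 :=
  ⋃ P : ι' × Bool, CP y (sy (fun i' => y (f i')) P) k

lemma UU_mono {ι' : Type} (y : ι → R3) (f : ι' → ι) : Monotone (UU y f) := by
  intro k k' h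
  exact iUnion_mono fun P => CP_mono _ _ h

lemma UU_sub {ι' : Type} (y : ι → R3) (f : ι' → ι) (k : ℕ) : UU y f k ⊆ KK y :=
  iUnion_subset fun _ => CP_sub _ _ _

lemma UU_meas [Fintype ι] {ι' : Type} [Fintype ι'] (y : ι → R3) (f : ι' → ι) (k : ℕ) :
    MeasurableSet (UU y f k) :=
  MeasurableSet.iUnion fun _ => (CP_closed _ _ _).measurableSet

lemma UU_ae [Fintype ι] {ι' : Type} [Fintype ι'] (hBAS : Stmt_BAS) {y : ι → R3} {f : ι' → ι}
    (hs : Sel y f) (hg : Good (fun i' => y (f i'))) :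
    (⋃ k, UU y f k : Set R3) =ᵐ[volume] KK y := by
  have h := exhaust hBAS hs hg
  rw [ae_restrict_iff' (KK_meas y)] at h
  filter_upwards [h] with x hx
  apply propext
  constructor
  · intro hxU
    obtain ⟨k, hk⟩ := mem_iUnion.mp hxU
    exact UU_sub y f k hk
  · intro hxK
    obtain ⟨P, hP⟩ := hx hxK
    obtain ⟨k, hk⟩ := hP.exists
    exact mem_iUnion.mpr ⟨k, mem_iUnion.mpr ⟨P, hk⟩⟩

/-! ### integrals of bounded functions -/

/-- bounded measurable functions -/
def Bd (F : R3 → ℝ) : Prop := Measurable F ∧ ∃ C : ℝ, ∀ x, |F x| ≤ C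

lemma Bd.int {F : R3 → ℝ} (h : Bd F) {A : Set R3} (hA : volume A ≠ ⊤) : IntegrableOn F A := by
  obtain ⟨C, hC⟩ := h.2
  exact Measure.integrableOn_of_bounded hA h.1.aestronglyMeasurable
    (Eventually.of_forall fun x => by simpa using hC x)

lemma Bd.const (c : ℝ) : Bd (fun _ => c) := ⟨measurable_const, |c|, fun _ => le_rfl⟩

lemma Bd.sub {F G : R3 → ℝ} (h : Bd F) (h' : Bd G) : Bd (fun x => F x - G x) := by
  obtain ⟨C, hC⟩ := h.2
  obtain ⟨D, hD⟩ := h'.2
  exact ⟨h.1.sub h'.1, C + D, fun x => (abs_sub _ _).trans (add_le_add (hC x) (hD x))⟩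

lemma Bd.add {F G : R3 → ℝ} (h : Bd F) (h' : Bd G) : Bd (fun x => F x + G x) := by
  obtain ⟨C, hC⟩ := h.2
  obtain ⟨D, hD⟩ := h'.2
  exact ⟨h.1.add h'.1, C + D, fun x => (abs_add_le _ _).trans (add_le_add (hC x) (hD x))⟩

lemma Bd.sq {F : R3 → ℝ} (h : Bd F) : Bd (fun x => F x ^ 2) := by
  obtain ⟨C, hC⟩ := h.2
  refine ⟨h.1.pow_const 2, C ^ 2, fun x => ?_⟩
  rw [abs_pow]
  exact pow_le_pow_left₀ (abs_nonneg _) (hC x) 2

lemma Bd.cmul {F : R3 → ℝ} (h : Bd F) (c : ℝ) : Bd (fun x => c * F x) := by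
  obtain ⟨C, hC⟩ := h.2
  refine ⟨h.1.const_mul c, |c| * C, fun x => ?_⟩
  rw [abs_mul]
  exact mul_le_mul_of_nonneg_left (hC x) (abs_nonneg _)

lemma Bd.subc {F : R3 → ℝ} (h : Bd F) (c : ℝ) : Bd (fun x => F x - c) := h.sub (Bd.const c)

/-- change of the constant -/
lemma int_change {F : R3 → ℝ} (h : Bd F) {A : Set R3} (hA : volume A ≠ ⊤) (c c' : ℝ) :
    ∫ x in A, (F x - c) ^ 2 ≤ 2 * (∫ x in A, (F x - c') ^ 2) + 2 * (volume A).toReal * (c' - c) ^ 2 := by
  have h1 : ∫ x in A, (F x - c) ^ 2 ≤ ∫ x in A, (2 * (F x - c') ^ 2 + 2 * (c' - c) ^ 2) := by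
    apply integral_mono ((h.subc c).sq.int hA)
      ((((h.subc c').sq.cmul 2).add (Bd.const (2 * (c' - c) ^ 2))).int hA)
    intro x
    simp only
    nlinarith [sq_nonneg (F x - c' - (c' - c))]
  rw [integral_add (((h.subc c').sq.cmul 2).int hA) ((Bd.const _).int hA), integral_const_mul,
    setIntegral_const, smul_eq_mul] at h1
  have h2 : volume.real A = (volume A).toReal := rfl
  rw [h2] at h1
  linarith

lemma int_const_le {F : R3 → ℝ} (h : Bd F) {A : Set R3} (hA : volume A ≠ ⊤) (c c' : ℝ) :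
    (volume A).toReal * (c - c') ^ 2 ≤
      2 * (∫ x in A, (F x - c) ^ 2) + 2 * (∫ x in A, (F x - c') ^ 2) := by
  have h1 : ∫ _ in A, (c - c') ^ 2 ≤ ∫ x in A, (2 * (F x - c) ^ 2 + 2 * (F x - c') ^ 2) := by
    apply integral_mono ((Bd.const _).int hA)
      ((((h.subc c).sq.cmul 2).add ((h.subc c').sq.cmul 2)).int hA)
    intro x
    simp only
    nlinarith [sq_nonneg (F x - c' + (F x - c))]
  rw [integral_add (((h.subc c).sq.cmul 2).int hA) (((h.subc c').sq.cmul 2).int hA),
    integral_const_mul, integral_const_mul, setIntegral_const, smul_eq_mul] at h1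
  exact h1

lemma int_mono_set {F : R3 → ℝ} (h : Bd F) {A A' : Set R3} (hA : volume A' ≠ ⊤) (hs : A ⊆ A')
    (h0 : ∀ x, 0 ≤ F x) : ∫ x in A, F x ≤ ∫ x in A', F x :=
  setIntegral_mono_set (h.int hA) (Eventually.of_forall h0) (LE.le.eventuallyLE hs)

lemma int_iUnion_le {κ : Type} [Fintype κ] {F : R3 → ℝ} (h : Bd F) (h0 : ∀ x, 0 ≤ F x)
    {A : κ → Set R3} (hm : ∀ P, MeasurableSet (A P)) (hf : ∀ P, volume (A P) ≠ ⊤) :
    ∫ x in ⋃ P, A P, F x ≤ ∑ P, ∫ x in A P, F x := by
  have hU : volume (⋃ P, A P) ≠ ⊤ := by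
    exact ((measure_iUnion_fintype_le _ _).trans_lt
      (ENNReal.sum_lt_top.mpr fun P _ => (hf P).lt_top)).ne
  rw [← integral_indicator (MeasurableSet.iUnion hm)]
  have e : ∀ P, ∫ x in A P, F x = ∫ x, (A P).indicator F x := fun P =>
    (integral_indicator (hm P)).symm
  simp_rw [e]
  rw [← integral_finsetSum]
  · apply integral_mono
    · exact (integrable_indicator_iff (MeasurableSet.iUnion hm)).mpr (h.int hU)
    · exact integrable_finsetSum _ fun P _ => (integrable_indicator_iff (hm P)).mpr (h.int (hf P))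
    · intro x
      simp only
      by_cases hx : x ∈ ⋃ P, A P
      · rw [indicator_of_mem hx]
        obtain ⟨P, hP⟩ := mem_iUnion.mp hx
        have : F x = (A P).indicator F x := (indicator_of_mem hP F).symm
        rw [this]
        exact Finset.single_le_sum (f := fun P => (A P).indicator F x)
          (fun P _ => indicator_nonneg (fun x _ => h0 x) x) (Finset.mem_univ P)
      · rw [indicator_of_notMem hx]
        exact Finset.sum_nonneg fun P _ => indicator_nonneg (fun x _ => h0 x) x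
  · intro P _
    exact (integrable_indicator_iff (hm P)).mpr (h.int (hf P))

/-- `Tendsto` to `0` of a sequence from its square -/
lemma tendsto_zero_of_sq {d e : ℕ → ℝ} (h : ∀ n, d n ^ 2 ≤ e n) (he : Tendsto e atTop (𝓝 0)) :
    Tendsto d atTop (𝓝 0) := by
  have h1 : Tendsto (fun n => Real.sqrt (e n)) atTop (𝓝 0) := by
    have := (Real.continuous_sqrt.tendsto 0).comp he
    simpa [Function.comp_def] using this
  refine squeeze_zero_norm (fun n => ?_) h1
  rw [Real.norm_eq_abs]
  exact Real.abs_le_sqrt (h n)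

lemma famg_npb {y : ι → R3} (h : FamG y) (hN : Nm y) : Npb y := by
  refine ⟨fun i k hik hcr => ?_, 1, hN.cub⟩
  obtain ⟨a, b, c, hab, hac, hbc⟩ := h.three
  have key : ∀ j, j ≠ i → j ≠ k → False := by
    intro j hji hjk
    apply h.ind i k j hik (Ne.symm hji) (Ne.symm hjk)
    rw [de, hcr]; simp [dt]
  by_cases ha : a = i
  · by_cases hb : b = k
    · exact key c (fun h => hac (by rw [ha, h])) (fun h => hbc (by rw [hb, h]))
    · exact key b (fun h => hab (by rw [ha, h])) hb
  · by_cases ha' : a = k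
    · by_cases hb : b = i
      · exact key c (fun h => hbc (by rw [hb, h])) (fun h => hac (by rw [ha', h]))
      · exact key b hb (fun h => hab (by rw [ha', h]))
    · exact key a ha ha'

lemma om_bd [Fintype ι] (hOMI : Stmt_OMI) {y : ι → R3} (hn : Npb y) (w : ι → ℝ) : Bd (om y w) := by
  obtain ⟨h1, h2, -⟩ := hOMI ι y hn w
  exact ⟨h1, h2⟩

/-- `om` is even: integrals over the reflected piece -/
lemma int_CP_neg [Fintype ι] {κ : Type} [Fintype κ] (hOMI : Stmt_OMI) {y0 : κ → R3} (hn : Npb y0)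
    (w : κ → ℝ) (y : ι → R3) (Y : R3) (k : ℕ) (c : ℝ) :
    ∫ x in CP y (-Y) k, (om y0 w x - c) ^ 2 = ∫ x in CP y Y k, (om y0 w x - c) ^ 2 := by
  obtain ⟨-, -, h3, -⟩ := hOMI κ y0 hn w
  have h := Measure.setIntegral_comp_smul (volume : Measure R3)
    (fun x => (om y0 w x - c) ^ 2) (R := -1) (CP y Y k) (by norm_num)
  have e1 : ((-1 : ℝ) • CP y Y k : Set R3) = CP y (-Y) k := by
    ext x
    rw [mem_smul_set_iff_inv_smul_mem₀ (by norm_num : (-1 : ℝ) ≠ 0), CP_neg]
    norm_num
  rw [e1] at h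
  have e2 : |((-1 : ℝ) ^ Module.finrank ℝ R3)⁻¹| = 1 := by
    rw [abs_inv, abs_pow]; norm_num
  rw [e2, one_smul] at h
  rw [← h]
  congr 1
  funext x
  rw [h3 (-1) x (by norm_num)]

/-- `EQI` at full scale -/
lemma eqi_full [Fintype ι] (hOMI : Stmt_OMI) (hEQI : Stmt_EQI) {y : ι → R3} (hn : Npb y)
    (hN : Nm y) (w : ι → ℝ) {Z : Set R3} (hZ : MeasurableSet Z) (hZK : Z ⊆ KK y) {s : ℝ}
    (hs : 0 < s) (hs2 : s ≤ 1 / 2) :
    ∫ x in Z, om y w x ^ 2 ≤ 27 / (4 * s ^ 3) * (volume Z).toReal * (∑ i, mu y i * w i ^ 2) +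
      16 * s * En y w := by
  obtain ⟨-, -, h3, -⟩ := hOMI ι y hn w
  set Z' : Set R3 := (fun x : R3 => (2 : ℝ) • x) ⁻¹' Z with hZ'
  have hm' : MeasurableSet Z' := hZ.preimage (measurable_const_smul (2 : ℝ))
  have hv : volume Z' = ENNReal.ofReal (1 / 8) * volume Z := by
    rw [hZ', Measure.addHaar_preimage_smul volume two_ne_zero]
    congr 2
    simp only [Module.finrank_fin_fun]
    norm_num
  have hv' : (volume Z').toReal = 1 / 8 * (volume Z).toReal := by
    rw [hv, ENNReal.toReal_mul, ENNReal.toReal_ofReal (by norm_num)]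
  have h1 := hEQI ι y hn hN w Z' hm' (fun x hx => hZK hx) s hs hs2
  have h := Measure.setIntegral_comp_smul (volume : Measure R3)
    (fun x => om y w x ^ 2) (R := 2) Z' (by norm_num)
  have e1 : ((2 : ℝ) • Z' : Set R3) = Z := by
    ext x
    rw [mem_smul_set_iff_inv_smul_mem₀ (by norm_num : (2 : ℝ) ≠ 0), hZ', mem_preimage,
      smul_inv_smul₀ (by norm_num : (2 : ℝ) ≠ 0)]
  have e2 : |((2 : ℝ) ^ Module.finrank ℝ R3)⁻¹| = 1 / 8 := by
    simp only [Module.finrank_fin_fun]
    norm_num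
  rw [e1, e2, smul_eq_mul] at h
  have e3 : ∫ x in Z', om y w ((2 : ℝ) • x) ^ 2 = ∫ x in Z', om y w x ^ 2 := by
    congr 1
    funext x
    rw [h3 2 x (by norm_num)]
  rw [e3] at h
  rw [hv'] at h1
  have e4 : ∫ x in Z, om y w x ^ 2 = 8 * ∫ x in Z', om y w x ^ 2 := by rw [h]; ring
  rw [e4]
  calc 8 * ∫ x in Z', om y w x ^ 2 ≤ 8 * (27 / (4 * s ^ 3) * (1 / 8 * (volume Z).toReal) *
        (∑ i, mu y i * w i ^ 2) + 2 * s * En y w) := by linarith
    _ = _ := by ring

/-! ### the constants -/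

/-- some piece of each cone has positive volume -/
lemma exists_pos [Fintype ι] {ι' : Type} [Fintype ι'] (hBAS : Stmt_BAS) {y : ι → R3} {f : ι' → ι}
    (hs : Sel y f) (hg : Good (fun i' => y (f i'))) (i' : ι') :
    ∃ k, 0 < volume (CP y (y (f i')) k) := by
  by_contra hcon
  push Not at hcon
  have hz : ∀ k, volume (CP y (y (f i')) k) = 0 := fun k => le_antisymm (hcon k) bot_le
  have hz' : ∀ k, volume (CP y (-(y (f i'))) k) = 0 := by
    intro k
    have e : CP y (-(y (f i'))) k = -(CP y (y (f i')) k) := by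
      ext x; rw [Set.mem_neg, CP_neg]
    rw [e, Measure.measure_neg]; exact hz k
  have h := exhaust hBAS hs hg
  rw [ae_restrict_iff' (KK_meas y)] at h
  have hn1 : ∀ᵐ x : R3, ∀ k, x ∉ CP y (y (f i')) k ∧ x ∉ CP y (-(y (f i'))) k := by
    rw [ae_all_iff]; intro k
    have h1 : ∀ᵐ x : R3, x ∉ CP y (y (f i')) k := by rw [ae_iff]; simpa using hz k
    have h2 : ∀ᵐ x : R3, x ∉ CP y (-(y (f i'))) k := by rw [ae_iff]; simpa using hz' k
    filter_upwards [h1, h2] with x a b using ⟨a, b⟩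
  have hco : ∀ᵐ x : R3, x ∉ co (fun i' => y (f i')) i' := by
    filter_upwards [h, hn1] with x hx hx' hxc
    have hK : x ∈ KK y := by rw [← hs.same]; exact hxc.1
    obtain ⟨P, hP⟩ := hx hK
    obtain ⟨k, hk⟩ := hP.exists
    have hk0 := inv_pos' k
    by_cases hPi : P.1 = i'
    · rcases sy_cases (fun i' => y (f i')) P with h5 | h5
      · rw [h5, hPi] at hk; exact (hx' k).1 hk
      · rw [h5, hPi] at hk; exact (hx' k).2 hk
    · have hne := np_ne hg hPi
      set Y : R3 := sy (fun i' => y (f i')) P with hY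
      have h6 : y (f i') ≠ Y ∧ y (f i') ≠ -Y := by
        rcases sy_cases (fun i' => y (f i')) P with h | h
        · rw [hY, h]; exact hne
        · rw [hY, h, neg_neg]; exact ⟨hne.2, hne.1⟩
      have h7 := hk.2.2 (f i') h6.1 h6.2
      have h8 : dt Y x ≤ |dt (y (f P.1)) x| := by
        rcases sy_cases (fun i' => y (f i')) P with h | h
        · rw [hY, h]; exact le_abs_self _
        · rw [hY, h, neg_dt]; exact neg_le_abs _
      have h9 : |dt (y (f P.1)) x| ≤ |dt (y (f i')) x| := hxc.2 P.1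
      linarith
  have hv : volume (co (fun i' => y (f i')) i') = 0 := by
    rw [ae_iff] at hco; simpa using hco
  have := hg.mp i'
  unfold mu at this
  rw [hv] at this
  simp at this

lemma consts [Fintype ι] [DecidableEq ι] {ι' : Type} [Fintype ι'] (hLS2 : Stmt_LS2)
    (hOMI : Stmt_OMI) (hBAS : Stmt_BAS) {ys : ℕ → ι → R3} {ws : ℕ → ι → ℝ} {y : ι → R3} {C0 : ℝ}
    (hsq : Sq ys ws y C0) {f : ι' → ι} (hs : Sel y f) (hg : Good (fun i' => y (f i'))) :
    ∃ (φ : ℕ → ℕ) (W : ι' → ℝ), StrictMono φ ∧ ∀ (P : ι' × Bool) (k : ℕ),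
      Tendsto (fun n => ∫ x in CP y (sy (fun i' => y (f i')) P) k,
        (om (ys (φ n)) (ws (φ n)) x - W P.1) ^ 2) atTop (𝓝 0) := by
  have hnp : ∀ n, Npb (ys n) := fun n => famg_npb (hsq.fam n) (hsq.nm n)
  have hB : ∀ n, Bd (om (ys n) (ws n)) := fun n => om_bd hOMI (hnp n) _
  obtain ⟨R, hR⟩ := hg.bd
  have hR' : ∀ x ∈ KK y, ∀ k, |x k| ≤ R := fun x hx => hR x (by rw [hs.same]; exact hx)
  have hcpt : ∀ Y k, IsCompact (CP y Y k) := fun Y k => CP_compact y Y k hR'
  have hfin : ∀ Y k, volume (CP y Y k) ≠ ⊤ := fun Y k => (hcpt Y k).measure_lt_top.ne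
  choose k0 hk0 using fun i' => exists_pos hBAS hs hg i'
  have hc : ∀ i', ∃ c : ℕ → ℝ,
      (∀ n, c n ^ 2 ≤ 1 / (volume (CP y (y (f i')) (k0 i'))).toReal + 1 / (n + 1)) ∧
      Tendsto (fun n => ∫ x in CP y (y (f i')) (k0 i'), (om (ys n) (ws n) x - c n) ^ 2)
        atTop (𝓝 0) := fun i' =>
    hLS2 ι ys ws y C0 hsq (f i') (CP y (y (f i')) (k0 i')) (hcpt _ _) (CP_convex _ _ _) (hk0 i')
      (CP_int _ _ _)
  choose c hc1 hc2 using hc
  set B : ι' → ℝ := fun i' => 1 / (volume (CP y (y (f i')) (k0 i'))).toReal + 2 with hBdef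
  have hB0 : ∀ i', 0 ≤ B i' := fun i' => by rw [hBdef]; positivity
  have hcB : ∀ i' n, |c i' n| ≤ B i' := by
    intro i' n
    have h1 := hc1 i' n
    have h2 : 1 / ((n : ℝ) + 1) ≤ 1 := by
      rw [div_le_one (by positivity)]
      have : (0 : ℝ) ≤ n := Nat.cast_nonneg n
      linarith
    have h3 : |c i' n| ≤ 1 + c i' n ^ 2 := by
      rw [← sq_abs (c i' n)]
      nlinarith [sq_nonneg (|c i' n| - 1), abs_nonneg (c i' n)]
    rw [hBdef]
    simp only
    linarith
  obtain ⟨W, -, φ, hφ, hW⟩ := tendsto_subseq_of_bounded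
    (s := Metric.closedBall (0 : ι' → ℝ) (∑ i', B i')) Metric.isBounded_closedBall
    (x := fun n i' => c i' n) (fun n => by
      rw [mem_closedBall_zero_iff, pi_norm_le_iff_of_nonneg (Finset.sum_nonneg fun i _ => hB0 i)]
      intro i'
      rw [Real.norm_eq_abs]
      exact (hcB i' n).trans (Finset.single_le_sum (fun i _ => hB0 i) (Finset.mem_univ i')))
  have hW' : ∀ i', Tendsto (fun n => c i' (φ n)) atTop (𝓝 (W i')) := fun i' =>
    tendsto_pi_nhds.mp hW i'
  refine ⟨φ, W, hφ, ?_⟩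
  have main : ∀ i' k, Tendsto (fun n => ∫ x in CP y (y (f i')) k,
      (om (ys (φ n)) (ws (φ n)) x - W i') ^ 2) atTop (𝓝 0) := by
    intro i' k
    set k1 := max k (k0 i') with hk1
    have hsub : CP y (y (f i')) (k0 i') ⊆ CP y (y (f i')) k1 := CP_mono _ _ (le_max_right _ _)
    have hsub' : CP y (y (f i')) k ⊆ CP y (y (f i')) k1 := CP_mono _ _ (le_max_left _ _)
    obtain ⟨c', hc1', hc2'⟩ := hLS2 ι ys ws y C0 hsq (f i') (CP y (y (f i')) k1) (hcpt _ _)
      (CP_convex _ _ _) ((hk0 i').trans_le (measure_mono hsub)) (CP_int _ _ _)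
    have vA : 0 < (volume (CP y (y (f i')) (k0 i'))).toReal :=
      ENNReal.toReal_pos (hk0 i').ne' (hfin _ _)
    have hd : Tendsto (fun n => c i' n - c' n) atTop (𝓝 0) := by
      apply tendsto_zero_of_sq (e := fun n =>
        (2 * (∫ x in CP y (y (f i')) (k0 i'), (om (ys n) (ws n) x - c i' n) ^ 2) +
          2 * (∫ x in CP y (y (f i')) k1, (om (ys n) (ws n) x - c' n) ^ 2)) /
          (volume (CP y (y (f i')) (k0 i'))).toReal)
      · intro n
        rw [le_div_iff₀ vA]
        have h1 := int_const_le (hB n) (hfin (y (f i')) (k0 i')) (c i' n) (c' n)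
        have h2 := int_mono_set ((hB n).subc (c' n)).sq (hfin (y (f i')) k1) hsub
          (fun x => sq_nonneg _)
        linarith
      · have := (((hc2 i').const_mul 2).add (hc2'.const_mul 2)).div_const
          (volume (CP y (y (f i')) (k0 i'))).toReal
        simpa using this
    have hc'W : Tendsto (fun n => c' (φ n)) atTop (𝓝 (W i')) := by
      have h1 := (hW' i').sub (hd.comp hφ.tendsto_atTop)
      simp only [Function.comp_def, sub_zero, sub_sub_cancel] at h1
      exact h1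
    have hup : Tendsto (fun n => 2 * (∫ x in CP y (y (f i')) k1,
        (om (ys (φ n)) (ws (φ n)) x - c' (φ n)) ^ 2) +
        2 * (volume (CP y (y (f i')) k1)).toReal * (c' (φ n) - W i') ^ 2) atTop (𝓝 0) := by
      have h1 := (hc2'.comp hφ.tendsto_atTop).const_mul 2
      have h2 := ((hc'W.sub_const (W i')).pow 2).const_mul
        (2 * (volume (CP y (y (f i')) k1)).toReal)
      have h3 := h1.add h2
      simpa [Function.comp_def] using h3
    refine squeeze_zero (fun n => integral_nonneg fun x => sq_nonneg _) (fun n => ?_) hup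
    refine (int_mono_set ((hB (φ n)).subc (W i')).sq (hfin (y (f i')) k1) hsub'
      (fun x => sq_nonneg _)).trans ?_
    exact int_change (hB (φ n)) (hfin _ _) (W i') (c' (φ n))
  rintro ⟨i', b⟩ k
  cases b
  · have e : sy (fun i' => y (f i')) (i', false) = -(y (f i')) := by simp [sy]
    rw [e]
    have h1 := main i' k
    refine h1.congr fun n => ?_
    exact (int_CP_neg hOMI (hnp (φ n)) (ws (φ n)) y (y (f i')) k (W i')).symm
  · have e : sy (fun i' => y (f i')) (i', true) = y (f i') := by simp [sy]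
    rw [e]
    exact main i' k

/-! ### volumes -/

lemma KK_fin [Fintype ι] {y : ι → R3} {R : ℝ} (h : ∀ x ∈ KK y, ∀ k, |x k| ≤ R) :
    volume (KK y) ≠ ⊤ := (KK_compact h).measure_lt_top.ne

lemma UU_vol [Fintype ι] {ι' : Type} [Fintype ι'] (hBAS : Stmt_BAS) {y : ι → R3} {f : ι' → ι}
    (hs : Sel y f) (hg : Good (fun i' => y (f i'))) (hfin : volume (KK y) ≠ ⊤) :
    Tendsto (fun k => (volume (UU y f k)).toReal) atTop (𝓝 (volume (KK y)).toReal) := by
  have h1 := tendsto_measure_iUnion_atTop (μ := volume) (UU_mono y f)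
  rw [measure_congr (UU_ae hBAS hs hg)] at h1
  exact (ENNReal.tendsto_toReal hfin).comp h1

lemma dt_close (a b x : R3) (e R : ℝ) (h : ∀ k, |a k - b k| ≤ e)
    (hx : ∀ k, |x k| ≤ R) : |dt a x| ≤ |dt b x| + 3 * (e * R) := by
  have h1 : dt a x = dt b x + ((a 0 - b 0) * x 0 + (a 1 - b 1) * x 1 + (a 2 - b 2) * x 2) := by
    simp only [dt]; ring
  have he : 0 ≤ e := (abs_nonneg _).trans (h 0)
  have h2 : ∀ k, |(a k - b k) * x k| ≤ e * R := by
    intro k
    rw [abs_mul]
    exact mul_le_mul (h k) (hx k) (abs_nonneg _) he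
  rw [h1]
  refine (abs_add_le _ _).trans ?_
  have h3 : |(a 0 - b 0) * x 0 + (a 1 - b 1) * x 1 + (a 2 - b 2) * x 2| ≤ 3 * (e * R) := by
    refine (abs_add_le _ _).trans ?_
    have := abs_add_le ((a 0 - b 0) * x 0) ((a 1 - b 1) * x 1)
    have := h2 0
    have := h2 1
    have := h2 2
    linarith
  linarith

lemma ev_close {ys : ℕ → ι → R3} {y : ι → R3} [Fintype ι] (h : Tendsto ys atTop (𝓝 y)) {e : ℝ}
    (he : 0 < e) : ∀ᶠ n in atTop, ∀ l k, |ys n l k - y l k| ≤ e := by
  rw [eventually_all]; intro l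
  rw [eventually_all]; intro k
  have h1 : Tendsto (fun n => ys n l k) atTop (𝓝 (y l k)) :=
    tendsto_pi_nhds.mp (tendsto_pi_nhds.mp h l) k
  have h2 := (Metric.tendsto_nhds.mp h1) e he
  filter_upwards [h2] with n hn
  rw [Real.dist_eq] at hn
  exact hn.le

/-- the pieces are eventually inside the bodies of the sequence -/
lemma UU_ev [Fintype ι] {ι' : Type} {ys : ℕ → ι → R3} {y : ι → R3} {f : ι' → ι}
    (h : Tendsto ys atTop (𝓝 y)) {R : ℝ} (hR : ∀ x ∈ KK y, ∀ k, |x k| ≤ R) (k : ℕ) :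
    ∀ᶠ n in atTop, UU y f k ⊆ KK (ys n) := by
  set R' := max R 1 with hR'
  have hR0 : 0 < R' := lt_of_lt_of_le one_pos (le_max_right _ _)
  have hk := inv_pos' k
  have he : 0 < 1 / ((k : ℝ) + 1) / (3 * R') := by positivity
  filter_upwards [ev_close h he] with n hn x hx l
  have hxK : x ∈ KK y := UU_sub y f k hx
  obtain ⟨P, hP⟩ := mem_iUnion.mp hx
  have h1 := hP.1 l
  have h2 := dt_close (ys n l) (y l) x _ R' (hn l) (fun j => (hR x hxK j).trans (le_max_left _ _))
  have h3 : 3 * (1 / ((k : ℝ) + 1) / (3 * R') * R') = 1 / ((k : ℝ) + 1) := by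
    field_simp
  rw [h3] at h2
  show |dt (ys n l) x| ≤ 1
  linarith

/-- the volumes of the bodies of the sequence are eventually at most the limit volume plus `η` -/
lemma vol_ev [Fintype ι] {ys : ℕ → ι → R3} {y : ι → R3} (h : Tendsto ys atTop (𝓝 y))
    (hN : ∀ n, Nm (ys n)) (hfin : volume (KK y) ≠ ⊤) {η : ℝ} (hη : 0 < η) :
    ∀ᶠ n in atTop, (volume (KK (ys n))).toReal ≤ (volume (KK y)).toReal + η := by
  set v := (volume (KK y)).toReal with hv
  have hv0 : 0 ≤ v := ENNReal.toReal_nonneg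
  -- choose `e`
  have hcont : Tendsto (fun e : ℝ => (1 + 3 * e) ^ 3 * v) (𝓝[>] 0) (𝓝 v) := by
    have h1 : Continuous (fun e : ℝ => (1 + 3 * e) ^ 3 * v) := by fun_prop
    have h2 := h1.tendsto 0
    simp only [mul_zero, add_zero, one_pow, one_mul] at h2
    exact h2.mono_left nhdsWithin_le_nhds
  have h3 := (hcont.eventually (gt_mem_nhds (show v < v + η by linarith))).and
    self_mem_nhdsWithin
  obtain ⟨e, he1, he2⟩ := h3.exists
  have he : 0 < e := he2
  filter_upwards [ev_close h he] with n hn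
  have hsub : KK (ys n) ⊆ (1 + 3 * e) • KK y := by
    intro x hx
    rw [mem_smul_set_iff_inv_smul_mem₀ (by positivity)]
    intro l
    rw [dt_smul, abs_mul, abs_of_pos (by positivity : (0 : ℝ) < (1 + 3 * e)⁻¹),
      inv_mul_le_iff₀ (by positivity)]
    have h4 := dt_close (y l) (ys n l) x e 1 (fun k => by
      rw [abs_sub_comm]; exact hn l k) ((hN n).cub x hx)
    have h5 : |dt (ys n l) x| ≤ 1 := hx l
    linarith
  have h6 : volume ((1 + 3 * e) • KK y) = ENNReal.ofReal ((1 + 3 * e) ^ 3) * volume (KK y) := by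
    rw [Measure.addHaar_smul]
    congr 2
    simp only [Module.finrank_fin_fun]
    exact abs_of_pos (by positivity)
  have h7 : (volume (KK (ys n))).toReal ≤ (volume ((1 + 3 * e) • KK y)).toReal := by
    apply ENNReal.toReal_mono _ (measure_mono hsub)
    rw [h6]
    exact ENNReal.mul_ne_top ENNReal.ofReal_ne_top hfin
  rw [h6, ENNReal.toReal_mul, ENNReal.toReal_ofReal (by positivity)] at h7
  exact h7.trans he1.le

/-- the error on the union of the pieces -/
lemma UU_conv [Fintype ι] {ι' : Type} [Fintype ι'] (hOMI : Stmt_OMI) {y : ι → R3} {f : ι' → ι}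
    (hg : Good (fun i' => y (f i'))) (hfin : volume (KK y) ≠ ⊤) (W : ι' → ℝ) {F : ℕ → R3 → ℝ}
    (hF : ∀ n, Bd (F n))
    (h : ∀ (P : ι' × Bool) (k : ℕ), Tendsto (fun n => ∫ x in CP y (sy (fun i' => y (f i')) P) k,
      (F n x - W P.1) ^ 2) atTop (𝓝 0)) (k : ℕ) :
    Tendsto (fun n => ∫ x in UU y f k, (F n x - om (fun i' => y (f i')) W x) ^ 2) atTop (𝓝 0) := by
  have hgB : Bd (om (fun i' => y (f i')) W) := om_bd hOMI hg.toNpb W
  have hm : ∀ P : ι' × Bool, MeasurableSet (CP y (sy (fun i' => y (f i')) P) k) := fun P =>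
    (CP_closed _ _ _).measurableSet
  have hf : ∀ P : ι' × Bool, volume (CP y (sy (fun i' => y (f i')) P) k) ≠ ⊤ := fun P =>
    ne_top_of_le_ne_top hfin (measure_mono (CP_sub _ _ _))
  have hsum : Tendsto (fun n => ∑ P : ι' × Bool, ∫ x in CP y (sy (fun i' => y (f i')) P) k,
      (F n x - W P.1) ^ 2) atTop (𝓝 0) := by
    have := tendsto_finsetSum (Finset.univ : Finset (ι' × Bool)) (fun P _ => h P k)
    simpa using this
  refine squeeze_zero (fun n => integral_nonneg fun x => sq_nonneg _) (fun n => ?_) hsum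
  refine (int_iUnion_le ((hF n).sub hgB).sq (fun x => sq_nonneg _) hm hf).trans (le_of_eq ?_)
  refine Finset.sum_congr rfl fun P _ => ?_
  refine setIntegral_congr_fun (hm P) fun x hx => ?_
  show (F n x - om (fun i' => y (f i')) W x) ^ 2 = (F n x - W P.1) ^ 2
  rw [om_CP hg W P k hx]

/-- convergence in measure on the limit body -/
lemma conv_meas [Fintype ι] {ι' : Type} [Fintype ι'] (hOMI : Stmt_OMI) (hBAS : Stmt_BAS)
    {y : ι → R3} {f : ι' → ι} (hs : Sel y f)
    (hg : Good (fun i' => y (f i'))) (hfin : volume (KK y) ≠ ⊤) (W : ι' → ℝ) {F : ℕ → R3 → ℝ}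
    (hF : ∀ n, Bd (F n))
    (h : ∀ (P : ι' × Bool) (k : ℕ), Tendsto (fun n => ∫ x in CP y (sy (fun i' => y (f i')) P) k,
      (F n x - W P.1) ^ 2) atTop (𝓝 0)) :
    TendstoInMeasure (volume.restrict (KK y)) F atTop (om (fun i' => y (f i')) W) := by
  have : IsFiniteMeasure (volume.restrict (KK y)) := ⟨by
    rw [Measure.restrict_apply_univ]; exact hfin.lt_top⟩
  have hgB : Bd (om (fun i' => y (f i')) W) := om_bd hOMI hg.toNpb W
  rw [tendstoInMeasure_iff_measureReal_norm]
  intro e he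
  rw [Metric.tendsto_atTop]
  intro η hη
  have h1 := UU_vol hBAS hs hg hfin
  have h2 := h1.eventually (lt_mem_nhds
    (show (volume (KK y)).toReal - η / 2 < (volume (KK y)).toReal by linarith))
  obtain ⟨k, hk⟩ := h2.exists
  have h3 := UU_conv hOMI hg hfin W hF h k
  have h4 := h3.eventually (gt_mem_nhds (show (0 : ℝ) < e ^ 2 * (η / 2) by positivity))
  obtain ⟨N, hN⟩ := eventually_atTop.mp h4
  refine ⟨N, fun n hn => ?_⟩
  have h5 := hN n hn
  rw [dist_zero_right, Real.norm_eq_abs, abs_of_nonneg measureReal_nonneg]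
  set A : Set R3 := {x | e ≤ ‖F n x - om (fun i' => y (f i')) W x‖} with hA
  have hAm : MeasurableSet A := measurableSet_le measurable_const ((hF n).sub hgB).1.norm
  have hUK := UU_sub y f k
  have hUm := UU_meas y f k
  have hUfin : volume (UU y f k) ≠ ⊤ := ne_top_of_le_ne_top hfin (measure_mono hUK)
  -- split
  have e1 : (volume.restrict (KK y)).real A ≤ volume.real (KK y \ UU y f k) +
      volume.real (A ∩ UU y f k) := by
    rw [measureReal_restrict_apply hAm]
    have hsub : A ∩ KK y ⊆ (KK y \ UU y f k) ∪ (A ∩ UU y f k) := by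
      rintro x ⟨hxA, hxK⟩
      by_cases hxU : x ∈ UU y f k
      · right; exact ⟨hxA, hxU⟩
      · left; exact ⟨hxK, hxU⟩
    refine (measureReal_mono hsub ?_).trans (measureReal_union_le _ _)
    refine ne_top_of_le_ne_top hfin (measure_mono ?_)
    rintro x (hx | hx)
    · exact hx.1
    · exact hUK hx.2
  have e2 : volume.real (KK y \ UU y f k) < η / 2 := by
    have : volume.real (KK y \ UU y f k) = volume.real (KK y) - volume.real (UU y f k) :=
      measureReal_sdiff hUK hUm hfin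
    rw [this]
    have h6 : volume.real (UU y f k) = (volume (UU y f k)).toReal := rfl
    have h7 : volume.real (KK y) = (volume (KK y)).toReal := rfl
    rw [h6, h7]; linarith
  have e3 : e ^ 2 * volume.real (A ∩ UU y f k) ≤
      ∫ x in UU y f k, (F n x - om (fun i' => y (f i')) W x) ^ 2 := by
    have h6 := mul_meas_ge_le_integral_of_nonneg
      (μ := volume.restrict (UU y f k))
      (f := fun x => (F n x - om (fun i' => y (f i')) W x) ^ 2)
      (Eventually.of_forall fun x => sq_nonneg _) (((hF n).sub hgB).sq.int hUfin) (e ^ 2)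
    have h7 : {x | e ^ 2 ≤ (F n x - om (fun i' => y (f i')) W x) ^ 2} = A := by
      ext x
      simp only [hA, mem_ofPred_eq, Real.norm_eq_abs]
      rw [← sq_abs (F n x - om (fun i' => y (f i')) W x)]
      exact pow_le_pow_iff_left₀ he.le (abs_nonneg _) two_ne_zero
    rw [h7, measureReal_restrict_apply hAm] at h6
    exact h6
  have e4 : volume.real (A ∩ UU y f k) < η / 2 := by
    have h6 : e ^ 2 * volume.real (A ∩ UU y f k) < e ^ 2 * (η / 2) := lt_of_le_of_lt e3 h5
    exact lt_of_mul_lt_mul_left h6 (by positivity)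
  linarith

/-! ### the mass -/

/-- the limit of the integrals of `G (om)`, for `G` of at most quadratic growth -/
lemma mass [Fintype ι] [DecidableEq ι] {ι' : Type} [Fintype ι'] (hEQI : Stmt_EQI)
    (hOMI : Stmt_OMI) (hBAS : Stmt_BAS) {ys : ℕ → ι → R3} {ws : ℕ → ι → ℝ} {y : ι → R3} {C0 : ℝ}
    (hsq : Sq ys ws y C0) {f : ι' → ι} (hs : Sel y f) (hg : Good (fun i' => y (f i')))
    {φ : ℕ → ℕ} (hφ : StrictMono φ) {W : ι' → ℝ}
    (hconv : ∀ (P : ι' × Bool) (k : ℕ),
      Tendsto (fun n => ∫ x in CP y (sy (fun i' => y (f i')) P) k,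
        (om (ys (φ n)) (ws (φ n)) x - W P.1) ^ 2) atTop (𝓝 0))
    (G : ℝ → ℝ) (hGc : Measurable G) (hGq : ∀ a, |G a| ≤ 1 + a ^ 2)
    (hGl : ∀ a b t : ℝ, 0 < t → |G a - G b| ≤ (1 + 1 / t) * (a - b) ^ 2 + t * (1 + b ^ 2))
    (cG : ℝ) (hcG : ∀ n, ∫ x in KK (ys n), G (om (ys n) (ws n) x) = cG) :
    ∫ x in KK y, G (om (fun i' => y (f i')) W x) = cG := by
  have hnp : ∀ n, Npb (ys n) := fun n => famg_npb (hsq.fam n) (hsq.nm n)
  have hB : ∀ n, Bd (om (ys n) (ws n)) := fun n => om_bd hOMI (hnp n) _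
  have hGB : ∀ F : R3 → ℝ, Bd F → Bd (fun x => G (F x)) := by
    intro F hF
    obtain ⟨C, hC⟩ := hF.2
    refine ⟨hGc.comp hF.1, 1 + C ^ 2, fun x => (hGq _).trans ?_⟩
    have h1 : F x ^ 2 ≤ C ^ 2 := by
      rw [← sq_abs (F x)]
      exact pow_le_pow_left₀ (abs_nonneg _) (hC x) 2
    linarith
  obtain ⟨R, hR⟩ := hg.bd
  have hR' : ∀ x ∈ KK y, ∀ k, |x k| ≤ R := fun x hx => hR x (by rw [hs.same]; exact hx)
  have hfin : volume (KK y) ≠ ⊤ := KK_fin hR'
  set g : R3 → ℝ := om (fun i' => y (f i')) W with hgdef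
  have hgB : Bd g := om_bd hOMI hg.toNpb W
  have hfn : ∀ n, volume (KK (ys n)) ≠ ⊤ := fun n => KK_fin (hsq.nm n).cub
  set v : ℝ := (volume (KK y)).toReal with hv
  -- fixed `k`, `s`
  have key : ∀ (k : ℕ) (s : ℝ), 0 < s → s ≤ 1 / 2 →
      |cG - ∫ x in UU y f k, G (g x)| ≤
        (1 + 27 / (4 * s ^ 3)) * (v - (volume (UU y f k)).toReal) + 16 * s * C0 := by
    intro k s hs0 hs2
    set u : ℝ := (volume (UU y f k)).toReal with hu
    have hUK := UU_sub y f k
    have hUm := UU_meas y f k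
    have hUfin : volume (UU y f k) ≠ ⊤ := ne_top_of_le_ne_top hfin (measure_mono hUK)
    set M : ℝ := ∫ x in UU y f k, (1 + g x ^ 2) with hM
    have hM0 : 0 ≤ M := integral_nonneg fun x => by
      show 0 ≤ 1 + g x ^ 2
      positivity
    set A : ℝ := 1 + 27 / (4 * s ^ 3) with hA
    have hA0 : 0 < A := by positivity
    refine le_of_forall_pos_le_add fun e he => ?_
    set t : ℝ := e / 3 / (M + 1) with ht
    have ht0 : 0 < t := by positivity
    have htM : t * M ≤ e / 3 := by
      rw [ht, div_mul_eq_mul_div, div_le_iff₀ (by positivity)]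
      nlinarith
    set η : ℝ := e / 3 / A with hη
    have hη0 : 0 < η := by positivity
    have hηA : A * η = e / 3 := by rw [hη]; field_simp
    have c1 := hφ.tendsto_atTop.eventually (UU_ev (f := f) hsq.lim hR' k)
    have c2 := hφ.tendsto_atTop.eventually (vol_ev hsq.lim hsq.nm hfin hη0)
    have c3 := (UU_conv hOMI hg hfin W (fun n => hB (φ n)) hconv k).eventually
      (gt_mem_nhds (show (0 : ℝ) < e / 3 / (1 + 1 / t) by positivity))
    obtain ⟨n, hn1, hn2, hn3⟩ := (c1.and (c2.and c3)).exists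
    set m := φ n with hm
    set F : R3 → ℝ := om (ys m) (ws m) with hF
    have hFB : Bd F := hB m
    have hGF := hGB F hFB
    have hGg := hGB g hgB
    -- splitting of the integral over the body
    have hKm := KK_meas (ys m)
    have e0 : cG = (∫ x in UU y f k, G (F x)) + ∫ x in KK (ys m) \ UU y f k, G (F x) := by
      rw [← hcG m, ← integral_inter_add_sdiff hUm (hGF.int (hfn m)),
        inter_eq_self_of_subset_right hn1]
    have e1 : |(∫ x in UU y f k, G (F x)) - ∫ x in UU y f k, G (g x)| ≤ e / 3 + e / 3 := by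
      rw [← integral_sub (hGF.int hUfin) (hGg.int hUfin)]
      have h1 : |∫ x in UU y f k, (G (F x) - G (g x))| ≤
          ∫ x in UU y f k, ((1 + 1 / t) * (F x - g x) ^ 2 + t * (1 + g x ^ 2)) := by
        refine (abs_integral_le_integral_abs).trans ?_
        apply integral_mono
        · exact ((hGF.sub hGg).int hUfin).abs
        · exact ((((hFB.sub hgB).sq).cmul _).add (((Bd.const 1).add hgB.sq).cmul t)).int hUfin
        · intro x
          exact hGl (F x) (g x) t ht0
      rw [integral_add (((hFB.sub hgB).sq.cmul _).int hUfin)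
        ((((Bd.const 1).add hgB.sq).cmul t).int hUfin), integral_const_mul, integral_const_mul] at h1
      have h2 : (1 + 1 / t) * (∫ x in UU y f k, (F x - g x) ^ 2) ≤ e / 3 := by
        have h3 : (0 : ℝ) < 1 + 1 / t := by positivity
        have h4 := mul_lt_mul_of_pos_left hn3 h3
        have h5 : (1 + 1 / t) * (e / 3 / (1 + 1 / t)) = e / 3 := by field_simp
        rw [h5] at h4
        exact h4.le
      have h3 : t * (∫ x in UU y f k, (1 + g x ^ 2)) ≤ e / 3 := htM
      linarith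
    have e2 : |∫ x in KK (ys m) \ UU y f k, G (F x)| ≤ A * (v - u) + e / 3 + 16 * s * C0 := by
      have hZm : MeasurableSet (KK (ys m) \ UU y f k) := hKm.diff hUm
      have hZK : KK (ys m) \ UU y f k ⊆ KK (ys m) := sdiff_subset
      have hZf : volume (KK (ys m) \ UU y f k) ≠ ⊤ := ne_top_of_le_ne_top (hfn m) (measure_mono hZK)
      have hvol : (volume (KK (ys m) \ UU y f k)).toReal ≤ v + η - u := by
        have h1 : volume.real (KK (ys m) \ UU y f k) =
            volume.real (KK (ys m)) - volume.real (UU y f k) :=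
          measureReal_sdiff hn1 hUm (hfn m)
        have h2 : volume.real (KK (ys m) \ UU y f k) = (volume (KK (ys m) \ UU y f k)).toReal := rfl
        have h3 : volume.real (KK (ys m)) = (volume (KK (ys m))).toReal := rfl
        have h4 : volume.real (UU y f k) = u := rfl
        rw [h2, h3, h4] at h1
        rw [h1]
        linarith
      have h1 : |∫ x in KK (ys m) \ UU y f k, G (F x)| ≤
          ∫ x in KK (ys m) \ UU y f k, (1 + F x ^ 2) := by
        refine (abs_integral_le_integral_abs).trans ?_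
        apply integral_mono
        · exact (hGF.int hZf).abs
        · exact ((Bd.const 1).add hFB.sq).int hZf
        · intro x
          exact hGq (F x)
      rw [integral_add ((Bd.const 1).int hZf) (hFB.sq.int hZf), setIntegral_const, smul_eq_mul,
        mul_one] at h1
      have h2 := eqi_full hOMI hEQI (hnp m) (hsq.nm m) (ws m) hZm hZK hs0 hs2
      rw [hsq.var m, mul_one] at h2
      have h3 : 16 * s * En (ys m) (ws m) ≤ 16 * s * C0 :=
        mul_le_mul_of_nonneg_left (hsq.bdd m) (by positivity)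
      have h4 : volume.real (KK (ys m) \ UU y f k) = (volume (KK (ys m) \ UU y f k)).toReal := rfl
      rw [h4] at h1
      have h5 : A * (volume (KK (ys m) \ UU y f k)).toReal ≤ A * (v + η - u) :=
        mul_le_mul_of_nonneg_left hvol hA0.le
      have h6 : A * (v + η - u) = A * (v - u) + e / 3 := by rw [← hηA]; ring
      have h7 : A * (volume (KK (ys m) \ UU y f k)).toReal =
          (volume (KK (ys m) \ UU y f k)).toReal +
            27 / (4 * s ^ 3) * (volume (KK (ys m) \ UU y f k)).toReal := by rw [hA]; ring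
      linarith
    rw [e0]
    have h1 : (∫ x in UU y f k, G (F x)) + (∫ x in KK (ys m) \ UU y f k, G (F x)) -
        (∫ x in UU y f k, G (g x)) = ((∫ x in UU y f k, G (F x)) - ∫ x in UU y f k, G (g x)) +
        ∫ x in KK (ys m) \ UU y f k, G (F x) := by ring
    rw [h1]
    refine (abs_add_le _ _).trans ?_
    linarith
  -- `k → ∞`
  have hGg := hGB g hgB
  have lim1 : Tendsto (fun k => ∫ x in UU y f k, G (g x)) atTop (𝓝 (∫ x in KK y, G (g x))) := by
    have h1 : volume (⋃ k, UU y f k) ≠ ⊤ :=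
      ne_top_of_le_ne_top hfin (measure_mono (iUnion_subset fun k => UU_sub y f k))
    have h2 := tendsto_setIntegral_of_monotone (μ := volume) (fun k => UU_meas y f k)
      (UU_mono y f) (hGg.int h1)
    rw [setIntegral_congr_set (UU_ae hBAS hs hg)] at h2
    exact h2
  have lim2 := UU_vol hBAS hs hg hfin
  have key2 : ∀ s : ℝ, 0 < s → s ≤ 1 / 2 → |cG - ∫ x in KK y, G (g x)| ≤ 16 * s * C0 := by
    intro s hs0 hs2
    have l1 : Tendsto (fun k => |cG - ∫ x in UU y f k, G (g x)|) atTop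
        (𝓝 |cG - ∫ x in KK y, G (g x)|) := (tendsto_const_nhds.sub lim1).abs
    have l2 : Tendsto (fun k => (1 + 27 / (4 * s ^ 3)) * (v - (volume (UU y f k)).toReal) +
        16 * s * C0) atTop (𝓝 (16 * s * C0)) := by
      have h1 := ((tendsto_const_nhds (x := v)).sub lim2).const_mul (1 + 27 / (4 * s ^ 3))
      have h2 := h1.add_const (16 * s * C0)
      rw [← hv] at h2
      simpa using h2
    exact le_of_tendsto_of_tendsto' l1 l2 fun k => key k s hs0 hs2
  set d := |cG - ∫ x in KK y, G (g x)| with hd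
  have hd0 : 0 ≤ d := abs_nonneg _
  rcases hd0.eq_or_lt with h | h
  · have h1 : cG - ∫ x in KK y, G (g x) = 0 := abs_eq_zero.mp h.symm
    linarith
  · exfalso
    have h1 := key2 (1 / 2) (by norm_num) le_rfl
    have hC0 : 0 < C0 := by linarith
    have h2 := key2 (min (1 / 2) (d / (32 * C0))) (lt_min (by norm_num) (by positivity))
      (min_le_left _ _)
    have h3 : 16 * min (1 / 2) (d / (32 * C0)) * C0 ≤ 16 * (d / (32 * C0)) * C0 := by
      gcongr
      exact min_le_right _ _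
    have h4 : 16 * (d / (32 * C0)) * C0 = d / 2 := by field_simp; norm_num
    linarith

end LS3aux

open LS3aux in
/-- **LS3.** -/
theorem blk_LS3 (hLS2 : Stmt_LS2) (hEQI : Stmt_EQI) (hOMI : Stmt_OMI) (hBAS : Stmt_BAS) :
    Stmt_LS3 := by
  intro ι _ _ ys ws y C0 hsq ι' _ _ f hs hg
  have hnp : ∀ n, Npb (ys n) := fun n => famg_npb (hsq.fam n) (hsq.nm n)
  have hB : ∀ n, Bd (om (ys n) (ws n)) := fun n => om_bd hOMI (hnp n) _
  obtain ⟨R, hR⟩ := hg.bd
  have hR' : ∀ x ∈ KK y, ∀ k, |x k| ≤ R := fun x hx => hR x (by rw [hs.same]; exact hx)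
  have hfin : volume (KK y) ≠ ⊤ := KK_fin hR'
  obtain ⟨φ, W, hφ, hconv⟩ := consts hLS2 hOMI hBAS hsq hs hg
  have hmeas := conv_meas hOMI hBAS hs hg hfin W (fun n => hB (φ n)) hconv
  obtain ⟨ψ, hψ, hae⟩ := hmeas.exists_seq_tendsto_ae
  have hone : ∀ z : ι → R3, (fun x : R3 => (1 : ℝ) • x) '' KK z = KK z := fun z => by simp
  have hone' : (fun x : R3 => (1 : ℝ) • x) '' KK (fun i' => y (f i')) = KK y := by
    rw [← hs.same]; simp
  refine ⟨φ ∘ ψ, W, hφ.comp hψ, ?_, ?_, ?_⟩
  · filter_upwards [hae] with x hx using hx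
  · -- first moment
    have h1 : ∫ x in KK y, om (fun i' => y (f i')) W x = 0 := by
      apply mass hEQI hOMI hBAS hsq hs hg hφ hconv (fun a => a) measurable_id _ _ 0
      · intro n
        have h2 := (hOMI ι (ys n) (hnp n) (ws n)).2.2.2.2.1 1 one_pos
        rw [hone] at h2
        rw [h2, hsq.mean n]; simp
      · intro a
        show |a| ≤ 1 + a ^ 2
        rw [← sq_abs a]
        nlinarith [sq_nonneg (|a| - 1), abs_nonneg a]
      · intro a b t ht
        show |a - b| ≤ (1 + 1 / t) * (a - b) ^ 2 + t * (1 + b ^ 2)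
        have h3 : |a - b| ≤ 1 / t * (a - b) ^ 2 + t := by
          rw [← sq_abs (a - b)]
          have h4 : 0 ≤ (1 / t) * (|a - b| - t) ^ 2 := by positivity
          have h5 : (1 / t) * (|a - b| - t) ^ 2 = 1 / t * |a - b| ^ 2 - 2 * |a - b| + t := by
            field_simp
            ring
          have h6 := abs_nonneg (a - b)
          linarith
        nlinarith [sq_nonneg (a - b), sq_nonneg b, mul_nonneg ht.le (sq_nonneg b)]
    have h2 := (hOMI ι' (fun i' => y (f i')) hg.toNpb W).2.2.2.2.1 1 one_pos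
    rw [hone', h1] at h2
    linarith
  · have h1 : ∫ x in KK y, om (fun i' => y (f i')) W x ^ 2 = 1 := by
      apply mass hEQI hOMI hBAS hsq hs hg hφ hconv (fun a => a ^ 2) (measurable_id.pow_const 2) _ _ 1
      · intro n
        have h2 := (hOMI ι (ys n) (hnp n) (ws n)).2.2.2.1 1 one_pos
        rw [hone] at h2
        rw [h2, hsq.var n]; simp
      · intro a
        show |a ^ 2| ≤ 1 + a ^ 2
        rw [abs_of_nonneg (sq_nonneg a)]
        linarith
      · intro a b t ht
        show |a ^ 2 - b ^ 2| ≤ (1 + 1 / t) * (a - b) ^ 2 + t * (1 + b ^ 2)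
        have h4 : 0 ≤ (1 / t) * ((a - b) - t * b) ^ 2 := by positivity
        have h4' : 0 ≤ (1 / t) * ((a - b) + t * b) ^ 2 := by positivity
        have h5 : (1 / t) * ((a - b) - t * b) ^ 2 =
            1 / t * (a - b) ^ 2 - 2 * (b * (a - b)) + t * b ^ 2 := by
          field_simp
          ring
        have h5' : (1 / t) * ((a - b) + t * b) ^ 2 =
            1 / t * (a - b) ^ 2 + 2 * (b * (a - b)) + t * b ^ 2 := by
          field_simp
          ring
        rw [abs_le]
        constructor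
        · nlinarith [sq_nonneg (a - b)]
        · nlinarith [sq_nonneg (a - b)]
    have h2 := (hOMI ι' (fun i' => y (f i')) hg.toNpb W).2.2.2.1 1 one_pos
    rw [hone', h1] at h2
    linarith

end Pool.G1
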