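import Pool.Agent.Work.MP_b5407d_g1.LS4a

/-!
# G1: block LS4 (lower semicontinuity of the energy)
-/

set_option autoImplicit false

open MeasureTheory Set Filter Topology

namespace Pool.G1

open Pool.T3 (R3 dt cr de K)

/-! ## Fatou -/

lemma ls4_fatou {α : Type} [MeasurableSpace α] (ν : Measure α) (g : α → ℝ) (gn : ℕ → α → ℝ)
    (hg : Integrable g ν) (hg0 : ∀ z, 0 ≤ g z) (hm : ∀ n, Measurable (gn n))
    (hi : ∀ n, Integrable (gn n) ν) (h0 : ∀ n z, 0 ≤ gn n z)
    (hle : ∀ᵐ z ∂ν, ∀ η : ℝ, 0 < η → ∀ᶠ n in atTop, g z ≤ gn n z + η) (η : ℝ) (hη : 0 < η) :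
    ∀ᶠ n in atTop, ∫ z, g z ∂ν ≤ (∫ z, gn n z ∂ν) + η := by
  by_cases hsm : ∫ z, g z ∂ν ≤ η
  · refine Filter.Eventually.of_forall fun n => ?_
    have : 0 ≤ ∫ z, gn n z ∂ν := integral_nonneg (fun z => h0 n z)
    linarith
  push Not at hsm
  have h1 : ∀ᵐ z ∂ν, ENNReal.ofReal (g z) ≤ liminf (fun n => ENNReal.ofReal (gn n z)) atTop := by
    filter_upwards [hle] with z hz
    refine ENNReal.le_of_forall_pos_le_add ?_
    intro ε hε _
    rw [← tsub_le_iff_right]
    refine Filter.le_liminf_of_le (by isBoundedDefault) ?_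
    filter_upwards [hz ε (by exact_mod_cast hε)] with n hn
    rw [tsub_le_iff_right]
    refine (ENNReal.ofReal_le_ofReal hn).trans ?_
    rw [ENNReal.ofReal_add (h0 n z) (NNReal.coe_nonneg ε), ENNReal.ofReal_coe_nnreal]
  have h2 : ENNReal.ofReal (∫ z, g z ∂ν) ≤
      liminf (fun n => ENNReal.ofReal (∫ z, gn n z ∂ν)) atTop := by
    rw [ofReal_integral_eq_lintegral_ofReal hg (Filter.Eventually.of_forall hg0)]
    have h3 : ∀ n, ENNReal.ofReal (∫ z, gn n z ∂ν) = ∫⁻ z, ENNReal.ofReal (gn n z) ∂ν := fun n =>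
      ofReal_integral_eq_lintegral_ofReal (hi n) (Filter.Eventually.of_forall (h0 n))
    simp_rw [h3]
    refine (lintegral_mono_ae h1).trans ?_
    exact lintegral_liminf_le fun n => (hm n).ennreal_ofReal
  have h4 : ENNReal.ofReal ((∫ z, g z ∂ν) - η) < ENNReal.ofReal (∫ z, g z ∂ν) := by
    rw [ENNReal.ofReal_lt_ofReal_iff (by linarith)]
    linarith
  have h5 := Filter.eventually_lt_of_lt_liminf (lt_of_lt_of_le h4 h2)
  filter_upwards [h5] with n hn
  rw [ENNReal.ofReal_lt_ofReal_iff_of_nonneg (by linarith)] at hn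
  linarith

/-! ## Algebra of signed vectors -/

section alg

variable {ι : Type}

lemma ls4_dt_add (c x x' : R3) : dt c (x + x') = dt c x + dt c x' := by
  simp only [dt, Pi.add_apply]; ring

lemma ls4_dt_smul (c x : R3) (s : ℝ) : dt c (s • x) = s * dt c x := by
  simp only [dt, Pi.smul_apply, smul_eq_mul]; ring

lemma ls4_dt_neg (c x : R3) : dt (-c) x = -dt c x := by
  simp only [dt, Pi.neg_apply]; ring

lemma ls4_dt_sub (c c' x : R3) : dt (c - c') x = dt c x - dt c' x := by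
  simp only [dt, Pi.sub_apply]; ring

lemma ls4_dt_smul' (c x : R3) (s : ℝ) : dt (s • c) x = s * dt c x := by
  simp only [dt, Pi.smul_apply, smul_eq_mul]; ring

lemma ls4_dt_lnp (c b1 b2 a : R3) (z : ℝ × ℝ) (t : ℝ) :
    dt c (lnp b1 b2 a z t) = dt c (z.1 • b1 + z.2 • b2) + dt c a * t := by
  unfold lnp
  rw [ls4_dt_add, ls4_dt_smul]; ring

lemma ls4_dt_z (c b1 b2 : R3) (z : ℝ × ℝ) :
    dt c (z.1 • b1 + z.2 • b2) = z.1 * dt c b1 + z.2 * dt c b2 := by
  rw [ls4_dt_add, ls4_dt_smul, ls4_dt_smul]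

lemma ls4_sy_true (y : ι → R3) (l : ι) : sy y (l, true) = y l := by simp [sy]

lemma ls4_sy_false (y : ι → R3) (l : ι) : sy y (l, false) = -(y l) := by simp [sy]

lemma ls4_act_iff (y : ι → R3) (P : ι × Bool) (x : R3) :
    act y P x ↔ ∀ R : ι × Bool, dt (sy y R) x ≤ dt (sy y P) x := by
  constructor
  · rintro h ⟨l, b⟩
    have := abs_le.mp (h l)
    cases b
    · rw [ls4_sy_false, ls4_dt_neg]; linarith
    · rw [ls4_sy_true]; linarith
  · intro h l
    have h1 := h (l, true)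
    have h2 := h (l, false)
    rw [ls4_sy_true] at h1
    rw [ls4_sy_false, ls4_dt_neg] at h2
    rw [abs_le]
    constructor <;> linarith

lemma ls4_ac_iff (y : ι → R3) (b1 b2 a : R3) (z : ℝ × ℝ) (t : ℝ) (P : ι × Bool) :
    ac (fun P : ι × Bool => dt (sy y P) (z.1 • b1 + z.2 • b2)) (fun P => dt (sy y P) a) P t ↔
      act y P (lnp b1 b2 a z t) := by
  rw [ls4_act_iff]
  unfold ac
  refine forall_congr' fun R => ?_
  rw [ls4_dt_lnp, ls4_dt_lnp]

lemma ls4_abs_sy (y : ι → R3) (P : ι × Bool) (x : R3) : |dt (sy y P) x| = |dt (y P.1) x| := by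
  rcases P with ⟨l, b⟩
  cases b
  · rw [ls4_sy_false, ls4_dt_neg, abs_neg]
  · rw [ls4_sy_true]

lemma ls4_mem_KK (y : ι → R3) (x : R3) : x ∈ KK y ↔ ∀ i, |dt (y i) x| ≤ 1 := Iff.rfl

lemma ls4_EL_eq [Fintype ι] (y : ι → R3) (w : ι → ℝ) (b1 b2 a : R3) (z : ℝ × ℝ) :
    EL y w b1 b2 a z = E1 (fun P : ι × Bool => dt (sy y P) (z.1 • b1 + z.2 • b2))
      (fun P => dt (sy y P) a) (fun P => w P.1) := by
  classical
  unfold EL E1
  congr 1
  refine Finset.sum_congr rfl fun P _ => Finset.sum_congr rfl fun P' _ => ?_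
  rw [Set.indicator_apply]
  have hiff : (z ∈ {z : ℝ × ℝ | ∃ t : ℝ, lnp b1 b2 a z t ∈ KK y ∧ act y P (lnp b1 b2 a z t) ∧
      act y P' (lnp b1 b2 a z t)}) ↔
      (∃ t : ℝ, ac (fun P : ι × Bool => dt (sy y P) (z.1 • b1 + z.2 • b2))
        (fun P => dt (sy y P) a) P t ∧
        ac (fun P : ι × Bool => dt (sy y P) (z.1 • b1 + z.2 • b2)) (fun P => dt (sy y P) a) P' t ∧
        dt (sy y P) (z.1 • b1 + z.2 • b2) + dt (sy y P) a * t ≤ 1) := by
    refine exists_congr fun t => ?_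
    rw [ls4_ac_iff, ls4_ac_iff, ← ls4_dt_lnp]
    constructor
    · rintro ⟨h1, h2, h3⟩
      refine ⟨h2, h3, ?_⟩
      refine (le_abs_self _).trans ?_
      rw [ls4_abs_sy]
      exact h1 P.1
    · rintro ⟨h2, h3, h4⟩
      exact ⟨fun i => (h2 i).trans h4, h2, h3⟩
  by_cases hc : z ∈ {z : ℝ × ℝ | ∃ t : ℝ, lnp b1 b2 a z t ∈ KK y ∧ act y P (lnp b1 b2 a z t) ∧
      act y P' (lnp b1 b2 a z t)}
  · rw [if_pos hc, if_pos (hiff.mp hc), ls4_dt_sub]
  · rw [if_neg hc, if_neg (fun h => hc (hiff.mpr h))]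

lemma ls4_E1_nonneg {κ : Type} [Fintype κ] (p q w : κ → ℝ) : 0 ≤ E1 p q w := by
  classical
  unfold E1
  refine mul_nonneg (by norm_num) (Finset.sum_nonneg fun P _ => Finset.sum_nonneg fun P' _ => ?_)
  split_ifs
  · positivity
  · exact le_rfl

lemma ls4_ext3 {v : R3} (h0 : v 0 = 0) (h1 : v 1 = 0) (h2 : v 2 = 0) : v = 0 := by
  ext m
  fin_cases m
  · exact h0
  · exact h1
  · exact h2

lemma ls4_npar {y : ι → R3} (hnp : ∀ i k, i ≠ k → cr (y i) (y k) ≠ 0) {P P' : ι × Bool}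
    (h : P.1 ≠ P'.1) {r r' : ℝ} (he : r • sy y P = r' • sy y P') : r = 0 ∧ r' = 0 := by
  have hc : cr (sy y P) (sy y P') ≠ 0 := by
    have h0 := hnp P.1 P'.1 h
    intro hz
    apply h0
    rcases P with ⟨l, b⟩
    rcases P' with ⟨l', b'⟩
    have e0 := congrFun hz 0
    have e1 := congrFun hz 1
    have e2 := congrFun hz 2
    cases b <;> cases b' <;>
      simp only [sy, cr, if_true, if_false, Bool.false_eq_true, Matrix.cons_val_zero,
        Matrix.cons_val_one, Matrix.cons_val_two, Matrix.head_cons, Matrix.tail_cons,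
        Pi.neg_apply, Pi.zero_apply] at e0 e1 e2 ⊢ <;>
      (ext m; fin_cases m <;> simp <;> linarith)
  have q0 := congrFun he 0
  have q1 := congrFun he 1
  have q2 := congrFun he 2
  simp only [Pi.smul_apply, smul_eq_mul] at q0 q1 q2
  have hr0 : r * cr (sy y P) (sy y P') 0 = 0 := by
    show r * (sy y P 1 * sy y P' 2 - sy y P 2 * sy y P' 1) = 0
    linear_combination (sy y P' 2) * q1 - (sy y P' 1) * q2
  have hr1 : r * cr (sy y P) (sy y P') 1 = 0 := by
    show r * (sy y P 2 * sy y P' 0 - sy y P 0 * sy y P' 2) = 0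
    linear_combination (sy y P' 0) * q2 - (sy y P' 2) * q0
  have hr2 : r * cr (sy y P) (sy y P') 2 = 0 := by
    show r * (sy y P 0 * sy y P' 1 - sy y P 1 * sy y P' 0) = 0
    linear_combination (sy y P' 1) * q0 - (sy y P' 0) * q1
  have hs0 : r' * cr (sy y P) (sy y P') 0 = 0 := by
    show r' * (sy y P 1 * sy y P' 2 - sy y P 2 * sy y P' 1) = 0
    linear_combination (sy y P 2) * q1 - (sy y P 1) * q2
  have hs1 : r' * cr (sy y P) (sy y P') 1 = 0 := by
    show r' * (sy y P 2 * sy y P' 0 - sy y P 0 * sy y P' 2) = 0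
    linear_combination (sy y P 0) * q2 - (sy y P 2) * q0
  have hs2 : r' * cr (sy y P) (sy y P') 2 = 0 := by
    show r' * (sy y P 0 * sy y P' 1 - sy y P 1 * sy y P' 0) = 0
    linear_combination (sy y P 1) * q0 - (sy y P 0) * q1
  constructor
  · by_contra hne
    exact hc (ls4_ext3 ((mul_eq_zero.mp hr0).resolve_left hne)
      ((mul_eq_zero.mp hr1).resolve_left hne) ((mul_eq_zero.mp hr2).resolve_left hne))
  · by_contra hne
    exact hc (ls4_ext3 ((mul_eq_zero.mp hs0).resolve_left hne)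
      ((mul_eq_zero.mp hs1).resolve_left hne) ((mul_eq_zero.mp hs2).resolve_left hne))

lemma ls4_opp {y : ι → R3} {P P' : ι × Bool} (h : P ≠ P') (h1 : P.1 = P'.1) :
    sy y P' = -sy y P := by
  rcases P with ⟨l, b⟩
  rcases P' with ⟨l', b'⟩
  simp only at h1
  subst h1
  cases b <;> cases b'
  · exact absurd rfl h
  · rw [ls4_sy_false, ls4_sy_true, neg_neg]
  · rw [ls4_sy_false, ls4_sy_true]
  · exact absurd rfl h

lemma ls4_noncol [Fintype ι] (hGTR : Stmt_GTR) {y : ι → R3} (hy : Good y) {P P' P'' : ι × Bool}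
    (h1 : P ≠ P') (h2 : P ≠ P'') (h3 : P' ≠ P'') (s : ℝ) :
    sy y P'' ≠ (1 - s) • sy y P + s • sy y P' := by
  intro he
  by_cases e1 : P.1 = P'.1
  · have o1 := ls4_opp (y := y) h1 e1
    by_cases e2 : P.1 = P''.1
    · -- impossible: only two signs
      rcases P with ⟨l, b⟩
      rcases P' with ⟨l', b'⟩
      rcases P'' with ⟨l'', b''⟩
      simp only at e1 e2
      subst e1
      subst e2
      cases b <;> cases b' <;> cases b'' <;>
        first | exact h1 rfl | exact h2 rfl | exact h3 rfl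
    · rw [o1] at he
      have : (1 - 2 * s) • sy y P = (1 : ℝ) • sy y P'' := by
        rw [he]; module
      exact one_ne_zero (ls4_npar hy.np e2 this).2
  · by_cases e2 : P.1 = P''.1
    · have o1 := ls4_opp (y := y) h2 e2
      rw [o1] at he
      have : (-(2 - s)) • sy y P = s • sy y P' := by
        have : -sy y P - (1 - s) • sy y P = s • sy y P' := by rw [he]; module
        rw [← this]; module
      obtain ⟨a1, a2⟩ := ls4_npar hy.np e1 this
      linarith
    · by_cases e3 : P'.1 = P''.1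
      · have o1 := ls4_opp (y := y) h3 e3
        rw [o1] at he
        have : (1 - s) • sy y P = (-1 - s) • sy y P' := by
          have : (1 - s) • sy y P = -sy y P' - s • sy y P' := by rw [he]; module
          rw [this]; module
        obtain ⟨a1, a2⟩ := ls4_npar hy.np e1 this
        linarith
      · exact hGTR ι y hy P P' P'' e1 e2 e3 (1 - s) s (by ring) he

end alg

/-! ## Convergence of the active indices -/

lemma ls4_cont {ι : Type} (R : ι × Bool) (x : R3) : Continuous (fun y : ι → R3 => dt (sy y R) x) := by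
  rcases R with ⟨l, b⟩
  cases b
  · simp only [ls4_sy_false, dt]; fun_prop
  · simp only [ls4_sy_true, dt]; fun_prop

lemma ls4_lim {ι ι' : Type} [Fintype ι'] (y : ι → R3) (f : ι' → ι)
    (hsame : KK (fun i' => y (f i')) = KK y) (x : R3) (P : ι' × Bool)
    (hP : ∀ P', P' ≠ P → dt (sy (fun i' => y (f i')) P') x < dt (sy (fun i' => y (f i')) P) x)
    (R : ι × Bool) :
    sy y R = sy (fun i' => y (f i')) P ∨ dt (sy y R) x < dt (sy (fun i' => y (f i')) P) x := by
  set y' : ι' → R3 := fun i' => y (f i') with hy'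
  have hv : 0 < dt (sy y' P) x := by
    have hne : (P.1, !P.2) ≠ P := by
      rcases P with ⟨l, b⟩
      cases b <;> simp
    have h1 := hP _ hne
    have h2 : sy y' (P.1, !P.2) = -sy y' P := ls4_opp (Ne.symm hne) rfl
    rw [h2, ls4_dt_neg] at h1
    linarith
  -- gauge bound
  have hg : ∀ u, (∀ P', P' ≠ P → dt (sy y' P') u < dt (sy y' P) u) → 0 < dt (sy y' P) u →
      dt (sy y R) u ≤ dt (sy y' P) u := by
    intro u hu hu0
    have hact : act y' P u := by
      rw [ls4_act_iff]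
      intro P'
      by_cases h : P' = P
      · rw [h]
      · exact (hu P' h).le
    set r := dt (sy y' P) u with hr
    have hmem : (1 / r) • u ∈ KK y' := by
      rw [ls4_mem_KK]
      intro i
      rw [ls4_dt_smul, abs_mul, abs_of_pos (by positivity), one_div, inv_mul_le_iff₀ hu0, mul_one]
      exact hact i
    rw [hsame, ls4_mem_KK] at hmem
    have := hmem R.1
    rw [ls4_dt_smul, abs_mul, abs_of_pos (by positivity), one_div, inv_mul_le_iff₀ hu0, mul_one]
      at this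
    rw [← ls4_abs_sy] at this
    exact (le_abs_self _).trans this
  by_contra hcon
  push Not at hcon
  obtain ⟨hne, hge⟩ := hcon
  have heq : dt (sy y R) x = dt (sy y' P) x := le_antisymm (hg x hP hv) hge
  set D := sy y R - sy y' P with hD
  have hD0 : D ≠ 0 := sub_ne_zero.mpr hne
  have hDx : dt D x = 0 := by rw [hD, ls4_dt_sub, heq]; ring
  have hcont : ∀ c : R3, ContinuousAt (fun s : ℝ => dt c (x + s • D)) 0 := by
    intro c
    simp only [ls4_dt_add, ls4_dt_smul]
    fun_prop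
  have h0 : ∀ c : R3, dt c (x + (0 : ℝ) • D) = dt c x := by
    intro c; simp
  have ev : ∀ᶠ s : ℝ in 𝓝 0, (∀ P', P' ≠ P → dt (sy y' P') (x + s • D) < dt (sy y' P) (x + s • D)) ∧
      0 < dt (sy y' P) (x + s • D) := by
    refine Filter.Eventually.and ?_ ?_
    · rw [Filter.eventually_all]
      intro P'
      by_cases h : P' = P
      · exact Filter.Eventually.of_forall fun s hs => absurd h hs
      · have := (hcont (sy y' P')).eventually_lt (hcont (sy y' P)) (by
          rw [h0, h0]; exact hP P' h)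
        filter_upwards [this] with s hs _
        exact hs
    · exact continuousAt_const.eventually_lt (hcont (sy y' P)) (by rw [h0]; exact hv)
  obtain ⟨ε, hε, hh⟩ := Metric.eventually_nhds_iff.mp ev
  have hs := @hh (ε / 2) (by rw [Real.dist_eq, sub_zero, abs_of_pos (by linarith)]; linarith)
  have h1 := hg _ hs.1 hs.2
  have h2 : dt D (x + (ε / 2) • D) ≤ 0 := by
    rw [hD, ls4_dt_sub]; linarith
  rw [ls4_dt_add, hDx, ls4_dt_smul, zero_add] at h2
  have h3 : dt D D ≤ 0 := by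
    by_contra h
    push Not at h
    have := mul_pos (show 0 < ε / 2 by linarith) h
    linarith
  apply hD0
  unfold dt at h3
  have e0 : D 0 = 0 := by nlinarith [sq_nonneg (D 0), sq_nonneg (D 1), sq_nonneg (D 2)]
  have e1 : D 1 = 0 := by nlinarith [sq_nonneg (D 0), sq_nonneg (D 1), sq_nonneg (D 2)]
  have e2 : D 2 = 0 := by nlinarith [sq_nonneg (D 0), sq_nonneg (D 1), sq_nonneg (D 2)]
  exact ls4_ext3 e0 e1 e2

lemma ls4_conv {ι ι' : Type} [Fintype ι] [Fintype ι'] (ys : ℕ → ι → R3) (y : ι → R3) (f : ι' → ι)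
    (hsame : KK (fun i' => y (f i')) = KK y) (hlim : Tendsto ys atTop (𝓝 y)) (x : R3)
    (P : ι' × Bool)
    (hP : ∀ P', P' ≠ P → dt (sy (fun i' => y (f i')) P') x < dt (sy (fun i' => y (f i')) P) x) :
    ∀ᶠ n in atTop, ∀ R : ι × Bool, act (ys n) R x → sy y R = sy (fun i' => y (f i')) P := by
  rw [Filter.eventually_all]
  intro R
  rcases ls4_lim y f hsame x P hP R with h | h
  · exact Filter.Eventually.of_forall fun n _ => h
  · have hR0 : sy (fun i' => y (f i')) P = sy y (f P.1, P.2) := rfl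
    rw [hR0] at h
    have h1 : Tendsto (fun n => dt (sy (ys n) R) x) atTop (𝓝 (dt (sy y R) x)) :=
      ((ls4_cont R x).tendsto y).comp hlim
    have h2 : Tendsto (fun n => dt (sy (ys n) (f P.1, P.2)) x) atTop
        (𝓝 (dt (sy y (f P.1, P.2)) x)) := ((ls4_cont (f P.1, P.2) x).tendsto y).comp hlim
    filter_upwards [h1.eventually_lt h2 h] with n hn hact
    rw [ls4_act_iff] at hact
    exact absurd (hact (f P.1, P.2)) (not_le.mpr hn)

/-! ## Null sets -/

lemma ls4_ae_ne (α β γ : ℝ) (h : α ≠ 0 ∨ β ≠ 0 ∨ γ ≠ 0) :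
    ∀ᵐ z : ℝ × ℝ, z.1 * α + z.2 * β ≠ γ := by
  have := ls4_null α β γ h
  rw [ae_iff]
  simpa using this

lemma ls4_tri {ι' : Type} [Fintype ι'] (hGTR : Stmt_GTR) {y' : ι' → R3} (hy : Good y')
    {b1 b2 a : R3} (hde : de b1 b2 a ≠ 0)
    (hdir : ∀ P P' : ι' × Bool, P ≠ P' → dt (sy y' P - sy y' P') a ≠ 0) :
    ∀ᵐ z : ℝ × ℝ, ∀ P P' P'' : ι' × Bool, P ≠ P' → P ≠ P'' → P' ≠ P'' → ∀ t : ℝ,
      act y' P (lnp b1 b2 a z t) → act y' P' (lnp b1 b2 a z t) →
      ¬ act y' P'' (lnp b1 b2 a z t) := by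
  rw [ae_all_iff]; intro P
  rw [ae_all_iff]; intro P'
  rw [ae_all_iff]; intro P''
  by_cases h1 : P = P'
  · exact Filter.Eventually.of_forall fun z hh => absurd h1 hh
  by_cases h2 : P = P''
  · exact Filter.Eventually.of_forall fun z _ hh => absurd h2 hh
  by_cases h3 : P' = P''
  · exact Filter.Eventually.of_forall fun z _ _ hh => absurd h3 hh
  set D1 := sy y' P - sy y' P' with hD1
  set D2 := sy y' P - sy y' P'' with hD2
  set c : R3 := (dt D2 a) • D1 - (dt D1 a) • D2 with hc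
  have ha1 : dt D1 a ≠ 0 := hdir P P' h1
  have hca : dt c a = 0 := by rw [hc, ls4_dt_sub, ls4_dt_smul', ls4_dt_smul']; ring
  have hc0 : c ≠ 0 := by
    intro hz
    apply ls4_noncol hGTR hy h1 h2 h3 (dt D2 a / dt D1 a)
    have hz' : (dt D1 a) • D2 = (dt D2 a) • D1 := (sub_eq_zero.mp hz).symm
    have : D2 = (dt D2 a / dt D1 a) • D1 := by
      rw [div_eq_inv_mul, mul_smul, ← hz', smul_smul, inv_mul_cancel₀ ha1, one_smul]
    set s := dt D2 a / dt D1 a with hs
    have e1 : sy y' P'' = sy y' P - D2 := by rw [hD2]; abel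
    rw [e1, this, hD1]
    module
  have hαβ : dt c b1 ≠ 0 ∨ dt c b2 ≠ 0 ∨ (0 : ℝ) ≠ 0 := by
    by_contra hcon
    push Not at hcon
    exact hc0 (ls4_basis hde hcon.1 hcon.2.1 hca)
  filter_upwards [ls4_ae_ne _ _ _ hαβ] with z hz _ _ _ t hP hP' hP''
  apply hz
  rw [ls4_act_iff] at hP hP' hP''
  have e1 : dt (sy y' P) (lnp b1 b2 a z t) = dt (sy y' P') (lnp b1 b2 a z t) :=
    le_antisymm (hP' P) (hP P')
  have e2 : dt (sy y' P) (lnp b1 b2 a z t) = dt (sy y' P'') (lnp b1 b2 a z t) :=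
    le_antisymm (hP'' P) (hP P'')
  have k1 : dt D1 (lnp b1 b2 a z t) = 0 := by rw [hD1, ls4_dt_sub, e1, sub_self]
  have k2 : dt D2 (lnp b1 b2 a z t) = 0 := by rw [hD2, ls4_dt_sub, e2, sub_self]
  have e3 : dt c (lnp b1 b2 a z t) = 0 := by
    rw [hc, ls4_dt_sub, ls4_dt_smul', ls4_dt_smul', k1, k2]
    ring
  rw [ls4_dt_lnp, hca, ls4_dt_z] at e3
  linarith

lemma ls4_ne1 {ι' : Type} [Fintype ι'] {y' : ι' → R3} {b1 b2 a : R3}
    (hdir : ∀ P P' : ι' × Bool, P ≠ P' → dt (sy y' P - sy y' P') a ≠ 0) :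
    ∀ᵐ z : ℝ × ℝ, ∀ P P' : ι' × Bool, P ≠ P' → ∀ t : ℝ,
      act y' P (lnp b1 b2 a z t) → act y' P' (lnp b1 b2 a z t) →
      dt (sy y' P) (lnp b1 b2 a z t) ≠ 1 := by
  rw [ae_all_iff]; intro P
  rw [ae_all_iff]; intro P'
  by_cases h1 : P = P'
  · exact Filter.Eventually.of_forall fun z hh => absurd h1 hh
  set c : R3 := (dt (sy y' P') a) • sy y' P - (dt (sy y' P) a) • sy y' P' with hc
  have hca : dt c a = 0 := by rw [hc, ls4_dt_sub, ls4_dt_smul', ls4_dt_smul']; ring
  have hγ : dt (sy y' P') a - dt (sy y' P) a ≠ 0 := by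
    have := hdir P' P (Ne.symm h1)
    rwa [ls4_dt_sub] at this
  filter_upwards [ls4_ae_ne (dt c b1) (dt c b2) _ (Or.inr (Or.inr hγ))] with z hz _ t hP hP' h
  apply hz
  rw [ls4_act_iff] at hP hP'
  have e1 : dt (sy y' P) (lnp b1 b2 a z t) = dt (sy y' P') (lnp b1 b2 a z t) :=
    le_antisymm (hP' P) (hP P')
  have e3 : dt c (lnp b1 b2 a z t) = dt (sy y' P') a - dt (sy y' P) a := by
    rw [hc, ls4_dt_sub, ls4_dt_smul', ls4_dt_smul', ← e1, h]
    ring
  rw [ls4_dt_lnp, hca, ls4_dt_z] at e3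
  linarith

lemma ls4_col {ι : Type} [Fintype ι] (ys : ℕ → ι → R3) (ws : ℕ → ι → ℝ) (hN : ∀ n, Npb (ys n))
    {b1 b2 a : R3} (hde : de b1 b2 a ≠ 0) :
    ∀ᵐ z : ℝ × ℝ, ∀ (n : ℕ) (P P' : ι × Bool),
      dt (sy (ys n) P) (z.1 • b1 + z.2 • b2) = dt (sy (ys n) P') (z.1 • b1 + z.2 • b2) →
      dt (sy (ys n) P) a = dt (sy (ys n) P') a → ws n P.1 = ws n P'.1 := by
  rw [ae_all_iff]; intro n
  rw [ae_all_iff]; intro P
  rw [ae_all_iff]; intro P'
  by_cases h1 : P.1 = P'.1
  · exact Filter.Eventually.of_forall fun z _ _ => by rw [h1]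
  by_cases h2 : dt (sy (ys n) P) a = dt (sy (ys n) P') a
  swap
  · exact Filter.Eventually.of_forall fun z _ hh => absurd hh h2
  set D := sy (ys n) P - sy (ys n) P' with hD
  have hD0 : D ≠ 0 := by
    intro hz
    have : (1 : ℝ) • sy (ys n) P = (1 : ℝ) • sy (ys n) P' := by
      rw [one_smul, one_smul]; exact sub_eq_zero.mp hz
    exact one_ne_zero (ls4_npar (hN n).np h1 this).1
  have hDa : dt D a = 0 := by rw [hD, ls4_dt_sub, h2]; ring
  have hαβ : dt D b1 ≠ 0 ∨ dt D b2 ≠ 0 ∨ (0 : ℝ) ≠ 0 := by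
    by_contra hcon
    push Not at hcon
    exact hD0 (ls4_basis hde hcon.1 hcon.2.1 hDa)
  filter_upwards [ls4_ae_ne _ _ _ hαβ] with z hz hh _
  exfalso
  apply hz
  have : dt D (z.1 • b1 + z.2 • b2) = 0 := by rw [hD, ls4_dt_sub, hh]; ring
  rw [ls4_dt_z] at this
  exact this

/-! ## Assembly -/

theorem blk_LS4 (hLL : Stmt_LL1) (hLIN : Stmt_LIN) (hOMI : Stmt_OMI) (hGTR : Stmt_GTR)
    (hFGN : Stmt_FGN) : Stmt_LS4 := by
  intro ι _ _ ys ws y C0 hSq ι' _ _ f hSel hGood W hae η hη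
  set y' : ι' → R3 := fun i' => y (f i') with hy'
  have hne : Nonempty ι' := by
    by_contra hcon
    rw [not_nonempty_iff] at hcon
    obtain ⟨R, hR⟩ := hGood.bd
    have := hR (fun _ => |R| + 1) (fun i => (hcon.false i).elim) 0
    rw [abs_of_pos (by positivity)] at this
    linarith [le_abs_self R]
  obtain ⟨b1, b2, a, hde, hdir⟩ := ls4_dir y' hGood.toNpb hne
  have hde0 : de b1 b2 a ≠ 0 := by rw [hde]; exact one_ne_zero
  have hdet : |de b1 b2 a| = 1 := by rw [hde]; exact abs_one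
  have hN : ∀ n, Npb (ys n) := fun n => hFGN.2.2.2 ι (ys n) (hSq.fam n)
  obtain ⟨hm', hi', -, heq'⟩ := hLIN ι' y' hGood.toNpb W b1 b2 a hdet
  have hEn := heq' (fun P P' h => hdir P P' (fun e => h (congrArg Prod.fst e)))
  have hLn := fun n => hLIN ι (ys n) (hN n) (ws n) b1 b2 a hdet
  have hKm : MeasurableSet (KK y) := by
    have : KK y = ⋂ i, {x : R3 | |dt (y i) x| ≤ 1} := by
      ext x; simp [ls4_mem_KK]
    rw [this]
    refine MeasurableSet.iInter fun i => ?_
    refine measurableSet_le ?_ measurable_const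
    unfold dt
    fun_prop
  -- good points
  have hgood : ∀ᵐ x : R3, (x ∈ KK y → Tendsto (fun n => om (ys n) (ws n) x) atTop
        (𝓝 (om y' W x))) ∧
      (∀ n, ∃ P : ι × Bool, act (ys n) P x ∧ om (ys n) (ws n) x = ws n P.1 ∧
        ∀ P', act (ys n) P' x → P' = P) ∧
      (∃ P : ι' × Bool, act y' P x ∧ om y' W x = W P.1 ∧ ∀ P', act y' P' x → P' = P) := by
    have g1 := (ae_restrict_iff' hKm).mp hae
    have g2 : ∀ᵐ x : R3, ∀ n, ∃ P : ι × Bool, act (ys n) P x ∧ om (ys n) (ws n) x = ws n P.1 ∧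
        ∀ P', act (ys n) P' x → P' = P := by
      rw [ae_all_iff]
      intro n
      exact (hOMI ι (ys n) (hN n) (ws n)).2.2.2.2.2
    have g3 := (hOMI ι' y' hGood.toNpb W).2.2.2.2.2
    filter_upwards [g1, g2, g3] with x h1 h2 h3
    exact ⟨h1, h2, h3⟩
  have hpt : ∀ᵐ z : ℝ × ℝ, ∀ η : ℝ, 0 < η → ∀ᶠ n in atTop,
      EL y' W b1 b2 a z ≤ EL (ys n) (ws n) b1 b2 a z + η := by
    filter_upwards [ls4_tri hGTR hGood hde0 hdir, ls4_ne1 (b1 := b1) (b2 := b2) hdir,
      ls4_col ys ws hN hde0, ls4_fub hde0 hgood] with z F1 F2 F3 F4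
    intro η hη
    simp_rw [ls4_EL_eq]
    have : Nonempty ι := hne.map f
    refine hLL (ι × Bool) (ι' × Bool) (fun P => dt (sy y' P) (z.1 • b1 + z.2 • b2))
      (fun P => dt (sy y' P) a) (fun P => W P.1)
      (fun n P => dt (sy (ys n) P) (z.1 • b1 + z.2 • b2)) (fun n P => dt (sy (ys n) P) a)
      (fun n P => ws n P.1) ?_ ?_ ?_ ?_ ?_ ?_ η hη
    · intro P P' h
      by_contra hPP
      apply hdir P P' hPP
      rw [ls4_dt_sub]
      exact sub_eq_zero.mpr h
    · intro P P' P'' t h1 h2 h3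
      rw [ls4_ac_iff] at h1 h2 h3
      by_contra hcon
      push Not at hcon
      exact F1 P P' P'' hcon.1 hcon.2.1 hcon.2.2 t h1 h2 h3
    · intro P P' t hPP h1 h2
      rw [ls4_ac_iff] at h1 h2
      rw [← ls4_dt_lnp]
      exact F2 P P' hPP t h1 h2
    · exact F3
    · intro P t hu hv1 η hη
      set x := lnp b1 b2 a z t with hx
      have hu' : ∀ P', P' ≠ P → dt (sy y' P') x < dt (sy y' P) x := by
        intro P' h
        have := hu P' h
        rwa [← ls4_dt_lnp, ← ls4_dt_lnp] at this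
      have hv' : dt (sy y' P) x < 1 := by
        rwa [← ls4_dt_lnp] at hv1
      have c1 := ls4_conv ys y f hSel.same hSq.lim x P hu'
      have c2 : ∀ᶠ n in atTop, ∀ R : ι × Bool, |dt (sy (ys n) R) a - dt (sy y R) a| < η := by
        rw [Filter.eventually_all]
        intro R
        have : Tendsto (fun n => dt (sy (ys n) R) a) atTop (𝓝 (dt (sy y R) a)) :=
          ((ls4_cont R a).tendsto y).comp hSq.lim
        have := Metric.tendsto_nhds.mp this η hη
        simpa [Real.dist_eq] using this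
      have c3 : ∀ᶠ n in atTop, ∀ R : ι × Bool,
          |dt (sy (ys n) R) x - dt (sy y R) x| < 1 - dt (sy y' P) x := by
        rw [Filter.eventually_all]
        intro R
        have : Tendsto (fun n => dt (sy (ys n) R) x) atTop (𝓝 (dt (sy y R) x)) :=
          ((ls4_cont R x).tendsto y).comp hSq.lim
        have := Metric.tendsto_nhds.mp this (1 - dt (sy y' P) x) (by linarith)
        simpa [Real.dist_eq] using this
      filter_upwards [c1, c2, c3] with n h1 h2 h3 R hR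
      rw [ls4_ac_iff] at hR
      have e := h1 R hR
      have k2 := h2 R
      have k3 := h3 R
      rw [e] at k2 k3
      refine ⟨k2, ?_⟩
      rw [← ls4_dt_lnp]
      have := (abs_lt.mp k3).2
      linarith
    · filter_upwards [F4] with t ht P hu hv1 η hη
      set x := lnp b1 b2 a z t with hx
      have hu' : ∀ P', P' ≠ P → dt (sy y' P') x < dt (sy y' P) x := by
        intro P' h
        have := hu P' h
        rwa [← ls4_dt_lnp, ← ls4_dt_lnp] at this
      have hv' : dt (sy y' P) x < 1 := by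
        rwa [← ls4_dt_lnp] at hv1
      have hact : act y' P x := by
        rw [ls4_act_iff]
        intro P'
        by_cases h : P' = P
        · rw [h]
        · exact (hu' P' h).le
      have hxK : x ∈ KK y := by
        rw [← hSel.same]
        intro i
        exact (hact i).trans hv'.le
      obtain ⟨g1, g2, P0, hP0, hP0w, hP0u⟩ := ht
      have hPP0 : P = P0 := hP0u P hact
      have hlim := g1 hxK
      rw [hP0w, ← hPP0] at hlim
      have := Metric.tendsto_nhds.mp hlim η hη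
      filter_upwards [this] with n hn R hR
      rw [ls4_ac_iff] at hR
      obtain ⟨Pn, hPn, hPnw, hPnu⟩ := g2 n
      have : R = Pn := hPnu R hR
      rw [this, ← hPnw, ← Real.dist_eq]
      exact hn
  have hfat := ls4_fatou volume (EL y' W b1 b2 a) (fun n => EL (ys n) (ws n) b1 b2 a) hi'
    (fun z => by rw [ls4_EL_eq]; exact ls4_E1_nonneg _ _ _) (fun n => (hLn n).1)
    (fun n => (hLn n).2.1) (fun n z => by rw [ls4_EL_eq]; exact ls4_E1_nonneg _ _ _) hpt (η / 2)
    (by linarith)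
  filter_upwards [hfat] with n hn
  rw [hEn]
  have := (hLn n).2.2.1
  linarith

end Pool.G1
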