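import Pool.Agent.Work.MP_b5407d_g1.Interface
import Pool.Agent.Work.MP_b5407d_t3.COO
import Pool.Agent.Work.MP_b5407d_t3.BND
import Pool.Agent.Work.MP_b5407d_t3.LAMF
import Pool.Agent.Work.MP_b5407d_t3.LAMC
import Pool.Agent.Work.MP_b5407d_t3.VIN
import Pool.Agent.Work.MP_b5407d_t3.SF
import Pool.Agent.Work.MP_b5407d_t3.HF

/-!
# G1, block MUS: cones and edges
-/

set_option autoImplicit false

open MeasureTheory Set Filter Topology

namespace Pool.G1

open Pool.T3 (R3 dt cr de K V S H Fam Pos pt Lam Q J lin)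

namespace MUSaux

open Pool.T3.VIN_ (Ls Ls_finite Lc1)

lemma dt_smul_left (t : ℝ) (a c : R3) : dt (t • a) c = t * dt a c := by
  simp only [dt, Pi.smul_apply, smul_eq_mul]; ring
lemma dt_smul_right (t : ℝ) (a c : R3) : dt a (t • c) = t * dt a c := by
  simp only [dt, Pi.smul_apply, smul_eq_mul]; ring
lemma cr_smul (s t : ℝ) (a b : R3) : cr (s • a) (t • b) = (s * t) • cr a b := by
  unfold cr
  ext i
  fin_cases i <;> simp [Pi.smul_apply, smul_eq_mul] <;> ring

lemma K_eq {ι : Type} (u : ι → R3) (h : ι → ℝ) (hh : Pos h) : K u h = KK (dv u h) := by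
  ext x
  refine forall_congr' (fun i => ?_)
  show |dt (u i) x| ≤ h i ↔ |dt ((1 / h i) • u i) x| ≤ 1
  have hp := hh i
  rw [dt_smul_left, abs_mul, abs_of_pos (by positivity : 0 < 1 / h i), one_div,
    inv_mul_le_iff₀ hp, mul_one]

lemma dv_abs {ι : Type} (u : ι → R3) (h : ι → ℝ) (hh : Pos h) (i : ι) (x : R3) :
    |dt (dv u h i) x| = |dt (u i) x| / h i := by
  show |dt ((1 / h i) • u i) x| = _
  have hp := hh i
  rw [dt_smul_left, abs_mul, abs_of_pos (by positivity : 0 < 1 / h i)]
  ring

lemma co_mem {ι : Type} (u : ι → R3) (h : ι → ℝ) (hh : Pos h) (i : ι) (x : R3) :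
    x ∈ co (dv u h) i ↔ |dt (u i) x| ≤ h i ∧ ∀ l, |dt (u l) x| ≤ |dt (u i) x| / h i * h l := by
  have hi := hh i
  constructor
  · rintro ⟨hK, hc⟩
    refine ⟨?_, fun l => ?_⟩
    · have := hK i
      rw [dv_abs u h hh] at this
      rwa [div_le_iff₀ hi, one_mul] at this
    · have := hc l
      rw [dv_abs u h hh, dv_abs u h hh, div_le_iff₀ (hh l)] at this
      exact this
  · rintro ⟨h1, h2⟩
    have hc : ∀ l, |dt (dv u h l) x| ≤ |dt (dv u h i) x| := by
      intro l
      rw [dv_abs u h hh, dv_abs u h hh, div_le_iff₀ (hh l)]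
      exact h2 l
    refine ⟨fun l => ?_, hc⟩
    refine le_trans (hc l) ?_
    rw [dv_abs u h hh, div_le_iff₀ hi, one_mul]
    exact h1

/-- the inner integral over a section of the cone -/
lemma inner {ι : Type} [Fintype ι] [DecidableEq ι] (u : ι → R3) (hu : Fam u) (i j : ι)
    (hij : i ≠ j) (hLAMC : Pool.T3.Stmt_LAMC) (h : ι → ℝ) (hh : Pos h) (α : ℝ) :
    (∫ β in (-(|α| / h i * h j))..(|α| / h i * h j), Lam u i j α β ((|α| / h i) • h)) =
      (|α| / h i) ^ 2 * ∫ β in (-h j)..(h j), Lam u i j (h i) β h := by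
  obtain ⟨-, -, -, hodd, -, hhom⟩ := hLAMC ι u hu i j hij
  have hi := hh i
  by_cases h0 : α = 0
  · subst h0
    simp
  have hσ : 0 < |α| / h i := div_pos (abs_pos.2 h0) hi
  set σ := |α| / h i with hσdef
  have e1 := intervalIntegral.smul_integral_comp_mul_left
    (a := -h j) (b := h j) (fun β => Lam u i j α β (σ • h)) σ
  have e2 : -(σ * h j) = σ * (-h j) := by ring
  rw [e2, ← e1, smul_eq_mul]
  have e3 : (∫ β in (-h j)..(h j), Lam u i j α (σ * β) (σ • h)) =
      σ * ∫ β in (-h j)..(h j), Lam u i j (h i) β h := by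
    rcases lt_or_gt_of_ne h0 with hneg | hpos
    · have hα : α = σ * (-h i) := by
        rw [hσdef, abs_of_neg hneg]; field_simp
      have f1 : ∀ β : ℝ, Lam u i j α (σ * β) (σ • h) = σ * Lam u i j (h i) (-β) h := by
        intro β
        rw [hα, hhom (-h i) β h σ hσ]
        congr 1
        have := hodd (h i) (-β) h
        rw [neg_neg] at this
        exact this
      rw [intervalIntegral.integral_congr (g := fun β => σ * Lam u i j (h i) (-β) h)
        (fun β _ => f1 β), intervalIntegral.integral_const_mul,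
        intervalIntegral.integral_comp_neg (fun β => Lam u i j (h i) β h), neg_neg]
    · have hα : α = σ * h i := by
        rw [hσdef, abs_of_pos hpos]; field_simp
      have f1 : ∀ β : ℝ, Lam u i j α (σ * β) (σ • h) = σ * Lam u i j (h i) β h := by
        intro β
        rw [hα, hhom (h i) β h σ hσ]
      rw [intervalIntegral.integral_congr (g := fun β => σ * Lam u i j (h i) β h)
        (fun β _ => f1 β), intervalIntegral.integral_const_mul]
  rw [e3]
  ring

/-- volume of the cone -/
lemma cone {ι : Type} [Fintype ι] [DecidableEq ι] (u : ι → R3) (hu : Fam u) (i j : ι)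
    (hij : i ≠ j) (hCOO : Pool.T3.Stmt_COO)
    (hLAMC : Pool.T3.Stmt_LAMC) (h : ι → ℝ) (hh : Pos h) :
    mu (dv u h) i = 2 / 3 * h i * ∫ β in (-h j)..(h j), Lam u i j (h i) β h := by
  obtain ⟨hC1, hC2⟩ := hCOO
  have hcr := hC2 ι u i j hu hij
  obtain ⟨hmp, hval⟩ := hC1 ι u i j hcr
  have hi := hh i
  have hcm : MeasurableSet (co (dv u h) i) := by
    have hc : ∀ l, Continuous (fun x : R3 => |dt (dv u h l) x|) := by
      intro l
      unfold dt
      fun_prop
    have e : co (dv u h) i = (⋂ l, {x | |dt (dv u h l) x| ≤ 1}) ∩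
        ⋂ l, {x | |dt (dv u h l) x| ≤ |dt (dv u h i) x|} := by
      ext x
      simp only [co, KK, K, mem_ofPred_eq, mem_inter_iff, mem_iInter]
    rw [e]
    refine MeasurableSet.inter ?_ ?_
    · exact MeasurableSet.iInter (fun l => (isClosed_le (hc l) continuous_const).measurableSet)
    · exact MeasurableSet.iInter (fun l => (isClosed_le (hc l) (hc i)).measurableSet)
  obtain ⟨hLc, hL0, -⟩ := hLAMC ι u hu i j hij
  set Φ := fun p : ℝ × ℝ × ℝ => pt u i j p.1 p.2.1 + p.2.2 • cr (u i) (u j) with hΦ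
  have hvol : volume (co (dv u h) i) = volume (Φ ⁻¹' co (dv u h) i) :=
    (hmp.measure_preimage hcm.nullMeasurableSet).symm
  have hTm : MeasurableSet (Φ ⁻¹' co (dv u h) i) := hmp.measurable hcm
  set T := Φ ⁻¹' co (dv u h) i with hT
  set G : ℝ := ∫ β in (-h j)..(h j), Lam u i j (h i) β h with hG
  -- membership
  have hmem : ∀ α β c : ℝ, (α, β, c) ∈ T ↔ (|α| ≤ h i ∧ |β| ≤ |α| / h i * h j ∧
      c ∈ Ls u i j α β ((|α| / h i) • h)) := by
    intro α β c
    obtain ⟨h1, h2, h3⟩ := hval α β c
    have e : (α, β, c) ∈ T ↔ (pt u i j α β + c • cr (u i) (u j)) ∈ co (dv u h) i := Iff.rfl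
    rw [e, co_mem u h hh, h1]
    constructor
    · rintro ⟨H0, H⟩
      refine ⟨H0, ?_, ?_⟩
      · have := H j
        rwa [h2] at this
      · intro m _ _
        have := H m
        rw [h3 m] at this
        exact this
    · rintro ⟨H1, H2, H3⟩
      refine ⟨H1, fun m => ?_⟩
      by_cases hmi : m = i
      · subst hmi
        rw [h1]
        have : |α| / h m * h m = |α| := by field_simp
        rw [this]
      · by_cases hmj : m = j
        · subst hmj
          rwa [h2]
        · rw [h3 m]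
          exact H3 m hmi hmj
  have hsec3 : ∀ α : ℝ, ¬ |α| ≤ h i → Prod.mk α ⁻¹' T = ∅ := by
    intro α ha
    ext p
    obtain ⟨β, c⟩ := p
    simp only [mem_preimage, mem_empty_iff_false, iff_false]
    intro H
    exact ha ((hmem α β c).1 H).1
  have hLam : ∀ (α β : ℝ) (g : ι → ℝ),
      volume (Ls u i j α β g) = ENNReal.ofReal (Lam u i j α β g) := by
    intro α β g
    have e : Lam u i j α β g = (volume (Ls u i j α β g)).toReal := rfl
    rw [e, ENNReal.ofReal_toReal (Ls_finite u hu i j hij α β g)]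
  -- the inner integral
  have hin : ∀ α : ℝ, |α| ≤ h i → volume (Prod.mk α ⁻¹' T)
      = ENNReal.ofReal ((|α| / h i) ^ 2 * G) := by
    intro α ha
    set σ := |α| / h i with hσ
    have hσ0 : 0 ≤ σ := div_nonneg (abs_nonneg _) hi.le
    have hσj : 0 ≤ σ * h j := mul_nonneg hσ0 (hh j).le
    rw [Measure.volume_eq_prod, Measure.prod_apply (measurable_prodMk_left hTm)]
    have e1 : ∀ β : ℝ, volume (Prod.mk β ⁻¹' (Prod.mk α ⁻¹' T))
        = (Icc (-(σ * h j)) (σ * h j)).indicator
          (fun β => ENNReal.ofReal (Lam u i j α β (σ • h))) β := by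
      intro β
      by_cases hb : |β| ≤ σ * h j
      · have : Prod.mk β ⁻¹' (Prod.mk α ⁻¹' T) = Ls u i j α β (σ • h) := by
          ext c
          have := hmem α β c
          exact ⟨fun H => (this.1 H).2.2, fun H => this.2 ⟨ha, hb, H⟩⟩
        rw [this, hLam, indicator_of_mem
          (show β ∈ Icc (-(σ * h j)) (σ * h j) from abs_le.1 hb)]
      · have : Prod.mk β ⁻¹' (Prod.mk α ⁻¹' T) = ∅ := by
          ext c
          simp only [mem_preimage, mem_empty_iff_false, iff_false]
          intro H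
          exact hb ((hmem α β c).1 H).2.1
        rw [this, measure_empty, indicator_of_notMem]
        intro hmem'
        exact hb (abs_le.2 hmem')
    rw [lintegral_congr e1, lintegral_indicator measurableSet_Icc]
    have hle : -(σ * h j) ≤ σ * h j := by linarith
    have hint : IntegrableOn (fun β : ℝ => Lam u i j α β (σ • h))
        (Icc (-(σ * h j)) (σ * h j)) volume :=
      (Lc1 u i j hLc (σ • h) α).continuousOn.integrableOn_Icc
    have e2 := ofReal_integral_eq_lintegral_ofReal hint (ae_of_all _ fun β => hL0 α β (σ • h))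
    rw [← e2, integral_Icc_eq_integral_Ioc, ← intervalIntegral.integral_of_le hle,
      inner u hu i j hij hLAMC h hh α]
  have hG0 : 0 ≤ G := by
    have hle : -h j ≤ h j := by linarith [hh j]
    exact intervalIntegral.integral_nonneg hle fun β _ => hL0 (h i) β h
  have hle : -h i ≤ h i := by linarith
  have hcont : Continuous (fun α : ℝ => (|α| / h i) ^ 2 * G) := by fun_prop
  have hout : volume T = ENNReal.ofReal (∫ α in (-h i)..(h i), (|α| / h i) ^ 2 * G) := by
    rw [Measure.volume_eq_prod, Measure.prod_apply hTm]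
    have e1 : ∀ α : ℝ, volume (Prod.mk α ⁻¹' T)
        = (Icc (-h i) (h i)).indicator (fun α => ENNReal.ofReal ((|α| / h i) ^ 2 * G)) α := by
      intro α
      by_cases ha : |α| ≤ h i
      · rw [hin α ha, indicator_of_mem (show α ∈ Icc (-h i) (h i) from abs_le.1 ha)]
      · rw [hsec3 α ha, measure_empty, indicator_of_notMem]
        intro hmem'
        exact ha (abs_le.2 hmem')
    rw [lintegral_congr e1, lintegral_indicator measurableSet_Icc]
    have hint : IntegrableOn (fun α : ℝ => (|α| / h i) ^ 2 * G) (Icc (-h i) (h i)) volume :=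
      hcont.continuousOn.integrableOn_Icc
    have e2 := ofReal_integral_eq_lintegral_ofReal hint
      (ae_of_all _ fun α => mul_nonneg (sq_nonneg _) hG0)
    rw [intervalIntegral.integral_of_le hle, ← integral_Icc_eq_integral_Ioc]
    exact e2.symm
  have hI : (∫ α in (-h i)..(h i), (|α| / h i) ^ 2 * G) = 2 / 3 * h i * G := by
    have e : ∀ α : ℝ, (|α| / h i) ^ 2 * G = (G / h i ^ 2) * α ^ 2 := by
      intro α
      rw [div_pow, sq_abs]
      ring
    rw [intervalIntegral.integral_congr (g := fun α => (G / h i ^ 2) * α ^ 2) (fun α _ => e α),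
      intervalIntegral.integral_const_mul, integral_pow]
    field_simp
    ring
  show (volume (co (dv u h) i)).toReal = _
  rw [hvol, hout, hI, ENNReal.toReal_ofReal (by positivity)]

/-- the edges -/
lemma edge {ι : Type} (u : ι → R3) (h : ι → ℝ) (hh : Pos h) (i k : ι) (s : ℝ) :
    Lam (dv u h) i k 1 s (fun _ => (1 : ℝ)) = h i * h k * Lam u i k (h i) (s * h k) h := by
  have hi := hh i
  have hk := hh k
  have hcr : cr (dv u h i) (dv u h k) = (1 / h i * (1 / h k)) • cr (u i) (u k) := cr_smul _ _ _ _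
  have hpt : pt (dv u h) i k 1 s = pt u i k (h i) (s * h k) := by
    unfold pt
    rw [hcr]
    show (1 / dt ((1 / h i * (1 / h k)) • cr (u i) (u k)) ((1 / h i * (1 / h k)) •
      cr (u i) (u k))) • ((1 : ℝ) • cr ((1 / h k) • u k) ((1 / h i * (1 / h k)) • cr (u i) (u k)) +
        s • cr ((1 / h i * (1 / h k)) • cr (u i) (u k)) ((1 / h i) • u i)) = _
    rw [cr_smul, cr_smul, dt_smul_left, dt_smul_right]
    by_cases hN : dt (cr (u i) (u k)) (cr (u i) (u k)) = 0
    · rw [hN]; simp
    · rw [smul_smul, smul_smul]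
      rw [smul_add, smul_add, smul_smul, smul_smul, smul_smul, smul_smul]
      congr 2 <;> field_simp
  have hde : ∀ m, de (dv u h i) (dv u h k) (dv u h m) =
      1 / h m * (de (u i) (u k) (u m) / (h i * h k)) := by
    intro m
    unfold de
    rw [hcr]
    show dt ((1 / h i * (1 / h k)) • cr (u i) (u k)) ((1 / h m) • u m) = _
    rw [dt_smul_left, dt_smul_right]
    field_simp
  have hset : {c : ℝ | ∀ m, m ≠ i → m ≠ k →
      |dt (dv u h m) (pt (dv u h) i k 1 s) + c * de (dv u h i) (dv u h k) (dv u h m)| ≤ 1} =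
      (fun c => (1 / (h i * h k)) * c) ⁻¹' {c : ℝ | ∀ m, m ≠ i → m ≠ k →
      |dt (u m) (pt u i k (h i) (s * h k)) + c * de (u i) (u k) (u m)| ≤ h m} := by
    ext c
    refine forall_congr' (fun m => ?_)
    refine imp_congr_right (fun _ => imp_congr_right (fun _ => ?_))
    have hm := hh m
    rw [hpt, hde m]
    show |dt ((1 / h m) • u m) (pt u i k (h i) (s * h k)) + _| ≤ 1 ↔ _
    rw [dt_smul_left]
    have e : 1 / h m * dt (u m) (pt u i k (h i) (s * h k)) +
        c * (1 / h m * (de (u i) (u k) (u m) / (h i * h k))) =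
        1 / h m * (dt (u m) (pt u i k (h i) (s * h k)) +
          1 / (h i * h k) * c * de (u i) (u k) (u m)) := by
      field_simp
    rw [e, abs_mul, abs_of_pos (by positivity : 0 < 1 / h m), one_div,
      inv_mul_le_iff₀ hm, mul_one]
  have hne : (1 / (h i * h k)) ≠ 0 := by positivity
  unfold Lam
  rw [hset, Real.volume_preimage_mul_left hne, ENNReal.toReal_mul,
    ENNReal.toReal_ofReal (abs_nonneg _), one_div, inv_inv, abs_of_pos (by positivity)]

end MUSaux

open MUSaux in
/-- `MUS` -/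
theorem blk_MUS : Stmt_MUS := by
  intro ι _ _ u hu h hh
  have hLAMC := Pool.T3.stmt_LAMC Pool.T3.stmt_LAMF
  have hVIN := Pool.T3.stmt_VIN Pool.T3.stmt_COO Pool.T3.stmt_BND hLAMC
  have hSF := Pool.T3.stmt_SF hVIN hLAMC
  have hHF := Pool.T3.stmt_HF hSF hLAMC
  refine ⟨?_, fun i => ?_, fun i k hik => ?_⟩
  · show (volume (K u h)).toReal = (volume (KK (dv u h))).toReal
    rw [K_eq u h hh]
  · obtain ⟨a, b, c, hab, hac, hbc⟩ := hu.three
    obtain ⟨j, hij⟩ : ∃ j, i ≠ j := by
      by_cases ha : i = a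
      · exact ⟨b, by rw [ha]; exact hab⟩
      · exact ⟨a, ha⟩
    rw [(hSF ι u hu i j hij h hh).2, cone u hu i j hij Pool.T3.stmt_COO hLAMC h hh]
    ring
  · rw [(hHF ι u hu i k hik h hh).2]
    unfold cc
    rw [edge u h hh i k 1, edge u h hh i k (-1), one_mul, neg_one_mul]
    ring

end Pool.G1
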