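import Pool.Agent.Work.MP_b5407d_g1.RAW

/-!
# Block `MUT` of G1: first order change of `Σ mu z` under the tilt (helper55)
-/

set_option autoImplicit false

open MeasureTheory Set Filter Topology

namespace Pool.G1

open Pool.T3 (R3 dt cr de K V S H Fam Pos pt Lam Q J lin)

namespace MUT

/-- the first difference of the volume after the tilt -/
theorem fd (hTIL : Stmt_TIL) (hFCQ : Stmt_FCQ) (hPLN : Stmt_PLN) {ι : Type} [Fintype ι]
    [DecidableEq ι] (y : ι → R3) (w : ι → ℝ) (hy : Good y) (j : ι) (n0 p1 p2 : R3)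
    (hch : Chart y j n0 p1 p2) (n : ℕ) (ν v : ℕ → R2) (ℓ c : ℕ → ℝ)
    (kk : ℕ → {l : ι // l ≠ j} × Bool) (hPD : PD (FN y j p1 p2) (Fb y j n0) n ν v ℓ c kk)
    (β : R2) (hβ : ∀ i, 0 < dp β (v i)) (η : ℝ) (hη : 0 < η) :
    ∃ τ0 : ℝ, 0 < τ0 ∧ ∀ τ : ℝ, 0 ≤ τ → τ ≤ τ0 → ∀ᶠ s : ℝ in 𝓝 0,
      |(vo (dv (yt y j (tb n0 p1 p2 β) τ) (fun i => 1 + s * w i)) -
        vo (yt y j (tb n0 p1 p2 β) τ)) - (vo (dv y (fun i => 1 + s * w i)) - vo y) +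
        2 * de n0 p1 p2 * (τ * (s * J1 n v ℓ (0, β) (fun i => Fe y j n0 w (kk i) / c i)))| ≤
        2 * de n0 p1 p2 * (τ * (η * |s|)) := by
  obtain ⟨t1, ht1, h1⟩ := hTIL ι y hy j n0 p1 p2 hch β
  obtain ⟨t2, ht2, h2⟩ := hPLN _ (FN y j p1 p2) (FM y j n0 β) (Fb y j n0) (Fe y j n0 w) n ν v ℓ c kk
    hPD (0, β) (fun i => by unfold af; rw [zero_add]; exact hβ i) η hη
  obtain ⟨t3, ht3, C, hC, h3⟩ := GIN.ii y hy.bd j n0 p1 p2 hch β
  refine ⟨min t1 (min t2 t3), lt_min ht1 (lt_min ht2 ht3), fun τ hτ0 hτ => ?_⟩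
  have hτ1 : τ ≤ t1 := hτ.trans (min_le_left _ _)
  have hτ2 : τ ≤ t2 := hτ.trans ((min_le_right _ _).trans (min_le_left _ _))
  have hτ3 : τ ≤ t3 := hτ.trans ((min_le_right _ _).trans (min_le_right _ _))
  have hs2 : ∀ᶠ s : ℝ in 𝓝 0, |s| ≤ t2 := by
    have : Tendsto (fun s : ℝ => |s|) (𝓝 0) (𝓝 0) := by
      have := (continuous_abs).tendsto (0 : ℝ)
      simpa using this
    filter_upwards [this.eventually (eventually_lt_nhds ht2)] with s hs using hs.le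
  filter_upwards [RAW.small w t1 ht1, RAW.small w t3 ht3, hs2] with s g1 g3 g2
  set G : ℝ → ℝ → ℝ := fun σ t => ∫ ξ in Fc y j n0 p1 p2 β (fun i => 1 + σ * w i) t, dp β ξ with hG
  set J1w : ℝ := J1 n v ℓ (0, β) (fun i => Fe y j n0 w (kk i) / c i) with hJ1w
  have hbase : ∀ σ : ℝ, (∀ i, |σ * w i| ≤ t1) → vo (dv (yt y j (tb n0 p1 p2 β) τ)
      (fun i => 1 + σ * w i)) = vo (dv y (fun i => 1 + σ * w i)) -
        2 * de n0 p1 p2 * ∫ t in (0 : ℝ)..τ, G σ t := by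
    intro σ hσ
    have := h1 τ (fun i => 1 + σ * w i) (by rw [abs_of_nonneg hτ0]; exact hτ1)
      (fun i => by rw [add_sub_cancel_left]; exact hσ i)
    exact this
  have hint : ∀ σ : ℝ, (∀ i, |σ * w i| ≤ t3) → IntervalIntegrable (G σ) volume 0 τ := by
    intro σ hσ
    exact (h3 (fun i => 1 + σ * w i) τ (by rw [abs_of_nonneg hτ0]; exact hτ3)
      (fun i => by rw [add_sub_cancel_left]; exact hσ i)).2
  have z1 : ∀ i, |(0 : ℝ) * w i| ≤ t1 := fun i => by rw [zero_mul, abs_zero]; exact ht1.le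
  have z3 : ∀ i, |(0 : ℝ) * w i| ≤ t3 := fun i => by rw [zero_mul, abs_zero]; exact ht3.le
  have b0 := hbase 0 z1
  rw [RAW.dv_one, RAW.dv_one] at b0
  rw [hbase s g1, b0]
  have i1 := hint s g3
  have i3 := hint 0 z3
  have hsum : (∫ t in (0 : ℝ)..τ, G s t) - (∫ t in (0 : ℝ)..τ, G 0 t) - τ * (s * J1w) =
      ∫ t in (0 : ℝ)..τ, (G s t - G 0 t - s * J1w) := by
    rw [intervalIntegral.integral_sub (i1.sub i3) intervalIntegrable_const,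
      intervalIntegral.integral_sub i1 i3, intervalIntegral.integral_const, sub_zero, smul_eq_mul]
  have hGP : ∀ σ t : ℝ, G σ t = ∫ ξ in PP (FN y j p1 p2) (FM y j n0 β) (Fb y j n0) (Fe y j n0 w) t σ,
      af (0, β) ξ := by
    intro σ t
    simp only [hG]
    rw [hFCQ]
    simp only [af, zero_add]
  have hle : |∫ t in (0 : ℝ)..τ, (G s t - G 0 t - s * J1w)| ≤ η * |s| * |τ - 0| := by
    have hh : ∀ t ∈ uIoc (0 : ℝ) τ, ‖G s t - G 0 t - s * J1w‖ ≤ η * |s| := by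
      intro t ht
      rw [uIoc_of_le hτ0] at ht
      rw [Real.norm_eq_abs, hGP, hGP]
      exact (h2 t s (by rw [abs_of_nonneg ht.1.le]; exact ht.2.trans hτ2) g2).1
    exact intervalIntegral.norm_integral_le_of_norm_le_const hh
  rw [← hsum, sub_zero, abs_of_nonneg hτ0] at hle
  have hd := hch.hd
  have e : vo (dv y (fun i => 1 + s * w i)) - 2 * de n0 p1 p2 * (∫ t in (0 : ℝ)..τ, G s t) -
      (vo y - 2 * de n0 p1 p2 * ∫ t in (0 : ℝ)..τ, G 0 t) -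
      (vo (dv y (fun i => 1 + s * w i)) - vo y) + 2 * de n0 p1 p2 * (τ * (s * J1w)) =
      -(2 * de n0 p1 p2 * ((∫ t in (0 : ℝ)..τ, G s t) - (∫ t in (0 : ℝ)..τ, G 0 t) -
        τ * (s * J1w))) := by ring
  rw [e, abs_neg, abs_mul, abs_of_pos (show 0 < 2 * de n0 p1 p2 by linarith)]
  refine mul_le_mul_of_nonneg_left ?_ (by linarith)
  calc _ ≤ _ := hle
    _ = τ * (η * |s|) := by ring

/-- elimination of the second order terms -/
theorem elim (D D' m m' B B' κ0 τ J η s : ℝ) (hs : 0 < s)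
    (h1 : |D - D' + 2 * κ0 * (τ * (s * J))| ≤ 2 * κ0 * (τ * (η * |s|)))
    (h2 : |D - 3 * s * m - s ^ 2 / 2 * B| ≤ 1 * s ^ 2)
    (h3 : |D' - 3 * s * m' - s ^ 2 / 2 * B'| ≤ 1 * s ^ 2) :
    |3 * m - 3 * m' + 2 * κ0 * τ * J| ≤ 2 * κ0 * τ * η + s * (2 + |B| / 2 + |B'| / 2) := by
  rw [abs_of_pos hs] at h1
  have e : s * (3 * m - 3 * m' + 2 * κ0 * τ * J) = (D - D' + 2 * κ0 * (τ * (s * J))) -
      (D - 3 * s * m - s ^ 2 / 2 * B) + (D' - 3 * s * m' - s ^ 2 / 2 * B') -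
      s ^ 2 / 2 * B + s ^ 2 / 2 * B' := by ring
  have k : |s * (3 * m - 3 * m' + 2 * κ0 * τ * J)| ≤
      2 * κ0 * (τ * (η * s)) + 1 * s ^ 2 + 1 * s ^ 2 + s ^ 2 / 2 * |B| + s ^ 2 / 2 * |B'| := by
    rw [e]
    have a1 : |s ^ 2 / 2 * B| = s ^ 2 / 2 * |B| := by
      rw [abs_mul, abs_of_nonneg (by positivity)]
    have a2 : |s ^ 2 / 2 * B'| = s ^ 2 / 2 * |B'| := by
      rw [abs_mul, abs_of_nonneg (by positivity)]
    refine (abs_add_le _ _).trans (add_le_add ?_ a2.le)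
    refine (abs_sub _ _).trans (add_le_add ?_ a1.le)
    refine (abs_add_le _ _).trans (add_le_add ?_ h3)
    exact (abs_sub _ _).trans (add_le_add h1 h2)
  rw [abs_mul, abs_of_pos hs] at k
  have k2 : 2 * κ0 * (τ * (η * s)) + 1 * s ^ 2 + 1 * s ^ 2 + s ^ 2 / 2 * |B| + s ^ 2 / 2 * |B'| =
      s * (2 * κ0 * τ * η + s * (2 + |B| / 2 + |B'| / 2)) := by ring
  rw [k2] at k
  exact le_of_mul_le_mul_left k hs

end MUT

theorem blk_MUT (hC2G : Stmt_C2G) (hGOP : Stmt_GOP) (hTIL : Stmt_TIL) (hFCQ : Stmt_FCQ)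
    (hPLN : Stmt_PLN) : Stmt_MUT := by
  intro ι _ _ y hy j n0 p1 p2 hch n ν v ℓ c kk hPD β hβ z η hη
  have hκ0 : 0 < de n0 p1 p2 := hch.hd
  set κ0 := de n0 p1 p2 with hκ0def
  set b := tb n0 p1 p2 β with hb
  obtain ⟨t1, ht1, h1⟩ := MUT.fd hTIL hFCQ hPLN y z hy j n0 p1 p2 hch n ν v ℓ c kk hPD β hβ
    (η / (2 * κ0)) (by positivity)
  have hgood : ∀ᶠ τ : ℝ in 𝓝 0, Good (yt y j b τ) :=
    (RAW.yt_tendsto y j b).eventually (hGOP ι y hy)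
  obtain ⟨t2, ht2, h2⟩ := Metric.eventually_nhds_iff.mp hgood
  refine ⟨min t1 (t2 / 2), lt_min ht1 (half_pos ht2), fun τ hτ0 hτ => ?_⟩
  have hg : Good (yt y j b τ) := h2 (by
    rw [Real.dist_eq, sub_zero, abs_of_nonneg hτ0]
    have := hτ.trans (min_le_right _ _)
    linarith)
  have c1 := h1 τ hτ0 (hτ.trans (min_le_left _ _))
  have c2 := hC2G ι (yt y j b τ) hg z 1 one_pos
  have c3 := hC2G ι y hy z 1 one_pos
  set J1w : ℝ := J1 n v ℓ (0, β) (fun i => Fe y j n0 z (kk i) / c i) with hJ1w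
  set B : ℝ := 6 * (∑ i, mu (yt y j b τ) i * z i ^ 2) - En (yt y j b τ) z with hB
  set B' : ℝ := 6 * (∑ i, mu y i * z i ^ 2) - En y z with hB'
  have hev : ∀ᶠ s : ℝ in 𝓝[>] (0 : ℝ), |3 * (∑ i, mu (yt y j b τ) i * z i) -
      3 * (∑ i, mu y i * z i) + 2 * κ0 * τ * J1w| ≤
      2 * κ0 * τ * (η / (2 * κ0)) + s * (2 + |B| / 2 + |B'| / 2) := by
    filter_upwards [c1.filter_mono nhdsWithin_le_nhds, c2.filter_mono nhdsWithin_le_nhds,
      c3.filter_mono nhdsWithin_le_nhds,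
      (self_mem_nhdsWithin : ∀ᶠ m : ℝ in 𝓝[>] (0 : ℝ), m ∈ Ioi (0 : ℝ))] with s d1 d2 d3 hs
    exact MUT.elim _ _ _ _ B B' κ0 τ J1w (η / (2 * κ0)) s hs d1 d2 d3
  have hlim : Tendsto (fun s : ℝ => 2 * κ0 * τ * (η / (2 * κ0)) + s * (2 + |B| / 2 + |B'| / 2))
      (𝓝[>] (0 : ℝ)) (𝓝 (η * τ)) := by
    have hc : Continuous (fun s : ℝ => 2 * κ0 * τ * (η / (2 * κ0)) + s * (2 + |B| / 2 + |B'| / 2)) := by
      fun_prop
    have h0 := (hc.tendsto 0).mono_left (nhdsWithin_le_nhds (s := Ioi (0 : ℝ)))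
    have e0 : 2 * κ0 * τ * (η / (2 * κ0)) + 0 * (2 + |B| / 2 + |B'| / 2) = η * τ := by
      field_simp
      ring
    rw [e0] at h0
    exact h0
  exact ge_of_tendsto hlim hev

end Pool.G1
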