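import Pool.Agent.Work.MP_b5407d_g1.Interface
import Pool.Agent.Work.MP_b5407d_g1.CTV
import Pool.Agent.Work.MP_b5407d_g1.BAS

/-!
# Block OMI: integrals of `om`
-/

set_option autoImplicit false

open MeasureTheory Set

namespace Pool.G1

open Pool.T3 (R3 dt cr)

namespace OMI

variable {ι : Type} [Fintype ι]

/-- the open cone over the facets `±i` -/
def U (y : ι → R3) (i : ι) : Set R3 := {x : R3 | ∀ l, l ≠ i → |dt (y l) x| < |dt (y i) x|}

lemma dt_smul_right (a x : R3) (c : ℝ) : dt a (c • x) = c * dt a x := by
  simp only [dt, Pi.smul_apply, smul_eq_mul]; ring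

lemma meas_U (y : ι → R3) (i : ι) : MeasurableSet (U y i) := by
  have h : U y i = ⋂ l, ⋂ (_ : l ≠ i), {x : R3 | |dt (y l) x| < |dt (y i) x|} := by
    ext x; simp only [U, mem_iInter, mem_ofPred_eq]
  rw [h]
  refine MeasurableSet.iInter fun l => MeasurableSet.iInter fun _ => ?_
  exact (isOpen_lt (CTV.cont_dt continuous_const continuous_id).abs
    (CTV.cont_dt continuous_const continuous_id).abs).measurableSet

lemma om_eq (y : ι → R3) (w : ι → ℝ) (x : R3) :
    om y w x = ∑ i, (U y i).indicator (fun _ => w i) x := rfl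

lemma U_disj (y : ι → R3) {i k : ι} {x : R3} (hi : x ∈ U y i) (hk : x ∈ U y k) : i = k := by
  by_contra h
  have h1 := hi k (Ne.symm h)
  have h2 := hk i h
  exact lt_asymm h1 h2

lemma om_of_mem (y : ι → R3) (w : ι → ℝ) {i : ι} {x : R3} (hi : x ∈ U y i) :
    om y w x = w i := by
  classical
  rw [om_eq, Finset.sum_eq_single i]
  · exact indicator_of_mem hi _
  · intro k _ hk
    exact indicator_of_notMem (fun h => hk (U_disj y h hi)) _
  · intro h; exact absurd (Finset.mem_univ i) h

lemma om_of_notMem (y : ι → R3) (w : ι → ℝ) {x : R3} (h : ∀ i, x ∉ U y i) :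
    om y w x = 0 := by
  rw [om_eq]
  exact Finset.sum_eq_zero fun i _ => indicator_of_notMem (h i) _

lemma om_sq (y : ι → R3) (w : ι → ℝ) (x : R3) :
    om y w x ^ 2 = om y (fun i => w i ^ 2) x := by
  by_cases h : ∃ i, x ∈ U y i
  · obtain ⟨i, hi⟩ := h
    rw [om_of_mem y w hi, om_of_mem y _ hi]
  · push Not at h
    rw [om_of_notMem y w h, om_of_notMem y _ h]; norm_num

lemma om_meas (y : ι → R3) (w : ι → ℝ) : Measurable (om y w) := by
  have h : om y w = fun x => ∑ i, (U y i).indicator (fun _ => w i) x := rfl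
  rw [h]
  exact Finset.measurable_sum _ fun i _ => measurable_const.indicator (meas_U y i)

lemma om_bd (y : ι → R3) (w : ι → ℝ) (x : R3) : |om y w x| ≤ ∑ i, |w i| := by
  rw [om_eq]
  refine (Finset.abs_sum_le_sum_abs _ _).trans (Finset.sum_le_sum fun i _ => ?_)
  by_cases h : x ∈ U y i
  · rw [indicator_of_mem h]
  · rw [indicator_of_notMem h, abs_zero]; exact abs_nonneg _

lemma mem_U_smul (y : ι → R3) (i : ι) (c : ℝ) (hc : c ≠ 0) (x : R3) :
    c • x ∈ U y i ↔ x ∈ U y i := by
  have h : 0 < |c| := abs_pos.2 hc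
  simp only [U, mem_ofPred_eq, dt_smul_right, abs_mul]
  constructor
  · intro h1 l hl
    exact lt_of_mul_lt_mul_left (h1 l hl) h.le
  · intro h1 l hl
    exact mul_lt_mul_of_pos_left (h1 l hl) h

lemma om_smul (y : ι → R3) (w : ι → ℝ) (c : ℝ) (x : R3) (hc : c ≠ 0) :
    om y w (c • x) = om y w x := by
  rw [om_eq, om_eq]
  refine Finset.sum_congr rfl fun i _ => ?_
  by_cases h : x ∈ U y i
  · rw [indicator_of_mem h, indicator_of_mem ((mem_U_smul y i c hc x).2 h)]
  · rw [indicator_of_notMem h, indicator_of_notMem (fun h' => h ((mem_U_smul y i c hc x).1 h'))]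

/-- the exceptional planes -/
def NN (y : ι → R3) : Set R3 :=
  ⋃ p : ι × ι, {x : R3 | p.1 ≠ p.2 ∧ (dt (y p.1 - y p.2) x = 0 ∨ dt (y p.1 + y p.2) x = 0)}

lemma NN_null (y : ι → R3) (h : Npb y) : volume (NN y) = 0 := by
  refine measure_iUnion_null fun p => ?_
  by_cases hp : p.1 = p.2
  · have : {x : R3 | p.1 ≠ p.2 ∧ (dt (y p.1 - y p.2) x = 0 ∨ dt (y p.1 + y p.2) x = 0)} = ∅ := by
      ext x
      simp [hp]
    rw [this]; exact measure_empty
  · obtain ⟨h1, h2⟩ := BAS.ne_pm y h p.1 p.2 hp
    have n1 := CTV.null_plane (y p.1 - y p.2) 0 (Or.inl h1)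
    have n2 := CTV.null_plane (y p.1 + y p.2) 0 (Or.inl h2)
    refine measure_mono_null ?_ (measure_union_null n1 n2)
    intro x hx
    exact hx.2

lemma not_NN (y : ι → R3) {x : R3} (hx : x ∉ NN y) {i k : ι} (hik : i ≠ k) :
    |dt (y i) x| ≠ |dt (y k) x| := by
  intro e
  apply hx
  refine mem_iUnion.2 ⟨(i, k), hik, ?_⟩
  have d1 : dt (y i - y k) x = dt (y i) x - dt (y k) x := by
    simp only [dt, Pi.sub_apply]; ring
  have d2 : dt (y i + y k) x = dt (y i) x + dt (y k) x := by
    simp only [dt, Pi.add_apply]; ring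
  rcases abs_eq_abs.mp e with e | e
  · left; show dt (y i - y k) x = 0; rw [d1, e, sub_self]
  · right; show dt (y i + y k) x = 0; rw [d2, e]; ring

/-- volume of the part of the open cone in `c KK` -/
lemma vol_U (y : ι → R3) (h : Npb y) (i : ι) (c : ℝ) (hc : 0 < c) :
    (volume (U y i ∩ (fun x : R3 => c • x) '' KK y)).toReal = c ^ 3 * mu y i := by
  have h1 : U y i ∩ (fun x : R3 => c • x) '' KK y =
      (fun x : R3 => c • x) '' (U y i ∩ KK y) := by
    ext x
    constructor
    · rintro ⟨hx, z, hz, rfl⟩
      exact ⟨z, ⟨(mem_U_smul y i c hc.ne' z).1 hx, hz⟩, rfl⟩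
    · rintro ⟨z, ⟨hz1, hz2⟩, rfl⟩
      exact ⟨(mem_U_smul y i c hc.ne' z).2 hz1, z, hz2, rfl⟩
  have h2 : volume ((fun x : R3 => c • x) '' (U y i ∩ KK y)) =
      ENNReal.ofReal (c ^ 3) * volume (U y i ∩ KK y) := by
    have h3 := Measure.addHaar_smul (volume : Measure R3) c (U y i ∩ KK y)
    rw [Module.finrank_fin_fun, abs_of_pos (by positivity)] at h3
    exact h3
  have h4 : volume (U y i ∩ KK y) = volume (co y i) := by
    refine le_antisymm (measure_mono ?_) ?_
    · rintro x ⟨hx1, hx2⟩
      refine ⟨hx2, fun l => ?_⟩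
      by_cases hl : l = i
      · rw [hl]
      · exact (hx1 l hl).le
    · have h5 : co y i ⊆ (U y i ∩ KK y) ∪ NN y := by
        intro x hx
        by_cases hN : x ∈ NN y
        · exact Or.inr hN
        · refine Or.inl ⟨fun l hl => ?_, hx.1⟩
          exact lt_of_le_of_ne (hx.2 l) (not_NN y hN hl)
      calc volume (co y i) ≤ volume ((U y i ∩ KK y) ∪ NN y) := measure_mono h5
        _ ≤ volume (U y i ∩ KK y) + volume (NN y) := measure_union_le _ _
        _ = volume (U y i ∩ KK y) := by rw [NN_null y h, add_zero]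
  rw [h1, h2, h4, ENNReal.toReal_mul, ENNReal.toReal_ofReal (by positivity)]
  rfl

lemma int_om (y : ι → R3) (h : Npb y) (w : ι → ℝ) (c : ℝ) (hc : 0 < c) :
    ∫ x in (fun x : R3 => c • x) '' KK y, om y w x = c ^ 3 * ∑ i, mu y i * w i := by
  obtain ⟨R, hR⟩ := h.bd
  have hcomp : IsCompact ((fun x : R3 => c • x) '' KK y) :=
    (BAS.compact_KK y R hR).image (continuous_const_smul c)
  have hfin : volume ((fun x : R3 => c • x) '' KK y) ≠ ⊤ := hcomp.measure_lt_top.ne
  have h1 : ∫ x in (fun x : R3 => c • x) '' KK y, om y w x =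
      ∑ i, ∫ x in (fun x : R3 => c • x) '' KK y, (U y i).indicator (fun _ => w i) x := by
    rw [← integral_finsetSum]
    · rfl
    · intro i _
      refine Integrable.indicator ?_ (meas_U y i)
      exact integrableOn_const hfin
  rw [h1, Finset.mul_sum]
  refine Finset.sum_congr rfl fun i _ => ?_
  rw [integral_indicator (meas_U y i), Measure.restrict_restrict (meas_U y i)]
  rw [setIntegral_const, Measure.real, vol_U y h i c hc, smul_eq_mul]
  ring

end OMI

open OMI in
theorem blk_OMI : Stmt_OMI := by
  intro ι _ y h w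
  refine ⟨om_meas y w, ⟨_, om_bd y w⟩, fun c x hc => om_smul y w c x hc, ?_, ?_, ?_⟩
  · intro c hc
    have h1 : (fun x : R3 => om y w x ^ 2) = fun x => om y (fun i => w i ^ 2) x := by
      funext x; exact om_sq y w x
    rw [h1]
    exact int_om y h _ c hc
  · intro c hc
    exact int_om y h w c hc
  · have hae : ∀ᵐ x : R3, x ∉ NN y := by
      rw [ae_iff]
      simpa using NN_null y h
    filter_upwards [hae] with x hx
    obtain ⟨R, hR⟩ := h.bd
    have hcard := BAS.card_three y R hR
    have hne : Nonempty ι := Fintype.card_pos_iff.1 (by omega)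
    obtain ⟨i, hi⟩ := Finite.exists_max (fun l => |dt (y l) x|)
    have hU : x ∈ U y i := fun l hl => lt_of_le_of_ne (hi l) (not_NN y hx hl)
    have hpos : 0 < |dt (y i) x| := by
      obtain ⟨k, hk⟩ := Fintype.exists_ne_of_one_lt_card (by omega : 1 < Fintype.card ι) i
      exact (abs_nonneg _).trans_lt (hU k hk)
    -- the sign
    by_cases hs : 0 < dt (y i) x
    · refine ⟨(i, true), ?_, om_of_mem y w hU, ?_⟩
      · intro l
        show |dt (y l) x| ≤ dt (y i) x
        have := hi l
        rwa [abs_of_pos hs] at this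
      · rintro ⟨k, b⟩ hk
        have h1 := hk i
        have hki : k = i := by
          by_contra hne
          have h2 := hU k hne
          have h3 : dt (sy y (k, b)) x ≤ |dt (y k) x| := by
            have : |dt (sy y (k, b)) x| = |dt (y k) x| := by
              cases b
              · show |dt (-(y k)) x| = _
                have e : dt (-(y k)) x = -dt (y k) x := by
                  simp only [dt, Pi.neg_apply]; ring
                rw [e, abs_neg]
              · rfl
            rw [← this]; exact le_abs_self _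
          linarith
        subst hki
        cases b
        · exfalso
          have e : dt (sy y (k, false)) x = -dt (y k) x := by
            show dt (-(y k)) x = _
            simp only [dt, Pi.neg_apply]; ring
          rw [e] at h1
          linarith
        · rfl
    · have hs' : dt (y i) x < 0 := by
        rcases lt_trichotomy (dt (y i) x) 0 with h1 | h1 | h1
        · exact h1
        · rw [h1, abs_zero] at hpos; exact absurd hpos (lt_irrefl _)
        · exact absurd h1 hs
      have eneg : ∀ k, dt (sy y (k, false)) x = -dt (y k) x := by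
        intro k
        show dt (-(y k)) x = _
        simp only [dt, Pi.neg_apply]; ring
      refine ⟨(i, false), ?_, om_of_mem y w hU, ?_⟩
      · intro l
        rw [eneg]
        have := hi l
        rwa [abs_of_neg hs'] at this
      · rintro ⟨k, b⟩ hk
        have h1 := hk i
        have hki : k = i := by
          by_contra hne
          have h2 := hU k hne
          have h3 : dt (sy y (k, b)) x ≤ |dt (y k) x| := by
            have : |dt (sy y (k, b)) x| = |dt (y k) x| := by
              cases b
              · rw [eneg, abs_neg]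
              · rfl
            rw [← this]; exact le_abs_self _
          linarith
        subst hki
        cases b
        · rfl
        · exfalso
          have e : dt (sy y (k, true)) x = dt (y k) x := rfl
          rw [e] at h1
          linarith

end Pool.G1
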