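import Pool.Agent.Work.MP_b5407d_g1.Interface

/-!
# Block `PA1` of G1: Cauchy-Schwarz along a line (helper55)
-/

set_option autoImplicit false

open MeasureTheory Set Filter Topology

namespace Pool.G1

namespace PA1

open Classical in
/-- the interval energy restricted to slopes in `[a, b]` -/
noncomputable def G {κ : Type} [Fintype κ] (p q w : κ → ℝ) (a b t1 t2 : ℝ) : ℝ :=
  1 / 2 * ∑ P : κ, ∑ P' : κ, if (∃ t ∈ Icc t1 t2, ac p q P t ∧ ac p q P' t) ∧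
    (a ≤ q P ∧ q P ≤ b) ∧ (a ≤ q P' ∧ q P' ≤ b) then
    (w P - w P') ^ 2 / |q P - q P'| else 0

theorem G_nonneg {κ : Type} [Fintype κ] (p q w : κ → ℝ) (a b t1 t2 : ℝ) :
    0 ≤ G p q w a b t1 t2 := by
  classical
  unfold G
  refine mul_nonneg (by norm_num) (Finset.sum_nonneg fun P _ => Finset.sum_nonneg fun P' _ => ?_)
  split_ifs
  · positivity
  · exact le_refl _

theorem G_le_EE {κ : Type} [Fintype κ] (p q w : κ → ℝ) (a b t1 t2 : ℝ) :
    G p q w a b t1 t2 ≤ EE p q w t1 t2 := by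
  classical
  unfold G EE
  refine mul_le_mul_of_nonneg_left (Finset.sum_le_sum fun P _ => Finset.sum_le_sum fun P' _ => ?_)
    (by norm_num)
  by_cases h : ∃ t ∈ Icc t1 t2, ac p q P t ∧ ac p q P' t
  · rw [if_pos h]
    split_ifs
    · exact le_refl _
    · positivity
  · rw [if_neg h, if_neg (fun h' => h h'.1)]

theorem G_add {κ : Type} [Fintype κ] (p q w : κ → ℝ) (a b c t1 t t2 : ℝ) (hab : a ≤ b) (hbc : b ≤ c)
    (h1 : t1 ≤ t) (h2 : t ≤ t2) :
    G p q w a b t1 t + G p q w b c t t2 ≤ G p q w a c t1 t2 := by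
  classical
  unfold G
  rw [← mul_add, ← Finset.sum_add_distrib]
  refine mul_le_mul_of_nonneg_left (Finset.sum_le_sum fun P _ => ?_) (by norm_num)
  rw [← Finset.sum_add_distrib]
  refine Finset.sum_le_sum fun P' _ => ?_
  have hf : 0 ≤ (w P - w P') ^ 2 / |q P - q P'| := by positivity
  by_cases c1 : (∃ s ∈ Icc t1 t, ac p q P s ∧ ac p q P' s) ∧
      (a ≤ q P ∧ q P ≤ b) ∧ (a ≤ q P' ∧ q P' ≤ b)
  · have c3 : (∃ s ∈ Icc t1 t2, ac p q P s ∧ ac p q P' s) ∧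
        (a ≤ q P ∧ q P ≤ c) ∧ (a ≤ q P' ∧ q P' ≤ c) := by
      obtain ⟨⟨s, hs, hs2⟩, h3, h4⟩ := c1
      exact ⟨⟨s, ⟨hs.1, hs.2.trans h2⟩, hs2⟩, ⟨h3.1, h3.2.trans hbc⟩, ⟨h4.1, h4.2.trans hbc⟩⟩
    rw [if_pos c1, if_pos c3]
    by_cases c2 : (∃ s ∈ Icc t t2, ac p q P s ∧ ac p q P' s) ∧
        (b ≤ q P ∧ q P ≤ c) ∧ (b ≤ q P' ∧ q P' ≤ c)
    · have e1 : q P = b := le_antisymm c1.2.1.2 c2.2.1.1
      have e2 : q P' = b := le_antisymm c1.2.2.2 c2.2.2.1
      have e3 : (w P - w P') ^ 2 / |q P - q P'| = 0 := by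
        rw [e1, e2]; simp
      rw [if_pos c2, e3]; simp
    · rw [if_neg c2, add_zero]
  · rw [if_neg c1, zero_add]
    by_cases c2 : (∃ s ∈ Icc t t2, ac p q P s ∧ ac p q P' s) ∧
        (b ≤ q P ∧ q P ≤ c) ∧ (b ≤ q P' ∧ q P' ≤ c)
    · have c3 : (∃ s ∈ Icc t1 t2, ac p q P s ∧ ac p q P' s) ∧
          (a ≤ q P ∧ q P ≤ c) ∧ (a ≤ q P' ∧ q P' ≤ c) := by
        obtain ⟨⟨s, hs, hs2⟩, h3, h4⟩ := c2
        exact ⟨⟨s, ⟨h1.trans hs.1, hs.2⟩, hs2⟩, ⟨hab.trans h3.1, h3.2⟩, ⟨hab.trans h4.1, h4.2⟩⟩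
      rw [if_pos c2, if_pos c3]
    · rw [if_neg c2]
      split_ifs
      · exact hf
      · exact le_refl _

/-- an active pair contributes twice -/
theorem G_pair {κ : Type} [Fintype κ] (p q w : κ → ℝ) (P1 P2 : κ) (t1 t t2 : ℝ)
    (hq : q P1 < q P2) (h1 : t1 ≤ t) (h2 : t ≤ t2) (a1 : ac p q P1 t) (a2 : ac p q P2 t) :
    (w P1 - w P2) ^ 2 ≤ (q P2 - q P1) * G p q w (q P1) (q P2) t1 t2 := by
  classical
  set F : κ → κ → ℝ := fun P P' => if (∃ t ∈ Icc t1 t2, ac p q P t ∧ ac p q P' t) ∧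
    (q P1 ≤ q P ∧ q P ≤ q P2) ∧ (q P1 ≤ q P' ∧ q P' ≤ q P2) then
    (w P - w P') ^ 2 / |q P - q P'| else 0 with hF
  have hF0 : ∀ P P', 0 ≤ F P P' := by
    intro P P'
    simp only [hF]
    split_ifs
    · positivity
    · exact le_refl _
  have hne : P1 ≠ P2 := by rintro rfl; exact lt_irrefl _ hq
  have hd : 0 < q P2 - q P1 := sub_pos.mpr hq
  have e1 : F P1 P2 = (w P1 - w P2) ^ 2 / (q P2 - q P1) := by
    simp only [hF]
    rw [if_pos ⟨⟨t, ⟨h1, h2⟩, a1, a2⟩, ⟨le_refl _, hq.le⟩, ⟨hq.le, le_refl _⟩⟩, abs_sub_comm,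
      abs_of_pos hd]
  have e2 : F P2 P1 = (w P1 - w P2) ^ 2 / (q P2 - q P1) := by
    simp only [hF]
    rw [if_pos ⟨⟨t, ⟨h1, h2⟩, a2, a1⟩, ⟨hq.le, le_refl _⟩, ⟨le_refl _, hq.le⟩⟩, abs_of_pos hd]
    congr 1; ring
  have h3 : F P1 P2 + F P2 P1 ≤ ∑ P, ∑ P', F P P' := by
    calc F P1 P2 + F P2 P1 ≤ (∑ P', F P1 P') + ∑ P', F P2 P' :=
          add_le_add (Finset.single_le_sum (f := fun P' => F P1 P') (fun i _ => hF0 P1 i) (Finset.mem_univ P2))
            (Finset.single_le_sum (f := fun P' => F P2 P') (fun i _ => hF0 P2 i) (Finset.mem_univ P1))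
      _ = ∑ P ∈ ({P1, P2} : Finset κ), ∑ P', F P P' := by rw [Finset.sum_pair hne]
      _ ≤ ∑ P, ∑ P', F P P' :=
          Finset.sum_le_sum_of_subset_of_nonneg (Finset.subset_univ _)
            (fun i _ _ => Finset.sum_nonneg fun j _ => hF0 i j)
  have hG : G p q w (q P1) (q P2) t1 t2 = 1 / 2 * ∑ P, ∑ P', F P P' := rfl
  rw [hG]
  have h4 : (w P1 - w P2) ^ 2 / (q P2 - q P1) ≤ 1 / 2 * ∑ P, ∑ P', F P P' := by
    rw [e1, e2] at h3
    linarith
  calc (w P1 - w P2) ^ 2 = (q P2 - q P1) * ((w P1 - w P2) ^ 2 / (q P2 - q P1)) := by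
        field_simp
    _ ≤ _ := mul_le_mul_of_nonneg_left h4 hd.le

/-- Cauchy-Schwarz for two terms -/
theorem cs2 (a b x y A B : ℝ) (hx : 0 < x) (hy : 0 < y) (h1 : a ^ 2 ≤ x * A) (h2 : b ^ 2 ≤ y * B) :
    (a + b) ^ 2 ≤ (x + y) * (A + B) := by
  have k1 : a ^ 2 / x ≤ A := by rw [div_le_iff₀ hx]; linarith
  have k2 : b ^ 2 / y ≤ B := by rw [div_le_iff₀ hy]; linarith
  have k3 : (a + b) ^ 2 ≤ (x + y) * (a ^ 2 / x + b ^ 2 / y) := by
    have e : (x + y) * (a ^ 2 / x + b ^ 2 / y) - (a + b) ^ 2 = (a * y - b * x) ^ 2 / (x * y) := by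
      field_simp
      ring
    have : 0 ≤ (a * y - b * x) ^ 2 / (x * y) := by positivity
    linarith
  exact k3.trans (mul_le_mul_of_nonneg_left (add_le_add k1 k2) (by positivity))

theorem main {κ : Type} [Fintype κ] (p q w : κ → ℝ)
    (hw : ∀ P P', p P = p P' → q P = q P' → w P = w P') :
    ∀ n : ℕ, ∀ t1 t2 : ℝ, t1 ≤ t2 → ∀ P1 P2 : κ, ac p q P1 t1 → ac p q P2 t2 → q P1 ≤ q P2 →
      {P : κ | (q P1 < q P ∧ q P < q P2) ∧ ∃ t ∈ Icc t1 t2, ac p q P t}.ncard ≤ n →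
      (w P1 - w P2) ^ 2 ≤ (q P2 - q P1) * G p q w (q P1) (q P2) t1 t2 := by
  intro n
  induction n with
  | zero =>
    intro t1 t2 h12 P1 P2 a1 a2 hq hc
    rcases hq.eq_or_lt with he | hlt
    · have hp : p P1 = p P2 := by
        have := a1 P2
        have := a2 P1
        rw [he] at *
        linarith
      rw [hw P1 P2 hp he]
      simp [he]
    have hemp : ∀ P, q P1 < q P → q P < q P2 → ∀ t ∈ Icc t1 t2, ¬ ac p q P t := by
      intro P hP1 hP2 t ht hac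
      have h0 : {P : κ | (q P1 < q P ∧ q P < q P2) ∧ ∃ t ∈ Icc t1 t2, ac p q P t} = ∅ := by
        rw [← Set.ncard_eq_zero (Set.toFinite _)]
        omega
      have : P ∈ {P : κ | (q P1 < q P ∧ q P < q P2) ∧ ∃ t ∈ Icc t1 t2, ac p q P t} :=
        ⟨⟨hP1, hP2⟩, t, ht, hac⟩
      rw [h0] at this
      exact this
    have hd : 0 < q P2 - q P1 := sub_pos.mpr hlt
    set s : ℝ := (p P1 - p P2) / (q P2 - q P1) with hs
    have hval : p P1 + q P1 * s = p P2 + q P2 * s := by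
      have : (q P2 - q P1) * s = p P1 - p P2 := by rw [hs]; field_simp
      linarith
    have hs1 : t1 ≤ s := by
      rw [hs, le_div_iff₀ hd]
      have := a1 P2
      linarith
    have hs2 : s ≤ t2 := by
      rw [hs, div_le_iff₀ hd]
      have := a2 P1
      linarith
    obtain ⟨R, hR⟩ : ∃ R : κ, ac p q R s := by
      have : Nonempty κ := ⟨P1⟩
      obtain ⟨R, hR⟩ := Finite.exists_max (fun R : κ => p R + q R * s)
      exact ⟨R, hR⟩
    have b1 : ac p q P1 s := by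
      by_contra hcon
      have hgt : p P1 + q P1 * s < p R + q R * s := by
        by_contra hle
        exact hcon fun Q => (hR Q).trans (not_lt.mp hle)
      refine hemp R ?_ ?_ s ⟨hs1, hs2⟩ hR
      · by_contra hle
        have h3 := a1 R
        have h4 : (q R - q P1) * (s - t1) ≤ 0 :=
          mul_nonpos_of_nonpos_of_nonneg (by linarith) (by linarith)
        have h5 : (q R - q P1) * (s - t1) = (p R + q R * s - (p P1 + q P1 * s)) -
          (p R + q R * t1 - (p P1 + q P1 * t1)) := by ring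
        linarith
      · by_contra hle
        have h3 := a2 R
        have h4 : 0 ≤ (q R - q P2) * (t2 - s) :=
          mul_nonneg (by linarith) (by linarith)
        have h5 : (q R - q P2) * (t2 - s) = (p R + q R * t2 - (p P2 + q P2 * t2)) -
          (p R + q R * s - (p P2 + q P2 * s)) := by ring
        linarith
    have b2 : ac p q P2 s := fun Q => by rw [← hval]; exact b1 Q
    exact G_pair p q w P1 P2 t1 s t2 hlt hs1 hs2 b1 b2
  | succ n ih =>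
    intro t1 t2 h12 P1 P2 a1 a2 hq hc
    by_cases hex : ∃ P, (q P1 < q P ∧ q P < q P2) ∧ ∃ t ∈ Icc t1 t2, ac p q P t
    · obtain ⟨P, ⟨hP1, hP2⟩, t, ht, hac⟩ := hex
      have hmem : P ∈ {P : κ | (q P1 < q P ∧ q P < q P2) ∧ ∃ t ∈ Icc t1 t2, ac p q P t} :=
        ⟨⟨hP1, hP2⟩, t, ht, hac⟩
      have i1 := ih t1 t ht.1 P1 P a1 hac hP1.le (by
        have hss : {R : κ | (q P1 < q R ∧ q R < q P) ∧ ∃ t' ∈ Icc t1 t, ac p q R t'} ⊂
            {P : κ | (q P1 < q P ∧ q P < q P2) ∧ ∃ t ∈ Icc t1 t2, ac p q P t} := by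
          rw [Set.ssubset_iff_of_subset]
          · exact ⟨P, hmem, fun h => lt_irrefl _ h.1.2⟩
          · rintro R ⟨⟨r1, r2⟩, t', ht', har⟩
            exact ⟨⟨r1, r2.trans hP2⟩, t', ⟨ht'.1, ht'.2.trans ht.2⟩, har⟩
        have := Set.ncard_lt_ncard hss (Set.toFinite _)
        omega)
      have i2 := ih t t2 ht.2 P P2 hac a2 hP2.le (by
        have hss : {R : κ | (q P < q R ∧ q R < q P2) ∧ ∃ t' ∈ Icc t t2, ac p q R t'} ⊂
            {P : κ | (q P1 < q P ∧ q P < q P2) ∧ ∃ t ∈ Icc t1 t2, ac p q P t} := by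
          rw [Set.ssubset_iff_of_subset]
          · exact ⟨P, hmem, fun h => lt_irrefl _ h.1.1⟩
          · rintro R ⟨⟨r1, r2⟩, t', ht', har⟩
            exact ⟨⟨hP1.trans r1, r2⟩, t', ⟨ht.1.trans ht'.1, ht'.2⟩, har⟩
        have := Set.ncard_lt_ncard hss (Set.toFinite _)
        omega)
      have h3 := cs2 (w P1 - w P) (w P - w P2) _ _ _ _ (sub_pos.mpr hP1) (sub_pos.mpr hP2) i1 i2
      have e1 : w P1 - w P + (w P - w P2) = w P1 - w P2 := by ring
      have e2 : q P - q P1 + (q P2 - q P) = q P2 - q P1 := by ring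
      rw [e1, e2] at h3
      exact h3.trans (mul_le_mul_of_nonneg_left
        (G_add p q w (q P1) (q P) (q P2) t1 t t2 hP1.le hP2.le ht.1 ht.2) (by linarith))
    · refine ih t1 t2 h12 P1 P2 a1 a2 hq ?_
      have h0 : {P : κ | (q P1 < q P ∧ q P < q P2) ∧ ∃ t ∈ Icc t1 t2, ac p q P t} = ∅ := by
        ext P
        simp only [Set.mem_empty_iff_false, iff_false]
        exact fun h => hex ⟨P, h⟩
      rw [h0, Set.ncard_empty]
      exact Nat.zero_le _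

end PA1

theorem blk_PA1 : Stmt_PA1 := by
  intro κ _ p q w hw t1 t2 h12 P1 P2 a1 a2 hq
  have h := PA1.main p q w hw _ t1 t2 h12 P1 P2 a1 a2 hq le_rfl
  exact h.trans (mul_le_mul_of_nonneg_left (PA1.G_le_EE p q w _ _ _ _) (sub_nonneg.mpr hq))

end Pool.G1
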