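import Pool.Agent.Work.MP_b5407d_g1.InterfaceF

/-!
# G1, block PEX: existence of polygon data

Walk around the polygon: at a boundary point choose the active constraint with the largest angle, go along
its line as far as possible.  `Start A k`: `A` is the first point of the edge of `k`.  The walk on the finite
set of constraints with a starting point becomes periodic; one period gives the data.
-/

set_option autoImplicit false

open Filter Topology

namespace Pool.G1

namespace PEX

variable {κ : Type}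

/-- the polygon -/
def InP (N : κ → R2) (b : κ → ℝ) (ξ : R2) : Prop := ∀ k, dp (N k) ξ ≤ b k

lemma dp_add (a x y : R2) : dp a (x + y) = dp a x + dp a y := by
  simp only [dp, Prod.fst_add, Prod.snd_add]; ring

lemma dp_sub (a x y : R2) : dp a (x - y) = dp a x - dp a y := by
  simp only [dp, Prod.fst_sub, Prod.snd_sub]; ring

lemma dp_smul (a : R2) (t : ℝ) (x : R2) : dp a (t • x) = t * dp a x := by
  simp only [dp, Prod.smul_fst, Prod.smul_snd, smul_eq_mul]; ring

lemma dp_smul_left (a : R2) (t : ℝ) (x : R2) : dp (t • a) x = t * dp a x := by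
  simp only [dp, Prod.smul_fst, Prod.smul_snd, smul_eq_mul]; ring

lemma dp_rt (a x : R2) : dp a (rt x) = cp x a := by
  simp only [dp, rt, cp]; ring

lemma cp_self (a : R2) : cp a a = 0 := by simp only [cp]; ring

lemma cp_anti (a x : R2) : cp a x = -cp x a := by simp only [cp]; ring

lemma dd_pos {a : R2} (ha : a ≠ 0) : 0 < dp a a := by
  rcases eq_or_ne a.1 0 with h1 | h1
  · rcases eq_or_ne a.2 0 with h2 | h2
    · exact absurd (Prod.ext h1 h2) ha
    · simp only [dp]
      have := mul_self_pos.2 h2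
      have := mul_self_nonneg a.1
      linarith
  · simp only [dp]
    have := mul_self_pos.2 h1
    have := mul_self_nonneg a.2
    linarith

/-- parallel vectors on the same side -/
lemma par {a c d : R2} (h : cp a c = 0) (ha : dp a d < 0) (hc : dp c d < 0) :
    ∃ t : ℝ, 0 < t ∧ c = t • a := by
  refine ⟨dp c d / dp a d, div_pos_of_neg_of_neg hc ha, ?_⟩
  have e : dp a d • c = dp c d • a := by
    have h' : a.1 * c.2 - a.2 * c.1 = 0 := h
    refine Prod.ext ?_ ?_
    · simp only [dp, Prod.smul_fst, smul_eq_mul]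
      linear_combination (-d.2) * h'
    · simp only [dp, Prod.smul_snd, smul_eq_mul]
      linear_combination d.1 * h'
  have hne : dp a d ≠ 0 := ha.ne
  rw [div_eq_inv_mul, mul_smul, ← e, smul_smul, inv_mul_cancel₀ hne, one_smul]

variable [Fintype κ] {N : κ → R2} {b : κ → ℝ}

/-- small steps in a direction allowed by all active constraints -/
lemma small {B d : R2} (hB : InP N b B) (hd : ∀ k, dp (N k) B = b k → dp (N k) d ≤ 0) :
    ∃ t : ℝ, 0 < t ∧ InP N b (B + t • d) := by
  have h : ∀ k, ∀ᶠ t : ℝ in 𝓝[>] 0, dp (N k) (B + t • d) ≤ b k := by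
    intro k
    rcases (hB k).eq_or_lt with h0 | h0
    · filter_upwards [self_mem_nhdsWithin] with t ht
      rw [dp_add, dp_smul, h0]
      have := mul_nonpos_of_nonneg_of_nonpos (le_of_lt ht) (hd k h0)
      linarith
    · have hc : Continuous fun t : ℝ => dp (N k) (B + t • d) := by
        have : (fun t : ℝ => dp (N k) (B + t • d)) = fun t => dp (N k) B + t * dp (N k) d := by
          funext t; rw [dp_add, dp_smul]
        rw [this]
        fun_prop
      have h1 : Tendsto (fun t : ℝ => dp (N k) (B + t • d)) (𝓝[>] 0) (𝓝 (dp (N k) B)) := by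
        have := hc.tendsto 0
        simp only [zero_smul, add_zero] at this
        exact this.mono_left nhdsWithin_le_nhds
      filter_upwards [h1.eventually (gt_mem_nhds h0)] with t ht
      exact le_of_lt ht
  have h2 : ∀ᶠ t : ℝ in 𝓝[>] 0, ∀ k, dp (N k) (B + t • d) ≤ b k := by
    rw [Filter.eventually_all]; exact h
  obtain ⟨t, ht, ht0⟩ := (h2.and self_mem_nhdsWithin).exists
  exact ⟨t, ht0, ht⟩

/-- the last active constraint at a boundary point -/
lemma step {ξ0 B : R2} (h0 : ∀ k, dp (N k) ξ0 < b k)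
    (hex : ∃ k, dp (N k) B = b k) :
    ∃ k', dp (N k') B = b k' ∧ ∀ k, dp (N k) B = b k → cp (N k') (N k) ≤ 0 := by
  classical
  set a : R2 := B - ξ0 with ha
  have hpos : ∀ k, dp (N k) B = b k → 0 < dp (N k) a := by
    intro k hk
    rw [ha, dp_sub, hk]
    linarith [h0 k]
  obtain ⟨k0, hk0⟩ := hex
  set F : Finset κ := Finset.univ.filter fun k => dp (N k) B = b k with hF
  have hne : F.Nonempty := ⟨k0, by simp [hF, hk0]⟩
  obtain ⟨k', hk', hmax⟩ := F.exists_max_image (fun k => cp a (N k) / dp (N k) a) hne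
  have hk'1 : dp (N k') B = b k' := (Finset.mem_filter.1 hk').2
  refine ⟨k', hk'1, ?_⟩
  intro k hk
  have h1 := hmax k (by simp [hF, hk])
  have p1 := hpos k hk
  have p2 := hpos k' hk'1
  have h2 : cp a (N k) * dp (N k') a ≤ cp a (N k') * dp (N k) a := by
    rwa [div_le_div_iff₀ p1 p2] at h1
  have aa : 0 < dp a a := by
    apply dd_pos
    intro h
    rw [h] at p1
    simp [dp] at p1
  have e : cp (N k') (N k) * dp a a = cp a (N k) * dp (N k') a - cp a (N k') * dp (N k) a := by
    simp only [cp, dp]; ring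
  by_contra hcon
  rw [not_le] at hcon
  have := mul_pos hcon aa
  linarith

/-- the starting point of an edge -/
def Start (N : κ → R2) (b : κ → ℝ) (A : R2) (k : κ) : Prop :=
  InP N b A ∧ dp (N k) A = b k ∧ (∀ k', dp (N k') A = b k' → cp (N k) (N k') ≤ 0) ∧
    ∃ k', dp (N k') A = b k' ∧ cp (N k) (N k') < 0

omit [Fintype κ] in
lemma start_unique {A A' : R2} {k : κ} (hN : N k ≠ 0) (h : Start N b A k) (h' : Start N b A' k) :
    A = A' := by
  have key : ∀ {A A' : R2}, Start N b A k → Start N b A' k → dp (A' - A) (rt (N k)) ≤ 0 := by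
    intro A A' h h'
    by_contra hcon
    rw [not_le] at hcon
    obtain ⟨hA, hAk, -, -⟩ := h
    obtain ⟨hA', hAk', -, k', hk', hneg⟩ := h'
    have dd := dd_pos hN
    have h1 : dp (N k) (A' - A) = 0 := by rw [dp_sub, hAk, hAk', sub_self]
    have h2 : dp (N k) (N k) * dp (N k') (A' - A) =
        dp (A' - A) (rt (N k)) * cp (N k) (N k') := by
      have : dp (N k) (N k) * dp (N k') (A' - A) =
        dp (A' - A) (rt (N k)) * cp (N k) (N k') + dp (N k) (N k') * dp (N k) (A' - A) := by
        simp only [dp, rt, cp]; ring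
      rw [this, h1]; ring
    have h3 : dp (N k) (N k) * dp (N k') (A' - A) < 0 := by
      rw [h2]; exact mul_neg_of_pos_of_neg hcon hneg
    have h4 : dp (N k') (A' - A) < 0 := by
      by_contra h5
      rw [not_lt] at h5
      have := mul_nonneg dd.le h5
      linarith
    rw [dp_sub, hk'] at h4
    have := hA k'
    linarith
  have k1 := key h h'
  have k2 := key h' h
  have k3 : dp (A' - A) (rt (N k)) = 0 := by
    have : dp (A - A') (rt (N k)) = -dp (A' - A) (rt (N k)) := by
      simp only [dp, Prod.fst_sub, Prod.snd_sub]; ring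
    rw [this] at k2
    linarith
  have h1 : dp (N k) (A' - A) = 0 := by rw [dp_sub, h.2.1, h'.2.1, sub_self]
  have dd := dd_pos hN
  have h3 : dp (N k) (N k) * (A' - A).1 = 0 := by
    have : dp (N k) (N k) * (A' - A).1 =
        (N k).1 * dp (N k) (A' - A) - (N k).2 * dp (A' - A) (rt (N k)) := by
      simp only [dp, rt]; ring
    rw [this, h1, k3]; ring
  have h4 : dp (N k) (N k) * (A' - A).2 = 0 := by
    have : dp (N k) (N k) * (A' - A).2 =
        (N k).2 * dp (N k) (A' - A) + (N k).1 * dp (A' - A) (rt (N k)) := by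
      simp only [dp, rt]; ring
    rw [this, h1, k3]; ring
  have h5 : (A' - A).1 = 0 := by
    rcases mul_eq_zero.1 h3 with h | h
    · exact absurd h dd.ne'
    · exact h
  have h6 : (A' - A).2 = 0 := by
    rcases mul_eq_zero.1 h4 with h | h
    · exact absurd h dd.ne'
    · exact h
  have : A' - A = 0 := Prod.ext h5 h6
  exact (sub_eq_zero.1 this).symm

/-- one edge of the walk -/
lemma advance {ξ0 : R2} (hN : ∀ k, N k ≠ 0)
    (hb : ∃ R : ℝ, ∀ ξ : R2, InP N b ξ → |ξ.1| ≤ R ∧ |ξ.2| ≤ R)
    (h0 : ∀ k, dp (N k) ξ0 < b k) {A : R2} {k : κ} (hA : InP N b A) (hk : dp (N k) A = b k)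
    (hle : ∀ k', dp (N k') A = b k' → cp (N k) (N k') ≤ 0) :
    ∃ (t : ℝ) (k' : κ), 0 < t ∧ Start N b (A + t • rt (N k)) k' ∧ 0 < cp (N k) (N k') := by
  obtain ⟨R, hR⟩ := hb
  obtain ⟨t0, ht0, ht0P⟩ := small (d := rt (N k)) hA (by
    intro k' hk'; rw [dp_rt]; exact hle k' hk')
  have dd := dd_pos (hN k)
  set T : Set ℝ := {t : ℝ | 0 ≤ t ∧ InP N b (A + t • rt (N k))} with hT
  have hcl : IsClosed T := by
    have : T = {t : ℝ | 0 ≤ t} ∩ ⋂ k', {t : ℝ | dp (N k') A + t * dp (N k') (rt (N k)) ≤ b k'} := by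
      ext t
      simp only [hT, InP, Set.mem_ofPred_eq, Set.mem_inter_iff, Set.mem_iInter, dp_add, dp_smul]
    rw [this]
    refine isClosed_Ici.inter (isClosed_iInter fun k' => ?_)
    exact isClosed_le (by fun_prop) continuous_const
  have hbd : ∀ t ∈ T, t ≤ (2 * R * (|(N k).1| + |(N k).2|)) / dp (N k) (N k) := by
    intro t ht
    have h1 := hR _ ht.2
    have h2 := hR _ hA
    have e : t * dp (N k) (N k) = dp (A + t • rt (N k)) (rt (N k)) - dp A (rt (N k)) := by
      simp only [dp, rt, Prod.fst_add, Prod.snd_add, Prod.smul_fst, Prod.smul_snd, smul_eq_mul]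
      ring
    have bd : ∀ x : R2, |x.1| ≤ R ∧ |x.2| ≤ R → |dp x (rt (N k))| ≤ R * (|(N k).1| + |(N k).2|) := by
      intro x hx
      simp only [dp, rt]
      have : |x.1 * -(N k).2 + x.2 * (N k).1| ≤ |x.1| * |(N k).2| + |x.2| * |(N k).1| := by
        refine (abs_add_le _ _).trans ?_
        rw [abs_mul, abs_mul, abs_neg]
      have a1 := mul_le_mul_of_nonneg_right hx.1 (abs_nonneg (N k).2)
      have a2 := mul_le_mul_of_nonneg_right hx.2 (abs_nonneg (N k).1)
      linarith
    have b1 := abs_le.1 (bd _ h1)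
    have b2 := abs_le.1 (bd _ h2)
    rw [le_div_iff₀ dd, e]
    linarith [b1.2, b2.1]
  have hne : T.Nonempty := ⟨t0, ht0.le, ht0P⟩
  have hcomp : IsCompact T := by
    refine Metric.isCompact_of_isClosed_isBounded hcl ?_
    refine (Metric.isBounded_Icc 0 ((2 * R * (|(N k).1| + |(N k).2|)) / dp (N k) (N k))).subset ?_
    intro t ht
    exact ⟨ht.1, hbd t ht⟩
  obtain ⟨t, htT, htmax⟩ := hcomp.exists_isGreatest hne
  have htpos : 0 < t := lt_of_lt_of_le ht0 (htmax ⟨ht0.le, ht0P⟩)
  set B : R2 := A + t • rt (N k) with hB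
  have hBk : dp (N k) B = b k := by
    rw [hB, dp_add, dp_smul, dp_rt, cp_self, mul_zero, add_zero, hk]
  obtain ⟨k', hk', hle'⟩ := step (B := B) h0 ⟨k, hBk⟩
  have hnot : ¬ ∀ l, dp (N l) B = b l → cp (N k) (N l) ≤ 0 := by
    intro hall
    obtain ⟨s, hs, hsP⟩ := small (d := rt (N k)) htT.2 (by
      intro l hl; rw [dp_rt]; exact hall l hl)
    have hmem : t + s ∈ T := by
      refine ⟨by linarith [htT.1], ?_⟩
      have : A + (t + s) • rt (N k) = A + t • rt (N k) + s • rt (N k) := by
        rw [add_smul, add_assoc]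
      rw [this]; exact hsP
    have := htmax hmem
    linarith
  have hlt : cp (N k') (N k) < 0 := by
    refine lt_of_le_of_ne (hle' k hBk) ?_
    intro h00
    apply hnot
    have p1 : dp (N k') (ξ0 - B) < 0 := by rw [dp_sub, hk']; linarith [h0 k']
    have p2 : dp (N k) (ξ0 - B) < 0 := by rw [dp_sub, hBk]; linarith [h0 k]
    obtain ⟨c, hc, hcN⟩ := par h00 p1 p2
    intro l hl
    have : cp (N k) (N l) = c * cp (N k') (N l) := by
      rw [hcN]; simp only [cp, Prod.smul_fst, Prod.smul_snd, smul_eq_mul]; ring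
    rw [this]
    exact mul_nonpos_of_nonneg_of_nonpos hc.le (hle' l hl)
  refine ⟨t, k', htpos, ⟨htT.2, hk', hle', k, hBk, hlt⟩, ?_⟩
  rw [cp_anti]; linarith

/-- the walk -/
lemma walk [Nonempty κ] (hN : ∀ k, N k ≠ 0)
    (hb : ∃ R : ℝ, ∀ ξ : R2, InP N b ξ → |ξ.1| ≤ R ∧ |ξ.2| ≤ R)
    {ξ0 : R2} (h0 : ∀ k, dp (N k) ξ0 < b k) :
    ∃ (n : ℕ) (A : ℕ → R2) (t : ℕ → ℝ) (K : ℕ → κ), 0 < n ∧ (∀ i, K (i + n) = K i) ∧
      (∀ i, A (i + n) = A i) ∧ (∀ i, t (i + n) = t i) ∧ (∀ i, 0 < t i) ∧
      (∀ i, Start N b (A i) (K i)) ∧ (∀ i, A (i + 1) = A i + t i • rt (N (K i))) ∧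
      (∀ i, 0 < cp (N (K i)) (N (K (i + 1)))) ∧
      (∀ i j, i < n → j < n → K i = K j → i = j) := by
  classical
  -- the function `next`
  have nx : ∀ k : {k : κ // ∃ A, Start N b A k}, ∃ (t : ℝ) (k' : {k : κ // ∃ A, Start N b A k}),
      0 < t ∧ Start N b (k.2.choose + t • rt (N k.1)) k'.1 ∧ 0 < cp (N k.1) (N k'.1) := by
    intro k
    have h := k.2.choose_spec
    obtain ⟨t, k', ht, hs, hc⟩ := advance hN hb h0 h.1 h.2.1 h.2.2.1
    exact ⟨t, ⟨k', _, hs⟩, ht, hs, hc⟩
  choose T X hT hS hC using nx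
  have hAX : ∀ k, (X k).2.choose = k.2.choose + T k • rt (N k.1) := fun k =>
    start_unique (hN _) (X k).2.choose_spec (hS k)
  -- a starting element
  obtain ⟨R, hR⟩ := hb
  have hex : ∃ k : κ, ∃ A, Start N b A k := by
    obtain ⟨k0⟩ := ‹Nonempty κ›
    -- a boundary point on the ray from `ξ0` in the direction `N k0`
    have dd := dd_pos (hN k0)
    set T' : Set ℝ := {t : ℝ | 0 ≤ t ∧ InP N b (ξ0 + t • N k0)} with hT'
    have hcl : IsClosed T' := by
      have : T' = {t : ℝ | 0 ≤ t} ∩ ⋂ k', {t : ℝ | dp (N k') ξ0 + t * dp (N k') (N k0) ≤ b k'} := by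
        ext t
        simp only [hT', InP, Set.mem_ofPred_eq, Set.mem_inter_iff, Set.mem_iInter, dp_add, dp_smul]
      rw [this]
      refine isClosed_Ici.inter (isClosed_iInter fun k' => ?_)
      exact isClosed_le (by fun_prop) continuous_const
    have hbd : ∀ t ∈ T', t ≤ (b k0 - dp (N k0) ξ0) / dp (N k0) (N k0) := by
      intro t ht
      have h1 := ht.2 k0
      rw [dp_add, dp_smul] at h1
      rw [le_div_iff₀ dd]
      linarith
    have hne : T'.Nonempty := ⟨0, le_refl _, fun k => by
      rw [zero_smul, add_zero]; exact (h0 k).le⟩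
    have hcomp : IsCompact T' := by
      refine Metric.isCompact_of_isClosed_isBounded hcl ?_
      refine (Metric.isBounded_Icc 0 ((b k0 - dp (N k0) ξ0) / dp (N k0) (N k0))).subset ?_
      intro t ht
      exact ⟨ht.1, hbd t ht⟩
    obtain ⟨t, htT, htmax⟩ := hcomp.exists_isGreatest hne
    have hact : ∃ k, dp (N k) (ξ0 + t • N k0) = b k := by
      by_contra hno
      obtain ⟨s, hs, hsP⟩ := small (d := N k0) htT.2 (by
        intro l hl; exact absurd ⟨l, hl⟩ hno)
      have hmem : t + s ∈ T' := by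
        refine ⟨by linarith [htT.1], ?_⟩
        have : ξ0 + (t + s) • N k0 = ξ0 + t • N k0 + s • N k0 := by
          rw [add_smul, add_assoc]
        rw [this]; exact hsP
      have := htmax hmem
      linarith
    obtain ⟨k1, hk1, hk1'⟩ := step h0 hact
    obtain ⟨t', k', -, hs, -⟩ := advance hN ⟨R, hR⟩ h0 htT.2 hk1 hk1'
    exact ⟨k', _, hs⟩
  obtain ⟨kk0, hkk0⟩ := hex
  set s0 : {k : κ // ∃ A, Start N b A k} := ⟨kk0, hkk0⟩ with hs0
  set Q : ℕ → {k : κ // ∃ A, Start N b A k} := fun i => X^[i] s0 with hQ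
  have hQs : ∀ i, Q (i + 1) = X (Q i) := fun i => Function.iterate_succ_apply' X i s0
  have hrep : ∃ n, 0 < n ∧ ∃ p, Q (p + n) = Q p := by
    obtain ⟨i, j, hij, hQij⟩ := Finite.exists_ne_map_eq_of_infinite Q
    rcases lt_or_gt_of_ne hij with h | h
    · exact ⟨j - i, by omega, i, by rw [show i + (j - i) = j by omega, hQij]⟩
    · exact ⟨i - j, by omega, j, by rw [show j + (i - j) = i by omega, hQij]⟩
  set n := Nat.find hrep with hn
  obtain ⟨hn0, p, hp⟩ := Nat.find_spec hrep
  have hmin : ∀ m, 0 < m → m < n → ∀ q, Q (q + m) ≠ Q q := by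
    intro m hm hmn q hq
    exact Nat.find_min hrep hmn ⟨hm, q, hq⟩
  have hper : ∀ i, Q (p + (i + n)) = Q (p + i) := by
    intro i
    induction i with
    | zero => simpa using hp
    | succ i ih =>
      rw [show p + (i + 1 + n) = p + (i + n) + 1 by ring, hQs, ih, ← hQs,
        show p + i + 1 = p + (i + 1) by ring]
  refine ⟨n, fun i => (Q (p + i)).2.choose, fun i => T (Q (p + i)), fun i => (Q (p + i)).1, hn0,
    ?_, ?_, ?_, ?_, ?_, ?_, ?_, ?_⟩
  · intro i; simp only [hper]
  · intro i; simp only [hper]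
  · intro i; simp only [hper]
  · intro i; exact hT _
  · intro i; exact (Q (p + i)).2.choose_spec
  · intro i
    show (Q (p + (i + 1))).2.choose = _
    rw [show p + (i + 1) = p + i + 1 by ring, hQs, hAX]
  · intro i
    show 0 < cp (N (Q (p + i)).1) (N (Q (p + (i + 1))).1)
    rw [show p + (i + 1) = p + i + 1 by ring, hQs]
    exact hC _
  · intro i j hi hj hij
    have hij' : Q (p + i) = Q (p + j) := Subtype.ext hij
    rcases lt_trichotomy i j with h | h | h
    · exfalso
      apply hmin (j - i) (by omega) (by omega) (p + i)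
      rw [show p + i + (j - i) = p + j by omega, hij']
    · exact h
    · exfalso
      apply hmin (i - j) (by omega) (by omega) (p + j)
      rw [show p + j + (i - j) = p + i by omega, hij']

end PEX

open PEX in
theorem blk_PEX : Stmt_PEX := by
  intro κ _ N b hN hb hint hco
  classical
  obtain ⟨ξ0, h0⟩ := hint
  have hne : Nonempty κ := by
    by_contra hno
    rw [not_nonempty_iff] at hno
    obtain ⟨R, hR⟩ := hb
    have := (hR (|R| + 1, 0) (fun k => (hno.false k).elim)).1
    have h1 : |R| + 1 ≤ R := by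
      have h2 : |(|R| + 1 : ℝ)| = |R| + 1 := abs_of_nonneg (by positivity)
      simpa [h2] using this
    have := le_abs_self R
    linarith
  obtain ⟨n, A, t, K, hn0, hK, hA, ht, htp, hS, hE, hC, hinj⟩ := walk (N := N) (b := b) hN hb h0
  -- normalisation
  set c : ℕ → ℝ := fun i => Real.sqrt (dp (N (K i)) (N (K i))) with hc
  have cpos : ∀ i, 0 < c i := fun i => Real.sqrt_pos.2 (dd_pos (hN _))
  have csq : ∀ i, c i * c i = dp (N (K i)) (N (K i)) := fun i =>
    Real.mul_self_sqrt (dd_pos (hN _)).le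
  set ν : ℕ → R2 := fun i => (1 / c i) • N (K i) with hν
  have hNν : ∀ i, N (K i) = c i • ν i := by
    intro i
    rw [hν]
    simp only
    rw [smul_smul, mul_one_div_cancel (cpos i).ne', one_smul]
  have hbv : ∀ i, b (K i) = c i * dp (ν i) (A i) := by
    intro i
    rw [← dp_smul_left, ← hNν, (hS i).2.1]
  have hedge : ∀ i, A (i + 1) = A i + (t i * c i) • rt (ν i) := by
    intro i
    have e : rt (N (K i)) = c i • rt (ν i) := by
      rw [hNν i]
      refine Prod.ext ?_ ?_ <;> simp [rt]
    rw [hE i, e, smul_smul]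
  have hturn : ∀ i, 0 < cp (ν i) (ν (i + 1)) := by
    intro i
    have e : cp (ν i) (ν (i + 1)) = (1 / c i) * (1 / c (i + 1)) * cp (N (K i)) (N (K (i + 1))) := by
      simp only [hν, cp, Prod.smul_fst, Prod.smul_snd, smul_eq_mul]; ring
    rw [e]
    have := cpos i
    have := cpos (i + 1)
    have := hC i
    positivity
  have hconv : ∀ i k, dp (ν i) (A k) ≤ dp (ν i) (A i) := by
    intro i k
    have h1 := (hS k).1 (K i)
    have h2 := (hS i).2.1
    rw [← h2] at h1
    rw [hν]
    simp only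
    rw [dp_smul_left, dp_smul_left]
    exact mul_le_mul_of_nonneg_left h1 (by have := cpos i; positivity)
  have cper : ∀ i, c (i + n) = c i := fun i => by simp only [hc, hK]
  have νper : ∀ i, ν (i + n) = ν i := fun i => by simp only [hν, hK, cper]
  have hn3 : 3 ≤ n := by
    by_contra hlt
    have hcase : n = 1 ∨ n = 2 := by omega
    rcases hcase with h | h
    · have h1 := hturn 0
      have h2 := νper 0
      rw [h] at h2
      simp only [zero_add] at h2 h1
      rw [h2, cp_self] at h1
      exact lt_irrefl _ h1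
    · have h1 := hturn 0
      have h2 := νper 0
      rw [h] at h2
      have h3 := hturn 1
      norm_num at h1 h2 h3
      rw [h2, cp_anti] at h3
      linarith
  -- equal lines are equal constraints
  have hsame : ∀ (k k' : κ) (s : ℝ), 0 < s → N k' = s • N k → ∀ x x' : R2, InP N b x → InP N b x' →
      dp (N k) x = b k → dp (N k') x' = b k' → k = k' := by
    intro k k' s hs hNk x x' hx hx' hkx hkx'
    by_contra hkk
    apply hco k k' hkk s hs
    refine ⟨hNk, ?_⟩
    have h1 : dp (N k') x = s * b k := by rw [hNk, dp_smul_left, hkx]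
    have h2 : dp (N k') x' = s * dp (N k) x' := by rw [hNk, dp_smul_left]
    have h3 := hx k'
    have h4 := hx' k
    have h5 : s * dp (N k) x' ≤ s * b k := mul_le_mul_of_nonneg_left h4 hs.le
    linarith
  refine ⟨n, ν, A, fun i => t i * c i, c, K, ?_⟩
  refine ⟨⟨hn3, νper, hA, ?_, ?_, ?_, hedge, hturn, hconv, ?_⟩, hK, cper, cpos, hNν, hbv, hinj, ?_, ?_⟩
  · intro i; simp only [ht, cper]
  · intro i
    have e : dp (ν i) (ν i) = (1 / c i) * (1 / c i) * dp (N (K i)) (N (K i)) := by
      simp only [hν, dp, Prod.smul_fst, Prod.smul_snd, smul_eq_mul]; ring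
    rw [e, ← csq]
    have := (cpos i).ne'
    field_simp
  · intro i; exact mul_pos (htp i) (cpos i)
  · intro i j hi hj hij
    apply hinj i j hi hj
    have e : N (K j) = (c j / c i) • N (K i) := by
      rw [hNν j, ← hij]
      show c j • ((1 / c i) • N (K i)) = _
      rw [smul_smul, mul_one_div]
    exact hsame (K i) (K j) (c j / c i) (div_pos (cpos j) (cpos i)) e (A i) (A j) (hS i).1 (hS j).1
      (hS i).2.1 (hS j).2.1
  · intro k i; exact (hS i).1 k
  · intro k hk i hcon
    obtain ⟨h1, h2⟩ := hcon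
    rw [hE i, dp_add, dp_smul, dp_rt, h1] at h2
    have h3 : cp (N (K i)) (N k) = 0 := by
      have h4 : t i * cp (N (K i)) (N k) = 0 := by linarith
      rcases mul_eq_zero.1 h4 with h | h
      · exact absurd h (htp i).ne'
      · exact h
    have p1 : dp (N (K i)) (ξ0 - A i) < 0 := by
      rw [dp_sub, (hS i).2.1]; linarith [h0 (K i)]
    have p2 : dp (N k) (ξ0 - A i) < 0 := by
      rw [dp_sub, h1]; linarith [h0 k]
    obtain ⟨s, hs, hsN⟩ := par h3 p1 p2
    exact hk i (hsame (K i) k s hs hsN (A i) (A i) (hS i).1 (hS i).1 (hS i).2.1 h1)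

end Pool.G1
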