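import Pool.Agent.Work.MP_b5407d_g1.Planar

/-!
# G1 planar block `PGS`
-/

set_option autoImplicit false

namespace Pool.G1

namespace PGS

theorem ve_dp_left {ν : ℕ → R2} {i : ℕ} (h : 0 < cp (ν i) (ν (i + 1))) (δ : ℕ → ℝ) :
    dp (ν i) (ve ν δ i) = δ i := by
  have h' : (ν i).1 * (ν (i + 1)).2 - (ν i).2 * (ν (i + 1)).1 ≠ 0 := by
    have := h.ne'; simpa [cp] using this
  simp only [dp, ve, cp, rt, Prod.smul_fst, Prod.smul_snd, Prod.fst_sub, Prod.snd_sub, smul_eq_mul]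
  generalize (ν (i + 1)).1 = m1 at *
  generalize (ν (i + 1)).2 = m2 at *
  generalize (ν i).1 = n1 at *
  generalize (ν i).2 = n2 at *
  generalize δ (i + 1) = d' at *
  field_simp
  ring

theorem ve_dp_right {ν : ℕ → R2} {i : ℕ} (h : 0 < cp (ν i) (ν (i + 1))) (δ : ℕ → ℝ) :
    dp (ν (i + 1)) (ve ν δ i) = δ (i + 1) := by
  have h' : (ν i).1 * (ν (i + 1)).2 - (ν i).2 * (ν (i + 1)).1 ≠ 0 := by
    have := h.ne'; simpa [cp] using this
  simp only [dp, ve, cp, rt, Prod.smul_fst, Prod.smul_snd, Prod.fst_sub, Prod.snd_sub, smul_eq_mul]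
  generalize (ν (i + 1)).1 = m1 at *
  generalize (ν (i + 1)).2 = m2 at *
  generalize (ν i).1 = n1 at *
  generalize (ν i).2 = n2 at *
  generalize δ (i + 1) = d' at *
  have e : m1 * (1 / (n1 * m2 - n2 * m1) * (d' * -n2 - δ i * -m2)) +
      m2 * (1 / (n1 * m2 - n2 * m1) * (d' * n1 - δ i * m1)) =
      d' * ((n1 * m2 - n2 * m1) / (n1 * m2 - n2 * m1)) := by ring
  rw [e, div_self h', mul_one]

/-- side terms -/
noncomputable def R1 (r : ℝ × R2) (p a : R2) : ℝ := cp p a * (r.1 / 2 + dp r.2 p / 3)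

noncomputable def R2' (r : ℝ × R2) (p a : R2) : ℝ := cp p a * dp r.2 a / 3

/-- the local identity -/
theorem loc (r : ℝ × R2) (p q a b ν : R2) (ℓ δ s : ℝ) (hq : q = p + ℓ • rt ν)
    (hU : dp ν ν = 1) (hA : dp ν a = δ) (hB : dp ν b = δ) :
    cp (p + s • a) (q + s • b) / 2 * ((r.1 + af r (p + s • a) + af r (q + s • b)) / 3) =
      cp p q / 2 * ((r.1 + af r p + af r q) / 3) +
      s * (δ * (ℓ * ((af r p + af r q) / 2)) + (R1 r q b - R1 r p a)) +
      s ^ 2 / 2 * (δ * (dp (b - a) (rt ν) * ((af r p + af r q) / 2) + ℓ * dp r.2 (a + b) / 2) +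
        (R2' r q b - R2' r p a)) +
      s ^ 3 * (cp a b / 2 * (dp r.2 (a + b) / 3)) := by
  obtain ⟨f0, g⟩ := r
  obtain ⟨g1, g2⟩ := g
  obtain ⟨p1, p2⟩ := p
  obtain ⟨q1, q2⟩ := q
  obtain ⟨a1, a2⟩ := a
  obtain ⟨b1, b2⟩ := b
  obtain ⟨n1, n2⟩ := ν
  simp only [rt, Prod.smul_mk, smul_eq_mul, Prod.mk_add_mk, Prod.mk.injEq] at hq
  obtain ⟨hq1, hq2⟩ := hq
  simp only [dp] at hU hA hB
  -- coordinates of `b - a` along `rt ν`
  have hab1 : b1 - a1 = ((b1 - a1) * (-n2) + (b2 - a2) * n1) * (-n2) := by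
    linear_combination (-(b1 - a1)) * hU + n1 * (hB - hA)
  have hab2 : b2 - a2 = ((b1 - a1) * (-n2) + (b2 - a2) * n1) * n1 := by
    linear_combination (-(b2 - a2)) * hU + n2 * (hB - hA)
  set lam : ℝ := (b1 - a1) * (-n2) + (b2 - a2) * n1 with hlam
  have h1 : a1 * b2 - a2 * b1 = δ * lam := by
    have e1 : a1 * b2 - a2 * b1 = a1 * (b2 - a2) - a2 * (b1 - a1) := by ring
    rw [e1, hab1, hab2]
    linear_combination lam * hA
  have e1 :
      ((p1 * b2 - p2 * b1) + (a1 * q2 - a2 * q1)) / 2 * ((3 * f0 + (g1 * p1 + g2 * p2) +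
        (g1 * q1 + g2 * q2)) / 3) + (p1 * q2 - p2 * q1) / 2 * ((g1 * (a1 + b1) + g2 * (a2 + b2)) / 3) =
      δ * (ℓ * ((f0 + (g1 * p1 + g2 * p2) + (f0 + (g1 * q1 + g2 * q2))) / 2)) +
        ((q1 * b2 - q2 * b1) * (f0 / 2 + (g1 * q1 + g2 * q2) / 3) -
          (p1 * a2 - p2 * a1) * (f0 / 2 + (g1 * p1 + g2 * p2) / 3)) := by
    subst hq1 hq2
    linear_combination
      (ℓ * f0 / 2 + ℓ * ((g1 * p1 + g2 * p2) + (g1 * (p1 + ℓ * -n2) + g2 * (p2 + ℓ * n1))) / 6 +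
        ℓ * (g1 * p1 + g2 * p2) / 6) * hA +
      (ℓ * f0 / 2 + ℓ * ((g1 * p1 + g2 * p2) + (g1 * (p1 + ℓ * -n2) + g2 * (p2 + ℓ * n1))) / 6 +
        ℓ * (g1 * (p1 + ℓ * -n2) + g2 * (p2 + ℓ * n1)) / 6) * hB
  have e2 :
      (a1 * b2 - a2 * b1) / 2 * ((3 * f0 + (g1 * p1 + g2 * p2) + (g1 * q1 + g2 * q2)) / 3) +
        ((p1 * b2 - p2 * b1) + (a1 * q2 - a2 * q1)) / 2 * ((g1 * (a1 + b1) + g2 * (a2 + b2)) / 3) =
      (δ * (lam * ((f0 + (g1 * p1 + g2 * p2) + (f0 + (g1 * q1 + g2 * q2))) / 2) +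
        ℓ * (g1 * (a1 + b1) + g2 * (a2 + b2)) / 2) +
        ((q1 * b2 - q2 * b1) * (g1 * b1 + g2 * b2) / 3 -
          (p1 * a2 - p2 * a1) * (g1 * a1 + g2 * a2) / 3)) / 2 := by
    have h2 : a1 * q2 - a2 * q1 = -(p1 * a2 - p2 * a1) + ℓ * δ := by
      subst hq1 hq2; linear_combination ℓ * hA
    have h3 : p1 * b2 - p2 * b1 = (q1 * b2 - q2 * b1) + ℓ * δ := by
      subst hq1 hq2; linear_combination ℓ * hB
    have h4 : (g1 * b1 + g2 * b2) - (g1 * a1 + g2 * a2) = lam * (g1 * (-n2) + g2 * n1) := by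
      linear_combination g1 * hab1 + g2 * hab2
    have h5 : (g1 * q1 + g2 * q2) - (g1 * p1 + g2 * p2) = ℓ * (g1 * (-n2) + g2 * n1) := by
      subst hq1 hq2; ring
    have h6 : (q1 * b2 - q2 * b1) * (g1 * a1 + g2 * a2) =
        (a1 * b2 - a2 * b1) * (g1 * q1 + g2 * q2) -
          (a1 * q2 - a2 * q1) * (g1 * b1 + g2 * b2) := by ring
    rw [h1, h2] at h6
    have h7 : g1 * (a1 + b1) + g2 * (a2 + b2) = (g1 * a1 + g2 * a2) + (g1 * b1 + g2 * b2) := by ring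
    rw [h1, h2, h3, h7]
    linear_combination (1 / 6) * h6 + (δ * lam / 12) * h5 - (ℓ * δ / 12) * h4
  simp only [cp, dp, af, rt, R1, R2', Prod.smul_mk, smul_eq_mul, Prod.mk_add_mk, Prod.mk_sub_mk]
  rw [← hlam]
  linear_combination s * e1 + s ^ 2 * e2

theorem sum_telescope {n : ℕ} (f : ℕ → ℝ) (hf : f n = f 0) :
    ∑ i ∈ Finset.range n, (f (i + 1) - f i) = 0 := by
  rw [Finset.sum_range_sub, hf, sub_self]

theorem sum_shift {n : ℕ} (f : ℕ → ℝ) (hf : f n = f 0) :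
    ∑ i ∈ Finset.range n, f (i + 1) = ∑ i ∈ Finset.range n, f i := by
  have := sum_telescope f hf
  rw [Finset.sum_sub_distrib] at this
  linarith

end PGS

open PGS in
theorem blk_PGS : Stmt_PGS := by
  intro n ν v ℓ h r δ hδ
  set w : ℕ → R2 := fun i => ve ν δ i with hw
  have hwn : w n = w 0 := by
    have h1 : ν n = ν 0 := by simpa using h.pν 0
    have h2 : ν (n + 1) = ν (0 + 1) := by
      have := h.pν 1
      rw [Nat.add_comm] at this; simpa using this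
    have h3 : δ n = δ 0 := by simpa using hδ 0
    have h4 : δ (n + 1) = δ (0 + 1) := by
      have := hδ 1
      rw [Nat.add_comm] at this; simpa using this
    simp only [hw, ve, h1, h2, h3, h4]
  have hvn : v (n + 1) = v (0 + 1) := by
    have := h.pv 1
    rw [Nat.add_comm] at this; simpa using this
  refine ⟨∑ i ∈ Finset.range n, cp (w i) (w (i + 1)) / 2 * (dp r.2 (w i + w (i + 1)) / 3), fun s => ?_⟩
  have key : ∀ i, cp (v (i + 1) + s • w i) (v (i + 2) + s • w (i + 1)) / 2 *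
      ((r.1 + af r (v (i + 1) + s • w i) + af r (v (i + 2) + s • w (i + 1))) / 3) =
      cp (v (i + 1)) (v (i + 2)) / 2 * ((r.1 + af r (v (i + 1)) + af r (v (i + 2))) / 3) +
      s * (δ (i + 1) * EI v ℓ r (i + 1) + (R1 r (v (i + 2)) (w (i + 1)) - R1 r (v (i + 1)) (w i))) +
      s ^ 2 / 2 * (δ (i + 1) *
        (dp (w (i + 1) - w i) (rt (ν (i + 1))) * ((af r (v (i + 1)) + af r (v (i + 2))) / 2) +
          ℓ (i + 1) * dp r.2 (w i + w (i + 1)) / 2) +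
        (R2' r (v (i + 2)) (w (i + 1)) - R2' r (v (i + 1)) (w i))) +
      s ^ 3 * (cp (w i) (w (i + 1)) / 2 * (dp r.2 (w i + w (i + 1)) / 3)) := by
    intro i
    exact loc r (v (i + 1)) (v (i + 2)) (w i) (w (i + 1)) (ν (i + 1)) (ℓ (i + 1)) (δ (i + 1)) s
      (h.edge (i + 1)) (h.unit (i + 1)) (ve_dp_right (h.turn i) δ) (ve_dp_left (h.turn (i + 1)) δ)
  have e0 : J0 n (fun i => v (i + 1) + s • ve ν δ i) r =
      ∑ i ∈ Finset.range n, cp (v (i + 1) + s • w i) (v (i + 2) + s • w (i + 1)) / 2 *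
      ((r.1 + af r (v (i + 1) + s • w i) + af r (v (i + 2) + s • w (i + 1))) / 3) := rfl
  rw [e0, Finset.sum_congr rfl (fun i _ => key i)]
  simp only [Finset.sum_add_distrib, ← Finset.mul_sum]
  have t1 := sum_telescope (n := n) (fun i => R1 r (v (i + 1)) (w i)) (by
    show R1 r (v (n + 1)) (w n) = R1 r (v (0 + 1)) (w 0)
    rw [hwn, hvn])
  have t2 := sum_telescope (n := n) (fun i => R2' r (v (i + 1)) (w i)) (by
    show R2' r (v (n + 1)) (w n) = R2' r (v (0 + 1)) (w 0)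
    rw [hwn, hvn])
  have t1' : ∑ i ∈ Finset.range n, (R1 r (v (i + 2)) (w (i + 1)) - R1 r (v (i + 1)) (w i)) = 0 := t1
  have t2' : ∑ i ∈ Finset.range n, (R2' r (v (i + 2)) (w (i + 1)) - R2' r (v (i + 1)) (w i)) = 0 := t2
  have s0 : ∑ i ∈ Finset.range n, cp (v (i + 1)) (v (i + 2)) / 2 *
      ((r.1 + af r (v (i + 1)) + af r (v (i + 2))) / 3) = J0 n v r := by
    have := sum_shift (n := n) (fun i => cp (v i) (v (i + 1)) / 2 *
      ((r.1 + af r (v i) + af r (v (i + 1))) / 3)) (by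
        have hv0 : v n = v 0 := by simpa using h.pv 0
        show cp (v n) (v (n + 1)) / 2 * ((r.1 + af r (v n) + af r (v (n + 1))) / 3) = _
        rw [hv0, hvn])
    exact this
  have s1 : ∑ i ∈ Finset.range n, δ (i + 1) * EI v ℓ r (i + 1) = J1 n v ℓ r δ := by
    have := sum_shift (n := n) (fun i => δ i * EI v ℓ r i) (by
        have hv0 : v n = v 0 := by simpa using h.pv 0
        have hl0 : ℓ n = ℓ 0 := by simpa using h.pℓ 0
        have h3 : δ n = δ 0 := by simpa using hδ 0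
        simp only [EI, hv0, hl0, h3, hvn])
    exact this
  have s2 : ∑ i ∈ Finset.range n, δ (i + 1) *
        (dp (w (i + 1) - w i) (rt (ν (i + 1))) * ((af r (v (i + 1)) + af r (v (i + 2))) / 2) +
          ℓ (i + 1) * dp r.2 (w i + w (i + 1)) / 2) = J2 n ν v ℓ r δ := rfl
  rw [s0, s1, s2, t1', t2']
  ring

end Pool.G1
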