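import Pool.Agent.Work.MP_b5407d_g1.InterfaceF

/-!
# Block `PLN` of G1: first and second differences of the integral over the moved facet (helper55)
-/

set_option autoImplicit false

open MeasureTheory Set Filter Topology

namespace Pool.G1

namespace PLN

/-- speed of the vertex `i+1` -/
noncomputable def vq {κ : Type} (N M : κ → R2) (e : κ → ℝ) (kk : ℕ → κ) (τ : ℝ) (i : ℕ) : R2 :=
  isx (Np N M τ (kk i)) (e (kk i)) (Np N M τ (kk (i + 1))) (e (kk (i + 1)))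

theorem vx_eq {κ : Type} (N M : κ → R2) (b e : κ → ℝ) (kk : ℕ → κ) (τ s : ℝ) (i : ℕ) :
    vx N M b e kk τ s i = vx N M b e kk τ 0 i + s • vq N M e kk τ i := by
  unfold vx vq isx bp
  apply Prod.ext
  · simp only [Prod.smul_fst, Prod.fst_sub, Prod.fst_add, smul_eq_mul]
    ring
  · simp only [Prod.smul_snd, Prod.snd_sub, Prod.snd_add, smul_eq_mul]
    ring

theorem isx_self (A B w : R2) (h : cp A B ≠ 0) : isx A (dp A w) B (dp B w) = w := by
  unfold isx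
  have h' : A.1 * B.2 - A.2 * B.1 ≠ 0 := h
  apply Prod.ext
  · simp only [Prod.smul_fst, Prod.fst_sub, smul_eq_mul, rt, cp, dp]
    field_simp
    ring
  · simp only [Prod.smul_snd, Prod.snd_sub, smul_eq_mul, rt, cp, dp]
    field_simp
    ring

theorem isx_smul (A B : R2) (x y c d : ℝ) (hc : c ≠ 0) (hd : d ≠ 0) :
    isx (c • A) x (d • B) y = isx A (x / c) B (y / d) := by
  unfold isx
  have e : cp (c • A) (d • B) = c * d * cp A B := by
    simp only [cp, Prod.smul_fst, Prod.smul_snd, smul_eq_mul]; ring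
  rw [e]
  rcases eq_or_ne (cp A B) 0 with h0 | h0
  · rw [h0]; simp
  apply Prod.ext
  · simp only [Prod.smul_fst, Prod.fst_sub, smul_eq_mul, rt, Prod.smul_snd]
    field_simp
  · simp only [Prod.smul_snd, Prod.snd_sub, smul_eq_mul, rt, Prod.smul_fst]
    field_simp

theorem cp_smul (A B : R2) (c d : ℝ) : cp (c • A) (d • B) = c * d * cp A B := by
  simp only [cp, Prod.smul_fst, Prod.smul_snd, smul_eq_mul]; ring

theorem cp_smul_left (A B : R2) (c : ℝ) : cp (c • A) B = c * cp A B := by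
  simp only [cp, Prod.smul_fst, Prod.smul_snd, smul_eq_mul]; ring

theorem cp_smul_right (A B : R2) (c : ℝ) : cp A (c • B) = c * cp A B := by
  simp only [cp, Prod.smul_fst, Prod.smul_snd, smul_eq_mul]; ring

theorem Np_zero {κ : Type} (N M : κ → R2) (k : κ) : Np N M 0 k = N k := by
  unfold Np; simp

section
variable {κ : Type} {N : κ → R2} {b : κ → ℝ} {n : ℕ} {ν v : ℕ → R2} {ℓ c : ℕ → ℝ} {kk : ℕ → κ}

theorem cpos0 (h : PD N b n ν v ℓ c kk) (M : κ → R2) (i : ℕ) :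
    0 < cp (Np N M 0 (kk i)) (Np N M 0 (kk (i + 1))) := by
  rw [Np_zero, Np_zero, h.hN, h.hN, cp_smul]
  exact mul_pos (mul_pos (h.cpos _) (h.cpos _)) (h.poly.turn i)

theorem dp_edge (h : PD N b n ν v ℓ c kk) (i : ℕ) : dp (ν i) (v i) = dp (ν i) (v (i + 1)) := by
  rw [h.poly.edge i]
  simp only [dp, Prod.fst_add, Prod.snd_add, Prod.smul_fst, Prod.smul_snd, smul_eq_mul, rt]
  ring

theorem vx00 (h : PD N b n ν v ℓ c kk) (M : κ → R2) (e : κ → ℝ) (i : ℕ) :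
    vx N M b e kk 0 0 i = v (i + 1) := by
  unfold vx bp
  rw [Np_zero, Np_zero, h.hN, h.hN, zero_mul, zero_mul, add_zero, add_zero,
    isx_smul _ _ _ _ _ _ (h.cpos i).ne' (h.cpos (i + 1)).ne', h.hb, h.hb,
    mul_div_cancel_left₀ _ (h.cpos i).ne', mul_div_cancel_left₀ _ (h.cpos (i + 1)).ne', dp_edge h i]
  exact isx_self _ _ _ (h.poly.turn i).ne'

theorem vq0 (h : PD N b n ν v ℓ c kk) (M : κ → R2) (e : κ → ℝ) (i : ℕ) :
    vq N M e kk 0 i = ve ν (fun i => e (kk i) / c i) i := by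
  unfold vq
  rw [Np_zero, Np_zero, h.hN, h.hN,
    isx_smul _ _ _ _ _ _ (h.cpos i).ne' (h.cpos (i + 1)).ne']
  rfl

end

/-! continuity in the tilt -/

theorem cont_Np {κ : Type} (N M : κ → R2) (k : κ) : Continuous (fun τ : ℝ => Np N M τ k) := by
  unfold Np; fun_prop

theorem cont_cp {f g : ℝ → R2} {x : ℝ} (hf : ContinuousAt f x) (hg : ContinuousAt g x) :
    ContinuousAt (fun τ => cp (f τ) (g τ)) x := by
  unfold cp
  exact (hf.fst.mul hg.snd).sub (hf.snd.mul hg.fst)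

theorem cont_dp {f g : ℝ → R2} {x : ℝ} (hf : ContinuousAt f x) (hg : ContinuousAt g x) :
    ContinuousAt (fun τ => dp (f τ) (g τ)) x := by
  unfold dp
  exact (hf.fst.mul hg.fst).add (hf.snd.mul hg.snd)

theorem cont_af {g : ℝ → R2} {x : ℝ} (r : ℝ × R2) (hg : ContinuousAt g x) :
    ContinuousAt (fun τ => af r (g τ)) x := by
  unfold af
  exact continuousAt_const.add (cont_dp continuousAt_const hg)

theorem cont_rt {f : ℝ → R2} {x : ℝ} (hf : ContinuousAt f x) :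
    ContinuousAt (fun τ => rt (f τ)) x := by
  unfold rt
  exact hf.snd.neg.prodMk hf.fst

theorem cont_isx {f g : ℝ → R2} {x : ℝ} (p q : ℝ) (hf : ContinuousAt f x) (hg : ContinuousAt g x)
    (h0 : cp (f x) (g x) ≠ 0) : ContinuousAt (fun τ => isx (f τ) p (g τ) q) x := by
  unfold isx
  exact (continuousAt_const.div (cont_cp hf hg) h0).smul
    (((cont_rt hf).const_smul q).sub ((cont_rt hg).const_smul p))

/-! the explicit integral is a cubic polynomial -/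

noncomputable def g0 (r : ℝ × R2) (p : ℕ → R2) (i : ℕ) : ℝ :=
  (r.1 + af r (p i) + af r (p (i + 1))) / 3

noncomputable def g1 (r : ℝ × R2) (q : ℕ → R2) (i : ℕ) : ℝ :=
  (dp r.2 (q i) + dp r.2 (q (i + 1))) / 3

noncomputable def mx (p q : ℕ → R2) (i : ℕ) : ℝ := (cp (p i) (q (i + 1)) + cp (q i) (p (i + 1))) / 2

noncomputable def a1 (n : ℕ) (r : ℝ × R2) (p q : ℕ → R2) : ℝ :=
  ∑ i ∈ Finset.range n, (mx p q i * g0 r p i + cp (p i) (p (i + 1)) / 2 * g1 r q i)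

noncomputable def a2 (n : ℕ) (r : ℝ × R2) (p q : ℕ → R2) : ℝ :=
  ∑ i ∈ Finset.range n, (cp (q i) (q (i + 1)) / 2 * g0 r p i + mx p q i * g1 r q i)

noncomputable def a3 (n : ℕ) (r : ℝ × R2) (q : ℕ → R2) : ℝ :=
  ∑ i ∈ Finset.range n, (cp (q i) (q (i + 1)) / 2 * g1 r q i)

theorem J0_poly (n : ℕ) (r : ℝ × R2) (p q : ℕ → R2) (s : ℝ) :
    J0 n (fun i => p i + s • q i) r =
      J0 n p r + s * a1 n r p q + s ^ 2 * a2 n r p q + s ^ 3 * a3 n r q := by
  unfold J0 a1 a2 a3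
  rw [Finset.mul_sum, Finset.mul_sum, Finset.mul_sum, ← Finset.sum_add_distrib,
    ← Finset.sum_add_distrib, ← Finset.sum_add_distrib]
  refine Finset.sum_congr rfl fun i _ => ?_
  simp only [g0, g1, mx, cp, af, dp, Prod.fst_add, Prod.snd_add, Prod.smul_fst, Prod.smul_snd,
    smul_eq_mul]
  ring

theorem coef_eq (A1 A2 A3 A0 B1 B2 B3 B0 : ℝ)
    (h : ∀ s : ℝ, A0 + s * A1 + s ^ 2 * A2 + s ^ 3 * A3 = B0 + s * B1 + s ^ 2 / 2 * B2 + B3 * s ^ 3) :
    A1 = B1 ∧ A2 = B2 / 2 := by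
  have h0 := h 0
  have h1 := h 1
  have h2 := h (-1)
  have h3 := h 2
  norm_num at h0 h1 h2 h3
  constructor <;> linarith

section
variable {κ : Type} {N : κ → R2} {b : κ → ℝ} {n : ℕ} {ν v : ℕ → R2} {ℓ c : ℕ → ℝ} {kk : ℕ → κ}

theorem cont_vx (h : PD N b n ν v ℓ c kk) (M : κ → R2) (e : κ → ℝ) (i : ℕ) :
    ContinuousAt (fun τ => vx N M b e kk τ 0 i) 0 := by
  unfold vx
  exact cont_isx _ _ (cont_Np N M _).continuousAt (cont_Np N M _).continuousAt (cpos0 h M i).ne'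

theorem cont_vq (h : PD N b n ν v ℓ c kk) (M : κ → R2) (e : κ → ℝ) (i : ℕ) :
    ContinuousAt (fun τ => vq N M e kk τ i) 0 := by
  unfold vq
  exact cont_isx _ _ (cont_Np N M _).continuousAt (cont_Np N M _).continuousAt (cpos0 h M i).ne'

end

theorem cont_a (n : ℕ) (r : ℝ × R2) (p q : ℝ → ℕ → R2)
    (hp : ∀ i, ContinuousAt (fun τ => p τ i) 0) (hq : ∀ i, ContinuousAt (fun τ => q τ i) 0) :
    ContinuousAt (fun τ => a1 n r (p τ) (q τ)) 0 ∧ ContinuousAt (fun τ => a2 n r (p τ) (q τ)) 0 ∧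
    ContinuousAt (fun τ => a3 n r (q τ)) 0 := by
  have hg0 : ∀ i, ContinuousAt (fun τ => g0 r (p τ) i) 0 := fun i => by
    unfold g0
    exact ((continuousAt_const.add (cont_af r (hp i))).add (cont_af r (hp (i + 1)))).div_const 3
  have hg1 : ∀ i, ContinuousAt (fun τ => g1 r (q τ) i) 0 := fun i => by
    unfold g1
    exact ((cont_dp continuousAt_const (hq i)).add
      (cont_dp continuousAt_const (hq (i + 1)))).div_const 3
  have hmx : ∀ i, ContinuousAt (fun τ => mx (p τ) (q τ) i) 0 := fun i => by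
    unfold mx
    exact ((cont_cp (hp i) (hq (i + 1))).add (cont_cp (hq i) (hp (i + 1)))).div_const 2
  refine ⟨?_, ?_, ?_⟩
  · unfold a1
    refine tendsto_finsetSum _ fun i _ => ?_
    exact ((hmx i).mul (hg0 i)).add (((cont_cp (hp i) (hp (i + 1))).div_const 2).mul (hg1 i))
  · unfold a2
    refine tendsto_finsetSum _ fun i _ => ?_
    exact (((cont_cp (hq i) (hq (i + 1))).div_const 2).mul (hg0 i)).add ((hmx i).mul (hg1 i))
  · unfold a3
    refine tendsto_finsetSum _ fun i _ => ?_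
    exact ((cont_cp (hq i) (hq (i + 1))).div_const 2).mul (hg1 i)

/-- the polynomial part -/
theorem poly_part (hPGS : Stmt_PGS) {κ : Type} {N : κ → R2} {b : κ → ℝ} {n : ℕ} {ν v : ℕ → R2}
    {ℓ c : ℕ → ℝ} {kk : ℕ → κ} (h : PD N b n ν v ℓ c kk) (M : κ → R2) (e : κ → ℝ) (r : ℝ × R2)
    (η : ℝ) (hη : 0 < η) : ∀ᶠ p : ℝ × ℝ in 𝓝 ((0 : ℝ), (0 : ℝ)),
      |J0 n (vx N M b e kk p.1 p.2) r - J0 n (vx N M b e kk p.1 0) r -
        p.2 * J1 n v ℓ r (fun i => e (kk i) / c i)| ≤ η * |p.2| ∧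
      J0 n (vx N M b e kk p.1 p.2) r + J0 n (vx N M b e kk p.1 (-p.2)) r -
        2 * J0 n (vx N M b e kk p.1 0) r ≤
        p.2 ^ 2 * (J2 n ν v ℓ r (fun i => e (kk i) / c i) + η) := by
  set δ : ℕ → ℝ := fun i => e (kk i) / c i with hδ
  obtain ⟨cc0, hcc⟩ := hPGS n ν v ℓ h.poly r δ (fun i => by simp only [hδ, h.pk, h.pc])
  have hpol : ∀ τ s, J0 n (vx N M b e kk τ s) r = J0 n (vx N M b e kk τ 0) r +
      s * a1 n r (vx N M b e kk τ 0) (vq N M e kk τ) +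
      s ^ 2 * a2 n r (vx N M b e kk τ 0) (vq N M e kk τ) + s ^ 3 * a3 n r (vq N M e kk τ) := by
    intro τ s
    have e1 : vx N M b e kk τ s = fun i => vx N M b e kk τ 0 i + s • vq N M e kk τ i := by
      funext i; exact vx_eq N M b e kk τ s i
    rw [e1]
    exact J0_poly n r _ _ s
  have hz := coef_eq (a1 n r (vx N M b e kk 0 0) (vq N M e kk 0))
    (a2 n r (vx N M b e kk 0 0) (vq N M e kk 0)) (a3 n r (vq N M e kk 0))
    (J0 n (vx N M b e kk 0 0) r) (J1 n v ℓ r δ) (J2 n ν v ℓ r δ) cc0 (J0 n v r) (by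
      intro s
      rw [← hpol 0 s, ← hcc s]
      congr 1
      funext i
      rw [vx_eq, vx00 h, vq0 h])
  obtain ⟨k1, k2, k3⟩ := cont_a n r (fun τ => vx N M b e kk τ 0) (fun τ => vq N M e kk τ)
    (fun i => cont_vx h M e i) (fun i => cont_vq h M e i)
  have k1' := k1.tendsto
  have k2' := k2.tendsto
  have t1 : Tendsto (fun p : ℝ × ℝ => a1 n r (vx N M b e kk p.1 0) (vq N M e kk p.1) +
      p.2 * a2 n r (vx N M b e kk p.1 0) (vq N M e kk p.1) + p.2 ^ 2 * a3 n r (vq N M e kk p.1))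
      (𝓝 ((0 : ℝ), (0 : ℝ))) (𝓝 (J1 n v ℓ r δ)) := by
    have hf : Tendsto (fun p : ℝ × ℝ => p.1) (𝓝 ((0 : ℝ), (0 : ℝ))) (𝓝 0) :=
      (continuous_fst.tendsto ((0 : ℝ), (0 : ℝ)))
    have hs : Tendsto (fun p : ℝ × ℝ => p.2) (𝓝 ((0 : ℝ), (0 : ℝ))) (𝓝 0) :=
      (continuous_snd.tendsto ((0 : ℝ), (0 : ℝ)))
    have := ((k1.tendsto.comp hf).add (hs.mul (k2.tendsto.comp hf))).add
      ((hs.pow 2).mul (k3.tendsto.comp hf))
    have e2 : a1 n r (vx N M b e kk 0 0) (vq N M e kk 0) +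
      0 * a2 n r (vx N M b e kk 0 0) (vq N M e kk 0) + 0 ^ 2 * a3 n r (vq N M e kk 0) =
        J1 n v ℓ r δ := by rw [← hz.1]; ring
    rw [e2] at this
    exact this
  have t2 : Tendsto (fun p : ℝ × ℝ => 2 * a2 n r (vx N M b e kk p.1 0) (vq N M e kk p.1))
      (𝓝 ((0 : ℝ), (0 : ℝ))) (𝓝 (J2 n ν v ℓ r δ)) := by
    have hf : Tendsto (fun p : ℝ × ℝ => p.1) (𝓝 ((0 : ℝ), (0 : ℝ))) (𝓝 0) :=
      (continuous_fst.tendsto ((0 : ℝ), (0 : ℝ)))
    have := (k2.tendsto.comp hf).const_mul 2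
    have e2 : 2 * a2 n r (vx N M b e kk 0 0) (vq N M e kk 0) = J2 n ν v ℓ r δ := by
      rw [hz.2]; ring
    rw [e2] at this
    exact this
  filter_upwards [Metric.tendsto_nhds.mp t1 η hη, t2.eventually (eventually_lt_nhds
    (show J2 n ν v ℓ r δ < J2 n ν v ℓ r δ + η by linarith))] with p hp1 hp2
  constructor
  · rw [hpol p.1 p.2]
    rw [Real.dist_eq] at hp1
    have e3 : J0 n (vx N M b e kk p.1 0) r +
      p.2 * a1 n r (vx N M b e kk p.1 0) (vq N M e kk p.1) +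
      p.2 ^ 2 * a2 n r (vx N M b e kk p.1 0) (vq N M e kk p.1) +
      p.2 ^ 3 * a3 n r (vq N M e kk p.1) - J0 n (vx N M b e kk p.1 0) r -
        p.2 * J1 n v ℓ r δ = p.2 * (a1 n r (vx N M b e kk p.1 0) (vq N M e kk p.1) +
      p.2 * a2 n r (vx N M b e kk p.1 0) (vq N M e kk p.1) + p.2 ^ 2 * a3 n r (vq N M e kk p.1) -
        J1 n v ℓ r δ) := by ring
    rw [e3, abs_mul, mul_comm η]
    exact mul_le_mul_of_nonneg_left hp1.le (abs_nonneg _)
  · rw [hpol p.1 p.2, hpol p.1 (-p.2)]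
    have e3 : ∀ A B C D : ℝ, A + p.2 * B + p.2 ^ 2 * C + p.2 ^ 3 * D +
      (A + (-p.2) * B + (-p.2) ^ 2 * C + (-p.2) ^ 3 * D) - 2 * A = p.2 ^ 2 * (2 * C) := by
      intro A B C D; ring
    rw [e3]
    exact mul_le_mul_of_nonneg_left hp2.le (sq_nonneg _)

/-! the corner cuts -/

/-- levels of the cuts and their speed -/
noncomputable def xk {κ : Type} (N M : κ → R2) (b e : κ → ℝ) (kk : ℕ → κ) (τ : ℝ) (i : ℕ) (k : κ) : ℝ :=
  dp (Np N M τ k) (vx N M b e kk τ 0 i) - b k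

noncomputable def xk' {κ : Type} (N M : κ → R2) (e : κ → ℝ) (kk : ℕ → κ) (τ : ℝ) (i : ℕ) (k : κ) : ℝ :=
  dp (Np N M τ k) (vq N M e kk τ i) - e k

theorem Cu_eq {κ : Type} (N M : κ → R2) (b e : κ → ℝ) (v : ℕ → R2) (kk : ℕ → κ) (r : ℝ × R2)
    (τ s : ℝ) (i : ℕ) : Cu N M b e v kk r τ s i =
    1 / cp (Np N M τ (kk i)) (Np N M τ (kk (i + 1))) *
    Psi (Tc N b v kk i)
      (fun k => cp (Np N M τ (kk i)) (Np N M τ k) /
        cp (Np N M τ (kk i)) (Np N M τ (kk (i + 1))))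
      (fun k => cp (Np N M τ k) (Np N M τ (kk (i + 1))) /
        cp (Np N M τ (kk i)) (Np N M τ (kk (i + 1))))
      (fun k => xk N M b e kk τ i k + s * xk' N M e kk τ i k)
      (af r (vx N M b e kk τ 0 i) + s * dp r.2 (vq N M e kk τ i))
      (-(dp r.2 (rt (Np N M τ (kk i)))) / cp (Np N M τ (kk i)) (Np N M τ (kk (i + 1))))
      (dp r.2 (rt (Np N M τ (kk (i + 1)))) / cp (Np N M τ (kk i)) (Np N M τ (kk (i + 1)))) := by
  unfold Cu
  congr 2
  · funext k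
    rw [vx_eq]
    simp only [xk, xk', bp, dp, Prod.fst_add, Prod.snd_add, Prod.smul_fst, Prod.smul_snd,
      smul_eq_mul]
    ring
  · rw [vx_eq]
    simp only [af, dp, Prod.fst_add, Prod.snd_add, Prod.smul_fst, Prod.smul_snd, smul_eq_mul]
    ring

theorem AB_pos {κ : Type} {N : κ → R2} {b : κ → ℝ} {n : ℕ} {ν v : ℕ → R2}
    {ℓ c : ℕ → ℝ} {kk : ℕ → κ} (h : PD N b n ν v ℓ c kk) (i : ℕ) (k : κ) (hk : Tc N b v kk i k) :
    0 < cp (N (kk i)) (N k) ∧ 0 < cp (N k) (N (kk (i + 1))) := by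
  obtain ⟨hk1, hk2⟩ := hk
  constructor
  · have h1 := h.le k i
    have h2 : dp (N k) (v (i + 1)) = dp (N k) (v i) + ℓ i * cp (ν i) (N k) := by
      rw [h.poly.edge i]
      simp only [dp, cp, Prod.fst_add, Prod.snd_add, Prod.smul_fst, Prod.smul_snd, smul_eq_mul, rt]
      ring
    have h3 : dp (N k) (v i) ≠ b k := fun h4 => h.tch k hk1 i ⟨h4, hk2⟩
    have h4 : dp (N k) (v i) < b k := lt_of_le_of_ne h1 h3
    have h5 : 0 < ℓ i * cp (ν i) (N k) := by linarith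
    have h6 : 0 < cp (ν i) (N k) := (mul_pos_iff_of_pos_left (h.poly.pos i)).mp h5
    rw [h.hN, cp_smul_left]
    exact mul_pos (h.cpos i) h6
  · have h1 := h.le k (i + 2)
    have h2 : dp (N k) (v (i + 2)) = dp (N k) (v (i + 1)) - ℓ (i + 1) * cp (N k) (ν (i + 1)) := by
      have := h.poly.edge (i + 1)
      rw [show i + 1 + 1 = i + 2 by ring] at this
      rw [this]
      simp only [dp, cp, Prod.fst_add, Prod.snd_add, Prod.smul_fst, Prod.smul_snd, smul_eq_mul, rt]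
      ring
    have h3 : dp (N k) (v (i + 2)) ≠ b k := fun h4 => h.tch k hk1 (i + 1) ⟨hk2, h4⟩
    have h4 : dp (N k) (v (i + 2)) < b k := lt_of_le_of_ne h1 h3
    have h5 : 0 < ℓ (i + 1) * cp (N k) (ν (i + 1)) := by linarith
    have h6 : 0 < cp (N k) (ν (i + 1)) := (mul_pos_iff_of_pos_left (h.poly.pos (i + 1))).mp h5
    rw [h.hN, cp_smul_right]
    exact mul_pos (h.cpos (i + 1)) h6

theorem cut_part (hCRN : Stmt_CRN) {κ : Type} [Fintype κ] {N : κ → R2} {b : κ → ℝ} {n : ℕ}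
    {ν v : ℕ → R2} {ℓ c : ℕ → ℝ} {kk : ℕ → κ} (h : PD N b n ν v ℓ c kk) (M : κ → R2) (e : κ → ℝ)
    (r : ℝ × R2) (hr : ∀ i, 0 < af r (v i)) (i : ℕ) (η : ℝ) (hη : 0 < η) :
    ∀ᶠ p : ℝ × ℝ in 𝓝 ((0 : ℝ), (0 : ℝ)),
      |Cu N M b e v kk r p.1 p.2 i - Cu N M b e v kk r p.1 0 i| ≤ η * |p.2| ∧
      -(η * p.2 ^ 2) ≤ Cu N M b e v kk r p.1 p.2 i + Cu N M b e v kk r p.1 (-p.2) i -
        2 * Cu N M b e v kk r p.1 0 i := by
  classical
  set L : ℝ → ℝ := fun τ => cp (Np N M τ (kk i)) (Np N M τ (kk (i + 1))) with hL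
  set A : ℝ → κ → ℝ := fun τ k => cp (Np N M τ (kk i)) (Np N M τ k) / L τ with hA
  set B : ℝ → κ → ℝ := fun τ k => cp (Np N M τ k) (Np N M τ (kk (i + 1))) / L τ with hB
  set c0 : ℝ → ℝ := fun τ => af r (vx N M b e kk τ 0 i) with hc0
  set c0' : ℝ → ℝ := fun τ => dp r.2 (vq N M e kk τ i) with hc0'
  set c1 : ℝ → ℝ := fun τ => -(dp r.2 (rt (Np N M τ (kk i)))) / L τ with hc1
  set c2 : ℝ → ℝ := fun τ => dp r.2 (rt (Np N M τ (kk (i + 1)))) / L τ with hc2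
  have hL0 : 0 < L 0 := cpos0 h M i
  have cN : ∀ k, ContinuousAt (fun τ => Np N M τ k) 0 := fun k => (cont_Np N M k).continuousAt
  have cL : ContinuousAt L 0 := cont_cp (cN _) (cN _)
  have cA : ∀ k, ContinuousAt (fun τ => A τ k) 0 := fun k => (cont_cp (cN _) (cN _)).div cL hL0.ne'
  have cB : ∀ k, ContinuousAt (fun τ => B τ k) 0 := fun k => (cont_cp (cN _) (cN _)).div cL hL0.ne'
  have cc0 : ContinuousAt c0 0 := cont_af r (cont_vx h M e i)
  have cc0' : ContinuousAt c0' 0 := cont_dp continuousAt_const (cont_vq h M e i)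
  have cc1 : ContinuousAt c1 0 := (cont_dp continuousAt_const (cont_rt (cN _))).neg.div cL hL0.ne'
  have cc2 : ContinuousAt c2 0 := (cont_dp continuousAt_const (cont_rt (cN _))).div cL hL0.ne'
  have cx : ∀ k, ContinuousAt (fun τ => xk N M b e kk τ i k) 0 := fun k =>
    (cont_dp (cN k) (cont_vx h M e i)).sub continuousAt_const
  have cx' : ∀ k, ContinuousAt (fun τ => xk' N M e kk τ i k) 0 := fun k =>
    (cont_dp (cN k) (cont_vq h M e i)).sub continuousAt_const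
  have hA0 : ∀ k, Tc N b v kk i k → 0 < A 0 k := fun k hk => by
    simp only [hA, Np_zero]
    exact div_pos (AB_pos h i k hk).1 hL0
  have hB0 : ∀ k, Tc N b v kk i k → 0 < B 0 k := fun k hk => by
    simp only [hB, Np_zero]
    exact div_pos (AB_pos h i k hk).2 hL0
  have hx0 : ∀ k, Tc N b v kk i k → xk N M b e kk 0 i k = 0 := fun k hk => by
    unfold xk
    rw [vx00 h, Np_zero, hk.2, sub_self]
  have hc00 : 0 < c0 0 := by
    simp only [hc0]
    rw [vx00 h]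
    exact hr _
  -- constants
  obtain ⟨m, hm0, hmL, hmc, hmA, hmB⟩ : ∃ m : ℝ, 0 < m ∧ m < L 0 ∧ m < c0 0 ∧
      (∀ k, Tc N b v kk i k → m < A 0 k) ∧ (∀ k, Tc N b v kk i k → m < B 0 k) := by
    have q : ∀ x : ℝ, 0 < x → ∀ᶠ m : ℝ in 𝓝[>] (0 : ℝ), m < x := fun x hx =>
      (eventually_lt_nhds hx).filter_mono nhdsWithin_le_nhds
    have q1 : ∀ᶠ m : ℝ in 𝓝[>] (0 : ℝ), ∀ k, Tc N b v kk i k → m < A 0 k := by
      rw [eventually_all]
      intro k
      by_cases hk : Tc N b v kk i k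
      · filter_upwards [q _ (hA0 k hk)] with m hm _ using hm
      · exact Eventually.of_forall fun m hk' => absurd hk' hk
    have q2 : ∀ᶠ m : ℝ in 𝓝[>] (0 : ℝ), ∀ k, Tc N b v kk i k → m < B 0 k := by
      rw [eventually_all]
      intro k
      by_cases hk : Tc N b v kk i k
      · filter_upwards [q _ (hB0 k hk)] with m hm _ using hm
      · exact Eventually.of_forall fun m hk' => absurd hk' hk
    obtain ⟨m, h1, h2, h3, h4, h5⟩ := (((q _ hL0).and ((q _ hc00).and (q1.and (q2.and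
      (self_mem_nhdsWithin : ∀ᶠ m : ℝ in 𝓝[>] (0 : ℝ), m ∈ Ioi (0 : ℝ)))))).exists)
    exact ⟨m, h5, h1, h2, h3, h4⟩
  obtain ⟨X, hX0, hXc, hXc', hX1, hX2, hXx⟩ : ∃ X : ℝ, 0 < X ∧ |c0 0| < X ∧ |c0' 0| < X ∧
      |c1 0| < X ∧ |c2 0| < X ∧ ∀ k, |xk' N M e kk 0 i k| < X := by
    have q3 : ∀ᶠ X : ℝ in atTop, ∀ k, |xk' N M e kk 0 i k| < X := by
      rw [eventually_all]
      intro k
      exact eventually_gt_atTop _
    obtain ⟨X, h1, h2, h3, h4, h5, h6⟩ := ((eventually_gt_atTop (0 : ℝ)).and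
      ((eventually_gt_atTop |c0 0|).and ((eventually_gt_atTop |c0' 0|).and
      ((eventually_gt_atTop |c1 0|).and ((eventually_gt_atTop |c2 0|).and q3))))).exists
    exact ⟨X, h1, h2, h3, h4, h5, h6⟩
  obtain ⟨ρ0, hρ0, hcr⟩ := hCRN κ (Tc N b v kk i) m X (η * m) hm0 hX0 (mul_pos hη hm0)
  have hf : Tendsto (fun p : ℝ × ℝ => p.1) (𝓝 ((0 : ℝ), (0 : ℝ))) (𝓝 0) :=
    (continuous_fst.tendsto ((0 : ℝ), (0 : ℝ)))
  have hs : Tendsto (fun p : ℝ × ℝ => |p.2|) (𝓝 ((0 : ℝ), (0 : ℝ))) (𝓝 0) := by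
    have := (continuous_snd.tendsto ((0 : ℝ), (0 : ℝ))).abs
    simpa using this
  have w1 : ∀ᶠ p : ℝ × ℝ in 𝓝 ((0 : ℝ), (0 : ℝ)), ∀ k, Tc N b v kk i k →
      m ≤ A p.1 k ∧ m ≤ B p.1 k ∧ |xk N M b e kk p.1 i k| ≤ ρ0 ∧ |xk' N M e kk p.1 i k| ≤ X := by
    rw [eventually_all]
    intro k
    by_cases hk : Tc N b v kk i k
    · have f1 := ((cA k).tendsto.comp hf).eventually (eventually_gt_nhds (hmA k hk))
      have f2 := ((cB k).tendsto.comp hf).eventually (eventually_gt_nhds (hmB k hk))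
      have f3 := ((cx k).abs.tendsto.comp hf).eventually (eventually_lt_nhds
        (show |xk N M b e kk 0 i k| < ρ0 by rw [hx0 k hk, abs_zero]; exact hρ0))
      have f4 := ((cx' k).abs.tendsto.comp hf).eventually (eventually_lt_nhds (hXx k))
      filter_upwards [f1, f2, f3, f4] with p g1 g2 g3 g4 _
      exact ⟨le_of_lt g1, le_of_lt g2, le_of_lt g3, le_of_lt g4⟩
    · exact Eventually.of_forall fun m hk' => absurd hk' hk
  have w2 := (cL.tendsto.comp hf).eventually (eventually_gt_nhds hmL)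
  have w3 := (cc0.tendsto.comp hf).eventually (eventually_gt_nhds hmc)
  have w4 := (cc0.abs.tendsto.comp hf).eventually (eventually_lt_nhds hXc)
  have w5 := (cc0'.abs.tendsto.comp hf).eventually (eventually_lt_nhds hXc')
  have w6 := (cc1.abs.tendsto.comp hf).eventually (eventually_lt_nhds hX1)
  have w7 := (cc2.abs.tendsto.comp hf).eventually (eventually_lt_nhds hX2)
  have w8 := hs.eventually (eventually_lt_nhds hρ0)
  filter_upwards [w1, w2, w3, w4, w5, w6, w7, w8] with p g1 g2 g3 g4 g5 g6 g7 g8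
  simp only [Function.comp] at g2 g3 g4 g5 g6 g7
  obtain ⟨z1, z2⟩ := hcr (A p.1) (B p.1) (fun k => xk N M b e kk p.1 i k)
    (fun k => xk' N M e kk p.1 i k) (c0 p.1) (c0' p.1) (c1 p.1) (c2 p.1) p.2 g1 g3.le g4.le g5.le
    g6.le g7.le g8.le
  have E : ∀ s, Cu N M b e v kk r p.1 s i = 1 / L p.1 * Psi (Tc N b v kk i) (A p.1) (B p.1)
      (fun k => xk N M b e kk p.1 i k + s * xk' N M e kk p.1 i k) (c0 p.1 + s * c0' p.1)
      (c1 p.1) (c2 p.1) := fun s => Cu_eq N M b e v kk r p.1 s i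
  have E0 : Cu N M b e v kk r p.1 0 i = 1 / L p.1 * Psi (Tc N b v kk i) (A p.1) (B p.1)
      (fun k => xk N M b e kk p.1 i k) (c0 p.1) (c1 p.1) (c2 p.1) := by
    rw [E 0]
    simp only [zero_mul, add_zero]
  have Em : Cu N M b e v kk r p.1 (-p.2) i = 1 / L p.1 * Psi (Tc N b v kk i) (A p.1) (B p.1)
      (fun k => xk N M b e kk p.1 i k - p.2 * xk' N M e kk p.1 i k) (c0 p.1 - p.2 * c0' p.1)
      (c1 p.1) (c2 p.1) := by
    rw [E (-p.2)]
    simp only [neg_mul, ← sub_eq_add_neg]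
  have hLp : 0 < L p.1 := hm0.trans g2
  rw [E p.2, E0, Em]
  constructor
  · rw [← mul_sub, abs_mul, abs_of_pos (one_div_pos.mpr hLp)]
    calc _ ≤ 1 / L p.1 * (η * m * |p.2|) :=
          mul_le_mul_of_nonneg_left z2 (one_div_pos.mpr hLp).le
      _ ≤ 1 / m * (η * m * |p.2|) := by
          refine mul_le_mul_of_nonneg_right (one_div_le_one_div_of_le hm0 g2.le) ?_
          positivity
      _ = η * |p.2| := by field_simp
  · have z3 := mul_le_mul_of_nonneg_left z1 (one_div_pos.mpr hLp).le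
    have z4 : 1 / L p.1 * (η * m * p.2 ^ 2) ≤ 1 / m * (η * m * p.2 ^ 2) := by
      refine mul_le_mul_of_nonneg_right (one_div_le_one_div_of_le hm0 g2.le) ?_
      positivity
    have z5 : 1 / m * (η * m * p.2 ^ 2) = η * p.2 ^ 2 := by field_simp
    rw [z5] at z4
    have z6 : ∀ P Q R : ℝ, 1 / L p.1 * P + 1 / L p.1 * Q - 2 * (1 / L p.1 * R) =
      1 / L p.1 * (P + Q - 2 * R) := by intro P Q R; ring
    rw [z6]
    have z7 : 1 / L p.1 * -(η * m * p.2 ^ 2) = -(1 / L p.1 * (η * m * p.2 ^ 2)) := by ring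
    rw [z7] at z3
    linarith

end PLN

theorem blk_PLN (hDEC : Stmt_DEC) (hCRN : Stmt_CRN) (hPGS : Stmt_PGS) : Stmt_PLN := by
  intro κ _ N M b e n ν v ℓ c kk h r hr η hη
  obtain ⟨τ1, hτ1, hdec⟩ := hDEC κ N M b e n ν v ℓ c kk h
  have hn : (0 : ℝ) < 2 * ((n : ℝ) + 1) := by positivity
  set η1 : ℝ := η / (2 * ((n : ℝ) + 1)) with hη1
  have hη1p : 0 < η1 := div_pos hη hn
  have ha := PLN.poly_part hPGS h M e r (η / 2) (half_pos hη)
  have hb : ∀ᶠ p : ℝ × ℝ in 𝓝 ((0 : ℝ), (0 : ℝ)), ∀ i ∈ Finset.range n,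
      |Cu N M b e v kk r p.1 p.2 i - Cu N M b e v kk r p.1 0 i| ≤ η1 * |p.2| ∧
      -(η1 * p.2 ^ 2) ≤ Cu N M b e v kk r p.1 p.2 i + Cu N M b e v kk r p.1 (-p.2) i -
        2 * Cu N M b e v kk r p.1 0 i := by
    rw [Finset.eventually_all]
    intro i _
    exact PLN.cut_part hCRN h M e r hr i η1 hη1p
  obtain ⟨ρ, hρ, hball⟩ := Metric.eventually_nhds_iff.mp (ha.and hb)
  refine ⟨min τ1 (ρ / 2), lt_min hτ1 (half_pos hρ), fun τ s hτ hs => ?_⟩
  have hd : dist ((τ, s) : ℝ × ℝ) (0, 0) < ρ := by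
    rw [Prod.dist_eq, max_lt_iff, Real.dist_eq, Real.dist_eq, sub_zero, sub_zero]
    have h1 := hτ.trans (min_le_right _ _)
    have h2 := hs.trans (min_le_right _ _)
    constructor <;> linarith
  obtain ⟨⟨q1, q2⟩, q3⟩ := hball hd
  simp only at q1 q2 q3
  have hτ' := hτ.trans (min_le_left _ _)
  have hs' := hs.trans (min_le_left _ _)
  rw [hdec τ s hτ' hs' r, hdec τ 0 hτ' (by rw [abs_zero]; exact hτ1.le) r,
    hdec τ (-s) hτ' (by rw [abs_neg]; exact hs') r]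
  have hsum : (n : ℝ) * η1 ≤ η / 2 := by
    rw [hη1]
    have : (n : ℝ) * (η / (2 * ((n : ℝ) + 1))) = η / 2 * ((n : ℝ) / ((n : ℝ) + 1)) := by
      field_simp
    rw [this]
    have h2 : (n : ℝ) / ((n : ℝ) + 1) ≤ 1 := by
      rw [div_le_one (by positivity)]; linarith
    calc η / 2 * ((n : ℝ) / ((n : ℝ) + 1)) ≤ η / 2 * 1 :=
          mul_le_mul_of_nonneg_left h2 (half_pos hη).le
      _ = η / 2 := mul_one _
  have s1 : |∑ i ∈ Finset.range n, Cu N M b e v kk r τ s i -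
      ∑ i ∈ Finset.range n, Cu N M b e v kk r τ 0 i| ≤ η / 2 * |s| := by
    rw [← Finset.sum_sub_distrib]
    calc _ ≤ ∑ i ∈ Finset.range n, |Cu N M b e v kk r τ s i - Cu N M b e v kk r τ 0 i| :=
          Finset.abs_sum_le_sum_abs _ _
      _ ≤ ∑ _i ∈ Finset.range n, η1 * |s| := Finset.sum_le_sum fun i hi => (q3 i hi).1
      _ = (n : ℝ) * η1 * |s| := by
          rw [Finset.sum_const, Finset.card_range, nsmul_eq_mul]; ring
      _ ≤ η / 2 * |s| := mul_le_mul_of_nonneg_right hsum (abs_nonneg _)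
  have s2 : -(η / 2 * s ^ 2) ≤ ∑ i ∈ Finset.range n, Cu N M b e v kk r τ s i +
      ∑ i ∈ Finset.range n, Cu N M b e v kk r τ (-s) i -
      2 * ∑ i ∈ Finset.range n, Cu N M b e v kk r τ 0 i := by
    rw [Finset.mul_sum, ← Finset.sum_add_distrib, ← Finset.sum_sub_distrib]
    calc -(η / 2 * s ^ 2) ≤ -((n : ℝ) * η1 * s ^ 2) :=
          neg_le_neg (mul_le_mul_of_nonneg_right hsum (sq_nonneg _))
      _ = ∑ _i ∈ Finset.range n, -(η1 * s ^ 2) := by
          rw [Finset.sum_const, Finset.card_range, nsmul_eq_mul]; ring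
      _ ≤ _ := Finset.sum_le_sum fun i hi => (q3 i hi).2
  constructor
  · have e1 : ∀ a a' x x' j : ℝ, a - x - (a' - x') - j = (a - a' - j) - (x - x') := by
      intro a a' x x' j; ring
    rw [e1]
    calc _ ≤ _ := abs_sub _ _
      _ ≤ η / 2 * |s| + η / 2 * |s| := add_le_add q1 s1
      _ = η * |s| := by ring
  · have e2 : s ^ 2 * (J2 n ν v ℓ r (fun i => e (kk i) / c i) + η) =
        s ^ 2 * (J2 n ν v ℓ r (fun i => e (kk i) / c i) + η / 2) + η / 2 * s ^ 2 := by ring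
    rw [e2]
    linarith

end Pool.G1
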