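import Pool.Agent.Work.MP_b5407d_g1.Planar

/-!
# Block PLS: the strict planar target `Stmt_PL` from the positive form of (S2+)

`Stmt_S2p` is `Stmt_S2` with the certificate strictly positive on the vertices.  With `λ = 2 + ε`,
`δ' = (2/λ) δ`, `θ = min (2/3) (δ'/W)`, `N = -J''_ζ`, `A = T1(δ',θ) - J0 - N/2`, `D = T1(δ', 3θ - t)`:
`E = (λ/2) (3 ε A - (1-ε) N - ε D)`.  If `E ≥ 0` on the cone, then `E`, `A`, `N`, `D` vanish at the
certificate and at the constant function `1`, and `A(1) = area / 3`, a contradiction.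
-/

set_option autoImplicit false

namespace Pool.G1

/-- (S2+) with a certificate which is strictly positive on the polygon. -/
def Stmt_S2p : Prop :=
  ∀ (n : ℕ) (ν v : ℕ → R2) (ℓ : ℕ → ℝ), Poly n ν v ℓ → ∀ δ θ : ℕ → ℝ,
    (∀ i, δ (i + n) = δ i) → (∀ i, θ (i + n) = θ i) → (∀ i, 0 ≤ δ i) → (∀ i, 0 ≤ θ i) →
    (∀ i, θ i ≤ 2 / 3) → (∀ i k, θ i * dp (ν i) (v i - v k) ≤ δ i) →
    ∑ i ∈ Finset.range n, ℓ i * δ i = 2 * ar n v →
    ∃ r : ℝ × R2, (∀ k, 0 < af r (v k)) ∧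
      T1 n v ℓ r δ θ - 2 * J1 n v ℓ r δ + 1 / 2 * J2 n ν v ℓ r δ + 2 * J0 n v r ≤ 0

namespace PLS

/-- the constant function 1 -/
def one : ℝ × R2 := (1, (0, 0))

/-- subtract the constant `m` -/
def sb (r : ℝ × R2) (m : ℝ) : ℝ × R2 := (r.1 - m, r.2)

theorem af_one (x : R2) : af one x = 1 := by simp [af, one, dp]

theorem af_sb (r : ℝ × R2) (m : ℝ) (x : R2) : af (sb r m) x = af r x - m := by
  simp only [af, sb]; ring

theorem J0_sb (n : ℕ) (v : ℕ → R2) (r : ℝ × R2) (m : ℝ) :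
    J0 n v (sb r m) = J0 n v r - m * J0 n v one := by
  simp only [J0, Finset.mul_sum, ← Finset.sum_sub_distrib]
  refine Finset.sum_congr rfl fun i _ => ?_
  rw [af_sb, af_sb, af_one, af_one]
  simp only [sb, one]; ring

theorem J0_one (n : ℕ) (v : ℕ → R2) : J0 n v one = ar n v := by
  simp only [J0, ar]
  refine Finset.sum_congr rfl fun i _ => ?_
  rw [af_one, af_one]
  simp only [one]; ring

theorem EI_sb (v : ℕ → R2) (ℓ : ℕ → ℝ) (r : ℝ × R2) (m : ℝ) (i : ℕ) :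
    EI v ℓ (sb r m) i = EI v ℓ r i - m * EI v ℓ one i := by
  simp only [EI]
  rw [af_sb, af_sb, af_one, af_one]; ring

theorem EI_one (v : ℕ → R2) (ℓ : ℕ → ℝ) (i : ℕ) : EI v ℓ one i = ℓ i := by
  simp only [EI]
  rw [af_one, af_one]; ring

theorem J1_sb (n : ℕ) (v : ℕ → R2) (ℓ : ℕ → ℝ) (r : ℝ × R2) (m : ℝ) (δ : ℕ → ℝ) :
    J1 n v ℓ (sb r m) δ = J1 n v ℓ r δ - m * J1 n v ℓ one δ := by
  simp only [J1, Finset.mul_sum, ← Finset.sum_sub_distrib]
  refine Finset.sum_congr rfl fun i _ => ?_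
  rw [EI_sb]; ring

theorem T1_sb (n : ℕ) (v : ℕ → R2) (ℓ : ℕ → ℝ) (r : ℝ × R2) (m : ℝ) (δ θ : ℕ → ℝ) :
    T1 n v ℓ (sb r m) δ θ = T1 n v ℓ r δ θ - m * T1 n v ℓ one δ θ := by
  simp only [T1, Finset.mul_sum, ← Finset.sum_sub_distrib]
  refine Finset.sum_congr rfl fun i _ => ?_
  rw [EI_sb]; ring

theorem J2_sb (n : ℕ) (ν v : ℕ → R2) (ℓ : ℕ → ℝ) (r : ℝ × R2) (m : ℝ) (δ : ℕ → ℝ) :
    J2 n ν v ℓ (sb r m) δ = J2 n ν v ℓ r δ - m * J2 n ν v ℓ one δ := by
  simp only [J2, B2, Finset.mul_sum, ← Finset.sum_sub_distrib]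
  refine Finset.sum_congr rfl fun i _ => ?_
  rw [af_sb, af_sb, af_one, af_one]
  simp only [sb, one, dp]; ring

theorem ve_smul (ν : ℕ → R2) (c : ℝ) (δ : ℕ → ℝ) (i : ℕ) :
    ve ν (fun i => c * δ i) i = c • ve ν δ i := by
  simp only [ve, smul_sub, smul_smul]
  congr 1 <;> congr 1 <;> ring

theorem J2_smul (n : ℕ) (ν v : ℕ → R2) (ℓ : ℕ → ℝ) (r : ℝ × R2) (c : ℝ) (δ : ℕ → ℝ) :
    J2 n ν v ℓ r (fun i => c * δ i) = c ^ 2 * J2 n ν v ℓ r δ := by
  simp only [J2, B2, Finset.mul_sum]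
  refine Finset.sum_congr rfl fun i _ => ?_
  rw [ve_smul, ve_smul]
  simp only [dp, Prod.fst_sub, Prod.snd_sub, Prod.smul_fst, Prod.smul_snd, smul_eq_mul,
    Prod.fst_add, Prod.snd_add]
  ring

theorem J1_smul (n : ℕ) (v : ℕ → R2) (ℓ : ℕ → ℝ) (r : ℝ × R2) (c : ℝ) (δ : ℕ → ℝ) :
    J1 n v ℓ r (fun i => c * δ i) = c * J1 n v ℓ r δ := by
  simp only [J1, Finset.mul_sum]
  refine Finset.sum_congr rfl fun i _ => ?_
  ring

theorem T1_smul (n : ℕ) (v : ℕ → R2) (ℓ : ℕ → ℝ) (r : ℝ × R2) (c : ℝ) (δ θ : ℕ → ℝ) :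
    T1 n v ℓ r (fun i => c * δ i) θ = c * T1 n v ℓ r δ θ := by
  simp only [T1, Finset.mul_sum]
  refine Finset.sum_congr rfl fun i _ => ?_
  ring

theorem B2_subl (n : ℕ) (ν v : ℕ → R2) (ℓ : ℕ → ℝ) (r : ℝ × R2) (δ b η : ℕ → ℝ) :
    B2 n ν v ℓ r (fun i => δ i - b i) η = B2 n ν v ℓ r δ η - B2 n ν v ℓ r b η := by
  simp only [B2, ← Finset.sum_sub_distrib]
  refine Finset.sum_congr rfl fun i _ => ?_
  ring

/-- `J''_ζ = J'' - 4 J' + 6 J` for `ζ = δ - b`, `Σ ℓ δ = 2 area`. -/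
theorem J2_zeta (hPEU : Stmt_PEU) {n : ℕ} {ν v : ℕ → R2} {ℓ : ℕ → ℝ} (P : Poly n ν v ℓ)
    (r : ℝ × R2) (δ : ℕ → ℝ) (hδ : ∀ i, δ (i + n) = δ i)
    (hs : ∑ i ∈ Finset.range n, ℓ i * δ i = 2 * ar n v) :
    J2 n ν v ℓ r (fun i => δ i - dp (ν i) (v i - 0)) =
      J2 n ν v ℓ r δ - 4 * J1 n v ℓ r δ + 6 * J0 n v r := by
  obtain ⟨-, -, h2, h3, -, h5, h6, -⟩ := hPEU n ν v ℓ P
  have hb : ∀ i, (fun i => dp (ν i) (v i - 0)) (i + n) = (fun i => dp (ν i) (v i - 0)) i := by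
    intro i; simp only [P.pν, P.pv]
  have hz : ∀ i, (fun i => δ i - dp (ν i) (v i - 0)) (i + n) =
      (fun i => δ i - dp (ν i) (v i - 0)) i := by
    intro i; simp only [P.pν, P.pv, hδ]
  have e1 := h6 0 r δ hδ
  have e2 := h6 0 r (fun i => dp (ν i) (v i - 0)) hb
  have e3 := h3 0 r
  have e4 := h2 0
  unfold J2
  rw [B2_subl, h5 r δ _ hδ hz, h5 r (fun i => dp (ν i) (v i - 0)) _ hb hz, B2_subl, B2_subl,
    h5 r (fun i => dp (ν i) (v i - 0)) δ hb hδ, e1, e2, e3, hs, e4]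
  ring

end PLS

open PLS in
theorem stmt_PLS (hPEU : Stmt_PEU) (hPMI : Stmt_PMI) (hS : Stmt_S2p) : Stmt_PL := by
  intro n ν v ℓ P δ t ε pδ pt hδ0 ht0 ht2 htW hε0 hε1 hsum
  obtain ⟨hcl, har, h2, h3, -, h5, h6, -⟩ := hPEU n ν v ℓ P
  have hn : 0 < n := by have := P.n3; omega
  have hlam : (0 : ℝ) < 2 + ε := by linarith
  -- widths
  have hne : (Finset.range n).Nonempty := ⟨0, Finset.mem_range.2 hn⟩
  set W : ℕ → ℝ := fun i => (Finset.range n).sup' hne (fun k => dp (ν i) (v i - v k)) with hW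
  have hWle : ∀ i k, dp (ν i) (v i - v k) ≤ W i := by
    intro i k
    have hp : Function.Periodic v n := P.pv
    have hk : v (k % n) = v k := hp.map_mod_nat k
    rw [← hk]
    exact Finset.le_sup' (fun k => dp (ν i) (v i - v k))
      (Finset.mem_range.2 (Nat.mod_lt k hn))
  have hWex : ∀ i, ∃ k, W i = dp (ν i) (v i - v k) := by
    intro i
    obtain ⟨k, -, hk⟩ := Finset.exists_mem_eq_sup' hne (fun k => dp (ν i) (v i - v k))
    exact ⟨k, hk⟩
  have hWp : ∀ i, W (i + n) = W i := by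
    intro i
    simp only [hW, P.pν, P.pv]
  have hW0 : ∀ i, 0 < W i := by
    intro i
    refine lt_of_lt_of_le ?_ (hWle i (i + 2))
    have e1 := P.edge i
    have e2 := P.edge (i + 1)
    have e3 : v (i + 2) = v i + ℓ i • rt (ν i) + ℓ (i + 1) • rt (ν (i + 1)) := by
      rw [← e1, ← e2]
    have hc := P.turn i
    have hl := P.pos (i + 1)
    have : dp (ν i) (v i - v (i + 2)) = ℓ (i + 1) * cp (ν i) (ν (i + 1)) := by
      rw [e3]
      simp only [dp, cp, rt, Prod.fst_sub, Prod.snd_sub, Prod.fst_add, Prod.snd_add,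
        Prod.smul_fst, Prod.smul_snd, smul_eq_mul]
      ring
    rw [this]
    exact mul_pos hl hc
  -- rescaled data
  set δ' : ℕ → ℝ := fun i => 2 / (2 + ε) * δ i with hδ'
  have hδδ : δ = fun i => (2 + ε) / 2 * δ' i := by
    funext i
    simp only [hδ']
    field_simp
  have pδ' : ∀ i, δ' (i + n) = δ' i := by intro i; simp only [hδ', pδ]
  have hδ'0 : ∀ i, 0 ≤ δ' i := fun i => mul_nonneg (by positivity) (hδ0 i)
  set θ : ℕ → ℝ := fun i => min (2 / 3) (δ' i / W i) with hθ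
  have pθ : ∀ i, θ (i + n) = θ i := by intro i; simp only [hθ, pδ', hWp]
  have hθ0 : ∀ i, 0 ≤ θ i := fun i => le_min (by norm_num) (div_nonneg (hδ'0 i) (hW0 i).le)
  have hθ2 : ∀ i, θ i ≤ 2 / 3 := fun i => min_le_left _ _
  have hθW : ∀ i k, θ i * dp (ν i) (v i - v k) ≤ δ' i := by
    intro i k
    have h1 : θ i ≤ δ' i / W i := min_le_right _ _
    have h3 : θ i * W i ≤ δ' i := by
      rw [le_div_iff₀ (hW0 i)] at h1; exact h1
    exact le_trans (mul_le_mul_of_nonneg_left (hWle i k) (hθ0 i)) h3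
  have hs' : ∑ i ∈ Finset.range n, ℓ i * δ' i = 2 * ar n v := by
    have : ∑ i ∈ Finset.range n, ℓ i * δ' i =
        2 / (2 + ε) * ∑ i ∈ Finset.range n, ℓ i * δ i := by
      rw [Finset.mul_sum]
      refine Finset.sum_congr rfl fun i _ => ?_
      simp only [hδ']; ring
    rw [this, hsum]; field_simp
  obtain ⟨r, hr, hA⟩ := hS n ν v ℓ P δ' θ pδ' pθ hδ'0 hθ0 hθ2 hθW hs'
  -- comparison of `t` and `θ`
  have htW' : ∀ i, t i * W i ≤ (2 + ε) * δ' i := by
    intro i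
    obtain ⟨k, hk⟩ := hWex i
    rw [hk]
    have := htW i k
    have e : (2 + ε) * δ' i = 2 * δ i := by simp only [hδ']; field_simp
    rw [e]; exact this
  have ht3 : ∀ i, t i ≤ 3 * θ i := by
    intro i
    have h1 : t i ≤ (2 + ε) * (δ' i / W i) := by
      rw [← mul_div_assoc, le_div_iff₀ (hW0 i)]; exact htW' i
    have h2 : (2 + ε) * (δ' i / W i) ≤ 3 * (δ' i / W i) :=
      mul_le_mul_of_nonneg_right (by linarith) (div_nonneg (hδ'0 i) (hW0 i).le)
    rcases min_cases (2 / 3 : ℝ) (δ' i / W i) with h | h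
    · simp only [hθ]; rw [h.1]; linarith [ht2 i]
    · simp only [hθ]; rw [h.1]; linarith
  have ht3eq : ∀ i, 0 < δ' i → t i = 3 * θ i → θ i = 2 / 3 := by
    intro i hd he
    rcases min_cases (2 / 3 : ℝ) (δ' i / W i) with h | h
    · exact h.1
    · exfalso
      have h1 : t i ≤ (2 + ε) * (δ' i / W i) := by
        rw [← mul_div_assoc, le_div_iff₀ (hW0 i)]; exact htW' i
      have h2 : 0 < δ' i / W i := div_pos hd (hW0 i)
      have h4 : θ i = δ' i / W i := h.1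
      rw [he, h4] at h1
      nlinarith
  -- the functionals
  set N : ℝ × R2 → ℝ := fun r => -J2 n ν v ℓ r (fun i => δ' i - dp (ν i) (v i - 0)) with hN
  set A : ℝ × R2 → ℝ := fun r => T1 n v ℓ r δ' θ - 2 * J1 n v ℓ r δ' + 1 / 2 * J2 n ν v ℓ r δ' +
    2 * J0 n v r with hAd
  set D : ℝ × R2 → ℝ := fun r => 3 * T1 n v ℓ r δ' θ - T1 n v ℓ r δ' t with hD
  set E : ℝ × R2 → ℝ := fun r => J2 n ν v ℓ r δ + ε * T1 n v ℓ r δ t -
    2 * (2 + ε) * J1 n v ℓ r δ + 3 * (2 + ε) * J0 n v r with hE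
  have hEid : ∀ r, E r = (2 + ε) / 2 * (3 * ε * A r - (1 - ε) * N r - ε * D r) := by
    intro r
    have e1 : J2 n ν v ℓ r δ = ((2 + ε) / 2) ^ 2 * J2 n ν v ℓ r δ' := by
      conv_lhs => rw [hδδ]
      exact J2_smul _ _ _ _ _ _ _
    have e2 : J1 n v ℓ r δ = (2 + ε) / 2 * J1 n v ℓ r δ' := by
      conv_lhs => rw [hδδ]
      exact J1_smul _ _ _ _ _ _
    have e3 : T1 n v ℓ r δ t = (2 + ε) / 2 * T1 n v ℓ r δ' t := by
      conv_lhs => rw [hδδ]
      exact T1_smul _ _ _ _ _ _ _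
    have e4 := J2_zeta hPEU P r δ' pδ' hs'
    simp only [hE, hAd, hN, hD]
    rw [e1, e2, e3, e4]
    ring
  -- signs on the cone
  have hNnn : ∀ r, (∀ k, 0 ≤ af r (v k)) → 0 ≤ N r := by
    intro r hr
    have hz : ∀ i, (fun i => δ' i - dp (ν i) (v i - 0)) (i + n) =
        (fun i => δ' i - dp (ν i) (v i - 0)) i := by
      intro i; simp only [P.pν, P.pv, pδ']
    have hsz : ∑ i ∈ Finset.range n, ℓ i * (fun i => δ' i - dp (ν i) (v i - 0)) i = 0 := by
      have := h2 0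
      simp only [mul_sub, Finset.sum_sub_distrib]
      rw [hs', ← this]
      simp only [← Finset.sum_sub_distrib]
      refine Finset.sum_eq_zero fun i _ => ?_
      ring
    have := hPMI n ν v ℓ P r hr _ hz hsz
    simp only [hN]; linarith
  have hEInn : ∀ r, (∀ k, 0 ≤ af r (v k)) → ∀ i, 0 ≤ EI v ℓ r i := by
    intro r hr i
    have := hr i; have := hr (i + 1); have := P.pos i
    unfold EI; positivity
  have hDeq : ∀ r, D r = ∑ i ∈ Finset.range n, δ' i * (3 * θ i - t i) * EI v ℓ r i := by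
    intro r
    simp only [hD, T1, Finset.mul_sum, ← Finset.sum_sub_distrib]
    refine Finset.sum_congr rfl fun i _ => ?_
    ring
  have hDnn : ∀ r, (∀ k, 0 ≤ af r (v k)) → 0 ≤ D r := by
    intro r hr
    rw [hDeq]
    exact Finset.sum_nonneg fun i _ => mul_nonneg (mul_nonneg (hδ'0 i) (by linarith [ht3 i]))
      (hEInn r hr i)
  by_contra hcon
  push Not at hcon
  have hEnn : ∀ r, (∀ k, 0 ≤ af r (v k)) → 0 ≤ E r := fun r hr => hcon r hr
  -- minimum of the certificate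
  obtain ⟨m, hm0, hm⟩ : ∃ m : ℝ, 0 < m ∧ ∀ k, m ≤ af r (v k) := by
    obtain ⟨k0, -, hk0⟩ := Finset.exists_mem_eq_inf' hne (fun k => af r (v k))
    refine ⟨af r (v k0), hr k0, fun k => ?_⟩
    have hp : Function.Periodic v n := P.pv
    have hk : v (k % n) = v k := hp.map_mod_nat k
    rw [← hk0, ← hk]
    exact Finset.inf'_le (fun k => af r (v k)) (Finset.mem_range.2 (Nat.mod_lt k hn))
  have hr0 : ∀ k, 0 ≤ af r (v k) := fun k => (hr k).le
  have hrm : ∀ k, 0 ≤ af (sb r m) (v k) := by intro k; rw [af_sb]; linarith [hm k]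
  have h10 : ∀ k, 0 ≤ af one (v k) := by intro k; rw [af_one]; norm_num
  have hNsb : N (sb r m) = N r - m * N one := by simp only [hN, J2_sb]; ring
  have hDsb : D (sb r m) = D r - m * D one := by simp only [hD, T1_sb]; ring
  have hEsb : E (sb r m) = E r - m * E one := by
    simp only [hE, J2_sb, T1_sb, J1_sb, J0_sb]; ring
  have hAr : A r ≤ 0 := hA
  have hEr : E r ≤ 0 := by
    rw [hEid]
    have h1 := hNnn r hr0
    have h2 := hDnn r hr0
    have : 3 * ε * A r - (1 - ε) * N r - ε * D r ≤ 0 := by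
      have a1 : 3 * ε * A r ≤ 0 := mul_nonpos_of_nonneg_of_nonpos (by linarith) hAr
      have a2 : 0 ≤ (1 - ε) * N r := mul_nonneg (by linarith) h1
      have a3 : 0 ≤ ε * D r := mul_nonneg hε0.le h2
      linarith
    exact mul_nonpos_of_nonneg_of_nonpos (by linarith) this
  have hE1 : 0 ≤ E one := hEnn one h10
  have hEm : 0 ≤ E r - m * E one := by rw [← hEsb]; exact hEnn _ hrm
  have hE10 : E one = 0 := by nlinarith
  have hEr0 : E r = 0 := by rw [hE10] at hEm; linarith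
  have hkey : 3 * ε * A r - (1 - ε) * N r - ε * D r = 0 := by
    have := hEid r
    rw [hEr0] at this
    have hne2 : (2 + ε) / 2 ≠ 0 := by positivity
    exact (mul_eq_zero.1 this.symm).resolve_left hne2
  have hNr := hNnn r hr0
  have hDr := hDnn r hr0
  have hNr0 : N r = 0 := by
    have a1 : 3 * ε * A r ≤ 0 := mul_nonpos_of_nonneg_of_nonpos (by linarith) hAr
    have a3 : 0 ≤ ε * D r := mul_nonneg hε0.le hDr
    have a2 : (1 - ε) * N r ≤ 0 := by linarith
    have : N r ≤ 0 := by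
      by_contra hc
      push Not at hc
      have : 0 < (1 - ε) * N r := mul_pos (by linarith) hc
      linarith
    linarith
  have hDr0 : D r = 0 := by
    have a1 : 3 * ε * A r ≤ 0 := mul_nonpos_of_nonneg_of_nonpos (by linarith) hAr
    rw [hNr0] at hkey
    have a2 : ε * D r ≤ 0 := by linarith
    have : D r ≤ 0 := by
      by_contra hc
      push Not at hc
      have : 0 < ε * D r := mul_pos hε0 hc
      linarith
    linarith
  have hN1 : N one = 0 := by
    have a1 := hNnn _ hrm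
    rw [hNsb, hNr0] at a1
    have a2 := hNnn one h10
    nlinarith
  have hD1 : D one = 0 := by
    have a1 := hDnn _ hrm
    rw [hDsb, hDr0] at a1
    have a2 := hDnn one h10
    nlinarith
  have hA1 : A one = 0 := by
    have := hEid one
    rw [hE10, hN1, hD1] at this
    have hne2 : (2 + ε) / 2 ≠ 0 := by positivity
    have h7 := (mul_eq_zero.1 this.symm).resolve_left hne2
    have h8 : 3 * ε * A one = 0 := by linarith
    exact (mul_eq_zero.1 h8).resolve_left (by positivity)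
  -- evaluate at `1`
  have hterm : ∀ i ∈ Finset.range n, δ' i * (3 * θ i - t i) * EI v ℓ one i = 0 := by
    have hz := hD1
    rw [hDeq] at hz
    exact (Finset.sum_eq_zero_iff_of_nonneg fun i _ => mul_nonneg (mul_nonneg (hδ'0 i)
      (by linarith [ht3 i])) (hEInn one h10 i)).1 hz
  have hθδ : ∀ i ∈ Finset.range n, δ' i * θ i = 2 / 3 * δ' i := by
    intro i hi
    have h9 := hterm i hi
    rw [EI_one] at h9
    rcases (hδ'0 i).eq_or_lt with h0 | h0
    · rw [← h0]; ring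
    · have hl := P.pos i
      have h11 : 3 * θ i - t i = 0 := by
        rcases mul_eq_zero.1 h9 with h | h
        · exact (mul_eq_zero.1 h).resolve_left h0.ne'
        · exact absurd h hl.ne'
      rw [ht3eq i h0 (by linarith)]; ring
  have hT : T1 n v ℓ one δ' θ = 2 / 3 * (2 * ar n v) := by
    rw [← hs', Finset.mul_sum]
    unfold T1
    refine Finset.sum_congr rfl fun i hi => ?_
    rw [EI_one, hθδ i hi]; ring
  have hJ1 : J1 n v ℓ one δ' = 2 * ar n v := by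
    rw [← hs']
    unfold J1
    refine Finset.sum_congr rfl fun i hi => ?_
    rw [EI_one]; ring
  have hJ2 : J2 n ν v ℓ one δ' = 4 * J1 n v ℓ one δ' - 6 * J0 n v one := by
    have e4 := J2_zeta hPEU P one δ' pδ' hs'
    have : J2 n ν v ℓ one (fun i => δ' i - dp (ν i) (v i - 0)) = 0 := by
      have := hN1
      simp only [hN] at this
      linarith
    rw [this] at e4
    linarith
  have hfin : A one = 1 / 3 * ar n v := by
    simp only [hAd]
    rw [hT, hJ2, hJ1, J0_one]; ring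
  rw [hfin] at hA1
  linarith

end Pool.G1
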