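import Pool.Agent.Work.MP_b5407d_g1.Planar

/-!
# G1, block PMI: weighted Minkowski inequality for a planar polygon (helper65)

`J2 = ∑ j y V²` over the vertices (`y = ρ`, `V` = rate of `ρ` at the moving vertex, `j` = jump of the slope),
and `j > 0` only at the two extreme vertices.
-/

set_option autoImplicit false

namespace Pool.G1

namespace PMIaux

open Finset

variable {n : ℕ} {ν v : ℕ → R2} {ℓ : ℕ → ℝ}

/-! ### elementary algebra -/

lemma dp_add_right (a b c : R2) : dp a (b + c) = dp a b + dp a c := by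
  simp only [dp, Prod.fst_add, Prod.snd_add]; ring

lemma dp_sub_right (a b c : R2) : dp a (b - c) = dp a b - dp a c := by
  simp only [dp, Prod.fst_sub, Prod.snd_sub]; ring

lemma dp_smul_right (a b : R2) (t : ℝ) : dp a (t • b) = t * dp a b := by
  simp only [dp, Prod.smul_fst, Prod.smul_snd, smul_eq_mul]; ring

lemma dp_add_left (a b c : R2) : dp (a + b) c = dp a c + dp b c := by
  simp only [dp, Prod.fst_add, Prod.snd_add]; ring

lemma dp_smul_left (a b : R2) (t : ℝ) : dp (t • a) b = t * dp a b := by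
  simp only [dp, Prod.smul_fst, Prod.smul_snd, smul_eq_mul]; ring

/-- periodic sums can be shifted -/
lemma sum_shift {f : ℕ → ℝ} (h : ∀ i, f (i + n) = f i) :
    ∑ i ∈ range n, f (i + 1) = ∑ i ∈ range n, f i := by
  have h1 := Finset.sum_range_succ' f n
  have h2 := Finset.sum_range_succ f n
  have h3 := h 0
  rw [zero_add] at h3
  rw [h2, h3] at h1
  linarith

lemma sum_tele {f : ℕ → ℝ} (h : ∀ i, f (i + n) = f i) :
    ∑ i ∈ range n, (f (i + 1) - f i) = 0 := by
  rw [Finset.sum_sub_distrib, sum_shift h, sub_self]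

/-- the vertex velocity satisfies the two line equations -/
lemma ve_left (ν : ℕ → R2) (δ : ℕ → ℝ) (i : ℕ) (h : cp (ν i) (ν (i + 1)) ≠ 0) :
    dp (ν i) (ve ν δ i) = δ i := by
  unfold ve
  rw [dp_smul_right, dp_sub_right, dp_smul_right, dp_smul_right]
  have h1 : dp (ν i) (rt (ν i)) = 0 := by simp only [dp, rt]; ring
  have h2 : dp (ν i) (rt (ν (i + 1))) = - cp (ν i) (ν (i + 1)) := by simp only [dp, rt, cp]; ring
  rw [h1, h2]
  field_simp
  ring

lemma ve_right (ν : ℕ → R2) (δ : ℕ → ℝ) (i : ℕ) (h : cp (ν i) (ν (i + 1)) ≠ 0) :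
    dp (ν (i + 1)) (ve ν δ i) = δ (i + 1) := by
  unfold ve
  rw [dp_smul_right, dp_sub_right, dp_smul_right, dp_smul_right]
  have h1 : dp (ν (i + 1)) (rt (ν (i + 1))) = 0 := by simp only [dp, rt]; ring
  have h2 : dp (ν (i + 1)) (rt (ν i)) = cp (ν i) (ν (i + 1)) := by simp only [dp, rt, cp]; ring
  rw [h1, h2]
  field_simp
  ring

/-- decomposition of a vector in the frame of a unit normal -/
lemma frame (a b : R2) (h : dp a a = 1) : b = dp a b • a + dp b (rt a) • rt a := by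
  have h' : a.1 * a.1 + a.2 * a.2 = 1 := h
  ext
  · simp only [dp, rt, Prod.fst_add, Prod.smul_fst, smul_eq_mul]
    linear_combination -b.1 * h'
  · simp only [dp, rt, Prod.snd_add, Prod.smul_snd, smul_eq_mul]
    linear_combination -b.2 * h'

lemma ve_per (hP : Poly n ν v ℓ) {δ : ℕ → ℝ} (hδ : ∀ i, δ (i + n) = δ i) (i : ℕ) :
    ve ν δ (i + n) = ve ν δ i := by
  unfold ve
  have h1 : i + n + 1 = (i + 1) + n := by omega
  rw [h1, hP.pν, hP.pν, hδ, hδ]

/-- tangential component of the change of the vertex velocity along edge `i + 1` -/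
noncomputable def xx (ν : ℕ → R2) (δ : ℕ → ℝ) (i : ℕ) : ℝ :=
  dp (ve ν δ (i + 1) - ve ν δ i) (rt (ν (i + 1)))

lemma ve_diff (hP : Poly n ν v ℓ) (δ : ℕ → ℝ) (i : ℕ) :
    ve ν δ (i + 1) - ve ν δ i = xx ν δ i • rt (ν (i + 1)) := by
  have h1 := ve_right ν δ i (hP.turn i).ne'
  have h2 := ve_left ν δ (i + 1) (hP.turn (i + 1)).ne'
  have h3 := frame (ν (i + 1)) (ve ν δ (i + 1) - ve ν δ i) (hP.unit _)
  rw [dp_sub_right, h1, h2, sub_self, zero_smul, zero_add] at h3
  exact h3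

/-! ### the vertex form -/

section vert

variable (hP : Poly n ν v ℓ) (r : ℝ × R2) (δ : ℕ → ℝ)

/-- derivative of `ρ` along edge `i` -/
noncomputable def DD (ν : ℕ → R2) (r : ℝ × R2) (i : ℕ) : ℝ := dp r.2 (rt (ν i))

/-- value of `ρ` at the vertex between the edges `i` and `i + 1` -/
noncomputable def yy (v : ℕ → R2) (r : ℝ × R2) (i : ℕ) : ℝ := af r (v (i + 1))

/-- rate of `ρ` at the moving vertex -/
noncomputable def UU (ν : ℕ → R2) (r : ℝ × R2) (δ : ℕ → ℝ) (i : ℕ) : ℝ := dp r.2 (ve ν δ i)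

/-- the auxiliary covector: `cp om r.2 = 1` -/
noncomputable def om (r : ℝ × R2) : R2 := (-(1 / dp r.2 r.2)) • rt r.2

lemma cp_om {r : ℝ × R2} (h : dp r.2 r.2 ≠ 0) : cp (om r) r.2 = 1 := by
  have h1 : cp (om r) r.2 = (1 / dp r.2 r.2) * dp r.2 r.2 := by
    simp only [om, cp, rt, dp, Prod.smul_fst, Prod.smul_snd, smul_eq_mul]
    ring
  rw [h1]
  field_simp

lemma lagr (w g a b : R2) : dp w a * dp g b - dp w b * dp g a = cp w g * cp a b := by
  simp only [dp, cp]; ring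

lemma cp_rt_rt (a b : R2) : cp (rt a) (rt b) = cp a b := by
  simp only [cp, rt]; ring

lemma cp_rt (a b : R2) : cp (rt a) b = - dp a b := by
  simp only [cp, rt, dp]; ring

/-- slope of edge `i` -/
noncomputable def sl (ν : ℕ → R2) (r : ℝ × R2) (i : ℕ) : ℝ := dp (om r) (rt (ν i)) / DD ν r i

/-- jump of the slope at vertex `i` -/
noncomputable def jj (ν : ℕ → R2) (r : ℝ × R2) (i : ℕ) : ℝ := sl ν r (i + 1) - sl ν r i

lemma gg_ne {i : ℕ} (hD : DD ν r i ≠ 0) : dp r.2 r.2 ≠ 0 := by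
  intro h
  have h' : r.2.1 * r.2.1 + r.2.2 * r.2.2 = 0 := h
  have h1 : r.2.1 = 0 := by nlinarith [mul_self_nonneg r.2.1, mul_self_nonneg r.2.2]
  have h2 : r.2.2 = 0 := by nlinarith [mul_self_nonneg r.2.1, mul_self_nonneg r.2.2]
  apply hD
  simp only [DD, dp, rt, h1, h2]
  ring

lemma jj_eq {i : ℕ} (h0 : DD ν r i ≠ 0) (h1 : DD ν r (i + 1) ≠ 0) :
    jj ν r i = - (cp (ν i) (ν (i + 1)) / (DD ν r i * DD ν r (i + 1))) := by
  have h2 := lagr (om r) r.2 (rt (ν (i + 1))) (rt (ν i))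
  rw [cp_om (gg_ne r h0), one_mul, cp_rt_rt] at h2
  have h3 : cp (ν (i + 1)) (ν i) = - cp (ν i) (ν (i + 1)) := by simp only [cp]; ring
  rw [h3] at h2
  unfold jj sl
  have h4 : dp r.2 (rt (ν i)) = DD ν r i := rfl
  have h5 : dp r.2 (rt (ν (i + 1))) = DD ν r (i + 1) := rfl
  rw [h4, h5] at h2
  field_simp
  linear_combination h2

include hP in
lemma yy_diff (i : ℕ) : yy v r (i + 1) - yy v r i = ℓ (i + 1) * DD ν r (i + 1) := by
  unfold yy DD
  have h := hP.edge (i + 1)
  simp only [af]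
  rw [h, dp_add_right, dp_smul_right]
  ring

include hP in
lemma UU_diff (i : ℕ) : UU ν r δ (i + 1) - UU ν r δ i = xx ν δ i * DD ν r (i + 1) := by
  unfold UU DD
  rw [← dp_sub_right, ve_diff hP, dp_smul_right]

/-- `om`-component of the vertex velocity -/
noncomputable def ww (ν : ℕ → R2) (r : ℝ × R2) (δ : ℕ → ℝ) (i : ℕ) : ℝ := dp (om r) (ve ν δ i)

include hP in
lemma ww_diff (i : ℕ) :
    ww ν r δ (i + 1) - ww ν r δ i = xx ν δ i * dp (om r) (rt (ν (i + 1))) := by
  unfold ww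
  rw [← dp_sub_right, ve_diff hP, dp_smul_right]

include hP in
lemma edge_a {i : ℕ} (h1 : DD ν r (i + 1) ≠ 0) :
    dp (om r) (rt (ν (i + 1))) * UU ν r δ i = DD ν r (i + 1) * ww ν r δ i - δ (i + 1) := by
  have h2 := lagr (om r) r.2 (rt (ν (i + 1))) (ve ν δ i)
  rw [cp_om (gg_ne r h1), one_mul, cp_rt, ve_right ν δ i (hP.turn i).ne'] at h2
  unfold UU ww DD
  linear_combination h2

include hP in
lemma edge_b {i : ℕ} (h1 : DD ν r (i + 1) ≠ 0) :
    dp (om r) (rt (ν (i + 1))) * UU ν r δ (i + 1) =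
      DD ν r (i + 1) * ww ν r δ (i + 1) - δ (i + 1) := by
  have h2 := lagr (om r) r.2 (rt (ν (i + 1))) (ve ν δ (i + 1))
  rw [cp_om (gg_ne r h1), one_mul, cp_rt, ve_left ν δ (i + 1) (hP.turn (i + 1)).ne'] at h2
  unfold UU ww DD
  linear_combination h2

/-- summation by parts -/
lemma parts {f : ℕ → ℝ} (hs : ∀ i, sl ν r (i + n) = sl ν r i) (hf : ∀ i, f (i + n) = f i) :
    ∑ i ∈ range n, jj ν r i * f i = - ∑ i ∈ range n, sl ν r (i + 1) * (f (i + 1) - f i) := by
  have h1 : ∑ i ∈ range n, (sl ν r (i + 1) * f (i + 1) - sl ν r i * f i) = 0 :=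
    sum_tele (f := fun i => sl ν r i * f i) (fun i => by simp only [hs, hf])
  rw [← Finset.sum_neg_distrib, ← sub_eq_zero, ← Finset.sum_sub_distrib, ← h1]
  refine Finset.sum_congr rfl fun i _ => ?_
  unfold jj
  ring

include hP in
lemma sl_per (i : ℕ) : sl ν r (i + n) = sl ν r i := by
  unfold sl DD
  rw [hP.pν]

include hP in
lemma yy_per (i : ℕ) : yy v r (i + n) = yy v r i := by
  unfold yy
  have h1 : i + n + 1 = (i + 1) + n := by omega
  rw [h1, hP.pv]

lemma sl_mul {i : ℕ} (h1 : DD ν r i ≠ 0) (t : ℝ) :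
    sl ν r i * (t * DD ν r i) = t * dp (om r) (rt (ν i)) := by
  unfold sl
  field_simp

include hP in
lemma sum_j : ∑ i ∈ range n, jj ν r i = 0 := by
  unfold jj
  exact sum_tele (sl_per hP r)

include hP in
lemma sum_jy (hD : ∀ i, DD ν r i ≠ 0) : ∑ i ∈ range n, jj ν r i * yy v r i = 0 := by
  rw [parts r (sl_per hP r) (yy_per hP r), neg_eq_zero]
  have h1 : ∑ i ∈ range n, (dp (om r) (v (i + 1 + 1)) - dp (om r) (v (i + 1))) = 0 :=
    sum_tele (f := fun i => dp (om r) (v (i + 1))) (fun i => by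
      have h1 : i + n + 1 = (i + 1) + n := by omega
      simp only [h1, hP.pv])
  rw [← h1]
  refine Finset.sum_congr rfl fun i _ => ?_
  rw [yy_diff hP, sl_mul r (hD _), hP.edge (i + 1), dp_add_right, dp_smul_right]
  ring

include hP in
lemma sum_jU (hD : ∀ i, DD ν r i ≠ 0) (hδ : ∀ i, δ (i + n) = δ i) :
    ∑ i ∈ range n, jj ν r i * UU ν r δ i = 0 := by
  rw [parts r (sl_per hP r) (fun i => by unfold UU; rw [ve_per hP hδ]), neg_eq_zero]
  have h1 : ∑ i ∈ range n, (ww ν r δ (i + 1) - ww ν r δ i) = 0 :=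
    sum_tele (fun i => by unfold ww; rw [ve_per hP hδ])
  rw [← h1]
  refine Finset.sum_congr rfl fun i _ => ?_
  rw [UU_diff hP, sl_mul r (hD _), ww_diff hP]

include hP in
lemma sum_jyU (hD : ∀ i, DD ν r i ≠ 0) (hδ : ∀ i, δ (i + n) = δ i) (hℓ : ∀ i, ℓ (i + n) = ℓ i) :
    ∑ i ∈ range n, jj ν r i * (yy v r i * UU ν r δ i) = ∑ i ∈ range n, ℓ i * δ i := by
  rw [parts r (sl_per hP r) (f := fun i => yy v r i * UU ν r δ i)
    (fun i => by simp only [yy_per hP]; unfold UU; rw [ve_per hP hδ])]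
  have h1 : ∑ i ∈ range n, (yy v r (i + 1) * ww ν r δ (i + 1) - yy v r i * ww ν r δ i) = 0 :=
    sum_tele (f := fun i => yy v r i * ww ν r δ i)
      (fun i => by simp only [yy_per hP]; unfold ww; rw [ve_per hP hδ])
  have h2 : ∑ i ∈ range n, ℓ (i + 1) * δ (i + 1) = ∑ i ∈ range n, ℓ i * δ i :=
    sum_shift (f := fun i => ℓ i * δ i) (fun i => by simp only [hℓ, hδ])
  rw [← h2, ← Finset.sum_neg_distrib, ← sub_eq_zero, ← Finset.sum_sub_distrib,
    ← neg_zero, ← h1, ← Finset.sum_neg_distrib]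
  refine Finset.sum_congr rfl fun i _ => ?_
  have e1 := yy_diff hP r i
  have e2 := UU_diff hP r δ i
  have e3 := ww_diff hP r δ i
  have e4 := edge_a hP r δ (hD (i + 1))
  have e5 : yy v r (i + 1) * UU ν r δ (i + 1) - yy v r i * UU ν r δ i =
      (yy v r (i + 1) * xx ν δ i + ℓ (i + 1) * UU ν r δ i) * DD ν r (i + 1) := by
    linear_combination yy v r (i + 1) * e2 + UU ν r δ i * e1
  rw [e5, sl_mul r (hD _)]
  linear_combination yy v r (i + 1) * e3 - ℓ (i + 1) * e4 + ww ν r δ i * e1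

include hP in
/-- the vertex form of the second variation -/
lemma J2_vert (hD : ∀ i, DD ν r i ≠ 0) (hδ : ∀ i, δ (i + n) = δ i) :
    J2 n ν v ℓ r δ = ∑ i ∈ range n, jj ν r i * (yy v r i * UU ν r δ i ^ 2) := by
  rw [parts r (sl_per hP r) (f := fun i => yy v r i * UU ν r δ i ^ 2)
    (fun i => by simp only [yy_per hP]; unfold UU; rw [ve_per hP hδ])]
  have h1 : ∑ i ∈ range n, (yy v r (i + 1) * UU ν r δ (i + 1) * ww ν r δ (i + 1) -
      yy v r i * UU ν r δ i * ww ν r δ i) = 0 :=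
    sum_tele (f := fun i => yy v r i * UU ν r δ i * ww ν r δ i)
      (fun i => by simp only [yy_per hP]; unfold ww UU; rw [ve_per hP hδ])
  unfold J2 B2
  rw [← sub_eq_zero, ← Finset.sum_neg_distrib, ← Finset.sum_sub_distrib, ← h1]
  refine Finset.sum_congr rfl fun i _ => ?_
  have e1 := yy_diff hP r i
  have e2 := UU_diff hP r δ i
  have e3 := ww_diff hP r δ i
  have e4 := edge_a hP r δ (hD (i + 1))
  have e4' := edge_b hP r δ (hD (i + 1))
  have e5 : yy v r (i + 1) * UU ν r δ (i + 1) ^ 2 - yy v r i * UU ν r δ i ^ 2 =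
      ((yy v r i + yy v r (i + 1)) / 2 * xx ν δ i * (UU ν r δ i + UU ν r δ (i + 1)) +
        ℓ (i + 1) / 2 * (UU ν r δ i ^ 2 + UU ν r δ (i + 1) ^ 2)) * DD ν r (i + 1) := by
    linear_combination (yy v r i + yy v r (i + 1)) / 2 * (UU ν r δ i + UU ν r δ (i + 1)) * e2 +
      (UU ν r δ i ^ 2 + UU ν r δ (i + 1) ^ 2) / 2 * e1
  have e6 : af r (v (i + 1)) = yy v r i := rfl
  have e7 : af r (v (i + 2)) = yy v r (i + 1) := rfl
  have e8 : dp (ve ν δ (i + 1) - ve ν δ i) (rt (ν (i + 1))) = xx ν δ i := rfl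
  have e9 : dp r.2 (ve ν δ i + ve ν δ (i + 1)) = UU ν r δ i + UU ν r δ (i + 1) := by
    rw [dp_add_right]; rfl
  rw [e6, e7, e8, e9, e5, sl_mul r (hD _)]
  linear_combination ℓ (i + 1) / 2 * UU ν r δ i * e4 +
    ((yy v r i + yy v r (i + 1)) / 2 * xx ν δ i + ℓ (i + 1) / 2 * UU ν r δ (i + 1)) * e4' -
    (yy v r i + yy v r (i + 1)) / 2 * ww ν r δ (i + 1) * e2 -
    (yy v r i + yy v r (i + 1)) / 2 * UU ν r δ i * e3 -
    (UU ν r δ i * ww ν r δ i + UU ν r δ (i + 1) * ww ν r δ (i + 1)) / 2 * e1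

end vert

/-! ### the abstract inequality -/

lemma key {n : ℕ} (j y U : ℕ → ℝ) (T B : ℕ) (hT : T < n) (hB : B < n) (hy : ∀ i < n, 0 < y i)
    (hyB : ∀ i < n, y B ≤ y i) (hyT : ∀ i < n, y i ≤ y T) (hlt : y B < y T)
    (hj : ∀ i < n, i ≠ T → i ≠ B → j i ≤ 0)
    (s0 : ∑ i ∈ range n, j i = 0) (s1 : ∑ i ∈ range n, j i * y i = 0)
    (s2 : ∑ i ∈ range n, j i * U i = 0) (s3 : ∑ i ∈ range n, j i * (y i * U i) = 0) :
    ∑ i ∈ range n, j i * (y i * U i ^ 2) ≤ 0 := by
  have hyT0 := hy T hT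
  have hyB0 := hy B hB
  have hd : y T - y B ≠ 0 := (sub_pos.2 hlt).ne'
  have hA : 0 ≤ ∑ i ∈ range n, j i * (1 / y i) := by
    have h1 : ∑ i ∈ range n, j i * ((y i - y B) * (y i - y T) / (y i * (y B * y T))) =
        ∑ i ∈ range n, j i * (1 / y i) - (y B + y T) / (y B * y T) * ∑ i ∈ range n, j i +
          1 / (y B * y T) * ∑ i ∈ range n, j i * y i := by
      simp only [Finset.mul_sum, ← Finset.sum_add_distrib, ← Finset.sum_sub_distrib]
      refine Finset.sum_congr rfl fun i hi => ?_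
      have := (hy i (Finset.mem_range.1 hi)).ne'
      field_simp
      ring
    rw [s0, s1, mul_zero, mul_zero, sub_zero, add_zero] at h1
    rw [← h1]
    refine Finset.sum_nonneg fun i hi => ?_
    have hi' := Finset.mem_range.1 hi
    by_cases h2 : i = T
    · rw [h2]; simp
    by_cases h3 : i = B
    · rw [h3]; simp
    refine mul_nonneg_of_nonpos_of_nonpos (hj i hi' h2 h3) ?_
    refine div_nonpos_of_nonpos_of_nonneg ?_ ?_
    · exact mul_nonpos_of_nonneg_of_nonpos (sub_nonneg.2 (hyB i hi')) (sub_nonpos.2 (hyT i hi'))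
    · have := hy i hi'
      positivity
  set q : ℝ := (y B * U B - y T * U T) / (y T - y B) with hq
  set p : ℝ := - (y B * U B) - q * y B with hp
  have hpB : y B * U B + p + q * y B = 0 := by rw [hp]; ring
  have hpT : y T * U T + p + q * y T = 0 := by
    have h1 : q * (y T - y B) = y B * U B - y T * U T := by
      rw [hq]; field_simp
    rw [hp]
    linear_combination h1
  have hE : ∑ i ∈ range n, j i * ((y i * U i + p + q * y i) ^ 2 / y i) =
      ∑ i ∈ range n, j i * (y i * U i ^ 2) + 2 * p * ∑ i ∈ range n, j i * U i +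
        2 * q * ∑ i ∈ range n, j i * (y i * U i) + p ^ 2 * ∑ i ∈ range n, j i * (1 / y i) +
        2 * p * q * ∑ i ∈ range n, j i + q ^ 2 * ∑ i ∈ range n, j i * y i := by
    simp only [Finset.mul_sum, ← Finset.sum_add_distrib]
    refine Finset.sum_congr rfl fun i hi => ?_
    have := (hy i (Finset.mem_range.1 hi)).ne'
    field_simp
    ring
  have hN : ∑ i ∈ range n, j i * ((y i * U i + p + q * y i) ^ 2 / y i) ≤ 0 := by
    refine Finset.sum_nonpos fun i hi => ?_
    have hi' := Finset.mem_range.1 hi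
    by_cases h2 : i = T
    · rw [h2, hpT]; simp
    by_cases h3 : i = B
    · rw [h3, hpB]; simp
    refine mul_nonpos_of_nonpos_of_nonneg (hj i hi' h2 h3) ?_
    have := hy i hi'
    positivity
  rw [s0, s1, s2, s3] at hE
  have h5 : 0 ≤ p ^ 2 * ∑ i ∈ range n, j i * (1 / y i) := mul_nonneg (sq_nonneg _) hA
  linarith

/-! ### the sign pattern of the slope jumps -/

lemma decomp (a b x : R2) : cp a b • x = dp b x • rt a - dp a x • rt b := by
  ext
  · simp only [cp, dp, rt, Prod.smul_fst, Prod.fst_sub, smul_eq_mul]; ring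
  · simp only [cp, dp, rt, Prod.smul_snd, Prod.snd_sub, smul_eq_mul]; ring

lemma conv_succ (hP : Poly n ν v ℓ) (i k : ℕ) : dp (ν i) (v k) ≤ dp (ν i) (v (i + 1)) := by
  have h1 := hP.conv i k
  have h2 : dp (ν i) (v (i + 1)) = dp (ν i) (v i) := by
    rw [hP.edge i, dp_add_right, dp_smul_right]
    have : dp (ν i) (rt (ν i)) = 0 := by simp only [dp, rt]; ring
    rw [this]; ring
  rw [h2]; exact h1

lemma yy_cmp (r : ℝ × R2) (i k : ℕ) :
    cp (ν i) (ν (i + 1)) * (yy v r k - yy v r i) =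
      dp (ν (i + 1)) (v (k + 1) - v (i + 1)) * DD ν r i -
        dp (ν i) (v (k + 1) - v (i + 1)) * DD ν r (i + 1) := by
  have h1 := congrArg (dp r.2) (decomp (ν i) (ν (i + 1)) (v (k + 1) - v (i + 1)))
  rw [dp_smul_right, dp_sub_right (r.2) (v (k + 1)), dp_sub_right (r.2) (_ • _), dp_smul_right,
    dp_smul_right] at h1
  unfold yy DD
  simp only [af]
  linear_combination h1

lemma eq_of_dp (hP : Poly n ν v ℓ) (i : ℕ) (x : R2) (h1 : dp (ν i) x = 0)
    (h2 : dp (ν (i + 1)) x = 0) : x = 0 := by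
  have h3 := decomp (ν i) (ν (i + 1)) x
  rw [h1, h2, zero_smul, zero_smul, sub_zero] at h3
  exact (smul_eq_zero.1 h3).resolve_left (hP.turn i).ne'

lemma loc_max (hP : Poly n ν v ℓ) (r : ℝ × R2) (i k : ℕ) (h1 : 0 < DD ν r i)
    (h2 : DD ν r (i + 1) < 0) :
    yy v r k ≤ yy v r i ∧ (yy v r k = yy v r i → v (k + 1) = v (i + 1)) := by
  have hc := hP.turn i
  have h3 := yy_cmp (ν := ν) (v := v) r i k
  have h4 : dp (ν (i + 1)) (v (k + 1) - v (i + 1)) ≤ 0 := by
    rw [dp_sub_right]; linarith [hP.conv (i + 1) (k + 1)]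
  have h5 : dp (ν i) (v (k + 1) - v (i + 1)) ≤ 0 := by
    rw [dp_sub_right]; linarith [conv_succ hP i (k + 1)]
  have h6 := mul_nonpos_of_nonpos_of_nonneg h4 h1.le
  have h7 := mul_nonneg_of_nonpos_of_nonpos h5 h2.le
  constructor
  · by_contra h
    push Not at h
    nlinarith [mul_pos hc (sub_pos.2 h)]
  · intro h
    rw [h, sub_self, mul_zero] at h3
    have h8 : dp (ν (i + 1)) (v (k + 1) - v (i + 1)) * DD ν r i = 0 := by linarith
    have h9 : dp (ν i) (v (k + 1) - v (i + 1)) * DD ν r (i + 1) = 0 := by linarith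
    have h10 := (mul_eq_zero.1 h8).resolve_right h1.ne'
    have h11 := (mul_eq_zero.1 h9).resolve_right h2.ne
    exact sub_eq_zero.1 (eq_of_dp hP i _ h11 h10)

lemma loc_min (hP : Poly n ν v ℓ) (r : ℝ × R2) (i k : ℕ) (h1 : DD ν r i < 0)
    (h2 : 0 < DD ν r (i + 1)) :
    yy v r i ≤ yy v r k ∧ (yy v r k = yy v r i → v (k + 1) = v (i + 1)) := by
  have hc := hP.turn i
  have h3 := yy_cmp (ν := ν) (v := v) r i k
  have h4 : dp (ν (i + 1)) (v (k + 1) - v (i + 1)) ≤ 0 := by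
    rw [dp_sub_right]; linarith [hP.conv (i + 1) (k + 1)]
  have h5 : dp (ν i) (v (k + 1) - v (i + 1)) ≤ 0 := by
    rw [dp_sub_right]; linarith [conv_succ hP i (k + 1)]
  have h6 := mul_nonneg_of_nonpos_of_nonpos h4 h1.le
  have h7 := mul_nonpos_of_nonpos_of_nonneg h5 h2.le
  constructor
  · by_contra h
    push Not at h
    nlinarith [mul_pos hc (sub_pos.2 h)]
  · intro h
    rw [h, sub_self, mul_zero] at h3
    have h8 : dp (ν (i + 1)) (v (k + 1) - v (i + 1)) * DD ν r i = 0 := by linarith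
    have h9 : dp (ν i) (v (k + 1) - v (i + 1)) * DD ν r (i + 1) = 0 := by linarith
    have h10 := (mul_eq_zero.1 h8).resolve_right h1.ne
    have h11 := (mul_eq_zero.1 h9).resolve_right h2.ne'
    exact sub_eq_zero.1 (eq_of_dp hP i _ h11 h10)

lemma vert_inj (hP : Poly n ν v ℓ) (hinj : ∀ i k, i < n → k < n → v i = v k → i = k)
    {i k : ℕ} (hi : i < n) (hk : k < n) (h : v (i + 1) = v (k + 1)) : i = k := by
  have hn : v n = v 0 := by have := hP.pv 0; rwa [zero_add] at this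
  have hn3 := hP.n3
  rcases Nat.lt_or_ge (i + 1) n with h1 | h1 <;> rcases Nat.lt_or_ge (k + 1) n with h2 | h2
  · have := hinj _ _ h1 h2 h; omega
  · have e : k + 1 = n := by omega
    rw [e, hn] at h
    have := hinj _ _ h1 (by omega) h; omega
  · have e : i + 1 = n := by omega
    rw [e, hn] at h
    have := hinj _ _ (by omega) h2 h; omega
  · omega

/-- two vertices with the same position have the same normals -/
lemma nu_eq_of_vert (hP : Poly n ν v ℓ) {i k : ℕ} (h : v (i + 1) = v (k + 1)) : ν i = ν k := by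
  have key : ∀ i k : ℕ, v (i + 1) = v (k + 1) → 0 ≤ cp (ν i) (ν k) ∧ cp (ν (i + 1)) (ν k) ≤ 0 := by
    intro i k h
    have h1 := conv_succ hP k i
    have h2 := conv_succ hP k (i + 2)
    rw [← h] at h1 h2
    have e1 := hP.edge i
    have e2 : v (i + 2) = v (i + 1) + ℓ (i + 1) • rt (ν (i + 1)) := hP.edge (i + 1)
    rw [e2, dp_add_right, dp_smul_right] at h2
    rw [e1, dp_add_right, dp_smul_right] at h1
    have f1 : dp (ν k) (rt (ν i)) = cp (ν i) (ν k) := by simp only [dp, rt, cp]; ring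
    have f2 : dp (ν k) (rt (ν (i + 1))) = cp (ν (i + 1)) (ν k) := by simp only [dp, rt, cp]; ring
    rw [f1] at h1
    rw [f2] at h2
    have p1 := hP.pos i
    have p2 := hP.pos (i + 1)
    constructor
    · by_contra hc
      push Not at hc
      nlinarith [mul_neg_of_pos_of_neg p1 hc]
    · by_contra hc
      push Not at hc
      nlinarith [mul_pos p2 hc]
  obtain ⟨a1, a2⟩ := key i k h
  obtain ⟨b1, _⟩ := key k i h.symm
  have hz : cp (ν i) (ν k) = 0 := by
    have : cp (ν k) (ν i) = - cp (ν i) (ν k) := by simp only [cp]; ring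
    linarith
  have hu1 : (ν i).1 * (ν i).1 + (ν i).2 * (ν i).2 = 1 := hP.unit i
  have hu2 : (ν k).1 * (ν k).1 + (ν k).2 * (ν k).2 = 1 := hP.unit k
  have hz' : (ν i).1 * (ν k).2 - (ν i).2 * (ν k).1 = 0 := hz
  -- `ν k = s • ν i` with `s = dp (ν i) (ν k)`, `s ^ 2 = 1`
  set s : ℝ := (ν i).1 * (ν k).1 + (ν i).2 * (ν k).2 with hs
  have c1 : (ν k).1 = s * (ν i).1 := by
    rw [hs]; linear_combination (-(ν k).1) * hu1 - (ν i).2 * hz'
  have c2 : (ν k).2 = s * (ν i).2 := by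
    rw [hs]; linear_combination (-(ν k).2) * hu1 + (ν i).1 * hz'
  have hs2 : s * s = 1 := by
    rw [c1, c2] at hu2; linear_combination hu2 - s * s * hu1
  have ht := hP.turn i
  have hs1 : s = 1 := by
    rcases mul_self_eq_one_iff.1 hs2 with h1 | h1
    · exact h1
    · exfalso
      have : cp (ν (i + 1)) (ν k) = cp (ν i) (ν (i + 1)) := by
        simp only [cp]; rw [c1, c2, h1]; ring
      linarith
  ext
  · rw [c1, hs1, one_mul]
  · rw [c2, hs1, one_mul]

/-- the inequality for a generic strictly positive weight -/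
lemma pmi_gen (hP : Poly n ν v ℓ) (hv : ∀ i k, i < n → k < n → v (i + 1) = v (k + 1) → i = k)
    (r : ℝ × R2) (hr : ∀ k, 0 < af r (v k)) (hD : ∀ i, DD ν r i ≠ 0)
    (ζ : ℕ → ℝ) (hζ : ∀ i, ζ (i + n) = ζ i) (hs : ∑ i ∈ range n, ℓ i * ζ i = 0) :
    J2 n ν v ℓ r ζ ≤ 0 := by
  have hn3 := hP.n3
  have hne : (range n).Nonempty := ⟨0, Finset.mem_range.2 (by omega)⟩
  obtain ⟨T, hT, hTm⟩ := Finset.exists_max_image (range n) (yy v r) hne
  obtain ⟨B, hB, hBm⟩ := Finset.exists_min_image (range n) (yy v r) hne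
  rw [Finset.mem_range] at hT hB
  have hyT : ∀ i < n, yy v r i ≤ yy v r T := fun i hi => hTm i (Finset.mem_range.2 hi)
  have hyB : ∀ i < n, yy v r B ≤ yy v r i := fun i hi => hBm i (Finset.mem_range.2 hi)
  have hlt : yy v r B < yy v r T := by
    have h1 := yy_diff hP r 0
    have h2 : ℓ (0 + 1) * DD ν r (0 + 1) ≠ 0 := mul_ne_zero (hP.pos _).ne' (hD _)
    rw [← h1] at h2
    have h3 : yy v r (0 + 1) ≠ yy v r 0 := fun h => h2 (by rw [h, sub_self])
    have a1 := hyT 0 (by omega)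
    have a2 := hyT (0 + 1) (by omega)
    have b1 := hyB 0 (by omega)
    have b2 := hyB (0 + 1) (by omega)
    rcases lt_or_gt_of_ne h3 with h | h <;> linarith
  rw [J2_vert hP r ζ hD hζ]
  refine key (jj ν r) (yy v r) (UU ν r ζ) T B hT hB (fun i _ => hr _) hyB hyT hlt ?_
    (sum_j hP r) (sum_jy hP r hD) (sum_jU hP r ζ hD hζ) ?_
  · intro i hi hiT hiB
    rw [jj_eq r (hD i) (hD (i + 1))]
    have hc := hP.turn i
    rcases lt_or_gt_of_ne (hD i) with h1 | h1 <;> rcases lt_or_gt_of_ne (hD (i + 1)) with h2 | h2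
    · have := div_pos hc (mul_pos_of_neg_of_neg h1 h2); linarith
    · exfalso
      have h3 := loc_min hP r i B h1 h2
      have h4 : yy v r B = yy v r i := le_antisymm (hyB i hi) h3.1
      exact hiB (hv _ _ hB hi (h3.2 h4)).symm
    · exfalso
      have h3 := loc_max hP r i T h1 h2
      have h4 : yy v r T = yy v r i := le_antisymm h3.1 (hyT i hi)
      exact hiT (hv _ _ hT hi (h3.2 h4)).symm
    · have := div_pos hc (mul_pos h1 h2); linarith
  · rw [sum_jyU hP r ζ hD hζ hP.pℓ, hs]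

/-! ### general weights by perturbation -/

lemma J2_add (r r' : ℝ × R2) (δ : ℕ → ℝ) (t : ℝ) :
    J2 n ν v ℓ (r + t • r') δ = J2 n ν v ℓ r δ + t * J2 n ν v ℓ r' δ := by
  unfold J2 B2
  rw [Finset.mul_sum, ← Finset.sum_add_distrib]
  refine Finset.sum_congr rfl fun i _ => ?_
  simp only [af, Prod.fst_add, Prod.snd_add, Prod.smul_fst, Prod.smul_snd, smul_eq_mul,
    dp_add_left, dp_smul_left]
  ring

lemma af_add (r r' : ℝ × R2) (t : ℝ) (x : R2) : af (r + t • r') x = af r x + t * af r' x := by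
  simp only [af, Prod.fst_add, Prod.snd_add, Prod.smul_fst, Prod.smul_snd, smul_eq_mul,
    dp_add_left, dp_smul_left]
  ring

lemma DD_add (r r' : ℝ × R2) (t : ℝ) (i : ℕ) : DD ν (r + t • r') i = DD ν r i + t * DD ν r' i := by
  simp only [DD, Prod.snd_add, Prod.smul_snd, dp_add_left, dp_smul_left]

/-- a generic positive direction -/
lemma exists_dir (hP : Poly n ν v ℓ) :
    ∃ r' : ℝ × R2, (∀ k < n, 0 < af r' (v k)) ∧ ∀ i < n, DD ν r' i ≠ 0 := by
  classical
  obtain ⟨s, hs⟩ := Infinite.exists_notMem_finset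
    ((range n).image fun i => -((rt (ν i)).1 / (rt (ν i)).2))
  obtain ⟨c, hc⟩ := (Finset.finite_toSet ((range n).image fun k => - dp (1, s) (v k))).bddAbove
  refine ⟨(c + 1, (1, s)), fun k hk => ?_, fun i hi h => ?_⟩
  · have h1 : - dp (1, s) (v k) ≤ c := hc (by
      rw [Finset.mem_coe, Finset.mem_image]
      exact ⟨k, Finset.mem_range.2 hk, rfl⟩)
    simp only [af]
    linarith
  · have h1 : (rt (ν i)).1 + s * (rt (ν i)).2 = 0 := by
      have h2 : dp (1, s) (rt (ν i)) = 0 := h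
      simpa [dp] using h2
    have hu := hP.unit i
    by_cases h2 : (rt (ν i)).2 = 0
    · have h3 : (rt (ν i)).1 = 0 := by rw [h2] at h1; simpa using h1
      have e1 : (ν i).1 = 0 := h2
      have e2 : (ν i).2 = 0 := by
        have : -(ν i).2 = 0 := h3
        linarith
      simp [dp, e1, e2] at hu
    · apply hs
      rw [Finset.mem_image]
      refine ⟨i, Finset.mem_range.2 hi, ?_⟩
      field_simp
      linarith

theorem pmi (hP : Poly n ν v ℓ) (hv : ∀ i k, i < n → k < n → v (i + 1) = v (k + 1) → i = k)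
    (r : ℝ × R2) (hr : ∀ k, 0 ≤ af r (v k))
    (ζ : ℕ → ℝ) (hζ : ∀ i, ζ (i + n) = ζ i) (hs : ∑ i ∈ range n, ℓ i * ζ i = 0) :
    J2 n ν v ℓ r ζ ≤ 0 := by
  by_contra hcon
  push Not at hcon
  obtain ⟨r', h1, h2⟩ := exists_dir hP
  have hn3 := hP.n3
  have hpmod : ∀ {f : ℕ → ℝ}, (∀ i, f (i + n) = f i) → ∀ i, f i = f (i % n) := by
    intro f hf i
    have : ∀ m k, f (k + n * m) = f k := by
      intro m
      induction m with
      | zero => intro k; simp
      | succ m ih => intro k; rw [Nat.mul_succ, ← Nat.add_assoc, hf, ih]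
    conv_lhs => rw [← Nat.mod_add_div i n]
    exact this _ _
  have ev : ∀ᶠ t in nhdsWithin (0 : ℝ) (Set.Ioi 0),
      0 < J2 n ν v ℓ r ζ + t * J2 n ν v ℓ r' ζ ∧ (∀ i ∈ range n, DD ν r i + t * DD ν r' i ≠ 0) ∧
        0 < t := by
    refine Filter.Eventually.and ?_ (Filter.Eventually.and ?_ ?_)
    · have hc : Filter.Tendsto (fun t : ℝ => J2 n ν v ℓ r ζ + t * J2 n ν v ℓ r' ζ)
          (nhdsWithin (0 : ℝ) (Set.Ioi 0)) (nhds (J2 n ν v ℓ r ζ + 0 * J2 n ν v ℓ r' ζ)) := by
        apply Filter.Tendsto.mono_left _ nhdsWithin_le_nhds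
        exact (Continuous.tendsto (by fun_prop) 0)
      rw [zero_mul, add_zero] at hc
      exact hc.eventually (lt_mem_nhds hcon)
    · rw [Filter.eventually_all_finset]
      intro i hi
      by_cases h0 : DD ν r i = 0
      · filter_upwards [self_mem_nhdsWithin] with t ht
        rw [h0, zero_add]
        exact mul_ne_zero (ne_of_gt ht) (h2 i (Finset.mem_range.1 hi))
      · have hc : Filter.Tendsto (fun t : ℝ => DD ν r i + t * DD ν r' i)
            (nhdsWithin (0 : ℝ) (Set.Ioi 0)) (nhds (DD ν r i + 0 * DD ν r' i)) := by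
          apply Filter.Tendsto.mono_left _ nhdsWithin_le_nhds
          exact (Continuous.tendsto (by fun_prop) 0)
        rw [zero_mul, add_zero] at hc
        exact hc.eventually (isOpen_ne.mem_nhds h0)
    · exact self_mem_nhdsWithin
  obtain ⟨t, ht1, ht2, ht3⟩ := ev.exists
  have hDp : ∀ i, DD ν (r + t • r') (i + n) = DD ν (r + t • r') i := by
    intro i; unfold DD; rw [hP.pν]
  have hfin := pmi_gen hP hv (r + t • r') (fun k => by
      have e : af (r + t • r') (v k) = af (r + t • r') (v (k % n)) :=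
        hpmod (f := fun k => af (r + t • r') (v k)) (fun i => by simp only [hP.pv]) k
      rw [e, af_add]
      have := h1 (k % n) (Nat.mod_lt _ (by omega))
      have := hr (k % n)
      positivity) (fun i => by
      rw [hpmod hDp i, DD_add]
      exact ht2 _ (Finset.mem_range.2 (Nat.mod_lt _ (by omega)))) ζ hζ hs
  rw [J2_add] at hfin
  linarith

end PMIaux

theorem blk_PMI : Stmt_PMI := fun n ν v ℓ hP r hr ζ hζ hs =>
  PMIaux.pmi hP (fun i k hi hk h => hP.inj i k hi hk (PMIaux.nu_eq_of_vert hP h)) r hr ζ hζ hs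

end Pool.G1
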