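import Pool.Agent.Work.MP_b5407d_g1.InterfaceF

/-!
# G1, block `PPS`: the essential polygon persists under small tilts and motions
-/

set_option autoImplicit false

open MeasureTheory Set Filter Topology

namespace Pool.G1

namespace PPS

lemma dp_comm (a b : R2) : dp a b = dp b a := by unfold dp; ring
lemma dp_add (a b c : R2) : dp a (b + c) = dp a b + dp a c := by
  simp only [dp, Prod.fst_add, Prod.snd_add]; ring
lemma dp_sub (a b c : R2) : dp a (b - c) = dp a b - dp a c := by
  simp only [dp, Prod.fst_sub, Prod.snd_sub]; ring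
lemma dp_smul (t : ℝ) (a b : R2) : dp a (t • b) = t * dp a b := by
  simp only [dp, Prod.smul_fst, Prod.smul_snd, smul_eq_mul]; ring
lemma smul_dp (t : ℝ) (a b : R2) : dp (t • a) b = t * dp a b := by
  simp only [dp, Prod.smul_fst, Prod.smul_snd, smul_eq_mul]; ring
lemma dp_rt (a b : R2) : dp a (rt b) = cp b a := by simp only [dp, cp, rt]; ring
lemma cp_self (a : R2) : cp a a = 0 := by simp only [cp]; ring
lemma cp_smul_smul (s t : ℝ) (a b : R2) : cp (s • a) (t • b) = s * t * cp a b := by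
  simp only [cp, Prod.smul_fst, Prod.smul_snd, smul_eq_mul]; ring
lemma cp_anti (a b : R2) : cp a b = -cp b a := by simp only [cp]; ring

/-- two scalar products determine a vector -/
lemma eq_of_dp (a b x y : R2) (hc : cp a b ≠ 0) (h1 : dp a x = dp a y) (h2 : dp b x = dp b y) :
    x = y := by
  have e1 : cp a b * (x.1 - y.1) = 0 := by
    simp only [dp, cp] at *
    linear_combination b.2 * h1 - a.2 * h2
  have e2 : cp a b * (x.2 - y.2) = 0 := by
    simp only [dp, cp] at *
    linear_combination a.1 * h2 - b.1 * h1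
  rcases mul_eq_zero.1 e1 with h | h
  · exact absurd h hc
  rcases mul_eq_zero.1 e2 with h' | h'
  · exact absurd h' hc
  exact Prod.ext (by linarith) (by linarith)

lemma frame (a b : R2) (h : dp a a = 1) : b = dp a b • a + dp b (rt a) • rt a := by
  have h' : a.1 * a.1 + a.2 * a.2 = 1 := h
  ext
  · simp only [dp, rt, Prod.fst_add, Prod.smul_fst, smul_eq_mul]
    linear_combination -b.1 * h'
  · simp only [dp, rt, Prod.snd_add, Prod.smul_snd, smul_eq_mul]
    linear_combination -b.2 * h'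

/-- the intersection point is on both lines -/
lemma isx_left (A B : R2) (x y : ℝ) (h : cp A B ≠ 0) : dp A (isx A x B y) = x := by
  have e : dp A (isx A x B y) = 1 / cp A B * (x * cp A B) := by
    rw [isx, dp_smul, dp_sub, dp_smul, dp_smul, dp_rt, dp_rt, cp_self, cp_anti B A]
    ring
  rw [e]
  field_simp

lemma isx_right (A B : R2) (x y : ℝ) (h : cp A B ≠ 0) : dp B (isx A x B y) = y := by
  have e : dp B (isx A x B y) = 1 / cp A B * (y * cp A B) := by
    rw [isx, dp_smul, dp_sub, dp_smul, dp_smul, dp_rt, dp_rt, cp_self]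
    ring
  rw [e]
  field_simp

lemma per_mod {α : Type} {n : ℕ} {f : ℕ → α} (h : ∀ i, f (i + n) = f i) (i : ℕ) :
    f (i % n) = f i :=
  Function.Periodic.map_mod_nat h i

lemma per_eq {α : Type} {n : ℕ} {f : ℕ → α} (h : ∀ i, f (i + n) = f i) {i j : ℕ}
    (hij : i % n = j % n) : f i = f j := by
  rw [← per_mod h i, ← per_mod h j, hij]

section
variable {n : ℕ} {ν v : ℕ → R2} {ℓ : ℕ → ℝ} (P : Poly n ν v ℓ)
include P

lemma edge_dp (i : ℕ) : dp (ν i) (v (i + 1)) = dp (ν i) (v i) := by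
  rw [P.edge i, dp_add, dp_smul, dp_rt, cp_self]
  ring

lemma nu_inj {i j : ℕ} (h : ν i = ν j) : i % n = j % n := by
  have hn : 0 < n := by have := P.n3; omega
  refine P.inj _ _ (Nat.mod_lt _ hn) (Nat.mod_lt _ hn) ?_
  rw [per_mod P.pν, per_mod P.pν, h]

/-- only the two end points of the edge `i` are on the line `i` -/
lemma strict {i k : ℕ} (h : dp (ν i) (v (k + 1)) = dp (ν i) (v i)) :
    i % n = k % n ∨ i % n = (k + 1) % n := by
  have hc := P.turn k
  -- `cp (ν k) (ν i) ≥ 0`
  have h1 : 0 ≤ cp (ν k) (ν i) := by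
    have h2 := P.conv i k
    have h3 : dp (ν i) (v (k + 1)) = dp (ν i) (v k) + ℓ k * cp (ν k) (ν i) := by
      rw [P.edge k, dp_add, dp_smul, dp_rt]
    rw [h] at h3
    have h4 := P.pos k
    by_contra h5
    push Not at h5
    nlinarith
  -- `cp (ν i) (ν (k+1)) ≥ 0`
  have h2 : 0 ≤ cp (ν i) (ν (k + 1)) := by
    have h2 := P.conv i (k + 2)
    have h3 : dp (ν i) (v (k + 2)) = dp (ν i) (v (k + 1)) + ℓ (k + 1) * cp (ν (k + 1)) (ν i) := by
      rw [P.edge (k + 1), dp_add, dp_smul, dp_rt]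
    rw [h] at h3
    have h4 := P.pos (k + 1)
    rw [cp_anti]
    by_contra h5
    push Not at h5
    nlinarith
  have key : ∀ x : R2, cp (ν k) (ν (k + 1)) * dp (ν i) x =
      cp (ν i) (ν (k + 1)) * dp (ν k) x + cp (ν k) (ν i) * dp (ν (k + 1)) x := by
    intro x
    simp only [cp, dp]; ring
  rcases eq_or_lt_of_le h1 with h1 | h1
  · -- `ν i = ν k`
    left
    apply nu_inj P
    have e : cp (ν k) (ν (k + 1)) • ν i = cp (ν i) (ν (k + 1)) • ν k := by
      have e1 := key (1, 0)
      have e2 := key (0, 1)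
      rw [← h1] at e1 e2
      simp only [dp] at e1 e2
      ext
      · simp only [Prod.smul_fst, smul_eq_mul]; linarith
      · simp only [Prod.smul_snd, smul_eq_mul]; linarith
    have u1 := P.unit i
    have u2 := P.unit k
    have e3 : cp (ν k) (ν (k + 1)) ^ 2 = cp (ν i) (ν (k + 1)) ^ 2 := by
      have := congrArg (fun x => dp x x) e
      simp only [smul_dp, dp_smul, u1, u2] at this
      nlinarith
    have e4 : cp (ν k) (ν (k + 1)) = cp (ν i) (ν (k + 1)) := by
      have := (sq_eq_sq₀ hc.le h2).1 e3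
      exact this
    rw [← e4] at e
    exact smul_right_injective R2 hc.ne' e
  rcases eq_or_lt_of_le h2 with h2 | h2
  · right
    apply nu_inj P
    have e : cp (ν k) (ν (k + 1)) • ν i = cp (ν k) (ν i) • ν (k + 1) := by
      have e1 := key (1, 0)
      have e2 := key (0, 1)
      rw [← h2] at e1 e2
      simp only [dp] at e1 e2
      ext
      · simp only [Prod.smul_fst, smul_eq_mul]; linarith
      · simp only [Prod.smul_snd, smul_eq_mul]; linarith
    have u1 := P.unit i
    have u2 := P.unit (k + 1)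
    have e3 : cp (ν k) (ν (k + 1)) ^ 2 = cp (ν k) (ν i) ^ 2 := by
      have := congrArg (fun x => dp x x) e
      simp only [smul_dp, dp_smul, u1, u2] at this
      nlinarith
    have e4 : cp (ν k) (ν (k + 1)) = cp (ν k) (ν i) := by
      have := (sq_eq_sq₀ hc.le h1.le).1 e3
      exact this
    rw [← e4] at e
    exact smul_right_injective R2 hc.ne' e
  · -- both positive: every point on line `i` is `v (k+1)`
    exfalso
    have hx : ∀ x : R2, dp (ν k) x ≤ dp (ν k) (v k) → dp (ν (k + 1)) x ≤ dp (ν (k + 1)) (v (k + 1)) →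
        dp (ν i) x = dp (ν i) (v i) → x = v (k + 1) := by
      intro x hx1 hx2 hx3
      have k1 := key x
      have k2 := key (v (k + 1))
      rw [h] at k2
      rw [hx3] at k1
      rw [edge_dp P] at k2
      have g1 : dp (ν k) x = dp (ν k) (v (k + 1)) := by
        rw [edge_dp P]
        by_contra hne
        have hlt := lt_of_le_of_ne hx1 hne
        nlinarith
      have g2 : dp (ν (k + 1)) x = dp (ν (k + 1)) (v (k + 1)) := by
        by_contra hne
        have hlt := lt_of_le_of_ne hx2 hne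
        nlinarith
      exact eq_of_dp _ _ _ _ hc.ne' g1 g2
    have a1 := hx (v i) (P.conv _ _) (P.conv _ _) rfl
    have a2 := hx (v (i + 1)) (P.conv _ _) (P.conv _ _) (edge_dp P i)
    have a3 := P.edge i
    rw [a1, a2] at a3
    have a4 : ℓ i • rt (ν i) = 0 := by
      have : v (k + 1) + ℓ i • rt (ν i) = v (k + 1) + 0 := by rw [add_zero]; exact a3.symm
      exact add_left_cancel this
    have a5 := P.unit i
    have a6 := congrArg Prod.fst a4
    have a7 := congrArg Prod.snd a4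
    simp only [rt, Prod.smul_fst, Prod.smul_snd, smul_eq_mul, Prod.fst_zero, Prod.snd_zero] at a6 a7
    have a8 := (P.pos i).ne'
    have a9 : (ν i).2 = 0 := by
      rcases mul_eq_zero.1 a6 with hh | hh
      · exact absurd hh a8
      · linarith
    have a10 : (ν i).1 = 0 := by
      rcases mul_eq_zero.1 a7 with hh | hh
      · exact absurd hh a8
      · exact hh
    simp only [dp, a9, a10] at a5
    norm_num at a5

end


lemma sum_shift_one {n : ℕ} (f : ℕ → ℝ) (h : ∀ i, f (i + n) = f i) :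
    ∑ i ∈ Finset.range n, f (i + 1) = ∑ i ∈ Finset.range n, f i := by
  have h1 := Finset.sum_range_succ f n
  have h2 := Finset.sum_range_succ' f n
  have h3 : f n = f 0 := by have := h 0; rwa [zero_add] at this
  linarith

lemma sum_shift {n : ℕ} (m : ℕ) : ∀ (f : ℕ → ℝ) (_ : ∀ i, f (i + n) = f i),
    ∑ i ∈ Finset.range n, f (i + m) = ∑ i ∈ Finset.range n, f i := by
  induction m with
  | zero => intro f _; rfl
  | succ m ih =>
    intro f h
    have h1 := ih (fun i => f (i + 1)) (fun i => by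
      show f (i + n + 1) = f (i + 1)
      have := h (i + 1)
      rw [← this]; congr 1; ring)
    have h2 := sum_shift_one f h
    rw [← h2, ← h1]
    rfl

section
variable {n : ℕ} (hn : 3 ≤ n) (A X : ℕ → R2) (B : ℕ → ℝ) (pA : ∀ i, A (i + n) = A i)
  (pB : ∀ i, B (i + n) = B i) (hX : ∀ i, X i = isx (A i) (B i) (A (i + 1)) (B (i + 1)))
  (h1 : ∀ i, i < n → 0 < cp (A i) (A (i + 1)))
  (h2 : ∀ i k, i < n → k < n → i ≠ k → i ≠ (k + 1) % n → dp (A i) (X k) < B i)
  (h3 : ∀ i, i < n → 0 < dp (X (i + 1) - X i) (rt (A (i + 1))))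
include hn pA pB hX h1 h2 h3

lemma assemble : (∀ i, 0 < cp (A i) (A (i + 1))) ∧ (∀ i k, dp (A i) (X k) ≤ B i) ∧
    ∃ (ν' v' : ℕ → R2) (ℓ' : ℕ → ℝ), Poly n ν' v' ℓ' ∧
      {ξ : R2 | ∀ i, dp (A i) ξ ≤ B i} = {ξ : R2 | ∀ i, dp (ν' i) ξ ≤ dp (ν' i) (v' i)} ∧
      ∀ r, J0 n v' r = J0 n X r := by
  have hn0 : 0 < n := by omega
  have pA1 : ∀ i, A (i + n + 1) = A (i + 1) := by
    intro i
    have := pA (i + 1)
    rw [← this]; congr 1; ring
  have pB1 : ∀ i, B (i + n + 1) = B (i + 1) := by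
    intro i
    have := pB (i + 1)
    rw [← this]; congr 1; ring
  have pX : ∀ i, X (i + n) = X i := by
    intro i
    rw [hX, hX, pA, pB, pA1, pB1]
  have pX1 : ∀ i, X (i + n + 1) = X (i + 1) := by
    intro i
    have := pX (i + 1)
    rw [← this]; congr 1; ring
  have g1 : ∀ i, 0 < cp (A i) (A (i + 1)) := by
    intro i
    have h := h1 (i % n) (Nat.mod_lt _ hn0)
    have e1 : A (i % n) = A i := per_mod pA i
    have e2 : A (i % n + 1) = A (i + 1) := per_mod (f := fun i => A (i + 1)) pA1 i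
    rwa [e1, e2] at h
  have g3 : ∀ i, 0 < dp (X (i + 1) - X i) (rt (A (i + 1))) := by
    intro i
    have h := h3 (i % n) (Nat.mod_lt _ hn0)
    have e1 : X (i % n) = X i := per_mod pX i
    have e2 : X (i % n + 1) = X (i + 1) := per_mod (f := fun i => X (i + 1)) pX1 i
    have e3 : A (i % n + 1) = A (i + 1) := per_mod (f := fun i => A (i + 1)) pA1 i
    rwa [e1, e2, e3] at h
  have l1 : ∀ i, dp (A i) (X i) = B i := by
    intro i
    rw [hX]
    exact isx_left _ _ _ _ (g1 i).ne'
  have l2 : ∀ i, dp (A (i + 1)) (X i) = B (i + 1) := by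
    intro i
    rw [hX]
    exact isx_right _ _ _ _ (g1 i).ne'
  have g2 : ∀ i k, i % n ≠ k % n → i % n ≠ (k + 1) % n → dp (A i) (X k) < B i := by
    intro i k hik hik'
    have h := h2 (i % n) (k % n) (Nat.mod_lt _ hn0) (Nat.mod_lt _ hn0) hik
      (by rw [Nat.mod_add_mod]; exact hik')
    rwa [per_mod pA, per_mod pB, per_mod pX] at h
  have g2' : ∀ i k, dp (A i) (X k) ≤ B i := by
    intro i k
    by_cases hik : i % n = k % n
    · rw [per_eq pA hik, per_eq pB hik, l1]
    by_cases hik' : i % n = (k + 1) % n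
    · rw [per_eq pA hik', per_eq pB hik', l2]
    exact (g2 i k hik hik').le
  refine ⟨g1, g2', ?_⟩
  -- norms
  have hA : ∀ i, 0 < dp (A i) (A i) := by
    intro i
    have h := g1 i
    have h0 : 0 ≤ dp (A i) (A i) := by
      simp only [dp]; nlinarith [mul_self_nonneg (A i).1, mul_self_nonneg (A i).2]
    rcases eq_or_lt_of_le h0 with h0 | h0
    · exfalso
      simp only [dp] at h0
      have a1 : (A i).1 = 0 := by
        have : (A i).1 * (A i).1 = 0 := by
          nlinarith [mul_self_nonneg (A i).1, mul_self_nonneg (A i).2]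
        exact mul_self_eq_zero.1 this
      have a2 : (A i).2 = 0 := by
        have : (A i).2 * (A i).2 = 0 := by
          nlinarith [mul_self_nonneg (A i).1, mul_self_nonneg (A i).2]
        exact mul_self_eq_zero.1 this
      simp only [cp, a1, a2] at h
      norm_num at h
    · exact h0
  set c' : ℕ → ℝ := fun i => 1 / Real.sqrt (dp (A i) (A i)) with hc'
  have c'pos : ∀ i, 0 < c' i := fun i => by
    have := Real.sqrt_pos.2 (hA i)
    positivity
  have c'sq : ∀ i, c' i * c' i * dp (A i) (A i) = 1 := by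
    intro i
    have h := Real.sqrt_pos.2 (hA i)
    have h' := Real.mul_self_sqrt (hA i).le
    simp only [hc']
    rw [show 1 / √(dp (A i) (A i)) * (1 / √(dp (A i) (A i))) * dp (A i) (A i) =
      1 / √(dp (A i) (A i)) * (1 / √(dp (A i) (A i))) *
        (√(dp (A i) (A i)) * √(dp (A i) (A i))) by rw [h']]
    field_simp
  have pc' : ∀ i, c' (i + n) = c' i := fun i => by simp only [hc', pA]
  set ν' : ℕ → R2 := fun i => c' i • A i with hν'
  set v' : ℕ → R2 := fun i => X (i + (n - 1)) with hv'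
  set ℓ' : ℕ → ℝ := fun i => dp (v' (i + 1) - v' i) (rt (ν' i)) with hℓ'
  have pν' : ∀ i, ν' (i + n) = ν' i := fun i => by simp only [hν', pA, pc']
  have pv' : ∀ i, v' (i + n) = v' i := fun i => by
    simp only [hv']
    rw [show i + n + (n - 1) = i + (n - 1) + n by ring, pX]
  have v's : ∀ i, v' (i + 1) = X i := fun i => by
    simp only [hv']
    rw [show i + 1 + (n - 1) = i + n by omega, pX]
  have m1 : ∀ i, dp (A i) (v' i) = B i := by
    intro i
    have h := l2 (i + (n - 1))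
    rw [show i + (n - 1) + 1 = i + n by omega, pA, pB] at h
    exact h
  have m2 : ∀ i, dp (A i) (v' (i + 1)) = B i := fun i => by rw [v's, l1]
  have m3 : ∀ i, dp (ν' i) (v' i) = c' i * B i := fun i => by
    simp only [hν', smul_dp, m1]
  have m4 : ∀ i k, dp (ν' i) (v' k) ≤ dp (ν' i) (v' i) := by
    intro i k
    rw [m3]
    simp only [hν', smul_dp]
    exact mul_le_mul_of_nonneg_left (g2' i _) (c'pos i).le
  have u' : ∀ i, dp (ν' i) (ν' i) = 1 := fun i => by
    simp only [hν', smul_dp, dp_smul]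
    linarith [c'sq i]
  have t' : ∀ i, 0 < cp (ν' i) (ν' (i + 1)) := fun i => by
    simp only [hν', cp_smul_smul]
    exact mul_pos (mul_pos (c'pos i) (c'pos (i + 1))) (g1 i)
  have pp : Poly n ν' v' ℓ' := by
    refine ⟨hn, pν', pv', ?_, u', ?_, ?_, t', m4, ?_⟩
    · intro i
      simp only [hℓ']
      rw [pν', pv', show i + n + 1 = i + 1 + n by ring, pv']
    · intro i
      have h := g3 (i + (n - 1))
      rw [show i + (n - 1) + 1 = i + n by omega, pX, pA] at h
      simp only [hℓ', v's]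
      have e : dp (X i - v' i) (rt (ν' i)) = c' i * dp (X i - X (i + (n - 1))) (rt (A i)) := by
        simp only [hν', hv', dp, rt, Prod.smul_fst, Prod.smul_snd, smul_eq_mul]
        ring
      rw [e]
      exact mul_pos (c'pos i) h
    · intro i
      have e := frame (ν' i) (v' (i + 1) - v' i) (u' i)
      have e1 : dp (ν' i) (v' (i + 1) - v' i) = 0 := by
        simp only [hν', smul_dp, dp_sub, m1, m2]
        ring
      rw [e1, zero_smul, zero_add] at e
      simp only [hℓ']
      rw [← e]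
      abel
    · intro i j hi hj hij
      by_contra hne
      -- `v' j` is on the line `i`
      have e1 : dp (ν' i) (v' i) = dp (ν' j) (v' j) := by
        apply le_antisymm
        · rw [hij]; exact m4 j i
        · rw [← hij]; exact m4 i j
      have e2 : dp (A i) (v' j) = B i := by
        have e3 : dp (ν' i) (v' j) = dp (ν' i) (v' i) := by rw [e1, hij]
        rw [m3] at e3
        simp only [hν', smul_dp] at e3
        exact mul_left_cancel₀ (c'pos i).ne' e3
      have e4 : ¬ (i % n ≠ (j + (n - 1)) % n ∧ i % n ≠ (j + (n - 1) + 1) % n) := by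
        rintro ⟨q1, q2⟩
        have := g2 i (j + (n - 1)) q1 q2
        simp only [hv'] at e2
        linarith
      have e5 : i % n ≠ (j + (n - 1) + 1) % n := by
        rw [show j + (n - 1) + 1 = j + n by omega, Nat.add_mod_right, Nat.mod_eq_of_lt hi,
          Nat.mod_eq_of_lt hj]
        exact hne
      have e6 : i % n = (j + (n - 1)) % n := by
        by_contra q
        exact e4 ⟨q, e5⟩
      have e7 : (i + 1) % n = j % n := by
        have : (i + 1) % n = (j + (n - 1) + 1) % n := Nat.ModEq.add_right 1 e6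
        rw [this, show j + (n - 1) + 1 = j + n by omega, Nat.add_mod_right]
      have e8 := t' i
      rw [per_eq pν' e7, ← hij, cp_self] at e8
      exact lt_irrefl _ e8
  refine ⟨ν', v', ℓ', pp, ?_, ?_⟩
  · ext ξ
    simp only [mem_setOf_eq]
    constructor
    · intro h i
      rw [m3]
      simp only [hν', smul_dp]
      exact mul_le_mul_of_nonneg_left (h i) (c'pos i).le
    · intro h i
      have := h i
      rw [m3] at this
      simp only [hν', smul_dp] at this
      exact le_of_mul_le_mul_left this (c'pos i)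
  · intro r
    have h := sum_shift (n := n) (n - 1)
      (fun i => cp (X i) (X (i + 1)) / 2 * ((r.1 + af r (X i) + af r (X (i + 1))) / 3))
      (fun i => by simp only [pX, pX1])
    rw [J0, J0, ← h]
    refine Finset.sum_congr rfl fun i _ => ?_
    simp only [hv']
    rw [show i + 1 + (n - 1) = i + (n - 1) + 1 by ring]

end

section
variable {κ : Type} (N M : κ → R2) (b e : κ → ℝ) {n : ℕ} {ν v : ℕ → R2} {ℓ c : ℕ → ℝ} {kk : ℕ → κ}
  (D : PD N b n ν v ℓ c kk)

lemma Np_cont (k : κ) : Continuous (fun p : ℝ × ℝ => Np N M p.1 k) := by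
  unfold Np
  fun_prop

lemma bp_cont (k : κ) : Continuous (fun p : ℝ × ℝ => bp b e p.2 k) := by
  unfold bp
  fun_prop

lemma cp_cont {f g : ℝ × ℝ → R2} (hf : Continuous f) (hg : Continuous g) :
    Continuous (fun p => cp (f p) (g p)) := by
  unfold cp
  fun_prop

include D

lemma cpN (i : ℕ) : 0 < cp (N (kk i)) (N (kk (i + 1))) := by
  rw [D.hN, D.hN, cp_smul_smul]
  exact mul_pos (mul_pos (D.cpos _) (D.cpos _)) (D.poly.turn i)

lemma Np0 (k : κ) : Np N M 0 k = N k := by simp [Np]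
lemma bp0 (k : κ) : bp b e 0 k = b k := by simp [bp]

lemma dpN (i : ℕ) (x : R2) : dp (N (kk i)) x = c i * dp (ν i) x := by
  rw [D.hN, smul_dp]

lemma vx0 (i : ℕ) : vx N M b e kk 0 0 i = v (i + 1) := by
  have hc := cpN N b D i
  unfold vx
  rw [Np0 N M b D, Np0 N M b D, bp0 N b e D, bp0 N b e D]
  refine eq_of_dp (N (kk i)) (N (kk (i + 1))) _ _ hc.ne' ?_ ?_
  · rw [isx_left _ _ _ _ hc.ne', dpN N b D, edge_dp D.poly, D.hb]
  · rw [isx_right _ _ _ _ hc.ne', dpN N b D, D.hb]

lemma vx_cont (i : ℕ) :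
    ContinuousAt (fun p : ℝ × ℝ => vx N M b e kk p.1 p.2 i) ((0 : ℝ), (0 : ℝ)) := by
  have hc := cpN N b D i
  have c1 := Np_cont N M (kk i)
  have c2 := Np_cont N M (kk (i + 1))
  have c3 := bp_cont b e (kk i)
  have c4 := bp_cont b e (kk (i + 1))
  have hne : cp (Np N M 0 (kk i)) (Np N M 0 (kk (i + 1))) ≠ 0 := by
    rw [Np0 N M b D, Np0 N M b D]
    exact hc.ne'
  have d1 : ContinuousAt (fun p : ℝ × ℝ =>
      1 / cp (Np N M p.1 (kk i)) (Np N M p.1 (kk (i + 1)))) ((0 : ℝ), (0 : ℝ)) :=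
    ContinuousAt.div continuousAt_const (cp_cont c1 c2).continuousAt hne
  have d2 : ContinuousAt (fun p : ℝ × ℝ =>
      bp b e p.2 (kk (i + 1)) • rt (Np N M p.1 (kk i)) -
        bp b e p.2 (kk i) • rt (Np N M p.1 (kk (i + 1)))) ((0 : ℝ), (0 : ℝ)) := by
    apply Continuous.continuousAt
    unfold rt
    fun_prop
  exact ContinuousAt.smul d1 d2

lemma ev1 (i : ℕ) : ∀ᶠ p : ℝ × ℝ in 𝓝 ((0 : ℝ), (0 : ℝ)),
    0 < cp (Np N M p.1 (kk i)) (Np N M p.1 (kk (i + 1))) := by
  have c1 := Np_cont N M (kk i)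
  have c2 := Np_cont N M (kk (i + 1))
  have hc := cpN N b D i
  refine ContinuousAt.eventually_lt continuousAt_const (cp_cont c1 c2).continuousAt ?_
  show 0 < cp (Np N M 0 (kk i)) (Np N M 0 (kk (i + 1)))
  rw [Np0 N M b D, Np0 N M b D]
  exact hc

lemma dp_contAt {f g : ℝ × ℝ → R2} {x : ℝ × ℝ} (hf : ContinuousAt f x) (hg : ContinuousAt g x) :
    ContinuousAt (fun p => dp (f p) (g p)) x := by
  unfold dp
  exact (hf.fst.mul hg.fst).add (hf.snd.mul hg.snd)

lemma rt_contAt {f : ℝ × ℝ → R2} {x : ℝ × ℝ} (hf : ContinuousAt f x) :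
    ContinuousAt (fun p => rt (f p)) x := by
  unfold rt
  exact (hf.snd.neg).prodMk hf.fst

lemma ev2 (i k : ℕ) (h1 : i % n ≠ k % n) (h2 : i % n ≠ (k + 1) % n) :
    ∀ᶠ p : ℝ × ℝ in 𝓝 ((0 : ℝ), (0 : ℝ)),
      dp (Np N M p.1 (kk i)) (vx N M b e kk p.1 p.2 k) < bp b e p.2 (kk i) := by
  have c1 := Np_cont N M (kk i)
  have c3 := bp_cont b e (kk i)
  refine ContinuousAt.eventually_lt (dp_contAt N b D c1.continuousAt (vx_cont N M b e D k))
    c3.continuousAt ?_
  show dp (Np N M 0 (kk i)) (vx N M b e kk 0 0 k) < bp b e 0 (kk i)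
  rw [Np0 N M b D, bp0 N b e D, vx0 N M b e D, dpN N b D, D.hb]
  refine mul_lt_mul_of_pos_left ?_ (D.cpos i)
  refine lt_of_le_of_ne (D.poly.conv _ _) fun h => ?_
  rcases strict D.poly h with h | h
  · exact h1 h
  · exact h2 h

lemma ev3 (i : ℕ) : ∀ᶠ p : ℝ × ℝ in 𝓝 ((0 : ℝ), (0 : ℝ)),
    0 < dp (vx N M b e kk p.1 p.2 (i + 1) - vx N M b e kk p.1 p.2 i)
      (rt (Np N M p.1 (kk (i + 1)))) := by
  have c1 := Np_cont N M (kk (i + 1))
  refine ContinuousAt.eventually_lt continuousAt_const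
    (dp_contAt N b D ((vx_cont N M b e D (i + 1)).sub (vx_cont N M b e D i))
      (rt_contAt N b D c1.continuousAt)) ?_
  show 0 < dp (vx N M b e kk 0 0 (i + 1) - vx N M b e kk 0 0 i) (rt (Np N M 0 (kk (i + 1))))
  rw [Np0 N M b D, vx0 N M b e D, vx0 N M b e D, D.hN, D.poly.edge (i + 1)]
  have e : dp (v (i + 1) + ℓ (i + 1) • rt (ν (i + 1)) - v (i + 1))
      (rt (c (i + 1) • ν (i + 1))) = ℓ (i + 1) * c (i + 1) * dp (ν (i + 1)) (ν (i + 1)) := by
    simp only [dp, rt, Prod.smul_fst, Prod.smul_snd, smul_eq_mul, Prod.fst_add, Prod.snd_add,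
      Prod.fst_sub, Prod.snd_sub]
    ring
  rw [e, D.poly.unit, mul_one]
  exact mul_pos (D.poly.pos _) (D.cpos _)

end

end PPS

theorem blk_PPS : Stmt_ARE → Stmt_PPS := by
  intro ARE κ _ N M b e n ν v ℓ c kk D
  have hn0 : 0 < n := by have := D.poly.n3; omega
  have E1 : ∀ᶠ p : ℝ × ℝ in 𝓝 ((0 : ℝ), (0 : ℝ)), ∀ i ∈ Finset.range n,
      0 < cp (Np N M p.1 (kk i)) (Np N M p.1 (kk (i + 1))) :=
    (Filter.eventually_all_finset _).2 fun i _ => PPS.ev1 N M b D i
  have E2 : ∀ᶠ p : ℝ × ℝ in 𝓝 ((0 : ℝ), (0 : ℝ)), ∀ i ∈ Finset.range n, ∀ k ∈ Finset.range n,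
      i ≠ k → i ≠ (k + 1) % n →
      dp (Np N M p.1 (kk i)) (vx N M b e kk p.1 p.2 k) < bp b e p.2 (kk i) := by
    refine (Filter.eventually_all_finset _).2 fun i hi => ?_
    refine (Filter.eventually_all_finset _).2 fun k hk => ?_
    rw [Finset.mem_range] at hi hk
    by_cases h1 : i = k
    · exact Filter.Eventually.of_forall fun _ h => absurd h1 h
    by_cases h2 : i = (k + 1) % n
    · exact Filter.Eventually.of_forall fun _ _ h => absurd h2 h
    refine (PPS.ev2 N M b e D i k ?_ ?_).mono fun _ h _ _ => h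
    · rwa [Nat.mod_eq_of_lt hi, Nat.mod_eq_of_lt hk]
    · rwa [Nat.mod_eq_of_lt hi]
  have E3 : ∀ᶠ p : ℝ × ℝ in 𝓝 ((0 : ℝ), (0 : ℝ)), ∀ i ∈ Finset.range n,
      0 < dp (vx N M b e kk p.1 p.2 (i + 1) - vx N M b e kk p.1 p.2 i)
        (rt (Np N M p.1 (kk (i + 1)))) :=
    (Filter.eventually_all_finset _).2 fun i _ => PPS.ev3 N M b e D i
  obtain ⟨ε, hε, H⟩ := Metric.eventually_nhds_iff.1 (E1.and (E2.and E3))
  refine ⟨ε / 2, by linarith, fun τ s hτ hs => ?_⟩
  have hd : dist (τ, s) ((0 : ℝ), (0 : ℝ)) < ε := by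
    rw [Prod.dist_eq, Real.dist_eq, Real.dist_eq, sub_zero, sub_zero]
    exact max_lt (by linarith) (by linarith)
  obtain ⟨F1, F2, F3⟩ := H hd
  simp only [Finset.mem_range] at F1 F2 F3
  obtain ⟨G1, G2, ν', v', ℓ', pp, hset, hJ⟩ := PPS.assemble D.poly.n3
    (fun i => Np N M τ (kk i)) (vx N M b e kk τ s) (fun i => bp b e s (kk i))
    (fun i => by simp only [D.pk]) (fun i => by simp only [D.pk]) (fun i => rfl)
    F1 (fun i k hi hk => F2 i hi k hk) F3
  refine ⟨G1, G2, fun r => ?_⟩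
  rw [hset, (ARE n ν' v' ℓ' pp).2.2 r, hJ]

end Pool.G1
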