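import Pool.Agent.Work.MP_b5407d_g1.Interface
import Pool.Agent.Work.MP_b5407d_g1.MUS
import Pool.Agent.Work.MP_b5407d_t3.COO
import Pool.Agent.Work.MP_b5407d_t3.BND
import Pool.Agent.Work.MP_b5407d_t3.LAMF
import Pool.Agent.Work.MP_b5407d_t3.LAMC
import Pool.Agent.Work.MP_b5407d_t3.VIN
import Pool.Agent.Work.MP_b5407d_t3.SF
import Pool.Agent.Work.MP_b5407d_t3.HF
import Pool.Agent.Work.MP_b5407d_t3.HOM
import Pool.Agent.Work.MP_b5407d_t3.PAR
import Pool.Agent.Work.MP_b5407d_t3.DV1
import Pool.Agent.Work.MP_b5407d_t3.PARH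
import Pool.Agent.Work.MP_b5407d_t3.DVS

/-!
# G1, block QJT (helper45): the quadratic forms of T3 in terms of `mu`, `cc`
-/

set_option autoImplicit false

open MeasureTheory Set Filter Topology

namespace Pool.G1

open Pool.T3 (R3 dt cr de K V S H Fam Pos pt Lam Q J lin)

namespace QJT

/-- the volume is twice continuously differentiable (T3) -/
theorem t3_DVS : Pool.T3.Stmt_DVS := by
  have hCOO := Pool.T3.stmt_COO
  have hBND := Pool.T3.stmt_BND
  have hLAMF := Pool.T3.stmt_LAMF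
  have hLAMC := Pool.T3.stmt_LAMC hLAMF
  have hVIN := Pool.T3.stmt_VIN hCOO hBND hLAMC
  have hSF := Pool.T3.stmt_SF hVIN hLAMC
  have hHF := Pool.T3.stmt_HF hSF hLAMC
  have hHOM := Pool.T3.stmt_HOM hSF hHF hLAMC hBND
  have hPAR := Pool.T3.stmt_PAR
  have hDV1 := Pool.T3.stmt_DV1 hSF hLAMC hPAR
  have hPARH := Pool.T3.stmt_PARH hPAR
  exact Pool.T3.stmt_DVS hHOM hDV1 hHF hLAMC hPARH

/-- algebra of a symmetric matrix with given row sums -/
theorem energy {ι : Type} [Fintype ι] [DecidableEq ι] (a c : ι → ι → ℝ) (m w : ι → ℝ)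
    (hsym : ∀ i k, a i k = a k i) (hrow : ∀ i, ∑ k, a i k = 6 * m i)
    (hoff : ∀ i k, i ≠ k → a i k = c i k) :
    ∑ i, ∑ k, a i k * w i * w k =
      6 * (∑ i, m i * w i ^ 2) - 1 / 2 * ∑ i, ∑ k, c i k * (w i - w k) ^ 2 := by
  have h1 : ∑ i, ∑ k, c i k * (w i - w k) ^ 2 = ∑ i, ∑ k, a i k * (w i - w k) ^ 2 := by
    refine Finset.sum_congr rfl fun i _ => Finset.sum_congr rfl fun k _ => ?_
    by_cases hik : i = k
    · subst hik
      simp
    · rw [hoff i k hik]
  have h2 : ∑ i, ∑ k, a i k * w i ^ 2 = 6 * ∑ i, m i * w i ^ 2 := by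
    rw [Finset.mul_sum]
    refine Finset.sum_congr rfl fun i _ => ?_
    rw [← Finset.sum_mul, hrow i]
    ring
  have h3 : ∑ i, ∑ k, a i k * w k ^ 2 = 6 * ∑ i, m i * w i ^ 2 := by
    rw [Finset.sum_comm, ← h2]
    refine Finset.sum_congr rfl fun i _ => Finset.sum_congr rfl fun k _ => ?_
    rw [hsym k i]
  have h4 : ∑ i, ∑ k, a i k * (w i - w k) ^ 2 =
      (∑ i, ∑ k, a i k * w i ^ 2) + (∑ i, ∑ k, a i k * w k ^ 2) -
        2 * ∑ i, ∑ k, a i k * w i * w k := by
    rw [Finset.mul_sum, ← Finset.sum_add_distrib, ← Finset.sum_sub_distrib]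
    refine Finset.sum_congr rfl fun i _ => ?_
    rw [Finset.mul_sum, ← Finset.sum_add_distrib, ← Finset.sum_sub_distrib]
    refine Finset.sum_congr rfl fun k _ => ?_
    ring
  rw [h1, h4, h2, h3]
  ring

/-- the statement from `MUS` and T3 -/
theorem main (hMUS : Stmt_MUS) : Stmt_QJT := by
  intro ι _ _ u hu h hp f
  obtain ⟨hV, hS, hH⟩ := hMUS ι u hu h hp
  obtain ⟨-, -, -, hsym, -, hrow⟩ := t3_DVS ι u hu
  have hne : ∀ i, h i ≠ 0 := fun i => (hp i).ne'
  -- sums with `S`
  have e1 : ∑ i, S u h i * f i ^ 2 / h i = 3 * ∑ i, mu (dv u h) i * (f i / h i) ^ 2 := by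
    rw [Finset.mul_sum]
    refine Finset.sum_congr rfl fun i _ => ?_
    rw [← mul_assoc, ← hS i]
    field_simp [hne i]
  have e2 : ∑ i, S u h i * f i = 3 * ∑ i, mu (dv u h) i * (f i / h i) := by
    rw [Finset.mul_sum]
    refine Finset.sum_congr rfl fun i _ => ?_
    rw [← mul_assoc, ← hS i]
    field_simp [hne i]
  -- the Hessian
  have e3 : (∑ i, ∑ k, H u h i k * f i * f k) =
      6 * (∑ i, mu (dv u h) i * (f i / h i) ^ 2) - En (dv u h) (fun i => f i / h i) := by
    have h1 := energy (fun i k => H u h i k * (h i * h k)) (fun i k => cc (dv u h) i k)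
      (fun i => mu (dv u h) i) (fun i => f i / h i)
      (fun i k => by
        show H u h i k * (h i * h k) = H u h k i * (h k * h i)
        rw [hsym h hp i k]
        ring)
      (fun i => by
        show ∑ k, H u h i k * (h i * h k) = 6 * mu (dv u h) i
        have h2 : ∑ k, H u h i k * (h i * h k) = h i * ∑ k, H u h i k * h k := by
          rw [Finset.mul_sum]
          refine Finset.sum_congr rfl fun k _ => ?_
          ring
        rw [h2, hrow h hp i]
        have h3 := hS i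
        linarith)
      (fun i k hik => hH i k hik)
    have h2 : (∑ i, ∑ k, H u h i k * f i * f k) =
        ∑ i, ∑ k, H u h i k * (h i * h k) * (f i / h i) * (f k / h k) := by
      refine Finset.sum_congr rfl fun i _ => Finset.sum_congr rfl fun k _ => ?_
      have hi := hne i
      have hk := hne k
      field_simp
    rw [h2]
    exact h1
  refine ⟨?_, e3, ?_⟩
  · unfold Q Qm
    rw [e1, e2, hV]
    ring
  · unfold J Qm
    rw [e3, e2, hV]
    ring

end QJT

/-- block `QJT` -/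
theorem blk_QJT : Stmt_QJT := QJT.main blk_MUS

end Pool.G1
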