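import Pool.Agent.Work.MP_b5407d_g1.GIN

/-!
# Block `RAW` of G1: the inequality in a facet (helper55)
-/

set_option autoImplicit false

open MeasureTheory Set Filter Topology

namespace Pool.G1

open Pool.T3 (R3 dt cr de K V S H Fam Pos pt Lam Q J lin)

namespace RAW

theorem yt_tendsto {ι : Type} [DecidableEq ι] (y : ι → R3) (j : ι) (b : R3) :
    Tendsto (fun τ : ℝ => yt y j b τ) (𝓝 0) (𝓝 y) := by
  have hc : Continuous (fun τ : ℝ => yt y j b τ) := by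
    unfold yt
    exact continuous_const.update j (by fun_prop)
  have h0 : yt y j b 0 = y := by
    unfold yt
    rw [zero_smul, add_zero, Function.update_eq_self]
  have := hc.tendsto 0
  rw [h0] at this
  exact this

theorem dv_one {ι : Type} (y : ι → R3) (w : ι → ℝ) : dv y (fun i => 1 + 0 * w i) = y := by
  funext i
  unfold dv
  simp

theorem small {ι : Type} [Fintype ι] (w : ι → ℝ) (τ0 : ℝ) (h : 0 < τ0) :
    ∀ᶠ s : ℝ in 𝓝 0, ∀ i, |s * w i| ≤ τ0 := by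
  rw [eventually_all]
  intro i
  have : Tendsto (fun s : ℝ => |s * w i|) (𝓝 0) (𝓝 0) := by
    have h1 : Continuous (fun s : ℝ => |s * w i|) := by fun_prop
    have := h1.tendsto 0
    simpa using this
  filter_upwards [this.eventually (eventually_lt_nhds h)] with s hs using hs.le

/-- the second difference of the volume after the tilt -/
theorem sd (hTIL : Stmt_TIL) (hFCQ : Stmt_FCQ) (hPLN : Stmt_PLN) {ι : Type} [Fintype ι]
    [DecidableEq ι] (y : ι → R3) (w : ι → ℝ) (hy : Good y) (j : ι) (n0 p1 p2 : R3)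
    (hch : Chart y j n0 p1 p2) (n : ℕ) (ν v : ℕ → R2) (ℓ c : ℕ → ℝ)
    (kk : ℕ → {l : ι // l ≠ j} × Bool) (hPD : PD (FN y j p1 p2) (Fb y j n0) n ν v ℓ c kk)
    (β : R2) (hβ : ∀ i, 0 < dp β (v i)) (η : ℝ) (hη : 0 < η) :
    ∃ τ0 : ℝ, 0 < τ0 ∧ ∀ τ : ℝ, 0 ≤ τ → τ ≤ τ0 → ∀ᶠ s : ℝ in 𝓝 0,
      (vo (dv y (fun i => 1 + s * w i)) + vo (dv y (fun i => 1 + (-s) * w i)) - 2 * vo y) -
        2 * de n0 p1 p2 * (τ * (s ^ 2 *
          (J2 n ν v ℓ (0, β) (fun i => Fe y j n0 w (kk i) / c i) + η))) ≤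
      vo (dv (yt y j (tb n0 p1 p2 β) τ) (fun i => 1 + s * w i)) +
        vo (dv (yt y j (tb n0 p1 p2 β) τ) (fun i => 1 + (-s) * w i)) -
        2 * vo (yt y j (tb n0 p1 p2 β) τ) := by
  obtain ⟨t1, ht1, h1⟩ := hTIL ι y hy j n0 p1 p2 hch β
  obtain ⟨t2, ht2, h2⟩ := hPLN _ (FN y j p1 p2) (FM y j n0 β) (Fb y j n0) (Fe y j n0 w) n ν v ℓ c kk
    hPD (0, β) (fun i => by unfold af; rw [zero_add]; exact hβ i) η hη
  obtain ⟨t3, ht3, C, hC, h3⟩ := GIN.ii y hy.bd j n0 p1 p2 hch β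
  refine ⟨min t1 (min t2 t3), lt_min ht1 (lt_min ht2 ht3), fun τ hτ0 hτ => ?_⟩
  have hτ1 : τ ≤ t1 := hτ.trans (min_le_left _ _)
  have hτ2 : τ ≤ t2 := hτ.trans ((min_le_right _ _).trans (min_le_left _ _))
  have hτ3 : τ ≤ t3 := hτ.trans ((min_le_right _ _).trans (min_le_right _ _))
  have hs2 : ∀ᶠ s : ℝ in 𝓝 0, |s| ≤ t2 := by
    have : Tendsto (fun s : ℝ => |s|) (𝓝 0) (𝓝 0) := by
      have := (continuous_abs).tendsto (0 : ℝ)
      simpa using this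
    filter_upwards [this.eventually (eventually_lt_nhds ht2)] with s hs using hs.le
  filter_upwards [small w t1 ht1, small w t3 ht3, hs2] with s g1 g3 g2
  set G : ℝ → ℝ → ℝ := fun σ t => ∫ ξ in Fc y j n0 p1 p2 β (fun i => 1 + σ * w i) t, dp β ξ with hG
  have hbase : ∀ σ : ℝ, (∀ i, |σ * w i| ≤ t1) → vo (dv (yt y j (tb n0 p1 p2 β) τ)
      (fun i => 1 + σ * w i)) = vo (dv y (fun i => 1 + σ * w i)) -
        2 * de n0 p1 p2 * ∫ t in (0 : ℝ)..τ, G σ t := by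
    intro σ hσ
    have := h1 τ (fun i => 1 + σ * w i) (by rw [abs_of_nonneg hτ0]; exact hτ1)
      (fun i => by rw [add_sub_cancel_left]; exact hσ i)
    exact this
  have hint : ∀ σ : ℝ, (∀ i, |σ * w i| ≤ t3) → IntervalIntegrable (G σ) volume 0 τ := by
    intro σ hσ
    exact (h3 (fun i => 1 + σ * w i) τ (by rw [abs_of_nonneg hτ0]; exact hτ3)
      (fun i => by rw [add_sub_cancel_left]; exact hσ i)).2
  have m1 : ∀ i, |(-s) * w i| ≤ t1 := fun i => by rw [neg_mul, abs_neg]; exact g1 i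
  have m3 : ∀ i, |(-s) * w i| ≤ t3 := fun i => by rw [neg_mul, abs_neg]; exact g3 i
  have z1 : ∀ i, |(0 : ℝ) * w i| ≤ t1 := fun i => by rw [zero_mul, abs_zero]; exact ht1.le
  have z3 : ∀ i, |(0 : ℝ) * w i| ≤ t3 := fun i => by rw [zero_mul, abs_zero]; exact ht3.le
  have b0 := hbase 0 z1
  rw [dv_one, dv_one] at b0
  rw [hbase s g1, hbase (-s) m1, b0]
  have i1 := hint s g3
  have i2 := hint (-s) m3
  have i3 := hint 0 z3
  have hsum : (∫ t in (0 : ℝ)..τ, G s t) + (∫ t in (0 : ℝ)..τ, G (-s) t) -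
      2 * (∫ t in (0 : ℝ)..τ, G 0 t) = ∫ t in (0 : ℝ)..τ, (G s t + G (-s) t - 2 * G 0 t) := by
    rw [intervalIntegral.integral_sub (i1.add i2) (i3.const_mul 2),
      intervalIntegral.integral_add i1 i2, intervalIntegral.integral_const_mul]
  have hGP : ∀ σ t : ℝ, G σ t = ∫ ξ in PP (FN y j p1 p2) (FM y j n0 β) (Fb y j n0) (Fe y j n0 w) t σ,
      af (0, β) ξ := by
    intro σ t
    simp only [hG]
    rw [hFCQ]
    simp only [af, zero_add]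
  have hle : ∫ t in (0 : ℝ)..τ, (G s t + G (-s) t - 2 * G 0 t) ≤
      ∫ _t in (0 : ℝ)..τ, s ^ 2 * (J2 n ν v ℓ (0, β) (fun i => Fe y j n0 w (kk i) / c i) + η) := by
    refine intervalIntegral.integral_mono_on hτ0 ((i1.add i2).sub (i3.const_mul 2))
      intervalIntegrable_const fun t ht => ?_
    rw [hGP, hGP, hGP]
    exact (h2 t s (by rw [abs_of_nonneg ht.1]; exact ht.2.trans hτ2) g2).2
  rw [intervalIntegral.integral_const, sub_zero, smul_eq_mul, ← hsum] at hle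
  have hd := hch.hd
  have := mul_le_mul_of_nonneg_left hle (show 0 ≤ 2 * de n0 p1 p2 by linarith)
  linarith

/-- the arithmetic at the end -/
theorem fin_arith (κ0 τ s ε η m2 m2τ A Vτ V0 C J2w J1w2 D Dτ : ℝ) (hκ : 0 < κ0) (hτ : 0 < τ)
    (hs : s ≠ 0) (hε0 : 0 < ε) (hε1 : ε < 1) (hη : 0 < η) (hV0 : 0 < V0) (hVτ : V0 / 2 < Vτ)
    (hA : |A| ≤ C * τ)
    (h1 : s ^ 2 / 2 * (-(2 * ε * m2)) - 2 * (κ0 * η * τ * s ^ 2) ≤ D)
    (h2 : Dτ ≤ s ^ 2 * (3 * (2 + ε) * A ^ 2 / Vτ - ε * m2τ + κ0 * η * τ))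
    (h3 : D - 2 * κ0 * (τ * (s ^ 2 * (J2w + η))) ≤ Dτ)
    (h4 : m2 - 2 * κ0 * τ * J1w2 - κ0 * η * τ ≤ m2τ)
    (h5 : 9 * C ^ 2 * τ ≤ κ0 * V0 * (-(J2w + ε * J1w2)) / 4)
    (h6 : η = -(J2w + ε * J1w2) / 6) : 0 ≤ J2w + ε * J1w2 := by
  have hs2 : 0 < s ^ 2 := by positivity
  have hVp : 0 < Vτ := by linarith
  have hA2 : A ^ 2 ≤ C ^ 2 * τ ^ 2 := by
    rw [← mul_pow]
    exact sq_le_sq' (by have := neg_abs_le A; linarith) ((le_abs_self A).trans hA)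
  have hq : 3 * (2 + ε) * A ^ 2 / Vτ ≤ 18 * (C ^ 2 * τ ^ 2) / V0 := by
    rw [div_le_div_iff₀ hVp hV0]
    have k1 : 3 * (2 + ε) * A ^ 2 ≤ 9 * (C ^ 2 * τ ^ 2) := by
      have : 3 * (2 + ε) ≤ 9 := by linarith
      calc 3 * (2 + ε) * A ^ 2 ≤ 9 * A ^ 2 := mul_le_mul_of_nonneg_right this (sq_nonneg _)
        _ ≤ 9 * (C ^ 2 * τ ^ 2) := by linarith
    calc 3 * (2 + ε) * A ^ 2 * V0 ≤ 9 * (C ^ 2 * τ ^ 2) * V0 :=
          mul_le_mul_of_nonneg_right k1 hV0.le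
      _ ≤ 9 * (C ^ 2 * τ ^ 2) * (2 * Vτ) :=
          mul_le_mul_of_nonneg_left (by linarith) (by positivity)
      _ = 18 * (C ^ 2 * τ ^ 2) * Vτ := by ring
  -- divide by s^2
  have e1 : s ^ 2 * (-(ε * m2) - 2 * (κ0 * η * τ) - 2 * κ0 * τ * (J2w + η)) ≤
      s ^ 2 * (3 * (2 + ε) * A ^ 2 / Vτ - ε * m2τ + κ0 * η * τ) := by
    have : s ^ 2 * (-(ε * m2) - 2 * (κ0 * η * τ) - 2 * κ0 * τ * (J2w + η)) =
      s ^ 2 / 2 * (-(2 * ε * m2)) - 2 * (κ0 * η * τ * s ^ 2) -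
        2 * κ0 * (τ * (s ^ 2 * (J2w + η))) := by ring
    rw [this]; linarith
  have e2 := le_of_mul_le_mul_left e1 hs2
  have e3 : -(ε * m2τ) ≤ -(ε * m2) + ε * (2 * κ0 * τ * J1w2) + ε * (κ0 * η * τ) := by
    have := mul_le_mul_of_nonneg_left h4 hε0.le
    linarith
  have hκητ : 0 < κ0 * η * τ := by positivity
  have e4 : ε * (κ0 * η * τ) ≤ κ0 * η * τ := by
    calc ε * (κ0 * η * τ) ≤ 1 * (κ0 * η * τ) := mul_le_mul_of_nonneg_right hε1.le hκητ.le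
      _ = _ := one_mul _
  -- -2 κ0 τ (J2w + ε J1w2) ≤ 6 κ0 η τ + 18 C² τ² / V0
  have e5 : 2 * κ0 * τ * (-(J2w + ε * J1w2)) ≤ 6 * (κ0 * η * τ) + 18 * (C ^ 2 * τ ^ 2) / V0 := by
    have : 2 * κ0 * τ * (-(J2w + ε * J1w2)) = -(2 * κ0 * τ * (J2w + η)) + 2 * (κ0 * η * τ) -
      ε * (2 * κ0 * τ * J1w2) := by ring
    linarith
  have e6 : 18 * (C ^ 2 * τ ^ 2) / V0 ≤ κ0 * τ * (-(J2w + ε * J1w2)) / 2 := by
    rw [div_le_iff₀ hV0]
    have := mul_le_mul_of_nonneg_left h5 (show 0 ≤ 2 * τ by linarith)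
    linarith
  have e7 : 6 * (κ0 * η * τ) = κ0 * τ * (-(J2w + ε * J1w2)) := by rw [h6]; ring
  rw [e7] at e5
  have e8 : κ0 * τ * (-(J2w + ε * J1w2)) ≤ 0 := by linarith
  have e9 : 0 < κ0 * τ := by positivity
  have e10 : -(J2w + ε * J1w2) ≤ 0 := by
    by_contra hh
    have := mul_pos e9 (not_le.mp hh)
    linarith
  linarith

end RAW

theorem blk_RAW (hMUT : Stmt_MUT) (hTN2 : Stmt_TN2) (hC2G : Stmt_C2G) (hTIL : Stmt_TIL)
    (hFCQ : Stmt_FCQ) (hPLN : Stmt_PLN) (hGOP : Stmt_GOP) (hCTV : Stmt_CTV) (hBAS : Stmt_BAS) :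
    Stmt_RAW := by
  intro N ε hε0 hε1 hLI ι _ _ hcard y w hy hw0 hext j n0 p1 p2 hch n ν v ℓ c kk hPD β hβ
  by_contra hneg
  rw [not_le] at hneg
  have hκ0 : 0 < de n0 p1 p2 := hch.hd
  set κ0 := de n0 p1 p2 with hκ0def
  set J2w := J2 n ν v ℓ (0, β) (fun i => Fe y j n0 w (kk i) / c i) with hJ2w
  set J1w2 := J1 n v ℓ (0, β) (fun i => Fe y j n0 (fun i => w i ^ 2) (kk i) / c i) with hJ1w2
  set J1w := J1 n v ℓ (0, β) (fun i => Fe y j n0 w (kk i) / c i) with hJ1w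
  have hE : 0 < -(J2w + ε * J1w2) := by linarith
  set η : ℝ := -(J2w + ε * J1w2) / 6 with hηdef
  have hη : 0 < η := by rw [hηdef]; positivity
  have hV0 : 0 < vo y := (hBAS ι y hy.toNpb ⟨j⟩).1
  set b := tb n0 p1 p2 β with hb
  set C : ℝ := (1 + 2 * κ0 * |J1w|) / 3 with hC
  have hC0 : 0 < C := by positivity
  obtain ⟨t1, ht1, h1⟩ := RAW.sd hTIL hFCQ hPLN y w hy j n0 p1 p2 hch n ν v ℓ c kk hPD β hβ η hη
  obtain ⟨t2, ht2, h2⟩ := hMUT ι y hy j n0 p1 p2 hch n ν v ℓ c kk hPD β hβ w 1 one_pos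
  obtain ⟨t3, ht3, h3⟩ := hMUT ι y hy j n0 p1 p2 hch n ν v ℓ c kk hPD β hβ (fun i => w i ^ 2)
    (κ0 * η) (mul_pos hκ0 hη)
  have hgood : ∀ᶠ τ : ℝ in 𝓝 0, Good (yt y j b τ) :=
    (RAW.yt_tendsto y j b).eventually (hGOP ι y hy)
  have hvol : ∀ᶠ τ : ℝ in 𝓝 0, vo y / 2 < vo (yt y j b τ) := by
    have hc := (hCTV.1 ι y hy.bd).1
    have := (hc.tendsto.comp (RAW.yt_tendsto y j b)).eventually
      (eventually_gt_nhds (show vo y / 2 < vo y by linarith))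
    exact this
  have hsm : ∀ x : ℝ, 0 < x → ∀ᶠ τ : ℝ in 𝓝[>] (0 : ℝ), τ < x := fun x hx =>
    (eventually_lt_nhds hx).filter_mono nhdsWithin_le_nhds
  have hX : 0 < κ0 * vo y * (-(J2w + ε * J1w2)) / 4 / (9 * C ^ 2) := by positivity
  obtain ⟨τ, hg, hv, q1, q2, q3, q4, hτ⟩ := ((hgood.filter_mono nhdsWithin_le_nhds).and
    ((hvol.filter_mono nhdsWithin_le_nhds).and ((hsm _ ht1).and ((hsm _ ht2).and ((hsm _ ht3).and
    ((hsm _ hX).and (self_mem_nhdsWithin : ∀ᶠ m : ℝ in 𝓝[>] (0 : ℝ), m ∈ Ioi (0 : ℝ)))))))).exists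
  have hτ0 : 0 < τ := hτ
  have c1 := h1 τ hτ0.le q1.le
  have hκητ : 0 < κ0 * η * τ := by positivity
  have c2 := hTN2 N ε hε0 hε1 hLI ι hcard (yt y j b τ) hg w (κ0 * η * τ) hκητ
  have c3 := hC2G ι y hy w (κ0 * η * τ) hκητ
  have c3' : ∀ᶠ s : ℝ in 𝓝 0, |vo (dv y (fun i => 1 + (-s) * w i)) - vo y -
      3 * (-s) * (∑ i, mu y i * w i) -
      (-s) ^ 2 / 2 * (6 * (∑ i, mu y i * w i ^ 2) - En y w)| ≤ κ0 * η * τ * (-s) ^ 2 := by
    have : Tendsto (fun s : ℝ => -s) (𝓝 0) (𝓝 0) := by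
      have := (continuous_neg).tendsto (0 : ℝ)
      simpa using this
    exact this.eventually c3
  obtain ⟨s, d1, d2, d3, d4, hs⟩ := ((c1.filter_mono nhdsWithin_le_nhds).and
    ((c2.filter_mono nhdsWithin_le_nhds).and ((c3.filter_mono nhdsWithin_le_nhds).and
    ((c3'.filter_mono nhdsWithin_le_nhds).and
    (self_mem_nhdsWithin : ∀ᶠ m : ℝ in 𝓝[≠] (0 : ℝ), m ∈ ({0}ᶜ : Set ℝ)))))).exists
  have hs0 : s ≠ 0 := hs
  have eneg : (fun i => 1 - s * w i) = fun i => 1 + (-s) * w i := by funext i; ring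
  rw [eneg] at d2
  -- moments
  have e2 := h2 τ hτ0.le q2.le
  have e3 := h3 τ hτ0.le q3.le
  rw [hw0, mul_zero, sub_zero] at e2
  have hQm : Qm y w = 3 * (∑ i, mu y i * w i ^ 2) := by
    unfold Qm
    rw [hw0]; simp
  rw [hext, hQm, hw0, mul_zero, sub_zero] at d3 d4
  have A1 : |∑ i, mu (yt y j b τ) i * w i| ≤ C * τ := by
    have f1 : |3 * (∑ i, mu (yt y j b τ) i * w i)| ≤ 1 * τ + 2 * κ0 * τ * |J1w| := by
      have g1 : 3 * (∑ i, mu (yt y j b τ) i * w i) =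
          (3 * (∑ i, mu (yt y j b τ) i * w i) + 2 * κ0 * τ * J1w) - 2 * κ0 * τ * J1w := by ring
      rw [g1]
      refine (abs_sub _ _).trans (add_le_add e2 ?_)
      rw [abs_mul, abs_of_pos (show 0 < 2 * κ0 * τ by positivity)]
    rw [abs_mul, abs_of_pos (show (0 : ℝ) < 3 by norm_num)] at f1
    rw [hC, div_mul_eq_mul_div, le_div_iff₀ (by norm_num)]
    linarith
  have M1 : 3 * (∑ i, mu y i * w i ^ 2) - 2 * κ0 * τ * J1w2 - κ0 * η * τ ≤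
      3 * (∑ i, mu (yt y j b τ) i * w i ^ 2) := by
    have := (abs_le.mp e3).1
    linarith
  refine absurd (RAW.fin_arith κ0 τ s ε η (3 * (∑ i, mu y i * w i ^ 2))
    (3 * (∑ i, mu (yt y j b τ) i * w i ^ 2)) (∑ i, mu (yt y j b τ) i * w i) (vo (yt y j b τ)) (vo y)
    C J2w J1w2 (vo (dv y (fun i => 1 + s * w i)) + vo (dv y (fun i => 1 + (-s) * w i)) - 2 * vo y)
    (vo (dv (yt y j b τ) (fun i => 1 + s * w i)) + vo (dv (yt y j b τ) (fun i => 1 + (-s) * w i)) -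
      2 * vo (yt y j b τ)) hκ0 hτ0 hs0 hε0 hε1 hη hV0 hv A1 ?_ ?_ d1 M1 ?_ rfl) (not_le.mpr hneg)
  · have g3 := (abs_le.mp d3).1
    have g4 := (abs_le.mp d4).1
    rw [neg_sq] at g4
    linarith
  · have : s ^ 2 * (3 * (2 + ε) * (∑ i, mu (yt y j b τ) i * w i) ^ 2 / vo (yt y j b τ) -
        3 * ε * (∑ i, mu (yt y j b τ) i * w i ^ 2) + κ0 * η * τ) =
      s ^ 2 * (3 * (2 + ε) * (∑ i, mu (yt y j b τ) i * w i) ^ 2 / vo (yt y j b τ) -
        ε * (3 * (∑ i, mu (yt y j b τ) i * w i ^ 2)) + κ0 * η * τ) := by ring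
    rw [← this]
    exact d2
  · have := q4.le
    rw [le_div_iff₀ (by positivity)] at this
    linarith

end Pool.G1
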