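import Pool.Agent.Work.MP_b5407d_g1.Interface

/-!
# G1, block RDM (helper2): a facet with `mu = 0` can be removed
-/

set_option autoImplicit false

open MeasureTheory Set Filter Topology

namespace Pool.G1

open Pool.T3 (R3 dt cr de K V S H Fam Pos pt Lam Q J lin)

theorem blk_RDM (hRED : Pool.T3.Stmt_RED) (hDVS : Pool.T3.Stmt_DVS) (hFGN : Stmt_FGN)
    (hMUS : Stmt_MUS) : Stmt_RDM := by
  intro ι _ _ y hy k hk
  obtain ⟨u, h, hu, hh, rfl⟩ := hFGN.1 ι y hy
  obtain ⟨m1, m2, m3⟩ := hMUS ι u hu h hh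
  have hSk : S u h k = 0 := by
    have h1 := m2 k
    rw [hk, mul_zero] at h1
    exact (mul_eq_zero.mp h1).resolve_right (hh k).ne'
  obtain ⟨r1, r2, r3, r4, r5⟩ := hRED ι u hu h hh k hSk
  have hsym := (hDVS ι u hu).2.2.2.1 h hh
  have hh' : Pos (fun i : {i // i ≠ k} => h i) := fun i => hh i
  obtain ⟨n1, n2, n3⟩ := hMUS {i // i ≠ k} (fun i : {i // i ≠ k} => u i) r1 (fun i => h i) hh'
  have hdv : (fun i : {i // i ≠ k} => dv u h i) =
      dv (fun i : {i // i ≠ k} => u i) (fun i : {i // i ≠ k} => h i) := rfl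
  refine ⟨?_, ?_, ?_, ?_, ?_⟩
  · rw [hdv]
    exact hFGN.2.1 _ _ _ r1 hh'
  · rw [hdv, ← n1, ← m1]
    exact r2
  · intro i
    rw [hdv]
    have h1 := n2 i
    have h2 := m2 (i : ι)
    have h3 := r3 i
    rw [h3] at h1
    have h4 : 3 * mu (dv (fun i : {i // i ≠ k} => u i) (fun i : {i // i ≠ k} => h i)) i =
        3 * mu (dv u h) i := by
      rw [← h1, ← h2]
    linarith
  · intro i j hij
    rw [hdv]
    have h1 := n3 i j hij
    have hij' : (i : ι) ≠ j := fun e => hij (Subtype.ext e)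
    have h2 := m3 i j hij'
    rw [← h1, ← h2, r4 i j]
  · intro j hj
    refine ⟨?_, ?_⟩
    · rw [← m3 k j (Ne.symm hj), r5 j, zero_mul]
    · rw [← m3 j k hj, hsym j k, r5 j, zero_mul]

end Pool.G1
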