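import Pool.Agent.Work.MP_b5407d_g1.CTV

/-!
# G1, block `SEL` (helper94): essential subfamily of a normalised family
-/

set_option autoImplicit false

open MeasureTheory Set Filter Topology

namespace Pool.G1

open Pool.T3 (R3 dt cr de K V S H Fam Pos pt Lam Q J lin)

namespace SEL

/-- the subfamily `T` has the same body -/
def P {ι : Type} (y : ι → R3) (T : Finset ι) : Prop :=
  ∀ x, (∀ i ∈ T, |dt (y i) x| ≤ 1) → ∀ i, |dt (y i) x| ≤ 1

theorem exists_min {ι : Type} [Fintype ι] (y : ι → R3) :
    ∃ T : Finset ι, P y T ∧ ∀ T', P y T' → T.card ≤ T'.card := by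
  classical
  obtain ⟨T, hT, hmin⟩ := Finset.exists_min_image (Finset.univ.filter fun T : Finset ι => P y T)
    Finset.card ⟨Finset.univ, by
      rw [Finset.mem_filter]
      exact ⟨Finset.mem_univ _, fun x hx i => hx i (Finset.mem_univ i)⟩⟩
  rw [Finset.mem_filter] at hT
  exact ⟨T, hT.2, fun T' hT' => hmin T' (Finset.mem_filter.mpr ⟨Finset.mem_univ _, hT'⟩)⟩

/-- the members of a minimal family are essential -/
theorem ess {ι : Type} [DecidableEq ι] (y : ι → R3) (T : Finset ι) (hT : P y T)
    (hmin : ∀ T', P y T' → T.card ≤ T'.card) (k : ι) (hk : k ∈ T) :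
    ∃ x : R3, 1 < |dt (y k) x| ∧ ∀ l ∈ T, l ≠ k → |dt (y l) x| ≤ 1 := by
  have h1 : ¬ P y (T.erase k) := by
    intro h
    have := hmin _ h
    have h2 := Finset.card_erase_lt_of_mem hk
    omega
  unfold P at h1
  push Not at h1
  obtain ⟨x, hx, j, hj⟩ := h1
  refine ⟨x, ?_, fun l hl hlk => hx l (Finset.mem_erase.mpr ⟨hlk, hl⟩)⟩
  by_contra hno
  push Not at hno
  have h3 : ∀ i ∈ T, |dt (y i) x| ≤ 1 := by
    intro i hi
    by_cases hik : i = k
    · rw [hik]; exact hno
    · exact hx i (Finset.mem_erase.mpr ⟨hik, hi⟩)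
  have := hT x h3 j
  linarith

/-- the maximum over all is attained in `T` -/
theorem dom {ι : Type} [Fintype ι] (y : ι → R3) (T : Finset ι) (hT : P y T)
    (hb : ∀ x ∈ KK y, ∀ k, |x k| ≤ 1) (x : R3) (l : ι) : ∃ i ∈ T, |dt (y l) x| ≤ |dt (y i) x| := by
  by_contra hno
  push Not at hno
  by_cases hTe : T.Nonempty
  · obtain ⟨i0, hi0, hmax⟩ := Finset.exists_max_image T (fun i => |dt (y i) x|) hTe
    have hlt := hno i0 hi0
    have hm : 0 ≤ |dt (y i0) x| := abs_nonneg _
    set m := |dt (y i0) x| with hmdef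
    set M := |dt (y l) x| with hMdef
    have hpos : 0 < m + M := by linarith
    have hin : ∀ i ∈ T, |dt (y i) ((2 / (m + M)) • x)| ≤ 1 := by
      intro i hi
      rw [CTV.dt_smul, abs_mul, abs_of_pos (by positivity), div_mul_eq_mul_div,
        div_le_one hpos]
      have := hmax i hi
      linarith
    have h1 := hT _ hin l
    rw [CTV.dt_smul, abs_mul, abs_of_pos (by positivity), div_mul_eq_mul_div,
      div_le_one hpos] at h1
    linarith
  · -- `T` empty: the body is unbounded
    rw [Finset.not_nonempty_iff_eq_empty] at hTe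
    have hall : ∀ x : R3, x ∈ KK y := fun x i => hT x (by rw [hTe]; simp) i
    have h1 := hb (fun _ => 2) (hall _) 0
    norm_num at h1

theorem KK_bdd_vol {ι : Type} (y : ι → R3) (hb : ∀ x ∈ KK y, ∀ k, |x k| ≤ 1) :
    volume (KK y) < ⊤ := by
  have h1 : KK y ⊆ Set.Icc (fun _ => (-1 : ℝ)) (fun _ => (1 : ℝ)) := by
    intro x hx
    exact ⟨fun k => (abs_le.mp (hb x hx k)).1, fun k => (abs_le.mp (hb x hx k)).2⟩
  exact lt_of_le_of_lt (measure_mono h1) isCompact_Icc.measure_lt_top

theorem dt_sub_left (a b x : R3) : dt (a - b) x = dt a x - dt b x := by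
  simp only [dt, Pi.sub_apply]; ring

theorem dt_add_left (a b x : R3) : dt (a + b) x = dt a x + dt b x := by
  simp only [dt, Pi.add_apply]; ring

/-- if `cr a b = 0` then `dt a x` and `dt b x` are proportional with a common ratio -/
theorem par {a b : R3} (h : cr a b = 0) (x x' : R3) :
    dt a x * dt b x' = dt b x * dt a x' := by
  have h0 : a 1 * b 2 - a 2 * b 1 = 0 := congrFun h 0
  have h1 : a 2 * b 0 - a 0 * b 2 = 0 := congrFun h 1
  have h2 : a 0 * b 1 - a 1 * b 0 = 0 := congrFun h 2
  simp only [dt]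
  linear_combination (x 0 * x' 1 - x 1 * x' 0) * h2 + (x 1 * x' 2 - x 2 * x' 1) * h0 +
    (x 2 * x' 0 - x 0 * x' 2) * h1

end SEL

theorem blk_SEL : Stmt_SEL := by
  intro ι _ _ y hy
  obtain ⟨T, hT, hmin⟩ := SEL.exists_min y
  have hess := SEL.ess y T hT hmin
  refine ⟨{i // i ∈ T}, inferInstance, inferInstance, fun i => i.1, ⟨?_, ?_, ?_⟩, ?_, ?_⟩
  · exact Subtype.val_injective
  · ext x
    constructor
    · intro hx i
      exact hT x (fun j hj => hx ⟨j, hj⟩) i
    · intro hx i
      exact hx i.1
  · intro l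
    by_cases hl : ∃ i' : {i // i ∈ T}, y l = y i'.1 ∨ y l = -(y i'.1)
    · exact Or.inl hl
    · refine Or.inr ?_
      push Not at hl
      have hsub : co y l ⊆ ⋃ i : {i // i ∈ T},
          ({x : R3 | dt (y l - y i.1) x = 0} ∪ {x : R3 | dt (y l + y i.1) x = 0}) := by
        intro x hx
        obtain ⟨i, hi, hle⟩ := SEL.dom y T hT hy.cub x l
        have hge : |dt (y i) x| ≤ |dt (y l) x| := hx.2 i
        have heq : |dt (y l) x| = |dt (y i) x| := le_antisymm hle hge
        rw [mem_iUnion]
        refine ⟨⟨i, hi⟩, ?_⟩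
        rcases abs_eq_abs.mp heq with h | h
        · left
          change dt (y l - y i) x = 0
          rw [SEL.dt_sub_left, h, sub_self]
        · right
          change dt (y l + y i) x = 0
          rw [SEL.dt_add_left, h]; ring
      refine measure_mono_null hsub ?_
      rw [measure_iUnion_null_iff]
      intro i
      refine measure_union_null ?_ ?_
      · refine CTV.null_plane _ _ (Or.inl ?_)
        intro h
        exact (hl i).1 (sub_eq_zero.mp h)
      · refine CTV.null_plane _ _ (Or.inl ?_)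
        intro h
        exact (hl i).2 (eq_neg_of_add_eq_zero_left h)
  · -- Good
    have hKK : ∀ x ∈ KK (fun i' : {i // i ∈ T} => y i'.1), ∀ k, |x k| ≤ 1 := by
      intro x hx
      exact hy.cub x (fun i => hT x (fun j hj => hx ⟨j, hj⟩) i)
    refine ⟨⟨?_, 1, hKK⟩, ?_⟩
    · intro i k hik hcr
      have hik' : i.1 ≠ k.1 := fun h => hik (Subtype.ext h)
      obtain ⟨x, hx1, hx2⟩ := hess i.1 i.2
      obtain ⟨x', hx1', hx2'⟩ := hess k.1 k.2
      have h1 := hx2 k.1 k.2 (Ne.symm hik')
      have h2 := hx2' i.1 i.2 hik'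
      have h3 := SEL.par hcr x x'
      have h4 : |dt (y i.1) x| * |dt (y k.1) x'| = |dt (y k.1) x| * |dt (y i.1) x'| := by
        rw [← abs_mul, ← abs_mul]; exact congrArg _ h3
      have h5 : 1 < |dt (y i.1) x| * |dt (y k.1) x'| := one_lt_mul_of_lt_of_le hx1 hx1'.le
      have h6 : |dt (y k.1) x| * |dt (y i.1) x'| ≤ 1 :=
        mul_le_one₀ h1 (abs_nonneg _) h2
      linarith
    · intro k
      obtain ⟨x, hx1, hx2⟩ := hess k.1 k.2
      set U : Set R3 := {z | (∀ l : {i // i ∈ T}, l ≠ k → |dt (y l.1) z| < |dt (y k.1) z|) ∧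
        ∀ l : {i // i ∈ T}, |dt (y l.1) z| < 1} with hU
      have hc : ∀ l : ι, Continuous (fun z : R3 => |dt (y l) z|) := fun l =>
        (CTV.cont_dt continuous_const continuous_id).abs
      have hUo : IsOpen U := by
        have e : U = (⋂ l : {i // i ∈ T}, {z | l ≠ k → |dt (y l.1) z| < |dt (y k.1) z|}) ∩
            ⋂ l : {i // i ∈ T}, {z | |dt (y l.1) z| < 1} := by
          ext z
          simp only [hU, mem_inter_iff, mem_iInter, mem_ofPred_eq]
        rw [e]
        refine IsOpen.inter ?_ ?_
        · refine isOpen_iInter_of_finite fun l => ?_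
          by_cases hlk : l = k
          · have : {z : R3 | l ≠ k → |dt (y l.1) z| < |dt (y k.1) z|} = univ := by
              ext z; simp [hlk]
            rw [this]; exact isOpen_univ
          · have : {z : R3 | l ≠ k → |dt (y l.1) z| < |dt (y k.1) z|} =
                {z : R3 | |dt (y l.1) z| < |dt (y k.1) z|} := by
              ext z
              simp only [mem_ofPred_eq]
              exact ⟨fun h => h hlk, fun h _ => h⟩
            rw [this]
            exact isOpen_lt (hc l.1) (hc k.1)
        · exact isOpen_iInter_of_finite fun l => isOpen_lt (hc l.1) continuous_const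
      have hne : U.Nonempty := by
        set s : ℝ := 1 / (|dt (y k.1) x| + 1) with hs
        have hs0 : 0 < s := by positivity
        have hs1 : s * |dt (y k.1) x| < 1 := by
          rw [hs, div_mul_eq_mul_div, div_lt_one (by positivity)]; linarith
        refine ⟨s • x, ?_, ?_⟩
        · intro l hl
          have hl' : l.1 ≠ k.1 := fun h => hl (Subtype.ext h)
          have h1 := hx2 l.1 l.2 hl'
          rw [CTV.dt_smul, CTV.dt_smul, abs_mul, abs_mul, abs_of_pos hs0]
          exact mul_lt_mul_of_pos_left (lt_of_le_of_lt h1 hx1) hs0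
        · intro l
          rw [CTV.dt_smul, abs_mul, abs_of_pos hs0]
          by_cases hlk : l = k
          · rw [hlk]; exact hs1
          · have hl' : l.1 ≠ k.1 := fun h => hlk (Subtype.ext h)
            have h1 := hx2 l.1 l.2 hl'
            have h2 : s * |dt (y l.1) x| ≤ s * |dt (y k.1) x| :=
              mul_le_mul_of_nonneg_left (h1.trans hx1.le) hs0.le
            linarith
      have hUsub : U ⊆ co (fun i' : {i // i ∈ T} => y i'.1) k := by
        intro z hz
        refine ⟨fun l => (hz.2 l).le, fun l => ?_⟩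
        by_cases hlk : l = k
        · rw [hlk]
        · exact (hz.1 l hlk).le
      have hpos : 0 < volume U := hUo.measure_pos volume hne
      have hlt : volume (co (fun i' : {i // i ∈ T} => y i'.1) k) < ⊤ :=
        lt_of_le_of_lt (measure_mono fun z hz => hz.1) (SEL.KK_bdd_vol _ hKK)
      unfold mu
      exact ENNReal.toReal_pos (lt_of_lt_of_le hpos (measure_mono hUsub)).ne' hlt.ne
  · rw [Fintype.card_coe]
    exact Finset.card_le_univ T

end Pool.G1
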