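import Pool.Agent.Work.MP_b5407d_g1.Interface
import Pool.Agent.Work.MP_b5407d_t3.PATH

/-!
# G1, block TAN (helper78): the `L_p` Minkowski inequality from `LI ε N`
-/

set_option autoImplicit false

open MeasureTheory Set Filter Topology

namespace Pool.G1

open Pool.T3 (R3 dt cr de K V S H Fam Pos pt Lam Q J lin)

theorem blk_TAN (hCALC : Pool.T3.Stmt_CALC) (hFGN : Stmt_FGN) (hMUS : Stmt_MUS)
    (hQJT : Stmt_QJT) : Stmt_TAN := by
  intro N ε hε hε1 hLI ι _ _ hcard y hy a ha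
  obtain ⟨u, h, hu, hh0, rfl⟩ := hFGN.1 ι y hy
  set p : ℝ := 1 - ε with hp
  have hp0 : 0 < p := by rw [hp]; linarith
  have hp1 : p < 1 := by rw [hp]; linarith
  have hC := hCALC ι u hu
  -- the local inequality at all positive levels
  have hloc : ∀ h', Pos h' → ∀ f : ι → ℝ, (1 - p) * Q (V u) (S u) h' f ≤ J (V u) (S u) (H u) h' f := by
    intro h' hh' f
    obtain ⟨q1, _, q3⟩ := hQJT ι u hu h' hh' f
    have h1 := hLI ι hcard (dv u h') (hFGN.2.1 ι u h' hu hh') (fun i => f i / h' i)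
    rw [q1, q3, hp]
    linarith
  -- the levels `g = a h`
  set g : ι → ℝ := fun i => a i * h i with hg
  have hg0 : Pos g := fun i => mul_pos (ha i) (hh0 i)
  have hdv : dv (dv u h) a = dv u g := by
    funext i
    have ha' : a i ≠ 0 := (ha i).ne'
    have hh' : h i ≠ 0 := (hh0 i).ne'
    simp only [dv, hg, smul_smul]
    congr 1
    field_simp
  obtain ⟨m1, m2, _⟩ := hMUS ι u hu h hh0
  obtain ⟨m1', _, _⟩ := hMUS ι u hu g hg0
  rw [hdv, ← m1', ← m1]
  -- the path
  set y0 : ι → ℝ := fun i => h i ^ p with hy0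
  set y1 : ι → ℝ := fun i => g i ^ p - h i ^ p with hy1
  have hpos : ∀ s ∈ Icc (0 : ℝ) 1, ∀ i, 0 < y0 i + s * y1 i := by
    intro s hs i
    have h1 : 0 < h i ^ p := Real.rpow_pos_of_pos (hh0 i) p
    have h2 : 0 < g i ^ p := Real.rpow_pos_of_pos (hg0 i) p
    have h3 : y0 i + s * y1 i = (1 - s) * h i ^ p + s * g i ^ p := by
      simp only [hy0, hy1]
      ring
    rw [h3]
    rcases hs.1.eq_or_lt with hq | hq
    · rw [← hq]
      simpa using h1
    · have h4 := mul_nonneg (sub_nonneg.mpr hs.2) h1.le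
      have h5 : 0 < s * g i ^ p := mul_pos hq h2
      linarith
  set hh : ℝ → ι → ℝ := fun s i => (y0 i + s * y1 i) ^ (1 / p) with hhh
  set ff : ℝ → ι → ℝ := fun s i => (1 / p) * y1 i * (y0 i + s * y1 i) ^ (1 / p - 1) with hff
  have hPos : ∀ s ∈ Icc (0 : ℝ) 1, Pos (hh s) := fun s hs i =>
    Real.rpow_pos_of_pos (hpos s hs i) _
  have hD : ∀ s ∈ Icc (0 : ℝ) 1, HasDerivAt (fun s => V u (hh s) ^ (p / 3))
      ((p / 3) * V u (hh s) ^ (p / 3 - 1) * ∑ i, S u (hh s) i * ff s i) s ∧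
    HasDerivAt (fun s => (p / 3) * V u (hh s) ^ (p / 3 - 1) * ∑ i, S u (hh s) i * ff s i)
      (-((p / 3) * V u (hh s) ^ (p / 3 - 1) *
        (J (V u) (S u) (H u) (hh s) (ff s) - (1 - p) * Q (V u) (S u) (hh s) (ff s)))) s := fun s hs =>
    Pool.T3.stmt_PATH ι (V u) (S u) (H u) hC p hp0 hp1 y0 y1 s (hpos s hs)
  have hint : interior (Icc (0 : ℝ) 1) ⊆ Icc (0 : ℝ) 1 := interior_subset
  set G' : ℝ → ℝ := fun s => (p / 3) * V u (hh s) ^ (p / 3 - 1) * ∑ i, S u (hh s) i * ff s i with hG'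
  -- the derivative is antitone
  have hanti : AntitoneOn G' (Icc (0 : ℝ) 1) := by
    refine antitoneOn_of_deriv_nonpos (convex_Icc 0 1)
      (fun s hs => (hD s hs).2.continuousAt.continuousWithinAt)
      (fun s hs => ((hD s (hint hs)).2.differentiableAt).differentiableWithinAt) ?_
    intro s hs
    rw [(hD s (hint hs)).2.deriv]
    have hP := hPos s (hint hs)
    have h1 : 0 < V u (hh s) := hC.vp _ hP
    have h2 : 0 ≤ (p / 3) * V u (hh s) ^ (p / 3 - 1) :=
      mul_nonneg (by linarith) (Real.rpow_pos_of_pos h1 _).le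
    have h3 := hloc _ hP (ff s)
    have h6 := mul_nonneg h2 (sub_nonneg.mpr h3)
    linarith
  -- mean value theorem
  obtain ⟨ξ, hξ, hmv⟩ := exists_hasDerivAt_eq_slope (fun s => V u (hh s) ^ (p / 3)) G'
    (zero_lt_one' ℝ) (fun s hs => (hD s hs).1.continuousAt.continuousWithinAt)
    (fun s hs => (hD s ⟨hs.1.le, hs.2.le⟩).1)
  have hle : G' ξ ≤ G' 0 :=
    hanti (left_mem_Icc.mpr (zero_le_one' ℝ)) ⟨hξ.1.le, hξ.2.le⟩ hξ.1.le
  have hinv : ∀ x : ℝ, 0 < x → (x ^ p) ^ (1 / p) = x := by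
    intro x hx
    rw [← Real.rpow_mul hx.le, mul_one_div_cancel hp0.ne', Real.rpow_one]
  have e0 : hh 0 = h := by
    funext i
    simp only [hhh, hy0, zero_mul, add_zero]
    exact hinv _ (hh0 i)
  have e1 : hh 1 = g := by
    funext i
    simp only [hhh, hy0, hy1, one_mul, add_sub_cancel]
    exact hinv _ (hg0 i)
  have hV : 0 < V u h := hC.vp _ hh0
  -- the derivative at zero
  have e2 : ∑ i, S u (hh 0) i * ff 0 i = (3 / p) * (∑ i, mu (dv u h) i * a i ^ p - V u h) := by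
    have h1 : ∀ i, S u (hh 0) i * ff 0 i =
        (3 / p) * (mu (dv u h) i * a i ^ p) - (1 / p) * (S u h i * h i) := by
      intro i
      have hhi := hh0 i
      have hai := ha i
      rw [e0]
      simp only [hff, hy0, hy1, zero_mul, add_zero, hg]
      rw [← Real.rpow_mul hhi.le, Real.mul_rpow hai.le hhi.le]
      have h2 : p * (1 / p - 1) = 1 - p := by field_simp
      rw [h2]
      have h3 : h i ^ p * h i ^ (1 - p) = h i := by
        rw [← Real.rpow_add hhi]
        simp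
      have h4 := m2 i
      calc S u h i * (1 / p * (a i ^ p * h i ^ p - h i ^ p) * h i ^ (1 - p))
          = (1 / p) * (S u h i * (h i ^ p * h i ^ (1 - p))) * (a i ^ p - 1) := by ring
        _ = (1 / p) * (S u h i * h i) * (a i ^ p - 1) := by rw [h3]
        _ = (1 / p) * (S u h i * h i) * a i ^ p - (1 / p) * (S u h i * h i) := by ring
        _ = (1 / p) * (3 * mu (dv u h) i) * a i ^ p - (1 / p) * (S u h i * h i) := by rw [h4]
        _ = _ := by ring
    rw [Finset.sum_congr rfl (fun i _ => h1 i), Finset.sum_sub_distrib, ← Finset.mul_sum,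
      ← Finset.mul_sum, hC.e3 h hh0]
    field_simp
  have e3 : G' 0 = V u h ^ (p / 3 - 1) * (∑ i, mu (dv u h) i * a i ^ p) - V u h ^ (p / 3) := by
    simp only [hG']
    rw [e2, e0]
    have h1 : V u h ^ (p / 3 - 1) * V u h = V u h ^ (p / 3) := by
      conv_lhs => rw [← Real.rpow_one (V u h)]
      rw [← Real.rpow_mul hV.le, ← Real.rpow_add hV]
      congr 1
      ring
    rw [← h1]
    field_simp
  simp only [e0, e1, sub_zero, div_one] at hmv
  rw [e3, hmv] at hle
  have hfin : V u g ^ (p / 3) ≤ V u h ^ (p / 3 - 1) * (∑ i, mu (dv u h) i * a i ^ p) := by linarith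
  have hpw : V u h ^ (p / 3 - 1) * V u h ^ (1 - p / 3) = 1 := by
    rw [← Real.rpow_add hV]
    simp
  have hVp : 0 < V u h ^ (1 - p / 3) := Real.rpow_pos_of_pos hV _
  calc V u g ^ (p / 3) * V u h ^ (1 - p / 3)
      ≤ (V u h ^ (p / 3 - 1) * (∑ i, mu (dv u h) i * a i ^ p)) * V u h ^ (1 - p / 3) :=
        mul_le_mul_of_nonneg_right hfin hVp.le
    _ = (V u h ^ (p / 3 - 1) * V u h ^ (1 - p / 3)) * (∑ i, mu (dv u h) i * a i ^ p) := by ring
    _ = ∑ i, mu (dv u h) i * a i ^ p := by rw [hpw, one_mul]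

end Pool.G1
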