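import Pool.Agent.Work.MP_b5407d_g1.Interface
import Pool.Agent.Work.MP_b5407d_t3.COO

/-!
# G1, block TLC: the translation estimate
-/

set_option autoImplicit false

open MeasureTheory Set Filter Topology

namespace Pool.G1

open Pool.T3 (R3 dt cr de K V S H Fam Pos pt Lam Q J lin)

namespace TLCaux

/-- one-dimensional estimate -/
lemma one_dim (I : Set ℝ) (hI : I.OrdConnected) (hb : BddBelow I) (ha : BddAbove I) (s : ℝ → ℝ)
    (hs : Monotone s) (κ : ℝ) (hκ : 0 ≤ κ) (h : ∀ t ∈ I, ∀ t' ∈ I, s t' - s t ≤ κ) :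
    IntegrableOn (fun t => s (t + 1) - s t) {t | t ∈ I ∧ t + 1 ∈ I} ∧
    ∫ t in {t | t ∈ I ∧ t + 1 ∈ I}, (s (t + 1) - s t) ≤ κ := by
  set T : Set ℝ := {t | t ∈ I ∧ t + 1 ∈ I} with hT
  have hs1 : Monotone (fun t => s (t + 1)) := fun a b hab => hs (by linarith)
  have hli : LocallyIntegrable (fun t => s (t + 1) - s t) volume :=
    hs1.locallyIntegrable.sub hs.locallyIntegrable
  rcases I.eq_empty_or_nonempty with he | hne
  · have : T = ∅ := by
      rw [hT, he]
      ext t
      simp
    rw [this]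
    simp [hκ]
  set α := sInf I with hα
  set β := sSup I with hβ
  have hsub : T ⊆ Icc α (β - 1) := by
    rintro t ⟨h1, h2⟩
    refine ⟨csInf_le hb h1, ?_⟩
    have := le_csSup ha h2
    linarith
  have hint : IntegrableOn (fun t => s (t + 1) - s t) (Icc α (β - 1)) :=
    hli.integrableOn_isCompact isCompact_Icc
  refine ⟨hint.mono_set hsub, ?_⟩
  have h0 : ∀ t, 0 ≤ s (t + 1) - s t := fun t => sub_nonneg.2 (hs (by linarith))
  have hle : ∫ t in T, (s (t + 1) - s t) ≤ ∫ t in Icc α (β - 1), (s (t + 1) - s t) :=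
    setIntegral_mono_set hint (Eventually.of_forall h0) hsub.eventuallyLE
  refine hle.trans ?_
  by_cases hab : α ≤ β - 1
  · have hioo : Ioo α β ⊆ I :=
      IsConnected.Ioo_csInf_csSup_subset ⟨hne, hI.isPreconnected⟩ hb ha
    rw [integral_Icc_eq_integral_Ioc, ← intervalIntegral.integral_of_le hab]
    have ii : ∀ a b : ℝ, IntervalIntegrable s volume a b := fun a b => hs.intervalIntegrable
    have ii1 : ∀ a b : ℝ, IntervalIntegrable (fun t => s (t + 1)) volume a b :=
      fun a b => hs1.intervalIntegrable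
    rw [intervalIntegral.integral_sub (ii1 _ _) (ii _ _)]
    have e1 : ∫ t in α..(β - 1), s (t + 1) = ∫ t in (α + 1)..β, s t := by
      rw [intervalIntegral.integral_comp_add_right (fun t => s t) 1]
      congr 1
      ring
    have e2 : ∫ t in (0 : ℝ)..1, s (t + (β - 1)) = ∫ t in (β - 1)..β, s t := by
      rw [intervalIntegral.integral_comp_add_right (fun t => s t) (β - 1)]
      congr 1 <;> ring
    have e3 : ∫ t in (0 : ℝ)..1, s (t + α) = ∫ t in α..(α + 1), s t := by
      rw [intervalIntegral.integral_comp_add_right (fun t => s t) α]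
      congr 1 <;> ring
    have a1 := intervalIntegral.integral_add_adjacent_intervals (ii α (α + 1)) (ii (α + 1) β)
    have a2 := intervalIntegral.integral_add_adjacent_intervals (ii α (β - 1)) (ii (β - 1) β)
    have m1 : Monotone (fun t => s (t + (β - 1))) := fun a b hab => hs (by linarith)
    have m2 : Monotone (fun t => s (t + α)) := fun a b hab => hs (by linarith)
    have hm : ∫ t in (0 : ℝ)..1, (s (t + (β - 1)) - s (t + α)) ≤ ∫ t in (0 : ℝ)..1, κ := by
      refine intervalIntegral.integral_mono_on_of_le_Ioo zero_le_one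
        (m1.intervalIntegrable.sub m2.intervalIntegrable) intervalIntegrable_const ?_
      intro u hu
      refine h _ (hioo ⟨?_, ?_⟩) _ (hioo ⟨?_, ?_⟩)
      · linarith [hu.1]
      · linarith [hu.2]
      · linarith [hu.1]
      · linarith [hu.2]
    rw [intervalIntegral.integral_sub m1.intervalIntegrable m2.intervalIntegrable, e2, e3,
      intervalIntegral.integral_const] at hm
    simp only [smul_eq_mul] at hm
    rw [e1]
    linarith
  · rw [Icc_eq_empty hab]
    simpa using hκ

/-- three vectors with determinant one -/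
lemma exists_basis (v : R3) (hv : v ≠ 0) : ∃ b1 b2 : R3, de b1 b2 v = 1 := by
  have : ∃ k, v k ≠ 0 := by
    by_contra hcon
    push Not at hcon
    exact hv (funext hcon)
  obtain ⟨k, hk⟩ := this
  fin_cases k
  · refine ⟨![0, 1, 0], ![0, 0, 1 / v 0], ?_⟩
    have hk' : v 0 ≠ 0 := hk
    simp [de, dt, cr, hk']
  · refine ⟨![0, 0, 1], ![1 / v 1, 0, 0], ?_⟩
    have hk' : v 1 ≠ 0 := hk
    simp [de, dt, cr, hk']
  · refine ⟨![1, 0, 0], ![0, 1 / v 2, 0], ?_⟩
    have hk' : v 2 ≠ 0 := hk
    simp [de, dt, cr, hk']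

/-- the coordinates are measure preserving -/
lemma mp_lnp (b1 b2 v : R3) (h : de b1 b2 v = 1) :
    MeasurePreserving (fun p : (ℝ × ℝ) × ℝ => lnp b1 b2 v p.1 p.2) volume volume := by
  have hd : (Pool.T3.COO_.mat b1 b2 v).det = 1 := by
    rw [Pool.T3.COO_.det_mat, ← h]
    simp only [de, dt]
    ring
  have h1 := (Pool.T3.COO_.mp_mat hd).comp Pool.T3.COO_.mp_eq3
  have h2 : MeasurePreserving (MeasurableEquiv.prodAssoc : (ℝ × ℝ) × ℝ ≃ᵐ ℝ × ℝ × ℝ)
      volume volume := volume_preserving_prodAssoc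
  have h3 := h1.comp h2
  have e : ((⇑(Matrix.toLin' (Pool.T3.COO_.mat b1 b2 v)) ∘ Pool.T3.COO_.eq3) ∘
      ⇑(MeasurableEquiv.prodAssoc : (ℝ × ℝ) × ℝ ≃ᵐ ℝ × ℝ × ℝ)) =
      fun p : (ℝ × ℝ) × ℝ => lnp b1 b2 v p.1 p.2 := by
    funext p k
    obtain ⟨⟨z1, z2⟩, t⟩ := p
    simp only [Function.comp_apply, Matrix.toLin'_apply, Matrix.mulVec, dotProduct,
      Fin.sum_univ_three, Pool.T3.COO_.mat, Matrix.of_apply, Pool.T3.COO_.eq3, lnp, Pi.add_apply,
      Pi.smul_apply, smul_eq_mul, Matrix.cons_val_zero, Matrix.cons_val_one, Matrix.cons_val,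
      MeasurableEquiv.prodAssoc, MeasurableEquiv.coe_mk, Equiv.prodAssoc_apply]
    ring
  rw [e] at h3
  exact h3

lemma dt_lnp (u b1 b2 v : R3) (z : ℝ × ℝ) (t : ℝ) :
    dt u (lnp b1 b2 v z t) = dt u (z.1 • b1 + z.2 • b2) + dt u v * t := by
  simp only [dt, lnp, Pi.add_apply, Pi.smul_apply, smul_eq_mul]
  ring

lemma act_iff {ι : Type} (y : ι → R3) (P : ι × Bool) (b1 b2 v : R3) (z : ℝ × ℝ) (t : ℝ) :
    act y P (lnp b1 b2 v z t) ↔
      ac (fun P : ι × Bool => dt (sy y P) (z.1 • b1 + z.2 • b2)) (fun P => dt (sy y P) v) P t := by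
  unfold act ac
  simp only [← dt_lnp]
  set x := lnp b1 b2 v z t
  have hneg : ∀ u : R3, dt (-u) x = -dt u x := by
    intro u
    simp only [dt, Pi.neg_apply]
    ring
  constructor
  · rintro h ⟨l, b⟩
    refine le_trans ?_ (h l)
    cases b
    · simp only [sy, Bool.false_eq_true, if_false, hneg]
      exact neg_le_abs _
    · simp only [sy, if_true]
      exact le_abs_self _
  · intro h l
    rw [abs_le']
    constructor
    · have := h (l, true)
      simpa only [sy, if_true] using this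
    · have := h (l, false)
      simp only [sy, Bool.false_eq_true, if_false, hneg] at this
      exact this

/-- a proper line is a null set -/
lemma null_line (α β : ℝ) (h : α ≠ 0 ∨ β ≠ 0) :
    ∀ᵐ z : ℝ × ℝ, z.1 * α + z.2 * β ≠ 0 := by
  set f : (ℝ × ℝ) →ₗ[ℝ] ℝ := α • LinearMap.fst ℝ ℝ ℝ + β • LinearMap.snd ℝ ℝ ℝ with hf
  have hne : LinearMap.ker f ≠ ⊤ := by
    intro htop
    have h1 : ((1 : ℝ), (0 : ℝ)) ∈ LinearMap.ker f := by rw [htop]; trivial
    have h2 : ((0 : ℝ), (1 : ℝ)) ∈ LinearMap.ker f := by rw [htop]; trivial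
    rw [LinearMap.mem_ker] at h1 h2
    simp [hf] at h1 h2
    rcases h with h | h
    · exact h h1
    · exact h h2
  have h0 := Measure.addHaar_submodule (volume : Measure (ℝ × ℝ)) (LinearMap.ker f) hne
  rw [ae_iff]
  refine measure_mono_null ?_ h0
  intro z hz
  simp only [ne_eq, Decidable.not_not, mem_ofPred_eq] at hz
  change z ∈ LinearMap.ker f
  rw [LinearMap.mem_ker]
  simp only [hf, LinearMap.add_apply, LinearMap.smul_apply, LinearMap.fst_apply,
    LinearMap.snd_apply, smul_eq_mul]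
  linarith

lemma sy_ne {ι : Type} (y : ι → R3) (hy : Npb y) (P P' : ι × Bool) (h : P.1 ≠ P'.1) :
    sy y P - sy y P' ≠ 0 := by
  intro h0
  have h1 : sy y P = sy y P' := sub_eq_zero.1 h0
  apply hy.np P.1 P'.1 h
  obtain ⟨i, b⟩ := P
  obtain ⟨k, c⟩ := P'
  simp only [sy] at h1 ⊢
  have key : y i = y k ∨ y i = -(y k) := by
    cases b <;> cases c
    · left
      simpa using h1
    · right
      simp only [Bool.false_eq_true, if_false, if_true] at h1
      rw [← h1, neg_neg]
    · right
      simpa using h1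
    · left
      simpa using h1
  rcases key with hk | hk
  · rw [hk]
    funext m
    fin_cases m <;> simp [cr] <;> ring
  · rw [hk]
    funext m
    fin_cases m <;> simp [cr] <;> ring

lemma cramer (D b1 b2 v : R3) (h : de b1 b2 v = 1) (h1 : dt D b1 = 0) (h2 : dt D b2 = 0)
    (h3 : dt D v = 0) : D = 0 := by
  have key : ∀ k, D k * de b1 b2 v =
      dt D b1 * cr b2 v k + dt D b2 * cr v b1 k + dt D v * cr b1 b2 k := by
    intro k
    fin_cases k <;> simp [de, dt, cr] <;> ring
  funext k
  have := key k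
  rw [h, h1, h2, h3] at this
  simpa using this

lemma nondeg {ι : Type} [Fintype ι] (y : ι → R3) (hy : Npb y) (w : ι → ℝ) (b1 b2 v : R3)
    (h : de b1 b2 v = 1) :
    ∀ᵐ z : ℝ × ℝ, ∀ P P' : ι × Bool,
      dt (sy y P) (z.1 • b1 + z.2 • b2) = dt (sy y P') (z.1 • b1 + z.2 • b2) →
      dt (sy y P) v = dt (sy y P') v → w P.1 = w P'.1 := by
  rw [ae_all_iff]
  intro P
  rw [ae_all_iff]
  intro P'
  by_cases hPP : P.1 = P'.1
  · exact Eventually.of_forall fun z _ _ => by rw [hPP]
  by_cases hq : dt (sy y P) v = dt (sy y P') v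
  · have hD := sy_ne y hy P P' hPP
    set D := sy y P - sy y P' with hDd
    have h3 : dt D v = 0 := by
      have : dt D v = dt (sy y P) v - dt (sy y P') v := by
        simp only [hDd, dt, Pi.sub_apply]
        ring
      rw [this, hq, sub_self]
    have h4 : dt D b1 ≠ 0 ∨ dt D b2 ≠ 0 := by
      by_contra hcon
      push Not at hcon
      exact hD (cramer D b1 b2 v h hcon.1 hcon.2 h3)
    filter_upwards [null_line _ _ h4] with z hz hp _
    exfalso
    apply hz
    have : z.1 * dt D b1 + z.2 * dt D b2 =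
        dt (sy y P) (z.1 • b1 + z.2 • b2) - dt (sy y P') (z.1 • b1 + z.2 • b2) := by
      simp only [hDd, dt, Pi.sub_apply, Pi.add_apply, Pi.smul_apply, smul_eq_mul]
      ring
    rw [this, hp, sub_self]
  · exact Eventually.of_forall fun z _ h' => absurd h' hq

lemma EL_nonneg {ι : Type} [Fintype ι] (y : ι → R3) (w : ι → ℝ) (b1 b2 a : R3) (z : ℝ × ℝ) :
    0 ≤ EL y w b1 b2 a z := by
  unfold EL
  refine mul_nonneg (by norm_num) (Finset.sum_nonneg fun P _ => Finset.sum_nonneg fun P' _ => ?_)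
  refine indicator_nonneg (fun _ _ => ?_) _
  positivity

/-- the energy of an interval inside the body is at most the energy of the line -/
lemma EE_le_EL {ι : Type} [Fintype ι] (y : ι → R3) (w : ι → ℝ) (b1 b2 v : R3) (z : ℝ × ℝ)
    (t1 t2 : ℝ) (hK : ∀ t ∈ Icc t1 t2, lnp b1 b2 v z t ∈ KK y) :
    EE (fun P : ι × Bool => dt (sy y P) (z.1 • b1 + z.2 • b2)) (fun P => dt (sy y P) v)
      (fun P => w P.1) t1 t2 ≤ EL y w b1 b2 v z := by
  classical
  unfold EE EL
  refine mul_le_mul_of_nonneg_left ?_ (by norm_num)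
  refine Finset.sum_le_sum fun P _ => Finset.sum_le_sum fun P' _ => ?_
  have hsub : dt (sy y P - sy y P') v = dt (sy y P) v - dt (sy y P') v := by
    simp only [dt, Pi.sub_apply]
    ring
  rw [indicator_apply]
  split_ifs with h1 h2 h2
  · rw [hsub]
  · exfalso
    apply h2
    obtain ⟨t, ht, ha, hb⟩ := h1
    exact ⟨t, hK t ht, (act_iff y P b1 b2 v z t).2 ha, (act_iff y P' b1 b2 v z t).2 hb⟩
  · positivity
  · exact le_rfl

lemma lnp_add (b1 b2 v : R3) (z : ℝ × ℝ) (t : ℝ) :
    lnp b1 b2 v z t + v = lnp b1 b2 v z (t + 1) := by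
  unfold lnp
  rw [add_smul, one_smul, add_assoc]

end TLCaux

open TLCaux

theorem blk_TLC (hLIN : Stmt_LIN) (hPA1 : Stmt_PA1) (hOMI : Stmt_OMI) : Stmt_TLC := by
  intro ι _ y hy w C hC hCm hCK v κ hκ hosc
  obtain ⟨homm, ⟨B, hB⟩, -, -, -, hae⟩ := hOMI ι y hy w
  obtain ⟨R, hR⟩ := hy.bd
  -- nonempty
  have hne : Nonempty ι := by
    by_contra hcon
    rw [not_nonempty_iff] at hcon
    have h1 : (fun _ => R + 1 : R3) ∈ KK y := by
      intro i
      exact (hcon.false i).elim
    have h2 := hR _ h1 0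
    have h3 : R + 1 ≤ |R + 1| := le_abs_self _
    linarith
  by_cases hv : v = 0
  · -- trivial translation
    subst hv
    have h1 : ∀ x : R3, (om y w (x + 0) - om y w x) ^ 2 = 0 := by
      intro x
      rw [add_zero, sub_self]
      norm_num
    simp only [h1, integral_zero]
    have hd : |de (![1, 0, 0] : R3) ![0, 1, 0] ![0, 0, 1]| = 1 := by
      simp [de, dt, cr]
    obtain ⟨-, -, h2, -⟩ := hLIN ι y hy w ![1, 0, 0] ![0, 1, 0] ![0, 0, 1] hd
    have h3 : 0 ≤ ∫ z, EL y w ![1, 0, 0] ![0, 1, 0] ![0, 0, 1] z :=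
      integral_nonneg fun z => EL_nonneg y w _ _ _ z
    have h4 : 0 ≤ En y w := by linarith
    positivity
  obtain ⟨b1, b2, hb⟩ := exists_basis v hv
  have hmp := mp_lnp b1 b2 v hb
  obtain ⟨hELm, hELi, hELle, -⟩ := hLIN ι y hy w b1 b2 v (by rw [hb]; exact abs_one)
  set D : Set R3 := {x | x ∈ C ∧ x + v ∈ C} with hD
  have hDm : MeasurableSet D := hCm.inter ((measurable_add_const v) hCm)
  set f : R3 → ℝ := fun x => (om y w (x + v) - om y w x) ^ 2 with hf
  have hfm : Measurable f := ((homm.comp (measurable_add_const v)).sub homm).pow_const 2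
  have hgm : Measurable (D.indicator f) := hfm.indicator hDm
  rw [← integral_indicator hDm]
  have e1 : ∫ x, D.indicator f x =
      ∫ p : (ℝ × ℝ) × ℝ, D.indicator f (lnp b1 b2 v p.1 p.2) := by
    have := integral_map (μ := (volume : Measure ((ℝ × ℝ) × ℝ))) hmp.measurable.aemeasurable
      (f := D.indicator f) hgm.aestronglyMeasurable
    rw [hmp.map_eq] at this
    exact this
  -- integrability
  have hDfin : volume D < ⊤ := by
    have h1 : D ⊆ Set.pi univ fun _ : Fin 3 => Icc (-R) R := by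
      rintro x ⟨hx, -⟩ k -
      exact abs_le.1 (hR x (hCK hx) k)
    refine lt_of_le_of_lt (measure_mono h1) ?_
    exact (isCompact_univ_pi fun _ => isCompact_Icc).measure_lt_top
  have hB0 : 0 ≤ B := (abs_nonneg _).trans (hB 0)
  have hfb : ∀ x, |f x| ≤ (2 * B) ^ 2 := by
    intro x
    rw [hf]
    simp only [abs_pow]
    refine pow_le_pow_left₀ (abs_nonneg _) ?_ 2
    have h1 := hB (x + v)
    have h2 := hB x
    have h3 := abs_sub (om y w (x + v)) (om y w x)
    linarith
  have hgi : Integrable (D.indicator f) volume := by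
    rw [integrable_indicator_iff hDm]
    refine Measure.integrableOn_of_bounded (M := (2 * B) ^ 2) hDfin.ne
      hfm.aestronglyMeasurable ?_
    exact Eventually.of_forall fun x => by
      rw [Real.norm_eq_abs]
      exact hfb x
  have hgi2 : Integrable (fun p : (ℝ × ℝ) × ℝ => D.indicator f (lnp b1 b2 v p.1 p.2))
      (volume : Measure ((ℝ × ℝ) × ℝ)) := by
    have h1 : Integrable (D.indicator f)
        (Measure.map (fun p : (ℝ × ℝ) × ℝ => lnp b1 b2 v p.1 p.2) volume) := by
      rw [hmp.map_eq]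
      exact hgi
    exact h1.comp_measurable hmp.measurable
  have e2 : ∫ p : (ℝ × ℝ) × ℝ, D.indicator f (lnp b1 b2 v p.1 p.2) =
      ∫ z : ℝ × ℝ, ∫ t : ℝ, D.indicator f (lnp b1 b2 v z t) :=
    integral_prod _ hgi2
  rw [e1, e2]
  -- almost every line
  have hae1 := hmp.quasiMeasurePreserving.ae hae
  have hae2 : ∀ᵐ z : ℝ × ℝ, ∀ᵐ t : ℝ, ∃ P : ι × Bool, act y P (lnp b1 b2 v z t) ∧
      om y w (lnp b1 b2 v z t) = w P.1 ∧ ∀ P', act y P' (lnp b1 b2 v z t) → P' = P :=
    Measure.ae_ae_of_ae_prod hae1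
  have hline : ∀ᵐ z : ℝ × ℝ, ∫ t : ℝ, D.indicator f (lnp b1 b2 v z t) ≤
      κ * EL y w b1 b2 v z := by
    filter_upwards [hae2, nondeg y hy w b1 b2 v hb] with z hz hnd
    set p : ι × Bool → ℝ := fun P => dt (sy y P) (z.1 • b1 + z.2 • b2) with hp
    set q : ι × Bool → ℝ := fun P => dt (sy y P) v with hq
    have hex : ∀ t : ℝ, ∃ P, ac p q P t := fun t => Finite.exists_max (fun P => p P + q P * t)
    choose Pt hPt using hex
    set s : ℝ → ℝ := fun t => q (Pt t) with hs
    have hmono0 : ∀ (P P' : ι × Bool) (t t' : ℝ), ac p q P t → ac p q P' t' → t < t' →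
        q P ≤ q P' := by
      intro P P' t t' h1 h2 h3
      have h4 := h1 P'
      have h5 := h2 P
      have h6 : 0 ≤ (q P' - q P) * (t' - t) := by nlinarith
      have h7 : 0 < t' - t := by linarith
      by_contra h8
      push Not at h8
      have : (q P' - q P) * (t' - t) < 0 := mul_neg_of_neg_of_pos (by linarith) h7
      linarith
    have hsm : Monotone s := by
      intro t t' htt
      rcases htt.lt_or_eq with h1 | h1
      · exact hmono0 _ _ t t' (hPt t) (hPt t') h1
      · rw [h1]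
    set I : Set ℝ := {t | lnp b1 b2 v z t ∈ C} with hI
    have hIc : Convex ℝ I := by
      intro t ht t' ht' a b ha hb' hab
      have : lnp b1 b2 v z (a • t + b • t') = a • lnp b1 b2 v z t + b • lnp b1 b2 v z t' := by
        funext k
        simp only [lnp, Pi.add_apply, Pi.smul_apply, smul_eq_mul]
        have hb'' : b = 1 - a := by linarith
        rw [hb'']
        ring
      change lnp b1 b2 v z (a • t + b • t') ∈ C
      rw [this]
      exact hC ht ht' ha hb' hab
    have hk : ∃ k, v k ≠ 0 := by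
      by_contra hcon
      push Not at hcon
      exact hv (funext hcon)
    obtain ⟨k, hk⟩ := hk
    have hbound : ∀ t ∈ I, |t| ≤ (R + |z.1 * b1 k + z.2 * b2 k|) / |v k| := by
      intro t ht
      have h1 := hR _ (hCK ht) k
      simp only [lnp, Pi.add_apply, Pi.smul_apply, smul_eq_mul] at h1
      rw [le_div_iff₀ (abs_pos.2 hk), ← abs_mul]
      have h2 : t * v k = (z.1 * b1 k + z.2 * b2 k + t * v k) - (z.1 * b1 k + z.2 * b2 k) := by
        ring
      rw [h2]
      refine (abs_sub _ _).trans ?_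
      linarith
    have hIb : BddBelow I := ⟨_, fun t ht => (abs_le.1 (hbound t ht)).1⟩
    have hIa : BddAbove I := ⟨_, fun t ht => (abs_le.1 (hbound t ht)).2⟩
    have hIosc : ∀ t ∈ I, ∀ t' ∈ I, s t' - s t ≤ κ := by
      intro t ht t' ht'
      have h1 := hosc _ ht' _ ht (Pt t') (Pt t) ((act_iff y _ b1 b2 v z t').2 (hPt t'))
        ((act_iff y _ b1 b2 v z t).2 (hPt t))
      have h2 : dt (sy y (Pt t') - sy y (Pt t)) v = s t' - s t := by
        simp only [hs, hq, dt, Pi.sub_apply]
        ring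
      rw [h2] at h1
      exact (le_abs_self _).trans h1
    obtain ⟨hTi, hTle⟩ := one_dim I hIc.ordConnected hIb hIa s hsm κ hκ hIosc
    set T : Set ℝ := {t | t ∈ I ∧ t + 1 ∈ I} with hT
    have hTm : MeasurableSet T := by
      have h1 : MeasurableSet I := hIc.ordConnected.measurableSet
      exact h1.inter ((measurable_add_const (1 : ℝ)) h1)
    have hEL0 := EL_nonneg y w b1 b2 v z
    have hptw : ∀ᵐ t : ℝ, D.indicator f (lnp b1 b2 v z t) ≤
        T.indicator (fun t => (s (t + 1) - s t) * EL y w b1 b2 v z) t := by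
      have hz1 := (measurePreserving_add_right (volume : Measure ℝ) 1).quasiMeasurePreserving.ae hz
      filter_upwards [hz, hz1] with t h1 h2
      by_cases ht : t ∈ T
      · have htD : lnp b1 b2 v z t ∈ D := by
          refine ⟨ht.1, ?_⟩
          rw [lnp_add]
          exact ht.2
        rw [indicator_of_mem htD, indicator_of_mem ht]
        obtain ⟨P1, ha1, ho1, hu1⟩ := h1
        obtain ⟨P2, ha2, ho2, hu2⟩ := h2
        have hP1 : Pt t = P1 := hu1 _ ((act_iff y _ b1 b2 v z t).2 (hPt t))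
        have hP2 : Pt (t + 1) = P2 := hu2 _ ((act_iff y _ b1 b2 v z (t + 1)).2 (hPt (t + 1)))
        have hfe : f (lnp b1 b2 v z t) = (w P1.1 - w P2.1) ^ 2 := by
          simp only [hf, lnp_add, ho1, ho2]
          ring
        rw [hfe]
        have hac1 : ac p q P1 t := hP1 ▸ hPt t
        have hac2 : ac p q P2 (t + 1) := hP2 ▸ hPt (t + 1)
        have hq12 : q P1 ≤ q P2 := hmono0 _ _ t (t + 1) hac1 hac2 (by linarith)
        have h3 := hPA1 (ι × Bool) p q (fun P => w P.1) hnd t (t + 1) (by linarith) P1 P2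
          hac1 hac2 hq12
        refine h3.trans ?_
        have h4 : s (t + 1) - s t = q P2 - q P1 := by
          simp only [hs, hP1, hP2]
        rw [h4]
        refine mul_le_mul_of_nonneg_left ?_ (by linarith)
        refine EE_le_EL y w b1 b2 v z t (t + 1) ?_
        intro t' ht'
        exact hCK (hIc.ordConnected.out ht.1 ht.2 ht')
      · have htD : lnp b1 b2 v z t ∉ D := by
          intro hcon
          apply ht
          refine ⟨hcon.1, ?_⟩
          have := hcon.2
          rw [lnp_add] at this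
          exact this
        rw [indicator_of_notMem htD, indicator_of_notMem ht]
    have h5 : ∫ t : ℝ, D.indicator f (lnp b1 b2 v z t) ≤
        ∫ t : ℝ, T.indicator (fun t => (s (t + 1) - s t) * EL y w b1 b2 v z) t := by
      refine integral_mono_of_nonneg ?_ ?_ hptw
      · exact Eventually.of_forall fun t => indicator_nonneg (fun _ _ => sq_nonneg _) _
      · rw [integrable_indicator_iff hTm]
        exact hTi.mul_const _
    refine h5.trans ?_
    rw [integral_indicator hTm, integral_mul_const]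
    exact mul_le_mul_of_nonneg_right hTle hEL0
  have h6 : ∫ z : ℝ × ℝ, ∫ t : ℝ, D.indicator f (lnp b1 b2 v z t) ≤
      ∫ z : ℝ × ℝ, κ * EL y w b1 b2 v z :=
    integral_mono_ae hgi2.integral_prod_left (hELi.const_mul κ) hline
  refine h6.trans ?_
  rw [integral_const_mul]
  have : κ * (∫ z, EL y w b1 b2 v z) ≤ κ * (1 / 2 * En y w) :=
    mul_le_mul_of_nonneg_left (by linarith) hκ
  linarith

end Pool.G1
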