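import Pool.Agent.Work.MP_b5407d_g1.InterfaceF
import Pool.Agent.Work.MP_b5407d_g1.CTV
import Pool.Agent.Work.MP_b5407d_g1.TLC

/-!
# G1, block `TIL` (helper9): derivative of the volume with respect to the tilt of one facet
-/

set_option autoImplicit false

open MeasureTheory Set Filter Topology

namespace Pool.G1

open Pool.T3 (R3 dt cr de K V S H Fam Pos pt Lam Q J lin)

namespace TIL

/-- membership in a body with levels -/
theorem mem_dv {ι : Type} (y : ι → R3) (a : ι → ℝ) (ha : ∀ i, 0 < a i) (x : R3) :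
    x ∈ KK (dv y a) ↔ ∀ i, |dt (y i) x| ≤ a i := by
  have e : ∀ i, dt (dv y a i) x = dt (y i) x / a i := by
    intro i
    simp only [dv, dt, Pi.smul_apply, smul_eq_mul]
    ring
  constructor
  · intro h i
    have h1 := (CTV.mem_KK _ _).1 h i
    rw [e, abs_div, abs_of_pos (ha i), div_le_one (ha i)] at h1
    exact h1
  · intro h
    rw [CTV.mem_KK]
    intro i
    rw [e, abs_div, abs_of_pos (ha i), div_le_one (ha i)]
    exact h i

theorem dt_chp (u n0 p1 p2 : R3) (α : ℝ) (ξ : R2) :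
    dt u (chp n0 p1 p2 α ξ) = α * dt u n0 + ξ.1 * dt u p1 + ξ.2 * dt u p2 := by
  simp only [dt, chp, Pi.add_apply, Pi.smul_apply, smul_eq_mul]
  ring

theorem co0 (n0 p1 p2 : R3) (α : ℝ) (ξ : R2) :
    dt (cr p1 p2) (chp n0 p1 p2 α ξ) = α * de n0 p1 p2 := by
  rw [dt_chp]
  simp [dt, cr, de]
  ring

theorem co1 (n0 p1 p2 : R3) (α : ℝ) (ξ : R2) :
    dt (cr p2 n0) (chp n0 p1 p2 α ξ) = ξ.1 * de n0 p1 p2 := by
  rw [dt_chp]
  simp [dt, cr, de]
  ring

theorem co2 (n0 p1 p2 : R3) (α : ℝ) (ξ : R2) :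
    dt (cr n0 p1) (chp n0 p1 p2 α ξ) = ξ.2 * de n0 p1 p2 := by
  rw [dt_chp]
  simp [dt, cr, de]
  ring

theorem dt_tb (n0 p1 p2 : R3) (h : 0 < de n0 p1 p2) (β : R2) (α : ℝ) (ξ : R2) :
    dt (tb n0 p1 p2 β) (chp n0 p1 p2 α ξ) = dp β ξ := by
  have e : dt (tb n0 p1 p2 β) (chp n0 p1 p2 α ξ) =
      (1 / de n0 p1 p2) * (β.1 * dt (cr p2 n0) (chp n0 p1 p2 α ξ) +
        β.2 * dt (cr n0 p1) (chp n0 p1 p2 α ξ)) := by
    simp only [tb, dt, Pi.add_apply, Pi.smul_apply, smul_eq_mul]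
    ring
  rw [e, co1, co2]
  have h' := h.ne'
  simp only [dp]
  field_simp

theorem abs_dt_le (u x : R3) (R : ℝ) (hx : ∀ k, |x k| ≤ R) :
    |dt u x| ≤ (|u 0| + |u 1| + |u 2|) * R := by
  have h0 : |u 0 * x 0| ≤ |u 0| * R := by
    rw [abs_mul]; exact mul_le_mul_of_nonneg_left (hx 0) (abs_nonneg _)
  have h1 : |u 1 * x 1| ≤ |u 1| * R := by
    rw [abs_mul]; exact mul_le_mul_of_nonneg_left (hx 1) (abs_nonneg _)
  have h2 : |u 2 * x 2| ≤ |u 2| * R := by
    rw [abs_mul]; exact mul_le_mul_of_nonneg_left (hx 2) (abs_nonneg _)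
  have h3 := abs_add_three (u 0 * x 0) (u 1 * x 1) (u 2 * x 2)
  have e : dt u x = u 0 * x 0 + u 1 * x 1 + u 2 * x 2 := rfl
  rw [e]
  linarith

theorem yt_zero {ι : Type} [DecidableEq ι] (y : ι → R3) (j : ι) (b : R3) : yt y j b 0 = y := by
  unfold yt
  rw [zero_smul, add_zero, Function.update_eq_self]

/-- all nearby bodies are in a fixed box of the chart -/
theorem box {ι : Type} [Fintype ι] [DecidableEq ι] (y : ι → R3) (hy : Good y) (j : ι)
    (n0 p1 p2 : R3) (hd : 0 < de n0 p1 p2) (b : R3) :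
    ∃ τ0 R : ℝ, 0 < τ0 ∧ τ0 < 1 ∧ ∀ (τ : ℝ) (a : ι → ℝ), |τ| ≤ τ0 → (∀ i, |a i - 1| ≤ τ0) →
      ∀ (α : ℝ) (ξ : R2), chp n0 p1 p2 α ξ ∈ KK (dv (yt y j b τ) a) →
        |α| ≤ R ∧ |ξ.1| ≤ R ∧ |ξ.2| ≤ R := by
  obtain ⟨R, hR⟩ := hy.bd
  have hnear := CTV.bound_near y R hR
  have hR0 : 0 ≤ R := CTV.R_nonneg y R hR
  -- continuity
  have hcont : ContinuousAt (fun p : ℝ × (ι → ℝ) => dv (yt y j b p.1) p.2) (0, fun _ => 1) := by
    rw [continuousAt_pi]
    intro i
    have h1 : ContinuousAt (fun p : ℝ × (ι → ℝ) => 1 / p.2 i) (0, fun _ => 1) := by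
      apply ContinuousAt.div continuousAt_const
      · exact ((continuous_apply i).comp continuous_snd).continuousAt
      · norm_num
    have h2 : Continuous (fun p : ℝ × (ι → ℝ) => yt y j b p.1 i) := by
      by_cases hij : i = j
      · subst hij
        have e : (fun p : ℝ × (ι → ℝ) => yt y i b p.1 i) =
            fun p : ℝ × (ι → ℝ) => y i + p.1 • b := by
          funext p
          unfold yt
          rw [Function.update_self]
        rw [e]
        exact continuous_const.add (continuous_fst.smul continuous_const)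
      · have e : (fun p : ℝ × (ι → ℝ) => yt y j b p.1 i) = fun _ => y i := by
          funext p
          unfold yt
          rw [Function.update_of_ne hij]
        rw [e]
        exact continuous_const
    exact h1.smul h2.continuousAt
  have e0 : dv (yt y j b (0, fun _ : ι => (1 : ℝ)).1) (0, fun _ : ι => (1 : ℝ)).2 = y := by
    funext i
    show (1 / (1 : ℝ)) • yt y j b 0 i = y i
    rw [yt_zero]
    norm_num
  have hev : ∀ᶠ p : ℝ × (ι → ℝ) in 𝓝 (0, fun _ => 1),
      ∀ x ∈ KK (dv (yt y j b p.1) p.2), ∀ k, |x k| ≤ R + 1 := by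
    have h := hcont.tendsto
    rw [e0] at h
    exact h.eventually hnear
  obtain ⟨δ, hδ, hball⟩ := Metric.eventually_nhds_iff.1 hev
  set C : ℝ := (|cr p1 p2 0| + |cr p1 p2 1| + |cr p1 p2 2|) +
    (|cr p2 n0 0| + |cr p2 n0 1| + |cr p2 n0 2|) +
    (|cr n0 p1 0| + |cr n0 p1 1| + |cr n0 p1 2|) with hC
  refine ⟨min (δ / 2) (1 / 2), C * (R + 1) / de n0 p1 p2, by positivity, ?_, ?_⟩
  · exact lt_of_le_of_lt (min_le_right _ _) (by norm_num)
  · intro τ a hτ ha α ξ hx
    have hdist : dist (τ, a) ((0 : ℝ), fun _ : ι => (1 : ℝ)) < δ := by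
      rw [Prod.dist_eq]
      apply max_lt
      · show dist τ 0 < δ
        rw [Real.dist_eq, sub_zero]
        have := min_le_left (δ / 2) (1 / 2 : ℝ)
        linarith
      · show dist a (fun _ : ι => (1 : ℝ)) < δ
        have h1 : dist a (fun _ : ι => (1 : ℝ)) ≤ δ / 2 := by
          rw [dist_pi_le_iff (by positivity)]
          intro i
          rw [Real.dist_eq]
          exact le_trans (ha i) (min_le_left _ _)
        linarith
    have hk := hball hdist _ hx
    have hb : ∀ u : R3, |dt u (chp n0 p1 p2 α ξ)| ≤ (|u 0| + |u 1| + |u 2|) * (R + 1) :=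
      fun u => abs_dt_le u _ _ hk
    have q0 := hb (cr p1 p2)
    have q1 := hb (cr p2 n0)
    have q2 := hb (cr n0 p1)
    rw [co0, abs_mul, abs_of_pos hd] at q0
    rw [co1, abs_mul, abs_of_pos hd] at q1
    rw [co2, abs_mul, abs_of_pos hd] at q2
    have n1 : 0 ≤ (|cr p1 p2 0| + |cr p1 p2 1| + |cr p1 p2 2|) * (R + 1) := by positivity
    have n2 : 0 ≤ (|cr p2 n0 0| + |cr p2 n0 1| + |cr p2 n0 2|) * (R + 1) := by positivity
    have n3 : 0 ≤ (|cr n0 p1 0| + |cr n0 p1 1| + |cr n0 p1 2|) * (R + 1) := by positivity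
    have eC : C * (R + 1) = (|cr p1 p2 0| + |cr p1 p2 1| + |cr p1 p2 2|) * (R + 1) +
      (|cr p2 n0 0| + |cr p2 n0 1| + |cr p2 n0 2|) * (R + 1) +
      (|cr n0 p1 0| + |cr n0 p1 1| + |cr n0 p1 2|) * (R + 1) := by rw [hC]; ring
    refine ⟨?_, ?_, ?_⟩
    · rw [le_div_iff₀ hd, eC]; linarith
    · rw [le_div_iff₀ hd, eC]; linarith
    · rw [le_div_iff₀ hd, eC]; linarith

theorem cont_dp (β : R2) : Continuous (fun ξ : R2 => dp β ξ) := by
  unfold dp
  exact (continuous_const.mul continuous_fst).add (continuous_const.mul continuous_snd)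

/-- the analytic core: two moving end points, Fubini, symmetry -/
theorem core (D : Set (ℝ × R2)) (hDm : MeasurableSet D) (R : ℝ)
    (hDb : ∀ p ∈ D, |p.1| ≤ R ∧ |p.2.1| ≤ R ∧ |p.2.2| ≤ R)
    (hDs : ∀ p, p ∈ D ↔ -p ∈ D) (h : ℝ) (hh : 0 < h) (β : R2) (τ : ℝ) :
    (volume {p : ℝ × R2 | p ∈ D ∧ |p.1 + τ * dp β p.2| ≤ h}).toReal =
      (volume {p : ℝ × R2 | p ∈ D ∧ |p.1 + 0 * dp β p.2| ≤ h}).toReal -
      2 * ∫ x in (0 : ℝ)..τ, ∫ ξ in {ξ : R2 | (h - x * dp β ξ, ξ) ∈ D}, dp β ξ := by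
  classical
  set f : R2 → ℝ → ℝ := fun ξ α => D.indicator (fun _ => (1 : ℝ)) (α, ξ) with hf
  have hind : Measurable (D.indicator (fun _ => (1 : ℝ))) := measurable_const.indicator hDm
  -- boundedness of D
  have hDnorm : ∀ p ∈ D, ‖p‖ ≤ R := by
    intro p hp
    obtain ⟨h1, h2, h3⟩ := hDb p hp
    rw [Prod.norm_def, Prod.norm_def, Real.norm_eq_abs, Real.norm_eq_abs, Real.norm_eq_abs]
    exact max_le h1 (max_le h2 h3)
  have hDfin : volume D < ⊤ := by
    have hsub : D ⊆ Metric.closedBall 0 R := by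
      intro p hp
      rw [mem_closedBall_zero_iff]
      exact hDnorm p hp
    exact lt_of_le_of_lt (measure_mono hsub) Metric.isBounded_closedBall.measure_lt_top
  -- the bodies
  set E : ℝ → Set (ℝ × R2) := fun t => {p : ℝ × R2 | p ∈ D ∧ |p.1 + t * dp β p.2| ≤ h} with hE
  have hEm : ∀ t, MeasurableSet (E t) := by
    intro t
    have hc : Continuous (fun p : ℝ × R2 => |p.1 + t * dp β p.2|) :=
      (continuous_fst.add (continuous_const.mul ((cont_dp β).comp continuous_snd))).abs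
    exact hDm.inter (measurableSet_le hc.measurable measurable_const)
  have hEfin : ∀ t, volume (E t) < ⊤ := fun t =>
    lt_of_le_of_lt (measure_mono fun p hp => hp.1) hDfin
  have hEint : ∀ t, Integrable ((E t).indicator (fun _ => (1 : ℝ))) (volume.prod volume) := by
    intro t
    rw [integrable_indicator_iff (hEm t)]
    exact integrableOn_const (hs := (hEfin t).ne)
  have hinner : ∀ (t : ℝ) (ξ : R2), ∫ α, (E t).indicator (fun _ => (1 : ℝ)) (α, ξ) =
      ∫ α in (-h - dp β ξ * t)..(h - dp β ξ * t), f ξ α := by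
    intro t ξ
    rw [intervalIntegral.integral_of_le (by linarith), ← integral_Icc_eq_integral_Ioc,
      ← integral_indicator measurableSet_Icc]
    congr 1
    funext α
    by_cases h1 : α ∈ Icc (-h - dp β ξ * t) (h - dp β ξ * t)
    · rw [indicator_of_mem h1]
      have h2 : |α + t * dp β ξ| ≤ h := by
        rw [abs_le]
        constructor
        · have := h1.1; linarith
        · have := h1.2; linarith
      by_cases h3 : (α, ξ) ∈ D
      · have h4 : (α, ξ) ∈ E t := ⟨h3, h2⟩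
        simp only [hf, indicator_of_mem h4, indicator_of_mem h3]
      · have h4 : (α, ξ) ∉ E t := fun hc => h3 hc.1
        simp only [hf, indicator_of_notMem h4, indicator_of_notMem h3]
    · rw [indicator_of_notMem h1]
      have h4 : (α, ξ) ∉ E t := by
        intro hc
        apply h1
        have h5 := abs_le.1 hc.2
        have h6 : -h ≤ α + t * dp β ξ := h5.1
        have h7 : α + t * dp β ξ ≤ h := h5.2
        exact ⟨by linarith, by linarith⟩
      rw [indicator_of_notMem h4]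
  have hvol : ∀ t, (volume (E t)).toReal =
      ∫ ξ, ∫ α in (-h - dp β ξ * t)..(h - dp β ξ * t), f ξ α := by
    intro t
    have h1 : (volume (E t)).toReal = ∫ p, (E t).indicator (fun _ => (1 : ℝ)) p := by
      rw [integral_indicator (hEm t), setIntegral_const, smul_eq_mul, mul_one]
      rfl
    have h2 : ∫ p, (E t).indicator (fun _ => (1 : ℝ)) p =
        ∫ ξ, ∫ α, (E t).indicator (fun _ => (1 : ℝ)) (α, ξ) := by
      rw [Measure.volume_eq_prod]
      exact integral_prod_symm _ (hEint t)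
    rw [h1, h2]
    congr 1
    funext ξ
    exact hinner t ξ
  have hgint : ∀ t, Integrable (fun ξ => ∫ α in (-h - dp β ξ * t)..(h - dp β ξ * t), f ξ α) := by
    intro t
    have h1 := (hEint t).integral_prod_right
    have h2 : (fun ξ => ∫ α, (E t).indicator (fun _ => (1 : ℝ)) (α, ξ)) =
        fun ξ => ∫ α in (-h - dp β ξ * t)..(h - dp β ξ * t), f ξ α := by
      funext ξ
      exact hinner t ξ
    rw [h2] at h1
    exact h1
  -- sections are integrable
  have hfint : ∀ ξ, Integrable (f ξ) := by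
    intro ξ
    have hsec : MeasurableSet {α : ℝ | (α, ξ) ∈ D} :=
      (measurable_id.prodMk measurable_const) hDm
    have he : f ξ = {α : ℝ | (α, ξ) ∈ D}.indicator (fun _ => (1 : ℝ)) := by
      funext α
      simp only [hf, indicator, Set.mem_ofPred_eq]
    rw [he, integrable_indicator_iff hsec]
    refine integrableOn_const (hs := ?_)
    have hsub : {α : ℝ | (α, ξ) ∈ D} ⊆ Icc (-R) R := fun α hα => abs_le.1 (hDb _ hα).1
    exact (lt_of_le_of_lt (measure_mono hsub) measure_Icc_lt_top).ne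
  set A : R2 → ℝ := fun ξ => ∫ x in (0 : ℝ)..τ, dp β ξ * f ξ (h - dp β ξ * x) with hA
  have hsymm : ∀ (ξ : R2) (α : ℝ), f (-ξ) (-α) = f ξ α := by
    intro ξ α
    simp only [hf]
    by_cases h1 : (α, ξ) ∈ D
    · have h2 : (-α, -ξ) ∈ D := (hDs (α, ξ)).1 h1
      rw [indicator_of_mem h1, indicator_of_mem h2]
    · have h2 : (-α, -ξ) ∉ D := fun hc => h1 ((hDs (α, ξ)).2 hc)
      rw [indicator_of_notMem h1, indicator_of_notMem h2]
  have hdpn : ∀ ξ : R2, dp β (-ξ) = -dp β ξ := by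
    intro ξ
    simp only [dp, Prod.fst_neg, Prod.snd_neg]
    ring
  have hpt : ∀ ξ, ∫ α in (-h - dp β ξ * τ)..(h - dp β ξ * τ), f ξ α =
      (∫ α in (-h - dp β ξ * 0)..(h - dp β ξ * 0), f ξ α) - A ξ - A (-ξ) := by
    intro ξ
    have i1 : ∀ a b : ℝ, IntervalIntegrable (f ξ) volume a b := fun a b =>
      (hfint ξ).intervalIntegrable
    have h1 := intervalIntegral.integral_interval_sub_interval_comm
      (i1 (-h - dp β ξ * τ) (h - dp β ξ * τ)) (i1 (-h - dp β ξ * 0) (h - dp β ξ * 0))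
      (i1 (-h - dp β ξ * τ) (-h - dp β ξ * 0))
    have h2 : A ξ = ∫ α in (h - dp β ξ * τ)..(h - dp β ξ * 0), f ξ α := by
      simp only [hA]
      rw [intervalIntegral.integral_const_mul]
      exact intervalIntegral.mul_integral_comp_sub_mul (f := f ξ) (a := 0) (b := τ) (dp β ξ) h
    have h3 : A (-ξ) = -∫ α in (-h - dp β ξ * τ)..(-h - dp β ξ * 0), f ξ α := by
      have e1 : A (-ξ) = -(dp β ξ * ∫ x in (0 : ℝ)..τ, f ξ (-h - dp β ξ * x)) := by
        simp only [hA]
        rw [intervalIntegral.integral_const_mul, hdpn]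
        have e2 : ∀ x : ℝ, f (-ξ) (h - -dp β ξ * x) = f ξ (-h - dp β ξ * x) := by
          intro x
          have : h - -dp β ξ * x = -(-h - dp β ξ * x) := by ring
          rw [this, hsymm]
        simp only [e2]
        ring
      rw [e1]
      congr 1
      exact intervalIntegral.mul_integral_comp_sub_mul (f := f ξ) (a := 0) (b := τ) (dp β ξ) (-h)
    rw [h2, h3]
    linarith
  -- Fubini
  have hGmeas : Measurable (fun p : R2 × ℝ => dp β p.1 * f p.1 (h - dp β p.1 * p.2)) := by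
    have m1 : Measurable (fun p : R2 × ℝ => dp β p.1) := (cont_dp β).measurable.comp measurable_fst
    have m2 : Measurable (fun p : R2 × ℝ => (h - dp β p.1 * p.2, p.1)) :=
      (measurable_const.sub (m1.mul measurable_snd)).prodMk measurable_fst
    exact m1.mul (hind.comp m2)
  have hGint : Integrable (fun p : R2 × ℝ => dp β p.1 * f p.1 (h - dp β p.1 * p.2))
      (volume.prod (volume.restrict (uIoc 0 τ))) := by
    set B : Set (R2 × ℝ) := (Metric.closedBall (0 : R2) R) ×ˢ (univ : Set ℝ) with hB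
    have hBm : MeasurableSet B := measurableSet_closedBall.prod MeasurableSet.univ
    have hBfin : (volume.prod (volume.restrict (uIoc 0 τ))) B < ⊤ := by
      rw [hB, Measure.prod_prod, Measure.restrict_apply MeasurableSet.univ, univ_inter]
      apply ENNReal.mul_lt_top
      · exact Metric.isBounded_closedBall.measure_lt_top
      · rw [Set.uIoc]
        exact measure_Ioc_lt_top
    have hdom : Integrable (B.indicator (fun _ => (|β.1| + |β.2|) * R))
        (volume.prod (volume.restrict (uIoc 0 τ))) := by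
      rw [integrable_indicator_iff hBm]
      exact integrableOn_const (hs := hBfin.ne)
    refine hdom.mono' hGmeas.aestronglyMeasurable (Eventually.of_forall ?_)
    intro p
    by_cases h1 : (h - dp β p.1 * p.2, p.1) ∈ D
    · obtain ⟨-, h2, h3⟩ := hDb _ h1
      have hpB : p ∈ B := by
        refine ⟨?_, mem_univ _⟩
        rw [mem_closedBall_zero_iff, Prod.norm_def, Real.norm_eq_abs, Real.norm_eq_abs]
        exact max_le h2 h3
      rw [indicator_of_mem hpB]
      simp only [hf, indicator_of_mem h1, mul_one]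
      rw [Real.norm_eq_abs]
      have h4 : |β.1 * p.1.1| ≤ |β.1| * R := by
        rw [abs_mul]; exact mul_le_mul_of_nonneg_left h2 (abs_nonneg _)
      have h5 : |β.2 * p.1.2| ≤ |β.2| * R := by
        rw [abs_mul]; exact mul_le_mul_of_nonneg_left h3 (abs_nonneg _)
      have h6 := abs_add_le (β.1 * p.1.1) (β.2 * p.1.2)
      have e : dp β p.1 = β.1 * p.1.1 + β.2 * p.1.2 := rfl
      rw [e]
      linarith
    · simp only [hf, indicator_of_notMem h1, mul_zero, norm_zero]
      by_cases hpB : p ∈ B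
      · rw [indicator_of_mem hpB]
        have hR0 : 0 ≤ R := by
          have h2 := hpB.1
          rw [mem_closedBall_zero_iff] at h2
          exact le_trans (norm_nonneg _) h2
        positivity
      · rw [indicator_of_notMem hpB]
  have hAeq : ∀ ξ, A ξ = (if (0 : ℝ) ≤ τ then (1 : ℝ) else -1) *
      ∫ x, dp β ξ * f ξ (h - dp β ξ * x) ∂(volume.restrict (uIoc 0 τ)) := by
    intro ξ
    simp only [hA]
    rw [intervalIntegral.intervalIntegral_eq_integral_uIoc, smul_eq_mul]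
  have hAint : Integrable A := by
    have h1 := hGint.integral_prod_left
    have h2 : A = fun ξ => (if (0 : ℝ) ≤ τ then (1 : ℝ) else -1) *
      ∫ x, dp β ξ * f ξ (h - dp β ξ * x) ∂(volume.restrict (uIoc 0 τ)) := by
      funext ξ
      exact hAeq ξ
    rw [h2]
    exact h1.const_mul _
  have hAtot : ∫ ξ, A ξ = ∫ x in (0 : ℝ)..τ, ∫ ξ in {ξ : R2 | (h - x * dp β ξ, ξ) ∈ D}, dp β ξ := by
    rw [intervalIntegral.intervalIntegral_eq_integral_uIoc, smul_eq_mul]
    have h1 : ∫ ξ, A ξ = (if (0 : ℝ) ≤ τ then (1 : ℝ) else -1) *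
        ∫ ξ, ∫ x, dp β ξ * f ξ (h - dp β ξ * x) ∂(volume.restrict (uIoc 0 τ)) := by
      rw [← integral_const_mul]
      congr 1
      funext ξ
      exact hAeq ξ
    rw [h1, integral_integral_swap hGint]
    congr 1
    congr 1
    funext x
    have hsec : MeasurableSet {ξ : R2 | (h - x * dp β ξ, ξ) ∈ D} := by
      have m : Measurable (fun ξ : R2 => (h - x * dp β ξ, ξ)) :=
        (measurable_const.sub (measurable_const.mul (cont_dp β).measurable)).prodMk measurable_id
      exact m hDm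
    rw [← integral_indicator hsec]
    congr 1
    funext ξ
    by_cases h2 : (h - x * dp β ξ, ξ) ∈ D
    · have h3 : (h - dp β ξ * x, ξ) ∈ D := by rw [mul_comm]; exact h2
      have h4 : ξ ∈ {ξ : R2 | (h - x * dp β ξ, ξ) ∈ D} := h2
      rw [indicator_of_mem h4]
      simp only [hf, indicator_of_mem h3, mul_one]
    · have h3 : (h - dp β ξ * x, ξ) ∉ D := by rw [mul_comm]; exact h2
      have h4 : ξ ∉ {ξ : R2 | (h - x * dp β ξ, ξ) ∈ D} := h2
      rw [indicator_of_notMem h4]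
      simp only [hf, indicator_of_notMem h3, mul_zero]
  have hAneg : ∫ ξ, A (-ξ) = ∫ ξ, A ξ := integral_neg_eq_self A volume
  have hAnegint : Integrable (fun ξ => A (-ξ)) := hAint.comp_neg
  show (volume (E τ)).toReal = (volume (E 0)).toReal - _
  rw [hvol τ, hvol 0, ← hAtot]
  have e : ∫ ξ, (∫ α in (-h - dp β ξ * τ)..(h - dp β ξ * τ), f ξ α) =
      ∫ ξ, ((∫ α in (-h - dp β ξ * 0)..(h - dp β ξ * 0), f ξ α) - A ξ - A (-ξ)) := by
    congr 1
    funext ξ
    exact hpt ξ
  have e2 : ∫ ξ, ((∫ α in (-h - dp β ξ * 0)..(h - dp β ξ * 0), f ξ α) - A ξ - A (-ξ)) =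
      (∫ ξ, ((∫ α in (-h - dp β ξ * 0)..(h - dp β ξ * 0), f ξ α) - A ξ)) - ∫ ξ, A (-ξ) :=
    integral_sub ((hgint 0).sub hAint) hAnegint
  have e3 : ∫ ξ, ((∫ α in (-h - dp β ξ * 0)..(h - dp β ξ * 0), f ξ α) - A ξ) =
      (∫ ξ, ∫ α in (-h - dp β ξ * 0)..(h - dp β ξ * 0), f ξ α) - ∫ ξ, A ξ :=
    integral_sub (hgint 0) hAint
  rw [e, e2, e3, hAneg]
  ring

/-- the chart of the space -/
theorem chart_vol (n0 p1 p2 : R3) (hd : 0 < de n0 p1 p2) (B : Set R3) (hB : MeasurableSet B) :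
    (volume B).toReal =
      de n0 p1 p2 * (volume {p : ℝ × R2 | chp n0 p1 p2 p.1 p.2 ∈ B}).toReal := by
  set κ := de n0 p1 p2 with hκ
  have hκ' := hd.ne'
  have hdet : de p1 p2 ((1 / κ) • n0) = 1 := by
    have e : de p1 p2 ((1 / κ) • n0) = (1 / κ) * de n0 p1 p2 := by
      simp [de, dt, cr]
      ring
    rw [e, ← hκ]
    field_simp
  have hmp := TLCaux.mp_lnp p1 p2 ((1 / κ) • n0) hdet
  have h1 := hmp.measure_preimage hB.nullMeasurableSet
  -- scaling of the last variable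
  have hpre : (fun p : (ℝ × ℝ) × ℝ => lnp p1 p2 ((1 / κ) • n0) p.1 p.2) ⁻¹' B =
      {p : (ℝ × ℝ) × ℝ | chp n0 p1 p2 (1 / κ * p.2) p.1 ∈ B} := by
    ext p
    have e : lnp p1 p2 ((1 / κ) • n0) p.1 p.2 = chp n0 p1 p2 (1 / κ * p.2) p.1 := by
      simp only [lnp, chp, smul_smul]
      rw [mul_comm p.2 (1 / κ)]
      abel
    rw [mem_preimage, e]
    rfl
  set B' : Set (ℝ × R2) := {p : ℝ × R2 | chp n0 p1 p2 p.1 p.2 ∈ B} with hB'
  have hcont : Continuous (fun p : ℝ × R2 => chp n0 p1 p2 p.1 p.2) := by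
    unfold chp
    exact ((continuous_fst.smul continuous_const).add
      ((continuous_fst.comp continuous_snd).smul continuous_const)).add
      ((continuous_snd.comp continuous_snd).smul continuous_const)
  have hB'm : MeasurableSet B' := hcont.measurable hB
  have hm2 : MeasurableSet {p : (ℝ × ℝ) × ℝ | chp n0 p1 p2 (1 / κ * p.2) p.1 ∈ B} := by
    have m : Measurable (fun p : (ℝ × ℝ) × ℝ => ((1 / κ * p.2, p.1) : ℝ × R2)) :=
      (measurable_const.mul measurable_snd).prodMk measurable_fst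
    exact m hB'm
  have h2 : volume {p : (ℝ × ℝ) × ℝ | chp n0 p1 p2 (1 / κ * p.2) p.1 ∈ B} =
      ENNReal.ofReal κ * volume B' := by
    have e1 : volume {p : (ℝ × ℝ) × ℝ | chp n0 p1 p2 (1 / κ * p.2) p.1 ∈ B} =
        ∫⁻ ξ : ℝ × ℝ, volume {t : ℝ | chp n0 p1 p2 (1 / κ * t) ξ ∈ B} := by
      rw [Measure.volume_eq_prod]
      exact Measure.prod_apply hm2
    have e2 : volume B' = ∫⁻ ξ : R2, volume {α : ℝ | chp n0 p1 p2 α ξ ∈ B} := by
      rw [Measure.volume_eq_prod]
      exact Measure.prod_apply_symm hB'm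
    have e3 : ∀ ξ : R2, volume {t : ℝ | chp n0 p1 p2 (1 / κ * t) ξ ∈ B} =
        ENNReal.ofReal κ * volume {α : ℝ | chp n0 p1 p2 α ξ ∈ B} := by
      intro ξ
      have h3 := Real.volume_preimage_mul_left (a := 1 / κ) (by positivity)
        {α : ℝ | chp n0 p1 p2 α ξ ∈ B}
      have h4 : (fun x : ℝ => 1 / κ * x) ⁻¹' {α : ℝ | chp n0 p1 p2 α ξ ∈ B} =
          {t : ℝ | chp n0 p1 p2 (1 / κ * t) ξ ∈ B} := rfl
      rw [h4] at h3
      rw [h3]
      congr 2
      rw [one_div, inv_inv, abs_of_pos hd]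
    rw [e1, e2]
    simp only [e3]
    rw [lintegral_const_mul']
    exact ENNReal.ofReal_ne_top
  rw [← h1, hpre, h2, ENNReal.toReal_mul, ENNReal.toReal_ofReal hd.le]

end TIL

theorem blk_TIL : Stmt_TIL := by
  intro ι _ _ y hy j n0 p1 p2 hC β
  obtain ⟨τ0, R, hτ0, hτ1, hbox⟩ := TIL.box y hy j n0 p1 p2 hC.hd (tb n0 p1 p2 β)
  refine ⟨τ0, hτ0, ?_⟩
  intro τ a hτ ha
  have hapos : ∀ i, 0 < a i := fun i => by
    have h1 := (abs_le.1 (ha i)).1
    linarith
  have hd : 0 < de n0 p1 p2 := hC.hd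
  have hcont : Continuous (fun p : ℝ × R2 => chp n0 p1 p2 p.1 p.2) := by
    unfold chp
    exact ((continuous_fst.smul continuous_const).add
      ((continuous_fst.comp continuous_snd).smul continuous_const)).add
      ((continuous_snd.comp continuous_snd).smul continuous_const)
  -- coordinates
  have hyj : ∀ (α : ℝ) (ξ : R2), dt (y j) (chp n0 p1 p2 α ξ) = α := by
    intro α ξ
    rw [TIL.dt_chp, hC.h0, hC.h1, hC.h2]
    ring
  have hmem : ∀ (t : ℝ) (α : ℝ) (ξ : R2),
      chp n0 p1 p2 α ξ ∈ KK (dv (yt y j (tb n0 p1 p2 β) t) a) ↔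
      (∀ l, l ≠ j → |dt (y l) (chp n0 p1 p2 α ξ)| ≤ a l) ∧ |α + t * dp β ξ| ≤ a j := by
    intro t α ξ
    rw [TIL.mem_dv _ _ hapos]
    have ej : dt (yt y j (tb n0 p1 p2 β) t j) (chp n0 p1 p2 α ξ) = α + t * dp β ξ := by
      have e1 : dt (yt y j (tb n0 p1 p2 β) t j) (chp n0 p1 p2 α ξ) =
          dt (y j) (chp n0 p1 p2 α ξ) + t * dt (tb n0 p1 p2 β) (chp n0 p1 p2 α ξ) := by
        unfold yt
        rw [Function.update_self]
        simp only [dt, Pi.add_apply, Pi.smul_apply, smul_eq_mul]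
        ring
      rw [e1, hyj, TIL.dt_tb n0 p1 p2 hd]
    have el : ∀ l, l ≠ j → dt (yt y j (tb n0 p1 p2 β) t l) (chp n0 p1 p2 α ξ) =
        dt (y l) (chp n0 p1 p2 α ξ) := by
      intro l hl
      unfold yt
      rw [Function.update_of_ne hl]
    constructor
    · intro h
      refine ⟨fun l hl => ?_, ?_⟩
      · rw [← el l hl]; exact h l
      · rw [← ej]; exact h j
    · intro h l
      by_cases hl : l = j
      · subst hl
        rw [ej]; exact h.2
      · rw [el l hl]; exact h.1 l hl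
  set D : Set (ℝ × R2) := {p | (∀ l, l ≠ j → |dt (y l) (chp n0 p1 p2 p.1 p.2)| ≤ a l) ∧
    |p.1| ≤ R ∧ |p.2.1| ≤ R ∧ |p.2.2| ≤ R} with hD
  have hDm : MeasurableSet D := by
    have c1 : IsClosed {p : ℝ × R2 | ∀ l, l ≠ j → |dt (y l) (chp n0 p1 p2 p.1 p.2)| ≤ a l} := by
      have e : {p : ℝ × R2 | ∀ l, l ≠ j → |dt (y l) (chp n0 p1 p2 p.1 p.2)| ≤ a l} =
          ⋂ l, ⋂ (_ : l ≠ j), {p : ℝ × R2 | |dt (y l) (chp n0 p1 p2 p.1 p.2)| ≤ a l} := by
        ext p
        simp only [Set.mem_ofPred_eq, mem_iInter]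
      rw [e]
      exact isClosed_iInter fun l => isClosed_iInter fun _ =>
        isClosed_le (CTV.cont_dt continuous_const hcont).abs continuous_const
    have c2 : IsClosed {p : ℝ × R2 | |p.1| ≤ R ∧ |p.2.1| ≤ R ∧ |p.2.2| ≤ R} :=
      (isClosed_le continuous_fst.abs continuous_const).inter
        ((isClosed_le (continuous_fst.comp continuous_snd).abs continuous_const).inter
          (isClosed_le (continuous_snd.comp continuous_snd).abs continuous_const))
    exact (c1.inter c2).measurableSet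
  have hneg : ∀ (α : ℝ) (ξ : R2), chp n0 p1 p2 (-α) (-ξ) = -chp n0 p1 p2 α ξ := by
    intro α ξ
    simp only [chp, Prod.fst_neg, Prod.snd_neg, neg_smul]
    abel
  have hdtn : ∀ (u x : R3), dt u (-x) = -dt u x := by
    intro u x
    simp only [dt, Pi.neg_apply]
    ring
  have hDs1 : ∀ p, p ∈ D → -p ∈ D := by
    intro p hp
    refine ⟨fun l hl => ?_, ?_, ?_, ?_⟩
    · have h1 := hp.1 l hl
      have e : chp n0 p1 p2 (-p).1 (-p).2 = -chp n0 p1 p2 p.1 p.2 := hneg p.1 p.2
      rw [e, hdtn, abs_neg]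
      exact h1
    · have h1 := hp.2.1
      rw [Prod.fst_neg, abs_neg]; exact h1
    · have h1 := hp.2.2.1
      rw [Prod.snd_neg, Prod.fst_neg, abs_neg]; exact h1
    · have h1 := hp.2.2.2
      rw [Prod.snd_neg, Prod.snd_neg, abs_neg]; exact h1
  have hDs : ∀ p, p ∈ D ↔ -p ∈ D := by
    intro p
    refine ⟨hDs1 p, fun h => ?_⟩
    have := hDs1 _ h
    rw [neg_neg] at this
    exact this
  have hcore := TIL.core D hDm R (fun p hp => hp.2) hDs (a j) (hapos j) β τ
  -- volumes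
  have hvol : ∀ t : ℝ, |t| ≤ τ0 → vo (dv (yt y j (tb n0 p1 p2 β) t) a) =
      de n0 p1 p2 * (volume {p : ℝ × R2 | p ∈ D ∧ |p.1 + t * dp β p.2| ≤ a j}).toReal := by
    intro t ht
    have hm : MeasurableSet (KK (dv (yt y j (tb n0 p1 p2 β) t) a)) := (CTV.closed_KK _).measurableSet
    unfold vo
    rw [TIL.chart_vol n0 p1 p2 hd _ hm]
    congr 3
    ext p
    constructor
    · intro hp
      have h1 := (hmem t p.1 p.2).1 hp
      have h2 := hbox t a ht ha p.1 p.2 hp
      exact ⟨⟨h1.1, h2.1, h2.2.1, h2.2.2⟩, h1.2⟩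
    · intro hp
      exact (hmem t p.1 p.2).2 ⟨hp.1.1, hp.2⟩
  have hy0 : dv y a = dv (yt y j (tb n0 p1 p2 β) 0) a := by
    rw [TIL.yt_zero]
  have hint : ∫ x in (0 : ℝ)..τ, ∫ ξ in {ξ : R2 | (a j - x * dp β ξ, ξ) ∈ D}, dp β ξ =
      ∫ x in (0 : ℝ)..τ, ∫ ξ in Fc y j n0 p1 p2 β a x, dp β ξ := by
    apply intervalIntegral.integral_congr
    intro x hx
    have hxτ : |x| ≤ τ0 := by
      rw [uIcc_eq_union] at hx
      rcases hx with hx | hx
      · rw [abs_of_nonneg hx.1]
        have h1 := le_trans (le_abs_self τ) hτ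
        exact le_trans hx.2 h1
      · rw [abs_of_nonpos hx.2]
        have h1 := le_trans (neg_le_abs τ) hτ
        have h2 := hx.1
        linarith
    show ∫ ξ in {ξ : R2 | (a j - x * dp β ξ, ξ) ∈ D}, dp β ξ =
      ∫ ξ in Fc y j n0 p1 p2 β a x, dp β ξ
    have e : {ξ : R2 | (a j - x * dp β ξ, ξ) ∈ D} = Fc y j n0 p1 p2 β a x := by
      ext ξ
      constructor
      · intro h l hl
        exact h.1 l hl
      · intro h
        have h1 : chp n0 p1 p2 (a j - x * dp β ξ) ξ ∈ KK (dv (yt y j (tb n0 p1 p2 β) x) a) := by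
          rw [hmem]
          refine ⟨fun l hl => h l hl, ?_⟩
          have e1 : a j - x * dp β ξ + x * dp β ξ = a j := by ring
          rw [e1, abs_of_pos (hapos j)]
        have h2 := hbox x a hxτ ha _ _ h1
        exact ⟨fun l hl => h l hl, h2.1, h2.2.1, h2.2.2⟩
    rw [e]
  rw [hy0, hvol τ hτ, hvol 0 (by rw [abs_zero]; exact hτ0.le), hcore, hint]
  ring

end Pool.G1
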