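import Pool.Agent.Work.MP_b5407d_g1.Interface

/-!
# G1, block `TN2`: second order form of `TNG` (helper9)

`p = 1 - ε`, `v = vo y`, `q = 3/p`, `F s = ∑ mu (1 + s z)^p`, `F 0 = v`; `TNG` gives
`vo (dv y (1 + s z)) ≤ G s := (F s)^q v^(1 - q)`, `G 0 = v`, and the second symmetric difference of `G` at `0` is
`s² (G'' 0 + o(1))` with `G'' 0 = 3 (2 + ε) m1²/v - 3 ε m2`.
-/

set_option autoImplicit false

open MeasureTheory Set Filter Topology

namespace Pool.G1

open Pool.T3 (R3 dt cr de K V S H Fam Pos pt Lam Q J lin)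

/-- second symmetric difference of a function with a derivative differentiable at `0` -/
theorem TN2.symdiff {G G' : ℝ → ℝ} {c : ℝ} (h1 : ∀ᶠ s : ℝ in 𝓝 0, HasDerivAt G (G' s) s)
    (h2 : HasDerivAt G' c 0) (η : ℝ) (hη : 0 < η) :
    ∀ᶠ s : ℝ in 𝓝 0, G s + G (-s) - 2 * G 0 ≤ s ^ 2 * (c + η) := by
  have h3 : ∀ᶠ s : ℝ in 𝓝 0, |G' s - G' 0 - c * s| ≤ η / 2 * |s| := by
    have h := (hasDerivAt_iff_isLittleO.1 h2).def (half_pos hη)
    filter_upwards [h] with s hs
    have e : G' s - G' 0 - (s - 0) • c = G' s - G' 0 - c * s := by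
      simp only [smul_eq_mul, sub_zero]
      ring
    rw [e, sub_zero, Real.norm_eq_abs, Real.norm_eq_abs] at hs
    exact hs
  obtain ⟨δ, hδ, hb⟩ := Metric.eventually_nhds_iff.1 (h1.and h3)
  have key : ∀ t : ℝ, 0 ≤ t → t < δ → G t + G (-t) - 2 * G 0 ≤ t ^ 2 * (c + η) := by
    intro t ht0 htδ
    have hder : ∀ s : ℝ, |s| < δ →
        HasDerivAt (fun s => G s + G (-s) - s ^ 2 * (c + η))
          (G' s - G' (-s) - 2 * s * (c + η)) s := by
      intro s hs
      have hs1 : dist s 0 < δ := by rw [Real.dist_eq, sub_zero]; exact hs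
      have hs2 : dist (-s) 0 < δ := by rw [Real.dist_eq, sub_zero, abs_neg]; exact hs
      have d1 : HasDerivAt G (G' s) s := (hb hs1).1
      have d2 : HasDerivAt G (G' (-s)) (-s) := (hb hs2).1
      have d3 : HasDerivAt (fun s : ℝ => G (-s)) (G' (-s) * (-1)) s :=
        d2.comp s (hasDerivAt_neg s)
      have d4 : HasDerivAt (fun s : ℝ => s ^ 2 * (c + η)) (2 * s * (c + η)) s := by
        have h := (hasDerivAt_pow 2 s).mul_const (c + η)
        have e : ((2 : ℕ) : ℝ) * s ^ (2 - 1) * (c + η) = 2 * s * (c + η) := by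
          norm_num
        rw [e] at h
        exact h
      have h := (d1.add d3).sub d4
      have e : G' s + G' (-s) * (-1) - 2 * s * (c + η) = G' s - G' (-s) - 2 * s * (c + η) := by ring
      rw [e] at h
      exact h
    have hanti : AntitoneOn (fun s => G s + G (-s) - s ^ 2 * (c + η)) (Icc 0 t) := by
      apply antitoneOn_of_deriv_nonpos (convex_Icc 0 t)
      · intro s hs
        have : |s| < δ := by
          rw [abs_of_nonneg hs.1]
          exact lt_of_le_of_lt hs.2 htδ
        exact (hder s this).continuousAt.continuousWithinAt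
      · intro s hs
        rw [interior_Icc] at hs
        have : |s| < δ := by
          rw [abs_of_nonneg hs.1.le]
          exact lt_trans hs.2 htδ
        exact (hder s this).differentiableAt.differentiableWithinAt
      · intro s hs
        rw [interior_Icc] at hs
        have hs0 : 0 < s := hs.1
        have hsa : |s| < δ := by
          rw [abs_of_nonneg hs.1.le]
          exact lt_trans hs.2 htδ
        have hs1 : dist s 0 < δ := by rw [Real.dist_eq, sub_zero]; exact hsa
        have hs2 : dist (-s) 0 < δ := by rw [Real.dist_eq, sub_zero, abs_neg]; exact hsa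
        have b1 := (hb hs1).2
        have b2 := (hb hs2).2
        rw [abs_of_pos hs0] at b1
        rw [abs_neg, abs_of_pos hs0] at b2
        have c1 := (abs_le.1 b1).2
        have c2 := (abs_le.1 b2).1
        rw [(hder s hsa).deriv]
        nlinarith
    have h := hanti (left_mem_Icc.2 ht0) (right_mem_Icc.2 ht0) ht0
    simp only [neg_zero] at h
    nlinarith
  rw [Metric.eventually_nhds_iff]
  refine ⟨δ, hδ, ?_⟩
  intro s hs
  rw [Real.dist_eq, sub_zero] at hs
  rcases le_total 0 s with h0 | h0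
  · rw [abs_of_nonneg h0] at hs
    exact key s h0 hs
  · rw [abs_of_nonpos h0] at hs
    have h := key (-s) (by linarith) hs
    rw [neg_neg] at h
    have e : (-s) ^ 2 = s ^ 2 := by ring
    rw [e] at h
    linarith

/-- the upper bound from `TNG`, raised to the power `3/p` -/
theorem TN2.raise {A v F p : ℝ} (hp : 0 < p) (hv : 0 < v) (hA : 0 ≤ A)
    (h : A ^ (p / 3) * v ^ (1 - p / 3) ≤ F) :
    A ≤ F ^ (3 / p) * v ^ (1 - 3 / p) := by
  have hq : 0 < 3 / p := by positivity
  have hl : 0 ≤ A ^ (p / 3) * v ^ (1 - p / 3) :=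
    mul_nonneg (Real.rpow_nonneg hA _) (Real.rpow_nonneg hv.le _)
  have h1 : (A ^ (p / 3) * v ^ (1 - p / 3)) ^ (3 / p) ≤ F ^ (3 / p) :=
    Real.rpow_le_rpow hl h hq.le
  rw [Real.mul_rpow (Real.rpow_nonneg hA _) (Real.rpow_nonneg hv.le _), ← Real.rpow_mul hA,
    ← Real.rpow_mul hv.le] at h1
  have e1 : p / 3 * (3 / p) = 1 := by
    field_simp
  have e2 : (1 - p / 3) * (3 / p) = 3 / p - 1 := by
    field_simp
  rw [e1, e2, Real.rpow_one] at h1
  have hv1 : 0 < v ^ (1 - 3 / p) := Real.rpow_pos_of_pos hv _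
  have h2 := mul_le_mul_of_nonneg_right h1 hv1.le
  rw [mul_assoc, ← Real.rpow_add hv] at h2
  have e3 : 3 / p - 1 + (1 - 3 / p) = 0 := by ring
  rw [e3, Real.rpow_zero, mul_one] at h2
  exact h2

theorem blk_TN2 (hTNG : Stmt_TNG) (hBAS : Stmt_BAS) : Stmt_TN2 := by
  intro N ε he0 he1 hLI ι _ _ hN y hy z η hη
  -- nonempty
  have hne : Nonempty ι := by
    by_contra hemp
    rw [not_nonempty_iff] at hemp
    obtain ⟨R, hR⟩ := hy.bd
    have hx : (fun _ => R + 1 : R3) ∈ KK y := by
      unfold KK K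
      intro i
      exact (hemp.false i).elim
    have h := hR _ hx 0
    have h1 : R + 1 ≤ |R + 1| := le_abs_self _
    have h2 : |R + 1| ≤ R := h
    linarith
  obtain ⟨hv, hsum, hmu, -⟩ := hBAS ι y hy.toNpb hne
  set v : ℝ := vo y with hvdef
  set p : ℝ := 1 - ε with hpdef
  have hp : 0 < p := by linarith
  set m1 : ℝ := ∑ i, mu y i * z i with hm1
  set m2 : ℝ := ∑ i, mu y i * z i ^ 2 with hm2
  set F : ℝ → ℝ := fun s => ∑ i, mu y i * (1 + s * z i) ^ p with hF
  set F1 : ℝ → ℝ := fun s => ∑ i, mu y i * (z i * p * (1 + s * z i) ^ (p - 1)) with hF1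
  have hpos : ∀ᶠ s : ℝ in 𝓝 0, ∀ i, 0 < 1 + s * z i := by
    rw [Filter.eventually_all]
    intro i
    have hc : Continuous (fun s : ℝ => 1 + s * z i) := by fun_prop
    have h0 : (0 : ℝ) < 1 + 0 * z i := by norm_num
    exact hc.continuousAt.eventually (lt_mem_nhds h0)
  have hlin : ∀ (i : ι) (s : ℝ), HasDerivAt (fun s : ℝ => 1 + s * z i) (z i) s := by
    intro i s
    have h := ((hasDerivAt_id s).mul_const (z i)).const_add 1
    rw [one_mul] at h
    exact h
  have hFd : ∀ s : ℝ, (∀ i, 0 < 1 + s * z i) → HasDerivAt F (F1 s) s := by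
    intro s hs
    have h : HasDerivAt (fun s => ∑ i, mu y i * (1 + s * z i) ^ p)
        (∑ i, mu y i * (z i * p * (1 + s * z i) ^ (p - 1))) s := by
      apply HasDerivAt.fun_sum
      intro i _
      exact ((hlin i s).rpow_const (Or.inl (hs i).ne')).const_mul (mu y i)
    exact h
  have hF1d : HasDerivAt F1 (∑ i, mu y i * (z i * p * (z i * (p - 1)))) 0 := by
    have h : HasDerivAt (fun s => ∑ i, mu y i * (z i * p * (1 + s * z i) ^ (p - 1)))
        (∑ i, mu y i * (z i * p * (z i * (p - 1) * (1 + 0 * z i) ^ (p - 1 - 1)))) 0 := by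
      apply HasDerivAt.fun_sum
      intro i _
      have h1 : (1 : ℝ) + 0 * z i ≠ 0 := by norm_num
      exact ((((hlin i 0).rpow_const (Or.inl h1)).const_mul (z i * p))).const_mul (mu y i)
    have e : (∑ i, mu y i * (z i * p * (z i * (p - 1) * (1 + 0 * z i) ^ (p - 1 - 1)))) =
        ∑ i, mu y i * (z i * p * (z i * (p - 1))) := by
      apply Finset.sum_congr rfl
      intro i _
      rw [zero_mul, add_zero, Real.one_rpow, mul_one]
    rw [e] at h
    exact h
  have hF0 : F 0 = v := by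
    show ∑ i, mu y i * (1 + 0 * z i) ^ p = v
    rw [← hsum]
    apply Finset.sum_congr rfl
    intro i _
    rw [zero_mul, add_zero, Real.one_rpow, mul_one]
  have hF10 : F1 0 = p * m1 := by
    show ∑ i, mu y i * (z i * p * (1 + 0 * z i) ^ (p - 1)) = p * m1
    rw [hm1, Finset.mul_sum]
    apply Finset.sum_congr rfl
    intro i _
    rw [zero_mul, add_zero, Real.one_rpow]
    ring
  have hF2 : ∑ i, mu y i * (z i * p * (z i * (p - 1))) = p * (p - 1) * m2 := by
    rw [hm2, Finset.mul_sum]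
    apply Finset.sum_congr rfl
    intro i _
    ring
  rw [hF2] at hF1d
  have hallpos0 : ∀ i, (0 : ℝ) < 1 + 0 * z i := fun i => by norm_num
  have hFcont : ContinuousAt F 0 := (hFd 0 hallpos0).continuousAt
  have hFpos : ∀ᶠ s : ℝ in 𝓝 0, 0 < F s := by
    have h0 : 0 < F 0 := by rw [hF0]; exact hv
    exact hFcont.eventually (lt_mem_nhds h0)
  set q : ℝ := 3 / p with hq
  have hG1 : ∀ᶠ s : ℝ in 𝓝 0, HasDerivAt (fun s => F s ^ q * v ^ (1 - q))
      (F1 s * q * F s ^ (q - 1) * v ^ (1 - q)) s := by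
    filter_upwards [hpos, hFpos] with s h1 h2
    exact ((hFd s h1).rpow_const (Or.inl h2.ne')).mul_const (v ^ (1 - q))
  have hG2 : HasDerivAt (fun s => F1 s * q * F s ^ (q - 1) * v ^ (1 - q))
      (3 * (2 + ε) * m1 ^ 2 / v - 3 * ε * m2) 0 := by
    have hFne : F 0 ≠ 0 := by rw [hF0]; exact hv.ne'
    have d1 : HasDerivAt (fun s => F s ^ (q - 1)) (F1 0 * (q - 1) * F 0 ^ (q - 1 - 1)) 0 :=
      (hFd 0 hallpos0).rpow_const (Or.inl hFne)
    have d2 := (((hF1d.mul_const q).mul d1)).mul_const (v ^ (1 - q))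
    have e : (p * (p - 1) * m2 * q * F 0 ^ (q - 1) +
        F1 0 * q * (F1 0 * (q - 1) * F 0 ^ (q - 1 - 1))) * v ^ (1 - q) =
        3 * (2 + ε) * m1 ^ 2 / v - 3 * ε * m2 := by
      rw [hF0, hF10]
      have a1 : v ^ (q - 1) * v ^ (1 - q) = 1 := by
        rw [← Real.rpow_add hv]
        have : q - 1 + (1 - q) = 0 := by ring
        rw [this, Real.rpow_zero]
      have a2 : v ^ (q - 1 - 1) * v ^ (1 - q) = v⁻¹ := by
        rw [← Real.rpow_add hv]
        have : q - 1 - 1 + (1 - q) = -1 := by ring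
        rw [this, Real.rpow_neg_one]
      have a3 : p * q = 3 := by
        rw [hq]
        field_simp
      have a4 : ε = 1 - p := by rw [hpdef]; ring
      calc (p * (p - 1) * m2 * q * v ^ (q - 1) +
            p * m1 * q * (p * m1 * (q - 1) * v ^ (q - 1 - 1))) * v ^ (1 - q)
          = (p * q) * (p - 1) * m2 * (v ^ (q - 1) * v ^ (1 - q)) +
            (p * q) * (p * q - p) * m1 ^ 2 * (v ^ (q - 1 - 1) * v ^ (1 - q)) := by ring
        _ = 3 * (2 + ε) * m1 ^ 2 / v - 3 * ε * m2 := by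
            rw [a1, a2, a3, a4]
            ring
    rw [← e]
    exact d2
  have hsd := TN2.symdiff hG1 hG2 η hη
  have hposn : ∀ᶠ s : ℝ in 𝓝 0, ∀ i, 0 < 1 + (-s) * z i := by
    have hc : Tendsto (fun s : ℝ => -s) (𝓝 0) (𝓝 0) := by
      have h : Continuous (fun s : ℝ => -s) := continuous_neg
      have h0 := h.tendsto 0
      rw [neg_zero] at h0
      exact h0
    exact hc.eventually hpos
  filter_upwards [hsd, hpos, hposn] with s h1 h2 h3
  have hup : ∀ t : ℝ, (∀ i, 0 < 1 + t * z i) →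
      vo (dv y (fun i => 1 + t * z i)) ≤ F t ^ q * v ^ (1 - q) := by
    intro t ht
    have h := hTNG N ε he0 he1 hLI ι hN y hy (fun i => 1 + t * z i) ht
    exact TN2.raise hp hv ENNReal.toReal_nonneg h
  have u1 := hup s h2
  have u2 := hup (-s) h3
  have e1 : (fun i => 1 + -s * z i) = (fun i => 1 - s * z i) := by
    funext i
    ring
  rw [e1] at u2
  have e0 : F 0 ^ q * v ^ (1 - q) = v := by
    rw [hF0, ← Real.rpow_add hv]
    have : q + (1 - q) = 1 := by ring
    rw [this, Real.rpow_one]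
  simp only [e0] at h1
  have h1' : F s ^ q * v ^ (1 - q) + F (-s) ^ q * v ^ (1 - q) - 2 * v ≤
      s ^ 2 * (3 * (2 + ε) * m1 ^ 2 / v - 3 * ε * m2 + η) := h1
  linarith

end Pool.G1
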