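import Pool.Agent.Work.MP_b5407d_g1.Interface

/-!
# G1, block `TNG` (helper17): `TAN` at good families, by density and continuity
-/

set_option autoImplicit false

open MeasureTheory Set Filter Topology

namespace Pool.G1

open Pool.T3 (R3 dt cr de K V S H Fam Pos pt Lam Q J lin)

namespace TNG

/-- a family with a bounded body is not empty -/
theorem nonempty_of_bd {ι : Type} {y : ι → R3} (h : ∃ R : ℝ, ∀ x ∈ KK y, ∀ k, |x k| ≤ R) :
    Nonempty ι := by
  by_contra hne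
  rw [not_nonempty_iff] at hne
  obtain ⟨R, hR⟩ := h
  have h1 := hR (fun _ => |R| + 1) (fun i => (hne.false i).elim) 0
  rw [abs_of_nonneg (by positivity)] at h1
  linarith [le_abs_self R]

theorem dt_smul_left (c : ℝ) (a x : R3) : dt (c • a) x = c * dt a x := by
  simp only [dt, Pi.smul_apply, smul_eq_mul]; ring

theorem dt_smul_right (c : ℝ) (a x : R3) : dt a (c • x) = c * dt a x := by
  simp only [dt, Pi.smul_apply, smul_eq_mul]; ring

/-- boundedness is kept by `dv` -/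
theorem bd_dv {ι : Type} [Fintype ι] {y : ι → R3} {a : ι → ℝ} (ha : Pos a)
    (h : ∃ R : ℝ, ∀ x ∈ KK y, ∀ k, |x k| ≤ R) :
    ∃ R : ℝ, ∀ x ∈ KK (dv y a), ∀ k, |x k| ≤ R := by
  have hne : Nonempty ι := nonempty_of_bd h
  obtain ⟨R, hR⟩ := h
  have hM : ∀ i, a i ≤ ∑ i, a i := fun i =>
    Finset.single_le_sum (fun j _ => (ha j).le) (Finset.mem_univ i)
  have hM0 : 0 < ∑ i, a i := lt_of_lt_of_le (ha (Classical.arbitrary ι)) (hM _)
  refine ⟨(∑ i, a i) * R, fun x hx k => ?_⟩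
  have h1 : (1 / ∑ i, a i) • x ∈ KK y := by
    intro i
    have h2 : |dt (dv y a i) x| ≤ 1 := hx i
    have h3 : dt (dv y a i) x = (1 / a i) * dt (y i) x := dt_smul_left _ _ _
    rw [h3, abs_mul, abs_of_pos (one_div_pos.2 (ha i)), one_div, inv_mul_le_iff₀ (ha i), mul_one]
      at h2
    change |dt (y i) ((1 / ∑ i, a i) • x)| ≤ 1
    rw [dt_smul_right, abs_mul, abs_of_pos (one_div_pos.2 hM0), one_div, inv_mul_le_iff₀ hM0,
      mul_one]
    exact h2.trans (hM i)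
  have h4 := hR _ h1 k
  rw [Pi.smul_apply, smul_eq_mul, abs_mul, abs_of_pos (one_div_pos.2 hM0), one_div,
    inv_mul_le_iff₀ hM0] at h4
  exact h4

theorem cont_dv {ι : Type} (a : ι → ℝ) : Continuous (fun y : ι → R3 => dv y a) := by
  refine continuous_pi fun i => ?_
  exact (continuous_apply i).const_smul (1 / a i)

end TNG

/-- block `TNG` -/
theorem blk_TNG (hTAN : Stmt_TAN) (hDEN : Stmt_DEN) (hCTV : Stmt_CTV) (hBAS : Stmt_BAS) :
    Stmt_TNG := by
  intro N ε hε0 hε1 hLI ι _ _ hcard y hG a ha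
  have hne : Nonempty ι := TNG.nonempty_of_bd hG.bd
  have h3 : 3 ≤ Fintype.card ι := (hBAS ι y hG.toNpb hne).2.2.2.2.2.1
  have hcl : y ∈ closure {y' : ι → R3 | FamG y'} := by
    rw [Metric.mem_closure_iff]
    intro η hη
    obtain ⟨y', h1, h2⟩ := hDEN ι h3 y η hη
    refine ⟨y', h1, ?_⟩
    rw [dist_comm, dist_pi_lt_iff hη]
    intro i
    rw [dist_pi_lt_iff hη]
    intro k
    rw [Real.dist_eq]
    exact h2 i k
  obtain ⟨ys, hys, hlim⟩ := mem_closure_iff_seq_limit.1 hcl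
  have hε3 : 0 < (1 - ε) / 3 := by linarith
  have hε4 : 0 < 1 - (1 - ε) / 3 := by linarith
  have c1 : Tendsto (fun n => vo (dv (ys n) a)) atTop (𝓝 (vo (dv y a))) := by
    have h1 : ContinuousAt vo (dv y a) := ((hCTV.1 ι (dv y a) (TNG.bd_dv ha hG.bd))).1
    have h2 : Tendsto (fun n => dv (ys n) a) atTop (𝓝 (dv y a)) :=
      ((TNG.cont_dv a).tendsto y).comp hlim
    exact h1.tendsto.comp h2
  have c2 : Tendsto (fun n => vo (ys n)) atTop (𝓝 (vo y)) :=
    ((hCTV.1 ι y hG.bd)).1.tendsto.comp hlim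
  have c3 : Tendsto (fun n => ∑ i, mu (ys n) i * a i ^ (1 - ε)) atTop
      (𝓝 (∑ i, mu y i * a i ^ (1 - ε))) := by
    refine tendsto_finsetSum _ fun i _ => ?_
    exact ((hCTV.2 ι y hG.toNpb i).tendsto.comp hlim).mul_const _
  have c4 : Tendsto (fun n => vo (dv (ys n) a) ^ ((1 - ε) / 3) * vo (ys n) ^ (1 - (1 - ε) / 3))
      atTop (𝓝 (vo (dv y a) ^ ((1 - ε) / 3) * vo y ^ (1 - (1 - ε) / 3))) :=
    (c1.rpow_const (Or.inr hε3.le)).mul (c2.rpow_const (Or.inr hε4.le))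
  exact le_of_tendsto_of_tendsto' c4 c3 fun n => hTAN N ε hε0 hε1 hLI ι hcard (ys n) (hys n) a ha

end Pool.G1
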