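import Pool.Agent.Work.MP_b5407d_g1.Interface

/-!
# `WAL`: the area of the projection of a wall (helper65)
-/

set_option autoImplicit false

open MeasureTheory Set Filter Topology

namespace Pool.G1

open Pool.T3 (R3 dt cr de K V S H Fam Pos pt Lam Q J lin)

namespace WALaux

theorem dt_add (a b c : R3) : dt a (b + c) = dt a b + dt a c := by
  simp only [dt, Pi.add_apply]; ring

theorem dt_smul (a b : R3) (r : ℝ) : dt a (r • b) = r * dt a b := by
  simp only [dt, Pi.smul_apply, smul_eq_mul]; ring

theorem dt_comm (a b : R3) : dt a b = dt b a := by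
  simp only [dt]; ring

/-- scalar products with `pt` -/
theorem dt_pt_left {ι : Type} (y : ι → R3) (i k : ι) (α β : ℝ) (h : cr (y i) (y k) ≠ 0) :
    dt (y i) (pt y i k α β) = α := by
  have hT : dt (cr (y i) (y k)) (cr (y i) (y k)) ≠ 0 := by
    intro h0
    apply h
    have : (cr (y i) (y k)) 0 ^ 2 + (cr (y i) (y k)) 1 ^ 2 + (cr (y i) (y k)) 2 ^ 2 = 0 := by
      simp only [dt] at h0; linarith [h0]
    have h1 : (cr (y i) (y k)) 0 = 0 := by nlinarith [sq_nonneg ((cr (y i) (y k)) 0), sq_nonneg ((cr (y i) (y k)) 1), sq_nonneg ((cr (y i) (y k)) 2)]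
    have h2 : (cr (y i) (y k)) 1 = 0 := by nlinarith [sq_nonneg ((cr (y i) (y k)) 0), sq_nonneg ((cr (y i) (y k)) 1), sq_nonneg ((cr (y i) (y k)) 2)]
    have h3 : (cr (y i) (y k)) 2 = 0 := by nlinarith [sq_nonneg ((cr (y i) (y k)) 0), sq_nonneg ((cr (y i) (y k)) 1), sq_nonneg ((cr (y i) (y k)) 2)]
    funext j; fin_cases j <;> simp_all
  have key : dt (y i) (α • cr (y k) (cr (y i) (y k)) + β • cr (cr (y i) (y k)) (y i)) =
      α * dt (cr (y i) (y k)) (cr (y i) (y k)) := by
    simp [dt, cr]; ring
  rw [pt, dt_smul, key]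
  field_simp

theorem dt_pt_right {ι : Type} (y : ι → R3) (i k : ι) (α β : ℝ) (h : cr (y i) (y k) ≠ 0) :
    dt (y k) (pt y i k α β) = β := by
  have hT : dt (cr (y i) (y k)) (cr (y i) (y k)) ≠ 0 := by
    intro h0
    apply h
    have : (cr (y i) (y k)) 0 ^ 2 + (cr (y i) (y k)) 1 ^ 2 + (cr (y i) (y k)) 2 ^ 2 = 0 := by
      simp only [dt] at h0; linarith [h0]
    have h1 : (cr (y i) (y k)) 0 = 0 := by nlinarith [sq_nonneg ((cr (y i) (y k)) 0), sq_nonneg ((cr (y i) (y k)) 1), sq_nonneg ((cr (y i) (y k)) 2)]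
    have h2 : (cr (y i) (y k)) 1 = 0 := by nlinarith [sq_nonneg ((cr (y i) (y k)) 0), sq_nonneg ((cr (y i) (y k)) 1), sq_nonneg ((cr (y i) (y k)) 2)]
    have h3 : (cr (y i) (y k)) 2 = 0 := by nlinarith [sq_nonneg ((cr (y i) (y k)) 0), sq_nonneg ((cr (y i) (y k)) 1), sq_nonneg ((cr (y i) (y k)) 2)]
    funext j; fin_cases j <;> simp_all
  have key : dt (y k) (α • cr (y k) (cr (y i) (y k)) + β • cr (cr (y i) (y k)) (y i)) =
      β * dt (cr (y i) (y k)) (cr (y i) (y k)) := by
    simp [dt, cr]; ring
  rw [pt, dt_smul, key]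
  field_simp

theorem dtT_pos (T : R3) (h : T ≠ 0) : 0 < dt T T := by
  rcases lt_or_eq_of_le (show 0 ≤ dt T T by simp only [dt]; nlinarith [mul_self_nonneg (T 0), mul_self_nonneg (T 1), mul_self_nonneg (T 2)]) with h1 | h1
  · exact h1
  · exfalso
    apply h
    have h0 : T 0 * T 0 + T 1 * T 1 + T 2 * T 2 = 0 := by simp only [dt] at h1; linarith
    have a0 : T 0 = 0 := by nlinarith [mul_self_nonneg (T 0), mul_self_nonneg (T 1), mul_self_nonneg (T 2)]
    have a1 : T 1 = 0 := by nlinarith [mul_self_nonneg (T 0), mul_self_nonneg (T 1), mul_self_nonneg (T 2)]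
    have a2 : T 2 = 0 := by nlinarith [mul_self_nonneg (T 0), mul_self_nonneg (T 1), mul_self_nonneg (T 2)]
    funext j; fin_cases j <;> simp_all

/-- a vector orthogonal to `Y` and `Y'` is a multiple of the cross product -/
theorem orth (Y Y' v : R3) (h : cr Y Y' ≠ 0) (h1 : dt Y v = 0) (h2 : dt Y' v = 0) :
    v = (dt (cr Y Y') v / dt (cr Y Y') (cr Y Y')) • cr Y Y' := by
  have hT := dtT_pos _ h
  have e : ∀ j, dt (cr Y Y') (cr Y Y') * v j = dt (cr Y Y') v * (cr Y Y') j := by
    intro j
    have : dt (cr Y Y') (cr Y Y') * v j - dt (cr Y Y') v * (cr Y Y') j =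
        - (cr (cr Y Y') Y') j * dt Y v + (cr (cr Y Y') Y) j * dt Y' v := by
      fin_cases j <;> simp [dt, cr] <;> ring
    rw [h1, h2] at this
    linarith
  funext j
  have := e j
  simp only [Pi.smul_apply, smul_eq_mul]
  field_simp
  linarith

/-- Cramer -/
theorem cramer (b1 b2 a x : R3) (j : Fin 3) :
    de b1 b2 a * x j = de x b2 a * b1 j + de b1 x a * b2 j + de b1 b2 x * a j := by
  fin_cases j <;> simp [de, dt, cr] <;> ring


/-- the cone over the chord in the coordinates `(σ, c)` -/
def Tri {ι : Type} (i k : ι) (A D : ι → ℝ) : Set (ℝ × ℝ) :=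
  {p | 0 ≤ p.1 ∧ p.1 ≤ 1 ∧ ∀ m, m ≠ i → m ≠ k → |p.1 * A m + p.2 * D m| ≤ p.1}

theorem Tri_closed {ι : Type} (i k : ι) (A D : ι → ℝ) : IsClosed (Tri i k A D) := by
  have e : Tri i k A D = {p : ℝ × ℝ | 0 ≤ p.1} ∩ {p : ℝ × ℝ | p.1 ≤ 1} ∩
      ⋂ (m : ι) (_ : m ≠ i) (_ : m ≠ k), {p : ℝ × ℝ | |p.1 * A m + p.2 * D m| ≤ p.1} := by
    ext p
    simp only [Tri, mem_setOf_eq, mem_inter_iff, mem_iInter]
    tauto
  rw [e]
  refine ((isClosed_le continuous_const continuous_fst).inter
    (isClosed_le continuous_fst continuous_const)).inter ?_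
  refine isClosed_iInter fun m => isClosed_iInter fun _ => isClosed_iInter fun _ => ?_
  exact isClosed_le (by fun_prop) continuous_fst

theorem vol_Tri {ι : Type} (i k : ι) (A D : ι → ℝ) :
    volume (Tri i k A D) = ENNReal.ofReal (1 / 2) *
      volume {c : ℝ | ∀ m, m ≠ i → m ≠ k → |A m + c * D m| ≤ 1} := by
  set Ch : Set ℝ := {c : ℝ | ∀ m, m ≠ i → m ≠ k → |A m + c * D m| ≤ 1} with hCh
  have hm : MeasurableSet (Tri i k A D) := (Tri_closed i k A D).measurableSet
  rw [Measure.volume_eq_prod, Measure.prod_apply hm]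
  have h0 : ∀ᵐ σ : ℝ, volume (Prod.mk σ ⁻¹' (Tri i k A D)) =
      (Ioc (0 : ℝ) 1).indicator (fun σ => ENNReal.ofReal σ * volume Ch) σ := by
    have : ∀ᵐ σ : ℝ, σ ≠ 0 := by
      have : ({0}ᶜ : Set ℝ) ∈ ae (volume : Measure ℝ) := by
        rw [compl_mem_ae_iff]; exact measure_singleton 0
      filter_upwards [this] with x hx
      simpa using hx
    filter_upwards [this] with σ hσ
    by_cases h1 : σ ∈ Ioc (0 : ℝ) 1
    · rw [indicator_of_mem h1]
      have e : Prod.mk σ ⁻¹' (Tri i k A D) = (fun c => σ⁻¹ * c) ⁻¹' Ch := by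
        ext c
        simp only [mem_preimage, Tri, mem_setOf_eq, hCh]
        constructor
        · rintro ⟨_, _, h⟩ m hmi hmk
          have := h m hmi hmk
          have e2 : A m + σ⁻¹ * c * D m = σ⁻¹ * (σ * A m + c * D m) := by
            field_simp
          rw [e2, abs_mul, abs_of_pos (inv_pos.mpr h1.1)]
          calc σ⁻¹ * |σ * A m + c * D m| ≤ σ⁻¹ * σ :=
                mul_le_mul_of_nonneg_left this (inv_pos.mpr h1.1).le
            _ = 1 := by field_simp
        · intro h
          refine ⟨h1.1.le, h1.2, fun m hmi hmk => ?_⟩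
          have := h m hmi hmk
          have e2 : σ * A m + c * D m = σ * (A m + σ⁻¹ * c * D m) := by
            field_simp
          rw [e2, abs_mul, abs_of_pos h1.1]
          calc σ * |A m + σ⁻¹ * c * D m| ≤ σ * 1 := mul_le_mul_of_nonneg_left this h1.1.le
            _ = σ := mul_one _
      rw [e, Real.volume_preimage_mul_left (inv_ne_zero hσ), inv_inv, abs_of_pos h1.1]
    · rw [indicator_of_notMem h1]
      have e : Prod.mk σ ⁻¹' (Tri i k A D) = ∅ := by
        ext c
        simp only [mem_preimage, Tri, mem_setOf_eq, mem_empty_iff_false, iff_false]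
        rintro ⟨h2, h3, _⟩
        exact h1 ⟨lt_of_le_of_ne h2 (Ne.symm hσ), h3⟩
      rw [e, measure_empty]
  rw [lintegral_congr_ae h0, lintegral_indicator measurableSet_Ioc,
    lintegral_mul_const _ ENNReal.measurable_ofReal]
  congr 1
  rw [← ofReal_integral_eq_lintegral_ofReal]
  · congr 1
    rw [← intervalIntegral.integral_of_le zero_le_one, integral_id]
    norm_num
  · exact (continuous_id.integrableOn_Icc).mono_set Ioc_subset_Icc_self
  · filter_upwards [ae_restrict_mem measurableSet_Ioc] with x hx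
    exact hx.1.le

end WALaux

open WALaux

theorem blk_WAL : Stmt_WAL := by
  intro ι _ y hy i k hik s hs b1 b2 a hD W
  have hs2 : s * s = 1 := by rcases hs with h | h <;> rw [h] <;> norm_num
  set D := de b1 b2 a with hDdef
  have hD0 : D ≠ 0 := by
    intro h; rw [h] at hD; simp at hD
  set T := cr (y i) (y k) with hT
  have hT0 : T ≠ 0 := hy.np i k hik
  set q := pt y i k 1 s with hq
  have hq1 : dt (y i) q = 1 := dt_pt_left y i k 1 s (hy.np i k hik)
  have hq2 : dt (y k) q = s := dt_pt_right y i k 1 s (hy.np i k hik)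
  have hT1 : dt (y i) T = 0 := by simp [hT, dt, cr]; ring
  have hT2 : dt (y k) T = 0 := by simp [hT, dt, cr]; ring
  have hdtm : ∀ (σ c : ℝ) (m : ι), dt (y m) (σ • q + c • T) =
      σ * dt (y m) q + c * de (y i) (y k) (y m) := by
    intro σ c m
    rw [dt_add, dt_smul, dt_smul, dt_comm (y m) T]
    rfl
  -- the linear map
  set M : Matrix (Fin 2) (Fin 2) ℝ :=
    !![de q b2 a / D, de T b2 a / D; de b1 q a / D, de b1 T a / D] with hM
  set L : (ℝ × ℝ) →ₗ[ℝ] (ℝ × ℝ) :=
    Matrix.toLin (Module.Basis.finTwoProd ℝ) (Module.Basis.finTwoProd ℝ) M with hL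
  have hLa : ∀ p : ℝ × ℝ, L p = (de q b2 a / D * p.1 + de T b2 a / D * p.2,
      de b1 q a / D * p.1 + de b1 T a / D * p.2) := by
    intro p
    rw [hL, hM, Matrix.toLin_finTwoProd_apply]
  have hdet : LinearMap.det L = de q T a / D := by
    rw [hL, LinearMap.det_toLin, hM, Matrix.det_fin_two_of]
    have : de q b2 a * de b1 T a - de T b2 a * de b1 q a = D * de q T a := by
      simp only [hDdef, de, dt, cr]
      simp
      ring
    field_simp
    linarith
  set Tr := Tri i k (fun m => dt (y m) q) (fun m => de (y i) (y k) (y m)) with hTr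
  have hdex : ∀ σ c : ℝ, de (σ • q + c • T) b2 a = σ * de q b2 a + c * de T b2 a := by
    intro σ c
    simp only [de, dt, cr, Pi.add_apply, Pi.smul_apply, smul_eq_mul]
    simp
    ring
  have hdex2 : ∀ σ c : ℝ, de b1 (σ • q + c • T) a = σ * de b1 q a + c * de b1 T a := by
    intro σ c
    simp only [de, dt, cr, Pi.add_apply, Pi.smul_apply, smul_eq_mul]
    simp
    ring
  have hW : W = L '' Tr := by
    ext z
    constructor
    · rintro ⟨t, h1, h2, h3⟩
      set x := lnp b1 b2 a z t with hx
      set σ := dt (y i) x with hσ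
      have hσ0 : 0 ≤ σ := le_trans (abs_nonneg _) (h2 i)
      have hk : dt (y k) x = s * σ := by
        rw [h1, ← mul_assoc, hs2, one_mul]
      have hv1 : dt (y i) (x + (-σ) • q) = 0 := by
        rw [dt_add, dt_smul, hq1, ← hσ]; ring
      have hv2 : dt (y k) (x + (-σ) • q) = 0 := by
        rw [dt_add, dt_smul, hq2, hk]; ring
      have ho := orth (y i) (y k) (x + (-σ) • q) (hy.np i k hik) hv1 hv2
      rw [← hT] at ho
      set c := dt T (x + (-σ) • q) / dt T T with hc
      have hx2 : x = σ • q + c • T := by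
        rw [← ho]
        rw [neg_smul]
        abel
      refine ⟨(σ, c), ⟨hσ0, h3, fun m _ _ => ?_⟩, ?_⟩
      · have := h2 m
        rw [hx2, hdtm] at this
        exact this
      · rw [hLa]
        have e1 : de x b2 a = z.1 * D := by
          rw [hx, lnp, hDdef]
          simp only [de, dt, cr, Pi.add_apply, Pi.smul_apply, smul_eq_mul]
          simp
          ring
        have e2 : de b1 x a = z.2 * D := by
          rw [hx, lnp, hDdef]
          simp only [de, dt, cr, Pi.add_apply, Pi.smul_apply, smul_eq_mul]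
          simp
          ring
        have e3 := hdex σ c
        have e4 := hdex2 σ c
        rw [← hx2] at e3 e4
        ext
        · simp only
          rw [e1] at e3
          field_simp
          linarith
        · simp only
          rw [e2] at e4
          field_simp
          linarith
    · rintro ⟨⟨σ, c⟩, ⟨h1, h2, h3⟩, rfl⟩
      simp only at h1 h2 h3
      refine ⟨de b1 b2 (σ • q + c • T) / D, ?_⟩
      have hx : lnp b1 b2 a (L (σ, c)) (de b1 b2 (σ • q + c • T) / D) = σ • q + c • T := by
        rw [hLa, lnp]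
        funext j
        have hc := cramer b1 b2 a (σ • q + c • T) j
        rw [hdex, hdex2, ← hDdef] at hc
        simp only [Pi.add_apply, Pi.smul_apply, smul_eq_mul] at hc ⊢
        field_simp
        linarith
      rw [hx]
      have d1 : dt (y i) (σ • q + c • T) = σ := by
        rw [dt_add, dt_smul, dt_smul, hq1, hT1]; ring
      have d2 : dt (y k) (σ • q + c • T) = s * σ := by
        rw [dt_add, dt_smul, dt_smul, hq2, hT2]; ring
      refine ⟨?_, fun m => ?_, ?_⟩
      · rw [d1, d2, ← mul_assoc, hs2, one_mul]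
      · rw [d1]
        by_cases hmi : m = i
        · rw [hmi, d1, abs_of_nonneg h1]
        · by_cases hmk : m = k
          · rw [hmk, d2, abs_mul]
            have : |s| = 1 := by rcases hs with h | h <;> rw [h] <;> norm_num
            rw [this, one_mul, abs_of_nonneg h1]
          · rw [hdtm]
            exact h3 m hmi hmk
      · rw [d1]; exact h2
  -- compactness
  obtain ⟨R, hR⟩ := hy.bd
  have hTrc : IsCompact Tr := by
    obtain ⟨j, hj⟩ : ∃ j, T j ≠ 0 := by
      by_contra h
      push_neg at h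
      exact hT0 (funext h)
    refine IsCompact.of_isClosed_subset
      ((isCompact_Icc (a := (0 : ℝ)) (b := 1)).prod
        (isCompact_Icc (a := -((R + |q j|) / |T j|)) (b := (R + |q j|) / |T j|)))
      (Tri_closed _ _ _ _) ?_
    rintro ⟨σ, c⟩ ⟨h1, h2, h3⟩
    simp only at h1 h2 h3
    refine ⟨⟨h1, h2⟩, ?_⟩
    have d1 : dt (y i) (σ • q + c • T) = σ := by
      rw [dt_add, dt_smul, dt_smul, hq1, hT1]; ring
    have d2 : dt (y k) (σ • q + c • T) = s * σ := by
      rw [dt_add, dt_smul, dt_smul, hq2, hT2]; ring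
    have hmem : (σ • q + c • T) ∈ KK y := by
      intro m
      show |dt (y m) (σ • q + c • T)| ≤ 1
      by_cases hmi : m = i
      · rw [hmi, d1, abs_of_nonneg h1]; exact h2
      · by_cases hmk : m = k
        · rw [hmk, d2, abs_mul]
          have : |s| = 1 := by rcases hs with h | h <;> rw [h] <;> norm_num
          rw [this, one_mul, abs_of_nonneg h1]; exact h2
        · rw [hdtm]
          exact (h3 m hmi hmk).trans h2
    have hb := hR _ hmem j
    simp only [Pi.add_apply, Pi.smul_apply, smul_eq_mul] at hb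
    have hTj : 0 < |T j| := abs_pos.mpr hj
    have hc : |c| * |T j| ≤ R + |q j| := by
      rw [← abs_mul]
      have e : c * T j = (σ * q j + c * T j) - σ * q j := by ring
      calc |c * T j| = |(σ * q j + c * T j) - σ * q j| := by rw [← e]
        _ ≤ |σ * q j + c * T j| + |σ * q j| := abs_sub _ _
        _ ≤ R + |q j| := by
            rw [abs_mul σ, abs_of_nonneg h1]
            nlinarith [abs_nonneg (q j)]
    have hc2 : |c| ≤ (R + |q j|) / |T j| := by
      rw [le_div_iff₀ hTj]; exact hc
    exact abs_le.mp hc2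
  refine ⟨?_, ?_⟩
  · rw [hW]
    exact hTrc.image (LinearMap.continuous_of_finiteDimensional L)
  · rw [hW, Measure.addHaar_image_linearMap, hdet, hTr, vol_Tri, ENNReal.toReal_mul,
      ENNReal.toReal_mul, ENNReal.toReal_ofReal (abs_nonneg _),
      ENNReal.toReal_ofReal (by norm_num : (0 : ℝ) ≤ 1 / 2)]
    have hdq : de q T a = s * dt (y i - s • y k) a := by
      have : de q T a = dt (y k) q * dt (y i) a - dt (y i) q * dt (y k) a := by
        simp only [hT, de, dt, cr]
        simp
        ring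
      rw [this, hq1, hq2]
      have h5 : dt (y i - s • y k) a = dt (y i) a - s * dt (y k) a := by
        simp only [dt, Pi.sub_apply, Pi.smul_apply, smul_eq_mul]; ring
      rw [h5]
      linear_combination (dt (y k) a) * hs2
    have habs : |de q T a / D| = |dt (y i - s • y k) a| := by
      rw [abs_div, hD, div_one, hdq, abs_mul]
      have : |s| = 1 := by rcases hs with h | h <;> rw [h] <;> norm_num
      rw [this, one_mul]
    rw [habs, Lam, ← hq]
    ring

end Pool.G1
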