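import Pool.Agent.Work.MP_b5407d_g1.T3C
import Pool.Agent.Work.MP_b5407d_g1.FGN
import Pool.Agent.Work.MP_b5407d_g1.MUS
import Pool.Agent.Work.MP_b5407d_g1.BAS
import Pool.Agent.Work.MP_b5407d_g1.QJT
import Pool.Agent.Work.MP_b5407d_g1.DER
import Pool.Agent.Work.MP_b5407d_g1.RDM
import Pool.Agent.Work.MP_b5407d_g1.GPM
import Pool.Agent.Work.MP_b5407d_g1.TAN
import Pool.Agent.Work.MP_b5407d_g1.GLN
import Pool.Agent.Work.MP_b5407d_g1.CTV
import Pool.Agent.Work.MP_b5407d_g1.CTL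
import Pool.Agent.Work.MP_b5407d_g1.GOP
import Pool.Agent.Work.MP_b5407d_g1.GDI
import Pool.Agent.Work.MP_b5407d_g1.C2G
import Pool.Agent.Work.MP_b5407d_g1.TNG
import Pool.Agent.Work.MP_b5407d_g1.TN2
import Pool.Agent.Work.MP_b5407d_g1.WAL
import Pool.Agent.Work.MP_b5407d_g1.LIN
import Pool.Agent.Work.MP_b5407d_g1.PA1
import Pool.Agent.Work.MP_b5407d_g1.TLC
import Pool.Agent.Work.MP_b5407d_g1.EQI
import Pool.Agent.Work.MP_b5407d_g1.SEL
import Pool.Agent.Work.MP_b5407d_g1.NML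
import Pool.Agent.Work.MP_b5407d_g1.LS2
import Pool.Agent.Work.MP_b5407d_g1.LS3
import Pool.Agent.Work.MP_b5407d_g1.LL1
import Pool.Agent.Work.MP_b5407d_g1.LS4
import Pool.Agent.Work.MP_b5407d_g1.EXT
import Pool.Agent.Work.MP_b5407d_g1.PEX
import Pool.Agent.Work.MP_b5407d_g1.ARE
import Pool.Agent.Work.MP_b5407d_g1.PPS
import Pool.Agent.Work.MP_b5407d_g1.CRN
import Pool.Agent.Work.MP_b5407d_g1.DEC
import Pool.Agent.Work.MP_b5407d_g1.PLN
import Pool.Agent.Work.MP_b5407d_g1.FCQ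
import Pool.Agent.Work.MP_b5407d_g1.TIL
import Pool.Agent.Work.MP_b5407d_g1.FCE
import Pool.Agent.Work.MP_b5407d_g1.FMU
import Pool.Agent.Work.MP_b5407d_g1.MUT
import Pool.Agent.Work.MP_b5407d_g1.RAW
import Pool.Agent.Work.MP_b5407d_g1.KEY
import Pool.Agent.Work.MP_b5407d_g1.ALL
import Pool.Agent.Work.MP_b5407d_g1.PEU
import Pool.Agent.Work.MP_b5407d_g1.PGS
import Pool.Agent.Work.MP_b5407d_g1.PMI
import Pool.Agent.Work.MP_b5407d_g1.PLS
import Pool.Agent.Work.MP_b5407d_g1.SUQ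
import Pool.Agent.Work.MP_b5407d_g1.FIQ
import Pool.Agent.Work.MP_b5407d_g1.GEQ
import Pool.Agent.Work.MP_b5407d_g1.EQQ
import Pool.Agent.Work.MP_b5407d_g1.FINQ
import Pool.Agent.Work.MP_b5407d_g1.LOG
import Pool.Agent.Work.MP_b5407d_g1.DEN
import Pool.Agent.Work.MP_b5407d_g1.GTR
import Pool.Agent.Work.MP_b5407d_g1.OMI

/-! # G1: assembly of the three-dimensional part -/

set_option autoImplicit false

namespace Pool.G1.Asm

open Pool.G1

/-- the local inequality with constant one, from the planar theorem -/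
theorem LI_all (hPL : Stmt_PL) : ∀ N : ℕ, LI 1 N := by
  have hOMI := blk_OMI
  have hDEN := blk_DEN
  have hGTR := blk_GTR
  have hMUS := blk_MUS
  have hQJT := blk_QJT
  have hFGN := blk_FGN
  have hBAS := blk_BAS
  have hCTV := blk_CTV
  have hDER := blk_DER hMUS hQJT
  have hRDM := blk_RDM T3C.RED T3C.DVS hFGN hMUS
  have hGPM := blk_GPM T3C.GAP hFGN hMUS hQJT
  have hTAN := blk_TAN T3C.CALC hFGN hMUS hQJT
  have hCTL := blk_CTL hGTR
  have hGDI := blk_GDI hDEN hCTV hCTL hBAS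
  have hC2G := blk_C2G hDER hDEN hCTV hCTL hBAS
  have hGOP := blk_GOP hCTV
  have hTNG := blk_TNG hTAN hDEN hCTV hBAS
  have hTN2 := blk_TN2 hTNG hBAS
  have hLIN := blk_LIN blk_WAL
  have hTLC := blk_TLC hLIN blk_PA1 hOMI
  have hEQI := blk_EQI hTLC hOMI
  have hLS2 := blk_LS2 hTLC hOMI
  have hLS3 := blk_LS3 hLS2 hEQI hOMI hBAS
  have hLS4 := blk_LS4 (blk_LL1 blk_PA1) hLIN hOMI hGTR hFGN
  have hEXT := blk_EXT hRDM hGPM blk_GLN blk_NML blk_SEL hLS3 hLS4 hGDI hBAS hFGN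
  have hPPS := blk_PPS blk_ARE
  have hDEC := blk_DEC hPPS
  have hPLN := blk_PLN hDEC blk_CRN blk_PGS
  have hFCE := blk_FCE blk_PEX hGTR
  have hFMU := blk_FMU blk_ARE blk_FCQ
  have hMUT := blk_MUT hC2G hGOP blk_TIL blk_FCQ hPLN
  have hRAW := blk_RAW hMUT hTN2 hC2G blk_TIL blk_FCQ hPLN hGOP hCTV hBAS
  have hKEY := blk_KEY hRAW hFCE hFMU hGDI hEXT blk_PEU hBAS
  exact blk_ALL hKEY hPL

/-- the conclusion for bodies -/
theorem bodies (hLI : ∀ N : ℕ, LI 1 N) : GEQc :=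
  blk_GEQ (blk_FIQ T3C.CALC blk_SUQ blk_QJT blk_FGN hLI)

end Pool.G1.Asm
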