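import Pool.Agent.Work.MP_b5407d_g1.InterfaceH
import Pool.Agent.Work.MP_b5407d_g1.GEQ
import Pool.Agent.Work.MP_b5407d_t3.PATH
import Pool.Agent.Work.MP_b5407d_t3.JQ
import Pool.Agent.Work.MP_b5407d_lp_helper68.EQL
import Pool.Agent.Work.MP_b5407d_t3.FIN3
import Pool.Agent.Work.MP_b5407d_lp_helper68.FIN

/-!
# G1, block BODc: from `LI c N` (all `N`) to convex bodies, for the exponents `1 - c ≤ p < 1`

Copies of `SUQ`, `FIQ`, `GEQ`, `EQQ`, `FINQ` for one exponent `p`: the inequality for `p` uses the local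
inequality with a constant `c ≥ 1 - p`; the case of equality for `p` uses the inequality for some `p0 < p`.
-/

set_option autoImplicit false

open MeasureTheory Set Filter Topology
open scoped Pointwise

namespace Pool.G1

open Pool.T3 (R3 dt cr de K V S H Fam Pos pt Lam Q J lin Calc stmt_PATH stmt_JQ)
open Pool.Agent.Work.LPBM (E supp Wulff CBody mp Span Pset)

/-- superadditivity for one exponent `p`, from the local inequality with the constant `1 - p` -/
theorem blk_SUQp (ι : Type) [Fintype ι] (v : (ι → ℝ) → ℝ) (S : (ι → ℝ) → ι → ℝ)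
    (H : (ι → ℝ) → ι → ι → ℝ) (hC : Calc v S H) (p : ℝ) (hp0 : 0 < p) (hp1 : p < 1)
    (hloc : ∀ h, Pos h → ∀ f : ι → ℝ, (1 - p) * Q v S h f ≤ J v S H h f)
    (a b : ι → ℝ) (ha : Pos a) (hb : Pos b) (s : ℝ) (hs : s ∈ Icc (0 : ℝ) 1) :
    (1 - s) * v a ^ (p / 3) + s * v b ^ (p / 3) ≤
      v (fun i => ((1 - s) * a i ^ p + s * b i ^ p) ^ (1 / p)) ^ (p / 3) := by
  set y0 : ι → ℝ := fun i => a i ^ p with hy0
  set y1 : ι → ℝ := fun i => b i ^ p - a i ^ p with hy1
  have hpos : ∀ s ∈ Icc (0 : ℝ) 1, ∀ i, 0 < y0 i + s * y1 i := by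
    intro s hs i
    have h1 : 0 < a i ^ p := Real.rpow_pos_of_pos (ha i) p
    have h2 : 0 < b i ^ p := Real.rpow_pos_of_pos (hb i) p
    have h3 : y0 i + s * y1 i = (1 - s) * a i ^ p + s * b i ^ p := by
      simp only [hy0, hy1]
      ring
    rw [h3]
    rcases hs.1.eq_or_lt with h | h
    · rw [← h]
      simpa using h1
    · have h4 : 0 ≤ (1 - s) * a i ^ p := mul_nonneg (by linarith [hs.2]) h1.le
      have h5 : 0 < s * b i ^ p := mul_pos h h2
      linarith
  set hh : ℝ → ι → ℝ := fun s i => (y0 i + s * y1 i) ^ (1 / p) with hhh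
  set ff : ℝ → ι → ℝ := fun s i => (1 / p) * y1 i * (y0 i + s * y1 i) ^ (1 / p - 1) with hff
  have hPos : ∀ s ∈ Icc (0 : ℝ) 1, Pos (hh s) := fun s hs i =>
    Real.rpow_pos_of_pos (hpos s hs i) _
  have hD : ∀ s ∈ Icc (0 : ℝ) 1, HasDerivAt (fun s => v (hh s) ^ (p / 3))
      ((p / 3) * v (hh s) ^ (p / 3 - 1) * ∑ i, S (hh s) i * ff s i) s ∧
    HasDerivAt (fun s => (p / 3) * v (hh s) ^ (p / 3 - 1) * ∑ i, S (hh s) i * ff s i)
      (-((p / 3) * v (hh s) ^ (p / 3 - 1) *
        (J v S H (hh s) (ff s) - (1 - p) * Q v S (hh s) (ff s)))) s := fun s hs =>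
    stmt_PATH ι v S H hC p hp0 hp1 y0 y1 s (hpos s hs)
  have hint : interior (Icc (0 : ℝ) 1) ⊆ Icc (0 : ℝ) 1 := interior_subset
  have hconc : ConcaveOn ℝ (Icc (0 : ℝ) 1) (fun s => v (hh s) ^ (p / 3)) := by
    refine concaveOn_of_hasDerivWithinAt2_nonpos (convex_Icc 0 1)
      (f' := fun s => (p / 3) * v (hh s) ^ (p / 3 - 1) * ∑ i, S (hh s) i * ff s i)
      (f'' := fun s => -((p / 3) * v (hh s) ^ (p / 3 - 1) *
        (J v S H (hh s) (ff s) - (1 - p) * Q v S (hh s) (ff s))))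
      (fun s hs => (hD s hs).1.continuousAt.continuousWithinAt)
      (fun s hs => (hD s (hint hs)).1.hasDerivWithinAt)
      (fun s hs => (hD s (hint hs)).2.hasDerivWithinAt) ?_
    intro s hs
    have hP := hPos s (hint hs)
    have h1 : 0 < v (hh s) := hC.vp _ hP
    have h2 : 0 ≤ (p / 3) * v (hh s) ^ (p / 3 - 1) :=
      mul_nonneg (by linarith) (Real.rpow_pos_of_pos h1 _).le
    have h3 := hloc _ hP (ff s)
    have h5 : 0 ≤ J v S H (hh s) (ff s) - (1 - p) * Q v S (hh s) (ff s) := by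
      linarith
    have h6 := mul_nonneg h2 h5
    show -((p / 3) * v (hh s) ^ (p / 3 - 1) *
        (J v S H (hh s) (ff s) - (1 - p) * Q v S (hh s) (ff s))) ≤ 0
    linarith
  have hk := hconc.2 (left_mem_Icc.mpr (zero_le_one' ℝ)) (right_mem_Icc.mpr (zero_le_one' ℝ))
    (sub_nonneg.mpr hs.2) hs.1 (by ring)
  have hinv : ∀ x : ℝ, 0 < x → (x ^ p) ^ (1 / p) = x := by
    intro x hx
    rw [← Real.rpow_mul hx.le, mul_one_div_cancel hp0.ne', Real.rpow_one]
  have e0 : hh 0 = a := by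
    funext i
    simp only [hhh, hy0, zero_mul, add_zero]
    exact hinv _ (ha i)
  have e1 : hh 1 = b := by
    funext i
    simp only [hhh, hy0, hy1, one_mul, add_sub_cancel]
    exact hinv _ (hb i)
  have e2 : hh s = fun i => ((1 - s) * a i ^ p + s * b i ^ p) ^ (1 / p) := by
    funext i
    simp only [hhh, hy0, hy1]
    congr 1
    ring
  simp only [smul_eq_mul, mul_zero, mul_one, zero_add, e0, e1] at hk
  rw [e2] at hk
  exact hk

/-- the inequality for admissible families from `LI c`, `1 - p ≤ c` -/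
theorem blk_FIQp {c : ℝ} (hCALC : Pool.T3.Stmt_CALC) (hQJT : Stmt_QJT)
    (hFGN : Stmt_FGN) (hLI : ∀ N : ℕ, LI c N) (p : ℝ) (hp0 : 0 < p) (hp1 : p < 1)
    (hpc : 1 - p ≤ c) (ι : Type) [Fintype ι] [DecidableEq ι] (u : ι → R3) (hu : Fam u)
    (a b : ι → ℝ) (ha : Pos a) (hb : Pos b) (s : ℝ) (hs : s ∈ Icc (0 : ℝ) 1) :
    (1 - s) * V u a ^ (p / 3) + s * V u b ^ (p / 3) ≤
      V u (fun i => ((1 - s) * a i ^ p + s * b i ^ p) ^ (1 / p)) ^ (p / 3) := by
  refine blk_SUQp ι (V u) (S u) (H u) (hCALC ι u hu) p hp0 hp1 ?_ a b ha hb s hs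
  intro h hh f
  obtain ⟨hQ, -, hJ⟩ := hQJT ι u hu h hh f
  have h1 := hLI (Fintype.card ι) ι rfl (dv u h) (hFGN.2.1 ι u h hu hh) (fun i => f i / h i)
  have h2 : 0 ≤ Q (V u) (S u) h f := (stmt_JQ ι (V u) (S u) (H u) (hCALC ι u hu) h hh).2.2.2.1 f
  rw [hQ] at h2
  rw [hQ, hJ]
  nlinarith

section geq
open GEQ_

/-- the geometric form of the inequality for the exponent `p` -/
def GEQp (p : ℝ) : Prop :=
  ∀ K C : Set (E 3), CBody K → CBody C → (∀ x ∈ K, -x ∈ K) → (∀ x ∈ C, -x ∈ C) →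
    ∀ t ∈ Icc (0 : ℝ) 1,
      (volume K).toReal ^ (1 - t) * (volume C).toReal ^ t ≤
        (volume (Wulff (fun u => mp p t (supp K u) (supp C u)))).toReal

/-- `GEQ` for one exponent -/
theorem blk_GEQp (p : ℝ) (hp0 : 0 < p)
    (hFINI : ∀ (ι : Type) [Fintype ι] [DecidableEq ι] (u : ι → R3), Fam u →
      ∀ a b : ι → ℝ, Pos a → Pos b → ∀ s ∈ Icc (0 : ℝ) 1,
        (1 - s) * V u a ^ (p / 3) + s * V u b ^ (p / 3) ≤
          V u (fun i => ((1 - s) * a i ^ p + s * b i ^ p) ^ (1 / p)) ^ (p / 3)) :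
    GEQp p := by
  intro K C hK hC hKs hCs t ht
  have hGPD := Pool.T3.stmt_GPD
  have hUSC := Pool.T3.stmt_USC
  obtain ⟨_, hKpos, hKc, hKn, hKi, _⟩ :=
    Pool.Agent.Work.LPBM.helper23.stmt_CEN 3 K (by norm_num) hK
  obtain ⟨_, hCpos, hCc, hCn, hCi, _⟩ :=
    Pool.Agent.Work.LPBM.helper23.stmt_CEN 3 C (by norm_num) hC
  have hsph : ∀ u ∈ Metric.sphere (0 : E 3) 1, u ≠ 0 := by
    intro u hu h0
    rw [h0] at hu
    simp at hu
  have hpos : ∀ a b : ℝ, 0 < a → 0 < b → 0 < (1 - t) * a ^ p + t * b ^ p := by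
    intro a b ha hb
    have h1 : 0 < a ^ p := Real.rpow_pos_of_pos ha p
    have h2 : 0 < b ^ p := Real.rpow_pos_of_pos hb p
    rcases eq_or_lt_of_le ht.1 with h | h
    · rw [← h]; simpa using h1
    · have : 0 ≤ (1 - t) * a ^ p := mul_nonneg (by linarith [ht.2]) h1.le
      have : 0 < t * b ^ p := mul_pos h h2
      linarith
  set M : E 3 → ℝ := fun u => mp p t (supp K u) (supp C u) with hM
  have hMc : ∀ u : E 3, u ≠ 0 → ContinuousAt M u := by
    intro u hu0
    have c1 : ContinuousAt (fun u => supp K u ^ p) u :=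
      hKc.continuousAt.rpow_const (Or.inl (hKpos u hu0).ne')
    have c2 : ContinuousAt (fun u => supp C u ^ p) u :=
      hCc.continuousAt.rpow_const (Or.inl (hCpos u hu0).ne')
    have c3 : ContinuousAt (fun u => (1 - t) * supp K u ^ p + t * supp C u ^ p) u :=
      (c1.const_mul (1 - t)).add (c2.const_mul t)
    exact c3.rpow_const (Or.inl (hpos _ _ (hKpos u hu0) (hCpos u hu0)).ne')
  have hMe : ∀ u, M (-u) = M u := by
    intro u
    simp only [hM, supp_even hKs, supp_even hCs]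
  have hvK : 0 < (volume K).toReal :=
    ENNReal.toReal_pos ((isOpen_interior.measure_pos volume hK.2.2.1).trans_le
      (measure_mono interior_subset)).ne' hK.2.1.measure_lt_top.ne
  have hvC : 0 < (volume C).toReal :=
    ENNReal.toReal_pos ((isOpen_interior.measure_pos volume hC.2.2.1).trans_le
      (measure_mono interior_subset)).ne' hC.2.1.measure_lt_top.ne
  refine Pool.Agent.Work.LPBM.helper57.stmt_WUL 3 M _ (by norm_num) ?_ ?_ ?_
  · intro u hu
    exact (hMc u (hsph u hu)).continuousWithinAt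
  · intro u hu
    have hu0 := hsph u hu
    exact Real.rpow_pos_of_pos (hpos _ _ (hKpos u hu0) (hCpos u hu0)) _
  intro N θ σ hθ hσ hspan
  have hN := three_le hspan
  obtain ⟨c, hc, hspan'⟩ := hspan
  set th : Fin N → R3 := fun i => cof (θ i) with hth
  set m : Fin N → ℝ := fun i => M (θ i) with hm
  -- the polytope
  have hP : Pset θ m = cof ⁻¹' (Pool.T3.K th m) := by
    ext x
    constructor
    · intro hx i
      have h1 : inner ℝ (θ i) x ≤ m i := hx i
      have h2 : inner ℝ (θ (σ i)) x ≤ m (σ i) := hx (σ i)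
      rw [hσ, inner_neg_left] at h2
      have h3 : m (σ i) = m i := by
        show M (θ (σ i)) = M (θ i)
        rw [hσ, hMe]
      rw [h3] at h2
      show |dt (cof (θ i)) (cof x)| ≤ m i
      rw [← inner_dt]
      exact abs_le.mpr ⟨by linarith, h1⟩
    · intro hx i
      have h1 : |dt (cof (θ i)) (cof x)| ≤ m i := hx i
      rw [← inner_dt] at h1
      exact (le_abs_self _).trans h1
  have hvP : (volume (Pset θ m)).toReal = V th m := by
    rw [hP, cof_mp.measure_preimage (K_closed th m).measurableSet.nullMeasurableSet]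
    rfl
  have hgoal : (volume K).toReal ^ (1 - t) * (volume C).toReal ^ t ≤ V th m := by
    refine le_of_forall_pos_le_add fun ε hε => ?_
    have hspR : ∀ x : R3, ∃ i, c * ‖x‖ ≤ |dt (th i) x| := by
      intro x
      obtain ⟨i, hi⟩ := hspan' (em x)
      refine ⟨i, ?_⟩
      have h1 : c * ‖x‖ ≤ c * ‖em x‖ := mul_le_mul_of_nonneg_left (sup_le_norm x) hc.le
      rw [inner_dt, cof_em] at hi
      exact (h1.trans hi).trans (le_abs_self _)
    obtain ⟨η, hη, hU⟩ := hUSC N th m c hc hspR ε hε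
    -- continuity of M along the family
    have hcont : ContinuousAt (fun u : Fin N → R3 => fun i => M (em (u i))) th := by
      rw [continuousAt_pi]
      intro i
      have h1 : ContinuousAt (fun u : Fin N → R3 => em (u i)) th :=
        (em_cont.comp (continuous_apply i)).continuousAt
      have h2 : ContinuousAt M (em (th i)) := hMc _ (hsph _ (hθ i))
      exact ContinuousAt.comp (f := fun u : Fin N → R3 => em (u i)) (g := M) h2 h1
    obtain ⟨η1, hη1, hη1'⟩ := Metric.continuousAt_iff.mp hcont η hη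
    set η2 : ℝ := min (min η (η1 / 2)) (c / 6) with hη2
    have hη2p : 0 < η2 := lt_min (lt_min hη (by linarith)) (by linarith)
    obtain ⟨u, hu, hclose⟩ := hGPD N th hN (by
      intro i
      show dt (cof (θ i)) (cof (θ i)) = 1
      rw [dt_self_norm, mem_sphere_zero_iff_norm.mp (hθ i), one_pow]) η2 hη2p
    have hdist : dist u th < η1 := by
      refine lt_of_le_of_lt ?_ (half_lt_self hη1)
      refine (dist_pi_le_iff (by linarith)).mpr fun i => ?_
      refine (dist_pi_le_iff (by linarith)).mpr fun k => ?_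
      rw [Real.dist_eq]
      exact (hclose i k).le.trans ((min_le_left _ _).trans (min_le_right _ _))
    have hMclose := hη1' hdist
    have hne : ∀ i, em (u i) ≠ 0 := by
      intro i h0
      have h1 := hu.unit i
      have h2 : u i = 0 := by
        have := congrArg cof h0
        exact this
      rw [h2] at h1
      simp [dt] at h1
    have hUv := hU u (fun i => M (em (u i)))
      (fun i k => (hclose i k).trans_le ((min_le_left _ _).trans (min_le_left _ _)))
      (fun i => by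
        have h1 := (dist_pi_lt_iff hη).mp hMclose i
        rw [Real.dist_eq] at h1
        exact h1)
    refine le_trans ?_ hUv
    set a : Fin N → ℝ := fun i => supp K (em (u i)) with ha
    set b : Fin N → ℝ := fun i => supp C (em (u i)) with hb
    have hap : Pos a := fun i => hKpos _ (hne i)
    have hbp : Pos b := fun i => hCpos _ (hne i)
    have hF := hFINI (Fin N) u hu a b hap hbp t ht
    -- volumes
    have hbd : ∀ h : Fin N → ℝ, volume (Pool.T3.K u h) ≠ ⊤ := by
      intro h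
      have hb2 : ∃ B, ∀ i, h i ≤ B := by
        refine ⟨∑ i, |h i|, fun i => (le_abs_self _).trans ?_⟩
        exact Finset.single_le_sum (f := fun i => |h i|) (fun j _ => abs_nonneg _)
          (Finset.mem_univ i)
      obtain ⟨B, hB⟩ := hb2
      have hsub : Pool.T3.K u h ⊆ Metric.closedBall 0 (2 * B / c) := by
        intro x hx
        rw [mem_closedBall_zero_iff]
        obtain ⟨i, hi⟩ := hspR x
        have h1 : |dt (u i) x| ≤ h i := hx i
        have h2 : dt (th i) x = dt (u i) x - ((u i 0 - th i 0) * x 0 + (u i 1 - th i 1) * x 1 +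
            (u i 2 - th i 2) * x 2) := by
          simp only [dt]; ring
        have hc6 : ∀ k, |(u i k - th i k) * x k| ≤ c / 6 * ‖x‖ := by
          intro k
          rw [abs_mul]
          refine mul_le_mul ((hclose i k).le.trans (min_le_right _ _)) (norm_le_pi_norm x k)
            (abs_nonneg _) (by linarith)
        have h3 : |dt (th i) x| ≤ |dt (u i) x| + c / 2 * ‖x‖ := by
          rw [h2]
          have e1 := hc6 0
          have e2 := hc6 1
          have e3 := hc6 2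
          rw [abs_le] at *
          refine ⟨?_, ?_⟩
          · linarith [abs_nonneg (dt (u i) x), neg_abs_le (dt (u i) x), le_abs_self (dt (u i) x)]
          · linarith [abs_nonneg (dt (u i) x), neg_abs_le (dt (u i) x), le_abs_self (dt (u i) x)]
        have h4 := hB i
        rw [le_div_iff₀ hc]
        nlinarith
      exact ((measure_mono hsub).trans_lt (isCompact_closedBall _ _).measure_lt_top).ne
    have hvol : ∀ B : Set (E 3), IsCompact B → (∀ x ∈ B, -x ∈ B) →
        (∀ u : E 3, ∀ x ∈ B, inner ℝ x u ≤ supp B u) →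
        (volume B).toReal ≤ V u (fun i => supp B (em (u i))) := by
      intro B hBc hBs hBi
      have hsub : B ⊆ cof ⁻¹' (Pool.T3.K u (fun i => supp B (em (u i)))) := by
        intro x hx i
        show |dt (u i) (cof x)| ≤ supp B (em (u i))
        have e : dt (u i) (cof x) = inner ℝ x (em (u i)) := by
          rw [inner_dt, cof_em]
          simp only [dt]; ring
        rw [e, abs_le]
        have h1 := hBi (em (u i)) x hx
        have h2 := hBi (em (u i)) (-x) (hBs x hx)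
        rw [inner_neg_left] at h2
        exact ⟨by linarith, h1⟩
      have h1 := measure_mono (μ := volume) hsub
      rw [cof_mp.measure_preimage (K_closed _ _).measurableSet.nullMeasurableSet] at h1
      exact ENNReal.toReal_mono (hbd _) h1
    have hVa : (volume K).toReal ≤ V u a := hvol K hK.2.1 hKs hKi
    have hVb : (volume C).toReal ≤ V u b := hvol C hC.2.1 hCs hCi
    have hVa0 : 0 < V u a := hvK.trans_le hVa
    have hVb0 : 0 < V u b := hvC.trans_le hVb
    have hVM0 : 0 ≤ V u (fun i => M (em (u i))) := ENNReal.toReal_nonneg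
    have hag := Real.geom_mean_le_arith_mean2_weighted (w₁ := 1 - t) (w₂ := t)
      (p₁ := V u a ^ (p / 3)) (p₂ := V u b ^ (p / 3)) (by linarith [ht.2]) ht.1
      (Real.rpow_nonneg hVa0.le _) (Real.rpow_nonneg hVb0.le _) (by ring)
    have hfin : (V u a ^ (1 - t) * V u b ^ t) ^ (p / 3) ≤ V u (fun i => M (em (u i))) ^ (p / 3) := by
      refine le_trans (le_of_eq ?_) (hag.trans hF)
      rw [Real.mul_rpow (Real.rpow_nonneg hVa0.le _) (Real.rpow_nonneg hVb0.le _),
        ← Real.rpow_mul hVa0.le, ← Real.rpow_mul hVb0.le, ← Real.rpow_mul hVa0.le,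
        ← Real.rpow_mul hVb0.le, mul_comm (1 - t) (p / 3), mul_comm t (p / 3)]
    have hfin2 := (Real.rpow_le_rpow_iff (by positivity) hVM0 (by positivity)).mp hfin
    refine le_trans ?_ hfin2
    exact mul_le_mul (Real.rpow_le_rpow hvK.le hVa (by linarith [ht.2]))
      (Real.rpow_le_rpow hvC.le hVb ht.1) (Real.rpow_nonneg hvC.le _) (Real.rpow_nonneg hVa0.le _)
  rw [← hvP] at hgoal
  exact hgoal

end geq

section eqq
open Pool.Agent.Work.LPBM.helper68

open Pool.Agent.Work.LPBM in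
/-- the case of equality, equal volumes, for the exponent `p`, from the inequality for `p0 < p` -/
theorem blk_EQQp (p0 p : ℝ) (hp0pos : 0 < p0) (hp0p : p0 < p) (hG : GEQp p0) (K C : Set (E 3))
    (hK : CBody K) (hCb : CBody C) (hKs : ∀ x ∈ K, -x ∈ K) (hCs : ∀ x ∈ C, -x ∈ C)
    (hvol : (volume K).toReal = (volume C).toReal) (t : ℝ) (ht : t ∈ Ioo (0 : ℝ) 1)
    (hWvol : (volume (Wulff (fun u => mp p t (supp K u) (supp C u)))).toReal =
      (volume K).toReal) : K = C := by
  have hp0 : 0 < p := hp0pos.trans hp0p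
  have hn1 : 1 ≤ 3 := by norm_num
  obtain ⟨ht0, ht1⟩ := ht
  obtain ⟨hK0, hKpos, hKc, -, hKle, hKmem⟩ := helper23.stmt_CEN 3 K hn1 hK
  obtain ⟨hC0, hCpos, hCc, -, hCle, hCmem⟩ := helper23.stmt_CEN 3 C hn1 hCb
  have hsne : ∀ u ∈ Metric.sphere (0 : E 3) 1, u ≠ 0 := by
    intro u hu h
    rw [h] at hu
    simp at hu
  set M0 : E 3 → ℝ := fun u => mp p0 t (supp K u) (supp C u) with hM0
  set M1 : E 3 → ℝ := fun u => mp p t (supp K u) (supp C u) with hM1
  have hM0c : Continuous M0 := mp_cont hp0pos _ _ hKc hCc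
  have hM1c : Continuous M1 := mp_cont hp0 _ _ hKc hCc
  have hM0pos : ∀ u ∈ Metric.sphere (0 : E 3) 1, 0 < M0 u := fun u hu =>
    mp_pos ht0 ht1 (hKpos u (hsne u hu)) (hCpos u (hsne u hu))
  have hM1pos : ∀ u ∈ Metric.sphere (0 : E 3) 1, 0 < M1 u := fun u hu =>
    mp_pos ht0 ht1 (hKpos u (hsne u hu)) (hCpos u (hsne u hu))
  have hle : ∀ u ∈ Metric.sphere (0 : E 3) 1, M0 u ≤ M1 u := fun u hu =>
    mp_le hp0pos hp0p ht0 ht1 (hKpos u (hsne u hu)) (hCpos u (hsne u hu))
  have hsub : Wulff M0 ⊆ Wulff M1 := fun x hx u hu => (hx u hu).trans (hle u hu)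
  have hgen := hG K C hK hCb hKs hCs t ⟨ht0.le, ht1.le⟩
  have hVnn : 0 ≤ (volume K).toReal := ENNReal.toReal_nonneg
  have hKfin : volume K ≠ ⊤ := hK.2.1.measure_lt_top.ne
  have hCfin : volume C ≠ ⊤ := hCb.2.1.measure_lt_top.ne
  have hVpos : 0 < (volume K).toReal := by
    apply ENNReal.toReal_pos _ hKfin
    have h1 : 0 < volume (interior K) := isOpen_interior.measure_pos volume hK.2.2.1
    exact (h1.trans_le (measure_mono interior_subset)).ne'
  rw [← hvol, ← Real.rpow_add hVpos, sub_add_cancel, Real.rpow_one] at hgen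
  have hWf : volume (Wulff M1) ≠ ⊤ := wulff_fin hn1 M1 hM1c
  have hWeq : Wulff M0 = Wulff M1 := by
    apply eq_of_vol hsub (wulff_closed M0) (wulff_convex M1) ⟨0, wulff_zero hn1 M1 hM1c hM1pos⟩ hWf
    rw [hWvol]
    exact hgen
  -- frontier points
  have hfr : ∀ z ∈ frontier (Wulff M1), ∃ u ∈ Metric.sphere (0 : E 3) 1,
      inner ℝ z u = supp K u ∧ supp K u = supp C u := by
    intro z hz
    obtain ⟨u, hu, hzu⟩ := wulff_frontier hn1 M1 hM1c z hz
    have hzW : z ∈ Wulff M0 := by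
      rw [hWeq]
      exact (wulff_closed M1).frontier_subset hz
    have h1 : M1 u ≤ M0 u := by
      rw [← hzu]
      exact hzW u hu
    have hab : supp K u = supp C u := by
      by_contra hne
      have := mp_lt hp0pos hp0p ht0 ht1 (hKpos u (hsne u hu)) (hCpos u (hsne u hu)) hne
      exact absurd h1 (not_le.2 this)
    refine ⟨u, hu, ?_, hab⟩
    rw [hzu]
    show mp p t (supp K u) (supp C u) = supp K u
    rw [← hab]
    exact mp_self hp0 (hKpos u (hsne u hu))
  have h0W : (0 : E 3) ∈ interior (Wulff M1) := wulff_zero hn1 M1 hM1c hM1pos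
  have hKW : K ⊆ Wulff M1 := by
    apply sub_of_frontier K (Wulff M1) (wulff_closed M1) h0W
    intro y hy z hz
    obtain ⟨u, hu, h1, h2⟩ := hfr z hz
    exact ⟨u, hKle u y hy, hKpos u (hsne u hu), h1⟩
  have hCW : C ⊆ Wulff M1 := by
    apply sub_of_frontier C (Wulff M1) (wulff_closed M1) h0W
    intro y hy z hz
    obtain ⟨u, hu, h1, h2⟩ := hfr z hz
    exact ⟨u, hCle u y hy, hCpos u (hsne u hu), h1.trans h2⟩
  have e1 : K = Wulff M1 := eq_of_vol hKW hK.2.1.isClosed (wulff_convex M1)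
    ⟨0, wulff_zero hn1 M1 hM1c hM1pos⟩ hWf (by rw [hWvol])
  have e2 : C = Wulff M1 := eq_of_vol hCW hCb.2.1.isClosed (wulff_convex M1)
    ⟨0, wulff_zero hn1 M1 hM1c hM1pos⟩ hWf (by rw [hWvol, hvol])
  rw [e1, ← e2]

open Pool.T3.FIN3_ in
/-- the theorem for the exponent `p`: the inequality, from `GEQp p`, and the case of equality,
from `GEQp p0`, `p0 < p` -/
theorem blk_FINQp (p : ℝ) (hp0 : 0 < p) (hG : GEQp p)
    (hG0 : ∃ p0 : ℝ, 0 < p0 ∧ p0 < p ∧ GEQp p0) :
  ∀ (K C : Set (EuclideanSpace ℝ (Fin 3))),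
    Convex ℝ K → IsCompact K → (interior K).Nonempty → (∀ x ∈ K, -x ∈ K) →
    Convex ℝ C → IsCompact C → (interior C).Nonempty → (∀ x ∈ C, -x ∈ C) →
    ∀ (α β : ℝ), 0 < α → 0 < β →
      (α * (volume K).toReal ^ (p / 3) + β * (volume C).toReal ^ (p / 3)
        ≤ (volume {x : EuclideanSpace ℝ (Fin 3) |
              ∀ u ∈ Metric.sphere (0 : EuclideanSpace ℝ (Fin 3)) 1,
                inner ℝ x u ≤ (α * (sSup ((fun y : EuclideanSpace ℝ (Fin 3) => inner ℝ y u) '' K)) ^ p
                    + β * (sSup ((fun y : EuclideanSpace ℝ (Fin 3) => inner ℝ y u) '' C)) ^ p) ^ (1 / p)}).toReal ^ (p / 3))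
      ∧ ((volume {x : EuclideanSpace ℝ (Fin 3) |
              ∀ u ∈ Metric.sphere (0 : EuclideanSpace ℝ (Fin 3)) 1,
                inner ℝ x u ≤ (α * (sSup ((fun y : EuclideanSpace ℝ (Fin 3) => inner ℝ y u) '' K)) ^ p
                    + β * (sSup ((fun y : EuclideanSpace ℝ (Fin 3) => inner ℝ y u) '' C)) ^ p) ^ (1 / p)}).toReal ^ (p / 3)
          = α * (volume K).toReal ^ (p / 3) + β * (volume C).toReal ^ (p / 3)
        ↔ ∃ t : ℝ, 0 < t ∧ C = (fun x : EuclideanSpace ℝ (Fin 3) => t • x) '' K) := by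
  intro K C hK1 hK2 hK3 hKs' hC1 hC2 hC3 hCs' α β hα hβ
  have hC := Pool.Agent.Work.LPBM.helper23.stmt_CEN
  have hKb : CBody K := ⟨hK1, hK2, hK3, sym_int hK2 hKs'⟩
  have hCb : CBody C := ⟨hC1, hC2, hC3, sym_int hC2 hCs'⟩
  have hn1 : 1 ≤ 3 := by norm_num
  have hn0 : (3 : ℝ) ≠ 0 := by norm_num
  have hVK := body_pos hKb
  have hVC := body_pos hCb
  obtain ⟨hl, hln, hlp⟩ := root (n := 3) (p := p) hn1 hVK
  obtain ⟨hm, hmn, hmp⟩ := root (n := 3) (p := p) hn1 hVC
  have hcast : ((3 : ℕ) : ℝ) = (3 : ℝ) := by norm_num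
  rw [hcast] at hl hln hlp hm hmn hmp
  set lam : ℝ := (volume K).toReal ^ (1 / (3 : ℝ)) with hlam
  set mu : ℝ := (volume C).toReal ^ (1 / (3 : ℝ)) with hmu
  have hli : 0 < lam⁻¹ := inv_pos.2 hl
  have hmi : 0 < mu⁻¹ := inv_pos.2 hm
  set K1 : Set (E 3) := lam⁻¹ • K with hK1def
  set C1 : Set (E 3) := mu⁻¹ • C with hC1def
  have hK1b : CBody K1 := smul_body hKb hli
  have hC1b : CBody C1 := smul_body hCb hmi
  have hK1s : ∀ x ∈ K1, -x ∈ K1 := smul_sym hKs'
  have hC1s : ∀ x ∈ C1, -x ∈ C1 := smul_sym hCs'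
  have hK1v : (volume K1).toReal = 1 := by
    rw [hK1def, smul_vol K hli, ← hln, inv_pow, inv_mul_cancel₀ (pow_ne_zero _ hl.ne')]
  have hC1v : (volume C1).toReal = 1 := by
    rw [hC1def, smul_vol C hmi, ← hmn, inv_pow, inv_mul_cancel₀ (pow_ne_zero _ hm.ne')]
  have hKs : ∀ u, supp K u = lam * supp K1 u := by
    intro u
    rw [hK1def, smul_supp K hli, mul_inv_cancel_left₀ hl.ne']
  have hCs : ∀ u, supp C u = mu * supp C1 u := by
    intro u
    rw [hC1def, smul_supp C hmi, mul_inv_cancel_left₀ hm.ne']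
  obtain ⟨-, hKpos, -, -, hKle, hKmem⟩ := hC 3 K1 hn1 hK1b
  obtain ⟨-, hCpos, -, -, hCle, hCmem⟩ := hC 3 C1 hn1 hC1b
  have hsne : ∀ u ∈ Metric.sphere (0 : E 3) 1, u ≠ 0 := by
    intro u hu h
    rw [h] at hu
    simp at hu
  have hlpp : 0 < lam ^ p := Real.rpow_pos_of_pos hl _
  have hmpp : 0 < mu ^ p := Real.rpow_pos_of_pos hm _
  set sg : ℝ := α * lam ^ p + β * mu ^ p with hsg
  have hsgp : 0 < sg := by
    have := mul_pos hα hlpp
    have := mul_pos hβ hmpp
    linarith
  set t : ℝ := β * mu ^ p / sg with ht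
  have ht0 : 0 < t := div_pos (mul_pos hβ hmpp) hsgp
  have ht1 : t < 1 := by
    rw [ht, div_lt_one hsgp, hsg]
    have := mul_pos hα hlpp
    linarith
  have hsgt : sg * t = β * mu ^ p := by
    rw [ht, mul_div_cancel₀ _ hsgp.ne']
  have hsgt' : sg * (1 - t) = α * lam ^ p := by
    rw [mul_sub, hsgt, hsg]
    ring
  set c : ℝ := sg ^ (1 / p) with hc
  have hcp : 0 < c := Real.rpow_pos_of_pos hsgp _
  set M : E 3 → ℝ := fun u => mp p t (supp K1 u) (supp C1 u) with hM
  have hset : {x : EuclideanSpace ℝ (Fin 3) |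
              ∀ u ∈ Metric.sphere (0 : EuclideanSpace ℝ (Fin 3)) 1,
                inner ℝ x u ≤ (α * (sSup ((fun y : EuclideanSpace ℝ (Fin 3) => inner ℝ y u) '' K)) ^ p
                    + β * (sSup ((fun y : EuclideanSpace ℝ (Fin 3) => inner ℝ y u) '' C)) ^ p) ^ (1 / p)}
      = c • Wulff M := by
    rw [← wulff_smul M hcp]
    apply wulff_congr (fun u => (α * (supp K u) ^ p + β * (supp C u) ^ p) ^ (1 / p))
    intro u hu
    have h1 := hKpos u (hsne u hu)
    have h2 := hCpos u (hsne u hu)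
    show (α * (supp K u) ^ p + β * (supp C u) ^ p) ^ (1 / p) = c * mp p t (supp K1 u) (supp C1 u)
    have h3 : 0 ≤ (1 - t) * supp K1 u ^ p + t * supp C1 u ^ p := by
      have := mul_pos (sub_pos.2 ht1) (Real.rpow_pos_of_pos h1 p)
      have := mul_pos ht0 (Real.rpow_pos_of_pos h2 p)
      linarith
    unfold mp
    rw [hc, ← Real.mul_rpow hsgp.le h3, hKs u, hCs u, Real.mul_rpow hl.le h1.le,
      Real.mul_rpow hm.le h2.le]
    congr 1
    rw [mul_add, ← mul_assoc, ← mul_assoc, ← mul_assoc, ← mul_assoc, hsgt, hsgt']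
  rw [hset]
  have hWv : (volume (c • Wulff M)).toReal = c ^ 3 * (volume (Wulff M)).toReal :=
    smul_vol (Wulff M) hcp
  have hWn : 0 ≤ (volume (Wulff M)).toReal := ENNReal.toReal_nonneg
  have hcn : (c ^ 3) ^ (p / (3 : ℝ)) = sg := by
    rw [← Real.rpow_natCast c 3, hcast, ← Real.rpow_mul hcp.le, mul_div_cancel₀ _ hn0, hc,
      ← Real.rpow_mul hsgp.le, one_div_mul_cancel hp0.ne', Real.rpow_one]
  have hW2 : (volume (c • Wulff M)).toReal ^ (p / (3 : ℝ))
      = sg * (volume (Wulff M)).toReal ^ (p / (3 : ℝ)) := by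
    rw [hWv, Real.mul_rpow (pow_nonneg hcp.le 3) hWn, hcn]
  have hLHS : α * (volume K).toReal ^ (p / (3 : ℝ)) + β * (volume C).toReal ^ (p / (3 : ℝ)) = sg := by
    rw [hlp, hmp]
  have hgen := hG K1 C1 hK1b hC1b hK1s hC1s t ⟨ht0.le, ht1.le⟩
  rw [hK1v, hC1v, Real.one_rpow, Real.one_rpow, mul_one] at hgen
  have hW1 : 1 ≤ (volume (Wulff M)).toReal := hgen
  have hpn0 : 0 < p / (3 : ℝ) := div_pos hp0 (by norm_num)
  rw [hW2, hLHS]
  refine ⟨?_, ?_⟩
  · have : (1 : ℝ) ≤ (volume (Wulff M)).toReal ^ (p / (3 : ℝ)) := Real.one_le_rpow hW1 hpn0.le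
    nlinarith
  refine ⟨?_, ?_⟩
  · intro h
    have h1 : (volume (Wulff M)).toReal ^ (p / (3 : ℝ)) = 1 := by
      have : sg * (volume (Wulff M)).toReal ^ (p / (3 : ℝ)) = sg * 1 := by rw [h, mul_one]
      exact mul_left_cancel₀ hsgp.ne' this
    have h2 : (volume (Wulff M)).toReal = 1 := by
      rcases hW1.lt_or_eq with h3 | h3
      · have := Real.one_lt_rpow h3 hpn0
        linarith
      · exact h3.symm
    obtain ⟨p0, hp0', hp0p, hGp0⟩ := hG0
    have h3 : K1 = C1 := blk_EQQp p0 p hp0' hp0p hGp0 K1 C1 hK1b hC1b hK1s hC1s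
      (by rw [hK1v, hC1v]) t ⟨ht0, ht1⟩ (by rw [hK1v]; exact h2)
    refine ⟨mu * lam⁻¹, mul_pos hm hli, ?_⟩
    show C = (mu * lam⁻¹) • K
    rw [mul_smul, ← hK1def, h3, hC1def, smul_inv_smul₀ hm.ne']
  · rintro ⟨s, hs, hCK⟩
    have hCK' : C = s • K := hCK
    have hms : mu = s * lam := by
      rw [hmu, hCK', smul_vol K hs, Real.mul_rpow (pow_nonneg hs.le 3) ENNReal.toReal_nonneg,
        ← Real.rpow_natCast s 3, hcast, ← Real.rpow_mul hs.le, mul_one_div_cancel hn0,
        Real.rpow_one]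
    have h1 : C1 = K1 := by
      rw [hC1def, hK1def, hms, hCK', ← mul_smul, mul_inv, mul_comm s⁻¹ lam⁻¹, mul_assoc,
        inv_mul_cancel₀ hs.ne', mul_one]
    have h2 : Wulff M = K1 := by
      ext x
      constructor
      · intro hx
        apply hKmem
        intro u hu
        have := hx u hu
        rw [hM] at this
        simp only at this
        rw [h1, mp_self' hp0 (hKpos u (hsne u hu))] at this
        exact this
      · intro hx u hu
        show inner ℝ x u ≤ mp p t (supp K1 u) (supp C1 u)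
        rw [h1, mp_self' hp0 (hKpos u (hsne u hu))]
        exact hKle u x hx
    rw [h2, hK1v, Real.one_rpow, mul_one]

end eqq

end Pool.G1
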