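import Pool.Agent.Work.MP_b5407d_g1.Planar

/-!
# G1: the planar target for the exponents `ε < c`

`Stmt_PLc c` is `Stmt_PL` of `Planar.lean` with `0 < ε < c` in the place of `0 < ε < 1`.  It gives the
three-dimensional theorem for all `1 - c ≤ p < 1` (`EXTc.lean`, `KEYc.lean`, `BODc.lean`, `AsmC.lean`).
-/

set_option autoImplicit false

namespace Pool.G1

/-- the planar target for the exponents `ε < c` -/
def Stmt_PLc (c : ℝ) : Prop :=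
  ∀ (n : ℕ) (ν v : ℕ → R2) (ℓ : ℕ → ℝ), Poly n ν v ℓ → ∀ (δ t : ℕ → ℝ) (ε : ℝ),
    (∀ i, δ (i + n) = δ i) → (∀ i, t (i + n) = t i) → (∀ i, 0 ≤ δ i) → (∀ i, 0 ≤ t i) →
    (∀ i, t i ≤ 2) → (∀ i k, t i * dp (ν i) (v i - v k) ≤ 2 * δ i) → 0 < ε → ε < c →
    ∑ i ∈ Finset.range n, ℓ i * δ i = (2 + ε) * ar n v →
    ∃ r : ℝ × R2, (∀ k, 0 ≤ af r (v k)) ∧
      J2 n ν v ℓ r δ + ε * T1 n v ℓ r δ t - 2 * (2 + ε) * J1 n v ℓ r δ +
        3 * (2 + ε) * J0 n v r < 0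

theorem PLc_one : Stmt_PLc 1 ↔ Stmt_PL := Iff.rfl

end Pool.G1
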