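import Pool.Agent.Work.MP_b5407d_g1.EXT
import Pool.Agent.Work.MP_b5407d_g1.PLcDef

/-!
# G1, block EXTc: existence of the extremal pair below the constant `c`

`EXT.lean` with a constant `1/486 < c` in the place of `1`.
-/

set_option autoImplicit false

open MeasureTheory Set Filter Topology

namespace Pool.G1

open Pool.T3 (R3 dt cr de K V S H Fam Pos pt Lam Q J lin)

/-- `EXT` with the constant `c` -/
def Stmt_EXTc (c : ℝ) : Prop :=
  ∀ N : ℕ, (∀ M, M < N → LI c M) → ¬ LI c N → ∃ ε : ℝ, 0 < ε ∧ ε < c ∧ LI ε N ∧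
    ∃ (ι : Type) (_ : Fintype ι) (_ : DecidableEq ι) (y : ι → R3) (w : ι → ℝ) (j : ι),
      Fintype.card ι = N ∧ Good y ∧ w j = 1 ∧ (∀ i, |w i| ≤ 1) ∧
      (∑ i, mu y i * w i = 0) ∧ En y w = (2 + ε) * Qm y w

open EXT in
/-- the known constant -/
theorem EXT.known_c {c : ℝ} (hc0 : 1 / 486 ≤ c) (hRDM : Stmt_RDM) (hGPM : Stmt_GPM)
    (hBAS : Stmt_BAS) (hFGN : Stmt_FGN) (N : ℕ)
    (hlt : ∀ M, M < N → LI c M) : LI (1 / 486) N := by
  intro ι _ _ hcard y hy w
  obtain ⟨b1, b2, b3, b4⟩ := EXT.basics hBAS hFGN y hy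
  by_cases hall : ∀ i, 0 < mu y i
  · exact hGPM ι y hy hall w
  · push Not at hall
    obtain ⟨k, hk⟩ := hall
    have hk0 : mu y k = 0 := le_antisymm hk (b3 k)
    obtain ⟨r1, r2, r3, r4, r5⟩ := hRDM ι y hy k hk0
    have hpos : 0 < N := by
      rw [← hcard]
      exact Fintype.card_pos_iff.mpr ⟨k⟩
    have hc : Fintype.card {i // i ≠ k} = N - 1 := by
      rw [Fintype.card_subtype_compl, Fintype.card_subtype_eq, hcard]
    have h1 := hlt (N - 1) (by omega) {i // i ≠ k} hc (fun i : {i // i ≠ k} => y i) r1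
      (fun i => w i)
    have hQ : Qm (fun i : {i // i ≠ k} => y i) (fun i : {i // i ≠ k} => w i) = Qm y w := by
      unfold Qm
      rw [r2]
      have e1 : ∑ i : {i // i ≠ k}, mu (fun i : {i // i ≠ k} => y i) i * w i ^ 2 =
          ∑ i, mu y i * w i ^ 2 := by
        rw [← sum_ne k (fun i => mu y i * w i ^ 2) (by simp [hk0])]
        exact Finset.sum_congr rfl fun i _ => by rw [r3 i]
      have e2 : ∑ i : {i // i ≠ k}, mu (fun i : {i // i ≠ k} => y i) i * w i =
          ∑ i, mu y i * w i := by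
        rw [← sum_ne k (fun i => mu y i * w i) (by simp [hk0])]
        exact Finset.sum_congr rfl fun i _ => by rw [r3 i]
      rw [e1, e2]
    have hE : En (fun i : {i // i ≠ k} => y i) (fun i : {i // i ≠ k} => w i) = En y w := by
      unfold En
      congr 1
      rw [← sum_ne k (fun i => ∑ j, cc y i j * (w i - w j) ^ 2)]
      · refine Finset.sum_congr rfl fun i _ => ?_
        rw [← sum_ne k (fun j => cc y i j * (w i - w j) ^ 2) (by simp [(r5 i i.2).2])]
        refine Finset.sum_congr rfl fun j _ => ?_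
        by_cases hij : i = j
        · subst hij
          simp
        · rw [r4 i j hij]
      · refine Finset.sum_eq_zero fun j _ => ?_
        by_cases hj : j = k
        · rw [hj]; simp
        · rw [(r5 j hj).1, zero_mul]
    rw [hQ, hE] at h1
    have hq := Qm_nonneg y w b1 b2 b3
    nlinarith

open EXT in
/-- the best constant -/
theorem EXT.best_c {c0 : ℝ} (hBAS : Stmt_BAS) (hFGN : Stmt_FGN) (N : ℕ) (h486 : LI (1 / 486) N)
    (hnot : ¬ LI c0 N) : ∃ ε : ℝ, 0 < ε ∧ ε < c0 ∧ LI ε N ∧ ∀ c, ε < c → ¬ LI c N := by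
  have hmono : ∀ c c' : ℝ, c' ≤ c → LI c N → LI c' N := by
    intro c c' hcc hc ι _ _ hcard y hy w
    obtain ⟨b1, b2, b3, b4⟩ := EXT.basics hBAS hFGN y hy
    have h1 := hc ι hcard y hy w
    have h2 := Qm_nonneg y w b1 b2 b3
    nlinarith
  have hbdd : BddAbove {c : ℝ | LI c N} := by
    refine ⟨c0, fun c hc => ?_⟩
    by_contra h1
    push Not at h1
    exact hnot (hmono c c0 h1.le hc)
  have hne : {c : ℝ | LI c N}.Nonempty := ⟨_, h486⟩
  set ε : ℝ := sSup {c : ℝ | LI c N} with hε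
  have hLI : LI ε N := by
    intro ι _ _ hcard y hy w
    obtain ⟨b1, b2, b3, b4⟩ := EXT.basics hBAS hFGN y hy
    have h2 := Qm_nonneg y w b1 b2 b3
    refine le_of_forall_pos_le_add fun η hη => ?_
    obtain ⟨c, hc, hc'⟩ := exists_lt_of_lt_csSup hne
      (show ε - η / (Qm y w + 1) < ε by
        have : 0 < η / (Qm y w + 1) := by positivity
        linarith)
    have h1 := (show LI c N from hc) ι hcard y hy w
    have h3 : η / (Qm y w + 1) * Qm y w ≤ η := by
      rw [div_mul_eq_mul_div, div_le_iff₀ (by linarith)]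
      nlinarith
    nlinarith
  have h0 : 1 / 486 ≤ ε := le_csSup hbdd h486
  refine ⟨ε, by linarith, ?_, hLI, fun c hc h => ?_⟩
  · by_contra h1
    push Not at h1
    exact hnot (hmono ε c0 h1 hLI)
  · exact absurd (le_csSup hbdd h) (not_le.mpr hc)

open EXT in
theorem blk_EXTc {c : ℝ} (hc0 : 1 / 486 ≤ c) (hRDM : Stmt_RDM) (hGPM : Stmt_GPM) (hGLN : Stmt_GLN) (hNML : Stmt_NML)
    (hSEL : Stmt_SEL) (hLS3 : Stmt_LS3) (hLS4 : Stmt_LS4) (hGDI : Stmt_GDI) (hBAS : Stmt_BAS)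
    (hFGN : Stmt_FGN) : Stmt_EXTc c := by
  intro N hlt hnot
  obtain ⟨ε, hε0, hε1, hLI, hmax⟩ :=
    EXT.best_c hBAS hFGN N (EXT.known_c hc0 hRDM hGPM hBAS hFGN N hlt) hnot
  refine ⟨ε, hε0, hε1, hLI, ?_⟩
  -- almost extremal pairs
  have hal : ∀ n : ℕ, ∃ (y : Fin N → R3) (w : Fin N → ℝ), FamG y ∧ Nm y ∧
      (∑ i, mu y i * w i = 0) ∧ (∑ i, mu y i * w i ^ 2 = 1) ∧
      En y w ≤ 3 * (2 + (ε + 1 / ((n : ℝ) + 1))) := fun n =>
    EXT.almost hGLN hBAS hFGN N (ε + 1 / ((n : ℝ) + 1)) (by positivity)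
      (hmax _ (by
        have : (0 : ℝ) < 1 / ((n : ℝ) + 1) := by positivity
        linarith))
  choose ys0 ws0 hfam0 hnm0 hmean0 hvar0 hE0 using hal
  -- a convergent subsequence
  have hcpt : IsCompact (Set.univ.pi fun _ : Fin N => Set.univ.pi fun _ : Fin 3 => Icc (-1 : ℝ) 1) :=
    isCompact_univ_pi fun _ => isCompact_univ_pi fun _ => isCompact_Icc
  obtain ⟨y, _, φ, hφ, hlim⟩ := hcpt.tendsto_subseq (x := ys0) (fun n => by
    simp only [Set.mem_univ_pi]
    intro i k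
    exact abs_le.mp ((hnm0 n).le i k))
  have hNm : Nm y := hNML (Fin N) (fun n => ys0 (φ n)) y (fun n => hnm0 (φ n)) hlim
  obtain ⟨ι', i1, i2, f, hsel, hgood, hcard⟩ := hSEL (Fin N) y hNm
  have hSq : ∀ ψ : ℕ → ℕ, StrictMono ψ →
      Sq (fun n => ys0 (φ (ψ n))) (fun n => ws0 (φ (ψ n))) y (3 * (2 + (ε + 1))) := by
    intro ψ hψ
    refine ⟨fun n => hfam0 _, fun n => hnm0 _, hlim.comp hψ.tendsto_atTop, fun n => hmean0 _,
      fun n => hvar0 _, fun n => (hE0 _).trans ?_⟩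
    have h1 : 1 / (((φ (ψ n) : ℕ) : ℝ) + 1) ≤ 1 := by
      rw [div_le_one (by positivity)]
      have : (0 : ℝ) ≤ ((φ (ψ n) : ℕ) : ℝ) := Nat.cast_nonneg _
      linarith
    linarith
  obtain ⟨ψ, W, hψ, hae, hW0, hW1⟩ := hLS3 (Fin N) (fun n => ys0 (φ n)) (fun n => ws0 (φ n)) y _
    (hSq id strictMono_id) ι' f hsel hgood
  have hlsc := hLS4 (Fin N) (fun n => ys0 (φ (ψ n))) (fun n => ws0 (φ (ψ n))) y _
    (hSq ψ hψ) ι' f hsel hgood W hae
  -- the energy of the limit
  have hEW : En (fun i' => y (f i')) W ≤ 3 * (2 + ε) := by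
    refine le_of_forall_pos_le_add fun η hη => ?_
    have h1 : Tendsto (fun n : ℕ => 1 / (((φ (ψ n) : ℕ) : ℝ) + 1)) atTop (𝓝 0) :=
      (tendsto_one_div_add_atTop_nhds_zero_nat (𝕜 := ℝ)).comp
        (hφ.tendsto_atTop.comp hψ.tendsto_atTop)
    have h2 : ∀ᶠ n : ℕ in atTop, 1 / (((φ (ψ n) : ℕ) : ℝ) + 1) < η / 6 :=
      h1.eventually (gt_mem_nhds (by positivity))
    obtain ⟨n, hn1, hn2⟩ := ((hlsc (η / 2) (by positivity)).and h2).exists
    have h3 := hE0 (φ (ψ n))
    linarith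
  have hne' : Nonempty ι' := by
    by_contra hemp
    rw [not_nonempty_iff] at hemp
    rw [Finset.univ_eq_empty, Finset.sum_empty] at hW1
    exact zero_ne_one hW1
  obtain ⟨b1, b2, b3, b4, _⟩ := hBAS ι' (fun i' => y (f i')) hgood.toNpb hne'
  have hQW : Qm (fun i' => y (f i')) W = 3 := by
    unfold Qm
    rw [hW0, hW1]
    norm_num
  rw [Fintype.card_fin] at hcard
  have hcardN : Fintype.card ι' = N := by
    refine le_antisymm hcard (not_lt.mp fun hlt' => ?_)
    have h1 := hGDI _ c (hlt _ hlt') ι' rfl (fun i' => y (f i')) hgood W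
    rw [hQW] at h1
    linarith
  have hEeq : En (fun i' => y (f i')) W = (2 + ε) * Qm (fun i' => y (f i')) W := by
    refine le_antisymm (by rw [hQW]; linarith) (hGDI _ ε hLI ι' hcardN _ hgood W)
  -- normalise the maximum
  obtain ⟨j, hj⟩ := Finite.exists_max (fun i' => |W i'|)
  have hWj : W j ≠ 0 := by
    intro h0
    have hz : ∀ i', W i' = 0 := fun i' => by
      have := hj i'
      rw [h0, abs_zero] at this
      exact abs_eq_zero.mp (le_antisymm this (abs_nonneg _))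
    have : ∑ i', mu (fun i' => y (f i')) i' * W i' ^ 2 = 0 :=
      Finset.sum_eq_zero fun i' _ => by rw [hz i']; ring
    rw [this] at hW1
    exact zero_ne_one hW1
  refine ⟨ι', i1, i2, fun i' => y (f i'), fun i' => (1 / W j) * W i', j, hcardN, hgood, ?_, ?_, ?_,
    ?_⟩
  · exact one_div_mul_cancel hWj
  · intro i'
    rw [abs_mul, abs_div, abs_one, one_div, inv_mul_eq_div, div_le_one (abs_pos.mpr hWj)]
    exact hj i'
  · have : ∑ i', mu (fun i' => y (f i')) i' * (1 / W j * W i') =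
        1 / W j * ∑ i', mu (fun i' => y (f i')) i' * W i' := by
      rw [Finset.mul_sum]
      exact Finset.sum_congr rfl fun i _ => by ring
    rw [this, hW0, mul_zero]
  · rw [En_smul, Qm_smul, hEeq]
    ring

end Pool.G1
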