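import Pool.Agent.Work.MP_b5407d_g1.KEY
import Pool.Agent.Work.MP_b5407d_g1.EXTc

/-!
# G1, blocks KEYc, ALLc: the induction with the constant `c` (`1/486 ≤ c ≤ 1`)
-/

set_option autoImplicit false

open MeasureTheory Set Filter Topology

namespace Pool.G1

open Pool.T3 (R3 dt cr de K V S H Fam Pos pt Lam Q J lin)

open KEY

theorem blk_KEYc {c0 : ℝ} (hc1 : c0 ≤ 1) (hRAW : Stmt_RAW) (hFCE : Stmt_FCE) (hFMU : Stmt_FMU) (hGDI : Stmt_GDI)
    (hEXT : Stmt_EXTc c0) (hPEU : Stmt_PEU) (hBAS : Stmt_BAS) :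
    Stmt_PLc c0 → ∀ N : ℕ, (∀ M, M < N → LI c0 M) → LI c0 N := by
  intro hPL N hM
  by_contra hN
  obtain ⟨ε, hε0, hε1, hLI, ι, _, _, y, w, j, hcard, hg, hwj, hw1, hwm, hEn⟩ := hEXT N hM hN
  obtain ⟨hvo, -, -, -, hsym, h3, -⟩ := hBAS ι y hg.toNpb ⟨j⟩
  -- a second index and a chart
  obtain ⟨k0, hk0⟩ : ∃ k : ι, k ≠ j := by
    by_contra hh
    push Not at hh
    have : Fintype.card ι ≤ 1 := Fintype.card_le_one_iff.2 fun a b => by rw [hh a, hh b]
    omega
  obtain ⟨n0, p1, p2, hch⟩ := exists_chart y j k0 (hg.np j k0 (Ne.symm hk0))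
  obtain ⟨n, ν, v, ℓ, c, kk, D⟩ := hFCE ι y hg j n0 p1 p2 hch
  obtain ⟨hmu, hcc⟩ := hFMU ι y hg j n0 p1 p2 hch n ν v ℓ c kk D
  have P := D.poly
  have hn0 : 0 < n := by have := P.n3; omega
  -- the weights
  set t : ℕ → ℝ := fun i => 1 - w (kk i).1 with ht
  set δ : ℕ → ℝ := fun i => t i / c i with hδ
  have pt' : ∀ i, t (i + n) = t i := fun i => by simp only [ht, D.pk]
  have pδ : ∀ i, δ (i + n) = δ i := fun i => by simp only [hδ, pt', D.pc]
  have t0 : ∀ i, 0 ≤ t i := fun i => by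
    have := (abs_le.1 (hw1 (kk i).1)).2
    simp only [ht]; linarith
  have t2 : ∀ i, t i ≤ 2 := fun i => by
    have := (abs_le.1 (hw1 (kk i).1)).1
    simp only [ht]; linarith
  have δ0 : ∀ i, 0 ≤ δ i := fun i => div_nonneg (t0 i) (D.cpos i).le
  -- widths
  have hwid : ∀ i k, c i * dp (ν i) (v i - v k) ≤ 2 := by
    intro i k
    have e1 := D.hb i
    have e2 := D.hN i
    have e3 := D.le ((kk i).1, !(kk i).2) k
    have e4 : FN y j p1 p2 ((kk i).1, !(kk i).2) = (-1 : ℝ) • FN y j p1 p2 (kk i) := by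
      cases h : (kk i).2
      · simp only [FN, sg, h, Bool.not_false, if_true, Bool.false_eq_true, if_false, smul_smul]
        norm_num
      · simp only [FN, sg, h, Bool.not_true, if_true, Bool.false_eq_true, if_false, smul_smul]
        norm_num
    have e5 : Fb y j n0 ((kk i).1, !(kk i).2) = 2 - Fb y j n0 (kk i) := by
      cases h : (kk i).2
      · simp only [Fb, sg, h, Bool.not_false, if_true, Bool.false_eq_true, if_false]
        ring
      · simp only [Fb, sg, h, Bool.not_true, if_true, Bool.false_eq_true, if_false]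
        ring
    rw [e4, e5, smul_dp, e2, smul_dp, e1] at e3
    rw [dp_sub, mul_sub]
    linarith
  have htW : ∀ i k, t i * dp (ν i) (v i - v k) ≤ 2 * δ i := by
    intro i k
    have h1 := mul_le_mul_of_nonneg_left (hwid i k) (δ0 i)
    have h2 : δ i * (c i * dp (ν i) (v i - v k)) = t i * dp (ν i) (v i - v k) := by
      have := (D.cpos i).ne'
      simp only [hδ]
      field_simp
    rw [h2] at h1
    linarith
  -- the equation of `j`
  have hEL : ∑ l, cc y j l * (w j - w l) = 3 * (2 + ε) * mu y j := by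
    obtain ⟨q1, hq1⟩ := En_pert y w j hsym
    obtain ⟨q2, hq2⟩ := Qm_pert y w j hwm
    have h := lin_zero (2 * (∑ l, cc y j l * (w j - w l)) - (2 + ε) * (6 * (mu y j * w j)))
      (q1 - (2 + ε) * q2) (fun x => by
        have h1 := hGDI N ε hLI ι hcard y hg (fun i => w i + x * (if i = j then 1 else 0))
        rw [hq1, hq2, hEn] at h1
        linarith)
    rw [hwj, mul_one] at h
    rw [hwj]
    linarith
  have hbal : ∑ i ∈ Finset.range n, ℓ i * δ i = (2 + ε) * ar n v := by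
    have h1 := hcc (fun l => w j - w l) (by simp)
    rw [hEL] at h1
    have h2 : ∑ i ∈ Finset.range n, ℓ i * ((w j - w (kk i).1) / c i) =
        ∑ i ∈ Finset.range n, ℓ i * δ i := by
      refine Finset.sum_congr rfl fun i _ => ?_
      simp only [hδ, ht, hwj]
    rw [h2] at h1
    have hd := hch.hd
    have h3 : 2 * de n0 p1 p2 * (∑ i ∈ Finset.range n, ℓ i * δ i - (2 + ε) * ar n v) = 0 := by
      linear_combination (-1 : ℝ) * h1 + (2 + ε) * hmu
    rcases mul_eq_zero.1 h3 with h4 | h4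
    · exfalso; linarith
    · linarith
  -- the planar theorem
  obtain ⟨r, hr, hE⟩ := hPL n ν v ℓ P δ t ε pδ pt' δ0 t0 t2 htW hε0 hε1 hbal
  obtain ⟨r', hr', hr2, hE'⟩ := perturb (ν := ν) (ℓ := ℓ) hn0 P.pv
    (fun r => J2 n ν v ℓ r δ + ε * T1 n v ℓ r δ t - 2 * (2 + ε) * J1 n v ℓ r δ +
        3 * (2 + ε) * J0 n v r)
    (fun r q s => by
      simp only [J2_add, T1_add, J1_add, J0_add]
      ring) r hr hE
  -- a zero of `r'`
  obtain ⟨ξ, hξ⟩ : ∃ ξ : R2, af r' ξ = 0 := by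
    have hb : 0 < dp r'.2 r'.2 := by
      have h0 : 0 ≤ dp r'.2 r'.2 := by
        simp only [dp]; nlinarith [mul_self_nonneg r'.2.1, mul_self_nonneg r'.2.2]
      refine lt_of_le_of_ne h0 fun h => hr2 ?_
      simp only [dp] at h
      have a1 : r'.2.1 * r'.2.1 = 0 := by
        nlinarith [mul_self_nonneg r'.2.1, mul_self_nonneg r'.2.2]
      have a2 : r'.2.2 * r'.2.2 = 0 := by
        nlinarith [mul_self_nonneg r'.2.1, mul_self_nonneg r'.2.2]
      exact Prod.ext (mul_self_eq_zero.1 a1) (mul_self_eq_zero.1 a2)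
    refine ⟨(-r'.1 / dp r'.2 r'.2) • r'.2, ?_⟩
    simp only [af, dp_smul]
    field_simp
    ring
  -- move the chart
  have hch' := chart_tr y j n0 p1 p2 ξ hch
  have D' := PD_tr y j n0 p1 p2 ξ D
  have hβ : ∀ i, 0 < dp r'.2 (v i - ξ) := by
    intro i
    have h1 := hr' i
    rw [← af_tr r' ξ _ hξ] at h1
    simpa only [af, zero_add] using h1
  have hraw := hRAW N ε hε0 (lt_of_lt_of_le hε1 hc1) hLI ι hcard y w hg hwm hEn j _ p1 p2 hch' n ν _ ℓ c kk D'
    r'.2 hβ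
  -- the loads
  have eb : ∀ i, Fb y j (chp n0 p1 p2 1 ξ) (kk i) = c i * dp (ν i) (v i - ξ) := fun i => D'.hb i
  have f1 : (fun i => Fe y j (chp n0 p1 p2 1 ξ) w (kk i) / c i) =
      fun i => dp (ν i) (v i - ξ) - δ i := by
    funext i
    have e : Fe y j (chp n0 p1 p2 1 ξ) w (kk i) = Fb y j (chp n0 p1 p2 1 ξ) (kk i) - t i := by
      simp only [Fe, Fb, ht, hwj]; ring
    have := (D.cpos i).ne'
    rw [e, eb]
    simp only [hδ]
    field_simp
  have f2 : (fun i => Fe y j (chp n0 p1 p2 1 ξ) (fun i => w i ^ 2) (kk i) / c i) =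
      fun i => dp (ν i) (v i - ξ) - (2 * δ i - δ i * t i) := by
    funext i
    have e : Fe y j (chp n0 p1 p2 1 ξ) (fun i => w i ^ 2) (kk i) =
        Fb y j (chp n0 p1 p2 1 ξ) (kk i) - (2 * t i - t i * t i) := by
      simp only [Fe, Fb, ht, hwj]; ring
    have := (D.cpos i).ne'
    rw [e, eb]
    simp only [hδ]
    field_simp
  rw [f1, f2, J2_tr r' ξ hξ, J1_tr r' ξ hξ] at hraw
  -- Euler relations
  obtain ⟨-, -, -, q4, -, q6, q7, -⟩ := hPEU n ν v ℓ P
  have pb : ∀ i, (fun i => dp (ν i) (v i - ξ)) (i + n) = (fun i => dp (ν i) (v i - ξ)) i := by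
    intro i
    simp only [P.pν, P.pv]
  have g1 := q4 ξ r'
  have g2 := q7 ξ r' δ pδ
  have g3 := q7 ξ r' (fun i => dp (ν i) (v i - ξ)) pb
  have g4 := q6 r' δ (fun i => dp (ν i) (v i - ξ)) pδ pb
  rw [hξ] at g1 g2 g3
  have k1 : J2 n ν v ℓ r' (fun i => dp (ν i) (v i - ξ) - δ i) =
      6 * J0 n v r' - 4 * J1 n v ℓ r' δ + J2 n ν v ℓ r' δ := by
    rw [J2, B2_sub_left, B2_sub_right, B2_sub_right, J2, g3, ← g4, g2, g1]
    ring
  have k2 : J1 n v ℓ r' (fun i => dp (ν i) (v i - ξ) - (2 * δ i - δ i * t i)) =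
      3 * J0 n v r' - 2 * J1 n v ℓ r' δ + T1 n v ℓ r' δ t := by
    rw [J1_sub, g1]
    have : J1 n v ℓ r' (fun i => 2 * δ i - δ i * t i) =
        2 * J1 n v ℓ r' δ - T1 n v ℓ r' δ t := by
      simp only [J1, T1, Finset.mul_sum, ← Finset.sum_sub_distrib]
      exact Finset.sum_congr rfl fun i _ => by ring
    rw [this]
    ring
  rw [k1, k2] at hraw
  linarith

theorem blk_ALLc {c0 : ℝ} (hKEY : Stmt_PLc c0 → ∀ N : ℕ, (∀ M, M < N → LI c0 M) → LI c0 N)
    (hPL : Stmt_PLc c0) : ∀ N : ℕ, LI c0 N := by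
  intro N
  induction N using Nat.strong_induction_on with
  | _ N ih => exact hKEY hPL N ih

end Pool.G1
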