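import Pool.Agent.Work.MP_b5407d_g1.Asm
import Pool.Agent.Work.MP_b5407d_g1.KEYc
import Pool.Agent.Work.MP_b5407d_g1.BODc

/-! # G1: assembly of the three-dimensional part for the exponents `1 - c ≤ p < 1` -/

set_option autoImplicit false

open MeasureTheory Set

namespace Pool.G1.Asm

open Pool.G1

/-- the local inequality with the constant `c` -/
theorem LI_all_c {c : ℝ} (hc0 : 1 / 486 ≤ c) (hc1 : c ≤ 1) (hPL : Stmt_PLc c) :
    ∀ N : ℕ, LI c N := by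
  have hOMI := blk_OMI
  have hDEN := blk_DEN
  have hGTR := blk_GTR
  have hMUS := blk_MUS
  have hQJT := blk_QJT
  have hFGN := blk_FGN
  have hBAS := blk_BAS
  have hCTV := blk_CTV
  have hDER := blk_DER hMUS hQJT
  have hRDM := blk_RDM T3C.RED T3C.DVS hFGN hMUS
  have hGPM := blk_GPM T3C.GAP hFGN hMUS hQJT
  have hTAN := blk_TAN T3C.CALC hFGN hMUS hQJT
  have hCTL := blk_CTL hGTR
  have hGDI := blk_GDI hDEN hCTV hCTL hBAS
  have hC2G := blk_C2G hDER hDEN hCTV hCTL hBAS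
  have hGOP := blk_GOP hCTV
  have hTNG := blk_TNG hTAN hDEN hCTV hBAS
  have hTN2 := blk_TN2 hTNG hBAS
  have hLIN := blk_LIN blk_WAL
  have hTLC := blk_TLC hLIN blk_PA1 hOMI
  have hEQI := blk_EQI hTLC hOMI
  have hLS2 := blk_LS2 hTLC hOMI
  have hLS3 := blk_LS3 hLS2 hEQI hOMI hBAS
  have hLS4 := blk_LS4 (blk_LL1 blk_PA1) hLIN hOMI hGTR hFGN
  have hEXT : Stmt_EXTc c :=
    blk_EXTc hc0 hRDM hGPM blk_GLN blk_NML blk_SEL hLS3 hLS4 hGDI hBAS hFGN
  have hPPS := blk_PPS blk_ARE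
  have hDEC := blk_DEC hPPS
  have hPLN := blk_PLN hDEC blk_CRN blk_PGS
  have hFCE := blk_FCE blk_PEX hGTR
  have hFMU := blk_FMU blk_ARE blk_FCQ
  have hMUT := blk_MUT hC2G hGOP blk_TIL blk_FCQ hPLN
  have hRAW := blk_RAW hMUT hTN2 hC2G blk_TIL blk_FCQ hPLN hGOP hCTV hBAS
  exact blk_ALLc (blk_KEYc hc1 hRAW hFCE hFMU hGDI hEXT blk_PEU hBAS) hPL

/-- the inequality for bodies, exponent `p ≥ 1 - c` -/
theorem bodies_c {c : ℝ} (hLI : ∀ N : ℕ, LI c N) (p : ℝ) (hp0 : 0 < p) (hp1 : p < 1)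
    (hpc : 1 - p ≤ c) : GEQp p :=
  blk_GEQp p hp0 fun ι _ _ u hu a b ha hb s hs =>
    blk_FIQp T3C.CALC blk_QJT blk_FGN hLI p hp0 hp1 hpc ι u hu a b ha hb s hs

/-- THE THREE-DIMENSIONAL THEOREM from the planar statement `Stmt_PLc c`: for all origin symmetric convex
bodies `K`, `C` of `ℝ³` and all exponents `p` with `1 - c < p < 1` (`0 < p`), the `L_p`-Brunn-Minkowski
inequality for `α · K +_p β · C`, with equality if and only if `C` is a dilate of `K`. -/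
theorem thm_c {c : ℝ} (hc0 : 1 / 486 ≤ c) (hc1 : c ≤ 1) (hPL : Stmt_PLc c)
    (p : ℝ) (hp0 : 0 < p) (hp1 : p < 1) (hpc : 1 - p < c) :
  ∀ (K C : Set (EuclideanSpace ℝ (Fin 3))),
    Convex ℝ K → IsCompact K → (interior K).Nonempty → (∀ x ∈ K, -x ∈ K) →
    Convex ℝ C → IsCompact C → (interior C).Nonempty → (∀ x ∈ C, -x ∈ C) →
    ∀ (α β : ℝ), 0 < α → 0 < β →
      (α * (volume K).toReal ^ (p / 3) + β * (volume C).toReal ^ (p / 3)
        ≤ (volume {x : EuclideanSpace ℝ (Fin 3) |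
              ∀ u ∈ Metric.sphere (0 : EuclideanSpace ℝ (Fin 3)) 1,
                inner ℝ x u ≤ (α * (sSup ((fun y : EuclideanSpace ℝ (Fin 3) => inner ℝ y u) '' K)) ^ p
                    + β * (sSup ((fun y : EuclideanSpace ℝ (Fin 3) => inner ℝ y u) '' C)) ^ p) ^ (1 / p)}).toReal ^ (p / 3))
      ∧ ((volume {x : EuclideanSpace ℝ (Fin 3) |
              ∀ u ∈ Metric.sphere (0 : EuclideanSpace ℝ (Fin 3)) 1,
                inner ℝ x u ≤ (α * (sSup ((fun y : EuclideanSpace ℝ (Fin 3) => inner ℝ y u) '' K)) ^ p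
                    + β * (sSup ((fun y : EuclideanSpace ℝ (Fin 3) => inner ℝ y u) '' C)) ^ p) ^ (1 / p)}).toReal ^ (p / 3)
          = α * (volume K).toReal ^ (p / 3) + β * (volume C).toReal ^ (p / 3)
        ↔ ∃ t : ℝ, 0 < t ∧ C = (fun x : EuclideanSpace ℝ (Fin 3) => t • x) '' K) := by
  have hLI := LI_all_c hc0 hc1 hPL
  have h1 : 1 - c < p := by linarith
  obtain ⟨p0, hp0', hp0p⟩ := exists_between (max_lt hp0 h1)
  have hp00 : 0 < p0 := lt_of_le_of_lt (le_max_left _ _) hp0'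
  have hp0c : 1 - c < p0 := lt_of_le_of_lt (le_max_right _ _) hp0'
  exact blk_FINQp p hp0 (bodies_c hLI p hp0 hp1 hpc.le)
    ⟨p0, hp00, hp0p, bodies_c hLI p0 hp00 (hp0p.trans hp1) (by linarith)⟩

end Pool.G1.Asm
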