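import Pool.Agent.Work.MP_b5407d_g1.InterfaceD
import Pool.Agent.Work.MP_b5407d_g1.BAS

/-!
# G1, block `LGV` (helper24): log-concavity in the levels for polytopes, and for measures
-/

set_option autoImplicit false

open MeasureTheory Set Filter Topology
open scoped ENNReal Pointwise

namespace Pool.G1

namespace LGV

open Pool.T3 (R3 dt cr de K V S H Fam Pos pt Lam Q J lin Calc)

variable {ι : Type}

theorem dt_neg_left (u x : R3) : dt (-u) x = -dt u x := by
  simp only [dt, Pi.neg_apply]; ring

theorem dt_neg_right (u x : R3) : dt u (-x) = -dt u x := by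
  simp only [dt, Pi.neg_apply]; ring

theorem dt_smul_right (c : ℝ) (u x : R3) : dt u (c • x) = c * dt u x := by
  simp only [dt, Pi.smul_apply, smul_eq_mul]; ring

theorem dt_comb (u x z : R3) (s t : ℝ) : dt u (s • x + t • z) = s * dt u x + t * dt u z := by
  simp only [dt, Pi.add_apply, Pi.smul_apply, smul_eq_mul]; ring

theorem mem_K (y : ι → R3) (a : ι → ℝ) (x : R3) : x ∈ K y a ↔ ∀ i, |dt (y i) x| ≤ a i := Iff.rfl

theorem closed_K (y : ι → R3) (a : ι → ℝ) : IsClosed (K y a) := by
  have : K y a = ⋂ i, {x : R3 | |dt (y i) x| ≤ a i} := by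
    ext x; simp only [mem_iInter, mem_ofPred_eq]; exact Iff.rfl
  rw [this]
  exact isClosed_iInter fun i =>
    isClosed_le (CTV.cont_dt continuous_const continuous_id).abs continuous_const

theorem convex_K (y : ι → R3) (a : ι → ℝ) : Convex ℝ (K y a) := by
  intro x hx x' hx' s t hs ht hst i
  have h1 := hx i
  have h2 := hx' i
  rw [dt_comb]
  rw [abs_le] at h1 h2 ⊢
  have e : a i = s * a i + t * a i := by rw [← add_mul, hst, one_mul]
  constructor
  · nlinarith [h1.1, h2.1]
  · nlinarith [h1.2, h2.2]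

/-- the polytopes are symmetric bodies -/
theorem SB_K [Fintype ι] (y : ι → R3) (hy : ∃ R : ℝ, ∀ x ∈ KK y, ∀ k, |x k| ≤ R)
    (a : ι → ℝ) (ha : Pos a) : SB (K y a) := by
  obtain ⟨R, hR⟩ := hy
  have h00 : (0 : R3) ∈ KK y := by
    intro i
    simp [dt]
  have hR0 : 0 ≤ R := by
    have := hR 0 h00 0
    simpa using this
  refine ⟨convex_K y a, ?_, ?_, ?_⟩
  · apply Metric.isCompact_of_isClosed_isBounded (closed_K y a)
    set M : ℝ := 1 + ∑ i, a i with hM
    have hM0 : 0 < M := by
      have : 0 ≤ ∑ i, a i := Finset.sum_nonneg fun i _ => (ha i).le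
      linarith
    rw [isBounded_iff_forall_norm_le]
    refine ⟨M * R, fun x hx => ?_⟩
    rw [pi_norm_le_iff_of_nonneg (by positivity)]
    intro k
    rw [Real.norm_eq_abs]
    have hmem : (1 / M) • x ∈ KK y := by
      intro i
      rw [dt_smul_right, abs_mul, abs_of_pos (by positivity : 0 < 1 / M)]
      have h1 : |dt (y i) x| ≤ a i := hx i
      have h2 : a i ≤ M := by
        have : a i ≤ ∑ j, a j := Finset.single_le_sum (f := a) (fun j _ => (ha j).le)
          (Finset.mem_univ i)
        linarith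
      rw [one_div_mul_eq_div, div_le_one hM0]
      linarith
    have := hR _ hmem k
    simp only [Pi.smul_apply, smul_eq_mul] at this
    rw [abs_mul, abs_of_pos (by positivity : 0 < 1 / M), one_div_mul_eq_div,
      div_le_iff₀ hM0] at this
    linarith
  · have hopen : IsOpen {x : R3 | ∀ i, |dt (y i) x| < a i} := by
      have : {x : R3 | ∀ i, |dt (y i) x| < a i} = ⋂ i, {x : R3 | |dt (y i) x| < a i} := by
        ext x; simp only [mem_iInter, mem_ofPred_eq]
      rw [this]
      exact isOpen_iInter_of_finite fun i =>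
        isOpen_lt (CTV.cont_dt continuous_const continuous_id).abs continuous_const
    refine ⟨0, ?_⟩
    rw [mem_interior]
    refine ⟨{x : R3 | ∀ i, |dt (y i) x| < a i}, fun x hx i => (hx i).le, hopen, fun i => ?_⟩
    have := ha i
    simpa [dt] using this
  · intro x hx i
    rw [dt_neg_right, abs_neg]
    exact hx i

/-- the support function of `K y a` in the directions `± y i` -/
theorem hsup_le (y : ι → R3) (a : ι → ℝ) (ha : Pos a) (i : ι) (u : R3)
    (hu : u = y i ∨ u = -y i) : 0 ≤ hsup (K y a) u ∧ hsup (K y a) u ≤ a i := by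
  have h0 : (0 : R3) ∈ K y a := by
    intro j
    have := (ha j).le
    simpa [dt] using this
  have hle : ∀ x ∈ K y a, dt u x ≤ a i := by
    intro x hx
    rcases hu with rfl | rfl
    · exact (abs_le.mp (hx i)).2
    · rw [dt_neg_left]; linarith [(abs_le.mp (hx i)).1]
  constructor
  · have hb : BddAbove ((fun z => dt u z) '' K y a) := by
      refine ⟨a i, ?_⟩
      rintro _ ⟨x, hx, rfl⟩
      exact hle x hx
    have : dt u 0 ≤ hsup (K y a) u := le_csSup hb ⟨0, h0, rfl⟩
    simpa [dt] using this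
  · have hne : ((fun z => dt u z) '' K y a).Nonempty := ⟨_, ⟨0, h0, rfl⟩⟩
    apply csSup_le hne
    rintro _ ⟨x, hx, rfl⟩
    exact hle x hx

theorem LS_sub (y : ι → R3) (a b : ι → ℝ) (ha : Pos a) (hb : Pos b) (t : ℝ) (h0 : 0 < t)
    (h1 : t < 1) : LS t (K y a) (K y b) ⊆ K y (fun i => a i ^ (1 - t) * b i ^ t) := by
  intro x hx i
  have key : ∀ u : R3, (u = y i ∨ u = -y i) → dt u x ≤ a i ^ (1 - t) * b i ^ t := by
    intro u hu
    obtain ⟨p1, p2⟩ := hsup_le y a ha i u hu
    obtain ⟨q1, q2⟩ := hsup_le y b hb i u hu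
    calc dt u x ≤ (hsup (K y a) u) ^ (1 - t) * (hsup (K y b) u) ^ t := hx u
      _ ≤ a i ^ (1 - t) * b i ^ t := by
        apply mul_le_mul
        · exact Real.rpow_le_rpow p1 p2 (by linarith)
        · exact Real.rpow_le_rpow q1 q2 (by linarith)
        · exact Real.rpow_nonneg q1 _
        · exact Real.rpow_nonneg (ha i).le _
  have k1 := key (y i) (Or.inl rfl)
  have k2 := key (-y i) (Or.inr rfl)
  rw [dt_neg_left] at k2
  rw [abs_le]
  exact ⟨by linarith, k1⟩

end LGV

theorem blk_LGV : Stmt_LGV := by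
  intro hM f hf ι _ y hy a b ha hb t h0 h1
  exact (hM f hf _ _ (LGV.SB_K y hy a ha) (LGV.SB_K y hy b hb) t h0 h1).trans
    (measure_mono (LGV.LS_sub y a b ha hb t h0 h1))

end Pool.G1

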