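import Pool.Agent.Work.MP_b5407d_g1.InterfaceD
import Pool.Agent.Work.MP_b5407d_g1.LGV

/-!
# G1, block `DBM` (helper79): the dimensional Brunn-Minkowski inequality for even log-concave measures
-/

set_option autoImplicit false

open MeasureTheory Set Filter Topology
open scoped ENNReal Pointwise

namespace Pool.G1

namespace DBM

open Pool.T3 (R3 dt cr de K V S H Fam Pos pt Lam Q J lin Calc)

/-! ## convex hulls of compact sets -/

/-- Caratheodory -/
theorem hull_eq {E : Type*} [NormedAddCommGroup E] [NormedSpace ℝ E]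
    [FiniteDimensional ℝ E] (s : Set E) :
    convexHull ℝ s = ⋃ n ∈ Finset.range (Module.finrank ℝ E + 2),
      (fun p : (Fin n → ℝ) × (Fin n → E) => ∑ i, p.1 i • p.2 i) ''
        (stdSimplex ℝ (Fin n) ×ˢ Set.pi Set.univ fun _ => s) := by
    apply Set.Subset.antisymm
    · intro x hx
      rw [convexHull_eq_union] at hx
      simp only [Set.mem_iUnion] at hx
      obtain ⟨t, hts, hai, hx⟩ := hx
      rw [Finset.mem_convexHull] at hx
      obtain ⟨w, hw0, hw1, hx⟩ := hx
      rw [Finset.centerMass_eq_of_sum_1 _ _ hw1] at hx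
      have hcard := hai.card_le_finrank_succ
      rw [Fintype.card_coe] at hcard
      have hfr : Module.finrank ℝ (vectorSpan ℝ (Set.range ((↑) : t → E))) ≤ Module.finrank ℝ E :=
        Submodule.finrank_le _
      simp only [Set.mem_iUnion]
      refine ⟨t.card, Finset.mem_range.2 (by omega), ?_⟩
      set e := t.equivFin with he
      refine ⟨(fun i => w (e.symm i : E), fun i => (e.symm i : E)), ⟨⟨?_, ?_⟩, ?_⟩, ?_⟩
      · exact fun i => hw0 _ (e.symm i).2
      · have h1 : ∑ i, w (e.symm i : E) = ∑ y : t, w (y : E) := Equiv.sum_comp e.symm fun y => w (y : E)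
        simp only
        rw [h1, Finset.sum_coe_sort t w]
        exact hw1
      · intro i _
        exact hts (e.symm i).2
      · have h1 : ∑ i, w (e.symm i : E) • (e.symm i : E) = ∑ y : t, w (y : E) • (y : E) :=
          Equiv.sum_comp e.symm fun y => w (y : E) • (y : E)
        simp only
        rw [h1, Finset.sum_coe_sort t (fun y => w y • y)]
        exact hx
    · intro x hx
      simp only [Set.mem_iUnion] at hx
      obtain ⟨n, -, ⟨w, z⟩, ⟨⟨hw0, hw1⟩, hz⟩, rfl⟩ := hx
      exact (convex_convexHull ℝ s).sum_mem (fun i _ => hw0 i) hw1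
        fun i _ => subset_convexHull ℝ s (hz i (Set.mem_univ i))

/-- convex hulls of compact sets in finite dimensional spaces are compact -/
theorem compact_convexHull {E : Type*} [NormedAddCommGroup E] [NormedSpace ℝ E]
    [FiniteDimensional ℝ E] {s : Set E} (hs : IsCompact s) : IsCompact (convexHull ℝ s) := by
  rw [hull_eq]
  apply Finset.isCompact_biUnion
  intro n _
  apply IsCompact.image
  · exact (isCompact_stdSimplex ℝ (Fin n)).prod (isCompact_univ_pi fun _ => hs)
  · fun_prop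

/-! ## the measure -/

variable {f : R3 → ℝ}

theorem le_zero (hf : ELC f) (x : R3) : f x ≤ f 0 := by
  have h := hf.lc x (-x) (1 / 2) (by norm_num) (by norm_num)
  rw [hf.even] at h
  have h1 : f x ^ (1 - (1 / 2 : ℝ)) * f x ^ (1 / 2 : ℝ) = f x := by
    rw [← Real.rpow_add' (hf.nn x) (by norm_num)]
    norm_num
  have h2 : (1 - (1 / 2 : ℝ)) • x + (1 / 2 : ℝ) • (-x) = 0 := by
    ext k
    simp only [Pi.add_apply, Pi.smul_apply, Pi.neg_apply, smul_eq_mul, Pi.zero_apply]
    ring
  rw [h1, h2] at h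
  exact h

theorem smul_ge (hf : ELC f) (x : R3) (s : ℝ) (hs : 0 ≤ s) (hs1 : s ≤ 1) : f x ≤ f (s • x) := by
  have h := hf.lc 0 x s hs hs1
  rw [smul_zero, zero_add] at h
  have h0 : f x = f x ^ (1 - s) * f x ^ s := by
    rw [← Real.rpow_add' (hf.nn x) (by norm_num)]
    norm_num
  calc f x = f x ^ (1 - s) * f x ^ s := h0
    _ ≤ f 0 ^ (1 - s) * f x ^ s :=
        mul_le_mul_of_nonneg_right (Real.rpow_le_rpow (hf.nn x) (le_zero hf x) (by linarith))
          (Real.rpow_nonneg (hf.nn x) _)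
    _ ≤ f (s • x) := h

theorem ms_le (hf : ELC f) (A : Set R3) : ms f A ≤ ENNReal.ofReal (f 0) * volume A := by
  have h : ms f ≤ volume.withDensity (fun _ => ENNReal.ofReal (f 0)) :=
    withDensity_mono (Eventually.of_forall fun x => ENNReal.ofReal_le_ofReal (le_zero hf x))
  have h1 := h A
  rwa [withDensity_const, Measure.smul_apply, smul_eq_mul] at h1

theorem loc_fin (hf : ELC f) : IsLocallyFiniteMeasure (ms f) :=
  ⟨fun x => ⟨Metric.closedBall x 1, Metric.closedBall_mem_nhds x one_pos,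
    lt_of_le_of_lt (ms_le hf _) (ENNReal.mul_lt_top ENNReal.ofReal_lt_top
      (isCompact_closedBall x 1).measure_lt_top)⟩⟩

theorem fin_compact (hf : ELC f) {A : Set R3} (hA : IsCompact A) : ms f A < ∞ :=
  lt_of_le_of_lt (ms_le hf _) (ENNReal.mul_lt_top ENNReal.ofReal_lt_top hA.measure_lt_top)

theorem meas_dens (hf : ELC f) : Measurable (fun x => ENNReal.ofReal (f x)) :=
  hf.meas.ennreal_ofReal

theorem zero_of_vol (hf : ELC f) {A : Set R3} (h : volume A = 0) : ms f A = 0 := by
  have := ms_le hf A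
  rw [h, mul_zero] at this
  exact le_antisymm this bot_le

/-- scaling -/
theorem ms_smul (hf : ELC f) (A : Set R3) (s : ℝ) (hs : 0 < s) (hs1 : s ≤ 1) :
    ENNReal.ofReal (s ^ 3) * ms f A ≤ ms f (s • A) := by
  have hs0 : s ≠ 0 := hs.ne'
  have hme : MeasurableEmbedding (fun x : R3 => s • x) := measurableEmbedding_const_smul₀ hs0
  have hmap := Measure.map_addHaar_smul (volume : Measure R3) hs0
  have hfr : Module.finrank ℝ R3 = 3 := by simp
  rw [hfr] at hmap
  have h1 : ms f (s • A) = ∫⁻ x in s • A, ENNReal.ofReal (f x) := withDensity_apply' _ _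
  have h2 : ms f A = ∫⁻ x in A, ENNReal.ofReal (f x) := withDensity_apply' _ _
  have hpre : (fun x : R3 => s • x) ⁻¹' (s • A) = A := by
    ext x
    simp only [mem_preimage]
    exact Set.smul_mem_smul_set_iff₀ hs0 A x
  have h3 : ∫⁻ x in s • A, ENNReal.ofReal (f x) ∂(Measure.map (fun x : R3 => s • x) volume) =
      ∫⁻ x in A, ENNReal.ofReal (f (s • x)) := by
    rw [hme.restrict_map, hme.lintegral_map, hpre]
  rw [hmap, Measure.restrict_smul, lintegral_smul_measure] at h3
  have h4 : ENNReal.ofReal (s ^ 3) * ENNReal.ofReal |(s ^ 3)⁻¹| = 1 := by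
    rw [← ENNReal.ofReal_mul (by positivity), abs_of_pos (by positivity),
      mul_inv_cancel₀ (by positivity), ENNReal.ofReal_one]
  have h5 : ms f (s • A) = ENNReal.ofReal (s ^ 3) * ∫⁻ x in A, ENNReal.ofReal (f (s • x)) := by
    rw [← h3, smul_eq_mul, ← mul_assoc, h4, one_mul, h1]
  rw [h5, h2]
  apply mul_le_mul_right
  exact lintegral_mono fun x => ENNReal.ofReal_le_ofReal (smul_ge hf x s hs.le hs1)

/-- symmetric convex sets with interior contain `0` in the interior -/
theorem zero_int {A : Set R3} (hc : Convex ℝ A) (hs : ∀ x ∈ A, -x ∈ A)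
    (hi : (interior A).Nonempty) : (0 : R3) ∈ interior A := by
  obtain ⟨x, hx⟩ := hi
  have hneg : -A = A := by
    ext z
    constructor
    · intro hz
      have := hs _ hz
      simpa using this
    · intro hz
      exact hs _ hz
  have hx' : -x ∈ interior A := by
    have h1 : interior (-A) = -interior A := by
      have := (Homeomorph.neg R3).preimage_interior A
      exact this.symm
    rw [hneg] at h1
    rw [h1]
    simpa using hx
  have h2 := hc.interior hx hx' (a := 1 / 2) (b := 1 / 2) (by norm_num) (by norm_num) (by norm_num)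
  have h3 : (1 / 2 : ℝ) • x + (1 / 2 : ℝ) • (-x) = 0 := by
    rw [smul_neg, add_neg_cancel]
  rwa [h3] at h2

theorem int_of_vol {A : Set R3} (hc : Convex ℝ A) (h : volume A ≠ 0) : (interior A).Nonempty := by
  by_contra hne
  rw [not_nonempty_iff_eq_empty] at hne
  apply h
  have h1 := hc.addHaar_frontier volume
  have h2 : A ⊆ frontier A := by
    intro x hx
    rw [frontier, hne, sdiff_empty]
    exact subset_closure hx
  exact measure_mono_null h2 h1

theorem pos_body (hf : ELC f) (hne : ms f univ ≠ 0) {A : Set R3} (hA : SB A) : 0 < ms f A := by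
  set P : Set R3 := {x | ENNReal.ofReal (f x) ≠ 0} with hP
  have hP' : ∀ x, x ∈ P ↔ 0 < f x := by
    intro x
    rw [hP, mem_ofPred_eq, Ne, ENNReal.ofReal_eq_zero, not_le]
  have hvol : volume P ≠ 0 := by
    intro h
    apply hne
    rw [ms, withDensity_apply_eq_zero (meas_dens hf), inter_univ]
    exact h
  have hconv : Convex ℝ P := by
    intro x hx y hy a b ha hb hab
    rw [hP'] at hx hy ⊢
    have h := hf.lc x y b hb (by linarith)
    have e : 1 - b = a := by linarith
    rw [e] at h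
    exact lt_of_lt_of_le (mul_pos (Real.rpow_pos_of_pos hx _) (Real.rpow_pos_of_pos hy _)) h
  have hsym : ∀ x ∈ P, -x ∈ P := by
    intro x hx
    rw [hP'] at hx ⊢
    rwa [hf.even]
  have h0 : (0 : R3) ∈ interior P := zero_int hconv hsym (int_of_vol hconv hvol)
  have h1 : (0 : R3) ∈ interior A := zero_int hA.cvx hA.sym hA.int
  have hop : IsOpen (interior P ∩ interior A) := isOpen_interior.inter isOpen_interior
  have hpos : 0 < volume (interior P ∩ interior A) := hop.measure_pos volume ⟨0, h0, h1⟩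
  have h2 : ms f (interior P ∩ interior A) ≠ 0 := by
    intro h
    rw [ms, withDensity_apply_eq_zero (meas_dens hf)] at h
    have h3 : {x | ENNReal.ofReal (f x) ≠ 0} ∩ (interior P ∩ interior A) =
        interior P ∩ interior A := by
      apply inter_eq_right.mpr
      intro x hx
      exact interior_subset hx.1
    rw [h3] at h
    exact hpos.ne' h
  exact lt_of_lt_of_le (pos_iff_ne_zero.mpr h2)
    (measure_mono (inter_subset_right.trans interior_subset))

/-! ## support functions -/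

theorem bdd (u : R3) {A : Set R3} (hA : SB A) : BddAbove ((fun z => dt u z) '' A) :=
  (hA.cpt.image (CTV.cont_dt continuous_const continuous_id)).bddAbove

theorem le_hsup {A : Set R3} (hA : SB A) (u : R3) {x : R3} (hx : x ∈ A) : dt u x ≤ hsup A u :=
  le_csSup (bdd u hA) ⟨x, hx, rfl⟩

theorem abs_le_hsup {A : Set R3} (hA : SB A) (u : R3) {x : R3} (hx : x ∈ A) :
    |dt u x| ≤ hsup A u := by
  rw [abs_le]
  constructor
  · have := le_hsup hA u (hA.sym x hx)
    rw [LGV.dt_neg_right] at this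
    linarith
  · exact le_hsup hA u hx

theorem hsup_attained {A : Set R3} (hA : SB A) (u : R3) : ∃ x ∈ A, hsup A u = dt u x := by
  have hne : A.Nonempty := hA.int.mono interior_subset
  obtain ⟨x, hx, hm⟩ := hA.cpt.exists_isMaxOn hne
    (f := fun z => dt u z) (CTV.cont_dt continuous_const continuous_id).continuousOn
  refine ⟨x, hx, le_antisymm ?_ (le_hsup hA u hx)⟩
  apply csSup_le (hne.image _)
  rintro _ ⟨z, hz, rfl⟩
  exact hm hz

theorem hsup_pos {A : Set R3} (hA : SB A) (u : R3) (hu : u ≠ 0) : 0 < hsup A u := by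
  have h0 := zero_int hA.cvx hA.sym hA.int
  have h1 : ∀ᶠ δ : ℝ in 𝓝 0, δ • u ∈ interior A := by
    have hc : Continuous (fun δ : ℝ => δ • u) := by fun_prop
    have := hc.tendsto 0
    rw [zero_smul] at this
    exact this (isOpen_interior.mem_nhds h0)
  have h2 : ∀ᶠ δ : ℝ in 𝓝[>] 0, δ • u ∈ interior A := h1.filter_mono nhdsWithin_le_nhds
  obtain ⟨δ, hδ, hδ0⟩ := (h2.and self_mem_nhdsWithin).exists
  have h3 := le_hsup hA u (interior_subset hδ)
  rw [LGV.dt_smul_right] at h3
  have h4 : 0 < dt u u := by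
    by_contra hle
    push Not at hle
    apply hu
    have e : dt u u = u 0 * u 0 + u 1 * u 1 + u 2 * u 2 := rfl
    have e0 : u 0 = 0 := by
      have : u 0 * u 0 = 0 := by nlinarith [mul_self_nonneg (u 0), mul_self_nonneg (u 1), mul_self_nonneg (u 2)]
      exact mul_self_eq_zero.mp this
    have e1 : u 1 = 0 := by
      have : u 1 * u 1 = 0 := by nlinarith [mul_self_nonneg (u 0), mul_self_nonneg (u 1), mul_self_nonneg (u 2)]
      exact mul_self_eq_zero.mp this
    have e2 : u 2 = 0 := by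
      have : u 2 * u 2 = 0 := by nlinarith [mul_self_nonneg (u 0), mul_self_nonneg (u 1), mul_self_nonneg (u 2)]
      exact mul_self_eq_zero.mp this
    ext k
    fin_cases k
    · exact e0
    · exact e1
    · exact e2
  exact lt_of_lt_of_le (mul_pos hδ0 h4) h3

/-- linear functionals -/
theorem fun_eq (g : R3 →L[ℝ] ℝ) (x : R3) :
    g x = dt (fun k => g (Pi.single k 1)) x := by
  have h : x = ∑ k, x k • (Pi.single k (1 : ℝ) : R3) := by
    ext j
    simp [Finset.sum_apply, Pi.single_apply]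
  conv_lhs => rw [h]
  rw [map_sum]
  simp only [map_smul, smul_eq_mul, Fin.sum_univ_three, dt]
  ring

/-- separation -/
theorem sep {A B : Set R3} (hA : SB A) (hB : SB B) (r : ℝ) (h0 : 0 < r) (h1 : r < 1) (z : R3)
    (hz : z ∉ (1 - r) • A + r • B) :
    ∃ u : R3, u ≠ 0 ∧ (1 - r) * hsup A u + r * hsup B u < dt u z := by
  have hcv : Convex ℝ ((1 - r) • A + r • B) := (hA.cvx.smul _).add (hB.cvx.smul _)
  have hcp : IsCompact ((1 - r) • A + r • B) := (hA.cpt.smul _).add (hB.cpt.smul _)
  obtain ⟨g, v, hg, hgz⟩ := geometric_hahn_banach_closed_point hcv hcp.isClosed hz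
  set u : R3 := fun k => g (Pi.single k 1) with hu
  have key : (1 - r) * hsup A u + r * hsup B u < dt u z := by
    obtain ⟨x, hx, ex⟩ := hsup_attained hA u
    obtain ⟨y, hy, ey⟩ := hsup_attained hB u
    have hm : (1 - r) • x + r • y ∈ (1 - r) • A + r • B :=
      add_mem_add (smul_mem_smul_set hx) (smul_mem_smul_set hy)
    have := hg _ hm
    rw [fun_eq, LGV.dt_comb, ← hu] at this
    rw [fun_eq, ← hu] at hgz
    rw [ex, ey]
    linarith
  refine ⟨u, ?_, key⟩
  intro h
  obtain ⟨x, hx, ex⟩ := hsup_attained hA u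
  obtain ⟨y, hy, ey⟩ := hsup_attained hB u
  rw [ex, ey, h] at key
  simp [dt] at key

/-- the standard vectors -/
def ee (k : Fin 3) : R3 := Pi.single k 1

theorem dt_ee (k : Fin 3) (x : R3) : dt (ee k) x = x k := by
  fin_cases k <;> simp [dt, ee]

theorem ee_ne (k : Fin 3) : ee k ≠ 0 := by
  intro h
  have := congrFun h k
  simp [ee] at this

/-- outer approximation by polytopes -/
theorem outer {A B : Set R3} (hA : SB A) (hB : SB B) (r : ℝ) (h0 : 0 < r) (h1 : r < 1) (U : Set R3)
    (hU : IsOpen U) (hCU : (1 - r) • A + r • B ⊆ U) :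
    ∃ (ι : Type) (_ : Fintype ι) (y : ι → R3), (∀ i, y i ≠ 0) ∧
      (∀ x ∈ KK y, ∀ k, |x k| ≤ 1) ∧
      K y (fun i => (1 - r) * hsup A (y i) + r * hsup B (y i)) ⊆ U := by
  set c : R3 → ℝ := fun u => (1 - r) * hsup A u + r * hsup B u with hc
  set Bx : Set R3 := K ee (fun k => c (ee k)) with hBx
  have hee : ∀ x ∈ KK ee, ∀ k, |x k| ≤ 1 := by
    intro x hx k
    have := hx k
    rwa [dt_ee] at this
  have hpos : ∀ u : R3, u ≠ 0 → 0 < c u := fun u hu =>
    add_pos (mul_pos (by linarith) (hsup_pos hA u hu)) (mul_pos h0 (hsup_pos hB u hu))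
  have hBxc : IsCompact Bx := (LGV.SB_K ee ⟨1, hee⟩ _ fun k => hpos _ (ee_ne k)).cpt
  have hZ : IsCompact (Bx \ U) := hBxc.diff hU
  have hsep : ∀ z : R3, ∃ u : R3, u ≠ 0 ∧ (z ∈ Bx \ U → c u < dt u z) := by
    intro z
    by_cases hz : z ∈ Bx \ U
    · obtain ⟨u, hu, h⟩ := sep hA hB r h0 h1 z fun h => hz.2 (hCU h)
      exact ⟨u, hu, fun _ => h⟩
    · exact ⟨ee 0, ee_ne 0, fun h => absurd h hz⟩
  choose u hu hlt using hsep
  obtain ⟨T, hT, hcov⟩ := hZ.elim_nhds_subcover (fun z => {w : R3 | c (u z) < dt (u z) w})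
    (fun z hz => (isOpen_lt continuous_const
      (CTV.cont_dt continuous_const continuous_id)).mem_nhds (hlt z hz))
  refine ⟨{z // z ∈ T} ⊕ Fin 3, inferInstance, Sum.elim (fun z => u z.1) ee, ?_, ?_, ?_⟩
  · rintro (z | k)
    · exact hu _
    · exact ee_ne k
  · intro x hx k
    have := hx (Sum.inr k)
    simp only [Sum.elim_inr] at this
    rwa [dt_ee] at this
  · intro x hx
    by_contra hxU
    have hxB : x ∈ Bx := by
      intro k
      exact hx (Sum.inr k)
    have hxZ : x ∈ Bx \ U := ⟨hxB, hxU⟩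
    obtain ⟨z, hz⟩ := mem_iUnion.mp (hcov hxZ)
    obtain ⟨hzT, hz2⟩ := mem_iUnion.mp hz
    have h3 : |dt (u z) x| ≤ c (u z) := hx (Sum.inl ⟨z, hzT⟩)
    have h4 : c (u z) < dt (u z) x := hz2
    linarith [le_abs_self (dt (u z) x)]

/-! ## bodies -/

theorem poly (hLGV : Stmt_LGV) (hSGR : Stmt_SGR) (hM : MEAc) (hf : ELC f) (hne : ms f univ ≠ 0)
    {ι : Type} [Fintype ι] (y : ι → R3) (hy : ∃ R : ℝ, ∀ x ∈ KK y, ∀ k, |x k| ≤ R)
    (a b : ι → ℝ) (ha : Pos a) (hb : Pos b) (r : ℝ) (h0 : 0 < r) (h1 : r < 1) :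
    ENNReal.ofReal (1 - r) * (ms f (K y a)) ^ (1 / (3 : ℝ)) +
        ENNReal.ofReal r * (ms f (K y b)) ^ (1 / (3 : ℝ)) ≤
      (ms f (K y (fun i => (1 - r) * a i + r * b i))) ^ (1 / (3 : ℝ)) := by
  have hfin : ∀ a, Pos a → ms f (K y a) < ∞ := fun a ha => fin_compact hf (LGV.SB_K y hy a ha).cpt
  have hp : ∀ a, Pos a → 0 < ms f (K y a) := fun a ha => pos_body hf hne (LGV.SB_K y hy a ha)
  have hc : Pos (fun i => (1 - r) * a i + r * b i) := fun i =>
    add_pos (mul_pos (by linarith) (ha i)) (mul_pos h0 (hb i))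
  have hmain := hSGR ι (fun a => (ms f (K y a)).toReal)
    (fun a ha => ENNReal.toReal_pos (hp a ha).ne' (hfin a ha).ne)
    (by
      intro a b ha hb t h0 h1
      have h := hLGV hM f hf ι y hy a b ha hb t h0 h1
      have hab : Pos (fun i => a i ^ (1 - t) * b i ^ t) := fun i =>
        mul_pos (Real.rpow_pos_of_pos (ha i) _) (Real.rpow_pos_of_pos (hb i) _)
      have h2 := ENNReal.toReal_mono (hfin _ hab).ne h
      rw [ENNReal.toReal_mul, ← ENNReal.toReal_rpow, ← ENNReal.toReal_rpow] at h2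
      exact h2)
    (by
      intro a b ha hb hab
      apply ENNReal.toReal_mono (hfin b hb).ne
      apply measure_mono
      intro x hx i
      exact (hx i).trans (hab i))
    (by
      intro a ha s hs hs1
      have hsa : Pos (fun i => s * a i) := fun i => mul_pos hs (ha i)
      have h := ms_smul hf (K y a) s hs hs1
      have hsub : s • K y a ⊆ K y (fun i => s * a i) := by
        rintro _ ⟨x, hx, rfl⟩ i
        simp only
        rw [LGV.dt_smul_right, abs_mul, abs_of_pos hs]
        exact mul_le_mul_of_nonneg_left (hx i) hs.le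
      have h2 := ENNReal.toReal_mono (hfin _ hsa).ne (h.trans (measure_mono hsub))
      rw [ENNReal.toReal_mul, ENNReal.toReal_ofReal (by positivity)] at h2
      exact h2)
    a b ha hb r h0 h1
  have e : ∀ a, Pos a → (ms f (K y a)) ^ (1 / (3 : ℝ)) =
      ENNReal.ofReal ((ms f (K y a)).toReal ^ ((1 : ℝ) / 3)) := by
    intro a ha
    rw [← ENNReal.ofReal_rpow_of_nonneg ENNReal.toReal_nonneg (by norm_num),
      ENNReal.ofReal_toReal (hfin a ha).ne]
  rw [e a ha, e b hb, e _ hc, ← ENNReal.ofReal_mul (by linarith), ← ENNReal.ofReal_mul h0.le,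
    ← ENNReal.ofReal_add (mul_nonneg (by linarith) (Real.rpow_nonneg ENNReal.toReal_nonneg _))
      (mul_nonneg h0.le (Real.rpow_nonneg ENNReal.toReal_nonneg _))]
  exact ENNReal.ofReal_le_ofReal hmain

theorem bodies (hLGV : Stmt_LGV) (hSGR : Stmt_SGR) (hM : MEAc) (hf : ELC f)
    (hne : ms f univ ≠ 0) {A B : Set R3} (hA : SB A) (hB : SB B) (r : ℝ) (h0 : 0 < r)
    (h1 : r < 1) :
    ENNReal.ofReal (1 - r) * (ms f A) ^ (1 / (3 : ℝ)) +
        ENNReal.ofReal r * (ms f B) ^ (1 / (3 : ℝ)) ≤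
      (ms f ((1 - r) • A + r • B)) ^ (1 / (3 : ℝ)) := by
  have := loc_fin hf
  have hU : ∀ U : Set R3, (1 - r) • A + r • B ⊆ U → IsOpen U →
      ENNReal.ofReal (1 - r) * (ms f A) ^ (1 / (3 : ℝ)) +
        ENNReal.ofReal r * (ms f B) ^ (1 / (3 : ℝ)) ≤ (ms f U) ^ (1 / (3 : ℝ)) := by
    intro U hCU hU
    obtain ⟨ι, _, y, hy0, hy1, hKU⟩ := outer hA hB r h0 h1 U hU hCU
    have h := poly hLGV hSGR hM hf hne y ⟨1, hy1⟩ (fun i => hsup A (y i)) (fun i => hsup B (y i))
      (fun i => hsup_pos hA _ (hy0 i)) (fun i => hsup_pos hB _ (hy0 i)) r h0 h1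
    have hAK : A ⊆ K y (fun i => hsup A (y i)) := fun x hx i => abs_le_hsup hA _ hx
    have hBK : B ⊆ K y (fun i => hsup B (y i)) := fun x hx i => abs_le_hsup hB _ hx
    refine le_trans (add_le_add ?_ ?_) (h.trans ?_)
    · exact mul_le_mul_right (ENNReal.rpow_le_rpow (measure_mono hAK) (by norm_num)) _
    · exact mul_le_mul_right (ENNReal.rpow_le_rpow (measure_mono hBK) (by norm_num)) _
    · exact ENNReal.rpow_le_rpow (measure_mono hKU) (by norm_num)
  rw [one_div] at hU ⊢
  rw [ENNReal.le_rpow_inv_iff (by norm_num : (0 : ℝ) < 3), measure_eq_iInf_isOpen ((1 - r) • A + r • B) (ms f)]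
  refine le_iInf fun U => le_iInf fun hCU => le_iInf fun hUo => ?_
  rw [← ENNReal.le_rpow_inv_iff (by norm_num : (0 : ℝ) < 3)]
  exact hU U hCU hUo

/-! ## general sets -/

theorem inner {A : Set R3} (hf : ELC f) (hc : Convex ℝ A) (hs : ∀ x ∈ A, -x ∈ A)
    (hA : ms f A ≠ 0) (q : ℝ≥0∞) (hq : q < ms f A) : ∃ A' : Set R3, SB A' ∧ A' ⊆ A ∧ q < ms f A' := by
  have := loc_fin hf
  have hvol : volume A ≠ 0 := fun h => hA (zero_of_vol hf h)
  have hint := int_of_vol hc hvol
  have h0 := zero_int hc hs hint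
  have hfr : ms f (frontier A) = 0 := zero_of_vol hf (hc.addHaar_frontier volume)
  have hle : ms f A ≤ ms f (interior A) := by
    have hsub : A ⊆ interior A ∪ frontier A := by
      intro x hx
      by_cases hxi : x ∈ interior A
      · exact Or.inl hxi
      · exact Or.inr ⟨subset_closure hx, hxi⟩
    calc ms f A ≤ ms f (interior A ∪ frontier A) := measure_mono hsub
      _ ≤ ms f (interior A) + ms f (frontier A) := measure_union_le _ _
      _ = ms f (interior A) := by rw [hfr, add_zero]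
  obtain ⟨C, hCsub, hCc, hCq⟩ := isOpen_interior.exists_lt_isCompact (hq.trans_le hle)
  obtain ⟨ε, hε, hball⟩ := Metric.isOpen_iff.mp isOpen_interior 0 h0
  set D : Set R3 := (C ∪ -C) ∪ Metric.closedBall 0 (ε / 2) with hD
  have hDc : IsCompact D := (hCc.union hCc.neg).union (isCompact_closedBall _ _)
  have hneg : ∀ x ∈ interior A, -x ∈ interior A := by
    intro x hx
    have hAA : -A = A := by
      ext z
      constructor
      · intro hz
        have := hs _ hz
        simpa using this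
      · intro hz
        exact hs _ hz
    have h1 : interior (-A) = -interior A := ((Homeomorph.neg R3).preimage_interior A).symm
    rw [hAA] at h1
    rw [h1]
    simpa using hx
  have hDsub : D ⊆ interior A := by
    rintro x ((hx | hx) | hx)
    · exact hCsub hx
    · have := hneg _ (hCsub hx)
      simpa using this
    · apply hball
      rw [Metric.mem_closedBall] at hx
      rw [Metric.mem_ball]
      linarith
  have hDneg : -D = D := by
    rw [hD, union_neg, union_neg, neg_neg, union_comm (-C) C]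
    simp
  refine ⟨convexHull ℝ D, ⟨convex_convexHull ℝ D, compact_convexHull hDc, ?_, ?_⟩, ?_, ?_⟩
  · refine ⟨0, ?_⟩
    rw [mem_interior]
    refine ⟨Metric.ball 0 (ε / 2), ?_, Metric.isOpen_ball, Metric.mem_ball_self (by linarith)⟩
    exact (Metric.ball_subset_closedBall.trans subset_union_right).trans (subset_convexHull ℝ D)
  · intro x hx
    have h1 : (convexHull ℝ) (-D) = -(convexHull ℝ) D := convexHull_neg D
    rw [hDneg] at h1
    rw [h1]
    simpa using hx
  · exact (convexHull_min hDsub hc.interior).trans interior_subset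
  · exact hCq.trans_le (measure_mono ((subset_union_left.trans subset_union_left).trans
      (subset_convexHull ℝ D)))

/-- passage to the limit from below -/
theorem lim_below (g : ℝ≥0∞ → ℝ≥0∞) (hg : Continuous g) (x X : ℝ≥0∞) (hx : x ≠ 0)
    (h : ∀ q < x, g q ≤ X) : g x ≤ X := by
  have hcl : IsClosed {q | g q ≤ X} := isClosed_le hg continuous_const
  have hsub : Iio x ⊆ {q | g q ≤ X} := fun q hq => h q hq
  have hne : (Iio x).Nonempty := ⟨0, pos_iff_ne_zero.mpr hx⟩
  have h1 : closure (Iio x) ⊆ {q | g q ≤ X} := hcl.closure_subset_iff.mpr hsub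
  rw [closure_Iio' hne] at h1
  exact h1 (mem_Iic.mpr le_rfl)

theorem zero_mem {A : Set R3} (hc : Convex ℝ A) (hn : A.Nonempty) (hs : ∀ x ∈ A, -x ∈ A) :
    (0 : R3) ∈ A := by
  obtain ⟨x, hx⟩ := hn
  have h2 := hc hx (hs x hx) (a := 1 / 2) (b := 1 / 2) (by norm_num) (by norm_num) (by norm_num)
  have h3 : (1 / 2 : ℝ) • x + (1 / 2 : ℝ) • (-x) = 0 := by
    rw [smul_neg, add_neg_cancel]
  rwa [h3] at h2

/-- one of the two measures vanishes -/
theorem one_zero (hf : ELC f) {B C : Set R3} (s : ℝ) (h0 : 0 < s) (h1 : s ≤ 1)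
    (hsub : s • B ⊆ C) :
    ENNReal.ofReal s * (ms f B) ^ (1 / (3 : ℝ)) ≤ (ms f C) ^ (1 / (3 : ℝ)) := by
  have h := (ms_smul hf B s h0 h1).trans (measure_mono hsub)
  have h2 := ENNReal.rpow_le_rpow h (by norm_num : (0 : ℝ) ≤ 1 / (3 : ℝ))
  rw [ENNReal.mul_rpow_of_nonneg _ _ (by norm_num : (0 : ℝ) ≤ 1 / (3 : ℝ)),
    ENNReal.ofReal_rpow_of_nonneg (by positivity) (by norm_num)] at h2
  have e : (s ^ 3) ^ (1 / (3 : ℝ)) = s := by
    rw [← Real.rpow_natCast, ← Real.rpow_mul h0.le]
    norm_num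
  rwa [e] at h2

end DBM

open Pool.T3 (R3 dt K Pos) in
theorem blk_DBM (hLGV : Stmt_LGV) (hSGR : Stmt_SGR) : Stmt_DBM := by
  intro hM f hf A B hAc hBc hAn hBn hAs hBs t ht0 ht1
  have third : (0 : ℝ) < 1 / (3 : ℝ) := by norm_num
  rcases ht0.eq_or_lt with rfl | h0
  · rw [ENNReal.ofReal_zero, zero_mul, zero_add, sub_zero, ENNReal.ofReal_one, one_mul, one_smul]
    apply ENNReal.rpow_le_rpow _ third.le
    apply measure_mono
    intro x hx
    rw [zero_smul_set hAn]
    simpa using hx
  rcases ht1.eq_or_lt with rfl | h1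
  · rw [sub_self, ENNReal.ofReal_zero, zero_mul, add_zero, ENNReal.ofReal_one, one_mul, one_smul]
    apply ENNReal.rpow_le_rpow _ third.le
    apply measure_mono
    intro x hx
    rw [zero_smul_set hBn]
    simpa using hx
  by_cases hne : ms f univ = 0
  · have hz : ∀ X : Set R3, ms f X = 0 := fun X => measure_mono_null (subset_univ X) hne
    rw [hz A, hz B, ENNReal.zero_rpow_of_pos third]
    simp
  have hA0 := DBM.zero_mem hAc hAn hAs
  have hB0 := DBM.zero_mem hBc hBn hBs
  have hsubA : t • A ⊆ t • A + (1 - t) • B := by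
    rintro _ ⟨x, hx, rfl⟩
    refine ⟨t • x, smul_mem_smul_set hx, (1 - t) • (0 : R3), smul_mem_smul_set hB0, ?_⟩
    simp
  have hsubB : (1 - t) • B ⊆ t • A + (1 - t) • B := by
    rintro _ ⟨x, hx, rfl⟩
    refine ⟨t • (0 : R3), smul_mem_smul_set hA0, (1 - t) • x, smul_mem_smul_set hx, ?_⟩
    simp
  by_cases hA : ms f A = 0
  · rw [hA, ENNReal.zero_rpow_of_pos third, mul_zero, zero_add]
    exact DBM.one_zero hf (1 - t) (by linarith) (by linarith) hsubB
  by_cases hB : ms f B = 0
  · rw [hB, ENNReal.zero_rpow_of_pos third, mul_zero, add_zero]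
    exact DBM.one_zero hf t h0 h1.le hsubA
  have step : ∀ q < ms f A, ∀ q' < ms f B,
      ENNReal.ofReal t * q ^ (1 / (3 : ℝ)) + ENNReal.ofReal (1 - t) * q' ^ (1 / (3 : ℝ)) ≤
        (ms f (t • A + (1 - t) • B)) ^ (1 / (3 : ℝ)) := by
    intro q hq q' hq'
    obtain ⟨A', hA', hAA, hqA⟩ := DBM.inner hf hAc hAs hA q hq
    obtain ⟨B', hB', hBB, hqB⟩ := DBM.inner hf hBc hBs hB q' hq'
    have h := DBM.bodies hLGV hSGR hM hf hne hA' hB' (1 - t) (by linarith) (by linarith)
    rw [sub_sub_cancel] at h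
    refine le_trans (add_le_add ?_ ?_) (h.trans ?_)
    · exact mul_le_mul_right (ENNReal.rpow_le_rpow hqA.le third.le) _
    · exact mul_le_mul_right (ENNReal.rpow_le_rpow hqB.le third.le) _
    · exact ENNReal.rpow_le_rpow (measure_mono (add_subset_add (smul_set_mono hAA)
        (smul_set_mono hBB))) third.le
  have cont : ∀ c : ℝ, Continuous (fun q : ℝ≥0∞ => ENNReal.ofReal c * q ^ (1 / (3 : ℝ))) := fun c =>
    (ENNReal.continuous_const_mul ENNReal.ofReal_ne_top).comp ENNReal.continuous_rpow_const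
  have step2 : ∀ q' < ms f B,
      ENNReal.ofReal t * (ms f A) ^ (1 / (3 : ℝ)) + ENNReal.ofReal (1 - t) * q' ^ (1 / (3 : ℝ)) ≤
        (ms f (t • A + (1 - t) • B)) ^ (1 / (3 : ℝ)) := by
    intro q' hq'
    exact DBM.lim_below (fun q => ENNReal.ofReal t * q ^ (1 / (3 : ℝ)) +
      ENNReal.ofReal (1 - t) * q' ^ (1 / (3 : ℝ))) ((cont t).add continuous_const) _ _ hA
      fun q hq => step q hq q' hq'
  exact DBM.lim_below (fun q' => ENNReal.ofReal t * (ms f A) ^ (1 / (3 : ℝ)) +
      ENNReal.ofReal (1 - t) * q' ^ (1 / (3 : ℝ))) (continuous_const.add (cont (1 - t))) _ _ hB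
      step2

end Pool.G1
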