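import Pool.Agent.Work.MP_b5407d_g1.InterfaceD

/-!
# G1, block `GBX` (helper11): coordinate boxes and measures of rank at most three
-/

set_option autoImplicit false

open MeasureTheory Set Filter Topology
open scoped ENNReal

namespace Pool.G1

open Pool.T3 (R3 dt K Pos)

namespace GBX

/-- standard basis vector -/
def ek (k : Fin 3) : R3 := fun j => if j = k then 1 else 0

lemma dt_ek (k : Fin 3) (x : R3) : dt (ek k) x = x k := by
  fin_cases k <;> simp [dt, ek]

/-- the enlarged family -/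
def yy {n : ℕ} (y : Fin n → R3) : Fin n ⊕ Fin 3 → R3 := Sum.elim y ek

/-- the enlarged levels -/
def aa {n : ℕ} (a : Fin n → ℝ) (N : ℕ) : Fin n ⊕ Fin 3 → ℝ := Sum.elim a (fun _ => (N : ℝ) + 1)

lemma mem_K' {n : ℕ} (y : Fin n → R3) (a : Fin n → ℝ) (N : ℕ) (x : R3) :
    x ∈ K (yy y) (aa a N) ↔ x ∈ K y a ∧ ∀ k, |x k| ≤ (N : ℝ) + 1 := by
  constructor
  · intro h
    refine ⟨fun i => h (Sum.inl i), fun k => ?_⟩
    have := h (Sum.inr k)
    change |dt (ek k) x| ≤ (N : ℝ) + 1 at this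
    rwa [dt_ek] at this
  · rintro ⟨h1, h2⟩ i
    cases i with
    | inl i => exact h1 i
    | inr k =>
      change |dt (ek k) x| ≤ (N : ℝ) + 1
      rw [dt_ek]; exact h2 k

lemma mono' {n : ℕ} (y : Fin n → R3) (a : Fin n → ℝ) :
    Monotone (fun N : ℕ => K (yy y) (aa a N)) := by
  intro N M hNM x hx
  rw [mem_K'] at hx ⊢
  refine ⟨hx.1, fun k => (hx.2 k).trans ?_⟩
  have : (N : ℝ) ≤ M := by exact_mod_cast hNM
  linarith

lemma iUnion' {n : ℕ} (y : Fin n → R3) (a : Fin n → ℝ) :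
    (⋃ N : ℕ, K (yy y) (aa a N)) = K y a := by
  ext x
  simp only [mem_iUnion, mem_K']
  constructor
  · rintro ⟨N, h, _⟩; exact h
  · intro h
    obtain ⟨N, hN⟩ := exists_nat_gt (|x 0| + |x 1| + |x 2|)
    refine ⟨N, h, fun k => ?_⟩
    have h0 := abs_nonneg (x 0)
    have h1 := abs_nonneg (x 1)
    have h2 := abs_nonneg (x 2)
    fin_cases k
    · show |x 0| ≤ _
      linarith
    · show |x 1| ≤ _
      linarith
    · show |x 2| ≤ _
      linarith

lemma tend (f : R3 → ℝ) {n : ℕ} (y : Fin n → R3) (a : Fin n → ℝ) :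
    Tendsto (fun N : ℕ => ms f (K (yy y) (aa a N))) atTop (𝓝 (ms f (K y a))) := by
  have h := tendsto_measure_iUnion_atTop (μ := ms f) (mono' y a)
  rw [iUnion'] at h
  exact h

end GBX

open GBX in
theorem blk_GBX (hLGV : Stmt_LGV) : Stmt_GBX := by
  intro hM f hf n y c hc s t l hl0 hl1
  have hL := hLGV hM f hf (Fin n ⊕ Fin 3)
  set a : Fin n → ℝ := fun i => c i * Real.exp (s i) with ha
  set b : Fin n → ℝ := fun i => c i * Real.exp (t i) with hb
  set m : Fin n → ℝ := fun i => c i * Real.exp ((1 - l) * s i + l * t i) with hm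
  have hap : ∀ i, 0 < a i := fun i => mul_pos (hc i) (Real.exp_pos _)
  have hbp : ∀ i, 0 < b i := fun i => mul_pos (hc i) (Real.exp_pos _)
  have hmi : ∀ i, a i ^ (1 - l) * b i ^ l = m i := by
    intro i
    simp only [ha, hb, hm]
    rw [Real.mul_rpow (hc i).le (Real.exp_pos _).le, Real.mul_rpow (hc i).le (Real.exp_pos _).le,
      ← Real.exp_mul, ← Real.exp_mul]
    have e1 : c i ^ (1 - l) * c i ^ l = c i := by
      rw [← Real.rpow_add (hc i)]
      have : 1 - l + l = 1 := by ring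
      rw [this, Real.rpow_one]
    have e2 : Real.exp (s i * (1 - l)) * Real.exp (t i * l) =
        Real.exp ((1 - l) * s i + l * t i) := by
      rw [← Real.exp_add]; congr 1; ring
    calc c i ^ (1 - l) * Real.exp (s i * (1 - l)) * (c i ^ l * Real.exp (t i * l))
        = (c i ^ (1 - l) * c i ^ l) * (Real.exp (s i * (1 - l)) * Real.exp (t i * l)) := by ring
      _ = _ := by rw [e1, e2]
  have hbd : ∃ R : ℝ, ∀ x ∈ KK (yy y), ∀ k, |x k| ≤ R := by
    refine ⟨1, fun x hx k => ?_⟩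
    have h := hx (Sum.inr k)
    change |dt (ek k) x| ≤ 1 at h
    rwa [dt_ek] at h
  have hpos : ∀ (a : Fin n → ℝ), (∀ i, 0 < a i) → ∀ N : ℕ, Pos (aa a N) := by
    intro a ha N i
    cases i with
    | inl i => exact ha i
    | inr k =>
      change 0 < (N : ℝ) + 1
      positivity
  -- the cut inequality
  have hcut : ∀ N : ℕ, (ms f (K (yy y) (aa a N))) ^ (1 - l) * (ms f (K (yy y) (aa b N))) ^ l ≤
      ms f (K y m) := by
    intro N
    refine (hL (yy y) hbd (aa a N) (aa b N) (hpos a hap N) (hpos b hbp N) l hl0 hl1).trans ?_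
    refine measure_mono fun x hx i => ?_
    have h := hx (Sum.inl i)
    change |dt (y i) x| ≤ a i ^ (1 - l) * b i ^ l at h
    rwa [hmi] at h
  -- passage to the limit
  have h1l : 0 < 1 - l := by linarith
  by_cases hA : ms f (K y a) = 0
  · rw [hA, ENNReal.zero_rpow_of_pos h1l, zero_mul]; exact bot_le
  by_cases hB : ms f (K y b) = 0
  · rw [hB, ENNReal.zero_rpow_of_pos hl0, mul_zero]; exact bot_le
  have t1 : Tendsto (fun N : ℕ => (ms f (K (yy y) (aa a N))) ^ (1 - l)) atTop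
      (𝓝 ((ms f (K y a)) ^ (1 - l))) :=
    (ENNReal.continuous_rpow_const.tendsto _).comp (tend f y a)
  have t2 : Tendsto (fun N : ℕ => (ms f (K (yy y) (aa b N))) ^ l) atTop
      (𝓝 ((ms f (K y b)) ^ l)) :=
    (ENNReal.continuous_rpow_const.tendsto _).comp (tend f y b)
  have nA : (ms f (K y a)) ^ (1 - l) ≠ 0 := by
    intro h
    rcases ENNReal.rpow_eq_zero_iff.1 h with ⟨h, _⟩ | ⟨_, h⟩
    · exact hA h
    · linarith
  have nB : (ms f (K y b)) ^ l ≠ 0 := by
    intro h
    rcases ENNReal.rpow_eq_zero_iff.1 h with ⟨h, _⟩ | ⟨_, h⟩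
    · exact hB h
    · linarith
  have t3 := ENNReal.Tendsto.mul t1 (Or.inl nA) t2 (Or.inl nB)
  exact le_of_tendsto' t3 hcut

end Pool.G1
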