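import Pool.Agent.Work.MP_b5407d_g1.InterfaceD

/-!
# G1, block `INT` (helper67): the volume of a section as an integral of volumes of polytopes
-/

set_option autoImplicit false

open MeasureTheory Set Filter Topology
open scoped ENNReal Pointwise

namespace Pool.G1

namespace INT

open Pool.T3 (R3 dt cr de K V S H Fam Pos pt Lam Q J lin Calc)

/-- layer cake for the exponential -/
theorem exp_layer (g : ℝ) :
    ∫⁻ r in Ici g, ENNReal.ofReal (Real.exp (-r)) = ENNReal.ofReal (Real.exp (-g)) := by
  rw [setLIntegral_congr Ioi_ae_eq_Ici.symm,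
    ← ofReal_integral_eq_lintegral_ofReal (integrableOn_exp_neg_Ioi g)
    (ae_of_all _ fun x => (Real.exp_pos _).le), integral_exp_neg_Ioi]

/-- product of integrals -/
theorem lint_prod : ∀ (n : ℕ) (f : Fin n → ℝ → ℝ≥0∞), (∀ i, Measurable (f i)) →
    ∫⁻ τ : Fin n → ℝ, ∏ i, f i (τ i) = ∏ i, ∫⁻ x, f i x := by
  intro n
  induction n with
  | zero =>
    intro f _
    simp [volume_pi, Measure.pi_univ]
  | succ n ih =>
    intro f hf
    have hm := volume_preserving_piFinSuccAbove (fun _ : Fin (n + 1) => ℝ) 0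
    rw [← hm.symm.lintegral_comp_emb (MeasurableEquiv.measurableEmbedding _)]
    rw [Fin.prod_univ_succ, ← ih (fun i => f i.succ) (fun i => hf _)]
    have e1 : ∀ q : ℝ × (Fin n → ℝ),
        (∏ i, f i (((MeasurableEquiv.piFinSuccAbove (fun _ : Fin (n + 1) => ℝ) 0).symm q) i)) =
          f 0 q.1 * ∏ i : Fin n, f i.succ (q.2 i) := by
      intro q
      rw [Fin.prod_univ_succ]
      rfl
    simp_rw [e1]
    rw [Measure.volume_eq_prod]
    exact lintegral_prod_mul (f := f 0) (g := fun v : Fin n → ℝ => ∏ i : Fin n, f i.succ (v i))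
      (hf 0).aemeasurable
      (Finset.measurable_prod _ fun i _ => (hf _).comp (measurable_pi_apply i)).aemeasurable

/-- the function `Σ |e^{-t i} y i . z|^p` -/
noncomputable def G (p : ℝ) {n : ℕ} (y : Fin n → R3) (t : Fin n → ℝ) (z : R3) : ℝ :=
  ∑ i, |Real.exp (-t i) * dt (y i) z| ^ p

theorem G_nonneg (p : ℝ) {n : ℕ} (y : Fin n → R3) (t : Fin n → ℝ) (z : R3) : 0 ≤ G p y t z :=
  Finset.sum_nonneg fun _ _ => Real.rpow_nonneg (abs_nonneg _) _

theorem dt_meas (a : R3) : Measurable (fun z : R3 => dt a z) := by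
  unfold dt; fun_prop

theorem G_meas (p : ℝ) {n : ℕ} (y : Fin n → R3) (t : Fin n → ℝ) : Measurable (G p y t) := by
  unfold G
  refine Finset.measurable_sum _ fun i _ => ?_
  have h1 : Measurable fun z : R3 => |Real.exp (-t i) * dt (y i) z| :=
    ((dt_meas (y i)).const_mul _).abs
  exact h1.pow_const p

theorem G_smul {p : ℝ} {n : ℕ} (y : Fin n → R3) (t : Fin n → ℝ) {s : ℝ} (hs : 0 < s)
    (z : R3) : G p y t (s • z) = s ^ p * G p y t z := by
  unfold G
  rw [Finset.mul_sum]
  refine Finset.sum_congr rfl fun i _ => ?_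
  have h1 : Real.exp (-t i) * dt (y i) (s • z) = s * (Real.exp (-t i) * dt (y i) z) := by
    unfold dt
    simp only [Pi.smul_apply, smul_eq_mul]
    ring
  rw [h1, abs_mul, abs_of_pos hs, Real.mul_rpow hs.le (abs_nonneg _)]

theorem vol_le {p : ℝ} (hp : 0 < p) {n : ℕ} (y : Fin n → R3) (t : Fin n → ℝ) {r : ℝ} (hr : 0 < r) :
    volume {z | G p y t z ≤ r} = ENNReal.ofReal (r ^ (3 / p)) * volume {z | G p y t z ≤ 1} := by
  have hs : 0 < r ^ (1 / p) := Real.rpow_pos_of_pos hr _
  have hsp : (r ^ (1 / p)) ^ p = r := by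
    rw [← Real.rpow_mul hr.le, one_div, inv_mul_cancel₀ hp.ne', Real.rpow_one]
  have e1 : {z | G p y t z ≤ r} = (r ^ (1 / p)) • {z | G p y t z ≤ 1} := by
    ext z
    rw [mem_smul_set_iff_inv_smul_mem₀ hs.ne']
    simp only [mem_ofPred_eq]
    rw [G_smul y t (inv_pos.mpr hs), Real.inv_rpow hs.le, hsp, inv_mul_le_iff₀ hr, mul_one]
  rw [e1, Measure.addHaar_smul]
  congr 2
  rw [Module.finrank_fin_fun, abs_of_pos (pow_pos hs 3), ← Real.rpow_natCast, ← Real.rpow_mul hr.le]
  congr 1
  push_cast
  ring

theorem gam {p : ℝ} (hp : 0 < p) : ∫⁻ r in Ioi (0 : ℝ),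
    ENNReal.ofReal (Real.exp (-r) * r ^ (3 / p)) = ENNReal.ofReal (Real.Gamma (1 + 3 / p)) := by
  have h0 : 0 < 1 + 3 / p := by positivity
  have h1 := Real.GammaIntegral_convergent h0
  rw [Real.Gamma_eq_integral h0]
  have e : 1 + 3 / p - 1 = 3 / p := by ring
  rw [e] at h1 ⊢
  rw [← ofReal_integral_eq_lintegral_ofReal h1]
  refine (ae_restrict_iff' measurableSet_Ioi).mpr (ae_of_all _ fun x hx => ?_)
  exact mul_nonneg (Real.exp_pos _).le (Real.rpow_nonneg (le_of_lt hx) _)

/-- first half: `∫ exp(-G) = Γ(1 + 3/p) |{G ≤ 1}|` -/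
theorem half1 {p : ℝ} (hp : 0 < p) {n : ℕ} (y : Fin n → R3) (t : Fin n → ℝ) :
    ∫⁻ z, ENNReal.ofReal (Real.exp (-G p y t z)) =
      ENNReal.ofReal (Real.Gamma (1 + 3 / p)) * volume {z | G p y t z ≤ 1} := by
  have hGm := G_meas p y t
  have hset : MeasurableSet {q : R3 × ℝ | G p y t q.1 ≤ q.2} :=
    measurableSet_le (hGm.comp measurable_fst) measurable_snd
  calc ∫⁻ z, ENNReal.ofReal (Real.exp (-G p y t z))
      = ∫⁻ z, ∫⁻ r, {q : R3 × ℝ | G p y t q.1 ≤ q.2}.indicator
          (fun q => ENNReal.ofReal (Real.exp (-q.2))) (z, r) := by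
        refine lintegral_congr fun z => ?_
        rw [← exp_layer, ← lintegral_indicator measurableSet_Ici]
        rfl
    _ = ∫⁻ r, ∫⁻ z, {q : R3 × ℝ | G p y t q.1 ≤ q.2}.indicator
          (fun q => ENNReal.ofReal (Real.exp (-q.2))) (z, r) := by
        refine lintegral_lintegral_swap (Measurable.aemeasurable ?_)
        refine Measurable.indicator ?_ hset
        fun_prop
    _ = ∫⁻ r, ENNReal.ofReal (Real.exp (-r)) * volume {z | G p y t z ≤ r} := by
        refine lintegral_congr fun r => ?_
        have hs : MeasurableSet {z | G p y t z ≤ r} := measurableSet_le hGm measurable_const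
        rw [← lintegral_indicator_one hs, ← lintegral_const_mul _ (measurable_one.indicator hs)]
        refine lintegral_congr fun z => ?_
        by_cases h : G p y t z ≤ r
        · rw [indicator_of_mem (by exact h), indicator_of_mem (by exact h)]; simp
        · rw [indicator_of_notMem (by exact h), indicator_of_notMem (by exact h)]; simp
    _ = ∫⁻ r in Ioi (0 : ℝ), ENNReal.ofReal (Real.exp (-r)) * volume {z | G p y t z ≤ r} := by
        rw [setLIntegral_congr Ioi_ae_eq_Ici, ← lintegral_indicator measurableSet_Ici]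
        refine lintegral_congr fun r => ?_
        by_cases h : r ∈ Ici (0 : ℝ)
        · rw [indicator_of_mem h]
        · rw [indicator_of_notMem h]
          have : {z | G p y t z ≤ r} = ∅ := by
            refine eq_empty_of_forall_notMem fun z hz => h ?_
            exact le_trans (G_nonneg p y t z) hz
          rw [this]; simp
    _ = ∫⁻ r in Ioi (0 : ℝ), ENNReal.ofReal (Real.exp (-r) * r ^ (3 / p)) *
          volume {z | G p y t z ≤ 1} := by
        refine setLIntegral_congr_fun measurableSet_Ioi fun r hr => ?_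
        rw [vol_le hp y t hr, ← mul_assoc, ENNReal.ofReal_mul (Real.exp_pos _).le]
    _ = ENNReal.ofReal (Real.Gamma (1 + 3 / p)) * volume {z | G p y t z ≤ 1} := by
        rw [lintegral_mul_const _ (by fun_prop), gam hp]

theorem nu_meas (p : ℝ) : Measurable (nu p) := by
  unfold nu; fun_prop

/-- second half: the mixture -/
theorem half2 (hMIX : Stmt_MIX) {p : ℝ} (hp : 0 < p) {n : ℕ} (y : Fin n → R3) (t : Fin n → ℝ) :
    ∫⁻ τ : Fin n → ℝ, volume (K y (fun i => Real.exp (τ i + t i))) *
        ∏ i, ENNReal.ofReal (nu p (τ i)) =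
      ∫⁻ z, ENNReal.ofReal (Real.exp (-G p y t z)) := by
  have hK : MeasurableSet {q : (Fin n → ℝ) × R3 | ∀ i, |dt (y i) q.2| ≤ Real.exp (q.1 i + t i)} := by
    have : {q : (Fin n → ℝ) × R3 | ∀ i, |dt (y i) q.2| ≤ Real.exp (q.1 i + t i)} =
        ⋂ i, {q : (Fin n → ℝ) × R3 | |dt (y i) q.2| ≤ Real.exp (q.1 i + t i)} := by
      ext q; simp only [mem_iInter, mem_ofPred_eq]
    rw [this]
    refine MeasurableSet.iInter fun i => ?_
    refine measurableSet_le ((dt_meas (y i)).comp measurable_snd).abs ?_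
    fun_prop
  have hνm : Measurable fun τ : Fin n → ℝ => ∏ i, ENNReal.ofReal (nu p (τ i)) :=
    Finset.measurable_prod _ fun i _ =>
      ENNReal.measurable_ofReal.comp ((nu_meas p).comp (measurable_pi_apply i))
  calc ∫⁻ τ : Fin n → ℝ, volume (K y (fun i => Real.exp (τ i + t i))) *
        ∏ i, ENNReal.ofReal (nu p (τ i))
      = ∫⁻ τ : Fin n → ℝ, ∫⁻ z, {q : (Fin n → ℝ) × R3 | ∀ i, |dt (y i) q.2| ≤
          Real.exp (q.1 i + t i)}.indicator (fun q => ∏ i, ENNReal.ofReal (nu p (q.1 i))) (τ, z) := by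
        refine lintegral_congr fun τ => ?_
        have hs : MeasurableSet (K y (fun i => Real.exp (τ i + t i))) :=
          measurable_prodMk_left hK
        rw [← lintegral_indicator_one hs, ← lintegral_mul_const _ (measurable_one.indicator hs)]
        refine lintegral_congr fun z => ?_
        by_cases h : z ∈ K y (fun i => Real.exp (τ i + t i))
        · rw [indicator_of_mem h, indicator_of_mem (by exact h)]; simp
        · rw [indicator_of_notMem h, indicator_of_notMem (by exact h)]; simp
    _ = ∫⁻ z, ∫⁻ τ : Fin n → ℝ, {q : (Fin n → ℝ) × R3 | ∀ i, |dt (y i) q.2| ≤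
          Real.exp (q.1 i + t i)}.indicator (fun q => ∏ i, ENNReal.ofReal (nu p (q.1 i))) (τ, z) := by
        refine lintegral_lintegral_swap (Measurable.aemeasurable ?_)
        exact Measurable.indicator (hνm.comp measurable_fst) hK
    _ = ∫⁻ z, ENNReal.ofReal (Real.exp (-G p y t z)) := by
        refine lintegral_congr fun z => ?_
        have e1 : ∀ τ : Fin n → ℝ, {q : (Fin n → ℝ) × R3 | ∀ i, |dt (y i) q.2| ≤
            Real.exp (q.1 i + t i)}.indicator (fun q => ∏ i, ENNReal.ofReal (nu p (q.1 i))) (τ, z) =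
            ∏ i, (ENNReal.ofReal (nu p (τ i)) *
              {x : ℝ | |dt (y i) z| ≤ Real.exp (x + t i)}.indicator 1 (τ i)) := by
          intro τ
          rw [Finset.prod_mul_distrib]
          by_cases h : ∀ i, |dt (y i) z| ≤ Real.exp (τ i + t i)
          · rw [indicator_of_mem (by exact h)]
            have : ∏ i, {x : ℝ | |dt (y i) z| ≤ Real.exp (x + t i)}.indicator
                (1 : ℝ → ℝ≥0∞) (τ i) = 1 := by
              refine Finset.prod_eq_one fun i _ => ?_
              rw [indicator_of_mem (by exact h i)]; rfl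
            rw [this, mul_one]
          · rw [indicator_of_notMem (by exact h)]
            push Not at h
            obtain ⟨i, hi⟩ := h
            have : ∏ i, {x : ℝ | |dt (y i) z| ≤ Real.exp (x + t i)}.indicator
                (1 : ℝ → ℝ≥0∞) (τ i) = 0 := by
              refine Finset.prod_eq_zero (Finset.mem_univ i) ?_
              rw [indicator_of_notMem]
              exact not_le.mpr hi
            rw [this, mul_zero]
        simp_rw [e1]
        rw [lint_prod n (fun i x => ENNReal.ofReal (nu p x) *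
              {x : ℝ | |dt (y i) z| ≤ Real.exp (x + t i)}.indicator 1 x)]
        · have e2 : ∀ i, ∫⁻ x, ENNReal.ofReal (nu p x) *
              {x : ℝ | |dt (y i) z| ≤ Real.exp (x + t i)}.indicator 1 x =
              ENNReal.ofReal (Real.exp (-(Real.exp (-t i) * |dt (y i) z|) ^ p)) :=
            fun i => (hMIX p hp).1 (t i) (dt (y i) z)
          simp_rw [e2]
          rw [← ENNReal.ofReal_prod_of_nonneg (fun i _ => (Real.exp_pos _).le), ← Real.exp_sum]
          congr 2
          unfold G
          rw [← Finset.sum_neg_distrib]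
          refine Finset.sum_congr rfl fun i _ => ?_
          rw [abs_mul, abs_of_pos (Real.exp_pos _)]
        · intro i
          refine Measurable.mul ?_ ?_
          · exact ENNReal.measurable_ofReal.comp (nu_meas p)
          · refine measurable_one.indicator ?_
            exact measurableSet_le measurable_const (by fun_prop)

end INT

open Pool.T3 (R3 dt cr de K V S H Fam Pos pt Lam Q J lin Calc) in
/-- Block `INT`. -/
theorem blk_INT (hMIX : Stmt_MIX) : Stmt_INT := by
  intro p hp n y _ t
  rw [INT.half2 hMIX hp y t, INT.half1 hp y t]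
  rfl

end Pool.G1
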