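import Pool.Agent.Work.MP_b5407d_g1.InterfaceD

/-!
# LG3: the log-Brunn-Minkowski inequality in the coordinates of `R3`
-/

set_option autoImplicit false

open MeasureTheory Set Filter Topology
open scoped ENNReal Pointwise

namespace Pool.G1

open Pool.T3 (R3 dt)

namespace LG3

/-- the Euclidean space -/
abbrev E3 : Type := EuclideanSpace ℝ (Fin 3)

/-- coordinates -/
noncomputable def e3 : E3 ≃L[ℝ] R3 := EuclideanSpace.equiv (Fin 3) ℝ

theorem inner_eq (x u : E3) : inner ℝ x u = dt (e3 u) (e3 x) := by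
  rw [PiLp.inner_apply, Fin.sum_univ_three]
  rfl

theorem vol_eq (A : Set R3) : volume ((e3 : E3 → R3) ⁻¹' A) = volume A := by
  have h1 : MeasurePreserving (e3 : E3 → R3) := PiLp.volume_preserving_ofLp (Fin 3)
  exact h1.measure_preimage_emb e3.toHomeomorph.measurableEmbedding A

theorem ssup_eq (A : Set R3) (u : E3) :
    sSup ((fun y : E3 => inner ℝ y u) '' ((e3 : E3 → R3) ⁻¹' A)) = hsup A (e3 u) := by
  unfold hsup
  congr 1
  ext r
  constructor
  · rintro ⟨y, hy, rfl⟩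
    exact ⟨e3 y, hy, (inner_eq y u).symm⟩
  · rintro ⟨y, hy, rfl⟩
    refine ⟨e3.symm y, ?_, ?_⟩
    · show e3 (e3.symm y) ∈ A
      rw [e3.apply_symm_apply]
      exact hy
    · simp only
      rw [inner_eq, e3.apply_symm_apply]

theorem dt_smul_left (c : ℝ) (u x : R3) : dt (c • u) x = c * dt u x := by
  simp only [dt, Pi.smul_apply, smul_eq_mul]
  ring

theorem hsup_smul (A : Set R3) (u : R3) {c : ℝ} (hc : 0 ≤ c) : hsup A (c • u) = c * hsup A u := by
  unfold hsup
  have h1 : (fun y => dt (c • u) y) '' A = c • ((fun y => dt u y) '' A) := by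
    ext r
    simp only [mem_image, mem_smul_set]
    constructor
    · rintro ⟨y, hy, rfl⟩
      exact ⟨dt u y, ⟨y, hy, rfl⟩, by rw [dt_smul_left, smul_eq_mul]⟩
    · rintro ⟨_, ⟨y, hy, rfl⟩, rfl⟩
      exact ⟨y, hy, by rw [dt_smul_left, smul_eq_mul]⟩
  rw [h1, Real.sSup_smul_of_nonneg hc, smul_eq_mul]

theorem hsup_nonneg {A : Set R3} (hA : SB A) (u : R3) : 0 ≤ hsup A u := by
  obtain ⟨x, hx⟩ := hA.int
  have hxA := interior_subset hx
  have hcont : Continuous fun y : R3 => dt u y := by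
    unfold dt
    fun_prop
  have hb : BddAbove ((fun y => dt u y) '' A) := (hA.cpt.image hcont).bddAbove
  have h1 : dt u x ≤ hsup A u := le_csSup hb ⟨x, hxA, rfl⟩
  have h2 : dt u (-x) ≤ hsup A u := le_csSup hb ⟨-x, hA.sym x hxA, rfl⟩
  have h3 : dt u (-x) = -dt u x := by
    simp only [dt, Pi.neg_apply]
    ring
  rw [h3] at h2
  linarith

theorem set_eq {A B : Set R3} (hA : SB A) (hB : SB B) {t : ℝ} :
    {x : E3 | ∀ u ∈ Metric.sphere (0 : E3) 1,
      inner ℝ x u ≤ (sSup ((fun y : E3 => inner ℝ y u) '' ((e3 : E3 → R3) ⁻¹' A))) ^ (1 - t)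
        * (sSup ((fun y : E3 => inner ℝ y u) '' ((e3 : E3 → R3) ⁻¹' B))) ^ t} =
      (e3 : E3 → R3) ⁻¹' LS t A B := by
  ext x
  simp only [mem_ofPred_eq, mem_preimage, LS]
  constructor
  · intro h u
    by_cases hu : u = 0
    · rw [hu]
      have h0 : dt (0 : R3) (e3 x) = 0 := by simp [dt]
      rw [h0]
      exact mul_nonneg (Real.rpow_nonneg (hsup_nonneg hA _) _) (Real.rpow_nonneg (hsup_nonneg hB _) _)
    · set v : E3 := e3.symm u with hv
      have hvn : v ≠ 0 := by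
        intro h0
        apply hu
        have := congrArg e3 h0
        rw [hv, e3.apply_symm_apply, map_zero] at this
        exact this
      have hn : 0 < ‖v‖ := norm_pos_iff.2 hvn
      have hs : (‖v‖⁻¹ • v) ∈ Metric.sphere (0 : E3) 1 := by
        rw [mem_sphere_zero_iff_norm, norm_smul, norm_inv, norm_norm, inv_mul_cancel₀ hn.ne']
      have h1 := h _ hs
      have hev : e3 (‖v‖⁻¹ • v) = ‖v‖⁻¹ • u := by
        rw [map_smul, hv, e3.apply_symm_apply]
      rw [ssup_eq, ssup_eq, inner_eq, hev, dt_smul_left, hsup_smul A u (by positivity),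
        hsup_smul B u (by positivity), Real.mul_rpow (by positivity) (hsup_nonneg hA _),
        Real.mul_rpow (by positivity) (hsup_nonneg hB _)] at h1
      have h2 : ‖v‖⁻¹ ^ (1 - t) * hsup A u ^ (1 - t) * (‖v‖⁻¹ ^ t * hsup B u ^ t) =
          ‖v‖⁻¹ * (hsup A u ^ (1 - t) * hsup B u ^ t) := by
        have h3 : ‖v‖⁻¹ ^ (1 - t) * ‖v‖⁻¹ ^ t = ‖v‖⁻¹ := by
          rw [← Real.rpow_add (by positivity)]
          simp
        calc _ = (‖v‖⁻¹ ^ (1 - t) * ‖v‖⁻¹ ^ t) * (hsup A u ^ (1 - t) * hsup B u ^ t) := by ring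
          _ = _ := by rw [h3]
      rw [h2] at h1
      exact le_of_mul_le_mul_left h1 (by positivity)
  · intro h u _
    rw [ssup_eq, ssup_eq, inner_eq]
    exact h _

theorem convex_pre {A : Set R3} (hA : Convex ℝ A) : Convex ℝ ((e3 : E3 → R3) ⁻¹' A) := by
  intro x hx y hy a b ha hb hab
  show e3 (a • x + b • y) ∈ A
  rw [map_add, map_smul, map_smul]
  exact hA hx hy ha hb hab

theorem compact_pre {A : Set R3} (hA : IsCompact A) : IsCompact ((e3 : E3 → R3) ⁻¹' A) :=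
  e3.toHomeomorph.isClosedEmbedding.isCompact_preimage hA

theorem int_pre {A : Set R3} (hA : (interior A).Nonempty) :
    (interior ((e3 : E3 → R3) ⁻¹' A)).Nonempty := by
  obtain ⟨x, hx⟩ := hA
  refine ⟨e3.symm x, ?_⟩
  have h1 : (e3 : E3 → R3) ⁻¹' interior A ⊆ interior ((e3 : E3 → R3) ⁻¹' A) :=
    preimage_interior_subset_interior_preimage e3.continuous
  apply h1
  show e3 (e3.symm x) ∈ interior A
  rw [e3.apply_symm_apply]
  exact hx

theorem sym_pre {A : Set R3} (hA : ∀ x ∈ A, -x ∈ A) :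
    ∀ x ∈ (e3 : E3 → R3) ⁻¹' A, -x ∈ (e3 : E3 → R3) ⁻¹' A := by
  intro x hx
  show e3 (-x) ∈ A
  rw [map_neg]
  exact hA _ hx

end LG3

open LG3 in
theorem blk_LG3 : Stmt_LG3 := by
  intro hL A B hA hB t ht
  have h := hL ((e3 : E3 → R3) ⁻¹' A) ((e3 : E3 → R3) ⁻¹' B) (convex_pre hA.cvx)
    (compact_pre hA.cpt) (int_pre hA.int) (sym_pre hA.sym) (convex_pre hB.cvx)
    (compact_pre hB.cpt) (int_pre hB.int) (sym_pre hB.sym) t ht
  rw [set_eq hA hB, vol_eq, vol_eq, vol_eq] at h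
  exact h

end Pool.G1
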