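import Pool.Agent.Work.MP_b5407d_g1.InterfaceD
import Pool.Agent.Work.MP_b5407d_g1.BAS
import Pool.Agent.Work.MP_3892ce_static.PL1

/-!
# G1, block `MEA` (helper55): log-Brunn-Minkowski inequality for even log-concave measures
-/

set_option autoImplicit false

open MeasureTheory Set Filter Topology
open scoped ENNReal Pointwise

namespace Pool.G1

namespace MEA

open Pool.T3 (R3 dt cr de K V S H Fam Pos pt Lam Q J lin Calc)

theorem cdt (u : R3) : Continuous (fun x : R3 => dt u x) :=
  CTV.cont_dt continuous_const continuous_id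

theorem dt_zero (u : R3) : dt u 0 = 0 := by simp [dt]

theorem dt_comb (u x z : R3) (s t : ℝ) : dt u (s • x + t • z) = s * dt u x + t * dt u z := by
  simp only [dt, Pi.add_apply, Pi.smul_apply, smul_eq_mul]; ring

/-- a continuous linear functional is `dt v` -/
theorem func_dt (φ : R3 →L[ℝ] ℝ) : ∃ v : R3, ∀ z, φ z = dt v z := by
  refine ⟨fun i => φ (Pi.single i 1), fun z => ?_⟩
  have hz : z = z 0 • (Pi.single 0 1 : R3) + z 1 • (Pi.single 1 1 : R3) +
      z 2 • (Pi.single 2 1 : R3) := by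
    ext i; fin_cases i <;> simp
  conv_lhs => rw [hz]
  simp only [map_add, map_smul, smul_eq_mul, dt]
  ring

theorem zero_mem {A : Set R3} (hA : SB A) : (0 : R3) ∈ A := by
  obtain ⟨x, hx⟩ := hA.int
  have hx' := interior_subset hx
  have h := hA.cvx hx' (hA.sym x hx') (by norm_num : (0 : ℝ) ≤ 1 / 2) (by norm_num : (0 : ℝ) ≤ 1 / 2)
    (by norm_num)
  have e : (1 / 2 : ℝ) • x + (1 / 2 : ℝ) • (-x) = 0 := by
    rw [smul_neg, add_neg_cancel]
  rwa [e] at h

theorem bdd {A : Set R3} (hA : SB A) (u : R3) : BddAbove ((fun y => dt u y) '' A) :=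
  (hA.cpt.image (cdt u)).bddAbove

theorem hsup_nonneg {A : Set R3} (hA : SB A) (u : R3) : 0 ≤ hsup A u := by
  have : dt u 0 ≤ hsup A u := le_csSup (bdd hA u) ⟨0, zero_mem hA, rfl⟩
  rwa [dt_zero] at this

theorem hsup_mono {A B : Set R3} (hA : SB A) (hB : SB B) (h : A ⊆ B) (u : R3) :
    hsup A u ≤ hsup B u :=
  csSup_le_csSup (bdd hB u) ⟨_, 0, zero_mem hA, rfl⟩ (image_mono h)

theorem hsup_att {A : Set R3} (hA : SB A) (u : R3) : ∃ a ∈ A, hsup A u = dt u a :=
  hA.cpt.exists_sSup_image_eq ⟨0, zero_mem hA⟩ (cdt u).continuousOn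

theorem LS_mono {A B A' B' : Set R3} (hA : SB A) (hB : SB B) (hA' : SB A') (hB' : SB B')
    (h1 : A' ⊆ A) (h2 : B' ⊆ B) {t : ℝ} (h0 : 0 < t) (ht : t < 1) :
    LS t A' B' ⊆ LS t A B := by
  intro x hx u
  refine (hx u).trans ?_
  apply mul_le_mul
  · exact Real.rpow_le_rpow (hsup_nonneg hA' u) (hsup_mono hA' hA h1 u) (by linarith)
  · exact Real.rpow_le_rpow (hsup_nonneg hB' u) (hsup_mono hB' hB h2 u) h0.le
  · exact Real.rpow_nonneg (hsup_nonneg hB' u) _
  · exact Real.rpow_nonneg (hsup_nonneg hA u) _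

theorem LS_sub_comb {A B : Set R3} (hA : SB A) (hB : SB B) {t : ℝ} (h0 : 0 < t) (ht : t < 1) :
    LS t A B ⊆ (1 - t) • A + t • B := by
  intro x hx
  by_contra hcon
  have hc : IsCompact ((1 - t) • A + t • B) := (hA.cpt.smul (1 - t)).add (hB.cpt.smul t)
  have hconv : Convex ℝ ((1 - t) • A + t • B) := (hA.cvx.smul (1 - t)).add (hB.cvx.smul t)
  obtain ⟨φ, w, h1, h2⟩ := geometric_hahn_banach_closed_point hconv hc.isClosed hcon
  obtain ⟨v, hv⟩ := func_dt φ
  obtain ⟨a, ha, ea⟩ := hsup_att hA v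
  obtain ⟨b, hb, eb⟩ := hsup_att hB v
  have h3 := h1 ((1 - t) • a + t • b) (add_mem_add (smul_mem_smul_set ha) (smul_mem_smul_set hb))
  rw [hv, dt_comb, ← ea, ← eb] at h3
  rw [hv] at h2
  have h4 := hx v
  have h5 := Real.geom_mean_le_arith_mean2_weighted (by linarith : (0 : ℝ) ≤ 1 - t) h0.le
    (hsup_nonneg hA v) (hsup_nonneg hB v) (by ring)
  linarith

theorem LS_closed (t : ℝ) (A B : Set R3) : IsClosed (LS t A B) := by
  have : LS t A B = ⋂ u : R3, {x : R3 | dt u x ≤ (hsup A u) ^ (1 - t) * (hsup B u) ^ t} := by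
    ext x; simp only [mem_iInter, mem_ofPred_eq]; exact Iff.rfl
  rw [this]
  exact isClosed_iInter fun u => isClosed_le (cdt u) continuous_const

/-- level sets and log-concavity -/
theorem lvl {f : R3 → ℝ} (hf : ELC f) {r s : ℝ} (hr : 0 < r) (hs : 0 < s) {x y : R3}
    (hx : r < f x) (hy : s < f y) {t : ℝ} (h0 : 0 ≤ t) (h1 : t ≤ 1) :
    r ^ (1 - t) * s ^ t < f ((1 - t) • x + t • y) := by
  refine lt_of_lt_of_le ?_ (hf.lc x y t h0 h1)
  rcases h0.eq_or_lt with rfl | h0
  · simpa using hx
  · apply mul_lt_mul'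
    · exact Real.rpow_le_rpow hr.le hx.le (by linarith)
    · exact Real.rpow_lt_rpow hs.le hy h0
    · exact Real.rpow_nonneg hs.le _
    · exact Real.rpow_pos_of_pos (hr.trans hx) _

theorem lvl_convex {f : R3 → ℝ} (hf : ELC f) {r : ℝ} (hr : 0 < r) :
    Convex ℝ {x : R3 | r < f x} := by
  intro x hx y hy a b ha hb hab
  have h := lvl hf hr hr hx hy hb (by linarith)
  have ea : 1 - b = a := by linarith
  rw [ea] at h
  rw [← Real.rpow_add hr, hab, Real.rpow_one] at h
  exact h

theorem body {f : R3 → ℝ} (hf : ELC f) {r : ℝ} (hr : 0 < r) {A : Set R3} (hA : SB A)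
    (h : volume (A ∩ {x | r < f x}) ≠ 0) :
    SB (closure (A ∩ {x | r < f x})) ∧
      volume (closure (A ∩ {x | r < f x})) = volume (A ∩ {x | r < f x}) ∧
      closure (A ∩ {x | r < f x}) ⊆ A := by
  set U := A ∩ {x | r < f x} with hU
  have hc : Convex ℝ U := hA.cvx.inter (lvl_convex hf hr)
  have hfr : volume (frontier U) = 0 := hc.addHaar_frontier volume
  have hsub : closure U ⊆ A := closure_minimal inter_subset_left hA.cpt.isClosed
  have hint : (interior U).Nonempty := by
    by_contra hne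
    rw [not_nonempty_iff_eq_empty] at hne
    apply h
    have : U ⊆ frontier U := by
      rw [frontier, hne, diff_empty]; exact subset_closure
    exact measure_mono_null this hfr
  refine ⟨⟨hc.closure, hA.cpt.of_isClosed_subset isClosed_closure hsub,
    hint.mono (interior_mono subset_closure), ?_⟩, ?_, hsub⟩
  · intro x hx
    have hneg : U ⊆ (fun z : R3 => -z) ⁻¹' U := by
      intro z hz
      refine ⟨hA.sym z hz.1, ?_⟩
      have := hz.2
      change r < f (-z)
      rw [hf.even]; exact this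
    have h1 : closure U ⊆ (fun z : R3 => -z) ⁻¹' closure U := by
      apply closure_minimal
      · exact hneg.trans (preimage_mono subset_closure)
      · exact isClosed_closure.preimage continuous_neg
    exact h1 hx
  · apply le_antisymm
    · calc volume (closure U) ≤ volume (U ∪ frontier U) := by
            apply measure_mono
            intro z hz
            by_cases h' : z ∈ interior U
            · exact Or.inl (interior_subset h')
            · exact Or.inr ⟨hz, h'⟩
        _ ≤ volume U + volume (frontier U) := measure_union_le _ _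
        _ = volume U := by rw [hfr, add_zero]
    · exact measure_mono subset_closure

/-- the key inequality between volumes of level sets -/
theorem key (hG : LG3c) {f : R3 → ℝ} (hf : ELC f) {A B : Set R3} (hA : SB A) (hB : SB B) {t : ℝ}
    (h0 : 0 < t) (h1 : t < 1) {r s : ℝ} (hr : 0 < r) (hs : 0 < s) :
    (volume (A ∩ {x | r < f x})) ^ (1 - t) * (volume (B ∩ {x | s < f x})) ^ t ≤
      volume (LS t A B ∩ {x | r ^ (1 - t) * s ^ t < f x}) := by
  have hfinA : volume (A ∩ {x | r < f x}) ≠ ⊤ :=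
    ((measure_mono inter_subset_left).trans_lt hA.cpt.measure_lt_top).ne
  have hfinB : volume (B ∩ {x | s < f x}) ≠ ⊤ :=
    ((measure_mono inter_subset_left).trans_lt hB.cpt.measure_lt_top).ne
  by_cases hzA : volume (A ∩ {x | r < f x}) = 0
  · rw [hzA, ENNReal.zero_rpow_of_pos (by linarith), zero_mul]; exact zero_le
  by_cases hzB : volume (B ∩ {x | s < f x}) = 0
  · rw [hzB, ENNReal.zero_rpow_of_pos h0, mul_zero]; exact zero_le
  obtain ⟨sA, vA, iA⟩ := body hf hr hA hzA
  obtain ⟨sB, vB, iB⟩ := body hf hs hB hzB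
  set U := A ∩ {x | r < f x} with hU
  set W := B ∩ {x | s < f x} with hW
  have hρ : 0 < r ^ (1 - t) * s ^ t := mul_pos (Real.rpow_pos_of_pos hr _) (Real.rpow_pos_of_pos hs _)
  set ρ := r ^ (1 - t) * s ^ t with hρdef
  have hcomb : LS t (closure U) (closure W) ⊆ (1 - t) • closure U + t • closure W :=
    LS_sub_comb sA sB h0 h1
  have hZ : (1 - t) • closure U + t • closure W ⊆ closure {x | ρ < f x} := by
    rintro _ ⟨_, ⟨a, ha, rfl⟩, _, ⟨b, hb, rfl⟩, rfl⟩
    have hcont : Continuous (fun p : R3 × R3 => (1 - t) • p.1 + t • p.2) := by fun_prop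
    have hab : (a, b) ∈ closure (U ×ˢ W) := by
      rw [closure_prod_eq]; exact ⟨ha, hb⟩
    have hmap : MapsTo (fun p : R3 × R3 => (1 - t) • p.1 + t • p.2) (U ×ˢ W) {x | ρ < f x} := by
      rintro ⟨p, q⟩ ⟨hp, hq⟩
      exact lvl hf hr hs hp.2 hq.2 h0.le h1.le
    have hfin := map_mem_closure (f := fun p : R3 × R3 => (1 - t) • p.1 + t • p.2) hcont hab hmap
    exact hfin
  have hLS : LS t (closure U) (closure W) ⊆ LS t A B := LS_mono hA hB sA sB iA iB h0 h1
  have hfr : volume (frontier {x | ρ < f x}) = 0 := (lvl_convex hf hρ).addHaar_frontier volume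
  have hfin : volume (LS t (closure U) (closure W)) ≠ ⊤ := by
    refine ((measure_mono hcomb).trans_lt ?_).ne
    exact ((sA.cpt.smul (1 - t)).add (sB.cpt.smul t)).measure_lt_top
  have h2 := hG (closure U) (closure W) sA sB t ⟨h0.le, h1.le⟩
  rw [vA, vB] at h2
  have h3 : (volume U) ^ (1 - t) * (volume W) ^ t ≤ volume (LS t (closure U) (closure W)) := by
    rw [← ENNReal.ofReal_toReal hfin, ← ENNReal.ofReal_toReal hfinA, ← ENNReal.ofReal_toReal hfinB,
      ENNReal.ofReal_rpow_of_nonneg ENNReal.toReal_nonneg (by linarith),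
      ENNReal.ofReal_rpow_of_nonneg ENNReal.toReal_nonneg h0.le,
      ← ENNReal.ofReal_mul (Real.rpow_nonneg ENNReal.toReal_nonneg _)]
    exact ENNReal.ofReal_le_ofReal h2
  refine h3.trans ?_
  calc volume (LS t (closure U) (closure W))
      ≤ volume ((LS t A B ∩ {x | ρ < f x}) ∪ frontier {x | ρ < f x}) := by
        apply measure_mono
        intro z hz
        have hz1 := hZ (hcomb hz)
        by_cases h' : z ∈ interior {x | ρ < f x}
        · exact Or.inl ⟨hLS hz, interior_subset h'⟩
        · exact Or.inr ⟨hz1, h'⟩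
    _ ≤ volume (LS t A B ∩ {x | ρ < f x}) + volume (frontier {x | ρ < f x}) :=
        measure_union_le _ _
    _ = volume (LS t A B ∩ {x | ρ < f x}) := by rw [hfr, add_zero]

/-- layer cake with logarithmic levels -/
theorem layer {f : R3 → ℝ} (hf : ELC f) {A : Set R3} (hA : MeasurableSet A) :
    ms f A = ∫⁻ x : ℝ, ENNReal.ofReal (Real.exp x) * volume (A ∩ {z | Real.exp x < f z}) := by
  have e1 : ms f A = ∫⁻ z, ENNReal.ofReal (f z) ∂(volume.restrict A) := by
    rw [ms, withDensity_apply _ hA]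
  rw [e1, lintegral_eq_lintegral_meas_lt _ (Eventually.of_forall hf.nn) hf.meas.aemeasurable]
  have e2 : Ioi (0 : ℝ) = Real.exp '' univ := by
    rw [image_univ, Real.range_exp]
  rw [e2, lintegral_image_eq_lintegral_abs_deriv_mul MeasurableSet.univ
    (fun x _ => (Real.hasDerivAt_exp x).hasDerivWithinAt) Real.exp_injective.injOn,
    Measure.restrict_univ]
  apply lintegral_congr
  intro x
  rw [abs_of_pos (Real.exp_pos x), Measure.restrict_apply (measurableSet_lt measurable_const hf.meas),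
    inter_comm]

theorem layer_meas (f : R3 → ℝ) (A : Set R3) :
    Measurable (fun x : ℝ => ENNReal.ofReal (Real.exp x) * volume (A ∩ {z | Real.exp x < f z})) := by
  apply Measurable.mul
  · exact (Real.measurable_exp).ennreal_ofReal
  · apply Antitone.measurable
    intro x y hxy
    apply measure_mono
    intro z hz
    exact ⟨hz.1, lt_of_le_of_lt (Real.exp_le_exp.mpr hxy) hz.2⟩

end MEA

open MEA in
theorem blk_MEA : Stmt_MEA := by
  intro hG f hf A B hA hB t h0 h1
  rw [layer hf hA.cpt.measurableSet, layer hf hB.cpt.measurableSet,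
    layer hf (LS_closed t A B).measurableSet]
  apply Pool.Agent.Work.MP_3892ce_static.blk_PL1 t h0 h1 _ _ _ (layer_meas f A) (layer_meas f B)
    (layer_meas f (LS t A B))
  intro x y
  have hk := key hG hf hA hB h0 h1 (Real.exp_pos x) (Real.exp_pos y)
  have e : Real.exp x ^ (1 - t) * Real.exp y ^ t = Real.exp ((1 - t) * x + t * y) := by
    rw [← Real.exp_mul, ← Real.exp_mul, ← Real.exp_add]
    congr 1; ring
  rw [e] at hk
  have hE : ENNReal.ofReal (Real.exp x) ^ (1 - t) * ENNReal.ofReal (Real.exp y) ^ t =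
      ENNReal.ofReal (Real.exp ((1 - t) * x + t * y)) := by
    rw [ENNReal.ofReal_rpow_of_pos (Real.exp_pos x), ENNReal.ofReal_rpow_of_pos (Real.exp_pos y),
      ← ENNReal.ofReal_mul (Real.rpow_nonneg (Real.exp_pos x).le _), e]
  calc (ENNReal.ofReal (Real.exp x) * volume (A ∩ {z | Real.exp x < f z})) ^ (1 - t) *
        (ENNReal.ofReal (Real.exp y) * volume (B ∩ {z | Real.exp y < f z})) ^ t
      = (ENNReal.ofReal (Real.exp x) ^ (1 - t) * ENNReal.ofReal (Real.exp y) ^ t) *
        ((volume (A ∩ {z | Real.exp x < f z})) ^ (1 - t) *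
          (volume (B ∩ {z | Real.exp y < f z})) ^ t) := by
        rw [ENNReal.mul_rpow_of_nonneg _ _ (by linarith), ENNReal.mul_rpow_of_nonneg _ _ h0.le]
        ring
    _ ≤ ENNReal.ofReal (Real.exp ((1 - t) * x + t * y)) *
        volume (LS t A B ∩ {z | Real.exp ((1 - t) * x + t * y) < f z}) := by
        rw [hE]
        gcongr

end Pool.G1
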