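import Pool.Agent.Work.MP_b5407d_g1.InterfaceD

/-!
# Block MIX (InterfaceD): mixture of intervals, log-concavity of the weight `nu`
-/

set_option autoImplicit false

open MeasureTheory Set Filter Topology
open scoped ENNReal

namespace Pool.G1
namespace MIX

theorem nu_nonneg {p : ℝ} (hp : 0 < p) (τ : ℝ) : 0 ≤ nu p τ := by
  unfold nu; positivity

theorem hd {p : ℝ} (τ : ℝ) :
    HasDerivAt (fun τ => -Real.exp (-Real.exp (p * τ))) (nu p τ) τ := by
  have h1 : HasDerivAt (fun τ : ℝ => p * τ) p τ := by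
    simpa using (hasDerivAt_id τ).const_mul p
  have h3 : HasDerivAt (fun τ => -Real.exp (-Real.exp (p * τ)))
      (-(Real.exp (-Real.exp (p * τ)) * -(Real.exp (p * τ) * p))) τ := h1.exp.neg.exp.neg
  refine h3.congr_deriv ?_
  unfold nu; ring

theorem tt {p : ℝ} (hp : 0 < p) :
    Tendsto (fun τ => -Real.exp (-Real.exp (p * τ))) atTop (𝓝 0) := by
  have h1 : Tendsto (fun τ : ℝ => Real.exp (p * τ)) atTop atTop :=
    Real.tendsto_exp_atTop.comp (tendsto_id.const_mul_atTop hp)
  have h2 : Tendsto (fun τ : ℝ => Real.exp (-Real.exp (p * τ))) atTop (𝓝 0) :=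
    Real.tendsto_exp_neg_atTop_nhds_zero.comp h1
  simpa using h2.neg

theorem half {p : ℝ} (hp : 0 < p) (a : ℝ) :
    ∫⁻ τ in Ioi a, ENNReal.ofReal (nu p τ) = ENNReal.ofReal (Real.exp (-Real.exp (p * a))) := by
  rw [← ofReal_integral_eq_lintegral_ofReal]
  · rw [integral_Ioi_of_hasDerivAt_of_nonneg' (fun x _ => hd x) (fun x _ => nu_nonneg hp x) (tt hp)]
    congr 1; ring
  · exact integrableOn_Ioi_deriv_of_nonneg' (fun x _ => hd x) (fun x _ => nu_nonneg hp x) (tt hp)
  · exact ae_of_all _ (fun x => nu_nonneg hp x)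

theorem whole {p : ℝ} (hp : 0 < p) : ∫⁻ τ, ENNReal.ofReal (nu p τ) = 1 := by
  set μ : Measure ℝ := volume.withDensity (fun τ => ENNReal.ofReal (nu p τ)) with hμ
  have e1 : ∀ n : ℕ, μ (Ioi (-(n : ℝ))) = ENNReal.ofReal (Real.exp (-Real.exp (p * (-(n : ℝ))))) := by
    intro n
    rw [hμ, withDensity_apply _ measurableSet_Ioi, half hp]
  have e2 : (⋃ n : ℕ, Ioi (-(n : ℝ))) = univ := by
    refine eq_univ_of_forall fun x => ?_
    obtain ⟨n, hn⟩ := exists_nat_gt (-x)
    exact mem_iUnion.mpr ⟨n, by simp only [mem_Ioi]; linarith⟩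
  have hmono : Monotone (fun n : ℕ => Ioi (-(n : ℝ))) := by
    intro m n hmn x hx
    have : (m : ℝ) ≤ n := by exact_mod_cast hmn
    simp only [mem_Ioi] at hx ⊢
    linarith
  have t1 : Tendsto (fun n : ℕ => μ (Ioi (-(n : ℝ)))) atTop (𝓝 (μ univ)) := by
    rw [← e2]
    exact tendsto_measure_iUnion_atTop hmono
  have t2 : Tendsto (fun n : ℕ => μ (Ioi (-(n : ℝ)))) atTop (𝓝 1) := by
    simp_rw [e1]
    have h1 : Tendsto (fun n : ℕ => p * (-(n : ℝ))) atTop atBot := by
      have : Tendsto (fun n : ℕ => -(p * (n : ℝ))) atTop atBot :=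
        tendsto_neg_atTop_atBot.comp (tendsto_natCast_atTop_atTop.const_mul_atTop hp)
      refine this.congr fun n => by ring
    have h2 : Tendsto (fun n : ℕ => Real.exp (p * (-(n : ℝ)))) atTop (𝓝 0) :=
      Real.tendsto_exp_atBot.comp h1
    have h3 : Tendsto (fun n : ℕ => Real.exp (-Real.exp (p * (-(n : ℝ))))) atTop (𝓝 (Real.exp (-0))) :=
      (Real.continuous_exp.tendsto _).comp h2.neg
    have h4 := ENNReal.tendsto_ofReal h3
    simpa using h4
  have e3 : μ univ = 1 := tendsto_nhds_unique t1 t2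
  rw [hμ, withDensity_apply _ MeasurableSet.univ, Measure.restrict_univ] at e3
  exact e3

theorem part1 {p : ℝ} (hp : 0 < p) (t u : ℝ) :
    ∫⁻ τ, ENNReal.ofReal (nu p τ) * {τ : ℝ | |u| ≤ Real.exp (τ + t)}.indicator 1 τ =
      ENNReal.ofReal (Real.exp (-(Real.exp (-t) * |u|) ^ p)) := by
  rcases eq_or_ne u 0 with rfl | hu
  · have hS : {τ : ℝ | |(0 : ℝ)| ≤ Real.exp (τ + t)} = univ := by
      refine eq_univ_of_forall fun τ => ?_
      simp only [abs_zero, mem_ofPred_eq]
      positivity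
    rw [hS]
    simp only [indicator_univ, Pi.one_apply, mul_one, abs_zero, mul_zero]
    rw [whole hp, Real.zero_rpow hp.ne']
    simp
  · have hu' : 0 < |u| := abs_pos.mpr hu
    have hS : {τ : ℝ | |u| ≤ Real.exp (τ + t)} = Ici (Real.log |u| - t) := by
      ext τ
      simp only [mem_ofPred_eq, mem_Ici]
      rw [← Real.log_le_iff_le_exp hu']
      constructor <;> intro h <;> linarith
    rw [hS]
    have e1 : ∀ τ : ℝ, ENNReal.ofReal (nu p τ) * (Ici (Real.log |u| - t)).indicator 1 τ =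
        (Ici (Real.log |u| - t)).indicator (fun τ => ENNReal.ofReal (nu p τ)) τ := by
      intro τ
      by_cases h : τ ∈ Ici (Real.log |u| - t)
      · rw [indicator_of_mem h, indicator_of_mem h]; simp
      · rw [indicator_of_notMem h, indicator_of_notMem h]; simp
    simp_rw [e1]
    rw [lintegral_indicator measurableSet_Ici, ← setLIntegral_congr Ioi_ae_eq_Ici, half hp]
    congr 3
    rw [Real.rpow_def_of_pos (by positivity), Real.log_mul (Real.exp_pos _).ne' hu'.ne',
      Real.log_exp]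
    congr 1
    ring

theorem nu_eq {p : ℝ} (hp : 0 < p) (x : ℝ) :
    nu p x = Real.exp (Real.log p + p * x - Real.exp (p * x)) := by
  rw [sub_eq_add_neg, Real.exp_add, Real.exp_add, Real.exp_log hp]
  rfl

theorem part2 {p : ℝ} (hp : 0 < p) (x y t : ℝ) (h0 : 0 < t) (h1 : t < 1) :
    nu p x ^ (1 - t) * nu p y ^ t ≤ nu p ((1 - t) * x + t * y) := by
  rw [nu_eq hp, nu_eq hp, nu_eq hp, ← Real.exp_mul, ← Real.exp_mul, ← Real.exp_add,
    Real.exp_le_exp]
  have hc := convexOn_exp.2 (mem_univ (p * x)) (mem_univ (p * y)) (by linarith : 0 ≤ 1 - t) h0.le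
    (by ring)
  simp only [smul_eq_mul] at hc
  have e : (1 - t) * (p * x) + t * (p * y) = p * ((1 - t) * x + t * y) := by ring
  rw [e] at hc
  nlinarith

end MIX

theorem blk_MIX : Stmt_MIX := fun _ hp =>
  ⟨fun t u => MIX.part1 hp t u, fun x y t h0 h1 => MIX.part2 hp x y t h0 h1⟩

end Pool.G1
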