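import Pool.Agent.Work.MP_b5407d_g1.InterfaceD
import Pool.Agent.Work.MP_3892ce_static.PLN
import Pool.Agent.Work.MP_3892ce_static.PL1

/-!
# G1, block `SC3` (helper46): log-concavity for three-dimensional sections of `ℓ_p` balls
-/

set_option autoImplicit false

open MeasureTheory Set Filter Topology
open scoped ENNReal Pointwise

namespace Pool.G1

namespace SC3

open Pool.T3 (R3 dt cr de K V S H Fam Pos pt Lam Q J lin Calc)

/-- the constant density -/
theorem elc_one : ELC (fun _ : R3 => (1 : ℝ)) where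
  meas := measurable_const
  nn := fun _ => zero_le_one
  even := fun _ => rfl
  lc := fun x y t _ _ => by simp

theorem ms_one : ms (fun _ : R3 => (1 : ℝ)) = volume := by
  unfold ms
  simp

/-- the integrand -/
noncomputable def FF (p : ℝ) {n : ℕ} (y : Fin n → R3) (t : Fin n → ℝ) (τ : Fin n → ℝ) : ℝ≥0∞ :=
  volume (K y (fun i => Real.exp (τ i + t i))) * ∏ i, ENNReal.ofReal (nu p (τ i))

theorem meas_FF (p : ℝ) {n : ℕ} (y : Fin n → R3) (t : Fin n → ℝ) : Measurable (FF p y t) := by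
  unfold FF
  refine Measurable.mul ?_ ?_
  · have hS : MeasurableSet {q : (Fin n → ℝ) × R3 | ∀ i, |dt (y i) q.2| ≤ Real.exp (q.1 i + t i)} := by
      have : {q : (Fin n → ℝ) × R3 | ∀ i, |dt (y i) q.2| ≤ Real.exp (q.1 i + t i)} =
          ⋂ i, {q : (Fin n → ℝ) × R3 | |dt (y i) q.2| ≤ Real.exp (q.1 i + t i)} := by
        ext q; simp only [mem_iInter, mem_ofPred_eq]
      rw [this]
      refine MeasurableSet.iInter fun i => IsClosed.measurableSet ?_
      refine isClosed_le ?_ ?_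
      · have : Continuous fun q : (Fin n → ℝ) × R3 => dt (y i) q.2 := by
          unfold dt; fun_prop
        exact this.abs
      · fun_prop
    exact measurable_measure_prodMk_left hS
  · refine Finset.measurable_prod _ fun i _ => ?_
    refine ENNReal.measurable_ofReal.comp ?_
    unfold nu
    fun_prop

theorem nu_nonneg (p : ℝ) (hp : 0 < p) (x : ℝ) : 0 ≤ nu p x := by
  unfold nu; positivity

theorem FF_ineq (hMIX : Stmt_MIX) (hLGV : Stmt_LGV) (hM : MEAc) (p : ℝ) (hp : 0 < p) {n : ℕ}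
    (y : Fin n → R3) (hb : ∃ R : ℝ, ∀ x ∈ KK y, ∀ k, |x k| ≤ R) (s t : Fin n → ℝ) (l : ℝ)
    (hl0 : 0 < l) (hl1 : l < 1) (a b : Fin n → ℝ) :
    FF p y s a ^ (1 - l) * FF p y t b ^ l ≤
      FF p y (fun i => (1 - l) * s i + l * t i) ((1 - l) • a + l • b) := by
  have h1l : 0 ≤ 1 - l := by linarith
  unfold FF
  rw [ENNReal.mul_rpow_of_nonneg _ _ h1l, ENNReal.mul_rpow_of_nonneg _ _ hl0.le]
  have e : volume (K y fun i => Real.exp (a i + s i)) ^ (1 - l) *
        (∏ i, ENNReal.ofReal (nu p (a i))) ^ (1 - l) *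
      (volume (K y fun i => Real.exp (b i + t i)) ^ l * (∏ i, ENNReal.ofReal (nu p (b i))) ^ l) =
      (volume (K y fun i => Real.exp (a i + s i)) ^ (1 - l) *
        volume (K y fun i => Real.exp (b i + t i)) ^ l) *
      ((∏ i, ENNReal.ofReal (nu p (a i))) ^ (1 - l) * (∏ i, ENNReal.ofReal (nu p (b i))) ^ l) := by
    ring
  rw [e]
  refine mul_le_mul' ?_ ?_
  · have h := hLGV hM (fun _ => 1) elc_one (Fin n) y hb (fun i => Real.exp (a i + s i))
      (fun i => Real.exp (b i + t i)) (fun i => Real.exp_pos _) (fun i => Real.exp_pos _) l hl0 hl1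
    rw [ms_one] at h
    refine h.trans (le_of_eq ?_)
    congr 2
    funext i
    rw [← Real.exp_mul, ← Real.exp_mul, ← Real.exp_add]
    congr 1
    simp only [Pi.add_apply, Pi.smul_apply, smul_eq_mul]
    ring
  · rw [← ENNReal.prod_rpow_of_nonneg h1l, ← ENNReal.prod_rpow_of_nonneg hl0.le,
      ← Finset.prod_mul_distrib]
    refine Finset.prod_le_prod' fun i _ => ?_
    rw [ENNReal.ofReal_rpow_of_nonneg (nu_nonneg p hp _) h1l,
      ENNReal.ofReal_rpow_of_nonneg (nu_nonneg p hp _) hl0.le,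
      ← ENNReal.ofReal_mul (Real.rpow_nonneg (nu_nonneg p hp _) _)]
    refine ENNReal.ofReal_le_ofReal ?_
    have := (hMIX p hp).2 (a i) (b i) l hl0 hl1
    simpa only [Pi.add_apply, Pi.smul_apply, smul_eq_mul] using this

end SC3

open SC3 in
theorem blk_SC3 (hINT : Stmt_INT) (hMIX : Stmt_MIX) (hLGV : Stmt_LGV) : Stmt_SC3 := by
  intro hM p hp n y hb s t l hl0 hl1
  have h1l : 0 ≤ 1 - l := by linarith
  have hPL := Pool.Agent.Work.MP_3892ce_static.blk_PLN Pool.Agent.Work.MP_3892ce_static.blk_PL1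
  have key := hPL n l hl0 hl1 (FF p y s) (FF p y t) (FF p y (fun i => (1 - l) * s i + l * t i))
    (meas_FF p y s) (meas_FF p y t) (meas_FF p y _)
    (fun a b => FF_ineq hMIX hLGV hM p hp y hb s t l hl0 hl1 a b)
  have i1 := hINT p hp n y hb s
  have i2 := hINT p hp n y hb t
  have i3 := hINT p hp n y hb (fun i => (1 - l) * s i + l * t i)
  unfold FF at key
  rw [← i1, ← i2, ← i3, ENNReal.mul_rpow_of_nonneg _ _ h1l, ENNReal.mul_rpow_of_nonneg _ _ hl0.le]
    at key
  have hG : 0 < Real.Gamma (1 + 3 / p) := Real.Gamma_pos_of_pos (by positivity)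
  have hc0 : ENNReal.ofReal (Real.Gamma (1 + 3 / p)) ≠ 0 := by
    rw [Ne, ENNReal.ofReal_eq_zero, not_le]; exact hG
  have hct : ENNReal.ofReal (Real.Gamma (1 + 3 / p)) ≠ ∞ := ENNReal.ofReal_ne_top
  have hcc : ENNReal.ofReal (Real.Gamma (1 + 3 / p)) ^ (1 - l) *
      ENNReal.ofReal (Real.Gamma (1 + 3 / p)) ^ l = ENNReal.ofReal (Real.Gamma (1 + 3 / p)) := by
    rw [← ENNReal.rpow_add _ _ hc0 hct]
    simp
  rw [← ENNReal.mul_le_mul_iff_right hc0 hct]
  refine le_trans (le_of_eq ?_) key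
  conv_lhs => rw [← hcc]
  ring

end Pool.G1
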