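import Pool.Agent.Work.MP_b5407d_g1.InterfaceD

/-!
# Block SEC: sections by subspaces of dimension at most three (from SC3)
-/

set_option autoImplicit false

open MeasureTheory Set Filter Topology
open scoped ENNReal Pointwise

namespace Pool.G1
namespace SECx

open Pool.T3 (R3 dt K)

variable {d k n : ℕ}

/-- index equivalence -/
def ie (h : d + k = 3) : Fin d ⊕ Fin k ≃ Fin 3 := finSumFinEquiv.trans (finCongr h)

/-- chart from the product -/
noncomputable def ch (h : d + k = 3) (q : (Fin d → ℝ) × (Fin k → ℝ)) : R3 :=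
  MeasurableEquiv.piCongrLeft (fun _ : Fin 3 => ℝ) (ie h)
    ((MeasurableEquiv.sumPiEquivProdPi (fun _ : Fin d ⊕ Fin k => ℝ)).symm q)

lemma mp_ch (h : d + k = 3) : MeasurePreserving (ch h) volume volume :=
  (volume_measurePreserving_piCongrLeft (fun _ : Fin 3 => ℝ) (ie h)).comp
    (volume_measurePreserving_sumPiEquivProdPi_symm (fun _ : Fin d ⊕ Fin k => ℝ))

lemma ch_inl (h : d + k = 3) (x : Fin d → ℝ) (z : Fin k → ℝ) (a : Fin d) :
    ch h (x, z) (ie h (Sum.inl a)) = x a :=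
  Equiv.piCongrLeft_sumInl (fun _ : Fin 3 => ℝ) (ie h) x z a

lemma ch_inr (h : d + k = 3) (x : Fin d → ℝ) (z : Fin k → ℝ) (a : Fin k) :
    ch h (x, z) (ie h (Sum.inr a)) = z a :=
  Equiv.piCongrLeft_sumInr (fun _ : Fin 3 => ℝ) (ie h) x z a

lemma ch_surj (h : d + k = 3) (w : R3) : ∃ x z, ch h (x, z) = w := by
  refine ⟨fun a => w (ie h (Sum.inl a)), fun a => w (ie h (Sum.inr a)), ?_⟩
  funext c
  obtain ⟨s, rfl⟩ := (ie h).surjective c
  rcases s with a | a
  · rw [ch_inl]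
  · rw [ch_inr]

lemma dt_ch (h : d + k = 3) (a x : Fin d → ℝ) (b z : Fin k → ℝ) :
    dt (ch h (a, b)) (ch h (x, z)) = (∑ c, a c * x c) + ∑ c, b c * z c := by
  have h1 : dt (ch h (a, b)) (ch h (x, z)) =
      ∑ c : Fin 3, ch h (a, b) c * ch h (x, z) c := by
    rw [Fin.sum_univ_three]; rfl
  rw [h1, ← (ie h).sum_comp, Fintype.sum_sum_type]
  simp only [ch_inl, ch_inr]

/-- scaling factor -/
noncomputable def gm (d : ℕ) (p ρ : ℝ) : ℝ≥0∞ :=
  if 0 < ρ then ENNReal.ofReal ((ρ ^ (1 / p)) ^ d) else 0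

lemma scale {p : ℝ} (hp : 0 < p) (hd : 0 < d) (N : (Fin d → ℝ) → ℝ)
    (hom : ∀ c : ℝ, 0 < c → ∀ x, N (c • x) = c ^ p * N x)
    (hf : volume {x | N x ≤ 1} ≠ ⊤) (ρ : ℝ) :
    volume {x | N x ≤ ρ} = gm d p ρ * volume {x | N x ≤ 1} := by
  by_cases hρ : 0 < ρ
  · have hc : 0 < ρ ^ (1 / p) := Real.rpow_pos_of_pos hρ _
    have hcp : (ρ ^ (1 / p)) ^ p = ρ := by
      rw [← Real.rpow_mul hρ.le, one_div, inv_mul_cancel₀ hp.ne', Real.rpow_one]
    have hset : {x | N x ≤ ρ} = (ρ ^ (1 / p)) • {x | N x ≤ 1} := by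
      ext x
      rw [Set.mem_smul_set_iff_inv_smul_mem₀ hc.ne']
      simp only [Set.mem_ofPred_eq]
      rw [hom _ (inv_pos.2 hc), Real.inv_rpow hc.le, hcp, inv_mul_le_iff₀ hρ, mul_one]
    rw [hset, Measure.addHaar_smul, gm, if_pos hρ]
    congr 2
    rw [Module.finrank_fin_fun, abs_of_pos (pow_pos hc d)]
  · rw [gm, if_neg hρ, zero_mul]
    have h0 : volume {x | N x ≤ 0} = 0 := by
      have hset : {x | N x ≤ 0} = (2 : ℝ) • {x | N x ≤ 0} := by
        ext x
        rw [Set.mem_smul_set_iff_inv_smul_mem₀ (by norm_num : (2 : ℝ) ≠ 0)]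
        simp only [Set.mem_ofPred_eq]
        rw [hom _ (by norm_num)]
        have : 0 < ((2 : ℝ)⁻¹) ^ p := Real.rpow_pos_of_pos (by norm_num) _
        constructor
        · intro hx; exact mul_nonpos_of_nonneg_of_nonpos this.le hx
        · intro hx
          by_contra hcon
          push Not at hcon
          have := mul_pos this hcon
          linarith
      have hlt : volume {x | N x ≤ 0} ≠ ⊤ :=
        ne_top_of_le_ne_top hf (measure_mono fun x (hx : N x ≤ 0) =>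
          show N x ≤ 1 from le_trans hx zero_le_one)
      have h2 : volume {x | N x ≤ 0} = ENNReal.ofReal ((2 : ℝ) ^ d) * volume {x | N x ≤ 0} := by
        conv_lhs => rw [hset]
        rw [Measure.addHaar_smul, Module.finrank_fin_fun,
          abs_of_pos (pow_pos (by norm_num) d)]
      have h3 := congrArg ENNReal.toReal h2
      rw [ENNReal.toReal_mul, ENNReal.toReal_ofReal (by positivity)] at h3
      have h4 : (1 : ℝ) < 2 ^ d := one_lt_pow₀ (by norm_num) hd.ne'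
      have h5 : (volume {x | N x ≤ 0}).toReal = 0 := by
        have : ((2 : ℝ) ^ d - 1) * (volume {x | N x ≤ 0}).toReal = 0 := by linarith
        rcases mul_eq_zero.1 this with h | h
        · linarith
        · exact h
      rcases (ENNReal.toReal_eq_zero_iff _).1 h5 with h | h
      · exact h
      · exact absurd h hlt
    exact measure_mono_null (fun x hx => le_trans hx (not_lt.1 hρ)) h0

/-- the function of the section -/
noncomputable def Nf (A : Fin n → Fin d → ℝ) (p : ℝ) (s : Fin n → ℝ) (x : Fin d → ℝ) : ℝ :=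
  ∑ i, |Real.exp (-s i) * ∑ c, A i c * x c| ^ p

/-- the function of the added coordinates -/
noncomputable def Mf (k : ℕ) (p : ℝ) (z : Fin k → ℝ) : ℝ := ∑ j, |z j| ^ p

lemma cont_Nf (A : Fin n → Fin d → ℝ) {p : ℝ} (hp : 0 < p) (s : Fin n → ℝ) :
    Continuous (Nf A p s) := by
  unfold Nf
  refine continuous_finsetSum _ fun i _ => ?_
  refine Continuous.rpow_const ?_ (fun x => Or.inr hp.le)
  fun_prop

lemma cont_Mf (k : ℕ) {p : ℝ} (hp : 0 < p) : Continuous (Mf k p) := by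
  unfold Mf
  refine continuous_finsetSum _ fun i _ => ?_
  refine Continuous.rpow_const ?_ (fun x => Or.inr hp.le)
  fun_prop

lemma Nf_zero (A : Fin n → Fin d → ℝ) {p : ℝ} (hp : 0 < p) (s : Fin n → ℝ) :
    Nf A p s 0 = 0 := by
  simp [Nf, Real.zero_rpow hp.ne']

lemma Mf_zero (k : ℕ) {p : ℝ} (hp : 0 < p) : Mf k p 0 = 0 := by
  simp [Mf, Real.zero_rpow hp.ne']

lemma Nf_nonneg (A : Fin n → Fin d → ℝ) (p : ℝ) (s : Fin n → ℝ) (x : Fin d → ℝ) :
    0 ≤ Nf A p s x := Finset.sum_nonneg fun _ _ => Real.rpow_nonneg (abs_nonneg _) _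

lemma Mf_nonneg (k : ℕ) (p : ℝ) (z : Fin k → ℝ) : 0 ≤ Mf k p z :=
  Finset.sum_nonneg fun _ _ => Real.rpow_nonneg (abs_nonneg _) _

lemma Nf_hom (A : Fin n → Fin d → ℝ) (p : ℝ) (s : Fin n → ℝ) (c : ℝ) (hc : 0 < c)
    (x : Fin d → ℝ) : Nf A p s (c • x) = c ^ p * Nf A p s x := by
  unfold Nf
  rw [Finset.mul_sum]
  refine Finset.sum_congr rfl fun i _ => ?_
  have : Real.exp (-s i) * ∑ e, A i e * (c • x) e = c * (Real.exp (-s i) * ∑ e, A i e * x e) := by
    simp only [Pi.smul_apply, smul_eq_mul]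
    rw [show (∑ e, A i e * (c * x e)) = c * ∑ e, A i e * x e by
      rw [Finset.mul_sum]; exact Finset.sum_congr rfl fun e _ => by ring]
    ring
  rw [this, abs_mul, abs_of_pos hc, Real.mul_rpow hc.le (abs_nonneg _)]

/-- the family of vectors of `ℝ³` -/
noncomputable def Yv (h : d + k = 3) (A : Fin n → Fin d → ℝ) : Fin (n + k) → R3 :=
  Fin.append (fun i => ch h (A i, 0)) (fun j => ch h (0, Pi.single j 1))

lemma dt_Yl (h : d + k = 3) (A : Fin n → Fin d → ℝ) (i : Fin n) (x : Fin d → ℝ)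
    (z : Fin k → ℝ) : dt (Yv h A (Fin.castAdd k i)) (ch h (x, z)) = ∑ c, A i c * x c := by
  rw [Yv, Fin.append_left, dt_ch]
  simp

lemma dt_Yr (h : d + k = 3) (A : Fin n → Fin d → ℝ) (j : Fin k) (x : Fin d → ℝ)
    (z : Fin k → ℝ) : dt (Yv h A (Fin.natAdd n j)) (ch h (x, z)) = z j := by
  rw [Yv, Fin.append_right, dt_ch]
  simp [Pi.single_apply]

/-- the constant -/
noncomputable def Cc (d k : ℕ) (p : ℝ) : ℝ≥0∞ := ∫⁻ z : Fin k → ℝ, gm d p (1 - Mf k p z)

lemma vol_prod {p : ℝ} (hp : 0 < p) (hd : 0 < d) (A : Fin n → Fin d → ℝ) (s : Fin n → ℝ)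
    (hf : volume {x | Nf A p s x ≤ 1} ≠ ⊤) :
    volume {q : (Fin d → ℝ) × (Fin k → ℝ) | Nf A p s q.1 + Mf k p q.2 ≤ 1} =
      Cc d k p * volume {x | Nf A p s x ≤ 1} := by
  have hm : MeasurableSet {q : (Fin d → ℝ) × (Fin k → ℝ) | Nf A p s q.1 + Mf k p q.2 ≤ 1} := by
    apply IsClosed.measurableSet
    exact isClosed_le (((cont_Nf A hp s).comp continuous_fst).add
      ((cont_Mf k hp).comp continuous_snd)) continuous_const
  rw [Measure.volume_eq_prod, Measure.prod_apply_symm hm]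
  unfold Cc
  rw [← lintegral_mul_const' _ _ hf]
  refine lintegral_congr fun z => ?_
  rw [← scale hp hd (Nf A p s) (fun c hc x => Nf_hom A p s c hc x) hf]
  congr 1
  ext x
  simp only [Set.mem_preimage, Set.mem_ofPred_eq]
  constructor <;> intro hx <;> linarith

lemma vol3 {p : ℝ} (hp : 0 < p) (hd : 0 < d) (h : d + k = 3) (A : Fin n → Fin d → ℝ)
    (σ : Fin (n + k) → ℝ) (s : Fin n → ℝ) (h1 : ∀ i, σ (Fin.castAdd k i) = s i)
    (h2 : ∀ j, σ (Fin.natAdd n j) = 0) (hf : volume {x | Nf A p s x ≤ 1} ≠ ⊤) :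
    volume {w : R3 | ∑ i, |Real.exp (-σ i) * dt (Yv h A i) w| ^ p ≤ 1} =
      Cc d k p * volume {x | Nf A p s x ≤ 1} := by
  rw [← vol_prod hp hd A s hf]
  have hcont : Continuous fun w : R3 => ∑ i, |Real.exp (-σ i) * dt (Yv h A i) w| ^ p := by
    refine continuous_finsetSum _ fun i _ => ?_
    refine Continuous.rpow_const ?_ (fun x => Or.inr hp.le)
    unfold dt
    fun_prop
  have hm : MeasurableSet {w : R3 | ∑ i, |Real.exp (-σ i) * dt (Yv h A i) w| ^ p ≤ 1} :=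
    (isClosed_le hcont continuous_const).measurableSet
  rw [← (mp_ch h).measure_preimage hm.nullMeasurableSet]
  congr 1
  ext ⟨x, z⟩
  simp only [Set.mem_preimage, Set.mem_ofPred_eq]
  rw [Fin.sum_univ_add]
  simp only [dt_Yl, dt_Yr, h1, h2, neg_zero, Real.exp_zero, one_mul]
  rfl

lemma pos_of_cont {E : Type*} [NormedAddCommGroup E] [NormedSpace ℝ E] [MeasurableSpace E]
    [BorelSpace E] (μ : Measure E) [μ.IsOpenPosMeasure] (F : E → ℝ) (hF : Continuous F)
    (h0 : F 0 < 1) : μ {x | F x ≤ 1} ≠ 0 := by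
  have ho : IsOpen {x | F x < 1} := isOpen_lt hF continuous_const
  have := ho.measure_pos μ ⟨0, h0⟩
  have hle : μ {x | F x < 1} ≤ μ {x | F x ≤ 1} := measure_mono fun x (hx : F x < 1) =>
    show F x ≤ 1 from le_of_lt hx
  exact (lt_of_lt_of_le this hle).ne'

lemma rpow_le_one {a p : ℝ} (hp : 0 < p) (h : a ^ p ≤ 1) : a ≤ 1 := by
  by_contra hc
  push Not at hc
  have := Real.one_lt_rpow hc hp
  linarith

/-- bounded when the family is an isometric embedding -/
lemma fin_Nf {p : ℝ} (hp : 0 < p) (A : Fin n → Fin d → ℝ)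
    (hA : ∀ x : Fin d → ℝ, ∑ c, x c ^ 2 = ∑ i, (∑ c, A i c * x c) ^ 2) (s : Fin n → ℝ) :
    volume {x | Nf A p s x ≤ 1} ≠ ⊤ := by
  set B : ℝ := ∑ i, Real.exp (s i) ^ 2 with hB
  have hsub : {x | Nf A p s x ≤ 1} ⊆ Metric.closedBall (0 : Fin d → ℝ) (Real.sqrt B) := by
    intro x hx
    rw [Metric.mem_closedBall, dist_zero_right, pi_norm_le_iff_of_nonneg (Real.sqrt_nonneg _)]
    intro c
    rw [Real.norm_eq_abs]
    apply Real.abs_le_sqrt
    have h1 : x c ^ 2 ≤ ∑ c, x c ^ 2 :=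
      Finset.single_le_sum (f := fun c => x c ^ 2) (fun c _ => sq_nonneg _) (Finset.mem_univ c)
    refine h1.trans ?_
    rw [hA x]
    refine Finset.sum_le_sum fun i _ => ?_
    have h2 : |Real.exp (-s i) * ∑ c, A i c * x c| ^ p ≤ 1 := by
      refine le_trans ?_ (show Nf A p s x ≤ 1 from hx)
      exact Finset.single_le_sum (f := fun i => |Real.exp (-s i) * ∑ c, A i c * x c| ^ p)
        (fun i _ => Real.rpow_nonneg (abs_nonneg _) _) (Finset.mem_univ i)
    have h3 := rpow_le_one hp h2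
    rw [abs_mul, abs_of_pos (Real.exp_pos _), Real.exp_neg, inv_mul_le_iff₀ (Real.exp_pos _),
      mul_one] at h3
    exact sq_le_sq' (by linarith [neg_abs_le (∑ c, A i c * x c)])
      (le_trans (le_abs_self _) h3)
  exact ne_top_of_le_ne_top measure_closedBall_lt_top.ne (measure_mono hsub)

lemma fin_Mf (k : ℕ) {p : ℝ} (hp : 0 < p) : volume {z : Fin k → ℝ | Mf k p z ≤ 1} ≠ ⊤ := by
  have hsub : {z : Fin k → ℝ | Mf k p z ≤ 1} ⊆ Metric.closedBall (0 : Fin k → ℝ) 1 := by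
    intro z hz
    rw [Metric.mem_closedBall, dist_zero_right, pi_norm_le_iff_of_nonneg zero_le_one]
    intro c
    rw [Real.norm_eq_abs]
    refine rpow_le_one hp (le_trans ?_ (show Mf k p z ≤ 1 from hz))
    exact Finset.single_le_sum (f := fun i => |z i| ^ p)
      (fun i _ => Real.rpow_nonneg (abs_nonneg _) _) (Finset.mem_univ c)
  exact ne_top_of_le_ne_top measure_closedBall_lt_top.ne (measure_mono hsub)

lemma Cc_ne {p : ℝ} (hp : 0 < p) (hd : 0 < d) (A : Fin n → Fin d → ℝ)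
    (hA : ∀ x : Fin d → ℝ, ∑ c, x c ^ 2 = ∑ i, (∑ c, A i c * x c) ^ 2) :
    Cc d k p ≠ 0 ∧ Cc d k p ≠ ⊤ := by
  have hf := fin_Nf hp A hA 0
  have hv : volume {x | Nf A p 0 x ≤ 1} ≠ 0 :=
    pos_of_cont volume _ (cont_Nf A hp 0) (by rw [Nf_zero A hp]; norm_num)
  have e := vol_prod (k := k) hp hd A 0 hf
  constructor
  · intro h0
    rw [h0, zero_mul] at e
    refine pos_of_cont (E := (Fin d → ℝ) × (Fin k → ℝ)) volume
      (fun q => Nf A p 0 q.1 + Mf k p q.2) ?_ ?_ e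
    · exact ((cont_Nf A hp 0).comp continuous_fst).add ((cont_Mf k hp).comp continuous_snd)
    · change Nf A p 0 0 + Mf k p 0 < 1
      rw [Nf_zero A hp, Mf_zero k hp]; norm_num
  · intro h0
    rw [h0, ENNReal.top_mul hv] at e
    have hsub : {q : (Fin d → ℝ) × (Fin k → ℝ) | Nf A p 0 q.1 + Mf k p q.2 ≤ 1} ⊆
        {x | Nf A p 0 x ≤ 1} ×ˢ {z | Mf k p z ≤ 1} := by
      intro q hq
      have hq' : Nf A p 0 q.1 + Mf k p q.2 ≤ 1 := hq
      have h1 := Nf_nonneg A p 0 q.1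
      have h2 := Mf_nonneg k p q.2
      refine ⟨?_, ?_⟩
      · show Nf A p 0 q.1 ≤ 1
        linarith
      · show Mf k p q.2 ≤ 1
        linarith
    have h3 := measure_mono (μ := (volume : Measure ((Fin d → ℝ) × (Fin k → ℝ)))) hsub
    rw [e, Measure.volume_eq_prod, Measure.prod_prod] at h3
    exact (ENNReal.mul_ne_top hf (fin_Mf k hp)) (top_le_iff.1 h3)

lemma bdd {h : d + k = 3} (A : Fin n → Fin d → ℝ)
    (hA : ∀ x : Fin d → ℝ, ∑ c, x c ^ 2 = ∑ i, (∑ c, A i c * x c) ^ 2) :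
    ∃ R : ℝ, ∀ x ∈ KK (Yv h A), ∀ k, |x k| ≤ R := by
  refine ⟨(n : ℝ) + 1, fun w hw c => ?_⟩
  obtain ⟨x, z, rfl⟩ := ch_surj h w
  have hn : (0 : ℝ) ≤ n := Nat.cast_nonneg n
  obtain ⟨e, rfl⟩ := (ie h).surjective c
  rcases e with a | a
  · rw [ch_inl]
    have h1 : x a ^ 2 ≤ ∑ c, x c ^ 2 :=
      Finset.single_le_sum (f := fun c => x c ^ 2) (fun c _ => sq_nonneg _) (Finset.mem_univ a)
    have h2 : ∑ i, (∑ c, A i c * x c) ^ 2 ≤ ∑ _i : Fin n, (1 : ℝ) := by
      refine Finset.sum_le_sum fun i _ => ?_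
      have h3 : |dt (Yv h A (Fin.castAdd k i)) (ch h (x, z))| ≤ 1 := hw (Fin.castAdd k i)
      rw [dt_Yl] at h3
      rw [← sq_abs]
      exact pow_le_one₀ (abs_nonneg _) h3
    rw [Finset.sum_const, Finset.card_univ, Fintype.card_fin, nsmul_eq_mul, mul_one] at h2
    have h4 : x a ^ 2 ≤ ((n : ℝ) + 1) ^ 2 := by
      have := hA x
      nlinarith
    exact abs_le_of_sq_le_sq h4 (by linarith)
  · rw [ch_inr]
    have h3 : |dt (Yv h A (Fin.natAdd n a)) (ch h (x, z))| ≤ 1 := hw (Fin.natAdd n a)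
    rw [dt_Yr] at h3
    linarith

/-- the statement in coordinates -/
lemma main_coord (hSC3 : Stmt_SC3) (hM : MEAc) {p : ℝ} (hp : 0 < p) (hd : 0 < d) (h : d + k = 3)
    (A : Fin n → Fin d → ℝ)
    (hA : ∀ x : Fin d → ℝ, ∑ c, x c ^ 2 = ∑ i, (∑ c, A i c * x c) ^ 2)
    (s t : Fin n → ℝ) (l : ℝ) (hl0 : 0 < l) (hl1 : l < 1) :
    (volume {x | Nf A p s x ≤ 1}).toReal ^ (1 - l) * (volume {x | Nf A p t x ≤ 1}).toReal ^ l ≤
      (volume {x | Nf A p (fun i => (1 - l) * s i + l * t i) x ≤ 1}).toReal := by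
  have key := hSC3 hM p hp (n + k) (Yv h A) (bdd A hA) (Fin.append s 0) (Fin.append t 0) l hl0 hl1
  have fs := fin_Nf hp A hA s
  have ft := fin_Nf hp A hA t
  have fu := fin_Nf hp A hA (fun i => (1 - l) * s i + l * t i)
  rw [vol3 hp hd h A (Fin.append s 0) s (fun i => by simp) (fun j => by simp) fs,
    vol3 hp hd h A (Fin.append t 0) t (fun i => by simp) (fun j => by simp) ft,
    vol3 hp hd h A (fun i => (1 - l) * (Fin.append s 0 : Fin (n + k) → ℝ) i +
      l * (Fin.append t 0 : Fin (n + k) → ℝ) i) (fun i => (1 - l) * s i + l * t i)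
      (fun i => by simp) (fun j => by simp) fu] at key
  obtain ⟨hc0, hct⟩ := Cc_ne (k := k) hp hd A hA
  have k2 := ENNReal.toReal_mono (ENNReal.mul_ne_top hct fu) key
  rw [ENNReal.toReal_mul, ← ENNReal.toReal_rpow, ← ENNReal.toReal_rpow, ENNReal.toReal_mul,
    ENNReal.toReal_mul, ENNReal.toReal_mul, Real.mul_rpow ENNReal.toReal_nonneg
      ENNReal.toReal_nonneg, Real.mul_rpow ENNReal.toReal_nonneg ENNReal.toReal_nonneg] at k2
  have hc : 0 < (Cc d k p).toReal := ENNReal.toReal_pos hc0 hct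
  have e1 : (Cc d k p).toReal ^ (1 - l) * (Cc d k p).toReal ^ l = (Cc d k p).toReal := by
    rw [← Real.rpow_add hc]; simp
  set a := (volume {x | Nf A p s x ≤ 1}).toReal ^ (1 - l)
  set b := (volume {x | Nf A p t x ≤ 1}).toReal ^ l
  set g := (Cc d k p).toReal ^ (1 - l)
  set g' := (Cc d k p).toReal ^ l
  have e2 : (Cc d k p).toReal * (a * b) ≤ (Cc d k p).toReal *
      (volume {x | Nf A p (fun i => (1 - l) * s i + l * t i) x ≤ 1}).toReal := by
    calc (Cc d k p).toReal * (a * b) = g * a * (g' * b) := by rw [← e1]; ring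
      _ ≤ _ := k2
  exact le_of_mul_le_mul_left e2 hc

/-- coordinates of the vectors of the subspace -/
lemma coordH (H : Submodule ℝ (EuclideanSpace ℝ (Fin n))) (b : OrthonormalBasis (Fin d) ℝ H)
    (x : Fin d → ℝ) (i : Fin n) :
    ((b.repr.symm (WithLp.toLp 2 x) : H) : EuclideanSpace ℝ (Fin n)) i =
      ∑ c, ((b c : H) : EuclideanSpace ℝ (Fin n)) i * x c := by
  have h1 : b.repr.symm (WithLp.toLp 2 x) = ∑ c, x c • b c := by
    rw [← b.sum_repr_symm]
  have h2 : ((b.repr.symm (WithLp.toLp 2 x) : H) : EuclideanSpace ℝ (Fin n)) =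
      ∑ c, x c • ((b c : H) : EuclideanSpace ℝ (Fin n)) := by
    rw [h1, Submodule.coe_sum]
    rfl
  have h3 := congrArg (fun v => EuclideanSpace.proj (𝕜 := ℝ) i v) h2
  simp only [map_sum, map_smul, smul_eq_mul] at h3
  refine Eq.trans h3 (Finset.sum_congr rfl fun c _ => ?_)
  exact mul_comm _ _

lemma isoH (H : Submodule ℝ (EuclideanSpace ℝ (Fin n))) (b : OrthonormalBasis (Fin d) ℝ H)
    (x : Fin d → ℝ) :
    ∑ c, x c ^ 2 = ∑ i, (∑ c, ((b c : H) : EuclideanSpace ℝ (Fin n)) i * x c) ^ 2 := by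
  have h1 : ‖b.repr.symm (WithLp.toLp 2 x)‖ = ‖(WithLp.toLp 2 x : EuclideanSpace ℝ (Fin d))‖ :=
    b.repr.symm.norm_map _
  have h2 : ‖((b.repr.symm (WithLp.toLp 2 x) : H) : EuclideanSpace ℝ (Fin n))‖ ^ 2 =
      ‖(WithLp.toLp 2 x : EuclideanSpace ℝ (Fin d))‖ ^ 2 := by
    rw [← h1]; rfl
  rw [EuclideanSpace.real_norm_sq_eq, EuclideanSpace.real_norm_sq_eq] at h2
  simp only [coordH] at h2
  exact h2.symm

lemma volH {p : ℝ} (hp : 0 < p) (H : Submodule ℝ (EuclideanSpace ℝ (Fin n)))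
    (b : OrthonormalBasis (Fin d) ℝ H) (s : Fin n → ℝ) :
    volume {x : H | ∑ i, |Real.exp (-s i) * (x : EuclideanSpace ℝ (Fin n)) i| ^ p ≤ 1} =
      volume {x : Fin d → ℝ |
        Nf (fun i c => ((b c : H) : EuclideanSpace ℝ (Fin n)) i) p s x ≤ 1} := by
  have hmp : MeasurePreserving (fun x : Fin d → ℝ => b.repr.symm (WithLp.toLp 2 x))
      volume volume :=
    b.measurePreserving_repr_symm.comp (PiLp.volume_preserving_toLp (Fin d))
  have hm : MeasurableSet {x : H |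
      ∑ i, |Real.exp (-s i) * (x : EuclideanSpace ℝ (Fin n)) i| ^ p ≤ 1} := by
    apply IsClosed.measurableSet
    refine isClosed_le ?_ continuous_const
    refine continuous_finsetSum _ fun i _ => ?_
    refine Continuous.rpow_const ?_ (fun x => Or.inr hp.le)
    refine (continuous_const.mul ?_).abs
    exact (EuclideanSpace.proj (𝕜 := ℝ) i).continuous.comp continuous_subtype_val
  rw [← hmp.measure_preimage hm.nullMeasurableSet]
  congr 1
  ext x
  simp only [Set.mem_preimage, Set.mem_ofPred_eq, Nf, coordH]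

lemma interp_le {v : ℝ} (hv : 0 ≤ v) {l : ℝ} (h0 : 0 < l) :
    v ^ (1 - l) * v ^ l ≤ v := by
  rcases hv.eq_or_lt with h | h
  · rw [← h, Real.zero_rpow h0.ne', mul_zero]
  · rw [← Real.rpow_add h]; simp

end SECx

theorem blk_SEC (hSC3 : Stmt_SC3) : Stmt_SEC := by
  intro hM p hp n H hH s t l hl0 hl1
  rcases hl0.eq_or_lt with h0 | h0
  · subst h0
    simp
  rcases hl1.eq_or_lt with h1 | h1
  · subst h1
    simp
  have b : OrthonormalBasis (Fin (Module.finrank ℝ H)) ℝ H := stdOrthonormalBasis ℝ H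
  rcases Nat.eq_zero_or_pos (Module.finrank ℝ H) with hd | hd
  · have hsub : Subsingleton H := Module.finrank_zero_iff.1 hd
    have hun : ∀ σ : Fin n → ℝ,
        {x : H | ∑ i, |Real.exp (-σ i) * (x : EuclideanSpace ℝ (Fin n)) i| ^ p ≤ 1} =
          Set.univ := by
      intro σ
      ext x
      simp only [Set.mem_ofPred_eq, Set.mem_univ, iff_true]
      have hx : x = 0 := Subsingleton.elim _ _
      rw [hx]
      simp [Real.zero_rpow hp.ne']
    rw [hun s, hun t]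
    have := hun (fun i => (1 - l) * s i + l * t i)
    rw [this]
    exact SECx.interp_le ENNReal.toReal_nonneg h0
  · obtain ⟨k, hk⟩ := Nat.exists_eq_add_of_le hH
    rw [SECx.volH hp H b s, SECx.volH hp H b t]
    have e3 := SECx.volH hp H b (fun i => (1 - l) * s i + l * t i)
    rw [e3]
    exact SECx.main_coord hSC3 hM hp hd hk.symm _ (SECx.isoH H b) s t l h0 h1

end Pool.G1
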