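import Pool.Agent.Work.MP_b5407d_g1.InterfaceD

/-!
# Block SGR: log-concavity in logarithmic coordinates gives concavity of the cube root

Direct proof (no supergradient): `A = F a ^ (1/3)`, `B = F b ^ (1/3)`, `M = (1-t) A + t B`, `μ = t B / M`,
`r = (M/A)^(1-μ) (M/B)^μ ≤ 1`, `g i = a i ^ (1-μ) b i ^ μ`.  Then `c = (1-t) a + t b ≥ r g` and
`F c ≥ F (r g) ≥ r³ F g ≥ r³ F a ^ (1-μ) F b ^ μ = M³`.
-/

set_option autoImplicit false

open MeasureTheory Set Filter Topology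
open scoped ENNReal Pointwise

namespace Pool.G1

open Pool.T3 (R3 dt cr de K V S H Fam Pos pt Lam Q J lin Calc)

theorem blk_SGR : Stmt_SGR := by
  intro ι _ F hpos hlc hmono hsc a b ha hb t ht0 ht1
  have hFa := hpos a ha
  have hFb := hpos b hb
  obtain ⟨A, hA0, hA3, hAe⟩ : ∃ A : ℝ, 0 < A ∧ A ^ 3 = F a ∧ F a ^ ((1 : ℝ) / 3) = A := by
    refine ⟨F a ^ ((1 : ℝ) / 3), Real.rpow_pos_of_pos hFa _, ?_, rfl⟩
    rw [← Real.rpow_natCast, ← Real.rpow_mul hFa.le]
    norm_num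
  obtain ⟨B, hB0, hB3, hBe⟩ : ∃ B : ℝ, 0 < B ∧ B ^ 3 = F b ∧ F b ^ ((1 : ℝ) / 3) = B := by
    refine ⟨F b ^ ((1 : ℝ) / 3), Real.rpow_pos_of_pos hFb _, ?_, rfl⟩
    rw [← Real.rpow_natCast, ← Real.rpow_mul hFb.le]
    norm_num
  rw [hAe, hBe]
  have hs0 : 0 < 1 - t := by linarith
  set M : ℝ := (1 - t) * A + t * B with hM
  have hM0 : 0 < M := by positivity
  set m : ℝ := t * B / M with hm
  have hm0 : 0 < m := by positivity
  have hm1 : m < 1 := by
    rw [hm, div_lt_one hM0, hM]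
    have : 0 < (1 - t) * A := by positivity
    linarith
  have hn0 : 0 < 1 - m := by linarith
  have hn : 1 - m = (1 - t) * A / M := by
    rw [hm, eq_div_iff hM0.ne', sub_mul, div_mul_cancel₀ _ hM0.ne', hM]; ring
  have hr1 : 0 < M / A := by positivity
  have hr2 : 0 < M / B := by positivity
  set r : ℝ := (M / A) ^ (1 - m) * (M / B) ^ m with hr
  have hr0 : 0 < r := by positivity
  have e1 : (1 - m) * (M / A) = 1 - t := by
    rw [hn]; field_simp
  have e2 : m * (M / B) = t := by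
    rw [hm]; field_simp
  have hrle : r ≤ 1 := by
    have := Real.geom_mean_le_arith_mean2_weighted hn0.le hm0.le hr1.le hr2.le (by ring)
    rw [e1, e2] at this
    linarith
  set g : ι → ℝ := fun i => a i ^ (1 - m) * b i ^ m with hg
  have hgpos : Pos g := fun i =>
    mul_pos (Real.rpow_pos_of_pos (ha i) _) (Real.rpow_pos_of_pos (hb i) _)
  have hcpos : Pos (fun i => (1 - t) * a i + t * b i) := fun i =>
    add_pos (mul_pos hs0 (ha i)) (mul_pos ht0 (hb i))
  have hrg : Pos (fun i => r * g i) := fun i => mul_pos hr0 (hgpos i)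
  have hle : ∀ i, r * g i ≤ (1 - t) * a i + t * b i := by
    intro i
    have h1 : r * g i = ((M / A) * a i) ^ (1 - m) * ((M / B) * b i) ^ m := by
      rw [Real.mul_rpow hr1.le (ha i).le, Real.mul_rpow hr2.le (hb i).le]
      simp only [hr, hg]; ring
    have h2 := Real.geom_mean_le_arith_mean2_weighted hn0.le hm0.le
      (mul_pos hr1 (ha i)).le (mul_pos hr2 (hb i)).le (by ring : (1 - m) + m = 1)
    calc r * g i = ((M / A) * a i) ^ (1 - m) * ((M / B) * b i) ^ m := h1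
      _ ≤ (1 - m) * ((M / A) * a i) + m * ((M / B) * b i) := h2
      _ = ((1 - m) * (M / A)) * a i + (m * (M / B)) * b i := by ring
      _ = (1 - t) * a i + t * b i := by rw [e1, e2]
  have k1 : F (fun i => r * g i) ≤ F (fun i => (1 - t) * a i + t * b i) :=
    hmono _ _ hrg hcpos hle
  have k2 : r ^ 3 * F g ≤ F (fun i => r * g i) := hsc g hgpos r hr0 hrle
  have k3 : F a ^ (1 - m) * F b ^ m ≤ F g := hlc a b ha hb m hm0 hm1
  have e3 : F a ^ (1 - m) = (A ^ (1 - m)) ^ 3 := by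
    rw [← hA3, ← Real.rpow_natCast, ← Real.rpow_natCast, ← Real.rpow_mul hA0.le,
      ← Real.rpow_mul hA0.le, mul_comm]
  have e4 : F b ^ m = (B ^ m) ^ 3 := by
    rw [← hB3, ← Real.rpow_natCast, ← Real.rpow_natCast, ← Real.rpow_mul hB0.le,
      ← Real.rpow_mul hB0.le, mul_comm]
  have e5 : r * A ^ (1 - m) * B ^ m = M := by
    have h1 : (M / A) ^ (1 - m) * A ^ (1 - m) = M ^ (1 - m) := by
      rw [← Real.mul_rpow hr1.le hA0.le, div_mul_cancel₀ _ hA0.ne']
    have h2 : (M / B) ^ m * B ^ m = M ^ m := by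
      rw [← Real.mul_rpow hr2.le hB0.le, div_mul_cancel₀ _ hB0.ne']
    calc r * A ^ (1 - m) * B ^ m
        = ((M / A) ^ (1 - m) * A ^ (1 - m)) * ((M / B) ^ m * B ^ m) := by rw [hr]; ring
      _ = M ^ (1 - m) * M ^ m := by rw [h1, h2]
      _ = M := by rw [← Real.rpow_add hM0, sub_add_cancel, Real.rpow_one]
  have k4 : M ^ 3 ≤ F (fun i => (1 - t) * a i + t * b i) := by
    calc M ^ 3 = r ^ 3 * (F a ^ (1 - m) * F b ^ m) := by rw [e3, e4, ← e5]; ring
      _ ≤ r ^ 3 * F g := mul_le_mul_of_nonneg_left k3 (by positivity)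
      _ ≤ _ := k2.trans k1
  calc M = (M ^ 3) ^ ((1 : ℝ) / 3) := by
        rw [← Real.rpow_natCast, ← Real.rpow_mul hM0.le]; norm_num
    _ ≤ _ := Real.rpow_le_rpow (by positivity) k4 (by norm_num)

end Pool.G1
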