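import Pool.Agent.Work.MP_b5407d_g1.Asm
import Pool.Agent.Work.MP_b5407d_g1.LG3
import Pool.Agent.Work.MP_b5407d_g1.LGV
import Pool.Agent.Work.MP_b5407d_g1.DBM
import Pool.Agent.Work.MP_b5407d_g1.SGR
import Pool.Agent.Work.MP_b5407d_g1.MIX
import Pool.Agent.Work.MP_b5407d_g1.INT
import Pool.Agent.Work.MP_b5407d_g1.SC3
import Pool.Agent.Work.MP_b5407d_g1.SEC
import Pool.Agent.Work.MP_b5407d_g1.GBX
import Pool.Agent.Work.MP_b5407d_g1.MEA

/-! # G1: all conclusions from the planar target `Stmt_PL` -/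

set_option autoImplicit false

open MeasureTheory Set Filter Topology
open scoped ENNReal Pointwise

namespace Pool.G1.Asm

open Pool.G1

theorem GEQ_all (hPL : Stmt_PL) : GEQc := bodies (LI_all hPL)

theorem LOG_all (hPL : Stmt_PL) : LOGc := blk_LOG (GEQ_all hPL)

theorem MEA_all (hPL : Stmt_PL) : MEAc := blk_MEA (blk_LG3 (LOG_all hPL))

end Pool.G1.Asm
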