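import Pool.Agent.Work.MP_b5407d_g1.CTV

/-!
# G1, block `CTL` (helper98): continuity of the edge weights at a good family
-/

set_option autoImplicit false

open MeasureTheory Set Filter Topology

namespace Pool.G1

namespace CTL

open Pool.T3 (R3 dt cr de K V S H Fam Pos pt Lam Q J lin)

variable {ι : Type}

/-! ## algebra -/

theorem dt_comm (a b : R3) : dt a b = dt b a := by simp only [dt]; ring

theorem dt_add (a x x' : R3) : dt a (x + x') = dt a x + dt a x' := by
  simp only [dt, Pi.add_apply]; ring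

theorem dt_smul' (a x : R3) (c : ℝ) : dt a (c • x) = c * dt a x := by
  simp only [dt, Pi.smul_apply, smul_eq_mul]; ring

theorem dt_self_pos (n : R3) (h : n ≠ 0) : 0 < dt n n := by
  have h0 : 0 ≤ dt n n := by
    simp only [dt]
    nlinarith [mul_self_nonneg (n 0), mul_self_nonneg (n 1), mul_self_nonneg (n 2)]
  rcases h0.lt_or_eq with h1 | h1
  · exact h1
  · exfalso
    apply h
    have h1' : n 0 * n 0 + n 1 * n 1 + n 2 * n 2 = 0 := h1.symm
    have e0 : n 0 = 0 := by
      nlinarith [mul_self_nonneg (n 0), mul_self_nonneg (n 1), mul_self_nonneg (n 2)]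
    have e1 : n 1 = 0 := by
      nlinarith [mul_self_nonneg (n 0), mul_self_nonneg (n 1), mul_self_nonneg (n 2)]
    have e2 : n 2 = 0 := by
      nlinarith [mul_self_nonneg (n 0), mul_self_nonneg (n 1), mul_self_nonneg (n 2)]
    funext k
    fin_cases k
    · exact e0
    · exact e1
    · exact e2

theorem id1 (a b : R3) : dt a (cr b (cr a b)) = dt (cr a b) (cr a b) := by
  simp only [dt, cr, Matrix.cons_val_zero, Matrix.cons_val_one, Matrix.cons_val]; ring

theorem id2 (a b : R3) : dt a (cr (cr a b) a) = 0 := by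
  simp only [dt, cr, Matrix.cons_val_zero, Matrix.cons_val_one, Matrix.cons_val]; ring

theorem id3 (a b : R3) : dt b (cr b (cr a b)) = 0 := by
  simp only [dt, cr, Matrix.cons_val_zero, Matrix.cons_val_one, Matrix.cons_val]; ring

theorem id4 (a b : R3) : dt b (cr (cr a b) a) = dt (cr a b) (cr a b) := by
  simp only [dt, cr, Matrix.cons_val_zero, Matrix.cons_val_one, Matrix.cons_val]; ring

theorem id5 (a b : R3) : dt (cr a b) (cr b (cr a b)) = 0 := by
  simp only [dt, cr, Matrix.cons_val_zero, Matrix.cons_val_one, Matrix.cons_val]; ring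

theorem id6 (a b : R3) : dt (cr a b) (cr (cr a b) a) = 0 := by
  simp only [dt, cr, Matrix.cons_val_zero, Matrix.cons_val_one, Matrix.cons_val]; ring

theorem id7 (a b : R3) : dt a (cr a b) = 0 := by
  simp only [dt, cr, Matrix.cons_val_zero, Matrix.cons_val_one, Matrix.cons_val]; ring

theorem id8 (a b : R3) : dt b (cr a b) = 0 := by
  simp only [dt, cr, Matrix.cons_val_zero, Matrix.cons_val_one, Matrix.cons_val]; ring

/-- expansion of `v` in the basis `a, b, a × b` -/
theorem expand (a b v : R3) : dt (cr a b) (cr a b) • v =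
    dt v (cr b (cr a b)) • a + dt v (cr (cr a b) a) • b + dt (cr a b) v • cr a b := by
  funext j
  fin_cases j <;>
    simp only [dt, cr, Matrix.cons_val_zero, Matrix.cons_val_one, Matrix.cons_val, Pi.add_apply,
      Pi.smul_apply, smul_eq_mul, Fin.zero_eta, Fin.mk_one, Fin.reduceFinMk] <;> ring

theorem dt_pt (y : ι → R3) (i k : ι) (α β : ℝ) (v : R3) :
    dt v (pt y i k α β) = (1 / dt (cr (y i) (y k)) (cr (y i) (y k))) *
      (α * dt v (cr (y k) (cr (y i) (y k))) + β * dt v (cr (cr (y i) (y k)) (y i))) := by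
  unfold pt
  rw [dt_smul', dt_add, dt_smul', dt_smul']

/-! ## continuity -/

theorem cont_cr {X : Type} [TopologicalSpace X] {f g : X → R3} (hf : Continuous f)
    (hg : Continuous g) : Continuous (fun x => cr (f x) (g x)) := by
  have f0 := (continuous_apply (0 : Fin 3)).comp hf
  have f1 := (continuous_apply (1 : Fin 3)).comp hf
  have f2 := (continuous_apply (2 : Fin 3)).comp hf
  have g0 := (continuous_apply (0 : Fin 3)).comp hg
  have g1 := (continuous_apply (1 : Fin 3)).comp hg
  have g2 := (continuous_apply (2 : Fin 3)).comp hg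
  refine continuous_pi fun j => ?_
  fin_cases j
  · exact (f1.mul g2).sub (f2.mul g1)
  · exact (f2.mul g0).sub (f0.mul g2)
  · exact (f0.mul g1).sub (f1.mul g0)

theorem cont_D (i k m : ι) : Continuous (fun y : ι → R3 => de (y i) (y k) (y m)) :=
  CTV.cont_dt (cont_cr (continuous_apply i) (continuous_apply k)) (continuous_apply m)

theorem cont_N (i k : ι) : Continuous (fun y : ι → R3 => dt (cr (y i) (y k)) (cr (y i) (y k))) :=
  CTV.cont_dt (cont_cr (continuous_apply i) (continuous_apply k))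
    (cont_cr (continuous_apply i) (continuous_apply k))

theorem cont_A (y : ι → R3) (i k m : ι) (s : ℝ) (h : dt (cr (y i) (y k)) (cr (y i) (y k)) ≠ 0) :
    ContinuousAt (fun y : ι → R3 => dt (y m) (pt y i k 1 s)) y := by
  have hc := cont_cr (continuous_apply (A := fun _ : ι => R3) i) (continuous_apply k)
  have e : (fun y : ι → R3 => dt (y m) (pt y i k 1 s)) = fun y : ι → R3 =>
      (1 / dt (cr (y i) (y k)) (cr (y i) (y k))) *
      (1 * dt (y m) (cr (y k) (cr (y i) (y k))) + s * dt (y m) (cr (cr (y i) (y k)) (y i))) := by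
    funext y
    exact dt_pt y i k 1 s (y m)
  rw [e]
  refine ContinuousAt.mul ?_ ?_
  · exact continuousAt_const.div (cont_N i k).continuousAt h
  · exact ((continuous_const.mul (CTV.cont_dt (continuous_apply m)
      (cont_cr (continuous_apply k) hc))).add (continuous_const.mul
        (CTV.cont_dt (continuous_apply m) (cont_cr hc (continuous_apply i))))).continuousAt

/-- the chord -/
def Ch (i k : ι) (s : ℝ) (y : ι → R3) : Set ℝ := {c : ℝ | ∀ m, m ≠ i → m ≠ k →
    |dt (y m) (pt y i k 1 s) + c * de (y i) (y k) (y m)| ≤ 1}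

theorem closed_Ch (i k : ι) (s : ℝ) (y : ι → R3) : IsClosed (Ch i k s y) := by
  have : Ch i k s y = ⋂ m, ⋂ (_ : m ≠ i), ⋂ (_ : m ≠ k),
      {c : ℝ | |dt (y m) (pt y i k 1 s) + c * de (y i) (y k) (y m)| ≤ 1} := by
    ext c
    simp only [Ch, mem_iInter, mem_ofPred_eq]
  rw [this]
  refine isClosed_iInter fun m => isClosed_iInter fun _ => isClosed_iInter fun _ => ?_
  exact isClosed_le ((continuous_const.add (continuous_id.mul continuous_const)).abs)
    continuous_const

/-- points of the chord are in the body -/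
theorem mem_of_Ch (i k : ι) (s : ℝ) (hs : s = 1 ∨ s = -1) (y : ι → R3)
    (h : dt (cr (y i) (y k)) (cr (y i) (y k)) ≠ 0) (c : ℝ) (hc : c ∈ Ch i k s y) :
    pt y i k 1 s + c • cr (y i) (y k) ∈ KK y := by
  intro m
  change |dt (y m) (pt y i k 1 s + c • cr (y i) (y k))| ≤ 1
  rw [dt_add, dt_smul']
  by_cases hi : m = i
  · subst hi
    rw [dt_pt, id1, id2, id7]
    have : 1 / dt (cr (y m) (y k)) (cr (y m) (y k)) *
        (1 * dt (cr (y m) (y k)) (cr (y m) (y k)) + s * 0) + c * 0 = 1 := by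
      field_simp
      ring
    rw [this]; simp
  · by_cases hk : m = k
    · subst hk
      rw [dt_pt, id3, id4, id8]
      have : 1 / dt (cr (y i) (y m)) (cr (y i) (y m)) *
          (1 * 0 + s * dt (cr (y i) (y m)) (cr (y i) (y m))) + c * 0 = s := by
        field_simp
        ring
      rw [this]
      rcases hs with h | h <;> simp [h]
    · have h1 := hc m hi hk
      rw [dt_comm (y m) (cr (y i) (y k))]
      exact h1

/-- the coordinate along the edge -/
theorem c_eq (i k : ι) (s : ℝ) (y : ι → R3) (c : ℝ) :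
    dt (cr (y i) (y k)) (pt y i k 1 s + c • cr (y i) (y k)) =
      c * dt (cr (y i) (y k)) (cr (y i) (y k)) := by
  rw [dt_add, dt_smul', dt_pt, id5, id6]; ring

/-- uniform bound -/
theorem Ch_bound [Fintype ι] (i k : ι) (s : ℝ) (hs : s = 1 ∨ s = -1) (y : ι → R3)
    (h : dt (cr (y i) (y k)) (cr (y i) (y k)) ≠ 0) (R : ℝ) (hR : ∀ x ∈ KK y, ∀ k, |x k| ≤ R) :
    ∃ B : ℝ, ∀ᶠ y' in 𝓝 y, Ch i k s y' ⊆ Icc (-B) B := by
  have hcr := cont_cr (continuous_apply (A := fun _ : ι => R3) i) (continuous_apply k)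
  set N := dt (cr (y i) (y k)) (cr (y i) (y k)) with hN
  have hNpos : 0 < N := by
    apply dt_self_pos
    intro h0
    apply h
    rw [hN, h0]
    simp [dt]
  have hR0 := CTV.R_nonneg y R hR
  set M : ℝ := |cr (y i) (y k) 0| + |cr (y i) (y k) 1| + |cr (y i) (y k) 2| + 3 with hM
  refine ⟨M * (R + 1) / (N / 2), ?_⟩
  have e1 : ∀ᶠ y' in 𝓝 y, N / 2 < dt (cr (y' i) (y' k)) (cr (y' i) (y' k)) :=
    (cont_N i k).continuousAt.eventually (lt_mem_nhds (show N / 2 <
      dt (cr (y i) (y k)) (cr (y i) (y k)) by rw [← hN]; linarith))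
  have e2 : ∀ᶠ y' in 𝓝 y, ∀ j : Fin 3, |cr (y' i) (y' k) j| < |cr (y i) (y k) j| + 1 := by
    rw [eventually_all]
    intro j
    have : ContinuousAt (fun y' : ι → R3 => |cr (y' i) (y' k) j|) y :=
      (((continuous_apply j).comp hcr).abs).continuousAt
    exact this.eventually (gt_mem_nhds (by linarith))
  filter_upwards [e1, e2, CTV.bound_near y R hR] with y' h1 h2 h3 c hc
  have hne : dt (cr (y' i) (y' k)) (cr (y' i) (y' k)) ≠ 0 := by
    have : 0 < dt (cr (y' i) (y' k)) (cr (y' i) (y' k)) := by linarith [half_pos hNpos]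
    exact this.ne'
  have hx := h3 _ (mem_of_Ch i k s hs y' hne c hc)
  set x := pt y' i k 1 s + c • cr (y' i) (y' k) with hxdef
  have hce := c_eq i k s y' c
  rw [← hxdef] at hce
  have hb : |c * dt (cr (y' i) (y' k)) (cr (y' i) (y' k))| ≤ M * (R + 1) := by
    rw [← hce]
    have t0 : |cr (y' i) (y' k) 0 * x 0| ≤ (|cr (y i) (y k) 0| + 1) * (R + 1) := by
      rw [abs_mul]
      exact mul_le_mul (h2 0).le (hx 0) (abs_nonneg _) (by positivity)
    have t1 : |cr (y' i) (y' k) 1 * x 1| ≤ (|cr (y i) (y k) 1| + 1) * (R + 1) := by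
      rw [abs_mul]
      exact mul_le_mul (h2 1).le (hx 1) (abs_nonneg _) (by positivity)
    have t2 : |cr (y' i) (y' k) 2 * x 2| ≤ (|cr (y i) (y k) 2| + 1) * (R + 1) := by
      rw [abs_mul]
      exact mul_le_mul (h2 2).le (hx 2) (abs_nonneg _) (by positivity)
    have : dt (cr (y' i) (y' k)) x = cr (y' i) (y' k) 0 * x 0 + cr (y' i) (y' k) 1 * x 1 +
      cr (y' i) (y' k) 2 * x 2 := rfl
    rw [this]
    calc |cr (y' i) (y' k) 0 * x 0 + cr (y' i) (y' k) 1 * x 1 + cr (y' i) (y' k) 2 * x 2| ≤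
        |cr (y' i) (y' k) 0 * x 0| + |cr (y' i) (y' k) 1 * x 1| + |cr (y' i) (y' k) 2 * x 2| :=
          abs_add_three _ _ _
      _ ≤ M * (R + 1) := by rw [hM]; nlinarith
  rw [abs_mul, abs_of_pos (by linarith [half_pos hNpos] :
    0 < dt (cr (y' i) (y' k)) (cr (y' i) (y' k)))] at hb
  have hc2 : |c| * (N / 2) ≤ M * (R + 1) := by
    refine le_trans ?_ hb
    exact mul_le_mul_of_nonneg_left h1.le (abs_nonneg _)
  have hc3 : |c| ≤ M * (R + 1) / (N / 2) := by
    rw [le_div_iff₀ (half_pos hNpos)]; exact hc2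
  exact ⟨by linarith [neg_abs_le c], by linarith [le_abs_self c]⟩

/-- no collinear triples: if the edge direction is in the plane `y m`, the value is not `±1` -/
theorem no_touch [Fintype ι] (hG : Stmt_GTR) (y : ι → R3) (hy : Good y) (i k m : ι) (hik : i ≠ k)
    (hi : m ≠ i) (hk : m ≠ k) (s : ℝ) (hs : s = 1 ∨ s = -1) (hD : de (y i) (y k) (y m) = 0) :
    |dt (y m) (pt y i k 1 s)| ≠ 1 := by
  have hn : cr (y i) (y k) ≠ 0 := hy.np i k hik
  set N := dt (cr (y i) (y k)) (cr (y i) (y k)) with hN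
  have hNpos : 0 < N := dt_self_pos _ hn
  set α := dt (y m) (cr (y k) (cr (y i) (y k))) / N with hα
  set β := dt (y m) (cr (cr (y i) (y k)) (y i)) / N with hβ
  have hv : y m = α • y i + β • y k := by
    have h1 := expand (y i) (y k) (y m)
    have hD' : dt (cr (y i) (y k)) (y m) = 0 := hD
    rw [hD', zero_smul, add_zero, ← hN] at h1
    have h2 : y m = (1 / N) • (N • y m) := by
      rw [smul_smul, one_div, inv_mul_cancel₀ hNpos.ne', one_smul]
    rw [h2, h1, smul_add, smul_smul, smul_smul, hα, hβ, one_div_mul_eq_div, one_div_mul_eq_div]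
  have hA : dt (y m) (pt y i k 1 s) = α + β * s := by
    rw [dt_pt, hα, hβ, ← hN]; ring
  intro habs
  rw [hA] at habs
  have hs2 : s * s = 1 := by rcases hs with h | h <;> rw [h] <;> norm_num
  -- the sign of the value
  obtain ⟨σ, hσ, hσv⟩ : ∃ σ : ℝ, (σ = 1 ∨ σ = -1) ∧ σ * (α + β * s) = 1 := by
    rcases (abs_eq (by norm_num : (0 : ℝ) ≤ 1)).mp habs with h | h
    · exact ⟨1, Or.inl rfl, by rw [h]; norm_num⟩
    · exact ⟨-1, Or.inr rfl, by rw [h]; norm_num⟩
  obtain ⟨b1, hb1⟩ : ∃ b1 : Bool, sy y (k, b1) = s • y k := by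
    rcases hs with h | h
    · exact ⟨true, by simp [sy, h]⟩
    · exact ⟨false, by simp [sy, h]⟩
  obtain ⟨b2, hb2⟩ : ∃ b2 : Bool, sy y (m, b2) = σ • y m := by
    rcases hσ with h | h
    · exact ⟨true, by simp [sy, h]⟩
    · exact ⟨false, by simp [sy, h]⟩
  refine hG ι y hy (i, true) (k, b1) (m, b2) hik (Ne.symm hi) (Ne.symm hk) (σ * α) (σ * (β * s))
    (by rw [← mul_add]; exact hσv) ?_
  rw [hb1, hb2]
  have : sy y (i, true) = y i := by simp [sy]
  rw [this, smul_smul]
  conv_lhs => rw [hv]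
  rw [smul_add, smul_smul, smul_smul]
  congr 2
  calc σ * β = σ * β * (s * s) := by rw [hs2, mul_one]
    _ = σ * (β * s) * s := by ring

/-- almost every parameter is stable -/
theorem ev_Ch [Fintype ι] (hG : Stmt_GTR) (y : ι → R3) (hy : Good y) (i k : ι) (hik : i ≠ k)
    (s : ℝ) (hs : s = 1 ∨ s = -1) :
    ∀ᵐ c : ℝ, ∀ᶠ y' in 𝓝 y, (c ∈ Ch i k s y' ↔ c ∈ Ch i k s y) := by
  have hn : cr (y i) (y k) ≠ 0 := hy.np i k hik
  have hN : dt (cr (y i) (y k)) (cr (y i) (y k)) ≠ 0 := (dt_self_pos _ hn).ne'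
  have h1 : ∀ᵐ c : ℝ, ∀ m, m ≠ i → m ≠ k →
      |dt (y m) (pt y i k 1 s) + c * de (y i) (y k) (y m)| ≠ 1 := by
    rw [ae_all_iff]
    intro m
    by_cases hi : m = i
    · exact Eventually.of_forall fun c h => absurd hi h
    by_cases hk : m = k
    · exact Eventually.of_forall fun c _ h => absurd hk h
    by_cases hD : de (y i) (y k) (y m) = 0
    · refine Eventually.of_forall fun c _ _ => ?_
      rw [hD, mul_zero, add_zero]
      exact no_touch hG y hy i k m hik hi hk s hs hD
    · have hfin : (({(1 - dt (y m) (pt y i k 1 s)) / de (y i) (y k) (y m),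
          (-1 - dt (y m) (pt y i k 1 s)) / de (y i) (y k) (y m)} : Set ℝ)).Finite := by
        exact (Set.finite_singleton _).insert _
      have hnull := hfin.measure_zero (volume : Measure ℝ)
      have := compl_mem_ae_iff.mpr hnull
      filter_upwards [this] with c hc _ _ habs
      apply hc
      rcases (abs_eq (by norm_num : (0 : ℝ) ≤ 1)).mp habs with h | h
      · left
        rw [eq_div_iff hD]; linarith
      · right
        rw [mem_singleton_iff, eq_div_iff hD]; linarith
  filter_upwards [h1] with c hc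
  have h2 : ∀ᶠ y' in 𝓝 y, ∀ m, (m ≠ i → m ≠ k →
      |dt (y' m) (pt y' i k 1 s) + c * de (y' i) (y' k) (y' m)| ≤ 1) ↔
      (m ≠ i → m ≠ k → |dt (y m) (pt y i k 1 s) + c * de (y i) (y k) (y m)| ≤ 1) := by
    rw [eventually_all]
    intro m
    by_cases hi : m = i
    · exact Eventually.of_forall fun y' => ⟨fun _ h => absurd hi h, fun _ h => absurd hi h⟩
    by_cases hk : m = k
    · exact Eventually.of_forall fun y' => ⟨fun _ _ h => absurd hk h, fun _ _ h => absurd hk h⟩
    have := CTV.stab (fun y' : ι → R3 => |dt (y' m) (pt y' i k 1 s) +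
      c * de (y' i) (y' k) (y' m)|) (fun _ => (1 : ℝ)) y
      ((cont_A y i k m s hN).add (continuousAt_const.mul (cont_D i k m).continuousAt)).abs
      continuousAt_const (hc m hi hk)
    filter_upwards [this] with y' hy'
    exact ⟨fun h a b => hy'.mp (h a b), fun h a b => hy'.mpr (h a b)⟩
  filter_upwards [h2] with y' hy'
  exact forall_congr' hy'

/-- continuity of the chord length -/
theorem cont_Lam [Fintype ι] (hG : Stmt_GTR) (y : ι → R3) (hy : Good y) (i k : ι) (hik : i ≠ k)
    (s : ℝ) (hs : s = 1 ∨ s = -1) :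
    ContinuousAt (fun y : ι → R3 => Lam y i k 1 s (fun _ => (1 : ℝ))) y := by
  have hn : cr (y i) (y k) ≠ 0 := hy.np i k hik
  have hN : dt (cr (y i) (y k)) (cr (y i) (y k)) ≠ 0 := (dt_self_pos _ hn).ne'
  obtain ⟨R, hR⟩ := hy.bd
  obtain ⟨B, hB⟩ := Ch_bound i k s hs y hN R hR
  have hfin : volume (Icc (-B) B) ≠ ⊤ := by
    rw [Real.volume_Icc]; exact ENNReal.ofReal_ne_top
  have h := tendsto_measure_of_ae_tendsto_indicator (μ := (volume : Measure ℝ)) (𝓝 y)
    (A := Ch i k s y) (As := Ch i k s) (closed_Ch i k s y).measurableSet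
    (fun y' => (closed_Ch i k s y').measurableSet)
    (B := Icc (-B) B) measurableSet_Icc hfin hB (ev_Ch hG y hy i k hik s hs)
  have hfin2 : volume (Ch i k s y) ≠ ⊤ :=
    ne_top_of_le_ne_top hfin (measure_mono hB.self_of_nhds)
  exact (ENNReal.tendsto_toReal hfin2).comp h

end CTL

/-- block `CTL` -/
theorem blk_CTL (hG : Stmt_GTR) : Stmt_CTL := by
  intro ι _ y hy i k hik
  unfold cc
  exact continuousAt_const.mul ((CTL.cont_Lam hG y hy i k hik 1 (Or.inl rfl)).add
    (CTL.cont_Lam hG y hy i k hik (-1) (Or.inr rfl)))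

end Pool.G1
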