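import Pool.Agent.Work.MP_b5407d_g1.HUdef

/-!
# G1: proof of the hinge bound (H_u)
-/

set_option autoImplicit false

namespace Pool.G1

namespace HUaux

lemma dp_comm (a b : R2) : dp a b = dp b a := by unfold dp; ring
lemma dp_add_left (a b c : R2) : dp (a + b) c = dp a c + dp b c := by
  simp only [dp, Prod.fst_add, Prod.snd_add]; ring
lemma dp_sub_left (a b c : R2) : dp (a - b) c = dp a c - dp b c := by
  simp only [dp, Prod.fst_sub, Prod.snd_sub]; ring
lemma dp_add_right (a b c : R2) : dp a (b + c) = dp a b + dp a c := by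
  simp only [dp, Prod.fst_add, Prod.snd_add]; ring
lemma dp_sub_right (a b c : R2) : dp a (b - c) = dp a b - dp a c := by
  simp only [dp, Prod.fst_sub, Prod.snd_sub]; ring
lemma dp_smul_left (t : ℝ) (a b : R2) : dp (t • a) b = t * dp a b := by
  simp only [dp, Prod.smul_fst, Prod.smul_snd, smul_eq_mul]; ring
lemma dp_smul_right (t : ℝ) (a b : R2) : dp a (t • b) = t * dp a b := by
  simp only [dp, Prod.smul_fst, Prod.smul_snd, smul_eq_mul]; ring
lemma dp_rt (a b : R2) : dp a (rt b) = cp b a := by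
  simp only [dp, cp, rt]; ring
lemma dp_rt_left (a b : R2) : dp (rt a) b = cp a b := by
  simp only [dp, cp, rt]; ring
lemma cp_self (a : R2) : cp a a = 0 := by simp only [cp]; ring
lemma cp_anti (a b : R2) : cp a b = -cp b a := by simp only [cp]; ring
lemma dp_zero_left (a : R2) : dp 0 a = 0 := by simp [dp]
lemma dp_zero_right (a : R2) : dp a 0 = 0 := by simp [dp]
lemma cp_rt_rt (a b : R2) : cp (rt a) (rt b) = cp a b := by simp only [cp, rt]; ring
lemma dp_rt_rt (a b : R2) : dp (rt a) (rt b) = dp a b := by simp only [dp, rt]; ring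

/-- two scalar products determine a vector -/
lemma eq_of_dp (a b x y : R2) (hc : cp a b ≠ 0) (h1 : dp x a = dp y a) (h2 : dp x b = dp y b) :
    x = y := by
  have e1 : cp a b * (x.1 - y.1) = 0 := by
    simp only [dp, cp] at *
    linear_combination b.2 * h1 - a.2 * h2
  have e2 : cp a b * (x.2 - y.2) = 0 := by
    simp only [dp, cp] at *
    linear_combination a.1 * h2 - b.1 * h1
  rcases mul_eq_zero.1 e1 with h | h
  · exact absurd h hc
  rcases mul_eq_zero.1 e2 with h' | h'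
  · exact absurd h' hc
  exact Prod.ext (by linarith) (by linarith)

lemma ve_left (ν : ℕ → R2) (δ : ℕ → ℝ) (i : ℕ) (hc : cp (ν i) (ν (i + 1)) ≠ 0) :
    dp (ve ν δ i) (ν i) = δ i := by
  unfold ve
  rw [dp_smul_left, dp_sub_left, dp_smul_left, dp_smul_left, dp_rt_left, dp_rt_left, cp_self,
    cp_anti (ν (i + 1)) (ν i)]
  field_simp
  ring

lemma ve_right (ν : ℕ → R2) (δ : ℕ → ℝ) (i : ℕ) (hc : cp (ν i) (ν (i + 1)) ≠ 0) :
    dp (ve ν δ i) (ν (i + 1)) = δ (i + 1) := by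
  unfold ve
  rw [dp_smul_left, dp_sub_left, dp_smul_left, dp_smul_left, dp_rt_left, dp_rt_left, cp_self]
  field_simp
  ring

lemma ve_add (ν : ℕ → R2) (δ η : ℕ → ℝ) (i : ℕ) :
    ve ν (fun j => δ j + η j) i = ve ν δ i + ve ν η i := by
  unfold ve
  ext <;> simp only [Prod.smul_fst, Prod.smul_snd, Prod.fst_add, Prod.snd_add, Prod.fst_sub,
    Prod.snd_sub, smul_eq_mul] <;> ring

lemma ve_smul (ν : ℕ → R2) (c : ℝ) (δ : ℕ → ℝ) (i : ℕ) :
    ve ν (fun j => c * δ j) i = c • ve ν δ i := by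
  unfold ve
  ext <;> simp only [Prod.smul_fst, Prod.smul_snd, Prod.fst_sub,
    Prod.snd_sub, smul_eq_mul] <;> ring

lemma B2_add_left (n : ℕ) (ν v : ℕ → R2) (ℓ : ℕ → ℝ) (r : ℝ × R2) (δ δ' η : ℕ → ℝ) :
    B2 n ν v ℓ r (fun j => δ j + δ' j) η = B2 n ν v ℓ r δ η + B2 n ν v ℓ r δ' η := by
  unfold B2
  rw [← Finset.sum_add_distrib]
  exact Finset.sum_congr rfl (fun i _ => by ring)

lemma B2_smul_left (n : ℕ) (ν v : ℕ → R2) (ℓ : ℕ → ℝ) (r : ℝ × R2) (c : ℝ) (δ η : ℕ → ℝ) :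
    B2 n ν v ℓ r (fun j => c * δ j) η = c * B2 n ν v ℓ r δ η := by
  unfold B2
  rw [Finset.mul_sum]
  exact Finset.sum_congr rfl (fun i _ => by ring)

lemma B2_add_right (n : ℕ) (ν v : ℕ → R2) (ℓ : ℕ → ℝ) (r : ℝ × R2) (δ η η' : ℕ → ℝ) :
    B2 n ν v ℓ r δ (fun j => η j + η' j) = B2 n ν v ℓ r δ η + B2 n ν v ℓ r δ η' := by
  unfold B2
  rw [← Finset.sum_add_distrib]
  refine Finset.sum_congr rfl (fun i _ => ?_)
  rw [ve_add, ve_add]
  simp only [dp, Prod.fst_add, Prod.snd_add, Prod.fst_sub, Prod.snd_sub]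
  ring

lemma B2_smul_right (n : ℕ) (ν v : ℕ → R2) (ℓ : ℕ → ℝ) (r : ℝ × R2) (c : ℝ) (δ η : ℕ → ℝ) :
    B2 n ν v ℓ r δ (fun j => c * η j) = c * B2 n ν v ℓ r δ η := by
  unfold B2
  rw [Finset.mul_sum]
  refine Finset.sum_congr rfl (fun i _ => ?_)
  rw [ve_smul, ve_smul]
  simp only [dp, Prod.fst_add, Prod.snd_add, Prod.fst_sub, Prod.snd_sub, Prod.smul_fst,
    Prod.smul_snd, smul_eq_mul]
  ring

lemma B2_lin3_left (n : ℕ) (ν v : ℕ → R2) (ℓ : ℕ → ℝ) (r : ℝ × R2) (a c : ℝ)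
    (x y z w : ℕ → ℝ) :
    B2 n ν v ℓ r (fun j => x j + a * y j + c * z j) w =
      B2 n ν v ℓ r x w + a * B2 n ν v ℓ r y w + c * B2 n ν v ℓ r z w := by
  rw [B2_add_left n ν v ℓ r (fun j => x j + a * y j) (fun j => c * z j) w,
    B2_add_left n ν v ℓ r x (fun j => a * y j) w, B2_smul_left, B2_smul_left]

lemma B2_lin3_right (n : ℕ) (ν v : ℕ → R2) (ℓ : ℕ → ℝ) (r : ℝ × R2) (a c : ℝ)
    (x y z w : ℕ → ℝ) :
    B2 n ν v ℓ r w (fun j => x j + a * y j + c * z j) =
      B2 n ν v ℓ r w x + a * B2 n ν v ℓ r w y + c * B2 n ν v ℓ r w z := by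
  rw [B2_add_right n ν v ℓ r w (fun j => x j + a * y j) (fun j => c * z j),
    B2_add_right n ν v ℓ r w x (fun j => a * y j), B2_smul_right, B2_smul_right]

lemma sum_shift (n : ℕ) (g : ℕ → ℝ) (hg : ∀ i, g (i + n) = g i) :
    ∑ i ∈ Finset.range n, g (i + 1) = ∑ i ∈ Finset.range n, g i := by
  have h1 := Finset.sum_range_succ' g n
  have h2 := Finset.sum_range_succ g n
  have h3 : g n = g 0 := by
    have := hg 0
    rwa [Nat.zero_add] at this
  linarith

lemma per_mod {α : Type*} (n : ℕ) (g : ℕ → α) (hg : ∀ i, g (i + n) = g i) (k : ℕ) :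
    g (k % n) = g k :=
  Function.Periodic.map_mod_nat (f := g) hg k

lemma unit_par (a b : R2) (ha : dp a a = 1) (hb : dp b b = 1) (hc : cp a b = 0) :
    b = a ∨ b = -a := by
  have h1 : (dp a b - 1) * (dp a b + 1) = 0 := by
    simp only [dp, cp] at *
    linear_combination (b.1 * b.1 + b.2 * b.2) * ha + hb - (a.1 * b.2 - a.2 * b.1) * hc
  rcases mul_eq_zero.1 h1 with h | h
  · left
    have h2 : (b.1 - a.1) ^ 2 + (b.2 - a.2) ^ 2 = 0 := by
      simp only [dp] at *
      linear_combination ha + hb - 2 * h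
    have h3 : b.1 - a.1 = 0 := by nlinarith [sq_nonneg (b.1 - a.1), sq_nonneg (b.2 - a.2)]
    have h4 : b.2 - a.2 = 0 := by nlinarith [sq_nonneg (b.1 - a.1), sq_nonneg (b.2 - a.2)]
    exact Prod.ext (by linarith) (by linarith)
  · right
    have h2 : (b.1 + a.1) ^ 2 + (b.2 + a.2) ^ 2 = 0 := by
      simp only [dp] at *
      linear_combination ha + hb + 2 * h
    have h3 : b.1 + a.1 = 0 := by nlinarith [sq_nonneg (b.1 + a.1), sq_nonneg (b.2 + a.2)]
    have h4 : b.2 + a.2 = 0 := by nlinarith [sq_nonneg (b.1 + a.1), sq_nonneg (b.2 + a.2)]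
    exact Prod.ext (by simp only [Prod.fst_neg]; linarith) (by simp only [Prod.snd_neg]; linarith)

/-- Cramer -/
lemma comb (a b w x : R2) : cp a b * dp w x = cp w b * dp a x + cp a w * dp b x := by
  simp only [dp, cp]; ring

/-- orthonormal expansion -/
lemma expand (a w z : R2) (ha : dp a a = 1) :
    dp w z = dp w a * dp z a + dp w (rt a) * dp z (rt a) := by
  simp only [dp, rt] at *
  linear_combination (-(w.1 * z.1 + w.2 * z.2)) * ha

section
variable {n : ℕ} {ν v : ℕ → R2} {ℓ : ℕ → ℝ} (P : Poly n ν v ℓ)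
include P

lemma edge_dp (i : ℕ) : dp (ν i) (v (i + 1)) = dp (ν i) (v i) := by
  rw [P.edge i, dp_add_right, dp_smul_right, dp_rt, cp_self]
  ring

lemma vert_zero {k : ℕ} {W : ℝ} (hW : ∀ j, dp (ν k) (v k - v j) ≤ W) {j0 : ℕ}
    (hj0 : dp (ν k) (v k - v j0) = W) (i : ℕ) (h1 : 0 < cp (ν k) (ν i))
    (h2 : cp (ν k) (ν (i + 1)) < 0) : af (sk ν v W k) (v (i + 1)) = 0 := by
  have hc := P.turn i
  have key := comb (ν i) (ν (i + 1)) (ν k) (v j0 - v (i + 1))
  have e1 : dp (ν i) (v j0 - v (i + 1)) ≤ 0 := by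
    rw [dp_sub_right, edge_dp P i]
    linarith [P.conv i j0]
  have e2 : dp (ν (i + 1)) (v j0 - v (i + 1)) ≤ 0 := by
    rw [dp_sub_right]
    linarith [P.conv (i + 1) j0]
  have h3 : cp (ν i) (ν k) < 0 := by rw [cp_anti]; linarith
  have e3 : 0 ≤ dp (ν k) (v j0 - v (i + 1)) := by
    have : 0 ≤ cp (ν i) (ν (i + 1)) * dp (ν k) (v j0 - v (i + 1)) := by
      rw [key]
      have := mul_nonneg_of_nonpos_of_nonpos h2.le e1
      have := mul_nonneg_of_nonpos_of_nonpos h3.le e2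
      linarith
    exact nonneg_of_mul_nonneg_right this hc
  have e4 := hW (i + 1)
  rw [dp_sub_right] at e3 e4 hj0
  show W - dp (ν k) (v k) + dp (ν k) (v (i + 1)) = 0
  linarith

lemma no_up {k : ℕ} (i : ℕ) (h1 : cp (ν k) (ν i) < 0) (h2 : 0 < cp (ν k) (ν (i + 1))) : False := by
  have hc := P.turn i
  have h3 : 0 < cp (ν i) (ν k) := by rw [cp_anti]; linarith
  have main : ∀ j, dp (ν k) (v (i + 1)) ≤ dp (ν k) (v j) → v j = v (i + 1) := by
    intro j hj
    have key := comb (ν i) (ν (i + 1)) (ν k) (v j - v (i + 1))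
    have e1 : dp (ν i) (v j - v (i + 1)) ≤ 0 := by
      rw [dp_sub_right, edge_dp P i]
      linarith [P.conv i j]
    have e2 : dp (ν (i + 1)) (v j - v (i + 1)) ≤ 0 := by
      rw [dp_sub_right]
      linarith [P.conv (i + 1) j]
    have e3 : 0 ≤ dp (ν k) (v j - v (i + 1)) := by rw [dp_sub_right]; linarith
    have e4 : 0 ≤ cp (ν i) (ν (i + 1)) * dp (ν k) (v j - v (i + 1)) := mul_nonneg hc.le e3
    have f1 := mul_nonneg h2.le (neg_nonneg.2 e1)
    have f2 := mul_nonneg h3.le (neg_nonneg.2 e2)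
    have g1 : cp (ν k) (ν (i + 1)) * dp (ν i) (v j - v (i + 1)) = 0 := by linarith
    have g2 : cp (ν i) (ν k) * dp (ν (i + 1)) (v j - v (i + 1)) = 0 := by linarith
    have q1 : dp (ν i) (v j - v (i + 1)) = 0 := (mul_eq_zero.1 g1).resolve_left h2.ne'
    have q2 : dp (ν (i + 1)) (v j - v (i + 1)) = 0 := (mul_eq_zero.1 g2).resolve_left h3.ne'
    rw [dp_sub_right] at q1 q2
    refine eq_of_dp (ν i) (ν (i + 1)) _ _ hc.ne' ?_ ?_
    · rw [dp_comm _ (ν i), dp_comm _ (ν i)]; linarith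
    · rw [dp_comm _ (ν (i + 1)), dp_comm _ (ν (i + 1))]; linarith
  have a1 := main k (P.conv k (i + 1))
  have a2 := main (k + 1) (by rw [edge_dp P k]; exact P.conv k (i + 1))
  have a3 := P.edge k
  rw [a1, a2] at a3
  have a4 : dp (ℓ k • rt (ν k)) (rt (ν k)) = 0 := by
    have : ℓ k • rt (ν k) = 0 := by
      have := a3
      exact (left_eq_add.1 this)
    rw [this, dp_zero_left]
  rw [dp_smul_left, dp_rt_rt, P.unit k, mul_one] at a4
  exact absurd a4 (P.pos k).ne'

/-- the velocity of Minkowski addition of a segment parallel to the edge `k` -/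
noncomputable def eseg (ν : ℕ → R2) (k : ℕ) (i : ℕ) : ℝ := max 0 (cp (ν k) (ν i))

lemma ve_seg_pos {k : ℕ} (i : ℕ) (h1 : 0 ≤ cp (ν k) (ν i)) (h2 : 0 ≤ cp (ν k) (ν (i + 1))) :
    ve ν (eseg ν k) i = rt (ν k) := by
  have hc := (P.turn i).ne'
  refine eq_of_dp (ν i) (ν (i + 1)) _ _ hc ?_ ?_
  · rw [ve_left _ _ _ hc, dp_rt_left]
    exact max_eq_right h1
  · rw [ve_right _ _ _ hc, dp_rt_left]
    exact max_eq_right h2

lemma ve_seg_neg {k : ℕ} (i : ℕ) (h1 : cp (ν k) (ν i) ≤ 0) (h2 : cp (ν k) (ν (i + 1)) ≤ 0) :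
    ve ν (eseg ν k) i = 0 := by
  have hc := (P.turn i).ne'
  refine eq_of_dp (ν i) (ν (i + 1)) _ _ hc ?_ ?_
  · rw [ve_left _ _ _ hc, dp_zero_left]
    exact max_eq_left h1
  · rw [ve_right _ _ _ hc, dp_zero_left]
    exact max_eq_left h2

lemma af_next {k : ℕ} (W : ℝ) (j : ℕ) :
    af (sk ν v W k) (v (j + 1)) = af (sk ν v W k) (v j) - ℓ j * cp (ν k) (ν j) := by
  show W - dp (ν k) (v k) + dp (ν k) (v (j + 1)) =
    W - dp (ν k) (v k) + dp (ν k) (v j) - ℓ j * cp (ν k) (ν j)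
  rw [P.edge j, dp_add_right, dp_smul_right, dp_rt, cp_anti (ν j) (ν k)]
  ring

open Classical in
lemma term_eq {k : ℕ} {W : ℝ} (hW : ∀ j, dp (ν k) (v k - v j) ≤ W) {j0 : ℕ}
    (hj0 : dp (ν k) (v k - v j0) = W) (i : ℕ) :
    dp (ve ν (eseg ν k) (i + 1) - ve ν (eseg ν k) i) (rt (ν (i + 1))) *
        ((af (sk ν v W k) (v (i + 1)) + af (sk ν v W k) (v (i + 2))) / 2) +
      ℓ (i + 1) * dp (sk ν v W k).2 (ve ν (eseg ν k) i + ve ν (eseg ν k) (i + 1)) / 2 =
      if ν (i + 1) = ν k then W else 0 := by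
  have hs2 : (sk ν v W k).2 = ν k := rfl
  have hnext := af_next P W (k := k) (i + 1)
  have hτ : dp (ν k) (rt (ν k)) = 0 := by rw [dp_rt, cp_self]
  have hc0 := (P.turn i).ne'
  have hc1 := (P.turn (i + 1)).ne'
  rw [hs2]
  rcases lt_trichotomy (cp (ν k) (ν (i + 1))) 0 with hd | hd | hd
  · -- left side
    have hne : ν (i + 1) ≠ ν k := by
      intro h; rw [h, cp_self] at hd; exact lt_irrefl _ hd
    rw [if_neg hne]
    have hu1 : ve ν (eseg ν k) (i + 1) = 0 := by
      rcases le_or_gt (cp (ν k) (ν (i + 1 + 1))) 0 with h | h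
      · exact ve_seg_neg P (i + 1) hd.le h
      · exact (no_up P (i + 1) hd h).elim
    rw [hu1]
    rcases le_or_gt (cp (ν k) (ν i)) 0 with h | h
    · rw [ve_seg_neg P i h hd.le]
      simp [dp]
    · have hz := vert_zero P hW hj0 i h hd
      have hx : dp (ve ν (eseg ν k) i) (ν (i + 1)) = 0 := by
        rw [ve_right _ _ _ hc0]; exact max_eq_left hd.le
      have hexp := expand (ν (i + 1)) (ν k) (ve ν (eseg ν k) i) (P.unit (i + 1))
      rw [hx, dp_rt, cp_anti (ν (i + 1)) (ν k)] at hexp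
      have hnext' : af (sk ν v W k) (v (i + 2)) = 0 - ℓ (i + 1) * cp (ν k) (ν (i + 1)) := by
        rw [← hz]; exact hnext
      rw [hz, hnext', dp_sub_left, dp_zero_left, add_zero, hexp]
      ring
  · -- parallel
    have hpar := unit_par (ν k) (ν (i + 1)) (P.unit k) (P.unit (i + 1)) hd
    have hsame : af (sk ν v W k) (v (i + 2)) = af (sk ν v W k) (v (i + 1)) := by
      have := hnext
      rw [hd, mul_zero, sub_zero] at this
      exact this
    rw [hsame]
    by_cases hEq : ν (i + 1) = ν k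
    · rw [if_pos hEq]
      have ht0 := P.turn i
      have ht1 := P.turn (i + 1)
      have hci : cp (ν k) (ν i) ≤ 0 := by
        rw [← hEq, cp_anti]; linarith
      have hcj : 0 ≤ cp (ν k) (ν (i + 1 + 1)) := by
        rw [← hEq]; exact ht1.le
      rw [ve_seg_neg P i hci hd.le, ve_seg_pos P (i + 1) hd.ge hcj]
      have hval : af (sk ν v W k) (v (i + 1)) = W := by
        show W - dp (ν k) (v k) + dp (ν k) (v (i + 1)) = W
        have q1 := P.conv k (i + 1)
        have q2 := P.conv (i + 1) k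
        rw [hEq] at q2
        linarith
      rw [hval, sub_zero, dp_rt_rt, hEq, P.unit k, zero_add, hτ]
      ring
    · rw [if_neg hEq]
      have hneg : ν (i + 1) = -ν k := hpar.resolve_left hEq
      have ht0 := P.turn i
      have ht1 := P.turn (i + 1)
      have hci : 0 ≤ cp (ν k) (ν i) := by
        have : cp (ν i) (ν (i + 1)) = cp (ν k) (ν i) := by
          rw [hneg]; simp only [cp, Prod.fst_neg, Prod.snd_neg]; ring
        linarith
      have hcj : cp (ν k) (ν (i + 1 + 1)) ≤ 0 := by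
        have : cp (ν (i + 1)) (ν (i + 1 + 1)) = -cp (ν k) (ν (i + 1 + 1)) := by
          rw [hneg]; simp only [cp, Prod.fst_neg, Prod.snd_neg]; ring
        linarith
      rw [ve_seg_pos P i hci hd.ge, ve_seg_neg P (i + 1) hd.le hcj]
      have hval : af (sk ν v W k) (v (i + 1)) = 0 := by
        show W - dp (ν k) (v k) + dp (ν k) (v (i + 1)) = 0
        have q1 := hW (i + 1)
        have q2 := P.conv (i + 1) j0
        rw [hneg] at q2
        have q3 : ∀ x, dp (-ν k) x = -dp (ν k) x := by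
          intro x; simp only [dp, Prod.fst_neg, Prod.snd_neg]; ring
        rw [q3, q3] at q2
        rw [dp_sub_right] at q1 hj0
        linarith
      rw [hval, add_zero, add_zero, hτ]
      ring
  · -- right side
    have hne : ν (i + 1) ≠ ν k := by
      intro h; rw [h, cp_self] at hd; exact lt_irrefl _ hd
    rw [if_neg hne]
    have hu0 : ve ν (eseg ν k) i = rt (ν k) := by
      rcases lt_or_ge (cp (ν k) (ν i)) 0 with h | h
      · exact (no_up P i h hd).elim
      · exact ve_seg_pos P i h hd.le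
    rw [hu0]
    rcases lt_or_ge (cp (ν k) (ν (i + 1 + 1))) 0 with h | h
    · have hz : af (sk ν v W k) (v (i + 2)) = 0 := vert_zero P hW hj0 (i + 1) hd h
      have hx : dp (ve ν (eseg ν k) (i + 1) - rt (ν k)) (ν (i + 1)) = 0 := by
        rw [dp_sub_left, ve_left _ _ _ hc1, dp_rt_left]
        have : eseg ν k (i + 1) = cp (ν k) (ν (i + 1)) := max_eq_right hd.le
        rw [this]; ring
      have hexp := expand (ν (i + 1)) (ν k) (ve ν (eseg ν k) (i + 1) - rt (ν k))
        (P.unit (i + 1))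
      rw [hx, dp_rt, cp_anti (ν (i + 1)) (ν k), dp_sub_right, hτ] at hexp
      have hv : af (sk ν v W k) (v (i + 1)) = ℓ (i + 1) * cp (ν k) (ν (i + 1)) := by
        have h1 : af (sk ν v W k) (v (i + 2)) =
          af (sk ν v W k) (v (i + 1)) - ℓ (i + 1) * cp (ν k) (ν (i + 1)) := hnext
        linarith
      rw [hz, hv, dp_add_right, hτ]
      have hexp' : dp (ν k) (ve ν (eseg ν k) (i + 1)) =
        -cp (ν k) (ν (i + 1)) *
          dp (ve ν (eseg ν k) (i + 1) - rt (ν k)) (rt (ν (i + 1))) := by linarith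
      rw [hexp']
      ring
    · rw [ve_seg_pos P (i + 1) hd.le h, dp_add_right, hτ, sub_self, dp_zero_left]
      ring

/-- `B2(ξ, e) = W ξ_k` -/
lemma B2_seg (hinj : ∀ i j, i < n → j < n → ν i = ν j → i = j) {k : ℕ} {W : ℝ}
    (hW : ∀ j, dp (ν k) (v k - v j) ≤ W) {j0 : ℕ}
    (hj0 : dp (ν k) (v k - v j0) = W) (ξ : ℕ → ℝ) (hξ : ∀ i, ξ (i + n) = ξ i) :
    B2 n ν v ℓ (sk ν v W k) ξ (eseg ν k) = W * ξ k := by
  classical
  have hn : 0 < n := lt_of_lt_of_le (by norm_num) P.n3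
  have h1 : B2 n ν v ℓ (sk ν v W k) ξ (eseg ν k) =
      ∑ i ∈ Finset.range n, (fun j => ξ j * if ν j = ν k then W else 0) (i + 1) := by
    unfold B2
    refine Finset.sum_congr rfl (fun i _ => ?_)
    rw [term_eq P hW hj0 i]
  rw [h1, sum_shift n (fun j => ξ j * if ν j = ν k then W else 0)
    (fun i => by simp only [hξ i, P.pν i])]
  have hk : k % n < n := Nat.mod_lt _ hn
  rw [Finset.sum_eq_single (k % n)]
  · rw [per_mod n ν P.pν k, per_mod n ξ hξ k, if_pos rfl]
    ring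
  · intro j hj hne
    have hj' := Finset.mem_range.1 hj
    have : ν j ≠ ν k := by
      intro h
      rw [← per_mod n ν P.pν k] at h
      exact hne (hinj j (k % n) hj' hk h)
    rw [if_neg this, mul_zero]
  · intro h
    exact absurd (Finset.mem_range.2 hk) h

end

end HUaux

open HUaux in
/-- (H_u) -/
theorem HU_of (hPEU : Stmt_PEU) (hPMI : Stmt_PMI)
    (hinj : ∀ (n : ℕ) (ν v : ℕ → R2) (ℓ : ℕ → ℝ), Poly n ν v ℓ →
      ∀ i j, i < n → j < n → ν i = ν j → i = j) : Stmt_HU := by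
  intro n ν v ℓ P k W hW hex η hη hJ lam
  obtain ⟨j0, hj0⟩ := hex
  obtain ⟨-, hS, hEb, hJb, -, hsym, hBb, hBt⟩ := hPEU n ν v ℓ P
  have hi := hinj n ν v ℓ P
  set s := sk ν v W k with hs
  set S := ar n v with hSdef
  -- the homothety and the segment
  set b : ℕ → ℝ := fun i => dp (ν i) (v i - v j0) with hb
  set e : ℕ → ℝ := eseg ν k with he
  have pb : ∀ i, b (i + n) = b i := fun i => by simp only [hb, P.pν i, P.pv i]
  have pe : ∀ i, e (i + n) = e i := fun i => by simp only [he, eseg, P.pν i]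
  have hs0 : af s (v j0) = 0 := by
    show W - dp (ν k) (v k) + dp (ν k) (v j0) = 0
    rw [dp_sub_right] at hj0
    linarith
  have hbk : b k = W := hj0
  have hek : e k = 0 := by
    show max 0 (cp (ν k) (ν k)) = 0
    rw [cp_self, max_self]
  have hBe : ∀ ξ : ℕ → ℝ, (∀ i, ξ (i + n) = ξ i) → B2 n ν v ℓ s ξ e = W * ξ k :=
    fun ξ hξ => B2_seg P hi hW hj0 ξ hξ
  have hBh : ∀ ξ : ℕ → ℝ, (∀ i, ξ (i + n) = ξ i) → B2 n ν v ℓ s ξ b = 2 * J1 n v ℓ s ξ := by
    intro ξ hξ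
    rw [hBb (v j0) s ξ hξ, hs0]
    ring
  -- lengths
  have hle : ∑ i ∈ Finset.range n, ℓ i * e i = W := by
    have h1 := hBt (ν k) s e pe
    have h2 := hsym s e (fun i => dp (ν i) (ν k)) pe (fun i => by simp only [P.pν i])
    have h3 := hBe (fun i => dp (ν i) (ν k)) (fun i => by simp only [P.pν i])
    have h4 : dp s.2 (ν k) = 1 := P.unit k
    rw [h4, one_mul] at h1
    have h5 : W * dp (ν k) (ν k) = W := by rw [P.unit k, mul_one]
    linarith [h1, h2, h3, h5]
  have hW0 : 0 < W := by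
    rw [← hle]
    have hn : 0 < n := lt_of_lt_of_le (by norm_num) P.n3
    have hge : ∀ i ∈ Finset.range n, 0 ≤ ℓ i * e i := fun i _ =>
      mul_nonneg (P.pos i).le (le_max_left _ _)
    have hm : (k + 1) % n ∈ Finset.range n := Finset.mem_range.2 (Nat.mod_lt _ hn)
    refine lt_of_lt_of_le ?_ (Finset.single_le_sum hge hm)
    refine mul_pos (P.pos _) ?_
    rw [per_mod n e pe (k + 1)]
    exact lt_of_lt_of_le (P.turn k) (le_max_right _ _)
  have hleta : ∑ i ∈ Finset.range n, ℓ i * η i = 0 := by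
    have h1 := hJ (1, 0)
    rw [← h1]
    unfold J1 EI af
    refine Finset.sum_congr rfl (fun i _ => ?_)
    simp only [dp, Prod.fst_zero, Prod.snd_zero]
    ring
  have hlb : ∑ i ∈ Finset.range n, ℓ i * b i = 2 * S := hEb (v j0)
  -- test vector
  set c : ℝ := 2 * lam * S / W with hc
  have hcW : c * W = 2 * lam * S := by rw [hc]; field_simp
  set ξ : ℕ → ℝ := fun i => η i + (-lam) * b i + c * e i with hξ
  have pξ : ∀ i, ξ (i + n) = ξ i := fun i => by
    simp only [hξ, hη i, pb i, pe i]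
  have hlξ : ∑ i ∈ Finset.range n, ℓ i * ξ i = 0 := by
    have h1 : ∑ i ∈ Finset.range n, ℓ i * ξ i =
        ∑ i ∈ Finset.range n, ℓ i * η i + (-lam) * ∑ i ∈ Finset.range n, ℓ i * b i +
          c * ∑ i ∈ Finset.range n, ℓ i * e i := by
      rw [Finset.mul_sum, Finset.mul_sum, ← Finset.sum_add_distrib, ← Finset.sum_add_distrib]
      refine Finset.sum_congr rfl (fun i _ => ?_)
      simp only [hξ]
      ring
    rw [h1, hleta, hlb, hle]
    linarith
  have hpos : ∀ j, 0 ≤ af s (v j) := by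
    intro j
    show 0 ≤ W - dp (ν k) (v k) + dp (ν k) (v j)
    have := hW j
    rw [dp_sub_right] at this
    linarith
  have hmain := hPMI n ν v ℓ P s hpos ξ pξ hlξ
  -- expansion
  have hηη : ∀ x y : ℕ → ℝ, (∀ i, x (i + n) = x i) → (∀ i, y (i + n) = y i) →
      B2 n ν v ℓ s x y = B2 n ν v ℓ s y x := fun x y hx hy => hsym s x y hx hy
  have hexp : J2 n ν v ℓ s ξ = J2 n ν v ℓ s η + 2 * (-lam) * B2 n ν v ℓ s η b +
      2 * c * B2 n ν v ℓ s η e + lam ^ 2 * B2 n ν v ℓ s b b -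
      2 * lam * c * B2 n ν v ℓ s b e + c ^ 2 * B2 n ν v ℓ s e e := by
    unfold J2
    rw [hξ, B2_lin3_left, B2_lin3_right, B2_lin3_right, B2_lin3_right,
      hηη b η pb hη, hηη e η pe hη, hηη e b pe pb]
    ring
  rw [hexp, hBh η hη, hJ s, hBe η hη, hBh b pb, hBe b pb, hBe e pe, hek, hbk,
    hJb (v j0) s, hs0] at hmain
  have hq : 2 * c * (W * η k) = 4 * lam * S * η k := by
    have : 2 * c * (W * η k) = 2 * (c * W) * η k := by ring
    rw [this, hcW]; ring
  have hq2 : 2 * lam * c * (W * W) = 4 * lam ^ 2 * S * W := by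
    have : 2 * lam * c * (W * W) = 2 * lam * (c * W) * W := by ring
    rw [this, hcW]; ring
  rw [hq, hq2] at hmain
  linarith

/-- (H_u), division-free -/
theorem blk_HU (hPEU : Stmt_PEU) (hPMI : Stmt_PMI) : Stmt_HU :=
  HU_of hPEU hPMI (fun _ _ _ _ P => P.inj)

end Pool.G1
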