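import Pool.Agent.Work.MP_b5407d_g1.Planar

/-!
# G1: the cyclic order of the normals of a `Poly` with distinct normals

For a generic direction `u` (`dp u (ν k) ≠ 0` for all `k`) the indices of a period split into one block with
`dp u (ν k) > 0` followed by one block with `dp u (ν k) < 0`.
-/

set_option autoImplicit false

namespace Pool.G1.Order

open Finset

variable {n : ℕ} {ν v : ℕ → R2} {ℓ : ℕ → ℝ}

/-- distinct normals in a period -/
def Inj (n : ℕ) (ν : ℕ → R2) : Prop := ∀ i j, i < n → j < n → ν i = ν j → i = j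

lemma per_mod {α : Type} {f : ℕ → α} (h : ∀ i, f (i + n) = f i) (i : ℕ) : f (i % n) = f i :=
  Function.Periodic.map_mod_nat h i

lemma per_mul {α : Type} {f : ℕ → α} (h : ∀ i, f (i + n) = f i) (i j : ℕ) (hij : i % n = j % n) :
    f i = f j := by
  rw [← per_mod h i, ← per_mod h j, hij]

lemma generic (h : Poly n ν v ℓ) : ∃ u : R2, ∀ k, dp u (ν k) ≠ 0 := by
  classical
  obtain ⟨t, ht⟩ := Infinite.exists_notMem_finset
    ((range n).image (fun k => -(ν k).1 / (ν k).2))
  refine ⟨(1, t), fun k hk => ?_⟩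
  have hn : 0 < n := by have := h.n3; omega
  rw [← per_mod h.pν k] at hk
  set j := k % n with hj
  have hjn : j < n := Nat.mod_lt _ hn
  simp only [dp] at hk
  have hu := h.unit j
  simp only [dp] at hu
  by_cases h2 : (ν j).2 = 0
  · rw [h2] at hk hu
    have h1 : (ν j).1 = 0 := by linarith
    rw [h1] at hu
    norm_num at hu
  · apply ht
    rw [mem_image]
    refine ⟨j, mem_range.mpr hjn, ?_⟩
    rw [div_eq_iff h2]
    linarith

/-- a local minimum of the height `-dp w` is global -/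
lemma loc (h : Poly n ν v ℓ) (u : R2) (j k : ℕ) (h1 : dp u (ν j) < 0)
    (h2 : 0 < dp u (ν (j + 1))) :
    0 ≤ dp u (ν (j + 1)) * (dp (ν j) (v (j + 1)) - dp (ν j) (v k)) ∧
    0 ≤ (-dp u (ν j)) * (dp (ν (j + 1)) (v (j + 1)) - dp (ν (j + 1)) (v k)) ∧
    cp (ν j) (ν (j + 1)) * (dp (u.2, -u.1) (v (j + 1)) - dp (u.2, -u.1) (v k)) =
      dp u (ν (j + 1)) * (dp (ν j) (v (j + 1)) - dp (ν j) (v k)) +
      (-dp u (ν j)) * (dp (ν (j + 1)) (v (j + 1)) - dp (ν (j + 1)) (v k)) := by
  have c1 := h.conv j k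
  have c2 := h.conv (j + 1) k
  have e : dp (ν j) (v (j + 1)) = dp (ν j) (v j) := by
    rw [h.edge j]
    simp only [dp, rt, Prod.fst_add, Prod.snd_add, Prod.smul_fst, Prod.smul_snd, smul_eq_mul]
    ring
  refine ⟨mul_nonneg h2.le (by linarith), mul_nonneg (by linarith) (by linarith), ?_⟩
  simp only [dp, cp]
  ring

lemma loc_eq (h : Poly n ν v ℓ) (u : R2) (i j : ℕ) (i1 : dp u (ν i) < 0)
    (i2 : 0 < dp u (ν (i + 1))) (j1 : dp u (ν j) < 0) (j2 : 0 < dp u (ν (j + 1))) :
    v (i + 1) = v (j + 1) := by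
  obtain ⟨a1, a2, a3⟩ := loc h u j (i + 1) j1 j2
  obtain ⟨b1, b2, b3⟩ := loc h u i (j + 1) i1 i2
  have tj := h.turn j
  have ti := h.turn i
  have p1 : 0 ≤ dp (u.2, -u.1) (v (j + 1)) - dp (u.2, -u.1) (v (i + 1)) := by
    by_contra hc
    push Not at hc
    have : cp (ν j) (ν (j + 1)) * (dp (u.2, -u.1) (v (j + 1)) - dp (u.2, -u.1) (v (i + 1))) < 0 :=
      mul_neg_of_pos_of_neg tj hc
    linarith
  have p2 : 0 ≤ dp (u.2, -u.1) (v (i + 1)) - dp (u.2, -u.1) (v (j + 1)) := by
    by_contra hc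
    push Not at hc
    have : cp (ν i) (ν (i + 1)) * (dp (u.2, -u.1) (v (i + 1)) - dp (u.2, -u.1) (v (j + 1))) < 0 :=
      mul_neg_of_pos_of_neg ti hc
    linarith
  have p3 : dp (u.2, -u.1) (v (j + 1)) - dp (u.2, -u.1) (v (i + 1)) = 0 := by linarith
  rw [p3, mul_zero] at a3
  have q1 : dp u (ν (j + 1)) * (dp (ν j) (v (j + 1)) - dp (ν j) (v (i + 1))) = 0 := by linarith
  have q2 : (-dp u (ν j)) * (dp (ν (j + 1)) (v (j + 1)) - dp (ν (j + 1)) (v (i + 1))) = 0 := by
    linarith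
  have r1 : dp (ν j) (v (j + 1)) - dp (ν j) (v (i + 1)) = 0 := by
    rcases mul_eq_zero.mp q1 with hh | hh
    · exact absurd hh j2.ne'
    · exact hh
  have r2 : dp (ν (j + 1)) (v (j + 1)) - dp (ν (j + 1)) (v (i + 1)) = 0 := by
    rcases mul_eq_zero.mp q2 with hh | hh
    · exact absurd hh (by linarith)
    · exact hh
  have s1 : cp (ν j) (ν (j + 1)) * ((v (j + 1)).1 - (v (i + 1)).1) = 0 := by
    simp only [dp, cp] at *
    linear_combination (ν (j + 1)).2 * r1 - (ν j).2 * r2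
  have s2 : cp (ν j) (ν (j + 1)) * ((v (j + 1)).2 - (v (i + 1)).2) = 0 := by
    simp only [dp, cp] at *
    linear_combination -(ν (j + 1)).1 * r1 + (ν j).1 * r2
  have t1 : (v (j + 1)).1 - (v (i + 1)).1 = 0 := by
    rcases mul_eq_zero.mp s1 with hh | hh
    · exact absurd hh tj.ne'
    · exact hh
  have t2 : (v (j + 1)).2 - (v (i + 1)).2 = 0 := by
    rcases mul_eq_zero.mp s2 with hh | hh
    · exact absurd hh tj.ne'
    · exact hh
  exact Prod.ext (by linarith) (by linarith)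

/-- two unit vectors in an open half plane with zero cross product are equal -/
lemma unit_eq (u a b : R2) (ha : dp a a = 1) (hb : dp b b = 1) (ua : 0 < dp u a)
    (ub : 0 < dp u b) (hc : cp a b = 0) : a = b := by
  have e1 : dp u b * a.1 = dp u a * b.1 := by
    simp only [dp, cp] at *
    linear_combination u.2 * hc
  have e2 : dp u b * a.2 = dp u a * b.2 := by
    simp only [dp, cp] at *
    linear_combination -u.1 * hc
  have e3 : dp u b ^ 2 = dp u a ^ 2 := by
    have h1 : dp u b ^ 2 * dp a a = dp u a ^ 2 * dp b b := by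
      have : dp u b ^ 2 * dp a a = (dp u b * a.1) ^ 2 + (dp u b * a.2) ^ 2 := by
        rw [dp.eq_def a a]; ring
      rw [this, e1, e2, dp.eq_def b b]; ring
    rwa [ha, hb, mul_one, mul_one] at h1
  have e4 : dp u b = dp u a := by
    rcases sq_eq_sq_iff_eq_or_eq_neg.mp e3 with h | h
    · exact h
    · linarith
  rw [e4] at e1 e2
  exact Prod.ext (mul_left_cancel₀ ua.ne' e1) (mul_left_cancel₀ ua.ne' e2)

lemma norm_eq (h : Poly n ν v ℓ) (u : R2) (i j : ℕ) (i1 : dp u (ν i) < 0)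
    (i2 : 0 < dp u (ν (i + 1))) (j1 : dp u (ν j) < 0) (j2 : 0 < dp u (ν (j + 1))) :
    ν (i + 1) = ν (j + 1) := by
  have hv := loc_eq h u i j i1 i2 j1 j2
  have key : ∀ i j, v (i + 1) = v (j + 1) → 0 ≤ cp (ν (i + 1)) (ν (j + 1)) := by
    intro i j hv
    have c := h.conv (i + 1) (j + 2)
    have e : v (j + 2) = v (j + 1) + ℓ (j + 1) • rt (ν (j + 1)) := h.edge (j + 1)
    rw [e, ← hv] at c
    have l := h.pos (j + 1)
    by_contra hc
    push Not at hc
    have : ℓ (j + 1) * cp (ν (i + 1)) (ν (j + 1)) < 0 := mul_neg_of_pos_of_neg l hc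
    simp only [dp, cp, rt, Prod.fst_add, Prod.snd_add, Prod.smul_fst, Prod.smul_snd,
      smul_eq_mul] at *
    linarith
  have k1 := key i j hv
  have k2 := key j i hv.symm
  have k3 : cp (ν (i + 1)) (ν (j + 1)) = 0 := by
    have : cp (ν (j + 1)) (ν (i + 1)) = -cp (ν (i + 1)) (ν (j + 1)) := by
      simp only [cp]; ring
    linarith
  exact unit_eq u _ _ (h.unit _) (h.unit _) i2 j2 k3

lemma closure_u (h : Poly n ν v ℓ) (u : R2) : ∑ i ∈ range n, ℓ i * dp u (ν i) = 0 := by
  have e : ∀ i, ℓ i * dp u (ν i) = cp u (v (i + 1)) - cp u (v i) := by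
    intro i
    rw [h.edge i]
    simp only [dp, cp, rt, Prod.fst_add, Prod.snd_add, Prod.smul_fst, Prod.smul_snd, smul_eq_mul]
    ring
  rw [sum_congr rfl fun i _ => e i, sum_range_sub (fun i => cp u (v i))]
  have := h.pv 0
  rw [zero_add] at this
  rw [this, sub_self]

/-- there is a change from negative to positive -/
lemma exists_change (h : Poly n ν v ℓ) (u : R2) (hu : ∀ k, dp u (ν k) ≠ 0) :
    ∃ j, dp u (ν j) < 0 ∧ 0 < dp u (ν (j + 1)) := by
  have hn : 0 < n := by have := h.n3; omega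
  have hneg : ∃ i, dp u (ν i) < 0 := by
    by_contra hc
    push Not at hc
    have : 0 < ∑ i ∈ range n, ℓ i * dp u (ν i) :=
      sum_pos (fun i _ => mul_pos (h.pos i) (lt_of_le_of_ne (hc i) (hu i).symm))
        ⟨0, mem_range.mpr hn⟩
    rw [closure_u h u] at this
    exact lt_irrefl _ this
  have hpos : ∃ i, 0 < dp u (ν i) := by
    by_contra hc
    push Not at hc
    have : 0 < ∑ i ∈ range n, -(ℓ i * dp u (ν i)) :=
      sum_pos (fun i _ => neg_pos.mpr
        (mul_neg_of_pos_of_neg (h.pos i) (lt_of_le_of_ne (hc i) (hu i))))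
        ⟨0, mem_range.mpr hn⟩
    rw [sum_neg_distrib, closure_u h u, neg_zero] at this
    exact lt_irrefl _ this
  obtain ⟨i, hi⟩ := hneg
  obtain ⟨k, hk⟩ := hpos
  -- a positive index after `i`
  have hk' : ∃ m, 0 < dp u (ν (i + m)) := by
    refine ⟨k + n * i - i, ?_⟩
    have h1 : i ≤ k + n * i := by nlinarith
    rw [show i + (k + n * i - i) = k + n * i by omega]
    have : ν (k + n * i) = ν k := per_mul h.pν _ _ (by simp)
    rw [this]; exact hk
  classical
  set m := Nat.find hk' with hm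
  have hm1 : 0 < dp u (ν (i + m)) := Nat.find_spec hk'
  have hm0 : m ≠ 0 := by
    intro h0
    rw [h0, add_zero] at hm1
    exact absurd hm1 (not_lt.mpr hi.le)
  obtain ⟨m', hm'⟩ := Nat.exists_eq_succ_of_ne_zero hm0
  have hm2 : ¬ 0 < dp u (ν (i + m')) := Nat.find_min hk' (by omega)
  refine ⟨i + m', lt_of_le_of_ne (not_lt.mp hm2) (hu _), ?_⟩
  rw [hm'] at hm1
  exact hm1

/-- block structure of a period -/
theorem blocks (h : Poly n ν v ℓ) (hinj : Inj n ν) (u : R2) (hu : ∀ k, dp u (ν k) ≠ 0) :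
    ∃ s p, 0 < p ∧ p < n ∧ (∀ k < p, 0 < dp u (ν (s + k))) ∧
      (∀ k, p ≤ k → k < n → dp u (ν (s + k)) < 0) := by
  have hn : 0 < n := by have := h.n3; omega
  obtain ⟨j, j1, j2⟩ := exists_change h u hu
  have last : dp u (ν (j + 1 + (n - 1))) < 0 := by
    rw [show j + 1 + (n - 1) = j + n by omega, h.pν]; exact j1
  have hex : ∃ k, dp u (ν (j + 1 + k)) < 0 := ⟨_, last⟩
  classical
  set p := Nat.find hex with hp
  have hp1 : dp u (ν (j + 1 + p)) < 0 := Nat.find_spec hex
  have hp2 : ∀ k < p, 0 < dp u (ν (j + 1 + k)) := fun k hk =>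
    lt_of_le_of_ne (not_lt.mp (Nat.find_min hex hk)) (hu _).symm
  have hp3 : p ≤ n - 1 := Nat.find_min' hex last
  refine ⟨j + 1, p, ?_, by omega, hp2, ?_⟩
  · rcases Nat.eq_zero_or_pos p with h0 | h0
    · rw [h0, add_zero] at hp1
      exact absurd j2 (not_lt.mpr hp1.le)
    · exact h0
  · intro k hk
    induction k, hk using Nat.le_induction with
    | base => intro _; exact hp1
    | succ k hk ih =>
      intro hkn
      have ihk := ih (by omega)
      by_contra hc
      have hc' : 0 < dp u (ν (j + 1 + k + 1)) := by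
        have := lt_of_le_of_ne (not_lt.mp hc) (hu _).symm
        exact this
      have e := norm_eq h u (j + 1 + k) j ihk hc' j1 j2
      have e1 : ν ((j + 1 + k + 1) % n) = ν ((j + 1) % n) := by
        rw [per_mod h.pν, per_mod h.pν]; exact e
      have e2 := hinj _ _ (Nat.mod_lt _ hn) (Nat.mod_lt _ hn) e1
      have e3 : (k + 1) % n = 0 := by
        have e4 : (j + 1 + (k + 1)) ≡ (j + 1 + 0) [MOD n] := e2
        have e5 := Nat.ModEq.add_left_cancel' (j + 1) e4
        simpa [Nat.ModEq] using e5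
      rw [Nat.mod_eq_of_lt hkn] at e3
      omega

end Pool.G1.Order
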