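import Pool.Agent.Work.MP_b5407d_g1.Pl_NRM
import Pool.Agent.Work.MP_b5407d_g1.Pl_HU
import Pool.Agent.Work.MP_b5407d_g1.Pl_Order

/-!
# G1: `q_k > 0` for polygons with at least four edges, and `h_k ≤ 2 W_k / 3`
-/

set_option autoImplicit false

open Finset

namespace Pool.G1

section
variable {n : ℕ} {ν v : ℕ → R2} {ℓ : ℕ → ℝ}

lemma mod_ne (k j : ℕ) (hj : 0 < j) (hjn : j < n) : (k + j) % n ≠ k % n := by
  intro h
  have e4 : (k + j) ≡ (k + 0) [MOD n] := h
  have e5 := Nat.ModEq.add_left_cancel' k e4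
  have e6 : j % n = 0 := by simpa [Nat.ModEq] using e5
  rw [Nat.mod_eq_of_lt hjn] at e6
  omega

/-- two consecutive vertices of another edge are not both on the line `k` -/
lemma sk_avg_lt (hP : Poly n ν v ℓ) {k : ℕ} {W : ℝ} (hW0 : 0 < W) {j0 : ℕ} (hj0 : dp (ν k) (v k - v j0) = W)
    (j : ℕ) (hj : 0 < j) (hjn : j < n) :
    (af (sk ν v W k) (v (k + j)) + af (sk ν v W k) (v (k + j + 1))) / 2 < W := by
  have hn : 0 < n := by omega
  have e : ∀ i, af (sk ν v W k) (v i) = W - dp (ν k) (v k - v i) := by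
    intro i
    simp only [af, sk, dp, Prod.fst_sub, Prod.snd_sub]; ring
  have e0 : ∀ i, 0 ≤ dp (ν k) (v k - v i) := by
    intro i
    have := hP.conv k i
    rw [HUaux.dp_sub_right]
    linarith
  rw [e, e]
  have h1 := e0 (k + j)
  have h2 := e0 (k + j + 1)
  rcases (add_nonneg h1 h2).eq_or_lt with h | h
  · exfalso
    have h3 : dp (ν k) (v k - v (k + j)) = 0 := by linarith
    have h4 : dp (ν k) (v k - v (k + j + 1)) = 0 := by linarith
    have h5 : dp (ν k) (v k - v (k + j + 1)) = dp (ν k) (v k - v (k + j)) -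
        ℓ (k + j) * cp (ν (k + j)) (ν k) := by
      rw [hP.edge (k + j)]
      simp only [dp, cp, rt, Prod.fst_add, Prod.snd_add, Prod.fst_sub, Prod.snd_sub,
        Prod.smul_fst, Prod.smul_snd, smul_eq_mul]
      ring
    have h6 : cp (ν (k + j)) (ν k) = 0 := by
      rw [h3, h4] at h5
      have : ℓ (k + j) * cp (ν (k + j)) (ν k) = 0 := by linarith
      exact (mul_eq_zero.mp this).resolve_left (hP.pos _).ne'
    rcases HUaux.unit_par _ _ (hP.unit _) (hP.unit _) h6 with h7 | h7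
    · refine mod_ne k j hj hjn ?_
      have e1 : ν ((k + j) % n) = ν (k % n) := by
        rw [Order.per_mod hP.pν, Order.per_mod hP.pν]; exact h7.symm
      exact hP.inj _ _ (Nat.mod_lt _ hn) (Nat.mod_lt _ hn) e1
    · -- opposite normals
      have c := hP.conv (k + j) j0
      have h8 : ν (k + j) = -ν k := by rw [h7, neg_neg]
      have c2 : dp (ν k) (v (k + j)) ≤ dp (ν k) (v j0) := by
        rw [h8] at c
        simp only [dp, Prod.fst_neg, Prod.snd_neg] at c ⊢
        linarith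
      rw [HUaux.dp_sub_right] at h3 hj0
      linarith
  · linarith

/-- **`q_k > 0`** for polygons with at least four edges -/
theorem q_pos (hE : Stmt_PEU) (hP : Poly n ν v ℓ) (hn4 : 4 ≤ n) (W : ℕ → ℝ)
    (hW1 : ∀ k j, dp (ν k) (v k - v j) ≤ W k)
    (hW2 : ∀ k, ∃ j, dp (ν k) (v k - v j) = W k) (k : ℕ) : 0 < qk n ν v W k := by
  have hn : 0 < n := by omega
  have hA : 0 < ar n v := (hE n ν v ℓ hP).2.1
  have hW0 := NRM.W_pos hP hW1 k
  obtain ⟨j0, hj0⟩ := hW2 k
  obtain ⟨-, -, h3, h4, -⟩ := hE n ν v ℓ hP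
  have e0 : af (sk ν v (W k) k) (v j0) = 0 := by
    simp only [af, sk]
    rw [HUaux.dp_sub_right] at hj0
    linarith
  have g1 := h4 (v j0) (sk ν v (W k) k)
  rw [e0, zero_mul, sub_zero] at g1
  have g2 := h3 (v j0)
  have b0 : ∀ i, 0 ≤ dp (ν i) (v i - v j0) := by
    intro i
    have := hP.conv i j0
    rw [HUaux.dp_sub_right]
    linarith
  have skle : ∀ i, af (sk ν v (W k) k) (v i) ≤ W k := by
    intro i
    have e : af (sk ν v (W k) k) (v i) = W k - dp (ν k) (v k - v i) := by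
      simp only [af, sk, dp, Prod.fst_sub, Prod.snd_sub]; ring
    have := hP.conv k i
    rw [e, HUaux.dp_sub_right]
    linarith
  -- the defect is a sum of nonnegative terms
  have hdef : 2 * W k * ar n v - 3 * J0 n v (sk ν v (W k) k) =
      ∑ i ∈ range n, ℓ i * dp (ν i) (v i - v j0) *
        (W k - (af (sk ν v (W k) k) (v i) + af (sk ν v (W k) k) (v (i + 1))) / 2) := by
    rw [← g1]
    have : 2 * W k * ar n v = W k * ∑ i ∈ range n, ℓ i * dp (ν i) (v i - v j0) := by
      rw [g2]; ring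
    rw [this]
    unfold J1
    rw [mul_sum, ← sum_sub_distrib]
    refine sum_congr rfl fun i _ => ?_
    unfold EI
    ring
  have hterm : ∀ i, 0 ≤ ℓ i * dp (ν i) (v i - v j0) *
      (W k - (af (sk ν v (W k) k) (v i) + af (sk ν v (W k) k) (v (i + 1))) / 2) := by
    intro i
    refine mul_nonneg (mul_nonneg (hP.pos i).le (b0 i)) ?_
    have := skle i
    have := skle (i + 1)
    linarith
  have hpos : 0 < 2 * W k * ar n v - 3 * J0 n v (sk ν v (W k) k) := by
    rw [hdef]
    refine lt_of_le_of_ne (sum_nonneg fun i _ => hterm i) fun h => ?_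
    have hz := (sum_eq_zero_iff_of_nonneg (fun i _ => hterm i)).mp h.symm
    have hz2 : ∀ i, ℓ i * dp (ν i) (v i - v j0) *
        (W k - (af (sk ν v (W k) k) (v i) + af (sk ν v (W k) k) (v (i + 1))) / 2) = 0 := by
      intro i
      have per : ∀ i, (fun i => ℓ i * dp (ν i) (v i - v j0) *
          (W k - (af (sk ν v (W k) k) (v i) + af (sk ν v (W k) k) (v (i + 1))) / 2)) (i + n) =
          (fun i => ℓ i * dp (ν i) (v i - v j0) *
          (W k - (af (sk ν v (W k) k) (v i) + af (sk ν v (W k) k) (v (i + 1))) / 2)) i := by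
        intro i
        simp only [show i + n + 1 = i + 1 + n by ring, hP.pℓ, hP.pν, hP.pv]
      have e := Order.per_mod (f := fun i => ℓ i * dp (ν i) (v i - v j0) *
          (W k - (af (sk ν v (W k) k) (v i) + af (sk ν v (W k) k) (v (i + 1))) / 2)) per i
      have h2 := hz _ (mem_range.mpr (Nat.mod_lt i hn))
      exact e.symm.trans h2
    have hz3 : ∀ j, 0 < j → j < n → dp (ν (k + j)) (v (k + j) - v j0) = 0 := by
      intro j hj hjn
      have h5 := sk_avg_lt hP hW0 hj0 j hj hjn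
      have h6 := hz2 (k + j)
      rcases mul_eq_zero.mp h6 with h7 | h7
      · exact (mul_eq_zero.mp h7).resolve_left (hP.pos _).ne'
      · exact absurd h7 (by linarith)
    have a1 := hz3 1 (by omega) (by omega)
    have a2 := hz3 2 (by omega) (by omega)
    have a3 := hz3 3 (by omega) (by omega)
    have v2 : v j0 = v (k + 2) := by
      refine HUaux.eq_of_dp (ν (k + 1)) (ν (k + 2)) _ _ (hP.turn (k + 1)).ne' ?_ ?_
      · have := HUaux.edge_dp hP (k + 1)
        rw [HUaux.dp_comm _ (ν (k + 1)), HUaux.dp_comm _ (ν (k + 1)),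
          show k + 2 = k + 1 + 1 by ring, this]
        rw [HUaux.dp_sub_right] at a1
        linarith
      · rw [HUaux.dp_comm _ (ν (k + 2)), HUaux.dp_comm _ (ν (k + 2))]
        rw [HUaux.dp_sub_right] at a2
        linarith
    have v3 : v j0 = v (k + 3) := by
      refine HUaux.eq_of_dp (ν (k + 2)) (ν (k + 3)) _ _ (hP.turn (k + 2)).ne' ?_ ?_
      · have := HUaux.edge_dp hP (k + 2)
        rw [HUaux.dp_comm _ (ν (k + 2)), HUaux.dp_comm _ (ν (k + 2)),
          show k + 3 = k + 2 + 1 by ring, this]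
        rw [HUaux.dp_sub_right] at a2
        linarith
      · rw [HUaux.dp_comm _ (ν (k + 3)), HUaux.dp_comm _ (ν (k + 3))]
        rw [HUaux.dp_sub_right] at a3
        linarith
    have ed := hP.edge (k + 2)
    rw [show k + 2 + 1 = k + 3 by ring, ← v3, ← v2] at ed
    have h8 : ℓ (k + 2) • rt (ν (k + 2)) = 0 := left_eq_add.1 ed
    have h9 : dp (ℓ (k + 2) • rt (ν (k + 2))) (rt (ν (k + 2))) = 0 := by
      rw [h8, HUaux.dp_zero_left]
    rw [HUaux.dp_smul_left, HUaux.dp_rt_rt, hP.unit, mul_one] at h9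
    exact absurd h9 (hP.pos _).ne'
  have h7 : qk n ν v W k = (2 * W k * ar n v - 3 * J0 n v (sk ν v (W k) k)) / ar n v := by
    unfold qk; field_simp
  rw [h7]
  exact div_pos hpos hA

/-- `3 ∫ s_k ≥ W_k area` -/
lemma J0_sk_ge (hE : Stmt_PEU) (hP : Poly n ν v ℓ) (W : ℕ → ℝ)
    (hW1 : ∀ k j, dp (ν k) (v k - v j) ≤ W k) (k : ℕ) :
    W k * ar n v ≤ 3 * J0 n v (sk ν v (W k) k) := by
  obtain ⟨-, -, -, h4, -⟩ := hE n ν v ℓ hP
  have g1 := h4 (v k) (sk ν v (W k) k)
  have e0 : af (sk ν v (W k) k) (v k) = W k := by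
    simp only [af, sk]; ring
  rw [e0] at g1
  have h0 : ∀ j, 0 ≤ af (sk ν v (W k) k) (v j) := by
    intro j
    have e : af (sk ν v (W k) k) (v j) = W k - dp (ν k) (v k - v j) := by
      simp only [af, sk, dp, Prod.fst_sub, Prod.snd_sub]; ring
    have := hW1 k j
    rw [e]; linarith
  have h5 : 0 ≤ J1 n v ℓ (sk ν v (W k) k) (fun i => dp (ν i) (v i - v k)) := by
    unfold J1
    refine sum_nonneg fun i _ => mul_nonneg ?_ (EI_nonneg hP.pos h0 i)
    have := hP.conv i k
    show 0 ≤ dp (ν i) (v i - v k)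
    rw [HUaux.dp_sub_right]
    linarith
  linarith

end

end Pool.G1
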