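import Pool.Agent.Work.MP_b5407d_g1.Pl_TWO

/-!
# G1, balanced case: the two-state statement with a general multiplier and gauge

`Gauge`: `ks B T PB PT` (the number `V*`, affine in `P_B`) and `mu B T PB PT` (multiplier of `c`).
`Stmt_TWOg γ` is the two-state statement with `M = e - V* c`, multiplier `mu`;
`NEST_of_TWOg`, `S2`-version in `Pl_TWO6`.  `gX` is the gauge of `Stmt_TWO`, `gH` the half-shift gauge
(note 2445).
-/

set_option autoImplicit false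

open Finset Filter Topology

namespace Pool.G1.Gap

/-- gauge: `V* = k1 V + k2` with `V = (P_B + P_T)/(B+T)`, and the multiplier `mu` of `c` -/
structure Gauge where
  k1 : ℝ → ℝ → ℝ
  k2 : ℝ → ℝ → ℝ
  mu : ℝ → ℝ → ℝ → ℝ → ℝ
  k1n : ∀ B T, 0 < B → B < T → k1 B T ≠ 0
  cont : ∀ B T Pi, Continuous fun x => mu B T x (x + Pi)

/-- `M = e - V* c` -/
noncomputable def eg (γ : Gauge) (B T PB PT a p b q : ℝ) : ℝ :=
  p + q - PB - PT - (γ.k1 B T * ((PB + PT) / (B + T)) + γ.k2 B T) * (a + b - B - T)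

/-- the functional of two states with masses `m1`, `m2` and multiplier `mu` of `c` -/
noncomputable def TWg (mu B T a1 a2 b1 b2 m1 m2 PB PT p1 p2 q1 q2 : ℝ) : ℝ :=
  (m1 * (2 * (T - B) - ((a1 - B) + (T - b1))) + m2 * (2 * (T - B) - ((a2 - B) + (T - b2)))) / 2 *
    ((p1 - PB) ^ 2 / ((a1 ^ 2 - B ^ 2) / 2)) +
  (m1 * ((a1 - B) + (T - b1)) + m2 * (2 * (T - B) - ((a2 - B) + (T - b2)))) / 2 *
    ((p2 - p1) ^ 2 / ((a2 ^ 2 - a1 ^ 2) / 2)) +
  (m1 * ((a1 - B) + (T - b1)) + m2 * ((a2 - B) + (T - b2))) / 2 *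
    ((PT - p2) ^ 2 / ((T ^ 2 - a2 ^ 2) / 2)) +
  (m1 * ((a1 - B) + (T - b1)) + m2 * ((a2 - B) + (T - b2))) / 2 *
    ((q2 - PB) ^ 2 / ((b2 ^ 2 - B ^ 2) / 2)) +
  (m1 * ((a1 - B) + (T - b1)) + m2 * (2 * (T - B) - ((a2 - B) + (T - b2)))) / 2 *
    ((q1 - q2) ^ 2 / ((b1 ^ 2 - b2 ^ 2) / 2)) +
  (m1 * (2 * (T - B) - ((a1 - B) + (T - b1))) + m2 * (2 * (T - B) - ((a2 - B) + (T - b2)))) / 2 *
    ((PT - q1) ^ 2 / ((T ^ 2 - b1 ^ 2) / 2)) +
  m1 * (Th B PB + Th T PT - Th a1 p1 - Th b1 q1) +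
  m2 * (Th B PB + Th T PT - Th a2 p2 - Th b2 q2) +
  mu * (m1 * (a1 + b1 - B - T) + m2 * (a2 + b2 - B - T))

/-- **the two-state statement** (strict data only) in the gauge `γ` -/
def Stmt_TWOg (γ : Gauge) : Prop :=
  ∀ B T a1 a2 b1 b2 m1 m2 PB PT p1 p2 q1 q2 : ℝ, 0 < B → B < a1 → a1 < a2 → a2 < T →
    B < b2 → b2 < b1 → b1 < T → 0 < m1 → 0 < m2 →
    m1 * eg γ B T PB PT a1 p1 b1 q1 + m2 * eg γ B T PB PT a2 p2 b2 q2 = 0 →
    0 ≤ TWg (γ.mu B T PB PT) B T a1 a2 b1 b2 m1 m2 PB PT p1 p2 q1 q2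

/-- the functional of one state -/
noncomputable def GM (mu B T QR QL PB PT al qa p be qb q : ℝ) : ℝ :=
  1 / 2 * ((qa + (QL - qb)) * ((T - al) + (be - B)) + ((QR - qa) + qb) * ((al - B) + (T - be))) -
    (Th al p - Th B PB + Th be q - Th T PT) + mu * (al + be - B - T)

lemma CC_eqg (γ : Gauge) (B T QR QL Pi ka lam al qa pa be qb pb : ℝ) :
    CC B T QR QL Pi ka lam (γ.mu B T ka (ka + Pi) -
      lam * (γ.k1 B T * ((ka + (ka + Pi)) / (B + T)) + γ.k2 B T)) 0 al qa pa be qb pb =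
    GM (γ.mu B T ka (ka + Pi)) B T QR QL ka (ka + Pi) al qa (ka + pa) be qb (ka + pb) +
      lam * eg γ B T ka (ka + Pi) al (ka + pa) be (ka + pb) := by
  unfold CC GM eg
  ring

section
variable {B T Pi QR QL : ℝ} {P Q P' Q' : ℝ → ℝ} (γ : Gauge)

lemma TW_leg (L1 : Ld B T Pi QR P Q) (L2 : Ld B T Pi QL P' Q') (ka : ℝ)
    {a1 a2 b1 b2 m1 m2 : ℝ} (h1 : B < a1) (h2 : a1 < a2) (h3 : a2 < T)
    (h4 : B < b2) (h5 : b2 < b1) (h6 : b1 < T) (hm1 : 0 ≤ m1) (hm2 : 0 ≤ m2) :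
    TWg (γ.mu B T ka (ka + Pi)) B T a1 a2 b1 b2 m1 m2 ka (ka + Pi) (ka + P a1) (ka + P a2) (ka + P' b1) (ka + P' b2) ≤
      m1 * GM (γ.mu B T ka (ka + Pi)) B T QR QL ka (ka + Pi) a1 (Q a1) (ka + P a1) b1 (Q' b1) (ka + P' b1) +
      m2 * GM (γ.mu B T ka (ka + Pi)) B T QR QL ka (ka + Pi) a2 (Q a2) (ka + P a2) b2 (Q' b2) (ka + P' b2) := by
  have e1 := L1.cs B a1 le_rfl h1 (by linarith)
  have e2 := L1.cs a1 a2 h1.le h2 h3.le
  have e3 := L1.cs a2 T (by linarith) h3 le_rfl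
  have f1 := L2.cs B b2 le_rfl h4 (by linarith)
  have f2 := L2.cs b2 b1 h4.le h5 h6.le
  have f3 := L2.cs b1 T (by linarith) h6 le_rfl
  rw [L1.P0, L1.Q0] at e1
  rw [L1.P1, L1.Q1] at e3
  rw [L2.P0, L2.Q0] at f1
  rw [L2.P1, L2.Q1] at f3
  have S1 : 0 ≤ (a1 - B) + (T - b1) := by linarith
  have S2 : 0 ≤ (a2 - B) + (T - b2) := by linarith
  have S1' : 0 ≤ 2 * (T - B) - ((a1 - B) + (T - b1)) := by linarith
  have S2' : 0 ≤ 2 * (T - B) - ((a2 - B) + (T - b2)) := by linarith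
  have n1 := mul_nonneg hm1 S1
  have n2 := mul_nonneg hm2 S2
  have n3 := mul_nonneg hm1 S1'
  have n4 := mul_nonneg hm2 S2'
  have W0 : 0 ≤ (m1 * (2 * (T - B) - ((a1 - B) + (T - b1))) +
    m2 * (2 * (T - B) - ((a2 - B) + (T - b2)))) / 2 := by linarith
  have W1 : 0 ≤ (m1 * ((a1 - B) + (T - b1)) + m2 * (2 * (T - B) - ((a2 - B) + (T - b2)))) / 2 := by
    linarith
  have W2 : 0 ≤ (m1 * ((a1 - B) + (T - b1)) + m2 * ((a2 - B) + (T - b2))) / 2 := by linarith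
  have g1 := mul_le_mul_of_nonneg_left e1 W0
  have g2 := mul_le_mul_of_nonneg_left e2 W1
  have g3 := mul_le_mul_of_nonneg_left e3 W2
  have g4 := mul_le_mul_of_nonneg_left f1 W2
  have g5 := mul_le_mul_of_nonneg_left f2 W1
  have g6 := mul_le_mul_of_nonneg_left f3 W0
  have k1 : ka + P a1 - ka = P a1 - 0 := by ring
  have k2 : ka + P a2 - (ka + P a1) = P a2 - P a1 := by ring
  have k3 : ka + Pi - (ka + P a2) = Pi - P a2 := by ring
  have k4 : ka + P' b2 - ka = P' b2 - 0 := by ring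
  have k5 : ka + P' b1 - (ka + P' b2) = P' b1 - P' b2 := by ring
  have k6 : ka + Pi - (ka + P' b1) = Pi - P' b1 := by ring
  unfold TWg GM
  rw [k1, k2, k3, k4, k5, k6]
  linarith

lemma GM_cont {f g h k l m κ : ℝ → ℝ} {x : ℝ} (hf : ContinuousAt f x) (hg : ContinuousAt g x)
    (hh : ContinuousAt h x) (hk : ContinuousAt k x) (hl : ContinuousAt l x) (hm : ContinuousAt m x)
    (hκ : ContinuousAt κ x) (h0 : f x ≠ 0) (h1 : k x ≠ 0) :
    ContinuousAt (fun t => GM (γ.mu B T (κ t) (κ t + Pi)) B T QR QL (κ t) (κ t + Pi) (f t) (g t) (h t) (k t) (l t) (m t)) x := by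
  unfold GM
  have t1 := Th_cont hf hh h0
  have t2 := Th_cont hk hm h1
  have t3 : ContinuousAt (fun t => 1 / 2 * ((g t + (QL - l t)) * ((T - f t) + (k t - B)) +
    ((QR - g t) + l t) * ((f t - B) + (T - k t)))) x := by
    have := hl
    fun_prop
  have t4 : ContinuousAt (fun t => γ.mu B T (κ t) (κ t + Pi)) x := by
    exact (γ.cont B T Pi).continuousAt.comp hκ
  have t5 : ContinuousAt (fun t => f t + k t - B - T) x := by fun_prop
  have t6 : ContinuousAt (fun t => Th B (κ t)) x := by unfold Th; fun_prop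
  have t7 : ContinuousAt (fun t => Th T (κ t + Pi)) x := by unfold Th; fun_prop
  exact (t3.sub (((t1.sub t6).add t2).sub t7)).add (t4.mul t5)

/-- a single interior state with `ê = 0` -/
lemma single_intg (h : Stmt_TWOg γ) (hB : 0 < B) (L1 : Ld B T Pi QR P Q) (L2 : Ld B T Pi QL P' Q')
    (ka : ℝ) {al be : ℝ} (h1 : B < al) (h2 : al < T) (h3 : B < be) (h4 : be < T)
    (he : eg γ B T ka (ka + Pi) al (ka + P al) be (ka + P' be) = 0) :
    0 ≤ GM (γ.mu B T ka (ka + Pi)) B T QR QL ka (ka + Pi) al (Q al) (ka + P al) be (Q' be) (ka + P' be) := by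
  obtain ⟨a2, ha1, ha2⟩ := exists_between h2
  obtain ⟨b2, hb1, hb2⟩ := exists_between h3
  obtain ⟨e2, he2⟩ : ∃ e2, e2 = eg γ B T ka (ka + Pi) a2 (ka + P a2) b2 (ka + P' b2) := ⟨_, rfl⟩
  have key : ∀ δ : ℝ, 0 < δ → 0 ≤ TWg (γ.mu B T ka (ka + Pi)) B T al a2 be b2 1 δ ka (ka + Pi) (ka + P al) (ka + P a2)
      (ka + P' be - δ * e2) (ka + P' b2) := by
    intro δ hδ
    refine h B T al a2 be b2 1 δ ka (ka + Pi) (ka + P al) (ka + P a2) (ka + P' be - δ * e2)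
      (ka + P' b2) hB h1 ha1 ha2 hb1 hb2 h4 one_pos hδ ?_
    rw [← he2]
    have : eg γ B T ka (ka + Pi) al (ka + P al) be (ka + P' be - δ * e2) =
        eg γ B T ka (ka + Pi) al (ka + P al) be (ka + P' be) - δ * e2 := by unfold eg; ring
    rw [this, he]
    ring
  have hc : Continuous fun δ : ℝ => TWg (γ.mu B T ka (ka + Pi)) B T al a2 be b2 1 δ ka (ka + Pi) (ka + P al) (ka + P a2)
      (ka + P' be - δ * e2) (ka + P' b2) := by
    unfold TWg Th
    fun_prop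
  have hlim := (hc.tendsto 0).mono_left (nhdsWithin_le_nhds (s := Set.Ioi 0))
  have h0 := ge_of_tendsto hlim (by filter_upwards [self_mem_nhdsWithin] with δ hδ using key δ hδ)
  have h5 := TW_leg γ L1 L2 ka (m1 := 1) (m2 := 0) h1 ha1 ha2 hb1 hb2 h4 zero_le_one le_rfl
  rw [zero_mul, sub_zero] at h0
  rw [zero_mul, one_mul, add_zero] at h5
  exact h0.trans h5

/-- a single state with `ê = 0` -/
lemma singleg (h : Stmt_TWOg γ) (hB : 0 < B) (hBT : B < T) (L1 : Ld B T Pi QR P Q)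
    (L2 : Ld B T Pi QL P' Q') (ka : ℝ) {al be : ℝ} (h1 : B ≤ al) (h2 : al ≤ T) (h3 : B ≤ be)
    (h4 : be ≤ T) (he : eg γ B T ka (ka + Pi) al (ka + P al) be (ka + P' be) = 0) :
    0 ≤ GM (γ.mu B T ka (ka + Pi)) B T QR QL ka (ka + Pi) al (Q al) (ka + P al) be (Q' be) (ka + P' be) := by
  by_cases hc : al + be - B - T = 0
  · rcases h1.eq_or_lt with g1 | g1
    · have g2 : be = T := by linarith
      rw [← g1, g2, L1.Q0, L2.Q1, L1.P0, L2.P1]
      apply le_of_eq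
      unfold GM
      rw [show B + T - B - T = 0 by ring]
      ring_nf
    · rcases h2.eq_or_lt with g2 | g2
      · have g3 : be = B := by linarith
        rw [g2, g3, L1.Q1, L2.Q0, L1.P1, L2.P0]
        apply le_of_eq
        unfold GM
        rw [show T + B - B - T = 0 by ring]
        ring_nf
      · exact single_intg γ h hB L1 L2 ka g1 g2 (by linarith) (by linarith) he
  · -- move towards the centre, adjusting `ka`
    have hBT0 : B + T ≠ 0 := by linarith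
    obtain ⟨c, hcc⟩ : ∃ c, c = al + be - B - T := ⟨_, rfl⟩
    rw [← hcc] at hc
    obtain ⟨A, hA⟩ : ∃ A : ℝ → ℝ, A = fun ε => al + ε * ((B + T) / 2 - al) := ⟨_, rfl⟩
    obtain ⟨A', hA'⟩ : ∃ A' : ℝ → ℝ, A' = fun ε => be + ε * ((B + T) / 2 - be) := ⟨_, rfl⟩
    have hk1 := γ.k1n B T hB hBT
    obtain ⟨κ, hκ⟩ : ∃ κ : ℝ → ℝ, κ = fun ε =>
      ((B + T) * (((P (A ε) + P' (A' ε) - Pi) / ((1 - ε) * c) - γ.k2 B T) / γ.k1 B T) - Pi) / 2 :=
      ⟨_, rfl⟩
    have A0 : A 0 = al := by rw [hA]; ring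
    have A0' : A' 0 = be := by rw [hA']; ring
    have hV : (P al + P' be - Pi) / c = γ.k1 B T * ((ka + (ka + Pi)) / (B + T)) + γ.k2 B T := by
      rw [div_eq_iff hc, hcc]
      unfold eg at he
      linarith
    have κ0 : κ 0 = ka := by
      rw [hκ]
      simp only
      rw [A0, A0', sub_zero, one_mul, hV]
      field_simp
      ring
    have cA : ContinuousAt A 0 := by rw [hA]; fun_prop
    have cA' : ContinuousAt A' 0 := by rw [hA']; fun_prop
    have cPA : ContinuousAt (fun ε => P (A ε)) 0 := L1.cP.continuousAt.comp cA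
    have cQA : ContinuousAt (fun ε => Q (A ε)) 0 := L1.cQ.continuousAt.comp cA
    have cPA' : ContinuousAt (fun ε => P' (A' ε)) 0 := L2.cP.continuousAt.comp cA'
    have cQA' : ContinuousAt (fun ε => Q' (A' ε)) 0 := L2.cQ.continuousAt.comp cA'
    have cκ : ContinuousAt κ 0 := by
      rw [hκ]
      have h5 : ContinuousAt (fun ε : ℝ => (1 - ε) * c) 0 := by fun_prop
      have h6 : ContinuousAt (fun ε : ℝ => P (A ε) + P' (A' ε) - Pi) 0 :=
        (cPA.add cPA').sub continuousAt_const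
      have h7 := h6.div h5 (by simpa using hc)
      exact ((continuousAt_const.mul ((h7.sub continuousAt_const).div_const _)).sub
        continuousAt_const).div_const 2
    have s1 : ContinuousAt (fun t => κ t + P (A t)) 0 := cκ.add cPA
    have s2 : ContinuousAt (fun t => κ t + P' (A' t)) 0 := cκ.add cPA'
    have cG := GM_cont γ (B := B) (T := T) (QR := QR) (QL := QL) (Pi := Pi) cA cQA
      s1 cA' cQA' s2 cκ (by rw [A0]; linarith) (by rw [A0']; linarith)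
    have cG2 : Tendsto (fun t => GM (γ.mu B T (κ t) (κ t + Pi)) B T QR QL (κ t) (κ t + Pi) (A t) (Q (A t)) (κ t + P (A t)) (A' t)
      (Q' (A' t)) (κ t + P' (A' t))) (𝓝[>] 0) (𝓝 (GM (γ.mu B T ka (ka + Pi)) B T QR QL ka (ka + Pi) al (Q al) (ka + P al) be
        (Q' be) (ka + P' be))) := by
      have := cG.tendsto.mono_left (nhdsWithin_le_nhds (s := Set.Ioi 0))
      rw [κ0, A0, A0'] at this
      exact this
    refine ge_of_tendsto cG2 ?_
    have ev : ∀ᶠ t : ℝ in 𝓝[>] 0, 0 < t ∧ t < 1 := by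
      have := Ioo_mem_nhdsGT (one_pos : (0:ℝ) < 1)
      filter_upwards [this] with t ht using ht
    filter_upwards [ev] with t ht
    obtain ⟨t0, t1⟩ := ht
    have u1 : 0 < 1 - t := by linarith
    have v1 := mul_nonneg u1.le (by linarith : 0 ≤ al - B)
    have v2 := mul_nonneg u1.le (by linarith : 0 ≤ T - al)
    have v3 := mul_nonneg u1.le (by linarith : 0 ≤ be - B)
    have v4 := mul_nonneg u1.le (by linarith : 0 ≤ T - be)
    have v5 := mul_pos t0 (by linarith : 0 < T - B)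
    have w1 : B < A t := by rw [hA]; simp only; nlinarith
    have w2 : A t < T := by rw [hA]; simp only; nlinarith
    have w3 : B < A' t := by rw [hA']; simp only; nlinarith
    have w4 : A' t < T := by rw [hA']; simp only; nlinarith
    refine single_intg γ h hB L1 L2 (κ t) w1 w2 w3 w4 ?_
    have e5 : A t + A' t - B - T = (1 - t) * c := by rw [hA, hA', hcc]; ring
    have e6 : (1 - t) * c ≠ 0 := mul_ne_zero u1.ne' hc
    have e7 : γ.k1 B T * ((κ t + (κ t + Pi)) / (B + T)) + γ.k2 B T =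
        (P (A t) + P' (A' t) - Pi) / ((1 - t) * c) := by
      obtain ⟨X, hX⟩ : ∃ X, X = (P (A t) + P' (A' t) - Pi) / ((1 - t) * c) := ⟨_, rfl⟩
      have e8 : κ t = ((B + T) * ((X - γ.k2 B T) / γ.k1 B T) - Pi) / 2 := by rw [hκ, hX]
      rw [← hX, e8]
      field_simp
      ring
    unfold eg
    rw [e5, e7, div_mul_cancel₀ _ e6]
    ring

/-- a nested pair of states with `ê` of opposite signs -/
lemma pairg (h : Stmt_TWOg γ) (hB : 0 < B) (hBT : B < T) (L1 : Ld B T Pi QR P Q)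
    (L2 : Ld B T Pi QL P' Q') (ka : ℝ) {a1 a2 b1 b2 : ℝ} (h1 : B ≤ a1) (h2 : a1 ≤ a2) (h3 : a2 ≤ T)
    (h4 : B ≤ b2) (h5 : b2 ≤ b1) (h6 : b1 ≤ T)
    (he : eg γ B T ka (ka + Pi) a1 (ka + P a1) b1 (ka + P' b1) *
      eg γ B T ka (ka + Pi) a2 (ka + P a2) b2 (ka + P' b2) < 0) :
    0 ≤ |eg γ B T ka (ka + Pi) a2 (ka + P a2) b2 (ka + P' b2)| *
        GM (γ.mu B T ka (ka + Pi)) B T QR QL ka (ka + Pi) a1 (Q a1) (ka + P a1) b1 (Q' b1) (ka + P' b1) +
      |eg γ B T ka (ka + Pi) a1 (ka + P a1) b1 (ka + P' b1)| *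
        GM (γ.mu B T ka (ka + Pi)) B T QR QL ka (ka + Pi) a2 (Q a2) (ka + P a2) b2 (Q' b2) (ka + P' b2) := by
  obtain ⟨A1, hA1⟩ : ∃ A : ℝ → ℝ, A = fun ε => a1 + ε * ((2 * B + T) / 3 - a1) := ⟨_, rfl⟩
  obtain ⟨A2, hA2⟩ : ∃ A : ℝ → ℝ, A = fun ε => a2 + ε * ((B + 2 * T) / 3 - a2) := ⟨_, rfl⟩
  obtain ⟨B1, hB1⟩ : ∃ A : ℝ → ℝ, A = fun ε => b1 + ε * ((B + 2 * T) / 3 - b1) := ⟨_, rfl⟩
  obtain ⟨B2, hB2⟩ : ∃ A : ℝ → ℝ, A = fun ε => b2 + ε * ((2 * B + T) / 3 - b2) := ⟨_, rfl⟩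
  have A10 : A1 0 = a1 := by rw [hA1]; ring
  have A20 : A2 0 = a2 := by rw [hA2]; ring
  have B10 : B1 0 = b1 := by rw [hB1]; ring
  have B20 : B2 0 = b2 := by rw [hB2]; ring
  have cA1 : ContinuousAt A1 0 := by rw [hA1]; fun_prop
  have cA2 : ContinuousAt A2 0 := by rw [hA2]; fun_prop
  have cB1 : ContinuousAt B1 0 := by rw [hB1]; fun_prop
  have cB2 : ContinuousAt B2 0 := by rw [hB2]; fun_prop
  have pA1 : ContinuousAt (fun ε => ka + P (A1 ε)) 0 :=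
    continuousAt_const.add (L1.cP.continuousAt.comp cA1)
  have pA2 : ContinuousAt (fun ε => ka + P (A2 ε)) 0 :=
    continuousAt_const.add (L1.cP.continuousAt.comp cA2)
  have pB1 : ContinuousAt (fun ε => ka + P' (B1 ε)) 0 :=
    continuousAt_const.add (L2.cP.continuousAt.comp cB1)
  have pB2 : ContinuousAt (fun ε => ka + P' (B2 ε)) 0 :=
    continuousAt_const.add (L2.cP.continuousAt.comp cB2)
  have qA1 : ContinuousAt (fun ε => Q (A1 ε)) 0 := L1.cQ.continuousAt.comp cA1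
  have qA2 : ContinuousAt (fun ε => Q (A2 ε)) 0 := L1.cQ.continuousAt.comp cA2
  have qB1 : ContinuousAt (fun ε => Q' (B1 ε)) 0 := L2.cQ.continuousAt.comp cB1
  have qB2 : ContinuousAt (fun ε => Q' (B2 ε)) 0 := L2.cQ.continuousAt.comp cB2
  have G1 := GM_cont γ (B := B) (T := T) (QR := QR) (QL := QL) (Pi := Pi) cA1 qA1 pA1 cB1 qB1 pB1
    (continuousAt_const (y := ka)) (by rw [A10]; linarith) (by rw [B10]; linarith)
  have G2 := GM_cont γ (B := B) (T := T) (QR := QR) (QL := QL) (Pi := Pi) cA2 qA2 pA2 cB2 qB2 pB2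
    (continuousAt_const (y := ka)) (by rw [A20]; linarith) (by rw [B20]; linarith)
  have E1 : ContinuousAt (fun ε => eg γ B T ka (ka + Pi) (A1 ε) (ka + P (A1 ε)) (B1 ε)
      (ka + P' (B1 ε))) 0 := by unfold eg; fun_prop
  have E2 : ContinuousAt (fun ε => eg γ B T ka (ka + Pi) (A2 ε) (ka + P (A2 ε)) (B2 ε)
      (ka + P' (B2 ε))) 0 := by unfold eg; fun_prop
  have F0 : ContinuousAt (fun t =>
      |eg γ B T ka (ka + Pi) (A2 t) (ka + P (A2 t)) (B2 t) (ka + P' (B2 t))| *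
        GM (γ.mu B T ka (ka + Pi)) B T QR QL ka (ka + Pi) (A1 t) (Q (A1 t)) (ka + P (A1 t)) (B1 t) (Q' (B1 t))
          (ka + P' (B1 t)) +
      |eg γ B T ka (ka + Pi) (A1 t) (ka + P (A1 t)) (B1 t) (ka + P' (B1 t))| *
        GM (γ.mu B T ka (ka + Pi)) B T QR QL ka (ka + Pi) (A2 t) (Q (A2 t)) (ka + P (A2 t)) (B2 t) (Q' (B2 t))
          (ka + P' (B2 t))) 0 := (E2.abs.mul G1).add (E1.abs.mul G2)
  have F := F0.tendsto.mono_left (nhdsWithin_le_nhds (s := Set.Ioi 0))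
  have E12 : ContinuousAt (fun t => eg γ B T ka (ka + Pi) (A1 t) (ka + P (A1 t)) (B1 t)
      (ka + P' (B1 t)) * eg γ B T ka (ka + Pi) (A2 t) (ka + P (A2 t)) (B2 t) (ka + P' (B2 t))) 0 :=
    E1.mul E2
  have neg : ∀ᶠ t in 𝓝[>] (0:ℝ), eg γ B T ka (ka + Pi) (A1 t) (ka + P (A1 t)) (B1 t)
      (ka + P' (B1 t)) * eg γ B T ka (ka + Pi) (A2 t) (ka + P (A2 t)) (B2 t) (ka + P' (B2 t)) < 0 := by
    have h7 := E12.tendsto.eventually_lt_const (u := 0) (by
      simp only [A10, A20, B10, B20]; exact he)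
    exact h7.filter_mono nhdsWithin_le_nhds
  have R := ge_of_tendsto (b := (0:ℝ)) F (by
    have ev : ∀ᶠ t : ℝ in 𝓝[>] 0, 0 < t ∧ t < 1 := by
      have := Ioo_mem_nhdsGT (one_pos : (0:ℝ) < 1)
      filter_upwards [this] with t ht using ht
    filter_upwards [ev, neg] with t ht hn
    obtain ⟨t0, t1⟩ := ht
    have u1 : 0 < 1 - t := by linarith
    have v1 := mul_nonneg u1.le (by linarith : 0 ≤ a1 - B)
    have v2 := mul_nonneg u1.le (by linarith : 0 ≤ a2 - a1)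
    have v3 := mul_nonneg u1.le (by linarith : 0 ≤ T - a2)
    have v4 := mul_nonneg u1.le (by linarith : 0 ≤ b2 - B)
    have v5 := mul_nonneg u1.le (by linarith : 0 ≤ b1 - b2)
    have v6 := mul_nonneg u1.le (by linarith : 0 ≤ T - b1)
    have v7 := mul_pos t0 (by linarith : 0 < T - B)
    have w1 : B < A1 t := by rw [hA1]; simp only; nlinarith
    have w2 : A1 t < A2 t := by rw [hA1, hA2]; simp only; nlinarith
    have w3 : A2 t < T := by rw [hA2]; simp only; nlinarith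
    have w4 : B < B2 t := by rw [hB2]; simp only; nlinarith
    have w5 : B2 t < B1 t := by rw [hB1, hB2]; simp only; nlinarith
    have w6 : B1 t < T := by rw [hB1]; simp only; nlinarith
    have x1 : eg γ B T ka (ka + Pi) (A1 t) (ka + P (A1 t)) (B1 t) (ka + P' (B1 t)) ≠ 0 :=
      fun h0 => by rw [h0, zero_mul] at hn; exact lt_irrefl _ hn
    have x2 : eg γ B T ka (ka + Pi) (A2 t) (ka + P (A2 t)) (B2 t) (ka + P' (B2 t)) ≠ 0 :=
      fun h0 => by rw [h0, mul_zero] at hn; exact lt_irrefl _ hn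
    have y1 := abs_pos.mpr x1
    have y2 := abs_pos.mpr x2
    have k := TW_leg γ L1 L2 ka w1 w2 w3 w4 w5 w6 y2.le y1.le
    refine le_trans ?_ k
    refine h B T _ _ _ _ _ _ _ _ _ _ _ _ hB w1 w2 w3 w4 w5 w6 y2 y1 ?_
    rcases mul_neg_iff.mp hn with ⟨z1, z2⟩ | ⟨z1, z2⟩
    · rw [abs_of_pos z1, abs_of_neg z2]; ring
    · rw [abs_of_neg z1, abs_of_pos z2]; ring)
  simp only [A10, A20, B10, B20] at R
  exact R

end

/-- **reduction**: the two-state statement gives the one-dimensional statement for nested families -/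
theorem NEST_of_TWOg (γ : Gauge) (h : Stmt_TWOg γ) (L R : ℝ) : Stmt_NEST L R := by
  intro B T a b y t z s hB hBT _ hy hz _ _ _ _ hbal ka _ _ _ _ S hS hN
  have L1 := Ld_of_chain hB hy t
  have L2 := Ld_of_chain hB hz s
  rw [← hbal] at L2
  have hQy : ∀ k, k ≤ a → PF y (fun i => (t i) ^ 2) a (y k) = QI y t k := fun k hk =>
    PF_node hy _ hk
  have hQz : ∀ k, k ≤ b → PF z (fun i => (s i) ^ 2) b (z k) = QI z s k := fun k hk =>
    PF_node hz _ hk
  have by1 : ∀ k, k ≤ a → B ≤ y k := fun k hk => by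
    have := hy.mono (Nat.zero_le k) hk; rwa [hy.y0] at this
  have by2 : ∀ k, k ≤ a → y k ≤ T := fun k hk => by
    have := hy.mono hk le_rfl; rwa [hy.ya] at this
  have bz1 : ∀ k, k ≤ b → B ≤ z k := fun k hk => by
    have := hz.mono (Nat.zero_le k) hk; rwa [hz.y0] at this
  have bz2 : ∀ k, k ≤ b → z k ≤ T := fun k hk => by
    have := hz.mono hk le_rfl; rwa [hz.ya] at this
  obtain ⟨lam, H⟩ := helly S
    (fun x => GM (γ.mu B T ka (ka + PI y t a)) B T (QI y t a) (QI z s b) ka (ka + PI y t a) (y x.1) (QI y t x.1)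
      (ka + PI y t x.1) (z x.2) (QI z s x.2) (ka + PI z s x.2))
    (fun x => eg γ B T ka (ka + PI y t a) (y x.1) (ka + PI y t x.1) (z x.2) (ka + PI z s x.2))
    (fun x hx he => by
      obtain ⟨k1, k2⟩ := hS x hx
      have := singleg γ h hB hBT L1 L2 ka (by1 _ k1) (by2 _ k1) (bz1 _ k2) (bz2 _ k2) (by
        rw [PF_node hy t k1, PF_node hz s k2]; exact he)
      rw [PF_node hy t k1, PF_node hz s k2, hQy _ k1, hQz _ k2] at this
      exact this)
    (fun x hx x' hx' he => by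
      obtain ⟨k1, k2⟩ := hS x hx
      obtain ⟨k3, k4⟩ := hS x' hx'
      rcases hN x hx x' hx' with ⟨n1, n2⟩ | ⟨n1, n2⟩
      · have := pairg γ h hB hBT L1 L2 ka (by1 _ k1) (hy.mono n1 k3) (by2 _ k3) (bz1 _ k4)
          (hz.mono n2 k2) (bz2 _ k2) (by
            rw [PF_node hy t k1, PF_node hz s k2, PF_node hy t k3, PF_node hz s k4]; exact he)
        rw [PF_node hy t k1, PF_node hz s k2, PF_node hy t k3, PF_node hz s k4, hQy _ k1, hQz _ k2,
          hQy _ k3, hQz _ k4] at this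
        exact this
      · have := pairg γ h hB hBT L1 L2 ka (by1 _ k3) (hy.mono n1 k1) (by2 _ k1) (bz1 _ k2)
          (hz.mono n2 k4) (bz2 _ k4) (by
            rw [PF_node hy t k1, PF_node hz s k2, PF_node hy t k3, PF_node hz s k4, mul_comm]
            exact he)
        rw [PF_node hy t k1, PF_node hz s k2, PF_node hy t k3, PF_node hz s k4, hQy _ k1, hQz _ k2,
          hQy _ k3, hQz _ k4] at this
        rw [add_comm]
        exact this)
  refine ⟨lam, γ.mu B T ka (ka + PI y t a) - lam * (γ.k1 B T * ((ka + (ka + PI y t a)) / (B + T)) +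
    γ.k2 B T), 0, fun x hx => ?_⟩
  rw [CC_eqg]
  exact H x hx

/-- the gauge of `Stmt_TWO` -/
noncomputable def gX : Gauge where
  k1 := fun _ _ => 1
  k2 := fun _ _ => 0
  mu := muX
  k1n := fun _ _ _ _ => one_ne_zero
  cont := fun B T Pi => by unfold muX; fun_prop

/-- the half-shift gauge (note 2445): `V* = V/2 + σ/8`,
`mu = -σ V + (4/3) h (V/σ + 1/4) b - (2/3) (2 + h²) b²/(T B)` -/
noncomputable def gH : Gauge where
  k1 := fun _ _ => 1 / 2
  k2 := fun B T => (B + T) / 8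
  mu := fun B T PB PT => -(PB + PT) +
    4 / 3 * ((T - B) / (B + T)) * ((PB + PT) / (B + T) ^ 2 + 1 / 4) *
      ((B * PT - T * PB) / (B + T)) -
    2 / 3 * (2 + ((T - B) / (B + T)) ^ 2) * ((B * PT - T * PB) / (B + T)) ^ 2 / (T * B)
  k1n := fun _ _ _ _ => by norm_num
  cont := fun B T Pi => by fun_prop

lemma TWg_X (B T a1 a2 b1 b2 m1 m2 PB PT p1 p2 q1 q2 : ℝ) :
    TWg (muX B T PB PT) B T a1 a2 b1 b2 m1 m2 PB PT p1 p2 q1 q2 =
      TW B T a1 a2 b1 b2 m1 m2 PB PT p1 p2 q1 q2 := rfl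

/-- pointwise (sandwich) form: for every strict pair of states and all values of the primitive there
is a number `l` with `G_1 + l M_1 ≥ 0` and `G_2 + l M_2 ≥ 0` (energies on the common 6 arcs) -/
def Stmt_SND (γ : Gauge) : Prop :=
  ∀ B T a1 a2 b1 b2 PB PT p1 p2 q1 q2 : ℝ, 0 < B → B < a1 → a1 < a2 → a2 < T →
    B < b2 → b2 < b1 → b1 < T → ∃ l : ℝ,
    0 ≤ TWg (γ.mu B T PB PT) B T a1 a2 b1 b2 1 0 PB PT p1 p2 q1 q2 +
      l * eg γ B T PB PT a1 p1 b1 q1 ∧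
    0 ≤ TWg (γ.mu B T PB PT) B T a1 a2 b1 b2 0 1 PB PT p1 p2 q1 q2 +
      l * eg γ B T PB PT a2 p2 b2 q2

lemma TWg_lin (mu B T a1 a2 b1 b2 m1 m2 PB PT p1 p2 q1 q2 : ℝ) :
    TWg mu B T a1 a2 b1 b2 m1 m2 PB PT p1 p2 q1 q2 =
      m1 * TWg mu B T a1 a2 b1 b2 1 0 PB PT p1 p2 q1 q2 +
      m2 * TWg mu B T a1 a2 b1 b2 0 1 PB PT p1 p2 q1 q2 := by
  unfold TWg
  ring

theorem TWOg_of_SND {γ : Gauge} (h : Stmt_SND γ) : Stmt_TWOg γ := by
  intro B T a1 a2 b1 b2 m1 m2 PB PT p1 p2 q1 q2 h1 h2 h3 h4 h5 h6 h7 hm1 hm2 he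
  obtain ⟨l, l1, l2⟩ := h B T a1 a2 b1 b2 PB PT p1 p2 q1 q2 h1 h2 h3 h4 h5 h6 h7
  have k1 := mul_nonneg hm1.le l1
  have k2 := mul_nonneg hm2.le l2
  have e : l * (m1 * eg γ B T PB PT a1 p1 b1 q1 + m2 * eg γ B T PB PT a2 p2 b2 q2) = 0 := by
    rw [he, mul_zero]
  rw [TWg_lin]
  linarith

/-- exchange of the two chains: `(a1, b1), (a2, b2)` with masses `m1, m2` becomes
`(b2, a2), (b1, a1)` with masses `m2, m1` -/
lemma TWg_swap (mu B T a1 a2 b1 b2 m1 m2 PB PT p1 p2 q1 q2 : ℝ) :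
    TWg mu B T b2 b1 a2 a1 m2 m1 PB PT q2 q1 p2 p1 =
      TWg mu B T a1 a2 b1 b2 m1 m2 PB PT p1 p2 q1 q2 := by
  unfold TWg
  ring

lemma eg_swap (γ : Gauge) (B T PB PT a p b q : ℝ) :
    eg γ B T PB PT b q a p = eg γ B T PB PT a p b q := by unfold eg; ring

end Pool.G1.Gap
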