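import Pool.Agent.Work.MP_b5407d_g1.Pl_GAP5
import Pool.Agent.Work.MP_b5407d_g1.Pl_TWOg

/-!
# G1: (S2+) from the two-state statement
-/

set_option autoImplicit false

namespace Pool.G1.Gap

/-- (S2+) from the two-state statement -/
theorem S2_of_TWO (hE : Stmt_PEU) (hM : Stmt_PMI) (hU : Stmt_HU) (h : Stmt_TWO) : Stmt_S2 :=
  S2_of_NEST hE hM hU (NEST_of_TWO h 0 0)

/-- (S2+) from the two-state statement in any gauge -/
theorem S2_of_TWOg (hE : Stmt_PEU) (hM : Stmt_PMI) (hU : Stmt_HU) {γ : Gauge} (h : Stmt_TWOg γ) :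
    Stmt_S2 :=
  S2_of_NEST hE hM hU (NEST_of_TWOg γ h 0 0)

/-- (S2+) from the sandwich statement in any gauge -/
theorem S2_of_SND (hE : Stmt_PEU) (hM : Stmt_PMI) (hU : Stmt_HU) {γ : Gauge} (h : Stmt_SND γ) :
    Stmt_S2 :=
  S2_of_TWOg hE hM hU (TWOg_of_SND h)

end Pool.G1.Gap
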