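import Pool.Agent.Work.MP_b5407d_g1.PLS
import Pool.Agent.Work.MP_b5407d_g1.PEU
import Pool.Agent.Work.MP_b5407d_g1.PGS

/-!
# Block TRI: `Stmt_S2p` for triangles

For a triangle `ζ = δ - b` is a translation, so `J''_ζ = 0`.  With `β i = δ i / W i` (sum 1) and values
`ρ_j` at the vertices, `A = area * Σ_j ρ_j (β_j θ_j + β_(j-1) θ_(j-1) - 1/3)`, and the coefficient of the
vertex opposite to the edge with the largest `β` is at most `1/4 - 1/3`.
-/

set_option autoImplicit false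

namespace Pool.G1

namespace TRI

variable {ν v : ℕ → R2} {ℓ : ℕ → ℝ}

/-- `J''_ζ = 0` for a triangle. -/
theorem J2_zero (P : Poly 3 ν v ℓ) (r : ℝ × R2) (ζ : ℕ → ℝ) (hζ : ∀ i, ζ (i + 3) = ζ i)
    (hs : ∑ i ∈ Finset.range 3, ℓ i * ζ i = 0) : J2 3 ν v ℓ r ζ = 0 := by
  set x : R2 := ve ν ζ 0 with hx
  have h0 : dp (ν 0) x = ζ 0 := PGS.ve_dp_left (P.turn 0) ζ
  have h1 : dp (ν 1) x = ζ 1 := PGS.ve_dp_right (P.turn 0) ζ
  have hc := PEUaux.closure_dp P x
  simp only [Finset.sum_range_succ, Finset.sum_range_zero, zero_add] at hc hs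
  have h2 : dp (ν 2) x = ζ 2 := by
    rw [h0, h1] at hc
    have hl := P.pos 2
    have : ℓ 2 * (dp (ν 2) x - ζ 2) = 0 := by linarith
    have := (mul_eq_zero.1 this).resolve_left hl.ne'
    linarith
  have hall : ∀ i, ζ i = dp (ν i) x := by
    have key : ∀ k, ∀ j < 3, ζ (j + 3 * k) = dp (ν (j + 3 * k)) x := by
      intro k
      induction k with
      | zero =>
        intro j hj
        interval_cases j
        · simpa using h0.symm
        · simpa using h1.symm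
        · simpa using h2.symm
      | succ k ih =>
        intro j hj
        have e : j + 3 * (k + 1) = (j + 3 * k) + 3 := by ring
        rw [e, hζ, P.pν]
        exact ih j hj
    intro i
    have := key (i / 3) (i % 3) (Nat.mod_lt _ (by norm_num))
    rwa [Nat.mod_add_div] at this
  have hfun : ζ = fun i => dp (ν i) x := funext hall
  obtain ⟨-, -, -, -, -, -, -, h8⟩ := blk_PEU 3 ν v ℓ P
  have hz : ∑ i ∈ Finset.range 3, ℓ i * ζ i = 0 := by
    simp only [Finset.sum_range_succ, Finset.sum_range_zero, zero_add]; exact hs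
  have := h8 x r ζ hζ
  rw [hz, mul_zero] at this
  unfold J2
  conv_lhs => arg 7; rw [hfun]
  exact this

/-- the width `W i` -/
theorem width (P : Poly 3 ν v ℓ) (i : ℕ) :
    dp (ν i) (v i - v (i + 2)) = ℓ (i + 1) * cp (ν i) (ν (i + 1)) := by
  have e1 := P.edge i
  have e2 := P.edge (i + 1)
  have e3 : v (i + 2) = v i + ℓ i • rt (ν i) + ℓ (i + 1) • rt (ν (i + 1)) := by
    rw [← e1, ← e2]
  rw [e3]
  simp only [dp, cp, rt, Prod.fst_sub, Prod.snd_sub, Prod.fst_add, Prod.snd_add,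
    Prod.smul_fst, Prod.smul_snd, smul_eq_mul]
  ring

theorem dp_edge (P : Poly 3 ν v ℓ) (i : ℕ) : dp (ν i) (v i - v (i + 1)) = 0 := by
  rw [P.edge i]
  simp only [dp, rt, Prod.fst_sub, Prod.snd_sub, Prod.fst_add, Prod.snd_add,
    Prod.smul_fst, Prod.smul_snd, smul_eq_mul]
  ring

theorem dp_self (i : ℕ) : dp (ν i) (v i - v i) = 0 := by
  simp [dp]

/-- affine function with value `8` at the vertex opposite to the edge `i` and `1` on the edge. -/
noncomputable def rr (ν v : ℕ → R2) (i : ℕ) : ℝ × R2 :=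
  (1 + 7 / dp (ν i) (v i - v (i + 2)) * dp (ν i) (v i),
    (-(7 / dp (ν i) (v i - v (i + 2)))) • ν i)

theorem af_rr (i : ℕ) (x : R2) :
    af (rr ν v i) x = 1 + 7 / dp (ν i) (v i - v (i + 2)) * dp (ν i) (v i - x) := by
  simp only [af, rr, dp, Prod.smul_fst, Prod.smul_snd, smul_eq_mul, Prod.fst_sub, Prod.snd_sub]
  ring

theorem arith {b0 b1 b2 t0 t1 t2 : ℝ} (h0 : 0 ≤ b0) (h1 : 0 ≤ b1) (h2 : 0 ≤ b2)
    (hs : b0 + b1 + b2 = 1) (ht0 : 0 ≤ t0) (ht1 : 0 ≤ t1) (ht2 : 0 ≤ t2)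
    (h0' : t0 ≤ 2 / 3) (h1b : t1 ≤ b1) (h2b : t2 ≤ b2) (h1' : t1 ≤ 2 / 3) (h2' : t2 ≤ 2 / 3)
    (hm1 : b1 ≤ b0) (hm2 : b2 ≤ b0) :
    (b0 * t0 + b2 * t2 - 1 / 3) + (b1 * t1 + b0 * t0 - 1 / 3) +
      8 * (b1 * t1 + b2 * t2 - 1 / 3) ≤ 0 := by
  have e0 : b0 * t0 ≤ b0 * (2 / 3) := mul_le_mul_of_nonneg_left h0' h0
  have e1 : b1 * t1 ≤ b1 * b1 := mul_le_mul_of_nonneg_left h1b h1
  have e2 : b2 * t2 ≤ b2 * b2 := mul_le_mul_of_nonneg_left h2b h2
  have hb0 : b0 = 1 - b1 - b2 := by linarith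
  subst hb0
  have k1 : 0 ≤ 1 - 2 * b1 - b2 := by linarith
  have k2 : 0 ≤ 1 - b1 - 2 * b2 := by linarith
  nlinarith [mul_nonneg h1 k1, mul_nonneg h2 k2, mul_nonneg h1 k2, mul_nonneg h2 k1,
    mul_nonneg h1 h2]

end TRI

open TRI in
/-- `Stmt_S2p` for `n = 3`. -/
theorem blk_TRI : ∀ (ν v : ℕ → R2) (ℓ : ℕ → ℝ), Poly 3 ν v ℓ → ∀ δ θ : ℕ → ℝ,
    (∀ i, δ (i + 3) = δ i) → (∀ i, θ (i + 3) = θ i) → (∀ i, 0 ≤ δ i) → (∀ i, 0 ≤ θ i) →
    (∀ i, θ i ≤ 2 / 3) → (∀ i k, θ i * dp (ν i) (v i - v k) ≤ δ i) →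
    ∑ i ∈ Finset.range 3, ℓ i * δ i = 2 * ar 3 v →
    ∃ r : ℝ × R2, (∀ k, 0 < af r (v k)) ∧
      T1 3 v ℓ r δ θ - 2 * J1 3 v ℓ r δ + 1 / 2 * J2 3 ν v ℓ r δ + 2 * J0 3 v r ≤ 0 := by
  intro ν v ℓ P δ θ pδ pθ hδ hθ hθ2 hθW hsum
  obtain ⟨-, har, h2, h3, -, -, -, -⟩ := blk_PEU 3 ν v ℓ P
  -- periodicity
  have v3 : v 3 = v 0 := P.pv 0
  have v4 : v 4 = v 1 := P.pv 1
  have W0 := width P 0
  have W1 := width P 1
  have W2 := width P 2
  simp only [zero_add, Nat.reduceAdd, v3, v4] at W0 W1 W2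
  have ν3 : ν 3 = ν 0 := P.pν 0
  have ℓ3 : ℓ 3 = ℓ 0 := P.pℓ 0
  have d00 := dp_edge P 0
  have d11 := dp_edge P 1
  have d22 := dp_edge P 2
  simp only [zero_add, Nat.reduceAdd, v3, v4] at d00 d11 d22
  set w0 := dp (ν 0) (v 0 - v 2) with hw0
  set w1 := dp (ν 1) (v 1 - v 0) with hw1
  set w2 := dp (ν 2) (v 2 - v 1) with hw2
  have w0p : 0 < w0 := by rw [W0]; exact mul_pos (P.pos 1) (P.turn 0)
  have w1p : 0 < w1 := by rw [W1]; exact mul_pos (P.pos 2) (P.turn 1)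
  have w2p : 0 < w2 := by rw [W2]; exact mul_pos (P.pos 3) (P.turn 2)
  set S := ar 3 v with hS
  -- `2 S = ℓ i W i`
  have a0 : ℓ 0 * w0 = 2 * S := by
    have := h2 (v 2)
    simp only [Finset.sum_range_succ, Finset.sum_range_zero, zero_add] at this
    rw [d11, dp_self] at this
    linarith
  have a1 : ℓ 1 * w1 = 2 * S := by
    have := h2 (v 0)
    simp only [Finset.sum_range_succ, Finset.sum_range_zero, zero_add] at this
    rw [d22, dp_self] at this
    linarith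
  have a2 : ℓ 2 * w2 = 2 * S := by
    have := h2 (v 1)
    simp only [Finset.sum_range_succ, Finset.sum_range_zero, zero_add] at this
    rw [d00, dp_self] at this
    linarith
  -- barycentric coordinates
  set b0 := δ 0 / w0 with hb0
  set b1 := δ 1 / w1 with hb1
  set b2 := δ 2 / w2 with hb2
  have hd0 : δ 0 = b0 * w0 := by rw [hb0]; field_simp
  have hd1 : δ 1 = b1 * w1 := by rw [hb1]; field_simp
  have hd2 : δ 2 = b2 * w2 := by rw [hb2]; field_simp
  have b0n : 0 ≤ b0 := div_nonneg (hδ 0) w0p.le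
  have b1n : 0 ≤ b1 := div_nonneg (hδ 1) w1p.le
  have b2n : 0 ≤ b2 := div_nonneg (hδ 2) w2p.le
  have hbs : b0 + b1 + b2 = 1 := by
    have := hsum
    simp only [Finset.sum_range_succ, Finset.sum_range_zero, zero_add] at this
    rw [hd0, hd1, hd2] at this
    have e : 2 * S * (b0 + b1 + b2) = 2 * S * 1 := by
      calc 2 * S * (b0 + b1 + b2) = (ℓ 0 * w0) * b0 + (ℓ 1 * w1) * b1 + (ℓ 2 * w2) * b2 := by
            rw [a0, a1, a2]; ring
        _ = 2 * S * 1 := by linarith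
    exact mul_left_cancel₀ (by positivity) e
  have t0 : θ 0 ≤ b0 := by rw [hb0, le_div_iff₀ w0p]; exact hθW 0 2
  have t1 : θ 1 ≤ b1 := by rw [hb1, le_div_iff₀ w1p]; exact hθW 1 0
  have t2 : θ 2 ≤ b2 := by rw [hb2, le_div_iff₀ w2p]; exact hθW 2 1
  -- the value of `A`
  have hA : ∀ r : ℝ × R2, T1 3 v ℓ r δ θ - 2 * J1 3 v ℓ r δ + 1 / 2 * J2 3 ν v ℓ r δ +
      2 * J0 3 v r = S * (af r (v 0) * (b0 * θ 0 + b2 * θ 2 - 1 / 3) +
        af r (v 1) * (b1 * θ 1 + b0 * θ 0 - 1 / 3) +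
        af r (v 2) * (b1 * θ 1 + b2 * θ 2 - 1 / 3)) := by
    intro r
    have hz : ∀ i, (fun i => δ i - dp (ν i) (v i - 0)) (i + 3) =
        (fun i => δ i - dp (ν i) (v i - 0)) i := by
      intro i; simp only [P.pν, P.pv, pδ]
    have hsz : ∑ i ∈ Finset.range 3, ℓ i * (fun i => δ i - dp (ν i) (v i - 0)) i = 0 := by
      have e := h2 0
      have e2 := hsum
      simp only [Finset.sum_range_succ, Finset.sum_range_zero, zero_add] at e e2 ⊢
      linarith
    have hN := J2_zero P r _ hz hsz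
    have hJ := PLS.J2_zeta blk_PEU P r δ pδ hsum
    rw [hN] at hJ
    have hJ0 : 3 * J0 3 v r = S * (af r (v 0) + af r (v 1) + af r (v 2)) := by
      have e := h3 (v 2) r
      unfold J1 EI at e
      simp only [Finset.sum_range_succ, Finset.sum_range_zero, zero_add] at e
      rw [d11, dp_self] at e
      have : w0 * (ℓ 0 * ((af r (v 0) + af r (v 1)) / 2)) = S * (af r (v 0) + af r (v 1)) := by
        calc w0 * (ℓ 0 * ((af r (v 0) + af r (v 1)) / 2))
            = (ℓ 0 * w0) * ((af r (v 0) + af r (v 1)) / 2) := by ring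
          _ = S * (af r (v 0) + af r (v 1)) := by rw [a0]; ring
      linarith
    have hT : T1 3 v ℓ r δ θ = S * (b0 * θ 0 * (af r (v 0) + af r (v 1)) +
        b1 * θ 1 * (af r (v 1) + af r (v 2)) + b2 * θ 2 * (af r (v 2) + af r (v 0))) := by
      unfold T1 EI
      simp only [Finset.sum_range_succ, Finset.sum_range_zero, zero_add, Nat.reduceAdd, v3]
      rw [hd0, hd1, hd2]
      have : b0 * w0 * θ 0 * (ℓ 0 * ((af r (v 0) + af r (v 1)) / 2)) +
          b1 * w1 * θ 1 * (ℓ 1 * ((af r (v 1) + af r (v 2)) / 2)) +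
          b2 * w2 * θ 2 * (ℓ 2 * ((af r (v 2) + af r (v 0)) / 2)) =
          (ℓ 0 * w0) * (b0 * θ 0 * ((af r (v 0) + af r (v 1)) / 2)) +
          (ℓ 1 * w1) * (b1 * θ 1 * ((af r (v 1) + af r (v 2)) / 2)) +
          (ℓ 2 * w2) * (b2 * θ 2 * ((af r (v 2) + af r (v 0)) / 2)) := by ring
      rw [this, a0, a1, a2]; ring
    have e1 : J2 3 ν v ℓ r δ = 4 * J1 3 v ℓ r δ - 6 * J0 3 v r := by linarith
    rw [e1, hT]
    have e2 : J0 3 v r = S * (af r (v 0) + af r (v 1) + af r (v 2)) / 3 := by linarith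
    rw [e2]; ring
  -- positivity at all vertices from the three vertices
  have hall : ∀ r : ℝ × R2, 0 < af r (v 0) → 0 < af r (v 1) → 0 < af r (v 2) →
      ∀ k, 0 < af r (v k) := by
    intro r g0 g1 g2 k
    have hp : Function.Periodic v 3 := P.pv
    have hk : v (k % 3) = v k := hp.map_mod_nat k
    rw [← hk]
    have : k % 3 < 3 := Nat.mod_lt _ (by norm_num)
    interval_cases (k % 3)
    · exact g0
    · exact g1
    · exact g2
  have r0 : ∀ x, af (rr ν v 0) x = 1 + 7 / w0 * dp (ν 0) (v 0 - x) := fun x => af_rr 0 x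
  have r1 : ∀ x, af (rr ν v 1) x = 1 + 7 / w1 * dp (ν 1) (v 1 - x) := by
    intro x
    have := af_rr (ν := ν) (v := v) 1 x
    simp only [Nat.reduceAdd, v3] at this
    exact this
  have r2 : ∀ x, af (rr ν v 2) x = 1 + 7 / w2 * dp (ν 2) (v 2 - x) := by
    intro x
    have := af_rr (ν := ν) (v := v) 2 x
    simp only [Nat.reduceAdd, v4] at this
    exact this
  have q0 : 7 / w0 * w0 = 7 := div_mul_cancel₀ _ w0p.ne'
  have q1 : 7 / w1 * w1 = 7 := div_mul_cancel₀ _ w1p.ne'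
  have q2 : 7 / w2 * w2 = 7 := div_mul_cancel₀ _ w2p.ne'
  rcases le_total b1 b0 with h10 | h10
  · rcases le_total b2 b0 with h20 | h20
    · -- b0 is the largest: opposite vertex 2
      refine ⟨rr ν v 0, ?_, ?_⟩
      · apply hall
        · rw [r0, dp_self]; norm_num
        · rw [r0, d00]; norm_num
        · rw [r0, ← hw0, q0]; norm_num
      · rw [hA, r0, r0, r0, dp_self, d00, ← hw0, q0]
        refine mul_nonpos_of_nonneg_of_nonpos har.le ?_
        have := arith b0n b1n b2n hbs (hθ 0) (hθ 1) (hθ 2) (hθ2 0) t1 t2 (hθ2 1) (hθ2 2) h10 h20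
        linarith
    · -- b2 is the largest: opposite vertex 1
      refine ⟨rr ν v 2, ?_, ?_⟩
      · apply hall
        · rw [r2, d22]; norm_num
        · rw [r2, ← hw2, q2]; norm_num
        · rw [r2, dp_self]; norm_num
      · rw [hA, r2, r2, r2, dp_self, d22, ← hw2, q2]
        refine mul_nonpos_of_nonneg_of_nonpos har.le ?_
        have := arith b2n b0n b1n (by linarith) (hθ 2) (hθ 0) (hθ 1) (hθ2 2) t0 t1 (hθ2 0)
          (hθ2 1) h20 (le_trans h10 h20)
        linarith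
  · rcases le_total b2 b1 with h21 | h21
    · -- b1 is the largest: opposite vertex 0
      refine ⟨rr ν v 1, ?_, ?_⟩
      · apply hall
        · rw [r1, ← hw1, q1]; norm_num
        · rw [r1, dp_self]; norm_num
        · rw [r1, d11]; norm_num
      · rw [hA, r1, r1, r1, dp_self, d11, ← hw1, q1]
        refine mul_nonpos_of_nonneg_of_nonpos har.le ?_
        have := arith b1n b2n b0n (by linarith) (hθ 1) (hθ 2) (hθ 0) (hθ2 1) t2 t0 (hθ2 2)
          (hθ2 0) h21 h10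
        linarith
    · refine ⟨rr ν v 2, ?_, ?_⟩
      · apply hall
        · rw [r2, d22]; norm_num
        · rw [r2, ← hw2, q2]; norm_num
        · rw [r2, dp_self]; norm_num
      · rw [hA, r2, r2, r2, dp_self, d22, ← hw2, q2]
        refine mul_nonpos_of_nonneg_of_nonpos har.le ?_
        have := arith b2n b0n b1n (by linarith) (hθ 2) (hθ 0) (hθ 1) (hθ2 2) t0 t1 (hθ2 0)
          (hθ2 1) (le_trans h10 h21) h21
        linarith

end Pool.G1
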