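import Pool.Agent.Work.MP_b5407d_g1.Pl_GAP6
import Pool.Agent.Work.MP_b5407d_g1.Pl_TWO6
import Pool.Agent.Work.MP_b5407d_g1.Pl_Qpos
import Pool.Agent.Work.MP_b5407d_g1.PLS
import Pool.Agent.Work.MP_b5407d_g1.TRI
import Pool.Agent.Work.MP_b5407d_g1.PMI

/-!
# G1: the strict form `Stmt_S2p` and the planar target `Stmt_PL` from the one-dimensional statements

The certificate is always one of the functions `r_k = s_k + (2/3) q_k`, which is strictly positive for
`n ≥ 4` (`q_k > 0`); triangles are `blk_TRI`.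
-/

set_option autoImplicit false

open Finset

namespace Pool.G1.Gap

/-- `Stmt_S2p` from the statement for nested families (no further hypotheses) -/
theorem S2p_of_NEST (h1 : Stmt_NEST 0 0) : Stmt_S2p := by
  intro n ν v ℓ hP δ θ hδ hθ hδ0 hθ0 hθ2 hθW hS
  have hE := blk_PEU
  have hM := blk_PMI
  have hU := blk_HU hE hM
  have hn3 := hP.n3
  rcases Nat.lt_or_ge n 4 with hn | hn4
  · obtain rfl : n = 3 := by omega
    exact blk_TRI ν v ℓ hP δ θ hδ hθ hδ0 hθ0 hθ2 hθW hS
  · obtain ⟨W, hW1, hW2⟩ := exists_W hP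
    obtain ⟨-, hr, h⟩ := blk_V hE hM hU n ν v ℓ hP W hW1 hW2 δ θ hδ hδ0 hθ2 hS
    rcases h with ⟨k, -, hk⟩ | ⟨c, hc0, -, hc2, hc3⟩
    · refine ⟨rk n ν v W k, fun j => ?_, hk⟩
      have hq := q_pos hE hP hn4 W hW1 hW2 k
      unfold rk
      rw [af_add, af_smul]
      have h4 : af (sk ν v (W k) k) (v j) = W k - dp (ν k) (v k - v j) := by
        simp only [af, sk, dp, Prod.fst_sub, Prod.snd_sub]; ring
      have h5 : af ((1, (0, 0)) : ℝ × R2) (v j) = 1 := by simp [af, dp]
      rw [h4, h5]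
      have := hW1 k j
      linarith
    · exfalso
      refine absurd hc3 (not_lt.mpr ?_)
      refine AA_le_of_NEST hE hM h1 hP W hW1 δ θ hδ hθ hθ0 hθ2 (fun i => ?_) hS _ (fun k => ?_) hc2
        (Or.inl le_rfl) (Or.inl le_rfl)
      · obtain ⟨j, hj⟩ := hW2 i
        rw [← hj]
        exact hθW i j
      · rw [af_sum]
        exact sum_nonneg fun j _ => mul_nonneg (hc0 j) (hr j k)

/-- the planar target from the statement for nested families -/
theorem PL_of_NEST (h : Stmt_NEST 0 0) : Stmt_PL :=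
  stmt_PLS blk_PEU blk_PMI (S2p_of_NEST h)

/-- the planar target from the one-dimensional statement (pointwise multipliers) -/
theorem PL_of_ONE (h : Stmt_ONE 0 0) : Stmt_PL := PL_of_NEST (NEST_of_ONE h)

/-- the planar target from the finite-dimensional statement `Stmt_FIN6` -/
theorem PL_of_FIN6 (h : Stmt_FIN6 0 0) : Stmt_PL := PL_of_ONE (ONE_of_FIN6 h)

/-- the planar target from the two-state statement in any gauge -/
theorem PL_of_TWOg {γ : Gauge} (h : Stmt_TWOg γ) : Stmt_PL := PL_of_NEST (NEST_of_TWOg γ h 0 0)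

end Pool.G1.Gap
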