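import Pool.Agent.Work.MP_b5407d_g1.AsmD
import Pool.Agent.Work.MP_b5407d_g1.Pl_S2p

/-!
# G1: the final theorems in plain terms, from the planar statement `Stmt_PL`
-/

set_option autoImplicit false

open MeasureTheory Set Filter Topology
open scoped ENNReal Pointwise

namespace Pool.G1.Final

open Pool.G1 Pool.G1.Asm
open Pool.T3 (R3 dt cr K V S H Fam Pos)

/-- the `L_p`-Brunn-Minkowski inequality in `ℝ³`, origin symmetric bodies, `0 < p < 1` -/
theorem sym (hPL : Stmt_PL) :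
  ∀ (p : ℝ), 0 < p → p < 1 →
  ∀ (K C : Set (EuclideanSpace ℝ (Fin 3))),
    Convex ℝ K → IsCompact K → (interior K).Nonempty → (∀ x ∈ K, -x ∈ K) →
    Convex ℝ C → IsCompact C → (interior C).Nonempty → (∀ x ∈ C, -x ∈ C) →
    ∀ (α β : ℝ), 0 < α → 0 < β →
      (α * (volume K).toReal ^ (p / 3) + β * (volume C).toReal ^ (p / 3)
        ≤ (volume {x : EuclideanSpace ℝ (Fin 3) |
              ∀ u ∈ Metric.sphere (0 : EuclideanSpace ℝ (Fin 3)) 1,
                inner ℝ x u ≤ (α * (sSup ((fun y : EuclideanSpace ℝ (Fin 3) => inner ℝ y u) '' K)) ^ p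
                    + β * (sSup ((fun y : EuclideanSpace ℝ (Fin 3) => inner ℝ y u) '' C)) ^ p) ^ (1 / p)}).toReal ^ (p / 3))
      ∧ ((volume {x : EuclideanSpace ℝ (Fin 3) |
              ∀ u ∈ Metric.sphere (0 : EuclideanSpace ℝ (Fin 3)) 1,
                inner ℝ x u ≤ (α * (sSup ((fun y : EuclideanSpace ℝ (Fin 3) => inner ℝ y u) '' K)) ^ p
                    + β * (sSup ((fun y : EuclideanSpace ℝ (Fin 3) => inner ℝ y u) '' C)) ^ p) ^ (1 / p)}).toReal ^ (p / 3)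
          = α * (volume K).toReal ^ (p / 3) + β * (volume C).toReal ^ (p / 3)
        ↔ ∃ t : ℝ, 0 < t ∧ C = (fun x : EuclideanSpace ℝ (Fin 3) => t • x) '' K) :=
  blk_FINQ blk_EQQ (GEQ_all hPL)

/-- the logarithmic Brunn-Minkowski inequality in `ℝ³`, origin symmetric bodies -/
theorem log (hPL : Stmt_PL) :
  ∀ (K C : Set (EuclideanSpace ℝ (Fin 3))),
    Convex ℝ K → IsCompact K → (interior K).Nonempty → (∀ x ∈ K, -x ∈ K) →
    Convex ℝ C → IsCompact C → (interior C).Nonempty → (∀ x ∈ C, -x ∈ C) →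
    ∀ t : ℝ, 0 ≤ t → t ≤ 1 →
      (volume K).toReal ^ (1 - t) * (volume C).toReal ^ t
        ≤ (volume {x : EuclideanSpace ℝ (Fin 3) |
              ∀ u ∈ Metric.sphere (0 : EuclideanSpace ℝ (Fin 3)) 1,
                inner ℝ x u ≤ (sSup ((fun y : EuclideanSpace ℝ (Fin 3) => inner ℝ y u) '' K)) ^ (1 - t)
                    * (sSup ((fun y : EuclideanSpace ℝ (Fin 3) => inner ℝ y u) '' C)) ^ t}).toReal :=
  fun K C a1 a2 a3 a4 b1 b2 b3 b4 t h0 h1 => LOG_all hPL K C a1 a2 a3 a4 b1 b2 b3 b4 t ⟨h0, h1⟩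

/-- the dimensional Brunn-Minkowski inequality for even log-concave measures on `ℝ³` -/
theorem dbm (hPL : Stmt_PL) :
  ∀ f : (Fin 3 → ℝ) → ℝ, Measurable f → (∀ x, 0 ≤ f x) → (∀ x, f (-x) = f x) →
    (∀ (x y : Fin 3 → ℝ) (t : ℝ), 0 ≤ t → t ≤ 1 →
      f x ^ t * f y ^ (1 - t) ≤ f (t • x + (1 - t) • y)) →
    ∀ μ : Measure (Fin 3 → ℝ),
      μ = (volume : Measure (Fin 3 → ℝ)).withDensity (fun x => ENNReal.ofReal (f x)) →
    ∀ A B : Set (Fin 3 → ℝ),
      Convex ℝ A → Convex ℝ B → A.Nonempty → B.Nonempty →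
      (∀ x ∈ A, -x ∈ A) → (∀ x ∈ B, -x ∈ B) →
    ∀ t : ℝ, 0 ≤ t → t ≤ 1 →
      ENNReal.ofReal t * (μ A) ^ (1 / (3 : ℝ)) + ENNReal.ofReal (1 - t) * (μ B) ^ (1 / (3 : ℝ))
        ≤ (μ (t • A + (1 - t) • B)) ^ (1 / (3 : ℝ)) := by
  intro f h1 h2 h3 h4 μ hμ A B hA hB hA0 hB0 hAs hBs t ht0 ht1
  subst hμ
  have hE : ELC f := ⟨h1, h2, h3, fun x y t a b => by
    have := h4 x y (1 - t) (by linarith) (by linarith)
    simpa using this⟩
  exact blk_DBM blk_LGV blk_SGR (MEA_all hPL) f hE A B hA hB hA0 hB0 hAs hBs t ht0 ht1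

/-- sections of `ℓ_p` balls by subspaces of dimension at most three -/
theorem sec (hPL : Stmt_PL) :
  ∀ p : ℝ, 0 < p → ∀ (n : ℕ) (H : Submodule ℝ (EuclideanSpace ℝ (Fin n))),
    Module.finrank ℝ H ≤ 3 →
    ∀ (s t : Fin n → ℝ) (l : ℝ), 0 ≤ l → l ≤ 1 →
      (volume {x : H | ∑ i, |Real.exp (-s i) * (x : EuclideanSpace ℝ (Fin n)) i| ^ p ≤ 1}).toReal ^ l *
        (volume {x : H | ∑ i, |Real.exp (-t i) * (x : EuclideanSpace ℝ (Fin n)) i| ^ p ≤ 1}).toReal ^
          (1 - l) ≤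
      (volume {x : H | ∑ i, |Real.exp (-(l * s i + (1 - l) * t i)) *
        (x : EuclideanSpace ℝ (Fin n)) i| ^ p ≤ 1}).toReal := by
  intro p hp n H hH s t l hl0 hl1
  have h := blk_SEC (blk_SC3 (blk_INT blk_MIX) blk_MIX blk_LGV) (MEA_all hPL) p hp n H hH s t (1 - l)
    (by linarith) (by linarith)
  simpa using h

/-- boxes and images of even log-concave measures of `ℝ³` -/
theorem gbx (hPL : Stmt_PL) :
  ∀ f : (Fin 3 → ℝ) → ℝ, Measurable f → (∀ x, 0 ≤ f x) → (∀ x, f (-x) = f x) →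
    (∀ (x y : Fin 3 → ℝ) (t : ℝ), 0 ≤ t → t ≤ 1 →
      f x ^ t * f y ^ (1 - t) ≤ f (t • x + (1 - t) • y)) →
    ∀ (n : ℕ) (A : Matrix (Fin n) (Fin 3) ℝ) (μ : Measure (Fin n → ℝ)),
      μ = ((volume : Measure (Fin 3 → ℝ)).withDensity (fun x => ENNReal.ofReal (f x))).map
        (fun x => A.mulVec x) →
    ∀ c : Fin n → ℝ, (∀ i, 0 < c i) → ∀ (s t : Fin n → ℝ) (a : ℝ), 0 ≤ a → a ≤ 1 →
      (μ {x | ∀ i, |Real.exp (-s i) * x i| ≤ c i}) ^ a *
        (μ {x | ∀ i, |Real.exp (-t i) * x i| ≤ c i}) ^ (1 - a) ≤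
      μ {x | ∀ i, |Real.exp (-(a * s i + (1 - a) * t i)) * x i| ≤ c i} := by
  intro f h1 h2 h3 h4 n A μ hμ c hc s t a ha0 ha1
  have hE : ELC f := ⟨h1, h2, h3, fun x y t a b => by
    have := h4 x y (1 - t) (by linarith) (by linarith)
    simpa using this⟩
  have hmul : Measurable (fun x : Fin 3 → ℝ => A.mulVec x) := by
    have : Continuous (fun x : Fin 3 → ℝ => A.mulVec x) := by
      refine continuous_pi fun i => ?_
      simp only [Matrix.mulVec, dotProduct]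
      fun_prop
    exact this.measurable
  have hset : ∀ r : Fin n → ℝ, μ {x | ∀ i, |Real.exp (-r i) * x i| ≤ c i} =
      ms f (K (fun i => (A i : R3)) (fun i => c i * Real.exp (r i))) := by
    intro r
    rw [hμ, Measure.map_apply hmul]
    · unfold ms
      congr 1
      ext x
      simp only [mem_preimage, mem_setOf_eq, K, Matrix.mulVec, dotProduct]
      refine forall_congr' fun i => ?_
      have e : (∑ j, A i j * x j) = dt (A i) x := by
        simp [dt, Fin.sum_univ_three]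
      rw [e, abs_mul, abs_of_pos (Real.exp_pos _), Real.exp_neg, inv_mul_le_iff₀ (Real.exp_pos _),
        mul_comm (c i)]
    · have : {x : Fin n → ℝ | ∀ i, |Real.exp (-r i) * x i| ≤ c i} =
          ⋂ i, {x : Fin n → ℝ | |Real.exp (-r i) * x i| ≤ c i} := by
        ext x; simp
      rw [this]
      refine MeasurableSet.iInter fun i => ?_
      exact measurableSet_le (by fun_prop) measurable_const
  have hr := hset s
  have ht := hset t
  have hst := hset (fun i => a * s i + (1 - a) * t i)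
  rw [hr, ht, hst]
  rcases eq_or_lt_of_le ha0 with h0 | h0
  · subst h0; simp
  rcases eq_or_lt_of_le ha1 with h1' | h1'
  · subst h1'; simp
  have h := blk_GBX blk_LGV (MEA_all hPL) f hE n (fun i => (A i : R3)) c hc s t (1 - a)
    (by linarith) (by linarith)
  simpa using h

end Pool.G1.Final
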