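import Pool.Agent.Work.MP_b5407d_g1.InterfaceF

/-!
# G1, auxiliary: the facet integral is an integrable function of the tilt (helper55)

`Pool.G1.GIN.ii`: interval integrability of `τ ↦ ∫ ξ in Fc y j n0 p1 p2 β a τ, dp β ξ` for levels `a` near `1`.
-/

set_option autoImplicit false

open MeasureTheory Set Filter Topology

namespace Pool.G1

open Pool.T3 (R3 dt cr de K V S H Fam Pos pt Lam Q J lin)

namespace GIN

theorem dt_chp (c n0 p1 p2 : R3) (α : ℝ) (ξ : R2) :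
    dt c (chp n0 p1 p2 α ξ) = α * dt c n0 + ξ.1 * dt c p1 + ξ.2 * dt c p2 := by
  simp only [dt, chp, Pi.add_apply, Pi.smul_apply, smul_eq_mul]
  ring

theorem xi1 (n0 p1 p2 : R3) (α : ℝ) (ξ : R2) :
    dt (cr p2 n0) (chp n0 p1 p2 α ξ) = ξ.1 * de n0 p1 p2 := by
  simp only [dt, chp, cr, de, Pi.add_apply, Pi.smul_apply, smul_eq_mul, Matrix.cons_val_zero,
    Matrix.cons_val_one, Matrix.cons_val]
  ring

theorem xi2 (n0 p1 p2 : R3) (α : ℝ) (ξ : R2) :
    dt (cr n0 p1) (chp n0 p1 p2 α ξ) = ξ.2 * de n0 p1 p2 := by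
  simp only [dt, chp, cr, de, Pi.add_apply, Pi.smul_apply, smul_eq_mul, Matrix.cons_val_zero,
    Matrix.cons_val_one, Matrix.cons_val]
  ring

theorem dt_bound (c x : R3) (M : ℝ) (hx : ∀ k, |x k| ≤ M) :
    |dt c x| ≤ (|c 0| + |c 1| + |c 2|) * M := by
  have h0 := hx 0
  have h1 := hx 1
  have h2 := hx 2
  calc |dt c x| ≤ |c 0 * x 0 + c 1 * x 1| + |c 2 * x 2| := abs_add_le _ _
    _ ≤ |c 0 * x 0| + |c 1 * x 1| + |c 2 * x 2| := by
        have := abs_add_le (c 0 * x 0) (c 1 * x 1); linarith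
    _ = |c 0| * |x 0| + |c 1| * |x 1| + |c 2| * |x 2| := by rw [abs_mul, abs_mul, abs_mul]
    _ ≤ |c 0| * M + |c 1| * M + |c 2| * M := by
        have e0 := mul_le_mul_of_nonneg_left h0 (abs_nonneg (c 0))
        have e1 := mul_le_mul_of_nonneg_left h1 (abs_nonneg (c 1))
        have e2 := mul_le_mul_of_nonneg_left h2 (abs_nonneg (c 2))
        linarith
    _ = _ := by ring

/-- uniform boundedness of the moved and tilted facets -/
theorem box {ι : Type} (y : ι → R3) (hy : ∃ R : ℝ, ∀ x ∈ KK y, ∀ k, |x k| ≤ R) (j : ι)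
    (n0 p1 p2 : R3) (hc : Chart y j n0 p1 p2) (β : R2) :
    ∃ τ0 : ℝ, 0 < τ0 ∧ ∃ R' : ℝ, 0 ≤ R' ∧ ∀ (a : ι → ℝ) (τ : ℝ), |τ| ≤ τ0 → (∀ i, |a i - 1| ≤ τ0) →
      ∀ ξ ∈ Fc y j n0 p1 p2 β a τ, |ξ.1| ≤ R' ∧ |ξ.2| ≤ R' := by
  obtain ⟨R, hR⟩ := hy
  have hR0 : 0 ≤ R := by
    have h0 : (0 : R3) ∈ KK y := by
      intro i
      simp [dt]
    exact (abs_nonneg _).trans (hR 0 h0 0)
  have hd := hc.hd
  set C1 : ℝ := (|(cr p2 n0) 0| + |(cr p2 n0) 1| + |(cr p2 n0) 2|) / de n0 p1 p2 with hC1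
  set C2 : ℝ := (|(cr n0 p1) 0| + |(cr n0 p1) 1| + |(cr n0 p1) 2|) / de n0 p1 p2 with hC2
  have hC1' : 0 ≤ C1 := by positivity
  have hC2' : 0 ≤ C2 := by positivity
  set D : ℝ := |β.1| * C1 + |β.2| * C2 with hD
  have hD0 : 0 ≤ D := by positivity
  have key : ∀ (α : ℝ) (ξ : R2) (M : ℝ), (∀ k, |chp n0 p1 p2 α ξ k| ≤ M) →
      |ξ.1| ≤ C1 * M ∧ |ξ.2| ≤ C2 * M ∧ |dp β ξ| ≤ D * M := by
    intro α ξ M hM
    have b1 := dt_bound (cr p2 n0) _ M hM
    rw [xi1, abs_mul, abs_of_pos hd] at b1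
    have b2 := dt_bound (cr n0 p1) _ M hM
    rw [xi2, abs_mul, abs_of_pos hd] at b2
    have c1 : |ξ.1| ≤ C1 * M := by
      rw [hC1, div_mul_eq_mul_div, le_div_iff₀ hd]; exact b1
    have c2 : |ξ.2| ≤ C2 * M := by
      rw [hC2, div_mul_eq_mul_div, le_div_iff₀ hd]; exact b2
    refine ⟨c1, c2, ?_⟩
    calc |dp β ξ| ≤ |β.1 * ξ.1| + |β.2 * ξ.2| := abs_add_le _ _
      _ = |β.1| * |ξ.1| + |β.2| * |ξ.2| := by rw [abs_mul, abs_mul]
      _ ≤ |β.1| * (C1 * M) + |β.2| * (C2 * M) := by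
          have e1 := mul_le_mul_of_nonneg_left c1 (abs_nonneg β.1)
          have e2 := mul_le_mul_of_nonneg_left c2 (abs_nonneg β.2)
          linarith
      _ = D * M := by rw [hD]; ring
  refine ⟨min 1 (1 / (2 * (D * R + 1))), lt_min one_pos (by positivity), (C1 + C2) * (4 * R),
    by positivity, ?_⟩
  intro a τ hτ ha ξ hξ
  set x : R3 := chp n0 p1 p2 (a j - τ * dp β ξ) ξ with hx
  obtain ⟨M, hM0, hM, k0, hk0⟩ : ∃ M : ℝ, 0 ≤ M ∧ (∀ k, |x k| ≤ M) ∧ ∃ k0, M = |x k0| := by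
    obtain ⟨k0, hk0⟩ := Finite.exists_max (fun k : Fin 3 => |x k|)
    exact ⟨|x k0|, abs_nonneg _, hk0, k0, rfl⟩
  obtain ⟨e1, e2, e3⟩ := key (a j - τ * dp β ξ) ξ M hM
  have ha2 : ∀ i, a i ≤ 2 := fun i => by
    have := (le_abs_self (a i - 1)).trans ((ha i).trans (min_le_left _ _))
    linarith
  have ha0 : ∀ i, 0 ≤ a i := fun i => by
    have := (neg_abs_le (a i - 1))
    have h2 := (ha i).trans (min_le_left _ _)
    linarith
  have hτ2 : |τ| ≤ 1 / (2 * (D * R + 1)) := hτ.trans (min_le_right _ _)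
  set T : ℝ := 2 + |τ| * (D * M) with hT
  have hT2 : 2 ≤ T := by rw [hT]; have : 0 ≤ |τ| * (D * M) := by positivity
                         linarith
  have hT0 : 0 < T := by linarith
  have hxT : ∀ l, |dt (y l) x| ≤ T := by
    intro l
    by_cases hl : l = j
    · subst hl
      rw [hx, dt_chp, hc.h0, hc.h1, hc.h2, mul_one, mul_zero, mul_zero, add_zero, add_zero]
      calc |a l - τ * dp β ξ| ≤ |a l| + |τ * dp β ξ| := abs_sub _ _
        _ ≤ 2 + |τ| * (D * M) := by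
            rw [abs_mul, abs_of_nonneg (ha0 l)]
            have := mul_le_mul_of_nonneg_left e3 (abs_nonneg τ)
            have := ha2 l
            linarith
    · have := hξ l hl
      rw [← hx] at this
      have h2 := ha2 l
      linarith
  have hin : (1 / T) • x ∈ KK y := by
    intro l
    have : dt (y l) ((1 / T) • x) = (1 / T) * dt (y l) x := by
      simp only [dt, Pi.smul_apply, smul_eq_mul]; ring
    rw [this, abs_mul, abs_of_pos (one_div_pos.mpr hT0), one_div_mul_eq_div, div_le_one hT0]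
    exact hxT l
  have hMT : M ≤ T * R := by
    have := hR _ hin k0
    rw [Pi.smul_apply, smul_eq_mul, abs_mul, abs_of_pos (one_div_pos.mpr hT0), ← hk0,
      one_div_mul_eq_div, div_le_iff₀ hT0] at this
    linarith
  have hM4 : M ≤ 4 * R := by
    have h1 : |τ| * (D * M) * R ≤ M / 2 := by
      have h2 : |τ| * (D * R + 1) ≤ 1 / 2 := by
        rw [le_div_iff₀ (by positivity)] at hτ2
        linarith
      have h3 : |τ| * (D * R) ≤ 1 / 2 := by
        have := abs_nonneg τ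
        linarith
      calc |τ| * (D * M) * R = |τ| * (D * R) * M := by ring
        _ ≤ 1 / 2 * M := mul_le_mul_of_nonneg_right h3 hM0
        _ = M / 2 := by ring
    have h4 : T * R = 2 * R + |τ| * (D * M) * R := by rw [hT]; ring
    linarith
  constructor
  · calc |ξ.1| ≤ C1 * M := e1
      _ ≤ C1 * (4 * R) := mul_le_mul_of_nonneg_left hM4 hC1'
      _ ≤ (C1 + C2) * (4 * R) := mul_le_mul_of_nonneg_right (by linarith) (by positivity)
  · calc |ξ.2| ≤ C2 * M := e2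
      _ ≤ C2 * (4 * R) := mul_le_mul_of_nonneg_left hM4 hC2'
      _ ≤ (C1 + C2) * (4 * R) := mul_le_mul_of_nonneg_right (by linarith) (by positivity)

theorem cont_dp (β : R2) : Continuous (fun ξ : R2 => dp β ξ) := by
  unfold dp; fun_prop

/-- the tilted facets form a closed set -/
theorem closedE {ι : Type} (y : ι → R3) (j : ι) (n0 p1 p2 : R3) (β : R2) (a : ι → ℝ) :
    IsClosed {q : ℝ × R2 | q.2 ∈ Fc y j n0 p1 p2 β a q.1} := by
  have e : {q : ℝ × R2 | q.2 ∈ Fc y j n0 p1 p2 β a q.1} = ⋂ l : ι, {q : ℝ × R2 | l ≠ j →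
      |(a j - q.1 * dp β q.2) * dt (y l) n0 + q.2.1 * dt (y l) p1 + q.2.2 * dt (y l) p2| ≤ a l} := by
    ext q
    simp only [Set.mem_iInter]
    constructor
    · intro h l hl
      have := h l hl
      rw [dt_chp] at this
      exact this
    · intro h l hl
      have := h l hl
      rw [dt_chp]
      exact this
  rw [e]
  refine isClosed_iInter fun l => ?_
  by_cases hl : l = j
  · have : {q : ℝ × R2 | l ≠ j →
      |(a j - q.1 * dp β q.2) * dt (y l) n0 + q.2.1 * dt (y l) p1 + q.2.2 * dt (y l) p2| ≤ a l} =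
        Set.univ := by
      ext q
      simp only [Set.mem_univ, iff_true]
      intro h
      exact absurd hl h
    rw [this]
    exact isClosed_univ
  · have : {q : ℝ × R2 | l ≠ j →
      |(a j - q.1 * dp β q.2) * dt (y l) n0 + q.2.1 * dt (y l) p1 + q.2.2 * dt (y l) p2| ≤ a l} =
        {q : ℝ × R2 |
      |(a j - q.1 * dp β q.2) * dt (y l) n0 + q.2.1 * dt (y l) p1 + q.2.2 * dt (y l) p2| ≤ a l} := by
      ext q
      exact ⟨fun h => h hl, fun h _ => h⟩
    rw [this]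
    refine isClosed_le ?_ continuous_const
    unfold dp
    fun_prop

theorem closedF {ι : Type} (y : ι → R3) (j : ι) (n0 p1 p2 : R3) (β : R2) (a : ι → ℝ) (τ : ℝ) :
    IsClosed (Fc y j n0 p1 p2 β a τ) := by
  have h := (closedE y j n0 p1 p2 β a).preimage
    (show Continuous (fun ξ : R2 => ((τ, ξ) : ℝ × R2)) by fun_prop)
  exact h

/-- measurability in `τ` -/
theorem meas {ι : Type} (y : ι → R3) (j : ι) (n0 p1 p2 : R3) (β : R2) (a : ι → ℝ) :
    StronglyMeasurable (fun τ : ℝ => ∫ ξ in Fc y j n0 p1 p2 β a τ, dp β ξ) := by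
  have hE := (closedE y j n0 p1 p2 β a).measurableSet
  have e : (fun τ : ℝ => ∫ ξ in Fc y j n0 p1 p2 β a τ, dp β ξ) =
      fun τ : ℝ => ∫ ξ : R2, (fun τ ξ => {q : ℝ × R2 | q.2 ∈ Fc y j n0 p1 p2 β a q.1}.indicator
        (fun q => dp β q.2) (τ, ξ)) τ ξ := by
    funext τ
    rw [← integral_indicator (closedF y j n0 p1 p2 β a τ).measurableSet]
    rfl
  rw [e]
  refine StronglyMeasurable.integral_prod_right ?_
  have hf : StronglyMeasurable (fun q : ℝ × R2 => dp β q.2) :=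
    ((cont_dp β).comp continuous_snd).stronglyMeasurable
  have := hf.indicator hE
  exact this

/-- interval integrability in the tilt, uniformly for levels near `1` -/
theorem ii {ι : Type} (y : ι → R3) (hy : ∃ R : ℝ, ∀ x ∈ KK y, ∀ k, |x k| ≤ R) (j : ι)
    (n0 p1 p2 : R3) (hc : Chart y j n0 p1 p2) (β : R2) :
    ∃ τ0 : ℝ, 0 < τ0 ∧ ∃ C : ℝ, 0 ≤ C ∧ ∀ (a : ι → ℝ) (τ : ℝ), |τ| ≤ τ0 → (∀ i, |a i - 1| ≤ τ0) →
      |∫ ξ in Fc y j n0 p1 p2 β a τ, dp β ξ| ≤ C ∧
      IntervalIntegrable (fun t => ∫ ξ in Fc y j n0 p1 p2 β a t, dp β ξ) volume 0 τ := by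
  obtain ⟨τ0, hτ0, R', hR', hb⟩ := box y hy j n0 p1 p2 hc β
  set Bx : Set R2 := Icc (-R') R' ×ˢ Icc (-R') R' with hBx
  have hBc : IsCompact Bx := isCompact_Icc.prod isCompact_Icc
  set C : ℝ := (|β.1| * R' + |β.2| * R') * (volume : Measure R2).real Bx with hC
  have hC0 : 0 ≤ C := by positivity
  have hbd : ∀ (a : ι → ℝ) (τ : ℝ), |τ| ≤ τ0 → (∀ i, |a i - 1| ≤ τ0) →
      |∫ ξ in Fc y j n0 p1 p2 β a τ, dp β ξ| ≤ C := by
    intro a τ hτ ha
    have hsub : Fc y j n0 p1 p2 β a τ ⊆ Bx := by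
      intro ξ hξ
      obtain ⟨h1, h2⟩ := hb a τ hτ ha ξ hξ
      exact ⟨⟨(abs_le.mp h1).1, (abs_le.mp h1).2⟩, ⟨(abs_le.mp h2).1, (abs_le.mp h2).2⟩⟩
    have hfin : (volume : Measure R2) (Fc y j n0 p1 p2 β a τ) < ⊤ :=
      (measure_mono hsub).trans_lt hBc.measure_lt_top
    have h1 := norm_setIntegral_le_of_norm_le_const (μ := (volume : Measure R2))
      (s := Fc y j n0 p1 p2 β a τ) (f := fun ξ => dp β ξ) (C := |β.1| * R' + |β.2| * R') hfin
      (fun ξ hξ => by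
        obtain ⟨h1, h2⟩ := hb a τ hτ ha ξ hξ
        rw [Real.norm_eq_abs]
        calc |dp β ξ| ≤ |β.1 * ξ.1| + |β.2 * ξ.2| := abs_add_le _ _
          _ = |β.1| * |ξ.1| + |β.2| * |ξ.2| := by rw [abs_mul, abs_mul]
          _ ≤ |β.1| * R' + |β.2| * R' := by
              have e1 := mul_le_mul_of_nonneg_left h1 (abs_nonneg β.1)
              have e2 := mul_le_mul_of_nonneg_left h2 (abs_nonneg β.2)
              linarith)
    rw [Real.norm_eq_abs] at h1
    refine h1.trans ?_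
    rw [hC]
    refine mul_le_mul_of_nonneg_left ?_ (by positivity)
    exact measureReal_mono hsub hBc.measure_lt_top.ne
  refine ⟨τ0, hτ0, C, hC0, fun a τ hτ ha => ⟨hbd a τ hτ ha, ?_⟩⟩
  have hc' : IntervalIntegrable (fun _ : ℝ => C) volume 0 τ := intervalIntegrable_const
  refine hc'.mono_fun' (meas y j n0 p1 p2 β a).aestronglyMeasurable ?_
  refine (ae_restrict_iff' measurableSet_uIoc).mpr (Eventually.of_forall fun t ht => ?_)
  show ‖∫ (ξ : R2) in Fc y j n0 p1 p2 β a t, dp β ξ‖ ≤ C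
  rw [Real.norm_eq_abs]
  refine hbd a t ?_ ha
  have h1 : |t| ≤ |τ| := by
    rcases le_total 0 τ with h | h
    · rw [uIoc_of_le h] at ht
      rw [abs_of_nonneg ht.1.le, abs_of_nonneg h]
      exact ht.2
    · rw [uIoc_of_ge h] at ht
      rw [abs_of_nonpos h, abs_of_nonpos ht.2]
      have := ht.1
      linarith
  exact h1.trans hτ

end GIN

end Pool.G1
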