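import Pool.Agent.Work.MP_b5407d_g1.LS4a

/-!
# G1, block GTR: no collinear signed vectors in a good family
-/

set_option autoImplicit false

open MeasureTheory Set Filter Topology

namespace Pool.G1

open Pool.T3 (R3 dt cr de K V S H Fam Pos pt Lam Q J lin)

namespace GTR71

lemma sy_cr_ne {ι : Type} {y : ι → R3} (hy : Npb y) {P P' : ι × Bool} (h : P.1 ≠ P'.1) :
    ∀ c : ℝ, sy y P ≠ c • sy y P' := by
  intro c hc
  obtain ⟨i, s⟩ := P
  obtain ⟨k, s'⟩ := P'
  apply hy.np i k h
  have h1 : ∀ m, sy y (i, s) m = c * sy y (k, s') m := fun m => by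
    have := congrFun hc m
    simpa using this
  obtain ⟨σ, hσ⟩ : ∃ σ : ℝ, ∀ m, y i m = σ * y k m := by
    cases s <;> cases s' <;> simp [sy] at h1
    · exact ⟨c, fun m => by linarith [h1 m]⟩
    · exact ⟨-c, fun m => by linarith [h1 m]⟩
    · exact ⟨-c, fun m => by linarith [h1 m]⟩
    · exact ⟨c, fun m => by linarith [h1 m]⟩
  funext m
  fin_cases m <;> simp [cr, hσ] <;> ring

lemma abs_sy {ι : Type} (y : ι → R3) (P : ι × Bool) (x : R3) :
    |dt (sy y P) x| = |dt (y P.1) x| := by
  unfold sy
  split_ifs
  · rfl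
  · have : dt (-(y P.1)) x = -dt (y P.1) x := by simp only [dt, Pi.neg_apply]; ring
    rw [this, abs_neg]

lemma mid {ι : Type} [Fintype ι] {y : ι → R3} (hy : Good y) {P P' P'' : ι × Bool}
    (h : P.1 ≠ P'.1) {α β : ℝ} (hα : 0 < α) (hβ : 0 < β) (hab : α + β = 1)
    (he : sy y P'' = α • sy y P + β • sy y P') : False := by
  have hne : sy y P - sy y P' ≠ 0 := by
    intro h0
    exact sy_cr_ne hy.toNpb h 1 (by rw [one_smul]; exact sub_eq_zero.1 h0)
  have hmu := hy.mp P''.1
  have hsub : co y P''.1 ⊆ {x : R3 | dt (sy y P - sy y P') x = 0} := by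
    rintro x ⟨-, hx⟩
    have h1 : |dt (sy y P) x| ≤ |dt (sy y P'') x| := by
      rw [abs_sy, abs_sy]
      exact hx P.1
    have h2 : |dt (sy y P') x| ≤ |dt (sy y P'') x| := by
      rw [abs_sy, abs_sy]
      exact hx P'.1
    have h3 : dt (sy y P'') x = α * dt (sy y P) x + β * dt (sy y P') x := by
      rw [he]
      simp only [dt, Pi.add_apply, Pi.smul_apply, smul_eq_mul]
      ring
    have h4 : dt (sy y P - sy y P') x = dt (sy y P) x - dt (sy y P') x := by
      simp only [dt, Pi.sub_apply]
      ring
    show dt (sy y P - sy y P') x = 0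
    rw [h4]
    set p := dt (sy y P) x
    set q := dt (sy y P') x
    set r := dt (sy y P'') x
    have hb : β = 1 - α := by linarith
    rcases le_total 0 r with hr | hr
    · rw [abs_of_nonneg hr] at h1 h2
      have h5 := (abs_le.1 h1).2
      have h6 := (abs_le.1 h2).2
      have h7 : α * (r - p) + β * (r - q) = 0 := by rw [h3]; rw [hb]; ring
      have h8 : 0 ≤ α * (r - p) := mul_nonneg hα.le (by linarith)
      have h9 : 0 ≤ β * (r - q) := mul_nonneg hβ.le (by linarith)
      have h10 : α * (r - p) = 0 := by linarith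
      have h11 : β * (r - q) = 0 := by linarith
      have h12 := (mul_eq_zero.1 h10).resolve_left hα.ne'
      have h13 := (mul_eq_zero.1 h11).resolve_left hβ.ne'
      linarith
    · rw [abs_of_nonpos hr] at h1 h2
      have h5 := (abs_le.1 h1).1
      have h6 := (abs_le.1 h2).1
      have h7 : α * (p - r) + β * (q - r) = 0 := by rw [h3]; rw [hb]; ring
      have h8 : 0 ≤ α * (p - r) := mul_nonneg hα.le (by linarith)
      have h9 : 0 ≤ β * (q - r) := mul_nonneg hβ.le (by linarith)
      have h10 : α * (p - r) = 0 := by linarith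
      have h11 : β * (q - r) = 0 := by linarith
      have h12 := (mul_eq_zero.1 h10).resolve_left hα.ne'
      have h13 := (mul_eq_zero.1 h11).resolve_left hβ.ne'
      linarith
  have h0 : volume (co y P''.1) = 0 := measure_mono_null hsub (ls4_plane_null hne)
  unfold mu at hmu
  rw [h0] at hmu
  simp at hmu

end GTR71

open GTR71 in
theorem blk_GTR71 : Stmt_GTR := by
  intro ι _ y hy P P' P'' h1 h2 h3 α β hab he
  rcases lt_trichotomy α 0 with hα | hα | hα
  · -- `Y'` is in the middle
    have hβ : 0 < β := by linarith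
    have he' : sy y P' = (1 / β) • sy y P'' + (-α / β) • sy y P := by
      rw [he]
      funext m
      simp only [Pi.add_apply, Pi.smul_apply, smul_eq_mul]
      field_simp
      ring
    refine mid hy (P := P'') (P' := P) (P'' := P') (Ne.symm h2) (by positivity)
      (div_pos (by linarith) hβ) ?_ he'
    field_simp
    linarith
  · subst hα
    have hβ : β = 1 := by linarith
    subst hβ
    apply sy_cr_ne hy.toNpb (Ne.symm h3) 1
    rw [he]
    simp
  · rcases lt_trichotomy β 0 with hβ | hβ | hβ
    · have he' : sy y P = (1 / α) • sy y P'' + (-β / α) • sy y P' := by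
        rw [he]
        funext m
        simp only [Pi.add_apply, Pi.smul_apply, smul_eq_mul]
        field_simp
        ring
      refine mid hy (P := P'') (P' := P') (P'' := P) (Ne.symm h3) (by positivity)
        (div_pos (by linarith) hα) ?_ he'
      field_simp
      linarith
    · subst hβ
      have hα1 : α = 1 := by linarith
      subst hα1
      apply sy_cr_ne hy.toNpb (Ne.symm h2) 1
      rw [he]
      simp
    · exact mid hy h1 hα hβ hab he

end Pool.G1
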