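import Pool.Agent.Work.MP_b5407d_g1.Planar

/-!
# G1: the hinge bound (H_u) in division-free form

`s = W - dist(., line k)` is the distance to the support line opposite to the edge `k`
(`W` the width from the edge `k`).  If `J1 [r] η = 0` for all affine `r`, then
`-(1/2) J''_η[s] ≥ S (2 lam η_k - lam ^ 2 q)` for every real `lam`, where `S q = 2 W S - 3 ∫ s`.
(Choosing `lam = η_k / q` this is `-(1/2) J''_η[s] ≥ S η_k ^ 2 / q`; for `η = 0` it gives `0 ≤ q`.)
-/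

set_option autoImplicit false

namespace Pool.G1

/-- the affine function `W - dist(., line k)` -/
def sk (ν v : ℕ → R2) (W : ℝ) (k : ℕ) : ℝ × R2 := (W - dp (ν k) (v k), ν k)

/-- (H_u), division-free. -/
def Stmt_HU : Prop :=
  ∀ (n : ℕ) (ν v : ℕ → R2) (ℓ : ℕ → ℝ), Poly n ν v ℓ → ∀ (k : ℕ) (W : ℝ),
    (∀ j, dp (ν k) (v k - v j) ≤ W) → (∃ j, dp (ν k) (v k - v j) = W) →
    ∀ η : ℕ → ℝ, (∀ i, η (i + n) = η i) → (∀ r : ℝ × R2, J1 n v ℓ r η = 0) →
    ∀ lam : ℝ,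
      J2 n ν v ℓ (sk ν v W k) η ≤
        -(4 * lam * ar n v * η k) +
          2 * lam ^ 2 * (2 * W * ar n v - 3 * J0 n v (sk ν v W k))

end Pool.G1
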