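import Pool.Agent.Work.MP_b5407d_g1.InterfaceH
import Pool.Agent.Work.MP_3892ce_static.Interface

/-!
# G1, part D: consequences of the log-Brunn-Minkowski inequality in `ℝ³`

For MP_2d002d_gt (dimensional Brunn-Minkowski inequality for even log-concave measures, `n = 3`),
MP_fa837f_gt and MP_10bc19_gt (sections of `ℓ_p` balls by subspaces of dimension at most three), MP_5a340a_gt
(boxes, Gaussian measures of rank at most three).  Input: `LOGc`, the conclusion of `Stmt_LOG`.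
Prekopa-Leindler inequalities: `MP_3892ce_static.blk_PL1`, `blk_PLN`.
-/

set_option autoImplicit false

open MeasureTheory Set Filter Topology
open scoped ENNReal Pointwise

namespace Pool.G1

open Pool.T3 (R3 dt cr de K V S H Fam Pos pt Lam Q J lin Calc)

/-- the log-Brunn-Minkowski inequality for symmetric bodies of `ℝ³` (conclusion of `Stmt_LOG`) -/
def LOGc : Prop :=
  ∀ (K C : Set (EuclideanSpace ℝ (Fin 3))),
    Convex ℝ K → IsCompact K → (interior K).Nonempty → (∀ x ∈ K, -x ∈ K) →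
    Convex ℝ C → IsCompact C → (interior C).Nonempty → (∀ x ∈ C, -x ∈ C) →
    ∀ t ∈ Icc (0 : ℝ) 1,
      (volume K).toReal ^ (1 - t) * (volume C).toReal ^ t
        ≤ (volume {x : EuclideanSpace ℝ (Fin 3) |
              ∀ u ∈ Metric.sphere (0 : EuclideanSpace ℝ (Fin 3)) 1,
                inner ℝ x u ≤ (sSup ((fun y : EuclideanSpace ℝ (Fin 3) => inner ℝ y u) '' K)) ^ (1 - t)
                    * (sSup ((fun y : EuclideanSpace ℝ (Fin 3) => inner ℝ y u) '' C)) ^ t}).toReal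

/-- symmetric convex compact set with nonempty interior -/
structure SB (A : Set R3) : Prop where
  cvx : Convex ℝ A
  cpt : IsCompact A
  int : (interior A).Nonempty
  sym : ∀ x ∈ A, -x ∈ A

/-- support function -/
noncomputable def hsup (A : Set R3) (u : R3) : ℝ := sSup ((fun y => dt u y) '' A)

/-- logarithmic combination -/
noncomputable def LS (t : ℝ) (A B : Set R3) : Set R3 :=
  {x | ∀ u : R3, dt u x ≤ (hsup A u) ^ (1 - t) * (hsup B u) ^ t}

/-- conclusion of `LG3` -/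
def LG3c : Prop := ∀ A B : Set R3, SB A → SB B → ∀ t ∈ Icc (0 : ℝ) 1,
  (volume A).toReal ^ (1 - t) * (volume B).toReal ^ t ≤ (volume (LS t A B)).toReal

/-- `LG3`: coordinates.
Proof: transport by `EuclideanSpace.equiv`/`PiLp.volume_preserving_ofLp`; the condition for all `u` follows
from the one for unit `u` (homogeneity of degree one; `u = 0`: `0 ≤ ..`). -/
def Stmt_LG3 : Prop := LOGc → LG3c

/-- even log-concave densities -/
structure ELC (f : R3 → ℝ) : Prop where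
  meas : Measurable f
  nn : ∀ x, 0 ≤ f x
  even : ∀ x, f (-x) = f x
  lc : ∀ (x y : R3) (t : ℝ), 0 ≤ t → t ≤ 1 → f x ^ (1 - t) * f y ^ t ≤ f ((1 - t) • x + t • y)

/-- the measure with density `f` -/
noncomputable def ms (f : R3 → ℝ) : Measure R3 := volume.withDensity (fun x => ENNReal.ofReal (f x))

/-- conclusion of `MEA` -/
def MEAc : Prop := ∀ f : R3 → ℝ, ELC f → ∀ A B : Set R3, SB A → SB B → ∀ t : ℝ, 0 < t → t < 1 →
  (ms f A) ^ (1 - t) * (ms f B) ^ t ≤ ms f (LS t A B)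

/-- `MEA` (from PL1): log-Brunn-Minkowski inequality for even log-concave measures (Saroglou's argument).
Proof: `f ≤ f 0` (even, log-concave).  Layer cake: `ms f A = ∫_0^∞ |A ∩ {f > r}| dr`.  For `r, s > 0` with
`|A ∩ {f > r}|, |B ∩ {f > s}| > 0` let `A', B'` be the closures (symmetric bodies, same volume: the boundary of
a convex set is a null set).  `LS t A' B' ⊆ LS t A B` and `LS t A' B' ⊆ (1-t) A' + t B'` (arithmetic-geometric
mean of the support functions, separation), and `(1-t) A' + t B' ⊆ closure {f > r^(1-t) s^t}`; so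
`|LS t A B ∩ {f > r^(1-t) s^t}| ≥ |A ∩ {f > r}|^(1-t) |B ∩ {f > s}|^t`.  Substitute `r = e^x`: the functions
`e^x |A ∩ {f > e^x}|` satisfy the hypothesis of `Stmt_PL1`. -/
def Stmt_MEA : Prop := LG3c → MEAc

/-- `LGV`: log-concavity in the levels for polytopes, and for measures.
Proof: `A = K y a`, `B = K y b` (symmetric bodies); `LS t A B ⊆ K y (a^(1-t) b^t)` because
`hsup (K y a) (± y i) ≤ a i`. -/
def Stmt_LGV : Prop := MEAc → ∀ f : R3 → ℝ, ELC f → ∀ (ι : Type) [Fintype ι] (y : ι → R3),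
  (∃ R : ℝ, ∀ x ∈ KK y, ∀ k, |x k| ≤ R) → ∀ a b : ι → ℝ, Pos a → Pos b → ∀ t : ℝ, 0 < t → t < 1 →
    (ms f (K y a)) ^ (1 - t) * (ms f (K y b)) ^ t ≤ ms f (K y (fun i => a i ^ (1 - t) * b i ^ t))

/-! ## Dimensional Brunn-Minkowski inequality (MP_2d002d_gt) -/

/-- `SGR`: log-concavity in the logarithmic coordinates implies concavity of the cube root.
Proof: `Φ(τ) = log F(e^τ)` is concave on `ℝ^ι`, nondecreasing in every coordinate, and
`Φ(τ + s 1) ≥ Φ(τ) + 3 s` for `s ≤ 0`.  Let `c = (1-t) a + t b`, `τ0 = log c`, `g` a supergradient of `Φ` at `τ0`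
(finite dimensional concave function): `g i ≥ 0`, `Σ g ≤ 3`.  So `F(x) ≤ F(c) Π (x i/c i)^(g i)` and by the weighted
arithmetic-geometric mean inequality with weights `g i/3` and `1 - Σ g/3`:
`F(x)^(1/3) ≤ F(c)^(1/3) (1 + Σ (g i/3) (x i/c i - 1))`, affine in `x`.  Take `x = a`, `x = b`. -/
def Stmt_SGR : Prop :=
  ∀ (ι : Type) [Fintype ι] (F : (ι → ℝ) → ℝ), (∀ a, Pos a → 0 < F a) →
    (∀ a b, Pos a → Pos b → ∀ t : ℝ, 0 < t → t < 1 →
      F a ^ (1 - t) * F b ^ t ≤ F (fun i => a i ^ (1 - t) * b i ^ t)) →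
    (∀ a b, Pos a → Pos b → (∀ i, a i ≤ b i) → F a ≤ F b) →
    (∀ a, Pos a → ∀ s : ℝ, 0 < s → s ≤ 1 → s ^ 3 * F a ≤ F (fun i => s * a i)) →
    ∀ a b, Pos a → Pos b → ∀ t : ℝ, 0 < t → t < 1 →
      (1 - t) * F a ^ ((1 : ℝ) / 3) + t * F b ^ ((1 : ℝ) / 3) ≤
        F (fun i => (1 - t) * a i + t * b i) ^ ((1 : ℝ) / 3)

/-- `DBM` (from `LGV`, `SGR`): the dimensional Brunn-Minkowski inequality for all even log-concave measures on
`ℝ³` and all symmetric convex sets.
Proof: (1) `A, B` symmetric bodies, `0 < ms f A` for bodies (if `f = 0` almost everywhere trivial; otherwise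
`{f > 0}` is a symmetric convex set with interior, so `f` is positive near `0`).  For a finite spanning family `y`,
`F(a) = ms f (K y a)`: `LGV`, monotone, `F(s a) ≥ s³ F(a)` (`f (s x) ≥ f x`); `SGR` with `a = hsup A (y i)`,
`b = hsup B (y i)`: `ms f (K y ((1-t) a + t b))^(1/3) ≥ (1-t) ms f (A)^(1/3) + t ms f (B)^(1/3)`.  Let `y` run through
the first `N` elements of a dense sequence: the sets decrease to `(1-t) A + t B` (support functions), finite
measures, continuity from above.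
(2) `A` convex symmetric nonempty: `0 ∈ A`.  If `ms f A = 0`: `t A + (1-t) B ⊇ (1-t) B` and `ms f (s B) ≥ s³ ms f B`.
If `ms f A > 0`, `A` has nonempty interior; `A_k = closure (A ∩ ball k) · (1 - 1/k) ⊆ A`, symmetric bodies,
`ms f (A_k) → ms f A` (the boundary of a convex set is a null set). -/
def Stmt_DBM : Prop := MEAc → ∀ f : R3 → ℝ, ELC f → ∀ A B : Set R3, Convex ℝ A → Convex ℝ B →
  A.Nonempty → B.Nonempty → (∀ x ∈ A, -x ∈ A) → (∀ x ∈ B, -x ∈ B) → ∀ t : ℝ, 0 ≤ t → t ≤ 1 →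
    ENNReal.ofReal t * (ms f A) ^ (1 / (3 : ℝ)) + ENNReal.ofReal (1 - t) * (ms f B) ^ (1 / (3 : ℝ)) ≤
      (ms f (t • A + (1 - t) • B)) ^ (1 / (3 : ℝ))

/-! ## Sections of `ℓ_p` balls (MP_fa837f_gt, MP_10bc19_gt) -/

/-- the weight `ν(τ) = p e^{pτ} exp(-e^{pτ})` -/
noncomputable def nu (p τ : ℝ) : ℝ := p * Real.exp (p * τ) * Real.exp (-Real.exp (p * τ))

/-- `MIX`: mixture of intervals; `nu` is log-concave.
Proof: substitution `r = e^{pτ}`: `∫_{r ≥ |u|^p e^{-pt}} e^{-r} dr`. -/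
def Stmt_MIX : Prop :=
  ∀ p : ℝ, 0 < p →
    (∀ t u : ℝ, ∫⁻ τ, ENNReal.ofReal (nu p τ) * {τ : ℝ | |u| ≤ Real.exp (τ + t)}.indicator 1 τ =
      ENNReal.ofReal (Real.exp (-(Real.exp (-t) * |u|) ^ p))) ∧
    (∀ x y t : ℝ, 0 < t → t < 1 → nu p x ^ (1 - t) * nu p y ^ t ≤ nu p ((1 - t) * x + t * y))

/-- `INT` (from `MIX`): the volume of a section as an integral of volumes of polytopes.
Proof: `N(z) = (Σ |e^{-t i} y i . z|^p)^(1/p)` is continuous, homogeneous of degree one, zero only at `0` (bounded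
`KK y`).  `∫ exp(-N^p) = Γ(1 + 3/p) |{N ≤ 1}|` (layer cake: `exp(-N^p) = ∫_{N}^∞ p r^(p-1) e^{-r^p} dr`, volume
`r³ |{N ≤ 1}|`).  `exp(-N(z)^p) = Π_i exp(-(e^{-t i} |y i . z|)^p)`, `MIX` for each factor, Tonelli. -/
def Stmt_INT : Prop :=
  ∀ p : ℝ, 0 < p → ∀ (n : ℕ) (y : Fin n → R3), (∃ R : ℝ, ∀ x ∈ KK y, ∀ k, |x k| ≤ R) →
    ∀ t : Fin n → ℝ,
    ENNReal.ofReal (Real.Gamma (1 + 3 / p)) *
        volume {z : R3 | ∑ i, |Real.exp (-t i) * dt (y i) z| ^ p ≤ 1} =
      ∫⁻ τ : Fin n → ℝ, volume (K y (fun i => Real.exp (τ i + t i))) *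
        ∏ i, ENNReal.ofReal (nu p (τ i))

/-- `SC3` (from `INT`, `MIX`, `LGV`, PLN): log-concavity for three-dimensional sections.
Proof: for `t = (1-λ) t0 + λ t1` the integrands satisfy the hypothesis of `Stmt_PLN` by `LGV` (`f = 1`, `ms = volume`)
and `MIX`; the constants cancel. -/
def Stmt_SC3 : Prop := MEAc → ∀ p : ℝ, 0 < p → ∀ (n : ℕ) (y : Fin n → R3),
  (∃ R : ℝ, ∀ x ∈ KK y, ∀ k, |x k| ≤ R) → ∀ (s t : Fin n → ℝ) (l : ℝ), 0 < l → l < 1 →
    (volume {z : R3 | ∑ i, |Real.exp (-s i) * dt (y i) z| ^ p ≤ 1}) ^ (1 - l) *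
      (volume {z : R3 | ∑ i, |Real.exp (-t i) * dt (y i) z| ^ p ≤ 1}) ^ l ≤
      volume {z : R3 | ∑ i, |Real.exp (-((1 - l) * s i + l * t i)) * dt (y i) z| ^ p ≤ 1}

/-- `SEC` (from `SC3`): sections by subspaces of dimension at most three.
Proof: dimension three: an orthonormal basis of `H` (linear isometry with `EuclideanSpace ℝ (Fin 3)`, volume
preserving); `y i` = coordinates of the functional `x ↦ x i` on `H`; `KK y` is bounded because these functionals
span the dual.  Dimension `k < 3`: add `3 - k` coordinates: `H' = H ⊕ ℝ^{3-k} ⊆ ℝ^{n+3-k}`, with `s, t` equal to `0` on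
the new coordinates; the volume of `{(x, z) : Σ |..|^p + Σ |z|^p ≤ 1}` is a constant (depending on `p, k`) times the
volume of the section of `H` (Fubini and scaling: `∫ (1 - Σ|z|^p)_+^(k/p) dz`). -/
def Stmt_SEC : Prop := MEAc → ∀ p : ℝ, 0 < p → ∀ (n : ℕ)
  (H : Submodule ℝ (EuclideanSpace ℝ (Fin n))), Module.finrank ℝ H ≤ 3 →
  ∀ (s t : Fin n → ℝ) (l : ℝ), 0 ≤ l → l ≤ 1 →
    (volume {x : H | ∑ i, |Real.exp (-s i) * (x : EuclideanSpace ℝ (Fin n)) i| ^ p ≤ 1}).toReal ^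
        (1 - l) *
      (volume {x : H | ∑ i, |Real.exp (-t i) * (x : EuclideanSpace ℝ (Fin n)) i| ^ p ≤ 1}).toReal ^
        l ≤
      (volume {x : H | ∑ i, |Real.exp (-((1 - l) * s i + l * t i)) *
        (x : EuclideanSpace ℝ (Fin n)) i| ^ p ≤ 1}).toReal

/-- `GBX`: Gaussian measures of rank at most three and coordinate boxes (MP_5a340a_gt), general form: image of an
even log-concave measure of `ℝ³` under a linear map `x ↦ (y i . x)_i` into `ℝ^n`; boxes `Π [-e^{t i} c i, e^{t i} c i]`.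
Proof: the preimage of the box is `K y (c e^t)`; if `KK y` is bounded this is `LGV`; in general cut with the
cubes `[-R, R]³` (add three vectors to the family) and let `R → ∞`. -/
def Stmt_GBX : Prop := MEAc → ∀ f : R3 → ℝ, ELC f → ∀ (n : ℕ) (y : Fin n → R3) (c : Fin n → ℝ),
  (∀ i, 0 < c i) → ∀ (s t : Fin n → ℝ) (l : ℝ), 0 < l → l < 1 →
    (ms f (K y (fun i => c i * Real.exp (s i)))) ^ (1 - l) *
      (ms f (K y (fun i => c i * Real.exp (t i)))) ^ l ≤
      ms f (K y (fun i => c i * Real.exp ((1 - l) * s i + l * t i)))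

end Pool.G1
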