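import Pool.Agent.Work.MP_b5407d_g1.Interface

/-!
# G1, parts F and G: polygon integrals, tilt of a facet, the key step

The facet `F_j = {x ∈ KK y : y j . x = 1}` in a chart `x = n0 + ξ.1 p1 + ξ.2 p2` is the polygon
`{ξ : N k . ξ ≤ b k}`, `k = (l, ±)`, `l ≠ j`.  Constraints which touch this polygon only at a vertex are
harmless but must be treated (corner cuts, `Psi`).
-/

set_option autoImplicit false

open MeasureTheory Set Filter Topology

namespace Pool.G1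

open Pool.T3 (R3 dt cr de K V S H Fam Pos pt Lam Q J lin)

/-! ## Part F: polygon integrals -/

/-- tilted normals -/
def Np {κ : Type} (N M : κ → R2) (τ : ℝ) (k : κ) : R2 := N k + τ • M k

/-- moved levels -/
def bp {κ : Type} (b e : κ → ℝ) (s : ℝ) (k : κ) : ℝ := b k + s * e k

/-- polygon of a family of half planes, tilted and moved -/
def PP {κ : Type} (N M : κ → R2) (b e : κ → ℝ) (τ s : ℝ) : Set R2 :=
  {ξ | ∀ k, dp (Np N M τ k) ξ ≤ bp b e s k}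

/-- polygon data: the polygon `{ξ : ∀ k, N k . ξ ≤ b k}` has the edges `i` (mod `n`), on the lines
`kk i`; `c i = |N (kk i)|`; other constraints touch it in at most one vertex. -/
structure PD {κ : Type} (N : κ → R2) (b : κ → ℝ) (n : ℕ) (ν v : ℕ → R2) (ℓ c : ℕ → ℝ)
    (kk : ℕ → κ) : Prop where
  poly : Poly n ν v ℓ
  pk : ∀ i, kk (i + n) = kk i
  pc : ∀ i, c (i + n) = c i
  cpos : ∀ i, 0 < c i
  hN : ∀ i, N (kk i) = c i • ν i
  hb : ∀ i, b (kk i) = c i * dp (ν i) (v i)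
  inj : ∀ i i', i < n → i' < n → kk i = kk i' → i = i'
  le : ∀ k i, dp (N k) (v i) ≤ b k
  tch : ∀ k, (∀ i, kk i ≠ k) → ∀ i, ¬ (dp (N k) (v i) = b k ∧ dp (N k) (v (i + 1)) = b k)

/-- `PEX`: existence of polygon data.
Proof: let `P` be the polygon.  `k` is essential if its edge `e_k = {ξ ∈ P : N k . ξ = b k}` has two points; then
`e_k = [A_k, B_k]`, `B_k = A_k + ℓ_k rt (N k)/|N k|`.  NEXT: at `B_k` all active constraints `k''` have
`cp (N k) (N k'') ≥ 0` (one can move backwards along the edge), not antiparallel (interior point), some have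
`> 0` (the edge ends); the one with the largest angle from `N k`, call it `k'` (`cp (N k') (N k'') ≤ 0` for all
active `k''`), is essential with `A_{k'} = B_k` (one can move from `B_k` in the direction `rt (N k')`) and it is
the only essential constraint with this starting point.  Symmetrically PREVIOUS.  So `next` is a permutation of
the finite nonempty set of essential constraints.  ONE ORBIT: let `k0, k1, ..` be an orbit, vertices
`v (i+1) = B_{k i}`, unit normals `ν i`, and `k*` essential.  Choose the vertex `v (i+1)` of the orbit with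
`ν* . v (i+1)` maximal: `cp (ν i) ν* ≥ 0` and `cp (ν (i+1)) ν* ≤ 0`, so `ν* = α ν i + β ν (i+1)`, `α, β ≥ 0`.  If both
are positive, `v (i+1)` is the only point of `P` maximising `ν*`, so `e_{k*}` is a point, contradiction.  So `k*` has
the normal of `k i` or `k (i+1)` and touches `P`, so it is this one (no coincidences).  `n ≥ 3` because
consecutive cross products are positive and the polygon closes.  `inj` for normals: equal normals and both
touching `P`: equal constraints.  `tch`: a nonessential constraint has at most one point. -/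
def Stmt_PEX : Prop :=
  ∀ (κ : Type) [Fintype κ] (N : κ → R2) (b : κ → ℝ), (∀ k, N k ≠ 0) →
    (∃ R : ℝ, ∀ ξ : R2, (∀ k, dp (N k) ξ ≤ b k) → |ξ.1| ≤ R ∧ |ξ.2| ≤ R) →
    (∃ ξ : R2, ∀ k, dp (N k) ξ < b k) →
    (∀ k k', k ≠ k' → ∀ c : ℝ, 0 < c → ¬ (N k' = c • N k ∧ b k' = c * b k)) →
    ∃ (n : ℕ) (ν v : ℕ → R2) (ℓ c : ℕ → ℝ) (kk : ℕ → κ), PD N b n ν v ℓ c kk

/-- `ARE`: integrals over a polygon.
Proof: `x0` the mean of the vertices, `β i = ν i . (v i - x0) > 0`.  Almost every `ξ ∈ P` has a unique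
`i < n` with `ν i . (ξ - x0)/β i` maximal (`inj`), and then `ξ` is in the triangle `x0, v i, v (i+1)`: the
intersection of `P` with the line `i` is the edge `[v i, v (i+1)]` (use the constraints `i + n - 1`, `i + 1`).
The integral of an affine function over a triangle is the area times the mean of the three values (linear
image of the standard triangle).  The sum does not depend on `x0` (algebra, `PEU`). -/
def Stmt_ARE : Prop :=
  ∀ (n : ℕ) (ν v : ℕ → R2) (ℓ : ℕ → ℝ), Poly n ν v ℓ →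
    IsCompact {ξ : R2 | ∀ i, dp (ν i) ξ ≤ dp (ν i) (v i)} ∧
    (volume {ξ : R2 | ∀ i, dp (ν i) ξ ≤ dp (ν i) (v i)}).toReal = ar n v ∧
    ∀ r : ℝ × R2, ∫ ξ in {ξ : R2 | ∀ i, dp (ν i) ξ ≤ dp (ν i) (v i)}, af r ξ = J0 n v r

/-- intersection point of the lines `A . ξ = x`, `B . ξ = y` -/
noncomputable def isx (A : R2) (x : ℝ) (B : R2) (y : ℝ) : R2 := (1 / cp A B) • (y • rt A - x • rt B)

/-- vertex `i+1` of the tilted and moved essential polygon -/
noncomputable def vx {κ : Type} (N M : κ → R2) (b e : κ → ℝ) (kk : ℕ → κ) (τ s : ℝ) (i : ℕ) : R2 :=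
  isx (Np N M τ (kk i)) (bp b e s (kk i)) (Np N M τ (kk (i + 1))) (bp b e s (kk (i + 1)))

/-- `PPS` (from `ARE`): the essential polygon persists.
Proof: all data of the polygon are continuous in `(τ, s)`: for small `|τ|, |s|` put `c' = |Np ..|`, `ν' = Np/c'`,
`v' (i+1) = vx i`, `ℓ' i = (v' (i+1) - v' i) . rt (ν' i)`; `edge` holds because both vertices are on line `i`; `pos`,
`turn`, strict inequalities `ν' i . v' k < ν' i . v' i` (`k ≠ i, i+1 mod n`; finitely many) and `inj` persist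
(`Poly` at `(0,0)`: strictness follows from `conv`, `inj`, see `Pl_HU.lean` `vert_zero`, `PMI.lean`).  Then `ARE`
(`J0` can be shifted by one index). -/
def Stmt_PPS : Prop :=
  ∀ (κ : Type) [Fintype κ] (N M : κ → R2) (b e : κ → ℝ) (n : ℕ) (ν v : ℕ → R2) (ℓ c : ℕ → ℝ)
    (kk : ℕ → κ), PD N b n ν v ℓ c kk → ∃ τ0 : ℝ, 0 < τ0 ∧ ∀ τ s : ℝ, |τ| ≤ τ0 → |s| ≤ τ0 →
      (∀ i, 0 < cp (Np N M τ (kk i)) (Np N M τ (kk (i + 1)))) ∧
      (∀ i k, dp (Np N M τ (kk i)) (vx N M b e kk τ s k) ≤ bp b e s (kk i)) ∧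
      ∀ r : ℝ × R2,
      ∫ ξ in {ξ : R2 | ∀ i, dp (Np N M τ (kk i)) ξ ≤ bp b e s (kk i)}, af r ξ =
        J0 n (vx N M b e kk τ s) r

/-- corner cut: integral of `c0 + c1 u1 + c2 u2` over `{u ≥ 0 : A k u1 + B k u2 < x k for some k in T}` -/
noncomputable def Psi {κ : Type} (T : κ → Prop) (A B x : κ → ℝ) (c0 c1 c2 : ℝ) : ℝ :=
  ∫ u in {u : ℝ × ℝ | 0 ≤ u.1 ∧ 0 ≤ u.2 ∧ ∃ k, T k ∧ A k * u.1 + B k * u.2 < x k},
    (c0 + c1 * u.1 + c2 * u.2)

/-- `CRN`: the corner cut is nearly convex in `x`.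
Proof: coordinates `u = (r (1-θ), r θ)`, Jacobian `r`:
`Psi = ∫_0^1 (c0 R²/2 + (c1 (1-θ) + c2 θ) R³/3) dθ`, `R(θ) = max_k (x k)^+ / (A k (1-θ) + B k θ)`, convex and Lipschitz
in `x`, `R ≤ ρ0/m`.  For fixed `θ` and fixed `c0 ≥ m` the function `φ(R) = c0 R²/2 + c R³/3` is convex and
nondecreasing for `0 ≤ R ≤ R0` small, so the second difference in `x` is `≥ 0`; the change of `c0` to `c0 ± s c0'`
contributes `s c0' (R(x+sx')² - R(x-sx')²)/2 = O(s · s · (ρ0 + s))`.  First difference: `O(s (ρ0 + s))`. -/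
def Stmt_CRN : Prop :=
  ∀ (κ : Type) [Fintype κ] (T : κ → Prop) (m X η : ℝ), 0 < m → 0 < X → 0 < η → ∃ ρ0 : ℝ, 0 < ρ0 ∧
    ∀ (A B x x' : κ → ℝ) (c0 c0' c1 c2 s : ℝ),
      (∀ k, T k → m ≤ A k ∧ m ≤ B k ∧ |x k| ≤ ρ0 ∧ |x' k| ≤ X) → m ≤ c0 → |c0| ≤ X → |c0'| ≤ X →
      |c1| ≤ X → |c2| ≤ X → |s| ≤ ρ0 →
      -(η * s ^ 2) ≤ Psi T A B (fun k => x k + s * x' k) (c0 + s * c0') c1 c2 +
        Psi T A B (fun k => x k - s * x' k) (c0 - s * c0') c1 c2 - 2 * Psi T A B x c0 c1 c2 ∧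
      |Psi T A B (fun k => x k + s * x' k) (c0 + s * c0') c1 c2 - Psi T A B x c0 c1 c2| ≤ η * |s|

/-- constraints touching the polygon exactly at the vertex `v (i+1)` -/
def Tc {κ : Type} (N : κ → R2) (b : κ → ℝ) (v : ℕ → R2) (kk : ℕ → κ) (i : ℕ) (k : κ) : Prop :=
  (∀ i', kk i' ≠ k) ∧ dp (N k) (v (i + 1)) = b k

/-- the corner cut at vertex `i+1` -/
noncomputable def Cu {κ : Type} (N M : κ → R2) (b e : κ → ℝ) (v : ℕ → R2) (kk : ℕ → κ)
    (r : ℝ × R2) (τ s : ℝ) (i : ℕ) : ℝ :=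
  1 / cp (Np N M τ (kk i)) (Np N M τ (kk (i + 1))) *
    Psi (Tc N b v kk i)
      (fun k => cp (Np N M τ (kk i)) (Np N M τ k) /
        cp (Np N M τ (kk i)) (Np N M τ (kk (i + 1))))
      (fun k => cp (Np N M τ k) (Np N M τ (kk (i + 1))) /
        cp (Np N M τ (kk i)) (Np N M τ (kk (i + 1))))
      (fun k => dp (Np N M τ k) (vx N M b e kk τ s i) - bp b e s k)
      (af r (vx N M b e kk τ s i))
      (-(dp r.2 (rt (Np N M τ (kk i)))) / cp (Np N M τ (kk i)) (Np N M τ (kk (i + 1))))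
      (dp r.2 (rt (Np N M τ (kk (i + 1)))) / cp (Np N M τ (kk i)) (Np N M τ (kk (i + 1))))

/-- `DEC` (from `PPS`): decomposition of the integral.
Proof: `P = P^e` minus the cuts.  A nonessential constraint which does not touch `P(0,0)` is not active on
`P^e(τ, s)` for small `(τ, s)` (check at the vertices).  If it touches, then at exactly one vertex `v (i+1)`
(`tch` and convexity), `N k = α N (kk i) + β N (kk (i+1))` with `α, β > 0`; the part of the wedge of the lines `kk i`,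
`kk (i+1)` which it cuts off has diameter `O(|τ| + |s|)`, so it is in `P^e(τ, s)` and the cuts at different
vertices are disjoint.  In the wedge: `ξ = vx i + u1 z1 + u2 z2`, `u1 = bp - Np . ξ` for the line `kk (i+1)`, `u2` for
`kk i`, `z1 = -rt (Np (kk i))/cp`, `z2 = rt (Np (kk (i+1)))/cp`, Jacobian `1/cp`; the constraint `k` is violated
iff `A k u1 + B k u2 < x k`. -/
def Stmt_DEC : Prop :=
  ∀ (κ : Type) [Fintype κ] (N M : κ → R2) (b e : κ → ℝ) (n : ℕ) (ν v : ℕ → R2) (ℓ c : ℕ → ℝ)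
    (kk : ℕ → κ), PD N b n ν v ℓ c kk → ∃ τ0 : ℝ, 0 < τ0 ∧ ∀ τ s : ℝ, |τ| ≤ τ0 → |s| ≤ τ0 →
      ∀ r : ℝ × R2, ∫ ξ in PP N M b e τ s, af r ξ =
        J0 n (vx N M b e kk τ s) r - ∑ i ∈ Finset.range n, Cu N M b e v kk r τ s i

/-- `PLN` (from `DEC`, `CRN`, `PGS`): first and second differences of the integral.
Proof: for fixed `τ` the vertices `vx τ s i` are affine in `s`, so `J0 n (vx τ s) r` is a cubic polynomial in `s` with
coefficients continuous in `τ`; at `τ = 0` they are given by `PGS` (`vx 0 s i = v (i+1) + s • ve ν δ i`).  The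
corner cuts: `CRN` with `x k`, affine in `s`, small for small `τ`, `s` (zero at `(0,0)`), `A k, B k → β, α > 0`,
`c0 = af r (vx) ≥ m > 0` because `0 < r . v i`. -/
def Stmt_PLN : Prop :=
  ∀ (κ : Type) [Fintype κ] (N M : κ → R2) (b e : κ → ℝ) (n : ℕ) (ν v : ℕ → R2) (ℓ c : ℕ → ℝ)
    (kk : ℕ → κ), PD N b n ν v ℓ c kk → ∀ r : ℝ × R2, (∀ i, 0 < af r (v i)) →
    ∀ η : ℝ, 0 < η → ∃ τ0 : ℝ, 0 < τ0 ∧ ∀ τ s : ℝ, |τ| ≤ τ0 → |s| ≤ τ0 →
      |(∫ ξ in PP N M b e τ s, af r ξ) - (∫ ξ in PP N M b e τ 0, af r ξ) -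
        s * J1 n v ℓ r (fun i => e (kk i) / c i)| ≤ η * |s| ∧
      (∫ ξ in PP N M b e τ s, af r ξ) + (∫ ξ in PP N M b e τ (-s), af r ξ) -
        2 * (∫ ξ in PP N M b e τ 0, af r ξ) ≤
        s ^ 2 * (J2 n ν v ℓ r (fun i => e (kk i) / c i) + η)

/-! ## Part G: the tilt -/

/-- chart of the plane `y j . x = 1` -/
structure Chart {ι : Type} (y : ι → R3) (j : ι) (n0 p1 p2 : R3) : Prop where
  h0 : dt (y j) n0 = 1
  h1 : dt (y j) p1 = 0
  h2 : dt (y j) p2 = 0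
  hd : 0 < de n0 p1 p2

/-- point with coordinates `(α, ξ)` -/
def chp (n0 p1 p2 : R3) (α : ℝ) (ξ : R2) : R3 := α • n0 + ξ.1 • p1 + ξ.2 • p2

/-- the covector `b` with `b . n0 = 0`, `b . p1 = β.1`, `b . p2 = β.2` -/
noncomputable def tb (n0 p1 p2 : R3) (β : R2) : R3 :=
  (1 / de n0 p1 p2) • (β.1 • cr p2 n0 + β.2 • cr n0 p1)

/-- tilted family -/
noncomputable def yt {ι : Type} [DecidableEq ι] (y : ι → R3) (j : ι) (b : R3) (τ : ℝ) : ι → R3 :=
  Function.update y j (y j + τ • b)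

/-- the facet `j` of the body with levels `a`, normal `y j + τ b`, in the chart -/
def Fc {ι : Type} (y : ι → R3) (j : ι) (n0 p1 p2 : R3) (β : R2) (a : ι → ℝ) (τ : ℝ) : Set R2 :=
  {ξ | ∀ l, l ≠ j → |dt (y l) (chp n0 p1 p2 (a j - τ * dp β ξ) ξ)| ≤ a l}

/-- sign -/
def sg (e : Bool) : ℝ := if e then 1 else -1

/-- normals, levels, tilts, motions of the facet polygon; `k = (l, sign)`, `l ≠ j` -/
def FN {ι : Type} (y : ι → R3) (j : ι) (p1 p2 : R3) (k : {l : ι // l ≠ j} × Bool) : R2 :=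
  sg k.2 • (dt (y k.1) p1, dt (y k.1) p2)

def Fb {ι : Type} (y : ι → R3) (j : ι) (n0 : R3) (k : {l : ι // l ≠ j} × Bool) : ℝ :=
  1 - sg k.2 * dt (y k.1) n0

def FM {ι : Type} (y : ι → R3) (j : ι) (n0 : R3) (β : R2) (k : {l : ι // l ≠ j} × Bool) : R2 :=
  (-(sg k.2 * dt (y k.1) n0)) • β

def Fe {ι : Type} (y : ι → R3) (j : ι) (n0 : R3) (z : ι → ℝ) (k : {l : ι // l ≠ j} × Bool) : ℝ :=
  z k.1 - sg k.2 * dt (y k.1) n0 * z j

/-- `FCQ`: the facet is the polygon `PP` (algebra), for `a = 1 + s z`. -/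
def Stmt_FCQ : Prop :=
  ∀ (ι : Type) (y : ι → R3) (j : ι) (n0 p1 p2 : R3) (β : R2) (z : ι → ℝ) (τ s : ℝ),
    Fc y j n0 p1 p2 β (fun i => 1 + s * z i) τ =
      PP (FN y j p1 p2) (FM y j n0 β) (Fb y j n0) (Fe y j n0 z) τ s

/-- `TIL`: derivative of the volume with respect to the tilt.
Proof: fixed chart `x = chp α ξ` (`dx = de n0 p1 p2 dα dξ`), `y j . x = α`, `b . x = dp β ξ`.  For small `τ`, `a` near `1`
all bodies are in a fixed ball (`CTV`).  Let `D = {x : |y l . x| ≤ a l, l ≠ j}` (cut with this ball).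
`vo (dv (yt τ) a) = vol {x ∈ D : |α + τ dp β ξ| ≤ a j}`.  For fixed `ξ`, with `D_ξ ⊆ ℝ` the section:
`|{α ∈ D_ξ : |α + τ β.ξ| ≤ a j}| - |{α ∈ D_ξ : |α| ≤ a j}| = ∫_0^τ β.ξ (1_{D_ξ}(-a j - τ' β.ξ) - 1_{D_ξ}(a j - τ' β.ξ)) dτ'`
(two moving end points; substitution).  Integrate over `ξ` and exchange; by `x ↦ -x` (`D = -D`) the two terms
are equal.  Finally `(a j - τ' β.ξ, ξ) ∈ D` iff `ξ ∈ Fc`. -/
def Stmt_TIL : Prop :=
  ∀ (ι : Type) [Fintype ι] [DecidableEq ι] (y : ι → R3), Good y → ∀ (j : ι) (n0 p1 p2 : R3),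
    Chart y j n0 p1 p2 → ∀ β : R2, ∃ τ0 : ℝ, 0 < τ0 ∧ ∀ (τ : ℝ) (a : ι → ℝ), |τ| ≤ τ0 →
      (∀ i, |a i - 1| ≤ τ0) →
      vo (dv (yt y j (tb n0 p1 p2 β) τ) a) = vo (dv y a) -
        2 * de n0 p1 p2 * ∫ τ' in (0 : ℝ)..τ, ∫ ξ in Fc y j n0 p1 p2 β a τ', dp β ξ

/-- `FCE` (from `PEX`, `GTR`, `FCQ`): polygon data of a facet.
Proof: check the hypotheses of `PEX`: `FN ≠ 0` because `y l` is not parallel to `y j`; bounded because `KK y` is
bounded; interior point: `mu y j > 0`, so the cone over the facet has an interior point `x`, and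
`x/(y j . x)` is in the facet with strict inequalities (`|y l . x| < y j . x` in the interior: a linear function
`y j ± y l ≠ 0` nonnegative on an open set is positive there); coincidence `N' = c N`, `b' = c b`: then
`Y' - c Y = λ y j` with `λ = 1 - c` (evaluate at `n0`), three collinear signed vectors (`GTR`), or the same `l` with
opposite signs, then `y l` is parallel to `y j`. -/
def Stmt_FCE : Prop :=
  ∀ (ι : Type) [Fintype ι] [DecidableEq ι] (y : ι → R3), Good y → ∀ (j : ι) (n0 p1 p2 : R3),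
    Chart y j n0 p1 p2 → ∃ (n : ℕ) (ν v : ℕ → R2) (ℓ c : ℕ → ℝ)
      (kk : ℕ → {l : ι // l ≠ j} × Bool), PD (FN y j p1 p2) (Fb y j n0) n ν v ℓ c kk

/-- `FMU` (from `ARE`, `FCQ`): the facet area and the edge weights.
Proof: the cone `co y j` is `{± σ (n0 + ξ.1 p1 + ξ.2 p2) : 0 ≤ σ ≤ 1, ξ ∈ facet}`; in the chart the section `α = σ` is
`σ` times the facet: volume `2 de n0 p1 p2 (1/3) area`.  Edge `(l, s)`: the chord `{c : pt y j l 1 s + c T ∈ KK y}`,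
`T = cr (y j) (y l)`, is mapped to the segment `{ξ ∈ facet : FN . ξ = Fb}` of length `|T|`-scaled:
`T = t1 p1 + t2 p2` with `(t1, t2) = rt (dt (y l) p1, dt (y l) p2)/de n0 p1 p2` up to sign (check with
`dt (y j) T = dt (y l) T = 0` and the determinant), so `Lam y j l 1 s 1 = de n0 p1 p2 · ℓ i/c i` if
`kk i = (l, s)`, and `0` if `(l, s)` is not essential (at most one point, `tch`, `le`, convexity). -/
def Stmt_FMU : Prop :=
  ∀ (ι : Type) [Fintype ι] [DecidableEq ι] (y : ι → R3), Good y → ∀ (j : ι) (n0 p1 p2 : R3),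
    Chart y j n0 p1 p2 → ∀ (n : ℕ) (ν v : ℕ → R2) (ℓ c : ℕ → ℝ)
      (kk : ℕ → {l : ι // l ≠ j} × Bool), PD (FN y j p1 p2) (Fb y j n0) n ν v ℓ c kk →
      3 * mu y j = 2 * de n0 p1 p2 * ar n v ∧
      ∀ t : ι → ℝ, t j = 0 → ∑ l, cc y j l * t l =
        2 * de n0 p1 p2 * ∑ i ∈ Finset.range n, ℓ i * (t (kk i).1 / c i)

/-- `MUT` (from `C2G`, `GOP`, `TIL`, `FCQ`, `PLN`): first order change of `Σ mu z` under the tilt.
Proof: for fixed small `τ > 0` (`yt τ` is good, `GOP`) divide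
`vo (dv (yt τ) (1 + s z)) - vo (yt τ) = [vo (dv y (1 + s z)) - vo y] - 2 de ∫_0^τ (G_s(τ') - G_0(τ')) dτ'` by `s → 0`;
`C2G` for both families gives `3 Σ mu z` on both sides, and `PLN` (first claim) gives
`|(G_s - G_0)(τ')/s - J1| ≤ η`. -/
def Stmt_MUT : Prop :=
  ∀ (ι : Type) [Fintype ι] [DecidableEq ι] (y : ι → R3), Good y → ∀ (j : ι) (n0 p1 p2 : R3),
    Chart y j n0 p1 p2 → ∀ (n : ℕ) (ν v : ℕ → R2) (ℓ c : ℕ → ℝ)
      (kk : ℕ → {l : ι // l ≠ j} × Bool), PD (FN y j p1 p2) (Fb y j n0) n ν v ℓ c kk →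
      ∀ β : R2, (∀ i, 0 < dp β (v i)) → ∀ (z : ι → ℝ) (η : ℝ), 0 < η → ∃ τ0 : ℝ, 0 < τ0 ∧
        ∀ τ : ℝ, 0 ≤ τ → τ ≤ τ0 →
        |3 * (∑ i, mu (yt y j (tb n0 p1 p2 β) τ) i * z i) - 3 * (∑ i, mu y i * z i) +
          2 * de n0 p1 p2 * τ *
            J1 n v ℓ (0, β) (fun i => Fe y j n0 z (kk i) / c i)| ≤ η * τ

/-- `RAW` (from `MUT`, `TN2`, `C2G`, `TIL`, `FCQ`, `PLN`, `GOP`, `CTV`, `BAS`): the inequality in a facet.
Proof: `V = vo`, `λ = 2 + ε`, `κ0 = de n0 p1 p2`, `m_z(τ) = 3 Σ mu (yt τ) z`; `m_w(0) = 0`.  For fixed small `τ > 0` and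
`s → 0`: by `TN2` for `yt τ` (good, `GOP`; same number of vectors)
`V(yt τ; 1+sw) + V(yt τ; 1-sw) - 2 V(yt τ) ≤ s² ((λ/3) m_w(τ)²/V(yt τ) - ε m_{w²}(τ) + η')`.
The left side is, by `TIL`, `[V(y;1+sw) + V(y;1-sw) - 2V(y)] - 2κ0 ∫_0^τ (second difference of G) dτ'`, the first
bracket is `s² (6 Σ mu w² - En) + o(s²) = s² (-ε m_{w²}(0)) + o(s²)` (`C2G`, `En = (2+ε) Qm = (2+ε) m_{w²}(0)`,
`6 Σ mu w² = 2 m_{w²}(0)`), the second difference is `≤ s² (J2 + η)` (`PLN`, `r = (0, β)`, `af r = dp β`).  So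
`-ε m_{w²}(0) - 2κ0 τ (J2 + η) ≤ (λ/3) m_w(τ)²/V - ε m_{w²}(τ)`.  `MUT`: `m_w(τ) = O(τ)`,
`m_{w²}(τ) = m_{w²}(0) - 2κ0 τ J1(w²) + O(η τ)`.  Divide by `2κ0 τ`, `τ → 0`, `η → 0`: `J2 + ε J1(w²) ≥ 0`. -/
def Stmt_RAW : Prop :=
  ∀ (N : ℕ) (ε : ℝ), 0 < ε → ε < 1 → LI ε N → ∀ (ι : Type) [Fintype ι] [DecidableEq ι],
    Fintype.card ι = N → ∀ (y : ι → R3) (w : ι → ℝ), Good y → (∑ i, mu y i * w i = 0) →
    En y w = (2 + ε) * Qm y w → ∀ (j : ι) (n0 p1 p2 : R3), Chart y j n0 p1 p2 →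
    ∀ (n : ℕ) (ν v : ℕ → R2) (ℓ c : ℕ → ℝ) (kk : ℕ → {l : ι // l ≠ j} × Bool),
      PD (FN y j p1 p2) (Fb y j n0) n ν v ℓ c kk → ∀ β : R2, (∀ i, 0 < dp β (v i)) →
      0 ≤ J2 n ν v ℓ (0, β) (fun i => Fe y j n0 w (kk i) / c i) +
        ε * J1 n v ℓ (0, β) (fun i => Fe y j n0 (fun i => w i ^ 2) (kk i) / c i)

/-- `KEY` (from `RAW`, `FCE`, `FMU`, `GDI`, `EXT`, `PEU`, `BAS`): the induction step.
Proof: otherwise take `ε, y, w, j` from `EXT`, `w j = 1 = max |w|`; `λ = 2 + ε`.  Chart: any `n0`, `p1`, `p2`.  `FCE`: polygon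
data.  `t i = 1 - w (l)`, `δ i = t i/c i`, `kk i = (l, s)`: `0 ≤ t ≤ 2`; `c i · ν i . (v i - v k) ≤ 2` because
`|y l . x| ≤ 1` at both vertices; so `t i W i ≤ 2 δ i`.  `En - (2+ε) Qm ≥ 0` (`GDI`) vanishes at `w`, derivative in
the direction `j`: `Σ cc j l (1 - w l) = 3 λ mu j`, with `FMU`: `Σ ℓ δ = λ ar`.  `PL`: affine `r ≥ 0` on the vertices with
`E(r) < 0`; `E` is linear in `r`: add a small positive constant and a small linear function: `r > 0` on the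
vertices, gradient `β ≠ 0`, `E(r) < 0`.  Let `ξ0` be a zero of `r`, and move the origin of the chart:
`n0' = chp 1 ξ0`, `v' = v - ξ0` (again `Chart`, `PD`; `E` does not change, `af (0, β) (v' i) = af r (v i)`).  `RAW` with
`Fe w/c = dist(0, line i) - δ` (as `w j = 1`: `w l - s y l . n0' = Fb - t`) and `Fe w²/c = dist - 2δ + t δ`:
`0 ≤ J2(b - δ) + ε J1(b - 2δ + tδ) = 6 J0 - 4 J1(δ) + J2(δ) + ε (3 J0 - 2 J1(δ) + T1(δ, t)) = E(r)` by `PEU` (`x = 0`,
`af (0,β) 0 = 0`), contradiction. -/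
def Stmt_KEY : Prop :=
  Stmt_PL → ∀ N : ℕ, (∀ M, M < N → LI 1 M) → LI 1 N

/-- `ALL` (from `KEY`): strong induction. -/
def Stmt_ALL : Prop := Stmt_PL → ∀ N : ℕ, LI 1 N

end Pool.G1
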