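import Pool.Agent.Work.MP_b5407d_g1.InterfaceF
import Pool.Agent.Work.MP_b5407d_t3.InterfaceL

/-!
# G1, part H: from `LI 1 N` to convex bodies, all `0 < p < 1` and `p = 0`
-/

set_option autoImplicit false

open MeasureTheory Set Filter Topology

namespace Pool.G1

open Pool.T3 (R3 dt cr de K V S H Fam Pos pt Lam Q J lin Calc)
open Pool.Agent.Work.LPBM (E supp Wulff CBody mp Span Pset)

/-- `SUQ` (T3: `PATH`, `JQ`): copy of T3 `SUP` with constant `1`, all `p` in `(0, 1)`. -/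
def Stmt_SUQ : Prop :=
  ∀ (ι : Type) [Fintype ι] (v : (ι → ℝ) → ℝ) (S : (ι → ℝ) → ι → ℝ) (H : (ι → ℝ) → ι → ι → ℝ),
    Calc v S H → (∀ h, Pos h → ∀ f : ι → ℝ, Q v S h f ≤ J v S H h f) →
    ∀ p : ℝ, 0 < p → p < 1 → ∀ a b : ι → ℝ, Pos a → Pos b → ∀ s ∈ Icc (0 : ℝ) 1,
      (1 - s) * v a ^ (p / 3) + s * v b ^ (p / 3) ≤
        v (fun i => ((1 - s) * a i ^ p + s * b i ^ p) ^ (1 / p)) ^ (p / 3)

/-- `FIQ` (from `SUQ`, `QJT`, `FGN`; T3: `CALC`): the inequality for admissible families, from `LI 1 N`.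
Proof: `Q ≤ J` for `u`, `h`, `f`: `QJT` and `LI 1 (card ι)` for `dv u h`. -/
def Stmt_FIQ : Prop :=
  (∀ N : ℕ, LI 1 N) → ∀ (ι : Type) [Fintype ι] [DecidableEq ι] (u : ι → R3), Fam u →
    ∀ p : ℝ, 0 < p → p < 1 → ∀ a b : ι → ℝ, Pos a → Pos b → ∀ s ∈ Icc (0 : ℝ) 1,
      (1 - s) * V u a ^ (p / 3) + s * V u b ^ (p / 3) ≤
        V u (fun i => ((1 - s) * a i ^ p + s * b i ^ p) ^ (1 / p)) ^ (p / 3)

/-- `GEQ` (T3: copy of `GEN3`, with the inequality of `Stmt_FIQ` as a hypothesis). -/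
def Stmt_GEQ : Prop :=
  (∀ (ι : Type) [Fintype ι] [DecidableEq ι] (u : ι → R3), Fam u →
    ∀ p : ℝ, 0 < p → p < 1 → ∀ a b : ι → ℝ, Pos a → Pos b → ∀ s ∈ Icc (0 : ℝ) 1,
      (1 - s) * V u a ^ (p / 3) + s * V u b ^ (p / 3) ≤
        V u (fun i => ((1 - s) * a i ^ p + s * b i ^ p) ^ (1 / p)) ^ (p / 3)) →
  ∀ (p : ℝ) (K C : Set (E 3)), 0 < p → p < 1 → CBody K → CBody C → (∀ x ∈ K, -x ∈ K) →
    (∀ x ∈ C, -x ∈ C) → ∀ t ∈ Icc (0 : ℝ) 1,
      (volume K).toReal ^ (1 - t) * (volume C).toReal ^ t ≤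
        (volume (Wulff (fun u => mp p t (supp K u) (supp C u)))).toReal

/-- conclusion of `GEQ` -/
def GEQc : Prop :=
  ∀ (p : ℝ) (K C : Set (E 3)), 0 < p → p < 1 → CBody K → CBody C → (∀ x ∈ K, -x ∈ K) →
    (∀ x ∈ C, -x ∈ C) → ∀ t ∈ Icc (0 : ℝ) 1,
      (volume K).toReal ^ (1 - t) * (volume C).toReal ^ t ≤
        (volume (Wulff (fun u => mp p t (supp K u) (supp C u)))).toReal

/-- `EQQ` (copy of T3 `EQL3` with `p0 = p/2`). -/
def Stmt_EQQ : Prop :=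
  GEQc → ∀ (p : ℝ) (K C : Set (E 3)), 0 < p → p < 1 → CBody K → CBody C → (∀ x ∈ K, -x ∈ K) →
    (∀ x ∈ C, -x ∈ C) → (volume K).toReal = (volume C).toReal → ∀ t ∈ Ioo (0 : ℝ) 1,
      (volume (Wulff (fun u => mp p t (supp K u) (supp C u)))).toReal = (volume K).toReal → K = C

/-- `FIN` (copy of T3 `FIN3`): the theorem for `0 < p < 1` with the equality case. -/
def Stmt_FINQ : Prop :=
  GEQc → ∀ (p : ℝ), 0 < p → p < 1 →
  ∀ (K C : Set (EuclideanSpace ℝ (Fin 3))),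
    Convex ℝ K → IsCompact K → (interior K).Nonempty → (∀ x ∈ K, -x ∈ K) →
    Convex ℝ C → IsCompact C → (interior C).Nonempty → (∀ x ∈ C, -x ∈ C) →
    ∀ (α β : ℝ), 0 < α → 0 < β →
      (α * (volume K).toReal ^ (p / 3) + β * (volume C).toReal ^ (p / 3)
        ≤ (volume {x : EuclideanSpace ℝ (Fin 3) |
              ∀ u ∈ Metric.sphere (0 : EuclideanSpace ℝ (Fin 3)) 1,
                inner ℝ x u ≤ (α * (sSup ((fun y : EuclideanSpace ℝ (Fin 3) => inner ℝ y u) '' K)) ^ p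
                    + β * (sSup ((fun y : EuclideanSpace ℝ (Fin 3) => inner ℝ y u) '' C)) ^ p) ^ (1 / p)}).toReal ^ (p / 3))
      ∧ ((volume {x : EuclideanSpace ℝ (Fin 3) |
              ∀ u ∈ Metric.sphere (0 : EuclideanSpace ℝ (Fin 3)) 1,
                inner ℝ x u ≤ (α * (sSup ((fun y : EuclideanSpace ℝ (Fin 3) => inner ℝ y u) '' K)) ^ p
                    + β * (sSup ((fun y : EuclideanSpace ℝ (Fin 3) => inner ℝ y u) '' C)) ^ p) ^ (1 / p)}).toReal ^ (p / 3)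
          = α * (volume K).toReal ^ (p / 3) + β * (volume C).toReal ^ (p / 3)
        ↔ ∃ t : ℝ, 0 < t ∧ C = (fun x : EuclideanSpace ℝ (Fin 3) => t • x) '' K)

/-- `LOG` (from `GEQ`): the logarithmic Brunn-Minkowski inequality (`p = 0`).
Proof: for fixed `u` the power mean `((1-t) a^p + t b^p)^(1/p)` decreases to `a^(1-t) b^t` as `p ↓ 0`; so the
Wulff sets for `p = 1/(n+2)` decrease and their intersection is the Wulff set of the geometric mean; all are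
compact (contained in a fixed ball), so the volumes converge (continuity from above). -/
def Stmt_LOG : Prop :=
  GEQc → ∀ (K C : Set (EuclideanSpace ℝ (Fin 3))),
    Convex ℝ K → IsCompact K → (interior K).Nonempty → (∀ x ∈ K, -x ∈ K) →
    Convex ℝ C → IsCompact C → (interior C).Nonempty → (∀ x ∈ C, -x ∈ C) →
    ∀ t ∈ Icc (0 : ℝ) 1,
      (volume K).toReal ^ (1 - t) * (volume C).toReal ^ t
        ≤ (volume {x : EuclideanSpace ℝ (Fin 3) |
              ∀ u ∈ Metric.sphere (0 : EuclideanSpace ℝ (Fin 3)) 1,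
                inner ℝ x u ≤ (sSup ((fun y : EuclideanSpace ℝ (Fin 3) => inner ℝ y u) '' K)) ^ (1 - t)
                    * (sSup ((fun y : EuclideanSpace ℝ (Fin 3) => inner ℝ y u) '' C)) ^ t}).toReal

end Pool.G1
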