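import Pool.Agent.Work.MP_b5407d_g1.Interface

/-!
# General lemmas for `LS4` (and lines in general): direction, null sets, Fubini along a line
-/

set_option autoImplicit false

open MeasureTheory Set Filter Topology

namespace Pool.G1

open Pool.T3 (R3 dt cr de K V S H Fam Pos pt Lam Q J lin)

/-- scalar product as a linear map -/
noncomputable def ls4_dtL (d : R3) : R3 →ₗ[ℝ] ℝ where
  toFun := dt d
  map_add' x y := by simp only [dt, Pi.add_apply]; ring
  map_smul' c x := by simp only [dt, Pi.smul_apply, smul_eq_mul, RingHom.id_apply]; ring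

lemma ls4_dt_self_pos {d : R3} (h : d ≠ 0) : 0 < dt d d := by
  have h0 : ¬ (d 0 = 0 ∧ d 1 = 0 ∧ d 2 = 0) := by
    rintro ⟨h0, h1, h2⟩
    apply h
    funext k
    fin_cases k <;> simp [h0, h1, h2]
  have h1 : 0 ≤ dt d d := by
    unfold dt
    nlinarith [mul_self_nonneg (d 0), mul_self_nonneg (d 1), mul_self_nonneg (d 2)]
  rcases h1.lt_or_eq with h2 | h2
  · exact h2
  · exfalso
    unfold dt at h2
    apply h0
    refine ⟨?_, ?_, ?_⟩ <;> apply mul_self_eq_zero.1 <;>
      nlinarith [mul_self_nonneg (d 0), mul_self_nonneg (d 1), mul_self_nonneg (d 2)]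

lemma ls4_plane_null {d : R3} (h : d ≠ 0) : volume {a : R3 | dt d a = 0} = 0 := by
  have h1 : (LinearMap.ker (ls4_dtL d)) ≠ ⊤ := by
    intro h2
    have h3 : d ∈ LinearMap.ker (ls4_dtL d) := by rw [h2]; trivial
    have h4 : dt d d = 0 := h3
    exact (ls4_dt_self_pos h).ne' h4
  have h2 := Measure.addHaar_submodule (volume : Measure R3) _ h1
  exact h2

/-- (B) a line of the plane (or the empty set) is a null set -/
theorem ls4_null (α β γ : ℝ) (h : α ≠ 0 ∨ β ≠ 0 ∨ γ ≠ 0) :
    volume {z : ℝ × ℝ | z.1 * α + z.2 * β = γ} = 0 := by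
  have key : ∀ α β γ : ℝ, β ≠ 0 → volume {z : ℝ × ℝ | z.1 * α + z.2 * β = γ} = 0 := by
    intro α β γ hβ
    have hm : MeasurableSet {z : ℝ × ℝ | z.1 * α + z.2 * β = γ} :=
      measurableSet_eq_fun (by fun_prop) (by fun_prop)
    rw [Measure.volume_eq_prod, Measure.measure_prod_null hm]
    apply Eventually.of_forall
    intro x
    have h1 : Prod.mk x ⁻¹' {z : ℝ × ℝ | z.1 * α + z.2 * β = γ} ⊆ {(γ - x * α) / β} := by
      intro t ht
      have ht' : x * α + t * β = γ := ht
      rw [mem_singleton_iff, eq_div_iff hβ]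
      linarith
    exact measure_mono_null h1 (by simp)
  by_cases hβ : β = 0
  · by_cases hα : α = 0
    · have hγ : γ ≠ 0 := by
        rcases h with h | h | h
        · exact absurd hα h
        · exact absurd hβ h
        · exact h
      have : {z : ℝ × ℝ | z.1 * α + z.2 * β = γ} = ∅ := by
        ext z
        constructor
        · intro hz
          have hz' : z.1 * α + z.2 * β = γ := hz
          rw [hα, hβ] at hz'
          apply hγ
          linarith
        · intro hz
          exact absurd hz (notMem_empty z)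
      rw [this, measure_empty]
    · have h1 := key β α γ hα
      have hm : MeasurableSet {z : ℝ × ℝ | z.1 * β + z.2 * α = γ} :=
        measurableSet_eq_fun (by fun_prop) (by fun_prop)
      have h2 := (Measure.measurePreserving_swap (μ := (volume : Measure ℝ))
        (ν := (volume : Measure ℝ))).measure_preimage hm.nullMeasurableSet
      rw [Measure.volume_eq_prod] at h1 ⊢
      rw [h1] at h2
      refine measure_mono_null ?_ h2
      intro z hz
      have hz' : z.1 * α + z.2 * β = γ := hz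
      show z.2 * β + z.1 * α = γ
      linarith
  · exact key α β γ hβ

/-- (H) a vector orthogonal to a basis vanishes -/
theorem ls4_basis {b1 b2 a c : R3} (h : de b1 b2 a ≠ 0) (h1 : dt c b1 = 0) (h2 : dt c b2 = 0)
    (h3 : dt c a = 0) : c = 0 := by
  have key : ∀ k, de b1 b2 a * c k =
      dt c b1 * cr b2 a k + dt c b2 * cr a b1 k + dt c a * cr b1 b2 k := by
    intro k
    fin_cases k <;> simp [de, dt, cr] <;> ring
  funext k
  have h4 := key k
  rw [h1, h2, h3] at h4
  have h5 : de b1 b2 a * c k = 0 := by rw [h4]; ring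
  rcases mul_eq_zero.1 h5 with h6 | h6
  · exact absurd h6 h
  · simpa using h6

/-- the linear map of the coordinates `(z, t)` -/
noncomputable def ls4_Phi (b1 b2 a : R3) : (ℝ × ℝ) × ℝ →ₗ[ℝ] R3 where
  toFun p := lnp b1 b2 a p.1 p.2
  map_add' p q := by
    simp only [lnp, Prod.fst_add, Prod.snd_add, add_smul]
    abel
  map_smul' c p := by
    simp only [lnp, Prod.smul_fst, Prod.smul_snd, smul_eq_mul, mul_smul, RingHom.id_apply,
      smul_add]

lemma ls4_Phi_inj {b1 b2 a : R3} (h : de b1 b2 a ≠ 0) : Function.Injective (ls4_Phi b1 b2 a) := by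
  rw [injective_iff_map_eq_zero]
  rintro ⟨⟨z1, z2⟩, t⟩ hp
  have hp' : lnp b1 b2 a (z1, z2) t = 0 := hp
  have e1 : dt (cr b2 a) (lnp b1 b2 a (z1, z2) t) = z1 * de b1 b2 a := by
    simp [de, dt, cr, lnp]; ring
  have e2 : dt (cr a b1) (lnp b1 b2 a (z1, z2) t) = z2 * de b1 b2 a := by
    simp [de, dt, cr, lnp]; ring
  have e3 : dt (cr b1 b2) (lnp b1 b2 a (z1, z2) t) = t * de b1 b2 a := by
    simp [de, dt, cr, lnp]; ring
  have e0 : ∀ d : R3, dt d (0 : R3) = 0 := fun d => by simp [dt]
  rw [hp', e0] at e1 e2 e3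
  have f1 : z1 = 0 := (mul_eq_zero.1 e1.symm).resolve_right h
  have f2 : z2 = 0 := (mul_eq_zero.1 e2.symm).resolve_right h
  have f3 : t = 0 := (mul_eq_zero.1 e3.symm).resolve_right h
  rw [f1, f2, f3]
  rfl

/-- (C) Fubini along the lines -/
theorem ls4_fub {b1 b2 a : R3} (h : de b1 b2 a ≠ 0) {G : R3 → Prop} (hG : ∀ᵐ x : R3, G x) :
    ∀ᵐ z : ℝ × ℝ, ∀ᵐ t : ℝ, G (lnp b1 b2 a z t) := by
  let L : ((ℝ × ℝ) × ℝ) ≃L[ℝ] R3 :=
    (LinearMap.linearEquivOfInjective (ls4_Phi b1 b2 a) (ls4_Phi_inj h)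
      (by simp)).toContinuousLinearEquiv
  have hLapp : ∀ p, L p = lnp b1 b2 a p.1 p.2 := fun p => rfl
  have h22 : ((volume : Measure ℝ).prod (volume : Measure ℝ)).IsAddHaarMeasure := inferInstance
  have h23 : (((volume : Measure ℝ).prod (volume : Measure ℝ)).prod
    (volume : Measure ℝ)).IsAddHaarMeasure := inferInstance
  have hh : ((((volume : Measure ℝ).prod (volume : Measure ℝ)).prod
    (volume : Measure ℝ)).map L).IsAddHaarMeasure := L.isAddHaarMeasure_map _
  have hac : ((((volume : Measure ℝ).prod (volume : Measure ℝ)).prod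
    (volume : Measure ℝ)).map L) ≪ (volume : Measure R3) :=
    Measure.absolutelyContinuous_isAddHaarMeasure _ _
  have h1 : ∀ᵐ x ∂((((volume : Measure ℝ).prod (volume : Measure ℝ)).prod
    (volume : Measure ℝ)).map L), G x := hac.ae_le hG
  have h2 : ∀ᵐ p : (ℝ × ℝ) × ℝ ∂(((volume : Measure ℝ).prod (volume : Measure ℝ)).prod
    (volume : Measure ℝ)), G (L p) := ae_of_ae_map L.continuous.measurable.aemeasurable h1
  have h3 : ∀ᵐ p : (ℝ × ℝ) × ℝ ∂((volume : Measure (ℝ × ℝ)).prod (volume : Measure ℝ)),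
      G (lnp b1 b2 a p.1 p.2) := h2
  exact Measure.ae_ae_of_ae_prod h3

/-- (A) a direction in general position -/
theorem ls4_dir {κ : Type} [Fintype κ] (y : κ → R3) (hy : Npb y) (hne : Nonempty κ) :
    ∃ b1 b2 a : R3, de b1 b2 a = 1 ∧
      ∀ P P' : κ × Bool, P ≠ P' → dt (sy y P - sy y P') a ≠ 0 := by
  classical
  -- the vectors are nonzero
  have hy0 : ∀ i, y i ≠ 0 := by
    intro i hi
    have hall : ∀ k, k = i := by
      intro k
      by_contra hk
      apply hy.np i k (Ne.symm hk)
      rw [hi]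
      funext m
      fin_cases m <;> simp [cr]
    obtain ⟨R, hR⟩ := hy.bd
    have hmem : (fun _ => |R| + 1 : R3) ∈ KK y := by
      intro k
      show |dt (y k) _| ≤ 1
      rw [hall k, hi]
      simp [dt]
    have h1 := hR _ hmem 0
    have h2 : |(|R| + 1)| ≤ R := h1
    rw [abs_of_pos (by positivity)] at h2
    linarith [le_abs_self R]
  have hdiff : ∀ P P' : κ × Bool, P ≠ P' → sy y P - sy y P' ≠ 0 := by
    rintro ⟨i, s⟩ ⟨k, s'⟩ hPP h0
    by_cases hik : i = k
    · subst hik
      have hss : s ≠ s' := fun h => hPP (by rw [h])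
      apply hy0 i
      funext m
      have h1 := congrFun h0 m
      cases s <;> cases s' <;> simp [sy] at hss h1 ⊢ <;> linarith
    · apply hy.np i k hik
      have h1 : ∀ m, sy y (i, s) m = sy y (k, s') m := fun m => by
        have := congrFun h0 m
        simpa [sub_eq_zero] using this
      obtain ⟨σ, hσ⟩ : ∃ σ : ℝ, ∀ m, y k m = σ * y i m := by
        cases s <;> cases s' <;> simp [sy] at h1
        · exact ⟨1, fun m => by linarith [h1 m]⟩
        · exact ⟨-1, fun m => by linarith [h1 m]⟩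
        · exact ⟨-1, fun m => by linarith [h1 m]⟩
        · exact ⟨1, fun m => by linarith [h1 m]⟩
      funext m
      fin_cases m <;> simp [cr, hσ] <;> ring
  have hae : ∀ᵐ a : R3, ∀ P P' : κ × Bool, P ≠ P' → dt (sy y P - sy y P') a ≠ 0 := by
    rw [ae_all_iff]
    intro P
    rw [ae_all_iff]
    intro P'
    by_cases hPP : P = P'
    · exact Eventually.of_forall fun a h => absurd hPP h
    · have h1 := ls4_plane_null (hdiff P P' hPP)
      have h2 : ∀ᵐ a : R3, ¬ (dt (sy y P - sy y P') a = 0) := by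
        rw [ae_iff]
        simpa using h1
      filter_upwards [h2] with a ha _
      exact ha
  obtain ⟨a, ha⟩ := hae.exists
  obtain ⟨i⟩ := hne
  have ha0 : a ≠ 0 := by
    intro h0
    apply ha (i, true) (i, false) (by simp)
    rw [h0]
    simp [dt]
  have hcase : a 0 ≠ 0 ∨ a 1 ≠ 0 ∨ a 2 ≠ 0 := by
    by_contra hcon
    push Not at hcon
    apply ha0
    funext m
    fin_cases m <;> simp [hcon.1, hcon.2.1, hcon.2.2]
  rcases hcase with h | h | h
  · refine ⟨![0, 1 / a 0, 0], ![0, 0, 1], a, ?_, ha⟩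
    simp [de, dt, cr]
    field_simp
  · refine ⟨![0, 0, 1 / a 1], ![1, 0, 0], a, ?_, ha⟩
    simp [de, dt, cr]
    field_simp
  · refine ⟨![1 / a 2, 0, 0], ![0, 1, 0], a, ?_, ha⟩
    simp [de, dt, cr]
    field_simp

end Pool.G1
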