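import Pool.Agent.Work.MP_b5407d_g1.CTV

/-!
# G1, block `NML` (helper94): limits of normalised families
-/

set_option autoImplicit false

open MeasureTheory Set Filter Topology

namespace Pool.G1

open Pool.T3 (R3 dt cr de K V S H Fam Pos pt Lam Q J lin)

theorem blk_NML : Stmt_NML := by
  intro ι _ ys y hn hy
  refine ⟨fun i k => ?_, fun x hx k => ?_⟩
  · have h1 : Tendsto (fun n => |ys n i k|) atTop (𝓝 |y i k|) := by
      have h2 : Tendsto (fun n => ys n i) atTop (𝓝 (y i)) := (tendsto_pi_nhds.mp hy) i
      exact ((tendsto_pi_nhds.mp h2) k).abs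
    exact le_of_tendsto h1 (Eventually.of_forall fun n => (hn n).le i k)
  · -- every `c x` with `0 < c < 1` is eventually in `KK (ys n)`
    have key : ∀ c : ℝ, 0 < c → c < 1 → c * |x k| ≤ 1 := by
      intro c hc0 hc1
      have hev : ∀ᶠ n in atTop, ∀ i, |dt (ys n i) (c • x)| < 1 := by
        rw [eventually_all]
        intro i
        have h2 : Tendsto (fun n => ys n i) atTop (𝓝 (y i)) := (tendsto_pi_nhds.mp hy) i
        have h3 : Tendsto (fun n => |dt (ys n i) (c • x)|) atTop (𝓝 |dt (y i) (c • x)|) := by
          have h4 : Continuous (fun a : R3 => |dt a (c • x)|) :=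
            (CTV.cont_dt continuous_id continuous_const).abs
          exact (h4.tendsto (y i)).comp h2
        refine (h3.eventually (gt_mem_nhds ?_))
        rw [CTV.dt_smul, abs_mul, abs_of_pos hc0]
        have h5 : |dt (y i) x| ≤ 1 := hx i
        calc c * |dt (y i) x| ≤ c * 1 := mul_le_mul_of_nonneg_left h5 hc0.le
          _ < 1 := by linarith
      obtain ⟨n, hn'⟩ := hev.exists
      have h6 : c • x ∈ KK (ys n) := fun i => (hn' i).le
      have h7 := (hn n).cub _ h6 k
      rw [Pi.smul_apply, smul_eq_mul, abs_mul, abs_of_pos hc0] at h7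
      exact h7
    by_contra hno
    push Not at hno
    have h8 := key (2 / (1 + |x k|)) (by positivity)
      (by rw [div_lt_one (by positivity)]; linarith)
    have h9 : 1 < 2 / (1 + |x k|) * |x k| := by
      rw [div_mul_eq_mul_div, lt_div_iff₀ (by positivity)]; linarith
    linarith

end Pool.G1
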