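import Pool.Agent.Work.MP_b5407d_g1.LS4a

/-!
# G1, block OMI (back-up): integrals of `om`
-/

set_option autoImplicit false

open MeasureTheory Set Filter Topology

namespace Pool.G1

open Pool.T3 (R3 dt cr de K V S H Fam Pos pt Lam Q J lin)
open scoped Pointwise

namespace OMI71

lemma dt_neg_left (a x : R3) : dt (-a) x = -dt a x := by
  simp only [dt, Pi.neg_apply]; ring

lemma dt_sub_left (a b x : R3) : dt (a - b) x = dt a x - dt b x := by
  simp only [dt, Pi.sub_apply]; ring

lemma dt_smul_right (t : ℝ) (a x : R3) : dt a (t • x) = t * dt a x := by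
  simp only [dt, Pi.smul_apply, smul_eq_mul]; ring

lemma dt_cont (a : R3) : Continuous (fun x => dt a x) := by
  unfold dt; fun_prop

lemma abs_sy {ι : Type} (y : ι → R3) (P : ι × Bool) (x : R3) :
    |dt (sy y P) x| = |dt (y P.1) x| := by
  unfold sy
  split_ifs
  · rfl
  · rw [dt_neg_left, abs_neg]

lemma kk_bdd {ι : Type} {y : ι → R3} (hy : Npb y) : ∃ R : ℝ, KK y ⊆ Metric.closedBall (0 : R3) R := by
  obtain ⟨R, hR⟩ := hy.bd
  refine ⟨max R 0, fun x hx => ?_⟩
  rw [mem_closedBall_zero_iff, pi_norm_le_iff_of_nonneg (le_max_right _ _)]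
  intro k
  rw [Real.norm_eq_abs]
  exact (hR x hx k).trans (le_max_left _ _)

lemma kk_closed {ι : Type} (y : ι → R3) : IsClosed (KK y) := by
  have : KK y = ⋂ i, {x : R3 | |dt (y i) x| ≤ 1} := by
    ext x; simp [KK, K]
  rw [this]
  exact isClosed_iInter fun i => isClosed_le (dt_cont (y i)).abs continuous_const

lemma kk_fin {ι : Type} {y : ι → R3} (hy : Npb y) : volume (KK y) < ⊤ := by
  obtain ⟨R, hR⟩ := kk_bdd hy
  exact lt_of_le_of_lt (measure_mono hR) (isCompact_closedBall (0 : R3) R).measure_lt_top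

lemma ne_empty {ι : Type} {y : ι → R3} (hy : Npb y) : Nonempty ι := by
  by_contra h
  rw [not_nonempty_iff] at h
  obtain ⟨R, hR⟩ := hy.bd
  have hmem : (fun _ => |R| + 1 : R3) ∈ KK y := fun k => h.elim k
  have h1 := hR _ hmem 0
  have h2 : |(|R| + 1)| ≤ R := h1
  rw [abs_of_pos (by positivity)] at h2
  linarith [le_abs_self R]

lemma y_ne {ι : Type} {y : ι → R3} (hy : Npb y) (i : ι) : y i ≠ 0 := by
  intro hi
  have hall : ∀ k, k = i := by
    intro k
    by_contra hk
    apply hy.np i k (Ne.symm hk)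
    rw [hi]
    funext m
    fin_cases m <;> simp [cr]
  obtain ⟨R, hR⟩ := hy.bd
  have hmem : (fun _ => |R| + 1 : R3) ∈ KK y := by
    intro k
    show |dt (y k) _| ≤ 1
    rw [hall k, hi]
    simp [dt]
  have h1 := hR _ hmem 0
  have h2 : |(|R| + 1)| ≤ R := h1
  rw [abs_of_pos (by positivity)] at h2
  linarith [le_abs_self R]

lemma sy_sub_ne {ι : Type} {y : ι → R3} (hy : Npb y) {P P' : ι × Bool} (hPP : P ≠ P') :
    sy y P - sy y P' ≠ 0 := by
  obtain ⟨i, s⟩ := P
  obtain ⟨k, s'⟩ := P'
  intro h0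
  by_cases hik : i = k
  · subst hik
    have hss : s ≠ s' := fun h => hPP (by rw [h])
    apply y_ne hy i
    funext m
    have h1 := congrFun h0 m
    cases s <;> cases s' <;> simp [sy] at hss h1 ⊢ <;> linarith
  · apply hy.np i k hik
    have h1 : ∀ m, sy y (i, s) m = sy y (k, s') m := fun m => by
      have := congrFun h0 m
      simpa [sub_eq_zero] using this
    obtain ⟨σ, hσ⟩ : ∃ σ : ℝ, ∀ m, y k m = σ * y i m := by
      cases s <;> cases s' <;> simp [sy] at h1
      · exact ⟨1, fun m => by linarith [h1 m]⟩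
      · exact ⟨-1, fun m => by linarith [h1 m]⟩
      · exact ⟨-1, fun m => by linarith [h1 m]⟩
      · exact ⟨1, fun m => by linarith [h1 m]⟩
    funext m
    fin_cases m <;> simp [cr, hσ] <;> ring

/-- the open cones -/
def U {ι : Type} (y : ι → R3) (i : ι) : Set R3 :=
  {x : R3 | ∀ l, l ≠ i → |dt (y l) x| < |dt (y i) x|}

lemma om_eq {ι : Type} [Fintype ι] (y : ι → R3) (w : ι → ℝ) (x : R3) :
    om y w x = ∑ i, (U y i).indicator (fun _ => w i) x := rfl

lemma U_meas {ι : Type} [Fintype ι] (y : ι → R3) (i : ι) : MeasurableSet (U y i) := by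
  have : U y i = ⋂ l : ι, ⋂ (_ : l ≠ i), {x : R3 | |dt (y l) x| < |dt (y i) x|} := by
    ext x; simp [U]
  rw [this]
  refine MeasurableSet.iInter fun l => MeasurableSet.iInter fun _ => ?_
  exact (isOpen_lt (dt_cont (y l)).abs (dt_cont (y i)).abs).measurableSet

lemma U_disj {ι : Type} (y : ι → R3) {i j : ι} (hij : i ≠ j) {x : R3} (hi : x ∈ U y i) :
    x ∉ U y j := by
  intro hj
  have h1 := hi j (Ne.symm hij)
  have h2 := hj i hij
  linarith

lemma om_of_mem {ι : Type} [Fintype ι] (y : ι → R3) (w : ι → ℝ) {i : ι} {x : R3}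
    (hi : x ∈ U y i) : om y w x = w i := by
  rw [om_eq, Finset.sum_eq_single i]
  · exact indicator_of_mem hi _
  · intro j _ hj
    exact indicator_of_notMem (U_disj y (Ne.symm hj) hi) _
  · intro h
    exact absurd (Finset.mem_univ i) h

lemma om_sq {ι : Type} [Fintype ι] (y : ι → R3) (w : ι → ℝ) (x : R3) :
    om y w x ^ 2 = om y (fun i => w i ^ 2) x := by
  by_cases h : ∃ i, x ∈ U y i
  · obtain ⟨i, hi⟩ := h
    rw [om_of_mem y w hi, om_of_mem y _ hi]
  · push Not at h
    have h1 : ∀ w : ι → ℝ, om y w x = 0 := by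
      intro w
      rw [om_eq]
      exact Finset.sum_eq_zero fun i _ => indicator_of_notMem (h i) _
    rw [h1, h1]
    norm_num

lemma om_meas {ι : Type} [Fintype ι] (y : ι → R3) (w : ι → ℝ) : Measurable (om y w) := by
  have : om y w = fun x => ∑ i, (U y i).indicator (fun _ => w i) x := by
    funext x; rfl
  rw [this]
  exact Finset.measurable_sum _ fun i _ => measurable_const.indicator (U_meas y i)

lemma om_smul {ι : Type} [Fintype ι] (y : ι → R3) (w : ι → ℝ) (c : ℝ) (x : R3) (hc : c ≠ 0) :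
    om y w (c • x) = om y w x := by
  have hcp : 0 < |c| := abs_pos.2 hc
  have h1 : ∀ i, c • x ∈ U y i ↔ x ∈ U y i := by
    intro i
    constructor
    · intro h l hl
      have h2 := h l hl
      rw [dt_smul_right, dt_smul_right, abs_mul, abs_mul] at h2
      exact lt_of_mul_lt_mul_left h2 hcp.le
    · intro h l hl
      have h2 := h l hl
      rw [dt_smul_right, dt_smul_right, abs_mul, abs_mul]
      exact mul_lt_mul_of_pos_left h2 hcp
  rw [om_eq, om_eq]
  refine Finset.sum_congr rfl fun i _ => ?_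
  by_cases hi : x ∈ U y i
  · rw [indicator_of_mem hi, indicator_of_mem ((h1 i).2 hi)]
  · rw [indicator_of_notMem hi, indicator_of_notMem (fun h => hi ((h1 i).1 h))]

/-- generic points -/
lemma gen_ae {ι : Type} [Fintype ι] {y : ι → R3} (hy : Npb y) :
    ∀ᵐ x : R3, ∀ P P' : ι × Bool, P ≠ P' → dt (sy y P) x ≠ dt (sy y P') x := by
  rw [ae_all_iff]
  intro P
  rw [ae_all_iff]
  intro P'
  by_cases hPP : P = P'
  · exact Eventually.of_forall fun a h => absurd hPP h
  · have h1 := ls4_plane_null (sy_sub_ne hy hPP)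
    have h2 : ∀ᵐ a : R3, ¬ (dt (sy y P - sy y P') a = 0) := by
      rw [ae_iff]
      simpa using h1
    filter_upwards [h2] with a ha _ he
    apply ha
    rw [dt_sub_left, he, sub_self]

lemma gen_mem {ι : Type} {y : ι → R3} {x : R3}
    (hx : ∀ P P' : ι × Bool, P ≠ P' → dt (sy y P) x ≠ dt (sy y P') x) {P : ι × Bool}
    (hP : act y P x) : x ∈ U y P.1 := by
  have h0 : 0 ≤ dt (sy y P) x := (abs_nonneg _).trans (hP P.1)
  have h1 : |dt (y P.1) x| = dt (sy y P) x := by
    rw [← abs_sy, abs_of_nonneg h0]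
  intro l hl
  rw [h1]
  refine lt_of_le_of_ne (hP l) ?_
  intro he
  rcases abs_choice (dt (y l) x) with h2 | h2
  · apply hx (l, true) P (fun h => hl (by rw [← h]))
    rw [← he, h2]
    simp [sy]
  · apply hx (l, false) P (fun h => hl (by rw [← h]))
    rw [← he, h2]
    simp [sy, dt_neg_left]

lemma act_ex {ι : Type} [Fintype ι] [Nonempty ι] (y : ι → R3) (x : R3) :
    ∃ P : ι × Bool, act y P x := by
  obtain ⟨P, hP⟩ := Finite.exists_max (fun P : ι × Bool => dt (sy y P) x)
  refine ⟨P, fun l => ?_⟩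
  rcases abs_choice (dt (y l) x) with h2 | h2
  · rw [h2]
    have := hP (l, true)
    simpa [sy] using this
  · rw [h2]
    have := hP (l, false)
    simpa [sy, dt_neg_left] using this

lemma co_ae {ι : Type} [Fintype ι] {y : ι → R3} (hy : Npb y) (i : ι) :
    volume (KK y ∩ U y i) = volume (co y i) := by
  have hne := ne_empty hy
  apply measure_congr
  filter_upwards [gen_ae hy] with x hx
  apply propext
  constructor
  · rintro ⟨h1, h2⟩
    refine ⟨h1, fun l => ?_⟩
    by_cases hl : l = i
    · rw [hl]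
    · exact (h2 l hl).le
  · rintro ⟨h1, h2⟩
    refine ⟨h1, ?_⟩
    obtain ⟨P, hP⟩ := act_ex y x
    have h3 := gen_mem hx hP
    by_cases hPi : P.1 = i
    · rw [← hPi]; exact h3
    · exfalso
      have h4 := h3 i (Ne.symm hPi)
      have h5 := h2 P.1
      linarith

lemma int_kk {ι : Type} [Fintype ι] {y : ι → R3} (hy : Npb y) (w : ι → ℝ) :
    ∫ x in KK y, om y w x = ∑ i, mu y i * w i := by
  have hfin : IsFiniteMeasure (volume.restrict (KK y) : Measure R3) :=
    ⟨by simpa using kk_fin hy⟩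
  have h1 : ∫ x in KK y, om y w x =
      ∑ i, ∫ x in KK y, (U y i).indicator (fun _ => w i) x := by
    have : (fun x => om y w x) = fun x => ∑ i, (U y i).indicator (fun _ => w i) x := by
      funext x; rfl
    rw [this]
    apply integral_finsetSum
    intro i _
    exact (integrable_const (w i)).indicator (U_meas y i)
  rw [h1]
  refine Finset.sum_congr rfl fun i _ => ?_
  rw [integral_indicator_const _ (U_meas y i), smul_eq_mul]
  congr 1
  unfold mu
  rw [← co_ae hy i, Measure.real, Measure.restrict_apply (U_meas y i), inter_comm]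

lemma int_smul {ι : Type} [Fintype ι] {y : ι → R3} (hy : Npb y) (w : ι → ℝ) (c : ℝ) (hc : 0 < c) :
    ∫ x in (fun x : R3 => c • x) '' KK y, om y w x = c ^ 3 * ∑ i, mu y i * w i := by
  have h1 := Measure.setIntegral_comp_smul_of_pos (volume : Measure R3) (om y w) (KK y) hc
  have h2 : (fun x => om y w (c • x)) = om y w := by
    funext x
    exact om_smul y w c x hc.ne'
  have h4 : Module.finrank ℝ R3 = 3 := by simp
  rw [h2, int_kk hy w, h4, smul_eq_mul] at h1
  have h3 : (fun x : R3 => c • x) '' KK y = c • KK y := rfl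
  rw [h3, h1]
  field_simp

end OMI71

open OMI71 in
theorem blk_OMI71 : Stmt_OMI := by
  intro ι _ y hy w
  refine ⟨om_meas y w, ⟨∑ i, |w i|, ?_⟩, fun c x hc => om_smul y w c x hc, ?_,
    fun c hc => int_smul hy w c hc, ?_⟩
  · intro x
    rw [om_eq]
    refine (Finset.abs_sum_le_sum_abs _ _).trans (Finset.sum_le_sum fun i _ => ?_)
    by_cases hi : x ∈ U y i
    · rw [indicator_of_mem hi]
    · rw [indicator_of_notMem hi, abs_zero]
      exact abs_nonneg _
  · intro c hc
    simp_rw [om_sq]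
    exact int_smul hy _ c hc
  · have hne := ne_empty hy
    filter_upwards [gen_ae hy] with x hx
    obtain ⟨P, hP⟩ := act_ex y x
    refine ⟨P, hP, om_of_mem y w (gen_mem hx hP), ?_⟩
    intro P' hP'
    by_contra hne'
    have hmax : ∀ (P : ι × Bool), act y P x → ∀ R : ι × Bool, dt (sy y R) x ≤ dt (sy y P) x := by
      intro P hP R
      refine le_trans (le_abs_self _) ?_
      rw [abs_sy]
      exact hP R.1
    exact hx P' P hne' (le_antisymm (hmax P hP P') (hmax P' hP' P))

end Pool.G1
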