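import Pool.Agent.Work.MP_b5407d_g1.Pl_NRM

/-!
# G1: normalised planar certificates

For a polygon of area `1` with centroid `0`: with `h = ν . v`, `a = W - h`, `q = 2 h - a`,
`β = Σ ℓ δ θ - 1`, `y = Σ ℓ δ θ m`, `vv = - Σ ℓ δ m`, `η = δ - h + ν . vv`,

* `A(s_k) ≤ β a_k + ν_k . y - 2 lam η_k + lam ^ 2 q_k` for every real `lam` (hinge bound);
* `A(1) ≤ β - (B2(η, p) + (1/2) B2(p, p) - (1/4) (Σ ℓ p) ^ 2)` for every periodic `p` (test body);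
* `cert`: if a nonnegative combination of upper bounds for `A(s_k)` and `A(1)` is negative, then there is a
  positive affine certificate.
-/

set_option autoImplicit false

open Finset

namespace Pool.G1

/-- midpoint of the edge `k` -/
noncomputable def md (v : ℕ → R2) (k : ℕ) : R2 := (1 / 2 : ℝ) • (v k + v (k + 1))

/-- `β = Σ ℓ δ θ - 1` -/
noncomputable def bt (n : ℕ) (ℓ δ θ : ℕ → ℝ) : ℝ := ∑ i ∈ range n, ℓ i * δ i * θ i - 1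

/-- `y = Σ ℓ δ θ m` -/
noncomputable def yy (n : ℕ) (v : ℕ → R2) (ℓ δ θ : ℕ → ℝ) : R2 :=
  ∑ i ∈ range n, (ℓ i * δ i * θ i) • md v i

/-- `vv = - Σ ℓ δ m` -/
noncomputable def vc (n : ℕ) (v : ℕ → R2) (ℓ δ : ℕ → ℝ) : R2 :=
  -∑ i ∈ range n, (ℓ i * δ i) • md v i

/-- recentred velocities `η = δ - h + ν . vv` -/
noncomputable def et (n : ℕ) (ν v : ℕ → R2) (ℓ δ : ℕ → ℝ) (k : ℕ) : ℝ :=
  δ k - dp (ν k) (v k) + dp (ν k) (vc n v ℓ δ)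

/-- upper bound of `A(s_k)` -/
noncomputable def gb (n : ℕ) (ν v : ℕ → R2) (ℓ δ θ : ℕ → ℝ) (W : ℕ → ℝ) (lam : ℝ) (k : ℕ) : ℝ :=
  bt n ℓ δ θ * (W k - dp (ν k) (v k)) + dp (ν k) (yy n v ℓ δ θ) -
    2 * lam * et n ν v ℓ δ k + lam ^ 2 * (3 * dp (ν k) (v k) - W k)

lemma dp_sum_right (s : Finset ℕ) (a : R2) (f : ℕ → R2) :
    dp a (∑ i ∈ s, f i) = ∑ i ∈ s, dp a (f i) := by
  unfold dp
  rw [Prod.fst_sum, Prod.snd_sum, mul_sum, mul_sum, ← sum_add_distrib]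

lemma EI_md (v : ℕ → R2) (ℓ : ℕ → ℝ) (r : ℝ × R2) (i : ℕ) :
    EI v ℓ r i = ℓ i * af r (md v i) := by
  unfold EI af md
  simp only [dp, Prod.smul_fst, Prod.smul_snd, Prod.fst_add, Prod.snd_add, smul_eq_mul]
  ring

lemma T1_aff (n : ℕ) (v : ℕ → R2) (ℓ δ θ : ℕ → ℝ) (r : ℝ × R2) :
    T1 n v ℓ r δ θ = (bt n ℓ δ θ + 1) * r.1 + dp r.2 (yy n v ℓ δ θ) := by
  unfold T1 bt yy
  rw [dp_sum_right, sub_add_cancel, sum_mul, ← sum_add_distrib]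
  refine sum_congr rfl fun i _ => ?_
  rw [EI_md, NRM.dp_smul_right]
  unfold af; ring

lemma J1_aff (n : ℕ) (v : ℕ → R2) (ℓ δ : ℕ → ℝ) (r : ℝ × R2) :
    J1 n v ℓ r δ = (∑ i ∈ range n, ℓ i * δ i) * r.1 - dp r.2 (vc n v ℓ δ) := by
  have h : dp r.2 (vc n v ℓ δ) = -dp r.2 (∑ i ∈ range n, (ℓ i * δ i) • md v i) := by
    unfold vc dp
    rw [Prod.fst_neg, Prod.snd_neg]; ring
  rw [h, sub_neg_eq_add, dp_sum_right, sum_mul]
  unfold J1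
  rw [← sum_add_distrib]
  refine sum_congr rfl fun i _ => ?_
  rw [EI_md, NRM.dp_smul_right]
  unfold af; ring

section

variable {n : ℕ} {ν v : ℕ → R2} {ℓ : ℕ → ℝ}

lemma J0_norm (har : ar n v = 1) (hcen : ∀ g : R2, J0 n v (0, g) = 0) (r : ℝ × R2) :
    J0 n v r = r.1 := by
  have h : r = r.1 • ((1, (0, 0)) : ℝ × R2) + ((0, r.2) : ℝ × R2) := by
    ext <;> simp
  conv_lhs => rw [h]
  rw [J0_add, J0_smul, J0_one, har, hcen]; ring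

/-- `A(r) = T1(r) - J0(r) + (1/2) J2_η(r)` -/
lemma AA_norm (hE : Stmt_PEU) (hP : Poly n ν v ℓ) (har : ar n v = 1)
    (hcen : ∀ g : R2, J0 n v (0, g) = 0) (δ θ : ℕ → ℝ) (hδ : ∀ i, δ (i + n) = δ i)
    (hS : ∑ i ∈ range n, ℓ i * δ i = 2) (r : ℝ × R2) :
    AA n ν v ℓ δ θ r = bt n ℓ δ θ * r.1 + dp r.2 (yy n v ℓ δ θ) +
      1 / 2 * J2 n ν v ℓ r (et n ν v ℓ δ) := by
  have hS' : ∑ i ∈ range n, ℓ i * δ i = 2 * ar n v := by rw [hS, har]; ring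
  have h2 := J2_shift hE hP r δ hδ hS' (vc n v ℓ δ)
  have h3 : (fun i => δ i - dp (ν i) (v i - vc n v ℓ δ)) = et n ν v ℓ δ := by
    funext i
    unfold et
    rw [NRM.dp_sub_right]; ring
  rw [h3] at h2
  unfold AA
  rw [h2, T1_aff, J0_norm har hcen]
  ring

lemma et_per (hP : Poly n ν v ℓ) (δ : ℕ → ℝ) (hδ : ∀ i, δ (i + n) = δ i) (i : ℕ) :
    et n ν v ℓ δ (i + n) = et n ν v ℓ δ i := by
  unfold et
  rw [hδ, hP.pν, hP.pv]

lemma J1_et (hE : Stmt_PEU) (hP : Poly n ν v ℓ) (har : ar n v = 1)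
    (hcen : ∀ g : R2, J0 n v (0, g) = 0) (δ : ℕ → ℝ)
    (hS : ∑ i ∈ range n, ℓ i * δ i = 2) (r : ℝ × R2) : J1 n v ℓ r (et n ν v ℓ δ) = 0 := by
  have hp : ∀ r : ℝ × R2, J1 n v ℓ r δ = 3 * J0 n v r - af r (vc n v ℓ δ) * ar n v := by
    intro r
    rw [J1_aff, J0_norm har hcen, hS, har]
    unfold af; ring
  have h3 : (fun i => δ i - dp (ν i) (v i - vc n v ℓ δ)) = et n ν v ℓ δ := by
    funext i
    unfold et
    rw [NRM.dp_sub_right]; ring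
  rw [← h3]
  exact J1_eta hE hP δ _ hp r

lemma sum_et (hE : Stmt_PEU) (hP : Poly n ν v ℓ) (har : ar n v = 1)
    (hcen : ∀ g : R2, J0 n v (0, g) = 0) (δ : ℕ → ℝ)
    (hS : ∑ i ∈ range n, ℓ i * δ i = 2) : ∑ i ∈ range n, ℓ i * et n ν v ℓ δ i = 0 := by
  rw [← J1_one n v ℓ (et n ν v ℓ δ)]
  exact J1_et hE hP har hcen δ hS _

/-- hinge bound of `A(s_k)` -/
lemma AA_sk_gb (hE : Stmt_PEU) (hU : Stmt_HU) (hP : Poly n ν v ℓ) (har : ar n v = 1)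
    (hcen : ∀ g : R2, J0 n v (0, g) = 0) (W : ℕ → ℝ)
    (hW1 : ∀ k j, dp (ν k) (v k - v j) ≤ W k) (hW2 : ∀ k, ∃ j, dp (ν k) (v k - v j) = W k)
    (δ θ : ℕ → ℝ) (hδ : ∀ i, δ (i + n) = δ i) (hS : ∑ i ∈ range n, ℓ i * δ i = 2) (lam : ℝ)
    (k : ℕ) : AA n ν v ℓ δ θ (sk ν v (W k) k) ≤ gb n ν v ℓ δ θ W lam k := by
  have h1 := hU n ν v ℓ hP k (W k) (hW1 k) (hW2 k) (et n ν v ℓ δ) (et_per hP δ hδ)
    (J1_et hE hP har hcen δ hS) lam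
  rw [AA_norm hE hP har hcen δ θ hδ hS]
  rw [har, J0_norm har hcen] at h1
  have e1 : (sk ν v (W k) k).1 = W k - dp (ν k) (v k) := rfl
  have e2 : (sk ν v (W k) k).2 = ν k := rfl
  rw [e1] at h1 ⊢
  rw [e2]
  unfold gb
  nlinarith [h1]

/-- test body bound of `A(1)` -/
lemma AA_one_test (hE : Stmt_PEU) (hM : Stmt_PMI) (hP : Poly n ν v ℓ) (har : ar n v = 1)
    (hcen : ∀ g : R2, J0 n v (0, g) = 0) (δ θ : ℕ → ℝ) (hδ : ∀ i, δ (i + n) = δ i)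
    (hS : ∑ i ∈ range n, ℓ i * δ i = 2) (p : ℕ → ℝ) (hp : ∀ i, p (i + n) = p i) :
    AA n ν v ℓ δ θ (1, (0, 0)) ≤ bt n ℓ δ θ -
      (B2 n ν v ℓ (1, (0, 0)) (et n ν v ℓ δ) p + 1 / 2 * B2 n ν v ℓ (1, (0, 0)) p p -
        1 / 4 * (∑ i ∈ range n, ℓ i * p i) ^ 2) := by
  obtain ⟨-, -, hb, -, -, hsym, hBb, -⟩ := hE n ν v ℓ hP
  set A : ℝ := 1 / 2 * ∑ i ∈ range n, ℓ i * p i with hA
  set b : ℕ → ℝ := fun i => dp (ν i) (v i - 0) with hbd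
  have pb : ∀ i, b (i + n) = b i := fun i => per_b hP 0 i
  have pe := et_per hP δ hδ
  set X : ℕ → ℝ := fun i => (et n ν v ℓ δ i + p i) + (-A) * b i with hX
  have pX : ∀ i, X (i + n) = X i := fun i => by simp only [hX, pe, hp, pb]
  have hb0 : ∑ i ∈ range n, ℓ i * b i = 2 := by
    have := hb 0
    rw [har, mul_one] at this
    exact this
  have hsum : ∑ i ∈ range n, ℓ i * X i = 0 := by
    have : ∑ i ∈ range n, ℓ i * X i = ∑ i ∈ range n, ℓ i * et n ν v ℓ δ i +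
        ∑ i ∈ range n, ℓ i * p i + (-A) * ∑ i ∈ range n, ℓ i * b i := by
      rw [mul_sum, ← sum_add_distrib, ← sum_add_distrib]
      exact sum_congr rfl fun i _ => by simp only [hX]; ring
    rw [this, sum_et hE hP har hcen δ hS, hb0, hA]; ring
  have hle := hM n ν v ℓ hP (1, (0, 0)) (fun k => by simp [af, dp]) X pX hsum
  have one_dp : ∀ x : R2, af ((1, (0, 0)) : ℝ × R2) x = 1 := fun x => by simp [af, dp]
  -- expansions
  have add_l : ∀ f g h' : ℕ → ℝ, B2 n ν v ℓ (1, (0, 0)) (fun i => f i + g i) h' =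
      B2 n ν v ℓ (1, (0, 0)) f h' + B2 n ν v ℓ (1, (0, 0)) g h' := fun f g h' =>
    B2_add_left n ν v ℓ _ f g h'
  have smul_l : ∀ (c : ℝ) (f h' : ℕ → ℝ), B2 n ν v ℓ (1, (0, 0)) (fun i => c * f i) h' =
      c * B2 n ν v ℓ (1, (0, 0)) f h' := by
    intro c f h'
    unfold B2
    rw [mul_sum]
    exact sum_congr rfl fun i _ => by ring
  have pcb : ∀ i, (fun i => (-A) * b i) (i + n) = (fun i => (-A) * b i) i := fun i => by
    simp only [pb]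
  have pep : ∀ i, (fun i => et n ν v ℓ δ i + p i) (i + n) =
      (fun i => et n ν v ℓ δ i + p i) i := fun i => by simp only [pe, hp]
  have Beb : B2 n ν v ℓ (1, (0, 0)) (et n ν v ℓ δ) b = 0 := by
    have := hBb 0 (1, (0, 0)) (et n ν v ℓ δ) pe
    rw [J1_et hE hP har hcen δ hS, sum_et hE hP har hcen δ hS] at this
    rw [this]; ring
  have Bpb : B2 n ν v ℓ (1, (0, 0)) p b = 2 * A := by
    have := hBb 0 (1, (0, 0)) p hp
    rw [J1_one, one_dp] at this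
    rw [this, hA]; ring
  have Bbb : B2 n ν v ℓ (1, (0, 0)) b b = 2 := by
    have := hBb 0 (1, (0, 0)) b pb
    rw [J1_one, one_dp, hb0] at this
    rw [this]; ring
  have e1 : B2 n ν v ℓ (1, (0, 0)) X X =
      B2 n ν v ℓ (1, (0, 0)) (et n ν v ℓ δ) (et n ν v ℓ δ) +
        2 * B2 n ν v ℓ (1, (0, 0)) (et n ν v ℓ δ) p + B2 n ν v ℓ (1, (0, 0)) p p - 2 * A ^ 2 := by
    have s1 : B2 n ν v ℓ (1, (0, 0)) X X =
        B2 n ν v ℓ (1, (0, 0)) (et n ν v ℓ δ) X + B2 n ν v ℓ (1, (0, 0)) p X +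
          (-A) * B2 n ν v ℓ (1, (0, 0)) b X := by
      have : B2 n ν v ℓ (1, (0, 0)) X X =
          B2 n ν v ℓ (1, (0, 0)) (fun i => (et n ν v ℓ δ i + p i) + (-A) * b i) X := rfl
      rw [this, add_l (fun i => et n ν v ℓ δ i + p i) (fun i => (-A) * b i) X, add_l, smul_l]
    have s2 : ∀ f : ℕ → ℝ, (∀ i, f (i + n) = f i) → B2 n ν v ℓ (1, (0, 0)) f X =
        B2 n ν v ℓ (1, (0, 0)) f (et n ν v ℓ δ) + B2 n ν v ℓ (1, (0, 0)) f p +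
          (-A) * B2 n ν v ℓ (1, (0, 0)) f b := by
      intro f hf
      rw [hsym (1, (0, 0)) f X hf pX, hsym (1, (0, 0)) f (et n ν v ℓ δ) hf pe,
        hsym (1, (0, 0)) f p hf hp, hsym (1, (0, 0)) f b hf pb]
      have : B2 n ν v ℓ (1, (0, 0)) X f =
          B2 n ν v ℓ (1, (0, 0)) (fun i => (et n ν v ℓ δ i + p i) + (-A) * b i) f := rfl
      rw [this, add_l (fun i => et n ν v ℓ δ i + p i) (fun i => (-A) * b i) f, add_l, smul_l]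
    rw [s1, s2 _ pe, s2 _ hp, s2 _ pb, Beb, Bpb, Bbb, hsym _ p _ hp pe, hsym _ b _ pb pe,
      hsym _ b _ pb hp, Beb, Bpb]
    ring
  rw [AA_norm hE hP har hcen δ θ hδ hS]
  unfold J2 at hle ⊢
  rw [e1] at hle
  have hz : dp ((0, 0) : R2) (yy n v ℓ δ θ) = 0 := by simp [dp]
  change bt n ℓ δ θ * 1 + dp ((0, 0) : R2) (yy n v ℓ δ θ) + _ ≤ _
  rw [hz]
  have hA2 : A ^ 2 = 1 / 4 * (∑ i ∈ range n, ℓ i * p i) ^ 2 := by rw [hA]; ring
  linarith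

/-- combination of certificates -/
theorem cert (W : ℕ → ℝ) (hW1 : ∀ k j, dp (ν k) (v k - v j) ≤ W k)
    (δ θ : ℕ → ℝ) (g : ℕ → ℝ) (hg : ∀ k, k < n → AA n ν v ℓ δ θ (sk ν v (W k) k) ≤ g k)
    (Φ : ℝ) (hΦ : AA n ν v ℓ δ θ (1, (0, 0)) ≤ Φ) (c : ℕ → ℝ) (hc : ∀ k, k < n → 0 ≤ c k)
    (α : ℝ) (hα : 0 ≤ α) (hneg : ∑ k ∈ range n, c k * g k + α * Φ < 0) :
    ∃ r : ℝ × R2, (∀ k, 0 < af r (v k)) ∧ AA n ν v ℓ δ θ r ≤ 0 := by
  set r0 : ℝ × R2 := (∑ k ∈ range n, c k • sk ν v (W k) k) + α • ((1, (0, 0)) : ℝ × R2) with hr0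
  have h1 : AA n ν v ℓ δ θ r0 < 0 := by
    rw [hr0, AA_add, AA_smul, AA_sum]
    have h2 : ∑ k ∈ range n, c k * AA n ν v ℓ δ θ (sk ν v (W k) k) ≤
        ∑ k ∈ range n, c k * g k :=
      sum_le_sum fun k hk => mul_le_mul_of_nonneg_left (hg k (mem_range.mp hk))
        (hc k (mem_range.mp hk))
    have h3 : α * AA n ν v ℓ δ θ (1, (0, 0)) ≤ α * Φ := mul_le_mul_of_nonneg_left hΦ hα
    linarith
  have one_af : ∀ x : R2, af ((1, (0, 0)) : ℝ × R2) x = 1 := fun x => by simp [af, dp]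
  have h0 : ∀ j, 0 ≤ af r0 (v j) := by
    intro j
    rw [hr0, af_add, af_smul, af_sum, one_af]
    have : 0 ≤ ∑ k ∈ range n, c k * af (sk ν v (W k) k) (v j) := by
      refine sum_nonneg fun k hk => mul_nonneg (hc k (mem_range.mp hk)) ?_
      have h4 : af (sk ν v (W k) k) (v j) = W k - dp (ν k) (v k - v j) := by
        simp only [af, sk, dp, Prod.fst_sub, Prod.snd_sub]; ring
      rw [h4]
      have := hW1 k j
      linarith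
    linarith
  set t : ℝ := -AA n ν v ℓ δ θ r0 / (|AA n ν v ℓ δ θ (1, (0, 0))| + 1) with ht
  have hden : 0 < |AA n ν v ℓ δ θ (1, (0, 0))| + 1 := by positivity
  have htp : 0 < t := div_pos (by linarith) hden
  refine ⟨r0 + t • ((1, (0, 0)) : ℝ × R2), fun j => ?_, ?_⟩
  · rw [af_add, af_smul, one_af]
    have := h0 j
    linarith
  · rw [AA_add, AA_smul]
    have h5 : t * AA n ν v ℓ δ θ (1, (0, 0)) ≤ t * (|AA n ν v ℓ δ θ (1, (0, 0))| + 1) :=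
      mul_le_mul_of_nonneg_left (by linarith [le_abs_self (AA n ν v ℓ δ θ (1, (0, 0)))]) htp.le
    have h6 : t * (|AA n ν v ℓ δ θ (1, (0, 0))| + 1) = -AA n ν v ℓ δ θ r0 := by
      rw [ht]; field_simp
    linarith

end

end Pool.G1
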