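import Pool.Agent.Work.MP_b5407d_g1.Pl_F1
import Pool.Agent.Work.MP_b5407d_g1.Pl_Qpos
import Pool.Agent.Work.MP_b5407d_g1.Pl_Cert
import Pool.Agent.Work.MP_b5407d_g1.TRI

/-!
# G1: the planar inequality `P(κ, s)` and its proof for `κ = 5/6`, `s = 5/3`

`EE (r) = T1(δ, θ)[r] - ∫ r + (s/2) J''_ζ[r]`, with `J''_ζ = J'' - 4 J' + 6 J0`, and
`Stmt_Pc κ s`: if `θ ≤ 2/3`, `θ W ≤ κ δ` there is an affine `r > 0` on the polygon with `EE (r) ≤ 0`.

Proof for `κ = 5/6`, `s = 5/3` (polygons of area `1` with centroid `0`): by Lemma (V) there is a balanced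
`ρ = Σ c_k rk_k > 0`, `e_k = ∫_{e_k} ρ`.  With `t = 1 - (3/2) θ` the sum `Σ e_k t_k s_k` is
`ρ + (A' - ∫ρ)`.  If `A' ≥ ∫ρ` it is a certificate (hinge bound with `λ = -1/5`); if `A' ≤ ∫ρ` then `ρ` is
a certificate (hinge bound with `λ = -8/25`, and (F1) with the multiplier `1/5`).
-/

set_option autoImplicit false

open Finset

namespace Pool.G1

/-- `J''_ζ = J'' - 4 J' + 6 J0` -/
noncomputable def JZ (n : ℕ) (ν v : ℕ → R2) (ℓ δ : ℕ → ℝ) (r : ℝ × R2) : ℝ :=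
  J2 n ν v ℓ r δ - 4 * J1 n v ℓ r δ + 6 * J0 n v r

/-- the functional of `P(κ, s)` -/
noncomputable def EE (n : ℕ) (ν v : ℕ → R2) (ℓ δ θ : ℕ → ℝ) (s : ℝ) (r : ℝ × R2) : ℝ :=
  T1 n v ℓ r δ θ - J0 n v r + s / 2 * JZ n ν v ℓ δ r

/-- `P(κ, s)` -/
def Stmt_Pc (κ s : ℝ) : Prop :=
  ∀ (n : ℕ) (ν v : ℕ → R2) (ℓ : ℕ → ℝ), Poly n ν v ℓ → ∀ W : ℕ → ℝ,
    (∀ k j, dp (ν k) (v k - v j) ≤ W k) → (∀ k, ∃ j, dp (ν k) (v k - v j) = W k) →
    ∀ δ θ : ℕ → ℝ, (∀ i, δ (i + n) = δ i) → (∀ i, θ (i + n) = θ i) → (∀ i, 0 ≤ δ i) →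
    (∀ i, 0 ≤ θ i) → (∀ i, θ i ≤ 2 / 3) → (∀ i, θ i * W i ≤ κ * δ i) →
    ∑ i ∈ range n, ℓ i * δ i = 2 * ar n v →
    ∃ r : ℝ × R2, (∀ k, 0 < af r (v k)) ∧ EE n ν v ℓ δ θ s r ≤ 0

/-- `P(κ, s)` for polygons with at least four edges, area `1`, centroid `0` -/
def Stmt_Pcn (κ s : ℝ) : Prop :=
  ∀ (n : ℕ) (ν v : ℕ → R2) (ℓ : ℕ → ℝ), Poly n ν v ℓ → 4 ≤ n → ar n v = 1 →
    (∀ g : R2, J0 n v (0, g) = 0) → ∀ W : ℕ → ℝ,
    (∀ k j, dp (ν k) (v k - v j) ≤ W k) → (∀ k, ∃ j, dp (ν k) (v k - v j) = W k) →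
    ∀ δ θ : ℕ → ℝ, (∀ i, δ (i + n) = δ i) → (∀ i, θ (i + n) = θ i) → (∀ i, 0 ≤ δ i) →
    (∀ i, 0 ≤ θ i) → (∀ i, θ i ≤ 2 / 3) → (∀ i, θ i * W i ≤ κ * δ i) →
    ∑ i ∈ range n, ℓ i * δ i = 2 →
    ∃ r : ℝ × R2, (∀ k, 0 < af r (v k)) ∧ EE n ν v ℓ δ θ s r ≤ 0

section
variable {n : ℕ} {ν v : ℕ → R2} {ℓ : ℕ → ℝ}

lemma EE_AA (δ θ : ℕ → ℝ) (s : ℝ) (r : ℝ × R2) :
    EE n ν v ℓ δ θ s r = AA n ν v ℓ δ θ r + (s - 1) / 2 * JZ n ν v ℓ δ r := by
  unfold EE AA JZ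
  ring

lemma JZ_nonpos (hE : Stmt_PEU) (hM : Stmt_PMI) (hP : Poly n ν v ℓ) (δ : ℕ → ℝ)
    (hδ : ∀ i, δ (i + n) = δ i) (hS : ∑ i ∈ range n, ℓ i * δ i = 2 * ar n v)
    (r : ℝ × R2) (hr : ∀ k, 0 ≤ af r (v k)) : JZ n ν v ℓ δ r ≤ 0 := by
  have h2 := J2_shift hE hP r δ hδ hS 0
  have hb := (hE n ν v ℓ hP).2.2.1
  have h3 : J2 n ν v ℓ r (fun i => δ i - dp (ν i) (v i - 0)) ≤ 0 := by
    refine hM n ν v ℓ hP r hr _ (fun i => ?_) ?_
    · rw [hδ, per_b hP]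
    · have : ∑ i ∈ range n, ℓ i * (δ i - dp (ν i) (v i - 0)) =
          ∑ i ∈ range n, ℓ i * δ i - ∑ i ∈ range n, ℓ i * dp (ν i) (v i - 0) := by
        rw [← sum_sub_distrib]
        exact sum_congr rfl fun i _ => by ring
      rw [this, hS, hb 0]; ring
  unfold JZ
  linarith

lemma EE_le_AA (hE : Stmt_PEU) (hM : Stmt_PMI) (hP : Poly n ν v ℓ) (δ θ : ℕ → ℝ)
    (hδ : ∀ i, δ (i + n) = δ i) (hS : ∑ i ∈ range n, ℓ i * δ i = 2 * ar n v) {s : ℝ} (hs : 1 ≤ s)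
    (r : ℝ × R2) (hr : ∀ k, 0 ≤ af r (v k)) : EE n ν v ℓ δ θ s r ≤ AA n ν v ℓ δ θ r := by
  rw [EE_AA]
  have h := JZ_nonpos hE hM hP δ hδ hS r hr
  have : (s - 1) / 2 * JZ n ν v ℓ δ r ≤ 0 := mul_nonpos_of_nonneg_of_nonpos (by linarith) h
  linarith

/-! ## normalised formulas -/

lemma EE_norm (hE : Stmt_PEU) (hP : Poly n ν v ℓ) (har : ar n v = 1)
    (hcen : ∀ g : R2, J0 n v (0, g) = 0) (δ θ : ℕ → ℝ) (hδ : ∀ i, δ (i + n) = δ i)
    (hS : ∑ i ∈ range n, ℓ i * δ i = 2) (s : ℝ) (r : ℝ × R2) :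
    EE n ν v ℓ δ θ s r = bt n ℓ δ θ * r.1 + dp r.2 (yy n v ℓ δ θ) +
      s / 2 * J2 n ν v ℓ r (et n ν v ℓ δ) := by
  have h1 := AA_norm hE hP har hcen δ θ hδ hS r
  have h2 := EE_AA (n := n) (ν := ν) (v := v) (ℓ := ℓ) δ θ 1 r
  have h3 : EE n ν v ℓ δ θ 1 r = T1 n v ℓ r δ θ - J0 n v r + 1 / 2 * JZ n ν v ℓ δ r := rfl
  have h4 : T1 n v ℓ r δ θ - J0 n v r = bt n ℓ δ θ * r.1 + dp r.2 (yy n v ℓ δ θ) := by
    rw [T1_aff, J0_norm har hcen]
    ring
  have h5 : JZ n ν v ℓ δ r = J2 n ν v ℓ r (et n ν v ℓ δ) := by linarith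
  unfold EE
  rw [h5, h4]

lemma EE_add (δ θ : ℕ → ℝ) (s : ℝ) (r r' : ℝ × R2) :
    EE n ν v ℓ δ θ s (r + r') = EE n ν v ℓ δ θ s r + EE n ν v ℓ δ θ s r' := by
  unfold EE JZ J2
  rw [T1_add, J0_add, J1_add, B2_add_r]
  ring

lemma EE_smul (δ θ : ℕ → ℝ) (s c : ℝ) (r : ℝ × R2) :
    EE n ν v ℓ δ θ s (c • r) = c * EE n ν v ℓ δ θ s r := by
  unfold EE JZ J2
  rw [T1_smul, J0_smul, J1_smul, B2_smul_r]
  ring

lemma EE_sum (δ θ : ℕ → ℝ) (s : ℝ) (m : Finset ℕ) (c : ℕ → ℝ) (r : ℕ → ℝ × R2) :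
    EE n ν v ℓ δ θ s (∑ k ∈ m, c k • r k) = ∑ k ∈ m, c k * EE n ν v ℓ δ θ s (r k) := by
  classical
  induction m using Finset.induction_on with
  | empty =>
    rw [sum_empty, sum_empty]
    have := EE_smul (n := n) (ν := ν) (v := v) (ℓ := ℓ) δ θ s 0 0
    rw [zero_smul, zero_mul] at this
    exact this
  | insert a m ha ih => rw [sum_insert ha, sum_insert ha, EE_add, EE_smul, ih]

/-- hinge bound -/
lemma EE_sk_le (hE : Stmt_PEU) (hU : Stmt_HU) (hP : Poly n ν v ℓ) (har : ar n v = 1)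
    (hcen : ∀ g : R2, J0 n v (0, g) = 0) (W : ℕ → ℝ)
    (hW1 : ∀ k j, dp (ν k) (v k - v j) ≤ W k) (hW2 : ∀ k, ∃ j, dp (ν k) (v k - v j) = W k)
    (δ θ : ℕ → ℝ) (hδ : ∀ i, δ (i + n) = δ i) (hS : ∑ i ∈ range n, ℓ i * δ i = 2) {s : ℝ}
    (hs : 0 ≤ s) (lam : ℝ) (k : ℕ) :
    EE n ν v ℓ δ θ s (sk ν v (W k) k) ≤ bt n ℓ δ θ * (W k - dp (ν k) (v k)) +
      dp (ν k) (yy n v ℓ δ θ) - 2 * s * lam * et n ν v ℓ δ k +
      s * lam ^ 2 * (3 * dp (ν k) (v k) - W k) := by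
  have h1 := hU n ν v ℓ hP k (W k) (hW1 k) (hW2 k) (et n ν v ℓ δ) (et_per hP δ hδ)
    (J1_et hE hP har hcen δ hS) lam
  rw [EE_norm hE hP har hcen δ θ hδ hS]
  rw [har, J0_norm har hcen] at h1
  have e1 : (sk ν v (W k) k).1 = W k - dp (ν k) (v k) := rfl
  have e2 : (sk ν v (W k) k).2 = ν k := rfl
  rw [e1] at h1 ⊢
  rw [e2]
  have h2 := mul_le_mul_of_nonneg_left h1 (show 0 ≤ s / 2 by linarith)
  nlinarith [h2]

/-- `EE (1) ≤ β` -/
lemma EE_one_le (hE : Stmt_PEU) (hM : Stmt_PMI) (hP : Poly n ν v ℓ) (har : ar n v = 1)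
    (hcen : ∀ g : R2, J0 n v (0, g) = 0) (δ θ : ℕ → ℝ) (hδ : ∀ i, δ (i + n) = δ i)
    (hS : ∑ i ∈ range n, ℓ i * δ i = 2) {s : ℝ} (hs : 0 ≤ s) :
    EE n ν v ℓ δ θ s (1, (0, 0)) ≤ bt n ℓ δ θ := by
  have one_af : ∀ x : R2, af ((1, (0, 0)) : ℝ × R2) x = 1 := fun x => by simp [af, dp]
  have h1 := hM n ν v ℓ hP (1, (0, 0)) (fun k => by rw [one_af]; norm_num) (et n ν v ℓ δ)
    (et_per hP δ hδ) (sum_et hE hP har hcen δ hS)
  rw [EE_norm hE hP har hcen δ θ hδ hS]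
  have hz : dp ((0, 0) : R2) (yy n v ℓ δ θ) = 0 := by simp [dp]
  change bt n ℓ δ θ * 1 + dp ((0, 0) : R2) (yy n v ℓ δ θ) + _ ≤ _
  rw [hz]
  have h2 := mul_le_mul_of_nonneg_left h1 (show 0 ≤ s / 2 by linarith)
  linarith

/-- pointwise inequality -/
lemma point_ineq {W h θ : ℝ} (h1 : W ≤ 3 * h) (h2 : 3 * h ≤ 2 * W) :
    8 / 5 * θ * h - 18 / 25 * θ ^ 2 * W - h / 2 + 64 / 375 * (1 - 3 / 2 * θ) * (3 * h - W) +
      1 / 5 * (W - 2 * h) ≤ 0 := by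
  have f1 : -(1 / 10) + 8 / 15 * θ - 18 / 25 * θ ^ 2 ≤ 0 := by
    nlinarith [sq_nonneg (θ - 10 / 27)]
  have f2 : -(1 / 3) + 64 / 375 - 1 / 15 + (16 / 15 - 32 / 125) * θ - 18 / 25 * θ ^ 2 ≤ 0 := by
    nlinarith [sq_nonneg (θ - 563 / 1000)]
  have g1 := mul_nonpos_of_nonneg_of_nonpos (show 0 ≤ 2 * W - 3 * h by linarith) f1
  have g2 := mul_nonpos_of_nonneg_of_nonpos (show 0 ≤ 3 * h - W by linarith) f2
  nlinarith [g1, g2]

/-- **`P(5/6, 5/3)`** for normalised polygons with at least four edges -/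
theorem Pcn_half (hE : Stmt_PEU) (hM : Stmt_PMI) (hU : Stmt_HU) : Stmt_Pcn (5 / 6) (5 / 3) := by
  intro n ν v ℓ hP hn4 har hcen W hW1 hW2 δ θ hδ hθ hδ0 hθ0 hθ2 hθW hS
  have hn : 0 < n := by omega
  have hS' : ∑ i ∈ range n, ℓ i * δ i = 2 * ar n v := by rw [hS, har]; ring
  have hW0 := NRM.W_pos hP hW1
  have hq := q_pos hE hP hn4 W hW1 hW2
  have one_af : ∀ x : R2, af ((1, (0, 0)) : ℝ × R2) x = 1 := fun x => by simp [af, dp]
  have skaf : ∀ k j, af (sk ν v (W k) k) (v j) = W k - dp (ν k) (v k - v j) := by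
    intro k j
    simp only [af, sk, dp, Prod.fst_sub, Prod.snd_sub]; ring
  have rkpos : ∀ k j, 0 < af (rk n ν v W k) (v j) := by
    intro k j
    unfold rk
    rw [af_add, af_smul, one_af, skaf]
    have h1 := hW1 k j
    have h2 := hq k
    linarith
  obtain ⟨-, -, hV⟩ := blk_V hE hM hU n ν v ℓ hP W hW1 hW2 δ θ hδ hδ0 hθ2 hS'
  rcases hV with ⟨k, -, hk⟩ | ⟨c, hc0, ⟨k0, hk0, hck0⟩, hbal, -⟩
  · refine ⟨rk n ν v W k, rkpos k, ?_⟩
    exact (EE_le_AA hE hM hP δ θ hδ hS' (by norm_num) _ (fun j => (rkpos k j).le)).trans hk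
  -- the balanced case
  set ρ : ℝ × R2 := ∑ k ∈ range n, c k • rk n ν v W k with hρ
  have hρpos : ∀ j, 0 < af ρ (v j) := by
    intro j
    rw [hρ, af_sum]
    exact sum_pos' (fun k _ => mul_nonneg (hc0 k) (rkpos k j).le)
      ⟨k0, mem_range.mpr hk0, mul_pos hck0 (rkpos k0 j)⟩
  set e : ℕ → ℝ := fun i => EI v ℓ ρ i with he
  have he0 : ∀ i, 0 ≤ e i := fun i => EI_nonneg hP.pos (fun k => (hρpos k).le) i
  set h : ℕ → ℝ := fun i => dp (ν i) (v i) with hh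
  set η : ℕ → ℝ := et n ν v ℓ δ with hη
  set β : ℝ := bt n ℓ δ θ with hβ
  set y : R2 := yy n v ℓ δ θ with hy
  set x : R2 := vc n v ℓ δ with hx
  obtain ⟨-, -, -, h4, h5, -⟩ := hE n ν v ℓ hP
  have J0ρ : J0 n v ρ = ρ.1 := J0_norm har hcen ρ
  -- sums
  have Fh : ∑ i ∈ range n, e i * h i = 2 * ρ.1 := by
    have g := h4 0 ρ
    have e0 : af ρ 0 = ρ.1 := by simp [af, dp]
    rw [J0ρ, har, e0] at g
    have e1 : J1 n v ℓ ρ (fun i => dp (ν i) (v i - 0)) = ∑ i ∈ range n, e i * h i := by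
      unfold J1
      refine sum_congr rfl fun i _ => ?_
      simp only [he, hh, sub_zero]
      ring
    rw [e1] at g
    linarith
  have Fη : ∑ i ∈ range n, e i * η i = 0 := by
    have g := J1_et hE hP har hcen δ hS ρ
    have e1 : J1 n v ℓ ρ (et n ν v ℓ δ) = ∑ i ∈ range n, e i * η i := by
      unfold J1
      refine sum_congr rfl fun i _ => ?_
      simp only [he, hη]
      ring
    rw [← e1]
    exact g
  have Fν : ∀ z : R2, ∑ i ∈ range n, e i * dp (ν i) z = dp ρ.2 z := by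
    intro z
    have g := h5 z ρ
    rw [har, mul_one] at g
    rw [← g]
    unfold J1
    refine sum_congr rfl fun i _ => ?_
    simp only [he]
    ring
  have Fθ : ∀ z : R2, ∑ i ∈ range n, θ i * e i * dp (ν i) z = 0 := by
    intro z
    have g : dp (∑ i ∈ range n, (θ i * EI v ℓ ρ i) • ν i) z =
        ∑ i ∈ range n, θ i * e i * dp (ν i) z := by
      unfold dp
      rw [Prod.fst_sum, Prod.snd_sum, sum_mul, sum_mul, ← sum_add_distrib]
      refine sum_congr rfl fun i _ => ?_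
      simp only [he, Prod.smul_fst, Prod.smul_snd, smul_eq_mul]
      ring
    rw [← g, hbal]
    simp [dp]
  have FW : 0 ≤ ∑ i ∈ range n, e i * (W i - 2 * h i) := by
    have g := Gap.F1 hP W hW1 ρ (fun k => (hρpos k).le)
    rw [J0ρ] at g
    have e1 : ∑ i ∈ range n, e i * (W i - 2 * h i) =
        ∑ i ∈ range n, W i * EI v ℓ ρ i - 2 * ∑ i ∈ range n, e i * h i := by
      rw [mul_sum, ← sum_sub_distrib]
      exact sum_congr rfl fun i _ => by simp only [he]; ring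
    rw [e1, Fh]
    linarith
  have hβ3 : β ≤ 1 / 3 := by
    have e1 : ∑ i ∈ range n, ℓ i * δ i * θ i ≤ ∑ i ∈ range n, 2 / 3 * (ℓ i * δ i) := by
      refine sum_le_sum fun i _ => ?_
      have := mul_nonneg (hP.pos i).le (hδ0 i)
      have := mul_le_mul_of_nonneg_left (hθ2 i) this
      linarith
    rw [← mul_sum, hS] at e1
    simp only [hβ, bt]
    linarith
  -- bounds for `h`
  have hlo : ∀ i, W i ≤ 3 * h i := by
    intro i
    have g := (hq i).le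
    unfold qk at g
    rw [J0_norm har hcen, har] at g
    simp only [sk] at g
    simp only [hh]
    linarith
  have hhi : ∀ i, 3 * h i ≤ 2 * W i := by
    intro i
    have g := J0_sk_ge hE hP W hW1 i
    rw [J0_norm har hcen, har] at g
    simp only [sk] at g
    simp only [hh]
    linarith
  -- the certificate
  set t : ℕ → ℝ := fun i => 1 - 3 / 2 * θ i with ht
  have ht0 : ∀ i, 0 ≤ t i := fun i => by simp only [ht]; linarith [hθ2 i]
  set r0 : ℝ × R2 := ∑ k ∈ range n, (e k * t k) • sk ν v (W k) k with hr0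
  set A' : ℝ := ∑ k ∈ range n, e k * t k * (W k - h k) with hA'
  have r0af : ∀ j, af r0 (v j) = af ρ (v j) + (A' - ρ.1) := by
    intro j
    have g1 : af r0 (v j) = ∑ k ∈ range n, e k * t k * (W k - h k + dp (ν k) (v j)) := by
      rw [hr0, af_sum]
      refine sum_congr rfl fun k _ => ?_
      rw [skaf]
      simp only [hh, dp, Prod.fst_sub, Prod.snd_sub]
      ring
    have g2 : ∑ k ∈ range n, e k * t k * dp (ν k) (v j) = dp ρ.2 (v j) := by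
      have g3 : ∀ k, e k * t k * dp (ν k) (v j) = e k * dp (ν k) (v j) -
          3 / 2 * (θ k * e k * dp (ν k) (v j)) := fun k => by simp only [ht]; ring
      rw [sum_congr rfl fun k _ => g3 k, sum_sub_distrib, ← mul_sum, Fν, Fθ]
      ring
    have g4 : ∀ k, e k * t k * (W k - h k + dp (ν k) (v j)) =
        e k * t k * (W k - h k) + e k * t k * dp (ν k) (v j) := fun k => by ring
    rw [g1, sum_congr rfl fun k _ => g4 k, sum_add_distrib, g2, ← hA']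
    unfold af
    ring
  -- value of the certificate
  set S2 : ℝ := ∑ i ∈ range n, θ i * e i * h i with hS2
  set S3 : ℝ := ∑ i ∈ range n, θ i * e i * η i with hS3
  set S4 : ℝ := ∑ i ∈ range n, e i * t i * (3 * h i - W i) with hS4
  have hT1 : S2 + S3 = (β + 1) * ρ.1 + dp ρ.2 y := by
    rw [← T1_aff n v ℓ δ θ ρ]
    have g : ∀ i, δ i * θ i * EI v ℓ ρ i = θ i * e i * h i + θ i * e i * η i -
        θ i * e i * dp (ν i) x := by
      intro i
      simp only [he, hh, hη, et, hx]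
      ring
    unfold T1
    rw [sum_congr rfl fun i _ => g i, sum_sub_distrib, sum_add_distrib, Fθ, sub_zero]
  have val : ∀ lam : ℝ, EE n ν v ℓ δ θ (5 / 3) r0 ≤
      β * (A' - ρ.1) + (S2 + S3) - ρ.1 + 5 * lam * S3 + 5 / 3 * lam ^ 2 * S4 := by
    intro lam
    have g1 : EE n ν v ℓ δ θ (5 / 3) r0 ≤ ∑ k ∈ range n, e k * t k *
        (β * (W k - h k) + dp (ν k) y - 2 * (5 / 3) * lam * η k +
          5 / 3 * lam ^ 2 * (3 * h k - W k)) := by
      rw [hr0, EE_sum]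
      refine sum_le_sum fun k _ => mul_le_mul_of_nonneg_left ?_ (mul_nonneg (he0 k) (ht0 k))
      exact EE_sk_le hE hU hP har hcen W hW1 hW2 δ θ hδ hS (by norm_num) lam k
    have g2 : ∑ k ∈ range n, e k * t k *
        (β * (W k - h k) + dp (ν k) y - 2 * (5 / 3) * lam * η k +
          5 / 3 * lam ^ 2 * (3 * h k - W k)) =
        β * A' + dp ρ.2 y + 5 * lam * S3 + 5 / 3 * lam ^ 2 * S4 := by
      have g3 : ∀ k, e k * t k * (β * (W k - h k) + dp (ν k) y - 2 * (5 / 3) * lam * η k +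
          5 / 3 * lam ^ 2 * (3 * h k - W k)) =
          β * (e k * t k * (W k - h k)) + (e k * dp (ν k) y - 3 / 2 * (θ k * e k * dp (ν k) y)) +
          (5 * lam * (θ k * e k * η k) - 2 * (5 / 3) * lam * (e k * η k)) +
          5 / 3 * lam ^ 2 * (e k * t k * (3 * h k - W k)) := by
        intro k
        simp only [ht]
        ring
      rw [sum_congr rfl fun k _ => g3 k, sum_add_distrib, sum_add_distrib, sum_add_distrib,
        sum_sub_distrib, sum_sub_distrib, ← mul_sum, ← mul_sum, ← mul_sum, ← mul_sum, ← mul_sum,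
        Fν, Fθ, Fη, ← hA', ← hS3, ← hS4]
      ring
    rw [g2] at g1
    linarith
  have hS40 : 0 ≤ S4 := sum_nonneg fun i _ => mul_nonneg (mul_nonneg (he0 i) (ht0 i))
    (by linarith [hlo i])
  rcases le_total ρ.1 A' with hcase | hcase
  · -- first case
    refine ⟨r0, fun k => ?_, ?_⟩
    · rw [r0af]
      have := hρpos k
      linarith
    · have g1 := val (-(1 / 5))
      have g2 : β * (A' - ρ.1) ≤ 1 / 3 * (A' - ρ.1) :=
        mul_le_mul_of_nonneg_right hβ3 (by linarith)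
      have g3 : 1 / 3 * A' + S2 - 4 / 3 * ρ.1 = -(1 / 3) * S4 := by
        have g4 : ∀ i, 1 / 3 * (e i * t i * (W i - h i)) + θ i * e i * h i -
            2 / 3 * (e i * h i) = -(1 / 3) * (e i * t i * (3 * h i - W i)) := by
          intro i
          simp only [ht]
          ring
        have g5 := sum_congr rfl fun i (_ : i ∈ range n) => g4 i
        rw [sum_sub_distrib, sum_add_distrib, ← mul_sum, ← mul_sum, ← mul_sum, ← hA', ← hS2,
          ← hS4, Fh] at g5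
        linarith
      linarith
  · -- second case
    refine ⟨r0 + (ρ.1 - A') • ((1, (0, 0)) : ℝ × R2), fun k => ?_, ?_⟩
    · rw [af_add, af_smul, one_af, r0af]
      have := hρpos k
      linarith
    · rw [EE_add, EE_smul]
      have g1 := val (-(8 / 25))
      have g2 := mul_le_mul_of_nonneg_left (EE_one_le hE hM hP har hcen δ θ hδ hS
        (show (0 : ℝ) ≤ 5 / 3 by norm_num)) (show 0 ≤ ρ.1 - A' by linarith)
      -- lower bound for `S3`
      have g3 : 6 / 5 * ∑ i ∈ range n, θ i ^ 2 * e i * W i - S2 ≤ S3 := by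
        have g4 : ∀ i, θ i * e i * η i = θ i * e i * δ i - θ i * e i * h i +
            θ i * e i * dp (ν i) x := by
          intro i
          simp only [hh, hη, et, hx]
          ring
        rw [hS3, sum_congr rfl fun i _ => g4 i, sum_add_distrib, sum_sub_distrib, Fθ, ← hS2,
          mul_sum]
        have g5 : ∑ i ∈ range n, 6 / 5 * (θ i ^ 2 * e i * W i) ≤
            ∑ i ∈ range n, θ i * e i * δ i := by
          refine sum_le_sum fun i _ => ?_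
          have := mul_le_mul_of_nonneg_left (hθW i) (mul_nonneg (hθ0 i) (he0 i))
          nlinarith
        linarith
      have g6 : ∑ i ∈ range n, e i * (8 / 5 * θ i * h i - 18 / 25 * θ i ^ 2 * W i - h i / 2 +
          64 / 375 * (1 - 3 / 2 * θ i) * (3 * h i - W i) + 1 / 5 * (W i - 2 * h i)) ≤ 0 :=
        sum_nonpos fun i _ => mul_nonpos_of_nonneg_of_nonpos (he0 i) (point_ineq (hlo i) (hhi i))
      have g7 : ∑ i ∈ range n, e i * (8 / 5 * θ i * h i - 18 / 25 * θ i ^ 2 * W i - h i / 2 +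
          64 / 375 * (1 - 3 / 2 * θ i) * (3 * h i - W i) + 1 / 5 * (W i - 2 * h i)) =
          8 / 5 * S2 - 18 / 25 * ∑ i ∈ range n, θ i ^ 2 * e i * W i -
          1 / 2 * ∑ i ∈ range n, e i * h i + 64 / 375 * S4 +
          1 / 5 * ∑ i ∈ range n, e i * (W i - 2 * h i) := by
        rw [hS2, hS4, mul_sum, mul_sum, mul_sum, mul_sum, mul_sum, ← sum_sub_distrib,
          ← sum_sub_distrib, ← sum_add_distrib, ← sum_add_distrib]
        refine sum_congr rfl fun i _ => ?_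
        simp only [ht]
        ring
      rw [g7, Fh] at g6
      linarith

end

end Pool.G1
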