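import Pool.Agent.Work.MP_b5407d_g1.Pl_V
import Pool.Agent.Work.MP_b5407d_g1.PLS

/-!
# G1: normalisation of the planar target

`Stmt_S2n`: the conclusion of `Stmt_S2p` for polygons of area `1` with centroid `0`, and with
`θ i = min (δ i / W i) (2/3)` exactly.  `S2p_of_S2n : Stmt_PEU → Stmt_S2n → Stmt_S2p`.
-/

set_option autoImplicit false

open Finset

namespace Pool.G1

/-- normalised planar target: area `1`, centroid `0`, `θ = min (δ/W) (2/3)` -/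
def Stmt_S2n : Prop :=
  ∀ (n : ℕ) (ν v : ℕ → R2) (ℓ : ℕ → ℝ), Poly n ν v ℓ → ar n v = 1 →
    (∀ g : R2, J0 n v (0, g) = 0) → ∀ W : ℕ → ℝ,
    (∀ k j, dp (ν k) (v k - v j) ≤ W k) → (∀ k, ∃ j, dp (ν k) (v k - v j) = W k) →
    (∀ k, 0 < W k) → (∀ k, W (k + n) = W k) →
    ∀ δ : ℕ → ℝ, (∀ i, δ (i + n) = δ i) → (∀ i, 0 ≤ δ i) → ∑ i ∈ range n, ℓ i * δ i = 2 →
    ∃ r : ℝ × R2, (∀ k, 0 < af r (v k)) ∧
      AA n ν v ℓ δ (fun i => min (δ i / W i) (2 / 3)) r ≤ 0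

namespace NRM

/-- transformed vertices -/
noncomputable def tv (lam : ℝ) (c : R2) (v : ℕ → R2) : ℕ → R2 := fun i => lam • (v i - c)

/-- pull back of an affine function -/
noncomputable def tr (lam : ℝ) (c : R2) (r : ℝ × R2) : ℝ × R2 :=
  (r.1 - lam * dp r.2 c, lam • r.2)

lemma dp_smul_right (a x : R2) (c : ℝ) : dp a (c • x) = c * dp a x := by
  simp only [dp, Prod.smul_fst, Prod.smul_snd, smul_eq_mul]; ring

lemma dp_smul_left (a x : R2) (c : ℝ) : dp (c • a) x = c * dp a x := by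
  simp only [dp, Prod.smul_fst, Prod.smul_snd, smul_eq_mul]; ring

lemma dp_sub_right (a x y : R2) : dp a (x - y) = dp a x - dp a y := by
  simp only [dp, Prod.fst_sub, Prod.snd_sub]; ring

lemma dp_add_right (a x y : R2) : dp a (x + y) = dp a x + dp a y := by
  simp only [dp, Prod.fst_add, Prod.snd_add]; ring

lemma af_tr (lam : ℝ) (c : R2) (r : ℝ × R2) (x : R2) :
    af (tr lam c r) x = af r (lam • (x - c)) := by
  unfold af tr
  simp only
  rw [dp_smul_right, dp_sub_right, dp_smul_left]; ring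

lemma poly_tv {n : ℕ} {ν v : ℕ → R2} {ℓ : ℕ → ℝ} (hP : Poly n ν v ℓ) (lam : ℝ) (hl : 0 < lam)
    (c : R2) : Poly n ν (tv lam c v) (fun i => lam * ℓ i) where
  n3 := hP.n3
  pν := hP.pν
  pv i := by unfold tv; rw [hP.pv]
  pℓ i := by rw [hP.pℓ]
  unit := hP.unit
  pos i := mul_pos hl (hP.pos i)
  edge i := by
    unfold tv
    rw [hP.edge]
    ext
    · simp only [Prod.smul_fst, Prod.fst_sub, Prod.fst_add, smul_eq_mul]; ring
    · simp only [Prod.smul_snd, Prod.snd_sub, Prod.snd_add, smul_eq_mul]; ring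
  turn := hP.turn
  conv i k := by
    unfold tv
    rw [dp_smul_right, dp_smul_right, dp_sub_right, dp_sub_right]
    have := hP.conv i k
    nlinarith
  inj := hP.inj

lemma EI_tv (lam : ℝ) (c : R2) (v : ℕ → R2) (ℓ : ℕ → ℝ) (r : ℝ × R2) (i : ℕ) :
    EI (tv lam c v) (fun i => lam * ℓ i) r i = lam * EI v ℓ (tr lam c r) i := by
  unfold EI
  rw [af_tr, af_tr]
  unfold tv
  ring

lemma J1_tv (n : ℕ) (lam : ℝ) (c : R2) (v : ℕ → R2) (ℓ δ : ℕ → ℝ) (r : ℝ × R2) :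
    J1 n (tv lam c v) (fun i => lam * ℓ i) r (fun i => lam * δ i) =
      lam ^ 2 * J1 n v ℓ (tr lam c r) δ := by
  unfold J1
  rw [mul_sum]
  refine sum_congr rfl fun i _ => ?_
  rw [EI_tv]; ring

lemma T1_tv (n : ℕ) (lam : ℝ) (c : R2) (v : ℕ → R2) (ℓ δ θ : ℕ → ℝ) (r : ℝ × R2) :
    T1 n (tv lam c v) (fun i => lam * ℓ i) r (fun i => lam * δ i) θ =
      lam ^ 2 * T1 n v ℓ (tr lam c r) δ θ := by
  unfold T1
  rw [mul_sum]
  refine sum_congr rfl fun i _ => ?_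
  rw [EI_tv]; ring

lemma ve_mul (ν : ℕ → R2) (lam : ℝ) (δ : ℕ → ℝ) (i : ℕ) :
    ve ν (fun i => lam * δ i) i = lam • ve ν δ i := by
  unfold ve
  ext
  · simp only [Prod.smul_fst, Prod.fst_sub, smul_eq_mul]; ring
  · simp only [Prod.smul_snd, Prod.snd_sub, smul_eq_mul]; ring

lemma J2_tv (n : ℕ) (lam : ℝ) (c : R2) (ν v : ℕ → R2) (ℓ δ : ℕ → ℝ) (r : ℝ × R2) :
    J2 n ν (tv lam c v) (fun i => lam * ℓ i) r (fun i => lam * δ i) =
      lam ^ 2 * J2 n ν v ℓ (tr lam c r) δ := by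
  unfold J2 B2
  rw [mul_sum]
  refine sum_congr rfl fun i _ => ?_
  rw [ve_mul, ve_mul, af_tr, af_tr]
  unfold tv tr
  simp only [dp, Prod.smul_fst, Prod.smul_snd, Prod.fst_sub, Prod.snd_sub, Prod.fst_add,
    Prod.snd_add, smul_eq_mul]
  ring

lemma ar_tv (hE : Stmt_PEU) {n : ℕ} {ν v : ℕ → R2} {ℓ : ℕ → ℝ} (hP : Poly n ν v ℓ) (lam : ℝ)
    (hl : 0 < lam) (c : R2) : ar n (tv lam c v) = lam ^ 2 * ar n v := by
  have h1 := (hE n ν _ _ (poly_tv hP lam hl c)).2.2.1 0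
  have h2 := (hE n ν v ℓ hP).2.2.1 c
  have h3 : ∑ i ∈ range n, lam * ℓ i * dp (ν i) (tv lam c v i - 0) =
      lam ^ 2 * ∑ i ∈ range n, ℓ i * dp (ν i) (v i - c) := by
    rw [mul_sum]
    refine sum_congr rfl fun i _ => ?_
    rw [sub_zero]
    unfold tv
    rw [dp_smul_right]; ring
  rw [h3, h2] at h1
  linarith

lemma J0_tv (hE : Stmt_PEU) {n : ℕ} {ν v : ℕ → R2} {ℓ : ℕ → ℝ} (hP : Poly n ν v ℓ) (lam : ℝ)
    (hl : 0 < lam) (c : R2) (r : ℝ × R2) :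
    J0 n (tv lam c v) r = lam ^ 2 * J0 n v (tr lam c r) := by
  have h1 := (hE n ν _ _ (poly_tv hP lam hl c)).2.2.2.1 0 r
  have h2 := (hE n ν v ℓ hP).2.2.2.1 c (tr lam c r)
  have h3 : J1 n (tv lam c v) (fun i => lam * ℓ i) r (fun i => dp (ν i) (tv lam c v i - 0)) =
      lam ^ 2 * J1 n v ℓ (tr lam c r) (fun i => dp (ν i) (v i - c)) := by
    rw [← J1_tv]
    congr 1
    funext i
    rw [sub_zero]
    unfold tv
    rw [dp_smul_right]
  have h4 : af (tr lam c r) c = af r 0 := by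
    rw [af_tr, sub_self, smul_zero]
  rw [h3, h2, ar_tv hE hP lam hl c, h4] at h1
  linarith

lemma AA_tv (hE : Stmt_PEU) {n : ℕ} {ν v : ℕ → R2} {ℓ : ℕ → ℝ} (hP : Poly n ν v ℓ) (lam : ℝ)
    (hl : 0 < lam) (c : R2) (δ θ : ℕ → ℝ) (r : ℝ × R2) :
    AA n ν (tv lam c v) (fun i => lam * ℓ i) (fun i => lam * δ i) θ r =
      lam ^ 2 * AA n ν v ℓ δ θ (tr lam c r) := by
  unfold AA
  rw [T1_tv, J1_tv, J2_tv, J0_tv hE hP lam hl c]; ring

lemma W_pos {n : ℕ} {ν v : ℕ → R2} {ℓ : ℕ → ℝ} (hP : Poly n ν v ℓ) {W : ℕ → ℝ}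
    (hW1 : ∀ k j, dp (ν k) (v k - v j) ≤ W k) (k : ℕ) : 0 < W k := by
  refine lt_of_lt_of_le ?_ (hW1 k (k + 2))
  have h1 := hP.edge k
  have h2 := hP.edge (k + 1)
  have h3 := hP.turn k
  have h4 := hP.pos (k + 1)
  rw [show k + 2 = k + 1 + 1 from rfl, h2, h1]
  have : dp (ν k) (v k - (v k + ℓ k • rt (ν k) + ℓ (k + 1) • rt (ν (k + 1)))) =
      ℓ (k + 1) * cp (ν k) (ν (k + 1)) := by
    simp only [dp, cp, rt, Prod.fst_sub, Prod.snd_sub, Prod.fst_add, Prod.snd_add,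
      Prod.smul_fst, Prod.smul_snd, smul_eq_mul]; ring
  rw [this]
  exact mul_pos h4 h3

lemma W_per {n : ℕ} {ν v : ℕ → R2} {ℓ : ℕ → ℝ} (hP : Poly n ν v ℓ) {W : ℕ → ℝ}
    (hW1 : ∀ k j, dp (ν k) (v k - v j) ≤ W k) (hW2 : ∀ k, ∃ j, dp (ν k) (v k - v j) = W k)
    (k : ℕ) : W (k + n) = W k := by
  apply le_antisymm
  · obtain ⟨j, hj⟩ := hW2 (k + n)
    rw [← hj, hP.pν, hP.pv]
    exact hW1 k j
  · obtain ⟨j, hj⟩ := hW2 k
    rw [← hj, ← hP.pν, ← hP.pv k]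
    exact hW1 (k + n) j

end NRM

open NRM in
theorem S2p_of_S2n (hE : Stmt_PEU) (h : Stmt_S2n) : Stmt_S2p := by
  intro n ν v ℓ hP δ θ hδ _hθ hδ0 _hθ0 hθ2 hθW hS
  have hA : 0 < ar n v := (hE n ν v ℓ hP).2.1
  obtain ⟨W, hW1, hW2⟩ := exists_W hP
  have hWp := W_pos hP hW1
  set c : R2 := (J0 n v (0, (1, 0)) / ar n v, J0 n v (0, (0, 1)) / ar n v) with hc
  set lam : ℝ := 1 / Real.sqrt (ar n v) with hlam
  have hsq : 0 < Real.sqrt (ar n v) := Real.sqrt_pos.mpr hA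
  have hl : 0 < lam := by positivity
  have hl2 : lam ^ 2 * ar n v = 1 := by
    rw [hlam, div_pow, one_pow, Real.sq_sqrt hA.le]
    field_simp
  have hP' := poly_tv hP lam hl c
  have hcen : ∀ g : R2, J0 n (tv lam c v) (0, g) = 0 := by
    intro g
    rw [J0_tv hE hP lam hl c]
    have hdec : tr lam c (0, g) = (-(lam * dp g c)) • ((1, (0, 0)) : ℝ × R2) +
        ((lam * g.1) • ((0, (1, 0)) : ℝ × R2) + (lam * g.2) • ((0, (0, 1)) : ℝ × R2)) := by
      unfold tr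
      ext <;> simp
    rw [hdec, J0_add, J0_add, J0_smul, J0_smul, J0_smul, J0_one]
    have h1 : J0 n v (0, (1, 0)) = c.1 * ar n v := by
      rw [hc]; field_simp
    have h2 : J0 n v (0, (0, 1)) = c.2 * ar n v := by
      rw [hc]; field_simp
    rw [h1, h2]
    unfold dp
    ring
  have hdp : ∀ k j, dp (ν k) (tv lam c v k - tv lam c v j) = lam * dp (ν k) (v k - v j) := by
    intro k j
    unfold tv
    rw [dp_sub_right, dp_smul_right, dp_smul_right, dp_sub_right, dp_sub_right, dp_sub_right]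
    ring
  obtain ⟨r, hr0, hrA⟩ := h n ν (tv lam c v) (fun i => lam * ℓ i) hP'
    (by rw [ar_tv hE hP lam hl c]; exact hl2) hcen (fun k => lam * W k)
    (fun k j => by rw [hdp]; exact mul_le_mul_of_nonneg_left (hW1 k j) hl.le)
    (fun k => by
      obtain ⟨j, hj⟩ := hW2 k
      exact ⟨j, by rw [hdp, hj]⟩)
    (fun k => mul_pos hl (hWp k))
    (fun k => by rw [W_per hP hW1 hW2])
    (fun i => lam * δ i) (fun i => by rw [hδ]) (fun i => mul_nonneg hl.le (hδ0 i))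
    (by
      have : ∑ i ∈ range n, lam * ℓ i * (lam * δ i) = lam ^ 2 * ∑ i ∈ range n, ℓ i * δ i := by
        rw [mul_sum]
        exact sum_congr rfl fun i _ => by ring
      rw [this, hS]
      linarith)
  rw [AA_tv hE hP lam hl c] at hrA
  have hpos : ∀ k, 0 < af (tr lam c r) (v k) := by
    intro k
    rw [af_tr]
    exact hr0 k
  refine ⟨tr lam c r, hpos, ?_⟩
  have h1 : AA n ν v ℓ δ (fun i => min (lam * δ i / (lam * W i)) (2 / 3)) (tr lam c r) ≤ 0 := by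
    have h2 : 0 < lam ^ 2 := by positivity
    by_contra hno
    push Not at hno
    have := mul_pos h2 hno
    linarith
  have h3 : ∀ i, θ i ≤ min (lam * δ i / (lam * W i)) (2 / 3) := by
    intro i
    refine le_min ?_ (hθ2 i)
    rw [mul_div_mul_left _ _ hl.ne', le_div_iff₀ (hWp i)]
    obtain ⟨j, hj⟩ := hW2 i
    rw [← hj]
    exact hθW i j
  have h4 : T1 n v ℓ (tr lam c r) δ θ ≤
      T1 n v ℓ (tr lam c r) δ (fun i => min (lam * δ i / (lam * W i)) (2 / 3)) := by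
    unfold T1
    refine sum_le_sum fun i _ => ?_
    have h5 : 0 ≤ EI v ℓ (tr lam c r) i := EI_nonneg hP.pos (fun k => (hpos k).le) i
    exact mul_le_mul_of_nonneg_right (mul_le_mul_of_nonneg_left (h3 i) (hδ0 i)) h5
  unfold AA at h1
  linarith

end Pool.G1
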