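import Pool.Agent.Work.MP_b5407d_g1.PLcDef
import Pool.Agent.Work.MP_b5407d_g1.Pl_NRM
import Pool.Agent.Work.MP_b5407d_g1.Pl_Half

/-!
# G1: the strict planar target `Stmt_PLc c` from `P(κ, s)`, `κ = (2 + c)/3`, `s = (2 + c)/(3 c)`

With `λ = 2 + ε`, `δ' = (2/λ) δ`, `θ = min (2/3) (κ δ'/W)`:
`E = (3 ε λ/2) (EE - (λ/(6 ε) - s/2) N - D)`, `N = -J''_ζ ≥ 0`, `D = T1(δ', θ - t/3) ≥ 0`.
-/

set_option autoImplicit false

open Finset

namespace Pool.G1

open PLS in
theorem PLc_of_Pc (hPEU : Stmt_PEU) (hPMI : Stmt_PMI) {c : ℝ} (hc0 : 0 < c)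
    (hS : Stmt_Pc ((2 + c) / 3) ((2 + c) / (3 * c))) : Stmt_PLc c := by
  intro n ν v ℓ P δ t ε pδ pt hδ0 ht0 ht2 htW hε0 hε1 hsum
  have hn : 0 < n := by have := P.n3; omega
  have hlam : (0 : ℝ) < 2 + ε := by linarith
  have hne : (Finset.range n).Nonempty := ⟨0, Finset.mem_range.2 hn⟩
  obtain ⟨W, hWle, hWex⟩ := exists_W P
  have hW0 := NRM.W_pos P hWle
  have hWp := NRM.W_per P hWle hWex
  set κ : ℝ := (2 + c) / 3 with hκ
  have hκ0 : 0 < κ := by positivity
  set s : ℝ := (2 + c) / (3 * c) with hs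
  -- rescaled data
  set δ' : ℕ → ℝ := fun i => 2 / (2 + ε) * δ i with hδ'
  have hδδ : δ = fun i => (2 + ε) / 2 * δ' i := by
    funext i
    simp only [hδ']
    field_simp
  have pδ' : ∀ i, δ' (i + n) = δ' i := by intro i; simp only [hδ', pδ]
  have hδ'0 : ∀ i, 0 ≤ δ' i := fun i => mul_nonneg (by positivity) (hδ0 i)
  set θ : ℕ → ℝ := fun i => min (2 / 3) (κ * δ' i / W i) with hθ
  have pθ : ∀ i, θ (i + n) = θ i := by intro i; simp only [hθ, pδ', hWp]
  have hθ0 : ∀ i, 0 ≤ θ i := fun i =>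
    le_min (by norm_num) (div_nonneg (mul_nonneg hκ0.le (hδ'0 i)) (hW0 i).le)
  have hθ2 : ∀ i, θ i ≤ 2 / 3 := fun i => min_le_left _ _
  have hθW : ∀ i, θ i * W i ≤ κ * δ' i := by
    intro i
    have h1 : θ i ≤ κ * δ' i / W i := min_le_right _ _
    rw [le_div_iff₀ (hW0 i)] at h1
    exact h1
  have hs' : ∑ i ∈ Finset.range n, ℓ i * δ' i = 2 * ar n v := by
    have : ∑ i ∈ Finset.range n, ℓ i * δ' i =
        2 / (2 + ε) * ∑ i ∈ Finset.range n, ℓ i * δ i := by
      rw [Finset.mul_sum]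
      refine Finset.sum_congr rfl fun i _ => ?_
      simp only [hδ']; ring
    rw [this, hsum]; field_simp
  obtain ⟨r, hr, hA⟩ := hS n ν v ℓ P W hWle hWex δ' θ pδ' pθ hδ'0 hθ0 hθ2 hθW hs'
  -- comparison of `t` and `θ`
  have htW' : ∀ i, t i * W i ≤ (2 + ε) * δ' i := by
    intro i
    obtain ⟨k, hk⟩ := hWex i
    rw [← hk]
    have := htW i k
    have e : (2 + ε) * δ' i = 2 * δ i := by simp only [hδ']; field_simp
    rw [e]; exact this
  have ht3 : ∀ i, t i ≤ 3 * θ i := by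
    intro i
    have h1 : t i ≤ (2 + ε) * (δ' i / W i) := by
      rw [← mul_div_assoc, le_div_iff₀ (hW0 i)]; exact htW' i
    have h2 : (2 + ε) * (δ' i / W i) ≤ 3 * (κ * δ' i / W i) := by
      have h3 : 3 * (κ * δ' i / W i) = (2 + c) * (δ' i / W i) := by
        rw [hκ]; ring
      rw [h3]
      exact mul_le_mul_of_nonneg_right (by linarith) (div_nonneg (hδ'0 i) (hW0 i).le)
    rcases min_cases (2 / 3 : ℝ) (κ * δ' i / W i) with h | h
    · simp only [hθ]; rw [h.1]; linarith [ht2 i]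
    · simp only [hθ]; rw [h.1]; linarith
  have ht3eq : ∀ i, 0 < δ' i → t i = 3 * θ i → θ i = 2 / 3 := by
    intro i hd he
    rcases min_cases (2 / 3 : ℝ) (κ * δ' i / W i) with h | h
    · exact h.1
    · exfalso
      have h1 : t i ≤ (2 + ε) * (δ' i / W i) := by
        rw [← mul_div_assoc, le_div_iff₀ (hW0 i)]; exact htW' i
      have h2 : 0 < δ' i / W i := div_pos hd (hW0 i)
      have h4 : θ i = κ * δ' i / W i := h.1
      have h5 : 3 * θ i = (2 + c) * (δ' i / W i) := by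
        rw [h4, hκ]; ring
      rw [he, h5] at h1
      nlinarith
  -- the functionals
  set N : ℝ × R2 → ℝ := fun r => -JZ n ν v ℓ δ' r with hN
  set A : ℝ × R2 → ℝ := fun r => EE n ν v ℓ δ' θ s r with hAd
  set D : ℝ × R2 → ℝ := fun r => T1 n v ℓ r δ' θ - 1 / 3 * T1 n v ℓ r δ' t with hD
  set E : ℝ × R2 → ℝ := fun r => J2 n ν v ℓ r δ + ε * T1 n v ℓ r δ t -
    2 * (2 + ε) * J1 n v ℓ r δ + 3 * (2 + ε) * J0 n v r with hE
  set g : ℝ := (2 + ε) / (6 * ε) - s / 2 with hg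
  have hg0 : 0 < g := by
    rw [hg, hs]
    have e1 : (2 + ε) / (6 * ε) - (2 + c) / (3 * c) / 2 = (c - ε) / (3 * ε * c) := by
      field_simp
      ring
    rw [e1]
    exact div_pos (by linarith) (by positivity)
  have hEid : ∀ r, E r = 3 * ε * (2 + ε) / 2 * (A r - g * N r - D r) := by
    intro r
    have e1 : J2 n ν v ℓ r δ = ((2 + ε) / 2) ^ 2 * J2 n ν v ℓ r δ' := by
      conv_lhs => rw [hδδ]
      exact J2_smul _ _ _ _ _ _ _
    have e2 : J1 n v ℓ r δ = (2 + ε) / 2 * J1 n v ℓ r δ' := by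
      conv_lhs => rw [hδδ]
      exact PLS.J1_smul _ _ _ _ _ _
    have e3 : T1 n v ℓ r δ t = (2 + ε) / 2 * T1 n v ℓ r δ' t := by
      conv_lhs => rw [hδδ]
      exact PLS.T1_smul _ _ _ _ _ _ _
    simp only [hE, hAd, hN, hD, hg, EE, JZ]
    rw [e1, e2, e3]
    field_simp
    ring
  -- signs on the cone
  have hNnn : ∀ r, (∀ k, 0 ≤ af r (v k)) → 0 ≤ N r := by
    intro r hr
    have := JZ_nonpos hPEU hPMI P δ' pδ' hs' r hr
    simp only [hN]; linarith
  have hEInn : ∀ r, (∀ k, 0 ≤ af r (v k)) → ∀ i, 0 ≤ EI v ℓ r i := by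
    intro r hr i
    have := hr i; have := hr (i + 1); have := P.pos i
    unfold EI; positivity
  have hDeq : ∀ r, D r = ∑ i ∈ Finset.range n, δ' i * (θ i - 1 / 3 * t i) * EI v ℓ r i := by
    intro r
    simp only [hD, T1, Finset.mul_sum, ← Finset.sum_sub_distrib]
    refine Finset.sum_congr rfl fun i _ => ?_
    ring
  have hDnn : ∀ r, (∀ k, 0 ≤ af r (v k)) → 0 ≤ D r := by
    intro r hr
    rw [hDeq]
    exact Finset.sum_nonneg fun i _ => mul_nonneg (mul_nonneg (hδ'0 i) (by linarith [ht3 i]))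
      (hEInn r hr i)
  by_contra hcon
  push Not at hcon
  have hEnn : ∀ r, (∀ k, 0 ≤ af r (v k)) → 0 ≤ E r := fun r hr => hcon r hr
  -- minimum of the certificate
  obtain ⟨m, hm0, hm⟩ : ∃ m : ℝ, 0 < m ∧ ∀ k, m ≤ af r (v k) := by
    obtain ⟨k0, -, hk0⟩ := Finset.exists_mem_eq_inf' hne (fun k => af r (v k))
    refine ⟨af r (v k0), hr k0, fun k => ?_⟩
    have hp : Function.Periodic v n := P.pv
    have hk : v (k % n) = v k := hp.map_mod_nat k
    rw [← hk0, ← hk]
    exact Finset.inf'_le (fun k => af r (v k)) (Finset.mem_range.2 (Nat.mod_lt k hn))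
  have hr0 : ∀ k, 0 ≤ af r (v k) := fun k => (hr k).le
  have hrm : ∀ k, 0 ≤ af (sb r m) (v k) := by intro k; rw [af_sb]; linarith [hm k]
  have h10 : ∀ k, 0 ≤ af one (v k) := by intro k; rw [af_one]; norm_num
  have hNsb : N (sb r m) = N r - m * N one := by
    simp only [hN, JZ, J2_sb, J1_sb, J0_sb]; ring
  have hDsb : D (sb r m) = D r - m * D one := by simp only [hD, T1_sb]; ring
  have hEsb : E (sb r m) = E r - m * E one := by
    simp only [hE, J2_sb, T1_sb, J1_sb, J0_sb]; ring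
  have hpre : 0 < 3 * ε * (2 + ε) / 2 := by positivity
  have hAr : A r ≤ 0 := hA
  have hNr := hNnn r hr0
  have hDr := hDnn r hr0
  have hgN : 0 ≤ g * N r := mul_nonneg hg0.le hNr
  have hEr : E r ≤ 0 := by
    rw [hEid]
    exact mul_nonpos_of_nonneg_of_nonpos hpre.le (by linarith)
  have hE1 : 0 ≤ E one := hEnn one h10
  have hEm : 0 ≤ E r - m * E one := by rw [← hEsb]; exact hEnn _ hrm
  have hE10 : E one = 0 := by nlinarith
  have hEr0 : E r = 0 := by rw [hE10] at hEm; linarith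
  have hkey : A r - g * N r - D r = 0 := by
    have := hEid r
    rw [hEr0] at this
    exact (mul_eq_zero.1 this.symm).resolve_left hpre.ne'
  have hNr0 : N r = 0 := by
    have h7 : g * N r = 0 := by linarith
    exact (mul_eq_zero.1 h7).resolve_left hg0.ne'
  have hDr0 : D r = 0 := by linarith
  have hN1 : N one = 0 := by
    have a1 := hNnn _ hrm
    rw [hNsb, hNr0] at a1
    have a2 := hNnn one h10
    nlinarith
  have hD1 : D one = 0 := by
    have a1 := hDnn _ hrm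
    rw [hDsb, hDr0] at a1
    have a2 := hDnn one h10
    nlinarith
  have hA1 : A one = 0 := by
    have := hEid one
    rw [hE10, hN1, hD1] at this
    have h7 := (mul_eq_zero.1 this.symm).resolve_left hpre.ne'
    linarith
  -- evaluate at `1`
  have hterm : ∀ i ∈ Finset.range n, δ' i * (θ i - 1 / 3 * t i) * EI v ℓ one i = 0 := by
    have hz := hD1
    rw [hDeq] at hz
    exact (Finset.sum_eq_zero_iff_of_nonneg fun i _ => mul_nonneg (mul_nonneg (hδ'0 i)
      (by linarith [ht3 i])) (hEInn one h10 i)).1 hz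
  have hθδ : ∀ i ∈ Finset.range n, δ' i * θ i = 2 / 3 * δ' i := by
    intro i hi
    have h9 := hterm i hi
    rw [EI_one] at h9
    rcases (hδ'0 i).eq_or_lt with h0 | h0
    · rw [← h0]; ring
    · have hl := P.pos i
      have h11 : θ i - 1 / 3 * t i = 0 := by
        rcases mul_eq_zero.1 h9 with h | h
        · exact (mul_eq_zero.1 h).resolve_left h0.ne'
        · exact absurd h hl.ne'
      rw [ht3eq i h0 (by linarith)]; ring
  have hT : T1 n v ℓ one δ' θ = 2 / 3 * (2 * ar n v) := by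
    rw [← hs', Finset.mul_sum]
    unfold T1
    refine Finset.sum_congr rfl fun i hi => ?_
    rw [EI_one, hθδ i hi]; ring
  have hJZ : JZ n ν v ℓ δ' one = 0 := by
    have := hN1
    simp only [hN] at this
    linarith
  have hfin : A one = 1 / 3 * ar n v := by
    simp only [hAd, EE]
    rw [hT, hJZ, PLS.J0_one]; ring
  have har := (hPEU n ν v ℓ P).2.1
  rw [hfin] at hA1
  linarith

/-! ## normalisation -/

open NRM

lemma JZ_tv (hE : Stmt_PEU) {n : ℕ} {ν v : ℕ → R2} {ℓ : ℕ → ℝ} (hP : Poly n ν v ℓ) (lam : ℝ)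
    (hl : 0 < lam) (c : R2) (δ : ℕ → ℝ) (r : ℝ × R2) :
    JZ n ν (tv lam c v) (fun i => lam * ℓ i) (fun i => lam * δ i) r =
      lam ^ 2 * JZ n ν v ℓ δ (tr lam c r) := by
  unfold JZ
  rw [J1_tv, J2_tv, J0_tv hE hP lam hl c]; ring

lemma EE_tv (hE : Stmt_PEU) {n : ℕ} {ν v : ℕ → R2} {ℓ : ℕ → ℝ} (hP : Poly n ν v ℓ) (lam : ℝ)
    (hl : 0 < lam) (c : R2) (δ θ : ℕ → ℝ) (s : ℝ) (r : ℝ × R2) :
    EE n ν (tv lam c v) (fun i => lam * ℓ i) (fun i => lam * δ i) θ s r =
      lam ^ 2 * EE n ν v ℓ δ θ s (tr lam c r) := by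
  unfold EE
  rw [T1_tv, JZ_tv hE hP lam hl c, J0_tv hE hP lam hl c]; ring

/-- `P(κ, s)` from the normalised form, `κ ≤ 1 ≤ s` -/
theorem Pc_of_Pcn (hE : Stmt_PEU) (hM : Stmt_PMI) {κ s : ℝ} (hκ : κ ≤ 1) (hs : 1 ≤ s)
    (h : Stmt_Pcn κ s) : Stmt_Pc κ s := by
  intro n ν v ℓ hP W hW1 hW2 δ θ hδ hθ hδ0 hθ0 hθ2 hθW hS
  rcases Nat.lt_or_ge 3 n with hn | hn
  swap
  · -- triangles
    have hn3 : n = 3 := le_antisymm hn hP.n3
    subst hn3
    obtain ⟨r, hr, hA⟩ := blk_TRI ν v ℓ hP δ θ hδ hθ hδ0 hθ0 hθ2 (fun i k => by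
      have h1 := mul_le_mul_of_nonneg_left (hW1 i k) (hθ0 i)
      have h2 := hθW i
      have h3 : κ * δ i ≤ 1 * δ i := mul_le_mul_of_nonneg_right hκ (hδ0 i)
      linarith) hS
    refine ⟨r, hr, (EE_le_AA hE hM hP δ θ hδ hS hs r fun k => (hr k).le).trans ?_⟩
    exact hA
  · have hA : 0 < ar n v := (hE n ν v ℓ hP).2.1
    have hWp := W_pos hP hW1
    set c : R2 := (J0 n v (0, (1, 0)) / ar n v, J0 n v (0, (0, 1)) / ar n v) with hc
    set lam : ℝ := 1 / Real.sqrt (ar n v) with hlam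
    have hsq : 0 < Real.sqrt (ar n v) := Real.sqrt_pos.mpr hA
    have hl : 0 < lam := by positivity
    have hl2 : lam ^ 2 * ar n v = 1 := by
      rw [hlam, div_pow, one_pow, Real.sq_sqrt hA.le]
      field_simp
    have hP' := poly_tv hP lam hl c
    have hcen : ∀ g : R2, J0 n (tv lam c v) (0, g) = 0 := by
      intro g
      rw [J0_tv hE hP lam hl c]
      have hdec : tr lam c (0, g) = (-(lam * dp g c)) • ((1, (0, 0)) : ℝ × R2) +
          ((lam * g.1) • ((0, (1, 0)) : ℝ × R2) + (lam * g.2) • ((0, (0, 1)) : ℝ × R2)) := by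
        unfold tr
        ext <;> simp
      rw [hdec, J0_add, J0_add, J0_smul, J0_smul, J0_smul, J0_one]
      have h1 : J0 n v (0, (1, 0)) = c.1 * ar n v := by
        rw [hc]; field_simp
      have h2 : J0 n v (0, (0, 1)) = c.2 * ar n v := by
        rw [hc]; field_simp
      rw [h1, h2]
      unfold dp
      ring
    have hdp : ∀ k j, dp (ν k) (tv lam c v k - tv lam c v j) = lam * dp (ν k) (v k - v j) := by
      intro k j
      unfold tv
      rw [dp_sub_right, dp_smul_right, dp_smul_right, dp_sub_right, dp_sub_right, dp_sub_right]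
      ring
    obtain ⟨r, hr0, hrA⟩ := h n ν (tv lam c v) (fun i => lam * ℓ i) hP' hn
      (by rw [ar_tv hE hP lam hl c]; exact hl2) hcen (fun k => lam * W k)
      (fun k j => by rw [hdp]; exact mul_le_mul_of_nonneg_left (hW1 k j) hl.le)
      (fun k => by
        obtain ⟨j, hj⟩ := hW2 k
        exact ⟨j, by rw [hdp, hj]⟩)
      (fun i => lam * δ i) θ (fun i => by rw [hδ]) hθ (fun i => mul_nonneg hl.le (hδ0 i)) hθ0 hθ2
      (fun i => by
        have := mul_le_mul_of_nonneg_left (hθW i) hl.le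
        linarith)
      (by
        have : ∑ i ∈ range n, lam * ℓ i * (lam * δ i) = lam ^ 2 * ∑ i ∈ range n, ℓ i * δ i := by
          rw [mul_sum]
          exact sum_congr rfl fun i _ => by ring
        rw [this, hS]
        linarith)
    rw [EE_tv hE hP lam hl c] at hrA
    have hpos : ∀ k, 0 < af (tr lam c r) (v k) := by
      intro k
      rw [af_tr]
      exact hr0 k
    refine ⟨tr lam c r, hpos, ?_⟩
    have h2 : 0 < lam ^ 2 := by positivity
    by_contra hno
    push Not at hno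
    have := mul_pos h2 hno
    linarith

/-- `Stmt_PLc c` from the normalised form -/
theorem PLc_of_Pcn (hE : Stmt_PEU) (hM : Stmt_PMI) {c : ℝ} (hc0 : 0 < c) (hc1 : c ≤ 1)
    (h : Stmt_Pcn ((2 + c) / 3) ((2 + c) / (3 * c))) : Stmt_PLc c := by
  refine PLc_of_Pc hE hM hc0 (Pc_of_Pcn hE hM ?_ ?_ h)
  · linarith
  · rw [le_div_iff₀ (by positivity)]
    linarith

end Pool.G1
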