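import Pool.Agent.Work.MP_b5407d_g1.Pl_CHEBdefs

/-!
# ALT: Chebyshev alternation for a periodic function on the vertices of a convex polygon

Among all quadruples of vertices take one which maximises the normalised alternating sum; the affine
function which makes the values at the four vertices `-E, E, -E, E` is the best uniform approximation
(exchange argument).
-/

set_option autoImplicit false

namespace Pool.G1

namespace ALTaux

/-- twice the area of a triangle -/
def tri (p q r : R2) : ℝ := cp (q - p) (r - p)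

/-- alternating sum -/
def FF (v : ℕ → R2) (f : ℕ → ℝ) (i j k l : ℕ) : ℝ :=
  tri (v j) (v k) (v l) * f i - tri (v i) (v k) (v l) * f j +
    tri (v i) (v j) (v l) * f k - tri (v i) (v j) (v k) * f l

/-- sum of the weights -/
def SS (v : ℕ → R2) (i j k l : ℕ) : ℝ :=
  tri (v j) (v k) (v l) + tri (v i) (v k) (v l) + tri (v i) (v j) (v l) + tri (v i) (v j) (v k)

theorem FF_aff (v : ℕ → R2) (H : ℕ → ℝ) (c : ℝ × R2) (i j k l : ℕ) :
    FF v (fun x => H x - af c (v x)) i j k l = FF v H i j k l := by
  simp only [FF, tri, cp, af, dp, Prod.fst_sub, Prod.snd_sub]; ring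

theorem FF_rot (v : ℕ → R2) (H : ℕ → ℝ) (n i j k l : ℕ) (hv : v (i + n) = v i)
    (hH : H (i + n) = H i) : FF v H j k l (i + n) = - FF v H i j k l := by
  simp only [FF, tri, cp, hv, hH, Prod.fst_sub, Prod.snd_sub]; ring

theorem SS_rot (v : ℕ → R2) (n i j k l : ℕ) (hv : v (i + n) = v i) :
    SS v j k l (i + n) = SS v i j k l := by
  simp only [SS, tri, cp, hv, Prod.fst_sub, Prod.snd_sub]; ring

theorem interp (p q r : R2) (h : 0 < tri p q r) (a b c : ℝ) :
    ∃ z : ℝ × R2, af z p = a ∧ af z q = b ∧ af z r = c := by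
  have h0 := h.ne'
  simp only [tri, cp, Prod.fst_sub, Prod.snd_sub] at h0
  set T := (q.1 - p.1) * (r.2 - p.2) - (q.2 - p.2) * (r.1 - p.1) with hT
  refine ⟨(a - (((b - a) * (r.2 - p.2) - (c - a) * (q.2 - p.2)) / T * p.1 +
      ((c - a) * (q.1 - p.1) - (b - a) * (r.1 - p.1)) / T * p.2),
    (((b - a) * (r.2 - p.2) - (c - a) * (q.2 - p.2)) / T,
      ((c - a) * (q.1 - p.1) - (b - a) * (r.1 - p.1)) / T)), ?_, ?_, ?_⟩
  · simp only [af, dp]; ring
  · simp only [af, dp]; field_simp; rw [hT]; ring
  · simp only [af, dp]; field_simp; rw [hT]; ring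

end ALTaux

open ALTaux in
theorem ALT (hO : Stmt_ORI) : Stmt_ALT := by
  intro n ν v ℓ P H hH
  have hn := P.n3
  have hper : ∀ (f : ℕ → ℝ), (∀ i, f (i + n) = f i) → ∀ i t, f (i + t * n) = f i := by
    intro f hf i t
    induction t with
    | zero => simp
    | succ t ih =>
      have : i + (t + 1) * n = i + t * n + n := by ring
      rw [this, hf, ih]
  -- positivity of the triangles
  have ht : ∀ i j k : ℕ, i < j → j < k → k < i + n → 0 < tri (v i) (v j) (v k) := by
    intro i j k h1 h2 h3
    exact hO n ν v ℓ P i j k h1 h2 h3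
  rcases Nat.lt_or_ge n 4 with h4 | h4
  · -- triangle: interpolation
    have h3 : n = 3 := by omega
    subst h3
    obtain ⟨c, c0, c1, c2⟩ := interp (v 0) (v 1) (v 2) (ht 0 1 2 (by omega) (by omega) (by omega))
      (H 0) (H 1) (H 2)
    refine ⟨c, 0, le_refl _, ?_, fun h => absurd h (lt_irrefl _)⟩
    intro i
    obtain ⟨G, hG⟩ : ∃ G : ℕ → ℝ, G = fun x => H x - af c (v x) := ⟨_, rfl⟩
    have hg : ∀ x, G (x + 3) = G x := by
      intro x; rw [hG]; simp only [hH, P.pv]
    have e : i % 3 + i / 3 * 3 = i := by omega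
    have hi := hper G hg (i % 3) (i / 3)
    rw [e, hG] at hi
    simp only at hi
    rw [hi]
    have h5 : i % 3 = 0 ∨ i % 3 = 1 ∨ i % 3 = 2 := by omega
    rcases h5 with h5 | h5 | h5
    · rw [h5, c0]; simp
    · rw [h5, c1]; simp
    · rw [h5, c2]; simp
  · -- at least four vertices
    have hS : ∀ i j k l : ℕ, i < j → j < k → k < l → l < i + n → 0 < SS v i j k l := by
      intro i j k l h1 h2 h3 h5
      have a1 := ht j k l h2 h3 (by omega)
      have a2 := ht i k l (by omega) h3 h5
      have a3 := ht i j l h1 (by omega) h5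
      have a4 := ht i j k h1 h2 (by omega)
      simp only [SS]; linarith
    let A : Finset (ℕ × ℕ × ℕ × ℕ) :=
      (Finset.range n ×ˢ (Finset.range (2 * n) ×ˢ (Finset.range (2 * n) ×ˢ Finset.range (2 * n)))).filter
        (fun q => q.1 < q.2.1 ∧ q.2.1 < q.2.2.1 ∧ q.2.2.1 < q.2.2.2 ∧ q.2.2.2 < q.1 + n)
    have hAne : A.Nonempty := by
      refine ⟨(0, 1, 2, 3), ?_⟩
      simp only [A, Finset.mem_filter, Finset.mem_product, Finset.mem_range]
      refine ⟨⟨by omega, by omega, by omega, by omega⟩, by omega, by omega, by omega, by omega⟩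
    obtain ⟨⟨i₀, i₁, i₂, i₃⟩, hq, hmax⟩ := Finset.exists_max_image A
      (fun q => - FF v H q.1 q.2.1 q.2.2.1 q.2.2.2 / SS v q.1 q.2.1 q.2.2.1 q.2.2.2) hAne
    simp only [A, Finset.mem_filter, Finset.mem_product, Finset.mem_range] at hq
    obtain ⟨⟨b0, b1, b2, b3⟩, o1, o2, o3, o4⟩ := hq
    obtain ⟨E, hE⟩ : ∃ E, E = - FF v H i₀ i₁ i₂ i₃ / SS v i₀ i₁ i₂ i₃ := ⟨_, rfl⟩
    have hS0 := hS i₀ i₁ i₂ i₃ o1 o2 o3 o4
    have hEq : - FF v H i₀ i₁ i₂ i₃ = E * SS v i₀ i₁ i₂ i₃ := by
      rw [hE]; field_simp
    -- maximality for all quadruples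
    have hM : ∀ t : ℕ, ∀ i j k l : ℕ, i < t * n → i < j → j < k → k < l → l < i + n →
        - FF v H i j k l ≤ E * SS v i j k l := by
      intro t
      induction t with
      | zero => intro i j k l h; omega
      | succ t ih =>
        intro i j k l h h1 h2 h3 h5
        rcases Nat.lt_or_ge i n with hi | hi
        · have hmem : (i, j, k, l) ∈ A := by
            simp only [A, Finset.mem_filter, Finset.mem_product, Finset.mem_range]
            refine ⟨⟨hi, by omega, by omega, by omega⟩, h1, h2, h3, h5⟩
          have := hmax (i, j, k, l) hmem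
          simp only at this
          rw [← hE, div_le_iff₀ (hS i j k l h1 h2 h3 h5)] at this
          exact this
        · have h6 : i - n < t * n := by
            have : (t + 1) * n = t * n + n := by ring
            omega
          have := ih (i - n) (j - n) (k - n) (l - n) h6 (by omega) (by omega) (by omega) (by omega)
          have e1 : v (i - n) = v i := by rw [← P.pv (i - n)]; congr 1; omega
          have e2 : v (j - n) = v j := by rw [← P.pv (j - n)]; congr 1; omega
          have e3 : v (k - n) = v k := by rw [← P.pv (k - n)]; congr 1; omega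
          have e4 : v (l - n) = v l := by rw [← P.pv (l - n)]; congr 1; omega
          have f1 : H (i - n) = H i := by rw [← hH (i - n)]; congr 1; omega
          have f2 : H (j - n) = H j := by rw [← hH (j - n)]; congr 1; omega
          have f3 : H (k - n) = H k := by rw [← hH (k - n)]; congr 1; omega
          have f4 : H (l - n) = H l := by rw [← hH (l - n)]; congr 1; omega
          simp only [FF, SS, e1, e2, e3, e4, f1, f2, f3, f4] at this
          simpa only [FF, SS] using this
    have hM' : ∀ i j k l : ℕ, i < j → j < k → k < l → l < i + n →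
        - FF v H i j k l ≤ E * SS v i j k l := by
      intro i j k l h1 h2 h3 h5
      refine hM (i + 1) i j k l ?_ h1 h2 h3 h5
      nlinarith
    have hE0 : 0 ≤ E := by
      have h := hM' i₁ i₂ i₃ (i₀ + n) o2 o3 o4 (by omega)
      rw [FF_rot v H n _ _ _ _ (P.pv _) (hH _), SS_rot v n _ _ _ _ (P.pv _), neg_neg] at h
      nlinarith
    -- the affine function
    have t0 := ht i₁ i₂ i₃ o2 o3 (by omega)
    have t1 := ht i₀ i₂ i₃ (by omega) o3 o4
    have t2 := ht i₀ i₁ i₃ o1 (by omega) o4
    have t3 := ht i₀ i₁ i₂ o1 o2 (by omega)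
    obtain ⟨c, c0, c1, c2⟩ := interp (v i₀) (v i₁) (v i₂) t3 (H i₀ + E) (H i₁ - E) (H i₂ + E)
    obtain ⟨G, hG⟩ : ∃ G : ℕ → ℝ, G = fun x => H x - af c (v x) := ⟨_, rfl⟩
    have hFG : ∀ i j k l, FF v G i j k l = FF v H i j k l := by
      intro i j k l; rw [hG]; exact FF_aff v H c i j k l
    have hGn : ∀ i, G (i + n) = G i := by intro i; rw [hG]; simp only [hH, P.pv]
    have g0 : G i₀ = -E := by rw [hG]; simp only [c0]; ring
    have g1 : G i₁ = E := by rw [hG]; simp only [c1]; ring
    have g2 : G i₂ = -E := by rw [hG]; simp only [c2]; ring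
    have g3 : G i₃ = E := by
      have h := hEq
      rw [← hFG] at h
      simp only [FF, SS, g0, g1, g2] at h
      have h' : tri (v i₀) (v i₁) (v i₂) * (G i₃ - E) = 0 := by linarith
      rcases mul_eq_zero.mp h' with h' | h'
      · exact absurd h' t3.ne'
      · linarith
    -- exchange
    have exch : ∀ i j k l : ℕ, i < j → j < k → k < l → l < i + n →
        G i ≤ -E → E ≤ G j → G k ≤ -E → E ≤ G l →
        G i = -E ∧ G j = E ∧ G k = -E ∧ G l = E := by
      intro i j k l h1 h2 h3 h5 u1 u2 u3 u4
      have a1 := ht j k l h2 h3 (by omega)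
      have a2 := ht i k l (by omega) h3 h5
      have a3 := ht i j l h1 (by omega) h5
      have a4 := ht i j k h1 h2 (by omega)
      have h := hM' i j k l h1 h2 h3 h5
      rw [← hFG] at h
      simp only [FF, SS] at h
      have w1 : 0 ≤ tri (v j) (v k) (v l) * (-G i - E) := mul_nonneg a1.le (by linarith)
      have w2 : 0 ≤ tri (v i) (v k) (v l) * (G j - E) := mul_nonneg a2.le (by linarith)
      have w3 : 0 ≤ tri (v i) (v j) (v l) * (-G k - E) := mul_nonneg a3.le (by linarith)
      have w4 : 0 ≤ tri (v i) (v j) (v k) * (G l - E) := mul_nonneg a4.le (by linarith)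
      have s : tri (v j) (v k) (v l) * (-G i - E) + tri (v i) (v k) (v l) * (G j - E) +
          tri (v i) (v j) (v l) * (-G k - E) + tri (v i) (v j) (v k) * (G l - E) ≤ 0 := by
        linarith
      have z1 : tri (v j) (v k) (v l) * (-G i - E) = 0 := by linarith
      have z2 : tri (v i) (v k) (v l) * (G j - E) = 0 := by linarith
      have z3 : tri (v i) (v j) (v l) * (-G k - E) = 0 := by linarith
      have z4 : tri (v i) (v j) (v k) * (G l - E) = 0 := by linarith
      have y1 := (mul_eq_zero.mp z1).resolve_left a1.ne'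
      have y2 := (mul_eq_zero.mp z2).resolve_left a2.ne'
      have y3 := (mul_eq_zero.mp z3).resolve_left a3.ne'
      have y4 := (mul_eq_zero.mp z4).resolve_left a4.ne'
      exact ⟨by linarith, by linarith, by linarith, by linarith⟩
    -- one period
    have hx : ∀ x, i₀ ≤ x → x < i₀ + n → |G x| ≤ E := by
      intro x hx1 hx2
      by_contra hcon
      push Not at hcon
      rcases lt_abs.mp hcon with hp | hm
      · -- G x > E
        rcases Nat.lt_or_ge x i₂ with hx3 | hx3
        · rcases Nat.lt_or_ge i₀ x with hx4 | hx4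
          · have := (exch i₀ x i₂ i₃ hx4 hx3 o3 o4 g0.le hp.le g2.le g3.ge).2.1
            linarith
          · have : x = i₀ := by omega
            subst this; linarith
        · rcases Nat.lt_or_ge i₂ x with hx4 | hx4
          · have := (exch i₀ i₁ i₂ x o1 o2 hx4 hx2 g0.le g1.ge g2.le hp.le).2.2.2
            linarith
          · have : x = i₂ := by omega
            subst this; linarith
      · -- G x < -E
        rcases Nat.lt_or_ge x i₁ with hx3 | hx3
        · have := (exch x i₁ i₂ i₃ hx3 o2 o3 (by omega) (by linarith) g1.ge g2.le g3.ge).1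
          linarith
        · rcases Nat.lt_or_ge i₃ x with hx4 | hx4
          · have := (exch x (i₁ + n) (i₂ + n) (i₃ + n) (by omega) (by omega) (by omega) (by omega)
              (by linarith) (by rw [hGn]; exact g1.ge) (by rw [hGn]; exact g2.le)
              (by rw [hGn]; exact g3.ge)).1
            linarith
          · rcases Nat.lt_or_ge i₁ x with hx5 | hx5
            · rcases Nat.lt_or_ge x i₃ with hx6 | hx6
              · have := (exch i₀ i₁ x i₃ o1 hx5 hx6 o4 g0.le g1.ge (by linarith) g3.ge).2.2.1
                linarith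
              · have : x = i₃ := by omega
                subst this; linarith
            · have : x = i₁ := by omega
              subst this; linarith
    have hall : ∀ i, |G i| ≤ E := by
      intro i
      have e : i % n + i / n * n = i := by rw [mul_comm]; exact Nat.mod_add_div i n
      have h1 := hper G hGn (i % n) (i / n)
      rw [e] at h1
      rw [h1]
      have hlt : i % n < n := Nat.mod_lt _ (by omega)
      rcases Nat.lt_or_ge (i % n) i₀ with h2 | h2
      · rw [← hGn]
        exact hx _ (by omega) (by omega)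
      · exact hx _ h2 (by omega)
    refine ⟨c, E, hE0, ?_, fun _ => ⟨i₀, i₁, i₂, i₃, o1, o2, o3, o4, ?_, ?_, ?_, ?_⟩⟩
    · intro i
      have := hall i
      rw [hG] at this
      exact this
    · rw [hG] at g0; exact g0
    · rw [hG] at g1; exact g1
    · rw [hG] at g2; exact g2
    · rw [hG] at g3; exact g3

end Pool.G1
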