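import Pool.Agent.Work.MP_b5407d_g1.Pl_ARCN

/-! Moved to `Pl_ARCN.lean` (this file only re-exports it). -/
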