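import Mathlib

/-!
# CHEB: the abstract arc inequality (potential form)

Note 2424 of helper38, section 1.
State `(φ, ψ, s, r, h, k)`; edge move `(φ,ψ,h) += w (s,r,k)`, vertex move `(s,r,k) -= d (φ,ψ,X)`.
-/

set_option autoImplicit false

namespace Pool.G1.ARC

open Finset

/-- value of the affine function at barycentric coordinates `φ, ψ` -/
def rr (ρa ρb ρc φ ψ : ℝ) : ℝ := ρb * φ + ρc * ψ + ρa * (1 - φ - ψ)

/-- its slope -/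
def rs (ρa ρb ρc s r : ℝ) : ℝ := ρb * s + ρc * r - ρa * (s + r)

/-- basic potential -/
noncomputable def V0 (ρa ρb ρc f e φ ψ s r h k : ℝ) : ℝ :=
  2 * rr ρa ρb ρc φ ψ * (1 - 2 * h) * k + (1 / 2) * ((1 - 2 * h) ^ 2 + 1) * rs ρa ρb ρc s r
    + (3 / 4) * ρa * (s + r)
    + (1 / 4) * ρa * (2 * ((1 - 2 * h) - (φ - ψ)) + (φ - ψ)) * (s - r)
    + ρc * (2 * f * (h * r - ψ * k) + f ^ 2 * r)
    + ρb * (2 * e * (φ * k + (1 - h) * s) + e ^ 2 * s)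

/-- edge step, `ρa = 0`: exact -/
lemma edge0 (ρb ρc f e φ ψ s r h k w : ℝ) :
    V0 0 ρb ρc f e (φ + w * s) (ψ + w * r) s r (h + w * k) k - V0 0 ρb ρc f e φ ψ s r h k =
      w * k ^ 2 * (0 - 2 * rr 0 ρb ρc φ ψ - 2 * rr 0 ρb ρc (φ + w * s) (ψ + w * r)) := by
  unfold V0 rr rs; ring

/-- vertex step, `ρa = 0` -/
lemma vert0 (ρb ρc f e φ ψ s r h k d X : ℝ) (hd : 0 ≤ d) (hb : 0 ≤ ρb) (hc : 0 ≤ ρc)
    (hf : 0 ≤ f) (he : 0 ≤ e) (hφ : 0 ≤ φ) (hψ : 0 ≤ ψ) (h0 : 0 ≤ h) (h1 : h ≤ 1) :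
    V0 0 ρb ρc f e φ ψ (s - d * φ) (r - d * ψ) h (k - d * X) - V0 0 ρb ρc f e φ ψ s r h k ≤
      rr 0 ρb ρc φ ψ * (d * X ^ 2) := by
  have e1 : rr 0 ρb ρc φ ψ * (d * X ^ 2) -
      (V0 0 ρb ρc f e φ ψ (s - d * φ) (r - d * ψ) h (k - d * X) - V0 0 ρb ρc f e φ ψ s r h k) =
      d * (ρc * ψ * ((X + (1 - 2 * h) - f) ^ 2 + 2 * f * (1 - h)) +
        ρb * φ * ((X + (1 - 2 * h) + e) ^ 2 + 2 * e * h) +
        2 * (ρb * φ + ρc * ψ) * (h * (1 - h))) := by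
    unfold V0 rr rs; ring
  have h1' : 0 ≤ 1 - h := by linarith
  have : 0 ≤ d * (ρc * ψ * ((X + (1 - 2 * h) - f) ^ 2 + 2 * f * (1 - h)) +
        ρb * φ * ((X + (1 - 2 * h) + e) ^ 2 + 2 * e * h) +
        2 * (ρb * φ + ρc * ψ) * (h * (1 - h))) := by positivity
  linarith

/-- Jacobi (Riccati) step -/
lemma jac (w g sg η sη : ℝ) (hw : 0 < w) (hg : 0 < g) (hg' : 0 < g + w * sg) :
    (η + w * sη) ^ 2 * (sg / (g + w * sg)) - η ^ 2 * (sg / g) ≤ w * sη ^ 2 := by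
  have e1 : w * sη ^ 2 - ((η + w * sη) ^ 2 * (sg / (g + w * sg)) - η ^ 2 * (sg / g)) =
      w * (g * sη - sg * η) ^ 2 / (g * (g + w * sg)) := by
    field_simp
    ring
  have : 0 ≤ w * (g * sη - sg * η) ^ 2 / (g * (g + w * sg)) := by positivity
  linarith

/-- `ζ` on the right side (affine function), and its slope when the constant is dropped -/
def zR (ρb f e φ ψ : ℝ) : ℝ := f * (φ + ψ - 1 - ρb * φ) - e * ρb * φ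
def zRs (ρb f e s r : ℝ) : ℝ := f * (s + r - ρb * s) - e * ρb * s
/-- `ζ` on the left side -/
def zL (ρc f e φ ψ : ℝ) : ℝ := f * ρc * ψ + e * (ρc * ψ + 1 - φ - ψ)
def zLs (ρc f e s r : ℝ) : ℝ := f * ρc * r + e * (ρc * r - s - r)

/-- potential with a general `ζ` -/
noncomputable def VV (z zs ρb ρc f e φ ψ s r h k : ℝ) : ℝ :=
  V0 1 ρb ρc f e φ ψ s r h k - z * ((-2 * k - (s - r)) + zs) +
    (((1 - 2 * h) - (φ - ψ)) / 2 + z) ^ 2 * ((s + r) / (φ + ψ))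

noncomputable def VR (ρb ρc f e φ ψ s r h k : ℝ) : ℝ :=
  VV (zR ρb f e φ ψ) (zRs ρb f e s r) ρb ρc f e φ ψ s r h k
noncomputable def VL (ρb ρc f e φ ψ s r h k : ℝ) : ℝ :=
  VV (zL ρc f e φ ψ) (zLs ρc f e s r) ρb ρc f e φ ψ s r h k

/-- edge step for a general `ζ` -/
lemma edgeV (z zs ρb ρc f e φ ψ s r h k w : ℝ) (hw : 0 < w) (hg : 0 < φ + ψ)
    (hg' : 0 < φ + w * s + (ψ + w * r)) :
    VV (z + w * zs) zs ρb ρc f e (φ + w * s) (ψ + w * r) s r (h + w * k) k -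
      VV z zs ρb ρc f e φ ψ s r h k ≤
      w * k ^ 2 * (1 - 2 * rr 1 ρb ρc φ ψ - 2 * rr 1 ρb ρc (φ + w * s) (ψ + w * r)) := by
  have hj := jac w (φ + ψ) (s + r) (((1 - 2 * h) - (φ - ψ)) / 2 + z)
    ((-2 * k - (s - r)) / 2 + zs) hw hg (by linarith)
  have e1 : φ + w * s + (ψ + w * r) = φ + ψ + w * (s + r) := by ring
  have e2 : ((1 - 2 * (h + w * k)) - (φ + w * s - (ψ + w * r))) / 2 + (z + w * zs) =
      ((1 - 2 * h) - (φ - ψ)) / 2 + z + w * ((-2 * k - (s - r)) / 2 + zs) := by ring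
  unfold VV
  rw [e1, e2]
  have e3 : w * k ^ 2 * (1 - 2 * rr 1 ρb ρc φ ψ - 2 * rr 1 ρb ρc (φ + w * s) (ψ + w * r)) -
      ((V0 1 ρb ρc f e (φ + w * s) (ψ + w * r) s r (h + w * k) k -
        (z + w * zs) * ((-2 * k - (s - r)) + zs)) -
       (V0 1 ρb ρc f e φ ψ s r h k - z * ((-2 * k - (s - r)) + zs))) =
      w * ((-2 * k - (s - r)) / 2 + zs) ^ 2 := by
    unfold V0 rr rs; ring
  linarith

lemma edgeR (ρb ρc f e φ ψ s r h k w : ℝ) (hw : 0 < w) (hg : 0 < φ + ψ)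
    (hg' : 0 < φ + w * s + (ψ + w * r)) :
    VR ρb ρc f e (φ + w * s) (ψ + w * r) s r (h + w * k) k - VR ρb ρc f e φ ψ s r h k ≤
      w * k ^ 2 * (1 - 2 * rr 1 ρb ρc φ ψ - 2 * rr 1 ρb ρc (φ + w * s) (ψ + w * r)) := by
  have := edgeV (zR ρb f e φ ψ) (zRs ρb f e s r) ρb ρc f e φ ψ s r h k w hw hg hg'
  have e1 : zR ρb f e (φ + w * s) (ψ + w * r) = zR ρb f e φ ψ + w * zRs ρb f e s r := by
    unfold zR zRs; ring
  unfold VR; rw [e1]; exact this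

lemma edgeL (ρb ρc f e φ ψ s r h k w : ℝ) (hw : 0 < w) (hg : 0 < φ + ψ)
    (hg' : 0 < φ + w * s + (ψ + w * r)) :
    VL ρb ρc f e (φ + w * s) (ψ + w * r) s r (h + w * k) k - VL ρb ρc f e φ ψ s r h k ≤
      w * k ^ 2 * (1 - 2 * rr 1 ρb ρc φ ψ - 2 * rr 1 ρb ρc (φ + w * s) (ψ + w * r)) := by
  have := edgeV (zL ρc f e φ ψ) (zLs ρc f e s r) ρb ρc f e φ ψ s r h k w hw hg hg'
  have e1 : zL ρc f e (φ + w * s) (ψ + w * r) = zL ρc f e φ ψ + w * zLs ρc f e s r := by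
    unfold zL zLs; ring
  unfold VL; rw [e1]; exact this

/-- density right -/
noncomputable def DR (ρb ρc f e φ ψ h : ℝ) : ℝ :=
  e * (e + f) * (ρb * φ) + e * (ρb * φ) + f * (ρc * ψ - rr 1 ρb ρc φ ψ) +
    2 * f * rr 1 ρb ρc φ ψ * (1 - h) + 2 * rr 1 ρb ρc φ ψ * (h * (1 - h)) +
    (3 / 4) * (φ + ψ - 1) + h * (1 - h)
/-- density left -/
noncomputable def DL (ρb ρc f e φ ψ h : ℝ) : ℝ :=
  f * (e + f) * (ρc * ψ) + f * (ρc * ψ) + e * (ρb * φ - rr 1 ρb ρc φ ψ) +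
    2 * e * rr 1 ρb ρc φ ψ * h + 2 * rr 1 ρb ρc φ ψ * (h * (1 - h)) +
    (3 / 4) * (φ + ψ - 1) + h * (1 - h)

lemma VRid (ρb ρc f e φ ψ s r h k d X : ℝ) (hg : 0 < φ + ψ) :
    rr 1 ρb ρc φ ψ * (d * X ^ 2) -
      (VR ρb ρc f e φ ψ (s - d * φ) (r - d * ψ) h (k - d * X) - VR ρb ρc f e φ ψ s r h k) =
      d * (rr 1 ρb ρc φ ψ * (X + (1 - 2 * h) - f) ^ 2 + DR ρb ρc f e φ ψ h) := by
  unfold VR VV V0 DR rr rs zR zRs
  field_simp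
  ring

lemma VLid (ρb ρc f e φ ψ s r h k d X : ℝ) (hg : 0 < φ + ψ) :
    rr 1 ρb ρc φ ψ * (d * X ^ 2) -
      (VL ρb ρc f e φ ψ (s - d * φ) (r - d * ψ) h (k - d * X) - VL ρb ρc f e φ ψ s r h k) =
      d * (rr 1 ρb ρc φ ψ * (X + (1 - 2 * h) + e) ^ 2 + DL ρb ρc f e φ ψ h) := by
  unfold VL VV V0 DL rr rs zL zLs
  field_simp
  ring

lemma DR_nonneg (ρb ρc f e φ ψ h : ℝ) (hb : 0 ≤ ρb) (hf : 0 ≤ f) (he : 0 ≤ e) (hφ : 0 ≤ φ)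
    (hg : 1 ≤ φ + ψ) (h0 : 0 ≤ h) (h1 : h ≤ 1) (hr : 0 ≤ rr 1 ρb ρc φ ψ)
    (hs : rr 1 ρb ρc φ ψ ≤ ρc * ψ) : 0 ≤ DR ρb ρc f e φ ψ h := by
  unfold DR
  have h1' : 0 ≤ 1 - h := by linarith
  have h2 : 0 ≤ ρc * ψ - rr 1 ρb ρc φ ψ := by linarith
  have h3 : 0 ≤ φ + ψ - 1 := by linarith
  positivity

lemma DL_nonneg (ρb ρc f e φ ψ h : ℝ) (hc : 0 ≤ ρc) (hf : 0 ≤ f) (he : 0 ≤ e) (hψ : 0 ≤ ψ)
    (hg : 1 ≤ φ + ψ) (h0 : 0 ≤ h) (h1 : h ≤ 1) (hr : 0 ≤ rr 1 ρb ρc φ ψ)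
    (hs : rr 1 ρb ρc φ ψ ≤ ρb * φ) : 0 ≤ DL ρb ρc f e φ ψ h := by
  unfold DL
  have h1' : 0 ≤ 1 - h := by linarith
  have h2 : 0 ≤ ρb * φ - rr 1 ρb ρc φ ψ := by linarith
  have h3 : 0 ≤ φ + ψ - 1 := by linarith
  positivity

lemma vertR (ρb ρc f e φ ψ s r h k d X : ℝ) (hd : 0 ≤ d) (hg : 1 ≤ φ + ψ)
    (hr : 0 ≤ rr 1 ρb ρc φ ψ) (hD : 0 ≤ DR ρb ρc f e φ ψ h) :
    VR ρb ρc f e φ ψ (s - d * φ) (r - d * ψ) h (k - d * X) - VR ρb ρc f e φ ψ s r h k ≤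
      rr 1 ρb ρc φ ψ * (d * X ^ 2) := by
  have := VRid ρb ρc f e φ ψ s r h k d X (by linarith)
  have h2 : 0 ≤ d * (rr 1 ρb ρc φ ψ * (X + (1 - 2 * h) - f) ^ 2 + DR ρb ρc f e φ ψ h) := by
    positivity
  linarith

lemma vertL (ρb ρc f e φ ψ s r h k d X : ℝ) (hd : 0 ≤ d) (hg : 1 ≤ φ + ψ)
    (hr : 0 ≤ rr 1 ρb ρc φ ψ) (hD : 0 ≤ DL ρb ρc f e φ ψ h) :
    VL ρb ρc f e φ ψ (s - d * φ) (r - d * ψ) h (k - d * X) - VL ρb ρc f e φ ψ s r h k ≤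
      rr 1 ρb ρc φ ψ * (d * X ^ 2) := by
  have := VLid ρb ρc f e φ ψ s r h k d X (by linarith)
  have h2 : 0 ≤ d * (rr 1 ρb ρc φ ψ * (X + (1 - 2 * h) + e) ^ 2 + DL ρb ρc f e φ ψ h) := by
    positivity
  linarith

/-- the vertex `k` with `ρ_k = 0` where we pass from `L` to `R` -/
lemma vertK (ρb ρc f e φ ψ s r h k d X : ℝ) (hg : 1 ≤ φ + ψ)
    (hr : rr 1 ρb ρc φ ψ = 0) (hDR : 0 ≤ DR ρb ρc f e φ ψ h) (hDL : 0 ≤ DL ρb ρc f e φ ψ h)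
    (hs1 : rs 1 ρb ρc s r ≤ 0) (hs2 : 0 ≤ rs 1 ρb ρc (s - d * φ) (r - d * ψ)) :
    VR ρb ρc f e φ ψ (s - d * φ) (r - d * ψ) h (k - d * X) - VL ρb ρc f e φ ψ s r h k ≤
      rr 1 ρb ρc φ ψ * (d * X ^ 2) := by
  have hg0 : 0 < φ + ψ := by linarith
  have e0 : ρb * φ + ρc * ψ + 1 * (1 - φ - ψ) = 0 := hr
  -- replace ρc ψ
  have e1 := VLid ρb ρc f e φ ψ s r h k d X hg0
  -- `VR - VL = (e + f) ζ s_ρ` at `ρ = 0`
  have e2 : ∀ s' r' k' : ℝ, VR ρb ρc f e φ ψ s' r' h k' - VL ρb ρc f e φ ψ s' r' h k' =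
      (e + f) * zL ρc f e φ ψ * rs 1 ρb ρc s' r' := by
    intro s' r' k'
    have ez : zR ρb f e φ ψ = zL ρc f e φ ψ := by
      unfold zR zL; linear_combination (-(f + e)) * e0
    unfold VR VL VV
    rw [ez]
    unfold zL zRs zLs rs
    ring
  have e3 : DL ρb ρc f e φ ψ h - DR ρb ρc f e φ ψ h = (e + f) * zL ρc f e φ ψ := by
    unfold DL DR
    rw [hr]
    unfold zL
    linear_combination (-(e * (f + e))) * e0
  have e4 : rs 1 ρb ρc (s - d * φ) (r - d * ψ) = rs 1 ρb ρc s r + d := by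
    unfold rs; linear_combination (-d) * e0
  have e5 := e2 (s - d * φ) (r - d * ψ) (k - d * X)
  rw [hr] at e1 ⊢
  rw [← e3] at e5
  rw [e4] at e5 hs2
  nlinarith [mul_nonneg hs2 hDR, mul_nonneg (neg_nonneg.mpr hs1) hDL]

/-- path summation -/
lemma path (M : ℕ) (P Q c e : ℕ → ℝ) (hv : ∀ v, v ≤ M → Q v - P v ≤ c v)
    (he : ∀ v, v < M → P (v + 1) - Q v ≤ e v) :
    Q M - P 0 ≤ ∑ v ∈ range (M + 1), c v + ∑ v ∈ range M, e v := by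
  induction M with
  | zero => simpa using hv 0 le_rfl
  | succ m ih =>
    have h1 := ih (fun v hv' => hv v (by omega)) (fun v hv' => he v (by omega))
    have h2 := hv (m + 1) le_rfl
    have h3 := he m (by omega)
    rw [sum_range_succ (fun v => c v) (m + 1), sum_range_succ (fun v => e v) m]
    linarith

end Pool.G1.ARC
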