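import Pool.Agent.Work.MP_b5407d_g1.Planar

/-!
# CHEB (note of helper38 with the complete corrected proof): statements for the split

`Stmt_ARC` : the arc inequality (section 1 of the note), helper38.
`Stmt_ORI` : orientation of triples of vertices.
`Stmt_ALT` : Chebyshev alternation (section 2).
`Stmt_CHEB`: the theorem (sections 3, 4: `Stmt_ARC → Stmt_ORI → Stmt_ALT → Stmt_CHEB`).
-/

set_option autoImplicit false

namespace Pool.G1

/-- `θ(m) = m` for `m ≥ 1`, `2 - 1/m` for `m ≤ 1` -/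
noncomputable def thm (m : ℝ) : ℝ := if 1 ≤ m then m else 2 - 1 / m

/-- Arc inequality.  Chain `q 0, …, q M` seen from `a`; `U i` velocity of `q i`; `h` normalised swept area.
The first two hypotheses are instances of `Stmt_ORI` (`a` a vertex outside the arc). -/
def Stmt_ARC : Prop :=
  ∀ (M : ℕ) (q U : ℕ → R2) (a : R2) (lam h : ℕ → ℝ) (r : ℝ × R2) (T mb mc lb lc : ℝ), 1 ≤ M →
    (∀ i j, i < j → j ≤ M → 0 < cp (q i - a) (q j - a)) →
    (∀ i j k, i < j → j < k → k ≤ M → 0 < cp (q j - q i) (q k - q i)) →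
    (∀ i, i < M → U (i + 1) - U i = lam i • (q (i + 1) - q i)) →
    h 0 = 0 → h M = 1 → (∀ i, i ≤ M → 0 ≤ h i ∧ h i ≤ 1) →
    (∀ i, i < M → cp (U i) (q (i + 1) - q i) = T * (h (i + 1) - h i)) →
    0 < mb → 0 < mc → 0 ≤ lb → 0 ≤ lc →
    U 0 = (T * lb) • (mb • (q 0 - a) + (q M - q 0)) →
    U M = (T * lc) • (mc • (q M - a) + (q 0 - q M)) →
    0 ≤ cp (mb • (q 0 - a) + (q M - q 0)) (q 1 - q 0) →
    0 ≤ cp (q (M - 1) - q M) (mc • (q M - a) + (q 0 - q M)) →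
    0 ≤ af r a → (∀ i, i ≤ M → 0 ≤ af r (q i)) →
    T ^ 2 * (af r a - thm mb * af r (q 0) - thm mc * af r (q M)) ≤
      cp (q 0 - a) (q M - a) * ∑ i ∈ Finset.range M,
        (-(cp (U i) (q (i + 1) - q i) *
            (lam i * (af r (q i) + af r (q (i + 1))) + dp r.2 (U i + U (i + 1))) / 2) -
          cp (U i) (q (i + 1) - q i) ^ 2 * (af r (q i) + af r (q (i + 1))) /
            cp (q i - a) (q (i + 1) - a))

/-- three vertices in cyclic order are positively oriented -/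
def Stmt_ORI : Prop :=
  ∀ (n : ℕ) (ν v : ℕ → R2) (ℓ : ℕ → ℝ), Poly n ν v ℓ → ∀ i j k : ℕ, i < j → j < k → k < i + n →
    0 < cp (v j - v i) (v k - v i)

/-- Chebyshev alternation for a periodic function on the vertices -/
def Stmt_ALT : Prop :=
  ∀ (n : ℕ) (ν v : ℕ → R2) (ℓ : ℕ → ℝ), Poly n ν v ℓ → ∀ H : ℕ → ℝ, (∀ i, H (i + n) = H i) →
    ∃ (c : ℝ × R2) (E : ℝ), 0 ≤ E ∧ (∀ i, |H i - af c (v i)| ≤ E) ∧
      (0 < E → ∃ i₀ i₁ i₂ i₃ : ℕ, i₀ < i₁ ∧ i₁ < i₂ ∧ i₂ < i₃ ∧ i₃ < i₀ + n ∧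
        H i₀ - af c (v i₀) = -E ∧ H i₁ - af c (v i₁) = E ∧
        H i₂ - af c (v i₂) = -E ∧ H i₃ - af c (v i₃) = E)

/-- `W i` = any upper bound of the width seen from edge `i` -/
def Stmt_CHEB : Prop :=
  ∀ (n : ℕ) (ν v : ℕ → R2) (ℓ : ℕ → ℝ), Poly n ν v ℓ → ∀ W ζ : ℕ → ℝ,
    (∀ i, W (i + n) = W i) → (∀ i, 0 < W i) → (∀ i k, dp (ν i) (v i - v k) ≤ W i) →
    (∀ i, ζ (i + n) = ζ i) → ∑ i ∈ Finset.range n, ℓ i * ζ i = 0 →
    ∃ b : R2, ∀ r : ℝ × R2, (∀ k, 0 ≤ af r (v k)) →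
      J2 n ν v ℓ r ζ +
        2 * ∑ i ∈ Finset.range n, EI v ℓ r i * (ζ i + dp b (ν i)) ^ 2 / W i ≤ 0

end Pool.G1
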