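import Pool.Agent.Work.MP_b5407d_g1.Pl_ARC1
import Pool.Agent.Work.MP_b5407d_g1.Pl_CHEBdefs

/-!
# CHEB: the abstract arc inequality for a whole chain
-/

set_option autoImplicit false

namespace Pool.G1.ARC

open Finset

structure Ch (M : ℕ) (φ ψ h S R K w d X : ℕ → ℝ) (mb mc : ℝ) : Prop where
  M1 : 1 ≤ M
  vS : ∀ v, v ≤ M → S (v + 1) = S v - d v * φ v
  vR : ∀ v, v ≤ M → R (v + 1) = R v - d v * ψ v
  vK : ∀ v, v ≤ M → K (v + 1) = K v - d v * X v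
  eφ : ∀ v, v < M → φ (v + 1) = φ v + w v * S (v + 1)
  eψ : ∀ v, v < M → ψ (v + 1) = ψ v + w v * R (v + 1)
  eh : ∀ v, v < M → h (v + 1) = h v + w v * K (v + 1)
  φ0 : φ 0 = 1
  ψ0 : ψ 0 = 0
  h0 : h 0 = 0
  S0 : S 0 = mb - 1
  R0 : R 0 = 1
  K0 : K 0 = 0
  φM : φ M = 0
  ψM : ψ M = 1
  hM : h M = 1
  SM : S (M + 1) = -1
  RM : R (M + 1) = 1 - mc
  KM : K (M + 1) = 0
  w0 : ∀ v, v < M → 0 < w v
  d0 : ∀ v, v ≤ M → 0 ≤ d v
  hh : ∀ v, v ≤ M → 0 ≤ h v ∧ h v ≤ 1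
  φn : ∀ v, v ≤ M → 0 ≤ φ v
  ψn : ∀ v, v ≤ M → 0 ≤ ψ v
  gg : ∀ v, v ≤ M → 1 ≤ φ v + ψ v
  g1 : ∀ v, 0 < v → v < M → 1 < φ v + ψ v
  cR : ∀ k v, k < M → k ≤ v → v ≤ M → ∃ α β : ℝ, 0 ≤ α ∧ 0 ≤ β ∧ 1 ≤ α + β ∧
    φ v = α * φ k ∧ ψ v = α * ψ k + β
  cL : ∀ k v, 0 < k → v ≤ k → k ≤ M → ∃ α β : ℝ, 0 ≤ α ∧ 0 ≤ β ∧ 1 ≤ α + β ∧
    φ v = α * φ k + β ∧ ψ v = α * ψ k

/-- total cost -/
noncomputable def cost (M : ℕ) (φ ψ K w d X : ℕ → ℝ) (ρa ρb ρc : ℝ) : ℝ :=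
  ∑ v ∈ range (M + 1), rr ρa ρb ρc (φ v) (ψ v) * (d v * X v ^ 2) +
    ∑ v ∈ range M, w v * K (v + 1) ^ 2 *
      (ρa - 2 * rr ρa ρb ρc (φ v) (ψ v) - 2 * rr ρa ρb ρc (φ (v + 1)) (ψ (v + 1)))

lemma cost_add (M : ℕ) (φ ψ K w d X : ℕ → ℝ) (ρa ρb ρc σa σb σc : ℝ) :
    cost M φ ψ K w d X (ρa + σa) (ρb + σb) (ρc + σc) =
      cost M φ ψ K w d X ρa ρb ρc + cost M φ ψ K w d X σa σb σc := by
  unfold cost
  have e1 : ∑ v ∈ range (M + 1), rr (ρa + σa) (ρb + σb) (ρc + σc) (φ v) (ψ v) * (d v * X v ^ 2) =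
      ∑ v ∈ range (M + 1), rr ρa ρb ρc (φ v) (ψ v) * (d v * X v ^ 2) +
      ∑ v ∈ range (M + 1), rr σa σb σc (φ v) (ψ v) * (d v * X v ^ 2) := by
    rw [← sum_add_distrib]
    exact sum_congr rfl (fun v _ => by unfold rr; ring)
  have e2 : ∑ v ∈ range M, w v * K (v + 1) ^ 2 *
      (ρa + σa - 2 * rr (ρa + σa) (ρb + σb) (ρc + σc) (φ v) (ψ v) -
        2 * rr (ρa + σa) (ρb + σb) (ρc + σc) (φ (v + 1)) (ψ (v + 1))) =
      ∑ v ∈ range M, w v * K (v + 1) ^ 2 *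
        (ρa - 2 * rr ρa ρb ρc (φ v) (ψ v) - 2 * rr ρa ρb ρc (φ (v + 1)) (ψ (v + 1))) +
      ∑ v ∈ range M, w v * K (v + 1) ^ 2 *
        (σa - 2 * rr σa σb σc (φ v) (ψ v) - 2 * rr σa σb σc (φ (v + 1)) (ψ (v + 1))) := by
    rw [← sum_add_distrib]
    exact sum_congr rfl (fun v _ => by unfold rr; ring)
  rw [e1, e2]; ring

lemma cost_smul (M : ℕ) (φ ψ K w d X : ℕ → ℝ) (c ρa ρb ρc : ℝ) :
    cost M φ ψ K w d X (c * ρa) (c * ρb) (c * ρc) = c * cost M φ ψ K w d X ρa ρb ρc := by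
  unfold cost
  rw [mul_add, mul_sum, mul_sum]
  congr 1
  · exact sum_congr rfl (fun v _ => by unfold rr; ring)
  · exact sum_congr rfl (fun v _ => by unfold rr; ring)

/-- the parameters `f`, `e` -/
noncomputable def ff (m : ℝ) : ℝ := max 0 ((1 - m) / m)

lemma ff_nonneg (m : ℝ) : 0 ≤ ff m := le_max_left _ _

lemma thm_ff (m : ℝ) (hm : 0 < m) : thm m = m - (2 * ff m * (1 - m) - ff m ^ 2 * m) := by
  unfold thm ff
  by_cases h : 1 ≤ m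
  · rw [if_pos h, max_eq_left]
    · ring
    · exact div_nonpos_of_nonpos_of_nonneg (by linarith) hm.le
  · rw [if_neg h, max_eq_right]
    · field_simp; ring
    · exact div_nonneg (by linarith) hm.le

variable {M : ℕ} {φ ψ h S R K w d X : ℕ → ℝ} {mb mc : ℝ}

/-- case `ρa = 0` -/
lemma chain0 (C : Ch M φ ψ h S R K w d X mb mc) (hmb : 0 < mb) (hmc : 0 < mc) (ρb ρc : ℝ)
    (hb : 0 ≤ ρb) (hc : 0 ≤ ρc) :
    0 - thm mb * ρb - thm mc * ρc ≤ cost M φ ψ K w d X 0 ρb ρc := by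
  set f := ff mc with hf
  set e := ff mb with he
  have hfn : 0 ≤ f := ff_nonneg mc
  have hen : 0 ≤ e := ff_nonneg mb
  have key := path M
    (fun v => V0 0 ρb ρc f e (φ v) (ψ v) (S v) (R v) (h v) (K v))
    (fun v => V0 0 ρb ρc f e (φ v) (ψ v) (S (v + 1)) (R (v + 1)) (h v) (K (v + 1)))
    (fun v => rr 0 ρb ρc (φ v) (ψ v) * (d v * X v ^ 2))
    (fun v => w v * K (v + 1) ^ 2 *
      (0 - 2 * rr 0 ρb ρc (φ v) (ψ v) - 2 * rr 0 ρb ρc (φ (v + 1)) (ψ (v + 1))))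
    (fun v hv => by
      show V0 0 ρb ρc f e (φ v) (ψ v) (S (v + 1)) (R (v + 1)) (h v) (K (v + 1)) -
        V0 0 ρb ρc f e (φ v) (ψ v) (S v) (R v) (h v) (K v) ≤ _
      rw [C.vS v hv, C.vR v hv, C.vK v hv]
      exact vert0 ρb ρc f e _ _ _ _ _ _ _ _ (C.d0 v hv) hb hc hfn hen (C.φn v hv) (C.ψn v hv)
        (C.hh v hv).1 (C.hh v hv).2)
    (fun v hv => by
      show V0 0 ρb ρc f e (φ (v + 1)) (ψ (v + 1)) (S (v + 1)) (R (v + 1)) (h (v + 1)) (K (v + 1)) -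
        V0 0 ρb ρc f e (φ v) (ψ v) (S (v + 1)) (R (v + 1)) (h v) (K (v + 1)) ≤ _
      rw [C.eφ v hv, C.eψ v hv, C.eh v hv]
      exact (edge0 ρb ρc f e _ _ _ _ _ _ _).le)
  have e1 : V0 0 ρb ρc f e (φ M) (ψ M) (S (M + 1)) (R (M + 1)) (h M) (K (M + 1)) -
      V0 0 ρb ρc f e (φ 0) (ψ 0) (S 0) (R 0) (h 0) (K 0) = 0 - thm mb * ρb - thm mc * ρc := by
    rw [C.φM, C.ψM, C.SM, C.RM, C.hM, C.KM, C.φ0, C.ψ0, C.S0, C.R0, C.h0, C.K0,
      thm_ff mb hmb, thm_ff mc hmc, ← hf, ← he]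
    unfold V0 rr rs; ring
  unfold cost
  rw [← e1]
  exact key

/-- case `ρa = 1`, `ρ = 0` at an interior vertex `k` -/
lemma chainK (C : Ch M φ ψ h S R K w d X mb mc) (hmb : 0 < mb) (hmc : 0 < mc) (ρb ρc : ℝ)
    (hb : 0 ≤ ρb) (hc : 0 ≤ ρc) (hr : ∀ v, v ≤ M → 0 ≤ rr 1 ρb ρc (φ v) (ψ v))
    (k : ℕ) (hk0 : 0 < k) (hkM : k < M) (hk : rr 1 ρb ρc (φ k) (ψ k) = 0) :
    1 - thm mb * ρb - thm mc * ρc ≤ cost M φ ψ K w d X 1 ρb ρc := by
  set f := ff mc with hf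
  set e := ff mb with he
  have hfn : 0 ≤ f := ff_nonneg mc
  have hen : 0 ≤ e := ff_nonneg mb
  -- densities
  have hDR : ∀ v, k ≤ v → v ≤ M → 0 ≤ DR ρb ρc f e (φ v) (ψ v) (h v) := by
    intro v h1 h2
    refine DR_nonneg ρb ρc f e _ _ _ hb hfn hen (C.φn v h2) (C.gg v h2) (C.hh v h2).1
      (C.hh v h2).2 (hr v h2) ?_
    obtain ⟨α, β, hα, hβ, hαβ, e1, e2⟩ := C.cR k v hkM h1 h2
    have h3 : rr 1 ρb ρc (φ v) (ψ v) - ρc * ψ v = α * (rr 1 ρb ρc (φ k) (ψ k)) -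
        α * (ρc * ψ k) - (α + β - 1) := by
      unfold rr; rw [e1, e2]; ring
    rw [hk] at h3
    have h4 : 0 ≤ α * (ρc * ψ k) := mul_nonneg hα (mul_nonneg hc (C.ψn k hkM.le))
    linarith
  have hDL : ∀ v, v ≤ k → 0 ≤ DL ρb ρc f e (φ v) (ψ v) (h v) := by
    intro v h1
    have h2 : v ≤ M := by omega
    refine DL_nonneg ρb ρc f e _ _ _ hc hfn hen (C.ψn v h2) (C.gg v h2) (C.hh v h2).1
      (C.hh v h2).2 (hr v h2) ?_
    obtain ⟨α, β, hα, hβ, hαβ, e1, e2⟩ := C.cL k v hk0 h1 hkM.le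
    have h3 : rr 1 ρb ρc (φ v) (ψ v) - ρb * φ v = α * (rr 1 ρb ρc (φ k) (ψ k)) -
        α * (ρb * φ k) - (α + β - 1) := by
      unfold rr; rw [e1, e2]; ring
    rw [hk] at h3
    have h4 : 0 ≤ α * (ρb * φ k) := mul_nonneg hα (mul_nonneg hb (C.φn k hkM.le))
    linarith
  -- slopes at k
  have hs1 : rs 1 ρb ρc (S k) (R k) ≤ 0 := by
    obtain ⟨k', rfl⟩ : ∃ k', k = k' + 1 := ⟨k - 1, by omega⟩
    have h1 := hr k' (by omega)
    have h2 : rr 1 ρb ρc (φ (k' + 1)) (ψ (k' + 1)) = rr 1 ρb ρc (φ k') (ψ k') +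
        w k' * rs 1 ρb ρc (S (k' + 1)) (R (k' + 1)) := by
      rw [C.eφ k' (by omega), C.eψ k' (by omega)]; unfold rr rs; ring
    rw [hk] at h2
    have h3 := C.w0 k' (by omega)
    by_contra hcon
    push Not at hcon
    have := mul_pos h3 hcon
    linarith
  have hs2 : 0 ≤ rs 1 ρb ρc (S (k + 1)) (R (k + 1)) := by
    have h1 := hr (k + 1) (by omega)
    have h2 : rr 1 ρb ρc (φ (k + 1)) (ψ (k + 1)) = rr 1 ρb ρc (φ k) (ψ k) +
        w k * rs 1 ρb ρc (S (k + 1)) (R (k + 1)) := by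
      rw [C.eφ k hkM, C.eψ k hkM]; unfold rr rs; ring
    rw [hk] at h2
    have h3 := C.w0 k hkM
    by_contra hcon
    push Not at hcon
    have := mul_neg_of_pos_of_neg h3 hcon
    linarith
  have hg : ∀ v, v ≤ M → 0 < φ v + ψ v := fun v hv => by have := C.gg v hv; linarith
  have key := path M
    (fun v => if v ≤ k then VL ρb ρc f e (φ v) (ψ v) (S v) (R v) (h v) (K v)
      else VR ρb ρc f e (φ v) (ψ v) (S v) (R v) (h v) (K v))
    (fun v => if v < k then VL ρb ρc f e (φ v) (ψ v) (S (v + 1)) (R (v + 1)) (h v) (K (v + 1))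
      else VR ρb ρc f e (φ v) (ψ v) (S (v + 1)) (R (v + 1)) (h v) (K (v + 1)))
    (fun v => rr 1 ρb ρc (φ v) (ψ v) * (d v * X v ^ 2))
    (fun v => w v * K (v + 1) ^ 2 *
      (1 - 2 * rr 1 ρb ρc (φ v) (ψ v) - 2 * rr 1 ρb ρc (φ (v + 1)) (ψ (v + 1))))
    (fun v hv => by
      rcases lt_trichotomy v k with hlt | heq | hgt
      · simp only [if_pos hlt, if_pos hlt.le]
        rw [C.vS v hv, C.vR v hv, C.vK v hv]
        exact vertL ρb ρc f e _ _ _ _ _ _ _ _ (C.d0 v hv) (C.gg v hv) (hr v hv)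
          (hDL v hlt.le)
      · subst heq
        simp only [lt_irrefl, if_false, le_refl, if_true]
        rw [C.vS v hv, C.vR v hv, C.vK v hv]
        rw [C.vS v hv, C.vR v hv] at hs2
        exact vertK ρb ρc f e _ _ _ _ _ _ _ _ (C.gg v hv) hk (hDR v le_rfl hv)
          (hDL v le_rfl) hs1 hs2
      · have h1 : ¬ v < k := by omega
        have h2 : ¬ v ≤ k := by omega
        simp only [if_neg h1, if_neg h2]
        rw [C.vS v hv, C.vR v hv, C.vK v hv]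
        exact vertR ρb ρc f e _ _ _ _ _ _ _ _ (C.d0 v hv) (C.gg v hv) (hr v hv)
          (hDR v hgt.le hv))
    (fun v hv => by
      have hg1 := hg v hv.le
      have hg2 := hg (v + 1) hv
      rw [C.eφ v hv, C.eψ v hv] at hg2
      by_cases hlt : v < k
      · have h1 : v + 1 ≤ k := hlt
        simp only [if_pos hlt, if_pos h1]
        rw [C.eφ v hv, C.eψ v hv, C.eh v hv]
        exact edgeL ρb ρc f e _ _ _ _ _ _ _ (C.w0 v hv) hg1 hg2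
      · have h1 : ¬ v + 1 ≤ k := by omega
        simp only [if_neg hlt, if_neg h1]
        rw [C.eφ v hv, C.eψ v hv, C.eh v hv]
        exact edgeR ρb ρc f e _ _ _ _ _ _ _ (C.w0 v hv) hg1 hg2)
  have h1 : ¬ M < k := by omega
  have h2 : (0 : ℕ) ≤ k := by omega
  simp only [if_neg h1, if_pos h2] at key
  have e1 : VR ρb ρc f e (φ M) (ψ M) (S (M + 1)) (R (M + 1)) (h M) (K (M + 1)) -
      VL ρb ρc f e (φ 0) (ψ 0) (S 0) (R 0) (h 0) (K 0) = 1 - thm mb * ρb - thm mc * ρc := by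
    rw [C.φM, C.ψM, C.SM, C.RM, C.hM, C.KM, C.φ0, C.ψ0, C.S0, C.R0, C.h0, C.K0,
      thm_ff mb hmb, thm_ff mc hmc, ← hf, ← he]
    unfold VR VL VV V0 rr rs zR zRs zL zLs; ring
  unfold cost
  rw [← e1]
  exact key

/-- the abstract arc inequality -/
theorem chain (C : Ch M φ ψ h S R K w d X mb mc) (hmb : 0 < mb) (hmc : 0 < mc) (ρa ρb ρc : ℝ)
    (ha : 0 ≤ ρa) (hb : 0 ≤ ρb) (hc : 0 ≤ ρc)
    (hr : ∀ v, v ≤ M → 0 ≤ rr ρa ρb ρc (φ v) (ψ v)) :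
    ρa - thm mb * ρb - thm mc * ρc ≤ cost M φ ψ K w d X ρa ρb ρc := by
  rcases ha.eq_or_lt with ha0 | ha0
  · rw [← ha0]; exact chain0 C hmb hmc ρb ρc hb hc
  have hM := C.M1
  rcases Nat.lt_or_ge M 2 with hM2 | hM2
  · -- M = 1
    have hM1 : M = 1 := by omega
    have h1 := chain0 C hmb hmc ρb ρc hb hc
    have h2 := cost_add M φ ψ K w d X ρa 0 0 0 ρb ρc
    simp only [add_zero, zero_add] at h2
    rw [h2]
    have h3 : cost M φ ψ K w d X ρa 0 0 = ρa := by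
      subst hM1
      unfold cost
      rw [sum_range_succ, sum_range_one, sum_range_one]
      have q1 := C.φM; have q2 := C.ψM; have q3 := C.φ0; have q4 := C.ψ0
      have q5 := C.eψ 0 (by norm_num); have q6 := C.vR 0 (by norm_num); have q7 := C.R0
      have q8 := C.eh 0 (by norm_num); have q9 := C.h0; have q10 := C.hM
      simp only [zero_add] at q5 q6 q8 ⊢
      rw [q6, q7, q4, q2] at q5
      have hw : w 0 = 1 := by linarith
      rw [hw, q9, q10] at q8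
      have hK : K 1 = 1 := by linarith
      rw [q1, q2, q3, q4, hw, hK]
      unfold rr; ring
    rw [h3]; linarith
  -- M ≥ 2
  have hpos : ∀ v, 0 < v → v < M → 0 < ρb * φ v + ρc * ψ v := by
    intro v h1 h2
    have h3 := hr v h2.le
    have h4 := C.g1 v h1 h2
    unfold rr at h3
    have : 0 < ρa * (φ v + ψ v - 1) := mul_pos ha0 (by linarith)
    nlinarith
  obtain ⟨k, hk, hmax⟩ := Finset.exists_max_image (Finset.Ioo 0 M)
    (fun v => (φ v + ψ v - 1) / (ρb * φ v + ρc * ψ v)) ⟨1, by simp; omega⟩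
  rw [Finset.mem_Ioo] at hk
  set τ := ρa * ((φ k + ψ k - 1) / (ρb * φ k + ρc * ψ k)) with hτ
  have hpk := hpos k hk.1 hk.2
  have hτ0 : 0 ≤ τ := by
    have := C.g1 k hk.1 hk.2
    rw [hτ]
    exact mul_nonneg ha (div_nonneg (by linarith) hpk.le)
  have hτ1 : τ ≤ 1 := by
    rw [hτ, ← mul_div_assoc, div_le_one hpk]
    have h3 := hr k hk.2.le
    unfold rr at h3
    nlinarith
  have hle : ∀ v, v ≤ M → ρa * (φ v + ψ v - 1) ≤ τ * (ρb * φ v + ρc * ψ v) := by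
    intro v hv
    rcases Nat.eq_zero_or_pos v with h1 | h1
    · subst h1
      rw [C.φ0, C.ψ0]
      have : 0 ≤ τ * ρb := mul_nonneg hτ0 hb
      nlinarith
    rcases hv.eq_or_lt with h2 | h2
    · subst h2
      rw [C.φM, C.ψM]
      have : 0 ≤ τ * ρc := mul_nonneg hτ0 hc
      nlinarith
    have h3 := hmax v (by rw [Finset.mem_Ioo]; exact ⟨h1, h2⟩)
    have hpv := hpos v h1 h2
    rw [div_le_iff₀ hpv] at h3
    have h4 := mul_le_mul_of_nonneg_left h3 ha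
    rw [hτ]; nlinarith
  have hek : τ * (ρb * φ k + ρc * ψ k) = ρa * (φ k + ψ k - 1) := by
    rw [hτ, mul_assoc, div_mul_cancel₀ _ hpk.ne']
  have h1 := chain0 C hmb hmc ((1 - τ) * ρb) ((1 - τ) * ρc)
    (mul_nonneg (by linarith) hb) (mul_nonneg (by linarith) hc)
  have h2 := chainK C hmb hmc (τ * ρb / ρa) (τ * ρc / ρa) (by positivity) (by positivity)
    (fun v hv => by
      have h3 := hle v hv
      have h4 : rr 1 (τ * ρb / ρa) (τ * ρc / ρa) (φ v) (ψ v) =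
          (τ * (ρb * φ v + ρc * ψ v) - ρa * (φ v + ψ v - 1)) / ρa := by
        unfold rr; field_simp; ring
      rw [h4]
      exact div_nonneg (by linarith) ha)
    k hk.1 hk.2 (by
      have h4 : rr 1 (τ * ρb / ρa) (τ * ρc / ρa) (φ k) (ψ k) =
          (τ * (ρb * φ k + ρc * ψ k) - ρa * (φ k + ψ k - 1)) / ρa := by
        unfold rr; field_simp; ring
      rw [h4, hek]; simp)
  have h3 := cost_smul M φ ψ K w d X ρa 1 (τ * ρb / ρa) (τ * ρc / ρa)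
  have h4 := cost_add M φ ψ K w d X (ρa * 1) (ρa * (τ * ρb / ρa)) (ρa * (τ * ρc / ρa)) 0
    ((1 - τ) * ρb) ((1 - τ) * ρc)
  have e1 : ρa * 1 + 0 = ρa := by ring
  have e2 : ρa * (τ * ρb / ρa) + (1 - τ) * ρb = ρb := by field_simp; ring
  have e3 : ρa * (τ * ρc / ρa) + (1 - τ) * ρc = ρc := by field_simp; ring
  rw [e1, e2, e3, h3] at h4
  rw [h4]
  have h5 := mul_le_mul_of_nonneg_left h2 ha
  have e4 : ρa * (1 - thm mb * (τ * ρb / ρa) - thm mc * (τ * ρc / ρa)) =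
      ρa - thm mb * (τ * ρb) - thm mc * (τ * ρc) := by field_simp
  rw [e4] at h5
  nlinarith [h5, h1]

end Pool.G1.ARC
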