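import Pool.Agent.Work.MP_b5407d_g1.Pl_ONE

/-!
# G1, balanced case: arc data (normalised) and the finite-dimensional statement

For an arc (interval of `Y = y²/2`, normalised variable `x ∈ [-1, 1]`) with a step load `θ`:
`g = mean θ`, `h = mean x θ`, `e = mean θ²`, `f = mean x θ²` (means over `[-1,1]`).
-/

set_option autoImplicit false

open Finset

namespace Pool.G1.Gap

/-- everything that is used about the load on one arc -/
structure ArcN (L g h e f : ℝ) : Prop where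
  lo : L ≤ g
  hi : g ≤ 2 / 3
  box0 : e ≤ (L + 2 / 3) * g - 2 / 3 * L
  boxp : e + f ≤ (L + 2 / 3) * (g + h) - 2 / 3 * L
  boxm : e - f ≤ (L + 2 / 3) * (g - h) - 2 / 3 * L
  /-- energy with an affine weight, `wm`, `wp` its values at `x = -1`, `x = 1` (chord bound of `1/w`) -/
  en : ∀ wm wp al be : ℝ, 0 < wm → 0 < wp →
    2 * al * g + 2 * be * h - (1 / wm + 1 / wp) / 2 * (al ^ 2 + be ^ 2 / 3) -
      (1 / wp - 1 / wm) * (al * be) / 3 ≤ (wm + wp) / 2 * e + (wp - wm) / 2 * f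
  /-- energy with an affine nonnegative weight, constant test -/
  en0 : ∀ wm wp al : ℝ, 0 ≤ wm → 0 ≤ wp →
    2 * al * ((wm + wp) / 2 * g + (wp - wm) / 2 * h) - al ^ 2 * ((wm + wp) / 2) ≤
      (wm + wp) / 2 * e + (wp - wm) / 2 * f

lemma ArcN.const {L t : ℝ} (h1 : L ≤ t) (h2 : t ≤ 2 / 3) : ArcN L t 0 (t ^ 2) 0 := by
  have h3 : 0 ≤ (t - L) * (2 / 3 - t) := mul_nonneg (by linarith) (by linarith)
  refine ⟨h1, h2, by nlinarith, by nlinarith, by nlinarith, ?_, ?_⟩
  · intro wm wp al be hm hp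
    -- mean over `[-1,1]` of `u (al + be x)² - 2 t (al + be x) + w t²`
    have e : (wm + wp) / 2 * t ^ 2 + (wp - wm) / 2 * 0 - (2 * al * t + 2 * be * 0 -
        (1 / wm + 1 / wp) / 2 * (al ^ 2 + be ^ 2 / 3) - (1 / wp - 1 / wm) * (al * be) / 3) =
        1 / (6 * wm) * (((al - be) - wm * t) ^ 2 + 2 * (al - wm * t) ^ 2) +
        1 / (6 * wp) * (((al + be) - wp * t) ^ 2 + 2 * (al - wp * t) ^ 2) := by
      field_simp
      ring
    have : 0 ≤ (wm + wp) / 2 * t ^ 2 + (wp - wm) / 2 * 0 - (2 * al * t + 2 * be * 0 -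
        (1 / wm + 1 / wp) / 2 * (al ^ 2 + be ^ 2 / 3) - (1 / wp - 1 / wm) * (al * be) / 3) := by
      rw [e]; positivity
    linarith
  · intro wm wp al hm hp
    nlinarith [mul_nonneg (add_nonneg hm hp) (sq_nonneg (al - t))]

/-- a nonnegative cubic has a nonnegative integral -/
lemma int_cubic (u v c0 c1 c2 c3 : ℝ) (huv : u ≤ v)
    (H : ∀ x, u ≤ x → x ≤ v → 0 ≤ c0 + c1 * x + c2 * x ^ 2 + c3 * x ^ 3) :
    0 ≤ c0 * (v - u) + c1 * (v ^ 2 - u ^ 2) / 2 + c2 * (v ^ 3 - u ^ 3) / 3 +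
      c3 * (v ^ 4 - u ^ 4) / 4 := by
  have h1 : 0 ≤ ∫ x in u..v, (c0 + c1 * x + c2 * x ^ 2 + c3 * x ^ 3) :=
    intervalIntegral.integral_nonneg huv fun x hx => H x hx.1 hx.2
  have h2 : ∫ x in u..v, (c0 + c1 * x + c2 * x ^ 2 + c3 * x ^ 3) =
      c0 * (v - u) + c1 * (v ^ 2 - u ^ 2) / 2 + c2 * (v ^ 3 - u ^ 3) / 3 +
      c3 * (v ^ 4 - u ^ 4) / 4 := by
    have i0 : IntervalIntegrable (fun _ : ℝ => c0) MeasureTheory.volume u v :=
      continuous_const.intervalIntegrable _ _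
    have i1 : IntervalIntegrable (fun x : ℝ => c1 * x) MeasureTheory.volume u v :=
      (by fun_prop : Continuous fun x : ℝ => c1 * x).intervalIntegrable _ _
    have i2 : IntervalIntegrable (fun x : ℝ => c2 * x ^ 2) MeasureTheory.volume u v :=
      (by fun_prop : Continuous fun x : ℝ => c2 * x ^ 2).intervalIntegrable _ _
    have i3 : IntervalIntegrable (fun x : ℝ => c3 * x ^ 3) MeasureTheory.volume u v :=
      (by fun_prop : Continuous fun x : ℝ => c3 * x ^ 3).intervalIntegrable _ _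
    rw [intervalIntegral.integral_add ((i0.add i1).add i2) i3,
      intervalIntegral.integral_add (i0.add i1) i2, intervalIntegral.integral_add i0 i1,
      intervalIntegral.integral_const_mul, intervalIntegral.integral_const_mul,
      intervalIntegral.integral_const_mul, integral_id, integral_pow, integral_pow,
      intervalIntegral.integral_const]
    simp only [smul_eq_mul]
    norm_num
    ring
  rw [← h2]
  exact h1

/-! ## moments of a step load over the pieces `[i, k)` in the variable `Z` -/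

/-- `∫ θ` -/
noncomputable def m0 (Z t : ℕ → ℝ) (i k : ℕ) : ℝ := ∑ j ∈ Ico i k, t j * (Z (j + 1) - Z j)
/-- `∫ Z θ` -/
noncomputable def m1 (Z t : ℕ → ℝ) (i k : ℕ) : ℝ :=
  ∑ j ∈ Ico i k, t j * ((Z (j + 1)) ^ 2 - (Z j) ^ 2) / 2
/-- `∫ θ²` -/
noncomputable def n0 (Z t : ℕ → ℝ) (i k : ℕ) : ℝ := ∑ j ∈ Ico i k, (t j) ^ 2 * (Z (j + 1) - Z j)
/-- `∫ Z θ²` -/
noncomputable def n1 (Z t : ℕ → ℝ) (i k : ℕ) : ℝ :=
  ∑ j ∈ Ico i k, (t j) ^ 2 * ((Z (j + 1)) ^ 2 - (Z j) ^ 2) / 2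

lemma arc_int (Z t : ℕ → ℝ) (a0 a1 b0 b1 c0 c1 c2 c3 : ℝ) (i k : ℕ) (hik : i ≤ k)
    (mono : ∀ j, i ≤ j → j < k → Z j ≤ Z (j + 1))
    (H : ∀ j, i ≤ j → j < k → ∀ x, Z j ≤ x → x ≤ Z (j + 1) →
      0 ≤ (a0 + a1 * x) * (t j) ^ 2 + (b0 + b1 * x) * t j + c0 + c1 * x + c2 * x ^ 2 +
        c3 * x ^ 3) :
    0 ≤ a0 * n0 Z t i k + a1 * n1 Z t i k + b0 * m0 Z t i k + b1 * m1 Z t i k +
      c0 * (Z k - Z i) + c1 * ((Z k) ^ 2 - (Z i) ^ 2) / 2 + c2 * ((Z k) ^ 3 - (Z i) ^ 3) / 3 +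
      c3 * ((Z k) ^ 4 - (Z i) ^ 4) / 4 := by
  induction k, hik using Nat.le_induction with
  | base => simp [n0, n1, m0, m1]
  | succ k hik ih =>
    have h1 := ih (fun j h1 h2 => mono j h1 (by omega)) (fun j h1 h2 => H j h1 (by omega))
    have h2 := int_cubic (Z k) (Z (k + 1)) (a0 * (t k) ^ 2 + b0 * t k + c0)
      (a1 * (t k) ^ 2 + b1 * t k + c1) c2 c3 (mono k hik (by omega)) (fun x hx1 hx2 => by
        have := H k hik (by omega) x hx1 hx2
        linarith)
    unfold n0 n1 m0 m1 at h1 ⊢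
    rw [sum_Ico_succ_top hik, sum_Ico_succ_top hik, sum_Ico_succ_top hik, sum_Ico_succ_top hik]
    linarith

/-- **arc data exist**: `D = Z k - Z i`, centre `c = (Z i + Z k)/2`;
`∫ θ = D g`, `∫ Z θ = D (c g + D h / 2)`, `∫ θ² = D e`, `∫ Z θ² = D (c e + D f / 2)` -/
theorem arc_data (Z t : ℕ → ℝ) (L : ℝ) (hL : ∀ j, L ≤ t j) (hC : ∀ j, t j ≤ 2 / 3)
    (i k : ℕ) (hik : i ≤ k) (mono : ∀ j, i ≤ j → j < k → Z j ≤ Z (j + 1)) :
    ∃ g h e f : ℝ, ArcN L g h e f ∧ m0 Z t i k = (Z k - Z i) * g ∧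
      m1 Z t i k = (Z k - Z i) * ((Z i + Z k) / 2 * g + (Z k - Z i) / 2 * h) ∧
      n0 Z t i k = (Z k - Z i) * e ∧
      n1 Z t i k = (Z k - Z i) * ((Z i + Z k) / 2 * e + (Z k - Z i) / 2 * f) := by
  have hZ : ∀ k', i ≤ k' → k' ≤ k → Z i ≤ Z k' := by
    intro k' h1
    induction k', h1 using Nat.le_induction with
    | base => intro _; exact le_rfl
    | succ k' h1 ih => intro h; exact (ih (by omega)).trans (mono k' h1 (by omega))
  have hZk : ∀ k', i ≤ k' → k' ≤ k → Z k' ≤ Z k := by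
    intro k' h1 h2
    have : ∀ m, k' ≤ m → m ≤ k → Z k' ≤ Z m := by
      intro m hm
      induction m, hm using Nat.le_induction with
      | base => intro _; exact le_rfl
      | succ m hm ih => intro h; exact (ih (by omega)).trans (mono m (by omega) (by omega))
    exact this k h2 le_rfl
  rcases (sub_nonneg.mpr (hZ k hik le_rfl)).eq_or_lt with h0 | hD
  · have hz : ∀ j ∈ Ico i k, Z (j + 1) = Z j := by
      intro j hj
      obtain ⟨j1, j2⟩ := mem_Ico.mp hj
      have a1 := hZ j j1 j2.le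
      have a2 := hZk (j + 1) (by omega) (by omega)
      have a3 := mono j j1 j2
      linarith
    refine ⟨t i, 0, t i ^ 2, 0, ArcN.const (hL i) (hC i), ?_, ?_, ?_, ?_⟩
    all_goals rw [← h0, zero_mul]
    · exact sum_eq_zero fun j hj => by rw [hz j hj]; ring
    · exact sum_eq_zero fun j hj => by rw [hz j hj]; ring
    · exact sum_eq_zero fun j hj => by rw [hz j hj]; ring
    · exact sum_eq_zero fun j hj => by rw [hz j hj]; ring
  have mono' : ∀ j, i ≤ j → j < k → Z j ≤ Z (j + 1) := mono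
  have rng : ∀ j, i ≤ j → j < k → ∀ x, Z j ≤ x → x ≤ Z (j + 1) → Z i ≤ x ∧ x ≤ Z k := by
    intro j h1 h2 x hx1 hx2
    exact ⟨(hZ j h1 (by omega)).trans hx1, hx2.trans (hZk (j + 1) (by omega) (by omega))⟩
  obtain ⟨D, hDe⟩ : ∃ D, D = Z k - Z i := ⟨_, rfl⟩
  obtain ⟨c, hce⟩ : ∃ c, c = (Z i + Z k) / 2 := ⟨_, rfl⟩
  rw [← hDe] at hD ⊢
  rw [← hce]
  have hZk' : Z k = c + D / 2 := by rw [hDe, hce]; ring
  have hZi' : Z i = c - D / 2 := by rw [hDe, hce]; ring
  have hD0 := hD.ne'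
  set M0 := m0 Z t i k with hM0
  set M1 := m1 Z t i k with hM1
  set N0 := n0 Z t i k with hN0
  set N1 := n1 Z t i k with hN1
  -- general inequality for integrands, in the normalised variable
  have gen := fun a0 a1 b0 b1 c0 c1 c2 c3 => arc_int Z t a0 a1 b0 b1 c0 c1 c2 c3 i k hik mono'
  refine ⟨M0 / D, (M1 - c * M0) / (D * D / 2), N0 / D, (N1 - c * N0) / (D * D / 2),
    ⟨?_, ?_, ?_, ?_, ?_, ?_, ?_⟩, by field_simp, by field_simp; ring, by field_simp,
    by field_simp; ring⟩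
  · rw [le_div_iff₀ hD]
    have := gen 0 0 1 0 (-L) 0 0 0 (fun j h1 h2 x _ _ => by have := hL j; linarith)
    rw [← hDe] at this
    linarith
  · rw [div_le_iff₀ hD]
    have := gen 0 0 (-1) 0 (2 / 3) 0 0 0 (fun j h1 h2 x _ _ => by have := hC j; linarith)
    rw [← hDe] at this
    linarith
  · have := gen (-1) 0 (L + 2 / 3) 0 (-(2 / 3) * L) 0 0 0 (fun j h1 h2 x _ _ => by
      have := mul_nonneg (sub_nonneg.mpr (hL j)) (sub_nonneg.mpr (hC j)); nlinarith)
    rw [← hDe] at this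
    rw [div_le_iff₀ hD]
    have e : ((L + 2 / 3) * (M0 / D) - 2 / 3 * L) * D = (L + 2 / 3) * M0 - 2 / 3 * L * D := by
      field_simp
    rw [e]
    linarith
  · have := gen (-(1 - 2 / D * c)) (-(2 / D)) ((L + 2 / 3) * (1 - 2 / D * c))
      ((L + 2 / 3) * (2 / D)) (-(2 / 3) * L * (1 - 2 / D * c)) (-(2 / 3) * L * (2 / D)) 0 0
      (fun j h1 h2 x hx1 hx2 => by
        obtain ⟨r1, r2⟩ := rng j h1 h2 x hx1 hx2
        have hw : 0 ≤ 1 - 2 / D * c + 2 / D * x := by
          have : 1 - 2 / D * c + 2 / D * x = 2 / D * (x - (c - D / 2)) := by field_simp; ring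
          rw [this, ← hZi']
          exact mul_nonneg (by positivity) (by linarith)
        have h3 := mul_nonneg hw (mul_nonneg (sub_nonneg.mpr (hL j)) (sub_nonneg.mpr (hC j)))
        nlinarith)
    have e : N0 / D + (N1 - c * N0) / (D * D / 2) - ((L + 2 / 3) * (M0 / D +
        (M1 - c * M0) / (D * D / 2)) - 2 / 3 * L) = -(1 / D) * (-(1 - 2 / D * c) * N0 +
        -(2 / D) * N1 + (L + 2 / 3) * (1 - 2 / D * c) * M0 + (L + 2 / 3) * (2 / D) * M1 +
        -(2 / 3) * L * (1 - 2 / D * c) * (Z k - Z i) +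
        -(2 / 3) * L * (2 / D) * ((Z k) ^ 2 - (Z i) ^ 2) / 2 +
        0 * ((Z k) ^ 3 - (Z i) ^ 3) / 3 + 0 * ((Z k) ^ 4 - (Z i) ^ 4) / 4) := by
      rw [hZk', hZi']
      field_simp
      ring
    have h4 := mul_nonneg (by positivity : (0:ℝ) ≤ 1 / D) this
    linarith
  · have := gen (-(1 + 2 / D * c)) (2 / D) ((L + 2 / 3) * (1 + 2 / D * c))
      (-((L + 2 / 3) * (2 / D))) (-(2 / 3) * L * (1 + 2 / D * c)) (2 / 3 * L * (2 / D)) 0 0
      (fun j h1 h2 x hx1 hx2 => by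
        obtain ⟨r1, r2⟩ := rng j h1 h2 x hx1 hx2
        have hw : 0 ≤ 1 + 2 / D * c - 2 / D * x := by
          have : 1 + 2 / D * c - 2 / D * x = 2 / D * ((c + D / 2) - x) := by field_simp; ring
          rw [this, ← hZk']
          exact mul_nonneg (by positivity) (by linarith)
        have h3 := mul_nonneg hw (mul_nonneg (sub_nonneg.mpr (hL j)) (sub_nonneg.mpr (hC j)))
        nlinarith)
    have e : N0 / D - (N1 - c * N0) / (D * D / 2) - ((L + 2 / 3) * (M0 / D -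
        (M1 - c * M0) / (D * D / 2)) - 2 / 3 * L) = -(1 / D) * (-(1 + 2 / D * c) * N0 +
        (2 / D) * N1 + (L + 2 / 3) * (1 + 2 / D * c) * M0 + -((L + 2 / 3) * (2 / D)) * M1 +
        -(2 / 3) * L * (1 + 2 / D * c) * (Z k - Z i) +
        2 / 3 * L * (2 / D) * ((Z k) ^ 2 - (Z i) ^ 2) / 2 +
        0 * ((Z k) ^ 3 - (Z i) ^ 3) / 3 + 0 * ((Z k) ^ 4 - (Z i) ^ 4) / 4) := by
      rw [hZk', hZi']
      field_simp
      ring
    have h4 := mul_nonneg (by positivity : (0:ℝ) ≤ 1 / D) this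
    linarith
  · intro wm wp al be hm hp
    obtain ⟨w0, hw0⟩ : ∃ w0, w0 = (wm + wp) / 2 := ⟨_, rfl⟩
    obtain ⟨w1, hw1⟩ : ∃ w1, w1 = (wp - wm) / 2 := ⟨_, rfl⟩
    obtain ⟨u0, hu0⟩ : ∃ u0, u0 = (1 / wm + 1 / wp) / 2 := ⟨_, rfl⟩
    obtain ⟨u1, hu1⟩ : ∃ u1, u1 = (1 / wp - 1 / wm) / 2 := ⟨_, rfl⟩
    obtain ⟨q, hq⟩ : ∃ q, q = 2 / D := ⟨_, rfl⟩
    have hqD : q * D = 2 := by rw [hq]; field_simp
    have hq0 : 0 < q := by rw [hq]; positivity
    have := gen (w0 - w1 * (q * c)) (w1 * q) (-2 * (al - be * (q * c))) (-2 * (be * q))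
      ((u0 - u1 * (q * c)) * (al - be * (q * c)) ^ 2)
      (2 * (u0 - u1 * (q * c)) * (al - be * (q * c)) * (be * q) +
        u1 * q * (al - be * (q * c)) ^ 2)
      ((u0 - u1 * (q * c)) * (be * q) ^ 2 + 2 * (u1 * q) * (al - be * (q * c)) * (be * q))
      (u1 * q * (be * q) ^ 2)
      (fun j h1 h2 x hx1 hx2 => by
        obtain ⟨r1, r2⟩ := rng j h1 h2 x hx1 hx2
        obtain ⟨x', hx'⟩ : ∃ x', x' = q * x - q * c := ⟨_, rfl⟩
        have b1 : -1 ≤ x' := by
          have : x' + 1 = q * (x - (c - D / 2)) := by rw [hx']; linear_combination (-1 / 2) * hqD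
          have h3 : 0 ≤ q * (x - (c - D / 2)) := mul_nonneg hq0.le (by rw [← hZi']; linarith)
          linarith
        have b2 : x' ≤ 1 := by
          have : 1 - x' = q * ((c + D / 2) - x) := by rw [hx']; linear_combination (-1 / 2) * hqD
          have h3 : 0 ≤ q * ((c + D / 2) - x) := mul_nonneg hq0.le (by rw [← hZk']; linarith)
          linarith
        have ew : w0 + w1 * x' = (wm * (1 - x') + wp * (1 + x')) / 2 := by rw [hw0, hw1]; ring
        have hw : 0 < w0 + w1 * x' := by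
          rw [ew]
          rcases le_total 0 x' with h | h
          · nlinarith [mul_nonneg hm.le (by linarith : (0:ℝ) ≤ 1 - x')]
          · nlinarith [mul_nonneg hp.le (by linarith : (0:ℝ) ≤ 1 + x')]
        have hwu : (w0 + w1 * x') * (u0 + u1 * x') - 1 =
            (1 - x' ^ 2) / 4 * ((wm - wp) ^ 2 / (wm * wp)) := by
          rw [hw0, hw1, hu0, hu1]; field_simp; ring
        have hwu0 : 0 ≤ (w0 + w1 * x') * (u0 + u1 * x') - 1 := by
          rw [hwu]
          exact mul_nonneg (by nlinarith) (by positivity)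
        have key : 0 ≤ (w0 + w1 * x') * ((w0 + w1 * x') * (t j) ^ 2 -
            2 * (al + be * x') * t j + (u0 + u1 * x') * (al + be * x') ^ 2) := by
          have : (w0 + w1 * x') * ((w0 + w1 * x') * (t j) ^ 2 -
            2 * (al + be * x') * t j + (u0 + u1 * x') * (al + be * x') ^ 2) =
            ((w0 + w1 * x') * t j - (al + be * x')) ^ 2 +
            ((w0 + w1 * x') * (u0 + u1 * x') - 1) * (al + be * x') ^ 2 := by ring
          rw [this]
          exact add_nonneg (sq_nonneg _) (mul_nonneg hwu0 (sq_nonneg _))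
        have key2 := nonneg_of_mul_nonneg_right key hw
        have e : (w0 - w1 * (q * c) + w1 * q * x) * (t j) ^ 2 +
            (-2 * (al - be * (q * c)) + -2 * (be * q) * x) * t j +
            (u0 - u1 * (q * c)) * (al - be * (q * c)) ^ 2 +
            (2 * (u0 - u1 * (q * c)) * (al - be * (q * c)) * (be * q) +
              u1 * q * (al - be * (q * c)) ^ 2) * x +
            ((u0 - u1 * (q * c)) * (be * q) ^ 2 +
              2 * (u1 * q) * (al - be * (q * c)) * (be * q)) * x ^ 2 +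
            u1 * q * (be * q) ^ 2 * x ^ 3 =
            (w0 + w1 * x') * (t j) ^ 2 - 2 * (al + be * x') * t j +
              (u0 + u1 * x') * (al + be * x') ^ 2 := by
          rw [hx']; ring
        rw [e]
        exact key2)
    rw [hZk', hZi', hq] at this
    have e : (wm + wp) / 2 * (N0 / D) + (wp - wm) / 2 * ((N1 - c * N0) / (D * D / 2)) -
        (2 * al * (M0 / D) + 2 * be * ((M1 - c * M0) / (D * D / 2)) -
        (1 / wm + 1 / wp) / 2 * (al ^ 2 + be ^ 2 / 3) - (1 / wp - 1 / wm) * (al * be) / 3) =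
        1 / D * ((w0 - w1 * (2 / D * c)) * N0 + w1 * (2 / D) * N1 +
        -2 * (al - be * (2 / D * c)) * M0 + -2 * (be * (2 / D)) * M1 +
        (u0 - u1 * (2 / D * c)) * (al - be * (2 / D * c)) ^ 2 * (c + D / 2 - (c - D / 2)) +
        (2 * (u0 - u1 * (2 / D * c)) * (al - be * (2 / D * c)) * (be * (2 / D)) +
          u1 * (2 / D) * (al - be * (2 / D * c)) ^ 2) *
          ((c + D / 2) ^ 2 - (c - D / 2) ^ 2) / 2 +
        ((u0 - u1 * (2 / D * c)) * (be * (2 / D)) ^ 2 +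
          2 * (u1 * (2 / D)) * (al - be * (2 / D * c)) * (be * (2 / D))) *
          ((c + D / 2) ^ 3 - (c - D / 2) ^ 3) / 3 +
        u1 * (2 / D) * (be * (2 / D)) ^ 2 * ((c + D / 2) ^ 4 - (c - D / 2) ^ 4) / 4) := by
      have f1 : (1 / wm + 1 / wp) / 2 = u0 := hu0.symm
      have f2 : (1 / wp - 1 / wm) * (al * be) / 3 = 2 * u1 * (al * be) / 3 := by rw [hu1]; ring
      rw [f1, f2, ← hw0, ← hw1]
      field_simp
      ring
    have h4 := mul_nonneg (by positivity : (0:ℝ) ≤ 1 / D) this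
    linarith
  · intro wm wp al hm hp
    obtain ⟨w0, hw0⟩ : ∃ w0, w0 = (wm + wp) / 2 := ⟨_, rfl⟩
    obtain ⟨w1, hw1⟩ : ∃ w1, w1 = (wp - wm) / 2 := ⟨_, rfl⟩
    obtain ⟨q, hq⟩ : ∃ q, q = 2 / D := ⟨_, rfl⟩
    have hqD : q * D = 2 := by rw [hq]; field_simp
    have hq0 : 0 < q := by rw [hq]; positivity
    have := gen (w0 - w1 * (q * c)) (w1 * q) (-2 * al * (w0 - w1 * (q * c))) (-2 * al * (w1 * q))
      (al ^ 2 * (w0 - w1 * (q * c))) (al ^ 2 * (w1 * q)) 0 0
      (fun j h1 h2 x hx1 hx2 => by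
        obtain ⟨r1, r2⟩ := rng j h1 h2 x hx1 hx2
        obtain ⟨x', hx'⟩ : ∃ x', x' = q * x - q * c := ⟨_, rfl⟩
        have b1 : -1 ≤ x' := by
          have : x' + 1 = q * (x - (c - D / 2)) := by rw [hx']; linear_combination (-1 / 2) * hqD
          have h3 : 0 ≤ q * (x - (c - D / 2)) := mul_nonneg hq0.le (by rw [← hZi']; linarith)
          linarith
        have b2 : x' ≤ 1 := by
          have : 1 - x' = q * ((c + D / 2) - x) := by rw [hx']; linear_combination (-1 / 2) * hqD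
          have h3 : 0 ≤ q * ((c + D / 2) - x) := mul_nonneg hq0.le (by rw [← hZk']; linarith)
          linarith
        have hw : 0 ≤ w0 + w1 * x' := by
          have ew : w0 + w1 * x' = (wm * (1 - x') + wp * (1 + x')) / 2 := by rw [hw0, hw1]; ring
          rw [ew]
          have := mul_nonneg hm (by linarith : (0:ℝ) ≤ 1 - x')
          have := mul_nonneg hp (by linarith : (0:ℝ) ≤ 1 + x')
          linarith
        have key := mul_nonneg hw (sq_nonneg (t j - al))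
        have e : (w0 - w1 * (q * c) + w1 * q * x) * (t j) ^ 2 +
            (-2 * al * (w0 - w1 * (q * c)) + -2 * al * (w1 * q) * x) * t j +
            al ^ 2 * (w0 - w1 * (q * c)) + al ^ 2 * (w1 * q) * x + 0 * x ^ 2 + 0 * x ^ 3 =
            (w0 + w1 * x') * (t j - al) ^ 2 := by
          rw [hx']; ring
        rw [e]
        exact key)
    rw [hZk', hZi', hq] at this
    have e : (wm + wp) / 2 * (N0 / D) + (wp - wm) / 2 * ((N1 - c * N0) / (D * D / 2)) -
        (2 * al * ((wm + wp) / 2 * (M0 / D) + (wp - wm) / 2 * ((M1 - c * M0) / (D * D / 2))) -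
          al ^ 2 * ((wm + wp) / 2)) =
        1 / D * ((w0 - w1 * (2 / D * c)) * N0 + w1 * (2 / D) * N1 +
        -2 * al * (w0 - w1 * (2 / D * c)) * M0 + -2 * al * (w1 * (2 / D)) * M1 +
        al ^ 2 * (w0 - w1 * (2 / D * c)) * (c + D / 2 - (c - D / 2)) +
        al ^ 2 * (w1 * (2 / D)) * ((c + D / 2) ^ 2 - (c - D / 2) ^ 2) / 2 +
        0 * ((c + D / 2) ^ 3 - (c - D / 2) ^ 3) / 3 +
        0 * ((c + D / 2) ^ 4 - (c - D / 2) ^ 4) / 4) := by
      rw [← hw0, ← hw1]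
      field_simp
      ring
    have h4 := mul_nonneg (by positivity : (0:ℝ) ≤ 1 / D) this
    linarith

end Pool.G1.Gap
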