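import Pool.Agent.Work.MP_b5407d_g1.PEU

/-!
# G1: load calculus for planar polygons

A load is an `n`-periodic `z : ℕ → ℝ`; it is closed if `Σ z_i E_i = 0`, `E_i = ℓ_i • rt (ν i)` the edge
vectors of `F`.  The polygon `Z` with the edges `z_i E_i` has vertices `Pz`, support numbers `Hz` and
`ve ν (Hz z) i = Pz z (i+1)`.  With `one = (1, 0)` (constant weight):
`B2 one δ (Hz z) = Σ ℓ δ z`, `B2 one (Hz z) (Hz z') = Σ_{j<i} z_j z'_i cp E_j E_i`.
Closing trick: `Σ <b, m_i> E_i = ar • rt b` (`m_i` midpoints).  Minkowski test bodies.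
-/

set_option autoImplicit false

open Finset

namespace Pool.G1

namespace Ld

/-- edge vector -/
noncomputable def E (ν : ℕ → R2) (ℓ : ℕ → ℝ) (i : ℕ) : R2 := ℓ i • rt (ν i)

/-- constant weight one -/
def w1 : ℝ × R2 := (1, (0, 0))

/-- linear weight `<b, x>` -/
def wl (b : R2) : ℝ × R2 := (0, b)

/-- vertices of the load polygon -/
noncomputable def Pz (ν : ℕ → R2) (ℓ z : ℕ → ℝ) (i : ℕ) : R2 := ∑ j ∈ range i, z j • E ν ℓ j

/-- support numbers of the load polygon -/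
noncomputable def Hz (ν : ℕ → R2) (ℓ z : ℕ → ℝ) (i : ℕ) : ℝ := dp (ν i) (Pz ν ℓ z i)

/-- closed periodic load -/
structure Closed (n : ℕ) (ν : ℕ → R2) (ℓ z : ℕ → ℝ) : Prop where
  per : ∀ i, z (i + n) = z i
  cl : ∑ i ∈ range n, z i • E ν ℓ i = 0

lemma dp_add_right (a b c : R2) : dp a (b + c) = dp a b + dp a c := by
  simp only [dp, Prod.fst_add, Prod.snd_add]; ring

lemma dp_sub_right (a b c : R2) : dp a (b - c) = dp a b - dp a c := by
  simp only [dp, Prod.fst_sub, Prod.snd_sub]; ring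

lemma dp_smul_right (t : ℝ) (a b : R2) : dp a (t • b) = t * dp a b := by
  simp only [dp, Prod.smul_fst, Prod.smul_snd, smul_eq_mul]; ring

lemma dp_comm (a b : R2) : dp a b = dp b a := by unfold dp; ring

lemma dp_rt_rt (a b : R2) : dp (rt a) (rt b) = dp a b := by simp only [dp, rt]; ring

lemma dp_rt (a b : R2) : dp a (rt b) = cp b a := by simp only [dp, rt, cp]; ring

lemma cp_rt_rt (a b : R2) : cp (rt a) (rt b) = cp a b := by simp only [cp, rt]; ring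

lemma cp_self (a : R2) : cp a a = 0 := by simp only [cp]; ring

lemma cp_anti (a b : R2) : cp a b = -cp b a := by simp only [cp]; ring

lemma cp_add_right (a b c : R2) : cp a (b + c) = cp a b + cp a c := by
  simp only [cp, Prod.fst_add, Prod.snd_add]; ring

lemma cp_smul_right (t : ℝ) (a b : R2) : cp a (t • b) = t * cp a b := by
  simp only [cp, Prod.smul_fst, Prod.smul_snd, smul_eq_mul]; ring

lemma cp_smul_left (t : ℝ) (a b : R2) : cp (t • a) b = t * cp a b := by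
  simp only [cp, Prod.smul_fst, Prod.smul_snd, smul_eq_mul]; ring

lemma dp_sum_right {ι : Type*} (s : Finset ι) (a : R2) (f : ι → R2) :
    dp a (∑ i ∈ s, f i) = ∑ i ∈ s, dp a (f i) := by
  classical
  induction s using Finset.induction_on with
  | empty => simp [dp]
  | insert i s hi ih => rw [sum_insert hi, sum_insert hi, ← ih, dp_add_right]

lemma cp_sum_left {ι : Type*} (s : Finset ι) (a : R2) (f : ι → R2) :
    cp (∑ i ∈ s, f i) a = ∑ i ∈ s, cp (f i) a := by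
  classical
  induction s using Finset.induction_on with
  | empty => simp [cp]
  | insert i s hi ih =>
    rw [sum_insert hi, sum_insert hi, ← ih]
    simp only [cp, Prod.fst_add, Prod.snd_add]; ring

lemma cp_sum_right {ι : Type*} (s : Finset ι) (a : R2) (f : ι → R2) :
    cp a (∑ i ∈ s, f i) = ∑ i ∈ s, cp a (f i) := by
  rw [cp_anti, cp_sum_left, ← sum_neg_distrib]
  exact sum_congr rfl fun i _ => by rw [cp_anti a (f i)]

variable {n : ℕ} {ν v : ℕ → R2} {ℓ : ℕ → ℝ}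

lemma Pz_zero (z : ℕ → ℝ) : Pz ν ℓ z 0 = 0 := by simp [Pz]

lemma Pz_succ (z : ℕ → ℝ) (i : ℕ) : Pz ν ℓ z (i + 1) = Pz ν ℓ z i + z i • E ν ℓ i :=
  sum_range_succ _ _

/-- the edge `i` of `Z` is orthogonal to `ν i` -/
lemma Hz_succ (z : ℕ → ℝ) (i : ℕ) : dp (ν i) (Pz ν ℓ z (i + 1)) = Hz ν ℓ z i := by
  rw [Pz_succ, dp_add_right, dp_smul_right, E, dp_smul_right, dp_rt, cp_self, Hz]; ring

lemma E_per (h : Poly n ν v ℓ) (i : ℕ) : E ν ℓ (i + n) = E ν ℓ i := by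
  simp only [E, h.pℓ, h.pν]

lemma Pz_per (h : Poly n ν v ℓ) {z : ℕ → ℝ} (hz : Closed n ν ℓ z) (i : ℕ) :
    Pz ν ℓ z (i + n) = Pz ν ℓ z i := by
  induction i with
  | zero => rw [Pz_zero, zero_add]; exact hz.cl
  | succ i ih =>
    rw [show i + 1 + n = (i + n) + 1 by ring, Pz_succ, Pz_succ, ih, hz.per, E_per h]

lemma Hz_per (h : Poly n ν v ℓ) {z : ℕ → ℝ} (hz : Closed n ν ℓ z) (i : ℕ) :
    Hz ν ℓ z (i + n) = Hz ν ℓ z i := by
  simp only [Hz, Pz_per h hz, h.pν]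

/-- the velocity of the vertex `v (i+1)` under the support numbers of `Z` is the vertex of `Z` -/
lemma ve_Hz (h : Poly n ν v ℓ) (z : ℕ → ℝ) (i : ℕ) :
    ve ν (Hz ν ℓ z) i = Pz ν ℓ z (i + 1) :=
  PEUaux.ve_dp h i _ _ (Hz_succ z i).symm rfl

lemma Poly_E (h : Poly n ν v ℓ) (i : ℕ) : E ν ℓ i = v (i + 1) - v i := by
  rw [h.edge i, E]; abel

/-! ## constant weight -/

lemma af_w1 (x : R2) : af w1 x = 1 := by simp [af, w1, dp]

lemma EI_w1 (i : ℕ) : EI v ℓ w1 i = ℓ i := by simp only [EI, af_w1]; ring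

lemma J1_w1 (δ : ℕ → ℝ) : J1 n v ℓ w1 δ = ∑ i ∈ range n, δ i * ℓ i := by
  simp only [J1, EI_w1]

lemma J0_w1 : J0 n v w1 = ar n v := by
  unfold J0 ar
  refine sum_congr rfl fun i _ => ?_
  rw [af_w1, af_w1, show (w1 : ℝ × R2).1 = 1 from rfl]; ring

/-- `B2` with constant weight: `2 A(δ, Z) = Σ ℓ δ z` -/
lemma B2_Hz (h : Poly n ν v ℓ) {δ z : ℕ → ℝ} (hδ : ∀ i, δ (i + n) = δ i)
    (hz : Closed n ν ℓ z) :
    B2 n ν v ℓ w1 δ (Hz ν ℓ z) = ∑ i ∈ range n, ℓ i * δ i * z i := by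
  rw [← PEUaux.shift (f := fun i => ℓ i * δ i * z i) (fun i => by rw [h.pℓ, hδ, hz.per])]
  unfold B2
  refine sum_congr rfl fun i _ => ?_
  rw [ve_Hz h, ve_Hz h, af_w1, af_w1, show (w1 : ℝ × R2).2 = 0 from rfl]
  have h1 : Pz ν ℓ z (i + 1 + 1) - Pz ν ℓ z (i + 1) = z (i + 1) • E ν ℓ (i + 1) := by
    rw [Pz_succ z (i + 1)]; abel
  have h2 : dp (z (i + 1) • E ν ℓ (i + 1)) (rt (ν (i + 1))) = z (i + 1) * ℓ (i + 1) := by
    rw [dp_comm, dp_smul_right, E, dp_smul_right, dp_rt_rt, h.unit]; ring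
  rw [h1, h2]
  simp only [dp, Prod.fst_zero, Prod.snd_zero]
  ring

/-- mixed area form of loads, `2 A(Z, Z')` -/
noncomputable def MA (n : ℕ) (ν : ℕ → R2) (ℓ z z' : ℕ → ℝ) : ℝ :=
  ∑ i ∈ range n, ℓ i * Hz ν ℓ z i * z' i

/-- the pair form -/
lemma MA_pairs (z z' : ℕ → ℝ) :
    MA n ν ℓ z z' = ∑ i ∈ range n, ∑ j ∈ range i, z j * z' i * cp (E ν ℓ j) (E ν ℓ i) := by
  unfold MA
  refine sum_congr rfl fun i _ => ?_
  rw [Hz, Pz, dp_sum_right, mul_sum, sum_mul]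
  refine sum_congr rfl fun j _ => ?_
  rw [dp_smul_right, E, E, dp_smul_right, dp_rt, cp_smul_left, cp_smul_right, cp_rt_rt]
  ring

lemma B2_Hz_Hz (h : Poly n ν v ℓ) {z z' : ℕ → ℝ} (hz : Closed n ν ℓ z)
    (hz' : Closed n ν ℓ z') :
    B2 n ν v ℓ w1 (Hz ν ℓ z) (Hz ν ℓ z') = MA n ν ℓ z z' :=
  B2_Hz h (Hz_per h hz) hz'

lemma B2_symm (h : Poly n ν v ℓ) (r : ℝ × R2) {δ η : ℕ → ℝ} (hδ : ∀ i, δ (i + n) = δ i)
    (hη : ∀ i, η (i + n) = η i) : B2 n ν v ℓ r δ η = B2 n ν v ℓ r η δ :=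
  (blk_PEU n ν v ℓ h).2.2.2.2.2.1 r δ η hδ hη

lemma MA_symm (h : Poly n ν v ℓ) {z z' : ℕ → ℝ} (hz : Closed n ν ℓ z)
    (hz' : Closed n ν ℓ z') : MA n ν ℓ z z' = MA n ν ℓ z' z := by
  rw [← B2_Hz_Hz h hz hz', ← B2_Hz_Hz h hz' hz]
  exact B2_symm h w1 (Hz_per h hz) (Hz_per h hz')

/-! ## the polygon itself is the load one -/

lemma closed_one (h : Poly n ν v ℓ) : Closed n ν ℓ (fun _ => 1) := by
  refine ⟨fun _ => rfl, ?_⟩
  have h1 : ∀ i ∈ range n, (1 : ℝ) • E ν ℓ i = v (i + 1) - v i := fun i _ => by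
    rw [one_smul, Poly_E h]
  rw [sum_congr rfl h1, sum_range_sub, show v n = v 0 by simpa using h.pv 0, sub_self]

lemma Pz_one (h : Poly n ν v ℓ) (i : ℕ) : Pz ν ℓ (fun _ => 1) i = v i - v 0 := by
  unfold Pz
  have h1 : ∀ j ∈ range i, (1 : ℝ) • E ν ℓ j = v (j + 1) - v j := fun j _ => by
    rw [one_smul, Poly_E h]
  rw [sum_congr rfl h1, sum_range_sub]

/-- distances of the edges from the point `x` -/
noncomputable def hx (ν v : ℕ → R2) (x : R2) (i : ℕ) : ℝ := dp (ν i) (v i - x)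

lemma hx_per (h : Poly n ν v ℓ) (x : R2) (i : ℕ) : hx ν v x (i + n) = hx ν v x i := by
  simp only [hx, h.pν, h.pv]

lemma Hz_one (h : Poly n ν v ℓ) (i : ℕ) : Hz ν ℓ (fun _ => 1) i = hx ν v (v 0) i := by
  rw [Hz, Pz_one h]; rfl

/-- closedness in terms of normals -/
lemma closed_iff (z : ℕ → ℝ) :
    (∑ i ∈ range n, z i • E ν ℓ i = 0) ↔ (∑ i ∈ range n, (z i * ℓ i) • ν i = 0) := by
  have h1 : ∑ i ∈ range n, z i • E ν ℓ i = rt (∑ i ∈ range n, (z i * ℓ i) • ν i) := by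
    have : ∀ s : Finset ℕ, ∑ i ∈ s, z i • E ν ℓ i = rt (∑ i ∈ s, (z i * ℓ i) • ν i) := by
      intro s
      induction s using Finset.induction_on with
      | empty => ext <;> simp [rt]
      | insert i s hi ih =>
        rw [sum_insert hi, sum_insert hi, ih]
        ext
        · simp only [E, rt, Prod.fst_add, Prod.snd_add, Prod.smul_fst, Prod.smul_snd,
            smul_eq_mul]; ring
        · simp only [E, rt, Prod.fst_add, Prod.snd_add, Prod.smul_fst, Prod.smul_snd,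
            smul_eq_mul]; ring
    exact this _
  rw [h1]
  constructor
  · intro h2
    have a := congrArg Prod.fst h2
    have b := congrArg Prod.snd h2
    simp only [rt, Prod.fst_zero, Prod.snd_zero] at a b
    ext
    · simpa using b
    · simpa using a
  · intro h2; rw [h2]; simp [rt]

/-! ## closing trick -/

/-- midpoint of the edge `i` -/
noncomputable def mid (v : ℕ → R2) (i : ℕ) : R2 := (1 / 2 : ℝ) • (v i + v (i + 1))

lemma mid_per (h : Poly n ν v ℓ) (i : ℕ) : mid v (i + n) = mid v i := by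
  simp only [mid, h.pv, show i + n + 1 = (i + 1) + n by ring]

lemma EI_mid (r : ℝ × R2) (i : ℕ) : EI v ℓ r i = ℓ i * af r (mid v i) := by
  simp only [EI, af, dp, mid, Prod.smul_fst, Prod.smul_snd, Prod.fst_add, Prod.snd_add,
    smul_eq_mul]
  ring

/-- `Σ <b, m_i> E_i = area • rt b` -/
lemma sum_mid_E (h : Poly n ν v ℓ) (b : R2) :
    ∑ i ∈ range n, dp b (mid v i) • E ν ℓ i = ar n v • rt b := by
  have key : ∀ i, dp b (mid v i) • E ν ℓ i =
      (cp (v i) (v (i + 1)) / 2) • rt b +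
        (1 / 2 : ℝ) • (dp b (v (i + 1)) • v (i + 1) - dp b (v i) • v i) := by
    intro i
    rw [Poly_E h]
    ext
    · simp only [mid, dp, cp, rt, Prod.fst_add, Prod.snd_add, Prod.fst_sub, Prod.smul_fst,
        Prod.smul_snd, smul_eq_mul]; ring
    · simp only [mid, dp, cp, rt, Prod.fst_add, Prod.snd_add, Prod.snd_sub, Prod.smul_fst,
        Prod.smul_snd, smul_eq_mul]; ring
  rw [sum_congr rfl fun i _ => key i, sum_add_distrib, ← sum_smul, ← smul_sum,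
    sum_range_sub (fun i => dp b (v i) • v i), show v n = v 0 by simpa using h.pv 0, sub_self,
    smul_zero, add_zero]
  rfl

/-- the closing vector of a load `u`: `b = -(1/area) Σ u_i ℓ_i ν_i` -/
noncomputable def clv (n : ℕ) (ν v : ℕ → R2) (ℓ u : ℕ → ℝ) : R2 :=
  (-(1 / ar n v)) • ∑ i ∈ range n, (u i * ℓ i) • ν i

/-- the closed load `u + <b, m>` -/
noncomputable def clo (n : ℕ) (ν v : ℕ → R2) (ℓ u : ℕ → ℝ) (i : ℕ) : ℝ :=
  u i + dp (clv n ν v ℓ u) (mid v i)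

lemma sum_smul_E (s : Finset ℕ) (z : ℕ → ℝ) :
    ∑ i ∈ s, z i • E ν ℓ i = rt (∑ i ∈ s, (z i * ℓ i) • ν i) := by
  induction s using Finset.induction_on with
  | empty => ext <;> simp [rt]
  | insert i s hi ih =>
    rw [sum_insert hi, sum_insert hi, ih]
    ext
    · simp only [E, rt, Prod.fst_add, Prod.snd_add, Prod.smul_fst, Prod.smul_snd,
        smul_eq_mul]; ring
    · simp only [E, rt, Prod.fst_add, Prod.snd_add, Prod.smul_fst, Prod.smul_snd,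
        smul_eq_mul]; ring

lemma closed_clo (h : Poly n ν v ℓ) {u : ℕ → ℝ} (hu : ∀ i, u (i + n) = u i) :
    Closed n ν ℓ (clo n ν v ℓ u) := by
  refine ⟨fun i => by simp only [clo, hu, mid_per h], ?_⟩
  have hS : ar n v ≠ 0 := (PEUaux.ar_pos h).ne'
  have h1 : ∀ i ∈ range n, clo n ν v ℓ u i • E ν ℓ i =
      u i • E ν ℓ i + dp (clv n ν v ℓ u) (mid v i) • E ν ℓ i := fun i _ => by
    rw [clo, add_smul]
  rw [sum_congr rfl h1, sum_add_distrib, sum_mid_E h, sum_smul_E, clv]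
  ext
  · simp only [rt, Prod.fst_add, Prod.smul_fst, Prod.smul_snd, smul_eq_mul, Prod.fst_zero]
    field_simp
    ring
  · simp only [rt, Prod.snd_add, Prod.smul_fst, Prod.smul_snd, smul_eq_mul, Prod.snd_zero]
    field_simp
    ring

/-- moment free `η` does not see the closing term -/
lemma sum_clo_free {u η : ℕ → ℝ} (hη : ∀ r : ℝ × R2, J1 n v ℓ r η = 0) :
    ∑ i ∈ range n, ℓ i * η i * clo n ν v ℓ u i = ∑ i ∈ range n, ℓ i * η i * u i := by
  have h1 := hη (wl (clv n ν v ℓ u))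
  unfold J1 at h1
  have h2 : ∑ i ∈ range n, ℓ i * η i * dp (clv n ν v ℓ u) (mid v i) = 0 := by
    rw [← h1]
    refine sum_congr rfl fun i _ => ?_
    rw [EI_mid]
    simp only [af, wl]
    ring
  have h3 : ∀ i ∈ range n, ℓ i * η i * clo n ν v ℓ u i =
      ℓ i * η i * u i + ℓ i * η i * dp (clv n ν v ℓ u) (mid v i) := fun i _ => by
    rw [clo]; ring
  rw [sum_congr rfl h3, sum_add_distrib, h2, add_zero]

/-- with the origin at the centroid `x`, `A(F, Z)` does not see the closing term -/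
lemma sum_clo_hx (h : Poly n ν v ℓ) {u : ℕ → ℝ} {x : R2}
    (hc : ∀ b : R2, J0 n v (wl b) = dp b x * ar n v) :
    ∑ i ∈ range n, ℓ i * hx ν v x i * clo n ν v ℓ u i =
      ∑ i ∈ range n, ℓ i * hx ν v x i * u i +
        2 * dp (clv n ν v ℓ u) x * ar n v := by
  have h1 := (blk_PEU n ν v ℓ h).2.2.2.1 x (wl (clv n ν v ℓ u))
  rw [hc] at h1
  unfold J1 at h1
  have h2 : ∑ i ∈ range n, ℓ i * hx ν v x i * dp (clv n ν v ℓ u) (mid v i) =
      ∑ i ∈ range n, dp (ν i) (v i - x) * EI v ℓ (wl (clv n ν v ℓ u)) i := by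
    refine sum_congr rfl fun i _ => ?_
    rw [EI_mid]
    simp only [af, wl, hx]
    ring
  have h3 : ∀ i ∈ range n, ℓ i * hx ν v x i * clo n ν v ℓ u i =
      ℓ i * hx ν v x i * u i + ℓ i * hx ν v x i * dp (clv n ν v ℓ u) (mid v i) := fun i _ => by
    rw [clo]; ring
  rw [sum_congr rfl h3, sum_add_distrib, h2, h1]
  simp only [af, wl]
  ring

/-! ## bilinearity of `B2` in the velocities, Minkowski test bodies -/

lemma ve_add (ν : ℕ → R2) (δ η : ℕ → ℝ) (i : ℕ) :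
    ve ν (fun j => δ j + η j) i = ve ν δ i + ve ν η i := by
  unfold ve
  ext
  · simp only [rt, Prod.fst_add, Prod.fst_sub, Prod.smul_fst, smul_eq_mul]; ring
  · simp only [rt, Prod.snd_add, Prod.snd_sub, Prod.smul_snd, smul_eq_mul]; ring

lemma ve_smul (ν : ℕ → R2) (c : ℝ) (δ : ℕ → ℝ) (i : ℕ) :
    ve ν (fun j => c * δ j) i = c • ve ν δ i := by
  unfold ve
  ext
  · simp only [rt, Prod.fst_sub, Prod.smul_fst, smul_eq_mul]; ring
  · simp only [rt, Prod.snd_sub, Prod.smul_snd, smul_eq_mul]; ring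

lemma B2_lin (n : ℕ) (ν v : ℕ → R2) (ℓ : ℕ → ℝ) (r : ℝ × R2) (δ η ζ : ℕ → ℝ) (c : ℝ) :
    B2 n ν v ℓ r δ (fun j => η j + c * ζ j) = B2 n ν v ℓ r δ η + c * B2 n ν v ℓ r δ ζ := by
  unfold B2
  rw [mul_sum, ← sum_add_distrib]
  refine sum_congr rfl fun i _ => ?_
  rw [ve_add ν η (fun j => c * ζ j) (i + 1), ve_add ν η (fun j => c * ζ j) i, ve_smul, ve_smul]
  simp only [dp, Prod.fst_add, Prod.snd_add, Prod.fst_sub, Prod.snd_sub, Prod.smul_fst,
    Prod.smul_snd, smul_eq_mul]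
  ring

lemma B2_linl (n : ℕ) (ν v : ℕ → R2) (ℓ : ℕ → ℝ) (r : ℝ × R2) (δ η ζ : ℕ → ℝ) (c : ℝ) :
    B2 n ν v ℓ r (fun j => η j + c * ζ j) δ = B2 n ν v ℓ r η δ + c * B2 n ν v ℓ r ζ δ := by
  unfold B2
  rw [mul_sum, ← sum_add_distrib]
  refine sum_congr rfl fun i _ => ?_
  ring

/-- expansion of `J''` along a test direction -/
lemma J2_test (h : Poly n ν v ℓ) (r : ℝ × R2) {η ζ : ℕ → ℝ} (hη : ∀ i, η (i + n) = η i)
    (hζ : ∀ i, ζ (i + n) = ζ i) (c : ℝ) :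
    J2 n ν v ℓ r (fun j => η j + c * ζ j) =
      J2 n ν v ℓ r η + 2 * c * B2 n ν v ℓ r η ζ + c ^ 2 * J2 n ν v ℓ r ζ := by
  unfold J2
  rw [B2_lin, B2_linl, B2_linl, B2_symm h r hζ hη]
  ring

lemma B2_hx (h : Poly n ν v ℓ) {δ : ℕ → ℝ} (hδ : ∀ i, δ (i + n) = δ i) (x : R2) :
    B2 n ν v ℓ w1 δ (hx ν v x) = ∑ i ∈ range n, ℓ i * δ i := by
  have h1 := (blk_PEU n ν v ℓ h).2.2.2.2.2.2.1 x w1 δ hδ
  have h2 : (hx ν v x) = fun i => dp (ν i) (v i - x) := rfl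
  rw [h2, h1, J1_w1, af_w1]
  have h3 : ∑ i ∈ range n, δ i * ℓ i = ∑ i ∈ range n, ℓ i * δ i :=
    sum_congr rfl fun i _ => mul_comm _ _
  rw [h3]; ring

lemma sum_hx (h : Poly n ν v ℓ) (x : R2) :
    ∑ i ∈ range n, ℓ i * hx ν v x i = 2 * ar n v :=
  (blk_PEU n ν v ℓ h).2.2.1 x

/-- `Σ ℓ_i H_i(Z) = 2 A(F, Z) = Σ ℓ_i h_i z_i` -/
lemma sum_Hz (h : Poly n ν v ℓ) {z : ℕ → ℝ} (hz : Closed n ν ℓ z) (x : R2) :
    ∑ i ∈ range n, ℓ i * Hz ν ℓ z i = ∑ i ∈ range n, ℓ i * hx ν v x i * z i := by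
  rw [← B2_hx h (Hz_per h hz) x, ← B2_Hz h (hx_per h x) hz]
  exact B2_symm h w1 (Hz_per h hz) (hx_per h x)

/-- Minkowski's inequality with a test body: for `Σ ℓ η = 0` and a closed load `z`, for every real `t`,
`-(1/2) J''_η[1] ≥ t Σ ℓ η z - t^2 (a^2/S - |Z|)`, `a = A(F, Z)`, `|Z| = MA z z / 2`. -/
lemma minkowski_test (hM : Stmt_PMI) (h : Poly n ν v ℓ) {η z : ℕ → ℝ}
    (hη : ∀ i, η (i + n) = η i) (hη0 : ∑ i ∈ range n, ℓ i * η i = 0)
    (hz : Closed n ν ℓ z) (x : R2) (t : ℝ) :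
    t * ∑ i ∈ range n, ℓ i * η i * z i -
        t ^ 2 * ((1 / 2 * ∑ i ∈ range n, ℓ i * hx ν v x i * z i) ^ 2 / ar n v -
          1 / 2 * MA n ν ℓ z z) ≤
      -(1 / 2 * J2 n ν v ℓ w1 η) := by
  set S := ar n v with hS
  have hSp : 0 < S := PEUaux.ar_pos h
  set a : ℝ := 1 / 2 * ∑ i ∈ range n, ℓ i * hx ν v x i * z i with ha
  -- the test direction
  set ζ : ℕ → ℝ := fun j => Hz ν ℓ z j + (-(a / S)) * hx ν v x j with hζ
  have hζp : ∀ i, ζ (i + n) = ζ i := fun i => by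
    simp only [hζ, Hz_per h hz, hx_per h]
  have hζ0 : ∑ i ∈ range n, ℓ i * ζ i = 0 := by
    have e : ∀ i ∈ range n, ℓ i * ζ i =
        ℓ i * Hz ν ℓ z i + (-(a / S)) * (ℓ i * hx ν v x i) := fun i _ => by
      simp only [hζ]; ring
    rw [sum_congr rfl e, sum_add_distrib, ← mul_sum, sum_hx h, sum_Hz h hz x, ← hS]
    have : ∑ i ∈ range n, ℓ i * hx ν v x i * z i = 2 * a := by rw [ha]; ring
    rw [this]
    field_simp
    ring
  have h1 := hM n ν v ℓ h w1 (fun k => by rw [af_w1]; norm_num)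
    (fun j => η j + t * ζ j) (fun i => by simp only [hη, hζp]) (by
      have e : ∀ i ∈ range n, ℓ i * (η i + t * ζ i) = ℓ i * η i + t * (ℓ i * ζ i) :=
        fun i _ => by ring
      rw [sum_congr rfl e, sum_add_distrib, ← mul_sum, hη0, hζ0]; ring)
  rw [J2_test h w1 hη hζp] at h1
  have h2 : B2 n ν v ℓ w1 η ζ = ∑ i ∈ range n, ℓ i * η i * z i := by
    rw [hζ, B2_lin, B2_Hz h hη hz, B2_hx h hη, hη0]; ring
  have h3 : J2 n ν v ℓ w1 ζ = MA n ν ℓ z z - 2 * (a ^ 2 / S) := by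
    have e1 : J2 n ν v ℓ w1 ζ = J2 n ν v ℓ w1 (Hz ν ℓ z) +
        2 * (-(a / S)) * B2 n ν v ℓ w1 (Hz ν ℓ z) (hx ν v x) +
        (-(a / S)) ^ 2 * J2 n ν v ℓ w1 (hx ν v x) :=
      J2_test h w1 (Hz_per h hz) (hx_per h x) _
    have e2 : J2 n ν v ℓ w1 (Hz ν ℓ z) = MA n ν ℓ z z := B2_Hz_Hz h hz hz
    have e3 : B2 n ν v ℓ w1 (Hz ν ℓ z) (hx ν v x) = 2 * a := by
      rw [B2_hx h (Hz_per h hz), sum_Hz h hz x, ha]; ring
    have e4 : J2 n ν v ℓ w1 (hx ν v x) = 2 * S := by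
      unfold J2; rw [B2_hx h (hx_per h x), sum_hx h]
    rw [e1, e2, e3, e4]
    field_simp
    ring
  rw [h2, h3] at h1
  nlinarith [h1]

end Ld

end Pool.G1
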