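import Pool.Agent.Work.MP_b5407d_g1.Pl_CHEBs
import Pool.Agent.Work.MP_b5407d_g1.Pl_Loads

/-!
# Theorem CHEB: assembly (sections 3 and 4 of the note of helper38)
-/

set_option autoImplicit false

open Finset

namespace Pool.G1

namespace CH

variable {n : ℕ} {ν v : ℕ → R2} {ℓ u : ℕ → ℝ}

/-! ### vector identities -/

/-- expansion of a vector -/
lemma pl (x y L : R2) : cp x y • L = cp L y • x + cp x L • y := by
  ext
  · simp only [cp, Prod.fst_add, Prod.smul_fst, smul_eq_mul]; ring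
  · simp only [cp, Prod.snd_add, Prod.smul_snd, smul_eq_mul]; ring

lemma cp_add_left (a b c : R2) : cp (a + b) c = cp a c + cp b c := by
  simp only [cp, Prod.fst_add, Prod.snd_add]; ring

lemma cp_neg_left (a b : R2) : cp (-a) b = -cp a b := by
  simp only [cp, Prod.fst_neg, Prod.snd_neg]; ring

lemma cp_neg_right (a b : R2) : cp a (-b) = -cp a b := by
  simp only [cp, Prod.fst_neg, Prod.snd_neg]; ring

lemma cp_swap (a b : R2) : cp a b = -cp b a := by simp only [cp]; ring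

/-- oriented area: change of the base point -/
lemma tri1 (a b c : R2) : cp (b - a) (c - a) = cp (a - c) (b - c) := by
  simp only [cp, Prod.fst_sub, Prod.snd_sub]; ring

lemma tri2 (a b c : R2) : cp (b - a) (c - a) = cp (b - a) (c - b) := by
  simp only [cp, Prod.fst_sub, Prod.snd_sub]; ring

/-! ### velocities of the vertices -/

/-- velocity of the vertex `v i` -/
noncomputable def Uv (n : ℕ) (ν : ℕ → R2) (u : ℕ → ℝ) (i : ℕ) : R2 := ve ν u (i + (n - 1))

lemma Uv_succ (h : Poly n ν v ℓ) (hu : ∀ i, u (i + n) = u i) (i : ℕ) :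
    Uv n ν u (i + 1) = ve ν u i := by
  unfold Uv
  have h3 := h.n3
  rw [show i + 1 + (n - 1) = i + n by omega]
  exact PEUaux.per_ve h hu i

lemma Uv_per (h : Poly n ν v ℓ) (hu : ∀ i, u (i + n) = u i) (i : ℕ) :
    Uv n ν u (i + n) = Uv n ν u i := by
  unfold Uv
  rw [show i + n + (n - 1) = i + (n - 1) + n by ring]
  exact PEUaux.per_ve h hu _

lemma ve_left (ν : ℕ → R2) (δ : ℕ → ℝ) (i : ℕ) (h : cp (ν i) (ν (i + 1)) ≠ 0) :
    dp (ν i) (ve ν δ i) = δ i := by
  unfold ve
  rw [Ld.dp_smul_right, Ld.dp_sub_right, Ld.dp_smul_right, Ld.dp_smul_right, Ld.dp_rt, Ld.dp_rt,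
    Ld.cp_self, cp_swap (ν (i + 1)) (ν i)]
  field_simp
  ring

lemma ve_right (ν : ℕ → R2) (δ : ℕ → ℝ) (i : ℕ) (h : cp (ν i) (ν (i + 1)) ≠ 0) :
    dp (ν (i + 1)) (ve ν δ i) = δ (i + 1) := by
  unfold ve
  rw [Ld.dp_smul_right, Ld.dp_sub_right, Ld.dp_smul_right, Ld.dp_smul_right, Ld.dp_rt, Ld.dp_rt,
    Ld.cp_self]
  field_simp
  ring

lemma edge_eq (h : Poly n ν v ℓ) (i : ℕ) : v (i + 1) - v i = ℓ i • rt (ν i) := by
  rw [h.edge i]; abel

lemma prev_eq (h : Poly n ν v ℓ) (i : ℕ) :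
    v i - v (i + (n - 1)) = ℓ (i + (n - 1)) • rt (ν (i + (n - 1))) := by
  have h3 := h.n3
  have e := edge_eq h (i + (n - 1))
  rw [show i + (n - 1) + 1 = i + n by omega, h.pv] at e
  exact e

lemma dpU_next (h : Poly n ν v ℓ) (hu : ∀ i, u (i + n) = u i) (i : ℕ) :
    dp (ν i) (Uv n ν u i) = u i := by
  have h3 := h.n3
  have e := ve_right ν u (i + (n - 1)) (h.turn _).ne'
  rw [show i + (n - 1) + 1 = i + n by omega, h.pν, hu] at e
  exact e

lemma cpU_next (h : Poly n ν v ℓ) (hu : ∀ i, u (i + n) = u i) (i : ℕ) :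
    cp (Uv n ν u i) (v (i + 1) - v i) = ℓ i * u i := by
  rw [edge_eq h, Ld.cp_smul_right, ← dpU_next h hu i]
  simp only [cp, dp, rt]; ring

lemma cpU_prev (h : Poly n ν v ℓ) (i : ℕ) :
    cp (Uv n ν u i) (v i - v (i + (n - 1))) = ℓ (i + (n - 1)) * u (i + (n - 1)) := by
  rw [prev_eq h, Ld.cp_smul_right, ← ve_left ν u (i + (n - 1)) (h.turn _).ne']
  simp only [cp, dp, rt, Uv]; ring

/-- stretching factor of edge `i` -/
noncomputable def lm (n : ℕ) (ν : ℕ → R2) (ℓ u : ℕ → ℝ) (i : ℕ) : ℝ :=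
  dp (Uv n ν u (i + 1) - Uv n ν u i) (rt (ν i)) / ℓ i

lemma U_diff (h : Poly n ν v ℓ) (hu : ∀ i, u (i + n) = u i) (i : ℕ) :
    Uv n ν u (i + 1) - Uv n ν u i = lm n ν ℓ u i • (v (i + 1) - v i) := by
  rw [edge_eq h, smul_smul]
  unfold lm
  rw [div_mul_cancel₀ _ (h.pos i).ne']
  have h1 : dp (ν i) (Uv n ν u (i + 1) - Uv n ν u i) = 0 := by
    rw [Ld.dp_sub_right, dpU_next h hu, Uv_succ h hu, ve_left ν u i (h.turn i).ne', sub_self]
  have h2 := h.unit i
  generalize Uv n ν u (i + 1) - Uv n ν u i = V at h1 ⊢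
  simp only [dp] at h1 h2
  ext
  · simp only [dp, rt, Prod.smul_fst, smul_eq_mul]
    linear_combination (ν i).1 * h1 - V.1 * h2
  · simp only [dp, rt, Prod.smul_snd, smul_eq_mul]
    linear_combination (ν i).2 * h1 - V.2 * h2

/-- the term of edge `i` in `J''` -/
noncomputable def Ft (n : ℕ) (ν v : ℕ → R2) (ℓ : ℕ → ℝ) (r : ℝ × R2) (u : ℕ → ℝ) (i : ℕ) : ℝ :=
  cp (Uv n ν u i) (v (i + 1) - v i) *
    (lm n ν ℓ u i * (af r (v i) + af r (v (i + 1))) + dp r.2 (Uv n ν u i + Uv n ν u (i + 1))) / 2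

lemma lm_per (h : Poly n ν v ℓ) (hu : ∀ i, u (i + n) = u i) (i : ℕ) :
    lm n ν ℓ u (i + n) = lm n ν ℓ u i := by
  unfold lm
  rw [show i + n + 1 = i + 1 + n by ring, Uv_per h hu, Uv_per h hu, h.pν, h.pℓ]

lemma Ft_per (h : Poly n ν v ℓ) (r : ℝ × R2) (hu : ∀ i, u (i + n) = u i) (i : ℕ) :
    Ft n ν v ℓ r u (i + n) = Ft n ν v ℓ r u i := by
  unfold Ft
  rw [lm_per h hu, show i + n + 1 = i + 1 + n by ring, Uv_per h hu, Uv_per h hu, h.pv, h.pv]

lemma J2_eq (h : Poly n ν v ℓ) (r : ℝ × R2) (hu : ∀ i, u (i + n) = u i) :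
    J2 n ν v ℓ r u = ∑ i ∈ range n, Ft n ν v ℓ r u i := by
  rw [← PEUaux.shift (Ft_per h r hu)]
  unfold J2 B2
  refine sum_congr rfl fun i _ => ?_
  unfold Ft lm
  rw [cpU_next h hu, Uv_succ h hu (i + 1), Uv_succ h hu i]
  have := (h.pos (i + 1)).ne'
  rw [show v (i + 1 + 1) = v (i + 2) from rfl]
  have e : dp r.2 (ve ν u i + ve ν u (i + 1)) = dp r.2 (ve ν u i) + dp r.2 (ve ν u (i + 1)) :=
    Ld.dp_add_right _ _ _
  field_simp

/-! ### one arc -/

lemma arc_app (hARC : Stmt_ARC) (hORI : Stmt_ORI) (h : Poly n ν v ℓ)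
    (hu : ∀ i, u (i + n) = u i) (r : ℝ × R2) (hr : ∀ k, 0 ≤ af r (v k)) (Hu : ℕ → ℝ)
    (hH : ∀ i, Hu (i + 1) = Hu i + ℓ i * u i) (T : ℝ) (hT : T ≠ 0) (s M k : ℕ) (hM : 1 ≤ M)
    (hek : s + M < k) (hks : k < s + n) (hs : Hu s = -T / 2) (he : Hu (s + M) = T / 2)
    (hb : ∀ i, |Hu i| ≤ |T| / 2) (Lb Lc : R2) (sb sc : ℝ) (hUb : Uv n ν u s = sb • Lb)
    (hUc : Uv n ν u (s + M) = sc • Lc) (hsb : 0 ≤ sb * T) (hsc : sc * T ≤ 0)
    (p1 : 0 < cp (v s - v k) Lb) (p2 : 0 < cp Lb (v (s + M) - v s))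
    (p3 : 0 < cp (v (s + M) - v s) Lc) (p4 : 0 < cp (v (s + M) - v k) Lc)
    (p5 : 0 ≤ cp Lb (v (s + 1) - v s)) (p6 : 0 ≤ cp (v (s + M) - v (s + M - 1)) Lc) :
    T ^ 2 * (af r (v k) - thm (cp Lb (v (s + M) - v s) / cp (v s - v k) Lb) * af r (v s) -
        thm (cp (v (s + M) - v s) Lc / cp (v (s + M) - v k) Lc) * af r (v (s + M))) ≤
      cp (v s - v k) (v (s + M) - v k) * ∑ i ∈ range M,
        (-Ft n ν v ℓ r u (s + i) -
          (ℓ (s + i) * u (s + i)) ^ 2 * (af r (v (s + i)) + af r (v (s + i + 1))) /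
            cp (v (s + i) - v k) (v (s + i + 1) - v k)) := by
  have hA : 0 < cp (v s - v k) (v (s + M) - v k) := by
    rw [← tri1 (v s) (v (s + M)) (v k)]
    exact hORI n ν v ℓ h s (s + M) k (by omega) hek hks
  set A := cp (v s - v k) (v (s + M) - v k) with hAdef
  have hT2 : 0 < T ^ 2 := by positivity
  have hTa : 0 < |T| := abs_pos.2 hT
  have hA' : cp (v s - v k) (v (s + M) - v s) = A := by
    rw [hAdef]; simp only [cp, Prod.fst_sub, Prod.snd_sub]; ring
  have hA'' : cp (v (s + M) - v k) (v s - v (s + M)) = -A := by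
    rw [hAdef]; simp only [cp, Prod.fst_sub, Prod.snd_sub]; ring
  have vb : (cp Lb (v (s + M) - v s) / cp (v s - v k) Lb) • (v s - v k) + (v (s + M) - v s) =
      (A / cp (v s - v k) Lb) • Lb := by
    have e := pl (v s - v k) (v (s + M) - v s) Lb
    rw [hA'] at e
    rw [div_eq_inv_mul, div_eq_inv_mul, mul_smul, mul_smul, e, smul_add, smul_smul _ _ (v (s + M) - v s),
      inv_mul_cancel₀ p1.ne', one_smul]
  have vc : (cp (v (s + M) - v s) Lc / cp (v (s + M) - v k) Lc) • (v (s + M) - v k) +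
      (v s - v (s + M)) = (-(A / cp (v (s + M) - v k) Lc)) • Lc := by
    have e := pl (v (s + M) - v k) (v s - v (s + M)) Lc
    rw [hA''] at e
    have e2 : cp Lc (v s - v (s + M)) = cp (v (s + M) - v s) Lc := by
      simp only [cp, Prod.fst_sub, Prod.snd_sub]; ring
    rw [e2] at e
    rw [div_eq_inv_mul, div_eq_inv_mul, ← mul_neg, mul_smul, mul_smul, e, smul_add,
      smul_smul _ _ (v s - v (s + M)), inv_mul_cancel₀ p4.ne', one_smul]
  have key := hARC M (fun i => v (s + i)) (fun i => Uv n ν u (s + i)) (v k)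
    (fun i => lm n ν ℓ u (s + i)) (fun i => (Hu (s + i) - Hu s) / T) r T
    (cp Lb (v (s + M) - v s) / cp (v s - v k) Lb)
    (cp (v (s + M) - v s) Lc / cp (v (s + M) - v k) Lc)
    (sb * cp (v s - v k) Lb / (A * T)) (-(sc * cp (v (s + M) - v k) Lc / (A * T))) hM
    (fun i j hij hj => by
      show 0 < cp (v (s + i) - v k) (v (s + j) - v k)
      rw [← tri1 (v (s + i)) (v (s + j)) (v k)]
      exact hORI n ν v ℓ h (s + i) (s + j) k (by omega) (by omega) (by omega))
    (fun i j l hij hjl hl => hORI n ν v ℓ h (s + i) (s + j) (s + l) (by omega) (by omega)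
      (by omega))
    (fun i _ => U_diff h hu (s + i))
    (by show (Hu (s + 0) - Hu s) / T = 0; rw [add_zero, sub_self, zero_div])
    (by
      show (Hu (s + M) - Hu s) / T = 1
      rw [he, hs]; field_simp; ring)
    (fun i _ => by
      show 0 ≤ (Hu (s + i) - Hu s) / T ∧ (Hu (s + i) - Hu s) / T ≤ 1
      have hbi := abs_le.1 (hb (s + i))
      rw [hs]
      rcases lt_or_gt_of_ne hT with hn | hp
      · rw [abs_of_neg hn] at hbi
        constructor
        · apply div_nonneg_of_nonpos _ hn.le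
          linarith [hbi.2]
        · rw [div_le_one_of_neg hn]
          linarith [hbi.1]
      · rw [abs_of_pos hp] at hbi
        constructor
        · apply div_nonneg _ hp.le
          linarith [hbi.1]
        · rw [div_le_one hp]
          linarith [hbi.2])
    (fun i _ => by
      show cp (Uv n ν u (s + i)) (v (s + i + 1) - v (s + i)) =
        T * ((Hu (s + i + 1) - Hu s) / T - (Hu (s + i) - Hu s) / T)
      rw [cpU_next h hu, hH (s + i)]
      field_simp
      ring)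
    (div_pos p2 p1) (div_pos p3 p4)
    (by
      have e : sb * cp (v s - v k) Lb / (A * T) = (sb * T) * (cp (v s - v k) Lb / (A * T ^ 2)) := by
        field_simp
      rw [e]
      exact mul_nonneg hsb (by positivity))
    (by
      have e : -(sc * cp (v (s + M) - v k) Lc / (A * T)) =
          (-(sc * T)) * (cp (v (s + M) - v k) Lc / (A * T ^ 2)) := by
        field_simp
      rw [e]
      exact mul_nonneg (by linarith) (by positivity))
    (by
      show Uv n ν u (s + 0) = (T * (sb * cp (v s - v k) Lb / (A * T))) •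
        ((cp Lb (v (s + M) - v s) / cp (v s - v k) Lb) • (v (s + 0) - v k) +
          (v (s + M) - v (s + 0)))
      rw [add_zero, vb, smul_smul, hUb]
      congr 1
      field_simp)
    (by
      show Uv n ν u (s + M) = (T * (-(sc * cp (v (s + M) - v k) Lc / (A * T)))) •
        ((cp (v (s + M) - v s) Lc / cp (v (s + M) - v k) Lc) • (v (s + M) - v k) +
          (v (s + 0) - v (s + M)))
      rw [add_zero, vc, smul_smul, hUc]
      congr 1
      field_simp)
    (by
      show 0 ≤ cp ((cp Lb (v (s + M) - v s) / cp (v s - v k) Lb) • (v (s + 0) - v k) +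
          (v (s + M) - v (s + 0))) (v (s + 1) - v (s + 0))
      rw [add_zero, vb, Ld.cp_smul_left]
      exact mul_nonneg (div_pos hA p1).le p5)
    (by
      show 0 ≤ cp (v (s + (M - 1)) - v (s + M))
        ((cp (v (s + M) - v s) Lc / cp (v (s + M) - v k) Lc) • (v (s + M) - v k) +
          (v (s + 0) - v (s + M)))
      rw [add_zero, vc, Ld.cp_smul_right, show s + (M - 1) = s + M - 1 by omega,
        show cp (v (s + M - 1) - v (s + M)) Lc = -cp (v (s + M) - v (s + M - 1)) Lc by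
          simp only [cp, Prod.fst_sub, Prod.snd_sub]; ring, neg_mul_neg]
      exact mul_nonneg (div_pos hA p4).le p6)
    (hr k) (fun i _ => hr (s + i))
  refine key.trans (le_of_eq ?_)
  congr 1
  refine sum_congr rfl fun i _ => ?_
  show -(cp (Uv n ν u (s + i)) (v (s + i + 1) - v (s + i)) *
      (lm n ν ℓ u (s + i) * (af r (v (s + i)) + af r (v (s + i + 1))) +
        dp r.2 (Uv n ν u (s + i) + Uv n ν u (s + i + 1))) / 2) -
    cp (Uv n ν u (s + i)) (v (s + i + 1) - v (s + i)) ^ 2 *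
      (af r (v (s + i)) + af r (v (s + i + 1))) / cp (v (s + i) - v k) (v (s + i + 1) - v k) = _
  rw [cpU_next h hu]
  unfold Ft
  rw [cpU_next h hu]

/-! ### the vertices of the quadrilateral -/

/-- direction of the support line at the vertex `v i`; `sg` is the sign of the next arc -/
noncomputable def Ld (n : ℕ) (ν v : ℕ → R2) (u : ℕ → ℝ) (sg : ℝ) (i : ℕ) : R2 :=
  if Uv n ν u i = 0 then (v i - v (i + (n - 1))) + (v (i + 1) - v i) else sg • Uv n ν u i

/-- its coefficient -/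
noncomputable def Sd (n : ℕ) (ν : ℕ → R2) (u : ℕ → ℝ) (sg : ℝ) (i : ℕ) : ℝ :=
  if Uv n ν u i = 0 then 0 else sg

lemma Ld_per (h : Poly n ν v ℓ) (hu : ∀ i, u (i + n) = u i) (sg : ℝ) (i : ℕ) :
    Ld n ν v u sg (i + n) = Ld n ν v u sg i := by
  unfold Ld
  rw [Uv_per h hu, show i + n + (n - 1) = i + (n - 1) + n by ring,
    show i + n + 1 = i + 1 + n by ring, h.pv, h.pv, h.pv]

lemma Sd_per (h : Poly n ν v ℓ) (hu : ∀ i, u (i + n) = u i) (sg : ℝ) (i : ℕ) :
    Sd n ν u sg (i + n) = Sd n ν u sg i := by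
  unfold Sd
  rw [Uv_per h hu]

lemma U_eq (sg : ℝ) (hsg : sg * sg = 1) (i : ℕ) :
    Uv n ν u i = Sd n ν u sg i • Ld n ν v u sg i := by
  unfold Sd Ld
  by_cases h0 : Uv n ν u i = 0
  · rw [if_pos h0, if_pos h0, zero_smul, h0]
  · rw [if_neg h0, if_neg h0, smul_smul, hsg, one_smul]

lemma Sd_sg (sg : ℝ) (hsg : sg * sg = 1) (i : ℕ) : 0 ≤ Sd n ν u sg i * sg := by
  unfold Sd
  split_ifs
  · rw [zero_mul]
  · rw [hsg]; exact zero_le_one

/-- the direction is a positive combination of the two edges -/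
lemma comb (hORI : Stmt_ORI) (h : Poly n ν v ℓ) (hu : ∀ i, u (i + n) = u i) (sg : ℝ)
    (hsg : sg * sg = 1) (i : ℕ)
    (h1 : 0 ≤ sg * (ℓ i * u i)) (h2 : sg * (ℓ (i + (n - 1)) * u (i + (n - 1))) ≤ 0) :
    ∃ x y : ℝ, 0 ≤ x ∧ 0 ≤ y ∧ (sg * (ℓ i * u i) ≠ 0 → 0 < x) ∧
      (sg * (ℓ (i + (n - 1)) * u (i + (n - 1))) ≠ 0 → 0 < y) ∧ 0 < x + y ∧
      Ld n ν v u sg i = x • (v i - v (i + (n - 1))) + y • (v (i + 1) - v i) := by
  have h3 := h.n3
  have hD : 0 < cp (v i - v (i + (n - 1))) (v (i + 1) - v i) := by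
    have e := hORI n ν v ℓ h i (i + 1) (i + (n - 1)) (by omega) (by omega) (by omega)
    rw [show cp (v i - v (i + (n - 1))) (v (i + 1) - v i) =
      cp (v (i + 1) - v i) (v (i + (n - 1)) - v i) by
        simp only [cp, Prod.fst_sub, Prod.snd_sub]; ring]
    exact e
  have hpl := pl (v i - v (i + (n - 1))) (v (i + 1) - v i) (Uv n ν u i)
  have e1 := cpU_next h hu i
  have e2 := cpU_prev (u := u) h i
  rw [e1, cp_swap (v i - v (i + (n - 1))) (Uv n ν u i), e2] at hpl
  set D := cp (v i - v (i + (n - 1))) (v (i + 1) - v i) with hDdef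
  by_cases h0 : Uv n ν u i = 0
  · refine ⟨1, 1, zero_le_one, zero_le_one, fun _ => one_pos, fun _ => one_pos, by norm_num, ?_⟩
    unfold Ld
    rw [if_pos h0, one_smul, one_smul]
  · have hL : Ld n ν v u sg i = (sg * (ℓ i * u i) / D) • (v i - v (i + (n - 1))) +
        (-(sg * (ℓ (i + (n - 1)) * u (i + (n - 1)))) / D) • (v (i + 1) - v i) := by
      unfold Ld
      rw [if_neg h0]
      have e3 : Uv n ν u i = D⁻¹ • (D • Uv n ν u i) := by
        rw [smul_smul, inv_mul_cancel₀ hD.ne', one_smul]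
      rw [e3, hpl]
      simp only [smul_add, smul_smul]
      congr 1
      · congr 1
        ring
      · congr 1
        ring
    have x0 : 0 ≤ sg * (ℓ i * u i) / D := div_nonneg h1 hD.le
    have y0 : 0 ≤ -(sg * (ℓ (i + (n - 1)) * u (i + (n - 1)))) / D :=
      div_nonneg (by linarith) hD.le
    refine ⟨_, _, x0, y0, fun hx => ?_, fun hy => ?_, ?_, hL⟩
    · exact div_pos (lt_of_le_of_ne h1 (Ne.symm hx)) hD
    · exact div_pos (lt_of_le_of_ne (by linarith) (fun hh => hy (by linarith))) hD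
    · by_contra hcon
      have hx0 : sg * (ℓ i * u i) / D = 0 := by linarith
      have hy0 : -(sg * (ℓ (i + (n - 1)) * u (i + (n - 1)))) / D = 0 := by linarith
      rw [hx0, hy0, zero_smul, zero_smul, add_zero] at hL
      unfold Ld at hL
      rw [if_neg h0] at hL
      rcases smul_eq_zero.1 hL with q | q
      · rw [q, mul_zero] at hsg
        exact zero_ne_one hsg
      · exact h0 q

lemma vtx (hORI : Stmt_ORI) (h : Poly n ν v ℓ) (hu : ∀ i, u (i + n) = u i) (sg : ℝ)
    (hsg : sg * sg = 1) (Hu : ℕ → ℝ) (hH : ∀ i, Hu (i + 1) = Hu i + ℓ i * u i)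
    (hper : ∀ i, Hu (i + n) = Hu i) (E : ℝ) (hb : ∀ i, |Hu i| ≤ E) (i : ℕ)
    (hi : sg * Hu i = -E) :
    (∀ k, i < k → k < i + n → (i + 1 < k ∨ sg * Hu k ≠ -E) →
      (k < i + (n - 1) ∨ sg * Hu k ≠ -E) → 0 < cp (v i - v k) (Ld n ν v u sg i)) ∧
    0 ≤ cp (Ld n ν v u sg i) (v (i + 1) - v i) ∧
    0 ≤ cp (v i - v (i + (n - 1))) (Ld n ν v u sg i) := by
  have h3 := h.n3
  have hsb : ∀ j, -E ≤ sg * Hu j := by
    intro j
    have h4 : |sg| = 1 := by
      have h5 : |sg| * |sg| = 1 := by rw [← abs_mul, hsg, abs_one]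
      nlinarith [abs_nonneg sg]
    have h5 : |sg * Hu j| ≤ E := by rw [abs_mul, h4, one_mul]; exact hb j
    exact (abs_le.1 h5).1
  have a1 : sg * (ℓ i * u i) = sg * Hu (i + 1) + E := by
    have := hH i
    have e : ℓ i * u i = Hu (i + 1) - Hu i := by linarith
    rw [e, mul_sub, hi]; ring
  have a2 : sg * (ℓ (i + (n - 1)) * u (i + (n - 1))) = -E - sg * Hu (i + (n - 1)) := by
    have e0 := hH (i + (n - 1))
    rw [show i + (n - 1) + 1 = i + n by omega, hper] at e0
    have e : ℓ (i + (n - 1)) * u (i + (n - 1)) = Hu i - Hu (i + (n - 1)) := by linarith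
    rw [e, mul_sub, hi]
  obtain ⟨x, y, x0, y0, hx, hy, hxy, hL⟩ := comb hORI h hu sg hsg i
    (by rw [a1]; linarith [hsb (i + 1)]) (by rw [a2]; linarith [hsb (i + (n - 1))])
  have hD : 0 < cp (v i - v (i + (n - 1))) (v (i + 1) - v i) := by
    have e := hORI n ν v ℓ h i (i + 1) (i + (n - 1)) (by omega) (by omega) (by omega)
    rw [show cp (v i - v (i + (n - 1))) (v (i + 1) - v i) =
      cp (v (i + 1) - v i) (v (i + (n - 1)) - v i) by
        simp only [cp, Prod.fst_sub, Prod.snd_sub]; ring]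
    exact e
  refine ⟨fun k hik hkn c1 c2 => ?_, ?_, ?_⟩
  · rw [hL, Ld.cp_add_right, Ld.cp_smul_right, Ld.cp_smul_right]
    have q1 : k < i + (n - 1) → 0 < cp (v i - v k) (v i - v (i + (n - 1))) := fun hk => by
      have e := hORI n ν v ℓ h i k (i + (n - 1)) hik hk (by omega)
      rw [show cp (v i - v k) (v i - v (i + (n - 1))) =
        cp (v k - v i) (v (i + (n - 1)) - v i) by
          simp only [cp, Prod.fst_sub, Prod.snd_sub]; ring]
      exact e
    have q2 : i + 1 < k → 0 < cp (v i - v k) (v (i + 1) - v i) := fun hk => by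
      have e := hORI n ν v ℓ h i (i + 1) k (by omega) hk hkn
      rw [show cp (v i - v k) (v (i + 1) - v i) =
        cp (v (i + 1) - v i) (v k - v i) by
          simp only [cp, Prod.fst_sub, Prod.snd_sub]; ring]
      exact e
    rcases Nat.lt_or_ge (i + 1) k with g1 | g1
    · have p2 := q2 g1
      rcases Nat.lt_or_ge k (i + (n - 1)) with g2 | g2
      · have p1 := q1 g2
        rcases eq_or_lt_of_le x0 with w | w
        · rw [← w, zero_add] at hxy
          rw [← w, zero_mul, zero_add]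
          exact mul_pos hxy p2
        · have := mul_pos w p1
          have := mul_nonneg y0 p2.le
          linarith
      · have hk : k = i + (n - 1) := by omega
        have c3 : sg * Hu k ≠ -E := by
          rcases c2 with c2 | c2
          · omega
          · exact c2
        have hy' : 0 < y := hy (by rw [a2, ← hk]; intro hh; apply c3; linarith)
        have e0 : cp (v i - v k) (v i - v (i + (n - 1))) = 0 := by rw [hk]; exact Ld.cp_self _
        rw [e0, mul_zero, zero_add]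
        exact mul_pos hy' p2
    · have hk : k = i + 1 := by omega
      have c3 : sg * Hu k ≠ -E := by
        rcases c1 with c1 | c1
        · omega
        · exact c1
      have hx' : 0 < x := hx (by rw [a1, ← hk]; intro hh; apply c3; linarith)
      have p1 := q1 (by omega)
      have e0 : cp (v i - v k) (v (i + 1) - v i) = 0 := by
        rw [hk]; simp only [cp, Prod.fst_sub, Prod.snd_sub]; ring
      rw [e0, mul_zero, add_zero]
      exact mul_pos hx' p1
  · rw [hL, cp_add_left, Ld.cp_smul_left, Ld.cp_smul_left, Ld.cp_self, mul_zero, add_zero]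
    exact mul_nonneg x0 hD.le
  · rw [hL, Ld.cp_add_right, Ld.cp_smul_right, Ld.cp_smul_right, Ld.cp_self, mul_zero, zero_add]
    exact mul_nonneg y0 hD.le

/-- the term of the final inequality -/
noncomputable def Gt (n : ℕ) (ν v : ℕ → R2) (ℓ W : ℕ → ℝ) (r : ℝ × R2) (u : ℕ → ℝ) (i : ℕ) : ℝ :=
  -Ft n ν v ℓ r u i - 2 * (EI v ℓ r i * u i ^ 2 / W i)

lemma w_le (h : Poly n ν v ℓ) (W : ℕ → ℝ) (hW : ∀ i k, dp (ν i) (v i - v k) ≤ W i) (i k : ℕ) :
    cp (v i - v k) (v (i + 1) - v k) ≤ ℓ i * W i := by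
  have e : cp (v i - v k) (v (i + 1) - v k) = cp (v i - v k) (v (i + 1) - v i) := by
    simp only [cp, Prod.fst_sub, Prod.snd_sub]; ring
  rw [e, edge_eq h, Ld.cp_smul_right]
  have e2 : cp (v i - v k) (rt (ν i)) = dp (ν i) (v i - v k) := by
    simp only [cp, dp, rt, Prod.fst_sub, Prod.snd_sub]; ring
  rw [e2]
  exact mul_le_mul_of_nonneg_left (hW i k) (h.pos i).le

lemma term_le (h : Poly n ν v ℓ) (W : ℕ → ℝ) (hW : ∀ i k, dp (ν i) (v i - v k) ≤ W i)
    (r : ℝ × R2) (hr : ∀ k, 0 ≤ af r (v k)) (i k : ℕ)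
    (hw : 0 < cp (v i - v k) (v (i + 1) - v k)) :
    -Ft n ν v ℓ r u i - (ℓ i * u i) ^ 2 * (af r (v i) + af r (v (i + 1))) /
        cp (v i - v k) (v (i + 1) - v k) ≤ Gt n ν v ℓ W r u i := by
  unfold Gt
  have hl := h.pos i
  have h1 := w_le h W hW i k
  have h2 : 0 < ℓ i * W i := lt_of_lt_of_le hw h1
  have hWi : 0 < W i := by
    rcases (mul_pos_iff.1 h2) with q | q
    · exact q.2
    · linarith [q.1]
  have e : 2 * (EI v ℓ r i * u i ^ 2 / W i) =
      (ℓ i * u i) ^ 2 * (af r (v i) + af r (v (i + 1))) / (ℓ i * W i) := by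
    unfold EI
    field_simp
  rw [e]
  have h3 : 0 ≤ (ℓ i * u i) ^ 2 * (af r (v i) + af r (v (i + 1))) :=
    mul_nonneg (sq_nonneg _) (add_nonneg (hr i) (hr (i + 1)))
  have h4 : (ℓ i * u i) ^ 2 * (af r (v i) + af r (v (i + 1))) / (ℓ i * W i) ≤
      (ℓ i * u i) ^ 2 * (af r (v i) + af r (v (i + 1))) / cp (v i - v k) (v (i + 1) - v k) :=
    div_le_div_of_nonneg_left h3 hw h1
  linarith

/-- one arc of the quadrilateral -/
lemma arc (hARC : Stmt_ARC) (hORI : Stmt_ORI) (h : Poly n ν v ℓ) (hu : ∀ i, u (i + n) = u i)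
    (W : ℕ → ℝ) (hW : ∀ i k, dp (ν i) (v i - v k) ≤ W i)
    (r : ℝ × R2) (hr : ∀ k, 0 ≤ af r (v k)) (Hu : ℕ → ℝ)
    (hH : ∀ i, Hu (i + 1) = Hu i + ℓ i * u i) (hper : ∀ i, Hu (i + n) = Hu i) (E : ℝ)
    (hE : 0 < E) (hb : ∀ i, |Hu i| ≤ E) (sg : ℝ) (hsg : sg * sg = 1) (z b c f : ℕ)
    (hzb : z < b) (hbc : b < c) (hcf : c < f) (hfz : f < z + n)
    (Hz : sg * Hu z = E) (Hb : sg * Hu b = -E) (Hc : sg * Hu c = E) (Hf : sg * Hu f = -E) :
    0 < cp (Ld n ν v u sg b) (v c - v b) / cp (v b - v z) (Ld n ν v u sg b) ∧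
    (2 * E) ^ 2 * (CHEBs.Ej (cp (v b - v z) (v c - v b)) (cp (v c - v b) (v f - v c))
        (cp (v f - v c) (v z - v f)) (af r (v z)) (af r (v b)) (af r (v c))
        (cp (Ld n ν v u sg b) (v c - v b) / cp (v b - v z) (Ld n ν v u sg b))
        (cp (Ld n ν v u (-sg) c) (v f - v c) / cp (v c - v b) (Ld n ν v u (-sg) c)) -
      (af r (v b) + af r (v c)) /
        max (cp (v b - v z) (v c - v b)) (cp (v c - v b) (v f - v c)) -
      af r (v b) * CHEBs.Xe (cp (Ld n ν v u sg b) (v c - v b) /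
        cp (v b - v z) (Ld n ν v u sg b)) / cp (v b - v z) (v c - v b) -
      af r (v c) * CHEBs.Ye (cp (Ld n ν v u (-sg) c) (v f - v c) /
        cp (v c - v b) (Ld n ν v u (-sg) c)) / cp (v c - v b) (v f - v c)) ≤
      ∑ i ∈ Ico b c, Gt n ν v ℓ W r u i := by
  have h3 := h.n3
  have hsg' : (-sg) * (-sg) = 1 := by linarith
  have hc' : (-sg) * Hu c = -E := by linarith
  have hEE : E ≠ -E := by intro hh; linarith
  obtain ⟨vb1, vb2, -⟩ := vtx hORI h hu sg hsg Hu hH hper E hb b Hb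
  obtain ⟨vc1, -, vc3⟩ := vtx hORI h hu (-sg) hsg' Hu hH hper E hb c hc'
  set Lb := Ld n ν v u sg b with hLb
  set Lc := Ld n ν v u (-sg) c with hLc
  -- positions
  have vzn : v (z + n) = v z := h.pv z
  have vbn : v (b + n) = v b := h.pv b
  have Hzn : Hu (z + n) = Hu z := hper z
  have Hbn : Hu (b + n) = Hu b := hper b
  have b_c : 0 < cp (v b - v c) Lb :=
    vb1 c hbc (by omega) (Or.inr (by rw [Hc]; exact hEE)) (Or.inr (by rw [Hc]; exact hEE))
  have b_z : 0 < cp (v b - v z) Lb := by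
    have e := vb1 (z + n) (by omega) (by omega) (Or.inr (by rw [Hzn, Hz]; exact hEE))
      (Or.inr (by rw [Hzn, Hz]; exact hEE))
    rwa [vzn] at e
  have b_f : 0 < cp (v b - v f) Lb :=
    vb1 f (by omega) (by omega) (Or.inl (by omega)) (Or.inl (by omega))
  have c_b : 0 < cp (v c - v b) Lc := by
    have e := vc1 (b + n) (by omega) (by omega)
      (Or.inr (by rw [Hbn, neg_mul, Hb, neg_neg]; exact hEE))
      (Or.inr (by rw [Hbn, neg_mul, Hb, neg_neg]; exact hEE))
    rwa [vbn] at e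
  have c_f : 0 < cp (v c - v f) Lc :=
    vc1 f (by omega) (by omega) (Or.inr (by rw [neg_mul, Hf, neg_neg]; exact hEE))
      (Or.inr (by rw [neg_mul, Hf, neg_neg]; exact hEE))
  have c_z : 0 < cp (v c - v z) Lc := by
    have e := vc1 (z + n) (by omega) (by omega) (Or.inl (by omega)) (Or.inl (by omega))
    rwa [vzn] at e
  have bc' : 0 < cp Lb (v c - v b) := by
    rw [show cp Lb (v c - v b) = cp (v b - v c) Lb by
      simp only [cp, Prod.fst_sub, Prod.snd_sub]; ring]
    exact b_c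
  have cf' : 0 < cp Lc (v f - v c) := by
    rw [show cp Lc (v f - v c) = cp (v c - v f) Lc by
      simp only [cp, Prod.fst_sub, Prod.snd_sub]; ring]
    exact c_f
  have vc3' : 0 ≤ cp (v c - v (c - 1)) Lc := by
    rw [show c + (n - 1) = c - 1 + n by omega, h.pv] at vc3
    exact vc3
  -- the corner areas
  have Dz : 0 < cp (v z - v f) (v b - v z) := by
    rw [show cp (v z - v f) (v b - v z) = cp (v b - v z) (v f - v z) by
      simp only [cp, Prod.fst_sub, Prod.snd_sub]; ring]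
    exact hORI n ν v ℓ h z b f hzb (by omega) hfz
  have Db : 0 < cp (v b - v z) (v c - v b) := by
    rw [show cp (v b - v z) (v c - v b) = cp (v b - v z) (v c - v z) by
      simp only [cp, Prod.fst_sub, Prod.snd_sub]; ring]
    exact hORI n ν v ℓ h z b c hzb hbc (by omega)
  have Dc : 0 < cp (v c - v b) (v f - v c) := by
    rw [show cp (v c - v b) (v f - v c) = cp (v c - v b) (v f - v b) by
      simp only [cp, Prod.fst_sub, Prod.snd_sub]; ring]
    exact hORI n ν v ℓ h b c f hbc hcf (by omega)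
  have Df : 0 < cp (v f - v c) (v z - v f) := by
    rw [show cp (v f - v c) (v z - v f) = cp (v c - v z) (v f - v z) by
      simp only [cp, Prod.fst_sub, Prod.snd_sub]; ring]
    exact hORI n ν v ℓ h z c f (by omega) hcf hfz
  have hT : 2 * E * sg ≠ 0 := by
    have : sg ≠ 0 := by
      intro hh
      rw [hh, mul_zero] at hsg
      exact zero_ne_one hsg
    positivity
  have hTT : (2 * E * sg) ^ 2 = (2 * E) ^ 2 := by
    have : (2 * E * sg) ^ 2 = (2 * E) ^ 2 * (sg * sg) := by ring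
    rw [this, hsg, mul_one]
  have hsabs : |sg| = 1 := by
    have h5 : |sg| * |sg| = 1 := by rw [← abs_mul, hsg, abs_one]
    nlinarith [abs_nonneg sg]
  have hTabs : |2 * E * sg| / 2 = E := by
    rw [abs_mul, hsabs, mul_one, abs_of_pos (by positivity)]; ring
  have hs : Hu b = -(2 * E * sg) / 2 := by
    have : Hu b = sg * (sg * Hu b) := by rw [← mul_assoc, hsg, one_mul]
    rw [this, Hb]; ring
  have he : Hu c = 2 * E * sg / 2 := by
    have : Hu c = sg * (sg * Hu c) := by rw [← mul_assoc, hsg, one_mul]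
    rw [this, Hc]; ring
  have hcM : b + (c - b) = c := by omega
  have hUb := U_eq (n := n) (ν := ν) (v := v) (u := u) sg hsg b
  have hUc := U_eq (n := n) (ν := ν) (v := v) (u := u) (-sg) hsg' c
  have sb : 0 ≤ Sd n ν u sg b * (2 * E * sg) := by
    have := Sd_sg (n := n) (ν := ν) (u := u) sg hsg b
    have e : Sd n ν u sg b * (2 * E * sg) = 2 * E * (Sd n ν u sg b * sg) := by ring
    rw [e]; positivity
  have sc : Sd n ν u (-sg) c * (2 * E * sg) ≤ 0 := by
    have := Sd_sg (n := n) (ν := ν) (u := u) (-sg) hsg' c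
    have e : Sd n ν u (-sg) c * (2 * E * sg) = -(2 * E * (Sd n ν u (-sg) c * (-sg))) := by ring
    rw [e]
    have : 0 ≤ 2 * E * (Sd n ν u (-sg) c * (-sg)) := by positivity
    linarith
  -- the arc inequality for a witness `k`
  have main : ∀ k, c < k → k < b + n → 0 < cp (v b - v k) Lb → 0 < cp (v c - v k) Lc →
      (2 * E) ^ 2 * (af r (v k) - thm (cp Lb (v c - v b) / cp (v b - v k) Lb) * af r (v b) -
        thm (cp (v c - v b) Lc / cp (v c - v k) Lc) * af r (v c)) ≤
      cp (v b - v k) (v c - v k) * ∑ i ∈ Ico b c, Gt n ν v ℓ W r u i := by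
    intro k hck hkn q1 q4
    have e := arc_app hARC hORI h hu r hr Hu hH (2 * E * sg) hT b (c - b) k (by omega)
      (by omega) hkn hs (by rw [hcM]; exact he) (fun i => by rw [hTabs]; exact hb i) Lb Lc
      (Sd n ν u sg b) (Sd n ν u (-sg) c) hUb (by rw [hcM]; exact hUc) sb sc q1
      (by rw [hcM]; exact bc') (by rw [hcM]; exact c_b) (by rw [hcM]; exact q4) vb2
      (by rw [hcM]; exact vc3')
    rw [hcM, hTT] at e
    refine e.trans ?_
    have hA : 0 < cp (v b - v k) (v c - v k) := by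
      rw [← tri1 (v b) (v c) (v k)]
      exact hORI n ν v ℓ h b c k hbc hck hkn
    refine mul_le_mul_of_nonneg_left ?_ hA.le
    rw [Finset.sum_Ico_eq_sum_range]
    refine sum_le_sum fun i hi => ?_
    have hi' := mem_range.1 hi
    refine term_le h W hW r hr (b + i) k ?_
    rw [← tri1 (v (b + i)) (v (b + i + 1)) (v k)]
    exact hORI n ν v ℓ h (b + i) (b + i + 1) k (by omega) (by omega) (by omega)
  refine ⟨div_pos bc' b_z, ?_⟩
  have mb0 : 0 < cp Lb (v c - v b) / cp (v b - v z) Lb := div_pos bc' b_z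
  have mc0 : 0 < cp Lc (v f - v c) / cp (v c - v b) Lc := div_pos cf' c_b
  rcases le_total (cp (v c - v b) (v f - v c)) (cp (v b - v z) (v c - v b)) with hle | hle
  · -- near witness
    rw [max_eq_left hle]
    have e1 := main (z + n) (by omega) (by omega) (by rw [vzn]; exact b_z)
      (by rw [vzn]; exact c_z)
    rw [vzn] at e1
    have eA : cp (v b - v z) (v c - v z) = cp (v b - v z) (v c - v b) := by
      simp only [cp, Prod.fst_sub, Prod.snd_sub]; ring
    rw [eA] at e1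
    have em : cp (v c - v b) Lc / cp (v c - v z) Lc =
        cp (v c - v b) (v f - v c) / (cp Lc (v f - v c) / cp (v c - v b) Lc *
          cp (v b - v z) (v c - v b) + cp (v f - v c) (v z - v f)) := by
      have k1 : cp (v c - v b) (v f - v c) * cp (v c - v z) Lc =
          cp Lc (v f - v c) * cp (v b - v z) (v c - v b) +
            cp (v c - v b) Lc * cp (v f - v c) (v z - v f) := by
        simp only [cp, Prod.fst_sub, Prod.snd_sub]; ring
      have hden : 0 < cp Lc (v f - v c) / cp (v c - v b) Lc *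
          cp (v b - v z) (v c - v b) + cp (v f - v c) (v z - v f) := by positivity
      rw [div_eq_div_iff c_z.ne' hden.ne']
      rw [k1]
      field_simp
    rw [em] at e1
    have e2 := CHEBs.near (rz := af r (v z)) (rb := af r (v b)) (rc := af r (v c)) Db Dc Df
      (hr c) mb0 mc0 hle
    have e3 : (af r (v z) - thm (cp Lb (v c - v b) / cp (v b - v z) Lb) * af r (v b) -
        thm (cp (v c - v b) (v f - v c) / (cp Lc (v f - v c) / cp (v c - v b) Lc *
          cp (v b - v z) (v c - v b) + cp (v f - v c) (v z - v f))) * af r (v c)) /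
        cp (v b - v z) (v c - v b) * (2 * E) ^ 2 ≤ ∑ i ∈ Ico b c, Gt n ν v ℓ W r u i := by
      rw [div_mul_eq_mul_div, div_le_iff₀ Db]
      linarith
    have e4 : 0 ≤ (2 * E) ^ 2 := by positivity
    calc _ ≤ (2 * E) ^ 2 * _ := mul_le_mul_of_nonneg_left e2 e4
      _ ≤ _ := by rw [mul_comm]; exact e3
  · -- far witness
    rw [max_eq_right hle]
    have e1 := main f hcf (by omega) b_f c_f
    have eA : cp (v b - v f) (v c - v f) = cp (v c - v b) (v f - v c) := by
      simp only [cp, Prod.fst_sub, Prod.snd_sub]; ring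
    rw [eA] at e1
    have em1 : cp (v c - v b) Lc / cp (v c - v f) Lc =
        1 / (cp Lc (v f - v c) / cp (v c - v b) Lc) := by
      rw [show cp (v c - v f) Lc = cp Lc (v f - v c) by
        simp only [cp, Prod.fst_sub, Prod.snd_sub]; ring]
      field_simp
    have em2 : cp Lb (v c - v b) / cp (v b - v f) Lb =
        cp Lb (v c - v b) / cp (v b - v z) Lb * cp (v b - v z) (v c - v b) /
          (cp Lb (v c - v b) / cp (v b - v z) Lb * cp (v z - v f) (v b - v z) +
            cp (v c - v b) (v f - v c)) := by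
      have k1 : cp (v b - v z) (v c - v b) * cp (v b - v f) Lb =
          cp Lb (v c - v b) * cp (v z - v f) (v b - v z) +
            cp (v b - v z) Lb * cp (v c - v b) (v f - v c) := by
        simp only [cp, Prod.fst_sub, Prod.snd_sub]; ring
      have hden : 0 < cp Lb (v c - v b) / cp (v b - v z) Lb * cp (v z - v f) (v b - v z) +
            cp (v c - v b) (v f - v c) := by positivity
      rw [div_eq_div_iff b_f.ne' hden.ne']
      rw [show cp Lb (v c - v b) / cp (v b - v z) Lb * cp (v b - v z) (v c - v b) *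
        cp (v b - v f) Lb = cp Lb (v c - v b) / cp (v b - v z) Lb *
          (cp (v b - v z) (v c - v b) * cp (v b - v f) Lb) by ring, k1]
      field_simp
    rw [em1, em2] at e1
    have hrel : af r (v z) * cp (v c - v b) (v f - v c) - af r (v f) * cp (v b - v z) (v c - v b) +
        af r (v c) * cp (v z - v f) (v b - v z) - af r (v b) * cp (v f - v c) (v z - v f) = 0 := by
      simp only [af, dp, cp, Prod.fst_sub, Prod.snd_sub]; ring
    have hsum : cp (v z - v f) (v b - v z) + cp (v c - v b) (v f - v c) =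
        cp (v b - v z) (v c - v b) + cp (v f - v c) (v z - v f) := by
      simp only [cp, Prod.fst_sub, Prod.snd_sub]; ring
    have e2 := CHEBs.far (rz := af r (v z)) (rb := af r (v b)) (rc := af r (v c))
      (rf := af r (v f)) Dz Db Dc (hr b) mb0 mc0 hle hrel hsum
    have e3 : (af r (v f) - thm (cp Lb (v c - v b) / cp (v b - v z) Lb *
          cp (v b - v z) (v c - v b) /
          (cp Lb (v c - v b) / cp (v b - v z) Lb * cp (v z - v f) (v b - v z) +
            cp (v c - v b) (v f - v c))) * af r (v b) -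
        thm (1 / (cp Lc (v f - v c) / cp (v c - v b) Lc)) * af r (v c)) /
        cp (v c - v b) (v f - v c) * (2 * E) ^ 2 ≤ ∑ i ∈ Ico b c, Gt n ν v ℓ W r u i := by
      rw [div_mul_eq_mul_div, div_le_iff₀ Dc]
      linarith
    have e4 : 0 ≤ (2 * E) ^ 2 := by positivity
    calc _ ≤ (2 * E) ^ 2 * _ := mul_le_mul_of_nonneg_left e2 e4
      _ ≤ _ := by rw [mul_comm]; exact e3

lemma sum_per {f : ℕ → ℝ} (hf : ∀ i, f (i + n) = f i) (s : ℕ) :
    ∑ i ∈ Ico s (s + n), f i = ∑ i ∈ range n, f i := by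
  rw [Finset.sum_Ico_eq_sum_range, Nat.add_sub_cancel_left]
  induction s with
  | zero => simp
  | succ s ih =>
    rw [← ih, ← PEUaux.shift (f := fun i => f (s + i))
      (fun i => by show f (s + (i + n)) = f (s + i); rw [← add_assoc]; exact hf _)]
    refine sum_congr rfl fun i _ => ?_
    rw [show s + 1 + i = s + (i + 1) by ring]

/-- the four arcs together -/
lemma four (hARC : Stmt_ARC) (hORI : Stmt_ORI) (h : Poly n ν v ℓ) (hu : ∀ i, u (i + n) = u i)
    (W : ℕ → ℝ) (hWp : ∀ i, W (i + n) = W i) (hW : ∀ i k, dp (ν i) (v i - v k) ≤ W i)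
    (r : ℝ × R2) (hr : ∀ k, 0 ≤ af r (v k)) (Hu : ℕ → ℝ)
    (hH : ∀ i, Hu (i + 1) = Hu i + ℓ i * u i) (hper : ∀ i, Hu (i + n) = Hu i) (E : ℝ)
    (hE : 0 < E) (hb : ∀ i, |Hu i| ≤ E) (i₀ i₁ i₂ i₃ : ℕ) (h01 : i₀ < i₁) (h12 : i₁ < i₂)
    (h23 : i₂ < i₃) (h30 : i₃ < i₀ + n) (H0 : Hu i₀ = -E) (H1 : Hu i₁ = E) (H2 : Hu i₂ = -E)
    (H3 : Hu i₃ = E) : 0 ≤ ∑ i ∈ range n, Gt n ν v ℓ W r u i := by
  have GP : ∀ i, Gt n ν v ℓ W r u (i + n) = Gt n ν v ℓ W r u i := by
    intro i
    unfold Gt EI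
    rw [Ft_per h r hu, show i + n + 1 = i + 1 + n by ring, h.pv, h.pv, h.pℓ, hu, hWp]
  obtain ⟨g1, k1⟩ := arc hARC hORI h hu W hW r hr Hu hH hper E hE hb 1 (by norm_num) i₃ (i₀ + n)
    (i₁ + n) (i₂ + n) h30 (by omega) (by omega) (by omega) (by rw [one_mul, H3])
    (by rw [one_mul, hper, H0]) (by rw [one_mul, hper, H1]) (by rw [one_mul, hper, H2])
  obtain ⟨g2, k2⟩ := arc hARC hORI h hu W hW r hr Hu hH hper E hE hb (-1) (by norm_num)
    (i₀ + n) (i₁ + n) (i₂ + n) (i₃ + n) (by omega) (by omega) (by omega) (by omega)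
    (by rw [hper, H0]; ring) (by rw [hper, H1]; ring) (by rw [hper, H2]; ring)
    (by rw [hper, H3]; ring)
  obtain ⟨g3, k3⟩ := arc hARC hORI h hu W hW r hr Hu hH hper E hE hb 1 (by norm_num) (i₁ + n)
    (i₂ + n) (i₃ + n) (i₀ + n + n) (by omega) (by omega) (by omega) (by omega)
    (by rw [one_mul, hper, H1])
    (by rw [one_mul, hper, H2]) (by rw [one_mul, hper, H3]) (by rw [one_mul, hper, hper, H0])
  obtain ⟨g4, k4⟩ := arc hARC hORI h hu W hW r hr Hu hH hper E hE hb (-1) (by norm_num)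
    (i₂ + n) (i₃ + n) (i₀ + n + n) (i₁ + n + n) (by omega) (by omega) (by omega) (by omega)
    (by rw [hper, H2]; ring) (by rw [hper, H3]; ring) (by rw [hper, hper, H0]; ring)
    (by rw [hper, hper, H1]; ring)
  simp only [h.pv, Ld_per h hu, neg_neg] at g1 k1 g2 k2 g3 k3 g4 k4
  have D0 : 0 < cp (v i₀ - v i₃) (v i₁ - v i₀) := by
    rw [show cp (v i₀ - v i₃) (v i₁ - v i₀) = cp (v i₁ - v i₀) (v i₃ - v i₀) by
      simp only [cp, Prod.fst_sub, Prod.snd_sub]; ring]
    exact hORI n ν v ℓ h i₀ i₁ i₃ h01 (by omega) h30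
  have D1 : 0 < cp (v i₁ - v i₀) (v i₂ - v i₁) := by
    rw [show cp (v i₁ - v i₀) (v i₂ - v i₁) = cp (v i₁ - v i₀) (v i₂ - v i₀) by
      simp only [cp, Prod.fst_sub, Prod.snd_sub]; ring]
    exact hORI n ν v ℓ h i₀ i₁ i₂ h01 h12 (by omega)
  have D2 : 0 < cp (v i₂ - v i₁) (v i₃ - v i₂) := by
    rw [show cp (v i₂ - v i₁) (v i₃ - v i₂) = cp (v i₂ - v i₁) (v i₃ - v i₁) by
      simp only [cp, Prod.fst_sub, Prod.snd_sub]; ring]
    exact hORI n ν v ℓ h i₁ i₂ i₃ h12 h23 (by omega)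
  have D3 : 0 < cp (v i₃ - v i₂) (v i₀ - v i₃) := by
    rw [show cp (v i₃ - v i₂) (v i₀ - v i₃) = cp (v i₂ - v i₀) (v i₃ - v i₀) by
      simp only [cp, Prod.fst_sub, Prod.snd_sub]; ring]
    exact hORI n ν v ℓ h i₀ i₂ i₃ (by omega) h23 h30
  have hrel : af r (v i₀) * cp (v i₂ - v i₁) (v i₃ - v i₂) -
      af r (v i₁) * cp (v i₃ - v i₂) (v i₀ - v i₃) +
      af r (v i₂) * cp (v i₀ - v i₃) (v i₁ - v i₀) -
      af r (v i₃) * cp (v i₁ - v i₀) (v i₂ - v i₁) = 0 := by
    simp only [af, dp, cp, Prod.fst_sub, Prod.snd_sub]; ring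
  have hsum : cp (v i₀ - v i₃) (v i₁ - v i₀) + cp (v i₂ - v i₁) (v i₃ - v i₂) =
      cp (v i₁ - v i₀) (v i₂ - v i₁) + cp (v i₃ - v i₂) (v i₀ - v i₃) := by
    simp only [cp, Prod.fst_sub, Prod.snd_sub]; ring
  have tot := CHEBs.total _ _ _ _ _ _ _ _ _ _ _ _ D0 D1 D2 D3 (hr i₀) (hr i₁) (hr i₂) (hr i₃)
    g1 g2 g3 g4 hrel hsum
  have e4 : 0 < (2 * E) ^ 2 := by positivity
  have tot' := mul_nonneg e4.le tot
  have esum : ∑ i ∈ range n, Gt n ν v ℓ W r u i =
      ∑ i ∈ Ico (i₀ + n) (i₁ + n), Gt n ν v ℓ W r u i +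
      ∑ i ∈ Ico (i₁ + n) (i₂ + n), Gt n ν v ℓ W r u i +
      ∑ i ∈ Ico (i₂ + n) (i₃ + n), Gt n ν v ℓ W r u i +
      ∑ i ∈ Ico (i₃ + n) (i₀ + n + n), Gt n ν v ℓ W r u i := by
    rw [Finset.sum_Ico_consecutive _ (by omega) (by omega),
      Finset.sum_Ico_consecutive _ (by omega) (by omega),
      Finset.sum_Ico_consecutive _ (by omega) (by omega)]
    exact (sum_per GP (i₀ + n)).symm
  rw [esum]
  simp only [mul_add] at tot'
  linarith

end CH

open CH in
/-- assembly of theorem CHEB -/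
theorem CHEB_of (hARC : Stmt_ARC) (hORI : Stmt_ORI) (hALT : Stmt_ALT) : Stmt_CHEB := by
  intro n ν v ℓ h W ζ hWp hWpos hW hζ hsum
  have hH0 : ∀ i, (∑ j ∈ range (i + 1), ℓ j * ζ j) = (∑ j ∈ range i, ℓ j * ζ j) + ℓ i * ζ i :=
    fun i => sum_range_succ _ _
  have hHper : ∀ i, (∑ j ∈ range (i + n), ℓ j * ζ j) = ∑ j ∈ range i, ℓ j * ζ j := by
    intro i
    induction i with
    | zero => rw [zero_add, hsum, range_zero, sum_empty]
    | succ i ih =>
      rw [show i + 1 + n = i + n + 1 by ring, hH0, hH0, ih, h.pℓ, hζ]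
  obtain ⟨c, E, hE0, hbnd, halt⟩ := hALT n ν v ℓ h (fun i => ∑ j ∈ range i, ℓ j * ζ j) hHper
  refine ⟨rt c.2, fun r hr => ?_⟩
  set u : ℕ → ℝ := fun i => ζ i + dp (rt c.2) (ν i) with hudef
  have hu : ∀ i, u (i + n) = u i := fun i => by simp only [hudef, hζ, h.pν]
  set Hu : ℕ → ℝ := fun i => (∑ j ∈ range i, ℓ j * ζ j) - af c (v i) with hHu
  have hH : ∀ i, Hu (i + 1) = Hu i + ℓ i * u i := by
    intro i
    simp only [hHu, hudef]
    rw [hH0]
    have e := edge_eq h i
    have e1 : (v (i + 1)).1 = (v i).1 - ℓ i * (ν i).2 := PEUaux.edge1 h i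
    have e2 : (v (i + 1)).2 = (v i).2 + ℓ i * (ν i).1 := PEUaux.edge2 h i
    simp only [af, dp, rt, e1, e2]
    ring
  have hper : ∀ i, Hu (i + n) = Hu i := fun i => by
    simp only [hHu]; rw [hHper, h.pv]
  have hb : ∀ i, |Hu i| ≤ E := hbnd
  have hJ : J2 n ν v ℓ r u = J2 n ν v ℓ r ζ := by
    have he : ∀ i, (fun j => dp (ν j) (rt c.2)) (i + n) = (fun j => dp (ν j) (rt c.2)) i :=
      fun i => by simp only [h.pν]
    have e1 : u = fun j => ζ j + 1 * (fun j => dp (ν j) (rt c.2)) j := by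
      funext j
      simp only [hudef, one_mul]
      rw [Ld.dp_comm]
    have hP := (blk_PEU n ν v ℓ h).2.2.2.2.2.2.2
    rw [e1, Ld.J2_test h r hζ he 1, hP (rt c.2) r ζ hζ]
    unfold J2
    rw [hP (rt c.2) r _ he, hsum, PEUaux.closure_dp h]
    ring
  have hG : ∑ i ∈ range n, Gt n ν v ℓ W r u i =
      -J2 n ν v ℓ r u - 2 * ∑ i ∈ range n, EI v ℓ r i * u i ^ 2 / W i := by
    rw [J2_eq h r hu]
    unfold Gt
    rw [sum_sub_distrib, sum_neg_distrib, mul_sum]
  have hpos : 0 ≤ ∑ i ∈ range n, Gt n ν v ℓ W r u i := by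
    rcases eq_or_lt_of_le hE0 with hE | hE
    · have hz : ∀ i, ℓ i * u i = 0 := by
        intro i
        have z1 := hb i
        have z2 := hb (i + 1)
        rw [← hE] at z1 z2
        have z3 := abs_nonpos_iff.1 z1
        have z4 := abs_nonpos_iff.1 z2
        have := hH i
        rw [z3, z4] at this
        linarith
      refine le_of_eq (Eq.symm ?_)
      refine sum_eq_zero fun i _ => ?_
      unfold Gt Ft
      rw [cpU_next h hu, hz i]
      have hui : u i = 0 := by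
        rcases mul_eq_zero.1 (hz i) with q | q
        · exact absurd q (h.pos i).ne'
        · exact q
      rw [hui]
      simp
    · obtain ⟨i₀, i₁, i₂, i₃, h01, h12, h23, h30, H0, H1, H2, H3⟩ := halt hE
      exact four hARC hORI h hu W hWp hW r hr Hu hH hper E hE hb i₀ i₁ i₂ i₃ h01 h12 h23 h30
        H0 H1 H2 H3
  rw [hG, hJ] at hpos
  linarith

end Pool.G1
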