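import Pool.Agent.Work.MP_b5407d_g1.Pl_ARC2

/-!
# CHEB: the geometric arc inequality `Stmt_ARC`
-/

set_option autoImplicit false

namespace Pool.G1.ARC

open Finset

lemma cp_ext {x y e e' : R2} (h1 : cp x e = cp y e) (h2 : cp x e' = cp y e') (h : cp e e' ≠ 0) :
    x = y := by
  unfold cp at *
  have e1 : (e.1 * e'.2 - e.2 * e'.1) * (x.1 - y.1) = 0 := by linear_combination e.1 * h2 - e'.1 * h1
  have e2 : (e.1 * e'.2 - e.2 * e'.1) * (x.2 - y.2) = 0 := by linear_combination e.2 * h2 - e'.2 * h1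
  ext
  · have := (mul_eq_zero.mp e1).resolve_left h; linarith
  · have := (mul_eq_zero.mp e2).resolve_left h; linarith

section defs
variable (M : ℕ) (q : ℕ → R2) (a : R2) (h : ℕ → ℝ) (mb mc lb lc : ℝ)

noncomputable def AA : ℝ := cp (q 0 - a) (q M - a)
noncomputable def fφ (v : ℕ) : ℝ := cp (q v - a) (q M - a) / AA M q a
noncomputable def fψ (v : ℕ) : ℝ := cp (q 0 - a) (q v - a) / AA M q a
noncomputable def fw (v : ℕ) : ℝ := cp (q v - a) (q (v + 1) - a) / AA M q a
noncomputable def fS : ℕ → ℝ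
  | 0 => mb - 1
  | (v + 1) => if v < M then (fφ M q a (v + 1) - fφ M q a v) / fw M q a v else -1
noncomputable def fR : ℕ → ℝ
  | 0 => 1
  | (v + 1) => if v < M then (fψ M q a (v + 1) - fψ M q a v) / fw M q a v else 1 - mc
noncomputable def fK : ℕ → ℝ
  | 0 => 0
  | (v + 1) => if v < M then (h (v + 1) - h v) / fw M q a v else 0
noncomputable def fd : ℕ → ℝ
  | 0 => mb - 1 - fS M q a mb 1
  | (v + 1) => if v + 1 < M then
      cp (q (v + 1) - q v) (q (v + 2) - q (v + 1)) / AA M q a / (fw M q a v * fw M q a (v + 1))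
      else fR M q a mc M - (1 - mc)
noncomputable def fX : ℕ → ℝ
  | 0 => -(AA M q a * lb)
  | (v + 1) => if v + 1 < M then
      (fK M q a h (v + 1) - fK M q a h (v + 2)) / fd M q a mb mc (v + 1) else AA M q a * lc

end defs

/-- Abel summation -/
lemma abel (K Y : ℕ → ℝ) (M : ℕ) :
    ∑ i ∈ range M, K (i + 1) * (Y (i + 1) - Y i) =
      ∑ v ∈ range (M + 1), Y v * (K v - K (v + 1)) + K (M + 1) * Y M - K 0 * Y 0 := by
  induction M with
  | zero => simp; ring
  | succ m ih => rw [sum_range_succ, ih, sum_range_succ _ (m + 1)]; ring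

section main
variable {M : ℕ} {q U : ℕ → R2} {a : R2} {lam h : ℕ → ℝ} {T mb mc lb lc : ℝ}

lemma cp_sub_sub (x y z : R2) : cp (x - z) (y - z) = cp x y - cp x z - cp z y := by
  simp only [cp, Prod.fst_sub, Prod.snd_sub]; ring

/-- hypotheses bundle -/
structure Hy (M : ℕ) (q U : ℕ → R2) (a : R2) (lam h : ℕ → ℝ) (T mb mc lb lc : ℝ) : Prop where
  hM : 1 ≤ M
  O1 : ∀ i j, i < j → j ≤ M → 0 < cp (q i - a) (q j - a)
  O2 : ∀ i j k, i < j → j < k → k ≤ M → 0 < cp (q j - q i) (q k - q i)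
  hU : ∀ i, i < M → U (i + 1) - U i = lam i • (q (i + 1) - q i)
  h0 : h 0 = 0
  h1 : h M = 1
  hh : ∀ i, i ≤ M → 0 ≤ h i ∧ h i ≤ 1
  hc : ∀ i, i < M → cp (U i) (q (i + 1) - q i) = T * (h (i + 1) - h i)
  mb0 : 0 < mb
  mc0 : 0 < mc
  lb0 : 0 ≤ lb
  lc0 : 0 ≤ lc
  U0 : U 0 = (T * lb) • (mb • (q 0 - a) + (q M - q 0))
  UM : U M = (T * lc) • (mc • (q M - a) + (q 0 - q M))
  s0 : 0 ≤ cp (mb • (q 0 - a) + (q M - q 0)) (q 1 - q 0)
  sM : 0 ≤ cp (q (M - 1) - q M) (mc • (q M - a) + (q 0 - q M))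

namespace Hy

variable (H : Hy M q U a lam h T mb mc lb lc)

include H

lemma A0 : 0 < AA M q a := H.O1 0 M (by have := H.hM; omega) le_rfl

lemma w0 (v : ℕ) (hv : v < M) : 0 < fw M q a v := div_pos (H.O1 v (v + 1) (by omega) hv) H.A0

lemma wA (v : ℕ) : cp (q v - a) (q (v + 1) - a) = AA M q a * fw M q a v := by
  have := H.A0.ne'
  unfold fw; field_simp

lemma φA (v : ℕ) : cp (q v - a) (q M - a) = AA M q a * fφ M q a v := by
  have := H.A0.ne'
  unfold fφ; field_simp

lemma ψA (v : ℕ) : cp (q 0 - a) (q v - a) = AA M q a * fψ M q a v := by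
  have := H.A0.ne'
  unfold fψ; field_simp

/-- barycentric decomposition -/
lemma dec (v : ℕ) : q v - a = fφ M q a v • (q 0 - a) + fψ M q a v • (q M - a) := by
  have hA := H.A0.ne'
  have e : AA M q a • (q v - a) =
      cp (q v - a) (q M - a) • (q 0 - a) + cp (q 0 - a) (q v - a) • (q M - a) := by
    unfold AA
    ext
    · simp only [cp, Prod.fst_sub, Prod.snd_sub, Prod.fst_add, Prod.smul_fst, smul_eq_mul]; ring
    · simp only [cp, Prod.fst_sub, Prod.snd_sub, Prod.snd_add, Prod.smul_snd, smul_eq_mul]; ring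
  rw [H.φA, H.ψA, mul_smul, mul_smul, ← smul_add] at e
  exact smul_right_injective R2 hA e

/-- Wronskian -/
lemma wr (v : ℕ) : fφ M q a v * fψ M q a (v + 1) - fφ M q a (v + 1) * fψ M q a v = fw M q a v := by
  have hA := H.A0.ne'
  have e : AA M q a * cp (q v - a) (q (v + 1) - a) =
      cp (q v - a) (q M - a) * cp (q 0 - a) (q (v + 1) - a) -
        cp (q (v + 1) - a) (q M - a) * cp (q 0 - a) (q v - a) := by
    unfold AA
    simp only [cp]; ring
  rw [H.φA, H.ψA, H.φA, H.ψA, H.wA] at e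
  have e2 : AA M q a * AA M q a * (fφ M q a v * fψ M q a (v + 1) -
      fφ M q a (v + 1) * fψ M q a v - fw M q a v) = 0 := by linear_combination -e
  have := (mul_eq_zero.mp e2).resolve_left (mul_ne_zero hA hA)
  linarith

lemma wr2 (i j : ℕ) : fφ M q a i * fψ M q a j - fφ M q a j * fψ M q a i =
    cp (q i - a) (q j - a) / AA M q a := by
  have hA := H.A0.ne'
  have e : AA M q a * cp (q i - a) (q j - a) =
      cp (q i - a) (q M - a) * cp (q 0 - a) (q j - a) -
        cp (q j - a) (q M - a) * cp (q 0 - a) (q i - a) := by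
    unfold AA
    simp only [cp]; ring
  rw [H.φA, H.ψA, H.φA, H.ψA] at e
  field_simp
  have e2 : AA M q a * (AA M q a * (fφ M q a i * fψ M q a j -
      fφ M q a j * fψ M q a i) - cp (q i - a) (q j - a)) = 0 := by linear_combination -e
  have := (mul_eq_zero.mp e2).resolve_left hA
  linarith

lemma φ0 : fφ M q a 0 = 1 := by
  have := H.A0.ne'
  unfold fφ; exact div_self this

lemma ψM : fψ M q a M = 1 := by
  have := H.A0.ne'
  unfold fψ; exact div_self this

lemma ψ0 : fψ M q a 0 = 0 := by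
  unfold fψ cp; simp; left; ring

lemma φM : fφ M q a M = 0 := by
  unfold fφ cp; simp; left; ring

lemma fS1 (v : ℕ) (hv : v < M) :
    fφ M q a (v + 1) = fφ M q a v + fw M q a v * fS M q a mb (v + 1) := by
  have := (H.w0 v hv).ne'
  simp only [fS, if_pos hv]; field_simp; ring

lemma fR1 (v : ℕ) (hv : v < M) :
    fψ M q a (v + 1) = fψ M q a v + fw M q a v * fR M q a mc (v + 1) := by
  have := (H.w0 v hv).ne'
  simp only [fR, if_pos hv]; field_simp; ring

lemma fK1 (v : ℕ) (hv : v < M) :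
    h (v + 1) = h v + fw M q a v * fK M q a h (v + 1) := by
  have := (H.w0 v hv).ne'
  simp only [fK, if_pos hv]; field_simp; ring

/-- first slope of `ψ` is one -/
lemma R1 : fR M q a mc 1 = 1 := by
  have hM := H.hM
  have h1 := H.fR1 0 (by omega)
  have h2 := H.wr 0
  rw [H.φ0, H.ψ0] at h2
  simp only [zero_add] at h1 h2
  rw [H.ψ0] at h1
  have hw := (H.w0 0 (by omega))
  have h3 : fw M q a 0 * (fR M q a mc 1 - 1) = 0 := by linear_combination h2 - h1
  have := (mul_eq_zero.mp h3).resolve_left hw.ne'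
  linarith

/-- last slope of `φ` is minus one -/
lemma SM : fS M q a mb M = -1 := by
  have hM := H.hM
  obtain ⟨m, hm⟩ : ∃ m, M = m + 1 := ⟨M - 1, by omega⟩
  have h1 := H.fS1 m (by omega)
  have h2 := H.wr m
  rw [← hm, H.φM] at h1 h2
  rw [H.ψM] at h2
  have hw := (H.w0 m (by omega))
  have h3 : fw M q a m * (fS M q a mb M + 1) = 0 := by linear_combination -h1 - h2
  have := (mul_eq_zero.mp h3).resolve_left hw.ne'
  linarith

/-- `d` in the interior is positive -/
lemma dpos (v : ℕ) (hv : v + 1 < M) : 0 < fd M q a mb mc (v + 1) := by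
  have h1 := H.w0 v (by omega)
  have h2 := H.w0 (v + 1) hv
  have h3 := H.A0
  have h4 := H.O2 v (v + 1) (v + 2) (by omega) (by omega) (by omega)
  have h5 : cp (q (v + 1) - q v) (q (v + 2) - q (v + 1)) =
      cp (q (v + 1) - q v) (q (v + 2) - q v) := by
    simp only [cp, Prod.fst_sub, Prod.snd_sub]; ring
  simp only [fd, if_pos hv]
  rw [h5]
  positivity

lemma dD (v : ℕ) (hv : v + 1 < M) : cp (q (v + 1) - q v) (q (v + 2) - q (v + 1)) =
    AA M q a * (fd M q a mb mc (v + 1) * (fw M q a v * fw M q a (v + 1))) := by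
  have h1 := (H.w0 v (by omega)).ne'
  have h2 := (H.w0 (v + 1) hv).ne'
  have h3 := H.A0.ne'
  simp only [fd, if_pos hv]
  field_simp

/-- the vector Jacobi equation -/
lemma jacv (v : ℕ) (hv : v + 1 < M) :
    fw M q a v • (q (v + 2) - q (v + 1)) - fw M q a (v + 1) • (q (v + 1) - q v) =
      -(fd M q a mb mc (v + 1) * (fw M q a v * fw M q a (v + 1))) • (q (v + 1) - a) := by
  have h3 := H.A0.ne'
  have e : AA M q a • (fw M q a v • (q (v + 2) - q (v + 1)) -
      fw M q a (v + 1) • (q (v + 1) - q v)) =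
      AA M q a • (-(fd M q a mb mc (v + 1) * (fw M q a v * fw M q a (v + 1))) •
        (q (v + 1) - a)) := by
    rw [smul_sub, smul_smul, smul_smul, smul_smul, mul_neg, ← H.dD v hv, ← H.wA v, ← H.wA (v + 1)]
    ext
    · simp only [cp, Prod.fst_sub, Prod.snd_sub, Prod.smul_fst, smul_eq_mul]; ring
    · simp only [cp, Prod.fst_sub, Prod.snd_sub, Prod.smul_snd, smul_eq_mul]; ring
  exact smul_right_injective R2 h3 e

lemma vS (v : ℕ) (hv : v ≤ M) :
    fS M q a mb (v + 1) = fS M q a mb v - fd M q a mb mc v * fφ M q a v := by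
  rcases Nat.eq_zero_or_pos v with h0 | h0
  · subst h0
    rw [H.φ0]
    simp only [fd, fS]; ring
  rcases hv.eq_or_lt with h1 | h1
  · subst h1
    rw [H.φM, H.SM]
    simp [fS]
  obtain ⟨u, rfl⟩ : ∃ u, v = u + 1 := ⟨v - 1, by omega⟩
  have hw1 := (H.w0 u (by omega)).ne'
  have hw2 := (H.w0 (u + 1) h1).ne'
  have h2 := H.fS1 u (by omega)
  have h3 := H.fS1 (u + 1) h1
  have hj := H.jacv u h1
  have hj2 := congrArg (fun z => cp z (q M - a)) hj
  have e1 : ∀ x y z : R2, ∀ s t : ℝ, cp (s • x - t • y) z = s * cp x z - t * cp y z := by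
    intro x y z s t
    simp only [cp, Prod.fst_sub, Prod.snd_sub, Prod.smul_fst, Prod.smul_snd, smul_eq_mul]; ring
  have e2 : ∀ x z : R2, ∀ s : ℝ, cp (s • x) z = s * cp x z := by
    intro x z s
    simp only [cp, Prod.smul_fst, Prod.smul_snd, smul_eq_mul]; ring
  have e3 : ∀ i j : ℕ, cp (q i - q j) (q M - a) = AA M q a * (fφ M q a i - fφ M q a j) := by
    intro i j
    rw [mul_sub, ← H.φA, ← H.φA]
    simp only [cp, Prod.fst_sub, Prod.snd_sub]; ring
  simp only [e1, e2, e3, H.φA] at hj2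
  have hA := H.A0.ne'
  have e4 : AA M q a * (fw M q a u * fw M q a (u + 1)) *
      (fS M q a mb (u + 1 + 1) -
        (fS M q a mb (u + 1) - fd M q a mb mc (u + 1) * fφ M q a (u + 1))) = 0 := by
    rw [show u + 2 = u + 1 + 1 from rfl] at hj2
    linear_combination hj2 - AA M q a * fw M q a u * h3 + AA M q a * fw M q a (u + 1) * h2
  have := (mul_eq_zero.mp e4).resolve_left (mul_ne_zero hA (mul_ne_zero hw1 hw2))
  linarith

lemma vR (v : ℕ) (hv : v ≤ M) :
    fR M q a mc (v + 1) = fR M q a mc v - fd M q a mb mc v * fψ M q a v := by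
  rcases Nat.eq_zero_or_pos v with h0 | h0
  · subst h0
    rw [H.ψ0]
    simp only [zero_add]
    rw [H.R1]
    simp [fR]
  rcases hv.eq_or_lt with h1 | h1
  · subst h1
    rw [H.ψM]
    obtain ⟨u, rfl⟩ : ∃ u, v = u + 1 := ⟨v - 1, by omega⟩
    simp only [fd]
    rw [if_neg (by omega)]
    have : fR (u + 1) q a mc (u + 1 + 1) = 1 - mc := by simp [fR]
    rw [this]; ring
  obtain ⟨u, rfl⟩ : ∃ u, v = u + 1 := ⟨v - 1, by omega⟩
  have hw1 := (H.w0 u (by omega)).ne'
  have hw2 := (H.w0 (u + 1) h1).ne'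
  have h2 := H.fR1 u (by omega)
  have h3 := H.fR1 (u + 1) h1
  have hj := H.jacv u h1
  have hj2 := congrArg (fun z => cp (q 0 - a) z) hj
  have e1 : ∀ x y z : R2, ∀ s t : ℝ, cp z (s • x - t • y) = s * cp z x - t * cp z y := by
    intro x y z s t
    simp only [cp, Prod.fst_sub, Prod.snd_sub, Prod.smul_fst, Prod.smul_snd, smul_eq_mul]; ring
  have e2 : ∀ x z : R2, ∀ s : ℝ, cp z (s • x) = s * cp z x := by
    intro x z s
    simp only [cp, Prod.smul_fst, Prod.smul_snd, smul_eq_mul]; ring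
  have e3 : ∀ i j : ℕ, cp (q 0 - a) (q i - q j) = AA M q a * (fψ M q a i - fψ M q a j) := by
    intro i j
    rw [mul_sub, ← H.ψA, ← H.ψA]
    simp only [cp, Prod.fst_sub, Prod.snd_sub]; ring
  simp only [e1, e2, e3, H.ψA] at hj2
  have hA := H.A0.ne'
  have e4 : AA M q a * (fw M q a u * fw M q a (u + 1)) *
      (fR M q a mc (u + 1 + 1) -
        (fR M q a mc (u + 1) - fd M q a mb mc (u + 1) * fψ M q a (u + 1))) = 0 := by
    rw [show u + 2 = u + 1 + 1 from rfl] at hj2
    linear_combination hj2 - AA M q a * fw M q a u * h3 + AA M q a * fw M q a (u + 1) * h2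
  have := (mul_eq_zero.mp e4).resolve_left (mul_ne_zero hA (mul_ne_zero hw1 hw2))
  linarith

lemma s0eq : cp (mb • (q 0 - a) + (q M - q 0)) (q 1 - q 0) =
    AA M q a * (fw M q a 0 * fd M q a mb mc 0) := by
  have hM := H.hM
  have h1 := H.R1
  have h2 := H.fR1 0 (by omega)
  have h3 := H.fS1 0 (by omega)
  simp only [zero_add] at h2 h3
  rw [H.ψ0, h1] at h2
  rw [H.φ0] at h3
  have e1 : cp (mb • (q 0 - a) + (q M - q 0)) (q 1 - q 0) =
      (mb - 1) * cp (q 0 - a) (q 1 - a) - (cp (q 1 - a) (q M - a) - cp (q 0 - a) (q M - a)) := by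
    simp only [cp, Prod.fst_sub, Prod.snd_sub, Prod.fst_add, Prod.snd_add, Prod.smul_fst,
      Prod.smul_snd, smul_eq_mul]; ring
  rw [e1, H.ψA, H.φA, H.φA, H.φ0]
  simp only [fd]
  linear_combination AA M q a * (mb - 1) * h2 - AA M q a * h3

lemma sMeq : cp (q (M - 1) - q M) (mc • (q M - a) + (q 0 - q M)) =
    AA M q a * (fw M q a (M - 1) * fd M q a mb mc M) := by
  have hM := H.hM
  obtain ⟨u, rfl⟩ : ∃ u, M = u + 1 := ⟨M - 1, by omega⟩
  have h2 := H.fR1 u (by omega)
  have h4 := H.wr u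
  rw [H.ψM] at h2
  rw [H.ψM, H.φM] at h4
  simp only [Nat.add_sub_cancel]
  have e1 : cp (q u - q (u + 1)) (mc • (q (u + 1) - a) + (q 0 - q (u + 1))) =
      (mc - 1) * cp (q u - a) (q (u + 1) - a) -
        (cp (q 0 - a) (q u - a) - cp (q 0 - a) (q (u + 1) - a)) := by
    simp only [cp, Prod.fst_sub, Prod.snd_sub, Prod.fst_add, Prod.snd_add, Prod.smul_fst,
      Prod.smul_snd, smul_eq_mul]; ring
  rw [e1, H.ψA, H.ψA, H.wA, H.ψM]
  simp only [fd]
  rw [if_neg (by omega)]
  linear_combination AA (u + 1) q a * h2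

lemma d0' : 0 ≤ fd M q a mb mc 0 := by
  have hM := H.hM
  have h1 := H.s0
  rw [H.s0eq] at h1
  have h2 := H.A0
  have h3 := H.w0 0 (by omega)
  by_contra hc
  push Not at hc
  have : AA M q a * (fw M q a 0 * fd M q a mb mc 0) < 0 :=
    mul_neg_of_pos_of_neg h2 (mul_neg_of_pos_of_neg h3 hc)
  linarith

lemma dM' : 0 ≤ fd M q a mb mc M := by
  have hM := H.hM
  have h1 := H.sM
  rw [H.sMeq] at h1
  have h2 := H.A0
  have h3 := H.w0 (M - 1) (by omega)
  by_contra hc
  push Not at hc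
  have : AA M q a * (fw M q a (M - 1) * fd M q a mb mc M) < 0 :=
    mul_neg_of_pos_of_neg h2 (mul_neg_of_pos_of_neg h3 hc)
  linarith

lemma dn (v : ℕ) (hv : v ≤ M) : 0 ≤ fd M q a mb mc v := by
  rcases Nat.eq_zero_or_pos v with h0 | h0
  · subst h0; exact H.d0'
  rcases hv.eq_or_lt with h1 | h1
  · subst h1; exact H.dM'
  obtain ⟨u, rfl⟩ : ∃ u, v = u + 1 := ⟨v - 1, by omega⟩
  exact (H.dpos u h1).le

/-- swept areas -/
lemma ck (i : ℕ) (hi : i < M) :
    cp (U i) (q (i + 1) - q i) = T * (fw M q a i * fK M q a h (i + 1)) := by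
  rw [H.hc i hi, H.fK1 i hi]; ring

lemma ck' (i : ℕ) (hi : i < M) :
    cp (U (i + 1)) (q (i + 1) - q i) = T * (fw M q a i * fK M q a h (i + 1)) := by
  rw [← H.ck i hi]
  have h1 := H.hU i hi
  have h2 : U (i + 1) = U i + lam i • (q (i + 1) - q i) := by rw [← h1]; abel
  rw [h2]
  simp only [cp, Prod.fst_sub, Prod.snd_sub, Prod.fst_add, Prod.snd_add, Prod.smul_fst,
      Prod.smul_snd, smul_eq_mul]; ring

lemma vK (hT : T ≠ 0) (v : ℕ) (hv : v ≤ M) :
    fK M q a h (v + 1) = fK M q a h v - fd M q a mb mc v * fX M q a h mb mc lb lc v := by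
  have hM := H.hM
  rcases Nat.eq_zero_or_pos v with h0 | h0
  · subst h0
    have h1 := H.ck 0 (by omega)
    simp only [zero_add] at h1 ⊢
    have hw := (H.w0 0 (by omega)).ne'
    have e1 : cp (U 0) (q 1 - q 0) =
        (T * lb) * cp (mb • (q 0 - a) + (q M - q 0)) (q 1 - q 0) := by
      rw [H.U0]
      simp only [cp, Prod.smul_fst, Prod.smul_snd, smul_eq_mul]; ring
    rw [e1, H.s0eq] at h1
    have e2 : T * fw M q a 0 * (fK M q a h 1 -
        (0 - fd M q a mb mc 0 * -(AA M q a * lb))) = 0 := by linear_combination -h1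
    have := (mul_eq_zero.mp e2).resolve_left (mul_ne_zero hT hw)
    simp only [fX]
    rw [show fK M q a h 0 = 0 from rfl]
    linarith
  rcases hv.eq_or_lt with h1 | h1
  · subst h1
    obtain ⟨u, rfl⟩ : ∃ u, v = u + 1 := ⟨v - 1, by omega⟩
    have h1 := H.ck' u (by omega)
    have hw := (H.w0 u (by omega)).ne'
    have e1 : cp (U (u + 1)) (q (u + 1) - q u) =
        (T * lc) * cp (q (u + 1 - 1) - q (u + 1)) (mc • (q (u + 1) - a) + (q 0 - q (u + 1))) := by
      rw [H.UM]
      simp only [Nat.add_sub_cancel, cp, Prod.smul_fst, Prod.smul_snd, Prod.fst_sub,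
        Prod.snd_sub, smul_eq_mul]; ring
    rw [e1, H.sMeq] at h1
    simp only [Nat.add_sub_cancel] at h1
    have e2 : T * fw (u + 1) q a u * (fK (u + 1) q a h (u + 1) -
        fd (u + 1) q a mb mc (u + 1) * (AA (u + 1) q a * lc)) = 0 := by linear_combination -h1
    have := (mul_eq_zero.mp e2).resolve_left (mul_ne_zero hT hw)
    have e3 : fK (u + 1) q a h (u + 1 + 1) = 0 := by simp [fK]
    have e4 : fX (u + 1) q a h mb mc lb lc (u + 1) = AA (u + 1) q a * lc := by simp [fX]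
    rw [e3, e4]; linarith
  obtain ⟨u, rfl⟩ : ∃ u, v = u + 1 := ⟨v - 1, by omega⟩
  have hd := (H.dpos u h1).ne'
  have e4 : fX M q a h mb mc lb lc (u + 1) =
      (fK M q a h (u + 1) - fK M q a h (u + 2)) / fd M q a mb mc (u + 1) := by
    simp only [fX, if_pos h1]
  rw [e4]; field_simp; ring

lemma cp_lin1 (x y z : R2) (s t : ℝ) : cp (s • x - t • y) z = s * cp x z - t * cp y z := by
  simp only [cp, Prod.fst_sub, Prod.snd_sub, Prod.smul_fst, Prod.smul_snd, smul_eq_mul]; ring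

lemma UA (hT : T ≠ 0) (v : ℕ) (hv : v < M) :
    AA M q a • U v = T • (fK M q a h (v + 1) • (q v - a) -
      (fX M q a h mb mc lb lc v / fw M q a v) • (q (v + 1) - q v)) := by
  have hM := H.hM
  rcases Nat.eq_zero_or_pos v with h0 | h0
  · subst h0
    have h1 := H.vK hT 0 (by omega)
    have hw := (H.w0 0 (by omega)).ne'
    simp only [zero_add] at h1 ⊢
    rw [show fK M q a h 0 = 0 from rfl] at h1
    have e0 : fX M q a h mb mc lb lc 0 = -(AA M q a * lb) := rfl
    rw [e0] at h1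
    rw [h1, e0, H.U0]
    have h2 := H.dec 1
    have h3 := H.R1
    have h4 := H.fR1 0 (by omega)
    have h5 := H.fS1 0 (by omega)
    simp only [zero_add] at h4 h5
    rw [H.ψ0, h3] at h4
    rw [H.φ0] at h5
    have e1 : q 1 - q 0 = (q 1 - a) - (q 0 - a) := by abel
    have e2 : q M - q 0 = (q M - a) - (q 0 - a) := by abel
    rw [e1, e2, h2, h4, h5]
    have e3 : fd M q a mb mc 0 = mb - 1 - fS M q a mb 1 := rfl
    rw [e3]
    generalize q 0 - a = b
    generalize q M - a = c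
    ext
    · simp only [Prod.fst_sub, Prod.fst_add, Prod.smul_fst, smul_eq_mul]; field_simp; ring
    · simp only [Prod.snd_sub, Prod.snd_add, Prod.smul_snd, smul_eq_mul]; field_simp; ring
  obtain ⟨u, rfl⟩ : ∃ u, v = u + 1 := ⟨v - 1, by omega⟩
  have hw1 := (H.w0 u (by omega)).ne'
  have hw2 := (H.w0 (u + 1) hv).ne'
  have hA := H.A0.ne'
  have hD := H.dD u hv
  have hd := H.dpos u hv
  have hk := H.vK hT (u + 1) hv.le
  have c1 := H.ck' u (by omega)
  have c2 := H.ck (u + 1) hv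
  have c3 : cp (q (u + 1) - a) (q (u + 1) - q u) = AA M q a * fw M q a u := by
    rw [← H.wA]; simp only [cp, Prod.fst_sub, Prod.snd_sub]; ring
  have c4 : cp (q (u + 1) - a) (q (u + 1 + 1) - q (u + 1)) = AA M q a * fw M q a (u + 1) := by
    rw [← H.wA]; simp only [cp, Prod.fst_sub, Prod.snd_sub]; ring
  have c5 : cp (q (u + 1 + 1) - q (u + 1)) (q (u + 1) - q u) =
      -(AA M q a * (fd M q a mb mc (u + 1) * (fw M q a u * fw M q a (u + 1)))) := by
    rw [← hD]; simp only [cp]; ring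
  have es : ∀ x z : R2, ∀ s : ℝ, cp (s • x) z = s * cp x z := by
    intro x z s
    simp only [cp, Prod.smul_fst, Prod.smul_snd, smul_eq_mul]; ring
  have e0 : ∀ x : R2, cp x x = 0 := by intro x; simp only [cp]; ring
  refine cp_ext (e := q (u + 1) - q u) (e' := q (u + 1 + 1) - q (u + 1)) ?_ ?_ ?_
  · rw [es, es, H.cp_lin1, c1, c3, c5, hk]
    field_simp; ring
  · rw [es, es, H.cp_lin1, c2, c4, e0]
    ring
  · rw [show u + 1 + 1 = u + 2 from rfl, hD]
    have := H.w0 u (by omega)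
    have := H.w0 (u + 1) hv
    have := H.A0
    positivity

lemma UB (hT : T ≠ 0) (v : ℕ) (hv : v < M) :
    AA M q a • U (v + 1) = T • (fK M q a h (v + 1) • (q (v + 1) - a) -
      (fX M q a h mb mc lb lc (v + 1) / fw M q a v) • (q (v + 1) - q v)) := by
  have hM := H.hM
  have hlt : v + 1 ≤ M := hv
  rcases hlt.eq_or_lt with h1 | h1
  · subst h1
    have h1 := H.vK hT (v + 1) le_rfl
    have hw := (H.w0 v (by omega)).ne'
    have e3 : fK (v + 1) q a h (v + 1 + 1) = 0 := by simp [fK]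
    have e4 : fX (v + 1) q a h mb mc lb lc (v + 1) = AA (v + 1) q a * lc := by simp [fX]
    rw [e3, e4] at h1
    have h1' : fK (v + 1) q a h (v + 1) = fd (v + 1) q a mb mc (v + 1) * (AA (v + 1) q a * lc) := by
      linarith
    rw [h1', e4, H.UM]
    have h2 := H.dec v
    have h4 := H.fR1 v (by omega)
    have h5 := H.wr v
    rw [H.ψM] at h4 h5
    rw [H.φM] at h5
    have h6 : fφ (v + 1) q a v = fw (v + 1) q a v := by linarith
    have h7 : fψ (v + 1) q a v = 1 - fw (v + 1) q a v * fR (v + 1) q a mc (v + 1) := by linarith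
    have e1 : q (v + 1) - q v = (q (v + 1) - a) - (q v - a) := by abel
    have e2 : q 0 - q (v + 1) = (q 0 - a) - (q (v + 1) - a) := by abel
    have e5 : fd (v + 1) q a mb mc (v + 1) = fR (v + 1) q a mc (v + 1) - (1 - mc) := by
      simp [fd]
    rw [e1, e2, h2, h6, h7, e5]
    generalize q 0 - a = b
    generalize q (v + 1) - a = c
    ext
    · simp only [Prod.fst_sub, Prod.fst_add, Prod.smul_fst, smul_eq_mul]; field_simp; ring
    · simp only [Prod.snd_sub, Prod.snd_add, Prod.smul_snd, smul_eq_mul]; field_simp; ring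
  have hw1 := (H.w0 v (by omega)).ne'
  have hw2 := (H.w0 (v + 1) h1).ne'
  have hA := H.A0.ne'
  have hD := H.dD v h1
  have hd := H.dpos v h1
  have hk := H.vK hT (v + 1) h1.le
  have c1 := H.ck' v (by omega)
  have c2 := H.ck (v + 1) h1
  have c3 : cp (q (v + 1) - a) (q (v + 1) - q v) = AA M q a * fw M q a v := by
    rw [← H.wA]; simp only [cp, Prod.fst_sub, Prod.snd_sub]; ring
  have c4 : cp (q (v + 1) - a) (q (v + 1 + 1) - q (v + 1)) = AA M q a * fw M q a (v + 1) := by
    rw [← H.wA]; simp only [cp, Prod.fst_sub, Prod.snd_sub]; ring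
  have es : ∀ x z : R2, ∀ s : ℝ, cp (s • x) z = s * cp x z := by
    intro x z s
    simp only [cp, Prod.smul_fst, Prod.smul_snd, smul_eq_mul]; ring
  have e0 : ∀ x : R2, cp x x = 0 := by intro x; simp only [cp]; ring
  refine cp_ext (e := q (v + 1) - q v) (e' := q (v + 1 + 1) - q (v + 1)) ?_ ?_ ?_
  · rw [es, es, H.cp_lin1, c1, c3, e0]
    ring
  · rw [es, es, H.cp_lin1, c2, c4, show v + 1 + 1 = v + 2 from rfl, hD]
    rw [show v + 2 = v + 1 + 1 from rfl, hk]
    field_simp
  · rw [show v + 1 + 1 = v + 2 from rfl, hD]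
    have := H.w0 v (by omega)
    have := H.w0 (v + 1) h1
    have := H.A0
    positivity

lemma φp (v : ℕ) (hv : v < M) : 0 < fφ M q a v := div_pos (H.O1 v M hv le_rfl) H.A0
lemma ψp (v : ℕ) (h0 : 0 < v) (hv : v ≤ M) : 0 < fψ M q a v := div_pos (H.O1 0 v h0 hv) H.A0

lemma φn (v : ℕ) (hv : v ≤ M) : 0 ≤ fφ M q a v := by
  rcases hv.eq_or_lt with h1 | h1
  · subst h1; rw [H.φM]
  · exact (H.φp v h1).le

lemma ψn (v : ℕ) (hv : v ≤ M) : 0 ≤ fψ M q a v := by
  rcases Nat.eq_zero_or_pos v with h1 | h1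
  · subst h1; rw [H.ψ0]
  · exact (H.ψp v h1 hv).le

lemma g1 (v : ℕ) (h0 : 0 < v) (hv : v < M) : 1 < fφ M q a v + fψ M q a v := by
  have h1 := H.O2 0 v M h0 hv le_rfl
  have hA := H.A0
  have e : cp (q v - q 0) (q M - q 0) =
      AA M q a * (fφ M q a v + fψ M q a v - 1) := by
    rw [mul_sub, mul_add, ← H.φA, ← H.ψA, mul_one]
    unfold AA
    simp only [cp, Prod.fst_sub, Prod.snd_sub]; ring
  rw [e] at h1
  have := (mul_pos_iff_of_pos_left hA).mp h1
  linarith

lemma gg (v : ℕ) (hv : v ≤ M) : 1 ≤ fφ M q a v + fψ M q a v := by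
  rcases Nat.eq_zero_or_pos v with h1 | h1
  · subst h1; rw [H.φ0, H.ψ0]; norm_num
  rcases hv.eq_or_lt with h2 | h2
  · subst h2; rw [H.φM, H.ψM]; norm_num
  exact (H.g1 v h1 h2).le

lemma cR (k v : ℕ) (hk : k < M) (hkv : k ≤ v) (hv : v ≤ M) :
    ∃ α β : ℝ, 0 ≤ α ∧ 0 ≤ β ∧ 1 ≤ α + β ∧
    fφ M q a v = α * fφ M q a k ∧ fψ M q a v = α * fψ M q a k + β := by
  have hφk := H.φp k hk
  have hA := H.A0
  have hw := H.wr2 k v
  have e1 : 0 ≤ cp (q k - a) (q v - a) := by
    rcases hkv.eq_or_lt with h1 | h1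
    · subst h1; simp only [cp]; nlinarith
    · exact (H.O1 k v h1 hv).le
  have e2 : 0 ≤ cp (q v - q k) (q M - q k) := by
    rcases hkv.eq_or_lt with h1 | h1
    · subst h1; simp [cp]
    rcases hv.eq_or_lt with h2 | h2
    · subst h2; simp only [cp]; nlinarith
    · exact (H.O2 k v M h1 h2 le_rfl).le
  refine ⟨fφ M q a v / fφ M q a k, cp (q k - a) (q v - a) / AA M q a / fφ M q a k,
    div_nonneg (H.φn v hv) hφk.le, by positivity, ?_, by field_simp, ?_⟩
  · rw [← add_div, le_div_iff₀ hφk, one_mul]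
    have e3 : cp (q v - q k) (q M - q k) = AA M q a * (fφ M q a v - fφ M q a k) +
        cp (q k - a) (q v - a) := by
      rw [mul_sub, ← H.φA, ← H.φA]
      simp only [cp, Prod.fst_sub, Prod.snd_sub]; ring
    rw [e3] at e2
    have e4 : cp (q k - a) (q v - a) = AA M q a * (cp (q k - a) (q v - a) / AA M q a) := by
      field_simp
    rw [e4, ← mul_add] at e2
    have := nonneg_of_mul_nonneg_right e2 hA
    linarith
  · rw [← hw]; field_simp; ring

lemma cL (k v : ℕ) (hk : 0 < k) (hkv : v ≤ k) (hkM : k ≤ M) :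
    ∃ α β : ℝ, 0 ≤ α ∧ 0 ≤ β ∧ 1 ≤ α + β ∧
    fφ M q a v = α * fφ M q a k + β ∧ fψ M q a v = α * fψ M q a k := by
  have hψk := H.ψp k hk hkM
  have hA := H.A0
  have hw := H.wr2 v k
  have e1 : 0 ≤ cp (q v - a) (q k - a) := by
    rcases hkv.eq_or_lt with h1 | h1
    · subst h1; simp only [cp]; nlinarith
    · exact (H.O1 v k h1 hkM).le
  have e2 : 0 ≤ cp (q v - q 0) (q k - q 0) := by
    rcases hkv.eq_or_lt with h1 | h1
    · subst h1; simp only [cp]; nlinarith
    rcases Nat.eq_zero_or_pos v with h2 | h2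
    · subst h2; simp [cp]
    · exact (H.O2 0 v k h2 h1 hkM).le
  refine ⟨fψ M q a v / fψ M q a k, cp (q v - a) (q k - a) / AA M q a / fψ M q a k,
    div_nonneg (H.ψn v (by omega)) hψk.le, by positivity, ?_, ?_, by field_simp⟩
  · rw [← add_div, le_div_iff₀ hψk, one_mul]
    have e3 : cp (q v - q 0) (q k - q 0) = AA M q a * (fψ M q a v - fψ M q a k) +
        cp (q v - a) (q k - a) := by
      rw [mul_sub, ← H.ψA, ← H.ψA]
      simp only [cp, Prod.fst_sub, Prod.snd_sub]; ring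
    rw [e3] at e2
    have e4 : cp (q v - a) (q k - a) = AA M q a * (cp (q v - a) (q k - a) / AA M q a) := by
      field_simp
    rw [e4, ← mul_add] at e2
    have := nonneg_of_mul_nonneg_right e2 hA
    linarith
  · rw [← hw]; field_simp; ring

/-- the abstract chain -/
lemma toCh (hT : T ≠ 0) : Ch M (fφ M q a) (fψ M q a) h (fS M q a mb) (fR M q a mc)
    (fK M q a h) (fw M q a) (fd M q a mb mc) (fX M q a h mb mc lb lc) mb mc where
  M1 := H.hM
  vS := H.vS
  vR := H.vR
  vK := H.vK hT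
  eφ := fun v hv => H.fS1 v hv
  eψ := fun v hv => H.fR1 v hv
  eh := fun v hv => H.fK1 v hv
  φ0 := H.φ0
  ψ0 := H.ψ0
  h0 := H.h0
  S0 := rfl
  R0 := rfl
  K0 := rfl
  φM := H.φM
  ψM := H.ψM
  hM := H.h1
  SM := by simp [fS]
  RM := by simp [fR]
  KM := by simp [fK]
  w0 := H.w0
  d0 := H.dn
  hh := H.hh
  φn := H.φn
  ψn := H.ψn
  gg := H.gg
  g1 := H.g1
  cR := H.cR
  cL := H.cL

/-- barycentric value of an affine function -/
lemma rrv (r : ℝ × R2) (v : ℕ) :
    rr (af r a) (af r (q 0)) (af r (q M)) (fφ M q a v) (fψ M q a v) = af r (q v) := by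
  have h1 := H.dec v
  have h2 : q v = a + (fφ M q a v • (q 0 - a) + fψ M q a v • (q M - a)) := by rw [← h1]; abel
  rw [h2]
  unfold rr af dp
  simp only [Prod.fst_sub, Prod.snd_sub, Prod.fst_add, Prod.snd_add, Prod.smul_fst,
      Prod.smul_snd, smul_eq_mul]
  ring

lemma term (hT : T ≠ 0) (r : ℝ × R2) (i : ℕ) (hi : i < M) :
    AA M q a * (-(cp (U i) (q (i + 1) - q i) *
            (lam i * (af r (q i) + af r (q (i + 1))) + dp r.2 (U i + U (i + 1))) / 2) -
          cp (U i) (q (i + 1) - q i) ^ 2 * (af r (q i) + af r (q (i + 1))) /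
            cp (q i - a) (q (i + 1) - a)) =
      T ^ 2 * (fw M q a i * fK M q a h (i + 1) ^ 2 *
        (af r a - 2 * af r (q i) - 2 * af r (q (i + 1))) +
        fK M q a h (i + 1) * (fX M q a h mb mc lb lc (i + 1) * af r (q (i + 1)) -
          fX M q a h mb mc lb lc i * af r (q i))) := by
  have hA := H.A0.ne'
  have hw := (H.w0 i hi).ne'
  have uA := H.UA hT i hi
  have uB := H.UB hT i hi
  set A := AA M q a with hAdef
  set w := fw M q a i with hwdef
  set k := fK M q a h (i + 1) with hkdef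
  set X := fX M q a h mb mc lb lc i
  set X' := fX M q a h mb mc lb lc (i + 1)
  have hl : A * lam i = T * (k - (X' - X) / w) := by
    have h1 := H.hU i hi
    have h2 : (A * lam i) • (q (i + 1) - q i) =
        (T * (k - (X' - X) / w)) • (q (i + 1) - q i) := by
      rw [mul_smul, ← h1, smul_sub, uA, uB]
      ext
      · simp only [Prod.fst_sub, Prod.smul_fst, smul_eq_mul]; field_simp; ring
      · simp only [Prod.snd_sub, Prod.smul_snd, smul_eq_mul]; field_simp; ring
    have h3 := congrArg (fun z => cp (q i - a) z) h2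
    have h4 : cp (q i - a) (q (i + 1) - q i) = A * w := by
      rw [← H.wA]; simp only [cp, Prod.fst_sub, Prod.snd_sub]; ring
    have es : ∀ x z : R2, ∀ s : ℝ, cp z (s • x) = s * cp z x := by
      intro x z s
      simp only [cp, Prod.smul_fst, Prod.smul_snd, smul_eq_mul]; ring
    simp only [es, h4] at h3
    exact mul_right_cancel₀ (mul_ne_zero hA hw) h3
  have hdp : A * dp r.2 (U i + U (i + 1)) =
      T * (k * (af r (q i) - af r a + (af r (q (i + 1)) - af r a)) -
        (X + X') / w * (af r (q (i + 1)) - af r (q i))) := by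
    have h1 : A * dp r.2 (U i + U (i + 1)) = dp r.2 (A • U i + A • U (i + 1)) := by
      unfold dp
      simp only [Prod.fst_add, Prod.snd_add, Prod.smul_fst, Prod.smul_snd, smul_eq_mul]; ring
    rw [h1, uA, uB]
    unfold af dp
    simp only [Prod.fst_sub, Prod.snd_sub, Prod.fst_add, Prod.snd_add, Prod.smul_fst,
      Prod.smul_snd, smul_eq_mul]
    ring
  have hc := H.ck i hi
  rw [← hwdef, ← hkdef] at hc
  rw [hc, H.wA, ← hAdef, ← hwdef]
  have e1 : A * (-(T * (w * k) * (lam i * (af r (q i) + af r (q (i + 1))) +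
        dp r.2 (U i + U (i + 1))) / 2) -
      (T * (w * k)) ^ 2 * (af r (q i) + af r (q (i + 1))) / (A * w)) =
      -(T * (w * k) * ((A * lam i) * (af r (q i) + af r (q (i + 1))) +
        A * dp r.2 (U i + U (i + 1))) / 2) -
      T ^ 2 * w * k ^ 2 * (af r (q i) + af r (q (i + 1))) := by
    field_simp
  rw [e1, hl, hdp]
  field_simp
  ring

end Hy

end main

theorem ARC : Stmt_ARC := by
  intro M q U a lam h r T mb mc lb lc hM hO1 hO2 hU hh0 hhM hh hcp hmb hmc hlb hlc hU0 hUM hs0 hsM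
    hra hrq
  have H : Hy M q U a lam h T mb mc lb lc :=
    ⟨hM, hO1, hO2, hU, hh0, hhM, hh, hcp, hmb, hmc, hlb, hlc, hU0, hUM, hs0, hsM⟩
  by_cases hT : T = 0
  · subst hT
    have h1 : ∀ i ∈ range M, (-(cp (U i) (q (i + 1) - q i) *
            (lam i * (af r (q i) + af r (q (i + 1))) + dp r.2 (U i + U (i + 1))) / 2) -
          cp (U i) (q (i + 1) - q i) ^ 2 * (af r (q i) + af r (q (i + 1))) /
            cp (q i - a) (q (i + 1) - a)) = 0 := by
      intro i hi
      rw [mem_range] at hi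
      rw [hcp i hi]; simp
    rw [sum_eq_zero h1]; simp
  have key := chain (H.toCh hT) hmb hmc (af r a) (af r (q 0)) (af r (q M)) hra
    (hrq 0 (by omega)) (hrq M le_rfl) (fun v hv => by rw [H.rrv]; exact hrq v hv)
  have h2 : cp (q 0 - a) (q M - a) = AA M q a := rfl
  rw [h2, mul_sum, sum_congr rfl (fun i hi => H.term hT r i (mem_range.mp hi)), ← mul_sum]
  refine mul_le_mul_of_nonneg_left (key.trans (le_of_eq ?_)) (by positivity)
  unfold cost
  simp only [H.rrv]
  rw [sum_add_distrib, abel (fK M q a h) (fun v => fX M q a h mb mc lb lc v * af r (q v))]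
  have e1 : fK M q a h (M + 1) = 0 := by simp [fK]
  have e2 : fK M q a h 0 = 0 := rfl
  rw [e1, e2, zero_mul, zero_mul, add_zero, sub_zero, add_comm]
  congr 1
  refine sum_congr rfl (fun v hv => ?_)
  have hv' : v ≤ M := by rw [mem_range] at hv; omega
  have h3 := H.vK hT v hv'
  rw [h3]; ring

end Pool.G1.ARC
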