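import Pool.Agent.Work.MP_b5407d_g1.Pl_CHEBdefs

/-!
# ORI: three vertices of a convex polygon in cyclic order are positively oriented
-/

set_option autoImplicit false

namespace Pool.G1

namespace ORIaux

variable {n : ℕ} {ν v : ℕ → R2} {ℓ : ℕ → ℝ}

theorem per_mod {α : Type} {f : ℕ → α} (hf : ∀ i, f (i + n) = f i) (i : ℕ) : f i = f (i % n) := by
  have h : ∀ q r : ℕ, f (r + q * n) = f r := by
    intro q
    induction q with
    | zero => intro r; simp
    | succ q ih =>
      intro r
      have : r + (q + 1) * n = r + q * n + n := by ring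
      rw [this, hf, ih]
  conv_lhs => rw [← Nat.mod_add_div i n, mul_comm n]
  exact h _ _

theorem nu_inj (P : Poly n ν v ℓ) {i j : ℕ} (h : ν i = ν j) : i % n = j % n := by
  have hn : 0 < n := by have := P.n3; omega
  exact P.inj _ _ (Nat.mod_lt _ hn) (Nat.mod_lt _ hn) (by
    rw [← per_mod P.pν, ← per_mod P.pν]; exact h)

/-- the support function in direction `ν m` is attained only at the ends of the edge `m` -/
theorem strict (P : Poly n ν v ℓ) {m x : ℕ} (h1 : (x + 1) % n ≠ m % n) (h2 : x % n ≠ m % n) :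
    dp (ν m) (v (x + 1)) < dp (ν m) (v m) := by
  refine lt_of_le_of_ne (P.conv m (x + 1)) fun heq => ?_
  have t := P.turn x
  have e1 := P.edge x
  have e2 := P.edge (x + 1)
  have e3 := P.edge m
  have l1 := P.pos x
  have l2 := P.pos (x + 1)
  have l3 := P.pos m
  have u1 := P.unit x
  have u2 := P.unit (x + 1)
  have u3 := P.unit m
  have c1 := P.conv m x
  have c2 := P.conv m (x + 1 + 1)
  have c3 := P.conv x m
  have c4 := P.conv (x + 1) m
  have c5 := P.conv x (m + 1)
  have c6 := P.conv (x + 1) (m + 1)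
  rw [e2] at c2
  rw [e3] at c5 c6
  -- `cp (ν x) (ν m) ≥ 0`, `cp (ν m) (ν (x+1)) ≥ 0`
  have k1 : 0 ≤ cp (ν x) (ν m) := by
    have h : dp (ν m) (v (x + 1)) = dp (ν m) (v x) + ℓ x * cp (ν x) (ν m) := by
      rw [e1]; simp only [dp, cp, rt, Prod.fst_add, Prod.snd_add, Prod.smul_fst, Prod.smul_snd,
        smul_eq_mul]; ring
    have h3 : 0 ≤ ℓ x * cp (ν x) (ν m) := by linarith
    exact nonneg_of_mul_nonneg_right h3 l1
  have k2 : 0 ≤ cp (ν m) (ν (x + 1)) := by
    have h : dp (ν m) (v (x + 1) + ℓ (x + 1) • rt (ν (x + 1))) =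
        dp (ν m) (v (x + 1)) - ℓ (x + 1) * cp (ν m) (ν (x + 1)) := by
      simp only [dp, cp, rt, Prod.fst_add, Prod.snd_add, Prod.smul_fst, Prod.smul_snd,
        smul_eq_mul]; ring
    rw [h] at c2
    have h3 : 0 ≤ ℓ (x + 1) * cp (ν m) (ν (x + 1)) := by linarith
    exact nonneg_of_mul_nonneg_right h3 l2
  -- both are positive
  have k1' : 0 < cp (ν x) (ν m) := by
    refine lt_of_le_of_ne k1 fun h0 => h2 (nu_inj P ?_)
    -- `ν m = s ν x`, `s = dp (ν x) (ν m)`, `s^2 = 1`, `s > 0`
    simp only [cp, dp] at *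
    set s := (ν x).1 * (ν m).1 + (ν x).2 * (ν m).2 with hs
    have hs2 : s ^ 2 = 1 := by
      have : s ^ 2 + ((ν x).1 * (ν m).2 - (ν x).2 * (ν m).1) ^ 2 =
          ((ν x).1 * (ν x).1 + (ν x).2 * (ν x).2) * ((ν m).1 * (ν m).1 + (ν m).2 * (ν m).2) := by
        rw [hs]; ring
      rw [u1, u3, ← h0] at this; linarith
    have m1 : (ν m).1 = s * (ν x).1 := by
      rw [hs]; linear_combination (-(ν m).1) * u1 + (ν x).2 * h0
    have m2 : (ν m).2 = s * (ν x).2 := by
      rw [hs]; linear_combination (-(ν m).2) * u1 - (ν x).1 * h0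
    have hspos : 0 < s := by
      rcases lt_or_ge 0 s with h | h
      · exact h
      · exfalso
        rcases eq_or_lt_of_le h with h | h
        · rw [h] at hs2; norm_num at hs2
        · rw [m1, m2] at k2
          have : s * ((ν x).1 * (ν (x + 1)).2 - (ν x).2 * (ν (x + 1)).1) < 0 :=
            mul_neg_of_neg_of_pos h t
          nlinarith
    have hs1 : s = 1 := by nlinarith
    rw [hs1, one_mul] at m1 m2
    exact Prod.ext m1.symm m2.symm
  have k2' : 0 < cp (ν m) (ν (x + 1)) := by
    refine lt_of_le_of_ne k2 fun h0 => h1 (nu_inj P ?_)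
    simp only [cp, dp] at *
    set s := (ν (x + 1)).1 * (ν m).1 + (ν (x + 1)).2 * (ν m).2 with hs
    have hs2 : s ^ 2 = 1 := by
      have : s ^ 2 + ((ν m).1 * (ν (x + 1)).2 - (ν m).2 * (ν (x + 1)).1) ^ 2 =
          ((ν (x + 1)).1 * (ν (x + 1)).1 + (ν (x + 1)).2 * (ν (x + 1)).2) *
            ((ν m).1 * (ν m).1 + (ν m).2 * (ν m).2) := by
        rw [hs]; ring
      rw [u2, u3, ← h0] at this; linarith
    have m1 : (ν m).1 = s * (ν (x + 1)).1 := by
      rw [hs]; linear_combination (-(ν m).1) * u2 - (ν (x + 1)).2 * h0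
    have m2 : (ν m).2 = s * (ν (x + 1)).2 := by
      rw [hs]; linear_combination (-(ν m).2) * u2 + (ν (x + 1)).1 * h0
    have hspos : 0 < s := by
      rcases lt_or_ge 0 s with h | h
      · exact h
      · exfalso
        rcases eq_or_lt_of_le h with h | h
        · rw [h] at hs2; norm_num at hs2
        · rw [m1, m2] at k1
          have : s * ((ν x).1 * (ν (x + 1)).2 - (ν x).2 * (ν (x + 1)).1) < 0 :=
            mul_neg_of_neg_of_pos h t
          nlinarith
    have hs1 : s = 1 := by nlinarith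
    rw [hs1, one_mul] at m1 m2
    exact Prod.ext m1.symm m2.symm
  -- the point `v (x+1)` lies on the lines `x` and `x+1`
  have p1 : dp (ν x) (v (x + 1)) = dp (ν x) (v x) := by
    rw [e1]; simp only [dp, rt, Prod.fst_add, Prod.snd_add, Prod.smul_fst, Prod.smul_snd,
      smul_eq_mul]; ring
  have q1 : dp (ν m) (v m + ℓ m • rt (ν m)) = dp (ν m) (v m) := by
    simp only [dp, rt, Prod.fst_add, Prod.snd_add, Prod.smul_fst, Prod.smul_snd, smul_eq_mul]; ring
  -- `ν m` is a positive combination of `ν x`, `ν (x+1)`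
  have key : ∀ z : R2, dp (ν x) z ≤ dp (ν x) (v x) → dp (ν (x + 1)) z ≤ dp (ν (x + 1)) (v (x + 1)) →
      dp (ν m) z = dp (ν m) (v m) → z = v (x + 1) := by
    intro z z1 z2 z3
    rw [← p1] at z1
    rw [← heq] at z3
    have id1 : ∀ y : R2, cp (ν x) (ν (x + 1)) * dp (ν m) y =
        cp (ν m) (ν (x + 1)) * dp (ν x) y + cp (ν x) (ν m) * dp (ν (x + 1)) y := by
      intro y; simp only [dp, cp]; ring
    have i1 := id1 z
    have i2 := id1 (v (x + 1))
    rw [z3] at i1
    have j1 : dp (ν x) z = dp (ν x) (v (x + 1)) := by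
      refine le_antisymm z1 ?_
      have : cp (ν m) (ν (x + 1)) * (dp (ν x) (v (x + 1)) - dp (ν x) z) +
          cp (ν x) (ν m) * (dp (ν (x + 1)) (v (x + 1)) - dp (ν (x + 1)) z) = 0 := by
        linarith
      have h2 : 0 ≤ cp (ν x) (ν m) * (dp (ν (x + 1)) (v (x + 1)) - dp (ν (x + 1)) z) :=
        mul_nonneg k1 (by linarith)
      have h3 : cp (ν m) (ν (x + 1)) * (dp (ν x) (v (x + 1)) - dp (ν x) z) ≤ 0 := by linarith
      have := nonpos_of_mul_nonpos_right h3 k2'
      linarith
    have j2 : dp (ν (x + 1)) z = dp (ν (x + 1)) (v (x + 1)) := by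
      rw [j1] at i1
      have : cp (ν x) (ν m) * (dp (ν (x + 1)) z - dp (ν (x + 1)) (v (x + 1))) = 0 := by linarith
      rcases mul_eq_zero.1 this with h | h
      · exact absurd h k1'.ne'
      · linarith
    simp only [dp, cp] at j1 j2 t
    have t' := t.ne'
    refine Prod.ext ?_ ?_
    · apply mul_left_cancel₀ t'
      linear_combination (ν (x + 1)).2 * j1 - (ν x).2 * j2
    · apply mul_left_cancel₀ t'
      linear_combination (ν x).1 * j2 - (ν (x + 1)).1 * j1
  have a1 := key (v m) c3 c4 rfl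
  have a2 := key (v m + ℓ m • rt (ν m)) c5 c6 q1
  rw [← a1] at a2
  have h3 : ℓ m • rt (ν m) = 0 := by
    have := a2
    rwa [add_eq_left] at this
  rcases smul_eq_zero.1 h3 with h | h
  · exact l3.ne' h
  · have b1 : (ν m).2 = 0 := by
      have := congrArg Prod.fst h
      simp only [rt, Prod.fst_zero] at this; linarith
    have b2 : (ν m).1 = 0 := by
      have := congrArg Prod.snd h
      simpa only [rt, Prod.snd_zero] using this
    simp only [dp, b1, b2] at u3
    norm_num at u3

/-- the vertex `v x` is strictly on the left of the edge `m` -/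
theorem left_pos (P : Poly n ν v ℓ) {m x : ℕ} (h1 : (x + 1) % n ≠ m % n) (h2 : x % n ≠ m % n) :
    0 < cp (v (m + 1) - v m) (v (x + 1) - v m) := by
  have h := strict P h1 h2
  have e : cp (v (m + 1) - v m) (v (x + 1) - v m) =
      ℓ m * (dp (ν m) (v m) - dp (ν m) (v (x + 1))) := by
    rw [P.edge m]
    simp only [cp, dp, rt, Prod.fst_add, Prod.snd_add, Prod.fst_sub, Prod.snd_sub, Prod.smul_fst,
      Prod.smul_snd, smul_eq_mul]; ring
  rw [e]
  exact mul_pos (P.pos m) (by linarith)

theorem ne_mod {a b : ℕ} (hab : a < b) (hb : b < a + n) : b % n ≠ a % n := by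
  intro h
  have h1 : (n : ℤ) ∣ (b : ℤ) - a := by
    have := (Nat.modEq_iff_dvd (n := n) (a := a) (b := b)).1 h.symm
    exact this
  have h2 := Int.le_of_dvd (by omega) h1
  omega

theorem ori (P : Poly n ν v ℓ) (i j k : ℕ) (hij : i < j) (hjk : j < k) (hk : k < i + n) :
    0 < cp (v j - v i) (v k - v i) := by
  have hn := P.n3
  -- half plane
  have hu : ∀ m, i + 1 < m → m < i + n → 0 < cp (v (i + 1) - v i) (v m - v i) := by
    intro m h1 h2
    obtain ⟨x, rfl⟩ : ∃ x, m = x + 1 := ⟨m - 1, by omega⟩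
    exact left_pos P (ne_mod (by omega) (by omega)) (ne_mod (by omega) (by omega))
  -- consecutive
  have hc : ∀ m, i < m → m + 1 < i + n → 0 < cp (v m - v i) (v (m + 1) - v i) := by
    intro m h1 h2
    have h := left_pos P (m := m) (x := i + n - 1)
      (by
        have e : i + n - 1 + 1 = i + n := by omega
        rw [e]
        exact ne_mod (by omega) (by omega))
      (ne_mod (by omega) (by omega))
    have e : i + n - 1 + 1 = i + n := by omega
    rw [e, P.pv i] at h
    have e2 : cp (v m - v i) (v (m + 1) - v i) = cp (v (m + 1) - v m) (v i - v m) := by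
      simp only [cp, Prod.fst_sub, Prod.snd_sub]; ring
    rw [e2]; exact h
  -- induction
  obtain ⟨d, rfl⟩ : ∃ d, k = j + 1 + d := ⟨k - (j + 1), by omega⟩
  clear hjk
  induction d with
  | zero => exact hc j hij (by omega)
  | succ d ih =>
    have ih' := ih (by omega)
    rcases Nat.lt_or_ge (i + 1) j with h | h
    · have h1 := hu j h (by omega)
      have h2 := hu (j + 1 + d) (by omega) (by omega)
      have h3 := hu (j + 1 + (d + 1)) (by omega) hk
      have h4 := hc (j + 1 + d) (by omega) (by omega)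
      have e : j + 1 + (d + 1) = j + 1 + d + 1 := by omega
      rw [e] at h3 ⊢
      have pl : cp (v j - v i) (v (j + 1 + d + 1) - v i) * cp (v (i + 1) - v i) (v (j + 1 + d) - v i) =
          cp (v j - v i) (v (j + 1 + d) - v i) * cp (v (i + 1) - v i) (v (j + 1 + d + 1) - v i) +
          cp (v (j + 1 + d) - v i) (v (j + 1 + d + 1) - v i) *
            cp (v (i + 1) - v i) (v j - v i) := by
        simp only [cp]; ring
      have : 0 < cp (v j - v i) (v (j + 1 + d + 1) - v i) *
          cp (v (i + 1) - v i) (v (j + 1 + d) - v i) := by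
        rw [pl]; positivity
      exact (mul_pos_iff_of_pos_right h2).1 this
    · have : j = i + 1 := by omega
      subst this
      exact hu _ (by omega) hk

end ORIaux

theorem ORI : Stmt_ORI := fun _ _ _ _ P i j k hij hjk hk => ORIaux.ori P i j k hij hjk hk

end Pool.G1
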