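import Pool.Agent.Work.MP_b5407d_g1.Pl_CHEB
import Pool.Agent.Work.MP_b5407d_g1.Pl_CHEBarc
import Pool.Agent.Work.MP_b5407d_g1.Pl_ORI
import Pool.Agent.Work.MP_b5407d_g1.Pl_ALT

/-!
# Theorem CHEB, unconditional

`ARC` (helper38), `ORI` (helper51), `ALT` (helper94), assembly `CHEB_of` (helper79).
-/

set_option autoImplicit false

namespace Pool.G1

theorem CHEB : Stmt_CHEB := CHEB_of ARC.ARC ORI (ALT ORI)

end Pool.G1
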