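import Mathlib

/-!
# Theorem CHEB, the quadrilateral inequality (helper38, section (4c))
-/

set_option autoImplicit false

namespace Pool.G1.CHEBq

/-- left-hand side -/
noncomputable def LQ (D0 D1 D2 D3 r0 r1 r2 r3 : ℝ) : ℝ :=
  r0 * (1 / D1 + D2 / (D3 * D0)) + r1 * (1 / D2 + D3 / (D0 * D1)) +
    r2 * (1 / D3 + D0 / (D1 * D2)) + r3 * (1 / D0 + D1 / (D2 * D3))

/-- right-hand side -/
noncomputable def RQ (D0 D1 D2 D3 r0 r1 r2 r3 : ℝ) : ℝ :=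
  (r0 + r1) / max D0 D1 + (r1 + r2) / max D1 D2 + (r2 + r3) / max D2 D3 + (r3 + r0) / max D3 D0

lemma base_a (D0 D1 D2 D3 r0 r1 r2 r3 : ℝ) (h0 : 0 < D0) (h1 : 0 < D1) (h2 : 0 < D2)
    (h3 : 0 < D3) (q0 : 0 ≤ r0) (q1 : 0 ≤ r1) (q2 : 0 ≤ r2) (q3 : 0 ≤ r3)
    (hD : D0 + D2 = D1 + D3) (a1 : D1 ≤ D0) (b1 : D2 ≤ D1)
    (hc : D1 ≤ D3) :
    (r0 + r1) / D0 + (r1 + r2) / D1 + (r2 + r3) / D3 + (r3 + r0) / D0 ≤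
      LQ D0 D1 D2 D3 r0 r1 r2 r3 := by
  have e2 : D2 = D1 + D3 - D0 := by linarith
  have hkey : LQ D0 D1 D2 D3 r0 r1 r2 r3 -
      ((r0 + r1) / D0 + (r1 + r2) / D1 + (r2 + r3) / D3 + (r3 + r0) / D0) =
      r0 * ((D3 - D1) * (D0 - D1) / (D0 * D1 * D3)) +
      r1 * ((D0 * (D1 - D2) + D2 * (D3 - D1)) / (D0 * D1 * D2)) +
      r2 * ((D0 - D2) / (D1 * D2)) + r3 * ((D1 - D2) / (D2 * D3)) := by
    have t0 : 1 / D1 + D2 / (D3 * D0) - 2 / D0 = (D3 - D1) * (D0 - D1) / (D0 * D1 * D3) := by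
      rw [e2]; field_simp; ring
    have t1 : 1 / D2 + D3 / (D0 * D1) - 1 / D0 - 1 / D1 =
        (D0 * (D1 - D2) + D2 * (D3 - D1)) / (D0 * D1 * D2) := by
      field_simp; ring
    have t2 : D0 / (D1 * D2) - 1 / D1 = (D0 - D2) / (D1 * D2) := by
      field_simp
    have t3 : D1 / (D2 * D3) - 1 / D3 = (D1 - D2) / (D2 * D3) := by
      field_simp
    unfold LQ
    rw [← t0, ← t1, ← t2, ← t3]
    ring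
  have p0 : 0 ≤ r0 * ((D3 - D1) * (D0 - D1) / (D0 * D1 * D3)) := by
    have := sub_nonneg.2 hc
    have := sub_nonneg.2 a1
    positivity
  have p1 : 0 ≤ r1 * ((D0 * (D1 - D2) + D2 * (D3 - D1)) / (D0 * D1 * D2)) := by
    have := sub_nonneg.2 hc
    have := sub_nonneg.2 b1
    positivity
  have p2 : 0 ≤ r2 * ((D0 - D2) / (D1 * D2)) := by
    have : 0 ≤ D0 - D2 := by linarith
    positivity
  have p3 : 0 ≤ r3 * ((D1 - D2) / (D2 * D3)) := by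
    have := sub_nonneg.2 b1
    positivity
  linarith

/-- the mirrored expression is equal -/
lemma mirror (D0 D1 D2 D3 r0 r1 r2 r3 : ℝ) (h0 : 0 < D0) (h1 : 0 < D1) (h2 : 0 < D2)
    (h3 : 0 < D3) (hr : r0 * D2 - r1 * D3 + r2 * D0 - r3 * D1 = 0) :
    LQ D0 D1 D2 D3 r0 r1 r2 r3 = LQ D0 D3 D2 D1 r0 r3 r2 r1 := by
  have e : LQ D0 D1 D2 D3 r0 r1 r2 r3 - LQ D0 D3 D2 D1 r0 r3 r2 r1 =
      (D3 - D1) * (D0 - D2) / (D0 * D1 * D2 * D3) * (r0 * D2 - r1 * D3 + r2 * D0 - r3 * D1) := by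
    unfold LQ
    field_simp
    ring
  rw [hr, mul_zero] at e
  linarith

lemma base (D0 D1 D2 D3 r0 r1 r2 r3 : ℝ) (h0 : 0 < D0) (h1 : 0 < D1) (h2 : 0 < D2)
    (h3 : 0 < D3) (q0 : 0 ≤ r0) (q1 : 0 ≤ r1) (q2 : 0 ≤ r2) (q3 : 0 ≤ r3)
    (hr : r0 * D2 - r1 * D3 + r2 * D0 - r3 * D1 = 0)
    (hD : D0 + D2 = D1 + D3) (a1 : D1 ≤ D0) (a3 : D3 ≤ D0) :
    RQ D0 D1 D2 D3 r0 r1 r2 r3 ≤ LQ D0 D1 D2 D3 r0 r1 r2 r3 := by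
  have b1 : D2 ≤ D1 := by linarith
  have b3 : D2 ≤ D3 := by linarith
  have e : RQ D0 D1 D2 D3 r0 r1 r2 r3 =
      (r0 + r1) / D0 + (r1 + r2) / D1 + (r2 + r3) / D3 + (r3 + r0) / D0 := by
    unfold RQ
    rw [max_eq_left a1, max_eq_left b1, max_eq_right b3, max_eq_right a3]
  rw [e]
  rcases le_total D1 D3 with hc | hc
  · exact base_a D0 D1 D2 D3 r0 r1 r2 r3 h0 h1 h2 h3 q0 q1 q2 q3 hD a1 b1 hc
  · rw [mirror D0 D1 D2 D3 r0 r1 r2 r3 h0 h1 h2 h3 hr]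
    have h := base_a D0 D3 D2 D1 r0 r3 r2 r1 h0 h3 h2 h1 q0 q3 q2 q1 (by linarith) a3 b3 hc
    have e2 : (r0 + r3) / D0 + (r3 + r2) / D3 + (r2 + r1) / D1 + (r1 + r0) / D0 =
        (r0 + r1) / D0 + (r1 + r2) / D1 + (r2 + r3) / D3 + (r3 + r0) / D0 := by ring
    rw [e2] at h
    exact h

lemma LQ_rot (D0 D1 D2 D3 r0 r1 r2 r3 : ℝ) :
    LQ D1 D2 D3 D0 r1 r2 r3 r0 = LQ D0 D1 D2 D3 r0 r1 r2 r3 := by
  unfold LQ; ring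

lemma RQ_rot (D0 D1 D2 D3 r0 r1 r2 r3 : ℝ) :
    RQ D1 D2 D3 D0 r1 r2 r3 r0 = RQ D0 D1 D2 D3 r0 r1 r2 r3 := by
  unfold RQ; ring

/-- (4c) -/
theorem quad (D0 D1 D2 D3 r0 r1 r2 r3 : ℝ) (h0 : 0 < D0) (h1 : 0 < D1) (h2 : 0 < D2)
    (h3 : 0 < D3) (q0 : 0 ≤ r0) (q1 : 0 ≤ r1) (q2 : 0 ≤ r2) (q3 : 0 ≤ r3)
    (hr : r0 * D2 - r1 * D3 + r2 * D0 - r3 * D1 = 0)
    (hD : D0 + D2 = D1 + D3) :
    RQ D0 D1 D2 D3 r0 r1 r2 r3 ≤ LQ D0 D1 D2 D3 r0 r1 r2 r3 := by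
  have hcase : (D1 ≤ D0 ∧ D3 ≤ D0) ∨ (D2 ≤ D1 ∧ D0 ≤ D1) ∨ (D3 ≤ D2 ∧ D1 ≤ D2) ∨
      (D0 ≤ D3 ∧ D2 ≤ D3) := by
    rcases le_total D1 D0 with u | u
    · rcases le_total D3 D0 with w | w
      · exact Or.inl ⟨u, w⟩
      · exact Or.inr (Or.inr (Or.inr ⟨w, by linarith⟩))
    · rcases le_total D2 D1 with w | w
      · exact Or.inr (Or.inl ⟨w, u⟩)
      · exact Or.inr (Or.inr (Or.inl ⟨by linarith, w⟩))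
  rcases hcase with ⟨u, w⟩ | ⟨u, w⟩ | ⟨u, w⟩ | ⟨u, w⟩
  · exact base D0 D1 D2 D3 r0 r1 r2 r3 h0 h1 h2 h3 q0 q1 q2 q3 hr hD u w
  · rw [← LQ_rot, ← RQ_rot]
    exact base D1 D2 D3 D0 r1 r2 r3 r0 h1 h2 h3 h0 q1 q2 q3 q0 (by linarith) (by linarith) u w
  · rw [← LQ_rot, ← RQ_rot, ← LQ_rot, ← RQ_rot]
    exact base D2 D3 D0 D1 r2 r3 r0 r1 h2 h3 h0 h1 q2 q3 q0 q1 (by linarith) (by linarith) u w
  · rw [← LQ_rot, ← RQ_rot, ← LQ_rot, ← RQ_rot, ← LQ_rot, ← RQ_rot]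
    exact base D3 D0 D1 D2 r3 r0 r1 r2 h3 h0 h1 h2 q3 q0 q1 q2 (by linarith) (by linarith) u w

end Pool.G1.CHEBq
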