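import Pool.Agent.Work.MP_b5407d_g1.Pl_CHEBdefs
import Pool.Agent.Work.MP_b5407d_g1.Pl_CHEBq

/-!
# Theorem CHEB, scalar part of the assembly (helper38, sections (4a), (4b))
-/

set_option autoImplicit false

namespace Pool.G1.CHEBs

/-- `(m - 1)^2 / m` -/
noncomputable def ex (m : ℝ) : ℝ := (m - 1) ^ 2 / m

lemma ex_nonneg {m : ℝ} (h : 0 < m) : 0 ≤ ex m := by unfold ex; positivity

lemma ex_inv {m : ℝ} (h : 0 < m) : ex (1 / m) = ex m := by
  unfold ex; field_simp; ring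

lemma ex_mono {m m' : ℝ} (h : 1 ≤ m) (hm : m ≤ m') : ex m ≤ ex m' := by
  have e : ∀ x : ℝ, 1 ≤ x → ex x = x + 1 / x - 2 := fun x hx => by
    have : 0 < x := by linarith
    unfold ex; field_simp; ring
  rw [e m h, e m' (h.trans hm)]
  have h0 : 0 < m := by linarith
  have h0' : 0 < m' := by linarith
  have : 1 / m - 1 / m' = (m' - m) / (m * m') := by field_simp
  have h2 : (m' - m) / (m * m') ≤ m' - m := by
    apply div_le_self (by linarith)
    nlinarith
  linarith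

/-- excess at the beginning of an arc -/
noncomputable def Xe (m : ℝ) : ℝ := if 1 < m then ex m else 0

/-- excess at the end of an arc -/
noncomputable def Ye (m : ℝ) : ℝ := if m < 1 then ex m else 0

lemma Xe_add_Ye {m : ℝ} (h : 0 < m) : Xe m + Ye m ≤ ex m := by
  unfold Xe Ye
  have := ex_nonneg h
  split_ifs with h1 h2 h2
  · linarith
  · linarith
  · linarith
  · linarith

lemma thm_eq {m : ℝ} (h : 0 < m) : thm m = 2 - 1 / m + Xe m := by
  unfold thm Xe ex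
  rcases lt_trichotomy m 1 with h1 | h1 | h1
  · rw [if_neg (by linarith), if_neg (by linarith)]; ring
  · subst h1; norm_num
  · rw [if_pos h1.le, if_pos h1]
    field_simp
    ring

lemma Xe_inv {m : ℝ} (h : 0 < m) : Xe (1 / m) = Ye m := by
  unfold Xe Ye
  have h1 : 1 < 1 / m ↔ m < 1 := by rw [lt_div_iff₀ h, one_mul]
  by_cases h2 : m < 1
  · rw [if_pos (h1.2 h2), if_pos h2, ex_inv h]
  · rw [if_neg (fun h' => h2 (h1.1 h')), if_neg h2]

/-- the part of the energy of the quadrilateral on one side -/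
noncomputable def Ej (Db Dc Df rz rb rc mb mc : ℝ) : ℝ :=
  rz / Db + rb / (mb * Db) + rc * mc / Dc + rc * Df / (Db * Dc) - (rb + rc) / Db

/-- near witness of the first end point -/
lemma near {Db Dc Df rz rb rc mb mc : ℝ} (hb : 0 < Db) (hc : 0 < Dc) (hf : 0 < Df)
    (qc : 0 ≤ rc) (h1 : 0 < mb) (h2 : 0 < mc) (hD : Dc ≤ Db) :
    Ej Db Dc Df rz rb rc mb mc - (rb + rc) / Db - rb * Xe mb / Db - rc * Ye mc / Dc ≤
      (rz - thm mb * rb - thm (Dc / (mc * Db + Df)) * rc) / Db := by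
  have hp : 0 < mc * Db + Df := by positivity
  have hmn : 0 < Dc / (mc * Db + Df) := by positivity
  rw [thm_eq h1, thm_eq hmn]
  have key : rc * Xe (Dc / (mc * Db + Df)) / Db ≤ rc * Ye mc / Dc := by
    unfold Xe
    by_cases hx : 1 < Dc / (mc * Db + Df)
    · rw [if_pos hx]
      rw [lt_div_iff₀ hp, one_mul] at hx
      have hm : mc < 1 := by
        by_contra hcon
        push Not at hcon
        nlinarith
      unfold Ye
      rw [if_pos hm, ← ex_inv h2]
      have h3 : ex (Dc / (mc * Db + Df)) ≤ ex (1 / mc) := by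
        apply ex_mono
        · rw [le_div_iff₀ hp]; linarith
        · rw [div_le_div_iff₀ hp h2]; nlinarith
      have h4 : 0 ≤ ex (Dc / (mc * Db + Df)) := ex_nonneg hmn
      have h5 : 0 ≤ ex (1 / mc) := h4.trans h3
      rw [div_le_div_iff₀ hb hc]
      have h6 : rc * ex (Dc / (mc * Db + Df)) ≤ rc * ex (1 / mc) :=
        mul_le_mul_of_nonneg_left h3 qc
      have h7 : 0 ≤ rc * ex (Dc / (mc * Db + Df)) := mul_nonneg qc h4
      calc rc * ex (Dc / (mc * Db + Df)) * Dc ≤ rc * ex (Dc / (mc * Db + Df)) * Db :=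
            mul_le_mul_of_nonneg_left hD h7
        _ ≤ rc * ex (1 / mc) * Db := mul_le_mul_of_nonneg_right h6 hb.le
    · rw [if_neg hx, mul_zero, zero_div]
      have : 0 ≤ Ye mc := by
        unfold Ye; split_ifs
        · exact ex_nonneg h2
        · exact le_refl _
      positivity
  have e : (rz - (2 - 1 / mb + Xe mb) * rb -
      (2 - 1 / (Dc / (mc * Db + Df)) + Xe (Dc / (mc * Db + Df))) * rc) / Db =
      Ej Db Dc Df rz rb rc mb mc - (rb + rc) / Db - rb * Xe mb / Db -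
        rc * Xe (Dc / (mc * Db + Df)) / Db := by
    unfold Ej
    field_simp
    ring
  rw [e]
  linarith

/-- near witness of the second end point -/
lemma far {Dz Db Dc Df rz rb rc rf mb mc : ℝ} (hz : 0 < Dz) (hb : 0 < Db) (hc : 0 < Dc)
    (qb : 0 ≤ rb) (h1 : 0 < mb) (h2 : 0 < mc) (hD : Db ≤ Dc)
    (hrel : rz * Dc - rf * Db + rc * Dz - rb * Df = 0) (hs : Dz + Dc = Db + Df) :
    Ej Db Dc Df rz rb rc mb mc - (rb + rc) / Dc - rb * Xe mb / Db - rc * Ye mc / Dc ≤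
      (rf - thm (mb * Db / (mb * Dz + Dc)) * rb - thm (1 / mc) * rc) / Dc := by
  have hp : 0 < mb * Dz + Dc := by positivity
  have hmn : 0 < mb * Db / (mb * Dz + Dc) := by positivity
  have hmi : 0 < 1 / mc := by positivity
  rw [thm_eq hmi, thm_eq hmn, Xe_inv h2]
  have key : rb * Xe (mb * Db / (mb * Dz + Dc)) / Dc ≤ rb * Xe mb / Db := by
    by_cases hx : 1 < mb * Db / (mb * Dz + Dc)
    · have hx' := hx
      rw [lt_div_iff₀ hp, one_mul] at hx'
      have hm : 1 < mb := by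
        by_contra hcon
        push Not at hcon
        nlinarith [mul_pos h1 hz]
      unfold Xe
      rw [if_pos hx, if_pos hm]
      have h3 : ex (mb * Db / (mb * Dz + Dc)) ≤ ex mb := by
        apply ex_mono hx.le
        rw [div_le_iff₀ hp]
        have : 0 ≤ mb * (mb * Dz) := by positivity
        nlinarith
      have h4 : 0 ≤ ex (mb * Db / (mb * Dz + Dc)) := ex_nonneg hmn
      rw [div_le_div_iff₀ hc hb]
      have h6 : rb * ex (mb * Db / (mb * Dz + Dc)) ≤ rb * ex mb :=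
        mul_le_mul_of_nonneg_left h3 qb
      have h7 : 0 ≤ rb * ex (mb * Db / (mb * Dz + Dc)) := mul_nonneg qb h4
      calc rb * ex (mb * Db / (mb * Dz + Dc)) * Db ≤ rb * ex (mb * Db / (mb * Dz + Dc)) * Dc :=
            mul_le_mul_of_nonneg_left hD h7
        _ ≤ rb * ex mb * Dc := mul_le_mul_of_nonneg_right h6 hc.le
    · have : Xe (mb * Db / (mb * Dz + Dc)) = 0 := by unfold Xe; rw [if_neg hx]
      rw [this, mul_zero, zero_div]
      have : 0 ≤ Xe mb := by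
        unfold Xe; split_ifs
        · exact ex_nonneg h1
        · exact le_refl _
      positivity
  have e : (rf - (2 - 1 / (mb * Db / (mb * Dz + Dc)) + Xe (mb * Db / (mb * Dz + Dc))) * rb -
      (2 - 1 / (1 / mc) + Ye mc) * rc) / Dc =
      Ej Db Dc Df rz rb rc mb mc - (rb + rc) / Dc - rc * Ye mc / Dc -
        rb * Xe (mb * Db / (mb * Dz + Dc)) / Dc := by
    have hf : Df = Dz + Dc - Db := by linarith
    have hrf : rf = (rz * Dc + rc * Dz - rb * Df) / Db := by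
      field_simp; linarith
    unfold Ej
    rw [hrf, hf]
    field_simp
    ring
  rw [e]
  linarith

/-- total of the four sides -/
lemma total (D0 D1 D2 D3 r0 r1 r2 r3 m0 m1 m2 m3 : ℝ) (h0 : 0 < D0) (h1 : 0 < D1) (h2 : 0 < D2)
    (h3 : 0 < D3) (q0 : 0 ≤ r0) (q1 : 0 ≤ r1) (q2 : 0 ≤ r2) (q3 : 0 ≤ r3)
    (k0 : 0 < m0) (k1 : 0 < m1) (k2 : 0 < m2) (k3 : 0 < m3)
    (hr : r0 * D2 - r1 * D3 + r2 * D0 - r3 * D1 = 0)
    (hD : D0 + D2 = D1 + D3) :
    0 ≤ (Ej D0 D1 D2 r3 r0 r1 m0 m1 - (r0 + r1) / max D0 D1 - r0 * Xe m0 / D0 -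
          r1 * Ye m1 / D1) +
        (Ej D1 D2 D3 r0 r1 r2 m1 m2 - (r1 + r2) / max D1 D2 - r1 * Xe m1 / D1 -
          r2 * Ye m2 / D2) +
        (Ej D2 D3 D0 r1 r2 r3 m2 m3 - (r2 + r3) / max D2 D3 - r2 * Xe m2 / D2 -
          r3 * Ye m3 / D3) +
        (Ej D3 D0 D1 r2 r3 r0 m3 m0 - (r3 + r0) / max D3 D0 - r3 * Xe m3 / D3 -
          r0 * Ye m0 / D0) := by
  have hq := CHEBq.quad D0 D1 D2 D3 r0 r1 r2 r3 h0 h1 h2 h3 q0 q1 q2 q3 hr hD
  have hE : Ej D0 D1 D2 r3 r0 r1 m0 m1 + Ej D1 D2 D3 r0 r1 r2 m1 m2 +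
      Ej D2 D3 D0 r1 r2 r3 m2 m3 + Ej D3 D0 D1 r2 r3 r0 m3 m0 =
      CHEBq.LQ D0 D1 D2 D3 r0 r1 r2 r3 + (r0 * ex m0 / D0 + r1 * ex m1 / D1 +
        r2 * ex m2 / D2 + r3 * ex m3 / D3) := by
    have c3 : D3 = D0 + D2 - D1 := by linarith
    have t0 : r0 * (1 / D1 + (1 / m0 + m0) / D0 + D1 / (D3 * D0) - 1 / D0 - 1 / D3) =
        r0 * (1 / D1 + D2 / (D3 * D0)) + r0 * ex m0 / D0 := by
      unfold ex
      have : D2 = D1 + D3 - D0 := by linarith
      rw [this]
      field_simp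
      ring
    have t1 : r1 * (1 / D2 + (1 / m1 + m1) / D1 + D2 / (D0 * D1) - 1 / D1 - 1 / D0) =
        r1 * (1 / D2 + D3 / (D0 * D1)) + r1 * ex m1 / D1 := by
      unfold ex
      rw [c3]
      field_simp
      ring
    have t2 : r2 * (1 / D3 + (1 / m2 + m2) / D2 + D3 / (D1 * D2) - 1 / D2 - 1 / D1) =
        r2 * (1 / D3 + D0 / (D1 * D2)) + r2 * ex m2 / D2 := by
      unfold ex
      have : D0 = D1 + D3 - D2 := by linarith
      rw [this]
      field_simp
      ring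
    have t3 : r3 * (1 / D0 + (1 / m3 + m3) / D3 + D0 / (D2 * D3) - 1 / D3 - 1 / D2) =
        r3 * (1 / D0 + D1 / (D2 * D3)) + r3 * ex m3 / D3 := by
      unfold ex
      have : D1 = D0 + D2 - D3 := by linarith
      rw [this]
      field_simp
      ring
    have s1 : Ej D0 D1 D2 r3 r0 r1 m0 m1 + Ej D1 D2 D3 r0 r1 r2 m1 m2 +
        Ej D2 D3 D0 r1 r2 r3 m2 m3 + Ej D3 D0 D1 r2 r3 r0 m3 m0 =
        r0 * (1 / D1 + (1 / m0 + m0) / D0 + D1 / (D3 * D0) - 1 / D0 - 1 / D3) +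
        r1 * (1 / D2 + (1 / m1 + m1) / D1 + D2 / (D0 * D1) - 1 / D1 - 1 / D0) +
        r2 * (1 / D3 + (1 / m2 + m2) / D2 + D3 / (D1 * D2) - 1 / D2 - 1 / D1) +
        r3 * (1 / D0 + (1 / m3 + m3) / D3 + D0 / (D2 * D3) - 1 / D3 - 1 / D2) := by
      unfold Ej
      have e0 : r0 / (m0 * D0) = r0 * (1 / m0) / D0 := by field_simp
      have e1 : r1 / (m1 * D1) = r1 * (1 / m1) / D1 := by field_simp
      have e2 : r2 / (m2 * D2) = r2 * (1 / m2) / D2 := by field_simp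
      have e3 : r3 / (m3 * D3) = r3 * (1 / m3) / D3 := by field_simp
      rw [e0, e1, e2, e3]
      ring
    rw [s1, t0, t1, t2, t3]
    unfold CHEBq.LQ
    ring
  have x0 : r0 * Xe m0 / D0 + r0 * Ye m0 / D0 ≤ r0 * ex m0 / D0 := by
    rw [← add_div, ← mul_add]
    exact div_le_div_of_nonneg_right (mul_le_mul_of_nonneg_left (Xe_add_Ye k0) q0) h0.le
  have x1 : r1 * Xe m1 / D1 + r1 * Ye m1 / D1 ≤ r1 * ex m1 / D1 := by
    rw [← add_div, ← mul_add]
    exact div_le_div_of_nonneg_right (mul_le_mul_of_nonneg_left (Xe_add_Ye k1) q1) h1.le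
  have x2 : r2 * Xe m2 / D2 + r2 * Ye m2 / D2 ≤ r2 * ex m2 / D2 := by
    rw [← add_div, ← mul_add]
    exact div_le_div_of_nonneg_right (mul_le_mul_of_nonneg_left (Xe_add_Ye k2) q2) h2.le
  have x3 : r3 * Xe m3 / D3 + r3 * Ye m3 / D3 ≤ r3 * ex m3 / D3 := by
    rw [← add_div, ← mul_add]
    exact div_le_div_of_nonneg_right (mul_le_mul_of_nonneg_left (Xe_add_Ye k3) q3) h3.le
  unfold CHEBq.RQ at hq
  linarith

end Pool.G1.CHEBs
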