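import Pool.Agent.Work.MP_b5407d_g1.Pl_TWO1

/-!
# G1, LINE T: the two-state statement from six open chambers

`c_j = a_j + b_j - B - T`.  By the exchange of the chains and a perturbation of `a1, a2` (the closure is
repaired at `q1`) it is enough to know the inequality in the open chambers `A1, A2, B+, B-, C1, C2`.
-/

set_option autoImplicit false

open Finset Filter Topology

namespace Pool.G1.Gap

/-- the inequality for the data satisfying the condition `C` (a condition on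
`m1, m2, c1, c2`) -/
def TWC (vs mu : ℝ → ℝ → ℝ → ℝ → ℝ) (C : ℝ → ℝ → ℝ → ℝ → Prop) : Prop :=
  ∀ B T PB PT a1 a2 b1 b2 m1 m2 p1 p2 q1 q2 : ℝ, 0 < B → B < T → B < a1 → a1 < a2 → a2 < T →
    B < b2 → b2 < b1 → b1 < T → 0 < m1 → 0 < m2 → C m1 m2 (a1 + b1 - B - T) (a2 + b2 - B - T) →
    m1 * eV (vs B T PB PT) B T PB PT a1 p1 b1 q1 + m2 * eV (vs B T PB PT) B T PB PT a2 p2 b2 q2 = 0 →
    0 ≤ TWg (mu B T PB PT) B T a1 a2 b1 b2 m1 m2 PB PT p1 p2 q1 q2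

lemma TWC_mono {vs mu : ℝ → ℝ → ℝ → ℝ → ℝ} {C D : ℝ → ℝ → ℝ → ℝ → Prop} (h : TWC vs mu C)
    (hCD : ∀ m1 m2 c1 c2, 0 < m1 → 0 < m2 → D m1 m2 c1 c2 → C m1 m2 c1 c2) : TWC vs mu D :=
  fun B T PB PT a1 a2 b1 b2 m1 m2 p1 p2 q1 q2 h1 h2 h3 h4 h5 h6 h7 h8 h9 h10 h11 h12 =>
    h B T PB PT a1 a2 b1 b2 m1 m2 p1 p2 q1 q2 h1 h2 h3 h4 h5 h6 h7 h8 h9 h10
      (hCD _ _ _ _ h9 h10 h11) h12

lemma TWC_or {vs mu : ℝ → ℝ → ℝ → ℝ → ℝ} {C D : ℝ → ℝ → ℝ → ℝ → Prop} (h : TWC vs mu C) (h' : TWC vs mu D) :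
    TWC vs mu fun m1 m2 c1 c2 => C m1 m2 c1 c2 ∨ D m1 m2 c1 c2 :=
  fun B T PB PT a1 a2 b1 b2 m1 m2 p1 p2 q1 q2 h1 h2 h3 h4 h5 h6 h7 h8 h9 h10 h11 h12 =>
    h11.elim
      (fun c => h B T PB PT a1 a2 b1 b2 m1 m2 p1 p2 q1 q2 h1 h2 h3 h4 h5 h6 h7 h8 h9 h10 c h12)
      (fun c => h' B T PB PT a1 a2 b1 b2 m1 m2 p1 p2 q1 q2 h1 h2 h3 h4 h5 h6 h7 h8 h9 h10 c h12)

/-- exchange of the chains -/
lemma TWC_swap {vs mu : ℝ → ℝ → ℝ → ℝ → ℝ} {C : ℝ → ℝ → ℝ → ℝ → Prop} (h : TWC vs mu C) :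
    TWC vs mu fun m1 m2 c1 c2 => C m2 m1 c2 c1 := by
  intro B T PB PT a1 a2 b1 b2 m1 m2 p1 p2 q1 q2 h1 h2 h3 h4 h5 h6 h7 h8 h9 h10 h11 h12
  rw [← TWg_swap]
  refine h B T PB PT b2 b1 a2 a1 m2 m1 q2 q1 p2 p1 h1 h2 h6 h7 h8 h3 h4 h5 h10 h9 ?_ ?_
  · have e1 : b2 + a2 - B - T = a2 + b2 - B - T := by ring
    have e2 : b1 + a1 - B - T = a1 + b1 - B - T := by ring
    rw [e1, e2]
    exact h11
  · unfold eV at h12 ⊢
    linarith

/-- affine functions with nonzero slope are nonzero for small positive arguments -/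
lemma ev_ne {l s : ℝ} (hs : s ≠ 0) : ∀ᶠ e in 𝓝[>] (0 : ℝ), l + s * e ≠ 0 := by
  by_cases hl : l = 0
  · filter_upwards [self_mem_nhdsWithin] with e he
    rw [hl, zero_add]
    exact mul_ne_zero hs (ne_of_gt he)
  · have hc : ContinuousAt (fun e : ℝ => l + s * e) 0 := by fun_prop
    have h2 : ∀ᶠ e in 𝓝 (0 : ℝ), l + s * e ≠ 0 := hc.eventually_ne (by simpa using hl)
    exact h2.filter_mono nhdsWithin_le_nhds

/-- the generic position condition -/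
def Gen (m1 m2 c1 c2 : ℝ) : Prop :=
  c1 ≠ 0 ∧ c2 ≠ 0 ∧ c2 - c1 ≠ 0 ∧ m1 * c1 + m2 * c2 ≠ 0 ∧ m1 * c1 - m2 * (c2 - c1) ≠ 0 ∧
    m2 * c2 + m1 * (c2 - c1) ≠ 0

/-- generic data are enough -/
theorem TWat_of_Gen {vs mu : ℝ → ℝ → ℝ → ℝ → ℝ} (h : TWC vs mu Gen) : ∀ B T PB PT : ℝ, 0 < B → B < T →
    TWat B T PB PT (vs B T PB PT) (mu B T PB PT) := by
  intro B T PB PT hB hBT a1 a2 b1 b2 m1 m2 p1 p2 q1 q2 h3 h4 h5 h6 h7 h8 h9 h10 h12
  obtain ⟨κ, hκ⟩ : ∃ κ, κ = 2 + m1 / m2 := ⟨_, rfl⟩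
  have hm : 0 < m1 / m2 := div_pos h9 h10
  have hκm : m2 * (m1 / m2) = m1 := by field_simp
  obtain ⟨A1, hA1⟩ : ∃ A : ℝ → ℝ, A = fun ε => a1 + ε := ⟨_, rfl⟩
  obtain ⟨A2, hA2⟩ : ∃ A : ℝ → ℝ, A = fun ε => a2 + κ * ε := ⟨_, rfl⟩
  obtain ⟨q, hq⟩ : ∃ q : ℝ → ℝ, q = fun ε =>
    q1 + vs B T PB PT * (m1 * ε + m2 * (κ * ε)) / m1 := ⟨_, rfl⟩
  have A10 : A1 0 = a1 := by rw [hA1]; ring
  have A20 : A2 0 = a2 := by rw [hA2]; ring
  have q0 : q 0 = q1 := by rw [hq]; simp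
  have cA1 : ContinuousAt A1 0 := by rw [hA1]; fun_prop
  have cA2 : ContinuousAt A2 0 := by rw [hA2]; fun_prop
  have cq : ContinuousAt q 0 := by rw [hq]; fun_prop
  have d1 : ((A1 0) ^ 2 - B ^ 2) / 2 ≠ 0 := by
    rw [A10]; have : B ^ 2 < a1 ^ 2 := by nlinarith
    intro h0; linarith
  have d2 : ((A2 0) ^ 2 - (A1 0) ^ 2) / 2 ≠ 0 := by
    rw [A10, A20]; have : a1 ^ 2 < a2 ^ 2 := by nlinarith
    intro h0; linarith
  have d3 : (T ^ 2 - (A2 0) ^ 2) / 2 ≠ 0 := by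
    rw [A20]; have : a2 ^ 2 < T ^ 2 := by nlinarith
    intro h0; linarith
  have t1 : ContinuousAt (fun e => (p1 - PB) ^ 2 / (((A1 e) ^ 2 - B ^ 2) / 2)) 0 :=
    continuousAt_const.div (by fun_prop) d1
  have t2 : ContinuousAt (fun e => (p2 - p1) ^ 2 / (((A2 e) ^ 2 - (A1 e) ^ 2) / 2)) 0 :=
    continuousAt_const.div (by fun_prop) d2
  have t3 : ContinuousAt (fun e => (PT - p2) ^ 2 / ((T ^ 2 - (A2 e) ^ 2) / 2)) 0 :=
    continuousAt_const.div (by fun_prop) d3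
  have t4 : ContinuousAt (fun e => Th (A1 e) p1) 0 :=
    Th_cont cA1 continuousAt_const (by rw [A10]; linarith)
  have t5 : ContinuousAt (fun e => Th (A2 e) p2) 0 :=
    Th_cont cA2 continuousAt_const (by rw [A20]; linarith)
  have t6 : ContinuousAt (fun e => Th b1 (q e)) 0 := by unfold Th; fun_prop
  have t7 : ContinuousAt (fun e => (q e - q2) ^ 2 / ((b1 ^ 2 - b2 ^ 2) / 2)) 0 := by fun_prop
  have t8 : ContinuousAt (fun e => (PT - q e) ^ 2 / ((T ^ 2 - b1 ^ 2) / 2)) 0 := by fun_prop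
  have cF : ContinuousAt (fun e => TWg (mu B T PB PT) B T (A1 e) (A2 e) b1 b2 m1 m2 PB PT p1 p2
      (q e) q2) 0 := by
    unfold TWg
    fun_prop
  have cF2 := cF.tendsto.mono_left (nhdsWithin_le_nhds (s := Set.Ioi 0))
  rw [A10, A20, q0] at cF2
  refine ge_of_tendsto cF2 ?_
  have ev0 : ∀ᶠ e in 𝓝[>] (0 : ℝ), 0 < e := by
    filter_upwards [self_mem_nhdsWithin] with e he using he
  have ev1 : ∀ᶠ e in 𝓝[>] (0 : ℝ), A1 e < A2 e :=
    (cA1.eventually_lt cA2 (by rw [A10, A20]; exact h4)).filter_mono nhdsWithin_le_nhds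
  have ev2 : ∀ᶠ e in 𝓝[>] (0 : ℝ), A2 e < T :=
    (cA2.eventually_lt continuousAt_const (by rw [A20]; exact h5)).filter_mono nhdsWithin_le_nhds
  have n1 := ev_ne (l := a1 + b1 - B - T) (s := 1) one_ne_zero
  have n2 := ev_ne (l := a2 + b2 - B - T) (s := κ) (by rw [hκ]; linarith)
  have n3 := ev_ne (l := (a2 + b2 - B - T) - (a1 + b1 - B - T)) (s := κ - 1) (by rw [hκ]; linarith)
  have n4 := ev_ne (l := m1 * (a1 + b1 - B - T) + m2 * (a2 + b2 - B - T)) (s := m1 + m2 * κ)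
    (by have : 0 < m2 * κ := mul_pos h10 (by rw [hκ]; linarith)
        linarith)
  have n5 := ev_ne (l := m1 * (a1 + b1 - B - T) - m2 * ((a2 + b2 - B - T) - (a1 + b1 - B - T)))
    (s := m1 - m2 * (κ - 1)) (by
      have : m1 - m2 * (κ - 1) = -m2 := by rw [hκ]; linear_combination -hκm
      rw [this]; linarith)
  have n6 := ev_ne (l := m2 * (a2 + b2 - B - T) + m1 * ((a2 + b2 - B - T) - (a1 + b1 - B - T)))
    (s := m2 * κ + m1 * (κ - 1)) (by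
      have k1 : 0 < m2 * κ := mul_pos h10 (by rw [hκ]; linarith)
      have k2 : 0 < m1 * (κ - 1) := mul_pos h9 (by rw [hκ]; linarith)
      linarith)
  filter_upwards [ev0, ev1, ev2, n1, n2, n3, n4, n5, n6] with e he e1 e2 k1 k2 k3 k4 k5 k6
  have w1 : A1 e + b1 - B - T = a1 + b1 - B - T + 1 * e := by rw [hA1]; ring
  have w2 : A2 e + b2 - B - T = a2 + b2 - B - T + κ * e := by rw [hA2]; ring
  have w0 : B < A1 e := by rw [hA1]; show B < a1 + e; linarith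
  refine h B T PB PT (A1 e) (A2 e) b1 b2 m1 m2 p1 p2 (q e) q2 hB hBT w0 e1 e2 h6 h7 h8 h9 h10 ?_ ?_
  · rw [w1, w2]
    refine ⟨k1, k2, ?_, ?_, ?_, ?_⟩
    · intro h0; apply k3; linear_combination h0
    · intro h0; apply k4; linear_combination h0
    · intro h0; apply k5; linear_combination h0
    · intro h0; apply k6; linear_combination h0
  · have e7 : m1 * (q e) = m1 * q1 + vs B T PB PT * (m1 * e + m2 * (κ * e)) := by
      rw [hq]; field_simp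
    unfold eV at h12 ⊢
    rw [w1, w2]
    linear_combination h12 + e7

/-- **the six chambers** are enough -/
theorem TWat_of_six {vs mu : ℝ → ℝ → ℝ → ℝ → ℝ}
    (hA1 : TWC vs mu fun m1 m2 c1 c2 => 0 < c1 ∧ c1 < c2 ∧ m2 * (c2 - c1) < m1 * c1)
    (hA2 : TWC vs mu fun m1 m2 c1 c2 => 0 < c1 ∧ c1 < c2 ∧ m1 * c1 < m2 * (c2 - c1))
    (hB1 : TWC vs mu fun m1 m2 c1 c2 => c2 < 0 ∧ 0 < c1 ∧ -(m2 * c2) < m1 * c1)
    (hB2 : TWC vs mu fun m1 m2 c1 c2 => c2 < 0 ∧ 0 < c1 ∧ m1 * c1 < -(m2 * c2))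
    (hC1 : TWC vs mu fun m1 m2 c1 c2 => c1 < c2 ∧ c2 < 0 ∧ m1 * (c2 - c1) < -(m2 * c2))
    (hC2 : TWC vs mu fun m1 m2 c1 c2 => c1 < c2 ∧ c2 < 0 ∧ -(m2 * c2) < m1 * (c2 - c1)) :
    ∀ B T PB PT : ℝ, 0 < B → B < T → TWat B T PB PT (vs B T PB PT) (mu B T PB PT) := by
  have h := TWC_or (TWC_or (TWC_or hA1 hA2) (TWC_or hB1 hB2)) (TWC_or hC1 hC2)
  refine TWat_of_Gen (TWC_mono (TWC_or h (TWC_swap h)) ?_)
  rintro m1 m2 c1 c2 - - ⟨g1, g2, g3, g4, g5, g6⟩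
  rcases lt_or_gt_of_ne g1 with k1 | k1 <;> rcases lt_or_gt_of_ne g2 with k2 | k2
  · rcases lt_or_gt_of_ne g3 with k3 | k3
    · -- `c2 < c1 < 0`, swapped
      rcases lt_or_gt_of_ne g5 with k5 | k5
      · right; right; left; exact ⟨by linarith, k1, by linarith⟩
      · right; right; right; exact ⟨by linarith, k1, by linarith⟩
    · rcases lt_or_gt_of_ne g6 with k6 | k6
      · left; right; left; exact ⟨by linarith, k2, by linarith⟩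
      · left; right; right; exact ⟨by linarith, k2, by linarith⟩
  · -- `c1 < 0 < c2`, swapped
    rcases lt_or_gt_of_ne g4 with k4 | k4
    · right; left; right; right; exact ⟨k1, k2, by linarith⟩
    · right; left; right; left; exact ⟨k1, k2, by linarith⟩
  · rcases lt_or_gt_of_ne g4 with k4 | k4
    · left; left; right; right; exact ⟨k2, k1, by linarith⟩
    · left; left; right; left; exact ⟨k2, k1, by linarith⟩
  · rcases lt_or_gt_of_ne g3 with k3 | k3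
    · -- `0 < c2 < c1`, swapped
      rcases lt_or_gt_of_ne g6 with k6 | k6
      · right; left; left; right; exact ⟨k2, by linarith, by linarith⟩
      · right; left; left; left; exact ⟨k2, by linarith, by linarith⟩
    · rcases lt_or_gt_of_ne g5 with k5 | k5
      · left; left; left; right; exact ⟨k1, by linarith, by linarith⟩
      · left; left; left; left; exact ⟨k1, by linarith, by linarith⟩

/-- **the unsplit chambers** `A`, `B`, `C` are enough -/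
theorem TWat_of_ABC {vs mu : ℝ → ℝ → ℝ → ℝ → ℝ}
    (hA : TWC vs mu fun _ _ c1 c2 => 0 < c1 ∧ c1 < c2)
    (hB : TWC vs mu fun _ _ c1 c2 => c2 < 0 ∧ 0 < c1)
    (hC : TWC vs mu fun _ _ c1 c2 => c1 < c2 ∧ c2 < 0) :
    ∀ B T PB PT : ℝ, 0 < B → B < T → TWat B T PB PT (vs B T PB PT) (mu B T PB PT) :=
  TWat_of_six (TWC_mono hA fun _ _ _ _ _ _ h => ⟨h.1, h.2.1⟩)
    (TWC_mono hA fun _ _ _ _ _ _ h => ⟨h.1, h.2.1⟩)
    (TWC_mono hB fun _ _ _ _ _ _ h => ⟨h.1, h.2.1⟩)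
    (TWC_mono hB fun _ _ _ _ _ _ h => ⟨h.1, h.2.1⟩)
    (TWC_mono hC fun _ _ _ _ _ _ h => ⟨h.1, h.2.1⟩)
    (TWC_mono hC fun _ _ _ _ _ _ h => ⟨h.1, h.2.1⟩)

/-- the number `V*` of a gauge -/
noncomputable def gvs (γ : Gauge) (B T PB PT : ℝ) : ℝ :=
  γ.k1 B T * ((PB + PT) / (B + T)) + γ.k2 B T

lemma eg_eq (γ : Gauge) (B T PB PT a p b q : ℝ) :
    eg γ B T PB PT a p b q = eV (gvs γ B T PB PT) B T PB PT a p b q := rfl

/-- `Stmt_TWOg` from the fixed-parameter form -/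
lemma TWOg_of_TWat {γ : Gauge} (h : ∀ B T PB PT : ℝ, 0 < B → B < T →
    TWat B T PB PT (gvs γ B T PB PT) (γ.mu B T PB PT)) : Stmt_TWOg γ := by
  intro B T a1 a2 b1 b2 m1 m2 PB PT p1 p2 q1 q2 h1 h2 h3 h4 h5 h6 h7 hm1 hm2 he
  exact h B T PB PT h1 (by linarith) a1 a2 b1 b2 m1 m2 p1 p2 q1 q2 h2 h3 h4 h5 h6 h7 hm1 hm2 he

/-- `Stmt_TWO1` from the fixed-parameter form -/
lemma TWO1_of_TWat {γ : Gauge1} (h : ∀ B T PB PT : ℝ, 0 < B → B < T →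
    TWat B T PB PT (γ.k2 B T) (γ.mu B T PB PT)) : Stmt_TWO1 γ := h

end Pool.G1.Gap
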