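import Pool.Agent.Work.MP_b5407d_g1.Pl_GAP5

/-!
# G1: the width inequality (F1): `4 ∫_F ρ ≤ Σ W_i ∫_{e_i} ρ` for affine `ρ ≥ 0`

Proof: with the height coordinate `y = ρ` and the slopes `σ_i = ΔX_i / Δy_i`,
`∫ ρ = - Σ σ_i (y_{i+1}^3 - y_i^3) / 6`, `Σ σ_i Δy_i = 0`, and
`Σ W_i ∫_{e_i} ρ ≥ 1/2 Σ Σ (y_i + y_{i+1}) / 2 |Δy_i| |Δy_j| |σ_i - σ_j|`.
Layer cake in the slope: a superlevel set of `σ` is an initial piece `B → α` of the rising chain and an
initial piece `T → β` of the falling chain, and the difference of the two sides at this threshold is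
`(α + β - B - T)^2 (α + β + 2 (B + T)) / 6`, with the multiplier `(B + T)^2 / 2` of `Σ σ_i Δy_i = 0`.
-/

set_option autoImplicit false

open Finset Filter Topology

namespace Pool.G1.Gap

/-- one-dimensional part -/
theorem f1core (n p : ℕ) (hpn : p < n) (Y τ : ℕ → ℝ)
    (up : ∀ k, k < p → Y k < Y (k + 1)) (dn : ∀ k, p ≤ k → k < n → Y (k + 1) < Y k)
    (hYn : Y n = Y 0) (hY0 : ∀ k, 0 ≤ Y k)
    (anti1 : ∀ k, k + 1 < p → τ (k + 1) ≤ τ k)
    (anti2 : ∀ k, p ≤ k → k + 1 < n → τ (k + 1) ≤ τ k)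
    (cy : ∑ i ∈ range n, τ i * (Y (i + 1) - Y i) = 0) :
    0 ≤ 1 / 2 * (∑ i ∈ range n, ∑ j ∈ range n, ((1 : ℝ) ^ 2 * ((Y i + Y (i + 1)) / 2) *
      |Y (i + 1) - Y i| * |Y (j + 1) - Y j|) * |τ i - τ j|) +
      ∑ i ∈ range n, τ i * (2 / 3 * ((Y (i + 1)) ^ 3 - (Y i) ^ 3)) := by
  have cq1 : ∀ k, k ≤ p → Cq Y k = Y k - Y 0 := by
    intro k
    induction k with
    | zero => intro _; simp [Cq]
    | succ k ih =>
      intro hk
      have := up k (by omega)
      rw [Cq_succ, ih (by omega), abs_of_pos (by linarith)]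
      ring
  have cQ1 : ∀ k, k ≤ p → CQ Y (fun _ => 1) k = (Y k ^ 2 - Y 0 ^ 2) / 2 := by
    intro k
    induction k with
    | zero => intro _; simp [CQ]
    | succ k ih =>
      intro hk
      have := up k (by omega)
      rw [CQ_succ, ih (by omega), abs_of_pos (by linarith)]
      ring
  have cq2 : ∀ k, k ≤ n → p ≤ k → Cq Y k = Y p - Y 0 + (Y p - Y k) := by
    intro k hk hpk
    induction k, hpk using Nat.le_induction with
    | base => rw [cq1 p le_rfl]; ring
    | succ k hpk ih =>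
      have := dn k hpk (by omega)
      rw [Cq_succ, ih (by omega), abs_of_neg (by linarith)]
      ring
  have cQ2 : ∀ k, k ≤ n → p ≤ k →
      CQ Y (fun _ => 1) k = (Y p ^ 2 - Y 0 ^ 2) / 2 + (Y p ^ 2 - Y k ^ 2) / 2 := by
    intro k hk hpk
    induction k, hpk using Nat.le_induction with
    | base => rw [cQ1 p le_rfl]; ring
    | succ k hpk ih =>
      have := dn k hpk (by omega)
      rw [CQ_succ, ih (by omega), abs_of_neg (by linarith)]
      ring
  set mu : ℝ := (Y 0 + Y p) ^ 2 / 2 with hmu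
  set b : ℕ → ℝ := fun i => mu * (Y (i + 1) - Y i) - 2 / 3 * ((Y (i + 1)) ^ 3 - (Y i) ^ 3) with hb
  have hb0 : ∑ i ∈ range n, b i = 0 := by
    simp only [hb]
    rw [sum_sub_distrib, ← mul_sum, ← mul_sum, tele (F := Y) hYn,
      tele (F := fun i => (Y i) ^ 3) (by simp only [hYn])]
    ring
  have hb1 : ∑ i ∈ range n, τ i * b i =
      -∑ i ∈ range n, τ i * (2 / 3 * ((Y (i + 1)) ^ 3 - (Y i) ^ 3)) := by
    have e : ∀ i, τ i * b i = mu * (τ i * (Y (i + 1) - Y i)) -
        τ i * (2 / 3 * ((Y (i + 1)) ^ 3 - (Y i) ^ 3)) := by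
      intro i; simp only [hb]; ring
    rw [sum_congr rfl fun i _ => e i, sum_sub_distrib, ← mul_sum, cy]
    ring
  have key : 0 ≤ 1 / 2 * (∑ i ∈ range n, ∑ j ∈ range n, ((1 : ℝ) ^ 2 * ((Y i + Y (i + 1)) / 2) *
      |Y (i + 1) - Y i| * |Y (j + 1) - Y j|) * |τ i - τ j|) - ∑ i ∈ range n, τ i * b i := by
    refine layer n τ _ b hb0 fun c => ?_
    obtain ⟨i0, -, hi0, hi⟩ := thr τ c 0 p (Nat.zero_le _) (fun i _ h => anti1 i h)
    obtain ⟨j1, hj0, hj1, hj⟩ := thr τ c p n hpn.le (fun i h1 h2 => anti2 i h1 h2)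
    have hi' : ∀ i, i < p → (c < τ i ↔ i < i0) := fun i h => hi i (Nat.zero_le _) h
    have K := cut τ c n p i0 j1 hi0 hpn.le hj0 hj1 hi' hj
    have K1 := K (CQ Y (fun _ => 1))
    have K2 := K (Cq Y)
    have K3 := K (fun i => (Y i) ^ 3)
    have K5 := K Y
    have Sb : ∑ i ∈ range n, st (τ i) c * b i =
        mu * (Y i0 - Y 0 + (Y j1 - Y p)) -
        2 / 3 * ((Y i0) ^ 3 - (Y 0) ^ 3 + ((Y j1) ^ 3 - (Y p) ^ 3)) := by
      rw [← K3, ← K5, mul_sum, mul_sum, ← sum_sub_distrib]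
      refine sum_congr rfl fun i _ => ?_
      simp only [hb]
      ring
    have PS := pair_st τ c n (fun i => CQ Y (fun _ => 1) (i + 1) - CQ Y (fun _ => 1) i)
      (fun i => Cq Y (i + 1) - Cq Y i)
    rw [K1, K2, sum_range_sub, sum_range_sub] at PS
    have PS' : ∑ i ∈ range n, ∑ j ∈ range n, ((1 : ℝ) ^ 2 * ((Y i + Y (i + 1)) / 2) *
        |Y (i + 1) - Y i| * |Y (j + 1) - Y j|) * |st (τ i) c - st (τ j) c| =
        ∑ i ∈ range n, ∑ j ∈ range n, (CQ Y (fun _ => 1) (i + 1) - CQ Y (fun _ => 1) i) *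
          (Cq Y (j + 1) - Cq Y j) * |st (τ i) c - st (τ j) c| := by
      refine sum_congr rfl fun i _ => sum_congr rfl fun j _ => ?_
      rw [CQ_succ, Cq_succ]
      ring
    rw [PS', PS, Sb]
    have CQ0 : CQ Y (fun _ => 1) 0 = 0 := by simp [CQ]
    have Cq0 : Cq Y 0 = 0 := by simp [Cq]
    rw [CQ0, Cq0, cq1 i0 hi0, cq2 j1 hj1 hj0, cq1 p le_rfl, cq2 n le_rfl hpn.le,
      cQ1 i0 hi0, cQ2 j1 hj1 hj0, cQ1 p le_rfl, cQ2 n le_rfl hpn.le, hYn]
    have h1 := hY0 i0
    have h2 := hY0 j1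
    have h3 := hY0 0
    have h4 := hY0 p
    have h5 : 0 ≤ 1 / 6 * ((Y i0 + Y j1 - (Y 0 + Y p)) ^ 2 *
      (Y i0 + Y j1 + 2 * (Y 0 + Y p))) := by positivity
    rw [hmu]
    nlinarith [h5]
  rw [hb1] at key
  linarith

section
variable {n : ℕ} {ν v : ℕ → R2} {ℓ : ℕ → ℝ}

/-- a rising and a falling chain with decreasing slopes -/
lemma shape (hP : Poly n ν v ℓ) (r : ℝ × R2) (hne : ∀ k, af r (v (k + 1)) ≠ af r (v k)) :
    ∃ s p, 0 < p ∧ p < n ∧
      (∀ k, k < p → af r (v (s + k)) < af r (v (s + (k + 1)))) ∧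
      (∀ k, p ≤ k → k < n → af r (v (s + (k + 1))) < af r (v (s + k))) ∧
      (∀ k, k + 1 < p → sg r v (s + (k + 1)) ≤ sg r v (s + k)) ∧
      (∀ k, p ≤ k → k + 1 < n → sg r v (s + (k + 1)) ≤ sg r v (s + k)) := by
  have hu : ∀ k, dp (-rt r.2) (ν k) ≠ 0 := by
    intro k h
    apply hne k
    have h1 := dy_eq hP r k
    have h2 : dp (-rt r.2) (ν k) = cp (ν k) r.2 := by
      simp only [dp, rt, cp, Prod.fst_neg, Prod.snd_neg]; ring
    rw [← h2, h, mul_zero] at h1
    linarith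
  obtain ⟨s, p, hp0, hpn, hs1, hs2⟩ := Order.blocks hP hP.inj (-rt r.2) hu
  have sgn : ∀ k, af r (v (k + 1)) - af r (v k) = ℓ k * dp (-rt r.2) (ν k) := by
    intro k
    rw [dy_eq hP r k]
    congr 1
    simp only [dp, rt, cp, Prod.fst_neg, Prod.snd_neg]; ring
  have up : ∀ k, k < p → af r (v (s + k)) < af r (v (s + (k + 1))) := by
    intro k hk
    have h1 := sgn (s + k)
    have h2 := mul_pos (hP.pos (s + k)) (hs1 k hk)
    rw [← h1] at h2
    rw [show s + (k + 1) = s + k + 1 by ring]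
    linarith
  have dn : ∀ k, p ≤ k → k < n → af r (v (s + (k + 1))) < af r (v (s + k)) := by
    intro k hk hkn
    have h1 := sgn (s + k)
    have h2 := mul_neg_of_pos_of_neg (hP.pos (s + k)) (hs2 k hk hkn)
    rw [← h1] at h2
    rw [show s + (k + 1) = s + k + 1 by ring]
    linarith
  have anti : ∀ k, 0 < (af r (v (s + k + 1)) - af r (v (s + k))) *
      (af r (v (s + k + 1 + 1)) - af r (v (s + k + 1))) →
      sg r v (s + (k + 1)) ≤ sg r v (s + k) := by
    intro k hk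
    have h1 := k_eq hP r hne (s + k) (s + k + 1)
    have h2 := mul_pos (mul_pos (hP.pos (s + k)) (hP.pos (s + k + 1))) (hP.turn (s + k))
    rw [← h1] at h2
    have h3 := (pos_iff_pos_of_mul_pos h2).mp hk
    rw [show s + (k + 1) = s + k + 1 by ring]
    linarith
  refine ⟨s, p, hp0, hpn, up, dn, fun k hk => ?_, fun k hk hkn => ?_⟩
  · refine anti k (mul_pos ?_ ?_)
    · have := up k (by omega)
      rw [show s + (k + 1) = s + k + 1 by ring] at this
      linarith
    · have := up (k + 1) hk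
      rw [show s + (k + 1 + 1) = s + k + 1 + 1 by ring,
        show s + (k + 1) = s + k + 1 by ring] at this
      linarith
  · refine anti k (mul_pos_of_neg_of_neg ?_ ?_)
    · have := dn k hk (by omega)
      rw [show s + (k + 1) = s + k + 1 by ring] at this
      linarith
    · have := dn (k + 1) (by omega) hkn
      rw [show s + (k + 1 + 1) = s + k + 1 + 1 by ring,
        show s + (k + 1) = s + k + 1 by ring] at this
      linarith

/-- (F1) for a generic positive `ρ` -/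
theorem F1_gen (hP : Poly n ν v ℓ) (W : ℕ → ℝ) (hW : ∀ k j, dp (ν k) (v k - v j) ≤ W k)
    (r : ℝ × R2) (hpos : ∀ k, 0 < af r (v k)) (hne : ∀ k, af r (v (k + 1)) ≠ af r (v k)) :
    4 * J0 n v r ≤ ∑ i ∈ range n, W i * EI v ℓ r i := by
  obtain ⟨s, p, hp0, hpn, up, dn, anti1, anti2⟩ := shape hP r hne
  have yper := y_per hP r
  have yper1 : ∀ k, af r (v (k + n + 1)) = af r (v (k + 1)) := fun k => by
    rw [show k + n + 1 = k + 1 + n by ring, yper]
  have Xper : ∀ k, XX r (v (k + n)) = XX r (v k) := fun k => by rw [hP.pv]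
  have Xper1 : ∀ k, XX r (v (k + n + 1)) = XX r (v (k + 1)) := fun k => by
    rw [show k + n + 1 = k + 1 + n by ring, Xper]
  have sper : ∀ k, sg r v (k + n) = sg r v k := fun k => by
    unfold sg; rw [yper1, yper, Xper1, Xper]
  have cy : ∑ i ∈ range n, sg r v (s + i) * (af r (v (s + (i + 1))) - af r (v (s + i))) = 0 := by
    have e := SQK.sum_shift (n := n) (f := fun i => sg r v i * (af r (v (i + 1)) - af r (v i)))
      (fun i => by simp only [sper, yper1, yper]) s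
    have e2 : ∑ i ∈ range n, sg r v i * (af r (v (i + 1)) - af r (v i)) = 0 := by
      rw [sum_congr rfl fun i _ => sg_mul r hne i]
      exact tele (F := fun i => XX r (v i)) (by have := Xper 0; rwa [zero_add] at this)
    rw [e2] at e
    exact e
  have C := f1core n p hpn (fun k => af r (v (s + k))) (fun k => sg r v (s + k)) up dn
    (by simp only [yper]; simp) (fun k => (hpos _).le) anti1 anti2 cy
  have TG := T1_ge hP W hW W (fun _ => 1) (fun _ => zero_le_one) (fun i => by simp) r hpos hne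
  have e1 := SQK.sum_shift2 (n := n) (f := fun i j => ((1 : ℝ) ^ 2 * ((af r (v i) +
    af r (v (i + 1))) / 2) * |af r (v (i + 1)) - af r (v i)| *
    |af r (v (j + 1)) - af r (v j)|) * |sg r v i - sg r v j|)
    (fun i j => by simp only [sper, yper, yper1])
    (fun i j => by simp only [sper, yper, yper1]) s
  have e2 := SQK.sum_shift (n := n) (f := fun i => sg r v i *
    (2 / 3 * ((af r (v (i + 1))) ^ 3 - (af r (v i)) ^ 3)))
    (fun i => by simp only [sper, yper, yper1]) s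
  have e3 : ∑ i ∈ range n, sg r v i * (2 / 3 * ((af r (v (i + 1))) ^ 3 - (af r (v i)) ^ 3)) =
      -(4 * J0 n v r) := by
    rw [J0_sg hP r hne, mul_neg, neg_neg, mul_sum]
    exact sum_congr rfl fun i _ => by ring
  have e4 : T1 n v ℓ r W (fun _ => 1) = ∑ i ∈ range n, W i * EI v ℓ r i := by
    unfold T1
    exact sum_congr rfl fun i _ => by ring
  rw [e3] at e2
  rw [e4] at TG
  have C' : 0 ≤ 1 / 2 * (∑ i ∈ range n, ∑ j ∈ range n, ((1 : ℝ) ^ 2 * ((af r (v (s + i)) +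
      af r (v (s + i + 1))) / 2) * |af r (v (s + i + 1)) - af r (v (s + i))| *
      |af r (v (s + j + 1)) - af r (v (s + j))|) * |sg r v (s + i) - sg r v (s + j)|) +
      ∑ i ∈ range n, sg r v (s + i) *
        (2 / 3 * ((af r (v (s + i + 1))) ^ 3 - (af r (v (s + i))) ^ 3)) := C
  rw [e1, e2] at C'
  linarith

/-- **(F1)**: `4 ∫_F ρ ≤ Σ W_i ∫_{e_i} ρ` for `ρ ≥ 0` affine. -/
theorem F1 (hP : Poly n ν v ℓ) (W : ℕ → ℝ) (hW : ∀ k j, dp (ν k) (v k - v j) ≤ W k)
    (r : ℝ × R2) (hr : ∀ k, 0 ≤ af r (v k)) :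
    4 * J0 n v r ≤ ∑ i ∈ range n, W i * EI v ℓ r i := by
  have hn : 0 < n := by have := hP.n3; omega
  obtain ⟨r1, hr1, hc1⟩ := ex_r1 hP
  have A1 : ∀ᶠ e in 𝓝[>] (0 : ℝ), ∀ k ∈ range n, cp (ν k) r.2 + e * cp (ν k) r1.2 ≠ 0 := by
    rw [Filter.eventually_all_finset]
    intro k _
    by_cases h : cp (ν k) r.2 = 0
    · filter_upwards [self_mem_nhdsWithin] with e he
      rw [h, zero_add]
      exact mul_ne_zero (ne_of_gt he) (hc1 k)
    · have hc : ContinuousAt (fun e : ℝ => cp (ν k) r.2 + e * cp (ν k) r1.2) 0 := by fun_prop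
      have h2 : ∀ᶠ e in 𝓝 (0 : ℝ), cp (ν k) r.2 + e * cp (ν k) r1.2 ≠ 0 :=
        hc.eventually_ne (by simpa using h)
      exact h2.filter_mono nhdsWithin_le_nhds
  set K : ℝ := ∑ i ∈ range n, W i * EI v ℓ r1 i - 4 * J0 n v r1 with hK
  have main : ∀ᶠ e in 𝓝[>] (0 : ℝ),
      0 ≤ (∑ i ∈ range n, W i * EI v ℓ r i - 4 * J0 n v r) + e * K := by
    filter_upwards [self_mem_nhdsWithin, A1] with e he a1
    have he' : 0 < e := he
    have hafe : ∀ k, af (r + e • r1) (v k) = af r (v k) + e * af r1 (v k) := fun k => by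
      rw [af_add, af_smul]
    have hpos : ∀ k, 0 < af (r + e • r1) (v k) := by
      intro k
      rw [hafe]
      have := mul_pos he' (hr1 k)
      have := hr k
      linarith
    have hne : ∀ k, af (r + e • r1) (v (k + 1)) ≠ af (r + e • r1) (v k) := by
      intro k h
      have h2 := dy_eq hP (r + e • r1) k
      rw [h, sub_self] at h2
      have h3 : cp (ν k) (r + e • r1).2 = cp (ν k) r.2 + e * cp (ν k) r1.2 := by
        simp only [cp, Prod.snd_add, Prod.fst_add, Prod.smul_snd, Prod.smul_fst, smul_eq_mul]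
        ring
      have h4 : cp (ν k) r.2 + e * cp (ν k) r1.2 ≠ 0 := by
        refine ex_mod hn (f := fun k => cp (ν k) r.2 + e * cp (ν k) r1.2)
          (fun i => by simp only [hP.pν]) (p := fun x => x ≠ 0) a1 k
      rw [h3] at h2
      exact (mul_ne_zero (hP.pos k).ne' h4) h2.symm
    have G := F1_gen hP W hW (r + e • r1) hpos hne
    have e1 : ∑ i ∈ range n, W i * EI v ℓ (r + e • r1) i =
        ∑ i ∈ range n, W i * EI v ℓ r i + e * ∑ i ∈ range n, W i * EI v ℓ r1 i := by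
      rw [mul_sum, ← sum_add_distrib]
      refine sum_congr rfl fun i _ => ?_
      rw [EI_add, EI_smul]
      ring
    rw [J0_add, J0_smul, e1] at G
    rw [hK]
    linarith
  have lim : Tendsto (fun e : ℝ => (∑ i ∈ range n, W i * EI v ℓ r i - 4 * J0 n v r) + e * K)
      (𝓝[>] 0) (𝓝 ((∑ i ∈ range n, W i * EI v ℓ r i - 4 * J0 n v r) + 0 * K)) := by
    have hc : Continuous (fun e : ℝ =>
      (∑ i ∈ range n, W i * EI v ℓ r i - 4 * J0 n v r) + e * K) := by fun_prop
    exact (hc.tendsto 0).mono_left nhdsWithin_le_nhds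
  have := ge_of_tendsto lim main
  linarith

end

end Pool.G1.Gap
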