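import Pool.Agent.Work.MP_b5407d_g1.Pl_PAT

/-! # G1, line P-a: values of the tables 11 .. 21 at the lifted vector -/

set_option autoImplicit false
set_option maxRecDepth 100000
set_option linter.unusedSimpArgs false

namespace Pool.G1.Gap.PB

set_option maxHeartbeats 4000000 in
theorem id11 (r v u p y z : ℝ) : semL r v u v (v*p) u (u*p) y z tb11 =
    192 * (u*xi r v*(u*G1 r v 1 p (y/2) z)^2) := by
  simp only [tb11, semL, mz, F0, xi, et, lD, lP, lt, lN, lp1, lr1, Y1, Y2, Y3, Y4, G1, G2, G3, G4]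
  push_cast
  ring

set_option maxHeartbeats 4000000 in
theorem id12 (r v u p y z : ℝ) : semL r v u v (v*p) u (u*p) y z tb12 =
    192 * (xi r v*(u*G2 r v 1 p (y/2) z)^2) := by
  simp only [tb12, semL, mz, F0, xi, et, lD, lP, lt, lN, lp1, lr1, Y1, Y2, Y3, Y4, G1, G2, G3, G4]
  push_cast
  ring

set_option maxHeartbeats 4000000 in
theorem id13 (r v u p y z : ℝ) : semL r v u v (v*p) u (u*p) y z tb13 =
    192 * (r*xi r v*(u*G2 r v 1 p (y/2) z)^2) := by
  simp only [tb13, semL, mz, F0, xi, et, lD, lP, lt, lN, lp1, lr1, Y1, Y2, Y3, Y4, G1, G2, G3, G4]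
  push_cast
  ring

set_option maxHeartbeats 4000000 in
theorem id14 (r v u p y z : ℝ) : semL r v u v (v*p) u (u*p) y z tb14 =
    192 * (v*xi r v*(u*G2 r v 1 p (y/2) z)^2) := by
  simp only [tb14, semL, mz, F0, xi, et, lD, lP, lt, lN, lp1, lr1, Y1, Y2, Y3, Y4, G1, G2, G3, G4]
  push_cast
  ring

set_option maxHeartbeats 4000000 in
theorem id15 (r v u p y z : ℝ) : semL r v u v (v*p) u (u*p) y z tb15 =
    192 * (u*xi r v*(u*G2 r v 1 p (y/2) z)^2) := by
  simp only [tb15, semL, mz, F0, xi, et, lD, lP, lt, lN, lp1, lr1, Y1, Y2, Y3, Y4, G1, G2, G3, G4]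
  push_cast
  ring

set_option maxHeartbeats 4000000 in
theorem id16 (r v u p y z : ℝ) : semL r v u v (v*p) u (u*p) y z tb16 =
    192 * (et r v*(u*G3 r v 1 p z)^2) := by
  simp only [tb16, semL, mz, F0, xi, et, lD, lP, lt, lN, lp1, lr1, Y1, Y2, Y3, Y4, G1, G2, G3, G4]
  push_cast
  ring

set_option maxHeartbeats 4000000 in
theorem id17 (r v u p y z : ℝ) : semL r v u v (v*p) u (u*p) y z tb17 =
    192 * (r*et r v*(u*G3 r v 1 p z)^2) := by
  simp only [tb17, semL, mz, F0, xi, et, lD, lP, lt, lN, lp1, lr1, Y1, Y2, Y3, Y4, G1, G2, G3, G4]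
  push_cast
  ring

set_option maxHeartbeats 4000000 in
theorem id18 (r v u p y z : ℝ) : semL r v u v (v*p) u (u*p) y z tb18 =
    192 * (v*et r v*(u*G3 r v 1 p z)^2) := by
  simp only [tb18, semL, mz, F0, xi, et, lD, lP, lt, lN, lp1, lr1, Y1, Y2, Y3, Y4, G1, G2, G3, G4]
  push_cast
  ring

set_option maxHeartbeats 4000000 in
theorem id19 (r v u p y z : ℝ) : semL r v u v (v*p) u (u*p) y z tb19 =
    192 * (u*et r v*(u*G3 r v 1 p z)^2) := by
  simp only [tb19, semL, mz, F0, xi, et, lD, lP, lt, lN, lp1, lr1, Y1, Y2, Y3, Y4, G1, G2, G3, G4]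
  push_cast
  ring

set_option maxHeartbeats 4000000 in
theorem id20 (r v u p y z : ℝ) : semL r v u v (v*p) u (u*p) y z tb20 =
    192 * (et r v*(u*G4 r v 1 p z)^2) := by
  simp only [tb20, semL, mz, F0, xi, et, lD, lP, lt, lN, lp1, lr1, Y1, Y2, Y3, Y4, G1, G2, G3, G4]
  push_cast
  ring

set_option maxHeartbeats 4000000 in
theorem id21 (r v u p y z : ℝ) : semL r v u v (v*p) u (u*p) y z tb21 =
    192 * (r*et r v*(u*G4 r v 1 p z)^2) := by
  simp only [tb21, semL, mz, F0, xi, et, lD, lP, lt, lN, lp1, lr1, Y1, Y2, Y3, Y4, G1, G2, G3, G4]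
  push_cast
  ring

end Pool.G1.Gap.PB
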