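import Pool.Agent.Work.MP_b5407d_g1.Pl_PAT

/-! # G1, line P-a: values of the tables 22 .. 38 at the lifted vector -/

set_option autoImplicit false
set_option maxRecDepth 100000
set_option linter.unusedSimpArgs false

namespace Pool.G1.Gap.PB

set_option maxHeartbeats 4000000 in
theorem id22 (r v u p y z : ℝ) : semL r v u v (v*p) u (u*p) y z tb22 =
    192 * (v*et r v*(u*G4 r v 1 p z)^2) := by
  simp only [tb22, semL, mz, F0, xi, et, lD, lP, lt, lN, lp1, lr1, Y1, Y2, Y3, Y4, G1, G2, G3, G4]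
  push_cast
  ring

set_option maxHeartbeats 4000000 in
theorem id23 (r v u p y z : ℝ) : semL r v u v (v*p) u (u*p) y z tb23 =
    192 * (u*et r v*(u*G4 r v 1 p z)^2) := by
  simp only [tb23, semL, mz, F0, xi, et, lD, lP, lt, lN, lp1, lr1, Y1, Y2, Y3, Y4, G1, G2, G3, G4]
  push_cast
  ring

set_option maxHeartbeats 4000000 in
theorem id24 (r v u p y z : ℝ) : semL r v u v (v*p) u (u*p) y z tb24 =
    192 * (-(lN r v p (y/2) z^2)) := by
  simp only [tb24, semL, mz, F0, xi, et, lD, lP, lt, lN, lp1, lr1, Y1, Y2, Y3, Y4, G1, G2, G3, G4]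
  push_cast
  ring

set_option maxHeartbeats 4000000 in
theorem id25 (r v u p y z : ℝ) : semL r v u v (v*p) u (u*p) y z tb25 =
    192 * (-(r*lN r v p (y/2) z^2)) := by
  simp only [tb25, semL, mz, F0, xi, et, lD, lP, lt, lN, lp1, lr1, Y1, Y2, Y3, Y4, G1, G2, G3, G4]
  push_cast
  ring

set_option maxHeartbeats 4000000 in
theorem id26 (r v u p y z : ℝ) : semL r v u v (v*p) u (u*p) y z tb26 =
    192 * (-(v*lN r v p (y/2) z^2)) := by
  simp only [tb26, semL, mz, F0, xi, et, lD, lP, lt, lN, lp1, lr1, Y1, Y2, Y3, Y4, G1, G2, G3, G4]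
  push_cast
  ring

set_option maxHeartbeats 4000000 in
theorem id27 (r v u p y z : ℝ) : semL r v u v (v*p) u (u*p) y z tb27 =
    192 * (-(u*lN r v p (y/2) z^2)) := by
  simp only [tb27, semL, mz, F0, xi, et, lD, lP, lt, lN, lp1, lr1, Y1, Y2, Y3, Y4, G1, G2, G3, G4]
  push_cast
  ring

set_option maxHeartbeats 4000000 in
theorem id28 (r v u p y z : ℝ) : semL r v u v (v*p) u (u*p) y z tb28 =
    192 * (r*xi r v*lN r v p (y/2) z*(v*lp1 r u 1 p (y/2) z)) := by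
  simp only [tb28, semL, mz, F0, xi, et, lD, lP, lt, lN, lp1, lr1, Y1, Y2, Y3, Y4, G1, G2, G3, G4]
  push_cast
  ring

set_option maxHeartbeats 4000000 in
theorem id29 (r v u p y z : ℝ) : semL r v u v (v*p) u (u*p) y z tb29 =
    192 * (r*xi r v*lN r v p (y/2) z*(u*lp1 r u 1 p (y/2) z)) := by
  simp only [tb29, semL, mz, F0, xi, et, lD, lP, lt, lN, lp1, lr1, Y1, Y2, Y3, Y4, G1, G2, G3, G4]
  push_cast
  ring

set_option maxHeartbeats 4000000 in
theorem id30 (r v u p y z : ℝ) : semL r v u v (v*p) u (u*p) y z tb30 =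
    192 * (r*et r v*lN r v p (y/2) z*(v*lr1 r u 1 p z)) := by
  simp only [tb30, semL, mz, F0, xi, et, lD, lP, lt, lN, lp1, lr1, Y1, Y2, Y3, Y4, G1, G2, G3, G4]
  push_cast
  ring

set_option maxHeartbeats 4000000 in
theorem id31 (r v u p y z : ℝ) : semL r v u v (v*p) u (u*p) y z tb31 =
    192 * (r*et r v*lN r v p (y/2) z*(u*lr1 r u 1 p z)) := by
  simp only [tb31, semL, mz, F0, xi, et, lD, lP, lt, lN, lp1, lr1, Y1, Y2, Y3, Y4, G1, G2, G3, G4]
  push_cast
  ring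

set_option maxHeartbeats 4000000 in
theorem id32 (r v u p y z : ℝ) : semL r v u v (v*p) u (u*p) y z tb32 =
    192 * (-(r*(v*lp1 r u 1 p (y/2) z)^2)) := by
  simp only [tb32, semL, mz, F0, xi, et, lD, lP, lt, lN, lp1, lr1, Y1, Y2, Y3, Y4, G1, G2, G3, G4]
  push_cast
  ring

set_option maxHeartbeats 4000000 in
theorem id33 (r v u p y z : ℝ) : semL r v u v (v*p) u (u*p) y z tb33 =
    192 * (-(r*r*(v*lp1 r u 1 p (y/2) z)^2)) := by
  simp only [tb33, semL, mz, F0, xi, et, lD, lP, lt, lN, lp1, lr1, Y1, Y2, Y3, Y4, G1, G2, G3, G4]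
  push_cast
  ring

set_option maxHeartbeats 4000000 in
theorem id34 (r v u p y z : ℝ) : semL r v u v (v*p) u (u*p) y z tb34 =
    192 * (-(v*r*(v*lp1 r u 1 p (y/2) z)^2)) := by
  simp only [tb34, semL, mz, F0, xi, et, lD, lP, lt, lN, lp1, lr1, Y1, Y2, Y3, Y4, G1, G2, G3, G4]
  push_cast
  ring

set_option maxHeartbeats 4000000 in
theorem id35 (r v u p y z : ℝ) : semL r v u v (v*p) u (u*p) y z tb35 =
    192 * (-(2*r*(v*lp1 r u 1 p (y/2) z)*(u*lp1 r u 1 p (y/2) z))) := by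
  simp only [tb35, semL, mz, F0, xi, et, lD, lP, lt, lN, lp1, lr1, Y1, Y2, Y3, Y4, G1, G2, G3, G4]
  push_cast
  ring

set_option maxHeartbeats 4000000 in
theorem id36 (r v u p y z : ℝ) : semL r v u v (v*p) u (u*p) y z tb36 =
    192 * (-(r*2*r*(v*lp1 r u 1 p (y/2) z)*(u*lp1 r u 1 p (y/2) z))) := by
  simp only [tb36, semL, mz, F0, xi, et, lD, lP, lt, lN, lp1, lr1, Y1, Y2, Y3, Y4, G1, G2, G3, G4]
  push_cast
  ring

set_option maxHeartbeats 4000000 in
theorem id37 (r v u p y z : ℝ) : semL r v u v (v*p) u (u*p) y z tb37 =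
    192 * (-(v*2*r*(v*lp1 r u 1 p (y/2) z)*(u*lp1 r u 1 p (y/2) z))) := by
  simp only [tb37, semL, mz, F0, xi, et, lD, lP, lt, lN, lp1, lr1, Y1, Y2, Y3, Y4, G1, G2, G3, G4]
  push_cast
  ring

set_option maxHeartbeats 4000000 in
theorem id38 (r v u p y z : ℝ) : semL r v u v (v*p) u (u*p) y z tb38 =
    192 * (-(r*(u*lp1 r u 1 p (y/2) z)^2)) := by
  simp only [tb38, semL, mz, F0, xi, et, lD, lP, lt, lN, lp1, lr1, Y1, Y2, Y3, Y4, G1, G2, G3, G4]
  push_cast
  ring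

end Pool.G1.Gap.PB
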