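import Pool.Agent.Work.MP_b5407d_g1.Pl_PAT

/-! # G1, line P-a: values of the tables 39 .. 65 at the lifted vector -/

set_option autoImplicit false
set_option maxRecDepth 100000
set_option linter.unusedSimpArgs false

namespace Pool.G1.Gap.PB

set_option maxHeartbeats 4000000 in
theorem id39 (r v u p y z : ℝ) : semL r v u v (v*p) u (u*p) y z tb39 =
    192 * (-(r*r*(u*lp1 r u 1 p (y/2) z)^2)) := by
  simp only [tb39, semL, mz, F0, xi, et, lD, lP, lt, lN, lp1, lr1, Y1, Y2, Y3, Y4, G1, G2, G3, G4]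
  push_cast
  ring

set_option maxHeartbeats 4000000 in
theorem id40 (r v u p y z : ℝ) : semL r v u v (v*p) u (u*p) y z tb40 =
    192 * (-(v*r*(u*lp1 r u 1 p (y/2) z)^2)) := by
  simp only [tb40, semL, mz, F0, xi, et, lD, lP, lt, lN, lp1, lr1, Y1, Y2, Y3, Y4, G1, G2, G3, G4]
  push_cast
  ring

set_option maxHeartbeats 4000000 in
theorem id41 (r v u p y z : ℝ) : semL r v u v (v*p) u (u*p) y z tb41 =
    192 * (-(r*(v*lr1 r u 1 p z)^2)) := by
  simp only [tb41, semL, mz, F0, xi, et, lD, lP, lt, lN, lp1, lr1, Y1, Y2, Y3, Y4, G1, G2, G3, G4]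
  push_cast
  ring

set_option maxHeartbeats 4000000 in
theorem id42 (r v u p y z : ℝ) : semL r v u v (v*p) u (u*p) y z tb42 =
    192 * (-(r*r*(v*lr1 r u 1 p z)^2)) := by
  simp only [tb42, semL, mz, F0, xi, et, lD, lP, lt, lN, lp1, lr1, Y1, Y2, Y3, Y4, G1, G2, G3, G4]
  push_cast
  ring

set_option maxHeartbeats 4000000 in
theorem id43 (r v u p y z : ℝ) : semL r v u v (v*p) u (u*p) y z tb43 =
    192 * (-(v*r*(v*lr1 r u 1 p z)^2)) := by
  simp only [tb43, semL, mz, F0, xi, et, lD, lP, lt, lN, lp1, lr1, Y1, Y2, Y3, Y4, G1, G2, G3, G4]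
  push_cast
  ring

set_option maxHeartbeats 4000000 in
theorem id44 (r v u p y z : ℝ) : semL r v u v (v*p) u (u*p) y z tb44 =
    192 * (-(2*r*(v*lr1 r u 1 p z)*(u*lr1 r u 1 p z))) := by
  simp only [tb44, semL, mz, F0, xi, et, lD, lP, lt, lN, lp1, lr1, Y1, Y2, Y3, Y4, G1, G2, G3, G4]
  push_cast
  ring

set_option maxHeartbeats 4000000 in
theorem id45 (r v u p y z : ℝ) : semL r v u v (v*p) u (u*p) y z tb45 =
    192 * (-(r*2*r*(v*lr1 r u 1 p z)*(u*lr1 r u 1 p z))) := by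
  simp only [tb45, semL, mz, F0, xi, et, lD, lP, lt, lN, lp1, lr1, Y1, Y2, Y3, Y4, G1, G2, G3, G4]
  push_cast
  ring

set_option maxHeartbeats 4000000 in
theorem id46 (r v u p y z : ℝ) : semL r v u v (v*p) u (u*p) y z tb46 =
    192 * (-(v*2*r*(v*lr1 r u 1 p z)*(u*lr1 r u 1 p z))) := by
  simp only [tb46, semL, mz, F0, xi, et, lD, lP, lt, lN, lp1, lr1, Y1, Y2, Y3, Y4, G1, G2, G3, G4]
  push_cast
  ring

set_option maxHeartbeats 4000000 in
theorem id47 (r v u p y z : ℝ) : semL r v u v (v*p) u (u*p) y z tb47 =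
    192 * (-(r*(u*lr1 r u 1 p z)^2)) := by
  simp only [tb47, semL, mz, F0, xi, et, lD, lP, lt, lN, lp1, lr1, Y1, Y2, Y3, Y4, G1, G2, G3, G4]
  push_cast
  ring

set_option maxHeartbeats 4000000 in
theorem id48 (r v u p y z : ℝ) : semL r v u v (v*p) u (u*p) y z tb48 =
    192 * (-(r*r*(u*lr1 r u 1 p z)^2)) := by
  simp only [tb48, semL, mz, F0, xi, et, lD, lP, lt, lN, lp1, lr1, Y1, Y2, Y3, Y4, G1, G2, G3, G4]
  push_cast
  ring

set_option maxHeartbeats 4000000 in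
theorem id49 (r v u p y z : ℝ) : semL r v u v (v*p) u (u*p) y z tb49 =
    192 * (-(v*r*(u*lr1 r u 1 p z)^2)) := by
  simp only [tb49, semL, mz, F0, xi, et, lD, lP, lt, lN, lp1, lr1, Y1, Y2, Y3, Y4, G1, G2, G3, G4]
  push_cast
  ring

set_option maxHeartbeats 4000000 in
theorem id50 (r v u p y z : ℝ) : semL r v u v (v*p) u (u*p) y z tb50 =
    192 * (-(r*v^2*(G1 r v 1 p (y/2) z*(2/3*Y1 r v u - G1 r v 1 p (y/2) z)))) := by
  simp only [tb50, semL, mz, F0, xi, et, lD, lP, lt, lN, lp1, lr1, Y1, Y2, Y3, Y4, G1, G2, G3, G4]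
  push_cast
  ring

set_option maxHeartbeats 4000000 in
theorem id51 (r v u p y z : ℝ) : semL r v u v (v*p) u (u*p) y z tb51 =
    192 * (-(2*r*v*u*(G1 r v 1 p (y/2) z*(2/3*Y1 r v u - G1 r v 1 p (y/2) z)))) := by
  simp only [tb51, semL, mz, F0, xi, et, lD, lP, lt, lN, lp1, lr1, Y1, Y2, Y3, Y4, G1, G2, G3, G4]
  push_cast
  ring

set_option maxHeartbeats 4000000 in
theorem id52 (r v u p y z : ℝ) : semL r v u v (v*p) u (u*p) y z tb52 =
    192 * (-(u^2*(G1 r v 1 p (y/2) z*(2/3*Y1 r v u - G1 r v 1 p (y/2) z)))) := by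
  simp only [tb52, semL, mz, F0, xi, et, lD, lP, lt, lN, lp1, lr1, Y1, Y2, Y3, Y4, G1, G2, G3, G4]
  push_cast
  ring

set_option maxHeartbeats 4000000 in
theorem id53 (r v u p y z : ℝ) : semL r v u v (v*p) u (u*p) y z tb53 =
    192 * (-(r*v^2*(G2 r v 1 p (y/2) z*(2/3*Y2 r v u - G2 r v 1 p (y/2) z)))) := by
  simp only [tb53, semL, mz, F0, xi, et, lD, lP, lt, lN, lp1, lr1, Y1, Y2, Y3, Y4, G1, G2, G3, G4]
  push_cast
  ring

set_option maxHeartbeats 4000000 in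
theorem id54 (r v u p y z : ℝ) : semL r v u v (v*p) u (u*p) y z tb54 =
    192 * (-(2*r*v*u*(G2 r v 1 p (y/2) z*(2/3*Y2 r v u - G2 r v 1 p (y/2) z)))) := by
  simp only [tb54, semL, mz, F0, xi, et, lD, lP, lt, lN, lp1, lr1, Y1, Y2, Y3, Y4, G1, G2, G3, G4]
  push_cast
  ring

set_option maxHeartbeats 4000000 in
theorem id55 (r v u p y z : ℝ) : semL r v u v (v*p) u (u*p) y z tb55 =
    192 * (-(u^2*(G2 r v 1 p (y/2) z*(2/3*Y2 r v u - G2 r v 1 p (y/2) z)))) := by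
  simp only [tb55, semL, mz, F0, xi, et, lD, lP, lt, lN, lp1, lr1, Y1, Y2, Y3, Y4, G1, G2, G3, G4]
  push_cast
  ring

set_option maxHeartbeats 4000000 in
theorem id56 (r v u p y z : ℝ) : semL r v u v (v*p) u (u*p) y z tb56 =
    192 * (-(r*v^2*(G3 r v 1 p z*(2/3*Y3 r v u - G3 r v 1 p z)))) := by
  simp only [tb56, semL, mz, F0, xi, et, lD, lP, lt, lN, lp1, lr1, Y1, Y2, Y3, Y4, G1, G2, G3, G4]
  push_cast
  ring

set_option maxHeartbeats 4000000 in
theorem id57 (r v u p y z : ℝ) : semL r v u v (v*p) u (u*p) y z tb57 =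
    192 * (-(2*r*v*u*(G3 r v 1 p z*(2/3*Y3 r v u - G3 r v 1 p z)))) := by
  simp only [tb57, semL, mz, F0, xi, et, lD, lP, lt, lN, lp1, lr1, Y1, Y2, Y3, Y4, G1, G2, G3, G4]
  push_cast
  ring

set_option maxHeartbeats 4000000 in
theorem id58 (r v u p y z : ℝ) : semL r v u v (v*p) u (u*p) y z tb58 =
    192 * (-(u^2*(G3 r v 1 p z*(2/3*Y3 r v u - G3 r v 1 p z)))) := by
  simp only [tb58, semL, mz, F0, xi, et, lD, lP, lt, lN, lp1, lr1, Y1, Y2, Y3, Y4, G1, G2, G3, G4]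
  push_cast
  ring

set_option maxHeartbeats 4000000 in
theorem id59 (r v u p y z : ℝ) : semL r v u v (v*p) u (u*p) y z tb59 =
    192 * (-(r*v^2*(G4 r v 1 p z*(2/3*Y4 r v u - G4 r v 1 p z)))) := by
  simp only [tb59, semL, mz, F0, xi, et, lD, lP, lt, lN, lp1, lr1, Y1, Y2, Y3, Y4, G1, G2, G3, G4]
  push_cast
  ring

set_option maxHeartbeats 4000000 in
theorem id60 (r v u p y z : ℝ) : semL r v u v (v*p) u (u*p) y z tb60 =
    192 * (-(2*r*v*u*(G4 r v 1 p z*(2/3*Y4 r v u - G4 r v 1 p z)))) := by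
  simp only [tb60, semL, mz, F0, xi, et, lD, lP, lt, lN, lp1, lr1, Y1, Y2, Y3, Y4, G1, G2, G3, G4]
  push_cast
  ring

set_option maxHeartbeats 4000000 in
theorem id61 (r v u p y z : ℝ) : semL r v u v (v*p) u (u*p) y z tb61 =
    192 * (-(u^2*(G4 r v 1 p z*(2/3*Y4 r v u - G4 r v 1 p z)))) := by
  simp only [tb61, semL, mz, F0, xi, et, lD, lP, lt, lN, lp1, lr1, Y1, Y2, Y3, Y4, G1, G2, G3, G4]
  push_cast
  ring

set_option maxHeartbeats 4000000 in
theorem id62 (r v u p y z : ℝ) : semL r v u v (v*p) u (u*p) y z tb62 =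
    192 * (r*v^2*lt r 1 p z^2) := by
  simp only [tb62, semL, mz, F0, xi, et, lD, lP, lt, lN, lp1, lr1, Y1, Y2, Y3, Y4, G1, G2, G3, G4]
  push_cast
  ring

set_option maxHeartbeats 4000000 in
theorem id63 (r v u p y z : ℝ) : semL r v u v (v*p) u (u*p) y z tb63 =
    192 * (-(r*v^2*lt r 1 p z)) := by
  simp only [tb63, semL, mz, F0, xi, et, lD, lP, lt, lN, lp1, lr1, Y1, Y2, Y3, Y4, G1, G2, G3, G4]
  push_cast
  ring

set_option maxHeartbeats 4000000 in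
theorem id64 (r v u p y z : ℝ) : semL r v u v (v*p) u (u*p) y z tb64 =
    192 * (r*v^2) := by
  simp only [tb64, semL, mz, F0, xi, et, lD, lP, lt, lN, lp1, lr1, Y1, Y2, Y3, Y4, G1, G2, G3, G4]
  push_cast
  ring

set_option maxHeartbeats 4000000 in
theorem id65 (r v u p y z : ℝ) : semL r v u v (v*p) u (u*p) y z tb65 =
    192 * (2*r*v*u*lt r 1 p z^2) := by
  simp only [tb65, semL, mz, F0, xi, et, lD, lP, lt, lN, lp1, lr1, Y1, Y2, Y3, Y4, G1, G2, G3, G4]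
  push_cast
  ring

end Pool.G1.Gap.PB
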