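import Pool.Agent.Work.MP_b5407d_g1.Pl_PAT

/-! # G1, line P-a: values of the tables 66 .. 81 at the lifted vector -/

set_option autoImplicit false
set_option maxRecDepth 100000
set_option linter.unusedSimpArgs false

namespace Pool.G1.Gap.PB

set_option maxHeartbeats 4000000 in
theorem id66 (r v u p y z : ℝ) : semL r v u v (v*p) u (u*p) y z tb66 =
    192 * (-(2*r*v*u*lt r 1 p z)) := by
  simp only [tb66, semL, mz, F0, xi, et, lD, lP, lt, lN, lp1, lr1, Y1, Y2, Y3, Y4, G1, G2, G3, G4]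
  push_cast
  ring

set_option maxHeartbeats 4000000 in
theorem id67 (r v u p y z : ℝ) : semL r v u v (v*p) u (u*p) y z tb67 =
    192 * (2*r*v*u) := by
  simp only [tb67, semL, mz, F0, xi, et, lD, lP, lt, lN, lp1, lr1, Y1, Y2, Y3, Y4, G1, G2, G3, G4]
  push_cast
  ring

set_option maxHeartbeats 4000000 in
theorem id68 (r v u p y z : ℝ) : semL r v u v (v*p) u (u*p) y z tb68 =
    192 * (u^2*lt r 1 p z^2) := by
  simp only [tb68, semL, mz, F0, xi, et, lD, lP, lt, lN, lp1, lr1, Y1, Y2, Y3, Y4, G1, G2, G3, G4]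
  push_cast
  ring

set_option maxHeartbeats 4000000 in
theorem id69 (r v u p y z : ℝ) : semL r v u v (v*p) u (u*p) y z tb69 =
    192 * (-(u^2*lt r 1 p z)) := by
  simp only [tb69, semL, mz, F0, xi, et, lD, lP, lt, lN, lp1, lr1, Y1, Y2, Y3, Y4, G1, G2, G3, G4]
  push_cast
  ring

set_option maxHeartbeats 4000000 in
theorem id70 (r v u p y z : ℝ) : semL r v u v (v*p) u (u*p) y z tb70 =
    192 * (u^2) := by
  simp only [tb70, semL, mz, F0, xi, et, lD, lP, lt, lN, lp1, lr1, Y1, Y2, Y3, Y4, G1, G2, G3, G4]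
  push_cast
  ring

set_option maxHeartbeats 4000000 in
theorem id71 (r v u p y z : ℝ) : semL r v u v (v*p) u (u*p) y z tb71 =
    192 * 0 := by
  simp only [tb71, semL, mz, F0, xi, et, lD, lP, lt, lN, lp1, lr1, Y1, Y2, Y3, Y4, G1, G2, G3, G4]
  push_cast
  ring

set_option maxHeartbeats 4000000 in
theorem id72 (r v u p y z : ℝ) : semL r v u v (v*p) u (u*p) y z tb72 =
    192 * 0 := by
  simp only [tb72, semL, mz, F0, xi, et, lD, lP, lt, lN, lp1, lr1, Y1, Y2, Y3, Y4, G1, G2, G3, G4]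
  push_cast
  ring

set_option maxHeartbeats 4000000 in
theorem id73 (r v u p y z : ℝ) : semL r v u v (v*p) u (u*p) y z tb73 =
    192 * (-(r*v^2*(1))) := by
  simp only [tb73, semL, mz, F0, xi, et, lD, lP, lt, lN, lp1, lr1, Y1, Y2, Y3, Y4, G1, G2, G3, G4]
  push_cast
  ring

set_option maxHeartbeats 4000000 in
theorem id74 (r v u p y z : ℝ) : semL r v u v (v*p) u (u*p) y z tb74 =
    192 * (-(r*v*u*(1))) := by
  simp only [tb74, semL, mz, F0, xi, et, lD, lP, lt, lN, lp1, lr1, Y1, Y2, Y3, Y4, G1, G2, G3, G4]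
  push_cast
  ring

set_option maxHeartbeats 4000000 in
theorem id75 (r v u p y z : ℝ) : semL r v u v (v*p) u (u*p) y z tb75 =
    192 * (-(r*u^2*(1))) := by
  simp only [tb75, semL, mz, F0, xi, et, lD, lP, lt, lN, lp1, lr1, Y1, Y2, Y3, Y4, G1, G2, G3, G4]
  push_cast
  ring

set_option maxHeartbeats 4000000 in
theorem id76 (r v u p y z : ℝ) : semL r v u v (v*p) u (u*p) y z tb76 =
    192 * (-(r*v^2*(2*p))) := by
  simp only [tb76, semL, mz, F0, xi, et, lD, lP, lt, lN, lp1, lr1, Y1, Y2, Y3, Y4, G1, G2, G3, G4]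
  push_cast
  ring

set_option maxHeartbeats 4000000 in
theorem id77 (r v u p y z : ℝ) : semL r v u v (v*p) u (u*p) y z tb77 =
    192 * (-(r*v*u*(2*p))) := by
  simp only [tb77, semL, mz, F0, xi, et, lD, lP, lt, lN, lp1, lr1, Y1, Y2, Y3, Y4, G1, G2, G3, G4]
  push_cast
  ring

set_option maxHeartbeats 4000000 in
theorem id78 (r v u p y z : ℝ) : semL r v u v (v*p) u (u*p) y z tb78 =
    192 * (-(r*u^2*(2*p))) := by
  simp only [tb78, semL, mz, F0, xi, et, lD, lP, lt, lN, lp1, lr1, Y1, Y2, Y3, Y4, G1, G2, G3, G4]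
  push_cast
  ring

set_option maxHeartbeats 4000000 in
theorem id79 (r v u p y z : ℝ) : semL r v u v (v*p) u (u*p) y z tb79 =
    192 * (-(r*v^2*(p^2))) := by
  simp only [tb79, semL, mz, F0, xi, et, lD, lP, lt, lN, lp1, lr1, Y1, Y2, Y3, Y4, G1, G2, G3, G4]
  push_cast
  ring

set_option maxHeartbeats 4000000 in
theorem id80 (r v u p y z : ℝ) : semL r v u v (v*p) u (u*p) y z tb80 =
    192 * (-(r*v*u*(p^2))) := by
  simp only [tb80, semL, mz, F0, xi, et, lD, lP, lt, lN, lp1, lr1, Y1, Y2, Y3, Y4, G1, G2, G3, G4]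
  push_cast
  ring

set_option maxHeartbeats 4000000 in
theorem id81 (r v u p y z : ℝ) : semL r v u v (v*p) u (u*p) y z tb81 =
    192 * (-(r*u^2*(p^2))) := by
  simp only [tb81, semL, mz, F0, xi, et, lD, lP, lt, lN, lp1, lr1, Y1, Y2, Y3, Y4, G1, G2, G3, G4]
  push_cast
  ring

end Pool.G1.Gap.PB
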