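import Pool.Agent.Work.MP_b5407d_g1.Pl_PWG

/-!
# G1, line P-a: cell data (helper93's format) and the list of constants

All numbers of a cell are integers over `4096`, the corners of the box integers over `1024`, the two
sector factors integers over `1024`.
-/

set_option autoImplicit false

namespace Pool.G1.Gap

namespace PB

/-- coefficients of `1, ρ, v, τ` -/
structure A4 where
  x0 : Int
  x1 : Int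
  x2 : Int
  x3 : Int

/-- three integers -/
structure A3 where
  x0 : Int
  x1 : Int
  x2 : Int

/-- **the data of one cell** -/
structure CellD where
  box : BoxZ
  kap : Int
  A : Int
  B : Int
  t0 : Int
  t1 : Int
  d : A4
  e1 : A4
  e2 : A4
  e3 : A4
  e4 : A4
  gR : A4
  gL : A4
  hR : A3
  hL : A3
  nR1 : Int
  nR2 : Int
  nL1 : Int
  nL2 : Int
  SR : A3
  SL : A3
  b1 : A3
  b2 : A3
  b3 : A3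
  b4 : A3
  w : A3
  sk1 : Int
  sk2 : Int
  q : A3
  sp1 : Int
  sq1 : Int
  sp2 : Int
  sq2 : Int

/-- value of an affine weight -/
noncomputable def A4.ev (x : A4) (ρ v τ : ℝ) : ℝ := (x.x0 + x.x1 * ρ + x.x2 * v + x.x3 * τ) / 4096

/-- value of an affine weight in `1, ρ, v` -/
noncomputable def A3.ev (x : A3) (ρ v : ℝ) : ℝ := (x.x0 + x.x1 * ρ + x.x2 * v) / 4096

/-- value of a box multiplier -/
noncomputable def A3.mult (x : A3) (ρ v τ : ℝ) : ℝ :=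
  ρ * (x.x0 / 4096) * v ^ 2 + 2 * ρ * (x.x1 / 4096) * (v * τ) + x.x2 / 4096 * τ ^ 2

/-- the sector polynomial -/
noncomputable def CellD.sec (c : CellD) (v τ : ℝ) : ℝ :=
  (c.sp1 * v + c.sq1 * τ) / 1024 * ((c.sp2 * v + c.sq2 * τ) / 1024)

/-- the form of the cell -/
noncomputable def CellD.En (c : CellD) (ρ v τ p y z : ℝ) : ℝ :=
  PB.En (c.kap / 4096) (c.A / 4096) (c.B / 4096) (c.t0 / 4096) (c.t1 / 4096) ρ v τ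
    (c.e1.ev ρ v τ) (c.e2.ev ρ v τ) (c.e3.ev ρ v τ) (c.e4.ev ρ v τ) (c.d.ev ρ v τ)
    (c.gR.ev ρ v τ + c.gL.ev ρ v τ) (c.hR.ev ρ v) (c.hL.ev ρ v)
    (c.nR1 / 4096) (c.nR2 / 4096) (c.nL1 / 4096) (c.nL2 / 4096)
    (c.SR.x0 / 4096) (c.SR.x1 / 4096) (c.SR.x2 / 4096)
    (c.SL.x0 / 4096) (c.SL.x1 / 4096) (c.SL.x2 / 4096)
    (c.b1.mult ρ v τ) (c.b2.mult ρ v τ) (c.b3.mult ρ v τ) (c.b4.mult ρ v τ) (c.w.mult ρ v τ)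
    (c.sec v τ) (c.q.x0 / 4096) (c.q.x1 / 4096) (c.q.x2 / 4096) p y z

/-- the 82 constants (true value times `2 ^ 40`) -/
def CellD.consts (c : CellD) : List Int :=
  [1099511627776, c.kap * 268435456, c.A * 268435456, c.B * 268435456,
   c.d.x0 * 268435456, c.d.x1 * 268435456, c.d.x2 * 268435456, c.d.x3 * 268435456,
   c.e1.x0 * 268435456, c.e1.x1 * 268435456, c.e1.x2 * 268435456, c.e1.x3 * 268435456,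
   c.e2.x0 * 268435456, c.e2.x1 * 268435456, c.e2.x2 * 268435456, c.e2.x3 * 268435456,
   c.e3.x0 * 268435456, c.e3.x1 * 268435456, c.e3.x2 * 268435456, c.e3.x3 * 268435456,
   c.e4.x0 * 268435456, c.e4.x1 * 268435456, c.e4.x2 * 268435456, c.e4.x3 * 268435456,
   c.kap * c.kap * (c.gR.x0 + c.gL.x0), c.kap * c.kap * (c.gR.x1 + c.gL.x1),
   c.kap * c.kap * (c.gR.x2 + c.gL.x2), c.kap * c.kap * (c.gR.x3 + c.gL.x3),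
   c.kap * c.nR1 * 32768, c.kap * c.nR2 * 32768, c.kap * c.nL1 * 32768, c.kap * c.nL2 * 32768,
   c.SR.x0 * c.hR.x0 * 65536, c.SR.x0 * c.hR.x1 * 65536, c.SR.x0 * c.hR.x2 * 65536,
   c.SR.x1 * c.hR.x0 * 65536, c.SR.x1 * c.hR.x1 * 65536, c.SR.x1 * c.hR.x2 * 65536,
   c.SR.x2 * c.hR.x0 * 65536, c.SR.x2 * c.hR.x1 * 65536, c.SR.x2 * c.hR.x2 * 65536,
   c.SL.x0 * c.hL.x0 * 65536, c.SL.x0 * c.hL.x1 * 65536, c.SL.x0 * c.hL.x2 * 65536,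
   c.SL.x1 * c.hL.x0 * 65536, c.SL.x1 * c.hL.x1 * 65536, c.SL.x1 * c.hL.x2 * 65536,
   c.SL.x2 * c.hL.x0 * 65536, c.SL.x2 * c.hL.x1 * 65536, c.SL.x2 * c.hL.x2 * 65536,
   c.b1.x0 * 268435456, c.b1.x1 * 268435456, c.b1.x2 * 268435456,
   c.b2.x0 * 268435456, c.b2.x1 * 268435456, c.b2.x2 * 268435456,
   c.b3.x0 * 268435456, c.b3.x1 * 268435456, c.b3.x2 * 268435456,
   c.b4.x0 * 268435456, c.b4.x1 * 268435456, c.b4.x2 * 268435456,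
   c.w.x0 * 268435456, c.w.x0 * (c.t0 + c.t1) * 65536, c.w.x0 * c.t0 * c.t1 * 16,
   c.w.x1 * 268435456, c.w.x1 * (c.t0 + c.t1) * 65536, c.w.x1 * c.t0 * c.t1 * 16,
   c.w.x2 * 268435456, c.w.x2 * (c.t0 + c.t1) * 65536, c.w.x2 * c.t0 * c.t1 * 16,
   c.sk1 * 268435456, c.sk2 * 268435456,
   c.q.x0 * (c.sp1 * c.sp2) * 256, c.q.x0 * (c.sp1 * c.sq2 + c.sp2 * c.sq1) * 256,
   c.q.x0 * (c.sq1 * c.sq2) * 256,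
   c.q.x1 * (c.sp1 * c.sp2) * 256, c.q.x1 * (c.sp1 * c.sq2 + c.sp2 * c.sq1) * 256,
   c.q.x1 * (c.sq1 * c.sq2) * 256,
   c.q.x2 * (c.sp1 * c.sp2) * 256, c.q.x2 * (c.sp1 * c.sq2 + c.sp2 * c.sq1) * 256,
   c.q.x2 * (c.sq1 * c.sq2) * 256]

/-- the 82 expressions (true values) -/
noncomputable def exprs (ρ v τ p y z : ℝ) : List ℝ :=
  [F0 0 0 0 ρ v τ 1 p (y / 2) z,
   F0 1 0 0 ρ v τ 1 p (y / 2) z - F0 0 0 0 ρ v τ 1 p (y / 2) z,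
   -(τ * lN ρ v p (y / 2) z),
   -(τ * lt ρ 1 p z * lN ρ v p (y / 2) z),
   (1 - v) * lD ρ v p (y / 2) ^ 2, (1 - v) * ρ * lD ρ v p (y / 2) ^ 2,
   (1 - v) * v * lD ρ v p (y / 2) ^ 2, (1 - v) * τ * lD ρ v p (y / 2) ^ 2,
   xi ρ v * (τ * G1 ρ v 1 p (y / 2) z) ^ 2, xi ρ v * ρ * (τ * G1 ρ v 1 p (y / 2) z) ^ 2,
   xi ρ v * v * (τ * G1 ρ v 1 p (y / 2) z) ^ 2, xi ρ v * τ * (τ * G1 ρ v 1 p (y / 2) z) ^ 2,
   xi ρ v * (τ * G2 ρ v 1 p (y / 2) z) ^ 2, xi ρ v * ρ * (τ * G2 ρ v 1 p (y / 2) z) ^ 2,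
   xi ρ v * v * (τ * G2 ρ v 1 p (y / 2) z) ^ 2, xi ρ v * τ * (τ * G2 ρ v 1 p (y / 2) z) ^ 2,
   et ρ v * (τ * G3 ρ v 1 p z) ^ 2, et ρ v * ρ * (τ * G3 ρ v 1 p z) ^ 2,
   et ρ v * v * (τ * G3 ρ v 1 p z) ^ 2, et ρ v * τ * (τ * G3 ρ v 1 p z) ^ 2,
   et ρ v * (τ * G4 ρ v 1 p z) ^ 2, et ρ v * ρ * (τ * G4 ρ v 1 p z) ^ 2,
   et ρ v * v * (τ * G4 ρ v 1 p z) ^ 2, et ρ v * τ * (τ * G4 ρ v 1 p z) ^ 2,
   -(lN ρ v p (y / 2) z ^ 2), -(ρ * lN ρ v p (y / 2) z ^ 2),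
   -(v * lN ρ v p (y / 2) z ^ 2), -(τ * lN ρ v p (y / 2) z ^ 2),
   ρ * xi ρ v * lN ρ v p (y / 2) z * (v * lp1 ρ τ 1 p (y / 2) z),
   ρ * xi ρ v * lN ρ v p (y / 2) z * (τ * lp1 ρ τ 1 p (y / 2) z),
   ρ * et ρ v * lN ρ v p (y / 2) z * (v * lr1 ρ τ 1 p z),
   ρ * et ρ v * lN ρ v p (y / 2) z * (τ * lr1 ρ τ 1 p z),
   -(ρ * (v * lp1 ρ τ 1 p (y / 2) z) ^ 2), -(ρ * ρ * (v * lp1 ρ τ 1 p (y / 2) z) ^ 2),
   -(ρ * v * (v * lp1 ρ τ 1 p (y / 2) z) ^ 2),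
   -(2 * ρ * ((v * lp1 ρ τ 1 p (y / 2) z) * (τ * lp1 ρ τ 1 p (y / 2) z))),
   -(2 * ρ * ρ * ((v * lp1 ρ τ 1 p (y / 2) z) * (τ * lp1 ρ τ 1 p (y / 2) z))),
   -(2 * ρ * v * ((v * lp1 ρ τ 1 p (y / 2) z) * (τ * lp1 ρ τ 1 p (y / 2) z))),
   -(ρ * (τ * lp1 ρ τ 1 p (y / 2) z) ^ 2), -(ρ * ρ * (τ * lp1 ρ τ 1 p (y / 2) z) ^ 2),
   -(ρ * v * (τ * lp1 ρ τ 1 p (y / 2) z) ^ 2),
   -(ρ * (v * lr1 ρ τ 1 p z) ^ 2), -(ρ * ρ * (v * lr1 ρ τ 1 p z) ^ 2),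
   -(ρ * v * (v * lr1 ρ τ 1 p z) ^ 2),
   -(2 * ρ * ((v * lr1 ρ τ 1 p z) * (τ * lr1 ρ τ 1 p z))),
   -(2 * ρ * ρ * ((v * lr1 ρ τ 1 p z) * (τ * lr1 ρ τ 1 p z))),
   -(2 * ρ * v * ((v * lr1 ρ τ 1 p z) * (τ * lr1 ρ τ 1 p z))),
   -(ρ * (τ * lr1 ρ τ 1 p z) ^ 2), -(ρ * ρ * (τ * lr1 ρ τ 1 p z) ^ 2),
   -(ρ * v * (τ * lr1 ρ τ 1 p z) ^ 2),
   -(ρ * v ^ 2 * (G1 ρ v 1 p (y / 2) z * (2 / 3 * Y1 ρ v τ - G1 ρ v 1 p (y / 2) z))),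
   -(2 * ρ * (v * τ) * (G1 ρ v 1 p (y / 2) z * (2 / 3 * Y1 ρ v τ - G1 ρ v 1 p (y / 2) z))),
   -(τ ^ 2 * (G1 ρ v 1 p (y / 2) z * (2 / 3 * Y1 ρ v τ - G1 ρ v 1 p (y / 2) z))),
   -(ρ * v ^ 2 * (G2 ρ v 1 p (y / 2) z * (2 / 3 * Y2 ρ v τ - G2 ρ v 1 p (y / 2) z))),
   -(2 * ρ * (v * τ) * (G2 ρ v 1 p (y / 2) z * (2 / 3 * Y2 ρ v τ - G2 ρ v 1 p (y / 2) z))),
   -(τ ^ 2 * (G2 ρ v 1 p (y / 2) z * (2 / 3 * Y2 ρ v τ - G2 ρ v 1 p (y / 2) z))),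
   -(ρ * v ^ 2 * (G3 ρ v 1 p z * (2 / 3 * Y3 ρ v τ - G3 ρ v 1 p z))),
   -(2 * ρ * (v * τ) * (G3 ρ v 1 p z * (2 / 3 * Y3 ρ v τ - G3 ρ v 1 p z))),
   -(τ ^ 2 * (G3 ρ v 1 p z * (2 / 3 * Y3 ρ v τ - G3 ρ v 1 p z))),
   -(ρ * v ^ 2 * (G4 ρ v 1 p z * (2 / 3 * Y4 ρ v τ - G4 ρ v 1 p z))),
   -(2 * ρ * (v * τ) * (G4 ρ v 1 p z * (2 / 3 * Y4 ρ v τ - G4 ρ v 1 p z))),
   -(τ ^ 2 * (G4 ρ v 1 p z * (2 / 3 * Y4 ρ v τ - G4 ρ v 1 p z))),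
   ρ * v ^ 2 * lt ρ 1 p z ^ 2, -(ρ * v ^ 2 * lt ρ 1 p z), ρ * v ^ 2,
   2 * ρ * (v * τ) * lt ρ 1 p z ^ 2, -(2 * ρ * (v * τ) * lt ρ 1 p z), 2 * ρ * (v * τ),
   τ ^ 2 * lt ρ 1 p z ^ 2, -(τ ^ 2 * lt ρ 1 p z), τ ^ 2,
   0, 0,
   -(ρ * v ^ 2), -(ρ * (v * τ)), -(ρ * τ ^ 2),
   -(2 * ρ * v ^ 2 * p), -(2 * ρ * (v * τ) * p), -(2 * ρ * τ ^ 2 * p),
   -(ρ * v ^ 2 * p ^ 2), -(ρ * (v * τ) * p ^ 2), -(ρ * τ ^ 2 * p ^ 2)]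

/-- linear combination -/
noncomputable def lc : List Int → List ℝ → ℝ
  | c :: cs, x :: xs => c * x + lc cs xs
  | _, _ => 0

lemma F0_lin (kap A B ρ v τ p y z : ℝ) :
    F0 kap A B ρ v τ 1 p y z = F0 0 0 0 ρ v τ 1 p y z +
      kap * (F0 1 0 0 ρ v τ 1 p y z - F0 0 0 0 ρ v τ 1 p y z) - A * (τ * lN ρ v p y z) -
      B * (τ * lt ρ 1 p z * lN ρ v p y z) := by
  unfold F0
  generalize lN ρ v p y z = n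
  generalize lt ρ 1 p z = t
  generalize lP p y = l
  generalize xi ρ v = x
  generalize et ρ v = e
  ring

set_option maxRecDepth 100000 in
/-- **the 82 constants and expressions give the cell form** -/
theorem lc_eq (c : CellD) (ρ v τ p y z : ℝ) :
    lc c.consts (exprs ρ v τ p y z) = 1099511627776 * c.En ρ v τ p y z := by
  unfold CellD.En PB.En
  rw [F0_lin]
  simp only [CellD.consts, exprs, lc, A4.ev, A3.ev, A3.mult, CellD.sec]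
  generalize F0 0 0 0 ρ v τ 1 p (y / 2) z = f0
  generalize F0 1 0 0 ρ v τ 1 p (y / 2) z = f1
  generalize G1 ρ v 1 p (y / 2) z = g1
  generalize G2 ρ v 1 p (y / 2) z = g2
  generalize G3 ρ v 1 p z = g3
  generalize G4 ρ v 1 p z = g4
  generalize lN ρ v p (y / 2) z = n
  generalize lp1 ρ τ 1 p (y / 2) z = a
  generalize lr1 ρ τ 1 p z = b
  generalize xi ρ v = x
  generalize et ρ v = e
  generalize lt ρ 1 p z = t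
  generalize lD ρ v p (y / 2) = dd
  generalize Y1 ρ v τ = y1
  generalize Y2 ρ v τ = y2
  generalize Y3 ρ v τ = y3
  generalize Y4 ρ v τ = y4
  push_cast
  ring

end PB

end Pool.G1.Gap
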