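import Pool.Agent.Work.MP_b5407d_g1.Pl_PATi0
import Pool.Agent.Work.MP_b5407d_g1.Pl_PATi1
import Pool.Agent.Work.MP_b5407d_g1.Pl_PATi2
import Pool.Agent.Work.MP_b5407d_g1.Pl_PATi3
import Pool.Agent.Work.MP_b5407d_g1.Pl_PATi4
import Pool.Agent.Work.MP_b5407d_g1.Pl_PWH

/-! # G1, line P-a: the 82 tables against the list `exprs` of helper38 -/

set_option autoImplicit false
set_option maxRecDepth 100000

namespace Pool.G1.Gap.PB

lemma kap_expr (ρ v τ p y z : ℝ) :
    (ρ*(xi ρ v*lP p (y/2) - et ρ v*(p/2) + τ*(xi ρ v + et ρ v)/4*lt ρ 1 p z)*lN ρ v p (y/2) z) =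
      F0 1 0 0 ρ v τ 1 p (y / 2) z - F0 0 0 0 ρ v τ 1 p (y / 2) z := by
  unfold F0
  generalize lN ρ v p (y / 2) z = n
  generalize lt ρ 1 p z = t
  generalize lP p (y / 2) = l
  generalize xi ρ v = x
  generalize et ρ v = e
  ring

set_option maxHeartbeats 4000000 in
/-- **the tables at the lifted vector are `192 ×` the expressions** -/
theorem map_tabs (ρ v τ p y z : ℝ) :
    tabs.map (semL ρ v τ v (v*p) τ (τ*p) y z) = (exprs ρ v τ p y z).map (fun x => 192 * x) := by
  simp only [tabs, exprs, List.map_cons, List.map_nil, id0, id1, id2, id3, id4, id5, id6, id7, id8,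
    id9, id10, id11, id12, id13, id14, id15, id16, id17, id18, id19, id20, id21, id22, id23, id24,
    id25, id26, id27, id28, id29, id30, id31, id32, id33, id34, id35, id36, id37, id38, id39, id40,
    id41, id42, id43, id44, id45, id46, id47, id48, id49, id50, id51, id52, id53, id54, id55, id56,
    id57, id58, id59, id60, id61, id62, id63, id64, id65, id66, id67, id68, id69, id70, id71, id72,
    id73, id74, id75, id76, id77, id78, id79, id80, id81, kap_expr]
  generalize F0 0 0 0 ρ v τ 1 p (y / 2) z = f0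
  generalize F0 1 0 0 ρ v τ 1 p (y / 2) z = f1
  generalize G1 ρ v 1 p (y / 2) z = g1
  generalize G2 ρ v 1 p (y / 2) z = g2
  generalize G3 ρ v 1 p z = g3
  generalize G4 ρ v 1 p z = g4
  generalize lN ρ v p (y / 2) z = n
  generalize lp1 ρ τ 1 p (y / 2) z = a
  generalize lr1 ρ τ 1 p z = b
  generalize xi ρ v = x
  generalize et ρ v = e
  generalize lt ρ 1 p z = t
  generalize lD ρ v p (y / 2) = dd
  generalize Y1 ρ v τ = y1
  generalize Y2 ρ v τ = y2
  generalize Y3 ρ v τ = y3
  generalize Y4 ρ v τ = y4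
  repeat refine congrArg₂ List.cons (by ring) ?_
  rfl

/-- linear combination of tables -/
noncomputable def lcT (x y t z0 z1 z2 z3 z4 z5 : ℝ) :
    List Int → List (List (ℕ × ℕ × ℕ × ℕ × ℤ)) → ℝ
  | c :: cs, T :: Ts => c * semL x y t z0 z1 z2 z3 z4 z5 T + lcT x y t z0 z1 z2 z3 z4 z5 cs Ts
  | _, _ => 0

lemma lcT_map (x y t z0 z1 z2 z3 z4 z5 : ℝ) (cs : List Int)
    (Ts : List (List (ℕ × ℕ × ℕ × ℕ × ℤ))) :
    lcT x y t z0 z1 z2 z3 z4 z5 cs Ts = lc cs (Ts.map (semL x y t z0 z1 z2 z3 z4 z5)) := by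
  induction Ts generalizing cs with
  | nil => cases cs <;> simp [lcT, lc]
  | cons T Ts ih =>
    cases cs with
    | nil => simp [lcT, lc]
    | cons c cs => simp only [lcT, List.map_cons, lc, ih]

lemma lc_smul (k : ℝ) (cs : List Int) (xs : List ℝ) :
    lc cs (xs.map (fun x => k * x)) = k * lc cs xs := by
  induction xs generalizing cs with
  | nil => cases cs <;> simp [lc]
  | cons x xs ih =>
    cases cs with
    | nil => simp [lc]
    | cons c cs => simp only [List.map_cons, lc, ih]; ring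

/-- **the combination of the 82 tables at the lifted vector** -/
theorem lcT_eq (c : CellD) (ρ v τ p y z : ℝ) :
    lcT ρ v τ v (v*p) τ (τ*p) y z c.consts tabs = 192 * 1099511627776 * c.En ρ v τ p y z := by
  rw [lcT_map, map_tabs, lc_smul, lc_eq]; ring

end Pool.G1.Gap.PB
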