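import Pool.Agent.Work.MP_b5407d_g1.Pl_FAM6
import Pool.Agent.Work.MP_b5407d_g1.Pl_PATs

/-!
# G1, line P-a: matrix part of a cell, `F6.on b c.consts = true → 0 ≤ c.En`
-/

set_option autoImplicit false
set_option maxRecDepth 100000

namespace Pool.G1.Gap.PB

open Pool.G1.MB

lemma mon_mz (z0 z1 z2 z3 z4 z5 : ℝ) (e : ℕ) (he : e < 21) :
    mon [z0, z1, z2, z3, z4, z5] e = mz z0 z1 z2 z3 z4 z5 e := by
  obtain ⟨h0, h1, h2, h3, h4, h5, h6, h7, h8, h9, h10, h11, h12, h13, h14, h15, h16, h17, h18, h19,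
    h20⟩ := mon6 z0 z1 z2 z3 z4 z5
  interval_cases e
  · rw [h0, mz]
  · rw [h1, mz]
  · rw [h2, mz]
  · rw [h3, mz]
  · rw [h4, mz]
  · rw [h5, mz]
  · rw [h6, mz]
  · rw [h7, mz]
  · rw [h8, mz]
  · rw [h9, mz]
  · rw [h10, mz]
  · rw [h11, mz]
  · rw [h12, mz]
  · rw [h13, mz]
  · rw [h14, mz]
  · rw [h15, mz]
  · rw [h16, mz]
  · rw [h17, mz]
  · rw [h18, mz]
  · rw [h19, mz]
  · rw [h20, mz]

lemma semS_semL (x y t z0 z1 z2 z3 z4 z5 : ℝ) (S : List Mo) (h : posB 21 S = true) :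
    semS x y t [z0, z1, z2, z3, z4, z5] S = semL x y t z0 z1 z2 z3 z4 z5 S := by
  induction S with
  | nil => simp [semS, semL]
  | cons m S ih =>
    obtain ⟨i, j, k, e, c⟩ := m
    have h' : e < 21 ∧ posB 21 S = true := by
      simpa [posB] using h
    have ih' := ih h'.2
    simp only [semS, List.map_cons, List.sum_cons, semL] at ih' ⊢
    rw [ih', mon_mz _ _ _ _ _ _ e h'.1]

lemma semS_app (x y t : ℝ) (xs : List ℝ) (S S' : List Mo) :
    semS x y t xs (S ++ S') = semS x y t xs S + semS x y t xs S' := by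
  simp [semS]

lemma semS_pad (x y t : ℝ) (xs : List ℝ) : semS x y t xs pad6 = 0 := by
  simp [semS, pad6]

lemma semC_lcT (x y t z0 z1 z2 z3 z4 z5 : ℝ) (cs : List ℤ) (Ts : List (List Mo))
    (h : ∀ S ∈ Ts, posB 21 S = true) :
    semC x y t [z0, z1, z2, z3, z4, z5] cs Ts = lcT x y t z0 z1 z2 z3 z4 z5 cs Ts := by
  induction Ts generalizing cs with
  | nil => cases cs <;> simp [semC, lcT]
  | cons S Ts ih =>
    cases cs with
    | nil => simp [semC, lcT]
    | cons c cs =>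
      simp only [semC, lcT]
      rw [semS_semL _ _ _ _ _ _ _ _ _ S (h S (by simp)),
        ih cs (fun S' hS' => h S' (by simp [hS']))]

lemma F6_Ts_eq : F6_Ts = (tb0 ++ pad6) :: tabs.tail := rfl

theorem semC6 (x y t z0 z1 z2 z3 z4 z5 : ℝ) (cs : List ℤ) :
    semC x y t [z0, z1, z2, z3, z4, z5] cs F6.Ts = lcT x y t z0 z1 z2 z3 z4 z5 cs tabs := by
  have hp : ∀ S ∈ F6_Ts, posB 21 S = true := F6_ok.hpos
  have e1 : F6.Ts = (tb0 ++ pad6) :: tabs.tail := rfl
  have e2 : tabs = tb0 :: tabs.tail := rfl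
  rw [e1]
  cases cs with
  | nil =>
    rw [e2]
    simp [semC, lcT]
  | cons c cs =>
    rw [e2]
    simp only [semC, lcT, List.tail_cons]
    have h0 : posB 21 tb0 = true := by decide +kernel
    have h1 : ∀ S ∈ tabs.tail, posB 21 S = true := fun S hS => hp S (by
      rw [F6_Ts_eq]; exact List.mem_cons_of_mem _ hS)
    rw [semS_app, semS_pad, add_zero, semS_semL _ _ _ _ _ _ _ _ _ _ h0,
      semC_lcT _ _ _ _ _ _ _ _ _ _ _ h1]

/-- **matrix part of a cell** -/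
theorem En_nonneg {b : Box} {c : CellD} (h : F6.on b c.consts = true) {ρ v τ : ℝ}
    (hb : b.In ρ v τ) (p y z : ℝ) : 0 ≤ c.En ρ v τ p y z := by
  have h1 := Fam.on_sound F6_ok h hb [v, v * p, τ, τ * p, y, z] rfl
  rw [semC6, lcT_eq] at h1
  have h2 : (0 : ℝ) < 192 * 1099511627776 := by norm_num
  exact (mul_nonneg_iff_of_pos_left h2).1 h1

end Pool.G1.Gap.PB
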