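import Pool.Agent.Work.MP_b5407d_g1.Pl_ARCN

/-!
# G1, balanced case: the finite-dimensional statement `Stmt_FIN` and `Stmt_FIN → Stmt_ONE`

Normalisation `B + T = 2`: `B = 1 - τ`, `T = 1 + τ`, states `al = 1 - τ a`, `be = 1 - τ b`,
`a, b ∈ [-1, 1]`.  Arcs: 1 = first chain below `al`, 2 = first chain above `al`, 3 = second chain below
`be`, 4 = second chain above `be`; lengths (in `Y = y²/2`) `dl τ a`, `du τ a`, `dl τ b`, `du τ b`
(`dl + du = 2τ`).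
-/

set_option autoImplicit false

open Finset

namespace Pool.G1.Gap

/-- `Y`-length of the arc below the state `1 - τ a` -/
noncomputable def dl (τ a : ℝ) : ℝ := τ * (1 - a) * (1 - τ * (1 + a) / 2)
/-- `Y`-length of the arc above the state `1 - τ a` -/
noncomputable def du (τ a : ℝ) : ℝ := τ * (1 + a) * (1 + τ * (1 - a) / 2)

lemma dl_add_du (τ a : ℝ) : dl τ a + du τ a = 2 * τ := by unfold dl du; ring

/-- **the finite-dimensional statement** -/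
def Stmt_FIN (L R : ℝ) : Prop :=
  ∀ τ : ℝ, 0 < τ → τ < 1 → R * (1 + τ) ≤ 1 - τ → ∀ Pi ka M E0 E1 : ℝ,
    L * (2 * τ) ≤ Pi → Pi ≤ 2 / 3 * (2 * τ) →
    L * (1 - τ) ^ 2 ≤ ka → ka ≤ 2 / 3 * (1 - τ) → L * (1 + τ) ≤ ka + Pi →
    ka + Pi ≤ 2 / 3 * (1 + τ) ^ 2 → ∃ lam mu om : ℝ,
    ∀ a b : ℝ, -1 ≤ a → a ≤ 1 → -1 ≤ b → b ≤ 1 →
    ∀ g1 h1 e1 f1 g2 h2 e2 f2 g3 h3 e3 f3 g4 h4 e4 f4 : ℝ,
    ArcN L g1 h1 e1 f1 → ArcN L g2 h2 e2 f2 → ArcN L g3 h3 e3 f3 → ArcN L g4 h4 e4 f4 →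
    Pi = dl τ a * g1 + du τ a * g2 → Pi = dl τ b * g3 + du τ b * g4 →
    M = (dl τ a * (-du τ a * g1 + dl τ a * h1) + du τ a * (dl τ a * g2 + du τ a * h2) +
      dl τ b * (-du τ b * g3 + dl τ b * h3) + du τ b * (dl τ b * g4 + du τ b * h4)) / 2 →
    E0 = dl τ a * e1 + du τ a * e2 + dl τ b * e3 + du τ b * e4 →
    E1 = (dl τ a * (-du τ a * e1 + dl τ a * f1) + du τ a * (dl τ a * e2 + du τ a * f2) +
      dl τ b * (-du τ b * e3 + dl τ b * f3) + du τ b * (dl τ b * e4 + du τ b * f4)) / 2 →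
    0 ≤ CC (1 - τ) (1 + τ) (dl τ a * e1 + du τ a * e2) (dl τ b * e3 + du τ b * e4) Pi ka lam mu om
      (1 - τ * a) (dl τ a * e1) (dl τ a * g1) (1 - τ * b) (dl τ b * e3) (dl τ b * g3)

lemma CC_scale (c B T QR QL Pi ka lam mu om al qa pa be qb pb : ℝ) (hc : c ≠ 0) (hB : B ≠ 0)
    (hT : T ≠ 0) (hal : al ≠ 0) (hbe : be ≠ 0) :
    CC (c * B) (c * T) (c ^ 2 * QR) (c ^ 2 * QL) (c ^ 2 * Pi) (c ^ 2 * ka) (c * lam) (c ^ 2 * mu)
      (c ^ 2 * om) (c * al) (c ^ 2 * qa) (c ^ 2 * pa) (c * be) (c ^ 2 * qb) (c ^ 2 * pb) =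
    c ^ 3 * CC B T QR QL Pi ka lam mu om al qa pa be qb pb := by
  unfold CC Th
  field_simp

lemma PI_scale (c : ℝ) (y t : ℕ → ℝ) (k : ℕ) :
    PI (fun i => c * y i) t k = c ^ 2 * PI y t k := by
  unfold PI
  rw [mul_sum]
  exact sum_congr rfl fun i _ => by ring

lemma QI_scale (c : ℝ) (y t : ℕ → ℝ) (k : ℕ) :
    QI (fun i => c * y i) t k = c ^ 2 * QI y t k := by
  unfold QI
  rw [mul_sum]
  exact sum_congr rfl fun i _ => by ring

lemma PI_m0 (y t : ℕ → ℝ) (k : ℕ) : PI y t k = m0 (fun i => (y i) ^ 2 / 2) t 0 k := by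
  unfold PI m0
  rw [← range_eq_Ico]
  exact sum_congr rfl fun i _ => by ring

lemma QI_n0 (y t : ℕ → ℝ) (k : ℕ) : QI y t k = n0 (fun i => (y i) ^ 2 / 2) t 0 k := by
  unfold QI n0
  rw [← range_eq_Ico]
  exact sum_congr rfl fun i _ => by ring

lemma m0_add (Z t : ℕ → ℝ) {i k : ℕ} (h : i ≤ k) : m0 Z t 0 i + m0 Z t i k = m0 Z t 0 k :=
  sum_Ico_consecutive _ (Nat.zero_le _) h
lemma m1_add (Z t : ℕ → ℝ) {i k : ℕ} (h : i ≤ k) : m1 Z t 0 i + m1 Z t i k = m1 Z t 0 k :=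
  sum_Ico_consecutive _ (Nat.zero_le _) h
lemma n0_add (Z t : ℕ → ℝ) {i k : ℕ} (h : i ≤ k) : n0 Z t 0 i + n0 Z t i k = n0 Z t 0 k :=
  sum_Ico_consecutive _ (Nat.zero_le _) h
lemma n1_add (Z t : ℕ → ℝ) {i k : ℕ} (h : i ≤ k) : n1 Z t 0 i + n1 Z t i k = n1 Z t 0 k :=
  sum_Ico_consecutive _ (Nat.zero_le _) h

/-- one chain: the two arcs of a state -/
lemma chain_arcs {L τ : ℝ} (hτ : 0 < τ) (hτ1 : τ < 1) {a : ℕ} {y t : ℕ → ℝ}
    (hy : ChG (1 - τ) (1 + τ) a y) (hL : ∀ j, L ≤ t j) (hC : ∀ j, t j ≤ 2 / 3) {i : ℕ} (hi : i ≤ a) :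
    ∃ x g1 h1 e1 f1 g2 h2 e2 f2 : ℝ, -1 ≤ x ∧ x ≤ 1 ∧ y i = 1 - τ * x ∧ ArcN L g1 h1 e1 f1 ∧
      ArcN L g2 h2 e2 f2 ∧ PI y t i = dl τ x * g1 ∧ QI y t i = dl τ x * e1 ∧
      PI y t a = dl τ x * g1 + du τ x * g2 ∧ QI y t a = dl τ x * e1 + du τ x * e2 ∧
      m1 (fun i => (y i) ^ 2 / 2) t 0 a - (1 + τ ^ 2) / 2 * PI y t a =
        (dl τ x * (-du τ x * g1 + dl τ x * h1) + du τ x * (dl τ x * g2 + du τ x * h2)) / 2 ∧
      n1 (fun i => (y i) ^ 2 / 2) t 0 a - (1 + τ ^ 2) / 2 * QI y t a =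
        (dl τ x * (-du τ x * e1 + dl τ x * f1) + du τ x * (dl τ x * e2 + du τ x * f2)) / 2 := by
  have ylo : ∀ k, k ≤ a → 1 - τ ≤ y k := by
    intro k
    induction k with
    | zero => intro _; exact hy.y0.ge
    | succ k ih => intro hk; exact (ih (by omega)).trans (hy.inc k (by omega)).le
  have yhi : y i ≤ 1 + τ := by
    have : ∀ k, i ≤ k → k ≤ a → y i ≤ y k := by
      intro k hk
      induction k, hk using Nat.le_induction with
      | base => intro _; exact le_rfl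
      | succ k hk ih => intro h; exact (ih (by omega)).trans (hy.inc k (by omega)).le
    have h := this a hi le_rfl
    rwa [hy.ya] at h
  have mono : ∀ j, j < a → (y j) ^ 2 / 2 < (y (j + 1)) ^ 2 / 2 := by
    intro j hj
    have h1 := hy.inc j hj
    have h2 := ylo j (by omega)
    have h3 : 0 < y j := by linarith
    nlinarith
  obtain ⟨g1, h1, e1, f1, A1, p1, p2, p3, p4⟩ := arc_data (fun i => (y i) ^ 2 / 2) t L hL hC 0 i
    (Nat.zero_le _) (fun j _ hj => (mono j (by omega)).le)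
  obtain ⟨g2, h2, e2, f2, A2, q1, q2, q3, q4⟩ := arc_data (fun i => (y i) ^ 2 / 2) t L hL hC i a
    hi (fun j _ hj => (mono j hj).le)
  have s1 := m0_add (fun i => (y i) ^ 2 / 2) t hi
  have s2 := m1_add (fun i => (y i) ^ 2 / 2) t hi
  have s3 := n0_add (fun i => (y i) ^ 2 / 2) t hi
  have s4 := n1_add (fun i => (y i) ^ 2 / 2) t hi
  have hx : y i = 1 - τ * ((1 - y i) / τ) := by field_simp; ring
  have dx1 : (y i) ^ 2 / 2 - (y 0) ^ 2 / 2 = dl τ ((1 - y i) / τ) := by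
    rw [hy.y0]; unfold dl; field_simp; ring
  have dx2 : (y a) ^ 2 / 2 - (y i) ^ 2 / 2 = du τ ((1 - y i) / τ) := by
    rw [hy.ya]; unfold du; field_simp; ring
  have dx3 : ((y 0) ^ 2 / 2 + (y i) ^ 2 / 2) / 2 = (1 + τ ^ 2) / 2 - du τ ((1 - y i) / τ) / 2 := by
    rw [hy.y0]; unfold du; field_simp; ring
  have dx4 : ((y i) ^ 2 / 2 + (y a) ^ 2 / 2) / 2 = (1 + τ ^ 2) / 2 + dl τ ((1 - y i) / τ) / 2 := by
    rw [hy.ya]; unfold dl; field_simp; ring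
  rw [dx1] at p1 p2 p3 p4
  rw [dx3] at p2 p4
  rw [dx2] at q1 q2 q3 q4
  rw [dx4] at q2 q4
  refine ⟨(1 - y i) / τ, g1, h1, e1, f1, g2, h2, e2, f2, ?_, ?_, hx, A1, A2, ?_, ?_, ?_, ?_, ?_, ?_⟩
  · rw [le_div_iff₀ hτ]; linarith
  · rw [div_le_iff₀ hτ]; have := ylo i hi; linarith
  · rw [PI_m0, p1]
  · rw [QI_n0, p3]
  · rw [PI_m0, ← s1, p1, q1]
  · rw [QI_n0, ← s3, p3, q3]
  · rw [PI_m0, ← s1, ← s2, p1, p2, q1, q2]; ring
  · rw [QI_n0, ← s3, ← s4, p3, p4, q3, q4]; ring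

/-- **the one-dimensional statement from the finite-dimensional one** -/
theorem ONE_of_FIN {L R : ℝ} (h : Stmt_FIN L R) : Stmt_ONE L R := by
  intro B T a b y t z s hB hBT hR hy hz htL htC hsL hsC hbal ka k1 k2 k3 k4
  have hT : 0 < T := hB.trans hBT
  obtain ⟨c, hc⟩ : ∃ c, c = (B + T) / 2 := ⟨_, rfl⟩
  obtain ⟨τ, hτ⟩ : ∃ τ, τ = (T - B) / (T + B) := ⟨_, rfl⟩
  have hc0 : 0 < c := by rw [hc]; linarith
  have hTB : 0 < T + B := by linarith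
  have hτ0 : 0 < τ := by rw [hτ]; exact div_pos (by linarith) hTB
  have hτ1 : τ < 1 := by rw [hτ, div_lt_one hTB]; linarith
  have eB : B = c * (1 - τ) := by rw [hc, hτ]; field_simp; ring
  have eT : T = c * (1 + τ) := by rw [hc, hτ]; field_simp; ring
  have hc' := hc0.ne'
  -- normalised chains
  obtain ⟨y', hy'⟩ : ∃ y' : ℕ → ℝ, y' = fun i => y i / c := ⟨_, rfl⟩
  obtain ⟨z', hz'⟩ : ∃ z' : ℕ → ℝ, z' = fun i => z i / c := ⟨_, rfl⟩
  have ey : y = fun i => c * y' i := by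
    funext i; rw [hy']; field_simp
  have ez : z = fun i => c * z' i := by
    funext i; rw [hz']; field_simp
  have cy : ChG (1 - τ) (1 + τ) a y' := by
    refine ⟨hy.a0, ?_, ?_, ?_⟩
    · rw [hy']; simp only; rw [hy.y0, eB]; field_simp
    · rw [hy']; simp only; rw [hy.ya, eT]; field_simp
    · intro i hi
      rw [hy']; simp only
      exact div_lt_div_of_pos_right (hy.inc i hi) hc0
  have cz : ChG (1 - τ) (1 + τ) b z' := by
    refine ⟨hz.a0, ?_, ?_, ?_⟩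
    · rw [hz']; simp only; rw [hz.y0, eB]; field_simp
    · rw [hz']; simp only; rw [hz.ya, eT]; field_simp
    · intro i hi
      rw [hz']; simp only
      exact div_lt_div_of_pos_right (hz.inc i hi) hc0
  have hbal' : PI y' t a = PI z' s b := by
    rw [ey, ez, PI_scale, PI_scale] at hbal
    exact mul_left_cancel₀ (by positivity) hbal
  obtain ⟨ka', hka'⟩ : ∃ ka', ka' = ka / c ^ 2 := ⟨_, rfl⟩
  have eka : ka = c ^ 2 * ka' := by rw [hka']; field_simp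
  have ePI : PI y t a = c ^ 2 * PI y' t a := by
    conv_lhs => rw [ey]
    exact PI_scale c y' t a
  -- the global numbers
  have c2 : 0 < c ^ 2 := by positivity
  have hPlo : L * (2 * τ) ≤ PI y' t a := by
    obtain ⟨x, g1, h1, e1, f1, g2, h2, e2, f2, x1, x2, -, A1, A2, -, -, P0, -, -, -⟩ :=
      chain_arcs hτ0 hτ1 cy htL htC (Nat.zero_le a)
    have d1 : 0 ≤ dl τ x := by
      unfold dl
      exact mul_nonneg (mul_nonneg hτ0.le (by linarith)) (by nlinarith)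
    have d2 : 0 ≤ du τ x := by
      unfold du
      exact mul_nonneg (mul_nonneg hτ0.le (by linarith)) (by nlinarith)
    have d3 := dl_add_du τ x
    have m1 := mul_le_mul_of_nonneg_left A1.lo d1
    have m2 := mul_le_mul_of_nonneg_left A2.lo d2
    rw [P0, ← d3]
    linarith
  have hPhi : PI y' t a ≤ 2 / 3 * (2 * τ) := by
    obtain ⟨x, g1, h1, e1, f1, g2, h2, e2, f2, x1, x2, -, A1, A2, -, -, P0, -, -, -⟩ :=
      chain_arcs hτ0 hτ1 cy htL htC (Nat.zero_le a)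
    have d1 : 0 ≤ dl τ x := by
      unfold dl
      exact mul_nonneg (mul_nonneg hτ0.le (by linarith)) (by nlinarith)
    have d2 : 0 ≤ du τ x := by
      unfold du
      exact mul_nonneg (mul_nonneg hτ0.le (by linarith)) (by nlinarith)
    have d3 := dl_add_du τ x
    have m1 := mul_le_mul_of_nonneg_left A1.hi d1
    have m2 := mul_le_mul_of_nonneg_left A2.hi d2
    rw [P0, ← d3]
    linarith
  have r1 : R * (1 + τ) ≤ 1 - τ := by
    rw [eB, eT] at hR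
    have : c * (R * (1 + τ)) ≤ c * (1 - τ) := by linarith
    exact le_of_mul_le_mul_left this hc0
  have v1 : L * (1 - τ) ^ 2 ≤ ka' := by
    rw [eB, eka] at k1
    have : c ^ 2 * (L * (1 - τ) ^ 2) ≤ c ^ 2 * ka' := by linarith
    exact le_of_mul_le_mul_left this c2
  have v2 : ka' ≤ 2 / 3 * (1 - τ) := by
    rw [eB, eT, eka] at k2
    have : c ^ 2 * ka' ≤ c ^ 2 * (2 / 3 * (1 - τ)) := by linarith
    exact le_of_mul_le_mul_left this c2
  have v3 : L * (1 + τ) ≤ ka' + PI y' t a := by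
    rw [ePI, eB, eT, eka] at k3
    have : c ^ 2 * (L * (1 + τ)) ≤ c ^ 2 * (ka' + PI y' t a) := by linarith
    exact le_of_mul_le_mul_left this c2
  have v4 : ka' + PI y' t a ≤ 2 / 3 * (1 + τ) ^ 2 := by
    rw [ePI, eT, eka] at k4
    have : c ^ 2 * (ka' + PI y' t a) ≤ c ^ 2 * (2 / 3 * (1 + τ) ^ 2) := by linarith
    exact le_of_mul_le_mul_left this c2
  obtain ⟨lam, mu, om, H⟩ := h τ hτ0 hτ1 r1 (PI y' t a) ka'
    ((m1 (fun i => (y' i) ^ 2 / 2) t 0 a - (1 + τ ^ 2) / 2 * PI y' t a) +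
      (m1 (fun i => (z' i) ^ 2 / 2) s 0 b - (1 + τ ^ 2) / 2 * PI z' s b))
    (QI y' t a + QI z' s b)
    ((n1 (fun i => (y' i) ^ 2 / 2) t 0 a - (1 + τ ^ 2) / 2 * QI y' t a) +
      (n1 (fun i => (z' i) ^ 2 / 2) s 0 b - (1 + τ ^ 2) / 2 * QI z' s b)) hPlo hPhi v1 v2 v3 v4
  refine ⟨c * lam, c ^ 2 * mu, c ^ 2 * om, fun i hi j hj => ?_⟩
  obtain ⟨x, g1, h1, e1, f1, g2, h2, e2, f2, x1, x2, x3, A1, A2, p1, p2, p3, p4, p5, p6⟩ :=
    chain_arcs hτ0 hτ1 cy htL htC hi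
  obtain ⟨w, g3, h3, e3, f3, g4, h4, e4, f4, w1, w2, w3, A3, A4, q1, q2, q3, q4, q5, q6⟩ :=
    chain_arcs hτ0 hτ1 cz hsL hsC hj
  have G := H x w x1 x2 w1 w2 g1 h1 e1 f1 g2 h2 e2 f2 g3 h3 e3 f3 g4 h4 e4 f4 A1 A2 A3 A4 p3
    (by rw [hbal', q3]) (by rw [p5, q5]; ring) (by rw [p4, q4]; ring) (by rw [p6, q6]; ring)
  rw [← p4, ← q4, ← x3, ← w3, ← p2, ← p1, ← q2, ← q1] at G
  have hyi : y' i ≠ 0 := by
    rw [x3]
    have : τ * x ≤ τ * 1 := mul_le_mul_of_nonneg_left x2 hτ0.le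
    have : 0 < 1 - τ * x := by linarith
    exact this.ne'
  have hzj : z' j ≠ 0 := by
    rw [w3]
    have : τ * w ≤ τ * 1 := mul_le_mul_of_nonneg_left w2 hτ0.le
    have : 0 < 1 - τ * w := by linarith
    exact this.ne'
  have sc := CC_scale c (1 - τ) (1 + τ) (QI y' t a) (QI z' s b) (PI y' t a) ka' lam mu om (y' i)
    (QI y' t i) (PI y' t i) (z' j) (QI z' s j) (PI z' s j) hc' (by linarith) (by linarith) hyi hzj
  have G2 := mul_nonneg (by positivity : (0:ℝ) ≤ c ^ 3) G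
  rw [← sc] at G2
  rw [eka, eB, eT, ey, ez, PI_scale, PI_scale, PI_scale, QI_scale, QI_scale, QI_scale, QI_scale]
  exact G2

end Pool.G1.Gap
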