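import Pool.Agent.Work.MP_b5407d_g1.Pl_FIN

/-!
# G1, balanced case: the refined finite-dimensional statement `Stmt_FIN6` (arcs split at mid height)

As `Stmt_FIN`, but every arc is split at the height `y = 1` (`Y = 1/2`), and there are three more
global numbers: the fluxes `FR`, `FL` of the two chains below `y = 1` and
`Es = ∫_{y > 1} θ² dY - ∫_{y < 1} θ² dY` (both chains).
-/

set_option autoImplicit false

open Finset

namespace Pool.G1.Gap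

/-- `Y`-length between the state `1 - τ a` and the mid height `1` (for `0 ≤ a`; minus it for `a ≤ 0`) -/
noncomputable def dm (τ a : ℝ) : ℝ := τ * a * (1 - τ * a / 2)

/-- data of one chain at the state `a`: total flux `Pi`, flux `F` below `y = 1`, `M = ∫ (Y - Ymid) θ`,
`E0 = ∫ θ²`, `E1 = ∫ (Y - Ymid) θ²`, `Es = ∫ sgn (y - 1) θ²`, and `p`, `q` = `∫ θ`, `∫ θ²` below the
state.  `Ymid = (1 + τ²)/2`. -/
def Chn (L τ a Pi F M E0 E1 Es p q : ℝ) : Prop :=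
  (0 ≤ a ∧ ∃ g1 h1 e1 f1 g3 h3 e3 f3 g4 h4 e4 f4 : ℝ,
    ArcN L g1 h1 e1 f1 ∧ ArcN L g3 h3 e3 f3 ∧ ArcN L g4 h4 e4 f4 ∧
    p = dl τ a * g1 ∧ q = dl τ a * e1 ∧
    F = dl τ a * g1 + dm τ a * g3 ∧ Pi = dl τ a * g1 + dm τ a * g3 + du τ 0 * g4 ∧
    E0 = dl τ a * e1 + dm τ a * e3 + du τ 0 * e4 ∧
    Es = -(dl τ a * e1) - dm τ a * e3 + du τ 0 * e4 ∧
    M = dl τ a * (-(du τ a) / 2 * g1 + dl τ a / 2 * h1) +
      dm τ a * (-(dm τ a + τ ^ 2) / 2 * g3 + dm τ a / 2 * h3) +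
      du τ 0 * (dl τ 0 / 2 * g4 + du τ 0 / 2 * h4) ∧
    E1 = dl τ a * (-(du τ a) / 2 * e1 + dl τ a / 2 * f1) +
      dm τ a * (-(dm τ a + τ ^ 2) / 2 * e3 + dm τ a / 2 * f3) +
      du τ 0 * (dl τ 0 / 2 * e4 + du τ 0 / 2 * f4)) ∨
  (a ≤ 0 ∧ ∃ g1 h1 e1 f1 g2 h2 e2 f2 g4 h4 e4 f4 : ℝ,
    ArcN L g1 h1 e1 f1 ∧ ArcN L g2 h2 e2 f2 ∧ ArcN L g4 h4 e4 f4 ∧
    p = dl τ 0 * g1 + -(dm τ a) * g2 ∧ q = dl τ 0 * e1 + -(dm τ a) * e2 ∧
    F = dl τ 0 * g1 ∧ Pi = dl τ 0 * g1 + -(dm τ a) * g2 + du τ a * g4 ∧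
    E0 = dl τ 0 * e1 + -(dm τ a) * e2 + du τ a * e4 ∧
    Es = -(dl τ 0 * e1) + -(dm τ a) * e2 + du τ a * e4 ∧
    M = dl τ 0 * (-(du τ 0) / 2 * g1 + dl τ 0 / 2 * h1) +
      -(dm τ a) * ((-(dm τ a) - τ ^ 2) / 2 * g2 + -(dm τ a) / 2 * h2) +
      du τ a * (dl τ a / 2 * g4 + du τ a / 2 * h4) ∧
    E1 = dl τ 0 * (-(du τ 0) / 2 * e1 + dl τ 0 / 2 * f1) +
      -(dm τ a) * ((-(dm τ a) - τ ^ 2) / 2 * e2 + -(dm τ a) / 2 * f2) +
      du τ a * (dl τ a / 2 * e4 + du τ a / 2 * f4))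

/-- **the refined finite-dimensional statement** -/
def Stmt_FIN6 (L R : ℝ) : Prop :=
  ∀ τ : ℝ, 0 < τ → τ < 1 → R * (1 + τ) ≤ 1 - τ → ∀ Pi ka FR FL M E0 E1 Es : ℝ,
    L * (2 * τ) ≤ Pi → Pi ≤ 2 / 3 * (2 * τ) →
    L * (1 - τ) ^ 2 ≤ ka → ka ≤ 2 / 3 * (1 - τ) → L * (1 + τ) ≤ ka + Pi →
    ka + Pi ≤ 2 / 3 * (1 + τ) ^ 2 → ∃ lam mu om : ℝ,
    ∀ a b : ℝ, -1 ≤ a → a ≤ 1 → -1 ≤ b → b ≤ 1 →
    ∀ MR E0R E1R EsR p q ML E0L E1L EsL p' q' : ℝ,
    Chn L τ a Pi FR MR E0R E1R EsR p q → Chn L τ b Pi FL ML E0L E1L EsL p' q' →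
    M = MR + ML → E0 = E0R + E0L → E1 = E1R + E1L → Es = EsR + EsL →
    0 ≤ CC (1 - τ) (1 + τ) E0R E0L Pi ka lam mu om (1 - τ * a) q p (1 - τ * b) q' p'

/-- the body of `Stmt_FIN6` at `τ` and the mean load `th` (`Pi = 2 τ th`) -/
def FIN6at (L τ th : ℝ) : Prop :=
  ∀ ka FR FL M E0 E1 Es : ℝ,
    L * (1 - τ) ^ 2 ≤ ka → ka ≤ 2 / 3 * (1 - τ) → L * (1 + τ) ≤ ka + 2 * τ * th →
    ka + 2 * τ * th ≤ 2 / 3 * (1 + τ) ^ 2 → ∃ lam mu om : ℝ,
    ∀ a b : ℝ, -1 ≤ a → a ≤ 1 → -1 ≤ b → b ≤ 1 →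
    ∀ MR E0R E1R EsR p q ML E0L E1L EsL p' q' : ℝ,
    Chn L τ a (2 * τ * th) FR MR E0R E1R EsR p q → Chn L τ b (2 * τ * th) FL ML E0L E1L EsL p' q' →
    M = MR + ML → E0 = E0R + E0L → E1 = E1R + E1L → Es = EsR + EsL →
    0 ≤ CC (1 - τ) (1 + τ) E0R E0L (2 * τ * th) ka lam mu om (1 - τ * a) q p (1 - τ * b) q' p'

/-- lower and upper parts of `Z` -/
noncomputable def Zl (Z : ℕ → ℝ) (j : ℕ) : ℝ := min (Z j) (1 / 2)
noncomputable def Zu (Z : ℕ → ℝ) (j : ℕ) : ℝ := max (Z j) (1 / 2)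

lemma Z_add (Z : ℕ → ℝ) (j : ℕ) : Zl Z j + Zu Z j = Z j + 1 / 2 := min_add_max _ _

lemma Z_sq (Z : ℕ → ℝ) (j : ℕ) : (Zl Z j) ^ 2 + (Zu Z j) ^ 2 = (Z j) ^ 2 + 1 / 4 := by
  unfold Zl Zu
  rcases le_total (Z j) (1 / 2) with h | h
  · rw [min_eq_left h, max_eq_right h]; ring
  · rw [min_eq_right h, max_eq_left h]; ring

lemma m0_split (Z t : ℕ → ℝ) (i k : ℕ) : m0 (Zl Z) t i k + m0 (Zu Z) t i k = m0 Z t i k := by
  unfold m0
  rw [← sum_add_distrib]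
  refine sum_congr rfl fun j _ => ?_
  have h1 := Z_add Z j
  have h2 := Z_add Z (j + 1)
  linear_combination t j * (h2 - h1)

lemma m1_split (Z t : ℕ → ℝ) (i k : ℕ) : m1 (Zl Z) t i k + m1 (Zu Z) t i k = m1 Z t i k := by
  unfold m1
  rw [← sum_add_distrib]
  refine sum_congr rfl fun j _ => ?_
  have h1 := Z_sq Z j
  have h2 := Z_sq Z (j + 1)
  linear_combination t j / 2 * (h2 - h1)

lemma n0_split (Z t : ℕ → ℝ) (i k : ℕ) : n0 (Zl Z) t i k + n0 (Zu Z) t i k = n0 Z t i k := by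
  unfold n0
  rw [← sum_add_distrib]
  refine sum_congr rfl fun j _ => ?_
  have h1 := Z_add Z j
  have h2 := Z_add Z (j + 1)
  linear_combination (t j) ^ 2 * (h2 - h1)

lemma n1_split (Z t : ℕ → ℝ) (i k : ℕ) : n1 (Zl Z) t i k + n1 (Zu Z) t i k = n1 Z t i k := by
  unfold n1
  rw [← sum_add_distrib]
  refine sum_congr rfl fun j _ => ?_
  have h1 := Z_sq Z j
  have h2 := Z_sq Z (j + 1)
  linear_combination (t j) ^ 2 / 2 * (h2 - h1)

lemma sq_half_le {y : ℝ} (h0 : 0 ≤ y) (h1 : y ≤ 1) : y ^ 2 / 2 ≤ 1 / 2 := by nlinarith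

lemma half_le_sq {y : ℝ} (h1 : 1 ≤ y) : 1 / 2 ≤ y ^ 2 / 2 := by nlinarith

lemma sq_half_mono {y z : ℝ} (h0 : 0 ≤ y) (h1 : y ≤ z) : y ^ 2 / 2 ≤ z ^ 2 / 2 := by nlinarith

/-- one chain: the split arcs of a state -/
lemma chain_chn {L τ : ℝ} (hτ : 0 < τ) (hτ1 : τ < 1) {a : ℕ} {y t : ℕ → ℝ}
    (hy : ChG (1 - τ) (1 + τ) a y) (hL : ∀ j, L ≤ t j) (hC : ∀ j, t j ≤ 2 / 3) {i : ℕ} (hi : i ≤ a) :
    ∃ x : ℝ, -1 ≤ x ∧ x ≤ 1 ∧ y i = 1 - τ * x ∧
      Chn L τ x (PI y t a) (m0 (Zl fun i => (y i) ^ 2 / 2) t 0 a)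
        (m1 (fun i => (y i) ^ 2 / 2) t 0 a - (1 + τ ^ 2) / 2 * PI y t a) (QI y t a)
        (n1 (fun i => (y i) ^ 2 / 2) t 0 a - (1 + τ ^ 2) / 2 * QI y t a)
        (n0 (Zu fun i => (y i) ^ 2 / 2) t 0 a - n0 (Zl fun i => (y i) ^ 2 / 2) t 0 a)
        (PI y t i) (QI y t i) := by
  have ylo : ∀ k, k ≤ a → 1 - τ ≤ y k := by
    intro k
    induction k with
    | zero => intro _; exact hy.y0.ge
    | succ k ih => intro hk; exact (ih (by omega)).trans (hy.inc k (by omega)).le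
  have yhi : y i ≤ 1 + τ := by
    have : ∀ k, i ≤ k → k ≤ a → y i ≤ y k := by
      intro k hk
      induction k, hk using Nat.le_induction with
      | base => intro _; exact le_rfl
      | succ k hk ih => intro h; exact (ih (by omega)).trans (hy.inc k (by omega)).le
    have h := this a hi le_rfl
    rwa [hy.ya] at h
  obtain ⟨Z, hZ⟩ : ∃ Z : ℕ → ℝ, Z = fun i => (y i) ^ 2 / 2 := ⟨_, rfl⟩
  have mono : ∀ j, j < a → Z j ≤ Z (j + 1) := by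
    intro j hj
    have h1 := hy.inc j hj
    have h2 := ylo j (by omega)
    have h3 : 0 < y j := by linarith
    rw [hZ]
    exact sq_half_mono h3.le h1.le
  have monol : ∀ j, j < a → Zl Z j ≤ Zl Z (j + 1) := fun j hj => min_le_min_right _ (mono j hj)
  have monou : ∀ j, j < a → Zu Z j ≤ Zu Z (j + 1) := fun j hj => max_le_max_right _ (mono j hj)
  obtain ⟨g1, h1, e1, f1, A1, p1, p2, p3, p4⟩ := arc_data (Zl Z) t L hL hC 0 i
    (Nat.zero_le _) (fun j _ hj => monol j (by omega))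
  obtain ⟨g2, h2, e2, f2, A2, q1, q2, q3, q4⟩ := arc_data (Zu Z) t L hL hC 0 i
    (Nat.zero_le _) (fun j _ hj => monou j (by omega))
  obtain ⟨g3, h3, e3, f3, A3, r1, r2, r3, r4⟩ := arc_data (Zl Z) t L hL hC i a
    hi (fun j _ hj => monol j hj)
  obtain ⟨g4, h4, e4, f4, A4, s1, s2, s3, s4⟩ := arc_data (Zu Z) t L hL hC i a
    hi (fun j _ hj => monou j hj)
  have al1 := m0_add (Zl Z) t hi
  have al2 := m1_add (Zl Z) t hi
  have al3 := n0_add (Zl Z) t hi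
  have al4 := n1_add (Zl Z) t hi
  have au1 := m0_add (Zu Z) t hi
  have au2 := m1_add (Zu Z) t hi
  have au3 := n0_add (Zu Z) t hi
  have au4 := n1_add (Zu Z) t hi
  have b1 := m0_split Z t 0 a
  have b2 := m1_split Z t 0 a
  have b3 := n0_split Z t 0 a
  have b4 := n1_split Z t 0 a
  have b5 := m0_split Z t 0 i
  have b6 := n0_split Z t 0 i
  have Z0 : Z 0 = (1 - τ) ^ 2 / 2 := by rw [hZ]; simp only; rw [hy.y0]
  have Za : Z a = (1 + τ) ^ 2 / 2 := by rw [hZ]; simp only; rw [hy.ya]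
  have Zl0 : Zl Z 0 = (1 - τ) ^ 2 / 2 := by
    unfold Zl; rw [Z0]; exact min_eq_left (sq_half_le (by linarith) (by linarith))
  have Zu0 : Zu Z 0 = 1 / 2 := by
    unfold Zu; rw [Z0]; exact max_eq_right (sq_half_le (by linarith) (by linarith))
  have Zla : Zl Z a = 1 / 2 := by
    unfold Zl; rw [Za]; exact min_eq_right (half_le_sq (by linarith))
  have Zua : Zu Z a = (1 + τ) ^ 2 / 2 := by
    unfold Zu; rw [Za]; exact max_eq_left (half_le_sq (by linarith))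
  have ePI : PI y t a = m0 Z t 0 a := by rw [hZ]; exact PI_m0 y t a
  have eQI : QI y t a = n0 Z t 0 a := by rw [hZ]; exact QI_n0 y t a
  have ePi : PI y t i = m0 Z t 0 i := by rw [hZ]; exact PI_m0 y t i
  have eQi : QI y t i = n0 Z t 0 i := by rw [hZ]; exact QI_n0 y t i
  obtain ⟨x, hx⟩ : ∃ x, x = (1 - y i) / τ := ⟨_, rfl⟩
  have hyx : y i = 1 - τ * x := by rw [hx]; field_simp; ring
  have Zi : Z i = (1 - τ * x) ^ 2 / 2 := by rw [hZ]; simp only; rw [hyx]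
  refine ⟨x, ?_, ?_, hyx, ?_⟩
  · rw [hx, le_div_iff₀ hτ]; linarith
  · rw [hx, div_le_iff₀ hτ]; have := ylo i hi; linarith
  rw [← hZ, ePI, eQI, ePi, eQi]
  rw [Zl0] at p1 p2 p3 p4
  rw [Zu0] at q1 q2 q3 q4
  rw [Zla] at r1 r2 r3 r4
  rw [Zua] at s1 s2 s3 s4
  rcases le_total 0 x with h0 | h0
  · left
    have hle : Z i ≤ 1 / 2 := by
      have h7 := mul_nonneg hτ.le h0
      have h5 : y i ≤ 1 := by rw [hyx]; linarith
      have h6 := ylo i hi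
      rw [hZ]
      exact sq_half_le (by linarith) h5
    have Zli : Zl Z i = (1 - τ * x) ^ 2 / 2 := by unfold Zl; rw [min_eq_left hle, Zi]
    have Zui : Zu Z i = 1 / 2 := by unfold Zu; exact max_eq_right hle
    rw [Zli] at p1 p2 p3 p4 r1 r2 r3 r4
    rw [Zui] at q1 q2 q3 q4 s1 s2 s3 s4
    refine ⟨h0, g1, h1, e1, f1, g3, h3, e3, f3, g4, h4, e4, f4, A1, A3, A4, ?_, ?_, ?_, ?_, ?_, ?_,
      ?_, ?_⟩
    · rw [← b5, p1, q1]; unfold dl; ring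
    · rw [← b6, p3, q3]; unfold dl; ring
    · rw [← al1, p1, r1]; unfold dl dm; ring
    · rw [← b1, ← al1, ← au1, p1, q1, r1, s1]; unfold dl dm du; ring
    · rw [← b3, ← al3, ← au3, p3, q3, r3, s3]; unfold dl dm du; ring
    · rw [← al3, ← au3, p3, q3, r3, s3]; unfold dl dm du; ring
    · rw [← b1, ← b2, ← al1, ← au1, ← al2, ← au2, p1, q1, r1, s1, p2, q2, r2, s2]
      unfold dl dm du; ring
    · rw [← b3, ← b4, ← al3, ← au3, ← al4, ← au4, p3, q3, r3, s3, p4, q4, r4, s4]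
      unfold dl dm du; ring
  · right
    have hle : 1 / 2 ≤ Z i := by
      have h7 := mul_nonneg hτ.le (neg_nonneg.mpr h0)
      have h5 : 1 ≤ y i := by rw [hyx]; linarith
      rw [hZ]
      exact half_le_sq h5
    have Zli : Zl Z i = 1 / 2 := by unfold Zl; exact min_eq_right hle
    have Zui : Zu Z i = (1 - τ * x) ^ 2 / 2 := by unfold Zu; rw [max_eq_left hle, Zi]
    rw [Zli] at p1 p2 p3 p4 r1 r2 r3 r4
    rw [Zui] at q1 q2 q3 q4 s1 s2 s3 s4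
    refine ⟨h0, g1, h1, e1, f1, g2, h2, e2, f2, g4, h4, e4, f4, A1, A2, A4, ?_, ?_, ?_, ?_, ?_, ?_,
      ?_, ?_⟩
    · rw [← b5, p1, q1]; unfold dl dm; ring
    · rw [← b6, p3, q3]; unfold dl dm; ring
    · rw [← al1, p1, r1]; unfold dl; ring
    · rw [← b1, ← al1, ← au1, p1, q1, r1, s1]; unfold dl dm du; ring
    · rw [← b3, ← al3, ← au3, p3, q3, r3, s3]; unfold dl dm du; ring
    · rw [← al3, ← au3, p3, q3, r3, s3]; unfold dl dm du; ring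
    · rw [← b1, ← b2, ← al1, ← au1, ← al2, ← au2, p1, q1, r1, s1, p2, q2, r2, s2]
      unfold dl dm du; ring
    · rw [← b3, ← b4, ← al3, ← au3, ← al4, ← au4, p3, q3, r3, s3, p4, q4, r4, s4]
      unfold dl dm du; ring

/-- the mean load is in `[L, 2/3]` -/
lemma mean_box {L B T : ℝ} (hB : 0 < B) (hBT : B < T) {a : ℕ} {y t : ℕ → ℝ} (hy : ChG B T a y)
    (htL : ∀ i, L ≤ t i) (htC : ∀ i, t i ≤ 2 / 3) :
    L ≤ 2 * PI y t a / (T ^ 2 - B ^ 2) ∧ 2 * PI y t a / (T ^ 2 - B ^ 2) ≤ 2 / 3 := by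
  have hD : 0 < T ^ 2 - B ^ 2 := by nlinarith
  have ylo : ∀ k, k ≤ a → B ≤ y k := by
    intro k
    induction k with
    | zero => intro _; exact hy.y0.ge
    | succ k ih => intro hk; exact (ih (by omega)).trans (hy.inc k (by omega)).le
  have key : ∀ k, k ≤ a → L * ((y k) ^ 2 - B ^ 2) ≤ 2 * PI y t k ∧
      2 * PI y t k ≤ 2 / 3 * ((y k) ^ 2 - B ^ 2) := by
    intro k
    induction k with
    | zero => intro _; simp [PI, hy.y0]
    | succ k ih =>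
      intro hk
      obtain ⟨h1, h2⟩ := ih (by omega)
      have e : PI y t (k + 1) = PI y t k + t k * ((y (k + 1)) ^ 2 - (y k) ^ 2) / 2 :=
        sum_range_succ _ _
      have h3 := hy.inc k (by omega)
      have h4 := ylo k (by omega)
      have h5 : 0 ≤ (y (k + 1)) ^ 2 - (y k) ^ 2 := by nlinarith
      have h6 := mul_le_mul_of_nonneg_right (htL k) h5
      have h7 := mul_le_mul_of_nonneg_right (htC k) h5
      rw [e]
      constructor <;> linarith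
  obtain ⟨h1, h2⟩ := key a le_rfl
  rw [hy.ya] at h1 h2
  exact ⟨by rw [le_div_iff₀ hD]; linarith, by rw [div_le_iff₀ hD]; linarith⟩

/-- **one pair of chains**: the multipliers of `Stmt_ONE` from the finite-dimensional statement at
`τ = (T - B)/(T + B)` and the mean load -/
theorem one_of_FIN6at {L B T : ℝ} {a b : ℕ} {y t z s : ℕ → ℝ} (hB : 0 < B) (hBT : B < T)
    (hy : ChG B T a y) (hz : ChG B T b z) (htL : ∀ i, L ≤ t i) (htC : ∀ i, t i ≤ 2 / 3)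
    (hsL : ∀ i, L ≤ s i) (hsC : ∀ i, s i ≤ 2 / 3) (hbal : PI y t a = PI z s b) (ka : ℝ)
    (k1 : L * B ^ 2 ≤ ka) (k2 : ka ≤ B * (B + T) / 3) (k3 : L * (T * (T + B) / 2) ≤ ka + PI y t a)
    (k4 : ka + PI y t a ≤ 2 / 3 * T ^ 2)
    (h : FIN6at L ((T - B) / (T + B)) (2 * PI y t a / (T ^ 2 - B ^ 2))) :
    ∃ lam mu om : ℝ, ∀ i, i ≤ a → ∀ j, j ≤ b →
      0 ≤ CC B T (QI y t a) (QI z s b) (PI y t a) ka lam mu om (y i) (QI y t i) (PI y t i)
        (z j) (QI z s j) (PI z s j) := by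
  have hT : 0 < T := hB.trans hBT
  obtain ⟨c, hc⟩ : ∃ c, c = (B + T) / 2 := ⟨_, rfl⟩
  obtain ⟨τ, hτ⟩ : ∃ τ, τ = (T - B) / (T + B) := ⟨_, rfl⟩
  have hc0 : 0 < c := by rw [hc]; linarith
  have hTB : 0 < T + B := by linarith
  have hτ0 : 0 < τ := by rw [hτ]; exact div_pos (by linarith) hTB
  have hτ1 : τ < 1 := by rw [hτ, div_lt_one hTB]; linarith
  have eB : B = c * (1 - τ) := by rw [hc, hτ]; field_simp; ring
  have eT : T = c * (1 + τ) := by rw [hc, hτ]; field_simp; ring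
  have hc' := hc0.ne'
  -- normalised chains
  obtain ⟨y', hy'⟩ : ∃ y' : ℕ → ℝ, y' = fun i => y i / c := ⟨_, rfl⟩
  obtain ⟨z', hz'⟩ : ∃ z' : ℕ → ℝ, z' = fun i => z i / c := ⟨_, rfl⟩
  have ey : y = fun i => c * y' i := by
    funext i; rw [hy']; field_simp
  have ez : z = fun i => c * z' i := by
    funext i; rw [hz']; field_simp
  have cy : ChG (1 - τ) (1 + τ) a y' := by
    refine ⟨hy.a0, ?_, ?_, ?_⟩
    · rw [hy']; simp only; rw [hy.y0, eB]; field_simp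
    · rw [hy']; simp only; rw [hy.ya, eT]; field_simp
    · intro i hi
      rw [hy']; simp only
      exact div_lt_div_of_pos_right (hy.inc i hi) hc0
  have cz : ChG (1 - τ) (1 + τ) b z' := by
    refine ⟨hz.a0, ?_, ?_, ?_⟩
    · rw [hz']; simp only; rw [hz.y0, eB]; field_simp
    · rw [hz']; simp only; rw [hz.ya, eT]; field_simp
    · intro i hi
      rw [hz']; simp only
      exact div_lt_div_of_pos_right (hz.inc i hi) hc0
  have hbal' : PI y' t a = PI z' s b := by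
    rw [ey, ez, PI_scale, PI_scale] at hbal
    exact mul_left_cancel₀ (by positivity) hbal
  obtain ⟨ka', hka'⟩ : ∃ ka', ka' = ka / c ^ 2 := ⟨_, rfl⟩
  have eka : ka = c ^ 2 * ka' := by rw [hka']; field_simp
  have ePI : PI y t a = c ^ 2 * PI y' t a := by
    conv_lhs => rw [ey]
    exact PI_scale c y' t a
  -- the global numbers
  have c2 : 0 < c ^ 2 := by positivity
  have hth : PI y' t a = 2 * τ * (2 * PI y t a / (T ^ 2 - B ^ 2)) := by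
    have h1 : T ^ 2 - B ^ 2 = 4 * τ * c ^ 2 := by rw [eB, eT]; ring
    rw [ePI, h1]; field_simp; ring
  rw [← hτ] at h
  obtain ⟨th, hthe⟩ : ∃ th, th = 2 * PI y t a / (T ^ 2 - B ^ 2) := ⟨_, rfl⟩
  rw [← hthe] at h hth
  have v1 : L * (1 - τ) ^ 2 ≤ ka' := by
    rw [eB, eka] at k1
    have : c ^ 2 * (L * (1 - τ) ^ 2) ≤ c ^ 2 * ka' := by linarith
    exact le_of_mul_le_mul_left this c2
  have v2 : ka' ≤ 2 / 3 * (1 - τ) := by
    rw [eB, eT, eka] at k2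
    have : c ^ 2 * ka' ≤ c ^ 2 * (2 / 3 * (1 - τ)) := by linarith
    exact le_of_mul_le_mul_left this c2
  have v3 : L * (1 + τ) ≤ ka' + PI y' t a := by
    rw [ePI, eB, eT, eka] at k3
    have : c ^ 2 * (L * (1 + τ)) ≤ c ^ 2 * (ka' + PI y' t a) := by linarith
    exact le_of_mul_le_mul_left this c2
  have v4 : ka' + PI y' t a ≤ 2 / 3 * (1 + τ) ^ 2 := by
    rw [ePI, eT, eka] at k4
    have : c ^ 2 * (ka' + PI y' t a) ≤ c ^ 2 * (2 / 3 * (1 + τ) ^ 2) := by linarith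
    exact le_of_mul_le_mul_left this c2
  rw [hth] at v3 v4
  obtain ⟨lam, mu, om, H⟩ := h ka'
    (m0 (Zl fun i => (y' i) ^ 2 / 2) t 0 a) (m0 (Zl fun i => (z' i) ^ 2 / 2) s 0 b)
    ((m1 (fun i => (y' i) ^ 2 / 2) t 0 a - (1 + τ ^ 2) / 2 * PI y' t a) +
      (m1 (fun i => (z' i) ^ 2 / 2) s 0 b - (1 + τ ^ 2) / 2 * PI z' s b))
    (QI y' t a + QI z' s b)
    ((n1 (fun i => (y' i) ^ 2 / 2) t 0 a - (1 + τ ^ 2) / 2 * QI y' t a) +
      (n1 (fun i => (z' i) ^ 2 / 2) s 0 b - (1 + τ ^ 2) / 2 * QI z' s b))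
    ((n0 (Zu fun i => (y' i) ^ 2 / 2) t 0 a - n0 (Zl fun i => (y' i) ^ 2 / 2) t 0 a) +
      (n0 (Zu fun i => (z' i) ^ 2 / 2) s 0 b - n0 (Zl fun i => (z' i) ^ 2 / 2) s 0 b))
    v1 v2 v3 v4
  refine ⟨c * lam, c ^ 2 * mu, c ^ 2 * om, fun i hi j hj => ?_⟩
  obtain ⟨x, x1, x2, x3, X⟩ := chain_chn hτ0 hτ1 cy htL htC hi
  obtain ⟨w, w1, w2, w3, X'⟩ := chain_chn hτ0 hτ1 cz hsL hsC hj
  rw [← hbal'] at X'
  rw [hth] at X X'
  have G := H x w x1 x2 w1 w2 _ _ _ _ _ _ _ _ _ _ _ _ X X' (by rw [← hbal', hth]) rfl rfl rfl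
  rw [← x3, ← w3] at G
  have hyi : y' i ≠ 0 := by
    rw [x3]
    have : τ * x ≤ τ * 1 := mul_le_mul_of_nonneg_left x2 hτ0.le
    have : 0 < 1 - τ * x := by linarith
    exact this.ne'
  have hzj : z' j ≠ 0 := by
    rw [w3]
    have : τ * w ≤ τ * 1 := mul_le_mul_of_nonneg_left w2 hτ0.le
    have : 0 < 1 - τ * w := by linarith
    exact this.ne'
  have sc := CC_scale c (1 - τ) (1 + τ) (QI y' t a) (QI z' s b) (PI y' t a) ka' lam mu om (y' i)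
    (QI y' t i) (PI y' t i) (z' j) (QI z' s j) (PI z' s j) hc' (by linarith) (by linarith) hyi hzj
  have G2 := mul_nonneg (by positivity : (0:ℝ) ≤ c ^ 3) G
  rw [← hth, ← sc] at G2
  rw [eka, eB, eT, ey, ez, PI_scale, PI_scale, PI_scale, QI_scale, QI_scale, QI_scale, QI_scale]
  exact G2

/-- **the one-dimensional statement from the refined finite-dimensional one** -/
theorem ONE_of_FIN6 {L R : ℝ} (h : Stmt_FIN6 L R) : Stmt_ONE L R := by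
  intro B T a b y t z s hB hBT hR hy hz htL htC hsL hsC hbal ka k1 k2 k3 k4
  have hTB : 0 < T + B := by linarith
  have hτ0 : 0 < (T - B) / (T + B) := div_pos (by linarith) hTB
  have hτ1 : (T - B) / (T + B) < 1 := by rw [div_lt_one hTB]; linarith
  have hr : R * (1 + (T - B) / (T + B)) ≤ 1 - (T - B) / (T + B) := by
    have e1 : 1 + (T - B) / (T + B) = 2 * T / (T + B) := by field_simp; ring
    have e2 : 1 - (T - B) / (T + B) = 2 * B / (T + B) := by field_simp; ring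
    rw [e1, e2, ← mul_div_assoc]
    exact div_le_div_of_nonneg_right (by linarith) hTB.le
  obtain ⟨m1, m2⟩ := mean_box hB hBT hy htL htC
  refine one_of_FIN6at hB hBT hy hz htL htC hsL hsC hbal ka k1 k2 k3 k4 ?_
  intro ka' FR FL M E0 E1 Es w1 w2 w3 w4
  refine h _ hτ0 hτ1 hr (2 * ((T - B) / (T + B)) * (2 * PI y t a / (T ^ 2 - B ^ 2))) ka' FR FL M E0
    E1 Es ?_ ?_ w1 w2 w3 w4
  · have := mul_le_mul_of_nonneg_left m1 (by linarith : 0 ≤ 2 * ((T - B) / (T + B)))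
    linarith
  · have := mul_le_mul_of_nonneg_left m2 (by linarith : 0 ≤ 2 * ((T - B) / (T + B)))
    linarith

end Pool.G1.Gap
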