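import Pool.Agent.Work.MP_b5407d_g1.Pl_FIN6

/-!
# G1, balanced case: from `Stmt_FIN6 0 0` to an explicit quadratic form (`Stmt_CERT`)

Normalised variables: `β = Pi / (2 τ)`, `V = ka + Pi / 2`, lengths `N1, N2, N3` (bottom, middle, top
subarc of a chain, sum 2), `k2 = 1` if the middle subarc is below the state and `0` otherwise.
-/

set_option autoImplicit false

namespace Pool.G1.Gap

/-- coefficients of the multipliers: `λ = λ_f + 2 τ LH`, `μ = μ_f - 4 τ MH` -/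
structure Cf where
  em : ℝ
  e1 : ℝ
  eb : ℝ
  eV : ℝ
  er : ℝ
  c11 : ℝ
  c1b : ℝ
  cbb : ℝ
  c1m : ℝ
  cbm : ℝ
  cmm : ℝ
  c1V : ℝ
  cbV : ℝ
  cmV : ℝ
  cVV : ℝ
  c1r : ℝ
  cbr : ℝ
  crr : ℝ
  cmr : ℝ
  cVr : ℝ
  cE0 : ℝ
  cE1 : ℝ

/-- the coefficient of the closure `e` -/
noncomputable def LH (C : Cf) (β V m r : ℝ) : ℝ :=
  C.em * m + C.e1 + C.eb * β + C.eV * V + C.er * r

/-- the coefficient of the closure `c` (without the energies) -/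
noncomputable def MH (C : Cf) (τ β V m r : ℝ) : ℝ :=
  C.c11 + C.c1b * β + C.cbb * β ^ 2 + C.c1m * m + C.cbm * β * m + C.cmm * m ^ 2 + C.c1V * V +
    C.cbV * β * V + C.cmV * m * V + C.cVV * V ^ 2 + C.c1r * r + C.cbr * β * r + C.crr * r ^ 2 +
    C.cmr * m * r + C.cVr * V * r - C.cE0 * β ^ 2 / 2 + C.cE1 * (τ * β ^ 2 / 4 - β * r)

/-- the part of the form which comes from the potential, `p`, `q` = half of (flux below the state minus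
its value for the constant load `β`) -/
noncomputable def PHI (τ a b β V p q : ℝ) : ℝ :=
  (2 - a ^ 2 - b ^ 2) / 8 - (2 - a ^ 2 - b ^ 2) * β / 2 -
    τ * (a * (1 - a ^ 2) + b * (1 - b ^ 2)) / 24 - (a * p + b * q) -
    τ / 3 * (p + q) * (1 + 2 * β) + τ / 6 * (a + b) * β ^ 2 -
    2 / (1 - τ * a) * (p + a * (V - β) / 2) ^ 2 - 2 / (1 - τ * b) * (q + b * (V - β) / 2) ^ 2 +
    (V - β) ^ 2 * (2 + τ * (a + b)) / (2 * (1 - τ ^ 2))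

noncomputable def kf (τ β V : ℝ) : ℝ := V - τ * β - β * (1 - τ) ^ 2 / 2

noncomputable def lamf (τ β V : ℝ) : ℝ := 4 * kf τ β V - 2 * (1 + τ ^ 2 / 3) * (1 - β)

noncomputable def muf (τ β V : ℝ) : ℝ :=
  -2 * (kf τ β V) ^ 2 / (1 - τ ^ 2) - 2 * kf τ β V * (1 + β) +
    1 / 2 * (1 + τ ^ 2 / 3) * (1 - β) ^ 2 - (1 + τ ^ 2) * β ^ 2

/-- **the exact identity** -/
theorem CC_eqF {τ a b : ℝ} (h1 : 1 - τ ≠ 0) (h2 : 1 + τ ≠ 0) (ha : 1 - τ * a ≠ 0) (hb : 1 - τ * b ≠ 0)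
    (β V l m p q Ea Eb ER EL : ℝ) :
    CC (1 - τ) (1 + τ) (τ * ER) (τ * EL) (2 * τ * β) (V - τ * β) (lamf τ β V + 2 * τ * l)
      (muf τ β V - 4 * τ * m) 0 (1 - τ * a) (τ * Ea) (τ * ((1 - a) * β + 2 * p)) (1 - τ * b) (τ * Eb)
      (τ * ((1 - b) * β + 2 * q)) =
    4 * τ ^ 2 * (((2 + (a - b)) * (Ea + EL - Eb) + (2 - (a - b)) * (ER - Ea + Eb)) / 8 +
      PHI τ a b β V p q + l * (p + q - (a + b) * β / 2) + m * (a + b)) := by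
  have h3 : 1 - τ ^ 2 = (1 - τ) * (1 + τ) := by ring
  unfold CC Th lamf muf kf PHI
  rw [h3]
  field_simp
  ring

/-- geometry of a chain at the state `a` -/
def Geo (τ a N1 N2 N3 k2 : ℝ) : Prop :=
  (0 ≤ a ∧ N1 = (1 - a) * (1 - τ * (1 + a) / 2) ∧ N2 = a * (1 - τ * a / 2) ∧ N3 = 1 + τ / 2 ∧
    k2 = 0) ∨
  (a ≤ 0 ∧ N1 = 1 - τ / 2 ∧ N2 = -(a * (1 - τ * a / 2)) ∧ N3 = (1 + a) * (1 + τ * (1 - a) / 2) ∧
    k2 = 1)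

/-- `(1/4) ∫ ζ θ dζ` of one chain -/
noncomputable def mC (N1 N2 N3 g1 g2 g3 h1 h2 h3 : ℝ) : ℝ :=
  (N1 * ((-1 + N1 / 2) * g1 + N1 / 2 * h1) + N2 * ((-1 + N1 + N2 / 2) * g2 + N2 / 2 * h2) +
    N3 * ((1 - N3 / 2) * g3 + N3 / 2 * h3)) / 4

/-- `(1/4) ∫ sgn (y - 1) θ dζ` of one chain -/
noncomputable def rC (N1 N2 N3 k2 g1 g2 g3 : ℝ) : ℝ :=
  (-(N1 * g1) + (2 * k2 - 1) * (N2 * g2) + N3 * g3) / 4

/-- arc data after normalisation -/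
structure ArcB (g h e : ℝ) : Prop where
  lo : g ^ 2 + 3 * h ^ 2 ≤ e
  hi : e ≤ 2 / 3 * g

lemma ArcN.b {g h e f : ℝ} (A : ArcN 0 g h e f) : ArcB g h e := by
  refine ⟨?_, ?_⟩
  · have := A.en 1 1 g (3 * h) one_pos one_pos
    nlinarith
  · have := A.box0
    linarith

lemma ArcB.up {g h e w t : ℝ} (A : ArcB g h e) (ht : 0 ≤ t) (hW : 0 ≤ w + t) :
    (w + t) * (g ^ 2 + 3 * h ^ 2) - 2 / 3 * t * g ≤ w * e := by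
  have h1 := mul_le_mul_of_nonneg_left A.lo hW
  have h2 := mul_le_mul_of_nonneg_left A.hi ht
  linarith

lemma Chn.norm {τ a Pi F M E0 E1 Es p q : ℝ}
    (H : Chn 0 τ a Pi F M E0 E1 Es p q) :
    ∃ N1 N2 N3 k2 g1 g2 g3 h1 h2 h3 e1 e2 e3 : ℝ, Geo τ a N1 N2 N3 k2 ∧
      ArcB g1 h1 e1 ∧ ArcB g2 h2 e2 ∧ ArcB g3 h3 e3 ∧
      p = τ * (N1 * g1 + k2 * (N2 * g2)) ∧ q = τ * (N1 * e1 + k2 * (N2 * e2)) ∧
      Pi = τ * (N1 * g1 + N2 * g2 + N3 * g3) ∧ E0 = τ * (N1 * e1 + N2 * e2 + N3 * e3) ∧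
      Es = τ * (-(N1 * e1) + (2 * k2 - 1) * (N2 * e2) + N3 * e3) ∧
      Pi - 2 * F = 4 * τ * rC N1 N2 N3 k2 g1 g2 g3 ∧
      M = 4 * τ ^ 2 * mC N1 N2 N3 g1 g2 g3 h1 h2 h3 := by
  rcases H with ⟨ha, g1, h1, e1, f1, g3, h3, e3, f3, g4, h4, e4, f4, A1, A3, A4, hp, hq, hF, hPi, hE0,
    hEs, hM, -⟩ | ⟨ha, g1, h1, e1, f1, g2, h2, e2, f2, g4, h4, e4, f4, A1, A2, A4, hp, hq, hF, hPi, hE0,
    hEs, hM, -⟩
  · refine ⟨(1 - a) * (1 - τ * (1 + a) / 2), a * (1 - τ * a / 2), 1 + τ / 2, 0, g1, g3, g4, h1, h3, h4,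
      e1, e3, e4, Or.inl ⟨ha, rfl, rfl, rfl, rfl⟩, A1.b, A3.b, A4.b, ?_, ?_, ?_, ?_, ?_, ?_, ?_⟩
    · rw [hp]; unfold dl; ring
    · rw [hq]; unfold dl; ring
    · rw [hPi]; unfold dl dm du; ring
    · rw [hE0]; unfold dl dm du; ring
    · rw [hEs]; unfold dl dm du; ring
    · rw [hPi, hF]; unfold dl dm du rC; ring
    · rw [hM]; unfold dl dm du mC; ring
  · refine ⟨1 - τ / 2, -(a * (1 - τ * a / 2)), (1 + a) * (1 + τ * (1 - a) / 2), 1, g1, g2, g4, h1, h2,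
      h4, e1, e2, e4, Or.inr ⟨ha, rfl, rfl, rfl, rfl⟩, A1.b, A2.b, A4.b, ?_, ?_, ?_, ?_, ?_, ?_, ?_⟩
    · rw [hp]; unfold dl dm; ring
    · rw [hq]; unfold dl dm; ring
    · rw [hPi]; unfold dl dm du; ring
    · rw [hE0]; unfold dl dm du; ring
    · rw [hEs]; unfold dl dm du; ring
    · rw [hPi, hF]; unfold dl dm du rC; ring
    · rw [hM]; unfold dl dm du mC; ring

lemma Geo.nonneg {τ a N1 N2 N3 k2 : ℝ} (h0 : 0 < τ) (h1 : τ < 1) (ha : -1 ≤ a) (hb : a ≤ 1)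
    (H : Geo τ a N1 N2 N3 k2) : 0 ≤ N1 ∧ 0 ≤ N2 ∧ 0 ≤ N3 := by
  rcases H with ⟨h, rfl, rfl, rfl, -⟩ | ⟨h, rfl, rfl, rfl, -⟩
  · refine ⟨mul_nonneg (by linarith) ?_, mul_nonneg h ?_, by linarith⟩
    · nlinarith
    · nlinarith
  · refine ⟨by linarith, ?_, mul_nonneg (by linarith) ?_⟩
    · rw [neg_nonneg]
      exact mul_nonpos_of_nonpos_of_nonneg h (by nlinarith)
    · nlinarith

/-- **the explicit form** (`t` = local multipliers of the six subarcs, `tb` of the `β` cell, `tV` of the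
box of `V`) -/
noncomputable def FQ (C : Cf) (τ a b b0 b1 N1 N2 N3 k2 N1' N2' N3' k2' t1 t2 t3 t1' t2' t3' tb tV : ℝ)
    (β V g1 g2 g3 h1 h2 h3 g1' g2' g3' h1' h2' h3' : ℝ) : ℝ :=
  ((2 + (a - b)) / 8 + (a + b) * (C.cE0 - C.cE1) / 8 + t1) * N1 * (g1 ^ 2 + 3 * h1 ^ 2) +
  ((2 - (a - b) + 2 * (a - b) * k2) / 8 + (a + b) * (C.cE0 + (2 * k2 - 1) * C.cE1) / 8 + t2) * N2 *
    (g2 ^ 2 + 3 * h2 ^ 2) +
  ((2 - (a - b)) / 8 + (a + b) * (C.cE0 + C.cE1) / 8 + t3) * N3 * (g3 ^ 2 + 3 * h3 ^ 2) +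
  ((2 - (a - b)) / 8 + (a + b) * (C.cE0 - C.cE1) / 8 + t1') * N1' * (g1' ^ 2 + 3 * h1' ^ 2) +
  ((2 + (a - b) - 2 * (a - b) * k2') / 8 + (a + b) * (C.cE0 + (2 * k2' - 1) * C.cE1) / 8 + t2') *
    N2' * (g2' ^ 2 + 3 * h2' ^ 2) +
  ((2 + (a - b)) / 8 + (a + b) * (C.cE0 + C.cE1) / 8 + t3') * N3' * (g3' ^ 2 + 3 * h3' ^ 2) -
  2 / 3 * (t1 * N1 * g1 + t2 * N2 * g2 + t3 * N3 * g3 + t1' * N1' * g1' + t2' * N2' * g2' +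
    t3' * N3' * g3') +
  PHI τ a b β V ((N1 * g1 + k2 * (N2 * g2) - (1 - a) * β) / 2)
    ((N1' * g1' + k2' * (N2' * g2') - (1 - b) * β) / 2) +
  LH C β V (mC N1 N2 N3 g1 g2 g3 h1 h2 h3 + mC N1' N2' N3' g1' g2' g3' h1' h2' h3')
    (rC N1 N2 N3 k2 g1 g2 g3 + rC N1' N2' N3' k2' g1' g2' g3') *
    ((N1 * g1 + k2 * (N2 * g2) - (1 - a) * β) / 2 +
      (N1' * g1' + k2' * (N2' * g2') - (1 - b) * β) / 2 - (a + b) * β / 2) +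
  (a + b) * MH C τ β V (mC N1 N2 N3 g1 g2 g3 h1 h2 h3 + mC N1' N2' N3' g1' g2' g3' h1' h2' h3')
    (rC N1 N2 N3 k2 g1 g2 g3 + rC N1' N2' N3' k2' g1' g2' g3') -
  tb * ((β - b0) * (b1 - β)) - tV * (V * (2 / 3 - V))

/-- **the certificate statement at one `(τ, β)`** -/
def CERTat (τ β : ℝ) : Prop :=
  ∃ (C : Cf) (b0 b1 : ℝ), b0 ≤ β ∧ β ≤ b1 ∧
    ∀ a b : ℝ, -1 ≤ b → b ≤ a → a ≤ 1 → ∀ N1 N2 N3 k2 N1' N2' N3' k2' : ℝ,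
    Geo τ a N1 N2 N3 k2 → Geo τ b N1' N2' N3' k2' →
    ∃ t1 t2 t3 t1' t2' t3' tb tV : ℝ, 0 ≤ t1 ∧ 0 ≤ t2 ∧ 0 ≤ t3 ∧ 0 ≤ t1' ∧ 0 ≤ t2' ∧ 0 ≤ t3' ∧
      0 ≤ tb ∧ 0 ≤ tV ∧
      0 ≤ (2 + (a - b)) / 8 + (a + b) * (C.cE0 - C.cE1) / 8 + t1 ∧
      0 ≤ (2 - (a - b) + 2 * (a - b) * k2) / 8 + (a + b) * (C.cE0 + (2 * k2 - 1) * C.cE1) / 8 + t2 ∧
      0 ≤ (2 - (a - b)) / 8 + (a + b) * (C.cE0 + C.cE1) / 8 + t3 ∧
      0 ≤ (2 - (a - b)) / 8 + (a + b) * (C.cE0 - C.cE1) / 8 + t1' ∧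
      0 ≤ (2 + (a - b) - 2 * (a - b) * k2') / 8 + (a + b) * (C.cE0 + (2 * k2' - 1) * C.cE1) / 8 +
        t2' ∧
      0 ≤ (2 + (a - b)) / 8 + (a + b) * (C.cE0 + C.cE1) / 8 + t3' ∧
      ∀ V g1 g2 g3 h1 h2 h3 g1' g2' g3' h1' h2' h3' : ℝ,
        N1 * g1 + N2 * g2 + N3 * g3 = 2 * β → N1' * g1' + N2' * g2' + N3' * g3' = 2 * β →
        0 ≤ FQ C τ a b b0 b1 N1 N2 N3 k2 N1' N2' N3' k2' t1 t2 t3 t1' t2' t3' tb tV β V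
          g1 g2 g3 h1 h2 h3 g1' g2' g3' h1' h2' h3'

/-- **the certificate statement** -/
def Stmt_CERT : Prop :=
  ∀ τ : ℝ, 0 < τ → τ < 1 → ∀ β : ℝ, 0 ≤ β → β ≤ 2 / 3 → CERTat τ β

lemma CC_swap (B T QR QL Pi ka lam mu om al qa pa be qb pb : ℝ) :
    CC B T QR QL Pi ka lam mu om al qa pa be qb pb = CC B T QL QR Pi ka lam mu om be qb pb al qa pa := by
  unfold CC
  ring

/-- one pair of states, `b ≤ a` -/
lemma FIN6_aux {τ : ℝ} (hτ0 : 0 < τ) (hτ1 : τ < 1) {C : Cf} {β b0 b1 V : ℝ} (hb0 : b0 ≤ β)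
    (hb1 : β ≤ b1) (hV0 : 0 ≤ V) (hV1 : V ≤ 2 / 3)
    (hC : ∀ a b : ℝ, -1 ≤ b → b ≤ a → a ≤ 1 → ∀ N1 N2 N3 k2 N1' N2' N3' k2' : ℝ,
    Geo τ a N1 N2 N3 k2 → Geo τ b N1' N2' N3' k2' →
    ∃ t1 t2 t3 t1' t2' t3' tb tV : ℝ, 0 ≤ t1 ∧ 0 ≤ t2 ∧ 0 ≤ t3 ∧ 0 ≤ t1' ∧ 0 ≤ t2' ∧ 0 ≤ t3' ∧
      0 ≤ tb ∧ 0 ≤ tV ∧
      0 ≤ (2 + (a - b)) / 8 + (a + b) * (C.cE0 - C.cE1) / 8 + t1 ∧
      0 ≤ (2 - (a - b) + 2 * (a - b) * k2) / 8 + (a + b) * (C.cE0 + (2 * k2 - 1) * C.cE1) / 8 + t2 ∧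
      0 ≤ (2 - (a - b)) / 8 + (a + b) * (C.cE0 + C.cE1) / 8 + t3 ∧
      0 ≤ (2 - (a - b)) / 8 + (a + b) * (C.cE0 - C.cE1) / 8 + t1' ∧
      0 ≤ (2 + (a - b) - 2 * (a - b) * k2') / 8 + (a + b) * (C.cE0 + (2 * k2' - 1) * C.cE1) / 8 +
        t2' ∧
      0 ≤ (2 + (a - b)) / 8 + (a + b) * (C.cE0 + C.cE1) / 8 + t3' ∧
      ∀ V g1 g2 g3 h1 h2 h3 g1' g2' g3' h1' h2' h3' : ℝ,
        N1 * g1 + N2 * g2 + N3 * g3 = 2 * β → N1' * g1' + N2' * g2' + N3' * g3' = 2 * β →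
        0 ≤ FQ C τ a b b0 b1 N1 N2 N3 k2 N1' N2' N3' k2' t1 t2 t3 t1' t2' t3' tb tV β V
          g1 g2 g3 h1 h2 h3 g1' g2' g3' h1' h2' h3')
    {Pi ka FR FL M E0 Es : ℝ} (hPi : Pi = 2 * τ * β) (hka : ka = V - τ * β) {a b : ℝ} (a1 : a ≤ 1)
    (b1' : -1 ≤ b) (hab : b ≤ a) {MR E0R E1R EsR p q ML E0L E1L EsL p' q' : ℝ}
    (cR : Chn 0 τ a Pi FR MR E0R E1R EsR p q) (cL : Chn 0 τ b Pi FL ML E0L E1L EsL p' q')
    (eM : M = MR + ML) (eE0 : E0 = E0R + E0L) (eEs : Es = EsR + EsL) :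
    0 ≤ CC (1 - τ) (1 + τ) E0R E0L Pi ka
      (lamf τ β V + 2 * τ * LH C β V (M / (4 * τ ^ 2)) ((Pi - FR - FL) / (2 * τ)))
      (muf τ β V - 4 * τ * (MH C τ β V (M / (4 * τ ^ 2)) ((Pi - FR - FL) / (2 * τ)) +
        C.cE0 * (E0 / τ) / 8 + C.cE1 * (Es / τ) / 8)) 0 (1 - τ * a) q p (1 - τ * b) q' p' := by
  have hτ' := hτ0.ne'
  obtain ⟨N1, N2, N3, k2, g1, g2, g3, h1, h2, h3, e1, e2, e3, G, A1, A2, A3, u1, u2, u3, u4, u5, u6,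
    u7⟩ := cR.norm
  obtain ⟨N1', N2', N3', k2', g1', g2', g3', h1', h2', h3', e1', e2', e3', G', A1', A2', A3', v1, v2,
    v3, v4, v5, v6, v7⟩ := cL.norm
  obtain ⟨n1, n2, n3⟩ := G.nonneg hτ0 hτ1 (b1'.trans hab) a1
  obtain ⟨n1', n2', n3'⟩ := G'.nonneg hτ0 hτ1 b1' (hab.trans a1)
  obtain ⟨t1, t2, t3, t1', t2', t3', tb, tV, p1, p2, p3, p1', p2', p3', pb, pV, w1, w2, w3, w1', w2',
    w3', H⟩ := hC a b b1' hab a1 N1 N2 N3 k2 N1' N2' N3' k2' G G'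
  have s1 : N1 * g1 + N2 * g2 + N3 * g3 = 2 * β := by
    have : τ * (N1 * g1 + N2 * g2 + N3 * g3) = τ * (2 * β) := by rw [← u3, hPi]; ring
    exact mul_left_cancel₀ hτ' this
  have s2 : N1' * g1' + N2' * g2' + N3' * g3' = 2 * β := by
    have : τ * (N1' * g1' + N2' * g2' + N3' * g3') = τ * (2 * β) := by rw [← v3, hPi]; ring
    exact mul_left_cancel₀ hτ' this
  have H1 := H V g1 g2 g3 h1 h2 h3 g1' g2' g3' h1' h2' h3' s1 s2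
  -- the moments
  obtain ⟨m, hm⟩ : ∃ m, m = mC N1 N2 N3 g1 g2 g3 h1 h2 h3 + mC N1' N2' N3' g1' g2' g3' h1' h2' h3' :=
    ⟨_, rfl⟩
  obtain ⟨r, hr⟩ : ∃ r, r = rC N1 N2 N3 k2 g1 g2 g3 + rC N1' N2' N3' k2' g1' g2' g3' := ⟨_, rfl⟩
  have em : M / (4 * τ ^ 2) = m := by
    rw [eM, u7, v7, hm]; field_simp
  have er : (Pi - FR - FL) / (2 * τ) = r := by
    rw [hr, div_eq_iff (by positivity)]
    linear_combination (u6 + v6) / 2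
  have e0 : E0 / τ = (N1 * e1 + N2 * e2 + N3 * e3) + (N1' * e1' + N2' * e2' + N3' * e3') := by
    rw [eE0, u4, v4]; field_simp
  have e5 : Es / τ = (-(N1 * e1) + (2 * k2 - 1) * (N2 * e2) + N3 * e3) +
      (-(N1' * e1') + (2 * k2' - 1) * (N2' * e2') + N3' * e3') := by
    rw [eEs, u5, v5]; field_simp
  rw [em, er, e0, e5]
  have ya : 0 < 1 - τ * a := by nlinarith
  have yb : 0 < 1 - τ * b := by nlinarith
  have key := CC_eqF (τ := τ) (a := a) (b := b) (by linarith) (by linarith) ya.ne' yb.ne' β V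
    (LH C β V m r)
    (MH C τ β V m r + C.cE0 * ((N1 * e1 + N2 * e2 + N3 * e3) + (N1' * e1' + N2' * e2' + N3' * e3')) / 8 +
      C.cE1 * ((-(N1 * e1) + (2 * k2 - 1) * (N2 * e2) + N3 * e3) +
      (-(N1' * e1') + (2 * k2' - 1) * (N2' * e2') + N3' * e3')) / 8)
    ((N1 * g1 + k2 * (N2 * g2) - (1 - a) * β) / 2) ((N1' * g1' + k2' * (N2' * g2') - (1 - b) * β) / 2)
    (N1 * e1 + k2 * (N2 * e2)) (N1' * e1' + k2' * (N2' * e2')) (N1 * e1 + N2 * e2 + N3 * e3)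
    (N1' * e1' + N2' * e2' + N3' * e3')
  have x1 : (1 - a) * β + 2 * ((N1 * g1 + k2 * (N2 * g2) - (1 - a) * β) / 2) =
      N1 * g1 + k2 * (N2 * g2) := by ring
  have x2 : (1 - b) * β + 2 * ((N1' * g1' + k2' * (N2' * g2') - (1 - b) * β) / 2) =
      N1' * g1' + k2' * (N2' * g2') := by ring
  rw [x1, x2, ← u1, ← u2, ← u4, ← v1, ← v2, ← v4, ← hPi, ← hka] at key
  rw [key]
  refine mul_nonneg (by positivity) ?_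
  -- compare with the form
  have q1 := mul_le_mul_of_nonneg_left (A1.up p1 w1) n1
  have q2 := mul_le_mul_of_nonneg_left (A2.up p2 w2) n2
  have q3 := mul_le_mul_of_nonneg_left (A3.up p3 w3) n3
  have q1' := mul_le_mul_of_nonneg_left (A1'.up p1' w1') n1'
  have q2' := mul_le_mul_of_nonneg_left (A2'.up p2' w2') n2'
  have q3' := mul_le_mul_of_nonneg_left (A3'.up p3' w3') n3'
  have q4 : 0 ≤ tb * ((β - b0) * (b1 - β)) :=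
    mul_nonneg pb (mul_nonneg (by linarith) (by linarith))
  have q5 : 0 ≤ tV * (V * (2 / 3 - V)) := mul_nonneg pV (mul_nonneg hV0 (by linarith))
  unfold FQ at H1
  rw [← hm, ← hr] at H1
  linarith

theorem FIN6at_of_CERTat {τ β : ℝ} (hτ0 : 0 < τ) (hτ1 : τ < 1) (hβ0 : 0 ≤ β)
    (hβ1 : β ≤ 2 / 3) (h : CERTat τ β) : FIN6at 0 τ β := by
  intro ka FR FL M E0 E1 Es hk0 hk1 hk2 hk3
  have hτ' := hτ0.ne'
  obtain ⟨V, hV⟩ : ∃ V, V = ka + τ * β := ⟨_, rfl⟩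
  have hka : ka = V - τ * β := by rw [hV]; ring
  have hV0 : 0 ≤ V := by
    rw [hV]
    have : 0 ≤ τ * β := mul_nonneg hτ0.le hβ0
    nlinarith
  have hV1 : V ≤ 2 / 3 := by
    rw [hV]
    have : τ * β ≤ τ * (2 / 3) := mul_le_mul_of_nonneg_left hβ1 hτ0.le
    linarith
  obtain ⟨C, b0, b1, hb0, hb1, hC⟩ := h
  refine ⟨lamf τ β V + 2 * τ * LH C β V (M / (4 * τ ^ 2)) ((2 * τ * β - FR - FL) / (2 * τ)),
    muf τ β V - 4 * τ * (MH C τ β V (M / (4 * τ ^ 2)) ((2 * τ * β - FR - FL) / (2 * τ)) +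
        C.cE0 * (E0 / τ) / 8 + C.cE1 * (Es / τ) / 8), 0,
    fun a b a0 a1 b0' b1' MR E0R E1R EsR p q ML E0L E1L EsL p' q' cR cL eM eE0 _ eEs => ?_⟩
  rcases le_total b a with hab | hab
  · exact FIN6_aux hτ0 hτ1 hb0 hb1 hV0 hV1 hC rfl hka a1 b0' hab cR cL eM eE0 eEs
  · rw [CC_swap]
    have := FIN6_aux (FR := FL) (FL := FR) hτ0 hτ1 hb0 hb1 hV0 hV1 hC rfl hka b1' a0 hab cL cR
      (eM.trans (add_comm _ _)) (eE0.trans (add_comm _ _)) (eEs.trans (add_comm _ _))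
    rw [show 2 * τ * β - FL - FR = 2 * τ * β - FR - FL by ring] at this
    exact this

theorem FIN6_of_CERT (h : Stmt_CERT) : Stmt_FIN6 0 0 := by
  intro τ hτ0 hτ1 _ Pi ka FR FL M E0 E1 Es hPi0 hPi1 hk0 hk1 hk2 hk3
  have hβ1 : Pi / (2 * τ) ≤ 2 / 3 := by
    rw [div_le_iff₀ (by linarith)]; exact hPi1
  have hβ0 : 0 ≤ Pi / (2 * τ) := div_nonneg (by linarith) (by linarith)
  have H := FIN6at_of_CERTat hτ0 hτ1 hβ0 hβ1 (h τ hτ0 hτ1 _ hβ0 hβ1)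
  have e : 2 * τ * (Pi / (2 * τ)) = Pi := by field_simp
  unfold FIN6at at H
  rw [e] at H
  exact H ka FR FL M E0 E1 Es hk0 hk1 hk2 hk3

end Pool.G1.Gap
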