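import Pool.Agent.Work.MP_b5407d_g1.Pl_FORM

/-!
# G1, balanced case: the polynomial form with seven multipliers (`Stmt_CERT7 → Stmt_CERT`)

Lengths `l1, l2, l3` (in heights `1 + τ z`), mean heights `y1, y2, y3` of the bottom, middle, top subarc
of a chain (split at the state and at mid height), `κ = mean load * mean height`.  Multipliers
`λ = em m + er r`, `μ = (c1m + cbm β) m + (c1r + cbr β) r + cE1 E1`.  Everything is polynomial: the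
factors `1 / y` of squares are replaced by their tangents `(2 c - y) / c ^ 2`.
-/

set_option autoImplicit false

namespace Pool.G1.Gap

/-- geometry of a chain at the state `a` -/
def GK (τ a l1 l2 l3 y1 y2 y3 k2 : ℝ) : Prop :=
  (0 ≤ a ∧ l1 = 1 - a ∧ l2 = a ∧ l3 = 1 ∧ y1 = 1 - τ * (1 + a) / 2 ∧ y2 = 1 - τ * a / 2 ∧
    y3 = 1 + τ / 2 ∧ k2 = 0) ∨
  (a ≤ 0 ∧ l1 = 1 ∧ l2 = -a ∧ l3 = 1 + a ∧ y1 = 1 - τ / 2 ∧ y2 = 1 - τ * a / 2 ∧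
    y3 = 1 + τ * (1 - a) / 2 ∧ k2 = 1)

/-- `κ` of the bottom subarc -/
noncomputable def ka1 (a k2 β P δ : ℝ) : ℝ := β + 2 * (1 + a) * P + k2 * a * δ
/-- `κ` of the middle subarc -/
noncomputable def ka2 (a k2 β P δ : ℝ) : ℝ := β + (4 * k2 - 2 * (1 - a)) * P + δ
/-- `κ` of the top subarc -/
noncomputable def ka3 (a k2 β P δ : ℝ) : ℝ := β - 2 * (1 - a) * P - (1 - k2) * a * δ

/-- `(1/4) ∫ ζ θ dζ` of one chain -/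
noncomputable def mK (a l1 l2 l3 y1 y2 y3 k2 β P δ h1 h2 h3 : ℝ) : ℝ :=
  (l1 * ((-1 + l1 * y1 / 2) * ka1 a k2 β P δ + l1 * y1 ^ 2 * h1 / 2) +
    l2 * ((-1 + l1 * y1 + l2 * y2 / 2) * ka2 a k2 β P δ + l2 * y2 ^ 2 * h2 / 2) +
    l3 * ((1 - l3 * y3 / 2) * ka3 a k2 β P δ + l3 * y3 ^ 2 * h3 / 2)) / 4

/-- `(1/4) ∫ sgn (y - 1) θ dζ` of one chain -/
noncomputable def rK (a l1 l2 l3 k2 β P δ : ℝ) : ℝ :=
  (-(l1 * ka1 a k2 β P δ) + (2 * k2 - 1) * (l2 * ka2 a k2 β P δ) + l3 * ka3 a k2 β P δ) / 4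

/-- energy of one chain: `W` = weights (with local multipliers), `c` = tangent points of `1 / y` -/
noncomputable def EK (a l1 l2 l3 y1 y2 y3 k2 W1 W2 W3 c1 c2 c3 β P δ h1 h2 h3 : ℝ) : ℝ :=
  W1 * l1 * ((2 * c1 - y1) / c1 ^ 2 * ka1 a k2 β P δ ^ 2 + 3 * y1 * h1 ^ 2) +
  W2 * l2 * ((2 * c2 - y2) / c2 ^ 2 * ka2 a k2 β P δ ^ 2 + 3 * y2 * h2 ^ 2) +
  W3 * l3 * ((2 * c3 - y3) / c3 ^ 2 * ka3 a k2 β P δ ^ 2 + 3 * y3 * h3 ^ 2)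

/-- the V-square of one chain, `K = (V - β) / (1 - τ²)` -/
noncomputable def VK (τ a c P K : ℝ) : ℝ :=
  (1 - a ^ 2) * (1 - τ ^ 2) * (K - 2 * a * P) ^ 2 * (2 * c - (1 - τ * a)) / (2 * c ^ 2)

/-- **the explicit polynomial form** -/
noncomputable def F7 (em er c1m cbm c1r cbr cE1 τ a b b0 b1 l1 l2 l3 y1 y2 y3 k2 l1' l2' l3' y1' y2' y3'
    k2' t1 t2 t3 t1' t2' t3' tb c1 c2 c3 c1' c2' c3' cV cV' : ℝ)
    (β P δ Q ε K h1 h2 h3 h1' h2' h3' : ℝ) : ℝ :=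
  EK a l1 l2 l3 y1 y2 y3 k2 ((2 + (a - b)) / 8 - (a + b) * cE1 / 8 + t1)
    ((2 - (a - b) + 2 * (a - b) * k2) / 8 + (a + b) * ((2 * k2 - 1) * cE1) / 8 + t2)
    ((2 - (a - b)) / 8 + (a + b) * cE1 / 8 + t3) c1 c2 c3 β P δ h1 h2 h3 +
  EK b l1' l2' l3' y1' y2' y3' k2' ((2 - (a - b)) / 8 - (a + b) * cE1 / 8 + t1')
    ((2 + (a - b) - 2 * (a - b) * k2') / 8 + (a + b) * ((2 * k2' - 1) * cE1) / 8 + t2')
    ((2 + (a - b)) / 8 + (a + b) * cE1 / 8 + t3') c1' c2' c3' β Q ε h1' h2' h3' -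
  2 / 3 * (t1 * l1 * ka1 a k2 β P δ + t2 * l2 * ka2 a k2 β P δ + t3 * l3 * ka3 a k2 β P δ +
    t1' * l1' * ka1 b k2' β Q ε + t2' * l2' * ka2 b k2' β Q ε + t3' * l3' * ka3 b k2' β Q ε) +
  VK τ a cV P K + VK τ b cV' Q K -
  2 * (1 - a ^ 2) * (1 + τ * a) * P ^ 2 - 2 * (1 - b ^ 2) * (1 + τ * b) * Q ^ 2 +
  (2 - a ^ 2 - b ^ 2) / 8 - (2 - a ^ 2 - b ^ 2) * β / 2 -
  τ * (a * (1 - a ^ 2) + b * (1 - b ^ 2)) / 24 - (a * (1 - a ^ 2) * P + b * (1 - b ^ 2) * Q) -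
  τ / 3 * ((1 - a ^ 2) * P + (1 - b ^ 2) * Q) * (1 + 2 * β) + τ / 6 * (a + b) * β ^ 2 +
  (em * (mK a l1 l2 l3 y1 y2 y3 k2 β P δ h1 h2 h3 + mK b l1' l2' l3' y1' y2' y3' k2' β Q ε h1' h2' h3')
    + er * (rK a l1 l2 l3 k2 β P δ + rK b l1' l2' l3' k2' β Q ε)) *
    ((1 - a ^ 2) * P + (1 - b ^ 2) * Q - (a + b) * β / 2) +
  (a + b) * ((c1m + cbm * β) *
    (mK a l1 l2 l3 y1 y2 y3 k2 β P δ h1 h2 h3 + mK b l1' l2' l3' y1' y2' y3' k2' β Q ε h1' h2' h3') +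
    (c1r + cbr * β) * (rK a l1 l2 l3 k2 β P δ + rK b l1' l2' l3' k2' β Q ε) +
    cE1 * (τ * β ^ 2 / 4 - β * (rK a l1 l2 l3 k2 β P δ + rK b l1' l2' l3' k2' β Q ε))) -
  tb * ((β - b0) * (b1 - β))

/-- **the certificate statement with seven multipliers at one `(τ, β)`** -/
def CERT7at (τ β : ℝ) : Prop :=
    ∃ em er c1m cbm c1r cbr cE1 b0 b1 : ℝ, b0 ≤ β ∧ β ≤ b1 ∧
    ∀ a b : ℝ, -1 ≤ b → b ≤ a → a ≤ 1 →
    ∀ l1 l2 l3 y1 y2 y3 k2 l1' l2' l3' y1' y2' y3' k2' : ℝ,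
    GK τ a l1 l2 l3 y1 y2 y3 k2 → GK τ b l1' l2' l3' y1' y2' y3' k2' →
    ∃ t1 t2 t3 t1' t2' t3' tb c1 c2 c3 c1' c2' c3' cV cV' : ℝ,
      0 ≤ t1 ∧ 0 ≤ t2 ∧ 0 ≤ t3 ∧ 0 ≤ t1' ∧ 0 ≤ t2' ∧ 0 ≤ t3' ∧ 0 ≤ tb ∧
      0 < c1 ∧ 0 < c2 ∧ 0 < c3 ∧ 0 < c1' ∧ 0 < c2' ∧ 0 < c3' ∧ 0 < cV ∧ 0 < cV' ∧
      0 ≤ (2 + (a - b)) / 8 - (a + b) * cE1 / 8 + t1 ∧
      0 ≤ (2 - (a - b) + 2 * (a - b) * k2) / 8 + (a + b) * ((2 * k2 - 1) * cE1) / 8 + t2 ∧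
      0 ≤ (2 - (a - b)) / 8 + (a + b) * cE1 / 8 + t3 ∧
      0 ≤ (2 - (a - b)) / 8 - (a + b) * cE1 / 8 + t1' ∧
      0 ≤ (2 + (a - b) - 2 * (a - b) * k2') / 8 + (a + b) * ((2 * k2' - 1) * cE1) / 8 + t2' ∧
      0 ≤ (2 + (a - b)) / 8 + (a + b) * cE1 / 8 + t3' ∧
      ∀ P δ Q ε K h1 h2 h3 h1' h2' h3' : ℝ,
        0 ≤ F7 em er c1m cbm c1r cbr cE1 τ a b b0 b1 l1 l2 l3 y1 y2 y3 k2 l1' l2' l3' y1' y2' y3'
          k2' t1 t2 t3 t1' t2' t3' tb c1 c2 c3 c1' c2' c3' cV cV' β P δ Q ε K h1 h2 h3 h1' h2' h3'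

/-- **the certificate statement with seven multipliers** -/
def Stmt_CERT7 : Prop :=
  ∀ τ : ℝ, 0 < τ → τ < 1 → ∀ β : ℝ, 0 ≤ β → β ≤ 2 / 3 → CERT7at τ β

/-- tangent bound: `N g² = l κ² / y ≥ l κ² (2 c - y) / c²` -/
lemma tang {l y g c W h : ℝ} (hl : 0 ≤ l) (hy : 0 < y) (hc : 0 < c) (hW : 0 ≤ W) :
    W * l * ((2 * c - y) / c ^ 2 * (y * g) ^ 2 + 3 * y * h ^ 2) ≤ W * (l * y) * (g ^ 2 + 3 * h ^ 2) := by
  have h1 : (2 * c - y) / c ^ 2 * (y * g) ^ 2 ≤ y * g ^ 2 := by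
    rw [div_mul_eq_mul_div, div_le_iff₀ (by positivity)]
    have : 0 ≤ y * g ^ 2 * (c - y) ^ 2 := by positivity
    nlinarith
  have h2 := mul_le_mul_of_nonneg_left h1 (mul_nonneg hW hl)
  nlinarith

lemma VK_le {τ a c P K : ℝ} (h0 : 0 < τ) (h1 : τ < 1) (ha : -1 ≤ a) (hb : a ≤ 1) (hc : 0 < c) :
    VK τ a c P K - 2 * (1 - a ^ 2) * (1 + τ * a) * P ^ 2 ≤
      -(2 / (1 - τ * a) * ((1 - a ^ 2) * P + a * ((1 - τ ^ 2) * K) / 2) ^ 2) +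
        ((1 - τ ^ 2) * K) ^ 2 * (1 + τ * a) / (2 * (1 - τ ^ 2)) := by
  have ya : 0 < 1 - τ * a := by nlinarith
  have t2 : 0 < 1 - τ ^ 2 := by nlinarith
  have xx : 0 ≤ 1 - a ^ 2 := by nlinarith
  have e1 : -(2 / (1 - τ * a) * ((1 - a ^ 2) * P + a * ((1 - τ ^ 2) * K) / 2) ^ 2) +
        ((1 - τ ^ 2) * K) ^ 2 * (1 + τ * a) / (2 * (1 - τ ^ 2)) =
      (1 - a ^ 2) * (1 - τ ^ 2) * (K - 2 * a * P) ^ 2 / (2 * (1 - τ * a)) -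
        2 * (1 - a ^ 2) * (1 + τ * a) * P ^ 2 := by
    field_simp
    ring
  rw [e1]
  have h2 : (2 * c - (1 - τ * a)) / (2 * c ^ 2) ≤ 1 / (2 * (1 - τ * a)) := by
    rw [div_le_div_iff₀ (by positivity) (by positivity)]
    nlinarith [sq_nonneg (c - (1 - τ * a))]
  have h3 : 0 ≤ (1 - a ^ 2) * (1 - τ ^ 2) * (K - 2 * a * P) ^ 2 :=
    mul_nonneg (mul_nonneg xx t2.le) (sq_nonneg _)
  have h4 := mul_le_mul_of_nonneg_left h2 h3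
  unfold VK
  rw [mul_div_assoc]
  have h5 : (1 - a ^ 2) * (1 - τ ^ 2) * (K - 2 * a * P) ^ 2 / (2 * (1 - τ * a)) =
      (1 - a ^ 2) * (1 - τ ^ 2) * (K - 2 * a * P) ^ 2 * (1 / (2 * (1 - τ * a))) := by ring
  rw [h5]
  linarith

lemma Geo.gk {τ a N1 N2 N3 k2 : ℝ} (H : Geo τ a N1 N2 N3 k2) :
    ∃ l1 l2 l3 y1 y2 y3 : ℝ, GK τ a l1 l2 l3 y1 y2 y3 k2 ∧ N1 = l1 * y1 ∧ N2 = l2 * y2 ∧
      N3 = l3 * y3 := by
  rcases H with ⟨ha, h1, h2, h3, h4⟩ | ⟨ha, h1, h2, h3, h4⟩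
  · exact ⟨_, _, _, _, _, _, Or.inl ⟨ha, rfl, rfl, rfl, rfl, rfl, rfl, h4⟩, h1, h2, by rw [h3]; ring⟩
  · exact ⟨_, _, _, _, _, _, Or.inr ⟨ha, rfl, rfl, rfl, rfl, rfl, rfl, h4⟩, by rw [h1]; ring,
      by rw [h2]; ring, h3⟩

lemma GK.nonneg {τ a l1 l2 l3 y1 y2 y3 k2 : ℝ} (h0 : 0 < τ) (h1 : τ < 1) (ha : -1 ≤ a) (hb : a ≤ 1)
    (H : GK τ a l1 l2 l3 y1 y2 y3 k2) :
    0 ≤ l1 ∧ 0 ≤ l2 ∧ 0 ≤ l3 ∧ 0 < y1 ∧ 0 < y2 ∧ 0 < y3 := by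
  rcases H with ⟨h, rfl, rfl, rfl, rfl, rfl, rfl, -⟩ | ⟨h, rfl, rfl, rfl, rfl, rfl, rfl, -⟩
  · exact ⟨by linarith, h, by norm_num, by nlinarith, by nlinarith, by linarith⟩
  · exact ⟨by norm_num, by linarith, by linarith, by linarith, by nlinarith, by nlinarith⟩

/-- the parametrisation of the loads of a chain by `P`, `δ` -/
lemma GK.param {τ a l1 l2 l3 y1 y2 y3 k2 : ℝ} (H : GK τ a l1 l2 l3 y1 y2 y3 k2) {β g1 g2 g3 : ℝ}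
    (hs : l1 * y1 * g1 + l2 * y2 * g2 + l3 * y3 * g3 = 2 * β) :
    ∃ P δ : ℝ, y1 * g1 = ka1 a k2 β P δ ∧ y2 * g2 = ka2 a k2 β P δ ∧ y3 * g3 = ka3 a k2 β P δ ∧
      l1 * ka1 a k2 β P δ + k2 * (l2 * ka2 a k2 β P δ) = (1 - a) * β + 2 * ((1 - a ^ 2) * P) := by
  rcases H with ⟨ha, r1, r2, r3, -, -, -, rk⟩ | ⟨ha, r1, r2, r3, -, -, -, rk⟩
  · rw [r1, r2, r3] at hs
    rw [r1, r2, rk]
    have h1 : (1 + a) ≠ 0 := by linarith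
    refine ⟨(y1 * g1 - β) / (2 * (1 + a)), (y2 * g2 - y3 * g3) / (1 + a), ?_, ?_, ?_, ?_⟩
    · unfold ka1; field_simp; ring
    · unfold ka2; field_simp
      linear_combination 2 * hs
    · unfold ka3; field_simp
      linear_combination hs
    · unfold ka1 ka2; field_simp; ring
  · rw [r1, r2, r3] at hs
    rw [r1, r2, rk]
    have h1 : (1 - a) ≠ 0 := by linarith
    refine ⟨(β - y3 * g3) / (2 * (1 - a)), (y2 * g2 - y1 * g1) / (1 - a), ?_, ?_, ?_, ?_⟩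
    · unfold ka1; field_simp
      linear_combination hs
    · unfold ka2; field_simp
      linear_combination 2 * hs
    · unfold ka3; field_simp; ring
    · unfold ka1 ka2; field_simp; ring

theorem CERTat_of_CERT7at {τ β : ℝ} (hτ0 : 0 < τ) (hτ1 : τ < 1) (h : CERT7at τ β) :
    CERTat τ β := by
  obtain ⟨em, er, c1m, cbm, c1r, cbr, cE1, b0, b1, hb0, hb1, hC⟩ := h
  refine ⟨⟨em, 0, 0, 0, er, 0, 0, 0, c1m, cbm, 0, 0, 0, 0, 0, c1r, cbr, 0, 0, 0, 0, cE1⟩, b0, b1, hb0,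
    hb1, ?_⟩
  intro a b b0' hab a1 N1 N2 N3 k2 N1' N2' N3' k2' G G'
  obtain ⟨l1, l2, l3, y1, y2, y3, gk, n1, n2, n3⟩ := G.gk
  obtain ⟨l1', l2', l3', y1', y2', y3', gk', n1', n2', n3'⟩ := G'.gk
  obtain ⟨p1, p2, p3, q1, q2, q3⟩ := gk.nonneg hτ0 hτ1 (b0'.trans hab) a1
  obtain ⟨p1', p2', p3', q1', q2', q3'⟩ := gk'.nonneg hτ0 hτ1 b0' (hab.trans a1)
  obtain ⟨t1, t2, t3, t1', t2', t3', tb, c1, c2, c3, c1', c2', c3', cV, cV', r1, r2, r3, r1', r2', r3',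
    rb, s1, s2, s3, s1', s2', s3', sV, sV', w1, w2, w3, w1', w2', w3', H⟩ :=
    hC a b b0' hab a1 l1 l2 l3 y1 y2 y3 k2 l1' l2' l3' y1' y2' y3' k2' gk gk'
  refine ⟨t1, t2, t3, t1', t2', t3', tb, 0, r1, r2, r3, r1', r2', r3', rb, le_rfl, ?_, ?_, ?_, ?_, ?_,
    ?_, ?_⟩
  · simp only; linarith
  · simp only; linarith
  · simp only; linarith
  · simp only; linarith
  · simp only; linarith
  · simp only; linarith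
  intro V g1 g2 g3 h1 h2 h3 g1' g2' g3' h1' h2' h3' e1 e2
  rw [n1, n2, n3] at e1
  rw [n1', n2', n3'] at e2
  obtain ⟨P, δ, x1, x2, x3, x4⟩ := gk.param e1
  obtain ⟨Q, ε, z1, z2, z3, z4⟩ := gk'.param e2
  have hτ2 : 0 < 1 - τ ^ 2 := by nlinarith
  obtain ⟨K, hK⟩ : ∃ K, K = (V - β) / (1 - τ ^ 2) := ⟨_, rfl⟩
  have hV : V - β = (1 - τ ^ 2) * K := by rw [hK]; field_simp
  have H1 := H P δ Q ε K h1 h2 h3 h1' h2' h3'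
  have u1 := VK_le (P := P) (K := K) hτ0 hτ1 (b0'.trans hab) a1 sV
  have u2 := VK_le (P := Q) (K := K) hτ0 hτ1 b0' (hab.trans a1) sV'
  have k1 := tang (g := g1) (h := h1) p1 q1 s1 w1
  have k2x := tang (g := g2) (h := h2) p2 q2 s2 w2
  have k3 := tang (g := g3) (h := h3) p3 q3 s3 w3
  have k1' := tang (g := g1') (h := h1') p1' q1' s1' w1'
  have k2x' := tang (g := g2') (h := h2') p2' q2' s2' w2'
  have k3' := tang (g := g3') (h := h3') p3' q3' s3' w3'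
  rw [x1] at k1
  rw [x2] at k2x
  rw [x3] at k3
  rw [z1] at k1'
  rw [z2] at k2x'
  rw [z3] at k3'
  have m1 : mC N1 N2 N3 g1 g2 g3 h1 h2 h3 = mK a l1 l2 l3 y1 y2 y3 k2 β P δ h1 h2 h3 := by
    unfold mC mK
    rw [← x1, ← x2, ← x3, n1, n2, n3]; ring
  have m2 : mC N1' N2' N3' g1' g2' g3' h1' h2' h3' =
      mK b l1' l2' l3' y1' y2' y3' k2' β Q ε h1' h2' h3' := by
    unfold mC mK
    rw [← z1, ← z2, ← z3, n1', n2', n3']; ring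
  have o1 : rC N1 N2 N3 k2 g1 g2 g3 = rK a l1 l2 l3 k2 β P δ := by
    unfold rC rK
    rw [← x1, ← x2, ← x3, n1, n2, n3]; ring
  have o2 : rC N1' N2' N3' k2' g1' g2' g3' = rK b l1' l2' l3' k2' β Q ε := by
    unfold rC rK
    rw [← z1, ← z2, ← z3, n1', n2', n3']; ring
  have f1 : (N1 * g1 + k2 * (N2 * g2) - (1 - a) * β) / 2 = (1 - a ^ 2) * P := by
    rw [← x1, ← x2] at x4
    rw [n1, n2]
    linear_combination x4 / 2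
  have f2 : (N1' * g1' + k2' * (N2' * g2') - (1 - b) * β) / 2 = (1 - b ^ 2) * Q := by
    rw [← z1, ← z2] at z4
    rw [n1', n2']
    linear_combination z4 / 2
  have d1 : N1 * g1 = l1 * ka1 a k2 β P δ := by rw [← x1, n1]; ring
  have d2 : N2 * g2 = l2 * ka2 a k2 β P δ := by rw [← x2, n2]; ring
  have d3 : N3 * g3 = l3 * ka3 a k2 β P δ := by rw [← x3, n3]; ring
  have d1' : N1' * g1' = l1' * ka1 b k2' β Q ε := by rw [← z1, n1']; ring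
  have d2' : N2' * g2' = l2' * ka2 b k2' β Q ε := by rw [← z2, n2']; ring
  have d3' : N3' * g3' = l3' * ka3 b k2' β Q ε := by rw [← z3, n3']; ring
  have j1 : t1 * N1 * g1 = t1 * l1 * ka1 a k2 β P δ := by rw [mul_assoc, d1]; ring
  have j2 : t2 * N2 * g2 = t2 * l2 * ka2 a k2 β P δ := by rw [mul_assoc, d2]; ring
  have j3 : t3 * N3 * g3 = t3 * l3 * ka3 a k2 β P δ := by rw [mul_assoc, d3]; ring
  have j1' : t1' * N1' * g1' = t1' * l1' * ka1 b k2' β Q ε := by rw [mul_assoc, d1']; ring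
  have j2' : t2' * N2' * g2' = t2' * l2' * ka2 b k2' β Q ε := by rw [mul_assoc, d2']; ring
  have j3' : t3' * N3' * g3' = t3' * l3' * ka3 b k2' β Q ε := by rw [mul_assoc, d3']; ring
  rw [← n1] at k1
  rw [← n2] at k2x
  rw [← n3] at k3
  rw [← n1'] at k1'
  rw [← n2'] at k2x'
  rw [← n3'] at k3'
  unfold FQ LH MH PHI
  rw [m1, m2, o1, o2, f1, f2, hV, j1, j2, j3, j1', j2', j3']
  unfold F7 EK at H1
  simp only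
  generalize ka1 a k2 β P δ = A1 at *
  generalize ka2 a k2 β P δ = A2 at *
  generalize ka3 a k2 β P δ = A3 at *
  generalize ka1 b k2' β Q ε = B1 at *
  generalize ka2 b k2' β Q ε = B2 at *
  generalize ka3 b k2' β Q ε = B3 at *
  generalize mK a l1 l2 l3 y1 y2 y3 k2 β P δ h1 h2 h3 = M1 at *
  generalize mK b l1' l2' l3' y1' y2' y3' k2' β Q ε h1' h2' h3' = M2 at *
  generalize rK a l1 l2 l3 k2 β P δ = R1 at *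
  generalize rK b l1' l2' l3' k2' β Q ε = R2 at *
  generalize VK τ a cV P K = S1 at *
  generalize VK τ b cV' Q K = S2 at *
  have E1 : ((1 - τ ^ 2) * K) ^ 2 * (2 + τ * (a + b)) / (2 * (1 - τ ^ 2)) =
      ((1 - τ ^ 2) * K) ^ 2 * (1 + τ * a) / (2 * (1 - τ ^ 2)) +
      ((1 - τ ^ 2) * K) ^ 2 * (1 + τ * b) / (2 * (1 - τ ^ 2)) := by ring
  rw [E1]
  generalize ((1 - τ ^ 2) * K) ^ 2 * (1 + τ * a) / (2 * (1 - τ ^ 2)) = X1 at *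
  generalize ((1 - τ ^ 2) * K) ^ 2 * (1 + τ * b) / (2 * (1 - τ ^ 2)) = X2 at *
  generalize 2 / (1 - τ * a) * ((1 - a ^ 2) * P + a * ((1 - τ ^ 2) * K) / 2) ^ 2 = X3 at *
  generalize 2 / (1 - τ * b) * ((1 - b ^ 2) * Q + b * ((1 - τ ^ 2) * K) / 2) ^ 2 = X4 at *
  generalize (2 * c1 - y1) / c1 ^ 2 = Y1 at *
  generalize (2 * c2 - y2) / c2 ^ 2 = Y2 at *
  generalize (2 * c3 - y3) / c3 ^ 2 = Y3 at *
  generalize (2 * c1' - y1') / c1' ^ 2 = Y1' at *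
  generalize (2 * c2' - y2') / c2' ^ 2 = Y2' at *
  generalize (2 * c3' - y3') / c3' ^ 2 = Y3' at *
  clear hC H gk gk' G G' x1 x2 x3 x4 z1 z2 z3 z4 m1 m2 o1 o2 f1 f2 d1 d2 d3 d1' d2' d3' j1 j2 j3 j1'
    j2' j3' E1 e1 e2 hK
  linarith

theorem CERT_of_CERT7 (h : Stmt_CERT7) : Stmt_CERT :=
  fun τ hτ0 hτ1 β hβ0 hβ1 => CERTat_of_CERT7at hτ0 hτ1 (h τ hτ0 hτ1 β hβ0 hβ1)

theorem FIN6at_of_CERT7at {τ β : ℝ} (hτ0 : 0 < τ) (hτ1 : τ < 1) (hβ0 : 0 ≤ β) (hβ1 : β ≤ 2 / 3)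
    (h : CERT7at τ β) : FIN6at 0 τ β :=
  FIN6at_of_CERTat hτ0 hτ1 hβ0 hβ1 (CERTat_of_CERT7at hτ0 hτ1 h)

end Pool.G1.Gap
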