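import Pool.Agent.Work.MP_b5407d_g1.Pl_FORM

/-!
# G1, balanced case: the polynomial form without `V` and without first moments (`CERTXat`)

Multipliers `λ = er r`, `μ = (c1r + cbr β) r + cE1 E1`, loads parametrised by `x`, `δ`; the V-squares are
dropped.
-/

set_option autoImplicit false

namespace Pool.G1.Gap

/-- load of the bottom subarc -/
noncomputable def gx1 (N1 N2 N3 k2 β x δ : ℝ) : ℝ :=
  β + ((1 - k2) * N2 + N3) * x - k2 * N2 * δ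
/-- load of the middle subarc -/
noncomputable def gx2 (N1 N2 N3 k2 β x δ : ℝ) : ℝ :=
  β + (k2 * N3 - (1 - k2) * N1) * x + ((1 - k2) * N3 + k2 * N1) * δ
/-- load of the top subarc -/
noncomputable def gx3 (N1 N2 N3 k2 β x δ : ℝ) : ℝ :=
  β - (N1 + k2 * N2) * x - (1 - k2) * N2 * δ

/-- (flux below the state minus `(1 - a) β`) / `(2 (1 - a²))` -/
noncomputable def Px (τ a β x : ℝ) : ℝ :=
  ((1 - τ * (1 + a) / 2) * (1 + τ * (1 - a) / 2) * x - τ * β / 2) / 2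

/-- `(1/4) ∫ sgn (y - 1) θ dζ` of one chain -/
noncomputable def rX (N1 N2 N3 k2 β x δ : ℝ) : ℝ :=
  (-(N1 * gx1 N1 N2 N3 k2 β x δ) + (2 * k2 - 1) * (N2 * gx2 N1 N2 N3 k2 β x δ) +
    N3 * gx3 N1 N2 N3 k2 β x δ) / 4

/-- energy of one chain minus the local multipliers times the fluxes -/
noncomputable def EX (N1 N2 N3 k2 W1 W2 W3 t1 t2 t3 β x δ : ℝ) : ℝ :=
  W1 * N1 * gx1 N1 N2 N3 k2 β x δ ^ 2 + W2 * N2 * gx2 N1 N2 N3 k2 β x δ ^ 2 +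
    W3 * N3 * gx3 N1 N2 N3 k2 β x δ ^ 2 -
  2 / 3 * (t1 * N1 * gx1 N1 N2 N3 k2 β x δ + t2 * N2 * gx2 N1 N2 N3 k2 β x δ +
    t3 * N3 * gx3 N1 N2 N3 k2 β x δ)

/-- **the explicit polynomial form** -/
noncomputable def FX (er c1r cbr cE1 τ a b b0 b1 N1 N2 N3 k2 N1' N2' N3' k2' t1 t2 t3 t1' t2' t3' tb : ℝ)
    (β x δ x' δ' : ℝ) : ℝ :=
  EX N1 N2 N3 k2 ((2 + (a - b)) / 8 - (a + b) * cE1 / 8 + t1)
    ((2 - (a - b) + 2 * (a - b) * k2) / 8 + (a + b) * ((2 * k2 - 1) * cE1) / 8 + t2)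
    ((2 - (a - b)) / 8 + (a + b) * cE1 / 8 + t3) t1 t2 t3 β x δ +
  EX N1' N2' N3' k2' ((2 - (a - b)) / 8 - (a + b) * cE1 / 8 + t1')
    ((2 + (a - b) - 2 * (a - b) * k2') / 8 + (a + b) * ((2 * k2' - 1) * cE1) / 8 + t2')
    ((2 + (a - b)) / 8 + (a + b) * cE1 / 8 + t3') t1' t2' t3' β x' δ' -
  2 * (1 - a ^ 2) * (1 + τ * a) * Px τ a β x ^ 2 - 2 * (1 - b ^ 2) * (1 + τ * b) * Px τ b β x' ^ 2 +
  (2 - a ^ 2 - b ^ 2) / 8 - (2 - a ^ 2 - b ^ 2) * β / 2 -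
  τ * (a * (1 - a ^ 2) + b * (1 - b ^ 2)) / 24 -
  (a * (1 - a ^ 2) * Px τ a β x + b * (1 - b ^ 2) * Px τ b β x') -
  τ / 3 * ((1 - a ^ 2) * Px τ a β x + (1 - b ^ 2) * Px τ b β x') * (1 + 2 * β) +
  τ / 6 * (a + b) * β ^ 2 +
  er * (rX N1 N2 N3 k2 β x δ + rX N1' N2' N3' k2' β x' δ') *
    ((1 - a ^ 2) * Px τ a β x + (1 - b ^ 2) * Px τ b β x' - (a + b) * β / 2) +
  (a + b) * ((c1r + cbr * β) * (rX N1 N2 N3 k2 β x δ + rX N1' N2' N3' k2' β x' δ') +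
    cE1 * (τ * β ^ 2 / 4 - β * (rX N1 N2 N3 k2 β x δ + rX N1' N2' N3' k2' β x' δ'))) -
  tb * ((β - b0) * (b1 - β))

/-- **the certificate statement at one `(τ, β)`, four multipliers, no `V`, no first moments** -/
def CERTXat (τ β : ℝ) : Prop :=
    ∃ er c1r cbr cE1 b0 b1 : ℝ, b0 ≤ β ∧ β ≤ b1 ∧
    ∀ a b : ℝ, -1 ≤ b → b ≤ a → a ≤ 1 → ∀ N1 N2 N3 k2 N1' N2' N3' k2' : ℝ,
    Geo τ a N1 N2 N3 k2 → Geo τ b N1' N2' N3' k2' →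
    ∃ t1 t2 t3 t1' t2' t3' tb : ℝ,
      0 ≤ t1 ∧ 0 ≤ t2 ∧ 0 ≤ t3 ∧ 0 ≤ t1' ∧ 0 ≤ t2' ∧ 0 ≤ t3' ∧ 0 ≤ tb ∧
      0 ≤ (2 + (a - b)) / 8 - (a + b) * cE1 / 8 + t1 ∧
      0 ≤ (2 - (a - b) + 2 * (a - b) * k2) / 8 + (a + b) * ((2 * k2 - 1) * cE1) / 8 + t2 ∧
      0 ≤ (2 - (a - b)) / 8 + (a + b) * cE1 / 8 + t3 ∧
      0 ≤ (2 - (a - b)) / 8 - (a + b) * cE1 / 8 + t1' ∧
      0 ≤ (2 + (a - b) - 2 * (a - b) * k2') / 8 + (a + b) * ((2 * k2' - 1) * cE1) / 8 + t2' ∧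
      0 ≤ (2 + (a - b)) / 8 + (a + b) * cE1 / 8 + t3' ∧
      ∀ x δ x' δ' : ℝ,
        0 ≤ FX er c1r cbr cE1 τ a b b0 b1 N1 N2 N3 k2 N1' N2' N3' k2' t1 t2 t3 t1' t2' t3' tb β x δ x' δ'

lemma VX_le {τ a p K : ℝ} (h0 : 0 < τ) (h1 : τ < 1) (ha : -1 ≤ a) (hb : a ≤ 1) :
    -(2 * (1 - a ^ 2) * (1 + τ * a) * p ^ 2) ≤
      -(2 / (1 - τ * a) * ((1 - a ^ 2) * p + a * K / 2) ^ 2) +
        K ^ 2 * (1 + τ * a) / (2 * (1 - τ ^ 2)) := by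
  have ya : 0 < 1 - τ * a := by nlinarith
  have t2 : 0 < 1 - τ ^ 2 := by nlinarith
  have xx : 0 ≤ 1 - a ^ 2 := by nlinarith
  have e1 : -(2 / (1 - τ * a) * ((1 - a ^ 2) * p + a * K / 2) ^ 2) +
        K ^ 2 * (1 + τ * a) / (2 * (1 - τ ^ 2)) =
      (1 - a ^ 2) * (K - 2 * a * (1 - τ ^ 2) * p) ^ 2 / (2 * (1 - τ * a) * (1 - τ ^ 2)) -
        2 * (1 - a ^ 2) * (1 + τ * a) * p ^ 2 := by
    field_simp
    ring
  rw [e1]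
  have h3 : 0 ≤ (1 - a ^ 2) * (K - 2 * a * (1 - τ ^ 2) * p) ^ 2 / (2 * (1 - τ * a) * (1 - τ ^ 2)) :=
    div_nonneg (mul_nonneg xx (sq_nonneg _)) (by positivity)
  linarith

/-- the parametrisation of the loads of a chain by `x`, `δ` -/
lemma Geo.paramX {τ a N1 N2 N3 k2 : ℝ} (h0 : 0 < τ) (h1 : τ < 1) (ha0 : -1 ≤ a) (ha1 : a ≤ 1)
    (H : Geo τ a N1 N2 N3 k2) {β g1 g2 g3 : ℝ} (hs : N1 * g1 + N2 * g2 + N3 * g3 = 2 * β) :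
    ∃ x δ : ℝ, g1 = gx1 N1 N2 N3 k2 β x δ ∧ g2 = gx2 N1 N2 N3 k2 β x δ ∧
      g3 = gx3 N1 N2 N3 k2 β x δ ∧
      N1 * g1 + k2 * (N2 * g2) - (1 - a) * β = 2 * ((1 - a ^ 2) * Px τ a β x) := by
  rcases H with ⟨ha, r1, r2, r3, rk⟩ | ⟨ha, r1, r2, r3, rk⟩
  · have hsum : N1 + N2 + N3 = 2 := by rw [r1, r2, r3]; ring
    have hN : 0 < N2 + N3 := by
      have h2 : 0 ≤ a * (1 - τ * a / 2) := mul_nonneg ha (by nlinarith)
      rw [r2, r3]; linarith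
    have hN' := hN.ne'
    have e1 : g1 = gx1 N1 N2 N3 k2 β ((g1 - β) / (N2 + N3)) ((g2 - g3) / (N2 + N3)) := by
      unfold gx1; rw [rk]; field_simp; ring
    refine ⟨(g1 - β) / (N2 + N3), (g2 - g3) / (N2 + N3), e1, ?_, ?_, ?_⟩
    · unfold gx2; rw [rk]; field_simp
      linear_combination hs - β * hsum
    · unfold gx3; rw [rk]; field_simp
      linear_combination hs - β * hsum
    · have e2 : g1 = β + (N2 + N3) * ((g1 - β) / (N2 + N3)) := by field_simp; ring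
      obtain ⟨x, hx⟩ : ∃ x, x = (g1 - β) / (N2 + N3) := ⟨_, rfl⟩
      rw [← hx] at e2 ⊢
      rw [e2, rk, r1, r2, r3]
      unfold Px
      ring
  · have hsum : N1 + N2 + N3 = 2 := by rw [r1, r2, r3]; ring
    have hN : 0 < N1 + N2 := by
      have h2 : 0 ≤ -(a * (1 - τ * a / 2)) := by
        rw [neg_nonneg]; exact mul_nonpos_of_nonpos_of_nonneg ha (by nlinarith)
      rw [r1, r2]; linarith
    have hN' := hN.ne'
    have e3 : g3 = gx3 N1 N2 N3 k2 β ((β - g3) / (N1 + N2)) ((g2 - g1) / (N1 + N2)) := by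
      unfold gx3; rw [rk]; field_simp; ring
    refine ⟨(β - g3) / (N1 + N2), (g2 - g1) / (N1 + N2), ?_, ?_, e3, ?_⟩
    · unfold gx1; rw [rk]; field_simp
      linear_combination hs - β * hsum
    · unfold gx2; rw [rk]; field_simp
      linear_combination hs - β * hsum
    · have e2 : g3 = β - (N1 + N2) * ((β - g3) / (N1 + N2)) := by field_simp; ring
      obtain ⟨x, hx⟩ : ∃ x, x = (β - g3) / (N1 + N2) := ⟨_, rfl⟩
      rw [← hx] at e2 ⊢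
      have e4 : N1 * g1 + k2 * (N2 * g2) = 2 * β - N3 * (β - (N1 + N2) * x) := by
        rw [rk, ← e2]; linear_combination hs
      rw [e4, r1, r2, r3]
      unfold Px
      ring

theorem CERTat_of_CERTXat {τ β : ℝ} (hτ0 : 0 < τ) (hτ1 : τ < 1) (h : CERTXat τ β) :
    CERTat τ β := by
  obtain ⟨er, c1r, cbr, cE1, b0, b1, hb0, hb1, hC⟩ := h
  refine ⟨⟨0, 0, 0, 0, er, 0, 0, 0, 0, 0, 0, 0, 0, 0, 0, c1r, cbr, 0, 0, 0, 0, cE1⟩, b0, b1, hb0,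
    hb1, ?_⟩
  intro a b b0' hab a1 N1 N2 N3 k2 N1' N2' N3' k2' G G'
  obtain ⟨n1, n2, n3⟩ := G.nonneg hτ0 hτ1 (b0'.trans hab) a1
  obtain ⟨n1', n2', n3'⟩ := G'.nonneg hτ0 hτ1 b0' (hab.trans a1)
  obtain ⟨t1, t2, t3, t1', t2', t3', tb, r1, r2, r3, r1', r2', r3', rb, w1, w2, w3, w1', w2', w3', H⟩ :=
    hC a b b0' hab a1 N1 N2 N3 k2 N1' N2' N3' k2' G G'
  refine ⟨t1, t2, t3, t1', t2', t3', tb, 0, r1, r2, r3, r1', r2', r3', rb, le_rfl, ?_, ?_, ?_, ?_, ?_,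
    ?_, ?_⟩
  · simp only; linarith
  · simp only; linarith
  · simp only; linarith
  · simp only; linarith
  · simp only; linarith
  · simp only; linarith
  intro V g1 g2 g3 h1 h2 h3 g1' g2' g3' h1' h2' h3' e1 e2
  obtain ⟨x, δ, x1, x2, x3, x4⟩ := G.paramX hτ0 hτ1 (b0'.trans hab) a1 e1
  obtain ⟨x', δ', z1, z2, z3, z4⟩ := G'.paramX hτ0 hτ1 b0' (hab.trans a1) e2
  have H1 := H x δ x' δ'
  have u1 := VX_le (p := Px τ a β x) (K := V - β) hτ0 hτ1 (b0'.trans hab) a1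
  have u2 := VX_le (p := Px τ b β x') (K := V - β) hτ0 hτ1 b0' (hab.trans a1)
  have o1 : rC N1 N2 N3 k2 g1 g2 g3 = rX N1 N2 N3 k2 β x δ := by
    unfold rC rX
    rw [← x1, ← x2, ← x3]
  have o2 : rC N1' N2' N3' k2' g1' g2' g3' = rX N1' N2' N3' k2' β x' δ' := by
    unfold rC rX
    rw [← z1, ← z2, ← z3]
  have f1 : (N1 * g1 + k2 * (N2 * g2) - (1 - a) * β) / 2 = (1 - a ^ 2) * Px τ a β x := by
    rw [x4]; ring
  have f2 : (N1' * g1' + k2' * (N2' * g2') - (1 - b) * β) / 2 = (1 - b ^ 2) * Px τ b β x' := by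
    rw [z4]; ring
  have k1 := mul_nonneg (mul_nonneg w1 n1) (sq_nonneg h1)
  have k2x := mul_nonneg (mul_nonneg w2 n2) (sq_nonneg h2)
  have k3 := mul_nonneg (mul_nonneg w3 n3) (sq_nonneg h3)
  have k1' := mul_nonneg (mul_nonneg w1' n1') (sq_nonneg h1')
  have k2x' := mul_nonneg (mul_nonneg w2' n2') (sq_nonneg h2')
  have k3' := mul_nonneg (mul_nonneg w3' n3') (sq_nonneg h3')
  unfold FQ LH MH PHI
  rw [o1, o2, f1, f2]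
  unfold FX EX at H1
  rw [← x1, ← x2, ← x3, ← z1, ← z2, ← z3] at H1
  simp only
  generalize rX N1 N2 N3 k2 β x δ = R1 at *
  generalize rX N1' N2' N3' k2' β x' δ' = R2 at *
  generalize Px τ a β x = P at *
  generalize Px τ b β x' = Q at *
  have E1 : (V - β) ^ 2 * (2 + τ * (a + b)) / (2 * (1 - τ ^ 2)) =
      (V - β) ^ 2 * (1 + τ * a) / (2 * (1 - τ ^ 2)) +
      (V - β) ^ 2 * (1 + τ * b) / (2 * (1 - τ ^ 2)) := by ring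
  rw [E1]
  generalize (V - β) ^ 2 * (1 + τ * a) / (2 * (1 - τ ^ 2)) = X1 at *
  generalize (V - β) ^ 2 * (1 + τ * b) / (2 * (1 - τ ^ 2)) = X2 at *
  generalize 2 / (1 - τ * a) * ((1 - a ^ 2) * P + a * (V - β) / 2) ^ 2 = X3 at *
  generalize 2 / (1 - τ * b) * ((1 - b ^ 2) * Q + b * (V - β) / 2) ^ 2 = X4 at *
  clear hC H G G' x1 x2 x3 x4 z1 z2 z3 z4 o1 o2 f1 f2 E1 e1 e2
  linarith

theorem FIN6at_of_CERTXat {τ β : ℝ} (hτ0 : 0 < τ) (hτ1 : τ < 1) (hβ0 : 0 ≤ β) (hβ1 : β ≤ 2 / 3)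
    (h : CERTXat τ β) : FIN6at 0 τ β :=
  FIN6at_of_CERTat hτ0 hτ1 hβ0 hβ1 (CERTat_of_CERTXat hτ0 hτ1 h)

end Pool.G1.Gap
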