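import Mathlib

/-!
# G1, balanced case: the one-dimensional statement (pointwise multipliers)

Two chains over the height interval `[B, T]` (`0 < B < T`): heights `y 0 = B < y 1 < ... < y a = T`
with loads `t i` on `[y i, y (i+1)]`, and `z 0 = B < ... < z b = T` with loads `s j`.
`PI y t k = ∫_B^{y k} θ y dy`, `QI y t k = ∫_B^{y k} θ² y dy`, `Th (y, P) = 2 P²/y - 2 y P + y³/6`.
State `(i, j)`: first chain below `y i` and second chain above `z j`.
`CC` is the slope-integrand `G + lam e + mu c + om e4`.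
-/

set_option autoImplicit false

open Finset

namespace Pool.G1.Gap

/-- `Θ (y, P) = 2 P² / y - 2 y P + y³ / 6` -/
noncomputable def Th (y P : ℝ) : ℝ := 2 * P ^ 2 / y - 2 * y * P + y ^ 3 / 6

/-- chain heights -/
structure ChG (B T : ℝ) (a : ℕ) (y : ℕ → ℝ) : Prop where
  a0 : 0 < a
  y0 : y 0 = B
  ya : y a = T
  inc : ∀ i, i < a → y i < y (i + 1)

/-- `∫_B^{y k} θ y dy` -/
noncomputable def PI (y t : ℕ → ℝ) (k : ℕ) : ℝ :=
  ∑ i ∈ range k, t i * ((y (i + 1)) ^ 2 - (y i) ^ 2) / 2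

/-- `∫_B^{y k} θ² y dy` -/
noncomputable def QI (y t : ℕ → ℝ) (k : ℕ) : ℝ :=
  ∑ i ∈ range k, (t i) ^ 2 * ((y (i + 1)) ^ 2 - (y i) ^ 2) / 2

/-- the slope-integrand with multipliers; `al, qa, pa` = height, `QI`, `PI` of the first chain at the
state, `be, qb, pb` of the second chain; `QR, QL` total energies, `Pi` the common total of `PI`,
`ka` the constant of the potential at the bottom. -/
noncomputable def CC (B T QR QL Pi ka lam mu om al qa pa be qb pb : ℝ) : ℝ :=
  1 / 2 * ((qa + (QL - qb)) * ((T - al) + (be - B)) + ((QR - qa) + qb) * ((al - B) + (T - be))) -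
    (Th al (ka + pa) - Th B ka + Th be (ka + pb) - Th T (ka + Pi)) +
    lam * (pa + pb - Pi) + mu * (al + be - B - T) +
    om * ((ka + pa) / al + (ka + pb) / be - ka / B - (ka + Pi) / T)

/-- **the one-dimensional target** (`L` = lower bound of the loads, `L = 0` for the full box;
`R` = lower bound of `B / T`, `R = 0` for no restriction).  The four bounds of `ka` (V-box) come from
the closure of `P / y` (`Pl_GAP3.vbox`). -/
def Stmt_ONE (L R : ℝ) : Prop :=
  ∀ (B T : ℝ) (a b : ℕ) (y t z s : ℕ → ℝ), 0 < B → B < T → R * T ≤ B →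
    ChG B T a y → ChG B T b z →
    (∀ i, L ≤ t i) → (∀ i, t i ≤ 2 / 3) → (∀ j, L ≤ s j) → (∀ j, s j ≤ 2 / 3) →
    PI y t a = PI z s b → ∀ ka : ℝ,
    L * B ^ 2 ≤ ka → ka ≤ B * (B + T) / 3 → L * (T * (T + B) / 2) ≤ ka + PI y t a →
    ka + PI y t a ≤ 2 / 3 * T ^ 2 → ∃ lam mu om : ℝ, ∀ i, i ≤ a → ∀ j, j ≤ b →
      0 ≤ CC B T (QI y t a) (QI z s b) (PI y t a) ka lam mu om (y i) (QI y t i) (PI y t i)
        (z j) (QI z s j) (PI z s j)

end Pool.G1.Gap
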