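import Pool.Agent.Work.MP_b5407d_g1.Pl_Order

/-!
# G1: the two-colour lemma (K) and (SQ), line version (MP_b5407d_gt)
-/

set_option autoImplicit false

namespace Pool.G1.SQK

open Finset

/-- three groups -/
lemma three (a b x1 x2 x3 z1 z2 z3 : ℝ) (ha : 0 < a) (hb : 0 < b)
    (hx1 : 0 ≤ x1) (hx2 : 0 ≤ x2) (hx3 : 0 ≤ x3) (hz1 : 0 ≤ z1) (hz2 : 0 ≤ z2) (hz3 : 0 ≤ z3)
    (h1 : a ≤ x1 + z1) (h2 : a + b ≤ x2 + z2) (h3 : b ≤ x3 + z3) :
    a * b * (a + b) ≤ b * (x1 * (x2 + x3) + z1 * (z2 + z3)) +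
      a * ((x1 + x2) * x3 + (z1 + z2) * z3) := by
  have key : ∀ (x z c : ℝ), 0 ≤ x → 0 ≤ z → 0 < c → c ≤ x + z →
      ∃ u y : ℝ, 0 ≤ u ∧ u ≤ 1 ∧ c ≤ y ∧ x = u * y ∧ z = (1 - u) * y := by
    intro x z c hx hz hc h
    have hy : 0 < x + z := lt_of_lt_of_le hc h
    refine ⟨x / (x + z), x + z, by positivity, ?_, h, ?_, ?_⟩
    · rw [div_le_one hy]; linarith
    · field_simp
    · field_simp; ring
  obtain ⟨u1, y1, hu1, hu1', hy1, rfl, rfl⟩ := key x1 z1 a hx1 hz1 ha h1
  obtain ⟨u2, y2, hu2, hu2', hy2, rfl, rfl⟩ := key x2 z2 (a + b) hx2 hz2 (by positivity) h2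
  obtain ⟨u3, y3, hu3, hu3', hy3, rfl, rfl⟩ := key x3 z3 b hx3 hz3 hb h3
  have e1 : 0 ≤ 1 - u1 := by linarith
  have e2 : 0 ≤ 1 - u2 := by linarith
  have e3 : 0 ≤ 1 - u3 := by linarith
  have A12 : 0 ≤ u1 * u2 + (1 - u1) * (1 - u2) := by positivity
  have A13 : 0 ≤ u1 * u3 + (1 - u1) * (1 - u3) := by positivity
  have A23 : 0 ≤ u2 * u3 + (1 - u2) * (1 - u3) := by positivity
  have B : 0 ≤ (1 - u1) * (1 - u2) * (1 - u3) + u1 * u2 * u3 := by positivity
  have y1p : 0 < y1 := lt_of_lt_of_le ha hy1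
  have y3p : 0 < y3 := lt_of_lt_of_le hb hy3
  have y2p : 0 < y2 := lt_of_lt_of_le (by positivity) hy2
  have m12 : a * (a + b) ≤ y1 * y2 := mul_le_mul hy1 hy2 (by positivity) y1p.le
  have m13 : a * b ≤ y1 * y3 := mul_le_mul hy1 hy3 (by positivity) y1p.le
  have m23 : (a + b) * b ≤ y2 * y3 := mul_le_mul hy2 hy3 (by positivity) y2p.le
  have n12 : b * (a * (a + b)) * (u1 * u2 + (1 - u1) * (1 - u2)) ≤
      b * (y1 * y2) * (u1 * u2 + (1 - u1) * (1 - u2)) := by gcongr
  have n13 : (a + b) * (a * b) * (u1 * u3 + (1 - u1) * (1 - u3)) ≤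
      (a + b) * (y1 * y3) * (u1 * u3 + (1 - u1) * (1 - u3)) := by gcongr
  have n23 : a * ((a + b) * b) * (u2 * u3 + (1 - u2) * (1 - u3)) ≤
      a * (y2 * y3) * (u2 * u3 + (1 - u2) * (1 - u3)) := by gcongr
  have n0 : 0 ≤ a * b * (a + b) * ((1 - u1) * (1 - u2) * (1 - u3) + u1 * u2 * u3) := by
    positivity
  nlinarith [n12, n13, n23, n0]

/-- one linear constraint: two gaps suffice -/
lemma two_gap (n : ℕ) (g c ξ : ℕ → ℝ) (hg : ∀ j, 0 ≤ g j)
    (hξ : ∑ j ∈ range n, g j * ξ j = 0)
    (h2 : ∀ i j, 0 < ξ i → ξ j < 0 → 0 ≤ -ξ j * c i + ξ i * c j)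
    (h1 : ∀ i, ξ i = 0 → 0 ≤ c i) :
    0 ≤ ∑ j ∈ range n, g j * c j := by
  set P := (range n).filter (fun j => 0 < ξ j) with hP
  set Q := (range n).filter (fun j => ξ j < 0) with hQ
  have split : ∀ f : ℕ → ℝ, ∑ j ∈ range n, f j =
      ∑ j ∈ P, f j + ∑ j ∈ Q, f j + ∑ j ∈ (range n).filter (fun j => ξ j = 0), f j := by
    intro f
    rw [hP, hQ, sum_filter, sum_filter, sum_filter, ← sum_add_distrib, ← sum_add_distrib]
    refine sum_congr rfl fun j _ => ?_
    rcases lt_trichotomy (ξ j) 0 with h | h | h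
    · have a1 : ¬ 0 < ξ j := not_lt.mpr h.le
      have a2 : ¬ ξ j = 0 := h.ne
      simp [a1, a2, h]
    · simp [h]
    · have a1 : ¬ ξ j < 0 := not_lt.mpr h.le
      have a2 : ¬ ξ j = 0 := h.ne'
      simp [a1, a2, h]
  have hZ : 0 ≤ ∑ j ∈ (range n).filter (fun j => ξ j = 0), g j * c j :=
    sum_nonneg fun j hj => mul_nonneg (hg j) (h1 j (mem_filter.mp hj).2)
  have hZ0 : ∑ j ∈ (range n).filter (fun j => ξ j = 0), g j * ξ j = 0 :=
    sum_eq_zero fun j hj => by rw [(mem_filter.mp hj).2, mul_zero]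
  set A := ∑ j ∈ P, g j * ξ j with hA
  have hAQ : ∑ j ∈ Q, g j * (-ξ j) = A := by
    have := split (fun j => g j * ξ j)
    rw [hξ, hZ0] at this
    have e : ∑ j ∈ Q, g j * (-ξ j) = -∑ j ∈ Q, g j * ξ j := by
      rw [← sum_neg_distrib]; exact sum_congr rfl fun j _ => by ring
    rw [e]; linarith
  have hA0 : 0 ≤ A := sum_nonneg fun j hj => mul_nonneg (hg j) (mem_filter.mp hj).2.le
  rw [split (fun j => g j * c j)]
  rcases hA0.eq_or_lt with h | h
  · have z1 : ∀ j ∈ P, g j * ξ j = 0 :=
      (sum_eq_zero_iff_of_nonneg fun j hj => mul_nonneg (hg j) (mem_filter.mp hj).2.le).mp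
        (by rw [← hA]; exact h.symm)
    have z2 : ∀ j ∈ Q, g j * (-ξ j) = 0 :=
      (sum_eq_zero_iff_of_nonneg fun j hj => mul_nonneg (hg j)
        (neg_nonneg.mpr (mem_filter.mp hj).2.le)).mp (by rw [hAQ]; exact h.symm)
    have s1 : ∑ j ∈ P, g j * c j = 0 := sum_eq_zero fun j hj => by
      have hp := (mem_filter.mp hj).2
      have := z1 j hj
      rcases mul_eq_zero.mp this with h' | h'
      · rw [h', zero_mul]
      · exact absurd h' hp.ne'
    have s2 : ∑ j ∈ Q, g j * c j = 0 := sum_eq_zero fun j hj => by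
      have hp := (mem_filter.mp hj).2
      have := z2 j hj
      rcases mul_eq_zero.mp this with h' | h'
      · rw [h', zero_mul]
      · exact absurd (neg_eq_zero.mp h') hp.ne
    rw [s1, s2]; linarith
  · have e1 : A * ∑ j ∈ P, g j * c j = ∑ i ∈ P, ∑ j ∈ Q, g i * g j * (-ξ j * c i) := by
      rw [← hAQ, sum_mul_sum, sum_comm]
      exact sum_congr rfl fun i _ => sum_congr rfl fun j _ => by ring
    have e2 : A * ∑ j ∈ Q, g j * c j = ∑ i ∈ P, ∑ j ∈ Q, g i * g j * (ξ i * c j) := by
      rw [hA, sum_mul_sum]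
      exact sum_congr rfl fun i _ => sum_congr rfl fun j _ => by ring
    have e3 : 0 ≤ A * (∑ j ∈ P, g j * c j + ∑ j ∈ Q, g j * c j) := by
      rw [mul_add, e1, e2, ← sum_add_distrib]
      refine sum_nonneg fun i hi => ?_
      rw [← sum_add_distrib]
      refine sum_nonneg fun j hj => ?_
      have := h2 i j (mem_filter.mp hi).2 (mem_filter.mp hj).2
      have hgg : 0 ≤ g i * g j := mul_nonneg (hg i) (hg j)
      nlinarith
    have e4 : 0 ≤ ∑ j ∈ P, g j * c j + ∑ j ∈ Q, g j * c j := by
      by_contra hc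
      push Not at hc
      nlinarith
    linarith

/-- partial sums below and above a threshold -/
noncomputable def lo (n : ℕ) (f : ℕ → ℝ) (j : ℕ) : ℝ := ∑ k ∈ range n, if k ≤ j then f k else 0

noncomputable def hi (n : ℕ) (f : ℕ → ℝ) (j : ℕ) : ℝ := ∑ k ∈ range n, if j < k then f k else 0

lemma lo_add_hi (n : ℕ) (f : ℕ → ℝ) (j : ℕ) : lo n f j + hi n f j = ∑ k ∈ range n, f k := by
  rw [lo, hi, ← sum_add_distrib]
  refine sum_congr rfl fun k _ => ?_
  by_cases h : k ≤ j
  · simp [h, not_lt.mpr h]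
  · simp [h, not_le.mp h]

lemma gap_sum (n : ℕ) (m : ℕ → ℝ) (k l : ℕ) (hl : l < n) :
    (∑ j ∈ range n, if k ≤ j ∧ j < l then m (j + 1) - m j else 0) =
      if k < l then m l - m k else 0 := by
  rw [← sum_filter]
  have : (range n).filter (fun j => k ≤ j ∧ j < l) = Ico k l := by
    ext j; simp only [mem_filter, mem_range, mem_Ico]; constructor
    · rintro ⟨_, h⟩; exact h
    · rintro h; exact ⟨lt_trans h.2 hl, h⟩
  rw [this]
  by_cases h : k < l
  · rw [if_pos h, sum_Ico_eq_sub _ h.le, sum_range_sub, sum_range_sub]; ring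
  · rw [if_neg h, Ico_eq_empty_of_le (not_lt.mp h), sum_empty]

lemma pair_sum (n : ℕ) (m f : ℕ → ℝ) :
    (∑ k ∈ range n, ∑ l ∈ range n, if k < l then (m l - m k) * (f k * f l) else 0) =
      ∑ j ∈ range n, (m (j + 1) - m j) * (lo n f j * hi n f j) := by
  have e1 : ∀ k ∈ range n, ∀ l ∈ range n,
      (if k < l then (m l - m k) * (f k * f l) else 0) =
        ∑ j ∈ range n, (m (j + 1) - m j) *
          ((if k ≤ j then f k else 0) * (if j < l then f l else 0)) := by
    intro k _ l hl
    have h := gap_sum n m k l (mem_range.mp hl)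
    have h2 : (if k < l then (m l - m k) * (f k * f l) else 0) =
        (if k < l then m l - m k else 0) * (f k * f l) := by
      split_ifs <;> simp
    rw [h2, ← h, sum_mul]
    refine sum_congr rfl fun j _ => ?_
    by_cases a : k ≤ j <;> by_cases b : j < l <;> simp [a, b]
  rw [sum_congr rfl fun k hk => sum_congr rfl fun l hl => e1 k hk l hl]
  rw [sum_congr rfl fun k _ => sum_comm, sum_comm]
  refine sum_congr rfl fun j _ => ?_
  rw [lo, hi, sum_mul_sum, mul_sum]
  exact sum_congr rfl fun k _ => by rw [mul_sum]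

lemma lin_sum (n : ℕ) (m f : ℕ → ℝ) :
    (∑ l ∈ range n, f l * m l) =
      m 0 * (∑ l ∈ range n, f l) + ∑ j ∈ range n, (m (j + 1) - m j) * hi n f j := by
  have e1 : ∀ l ∈ range n, f l * m l = m 0 * f l +
      ∑ j ∈ range n, (m (j + 1) - m j) * (if j < l then f l else 0) := by
    intro l hl
    have h := gap_sum n m 0 l (mem_range.mp hl)
    have h2 : (∑ j ∈ range n, (m (j + 1) - m j) * (if j < l then f l else 0)) =
        (∑ j ∈ range n, if 0 ≤ j ∧ j < l then m (j + 1) - m j else 0) * f l := by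
      rw [sum_mul]
      refine sum_congr rfl fun j _ => ?_
      by_cases b : j < l <;> simp [b]
    rw [h2, h]
    rcases Nat.eq_zero_or_pos l with r | r
    · subst r; simp; ring
    · rw [if_pos r]; ring
  rw [sum_congr rfl e1, sum_add_distrib, ← mul_sum, sum_comm]
  congr 1
  refine sum_congr rfl fun j _ => ?_
  rw [hi, mul_sum]

lemma hi_mono_diff (n : ℕ) (f : ℕ → ℝ) (i j : ℕ) (hij : i ≤ j) :
    hi n f i - hi n f j = ∑ k ∈ range n, if i < k ∧ k ≤ j then f k else 0 := by
  rw [hi, hi, ← sum_sub_distrib]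
  refine sum_congr rfl fun k _ => ?_
  by_cases a : i < k <;> by_cases b : j < k
  · simp [a, b, not_le.mpr b]
  · simp [a, b, not_lt.mp b]
  · exact absurd (lt_of_le_of_lt hij b) a
  · simp [a, b]

/-- line version of the two-colour lemma, slopes in increasing order -/
lemma line_mono (n : ℕ) (m x y : ℕ → ℝ) (hm : ∀ j, m j ≤ m (j + 1))
    (hxy : ∀ k, |y k| = |x k|)
    (h0 : ∑ k ∈ range n, y k = 0) (h1 : ∑ k ∈ range n, y k * m k = 0) :
    0 ≤ ∑ k ∈ range n, ∑ l ∈ range n, if k < l then
      (m l - m k) * (max (x k) 0 * max (x l) 0 + max (-x k) 0 * max (-x l) 0 + y k * y l)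
      else 0 := by
  set p : ℕ → ℝ := fun k => max (x k) 0 with hp
  set q : ℕ → ℝ := fun k => max (-x k) 0 with hq
  have hp0 : ∀ k, 0 ≤ p k := fun k => le_max_right _ _
  have hq0 : ∀ k, 0 ≤ q k := fun k => le_max_right _ _
  have hpq : ∀ k, |y k| ≤ p k + q k := by
    intro k
    rw [hxy k, hp, hq]
    rcases le_total 0 (x k) with h | h
    · simp [abs_of_nonneg h, h]
    · simp [abs_of_nonpos h, h]
  have e : (∑ k ∈ range n, ∑ l ∈ range n, if k < l then
      (m l - m k) * (max (x k) 0 * max (x l) 0 + max (-x k) 0 * max (-x l) 0 + y k * y l)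
      else 0) = ∑ j ∈ range n, (m (j + 1) - m j) *
        (lo n p j * hi n p j + lo n q j * hi n q j + lo n y j * hi n y j) := by
    have := pair_sum n m p
    have := pair_sum n m q
    have := pair_sum n m y
    calc _ = (∑ k ∈ range n, ∑ l ∈ range n, if k < l then (m l - m k) * (p k * p l) else 0) +
          (∑ k ∈ range n, ∑ l ∈ range n, if k < l then (m l - m k) * (q k * q l) else 0) +
          (∑ k ∈ range n, ∑ l ∈ range n, if k < l then (m l - m k) * (y k * y l) else 0) := by
            rw [← sum_add_distrib, ← sum_add_distrib]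
            refine sum_congr rfl fun k _ => ?_
            rw [← sum_add_distrib, ← sum_add_distrib]
            refine sum_congr rfl fun l _ => ?_
            by_cases h : k < l
            · simp only [h, if_true, hp, hq]; ring
            · simp [h]
      _ = _ := by
            rw [pair_sum, pair_sum, pair_sum, ← sum_add_distrib, ← sum_add_distrib]
            exact sum_congr rfl fun j _ => by ring
  rw [e]
  have hlo : ∀ j, lo n y j = -hi n y j := by
    intro j; have := lo_add_hi n y j; rw [h0] at this; linarith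
  have hlin := lin_sum n m y
  rw [h1, h0, mul_zero, zero_add] at hlin
  have nn : ∀ (f : ℕ → ℝ), (∀ k, 0 ≤ f k) → ∀ (c : ℕ → Prop) [DecidablePred c],
      0 ≤ ∑ k ∈ range n, if c k then f k else 0 := by
    intro f hf c _
    refine sum_nonneg fun k _ => ?_
    split_ifs
    · exact hf k
    · exact le_refl 0
  have bd : ∀ (c : ℕ → Prop) [DecidablePred c],
      |∑ k ∈ range n, if c k then y k else 0| ≤
        (∑ k ∈ range n, if c k then p k else 0) + (∑ k ∈ range n, if c k then q k else 0) := by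
    intro c _
    rw [← sum_add_distrib]
    refine (abs_sum_le_sum_abs _ _).trans (sum_le_sum fun k _ => ?_)
    by_cases h : c k
    · simp only [h, if_true]; exact hpq k
    · simp [h]
  refine two_gap n (fun j => m (j + 1) - m j)
    (fun j => lo n p j * hi n p j + lo n q j * hi n q j + lo n y j * hi n y j) (fun j => hi n y j)
    (fun j => sub_nonneg.mpr (hm j)) hlin.symm ?_ ?_
  · -- two gaps
    have main : ∀ i j, i ≤ j → hi n y i * hi n y j < 0 →
        0 ≤ |hi n y j| * (lo n p i * hi n p i + lo n q i * hi n q i + lo n y i * hi n y i) +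
          |hi n y i| * (lo n p j * hi n p j + lo n q j * hi n q j + lo n y j * hi n y j) := by
      intro i j hij hneg
      set a := |hi n y i| with ha
      set b := |hi n y j| with hb
      have a0 : 0 < a := abs_pos.mpr (fun h => by rw [h, zero_mul] at hneg; exact lt_irrefl _ hneg)
      have b0 : 0 < b := abs_pos.mpr (fun h => by rw [h, mul_zero] at hneg; exact lt_irrefl _ hneg)
      have x3 : hi n p j = ∑ k ∈ range n, if j < k then p k else 0 := rfl
      have t := three a b (lo n p i) (hi n p i - hi n p j) (hi n p j)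
        (lo n q i) (hi n q i - hi n q j) (hi n q j) a0 b0 (nn p hp0 _)
        (by rw [hi_mono_diff n p i j hij]; exact nn p hp0 _) (nn p hp0 _) (nn q hq0 _)
        (by rw [hi_mono_diff n q i j hij]; exact nn q hq0 _) (nn q hq0 _)
        (by
          have := bd (fun k => k ≤ i)
          have h2 : |lo n y i| ≤ lo n p i + lo n q i := this
          rw [hlo i, abs_neg] at h2; exact h2)
        (by
          have := bd (fun k => i < k ∧ k ≤ j)
          rw [← hi_mono_diff n y i j hij, ← hi_mono_diff n p i j hij,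
            ← hi_mono_diff n q i j hij] at this
          have h3 : a + b = |hi n y i - hi n y j| := by
            rw [ha, hb]
            rcases mul_neg_iff.mp hneg with ⟨h4, h5⟩ | ⟨h4, h5⟩
            · rw [abs_of_pos h4, abs_of_neg h5, abs_of_pos (by linarith)]; ring
            · rw [abs_of_neg h4, abs_of_pos h5, abs_of_neg (by linarith)]; ring
          rw [h3]; exact this)
        (bd (fun k => j < k))
      have l1 : ∀ f : ℕ → ℝ, lo n f i + (hi n f i - hi n f j) = lo n f j := by
        intro f; have h5 := lo_add_hi n f i; have h6 := lo_add_hi n f j; linarith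
      have l2 : ∀ f : ℕ → ℝ, (hi n f i - hi n f j) + hi n f j = hi n f i := by
        intro f; ring
      rw [l1, l1, l2, l2] at t
      have s1 : lo n y i * hi n y i = -(a * a) := by rw [hlo i, ha, abs_mul_abs_self]; ring
      have s2 : lo n y j * hi n y j = -(b * b) := by rw [hlo j, hb, abs_mul_abs_self]; ring
      rw [s1, s2]
      nlinarith
    intro i j hi0 hj0
    rcases le_total i j with h | h
    · have := main i j h (mul_neg_of_pos_of_neg hi0 hj0)
      rw [abs_of_pos hi0, abs_of_neg hj0] at this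
      linarith
    · have := main j i h (mul_neg_of_neg_of_pos hj0 hi0)
      rw [abs_of_pos hi0, abs_of_neg hj0] at this
      linarith
  · intro i hi0
    change hi n y i = 0 at hi0
    rw [hi0, mul_zero, add_zero]
    have h1 := nn p hp0 (fun k => k ≤ i)
    have h2 := nn p hp0 (fun k => i < k)
    have h3 := nn q hq0 (fun k => k ≤ i)
    have h4 := nn q hq0 (fun k => i < k)
    have h5 : 0 ≤ lo n p i * hi n p i := mul_nonneg h1 h2
    have h6 : 0 ≤ lo n q i * hi n q i := mul_nonneg h3 h4
    linarith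

/-- line version, any order of the slopes -/
lemma line (n : ℕ) (m x y : ℕ → ℝ) (hxy : ∀ k, |y k| = |x k|)
    (h0 : ∑ k ∈ range n, y k = 0) (h1 : ∑ k ∈ range n, y k * m k = 0) :
    0 ≤ ∑ k ∈ range n, ∑ l ∈ range n, |m l - m k| *
      (max (x k) 0 * max (x l) 0 + max (-x k) 0 * max (-x l) 0 + y k * y l) := by
  rcases Nat.eq_zero_or_pos n with hn | hn
  · subst hn; simp
  obtain ⟨N, rfl⟩ : ∃ N, n = N + 1 := ⟨n - 1, by omega⟩
  set σ : Equiv.Perm (Fin (N + 1)) := Tuple.sort (fun i : Fin (N + 1) => m i) with hσ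
  have hmono : Monotone ((fun i : Fin (N + 1) => m i) ∘ σ) := Tuple.monotone_sort _
  set τ : ℕ → ℕ := fun j => (σ ⟨min j N, by omega⟩ : Fin (N + 1)) with hτ
  have hm : ∀ j, m (τ j) ≤ m (τ (j + 1)) := by
    intro j
    apply hmono
    rw [Fin.mk_le_mk]
    omega
  have hsum : ∀ f : ℕ → ℝ, ∑ k ∈ range (N + 1), f (τ k) = ∑ k ∈ range (N + 1), f k := by
    intro f
    rw [sum_range, sum_range]
    rw [← Equiv.sum_comp σ (fun i : Fin (N + 1) => f i)]
    refine sum_congr rfl fun i _ => ?_
    have : (⟨min (i : ℕ) N, by omega⟩ : Fin (N + 1)) = i := by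
      apply Fin.ext
      simp only
      have := i.isLt
      omega
    simp only [hτ, this]
  have key := line_mono (N + 1) (fun j => m (τ j)) (fun j => x (τ j)) (fun j => y (τ j)) hm
    (fun k => hxy (τ k)) (by rw [hsum (fun k => y k)]; exact h0)
    (by rw [hsum (fun k => y k * m k)]; exact h1)
  have e : ∑ k ∈ range (N + 1), ∑ l ∈ range (N + 1), |m l - m k| *
      (max (x k) 0 * max (x l) 0 + max (-x k) 0 * max (-x l) 0 + y k * y l) =
      ∑ k ∈ range (N + 1), ∑ l ∈ range (N + 1), |m (τ l) - m (τ k)| *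
      (max (x (τ k)) 0 * max (x (τ l)) 0 + max (-x (τ k)) 0 * max (-x (τ l)) 0 +
        y (τ k) * y (τ l)) := by
    rw [← hsum (fun k => ∑ l ∈ range (N + 1), |m l - m k| *
      (max (x k) 0 * max (x l) 0 + max (-x k) 0 * max (-x l) 0 + y k * y l))]
    refine sum_congr rfl fun k _ => ?_
    rw [← hsum (fun l => |m l - m (τ k)| *
      (max (x (τ k)) 0 * max (x l) 0 + max (-x (τ k)) 0 * max (-x l) 0 + y (τ k) * y l))]
  rw [e]
  set S : ℕ → ℕ → ℝ := fun k l => max (x (τ k)) 0 * max (x (τ l)) 0 +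
    max (-x (τ k)) 0 * max (-x (τ l)) 0 + y (τ k) * y (τ l) with hS
  have hmm : ∀ k l, k ≤ l → m (τ k) ≤ m (τ l) := by
    intro k l hkl
    exact monotone_nat_of_le_succ (f := fun j => m (τ j)) hm hkl
  have e2 : ∑ k ∈ range (N + 1), ∑ l ∈ range (N + 1), |m (τ l) - m (τ k)| * S k l =
      (∑ k ∈ range (N + 1), ∑ l ∈ range (N + 1),
        if k < l then (m (τ l) - m (τ k)) * S k l else 0) +
      (∑ k ∈ range (N + 1), ∑ l ∈ range (N + 1),
        if l < k then (m (τ k) - m (τ l)) * S l k else 0) := by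
    rw [← sum_add_distrib]
    refine sum_congr rfl fun k _ => ?_
    rw [← sum_add_distrib]
    refine sum_congr rfl fun l _ => ?_
    have hs : S l k = S k l := by simp only [hS]; ring
    rcases lt_trichotomy k l with h | h | h
    · rw [if_pos h, if_neg (not_lt.mpr h.le), abs_of_nonneg (sub_nonneg.mpr (hmm k l h.le)),
        add_zero]
    · subst h; simp
    · rw [if_pos h, if_neg (not_lt.mpr h.le), abs_of_nonpos (sub_nonpos.mpr (hmm l k h.le)), hs]
      ring
  have e3 : (∑ k ∈ range (N + 1), ∑ l ∈ range (N + 1),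
        if l < k then (m (τ k) - m (τ l)) * S l k else 0) =
      ∑ k ∈ range (N + 1), ∑ l ∈ range (N + 1),
        if k < l then (m (τ l) - m (τ k)) * S k l else 0 := sum_comm
  change 0 ≤ ∑ k ∈ range (N + 1), ∑ l ∈ range (N + 1), |m (τ l) - m (τ k)| * S k l
  rw [e2, e3]
  have key' : 0 ≤ ∑ k ∈ range (N + 1), ∑ l ∈ range (N + 1),
        if k < l then (m (τ l) - m (τ k)) * S k l else 0 := key
  linarith

/-! ## Polygon version -/

/-- the area of a closed polygon as a sum over pairs -/
lemma area_pairs (n : ℕ) (f P : ℕ → R2) (hP : ∀ k, P (k + 1) = P k + f k) (hcl : P n = P 0) :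
    ∑ k ∈ range n, cp (P k) (P (k + 1)) =
      ∑ j ∈ range n, ∑ k ∈ range n, if j < k then cp (f j) (f k) else 0 := by
  have h1 : ∀ (w : R2) (k : ℕ), ∑ j ∈ range k, cp (f j) w = cp (P k - P 0) w := by
    intro w k
    induction k with
    | zero => simp [cp]
    | succ k ih =>
      rw [sum_range_succ, ih, hP k]
      simp only [cp, Prod.fst_add, Prod.snd_add, Prod.fst_sub, Prod.snd_sub]
      ring
  have h2 : ∀ k ∈ range n, cp (P k) (P (k + 1)) =
      cp (P 0) (f k) + ∑ j ∈ range n, if j < k then cp (f j) (f k) else 0 := by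
    intro k hk
    have : (range n).filter (fun j => j < k) = range k := by
      ext j; simp only [mem_filter, mem_range] at *; omega
    rw [← sum_filter, this, h1, hP k]
    simp only [cp, Prod.fst_add, Prod.snd_add, Prod.fst_sub, Prod.snd_sub]
    ring
  have h3 : ∑ k ∈ range n, cp (P 0) (f k) = 0 := by
    have e : ∀ k, cp (P 0) (f k) = cp (P 0) (P (k + 1)) - cp (P 0) (P k) := by
      intro k
      rw [hP k]
      simp only [cp, Prod.fst_add, Prod.snd_add]
      ring
    rw [sum_congr rfl fun k _ => e k, sum_range_sub (fun k => cp (P 0) (P k)), hcl, sub_self]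
  rw [sum_congr rfl h2, sum_add_distrib, h3, zero_add, sum_comm]

/-- two blocks: the pairs from different blocks cancel -/
lemma block_sum (n p : ℕ) (b τ σ : ℕ → ℝ) (h1 : ∀ k < p, 0 < σ k)
    (h2 : ∀ k, p ≤ k → k < n → σ k < 0)
    (mono : ∀ j k, j < k → k < n → 0 < σ j * σ k → τ j ≤ τ k)
    (hb : ∑ k ∈ range n, b k = 0) (hbt : ∑ k ∈ range n, b k * τ k = 0) :
    2 * (∑ j ∈ range n, ∑ k ∈ range n, if j < k then b j * b k * (τ k - τ j) else 0) =
      ∑ j ∈ range n, ∑ k ∈ range n, if 0 < σ j * σ k then b j * b k * |τ k - τ j| else 0 := by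
  have R : (∑ j ∈ range n, ∑ k ∈ range n, if 0 < σ j * σ k then b j * b k * |τ k - τ j| else 0) =
      (∑ j ∈ range n, ∑ k ∈ range n,
        if j < k ∧ 0 < σ j * σ k then b j * b k * (τ k - τ j) else 0) +
      (∑ j ∈ range n, ∑ k ∈ range n,
        if k < j ∧ 0 < σ k * σ j then b k * b j * (τ j - τ k) else 0) := by
    rw [← sum_add_distrib]
    refine sum_congr rfl fun j hj => ?_
    rw [← sum_add_distrib]
    refine sum_congr rfl fun k hk => ?_
    rw [mem_range] at hj hk
    by_cases hs : 0 < σ j * σ k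
    · have hs' : 0 < σ k * σ j := by rw [mul_comm]; exact hs
      rcases lt_trichotomy j k with h | h | h
      · rw [if_pos hs, if_pos ⟨h, hs⟩, if_neg (fun hh => absurd hh.1 (not_lt.mpr h.le)),
          abs_of_nonneg (sub_nonneg.mpr (mono j k h hk hs)), add_zero]
      · subst h; simp
      · rw [if_pos hs, if_neg (fun hh => absurd hh.1 (not_lt.mpr h.le)), if_pos ⟨h, hs'⟩,
          abs_of_nonpos (sub_nonpos.mpr (mono k j h hj hs'))]
        ring
    · have hs' : ¬ 0 < σ k * σ j := by rw [mul_comm]; exact hs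
      rw [if_neg hs, if_neg (fun hh => hs hh.2), if_neg (fun hh => hs' hh.2), add_zero]
  have R2' : (∑ j ∈ range n, ∑ k ∈ range n,
        if k < j ∧ 0 < σ k * σ j then b k * b j * (τ j - τ k) else 0) =
      ∑ j ∈ range n, ∑ k ∈ range n,
        if j < k ∧ 0 < σ j * σ k then b j * b k * (τ k - τ j) else 0 := sum_comm
  have L : (∑ j ∈ range n, ∑ k ∈ range n, if j < k then b j * b k * (τ k - τ j) else 0) =
      (∑ j ∈ range n, ∑ k ∈ range n,
        if j < k ∧ 0 < σ j * σ k then b j * b k * (τ k - τ j) else 0) +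
      (∑ j ∈ range n, ∑ k ∈ range n,
        ((if j < p then b j else 0) * (if p ≤ k then b k * τ k else 0) -
        (if j < p then b j * τ j else 0) * (if p ≤ k then b k else 0))) := by
    rw [← sum_add_distrib]
    refine sum_congr rfl fun j hj => ?_
    rw [← sum_add_distrib]
    refine sum_congr rfl fun k hk => ?_
    rw [mem_range] at hj hk
    by_cases hjp : j < p
    · by_cases hkp : k < p
      · have hs : 0 < σ j * σ k := mul_pos (h1 j hjp) (h1 k hkp)
        simp [hjp, not_le.mpr hkp, hs]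
      · have hkp' : p ≤ k := not_lt.mp hkp
        have hs : ¬ 0 < σ j * σ k :=
          not_lt.mpr (mul_nonpos_of_nonneg_of_nonpos (h1 j hjp).le (h2 k hkp' hk).le)
        have hjk : j < k := lt_of_lt_of_le hjp hkp'
        simp only [hjp, hkp', hs, hjk, if_true, and_false, if_false]
        ring
    · have hjp' : p ≤ j := not_lt.mp hjp
      by_cases hjk : j < k
      · have hs : 0 < σ j * σ k :=
          mul_pos_of_neg_of_neg (h2 j hjp' hj) (h2 k (by omega) hk)
        simp [hjp, hjk, hs]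
      · simp [hjp, hjk]
  have C : (∑ j ∈ range n, ∑ k ∈ range n,
        ((if j < p then b j else 0) * (if p ≤ k then b k * τ k else 0) -
        (if j < p then b j * τ j else 0) * (if p ≤ k then b k else 0))) = 0 := by
    have c1 : ∀ f : ℕ → ℝ, (∑ k ∈ range n, if p ≤ k then f k else 0) =
        (∑ k ∈ range n, f k) - ∑ k ∈ range n, if k < p then f k else 0 := by
      intro f
      rw [← sum_sub_distrib]
      refine sum_congr rfl fun k _ => ?_
      by_cases hk : k < p
      · simp [hk, not_le.mpr hk]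
      · simp [hk, not_lt.mp hk]
    simp only [sum_sub_distrib]
    rw [← sum_mul_sum, ← sum_mul_sum, c1 (fun k => b k * τ k), c1 b, hb, hbt]
    ring
  rw [L, C, R, R2']
  ring

lemma sum_shift {n : ℕ} {f : ℕ → ℝ} (h : ∀ i, f (i + n) = f i) (s : ℕ) :
    ∑ i ∈ range n, f (s + i) = ∑ i ∈ range n, f i := by
  induction s with
  | zero => simp
  | succ s ih =>
    rw [← ih]
    have h1 := sum_range_succ (fun i => f (s + i)) n
    have h2 := sum_range_succ' (fun i => f (s + i)) n
    have h3 : f (s + n) = f (s + 0) := by rw [add_zero]; exact h s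
    have h4 : ∑ i ∈ range n, f (s + 1 + i) = ∑ i ∈ range n, f (s + (i + 1)) :=
      sum_congr rfl fun i _ => by rw [add_assoc, add_comm 1 i]
    rw [h4]
    linarith

lemma sum_shift2 {n : ℕ} {f : ℕ → ℕ → ℝ} (h1 : ∀ i j, f (i + n) j = f i j)
    (h2 : ∀ i j, f i (j + n) = f i j) (s : ℕ) :
    ∑ i ∈ range n, ∑ j ∈ range n, f (s + i) (s + j) = ∑ i ∈ range n, ∑ j ∈ range n, f i j := by
  rw [sum_congr rfl fun i _ => sum_shift (f := fun j => f (s + i) j) (fun j => h2 _ j) s]
  exact sum_shift (f := fun i => ∑ j ∈ range n, f i j)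
    (fun i => sum_congr rfl fun j _ => h1 i j) s

variable {n : ℕ} {ν v : ℕ → R2} {ℓ : ℕ → ℝ}

/-- slope of a normal with respect to `u` -/
noncomputable def tau (u : R2) (a : R2) : ℝ := cp u a / (dp u a * dp u u)

lemma cp_tau (u a b : R2) (ha : dp u a ≠ 0) (hb : dp u b ≠ 0) (hu : dp u u ≠ 0) :
    cp a b = dp u a * dp u b * (tau u b - tau u a) := by
  unfold tau
  field_simp
  simp only [cp, dp]
  ring

lemma uu_pos (u a : R2) (ha : dp u a ≠ 0) : 0 < dp u u := by
  have h0 : 0 ≤ dp u u := by simp only [dp]; nlinarith [sq_nonneg u.1, sq_nonneg u.2]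
  refine lt_of_le_of_ne h0 fun h => ha ?_
  have h1 : u.1 = 0 := by
    simp only [dp] at h; nlinarith [sq_nonneg u.1, sq_nonneg u.2]
  have h2 : u.2 = 0 := by
    simp only [dp] at h; nlinarith [sq_nonneg u.1, sq_nonneg u.2]
  simp [dp, h1, h2]

/-- **Area of a closed real polygon over `F`, cut along a generic direction `u`**: with `P` the vertices
(`P (k+1) = P k + z k ℓ k rt (ν k)`), `4 |P|` is the sum over the ordered pairs on the same side of the cut. -/
theorem area_cut (h : Poly n ν v ℓ) (hinj : Order.Inj n ν) (u : R2) (hu : ∀ k, dp u (ν k) ≠ 0)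
    (z : ℕ → ℝ) (hz : ∀ k, z (k + n) = z k) (P : ℕ → R2) (hPp : ∀ k, P (k + n) = P k)
    (hP : ∀ k, P (k + 1) = P k + (z k * ℓ k) • rt (ν k)) :
    4 * ar n P = ∑ j ∈ range n, ∑ k ∈ range n,
      if 0 < dp u (ν j) * dp u (ν k) then z j * z k * (ℓ j * ℓ k * |cp (ν j) (ν k)|) else 0 := by
  obtain ⟨s, p, hp0, hpn, hs1, hs2⟩ := Order.blocks h hinj u hu
  have huu : 0 < dp u u := uu_pos u _ (hu 0)
  set b : ℕ → ℝ := fun k => z (s + k) * ℓ (s + k) * dp u (ν (s + k)) with hb
  set τ : ℕ → ℝ := fun k => tau u (ν (s + k)) with hτ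
  set σ : ℕ → ℝ := fun k => dp u (ν (s + k)) with hσ
  set f : ℕ → R2 := fun k => (z (s + k) * ℓ (s + k)) • rt (ν (s + k)) with hf
  have hPf : ∀ k, P (s + (k + 1)) = P (s + k) + f k := fun k => hP (s + k)
  have hcl : P (s + n) = P (s + 0) := hPp s
  have A1 := area_pairs n f (fun k => P (s + k)) hPf hcl
  have A2 : ∑ k ∈ range n, cp (P (s + k)) (P (s + (k + 1))) =
      ∑ k ∈ range n, cp (P k) (P (k + 1)) := by
    exact sum_shift (f := fun k => cp (P k) (P (k + 1)))
      (fun k => by rw [hPp k, show k + n + 1 = k + 1 + n by ring, hPp (k + 1)]) s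
  have A3 : ∀ j k, cp (f j) (f k) = b j * b k * (τ k - τ j) := by
    intro j k
    have e := cp_tau u (ν (s + j)) (ν (s + k)) (hu _) (hu _) huu.ne'
    have e2 : cp (f j) (f k) = z (s + j) * ℓ (s + j) * (z (s + k) * ℓ (s + k)) *
        cp (ν (s + j)) (ν (s + k)) := by
      simp only [hf, cp, rt, Prod.smul_fst, Prod.smul_snd, smul_eq_mul]
      ring
    rw [e2, e]
    simp only [hb, hτ]
    ring
  have cl1 : ∑ k ∈ range n, b k = 0 := by
    have e : ∀ k, b k = cp u (P (s + (k + 1))) - cp u (P (s + k)) := by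
      intro k
      rw [hPf k]
      simp only [hb, hf, cp, dp, rt, Prod.fst_add, Prod.snd_add, Prod.smul_fst, Prod.smul_snd,
        smul_eq_mul]
      ring
    rw [sum_congr rfl fun k _ => e k, sum_range_sub (fun k => cp u (P (s + k))), hcl, sub_self]
  have cl2 : ∑ k ∈ range n, b k * τ k = 0 := by
    have e : ∀ k, b k * τ k =
        -(dp u (P (s + (k + 1))) / dp u u) - (-(dp u (P (s + k)) / dp u u)) := by
      intro k
      rw [hPf k]
      have h1 := hu (s + k)
      have h2 : b k * τ k = z (s + k) * ℓ (s + k) * cp u (ν (s + k)) / dp u u := by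
        simp only [hb, hτ, tau]
        field_simp
      rw [h2]
      have h3 : dp u (P (s + k) + f k) = dp u (P (s + k)) -
          z (s + k) * ℓ (s + k) * cp u (ν (s + k)) := by
        simp only [hf, cp, dp, rt, Prod.fst_add, Prod.snd_add, Prod.smul_fst, Prod.smul_snd,
          smul_eq_mul]
        ring
      rw [h3]
      ring
    rw [sum_congr rfl fun k _ => e k,
      sum_range_sub (fun k => -(dp u (P (s + k)) / dp u u)), hcl, sub_self]
  have mono1 : ∀ j k, j < k → k < n → 0 < σ j * σ k → τ j ≤ τ k := by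
    have step : ∀ k, 0 < σ k * σ (k + 1) → τ k < τ (k + 1) := by
      intro k hk
      have t := h.turn (s + k)
      rw [cp_tau u _ _ (hu (s + k)) (hu (s + k + 1)) huu.ne'] at t
      by_contra hc
      have hc' : τ (k + 1) - τ k ≤ 0 := by linarith [not_lt.mp hc]
      have : σ k * σ (k + 1) * (τ (k + 1) - τ k) ≤ 0 :=
        mul_nonpos_of_nonneg_of_nonpos hk.le hc'
      exact absurd t (not_lt.mpr this)
    intro j k hjk
    induction k, hjk using Nat.le_induction with
    | base =>
      intro _ hs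
      exact (step j hs).le
    | succ k hk ih =>
      intro hkn hs
      have hjk' : j < k := hk
      by_cases hkp : k + 1 < p
      · have a1 := hs1 j (by omega)
        have a2 := hs1 k (by omega)
        have a3 := hs1 (k + 1) hkp
        exact (ih (by omega) (mul_pos a1 a2)).trans (step k (mul_pos a2 a3)).le
      · have a3 := hs2 (k + 1) (by omega) hkn
        have a1 : σ j < 0 := by
          by_contra hc
          exact absurd hs (not_lt.mpr (mul_nonpos_of_nonneg_of_nonpos (not_lt.mp hc) a3.le))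
        have hpj : p ≤ j := by
          by_contra hc
          exact absurd (hs1 j (not_le.mp hc)) (not_lt.mpr a1.le)
        have a2 := hs2 k (by omega) (by omega)
        exact (ih (by omega) (mul_pos_of_neg_of_neg a1 a2)).trans
          (step k (mul_pos_of_neg_of_neg a2 a3)).le
  have B := block_sum n p b τ σ hs1 hs2 mono1 cl1 cl2
  have D : (∑ j ∈ range n, ∑ k ∈ range n,
      if 0 < σ j * σ k then b j * b k * |τ k - τ j| else 0) =
      ∑ j ∈ range n, ∑ k ∈ range n,
      if 0 < dp u (ν j) * dp u (ν k) then z j * z k * (ℓ j * ℓ k * |cp (ν j) (ν k)|) else 0 := by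
    have s2 := sum_shift2 (n := n) (f := fun j k => if 0 < dp u (ν j) * dp u (ν k) then
      z j * z k * (ℓ j * ℓ k * |cp (ν j) (ν k)|) else 0)
      (fun i j => by simp only [h.pν, h.pℓ, hz]) (fun i j => by simp only [h.pν, h.pℓ, hz]) s
    rw [← s2]
    refine sum_congr rfl fun j _ => sum_congr rfl fun k _ => ?_
    by_cases hs : 0 < dp u (ν (s + j)) * dp u (ν (s + k))
    · have hs' : 0 < σ j * σ k := hs
      rw [if_pos hs', if_pos hs, cp_tau u _ _ (hu (s + j)) (hu (s + k)) huu.ne', abs_mul,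
        abs_of_pos hs]
      simp only [hb, hτ]
      ring
    · have hs' : ¬ 0 < σ j * σ k := hs
      rw [if_neg hs', if_neg hs]
  rw [← D, ← B, ar, ← sum_div, ← A2]
  have A1' : ∑ k ∈ range n, cp (P (s + k)) (P (s + (k + 1))) =
      ∑ j ∈ range n, ∑ k ∈ range n, if j < k then b j * b k * (τ k - τ j) else 0 := by
    rw [show (∑ k ∈ range n, cp (P (s + k)) (P (s + (k + 1)))) =
      ∑ j ∈ range n, ∑ k ∈ range n, if j < k then cp (f j) (f k) else 0 from A1]
    refine sum_congr rfl fun j _ => sum_congr rfl fun k _ => ?_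
    rw [A3]
  rw [A1']
  ring

/-- **(KN)**: exact content of the two-colour lemma.  Ordered pairs. -/
theorem KN (h : Poly n ν v ℓ) (hinj : Order.Inj n ν)
    (z : ℕ → ℝ) (hz : ∀ k, z (k + n) = z k) (P : ℕ → R2) (hPp : ∀ k, P (k + n) = P k)
    (hP : ∀ k, P (k + 1) = P k + (z k * ℓ k) • rt (ν k)) :
    -8 * ar n P ≤ ∑ j ∈ range n, ∑ k ∈ range n,
      if z j * z k < 0 then -(z j * z k) * (ℓ j * ℓ k * |cp (ν j) (ν k)|) else 0 := by
  obtain ⟨u, hu⟩ := Order.generic h
  have huu : 0 < dp u u := uu_pos u _ (hu 0)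
  have A := area_cut h hinj u hu z hz P hPp hP
  set x : ℕ → ℝ := fun k => z k * ℓ k * |dp u (ν k)| with hx
  set y : ℕ → ℝ := fun k => z k * ℓ k * dp u (ν k) with hy
  set τ : ℕ → ℝ := fun k => tau u (ν k) with hτ
  have hxy : ∀ k, |y k| = |x k| := by
    intro k
    simp only [hx, hy, abs_mul, abs_abs]
  have hcl : P n = P 0 := by have := hPp 0; rwa [zero_add] at this
  have cl1 : ∑ k ∈ range n, y k = 0 := by
    have e : ∀ k, y k = cp u (P (k + 1)) - cp u (P k) := by
      intro k
      rw [hP k]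
      simp only [hy, cp, dp, rt, Prod.fst_add, Prod.snd_add, Prod.smul_fst, Prod.smul_snd,
        smul_eq_mul]
      ring
    rw [sum_congr rfl fun k _ => e k, sum_range_sub (fun k => cp u (P k)), hcl, sub_self]
  have cl2 : ∑ k ∈ range n, y k * τ k = 0 := by
    have e : ∀ k, y k * τ k =
        -(dp u (P (k + 1)) / dp u u) - (-(dp u (P k) / dp u u)) := by
      intro k
      rw [hP k]
      have h1 := hu k
      have h2 : y k * τ k = z k * ℓ k * cp u (ν k) / dp u u := by
        simp only [hy, hτ, tau]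
        field_simp
      rw [h2]
      have h3 : dp u (P k + (z k * ℓ k) • rt (ν k)) = dp u (P k) -
          z k * ℓ k * cp u (ν k) := by
        simp only [cp, dp, rt, Prod.fst_add, Prod.snd_add, Prod.smul_fst, Prod.smul_snd,
          smul_eq_mul]
        ring
      rw [h3]
      ring
    rw [sum_congr rfl fun k _ => e k,
      sum_range_sub (fun k => -(dp u (P k) / dp u u)), hcl, sub_self]
  have L := line n τ x y hxy cl1 cl2
  have key : ∀ j k, |τ k - τ j| *
      (max (x j) 0 * max (x k) 0 + max (-x j) 0 * max (-x k) 0 + y j * y k) =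
      2 * (if 0 < dp u (ν j) * dp u (ν k) then z j * z k * (ℓ j * ℓ k * |cp (ν j) (ν k)|) else 0)
      + if z j * z k < 0 then -(z j * z k) * (ℓ j * ℓ k * |cp (ν j) (ν k)|) else 0 := by
    intro j k
    have lj := h.pos j
    have lk := h.pos k
    have hcp := cp_tau u (ν j) (ν k) (hu j) (hu k) huu.ne'
    have habs : |cp (ν j) (ν k)| = |dp u (ν j)| * |dp u (ν k)| * |τ k - τ j| := by
      rw [hcp, abs_mul, abs_mul]
    have aj : 0 < |dp u (ν j)| := abs_pos.mpr (hu j)
    have ak : 0 < |dp u (ν k)| := abs_pos.mpr (hu k)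
    have mm : ∀ c d : ℝ, max c 0 * max d 0 + max (-c) 0 * max (-d) 0 =
        if 0 < c * d then c * d else 0 := by
      intro c d
      rcases lt_trichotomy c 0 with hc | hc | hc <;> rcases lt_trichotomy d 0 with hd | hd | hd
      · rw [if_pos (mul_pos_of_neg_of_neg hc hd), max_eq_right hc.le, max_eq_right hd.le,
          max_eq_left (by linarith), max_eq_left (by linarith)]; ring
      · subst hd; simp
      · rw [if_neg (not_lt.mpr (mul_neg_of_neg_of_pos hc hd).le), max_eq_right hc.le,
          max_eq_right (show -d ≤ 0 by linarith)]; ring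
      · subst hc; simp
      · subst hc; simp
      · subst hc; simp
      · rw [if_neg (not_lt.mpr (mul_neg_of_pos_of_neg hc hd).le), max_eq_right hd.le,
          max_eq_right (show -c ≤ 0 by linarith)]; ring
      · subst hd; simp
      · rw [if_pos (mul_pos hc hd), max_eq_right (show -c ≤ 0 by linarith),
          max_eq_right (show -d ≤ 0 by linarith), max_eq_left hc.le, max_eq_left hd.le]; ring
    rw [mm]
    have hxx : x j * x k = z j * z k * (ℓ j * ℓ k * (|dp u (ν j)| * |dp u (ν k)|)) := by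
      simp only [hx]; ring
    have hposw : 0 < ℓ j * ℓ k * (|dp u (ν j)| * |dp u (ν k)|) := by positivity
    have hsx : (0 < x j * x k) ↔ (0 < z j * z k) := by
      rw [hxx]
      constructor
      · intro hh
        by_contra hc
        exact absurd hh (not_lt.mpr (mul_nonpos_of_nonpos_of_nonneg (not_lt.mp hc) hposw.le))
      · intro hh; exact mul_pos hh hposw
    have hyy : y j * y k = z j * z k * (ℓ j * ℓ k) * (dp u (ν j) * dp u (ν k)) := by
      simp only [hy]; ring
    have hdd : dp u (ν j) * dp u (ν k) =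
        if 0 < dp u (ν j) * dp u (ν k) then |dp u (ν j)| * |dp u (ν k)|
        else -(|dp u (ν j)| * |dp u (ν k)|) := by
      rw [← abs_mul]
      split_ifs with hh
      · rw [abs_of_pos hh]
      · rw [abs_of_nonpos (not_lt.mp hh), neg_neg]
    rw [habs, hyy, hdd, hxx] 
    rw [show (if 0 < z j * z k * (ℓ j * ℓ k * (|dp u (ν j)| * |dp u (ν k)|)) then
      z j * z k * (ℓ j * ℓ k * (|dp u (ν j)| * |dp u (ν k)|)) else 0) =
      if 0 < z j * z k then z j * z k * (ℓ j * ℓ k * (|dp u (ν j)| * |dp u (ν k)|)) else 0 by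
        rw [← hxx]; simp only [hsx]]
    rcases lt_trichotomy (z j * z k) 0 with hz0 | hz0 | hz0
    · have n1 : ¬ 0 < z j * z k := not_lt.mpr hz0.le
      by_cases hs : 0 < dp u (ν j) * dp u (ν k)
      · simp only [hs, hz0, n1, if_true, if_false]
        have : 0 < |dp u (ν j)| * |dp u (ν k)| := by positivity
        simp only [this, if_true]
        ring
      · have hneg : ¬ 0 < -(|dp u (ν j)| * |dp u (ν k)|) := by
          have : 0 < |dp u (ν j)| * |dp u (ν k)| := by positivity
          linarith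
        simp only [hs, hz0, n1, if_true, if_false, hneg]
        ring
    · rw [hz0]; simp
    · have n1 : ¬ z j * z k < 0 := not_lt.mpr hz0.le
      by_cases hs : 0 < dp u (ν j) * dp u (ν k)
      · simp only [hs, hz0, n1, if_true, if_false]
        have : 0 < |dp u (ν j)| * |dp u (ν k)| := by positivity
        simp only [this, if_true]
        ring
      · have hneg : ¬ 0 < -(|dp u (ν j)| * |dp u (ν k)|) := by
          have : 0 < |dp u (ν j)| * |dp u (ν k)| := by positivity
          linarith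
        simp only [hs, hz0, n1, if_true, if_false, hneg]
        ring
  rw [sum_congr rfl fun j _ => sum_congr rfl fun k _ => key j k] at L
  simp only [sum_add_distrib, ← mul_sum] at L
  linarith

/-- **(SQ)** for closed labels, ordered pairs (`-32 |P| ≤ Σ_{ordered} k_ij (z_i - z_j)^2`). -/
theorem SQ (h : Poly n ν v ℓ) (hinj : Order.Inj n ν)
    (z : ℕ → ℝ) (hz : ∀ k, z (k + n) = z k) (P : ℕ → R2) (hPp : ∀ k, P (k + n) = P k)
    (hP : ∀ k, P (k + 1) = P k + (z k * ℓ k) • rt (ν k)) :
    -32 * ar n P ≤ ∑ j ∈ range n, ∑ k ∈ range n,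
      (ℓ j * ℓ k * |cp (ν j) (ν k)|) * (z j - z k) ^ 2 := by
  have K := KN h hinj z hz P hPp hP
  have : 4 * (∑ j ∈ range n, ∑ k ∈ range n,
      if z j * z k < 0 then -(z j * z k) * (ℓ j * ℓ k * |cp (ν j) (ν k)|) else 0) ≤
      ∑ j ∈ range n, ∑ k ∈ range n, (ℓ j * ℓ k * |cp (ν j) (ν k)|) * (z j - z k) ^ 2 := by
    rw [mul_sum]
    refine sum_le_sum fun j _ => ?_
    rw [mul_sum]
    refine sum_le_sum fun k _ => ?_
    have w : 0 ≤ ℓ j * ℓ k * |cp (ν j) (ν k)| := by
      have := h.pos j; have := h.pos k; positivity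
    split_ifs with hh
    · nlinarith [mul_nonneg w (sq_nonneg (z j + z k))]
    · rw [mul_zero]; exact mul_nonneg w (sq_nonneg _)
  linarith

end Pool.G1.SQK
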