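import Pool.Agent.Work.MP_b5407d_g1.Pl_V
import Pool.Agent.Work.MP_b5407d_g1.Pl_HU
import Pool.Agent.Work.MP_b5407d_g1.Pl_SQK
import Pool.Agent.Work.MP_b5407d_g1.Pl_ONE

/-!
# G1, balanced case: the exact test body (`A(ρ) ≤ - T`), edges not parallel to the level lines of `ρ`

`y k = ρ (v k) > 0`, `X k` the conjugate area preserving coordinate, `P` the load potential
(`P (k+1) = P k + θ k (y (k+1)^2 - y k^2)/2`), `w = P/y` the vertical velocity of the test body,
`σ k = ΔX k / Δy k` the slopes.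
-/

set_option autoImplicit false

open Finset

namespace Pool.G1.Gap

/-- the conjugate coordinate of the height `af r` -/
noncomputable def XX (r : ℝ × R2) (x : R2) : ℝ := -(dp (rt r.2) x) / dp r.2 r.2

/-- slope of the edge `k` -/
noncomputable def sg (r : ℝ × R2) (v : ℕ → R2) (k : ℕ) : ℝ :=
  (XX r (v (k + 1)) - XX r (v k)) / (af r (v (k + 1)) - af r (v k))

/-- periodic primitive -/
lemma prim {n : ℕ} {f : ℕ → ℝ} (hf : ∀ i, f (i + n) = f i) (h0 : ∑ i ∈ range n, f i = 0) (c : ℝ) :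
    ∃ F : ℕ → ℝ, (∀ k, F k = c + ∑ i ∈ range k, f i) ∧ (∀ k, F (k + n) = F k) ∧
      ∀ k, F (k + 1) = F k + f k := by
  refine ⟨fun k => c + ∑ i ∈ range k, f i, fun _ => rfl, ?_, ?_⟩
  · intro k
    induction k with
    | zero => simp [h0]
    | succ k ih =>
      simp only at ih ⊢
      rw [show k + 1 + n = k + n + 1 by ring, sum_range_succ, sum_range_succ, hf k]
      linarith
  · intro k
    simp only
    rw [sum_range_succ]
    ring

lemma tele {n : ℕ} {F : ℕ → ℝ} (hF : F n = F 0) : ∑ i ∈ range n, (F (i + 1) - F i) = 0 := by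
  rw [sum_range_sub, hF, sub_self]

/-- closure constant: `∑ ΔX/(y y') > 0` -/
lemma clo_pos {n : ℕ} {ν v : ℕ → R2} {ℓ : ℕ → ℝ} (hE : Stmt_PEU) (hP : Poly n ν v ℓ)
    (r : ℝ × R2) (hg : 0 < dp r.2 r.2) (hpos : ∀ k, 0 < af r (v k)) :
    0 < ∑ k ∈ range n, (XX r (v (k + 1)) - XX r (v k)) / (af r (v k) * af r (v (k + 1))) := by
  have hn : 0 < n := by have := hP.n3; omega
  have key : ∀ k, (XX r (v (k + 1)) - XX r (v k)) / (af r (v k) * af r (v (k + 1))) =
      cp (v k - v 0) (v (k + 1) - v 0) / (af r (v 0) * af r (v k) * af r (v (k + 1))) +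
      ((XX r (v (k + 1)) / af r (v (k + 1)) / af r (v 0)
          - XX r (v 0) / af r (v 0) / af r (v (k + 1))) -
        (XX r (v k) / af r (v k) / af r (v 0) - XX r (v 0) / af r (v 0) / af r (v k))) := by
    intro k
    have h0 := (hpos 0).ne'
    have h1 := (hpos k).ne'
    have h2 := (hpos (k + 1)).ne'
    have e : cp (v k - v 0) (v (k + 1) - v 0) =
        (XX r (v k) - XX r (v 0)) * (af r (v (k + 1)) - af r (v 0)) -
        (af r (v k) - af r (v 0)) * (XX r (v (k + 1)) - XX r (v 0)) := by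
      have hg' := hg.ne'
      unfold XX
      field_simp
      simp only [cp, dp, af, rt, Prod.fst_sub, Prod.snd_sub]
      ring
    rw [e]
    field_simp
    ring
  rw [sum_congr rfl fun k _ => key k, sum_add_distrib, tele (F := fun k =>
    XX r (v k) / af r (v k) / af r (v 0) - XX r (v 0) / af r (v 0) / af r (v k)) (by
      have := hP.pv 0; rw [zero_add] at this; simp only [this]), add_zero]
  have fan : ∀ k, 0 ≤ cp (v k - v 0) (v (k + 1) - v 0) := by
    intro k
    have h1 := hP.edge k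
    have h2 := hP.conv k 0
    have h3 := hP.pos k
    have : cp (v k - v 0) (v (k + 1) - v 0) = ℓ k * (dp (ν k) (v k) - dp (ν k) (v 0)) := by
      rw [h1]
      simp only [cp, dp, rt, Prod.fst_sub, Prod.snd_sub, Prod.fst_add, Prod.snd_add,
        Prod.smul_fst, Prod.smul_snd, smul_eq_mul]
      ring
    rw [this]
    exact mul_nonneg h3.le (by linarith)
  refine lt_of_le_of_ne (sum_nonneg fun k _ => div_nonneg (fan k)
    (mul_pos (mul_pos (hpos 0) (hpos k)) (hpos (k + 1))).le) fun h => ?_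
  have hz := (sum_eq_zero_iff_of_nonneg (fun k _ => div_nonneg (fan k)
    (mul_pos (mul_pos (hpos 0) (hpos k)) (hpos (k + 1))).le)).mp h.symm
  have hz2 : ∀ k ∈ range n, cp (v k - v 0) (v (k + 1) - v 0) = 0 := by
    intro k hk
    have := hz k hk
    rcases div_eq_zero_iff.mp this with h1 | h1
    · exact h1
    · exact absurd h1 (mul_pos (mul_pos (hpos 0) (hpos k)) (hpos (k + 1))).ne'
  have ha := (hE n ν v ℓ hP).2.1
  have hs : ∑ k ∈ range n, cp (v k - v 0) (v (k + 1) - v 0) = 2 * ar n v := by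
    have e : ∀ k, cp (v k - v 0) (v (k + 1) - v 0) = 2 * (cp (v k) (v (k + 1)) / 2) +
        (cp (v (k + 1)) (v 0) - cp (v k) (v 0)) := by
      intro k
      simp only [cp, Prod.fst_sub, Prod.snd_sub]
      ring
    rw [sum_congr rfl fun k _ => e k, sum_add_distrib, ← mul_sum, tele (F := fun k =>
      cp (v k) (v 0)) (by have := hP.pv 0; rw [zero_add] at this; simp only [this]), add_zero]
    rfl
  rw [sum_eq_zero hz2] at hs
  linarith

/-! ## the test body -/

section
variable {n : ℕ} {ν v : ℕ → R2} {ℓ : ℕ → ℝ}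

lemma g_pos (v : ℕ → R2) (r : ℝ × R2) (hne : ∀ k, af r (v (k + 1)) ≠ af r (v k)) :
    0 < dp r.2 r.2 := by
  have h0 : 0 ≤ dp r.2 r.2 := by simp only [dp]; nlinarith [sq_nonneg r.2.1, sq_nonneg r.2.2]
  refine lt_of_le_of_ne h0 fun h => hne 0 ?_
  have h1 : r.2.1 = 0 := by
    simp only [dp] at h; nlinarith [sq_nonneg r.2.1, sq_nonneg r.2.2]
  have h2 : r.2.2 = 0 := by
    simp only [dp] at h; nlinarith [sq_nonneg r.2.1, sq_nonneg r.2.2]
  simp [af, dp, h1, h2]

lemma dy_eq (hP : Poly n ν v ℓ) (r : ℝ × R2) (k : ℕ) :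
    af r (v (k + 1)) - af r (v k) = ℓ k * cp (ν k) r.2 := by
  rw [hP.edge k]
  simp only [af, dp, cp, rt, Prod.fst_add, Prod.snd_add, Prod.smul_fst, Prod.smul_snd, smul_eq_mul]
  ring

lemma dX_eq (hP : Poly n ν v ℓ) (r : ℝ × R2) (k : ℕ) :
    XX r (v (k + 1)) - XX r (v k) = -(ℓ k * dp (ν k) r.2) / dp r.2 r.2 := by
  unfold XX
  rw [hP.edge k, ← sub_div]
  congr 1
  simp only [dp, rt, Prod.fst_add, Prod.snd_add, Prod.smul_fst, Prod.smul_snd, smul_eq_mul]
  ring

lemma sg_mul (r : ℝ × R2) (hne : ∀ k, af r (v (k + 1)) ≠ af r (v k)) (k : ℕ) :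
    sg r v k * (af r (v (k + 1)) - af r (v k)) = XX r (v (k + 1)) - XX r (v k) := by
  unfold sg
  exact div_mul_cancel₀ _ (sub_ne_zero.mpr (hne k))

/-- the two scalar balance relations -/
lemma bal_y (hP : Poly n ν v ℓ) (r : ℝ × R2) (θ : ℕ → ℝ)
    (hbal : ∑ i ∈ range n, (θ i * EI v ℓ r i) • ν i = 0) :
    ∑ i ∈ range n, θ i * ((af r (v (i + 1))) ^ 2 - (af r (v i)) ^ 2) / 2 = 0 := by
  have e : ∑ i ∈ range n, θ i * ((af r (v (i + 1))) ^ 2 - (af r (v i)) ^ 2) / 2 =
      cp (∑ i ∈ range n, (θ i * EI v ℓ r i) • ν i) r.2 := by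
    simp only [cp]
    rw [Prod.fst_sum, Prod.snd_sum, sum_mul, sum_mul, ← sum_sub_distrib]
    refine sum_congr rfl fun i _ => ?_
    have h := dy_eq hP r i
    have e1 : (af r (v (i + 1))) ^ 2 - (af r (v i)) ^ 2 =
        (af r (v (i + 1)) - af r (v i)) * (af r (v (i + 1)) + af r (v i)) := by ring
    rw [e1, h]
    simp only [EI, cp, Prod.smul_fst, Prod.smul_snd, smul_eq_mul]
    ring
  rw [e, hbal]
  simp [cp]

lemma bal_X (hP : Poly n ν v ℓ) (r : ℝ × R2) (θ : ℕ → ℝ)
    (hbal : ∑ i ∈ range n, (θ i * EI v ℓ r i) • ν i = 0) :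
    ∑ i ∈ range n, θ i * ((af r (v (i + 1))) + (af r (v i))) / 2 *
      (XX r (v (i + 1)) - XX r (v i)) = 0 := by
  have e : ∑ i ∈ range n, θ i * ((af r (v (i + 1))) + (af r (v i))) / 2 *
      (XX r (v (i + 1)) - XX r (v i)) =
      -(dp (∑ i ∈ range n, (θ i * EI v ℓ r i) • ν i) r.2) / dp r.2 r.2 := by
    simp only [dp]
    rw [Prod.fst_sum, Prod.snd_sum, sum_mul, sum_mul, ← sum_add_distrib, ← sum_neg_distrib, sum_div]
    refine sum_congr rfl fun i _ => ?_
    rw [dX_eq hP r i]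
    simp only [EI, dp, Prod.smul_fst, Prod.smul_snd, smul_eq_mul]
    ring
  rw [e, hbal]
  simp [dp]

lemma y_per (hP : Poly n ν v ℓ) (r : ℝ × R2) (k : ℕ) : af r (v (k + n)) = af r (v k) := by
  rw [hP.pv]

/-- decomposition of a vector along `g`, `rt g` -/
lemma dec (g E : R2) (hg : dp g g ≠ 0) :
    E = (dp g E / dp g g) • g + (dp (rt g) E / dp g g) • rt g := by
  have h : dp g g = g.1 * g.1 + g.2 * g.2 := rfl
  refine Prod.ext ?_ ?_
  · have : dp g E / dp g g * g.1 + dp (rt g) E / dp g g * (rt g).1 =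
        (dp g E * g.1 + dp (rt g) E * (rt g).1) / dp g g := by ring
    simp only [Prod.fst_add, Prod.smul_fst, smul_eq_mul]
    rw [this, eq_div_iff hg]
    simp only [dp, rt]
    ring
  · have : dp g E / dp g g * g.2 + dp (rt g) E / dp g g * (rt g).2 =
        (dp g E * g.2 + dp (rt g) E * (rt g).2) / dp g g := by ring
    simp only [Prod.snd_add, Prod.smul_snd, smul_eq_mul]
    rw [this, eq_div_iff hg]
    simp only [dp, rt]
    ring

lemma J0_sg (hP : Poly n ν v ℓ) (r : ℝ × R2) (hne : ∀ k, af r (v (k + 1)) ≠ af r (v k)) :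
    J0 n v r = -∑ i ∈ range n, sg r v i * ((af r (v (i + 1))) ^ 3 / 6 - (af r (v i)) ^ 3 / 6) := by
  have hg := g_pos v r hne
  have key : ∀ i, cp (v i) (v (i + 1)) / 2 * ((r.1 + af r (v i) + af r (v (i + 1))) / 3) =
      -(sg r v i * ((af r (v (i + 1))) ^ 3 / 6 - (af r (v i)) ^ 3 / 6)) +
      ((r.1 * XX r (v (i + 1)) * af r (v (i + 1)) + r.1 ^ 2 * XX r (v (i + 1)) +
          XX r (v (i + 1)) * (af r (v (i + 1))) ^ 2) / 6 -
        (r.1 * XX r (v i) * af r (v i) + r.1 ^ 2 * XX r (v i) +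
          XX r (v i) * (af r (v i)) ^ 2) / 6) := by
    intro i
    have e1 : sg r v i * ((af r (v (i + 1))) ^ 3 / 6 - (af r (v i)) ^ 3 / 6) =
        (XX r (v (i + 1)) - XX r (v i)) * ((af r (v (i + 1))) ^ 2 +
          af r (v (i + 1)) * af r (v i) + (af r (v i)) ^ 2) / 6 := by
      rw [← sg_mul r hne i]
      ring
    have e2 : cp (v i) (v (i + 1)) = XX r (v i) * (af r (v (i + 1)) - r.1) -
        (af r (v i) - r.1) * XX r (v (i + 1)) := by
      have hg' := hg.ne'
      unfold XX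
      field_simp
      simp only [cp, dp, af, rt]
      ring
    rw [e1, e2]
    ring
  unfold J0
  rw [sum_congr rfl fun i _ => key i, sum_add_distrib, sum_neg_distrib, tele (F := fun i =>
    (r.1 * XX r (v i) * af r (v i) + r.1 ^ 2 * XX r (v i) + XX r (v i) * (af r (v i)) ^ 2) / 6) (by
      have := hP.pv 0; rw [zero_add] at this; simp only [this]), add_zero]

variable {P : ℕ → ℝ} {θ : ℕ → ℝ}

lemma U_sg (hP : Poly n ν v ℓ) (r : ℝ × R2) (hne : ∀ k, af r (v (k + 1)) ≠ af r (v k))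
    (hbal : ∑ i ∈ range n, (θ i * EI v ℓ r i) • ν i = 0)
    (hPn : P n = P 0)
    (hPs : ∀ k, P (k + 1) = P k + θ k * ((af r (v (k + 1))) ^ 2 - (af r (v k)) ^ 2) / 2) :
    ∑ i ∈ range n, dp (ν i) (v i - 0) * θ i * EI v ℓ r i =
      -∑ i ∈ range n, sg r v i * (af r (v (i + 1)) * P (i + 1) - af r (v i) * P i) := by
  have hg := g_pos v r hne
  have key : ∀ i, dp (ν i) (v i - 0) * θ i * EI v ℓ r i =
      -(sg r v i * (af r (v (i + 1)) * P (i + 1) - af r (v i) * P i)) +
      (XX r (v (i + 1)) * P (i + 1) - XX r (v i) * P i) +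
      r.1 * (θ i * ((af r (v (i + 1))) + (af r (v i))) / 2 * (XX r (v (i + 1)) - XX r (v i))) := by
    intro i
    have e1 : ℓ i * dp (ν i) (v i - 0) =
        XX r (v i) * (af r (v (i + 1)) - af r (v i)) -
          (af r (v i) - r.1) * (XX r (v (i + 1)) - XX r (v i)) := by
      rw [dy_eq hP r i, dX_eq hP r i]
      unfold XX
      have hg' := hg.ne'
      field_simp
      simp only [cp, dp, af, rt, sub_zero]
      ring
    have e2 : dp (ν i) (v i - 0) * θ i * EI v ℓ r i =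
        (ℓ i * dp (ν i) (v i - 0)) * θ i * ((af r (v i) + af r (v (i + 1))) / 2) := by
      unfold EI
      ring
    have e3 : sg r v i * (af r (v (i + 1)) * P (i + 1) - af r (v i) * P i) =
        (XX r (v (i + 1)) - XX r (v i)) * P (i + 1) +
        (XX r (v (i + 1)) - XX r (v i)) * (af r (v i) * θ i *
          ((af r (v (i + 1)) + af r (v i)) / 2)) := by
      have e4 : af r (v (i + 1)) * P (i + 1) - af r (v i) * P i =
          (af r (v (i + 1)) - af r (v i)) * P (i + 1) +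
          (af r (v (i + 1)) - af r (v i)) * (af r (v i) * θ i *
          ((af r (v (i + 1)) + af r (v i)) / 2)) := by
        rw [hPs i]; ring
      rw [e4, mul_add, ← mul_assoc, ← mul_assoc, sg_mul r hne i]
    rw [e2, e1, e3, hPs i]
    ring
  rw [sum_congr rfl fun i _ => key i, sum_add_distrib, sum_add_distrib, ← mul_sum,
    bal_X hP r θ hbal, sum_neg_distrib, tele (F := fun i => XX r (v i) * P i) (by
      have := hP.pv 0; rw [zero_add] at this; simp only [this, hPn])]
  ring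

/-- **exact test body**: `A(ρ) ≤ -(T1 - ∑ σ ΔΘ)` for the potential `P` closing also `P / y` -/
theorem gap1 (hE : Stmt_PEU) (hM : Stmt_PMI) (hP : Poly n ν v ℓ) (δ : ℕ → ℝ)
    (hδ : ∀ i, δ (i + n) = δ i) (hθ : ∀ i, θ (i + n) = θ i)
    (hS : ∑ i ∈ range n, ℓ i * δ i = 2 * ar n v)
    (r : ℝ × R2) (hpos : ∀ k, 0 < af r (v k)) (hne : ∀ k, af r (v (k + 1)) ≠ af r (v k))
    (hbal : ∑ i ∈ range n, (θ i * EI v ℓ r i) • ν i = 0) :
    ∃ P : ℕ → ℝ, (∀ k, P (k + n) = P k) ∧
      (∀ k, P (k + 1) = P k + θ k * ((af r (v (k + 1))) ^ 2 - (af r (v k)) ^ 2) / 2) ∧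
      (∑ i ∈ range n, sg r v i * (P (i + 1) - P i) = 0) ∧
      (∑ i ∈ range n, sg r v i * (P (i + 1) / af r (v (i + 1)) - P i / af r (v i)) = 0) ∧
      AA n ν v ℓ δ θ r ≤ -(T1 n v ℓ r δ θ -
        ∑ i ∈ range n, sg r v i * (Th (af r (v (i + 1))) (P (i + 1)) - Th (af r (v i)) (P i))) := by
  have hg := g_pos v r hne
  have yper := y_per hP r
  have y0 : af r (v n) = af r (v 0) := by have := yper 0; rwa [zero_add] at this
  have X0 : XX r (v n) = XX r (v 0) := by have := hP.pv 0; rw [zero_add] at this; rw [this]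
  have yper1 : ∀ k, af r (v (k + n + 1)) = af r (v (k + 1)) := fun k => by
    rw [show k + n + 1 = k + 1 + n by ring, yper]
  have Xper : ∀ k, XX r (v (k + n)) = XX r (v k) := fun k => by rw [hP.pv]
  have Xper1 : ∀ k, XX r (v (k + n + 1)) = XX r (v (k + 1)) := fun k => by
    rw [show k + n + 1 = k + 1 + n by ring, Xper]
  have sper : ∀ k, sg r v (k + n) = sg r v k := fun k => by
    unfold sg; rw [yper1, yper, Xper1, Xper]
  -- the potential without constant
  obtain ⟨P0, -, P0n, P0s⟩ := prim (f := fun k => θ k * ((af r (v (k + 1))) ^ 2 -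
    (af r (v k)) ^ 2) / 2) (fun k => by rw [hθ, yper1, yper]) (bal_y hP r θ hbal) 0
  set b := ∑ k ∈ range n, (XX r (v (k + 1)) - XX r (v k)) / (af r (v k) * af r (v (k + 1))) with hb
  have hb0 : 0 < b := clo_pos hE hP r hg hpos
  set a := ∑ i ∈ range n, sg r v i * (P0 (i + 1) / af r (v (i + 1)) - P0 i / af r (v i)) with ha
  obtain ⟨P, hPdef⟩ : ∃ P : ℕ → ℝ, P = fun k => P0 k + a / b := ⟨_, rfl⟩
  have Pn : ∀ k, P (k + n) = P k := fun k => by simp only [hPdef, P0n]
  have Ps : ∀ k, P (k + 1) = P k + θ k * ((af r (v (k + 1))) ^ 2 - (af r (v k)) ^ 2) / 2 := by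
    intro k
    simp only [hPdef, P0s k]
    ring
  have Pn0 : P n = P 0 := by have := Pn 0; rwa [zero_add] at this
  have hcw : ∑ i ∈ range n, sg r v i * (P (i + 1) / af r (v (i + 1)) - P i / af r (v i)) = 0 := by
    have e : ∀ i, sg r v i * (P (i + 1) / af r (v (i + 1)) - P i / af r (v i)) =
        sg r v i * (P0 (i + 1) / af r (v (i + 1)) - P0 i / af r (v i)) -
        a / b * ((XX r (v (i + 1)) - XX r (v i)) / (af r (v i) * af r (v (i + 1)))) := by
      intro i
      have h1 := (hpos i).ne'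
      have h2 := (hpos (i + 1)).ne'
      rw [← sg_mul r hne i]
      simp only [hPdef]
      field_simp
      ring
    rw [sum_congr rfl fun i _ => e i, sum_sub_distrib, ← mul_sum, ← ha, ← hb]
    field_simp
    ring
  have hcP : ∑ i ∈ range n, sg r v i * (P (i + 1) - P i) = 0 := by
    have e : ∀ i, sg r v i * (P (i + 1) - P i) = θ i * ((af r (v (i + 1))) + (af r (v i))) / 2 *
      (XX r (v (i + 1)) - XX r (v i)) := by
      intro i
      rw [← sg_mul r hne i, Ps i]
      ring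
    rw [sum_congr rfl fun i _ => e i]
    exact bal_X hP r θ hbal
  refine ⟨P, Pn, Ps, hcP, hcw, ?_⟩
  -- vertical and horizontal velocities
  set w : ℕ → ℝ := fun k => P k / af r (v k) with hw
  have wn : ∀ k, w (k + n) = w k := fun k => by simp only [hw, Pn, yper]
  obtain ⟨h, -, hn, hs⟩ := prim (f := fun k => sg r v k * (w (k + 1) - w k)) (fun k => by
    rw [sper, wn, show k + n + 1 = k + 1 + n by ring, wn]) hcw 0
  have hn0 : h n = h 0 := by have := hn 0; rwa [zero_add] at this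
  set V : ℕ → R2 := fun k => (w k / dp r.2 r.2) • r.2 - h k • rt r.2 with hV
  set χ : ℕ → ℝ := fun k => dp (ν k) (V k) with hχ
  have Vn : ∀ k, V (k + n) = V k := fun k => by simp only [hV, wn, hn]
  have χn : ∀ k, χ (k + n) = χ k := fun k => by simp only [hχ, Vn, hP.pν]
  have Edec : ∀ k, ℓ k • rt (ν k) = ((af r (v (k + 1)) - af r (v k)) / dp r.2 r.2) • r.2 -
      (XX r (v (k + 1)) - XX r (v k)) • rt r.2 := by
    intro k
    have e := dec r.2 (ℓ k • rt (ν k)) hg.ne'
    rw [dy_eq hP r k, dX_eq hP r k]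
    rw [e]
    have e1 : dp r.2 (ℓ k • rt (ν k)) = ℓ k * cp (ν k) r.2 := by
      simp only [dp, cp, rt, Prod.smul_fst, Prod.smul_snd, smul_eq_mul]; ring
    have e2 : dp (rt r.2) (ℓ k • rt (ν k)) = ℓ k * dp (ν k) r.2 := by
      simp only [dp, rt, Prod.smul_fst, Prod.smul_snd, smul_eq_mul]; ring
    rw [e1, e2]
    have e3 : -(ℓ k * dp (ν k) r.2) / dp r.2 r.2 = -(ℓ k * dp (ν k) r.2 / dp r.2 r.2) := by ring
    rw [e3, neg_smul, sub_neg_eq_add]
  have Vs : ∀ k, V (k + 1) - V k =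
      ((w (k + 1) - w k) / (af r (v (k + 1)) - af r (v k)) * ℓ k) • rt (ν k) := by
    intro k
    have hy : af r (v (k + 1)) - af r (v k) ≠ 0 := sub_ne_zero.mpr (hne k)
    rw [mul_smul, Edec k, ← sg_mul r hne k]
    simp only [hV, hs k]
    refine Prod.ext ?_ ?_
    · simp only [Prod.fst_sub, Prod.smul_fst, smul_eq_mul]
      field_simp
      ring
    · simp only [Prod.snd_sub, Prod.smul_snd, smul_eq_mul]
      field_simp
      ring
  have χ1 : ∀ k, dp (ν k) (V (k + 1)) = χ k := by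
    intro k
    have e : V (k + 1) = V k + (V (k + 1) - V k) := by abel
    rw [e, Vs k]
    simp only [hχ, dp, rt, Prod.fst_add, Prod.snd_add, Prod.smul_fst, Prod.smul_snd, smul_eq_mul]
    ring
  have veV : ∀ k, ve ν χ k = V (k + 1) := by
    intro k
    have hc := (hP.turn k).ne'
    refine HUaux.eq_of_dp (ν k) (ν (k + 1)) _ _ hc ?_ ?_
    · rw [HUaux.ve_left _ _ _ hc, HUaux.dp_comm, χ1]
    · rw [HUaux.ve_right _ _ _ hc, HUaux.dp_comm]
  have Vg : ∀ k, dp r.2 (V k) = w k := by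
    intro k
    have hg' := hg.ne'
    have e : dp r.2 (V k) = w k / dp r.2 r.2 * dp r.2 r.2 := by
      simp only [hV, dp, rt, Prod.fst_sub, Prod.snd_sub, Prod.smul_fst, Prod.smul_snd, smul_eq_mul]
      ring
    rw [e, div_mul_cancel₀ _ hg']
  have Bχ : ∀ η : ℕ → ℝ, (∀ i, η (i + n) = η i) →
      B2 n ν v ℓ r η χ = ∑ i ∈ range n, η i * θ i * EI v ℓ r i := by
    intro η hη
    have key : ∀ k, dp (V (k + 1) - V k) (rt (ν k)) * ((af r (v k) + af r (v (k + 1))) / 2) +
        ℓ k * dp r.2 (V k + V (k + 1)) / 2 = θ k * EI v ℓ r k := by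
      intro k
      have hy : af r (v (k + 1)) - af r (v k) ≠ 0 := sub_ne_zero.mpr (hne k)
      have hu := hP.unit k
      have e1 : dp (V (k + 1) - V k) (rt (ν k)) =
          (w (k + 1) - w k) / (af r (v (k + 1)) - af r (v k)) * ℓ k := by
        rw [Vs k, HUaux.dp_smul_left, HUaux.dp_rt_rt, hu, mul_one]
      have e2 : dp r.2 (V k + V (k + 1)) = w k + w (k + 1) := by
        rw [HUaux.dp_add_right, Vg, Vg]
      have e3 : P (k + 1) = w (k + 1) * af r (v (k + 1)) := by
        simp only [hw]; rw [div_mul_cancel₀ _ (hpos _).ne']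
      have e4 : P k = w k * af r (v k) := by
        simp only [hw]; rw [div_mul_cancel₀ _ (hpos _).ne']
      have e5 := Ps k
      rw [e3, e4] at e5
      rw [e1, e2]
      unfold EI
      field_simp
      linear_combination ℓ k * 2 * e5
    have sh := HUaux.sum_shift n (fun i => η i * θ i * EI v ℓ r i) (fun i => by
      simp only [EI, hη, hθ, hP.pℓ, yper, yper1])
    rw [← sh]
    unfold B2
    refine sum_congr rfl fun i _ => ?_
    rw [veV, veV]
    have := key (i + 1)
    rw [mul_assoc, ← this]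
  have lχ : ∀ k, ℓ k * χ k = h k * (af r (v (k + 1)) - af r (v k)) -
      w k * (XX r (v (k + 1)) - XX r (v k)) := by
    intro k
    have hg' := hg.ne'
    rw [dy_eq hP r k, dX_eq hP r k]
    simp only [hχ, hV]
    have e : dp (ν k) ((w k / dp r.2 r.2) • r.2 - h k • rt r.2) =
        w k / dp r.2 r.2 * dp (ν k) r.2 + h k * cp (ν k) r.2 := by
      simp only [dp, cp, rt, Prod.fst_sub, Prod.snd_sub, Prod.smul_fst, Prod.smul_snd, smul_eq_mul]
      ring
    rw [e]
    ring
  have Slχ : ∑ k ∈ range n, ℓ k * χ k = 0 := by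
    have key : ∀ k, ℓ k * χ k = (h (k + 1) * af r (v (k + 1)) - h k * af r (v k)) -
        sg r v k * (P (k + 1) - P k) := by
      intro k
      rw [lχ k, hs k, ← sg_mul r hne k]
      have e3 : P (k + 1) = w (k + 1) * af r (v (k + 1)) := by
        simp only [hw]; rw [div_mul_cancel₀ _ (hpos _).ne']
      have e4 : P k = w k * af r (v k) := by
        simp only [hw]; rw [div_mul_cancel₀ _ (hpos _).ne']
      rw [e3, e4]
      ring
    rw [sum_congr rfl fun k _ => key k, sum_sub_distrib, hcP, tele (F := fun k =>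
      h k * af r (v k)) (by simp only [hn0, y0]), sub_zero]
  have Sχ : ∑ k ∈ range n, χ k * θ k * EI v ℓ r k =
      -∑ k ∈ range n, sg r v k * ((P (k + 1)) ^ 2 / af r (v (k + 1)) - (P k) ^ 2 / af r (v k)) := by
    have key : ∀ k, χ k * θ k * EI v ℓ r k = (h (k + 1) * P (k + 1) - h k * P k) -
        sg r v k * ((P (k + 1)) ^ 2 / af r (v (k + 1)) - (P k) ^ 2 / af r (v k)) := by
      intro k
      have h1 := (hpos k).ne'
      have h2 := (hpos (k + 1)).ne'
      have e : χ k * θ k * EI v ℓ r k = (ℓ k * χ k) * θ k *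
          ((af r (v k) + af r (v (k + 1))) / 2) := by
        unfold EI; ring
      have e1 : (P (k + 1)) ^ 2 / af r (v (k + 1)) = w (k + 1) * P (k + 1) := by
        simp only [hw]; ring
      have e2 : (P k) ^ 2 / af r (v k) = w k * P k := by
        simp only [hw]; ring
      rw [e, lχ k, hs k, ← sg_mul r hne k, e1, e2]
      have e5 := Ps k
      linear_combination (w k * sg r v k - h k) * e5
    rw [sum_congr rfl fun k _ => key k, sum_sub_distrib, tele (F := fun k =>
      h k * P k) (by simp only [hn0, Pn0]), zero_sub]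
  -- the weighted Minkowski inequality
  obtain ⟨-, -, E3, E4, -, E6, E7, -⟩ := hE n ν v ℓ hP
  set bb : ℕ → ℝ := fun i => dp (ν i) (v i - 0) with hbb
  have bn : ∀ i, bb (i + n) = bb i := fun i => per_b hP 0 i
  have hz : ∑ i ∈ range n, ℓ i * (δ i + 2 * χ i + -1 * bb i) = 0 := by
    have e : ∀ i, ℓ i * (δ i + 2 * χ i + -1 * bb i) = ℓ i * δ i + 2 * (ℓ i * χ i) -
        ℓ i * bb i := fun i => by ring
    rw [sum_congr rfl fun i _ => e i, sum_sub_distrib, sum_add_distrib, ← mul_sum, hS, Slχ, E3 0]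
    ring
  have M := hM n ν v ℓ hP r (fun k => (hpos k).le) (fun i => δ i + 2 * χ i + -1 * bb i)
    (fun i => by simp only [hδ, χn, bn]) hz
  unfold J2 at M
  rw [HUaux.B2_lin3_left, HUaux.B2_lin3_right, HUaux.B2_lin3_right, HUaux.B2_lin3_right] at M
  have s1 := E6 r χ δ χn hδ
  have s2 := E6 r bb δ bn hδ
  have s3 := E6 r χ bb χn bn
  have q1 := E7 0 r δ hδ
  have q2 := E7 0 r bb bn
  have q3 := E4 0 r
  have q4 := E3 0
  have t1 := Bχ δ hδ
  have t2 := Bχ χ χn
  have t3 := Bχ bb bn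
  rw [Sχ] at t2
  rw [U_sg hP r hne hbal Pn0 Ps] at t3
  have t4 := J0_sg hP r hne
  have T1e : T1 n v ℓ r δ θ = ∑ i ∈ range n, δ i * θ i * EI v ℓ r i := rfl
  have Te : ∑ i ∈ range n, sg r v i * (Th (af r (v (i + 1))) (P (i + 1)) -
      Th (af r (v i)) (P i)) =
      2 * ∑ k ∈ range n, sg r v k * ((P (k + 1)) ^ 2 / af r (v (k + 1)) -
        (P k) ^ 2 / af r (v k)) -
      2 * ∑ i ∈ range n, sg r v i * (af r (v (i + 1)) * P (i + 1) - af r (v i) * P i) +
      ∑ i ∈ range n, sg r v i * ((af r (v (i + 1))) ^ 3 / 6 - (af r (v i)) ^ 3 / 6) := by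
    rw [mul_sum, mul_sum, ← sum_sub_distrib, ← sum_add_distrib]
    refine sum_congr rfl fun i _ => ?_
    unfold Th
    ring
  rw [Te]
  unfold AA J2
  have q1' : B2 n ν v ℓ r δ bb = 2 * J1 n v ℓ r δ - af r 0 * (2 * ar n v) := by
    rw [← hS]; exact q1
  have q2' : B2 n ν v ℓ r bb bb = 2 * (3 * J0 n v r - af r 0 * ar n v) -
      af r 0 * (2 * ar n v) := by
    rw [← q4, ← q3]; exact q2
  linarith
end

end Pool.G1.Gap
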