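import Pool.Agent.Work.MP_b5407d_g1.Pl_GAP1

/-!
# G1, balanced case: widths as pair sums, layer-cake (slope-integral) lemma
-/

set_option autoImplicit false

open Finset

namespace Pool.G1.Gap

/-! ## layer cake -/

/-- indicator of `c < x` -/
noncomputable def st (x c : ℝ) : ℝ := if c < x then 1 else 0

lemma st_anti (x : ℝ) : Antitone (st x) := by
  intro a b hab
  unfold st
  split_ifs with h1 h2 h2
  · exact le_rfl
  · exact absurd (lt_of_le_of_lt hab h1) h2
  · norm_num
  · exact le_rfl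

lemma st_int (x a b : ℝ) : IntervalIntegrable (st x) MeasureTheory.volume a b :=
  (st_anti x).intervalIntegrable

lemma st_val {M x : ℝ} (h1 : -M ≤ x) (h2 : x ≤ M) : ∫ c in (-M)..M, st x c = x + M := by
  have hM : -M ≤ M := h1.trans h2
  have e1 : ∫ c in (-M)..x, st x c = ∫ c in (-M)..x, (1 : ℝ) := by
    rw [intervalIntegral.integral_of_le h1, intervalIntegral.integral_of_le h1,
      MeasureTheory.integral_Ioc_eq_integral_Ioo, MeasureTheory.integral_Ioc_eq_integral_Ioo]
    refine MeasureTheory.setIntegral_congr_fun measurableSet_Ioo fun c hc => ?_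
    simp only [st, if_pos hc.2]
  have e2 : ∫ c in x..M, st x c = ∫ c in x..M, (0 : ℝ) := by
    rw [intervalIntegral.integral_of_le h2, intervalIntegral.integral_of_le h2]
    refine MeasureTheory.setIntegral_congr_fun measurableSet_Ioc fun c hc => ?_
    simp only [st, if_neg (not_lt.mpr hc.1.le)]
  rw [← intervalIntegral.integral_add_adjacent_intervals (st_int x (-M) x) (st_int x x M), e1, e2]
  simp

lemma st_abs (x y c : ℝ) : |st x c - st y c| = st (max x y) c - st (min x y) c := by
  unfold st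
  rcases le_total x y with h | h
  · rw [max_eq_right h, min_eq_left h]
    by_cases h1 : c < x
    · simp [h1, lt_of_lt_of_le h1 h]
    · by_cases h2 : c < y <;> simp [h1, h2]
  · rw [max_eq_left h, min_eq_right h]
    by_cases h1 : c < y
    · simp [h1, lt_of_lt_of_le h1 h]
    · by_cases h2 : c < x <;> simp [h1, h2]

lemma ii_sum (s : Finset ℕ) {f : ℕ → ℝ → ℝ} {a b : ℝ}
    (h : ∀ i ∈ s, IntervalIntegrable (f i) MeasureTheory.volume a b) :
    IntervalIntegrable (fun c => ∑ i ∈ s, f i c) MeasureTheory.volume a b := by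
  have h1 := IntervalIntegrable.sum s h
  have h2 : (fun c => ∑ i ∈ s, f i c) = ∑ i ∈ s, f i := by
    ext c
    rw [Finset.sum_apply]
  rw [h2]
  exact h1

lemma layer (n : ℕ) (σ : ℕ → ℝ) (A : ℕ → ℕ → ℝ) (b : ℕ → ℝ) (hb : ∑ i ∈ range n, b i = 0)
    (H : ∀ c : ℝ, 0 ≤ 1 / 2 * (∑ i ∈ range n, ∑ j ∈ range n, A i j * |st (σ i) c - st (σ j) c|) -
      ∑ i ∈ range n, st (σ i) c * b i) :
    0 ≤ 1 / 2 * (∑ i ∈ range n, ∑ j ∈ range n, A i j * |σ i - σ j|) -
      ∑ i ∈ range n, σ i * b i := by
  obtain ⟨M, hM⟩ : ∃ M : ℝ, ∀ i ∈ range n, |σ i| ≤ M := by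
    refine ⟨∑ i ∈ range n, |σ i|, fun i hi => ?_⟩
    exact single_le_sum (f := fun i => |σ i|) (fun j _ => abs_nonneg _) hi
  by_cases hn : n = 0
  · subst hn; simp
  have h0 : (0 : ℕ) ∈ range n := mem_range.mpr (Nat.pos_of_ne_zero hn)
  have hM0 : -M ≤ M := by
    have := hM 0 h0
    have := abs_nonneg (σ 0)
    linarith
  have I1 : 0 ≤ ∫ c in (-M)..M, (1 / 2 * (∑ i ∈ range n, ∑ j ∈ range n,
      A i j * |st (σ i) c - st (σ j) c|) - ∑ i ∈ range n, st (σ i) c * b i) :=
    intervalIntegral.integral_nonneg hM0 fun c _ => H c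
  have int1 : ∀ i j, IntervalIntegrable (fun c => A i j * |st (σ i) c - st (σ j) c|)
      MeasureTheory.volume (-M) M := by
    intro i j
    simp only [st_abs]
    exact ((st_int _ _ _).sub (st_int _ _ _)).const_mul _
  have int2 : ∀ i, IntervalIntegrable (fun c => st (σ i) c * b i)
      MeasureTheory.volume (-M) M := fun i => (st_int _ _ _).mul_const _
  have int3 : ∀ i, IntervalIntegrable (fun c => ∑ j ∈ range n, A i j * |st (σ i) c - st (σ j) c|)
      MeasureTheory.volume (-M) M := fun i =>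
    ii_sum _ fun j _ => int1 i j
  have int4 : IntervalIntegrable (fun c => ∑ i ∈ range n, ∑ j ∈ range n,
      A i j * |st (σ i) c - st (σ j) c|) MeasureTheory.volume (-M) M :=
    ii_sum _ fun i _ => int3 i
  have int5 : IntervalIntegrable (fun c => ∑ i ∈ range n, st (σ i) c * b i)
      MeasureTheory.volume (-M) M := ii_sum _ fun i _ => int2 i
  rw [intervalIntegral.integral_sub (int4.const_mul _) int5,
    intervalIntegral.integral_const_mul, intervalIntegral.integral_finsetSum (fun i _ => int3 i),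
    intervalIntegral.integral_finsetSum (fun i _ => int2 i)] at I1
  have e1 : ∑ i ∈ range n, ∫ c in (-M)..M, ∑ j ∈ range n, A i j * |st (σ i) c - st (σ j) c| =
      ∑ i ∈ range n, ∑ j ∈ range n, A i j * |σ i - σ j| := by
    refine sum_congr rfl fun i hi => ?_
    rw [intervalIntegral.integral_finsetSum (fun j _ => int1 i j)]
    refine sum_congr rfl fun j hj => ?_
    rw [intervalIntegral.integral_const_mul]
    congr 1
    simp only [st_abs]
    rw [intervalIntegral.integral_sub (st_int _ _ _) (st_int _ _ _)]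
    have a1 := abs_le.mp (hM i hi)
    have a2 := abs_le.mp (hM j hj)
    rw [st_val (by rw [le_max_iff]; exact Or.inl a1.1) (max_le a1.2 a2.2),
      st_val (le_min a1.1 a2.1) (by rw [min_le_iff]; exact Or.inl a1.2)]
    have := max_sub_min_eq_abs (σ i) (σ j)
    rw [abs_sub_comm]
    linarith
  have e2 : ∑ i ∈ range n, ∫ c in (-M)..M, st (σ i) c * b i = ∑ i ∈ range n, σ i * b i := by
    have : ∀ i ∈ range n, ∫ c in (-M)..M, st (σ i) c * b i = σ i * b i + M * b i := by
      intro i hi
      have a1 := abs_le.mp (hM i hi)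
      rw [intervalIntegral.integral_mul_const, st_val a1.1 a1.2]
      ring
    rw [sum_congr rfl this, sum_add_distrib, ← mul_sum, hb]
    ring
  rw [e1, e2] at I1
  exact I1

/-! ## width -/

section
variable {n : ℕ} {ν v : ℕ → R2} {ℓ : ℕ → ℝ}

lemma width (hP : Poly n ν v ℓ) (i : ℕ) (W : ℝ) (hW : ∀ j, dp (ν i) (v i - v j) ≤ W) :
    ∑ m ∈ range n, ℓ m * |cp (ν i) (ν m)| ≤ 2 * W := by
  have hn := hP.n3
  have sh := SQK.sum_shift (n := n) (f := fun m => ℓ m * |cp (ν i) (ν m)|)
    (fun m => by simp only [hP.pℓ, hP.pν]) i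
  rw [← sh]
  set a : ℕ → ℝ := fun m => dp (ν i) (v i - v (i + m)) with ha
  set S : ℕ → ℝ := fun m => ∑ q ∈ range m, ℓ (i + q) * |cp (ν i) (ν (i + q))| with hS
  have Ss : ∀ m, S (m + 1) = S m + ℓ (i + m) * |cp (ν i) (ν (i + m))| := fun m =>
    sum_range_succ _ _
  have as : ∀ m, a (m + 1) = a m + ℓ (i + m) * cp (ν i) (ν (i + m)) := by
    intro m
    have := hP.edge (i + m)
    simp only [ha]
    rw [show i + (m + 1) = i + m + 1 by ring, this]
    simp only [dp, cp, rt, Prod.fst_add, Prod.snd_add, Prod.fst_sub, Prod.snd_sub, Prod.smul_fst,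
      Prod.smul_snd, smul_eq_mul]
    ring
  have aW : ∀ m, a m ≤ W := fun m => hW _
  have claim : ∀ m, m < n → (S (m + 1) = a (m + 1)) ∨
      (cp (ν i) (ν (i + m)) < 0 ∧ S (m + 1) + a (m + 1) ≤ 2 * W) := by
    intro m
    induction m with
    | zero =>
      intro _
      left
      rw [Ss, as, add_zero, HUaux.cp_self, abs_zero]
      simp [hS, ha, dp]
    | succ m ih =>
      intro hm
      have hm' : m < n := by omega
      have hl := hP.pos (i + (m + 1))
      rcases ih hm' with h | ⟨h1, h2⟩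
      · by_cases hc : 0 ≤ cp (ν i) (ν (i + (m + 1)))
        · left
          rw [Ss, as, h, abs_of_nonneg hc]
        · right
          push Not at hc
          refine ⟨hc, ?_⟩
          rw [Ss, as, h, abs_of_neg hc]
          have := aW (m + 1)
          nlinarith
      · have hc : cp (ν i) (ν (i + (m + 1))) < 0 := by
          rcases lt_trichotomy (cp (ν i) (ν (i + (m + 1)))) 0 with h3 | h3 | h3
          · exact h3
          · exfalso
            rcases HUaux.unit_par _ _ (hP.unit i) (hP.unit (i + (m + 1))) h3 with h4 | h4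
            · have e1 : ν ((i + (m + 1)) % n) = ν (i % n) := by
                rw [Order.per_mod hP.pν, Order.per_mod hP.pν]; exact h4
              have e2 := hP.inj _ _ (Nat.mod_lt _ (by omega)) (Nat.mod_lt _ (by omega)) e1
              have e4 : (i + (m + 1)) ≡ (i + 0) [MOD n] := e2
              have e5 := Nat.ModEq.add_left_cancel' i e4
              have e6 : (m + 1) % n = 0 := by simpa [Nat.ModEq] using e5
              rw [Nat.mod_eq_of_lt hm] at e6
              omega
            · have t := hP.turn (i + m)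
              rw [show i + m + 1 = i + (m + 1) by ring, h4] at t
              have : cp (ν (i + m)) (-ν i) = cp (ν i) (ν (i + m)) := by
                simp only [cp, Prod.fst_neg, Prod.snd_neg]; ring
              rw [this] at t
              linarith
          · exact absurd (HUaux.no_up hP (i + m) h1 h3) id
        right
        refine ⟨hc, ?_⟩
        rw [Ss, as, abs_of_neg hc]
        linarith
  have hW0 : 0 ≤ W := by
    have := hW i
    rw [sub_self, HUaux.dp_zero_right] at this
    exact this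
  have fin := claim (n - 1) (by omega)
  rw [show n - 1 + 1 = n by omega] at fin
  have an : a n = 0 := by
    simp only [ha, hP.pv, sub_self, HUaux.dp_zero_right]
  change S n ≤ 2 * W
  rcases fin with h | ⟨-, h⟩
  · rw [h, an]; linarith
  · rw [an] at h; linarith

lemma k_eq (hP : Poly n ν v ℓ) (r : ℝ × R2) (hne : ∀ k, af r (v (k + 1)) ≠ af r (v k)) (i j : ℕ) :
    ((af r (v (i + 1)) - af r (v i)) * (af r (v (j + 1)) - af r (v j))) *
      (sg r v i - sg r v j) = ℓ i * ℓ j * cp (ν i) (ν j) := by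
  have hg := (g_pos v r hne).ne'
  have e1 : ((af r (v (i + 1)) - af r (v i)) * (af r (v (j + 1)) - af r (v j))) *
    (sg r v i - sg r v j) = (sg r v i * (af r (v (i + 1)) - af r (v i))) *
      (af r (v (j + 1)) - af r (v j)) - (af r (v (i + 1)) - af r (v i)) *
      (sg r v j * (af r (v (j + 1)) - af r (v j))) := by ring
  rw [e1, sg_mul r hne, sg_mul r hne, dy_eq hP, dy_eq hP, dX_eq hP, dX_eq hP]
  have e2 : cp (ν i) (ν j) = (cp (ν i) r.2 * dp (ν j) r.2 - dp (ν i) r.2 * cp (ν j) r.2) /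
      dp r.2 r.2 := by
    rw [eq_div_iff hg]
    simp only [cp, dp]
    ring
  rw [e2]
  ring

lemma kk_eq (hP : Poly n ν v ℓ) (r : ℝ × R2) (hne : ∀ k, af r (v (k + 1)) ≠ af r (v k)) (i j : ℕ) :
    |af r (v (i + 1)) - af r (v i)| * |af r (v (j + 1)) - af r (v j)| *
      |sg r v i - sg r v j| = ℓ i * ℓ j * |cp (ν i) (ν j)| := by
  rw [← abs_mul, ← abs_mul, k_eq hP r hne, abs_mul, abs_mul, abs_of_pos (hP.pos i),
    abs_of_pos (hP.pos j)]

lemma T1_ge (hP : Poly n ν v ℓ) (W : ℕ → ℝ) (hW : ∀ k j, dp (ν k) (v k - v j) ≤ W k)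
    (δ θ : ℕ → ℝ) (hθ : ∀ i, 0 ≤ θ i) (hθW : ∀ i, θ i * W i ≤ δ i) (r : ℝ × R2)
    (hpos : ∀ k, 0 < af r (v k)) (hne : ∀ k, af r (v (k + 1)) ≠ af r (v k)) :
    1 / 2 * (∑ i ∈ range n, ∑ j ∈ range n, ((θ i) ^ 2 * ((af r (v i) + af r (v (i + 1))) / 2) *
      |af r (v (i + 1)) - af r (v i)| * |af r (v (j + 1)) - af r (v j)|) *
      |sg r v i - sg r v j|) ≤ T1 n v ℓ r δ θ := by
  unfold T1
  rw [mul_sum]
  refine sum_le_sum fun i _ => ?_
  have e1 : ∑ j ∈ range n, ((θ i) ^ 2 * ((af r (v i) + af r (v (i + 1))) / 2) *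
      |af r (v (i + 1)) - af r (v i)| * |af r (v (j + 1)) - af r (v j)|) *
      |sg r v i - sg r v j| = (θ i) ^ 2 * EI v ℓ r i * ∑ j ∈ range n, ℓ j * |cp (ν i) (ν j)| := by
    rw [mul_sum]
    refine sum_congr rfl fun j _ => ?_
    have := kk_eq hP r hne i j
    have e2 : ((θ i) ^ 2 * ((af r (v i) + af r (v (i + 1))) / 2) *
      |af r (v (i + 1)) - af r (v i)| * |af r (v (j + 1)) - af r (v j)|) *
      |sg r v i - sg r v j| = (θ i) ^ 2 * ((af r (v i) + af r (v (i + 1))) / 2) *
      (|af r (v (i + 1)) - af r (v i)| * |af r (v (j + 1)) - af r (v j)| *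
      |sg r v i - sg r v j|) := by ring
    rw [e2, this]
    unfold EI
    ring
  rw [e1]
  have h1 := width hP i (W i) (hW i)
  have h2 : 0 ≤ EI v ℓ r i := EI_nonneg hP.pos (fun k => (hpos k).le) i
  have h3 : (θ i) ^ 2 * EI v ℓ r i * ∑ j ∈ range n, ℓ j * |cp (ν i) (ν j)| ≤
      (θ i) ^ 2 * EI v ℓ r i * (2 * W i) := mul_le_mul_of_nonneg_left h1 (by positivity)
  have h4 : θ i * EI v ℓ r i * (θ i * W i) ≤ θ i * EI v ℓ r i * δ i :=
    mul_le_mul_of_nonneg_left (hθW i) (mul_nonneg (hθ i) h2)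
  nlinarith

end

end Pool.G1.Gap
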