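import Pool.Agent.Work.MP_b5407d_g1.Pl_ONE

/-!
# G1, balanced case: the one-dimensional statement for nested families of states

`Stmt_NEST`: as `Stmt_ONE`, but the multipliers may depend on a finite family `S` of pairwise nested
states (`(i, j)` and `(i', j')` are nested if `i ≤ i'` and `j' ≤ j` or vice versa).
-/

set_option autoImplicit false

open Finset

namespace Pool.G1.Gap

/-- nested states -/
def Nst (x y : ℕ × ℕ) : Prop := (x.1 ≤ y.1 ∧ y.2 ≤ x.2) ∨ (y.1 ≤ x.1 ∧ x.2 ≤ y.2)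

/-- the certificate for one nested family on fixed chains -/
def Cert1 (B T : ℝ) (a b : ℕ) (y t z s : ℕ → ℝ) (ka : ℝ) : Prop :=
  ∀ S : Finset (ℕ × ℕ), (∀ x ∈ S, x.1 ≤ a ∧ x.2 ≤ b) → (∀ x ∈ S, ∀ x' ∈ S, Nst x x') →
    ∃ lam mu om : ℝ, ∀ x ∈ S,
      0 ≤ CC B T (QI y t a) (QI z s b) (PI y t a) ka lam mu om (y x.1) (QI y t x.1) (PI y t x.1)
        (z x.2) (QI z s x.2) (PI z s x.2)

/-- **the one-dimensional target for nested families** -/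
def Stmt_NEST (L R : ℝ) : Prop :=
  ∀ (B T : ℝ) (a b : ℕ) (y t z s : ℕ → ℝ), 0 < B → B < T → R * T ≤ B →
    ChG B T a y → ChG B T b z →
    (∀ i, L ≤ t i) → (∀ i, t i ≤ 2 / 3) → (∀ j, L ≤ s j) → (∀ j, s j ≤ 2 / 3) →
    PI y t a = PI z s b → ∀ ka : ℝ,
    L * B ^ 2 ≤ ka → ka ≤ B * (B + T) / 3 → L * (T * (T + B) / 2) ≤ ka + PI y t a →
    ka + PI y t a ≤ 2 / 3 * T ^ 2 → Cert1 B T a b y t z s ka

lemma NEST_of_ONE {L R : ℝ} (h : Stmt_ONE L R) : Stmt_NEST L R := by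
  intro B T a b y t z s h1 h2 h3 h4 h5 h6 h7 h8 h9 h10 ka k1 k2 k3 k4 S hS _
  obtain ⟨lam, mu, om, H⟩ := h B T a b y t z s h1 h2 h3 h4 h5 h6 h7 h8 h9 h10 ka k1 k2 k3 k4
  exact ⟨lam, mu, om, fun x hx => H x.1 (hS x hx).1 x.2 (hS x hx).2⟩

end Pool.G1.Gap
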