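import Pool.Agent.Work.MP_b5407d_g1.Pl_GAP2
import Pool.Agent.Work.MP_b5407d_g1.Pl_NST

/-!
# G1, balanced case: reduction of `A(ρ) ≤ 0` to the one-dimensional statement
-/

set_option autoImplicit false

open Finset

namespace Pool.G1.Gap

/-- threshold of a decreasing block -/
lemma thr (τ : ℕ → ℝ) (c : ℝ) (a b : ℕ) (hab : a ≤ b)
    (anti : ∀ i, a ≤ i → i + 1 < b → τ (i + 1) ≤ τ i) :
    ∃ m, a ≤ m ∧ m ≤ b ∧ ∀ i, a ≤ i → i < b → (c < τ i ↔ i < m) := by
  induction b, hab using Nat.le_induction with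
  | base => exact ⟨a, le_rfl, le_rfl, fun i h1 h2 => by omega⟩
  | succ b hb ih =>
    by_cases hc : c < τ b
    · refine ⟨b + 1, by omega, le_rfl, fun i h1 h2 => ⟨fun _ => h2, fun _ => ?_⟩⟩
      have : ∀ k, k ≤ b - i → c < τ (b - k) := by
        intro k
        induction k with
        | zero => intro _; simpa using hc
        | succ k ihk =>
          intro hk
          have h3 := ihk (by omega)
          have h4 := anti (b - (k + 1)) (by omega) (by omega)
          rw [show b - (k + 1) + 1 = b - k by omega] at h4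
          linarith
      have h5 := this (b - i) le_rfl
      rwa [show b - (b - i) = i by omega] at h5
    · obtain ⟨m, m1, m2, m3⟩ := ih (fun i h1 h2 => anti i h1 (by omega))
      refine ⟨m, m1, by omega, fun i h1 h2 => ?_⟩
      rcases Nat.lt_or_ge i b with h | h
      · exact m3 i h1 h
      · have : i = b := by omega
        subst this
        constructor
        · intro h; exact absurd h hc
        · intro h; omega

/-- sums over a state -/
lemma cut (τ : ℕ → ℝ) (c : ℝ) (n p i0 j1 : ℕ) (hi : i0 ≤ p) (hpn : p ≤ n) (hj : p ≤ j1)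
    (hjn : j1 ≤ n) (h1 : ∀ i, i < p → (c < τ i ↔ i < i0))
    (h2 : ∀ i, p ≤ i → i < n → (c < τ i ↔ i < j1)) (F : ℕ → ℝ) :
    ∑ i ∈ range n, st (τ i) c * (F (i + 1) - F i) = F i0 - F 0 + (F j1 - F p) := by
  set G : ℕ → ℝ := fun i => if i ≤ p then F (min i i0) - F 0
    else F i0 - F 0 + (F (min i j1) - F p) with hG
  have key : ∀ i ∈ range n, st (τ i) c * (F (i + 1) - F i) = G (i + 1) - G i := by
    intro i hi'
    have hin := mem_range.mp hi'
    rcases Nat.lt_or_ge i p with h | h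
    · have e1 : G (i + 1) = F (min (i + 1) i0) - F 0 := by
        simp only [hG]; rw [if_pos (by omega)]
      have e2 : G i = F (min i i0) - F 0 := by
        simp only [hG]; rw [if_pos (by omega)]
      rw [e1, e2]
      by_cases hc : c < τ i
      · have h3 := (h1 i h).mp hc
        rw [st, if_pos hc, show min (i + 1) i0 = i + 1 by omega, show min i i0 = i by omega]
        ring
      · have h3 : ¬ i < i0 := fun h4 => hc ((h1 i h).mpr h4)
        rw [st, if_neg hc, show min (i + 1) i0 = i0 by omega, show min i i0 = i0 by omega]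
        ring
    · have e1 : G (i + 1) = F i0 - F 0 + (F (min (i + 1) j1) - F p) := by
        simp only [hG]; rw [if_neg (by omega)]
      have e2 : G i = F i0 - F 0 + (F (min i j1) - F p) := by
        simp only [hG]
        by_cases h5 : i ≤ p
        · have : i = p := by omega
          subst this
          rw [if_pos le_rfl, show min i i0 = i0 by omega, show min i j1 = i by omega]
          ring
        · rw [if_neg h5]
      rw [e1, e2]
      by_cases hc : c < τ i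
      · have h3 := (h2 i h hin).mp hc
        rw [st, if_pos hc, show min (i + 1) j1 = i + 1 by omega, show min i j1 = i by omega]
        ring
      · have h3 : ¬ i < j1 := fun h4 => hc ((h2 i h hin).mpr h4)
        rw [st, if_neg hc, show min (i + 1) j1 = j1 by omega, show min i j1 = j1 by omega]
        ring
  rw [sum_congr rfl key, sum_range_sub G n]
  have e1 : G 0 = 0 := by simp only [hG]; rw [if_pos (by omega)]; simp
  have e2 : G n = F i0 - F 0 + (F j1 - F p) := by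
    simp only [hG]
    by_cases h5 : n ≤ p
    · have h6 : n = p := by omega
      have h7 : j1 = p := by omega
      rw [if_pos h5, show min n i0 = i0 by omega, h7]
      ring
    · rw [if_neg h5, show min n j1 = j1 by omega]
  rw [e1, e2, sub_zero]

/-- cumulative energy -/
noncomputable def CQ (Y t : ℕ → ℝ) (k : ℕ) : ℝ :=
  ∑ i ∈ range k, (t i) ^ 2 * ((Y i + Y (i + 1)) / 2) * |Y (i + 1) - Y i|

/-- cumulative variation -/
noncomputable def Cq (Y : ℕ → ℝ) (k : ℕ) : ℝ := ∑ i ∈ range k, |Y (i + 1) - Y i|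

lemma CQ_succ (Y t : ℕ → ℝ) (k : ℕ) : CQ Y t (k + 1) =
    CQ Y t k + (t k) ^ 2 * ((Y k + Y (k + 1)) / 2) * |Y (k + 1) - Y k| := sum_range_succ _ _

lemma Cq_succ (Y : ℕ → ℝ) (k : ℕ) : Cq Y (k + 1) = Cq Y k + |Y (k + 1) - Y k| :=
  sum_range_succ _ _

lemma PI_succ (y t : ℕ → ℝ) (k : ℕ) : PI y t (k + 1) =
    PI y t k + t k * ((y (k + 1)) ^ 2 - (y k) ^ 2) / 2 := sum_range_succ _ _

lemma QI_succ (y t : ℕ → ℝ) (k : ℕ) : QI y t (k + 1) =
    QI y t k + (t k) ^ 2 * ((y (k + 1)) ^ 2 - (y k) ^ 2) / 2 := sum_range_succ _ _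

/-- the pair sum at a threshold -/
lemma pair_st (τ : ℕ → ℝ) (c : ℝ) (n : ℕ) (Q q : ℕ → ℝ) :
    ∑ i ∈ range n, ∑ j ∈ range n, Q i * q j * |st (τ i) c - st (τ j) c| =
      (∑ i ∈ range n, st (τ i) c * Q i) * (∑ j ∈ range n, q j - ∑ j ∈ range n, st (τ j) c * q j) +
      (∑ i ∈ range n, Q i - ∑ i ∈ range n, st (τ i) c * Q i) *
        (∑ j ∈ range n, st (τ j) c * q j) := by
  have e : ∀ i j, Q i * q j * |st (τ i) c - st (τ j) c| =
      (st (τ i) c * Q i) * (q j - st (τ j) c * q j) +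
      (Q i - st (τ i) c * Q i) * (st (τ j) c * q j) := by
    intro i j
    unfold st
    by_cases h1 : c < τ i <;> by_cases h2 : c < τ j <;> simp [h1, h2]
  rw [sum_congr rfl fun i _ => sum_congr rfl fun j _ => e i j]
  rw [sum_congr rfl fun i _ => sum_add_distrib, sum_add_distrib]
  rw [← sum_sub_distrib, ← sum_sub_distrib, sum_mul_sum, sum_mul_sum]

/-- one-dimensional core: a cyclic sequence going up on `[0, p)` and down on `[p, n)` -/
theorem core1 (n p : ℕ) (hp : 0 < p) (hpn : p < n) (Y θ P τ : ℕ → ℝ)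
    (up : ∀ k, k < p → Y k < Y (k + 1)) (dn : ∀ k, p ≤ k → k < n → Y (k + 1) < Y k)
    (hYn : Y n = Y 0) (hPn : P n = P 0)
    (hPs : ∀ k, P (k + 1) = P k + θ k * ((Y (k + 1)) ^ 2 - (Y k) ^ 2) / 2)
    (anti1 : ∀ k, k + 1 < p → τ (k + 1) ≤ τ k)
    (anti2 : ∀ k, p ≤ k → k + 1 < n → τ (k + 1) ≤ τ k)
    (cy : ∑ i ∈ range n, τ i * (Y (i + 1) - Y i) = 0)
    (cP : ∑ i ∈ range n, τ i * (P (i + 1) - P i) = 0)
    (cw : ∑ i ∈ range n, τ i * (P (i + 1) / Y (i + 1) - P i / Y i) = 0)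
    (H : Cert1 (Y 0) (Y p) p (n - p) Y θ (fun j => Y (n - j)) (fun j => θ (n - 1 - j)) (P 0)) :
    0 ≤ 1 / 2 * (∑ i ∈ range n, ∑ j ∈ range n, ((θ i) ^ 2 * ((Y i + Y (i + 1)) / 2) *
      |Y (i + 1) - Y i| * |Y (j + 1) - Y j|) * |τ i - τ j|) -
      ∑ i ∈ range n, τ i * (Th (Y (i + 1)) (P (i + 1)) - Th (Y i) (P i)) := by
  choose I I0 I1 I2 using fun c : ℝ => thr τ c 0 p (Nat.zero_le _) (fun i _ h => anti1 i h)
  choose J J0 J1 J2 using fun c : ℝ => thr τ c p n hpn.le (fun i h1 h2 => anti2 i h1 h2)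
  have mI : ∀ c c', c ≤ c' → I c' ≤ I c := by
    intro c c' h
    by_contra hlt
    push Not at hlt
    have h1 := I1 c'
    have h2 := (I2 c' (I c) (Nat.zero_le _) (by omega)).mpr hlt
    have h3 := (I2 c (I c) (Nat.zero_le _) (by omega)).mp (lt_of_le_of_lt h h2)
    omega
  have mJ : ∀ c c', c ≤ c' → J c' ≤ J c := by
    intro c c' h
    by_contra hlt
    push Not at hlt
    have h1 := J1 c'
    have h2 := (J2 c' (J c) (J0 c) (by omega)).mpr hlt
    have h3 := (J2 c (J c) (J0 c) (by omega)).mp (lt_of_le_of_lt h h2)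
    omega
  classical
  obtain ⟨lam, mu, om, H⟩ := H ((range (p + 1) ×ˢ range (n - p + 1)).filter
    fun x => ∃ c, x = (I c, n - J c)) (fun x hx => by
      have h := (mem_filter.mp hx).1
      have h2 := mem_product.mp h
      have h3 := mem_range.mp h2.1
      have h4 := mem_range.mp h2.2
      omega) (fun x hx x' hx' => by
      obtain ⟨c, rfl⟩ := (mem_filter.mp hx).2
      obtain ⟨c', rfl⟩ := (mem_filter.mp hx').2
      rcases le_total c c' with h | h
      · right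
        exact ⟨mI c c' h, Nat.sub_le_sub_left (mJ c c' h) n⟩
      · left
        exact ⟨mI c' c h, Nat.sub_le_sub_left (mJ c' c h) n⟩)
  -- cumulative identities
  have pi1 : ∀ k, P k = P 0 + PI Y θ k := by
    intro k
    induction k with
    | zero => simp [PI]
    | succ k ih => rw [hPs k, PI_succ, ih]; ring
  have cq1 : ∀ k, k ≤ p → Cq Y k = Y k - Y 0 := by
    intro k
    induction k with
    | zero => intro _; simp [Cq]
    | succ k ih =>
      intro hk
      have := up k (by omega)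
      rw [Cq_succ, ih (by omega), abs_of_pos (by linarith)]
      ring
  have cQ1 : ∀ k, k ≤ p → CQ Y θ k = QI Y θ k := by
    intro k
    induction k with
    | zero => intro _; simp [CQ, QI]
    | succ k ih =>
      intro hk
      have := up k (by omega)
      rw [CQ_succ, QI_succ, ih (by omega), abs_of_pos (by linarith)]
      ring
  have cq2 : ∀ k, k ≤ n → p ≤ k → Cq Y k = Y p - Y 0 + (Y p - Y k) := by
    intro k hk hpk
    induction k, hpk using Nat.le_induction with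
    | base => rw [cq1 p le_rfl]; ring
    | succ k hpk ih =>
      have := dn k hpk (by omega)
      rw [Cq_succ, ih (by omega), abs_of_neg (by linarith)]
      ring
  have cQ2 : ∀ j, j ≤ n - p → QI (fun j => Y (n - j)) (fun j => θ (n - 1 - j)) j =
      CQ Y θ n - CQ Y θ (n - j) := by
    intro j
    induction j with
    | zero => intro _; simp [QI]
    | succ j ih =>
      intro hj
      rw [QI_succ, ih (by omega)]
      have e1 : n - 1 - j = n - (j + 1) := by omega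
      have e2 : n - j = n - (j + 1) + 1 := by omega
      have := dn (n - (j + 1)) (by omega) (by omega)
      simp only [e1]
      rw [e2, CQ_succ, abs_of_neg (by linarith)]
      ring
  have pi2 : ∀ j, j ≤ n - p → P (n - j) =
      P 0 + PI (fun j => Y (n - j)) (fun j => θ (n - 1 - j)) j := by
    intro j
    induction j with
    | zero => intro _; simp [PI, hPn]
    | succ j ih =>
      intro hj
      have ih' := ih (by omega)
      rw [PI_succ]
      have e1 : n - 1 - j = n - (j + 1) := by omega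
      have e2 : n - j = n - (j + 1) + 1 := by omega
      have e3 := hPs (n - (j + 1))
      rw [← e2, ih'] at e3
      simp only [e1]
      linarith
  have CQ0 : CQ Y θ 0 = 0 := by simp [CQ]
  have Cq0 : Cq Y 0 = 0 := by simp [Cq]
  set b : ℕ → ℝ := fun i => (Th (Y (i + 1)) (P (i + 1)) - Th (Y i) (P i)) -
    lam * (P (i + 1) - P i) - mu * (Y (i + 1) - Y i) -
    om * (P (i + 1) / Y (i + 1) - P i / Y i) with hb
  have hb0 : ∑ i ∈ range n, b i = 0 := by
    simp only [hb]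
    rw [sum_sub_distrib, sum_sub_distrib, sum_sub_distrib, ← mul_sum, ← mul_sum, ← mul_sum,
      tele (F := fun i => Th (Y i) (P i)) (by simp only [hYn, hPn]),
      tele (F := P) hPn, tele (F := Y) hYn,
      tele (F := fun i => P i / Y i) (by simp only [hYn, hPn])]
    ring
  have hb1 : ∑ i ∈ range n, τ i * b i =
      ∑ i ∈ range n, τ i * (Th (Y (i + 1)) (P (i + 1)) - Th (Y i) (P i)) := by
    have e : ∀ i, τ i * b i = τ i * (Th (Y (i + 1)) (P (i + 1)) - Th (Y i) (P i)) -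
        lam * (τ i * (P (i + 1) - P i)) - mu * (τ i * (Y (i + 1) - Y i)) -
        om * (τ i * (P (i + 1) / Y (i + 1) - P i / Y i)) := by
      intro i; simp only [hb]; ring
    rw [sum_congr rfl fun i _ => e i, sum_sub_distrib, sum_sub_distrib, sum_sub_distrib,
      ← mul_sum, ← mul_sum, ← mul_sum, cy, cP, cw]
    ring
  rw [← hb1]
  refine layer n τ _ b hb0 fun c => ?_
  obtain ⟨i0, hi00⟩ : ∃ i0, i0 = I c := ⟨_, rfl⟩
  obtain ⟨j1, hj11⟩ : ∃ j1, j1 = J c := ⟨_, rfl⟩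
  have hi0 : i0 ≤ p := by rw [hi00]; exact I1 c
  have hi := I2 c
  have hj0 : p ≤ j1 := by rw [hj11]; exact J0 c
  have hj1 : j1 ≤ n := by rw [hj11]; exact J1 c
  have hj := J2 c
  rw [← hi00] at hi
  rw [← hj11] at hj
  have hi' : ∀ i, i < p → (c < τ i ↔ i < i0) := fun i h => hi i (Nat.zero_le _) h
  have K := cut τ c n p i0 j1 hi0 hpn.le hj0 hj1 hi' hj
  have K1 := K (CQ Y θ)
  have K2 := K (Cq Y)
  have K3 := K (fun i => Th (Y i) (P i))
  have K4 := K P
  have K5 := K Y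
  have K6 := K (fun i => P i / Y i)
  have Sb : ∑ i ∈ range n, st (τ i) c * b i =
      (Th (Y i0) (P i0) - Th (Y 0) (P 0) + (Th (Y j1) (P j1) - Th (Y p) (P p))) -
      lam * (P i0 - P 0 + (P j1 - P p)) - mu * (Y i0 - Y 0 + (Y j1 - Y p)) -
      om * (P i0 / Y i0 - P 0 / Y 0 + (P j1 / Y j1 - P p / Y p)) := by
    rw [← K3, ← K4, ← K5, ← K6, mul_sum, mul_sum, mul_sum, ← sum_sub_distrib, ← sum_sub_distrib,
      ← sum_sub_distrib]
    refine sum_congr rfl fun i _ => ?_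
    simp only [hb]
    ring
  have PS := pair_st τ c n (fun i => CQ Y θ (i + 1) - CQ Y θ i) (fun i => Cq Y (i + 1) - Cq Y i)
  rw [K1, K2, sum_range_sub, sum_range_sub] at PS
  have PS' : ∑ i ∈ range n, ∑ j ∈ range n, ((θ i) ^ 2 * ((Y i + Y (i + 1)) / 2) *
      |Y (i + 1) - Y i| * |Y (j + 1) - Y j|) * |st (τ i) c - st (τ j) c| =
      ∑ i ∈ range n, ∑ j ∈ range n, (CQ Y θ (i + 1) - CQ Y θ i) * (Cq Y (j + 1) - Cq Y j) *
        |st (τ i) c - st (τ j) c| := by
    refine sum_congr rfl fun i _ => sum_congr rfl fun j _ => ?_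
    rw [CQ_succ, Cq_succ]
    ring
  rw [PS', PS, Sb]
  have G := H (i0, n - j1) (mem_filter.mpr ⟨mem_product.mpr ⟨mem_range.mpr (by simp only; omega),
    mem_range.mpr (by simp only; omega)⟩, c, by rw [hi00, hj11]⟩)
  simp only at G
  have nj : n - (n - j1) = j1 := by omega
  have np : n - (n - p) = p := by omega
  have q1 := cQ2 (n - j1) (by omega)
  have q2 := cQ2 (n - p) le_rfl
  have q3 := pi2 (n - j1) (by omega)
  have q4 := pi1 i0
  have q5 := pi1 p
  rw [nj] at q1 q3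
  rw [np] at q2
  rw [nj, q1, q2, ← cQ1 p le_rfl, ← cQ1 i0 hi0] at G
  rw [CQ0, Cq0, cq1 i0 hi0, cq2 j1 hj1 hj0, cq1 p le_rfl, cq2 n le_rfl hpn.le, hYn]
  have r1 : PI (fun j => Y (n - j)) (fun j => θ (n - 1 - j)) (n - j1) = P j1 - P 0 := by linarith
  have r2 : PI Y θ i0 = P i0 - P 0 := by linarith
  have r3 : PI Y θ p = P p - P 0 := by linarith
  rw [r1, r2, r3] at G
  unfold CC at G
  have s1 : P 0 + (P i0 - P 0) = P i0 := by ring
  have s2 : P 0 + (P j1 - P 0) = P j1 := by ring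
  have s3 : P 0 + (P p - P 0) = P p := by ring
  rw [s1, s2, s3] at G
  linarith

lemma P_up (Y θ P : ℕ → ℝ) (L C : ℝ) (p : ℕ) (hY : ∀ k, k ≤ p → 0 < Y k)
    (up : ∀ k, k < p → Y k < Y (k + 1)) (hL : ∀ k, L ≤ θ k) (hC : ∀ k, θ k ≤ C)
    (hPs : ∀ k, P (k + 1) = P k + θ k * ((Y (k + 1)) ^ 2 - (Y k) ^ 2) / 2) (i k : ℕ) (hik : i ≤ k)
    (hk : k ≤ p) : L * (((Y k) ^ 2 - (Y i) ^ 2) / 2) ≤ P k - P i ∧
      P k - P i ≤ C * (((Y k) ^ 2 - (Y i) ^ 2) / 2) := by
  induction k, hik using Nat.le_induction with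
  | base => simp
  | succ k hik ih =>
    obtain ⟨h1, h2⟩ := ih (by omega)
    have h3 := up k (by omega)
    have h4 := hY k (by omega)
    have h5 : 0 ≤ (Y (k + 1)) ^ 2 - (Y k) ^ 2 := by nlinarith
    have h6 := mul_le_mul_of_nonneg_right (hL k) h5
    have h7 := mul_le_mul_of_nonneg_right (hC k) h5
    rw [hPs k]
    constructor <;> nlinarith

lemma P_dn (Y θ P : ℕ → ℝ) (L C : ℝ) (p n : ℕ) (hY : ∀ k, k ≤ n → 0 < Y k)
    (dn : ∀ k, p ≤ k → k < n → Y (k + 1) < Y k) (hL : ∀ k, L ≤ θ k) (hC : ∀ k, θ k ≤ C)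
    (hPs : ∀ k, P (k + 1) = P k + θ k * ((Y (k + 1)) ^ 2 - (Y k) ^ 2) / 2) (i k : ℕ) (hi : p ≤ i)
    (hik : i ≤ k) (hk : k ≤ n) : L * (((Y i) ^ 2 - (Y k) ^ 2) / 2) ≤ P i - P k ∧
      P i - P k ≤ C * (((Y i) ^ 2 - (Y k) ^ 2) / 2) := by
  induction k, hik using Nat.le_induction with
  | base => simp
  | succ k hik ih =>
    obtain ⟨h1, h2⟩ := ih (by omega)
    have h3 := dn k (by omega) (by omega)
    have h4 := hY (k + 1) (by omega)
    have h5 : 0 ≤ (Y k) ^ 2 - (Y (k + 1)) ^ 2 := by nlinarith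
    have h6 := mul_le_mul_of_nonneg_right (hL k) h5
    have h7 := mul_le_mul_of_nonneg_right (hC k) h5
    rw [hPs k]
    constructor <;> nlinarith

/-- a linear functional of the state of constant sign integrates to one of the same sign -/
lemma lin_st (n p : ℕ) (hpn : p < n) (τ : ℕ → ℝ)
    (anti1 : ∀ k, k + 1 < p → τ (k + 1) ≤ τ k)
    (anti2 : ∀ k, p ≤ k → k + 1 < n → τ (k + 1) ≤ τ k) (F : ℕ → ℝ) (hF : F n = F 0)
    (H : ∀ i, i ≤ p → ∀ j, p ≤ j → j ≤ n → F i - F 0 + (F j - F p) ≤ 0) :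
    ∑ i ∈ range n, τ i * (F (i + 1) - F i) ≤ 0 := by
  have h := layer n τ (fun _ _ => 0) (fun i => F (i + 1) - F i) (tele hF) (fun c => by
    obtain ⟨i0, -, hi0, hi⟩ := thr τ c 0 p (Nat.zero_le _) (fun i _ h => anti1 i h)
    obtain ⟨j1, hj0, hj1, hj⟩ := thr τ c p n hpn.le (fun i h1 h2 => anti2 i h1 h2)
    have hi' : ∀ i, i < p → (c < τ i ↔ i < i0) := fun i h => hi i (Nat.zero_le _) h
    have K := cut τ c n p i0 j1 hi0 hpn.le hj0 hj1 hi' hj F
    rw [K]
    have := H i0 hi0 j1 hj0 hj1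
    simp only [zero_mul, sum_const_zero, mul_zero]
    linarith)
  simp only [zero_mul, sum_const_zero, mul_zero] at h
  linarith

/-- `(1/al - 1/T)(al² - B²)/2 ≤ B (B+T)/2 ψ(al)` and the other three elementary bounds, where
`ψ = 1/B + 1/T - al/(BT) - 1/al` -/
lemma psi_bounds {B T al : ℝ} (hB : 0 < B) (h1 : B ≤ al) (h2 : al ≤ T) :
    0 ≤ 1 / B + 1 / T - al / (B * T) - 1 / al ∧
    (1 / al - 1 / T) * ((al ^ 2 - B ^ 2) / 2) ≤
      B * (B + T) / 2 * (1 / B + 1 / T - al / (B * T) - 1 / al) ∧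
    B ^ 2 * (1 / B + 1 / T - al / (B * T) - 1 / al) ≤ (1 / al - 1 / T) * ((al ^ 2 - B ^ 2) / 2) ∧
    (1 / B - 1 / al) * ((T ^ 2 - al ^ 2) / 2) ≤
      T ^ 2 * (1 / B + 1 / T - al / (B * T) - 1 / al) ∧
    T * (T + B) / 2 * (1 / B + 1 / T - al / (B * T) - 1 / al) ≤
      (1 / B - 1 / al) * ((T ^ 2 - al ^ 2) / 2) ∧ 0 ≤ 1 / al - 1 / T ∧ 0 ≤ 1 / B - 1 / al := by
  have hal : 0 < al := lt_of_lt_of_le hB h1
  have hT : 0 < T := lt_of_lt_of_le hal h2
  have e : 1 / B + 1 / T - al / (B * T) - 1 / al = (al - B) * (T - al) / (al * T * B) := by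
    field_simp; ring
  have p0 : 0 ≤ (al - B) * (T - al) := mul_nonneg (by linarith) (by linarith)
  rw [e]
  refine ⟨by positivity, ?_, ?_, ?_, ?_, ?_, ?_⟩
  · have : B * (B + T) / 2 * ((al - B) * (T - al) / (al * T * B)) -
        (1 / al - 1 / T) * ((al ^ 2 - B ^ 2) / 2) = (al - B) * (T - al) * (T - al) / (2 * al * T) := by
      field_simp; ring
    have h3 : 0 ≤ (al - B) * (T - al) * (T - al) / (2 * al * T) :=
      div_nonneg (mul_nonneg p0 (by linarith)) (by positivity)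
    linarith
  · have : (1 / al - 1 / T) * ((al ^ 2 - B ^ 2) / 2) -
        B ^ 2 * ((al - B) * (T - al) / (al * T * B)) =
        (al - B) * (T - al) * (al - B) / (2 * al * T) := by
      field_simp; ring
    have h3 : 0 ≤ (al - B) * (T - al) * (al - B) / (2 * al * T) :=
      div_nonneg (mul_nonneg p0 (by linarith)) (by positivity)
    linarith
  · have : T ^ 2 * ((al - B) * (T - al) / (al * T * B)) -
        (1 / B - 1 / al) * ((T ^ 2 - al ^ 2) / 2) =
        (al - B) * (T - al) * (T - al) / (2 * al * B) := by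
      field_simp; ring
    have h3 : 0 ≤ (al - B) * (T - al) * (T - al) / (2 * al * B) :=
      div_nonneg (mul_nonneg p0 (by linarith)) (by positivity)
    linarith
  · have : (1 / B - 1 / al) * ((T ^ 2 - al ^ 2) / 2) -
        T * (T + B) / 2 * ((al - B) * (T - al) / (al * T * B)) =
        (al - B) * (T - al) * (al - B) / (2 * al * B) := by
      field_simp; ring
    have h3 : 0 ≤ (al - B) * (T - al) * (al - B) / (2 * al * B) :=
      div_nonneg (mul_nonneg p0 (by linarith)) (by positivity)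
    linarith
  · have := one_div_le_one_div_of_le hal h2
    linarith
  · have := one_div_le_one_div_of_le hB h1
    linarith

/-- **V-box**: bounds of the constant of the potential from the closure of `P / y` -/
theorem vbox (n p : ℕ) (hpn : p < n) (Y θ P τ : ℕ → ℝ) (L C : ℝ)
    (hY0 : ∀ k, k ≤ n → 0 < Y k)
    (up : ∀ k, k < p → Y k < Y (k + 1)) (dn : ∀ k, p ≤ k → k < n → Y (k + 1) < Y k)
    (hYn : Y n = Y 0) (hPn : P n = P 0)
    (hPs : ∀ k, P (k + 1) = P k + θ k * ((Y (k + 1)) ^ 2 - (Y k) ^ 2) / 2)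
    (anti1 : ∀ k, k + 1 < p → τ (k + 1) ≤ τ k)
    (anti2 : ∀ k, p ≤ k → k + 1 < n → τ (k + 1) ≤ τ k)
    (cy : ∑ i ∈ range n, τ i * (Y (i + 1) - Y i) = 0)
    (cP : ∑ i ∈ range n, τ i * (P (i + 1) - P i) = 0)
    (cw : ∑ i ∈ range n, τ i * (P (i + 1) / Y (i + 1) - P i / Y i) = 0)
    (ci : ∑ i ∈ range n, τ i * (1 / Y (i + 1) - 1 / Y i) < 0)
    (hL0 : 0 ≤ L) (hL : ∀ k, L ≤ θ k) (hC : ∀ k, θ k ≤ C) :
    L * (Y 0) ^ 2 ≤ P 0 ∧ P 0 ≤ C * (Y 0 * (Y 0 + Y p) / 2) ∧
      L * (Y p * (Y p + Y 0) / 2) ≤ P p ∧ P p ≤ C * (Y p) ^ 2 := by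
  have hB := hY0 0 (Nat.zero_le _)
  have hT := hY0 p hpn.le
  have Yr : ∀ i, i ≤ p → Y 0 ≤ Y i ∧ Y i ≤ Y p := by
    intro i hi
    have a1 : ∀ k, k ≤ p → Y 0 ≤ Y k := by
      intro k
      induction k with
      | zero => intro _; exact le_rfl
      | succ k ih => intro hk; exact (ih (by omega)).trans (up k (by omega)).le
    have a2 : ∀ k, i ≤ k → k ≤ p → Y i ≤ Y k := by
      intro k hk
      induction k, hk using Nat.le_induction with
      | base => intro _; exact le_rfl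
      | succ k hk ih => intro h; exact (ih (by omega)).trans (up k (by omega)).le
    exact ⟨a1 i hi, a2 p hi le_rfl⟩
  have Yl : ∀ j, p ≤ j → j ≤ n → Y 0 ≤ Y j ∧ Y j ≤ Y p := by
    intro j hpj hjn
    have a1 : ∀ k, p ≤ k → k ≤ n → Y k ≤ Y p := by
      intro k hk
      induction k, hk using Nat.le_induction with
      | base => intro _; exact le_rfl
      | succ k hk ih => intro h; exact (dn k hk (by omega)).le.trans (ih (by omega))
    have a2 : ∀ k, j ≤ k → k ≤ n → Y k ≤ Y j := by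
      intro k hk
      induction k, hk using Nat.le_induction with
      | base => intro _; exact le_rfl
      | succ k hk ih => intro h; exact (dn k (by omega) (by omega)).le.trans (ih (by omega))
    exact ⟨by rw [← hYn]; exact a2 n hjn le_rfl, a1 j hpj hjn⟩
  -- linear combination of the closures
  have comb : ∀ (c1 c2 c3 c4 : ℝ),
      ∑ i ∈ range n, τ i * ((c1 * (P (i + 1) / Y (i + 1)) + c2 * P (i + 1) + c3 * Y (i + 1) +
        c4 * (1 / Y (i + 1))) - (c1 * (P i / Y i) + c2 * P i + c3 * Y i + c4 * (1 / Y i))) =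
      c4 * ∑ i ∈ range n, τ i * (1 / Y (i + 1) - 1 / Y i) := by
    intro c1 c2 c3 c4
    have e : ∀ i, τ i * ((c1 * (P (i + 1) / Y (i + 1)) + c2 * P (i + 1) + c3 * Y (i + 1) +
        c4 * (1 / Y (i + 1))) - (c1 * (P i / Y i) + c2 * P i + c3 * Y i + c4 * (1 / Y i))) =
        c1 * (τ i * (P (i + 1) / Y (i + 1) - P i / Y i)) + c2 * (τ i * (P (i + 1) - P i)) +
        c3 * (τ i * (Y (i + 1) - Y i)) + c4 * (τ i * (1 / Y (i + 1) - 1 / Y i)) := by
      intro i; ring
    rw [sum_congr rfl fun i _ => e i, sum_add_distrib, sum_add_distrib, sum_add_distrib,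
      ← mul_sum, ← mul_sum, ← mul_sum, ← mul_sum, cw, cP, cy]
    ring
  have key : ∀ (c1 c2 c3 c4 : ℝ), (∀ i, i ≤ p → ∀ j, p ≤ j → j ≤ n →
      (c1 * (P i / Y i) + c2 * P i + c3 * Y i + c4 * (1 / Y i)) -
      (c1 * (P 0 / Y 0) + c2 * P 0 + c3 * Y 0 + c4 * (1 / Y 0)) +
      ((c1 * (P j / Y j) + c2 * P j + c3 * Y j + c4 * (1 / Y j)) -
      (c1 * (P p / Y p) + c2 * P p + c3 * Y p + c4 * (1 / Y p))) ≤ 0) → 0 ≤ c4 := by
    intro c1 c2 c3 c4 H
    have h := lin_st n p hpn τ anti1 anti2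
      (fun k => c1 * (P k / Y k) + c2 * P k + c3 * Y k + c4 * (1 / Y k))
      (by simp only [hYn, hPn]) H
    rw [comb] at h
    by_contra hc
    push Not at hc
    have := mul_pos_of_neg_of_neg hc ci
    linarith
  have idB : ∀ (U : ℝ) (i j : ℕ), Y i ≠ 0 → Y j ≠ 0 →
      (1 * (P i / Y i) + -(1 / Y p) * P i + (P 0 / (Y 0 * Y p) - (P 0 - U) / (Y 0 * Y p)) * Y i +
        -(P 0 - U) * (1 / Y i)) -
      (1 * (P 0 / Y 0) + -(1 / Y p) * P 0 + (P 0 / (Y 0 * Y p) - (P 0 - U) / (Y 0 * Y p)) * Y 0 +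
        -(P 0 - U) * (1 / Y 0)) +
      ((1 * (P j / Y j) + -(1 / Y p) * P j + (P 0 / (Y 0 * Y p) - (P 0 - U) / (Y 0 * Y p)) * Y j +
        -(P 0 - U) * (1 / Y j)) -
      (1 * (P p / Y p) + -(1 / Y p) * P p + (P 0 / (Y 0 * Y p) - (P 0 - U) / (Y 0 * Y p)) * Y p +
        -(P 0 - U) * (1 / Y p))) =
      ((1 / Y i - 1 / Y p) * (P i - P 0) -
        U * (1 / Y 0 + 1 / Y p - Y i / (Y 0 * Y p) - 1 / Y i)) +
      ((1 / Y j - 1 / Y p) * (P j - P 0) -
        U * (1 / Y 0 + 1 / Y p - Y j / (Y 0 * Y p) - 1 / Y j)) := by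
    intro U i j h1 h2
    have h3 := hB.ne'
    have h4 := hT.ne'
    field_simp
    ring
  have idT : ∀ (U : ℝ) (i j : ℕ), Y i ≠ 0 → Y j ≠ 0 →
      (1 * (P i / Y i) + -(1 / Y 0) * P i + (P p / (Y 0 * Y p) - (P p - U) / (Y 0 * Y p)) * Y i +
        -(P p - U) * (1 / Y i)) -
      (1 * (P 0 / Y 0) + -(1 / Y 0) * P 0 + (P p / (Y 0 * Y p) - (P p - U) / (Y 0 * Y p)) * Y 0 +
        -(P p - U) * (1 / Y 0)) +
      ((1 * (P j / Y j) + -(1 / Y 0) * P j + (P p / (Y 0 * Y p) - (P p - U) / (Y 0 * Y p)) * Y j +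
        -(P p - U) * (1 / Y j)) -
      (1 * (P p / Y p) + -(1 / Y 0) * P p + (P p / (Y 0 * Y p) - (P p - U) / (Y 0 * Y p)) * Y p +
        -(P p - U) * (1 / Y p))) =
      ((1 / Y 0 - 1 / Y i) * (P p - P i) -
        U * (1 / Y 0 + 1 / Y p - Y i / (Y 0 * Y p) - 1 / Y i)) +
      ((1 / Y 0 - 1 / Y j) * (P p - P j) -
        U * (1 / Y 0 + 1 / Y p - Y j / (Y 0 * Y p) - 1 / Y j)) := by
    intro U i j h1 h2
    have h3 := hB.ne'
    have h4 := hT.ne'
    field_simp
    ring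
  -- bounds of the increments
  have up1 := fun i (hi : i ≤ p) => P_up Y θ P L C p (fun k hk => hY0 k (by omega)) up hL hC hPs
    0 i (Nat.zero_le _) hi
  have up2 := fun i (hi : i ≤ p) => P_up Y θ P L C p (fun k hk => hY0 k (by omega)) up hL hC hPs
    i p hi le_rfl
  have dn1 := fun j (hj : p ≤ j) (hjn : j ≤ n) => P_dn Y θ P L C p n hY0 dn hL hC hPs
    j n hj hjn le_rfl
  have dn2 := fun j (hj : p ≤ j) (hjn : j ≤ n) => P_dn Y θ P L C p n hY0 dn hL hC hPs
    p j le_rfl hj hjn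
  have hC0 : 0 ≤ C := hL0.trans ((hL 0).trans (hC 0))
  have psi := fun al h1 h2 => psi_bounds (B := Y 0) (T := Y p) (al := al) hB h1 h2
  have pr : ∀ i, i ≤ p → P i - P 0 ≤ C * (((Y i) ^ 2 - (Y 0) ^ 2) / 2) ∧
      L * (((Y i) ^ 2 - (Y 0) ^ 2) / 2) ≤ P i - P 0 := fun i hi => ⟨(up1 i hi).2, (up1 i hi).1⟩
  have pl : ∀ j, p ≤ j → j ≤ n → P j - P 0 ≤ C * (((Y j) ^ 2 - (Y 0) ^ 2) / 2) ∧
      L * (((Y j) ^ 2 - (Y 0) ^ 2) / 2) ≤ P j - P 0 := fun j hj hjn => by
    have := dn1 j hj hjn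
    rw [hPn, hYn] at this
    exact ⟨this.2, this.1⟩
  -- the elementary estimates at one height
  have e1 : ∀ al x, Y 0 ≤ al → al ≤ Y p → x ≤ C * ((al ^ 2 - (Y 0) ^ 2) / 2) →
      (1 / al - 1 / Y p) * x - C * (Y 0 * (Y 0 + Y p) / 2) *
        (1 / Y 0 + 1 / Y p - al / (Y 0 * Y p) - 1 / al) ≤ 0 := by
    intro al x h1 h2 hx
    obtain ⟨b0, b1, -, -, -, b5, -⟩ := psi al h1 h2
    have h3 := mul_le_mul_of_nonneg_left hx b5
    have h4 := mul_le_mul_of_nonneg_left b1 hC0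
    nlinarith
  have e2 : ∀ al x, Y 0 ≤ al → al ≤ Y p → L * ((al ^ 2 - (Y 0) ^ 2) / 2) ≤ x →
      0 ≤ (1 / al - 1 / Y p) * x - L * (Y 0) ^ 2 *
        (1 / Y 0 + 1 / Y p - al / (Y 0 * Y p) - 1 / al) := by
    intro al x h1 h2 hx
    obtain ⟨b0, -, b2, -, -, b5, -⟩ := psi al h1 h2
    have h3 := mul_le_mul_of_nonneg_left hx b5
    have h4 := mul_le_mul_of_nonneg_left b2 hL0
    nlinarith
  have e3 : ∀ al x, Y 0 ≤ al → al ≤ Y p → x ≤ C * (((Y p) ^ 2 - al ^ 2) / 2) →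
      (1 / Y 0 - 1 / al) * x - C * (Y p) ^ 2 *
        (1 / Y 0 + 1 / Y p - al / (Y 0 * Y p) - 1 / al) ≤ 0 := by
    intro al x h1 h2 hx
    obtain ⟨b0, -, -, b3, -, -, b6⟩ := psi al h1 h2
    have h3 := mul_le_mul_of_nonneg_left hx b6
    have h4 := mul_le_mul_of_nonneg_left b3 hC0
    nlinarith
  have e4 : ∀ al x, Y 0 ≤ al → al ≤ Y p → L * (((Y p) ^ 2 - al ^ 2) / 2) ≤ x →
      0 ≤ (1 / Y 0 - 1 / al) * x - L * (Y p * (Y p + Y 0) / 2) *
        (1 / Y 0 + 1 / Y p - al / (Y 0 * Y p) - 1 / al) := by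
    intro al x h1 h2 hx
    obtain ⟨b0, -, -, -, b4, -, b6⟩ := psi al h1 h2
    have h3 := mul_le_mul_of_nonneg_left hx b6
    have h4 := mul_le_mul_of_nonneg_left b4 hL0
    nlinarith
  refine ⟨?_, ?_, ?_, ?_⟩
  · have := key (-1) (1 / Y p) (-(P 0 / (Y 0 * Y p) - (P 0 - L * (Y 0) ^ 2) / (Y 0 * Y p)))
      (P 0 - L * (Y 0) ^ 2) (fun i hi j hj hjn => by
        have id := idB (L * (Y 0) ^ 2) i j (hY0 i (by omega)).ne' (hY0 j hjn).ne'
        have h1 := e2 (Y i) (P i - P 0) (Yr i hi).1 (Yr i hi).2 (pr i hi).2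
        have h2 := e2 (Y j) (P j - P 0) (Yl j hj hjn).1 (Yl j hj hjn).2 (pl j hj hjn).2
        linarith)
    linarith
  · have := key 1 (-(1 / Y p)) (P 0 / (Y 0 * Y p) -
      (P 0 - C * (Y 0 * (Y 0 + Y p) / 2)) / (Y 0 * Y p))
      (-(P 0 - C * (Y 0 * (Y 0 + Y p) / 2))) (fun i hi j hj hjn => by
        have id := idB (C * (Y 0 * (Y 0 + Y p) / 2)) i j (hY0 i (by omega)).ne' (hY0 j hjn).ne'
        have h1 := e1 (Y i) (P i - P 0) (Yr i hi).1 (Yr i hi).2 (pr i hi).1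
        have h2 := e1 (Y j) (P j - P 0) (Yl j hj hjn).1 (Yl j hj hjn).2 (pl j hj hjn).1
        rw [id]
        linarith)
    linarith
  · have := key (-1) (1 / Y 0) (-(P p / (Y 0 * Y p) -
      (P p - L * (Y p * (Y p + Y 0) / 2)) / (Y 0 * Y p)))
      (P p - L * (Y p * (Y p + Y 0) / 2)) (fun i hi j hj hjn => by
        have id := idT (L * (Y p * (Y p + Y 0) / 2)) i j (hY0 i (by omega)).ne' (hY0 j hjn).ne'
        have h1 := e4 (Y i) (P p - P i) (Yr i hi).1 (Yr i hi).2 (up2 i hi).1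
        have h2 := e4 (Y j) (P p - P j) (Yl j hj hjn).1 (Yl j hj hjn).2 (dn2 j hj hjn).1
        linarith)
    linarith
  · have := key 1 (-(1 / Y 0)) (P p / (Y 0 * Y p) - (P p - C * (Y p) ^ 2) / (Y 0 * Y p))
      (-(P p - C * (Y p) ^ 2)) (fun i hi j hj hjn => by
        have id := idT (C * (Y p) ^ 2) i j (hY0 i (by omega)).ne' (hY0 j hjn).ne'
        have h1 := e3 (Y i) (P p - P i) (Yr i hi).1 (Yr i hi).2 (up2 i hi).2
        have h2 := e3 (Y j) (P p - P j) (Yl j hj hjn).1 (Yl j hj hjn).2 (dn2 j hj hjn).2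
        rw [id]
        linarith)
    linarith

end Pool.G1.Gap
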