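import Pool.Agent.Work.MP_b5407d_g1.Pl_GAP3

/-!
# G1, balanced case: `Stmt_ONE → Stmt_BAL`
-/

set_option autoImplicit false

open Finset

namespace Pool.G1.Gap

section
variable {n : ℕ} {ν v : ℕ → R2} {ℓ : ℕ → ℝ}

/-- **core**: a balanced pair `(ρ, θ)`, `ρ > 0`, no edge parallel to the level lines of `ρ`, gives two
chains; the one-dimensional certificate for these chains gives `A(ρ) ≤ 0`. -/
theorem core (hE : Stmt_PEU) (hM : Stmt_PMI) (hP : Poly n ν v ℓ) (W : ℕ → ℝ)
    (hW : ∀ k j, dp (ν k) (v k - v j) ≤ W k) (δ θ : ℕ → ℝ)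
    (hδ : ∀ i, δ (i + n) = δ i) (hθ : ∀ i, θ (i + n) = θ i) (hθ0 : ∀ i, 0 ≤ θ i)
    (hθW : ∀ i, θ i * W i ≤ δ i) (hS : ∑ i ∈ range n, ℓ i * δ i = 2 * ar n v)
    (r : ℝ × R2) (hpos : ∀ k, 0 < af r (v k)) (hne : ∀ k, af r (v (k + 1)) ≠ af r (v k))
    (hbal : ∑ i ∈ range n, (θ i * EI v ℓ r i) • ν i = 0) :
    ∃ (B T : ℝ) (a b : ℕ) (y t z s : ℕ → ℝ) (ka : ℝ), 0 < B ∧ B < T ∧ ChG B T a y ∧ ChG B T b z ∧
      (∀ i, ∃ k, t i = θ k) ∧ (∀ j, ∃ k, s j = θ k) ∧ (∀ k, B ≤ af r (v k)) ∧
      (∀ k, af r (v k) ≤ T) ∧ (∃ k, af r (v k) = B) ∧ (∃ k, af r (v k) = T) ∧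
      PI y t a = PI z s b ∧
      (∀ L C : ℝ, 0 ≤ L → (∀ k, L ≤ θ k) → (∀ k, θ k ≤ C) → L * B ^ 2 ≤ ka ∧
        ka ≤ C * (B * (B + T) / 2) ∧ L * (T * (T + B) / 2) ≤ ka + PI y t a ∧
        ka + PI y t a ≤ C * T ^ 2) ∧
      (Cert1 B T a b y t z s ka → AA n ν v ℓ δ θ r ≤ 0) := by
  obtain ⟨P, Pn, Ps, hcP, hcw, hA⟩ := gap1 hE hM hP δ hδ hθ hS r hpos hne hbal
  have hg := g_pos v r hne
  have hu : ∀ k, dp (-rt r.2) (ν k) ≠ 0 := by
    intro k h
    apply hne k
    have h1 := dy_eq hP r k
    have h2 : dp (-rt r.2) (ν k) = cp (ν k) r.2 := by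
      simp only [dp, rt, cp, Prod.fst_neg, Prod.snd_neg]; ring
    rw [← h2, h, mul_zero] at h1
    linarith
  obtain ⟨s, p, hp0, hpn, hs1, hs2⟩ := Order.blocks hP hP.inj (-rt r.2) hu
  have sgn : ∀ k, af r (v (k + 1)) - af r (v k) = ℓ k * dp (-rt r.2) (ν k) := by
    intro k
    rw [dy_eq hP r k]
    congr 1
    simp only [dp, rt, cp, Prod.fst_neg, Prod.snd_neg]; ring
  have up : ∀ k, k < p → af r (v (s + k)) < af r (v (s + (k + 1))) := by
    intro k hk
    have h1 := sgn (s + k)
    have h2 := mul_pos (hP.pos (s + k)) (hs1 k hk)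
    rw [← h1] at h2
    rw [show s + (k + 1) = s + k + 1 by ring]
    linarith
  have dn : ∀ k, p ≤ k → k < n → af r (v (s + (k + 1))) < af r (v (s + k)) := by
    intro k hk hkn
    have h1 := sgn (s + k)
    have h2 := mul_neg_of_pos_of_neg (hP.pos (s + k)) (hs2 k hk hkn)
    rw [← h1] at h2
    rw [show s + (k + 1) = s + k + 1 by ring]
    linarith
  have yper := y_per hP r
  have yper1 : ∀ k, af r (v (k + n + 1)) = af r (v (k + 1)) := fun k => by
    rw [show k + n + 1 = k + 1 + n by ring, yper]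
  have Xper : ∀ k, XX r (v (k + n)) = XX r (v k) := fun k => by rw [hP.pv]
  have Xper1 : ∀ k, XX r (v (k + n + 1)) = XX r (v (k + 1)) := fun k => by
    rw [show k + n + 1 = k + 1 + n by ring, Xper]
  have sper : ∀ k, sg r v (k + n) = sg r v k := fun k => by
    unfold sg; rw [yper1, yper, Xper1, Xper]
  have Pn1 : ∀ k, P (k + n + 1) = P (k + 1) := fun k => by
    rw [show k + n + 1 = k + 1 + n by ring, Pn]
  have anti : ∀ k, 0 < (af r (v (s + k + 1)) - af r (v (s + k))) *
      (af r (v (s + k + 1 + 1)) - af r (v (s + k + 1))) →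
      sg r v (s + (k + 1)) ≤ sg r v (s + k) := by
    intro k hk
    have h1 := k_eq hP r hne (s + k) (s + k + 1)
    have h2 := mul_pos (mul_pos (hP.pos (s + k)) (hP.pos (s + k + 1))) (hP.turn (s + k))
    rw [← h1] at h2
    have h3 := (pos_iff_pos_of_mul_pos h2).mp hk
    rw [show s + (k + 1) = s + k + 1 by ring]
    linarith
  have anti1 : ∀ k, k + 1 < p → sg r v (s + (k + 1)) ≤ sg r v (s + k) := by
    intro k hk
    refine anti k (mul_pos ?_ ?_)
    · have := up k (by omega)
      rw [show s + (k + 1) = s + k + 1 by ring] at this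
      linarith
    · have := up (k + 1) hk
      rw [show s + (k + 1 + 1) = s + k + 1 + 1 by ring,
        show s + (k + 1) = s + k + 1 by ring] at this
      linarith
  have anti2 : ∀ k, p ≤ k → k + 1 < n → sg r v (s + (k + 1)) ≤ sg r v (s + k) := by
    intro k hk hkn
    refine anti k (mul_pos_of_neg_of_neg ?_ ?_)
    · have := dn k hk (by omega)
      rw [show s + (k + 1) = s + k + 1 by ring] at this
      linarith
    · have := dn (k + 1) (by omega) hkn
      rw [show s + (k + 1 + 1) = s + k + 1 + 1 by ring,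
        show s + (k + 1) = s + k + 1 by ring] at this
      linarith
  -- shifted sequences
  set Y : ℕ → ℝ := fun k => af r (v (s + k)) with hY
  have Yn : Y n = Y 0 := by simp only [hY]; rw [yper]; simp
  have cy : ∑ i ∈ range n, sg r v (s + i) * (Y (i + 1) - Y i) = 0 := by
    have e := SQK.sum_shift (n := n) (f := fun i => sg r v i * (af r (v (i + 1)) - af r (v i)))
      (fun i => by simp only [sper, yper1, yper]) s
    have e2 : ∑ i ∈ range n, sg r v i * (af r (v (i + 1)) - af r (v i)) = 0 := by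
      rw [sum_congr rfl fun i _ => sg_mul r hne i]
      exact tele (F := fun i => XX r (v i)) (by have := Xper 0; rwa [zero_add] at this)
    rw [e2] at e
    exact e
  have cP : ∑ i ∈ range n, sg r v (s + i) * (P (s + (i + 1)) - P (s + i)) = 0 := by
    have e := SQK.sum_shift (n := n) (f := fun i => sg r v i * (P (i + 1) - P i))
      (fun i => by simp only [sper, Pn, Pn1]) s
    rw [hcP] at e
    exact e
  have cw : ∑ i ∈ range n, sg r v (s + i) * (P (s + (i + 1)) / Y (i + 1) -
      P (s + i) / Y i) = 0 := by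
    have e := SQK.sum_shift (n := n) (f := fun i => sg r v i * (P (i + 1) / af r (v (i + 1)) -
      P i / af r (v i))) (fun i => by simp only [sper, Pn, Pn1, yper, yper1]) s
    rw [hcw] at e
    exact e
  have C1 := core1 n p hp0 hpn Y (fun k => θ (s + k)) (fun k => P (s + k))
    (fun k => sg r v (s + k)) up dn Yn (by simp only [Pn]; simp)
    (fun k => Ps (s + k)) anti1 anti2 cy cP cw
  have Yup : ∀ k, k ≤ p → Y 0 ≤ Y k := by
    intro k
    induction k with
    | zero => intro _; exact le_rfl
    | succ k ih => intro hk; exact (ih (by omega)).trans (up k (by omega)).le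
  have Yup2 : ∀ j, j ≤ p → Y (p - j) ≤ Y p := by
    intro j
    induction j with
    | zero => intro _; simp
    | succ j ih =>
      intro hj
      have h1 := up (p - (j + 1)) (by omega)
      have h2 : Y (p - (j + 1)) < Y (p - (j + 1) + 1) := h1
      rw [show p - (j + 1) + 1 = p - j by omega] at h2
      exact h2.le.trans (ih (by omega))
  have Ydn : ∀ k, k ≤ n → p ≤ k → Y k ≤ Y p := by
    intro k hk hpk
    induction k, hpk using Nat.le_induction with
    | base => exact le_rfl
    | succ k hpk ih => exact (dn k hpk (by omega)).le.trans (ih (by omega))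
  have Ydn2 : ∀ j, j ≤ n - p → Y 0 ≤ Y (n - j) := by
    intro j
    induction j with
    | zero => intro _; simp [Yn]
    | succ j ih =>
      intro hj
      have h2 : Y (n - (j + 1) + 1) < Y (n - (j + 1)) := dn (n - (j + 1)) (by omega) (by omega)
      rw [show n - (j + 1) + 1 = n - j by omega] at h2
      exact (ih (by omega)).trans h2.le
  have rng : ∀ k, Y 0 ≤ Y k ∧ Y k ≤ Y p := by
    have base : ∀ k, k < n → Y 0 ≤ Y k ∧ Y k ≤ Y p := by
      intro k hk
      rcases Nat.lt_or_ge k p with h | h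
      · refine ⟨Yup k h.le, ?_⟩
        have := Yup2 (p - k) (by omega)
        rwa [show p - (p - k) = k by omega] at this
      · refine ⟨?_, Ydn k hk.le h⟩
        have := Ydn2 (n - k) (by omega)
        rwa [show n - (n - k) = k by omega] at this
    intro k
    have hYp : ∀ k, Y (k + n) = Y k := fun k => by
      simp only [hY]; rw [show s + (k + n) = s + k + n by ring, yper]
    have e := Order.per_mod hYp k
    rw [← e]
    exact base _ (Nat.mod_lt _ (by omega))
  have allr : ∀ k, Y 0 ≤ af r (v k) ∧ af r (v k) ≤ Y p := by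
    intro k
    -- choose an index congruent to `k` beyond `s`
    have h1 : af r (v k) = Y (k + s * n - s) := by
      simp only [hY]
      have h3 : s ≤ k + s * n := by nlinarith [hP.n3]
      rw [show s + (k + s * n - s) = k + s * n by omega]
      exact Order.per_mul (f := fun k => af r (v k)) yper _ _ (by simp)
    rw [h1]
    exact rng _
  have ci : ∑ i ∈ range n, sg r v (s + i) * (1 / Y (i + 1) - 1 / Y i) < 0 := by
    have e := SQK.sum_shift (n := n) (f := fun i => sg r v i * (1 / af r (v (i + 1)) -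
      1 / af r (v i))) (fun i => by simp only [sper, yper, yper1]) s
    have e2 : ∑ i ∈ range n, sg r v i * (1 / af r (v (i + 1)) - 1 / af r (v i)) =
        -∑ k ∈ range n, (XX r (v (k + 1)) - XX r (v k)) / (af r (v k) * af r (v (k + 1))) := by
      rw [← sum_neg_distrib]
      refine sum_congr rfl fun i _ => ?_
      have h1 := (hpos i).ne'
      have h2 := (hpos (i + 1)).ne'
      rw [← sg_mul r hne i]
      field_simp
      ring
    have e3 := clo_pos hE hP r hg hpos
    rw [e2] at e
    have e4 : ∑ i ∈ range n, sg r v (s + i) * (1 / Y (i + 1) - 1 / Y i) =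
        -∑ k ∈ range n, (XX r (v (k + 1)) - XX r (v k)) / (af r (v k) * af r (v (k + 1))) := e
    rw [e4]
    linarith
  have pi1 : ∀ k, P (s + k) = P s + PI Y (fun k => θ (s + k)) k := by
    intro k
    induction k with
    | zero => simp [PI]
    | succ k ih =>
      have := Ps (s + k)
      rw [PI_succ, show s + (k + 1) = s + k + 1 by ring, this, ih]
      simp only [hY]
      rw [show s + (k + 1) = s + k + 1 by ring]
      ring
  refine ⟨Y 0, Y p, p, n - p, Y, fun k => θ (s + k), fun j => Y (n - j),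
    fun j => θ (s + (n - 1 - j)), P s, hpos _, ?_, ⟨hp0, rfl, rfl, up⟩, ⟨by omega, ?_, ?_, ?_⟩,
    fun i => ⟨_, rfl⟩, fun j => ⟨_, rfl⟩, fun k => (allr k).1, fun k => (allr k).2, ⟨_, rfl⟩,
    ⟨_, rfl⟩, ?_, ?_, ?_⟩
  · have h1 := up 0 hp0
    have h2 := (rng 1).2
    exact lt_of_lt_of_le h1 h2
  · exact Yn
  · show Y (n - (n - p)) = Y p
    rw [show n - (n - p) = p by omega]
  · intro j hj
    have h1 := dn (n - (j + 1)) (by omega) (by omega)
    have h2 : Y (n - (j + 1) + 1) < Y (n - (j + 1)) := h1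
    rw [show n - (j + 1) + 1 = n - j by omega] at h2
    exact h2
  · -- balance of the two chains
    have pi2 : ∀ j, j ≤ n - p → P (s + (n - j)) =
        P s + PI (fun j => Y (n - j)) (fun j => θ (s + (n - 1 - j))) j := by
      intro j
      induction j with
      | zero => intro _; simp [PI, Pn]
      | succ j ih =>
        intro hj
        have ih' := ih (by omega)
        rw [PI_succ]
        have e1 : n - 1 - j = n - (j + 1) := by omega
        have e2 : n - j = n - (j + 1) + 1 := by omega
        have e3 := Ps (s + (n - (j + 1)))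
        rw [show s + (n - (j + 1)) + 1 = s + (n - j) by omega, ih'] at e3
        simp only [e1, hY]
        linarith
    have h1 := pi1 p
    have h2 := pi2 (n - p) le_rfl
    rw [show n - (n - p) = p by omega] at h2
    linarith
  · -- V-box
    intro L C hL0 hL hC
    have h := vbox n p hpn Y (fun k => θ (s + k)) (fun k => P (s + k)) (fun k => sg r v (s + k))
      L C (fun k _ => hpos _) up dn Yn (by simp only [Pn]; simp) (fun k => Ps (s + k)) anti1 anti2
      cy cP cw ci hL0 (fun k => hL _) (fun k => hC _)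
    have h1 := pi1 p
    simp only [add_zero] at h
    rw [h1] at h
    exact h
  · intro H
    have C2 := C1 H
    have TG := T1_ge hP W hW δ θ hθ0 hθW r hpos hne
    have e1 := SQK.sum_shift2 (n := n) (f := fun i j => ((θ i) ^ 2 * ((af r (v i) +
      af r (v (i + 1))) / 2) * |af r (v (i + 1)) - af r (v i)| *
      |af r (v (j + 1)) - af r (v j)|) * |sg r v i - sg r v j|)
      (fun i j => by simp only [sper, yper, yper1, hθ])
      (fun i j => by simp only [sper, yper, yper1]) s
    have e2 := SQK.sum_shift (n := n) (f := fun i => sg r v i * (Th (af r (v (i + 1))) (P (i + 1)) -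
      Th (af r (v i)) (P i))) (fun i => by simp only [sper, yper, yper1, Pn, Pn1]) s
    rw [← e1] at TG
    rw [← e2] at hA
    have C3 : 0 ≤ 1 / 2 * (∑ i ∈ range n, ∑ j ∈ range n, ((θ (s + i)) ^ 2 * ((af r (v (s + i)) +
      af r (v (s + i + 1))) / 2) * |af r (v (s + i + 1)) - af r (v (s + i))| *
      |af r (v (s + j + 1)) - af r (v (s + j))|) * |sg r v (s + i) - sg r v (s + j)|) -
      ∑ i ∈ range n, sg r v (s + i) * (Th (af r (v (s + i + 1))) (P (s + i + 1)) -
      Th (af r (v (s + i))) (P (s + i))) := C2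
    linarith

end

end Pool.G1.Gap
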