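import Pool.Agent.Work.MP_b5407d_g1.Pl_GAP4

/-!
# G1, balanced case: perturbation (edges parallel to the level lines, `ρ = 0` at some vertex, constant
`ρ`) and the final reduction `Stmt_ONE → Stmt_BAL`
-/

set_option autoImplicit false

open Finset Filter Topology

namespace Pool.G1.Gap

section
variable {n : ℕ} {ν v : ℕ → R2} {ℓ : ℕ → ℝ}

lemma ex_mod (hn : 0 < n) {f : ℕ → ℝ} (hf : ∀ i, f (i + n) = f i) {p : ℝ → Prop}
    (h : ∀ k ∈ range n, p (f k)) (k : ℕ) : p (f k) := by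
  rw [← Order.per_mod hf k]
  exact h _ (mem_range.mpr (Nat.mod_lt _ hn))

/-- a positive affine function whose gradient is not orthogonal to any edge -/
lemma ex_r1 (hP : Poly n ν v ℓ) : ∃ r1 : ℝ × R2, (∀ k, 0 < af r1 (v k)) ∧
    ∀ k, cp (ν k) r1.2 ≠ 0 := by
  obtain ⟨u, hu⟩ := Order.generic hP
  have hn : 0 < n := by have := hP.n3; omega
  refine ⟨(1 + ∑ k ∈ range n, |dp (rt u) (v k)|, rt u), fun k => ?_, fun k => ?_⟩
  · refine ex_mod hn (f := fun k => af (1 + ∑ k ∈ range n, |dp (rt u) (v k)|, rt u) (v k))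
      (fun i => by simp only [hP.pv]) (p := fun x => 0 < x) (fun k hk => ?_) k
    have h1 : |dp (rt u) (v k)| ≤ ∑ k ∈ range n, |dp (rt u) (v k)| :=
      single_le_sum (f := fun k => |dp (rt u) (v k)|) (fun j _ => abs_nonneg _) hk
    have h2 := neg_abs_le (dp (rt u) (v k))
    show 0 < 1 + ∑ k ∈ range n, |dp (rt u) (v k)| + dp (rt u) (v k)
    linarith
  · have : cp (ν k) (rt u) = dp u (ν k) := by simp only [cp, rt, dp]; ring
    show cp (ν k) (rt u) ≠ 0
    rw [this]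
    exact hu k

/-- **the balanced case from the one-dimensional statement** (general form, with lower bounds) -/
theorem AA_le_of_NEST (hE : Stmt_PEU) (hM : Stmt_PMI) {L R : ℝ} (h1 : Stmt_NEST L R)
    (hP : Poly n ν v ℓ) (W : ℕ → ℝ)
    (hW : ∀ k j, dp (ν k) (v k - v j) ≤ W k) (δ θ : ℕ → ℝ)
    (hδ : ∀ i, δ (i + n) = δ i) (hθ : ∀ i, θ (i + n) = θ i) (hθ0 : ∀ i, 0 ≤ θ i)
    (hθ2 : ∀ i, θ i ≤ 2 / 3)
    (hθW : ∀ i, θ i * W i ≤ δ i) (hS : ∑ i ∈ range n, ℓ i * δ i = 2 * ar n v)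
    (r : ℝ × R2) (hr : ∀ k, 0 ≤ af r (v k))
    (hbal : ∑ i ∈ range n, (θ i * EI v ℓ r i) • ν i = 0)
    (hL : L ≤ 0 ∨ ∀ k, L < θ k ∧ 0 < EI v ℓ r k)
    (hR : R ≤ 0 ∨ ∀ k j, R * af r (v k) < af r (v j)) : AA n ν v ℓ δ θ r ≤ 0 := by
  have hn : 0 < n := by have := hP.n3; omega
  obtain ⟨r1, hr1, hc1⟩ := ex_r1 hP
  set K : ℝ := -2 * J1 n v ℓ r1 δ + 1 / 2 * J2 n ν v ℓ r1 δ + 2 * J0 n v r1 with hK
  have hEI0 : ∀ k, 0 ≤ EI v ℓ r k := fun k => EI_nonneg hP.pos hr k
  have hEI1 : ∀ k, 0 < EI v ℓ r1 k := by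
    intro k
    unfold EI
    exact mul_pos (hP.pos k) (by have := hr1 k; have := hr1 (k + 1); linarith)
  have EIp : ∀ (r : ℝ × R2) (k : ℕ), EI v ℓ r (k + n) = EI v ℓ r k := by
    intro r k
    unfold EI
    rw [hP.pℓ, hP.pv, show k + n + 1 = k + 1 + n by ring, hP.pv]
  have hEIe : ∀ (e : ℝ) (k : ℕ), EI v ℓ (r + e • r1) k = EI v ℓ r k + e * EI v ℓ r1 k := by
    intro e k
    rw [EI_add, EI_smul]
  -- the nearby edges are not parallel to the level lines
  have A1 : ∀ᶠ e in 𝓝[>] (0 : ℝ), ∀ k ∈ range n, cp (ν k) r.2 + e * cp (ν k) r1.2 ≠ 0 := by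
    rw [Filter.eventually_all_finset]
    intro k _
    by_cases h : cp (ν k) r.2 = 0
    · filter_upwards [self_mem_nhdsWithin] with e he
      rw [h, zero_add]
      exact mul_ne_zero (ne_of_gt he) (hc1 k)
    · have hc : ContinuousAt (fun e : ℝ => cp (ν k) r.2 + e * cp (ν k) r1.2) 0 := by fun_prop
      have h2 : ∀ᶠ e in 𝓝 (0 : ℝ), cp (ν k) r.2 + e * cp (ν k) r1.2 ≠ 0 :=
        hc.eventually_ne (by simpa using h)
      exact h2.filter_mono nhdsWithin_le_nhds
  have A2 : ∀ᶠ e in 𝓝[>] (0 : ℝ), L ≤ 0 ∨ ∀ k ∈ range n,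
      L < θ k * EI v ℓ r k / (EI v ℓ r k + e * EI v ℓ r1 k) := by
    rcases hL with h | h
    · exact Filter.Eventually.of_forall fun _ => Or.inl h
    · have : ∀ᶠ e in 𝓝[>] (0 : ℝ), ∀ k ∈ range n,
          L < θ k * EI v ℓ r k / (EI v ℓ r k + e * EI v ℓ r1 k) := by
        rw [Filter.eventually_all_finset]
        intro k _
        obtain ⟨ha, hb⟩ := h k
        have hc : ContinuousAt (fun e : ℝ => θ k * EI v ℓ r k /
            (EI v ℓ r k + e * EI v ℓ r1 k)) 0 := by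
          refine ContinuousAt.div (by fun_prop) (by fun_prop) ?_
          simpa using hb.ne'
        have h2 : ∀ᶠ e in 𝓝 (0 : ℝ), L < θ k * EI v ℓ r k /
            (EI v ℓ r k + e * EI v ℓ r1 k) := by
          refine hc.eventually_const_lt ?_
          have : θ k * EI v ℓ r k / (EI v ℓ r k + 0 * EI v ℓ r1 k) = θ k := by
            rw [zero_mul, add_zero, mul_div_assoc, div_self hb.ne', mul_one]
          show L < θ k * EI v ℓ r k / (EI v ℓ r k + 0 * EI v ℓ r1 k)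
          rw [this]
          exact ha
        exact h2.filter_mono nhdsWithin_le_nhds
      exact this.mono fun _ => Or.inr
  have A3 : ∀ᶠ e in 𝓝[>] (0 : ℝ), R ≤ 0 ∨ ∀ k ∈ range n, ∀ j ∈ range n,
      R * (af r (v k) + e * af r1 (v k)) < af r (v j) + e * af r1 (v j) := by
    rcases hR with h | h
    · exact Filter.Eventually.of_forall fun _ => Or.inl h
    · have : ∀ᶠ e in 𝓝[>] (0 : ℝ), ∀ k ∈ range n, ∀ j ∈ range n,
          R * (af r (v k) + e * af r1 (v k)) < af r (v j) + e * af r1 (v j) := by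
        rw [Filter.eventually_all_finset]
        intro k _
        rw [Filter.eventually_all_finset]
        intro j _
        have hc : ContinuousAt (fun e : ℝ => af r (v j) + e * af r1 (v j) -
          R * (af r (v k) + e * af r1 (v k))) 0 := by fun_prop
        have h2 : ∀ᶠ e in 𝓝 (0 : ℝ), 0 < af r (v j) + e * af r1 (v j) -
          R * (af r (v k) + e * af r1 (v k)) := by
          refine hc.eventually_const_lt ?_
          have := h k j
          simp only [zero_mul, add_zero]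
          linarith
        have h3 : ∀ᶠ e in 𝓝 (0 : ℝ), R * (af r (v k) + e * af r1 (v k)) <
            af r (v j) + e * af r1 (v j) := h2.mono fun e he => by linarith
        exact h3.filter_mono nhdsWithin_le_nhds
      exact this.mono fun _ => Or.inr
  have main : ∀ᶠ e in 𝓝[>] (0 : ℝ), AA n ν v ℓ δ θ r + e * K ≤ 0 := by
    filter_upwards [self_mem_nhdsWithin, A1, A2, A3] with e he a1 a2 a3
    have he' : 0 < e := he
    have hafe : ∀ k, af (r + e • r1) (v k) = af r (v k) + e * af r1 (v k) := fun k => by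
      rw [af_add, af_smul]
    have hpos : ∀ k, 0 < af (r + e • r1) (v k) := by
      intro k
      rw [hafe]
      have := mul_pos he' (hr1 k)
      have := hr k
      linarith
    have hne : ∀ k, af (r + e • r1) (v (k + 1)) ≠ af (r + e • r1) (v k) := by
      intro k h
      have h2 := dy_eq hP (r + e • r1) k
      rw [h, sub_self] at h2
      have h3 : cp (ν k) (r + e • r1).2 = cp (ν k) r.2 + e * cp (ν k) r1.2 := by
        simp only [cp, Prod.snd_add, Prod.fst_add, Prod.smul_snd, Prod.smul_fst, smul_eq_mul]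
        ring
      have h4 : cp (ν k) r.2 + e * cp (ν k) r1.2 ≠ 0 := by
        refine ex_mod hn (f := fun k => cp (ν k) r.2 + e * cp (ν k) r1.2)
          (fun i => by simp only [hP.pν]) (p := fun x => x ≠ 0) a1 k
      rw [h3] at h2
      exact (mul_ne_zero (hP.pos k).ne' h4) h2.symm
    have hEp : ∀ k, 0 < EI v ℓ r k + e * EI v ℓ r1 k := fun k => by
      have := mul_pos he' (hEI1 k)
      have := hEI0 k
      linarith
    set θ' : ℕ → ℝ := fun k => θ k * EI v ℓ r k / (EI v ℓ r k + e * EI v ℓ r1 k) with hθ'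
    have hθ'p : ∀ i, θ' (i + n) = θ' i := fun i => by simp only [hθ', hθ, EIp]
    have hθ'0 : ∀ i, 0 ≤ θ' i := fun i => div_nonneg (mul_nonneg (hθ0 i) (hEI0 i)) (hEp i).le
    have hθ'le : ∀ i, θ' i ≤ θ i := by
      intro i
      simp only [hθ']
      rw [div_le_iff₀ (hEp i)]
      have := mul_nonneg (hθ0 i) (mul_pos he' (hEI1 i)).le
      nlinarith
    have hW0 : ∀ i, 0 ≤ W i := by
      intro i
      have := hW i i
      rw [sub_self, HUaux.dp_zero_right] at this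
      exact this
    have hθ'W : ∀ i, θ' i * W i ≤ δ i := fun i =>
      (mul_le_mul_of_nonneg_right (hθ'le i) (hW0 i)).trans (hθW i)
    have hmul : ∀ i, θ' i * EI v ℓ (r + e • r1) i = θ i * EI v ℓ r i := by
      intro i
      rw [hEIe]
      simp only [hθ']
      exact div_mul_cancel₀ _ (hEp i).ne'
    have hbal' : ∑ i ∈ range n, (θ' i * EI v ℓ (r + e • r1) i) • ν i = 0 := by
      rw [sum_congr rfl fun i _ => by rw [hmul i]]
      exact hbal
    have hAA : AA n ν v ℓ δ θ' (r + e • r1) = AA n ν v ℓ δ θ r + e * K := by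
      have hT : T1 n v ℓ (r + e • r1) δ θ' = T1 n v ℓ r δ θ := by
        unfold T1
        refine sum_congr rfl fun i _ => ?_
        rw [mul_assoc, hmul i, mul_assoc]
      unfold AA
      rw [hT, hK]
      unfold J2
      rw [J1_add, J1_smul, B2_add_r, B2_smul_r, J0_add, J0_smul]
      ring
    rw [← hAA]
    obtain ⟨B, T, a, b, y, t, z, s, ka, hB, hBT, cy, cz, ht, hs, hlo, hhi, ⟨kB, hkB⟩, ⟨kT, hkT⟩,
      hbl, hka, H⟩ := core hE hM hP W hW δ θ' hδ hθ'p hθ'0 hθ'W hS (r + e • r1) hpos hne hbal'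
    have hLt : ∀ k, L ≤ θ' k := by
      intro k
      rcases a2 with h | h
      · exact h.trans (hθ'0 k)
      · have := ex_mod hn hθ'p (p := fun x => L < x) h k
        exact this.le
    have hvb : L * B ^ 2 ≤ ka ∧ ka ≤ B * (B + T) / 3 ∧ L * (T * (T + B) / 2) ≤ ka + PI y t a ∧
        ka + PI y t a ≤ 2 / 3 * T ^ 2 := by
      have hC : ∀ k, θ' k ≤ 2 / 3 := fun k => (hθ'le k).trans (hθ2 k)
      have hT : 0 < T := hB.trans hBT
      rcases le_total L 0 with hL0 | hL0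
      · obtain ⟨v1, v2, v3, v4⟩ := hka 0 (2 / 3) le_rfl hθ'0 hC
        have w1 : L * B ^ 2 ≤ 0 := mul_nonpos_of_nonpos_of_nonneg hL0 (by positivity)
        have w2 : L * (T * (T + B) / 2) ≤ 0 :=
          mul_nonpos_of_nonpos_of_nonneg hL0 (by positivity)
        exact ⟨by linarith, by linarith, by linarith, v4⟩
      · obtain ⟨v1, v2, v3, v4⟩ := hka L (2 / 3) hL0 hLt hC
        exact ⟨v1, by linarith, v3, v4⟩
    obtain ⟨v1, v2, v3, v4⟩ := hvb
    refine H (h1 B T a b y t z s hB hBT ?_ cy cz (fun i => ?_) (fun i => ?_) (fun j => ?_)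
      (fun j => ?_) hbl ka v1 v2 v3 v4)
    · rcases a3 with h | h
      · nlinarith
      · rw [← hkB, ← hkT, hafe, hafe]
        have per2 : ∀ i, (fun i => af r (v i) + e * af r1 (v i)) (i + n) =
            (fun i => af r (v i) + e * af r1 (v i)) i := fun i => by simp only [hP.pv]
        have h5 := ex_mod hn per2 (p := fun x => ∀ j ∈ range n, R * x <
          af r (v j) + e * af r1 (v j)) h kT
        have h6 := ex_mod hn per2 (p := fun x => R * (af r (v kT) + e * af r1 (v kT)) < x) h5 kB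
        exact h6.le
    · obtain ⟨k, hk⟩ := ht i; rw [hk]; exact hLt k
    · obtain ⟨k, hk⟩ := ht i; rw [hk]; exact (hθ'le k).trans (hθ2 k)
    · obtain ⟨k, hk⟩ := hs j; rw [hk]; exact hLt k
    · obtain ⟨k, hk⟩ := hs j; rw [hk]; exact (hθ'le k).trans (hθ2 k)
  have lim : Tendsto (fun e : ℝ => AA n ν v ℓ δ θ r + e * K) (𝓝[>] 0)
      (𝓝 (AA n ν v ℓ δ θ r + 0 * K)) := by
    have hc : Continuous (fun e : ℝ => AA n ν v ℓ δ θ r + e * K) := by fun_prop
    exact (hc.tendsto 0).mono_left nhdsWithin_le_nhds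
  have := le_of_tendsto lim main
  simpa using this

/-- **the balanced case from the one-dimensional statement** (general form, with lower bounds) -/
theorem AA_le_of_ONE (hE : Stmt_PEU) (hM : Stmt_PMI) {L R : ℝ} (h1 : Stmt_ONE L R)
    (hP : Poly n ν v ℓ) (W : ℕ → ℝ)
    (hW : ∀ k j, dp (ν k) (v k - v j) ≤ W k) (δ θ : ℕ → ℝ)
    (hδ : ∀ i, δ (i + n) = δ i) (hθ : ∀ i, θ (i + n) = θ i) (hθ0 : ∀ i, 0 ≤ θ i)
    (hθ2 : ∀ i, θ i ≤ 2 / 3)
    (hθW : ∀ i, θ i * W i ≤ δ i) (hS : ∑ i ∈ range n, ℓ i * δ i = 2 * ar n v)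
    (r : ℝ × R2) (hr : ∀ k, 0 ≤ af r (v k))
    (hbal : ∑ i ∈ range n, (θ i * EI v ℓ r i) • ν i = 0)
    (hL : L ≤ 0 ∨ ∀ k, L < θ k ∧ 0 < EI v ℓ r k)
    (hR : R ≤ 0 ∨ ∀ k j, R * af r (v k) < af r (v j)) : AA n ν v ℓ δ θ r ≤ 0 :=
  AA_le_of_NEST hE hM (NEST_of_ONE h1) hP W hW δ θ hδ hθ hθ0 hθ2 hθW hS r hr hbal hL hR

end

/-- **`Stmt_BAL` from the statement for nested families on the full box** -/
theorem BAL_of_NEST (hE : Stmt_PEU) (hM : Stmt_PMI) (hU : Stmt_HU) (h1 : Stmt_NEST 0 0) :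
    Stmt_BAL := by
  intro n ν v ℓ hP W hW1 hW2 δ θ hδ hθ _ hθ0 hθ2 hθW hS c hc0 _ hbal hA
  exfalso
  refine absurd hA (not_lt.mpr ?_)
  refine AA_le_of_NEST hE hM h1 hP W hW1 δ θ hδ hθ hθ0 hθ2 hθW hS _ (fun k => ?_) hbal
    (Or.inl le_rfl) (Or.inl le_rfl)
  rw [af_sum]
  exact sum_nonneg fun j _ => mul_nonneg (hc0 j) (rk_nonneg hE hU hP W hW1 hW2 j k)

/-- **`Stmt_BAL` from the one-dimensional statement on the full box** -/
theorem BAL_of_ONE (hE : Stmt_PEU) (hM : Stmt_PMI) (hU : Stmt_HU) (h1 : Stmt_ONE 0 0) :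
    Stmt_BAL := by
  intro n ν v ℓ hP W hW1 hW2 δ θ hδ hθ _ hθ0 hθ2 hθW hS c hc0 _ hbal hA
  exfalso
  refine absurd hA (not_lt.mpr ?_)
  refine AA_le_of_ONE hE hM h1 hP W hW1 δ θ hδ hθ hθ0 hθ2 hθW hS _ (fun k => ?_) hbal
    (Or.inl le_rfl) (Or.inl le_rfl)
  rw [af_sum]
  exact sum_nonneg fun j _ => mul_nonneg (hc0 j) (rk_nonneg hE hU hP W hW1 hW2 j k)

/-- (S2+) from the one-dimensional statement on the full box -/
theorem S2_of_ONE (hE : Stmt_PEU) (hM : Stmt_PMI) (hU : Stmt_HU) (h1 : Stmt_ONE 0 0) : Stmt_S2 :=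
  S2_of_V_BAL (blk_V hE hM hU) (BAL_of_ONE hE hM hU h1)

/-- (S2+) from the statement for nested families on the full box -/
theorem S2_of_NEST (hE : Stmt_PEU) (hM : Stmt_PMI) (hU : Stmt_HU) (h1 : Stmt_NEST 0 0) : Stmt_S2 :=
  S2_of_V_BAL (blk_V hE hM hU) (BAL_of_NEST hE hM hU h1)

end Pool.G1.Gap
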