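import Pool.Agent.Work.MP_b5407d_g1.Pl_GAP5
import Pool.Agent.Work.MP_b5407d_g1.Pl_FIN6

/-!
# G1: (S2+) from the finite-dimensional statement
-/

set_option autoImplicit false

namespace Pool.G1.Gap

theorem S2_of_FIN (hE : Stmt_PEU) (hM : Stmt_PMI) (hU : Stmt_HU) (h : Stmt_FIN 0 0) : Stmt_S2 :=
  S2_of_ONE hE hM hU (ONE_of_FIN h)

theorem S2_of_FIN6 (hE : Stmt_PEU) (hM : Stmt_PMI) (hU : Stmt_HU) (h : Stmt_FIN6 0 0) : Stmt_S2 :=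
  S2_of_ONE hE hM hU (ONE_of_FIN6 h)

end Pool.G1.Gap
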