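import Pool.Agent.Work.MP_b5407d_g1.Pl_ONE

/-!
# G1, line P-a: reduction of the one-dimensional statement to the pointwise inequality `PWat`

Multiplier of helper93 (midrange of the potentials), coordinates of helper13.
Normalisation: `B = σ (1 - τ)`, `T = σ (1 + τ)`, state `al = σ (1 - τ a)`, `be = σ (1 - τ b)`,
`th` = common mean load of the two chains, `P`, `R` the slope deviations of the state.
-/

set_option autoImplicit false

open Finset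

namespace Pool.G1.Gap

/-- the reduced quadratic form (constant loads on the four arcs, bottom potential eliminated) -/
noncomputable def FF (tau a b t P R : ℝ) : ℝ :=
  1 / 2 * (1 - a ^ 2) * (t - 1 / 2 + a * P) ^ 2 + 1 / 2 * (1 - b ^ 2) * (t - 1 / 2 + b * R) ^ 2 +
    1 / 2 * (1 - tau ^ 2) * (1 - a ^ 2) * (1 - b ^ 2) * (a * P - b * R) ^ 2 /
      ((1 - a ^ 2) * (1 - tau * b) + (1 - b ^ 2) * (1 - tau * a)) -
    tau / 2 * (a * (1 - a ^ 2) * P ^ 2 + b * (1 - b ^ 2) * R ^ 2) -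
    tau / 24 * (a * (1 - a ^ 2) + b * (1 - b ^ 2)) +
    1 / 8 * ((tau * (1 + a) ^ 2 - (a + b)) * ((1 - a) * (t + (1 + a) * P) ^ 2 / (1 - tau * (1 + a) / 2)) -
      (tau * (1 - a) ^ 2 - (a + b)) * ((1 + a) * (t - (1 - a) * P) ^ 2 / (1 + tau * (1 - a) / 2)) +
      (tau * (1 + b) ^ 2 - (a + b)) * ((1 - b) * (t + (1 + b) * R) ^ 2 / (1 - tau * (1 + b) / 2)) -
      (tau * (1 - b) ^ 2 - (a + b)) * ((1 + b) * (t - (1 - b) * R) ^ 2 / (1 + tau * (1 - b) / 2)))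

/-- box constraints of one chain: mean loads of the two arcs in `[L, 2/3]` -/
def Bx (L tau a t P : ℝ) : Prop :=
  L * (1 - tau * (1 + a) / 2) ≤ t + (1 + a) * P ∧ t + (1 + a) * P ≤ 2 / 3 * (1 - tau * (1 + a) / 2) ∧
  L * (1 + tau * (1 - a) / 2) ≤ t - (1 - a) * P ∧ t - (1 - a) * P ≤ 2 / 3 * (1 + tau * (1 - a) / 2)

/-- **the pointwise inequality** at tilt `tau` and mean load `t`, with the multipliers
`kap` (midrange of the potentials), `lp`, `nu` -/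
def PWat (L tau t kap lp nu : ℝ) : Prop :=
  ∀ a b P R dR dL eR eL : ℝ, -1 ≤ a → a ≤ 1 → -1 ≤ b → b ≤ 1 → Bx L tau a t P → Bx L tau b t R →
    0 ≤ dR → 0 ≤ dL → 0 ≤ eR → 0 ≤ eL →
    (eR * (2 * (1 - a) * (1 - tau * (1 + a) / 2)) = 2 + (a - b) ∨
      eR * (2 * (1 + a) * (1 + tau * (1 - a) / 2)) = 2 - (a - b)) →
    (eL * (2 * (1 - b) * (1 - tau * (1 + b) / 2)) = 2 - (a - b) ∨
      eL * (2 * (1 + b) * (1 + tau * (1 - b) / 2)) = 2 + (a - b)) →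
    0 ≤ FF tau a b t P R + tau * (a + b) * nu +
      (kap * ((1 - a ^ 2) / 2 * (P + tau * t / 2) + (1 - b ^ 2) / 2 * (R + tau * t / 2)) - tau * lp) *
        (((1 - a ^ 2) * P + (1 - b ^ 2) * R) / 2 - (a + b) * (t - 1 / 2)) -
      kap * |((1 - a ^ 2) * P + (1 - b ^ 2) * R) / 2 - (a + b) * (t - 1 / 2)| * (dR + dL) +
      4 * eR * (|(1 - a ^ 2) / 2 * (P + tau * t / 2)| * dR + dR ^ 2) +
      4 * eL * (|(1 - b ^ 2) / 2 * (R + tau * t / 2)| * dL + dL ^ 2)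

/-! ## paths -/

lemma cs2 {x y q1 q2 s1 s2 : ℝ} (h1 : x ^ 2 ≤ q1 * s1) (h2 : y ^ 2 ≤ q2 * s2) (hq1 : 0 ≤ q1)
    (hq2 : 0 ≤ q2) (hs1 : 0 ≤ s1) (hs2 : 0 ≤ s2) : (x + y) ^ 2 ≤ (q1 + q2) * (s1 + s2) := by
  have h3 : 2 * (x * y) ≤ q1 * s2 + q2 * s1 := by
    have h4 : (2 * (x * y)) ^ 2 ≤ (q1 * s2 + q2 * s1) ^ 2 := by
      have h5 : x ^ 2 * y ^ 2 ≤ (q1 * s1) * (q2 * s2) :=
        mul_le_mul h1 h2 (sq_nonneg _) (mul_nonneg hq1 hs1)
      nlinarith [sq_nonneg (q1 * s2 - q2 * s1)]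
    have h6 : 0 ≤ q1 * s2 + q2 * s1 := by positivity
    exact le_trans (le_abs_self _) (abs_le_of_sq_le_sq h4 h6)
  nlinarith

lemma QI_mono {B T : ℝ} {a : ℕ} {y : ℕ → ℝ} (hc : ChG B T a y) (hB : 0 < B) (t : ℕ → ℝ) {k l : ℕ}
    (hkl : k ≤ l) (hl : l ≤ a) : QI y t k ≤ QI y t l ∧
      (PI y t l - PI y t k) ^ 2 ≤ (QI y t l - QI y t k) * ((y l ^ 2 - y k ^ 2) / 2) ∧
      y k ≤ y l ∧ 0 < y k := by
  have hpos : ∀ i, i ≤ a → 0 < y i := by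
    intro i
    induction i with
    | zero => intro _; rw [hc.y0]; exact hB
    | succ i ih => intro h; exact lt_trans (ih (by omega)) (hc.inc i (by omega))
  induction l, hkl using Nat.le_induction with
  | base => exact ⟨le_rfl, by simp, le_rfl, hpos k (by omega)⟩
  | succ l hkl ih =>
    obtain ⟨h1, h2, h3, h4⟩ := ih (by omega)
    have hi := hc.inc l (by omega)
    have hpl := hpos l (by omega)
    have hD : 0 < (y (l + 1)) ^ 2 - (y l) ^ 2 := by nlinarith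
    have hPI : PI y t (l + 1) = PI y t l + t l * ((y (l + 1)) ^ 2 - (y l) ^ 2) / 2 := by
      unfold PI; rw [sum_range_succ]
    have hQI : QI y t (l + 1) = QI y t l + (t l) ^ 2 * ((y (l + 1)) ^ 2 - (y l) ^ 2) / 2 := by
      unfold QI; rw [sum_range_succ]
    refine ⟨?_, ?_, by linarith, h4⟩
    · rw [hQI]; have := mul_nonneg (sq_nonneg (t l)) hD.le; linarith
    · have h5 := cs2 (x := PI y t l - PI y t k) (y := t l * ((y (l + 1)) ^ 2 - (y l) ^ 2) / 2)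
        (q1 := QI y t l - QI y t k) (q2 := (t l) ^ 2 * ((y (l + 1)) ^ 2 - (y l) ^ 2) / 2)
        (s1 := (y l ^ 2 - y k ^ 2) / 2) (s2 := ((y (l + 1)) ^ 2 - (y l) ^ 2) / 2) h2
        (le_of_eq (by ring)) (by linarith) (by have := mul_nonneg (sq_nonneg (t l)) hD.le; linarith)
        (by nlinarith) (by linarith)
      rw [hPI, hQI]
      calc _ = (PI y t l - PI y t k + t l * ((y (l + 1)) ^ 2 - (y l) ^ 2) / 2) ^ 2 := by ring
        _ ≤ _ := h5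
        _ = _ := by ring

/-- a path through an intermediate node -/
lemma path_mid {B T : ℝ} {a : ℕ} {y : ℕ → ℝ} (hc : ChG B T a y) (hB : 0 < B) (t : ℕ → ℝ)
    {k m l : ℕ} (hkm : k ≤ m) (hml : m ≤ l) (hl : l ≤ a) :
    (|PI y t m - PI y t k| + |PI y t l - PI y t m|) ^ 2 ≤
      (QI y t l - QI y t k) * ((y l ^ 2 - y k ^ 2) / 2) := by
  obtain ⟨h1, h2, h3, h4⟩ := QI_mono hc hB t hkm (by omega : m ≤ a)
  obtain ⟨h5, h6, h7, h8⟩ := QI_mono hc hB t hml hl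
  have := cs2 (x := |PI y t m - PI y t k|) (y := |PI y t l - PI y t m|)
    (q1 := QI y t m - QI y t k) (q2 := QI y t l - QI y t m) (s1 := (y m ^ 2 - y k ^ 2) / 2)
    (s2 := (y l ^ 2 - y m ^ 2) / 2) (by rw [sq_abs]; exact h2) (by rw [sq_abs]; exact h6)
    (by linarith) (by linarith) (by nlinarith) (by nlinarith)
  calc _ ≤ _ := this
    _ = _ := by ring

/-- **the midrange**: a number `mid` for the whole chain such that at every node `k` the distance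
`d = |mid - D_k|` is an extra excursion in one of the two arcs -/
lemma exists_mid {B T : ℝ} {a : ℕ} {y : ℕ → ℝ} (hc : ChG B T a y) (hB : 0 < B) (t : ℕ → ℝ)
    (h0 : PI y t a = 0) : ∃ mid : ℝ, ∀ k, k ≤ a →
      (0 < k ∧ (|PI y t k| + 2 * |mid - PI y t k|) ^ 2 ≤ QI y t k * ((y k ^ 2 - B ^ 2) / 2) ∧
        (PI y t k) ^ 2 ≤ (QI y t a - QI y t k) * ((T ^ 2 - y k ^ 2) / 2)) ∨
      (k < a ∧ (PI y t k) ^ 2 ≤ QI y t k * ((y k ^ 2 - B ^ 2) / 2) ∧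
        (|PI y t k| + 2 * |mid - PI y t k|) ^ 2 ≤
          (QI y t a - QI y t k) * ((T ^ 2 - y k ^ 2) / 2)) := by
  have hP0 : PI y t 0 = 0 := by simp [PI]
  have hQ0 : QI y t 0 = 0 := by simp [QI]
  obtain ⟨m1, hm1, hx⟩ := exists_max_image (range (a + 1)) (PI y t) ⟨0, by simp⟩
  obtain ⟨m2, hm2, hn⟩ := exists_min_image (range (a + 1)) (PI y t) ⟨0, by simp⟩
  simp only [mem_range] at hm1 hm2 hx hn
  have hx0 := hx 0 (by omega)
  have hn0 := hn 0 (by omega)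
  rw [hP0] at hx0 hn0
  refine ⟨PI y t m1 + PI y t m2, fun k hk => ?_⟩
  have hxk := hx k (by omega)
  have hnk := hn k (by omega)
  -- the plain bounds
  have hb1 : (PI y t k) ^ 2 ≤ QI y t k * ((y k ^ 2 - B ^ 2) / 2) := by
    have := (QI_mono hc hB t (Nat.zero_le k) hk).2.1
    rw [hP0, hQ0, hc.y0] at this
    simpa using this
  have hb2 : (PI y t k) ^ 2 ≤ (QI y t a - QI y t k) * ((T ^ 2 - y k ^ 2) / 2) := by
    have := (QI_mono hc hB t hk le_rfl).2.1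
    rw [h0, hc.ya] at this
    simpa using this
  -- the bounds through a node `m`
  have hm : ∀ m, m ≤ a → |PI y t k| + 2 * |PI y t m1 + PI y t m2 - PI y t k| ≤
      |PI y t m| + |PI y t k - PI y t m| →
      (0 < k ∧ (|PI y t k| + 2 * |PI y t m1 + PI y t m2 - PI y t k|) ^ 2 ≤
        QI y t k * ((y k ^ 2 - B ^ 2) / 2) ∧
        (PI y t k) ^ 2 ≤ (QI y t a - QI y t k) * ((T ^ 2 - y k ^ 2) / 2)) ∨
      (k < a ∧ (PI y t k) ^ 2 ≤ QI y t k * ((y k ^ 2 - B ^ 2) / 2) ∧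
        (|PI y t k| + 2 * |PI y t m1 + PI y t m2 - PI y t k|) ^ 2 ≤
          (QI y t a - QI y t k) * ((T ^ 2 - y k ^ 2) / 2)) := by
    intro m hma hle
    have hnn : 0 ≤ |PI y t k| + 2 * |PI y t m1 + PI y t m2 - PI y t k| := by positivity
    rcases lt_or_ge k m with hkm | hmk
    · right
      have := path_mid hc hB t hkm.le hma le_rfl
      rw [h0, hc.ya] at this
      refine ⟨by omega, hb1, le_trans (pow_le_pow_left₀ hnn hle 2) ?_⟩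
      calc _ = (|PI y t m - PI y t k| + |0 - PI y t m|) ^ 2 := by
            rw [abs_sub_comm (PI y t m), zero_sub, abs_neg]; ring
        _ ≤ _ := this
    · rcases Nat.eq_zero_or_pos k with h | h
      · -- `k = 0`, hence `m = 0`
        right
        have hm0 : m = 0 := by omega
        rw [hm0, h, hP0] at hle
        simp only [abs_zero, sub_zero, zero_add] at hle
        have hz : |PI y t m1 + PI y t m2| = 0 := le_antisymm (by linarith) (abs_nonneg _)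
        refine ⟨by have := hc.a0; omega, hb1, ?_⟩
        have h2 := hb2
        rw [h, hP0] at h2 ⊢
        simp only [abs_zero, sub_zero, zero_add, hz, mul_zero]
        exact h2
      · left
        have := path_mid hc hB t (Nat.zero_le m) hmk hk
        rw [hP0, hQ0, hc.y0] at this
        refine ⟨h, le_trans (pow_le_pow_left₀ hnn hle 2) ?_, hb2⟩
        simpa using this
  rcases le_total (PI y t m1 + PI y t m2) (PI y t k) with h | h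
  · refine hm m2 (by omega) ?_
    rw [abs_of_nonpos (by linarith : PI y t m1 + PI y t m2 - PI y t k ≤ 0),
      abs_of_nonpos hn0, abs_of_nonneg (by linarith : 0 ≤ PI y t k - PI y t m2)]
    rcases abs_cases (PI y t k) with ⟨h1, _⟩ | ⟨h1, _⟩ <;> rw [h1] <;> linarith
  · refine hm m1 (by omega) ?_
    rw [abs_of_nonneg (by linarith : 0 ≤ PI y t m1 + PI y t m2 - PI y t k),
      abs_of_nonneg hx0, abs_of_nonpos (by linarith : PI y t k - PI y t m1 ≤ 0)]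
    rcases abs_cases (PI y t k) with ⟨h1, _⟩ | ⟨h1, _⟩ <;> rw [h1] <;> linarith

/-! ## energies of the arcs -/

lemma PI_dev (y t : ℕ → ℝ) (th : ℝ) (k : ℕ) :
    PI y (fun i => t i - th) k = PI y t k - th * ((y k ^ 2 - y 0 ^ 2) / 2) := by
  induction k with
  | zero => simp [PI]
  | succ k ih =>
    have h1 : PI y (fun i => t i - th) (k + 1) = PI y (fun i => t i - th) k +
        (t k - th) * ((y (k + 1)) ^ 2 - (y k) ^ 2) / 2 := by unfold PI; rw [sum_range_succ]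
    have h2 : PI y t (k + 1) = PI y t k + t k * ((y (k + 1)) ^ 2 - (y k) ^ 2) / 2 := by
      unfold PI; rw [sum_range_succ]
    rw [h1, h2, ih]; ring

lemma QI_dev (y t : ℕ → ℝ) (th : ℝ) (k : ℕ) :
    QI y (fun i => t i - th) k = QI y t k - 2 * th * PI y t k + th ^ 2 * ((y k ^ 2 - y 0 ^ 2) / 2) := by
  induction k with
  | zero => simp [PI, QI]
  | succ k ih =>
    have h1 : QI y (fun i => t i - th) (k + 1) = QI y (fun i => t i - th) k +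
        (t k - th) ^ 2 * ((y (k + 1)) ^ 2 - (y k) ^ 2) / 2 := by unfold QI; rw [sum_range_succ]
    have h2 : PI y t (k + 1) = PI y t k + t k * ((y (k + 1)) ^ 2 - (y k) ^ 2) / 2 := by
      unfold PI; rw [sum_range_succ]
    have h3 : QI y t (k + 1) = QI y t k + (t k) ^ 2 * ((y (k + 1)) ^ 2 - (y k) ^ 2) / 2 := by
      unfold QI; rw [sum_range_succ]
    rw [h1, h2, h3, ih]; ring

/-- weighted energy of one arc, with an excursion `d'` -/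
lemma wE {σ τ l y G E Y p p' d' wt e : ℝ} (hσ : 0 < σ) (hτ : 0 < τ) (hl : 0 < l) (hy : 0 < y)
    (hY : Y = σ ^ 2 * τ * l * y) (hp : p = σ ^ 2 * τ * l * G) (hwt : 0 ≤ wt)
    (he : e * (2 * l * y) = wt)
    (hE : p ^ 2 + 4 * (2 * τ * σ ^ 2 * d') * (2 * τ * σ ^ 2 * p' + 2 * τ * σ ^ 2 * d') ≤ E * Y) :
    4 * τ ^ 2 * σ ^ 3 * (wt * (l * G ^ 2 / y) / 8 + 4 * e * (p' * d' + d' ^ 2)) ≤
      1 / 2 * σ * τ * wt * E := by
  have hYp : 0 < Y := by rw [hY]; positivity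
  have h1 : (p ^ 2 + 4 * (2 * τ * σ ^ 2 * d') * (2 * τ * σ ^ 2 * p' + 2 * τ * σ ^ 2 * d')) / Y ≤ E := by
    rw [div_le_iff₀ hYp]; exact hE
  have h2 : 4 * τ ^ 2 * σ ^ 3 * (wt * (l * G ^ 2 / y) / 8 + 4 * e * (p' * d' + d' ^ 2)) =
      1 / 2 * σ * τ * wt *
        ((p ^ 2 + 4 * (2 * τ * σ ^ 2 * d') * (2 * τ * σ ^ 2 * p' + 2 * τ * σ ^ 2 * d')) / Y) := by
    rw [hY, hp, ← he]
    field_simp
    ring
  rw [h2]
  exact mul_le_mul_of_nonneg_left h1 (by positivity)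

/-- weighted energy of one arc, no excursion, the arc may be empty -/
lemma wE0 {σ τ l y G E Y p wt : ℝ} (hσ : 0 < σ) (hτ : 0 < τ) (hl : 0 ≤ l) (hy : 0 < y)
    (hY : Y = σ ^ 2 * τ * l * y) (hp : p = σ ^ 2 * τ * l * G) (hwt : 0 ≤ wt) (hE0 : 0 ≤ E)
    (hE : p ^ 2 ≤ E * Y) :
    4 * τ ^ 2 * σ ^ 3 * (wt * (l * G ^ 2 / y) / 8) ≤ 1 / 2 * σ * τ * wt * E := by
  rcases eq_or_lt_of_le hl with h | h
  · rw [← h]
    have : 0 ≤ 1 / 2 * σ * τ * wt * E := by positivity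
    simpa using this
  · have := wE (e := wt / (2 * l * y)) (d' := 0) (p' := 0) hσ hτ h hy hY hp hwt (by field_simp)
      (by simpa using hE)
    simpa using this

/-! ## the algebra -/

/-- one chain -/
lemma half {σ τ u t P V : ℝ} (hσ : 0 < σ) (hτ0 : 0 < τ) (hτ1 : τ < 1) (hu2 : u ≤ 1) :
    -Th (σ * (1 - τ * u)) (σ ^ 2 * (V + τ * ((1 - u ^ 2) * P - u * t))) +
        (1 - u) / 2 * Th (σ * (1 + τ)) (σ ^ 2 * (V + τ * t)) +
        (1 + u) / 2 * Th (σ * (1 - τ)) (σ ^ 2 * (V - τ * t)) +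
        σ ^ 3 * τ * (4 * V - 2) * ((1 - u ^ 2) * P) =
      4 * τ ^ 2 * σ ^ 3 * ((1 - u ^ 2) / (2 * (1 - τ ^ 2) * (1 - τ * u)) * (V - t) ^ 2 -
        (V - t) * u * (1 - u ^ 2) * P / (1 - τ * u) - (1 - u ^ 2) ^ 2 * P ^ 2 / (2 * (1 - τ * u)) +
        (1 - u ^ 2) / 8 - τ * u * (1 - u ^ 2) / 24 - t * (1 - u ^ 2) / 2 - u * (1 - u ^ 2) * P / 2) := by
  have h1 : 1 - τ * u ≠ 0 := by nlinarith
  have h2 : 1 - τ ≠ 0 := by linarith
  have h3 : 1 + τ ≠ 0 := by linarith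
  have h4 : 1 - τ ^ 2 = (1 - τ) * (1 + τ) := by ring
  unfold Th
  rw [h4]
  field_simp
  ring

/-- elimination of the bottom potential -/
lemma Vmin {τ X Y A B x y : ℝ} (hτ0 : 0 < τ) (hτ1 : τ < 1) (hX : 0 ≤ X) (hY : 0 ≤ Y) (hA : 0 < A)
    (hB : 0 < B) (K : ℝ) :
    1 / 2 * (1 - τ ^ 2) * X * Y * (x - y) ^ 2 / (X * B + Y * A) ≤
      X / (2 * (1 - τ ^ 2) * A) * K ^ 2 - K * (X * x / A) + (Y / (2 * (1 - τ ^ 2) * B) * K ^ 2 -
        K * (Y * y / B)) + (1 - τ ^ 2) / 2 * (X * x ^ 2 / A + Y * y ^ 2 / B) := by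
  have h1 : 0 < 1 - τ ^ 2 := by nlinarith
  have hR : X / (2 * (1 - τ ^ 2) * A) * K ^ 2 - K * (X * x / A) + (Y / (2 * (1 - τ ^ 2) * B) * K ^ 2 -
      K * (Y * y / B)) + (1 - τ ^ 2) / 2 * (X * x ^ 2 / A + Y * y ^ 2 / B) =
      (X / A * (K - (1 - τ ^ 2) * x) ^ 2 + Y / B * (K - (1 - τ ^ 2) * y) ^ 2) / (2 * (1 - τ ^ 2)) := by
    field_simp
    ring
  rw [hR]
  rcases eq_or_lt_of_le (add_nonneg (mul_nonneg hX hB.le) (mul_nonneg hY hA.le)) with h | h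
  · rw [← h, div_zero]
    positivity
  · rw [div_le_div_iff₀ h (by positivity)]
    have h2 : (X / A * (K - (1 - τ ^ 2) * x) ^ 2 + Y / B * (K - (1 - τ ^ 2) * y) ^ 2) *
        (X * B + Y * A) - X * Y * ((K - (1 - τ ^ 2) * x) - (K - (1 - τ ^ 2) * y)) ^ 2 =
        (X * B * (K - (1 - τ ^ 2) * x) + Y * A * (K - (1 - τ ^ 2) * y)) ^ 2 / (A * B) := by
      field_simp
      ring
    have h3 : 0 ≤ (X * B * (K - (1 - τ ^ 2) * x) + Y * A * (K - (1 - τ ^ 2) * y)) ^ 2 / (A * B) := by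
      positivity
    have h4 : 1 / 2 * (1 - τ ^ 2) * X * Y * (x - y) ^ 2 * (2 * (1 - τ ^ 2)) =
        X * Y * ((K - (1 - τ ^ 2) * x) - (K - (1 - τ ^ 2) * y)) ^ 2 := by ring
    rw [h4]
    linarith

lemma arcs {τ u c t P e y1 y2 A : ℝ} (hA : A = 1 - τ * u) (hA0 : 0 < A) (hy1 : y1 = 1 - τ * (1 + u) / 2)
    (hy2 : y2 = 1 + τ * (1 - u) / 2) (hy10 : 0 < y1) (hy20 : 0 < y2) (hce : c = e) :
    (2 + (2 * u - c)) * ((1 - u) * (t + (1 + u) * P) ^ 2 / y1) / 8 +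
        (2 - (2 * u - e)) * ((1 + u) * (t - (1 - u) * P) ^ 2 / y2) / 8 -
        (1 - u ^ 2) ^ 2 * P ^ 2 / (2 * A) + (1 - u ^ 2) / 8 - t * (1 - u ^ 2) / 2 -
        u * (1 - u ^ 2) * P / 2 =
      1 / 2 * (1 - u ^ 2) * (t - 1 / 2 + u * P) ^ 2 - τ / 2 * (u * (1 - u ^ 2) * P ^ 2) +
        (1 - τ ^ 2) / 2 * ((1 - u ^ 2) * (u * P) ^ 2 / A) +
        1 / 8 * ((τ * (1 + u) ^ 2 - c) * ((1 - u) * (t + (1 + u) * P) ^ 2 / y1) -
          (τ * (1 - u) ^ 2 - c) * ((1 + u) * (t - (1 - u) * P) ^ 2 / y2)) := by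
  subst hce
  have e1 : (2 + (2 * u - c)) * ((1 - u) * (t + (1 + u) * P) ^ 2 / y1) / 8 =
      1 / 8 * ((τ * (1 + u) ^ 2 - c) * ((1 - u) * (t + (1 + u) * P) ^ 2 / y1)) +
        (1 - u ^ 2) * (t + (1 + u) * P) ^ 2 / 4 := by
    field_simp
    rw [hy1]
    ring
  have e2 : (2 - (2 * u - c)) * ((1 + u) * (t - (1 - u) * P) ^ 2 / y2) / 8 =
      - (1 / 8 * ((τ * (1 - u) ^ 2 - c) * ((1 + u) * (t - (1 - u) * P) ^ 2 / y2))) +
        (1 - u ^ 2) * (t - (1 - u) * P) ^ 2 / 4 := by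
    field_simp
    rw [hy2]
    ring
  have e3 : (1 - u ^ 2) * (t + (1 + u) * P) ^ 2 / 4 + (1 - u ^ 2) * (t - (1 - u) * P) ^ 2 / 4 -
      (1 - u ^ 2) ^ 2 * P ^ 2 / (2 * A) + (1 - u ^ 2) / 8 - t * (1 - u ^ 2) / 2 -
      u * (1 - u ^ 2) * P / 2 =
      1 / 2 * (1 - u ^ 2) * (t - 1 / 2 + u * P) ^ 2 - τ / 2 * (u * (1 - u ^ 2) * P ^ 2) +
        (1 - τ ^ 2) / 2 * ((1 - u ^ 2) * (u * P) ^ 2 / A) := by
    field_simp
    rw [hA]
    ring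
  linear_combination e1 + e2 + e3

/-- the reduced form is a lower bound -/
lemma FF_le {τ u w t P R V : ℝ} (hτ0 : 0 < τ) (hτ1 : τ < 1) (hu1 : -1 ≤ u) (hu2 : u ≤ 1)
    (hw1 : -1 ≤ w) (hw2 : w ≤ 1) :
    FF τ u w t P R ≤
      (2 + (u - w)) * ((1 - u) * (t + (1 + u) * P) ^ 2 / (1 - τ * (1 + u) / 2)) / 8 +
      (2 - (u - w)) * ((1 + u) * (t - (1 - u) * P) ^ 2 / (1 + τ * (1 - u) / 2)) / 8 +
      (2 - (u - w)) * ((1 - w) * (t + (1 + w) * R) ^ 2 / (1 - τ * (1 + w) / 2)) / 8 +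
      (2 + (u - w)) * ((1 + w) * (t - (1 - w) * R) ^ 2 / (1 + τ * (1 - w) / 2)) / 8 +
      ((1 - u ^ 2) / (2 * (1 - τ ^ 2) * (1 - τ * u)) * (V - t) ^ 2 -
        (V - t) * u * (1 - u ^ 2) * P / (1 - τ * u) - (1 - u ^ 2) ^ 2 * P ^ 2 / (2 * (1 - τ * u)) +
        (1 - u ^ 2) / 8 - τ * u * (1 - u ^ 2) / 24 - t * (1 - u ^ 2) / 2 - u * (1 - u ^ 2) * P / 2) +
      ((1 - w ^ 2) / (2 * (1 - τ ^ 2) * (1 - τ * w)) * (V - t) ^ 2 -
        (V - t) * w * (1 - w ^ 2) * R / (1 - τ * w) - (1 - w ^ 2) ^ 2 * R ^ 2 / (2 * (1 - τ * w)) +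
        (1 - w ^ 2) / 8 - τ * w * (1 - w ^ 2) / 24 - t * (1 - w ^ 2) / 2 - w * (1 - w ^ 2) * R / 2) := by
  have hA : 0 < 1 - τ * u := by nlinarith
  have hB : 0 < 1 - τ * w := by nlinarith
  have hX : 0 ≤ 1 - u ^ 2 := by nlinarith
  have hY : 0 ≤ 1 - w ^ 2 := by nlinarith
  have h1 : 0 < 1 - τ * (1 + u) / 2 := by nlinarith
  have h2 : 0 < 1 + τ * (1 - u) / 2 := by nlinarith
  have h3 : 0 < 1 - τ * (1 + w) / 2 := by nlinarith
  have h4 : 0 < 1 + τ * (1 - w) / 2 := by nlinarith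
  have a1 := arcs (t := t) (P := P) (c := u + w) (e := u + w) rfl hA rfl rfl h1 h2 rfl
  have a2 := arcs (t := t) (P := R) (c := u + w) (e := u + w) rfl hB rfl rfl h3 h4 rfl
  have hV := Vmin (x := u * P) (y := w * R) hτ0 hτ1 hX hY hA hB (V - t)
  unfold FF
  have r1 : 2 + (2 * u - (u + w)) = 2 + (u - w) := by ring
  have r2 : 2 - (2 * u - (u + w)) = 2 - (u - w) := by ring
  have r3 : 2 + (2 * w - (u + w)) = 2 - (u - w) := by ring
  have r4 : 2 - (2 * w - (u + w)) = 2 + (u - w) := by ring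
  rw [r1, r2] at a1
  rw [r3, r4] at a2
  have s1 : (V - t) * u * (1 - u ^ 2) * P / (1 - τ * u) =
      (V - t) * ((1 - u ^ 2) * (u * P) / (1 - τ * u)) := by ring
  have s2 : (V - t) * w * (1 - w ^ 2) * R / (1 - τ * w) =
      (V - t) * ((1 - w ^ 2) * (w * R) / (1 - τ * w)) := by ring
  rw [s1, s2]
  linarith

/-! ## one chain at a state -/

lemma exc {E Pk th Y D d : ℝ} (h : (|D| + 2 * d) ^ 2 ≤ (E - 2 * th * Pk + th ^ 2 * Y) * Y)
    (hD : D ^ 2 = (Pk - th * Y) ^ 2) : Pk ^ 2 + 4 * d * (|D| + d) ≤ E * Y := by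
  have h1 : |D| ^ 2 = (Pk - th * Y) ^ 2 := by rw [sq_abs, hD]
  have h2 : (|D| + 2 * d) ^ 2 = |D| ^ 2 + 4 * d * (|D| + d) := by ring
  rw [h2, h1] at h
  linarith

lemma y_lt {B T : ℝ} {a : ℕ} {y : ℕ → ℝ} (hc : ChG B T a y) (hB : 0 < B) {k l : ℕ} (hkl : k < l)
    (hl : l ≤ a) : y k < y l :=
  lt_of_lt_of_le (hc.inc k (by omega)) (QI_mono hc hB (fun _ => 0) (by omega : k + 1 ≤ l) hl).2.2.1

lemma PI_box {B T L : ℝ} {a : ℕ} {y : ℕ → ℝ} (hc : ChG B T a y) (hB : 0 < B) {t : ℕ → ℝ}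
    (ht1 : ∀ i, L ≤ t i) (ht2 : ∀ i, t i ≤ 2 / 3) {m l : ℕ} (hml : m ≤ l) (hl : l ≤ a) :
    L * ((y l ^ 2 - y m ^ 2) / 2) ≤ PI y t l - PI y t m ∧
        PI y t l - PI y t m ≤ 2 / 3 * ((y l ^ 2 - y m ^ 2) / 2) := by
  induction l, hml using Nat.le_induction with
  | base => simp
  | succ l hkl ih =>
    obtain ⟨i1, i2⟩ := ih (by omega)
    have hi := hc.inc l (by omega)
    have hpl := (QI_mono hc hB t (le_refl l) (by omega)).2.2.2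
    have hD : 0 < (y (l + 1)) ^ 2 - (y l) ^ 2 := by nlinarith
    have hPI' : PI y t (l + 1) = PI y t l + t l * ((y (l + 1)) ^ 2 - (y l) ^ 2) / 2 := by
      unfold PI; rw [sum_range_succ]
    rw [hPI']
    have j1 := mul_le_mul_of_nonneg_right (ht1 l) hD.le
    have j2 := mul_le_mul_of_nonneg_right (ht2 l) hD.le
    constructor <;> linarith

/-- the slope deviation -/
lemma exP {c τ th L u Pk : ℝ} (hc : 0 < c) (hu1 : -1 ≤ u) (hu2 : u ≤ 1)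
    (b1 : L * (c * (1 - u) * (1 - τ * (1 + u) / 2)) ≤ Pk)
    (b2 : Pk ≤ 2 / 3 * (c * (1 - u) * (1 - τ * (1 + u) / 2)))
    (b3 : L * (c * (1 + u) * (1 + τ * (1 - u) / 2)) ≤ 2 * c * th - Pk)
    (b4 : 2 * c * th - Pk ≤ 2 / 3 * (c * (1 + u) * (1 + τ * (1 - u) / 2)))
    (h1 : u = 1 → Pk = 0) (h2 : u = -1 → Pk = 2 * c * th) (hτ0 : 0 < τ) (hτ1 : τ < 1) :
    ∃ P : ℝ, Pk = c * ((1 - u) * th + (1 - u ^ 2) * P) ∧ Bx L τ u th P := by
  rcases eq_or_lt_of_le hu2 with h | h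
  · -- `u = 1`
    have hP := h1 h
    subst h
    rw [hP] at b3 b4
    have e3 : L ≤ th := by
      refine le_of_mul_le_mul_left (a := 2 * c) ?_ (by linarith)
      linarith
    have e4 : th ≤ 2 / 3 := by
      refine le_of_mul_le_mul_left (a := 2 * c) ?_ (by linarith)
      linarith
    refine ⟨-(τ * th) / 2, by rw [hP]; ring, ?_, ?_, ?_, ?_⟩ <;> nlinarith
  · rcases eq_or_lt_of_le hu1 with h' | h'
    · -- `u = -1`
      have hP := h2 h'.symm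
      subst h'
      rw [hP] at b1 b2
      have e3 : L ≤ th := by
        refine le_of_mul_le_mul_left (a := 2 * c) ?_ (by linarith)
        linarith
      have e4 : th ≤ 2 / 3 := by
        refine le_of_mul_le_mul_left (a := 2 * c) ?_ (by linarith)
        linarith
      refine ⟨-(τ * th) / 2, by rw [hP]; ring, ?_, ?_, ?_, ?_⟩ <;> nlinarith
    · -- interior
      have hu3 : 0 < 1 - u ^ 2 := by nlinarith
      have hPk : Pk = c * ((1 - u) * th + (1 - u ^ 2) * ((Pk / c - (1 - u) * th) / (1 - u ^ 2))) := by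
        field_simp; ring
      refine ⟨(Pk / c - (1 - u) * th) / (1 - u ^ 2), hPk, ?_⟩
      generalize (Pk / c - (1 - u) * th) / (1 - u ^ 2) = P at hPk
      rw [hPk] at b1 b2 b3 b4
      have c1 : 0 < c * (1 - u) := mul_pos hc (by linarith)
      have c2 : 0 < c * (1 + u) := mul_pos hc (by linarith)
      refine ⟨?_, ?_, ?_, ?_⟩
      · refine le_of_mul_le_mul_left ?_ c1
        linarith [b1]
      · refine le_of_mul_le_mul_left ?_ c1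
        linarith [b2]
      · refine le_of_mul_le_mul_left ?_ c2
        linarith [b3]
      · refine le_of_mul_le_mul_left ?_ c2
        linarith [b4]

/-- energies of a chain, excursion in the arc with `l1, y1` -/
lemma en {σ τ th l1 y1 l2 y2 G1 G2 E1 E2 Y1 Y2 P1 P2 p d w1 w2 : ℝ} (hσ : 0 < σ) (hτ0 : 0 < τ)
    (hl1 : 0 < l1) (hy1 : 0 < y1) (hl2 : 0 ≤ l2) (hy2 : 0 < y2) (hY1 : Y1 = σ ^ 2 * τ * l1 * y1)
    (hY2 : Y2 = σ ^ 2 * τ * l2 * y2) (hP1 : P1 = σ ^ 2 * τ * l1 * G1)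
    (hP2 : P2 = σ ^ 2 * τ * l2 * G2) (hw1 : 0 ≤ w1) (hw2 : 0 ≤ w2) (hE2 : 0 ≤ E2)
    (hp : (2 * τ * σ ^ 2 * p) ^ 2 = (P1 - th * Y1) ^ 2)
    (m1 : (|2 * τ * σ ^ 2 * p| + 2 * (2 * τ * σ ^ 2 * d)) ^ 2 ≤
      (E1 - 2 * th * P1 + th ^ 2 * Y1) * Y1) (m2 : P2 ^ 2 ≤ E2 * Y2) :
    ∃ e : ℝ, 0 ≤ e ∧ e * (2 * l1 * y1) = w1 ∧
      4 * τ ^ 2 * σ ^ 3 * (w1 * (l1 * G1 ^ 2 / y1) / 8 + w2 * (l2 * G2 ^ 2 / y2) / 8 +
        4 * e * (|p| * d + d ^ 2)) ≤ 1 / 2 * σ * τ * (w1 * E1 + w2 * E2) := by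
  have hne : 2 * l1 * y1 ≠ 0 := by positivity
  have m3 := exc m1 hp
  have h2 : 0 < 2 * τ * σ ^ 2 := by positivity
  rw [abs_mul, abs_of_pos h2] at m3
  have A1 := wE (e := w1 / (2 * l1 * y1)) (d' := d) (p' := |p|) hσ hτ0 hl1 hy1 hY1 hP1 hw1
    (div_mul_cancel₀ _ hne) m3
  have A2 := wE0 hσ hτ0 hl2 hy2 hY2 hP2 hw2 hE2 m2
  refine ⟨w1 / (2 * l1 * y1), by positivity, div_mul_cancel₀ _ hne, ?_⟩
  linarith

lemma chain_state {σ τ th L : ℝ} (hσ : 0 < σ) (hτ0 : 0 < τ) (hτ1 : τ < 1) {a : ℕ} {y : ℕ → ℝ}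
    (hc : ChG (σ * (1 - τ)) (σ * (1 + τ)) a y) {t : ℕ → ℝ} (ht1 : ∀ i, L ≤ t i)
    (ht2 : ∀ i, t i ≤ 2 / 3) (hPI : PI y t a = 2 * τ * th * σ ^ 2) {mid : ℝ} {k : ℕ} (hk : k ≤ a)
    (hmid : (0 < k ∧ (|PI y (fun i => t i - th) k| + 2 * |mid - PI y (fun i => t i - th) k|) ^ 2 ≤
          QI y (fun i => t i - th) k * ((y k ^ 2 - (σ * (1 - τ)) ^ 2) / 2) ∧
        (PI y (fun i => t i - th) k) ^ 2 ≤ (QI y (fun i => t i - th) a -
          QI y (fun i => t i - th) k) * (((σ * (1 + τ)) ^ 2 - y k ^ 2) / 2)) ∨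
      (k < a ∧ (PI y (fun i => t i - th) k) ^ 2 ≤
          QI y (fun i => t i - th) k * ((y k ^ 2 - (σ * (1 - τ)) ^ 2) / 2) ∧
        (|PI y (fun i => t i - th) k| + 2 * |mid - PI y (fun i => t i - th) k|) ^ 2 ≤
          (QI y (fun i => t i - th) a - QI y (fun i => t i - th) k) *
            (((σ * (1 + τ)) ^ 2 - y k ^ 2) / 2))) :
    ∃ u P d : ℝ, -1 ≤ u ∧ u ≤ 1 ∧ y k = σ * (1 - τ * u) ∧
      PI y t k = σ ^ 2 * τ * ((1 - u) * th + (1 - u ^ 2) * P) ∧ Bx L τ u th P ∧ 0 ≤ d ∧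
      |mid - 2 * τ * σ ^ 2 * ((1 - u ^ 2) / 2 * (P + τ * th / 2))| = 2 * τ * σ ^ 2 * d ∧
      ∀ w1 w2 : ℝ, 0 ≤ w1 → 0 ≤ w2 → ∃ e : ℝ, 0 ≤ e ∧
        (e * (2 * (1 - u) * (1 - τ * (1 + u) / 2)) = w1 ∨
          e * (2 * (1 + u) * (1 + τ * (1 - u) / 2)) = w2) ∧
        4 * τ ^ 2 * σ ^ 3 * (w1 * ((1 - u) * (th + (1 + u) * P) ^ 2 / (1 - τ * (1 + u) / 2)) / 8 +
          w2 * ((1 + u) * (th - (1 - u) * P) ^ 2 / (1 + τ * (1 - u) / 2)) / 8 +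
          4 * e * (|(1 - u ^ 2) / 2 * (P + τ * th / 2)| * d + d ^ 2)) ≤
        1 / 2 * σ * τ * (w1 * QI y t k + w2 * (QI y t a - QI y t k)) := by
  have hB : 0 < σ * (1 - τ) := mul_pos hσ (by linarith)
  have hστ : 0 < σ * τ := mul_pos hσ hτ0
  have hu : ∃ u : ℝ, y k = σ * (1 - τ * u) := ⟨(1 - y k / σ) / τ, by field_simp; ring⟩
  obtain ⟨u, hyk⟩ := hu
  obtain ⟨hQ1, hpk, hle1, -⟩ := QI_mono hc hB t (Nat.zero_le k) hk
  obtain ⟨hQ2, hpa, hle2, -⟩ := QI_mono hc hB t hk le_rfl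
  have hQ0 : QI y t 0 = 0 := by simp [QI]
  have hP0 : PI y t 0 = 0 := by simp [PI]
  rw [hQ0] at hQ1
  have hu1 : -1 ≤ u := by
    rw [hc.ya, hyk] at hle2
    have h6 : 1 - τ * u ≤ 1 + τ := le_of_mul_le_mul_left hle2 hσ
    by_contra hcon
    push Not at hcon
    nlinarith
  have hu2 : u ≤ 1 := by
    rw [hc.y0, hyk] at hle1
    have h6 : 1 - τ ≤ 1 - τ * u := le_of_mul_le_mul_left hle1 hσ
    by_contra hcon
    push Not at hcon
    nlinarith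
  have hk1 : 0 < k → u < 1 := by
    intro h
    have h5 := y_lt hc hB h hk
    rw [hc.y0, hyk] at h5
    have h6 : 1 - τ < 1 - τ * u := lt_of_mul_lt_mul_left h5 hσ.le
    nlinarith
  have hk2 : k < a → -1 < u := by
    intro h
    have h5 := y_lt hc hB h le_rfl
    rw [hc.ya, hyk] at h5
    have h6 : 1 - τ * u < 1 + τ := lt_of_mul_lt_mul_left h5 hσ.le
    nlinarith
  -- mean heights
  have hy1 : 0 < 1 - τ * (1 + u) / 2 := by nlinarith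
  have hy2 : 0 < 1 + τ * (1 - u) / 2 := by nlinarith
  have hY1 : (y k ^ 2 - (σ * (1 - τ)) ^ 2) / 2 = σ ^ 2 * τ * (1 - u) * (1 - τ * (1 + u) / 2) := by
    rw [hyk]; ring
  have hY2 : ((σ * (1 + τ)) ^ 2 - y k ^ 2) / 2 = σ ^ 2 * τ * (1 + u) * (1 + τ * (1 - u) / 2) := by
    rw [hyk]; ring
  -- bounds for the means
  have hb := PI_box hc hB ht1 ht2 (Nat.zero_le k) hk
  have hb' := PI_box hc hB ht1 ht2 hk le_rfl
  rw [hP0, hc.y0, sub_zero, hY1] at hb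
  rw [hc.ya, hY2, hPI] at hb'
  have hPex : ∃ P : ℝ, PI y t k = σ ^ 2 * τ * ((1 - u) * th + (1 - u ^ 2) * P) ∧ Bx L τ u th P := by
    refine exP (by positivity) hu1 hu2 hb.1 hb.2 (by linarith [hb'.1]) (by linarith [hb'.2]) ?_ ?_
      hτ0 hτ1
    · intro h
      have : k = 0 := by
        by_contra h0
        exact absurd (hk1 (by omega)) (by rw [h]; exact lt_irrefl _)
      rw [this, hP0]
    · intro h
      have : k = a := by
        by_contra h0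
        exact absurd (hk2 (by omega)) (by rw [h]; exact lt_irrefl _)
      rw [this, hPI]; ring
  obtain ⟨P, hPk, hBx⟩ := hPex
  clear hb hb'
  -- deviations
  have hD : PI y (fun i => t i - th) k = 2 * τ * σ ^ 2 * ((1 - u ^ 2) / 2 * (P + τ * th / 2)) := by
    rw [PI_dev, hc.y0, hY1, hPk]; ring
  have hQk : QI y (fun i => t i - th) k = QI y t k - 2 * th * PI y t k +
      th ^ 2 * (σ ^ 2 * τ * (1 - u) * (1 - τ * (1 + u) / 2)) := by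
    rw [QI_dev, hc.y0, hY1]
  have hQa : QI y (fun i => t i - th) a - QI y (fun i => t i - th) k =
      (QI y t a - QI y t k) - 2 * th * (PI y t a - PI y t k) +
      th ^ 2 * (σ ^ 2 * τ * (1 + u) * (1 + τ * (1 - u) / 2)) := by
    rw [QI_dev, QI_dev, hc.ya, ← hY2]; ring
  rw [hY1, hY2] at hmid
  rw [hQa, hQk, hD] at hmid
  have hPa : PI y t a - PI y t k = σ ^ 2 * τ * (1 + u) * (th - (1 - u) * P) := by
    rw [hPI, hPk]; ring
  have hPk' : PI y t k = σ ^ 2 * τ * (1 - u) * (th + (1 + u) * P) := by rw [hPk]; ring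
  rw [hP0, hQ0, hc.y0, hY1, sub_zero, sub_zero] at hpk
  rw [hc.ya, hY2] at hpa
  have hd1 : PI y t k - th * (σ ^ 2 * τ * (1 - u) * (1 - τ * (1 + u) / 2)) =
      2 * τ * σ ^ 2 * ((1 - u ^ 2) / 2 * (P + τ * th / 2)) := by rw [hPk]; ring
  have hd2 : (PI y t a - PI y t k) - th * (σ ^ 2 * τ * (1 + u) * (1 + τ * (1 - u) / 2)) =
      -(2 * τ * σ ^ 2 * ((1 - u ^ 2) / 2 * (P + τ * th / 2))) := by rw [hPa]; ring
  clear hQa hQk hD hY1 hY2 hle1 hle2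
  have hQa2 : 0 ≤ QI y t a - QI y t k := by linarith
  have h2 : 0 < 2 * τ * σ ^ 2 := by positivity
  refine ⟨u, P, |mid - 2 * τ * σ ^ 2 * ((1 - u ^ 2) / 2 * (P + τ * th / 2))| / (2 * τ * σ ^ 2),
    hu1, hu2, hyk, hPk, hBx, ?_⟩
  generalize QI y t a - QI y t k = E2 at *
  generalize PI y t a - PI y t k = P2 at *
  generalize (1 - u ^ 2) / 2 * (P + τ * th / 2) = p at *
  have hdm : |mid - 2 * τ * σ ^ 2 * p| = 2 * τ * σ ^ 2 * (|mid - 2 * τ * σ ^ 2 * p| / (2 * τ * σ ^ 2)) := by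
    field_simp
  have hd0 : 0 ≤ |mid - 2 * τ * σ ^ 2 * p| / (2 * τ * σ ^ 2) := by positivity
  rw [hdm] at hmid
  refine ⟨hd0, hdm, fun w1 w2 hw1 hw2 => ?_⟩
  clear hdm
  generalize |mid - 2 * τ * σ ^ 2 * p| / (2 * τ * σ ^ 2) = d at hmid hd0 ⊢
  rcases hmid with ⟨hk0, m1, m2⟩ | ⟨hka, m1, m2⟩
  · obtain ⟨e, he0, he, h⟩ := en (th := th) (p := p) (d := d) hσ hτ0
      (by linarith [hk1 hk0] : 0 < 1 - u) hy1 (by linarith : 0 ≤ 1 + u) hy2 rfl rfl hPk' hPa hw1 hw2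
      hQa2 (by rw [hd1]) m1 hpa
    exact ⟨e, he0, Or.inl he, h⟩
  · obtain ⟨e, he0, he, h⟩ := en (th := th) (p := p) (d := d) hσ hτ0
      (by linarith [hk2 hka] : 0 < 1 + u) hy2 (by linarith : 0 ≤ 1 - u) hy1 rfl rfl hPa hPk' hw2 hw1
      hQ1 (by rw [hd2]; ring) m2 hpk
    exact ⟨e, he0, Or.inr he, by linarith⟩

/-! ## the reduction -/

/-- the value of the integrand at a state, without the energies -/
lemma CC_id {σ τ u w th P R V Lam nu E1 E2 E3 E4 : ℝ} (hσ : 0 < σ) (hτ0 : 0 < τ) (hτ1 : τ < 1)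
    (hu2 : u ≤ 1) (hw2 : w ≤ 1) :
    CC (σ * (1 - τ)) (σ * (1 + τ)) (E1 + E2) (E3 + E4) (2 * τ * th * σ ^ 2) (σ ^ 2 * (V - τ * th))
      (σ * ((4 * V - 2) + 2 * τ * Lam))
      ((Th (σ * (1 + τ)) (σ ^ 2 * (V + τ * th)) - Th (σ * (1 - τ)) (σ ^ 2 * (V - τ * th)) -
        σ * (4 * V - 2) * (2 * τ * th * σ ^ 2)) / (2 * σ * τ) - 2 * σ ^ 2 * τ * (1 - th) * Lam -
        4 * τ ^ 2 * σ ^ 2 * nu) 0
      (σ * (1 - τ * u)) E1 (σ ^ 2 * τ * ((1 - u) * th + (1 - u ^ 2) * P))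
      (σ * (1 - τ * w)) E3 (σ ^ 2 * τ * ((1 - w) * th + (1 - w ^ 2) * R)) =
    1 / 2 * σ * τ * ((2 + (u - w)) * E1 + (2 - (u - w)) * E2) +
      1 / 2 * σ * τ * ((2 - (u - w)) * E3 + (2 + (u - w)) * E4) +
      4 * τ ^ 2 * σ ^ 3 *
        (((1 - u ^ 2) / (2 * (1 - τ ^ 2) * (1 - τ * u)) * (V - th) ^ 2 -
          (V - th) * u * (1 - u ^ 2) * P / (1 - τ * u) - (1 - u ^ 2) ^ 2 * P ^ 2 / (2 * (1 - τ * u)) +
          (1 - u ^ 2) / 8 - τ * u * (1 - u ^ 2) / 24 - th * (1 - u ^ 2) / 2 -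
          u * (1 - u ^ 2) * P / 2) +
        ((1 - w ^ 2) / (2 * (1 - τ ^ 2) * (1 - τ * w)) * (V - th) ^ 2 -
          (V - th) * w * (1 - w ^ 2) * R / (1 - τ * w) - (1 - w ^ 2) ^ 2 * R ^ 2 / (2 * (1 - τ * w)) +
          (1 - w ^ 2) / 8 - τ * w * (1 - w ^ 2) / 24 - th * (1 - w ^ 2) / 2 -
          w * (1 - w ^ 2) * R / 2) + τ * (u + w) * nu +
        Lam * (((1 - u ^ 2) * P + (1 - w ^ 2) * R) / 2 - (u + w) * (th - 1 / 2))) := by
  have hu := half (t := th) (P := P) (V := V) hσ hτ0 hτ1 hu2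
  have hw := half (t := th) (P := R) (V := V) hσ hτ0 hτ1 hw2
  have e1 : σ ^ 2 * (V - τ * th) + σ ^ 2 * τ * ((1 - u) * th + (1 - u ^ 2) * P) =
      σ ^ 2 * (V + τ * ((1 - u ^ 2) * P - u * th)) := by ring
  have e2 : σ ^ 2 * (V - τ * th) + σ ^ 2 * τ * ((1 - w) * th + (1 - w ^ 2) * R) =
      σ ^ 2 * (V + τ * ((1 - w ^ 2) * R - w * th)) := by ring
  have e3 : σ ^ 2 * (V - τ * th) + 2 * τ * th * σ ^ 2 = σ ^ 2 * (V + τ * th) := by ring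
  unfold CC
  rw [e1, e2, e3]
  have e4 : ((Th (σ * (1 + τ)) (σ ^ 2 * (V + τ * th)) - Th (σ * (1 - τ)) (σ ^ 2 * (V - τ * th)) -
        σ * (4 * V - 2) * (2 * τ * th * σ ^ 2)) / (2 * σ * τ) - 2 * σ ^ 2 * τ * (1 - th) * Lam -
        4 * τ ^ 2 * σ ^ 2 * nu) *
      (σ * (1 - τ * u) + σ * (1 - τ * w) - σ * (1 - τ) - σ * (1 + τ)) =
      -(u + w) / 2 * (Th (σ * (1 + τ)) (σ ^ 2 * (V + τ * th)) -
        Th (σ * (1 - τ)) (σ ^ 2 * (V - τ * th)) - σ * (4 * V - 2) * (2 * τ * th * σ ^ 2)) +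
      σ * τ * (u + w) * (2 * σ ^ 2 * τ * (1 - th) * Lam + 4 * τ ^ 2 * σ ^ 2 * nu) := by
    field_simp
    ring
  rw [e4]
  generalize Th (σ * (1 - τ * u)) (σ ^ 2 * (V + τ * ((1 - u ^ 2) * P - u * th))) = T1 at *
  generalize Th (σ * (1 - τ * w)) (σ ^ 2 * (V + τ * ((1 - w ^ 2) * R - w * th))) = T2 at *
  generalize Th (σ * (1 + τ)) (σ ^ 2 * (V + τ * th)) = T3 at *
  generalize Th (σ * (1 - τ)) (σ ^ 2 * (V - τ * th)) = T4 at *
  linear_combination hu + hw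

/-- **the reduction of the one-dimensional statement to `PWat`** (line P-a) -/
theorem one_of_PW {B T L : ℝ} {a b : ℕ} {y t z s : ℕ → ℝ} (hB : 0 < B) (hBT : B < T)
    (hy : ChG B T a y) (hz : ChG B T b z) (ht1 : ∀ i, L ≤ t i) (ht2 : ∀ i, t i ≤ 2 / 3)
    (hs1 : ∀ i, L ≤ s i) (hs2 : ∀ i, s i ≤ 2 / 3) (hPI : PI y t a = PI z s b) (ka : ℝ)
    {kap lp nu : ℝ} (hkap : 0 ≤ kap)
    (hPW : PWat L ((T - B) / (T + B)) (2 * PI y t a / (T ^ 2 - B ^ 2)) kap lp nu) :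
    ∃ lam mu om : ℝ, ∀ i, i ≤ a → ∀ j, j ≤ b →
      0 ≤ CC B T (QI y t a) (QI z s b) (PI y t a) ka lam mu om (y i) (QI y t i) (PI y t i)
        (z j) (QI z s j) (PI z s j) := by
  obtain ⟨σ, hσe⟩ : ∃ σ, σ = (B + T) / 2 := ⟨_, rfl⟩
  obtain ⟨τ, hτe⟩ : ∃ τ, τ = (T - B) / (T + B) := ⟨_, rfl⟩
  obtain ⟨th, hthe⟩ : ∃ th, th = 2 * PI y t a / (T ^ 2 - B ^ 2) := ⟨_, rfl⟩
  rw [← hτe, ← hthe] at hPW
  have hTB : 0 < T + B := by linarith
  have hσ : 0 < σ := by rw [hσe]; linarith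
  have hτ0 : 0 < τ := by rw [hτe]; exact div_pos (by linarith) hTB
  have hτ1 : τ < 1 := by rw [hτe, div_lt_one hTB]; linarith
  have hBe : B = σ * (1 - τ) := by rw [hσe, hτe]; field_simp; ring
  have hTe : T = σ * (1 + τ) := by rw [hσe, hτe]; field_simp; ring
  have hPe : PI y t a = 2 * τ * th * σ ^ 2 := by
    have h1 : T ^ 2 - B ^ 2 = 4 * τ * σ ^ 2 := by rw [hBe, hTe]; ring
    rw [hthe, h1]; field_simp; ring
  have hPe' : PI z s b = 2 * τ * th * σ ^ 2 := by rw [← hPI, hPe]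
  clear hσe hτe hthe
  subst hBe hTe
  -- midranges
  have hD1 : PI y (fun i => t i - th) a = 0 := by
    rw [PI_dev, hy.y0, hy.ya, hPe]; ring
  have hD2 : PI z (fun i => s i - th) b = 0 := by
    rw [PI_dev, hz.y0, hz.ya, hPe']; ring
  obtain ⟨mid1, hm1⟩ := exists_mid hy hB (fun i => t i - th) hD1
  obtain ⟨mid2, hm2⟩ := exists_mid hz hB (fun i => s i - th) hD2
  obtain ⟨V, hV⟩ : ∃ V : ℝ, ka = σ ^ 2 * (V - τ * th) := ⟨ka / σ ^ 2 + τ * th, by field_simp; ring⟩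
  obtain ⟨MM, hMM⟩ : ∃ MM : ℝ, mid1 + mid2 = 2 * τ * σ ^ 2 * MM :=
    ⟨(mid1 + mid2) / (2 * τ * σ ^ 2), by field_simp⟩
  refine ⟨σ * ((4 * V - 2) + 2 * τ * (kap * MM - τ * lp)),
    (Th (σ * (1 + τ)) (σ ^ 2 * (V + τ * th)) - Th (σ * (1 - τ)) (σ ^ 2 * (V - τ * th)) -
        σ * (4 * V - 2) * (2 * τ * th * σ ^ 2)) / (2 * σ * τ) -
        2 * σ ^ 2 * τ * (1 - th) * (kap * MM - τ * lp) - 4 * τ ^ 2 * σ ^ 2 * nu, 0,
    fun i hi j hj => ?_⟩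
  obtain ⟨u, P, dR, hu1, hu2, hyi, hPi, hBx1, hdR, hdR', hen1⟩ :=
    chain_state hσ hτ0 hτ1 hy ht1 ht2 hPe hi (hm1 i hi)
  obtain ⟨w, R, dL, hw1, hw2, hzj, hPj, hBx2, hdL, hdL', hen2⟩ :=
    chain_state hσ hτ0 hτ1 hz hs1 hs2 hPe' hj (hm2 j hj)
  obtain ⟨eR, heR0, heR, hE1⟩ := hen1 (2 + (u - w)) (2 - (u - w)) (by linarith) (by linarith)
  obtain ⟨eL, heL0, heL, hE2⟩ := hen2 (2 - (u - w)) (2 + (u - w)) (by linarith) (by linarith)
  have hmain := hPW u w P R dR dL eR eL hu1 hu2 hw1 hw2 hBx1 hBx2 hdR hdL heR0 heL0 heR heL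
  have hFF := FF_le (t := th) (P := P) (R := R) (V := V) hτ0 hτ1 hu1 hu2 hw1 hw2
  have hid := CC_id (E1 := QI y t i) (E2 := QI y t a - QI y t i) (E3 := QI z s j)
    (E4 := QI z s b - QI z s j) (th := th) (P := P) (R := R) (V := V)
    (Lam := kap * MM - τ * lp) (nu := nu) hσ hτ0 hτ1 hu2 hw2
  rw [add_sub_cancel, add_sub_cancel] at hid
  rw [hyi, hzj, hPi, hPj, hPe, hV, hid]
  clear hid hen1 hen2 hm1 hm2 hyi hzj hPi hPj hPe hPe' hBx1 hBx2 heR heL hPW hD1 hD2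
  -- the multiplier
  have h2 : 0 < 2 * τ * σ ^ 2 := by positivity
  generalize (1 - u ^ 2) / 2 * (P + τ * th / 2) = p at *
  generalize (1 - w ^ 2) / 2 * (R + τ * th / 2) = r at *
  generalize ((1 - u ^ 2) * P + (1 - w ^ 2) * R) / 2 - (u + w) * (th - 1 / 2) = M at *
  have hMd : |MM - (p + r)| ≤ dR + dL := by
    have h3 : 2 * τ * σ ^ 2 * |MM - (p + r)| ≤ 2 * τ * σ ^ 2 * (dR + dL) := by
      calc 2 * τ * σ ^ 2 * |MM - (p + r)| = |2 * τ * σ ^ 2 * (MM - (p + r))| := by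
            rw [abs_mul, abs_of_pos h2]
        _ = |(mid1 - 2 * τ * σ ^ 2 * p) + (mid2 - 2 * τ * σ ^ 2 * r)| := by
            congr 1; linear_combination -hMM
        _ ≤ |mid1 - 2 * τ * σ ^ 2 * p| + |mid2 - 2 * τ * σ ^ 2 * r| := abs_add_le _ _
        _ = 2 * τ * σ ^ 2 * (dR + dL) := by rw [hdR', hdL']; ring
    exact le_of_mul_le_mul_left h3 h2
  have hLM : (kap * (p + r) - τ * lp) * M - kap * |M| * (dR + dL) ≤ (kap * MM - τ * lp) * M := by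
    have h4 : -(|MM - (p + r)| * |M|) ≤ (MM - (p + r)) * M := by
      rw [← abs_mul]; exact neg_abs_le _
    have h5 : |MM - (p + r)| * |M| ≤ (dR + dL) * |M| :=
      mul_le_mul_of_nonneg_right hMd (abs_nonneg _)
    have h6 : kap * (-((dR + dL) * |M|)) ≤ kap * ((MM - (p + r)) * M) :=
      mul_le_mul_of_nonneg_left (by linarith) hkap
    linarith
  have h4 : 0 < 4 * τ ^ 2 * σ ^ 3 := by positivity
  have h5 := mul_le_mul_of_nonneg_left hLM h4.le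
  have h6 := mul_le_mul_of_nonneg_left hFF h4.le
  have h7 := mul_nonneg h4.le hmain
  linarith

end Pool.G1.Gap
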