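import Pool.Agent.Work.MP_b5407d_g1.Pl_PW

/-!
# G1, line P-a: reduction of the one-dimensional statement to the pointwise inequality `PWV`

Midrange multiplier with general comparison slope `m`, closure constant `n` (helper24: `m = n = (1/2+V)/2`,
helper93: `m = t`, `n = 1 - t`); the potential level `V` is not eliminated.
Normalisation: `B = σ (1 - h)`, `T = σ (1 + h)`, state `al = σ (1 - h a)`, `be = σ (1 - h b)`.
-/

set_option autoImplicit false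

open Finset

namespace Pool.G1.Gap

/-- the form at a state, constant loads on the four arcs, before the multipliers -/
noncomputable def FV (h a b t V P R : ℝ) : ℝ :=
  1 / 2 * (1 - a ^ 2) * (t - 1 / 2 + a * P) ^ 2 + 1 / 2 * (1 - b ^ 2) * (t - 1 / 2 + b * R) ^ 2 +
    ((1 - a ^ 2) * (V - t - (1 - h ^ 2) * (a * P)) ^ 2 / (1 - h * a) +
      (1 - b ^ 2) * (V - t - (1 - h ^ 2) * (b * R)) ^ 2 / (1 - h * b)) / (2 * (1 - h ^ 2)) -
    h / 2 * (a * (1 - a ^ 2) * P ^ 2 + b * (1 - b ^ 2) * R ^ 2) -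
    h / 24 * (a * (1 - a ^ 2) + b * (1 - b ^ 2)) +
    1 / 8 * ((h * (1 + a) ^ 2 - (a + b)) * ((1 - a) * (t + (1 + a) * P) ^ 2 / (1 - h * (1 + a) / 2)) -
      (h * (1 - a) ^ 2 - (a + b)) * ((1 + a) * (t - (1 - a) * P) ^ 2 / (1 + h * (1 - a) / 2)) +
      (h * (1 + b) ^ 2 - (a + b)) * ((1 - b) * (t + (1 + b) * R) ^ 2 / (1 - h * (1 + b) / 2)) -
      (h * (1 - b) ^ 2 - (a + b)) * ((1 + b) * (t - (1 - b) * R) ^ 2 / (1 + h * (1 - b) / 2)))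

/-- **the pointwise inequality with extreme values**; `q` = value of the comparison potential at the
state, `s` = `∓ (t - m)` its value at the end of the arc which is visited, `z` the extreme value on the
side which hurts, `w` the other extreme value. -/
def PWV (L h t V m n kap L1 nu : ℝ) : Prop :=
  ∀ a b P R qR qL en sR zR wR eR sL zL wL eL : ℝ,
    -1 ≤ a → a ≤ 1 → -1 ≤ b → b ≤ 1 → Bx L h a t P → Bx L h b t R →
    qR = -a * (t - m) + (1 - a ^ 2) * (P + m * h / 2) →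
    qL = -b * (t - m) + (1 - b ^ 2) * (R + m * h / 2) →
    en = (1 - a ^ 2) * P + (1 - b ^ 2) * R - (a + b) * (t - n) →
    0 ≤ eR → 0 ≤ eL →
    (eR * (2 * (1 - a) * (1 - h * (1 + a) / 2)) = 2 + (a - b) ∧ sR = -(t - m) ∨
      eR * (2 * (1 + a) * (1 + h * (1 - a) / 2)) = 2 - (a - b) ∧ sR = t - m) →
    (eL * (2 * (1 - b) * (1 - h * (1 + b) / 2)) = 2 - (a - b) ∧ sL = -(t - m) ∨
      eL * (2 * (1 + b) * (1 + h * (1 - b) / 2)) = 2 + (a - b) ∧ sL = t - m) →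
    (0 ≤ en ∧ zR ≤ qR ∧ zR ≤ t - m ∧ zR ≤ -(t - m) ∧ qR ≤ wR ∧ t - m ≤ wR ∧ -(t - m) ≤ wR ∧
        zL ≤ qL ∧ zL ≤ t - m ∧ zL ≤ -(t - m) ∧ qL ≤ wL ∧ t - m ≤ wL ∧ -(t - m) ≤ wL ∨
      en ≤ 0 ∧ qR ≤ zR ∧ t - m ≤ zR ∧ -(t - m) ≤ zR ∧ wR ≤ qR ∧ wR ≤ t - m ∧ wR ≤ -(t - m) ∧
        qL ≤ zL ∧ t - m ≤ zL ∧ -(t - m) ≤ zL ∧ wL ≤ qL ∧ wL ≤ t - m ∧ wL ≤ -(t - m)) →
    0 ≤ FV h a b t V P R +
      1 / 4 * (L1 * ((1 - a ^ 2) * P + (1 - b ^ 2) * R) + kap * (zR + wR + zL + wL) * en +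
        nu * (a + b)) +
      eR * ((qR - zR) * (sR - zR)) + eL * ((qL - zL) * (sL - zL))

/-- the form before elimination is `FV` plus energies -/
lemma FV_eq {τ u w t P R V : ℝ} (hτ0 : 0 < τ) (hτ1 : τ < 1) (hu2 : u ≤ 1) (hw2 : w ≤ 1) :
    FV τ u w t V P R =
      (2 + (u - w)) * ((1 - u) * (t + (1 + u) * P) ^ 2 / (1 - τ * (1 + u) / 2)) / 8 +
      (2 - (u - w)) * ((1 + u) * (t - (1 - u) * P) ^ 2 / (1 + τ * (1 - u) / 2)) / 8 +
      (2 - (u - w)) * ((1 - w) * (t + (1 + w) * R) ^ 2 / (1 - τ * (1 + w) / 2)) / 8 +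
      (2 + (u - w)) * ((1 + w) * (t - (1 - w) * R) ^ 2 / (1 + τ * (1 - w) / 2)) / 8 +
      ((1 - u ^ 2) / (2 * (1 - τ ^ 2) * (1 - τ * u)) * (V - t) ^ 2 -
        (V - t) * u * (1 - u ^ 2) * P / (1 - τ * u) - (1 - u ^ 2) ^ 2 * P ^ 2 / (2 * (1 - τ * u)) +
        (1 - u ^ 2) / 8 - τ * u * (1 - u ^ 2) / 24 - t * (1 - u ^ 2) / 2 - u * (1 - u ^ 2) * P / 2) +
      ((1 - w ^ 2) / (2 * (1 - τ ^ 2) * (1 - τ * w)) * (V - t) ^ 2 -
        (V - t) * w * (1 - w ^ 2) * R / (1 - τ * w) - (1 - w ^ 2) ^ 2 * R ^ 2 / (2 * (1 - τ * w)) +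
        (1 - w ^ 2) / 8 - τ * w * (1 - w ^ 2) / 24 - t * (1 - w ^ 2) / 2 - w * (1 - w ^ 2) * R / 2) := by
  have hA : 0 < 1 - τ * u := by nlinarith
  have hB : 0 < 1 - τ * w := by nlinarith
  have h0 : 0 < 1 - τ ^ 2 := by nlinarith
  have h1 : 0 < 1 - τ * (1 + u) / 2 := by nlinarith
  have h2 : 0 < 1 + τ * (1 - u) / 2 := by nlinarith
  have h3 : 0 < 1 - τ * (1 + w) / 2 := by nlinarith
  have h4 : 0 < 1 + τ * (1 - w) / 2 := by nlinarith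
  have a1 := arcs (t := t) (P := P) (c := u + w) (e := u + w) rfl hA rfl rfl h1 h2 rfl
  have a2 := arcs (t := t) (P := R) (c := u + w) (e := u + w) rfl hB rfl rfl h3 h4 rfl
  unfold FV
  have r1 : 2 + (2 * u - (u + w)) = 2 + (u - w) := by ring
  have r2 : 2 - (2 * u - (u + w)) = 2 - (u - w) := by ring
  have r3 : 2 + (2 * w - (u + w)) = 2 - (u - w) := by ring
  have r4 : 2 - (2 * w - (u + w)) = 2 + (u - w) := by ring
  rw [r1, r2] at a1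
  rw [r3, r4] at a2
  have s1 : (1 - u ^ 2) * (V - t - (1 - τ ^ 2) * (u * P)) ^ 2 / (1 - τ * u) / (2 * (1 - τ ^ 2)) =
      (1 - u ^ 2) / (2 * (1 - τ ^ 2) * (1 - τ * u)) * (V - t) ^ 2 -
        (V - t) * u * (1 - u ^ 2) * P / (1 - τ * u) +
        (1 - τ ^ 2) / 2 * ((1 - u ^ 2) * (u * P) ^ 2 / (1 - τ * u)) := by
    field_simp
    ring
  have s2 : (1 - w ^ 2) * (V - t - (1 - τ ^ 2) * (w * R)) ^ 2 / (1 - τ * w) / (2 * (1 - τ ^ 2)) =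
      (1 - w ^ 2) / (2 * (1 - τ ^ 2) * (1 - τ * w)) * (V - t) ^ 2 -
        (V - t) * w * (1 - w ^ 2) * R / (1 - τ * w) +
        (1 - τ ^ 2) / 2 * ((1 - w ^ 2) * (w * R) ^ 2 / (1 - τ * w)) := by
    field_simp
    ring
  have s3 : ((1 - u ^ 2) * (V - t - (1 - τ ^ 2) * (u * P)) ^ 2 / (1 - τ * u) +
      (1 - w ^ 2) * (V - t - (1 - τ ^ 2) * (w * R)) ^ 2 / (1 - τ * w)) / (2 * (1 - τ ^ 2)) =
      (1 - u ^ 2) * (V - t - (1 - τ ^ 2) * (u * P)) ^ 2 / (1 - τ * u) / (2 * (1 - τ ^ 2)) +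
      (1 - w ^ 2) * (V - t - (1 - τ ^ 2) * (w * R)) ^ 2 / (1 - τ * w) / (2 * (1 - τ ^ 2)) := by ring
  rw [s3]
  linarith

/-! ## extremes of a chain -/

/-- extreme values `mn ≤ mx` of the comparison potential `PI + c0` over the nodes (`c0` the value at the
bottom, `c0 + PI a` the value at the top) and the energy cost of visiting them -/
lemma exists_ext {B T : ℝ} {a : ℕ} {y : ℕ → ℝ} (hc : ChG B T a y) (hB : 0 < B) (t : ℕ → ℝ)
    (c0 : ℝ) : ∃ mn mx : ℝ, (∀ k, k ≤ a → mn ≤ c0 + PI y t k ∧ c0 + PI y t k ≤ mx) ∧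
      ∀ k, k ≤ a → ∀ z, z = mn ∨ z = mx →
      (0 < k ∧ (|(c0 + PI y t k - z) + (c0 - z)|) ^ 2 ≤ QI y t k * ((y k ^ 2 - B ^ 2) / 2) ∧
        (PI y t a - PI y t k) ^ 2 ≤ (QI y t a - QI y t k) * ((T ^ 2 - y k ^ 2) / 2)) ∨
      (k < a ∧ (PI y t k) ^ 2 ≤ QI y t k * ((y k ^ 2 - B ^ 2) / 2) ∧
        (|(c0 + PI y t k - z) + (c0 + PI y t a - z)|) ^ 2 ≤
          (QI y t a - QI y t k) * ((T ^ 2 - y k ^ 2) / 2)) := by
  have hP0 : PI y t 0 = 0 := by simp [PI]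
  have hQ0 : QI y t 0 = 0 := by simp [QI]
  obtain ⟨m1, hm1, hx⟩ := exists_max_image (range (a + 1)) (PI y t) ⟨0, by simp⟩
  obtain ⟨m2, hm2, hn⟩ := exists_min_image (range (a + 1)) (PI y t) ⟨0, by simp⟩
  simp only [mem_range] at hm1 hm2 hx hn
  refine ⟨c0 + PI y t m2, c0 + PI y t m1, fun k hk => ⟨by linarith [hn k (by omega)],
    by linarith [hx k (by omega)]⟩, fun k hk z hz => ?_⟩
  -- the extreme is at a node `m`
  obtain ⟨m, hma, hzm, hsame⟩ : ∃ m, m ≤ a ∧ z = c0 + PI y t m ∧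
      ((∀ j, j ≤ a → PI y t m ≤ PI y t j) ∨ (∀ j, j ≤ a → PI y t j ≤ PI y t m)) := by
    rcases hz with h | h
    · exact ⟨m2, by omega, h, Or.inl fun j hj => hn j (by omega)⟩
    · exact ⟨m1, by omega, h, Or.inr fun j hj => hx j (by omega)⟩
  have hb1 : (PI y t k) ^ 2 ≤ QI y t k * ((y k ^ 2 - B ^ 2) / 2) := by
    have := (QI_mono hc hB t (Nat.zero_le k) hk).2.1
    rw [hP0, hQ0, hc.y0] at this
    simpa using this
  have hb2 : (PI y t a - PI y t k) ^ 2 ≤ (QI y t a - QI y t k) * ((T ^ 2 - y k ^ 2) / 2) := by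
    have := (QI_mono hc hB t hk le_rfl).2.1
    rw [hc.ya] at this
    exact this
  have habs : ∀ i j, i ≤ a → j ≤ a → |(c0 + PI y t i - z) + (c0 + PI y t j - z)| =
      |PI y t m - PI y t i| + |PI y t j - PI y t m| := by
    intro i j hi hj
    rcases hsame with h | h
    · have h1 := h i hi
      have h2 := h j hj
      rw [abs_of_nonneg (by rw [hzm]; linarith), abs_of_nonpos (by linarith),
        abs_of_nonneg (by linarith), hzm]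
      ring
    · have h1 := h i hi
      have h2 := h j hj
      rw [abs_of_nonpos (by rw [hzm]; linarith), abs_of_nonneg (by linarith),
        abs_of_nonpos (by linarith), hzm]
      ring
  rcases lt_or_ge k m with hkm | hmk
  · right
    refine ⟨by omega, hb1, ?_⟩
    rw [habs k a hk le_rfl]
    have := path_mid hc hB t hkm.le hma le_rfl
    rwa [hc.ya] at this
  · rcases Nat.eq_zero_or_pos k with h | h
    · right
      have hm0 : m = 0 := by omega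
      refine ⟨by have := hc.a0; omega, hb1, ?_⟩
      rw [habs k a hk le_rfl, hm0, h, hP0]
      rw [h, hP0] at hb2
      simp only [sub_zero, abs_zero, zero_add]
      rw [sq_abs]
      simpa using hb2
    · left
      refine ⟨h, ?_, hb2⟩
      have e0 : (c0 + PI y t k - z) + (c0 - z) = (c0 + PI y t 0 - z) + (c0 + PI y t k - z) := by
        rw [hP0]; ring
      rw [e0, habs 0 k (by omega) hk]
      have := path_mid hc hB t (Nat.zero_le m) hmk hk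
      rw [hQ0, hc.y0] at this
      simpa using this

/-! ## energies -/

/-- weighted energy of one arc, with an excursion -/
lemma wEX {σ τ l y G E Y p X wt e : ℝ} (hσ : 0 < σ) (hτ : 0 < τ) (hl : 0 < l) (hy : 0 < y)
    (hY : Y = σ ^ 2 * τ * l * y) (hp : p = σ ^ 2 * τ * l * G) (hwt : 0 ≤ wt)
    (he : e * (2 * l * y) = wt) (hE : p ^ 2 + 4 * (σ ^ 2 * τ) ^ 2 * X ≤ E * Y) :
    4 * τ ^ 2 * σ ^ 3 * (wt * (l * G ^ 2 / y) / 8 + e * X) ≤ 1 / 2 * σ * τ * wt * E := by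
  have hYp : 0 < Y := by rw [hY]; positivity
  have h1 : (p ^ 2 + 4 * (σ ^ 2 * τ) ^ 2 * X) / Y ≤ E := by
    rw [div_le_iff₀ hYp]; exact hE
  have h2 : 4 * τ ^ 2 * σ ^ 3 * (wt * (l * G ^ 2 / y) / 8 + e * X) =
      1 / 2 * σ * τ * wt * ((p ^ 2 + 4 * (σ ^ 2 * τ) ^ 2 * X) / Y) := by
    rw [hY, hp, ← he]
    field_simp
    ring
  rw [h2]
  exact mul_le_mul_of_nonneg_left h1 (by positivity)

/-- energies of a chain, excursion in the arc with `l1, y1` -/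
lemma enV {σ τ m l1 y1 l2 y2 G1 G2 E1 E2 Y1 Y2 P1 P2 q s z c w1 w2 : ℝ} (hσ : 0 < σ)
    (hτ0 : 0 < τ) (hl1 : 0 < l1) (hy1 : 0 < y1) (hl2 : 0 ≤ l2) (hy2 : 0 < y2)
    (hY1 : Y1 = σ ^ 2 * τ * l1 * y1) (hY2 : Y2 = σ ^ 2 * τ * l2 * y2)
    (hP1 : P1 = σ ^ 2 * τ * l1 * G1) (hP2 : P2 = σ ^ 2 * τ * l2 * G2) (hw1 : 0 ≤ w1)
    (hw2 : 0 ≤ w2) (hE2 : 0 ≤ E2) (hc : c = σ ^ 2 * τ)
    (hp : (P1 - m * Y1) ^ 2 = (c * (q - s)) ^ 2)
    (m1 : |(c * q - c * z) + (c * s - c * z)| ^ 2 ≤ (E1 - 2 * m * P1 + m ^ 2 * Y1) * Y1)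
    (m2 : P2 ^ 2 ≤ E2 * Y2) :
    ∃ e : ℝ, 0 ≤ e ∧ e * (2 * l1 * y1) = w1 ∧
      4 * τ ^ 2 * σ ^ 3 * (w1 * (l1 * G1 ^ 2 / y1) / 8 + w2 * (l2 * G2 ^ 2 / y2) / 8 +
        e * ((q - z) * (s - z))) ≤ 1 / 2 * σ * τ * (w1 * E1 + w2 * E2) := by
  have hne : 2 * l1 * y1 ≠ 0 := by positivity
  rw [sq_abs] at m1
  have m3 : P1 ^ 2 + 4 * (σ ^ 2 * τ) ^ 2 * ((q - z) * (s - z)) ≤ E1 * Y1 := by
    rw [← hc]
    nlinarith [m1, hp]
  have A1 := wEX (e := w1 / (2 * l1 * y1)) hσ hτ0 hl1 hy1 hY1 hP1 hw1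
    (div_mul_cancel₀ _ hne) m3
  have A2 := wE0 hσ hτ0 hl2 hy2 hY2 hP2 hw2 hE2 m2
  refine ⟨w1 / (2 * l1 * y1), by positivity, div_mul_cancel₀ _ hne, ?_⟩
  linarith

/-- one chain at a state -/
lemma chain_stateV {σ τ th L m : ℝ} (hσ : 0 < σ) (hτ0 : 0 < τ) (hτ1 : τ < 1) {a : ℕ} {y : ℕ → ℝ}
    (hc : ChG (σ * (1 - τ)) (σ * (1 + τ)) a y) {t : ℕ → ℝ} (ht1 : ∀ i, L ≤ t i)
    (ht2 : ∀ i, t i ≤ 2 / 3) (hPI : PI y t a = 2 * τ * th * σ ^ 2) {k : ℕ} (hk : k ≤ a) {mn mx : ℝ}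
    (hext : mn ≤ -(σ ^ 2 * τ * (th - m)) + PI y (fun i => t i - m) k ∧
      -(σ ^ 2 * τ * (th - m)) + PI y (fun i => t i - m) k ≤ mx)
    (hvis : ∀ z, z = mn ∨ z = mx →
      (0 < k ∧ (|(-(σ ^ 2 * τ * (th - m)) + PI y (fun i => t i - m) k - z) +
          (-(σ ^ 2 * τ * (th - m)) - z)|) ^ 2 ≤
          QI y (fun i => t i - m) k * ((y k ^ 2 - (σ * (1 - τ)) ^ 2) / 2) ∧
        (PI y (fun i => t i - m) a - PI y (fun i => t i - m) k) ^ 2 ≤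
          (QI y (fun i => t i - m) a - QI y (fun i => t i - m) k) *
            (((σ * (1 + τ)) ^ 2 - y k ^ 2) / 2)) ∨
      (k < a ∧ (PI y (fun i => t i - m) k) ^ 2 ≤
          QI y (fun i => t i - m) k * ((y k ^ 2 - (σ * (1 - τ)) ^ 2) / 2) ∧
        (|(-(σ ^ 2 * τ * (th - m)) + PI y (fun i => t i - m) k - z) +
          (-(σ ^ 2 * τ * (th - m)) + PI y (fun i => t i - m) a - z)|) ^ 2 ≤
          (QI y (fun i => t i - m) a - QI y (fun i => t i - m) k) *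
            (((σ * (1 + τ)) ^ 2 - y k ^ 2) / 2))) :
    ∃ u P q : ℝ, -1 ≤ u ∧ u ≤ 1 ∧ y k = σ * (1 - τ * u) ∧
      PI y t k = σ ^ 2 * τ * ((1 - u) * th + (1 - u ^ 2) * P) ∧ Bx L τ u th P ∧
      q = -u * (th - m) + (1 - u ^ 2) * (P + m * τ / 2) ∧
      mn ≤ σ ^ 2 * τ * q ∧ σ ^ 2 * τ * q ≤ mx ∧
      ∀ z : ℝ, σ ^ 2 * τ * z = mn ∨ σ ^ 2 * τ * z = mx →
      ∀ w1 w2 : ℝ, 0 ≤ w1 → 0 ≤ w2 → ∃ e s : ℝ, 0 ≤ e ∧
        (e * (2 * (1 - u) * (1 - τ * (1 + u) / 2)) = w1 ∧ s = -(th - m) ∨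
          e * (2 * (1 + u) * (1 + τ * (1 - u) / 2)) = w2 ∧ s = th - m) ∧
        4 * τ ^ 2 * σ ^ 3 * (w1 * ((1 - u) * (th + (1 + u) * P) ^ 2 / (1 - τ * (1 + u) / 2)) / 8 +
          w2 * ((1 + u) * (th - (1 - u) * P) ^ 2 / (1 + τ * (1 - u) / 2)) / 8 +
          e * ((q - z) * (s - z))) ≤
        1 / 2 * σ * τ * (w1 * QI y t k + w2 * (QI y t a - QI y t k)) := by
  have hB : 0 < σ * (1 - τ) := mul_pos hσ (by linarith)
  have hστ : 0 < σ * τ := mul_pos hσ hτ0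
  have hu : ∃ u : ℝ, y k = σ * (1 - τ * u) := ⟨(1 - y k / σ) / τ, by field_simp; ring⟩
  obtain ⟨u, hyk⟩ := hu
  obtain ⟨hQ1, hpk, hle1, -⟩ := QI_mono hc hB t (Nat.zero_le k) hk
  obtain ⟨hQ2, hpa, hle2, -⟩ := QI_mono hc hB t hk le_rfl
  have hQ0 : QI y t 0 = 0 := by simp [QI]
  have hP0 : PI y t 0 = 0 := by simp [PI]
  rw [hQ0] at hQ1
  have hu1 : -1 ≤ u := by
    rw [hc.ya, hyk] at hle2
    have h6 : 1 - τ * u ≤ 1 + τ := le_of_mul_le_mul_left hle2 hσ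
    by_contra hcon
    push Not at hcon
    nlinarith
  have hu2 : u ≤ 1 := by
    rw [hc.y0, hyk] at hle1
    have h6 : 1 - τ ≤ 1 - τ * u := le_of_mul_le_mul_left hle1 hσ
    by_contra hcon
    push Not at hcon
    nlinarith
  have hk1 : 0 < k → u < 1 := by
    intro h
    have h5 := y_lt hc hB h hk
    rw [hc.y0, hyk] at h5
    have h6 : 1 - τ < 1 - τ * u := lt_of_mul_lt_mul_left h5 hσ.le
    nlinarith
  have hk2 : k < a → -1 < u := by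
    intro h
    have h5 := y_lt hc hB h le_rfl
    rw [hc.ya, hyk] at h5
    have h6 : 1 - τ * u < 1 + τ := lt_of_mul_lt_mul_left h5 hσ.le
    nlinarith
  -- mean heights
  have hy1 : 0 < 1 - τ * (1 + u) / 2 := by nlinarith
  have hy2 : 0 < 1 + τ * (1 - u) / 2 := by nlinarith
  have hY1 : (y k ^ 2 - (σ * (1 - τ)) ^ 2) / 2 = σ ^ 2 * τ * (1 - u) * (1 - τ * (1 + u) / 2) := by
    rw [hyk]; ring
  have hY2 : ((σ * (1 + τ)) ^ 2 - y k ^ 2) / 2 = σ ^ 2 * τ * (1 + u) * (1 + τ * (1 - u) / 2) := by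
    rw [hyk]; ring
  -- bounds for the means
  have hb := PI_box hc hB ht1 ht2 (Nat.zero_le k) hk
  have hb' := PI_box hc hB ht1 ht2 hk le_rfl
  rw [hP0, hc.y0, sub_zero, hY1] at hb
  rw [hc.ya, hY2, hPI] at hb'
  have hPex : ∃ P : ℝ, PI y t k = σ ^ 2 * τ * ((1 - u) * th + (1 - u ^ 2) * P) ∧ Bx L τ u th P := by
    refine exP (by positivity) hu1 hu2 hb.1 hb.2 (by linarith [hb'.1]) (by linarith [hb'.2]) ?_ ?_
      hτ0 hτ1
    · intro h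
      have : k = 0 := by
        by_contra h0
        exact absurd (hk1 (by omega)) (by rw [h]; exact lt_irrefl _)
      rw [this, hP0]
    · intro h
      have : k = a := by
        by_contra h0
        exact absurd (hk2 (by omega)) (by rw [h]; exact lt_irrefl _)
      rw [this, hPI]; ring
  obtain ⟨P, hPk, hBx⟩ := hPex
  clear hb hb'
  -- the comparison potential
  have hD : PI y (fun i => t i - m) k = σ ^ 2 * τ * ((1 - u) * (th - m) +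
      (1 - u ^ 2) * (P + m * τ / 2)) := by
    rw [PI_dev, hc.y0, hY1, hPk]; ring
  have hDa : PI y (fun i => t i - m) a = 2 * (σ ^ 2 * τ) * (th - m) := by
    rw [PI_dev, hc.y0, hc.ya, hPI]; ring
  have hQk : QI y (fun i => t i - m) k = QI y t k - 2 * m * PI y t k +
      m ^ 2 * (σ ^ 2 * τ * (1 - u) * (1 - τ * (1 + u) / 2)) := by
    rw [QI_dev, hc.y0, hY1]
  have hQa : QI y (fun i => t i - m) a - QI y (fun i => t i - m) k =
      (QI y t a - QI y t k) - 2 * m * (PI y t a - PI y t k) +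
      m ^ 2 * (σ ^ 2 * τ * (1 + u) * (1 + τ * (1 - u) / 2)) := by
    rw [QI_dev, QI_dev, hc.ya, ← hY2]; ring
  have hPa : PI y t a - PI y t k = σ ^ 2 * τ * (1 + u) * (th - (1 - u) * P) := by
    rw [hPI, hPk]; ring
  have hPk' : PI y t k = σ ^ 2 * τ * (1 - u) * (th + (1 + u) * P) := by rw [hPk]; ring
  rw [hP0, hQ0, hc.y0, hY1, sub_zero, sub_zero] at hpk
  rw [hc.ya, hY2] at hpa
  have hq1 : -(σ ^ 2 * τ * (th - m)) + PI y (fun i => t i - m) k =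
      σ ^ 2 * τ * (-u * (th - m) + (1 - u ^ 2) * (P + m * τ / 2)) := by rw [hD]; ring
  have hq2 : -(σ ^ 2 * τ * (th - m)) + PI y (fun i => t i - m) a = σ ^ 2 * τ * (th - m) := by
    rw [hDa]; ring
  refine ⟨u, P, _, hu1, hu2, hyk, hPk, hBx, rfl, by rw [← hq1]; exact hext.1,
    by rw [← hq1]; exact hext.2, fun z hz w1 w2 hw1 hw2 => ?_⟩
  have hmid := hvis (σ ^ 2 * τ * z) hz
  rw [hq1, hq2, hY1, hY2, hQa, hQk] at hmid
  have hd1 : (PI y t k - m * (σ ^ 2 * τ * (1 - u) * (1 - τ * (1 + u) / 2))) ^ 2 =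
      (σ ^ 2 * τ * ((-u * (th - m) + (1 - u ^ 2) * (P + m * τ / 2)) - -(th - m))) ^ 2 := by
    rw [hPk]; ring
  have hd2 : ((PI y t a - PI y t k) - m * (σ ^ 2 * τ * (1 + u) * (1 + τ * (1 - u) / 2))) ^ 2 =
      (σ ^ 2 * τ * ((-u * (th - m) + (1 - u ^ 2) * (P + m * τ / 2)) - (th - m))) ^ 2 := by
    rw [hPa]; ring
  clear hQa hQk hD hDa hY1 hY2 hle1 hle2 hq1 hq2 hvis hext
  have hQa2 : 0 ≤ QI y t a - QI y t k := by linarith
  generalize QI y t a - QI y t k = E2 at *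
  generalize PI y t a - PI y t k = P2 at *
  generalize -u * (th - m) + (1 - u ^ 2) * (P + m * τ / 2) = q at *
  rcases hmid with ⟨hk0, m1, m2⟩ | ⟨hka, m1, m2⟩
  · obtain ⟨e, he0, he, h⟩ := enV (m := m) (q := q) (s := -(th - m)) (z := z) (c := σ ^ 2 * τ) hσ hτ0
      (by linarith [hk1 hk0] : 0 < 1 - u) hy1 (by linarith : 0 ≤ 1 + u) hy2 rfl rfl hPk' hPa hw1 hw2
      hQa2 rfl hd1 (by
        have e1 : σ ^ 2 * τ * -(th - m) = -(σ ^ 2 * τ * (th - m)) := by ring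
        rw [e1]; exact m1) hpa
    exact ⟨e, -(th - m), he0, Or.inl ⟨he, rfl⟩, h⟩
  · obtain ⟨e, he0, he, h⟩ := enV (m := m) (q := q) (s := th - m) (z := z) (c := σ ^ 2 * τ) hσ hτ0
      (by linarith [hk2 hka] : 0 < 1 + u) hy2 (by linarith : 0 ≤ 1 - u) hy1 rfl rfl hPa hPk' hw2 hw1
      hQ1 rfl hd2 m2 hpk
    exact ⟨e, th - m, he0, Or.inr ⟨he, rfl⟩, by linarith⟩

/-! ## the reduction -/

/-- the value of the integrand at a state, without the energies -/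
lemma CC_idV {σ τ u w th P R V n L1 km nu E1 E2 E3 E4 : ℝ} (hσ : 0 < σ) (hτ0 : 0 < τ) (hτ1 : τ < 1)
    (hu2 : u ≤ 1) (hw2 : w ≤ 1) :
    CC (σ * (1 - τ)) (σ * (1 + τ)) (E1 + E2) (E3 + E4) (2 * τ * th * σ ^ 2) (σ ^ 2 * (V - τ * th))
      (σ * ((4 * V - 2) + τ * (L1 + km)))
      ((Th (σ * (1 + τ)) (σ ^ 2 * (V + τ * th)) - Th (σ * (1 - τ)) (σ ^ 2 * (V - τ * th)) -
        σ * (4 * V - 2) * (2 * τ * th * σ ^ 2)) / (2 * σ * τ) -
        σ ^ 2 * τ * (th * L1 + n * km + nu)) 0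
      (σ * (1 - τ * u)) E1 (σ ^ 2 * τ * ((1 - u) * th + (1 - u ^ 2) * P))
      (σ * (1 - τ * w)) E3 (σ ^ 2 * τ * ((1 - w) * th + (1 - w ^ 2) * R)) =
    1 / 2 * σ * τ * ((2 + (u - w)) * E1 + (2 - (u - w)) * E2) +
      1 / 2 * σ * τ * ((2 - (u - w)) * E3 + (2 + (u - w)) * E4) +
      4 * τ ^ 2 * σ ^ 3 *
        (((1 - u ^ 2) / (2 * (1 - τ ^ 2) * (1 - τ * u)) * (V - th) ^ 2 -
          (V - th) * u * (1 - u ^ 2) * P / (1 - τ * u) - (1 - u ^ 2) ^ 2 * P ^ 2 / (2 * (1 - τ * u)) +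
          (1 - u ^ 2) / 8 - τ * u * (1 - u ^ 2) / 24 - th * (1 - u ^ 2) / 2 -
          u * (1 - u ^ 2) * P / 2) +
        ((1 - w ^ 2) / (2 * (1 - τ ^ 2) * (1 - τ * w)) * (V - th) ^ 2 -
          (V - th) * w * (1 - w ^ 2) * R / (1 - τ * w) - (1 - w ^ 2) ^ 2 * R ^ 2 / (2 * (1 - τ * w)) +
          (1 - w ^ 2) / 8 - τ * w * (1 - w ^ 2) / 24 - th * (1 - w ^ 2) / 2 -
          w * (1 - w ^ 2) * R / 2) +
        1 / 4 * (L1 * ((1 - u ^ 2) * P + (1 - w ^ 2) * R) +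
          km * ((1 - u ^ 2) * P + (1 - w ^ 2) * R - (u + w) * (th - n)) + nu * (u + w))) := by
  have hu := half (t := th) (P := P) (V := V) hσ hτ0 hτ1 hu2
  have hw := half (t := th) (P := R) (V := V) hσ hτ0 hτ1 hw2
  have e1 : σ ^ 2 * (V - τ * th) + σ ^ 2 * τ * ((1 - u) * th + (1 - u ^ 2) * P) =
      σ ^ 2 * (V + τ * ((1 - u ^ 2) * P - u * th)) := by ring
  have e2 : σ ^ 2 * (V - τ * th) + σ ^ 2 * τ * ((1 - w) * th + (1 - w ^ 2) * R) =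
      σ ^ 2 * (V + τ * ((1 - w ^ 2) * R - w * th)) := by ring
  have e3 : σ ^ 2 * (V - τ * th) + 2 * τ * th * σ ^ 2 = σ ^ 2 * (V + τ * th) := by ring
  unfold CC
  rw [e1, e2, e3]
  have e4 : ((Th (σ * (1 + τ)) (σ ^ 2 * (V + τ * th)) - Th (σ * (1 - τ)) (σ ^ 2 * (V - τ * th)) -
        σ * (4 * V - 2) * (2 * τ * th * σ ^ 2)) / (2 * σ * τ) -
        σ ^ 2 * τ * (th * L1 + n * km + nu)) *
      (σ * (1 - τ * u) + σ * (1 - τ * w) - σ * (1 - τ) - σ * (1 + τ)) =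
      -(u + w) / 2 * (Th (σ * (1 + τ)) (σ ^ 2 * (V + τ * th)) -
        Th (σ * (1 - τ)) (σ ^ 2 * (V - τ * th)) - σ * (4 * V - 2) * (2 * τ * th * σ ^ 2)) +
      σ * τ * (u + w) * (σ ^ 2 * τ * (th * L1 + n * km + nu)) := by
    field_simp
    ring
  rw [e4]
  generalize Th (σ * (1 - τ * u)) (σ ^ 2 * (V + τ * ((1 - u ^ 2) * P - u * th))) = T1 at *
  generalize Th (σ * (1 - τ * w)) (σ ^ 2 * (V + τ * ((1 - w ^ 2) * R - w * th))) = T2 at *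
  generalize Th (σ * (1 + τ)) (σ ^ 2 * (V + τ * th)) = T3 at *
  generalize Th (σ * (1 - τ)) (σ ^ 2 * (V - τ * th)) = T4 at *
  linear_combination hu + hw

/-- **the reduction of the one-dimensional statement to `PWV`** (line P-a, `V` in the multiplier):
`h = (T-B)/(T+B)`, `t = 2 Pi/(T²-B²)`, `V = (2 ka + Pi)/2 · (2/(B+T))²`. -/
theorem one_of_PWV {B T L : ℝ} {a b : ℕ} {y t z s : ℕ → ℝ} (hB : 0 < B) (hBT : B < T)
    (hy : ChG B T a y) (hz : ChG B T b z) (ht1 : ∀ i, L ≤ t i) (ht2 : ∀ i, t i ≤ 2 / 3)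
    (hs1 : ∀ i, L ≤ s i) (hs2 : ∀ i, s i ≤ 2 / 3) (hPI : PI y t a = PI z s b) (ka : ℝ)
    {m n kap L1 nu : ℝ}
    (hPW : PWV L ((T - B) / (T + B)) (2 * PI y t a / (T ^ 2 - B ^ 2))
      ((4 * ka + 2 * PI y t a) / (T + B) ^ 2) m n kap L1 nu) :
    ∃ lam mu om : ℝ, ∀ i, i ≤ a → ∀ j, j ≤ b →
      0 ≤ CC B T (QI y t a) (QI z s b) (PI y t a) ka lam mu om (y i) (QI y t i) (PI y t i)
        (z j) (QI z s j) (PI z s j) := by
  obtain ⟨σ, hσe⟩ : ∃ σ, σ = (B + T) / 2 := ⟨_, rfl⟩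
  obtain ⟨τ, hτe⟩ : ∃ τ, τ = (T - B) / (T + B) := ⟨_, rfl⟩
  obtain ⟨th, hthe⟩ : ∃ th, th = 2 * PI y t a / (T ^ 2 - B ^ 2) := ⟨_, rfl⟩
  obtain ⟨V, hVe⟩ : ∃ V, V = (4 * ka + 2 * PI y t a) / (T + B) ^ 2 := ⟨_, rfl⟩
  rw [← hτe, ← hthe, ← hVe] at hPW
  have hTB : 0 < T + B := by linarith
  have hσ : 0 < σ := by rw [hσe]; linarith
  have hτ0 : 0 < τ := by rw [hτe]; exact div_pos (by linarith) hTB
  have hτ1 : τ < 1 := by rw [hτe, div_lt_one hTB]; linarith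
  have hBe : B = σ * (1 - τ) := by rw [hσe, hτe]; field_simp; ring
  have hTe : T = σ * (1 + τ) := by rw [hσe, hτe]; field_simp; ring
  have hPe : PI y t a = 2 * τ * th * σ ^ 2 := by
    have h1 : T ^ 2 - B ^ 2 = 4 * τ * σ ^ 2 := by rw [hBe, hTe]; ring
    rw [hthe, h1]; field_simp; ring
  have hV : ka = σ ^ 2 * (V - τ * th) := by
    have h1 : T + B = 2 * σ := by rw [hσe]; ring
    rw [hVe, h1, hPe]; field_simp; ring
  have hPe' : PI z s b = 2 * τ * th * σ ^ 2 := by rw [← hPI, hPe]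
  clear hσe hτe hthe hVe
  subst hBe hTe
  have hc0 : 0 < σ ^ 2 * τ := by positivity
  -- extremes
  obtain ⟨mn1, mx1, hr1, hv1⟩ := exists_ext hy hB (fun i => t i - m) (-(σ ^ 2 * τ * (th - m)))
  obtain ⟨mn2, mx2, hr2, hv2⟩ := exists_ext hz hB (fun i => s i - m) (-(σ ^ 2 * τ * (th - m)))
  have hend : ∀ {c : ℕ} {x r : ℕ → ℝ}, ChG (σ * (1 - τ)) (σ * (1 + τ)) c x →
      PI x r c = 2 * τ * th * σ ^ 2 → ∀ mn mx : ℝ,
      (∀ k, k ≤ c → mn ≤ -(σ ^ 2 * τ * (th - m)) + PI x (fun i => r i - m) k ∧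
        -(σ ^ 2 * τ * (th - m)) + PI x (fun i => r i - m) k ≤ mx) →
      mn ≤ σ ^ 2 * τ * (-(th - m)) ∧ σ ^ 2 * τ * (-(th - m)) ≤ mx ∧
      mn ≤ σ ^ 2 * τ * (th - m) ∧ σ ^ 2 * τ * (th - m) ≤ mx := by
    intro c x r hx hP mn mx h
    have h0 := h 0 (Nat.zero_le c)
    have h1 := h c le_rfl
    have e0 : PI x (fun i => r i - m) 0 = 0 := by simp [PI]
    have e1 : -(σ ^ 2 * τ * (th - m)) + PI x (fun i => r i - m) c = σ ^ 2 * τ * (th - m) := by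
      rw [PI_dev, hx.y0, hx.ya, hP]; ring
    rw [e0, add_zero] at h0
    rw [e1] at h1
    refine ⟨by linarith [h0.1], by linarith [h0.2], h1.1, h1.2⟩
  obtain ⟨a1, a2, a3, a4⟩ := hend hy hPe mn1 mx1 hr1
  obtain ⟨b1, b2, b3, b4⟩ := hend hz hPe' mn2 mx2 hr2
  -- normalised extremes
  obtain ⟨n1, hn1⟩ : ∃ x, σ ^ 2 * τ * x = mn1 := ⟨mn1 / (σ ^ 2 * τ), by field_simp⟩
  obtain ⟨x1, hx1⟩ : ∃ x, σ ^ 2 * τ * x = mx1 := ⟨mx1 / (σ ^ 2 * τ), by field_simp⟩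
  obtain ⟨n2, hn2⟩ : ∃ x, σ ^ 2 * τ * x = mn2 := ⟨mn2 / (σ ^ 2 * τ), by field_simp⟩
  obtain ⟨x2, hx2⟩ : ∃ x, σ ^ 2 * τ * x = mx2 := ⟨mx2 / (σ ^ 2 * τ), by field_simp⟩
  rw [← hn1] at a1 a3
  rw [← hx1] at a2 a4
  rw [← hn2] at b1 b3
  rw [← hx2] at b2 b4
  have a1' := le_of_mul_le_mul_left a1 hc0
  have a2' := le_of_mul_le_mul_left a2 hc0
  have a3' := le_of_mul_le_mul_left a3 hc0
  have a4' := le_of_mul_le_mul_left a4 hc0
  have b1' := le_of_mul_le_mul_left b1 hc0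
  have b2' := le_of_mul_le_mul_left b2 hc0
  have b3' := le_of_mul_le_mul_left b3 hc0
  have b4' := le_of_mul_le_mul_left b4 hc0
  clear a1 a2 a3 a4 b1 b2 b3 b4 hend
  refine ⟨σ * ((4 * V - 2) + τ * (L1 + kap * (n1 + x1 + n2 + x2))),
    (Th (σ * (1 + τ)) (σ ^ 2 * (V + τ * th)) - Th (σ * (1 - τ)) (σ ^ 2 * (V - τ * th)) -
        σ * (4 * V - 2) * (2 * τ * th * σ ^ 2)) / (2 * σ * τ) -
        σ ^ 2 * τ * (th * L1 + n * (kap * (n1 + x1 + n2 + x2)) + nu), 0, fun i hi j hj => ?_⟩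
  obtain ⟨u, P, qR, hu1, hu2, hyi, hPi, hBx1, hqR, hqR1, hqR2, hen1⟩ :=
    chain_stateV hσ hτ0 hτ1 hy ht1 ht2 hPe hi (hr1 i hi) (hv1 i hi)
  obtain ⟨w, R, qL, hw1, hw2, hzj, hPj, hBx2, hqL, hqL1, hqL2, hen2⟩ :=
    chain_stateV hσ hτ0 hτ1 hz hs1 hs2 hPe' hj (hr2 j hj) (hv2 j hj)
  rw [← hn1] at hqR1
  rw [← hx1] at hqR2
  rw [← hn2] at hqL1
  rw [← hx2] at hqL2
  have hqR1' := le_of_mul_le_mul_left hqR1 hc0
  have hqR2' := le_of_mul_le_mul_left hqR2 hc0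
  have hqL1' := le_of_mul_le_mul_left hqL1 hc0
  have hqL2' := le_of_mul_le_mul_left hqL2 hc0
  have hFV := FV_eq (t := th) (P := P) (R := R) (V := V) hτ0 hτ1 hu2 hw2
  have hid := CC_idV (E1 := QI y t i) (E2 := QI y t a - QI y t i) (E3 := QI z s j)
    (E4 := QI z s b - QI z s j) (th := th) (P := P) (R := R) (V := V) (n := n)
    (L1 := L1) (km := kap * (n1 + x1 + n2 + x2)) (nu := nu) hσ hτ0 hτ1 hu2 hw2
  rw [add_sub_cancel, add_sub_cancel] at hid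
  rw [hyi, hzj, hPi, hPj, hPe, hV, hid]
  clear hid hv1 hv2 hr1 hr2 hyi hzj hPi hPj hPe hPe' hV hqR1 hqR2 hqL1 hqL2
  have h4 : 0 < 4 * τ ^ 2 * σ ^ 3 := by positivity
  rcases le_total 0 ((1 - u ^ 2) * P + (1 - w ^ 2) * R - (u + w) * (th - n)) with hs | hs
  · obtain ⟨eR, sR, heR0, heR, hE1⟩ := hen1 n1 (Or.inl hn1) (2 + (u - w)) (2 - (u - w))
      (by linarith) (by linarith)
    obtain ⟨eL, sL, heL0, heL, hE2⟩ := hen2 n2 (Or.inl hn2) (2 - (u - w)) (2 + (u - w))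
      (by linarith) (by linarith)
    have hmain := hPW u w P R qR qL _ sR n1 x1 eR sL n2 x2 eL hu1 hu2 hw1 hw2 hBx1 hBx2 hqR hqL rfl
      heR0 heL0 heR heL (Or.inl ⟨hs, hqR1', a3', a1', hqR2', a4', a2', hqL1', b3', b1', hqL2',
        b4', b2'⟩)
    have h7 := mul_nonneg h4.le hmain
    rw [hFV] at h7
    clear hen1 hen2 hPW hFV hBx1 hBx2 heR heL hmain
    linarith
  · obtain ⟨eR, sR, heR0, heR, hE1⟩ := hen1 x1 (Or.inr hx1) (2 + (u - w)) (2 - (u - w))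
      (by linarith) (by linarith)
    obtain ⟨eL, sL, heL0, heL, hE2⟩ := hen2 x2 (Or.inr hx2) (2 - (u - w)) (2 + (u - w))
      (by linarith) (by linarith)
    have hmain := hPW u w P R qR qL _ sR x1 n1 eR sL x2 n2 eL hu1 hu2 hw1 hw2 hBx1 hBx2 hqR hqL rfl
      heR0 heL0 heR heL (Or.inr ⟨hs, hqR2', a4', a2', hqR1', a3', a1', hqL2', b4', b2', hqL1',
        b3', b1'⟩)
    have h7 := mul_nonneg h4.le hmain
    rw [hFV] at h7
    clear hen1 hen2 hPW hFV hBx1 hBx2 heR heL hmain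
    linarith

/-- **`Stmt_ONE L R` from `PWV`** for all `h`, `t`, `V` (with the V-box) -/
theorem ONE_of_PWV {L R : ℝ}
    (hPW : ∀ h t V : ℝ, 0 < h → h < 1 → R * (1 + h) ≤ 1 - h → L ≤ t → t ≤ 2 / 3 →
      L * (1 - h) ^ 2 ≤ V - h * t → V - h * t ≤ 2 / 3 * (1 - h) → L * (1 + h) ≤ V + h * t →
      V + h * t ≤ 2 / 3 * (1 + h) ^ 2 → ∃ m n kap L1 nu : ℝ, PWV L h t V m n kap L1 nu) :
    Stmt_ONE L R := by
  intro B T a b y t z s hB hBT hR hy hz ht1 ht2 hs1 hs2 hPI ka k1 k2 k3 k4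
  have hTB : 0 < T + B := by linarith
  have hT2 : 0 < T ^ 2 - B ^ 2 := by nlinarith
  have hb := PI_box hy hB ht1 ht2 (Nat.zero_le a) le_rfl
  have hP0 : PI y t 0 = 0 := by simp [PI]
  rw [hP0, hy.y0, hy.ya, sub_zero] at hb
  obtain ⟨h, hh⟩ : ∃ h, h = (T - B) / (T + B) := ⟨_, rfl⟩
  obtain ⟨th, hth⟩ : ∃ th, th = 2 * PI y t a / (T ^ 2 - B ^ 2) := ⟨_, rfl⟩
  obtain ⟨V, hV⟩ : ∃ V, V = (4 * ka + 2 * PI y t a) / (T + B) ^ 2 := ⟨_, rfl⟩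
  obtain ⟨σ, hσe⟩ : ∃ σ, σ = (T + B) / 2 := ⟨_, rfl⟩
  have hσ : 0 < σ := by rw [hσe]; linarith
  have hBe : B = σ * (1 - h) := by rw [hσe, hh]; field_simp; ring
  have hTe : T = σ * (1 + h) := by rw [hσe, hh]; field_simp; ring
  have hPe : PI y t a = 2 * h * th * σ ^ 2 := by
    rw [hth, hh, hσe]
    have : T ^ 2 - B ^ 2 = (T - B) * (T + B) := by ring
    have h3 : T - B ≠ 0 := by linarith
    rw [this]; field_simp
  have hke : ka = σ ^ 2 * (V - h * th) := by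
    have h1 : T + B = 2 * σ := by rw [hσe]; ring
    have h2 : V = (4 * ka + 2 * PI y t a) / (2 * σ) ^ 2 := by rw [hV, h1]
    rw [h2, hPe]; field_simp; ring
  have hh0 : 0 < h := by rw [hh]; exact div_pos (by linarith) hTB
  have hh1 : h < 1 := by rw [hh, div_lt_one hTB]; linarith
  have hsq : 0 < σ ^ 2 := by positivity
  rw [hPe] at hb k3 k4
  rw [hke] at k1 k2 k3 k4
  rw [hBe, hTe] at hb k2 k3
  rw [hBe] at k1
  rw [hTe] at k4
  have hcf : 0 < 2 * h * σ ^ 2 := by positivity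
  obtain ⟨m, n, kap, L1, nu, hP⟩ := hPW h th V hh0 hh1
    (by
      rw [hBe, hTe] at hR
      refine le_of_mul_le_mul_left ?_ hσ
      linarith)
    (by
      refine le_of_mul_le_mul_left (a := 2 * h * σ ^ 2) ?_ hcf
      linarith [hb.1])
    (by
      refine le_of_mul_le_mul_left (a := 2 * h * σ ^ 2) ?_ hcf
      linarith [hb.2])
    (by
      refine le_of_mul_le_mul_left ?_ hsq
      linarith [k1])
    (by
      refine le_of_mul_le_mul_left ?_ hsq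
      linarith [k2])
    (by
      refine le_of_mul_le_mul_left ?_ hsq
      linarith [k3])
    (by
      refine le_of_mul_le_mul_left ?_ hsq
      linarith [k4])
  refine one_of_PWV hB hBT hy hz ht1 ht2 hs1 hs2 hPI ka
    (m := m) (n := n) (kap := kap) (L1 := L1) (nu := nu) ?_
  rw [← hh, ← hth, ← hV]
  exact hP

end Pool.G1.Gap
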