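import Pool.Agent.Work.MP_b5407d_g1.Pl_SBc

/-!
# G1, balanced case, small chain mean `β ≤ 1/8`: the single-chain inequality
-/

set_option autoImplicit false

namespace Pool.G1.SB

/-- left side of the single-chain inequality.
`En` = energy part, `D` = (flux above mid height) - (flux below), `w` : `p = (1 - a²) w / 2`. -/
noncomputable def PhiC (t a b β En D w : ℝ) : ℝ :=
  En + β / 20 * (a + b) * D + t / 12 * (a + b) * β ^ 2 + (1 - a ^ 2) * (1 - 4 * β) / 8 -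
    t * a * (1 - a ^ 2) / 24 - (a + t / 3 * (1 + 2 * β)) * (1 - a ^ 2) * w / 2 -
    (1 + t * a) * (1 - a ^ 2) * w ^ 2 / 2

/-- single-chain inequality, state in the lower half (`0 ≤ a`) -/
lemma chain1 (t a b β g1 g2 g3 e1 e2 e3 w : ℝ) (a0 : 0 ≤ a) (a1 : a ≤ 1) (t0 : -1 ≤ t) (t1 : t ≤ 1)
    (b0 : -1 ≤ b) (b1 : b ≤ 1) (β1 : β ≤ 1 / 8) (p1 : 0 ≤ g1) (q1 : g1 ≤ 2 / 3) (p2 : 0 ≤ g2)
    (p3 : 0 ≤ g3) (f1 : g1 ^ 2 ≤ e1) (f2 : g2 ^ 2 ≤ e2) (f3 : g3 ^ 2 ≤ e3)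
    (hfl : (1 - a) * (1 - t * (1 + a) / 2) * g1 + a * (1 - t * a / 2) * g2 + (1 + t / 2) * g3 =
      2 * β) (hw : (1 + a) * w = (1 - t * (1 + a) / 2) * g1 - β) :
    0 ≤ PhiC t a b β
      ((1 - a) * (1 - t * (1 + a) / 2) * ((1 + a) / 4) * e1 +
        a * (1 - t * a / 2) * ((1 + b) / 4) * e2 + (1 + t / 2) * ((1 - a) / 4) * e3)
      ((1 + t / 2) * g3 - a * (1 - t * a / 2) * g2 - (1 - a) * (1 - t * (1 + a) / 2) * g1) w := by
  obtain ⟨y, hy⟩ : ∃ y, y = 1 - t * (1 + a) / 2 := ⟨_, rfl⟩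
  obtain ⟨N2, hN2⟩ : ∃ N2, N2 = a * (1 - t * a / 2) := ⟨_, rfl⟩
  obtain ⟨N3, hN3⟩ : ∃ N3, N3 = 1 + t / 2 := ⟨_, rfl⟩
  have y0 : 0 ≤ y := by rw [hy]; nlinarith
  have N20 : 0 ≤ N2 := by rw [hN2]; exact mul_nonneg a0 (by nlinarith)
  have N30 : 0 ≤ N3 := by rw [hN3]; linarith
  have ra : 0 ≤ 1 - a := by linarith
  have s1 : 0 ≤ (1 - a) * y * g1 := by positivity
  have s2 : 0 ≤ N2 * g2 := by positivity
  have s3 : 0 ≤ N3 * g3 := by positivity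
  rw [← hy, ← hN2, ← hN3] at hfl
  rw [← hy] at hw
  have β0 : 0 ≤ β := by linarith
  have hR := pR a t β g1 a0 a1 t0 t1 β0 β1 p1 q1
  have hS := pS a t β g1 a0 a1 t0 t1 β0 β1 p1 q1
  rw [← hy] at hR hS
  rw [← hN2, ← hN3, ← hy]
  have hpos : 0 < 1 + a := by linarith
  -- the slack of the flux
  have sl : 0 ≤ 2 * β - (1 - a) * y * g1 := by linarith
  have slr : 0 ≤ 9 / 200 * (1 - a) * (2 * β - (1 - a) * y * g1) * (1 + a) := by positivity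
  -- energies
  have E1 : 0 ≤ (1 - a) * y * (1 + a) * (e1 - g1 ^ 2) :=
    mul_nonneg (by positivity) (by linarith)
  have E3 : 0 ≤ (1 - a) * (N3 * (e3 - g3 ^ 2)) :=
    mul_nonneg ra (mul_nonneg N30 (by linarith))
  have E3' : 0 ≤ (1 - a) * (N3 * e3) := by
    have : 0 ≤ e3 := (sq_nonneg g3).trans f3
    positivity
  have E2 : 0 ≤ N2 * (e2 - g2 ^ 2) := mul_nonneg N20 (by linarith)
  -- (1 + a) Phi at b = -1 and b = 1
  have hm : 0 ≤ (1 + a) * PhiC t a (-1) β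
      ((1 - a) * y * ((1 + a) / 4) * e1 + N2 * ((1 + -1) / 4) * e2 + N3 * ((1 - a) / 4) * e3)
      (N3 * g3 - N2 * g2 - (1 - a) * y * g1) w := by
    have sq : 0 ≤ (1 - a) * (N3 * (g3 - β / 5) ^ 2) := by positivity
    have key : (1 + a) * PhiC t a (-1) β
        ((1 - a) * y * ((1 + a) / 4) * e1 + N2 * ((1 + -1) / 4) * e2 + N3 * ((1 - a) / 4) * e3)
        (N3 * g3 - N2 * g2 - (1 - a) * y * g1) w =
        (1 - a) * ((1 + a) ^ 2 * y * g1 ^ 2 / 4 +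
          (1 + a) * β ^ 2 * (1 / 10 - 1 / 100 * (1 + t / 2) - t / 12) +
          (1 + a) ^ 2 * (1 - 4 * β) / 8 - t * a * (1 + a) ^ 2 / 24 -
          (1 + a) * (a + t / 3 * (1 + 2 * β)) * (y * g1 - β) / 2 -
          (1 + t * a) * (y * g1 - β) ^ 2 / 2 -
          9 / 200 * (1 - a) * (2 * β - (1 - a) * y * g1) * (1 + a)) +
        (1 - a) * (9 / 200 * (1 - a) * (2 * β - (1 - a) * y * g1) * (1 + a)) +
        (1 + a) / 4 * ((1 - a) * y * (1 + a) * (e1 - g1 ^ 2)) +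
        (1 + a) / 4 * ((1 - a) * (N3 * (e3 - g3 ^ 2))) +
        (1 + a) / 4 * ((1 - a) * (N3 * (g3 - β / 5) ^ 2)) := by
      unfold PhiC
      rw [← hw]
      have h2 : N2 * g2 = 2 * β - (1 - a) * y * g1 - N3 * g3 := by linarith
      rw [h2, hN3]
      ring
    rw [key]
    have := mul_nonneg ra hR
    positivity
  have hp : 0 ≤ (1 + a) * PhiC t a 1 β
      ((1 - a) * y * ((1 + a) / 4) * e1 + N2 * ((1 + 1) / 4) * e2 + N3 * ((1 - a) / 4) * e3)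
      (N3 * g3 - N2 * g2 - (1 - a) * y * g1) w := by
    have sq : 0 ≤ N2 * (g2 - β * (1 + a) / 10) ^ 2 := by positivity
    have key : (1 + a) * PhiC t a 1 β
        ((1 - a) * y * ((1 + a) / 4) * e1 + N2 * ((1 + 1) / 4) * e2 + N3 * ((1 - a) / 4) * e3)
        (N3 * g3 - N2 * g2 - (1 - a) * y * g1) w =
        ((1 - a) * ((1 + a) ^ 2 * y * g1 ^ 2 / 4 + (1 + a) ^ 2 * (1 - 4 * β) / 8 -
          t * a * (1 + a) ^ 2 / 24 - (1 + a) * (a + t / 3 * (1 + 2 * β)) * (y * g1 - β) / 2 -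
          (1 + t * a) * (y * g1 - β) ^ 2 / 2 - 1 / 10 * (1 + a) ^ 2 * β * y * g1) +
          β ^ 2 * ((1 + a) * (1 / 10 * (1 + a) - 1 / 200 * (1 + a) ^ 2 * (a * (1 - t * a / 2)) +
            t * (1 + a) / 12)) -
          9 / 200 * (1 - a) * (2 * β - (1 - a) * y * g1) * (1 + a)) +
        9 / 200 * (1 - a) * (2 * β - (1 - a) * y * g1) * (1 + a) +
        (1 + a) / 4 * ((1 - a) * y * (1 + a) * (e1 - g1 ^ 2)) +
        (1 + a) / 4 * ((1 - a) * (N3 * e3)) +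
        (1 + a) / 2 * (N2 * (e2 - g2 ^ 2)) +
        (1 + a) / 2 * (N2 * (g2 - β * (1 + a) / 10) ^ 2) := by
      unfold PhiC
      rw [← hw]
      have h3 : N3 * g3 = 2 * β - (1 - a) * y * g1 - N2 * g2 := by linarith
      rw [h3]
      rw [← hN2]
      ring
    rw [key]
    positivity
  have hm' : 0 ≤ PhiC t a (-1) β
      ((1 - a) * y * ((1 + a) / 4) * e1 + N2 * ((1 + -1) / 4) * e2 + N3 * ((1 - a) / 4) * e3)
      (N3 * g3 - N2 * g2 - (1 - a) * y * g1) w := nonneg_of_mul_nonneg_right hm hpos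
  have hp' : 0 ≤ PhiC t a 1 β
      ((1 - a) * y * ((1 + a) / 4) * e1 + N2 * ((1 + 1) / 4) * e2 + N3 * ((1 - a) / 4) * e3)
      (N3 * g3 - N2 * g2 - (1 - a) * y * g1) w := nonneg_of_mul_nonneg_right hp hpos
  have c1 : 0 ≤ (1 - b) / 2 := by linarith
  have c2 : 0 ≤ (1 + b) / 2 := by linarith
  have key := add_nonneg (mul_nonneg c1 hm') (mul_nonneg c2 hp')
  refine key.trans_eq ?_
  unfold PhiC
  ring

end Pool.G1.SB
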