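import Pool.Agent.Work.MP_b5407d_g1.Pl_FIN6
import Pool.Agent.Work.MP_b5407d_g1.Pl_SB

/-!
# G1, balanced case: the finite-dimensional inequality for small chain mean (`Pi ≤ (1/8) 2τ`)

Multipliers: `om = 0`, `lam`, `mu` explicit in `τ, Pi, ka, FR, FL, Es` (half energy).
The form decouples into two single-chain inequalities (`chain1`).
-/

set_option autoImplicit false

namespace Pool.G1.SB

open Pool.G1.Gap

lemma arcSq {L g h e f : ℝ} (A : ArcN L g h e f) : g ^ 2 ≤ e := by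
  have := A.en 1 1 g 0 one_pos one_pos
  nlinarith

/-- one chain -/
lemma chn_pos {τ a b Pi F M E0 E1 Es p q β : ℝ} (t0 : 0 < τ) (t1 : τ < 1) (a0 : -1 ≤ a)
    (a1 : a ≤ 1) (b0 : -1 ≤ b) (b1 : b ≤ 1) (hβ : Pi = 2 * τ * β) (β1 : β ≤ 1 / 8)
    (h : Chn 0 τ a Pi F M E0 E1 Es p q) :
    ∃ w, p = τ * (1 - a) * β + τ * (1 - a ^ 2) * w ∧
      0 ≤ PhiC τ a b β (((2 + a - b) * q + (2 - a + b) * (E0 - q) - (a + b) * Es) / (8 * τ))
        ((Pi - 2 * F) / τ) w := by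
  have hτ := t0.ne'
  rcases h with ⟨ha, g1, h1, e1, f1, g3, h3, e3, f3, g4, h4, e4, f4, A1, A3, A4, hp, hq, hF, hPi,
    hE0, hEs, -, -⟩ | ⟨ha, g1, h1, e1, f1, g2, h2, e2, f2, g4, h4, e4, f4, A1, A2, A4, hp, hq, hF,
    hPi, hE0, hEs, -, -⟩
  · obtain ⟨w, hw⟩ : ∃ w, w = ((1 - τ * (1 + a) / 2) * g1 - β) / (1 + a) := ⟨_, rfl⟩
    have hpos : 0 < 1 + a := by linarith
    have hw' : (1 + a) * w = (1 - τ * (1 + a) / 2) * g1 - β := by
      rw [hw]; field_simp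
    have hfl : (1 - a) * (1 - τ * (1 + a) / 2) * g1 + a * (1 - τ * a / 2) * g3 +
        (1 + τ / 2) * g4 = 2 * β := by
      have : τ * ((1 - a) * (1 - τ * (1 + a) / 2) * g1 + a * (1 - τ * a / 2) * g3 +
        (1 + τ / 2) * g4) = τ * (2 * β) := by
        unfold dl dm du at hPi
        linear_combination hβ - hPi
      exact mul_left_cancel₀ hτ this
    have hc := chain1 τ a b β g1 g3 g4 e1 e3 e4 w ha a1 (by linarith) t1.le b0 b1 β1 A1.lo A1.hi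
      A3.lo A4.lo (arcSq A1) (arcSq A3) (arcSq A4) hfl hw'
    refine ⟨w, ?_, hc.trans_eq ?_⟩
    · rw [hp]; unfold dl
      linear_combination (-(τ * (1 - a))) * hw'
    · rw [hq, hE0, hEs, hF, hPi]
      unfold dl dm du PhiC
      field_simp
      ring
  · obtain ⟨w, hw⟩ : ∃ w, w = ((1 - (-τ) * (1 + -a) / 2) * g4 - β) / (1 + -a) := ⟨_, rfl⟩
    have hpos : 0 < 1 + -a := by linarith
    have hw' : (1 + -a) * w = (1 - (-τ) * (1 + -a) / 2) * g4 - β := by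
      rw [hw]; field_simp
    have hfl : (1 - -a) * (1 - -τ * (1 + -a) / 2) * g4 + -a * (1 - -τ * -a / 2) * g2 +
        (1 + -τ / 2) * g1 = 2 * β := by
      have : τ * ((1 - -a) * (1 - -τ * (1 + -a) / 2) * g4 + -a * (1 - -τ * -a / 2) * g2 +
        (1 + -τ / 2) * g1) = τ * (2 * β) := by
        unfold dl dm du at hPi
        linear_combination hβ - hPi
      exact mul_left_cancel₀ hτ this
    have hc := chain1 (-τ) (-a) (-b) β g4 g2 g1 e4 e2 e1 w (by linarith) (by linarith)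
      (by linarith) (by linarith) (by linarith) (by linarith) β1 A4.lo A4.hi
      A2.lo A1.lo (arcSq A4) (arcSq A2) (arcSq A1) hfl hw'
    refine ⟨-w, ?_, hc.trans_eq ?_⟩
    · have h2 : p = Pi - du τ a * g4 := by rw [hp, hPi]; ring
      rw [h2, hβ]; unfold du
      linear_combination (τ * (1 + a)) * hw'
    · rw [hq, hE0, hEs, hF, hPi]
      unfold dl dm du PhiC
      field_simp
      ring

/-- the identity: `CC` as a sum of the two single-chain forms and two squares -/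
lemma CC_eq {τ a b β ka K w w' QR QL qa qb Es FR FL : ℝ} (t0 : 0 < τ) (t1 : τ < 1)
    (a1 : a ≤ 1) (b1 : b ≤ 1) (hK : K = ka + τ * β - β) :
    CC (1 - τ) (1 + τ) QR QL (2 * τ * β) ka
      (4 * (K + β) - 2 - 2 * τ ^ 2 / 3 * (1 + 2 * β))
      (2 * (K + β) ^ 2 - 4 * (K + β) * K - 4 * (K + β) + 2 * K + 1 / 2 -
        (4 * (K + β) - 2 - 2 * τ ^ 2 / 3 * (1 + 2 * β)) * β - 2 / 3 * τ ^ 2 * β ^ 2 -
        2 * τ ^ 2 * K ^ 2 / (1 - τ ^ 2) + τ ^ 2 / 6 + Es / 2 -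
        2 / 5 * β * (2 * τ * β - FR - FL)) 0
      (1 - τ * a) qa (τ * (1 - a) * β + τ * (1 - a ^ 2) * w)
      (1 - τ * b) qb (τ * (1 - b) * β + τ * (1 - b ^ 2) * w') =
    4 * τ ^ 2 * (PhiC τ a b β
        (((2 + a - b) * qa + (2 - a + b) * (QR - qa)) / (8 * τ) -
          (a + b) * Es / (16 * τ)) ((2 * τ * β - 2 * FR) / τ) w +
      PhiC τ b a β
        (((2 + b - a) * qb + (2 - b + a) * (QL - qb)) / (8 * τ) -
          (a + b) * Es / (16 * τ)) ((2 * τ * β - 2 * FL) / τ) w') +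
    4 * τ ^ 2 * ((1 - a ^ 2) * (K - a * (1 - τ ^ 2) * w) ^ 2 /
        (2 * (1 - τ * a) * (1 - τ ^ 2)) +
      (1 - b ^ 2) * (K - b * (1 - τ ^ 2) * w') ^ 2 / (2 * (1 - τ * b) * (1 - τ ^ 2))) := by
  have h1 : 0 < 1 - τ * a := by nlinarith
  have h2 : 0 < 1 - τ * b := by nlinarith
  have h3 : 0 < 1 - τ := by linarith
  have h4 : 0 < 1 + τ := by linarith
  have e5 : 1 - τ ^ 2 = (1 - τ) * (1 + τ) := by ring
  have n1 := h1.ne'
  have n2 := h2.ne'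
  have n3 := h3.ne'
  have n4 := h4.ne'
  have hτ := t0.ne'
  have hka : ka = K + β - τ * β := by rw [hK]; ring
  rw [hka, e5]
  unfold CC Th PhiC
  field_simp
  ring

/-- **the finite-dimensional inequality for `Pi ≤ (1/8) 2τ`** (no condition on `ka`) -/
theorem fin6_small : ∀ τ : ℝ, 0 < τ → τ < 1 → ∀ Pi ka FR FL M E0 E1 Es : ℝ,
    Pi ≤ 1 / 8 * (2 * τ) → ∃ lam mu om : ℝ,
    ∀ a b : ℝ, -1 ≤ a → a ≤ 1 → -1 ≤ b → b ≤ 1 →
    ∀ MR E0R E1R EsR p q ML E0L E1L EsL p' q' : ℝ,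
    Chn 0 τ a Pi FR MR E0R E1R EsR p q → Chn 0 τ b Pi FL ML E0L E1L EsL p' q' →
    M = MR + ML → E0 = E0R + E0L → E1 = E1R + E1L → Es = EsR + EsL →
    0 ≤ CC (1 - τ) (1 + τ) E0R E0L Pi ka lam mu om (1 - τ * a) q p (1 - τ * b) q' p' := by
  intro τ t0 t1 Pi ka FR FL M E0 E1 Es hP
  have hτ := t0.ne'
  obtain ⟨β, hβ⟩ : ∃ β, β = Pi / (2 * τ) := ⟨_, rfl⟩
  have hPi : Pi = 2 * τ * β := by rw [hβ]; field_simp
  have β1 : β ≤ 1 / 8 := by
    rw [hβ, div_le_iff₀ (by linarith)]; exact hP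
  obtain ⟨K, hK⟩ : ∃ K, K = ka + τ * β - β := ⟨_, rfl⟩
  refine ⟨4 * (K + β) - 2 - 2 * τ ^ 2 / 3 * (1 + 2 * β),
    2 * (K + β) ^ 2 - 4 * (K + β) * K - 4 * (K + β) + 2 * K + 1 / 2 -
        (4 * (K + β) - 2 - 2 * τ ^ 2 / 3 * (1 + 2 * β)) * β - 2 / 3 * τ ^ 2 * β ^ 2 -
        2 * τ ^ 2 * K ^ 2 / (1 - τ ^ 2) + τ ^ 2 / 6 + Es / 2 -
        2 / 5 * β * (2 * τ * β - FR - FL), 0, ?_⟩
  intro a b a0 a1 b0 b1 MR E0R E1R EsR p q ML E0L E1L EsL p' q' cR cL _ _ _ hEs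
  obtain ⟨w, hp, h1⟩ := chn_pos t0 t1 a0 a1 b0 b1 hPi β1 cR
  obtain ⟨w', hp', h2⟩ := chn_pos t0 t1 b0 b1 a0 a1 hPi β1 cL
  rw [hp, hp', hPi, CC_eq t0 t1 a1 b1 hK]
  have h3 : 0 ≤ PhiC τ a b β
        (((2 + a - b) * q + (2 - a + b) * (E0R - q)) / (8 * τ) -
          (a + b) * Es / (16 * τ)) ((2 * τ * β - 2 * FR) / τ) w +
      PhiC τ b a β
        (((2 + b - a) * q' + (2 - b + a) * (E0L - q')) / (8 * τ) -
          (a + b) * Es / (16 * τ)) ((2 * τ * β - 2 * FL) / τ) w' := by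
    have h := add_nonneg h1 h2
    refine h.trans_eq ?_
    rw [hEs, hPi]
    unfold PhiC
    field_simp
    ring
  have m1 : 0 < 1 - τ * a := by nlinarith
  have m2 : 0 < 1 - τ * b := by nlinarith
  have m3 : 0 < 1 - τ ^ 2 := by nlinarith
  have m4 : 0 ≤ 1 - a ^ 2 := by nlinarith
  have m5 : 0 ≤ 1 - b ^ 2 := by nlinarith
  positivity

end Pool.G1.SB
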