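import Pool.Agent.Work.MP_b5407d_g1.Pl_S2p
import Pool.Agent.Work.MP_b5407d_g1.Pl_PW
import Pool.Agent.Work.MP_b5407d_g1.Pl_PWV
import Pool.Agent.Work.MP_b5407d_g1.Pl_SBfin

/-!
# G1: gluing of the one-dimensional certificates

`MIXat τ th`: at the tilt `τ = (T - B)/(T + B)` and the mean load `th` one of the certificates is
available: `th ≤ 1/8` (`fin6_small`), `FIN6at` (line P-b), `PWat` (line P-a), `PWV` (line P-a with `V`).
`PL_of_MIX : Stmt_MIX → Stmt_PL`.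
-/

set_option autoImplicit false

open Finset

namespace Pool.G1.Gap

/-- one certificate is available at `(τ, th)` -/
def MIXat (τ th : ℝ) : Prop :=
  th ≤ 1 / 8 ∨ FIN6at 0 τ th ∨ (∃ kap lp nu : ℝ, 0 ≤ kap ∧ PWat 0 τ th kap lp nu) ∨
    (∀ V : ℝ, 0 ≤ V - τ * th → V - τ * th ≤ 2 / 3 * (1 - τ) → 0 ≤ V + τ * th →
      V + τ * th ≤ 2 / 3 * (1 + τ) ^ 2 → ∃ m n kap L1 nu : ℝ, PWV 0 τ th V m n kap L1 nu)

/-- **all that is missing** (lines P) -/
def Stmt_MIX : Prop := ∀ τ th : ℝ, 0 < τ → τ < 1 → 0 ≤ th → th ≤ 2 / 3 → MIXat τ th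

lemma FIN6at_small {τ th : ℝ} (h0 : 0 < τ) (h1 : τ < 1) (h : th ≤ 1 / 8) : FIN6at 0 τ th := by
  intro ka FR FL M E0 E1 Es _ _ _ _
  refine SB.fin6_small τ h0 h1 (2 * τ * th) ka FR FL M E0 E1 Es ?_
  have := mul_le_mul_of_nonneg_left h (by linarith : 0 ≤ 2 * τ)
  linarith

theorem ONE_of_MIX (h : Stmt_MIX) : Stmt_ONE 0 0 := by
  intro B T a b y t z s hB hBT _ hy hz htL htC hsL hsC hbal ka k1 k2 k3 k4
  have hTB : 0 < T + B := by linarith
  have hτ0 : 0 < (T - B) / (T + B) := div_pos (by linarith) hTB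
  have hτ1 : (T - B) / (T + B) < 1 := by rw [div_lt_one hTB]; linarith
  obtain ⟨m1, m2⟩ := mean_box hB hBT hy htL htC
  rcases h _ _ hτ0 hτ1 m1 m2 with c | c | ⟨kap, lp, nu, hk, c⟩ | c
  · exact one_of_FIN6at hB hBT hy hz htL htC hsL hsC hbal ka k1 k2 k3 k4 (FIN6at_small hτ0 hτ1 c)
  · exact one_of_FIN6at hB hBT hy hz htL htC hsL hsC hbal ka k1 k2 k3 k4 c
  · exact one_of_PW hB hBT hy hz htL htC hsL hsC hbal ka hk c
  · obtain ⟨τ, hτ⟩ : ∃ τ, τ = (T - B) / (T + B) := ⟨_, rfl⟩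
    obtain ⟨th, hth⟩ : ∃ th, th = 2 * PI y t a / (T ^ 2 - B ^ 2) := ⟨_, rfl⟩
    obtain ⟨V, hV⟩ : ∃ V, V = (4 * ka + 2 * PI y t a) / (T + B) ^ 2 := ⟨_, rfl⟩
    obtain ⟨σ, hσe⟩ : ∃ σ, σ = (T + B) / 2 := ⟨_, rfl⟩
    have hσ : 0 < σ := by rw [hσe]; linarith
    have hBe : B = σ * (1 - τ) := by rw [hσe, hτ]; field_simp; ring
    have hTe : T = σ * (1 + τ) := by rw [hσe, hτ]; field_simp; ring
    rw [← hτ, ← hth] at c
    rw [← hτ] at hτ0 hτ1
    have hPe : PI y t a = 2 * τ * th * σ ^ 2 := by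
      have h1 : T ^ 2 - B ^ 2 = 4 * τ * σ ^ 2 := by rw [hBe, hTe]; ring
      rw [hth, h1]; field_simp; ring
    have hTB2 : (T + B) ^ 2 = 4 * σ ^ 2 := by rw [hσe]; ring
    have hka : ka = (V - τ * th) * σ ^ 2 := by
      rw [hV, hTB2, hPe]
      field_simp
      ring
    have hs2 : 0 < σ ^ 2 := by positivity
    have v1 : 0 ≤ V - τ * th := by
      rw [hka] at k1
      have : 0 * σ ^ 2 ≤ (V - τ * th) * σ ^ 2 := by linarith
      exact le_of_mul_le_mul_right this hs2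
    have v2 : V - τ * th ≤ 2 / 3 * (1 - τ) := by
      rw [hka, hBe, hTe] at k2
      have : (V - τ * th) * σ ^ 2 ≤ (2 / 3 * (1 - τ)) * σ ^ 2 := by linarith
      exact le_of_mul_le_mul_right this hs2
    have v4 : V + τ * th ≤ 2 / 3 * (1 + τ) ^ 2 := by
      rw [hka, hPe, hTe] at k4
      have : (V + τ * th) * σ ^ 2 ≤ (2 / 3 * (1 + τ) ^ 2) * σ ^ 2 := by linarith
      exact le_of_mul_le_mul_right this hs2
    have v3 : 0 ≤ V + τ * th := by
      rw [hka, hPe] at k3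
      have : 0 * σ ^ 2 ≤ (V + τ * th) * σ ^ 2 := by linarith
      exact le_of_mul_le_mul_right this hs2
    obtain ⟨m, n, kap, L1, nu, w⟩ := c V v1 v2 v3 v4
    rw [hτ, hth, hV] at w
    exact one_of_PWV hB hBT hy hz htL htC hsL hsC hbal ka w

/-- **the planar target from the mixed certificates** -/
theorem PL_of_MIX (h : Stmt_MIX) : Stmt_PL := PL_of_ONE (ONE_of_MIX h)

end Pool.G1.Gap
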