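import Pool.Agent.Work.MP_b5407d_g1.Pl_PWL

/-!
# G1, line P-a: certificate cells, window t in [1434, 2731]/4096, tau in [-112, 112]/1024

Cells of helper93 (optimiser), checker of helper97, bridge of helper38.
-/

set_option autoImplicit false
set_option maxRecDepth 100000

namespace Pool.G1.Gap.PB

def hi0a0 : CellD :=
  ⟨⟨0, 256, 0, 512, -112, 112⟩, 5325, 1638, 3277, 1434, 2731, ⟨1220, 2044, 1465, -115⟩,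
   ⟨861, -638, 21, 720⟩, ⟨-55, 181, -70, -68⟩, ⟨-45, 147, 4, -21⟩, ⟨943, -879, -87, -776⟩,
   ⟨8254, -3057, 494, 273⟩, ⟨8519, -5114, -489, -500⟩, ⟨716, 4039, -1420⟩, ⟨6, 9709, 2320⟩,
   -5873, -7579, 6639, 2294, ⟨8554, 10282, 16790⟩, ⟨10788, 3557, 3100⟩, ⟨2, -1, 13⟩,
   ⟨396, 309, 343⟩, ⟨4471, 3271, 2539⟩, ⟨2, -1, 13⟩, ⟨4000, -3094, 4348⟩, 41, 188, ⟨0, 0, 0⟩,
   112, 0, 112, 0⟩

theorem hi0a0_ok : hi0a0.ok = true := by decide +kernel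

def hi0a1 : CellD :=
  ⟨⟨0, 256, 512, 768, -112, 112⟩, 5325, 1638, 3277, 1434, 2731, ⟨608, 2951, 2379, 1048⟩,
   ⟨881, -788, -183, 571⟩, ⟨-22, 25, -178, 52⟩, ⟨-44, 101, 13, 15⟩, ⟨962, -1346, -10, -776⟩,
   ⟨8017, -1532, 500, 157⟩, ⟨8666, -6685, -481, -701⟩, ⟨573, 1110, -762⟩, ⟨-1214, 16738, 2874⟩,
   -3316, -13802, 5419, 98, ⟨3477, 10985, 60823⟩, ⟨7200, 130, 1266⟩, ⟨2, -1, 17⟩, ⟨11, 1, 60⟩,
   ⟨3816, 3585, 3692⟩, ⟨2, -1, 15⟩, ⟨5338, -2349, 3506⟩, -331, 843, ⟨6241, 21579, 74645⟩, 112,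
   512, 112, -512⟩

theorem hi0a1_ok : hi0a1.ok = true := by decide +kernel

def hi0a2 : CellD :=
  ⟨⟨0, 256, 768, 896, -112, 112⟩, 5325, 1638, 3277, 1434, 2731, ⟨-1892, 7558, 4227, 3128⟩,
   ⟨-563, -553, 1784, 1011⟩, ⟨-1279, 2, 1373, 667⟩, ⟨-133, 14, 144, 40⟩, ⟨832, -1427, 202, -817⟩,
   ⟨7906, -766, 506, 87⟩, ⟨8743, -7474, -477, -789⟩, ⟨346, 289, -395⟩, ⟨-1850, 20190, 3144⟩,
   -1884, -22274, 4678, 2, ⟨1928, 10124, 121970⟩, ⟨5345, -5, 144⟩, ⟨0, 0, 4⟩, ⟨0, 0, 3⟩,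
   ⟨3266, 3889, 4640⟩, ⟨0, 0, 2⟩, ⟨6158, -2002, 681⟩, -1060, 6342, ⟨1978, 7702, 30012⟩, 112, 768,
   112, -768⟩

theorem hi0a2_ok : hi0a2.ok = true := by decide +kernel

def hi0a3 : CellD :=
  ⟨⟨0, 128, 896, 1024, -112, 0⟩, 5325, 1638, 3277, 1434, 2731, ⟨2623, 1448, -86, 944⟩,
   ⟨3806, -18570, -4243, -4097⟩, ⟨5306, -6613, -6612, -1392⟩, ⟨-105, -233, 87, -98⟩,
   ⟨786, -2966, 219, -1208⟩, ⟨8061, -270, 269, 15⟩, ⟨8511, -7565, -233, -449⟩, ⟨75, 51, -74⟩,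
   ⟨-1488, 26385, 1812⟩, -3262, -13952, 4090, 226, ⟨7050, 11352, 86854⟩, ⟨4102, 328, 5212⟩,
   ⟨21, 0, 0⟩, ⟨5, 0, 0⟩, ⟨3183, 1362, 583⟩, ⟨1, 0, 16⟩, ⟨5583, 7943, 11574⟩, -1556, -16558,
   ⟨16719, 40822, 120295⟩, 112, 896, 0, -1024⟩

theorem hi0a3_ok : hi0a3.ok = true := by decide +kernel

def hi0a4 : CellD :=
  ⟨⟨0, 128, 896, 1024, 0, 112⟩, 5325, 1638, 3277, 1434, 2731, ⟨1439, 2285, 1123, 2783⟩,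
   ⟨7609, -8474, -8533, 3658⟩, ⟨2818, -34, -3766, 2152⟩, ⟨-114, 43, 104, 60⟩,
   ⟨721, -2040, 296, -903⟩, ⟨8086, -242, 241, 15⟩, ⟨8588, -8320, -264, -453⟩, ⟨74, 51, -73⟩,
   ⟨-1518, 26744, 1828⟩, -2136, -9568, 4089, 27, ⟨6562, 1341, 77696⟩, ⟨4108, -164, 2249⟩,
   ⟨17, 0, 0⟩, ⟨4, 0, 0⟩, ⟨4286, 2400, 1387⟩, ⟨1, -1, 11⟩, ⟨4249, -6427, 11120⟩, -3458, -1874,
   ⟨13314, 40053, 120933⟩, 0, 1024, 112, -896⟩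

theorem hi0a4_ok : hi0a4.ok = true := by decide +kernel

def hi0a5 : CellD :=
  ⟨⟨128, 256, 896, 1024, -112, 0⟩, 5325, 1638, 3277, 1434, 2731, ⟨2921, 1582, -570, -167⟩,
   ⟨6629, -12229, -8479, -24327⟩, ⟨13787, -10352, -16469, -12896⟩, ⟨-193, -61, 112, -684⟩,
   ⟨1042, -4262, 186, -1223⟩, ⟨7558, -270, 808, 47⟩, ⟨8957, -7660, -740, -1206⟩, ⟨184, 57, -191⟩,
   ⟨-2638, 18893, 4203⟩, -3790, -14779, 4090, 54, ⟨5656, 15069, 89941⟩, ⟨4092, 140, 1885⟩,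
   ⟨17, 0, 0⟩, ⟨1, 0, 0⟩, ⟨2993, 6760, 15356⟩, ⟨1, 2, 50⟩, ⟨4315, -321, 5751⟩, -708, -1811,
   ⟨20637, 47449, 109103⟩, 112, 896, 0, -1024⟩

theorem hi0a5_ok : hi0a5.ok = true := by decide +kernel

def hi0a6 : CellD :=
  ⟨⟨128, 256, 896, 1024, 0, 112⟩, 5325, 1638, 3277, 1434, 2731, ⟨2547, 1439, -38, 2011⟩,
   ⟨10859, -16179, -11599, 17057⟩, ⟨6838, -13800, -6656, 4615⟩, ⟨-148, 21, 120, 236⟩,
   ⟨500, -1619, 422, -488⟩, ⟨7630, -242, 726, 47⟩, ⟨9110, -8212, -792, -1205⟩, ⟨184, 57, -191⟩,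
   ⟨-2827, 19760, 4327⟩, -3660, -791, 4090, 8, ⟨5557, -2549, 69130⟩, ⟨4091, -50, 1143⟩,
   ⟨13, 0, 0⟩, ⟨1, 0, 0⟩, ⟨3159, -715, 15401⟩, ⟨1, -1, 18⟩, ⟨4163, -5529, 7512⟩, 33, -2791,
   ⟨15872, 43881, 121381⟩, 0, 1024, 112, -896⟩

theorem hi0a6_ok : hi0a6.ok = true := by decide +kernel

def hi0a7 : CellD :=
  ⟨⟨256, 384, 0, 512, -112, 112⟩, 5325, 1638, 3277, 1434, 2731, ⟨1242, 1031, 1398, 6⟩,
   ⟨797, -547, 115, 598⟩, ⟨-63, 180, -102, -88⟩, ⟨-70, 214, 17, -27⟩, ⟨907, -756, -152, -596⟩,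
   ⟨8004, -3048, 1277, 822⟩, ⟨8645, -5106, -1277, -1267⟩, ⟨1164, 3449, -3097⟩, ⟨10, 7507, 4435⟩,
   -4353, -6274, 5681, 3292, ⟨4655, 6545, 10142⟩, ⟨7886, 4538, 2981⟩, ⟨1, -2, 16⟩,
   ⟨562, 757, 1122⟩, ⟨3741, 1488, 2232⟩, ⟨1, -1, 13⟩, ⟨18, -17, 156⟩, 225, 698, ⟨0, 0, 0⟩, 112,
   0, 112, 0⟩

theorem hi0a7_ok : hi0a7.ok = true := by decide +kernel

def hi0a8 : CellD :=
  ⟨⟨256, 512, 512, 768, -112, 112⟩, 5325, 1638, 3277, 1434, 2731, ⟨418, 900, 2826, 1415⟩,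
   ⟨1018, -710, -263, 110⟩, ⟨-16, 252, -308, -125⟩, ⟨-121, 353, 26, -16⟩, ⟨936, -985, -90, -438⟩,
   ⟨7371, -1526, 1526, 508⟩, ⟨9291, -6662, -1524, -1693⟩, ⟨1398, 993, -2031⟩, ⟨-750, 8223, 5686⟩,
   781, -18918, 4911, -184, ⟨197, -3672, 88722⟩, ⟨5890, -217, 265⟩, ⟨1, 0, 33⟩, ⟨2, 1, 29⟩,
   ⟨3282, 1140, 4055⟩, ⟨1, 0, 13⟩, ⟨2199, -816, 423⟩, -789, 2737, ⟨3038, 10373, 35506⟩, 112, 512,
   112, -512⟩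

theorem hi0a8_ok : hi0a8.ok = true := by decide +kernel

def hi0a9 : CellD :=
  ⟨⟨256, 384, 768, 896, -112, 112⟩, 5325, 1638, 3277, 1434, 2731, ⟨-2744, 2937, 5706, 1626⟩,
   ⟨3699, -4042, -3289, -2459⟩, ⟨1549, -1503, -2259, -549⟩, ⟨-112, 169, 33, -39⟩,
   ⟨953, -1733, -9, -473⟩, ⟨7274, -765, 1278, 231⟩, ⟨9356, -7427, -1278, -1652⟩,
   ⟨757, 283, -908⟩, ⟨-1826, 11829, 5390⟩, 2013, -19716, 3741, 1838, ⟨1708, -9649, 107072⟩,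
   ⟨3418, 1682, 1444⟩, ⟨4, 0, 65⟩, ⟨3, 1, 59⟩, ⟨2715, 1944, 8556⟩, ⟨2, 0, 39⟩,
   ⟨2581, -1496, 1175⟩, -1181, 3973, ⟨8832, 22905, 59466⟩, 112, 768, 112, -768⟩

theorem hi0a9_ok : hi0a9.ok = true := by decide +kernel

def hi0a10 : CellD :=
  ⟨⟨256, 384, 896, 1024, -112, 112⟩, 5325, 1638, 3277, 1434, 2731, ⟨8280, -4446, -4430, -585⟩,
   ⟨9321, -6408, -8149, -1897⟩, ⟨6050, -4627, -5719, -1031⟩, ⟨-121, 409, 39, 29⟩,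
   ⟨1034, -1107, -102, -327⟩, ⟨7113, -253, 1279, 77⟩, ⟨9516, -7939, -1278, -1717⟩,
   ⟨297, 57, -311⟩, ⟨-2082, 12341, 5505⟩, -1640, -22432, 3954, 1276, ⟨659, 8982, 122867⟩,
   ⟨3819, 1232, 399⟩, ⟨1, 0, 0⟩, ⟨0, 0, 0⟩, ⟨2343, 1520, 2066⟩, ⟨0, 0, 0⟩, ⟨4118, -4589, 8017⟩,
   -1379, 3129, ⟨1277, 3467, 9418⟩, 112, 896, 112, -896⟩

theorem hi0a10_ok : hi0a10.ok = true := by decide +kernel

def hi0a11 : CellD :=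
  ⟨⟨384, 448, 0, 512, -112, 112⟩, 5325, 1638, 3277, 1434, 2731, ⟨1118, 969, 1438, 140⟩,
   ⟨760, -509, 155, 523⟩, ⟨-53, 149, -114, -88⟩, ⟨-88, 244, 37, -19⟩, ⟨888, -732, -167, -486⟩,
   ⟨7896, -3049, 1665, 1046⟩, ⟨8731, -5109, -1664, -1541⟩, ⟨1411, 3139, -3782⟩,
   ⟨368, 6090, 5111⟩, -4438, -5133, 5855, 2659, ⟨4826, 5479, 6828⟩, ⟨8388, 3794, 1935⟩,
   ⟨2, -2, 17⟩, ⟨392, 619, 1053⟩, ⟨2955, 1193, 1815⟩, ⟨1, -1, 13⟩, ⟨10, -6, 84⟩, 97, 753,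
   ⟨0, 0, 0⟩, 112, 0, 112, 0⟩

theorem hi0a11_ok : hi0a11.ok = true := by decide +kernel

def hi0a12 : CellD :=
  ⟨⟨384, 512, 768, 1024, -112, 112⟩, 5325, 1638, 3277, 1434, 2731, ⟨4623, -2548, -884, 508⟩,
   ⟨5188, -3452, -4545, -2056⟩, ⟨2377, -998, -2947, -1270⟩, ⟨-264, 537, 112, 81⟩,
   ⟨610, -887, 185, -289⟩, ⟨6746, -498, 1791, 209⟩, ⟨9875, -7662, -1788, -1969⟩,
   ⟨759, 210, -836⟩, ⟨607, 5539, 5365⟩, -1649, -22236, 4040, 480, ⟨844, 8820, 121726⟩,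
   ⟨3986, 475, 129⟩, ⟨5, 0, 0⟩, ⟨0, 0, 0⟩, ⟨1884, 455, 3861⟩, ⟨0, 0, 10⟩, ⟨4636, -3557, 4835⟩,
   -1119, 1659, ⟨3714, 11533, 35844⟩, 112, 768, 112, -768⟩

theorem hi0a12_ok : hi0a12.ok = true := by decide +kernel

def hi0a13 : CellD :=
  ⟨⟨448, 512, 0, 512, -112, 112⟩, 5325, 1638, 3277, 1434, 2731, ⟨1175, 656, 1446, 112⟩,
   ⟨712, -404, 144, 389⟩, ⟨11, 22, -125, -86⟩, ⟨-100, 268, 53, 3⟩, ⟨857, -669, -184, -409⟩,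
   ⟨7833, -3053, 1921, 1173⟩, ⟨8794, -5108, -1920, -1684⟩, ⟨1647, 2826, -4168⟩,
   ⟨752, 5092, 5368⟩, -4981, -3341, 5594, 2544, ⟨6060, 4053, 2973⟩, ⟨7646, 3455, 1694⟩,
   ⟨1, -1, 20⟩, ⟨422, 690, 1175⟩, ⟨2261, 863, 1420⟩, ⟨1, -1, 14⟩, ⟨4, -4, 65⟩, 1697, -2925,
   ⟨0, 0, 0⟩, 112, 0, 112, 0⟩

theorem hi0a13_ok : hi0a13.ok = true := by decide +kernel

def hi0a14 : CellD :=
  ⟨⟨512, 576, 0, 512, -112, 112⟩, 5325, 1638, 3277, 1434, 2731, ⟨1510, -115, 1374, 65⟩,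
   ⟨897, -783, 156, 220⟩, ⟨54, -37, -131, -58⟩, ⟨-156, 366, 75, 39⟩, ⟨844, -649, -195, -306⟩,
   ⟨7773, -3060, 2178, 1292⟩, ⟨8856, -5105, -2175, -1801⟩, ⟨1900, 2499, -4500⟩,
   ⟨1215, 4134, 5476⟩, -4830, -2231, 5363, 2093, ⟨5697, 2621, 1479⟩, ⟨7027, 2733, 1163⟩,
   ⟨0, 0, 23⟩, ⟨300, 615, 1292⟩, ⟨1732, 604, 1054⟩, ⟨0, 0, 16⟩, ⟨2, -2, 52⟩, 1940, -3200,
   ⟨0, 0, 0⟩, 112, 0, 112, 0⟩

theorem hi0a14_ok : hi0a14.ok = true := by decide +kernel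

def hi0a15 : CellD :=
  ⟨⟨512, 768, 512, 768, -112, 112⟩, 5325, 1638, 3277, 1434, 2731, ⟨-199, 64, 3564, 1300⟩,
   ⟨1697, -1553, -808, -564⟩, ⟨283, -344, -653, -638⟩, ⟨-214, 389, 70, -57⟩,
   ⟨931, -1256, -97, -443⟩, ⟨6727, -1523, 2553, 821⟩, ⟨8578, -5309, -1429, -1399⟩,
   ⟨2135, 858, -3093⟩, ⟨6801, -2675, 2367⟩, 3520, -13132, 3378, 995, ⟨3098, -11425, 43776⟩,
   ⟨2787, 815, 432⟩, ⟨5, 18, 145⟩, ⟨1, 0, 31⟩, ⟨1805, -20, 7309⟩, ⟨1, 0, 26⟩, ⟨1851, 260, 174⟩,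
   -1556, 2784, ⟨8955, 25997, 75483⟩, 112, 512, 112, -512⟩

theorem hi0a15_ok : hi0a15.ok = true := by decide +kernel

def hi0a16 : CellD :=
  ⟨⟨512, 640, 768, 1024, -112, 112⟩, 5325, 1638, 3277, 1434, 2731, ⟨4323, -2641, -592, 1237⟩,
   ⟨12627, -9772, -9820, -2198⟩, ⟨8691, -5412, -8817, -4275⟩, ⟨122, 38, -124, -223⟩,
   ⟨779, -1483, 64, -646⟩, ⟨6296, -497, 2304, 268⟩, ⟨10250, -7579, -2265, -2017⟩,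
   ⟨956, 204, -1056⟩, ⟨5346, -1236, 3820⟩, 1610, -21677, 3932, 1132, ⟨1106, -8699, 118243⟩,
   ⟨3779, 1097, 627⟩, ⟨30, 0, 0⟩, ⟨1, 0, 0⟩, ⟨1559, 358, 9765⟩, ⟨1, 0, 37⟩, ⟨5454, -2355, 1380⟩,
   -1196, 1897, ⟨7933, 24560, 76170⟩, 112, 768, 112, -768⟩

theorem hi0a16_ok : hi0a16.ok = true := by decide +kernel

def hi0a17 : CellD :=
  ⟨⟨576, 640, 0, 512, -112, 112⟩, 5325, 1638, 3277, 1434, 2731, ⟨1453, -128, 1354, 134⟩,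
   ⟨952, -873, 189, 221⟩, ⟨100, -93, -134, -79⟩, ⟨-182, 388, 105, 53⟩, ⟨896, -752, -195, -242⟩,
   ⟨7713, -3068, 2434, 1401⟩, ⟨8913, -5096, -2429, -1891⟩, ⟨2164, 2171, -4780⟩,
   ⟨1776, 3171, 5446⟩, -4366, -2046, 5021, 1247, ⟨4656, 2168, 1224⟩, ⟨6159, 1525, 459⟩,
   ⟨0, 0, 38⟩, ⟨146, 408, 1160⟩, ⟨1294, 523, 826⟩, ⟨0, 0, 18⟩, ⟨2, -1, 45⟩, 1848, -2870,
   ⟨0, 0, 0⟩, 112, 0, 112, 0⟩

theorem hi0a17_ok : hi0a17.ok = true := by decide +kernel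

def hi0a18 : CellD :=
  ⟨⟨640, 768, 0, 512, -112, 112⟩, 5325, 1638, 3277, 1434, 2731, ⟨1999, -1011, 1359, 210⟩,
   ⟨799, -542, 238, 330⟩, ⟨-24, 198, -109, -30⟩, ⟨-301, 585, 154, 108⟩, ⟨833, -598, -212, -112⟩,
   ⟨7612, -3042, 2816, 1532⟩, ⟨8963, -5022, -2788, -1975⟩, ⟨2574, 1681, -5081⟩,
   ⟨2772, 1761, 5117⟩, -3813, -809, 4126, -260, ⟨3997, -1634, 12914⟩, ⟨4157, -262, 18⟩,
   ⟨0, 0, 225⟩, ⟨36, 256, 1821⟩, ⟨712, 356, 507⟩, ⟨0, 0, 165⟩, ⟨0, 0, 0⟩, 1819, -2775, ⟨0, 0, 0⟩,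
   112, 0, 112, 0⟩

theorem hi0a18_ok : hi0a18.ok = true := by decide +kernel

def hi0a19 : CellD :=
  ⟨⟨640, 768, 768, 1024, -112, 112⟩, 5325, 1638, 3277, 1434, 2731, ⟨12224, -6858, -7110, -490⟩,
   ⟨21215, -14069, -16097, -2048⟩, ⟨15441, -9624, -13813, -7719⟩, ⟨1024, -845, -561, -742⟩,
   ⟨2927, -3552, -1062, -1797⟩, ⟨5843, -491, 2818, 325⟩, ⟨3753, 866, -535, -555⟩,
   ⟨1146, 197, -1268⟩, ⟨23664, -21499, -3761⟩, 1739, -21429, 4020, -461, ⟨1117, -8472, 116070⟩,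
   ⟨3951, -416, 543⟩, ⟨206, 0, 0⟩, ⟨1, 0, 0⟩, ⟨1383, -203, 13148⟩, ⟨1, 2, 45⟩,
   ⟨7513, -1823, 800⟩, -5063, 7634, ⟨9092, 26767, 79043⟩, 112, 768, 112, -768⟩

theorem hi0a19_ok : hi0a19.ok = true := by decide +kernel

def hi0a20 : CellD :=
  ⟨⟨768, 896, 0, 512, -112, 112⟩, 5325, 1638, 3277, 1434, 2731, ⟨1207, -101, 917, 121⟩,
   ⟨741, -574, 293, 188⟩, ⟨-113, 294, -218, -112⟩, ⟨-299, 512, 180, 77⟩, ⟨781, -591, -216, -80⟩,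
   ⟨7466, -3021, 3322, 1686⟩, ⟨5225, 61, -1691, -701⟩, ⟨2939, 1510, -5292⟩, ⟨8723, -5575, 1397⟩,
   -1475, -908, 3748, -191, ⟨555, 304, 288⟩, ⟨3434, -174, 63⟩, ⟨1, 3, 163⟩, ⟨1, 6, 70⟩,
   ⟨262, 347, 712⟩, ⟨0, 0, 22⟩, ⟨2, 1, 32⟩, -4, -45, ⟨0, 0, 0⟩, 112, 0, 112, 0⟩

theorem hi0a20_ok : hi0a20.ok = true := by decide +kernel

def hi0a21 : CellD :=
  ⟨⟨768, 1024, 512, 768, -112, 112⟩, 5325, 1638, 3277, 1434, 2731, ⟨821, 501, 103, 846⟩,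
   ⟨2034, -1274, -1546, -1486⟩, ⟨919, -728, -1053, -1358⟩, ⟨178, 92, -212, -482⟩,
   ⟨1767, -1800, -688, -1157⟩, ⟨6083, -1520, 3577, 1096⟩, ⟨-6239, 12377, 1540, -82⟩,
   ⟨2782, 718, -3956⟩, ⟨20507, -16701, -4389⟩, 4133, -9030, 4326, -1397, ⟨4226, -9011, 20969⟩,
   ⟨4578, -1426, 972⟩, ⟨308, -99, 789⟩, ⟨1, 2, 26⟩, ⟨1069, -393, 6708⟩, ⟨1, 2, 23⟩,
   ⟨6094, 44, 106⟩, -3530, 4312, ⟨6762, 19541, 56863⟩, 112, 512, 112, -512⟩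

theorem hi0a21_ok : hi0a21.ok = true := by decide +kernel

def hi0a22 : CellD :=
  ⟨⟨768, 1024, 768, 1024, -112, 112⟩, 5325, 1638, 3277, 1434, 2731, ⟨9785, -2245, -8648, 1321⟩,
   ⟨21391, -9001, -19783, -6031⟩, ⟨16188, -6539, -17351, -8796⟩, ⟨2820, -2311, -1524, -2067⟩,
   ⟨6064, -6758, -2089, -2803⟩, ⟨5182, -487, 3584, 390⟩, ⟨-11523, 16799, 2992, 478⟩,
   ⟨1440, 177, -1571⟩, ⟨22268, -16723, -5512⟩, 2097, -17931, 3410, -2121, ⟨1385, -8932, 84609⟩,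
   ⟨2855, -1662, 3092⟩, ⟨343, 0, 0⟩, ⟨1, 0, 0⟩, ⟨1038, 157, 17887⟩, ⟨2, 2, 86⟩,
   ⟨11051, -1623, 807⟩, -1401, 1688, ⟨8820, 23224, 61503⟩, 112, 768, 112, -768⟩

theorem hi0a22_ok : hi0a22.ok = true := by decide +kernel

def hi0a23 : CellD :=
  ⟨⟨896, 1024, 0, 512, -112, 112⟩, 5325, 1638, 3277, 1434, 2731, ⟨2001, -1193, 762, 157⟩,
   ⟨612, -416, 287, 193⟩, ⟨-224, 403, -209, -66⟩, ⟨-377, 580, 234, 98⟩, ⟨642, -454, -214, -67⟩,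
   ⟨6450, -1929, 3481, 1433⟩, ⟨-1298, 7015, 1233, -41⟩, ⟨3703, 576, -5066⟩,
   ⟨13159, -9818, -2697⟩, 1628, -883, 3762, -716, ⟨690, -351, 249⟩, ⟨3483, -648, 172⟩,
   ⟨4, -16, 217⟩, ⟨3, 2, 14⟩, ⟨59, 154, 498⟩, ⟨2, 2, 17⟩, ⟨8, 3, 27⟩, -140, 84, ⟨0, 0, 0⟩, 112,
   0, 112, 0⟩

theorem hi0a23_ok : hi0a23.ok = true := by decide +kernel

theorem hi0a_win : WGood ⟨5325, 1638, 3277, 1434, 2731⟩ ⟨0, 1024, 0, 1024, -112, 112⟩ :=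
  wgood_cover (cells := [hi0a0.box, hi0a1.box, hi0a2.box, hi0a3.box, hi0a4.box, hi0a5.box, hi0a6.box, hi0a7.box, hi0a8.box, hi0a9.box, hi0a10.box, hi0a11.box, hi0a12.box, hi0a13.box, hi0a14.box, hi0a15.box, hi0a16.box, hi0a17.box, hi0a18.box, hi0a19.box, hi0a20.box, hi0a21.box, hi0a22.box, hi0a23.box])
    (by
      intro c hc
      simp only [List.mem_cons, List.not_mem_nil, or_false] at hc
      rcases hc with rfl | rfl | rfl | rfl | rfl | rfl | rfl | rfl | rfl | rfl | rfl | rfl | rfl | rfl | rfl | rfl | rfl | rfl | rfl | rfl | rfl | rfl | rfl | rfl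
      · exact wgood_of_ok hi0a0_ok (by decide)
      · exact wgood_of_ok hi0a1_ok (by decide)
      · exact wgood_of_ok hi0a2_ok (by decide)
      · exact wgood_of_ok hi0a3_ok (by decide)
      · exact wgood_of_ok hi0a4_ok (by decide)
      · exact wgood_of_ok hi0a5_ok (by decide)
      · exact wgood_of_ok hi0a6_ok (by decide)
      · exact wgood_of_ok hi0a7_ok (by decide)
      · exact wgood_of_ok hi0a8_ok (by decide)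
      · exact wgood_of_ok hi0a9_ok (by decide)
      · exact wgood_of_ok hi0a10_ok (by decide)
      · exact wgood_of_ok hi0a11_ok (by decide)
      · exact wgood_of_ok hi0a12_ok (by decide)
      · exact wgood_of_ok hi0a13_ok (by decide)
      · exact wgood_of_ok hi0a14_ok (by decide)
      · exact wgood_of_ok hi0a15_ok (by decide)
      · exact wgood_of_ok hi0a16_ok (by decide)
      · exact wgood_of_ok hi0a17_ok (by decide)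
      · exact wgood_of_ok hi0a18_ok (by decide)
      · exact wgood_of_ok hi0a19_ok (by decide)
      · exact wgood_of_ok hi0a20_ok (by decide)
      · exact wgood_of_ok hi0a21_ok (by decide)
      · exact wgood_of_ok hi0a22_ok (by decide)
      · exact wgood_of_ok hi0a23_ok (by decide))
    (CTree.n1 512 (CTree.n1 256 (CTree.n2 512 (CTree.leaf 0) (CTree.n2 768 (CTree.leaf 1)
    (CTree.n2 896 (CTree.leaf 2) (CTree.n1 128 (CTree.n3 0 (CTree.leaf 3) (CTree.leaf 4))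
    (CTree.n3 0 (CTree.leaf 5) (CTree.leaf 6)))))) (CTree.n2 512 (CTree.n1 384 (CTree.leaf 7)
    (CTree.n1 448 (CTree.leaf 11) (CTree.leaf 13))) (CTree.n2 768 (CTree.leaf 8) (CTree.n1 384
    (CTree.n2 896 (CTree.leaf 9) (CTree.leaf 10)) (CTree.leaf 12))))) (CTree.n1 768 (CTree.n2
    512 (CTree.n1 640 (CTree.n1 576 (CTree.leaf 14) (CTree.leaf 17)) (CTree.leaf 18)) (CTree.n2
    768 (CTree.leaf 15) (CTree.n1 640 (CTree.leaf 16) (CTree.leaf 19)))) (CTree.n2 512 (CTree.n1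
    896 (CTree.leaf 20) (CTree.leaf 23)) (CTree.n2 768 (CTree.leaf 21) (CTree.leaf 22)))))
    (by decide +kernel)

end Pool.G1.Gap.PB
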