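import Mathlib

/-!
# G1, LINE T: the homogeneous two-state functional in the gauge g1 and the path theorem
-/

set_option autoImplicit false

open Set Filter Topology

namespace Pool.G1.KB

/-- a family `F s` of quadratic forms on `ℝⁿ` (with polar forms `P s`), continuous on `[0,1]`, positive
at `0` and nondegenerate on `[0,1)`, is nonnegative at `1` -/
theorem psd_path {n : ℕ} (F : ℝ → (Fin n → ℝ) → ℝ) (P : ℝ → (Fin n → ℝ) → (Fin n → ℝ) → ℝ)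
    (hc : ContinuousOn (fun p : ℝ × (Fin n → ℝ) => F p.1 p.2) (Icc 0 1 ×ˢ univ))
    (hsm : ∀ s c x, F s (c • x) = c ^ 2 * F s x)
    (hadd : ∀ s x y e, F s (x + e • y) = F s x + 2 * e * P s x y + e ^ 2 * F s y)
    (h0 : ∀ x : Fin n → ℝ, x ≠ 0 → 0 < F 0 x)
    (hk : ∀ s, 0 ≤ s → s < 1 → ∀ x : Fin n → ℝ, (∀ y, P s x y = 0) → x = 0) :
    ∀ x : Fin n → ℝ, 0 ≤ F 1 x := by
  classical
  have hF0 : ∀ s, F s 0 = 0 := by
    intro s
    have := hsm s 0 0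
    simpa using this
  let S : Set (Fin n → ℝ) := Metric.sphere 0 1
  have hS : IsCompact S := isCompact_sphere _ _
  by_contra hcon
  push Not at hcon
  obtain ⟨x1, hx1⟩ := hcon
  let A : Set ℝ := {s | s ∈ Icc (0 : ℝ) 1 ∧ ∃ x ∈ S, F s x ≤ 0}
  have hscale : ∀ s ∈ Icc (0 : ℝ) 1, ∀ y : Fin n → ℝ, F s y < 0 → s ∈ A := by
    intro s hs y hy
    have hy0 : y ≠ 0 := by
      rintro rfl
      rw [hF0] at hy
      exact lt_irrefl _ hy
    have hn : 0 < ‖y‖ := norm_pos_iff.mpr hy0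
    refine ⟨hs, (‖y‖)⁻¹ • y, ?_, ?_⟩
    · simp only [S, mem_sphere_iff_norm, sub_zero, norm_smul, norm_inv, norm_norm]
      exact inv_mul_cancel₀ hn.ne'
    · rw [hsm]
      have : 0 < (‖y‖)⁻¹ ^ 2 := by positivity
      nlinarith
  have hA1 : (1 : ℝ) ∈ A := hscale 1 ⟨zero_le_one, le_rfl⟩ x1 hx1
  have hAc : IsClosed A := by
    have : A = Prod.fst '' ((Icc (0 : ℝ) 1 ×ˢ S) ∩
        {p : ℝ × (Fin n → ℝ) | p ∈ Icc (0:ℝ) 1 ×ˢ (univ : Set (Fin n → ℝ)) ∧ F p.1 p.2 ≤ 0}) := by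
      ext s
      constructor
      · rintro ⟨h1, x, hx, h2⟩
        exact ⟨(s, x), ⟨⟨h1, hx⟩, ⟨h1, mem_univ _⟩, h2⟩, rfl⟩
      · rintro ⟨p, ⟨⟨h1, hx⟩, _, h2⟩, rfl⟩
        exact ⟨h1, p.2, hx, h2⟩
    rw [this]
    refine IsCompact.isClosed ?_
    refine IsCompact.image ?_ continuous_fst
    refine (isCompact_Icc.prod hS).inter_right ?_
    have hcl : IsClosed (Icc (0:ℝ) 1 ×ˢ (univ : Set (Fin n → ℝ))) := isClosed_Icc.prod isClosed_univ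
    exact hc.preimage_isClosed_of_isClosed hcl isClosed_Iic
  have hAb : BddBelow A := ⟨0, fun s hs => hs.1.1⟩
  obtain ⟨⟨hs0, hs1⟩, x, hxS, hx⟩ := hAc.csInf_mem ⟨1, hA1⟩ hAb
  set s0 := sInf A with hs0def
  have hxne : x ≠ 0 := by
    rintro rfl
    simp [S] at hxS
  have hpos : 0 < s0 := by
    rcases hs0.lt_or_eq with h | h
    · exact h
    · exfalso
      rw [← h] at hx
      exact absurd (h0 x hxne) (not_lt.mpr hx)
  have hnn : ∀ s, 0 ≤ s → s < s0 → ∀ y : Fin n → ℝ, 0 ≤ F s y := by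
    intro s h1 h2 y
    by_contra hy
    push Not at hy
    exact absurd (csInf_le hAb (hscale s ⟨h1, by linarith⟩ y hy)) (not_le.mpr h2)
  have hnn0 : ∀ y : Fin n → ℝ, 0 ≤ F s0 y := by
    intro y
    have hc1 : ContinuousOn (fun s => F s y) (Icc 0 1) :=
      hc.comp (f := fun s => (s, y)) (by fun_prop) fun s hs => ⟨hs, mem_univ _⟩
    have hc2 : ContinuousWithinAt (fun s => F s y) (Ico 0 s0) s0 :=
      (hc1 s0 ⟨hs0, hs1⟩).mono fun s hs => ⟨hs.1, hs.2.le.trans hs1⟩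
    have hne : (𝓝[Ico 0 s0] s0).NeBot := by
      rw [← mem_closure_iff_nhdsWithin_neBot, closure_Ico hpos.ne]
      exact ⟨hs0, le_rfl⟩
    exact ge_of_tendsto hc2 (eventually_nhdsWithin_of_forall fun s hs => hnn s hs.1 hs.2 y)
  rcases hs1.lt_or_eq with h | h
  · have hz : F s0 x = 0 := le_antisymm hx (hnn0 x)
    refine hxne (hk s0 hs0 h x ?_)
    intro y
    by_contra hi
    have key : ∀ e : ℝ, 0 ≤ 2 * e * P s0 x y + e ^ 2 * F s0 y := by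
      intro e
      have := hnn0 (x + e • y)
      rw [hadd, hz] at this
      linarith
    have hqn : 0 ≤ F s0 y := hnn0 _
    have k1 := key (-(P s0 x y) / (F s0 y + 1))
    have hq1 : 0 < F s0 y + 1 := by linarith
    have e2 : 2 * (-(P s0 x y) / (F s0 y + 1)) * P s0 x y +
        (-(P s0 x y) / (F s0 y + 1)) ^ 2 * F s0 y =
        -((P s0 x y) ^ 2 * (F s0 y + 2) / (F s0 y + 1) ^ 2) := by
      field_simp
      ring
    rw [e2] at k1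
    have : 0 < (P s0 x y) ^ 2 * (F s0 y + 2) / (F s0 y + 1) ^ 2 := by positivity
    linarith
  · rw [h] at hnn0
    exact absurd (hnn0 x1) (not_le.mpr hx1)


/-- homogeneous `Θ` -/
noncomputable def Thh (y P t : ℝ) : ℝ := 2 * P ^ 2 / y - 2 * t * y * P + t ^ 2 * y ^ 3 / 6

noncomputable def Tpol (y P t P' t' : ℝ) : ℝ :=
  2 * P * P' / y - y * (t * P' + t' * P) + t * t' * y ^ 3 / 6

/-- the homogeneous two-state functional in the gauge `g1` -/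
noncomputable def FH (B T a1 a2 b1 b2 m1 m2 PB PT p1 p2 q1 q2 t : ℝ) : ℝ :=
  (m1 * (2 * (T - B) - ((a1 - B) + (T - b1))) + m2 * (2 * (T - B) - ((a2 - B) + (T - b2)))) / 2 *
    ((p1 - PB) ^ 2 / ((a1 ^ 2 - B ^ 2) / 2)) +
  (m1 * ((a1 - B) + (T - b1)) + m2 * (2 * (T - B) - ((a2 - B) + (T - b2)))) / 2 *
    ((p2 - p1) ^ 2 / ((a2 ^ 2 - a1 ^ 2) / 2)) +
  (m1 * ((a1 - B) + (T - b1)) + m2 * ((a2 - B) + (T - b2))) / 2 *
    ((PT - p2) ^ 2 / ((T ^ 2 - a2 ^ 2) / 2)) +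
  (m1 * ((a1 - B) + (T - b1)) + m2 * ((a2 - B) + (T - b2))) / 2 *
    ((q2 - PB) ^ 2 / ((b2 ^ 2 - B ^ 2) / 2)) +
  (m1 * ((a1 - B) + (T - b1)) + m2 * (2 * (T - B) - ((a2 - B) + (T - b2)))) / 2 *
    ((q1 - q2) ^ 2 / ((b1 ^ 2 - b2 ^ 2) / 2)) +
  (m1 * (2 * (T - B) - ((a1 - B) + (T - b1))) + m2 * (2 * (T - B) - ((a2 - B) + (T - b2)))) / 2 *
    ((PT - q1) ^ 2 / ((T ^ 2 - b1 ^ 2) / 2)) +
  m1 * (Thh B PB t + Thh T PT t - Thh a1 p1 t - Thh b1 q1 t) +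
  m2 * (Thh B PB t + Thh T PT t - Thh a2 p2 t - Thh b2 q2 t) +
  (-(2 / (B + T)) * (PT ^ 2 / T + PB ^ 2 / B) + 2 / (3 * (B + T) ^ 2) * (PT - PB) ^ 2 -
    t ^ 2 * (T ^ 2 + T * B + B ^ 2) / 6) * (m1 * (a1 + b1 - B - T) + m2 * (a2 + b2 - B - T))

/-- the polar form of `FH` -/
noncomputable def FP (B T a1 a2 b1 b2 m1 m2 PB PT p1 p2 q1 q2 t PB' PT' p1' p2' q1' q2' t' : ℝ) : ℝ :=
  (m1 * (2 * (T - B) - ((a1 - B) + (T - b1))) + m2 * (2 * (T - B) - ((a2 - B) + (T - b2)))) / 2 *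
    ((p1 - PB) * (p1' - PB') / ((a1 ^ 2 - B ^ 2) / 2)) +
  (m1 * ((a1 - B) + (T - b1)) + m2 * (2 * (T - B) - ((a2 - B) + (T - b2)))) / 2 *
    ((p2 - p1) * (p2' - p1') / ((a2 ^ 2 - a1 ^ 2) / 2)) +
  (m1 * ((a1 - B) + (T - b1)) + m2 * ((a2 - B) + (T - b2))) / 2 *
    ((PT - p2) * (PT' - p2') / ((T ^ 2 - a2 ^ 2) / 2)) +
  (m1 * ((a1 - B) + (T - b1)) + m2 * ((a2 - B) + (T - b2))) / 2 *
    ((q2 - PB) * (q2' - PB') / ((b2 ^ 2 - B ^ 2) / 2)) +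
  (m1 * ((a1 - B) + (T - b1)) + m2 * (2 * (T - B) - ((a2 - B) + (T - b2)))) / 2 *
    ((q1 - q2) * (q1' - q2') / ((b1 ^ 2 - b2 ^ 2) / 2)) +
  (m1 * (2 * (T - B) - ((a1 - B) + (T - b1))) + m2 * (2 * (T - B) - ((a2 - B) + (T - b2)))) / 2 *
    ((PT - q1) * (PT' - q1') / ((T ^ 2 - b1 ^ 2) / 2)) +
  m1 * (Tpol B PB t PB' t' + Tpol T PT t PT' t' - Tpol a1 p1 t p1' t' - Tpol b1 q1 t q1' t') +
  m2 * (Tpol B PB t PB' t' + Tpol T PT t PT' t' - Tpol a2 p2 t p2' t' - Tpol b2 q2 t q2' t') +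
  (-(2 / (B + T)) * (PT * PT' / T + PB * PB' / B) + 2 / (3 * (B + T) ^ 2) * ((PT - PB) * (PT' - PB')) -
    t * t' * (T ^ 2 + T * B + B ^ 2) / 6) * (m1 * (a1 + b1 - B - T) + m2 * (a2 + b2 - B - T))

lemma FH_add (B T a1 a2 b1 b2 m1 m2 PB PT p1 p2 q1 q2 t PB' PT' p1' p2' q1' q2' t' e : ℝ) :
    FH B T a1 a2 b1 b2 m1 m2 (PB + e * PB') (PT + e * PT') (p1 + e * p1') (p2 + e * p2')
      (q1 + e * q1') (q2 + e * q2') (t + e * t') =
    FH B T a1 a2 b1 b2 m1 m2 PB PT p1 p2 q1 q2 t +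
      2 * e * FP B T a1 a2 b1 b2 m1 m2 PB PT p1 p2 q1 q2 t PB' PT' p1' p2' q1' q2' t' +
      e ^ 2 * FH B T a1 a2 b1 b2 m1 m2 PB' PT' p1' p2' q1' q2' t' := by
  unfold FH FP Thh Tpol
  ring

lemma FH_smul (B T a1 a2 b1 b2 m1 m2 PB PT p1 p2 q1 q2 t c : ℝ) :
    FH B T a1 a2 b1 b2 m1 m2 (c * PB) (c * PT) (c * p1) (c * p2) (c * q1) (c * q2) (c * t) =
      c ^ 2 * FH B T a1 a2 b1 b2 m1 m2 PB PT p1 p2 q1 q2 t := by
  unfold FH Thh
  ring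


section
variable {Z : Type*} [TopologicalSpace Z] {S : Set Z}

lemma Thh_contOn {y P t : Z → ℝ} (hy : ContinuousOn y S) (hP : ContinuousOn P S)
    (ht : ContinuousOn t S) (h0 : ∀ z ∈ S, y z ≠ 0) :
    ContinuousOn (fun z => Thh (y z) (P z) (t z)) S := by
  unfold Thh
  have h1 : ContinuousOn (fun z => 2 * P z ^ 2 / y z) S :=
    ContinuousOn.div (by fun_prop) hy h0
  have h2 : ContinuousOn (fun z => 2 * t z * y z * P z) S := by fun_prop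
  have h3 : ContinuousOn (fun z => t z ^ 2 * y z ^ 3 / 6) S := by fun_prop
  exact (h1.sub h2).add h3

lemma FH_contOn {B T a1 a2 b1 b2 m1 m2 PB PT p1 p2 q1 q2 t : Z → ℝ}
    (hB : ContinuousOn B S) (hT : ContinuousOn T S) (ha1 : ContinuousOn a1 S)
    (ha2 : ContinuousOn a2 S) (hb1 : ContinuousOn b1 S) (hb2 : ContinuousOn b2 S)
    (hm1 : ContinuousOn m1 S) (hm2 : ContinuousOn m2 S) (hPB : ContinuousOn PB S)
    (hPT : ContinuousOn PT S) (hp1 : ContinuousOn p1 S) (hp2 : ContinuousOn p2 S)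
    (hq1 : ContinuousOn q1 S) (hq2 : ContinuousOn q2 S) (ht : ContinuousOn t S)
    (h0 : ∀ z ∈ S, 0 < B z) (h1 : ∀ z ∈ S, B z < a1 z) (h2 : ∀ z ∈ S, a1 z < a2 z)
    (h3 : ∀ z ∈ S, a2 z < T z) (h4 : ∀ z ∈ S, B z < b2 z) (h5 : ∀ z ∈ S, b2 z < b1 z)
    (h6 : ∀ z ∈ S, b1 z < T z) :
    ContinuousOn (fun z => FH (B z) (T z) (a1 z) (a2 z) (b1 z) (b2 z) (m1 z) (m2 z) (PB z) (PT z)
      (p1 z) (p2 z) (q1 z) (q2 z) (t z)) S := by
  have pa1 : ∀ z ∈ S, 0 < a1 z := fun z hz => (h0 z hz).trans (h1 z hz)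
  have pa2 : ∀ z ∈ S, 0 < a2 z := fun z hz => (pa1 z hz).trans (h2 z hz)
  have pT : ∀ z ∈ S, 0 < T z := fun z hz => (pa2 z hz).trans (h3 z hz)
  have pb2 : ∀ z ∈ S, 0 < b2 z := fun z hz => (h0 z hz).trans (h4 z hz)
  have pb1 : ∀ z ∈ S, 0 < b1 z := fun z hz => (pb2 z hz).trans (h5 z hz)
  have sq : ∀ {u v : ℝ}, 0 < u → u < v → (v ^ 2 - u ^ 2) / 2 ≠ 0 := by
    intro u v hu hv
    have : 0 < (v - u) * (v + u) := mul_pos (by linarith) (by linarith)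
    have : 0 < (v ^ 2 - u ^ 2) / 2 := by nlinarith
    exact this.ne'
  have div1 : ∀ {u v f g : Z → ℝ}, ContinuousOn u S → ContinuousOn v S → ContinuousOn f S →
      ContinuousOn g S → (∀ z ∈ S, 0 < u z) → (∀ z ∈ S, u z < v z) →
      ContinuousOn (fun z => (f z - g z) ^ 2 / ((v z ^ 2 - u z ^ 2) / 2)) S := by
    intro u v f g hu hv hf hg h1 h2
    exact ContinuousOn.div (by fun_prop) (by fun_prop) fun z hz => sq (h1 z hz) (h2 z hz)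
  unfold FH
  have w0 : ContinuousOn (fun z => (m1 z * (2 * (T z - B z) - ((a1 z - B z) + (T z - b1 z))) +
    m2 z * (2 * (T z - B z) - ((a2 z - B z) + (T z - b2 z)))) / 2) S := by fun_prop
  have w1 : ContinuousOn (fun z => (m1 z * ((a1 z - B z) + (T z - b1 z)) +
    m2 z * (2 * (T z - B z) - ((a2 z - B z) + (T z - b2 z)))) / 2) S := by fun_prop
  have w2 : ContinuousOn (fun z => (m1 z * ((a1 z - B z) + (T z - b1 z)) +
    m2 z * ((a2 z - B z) + (T z - b2 z))) / 2) S := by fun_prop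
  have e1 := w0.mul (div1 hB ha1 hp1 hPB h0 h1)
  have e2 := w1.mul (div1 ha1 ha2 hp2 hp1 pa1 h2)
  have e3 := w2.mul (div1 ha2 hT hPT hp2 pa2 h3)
  have e4 := w2.mul (div1 hB hb2 hq2 hPB h0 h4)
  have e5 := w1.mul (div1 hb2 hb1 hq1 hq2 pb2 h5)
  have e6 := w0.mul (div1 hb1 hT hPT hq1 pb1 h6)
  have t1 := Thh_contOn hB hPB ht fun z hz => (h0 z hz).ne'
  have t2 := Thh_contOn hT hPT ht fun z hz => (pT z hz).ne'
  have t3 := Thh_contOn ha1 hp1 ht fun z hz => (pa1 z hz).ne'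
  have t4 := Thh_contOn hb1 hq1 ht fun z hz => (pb1 z hz).ne'
  have t5 := Thh_contOn ha2 hp2 ht fun z hz => (pa2 z hz).ne'
  have t6 := Thh_contOn hb2 hq2 ht fun z hz => (pb2 z hz).ne'
  have e7 := hm1.mul (((t1.add t2).sub t3).sub t4)
  have e8 := hm2.mul (((t1.add t2).sub t5).sub t6)
  have c1 : ContinuousOn (fun z => (m1 z * (a1 z + b1 z - B z - T z) +
    m2 z * (a2 z + b2 z - B z - T z))) S := by fun_prop
  have d1 : ContinuousOn (fun z => -(2 / (B z + T z))) S :=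
    (ContinuousOn.div continuousOn_const (hB.add hT)
      fun z hz => (add_pos (h0 z hz) (pT z hz)).ne').neg
  have d2 : ContinuousOn (fun z => PT z ^ 2 / T z) S :=
    ContinuousOn.div (by fun_prop) hT fun z hz => (pT z hz).ne'
  have d3 : ContinuousOn (fun z => PB z ^ 2 / B z) S :=
    ContinuousOn.div (by fun_prop) hB fun z hz => (h0 z hz).ne'
  have d4 : ContinuousOn (fun z => 2 / (3 * (B z + T z) ^ 2)) S :=
    ContinuousOn.div continuousOn_const (by fun_prop)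
      fun z hz => by have := add_pos (h0 z hz) (pT z hz); positivity
  have d5 : ContinuousOn (fun z => (PT z - PB z) ^ 2) S := by fun_prop
  have d6 : ContinuousOn (fun z => t z ^ 2 * (T z ^ 2 + T z * B z + B z ^ 2) / 6) S := by fun_prop
  have e9 := (((d1.mul (d2.add d3)).add (d4.mul d5)).sub d6).mul c1
  exact (((((((e1.add e2).add e3).add e4).add e5).add e6).add e7).add e8).add e9

end


/-- the value of `p1` forced by the closure -/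
noncomputable def el (B T a1 a2 b1 b2 m1 m2 PB PT q1 p2 q2 t : ℝ) : ℝ :=
  PB + PT - q1 - m2 / m1 * (p2 + q2 - PB - PT) +
    t * ((B + T) / (4 * m1)) * (m1 * (a1 + b1 - B - T) + m2 * (a2 + b2 - B - T))

lemma el_eq {B T a1 a2 b1 b2 m1 m2 PB PT p1 q1 p2 q2 t : ℝ} (hm : m1 ≠ 0)
    (h : m1 * (p1 + q1 - PB - PT - t * ((B + T) / 4) * (a1 + b1 - B - T)) +
      m2 * (p2 + q2 - PB - PT - t * ((B + T) / 4) * (a2 + b2 - B - T)) = 0) :
    p1 = el B T a1 a2 b1 b2 m1 m2 PB PT q1 p2 q2 t := by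
  unfold el
  field_simp
  field_simp at h
  linarith

lemma el_closure {B T a1 a2 b1 b2 m1 m2 PB PT q1 p2 q2 t : ℝ} (hm : m1 ≠ 0) :
    m1 * (el B T a1 a2 b1 b2 m1 m2 PB PT q1 p2 q2 t + q1 - PB - PT -
      t * ((B + T) / 4) * (a1 + b1 - B - T)) +
      m2 * (p2 + q2 - PB - PT - t * ((B + T) / 4) * (a2 + b2 - B - T)) = 0 := by
  unfold el
  field_simp
  ring

/-- positivity at the base point -/
lemma base_pos (y : Fin 6 → ℝ) (hy : y ≠ 0) :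
    0 < FH 1 4 2 3 3 2 1 1 (y 0) (y 1) (el 1 4 2 3 3 2 1 1 (y 0) (y 1) (y 2) (y 3) (y 4) (y 5))
      (y 3) (y 2) (y 4) (y 5) := by
  obtain ⟨y0, h0⟩ : ∃ z, z = y 0 := ⟨_, rfl⟩
  obtain ⟨y1, h1⟩ : ∃ z, z = y 1 := ⟨_, rfl⟩
  obtain ⟨y2, h2⟩ : ∃ z, z = y 2 := ⟨_, rfl⟩
  obtain ⟨y3, h3⟩ : ∃ z, z = y 3 := ⟨_, rfl⟩
  obtain ⟨y4, h4⟩ : ∃ z, z = y 4 := ⟨_, rfl⟩
  obtain ⟨y5, h5⟩ : ∃ z, z = y 5 := ⟨_, rfl⟩
  rw [← h0, ← h1, ← h2, ← h3, ← h4, ← h5]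
  have key : FH 1 4 2 3 3 2 1 1 y0 y1 (el 1 4 2 3 3 2 1 1 y0 y1 y2 y3 y4 y5) y3 y2 y4 y5 =
      (36/5) * ((1) * y0 + (4/9) * y1 + (-2/9) * y2 + (-4/9) * y3 + (-1/2) * y4 + (5/18) * y5) ^ 2 + (535/63) * ((1) * y1 + (-236/535) * y2 + (-292/535) * y3 + (-126/535) * y4 + (-308/535) * y5) ^ 2 + (8791/11235) * ((1) * y2 + (-1749/8791) * y3 + (-7665/8791) * y4 + (-8001/8791) * y5) ^ 2 + (53744/131865) * ((1) * y3 + (-3747/6718) * y4 + (-15183/6718) * y5) ^ 2 + (2040/3359) * ((1) * y4 + (-36/17) * y5) ^ 2 + (20/17) * ((1) * y5) ^ 2 := by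
    unfold FH el Thh
    ring
  rw [key]
  by_contra hcon
  push Not at hcon
  have s0 : 0 ≤ ((1) * y0 + (4/9) * y1 + (-2/9) * y2 + (-4/9) * y3 + (-1/2) * y4 + (5/18) * y5) ^ 2 := sq_nonneg _
  have s1 : 0 ≤ ((1) * y1 + (-236/535) * y2 + (-292/535) * y3 + (-126/535) * y4 + (-308/535) * y5) ^ 2 := sq_nonneg _
  have s2 : 0 ≤ ((1) * y2 + (-1749/8791) * y3 + (-7665/8791) * y4 + (-8001/8791) * y5) ^ 2 := sq_nonneg _
  have s3 : 0 ≤ ((1) * y3 + (-3747/6718) * y4 + (-15183/6718) * y5) ^ 2 := sq_nonneg _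
  have s4 : 0 ≤ ((1) * y4 + (-36/17) * y5) ^ 2 := sq_nonneg _
  have s5 : 0 ≤ ((1) * y5) ^ 2 := sq_nonneg _
  have z0 : ((1) * y0 + (4/9) * y1 + (-2/9) * y2 + (-4/9) * y3 + (-1/2) * y4 + (5/18) * y5) = 0 := by
    have : ((1) * y0 + (4/9) * y1 + (-2/9) * y2 + (-4/9) * y3 + (-1/2) * y4 + (5/18) * y5) ^ 2 = 0 := by linarith
    exact pow_eq_zero_iff (two_ne_zero) |>.mp this
  have z1 : ((1) * y1 + (-236/535) * y2 + (-292/535) * y3 + (-126/535) * y4 + (-308/535) * y5) = 0 := by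
    have : ((1) * y1 + (-236/535) * y2 + (-292/535) * y3 + (-126/535) * y4 + (-308/535) * y5) ^ 2 = 0 := by linarith
    exact pow_eq_zero_iff (two_ne_zero) |>.mp this
  have z2 : ((1) * y2 + (-1749/8791) * y3 + (-7665/8791) * y4 + (-8001/8791) * y5) = 0 := by
    have : ((1) * y2 + (-1749/8791) * y3 + (-7665/8791) * y4 + (-8001/8791) * y5) ^ 2 = 0 := by linarith
    exact pow_eq_zero_iff (two_ne_zero) |>.mp this
  have z3 : ((1) * y3 + (-3747/6718) * y4 + (-15183/6718) * y5) = 0 := by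
    have : ((1) * y3 + (-3747/6718) * y4 + (-15183/6718) * y5) ^ 2 = 0 := by linarith
    exact pow_eq_zero_iff (two_ne_zero) |>.mp this
  have z4 : ((1) * y4 + (-36/17) * y5) = 0 := by
    have : ((1) * y4 + (-36/17) * y5) ^ 2 = 0 := by linarith
    exact pow_eq_zero_iff (two_ne_zero) |>.mp this
  have z5 : ((1) * y5) = 0 := by
    have : ((1) * y5) ^ 2 = 0 := by linarith
    exact pow_eq_zero_iff (two_ne_zero) |>.mp this
  have e5 : y5 = 0 := by linarith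
  have e4 : y4 = 0 := by rw [e5] at z4; linarith
  have e3 : y3 = 0 := by rw [e5, e4] at z3; linarith
  have e2 : y2 = 0 := by rw [e5, e4, e3] at z2; linarith
  have e1 : y1 = 0 := by rw [e5, e4, e3, e2] at z1; linarith
  have e0 : y0 = 0 := by rw [e5, e4, e3, e2, e1] at z0; linarith
  apply hy
  funext i
  fin_cases i
  · exact h0.symm.trans e0
  · exact h1.symm.trans e1
  · exact h2.symm.trans e2
  · exact h3.symm.trans e3
  · exact h4.symm.trans e4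
  · exact h5.symm.trans e5


/-- the linear system of a degenerate vector has only the trivial solution -/
def Ker (B T a1 a2 b1 b2 m1 m2 : ℝ) : Prop :=
  ∀ PB PT p1 p2 q1 q2 t lam : ℝ,
    m1 * (p1 + q1 - PB - PT - t * ((B + T) / 4) * (a1 + b1 - B - T)) +
      m2 * (p2 + q2 - PB - PT - t * ((B + T) / 4) * (a2 + b2 - B - T)) = 0 →
    FP B T a1 a2 b1 b2 m1 m2 PB PT p1 p2 q1 q2 t 0 0 1 0 0 0 0 = -(m1 * lam) →
    FP B T a1 a2 b1 b2 m1 m2 PB PT p1 p2 q1 q2 t 0 0 0 1 0 0 0 = -(m2 * lam) →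
    FP B T a1 a2 b1 b2 m1 m2 PB PT p1 p2 q1 q2 t 0 0 0 0 1 0 0 = -(m1 * lam) →
    FP B T a1 a2 b1 b2 m1 m2 PB PT p1 p2 q1 q2 t 0 0 0 0 0 1 0 = -(m2 * lam) →
    FP B T a1 a2 b1 b2 m1 m2 PB PT p1 p2 q1 q2 t 1 0 0 0 0 0 0 = (m1 + m2) * lam →
    FP B T a1 a2 b1 b2 m1 m2 PB PT p1 p2 q1 q2 t 0 1 0 0 0 0 0 = (m1 + m2) * lam →
    FP B T a1 a2 b1 b2 m1 m2 PB PT p1 p2 q1 q2 t 0 0 0 0 0 0 1 =
      (B + T) / 4 * (m1 * (a1 + b1 - B - T) + m2 * (a2 + b2 - B - T)) * lam →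
    PB = 0 ∧ PT = 0 ∧ p2 = 0 ∧ q1 = 0 ∧ q2 = 0 ∧ t = 0

/-- the polar form is linear in the second argument -/
lemma FP_lin (B T a1 a2 b1 b2 m1 m2 PB PT p1 p2 q1 q2 t PB' PT' p1' p2' q1' q2' t' : ℝ) :
    FP B T a1 a2 b1 b2 m1 m2 PB PT p1 p2 q1 q2 t PB' PT' p1' p2' q1' q2' t' =
    PB' * FP B T a1 a2 b1 b2 m1 m2 PB PT p1 p2 q1 q2 t 1 0 0 0 0 0 0 +
    PT' * FP B T a1 a2 b1 b2 m1 m2 PB PT p1 p2 q1 q2 t 0 1 0 0 0 0 0 +
    p1' * FP B T a1 a2 b1 b2 m1 m2 PB PT p1 p2 q1 q2 t 0 0 1 0 0 0 0 +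
    p2' * FP B T a1 a2 b1 b2 m1 m2 PB PT p1 p2 q1 q2 t 0 0 0 1 0 0 0 +
    q1' * FP B T a1 a2 b1 b2 m1 m2 PB PT p1 p2 q1 q2 t 0 0 0 0 1 0 0 +
    q2' * FP B T a1 a2 b1 b2 m1 m2 PB PT p1 p2 q1 q2 t 0 0 0 0 0 1 0 +
    t' * FP B T a1 a2 b1 b2 m1 m2 PB PT p1 p2 q1 q2 t 0 0 0 0 0 0 1 := by
  unfold FP Tpol
  ring

lemma el_add (B T a1 a2 b1 b2 m1 m2 PB PT q1 p2 q2 t PB' PT' q1' p2' q2' t' e : ℝ) :
    el B T a1 a2 b1 b2 m1 m2 (PB + e * PB') (PT + e * PT') (q1 + e * q1') (p2 + e * p2')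
      (q2 + e * q2') (t + e * t') =
    el B T a1 a2 b1 b2 m1 m2 PB PT q1 p2 q2 t + e * el B T a1 a2 b1 b2 m1 m2 PB' PT' q1' p2' q2' t' := by
  unfold el
  ring

lemma el_smul (B T a1 a2 b1 b2 m1 m2 PB PT q1 p2 q2 t c : ℝ) :
    el B T a1 a2 b1 b2 m1 m2 (c * PB) (c * PT) (c * q1) (c * p2) (c * q2) (c * t) =
    c * el B T a1 a2 b1 b2 m1 m2 PB PT q1 p2 q2 t := by
  unfold el
  ring

/-- **path theorem**: data depending continuously on `s ∈ [0,1]`, strictly ordered, nondegenerate for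
`0 < s < 1` and equal to the base point at `s = 0`: the functional is nonnegative at `s = 1` -/
theorem path_nonneg {B T a1 a2 b1 b2 m1 m2 : ℝ → ℝ} (hB : Continuous B) (hT : Continuous T)
    (ha1 : Continuous a1) (ha2 : Continuous a2) (hb1 : Continuous b1) (hb2 : Continuous b2)
    (hm1 : Continuous m1) (hm2 : Continuous m2)
    (h0 : ∀ s ∈ Icc (0 : ℝ) 1, 0 < B s) (h1 : ∀ s ∈ Icc (0 : ℝ) 1, B s < a1 s)
    (h2 : ∀ s ∈ Icc (0 : ℝ) 1, a1 s < a2 s) (h3 : ∀ s ∈ Icc (0 : ℝ) 1, a2 s < T s)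
    (h4 : ∀ s ∈ Icc (0 : ℝ) 1, B s < b2 s) (h5 : ∀ s ∈ Icc (0 : ℝ) 1, b2 s < b1 s)
    (h6 : ∀ s ∈ Icc (0 : ℝ) 1, b1 s < T s) (h7 : ∀ s ∈ Icc (0 : ℝ) 1, 0 < m1 s)
    (eB : B 0 = 1) (eT : T 0 = 4) (ea1 : a1 0 = 2) (ea2 : a2 0 = 3) (eb1 : b1 0 = 3)
    (eb2 : b2 0 = 2) (em1 : m1 0 = 1) (em2 : m2 0 = 1)
    (hk : ∀ s, 0 < s → s < 1 → Ker (B s) (T s) (a1 s) (a2 s) (b1 s) (b2 s) (m1 s) (m2 s))
    {PB PT p1 p2 q1 q2 t : ℝ}
    (hcl : m1 1 * (p1 + q1 - PB - PT - t * ((B 1 + T 1) / 4) * (a1 1 + b1 1 - B 1 - T 1)) +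
      m2 1 * (p2 + q2 - PB - PT - t * ((B 1 + T 1) / 4) * (a2 1 + b2 1 - B 1 - T 1)) = 0) :
    0 ≤ FH (B 1) (T 1) (a1 1) (a2 1) (b1 1) (b2 1) (m1 1) (m2 1) PB PT p1 p2 q1 q2 t := by
  have i0 : (0 : ℝ) ∈ Icc (0 : ℝ) 1 := ⟨le_rfl, zero_le_one⟩
  have i1 : (1 : ℝ) ∈ Icc (0 : ℝ) 1 := ⟨zero_le_one, le_rfl⟩
  have main := psd_path (n := 6)
    (fun s y => FH (B s) (T s) (a1 s) (a2 s) (b1 s) (b2 s) (m1 s) (m2 s) (y 0) (y 1)
      (el (B s) (T s) (a1 s) (a2 s) (b1 s) (b2 s) (m1 s) (m2 s) (y 0) (y 1) (y 2) (y 3) (y 4) (y 5))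
      (y 3) (y 2) (y 4) (y 5))
    (fun s y z => FP (B s) (T s) (a1 s) (a2 s) (b1 s) (b2 s) (m1 s) (m2 s) (y 0) (y 1)
      (el (B s) (T s) (a1 s) (a2 s) (b1 s) (b2 s) (m1 s) (m2 s) (y 0) (y 1) (y 2) (y 3) (y 4) (y 5))
      (y 3) (y 2) (y 4) (y 5) (z 0) (z 1)
      (el (B s) (T s) (a1 s) (a2 s) (b1 s) (b2 s) (m1 s) (m2 s) (z 0) (z 1) (z 2) (z 3) (z 4) (z 5))
      (z 3) (z 2) (z 4) (z 5)) ?_ ?_ ?_ ?_ ?_ ![PB, PT, q1, p2, q2, t]
  · have e := el_eq (h7 1 i1).ne' hcl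
    have : FH (B 1) (T 1) (a1 1) (a2 1) (b1 1) (b2 1) (m1 1) (m2 1) PB PT
      (el (B 1) (T 1) (a1 1) (a2 1) (b1 1) (b2 1) (m1 1) (m2 1) PB PT q1 p2 q2 t) p2 q1 q2 t =
      FH (B 1) (T 1) (a1 1) (a2 1) (b1 1) (b2 1) (m1 1) (m2 1) PB PT p1 p2 q1 q2 t := by
      rw [← e]
    rw [← this]
    exact main
  · -- continuity
    have cy : ∀ i : Fin 6, ContinuousOn (fun p : ℝ × (Fin 6 → ℝ) => p.2 i)
        (Icc (0:ℝ) 1 ×ˢ (univ : Set (Fin 6 → ℝ))) := fun i => by fun_prop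
    have cf : ∀ {f : ℝ → ℝ}, Continuous f → ContinuousOn (fun p : ℝ × (Fin 6 → ℝ) => f p.1)
        (Icc (0:ℝ) 1 ×ˢ (univ : Set (Fin 6 → ℝ))) := fun hf => by fun_prop
    have cel : ContinuousOn (fun p : ℝ × (Fin 6 → ℝ) =>
        el (B p.1) (T p.1) (a1 p.1) (a2 p.1) (b1 p.1) (b2 p.1) (m1 p.1) (m2 p.1) (p.2 0) (p.2 1)
          (p.2 2) (p.2 3) (p.2 4) (p.2 5)) (Icc (0:ℝ) 1 ×ˢ (univ : Set (Fin 6 → ℝ))) := by
      unfold el
      have d1 : ContinuousOn (fun p : ℝ × (Fin 6 → ℝ) => m2 p.1 / m1 p.1)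
          (Icc (0:ℝ) 1 ×ˢ (univ : Set (Fin 6 → ℝ))) :=
        ContinuousOn.div (cf hm2) (cf hm1) fun p hp => (h7 p.1 hp.1).ne'
      have d2 : ContinuousOn (fun p : ℝ × (Fin 6 → ℝ) => (B p.1 + T p.1) / (4 * m1 p.1))
          (Icc (0:ℝ) 1 ×ˢ (univ : Set (Fin 6 → ℝ))) :=
        ContinuousOn.div ((cf hB).add (cf hT)) (continuousOn_const.mul (cf hm1))
          fun p hp => (mul_pos (by norm_num) (h7 p.1 hp.1)).ne'
      have d3 : ContinuousOn (fun p : ℝ × (Fin 6 → ℝ) => (m1 p.1 * (a1 p.1 + b1 p.1 - B p.1 - T p.1) +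
          m2 p.1 * (a2 p.1 + b2 p.1 - B p.1 - T p.1))) (Icc (0:ℝ) 1 ×ˢ (univ : Set (Fin 6 → ℝ))) := by
        fun_prop
      have e1 : ContinuousOn (fun p : ℝ × (Fin 6 → ℝ) => p.2 0 + p.2 1 - p.2 2)
        (Icc (0:ℝ) 1 ×ˢ (univ : Set (Fin 6 → ℝ))) := by fun_prop
      have e2 : ContinuousOn (fun p : ℝ × (Fin 6 → ℝ) => (p.2 3 + p.2 4 - p.2 0 - p.2 1))
        (Icc (0:ℝ) 1 ×ˢ (univ : Set (Fin 6 → ℝ))) := by fun_prop
      exact (e1.sub (d1.mul e2)).add (((cy 5).mul d2).mul d3)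
    exact FH_contOn (cf hB) (cf hT) (cf ha1) (cf ha2) (cf hb1) (cf hb2) (cf hm1) (cf hm2) (cy 0)
      (cy 1) cel (cy 3) (cy 2) (cy 4) (cy 5) (fun z hz => h0 z.1 hz.1) (fun z hz => h1 z.1 hz.1)
      (fun z hz => h2 z.1 hz.1) (fun z hz => h3 z.1 hz.1) (fun z hz => h4 z.1 hz.1)
      (fun z hz => h5 z.1 hz.1) (fun z hz => h6 z.1 hz.1)
  · intro s c x
    simp only [Pi.smul_apply, smul_eq_mul]
    rw [el_smul, FH_smul]
  · intro s x y e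
    simp only [Pi.add_apply, Pi.smul_apply, smul_eq_mul]
    rw [el_add, FH_add]
  · intro x hx
    simp only [eB, eT, ea1, ea2, eb1, eb2, em1, em2]
    exact base_pos x hx
  · intro s hs0 hs1 x hx
    have his : s ∈ Icc (0 : ℝ) 1 := ⟨hs0, hs1.le⟩
    rcases hs0.lt_or_eq with hs | hs
    · have hm := (h7 s his).ne'
      obtain ⟨P1, hP1⟩ : ∃ z, z = el (B s) (T s) (a1 s) (a2 s) (b1 s) (b2 s) (m1 s) (m2 s) (x 0) (x 1)
        (x 2) (x 3) (x 4) (x 5) := ⟨_, rfl⟩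
      simp only [← hP1] at hx
      obtain ⟨D, hD⟩ : ∃ D, D = FP (B s) (T s) (a1 s) (a2 s) (b1 s) (b2 s) (m1 s) (m2 s) (x 0) (x 1)
        P1 (x 3) (x 2) (x 4) (x 5) 0 0 1 0 0 0 0 := ⟨_, rfl⟩
      have r := hk s hs hs1 (x 0) (x 1) P1 (x 3) (x 2) (x 4) (x 5) (-(D / m1 s)) ?_ ?_ ?_ ?_ ?_ ?_ ?_ ?_
      · obtain ⟨r0, r1, r2, r3, r4, r5⟩ := r
        funext i
        fin_cases i
        · exact r0
        · exact r1
        · exact r3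
        · exact r2
        · exact r4
        · exact r5
      · rw [hP1]
        exact el_closure hm
      · rw [← hD]
        field_simp
      · have h := hx ![0, 0, 0, 1, 0, 0]
        rw [FP_lin] at h
        simp [el, ← hD] at h
        field_simp at h ⊢
        linarith
      · have h := hx ![0, 0, 1, 0, 0, 0]
        rw [FP_lin] at h
        simp [el, ← hD] at h
        field_simp at h ⊢
        linarith
      · have h := hx ![0, 0, 0, 0, 1, 0]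
        rw [FP_lin] at h
        simp [el, ← hD] at h
        field_simp at h ⊢
        linarith
      · have h := hx ![1, 0, 0, 0, 0, 0]
        rw [FP_lin] at h
        simp [el, ← hD] at h
        field_simp at h ⊢
        linarith
      · have h := hx ![0, 1, 0, 0, 0, 0]
        rw [FP_lin] at h
        simp [el, ← hD] at h
        field_simp at h ⊢
        linarith
      · have h := hx ![0, 0, 0, 0, 0, 1]
        rw [FP_lin] at h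
        simp [el, ← hD] at h
        field_simp at h ⊢
        linarith
    · -- at the base point
      subst hs
      by_contra hne
      have hb := base_pos x hne
      have h := hx x
      simp only [eB, eT, ea1, ea2, eb1, eb2, em1, em2] at h
      have : ∀ PB PT p1 p2 q1 q2 t : ℝ, FP 1 4 2 3 3 2 1 1 PB PT p1 p2 q1 q2 t PB PT p1 p2 q1 q2 t =
        FH 1 4 2 3 3 2 1 1 PB PT p1 p2 q1 q2 t := by
        intro PB PT p1 p2 q1 q2 t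
        unfold FP FH Thh Tpol
        ring
      rw [this] at h
      linarith

end Pool.G1.KB
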