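import Pool.Agent.Work.MP_b5407d_g1.Pl_KB1

/-!
# G1, LINE T: the four chambers
-/

set_option autoImplicit false

open Set Filter Topology

namespace Pool.G1.KB

/-- chamber A -/
def KerA (B x1 x2 x3 x4 x5 t : ℝ) : Prop :=
  Ker (B) (B + (x1 + x4) + (x3 + x5) + (x2)) (B + (x1 + x4)) (B + (x1 + x4) + (x3 + x5)) (B + (x2 + x4 + x5) + (x3)) (B + (x2 + x4 + x5)) (1) (t)

theorem nonneg_A (hk : ∀ B x1 x2 x3 x4 x5 t : ℝ, 0 < B → 0 < x1 → 0 < x2 → 0 < x3 → 0 < x4 → 0 < x5 →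
      0 < t → KerA B x1 x2 x3 x4 x5 t) {B x1 x2 x3 x4 x5 t : ℝ} (hB : 0 < B) (h1 : 0 < x1)
    (h2 : 0 < x2) (h3 : 0 < x3) (h4 : 0 ≤ x4) (h5 : 0 ≤ x5) (ht : 0 < t)
    {PB PT p1 p2 q1 q2 u : ℝ}
    (hcl : (1) * (p1 + q1 - PB - PT - u * (((B) + (B + (x1 + x4) + (x3 + x5) + (x2))) / 4) * ((B + (x1 + x4)) + (B + (x2 + x4 + x5) + (x3)) - (B) - (B + (x1 + x4) + (x3 + x5) + (x2)))) +
      (t) * (p2 + q2 - PB - PT - u * (((B) + (B + (x1 + x4) + (x3 + x5) + (x2))) / 4) * ((B + (x1 + x4) + (x3 + x5)) + (B + (x2 + x4 + x5)) - (B) - (B + (x1 + x4) + (x3 + x5) + (x2)))) = 0) :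
    0 ≤ FH (B) (B + (x1 + x4) + (x3 + x5) + (x2)) (B + (x1 + x4)) (B + (x1 + x4) + (x3 + x5)) (B + (x2 + x4 + x5) + (x3)) (B + (x2 + x4 + x5)) (1) (t) PB PT p1 p2 q1 q2 u := by
  have pp : ∀ {z : ℝ}, 0 < z → ∀ s ∈ Icc (0 : ℝ) 1, 0 < (1 - s) + s * z := by
    intro z hz s hs
    rcases hs.1.lt_or_eq with h | h
    · have := mul_pos h hz
      linarith [hs.2]
    · rw [← h]; norm_num
  have pn : ∀ {z : ℝ}, 0 ≤ z → ∀ s ∈ Icc (0 : ℝ) 1, 0 ≤ s * z + s * (1 - s) := by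
    intro z hz s hs
    have := mul_nonneg hs.1 hz
    have := mul_nonneg hs.1 (by linarith [hs.2] : (0:ℝ) ≤ 1 - s)
    linarith
  have po : ∀ {z : ℝ}, 0 ≤ z → ∀ s, 0 < s → s < 1 → 0 < s * z + s * (1 - s) := by
    intro z hz s h1 h2
    have := mul_nonneg h1.le hz
    have := mul_pos h1 (by linarith : (0:ℝ) < 1 - s)
    linarith
  have pt : ∀ s ∈ Icc (0 : ℝ) 1, ∀ {z : ℝ}, 0 ≤ z → 0 ≤ ((1 - s) + s * t) * (s * z + s * (1 - s)) :=
    fun s hs z hz => mul_nonneg (pp ht s hs).le (pn hz s hs)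
  have key := path_nonneg (B := fun s => ((1 - s) + s * B)) (T := fun s => ((1 - s) + s * B) + (((1 - s) + s * x1) + (s * x4 + s * (1 - s))) + (((1 - s) + s * x3) + (s * x5 + s * (1 - s))) + (((1 - s) + s * x2))) (a1 := fun s => ((1 - s) + s * B) + (((1 - s) + s * x1) + (s * x4 + s * (1 - s)))) (a2 := fun s => ((1 - s) + s * B) + (((1 - s) + s * x1) + (s * x4 + s * (1 - s))) + (((1 - s) + s * x3) + (s * x5 + s * (1 - s)))) (b1 := fun s => ((1 - s) + s * B) + (((1 - s) + s * x2) + (s * x4 + s * (1 - s)) + (s * x5 + s * (1 - s))) + (((1 - s) + s * x3))) (b2 := fun s => ((1 - s) + s * B) + (((1 - s) + s * x2) + (s * x4 + s * (1 - s)) + (s * x5 + s * (1 - s)))) (m1 := fun s => 1) (m2 := fun s => ((1 - s) + s * t))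
    (by fun_prop) (by fun_prop) (by fun_prop) (by fun_prop) (by fun_prop) (by fun_prop)
    (by fun_prop) (by fun_prop)
    (fun s hs => pp hB s hs)
    (fun s hs => by linarith [pp h1 s hs, pp h2 s hs, pp h3 s hs, pn h4 s hs, pn h5 s hs, pt s hs h4, pt s hs h5])
    (fun s hs => by linarith [pp h1 s hs, pp h2 s hs, pp h3 s hs, pn h4 s hs, pn h5 s hs, pt s hs h4, pt s hs h5])
    (fun s hs => by linarith [pp h1 s hs, pp h2 s hs, pp h3 s hs, pn h4 s hs, pn h5 s hs, pt s hs h4, pt s hs h5])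
    (fun s hs => by linarith [pp h1 s hs, pp h2 s hs, pp h3 s hs, pn h4 s hs, pn h5 s hs, pt s hs h4, pt s hs h5])
    (fun s hs => by linarith [pp h1 s hs, pp h2 s hs, pp h3 s hs, pn h4 s hs, pn h5 s hs, pt s hs h4, pt s hs h5])
    (fun s hs => by linarith [pp h1 s hs, pp h2 s hs, pp h3 s hs, pn h4 s hs, pn h5 s hs, pt s hs h4, pt s hs h5])
    (fun s hs => one_pos)
    (by norm_num) (by norm_num) (by norm_num) (by norm_num) (by norm_num) (by norm_num)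
    (by norm_num) (by norm_num)
    (fun s hs1 hs2 => hk _ _ _ _ _ _ _ (pp hB s ⟨hs1.le, hs2.le⟩) (pp h1 s ⟨hs1.le, hs2.le⟩)
      (pp h2 s ⟨hs1.le, hs2.le⟩) (pp h3 s ⟨hs1.le, hs2.le⟩) (po h4 s hs1 hs2) (po h5 s hs1 hs2)
      (pp ht s ⟨hs1.le, hs2.le⟩))
    (PB := PB) (PT := PT) (p1 := p1) (p2 := p2) (q1 := q1) (q2 := q2) (t := u) ?_
  · simpa using key
  · simpa using hcl

/-- chamber Bp -/
def KerBp (B x1 x2 x3 x4 x5 t : ℝ) : Prop :=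
  Ker (B) (B + (x1 + x4 + t * x5) + (x3) + (x2 + x5)) (B + (x1 + x4 + t * x5)) (B + (x1 + x4 + t * x5) + (x3)) (B + (x2) + (x3 + x4 + x5 + t * x5)) (B + (x2)) (1) (t)

theorem nonneg_Bp (hk : ∀ B x1 x2 x3 x4 x5 t : ℝ, 0 < B → 0 < x1 → 0 < x2 → 0 < x3 → 0 < x4 → 0 < x5 →
      0 < t → KerBp B x1 x2 x3 x4 x5 t) {B x1 x2 x3 x4 x5 t : ℝ} (hB : 0 < B) (h1 : 0 < x1)
    (h2 : 0 < x2) (h3 : 0 < x3) (h4 : 0 ≤ x4) (h5 : 0 ≤ x5) (ht : 0 < t)
    {PB PT p1 p2 q1 q2 u : ℝ}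
    (hcl : (1) * (p1 + q1 - PB - PT - u * (((B) + (B + (x1 + x4 + t * x5) + (x3) + (x2 + x5))) / 4) * ((B + (x1 + x4 + t * x5)) + (B + (x2) + (x3 + x4 + x5 + t * x5)) - (B) - (B + (x1 + x4 + t * x5) + (x3) + (x2 + x5)))) +
      (t) * (p2 + q2 - PB - PT - u * (((B) + (B + (x1 + x4 + t * x5) + (x3) + (x2 + x5))) / 4) * ((B + (x1 + x4 + t * x5) + (x3)) + (B + (x2)) - (B) - (B + (x1 + x4 + t * x5) + (x3) + (x2 + x5)))) = 0) :
    0 ≤ FH (B) (B + (x1 + x4 + t * x5) + (x3) + (x2 + x5)) (B + (x1 + x4 + t * x5)) (B + (x1 + x4 + t * x5) + (x3)) (B + (x2) + (x3 + x4 + x5 + t * x5)) (B + (x2)) (1) (t) PB PT p1 p2 q1 q2 u := by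
  have pp : ∀ {z : ℝ}, 0 < z → ∀ s ∈ Icc (0 : ℝ) 1, 0 < (1 - s) + s * z := by
    intro z hz s hs
    rcases hs.1.lt_or_eq with h | h
    · have := mul_pos h hz
      linarith [hs.2]
    · rw [← h]; norm_num
  have pn : ∀ {z : ℝ}, 0 ≤ z → ∀ s ∈ Icc (0 : ℝ) 1, 0 ≤ s * z + s * (1 - s) := by
    intro z hz s hs
    have := mul_nonneg hs.1 hz
    have := mul_nonneg hs.1 (by linarith [hs.2] : (0:ℝ) ≤ 1 - s)
    linarith
  have po : ∀ {z : ℝ}, 0 ≤ z → ∀ s, 0 < s → s < 1 → 0 < s * z + s * (1 - s) := by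
    intro z hz s h1 h2
    have := mul_nonneg h1.le hz
    have := mul_pos h1 (by linarith : (0:ℝ) < 1 - s)
    linarith
  have pt : ∀ s ∈ Icc (0 : ℝ) 1, ∀ {z : ℝ}, 0 ≤ z → 0 ≤ ((1 - s) + s * t) * (s * z + s * (1 - s)) :=
    fun s hs z hz => mul_nonneg (pp ht s hs).le (pn hz s hs)
  have key := path_nonneg (B := fun s => ((1 - s) + s * B)) (T := fun s => ((1 - s) + s * B) + (((1 - s) + s * x1) + (s * x4 + s * (1 - s)) + ((1 - s) + s * t) * (s * x5 + s * (1 - s))) + (((1 - s) + s * x3)) + (((1 - s) + s * x2) + (s * x5 + s * (1 - s)))) (a1 := fun s => ((1 - s) + s * B) + (((1 - s) + s * x1) + (s * x4 + s * (1 - s)) + ((1 - s) + s * t) * (s * x5 + s * (1 - s)))) (a2 := fun s => ((1 - s) + s * B) + (((1 - s) + s * x1) + (s * x4 + s * (1 - s)) + ((1 - s) + s * t) * (s * x5 + s * (1 - s))) + (((1 - s) + s * x3))) (b1 := fun s => ((1 - s) + s * B) + (((1 - s) + s * x2))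 + (((1 - s) + s * x3) + (s * x4 + s * (1 - s)) + (s * x5 + s * (1 - s)) + ((1 - s) + s * t) * (s * x5 + s * (1 - s)))) (b2 := fun s => ((1 - s) + s * B) + (((1 - s) + s * x2))) (m1 := fun s => 1) (m2 := fun s => ((1 - s) + s * t))
    (by fun_prop) (by fun_prop) (by fun_prop) (by fun_prop) (by fun_prop) (by fun_prop)
    (by fun_prop) (by fun_prop)
    (fun s hs => pp hB s hs)
    (fun s hs => by linarith [pp h1 s hs, pp h2 s hs, pp h3 s hs, pn h4 s hs, pn h5 s hs, pt s hs h4, pt s hs h5])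
    (fun s hs => by linarith [pp h1 s hs, pp h2 s hs, pp h3 s hs, pn h4 s hs, pn h5 s hs, pt s hs h4, pt s hs h5])
    (fun s hs => by linarith [pp h1 s hs, pp h2 s hs, pp h3 s hs, pn h4 s hs, pn h5 s hs, pt s hs h4, pt s hs h5])
    (fun s hs => by linarith [pp h1 s hs, pp h2 s hs, pp h3 s hs, pn h4 s hs, pn h5 s hs, pt s hs h4, pt s hs h5])
    (fun s hs => by linarith [pp h1 s hs, pp h2 s hs, pp h3 s hs, pn h4 s hs, pn h5 s hs, pt s hs h4, pt s hs h5])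
    (fun s hs => by linarith [pp h1 s hs, pp h2 s hs, pp h3 s hs, pn h4 s hs, pn h5 s hs, pt s hs h4, pt s hs h5])
    (fun s hs => one_pos)
    (by norm_num) (by norm_num) (by norm_num) (by norm_num) (by norm_num) (by norm_num)
    (by norm_num) (by norm_num)
    (fun s hs1 hs2 => hk _ _ _ _ _ _ _ (pp hB s ⟨hs1.le, hs2.le⟩) (pp h1 s ⟨hs1.le, hs2.le⟩)
      (pp h2 s ⟨hs1.le, hs2.le⟩) (pp h3 s ⟨hs1.le, hs2.le⟩) (po h4 s hs1 hs2) (po h5 s hs1 hs2)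
      (pp ht s ⟨hs1.le, hs2.le⟩))
    (PB := PB) (PT := PT) (p1 := p1) (p2 := p2) (q1 := q1) (q2 := q2) (t := u) ?_
  · simpa using key
  · simpa using hcl

/-- chamber Bm -/
def KerBm (B x1 x2 x3 x4 x5 t : ℝ) : Prop :=
  Ker (B) (B + (x1 + x4) + (x3) + (x2 + x5 + t * x4)) (B + (x1 + x4)) (B + (x1 + x4) + (x3)) (B + (x2) + (x3 + x4 + x5 + t * x4)) (B + (x2)) (t) (1)

theorem nonneg_Bm (hk : ∀ B x1 x2 x3 x4 x5 t : ℝ, 0 < B → 0 < x1 → 0 < x2 → 0 < x3 → 0 < x4 → 0 < x5 →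
      0 < t → KerBm B x1 x2 x3 x4 x5 t) {B x1 x2 x3 x4 x5 t : ℝ} (hB : 0 < B) (h1 : 0 < x1)
    (h2 : 0 < x2) (h3 : 0 < x3) (h4 : 0 ≤ x4) (h5 : 0 ≤ x5) (ht : 0 < t)
    {PB PT p1 p2 q1 q2 u : ℝ}
    (hcl : (t) * (p1 + q1 - PB - PT - u * (((B) + (B + (x1 + x4) + (x3) + (x2 + x5 + t * x4))) / 4) * ((B + (x1 + x4)) + (B + (x2) + (x3 + x4 + x5 + t * x4)) - (B) - (B + (x1 + x4) + (x3) + (x2 + x5 + t * x4)))) +
      (1) * (p2 + q2 - PB - PT - u * (((B) + (B + (x1 + x4) + (x3) + (x2 + x5 + t * x4))) / 4) * ((B + (x1 + x4) + (x3)) + (B + (x2)) - (B) - (B + (x1 + x4) + (x3) + (x2 + x5 + t * x4)))) = 0) :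
    0 ≤ FH (B) (B + (x1 + x4) + (x3) + (x2 + x5 + t * x4)) (B + (x1 + x4)) (B + (x1 + x4) + (x3)) (B + (x2) + (x3 + x4 + x5 + t * x4)) (B + (x2)) (t) (1) PB PT p1 p2 q1 q2 u := by
  have pp : ∀ {z : ℝ}, 0 < z → ∀ s ∈ Icc (0 : ℝ) 1, 0 < (1 - s) + s * z := by
    intro z hz s hs
    rcases hs.1.lt_or_eq with h | h
    · have := mul_pos h hz
      linarith [hs.2]
    · rw [← h]; norm_num
  have pn : ∀ {z : ℝ}, 0 ≤ z → ∀ s ∈ Icc (0 : ℝ) 1, 0 ≤ s * z + s * (1 - s) := by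
    intro z hz s hs
    have := mul_nonneg hs.1 hz
    have := mul_nonneg hs.1 (by linarith [hs.2] : (0:ℝ) ≤ 1 - s)
    linarith
  have po : ∀ {z : ℝ}, 0 ≤ z → ∀ s, 0 < s → s < 1 → 0 < s * z + s * (1 - s) := by
    intro z hz s h1 h2
    have := mul_nonneg h1.le hz
    have := mul_pos h1 (by linarith : (0:ℝ) < 1 - s)
    linarith
  have pt : ∀ s ∈ Icc (0 : ℝ) 1, ∀ {z : ℝ}, 0 ≤ z → 0 ≤ ((1 - s) + s * t) * (s * z + s * (1 - s)) :=
    fun s hs z hz => mul_nonneg (pp ht s hs).le (pn hz s hs)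
  have key := path_nonneg (B := fun s => ((1 - s) + s * B)) (T := fun s => ((1 - s) + s * B) + (((1 - s) + s * x1) + (s * x4 + s * (1 - s))) + (((1 - s) + s * x3)) + (((1 - s) + s * x2) + (s * x5 + s * (1 - s)) + ((1 - s) + s * t) * (s * x4 + s * (1 - s)))) (a1 := fun s => ((1 - s) + s * B) + (((1 - s) + s * x1) + (s * x4 + s * (1 - s)))) (a2 := fun s => ((1 - s) + s * B) + (((1 - s) + s * x1) + (s * x4 + s * (1 - s))) + (((1 - s) + s * x3))) (b1 := fun s => ((1 - s) + s * B) + (((1 - s) + s * x2)) + (((1 - s) + s * x3) + (s * x4 + s * (1 - s)) + (s * x5 + s * (1 - s)) + ((1 - s) + s * t) * (s * x4 + s * (1 - s)))) (b2 := fun s => ((1 - s) + s * B) + (((1 - s) + s * x2))) (m1 := fun s => ((1 - s) + s * t)) (m2 := fun s => 1)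
    (by fun_prop) (by fun_prop) (by fun_prop) (by fun_prop) (by fun_prop) (by fun_prop)
    (by fun_prop) (by fun_prop)
    (fun s hs => pp hB s hs)
    (fun s hs => by linarith [pp h1 s hs, pp h2 s hs, pp h3 s hs, pn h4 s hs, pn h5 s hs, pt s hs h4, pt s hs h5])
    (fun s hs => by linarith [pp h1 s hs, pp h2 s hs, pp h3 s hs, pn h4 s hs, pn h5 s hs, pt s hs h4, pt s hs h5])
    (fun s hs => by linarith [pp h1 s hs, pp h2 s hs, pp h3 s hs, pn h4 s hs, pn h5 s hs, pt s hs h4, pt s hs h5])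
    (fun s hs => by linarith [pp h1 s hs, pp h2 s hs, pp h3 s hs, pn h4 s hs, pn h5 s hs, pt s hs h4, pt s hs h5])
    (fun s hs => by linarith [pp h1 s hs, pp h2 s hs, pp h3 s hs, pn h4 s hs, pn h5 s hs, pt s hs h4, pt s hs h5])
    (fun s hs => by linarith [pp h1 s hs, pp h2 s hs, pp h3 s hs, pn h4 s hs, pn h5 s hs, pt s hs h4, pt s hs h5])
    (fun s hs => pp ht s hs)
    (by norm_num) (by norm_num) (by norm_num) (by norm_num) (by norm_num) (by norm_num)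
    (by norm_num) (by norm_num)
    (fun s hs1 hs2 => hk _ _ _ _ _ _ _ (pp hB s ⟨hs1.le, hs2.le⟩) (pp h1 s ⟨hs1.le, hs2.le⟩)
      (pp h2 s ⟨hs1.le, hs2.le⟩) (pp h3 s ⟨hs1.le, hs2.le⟩) (po h4 s hs1 hs2) (po h5 s hs1 hs2)
      (pp ht s ⟨hs1.le, hs2.le⟩))
    (PB := PB) (PT := PT) (p1 := p1) (p2 := p2) (q1 := q1) (q2 := q2) (t := u) ?_
  · simpa using key
  · simpa using hcl

/-- chamber C -/
def KerC (B x1 x2 x3 x4 x5 t : ℝ) : Prop :=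
  Ker (B) (B + (x1) + (x3 + x5) + (x2 + x4)) (B + (x1)) (B + (x1) + (x3 + x5)) (B + (x2) + (x3)) (B + (x2)) (1) (t)

theorem nonneg_C (hk : ∀ B x1 x2 x3 x4 x5 t : ℝ, 0 < B → 0 < x1 → 0 < x2 → 0 < x3 → 0 < x4 → 0 < x5 →
      0 < t → KerC B x1 x2 x3 x4 x5 t) {B x1 x2 x3 x4 x5 t : ℝ} (hB : 0 < B) (h1 : 0 < x1)
    (h2 : 0 < x2) (h3 : 0 < x3) (h4 : 0 ≤ x4) (h5 : 0 ≤ x5) (ht : 0 < t)
    {PB PT p1 p2 q1 q2 u : ℝ}
    (hcl : (1) * (p1 + q1 - PB - PT - u * (((B) + (B + (x1) + (x3 + x5) + (x2 + x4))) / 4) * ((B + (x1)) + (B + (x2) + (x3)) - (B) - (B + (x1) + (x3 + x5) + (x2 + x4)))) +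
      (t) * (p2 + q2 - PB - PT - u * (((B) + (B + (x1) + (x3 + x5) + (x2 + x4))) / 4) * ((B + (x1) + (x3 + x5)) + (B + (x2)) - (B) - (B + (x1) + (x3 + x5) + (x2 + x4)))) = 0) :
    0 ≤ FH (B) (B + (x1) + (x3 + x5) + (x2 + x4)) (B + (x1)) (B + (x1) + (x3 + x5)) (B + (x2) + (x3)) (B + (x2)) (1) (t) PB PT p1 p2 q1 q2 u := by
  have pp : ∀ {z : ℝ}, 0 < z → ∀ s ∈ Icc (0 : ℝ) 1, 0 < (1 - s) + s * z := by
    intro z hz s hs
    rcases hs.1.lt_or_eq with h | h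
    · have := mul_pos h hz
      linarith [hs.2]
    · rw [← h]; norm_num
  have pn : ∀ {z : ℝ}, 0 ≤ z → ∀ s ∈ Icc (0 : ℝ) 1, 0 ≤ s * z + s * (1 - s) := by
    intro z hz s hs
    have := mul_nonneg hs.1 hz
    have := mul_nonneg hs.1 (by linarith [hs.2] : (0:ℝ) ≤ 1 - s)
    linarith
  have po : ∀ {z : ℝ}, 0 ≤ z → ∀ s, 0 < s → s < 1 → 0 < s * z + s * (1 - s) := by
    intro z hz s h1 h2
    have := mul_nonneg h1.le hz
    have := mul_pos h1 (by linarith : (0:ℝ) < 1 - s)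
    linarith
  have pt : ∀ s ∈ Icc (0 : ℝ) 1, ∀ {z : ℝ}, 0 ≤ z → 0 ≤ ((1 - s) + s * t) * (s * z + s * (1 - s)) :=
    fun s hs z hz => mul_nonneg (pp ht s hs).le (pn hz s hs)
  have key := path_nonneg (B := fun s => ((1 - s) + s * B)) (T := fun s => ((1 - s) + s * B) + (((1 - s) + s * x1)) + (((1 - s) + s * x3) + (s * x5 + s * (1 - s))) + (((1 - s) + s * x2) + (s * x4 + s * (1 - s)))) (a1 := fun s => ((1 - s) + s * B) + (((1 - s) + s * x1))) (a2 := fun s => ((1 - s) + s * B) + (((1 - s) + s * x1)) + (((1 - s) + s * x3) + (s * x5 + s * (1 - s)))) (b1 := fun s => ((1 - s) + s * B) + (((1 - s) + s * x2)) + (((1 - s) + s * x3))) (b2 := fun s => ((1 - s) + s * B) + (((1 - s) + s * x2))) (m1 := fun s => 1) (m2 := fun s => ((1 - s) + s * t))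
    (by fun_prop) (by fun_prop) (by fun_prop) (by fun_prop) (by fun_prop) (by fun_prop)
    (by fun_prop) (by fun_prop)
    (fun s hs => pp hB s hs)
    (fun s hs => by linarith [pp h1 s hs, pp h2 s hs, pp h3 s hs, pn h4 s hs, pn h5 s hs, pt s hs h4, pt s hs h5])
    (fun s hs => by linarith [pp h1 s hs, pp h2 s hs, pp h3 s hs, pn h4 s hs, pn h5 s hs, pt s hs h4, pt s hs h5])
    (fun s hs => by linarith [pp h1 s hs, pp h2 s hs, pp h3 s hs, pn h4 s hs, pn h5 s hs, pt s hs h4, pt s hs h5])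
    (fun s hs => by linarith [pp h1 s hs, pp h2 s hs, pp h3 s hs, pn h4 s hs, pn h5 s hs, pt s hs h4, pt s hs h5])
    (fun s hs => by linarith [pp h1 s hs, pp h2 s hs, pp h3 s hs, pn h4 s hs, pn h5 s hs, pt s hs h4, pt s hs h5])
    (fun s hs => by linarith [pp h1 s hs, pp h2 s hs, pp h3 s hs, pn h4 s hs, pn h5 s hs, pt s hs h4, pt s hs h5])
    (fun s hs => one_pos)
    (by norm_num) (by norm_num) (by norm_num) (by norm_num) (by norm_num) (by norm_num)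
    (by norm_num) (by norm_num)
    (fun s hs1 hs2 => hk _ _ _ _ _ _ _ (pp hB s ⟨hs1.le, hs2.le⟩) (pp h1 s ⟨hs1.le, hs2.le⟩)
      (pp h2 s ⟨hs1.le, hs2.le⟩) (pp h3 s ⟨hs1.le, hs2.le⟩) (po h4 s hs1 hs2) (po h5 s hs1 hs2)
      (pp ht s ⟨hs1.le, hs2.le⟩))
    (PB := PB) (PT := PT) (p1 := p1) (p2 := p2) (q1 := q1) (q2 := q2) (t := u) ?_
  · simpa using key
  · simpa using hcl

end Pool.G1.KB
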