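import Pool.Agent.Work.MP_b5407d_g1.Pl_TWO1
import Pool.Agent.Work.MP_b5407d_g1.Pl_KB3

/-!
# G1, LINE T: `Stmt_TWO1 g1` from the nondegeneracy of the open chambers
-/

set_option autoImplicit false

namespace Pool.G1.Gap

lemma FH_one (B T a1 a2 b1 b2 m1 m2 PB PT p1 p2 q1 q2 : ℝ) :
    Pool.G1.KB.FH B T a1 a2 b1 b2 m1 m2 PB PT p1 p2 q1 q2 1 =
      TWg (g1.mu B T PB PT) B T a1 a2 b1 b2 m1 m2 PB PT p1 p2 q1 q2 := by
  unfold Pool.G1.KB.FH TWg g1 Pool.G1.KB.Thh Th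
  ring

/-- **the two-state statement in the gauge `g1`**, from the nondegeneracy of the open chambers -/
theorem TWO1_of_ker (h : Pool.G1.KB.AllKer) : Stmt_TWO1 g1 := by
  intro B T PB PT h0 _ a1 a2 b1 b2 m1 m2 p1 p2 q1 q2 h1 h2 h3 h4 h5 h6 hm1 hm2 hcl
  rw [← FH_one]
  refine Pool.G1.KB.FH_nonneg h h0 h1 h2 h3 h4 h5 h6 hm1 hm2 ?_
  rw [one_mul]
  exact hcl

end Pool.G1.Gap
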