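import Mathlib

/-!
# G1, LINE T: the homogeneous two-state functional in a general gauge and the path theorem

Gauge: `V* = u1 P_B + u2 P_T + u3 τ`, multiplier of `c`:
`mu = c1 P_B² + c2 P_B P_T + c3 P_T² + c4 τ P_B + c5 τ P_T + c6 τ²`, coefficients functions of `B, T`.
-/

set_option autoImplicit false

open Set Filter Topology

namespace Pool.G1.KG

/-- a family `F s` of quadratic forms on `ℝⁿ` (with polar forms `P s`), continuous on `[0,1]`, positive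
at `0` and nondegenerate on `[0,1)`, is nonnegative at `1` -/
theorem psd_path {n : ℕ} (F : ℝ → (Fin n → ℝ) → ℝ) (P : ℝ → (Fin n → ℝ) → (Fin n → ℝ) → ℝ)
    (hc : ContinuousOn (fun p : ℝ × (Fin n → ℝ) => F p.1 p.2) (Icc 0 1 ×ˢ univ))
    (hsm : ∀ s c x, F s (c • x) = c ^ 2 * F s x)
    (hadd : ∀ s x y e, F s (x + e • y) = F s x + 2 * e * P s x y + e ^ 2 * F s y)
    (h0 : ∀ x : Fin n → ℝ, x ≠ 0 → 0 < F 0 x)
    (hk : ∀ s, 0 ≤ s → s < 1 → ∀ x : Fin n → ℝ, (∀ y, P s x y = 0) → x = 0) :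
    ∀ x : Fin n → ℝ, 0 ≤ F 1 x := by
  classical
  have hF0 : ∀ s, F s 0 = 0 := by
    intro s
    have := hsm s 0 0
    simpa using this
  let S : Set (Fin n → ℝ) := Metric.sphere 0 1
  have hS : IsCompact S := isCompact_sphere _ _
  by_contra hcon
  push Not at hcon
  obtain ⟨x1, hx1⟩ := hcon
  let A : Set ℝ := {s | s ∈ Icc (0 : ℝ) 1 ∧ ∃ x ∈ S, F s x ≤ 0}
  have hscale : ∀ s ∈ Icc (0 : ℝ) 1, ∀ y : Fin n → ℝ, F s y < 0 → s ∈ A := by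
    intro s hs y hy
    have hy0 : y ≠ 0 := by
      rintro rfl
      rw [hF0] at hy
      exact lt_irrefl _ hy
    have hn : 0 < ‖y‖ := norm_pos_iff.mpr hy0
    refine ⟨hs, (‖y‖)⁻¹ • y, ?_, ?_⟩
    · simp only [S, mem_sphere_iff_norm, sub_zero, norm_smul, norm_inv, norm_norm]
      exact inv_mul_cancel₀ hn.ne'
    · rw [hsm]
      have : 0 < (‖y‖)⁻¹ ^ 2 := by positivity
      nlinarith
  have hA1 : (1 : ℝ) ∈ A := hscale 1 ⟨zero_le_one, le_rfl⟩ x1 hx1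
  have hAc : IsClosed A := by
    have : A = Prod.fst '' ((Icc (0 : ℝ) 1 ×ˢ S) ∩
        {p : ℝ × (Fin n → ℝ) | p ∈ Icc (0:ℝ) 1 ×ˢ (univ : Set (Fin n → ℝ)) ∧ F p.1 p.2 ≤ 0}) := by
      ext s
      constructor
      · rintro ⟨h1, x, hx, h2⟩
        exact ⟨(s, x), ⟨⟨h1, hx⟩, ⟨h1, mem_univ _⟩, h2⟩, rfl⟩
      · rintro ⟨p, ⟨⟨h1, hx⟩, _, h2⟩, rfl⟩
        exact ⟨h1, p.2, hx, h2⟩
    rw [this]
    refine IsCompact.isClosed ?_
    refine IsCompact.image ?_ continuous_fst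
    refine (isCompact_Icc.prod hS).inter_right ?_
    have hcl : IsClosed (Icc (0:ℝ) 1 ×ˢ (univ : Set (Fin n → ℝ))) := isClosed_Icc.prod isClosed_univ
    exact hc.preimage_isClosed_of_isClosed hcl isClosed_Iic
  have hAb : BddBelow A := ⟨0, fun s hs => hs.1.1⟩
  obtain ⟨⟨hs0, hs1⟩, x, hxS, hx⟩ := hAc.csInf_mem ⟨1, hA1⟩ hAb
  set s0 := sInf A with hs0def
  have hxne : x ≠ 0 := by
    rintro rfl
    simp [S] at hxS
  have hpos : 0 < s0 := by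
    rcases hs0.lt_or_eq with h | h
    · exact h
    · exfalso
      rw [← h] at hx
      exact absurd (h0 x hxne) (not_lt.mpr hx)
  have hnn : ∀ s, 0 ≤ s → s < s0 → ∀ y : Fin n → ℝ, 0 ≤ F s y := by
    intro s h1 h2 y
    by_contra hy
    push Not at hy
    exact absurd (csInf_le hAb (hscale s ⟨h1, by linarith⟩ y hy)) (not_le.mpr h2)
  have hnn0 : ∀ y : Fin n → ℝ, 0 ≤ F s0 y := by
    intro y
    have hc1 : ContinuousOn (fun s => F s y) (Icc 0 1) :=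
      hc.comp (f := fun s => (s, y)) (by fun_prop) fun s hs => ⟨hs, mem_univ _⟩
    have hc2 : ContinuousWithinAt (fun s => F s y) (Ico 0 s0) s0 :=
      (hc1 s0 ⟨hs0, hs1⟩).mono fun s hs => ⟨hs.1, hs.2.le.trans hs1⟩
    have hne : (𝓝[Ico 0 s0] s0).NeBot := by
      rw [← mem_closure_iff_nhdsWithin_neBot, closure_Ico hpos.ne]
      exact ⟨hs0, le_rfl⟩
    exact ge_of_tendsto hc2 (eventually_nhdsWithin_of_forall fun s hs => hnn s hs.1 hs.2 y)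
  rcases hs1.lt_or_eq with h | h
  · have hz : F s0 x = 0 := le_antisymm hx (hnn0 x)
    refine hxne (hk s0 hs0 h x ?_)
    intro y
    by_contra hi
    have key : ∀ e : ℝ, 0 ≤ 2 * e * P s0 x y + e ^ 2 * F s0 y := by
      intro e
      have := hnn0 (x + e • y)
      rw [hadd, hz] at this
      linarith
    have hqn : 0 ≤ F s0 y := hnn0 _
    have k1 := key (-(P s0 x y) / (F s0 y + 1))
    have hq1 : 0 < F s0 y + 1 := by linarith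
    have e2 : 2 * (-(P s0 x y) / (F s0 y + 1)) * P s0 x y +
        (-(P s0 x y) / (F s0 y + 1)) ^ 2 * F s0 y =
        -((P s0 x y) ^ 2 * (F s0 y + 2) / (F s0 y + 1) ^ 2) := by
      field_simp
      ring
    rw [e2] at k1
    have : 0 < (P s0 x y) ^ 2 * (F s0 y + 2) / (F s0 y + 1) ^ 2 := by positivity
    linarith
  · rw [h] at hnn0
    exact absurd (hnn0 x1) (not_le.mpr hx1)



/-- continuity of a coefficient function on `0 < B < T` -/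
def CO (f : ℝ → ℝ → ℝ) : Prop :=
  ContinuousOn (fun p : ℝ × ℝ => f p.1 p.2) {p | 0 < p.1 ∧ p.1 < p.2}

/-- a gauge -/
structure Gau where
  u1 : ℝ → ℝ → ℝ
  u2 : ℝ → ℝ → ℝ
  u3 : ℝ → ℝ → ℝ
  c1 : ℝ → ℝ → ℝ
  c2 : ℝ → ℝ → ℝ
  c3 : ℝ → ℝ → ℝ
  c4 : ℝ → ℝ → ℝ
  c5 : ℝ → ℝ → ℝ
  c6 : ℝ → ℝ → ℝ
  hu1 : CO u1
  hu2 : CO u2
  hu3 : CO u3
  hc1 : CO c1
  hc2 : CO c2
  hc3 : CO c3
  hc4 : CO c4
  hc5 : CO c5
  hc6 : CO c6

/-- homogeneous `Θ` -/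
noncomputable def Thh (y P t : ℝ) : ℝ := 2 * P ^ 2 / y - 2 * t * y * P + t ^ 2 * y ^ 3 / 6

noncomputable def Tpol (y P t P' t' : ℝ) : ℝ :=
  2 * P * P' / y - y * (t * P' + t' * P) + t * t' * y ^ 3 / 6

/-- the shift `V*` -/
noncomputable def vst (g : Gau) (B T PB PT t : ℝ) : ℝ :=
  g.u1 B T * PB + g.u2 B T * PT + g.u3 B T * t

/-- the multiplier of `c` -/
noncomputable def muh (g : Gau) (B T PB PT t : ℝ) : ℝ :=
  g.c1 B T * PB ^ 2 + g.c2 B T * (PB * PT) + g.c3 B T * PT ^ 2 + g.c4 B T * (t * PB) +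
    g.c5 B T * (t * PT) + g.c6 B T * t ^ 2

noncomputable def mup (g : Gau) (B T PB PT t PB' PT' t' : ℝ) : ℝ :=
  g.c1 B T * (PB * PB') + g.c2 B T * ((PB * PT' + PB' * PT) / 2) + g.c3 B T * (PT * PT') +
    g.c4 B T * ((t * PB' + t' * PB) / 2) + g.c5 B T * ((t * PT' + t' * PT) / 2) +
    g.c6 B T * (t * t')

/-- the homogeneous two-state functional -/
noncomputable def FH (g : Gau) (B T a1 a2 b1 b2 m1 m2 PB PT p1 p2 q1 q2 t : ℝ) : ℝ :=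
  (m1 * (2 * (T - B) - ((a1 - B) + (T - b1))) + m2 * (2 * (T - B) - ((a2 - B) + (T - b2)))) / 2 *
    ((p1 - PB) ^ 2 / ((a1 ^ 2 - B ^ 2) / 2)) +
  (m1 * ((a1 - B) + (T - b1)) + m2 * (2 * (T - B) - ((a2 - B) + (T - b2)))) / 2 *
    ((p2 - p1) ^ 2 / ((a2 ^ 2 - a1 ^ 2) / 2)) +
  (m1 * ((a1 - B) + (T - b1)) + m2 * ((a2 - B) + (T - b2))) / 2 *
    ((PT - p2) ^ 2 / ((T ^ 2 - a2 ^ 2) / 2)) +
  (m1 * ((a1 - B) + (T - b1)) + m2 * ((a2 - B) + (T - b2))) / 2 *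
    ((q2 - PB) ^ 2 / ((b2 ^ 2 - B ^ 2) / 2)) +
  (m1 * ((a1 - B) + (T - b1)) + m2 * (2 * (T - B) - ((a2 - B) + (T - b2)))) / 2 *
    ((q1 - q2) ^ 2 / ((b1 ^ 2 - b2 ^ 2) / 2)) +
  (m1 * (2 * (T - B) - ((a1 - B) + (T - b1))) + m2 * (2 * (T - B) - ((a2 - B) + (T - b2)))) / 2 *
    ((PT - q1) ^ 2 / ((T ^ 2 - b1 ^ 2) / 2)) +
  m1 * (Thh B PB t + Thh T PT t - Thh a1 p1 t - Thh b1 q1 t) +
  m2 * (Thh B PB t + Thh T PT t - Thh a2 p2 t - Thh b2 q2 t) +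
  muh g B T PB PT t * (m1 * (a1 + b1 - B - T) + m2 * (a2 + b2 - B - T))

/-- the polar form of `FH` -/
noncomputable def FP (g : Gau) (B T a1 a2 b1 b2 m1 m2 PB PT p1 p2 q1 q2 t PB' PT' p1' p2' q1' q2' t' : ℝ) : ℝ :=
  (m1 * (2 * (T - B) - ((a1 - B) + (T - b1))) + m2 * (2 * (T - B) - ((a2 - B) + (T - b2)))) / 2 *
    ((p1 - PB) * (p1' - PB') / ((a1 ^ 2 - B ^ 2) / 2)) +
  (m1 * ((a1 - B) + (T - b1)) + m2 * (2 * (T - B) - ((a2 - B) + (T - b2)))) / 2 *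
    ((p2 - p1) * (p2' - p1') / ((a2 ^ 2 - a1 ^ 2) / 2)) +
  (m1 * ((a1 - B) + (T - b1)) + m2 * ((a2 - B) + (T - b2))) / 2 *
    ((PT - p2) * (PT' - p2') / ((T ^ 2 - a2 ^ 2) / 2)) +
  (m1 * ((a1 - B) + (T - b1)) + m2 * ((a2 - B) + (T - b2))) / 2 *
    ((q2 - PB) * (q2' - PB') / ((b2 ^ 2 - B ^ 2) / 2)) +
  (m1 * ((a1 - B) + (T - b1)) + m2 * (2 * (T - B) - ((a2 - B) + (T - b2)))) / 2 *
    ((q1 - q2) * (q1' - q2') / ((b1 ^ 2 - b2 ^ 2) / 2)) +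
  (m1 * (2 * (T - B) - ((a1 - B) + (T - b1))) + m2 * (2 * (T - B) - ((a2 - B) + (T - b2)))) / 2 *
    ((PT - q1) * (PT' - q1') / ((T ^ 2 - b1 ^ 2) / 2)) +
  m1 * (Tpol B PB t PB' t' + Tpol T PT t PT' t' - Tpol a1 p1 t p1' t' - Tpol b1 q1 t q1' t') +
  m2 * (Tpol B PB t PB' t' + Tpol T PT t PT' t' - Tpol a2 p2 t p2' t' - Tpol b2 q2 t q2' t') +
  mup g B T PB PT t PB' PT' t' * (m1 * (a1 + b1 - B - T) + m2 * (a2 + b2 - B - T))

lemma FH_add (g : Gau) (B T a1 a2 b1 b2 m1 m2 PB PT p1 p2 q1 q2 t PB' PT' p1' p2' q1' q2' t' e : ℝ) :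
    FH g B T a1 a2 b1 b2 m1 m2 (PB + e * PB') (PT + e * PT') (p1 + e * p1') (p2 + e * p2')
      (q1 + e * q1') (q2 + e * q2') (t + e * t') =
    FH g B T a1 a2 b1 b2 m1 m2 PB PT p1 p2 q1 q2 t +
      2 * e * FP g B T a1 a2 b1 b2 m1 m2 PB PT p1 p2 q1 q2 t PB' PT' p1' p2' q1' q2' t' +
      e ^ 2 * FH g B T a1 a2 b1 b2 m1 m2 PB' PT' p1' p2' q1' q2' t' := by
  unfold FH FP Thh Tpol muh mup
  ring

lemma FH_smul (g : Gau) (B T a1 a2 b1 b2 m1 m2 PB PT p1 p2 q1 q2 t c : ℝ) :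
    FH g B T a1 a2 b1 b2 m1 m2 (c * PB) (c * PT) (c * p1) (c * p2) (c * q1) (c * q2) (c * t) =
      c ^ 2 * FH g B T a1 a2 b1 b2 m1 m2 PB PT p1 p2 q1 q2 t := by
  unfold FH Thh muh
  ring

section
variable {Z : Type*} [TopologicalSpace Z] {S : Set Z}

lemma Thh_contOn {y P t : Z → ℝ} (hy : ContinuousOn y S) (hP : ContinuousOn P S)
    (ht : ContinuousOn t S) (h0 : ∀ z ∈ S, y z ≠ 0) :
    ContinuousOn (fun z => Thh (y z) (P z) (t z)) S := by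
  unfold Thh
  have h1 : ContinuousOn (fun z => 2 * P z ^ 2 / y z) S :=
    ContinuousOn.div (by fun_prop) hy h0
  have h2 : ContinuousOn (fun z => 2 * t z * y z * P z) S := by fun_prop
  have h3 : ContinuousOn (fun z => t z ^ 2 * y z ^ 3 / 6) S := by fun_prop
  exact (h1.sub h2).add h3

lemma FH_contOn (g : Gau) {B T a1 a2 b1 b2 m1 m2 PB PT p1 p2 q1 q2 t : Z → ℝ}
    (hB : ContinuousOn B S) (hT : ContinuousOn T S) (ha1 : ContinuousOn a1 S)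
    (ha2 : ContinuousOn a2 S) (hb1 : ContinuousOn b1 S) (hb2 : ContinuousOn b2 S)
    (hm1 : ContinuousOn m1 S) (hm2 : ContinuousOn m2 S) (hPB : ContinuousOn PB S)
    (hPT : ContinuousOn PT S) (hp1 : ContinuousOn p1 S) (hp2 : ContinuousOn p2 S)
    (hq1 : ContinuousOn q1 S) (hq2 : ContinuousOn q2 S) (ht : ContinuousOn t S)
    (h0 : ∀ z ∈ S, 0 < B z) (h1 : ∀ z ∈ S, B z < a1 z) (h2 : ∀ z ∈ S, a1 z < a2 z)
    (h3 : ∀ z ∈ S, a2 z < T z) (h4 : ∀ z ∈ S, B z < b2 z) (h5 : ∀ z ∈ S, b2 z < b1 z)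
    (h6 : ∀ z ∈ S, b1 z < T z) :
    ContinuousOn (fun z => FH g (B z) (T z) (a1 z) (a2 z) (b1 z) (b2 z) (m1 z) (m2 z) (PB z) (PT z)
      (p1 z) (p2 z) (q1 z) (q2 z) (t z)) S := by
  have pa1 : ∀ z ∈ S, 0 < a1 z := fun z hz => (h0 z hz).trans (h1 z hz)
  have pa2 : ∀ z ∈ S, 0 < a2 z := fun z hz => (pa1 z hz).trans (h2 z hz)
  have pT : ∀ z ∈ S, 0 < T z := fun z hz => (pa2 z hz).trans (h3 z hz)
  have pb2 : ∀ z ∈ S, 0 < b2 z := fun z hz => (h0 z hz).trans (h4 z hz)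
  have pb1 : ∀ z ∈ S, 0 < b1 z := fun z hz => (pb2 z hz).trans (h5 z hz)
  have sq : ∀ {u v : ℝ}, 0 < u → u < v → (v ^ 2 - u ^ 2) / 2 ≠ 0 := by
    intro u v hu hv
    have : 0 < (v - u) * (v + u) := mul_pos (by linarith) (by linarith)
    have : 0 < (v ^ 2 - u ^ 2) / 2 := by nlinarith
    exact this.ne'
  have div1 : ∀ {u v f g : Z → ℝ}, ContinuousOn u S → ContinuousOn v S → ContinuousOn f S →
      ContinuousOn g S → (∀ z ∈ S, 0 < u z) → (∀ z ∈ S, u z < v z) →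
      ContinuousOn (fun z => (f z - g z) ^ 2 / ((v z ^ 2 - u z ^ 2) / 2)) S := by
    intro u v f g hu hv hf hg h1 h2
    exact ContinuousOn.div (by fun_prop) (by fun_prop) fun z hz => sq (h1 z hz) (h2 z hz)
  unfold FH muh
  have w0 : ContinuousOn (fun z => (m1 z * (2 * (T z - B z) - ((a1 z - B z) + (T z - b1 z))) +
    m2 z * (2 * (T z - B z) - ((a2 z - B z) + (T z - b2 z)))) / 2) S := by fun_prop
  have w1 : ContinuousOn (fun z => (m1 z * ((a1 z - B z) + (T z - b1 z)) +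
    m2 z * (2 * (T z - B z) - ((a2 z - B z) + (T z - b2 z)))) / 2) S := by fun_prop
  have w2 : ContinuousOn (fun z => (m1 z * ((a1 z - B z) + (T z - b1 z)) +
    m2 z * ((a2 z - B z) + (T z - b2 z))) / 2) S := by fun_prop
  have e1 := w0.mul (div1 hB ha1 hp1 hPB h0 h1)
  have e2 := w1.mul (div1 ha1 ha2 hp2 hp1 pa1 h2)
  have e3 := w2.mul (div1 ha2 hT hPT hp2 pa2 h3)
  have e4 := w2.mul (div1 hB hb2 hq2 hPB h0 h4)
  have e5 := w1.mul (div1 hb2 hb1 hq1 hq2 pb2 h5)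
  have e6 := w0.mul (div1 hb1 hT hPT hq1 pb1 h6)
  have t1 := Thh_contOn hB hPB ht fun z hz => (h0 z hz).ne'
  have t2 := Thh_contOn hT hPT ht fun z hz => (pT z hz).ne'
  have t3 := Thh_contOn ha1 hp1 ht fun z hz => (pa1 z hz).ne'
  have t4 := Thh_contOn hb1 hq1 ht fun z hz => (pb1 z hz).ne'
  have t5 := Thh_contOn ha2 hp2 ht fun z hz => (pa2 z hz).ne'
  have t6 := Thh_contOn hb2 hq2 ht fun z hz => (pb2 z hz).ne'
  have e7 := hm1.mul (((t1.add t2).sub t3).sub t4)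
  have e8 := hm2.mul (((t1.add t2).sub t5).sub t6)
  have c1 : ContinuousOn (fun z => (m1 z * (a1 z + b1 z - B z - T z) +
    m2 z * (a2 z + b2 z - B z - T z))) S := by fun_prop
  have pBT : ∀ z ∈ S, B z < T z := fun z hz => (h1 z hz).trans ((h2 z hz).trans (h3 z hz))
  have cc : ∀ {f : ℝ → ℝ → ℝ}, CO f → ContinuousOn (fun z => f (B z) (T z)) S := by
    intro f hf
    exact ContinuousOn.comp (g := fun p : ℝ × ℝ => f p.1 p.2) (f := fun z => (B z, T z)) hf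
      (hB.prodMk hT) fun z hz => ⟨h0 z hz, pBT z hz⟩
  have k1 := (cc g.hc1).mul (hPB.pow 2)
  have k2 := (cc g.hc2).mul (hPB.mul hPT)
  have k3 := (cc g.hc3).mul (hPT.pow 2)
  have k4 := (cc g.hc4).mul (ht.mul hPB)
  have k5 := (cc g.hc5).mul (ht.mul hPT)
  have k6 := (cc g.hc6).mul (ht.pow 2)
  have e9 := (((((k1.add k2).add k3).add k4).add k5).add k6).mul c1
  exact (((((((e1.add e2).add e3).add e4).add e5).add e6).add e7).add e8).add e9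

end



/-- the value of `p1` forced by the closure -/
noncomputable def el (g : Gau) (B T a1 a2 b1 b2 m1 m2 PB PT q1 p2 q2 t : ℝ) : ℝ :=
  PB + PT - q1 - m2 / m1 * (p2 + q2 - PB - PT) +
    vst g B T PB PT t * ((m1 * (a1 + b1 - B - T) + m2 * (a2 + b2 - B - T)) / m1)

lemma el_eq (g : Gau) {B T a1 a2 b1 b2 m1 m2 PB PT p1 q1 p2 q2 t : ℝ} (hm : m1 ≠ 0)
    (h : m1 * (p1 + q1 - PB - PT - vst g B T PB PT t * (a1 + b1 - B - T)) +
      m2 * (p2 + q2 - PB - PT - vst g B T PB PT t * (a2 + b2 - B - T)) = 0) :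
    p1 = el g B T a1 a2 b1 b2 m1 m2 PB PT q1 p2 q2 t := by
  unfold el
  field_simp
  linarith

lemma el_closure (g : Gau) {B T a1 a2 b1 b2 m1 m2 PB PT q1 p2 q2 t : ℝ} (hm : m1 ≠ 0) :
    m1 * (el g B T a1 a2 b1 b2 m1 m2 PB PT q1 p2 q2 t + q1 - PB - PT -
      vst g B T PB PT t * (a1 + b1 - B - T)) +
      m2 * (p2 + q2 - PB - PT - vst g B T PB PT t * (a2 + b2 - B - T)) = 0 := by
  unfold el
  field_simp
  ring

/-- positivity at the base point -/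
lemma base_pos (g : Gau) (y : Fin 6 → ℝ) (hy : y ≠ 0) :
    0 < FH g 1 4 2 3 3 2 1 1 (y 0) (y 1) (el g 1 4 2 3 3 2 1 1 (y 0) (y 1) (y 2) (y 3) (y 4) (y 5))
      (y 3) (y 2) (y 4) (y 5) := by
  obtain ⟨y0, h0⟩ : ∃ z, z = y 0 := ⟨_, rfl⟩
  obtain ⟨y1, h1⟩ : ∃ z, z = y 1 := ⟨_, rfl⟩
  obtain ⟨y2, h2⟩ : ∃ z, z = y 2 := ⟨_, rfl⟩
  obtain ⟨y3, h3⟩ : ∃ z, z = y 3 := ⟨_, rfl⟩
  obtain ⟨y4, h4⟩ : ∃ z, z = y 4 := ⟨_, rfl⟩
  obtain ⟨y5, h5⟩ : ∃ z, z = y 5 := ⟨_, rfl⟩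
  rw [← h0, ← h1, ← h2, ← h3, ← h4, ← h5]
  have key : FH g 1 4 2 3 3 2 1 1 y0 y1 (el g 1 4 2 3 3 2 1 1 y0 y1 y2 y3 y4 y5) y3 y2 y4 y5 =
      (36/5) * ((1) * y0 + (4/9) * y1 + (-2/9) * y2 + (-4/9) * y3 + (-1/2) * y4 + (5/18) * y5) ^ 2 + (535/63) * ((1) * y1 + (-236/535) * y2 + (-292/535) * y3 + (-126/535) * y4 + (-308/535) * y5) ^ 2 + (8791/11235) * ((1) * y2 + (-1749/8791) * y3 + (-7665/8791) * y4 + (-8001/8791) * y5) ^ 2 + (53744/131865) * ((1) * y3 + (-3747/6718) * y4 + (-15183/6718) * y5) ^ 2 + (2040/3359) * ((1) * y4 + (-36/17) * y5) ^ 2 + (20/17) * ((1) * y5) ^ 2 := by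
    unfold FH el Thh muh vst
    ring
  rw [key]
  by_contra hcon
  push Not at hcon
  have s0 : 0 ≤ ((1) * y0 + (4/9) * y1 + (-2/9) * y2 + (-4/9) * y3 + (-1/2) * y4 + (5/18) * y5) ^ 2 := sq_nonneg _
  have s1 : 0 ≤ ((1) * y1 + (-236/535) * y2 + (-292/535) * y3 + (-126/535) * y4 + (-308/535) * y5) ^ 2 := sq_nonneg _
  have s2 : 0 ≤ ((1) * y2 + (-1749/8791) * y3 + (-7665/8791) * y4 + (-8001/8791) * y5) ^ 2 := sq_nonneg _
  have s3 : 0 ≤ ((1) * y3 + (-3747/6718) * y4 + (-15183/6718) * y5) ^ 2 := sq_nonneg _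
  have s4 : 0 ≤ ((1) * y4 + (-36/17) * y5) ^ 2 := sq_nonneg _
  have s5 : 0 ≤ ((1) * y5) ^ 2 := sq_nonneg _
  have z0 : ((1) * y0 + (4/9) * y1 + (-2/9) * y2 + (-4/9) * y3 + (-1/2) * y4 + (5/18) * y5) = 0 := by
    have : ((1) * y0 + (4/9) * y1 + (-2/9) * y2 + (-4/9) * y3 + (-1/2) * y4 + (5/18) * y5) ^ 2 = 0 := by linarith
    exact pow_eq_zero_iff (two_ne_zero) |>.mp this
  have z1 : ((1) * y1 + (-236/535) * y2 + (-292/535) * y3 + (-126/535) * y4 + (-308/535) * y5) = 0 := by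
    have : ((1) * y1 + (-236/535) * y2 + (-292/535) * y3 + (-126/535) * y4 + (-308/535) * y5) ^ 2 = 0 := by linarith
    exact pow_eq_zero_iff (two_ne_zero) |>.mp this
  have z2 : ((1) * y2 + (-1749/8791) * y3 + (-7665/8791) * y4 + (-8001/8791) * y5) = 0 := by
    have : ((1) * y2 + (-1749/8791) * y3 + (-7665/8791) * y4 + (-8001/8791) * y5) ^ 2 = 0 := by linarith
    exact pow_eq_zero_iff (two_ne_zero) |>.mp this
  have z3 : ((1) * y3 + (-3747/6718) * y4 + (-15183/6718) * y5) = 0 := by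
    have : ((1) * y3 + (-3747/6718) * y4 + (-15183/6718) * y5) ^ 2 = 0 := by linarith
    exact pow_eq_zero_iff (two_ne_zero) |>.mp this
  have z4 : ((1) * y4 + (-36/17) * y5) = 0 := by
    have : ((1) * y4 + (-36/17) * y5) ^ 2 = 0 := by linarith
    exact pow_eq_zero_iff (two_ne_zero) |>.mp this
  have z5 : ((1) * y5) = 0 := by
    have : ((1) * y5) ^ 2 = 0 := by linarith
    exact pow_eq_zero_iff (two_ne_zero) |>.mp this
  have e5 : y5 = 0 := by linarith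
  have e4 : y4 = 0 := by rw [e5] at z4; linarith
  have e3 : y3 = 0 := by rw [e5, e4] at z3; linarith
  have e2 : y2 = 0 := by rw [e5, e4, e3] at z2; linarith
  have e1 : y1 = 0 := by rw [e5, e4, e3, e2] at z1; linarith
  have e0 : y0 = 0 := by rw [e5, e4, e3, e2, e1] at z0; linarith
  apply hy
  funext i
  fin_cases i
  · exact h0.symm.trans e0
  · exact h1.symm.trans e1
  · exact h2.symm.trans e2
  · exact h3.symm.trans e3
  · exact h4.symm.trans e4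
  · exact h5.symm.trans e5


/-- the linear system of a degenerate vector has only the trivial solution -/
def Ker (g : Gau) (B T a1 a2 b1 b2 m1 m2 : ℝ) : Prop :=
  ∀ PB PT p1 p2 q1 q2 t lam : ℝ,
    m1 * (p1 + q1 - PB - PT - vst g B T PB PT t * (a1 + b1 - B - T)) +
      m2 * (p2 + q2 - PB - PT - vst g B T PB PT t * (a2 + b2 - B - T)) = 0 →
    FP g B T a1 a2 b1 b2 m1 m2 PB PT p1 p2 q1 q2 t 0 0 1 0 0 0 0 = -(m1 * lam) →
    FP g B T a1 a2 b1 b2 m1 m2 PB PT p1 p2 q1 q2 t 0 0 0 1 0 0 0 = -(m2 * lam) →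
    FP g B T a1 a2 b1 b2 m1 m2 PB PT p1 p2 q1 q2 t 0 0 0 0 1 0 0 = -(m1 * lam) →
    FP g B T a1 a2 b1 b2 m1 m2 PB PT p1 p2 q1 q2 t 0 0 0 0 0 1 0 = -(m2 * lam) →
    FP g B T a1 a2 b1 b2 m1 m2 PB PT p1 p2 q1 q2 t 1 0 0 0 0 0 0 =
      (m1 + m2 + g.u1 B T * (m1 * (a1 + b1 - B - T) + m2 * (a2 + b2 - B - T))) * lam →
    FP g B T a1 a2 b1 b2 m1 m2 PB PT p1 p2 q1 q2 t 0 1 0 0 0 0 0 =
      (m1 + m2 + g.u2 B T * (m1 * (a1 + b1 - B - T) + m2 * (a2 + b2 - B - T))) * lam →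
    FP g B T a1 a2 b1 b2 m1 m2 PB PT p1 p2 q1 q2 t 0 0 0 0 0 0 1 =
      g.u3 B T * (m1 * (a1 + b1 - B - T) + m2 * (a2 + b2 - B - T)) * lam →
    PB = 0 ∧ PT = 0 ∧ p2 = 0 ∧ q1 = 0 ∧ q2 = 0 ∧ t = 0

/-- the polar form is linear in the second argument -/
lemma FP_lin (g : Gau) (B T a1 a2 b1 b2 m1 m2 PB PT p1 p2 q1 q2 t PB' PT' p1' p2' q1' q2' t' : ℝ) :
    FP g B T a1 a2 b1 b2 m1 m2 PB PT p1 p2 q1 q2 t PB' PT' p1' p2' q1' q2' t' =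
    PB' * FP g B T a1 a2 b1 b2 m1 m2 PB PT p1 p2 q1 q2 t 1 0 0 0 0 0 0 +
    PT' * FP g B T a1 a2 b1 b2 m1 m2 PB PT p1 p2 q1 q2 t 0 1 0 0 0 0 0 +
    p1' * FP g B T a1 a2 b1 b2 m1 m2 PB PT p1 p2 q1 q2 t 0 0 1 0 0 0 0 +
    p2' * FP g B T a1 a2 b1 b2 m1 m2 PB PT p1 p2 q1 q2 t 0 0 0 1 0 0 0 +
    q1' * FP g B T a1 a2 b1 b2 m1 m2 PB PT p1 p2 q1 q2 t 0 0 0 0 1 0 0 +
    q2' * FP g B T a1 a2 b1 b2 m1 m2 PB PT p1 p2 q1 q2 t 0 0 0 0 0 1 0 +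
    t' * FP g B T a1 a2 b1 b2 m1 m2 PB PT p1 p2 q1 q2 t 0 0 0 0 0 0 1 := by
  unfold FP Tpol mup
  ring

lemma el_add (g : Gau) (B T a1 a2 b1 b2 m1 m2 PB PT q1 p2 q2 t PB' PT' q1' p2' q2' t' e : ℝ) :
    el g B T a1 a2 b1 b2 m1 m2 (PB + e * PB') (PT + e * PT') (q1 + e * q1') (p2 + e * p2')
      (q2 + e * q2') (t + e * t') =
    el g B T a1 a2 b1 b2 m1 m2 PB PT q1 p2 q2 t + e * el g B T a1 a2 b1 b2 m1 m2 PB' PT' q1' p2' q2' t' := by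
  unfold el vst
  ring

lemma el_smul (g : Gau) (B T a1 a2 b1 b2 m1 m2 PB PT q1 p2 q2 t c : ℝ) :
    el g B T a1 a2 b1 b2 m1 m2 (c * PB) (c * PT) (c * q1) (c * p2) (c * q2) (c * t) =
    c * el g B T a1 a2 b1 b2 m1 m2 PB PT q1 p2 q2 t := by
  unfold el vst
  ring

/-- **path theorem**: data depending continuously on `s ∈ [0,1]`, strictly ordered, nondegenerate for
`0 < s < 1` and equal to the base point at `s = 0`: the functional is nonnegative at `s = 1` -/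
theorem path_nonneg (g : Gau) {B T a1 a2 b1 b2 m1 m2 : ℝ → ℝ} (hB : Continuous B) (hT : Continuous T)
    (ha1 : Continuous a1) (ha2 : Continuous a2) (hb1 : Continuous b1) (hb2 : Continuous b2)
    (hm1 : Continuous m1) (hm2 : Continuous m2)
    (h0 : ∀ s ∈ Icc (0 : ℝ) 1, 0 < B s) (h1 : ∀ s ∈ Icc (0 : ℝ) 1, B s < a1 s)
    (h2 : ∀ s ∈ Icc (0 : ℝ) 1, a1 s < a2 s) (h3 : ∀ s ∈ Icc (0 : ℝ) 1, a2 s < T s)
    (h4 : ∀ s ∈ Icc (0 : ℝ) 1, B s < b2 s) (h5 : ∀ s ∈ Icc (0 : ℝ) 1, b2 s < b1 s)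
    (h6 : ∀ s ∈ Icc (0 : ℝ) 1, b1 s < T s) (h7 : ∀ s ∈ Icc (0 : ℝ) 1, 0 < m1 s)
    (eB : B 0 = 1) (eT : T 0 = 4) (ea1 : a1 0 = 2) (ea2 : a2 0 = 3) (eb1 : b1 0 = 3)
    (eb2 : b2 0 = 2) (em1 : m1 0 = 1) (em2 : m2 0 = 1)
    (hk : ∀ s, 0 < s → s < 1 → Ker g (B s) (T s) (a1 s) (a2 s) (b1 s) (b2 s) (m1 s) (m2 s))
    {PB PT p1 p2 q1 q2 t : ℝ}
    (hcl : m1 1 * (p1 + q1 - PB - PT - vst g (B 1) (T 1) PB PT t * (a1 1 + b1 1 - B 1 - T 1)) +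
      m2 1 * (p2 + q2 - PB - PT - vst g (B 1) (T 1) PB PT t * (a2 1 + b2 1 - B 1 - T 1)) = 0) :
    0 ≤ FH g (B 1) (T 1) (a1 1) (a2 1) (b1 1) (b2 1) (m1 1) (m2 1) PB PT p1 p2 q1 q2 t := by
  have i0 : (0 : ℝ) ∈ Icc (0 : ℝ) 1 := ⟨le_rfl, zero_le_one⟩
  have i1 : (1 : ℝ) ∈ Icc (0 : ℝ) 1 := ⟨zero_le_one, le_rfl⟩
  have main := psd_path (n := 6)
    (fun s y => FH g (B s) (T s) (a1 s) (a2 s) (b1 s) (b2 s) (m1 s) (m2 s) (y 0) (y 1)
      (el g (B s) (T s) (a1 s) (a2 s) (b1 s) (b2 s) (m1 s) (m2 s) (y 0) (y 1) (y 2) (y 3) (y 4) (y 5))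
      (y 3) (y 2) (y 4) (y 5))
    (fun s y z => FP g (B s) (T s) (a1 s) (a2 s) (b1 s) (b2 s) (m1 s) (m2 s) (y 0) (y 1)
      (el g (B s) (T s) (a1 s) (a2 s) (b1 s) (b2 s) (m1 s) (m2 s) (y 0) (y 1) (y 2) (y 3) (y 4) (y 5))
      (y 3) (y 2) (y 4) (y 5) (z 0) (z 1)
      (el g (B s) (T s) (a1 s) (a2 s) (b1 s) (b2 s) (m1 s) (m2 s) (z 0) (z 1) (z 2) (z 3) (z 4) (z 5))
      (z 3) (z 2) (z 4) (z 5)) ?_ ?_ ?_ ?_ ?_ ![PB, PT, q1, p2, q2, t]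
  · have e := el_eq g (h7 1 i1).ne' hcl
    have : FH g (B 1) (T 1) (a1 1) (a2 1) (b1 1) (b2 1) (m1 1) (m2 1) PB PT
      (el g (B 1) (T 1) (a1 1) (a2 1) (b1 1) (b2 1) (m1 1) (m2 1) PB PT q1 p2 q2 t) p2 q1 q2 t =
      FH g (B 1) (T 1) (a1 1) (a2 1) (b1 1) (b2 1) (m1 1) (m2 1) PB PT p1 p2 q1 q2 t := by
      rw [← e]
    rw [← this]
    exact main
  · -- continuity
    have cy : ∀ i : Fin 6, ContinuousOn (fun p : ℝ × (Fin 6 → ℝ) => p.2 i)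
        (Icc (0:ℝ) 1 ×ˢ (univ : Set (Fin 6 → ℝ))) := fun i => by fun_prop
    have cf : ∀ {f : ℝ → ℝ}, Continuous f → ContinuousOn (fun p : ℝ × (Fin 6 → ℝ) => f p.1)
        (Icc (0:ℝ) 1 ×ˢ (univ : Set (Fin 6 → ℝ))) := fun hf => by fun_prop
    have cel : ContinuousOn (fun p : ℝ × (Fin 6 → ℝ) =>
        el g (B p.1) (T p.1) (a1 p.1) (a2 p.1) (b1 p.1) (b2 p.1) (m1 p.1) (m2 p.1) (p.2 0) (p.2 1)
          (p.2 2) (p.2 3) (p.2 4) (p.2 5)) (Icc (0:ℝ) 1 ×ˢ (univ : Set (Fin 6 → ℝ))) := by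
      unfold el vst
      have d1 : ContinuousOn (fun p : ℝ × (Fin 6 → ℝ) => m2 p.1 / m1 p.1)
          (Icc (0:ℝ) 1 ×ˢ (univ : Set (Fin 6 → ℝ))) :=
        ContinuousOn.div (cf hm2) (cf hm1) fun p hp => (h7 p.1 hp.1).ne'
      have pBT : ∀ s ∈ Icc (0 : ℝ) 1, B s < T s := fun s hs => (h1 s hs).trans ((h2 s hs).trans (h3 s hs))
      have cc : ∀ {f : ℝ → ℝ → ℝ}, CO f → ContinuousOn (fun p : ℝ × (Fin 6 → ℝ) => f (B p.1) (T p.1))
          (Icc (0:ℝ) 1 ×ˢ (univ : Set (Fin 6 → ℝ))) := by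
        intro f hf
        exact ContinuousOn.comp (g := fun p : ℝ × ℝ => f p.1 p.2)
          (f := fun p : ℝ × (Fin 6 → ℝ) => (B p.1, T p.1)) hf
          ((cf hB).prodMk (cf hT)) fun z hz => ⟨h0 z.1 hz.1, pBT z.1 hz.1⟩
      have d3 : ContinuousOn (fun p : ℝ × (Fin 6 → ℝ) => (m1 p.1 * (a1 p.1 + b1 p.1 - B p.1 - T p.1) +
          m2 p.1 * (a2 p.1 + b2 p.1 - B p.1 - T p.1)) / m1 p.1) (Icc (0:ℝ) 1 ×ˢ (univ : Set (Fin 6 → ℝ))) :=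
        ContinuousOn.div (by fun_prop) (cf hm1) fun p hp => (h7 p.1 hp.1).ne'
      have d4 := (((cc g.hu1).mul (cy 0)).add ((cc g.hu2).mul (cy 1))).add ((cc g.hu3).mul (cy 5))
      have e1 : ContinuousOn (fun p : ℝ × (Fin 6 → ℝ) => p.2 0 + p.2 1 - p.2 2)
        (Icc (0:ℝ) 1 ×ˢ (univ : Set (Fin 6 → ℝ))) := by fun_prop
      have e2 : ContinuousOn (fun p : ℝ × (Fin 6 → ℝ) => (p.2 3 + p.2 4 - p.2 0 - p.2 1))
        (Icc (0:ℝ) 1 ×ˢ (univ : Set (Fin 6 → ℝ))) := by fun_prop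
      exact (e1.sub (d1.mul e2)).add (d4.mul d3)
    exact FH_contOn g (cf hB) (cf hT) (cf ha1) (cf ha2) (cf hb1) (cf hb2) (cf hm1) (cf hm2) (cy 0)
      (cy 1) cel (cy 3) (cy 2) (cy 4) (cy 5) (fun z hz => h0 z.1 hz.1) (fun z hz => h1 z.1 hz.1)
      (fun z hz => h2 z.1 hz.1) (fun z hz => h3 z.1 hz.1) (fun z hz => h4 z.1 hz.1)
      (fun z hz => h5 z.1 hz.1) (fun z hz => h6 z.1 hz.1)
  · intro s c x
    simp only [Pi.smul_apply, smul_eq_mul]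
    rw [el_smul, FH_smul]
  · intro s x y e
    simp only [Pi.add_apply, Pi.smul_apply, smul_eq_mul]
    rw [el_add, FH_add]
  · intro x hx
    simp only [eB, eT, ea1, ea2, eb1, eb2, em1, em2]
    exact base_pos g x hx
  · intro s hs0 hs1 x hx
    have his : s ∈ Icc (0 : ℝ) 1 := ⟨hs0, hs1.le⟩
    rcases hs0.lt_or_eq with hs | hs
    · have hm := (h7 s his).ne'
      obtain ⟨P1, hP1⟩ : ∃ z, z = el g (B s) (T s) (a1 s) (a2 s) (b1 s) (b2 s) (m1 s) (m2 s) (x 0) (x 1)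
        (x 2) (x 3) (x 4) (x 5) := ⟨_, rfl⟩
      simp only [← hP1] at hx
      obtain ⟨D, hD⟩ : ∃ D, D = FP g (B s) (T s) (a1 s) (a2 s) (b1 s) (b2 s) (m1 s) (m2 s) (x 0) (x 1)
        P1 (x 3) (x 2) (x 4) (x 5) 0 0 1 0 0 0 0 := ⟨_, rfl⟩
      have r := hk s hs hs1 (x 0) (x 1) P1 (x 3) (x 2) (x 4) (x 5) (-(D / m1 s)) ?_ ?_ ?_ ?_ ?_ ?_ ?_ ?_
      · obtain ⟨r0, r1, r2, r3, r4, r5⟩ := r
        funext i
        fin_cases i
        · exact r0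
        · exact r1
        · exact r3
        · exact r2
        · exact r4
        · exact r5
      · rw [hP1]
        exact el_closure g hm
      · rw [← hD]
        field_simp
      · have h := hx ![0, 0, 0, 1, 0, 0]
        rw [FP_lin] at h
        simp [el, vst, ← hD] at h
        field_simp at h ⊢
        linarith
      · have h := hx ![0, 0, 1, 0, 0, 0]
        rw [FP_lin] at h
        simp [el, vst, ← hD] at h
        field_simp at h ⊢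
        linarith
      · have h := hx ![0, 0, 0, 0, 1, 0]
        rw [FP_lin] at h
        simp [el, vst, ← hD] at h
        field_simp at h ⊢
        linarith
      · have h := hx ![1, 0, 0, 0, 0, 0]
        rw [FP_lin] at h
        simp [el, vst, ← hD] at h
        field_simp at h ⊢
        linarith
      · have h := hx ![0, 1, 0, 0, 0, 0]
        rw [FP_lin] at h
        simp [el, vst, ← hD] at h
        field_simp at h ⊢
        linarith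
      · have h := hx ![0, 0, 0, 0, 0, 1]
        rw [FP_lin] at h
        simp [el, vst, ← hD] at h
        field_simp at h ⊢
        linarith
    · -- at the base point
      subst hs
      by_contra hne
      have hb := base_pos g x hne
      have h := hx x
      simp only [eB, eT, ea1, ea2, eb1, eb2, em1, em2] at h
      have : ∀ PB PT p1 p2 q1 q2 t : ℝ, FP g 1 4 2 3 3 2 1 1 PB PT p1 p2 q1 q2 t PB PT p1 p2 q1 q2 t =
        FH g 1 4 2 3 3 2 1 1 PB PT p1 p2 q1 q2 t := by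
        intro PB PT p1 p2 q1 q2 t
        unfold FP FH Thh Tpol muh mup
        ring
      rw [this] at h
      linarith

end Pool.G1.KG
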