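import Pool.Agent.Work.MP_b5407d_g1.Pl_KG2

/-!
# G1, LINE T: the four chambers and the swap cover all strict data
-/

set_option autoImplicit false

open Set Filter Topology

namespace Pool.G1.KG

lemma FH_swap (g : Gau) (B T a1 a2 b1 b2 m1 m2 PB PT p1 p2 q1 q2 t : ℝ) :
    FH g B T a1 a2 b1 b2 m1 m2 PB PT p1 p2 q1 q2 t = FH g B T b2 b1 a2 a1 m2 m1 PB PT q2 q1 p2 p1 t := by
  unfold FH Thh muh
  ring

lemma FH_mass (g : Gau) (B T a1 a2 b1 b2 m1 m2 PB PT p1 p2 q1 q2 t c : ℝ) :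
    FH g B T a1 a2 b1 b2 (c * m1) (c * m2) PB PT p1 p2 q1 q2 t =
      c * FH g B T a1 a2 b1 b2 m1 m2 PB PT p1 p2 q1 q2 t := by
  unfold FH Thh muh
  ring

/-- the open chambers are nondegenerate -/
structure AllKer (g : Gau) : Prop where
  A : ∀ B x1 x2 x3 x4 x5 t : ℝ, 0 < B → 0 < x1 → 0 < x2 → 0 < x3 → 0 < x4 → 0 < x5 → 0 < t →
    KerA g B x1 x2 x3 x4 x5 t
  Bp : ∀ B x1 x2 x3 x4 x5 t : ℝ, 0 < B → 0 < x1 → 0 < x2 → 0 < x3 → 0 < x4 → 0 < x5 → 0 < t →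
    KerBp g B x1 x2 x3 x4 x5 t
  Bm : ∀ B x1 x2 x3 x4 x5 t : ℝ, 0 < B → 0 < x1 → 0 < x2 → 0 < x3 → 0 < x4 → 0 < x5 → 0 < t →
    KerBm g B x1 x2 x3 x4 x5 t
  C : ∀ B x1 x2 x3 x4 x5 t : ℝ, 0 < B → 0 < x1 → 0 < x2 → 0 < x3 → 0 < x4 → 0 < x5 → 0 < t →
    KerC g B x1 x2 x3 x4 x5 t

/-- the data with `c1 ≤ c2` of the same sign, or `c1 ≥ 0 ≥ c2` -/
lemma FH_nonneg_half (g : Gau) (h : AllKer g) {B T a1 a2 b1 b2 m1 m2 : ℝ} (h0 : 0 < B) (h1 : B < a1)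
    (h2 : a1 < a2) (h3 : a2 < T) (h4 : B < b2) (h5 : b2 < b1) (h6 : b1 < T) (hm1 : 0 < m1)
    (hm2 : 0 < m2)
    (hc : (0 ≤ a1 + b1 - B - T ∧ a1 + b1 - B - T ≤ a2 + b2 - B - T) ∨
      (a1 + b1 - B - T ≤ a2 + b2 - B - T ∧ a2 + b2 - B - T ≤ 0) ∨
      (0 ≤ a1 + b1 - B - T ∧ a2 + b2 - B - T ≤ 0))
    {PB PT p1 p2 q1 q2 u : ℝ}
    (hcl : m1 * (p1 + q1 - PB - PT - vst g B T PB PT u * (a1 + b1 - B - T)) +
      m2 * (p2 + q2 - PB - PT - vst g B T PB PT u * (a2 + b2 - B - T)) = 0) :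
    0 ≤ FH g B T a1 a2 b1 b2 m1 m2 PB PT p1 p2 q1 q2 u := by
  have ht : 0 < m2 / m1 := div_pos hm2 hm1
  have ht' : 0 < m1 / m2 := div_pos hm1 hm2
  have e1 : ∀ PB PT p1 p2 q1 q2 u : ℝ, FH g B T a1 a2 b1 b2 m1 m2 PB PT p1 p2 q1 q2 u =
      m1 * FH g B T a1 a2 b1 b2 1 (m2 / m1) PB PT p1 p2 q1 q2 u := by
    intro PB PT p1 p2 q1 q2 u
    rw [← FH_mass, mul_one, mul_div_cancel₀ _ hm1.ne']
  have e2 : ∀ PB PT p1 p2 q1 q2 u : ℝ, FH g B T a1 a2 b1 b2 m1 m2 PB PT p1 p2 q1 q2 u =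
      m2 * FH g B T a1 a2 b1 b2 (m1 / m2) 1 PB PT p1 p2 q1 q2 u := by
    intro PB PT p1 p2 q1 q2 u
    rw [← FH_mass, mul_one, mul_div_cancel₀ _ hm2.ne']
  have c1 : 1 * (p1 + q1 - PB - PT - vst g B T PB PT u * (a1 + b1 - B - T)) +
      m2 / m1 * (p2 + q2 - PB - PT - vst g B T PB PT u * (a2 + b2 - B - T)) = 0 := by
    have : m1 * (1 * (p1 + q1 - PB - PT - vst g B T PB PT u * (a1 + b1 - B - T)) +
      m2 / m1 * (p2 + q2 - PB - PT - vst g B T PB PT u * (a2 + b2 - B - T))) = 0 := by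
      rw [← hcl]
      field_simp
    exact (mul_eq_zero.mp this).resolve_left hm1.ne'
  have c2 : m1 / m2 * (p1 + q1 - PB - PT - vst g B T PB PT u * (a1 + b1 - B - T)) +
      1 * (p2 + q2 - PB - PT - vst g B T PB PT u * (a2 + b2 - B - T)) = 0 := by
    have : m2 * (m1 / m2 * (p1 + q1 - PB - PT - vst g B T PB PT u * (a1 + b1 - B - T)) +
      1 * (p2 + q2 - PB - PT - vst g B T PB PT u * (a2 + b2 - B - T))) = 0 := by
      rw [← hcl]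
      field_simp
    exact (mul_eq_zero.mp this).resolve_left hm2.ne'
  rcases hc with ⟨hc1, hc2⟩ | ⟨hc1, hc2⟩ | ⟨hc1, hc2⟩
  · -- chamber A
    obtain ⟨t, htd⟩ : ∃ t, t = m2 / m1 := ⟨_, rfl⟩
    rw [← htd] at ht c1
    obtain ⟨x1, hx1⟩ : ∃ x, x = T - b1 := ⟨_, rfl⟩
    obtain ⟨x2, hx2⟩ : ∃ x, x = T - a2 := ⟨_, rfl⟩
    obtain ⟨x3, hx3⟩ : ∃ x, x = b1 - b2 := ⟨_, rfl⟩
    obtain ⟨x4, hx4⟩ : ∃ x, x = a1 + b1 - B - T := ⟨_, rfl⟩
    obtain ⟨x5, hx5⟩ : ∃ x, x = (a2 + b2 - B - T) - (a1 + b1 - B - T) := ⟨_, rfl⟩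
    have f1 : a1 = B + (x1 + x4) := by rw [hx1, hx4]; ring
    have f2 : a2 = B + (x1 + x4) + (x3 + x5) := by rw [hx1, hx4, hx3, hx5]; ring
    have f3 : T = B + (x1 + x4) + (x3 + x5) + (x2) := by rw [hx1, hx4, hx3, hx5, hx2]; ring
    have f4 : b2 = B + (x2 + x4 + x5) := by rw [hx4, hx5, hx2]; ring
    have f5 : b1 = B + (x2 + x4 + x5) + (x3) := by rw [hx4, hx3, hx5, hx2]; ring
    have p1' : 0 < x1 := by rw [hx1]; linarith
    have p2' : 0 < x2 := by rw [hx2]; linarith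
    have p3' : 0 < x3 := by rw [hx3]; linarith
    have p4' : 0 ≤ x4 := by rw [hx4]; linarith
    have p5' : 0 ≤ x5 := by rw [hx5]; linarith
    rw [e1, ← htd]
    clear hx1 hx2 hx3 hx4 hx5 e1 e2 hcl c2 hc1 hc2
    subst f3
    subst f5
    subst f4
    subst f2
    subst f1
    exact mul_nonneg hm1.le (nonneg_A g h.A h0 p1' p2' p3' p4' p5' ht c1)
  · -- chamber C
    obtain ⟨t, htd⟩ : ∃ t, t = m2 / m1 := ⟨_, rfl⟩
    rw [← htd] at ht c1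
    obtain ⟨x1, hx1⟩ : ∃ x, x = a1 - B := ⟨_, rfl⟩
    obtain ⟨x2, hx2⟩ : ∃ x, x = b2 - B := ⟨_, rfl⟩
    obtain ⟨x3, hx3⟩ : ∃ x, x = b1 - b2 := ⟨_, rfl⟩
    obtain ⟨x4, hx4⟩ : ∃ x, x = -(a2 + b2 - B - T) := ⟨_, rfl⟩
    obtain ⟨x5, hx5⟩ : ∃ x, x = (a2 + b2 - B - T) - (a1 + b1 - B - T) := ⟨_, rfl⟩
    have f1 : a1 = B + (x1) := by rw [hx1]; ring
    have f2 : a2 = B + (x1) + (x3 + x5) := by rw [hx1, hx3, hx5]; ring
    have f3 : T = B + (x1) + (x3 + x5) + (x2 + x4) := by rw [hx1, hx4, hx3, hx5, hx2]; ring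
    have f4 : b2 = B + (x2) := by rw [hx2]; ring
    have f5 : b1 = B + (x2) + (x3) := by rw [hx3, hx2]; ring
    have p1' : 0 < x1 := by rw [hx1]; linarith
    have p2' : 0 < x2 := by rw [hx2]; linarith
    have p3' : 0 < x3 := by rw [hx3]; linarith
    have p4' : 0 ≤ x4 := by rw [hx4]; linarith
    have p5' : 0 ≤ x5 := by rw [hx5]; linarith
    rw [e1, ← htd]
    clear hx1 hx2 hx3 hx4 hx5 e1 e2 hcl c2 hc1 hc2
    subst f3
    subst f5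
    subst f4
    subst f2
    subst f1
    exact mul_nonneg hm1.le (nonneg_C g h.C h0 p1' p2' p3' p4' p5' ht c1)
  · rcases le_total (m2 / m1 * -(a2 + b2 - B - T)) (a1 + b1 - B - T) with hs | hs
    · -- chamber B+
      obtain ⟨t, htd⟩ : ∃ t, t = m2 / m1 := ⟨_, rfl⟩
      rw [← htd] at ht c1 hs
      obtain ⟨x1, hx1⟩ : ∃ x, x = T - b1 := ⟨_, rfl⟩
      obtain ⟨x2, hx2⟩ : ∃ x, x = b2 - B := ⟨_, rfl⟩
      obtain ⟨x3, hx3⟩ : ∃ x, x = a2 - a1 := ⟨_, rfl⟩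
      obtain ⟨x5, hx5⟩ : ∃ x, x = -(a2 + b2 - B - T) := ⟨_, rfl⟩
      obtain ⟨x4, hx4⟩ : ∃ x, x = a1 + b1 - B - T - t * x5 := ⟨_, rfl⟩
      have f1 : a1 = B + (x1 + x4 + t * x5) := by rw [hx1, hx4]; ring
      have f2 : a2 = B + (x1 + x4 + t * x5) + (x3) := by rw [hx1, hx4, hx3]; ring
      have f3 : T = B + (x1 + x4 + t * x5) + (x3) + (x2 + x5) := by
        rw [hx1, hx4, hx3, hx5, hx2]; ring
      have f4 : b2 = B + (x2) := by rw [hx2]; ring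
      have f5 : b1 = B + (x2) + (x3 + x4 + x5 + t * x5) := by
        rw [hx4, hx3, hx5, hx2]; ring
      have p1' : 0 < x1 := by rw [hx1]; linarith
      have p2' : 0 < x2 := by rw [hx2]; linarith
      have p3' : 0 < x3 := by rw [hx3]; linarith
      have p4' : 0 ≤ x4 := by rw [hx4, hx5]; linarith
      have p5' : 0 ≤ x5 := by rw [hx5]; linarith
      rw [e1, ← htd]
      clear hx1 hx2 hx3 hx4 hx5 e1 e2 hcl c2 hc1 hc2 hs
      subst f3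
      subst f5
      subst f4
      subst f2
      subst f1
      exact mul_nonneg hm1.le (nonneg_Bp g h.Bp h0 p1' p2' p3' p4' p5' ht c1)
    · -- chamber B-
      have hs' : m1 / m2 * (a1 + b1 - B - T) ≤ -(a2 + b2 - B - T) := by
        have := mul_le_mul_of_nonneg_left hs ht'.le
        have e : m1 / m2 * (m2 / m1 * -(a2 + b2 - B - T)) = -(a2 + b2 - B - T) := by
          field_simp
        linarith
      obtain ⟨t, htd⟩ : ∃ t, t = m1 / m2 := ⟨_, rfl⟩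
      rw [← htd] at ht' c2 hs'
      obtain ⟨x1, hx1⟩ : ∃ x, x = T - b1 := ⟨_, rfl⟩
      obtain ⟨x2, hx2⟩ : ∃ x, x = b2 - B := ⟨_, rfl⟩
      obtain ⟨x3, hx3⟩ : ∃ x, x = a2 - a1 := ⟨_, rfl⟩
      obtain ⟨x4, hx4⟩ : ∃ x, x = a1 + b1 - B - T := ⟨_, rfl⟩
      obtain ⟨x5, hx5⟩ : ∃ x, x = -(a2 + b2 - B - T) - t * x4 := ⟨_, rfl⟩
      have f1 : a1 = B + (x1 + x4) := by rw [hx1, hx4]; ring
      have f2 : a2 = B + (x1 + x4) + (x3) := by rw [hx1, hx4, hx3]; ring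
      have f3 : T = B + (x1 + x4) + (x3) + (x2 + x5 + t * x4) := by
        rw [hx5, hx1, hx4, hx3, hx2]; ring
      have f4 : b2 = B + (x2) := by rw [hx2]; ring
      have f5 : b1 = B + (x2) + (x3 + x4 + x5 + t * x4) := by
        rw [hx5, hx4, hx3, hx2]; ring
      have p1' : 0 < x1 := by rw [hx1]; linarith
      have p2' : 0 < x2 := by rw [hx2]; linarith
      have p3' : 0 < x3 := by rw [hx3]; linarith
      have p4' : 0 ≤ x4 := by rw [hx4]; linarith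
      have p5' : 0 ≤ x5 := by rw [hx5, hx4]; linarith
      rw [e2, ← htd]
      clear hx1 hx2 hx3 hx4 hx5 e1 e2 hcl c1 hc1 hc2 hs hs'
      subst f3
      subst f5
      subst f4
      subst f2
      subst f1
      exact mul_nonneg hm2.le (nonneg_Bm g h.Bm h0 p1' p2' p3' p4' p5' ht' c2)

/-- **all strict data** -/
theorem FH_nonneg (g : Gau) (h : AllKer g) {B T a1 a2 b1 b2 m1 m2 : ℝ} (h0 : 0 < B) (h1 : B < a1)
    (h2 : a1 < a2) (h3 : a2 < T) (h4 : B < b2) (h5 : b2 < b1) (h6 : b1 < T) (hm1 : 0 < m1)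
    (hm2 : 0 < m2) {PB PT p1 p2 q1 q2 u : ℝ}
    (hcl : m1 * (p1 + q1 - PB - PT - vst g B T PB PT u * (a1 + b1 - B - T)) +
      m2 * (p2 + q2 - PB - PT - vst g B T PB PT u * (a2 + b2 - B - T)) = 0) :
    0 ≤ FH g B T a1 a2 b1 b2 m1 m2 PB PT p1 p2 q1 q2 u := by
  by_cases hc : (0 ≤ a1 + b1 - B - T ∧ a1 + b1 - B - T ≤ a2 + b2 - B - T) ∨
      (a1 + b1 - B - T ≤ a2 + b2 - B - T ∧ a2 + b2 - B - T ≤ 0) ∨
      (0 ≤ a1 + b1 - B - T ∧ a2 + b2 - B - T ≤ 0)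
  · exact FH_nonneg_half g h h0 h1 h2 h3 h4 h5 h6 hm1 hm2 hc hcl
  · rw [FH_swap]
    refine FH_nonneg_half g h h0 h4 h5 h6 h1 h2 h3 hm2 hm1 ?_ (by linarith)
    push Not at hc
    obtain ⟨g1, g2, g3⟩ := hc
    rcases le_total 0 (a1 + b1 - B - T) with k1 | k1
    · have := g1 k1
      have := g3 k1
      left
      constructor <;> linarith
    · rcases le_total 0 (a2 + b2 - B - T) with k2 | k2
      · right; right
        constructor <;> linarith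
      · right; left
        constructor
        · by_contra hlt
          push Not at hlt
          have := g2 (by linarith)
          linarith
        · linarith

end Pool.G1.KG
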