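import Pool.Agent.Work.MP_b5407d_g1.Pl_TWO1
import Pool.Agent.Work.MP_b5407d_g1.Pl_KG3

/-!
# G1, LINE T: the two-state statement (any gauge) from the nondegeneracy of the open chambers
-/

set_option autoImplicit false

open Set

namespace Pool.G1.Gap

open Pool.G1.KG

lemma FH_oneG (g : Gau) (B T a1 a2 b1 b2 m1 m2 PB PT p1 p2 q1 q2 : ℝ) :
    FH g B T a1 a2 b1 b2 m1 m2 PB PT p1 p2 q1 q2 1 =
      TWg (muh g B T PB PT 1) B T a1 a2 b1 b2 m1 m2 PB PT p1 p2 q1 q2 := by
  unfold FH TWg Thh Th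
  ring

/-- gauges with `V` (helper35's `Gauge`) -/
theorem TWOg_of_ker (γ : Gauge) (g : Gau)
    (hv : ∀ B T PB PT : ℝ, 0 < B → B < T →
      vst g B T PB PT 1 = γ.k1 B T * ((PB + PT) / (B + T)) + γ.k2 B T)
    (hm : ∀ B T PB PT : ℝ, 0 < B → B < T → muh g B T PB PT 1 = γ.mu B T PB PT)
    (h : AllKer g) : Stmt_TWOg γ := by
  intro B T a1 a2 b1 b2 m1 m2 PB PT p1 p2 q1 q2 h0 h1 h2 h3 h4 h5 h6 hm1 hm2 hcl
  have hBT : B < T := by linarith
  rw [← hm B T PB PT h0 hBT, ← FH_oneG]
  refine FH_nonneg g h h0 h1 h2 h3 h4 h5 h6 hm1 hm2 ?_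
  rw [hv B T PB PT h0 hBT]
  exact hcl

/-- gauges without `V` (helper35's `Gauge1`) -/
theorem TWO1_of_kerG (γ : Gauge1) (g : Gau)
    (hv : ∀ B T PB PT : ℝ, 0 < B → B < T → vst g B T PB PT 1 = γ.k2 B T)
    (hm : ∀ B T PB PT : ℝ, 0 < B → B < T → muh g B T PB PT 1 = γ.mu B T PB PT)
    (h : AllKer g) : Stmt_TWO1 γ := by
  intro B T PB PT h0 hBT a1 a2 b1 b2 m1 m2 p1 p2 q1 q2 h1 h2 h3 h4 h5 h6 hm1 hm2 hcl
  rw [← hm B T PB PT h0 hBT, ← FH_oneG]
  refine FH_nonneg g h h0 h1 h2 h3 h4 h5 h6 hm1 hm2 ?_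
  rw [hv B T PB PT h0 hBT]
  exact hcl

lemma CO_div {f k : ℝ → ℝ → ℝ} (hf : Continuous fun p : ℝ × ℝ => f p.1 p.2)
    (hk : Continuous fun p : ℝ × ℝ => k p.1 p.2) (h : ∀ B T : ℝ, 0 < B → B < T → k B T ≠ 0) :
    CO fun B T => f B T / k B T :=
  ContinuousOn.div hf.continuousOn hk.continuousOn fun p hp => h p.1 p.2 hp.1 hp.2

/-- the half-shift gauge -/
noncomputable def gauH : Gau where
  u1 := fun B T => 1 / (2 * (B + T))
  u2 := fun B T => 1 / (2 * (B + T))
  u3 := fun B T => (B + T) / 8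
  c1 := fun B T => (-(4 * (T - B) * T * B) - 2 * T * (2 * (B + T) ^ 2 + (T - B) ^ 2)) /
    (3 * B * (B + T) ^ 4)
  c2 := fun B T => 8 / (3 * (B + T) ^ 2)
  c3 := fun B T => (4 * (T - B) * B * T - 2 * B * (2 * (B + T) ^ 2 + (T - B) ^ 2)) /
    (3 * T * (B + T) ^ 4)
  c4 := fun B T => (-(3 * (B + T) ^ 2) - (T - B) * T) / (3 * (B + T) ^ 2)
  c5 := fun B T => (-(3 * (B + T) ^ 2) + (T - B) * B) / (3 * (B + T) ^ 2)
  c6 := fun _ _ => 0
  hu1 := CO_div (f := fun _ _ => 1) (k := fun B T => 2 * (B + T)) (by fun_prop) (by fun_prop)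
    fun B T h1 h2 => by have : 0 < B + T := by linarith
                        positivity
  hu2 := CO_div (f := fun _ _ => 1) (k := fun B T => 2 * (B + T)) (by fun_prop) (by fun_prop)
    fun B T h1 h2 => by have : 0 < B + T := by linarith
                        positivity
  hu3 := by unfold CO; fun_prop
  hc1 := CO_div (f := fun B T => (-(4 * (T - B) * T * B) - 2 * T * (2 * (B + T) ^ 2 + (T - B) ^ 2)))
    (k := fun B T => 3 * B * (B + T) ^ 4) (by fun_prop) (by fun_prop)
    fun B T h1 h2 => by have : 0 < B + T := by linarith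
                        positivity
  hc2 := CO_div (f := fun _ _ => 8) (k := fun B T => 3 * (B + T) ^ 2) (by fun_prop) (by fun_prop)
    fun B T h1 h2 => by have : 0 < B + T := by linarith
                        positivity
  hc3 := CO_div (f := fun B T => (4 * (T - B) * B * T - 2 * B * (2 * (B + T) ^ 2 + (T - B) ^ 2)))
    (k := fun B T => 3 * T * (B + T) ^ 4) (by fun_prop) (by fun_prop)
    fun B T h1 h2 => by have : 0 < B + T := by linarith
                        have : 0 < T := by linarith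
                        positivity
  hc4 := CO_div (f := fun B T => (-(3 * (B + T) ^ 2) - (T - B) * T))
    (k := fun B T => 3 * (B + T) ^ 2) (by fun_prop) (by fun_prop)
    fun B T h1 h2 => by have : 0 < B + T := by linarith
                        positivity
  hc5 := CO_div (f := fun B T => (-(3 * (B + T) ^ 2) + (T - B) * B))
    (k := fun B T => 3 * (B + T) ^ 2) (by fun_prop) (by fun_prop)
    fun B T h1 h2 => by have : 0 < B + T := by linarith
                        positivity
  hc6 := by unfold CO; fun_prop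

/-- **the two-state statement in the gauge `gH`**, from the nondegeneracy of the open chambers -/
theorem TWOgH_of_ker (h : AllKer gauH) : Stmt_TWOg gH := by
  refine TWOg_of_ker gH gauH ?_ ?_ h
  · intro B T PB PT h0 h1
    have : 0 < B + T := by linarith
    simp only [vst, gauH, gH]
    field_simp
  · intro B T PB PT h0 h1
    have : 0 < B + T := by linarith
    have : 0 < T := by linarith
    simp only [muh, gauH, gH]
    field_simp
    ring

end Pool.G1.Gap
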