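import Pool.Agent.Work.MP_b5407d_g1.Pl_KG4

/-!
# G1, LINE T: the 10 × 10 polynomial matrix of the bordered system in the gauge `gH`

Unknowns: `φ0, φ1, φ2` (left chain, `Δ P = d_k φ_k`), `ψ0, ψ1, ψ2` (right chain), `β`, `V`, `τ'`, `λ'` with
`P_B = B V - 3 σ² β`, `P_T = T V + 3 σ² β`, `τ = 6 τ'`, `λ = 4 λ'`.  The determinant is `-5184` times the
bordered determinant times the product of the denominators (degree 22 in the heights, 8 in the masses).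
`ker_of_det`: if it does not vanish, the bordered system has only the zero solution.
-/

set_option autoImplicit false

namespace Pool.G1.KM

open Pool.G1.KG Pool.G1.Gap

section
variable {R : Type*} [CommRing R]

def V0 (B T a1 a2 b1 b2 m1 m2 : R) : R :=
  m1 * (2 * (T - B) - ((a1 - B) + (T - b1))) + m2 * (2 * (T - B) - ((a2 - B) + (T - b2)))
def V1 (B T a1 a2 b1 b2 m1 m2 : R) : R :=
  m1 * ((a1 - B) + (T - b1)) + m2 * (2 * (T - B) - ((a2 - B) + (T - b2)))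
def V2 (B T a1 a2 b1 b2 m1 m2 : R) : R :=
  m1 * ((a1 - B) + (T - b1)) + m2 * ((a2 - B) + (T - b2))
/-- total `c` -/
def Cc (B T a1 a2 b1 b2 m1 m2 : R) : R := m1 * (a1 + b1 - B - T) + m2 * (a2 + b2 - B - T)

/-- the matrix as a function of the data and of `v0 = V0, v1 = V1, v2 = V2, c = Cc`, `s = B + T`,
`q = 3 s²`, `H = T - B`, `m = m1 + m2` -/
def mat (B T a1 a2 b1 b2 m1 m2 v0 v1 v2 c s q H m : R) : Matrix (Fin 10) (Fin 10) R :=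
  !![a1 * a1 - B * B, a2 * a2 - a1 * a1, T * T - a2 * a2, 0, 0, 0, -(2 * q), -H, 0, 0;
    a1 * v0 - 2 * m1 * (a1 * a1 - B * B), -(a1 * v1), 0, 0, 0, 0, 2 * m1 * q, -(2 * m1 * B),
      6 * m1 * (a1 * a1), 4 * m1 * a1;
    0, a2 * v1, -(a2 * v2 - 2 * m2 * (T * T - a2 * a2)), 0, 0, 0, -(2 * m2 * q), -(2 * m2 * T),
      6 * m2 * (a2 * a2), 4 * m2 * a2;
    0, 0, 0, b2 * b2 - B * B, b1 * b1 - b2 * b2, T * T - b1 * b1, -(2 * q), -H, 0, 0;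
    0, 0, 0, b2 * v2 - 2 * m2 * (b2 * b2 - B * B), -(b2 * v1), 0, 2 * m2 * q, -(2 * m2 * B),
      6 * m2 * (b2 * b2), 4 * m2 * b2;
    0, 0, 0, 0, b1 * v1, -(b1 * v0 - 2 * m1 * (T * T - b1 * b1)), -(2 * m1 * q), -(2 * m1 * T),
      6 * m1 * (b1 * b1), 4 * m1 * b1;
    q * (T * B) * v0, 0, q * (T * B) * v2, q * (T * B) * v2, 0, q * (T * B) * v0,
      q * (6 * m * (s * s * s) - 2 * (2 * (s * s) + H * H) * c), T * B * (2 * H * c),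
      3 * s * (T * B) * (H * (c - 6 * m * s)), 0;
    -(B * v0), 0, T * v2, -(B * v2), 0, T * v0, 2 * H * c, 2 * m * s,
      -(3 * (2 * m * (B * B + T * T) + s * c)), -(2 * (2 * m * s + c));
    6 * m1 * a1 * (a1 * a1 - B * B), 0, -(6 * m2 * a2 * (T * T - a2 * a2)),
      6 * m2 * b2 * (b2 * b2 - B * B), 0, -(6 * m1 * b1 * (T * T - b1 * b1)),
      3 * s * (H * (c - 6 * m * s)) + 6 * q * (m2 * a2 + m1 * b1 - m1 * a1 - m2 * b2),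
      6 * (m1 * a1 * B + m2 * a2 * T + m2 * b2 * B + m1 * b1 * T) -
        3 * (2 * m * (B * B + T * T) + s * c),
      6 * (m * (B * B * B + T * T * T) - m1 * (a1 * a1 * a1 + b1 * b1 * b1) -
        m2 * (a2 * a2 * a2 + b2 * b2 * b2)), -(3 * s * c);
    4 * m1 * (a1 * a1 - B * B), 0, -(4 * m2 * (T * T - a2 * a2)), 4 * m2 * (b2 * b2 - B * B), 0,
      -(4 * m1 * (T * T - b1 * b1)), 0, -(2 * c), -(3 * s * c), 0]

/-- the matrix of the data -/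
def M10 (B T a1 a2 b1 b2 m1 m2 : R) : Matrix (Fin 10) (Fin 10) R :=
  mat B T a1 a2 b1 b2 m1 m2 (V0 B T a1 a2 b1 b2 m1 m2) (V1 B T a1 a2 b1 b2 m1 m2)
    (V2 B T a1 a2 b1 b2 m1 m2) (Cc B T a1 a2 b1 b2 m1 m2) (B + T) (3 * ((B + T) * (B + T)))
    (T - B) (m1 + m2)

end

/-- the polar form in terms of the flows -/
lemma FP_flow (g : Gau) {B T a1 a2 b1 b2 m1 m2 PB PT p1 p2 q1 q2 t f0 f1 f2 g0 g1 g2 : ℝ}
    (k0 : a1 ^ 2 - B ^ 2 ≠ 0) (k1 : a2 ^ 2 - a1 ^ 2 ≠ 0) (k2 : T ^ 2 - a2 ^ 2 ≠ 0)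
    (l0 : b2 ^ 2 - B ^ 2 ≠ 0) (l1 : b1 ^ 2 - b2 ^ 2 ≠ 0) (l2 : T ^ 2 - b1 ^ 2 ≠ 0)
    (hf0 : f0 = (p1 - PB) / (a1 ^ 2 - B ^ 2)) (hf1 : f1 = (p2 - p1) / (a2 ^ 2 - a1 ^ 2))
    (hf2 : f2 = (PT - p2) / (T ^ 2 - a2 ^ 2)) (hg0 : g0 = (q2 - PB) / (b2 ^ 2 - B ^ 2))
    (hg1 : g1 = (q1 - q2) / (b1 ^ 2 - b2 ^ 2)) (hg2 : g2 = (PT - q1) / (T ^ 2 - b1 ^ 2))
    (PB' PT' p1' p2' q1' q2' t' : ℝ) :
    FP g B T a1 a2 b1 b2 m1 m2 PB PT p1 p2 q1 q2 t PB' PT' p1' p2' q1' q2' t' =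
      V0 B T a1 a2 b1 b2 m1 m2 * (f0 * (p1' - PB')) +
      V1 B T a1 a2 b1 b2 m1 m2 * (f1 * (p2' - p1')) +
      V2 B T a1 a2 b1 b2 m1 m2 * (f2 * (PT' - p2')) +
      V2 B T a1 a2 b1 b2 m1 m2 * (g0 * (q2' - PB')) +
      V1 B T a1 a2 b1 b2 m1 m2 * (g1 * (q1' - q2')) +
      V0 B T a1 a2 b1 b2 m1 m2 * (g2 * (PT' - q1')) +
      m1 * (Tpol B PB t PB' t' + Tpol T PT t PT' t' - Tpol a1 p1 t p1' t' - Tpol b1 q1 t q1' t') +
      m2 * (Tpol B PB t PB' t' + Tpol T PT t PT' t' - Tpol a2 p2 t p2' t' - Tpol b2 q2 t q2' t') +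
      mup g B T PB PT t PB' PT' t' * Cc B T a1 a2 b1 b2 m1 m2 := by
  have e0 : (p1 - PB) * (p1' - PB') / ((a1 ^ 2 - B ^ 2) / 2) = 2 * (f0 * (p1' - PB')) := by
    rw [hf0]; field_simp
  have e1 : (p2 - p1) * (p2' - p1') / ((a2 ^ 2 - a1 ^ 2) / 2) = 2 * (f1 * (p2' - p1')) := by
    rw [hf1]; field_simp
  have e2 : (PT - p2) * (PT' - p2') / ((T ^ 2 - a2 ^ 2) / 2) = 2 * (f2 * (PT' - p2')) := by
    rw [hf2]; field_simp
  have e3 : (q2 - PB) * (q2' - PB') / ((b2 ^ 2 - B ^ 2) / 2) = 2 * (g0 * (q2' - PB')) := by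
    rw [hg0]; field_simp
  have e4 : (q1 - q2) * (q1' - q2') / ((b1 ^ 2 - b2 ^ 2) / 2) = 2 * (g1 * (q1' - q2')) := by
    rw [hg1]; field_simp
  have e5 : (PT - q1) * (PT' - q1') / ((T ^ 2 - b1 ^ 2) / 2) = 2 * (g2 * (PT' - q1')) := by
    rw [hg2]; field_simp
  unfold FP V0 V1 V2 Cc
  rw [e0, e1, e2, e3, e4, e5]
  ring

/-- **nondegeneracy from the determinant** -/
theorem ker_of_det {B T a1 a2 b1 b2 m1 m2 : ℝ} (h0 : 0 < B) (h1 : B < a1) (h2 : a1 < a2)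
    (h3 : a2 < T) (h4 : B < b2) (h5 : b2 < b1) (h6 : b1 < T)
    (hd : (M10 B T a1 a2 b1 b2 m1 m2).det ≠ 0) : Ker gauH B T a1 a2 b1 b2 m1 m2 := by
  intro PB PT p1 p2 q1 q2 t lam hcl e1 e2 e3 e4 e5 e6 e7
  have ha1 : a1 ≠ 0 := by linarith
  have ha2 : a2 ≠ 0 := by linarith
  have hT0 : T ≠ 0 := by linarith
  have hb2 : b2 ≠ 0 := by linarith
  have hb1 : b1 ≠ 0 := by linarith
  have hs : B + T ≠ 0 := by linarith
  have sq : ∀ {u v : ℝ}, 0 < u → u < v → v ^ 2 - u ^ 2 ≠ 0 := by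
    intro u v hu hv
    have : 0 < (v - u) * (v + u) := mul_pos (by linarith) (by linarith)
    have : 0 < (v ^ 2 - u ^ 2) := by nlinarith
    exact this.ne'
  have k0 := sq h0 h1
  have k1 := sq (by linarith : 0 < a1) h2
  have k2 := sq (by linarith : 0 < a2) h3
  have l0 := sq h0 h4
  have l1 := sq (by linarith : 0 < b2) h5
  have l2 := sq (by linarith : 0 < b1) h6
  obtain ⟨f0, hf0⟩ : ∃ z, z = (p1 - PB) / (a1 ^ 2 - B ^ 2) := ⟨_, rfl⟩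
  obtain ⟨f1, hf1⟩ : ∃ z, z = (p2 - p1) / (a2 ^ 2 - a1 ^ 2) := ⟨_, rfl⟩
  obtain ⟨f2, hf2⟩ : ∃ z, z = (PT - p2) / (T ^ 2 - a2 ^ 2) := ⟨_, rfl⟩
  obtain ⟨g0, hg0⟩ : ∃ z, z = (q2 - PB) / (b2 ^ 2 - B ^ 2) := ⟨_, rfl⟩
  obtain ⟨g1, hg1⟩ : ∃ z, z = (q1 - q2) / (b1 ^ 2 - b2 ^ 2) := ⟨_, rfl⟩
  obtain ⟨g2, hg2⟩ : ∃ z, z = (PT - q1) / (T ^ 2 - b1 ^ 2) := ⟨_, rfl⟩
  obtain ⟨be, hbe⟩ : ∃ z, z = (B * PT - T * PB) / (3 * (B + T) ^ 3) := ⟨_, rfl⟩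
  obtain ⟨V, hV⟩ : ∃ z, z = (PB + PT) / (B + T) := ⟨_, rfl⟩
  have r0 : p1 = PB + (a1 ^ 2 - B ^ 2) * f0 := by rw [hf0]; field_simp; ring
  have r1 : p2 = p1 + (a2 ^ 2 - a1 ^ 2) * f1 := by rw [hf1]; field_simp; ring
  have r2 : PT = p2 + (T ^ 2 - a2 ^ 2) * f2 := by rw [hf2]; field_simp; ring
  have s0 : q2 = PB + (b2 ^ 2 - B ^ 2) * g0 := by rw [hg0]; field_simp; ring
  have s1 : q1 = q2 + (b1 ^ 2 - b2 ^ 2) * g1 := by rw [hg1]; field_simp; ring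
  have s2 : PT = q1 + (T ^ 2 - b1 ^ 2) * g2 := by rw [hg2]; field_simp; ring
  have t1 : PB = B * V - 3 * (B + T) ^ 2 * be := by rw [hV, hbe]; field_simp; ring
  have t2 : PT = T * V + 3 * (B + T) ^ 2 * be := by rw [hV, hbe]; field_simp; ring
  have ff := FP_flow gauH (t := t) (m1 := m1) (m2 := m2) k0 k1 k2 l0 l1 l2 hf0 hf1 hf2 hg0 hg1 hg2
  obtain ⟨c, hc⟩ : ∃ z, z = Cc B T a1 a2 b1 b2 m1 m2 := ⟨_, rfl⟩
  obtain ⟨v0, hv0⟩ : ∃ z, z = V0 B T a1 a2 b1 b2 m1 m2 := ⟨_, rfl⟩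
  obtain ⟨v1, hv1⟩ : ∃ z, z = V1 B T a1 a2 b1 b2 m1 m2 := ⟨_, rfl⟩
  obtain ⟨v2, hv2⟩ : ∃ z, z = V2 B T a1 a2 b1 b2 m1 m2 := ⟨_, rfl⟩
  have hc' : m1 * (a1 + b1 - B - T) + m2 * (a2 + b2 - B - T) = c := by rw [hc]; rfl
  rw [ff, ← hc, ← hv0, ← hv1, ← hv2] at e1 e2 e3 e4 e5 e6 e7
  rw [hc'] at e5 e6 e7
  simp only [Tpol, mup, gauH] at e1 e2 e3 e4 e5 e6 e7
  simp only [vst, gauH] at hcl
  have hB0 : B ≠ 0 := h0.ne'
  have ia1 : a1 * a1⁻¹ = 1 := mul_inv_cancel₀ ha1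
  have ia2 : a2 * a2⁻¹ = 1 := mul_inv_cancel₀ ha2
  have ib1 : b1 * b1⁻¹ = 1 := mul_inv_cancel₀ hb1
  have ib2 : b2 * b2⁻¹ = 1 := mul_inv_cancel₀ hb2
  have p1e : p1 = B * V - 3 * (B + T) ^ 2 * be + (a1 ^ 2 - B ^ 2) * f0 := by rw [r0, t1]
  have p2e : p2 = T * V + 3 * (B + T) ^ 2 * be - (T ^ 2 - a2 ^ 2) * f2 := by rw [← t2]; linarith
  have q2e : q2 = B * V - 3 * (B + T) ^ 2 * be + (b2 ^ 2 - B ^ 2) * g0 := by rw [s0, t1]
  have q1e : q1 = T * V + 3 * (B + T) ^ 2 * be - (T ^ 2 - b1 ^ 2) * g2 := by rw [← t2]; linarith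
  have mv : (M10 B T a1 a2 b1 b2 m1 m2).mulVec ![f0, f1, f2, g0, g1, g2, be, V, t / 6, lam / 4] = 0 := by
    unfold M10 mat
    rw [← hc, ← hv0, ← hv1, ← hv2]
    funext i
    fin_cases i
    · simp [Matrix.mulVec, dotProduct, Fin.sum_univ_succ]
      linear_combination (-1 : ℝ) * r0 - r1 - r2 + t2 - t1
    · simp [Matrix.mulVec, dotProduct, Fin.sum_univ_succ]
      linear_combination a1 * e1 + 2 * m1 * p1 * ia1 + 2 * m1 * r0 + 2 * m1 * t1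
    · simp [Matrix.mulVec, dotProduct, Fin.sum_univ_succ]
      linear_combination a2 * e2 + 2 * m2 * p2 * ia2 - 2 * m2 * r2 + 2 * m2 * t2
    · simp [Matrix.mulVec, dotProduct, Fin.sum_univ_succ]
      linear_combination (-1 : ℝ) * s0 - s1 - s2 + t2 - t1
    · simp [Matrix.mulVec, dotProduct, Fin.sum_univ_succ]
      linear_combination b2 * e4 + 2 * m2 * q2 * ib2 + 2 * m2 * s0 + 2 * m2 * t1
    · simp [Matrix.mulVec, dotProduct, Fin.sum_univ_succ]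
      linear_combination b1 * e3 + 2 * m1 * q1 * ib1 - 2 * m1 * s2 + 2 * m1 * t2
    · simp [Matrix.mulVec, dotProduct, Fin.sum_univ_succ]
      rw [t1, t2] at e5 e6
      linear_combination (norm := skip) 3 * (B + T) ^ 2 * (T * B) * (e6 - e5)
      field_simp
      ring
    · simp [Matrix.mulVec, dotProduct, Fin.sum_univ_succ]
      rw [t1, t2] at e5 e6
      linear_combination (norm := skip) B * e5 + T * e6
      field_simp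
      ring
    · simp [Matrix.mulVec, dotProduct, Fin.sum_univ_succ]
      rw [p1e, p2e, q1e, q2e, t1, t2] at e7
      linear_combination (norm := skip) 6 * e7
      field_simp
      ring
    · simp [Matrix.mulVec, dotProduct, Fin.sum_univ_succ]
      rw [p1e, p2e, q1e, q2e, t1, t2] at hcl
      rw [← hc']
      linear_combination (norm := skip) 4 * hcl
      field_simp
      ring
  have hz := Matrix.eq_zero_of_mulVec_eq_zero hd mv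
  have z0 : f0 = 0 := congrFun hz 0
  have z2 : f2 = 0 := congrFun hz 2
  have z3 : g0 = 0 := congrFun hz 3
  have z5 : g2 = 0 := congrFun hz 5
  have z6 : be = 0 := congrFun hz 6
  have z7 : V = 0 := congrFun hz 7
  have z8 : t / 6 = 0 := congrFun hz 8
  have w1 : PB = 0 := by rw [t1, z6, z7]; ring
  have w2 : PT = 0 := by rw [t2, z6, z7]; ring
  refine ⟨w1, w2, ?_, ?_, ?_, ?_⟩
  · rw [z2, w2] at r2
    linarith
  · rw [z5, w2] at s2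
    linarith
  · rw [s0, z3, w1]; ring
  · linarith

end Pool.G1.KM
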