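import Pool.Agent.Work.MP_b5407d_g1.Pl_KM

/-!
# G1, LINE T: `Stmt_TWOg gH` from the non-vanishing of `det M10` on the four open chambers
-/

set_option autoImplicit false

namespace Pool.G1.KM

open Pool.G1.KG Pool.G1.Gap

section
variable {R : Type*} [CommRing R]

/-- chamber A: `0 < c1 < c2`, `m = (1, t)` -/
def DA (B x1 x2 x3 x4 x5 t : R) : R :=
  (M10 B (B + (x1 + x4) + (x3 + x5) + x2) (B + (x1 + x4)) (B + (x1 + x4) + (x3 + x5))
    (B + (x2 + x4 + x5) + x3) (B + (x2 + x4 + x5)) 1 t).det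

/-- chamber B+: `c1 = x4 + t x5`, `c2 = -x5`, `m = (1, t)` -/
def DBp (B x1 x2 x3 x4 x5 t : R) : R :=
  (M10 B (B + (x1 + x4 + t * x5) + x3 + (x2 + x5)) (B + (x1 + x4 + t * x5))
    (B + (x1 + x4 + t * x5) + x3) (B + x2 + (x3 + x4 + x5 + t * x5)) (B + x2) 1 t).det

/-- chamber B-: `c1 = x4`, `c2 = -(x5 + t x4)`, `m = (t, 1)` -/
def DBm (B x1 x2 x3 x4 x5 t : R) : R :=
  (M10 B (B + (x1 + x4) + x3 + (x2 + x5 + t * x4)) (B + (x1 + x4)) (B + (x1 + x4) + x3)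
    (B + x2 + (x3 + x4 + x5 + t * x4)) (B + x2) t 1).det

/-- chamber C: `c1 = -(x4 + x5)`, `c2 = -x4`, `m = (1, t)` -/
def DC (B x1 x2 x3 x4 x5 t : R) : R :=
  (M10 B (B + x1 + (x3 + x5) + (x2 + x4)) (B + x1) (B + x1 + (x3 + x5)) (B + x2 + x3) (B + x2)
    1 t).det

end

/-- the four chambers -/
structure DetNe : Prop where
  A : ∀ B x1 x2 x3 x4 x5 t : ℝ, 0 < B → 0 < x1 → 0 < x2 → 0 < x3 → 0 < x4 → 0 < x5 → 0 < t →
    DA B x1 x2 x3 x4 x5 t ≠ 0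
  Bp : ∀ B x1 x2 x3 x4 x5 t : ℝ, 0 < B → 0 < x1 → 0 < x2 → 0 < x3 → 0 < x4 → 0 < x5 → 0 < t →
    DBp B x1 x2 x3 x4 x5 t ≠ 0
  Bm : ∀ B x1 x2 x3 x4 x5 t : ℝ, 0 < B → 0 < x1 → 0 < x2 → 0 < x3 → 0 < x4 → 0 < x5 → 0 < t →
    DBm B x1 x2 x3 x4 x5 t ≠ 0
  C : ∀ B x1 x2 x3 x4 x5 t : ℝ, 0 < B → 0 < x1 → 0 < x2 → 0 < x3 → 0 < x4 → 0 < x5 → 0 < t →
    DC B x1 x2 x3 x4 x5 t ≠ 0

/-- **reduction of the two-state statement to the four determinants** -/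
theorem TWOgH_of_det (h : DetNe) : Stmt_TWOg gH := by
  refine TWOgH_of_ker ⟨?_, ?_, ?_, ?_⟩
  · intro B x1 x2 x3 x4 x5 t hB h1 h2 h3 h4 h5 ht
    have := h.A B x1 x2 x3 x4 x5 t hB h1 h2 h3 h4 h5 ht
    exact ker_of_det hB (by linarith) (by linarith) (by linarith) (by linarith) (by linarith)
      (by linarith) this
  · intro B x1 x2 x3 x4 x5 t hB h1 h2 h3 h4 h5 ht
    have := h.Bp B x1 x2 x3 x4 x5 t hB h1 h2 h3 h4 h5 ht
    have k := mul_pos ht h5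
    exact ker_of_det hB (by linarith) (by linarith) (by linarith) (by linarith) (by linarith)
      (by linarith) this
  · intro B x1 x2 x3 x4 x5 t hB h1 h2 h3 h4 h5 ht
    have := h.Bm B x1 x2 x3 x4 x5 t hB h1 h2 h3 h4 h5 ht
    have k := mul_pos ht h4
    exact ker_of_det hB (by linarith) (by linarith) (by linarith) (by linarith) (by linarith)
      (by linarith) this
  · intro B x1 x2 x3 x4 x5 t hB h1 h2 h3 h4 h5 ht
    have := h.C B x1 x2 x3 x4 x5 t hB h1 h2 h3 h4 h5 ht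
    exact ker_of_det hB (by linarith) (by linarith) (by linarith) (by linarith) (by linarith)
      (by linarith) this

end Pool.G1.KM
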