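import Mathlib

/-!
G1, LINE T: Kronecker digit test.

* `mask`, `dig`   : one-dimensional digit test (balanced digits of size b bits).
* `kron`          : for f in Z[x_1..x_n] with degrees < s_i and coefficients of absolute value
                    < 2^(b-1), the value at the Kronecker point together with the mask test shows
                    that ALL coefficients are >= 0.
* `pos_of_coeff`  : then f > 0 at all points with positive coordinates (f nonzero).
* `W`             : transfer type: polynomial + degree bounds + bound of the coefficients.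
-/

namespace Pool.G1.KRO

open MvPolynomial

/-! ### the mask -/

/-- `mask b M` has exactly the bits `b j + b - 1`, `j < M`. -/
def mask (b : ℕ) : ℕ → ℕ
  | 0 => 0
  | M + 1 => mask b M * 2 ^ b + 2 ^ (b - 1)

theorem mask_eq (b M : ℕ) (hb : 0 < b) :
    mask b M = (2 ^ (b * M) - 1) / (2 ^ b - 1) * 2 ^ (b - 1) := by
  have h1 : 1 < 2 ^ b := Nat.one_lt_two_pow hb.ne'
  have key : ∀ M : ℕ, ∃ q : ℕ, 2 ^ (b * M) = q * (2 ^ b - 1) + 1 ∧ mask b M = q * 2 ^ (b - 1) := by
    intro M
    induction M with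
    | zero => exact ⟨0, by simp, by simp [mask]⟩
    | succ M ih =>
      obtain ⟨q, hq, hm⟩ := ih
      refine ⟨q * 2 ^ b + 1, ?_, ?_⟩
      · obtain ⟨r, hr⟩ : ∃ r, 2 ^ b = r + 1 := ⟨2 ^ b - 1, by omega⟩
        rw [Nat.mul_succ, pow_add, hq, hr]
        simp only [Nat.add_sub_cancel]
        ring
      · rw [mask, hm]; ring
  obtain ⟨q, hq, hm⟩ := key M
  rw [hm, hq, Nat.add_sub_cancel, Nat.mul_div_cancel _ (by omega)]

theorem mask_testBit (b M : ℕ) (hb : 0 < b) : ∀ j < M, (mask b M).testBit (b * j + (b - 1)) = true := by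
  induction M with
  | zero => intro j hj; omega
  | succ M ih =>
    intro j hj
    have h2 : (2 : ℕ) ^ (b - 1) < 2 ^ b := Nat.pow_lt_pow_right (by norm_num) (by omega)
    rw [mask, mul_comm (mask b M), Nat.testBit_two_pow_mul_add _ h2]
    rcases j with _ | j
    · simp only [mul_zero, zero_add]
      rw [if_pos (by omega)]
      exact Nat.testBit_two_pow_self
    · rw [if_neg (by rw [Nat.mul_succ]; omega)]
      have : b * (j + 1) + (b - 1) - b = b * j + (b - 1) := by rw [Nat.mul_succ]; omega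
      rw [this]
      exact ih j (by omega)

/-! ### one-dimensional digit test -/

theorem dig (b : ℕ) (hb : 0 < b) (M : ℕ) : ∀ (c : ℕ → ℤ) (_ : ∀ j, |c j| < 2 ^ (b - 1)) (K : ℕ)
    (_ : (K : ℤ) = ∑ j ∈ Finset.range M, c j * 2 ^ (b * j))
    (_ : ∀ j < M, K.testBit (b * j + (b - 1)) = false), ∀ j < M, 0 ≤ c j := by
  induction M with
  | zero => intro c hc K hK hm j hj; omega
  | succ M ih =>
    intro c hc K hK hm
    have hpow : (2 : ℤ) ^ b = 2 * 2 ^ (b - 1) := by
      rw [← pow_succ']; congr 1; omega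
    -- the sum without its first term
    have hS : (K : ℤ) = c 0 + 2 ^ b * ∑ j ∈ Finset.range M, c (j + 1) * 2 ^ (b * j) := by
      rw [hK, Finset.sum_range_succ', Finset.mul_sum]
      simp only [mul_zero, pow_zero, mul_one]
      rw [add_comm]
      congr 1
      refine Finset.sum_congr rfl fun j _ => ?_
      rw [Nat.mul_succ, pow_add]; ring
    set S : ℤ := ∑ j ∈ Finset.range M, c (j + 1) * 2 ^ (b * j) with hSdef
    have hc0 := hc 0
    rw [abs_lt] at hc0
    -- K mod 2^b < 2^(b-1)
    have h0 := hm 0 (by omega)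
    simp only [mul_zero, zero_add] at h0
    have hmod : K % 2 ^ b < 2 ^ (b - 1) := by
      by_contra hcon
      push Not at hcon
      have hlt : K % 2 ^ b < 2 ^ b := Nat.mod_lt _ (by positivity)
      have hpn : (2 : ℕ) ^ b = 2 * 2 ^ (b - 1) := by
        rw [← pow_succ']; congr 1; omega
      have : (K % 2 ^ b).testBit (b - 1) = true := by
        rw [Nat.testBit_eq_decide_div_mod_eq]
        have hq : K % 2 ^ b / 2 ^ (b - 1) = 1 := by
          apply Nat.div_eq_of_lt_le
          · simpa using hcon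
          · have : K % 2 ^ b < 2 * 2 ^ (b - 1) := lt_of_lt_of_eq hlt hpn
            simpa using this
        rw [hq]; rfl
      rw [Nat.testBit_mod_two_pow] at this
      simp [h0] at this
    have hKdiv : (K : ℤ) = (K % 2 ^ b : ℕ) + 2 ^ b * (K / 2 ^ b : ℕ) := by
      have := Nat.mod_add_div K (2 ^ b)
      exact_mod_cast this.symm
    have hmodZ : ((K % 2 ^ b : ℕ) : ℤ) < 2 ^ (b - 1) := by exact_mod_cast hmod
    have hmod0 : (0 : ℤ) ≤ ((K % 2 ^ b : ℕ) : ℤ) := by positivity
    -- compare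
    have heq : S = (K / 2 ^ b : ℕ) := by
      have hd : c 0 - ((K % 2 ^ b : ℕ) : ℤ) = 2 ^ b * ((K / 2 ^ b : ℕ) - S) := by linarith
      have hP : (0 : ℤ) < 2 ^ (b - 1) := by positivity
      by_contra hne
      rcases lt_or_gt_of_ne hne with h | h
      · have h1 : (1 : ℤ) ≤ (K / 2 ^ b : ℕ) - S := by omega
        have : (2 : ℤ) ^ b ≤ 2 ^ b * ((K / 2 ^ b : ℕ) - S) := by
          nlinarith [hpow]
        linarith
      · have h1 : ((K / 2 ^ b : ℕ) : ℤ) - S ≤ -1 := by omega
        have : 2 ^ b * (((K / 2 ^ b : ℕ) : ℤ) - S) ≤ -(2 : ℤ) ^ b := by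
          nlinarith [hpow]
        linarith
    have hc0' : c 0 = ((K % 2 ^ b : ℕ) : ℤ) := by
      have : c 0 + 2 ^ b * S = (K % 2 ^ b : ℕ) + 2 ^ b * S := by
        rw [← hS, hKdiv, heq]
      linarith
    intro j hj
    rcases j with _ | j
    · rw [hc0']; exact hmod0
    · refine ih (fun j => c (j + 1)) (fun j => hc (j + 1)) (K / 2 ^ b) ?_ ?_ j (by omega)
      · rw [← heq]
      · intro i hi
        have := hm (i + 1) (by omega)
        rw [Nat.testBit_div_two_pow]
        rw [← this]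
        congr 1
        rw [Nat.mul_succ]; ring

theorem dig_mask (b : ℕ) (hb : 0 < b) (M : ℕ) (c : ℕ → ℤ) (hc : ∀ j, |c j| < 2 ^ (b - 1)) (K : ℕ)
    (hK : (K : ℤ) = ∑ j ∈ Finset.range M, c j * 2 ^ (b * j))
    (hm : K &&& mask b M = 0) : ∀ j < M, 0 ≤ c j := by
  refine dig b hb M c hc K hK fun j hj => ?_
  have h := congrArg (fun z => Nat.testBit z (b * j + (b - 1))) hm
  simp only [Nat.testBit_and, mask_testBit b M hb j hj, Bool.and_true, Nat.zero_testBit] at h
  exact h

/-! ### several variables -/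

variable {n : ℕ}

/-- position of a monomial for the weights `w`. -/
def code (w : Fin n → ℕ) (m : Fin n →₀ ℕ) : ℕ := ∑ i, m i * w i

/-- the Kronecker point. -/
def kpt (w : Fin n → ℕ) (b : ℕ) (i : Fin n) : ℤ := 2 ^ (b * w i)

theorem prod_kpt (w : Fin n → ℕ) (b : ℕ) (m : Fin n →₀ ℕ) :
    ∏ i, kpt w b i ^ m i = 2 ^ (b * code w m) := by
  simp only [kpt, code, ← pow_mul, Finset.mul_sum]
  rw [Finset.prod_pow_eq_pow_sum]
  congr 1
  refine Finset.sum_congr rfl fun i _ => ?_
  ring

/-- general form: any set `S` of exponents on which the position is injective and `< M`. -/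
theorem kron (w : Fin n → ℕ) (S : Set (Fin n →₀ ℕ)) (M : ℕ) (hinj : Set.InjOn (code w) S)
    (hlt : ∀ m ∈ S, code w m < M) (b : ℕ) (hb : 0 < b) (f : MvPolynomial (Fin n) ℤ)
    (hS : ∀ m ∈ f.support, m ∈ S) (hc : ∀ m, |f.coeff m| < 2 ^ (b - 1)) (K : ℕ)
    (hK : (K : ℤ) = eval (kpt w b) f) (hmask : K &&& mask b M = 0) :
    ∀ m, 0 ≤ f.coeff m := by
  classical
  -- coefficient at position j
  let c : ℕ → ℤ := fun j => ∑ m ∈ f.support with code w m = j, f.coeff m
  have hcode : ∀ m ∈ f.support, c (code w m) = f.coeff m := by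
    intro m hm
    show ∑ m' ∈ f.support with code w m' = code w m, f.coeff m' = f.coeff m
    have : (f.support.filter fun m' => code w m' = code w m) = {m} := by
      ext m'
      simp only [Finset.mem_filter, Finset.mem_singleton]
      constructor
      · rintro ⟨h1, h2⟩
        exact hinj (hS _ h1) (hS _ hm) h2
      · rintro rfl
        exact ⟨hm, rfl⟩
    rw [this, Finset.sum_singleton]
  have hcb : ∀ j, |c j| < 2 ^ (b - 1) := by
    intro j
    by_cases hj : ∃ m ∈ f.support, code w m = j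
    · obtain ⟨m, hm, rfl⟩ := hj
      rw [hcode m hm]; exact hc m
    · have : c j = 0 := by
        apply Finset.sum_eq_zero
        intro m hm
        rw [Finset.mem_filter] at hm
        exact absurd ⟨m, hm.1, hm.2⟩ hj
      rw [this, abs_zero]; positivity
  have hsum : (K : ℤ) = ∑ j ∈ Finset.range M, c j * 2 ^ (b * j) := by
    rw [hK, eval_eq']
    simp only [prod_kpt]
    rw [← Finset.sum_fiberwise_of_maps_to (s := f.support) (t := Finset.range M)
      (g := code w) (fun m hm => Finset.mem_range.2 (hlt m (hS m hm)))]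
    refine Finset.sum_congr rfl fun j _ => ?_
    rw [Finset.sum_mul]
    refine Finset.sum_congr rfl fun m hm => ?_
    rw [(Finset.mem_filter.1 hm).2]
  have := dig_mask b hb M c hcb K hsum hmask
  intro m
  by_cases hm : m ∈ f.support
  · rw [← hcode m hm]
    exact this _ (hlt m (hS m hm))
  · rw [notMem_support_iff.1 hm]

/-! ### box weights -/

/-- Kronecker weights belonging to the box sizes `s`. -/
def wt (s : Fin n → ℕ) (i : Fin n) : ℕ := ∏ j : Fin (i : ℕ), s (Fin.castLE i.is_lt.le j)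

theorem code_eq (s : Fin n → ℕ) (m : Fin n →₀ ℕ) (hm : ∀ i, m i < s i) :
    code (wt s) m = (finPiFinEquiv (fun i => (⟨m i, hm i⟩ : Fin (s i))) : ℕ) := by
  rw [finPiFinEquiv_apply]; rfl

theorem code_lt (s : Fin n → ℕ) (m : Fin n →₀ ℕ) (hm : ∀ i, m i < s i) :
    code (wt s) m < ∏ i, s i := by
  rw [code_eq s m hm]; exact Fin.is_lt _

theorem code_inj (s : Fin n → ℕ) (m m' : Fin n →₀ ℕ) (hm : ∀ i, m i < s i) (hm' : ∀ i, m' i < s i)
    (h : code (wt s) m = code (wt s) m') : m = m' := by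
  rw [code_eq s m hm, code_eq s m' hm'] at h
  have := finPiFinEquiv.injective (Fin.ext h)
  ext i
  have := congrFun this i
  simpa using congrArg Fin.val this

/-- box form. -/
theorem kron_box (s : Fin n → ℕ) (b : ℕ) (hb : 0 < b) (f : MvPolynomial (Fin n) ℤ)
    (hd : ∀ i, f.degreeOf i < s i) (hc : ∀ m, |f.coeff m| < 2 ^ (b - 1)) (K : ℕ)
    (hK : (K : ℤ) = eval (kpt (wt s) b) f) (hmask : K &&& mask b (∏ i, s i) = 0) :
    ∀ m, 0 ≤ f.coeff m :=
  kron (wt s) {m | ∀ i, m i < s i} (∏ i, s i) (fun m hm m' hm' h => code_inj s m m' hm hm' h)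
    (fun m hm => code_lt s m hm) b hb f
    (fun m hm i => lt_of_le_of_lt (monomial_le_degreeOf i hm) (hd i)) hc K hK hmask

/-- a nonzero polynomial with coefficients >= 0 is > 0 at positive points. -/
theorem pos_of_coeff (f : MvPolynomial (Fin n) ℤ) (hf : ∀ m, 0 ≤ f.coeff m) (hne : f ≠ 0)
    (x : Fin n → ℝ) (hx : ∀ i, 0 < x i) : 0 < aeval x f := by
  rw [aeval_def, eval₂_eq']
  have hpos : ∀ m : Fin n →₀ ℕ, 0 < ∏ i, x i ^ m i := fun m =>
    Finset.prod_pos fun i _ => pow_pos (hx i) _
  have hne' : f.support.Nonempty := support_nonempty.2 hne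
  apply Finset.sum_pos _ hne'
  intro m hm
  have h1 : 0 < f.coeff m := lt_of_le_of_ne (hf m) (Ne.symm (mem_support_iff.1 hm))
  have h2 : (0 : ℝ) < algebraMap ℤ ℝ (f.coeff m) := by
    simpa using h1
  exact mul_pos h2 (hpos m)

theorem nonneg_of_coeff (f : MvPolynomial (Fin n) ℤ) (hf : ∀ m, 0 ≤ f.coeff m)
    (x : Fin n → ℝ) (hx : ∀ i, 0 ≤ x i) : 0 ≤ aeval x f := by
  rw [aeval_def, eval₂_eq']
  refine Finset.sum_nonneg fun m _ => mul_nonneg ?_ ?_
  · have := hf m
    simpa using this
  · exact Finset.prod_nonneg fun i _ => pow_nonneg (hx i) _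

end Pool.G1.KRO
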