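import Mathlib

/-!
# G1, line P: kernel checker for matrix polynomials, part 1: homogeneous Bernstein conversion

`hs u v [a_0, .., a_d] = Σ a_k u^k v^(d-k)`.  The conversion `conv` replaces the coefficients of a form in
`(X, Z)` by those of the form in `(u, v)`, `X = lo v + hi u`, `Z = D (u + v)`.  Everything is generic in the type
of the coefficients (nested lists of packed natural numbers in the kernel).
-/

set_option autoImplicit false

namespace Pool.G1.MB

/-! ## list functions written with recursors (fast in the kernel) -/

section ops
variable {M N : Type}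

noncomputable def mapL (f : M → N) (l : List M) : List N :=
  List.rec (motive := fun _ => List N) [] (fun a _ ih => f a :: ih) l

theorem mapL_eq (f : M → N) (l : List M) : mapL f l = l.map f := by
  induction l with
  | nil => rfl
  | cons a l ih => show f a :: mapL f l = _; rw [ih]; rfl

noncomputable def zipW (f : M → M → M) (l : List M) : List M → List M :=
  List.rec (motive := fun _ => List M → List M) (fun _ => [])
    (fun a _ ih l' => List.rec (motive := fun _ => List M) [] (fun b t' _ => f a b :: ih t') l') l

theorem zipW_eq (f : M → M → M) (l l' : List M) : zipW f l l' = List.zipWith f l l' := by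
  induction l generalizing l' with
  | nil => rfl
  | cons a l ih =>
    cases l' with
    | nil => rfl
    | cons b l' => show f a b :: zipW f l l' = _; rw [ih]; rfl

/-- zip with padding -/
noncomputable def zipP (f : M → M → M) (l : List M) : List M → List M :=
  List.rec (motive := fun _ => List M → List M) (fun l' => l')
    (fun a t ih l' => List.rec (motive := fun _ => List M) (a :: t) (fun b t' _ => f a b :: ih t') l') l

theorem zipP_nil_left (f : M → M → M) (l : List M) : zipP f [] l = l := rfl
theorem zipP_nil_right (f : M → M → M) (l : List M) : zipP f l [] = l := by cases l <;> rfl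
theorem zipP_cons (f : M → M → M) (a b : M) (l l' : List M) :
    zipP f (a :: l) (b :: l') = f a b :: zipP f l l' := rfl

noncomputable def mulAux (add : M → M → M) (slo shi : M → M) (l : List M) : M → List M :=
  List.rec (motive := fun _ => M → List M) (fun prev => [shi prev])
    (fun h _ ih prev => add (slo h) (shi prev) :: ih h) l

theorem mulAux_nil (add : M → M → M) (slo shi : M → M) (p : M) :
    mulAux add slo shi [] p = [shi p] := rfl
theorem mulAux_cons (add : M → M → M) (slo shi : M → M) (h : M) (t : List M) (p : M) :
    mulAux add slo shi (h :: t) p = add (slo h) (shi p) :: mulAux add slo shi t h := rfl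

noncomputable def mulLin (add : M → M → M) (slo shi : M → M) (l : List M) : List M :=
  List.rec (motive := fun _ => List M) [] (fun h t _ => slo h :: mulAux add slo shi t h) l

theorem mulLin_nil (add : M → M → M) (slo shi : M → M) : mulLin add slo shi [] = [] := rfl
theorem mulLin_cons (add : M → M → M) (slo shi : M → M) (h : M) (t : List M) :
    mulLin add slo shi (h :: t) = slo h :: mulAux add slo shi t h := rfl

noncomputable def conv (add : M → M → M) (slo shi : M → M) (sm : ℕ → M → M) (l : List M) :
    List (List ℕ) → List M :=
  List.rec (motive := fun _ => List (List ℕ) → List M) (fun _ => [])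
    (fun a l' ih Ss => List.rec (motive := fun _ => List M) [a]
      (fun _ _ _ => List.rec (motive := fun _ => List M) []
        (fun S Ss' _ => zipW add (mulLin add slo shi (ih Ss')) (mapL (fun s => sm s a) S)) Ss) l') l

theorem conv_nil (add : M → M → M) (slo shi : M → M) (sm : ℕ → M → M) (Ss : List (List ℕ)) :
    conv add slo shi sm [] Ss = [] := rfl
theorem conv_one (add : M → M → M) (slo shi : M → M) (sm : ℕ → M → M) (a : M)
    (Ss : List (List ℕ)) : conv add slo shi sm [a] Ss = [a] := rfl
theorem conv_cons (add : M → M → M) (slo shi : M → M) (sm : ℕ → M → M) (a b : M) (l : List M)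
    (S : List ℕ) (Ss : List (List ℕ)) :
    conv add slo shi sm (a :: b :: l) (S :: Ss) =
      zipW add (mulLin add slo shi (conv add slo shi sm (b :: l) Ss)) (mapL (fun s => sm s a) S) :=
  rfl

end ops

/-! ## homogeneous evaluation -/

def hs (u v : ℝ) : List ℝ → ℝ
  | [] => 0
  | a :: l => a * v ^ l.length + u * hs u v l

theorem hs_cons (u v a : ℝ) (l : List ℝ) : hs u v (a :: l) = a * v ^ l.length + u * hs u v l := rfl

theorem hs_add (u v : ℝ) (l l' : List ℝ) (h : l.length = l'.length) :
    hs u v (List.zipWith (· + ·) l l') = hs u v l + hs u v l' := by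
  induction l generalizing l' with
  | nil => cases l' with
    | nil => simp [hs]
    | cons b l' => simp at h
  | cons a l ih =>
    cases l' with
    | nil => simp at h
    | cons b l' =>
      have h' : l.length = l'.length := by simpa using h
      simp only [List.zipWith_cons_cons, hs, ih l' h', List.length_zipWith, h', min_self]
      ring

theorem hs_smul (u v c : ℝ) (l : List ℝ) : hs u v (l.map (fun a => c * a)) = c * hs u v l := by
  induction l with
  | nil => simp [hs]
  | cons a l ih => simp only [List.map_cons, hs, List.length_map, ih]; ring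

/-- coefficients of `(D (u + v))^k`, `k = length - 1` -/
def GoodS (D : ℝ) (S : List ℕ) : Prop :=
  ∀ u v : ℝ, hs u v (S.map (fun s : ℕ => (s : ℝ))) = (D * (u + v)) ^ (S.length - 1)

/-- the list `Ss` fits to lists of length `n` -/
def FitS (D : ℝ) : ℕ → List (List ℕ) → Prop
  | 0, _ => True
  | 1, _ => True
  | _ + 2, [] => False
  | n + 2, S :: Ss => S.length = n + 2 ∧ GoodS D S ∧ FitS D (n + 1) Ss

section sem
variable {M : Type} (add : M → M → M) (slo shi : M → M) (sm : ℕ → M → M) (good : M → Prop)
  (f : M → ℝ) (lo hi D : ℝ)

/-- the operations are compatible with the semantics `f` on good elements -/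
structure Comp : Prop where
  gadd : ∀ a b, good a → good b → good (add a b)
  fadd : ∀ a b, good a → good b → f (add a b) = f a + f b
  glo : ∀ a, good a → good (slo a)
  flo : ∀ a, good a → f (slo a) = lo * f a
  ghi : ∀ a, good a → good (shi a)
  fhi : ∀ a, good a → f (shi a) = hi * f a
  gsm : ∀ s a, good a → good (sm s a)
  fsm : ∀ s a, good a → f (sm s a) = s * f a

variable {add slo shi sm good f lo hi D}

theorem mulAux_len (l : List M) (p : M) : (mulAux add slo shi l p).length = l.length + 1 := by
  induction l generalizing p with
  | nil => rfl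
  | cons a l ih => rw [mulAux_cons]; simp [ih]

theorem mulLin_len (l : List M) (h : l ≠ []) : (mulLin add slo shi l).length = l.length + 1 := by
  cases l with
  | nil => exact absurd rfl h
  | cons a l => rw [mulLin_cons]; simp [mulAux_len]

theorem mulAux_sem (H : Comp add slo shi sm good f lo hi) (u v : ℝ) (l : List M) (p : M)
    (hl : ∀ a ∈ l, good a) (hp : good p) :
    (∀ a ∈ mulAux add slo shi l p, good a) ∧
    hs u v ((mulAux add slo shi l p).map f) =
      hi * f p * v ^ l.length + (lo * v + hi * u) * hs u v (l.map f) := by
  induction l generalizing p with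
  | nil =>
    rw [mulAux_nil]
    refine ⟨fun a ha => ?_, ?_⟩
    · rw [List.mem_singleton] at ha; subst ha; exact H.ghi p hp
    · simp [hs, H.fhi p hp]
  | cons a l ih =>
    rw [mulAux_cons]
    have ha : good a := hl a (by simp)
    obtain ⟨h1, h2⟩ := ih a (fun b hb => hl b (by simp [hb])) ha
    refine ⟨fun b hb => ?_, ?_⟩
    · rcases List.mem_cons.1 hb with rfl | hb
      · exact H.gadd _ _ (H.glo a ha) (H.ghi p hp)
      · exact h1 b hb
    · simp only [List.map_cons, hs, List.length_map, mulAux_len, h2,
        H.fadd _ _ (H.glo a ha) (H.ghi p hp), H.flo a ha, H.fhi p hp, List.length_cons]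
      ring

theorem mulLin_sem (H : Comp add slo shi sm good f lo hi) (u v : ℝ) (l : List M)
    (hl : ∀ a ∈ l, good a) :
    (∀ a ∈ mulLin add slo shi l, good a) ∧
    hs u v ((mulLin add slo shi l).map f) = (lo * v + hi * u) * hs u v (l.map f) := by
  cases l with
  | nil => rw [mulLin_nil]; simp [hs]
  | cons a l =>
    rw [mulLin_cons]
    have ha : good a := hl a (by simp)
    obtain ⟨h1, h2⟩ := mulAux_sem H u v l a (fun b hb => hl b (by simp [hb])) ha
    refine ⟨fun b hb => ?_, ?_⟩
    · rcases List.mem_cons.1 hb with rfl | hb
      · exact H.glo a ha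
      · exact h1 b hb
    · simp only [List.map_cons, hs, List.length_map, mulAux_len, h2, H.flo a ha]
      ring

theorem zip_good (H : Comp add slo shi sm good f lo hi) (l l' : List M)
    (hl : ∀ a ∈ l, good a) (hl' : ∀ a ∈ l', good a) :
    (∀ a ∈ List.zipWith add l l', good a) ∧
    (List.zipWith add l l').map f = List.zipWith (· + ·) (l.map f) (l'.map f) := by
  induction l generalizing l' with
  | nil => simp
  | cons a l ih =>
    cases l' with
    | nil => simp
    | cons b l' =>
      obtain ⟨h1, h2⟩ := ih l' (fun c hc => hl c (by simp [hc])) (fun c hc => hl' c (by simp [hc]))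
      refine ⟨fun c hc => ?_, ?_⟩
      · rw [List.zipWith_cons_cons] at hc
        rcases List.mem_cons.1 hc with rfl | hc
        · exact H.gadd _ _ (hl a (by simp)) (hl' b (by simp))
        · exact h1 c hc
      · simp only [List.zipWith_cons_cons, List.map_cons, h2,
          H.fadd _ _ (hl a (by simp)) (hl' b (by simp))]

/-- semantics of the conversion -/
theorem conv_sem (H : Comp add slo shi sm good f lo hi) (u v : ℝ) (l : List M)
    (Ss : List (List ℕ)) (hS : FitS D l.length Ss) (hl : ∀ a ∈ l, good a) :
    (∀ a ∈ conv add slo shi sm l Ss, good a) ∧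
    (conv add slo shi sm l Ss).length = l.length ∧
    hs u v ((conv add slo shi sm l Ss).map f) =
      hs (lo * v + hi * u) (D * (u + v)) (l.map f) := by
  induction l generalizing Ss with
  | nil => rw [conv_nil]; simp [hs]
  | cons a l ih =>
    cases l with
    | nil => rw [conv_one]; simpa [hs] using hl
    | cons b l =>
      cases Ss with
      | nil => exact absurd hS (by simp [FitS])
      | cons S Ss =>
        obtain ⟨hS1, hS2, hS3⟩ := hS
        have ha : good a := hl a (by simp)
        obtain ⟨h1, h2, h3⟩ := ih Ss hS3 (fun c hc => hl c (by simp [hc]))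
        obtain ⟨g1, g2⟩ := mulLin_sem H u v _ h1
        have hne : conv add slo shi sm (b :: l) Ss ≠ [] := by
          intro h; rw [h] at h2; simp at h2
        have gl := mulLin_len (add := add) (slo := slo) (shi := shi) _ hne
        rw [conv_cons, zipW_eq, mapL_eq]
        have k1 : ∀ c ∈ S.map (fun s => sm s a), good c := by
          intro c hc
          obtain ⟨s, _, rfl⟩ := List.mem_map.1 hc
          exact H.gsm s a ha
        obtain ⟨z1, z2⟩ := zip_good H _ _ g1 k1
        have hlen : (mulLin add slo shi (conv add slo shi sm (b :: l) Ss)).length = S.length := by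
          rw [gl, h2, hS1]; simp
        refine ⟨z1, ?_, ?_⟩
        · rw [List.length_zipWith, List.length_map, hlen, min_self, hS1]; simp
        · rw [z2, hs_add _ _ _ _ (by simp [hlen]), g2, h3]
          have e1 : (S.map (fun s => sm s a)).map f =
              (S.map (fun s : ℕ => (s : ℝ))).map (fun c => f a * c) := by
            rw [List.map_map, List.map_map]
            refine List.map_congr_left fun s _ => ?_
            show f (sm s a) = f a * (s : ℝ)
            rw [H.fsm s a ha, mul_comm]
          rw [e1, hs_smul, hS2 u v, hS1]
          have e2 : hs (lo * v + hi * u) (D * (u + v)) (List.map f (a :: b :: l)) =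
              f a * (D * (u + v)) ^ (l.length + 1) +
                (lo * v + hi * u) * hs (lo * v + hi * u) (D * (u + v)) (List.map f (b :: l)) := by
            rw [List.map_cons, hs_cons, List.length_map]; rfl
          have e3 : l.length + 2 - 1 = l.length + 1 := rfl
          rw [e2, e3]
          ring

end sem

/-! ## parametricity -/

section param
variable {M N : Type} {R : M → N → Prop}

theorem mapL_rel {g : ℕ → M} {g' : ℕ → N} (h : ∀ s, R (g s) (g' s)) (S : List ℕ) :
    List.Forall₂ R (mapL g S) (mapL g' S) := by
  induction S with
  | nil => exact List.Forall₂.nil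
  | cons a S ih => exact List.Forall₂.cons (h a) ih

theorem mapL_rel' {M' N' : Type} {R' : M' → N' → Prop} {g : M → M'} {g' : N → N'}
    (h : ∀ a b, R a b → R' (g a) (g' b)) {l : List M} {l' : List N} (hl : List.Forall₂ R l l') :
    List.Forall₂ R' (mapL g l) (mapL g' l') := by
  induction hl with
  | nil => exact List.Forall₂.nil
  | cons h1 _ ih => exact List.Forall₂.cons (h _ _ h1) ih

theorem zipW_rel {add : M → M → M} {add' : N → N → N}
    (hadd : ∀ a b a' b', R a a' → R b b' → R (add a b) (add' a' b'))
    {l1 l2 : List M} {l1' l2' : List N} (h1 : List.Forall₂ R l1 l1') (h2 : List.Forall₂ R l2 l2') :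
    List.Forall₂ R (zipW add l1 l2) (zipW add' l1' l2') := by
  induction h1 generalizing l2 l2' with
  | nil => exact List.Forall₂.nil
  | cons ha _ ih =>
    cases h2 with
    | nil => exact List.Forall₂.nil
    | cons hb h2 => exact List.Forall₂.cons (hadd _ _ _ _ ha hb) (ih h2)

theorem zipP_rel {add : M → M → M} {add' : N → N → N}
    (hadd : ∀ a b a' b', R a a' → R b b' → R (add a b) (add' a' b'))
    {l1 l2 : List M} {l1' l2' : List N} (h1 : List.Forall₂ R l1 l1') (h2 : List.Forall₂ R l2 l2') :
    List.Forall₂ R (zipP add l1 l2) (zipP add' l1' l2') := by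
  induction h1 generalizing l2 l2' with
  | nil => exact h2
  | cons ha h1 ih =>
    cases h2 with
    | nil => exact List.Forall₂.cons ha h1
    | cons hb h2 => exact List.Forall₂.cons (hadd _ _ _ _ ha hb) (ih h2)

theorem mulAux_rel {add : M → M → M} {add' : N → N → N} {slo shi : M → M} {slo' shi' : N → N}
    (hadd : ∀ a b a' b', R a a' → R b b' → R (add a b) (add' a' b'))
    (hlo : ∀ a a', R a a' → R (slo a) (slo' a')) (hhi : ∀ a a', R a a' → R (shi a) (shi' a'))
    {l : List M} {l' : List N} (h : List.Forall₂ R l l') {p : M} {p' : N} (hp : R p p') :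
    List.Forall₂ R (mulAux add slo shi l p) (mulAux add' slo' shi' l' p') := by
  induction h generalizing p p' with
  | nil => exact List.Forall₂.cons (hhi _ _ hp) List.Forall₂.nil
  | cons ha _ ih => exact List.Forall₂.cons (hadd _ _ _ _ (hlo _ _ ha) (hhi _ _ hp)) (ih ha)

theorem mulLin_rel {add : M → M → M} {add' : N → N → N} {slo shi : M → M} {slo' shi' : N → N}
    (hadd : ∀ a b a' b', R a a' → R b b' → R (add a b) (add' a' b'))
    (hlo : ∀ a a', R a a' → R (slo a) (slo' a')) (hhi : ∀ a a', R a a' → R (shi a) (shi' a'))
    {l : List M} {l' : List N} (h : List.Forall₂ R l l') :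
    List.Forall₂ R (mulLin add slo shi l) (mulLin add' slo' shi' l') := by
  cases h with
  | nil => exact List.Forall₂.nil
  | cons ha h => exact List.Forall₂.cons (hlo _ _ ha) (mulAux_rel hadd hlo hhi h ha)

theorem conv_rel {add : M → M → M} {add' : N → N → N} {slo shi : M → M} {slo' shi' : N → N}
    {sm : ℕ → M → M} {sm' : ℕ → N → N}
    (hadd : ∀ a b a' b', R a a' → R b b' → R (add a b) (add' a' b'))
    (hlo : ∀ a a', R a a' → R (slo a) (slo' a')) (hhi : ∀ a a', R a a' → R (shi a) (shi' a'))
    (hsm : ∀ s a a', R a a' → R (sm s a) (sm' s a'))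
    {l : List M} {l' : List N} (h : List.Forall₂ R l l') (Ss : List (List ℕ)) :
    List.Forall₂ R (conv add slo shi sm l Ss) (conv add' slo' shi' sm' l' Ss) := by
  induction h generalizing Ss with
  | nil => exact List.Forall₂.nil
  | @cons a b l l' ha h ih =>
    cases h with
    | nil => exact List.Forall₂.cons ha List.Forall₂.nil
    | @cons c d l l' hc h =>
      cases Ss with
      | nil => exact List.Forall₂.nil
      | cons S Ss =>
        rw [conv_cons, conv_cons]
        refine zipW_rel hadd (mulLin_rel hadd hlo hhi (ih Ss)) ?_
        clear ih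
        induction S with
        | nil => exact List.Forall₂.nil
        | cons s S ihS => exact List.Forall₂.cons (hsm s _ _ ha) ihS

end param

end Pool.G1.MB
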