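import Pool.Agent.Work.MP_b5407d_g1.Pl_MB1

/-!
# G1, line P: kernel checker for matrix polynomials, part 2: three variables

`F3 f` is the homogeneous evaluation, `P3 f` the evaluation in the monomial basis of a nested list.
-/

set_option autoImplicit false

namespace Pool.G1.MB

section
variable {M N : Type}

/-- homogeneous evaluation of a list -/
def F1 (f : M → ℝ) (u v : ℝ) (l : List M) : ℝ := hs u v (l.map f)

/-- evaluation in the monomial basis -/
def ps (x : ℝ) : List ℝ → ℝ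
  | [] => 0
  | a :: l => a + x * ps x l

def P1 (f : M → ℝ) (x : ℝ) (l : List M) : ℝ := ps x (l.map f)

theorem P1_nil (f : M → ℝ) (x : ℝ) : P1 f x [] = 0 := rfl
theorem P1_cons (f : M → ℝ) (x : ℝ) (a : M) (l : List M) :
    P1 f x (a :: l) = f a + x * P1 f x l := rfl
theorem F1_nil (f : M → ℝ) (u v : ℝ) : F1 f u v [] = 0 := rfl
theorem F1_cons (f : M → ℝ) (u v : ℝ) (a : M) (l : List M) :
    F1 f u v (a :: l) = f a * v ^ l.length + u * F1 f u v l := by
  unfold F1; rw [List.map_cons, hs_cons, List.length_map]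

/-- lists of length `n` with good elements -/
def gl (good : M → Prop) (n : ℕ) (l : List M) : Prop := l.length = n ∧ ∀ a ∈ l, good a

theorem lift {add : M → M → M} {slo shi : M → M} {sm : ℕ → M → M} {good : M → Prop}
    {f : M → ℝ} {lo hi : ℝ} (H : Comp add slo shi sm good f lo hi) (n : ℕ) (u v : ℝ) :
    Comp (zipW add) (mapL slo) (mapL shi) (fun s => mapL (sm s)) (gl good n) (F1 f u v) lo hi := by
  have key : ∀ (g : M → M) (c : ℝ), (∀ a, good a → good (g a)) → (∀ a, good a → f (g a) = c * f a) →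
      ∀ l, gl good n l → gl good n (mapL g l) ∧ F1 f u v (mapL g l) = c * F1 f u v l := by
    intro g c hg hf l hl
    rw [mapL_eq]
    refine ⟨⟨by rw [List.length_map]; exact hl.1, fun a ha => ?_⟩, ?_⟩
    · obtain ⟨b, hb, rfl⟩ := List.mem_map.1 ha
      exact hg b (hl.2 b hb)
    · unfold F1
      rw [← hs_smul, List.map_map, List.map_map]
      congr 1
      refine List.map_congr_left fun b hb => ?_
      exact hf b (hl.2 b hb)
  have kadd : ∀ a b, gl good n a → gl good n b →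
      gl good n (zipW add a b) ∧ F1 f u v (zipW add a b) = F1 f u v a + F1 f u v b := by
    intro a b ha hb
    obtain ⟨z1, z2⟩ := zip_good H a b ha.2 hb.2
    rw [zipW_eq]
    refine ⟨⟨by rw [List.length_zipWith, ha.1, hb.1, min_self], z1⟩, ?_⟩
    unfold F1
    rw [z2, hs_add _ _ _ _ (by rw [List.length_map, List.length_map, ha.1, hb.1])]
  exact
  { gadd := fun a b ha hb => (kadd a b ha hb).1
    fadd := fun a b ha hb => (kadd a b ha hb).2
    glo := fun a ha => (key slo lo H.glo H.flo a ha).1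
    flo := fun a ha => (key slo lo H.glo H.flo a ha).2
    ghi := fun a ha => (key shi hi H.ghi H.fhi a ha).1
    fhi := fun a ha => (key shi hi H.ghi H.fhi a ha).2
    gsm := fun s a ha => (key (sm s) s (H.gsm s) (H.fsm s) a ha).1
    fsm := fun s a ha => (key (sm s) s (H.gsm s) (H.fsm s) a ha).2 }

/-- scalings by the end points of the three intervals -/
structure Sc (M : Type) where
  lx : M → M
  hx : M → M
  ly : M → M
  hy : M → M
  lz : M → M
  hz : M → M

/-- conversion in three variables -/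
noncomputable def conv3 (add : M → M → M) (s : Sc M) (sm : ℕ → M → M)
    (Sx Sy Sz : List (List ℕ)) (T : List (List (List M))) : List (List (List M)) :=
  mapL (fun l2 => mapL (fun l3 => conv add s.lz s.hz sm l3 Sz)
      (conv (zipW add) (mapL s.ly) (mapL s.hy) (fun c => mapL (sm c)) l2 Sy))
    (conv (zipW (zipW add)) (mapL (mapL s.lx)) (mapL (mapL s.hx)) (fun c => mapL (mapL (sm c))) T Sx)

/-- three-fold homogeneous evaluation -/
def F3 (f : M → ℝ) (u1 v1 u2 v2 u3 v3 : ℝ) (T : List (List (List M))) : ℝ :=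
  F1 (F1 (F1 f u3 v3) u2 v2) u1 v1 T

def P3 (f : M → ℝ) (x1 x2 x3 : ℝ) (T : List (List (List M))) : ℝ :=
  P1 (P1 (P1 f x3) x2) x1 T

/-- shape `(n1, n2, n3)` -/
def Shp (n1 n2 n3 : ℕ) (T : List (List (List M))) : Prop :=
  gl (gl (gl (fun _ => True) n3) n2) n1 T

theorem F1_congr {f g : M → ℝ} {g' : N → M} (u v : ℝ) (l : List N) (h : ∀ a ∈ l, f (g' a) = g (g' a)) :
    F1 f u v (l.map g') = F1 g u v (l.map g') := by
  unfold F1
  rw [List.map_map, List.map_map]
  congr 1
  exact List.map_congr_left fun a ha => h a ha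

theorem F1_map {f : M → ℝ} {g : N → ℝ} {h : N → M} (u v : ℝ) (l : List N)
    (hh : ∀ a ∈ l, f (h a) = g a) : F1 f u v (l.map h) = F1 g u v l := by
  unfold F1
  rw [List.map_map]
  congr 1
  exact List.map_congr_left fun a ha => hh a ha

theorem conv3_sem {add : M → M → M} {s : Sc M} {sm : ℕ → M → M} {f : M → ℝ}
    {l1 h1 l2 h2 l3 h3 D : ℝ}
    (H1 : Comp add s.lx s.hx sm (fun _ => True) f l1 h1)
    (H2 : Comp add s.ly s.hy sm (fun _ => True) f l2 h2)
    (H3 : Comp add s.lz s.hz sm (fun _ => True) f l3 h3)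
    {n1 n2 n3 : ℕ} {Sx Sy Sz : List (List ℕ)}
    (hx : FitS D n1 Sx) (hy : FitS D n2 Sy) (hz : FitS D n3 Sz)
    (u1 v1 u2 v2 u3 v3 : ℝ) {T : List (List (List M))} (hT : Shp n1 n2 n3 T) :
    F3 f u1 v1 u2 v2 u3 v3 (conv3 add s sm Sx Sy Sz T) =
      F3 f (l1 * v1 + h1 * u1) (D * (u1 + v1)) (l2 * v2 + h2 * u2) (D * (u2 + v2))
        (l3 * v3 + h3 * u3) (D * (u3 + v3)) T := by
  have L1 := lift (lift H1 n3 (l3 * v3 + h3 * u3) (D * (u3 + v3))) n2
    (l2 * v2 + h2 * u2) (D * (u2 + v2))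
  obtain ⟨a1, a2, a3⟩ := conv_sem (D := D) L1 u1 v1 T Sx (by rw [hT.1]; exact hx) hT.2
  have L2 := lift H2 n3 (l3 * v3 + h3 * u3) (D * (u3 + v3))
  unfold F3 conv3
  rw [mapL_eq]
  change _ = hs (l1 * v1 + h1 * u1) (D * (u1 + v1)) _
  rw [← a3]
  change _ = F1 _ u1 v1 _
  refine F1_map u1 v1 _ fun t2 ht2 => ?_
  have gt2 := a1 t2 ht2
  obtain ⟨b1, b2, b3⟩ := conv_sem (D := D) L2 u2 v2 t2 Sy (by rw [gt2.1]; exact hy) gt2.2
  rw [mapL_eq]
  change _ = hs (l2 * v2 + h2 * u2) (D * (u2 + v2)) _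
  rw [← b3]
  change _ = F1 _ u2 v2 _
  refine F1_map u2 v2 _ fun t3 ht3 => ?_
  have gt3 := b1 t3 ht3
  obtain ⟨c1, c2, c3⟩ := conv_sem (D := D) H3 u3 v3 t3 Sz (by rw [gt3.1]; exact hz) gt3.2
  exact c3

/-! ## nonnegativity and bounds -/

theorem hs_nonneg {u v : ℝ} (hu : 0 ≤ u) (hv : 0 ≤ v) (l : List ℝ) (h : ∀ a ∈ l, 0 ≤ a) :
    0 ≤ hs u v l := by
  induction l with
  | nil => exact le_refl 0
  | cons a l ih =>
    rw [hs_cons]
    have h1 : 0 ≤ a := h a (by simp)
    have h2 := ih fun b hb => h b (by simp [hb])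
    positivity

theorem F1_nonneg {f : M → ℝ} {u v : ℝ} (hu : 0 ≤ u) (hv : 0 ≤ v) (l : List M)
    (h : ∀ a ∈ l, 0 ≤ f a) : 0 ≤ F1 f u v l := by
  unfold F1
  refine hs_nonneg hu hv _ fun a ha => ?_
  obtain ⟨b, hb, rfl⟩ := List.mem_map.1 ha
  exact h b hb

/-- all leaves satisfy `P` -/
def All3 (P : M → Prop) (T : List (List (List M))) : Prop :=
  ∀ t2 ∈ T, ∀ t3 ∈ t2, ∀ a ∈ t3, P a

theorem F3_nonneg {f : M → ℝ} {u1 v1 u2 v2 u3 v3 : ℝ} (hu1 : 0 ≤ u1) (hv1 : 0 ≤ v1)
    (hu2 : 0 ≤ u2) (hv2 : 0 ≤ v2) (hu3 : 0 ≤ u3) (hv3 : 0 ≤ v3) {T : List (List (List M))}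
    (h : All3 (fun a => 0 ≤ f a) T) : 0 ≤ F3 f u1 v1 u2 v2 u3 v3 T :=
  F1_nonneg hu1 hv1 _ fun t2 h2 => F1_nonneg hu2 hv2 _ fun t3 h3 => F1_nonneg hu3 hv3 _
    fun a ha => h t2 h2 t3 h3 a ha

theorem F1_le {f : M → ℝ} (l : List M) (h : ∀ a ∈ l, 0 ≤ f a) : ∀ a ∈ l, f a ≤ F1 f 1 1 l := by
  induction l with
  | nil => intro a ha; simp at ha
  | cons b l ih =>
    intro a ha
    rw [F1_cons]
    have h0 : 0 ≤ F1 f 1 1 l := F1_nonneg (by norm_num) (by norm_num) l fun c hc => h c (by simp [hc])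
    have h1 := h b (by simp)
    rcases List.mem_cons.1 ha with rfl | ha
    · simp; exact h0
    · have := ih (fun c hc => h c (by simp [hc])) a ha
      simp; linarith

theorem F3_le {f : M → ℝ} {T : List (List (List M))} (h : All3 (fun a => 0 ≤ f a) T) :
    All3 (fun a => f a ≤ F3 f 1 1 1 1 1 1 T) T := by
  intro t2 h2 t3 h3 a ha
  have e3 : ∀ s2 ∈ T, ∀ s3 ∈ s2, 0 ≤ F1 f 1 1 s3 := fun s2 i2 s3 i3 =>
    F1_nonneg (by norm_num) (by norm_num) _ (h s2 i2 s3 i3)
  have e2 : ∀ s2 ∈ T, 0 ≤ F1 (F1 f 1 1) 1 1 s2 := fun s2 i2 =>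
    F1_nonneg (by norm_num) (by norm_num) _ (e3 s2 i2)
  calc f a ≤ F1 f 1 1 t3 := F1_le t3 (h t2 h2 t3 h3) a ha
    _ ≤ F1 (F1 f 1 1) 1 1 t2 := F1_le t2 (e3 t2 h2) t3 h3
    _ ≤ F3 f 1 1 1 1 1 1 T := F1_le T e2 t2 h2

/-! ## from the monomial basis to the homogeneous form -/

theorem F1_ps {f : M → ℝ} (D x : ℝ) (n : ℕ) (l : List M) (hl : l.length = n + 1) :
    F1 f (D * x) D l = D ^ n * P1 f x l := by
  induction l generalizing n with
  | nil => simp at hl
  | cons a l ih =>
    rw [F1_cons, P1_cons]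
    have h : l.length = n := by simpa using hl
    cases n with
    | zero =>
      have : l = [] := List.length_eq_zero_iff.1 h
      subst this; simp [F1_nil, P1_nil]
    | succ n => rw [ih n h, h]; ring

theorem F1_mul {f g : M → ℝ} (c u v : ℝ) (l : List M) (h : ∀ a ∈ l, f a = c * g a) :
    F1 f u v l = c * F1 g u v l := by
  unfold F1
  rw [← hs_smul, List.map_map]
  congr 1
  exact List.map_congr_left fun a ha => h a ha

theorem F3_P3 {f : M → ℝ} (D1 D2 D3 x1 x2 x3 : ℝ) (n1 n2 n3 : ℕ) (T : List (List (List M)))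
    (hT : Shp (n1 + 1) (n2 + 1) (n3 + 1) T) :
    F3 f (D1 * x1) D1 (D2 * x2) D2 (D3 * x3) D3 T =
      D3 ^ n3 * (D2 ^ n2 * (D1 ^ n1 * P3 f x1 x2 x3 T)) := by
  unfold F3 P3
  rw [F1_mul (g := F1 (P1 f x3) (D2 * x2) D2) (D3 ^ n3) _ _ T (fun t2 h2 =>
    F1_mul (D3 ^ n3) _ _ t2 (fun t3 h3 => F1_ps D3 x3 n3 t3 ((hT.2 t2 h2).2 t3 h3).1))]
  rw [F1_mul (g := P1 (P1 f x3) x2) (D2 ^ n2) _ _ T (fun t2 h2 =>
    F1_ps D2 x2 n2 t2 (hT.2 t2 h2).1)]
  rw [F1_ps D1 x1 n1 T hT.1]

/-! ## sums with padding, multiples, insertion -/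

theorem P1_zipP {add : M → M → M} {f : M → ℝ} (hadd : ∀ a b, f (add a b) = f a + f b) (x : ℝ)
    (l l' : List M) : P1 f x (zipP add l l') = P1 f x l + P1 f x l' := by
  induction l generalizing l' with
  | nil => rw [zipP_nil_left, P1_nil, zero_add]
  | cons a l ih =>
    cases l' with
    | nil => rw [zipP_nil_right, P1_nil, add_zero]
    | cons b l' => rw [zipP_cons, P1_cons, P1_cons, P1_cons, ih, hadd]; ring

theorem P1_mapL {g : M → M} {f : M → ℝ} {c : ℝ} (hg : ∀ a, f (g a) = c * f a) (x : ℝ)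
    (l : List M) : P1 f x (mapL g l) = c * P1 f x l := by
  rw [mapL_eq]
  induction l with
  | nil => simp [P1_nil]
  | cons a l ih => rw [List.map_cons, P1_cons, P1_cons, ih, hg]; ring

/-- is zero -/
noncomputable def isZ (c : ℤ) : Bool :=
  Int.rec (motive := fun _ => Bool) (fun n => Nat.beq n 0) (fun _ => false) c

theorem isZ_true {c : ℤ} (h : isZ c = true) : c = 0 := by
  cases c with
  | ofNat n =>
    have : Nat.beq n 0 = true := h
    have := Nat.eq_of_beq_eq_true this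
    subst this; rfl
  | negSucc n => exact absurd h (by simp [isZ])

/-- linear combination of tables -/
noncomputable def comb (add : M → M → M) (sc : ℤ → M → M) (cs : List ℤ) :
    List (List (List (List M))) → List (List (List M)) :=
  List.rec (motive := fun _ => List (List (List (List M))) → List (List (List M))) (fun _ => [])
    (fun c _ ih Ts => List.rec (motive := fun _ => List (List (List M))) []
      (fun T Ts' _ => cond (isZ c) (ih Ts')
        (zipP (zipP (zipP add)) (mapL (mapL (mapL (sc c))) T) (ih Ts'))) Ts) cs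

theorem comb_nil (add : M → M → M) (sc : ℤ → M → M) (Ts : List (List (List (List M)))) :
    comb add sc [] Ts = [] := rfl
theorem comb_nil' (add : M → M → M) (sc : ℤ → M → M) (c : ℤ) (cs : List ℤ) :
    comb add sc (c :: cs) [] = [] := rfl
theorem comb_cons (add : M → M → M) (sc : ℤ → M → M) (c : ℤ) (cs : List ℤ)
    (T : List (List (List M))) (Ts : List (List (List (List M)))) :
    comb add sc (c :: cs) (T :: Ts) = cond (isZ c) (comb add sc cs Ts)
        (zipP (zipP (zipP add)) (mapL (mapL (mapL (sc c))) T) (comb add sc cs Ts)) := rfl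

/-- sum of the products -/
def dot {A : Type} (g : A → ℝ) : List ℝ → List A → ℝ
  | c :: cs, T :: Ts => c * g T + dot g cs Ts
  | _, _ => 0

theorem comb_sem {add : M → M → M} {sc : ℤ → M → M} {f : M → ℝ} {w : ℤ → ℝ}
    (hadd : ∀ a b, f (add a b) = f a + f b) (hsc : ∀ c a, f (sc c a) = w c * f a) (hw : w 0 = 0)
    (x1 x2 x3 : ℝ) (cs : List ℤ) (Ts : List (List (List (List M)))) :
    P3 f x1 x2 x3 (comb add sc cs Ts) = dot (P3 f x1 x2 x3) (cs.map w) Ts := by
  induction cs generalizing Ts with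
  | nil => rw [comb_nil]; cases Ts <;> rfl
  | cons c cs ih =>
    cases Ts with
    | nil => rw [comb_nil']; rfl
    | cons T Ts =>
      rw [comb_cons, List.map_cons]
      cases h : isZ c with
      | true =>
        have := isZ_true h
        subst this
        simp only [cond_true, ih, dot, hw]; ring
      | false =>
        simp only [cond_false, dot, ← ih]
        unfold P3
        rw [P1_zipP (P1_zipP (P1_zipP hadd x3) x2) x1, P1_mapL (P1_mapL (P1_mapL (hsc c) x3) x2) x1]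

/-- update at a position, with padding -/
def insG (z : M) (upd : M → M) : ℕ → List M → List M
  | 0, [] => [upd z]
  | 0, a :: l => upd a :: l
  | k + 1, [] => z :: insG z upd k []
  | k + 1, a :: l => a :: insG z upd k l

theorem insG_sem {f : M → ℝ} {z : M} {upd : M → M} {δ : ℝ} (hz : f z = 0)
    (h : ∀ a, f (upd a) = f a + δ) (x : ℝ) (k : ℕ) (l : List M) :
    P1 f x (insG z upd k l) = P1 f x l + δ * x ^ k := by
  induction k generalizing l with
  | zero =>
    cases l with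
    | nil => simp [insG, P1_cons, P1_nil, h, hz]
    | cons a l => simp [insG, P1_cons, h]; ring
  | succ k ih =>
    cases l with
    | nil => rw [insG, P1_cons, ih, P1_nil, hz]; ring
    | cons a l => rw [insG, P1_cons, ih, P1_cons]; ring

/-- sparse tables: monomials `(i, j, k, e, c)` -/
abbrev Mo : Type := ℕ × ℕ × ℕ × ℕ × ℤ

/-- dense table of a sparse one; `g c e` is the leaf with `c` at position `e` -/
def dense (z : M) (acc : ℤ → ℕ → M → M) : List Mo → List (List (List M))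
  | [] => []
  | (i, j, k, e, c) :: S => insG [] (insG [] (insG z (acc c e) k) j) i (dense z acc S)

theorem dense_sem {f : M → ℝ} {z : M} {acc : ℤ → ℕ → M → M} {mon : ℕ → ℝ} {w : ℤ → ℝ}
    (hz : f z = 0) (h : ∀ c e a, f (acc c e a) = f a + w c * mon e) (x1 x2 x3 : ℝ) (S : List Mo) :
    P3 f x1 x2 x3 (dense z acc S) =
      (S.map fun m => w m.2.2.2.2 * x1 ^ m.1 * x2 ^ m.2.1 * x3 ^ m.2.2.1 * mon m.2.2.2.1).sum := by
  induction S with
  | nil => rfl
  | cons m S ih =>
    obtain ⟨i, j, k, e, c⟩ := m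
    rw [List.map_cons, List.sum_cons, ← ih, dense]
    unfold P3
    have k3 := fun t3 => insG_sem hz (h c e) x3 k t3
    have k2 := fun t2 => insG_sem (f := P1 f x3) (z := ([] : List M)) rfl k3 x2 j t2
    have k1 := fun t1 => insG_sem (f := P1 (P1 f x3) x2) (z := ([] : List (List M))) rfl k2 x1 i t1
    rw [k1]
    ring

end

/-! ## parametricity -/

section param
variable {M N : Type} {R : M → N → Prop}

def Rel3 (R : M → N → Prop) (T : List (List (List M))) (T' : List (List (List N))) : Prop :=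
  List.Forall₂ (List.Forall₂ (List.Forall₂ R)) T T'

theorem conv3_rel {add : M → M → M} {add' : N → N → N} {s : Sc M} {s' : Sc N}
    {sm : ℕ → M → M} {sm' : ℕ → N → N}
    (hadd : ∀ a b a' b', R a a' → R b b' → R (add a b) (add' a' b'))
    (h1 : ∀ a a', R a a' → R (s.lx a) (s'.lx a')) (h2 : ∀ a a', R a a' → R (s.hx a) (s'.hx a'))
    (h3 : ∀ a a', R a a' → R (s.ly a) (s'.ly a')) (h4 : ∀ a a', R a a' → R (s.hy a) (s'.hy a'))
    (h5 : ∀ a a', R a a' → R (s.lz a) (s'.lz a')) (h6 : ∀ a a', R a a' → R (s.hz a) (s'.hz a'))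
    (hsm : ∀ c a a', R a a' → R (sm c a) (sm' c a')) (Sx Sy Sz : List (List ℕ))
    {T : List (List (List M))} {T' : List (List (List N))} (hT : Rel3 R T T') :
    Rel3 R (conv3 add s sm Sx Sy Sz T) (conv3 add' s' sm' Sx Sy Sz T') := by
  have m1 : ∀ {g : M → M} {g' : N → N}, (∀ a a', R a a' → R (g a) (g' a')) →
      ∀ l l', List.Forall₂ R l l' → List.Forall₂ R (mapL g l) (mapL g' l') :=
    fun hg l l' hl => mapL_rel' hg hl
  have m2 : ∀ {g : M → M} {g' : N → N}, (∀ a a', R a a' → R (g a) (g' a')) →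
      ∀ l l', List.Forall₂ (List.Forall₂ R) l l' →
        List.Forall₂ (List.Forall₂ R) (mapL (mapL g) l) (mapL (mapL g') l') :=
    fun hg l l' hl => mapL_rel' (m1 hg) hl
  have z1 : ∀ a b a' b', List.Forall₂ R a a' → List.Forall₂ R b b' →
      List.Forall₂ R (zipW add a b) (zipW add' a' b') := fun a b a' b' ha hb => zipW_rel hadd ha hb
  have z2 : ∀ a b a' b', List.Forall₂ (List.Forall₂ R) a a' → List.Forall₂ (List.Forall₂ R) b b' →
      List.Forall₂ (List.Forall₂ R) (zipW (zipW add) a b) (zipW (zipW add') a' b') :=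
    fun a b a' b' ha hb => zipW_rel z1 ha hb
  have k1 := conv_rel z2 (m2 h1) (m2 h2) (fun c => m2 (hsm c)) hT Sx
  unfold conv3 Rel3
  refine mapL_rel' (fun l2 l2' hl2 => ?_) k1
  have k2 := conv_rel z1 (m1 h3) (m1 h4) (fun c => m1 (hsm c)) hl2 Sy
  refine mapL_rel' (fun l3 l3' hl3 => ?_) k2
  exact conv_rel hadd h5 h6 hsm hl3 Sz

theorem comb_rel {add : M → M → M} {add' : N → N → N} {sc : ℤ → M → M} {sc' : ℤ → N → N}
    (hadd : ∀ a b a' b', R a a' → R b b' → R (add a b) (add' a' b'))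
    (hsc : ∀ c a a', R a a' → R (sc c a) (sc' c a')) (cs : List ℤ)
    {Ts : List (List (List (List M)))} {Ts' : List (List (List (List N)))}
    (hT : List.Forall₂ (Rel3 R) Ts Ts') :
    Rel3 R (comb add sc cs Ts) (comb add' sc' cs Ts') := by
  have m3 : ∀ c l l', Rel3 R l l' →
      Rel3 R (mapL (mapL (mapL (sc c))) l) (mapL (mapL (mapL (sc' c))) l') :=
    fun c l l' hl => mapL_rel' (fun _ _ h => mapL_rel' (fun _ _ h' => mapL_rel' (hsc c) h') h) hl
  have z3 : ∀ a b a' b', Rel3 R a a' → Rel3 R b b' →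
      Rel3 R (zipP (zipP (zipP add)) a b) (zipP (zipP (zipP add')) a' b') :=
    fun a b a' b' ha hb => zipP_rel (fun _ _ _ _ h h' => zipP_rel (fun _ _ _ _ k k' =>
      zipP_rel hadd k k') h h') ha hb
  induction cs generalizing Ts Ts' with
  | nil => exact List.Forall₂.nil
  | cons c cs ih =>
    cases hT with
    | nil => exact List.Forall₂.nil
    | cons h hT =>
      rw [comb_cons, comb_cons]
      cases isZ c with
      | true => exact ih hT
      | false => exact z3 _ _ _ _ (m3 c _ _ h) (ih hT)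

theorem insG_rel {z : M} {z' : N} {upd : M → M} {upd' : N → N} (hz : R z z')
    (h : ∀ a a', R a a' → R (upd a) (upd' a')) (k : ℕ) {l : List M} {l' : List N}
    (hl : List.Forall₂ R l l') : List.Forall₂ R (insG z upd k l) (insG z' upd' k l') := by
  induction k generalizing l l' with
  | zero =>
    cases hl with
    | nil => exact List.Forall₂.cons (h _ _ hz) List.Forall₂.nil
    | cons ha hl => exact List.Forall₂.cons (h _ _ ha) hl
  | succ k ih =>
    cases hl with
    | nil => exact List.Forall₂.cons hz (ih List.Forall₂.nil)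
    | cons ha hl => exact List.Forall₂.cons ha (ih hl)

theorem dense_rel {z : M} {z' : N} {acc : ℤ → ℕ → M → M} {acc' : ℤ → ℕ → N → N} (hz : R z z')
    (h : ∀ c e a a', R a a' → R (acc c e a) (acc' c e a')) (S : List Mo) :
    Rel3 R (dense z acc S) (dense z' acc' S) := by
  induction S with
  | nil => exact List.Forall₂.nil
  | cons m S ih =>
    obtain ⟨i, j, k, e, c⟩ := m
    exact insG_rel List.Forall₂.nil (fun _ _ h2 => insG_rel List.Forall₂.nil
      (fun _ _ h3 => insG_rel hz (h c e) k h3) j h2) i ih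

end param

end Pool.G1.MB
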