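import Pool.Agent.Work.MP_b5407d_g1.Pl_MB2

/-!
# G1, line P: kernel checker for matrix polynomials, part 3: digits and positive semidefinite matrices
-/

set_option autoImplicit false

namespace Pool.G1.MB

/-! ## pairs of natural numbers as integers, elimination -/

/-- value of a pair -/
def val (p : ℕ × ℕ) : ℝ := (p.1 : ℝ) - p.2

noncomputable def nrm (a b : ℕ) : ℕ × ℕ := (Nat.sub a b, Nat.sub b a)

theorem val_nrm (a b : ℕ) : val (nrm a b) = (a : ℝ) - b := by
  unfold val nrm
  show ((a - b : ℕ) : ℝ) - ((b - a : ℕ) : ℝ) = _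
  rcases le_total a b with h | h
  · rw [Nat.sub_eq_zero_of_le h, Nat.cast_sub h]; simp
  · rw [Nat.sub_eq_zero_of_le h, Nat.cast_sub h]; simp

/-- `P m - a b` -/
noncomputable def ent (P : ℕ) (a b m : ℕ × ℕ) : ℕ × ℕ :=
  nrm (Nat.add (Nat.mul P m.1) (Nat.add (Nat.mul a.1 b.2) (Nat.mul a.2 b.1)))
    (Nat.add (Nat.mul P m.2) (Nat.add (Nat.mul a.1 b.1) (Nat.mul a.2 b.2)))

theorem val_ent (P : ℕ) (a b m : ℕ × ℕ) : val (ent P a b m) = P * val m - val a * val b := by
  unfold ent
  rw [val_nrm]
  show ((P * m.1 + (a.1 * b.2 + a.2 * b.1) : ℕ) : ℝ) - ((P * m.2 + (a.1 * b.1 + a.2 * b.2) : ℕ) : ℝ) = _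
  unfold val
  push_cast
  ring

noncomputable def stepRow (P : ℕ) (a : ℕ × ℕ) (bs : List (ℕ × ℕ)) : List (ℕ × ℕ) → List (ℕ × ℕ) :=
  List.rec (motive := fun _ => List (ℕ × ℕ) → List (ℕ × ℕ)) (fun _ => [])
    (fun b _ ih ms => List.rec (motive := fun _ => List (ℕ × ℕ)) []
      (fun m ms' _ => ent P a b m :: ih ms') ms) bs

noncomputable def stepRows (P : ℕ) (as : List (ℕ × ℕ)) :
    List (List (ℕ × ℕ)) → List (List (ℕ × ℕ)) :=
  List.rec (motive := fun _ => List (List (ℕ × ℕ)) → List (List (ℕ × ℕ))) (fun _ => [])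
    (fun a as' ih rs => List.rec (motive := fun _ => List (List (ℕ × ℕ))) []
      (fun r rs' _ => stepRow P a (a :: as') r :: ih rs') rs) as

noncomputable def zeroP (p : ℕ × ℕ) : Bool := and (Nat.beq p.1 0) (Nat.beq p.2 0)

noncomputable def allZ (l : List (ℕ × ℕ)) : Bool :=
  List.rec (motive := fun _ => Bool) true (fun a _ ih => cond (zeroP a) ih false) l

noncomputable def chk (n : ℕ) : List (List (ℕ × ℕ)) → Bool :=
  Nat.rec (motive := fun _ => List (List (ℕ × ℕ)) → Bool) (fun _ => true)
    (fun _ ih rows => List.rec (motive := fun _ => Bool) false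
      (fun r rs _ => List.rec (motive := fun _ => Bool) false
        (fun p as _ => cond (Nat.beq p.2 0)
          (cond (Nat.beq p.1 0) (cond (allZ as) (ih rs) false) (ih (stepRows p.1 as rs))) false) r)
      rows) n

theorem chk_zero (rows : List (List (ℕ × ℕ))) : chk 0 rows = true := rfl
theorem chk_succ (n : ℕ) (p : ℕ × ℕ) (as : List (ℕ × ℕ)) (rs : List (List (ℕ × ℕ))) :
    chk (n + 1) ((p :: as) :: rs) = cond (Nat.beq p.2 0)
      (cond (Nat.beq p.1 0) (cond (allZ as) (chk n rs) false) (chk n (stepRows p.1 as rs))) false := rfl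

def dotp : List (ℕ × ℕ) → List ℝ → ℝ
  | a :: as, x :: xs => val a * x + dotp as xs
  | _, _ => 0

def qf : List (List (ℕ × ℕ)) → List ℝ → ℝ
  | (p :: as) :: rs, x :: xs => val p * x ^ 2 + 2 * x * dotp as xs + qf rs xs
  | _, _ => 0

def Tri : ℕ → List (List (ℕ × ℕ)) → Prop
  | 0, rows => rows = []
  | n + 1, rows => ∃ p as rs, rows = (p :: as) :: rs ∧ as.length = n ∧ Tri n rs

theorem stepRow_sem (P : ℕ) (a : ℕ × ℕ) (bs ms : List (ℕ × ℕ)) (xs : List ℝ)
    (h : bs.length = ms.length) :
    (stepRow P a bs ms).length = ms.length ∧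
    dotp (stepRow P a bs ms) xs = P * dotp ms xs - val a * dotp bs xs := by
  induction bs generalizing ms xs with
  | nil =>
    cases ms with
    | nil => exact ⟨rfl, by cases xs <;> simp [stepRow, dotp]⟩
    | cons m ms => simp at h
  | cons b bs ih =>
    cases ms with
    | nil => simp at h
    | cons m ms =>
      have h' : bs.length = ms.length := by simpa using h
      have e : stepRow P a (b :: bs) (m :: ms) = ent P a b m :: stepRow P a bs ms := rfl
      rw [e]
      refine ⟨by rw [List.length_cons, List.length_cons, (ih ms xs h').1], ?_⟩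
      cases xs with
      | nil => simp [dotp]
      | cons x xs => simp only [dotp, val_ent, (ih ms xs h').2]; ring

theorem stepRows_sem (P : ℕ) (n : ℕ) (as : List (ℕ × ℕ)) (rs : List (List (ℕ × ℕ))) (xs : List ℝ)
    (ha : as.length = n) (hr : Tri n rs) (hx : xs.length = n) :
    Tri n (stepRows P as rs) ∧
    qf (stepRows P as rs) xs = P * qf rs xs - (dotp as xs) ^ 2 := by
  induction n generalizing as rs xs with
  | zero =>
    have h1 : as = [] := List.length_eq_zero_iff.1 ha
    have h2 : rs = [] := hr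
    subst h1; subst h2
    refine ⟨rfl, ?_⟩
    cases xs <;> simp [stepRows, qf, dotp]
  | succ n ih =>
    obtain ⟨m, ms, rs', rfl, hms, hrs⟩ := hr
    cases as with
    | nil => simp at ha
    | cons a as =>
      cases xs with
      | nil => simp at hx
      | cons x xs =>
        have ha' : as.length = n := by simpa using ha
        have hx' : xs.length = n := by simpa using hx
        obtain ⟨i1, i2⟩ := ih as rs' xs ha' hrs hx'
        have e : stepRows P (a :: as) ((m :: ms) :: rs') =
            (ent P a a m :: stepRow P a as ms) :: stepRows P as rs' := rfl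
        obtain ⟨s1, s2⟩ := stepRow_sem P a as ms xs (by rw [ha', hms])
        rw [e]
        refine ⟨⟨_, _, _, rfl, by rw [s1, hms], i1⟩, ?_⟩
        simp only [qf, dotp, val_ent, s2, i2]
        ring

theorem zeroP_val {p : ℕ × ℕ} (h : zeroP p = true) : val p = 0 := by
  unfold zeroP at h
  rw [Bool.and_eq_true] at h
  have h1 := Nat.eq_of_beq_eq_true h.1
  have h2 := Nat.eq_of_beq_eq_true h.2
  unfold val; rw [h1, h2]; simp

theorem allZ_dotp (l : List (ℕ × ℕ)) (h : allZ l = true) (xs : List ℝ) : dotp l xs = 0 := by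
  induction l generalizing xs with
  | nil => cases xs <;> rfl
  | cons a l ih =>
    have e : allZ (a :: l) = cond (zeroP a) (allZ l) false := rfl
    rw [e] at h
    cases ha : zeroP a with
    | false => rw [ha] at h; simp at h
    | true =>
      rw [ha] at h
      cases xs with
      | nil => rfl
      | cons x xs => simp only [dotp, zeroP_val ha, ih h xs]; ring

theorem chk_sound (n : ℕ) (rows : List (List (ℕ × ℕ))) (hr : Tri n rows) (h : chk n rows = true)
    (xs : List ℝ) (hx : xs.length = n) : 0 ≤ qf rows xs := by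
  induction n generalizing rows xs with
  | zero =>
    have : rows = [] := hr
    subst this; cases xs <;> simp [qf]
  | succ n ih =>
    obtain ⟨p, as, rs, rfl, has, hrs⟩ := hr
    cases xs with
    | nil => simp at hx
    | cons x xs =>
      have hx' : xs.length = n := by simpa using hx
      rw [chk_succ] at h
      cases h2 : Nat.beq p.2 0 with
      | false => rw [h2] at h; simp at h
      | true =>
        have p2 := Nat.eq_of_beq_eq_true h2
        rw [h2, cond_true] at h
        cases h1 : Nat.beq p.1 0 with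
        | true =>
          have p1 := Nat.eq_of_beq_eq_true h1
          rw [h1, cond_true] at h
          cases h3 : allZ as with
          | false => rw [h3] at h; simp at h
          | true =>
            rw [h3, cond_true] at h
            have := ih rs hrs h xs hx'
            have e : val p = 0 := by unfold val; rw [p1, p2]; simp
            simp only [qf, e, allZ_dotp as h3 xs]
            linarith
        | false =>
          rw [h1, cond_false] at h
          have hp : 0 < p.1 := by
            rcases Nat.eq_zero_or_pos p.1 with h0 | h0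
            · rw [h0] at h1; exact absurd h1 (by decide)
            · exact h0
          obtain ⟨t1, t2⟩ := stepRows_sem p.1 n as rs xs has hrs hx'
          have := ih _ t1 h xs hx'
          rw [t2] at this
          have e : val p = p.1 := by unfold val; rw [p2]; simp
          have hp' : (0 : ℝ) < p.1 := by exact_mod_cast hp
          have key : 0 ≤ (p.1 : ℝ) * qf ((p :: as) :: rs) (x :: xs) := by
            simp only [qf, e]
            nlinarith [sq_nonneg ((p.1 : ℝ) * x + dotp as xs)]
          exact nonneg_of_mul_nonneg_right key hp'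

/-! ## leaves: vectors of integers, their quadratic form -/

/-- linear form of a vector -/
def lin (e : ℕ → ℤ) : List ℝ → ℝ
  | [] => 0
  | x :: xs => e 0 * x + lin (fun k => e (k + 1)) xs

/-- quadratic form of a vector: upper triangle, row by row -/
def fQ (xs : List ℝ) (e : ℕ → ℤ) : ℝ :=
  match xs with
  | [] => 0
  | x :: xs => x * lin e (x :: xs) + fQ xs (fun k => e (k + (xs.length + 1)))

theorem lin_lin (c d : ℤ) (e e' : ℕ → ℤ) (xs : List ℝ) :
    lin (fun k => c * e k + d * e' k) xs = c * lin e xs + d * lin e' xs := by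
  induction xs generalizing e e' with
  | nil => simp [lin]
  | cons x xs ih => simp only [lin, ih (fun k => e (k + 1)) (fun k => e' (k + 1))]; push_cast; ring

theorem fQ_lin (c d : ℤ) (e e' : ℕ → ℤ) (xs : List ℝ) :
    fQ xs (fun k => c * e k + d * e' k) = c * fQ xs e + d * fQ xs e' := by
  induction xs generalizing e e' with
  | nil => simp [fQ]
  | cons x xs ih =>
    simp only [fQ, lin_lin, ih (fun k => e (k + (xs.length + 1))) (fun k => e' (k + (xs.length + 1)))]
    ring

theorem fQ_zero (xs : List ℝ) : fQ xs (fun _ => 0) = 0 := by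
  have := fQ_lin 0 0 (fun _ => 0) (fun _ => 0) xs
  simpa using this

theorem fQ_add (e e' : ℕ → ℤ) (xs : List ℝ) :
    fQ xs (fun k => e k + e' k) = fQ xs e + fQ xs e' := by
  have := fQ_lin 1 1 e e' xs
  simpa using this

theorem fQ_smul (c : ℤ) (e : ℕ → ℤ) (xs : List ℝ) :
    fQ xs (fun k => c * e k) = c * fQ xs e := by
  have := fQ_lin c 0 e e xs
  simpa using this

/-- the monomial at position `p` -/
def mon (xs : List ℝ) (p : ℕ) : ℝ := fQ xs (fun k => if k = p then 1 else 0)

/-! ## digits -/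

/-- number with digits `a 0, .., a (m-1)` -/
def Sn (B m : ℕ) (a : ℕ → ℕ) : ℕ := ∑ k ∈ Finset.range m, a k * B ^ k

theorem Sn_succ (B m : ℕ) (a : ℕ → ℕ) : Sn B (m + 1) a = a 0 + B * Sn B m (fun k => a (k + 1)) := by
  unfold Sn
  rw [Finset.sum_range_succ', Finset.mul_sum]
  simp only [pow_succ, pow_zero, mul_one]
  rw [add_comm]
  congr 1
  refine Finset.sum_congr rfl fun k _ => by ring

theorem Sn_lt (B m : ℕ) (a : ℕ → ℕ) (h : ∀ k < m, a k < B) : Sn B m a < B ^ m := by
  induction m generalizing a with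
  | zero => simp [Sn]
  | succ m ih =>
    rw [Sn_succ, pow_succ]
    have h0 := h 0 (Nat.succ_pos m)
    have h1 := ih (fun k => a (k + 1)) (fun k hk => h (k + 1) (Nat.succ_lt_succ hk))
    calc a 0 + B * Sn B m (fun k => a (k + 1)) < B + B * Sn B m (fun k => a (k + 1)) := by omega
      _ = B * (Sn B m (fun k => a (k + 1)) + 1) := by ring
      _ ≤ B * B ^ m := Nat.mul_le_mul_left _ h1
      _ = B ^ m * B := by ring

theorem Sn_mod (B m : ℕ) (a : ℕ → ℕ) (h : a 0 < B) : Sn B (m + 1) a % B = a 0 := by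
  rw [Sn_succ, Nat.add_mul_mod_self_left, Nat.mod_eq_of_lt h]

theorem Sn_div (B m : ℕ) (a : ℕ → ℕ) (h : a 0 < B) :
    Sn B (m + 1) a / B = Sn B m (fun k => a (k + 1)) := by
  have hB : 0 < B := lt_of_le_of_lt (Nat.zero_le _) h
  rw [Sn_succ, Nat.add_mul_div_left _ _ hB, Nat.div_eq_of_lt h, zero_add]

noncomputable def digs (B : ℕ) (m : ℕ) : ℕ → List ℕ :=
  Nat.rec (motive := fun _ => ℕ → List ℕ) (fun _ => [])
    (fun _ ih x => Nat.mod x B :: ih (Nat.div x B)) m

theorem digs_zero (B x : ℕ) : digs B 0 x = [] := rfl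
theorem digs_succ (B m x : ℕ) : digs B (m + 1) x = (x % B) :: digs B m (x / B) := rfl

theorem Sn_div_pow (B m M : ℕ) (a : ℕ → ℕ) (h : ∀ k < m, a k < B) :
    Sn B (m + M) a / B ^ m = Sn B M (fun k => a (k + m)) := by
  induction m generalizing a with
  | zero => simp
  | succ m ih =>
    have h0 := h 0 (Nat.succ_pos m)
    have e : m + 1 + M = (m + M) + 1 := by ring
    rw [e, pow_succ', ← Nat.div_div_eq_div_mul, Sn_div B _ a h0,
      ih (fun k => a (k + 1)) (fun k hk => h (k + 1) (Nat.succ_lt_succ hk))]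
    congr 1

/-- the pairs of a row of digits with offset `H` -/
noncomputable def mkRow (H : ℕ) (ds : List ℕ) : List (ℕ × ℕ) :=
  List.rec (motive := fun _ => List (ℕ × ℕ)) []
    (fun d ds' _ => nrm (Nat.mul 2 d) (Nat.mul 2 H) :: mapL (fun d => nrm d H) ds') ds

theorem mkRow_cons (H d : ℕ) (ds : List ℕ) :
    mkRow H (d :: ds) = nrm (Nat.mul 2 d) (Nat.mul 2 H) :: mapL (fun d => nrm d H) ds := rfl

noncomputable def exRows (B H n : ℕ) : ℕ → List (List (ℕ × ℕ)) :=
  Nat.rec (motive := fun _ => ℕ → List (List (ℕ × ℕ))) (fun _ => [])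
    (fun n ih x => mkRow H (digs B (Nat.succ n) x) :: ih (Nat.div x (Nat.pow B (Nat.succ n)))) n

theorem exRows_succ (B H n x : ℕ) :
    exRows B H (n + 1) x = mkRow H (digs B (n + 1) x) :: exRows B H n (x / B ^ (n + 1)) := rfl

/-- triangular numbers -/
def tri : ℕ → ℕ
  | 0 => 0
  | n + 1 => (n + 1) + tri n

theorem digs_dotp (B H m M : ℕ) (a : ℕ → ℕ) (e : ℕ → ℤ) (xs : List ℝ) (hx : xs.length = m)
    (h : ∀ k < m, a k < B) (he : ∀ k < m, (a k : ℤ) = e k + H) :
    (mapL (fun d => nrm d H) (digs B m (Sn B (m + M) a))).length = m ∧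
    dotp (mapL (fun d => nrm d H) (digs B m (Sn B (m + M) a))) xs = lin e xs := by
  induction m generalizing a e xs with
  | zero =>
    have : xs = [] := List.length_eq_zero_iff.1 hx
    subst this
    exact ⟨rfl, rfl⟩
  | succ m ih =>
    cases xs with
    | nil => simp at hx
    | cons x xs =>
      have h0 := h 0 (Nat.succ_pos m)
      have hx' : xs.length = m := by simpa using hx
      have e1 : m + 1 + M = (m + M) + 1 := by ring
      rw [e1, digs_succ, Sn_mod B _ a h0, Sn_div B _ a h0]
      obtain ⟨i1, i2⟩ := ih (fun k => a (k + 1)) (fun k => e (k + 1)) xs hx'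
        (fun k hk => h (k + 1) (Nat.succ_lt_succ hk)) (fun k hk => he (k + 1) (Nat.succ_lt_succ hk))
      have e2 : mapL (fun d => nrm d H) (a 0 :: digs B m (Sn B (m + M) fun k => a (k + 1))) =
        nrm (a 0) H :: mapL (fun d => nrm d H) (digs B m (Sn B (m + M) fun k => a (k + 1))) := rfl
      rw [e2]
      refine ⟨by rw [List.length_cons, i1], ?_⟩
      simp only [dotp, lin, i2, val_nrm]
      have := he 0 (Nat.succ_pos m)
      have h3 : ((a 0 : ℕ) : ℝ) = (e 0 : ℝ) + H := by exact_mod_cast this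
      rw [h3]; ring

theorem exRows_sem (B H n : ℕ) (a : ℕ → ℕ) (e : ℕ → ℤ) (xs : List ℝ) (hx : xs.length = n)
    (h : ∀ k < tri n, a k < B) (he : ∀ k < tri n, (a k : ℤ) = e k + H) :
    Tri n (exRows B H n (Sn B (tri n) a)) ∧
    qf (exRows B H n (Sn B (tri n) a)) xs = 2 * fQ xs e := by
  induction n generalizing a e xs with
  | zero =>
    have : xs = [] := List.length_eq_zero_iff.1 hx
    subst this
    exact ⟨rfl, by simp [exRows, qf, fQ]⟩
  | succ n ih =>
    cases xs with
    | nil => simp at hx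
    | cons x xs =>
      have hx' : xs.length = n := by simpa using hx
      have et : tri (n + 1) = (n + 1) + tri n := rfl
      rw [et] at h he ⊢
      rw [exRows_succ]
      have h0 : a 0 < B := h 0 (by omega)
      have hd := Sn_div_pow B (n + 1) (tri n) a (fun k hk => h k (by omega))
      rw [hd]
      obtain ⟨i1, i2⟩ := ih (fun k => a (k + (n + 1))) (fun k => e (k + (n + 1))) xs hx'
        (fun k hk => h (k + (n + 1)) (by omega)) (fun k hk => he (k + (n + 1)) (by omega))
      have e1 : n + 1 + tri n = (n + tri n) + 1 := by ring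
      have ed : digs B (n + 1) (Sn B (n + 1 + tri n) a) =
          a 0 :: digs B n (Sn B (n + tri n) (fun k => a (k + 1))) := by
        rw [e1, digs_succ, Sn_mod B _ a h0, Sn_div B _ a h0]
      obtain ⟨d1, d2⟩ := digs_dotp B H n (tri n) (fun k => a (k + 1)) (fun k => e (k + 1)) xs hx'
        (fun k hk => h (k + 1) (by omega)) (fun k hk => he (k + 1) (by omega))
      rw [ed, mkRow_cons]
      refine ⟨⟨_, _, _, rfl, d1, i1⟩, ?_⟩
      simp only [qf, d2, i2, val_nrm, fQ, lin, hx']
      have h3 : ((a 0 : ℕ) : ℝ) = (e 0 : ℝ) + H := by exact_mod_cast he 0 (by omega)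
      have h4 : ((Nat.mul 2 (a 0) : ℕ) : ℝ) = 2 * (a 0 : ℝ) := by
        show ((2 * a 0 : ℕ) : ℝ) = _
        push_cast; ring
      have h5 : ((Nat.mul 2 H : ℕ) : ℝ) = 2 * (H : ℝ) := by
        show ((2 * H : ℕ) : ℝ) = _
        push_cast; ring
      rw [h4, h5, h3]; ring

/-! ## packed leaves -/

/-- `N` is the residue modulo `B^m` of the number with the (signed) digits `e` -/
def RP (B m : ℕ) (e : ℕ → ℤ) (N : ℕ) : Prop :=
  ((N : ℕ) : ZMod (B ^ m)) = ∑ k ∈ Finset.range m, ((e k : ℤ) : ZMod (B ^ m)) * (B : ZMod (B ^ m)) ^ k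

/-- offset -/
def off (H B m : ℕ) : ℕ := Sn B m (fun _ => H)

theorem RP_offset {B H m : ℕ} {e : ℕ → ℤ} {N : ℕ} (h : RP B m e N) (hB : B = 2 * H)
    (he : ∀ k < m, |e k| < H) :
    ∃ a : ℕ → ℕ, (∀ k < m, a k < B) ∧ (∀ k < m, (a k : ℤ) = e k + H) ∧
      (N + off H B m) % B ^ m = Sn B m a := by
  refine ⟨fun k => (e k + H).toNat, ?_, ?_, ?_⟩
  · intro k hk
    have := abs_lt.1 (he k hk)
    show (e k + H).toNat < B
    omega
  · intro k hk
    have := abs_lt.1 (he k hk)
    show (((e k + H).toNat : ℕ) : ℤ) = e k + H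
    omega
  · have hlt : Sn B m (fun k => (e k + H).toNat) < B ^ m := by
      refine Sn_lt B m _ fun k hk => ?_
      have := abs_lt.1 (he k hk)
      omega
    have hcong : ((N + off H B m : ℕ) : ZMod (B ^ m)) =
        ((Sn B m (fun k => (e k + H).toNat) : ℕ) : ZMod (B ^ m)) := by
      push_cast
      rw [h]
      unfold off Sn
      push_cast
      rw [← Finset.sum_add_distrib]
      refine Finset.sum_congr rfl fun k hk => ?_
      have hk' := Finset.mem_range.1 hk
      have h1 := abs_lt.1 (he k hk')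
      have h2 : (((e k + H).toNat : ℕ) : ZMod (B ^ m)) = ((e k + H : ℤ) : ZMod (B ^ m)) := by
        have : (((e k + H).toNat : ℕ) : ℤ) = e k + H := by omega
        rw [← this]; simp
      rw [h2]; push_cast; ring
    have := (ZMod.natCast_eq_natCast_iff _ _ _).1 hcong
    unfold Nat.ModEq at this
    rw [this, Nat.mod_eq_of_lt hlt]

theorem RP_add {B m : ℕ} {e e' : ℕ → ℤ} {N N' : ℕ} (h : RP B m e N) (h' : RP B m e' N') :
    RP B m (fun k => e k + e' k) (N + N') := by
  unfold RP at *
  push_cast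
  rw [h, h', ← Finset.sum_add_distrib]
  exact Finset.sum_congr rfl fun k _ => by ring

theorem RP_mul {B m : ℕ} {e : ℕ → ℤ} {N : ℕ} (c : ℤ) (c' : ℕ) (hc : ((c' : ℕ) : ZMod (B ^ m)) = (c : ZMod (B ^ m)))
    (h : RP B m e N) : RP B m (fun k => c * e k) ((c' * N) % B ^ m) := by
  unfold RP at *
  rw [ZMod.natCast_mod]
  push_cast
  rw [h, hc, Finset.mul_sum]
  exact Finset.sum_congr rfl fun k _ => by ring

theorem RP_zero (B m : ℕ) : RP B m (fun _ => 0) 0 := by
  unfold RP; simp

/-- residue of an integer -/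
noncomputable def res (W : ℕ) (c : ℤ) : ℕ :=
  Int.rec (motive := fun _ => ℕ) (fun n => n) (fun n => Nat.sub W (Nat.mod (Nat.succ n) W)) c

theorem res_spec (W : ℕ) (hW : 0 < W) (c : ℤ) : ((res W c : ℕ) : ZMod W) = (c : ZMod W) := by
  cases c with
  | ofNat n => show ((n : ℕ) : ZMod W) = ((Int.ofNat n : ℤ) : ZMod W); simp
  | negSucc n =>
    show ((W - (n + 1) % W : ℕ) : ZMod W) = _
    rw [Nat.cast_sub (Nat.mod_lt _ hW).le, ZMod.natCast_self, ZMod.natCast_mod, Int.cast_negSucc]
    push_cast; ring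

/-- adds `c` at position `e` -/
noncomputable def accN (W B : ℕ) (c : ℤ) (e : ℕ) (a : ℕ) : ℕ :=
  Nat.mod (Nat.add a (Nat.mul (res W c) (Nat.pow B e))) W

def accZ (c : ℤ) (e : ℕ) (a : ℕ → ℤ) : ℕ → ℤ := fun k => a k + c * (if k = e then 1 else 0)

theorem acc_RP {B m : ℕ} (hB : 0 < B ^ m) (c : ℤ) (p : ℕ) (hp : p < m) {e : ℕ → ℤ} {N : ℕ}
    (h : RP B m e N) : RP B m (accZ c p e) (accN (B ^ m) B c p N) := by
  unfold RP at *
  show (((N + res (B ^ m) c * B ^ p) % B ^ m : ℕ) : ZMod (B ^ m)) = _
  rw [ZMod.natCast_mod]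
  push_cast
  rw [h, res_spec _ hB c]
  unfold accZ
  have : (∑ k ∈ Finset.range m, (((e k + c * (if k = p then 1 else 0) : ℤ)) : ZMod (B ^ m)) *
      (B : ZMod (B ^ m)) ^ k) =
      ∑ k ∈ Finset.range m, ((e k : ZMod (B ^ m)) * (B : ZMod (B ^ m)) ^ k +
        (if k = p then (c : ZMod (B ^ m)) * (B : ZMod (B ^ m)) ^ k else 0)) := by
    refine Finset.sum_congr rfl fun k _ => ?_
    split_ifs with hk
    · push_cast; ring
    · push_cast; ring
  rw [this, Finset.sum_add_distrib, Finset.sum_ite_eq' (Finset.range m) p, if_pos (Finset.mem_range.2 hp)]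

theorem accZ_sem (xs : List ℝ) (c : ℤ) (p : ℕ) (e : ℕ → ℤ) :
    fQ xs (accZ c p e) = fQ xs e + c * mon xs p := by
  unfold accZ
  rw [fQ_add e (fun k => c * (if k = p then 1 else 0)), fQ_smul]
  rfl

end Pool.G1.MB
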