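import Pool.Agent.Work.MP_b5407d_g1.Pl_MB3

/-!
# G1, line P: kernel checker for matrix polynomials, part 4: the check of a cell and its soundness

Input: sparse tables `T_m` (lists of monomials `(i, j, k, e, c)`: `c x1^i x2^j x3^k mon e`, `mon e` the product of
two of the `n` variables at position `e` of the upper triangle), integer constants `c_m`, a box
`[lo/1024, hi/1024]³`.  If the check succeeds then `Σ c_m T_m(x; z) ≥ 0` for all `x` in the box and all `z`.
-/

set_option autoImplicit false

namespace Pool.G1.MB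

/-! ## powers of `1024 (u + v)` -/

def S1 : List ℕ := [1024, 1024]
def S2 : List ℕ := [1048576, 2097152, 1048576]
def S3 : List ℕ := [1073741824, 3221225472, 3221225472, 1073741824]
def S4 : List ℕ := [1099511627776, 4398046511104, 6597069766656, 4398046511104, 1099511627776]
def S5 : List ℕ := [1125899906842624, 5629499534213120, 11258999068426240, 11258999068426240, 5629499534213120, 1125899906842624]
def S6 : List ℕ := [1152921504606846976, 6917529027641081856, 17293822569102704640, 23058430092136939520, 17293822569102704640, 6917529027641081856, 1152921504606846976]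
def S7 : List ℕ := [1180591620717411303424, 8264141345021879123968, 24792424035065637371904, 41320706725109395619840, 41320706725109395619840, 24792424035065637371904, 8264141345021879123968, 1180591620717411303424]
def S8 : List ℕ := [1208925819614629174706176, 9671406556917033397649408, 33849922949209616891772928, 67699845898419233783545856, 84624807373024042229432320, 67699845898419233783545856, 33849922949209616891772928, 9671406556917033397649408, 1208925819614629174706176]
def S9 : List ℕ := [1237940039285380274899124224, 11141460353568422474092118016, 44565841414273689896368472064, 103986963299971943091526434816, 155980444949957914637289652224, 155980444949957914637289652224, 103986963299971943091526434816, 44565841414273689896368472064, 11141460353568422474092118016, 1237940039285380274899124224]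
def S10 : List ℕ := [1267650600228229401496703205376, 12676506002282294014967032053760, 57044277010270323067351644241920, 152118072027387528179604384645120, 266206626047928174314307673128960, 319447951257513809177169207754752, 266206626047928174314307673128960, 152118072027387528179604384645120, 57044277010270323067351644241920, 12676506002282294014967032053760, 1267650600228229401496703205376]
def S11 : List ℕ := [1298074214633706907132624082305024, 14278816360970775978458864905355264, 71394081804853879892294324526776320, 214182245414561639676882973580328960, 428364490829123279353765947160657920, 599710287160772591095272326024921088, 599710287160772591095272326024921088, 428364490829123279353765947160657920, 214182245414561639676882973580328960, 71394081804853879892294324526776320, 14278816360970775978458864905355264, 1298074214633706907132624082305024]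
def S12 : List ℕ := [1329227995784915872903807060280344576, 15950735949418990474845684723364134912, 87729047721804447611651265978502742016, 292430159072681492038837553261675806720, 657967857913533357087384494838770565120, 1052748572661653371339815191742032904192, 1228206668105262266563117723699038388224, 1052748572661653371339815191742032904192, 657967857913533357087384494838770565120, 292430159072681492038837553261675806720, 87729047721804447611651265978502742016, 15950735949418990474845684723364134912, 1329227995784915872903807060280344576]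

/-- the list for the conversion of lists of length `n` -/
def SS (n : ℕ) : List (List ℕ) := List.drop (13 - n) [S12, S11, S10, S9, S8, S7, S6, S5, S4, S3, S2, S1]

theorem fit_SS (n : ℕ) (hn : n ≤ 13) : FitS 1024 n (SS n) := by
  have g1 : GoodS 1024 S1 := fun u v => by simp [S1, hs]; ring
  have g2 : GoodS 1024 S2 := fun u v => by simp [S2, hs]; ring
  have g3 : GoodS 1024 S3 := fun u v => by simp [S3, hs]; ring
  have g4 : GoodS 1024 S4 := fun u v => by simp [S4, hs]; ring
  have g5 : GoodS 1024 S5 := fun u v => by simp [S5, hs]; ring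
  have g6 : GoodS 1024 S6 := fun u v => by simp [S6, hs]; ring
  have g7 : GoodS 1024 S7 := fun u v => by simp [S7, hs]; ring
  have g8 : GoodS 1024 S8 := fun u v => by simp [S8, hs]; ring
  have g9 : GoodS 1024 S9 := fun u v => by simp [S9, hs]; ring
  have g10 : GoodS 1024 S10 := fun u v => by simp [S10, hs]; ring
  have g11 : GoodS 1024 S11 := fun u v => by simp [S11, hs]; ring
  have g12 : GoodS 1024 S12 := fun u v => by simp [S12, hs]; ring
  have e : n = 0 ∨ n = 1 ∨ n = 2 ∨ n = 3 ∨ n = 4 ∨ n = 5 ∨ n = 6 ∨ n = 7 ∨ n = 8 ∨ n = 9 ∨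
    n = 10 ∨ n = 11 ∨ n = 12 ∨ n = 13 := by omega
  rcases e with rfl | rfl | rfl | rfl | rfl | rfl | rfl | rfl | rfl | rfl | rfl | rfl | rfl | rfl
  · trivial
  · trivial
  · exact ⟨rfl, g1, trivial⟩
  · exact ⟨rfl, g2, rfl, g1, trivial⟩
  · exact ⟨rfl, g3, rfl, g2, rfl, g1, trivial⟩
  · exact ⟨rfl, g4, rfl, g3, rfl, g2, rfl, g1, trivial⟩
  · exact ⟨rfl, g5, rfl, g4, rfl, g3, rfl, g2, rfl, g1, trivial⟩
  · exact ⟨rfl, g6, rfl, g5, rfl, g4, rfl, g3, rfl, g2, rfl, g1, trivial⟩
  · exact ⟨rfl, g7, rfl, g6, rfl, g5, rfl, g4, rfl, g3, rfl, g2, rfl, g1, trivial⟩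
  · exact ⟨rfl, g8, rfl, g7, rfl, g6, rfl, g5, rfl, g4, rfl, g3, rfl, g2, rfl, g1, trivial⟩
  · exact ⟨rfl, g9, rfl, g8, rfl, g7, rfl, g6, rfl, g5, rfl, g4, rfl, g3, rfl, g2, rfl, g1, trivial⟩
  · exact ⟨rfl, g10, rfl, g9, rfl, g8, rfl, g7, rfl, g6, rfl, g5, rfl, g4, rfl, g3, rfl, g2, rfl, g1,
      trivial⟩
  · exact ⟨rfl, g11, rfl, g10, rfl, g9, rfl, g8, rfl, g7, rfl, g6, rfl, g5, rfl, g4, rfl, g3, rfl, g2,
      rfl, g1, trivial⟩
  · exact ⟨rfl, g12, rfl, g11, rfl, g10, rfl, g9, rfl, g8, rfl, g7, rfl, g6, rfl, g5, rfl, g4, rfl,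
      g3, rfl, g2, rfl, g1, trivial⟩

/-! ## operations on leaves -/

noncomputable def scN (W : ℕ) (c : ℤ) (N : ℕ) : ℕ := Nat.mod (Nat.mul (res W c) N) W
noncomputable def smN (W : ℕ) (s : ℕ) (N : ℕ) : ℕ := Nat.mod (Nat.mul s N) W

def addZ (a b : ℕ → ℤ) : ℕ → ℤ := fun k => a k + b k
def scZ (c : ℤ) (a : ℕ → ℤ) : ℕ → ℤ := fun k => c * a k
def smZ (s : ℕ) (a : ℕ → ℤ) : ℕ → ℤ := fun k => (s : ℤ) * a k

/-- box and constants -/
structure Cell where
  l1 : ℤ
  h1 : ℤ
  l2 : ℤ
  h2 : ℤ
  l3 : ℤ
  h3 : ℤ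
  cs : List ℤ

noncomputable def ScN (W : ℕ) (c : Cell) : Sc ℕ :=
  ⟨scN W c.l1, scN W c.h1, scN W c.l2, scN W c.h2, scN W c.l3, scN W c.h3⟩
def ScZ (c : Cell) : Sc (ℕ → ℤ) := ⟨scZ c.l1, scZ c.h1, scZ c.l2, scZ c.h2, scZ c.l3, scZ c.h3⟩
def ScA : Sc ℕ := ⟨fun n => 1024 * n, fun n => 1024 * n, fun n => 1024 * n, fun n => 1024 * n,
  fun n => 1024 * n, fun n => 1024 * n⟩

/-! ## the check -/

noncomputable def allL {M : Type} (P : M → Bool) (l : List M) : Bool :=
  List.rec (motive := fun _ => Bool) true (fun a _ ih => cond (P a) ih false) l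

theorem allL_true {M : Type} {P : M → Bool} {l : List M} (h : allL P l = true) :
    ∀ a ∈ l, P a = true := by
  induction l with
  | nil => intro a ha; simp at ha
  | cons b l ih =>
    have e : allL P (b :: l) = cond (P b) (allL P l) false := rfl
    rw [e] at h
    cases hb : P b with
    | false => rw [hb] at h; simp at h
    | true =>
      rw [hb, cond_true] at h
      intro a ha
      rcases List.mem_cons.1 ha with rfl | ha
      · exact hb
      · exact ih h a ha

noncomputable def lenL {M : Type} (l : List M) : ℕ :=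
  List.rec (motive := fun _ => ℕ) 0 (fun _ _ ih => Nat.succ ih) l

theorem lenL_eq {M : Type} (l : List M) : lenL l = l.length := by
  induction l with
  | nil => rfl
  | cons a l ih => show Nat.succ (lenL l) = _; rw [ih]; rfl

noncomputable def lenB {M : Type} (n : ℕ) (l : List M) : Bool := Nat.beq (lenL l) n

theorem lenB_true {M : Type} {n : ℕ} {l : List M} (h : lenB n l = true) : l.length = n := by
  rw [← lenL_eq]; exact Nat.eq_of_beq_eq_true h

/-- shape -/
noncomputable def shpB {M : Type} (n1 n2 n3 : ℕ) (T : List (List (List M))) : Bool :=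
  cond (lenB n1 T) (allL (fun t2 => cond (lenB n2 t2) (allL (fun t3 => lenB n3 t3) t2) false) T) false

theorem cond_and {a b : Bool} (h : cond a b false = true) : a = true ∧ b = true := by
  cases a <;> simp_all

theorem shpB_true {M : Type} {n1 n2 n3 : ℕ} {T : List (List (List M))}
    (h : shpB n1 n2 n3 T = true) : Shp n1 n2 n3 T := by
  obtain ⟨h1, h2⟩ := cond_and h
  refine ⟨lenB_true h1, fun t2 ht2 => ?_⟩
  obtain ⟨h3, h4⟩ := cond_and (allL_true h2 t2 ht2)
  exact ⟨lenB_true h3, fun t3 ht3 => ⟨lenB_true (allL_true h4 t3 ht3), fun _ _ => trivial⟩⟩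

/-- sum of the products with the norms -/
noncomputable def dotN (cs : List ℤ) : List ℕ → ℕ :=
  List.rec (motive := fun _ => List ℕ → ℕ) (fun _ => 0)
    (fun c _ ih ts => List.rec (motive := fun _ => ℕ) 0
      (fun t ts' _ => Nat.add (Nat.mul (Int.natAbs c) t) (ih ts')) ts) cs

/-- parameters: size, digits, shape -/
structure Par where
  n : ℕ
  K : ℕ
  n1 : ℕ
  n2 : ℕ
  n3 : ℕ

noncomputable def leafB (B H n W O : ℕ) (N : ℕ) : Bool :=
  chk n (exRows B H n (Nat.mod (Nat.add N O) W))

noncomputable def cellB (p : Par) (B H W O : ℕ) (SX SY SZ : List (List ℕ)) (taus : List ℕ)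
    (TD : List (List (List (List ℕ)))) (c : Cell) : Bool :=
  cond (allL (fun z => Nat.ble (Int.natAbs z) 1024) [c.l1, c.h1, c.l2, c.h2, c.l3, c.h3])
    (cond (Nat.blt (Nat.mul (Nat.pow 2048 (p.n1 + p.n2 + p.n3)) (dotN c.cs taus)) H)
      ((fun T => cond (shpB (p.n1 + 1) (p.n2 + 1) (p.n3 + 1) T)
        (allL (allL (allL (leafB B H p.n W O)))
          (conv3 Nat.add (ScN W c) (smN W) SX SY SZ T)) false)
        (comb Nat.add (scN W) c.cs TD)) false) false

/-! ## soundness -/

/-- value of a sparse table -/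
def semS (x1 x2 x3 : ℝ) (xs : List ℝ) (S : List Mo) : ℝ :=
  (S.map fun m => (m.2.2.2.2 : ℝ) * x1 ^ m.1 * x2 ^ m.2.1 * x3 ^ m.2.2.1 * mon xs m.2.2.2.1).sum

/-- value of a combination -/
def semC (x1 x2 x3 : ℝ) (xs : List ℝ) : List ℤ → List (List Mo) → ℝ
  | c :: cs, S :: Ss => c * semS x1 x2 x3 xs S + semC x1 x2 x3 xs cs Ss
  | _, _ => 0

/-- sum of the absolute values of the coefficients -/
def nrmS : List Mo → ℕ
  | [] => 0
  | m :: S => Int.natAbs m.2.2.2.2 + nrmS S

def posB (m : ℕ) (S : List Mo) : Bool := S.all fun x => decide (x.2.2.2.1 < m)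

def Rabs (e : ℕ → ℤ) (n : ℕ) : Prop := ∀ k, |e k| ≤ n

theorem Rabs_mul {e : ℕ → ℤ} {n : ℕ} (c : ℤ) (b : ℕ) (hc : |c| ≤ b) (h : Rabs e n) :
    Rabs (fun k => c * e k) (b * n) := by
  intro k
  rw [abs_mul]
  push_cast
  exact mul_le_mul hc (h k) (abs_nonneg _) (by positivity)

theorem shp_of_rel {M N : Type} {R : M → N → Prop} {T : List (List (List M))}
    {T' : List (List (List N))} (h : Rel3 R T T') {n1 n2 n3 : ℕ} (hs : Shp n1 n2 n3 T') :
    Shp n1 n2 n3 T := by
  unfold Shp gl at *
  refine ⟨by rw [List.Forall₂.length_eq h]; exact hs.1, ?_⟩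
  have a1 : ∀ {A A' : Type} {Q : A → A' → Prop} {l : List A} {l' : List A'}, List.Forall₂ Q l l' →
      ∀ a ∈ l, ∃ a' ∈ l', Q a a' := by
    intro A A' Q l l' hl
    induction hl with
    | nil => intro a ha; simp at ha
    | cons hab _ ih =>
      intro a ha
      rcases List.mem_cons.1 ha with rfl | ha
      · exact ⟨_, by simp, hab⟩
      · obtain ⟨a', h1, h2⟩ := ih a ha
        exact ⟨a', by simp [h1], h2⟩
  intro t2 ht2
  obtain ⟨t2', ht2', r2⟩ := a1 h t2 ht2
  have s2 := hs.2 t2' ht2'
  refine ⟨by rw [List.Forall₂.length_eq r2]; exact s2.1, fun t3 ht3 => ?_⟩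
  obtain ⟨t3', ht3', r3⟩ := a1 r2 t3 ht3
  have s3 := s2.2 t3' ht3'
  exact ⟨by rw [List.Forall₂.length_eq r3]; exact s3.1, fun _ _ => trivial⟩

theorem all_of_rel {M N : Type} {R : M → N → Prop} {P : M → Prop} {Q : N → Prop}
    {T : List (List (List M))} {T' : List (List (List N))} (h : Rel3 R T T') (hQ : All3 Q T')
    (hP : ∀ a a', R a a' → Q a' → P a) : All3 P T := by
  have a1 : ∀ {A A' : Type} {Q : A → A' → Prop} {l : List A} {l' : List A'}, List.Forall₂ Q l l' →
      ∀ a ∈ l, ∃ a' ∈ l', Q a a' := by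
    intro A A' Q l l' hl
    induction hl with
    | nil => intro a ha; simp at ha
    | cons hab _ ih =>
      intro a ha
      rcases List.mem_cons.1 ha with rfl | ha
      · exact ⟨_, by simp, hab⟩
      · obtain ⟨a', h1, h2⟩ := ih a ha
        exact ⟨a', by simp [h1], h2⟩
  intro t2 ht2 t3 ht3 a ha
  obtain ⟨t2', ht2', r2⟩ := a1 h t2 ht2
  obtain ⟨t3', ht3', r3⟩ := a1 r2 t3 ht3
  obtain ⟨a', ha', r⟩ := a1 r3 a ha
  exact hP a a' r (hQ t2' ht2' t3' ht3' a' ha')

theorem dotN_eq (cs : List ℤ) (Ts : List (List Mo)) :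
    ((dotN cs (Ts.map nrmS) : ℕ) : ℝ) =
      dot (fun S : List Mo => (nrmS S : ℝ)) (cs.map fun c => (Int.natAbs c : ℝ)) Ts := by
  induction cs generalizing Ts with
  | nil => cases Ts <;> simp [dotN, dot]
  | cons c cs ih =>
    cases Ts with
    | nil => simp [dotN, dot]
    | cons T Ts =>
      have e : dotN (c :: cs) ((T :: Ts).map nrmS) =
        Int.natAbs c * nrmS T + dotN cs (Ts.map nrmS) := rfl
      rw [e, List.map_cons, dot, ← ih]
      push_cast; ring

theorem dot_map {A A' : Type} (g : A → ℝ) (g' : A' → ℝ) (h : A' → A) (cs : List ℝ) (l : List A')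
    (hh : ∀ a ∈ l, g (h a) = g' a) : dot g cs (l.map h) = dot g' cs l := by
  induction cs generalizing l with
  | nil => cases l <;> rfl
  | cons c cs ih =>
    cases l with
    | nil => rfl
    | cons a l =>
      rw [List.map_cons, dot, dot, hh a (by simp), ih l fun b hb => hh b (by simp [hb])]

theorem semC_dot (x1 x2 x3 : ℝ) (xs : List ℝ) (cs : List ℤ) (Ts : List (List Mo)) :
    dot (semS x1 x2 x3 xs) (List.map (fun c : ℤ => (c : ℝ)) cs) Ts = semC x1 x2 x3 xs cs Ts := by
  induction cs generalizing Ts with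
  | nil => cases Ts <;> rfl
  | cons c cs ih =>
    cases Ts with
    | nil => rfl
    | cons T Ts => rw [List.map_cons, dot, semC, ih]

theorem exists_uv (lo hi D x : ℝ) (h1 : lo ≤ D * x) (h2 : D * x ≤ hi) :
    ∃ u v : ℝ, 0 ≤ u ∧ 0 ≤ v ∧ u + v = 1 ∧ lo * v + hi * u = D * x := by
  rcases eq_or_lt_of_le (h1.trans h2) with h | h
  · exact ⟨0, 1, le_refl _, by norm_num, by norm_num, by rw [mul_one, mul_zero, add_zero]; linarith⟩
  · have hp : 0 < hi - lo := by linarith
    refine ⟨(D * x - lo) / (hi - lo), (hi - D * x) / (hi - lo), div_nonneg (by linarith) hp.le,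
      div_nonneg (by linarith) hp.le, ?_, ?_⟩
    · rw [← add_div, div_eq_one_iff_eq hp.ne']; ring
    · field_simp; ring

theorem nrmS_sum (S : List Mo) : (nrmS S : ℝ) =
    (S.map fun m => (Int.natAbs m.2.2.2.2 : ℝ) * 1 ^ m.1 * 1 ^ m.2.1 * 1 ^ m.2.2.1 * 1).sum := by
  induction S with
  | nil => simp [nrmS]
  | cons m S ih =>
    rw [List.map_cons, List.sum_cons, ← ih]
    simp [nrmS]

theorem cell_sound {p : Par} {B H W O : ℕ} (hB : B = 2 * H) (hW : W = B ^ tri p.n)
    (hO : O = off H B (tri p.n)) {SX SY SZ : List (List ℕ)} (hSX : FitS 1024 (p.n1 + 1) SX)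
    (hSY : FitS 1024 (p.n2 + 1) SY) (hSZ : FitS 1024 (p.n3 + 1) SZ)
    {Ts : List (List Mo)} {TD : List (List (List (List ℕ)))} {taus : List ℕ}
    (hTD : TD = Ts.map (dense 0 (accN W B))) (htau : taus = Ts.map nrmS)
    (hpos : ∀ S ∈ Ts, posB (tri p.n) S = true) (c : Cell)
    (h : cellB p B H W O SX SY SZ taus TD c = true) :
    ∀ x1 x2 x3 : ℝ, (c.l1 : ℝ) ≤ 1024 * x1 → 1024 * x1 ≤ c.h1 → (c.l2 : ℝ) ≤ 1024 * x2 →
      1024 * x2 ≤ c.h2 → (c.l3 : ℝ) ≤ 1024 * x3 → 1024 * x3 ≤ c.h3 →
      ∀ xs : List ℝ, xs.length = p.n → 0 ≤ semC x1 x2 x3 xs c.cs Ts := by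
  intro x1 x2 x3 a1 b1 a2 b2 a3 b3 xs hxs
  obtain ⟨k1, k2⟩ := cond_and h
  obtain ⟨k3, k4⟩ := cond_and k2
  obtain ⟨k5, k6⟩ := cond_and k4
  clear h k2 k4
  -- bounds of the end points
  have hbd : ∀ z ∈ [c.l1, c.h1, c.l2, c.h2, c.l3, c.h3], |z| ≤ 1024 := by
    intro z hz
    have h0 : Nat.ble (Int.natAbs z) 1024 = true := allL_true k1 z hz
    have h1 := Nat.le_of_ble_eq_true h0
    rw [← Int.natCast_natAbs]
    exact_mod_cast h1
  have d1 := hbd c.l1 (by simp)
  have d2 := hbd c.h1 (by simp)
  have d3 := hbd c.l2 (by simp)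
  have d4 := hbd c.h2 (by simp)
  have d5 := hbd c.l3 (by simp)
  have d6 := hbd c.h3 (by simp)
  have hlt : 2048 ^ (p.n1 + p.n2 + p.n3) * dotN c.cs taus < H := by
    have h0 : Nat.ble (Nat.succ (Nat.mul (Nat.pow 2048 (p.n1 + p.n2 + p.n3)) (dotN c.cs taus))) H =
      true := k3
    exact Nat.le_of_ble_eq_true h0
  have hH : 0 < H := lt_of_le_of_lt (Nat.zero_le _) hlt
  have hBp : 0 < B ^ tri p.n := by rw [hB]; positivity
  -- the three tables
  set TZ := comb addZ scZ c.cs (Ts.map (dense (fun _ => 0) accZ)) with hTZ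
  set TN := comb Nat.add (scN W) c.cs TD with hTN
  set TA := comb (· + ·) (fun (c : ℤ) (n : ℕ) => Int.natAbs c * n) c.cs
    (Ts.map (dense 0 (fun (c : ℤ) (_ : ℕ) (n : ℕ) => n + Int.natAbs c))) with hTA
  -- relations
  have R1 : Rel3 (RP B (tri p.n)) TZ TN := by
    refine comb_rel (fun a b a' b' ha hb => RP_add ha hb) (fun c a a' ha => ?_) _ ?_
    · have := RP_mul c (res W c) (by rw [hW]; exact res_spec _ hBp c) ha
      rw [← hW] at this
      exact this
    · rw [hTD]
      have : ∀ l : List (List Mo), (∀ S ∈ l, posB (tri p.n) S = true) →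
          List.Forall₂ (Rel3 (RP B (tri p.n))) (l.map (dense (fun _ => 0) accZ))
            (l.map (dense 0 (accN W B))) := by
        intro l
        induction l with
        | nil => intro _; exact List.Forall₂.nil
        | cons S l ih =>
          intro hl
          refine List.Forall₂.cons ?_ (ih fun S' hS' => hl S' (by simp [hS']))
          have hS := hl S (by simp)
          clear ih hl
          induction S with
          | nil => exact List.Forall₂.nil
          | cons m S ihS =>
            obtain ⟨i, j, k, e, cc⟩ := m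
            unfold posB at hS
            rw [List.all_cons, Bool.and_eq_true] at hS
            have he : e < tri p.n := of_decide_eq_true hS.1
            have hacc : ∀ a a', RP B (tri p.n) a a' →
                RP B (tri p.n) (accZ cc e a) (accN W B cc e a') := by
              intro a a' ha
              rw [hW]
              exact acc_RP hBp cc e he ha
            exact insG_rel List.Forall₂.nil (fun _ _ h2 => insG_rel List.Forall₂.nil
              (fun _ _ h3 => insG_rel (RP_zero _ _) hacc k h3) j h2) i (ihS hS.2)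
      exact this Ts hpos
  have R2 : Rel3 Rabs TZ TA := by
    refine comb_rel (fun a b a' b' ha hb k => ?_) (fun c a a' ha => ?_) _ ?_
    · have h1 := ha k
      have h2 := hb k
      have h3 : |a k + b k| ≤ |a k| + |b k| := abs_add_le _ _
      show |a k + b k| ≤ ((a' + b' : ℕ) : ℤ)
      push_cast
      linarith
    · exact Rabs_mul c c.natAbs (by rw [Int.natCast_natAbs]) ha
    · have : ∀ l : List (List Mo), List.Forall₂ (Rel3 Rabs) (l.map (dense (fun _ => 0) accZ))
          (l.map (dense 0 (fun (c : ℤ) (_ : ℕ) (n : ℕ) => n + Int.natAbs c))) := by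
        intro l
        induction l with
        | nil => exact List.Forall₂.nil
        | cons S l ih =>
          refine List.Forall₂.cons ?_ ih
          refine dense_rel (fun k => by simp) (fun cc e a a' ha k => ?_) S
          have h1 := ha k
          show |a k + cc * (if k = e then 1 else 0)| ≤ ((a' + Int.natAbs cc : ℕ) : ℤ)
          have h2 : |a k + cc * (if k = e then 1 else 0)| ≤ |a k| + |cc * (if k = e then 1 else 0)| :=
            abs_add_le _ _
          have h3 : |cc * (if k = e then (1 : ℤ) else 0)| ≤ |cc| := by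
            split_ifs <;> simp
          push_cast
          linarith
      exact this Ts
  -- shapes
  have sN : Shp (p.n1 + 1) (p.n2 + 1) (p.n3 + 1) TN := shpB_true k5
  have sZ := shp_of_rel R1 sN
  have sA : Shp (p.n1 + 1) (p.n2 + 1) (p.n3 + 1) TA := by
    have : Rel3 (fun a b => Rabs b a) TA TZ := by
      have fl : ∀ {A A' : Type} {Q : A → A' → Prop} {l : List A} {l' : List A'},
          List.Forall₂ Q l l' → List.Forall₂ (fun a b => Q b a) l' l := by
        intro A A' Q l l' hl
        exact List.Forall₂.flip hl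
      unfold Rel3 at *
      have g := fl R2
      refine List.Forall₂.imp (fun a b hab => ?_) g
      refine List.Forall₂.imp (fun a b hab => ?_) (fl hab)
      exact fl hab
    exact shp_of_rel this sZ
  -- conversions
  set CZ := conv3 addZ (ScZ c) smZ SX SY SZ TZ with hCZ
  set CN := conv3 Nat.add (ScN W c) (smN W) SX SY SZ TN with hCN
  set CA := conv3 (· + ·) ScA (fun (s : ℕ) (n : ℕ) => s * n) SX SY SZ TA with hCA
  have hsc : ∀ (z : ℤ) (a : ℕ → ℤ) (a' : ℕ), RP B (tri p.n) a a' →
      RP B (tri p.n) (scZ z a) (scN W z a') := by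
    intro z a a' ha
    have := RP_mul z (res W z) (by rw [hW]; exact res_spec _ hBp z) ha
    rw [← hW] at this
    exact this
  have R3 : Rel3 (RP B (tri p.n)) CZ CN := by
    refine conv3_rel (fun a b a' b' ha hb => RP_add ha hb) (hsc _) (hsc _) (hsc _) (hsc _) (hsc _)
      (hsc _) (fun s a a' ha => ?_) SX SY SZ R1
    have := RP_mul (s : ℤ) s (by simp) ha
    rw [← hW] at this
    exact this
  have hsa : ∀ (z : ℤ), |z| ≤ 1024 → ∀ (a : ℕ → ℤ) (a' : ℕ), Rabs a a' →
      Rabs (scZ z a) (1024 * a') := fun z hz a a' ha => Rabs_mul z 1024 hz ha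
  have R4 : Rel3 Rabs CZ CA := by
    refine conv3_rel (fun a b a' b' ha hb k => ?_) (hsa _ d1) (hsa _ d2) (hsa _ d3) (hsa _ d4)
      (hsa _ d5) (hsa _ d6) (fun s a a' ha => ?_) SX SY SZ R2
    · have h1 := ha k
      have h2 := hb k
      have h3 : |a k + b k| ≤ |a k| + |b k| := abs_add_le _ _
      show |a k + b k| ≤ ((a' + b' : ℕ) : ℤ)
      push_cast
      linarith
    · exact Rabs_mul (s : ℤ) s (by simp) ha
  -- bound of the leaves
  have fA : ∀ (D : ℝ), D = 1024 → Comp (fun a b : ℕ => a + b) (fun n : ℕ => 1024 * n)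
      (fun n : ℕ => 1024 * n) (fun (s : ℕ) (n : ℕ) => s * n) (fun _ => True)
      (fun n : ℕ => (n : ℝ)) D D := by
    intro D hD
    subst hD
    exact
    { gadd := fun _ _ _ _ => trivial
      fadd := fun a b _ _ => by push_cast; rfl
      glo := fun _ _ => trivial
      flo := fun a _ => by push_cast; rfl
      ghi := fun _ _ => trivial
      fhi := fun a _ => by push_cast; rfl
      gsm := fun _ _ _ => trivial
      fsm := fun s a _ => by push_cast; rfl }
  have tot : F3 (fun n : ℕ => (n : ℝ)) 1 1 1 1 1 1 CA =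
      (2048 : ℝ) ^ (p.n1 + p.n2 + p.n3) * (dotN c.cs taus : ℕ) := by
    have e1 := conv3_sem (s := ScA) (fA 1024 rfl) (fA 1024 rfl) (fA 1024 rfl) hSX hSY hSZ
      1 1 1 1 1 1 sA
    rw [hCA, e1]
    have e2 := F3_P3 (f := fun n : ℕ => (n : ℝ)) 2048 2048 2048 1 1 1 p.n1 p.n2 p.n3 TA sA
    have e3 : (1024 : ℝ) * 1 + 1024 * 1 = 2048 * 1 := by norm_num
    have e4 : (1024 : ℝ) * (1 + 1) = 2048 := by norm_num
    rw [e3, e4, e2, hTA, comb_sem (w := fun c => (Int.natAbs c : ℝ)) (fun a b => by push_cast; rfl)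
      (fun c a => by push_cast; rfl) (by simp)]
    rw [dot_map (g' := fun S : List Mo => (nrmS S : ℝ)), htau, dotN_eq]
    · ring
    · intro S _
      rw [nrmS_sum]
      exact dense_sem (f := fun n : ℕ => (n : ℝ)) (w := fun c => (Int.natAbs c : ℝ))
        (mon := fun _ => 1) (by simp) (fun c e a => by push_cast; ring) 1 1 1 S
  have bA : All3 (fun n : ℕ => n < H) CA := by
    have h1 := F3_le (f := fun n : ℕ => (n : ℝ)) (T := CA) (fun _ _ _ _ a _ => Nat.cast_nonneg a)
    intro t2 h2 t3 h3 a ha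
    have h4 := h1 t2 h2 t3 h3 a ha
    have h5 : (a : ℝ) ≤ (2048 : ℝ) ^ (p.n1 + p.n2 + p.n3) * (dotN c.cs taus : ℕ) := by
      rw [← tot]; exact h4
    have h6 : a ≤ 2048 ^ (p.n1 + p.n2 + p.n3) * dotN c.cs taus := by exact_mod_cast h5
    exact lt_of_le_of_lt h6 hlt
  have bZ : All3 (fun e : ℕ → ℤ => ∀ k, |e k| < H) CZ :=
    all_of_rel R4 bA fun e n he hn k => lt_of_le_of_lt (he k) (by exact_mod_cast hn)
  -- positivity of the leaves
  have pN : All3 (fun N : ℕ => leafB B H p.n W O N = true) CN := fun t2 h2 t3 h3 a ha =>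
    allL_true (allL_true (allL_true k6 t2 h2) t3 h3) a ha
  have pZ : All3 (fun e : ℕ → ℤ => (∀ k, |e k| < H) → 0 ≤ fQ xs e) CZ := by
    refine all_of_rel R3 pN fun e N he hN hb => ?_
    obtain ⟨a, q1, q2, q3⟩ := RP_offset he hB fun k _ => hb k
    obtain ⟨r1, r2⟩ := exRows_sem B H p.n a e xs hxs q1 q2
    have hN' : chk p.n (exRows B H p.n ((N + O) % W)) = true := hN
    rw [hO, hW, q3] at hN'
    have := chk_sound p.n _ r1 hN' xs hxs
    rw [r2] at this
    linarith
  have pZ' : All3 (fun e : ℕ → ℤ => 0 ≤ fQ xs e) CZ := fun t2 h2 t3 h3 a ha =>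
    pZ t2 h2 t3 h3 a ha (bZ t2 h2 t3 h3 a ha)
  -- evaluation
  obtain ⟨u1, v1, pu1, pv1, s1, t1⟩ := exists_uv _ _ 1024 x1 a1 b1
  obtain ⟨u2, v2, pu2, pv2, s2, t2⟩ := exists_uv _ _ 1024 x2 a2 b2
  obtain ⟨u3, v3, pu3, pv3, s3, t3⟩ := exists_uv _ _ 1024 x3 a3 b3
  have fZ : ∀ lo hi : ℤ, Comp addZ (scZ lo) (scZ hi) smZ (fun _ => True) (fQ xs) lo hi := fun lo hi =>
    { gadd := fun _ _ _ _ => trivial
      fadd := fun a b _ _ => fQ_add a b xs
      glo := fun _ _ => trivial
      flo := fun a _ => fQ_smul lo a xs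
      ghi := fun _ _ => trivial
      fhi := fun a _ => fQ_smul hi a xs
      gsm := fun _ _ _ => trivial
      fsm := fun s a _ => by
        have := fQ_smul (s : ℤ) a xs
        push_cast at this
        exact this }
  have ev := conv3_sem (s := ScZ c) (fZ c.l1 c.h1) (fZ c.l2 c.h2) (fZ c.l3 c.h3) hSX hSY hSZ
    u1 v1 u2 v2 u3 v3 sZ
  rw [t1, t2, t3, s1, s2, s3, mul_one] at ev
  have e2 := F3_P3 (f := fQ xs) 1024 1024 1024 x1 x2 x3 p.n1 p.n2 p.n3 TZ sZ
  have e3 : P3 (fQ xs) x1 x2 x3 TZ = semC x1 x2 x3 xs c.cs Ts := by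
    rw [hTZ, comb_sem (add := addZ) (sc := scZ) (f := fQ xs) (w := fun c : ℤ => (c : ℝ))
      (fun a b => fQ_add a b xs) (fun c a => fQ_smul c a xs) (by simp),
      dot_map (g' := semS x1 x2 x3 xs), semC_dot]
    intro S _
    exact dense_sem (f := fQ xs) (w := fun c => (c : ℝ)) (mon := mon xs) (fQ_zero xs)
      (fun c e a => accZ_sem xs c e a) x1 x2 x3 S
  have hnn := F3_nonneg (f := fQ xs) pu1 pv1 pu2 pv2 pu3 pv3 pZ'
  rw [hCZ, ev, e2, e3] at hnn
  have hpos' : (0 : ℝ) < 1024 ^ p.n3 * (1024 ^ p.n2 * 1024 ^ p.n1) := by positivity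
  have : 0 ≤ (1024 ^ p.n3 * (1024 ^ p.n2 * 1024 ^ p.n1)) * semC x1 x2 x3 xs c.cs Ts := by
    linarith [hnn]
  exact nonneg_of_mul_nonneg_right this hpos'

end Pool.G1.MB
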