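import Pool.Agent.Work.MP_b5407d_g1.Pl_MB4

/-!
# G1, line P: kernel checker for matrix polynomials, part 5: packed families of tables
-/

set_option autoImplicit false

namespace Pool.G1.MB

noncomputable def eqL {M : Type} (P : M → M → Bool) (l : List M) : List M → Bool :=
  List.rec (motive := fun _ => List M → Bool)
    (fun l' => List.rec (motive := fun _ => Bool) true (fun _ _ _ => false) l')
    (fun a _ ih l' => List.rec (motive := fun _ => Bool) false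
      (fun b t' _ => cond (P a b) (ih t') false) l') l

theorem eqL_true {M : Type} {P : M → M → Bool} (hP : ∀ a b, P a b = true → a = b) (l l' : List M)
    (h : eqL P l l' = true) : l = l' := by
  induction l generalizing l' with
  | nil =>
    cases l' with
    | nil => rfl
    | cons b l' => exact absurd h (by simp [eqL])
  | cons a l ih =>
    cases l' with
    | nil => exact absurd h (by simp [eqL])
    | cons b l' =>
      have h' : cond (P a b) (eqL P l l') false = true := h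
      obtain ⟨h1, h2⟩ := cond_and h'
      rw [hP a b h1, ih l' h2]

noncomputable def eqT : List (List (List (List ℕ))) → List (List (List (List ℕ))) → Bool :=
  eqL (eqL (eqL (eqL Nat.beq)))

theorem eqT_true {l l' : List (List (List (List ℕ)))} (h : eqT l l' = true) : l = l' :=
  eqL_true (fun a b hab => eqL_true (fun a b hab => eqL_true (fun a b hab => eqL_true
    (fun _ _ hab => Nat.eq_of_beq_eq_true hab) a b hab) a b hab) a b hab) l l' h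

/-- a family of tables together with its packed form -/
structure Fam where
  p : Par
  B : ℕ
  H : ℕ
  W : ℕ
  O : ℕ
  Ts : List (List Mo)
  TD : List (List (List (List ℕ)))
  taus : List ℕ

structure Fam.Ok (F : Fam) : Prop where
  hB : F.B = 2 * F.H
  hW : F.W = F.B ^ tri F.p.n
  hO : F.O = off F.H F.B (tri F.p.n)
  h1 : F.p.n1 ≤ 12
  h2 : F.p.n2 ≤ 12
  h3 : F.p.n3 ≤ 12
  hTD : F.TD = F.Ts.map (dense 0 (accN F.W F.B))
  htau : F.taus = F.Ts.map nrmS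
  hpos : ∀ S ∈ F.Ts, posB (tri F.p.n) S = true

noncomputable def offK (H B m : ℕ) : ℕ :=
  Nat.rec (motive := fun _ => ℕ) 0 (fun _ ih => Nat.add H (Nat.mul B ih)) m

theorem offK_eq (H B m : ℕ) : offK H B m = off H B m := by
  induction m with
  | zero => rfl
  | succ m ih =>
    show H + B * offK H B m = _
    rw [ih]
    unfold off
    rw [Sn_succ]

/-- check of the data of a family -/
noncomputable def Fam.okB (F : Fam) : Bool :=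
  cond (Nat.beq F.B (Nat.mul 2 F.H)) (cond (Nat.beq F.W (Nat.pow F.B (tri F.p.n)))
    (cond (Nat.beq F.O (offK F.H F.B (tri F.p.n)))
      (cond (Nat.ble F.p.n1 12) (cond (Nat.ble F.p.n2 12) (cond (Nat.ble F.p.n3 12)
        (cond (eqT F.TD (F.Ts.map (dense 0 (accN F.W F.B))))
          (cond (eqL Nat.beq F.taus (F.Ts.map nrmS)) (allL (posB (tri F.p.n)) F.Ts) false)
          false) false) false) false) false) false) false

theorem Fam.ok_of {F : Fam} (h : F.okB = true) : F.Ok := by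
  obtain ⟨h1, h⟩ := cond_and h
  obtain ⟨h2, h⟩ := cond_and h
  obtain ⟨h3, h⟩ := cond_and h
  obtain ⟨h4, h⟩ := cond_and h
  obtain ⟨h5, h⟩ := cond_and h
  obtain ⟨h6, h⟩ := cond_and h
  obtain ⟨h7, h⟩ := cond_and h
  obtain ⟨h8, h9⟩ := cond_and h
  exact
  { hB := Nat.eq_of_beq_eq_true h1
    hW := Nat.eq_of_beq_eq_true h2
    hO := by rw [← offK_eq]; exact Nat.eq_of_beq_eq_true h3
    h1 := Nat.le_of_ble_eq_true h4
    h2 := Nat.le_of_ble_eq_true h5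
    h3 := Nat.le_of_ble_eq_true h6
    hTD := eqT_true h7
    htau := eqL_true (fun _ _ hab => Nat.eq_of_beq_eq_true hab) _ _ h8
    hpos := allL_true h9 }

noncomputable def Fam.cell (F : Fam) (c : Cell) : Bool :=
  cellB F.p F.B F.H F.W F.O (SS (F.p.n1 + 1)) (SS (F.p.n2 + 1)) (SS (F.p.n3 + 1)) F.taus F.TD c

theorem Fam.sound {F : Fam} (hF : F.Ok) {c : Cell} (h : F.cell c = true) :
    ∀ x1 x2 x3 : ℝ, (c.l1 : ℝ) ≤ 1024 * x1 → 1024 * x1 ≤ c.h1 → (c.l2 : ℝ) ≤ 1024 * x2 →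
      1024 * x2 ≤ c.h2 → (c.l3 : ℝ) ≤ 1024 * x3 → 1024 * x3 ≤ c.h3 →
      ∀ xs : List ℝ, xs.length = F.p.n → 0 ≤ semC x1 x2 x3 xs c.cs F.Ts :=
  cell_sound hF.hB hF.hW hF.hO (fit_SS _ (by have := hF.h1; omega))
    (fit_SS _ (by have := hF.h2; omega)) (fit_SS _ (by have := hF.h3; omega)) hF.hTD hF.htau hF.hpos
    c h

/-! ## boxes and trees of bisections -/

/-- box `[l/1024, h/1024]³` -/
structure Box where
  l1 : ℤ
  h1 : ℤ
  l2 : ℤ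
  h2 : ℤ
  l3 : ℤ
  h3 : ℤ

def Box.In (b : Box) (x1 x2 x3 : ℝ) : Prop :=
  (b.l1 : ℝ) ≤ 1024 * x1 ∧ 1024 * x1 ≤ b.h1 ∧ (b.l2 : ℝ) ≤ 1024 * x2 ∧ 1024 * x2 ≤ b.h2 ∧
    (b.l3 : ℝ) ≤ 1024 * x3 ∧ 1024 * x3 ≤ b.h3

/-- check of one matrix inequality on a box -/
noncomputable def Fam.on (F : Fam) (b : Box) (cs : List ℤ) : Bool :=
  F.cell ⟨b.l1, b.h1, b.l2, b.h2, b.l3, b.h3, cs⟩

theorem Fam.on_sound {F : Fam} (hF : F.Ok) {b : Box} {cs : List ℤ} (h : F.on b cs = true)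
    {x1 x2 x3 : ℝ} (hx : b.In x1 x2 x3) (xs : List ℝ) (hxs : xs.length = F.p.n) :
    0 ≤ semC x1 x2 x3 xs cs F.Ts := by
  obtain ⟨a1, a2, a3, a4, a5, a6⟩ := hx
  exact Fam.sound hF h x1 x2 x3 a1 a2 a3 a4 a5 a6 xs hxs

/-- tree of bisections; the leaves carry integer constants -/
inductive Tr : Type
  | leaf (cs : List ℤ) : Tr
  | n1 (m : ℤ) (a b : Tr) : Tr
  | n2 (m : ℤ) (a b : Tr) : Tr
  | n3 (m : ℤ) (a b : Tr) : Tr

/-- check of a tree -/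
noncomputable def Tr.chk (L : Box → List ℤ → Bool) (t : Tr) : Box → Bool :=
  Tr.rec (motive := fun _ => Box → Bool) (fun cs b => L b cs)
    (fun m _ _ ia ib b => cond (ia ⟨b.l1, m, b.l2, b.h2, b.l3, b.h3⟩)
      (ib ⟨m, b.h1, b.l2, b.h2, b.l3, b.h3⟩) false)
    (fun m _ _ ia ib b => cond (ia ⟨b.l1, b.h1, b.l2, m, b.l3, b.h3⟩)
      (ib ⟨b.l1, b.h1, m, b.h2, b.l3, b.h3⟩) false)
    (fun m _ _ ia ib b => cond (ia ⟨b.l1, b.h1, b.l2, b.h2, b.l3, m⟩)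
      (ib ⟨b.l1, b.h1, b.l2, b.h2, m, b.h3⟩) false) t

/-- the statement proved by a tree: at every point of the box there are constants with `Q` -/
def Cov (Q : ℝ → ℝ → ℝ → List ℤ → Prop) (b : Box) : Prop :=
  ∀ x1 x2 x3 : ℝ, b.In x1 x2 x3 → ∃ cs, Q x1 x2 x3 cs

theorem Cov.n1 {Q : ℝ → ℝ → ℝ → List ℤ → Prop} {b : Box} (m : ℤ)
    (ha : Cov Q ⟨b.l1, m, b.l2, b.h2, b.l3, b.h3⟩) (hb : Cov Q ⟨m, b.h1, b.l2, b.h2, b.l3, b.h3⟩) :
    Cov Q b := by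
  intro x1 x2 x3 hx
  obtain ⟨a1, a2, a3, a4, a5, a6⟩ := hx
  rcases le_total (1024 * x1) m with h | h
  · exact ha x1 x2 x3 ⟨a1, h, a3, a4, a5, a6⟩
  · exact hb x1 x2 x3 ⟨h, a2, a3, a4, a5, a6⟩

theorem Cov.n2 {Q : ℝ → ℝ → ℝ → List ℤ → Prop} {b : Box} (m : ℤ)
    (ha : Cov Q ⟨b.l1, b.h1, b.l2, m, b.l3, b.h3⟩) (hb : Cov Q ⟨b.l1, b.h1, m, b.h2, b.l3, b.h3⟩) :
    Cov Q b := by
  intro x1 x2 x3 hx
  obtain ⟨a1, a2, a3, a4, a5, a6⟩ := hx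
  rcases le_total (1024 * x2) m with h | h
  · exact ha x1 x2 x3 ⟨a1, a2, a3, h, a5, a6⟩
  · exact hb x1 x2 x3 ⟨a1, a2, h, a4, a5, a6⟩

theorem Cov.n3 {Q : ℝ → ℝ → ℝ → List ℤ → Prop} {b : Box} (m : ℤ)
    (ha : Cov Q ⟨b.l1, b.h1, b.l2, b.h2, b.l3, m⟩) (hb : Cov Q ⟨b.l1, b.h1, b.l2, b.h2, m, b.h3⟩) :
    Cov Q b := by
  intro x1 x2 x3 hx
  obtain ⟨a1, a2, a3, a4, a5, a6⟩ := hx
  rcases le_total (1024 * x3) m with h | h
  · exact ha x1 x2 x3 ⟨a1, a2, a3, a4, a5, h⟩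
  · exact hb x1 x2 x3 ⟨a1, a2, a3, a4, h, a6⟩

/-- soundness of the tree check: `L b cs = true` proves `Q` on the box `b` -/
theorem Tr.sound {L : Box → List ℤ → Bool} {Q : ℝ → ℝ → ℝ → List ℤ → Prop}
    (hL : ∀ b cs, L b cs = true → ∀ x1 x2 x3, b.In x1 x2 x3 → Q x1 x2 x3 cs) (t : Tr) (b : Box)
    (h : t.chk L b = true) : Cov Q b := by
  induction t generalizing b with
  | leaf cs => exact fun x1 x2 x3 hx => ⟨cs, hL b cs h x1 x2 x3 hx⟩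
  | n1 m ta tb ia ib =>
    have h' : cond (ta.chk L ⟨b.l1, m, b.l2, b.h2, b.l3, b.h3⟩)
      (tb.chk L ⟨m, b.h1, b.l2, b.h2, b.l3, b.h3⟩) false = true := h
    obtain ⟨h1, h2⟩ := cond_and h'
    exact Cov.n1 m (ia _ h1) (ib _ h2)
  | n2 m ta tb ia ib =>
    have h' : cond (ta.chk L ⟨b.l1, b.h1, b.l2, m, b.l3, b.h3⟩)
      (tb.chk L ⟨b.l1, b.h1, m, b.h2, b.l3, b.h3⟩) false = true := h
    obtain ⟨h1, h2⟩ := cond_and h'
    exact Cov.n2 m (ia _ h1) (ib _ h2)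
  | n3 m ta tb ia ib =>
    have h' : cond (ta.chk L ⟨b.l1, b.h1, b.l2, b.h2, b.l3, m⟩)
      (tb.chk L ⟨b.l1, b.h1, b.l2, b.h2, m, b.h3⟩) false = true := h
    obtain ⟨h1, h2⟩ := cond_and h'
    exact Cov.n3 m (ia _ h1) (ib _ h2)

/-- monomials for `n = 6` -/
theorem mon6 (z0 z1 z2 z3 z4 z5 : ℝ) :
    mon [z0, z1, z2, z3, z4, z5] 0 = z0 * z0 ∧ mon [z0, z1, z2, z3, z4, z5] 1 = z0 * z1 ∧
    mon [z0, z1, z2, z3, z4, z5] 2 = z0 * z2 ∧ mon [z0, z1, z2, z3, z4, z5] 3 = z0 * z3 ∧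
    mon [z0, z1, z2, z3, z4, z5] 4 = z0 * z4 ∧ mon [z0, z1, z2, z3, z4, z5] 5 = z0 * z5 ∧
    mon [z0, z1, z2, z3, z4, z5] 6 = z1 * z1 ∧ mon [z0, z1, z2, z3, z4, z5] 7 = z1 * z2 ∧
    mon [z0, z1, z2, z3, z4, z5] 8 = z1 * z3 ∧ mon [z0, z1, z2, z3, z4, z5] 9 = z1 * z4 ∧
    mon [z0, z1, z2, z3, z4, z5] 10 = z1 * z5 ∧ mon [z0, z1, z2, z3, z4, z5] 11 = z2 * z2 ∧
    mon [z0, z1, z2, z3, z4, z5] 12 = z2 * z3 ∧ mon [z0, z1, z2, z3, z4, z5] 13 = z2 * z4 ∧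
    mon [z0, z1, z2, z3, z4, z5] 14 = z2 * z5 ∧ mon [z0, z1, z2, z3, z4, z5] 15 = z3 * z3 ∧
    mon [z0, z1, z2, z3, z4, z5] 16 = z3 * z4 ∧ mon [z0, z1, z2, z3, z4, z5] 17 = z3 * z5 ∧
    mon [z0, z1, z2, z3, z4, z5] 18 = z4 * z4 ∧ mon [z0, z1, z2, z3, z4, z5] 19 = z4 * z5 ∧
    mon [z0, z1, z2, z3, z4, z5] 20 = z5 * z5 := by
  refine ⟨?_, ?_, ?_, ?_, ?_, ?_, ?_, ?_, ?_, ?_, ?_, ?_, ?_, ?_, ?_, ?_, ?_, ?_, ?_, ?_, ?_⟩ <;>
    simp [mon, fQ, lin]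

theorem mon1 (z0 : ℝ) : mon [z0] 0 = z0 * z0 := by simp [mon, fQ, lin]

end Pool.G1.MB
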