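import Pool.Agent.Work.MP_b5407d_g1.Pl_PWL

/-!
# G1, line P-a: cells of the windows `t ∈ [1024, 1434] / 4096`, part a

Generated from the certificate file (79 integers per cell).
-/

set_option autoImplicit false

namespace Pool.G1.Gap

namespace PB

/-- cell -/
def cmid0 : CellD := ⟨⟨0,512,0,1024,-112,112⟩, 3072,1188,3850,1024,1434,
  ⟨1129,-206,1174,229⟩, ⟨726,-513,53,507⟩, ⟨-708,-276,-839,-342⟩, ⟨-757,602,385,851⟩, ⟨894,-938,-64,-232⟩, ⟨8223,-1973,987,1⟩, ⟨9244,-6007,-946,-810⟩, ⟨1827,1575,-1821⟩, ⟨197,6561,4792⟩,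
  1594,-1586,2918,1612, ⟨944,-469,1727⟩, ⟨2087,1137,829⟩, ⟨87,0,0⟩, ⟨3,0,0⟩, ⟨912,327,161⟩, ⟨560,-886,1454⟩, ⟨29710,14632,69726⟩, -3779,6303, ⟨0,0,0⟩, 112,0,112,0⟩

theorem cmid0_ok : cmid0.ok = true := by decide +kernel

/-- cell -/
def cmid1 : CellD := ⟨⟨512,768,0,512,-112,112⟩, 3072,1188,3850,1024,1434,
  ⟨1103,-287,941,482⟩, ⟨778,-1091,105,-698⟩, ⟨-322,-1269,-991,-1760⟩, ⟨-2469,2316,1180,608⟩, ⟨1180,-1674,-371,-712⟩, ⟨7718,-3040,2547,1407⟩, ⟨8949,-5035,-2518,-1916⟩, ⟨2467,1740,-4905⟩, ⟨1970,2821,5418⟩,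
  5250,1396,2902,1042, ⟨6750,1648,1784⟩, ⟨2065,690,771⟩, ⟨1045,-808,10744⟩, ⟨6,-5,69⟩, ⟨712,313,268⟩, ⟨25,-164,1798⟩, ⟨92221,11263,121978⟩, -2424,3099, ⟨0,0,0⟩, 112,0,112,0⟩

theorem cmid1_ok : cmid1.ok = true := by decide +kernel

/-- cell -/
def cmid2 : CellD := ⟨⟨512,768,512,1024,-112,0⟩, 3072,1188,3850,1024,1434,
  ⟨-22,2134,953,1074⟩, ⟨-1369,2802,-621,-457⟩, ⟨-1112,3851,-3412,157⟩, ⟨-379,683,128,-41⟩, ⟨5303,-1361,-8486,-1222⟩, ⟨6387,-1047,2674,478⟩, ⟨7841,-3946,-1177,-642⟩, ⟨1861,554,-2131⟩, ⟨10611,-7619,498⟩,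
  2102,-10048,3317,8279, ⟨1216,-3908,36089⟩, ⟨2688,6706,16738⟩, ⟨6,0,0⟩, ⟨0,0,0⟩, ⟨1245,2673,5744⟩, ⟨0,0,2⟩, ⟨8680,-9977,23144⟩, 5679,-5778, ⟨6444,18225,51545⟩, 112,512,0,-1024⟩

theorem cmid2_ok : cmid2.ok = true := by decide +kernel

/-- cell -/
def cmid3 : CellD := ⟨⟨512,768,512,1024,0,112⟩, 3072,1188,3850,1024,1434,
  ⟨-413,2338,1295,445⟩, ⟨-476,2491,-2387,2267⟩, ⟨127,2389,-4159,88⟩, ⟨-983,1282,256,585⟩, ⟨-1142,823,-263,6844⟩, ⟨6511,-959,2436,489⟩, ⟨7191,-3133,-971,-588⟩, ⟨1835,538,-2097⟩, ⟨11626,-8789,217⟩,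
  4017,-8635,2779,5757, ⟨3983,-8806,27291⟩, ⟨1887,3896,8294⟩, ⟨10,0,0⟩, ⟨0,0,0⟩, ⟨1095,1711,5493⟩, ⟨0,0,25⟩, ⟨11450,-14916,39737⟩, -815,3024, ⟨8048,29960,111558⟩, 0,1024,112,-512⟩

theorem cmid3_ok : cmid3.ok = true := by decide +kernel

/-- cell -/
def cmid4 : CellD := ⟨⟨768,1024,0,512,-112,112⟩, 3072,1188,3850,1024,1434,
  ⟨1897,-948,84,162⟩, ⟨462,-298,362,11⟩, ⟨33,-93,-2110,289⟩, ⟨-1342,1473,434,521⟩, ⟨646,-534,-178,135⟩, ⟨7097,-2526,3281,1589⟩, ⟨2433,3853,126,-202⟩, ⟨3216,1107,-5138⟩, ⟨10246,-7363,-1039⟩,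
  6685,-2439,5631,2463, ⟨10916,-3999,1776⟩, ⟨7744,3377,1541⟩, ⟨865,-315,146⟩, ⟨0,0,11⟩, ⟨972,344,2132⟩, ⟨1,-9,94⟩, ⟨25646,9485,28043⟩, -1630,2066, ⟨0,0,0⟩, 112,0,112,0⟩

theorem cmid4_ok : cmid4.ok = true := by decide +kernel

/-- cell -/
def cmid5 : CellD := ⟨⟨768,896,512,768,-112,112⟩, 3072,1188,3850,1024,1434,
  ⟨-1513,2800,1337,1752⟩, ⟨402,79,-690,-780⟩, ⟨-6141,4742,619,10406⟩, ⟨-1848,1894,549,59⟩, ⟨-2926,1902,601,5214⟩, ⟨6230,-1522,3328,1045⟩, ⟨-2511,7959,748,79⟩, ⟨2605,780,-3775⟩, ⟨23639,-20296,-4899⟩,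
  5431,-121,3942,3744, ⟨7237,104,15816⟩, ⟨3796,3596,3691⟩, ⟨363,-513,774⟩, ⟨1,-1,28⟩, ⟨1230,1179,3443⟩, ⟨1,-2,38⟩, ⟨11257,-3848,55107⟩, -2536,3942, ⟨6351,23639,88086⟩, 112,512,112,-512⟩

theorem cmid5_ok : cmid5.ok = true := by decide +kernel

/-- cell -/
def cmid6 : CellD := ⟨⟨768,896,768,896,-112,112⟩, 3072,1188,3850,1024,1434,
  ⟨-5435,3921,5057,2639⟩, ⟨5399,-4103,-3190,-4045⟩, ⟨4128,-549,-7048,4006⟩, ⟨-1097,930,512,-476⟩, ⟨4065,-3444,-2737,2417⟩, ⟨5611,-764,3324,573⟩, ⟨-8473,13543,2228,998⟩, ⟨1801,257,-2174⟩, ⟨31554,-26821,-7720⟩,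
  4653,-141,3607,5007, ⟨5394,638,16931⟩, ⟨3179,4418,6512⟩, ⟨164,-311,638⟩, ⟨0,0,29⟩, ⟨1017,1273,5857⟩, ⟨1,-1,35⟩, ⟨11899,-10856,23441⟩, -230,1212, ⟨5005,16627,55303⟩, 112,768,112,-768⟩

theorem cmid6_ok : cmid6.ok = true := by decide +kernel

/-- cell -/
def cmid7 : CellD := ⟨⟨768,896,896,1024,-112,112⟩, 3072,1188,3850,1024,1434,
  ⟨17161,-2090,-14371,1886⟩, ⟨11075,-7588,-5591,-223⟩, ⟨15146,-2769,-19440,29364⟩, ⟨-650,902,131,-114⟩, ⟨3747,-2597,-2438,3223⟩, ⟨5192,-250,3327,199⟩, ⟨-9404,14608,2299,886⟩, ⟨737,55,-778⟩, ⟨28341,-23536,-7032⟩,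
  2847,-11374,3601,4442, ⟨2511,-2434,92586⟩, ⟨3168,3914,5085⟩, ⟨57,0,0⟩, ⟨0,0,0⟩, ⟨931,1122,2116⟩, ⟨0,0,22⟩, ⟨15874,-12516,18778⟩, 3690,-3653, ⟨1329,4732,16863⟩, 112,896,112,-896⟩

theorem cmid7_ok : cmid7.ok = true := by decide +kernel

/-- cell -/
def cmid8 : CellD := ⟨⟨896,1024,512,768,-112,112⟩, 3072,1188,3850,1024,1434,
  ⟨2729,-515,-1415,835⟩, ⟨746,-451,2,-424⟩, ⟨-5654,3357,1724,9309⟩, ⟨-1042,1317,159,292⟩, ⟨-3390,3657,-771,1973⟩, ⟨5908,-1520,3840,1171⟩, ⟨-12390,17069,3424,1208⟩, ⟨2909,708,-4159⟩, ⟨19999,-15273,-5694⟩,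
  5288,-1160,4717,5062, ⟨6837,-1732,7754⟩, ⟨5434,5835,6414⟩, ⟨509,-372,401⟩, ⟨0,0,5⟩, ⟨842,761,1903⟩, ⟨0,0,8⟩, ⟨12525,-3342,35131⟩, -2065,2918, ⟨1690,6586,25677⟩, 112,512,112,-512⟩

theorem cmid8_ok : cmid8.ok = true := by decide +kernel

/-- cell -/
def cmid9 : CellD := ⟨⟨896,1024,768,896,-112,112⟩, 3072,1188,3850,1024,1434,
  ⟨3231,-1327,-818,1459⟩, ⟨7658,-3858,-5498,-1863⟩, ⟨-645,2087,-4427,3893⟩, ⟨856,-223,-848,-1362⟩, ⟨4907,-4389,-2846,1514⟩, ⟨5191,-761,3838,652⟩, ⟨-14252,19007,3454,861⟩, ⟨2038,250,-2458⟩, ⟨14812,-10854,-4380⟩,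
  4655,-122,4646,-36, ⟨5372,471,11273⟩, ⟨5281,34,1635⟩, ⟨254,-212,358⟩, ⟨0,0,30⟩, ⟨621,580,5208⟩, ⟨1,0,32⟩, ⟨16801,-9597,29550⟩, 155,48, ⟨2991,10107,34250⟩, 112,768,112,-768⟩

theorem cmid9_ok : cmid9.ok = true := by decide +kernel

/-- cell -/
def cmid10 : CellD := ⟨⟨896,1024,896,1024,-112,112⟩, 3072,1188,3850,1024,1434,
  ⟨21785,-5380,-17639,1230⟩, ⟨40651,-13048,-33253,-1616⟩, ⟨27562,6897,-43986,5915⟩, ⟨6798,-3904,-3928,-2639⟩, ⟨15398,-11978,-7108,2212⟩, ⟨4709,-248,3840,229⟩, ⟨-15504,20327,3475,532⟩, ⟨843,54,-890⟩, ⟨10111,-7229,-2876⟩,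
  3950,-1154,4069,-89, ⟨4394,4084,69010⟩, ⟨4062,78,3793⟩, ⟨147,0,0⟩, ⟨0,0,0⟩, ⟨517,495,5551⟩, ⟨1,1,40⟩, ⟨24780,-11156,35653⟩, 938,-1063, ⟨1771,6047,20756⟩, 112,896,112,-896⟩

theorem cmid10_ok : cmid10.ok = true := by decide +kernel

/-- window `|τ| ∈ [0, 112] / 1024` -/
def wmid0 : WinD := ⟨3072, 1188, 3850, 1024, 1434⟩

theorem wmid0_cells : ∀ c ∈ [cmid0.box, cmid1.box, cmid2.box, cmid3.box, cmid4.box, cmid5.box, cmid6.box, cmid7.box, cmid8.box, cmid9.box, cmid10.box], WGood wmid0 c :=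
  wg_cons (wgood_of_ok cmid0_ok (by decide +kernel)) <|
  wg_cons (wgood_of_ok cmid1_ok (by decide +kernel)) <|
  wg_cons (wgood_of_ok cmid2_ok (by decide +kernel)) <|
  wg_cons (wgood_of_ok cmid3_ok (by decide +kernel)) <|
  wg_cons (wgood_of_ok cmid4_ok (by decide +kernel)) <|
  wg_cons (wgood_of_ok cmid5_ok (by decide +kernel)) <|
  wg_cons (wgood_of_ok cmid6_ok (by decide +kernel)) <|
  wg_cons (wgood_of_ok cmid7_ok (by decide +kernel)) <|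
  wg_cons (wgood_of_ok cmid8_ok (by decide +kernel)) <|
  wg_cons (wgood_of_ok cmid9_ok (by decide +kernel)) <|
  wg_cons (wgood_of_ok cmid10_ok (by decide +kernel)) <|
  wg_nil _

theorem wmid0_pos : WGood wmid0 ⟨0, 1024, 0, 1024, 0, 112⟩ :=
  wgood_cover wmid0_cells (CTree.n1 512 (CTree.leaf 0) (CTree.n1 768 (CTree.n2 512 (CTree.leaf 1) (CTree.leaf 3)) (CTree.n2 512 (CTree.leaf 4) (CTree.n1 896 (CTree.n2 768 (CTree.leaf 5) (CTree.n2 896 (CTree.leaf 6) (CTree.leaf 7))) (CTree.n2 768 (CTree.leaf 8) (CTree.n2 896 (CTree.leaf 9) (CTree.leaf 10))))))) (by decide +kernel)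

theorem wmid0_neg : WGood wmid0 ⟨0, 1024, 0, 1024, -112, 0⟩ :=
  wgood_cover wmid0_cells (CTree.n1 512 (CTree.leaf 0) (CTree.n1 768 (CTree.n2 512 (CTree.leaf 1) (CTree.leaf 2)) (CTree.n2 512 (CTree.leaf 4) (CTree.n1 896 (CTree.n2 768 (CTree.leaf 5) (CTree.n2 896 (CTree.leaf 6) (CTree.leaf 7))) (CTree.n2 768 (CTree.leaf 8) (CTree.n2 896 (CTree.leaf 9) (CTree.leaf 10))))))) (by decide +kernel)

/-- cell -/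
def cmid11 : CellD := ⟨⟨0,512,0,1024,112,208⟩, 3027,1315,3473,1024,1434,
  ⟨1169,-273,1284,-348⟩, ⟨772,-647,103,708⟩, ⟨-812,-388,-820,536⟩, ⟨-991,1085,494,358⟩, ⟨841,-831,-51,-205⟩, ⟨8224,-1721,861,4⟩, ⟨9397,-6636,-1030,-770⟩, ⟨1816,1506,-1810⟩, ⟨110,7069,4868⟩,
  2554,-1388,2862,455, ⟨2106,-798,1289⟩, ⟨2016,293,190⟩, ⟨217,0,0⟩, ⟨5,0,0⟩, ⟨1570,346,138⟩, ⟨49,-111,286⟩, ⟨34081,-18303,98721⟩, -2717,5100, ⟨1020,3186,10363⟩, -112,1024,208,0⟩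

theorem cmid11_ok : cmid11.ok = true := by decide +kernel

/-- cell -/
def cmid12 : CellD := ⟨⟨512,1024,0,512,112,208⟩, 3027,1315,3473,1024,1434,
  ⟨2286,-1077,-1422,-2868⟩, ⟨632,-428,500,-359⟩, ⟨-1431,1127,960,-725⟩, ⟨-957,999,731,67⟩, ⟨706,-563,-143,-487⟩, ⟨7560,-2755,2756,1538⟩, ⟨5623,738,222,-2⟩, ⟨2699,1272,-4905⟩, ⟨6634,-3885,1055⟩,
  5727,4359,3498,3904, ⟨8066,5907,5286⟩, ⟨3019,3243,4046⟩, ⟨1028,-516,7290⟩, ⟨3,-9,32⟩, ⟨1417,-50,5515⟩, ⟨15,-48,160⟩, ⟨21485,-12104,121383⟩, -529,30, ⟨1149,5985,31441⟩, -112,512,208,0⟩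

theorem cmid12_ok : cmid12.ok = true := by decide +kernel

/-- cell -/
def cmid13 : CellD := ⟨⟨512,768,512,1024,112,208⟩, 3027,1315,3473,1024,1434,
  ⟨-508,1848,2047,8⟩, ⟨-528,1156,-89,1017⟩, ⟨-3824,4729,-2469,5190⟩, ⟨-976,1129,413,138⟩, ⟨-638,-450,59,3380⟩, ⟨6623,-879,2214,497⟩, ⟨6551,-2311,-815,-547⟩, ⟨1814,521,-2067⟩, ⟨12649,-10020,-9⟩,
  3688,1766,3115,366, ⟨4012,-1462,16197⟩, ⟨2399,112,1076⟩, ⟨36,0,0⟩, ⟨1,0,0⟩, ⟨1659,-1484,13327⟩, ⟨2,-8,44⟩, ⟨18717,-35742,117452⟩, -2712,5413, ⟨7780,30371,118671⟩, -112,1024,208,-512⟩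

theorem cmid13_ok : cmid13.ok = true := by decide +kernel

/-- cell -/
def cmid14 : CellD := ⟨⟨768,1024,512,768,112,208⟩, 3027,1315,3473,1024,1434,
  ⟨2259,-382,-1943,542⟩, ⟨513,-67,-165,-297⟩, ⟨-10,102,-1945,1784⟩, ⟨-394,708,44,-288⟩, ⟨248,-545,-1377,2719⟩, ⟨6183,-1369,3200,1100⟩, ⟨-8067,13904,2063,-66⟩, ⟨2681,658,-3769⟩, ⟨23128,-18802,-5120⟩,
  5406,85,3039,3314, ⟨7939,-3117,13906⟩, ⟨2432,1741,5743⟩, ⟨961,-1183,7041⟩, ⟨5,-17,71⟩, ⟨3126,-8752,38101⟩, ⟨6,-20,80⟩, ⟨21305,-37420,121479⟩, 3696,-3185, ⟨10353,35300,120428⟩, -112,768,208,-512⟩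

theorem cmid14_ok : cmid14.ok = true := by decide +kernel

/-- cell -/
def cmid15 : CellD := ⟨⟨768,896,768,1024,112,208⟩, 3027,1315,3473,1024,1434,
  ⟨7213,171,-7493,578⟩, ⟨3624,-987,-3289,-267⟩, ⟨16013,-9033,-14554,1578⟩, ⟨213,-56,45,-129⟩, ⟨-1904,-1472,779,7386⟩, ⟨5755,-437,2859,383⟩, ⟨-8753,14040,2096,945⟩, ⟨1315,180,-1449⟩, ⟨28063,-23722,-6619⟩,
  3998,318,3646,1470, ⟨5701,-8929,51727⟩, ⟨3393,463,5591⟩, ⟨246,0,0⟩, ⟨1,0,0⟩, ⟨2663,-9935,52040⟩, ⟨3,-13,75⟩, ⟨25090,-30076,78952⟩, 3380,-2980, ⟨11900,34738,101409⟩, -112,1024,208,-768⟩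

theorem cmid15_ok : cmid15.ok = true := by decide +kernel

/-- cell -/
def cmid16 : CellD := ⟨⟨896,1024,768,1024,112,208⟩, 3027,1315,3473,1024,1434,
  ⟨8909,-2606,-7397,1818⟩, ⟨6728,-2143,-5875,-8⟩, ⟨26949,-13081,-24259,9679⟩, ⟨3727,-1790,-2364,-486⟩, ⟨13075,-10909,-8784,13184⟩, ⟨5353,-438,3309,438⟩, ⟨-13928,19089,3012,654⟩, ⟨1490,171,-1638⟩, ⟨12140,-8809,-3325⟩,
  4007,310,3991,371, ⟨5175,-6044,34875⟩, ⟨4351,-2255,15480⟩, ⟨363,0,0⟩, ⟨1,0,0⟩, ⟨1808,-7079,42152⟩, ⟨4,-20,114⟩, ⟨34156,-33032,120363⟩, 394,209, ⟨5344,21827,89467⟩, -112,1024,208,-768⟩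

theorem cmid16_ok : cmid16.ok = true := by decide +kernel

/-- cell -/
def cmid17 : CellD := ⟨⟨0,512,0,1024,-208,-112⟩, 3027,1315,3473,1024,1434,
  ⟨1206,-388,892,-207⟩, ⟨523,-402,56,-451⟩, ⟨-1571,166,-517,-4390⟩, ⟨-878,338,214,-2038⟩, ⟨980,-1217,-71,-348⟩, ⟨8223,-2279,1139,3⟩, ⟨9007,-5386,-882,-796⟩, ⟨1841,1660,-1835⟩, ⟨278,6189,4711⟩,
  1786,-6085,3614,2285, ⟨1786,-1510,12080⟩, ⟨3237,2091,1750⟩, ⟨395,0,0⟩, ⟨15,0,0⟩, ⟨28,10,39⟩, ⟨1746,4431,12327⟩, ⟨51688,33804,121721⟩, -5804,11855, ⟨85,75,1624⟩, 208,0,-112,-1024⟩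

theorem cmid17_ok : cmid17.ok = true := by decide +kernel

/-- cell -/
def cmid18 : CellD := ⟨⟨512,1024,0,512,-208,-112⟩, 3027,1315,3473,1024,1434,
  ⟨2094,-1316,-103,397⟩, ⟨465,-302,550,806⟩, ⟨-1775,1524,484,-67⟩, ⟨-846,844,801,442⟩, ⟨839,-992,-138,-293⟩, ⟨7471,-2601,2602,1384⟩, ⟨6941,-937,-23,0⟩, ⟨2839,1580,-5114⟩, ⟨5875,-2944,1264⟩,
  5226,-2096,3683,-611, ⟨6709,-2525,1630⟩, ⟨3338,-466,435⟩, ⟨540,587,3528⟩, ⟨4,15,64⟩, ⟨915,552,1429⟩, ⟨375,1619,7003⟩, ⟨42821,42111,122081⟩, -2370,2467, ⟨272,786,2698⟩, 208,0,-112,-512⟩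

theorem cmid18_ok : cmid18.ok = true := by decide +kernel

/-- cell -/
def cmid19 : CellD := ⟨⟨512,768,512,1024,-208,-112⟩, 3027,1315,3473,1024,1434,
  ⟨1079,95,1321,1749⟩, ⟨-616,1029,125,-534⟩, ⟨-6545,6010,-1687,-10585⟩, ⟨-1024,1317,311,171⟩, ⟨1102,-2715,-140,-1892⟩, ⟨6271,-1131,2896,471⟩, ⟨8413,-4638,-1404,-691⟩, ⟨1886,569,-2163⟩, ⟨9728,-6653,791⟩,
  1420,-12853,3443,5913, ⟨924,-2636,49215⟩, ⟨2913,5081,9296⟩, ⟨14,0,0⟩, ⟨0,0,0⟩, ⟨1784,4753,14230⟩, ⟨2,11,91⟩, ⟨10013,3667,68599⟩, 4062,-3876, ⟨11694,32850,92367⟩, 208,512,-112,-1024⟩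

theorem cmid19_ok : cmid19.ok = true := by decide +kernel

/-- cell -/
def cmid20 : CellD := ⟨⟨768,1024,512,768,-208,-112⟩, 3027,1315,3473,1024,1434,
  ⟨2223,-311,-7,4811⟩, ⟨465,-160,151,393⟩, ⟨-1608,1229,-900,-3924⟩, ⟨-441,688,149,41⟩, ⟨-1302,1453,-1046,-1423⟩, ⟨5988,-1684,3952,1091⟩, ⟨-5066,10987,1490,-456⟩, ⟨2857,752,-4088⟩, ⟨19561,-15782,-4323⟩,
  5259,-715,5158,3970, ⟨6950,-54,4117⟩, ⟨6576,5356,5483⟩, ⟨130,-339,1165⟩, ⟨2,8,40⟩, ⟨1799,4523,16611⟩, ⟨3,11,54⟩, ⟨16377,24594,108475⟩, -1397,2030, ⟨11167,35560,113319⟩, 208,512,-112,-768⟩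

theorem cmid20_ok : cmid20.ok = true := by decide +kernel

/-- cell -/
def cmid21 : CellD := ⟨⟨768,896,768,1024,-208,-112⟩, 3027,1315,3473,1024,1434,
  ⟨1191,2615,-1372,2867⟩, ⟨898,-145,-384,368⟩, ⟨907,3593,-8538,-10208⟩, ⟨-330,707,11,73⟩, ⟨-8778,6396,649,-10651⟩, ⟨5050,-575,3794,379⟩, ⟨-8663,13729,2236,361⟩, ⟨1354,190,-1495⟩, ⟨29990,-25309,-7134⟩,
  2654,-7073,5134,10117, ⟨4334,8237,75573⟩, ⟨6454,12787,25676⟩, ⟨56,0,0⟩, ⟨0,0,0⟩, ⟨1522,4533,18469⟩, ⟨1,6,47⟩, ⟨12529,-1021,41843⟩, 5496,-5915, ⟨10495,30449,88391⟩, 208,768,-112,-1024⟩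

theorem cmid21_ok : cmid21.ok = true := by decide +kernel

/-- cell -/
def cmid22 : CellD := ⟨⟨896,1024,768,896,-208,-112⟩, 3027,1315,3473,1024,1434,
  ⟨3750,-2367,-210,1987⟩, ⟨1041,-173,-991,-662⟩, ⟨-1369,-1927,-6436,-33764⟩, ⟨345,130,-529,-919⟩, ⟨-3541,-1518,-2311,-27307⟩, ⟨4883,-862,4331,651⟩, ⟨-14947,19427,3816,849⟩, ⟨2077,251,-2502⟩, ⟨15250,-11196,-4488⟩,
  4624,-169,4597,-186, ⟨7184,9593,50320⟩, ⟨5557,1787,10378⟩, ⟨155,-103,651⟩, ⟨5,25,131⟩, ⟨1882,7582,36002⟩, ⟨6,28,150⟩, ⟨16513,16703,116392⟩, -819,739, ⟨16908,42543,107070⟩, 208,768,-112,-896⟩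

theorem cmid22_ok : cmid22.ok = true := by decide +kernel

/-- cell -/
def cmid23 : CellD := ⟨⟨896,1024,896,1024,-208,-112⟩, 3027,1315,3473,1024,1434,
  ⟨16108,-4200,-12403,1328⟩, ⟨13207,-2912,-11914,-754⟩, ⟨59076,-20893,-60440,-56560⟩, ⟨3061,-1182,-2101,-528⟩, ⟨19939,-17041,-15110,-39015⟩, ⟨4218,-290,4403,228⟩, ⟨-16553,21021,3885,515⟩, ⟨852,54,-899⟩, ⟨10371,-7416,-2949⟩,
  3902,-833,4019,-277, ⟨6366,12661,73626⟩, ⟨4448,2549,16253⟩, ⟨125,0,0⟩, ⟨1,0,0⟩, ⟨1337,5575,29264⟩, ⟨4,20,116⟩, ⟨22517,10072,116715⟩, 3181,-3927, ⟨10238,28366,78665⟩, 208,896,-112,-1024⟩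

theorem cmid23_ok : cmid23.ok = true := by decide +kernel

/-- window `|τ| ∈ [112, 208] / 1024` -/
def wmid1 : WinD := ⟨3027, 1315, 3473, 1024, 1434⟩

theorem wmid1_cells : ∀ c ∈ [cmid11.box, cmid12.box, cmid13.box, cmid14.box, cmid15.box, cmid16.box, cmid17.box, cmid18.box, cmid19.box, cmid20.box, cmid21.box, cmid22.box, cmid23.box], WGood wmid1 c :=
  wg_cons (wgood_of_ok cmid11_ok (by decide +kernel)) <|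
  wg_cons (wgood_of_ok cmid12_ok (by decide +kernel)) <|
  wg_cons (wgood_of_ok cmid13_ok (by decide +kernel)) <|
  wg_cons (wgood_of_ok cmid14_ok (by decide +kernel)) <|
  wg_cons (wgood_of_ok cmid15_ok (by decide +kernel)) <|
  wg_cons (wgood_of_ok cmid16_ok (by decide +kernel)) <|
  wg_cons (wgood_of_ok cmid17_ok (by decide +kernel)) <|
  wg_cons (wgood_of_ok cmid18_ok (by decide +kernel)) <|
  wg_cons (wgood_of_ok cmid19_ok (by decide +kernel)) <|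
  wg_cons (wgood_of_ok cmid20_ok (by decide +kernel)) <|
  wg_cons (wgood_of_ok cmid21_ok (by decide +kernel)) <|
  wg_cons (wgood_of_ok cmid22_ok (by decide +kernel)) <|
  wg_cons (wgood_of_ok cmid23_ok (by decide +kernel)) <|
  wg_nil _

theorem wmid1_pos : WGood wmid1 ⟨0, 1024, 0, 1024, 112, 208⟩ :=
  wgood_cover wmid1_cells (CTree.n1 512 (CTree.leaf 0) (CTree.n2 512 (CTree.leaf 1) (CTree.n1 768 (CTree.leaf 2) (CTree.n2 768 (CTree.leaf 3) (CTree.n1 896 (CTree.leaf 4) (CTree.leaf 5)))))) (by decide +kernel)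

theorem wmid1_neg : WGood wmid1 ⟨0, 1024, 0, 1024, -208, -112⟩ :=
  wgood_cover wmid1_cells (CTree.n1 512 (CTree.leaf 6) (CTree.n2 512 (CTree.leaf 7) (CTree.n1 768 (CTree.leaf 8) (CTree.n2 768 (CTree.leaf 9) (CTree.n1 896 (CTree.leaf 10) (CTree.n2 896 (CTree.leaf 11) (CTree.leaf 12))))))) (by decide +kernel)

end PB

end Pool.G1.Gap
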