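import Pool.Agent.Work.MP_b5407d_g1.Pl_PWC

/-!
# G1, line P-a: the 82 polynomial tables of the case-free certificate

Table `m` is a list of monomials `(i, j, k, e, c)` = `c ρ^i v^j τ^k z_r z_s` (`e` = position of
`(r, s)` in the upper triangle, row by row, `n = 6`); all tables are `192 ×` the true polynomial.
Lifted vector `z = (v, v p, τ, τ p, y, z0)`.  Generated by a program of helper53 (format: helper93).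
-/

set_option autoImplicit false

namespace Pool.G1.Gap.PB

/-- products `z_r z_s` -/
def mz (z0 z1 z2 z3 z4 z5 : ℝ) : ℕ → ℝ
  | 0 => z0*z0 | 1 => z0*z1 | 2 => z0*z2 | 3 => z0*z3 | 4 => z0*z4 | 5 => z0*z5
  | 6 => z1*z1 | 7 => z1*z2 | 8 => z1*z3 | 9 => z1*z4 | 10 => z1*z5
  | 11 => z2*z2 | 12 => z2*z3 | 13 => z2*z4 | 14 => z2*z5
  | 15 => z3*z3 | 16 => z3*z4 | 17 => z3*z5 | 18 => z4*z4 | 19 => z4*z5 | 20 => z5*z5 | _ => 0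

/-- value of a table -/
def semL (x y t z0 z1 z2 z3 z4 z5 : ℝ) : List (ℕ × ℕ × ℕ × ℕ × ℤ) → ℝ
  | [] => 0
  | (i, j, k, e, c) :: l =>
    c * x ^ i * y ^ j * t ^ k * mz z0 z1 z2 z3 z4 z5 e + semL x y t z0 z1 z2 z3 z4 z5 l

/-- table 0: base -/
def tb0 : List (ℕ × ℕ × ℕ × ℕ × ℤ) :=
  [(1,0,0,0,48), (1,0,0,1,192), (2,0,0,1,-192), (2,2,0,2,16), (1,0,0,3,96), (2,0,0,3,-144),
   (2,2,0,3,-48), (3,0,0,3,48), (3,2,0,3,48), (1,0,0,4,-192), (1,0,1,4,-48), (1,1,0,4,192),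
   (1,1,1,4,48), (2,0,0,4,96), (2,0,1,4,72), (2,1,0,4,-192), (2,1,1,4,-144), (2,2,0,4,96),
   (2,2,1,4,72), (3,0,1,4,-24), (3,1,1,4,72), (3,2,1,4,-72), (3,3,1,4,24), (1,0,1,5,-96),
   (1,1,0,5,192), (2,0,1,5,48), (2,2,1,5,48), (1,0,0,6,-192), (2,0,0,6,384), (3,0,0,6,-192),
   (1,0,0,7,96), (2,0,0,7,-144), (2,2,0,7,-48), (3,0,0,7,48), (3,2,0,7,48), (2,2,0,8,-192),
   (3,2,0,8,384), (4,2,0,8,-192), (1,0,0,9,384), (1,0,1,9,-96), (1,1,0,9,-384), (1,1,1,9,96),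
   (2,0,0,9,-576), (2,0,1,9,48), (2,1,0,9,768), (2,1,1,9,-192), (2,2,0,9,-192), (2,2,1,9,144),
   (3,0,0,9,192), (3,1,0,9,-384), (3,1,1,9,144), (3,2,0,9,192), (3,2,1,9,-288), (3,3,1,9,144),
   (4,1,1,9,-48), (4,2,1,9,144), (4,3,1,9,-144), (4,4,1,9,48), (1,1,0,10,-384), (2,1,0,10,384),
   (2,2,1,10,192), (3,2,1,10,-192), (0,0,0,13,192), (0,1,0,13,-192), (1,0,0,13,-288),
   (1,1,0,13,528), (1,2,0,13,-240), (2,0,0,13,192), (2,1,0,13,-504), (2,2,0,13,432),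
   (2,3,0,13,-120), (3,0,0,13,-48), (3,1,0,13,168), (3,2,0,13,-216), (3,3,0,13,120),
   (3,4,0,13,-24), (0,1,0,14,-384), (1,1,0,14,480), (2,1,0,14,-240), (2,3,0,14,-48),
   (1,1,0,16,288), (1,2,0,16,-288), (2,1,0,16,-528), (2,2,0,16,960), (2,3,0,16,-432),
   (3,1,0,16,384), (3,2,0,16,-1008), (3,3,0,16,864), (3,4,0,16,-240), (4,1,0,16,-96),
   (4,2,0,16,336), (4,3,0,16,-432), (4,4,0,16,240), (4,5,0,16,-48), (1,1,0,17,384),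
   (2,1,0,17,-576), (2,3,0,17,-384), (3,1,0,17,192), (3,3,0,17,384), (0,0,0,18,192),
   (0,0,1,18,192), (0,1,0,18,-192), (0,1,1,18,-192), (1,0,0,18,-480), (1,0,1,18,-480),
   (1,1,0,18,768), (1,1,1,18,768), (1,2,0,18,-288), (1,2,1,18,-288), (2,0,0,18,384),
   (2,0,1,18,480), (2,1,0,18,-864), (2,1,1,18,-1152), (2,2,0,18,576), (2,2,1,18,864),
   (2,3,0,18,-96), (2,3,1,18,-192), (3,0,0,18,-96), (3,0,1,18,-240), (3,1,0,18,288),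
   (3,1,1,18,768), (3,2,0,18,-288), (3,2,1,18,-864), (3,3,0,18,96), (3,3,1,18,384),
   (3,4,1,18,-48), (4,0,1,18,48), (4,1,1,18,-192), (4,2,1,18,288), (4,3,1,18,-192),
   (4,4,1,18,48), (0,0,0,19,384), (0,0,1,19,384), (0,1,0,19,-384), (0,1,1,19,-384),
   (1,0,0,19,-576), (1,0,1,19,-576), (1,1,0,19,768), (1,1,1,19,960), (1,2,0,19,-192),
   (1,2,1,19,-384), (2,0,0,19,192), (2,0,1,19,384), (2,1,0,19,-384), (2,1,1,19,-864),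
   (2,2,0,19,192), (2,2,1,19,576), (2,3,1,19,-96), (3,0,1,19,-96), (3,1,1,19,288),
   (3,2,1,19,-288), (3,3,1,19,96), (0,0,0,20,384), (0,1,1,20,-384), (1,0,0,20,-192),
   (1,1,1,20,384), (2,1,1,20,-192)]

/-- table 1: kap -/
def tb1 : List (ℕ × ℕ × ℕ × ℕ × ℤ) :=
  [(1,0,0,9,-384), (1,1,0,9,384), (2,0,0,9,576), (2,1,0,9,-768), (2,2,0,9,192), (3,0,0,9,-192),
   (3,1,0,9,384), (3,2,0,9,-192), (1,1,0,10,768), (2,1,0,10,-768), (1,0,0,13,96), (1,1,0,13,-96),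
   (2,0,0,13,-96), (2,1,0,13,144), (2,2,0,13,-96), (2,3,0,13,48), (3,0,0,13,24), (3,1,0,13,-48),
   (3,2,0,13,48), (3,3,0,13,-48), (3,4,0,13,24), (1,1,0,14,-192), (2,1,0,14,96), (2,3,0,14,96),
   (1,0,0,16,-192), (1,1,0,16,192), (2,0,0,16,384), (2,1,0,16,-480), (2,2,0,16,192),
   (2,3,0,16,-96), (3,0,0,16,-240), (3,1,0,16,384), (3,2,0,16,-288), (3,3,0,16,192),
   (3,4,0,16,-48), (4,0,0,16,48), (4,1,0,16,-96), (4,2,0,16,96), (4,3,0,16,-96), (4,4,0,16,48),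
   (1,1,0,17,384), (2,1,0,17,-576), (2,3,0,17,-192), (3,1,0,17,192), (3,3,0,17,192),
   (1,0,0,18,192), (1,1,0,18,-384), (1,2,0,18,192), (2,0,0,18,-192), (2,1,0,18,576),
   (2,2,0,18,-576), (2,3,0,18,192), (3,0,0,18,48), (3,1,0,18,-192), (3,2,0,18,288),
   (3,3,0,18,-192), (3,4,0,18,48), (1,0,1,19,192), (1,1,0,19,-384), (1,1,1,19,-192),
   (1,2,0,19,384), (2,0,1,19,-192), (2,1,0,19,192), (2,1,1,19,288), (2,2,0,19,-384),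
   (2,2,1,19,-192), (2,3,0,19,192), (2,3,1,19,96), (3,0,1,19,48), (3,1,1,19,-96), (3,2,1,19,96),
   (3,3,1,19,-96), (3,4,1,19,48), (1,1,1,20,-384), (2,1,1,20,192), (2,3,1,20,192)]

/-- table 2: A -/
def tb2 : List (ℕ × ℕ × ℕ × ℕ × ℤ) :=
  [(0,0,0,13,-192), (0,1,0,13,192), (1,0,0,13,96), (1,1,0,13,-192), (1,2,0,13,96), (0,1,0,14,384)]

/-- table 3: B -/
def tb3 : List (ℕ × ℕ × ℕ × ℕ × ℤ) :=
  [(0,0,0,13,-96), (0,1,0,13,96), (1,0,0,13,48), (1,1,0,13,-96), (1,2,0,13,48), (0,1,0,14,192),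
   (0,0,0,16,192), (0,1,0,16,-192), (1,0,0,16,-288), (1,1,0,16,384), (1,2,0,16,-96),
   (2,0,0,16,96), (2,1,0,16,-192), (2,2,0,16,96), (0,1,0,17,-384), (1,1,0,17,384),
   (0,0,1,19,-192), (0,1,1,19,192), (1,0,1,19,96), (1,1,1,19,-192), (1,2,1,19,96), (0,1,1,20,384)]

/-- table 4: d1 -/
def tb4 : List (ℕ × ℕ × ℕ × ℕ × ℤ) :=
  [(2,0,0,6,768), (2,1,0,6,-768), (1,0,0,9,768), (1,1,0,9,-768), (2,0,0,9,-768), (2,1,0,9,1536),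
   (2,2,0,9,-768), (0,0,0,18,192), (0,1,0,18,-192), (1,0,0,18,-384), (1,1,0,18,768),
   (1,2,0,18,-384), (2,0,0,18,192), (2,1,0,18,-576), (2,2,0,18,576), (2,3,0,18,-192)]

/-- table 5: dr -/
def tb5 : List (ℕ × ℕ × ℕ × ℕ × ℤ) :=
  [(3,0,0,6,768), (3,1,0,6,-768), (2,0,0,9,768), (2,1,0,9,-768), (3,0,0,9,-768), (3,1,0,9,1536),
   (3,2,0,9,-768), (1,0,0,18,192), (1,1,0,18,-192), (2,0,0,18,-384), (2,1,0,18,768),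
   (2,2,0,18,-384), (3,0,0,18,192), (3,1,0,18,-576), (3,2,0,18,576), (3,3,0,18,-192)]

/-- table 6: dv -/
def tb6 : List (ℕ × ℕ × ℕ × ℕ × ℤ) :=
  [(2,1,0,6,768), (2,2,0,6,-768), (1,1,0,9,768), (1,2,0,9,-768), (2,1,0,9,-768), (2,2,0,9,1536),
   (2,3,0,9,-768), (0,1,0,18,192), (0,2,0,18,-192), (1,1,0,18,-384), (1,2,0,18,768),
   (1,3,0,18,-384), (2,1,0,18,192), (2,2,0,18,-576), (2,3,0,18,576), (2,4,0,18,-192)]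

/-- table 7: dt -/
def tb7 : List (ℕ × ℕ × ℕ × ℕ × ℤ) :=
  [(2,0,1,6,768), (2,1,1,6,-768), (1,0,1,9,768), (1,1,1,9,-768), (2,0,1,9,-768), (2,1,1,9,1536),
   (2,2,1,9,-768), (0,0,1,18,192), (0,1,1,18,-192), (1,0,1,18,-384), (1,1,1,18,768),
   (1,2,1,18,-384), (2,0,1,18,192), (2,1,1,18,-576), (2,2,1,18,576), (2,3,1,18,-192)]

/-- table 8: e11 -/
def tb8 : List (ℕ × ℕ × ℕ × ℕ × ℤ) :=
  [(0,0,0,11,96), (0,1,0,11,-96), (1,0,0,11,-48), (1,1,0,11,96), (1,2,0,11,-48), (0,0,0,12,384),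
   (0,1,0,12,-384), (1,0,0,12,-192), (1,1,0,12,768), (1,2,0,12,-576), (2,1,0,12,-192),
   (2,2,0,12,384), (2,3,0,12,-192), (0,0,1,13,768), (0,1,1,13,-768), (1,0,1,13,-768),
   (1,1,1,13,1536), (1,2,1,13,-768), (2,0,1,13,192), (2,1,1,13,-576), (2,2,1,13,576),
   (2,3,1,13,-192), (0,0,1,14,384), (0,1,1,14,-384), (1,0,1,14,-192), (1,1,1,14,384),
   (1,2,1,14,-192), (0,0,0,15,384), (0,1,0,15,-384), (1,0,0,15,-192), (1,1,0,15,1152),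
   (1,2,0,15,-960), (2,1,0,15,-384), (2,2,0,15,1152), (2,3,0,15,-768), (3,2,0,15,-192),
   (3,3,0,15,384), (3,4,0,15,-192), (0,0,1,16,1536), (0,1,1,16,-1536), (1,0,1,16,-1536),
   (1,1,1,16,4608), (1,2,1,16,-3072), (2,0,1,16,384), (2,1,1,16,-2688), (2,2,1,16,4224),
   (2,3,1,16,-1920), (3,1,1,16,384), (3,2,1,16,-1152), (3,3,1,16,1152), (3,4,1,16,-384),
   (0,0,1,17,768), (0,1,1,17,-768), (1,0,1,17,-384), (1,1,1,17,1536), (1,2,1,17,-1152),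
   (2,1,1,17,-384), (2,2,1,17,768), (2,3,1,17,-384), (0,0,2,18,1536), (0,1,2,18,-1536),
   (1,0,2,18,-2304), (1,1,2,18,4608), (1,2,2,18,-2304), (2,0,2,18,1152), (2,1,2,18,-3456),
   (2,2,2,18,3456), (2,3,2,18,-1152), (3,0,2,18,-192), (3,1,2,18,768), (3,2,2,18,-1152),
   (3,3,2,18,768), (3,4,2,18,-192), (0,0,2,19,1536), (0,1,2,19,-1536), (1,0,2,19,-1536),
   (1,1,2,19,3072), (1,2,2,19,-1536), (2,0,2,19,384), (2,1,2,19,-1152), (2,2,2,19,1152),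
   (2,3,2,19,-384), (0,0,2,20,384), (0,1,2,20,-384), (1,0,2,20,-192), (1,1,2,20,384),
   (1,2,2,20,-192)]

/-- table 9: e1r -/
def tb9 : List (ℕ × ℕ × ℕ × ℕ × ℤ) :=
  [(1,0,0,11,96), (1,1,0,11,-96), (2,0,0,11,-48), (2,1,0,11,96), (2,2,0,11,-48), (1,0,0,12,384),
   (1,1,0,12,-384), (2,0,0,12,-192), (2,1,0,12,768), (2,2,0,12,-576), (3,1,0,12,-192),
   (3,2,0,12,384), (3,3,0,12,-192), (1,0,1,13,768), (1,1,1,13,-768), (2,0,1,13,-768),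
   (2,1,1,13,1536), (2,2,1,13,-768), (3,0,1,13,192), (3,1,1,13,-576), (3,2,1,13,576),
   (3,3,1,13,-192), (1,0,1,14,384), (1,1,1,14,-384), (2,0,1,14,-192), (2,1,1,14,384),
   (2,2,1,14,-192), (1,0,0,15,384), (1,1,0,15,-384), (2,0,0,15,-192), (2,1,0,15,1152),
   (2,2,0,15,-960), (3,1,0,15,-384), (3,2,0,15,1152), (3,3,0,15,-768), (4,2,0,15,-192),
   (4,3,0,15,384), (4,4,0,15,-192), (1,0,1,16,1536), (1,1,1,16,-1536), (2,0,1,16,-1536),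
   (2,1,1,16,4608), (2,2,1,16,-3072), (3,0,1,16,384), (3,1,1,16,-2688), (3,2,1,16,4224),
   (3,3,1,16,-1920), (4,1,1,16,384), (4,2,1,16,-1152), (4,3,1,16,1152), (4,4,1,16,-384),
   (1,0,1,17,768), (1,1,1,17,-768), (2,0,1,17,-384), (2,1,1,17,1536), (2,2,1,17,-1152),
   (3,1,1,17,-384), (3,2,1,17,768), (3,3,1,17,-384), (1,0,2,18,1536), (1,1,2,18,-1536),
   (2,0,2,18,-2304), (2,1,2,18,4608), (2,2,2,18,-2304), (3,0,2,18,1152), (3,1,2,18,-3456),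
   (3,2,2,18,3456), (3,3,2,18,-1152), (4,0,2,18,-192), (4,1,2,18,768), (4,2,2,18,-1152),
   (4,3,2,18,768), (4,4,2,18,-192), (1,0,2,19,1536), (1,1,2,19,-1536), (2,0,2,19,-1536),
   (2,1,2,19,3072), (2,2,2,19,-1536), (3,0,2,19,384), (3,1,2,19,-1152), (3,2,2,19,1152),
   (3,3,2,19,-384), (1,0,2,20,384), (1,1,2,20,-384), (2,0,2,20,-192), (2,1,2,20,384),
   (2,2,2,20,-192)]

/-- table 10: e1v -/
def tb10 : List (ℕ × ℕ × ℕ × ℕ × ℤ) :=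
  [(0,1,0,11,96), (0,2,0,11,-96), (1,1,0,11,-48), (1,2,0,11,96), (1,3,0,11,-48), (0,1,0,12,384),
   (0,2,0,12,-384), (1,1,0,12,-192), (1,2,0,12,768), (1,3,0,12,-576), (2,2,0,12,-192),
   (2,3,0,12,384), (2,4,0,12,-192), (0,1,1,13,768), (0,2,1,13,-768), (1,1,1,13,-768),
   (1,2,1,13,1536), (1,3,1,13,-768), (2,1,1,13,192), (2,2,1,13,-576), (2,3,1,13,576),
   (2,4,1,13,-192), (0,1,1,14,384), (0,2,1,14,-384), (1,1,1,14,-192), (1,2,1,14,384),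
   (1,3,1,14,-192), (0,1,0,15,384), (0,2,0,15,-384), (1,1,0,15,-192), (1,2,0,15,1152),
   (1,3,0,15,-960), (2,2,0,15,-384), (2,3,0,15,1152), (2,4,0,15,-768), (3,3,0,15,-192),
   (3,4,0,15,384), (3,5,0,15,-192), (0,1,1,16,1536), (0,2,1,16,-1536), (1,1,1,16,-1536),
   (1,2,1,16,4608), (1,3,1,16,-3072), (2,1,1,16,384), (2,2,1,16,-2688), (2,3,1,16,4224),
   (2,4,1,16,-1920), (3,2,1,16,384), (3,3,1,16,-1152), (3,4,1,16,1152), (3,5,1,16,-384),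
   (0,1,1,17,768), (0,2,1,17,-768), (1,1,1,17,-384), (1,2,1,17,1536), (1,3,1,17,-1152),
   (2,2,1,17,-384), (2,3,1,17,768), (2,4,1,17,-384), (0,1,2,18,1536), (0,2,2,18,-1536),
   (1,1,2,18,-2304), (1,2,2,18,4608), (1,3,2,18,-2304), (2,1,2,18,1152), (2,2,2,18,-3456),
   (2,3,2,18,3456), (2,4,2,18,-1152), (3,1,2,18,-192), (3,2,2,18,768), (3,3,2,18,-1152),
   (3,4,2,18,768), (3,5,2,18,-192), (0,1,2,19,1536), (0,2,2,19,-1536), (1,1,2,19,-1536),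
   (1,2,2,19,3072), (1,3,2,19,-1536), (2,1,2,19,384), (2,2,2,19,-1152), (2,3,2,19,1152),
   (2,4,2,19,-384), (0,1,2,20,384), (0,2,2,20,-384), (1,1,2,20,-192), (1,2,2,20,384),
   (1,3,2,20,-192)]

/-- table 11: e1t -/
def tb11 : List (ℕ × ℕ × ℕ × ℕ × ℤ) :=
  [(0,0,1,11,96), (0,1,1,11,-96), (1,0,1,11,-48), (1,1,1,11,96), (1,2,1,11,-48), (0,0,1,12,384),
   (0,1,1,12,-384), (1,0,1,12,-192), (1,1,1,12,768), (1,2,1,12,-576), (2,1,1,12,-192),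
   (2,2,1,12,384), (2,3,1,12,-192), (0,0,2,13,768), (0,1,2,13,-768), (1,0,2,13,-768),
   (1,1,2,13,1536), (1,2,2,13,-768), (2,0,2,13,192), (2,1,2,13,-576), (2,2,2,13,576),
   (2,3,2,13,-192), (0,0,2,14,384), (0,1,2,14,-384), (1,0,2,14,-192), (1,1,2,14,384),
   (1,2,2,14,-192), (0,0,1,15,384), (0,1,1,15,-384), (1,0,1,15,-192), (1,1,1,15,1152),
   (1,2,1,15,-960), (2,1,1,15,-384), (2,2,1,15,1152), (2,3,1,15,-768), (3,2,1,15,-192),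
   (3,3,1,15,384), (3,4,1,15,-192), (0,0,2,16,1536), (0,1,2,16,-1536), (1,0,2,16,-1536),
   (1,1,2,16,4608), (1,2,2,16,-3072), (2,0,2,16,384), (2,1,2,16,-2688), (2,2,2,16,4224),
   (2,3,2,16,-1920), (3,1,2,16,384), (3,2,2,16,-1152), (3,3,2,16,1152), (3,4,2,16,-384),
   (0,0,2,17,768), (0,1,2,17,-768), (1,0,2,17,-384), (1,1,2,17,1536), (1,2,2,17,-1152),
   (2,1,2,17,-384), (2,2,2,17,768), (2,3,2,17,-384), (0,0,3,18,1536), (0,1,3,18,-1536),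
   (1,0,3,18,-2304), (1,1,3,18,4608), (1,2,3,18,-2304), (2,0,3,18,1152), (2,1,3,18,-3456),
   (2,2,3,18,3456), (2,3,3,18,-1152), (3,0,3,18,-192), (3,1,3,18,768), (3,2,3,18,-1152),
   (3,3,3,18,768), (3,4,3,18,-192), (0,0,3,19,1536), (0,1,3,19,-1536), (1,0,3,19,-1536),
   (1,1,3,19,3072), (1,2,3,19,-1536), (2,0,3,19,384), (2,1,3,19,-1152), (2,2,3,19,1152),
   (2,3,3,19,-384), (0,0,3,20,384), (0,1,3,20,-384), (1,0,3,20,-192), (1,1,3,20,384),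
   (1,2,3,20,-192)]

/-- table 12: e21 -/
def tb12 : List (ℕ × ℕ × ℕ × ℕ × ℤ) :=
  [(0,0,0,11,96), (0,1,0,11,-96), (1,0,0,11,-48), (1,1,0,11,96), (1,2,0,11,-48), (0,0,0,12,-384),
   (0,1,0,12,384), (1,0,0,12,192), (1,2,0,12,-192), (2,1,0,12,-192), (2,2,0,12,384),
   (2,3,0,12,-192), (1,0,1,13,-384), (1,1,1,13,768), (1,2,1,13,-384), (2,0,1,13,192),
   (2,1,1,13,-576), (2,2,1,13,576), (2,3,1,13,-192), (0,0,1,14,384), (0,1,1,14,-384),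
   (1,0,1,14,-192), (1,1,1,14,384), (1,2,1,14,-192), (0,0,0,15,384), (0,1,0,15,-384),
   (1,0,0,15,-192), (1,1,0,15,-384), (1,2,0,15,576), (2,1,0,15,384), (2,2,0,15,-384),
   (3,2,0,15,-192), (3,3,0,15,384), (3,4,0,15,-192), (1,0,1,16,768), (1,1,1,16,-1536),
   (1,2,1,16,768), (2,0,1,16,-384), (2,1,1,16,384), (2,2,1,16,384), (2,3,1,16,-384),
   (3,1,1,16,384), (3,2,1,16,-1152), (3,3,1,16,1152), (3,4,1,16,-384), (0,0,1,17,-768),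
   (0,1,1,17,768), (1,0,1,17,384), (1,2,1,17,-384), (2,1,1,17,-384), (2,2,1,17,768),
   (2,3,1,17,-384), (2,0,2,18,384), (2,1,2,18,-1152), (2,2,2,18,1152), (2,3,2,18,-384),
   (3,0,2,18,-192), (3,1,2,18,768), (3,2,2,18,-1152), (3,3,2,18,768), (3,4,2,18,-192),
   (1,0,2,19,-768), (1,1,2,19,1536), (1,2,2,19,-768), (2,0,2,19,384), (2,1,2,19,-1152),
   (2,2,2,19,1152), (2,3,2,19,-384), (0,0,2,20,384), (0,1,2,20,-384), (1,0,2,20,-192),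
   (1,1,2,20,384), (1,2,2,20,-192)]

/-- table 13: e2r -/
def tb13 : List (ℕ × ℕ × ℕ × ℕ × ℤ) :=
  [(1,0,0,11,96), (1,1,0,11,-96), (2,0,0,11,-48), (2,1,0,11,96), (2,2,0,11,-48), (1,0,0,12,-384),
   (1,1,0,12,384), (2,0,0,12,192), (2,2,0,12,-192), (3,1,0,12,-192), (3,2,0,12,384),
   (3,3,0,12,-192), (2,0,1,13,-384), (2,1,1,13,768), (2,2,1,13,-384), (3,0,1,13,192),
   (3,1,1,13,-576), (3,2,1,13,576), (3,3,1,13,-192), (1,0,1,14,384), (1,1,1,14,-384),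
   (2,0,1,14,-192), (2,1,1,14,384), (2,2,1,14,-192), (1,0,0,15,384), (1,1,0,15,-384),
   (2,0,0,15,-192), (2,1,0,15,-384), (2,2,0,15,576), (3,1,0,15,384), (3,2,0,15,-384),
   (4,2,0,15,-192), (4,3,0,15,384), (4,4,0,15,-192), (2,0,1,16,768), (2,1,1,16,-1536),
   (2,2,1,16,768), (3,0,1,16,-384), (3,1,1,16,384), (3,2,1,16,384), (3,3,1,16,-384),
   (4,1,1,16,384), (4,2,1,16,-1152), (4,3,1,16,1152), (4,4,1,16,-384), (1,0,1,17,-768),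
   (1,1,1,17,768), (2,0,1,17,384), (2,2,1,17,-384), (3,1,1,17,-384), (3,2,1,17,768),
   (3,3,1,17,-384), (3,0,2,18,384), (3,1,2,18,-1152), (3,2,2,18,1152), (3,3,2,18,-384),
   (4,0,2,18,-192), (4,1,2,18,768), (4,2,2,18,-1152), (4,3,2,18,768), (4,4,2,18,-192),
   (2,0,2,19,-768), (2,1,2,19,1536), (2,2,2,19,-768), (3,0,2,19,384), (3,1,2,19,-1152),
   (3,2,2,19,1152), (3,3,2,19,-384), (1,0,2,20,384), (1,1,2,20,-384), (2,0,2,20,-192),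
   (2,1,2,20,384), (2,2,2,20,-192)]

/-- table 14: e2v -/
def tb14 : List (ℕ × ℕ × ℕ × ℕ × ℤ) :=
  [(0,1,0,11,96), (0,2,0,11,-96), (1,1,0,11,-48), (1,2,0,11,96), (1,3,0,11,-48), (0,1,0,12,-384),
   (0,2,0,12,384), (1,1,0,12,192), (1,3,0,12,-192), (2,2,0,12,-192), (2,3,0,12,384),
   (2,4,0,12,-192), (1,1,1,13,-384), (1,2,1,13,768), (1,3,1,13,-384), (2,1,1,13,192),
   (2,2,1,13,-576), (2,3,1,13,576), (2,4,1,13,-192), (0,1,1,14,384), (0,2,1,14,-384),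
   (1,1,1,14,-192), (1,2,1,14,384), (1,3,1,14,-192), (0,1,0,15,384), (0,2,0,15,-384),
   (1,1,0,15,-192), (1,2,0,15,-384), (1,3,0,15,576), (2,2,0,15,384), (2,3,0,15,-384),
   (3,3,0,15,-192), (3,4,0,15,384), (3,5,0,15,-192), (1,1,1,16,768), (1,2,1,16,-1536),
   (1,3,1,16,768), (2,1,1,16,-384), (2,2,1,16,384), (2,3,1,16,384), (2,4,1,16,-384),
   (3,2,1,16,384), (3,3,1,16,-1152), (3,4,1,16,1152), (3,5,1,16,-384), (0,1,1,17,-768),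
   (0,2,1,17,768), (1,1,1,17,384), (1,3,1,17,-384), (2,2,1,17,-384), (2,3,1,17,768),
   (2,4,1,17,-384), (2,1,2,18,384), (2,2,2,18,-1152), (2,3,2,18,1152), (2,4,2,18,-384),
   (3,1,2,18,-192), (3,2,2,18,768), (3,3,2,18,-1152), (3,4,2,18,768), (3,5,2,18,-192),
   (1,1,2,19,-768), (1,2,2,19,1536), (1,3,2,19,-768), (2,1,2,19,384), (2,2,2,19,-1152),
   (2,3,2,19,1152), (2,4,2,19,-384), (0,1,2,20,384), (0,2,2,20,-384), (1,1,2,20,-192),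
   (1,2,2,20,384), (1,3,2,20,-192)]

/-- table 15: e2t -/
def tb15 : List (ℕ × ℕ × ℕ × ℕ × ℤ) :=
  [(0,0,1,11,96), (0,1,1,11,-96), (1,0,1,11,-48), (1,1,1,11,96), (1,2,1,11,-48), (0,0,1,12,-384),
   (0,1,1,12,384), (1,0,1,12,192), (1,2,1,12,-192), (2,1,1,12,-192), (2,2,1,12,384),
   (2,3,1,12,-192), (1,0,2,13,-384), (1,1,2,13,768), (1,2,2,13,-384), (2,0,2,13,192),
   (2,1,2,13,-576), (2,2,2,13,576), (2,3,2,13,-192), (0,0,2,14,384), (0,1,2,14,-384),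
   (1,0,2,14,-192), (1,1,2,14,384), (1,2,2,14,-192), (0,0,1,15,384), (0,1,1,15,-384),
   (1,0,1,15,-192), (1,1,1,15,-384), (1,2,1,15,576), (2,1,1,15,384), (2,2,1,15,-384),
   (3,2,1,15,-192), (3,3,1,15,384), (3,4,1,15,-192), (1,0,2,16,768), (1,1,2,16,-1536),
   (1,2,2,16,768), (2,0,2,16,-384), (2,1,2,16,384), (2,2,2,16,384), (2,3,2,16,-384),
   (3,1,2,16,384), (3,2,2,16,-1152), (3,3,2,16,1152), (3,4,2,16,-384), (0,0,2,17,-768),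
   (0,1,2,17,768), (1,0,2,17,384), (1,2,2,17,-384), (2,1,2,17,-384), (2,2,2,17,768),
   (2,3,2,17,-384), (2,0,3,18,384), (2,1,3,18,-1152), (2,2,3,18,1152), (2,3,3,18,-384),
   (3,0,3,18,-192), (3,1,3,18,768), (3,2,3,18,-1152), (3,3,3,18,768), (3,4,3,18,-192),
   (1,0,3,19,-768), (1,1,3,19,1536), (1,2,3,19,-768), (2,0,3,19,384), (2,1,3,19,-1152),
   (2,2,3,19,1152), (2,3,3,19,-384), (0,0,3,20,384), (0,1,3,20,-384), (1,0,3,20,-192),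
   (1,1,3,20,384), (1,2,3,20,-192)]

/-- table 16: e31 -/
def tb16 : List (ℕ × ℕ × ℕ × ℕ × ℤ) :=
  [(0,0,0,11,96), (0,1,0,11,96), (1,0,0,11,-48), (1,1,0,11,-96), (1,2,0,11,-48), (0,0,0,12,-384),
   (0,1,0,12,-384), (1,0,0,12,192), (1,2,0,12,-192), (2,1,0,12,192), (2,2,0,12,384),
   (2,3,0,12,192), (0,0,1,14,384), (0,1,1,14,384), (1,0,1,14,-192), (1,1,1,14,-384),
   (1,2,1,14,-192), (0,0,0,15,384), (0,1,0,15,384), (1,0,0,15,-192), (1,1,0,15,384),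
   (1,2,0,15,576), (2,1,0,15,-384), (2,2,0,15,-384), (3,2,0,15,-192), (3,3,0,15,-384),
   (3,4,0,15,-192), (0,0,1,17,-768), (0,1,1,17,-768), (1,0,1,17,384), (1,2,1,17,-384),
   (2,1,1,17,384), (2,2,1,17,768), (2,3,1,17,384), (0,0,2,20,384), (0,1,2,20,384),
   (1,0,2,20,-192), (1,1,2,20,-384), (1,2,2,20,-192)]

/-- table 17: e3r -/
def tb17 : List (ℕ × ℕ × ℕ × ℕ × ℤ) :=
  [(1,0,0,11,96), (1,1,0,11,96), (2,0,0,11,-48), (2,1,0,11,-96), (2,2,0,11,-48), (1,0,0,12,-384),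
   (1,1,0,12,-384), (2,0,0,12,192), (2,2,0,12,-192), (3,1,0,12,192), (3,2,0,12,384),
   (3,3,0,12,192), (1,0,1,14,384), (1,1,1,14,384), (2,0,1,14,-192), (2,1,1,14,-384),
   (2,2,1,14,-192), (1,0,0,15,384), (1,1,0,15,384), (2,0,0,15,-192), (2,1,0,15,384),
   (2,2,0,15,576), (3,1,0,15,-384), (3,2,0,15,-384), (4,2,0,15,-192), (4,3,0,15,-384),
   (4,4,0,15,-192), (1,0,1,17,-768), (1,1,1,17,-768), (2,0,1,17,384), (2,2,1,17,-384),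
   (3,1,1,17,384), (3,2,1,17,768), (3,3,1,17,384), (1,0,2,20,384), (1,1,2,20,384),
   (2,0,2,20,-192), (2,1,2,20,-384), (2,2,2,20,-192)]

/-- table 18: e3v -/
def tb18 : List (ℕ × ℕ × ℕ × ℕ × ℤ) :=
  [(0,1,0,11,96), (0,2,0,11,96), (1,1,0,11,-48), (1,2,0,11,-96), (1,3,0,11,-48), (0,1,0,12,-384),
   (0,2,0,12,-384), (1,1,0,12,192), (1,3,0,12,-192), (2,2,0,12,192), (2,3,0,12,384),
   (2,4,0,12,192), (0,1,1,14,384), (0,2,1,14,384), (1,1,1,14,-192), (1,2,1,14,-384),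
   (1,3,1,14,-192), (0,1,0,15,384), (0,2,0,15,384), (1,1,0,15,-192), (1,2,0,15,384),
   (1,3,0,15,576), (2,2,0,15,-384), (2,3,0,15,-384), (3,3,0,15,-192), (3,4,0,15,-384),
   (3,5,0,15,-192), (0,1,1,17,-768), (0,2,1,17,-768), (1,1,1,17,384), (1,3,1,17,-384),
   (2,2,1,17,384), (2,3,1,17,768), (2,4,1,17,384), (0,1,2,20,384), (0,2,2,20,384),
   (1,1,2,20,-192), (1,2,2,20,-384), (1,3,2,20,-192)]

/-- table 19: e3t -/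
def tb19 : List (ℕ × ℕ × ℕ × ℕ × ℤ) :=
  [(0,0,1,11,96), (0,1,1,11,96), (1,0,1,11,-48), (1,1,1,11,-96), (1,2,1,11,-48), (0,0,1,12,-384),
   (0,1,1,12,-384), (1,0,1,12,192), (1,2,1,12,-192), (2,1,1,12,192), (2,2,1,12,384),
   (2,3,1,12,192), (0,0,2,14,384), (0,1,2,14,384), (1,0,2,14,-192), (1,1,2,14,-384),
   (1,2,2,14,-192), (0,0,1,15,384), (0,1,1,15,384), (1,0,1,15,-192), (1,1,1,15,384),
   (1,2,1,15,576), (2,1,1,15,-384), (2,2,1,15,-384), (3,2,1,15,-192), (3,3,1,15,-384),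
   (3,4,1,15,-192), (0,0,2,17,-768), (0,1,2,17,-768), (1,0,2,17,384), (1,2,2,17,-384),
   (2,1,2,17,384), (2,2,2,17,768), (2,3,2,17,384), (0,0,3,20,384), (0,1,3,20,384),
   (1,0,3,20,-192), (1,1,3,20,-384), (1,2,3,20,-192)]

/-- table 20: e41 -/
def tb20 : List (ℕ × ℕ × ℕ × ℕ × ℤ) :=
  [(0,0,0,11,96), (0,1,0,11,96), (1,0,0,11,-48), (1,1,0,11,-96), (1,2,0,11,-48), (0,0,0,12,384),
   (0,1,0,12,384), (1,0,0,12,-192), (1,1,0,12,-768), (1,2,0,12,-576), (2,1,0,12,192),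
   (2,2,0,12,384), (2,3,0,12,192), (0,0,1,14,384), (0,1,1,14,384), (1,0,1,14,-192),
   (1,1,1,14,-384), (1,2,1,14,-192), (0,0,0,15,384), (0,1,0,15,384), (1,0,0,15,-192),
   (1,1,0,15,-1152), (1,2,0,15,-960), (2,1,0,15,384), (2,2,0,15,1152), (2,3,0,15,768),
   (3,2,0,15,-192), (3,3,0,15,-384), (3,4,0,15,-192), (0,0,1,17,768), (0,1,1,17,768),
   (1,0,1,17,-384), (1,1,1,17,-1536), (1,2,1,17,-1152), (2,1,1,17,384), (2,2,1,17,768),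
   (2,3,1,17,384), (0,0,2,20,384), (0,1,2,20,384), (1,0,2,20,-192), (1,1,2,20,-384),
   (1,2,2,20,-192)]

/-- table 21: e4r -/
def tb21 : List (ℕ × ℕ × ℕ × ℕ × ℤ) :=
  [(1,0,0,11,96), (1,1,0,11,96), (2,0,0,11,-48), (2,1,0,11,-96), (2,2,0,11,-48), (1,0,0,12,384),
   (1,1,0,12,384), (2,0,0,12,-192), (2,1,0,12,-768), (2,2,0,12,-576), (3,1,0,12,192),
   (3,2,0,12,384), (3,3,0,12,192), (1,0,1,14,384), (1,1,1,14,384), (2,0,1,14,-192),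
   (2,1,1,14,-384), (2,2,1,14,-192), (1,0,0,15,384), (1,1,0,15,384), (2,0,0,15,-192),
   (2,1,0,15,-1152), (2,2,0,15,-960), (3,1,0,15,384), (3,2,0,15,1152), (3,3,0,15,768),
   (4,2,0,15,-192), (4,3,0,15,-384), (4,4,0,15,-192), (1,0,1,17,768), (1,1,1,17,768),
   (2,0,1,17,-384), (2,1,1,17,-1536), (2,2,1,17,-1152), (3,1,1,17,384), (3,2,1,17,768),
   (3,3,1,17,384), (1,0,2,20,384), (1,1,2,20,384), (2,0,2,20,-192), (2,1,2,20,-384),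
   (2,2,2,20,-192)]

/-- table 22: e4v -/
def tb22 : List (ℕ × ℕ × ℕ × ℕ × ℤ) :=
  [(0,1,0,11,96), (0,2,0,11,96), (1,1,0,11,-48), (1,2,0,11,-96), (1,3,0,11,-48), (0,1,0,12,384),
   (0,2,0,12,384), (1,1,0,12,-192), (1,2,0,12,-768), (1,3,0,12,-576), (2,2,0,12,192),
   (2,3,0,12,384), (2,4,0,12,192), (0,1,1,14,384), (0,2,1,14,384), (1,1,1,14,-192),
   (1,2,1,14,-384), (1,3,1,14,-192), (0,1,0,15,384), (0,2,0,15,384), (1,1,0,15,-192),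
   (1,2,0,15,-1152), (1,3,0,15,-960), (2,2,0,15,384), (2,3,0,15,1152), (2,4,0,15,768),
   (3,3,0,15,-192), (3,4,0,15,-384), (3,5,0,15,-192), (0,1,1,17,768), (0,2,1,17,768),
   (1,1,1,17,-384), (1,2,1,17,-1536), (1,3,1,17,-1152), (2,2,1,17,384), (2,3,1,17,768),
   (2,4,1,17,384), (0,1,2,20,384), (0,2,2,20,384), (1,1,2,20,-192), (1,2,2,20,-384),
   (1,3,2,20,-192)]

/-- table 23: e4t -/
def tb23 : List (ℕ × ℕ × ℕ × ℕ × ℤ) :=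
  [(0,0,1,11,96), (0,1,1,11,96), (1,0,1,11,-48), (1,1,1,11,-96), (1,2,1,11,-48), (0,0,1,12,384),
   (0,1,1,12,384), (1,0,1,12,-192), (1,1,1,12,-768), (1,2,1,12,-576), (2,1,1,12,192),
   (2,2,1,12,384), (2,3,1,12,192), (0,0,2,14,384), (0,1,2,14,384), (1,0,2,14,-192),
   (1,1,2,14,-384), (1,2,2,14,-192), (0,0,1,15,384), (0,1,1,15,384), (1,0,1,15,-192),
   (1,1,1,15,-1152), (1,2,1,15,-960), (2,1,1,15,384), (2,2,1,15,1152), (2,3,1,15,768),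
   (3,2,1,15,-192), (3,3,1,15,-384), (3,4,1,15,-192), (0,0,2,17,768), (0,1,2,17,768),
   (1,0,2,17,-384), (1,1,2,17,-1536), (1,2,2,17,-1152), (2,1,2,17,384), (2,2,2,17,768),
   (2,3,2,17,384), (0,0,3,20,384), (0,1,3,20,384), (1,0,3,20,-192), (1,1,3,20,-384),
   (1,2,3,20,-192)]

/-- table 24: g1 -/
def tb24 : List (ℕ × ℕ × ℕ × ℕ × ℤ) :=
  [(0,0,0,18,-192), (0,1,0,18,384), (0,2,0,18,-192), (1,0,0,18,192), (1,1,0,18,-576),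
   (1,2,0,18,576), (1,3,0,18,-192), (2,0,0,18,-48), (2,1,0,18,192), (2,2,0,18,-288),
   (2,3,0,18,192), (2,4,0,18,-48), (0,1,0,19,768), (0,2,0,19,-768), (1,1,0,19,-384),
   (1,2,0,19,768), (1,3,0,19,-384), (0,2,0,20,-768)]

/-- table 25: gr -/
def tb25 : List (ℕ × ℕ × ℕ × ℕ × ℤ) :=
  [(1,0,0,18,-192), (1,1,0,18,384), (1,2,0,18,-192), (2,0,0,18,192), (2,1,0,18,-576),
   (2,2,0,18,576), (2,3,0,18,-192), (3,0,0,18,-48), (3,1,0,18,192), (3,2,0,18,-288),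
   (3,3,0,18,192), (3,4,0,18,-48), (1,1,0,19,768), (1,2,0,19,-768), (2,1,0,19,-384),
   (2,2,0,19,768), (2,3,0,19,-384), (1,2,0,20,-768)]

/-- table 26: gv -/
def tb26 : List (ℕ × ℕ × ℕ × ℕ × ℤ) :=
  [(0,1,0,18,-192), (0,2,0,18,384), (0,3,0,18,-192), (1,1,0,18,192), (1,2,0,18,-576),
   (1,3,0,18,576), (1,4,0,18,-192), (2,1,0,18,-48), (2,2,0,18,192), (2,3,0,18,-288),
   (2,4,0,18,192), (2,5,0,18,-48), (0,2,0,19,768), (0,3,0,19,-768), (1,2,0,19,-384),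
   (1,3,0,19,768), (1,4,0,19,-384), (0,3,0,20,-768)]

/-- table 27: gt -/
def tb27 : List (ℕ × ℕ × ℕ × ℕ × ℤ) :=
  [(0,0,1,18,-192), (0,1,1,18,384), (0,2,1,18,-192), (1,0,1,18,192), (1,1,1,18,-576),
   (1,2,1,18,576), (1,3,1,18,-192), (2,0,1,18,-48), (2,1,1,18,192), (2,2,1,18,-288),
   (2,3,1,18,192), (2,4,1,18,-48), (0,1,1,19,768), (0,2,1,19,-768), (1,1,1,19,-384),
   (1,2,1,19,768), (1,3,1,19,-384), (0,2,1,20,-768)]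

/-- table 28: xRv -/
def tb28 : List (ℕ × ℕ × ℕ × ℕ × ℤ) :=
  [(1,0,1,4,48), (1,1,1,4,-96), (1,2,1,4,48), (2,0,1,4,-48), (2,1,1,4,144), (2,2,1,4,-144),
   (2,3,1,4,48), (3,0,1,4,12), (3,1,1,4,-48), (3,2,1,4,72), (3,3,1,4,-48), (3,4,1,4,12),
   (1,1,1,5,-96), (1,2,1,5,96), (2,1,1,5,48), (2,2,1,5,-96), (2,3,1,5,48), (1,0,0,9,192),
   (1,0,1,9,-96), (1,1,0,9,-384), (1,1,1,9,192), (1,2,0,9,192), (1,2,1,9,-96), (2,0,0,9,-192),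
   (2,0,1,9,192), (2,1,0,9,576), (2,1,1,9,-480), (2,2,0,9,-576), (2,2,1,9,384), (2,3,0,9,192),
   (2,3,1,9,-96), (3,0,0,9,48), (3,0,1,9,-120), (3,1,0,9,-192), (3,1,1,9,384), (3,2,0,9,288),
   (3,2,1,9,-432), (3,3,0,9,-192), (3,3,1,9,192), (3,4,0,9,48), (3,4,1,9,-24), (4,0,1,9,24),
   (4,1,1,9,-96), (4,2,1,9,144), (4,3,1,9,-96), (4,4,1,9,24), (1,1,0,10,-384), (1,1,1,10,192),
   (1,2,0,10,384), (1,2,1,10,-192), (2,1,0,10,192), (2,1,1,10,-288), (2,2,0,10,-384),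
   (2,2,1,10,384), (2,3,0,10,192), (2,3,1,10,-96), (3,1,1,10,96), (3,2,1,10,-192), (3,3,1,10,96),
   (1,1,0,18,192), (1,2,0,18,-384), (1,3,0,18,192), (2,1,0,18,-192), (2,2,0,18,576),
   (2,3,0,18,-576), (2,4,0,18,192), (3,1,0,18,48), (3,2,0,18,-192), (3,3,0,18,288),
   (3,4,0,18,-192), (3,5,0,18,48), (1,1,1,19,96), (1,2,0,19,-384), (1,2,1,19,-192),
   (1,3,0,19,384), (1,3,1,19,96), (2,1,1,19,-96), (2,2,0,19,192), (2,2,1,19,288),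
   (2,3,0,19,-384), (2,3,1,19,-288), (2,4,0,19,192), (2,4,1,19,96), (3,1,1,19,24),
   (3,2,1,19,-96), (3,3,1,19,144), (3,4,1,19,-96), (3,5,1,19,24), (1,2,1,20,-192),
   (1,3,1,20,192), (2,2,1,20,96), (2,3,1,20,-192), (2,4,1,20,96)]

/-- table 29: xRt -/
def tb29 : List (ℕ × ℕ × ℕ × ℕ × ℤ) :=
  [(1,0,1,13,48), (1,1,1,13,-96), (1,2,1,13,48), (2,0,1,13,-48), (2,1,1,13,144), (2,2,1,13,-144),
   (2,3,1,13,48), (3,0,1,13,12), (3,1,1,13,-48), (3,2,1,13,72), (3,3,1,13,-48), (3,4,1,13,12),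
   (1,1,1,14,-96), (1,2,1,14,96), (2,1,1,14,48), (2,2,1,14,-96), (2,3,1,14,48), (1,0,0,16,192),
   (1,0,1,16,-96), (1,1,0,16,-384), (1,1,1,16,192), (1,2,0,16,192), (1,2,1,16,-96),
   (2,0,0,16,-192), (2,0,1,16,192), (2,1,0,16,576), (2,1,1,16,-480), (2,2,0,16,-576),
   (2,2,1,16,384), (2,3,0,16,192), (2,3,1,16,-96), (3,0,0,16,48), (3,0,1,16,-120),
   (3,1,0,16,-192), (3,1,1,16,384), (3,2,0,16,288), (3,2,1,16,-432), (3,3,0,16,-192),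
   (3,3,1,16,192), (3,4,0,16,48), (3,4,1,16,-24), (4,0,1,16,24), (4,1,1,16,-96), (4,2,1,16,144),
   (4,3,1,16,-96), (4,4,1,16,24), (1,1,0,17,-384), (1,1,1,17,192), (1,2,0,17,384),
   (1,2,1,17,-192), (2,1,0,17,192), (2,1,1,17,-288), (2,2,0,17,-384), (2,2,1,17,384),
   (2,3,0,17,192), (2,3,1,17,-96), (3,1,1,17,96), (3,2,1,17,-192), (3,3,1,17,96), (1,0,1,18,192),
   (1,1,1,18,-384), (1,2,1,18,192), (2,0,1,18,-192), (2,1,1,18,576), (2,2,1,18,-576),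
   (2,3,1,18,192), (3,0,1,18,48), (3,1,1,18,-192), (3,2,1,18,288), (3,3,1,18,-192),
   (3,4,1,18,48), (1,0,2,19,96), (1,1,1,19,-384), (1,1,2,19,-192), (1,2,1,19,384), (1,2,2,19,96),
   (2,0,2,19,-96), (2,1,1,19,192), (2,1,2,19,288), (2,2,1,19,-384), (2,2,2,19,-288),
   (2,3,1,19,192), (2,3,2,19,96), (3,0,2,19,24), (3,1,2,19,-96), (3,2,2,19,144), (3,3,2,19,-96),
   (3,4,2,19,24), (1,1,2,20,-192), (1,2,2,20,192), (2,1,2,20,96), (2,2,2,20,-192), (2,3,2,20,96)]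

/-- table 30: xLv -/
def tb30 : List (ℕ × ℕ × ℕ × ℕ × ℤ) :=
  [(1,0,1,4,48), (1,2,1,4,-48), (2,0,1,4,-48), (2,2,1,4,48), (3,0,1,4,12), (3,2,1,4,-24),
   (3,4,1,4,12), (1,1,1,5,-96), (1,2,1,5,-96), (2,1,1,5,48), (2,2,1,5,96), (2,3,1,5,48),
   (1,0,0,9,-192), (1,0,1,9,-96), (1,2,0,9,192), (1,2,1,9,96), (2,0,0,9,192), (2,0,1,9,192),
   (2,2,0,9,-192), (2,2,1,9,-192), (3,0,0,9,-48), (3,0,1,9,-120), (3,2,0,9,96), (3,2,1,9,144),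
   (3,4,0,9,-48), (3,4,1,9,-24), (4,0,1,9,24), (4,2,1,9,-48), (4,4,1,9,24), (1,1,0,10,384),
   (1,1,1,10,192), (1,2,0,10,384), (1,2,1,10,192), (2,1,0,10,-192), (2,1,1,10,-288),
   (2,2,0,10,-384), (2,2,1,10,-384), (2,3,0,10,-192), (2,3,1,10,-96), (3,1,1,10,96),
   (3,2,1,10,192), (3,3,1,10,96), (1,1,1,19,96), (1,3,1,19,-96), (2,1,1,19,-96), (2,3,1,19,96),
   (3,1,1,19,24), (3,3,1,19,-48), (3,5,1,19,24), (1,2,1,20,-192), (1,3,1,20,-192), (2,2,1,20,96),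
   (2,3,1,20,192), (2,4,1,20,96)]

/-- table 31: xLt -/
def tb31 : List (ℕ × ℕ × ℕ × ℕ × ℤ) :=
  [(1,0,1,13,48), (1,2,1,13,-48), (2,0,1,13,-48), (2,2,1,13,48), (3,0,1,13,12), (3,2,1,13,-24),
   (3,4,1,13,12), (1,1,1,14,-96), (1,2,1,14,-96), (2,1,1,14,48), (2,2,1,14,96), (2,3,1,14,48),
   (1,0,0,16,-192), (1,0,1,16,-96), (1,2,0,16,192), (1,2,1,16,96), (2,0,0,16,192),
   (2,0,1,16,192), (2,2,0,16,-192), (2,2,1,16,-192), (3,0,0,16,-48), (3,0,1,16,-120),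
   (3,2,0,16,96), (3,2,1,16,144), (3,4,0,16,-48), (3,4,1,16,-24), (4,0,1,16,24), (4,2,1,16,-48),
   (4,4,1,16,24), (1,1,0,17,384), (1,1,1,17,192), (1,2,0,17,384), (1,2,1,17,192),
   (2,1,0,17,-192), (2,1,1,17,-288), (2,2,0,17,-384), (2,2,1,17,-384), (2,3,0,17,-192),
   (2,3,1,17,-96), (3,1,1,17,96), (3,2,1,17,192), (3,3,1,17,96), (1,0,2,19,96), (1,2,2,19,-96),
   (2,0,2,19,-96), (2,2,2,19,96), (3,0,2,19,24), (3,2,2,19,-48), (3,4,2,19,24), (1,1,2,20,-192),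
   (1,2,2,20,-192), (2,1,2,20,96), (2,2,2,20,192), (2,3,2,20,96)]

/-- table 32: hR01 -/
def tb32 : List (ℕ × ℕ × ℕ × ℕ × ℤ) :=
  [(1,0,2,0,-3), (1,0,1,1,-24), (1,0,2,1,12), (2,0,2,1,-12), (1,1,1,4,-24), (1,1,2,5,-12),
   (1,0,0,6,-48), (1,0,1,6,48), (1,0,2,6,-12), (2,0,1,6,-48), (2,0,2,6,24), (3,0,2,6,-12),
   (1,1,0,9,-96), (1,1,1,9,48), (2,1,1,9,-48), (1,1,1,10,-48), (1,1,2,10,24), (2,1,2,10,-24),
   (1,2,0,18,-48), (1,2,1,19,-48), (1,2,2,20,-12)]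

/-- table 33: hR0r -/
def tb33 : List (ℕ × ℕ × ℕ × ℕ × ℤ) :=
  [(2,0,2,0,-3), (2,0,1,1,-24), (2,0,2,1,12), (3,0,2,1,-12), (2,1,1,4,-24), (2,1,2,5,-12),
   (2,0,0,6,-48), (2,0,1,6,48), (2,0,2,6,-12), (3,0,1,6,-48), (3,0,2,6,24), (4,0,2,6,-12),
   (2,1,0,9,-96), (2,1,1,9,48), (3,1,1,9,-48), (2,1,1,10,-48), (2,1,2,10,24), (3,1,2,10,-24),
   (2,2,0,18,-48), (2,2,1,19,-48), (2,2,2,20,-12)]

/-- table 34: hR0v -/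
def tb34 : List (ℕ × ℕ × ℕ × ℕ × ℤ) :=
  [(1,1,2,0,-3), (1,1,1,1,-24), (1,1,2,1,12), (2,1,2,1,-12), (1,2,1,4,-24), (1,2,2,5,-12),
   (1,1,0,6,-48), (1,1,1,6,48), (1,1,2,6,-12), (2,1,1,6,-48), (2,1,2,6,24), (3,1,2,6,-12),
   (1,2,0,9,-96), (1,2,1,9,48), (2,2,1,9,-48), (1,2,1,10,-48), (1,2,2,10,24), (2,2,2,10,-24),
   (1,3,0,18,-48), (1,3,1,19,-48), (1,3,2,20,-12)]

/-- table 35: hR11 -/
def tb35 : List (ℕ × ℕ × ℕ × ℕ × ℤ) :=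
  [(1,0,2,2,-6), (1,0,1,3,-24), (1,0,2,3,12), (2,0,2,3,-12), (1,0,2,4,-24), (1,0,3,5,-12),
   (1,0,1,7,-24), (1,0,2,7,12), (2,0,2,7,-12), (1,0,0,8,-96), (1,0,1,8,96), (1,0,2,8,-24),
   (2,0,1,8,-96), (2,0,2,8,48), (3,0,2,8,-24), (1,0,1,9,-96), (1,0,2,9,48), (2,0,2,9,-48),
   (1,0,2,10,-48), (1,0,3,10,24), (2,0,3,10,-24), (1,1,1,13,-24), (1,1,2,14,-12), (1,1,0,16,-96),
   (1,1,1,16,48), (2,1,1,16,-48), (1,1,1,17,-48), (1,1,2,17,24), (2,1,2,17,-24), (1,1,1,18,-96),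
   (1,1,2,19,-96), (1,1,3,20,-24)]

/-- table 36: hR1r -/
def tb36 : List (ℕ × ℕ × ℕ × ℕ × ℤ) :=
  [(2,0,2,2,-6), (2,0,1,3,-24), (2,0,2,3,12), (3,0,2,3,-12), (2,0,2,4,-24), (2,0,3,5,-12),
   (2,0,1,7,-24), (2,0,2,7,12), (3,0,2,7,-12), (2,0,0,8,-96), (2,0,1,8,96), (2,0,2,8,-24),
   (3,0,1,8,-96), (3,0,2,8,48), (4,0,2,8,-24), (2,0,1,9,-96), (2,0,2,9,48), (3,0,2,9,-48),
   (2,0,2,10,-48), (2,0,3,10,24), (3,0,3,10,-24), (2,1,1,13,-24), (2,1,2,14,-12), (2,1,0,16,-96),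
   (2,1,1,16,48), (3,1,1,16,-48), (2,1,1,17,-48), (2,1,2,17,24), (3,1,2,17,-24), (2,1,1,18,-96),
   (2,1,2,19,-96), (2,1,3,20,-24)]

/-- table 37: hR1v -/
def tb37 : List (ℕ × ℕ × ℕ × ℕ × ℤ) :=
  [(1,1,2,2,-6), (1,1,1,3,-24), (1,1,2,3,12), (2,1,2,3,-12), (1,1,2,4,-24), (1,1,3,5,-12),
   (1,1,1,7,-24), (1,1,2,7,12), (2,1,2,7,-12), (1,1,0,8,-96), (1,1,1,8,96), (1,1,2,8,-24),
   (2,1,1,8,-96), (2,1,2,8,48), (3,1,2,8,-24), (1,1,1,9,-96), (1,1,2,9,48), (2,1,2,9,-48),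
   (1,1,2,10,-48), (1,1,3,10,24), (2,1,3,10,-24), (1,2,1,13,-24), (1,2,2,14,-12), (1,2,0,16,-96),
   (1,2,1,16,48), (2,2,1,16,-48), (1,2,1,17,-48), (1,2,2,17,24), (2,2,2,17,-24), (1,2,1,18,-96),
   (1,2,2,19,-96), (1,2,3,20,-24)]

/-- table 38: hR21 -/
def tb38 : List (ℕ × ℕ × ℕ × ℕ × ℤ) :=
  [(1,0,2,11,-3), (1,0,1,12,-24), (1,0,2,12,12), (2,0,2,12,-12), (1,0,2,13,-24), (1,0,3,14,-12),
   (1,0,0,15,-48), (1,0,1,15,48), (1,0,2,15,-12), (2,0,1,15,-48), (2,0,2,15,24), (3,0,2,15,-12),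
   (1,0,1,16,-96), (1,0,2,16,48), (2,0,2,16,-48), (1,0,2,17,-48), (1,0,3,17,24), (2,0,3,17,-24),
   (1,0,2,18,-48), (1,0,3,19,-48), (1,0,4,20,-12)]

/-- table 39: hR2r -/
def tb39 : List (ℕ × ℕ × ℕ × ℕ × ℤ) :=
  [(2,0,2,11,-3), (2,0,1,12,-24), (2,0,2,12,12), (3,0,2,12,-12), (2,0,2,13,-24), (2,0,3,14,-12),
   (2,0,0,15,-48), (2,0,1,15,48), (2,0,2,15,-12), (3,0,1,15,-48), (3,0,2,15,24), (4,0,2,15,-12),
   (2,0,1,16,-96), (2,0,2,16,48), (3,0,2,16,-48), (2,0,2,17,-48), (2,0,3,17,24), (3,0,3,17,-24),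
   (2,0,2,18,-48), (2,0,3,19,-48), (2,0,4,20,-12)]

/-- table 40: hR2v -/
def tb40 : List (ℕ × ℕ × ℕ × ℕ × ℤ) :=
  [(1,1,2,11,-3), (1,1,1,12,-24), (1,1,2,12,12), (2,1,2,12,-12), (1,1,2,13,-24), (1,1,3,14,-12),
   (1,1,0,15,-48), (1,1,1,15,48), (1,1,2,15,-12), (2,1,1,15,-48), (2,1,2,15,24), (3,1,2,15,-12),
   (1,1,1,16,-96), (1,1,2,16,48), (2,1,2,16,-48), (1,1,2,17,-48), (1,1,3,17,24), (2,1,3,17,-24),
   (1,1,2,18,-48), (1,1,3,19,-48), (1,1,4,20,-12)]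

/-- table 41: hL01 -/
def tb41 : List (ℕ × ℕ × ℕ × ℕ × ℤ) :=
  [(1,0,2,0,-3), (1,0,1,1,24), (1,0,2,1,12), (2,0,2,1,-12), (1,1,2,5,-12), (1,0,0,6,-48),
   (1,0,1,6,-48), (1,0,2,6,-12), (2,0,1,6,48), (2,0,2,6,24), (3,0,2,6,-12), (1,1,1,10,48),
   (1,1,2,10,24), (2,1,2,10,-24), (1,2,2,20,-12)]

/-- table 42: hL0r -/
def tb42 : List (ℕ × ℕ × ℕ × ℕ × ℤ) :=
  [(2,0,2,0,-3), (2,0,1,1,24), (2,0,2,1,12), (3,0,2,1,-12), (2,1,2,5,-12), (2,0,0,6,-48),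
   (2,0,1,6,-48), (2,0,2,6,-12), (3,0,1,6,48), (3,0,2,6,24), (4,0,2,6,-12), (2,1,1,10,48),
   (2,1,2,10,24), (3,1,2,10,-24), (2,2,2,20,-12)]

/-- table 43: hL0v -/
def tb43 : List (ℕ × ℕ × ℕ × ℕ × ℤ) :=
  [(1,1,2,0,-3), (1,1,1,1,24), (1,1,2,1,12), (2,1,2,1,-12), (1,2,2,5,-12), (1,1,0,6,-48),
   (1,1,1,6,-48), (1,1,2,6,-12), (2,1,1,6,48), (2,1,2,6,24), (3,1,2,6,-12), (1,2,1,10,48),
   (1,2,2,10,24), (2,2,2,10,-24), (1,3,2,20,-12)]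

/-- table 44: hL11 -/
def tb44 : List (ℕ × ℕ × ℕ × ℕ × ℤ) :=
  [(1,0,2,2,-6), (1,0,1,3,24), (1,0,2,3,12), (2,0,2,3,-12), (1,0,3,5,-12), (1,0,1,7,24),
   (1,0,2,7,12), (2,0,2,7,-12), (1,0,0,8,-96), (1,0,1,8,-96), (1,0,2,8,-24), (2,0,1,8,96),
   (2,0,2,8,48), (3,0,2,8,-24), (1,0,2,10,48), (1,0,3,10,24), (2,0,3,10,-24), (1,1,2,14,-12),
   (1,1,1,17,48), (1,1,2,17,24), (2,1,2,17,-24), (1,1,3,20,-24)]

/-- table 45: hL1r -/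
def tb45 : List (ℕ × ℕ × ℕ × ℕ × ℤ) :=
  [(2,0,2,2,-6), (2,0,1,3,24), (2,0,2,3,12), (3,0,2,3,-12), (2,0,3,5,-12), (2,0,1,7,24),
   (2,0,2,7,12), (3,0,2,7,-12), (2,0,0,8,-96), (2,0,1,8,-96), (2,0,2,8,-24), (3,0,1,8,96),
   (3,0,2,8,48), (4,0,2,8,-24), (2,0,2,10,48), (2,0,3,10,24), (3,0,3,10,-24), (2,1,2,14,-12),
   (2,1,1,17,48), (2,1,2,17,24), (3,1,2,17,-24), (2,1,3,20,-24)]

/-- table 46: hL1v -/
def tb46 : List (ℕ × ℕ × ℕ × ℕ × ℤ) :=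
  [(1,1,2,2,-6), (1,1,1,3,24), (1,1,2,3,12), (2,1,2,3,-12), (1,1,3,5,-12), (1,1,1,7,24),
   (1,1,2,7,12), (2,1,2,7,-12), (1,1,0,8,-96), (1,1,1,8,-96), (1,1,2,8,-24), (2,1,1,8,96),
   (2,1,2,8,48), (3,1,2,8,-24), (1,1,2,10,48), (1,1,3,10,24), (2,1,3,10,-24), (1,2,2,14,-12),
   (1,2,1,17,48), (1,2,2,17,24), (2,2,2,17,-24), (1,2,3,20,-24)]

/-- table 47: hL21 -/
def tb47 : List (ℕ × ℕ × ℕ × ℕ × ℤ) :=
  [(1,0,2,11,-3), (1,0,1,12,24), (1,0,2,12,12), (2,0,2,12,-12), (1,0,3,14,-12), (1,0,0,15,-48),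
   (1,0,1,15,-48), (1,0,2,15,-12), (2,0,1,15,48), (2,0,2,15,24), (3,0,2,15,-12), (1,0,2,17,48),
   (1,0,3,17,24), (2,0,3,17,-24), (1,0,4,20,-12)]

/-- table 48: hL2r -/
def tb48 : List (ℕ × ℕ × ℕ × ℕ × ℤ) :=
  [(2,0,2,11,-3), (2,0,1,12,24), (2,0,2,12,12), (3,0,2,12,-12), (2,0,3,14,-12), (2,0,0,15,-48),
   (2,0,1,15,-48), (2,0,2,15,-12), (3,0,1,15,48), (3,0,2,15,24), (4,0,2,15,-12), (2,0,2,17,48),
   (2,0,3,17,24), (3,0,3,17,-24), (2,0,4,20,-12)]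

/-- table 49: hL2v -/
def tb49 : List (ℕ × ℕ × ℕ × ℕ × ℤ) :=
  [(1,1,2,11,-3), (1,1,1,12,24), (1,1,2,12,12), (2,1,2,12,-12), (1,1,3,14,-12), (1,1,0,15,-48),
   (1,1,1,15,-48), (1,1,2,15,-12), (2,1,1,15,48), (2,1,2,15,24), (3,1,2,15,-12), (1,1,2,17,48),
   (1,1,3,17,24), (2,1,3,17,-24), (1,1,4,20,-12)]

/-- table 50: b10 -/
def tb50 : List (ℕ × ℕ × ℕ × ℕ × ℤ) :=
  [(1,0,0,0,-16), (1,0,1,0,64), (2,0,1,0,-32), (2,1,1,0,32), (1,0,0,1,64), (1,0,1,1,128),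
   (2,0,1,1,-64), (2,1,0,1,64), (2,1,1,1,192), (3,1,1,1,-64), (3,2,1,1,64), (1,1,0,4,128),
   (1,1,1,4,256), (2,1,0,4,-64), (2,1,1,4,-256), (2,2,0,4,64), (2,2,1,4,256), (3,1,1,4,64),
   (3,2,1,4,-128), (3,3,1,4,64), (1,1,0,5,64), (1,1,1,5,128), (2,1,1,5,-64), (2,2,1,5,64),
   (1,0,0,6,192), (2,1,0,6,384), (3,2,0,6,192), (1,1,0,9,768), (2,1,0,9,-384), (2,2,0,9,1152),
   (3,2,0,9,-384), (3,3,0,9,384), (1,1,0,10,384), (2,2,0,10,384), (1,2,0,18,768),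
   (2,2,0,18,-768), (2,3,0,18,768), (3,2,0,18,192), (3,3,0,18,-384), (3,4,0,18,192),
   (1,2,0,19,768), (2,2,0,19,-384), (2,3,0,19,384), (1,2,0,20,192)]

/-- table 51: b11 -/
def tb51 : List (ℕ × ℕ × ℕ × ℕ × ℤ) :=
  [(1,0,0,2,-32), (1,0,1,2,128), (2,0,1,2,-64), (2,1,1,2,64), (1,0,0,3,64), (1,0,1,3,128),
   (2,0,1,3,-64), (2,1,0,3,64), (2,1,1,3,192), (3,1,1,3,-64), (3,2,1,3,64), (1,0,1,4,128),
   (1,0,2,4,256), (2,0,1,4,-64), (2,0,2,4,-256), (2,1,1,4,64), (2,1,2,4,256), (3,0,2,4,64),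
   (3,1,2,4,-128), (3,2,2,4,64), (1,0,1,5,64), (1,0,2,5,128), (2,0,2,5,-64), (2,1,2,5,64),
   (1,0,0,7,64), (1,0,1,7,128), (2,0,1,7,-64), (2,1,0,7,64), (2,1,1,7,192), (3,1,1,7,-64),
   (3,2,1,7,64), (1,0,0,8,384), (2,1,0,8,768), (3,2,0,8,384), (1,0,1,9,768), (2,0,1,9,-384),
   (2,1,1,9,1152), (3,1,1,9,-384), (3,2,1,9,384), (1,0,1,10,384), (2,1,1,10,384), (1,1,0,13,128),
   (1,1,1,13,256), (2,1,0,13,-64), (2,1,1,13,-256), (2,2,0,13,64), (2,2,1,13,256), (3,1,1,13,64),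
   (3,2,1,13,-128), (3,3,1,13,64), (1,1,0,14,64), (1,1,1,14,128), (2,1,1,14,-64), (2,2,1,14,64),
   (1,1,0,16,768), (2,1,0,16,-384), (2,2,0,16,1152), (3,2,0,16,-384), (3,3,0,16,384),
   (1,1,0,17,384), (2,2,0,17,384), (1,1,1,18,1536), (2,1,1,18,-1536), (2,2,1,18,1536),
   (3,1,1,18,384), (3,2,1,18,-768), (3,3,1,18,384), (1,1,1,19,1536), (2,1,1,19,-768),
   (2,2,1,19,768), (1,1,1,20,384)]

/-- table 52: b12 -/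
def tb52 : List (ℕ × ℕ × ℕ × ℕ × ℤ) :=
  [(0,0,0,11,-16), (0,0,1,11,64), (1,0,1,11,-32), (1,1,1,11,32), (0,0,0,12,64), (0,0,1,12,128),
   (1,0,1,12,-64), (1,1,0,12,64), (1,1,1,12,192), (2,1,1,12,-64), (2,2,1,12,64), (0,0,1,13,128),
   (0,0,2,13,256), (1,0,1,13,-64), (1,0,2,13,-256), (1,1,1,13,64), (1,1,2,13,256), (2,0,2,13,64),
   (2,1,2,13,-128), (2,2,2,13,64), (0,0,1,14,64), (0,0,2,14,128), (1,0,2,14,-64), (1,1,2,14,64),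
   (0,0,0,15,192), (1,1,0,15,384), (2,2,0,15,192), (0,0,1,16,768), (1,0,1,16,-384),
   (1,1,1,16,1152), (2,1,1,16,-384), (2,2,1,16,384), (0,0,1,17,384), (1,1,1,17,384),
   (0,0,2,18,768), (1,0,2,18,-768), (1,1,2,18,768), (2,0,2,18,192), (2,1,2,18,-384),
   (2,2,2,18,192), (0,0,2,19,768), (1,0,2,19,-384), (1,1,2,19,384), (0,0,2,20,192)]

/-- table 53: b20 -/
def tb53 : List (ℕ × ℕ × ℕ × ℕ × ℤ) :=
  [(1,0,0,0,-16), (2,0,1,0,-32), (2,1,1,0,32), (1,0,0,1,-64), (2,0,1,1,64), (2,1,0,1,64),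
   (2,1,1,1,-64), (3,1,1,1,-64), (3,2,1,1,64), (2,1,0,4,-64), (2,2,0,4,64), (3,1,1,4,64),
   (3,2,1,4,-128), (3,3,1,4,64), (1,1,0,5,64), (2,1,1,5,-64), (2,2,1,5,64), (1,0,0,6,192),
   (2,1,0,6,-384), (3,2,0,6,192), (2,1,0,9,384), (2,2,0,9,-384), (3,2,0,9,-384), (3,3,0,9,384),
   (1,1,0,10,-384), (2,2,0,10,384), (3,2,0,18,192), (3,3,0,18,-384), (3,4,0,18,192),
   (2,2,0,19,-384), (2,3,0,19,384), (1,2,0,20,192)]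

/-- table 54: b21 -/
def tb54 : List (ℕ × ℕ × ℕ × ℕ × ℤ) :=
  [(1,0,0,2,-32), (2,0,1,2,-64), (2,1,1,2,64), (1,0,0,3,-64), (2,0,1,3,64), (2,1,0,3,64),
   (2,1,1,3,-64), (3,1,1,3,-64), (3,2,1,3,64), (2,0,1,4,-64), (2,1,1,4,64), (3,0,2,4,64),
   (3,1,2,4,-128), (3,2,2,4,64), (1,0,1,5,64), (2,0,2,5,-64), (2,1,2,5,64), (1,0,0,7,-64),
   (2,0,1,7,64), (2,1,0,7,64), (2,1,1,7,-64), (3,1,1,7,-64), (3,2,1,7,64), (1,0,0,8,384),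
   (2,1,0,8,-768), (3,2,0,8,384), (2,0,1,9,384), (2,1,1,9,-384), (3,1,1,9,-384), (3,2,1,9,384),
   (1,0,1,10,-384), (2,1,1,10,384), (2,1,0,13,-64), (2,2,0,13,64), (3,1,1,13,64),
   (3,2,1,13,-128), (3,3,1,13,64), (1,1,0,14,64), (2,1,1,14,-64), (2,2,1,14,64), (2,1,0,16,384),
   (2,2,0,16,-384), (3,2,0,16,-384), (3,3,0,16,384), (1,1,0,17,-384), (2,2,0,17,384),
   (3,1,1,18,384), (3,2,1,18,-768), (3,3,1,18,384), (2,1,1,19,-768), (2,2,1,19,768),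
   (1,1,1,20,384)]

/-- table 55: b22 -/
def tb55 : List (ℕ × ℕ × ℕ × ℕ × ℤ) :=
  [(0,0,0,11,-16), (1,0,1,11,-32), (1,1,1,11,32), (0,0,0,12,-64), (1,0,1,12,64), (1,1,0,12,64),
   (1,1,1,12,-64), (2,1,1,12,-64), (2,2,1,12,64), (1,0,1,13,-64), (1,1,1,13,64), (2,0,2,13,64),
   (2,1,2,13,-128), (2,2,2,13,64), (0,0,1,14,64), (1,0,2,14,-64), (1,1,2,14,64), (0,0,0,15,192),
   (1,1,0,15,-384), (2,2,0,15,192), (1,0,1,16,384), (1,1,1,16,-384), (2,1,1,16,-384),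
   (2,2,1,16,384), (0,0,1,17,-384), (1,1,1,17,384), (2,0,2,18,192), (2,1,2,18,-384),
   (2,2,2,18,192), (1,0,2,19,-384), (1,1,2,19,384), (0,0,2,20,192)]

/-- table 56: b30 -/
def tb56 : List (ℕ × ℕ × ℕ × ℕ × ℤ) :=
  [(1,0,0,0,-16), (2,0,1,0,32), (2,1,1,0,32), (1,0,0,1,-64), (2,0,1,1,-64), (2,1,0,1,-64),
   (2,1,1,1,-64), (3,1,1,1,-64), (3,2,1,1,-64), (1,1,0,5,64), (2,1,1,5,64), (2,2,1,5,64),
   (1,0,0,6,192), (2,1,0,6,384), (3,2,0,6,192), (1,1,0,10,-384), (2,2,0,10,-384), (1,2,0,20,192)]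

/-- table 57: b31 -/
def tb57 : List (ℕ × ℕ × ℕ × ℕ × ℤ) :=
  [(1,0,0,2,-32), (2,0,1,2,64), (2,1,1,2,64), (1,0,0,3,-64), (2,0,1,3,-64), (2,1,0,3,-64),
   (2,1,1,3,-64), (3,1,1,3,-64), (3,2,1,3,-64), (1,0,1,5,64), (2,0,2,5,64), (2,1,2,5,64),
   (1,0,0,7,-64), (2,0,1,7,-64), (2,1,0,7,-64), (2,1,1,7,-64), (3,1,1,7,-64), (3,2,1,7,-64),
   (1,0,0,8,384), (2,1,0,8,768), (3,2,0,8,384), (1,0,1,10,-384), (2,1,1,10,-384), (1,1,0,14,64),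
   (2,1,1,14,64), (2,2,1,14,64), (1,1,0,17,-384), (2,2,0,17,-384), (1,1,1,20,384)]

/-- table 58: b32 -/
def tb58 : List (ℕ × ℕ × ℕ × ℕ × ℤ) :=
  [(0,0,0,11,-16), (1,0,1,11,32), (1,1,1,11,32), (0,0,0,12,-64), (1,0,1,12,-64), (1,1,0,12,-64),
   (1,1,1,12,-64), (2,1,1,12,-64), (2,2,1,12,-64), (0,0,1,14,64), (1,0,2,14,64), (1,1,2,14,64),
   (0,0,0,15,192), (1,1,0,15,384), (2,2,0,15,192), (0,0,1,17,-384), (1,1,1,17,-384),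
   (0,0,2,20,192)]

/-- table 59: b40 -/
def tb59 : List (ℕ × ℕ × ℕ × ℕ × ℤ) :=
  [(1,0,0,0,-16), (1,0,1,0,-64), (2,0,1,0,32), (2,1,1,0,32), (1,0,0,1,64), (1,0,1,1,-128),
   (2,0,1,1,64), (2,1,0,1,-64), (2,1,1,1,192), (3,1,1,1,-64), (3,2,1,1,-64), (1,1,0,5,64),
   (1,1,1,5,-128), (2,1,1,5,64), (2,2,1,5,64), (1,0,0,6,192), (2,1,0,6,-384), (3,2,0,6,192),
   (1,1,0,10,384), (2,2,0,10,-384), (1,2,0,20,192)]

/-- table 60: b41 -/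
def tb60 : List (ℕ × ℕ × ℕ × ℕ × ℤ) :=
  [(1,0,0,2,-32), (1,0,1,2,-128), (2,0,1,2,64), (2,1,1,2,64), (1,0,0,3,64), (1,0,1,3,-128),
   (2,0,1,3,64), (2,1,0,3,-64), (2,1,1,3,192), (3,1,1,3,-64), (3,2,1,3,-64), (1,0,1,5,64),
   (1,0,2,5,-128), (2,0,2,5,64), (2,1,2,5,64), (1,0,0,7,64), (1,0,1,7,-128), (2,0,1,7,64),
   (2,1,0,7,-64), (2,1,1,7,192), (3,1,1,7,-64), (3,2,1,7,-64), (1,0,0,8,384), (2,1,0,8,-768),
   (3,2,0,8,384), (1,0,1,10,384), (2,1,1,10,-384), (1,1,0,14,64), (1,1,1,14,-128), (2,1,1,14,64),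
   (2,2,1,14,64), (1,1,0,17,384), (2,2,0,17,-384), (1,1,1,20,384)]

/-- table 61: b42 -/
def tb61 : List (ℕ × ℕ × ℕ × ℕ × ℤ) :=
  [(0,0,0,11,-16), (0,0,1,11,-64), (1,0,1,11,32), (1,1,1,11,32), (0,0,0,12,64), (0,0,1,12,-128),
   (1,0,1,12,64), (1,1,0,12,-64), (1,1,1,12,192), (2,1,1,12,-64), (2,2,1,12,-64), (0,0,1,14,64),
   (0,0,2,14,-128), (1,0,2,14,64), (1,1,2,14,64), (0,0,0,15,192), (1,1,0,15,-384),
   (2,2,0,15,192), (0,0,1,17,384), (1,1,1,17,-384), (0,0,2,20,192)]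

/-- table 62: tq0 -/
def tb62 : List (ℕ × ℕ × ℕ × ℕ × ℤ) :=
  [(1,0,0,0,48), (1,0,0,1,-192), (2,0,0,1,192), (1,1,0,5,192), (1,0,0,6,192), (2,0,0,6,-384),
   (3,0,0,6,192), (1,1,0,10,-384), (2,1,0,10,384), (1,2,0,20,192)]

/-- table 63: tl0 -/
def tb63 : List (ℕ × ℕ × ℕ × ℕ × ℤ) :=
  [(1,0,0,0,-96), (1,0,0,1,192), (2,0,0,1,-192), (1,1,0,5,-192)]

/-- table 64: tc0 -/
def tb64 : List (ℕ × ℕ × ℕ × ℕ × ℤ) :=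
  [(1,0,0,0,192)]

/-- table 65: tq1 -/
def tb65 : List (ℕ × ℕ × ℕ × ℕ × ℤ) :=
  [(1,0,0,2,96), (1,0,0,3,-192), (2,0,0,3,192), (1,0,1,5,192), (1,0,0,7,-192), (2,0,0,7,192),
   (1,0,0,8,384), (2,0,0,8,-768), (3,0,0,8,384), (1,0,1,10,-384), (2,0,1,10,384), (1,1,0,14,192),
   (1,1,0,17,-384), (2,1,0,17,384), (1,1,1,20,384)]

/-- table 66: tl1 -/
def tb66 : List (ℕ × ℕ × ℕ × ℕ × ℤ) :=
  [(1,0,0,2,-192), (1,0,0,3,192), (2,0,0,3,-192), (1,0,1,5,-192), (1,0,0,7,192), (2,0,0,7,-192),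
   (1,1,0,14,-192)]

/-- table 67: tc1 -/
def tb67 : List (ℕ × ℕ × ℕ × ℕ × ℤ) :=
  [(1,0,0,2,384)]

/-- table 68: tq2 -/
def tb68 : List (ℕ × ℕ × ℕ × ℕ × ℤ) :=
  [(0,0,0,11,48), (0,0,0,12,-192), (1,0,0,12,192), (0,0,1,14,192), (0,0,0,15,192),
   (1,0,0,15,-384), (2,0,0,15,192), (0,0,1,17,-384), (1,0,1,17,384), (0,0,2,20,192)]

/-- table 69: tl2 -/
def tb69 : List (ℕ × ℕ × ℕ × ℕ × ℤ) :=
  [(0,0,0,11,-96), (0,0,0,12,192), (1,0,0,12,-192), (0,0,1,14,-192)]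

/-- table 70: tc2 -/
def tb70 : List (ℕ × ℕ × ℕ × ℕ × ℤ) :=
  [(0,0,0,11,192)]

/-- table 71: sk1 -/
def tb71 : List (ℕ × ℕ × ℕ × ℕ × ℤ) :=
  [(1,0,0,3,192), (1,0,0,7,-192)]

/-- table 72: sk2 -/
def tb72 : List (ℕ × ℕ × ℕ × ℕ × ℤ) :=
  [(2,0,0,3,192), (2,0,0,7,-192)]

/-- table 73: s00 -/
def tb73 : List (ℕ × ℕ × ℕ × ℕ × ℤ) :=
  [(1,0,0,0,-192)]

/-- table 74: s01 -/
def tb74 : List (ℕ × ℕ × ℕ × ℕ × ℤ) :=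
  [(1,0,0,2,-192)]

/-- table 75: s02 -/
def tb75 : List (ℕ × ℕ × ℕ × ℕ × ℤ) :=
  [(1,0,0,11,-192)]

/-- table 76: s10 -/
def tb76 : List (ℕ × ℕ × ℕ × ℕ × ℤ) :=
  [(1,0,0,1,-384)]

/-- table 77: s11 -/
def tb77 : List (ℕ × ℕ × ℕ × ℕ × ℤ) :=
  [(1,0,0,3,-192), (1,0,0,7,-192)]

/-- table 78: s12 -/
def tb78 : List (ℕ × ℕ × ℕ × ℕ × ℤ) :=
  [(1,0,0,12,-384)]

/-- table 79: s20 -/
def tb79 : List (ℕ × ℕ × ℕ × ℕ × ℤ) :=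
  [(1,0,0,6,-192)]

/-- table 80: s21 -/
def tb80 : List (ℕ × ℕ × ℕ × ℕ × ℤ) :=
  [(1,0,0,8,-192)]

/-- table 81: s22 -/
def tb81 : List (ℕ × ℕ × ℕ × ℕ × ℤ) :=
  [(1,0,0,15,-192)]

/-- all tables -/
def tabs : List (List (ℕ × ℕ × ℕ × ℕ × ℤ)) :=
  [tb0, tb1, tb2, tb3, tb4, tb5, tb6, tb7, tb8, tb9
  , tb10, tb11, tb12, tb13, tb14, tb15, tb16, tb17, tb18, tb19
  , tb20, tb21, tb22, tb23, tb24, tb25, tb26, tb27, tb28, tb29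
  , tb30, tb31, tb32, tb33, tb34, tb35, tb36, tb37, tb38, tb39
  , tb40, tb41, tb42, tb43, tb44, tb45, tb46, tb47, tb48, tb49
  , tb50, tb51, tb52, tb53, tb54, tb55, tb56, tb57, tb58, tb59
  , tb60, tb61, tb62, tb63, tb64, tb65, tb66, tb67, tb68, tb69
  , tb70, tb71, tb72, tb73, tb74, tb75, tb76, tb77, tb78, tb79
  , tb80, tb81]

end Pool.G1.Gap.PB
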