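import Mathlib

/-!
# G1, LINE T: positivity from a non-vanishing bordered determinant

A continuous family of quadratic forms `Q s` on the hyperplanes `v s ⬝ᵥ x = 0`, `s` in a connected
space, such that the system `Q x = lam v`, `v x = 0` has only the solution `x = 0`, and which is
positive for one `s`, is positive for all `s`.
-/

set_option autoImplicit false

open Matrix Topology

namespace Pool.G1.PATH

variable {X : Type*} [TopologicalSpace X] {n : ℕ}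

lemma quad_add {n : ℕ} (Q : Matrix (Fin n) (Fin n) ℝ) (h : Q.IsSymm) (x y : Fin n → ℝ) (t : ℝ) :
    (x + t • y) ⬝ᵥ (Q *ᵥ (x + t • y)) =
      x ⬝ᵥ (Q *ᵥ x) + 2 * t * (y ⬝ᵥ (Q *ᵥ x)) + t ^ 2 * (y ⬝ᵥ (Q *ᵥ y)) := by
  have e : x ⬝ᵥ (Q *ᵥ y) = y ⬝ᵥ (Q *ᵥ x) := by
    rw [Matrix.dotProduct_mulVec, ← Matrix.mulVec_transpose, h.eq, dotProduct_comm]
  rw [Matrix.mulVec_add, Matrix.mulVec_smul, add_dotProduct, dotProduct_add, dotProduct_add,
    smul_dotProduct, smul_dotProduct, dotProduct_smul, dotProduct_smul, e]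
  simp only [smul_eq_mul]
  ring

/-- if the form is nonnegative on the hyperplane and vanishes at `x` in it, then `Q x` is a multiple
of `v` -/
lemma ker_of_nonneg (Q : Matrix (Fin n) (Fin n) ℝ) (v : Fin n → ℝ) (h : Q.IsSymm) (hv : v ≠ 0)
    (h0 : ∀ x, v ⬝ᵥ x = 0 → 0 ≤ x ⬝ᵥ (Q *ᵥ x)) (x : Fin n → ℝ) (hx : v ⬝ᵥ x = 0)
    (hq : x ⬝ᵥ (Q *ᵥ x) = 0) : ∃ lam : ℝ, Q *ᵥ x = lam • v := by
  have hvv : v ⬝ᵥ v ≠ 0 := by
    rw [Ne, dotProduct_self_eq_zero]; exact hv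
  refine ⟨(v ⬝ᵥ (Q *ᵥ x)) / (v ⬝ᵥ v), ?_⟩
  obtain ⟨lam, hlam⟩ : ∃ lam, lam = (v ⬝ᵥ (Q *ᵥ x)) / (v ⬝ᵥ v) := ⟨_, rfl⟩
  rw [← hlam]
  -- y := Q x - lam v lies in the hyperplane
  have key : ∀ y, v ⬝ᵥ y = 0 → y ⬝ᵥ (Q *ᵥ x) = 0 := by
    intro y hy
    by_contra hne
    have hb : ∀ t : ℝ, 0 ≤ 2 * t * (y ⬝ᵥ (Q *ᵥ x)) + t ^ 2 * (y ⬝ᵥ (Q *ᵥ y)) := by
      intro t
      have := h0 (x + t • y) (by rw [dotProduct_add, dotProduct_smul, hx, hy]; simp)
      rw [quad_add Q h, hq] at this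
      linarith
    obtain ⟨c, hc⟩ : ∃ c, c = y ⬝ᵥ (Q *ᵥ x) := ⟨_, rfl⟩
    obtain ⟨d, hd⟩ : ∃ d, d = y ⬝ᵥ (Q *ᵥ y) := ⟨_, rfl⟩
    rw [← hc, ← hd] at hb
    rw [← hc] at hne
    have hd0 : 0 < 1 + |d| := by positivity
    have h1 := hb (-c / (1 + |d|))
    have h2 : 2 * (-c / (1 + |d|)) * c + (-c / (1 + |d|)) ^ 2 * d =
        c ^ 2 / (1 + |d|) ^ 2 * (d - 2 * (1 + |d|)) := by
      field_simp
      ring
    rw [h2] at h1
    have h3 : 0 < c ^ 2 / (1 + |d|) ^ 2 := by positivity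
    have h4 : d - 2 * (1 + |d|) < 0 := by
      have := le_abs_self d
      have := abs_nonneg d
      linarith
    have := mul_neg_of_pos_of_neg h3 h4
    linarith
  have hz : v ⬝ᵥ (Q *ᵥ x - lam • v) = 0 := by
    rw [dotProduct_sub, dotProduct_smul, hlam]
    simp only [smul_eq_mul]
    field_simp
    ring
  have h5 := key _ hz
  have h6 : (Q *ᵥ x - lam • v) ⬝ᵥ (Q *ᵥ x - lam • v) = 0 := by
    rw [dotProduct_sub, h5, dotProduct_smul, dotProduct_comm _ v, hz]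
    simp
  rw [dotProduct_self_eq_zero] at h6
  exact sub_eq_zero.mp h6

variable (Q : X → Matrix (Fin n) (Fin n) ℝ) (v : X → Fin n → ℝ)

lemma cont_quad (hQ : Continuous Q) {Y : Type*} [TopologicalSpace Y] (f : Y → X) (g : Y → Fin n → ℝ)
    (hf : Continuous f) (hg : Continuous g) :
    Continuous fun y => g y ⬝ᵥ (Q (f y) *ᵥ g y) := by
  have h := hQ.comp hf
  exact hg.dotProduct ((h : Continuous fun y => Q (f y)).matrix_mulVec hg)

/-- the set of parameters with a negative direction is open -/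
lemma isOpen_neg (hQ : Continuous Q) (hv : Continuous v) (hv0 : ∀ s, v s ≠ 0) :
    IsOpen {s | ∃ x, v s ⬝ᵥ x = 0 ∧ x ⬝ᵥ (Q s *ᵥ x) < 0} := by
  rw [isOpen_iff_mem_nhds]
  rintro s ⟨x, hx, hq⟩
  obtain ⟨g, hg⟩ : ∃ g : X → Fin n → ℝ, g = fun s' => x - ((v s' ⬝ᵥ x) / (v s' ⬝ᵥ v s')) • v s' :=
    ⟨_, rfl⟩
  have hvv : ∀ s, v s ⬝ᵥ v s ≠ 0 := by
    intro s
    rw [Ne, dotProduct_self_eq_zero]; exact hv0 s
  have hgc : Continuous g := by
    rw [hg]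
    have h1 : Continuous fun s' => v s' ⬝ᵥ x := hv.dotProduct continuous_const
    have h2 : Continuous fun s' => v s' ⬝ᵥ v s' := hv.dotProduct hv
    exact continuous_const.sub ((h1.div h2 hvv).smul hv)
  have hgs : g s = x := by rw [hg]; simp [hx]
  have hc := cont_quad Q hQ (fun s => s) g continuous_id hgc
  have hm : {s' | g s' ⬝ᵥ (Q s' *ᵥ g s') < 0} ∈ 𝓝 s := by
    refine (isOpen_lt hc continuous_const).mem_nhds ?_
    change g s ⬝ᵥ (Q s *ᵥ g s) < 0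
    rw [hgs]; exact hq
  refine Filter.mem_of_superset hm ?_
  intro s' hs'
  refine ⟨g s', ?_, hs'⟩
  rw [hg]
  simp only [dotProduct_sub, dotProduct_smul, smul_eq_mul]
  have := hvv s'
  field_simp
  ring

/-- the set of parameters for which the form is positive on the hyperplane is open -/
lemma isOpen_pos (hQ : Continuous Q) (hv : Continuous v) :
    IsOpen {s | ∀ x, x ≠ 0 → v s ⬝ᵥ x = 0 → 0 < x ⬝ᵥ (Q s *ᵥ x)} := by
  rw [← isClosed_compl_iff]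
  have hK : CompactSpace (Metric.sphere (0 : Fin n → ℝ) 1) :=
    isCompact_iff_compactSpace.mp (isCompact_sphere 0 1)
  have hcl : IsClosed {p : X × (Metric.sphere (0 : Fin n → ℝ) 1) |
      v p.1 ⬝ᵥ (p.2 : Fin n → ℝ) = 0 ∧ (p.2 : Fin n → ℝ) ⬝ᵥ (Q p.1 *ᵥ (p.2 : Fin n → ℝ)) ≤ 0} := by
    have hg : Continuous fun p : X × (Metric.sphere (0 : Fin n → ℝ) 1) => (p.2 : Fin n → ℝ) :=
      continuous_subtype_val.comp continuous_snd
    refine IsClosed.inter ?_ ?_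
    · exact isClosed_eq ((hv.comp continuous_fst).dotProduct hg) continuous_const
    · exact isClosed_le (cont_quad Q hQ (fun p : X × (Metric.sphere (0 : Fin n → ℝ) 1) => p.1) _
        continuous_fst hg) continuous_const
  have h2 := isClosedMap_fst_of_compactSpace _ hcl
  convert h2 using 1
  ext s
  simp only [Set.mem_compl_iff, Set.mem_ofPred_eq, Set.mem_image, Prod.exists, not_forall, not_lt]
  constructor
  · rintro ⟨x, hx, hvx, hq⟩
    have hn : (0 : ℝ) < ‖x‖ := norm_pos_iff.mpr hx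
    refine ⟨s, ⟨‖x‖⁻¹ • x, ?_⟩, ⟨?_, ?_⟩, rfl⟩
    · rw [mem_sphere_zero_iff_norm, norm_smul, norm_inv, norm_norm, inv_mul_cancel₀ hn.ne']
    · change v s ⬝ᵥ (‖x‖⁻¹ • x) = 0
      rw [dotProduct_smul, hvx, smul_zero]
    · change (‖x‖⁻¹ • x) ⬝ᵥ (Q s *ᵥ (‖x‖⁻¹ • x)) ≤ 0
      rw [Matrix.mulVec_smul, dotProduct_smul, smul_dotProduct]
      simp only [smul_eq_mul]
      have hi : 0 < ‖x‖⁻¹ := inv_pos.mpr hn
      have := mul_nonneg_of_nonpos_of_nonpos hq (neg_nonpos.mpr (mul_pos hi hi).le)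
      nlinarith
  · rintro ⟨s', x, ⟨hvx, hq⟩, rfl⟩
    refine ⟨(x : Fin n → ℝ), ?_, hvx, hq⟩
    intro h0
    have := x.2
    rw [mem_sphere_zero_iff_norm, h0, norm_zero] at this
    exact zero_ne_one this

/-- **positivity from non-degeneracy along a connected family** -/
theorem pos_of_ker [PreconnectedSpace X] (hQ : Continuous Q) (hv : Continuous v)
    (hsym : ∀ s, (Q s).IsSymm) (hv0 : ∀ s, v s ≠ 0)
    (hker : ∀ s x (lam : ℝ), v s ⬝ᵥ x = 0 → Q s *ᵥ x = lam • v s → x = 0)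
    (s0 : X) (h0 : ∀ x, x ≠ 0 → v s0 ⬝ᵥ x = 0 → 0 < x ⬝ᵥ (Q s0 *ᵥ x)) (s : X) :
    ∀ x, x ≠ 0 → v s ⬝ᵥ x = 0 → 0 < x ⬝ᵥ (Q s *ᵥ x) := by
  have hU := isOpen_pos Q v hQ hv
  have hV := isOpen_neg Q v hQ hv hv0
  by_contra hne
  have hpre : IsPreconnected (Set.univ : Set X) := isPreconnected_univ
  have hcov : (Set.univ : Set X) ⊆ {s | ∀ x, x ≠ 0 → v s ⬝ᵥ x = 0 → 0 < x ⬝ᵥ (Q s *ᵥ x)} ∪
      {s | ∃ x, v s ⬝ᵥ x = 0 ∧ x ⬝ᵥ (Q s *ᵥ x) < 0} := by
    intro r _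
    by_cases hr : ∃ x, v r ⬝ᵥ x = 0 ∧ x ⬝ᵥ (Q r *ᵥ x) < 0
    · exact Or.inr hr
    · left
      push Not at hr
      intro x hx hvx
      rcases (hr x hvx).lt_or_eq with hlt | heq
      · exact hlt
      · obtain ⟨lam, hlam⟩ := ker_of_nonneg (Q r) (v r) (hsym r) (hv0 r) hr x hvx heq.symm
        exact absurd (hker r x lam hvx hlam) hx
  have hs : s ∈ {s | ∃ x, v s ⬝ᵥ x = 0 ∧ x ⬝ᵥ (Q s *ᵥ x) < 0} :=
    (hcov (Set.mem_univ s)).resolve_left hne
  obtain ⟨r, -, hr1, x, hvx, hq⟩ := hpre _ _ hU hV hcov ⟨s0, Set.mem_univ _, h0⟩ ⟨s, Set.mem_univ _, hs⟩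
  by_cases hx : x = 0
  · rw [hx] at hq
    simp at hq
  · exact absurd (hr1 x hx hvx) (not_lt.mpr hq.le)

/-- the bordered matrix -/
def bord {n : ℕ} (Q : Matrix (Fin n) (Fin n) ℝ) (v : Fin n → ℝ) :
    Matrix (Fin n ⊕ Unit) (Fin n ⊕ Unit) ℝ :=
  Matrix.fromBlocks Q (Matrix.of fun i _ => v i) (Matrix.of fun _ j => v j) 0

lemma ker_of_det (Q : Matrix (Fin n) (Fin n) ℝ) (v : Fin n → ℝ) (h : (bord Q v).det ≠ 0)
    (x : Fin n → ℝ) (lam : ℝ) (hx : v ⬝ᵥ x = 0) (hq : Q *ᵥ x = lam • v) : x = 0 := by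
  by_contra hne
  apply h
  rw [← Matrix.exists_mulVec_eq_zero_iff]
  refine ⟨Sum.elim x (fun _ => -lam), ?_, ?_⟩
  · intro h0
    apply hne
    funext i
    exact congrFun h0 (Sum.inl i)
  · rw [bord, Matrix.fromBlocks_mulVec]
    funext i
    rcases i with i | i
    · have := congrFun hq i
      simp only [Sum.elim_inl, Pi.add_apply, Pi.zero_apply, Pi.smul_apply, smul_eq_mul] at this ⊢
      simp only [Sum.elim_comp_inl, Sum.elim_comp_inr]
      rw [this]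
      simp [Matrix.mulVec, dotProduct]
      ring
    · simp only [Sum.elim_inr, Pi.add_apply, Pi.zero_apply]
      simp only [Sum.elim_comp_inl, Sum.elim_comp_inr]
      have : (Matrix.of fun (_ : Unit) j => v j) *ᵥ x = fun _ => v ⬝ᵥ x := by
        funext j; rfl
      rw [this, hx]
      simp

/-- **positivity from a non-vanishing bordered determinant along a connected family** -/
theorem pos_of_det [PreconnectedSpace X] (hQ : Continuous Q) (hv : Continuous v)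
    (hsym : ∀ s, (Q s).IsSymm) (hv0 : ∀ s, v s ≠ 0) (hd : ∀ s, (bord (Q s) (v s)).det ≠ 0)
    (s0 : X) (h0 : ∀ x, x ≠ 0 → v s0 ⬝ᵥ x = 0 → 0 < x ⬝ᵥ (Q s0 *ᵥ x)) (s : X) :
    ∀ x, x ≠ 0 → v s ⬝ᵥ x = 0 → 0 < x ⬝ᵥ (Q s *ᵥ x) :=
  pos_of_ker Q v hQ hv hsym hv0 (fun s x lam h1 h2 => ker_of_det (Q s) (v s) (hd s) x lam h1 h2)
    s0 h0 s

/-- the open positive orthant is connected -/
instance orthant_preconnected (k : ℕ) : PreconnectedSpace {x : Fin k → ℝ // ∀ i, 0 < x i} := by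
  have hc : Convex ℝ {x : Fin k → ℝ | ∀ i, 0 < x i} := by
    intro x hx y hy a b ha hb hab i
    change 0 < a * x i + b * y i
    rcases ha.lt_or_eq with h | h
    · have := mul_pos h (hx i)
      have := mul_nonneg hb (hy i).le
      linarith
    · have hb1 : b = 1 := by rw [← h] at hab; linarith
      rw [← h, hb1]
      have := hy i
      linarith
  exact Subtype.preconnectedSpace hc.isPreconnected

end Pool.G1.PATH
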