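import Pool.Agent.Work.MP_b5407d_g1.Pl_PAT

/-! # G1, line P-a: values of the tables 0 .. 10 at the lifted vector -/

set_option autoImplicit false
set_option maxRecDepth 100000
set_option linter.unusedSimpArgs false

namespace Pool.G1.Gap.PB

set_option maxHeartbeats 4000000 in
theorem id0 (r v u p y z : ℝ) : semL r v u v (v*p) u (u*p) y z tb0 =
    192 * F0 0 0 0 r v u 1 p (y/2) z := by
  simp only [tb0, semL, mz, F0, xi, et, lD, lP, lt, lN, lp1, lr1, Y1, Y2, Y3, Y4, G1, G2, G3, G4]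
  push_cast
  ring

set_option maxHeartbeats 4000000 in
theorem id1 (r v u p y z : ℝ) : semL r v u v (v*p) u (u*p) y z tb1 =
    192 * (r*(xi r v*lP p (y/2) - et r v*(p/2) + u*(xi r v + et r v)/4*lt r 1 p z)*lN r v p (y/2) z) := by
  simp only [tb1, semL, mz, F0, xi, et, lD, lP, lt, lN, lp1, lr1, Y1, Y2, Y3, Y4, G1, G2, G3, G4]
  push_cast
  ring

set_option maxHeartbeats 4000000 in
theorem id2 (r v u p y z : ℝ) : semL r v u v (v*p) u (u*p) y z tb2 =
    192 * (-(u*lN r v p (y/2) z)) := by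
  simp only [tb2, semL, mz, F0, xi, et, lD, lP, lt, lN, lp1, lr1, Y1, Y2, Y3, Y4, G1, G2, G3, G4]
  push_cast
  ring

set_option maxHeartbeats 4000000 in
theorem id3 (r v u p y z : ℝ) : semL r v u v (v*p) u (u*p) y z tb3 =
    192 * (-(u*lt r 1 p z*lN r v p (y/2) z)) := by
  simp only [tb3, semL, mz, F0, xi, et, lD, lP, lt, lN, lp1, lr1, Y1, Y2, Y3, Y4, G1, G2, G3, G4]
  push_cast
  ring

set_option maxHeartbeats 4000000 in
theorem id4 (r v u p y z : ℝ) : semL r v u v (v*p) u (u*p) y z tb4 =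
    192 * ((1-v)*lD r v p (y/2)^2) := by
  simp only [tb4, semL, mz, F0, xi, et, lD, lP, lt, lN, lp1, lr1, Y1, Y2, Y3, Y4, G1, G2, G3, G4]
  push_cast
  ring

set_option maxHeartbeats 4000000 in
theorem id5 (r v u p y z : ℝ) : semL r v u v (v*p) u (u*p) y z tb5 =
    192 * (r*(1-v)*lD r v p (y/2)^2) := by
  simp only [tb5, semL, mz, F0, xi, et, lD, lP, lt, lN, lp1, lr1, Y1, Y2, Y3, Y4, G1, G2, G3, G4]
  push_cast
  ring

set_option maxHeartbeats 4000000 in
theorem id6 (r v u p y z : ℝ) : semL r v u v (v*p) u (u*p) y z tb6 =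
    192 * (v*(1-v)*lD r v p (y/2)^2) := by
  simp only [tb6, semL, mz, F0, xi, et, lD, lP, lt, lN, lp1, lr1, Y1, Y2, Y3, Y4, G1, G2, G3, G4]
  push_cast
  ring

set_option maxHeartbeats 4000000 in
theorem id7 (r v u p y z : ℝ) : semL r v u v (v*p) u (u*p) y z tb7 =
    192 * (u*(1-v)*lD r v p (y/2)^2) := by
  simp only [tb7, semL, mz, F0, xi, et, lD, lP, lt, lN, lp1, lr1, Y1, Y2, Y3, Y4, G1, G2, G3, G4]
  push_cast
  ring

set_option maxHeartbeats 4000000 in
theorem id8 (r v u p y z : ℝ) : semL r v u v (v*p) u (u*p) y z tb8 =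
    192 * (xi r v*(u*G1 r v 1 p (y/2) z)^2) := by
  simp only [tb8, semL, mz, F0, xi, et, lD, lP, lt, lN, lp1, lr1, Y1, Y2, Y3, Y4, G1, G2, G3, G4]
  push_cast
  ring

set_option maxHeartbeats 4000000 in
theorem id9 (r v u p y z : ℝ) : semL r v u v (v*p) u (u*p) y z tb9 =
    192 * (r*xi r v*(u*G1 r v 1 p (y/2) z)^2) := by
  simp only [tb9, semL, mz, F0, xi, et, lD, lP, lt, lN, lp1, lr1, Y1, Y2, Y3, Y4, G1, G2, G3, G4]
  push_cast
  ring

set_option maxHeartbeats 4000000 in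
theorem id10 (r v u p y z : ℝ) : semL r v u v (v*p) u (u*p) y z tb10 =
    192 * (v*xi r v*(u*G1 r v 1 p (y/2) z)^2) := by
  simp only [tb10, semL, mz, F0, xi, et, lD, lP, lt, lN, lp1, lr1, Y1, Y2, Y3, Y4, G1, G2, G3, G4]
  push_cast
  ring

end Pool.G1.Gap.PB
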