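import Pool.Agent.Work.MP_b5407d_g1.Pl_PW

/-!
# G1, line P-a: `PWat` from quadratic forms in the chart `(ρ, v, τ)`

Chart (helper53, helper93): `a = 1 - ρ (1 - v)`, `b = ρ (1 + v) - 1`, `0 < ρ ≤ 1`, `0 ≤ v ≤ 1`,
`-1 < τ < 1` (the other states by the two symmetries).  Everything is divided by `ρ`; the D-term of
`FF` is dropped and `1 / Y ≥ 2 - Y` is used, so that all forms are polynomials.
Variables: `o` (the constant 1), `η = -R`, `y = (P + R) / 2`, `z = t - 1/2 + (1 - ρ) η`.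
-/

set_option autoImplicit false

namespace Pool.G1.Gap

namespace PB

/-! ## the linear forms -/

/-- `P / 2` -/
noncomputable def lP (η y : ℝ) : ℝ := y + η / 2

/-- `t` -/
noncomputable def lt (ρ o η z : ℝ) : ℝ := o / 2 + z - (1 - ρ) * η

/-- `M / ρ` -/
noncomputable def lN (ρ v η y z : ℝ) : ℝ :=
  (1 - v) * (2 - ρ * (1 - v)) * lP η y - (1 + v) * (2 - ρ * (1 + v)) * (η / 2) -
    2 * v * (z - (1 - ρ) * η)

/-- `p / (ρ (1 - v) (1 + a))` -/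
noncomputable def lp1 (ρ τ o η y z : ℝ) : ℝ := lP η y + τ / 4 * lt ρ o η z

/-- `r / (ρ (1 + v) (1 - b))` -/
noncomputable def lr1 (ρ τ o η z : ℝ) : ℝ := -(η / 2) + τ / 4 * lt ρ o η z

noncomputable def Y1 (ρ v τ : ℝ) : ℝ := 1 - τ * (2 - ρ * (1 - v)) / 2
noncomputable def Y2 (ρ v τ : ℝ) : ℝ := 1 + τ * (ρ * (1 - v)) / 2
noncomputable def Y3 (ρ v τ : ℝ) : ℝ := 1 - τ * (ρ * (1 + v)) / 2
noncomputable def Y4 (ρ v τ : ℝ) : ℝ := 1 + τ * (2 - ρ * (1 + v)) / 2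

noncomputable def G1 (ρ v o η y z : ℝ) : ℝ := lt ρ o η z + 2 * (2 - ρ * (1 - v)) * lP η y
noncomputable def G2 (ρ v o η y z : ℝ) : ℝ := lt ρ o η z - 2 * (ρ * (1 - v)) * lP η y
noncomputable def G3 (ρ v o η z : ℝ) : ℝ := lt ρ o η z - 2 * (ρ * (1 + v)) * (η / 2)
noncomputable def G4 (ρ v o η z : ℝ) : ℝ := lt ρ o η z + 2 * (2 - ρ * (1 + v)) * (η / 2)

/-- the base form divided by `ρ`; `i1 .. i4` stand for `1 / Y1 .. 1 / Y4` (or `2 - Y1 ..`) -/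
noncomputable def Fe (kap A B ρ v τ i1 i2 i3 i4 o η y z : ℝ) : ℝ :=
  ((1 - v) * (2 - ρ * (1 - v)) + (1 + v) * (2 - ρ * (1 + v))) / 2 * (z - (1 - ρ) * η) ^ 2 +
    ρ * v ^ 2 * lt ρ o η z ^ 2 +
    2 * τ * v * (1 / 6 - (1 - ρ) ^ 2 / 2) * (z - (1 - ρ) * η) * (o / 2 + lt ρ o η z) +
    τ * ρ ^ 2 * v ^ 3 * o ^ 2 / 12 +
    2 * (1 - ρ) * (z - (1 - ρ) * η) *
      ((1 - v) * (2 - ρ * (1 - v)) * lP η y + (1 + v) * (2 - ρ * (1 + v)) * (η / 2)) +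
    τ * (1 - ρ) * ρ * v * lt ρ o η z *
      ((1 - v) * (2 - ρ * (1 - v)) * lP η y + (1 + v) * (2 - ρ * (1 + v)) * (η / 2)) +
    (-(ρ * v * o) - τ / 3 * (o / 2 - (z - (1 - ρ) * η)) + τ * (1 - ρ) ^ 2 * lt ρ o η z) *
      ((1 - v) * (2 - ρ * (1 - v)) * lP η y - (1 + v) * (2 - ρ * (1 + v)) * (η / 2)) +
    2 * (1 - ρ) * ((1 - v) * (2 - ρ * (1 - v))) *
      ((1 - ρ * (1 - v)) + τ * (1 + (1 - ρ * (1 - v)) ^ 2) / 2) * lP η y ^ 2 -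
    2 * (1 - ρ) * ((1 + v) * (2 - ρ * (1 + v))) *
      ((ρ * (1 + v) - 1) + τ * (1 + (ρ * (1 + v) - 1) ^ 2) / 2) * (η / 2) ^ 2 +
    τ ^ 2 / 32 *
      ((1 - v) * (2 - ρ * (1 - v)) * ((4 - 2 * ρ) * (2 - ρ * (1 - v)) * i1 * G1 ρ v o η y z ^ 2 +
          2 * ρ * (ρ * (1 - v)) * i2 * G2 ρ v o η y z ^ 2) +
        (1 + v) * (2 - ρ * (1 + v)) * (2 * ρ * (ρ * (1 + v)) * i3 * G3 ρ v o η z ^ 2 +
          (4 - 2 * ρ) * (2 - ρ * (1 + v)) * i4 * G4 ρ v o η z ^ 2)) +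
    (kap * ρ * ((1 - v) * (2 - ρ * (1 - v)) * lP η y - (1 + v) * (2 - ρ * (1 + v)) * (η / 2) +
        τ * ((1 - v) * (2 - ρ * (1 - v)) + (1 + v) * (2 - ρ * (1 + v))) / 4 * lt ρ o η z) -
      τ * ((A - 1 / 3) * o + (B - 2 / 3) * lt ρ o η z)) * lN ρ v η y z

/-- the polynomial base form -/
noncomputable def Fb (kap A B ρ v τ o η y z : ℝ) : ℝ :=
  Fe kap A B ρ v τ (2 - Y1 ρ v τ) (2 - Y2 ρ v τ) (2 - Y3 ρ v τ) (2 - Y4 ρ v τ) o η y z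

/-! excursion terms (`X1`, `X4` with a number `m ≥ 1 / (2 - ρ)`) and their conditions -/

noncomputable def X1 (kap m ρ v τ o η y z : ℝ) : ℝ :=
  -(kap ^ 2 / 16 * ρ ^ 2 * (1 - v) * Y1 ρ v τ * m * lN ρ v η y z ^ 2) +
    (2 - ρ) * (1 - v) * (2 - ρ * (1 - v)) ^ 2 * (2 - Y1 ρ v τ) * lp1 ρ τ o η y z ^ 2

noncomputable def X2 (kap ρ v τ o η y z : ℝ) : ℝ :=
  -(kap ^ 2 / 16 * (2 - ρ * (1 - v)) * Y2 ρ v τ * lN ρ v η y z ^ 2) +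
    ρ ^ 2 * (1 - v) ^ 2 * (2 - ρ * (1 - v)) * (2 - Y2 ρ v τ) * lp1 ρ τ o η y z ^ 2

noncomputable def X3 (kap ρ v τ o η y z : ℝ) : ℝ :=
  -(kap ^ 2 / 16 * (2 - ρ * (1 + v)) * Y3 ρ v τ * lN ρ v η y z ^ 2) +
    ρ ^ 2 * (1 + v) ^ 2 * (2 - ρ * (1 + v)) * (2 - Y3 ρ v τ) * lr1 ρ τ o η z ^ 2

noncomputable def X4 (kap m ρ v τ o η y z : ℝ) : ℝ :=
  -(kap ^ 2 / 16 * ρ ^ 2 * (1 + v) * Y4 ρ v τ * m * lN ρ v η y z ^ 2) +
    (2 - ρ) * (1 + v) * (2 - ρ * (1 + v)) ^ 2 * (2 - Y4 ρ v τ) * lr1 ρ τ o η z ^ 2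

noncomputable def C1 (kap ρ v τ o η y z : ℝ) : ℝ :=
  kap ^ 2 * ρ ^ 2 * Y1 ρ v τ ^ 2 * lN ρ v η y z ^ 2 -
    16 * (2 - ρ) ^ 2 * (2 - ρ * (1 - v)) ^ 2 * lp1 ρ τ o η y z ^ 2

noncomputable def C2 (kap ρ v τ o η y z : ℝ) : ℝ :=
  kap ^ 2 * Y2 ρ v τ ^ 2 * lN ρ v η y z ^ 2 - 16 * ρ ^ 2 * (1 - v) ^ 2 * lp1 ρ τ o η y z ^ 2

noncomputable def C3 (kap ρ v τ o η y z : ℝ) : ℝ :=
  kap ^ 2 * Y3 ρ v τ ^ 2 * lN ρ v η y z ^ 2 - 16 * ρ ^ 2 * (1 + v) ^ 2 * lr1 ρ τ o η z ^ 2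

noncomputable def C4 (kap ρ v τ o η y z : ℝ) : ℝ :=
  kap ^ 2 * ρ ^ 2 * Y4 ρ v τ ^ 2 * lN ρ v η y z ^ 2 -
    16 * (2 - ρ) ^ 2 * (2 - ρ * (1 + v)) ^ 2 * lr1 ρ τ o η z ^ 2

/-- arc 1 is the cheaper one of chain R (`c1 ≤ c2`) -/
def R1 (ρ v τ : ℝ) : Prop := (2 - ρ) * (2 - ρ * (1 - v)) * Y2 ρ v τ ≤ ρ ^ 2 * (1 - v) * Y1 ρ v τ

/-- arc 2 is the cheaper one of chain R (`c2 ≤ c1`) -/
def R2 (ρ v τ : ℝ) : Prop := ρ ^ 2 * (1 - v) * Y1 ρ v τ ≤ (2 - ρ) * (2 - ρ * (1 - v)) * Y2 ρ v τ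

/-- arc 3 is the cheaper one of chain L (`c3 ≤ c4`) -/
def L3 (ρ v τ : ℝ) : Prop := ρ ^ 2 * (1 + v) * Y4 ρ v τ ≤ (2 - ρ) * (2 - ρ * (1 + v)) * Y3 ρ v τ

/-- arc 4 is the cheaper one of chain L (`c4 ≤ c3`) -/
def L4 (ρ v τ : ℝ) : Prop := (2 - ρ) * (2 - ρ * (1 + v)) * Y3 ρ v τ ≤ ρ ^ 2 * (1 + v) * Y4 ρ v τ

/-! ## elimination of the excursions -/

/-- one chain -/
lemma elim1 {K q e e' d : ℝ} (hq : 0 ≤ q) (he : e' ≤ e) (he' : 0 < e') (hd : 0 ≤ d) :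
    (0 ≤ -(K * d) + 4 * e * (q * d + d ^ 2)) ∨ (4 * e' * q ≤ K ∧
      -(K ^ 2 / (16 * e') - e' * q ^ 2) ≤ -(K * d) + 4 * e * (q * d + d ^ 2)) := by
  have h1 : 4 * e' * (q * d + d ^ 2) ≤ 4 * e * (q * d + d ^ 2) := by
    have : 0 ≤ q * d + d ^ 2 := by positivity
    nlinarith
  rcases le_total (4 * e' * q) K with h | h
  · right
    refine ⟨h, le_trans ?_ (by linarith : -(K * d) + 4 * e' * (q * d + d ^ 2) ≤ _)⟩
    have h2 : -(K ^ 2 / (16 * e') - e' * q ^ 2) =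
        -(K * d) + 4 * e' * (q * d + d ^ 2) -
          ((K - 4 * e' * q - 8 * e' * d) ^ 2 / (16 * e') + q * (K - 4 * e' * q) / 2) := by
      field_simp
      ring
    have h3 : 0 ≤ (K - 4 * e' * q - 8 * e' * d) ^ 2 / (16 * e') := by positivity
    have h4 : 0 ≤ q * (K - 4 * e' * q) / 2 := by
      have := mul_nonneg hq (sub_nonneg.2 h)
      linarith
    rw [h2]; linarith
  · left
    have h2 : 0 ≤ 4 * e' * q * d - K * d := by nlinarith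
    have h3 : 0 ≤ 4 * e' * d ^ 2 := by positivity
    nlinarith

/-- both chains -/
lemma elim2 {base K qR qL eR eR' eL eL' dR dL : ℝ} (hqR : 0 ≤ qR) (hqL : 0 ≤ qL) (heR : eR' ≤ eR)
    (heR' : 0 < eR') (heL : eL' ≤ eL) (heL' : 0 < eL') (hdR : 0 ≤ dR) (hdL : 0 ≤ dL)
    (h0 : 0 ≤ base)
    (hR : 4 * eR' * qR ≤ K → K ^ 2 / (16 * eR') - eR' * qR ^ 2 ≤ base)
    (hL : 4 * eL' * qL ≤ K → K ^ 2 / (16 * eL') - eL' * qL ^ 2 ≤ base)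
    (hRL : 4 * eR' * qR ≤ K → 4 * eL' * qL ≤ K →
      (K ^ 2 / (16 * eR') - eR' * qR ^ 2) + (K ^ 2 / (16 * eL') - eL' * qL ^ 2) ≤ base) :
    0 ≤ base - K * (dR + dL) + 4 * eR * (qR * dR + dR ^ 2) + 4 * eL * (qL * dL + dL ^ 2) := by
  rcases elim1 (K := K) hqR heR heR' hdR with r | ⟨r1, r2⟩ <;>
    rcases elim1 (K := K) hqL heL heL' hdL with l | ⟨l1, l2⟩
  · linarith
  · linarith [hL l1]
  · linarith [hR r1]
  · linarith [hRL r1 l1]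

lemma arcU {τ q s X Y : ℝ} (hY : Y ≠ 0) (h : Y = 1 - τ * q / 2) :
    (τ * q ^ 2 - s) * (X / Y) = X * ((2 * q - s) * (1 + τ * q / 2) - 2 * q) +
      X * (2 * q - s) * (τ ^ 2 * q ^ 2 / 4) * (1 / Y) := by
  field_simp
  rw [h]; ring

lemma arcD {τ q s X Y : ℝ} (hY : Y ≠ 0) (h : Y = 1 + τ * q / 2) :
    (τ * q ^ 2 - s) * (X / Y) = -(X * ((2 * q + s) * (1 - τ * q / 2) - 2 * q)) -
      X * (2 * q + s) * (τ ^ 2 * q ^ 2 / 4) * (1 / Y) := by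
  field_simp
  rw [h]; ring

set_option maxRecDepth 20000 in
lemma base_id {kap A B ρ v τ t P R : ℝ} (h1 : Y1 ρ v τ ≠ 0) (h2 : Y2 ρ v τ ≠ 0)
    (h3 : Y3 ρ v τ ≠ 0) (h4 : Y4 ρ v τ ≠ 0) :
    FF τ (1 - ρ * (1 - v)) (ρ * (1 + v) - 1) t P R +
      τ * ((1 - ρ * (1 - v)) + (ρ * (1 + v) - 1)) * (1 / 6 - t ^ 2 / 2) +
      (kap * ((1 - (1 - ρ * (1 - v)) ^ 2) / 2 * (P + τ * t / 2) +
          (1 - (ρ * (1 + v) - 1) ^ 2) / 2 * (R + τ * t / 2)) - τ * (A + B * t)) *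
        (((1 - (1 - ρ * (1 - v)) ^ 2) * P + (1 - (ρ * (1 + v) - 1) ^ 2) * R) / 2 -
          ((1 - ρ * (1 - v)) + (ρ * (1 + v) - 1)) * (t - 1 / 2)) =
    ρ * Fe kap A B ρ v τ (1 / Y1 ρ v τ) (1 / Y2 ρ v τ) (1 / Y3 ρ v τ) (1 / Y4 ρ v τ) 1 (-R)
        ((P + R) / 2) (t - 1 / 2 - (1 - ρ) * R) +
      1 / 2 * (1 - τ ^ 2) * (1 - (1 - ρ * (1 - v)) ^ 2) * (1 - (ρ * (1 + v) - 1) ^ 2) *
        ((1 - ρ * (1 - v)) * P - (ρ * (1 + v) - 1) * R) ^ 2 /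
      ((1 - (1 - ρ * (1 - v)) ^ 2) * (1 - τ * (ρ * (1 + v) - 1)) +
        (1 - (ρ * (1 + v) - 1) ^ 2) * (1 - τ * (1 - ρ * (1 - v)))) := by
  have e1 : (1 - τ * (1 + (1 - ρ * (1 - v))) / 2) = Y1 ρ v τ := by unfold Y1; ring
  have e2 : (1 + τ * (1 - (1 - ρ * (1 - v))) / 2) = Y2 ρ v τ := by unfold Y2; ring
  have e3 : (1 - τ * (1 + (ρ * (1 + v) - 1)) / 2) = Y3 ρ v τ := by unfold Y3; ring
  have e4 : (1 + τ * (1 - (ρ * (1 + v) - 1)) / 2) = Y4 ρ v τ := by unfold Y4; ring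
  unfold FF
  rw [e1, e2, e3, e4, arcU h1 e1.symm, arcD h2 e2.symm, arcU h3 e3.symm, arcD h4 e4.symm]
  generalize ((1 - (1 - ρ * (1 - v)) ^ 2) * (1 - τ * (ρ * (1 + v) - 1)) +
        (1 - (ρ * (1 + v) - 1) ^ 2) * (1 - τ * (1 - ρ * (1 - v)))) = D
  unfold Fe G1 G2 G3 G4 lN lP lt
  generalize (1 / Y1 ρ v τ) = j1
  generalize (1 / Y2 ρ v τ) = j2
  generalize (1 / Y3 ρ v τ) = j3
  generalize (1 / Y4 ρ v τ) = j4
  ring

lemma two_sub_le_inv {Y : ℝ} (hY : 0 < Y) : 2 - Y ≤ 1 / Y := by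
  rw [le_div_iff₀ hY]
  nlinarith [sq_nonneg (1 - Y)]

lemma Fb_le_Fe {kap A B ρ v τ o η y z : ℝ} (h1 : 0 < Y1 ρ v τ) (h2 : 0 < Y2 ρ v τ)
    (h3 : 0 < Y3 ρ v τ) (h4 : 0 < Y4 ρ v τ) (hρ : 0 ≤ ρ) (hρ1 : ρ ≤ 1) (hv : -1 ≤ v)
    (hv1 : v ≤ 1) :
    Fb kap A B ρ v τ o η y z ≤
      Fe kap A B ρ v τ (1 / Y1 ρ v τ) (1 / Y2 ρ v τ) (1 / Y3 ρ v τ) (1 / Y4 ρ v τ) o η y z := by
  have a1 := two_sub_le_inv h1
  have a2 := two_sub_le_inv h2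
  have a3 := two_sub_le_inv h3
  have a4 := two_sub_le_inv h4
  unfold Fb Fe
  have q1 : 0 ≤ 1 - v := by linarith
  have q2 : 0 ≤ 1 + v := by linarith
  have q3 : 0 ≤ 2 - ρ * (1 - v) := by nlinarith
  have q4 : 0 ≤ 2 - ρ * (1 + v) := by nlinarith
  have q5 : 0 ≤ 4 - 2 * ρ := by linarith
  have q6 : 0 ≤ ρ * (1 - v) := by positivity
  have q7 : 0 ≤ ρ * (1 + v) := by positivity
  have b1 : (4 - 2 * ρ) * (2 - ρ * (1 - v)) * (2 - Y1 ρ v τ) * G1 ρ v o η y z ^ 2 ≤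
      (4 - 2 * ρ) * (2 - ρ * (1 - v)) * (1 / Y1 ρ v τ) * G1 ρ v o η y z ^ 2 := by gcongr
  have b2 : 2 * ρ * (ρ * (1 - v)) * (2 - Y2 ρ v τ) * G2 ρ v o η y z ^ 2 ≤
      2 * ρ * (ρ * (1 - v)) * (1 / Y2 ρ v τ) * G2 ρ v o η y z ^ 2 := by gcongr
  have b3 : 2 * ρ * (ρ * (1 + v)) * (2 - Y3 ρ v τ) * G3 ρ v o η z ^ 2 ≤
      2 * ρ * (ρ * (1 + v)) * (1 / Y3 ρ v τ) * G3 ρ v o η z ^ 2 := by gcongr
  have b4 : (4 - 2 * ρ) * (2 - ρ * (1 + v)) * (2 - Y4 ρ v τ) * G4 ρ v o η z ^ 2 ≤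
      (4 - 2 * ρ) * (2 - ρ * (1 + v)) * (1 / Y4 ρ v τ) * G4 ρ v o η z ^ 2 := by gcongr
  have c1 : (1 - v) * (2 - ρ * (1 - v)) *
        ((4 - 2 * ρ) * (2 - ρ * (1 - v)) * (2 - Y1 ρ v τ) * G1 ρ v o η y z ^ 2 +
          2 * ρ * (ρ * (1 - v)) * (2 - Y2 ρ v τ) * G2 ρ v o η y z ^ 2) ≤
      (1 - v) * (2 - ρ * (1 - v)) *
        ((4 - 2 * ρ) * (2 - ρ * (1 - v)) * (1 / Y1 ρ v τ) * G1 ρ v o η y z ^ 2 +
          2 * ρ * (ρ * (1 - v)) * (1 / Y2 ρ v τ) * G2 ρ v o η y z ^ 2) := by gcongr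
  have c2 : (1 + v) * (2 - ρ * (1 + v)) *
        (2 * ρ * (ρ * (1 + v)) * (2 - Y3 ρ v τ) * G3 ρ v o η z ^ 2 +
          (4 - 2 * ρ) * (2 - ρ * (1 + v)) * (2 - Y4 ρ v τ) * G4 ρ v o η z ^ 2) ≤
      (1 + v) * (2 - ρ * (1 + v)) *
        (2 * ρ * (ρ * (1 + v)) * (1 / Y3 ρ v τ) * G3 ρ v o η z ^ 2 +
          (4 - 2 * ρ) * (2 - ρ * (1 + v)) * (1 / Y4 ρ v τ) * G4 ρ v o η z ^ 2) := by gcongr
  have d : τ ^ 2 / 32 *
      ((1 - v) * (2 - ρ * (1 - v)) *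
        ((4 - 2 * ρ) * (2 - ρ * (1 - v)) * (2 - Y1 ρ v τ) * G1 ρ v o η y z ^ 2 +
          2 * ρ * (ρ * (1 - v)) * (2 - Y2 ρ v τ) * G2 ρ v o η y z ^ 2) +
       (1 + v) * (2 - ρ * (1 + v)) *
        (2 * ρ * (ρ * (1 + v)) * (2 - Y3 ρ v τ) * G3 ρ v o η z ^ 2 +
          (4 - 2 * ρ) * (2 - ρ * (1 + v)) * (2 - Y4 ρ v τ) * G4 ρ v o η z ^ 2)) ≤
      τ ^ 2 / 32 *
      ((1 - v) * (2 - ρ * (1 - v)) *
        ((4 - 2 * ρ) * (2 - ρ * (1 - v)) * (1 / Y1 ρ v τ) * G1 ρ v o η y z ^ 2 +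
          2 * ρ * (ρ * (1 - v)) * (1 / Y2 ρ v τ) * G2 ρ v o η y z ^ 2) +
       (1 + v) * (2 - ρ * (1 + v)) *
        (2 * ρ * (ρ * (1 + v)) * (1 / Y3 ρ v τ) * G3 ρ v o η z ^ 2 +
          (4 - 2 * ρ) * (2 - ρ * (1 + v)) * (1 / Y4 ρ v τ) * G4 ρ v o η z ^ 2)) := by gcongr
  linarith

lemma arcs_min {N1 N2 D1 D2 e : ℝ} (hN1 : 0 < N1) (hN2 : 0 < N2) (hD1 : 0 ≤ D1) (hD2 : 0 ≤ D2)
    (he : 0 ≤ e) (h : e * D1 = N1 ∨ e * D2 = N2) :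
    (N1 * D2 ≤ N2 * D1 ∧ ∃ e', 0 < e' ∧ e' ≤ e ∧ e' * D1 = N1) ∨
      (N2 * D1 ≤ N1 * D2 ∧ ∃ e', 0 < e' ∧ e' ≤ e ∧ e' * D2 = N2) := by
  rcases le_total (N1 * D2) (N2 * D1) with hc | hc
  · left
    refine ⟨hc, ?_⟩
    have hD : 0 < D1 := by
      rcases hD1.lt_or_eq with h1 | h1
      · exact h1
      · exfalso
        rw [← h1] at hc h
        have h2 : D2 ≤ 0 := by nlinarith
        have h3 : D2 = 0 := le_antisymm h2 hD2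
        rw [h3] at h
        rcases h with h | h <;> linarith
    refine ⟨N1 / D1, by positivity, ?_, by field_simp⟩
    rcases h with h | h
    · rw [div_le_iff₀ hD]; linarith
    · have hD2' : 0 < D2 := by
        rcases hD2.lt_or_eq with h1 | h1
        · exact h1
        · rw [← h1] at h; linarith
      rw [div_le_iff₀ hD]
      have : N1 * D2 ≤ e * D1 * D2 := by rw [← h] at hc; nlinarith
      nlinarith
  · right
    refine ⟨hc, ?_⟩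
    have hD : 0 < D2 := by
      rcases hD2.lt_or_eq with h1 | h1
      · exact h1
      · exfalso
        rw [← h1] at hc h
        have h2 : D1 ≤ 0 := by nlinarith
        have h3 : D1 = 0 := le_antisymm h2 hD1
        rw [h3] at h
        rcases h with h | h <;> linarith
    refine ⟨N2 / D2, by positivity, ?_, by field_simp⟩
    rcases h with h | h
    · have hD2' : 0 < D1 := by
        rcases hD1.lt_or_eq with h1 | h1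
        · exact h1
        · rw [← h1] at h; linarith
      rw [div_le_iff₀ hD]
      have : N2 * D1 ≤ e * D2 * D1 := by rw [← h] at hc; nlinarith
      nlinarith
    · rw [div_le_iff₀ hD]; linarith

/-- excursion value bounded by the polynomial form -/
lemma G_le {K e p U W : ℝ} (he : 0 < e) (hU : 1 ≤ e * U) (hW : W ≤ e * p ^ 2) :
    K ^ 2 / (16 * e) - e * |p| ^ 2 ≤ K ^ 2 * U / 16 - W := by
  rw [sq_abs]
  have h1 : K ^ 2 / (16 * e) ≤ K ^ 2 * U / 16 := by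
    rw [div_le_div_iff₀ (by positivity) (by norm_num)]
    have : 0 ≤ K ^ 2 := sq_nonneg K
    nlinarith
  linarith

lemma G1_le {kap m ρ v τ o η y z e : ℝ} (hρ : 0 < ρ) (hρ1 : ρ ≤ 1) (hv1 : v ≤ 1)
    (hm : 1 ≤ m * (2 - ρ)) (hY : 0 < Y1 ρ v τ) (he : 0 < e)
    (hee : e * (ρ * (1 - v) * Y1 ρ v τ) = 2 - ρ) :
    (kap * |ρ * lN ρ v η y z|) ^ 2 / (16 * e) -
        e * |ρ * (1 - v) * (2 - ρ * (1 - v)) * lp1 ρ τ o η y z| ^ 2 ≤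
      -(ρ * X1 kap m ρ v τ o η y z) := by
  have h := G_le (K := kap * |ρ * lN ρ v η y z|) (e := e)
    (p := ρ * (1 - v) * (2 - ρ * (1 - v)) * lp1 ρ τ o η y z) (U := ρ * (1 - v) * Y1 ρ v τ * m)
    (W := ρ * ((2 - ρ) * (1 - v) * (2 - ρ * (1 - v)) ^ 2 * (2 - Y1 ρ v τ) * lp1 ρ τ o η y z ^ 2)) he
    (by nlinarith) ?_
  · refine h.trans (le_of_eq ?_)
    rw [mul_pow, sq_abs]
    unfold X1
    ring
  · have h2 := two_sub_le_inv hY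
    have h3 : e * (ρ * (1 - v)) = (2 - ρ) * (1 / Y1 ρ v τ) := by
      rw [← hee]; field_simp
    have h4 : e * (ρ * (1 - v) * (2 - ρ * (1 - v)) * lp1 ρ τ o η y z) ^ 2 =
        (e * (ρ * (1 - v))) * (ρ * (1 - v) * ((2 - ρ * (1 - v)) * lp1 ρ τ o η y z) ^ 2) := by ring
    rw [h4, h3]
    have h5 : 0 ≤ (2 - ρ) * (ρ * (1 - v) * ((2 - ρ * (1 - v)) * lp1 ρ τ o η y z) ^ 2) := by
      have : 0 ≤ 1 - v := by linarith
      have : 0 ≤ 2 - ρ := by linarith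
      positivity
    nlinarith

lemma G2_le {kap ρ v τ o η y z e : ℝ} (hρ : 0 < ρ) (hρ1 : ρ ≤ 1) (hv : -1 ≤ v)
    (hY : 0 < Y2 ρ v τ) (he : 0 < e)
    (hee : e * ((2 - ρ * (1 - v)) * Y2 ρ v τ) = ρ) :
    (kap * |ρ * lN ρ v η y z|) ^ 2 / (16 * e) -
        e * |ρ * (1 - v) * (2 - ρ * (1 - v)) * lp1 ρ τ o η y z| ^ 2 ≤
      -(ρ * X2 kap ρ v τ o η y z) := by
  have h := G_le (K := kap * |ρ * lN ρ v η y z|) (e := e)
    (p := ρ * (1 - v) * (2 - ρ * (1 - v)) * lp1 ρ τ o η y z) (U := (2 - ρ * (1 - v)) * Y2 ρ v τ / ρ)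
    (W := ρ * (ρ ^ 2 * (1 - v) ^ 2 * (2 - ρ * (1 - v)) * (2 - Y2 ρ v τ) * lp1 ρ τ o η y z ^ 2)) he
    (by rw [← mul_div_assoc, hee]; exact le_of_eq (div_self hρ.ne').symm) ?_
  · refine h.trans (le_of_eq ?_)
    rw [mul_pow, sq_abs]
    unfold X2
    field_simp
    ring
  · have h2 := two_sub_le_inv hY
    have h3 : e * (2 - ρ * (1 - v)) = ρ * (1 / Y2 ρ v τ) := by
      rw [eq_comm, ← eq_div_iff (by positivity : (1 / Y2 ρ v τ) ≠ 0)]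
      conv_lhs => rw [← hee]
      field_simp
    have h4 : e * (ρ * (1 - v) * (2 - ρ * (1 - v)) * lp1 ρ τ o η y z) ^ 2 =
        (e * (2 - ρ * (1 - v))) * ((2 - ρ * (1 - v)) * (ρ * (1 - v) * lp1 ρ τ o η y z) ^ 2) := by ring
    rw [h4, h3]
    have h5 : 0 ≤ ρ * ((2 - ρ * (1 - v)) * (ρ * (1 - v) * lp1 ρ τ o η y z) ^ 2) := by
      have : 0 ≤ 2 - ρ * (1 - v) := by nlinarith
      positivity
    nlinarith

lemma G3_le {kap ρ v τ o η y z e : ℝ} (hρ : 0 < ρ) (hρ1 : ρ ≤ 1) (hv : v ≤ 1)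
    (hY : 0 < Y3 ρ v τ) (he : 0 < e)
    (hee : e * ((2 - ρ * (1 + v)) * Y3 ρ v τ) = ρ) :
    (kap * |ρ * lN ρ v η y z|) ^ 2 / (16 * e) -
        e * |ρ * (1 + v) * (2 - ρ * (1 + v)) * lr1 ρ τ o η z| ^ 2 ≤
      -(ρ * X3 kap ρ v τ o η y z) := by
  have h := G_le (K := kap * |ρ * lN ρ v η y z|) (e := e)
    (p := ρ * (1 + v) * (2 - ρ * (1 + v)) * lr1 ρ τ o η z) (U := (2 - ρ * (1 + v)) * Y3 ρ v τ / ρ)
    (W := ρ * (ρ ^ 2 * (1 + v) ^ 2 * (2 - ρ * (1 + v)) * (2 - Y3 ρ v τ) * lr1 ρ τ o η z ^ 2)) he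
    (by rw [← mul_div_assoc, hee]; exact le_of_eq (div_self hρ.ne').symm) ?_
  · refine h.trans (le_of_eq ?_)
    rw [mul_pow, sq_abs]
    unfold X3
    field_simp
    ring
  · have h2 := two_sub_le_inv hY
    have h3 : e * (2 - ρ * (1 + v)) = ρ * (1 / Y3 ρ v τ) := by
      rw [eq_comm, ← eq_div_iff (by positivity : (1 / Y3 ρ v τ) ≠ 0)]
      conv_lhs => rw [← hee]
      field_simp
    have h4 : e * (ρ * (1 + v) * (2 - ρ * (1 + v)) * lr1 ρ τ o η z) ^ 2 =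
        (e * (2 - ρ * (1 + v))) * ((2 - ρ * (1 + v)) * (ρ * (1 + v) * lr1 ρ τ o η z) ^ 2) := by ring
    rw [h4, h3]
    have h5 : 0 ≤ ρ * ((2 - ρ * (1 + v)) * (ρ * (1 + v) * lr1 ρ τ o η z) ^ 2) := by
      have : 0 ≤ 2 - ρ * (1 + v) := by nlinarith
      positivity
    nlinarith

lemma G4_le {kap m ρ v τ o η y z e : ℝ} (hρ : 0 < ρ) (hρ1 : ρ ≤ 1) (hv : -1 ≤ v)
    (hm : 1 ≤ m * (2 - ρ)) (hY : 0 < Y4 ρ v τ) (he : 0 < e)
    (hee : e * (ρ * (1 + v) * Y4 ρ v τ) = 2 - ρ) :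
    (kap * |ρ * lN ρ v η y z|) ^ 2 / (16 * e) -
        e * |ρ * (1 + v) * (2 - ρ * (1 + v)) * lr1 ρ τ o η z| ^ 2 ≤
      -(ρ * X4 kap m ρ v τ o η y z) := by
  have h := G_le (K := kap * |ρ * lN ρ v η y z|) (e := e)
    (p := ρ * (1 + v) * (2 - ρ * (1 + v)) * lr1 ρ τ o η z) (U := ρ * (1 + v) * Y4 ρ v τ * m)
    (W := ρ * ((2 - ρ) * (1 + v) * (2 - ρ * (1 + v)) ^ 2 * (2 - Y4 ρ v τ) * lr1 ρ τ o η z ^ 2)) he
    (by nlinarith) ?_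
  · refine h.trans (le_of_eq ?_)
    rw [mul_pow, sq_abs]
    unfold X4
    ring
  · have h2 := two_sub_le_inv hY
    have h3 : e * (ρ * (1 + v)) = (2 - ρ) * (1 / Y4 ρ v τ) := by
      rw [← hee]; field_simp
    have h4 : e * (ρ * (1 + v) * (2 - ρ * (1 + v)) * lr1 ρ τ o η z) ^ 2 =
        (e * (ρ * (1 + v))) * (ρ * (1 + v) * ((2 - ρ * (1 + v)) * lr1 ρ τ o η z) ^ 2) := by ring
    rw [h4, h3]
    have h5 : 0 ≤ (2 - ρ) * (ρ * (1 + v) * ((2 - ρ * (1 + v)) * lr1 ρ τ o η z) ^ 2) := by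
      have : 0 ≤ 1 + v := by linarith
      have : 0 ≤ 2 - ρ := by linarith
      positivity
    nlinarith

lemma sq_le_of_abs {x y : ℝ} (h : |x| ≤ |y|) : 0 ≤ y ^ 2 - x ^ 2 := by
  have := sq_le_sq.2 h
  linarith

lemma C1_of {kap ρ v τ o η y z e : ℝ} (hρ : 0 < ρ) (hρ1 : ρ ≤ 1) (hv : -1 ≤ v) (hv1 : v ≤ 1)
    (hk : 0 ≤ kap) (hY : 0 < Y1 ρ v τ) (hee : e * (ρ * (1 - v) * Y1 ρ v τ) = 2 - ρ)
    (h : 4 * e * |ρ * (1 - v) * (2 - ρ * (1 - v)) * lp1 ρ τ o η y z| ≤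
      kap * |ρ * lN ρ v η y z|) : 0 ≤ C1 kap ρ v τ o η y z := by
  have q1 : 0 ≤ 1 - v := by linarith
  have q3 : 0 ≤ 2 - ρ * (1 - v) := by nlinarith
  have hh : |4 * (2 - ρ) * (2 - ρ * (1 - v)) * lp1 ρ τ o η y z| ≤
      |kap * ρ * Y1 ρ v τ * lN ρ v η y z| := by
    have e1 : |4 * (2 - ρ) * (2 - ρ * (1 - v)) * lp1 ρ τ o η y z| =
        (4 * e * |ρ * (1 - v) * (2 - ρ * (1 - v)) * lp1 ρ τ o η y z|) * Y1 ρ v τ := by
      rw [abs_mul, abs_mul (ρ * (1 - v) * (2 - ρ * (1 - v))), ← hee,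
        abs_of_nonneg (by positivity : 0 ≤ ρ * (1 - v) * (2 - ρ * (1 - v))),
        abs_of_nonneg (by rw [hee]; have : 0 ≤ 2 - ρ := by linarith
                          positivity)]
      ring
    have e2 : |kap * ρ * Y1 ρ v τ * lN ρ v η y z| =
        (kap * |ρ * lN ρ v η y z|) * Y1 ρ v τ := by
      rw [abs_mul, abs_mul ρ, abs_of_nonneg (by positivity : 0 ≤ kap * ρ * Y1 ρ v τ),
        abs_of_nonneg hρ.le]
      ring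
    rw [e1, e2]
    exact mul_le_mul_of_nonneg_right h hY.le
  have := sq_le_of_abs hh
  unfold C1
  nlinarith

lemma C4_of {kap ρ v τ o η y z e : ℝ} (hρ : 0 < ρ) (hρ1 : ρ ≤ 1) (hv : -1 ≤ v) (hv1 : v ≤ 1)
    (hk : 0 ≤ kap) (hY : 0 < Y4 ρ v τ) (hee : e * (ρ * (1 + v) * Y4 ρ v τ) = 2 - ρ)
    (h : 4 * e * |ρ * (1 + v) * (2 - ρ * (1 + v)) * lr1 ρ τ o η z| ≤
      kap * |ρ * lN ρ v η y z|) : 0 ≤ C4 kap ρ v τ o η y z := by
  have q1 : 0 ≤ 1 + v := by linarith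
  have q3 : 0 ≤ 2 - ρ * (1 + v) := by nlinarith
  have hh : |4 * (2 - ρ) * (2 - ρ * (1 + v)) * lr1 ρ τ o η z| ≤
      |kap * ρ * Y4 ρ v τ * lN ρ v η y z| := by
    have e1 : |4 * (2 - ρ) * (2 - ρ * (1 + v)) * lr1 ρ τ o η z| =
        (4 * e * |ρ * (1 + v) * (2 - ρ * (1 + v)) * lr1 ρ τ o η z|) * Y4 ρ v τ := by
      rw [abs_mul, abs_mul (ρ * (1 + v) * (2 - ρ * (1 + v))), ← hee,
        abs_of_nonneg (by positivity : 0 ≤ ρ * (1 + v) * (2 - ρ * (1 + v))),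
        abs_of_nonneg (by rw [hee]; have : 0 ≤ 2 - ρ := by linarith
                          positivity)]
      ring
    have e2 : |kap * ρ * Y4 ρ v τ * lN ρ v η y z| =
        (kap * |ρ * lN ρ v η y z|) * Y4 ρ v τ := by
      rw [abs_mul, abs_mul ρ, abs_of_nonneg (by positivity : 0 ≤ kap * ρ * Y4 ρ v τ),
        abs_of_nonneg hρ.le]
      ring
    rw [e1, e2]
    exact mul_le_mul_of_nonneg_right h hY.le
  have := sq_le_of_abs hh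
  unfold C4
  nlinarith

lemma C2_of {kap ρ v τ o η y z e : ℝ} (hρ : 0 < ρ) (hρ1 : ρ ≤ 1) (hv : -1 ≤ v) (hv1 : v ≤ 1)
    (hk : 0 ≤ kap) (hY : 0 < Y2 ρ v τ) (hee : e * ((2 - ρ * (1 - v)) * Y2 ρ v τ) = ρ)
    (h : 4 * e * |ρ * (1 - v) * (2 - ρ * (1 - v)) * lp1 ρ τ o η y z| ≤
      kap * |ρ * lN ρ v η y z|) : 0 ≤ C2 kap ρ v τ o η y z := by
  have q1 : 0 ≤ 1 - v := by linarith
  have q3 : 0 ≤ 2 - ρ * (1 - v) := by nlinarith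
  have hh : |4 * ρ * (1 - v) * lp1 ρ τ o η y z| ≤ |kap * Y2 ρ v τ * lN ρ v η y z| := by
    have e1 : |4 * ρ * (1 - v) * lp1 ρ τ o η y z| * ρ =
        (4 * e * |ρ * (1 - v) * (2 - ρ * (1 - v)) * lp1 ρ τ o η y z|) * Y2 ρ v τ := by
      rw [abs_mul, abs_mul (ρ * (1 - v) * (2 - ρ * (1 - v))),
        abs_of_nonneg (by positivity : 0 ≤ ρ * (1 - v) * (2 - ρ * (1 - v))),
        abs_of_nonneg (by positivity : 0 ≤ 4 * ρ * (1 - v))]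
      linear_combination (-(4 * ρ * (1 - v) * |lp1 ρ τ o η y z|)) * hee
    have e2 : |kap * Y2 ρ v τ * lN ρ v η y z| * ρ =
        (kap * |ρ * lN ρ v η y z|) * Y2 ρ v τ := by
      rw [abs_mul, abs_mul ρ, abs_of_nonneg (by positivity : 0 ≤ kap * Y2 ρ v τ),
        abs_of_nonneg hρ.le]
      ring
    refine le_of_mul_le_mul_right ?_ hρ
    rw [e1, e2]
    exact mul_le_mul_of_nonneg_right h hY.le
  have := sq_le_of_abs hh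
  unfold C2
  nlinarith

lemma C3_of {kap ρ v τ o η y z e : ℝ} (hρ : 0 < ρ) (hρ1 : ρ ≤ 1) (hv : -1 ≤ v) (hv1 : v ≤ 1)
    (hk : 0 ≤ kap) (hY : 0 < Y3 ρ v τ) (hee : e * ((2 - ρ * (1 + v)) * Y3 ρ v τ) = ρ)
    (h : 4 * e * |ρ * (1 + v) * (2 - ρ * (1 + v)) * lr1 ρ τ o η z| ≤
      kap * |ρ * lN ρ v η y z|) : 0 ≤ C3 kap ρ v τ o η y z := by
  have q1 : 0 ≤ 1 + v := by linarith
  have q3 : 0 ≤ 2 - ρ * (1 + v) := by nlinarith
  have hh : |4 * ρ * (1 + v) * lr1 ρ τ o η z| ≤ |kap * Y3 ρ v τ * lN ρ v η y z| := by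
    have e1 : |4 * ρ * (1 + v) * lr1 ρ τ o η z| * ρ =
        (4 * e * |ρ * (1 + v) * (2 - ρ * (1 + v)) * lr1 ρ τ o η z|) * Y3 ρ v τ := by
      rw [abs_mul, abs_mul (ρ * (1 + v) * (2 - ρ * (1 + v))),
        abs_of_nonneg (by positivity : 0 ≤ ρ * (1 + v) * (2 - ρ * (1 + v))),
        abs_of_nonneg (by positivity : 0 ≤ 4 * ρ * (1 + v))]
      linear_combination (-(4 * ρ * (1 + v) * |lr1 ρ τ o η z|)) * hee
    have e2 : |kap * Y3 ρ v τ * lN ρ v η y z| * ρ =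
        (kap * |ρ * lN ρ v η y z|) * Y3 ρ v τ := by
      rw [abs_mul, abs_mul ρ, abs_of_nonneg (by positivity : 0 ≤ kap * Y3 ρ v τ),
        abs_of_nonneg hρ.le]
      ring
    refine le_of_mul_le_mul_right ?_ hρ
    rw [e1, e2]
    exact mul_le_mul_of_nonneg_right h hY.le
  have := sq_le_of_abs hh
  unfold C3
  nlinarith

/-- **the case list** at one state: no excursion; one excursion (arc 1, 2 of chain R, arc 3, 4 of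
chain L); two excursions -/
def Cases (kap A B ρ v τ o η y z : ℝ) : Prop :=
  0 ≤ Fb kap A B ρ v τ o η y z ∧
  (R1 ρ v τ → 0 ≤ C1 kap ρ v τ o η y z →
    ∃ m, 1 ≤ m * (2 - ρ) ∧ 0 ≤ Fb kap A B ρ v τ o η y z + X1 kap m ρ v τ o η y z) ∧
  (R2 ρ v τ → 0 ≤ C2 kap ρ v τ o η y z →
    0 ≤ Fb kap A B ρ v τ o η y z + X2 kap ρ v τ o η y z) ∧
  (L3 ρ v τ → 0 ≤ C3 kap ρ v τ o η y z →
    0 ≤ Fb kap A B ρ v τ o η y z + X3 kap ρ v τ o η y z) ∧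
  (L4 ρ v τ → 0 ≤ C4 kap ρ v τ o η y z →
    ∃ m, 1 ≤ m * (2 - ρ) ∧ 0 ≤ Fb kap A B ρ v τ o η y z + X4 kap m ρ v τ o η y z) ∧
  (R1 ρ v τ → L3 ρ v τ → 0 ≤ C1 kap ρ v τ o η y z → 0 ≤ C3 kap ρ v τ o η y z →
    ∃ m, 1 ≤ m * (2 - ρ) ∧
      0 ≤ Fb kap A B ρ v τ o η y z + X1 kap m ρ v τ o η y z + X3 kap ρ v τ o η y z) ∧
  (R1 ρ v τ → L4 ρ v τ → 0 ≤ C1 kap ρ v τ o η y z → 0 ≤ C4 kap ρ v τ o η y z →
    ∃ m, 1 ≤ m * (2 - ρ) ∧
      0 ≤ Fb kap A B ρ v τ o η y z + X1 kap m ρ v τ o η y z + X4 kap m ρ v τ o η y z) ∧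
  (R2 ρ v τ → L3 ρ v τ → 0 ≤ C2 kap ρ v τ o η y z → 0 ≤ C3 kap ρ v τ o η y z →
    0 ≤ Fb kap A B ρ v τ o η y z + X2 kap ρ v τ o η y z + X3 kap ρ v τ o η y z) ∧
  (R2 ρ v τ → L4 ρ v τ → 0 ≤ C2 kap ρ v τ o η y z → 0 ≤ C4 kap ρ v τ o η y z →
    ∃ m, 1 ≤ m * (2 - ρ) ∧
      0 ≤ Fb kap A B ρ v τ o η y z + X2 kap ρ v τ o η y z + X4 kap m ρ v τ o η y z)

lemma Y_pos {ρ v τ : ℝ} (hτ : -1 < τ) (hτ1 : τ < 1) (hρ : 0 < ρ) (hρ1 : ρ ≤ 1) (hv : -1 ≤ v)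
    (hv1 : v ≤ 1) : 0 < Y1 ρ v τ ∧ 0 < Y2 ρ v τ ∧ 0 < Y3 ρ v τ ∧ 0 < Y4 ρ v τ := by
  have a1 : 0 ≤ ρ * (1 - v) := mul_nonneg hρ.le (by linarith)
  have a2 : 0 ≤ ρ * (1 + v) := mul_nonneg hρ.le (by linarith)
  have a3 : ρ * (1 - v) ≤ 2 := by nlinarith
  have a4 : ρ * (1 + v) ≤ 2 := by nlinarith
  unfold Y1 Y2 Y3 Y4
  refine ⟨?_, ?_, ?_, ?_⟩ <;> nlinarith

lemma q_nonneg {ρ v : ℝ} (hρ : 0 < ρ) (hρ1 : ρ ≤ 1) (hv : -1 ≤ v) (hv1 : v ≤ 1) :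
    0 ≤ 2 - ρ * (1 - v) ∧ 0 ≤ 2 - ρ * (1 + v) ∧ 0 ≤ ρ * (1 - v) ∧ 0 ≤ ρ * (1 + v) := by
  have q1 : 0 ≤ 1 - v := by linarith
  have q2 : 0 ≤ 1 + v := by linarith
  refine ⟨?_, ?_, by positivity, by positivity⟩ <;> nlinarith

lemma D_nonneg {ρ v τ P R : ℝ} (hτ : -1 < τ) (hτ1 : τ < 1)
    (hρ : 0 < ρ) (hρ1 : ρ ≤ 1) (hv : -1 ≤ v) (hv1 : v ≤ 1) :
    0 ≤ 1 / 2 * (1 - τ ^ 2) * (1 - (1 - ρ * (1 - v)) ^ 2) * (1 - (ρ * (1 + v) - 1) ^ 2) *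
        ((1 - ρ * (1 - v)) * P - (ρ * (1 + v) - 1) * R) ^ 2 /
      ((1 - (1 - ρ * (1 - v)) ^ 2) * (1 - τ * (ρ * (1 + v) - 1)) +
        (1 - (ρ * (1 + v) - 1) ^ 2) * (1 - τ * (1 - ρ * (1 - v)))) := by
  obtain ⟨q3, q4, hq1, hq2⟩ := q_nonneg hρ hρ1 hv hv1
  have e1 : (1 - (1 - ρ * (1 - v)) ^ 2) = (ρ * (1 - v)) * (2 - ρ * (1 - v)) := by ring
  have e2 : (1 - (ρ * (1 + v) - 1) ^ 2) = (ρ * (1 + v)) * (2 - ρ * (1 + v)) := by ring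
  rw [e1, e2]
  have e3 : 0 ≤ 1 - τ ^ 2 := by nlinarith
  have h2 : |τ| ≤ 1 := by rw [abs_le]; constructor <;> linarith
  have e4 : 0 ≤ 1 - τ * (ρ * (1 + v) - 1) := by
    have : |ρ * (1 + v) - 1| ≤ 1 := by rw [abs_le]; constructor <;> linarith
    have h3 := abs_le.1 (by rw [abs_mul]; exact mul_le_one₀ h2 (abs_nonneg _) this :
      |τ * (ρ * (1 + v) - 1)| ≤ 1)
    linarith [h3.2]
  have e5 : 0 ≤ 1 - τ * (1 - ρ * (1 - v)) := by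
    have : |1 - ρ * (1 - v)| ≤ 1 := by rw [abs_le]; constructor <;> linarith
    have h3 := abs_le.1 (by rw [abs_mul]; exact mul_le_one₀ h2 (abs_nonneg _) this :
      |τ * (1 - ρ * (1 - v))| ≤ 1)
    linarith [h3.2]
  positivity

set_option maxRecDepth 20000 in
/-- **one state in the chart** -/
theorem state_of_cases {kap A B ρ v τ t P R dR dL eR eL : ℝ} (hτ : -1 < τ) (hτ1 : τ < 1)
    (hρ : 0 < ρ) (hρ1 : ρ ≤ 1) (hv : -1 ≤ v) (hv1 : v ≤ 1) (hk : 0 ≤ kap)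
    (hdR : 0 ≤ dR) (hdL : 0 ≤ dL) (heR : 0 ≤ eR) (heL : 0 ≤ eL)
    (hcR : eR * (2 * (1 - (1 - ρ * (1 - v))) * (1 - τ * (1 + (1 - ρ * (1 - v))) / 2)) =
        2 + ((1 - ρ * (1 - v)) - (ρ * (1 + v) - 1)) ∨
      eR * (2 * (1 + (1 - ρ * (1 - v))) * (1 + τ * (1 - (1 - ρ * (1 - v))) / 2)) =
        2 - ((1 - ρ * (1 - v)) - (ρ * (1 + v) - 1)))
    (hcL : eL * (2 * (1 - (ρ * (1 + v) - 1)) * (1 - τ * (1 + (ρ * (1 + v) - 1)) / 2)) =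
        2 - ((1 - ρ * (1 - v)) - (ρ * (1 + v) - 1)) ∨
      eL * (2 * (1 + (ρ * (1 + v) - 1)) * (1 + τ * (1 - (ρ * (1 + v) - 1)) / 2)) =
        2 + ((1 - ρ * (1 - v)) - (ρ * (1 + v) - 1)))
    (H : Cases kap A B ρ v τ 1 (-R) ((P + R) / 2) (t - 1 / 2 - (1 - ρ) * R)) :
    0 ≤ FF τ (1 - ρ * (1 - v)) (ρ * (1 + v) - 1) t P R +
      τ * ((1 - ρ * (1 - v)) + (ρ * (1 + v) - 1)) * (1 / 6 - t ^ 2 / 2) +
      (kap * ((1 - (1 - ρ * (1 - v)) ^ 2) / 2 * (P + τ * t / 2) +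
          (1 - (ρ * (1 + v) - 1) ^ 2) / 2 * (R + τ * t / 2)) - τ * (A + B * t)) *
        (((1 - (1 - ρ * (1 - v)) ^ 2) * P + (1 - (ρ * (1 + v) - 1) ^ 2) * R) / 2 -
          ((1 - ρ * (1 - v)) + (ρ * (1 + v) - 1)) * (t - 1 / 2)) -
      kap * |((1 - (1 - ρ * (1 - v)) ^ 2) * P + (1 - (ρ * (1 + v) - 1) ^ 2) * R) / 2 -
          ((1 - ρ * (1 - v)) + (ρ * (1 + v) - 1)) * (t - 1 / 2)| * (dR + dL) +
      4 * eR * (|(1 - (1 - ρ * (1 - v)) ^ 2) / 2 * (P + τ * t / 2)| * dR + dR ^ 2) +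
      4 * eL * (|(1 - (ρ * (1 + v) - 1) ^ 2) / 2 * (R + τ * t / 2)| * dL + dL ^ 2) := by
  obtain ⟨y1, y2, y3, y4⟩ := Y_pos hτ hτ1 hρ hρ1 hv hv1
  have hid := base_id (kap := kap) (A := A) (B := B) (t := t) (P := P) (R := R) y1.ne' y2.ne'
    y3.ne' y4.ne'
  have hle := Fb_le_Fe (kap := kap) (A := A) (B := B) (o := 1) (η := -R) (y := (P + R) / 2)
    (z := t - 1 / 2 - (1 - ρ) * R) y1 y2 y3 y4 hρ.le hρ1 hv hv1
  have hD := D_nonneg (P := P) (R := R) hτ hτ1 hρ hρ1 hv hv1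
  obtain ⟨q3, q4, hq1, hq2⟩ := q_nonneg hρ hρ1 hv hv1
  obtain ⟨η, hη⟩ : ∃ η, η = -R := ⟨_, rfl⟩
  obtain ⟨y, hy⟩ : ∃ y, y = (P + R) / 2 := ⟨_, rfl⟩
  obtain ⟨z, hz⟩ : ∃ z, z = t - 1 / 2 - (1 - ρ) * R := ⟨_, rfl⟩
  have hM : ((1 - (1 - ρ * (1 - v)) ^ 2) * P + (1 - (ρ * (1 + v) - 1) ^ 2) * R) / 2 -
          ((1 - ρ * (1 - v)) + (ρ * (1 + v) - 1)) * (t - 1 / 2) = ρ * lN ρ v η y z := by
    rw [hη, hy, hz]; unfold lN lP; ring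
  have hp : (1 - (1 - ρ * (1 - v)) ^ 2) / 2 * (P + τ * t / 2) =
      ρ * (1 - v) * (2 - ρ * (1 - v)) * lp1 ρ τ 1 η y z := by
    rw [hη, hy, hz]; unfold lp1 lP lt; ring
  have hr : (1 - (ρ * (1 + v) - 1) ^ 2) / 2 * (R + τ * t / 2) =
      ρ * (1 + v) * (2 - ρ * (1 + v)) * lr1 ρ τ 1 η z := by
    rw [hη, hz]; unfold lr1 lt; ring
  rw [← hη, ← hy, ← hz] at hid hle H
  obtain ⟨base, hbase⟩ : ∃ base, base = FF τ (1 - ρ * (1 - v)) (ρ * (1 + v) - 1) t P R +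
      τ * ((1 - ρ * (1 - v)) + (ρ * (1 + v) - 1)) * (1 / 6 - t ^ 2 / 2) +
      (kap * ((1 - (1 - ρ * (1 - v)) ^ 2) / 2 * (P + τ * t / 2) +
          (1 - (ρ * (1 + v) - 1) ^ 2) / 2 * (R + τ * t / 2)) - τ * (A + B * t)) *
        (((1 - (1 - ρ * (1 - v)) ^ 2) * P + (1 - (ρ * (1 + v) - 1) ^ 2) * R) / 2 -
          ((1 - ρ * (1 - v)) + (ρ * (1 + v) - 1)) * (t - 1 / 2)) := ⟨_, rfl⟩
  rw [← hbase] at hid ⊢
  have hB : ρ * Fb kap A B ρ v τ 1 η y z ≤ base := by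
    rw [hid]
    have := mul_le_mul_of_nonneg_left hle hρ.le
    linarith
  rw [hM, hp, hr]
  obtain ⟨H0, H1, H2, H3, H4, H13, H14, H23, H24⟩ := H
  have hcR' : eR * (ρ * (1 - v) * Y1 ρ v τ) = 2 - ρ ∨ eR * ((2 - ρ * (1 - v)) * Y2 ρ v τ) = ρ := by
    rcases hcR with h | h
    · left; unfold Y1; linear_combination h / 2
    · right; unfold Y2; linear_combination h / 2
  have hcL' : eL * (ρ * (1 + v) * Y4 ρ v τ) = 2 - ρ ∨ eL * ((2 - ρ * (1 + v)) * Y3 ρ v τ) = ρ := by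
    rcases hcL with h | h
    · right; unfold Y3; linear_combination h / 2
    · left; unfold Y4; linear_combination h / 2
  have b0 : 0 ≤ base := le_trans (mul_nonneg hρ.le H0) hB
  have hR := arcs_min (by linarith : (0:ℝ) < 2 - ρ) hρ (by positivity) (by positivity) heR hcR'
  have hL := arcs_min (by linarith : (0:ℝ) < 2 - ρ) hρ (by positivity) (by positivity) heL hcL'
  rcases hR with ⟨r1, eR', heR0, heR1, heR2⟩ | ⟨r1, eR', heR0, heR1, heR2⟩ <;>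
    rcases hL with ⟨l1, eL', heL0, heL1, heL2⟩ | ⟨l1, eL', heL0, heL1, heL2⟩
  · -- arcs 1, 4
    have rr : R1 ρ v τ := by unfold R1; linarith [r1]
    have ll : L4 ρ v τ := by unfold L4; linarith [l1]
    refine elim2 (abs_nonneg _) (abs_nonneg _) heR1 heR0 heL1 heL0 hdR hdL b0 (fun c => ?_)
      (fun c => ?_) (fun c c' => ?_)
    · obtain ⟨m, hmm, hh⟩ := H1 rr (C1_of hρ hρ1 hv hv1 hk y1 heR2 c)
      have := G1_le (kap := kap) (o := 1) (η := η) (y := y) (z := z) hρ hρ1 hv1 hmm y1 heR0 heR2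
      have hm := mul_nonneg hρ.le hh
      linarith
    · obtain ⟨m, hmm, hh⟩ := H4 ll (C4_of hρ hρ1 hv hv1 hk y4 heL2 c)
      have := G4_le (kap := kap) (o := 1) (η := η) (y := y) (z := z) hρ hρ1 hv hmm y4 heL0 heL2
      have hm := mul_nonneg hρ.le hh
      linarith
    · obtain ⟨m, hmm, hh⟩ := H14 rr ll (C1_of hρ hρ1 hv hv1 hk y1 heR2 c)
        (C4_of hρ hρ1 hv hv1 hk y4 heL2 c')
      have g1 := G1_le (kap := kap) (o := 1) (η := η) (y := y) (z := z) hρ hρ1 hv1 hmm y1 heR0 heR2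
      have g2 := G4_le (kap := kap) (o := 1) (η := η) (y := y) (z := z) hρ hρ1 hv hmm y4 heL0 heL2
      have hm := mul_nonneg hρ.le hh
      linarith
  · -- arcs 1, 3
    have rr : R1 ρ v τ := by unfold R1; linarith [r1]
    have ll : L3 ρ v τ := by unfold L3; linarith [l1]
    refine elim2 (abs_nonneg _) (abs_nonneg _) heR1 heR0 heL1 heL0 hdR hdL b0 (fun c => ?_)
      (fun c => ?_) (fun c c' => ?_)
    · obtain ⟨m, hmm, hh⟩ := H1 rr (C1_of hρ hρ1 hv hv1 hk y1 heR2 c)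
      have := G1_le (kap := kap) (o := 1) (η := η) (y := y) (z := z) hρ hρ1 hv1 hmm y1 heR0 heR2
      have hm := mul_nonneg hρ.le hh
      linarith
    · have hh := H3 ll (C3_of hρ hρ1 hv hv1 hk y3 heL2 c)
      have := G3_le (kap := kap) (o := 1) (η := η) (y := y) (z := z) hρ hρ1 hv1 y3 heL0 heL2
      have hm := mul_nonneg hρ.le hh
      linarith
    · obtain ⟨m, hmm, hh⟩ := H13 rr ll (C1_of hρ hρ1 hv hv1 hk y1 heR2 c)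
        (C3_of hρ hρ1 hv hv1 hk y3 heL2 c')
      have g1 := G1_le (kap := kap) (o := 1) (η := η) (y := y) (z := z) hρ hρ1 hv1 hmm y1 heR0 heR2
      have g2 := G3_le (kap := kap) (o := 1) (η := η) (y := y) (z := z) hρ hρ1 hv1 y3 heL0 heL2
      have hm := mul_nonneg hρ.le hh
      linarith
  · -- arcs 2, 4
    have rr : R2 ρ v τ := by unfold R2; linarith [r1]
    have ll : L4 ρ v τ := by unfold L4; linarith [l1]
    refine elim2 (abs_nonneg _) (abs_nonneg _) heR1 heR0 heL1 heL0 hdR hdL b0 (fun c => ?_)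
      (fun c => ?_) (fun c c' => ?_)
    · have hh := H2 rr (C2_of hρ hρ1 hv hv1 hk y2 heR2 c)
      have := G2_le (kap := kap) (o := 1) (η := η) (y := y) (z := z) hρ hρ1 hv y2 heR0 heR2
      have hm := mul_nonneg hρ.le hh
      linarith
    · obtain ⟨m, hmm, hh⟩ := H4 ll (C4_of hρ hρ1 hv hv1 hk y4 heL2 c)
      have := G4_le (kap := kap) (o := 1) (η := η) (y := y) (z := z) hρ hρ1 hv hmm y4 heL0 heL2
      have hm := mul_nonneg hρ.le hh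
      linarith
    · obtain ⟨m, hmm, hh⟩ := H24 rr ll (C2_of hρ hρ1 hv hv1 hk y2 heR2 c)
        (C4_of hρ hρ1 hv hv1 hk y4 heL2 c')
      have g1 := G2_le (kap := kap) (o := 1) (η := η) (y := y) (z := z) hρ hρ1 hv y2 heR0 heR2
      have g2 := G4_le (kap := kap) (o := 1) (η := η) (y := y) (z := z) hρ hρ1 hv hmm y4 heL0 heL2
      have hm := mul_nonneg hρ.le hh
      linarith
  · -- arcs 2, 3
    have rr : R2 ρ v τ := by unfold R2; linarith [r1]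
    have ll : L3 ρ v τ := by unfold L3; linarith [l1]
    refine elim2 (abs_nonneg _) (abs_nonneg _) heR1 heR0 heL1 heL0 hdR hdL b0 (fun c => ?_)
      (fun c => ?_) (fun c c' => ?_)
    · have hh := H2 rr (C2_of hρ hρ1 hv hv1 hk y2 heR2 c)
      have := G2_le (kap := kap) (o := 1) (η := η) (y := y) (z := z) hρ hρ1 hv y2 heR0 heR2
      have hm := mul_nonneg hρ.le hh
      linarith
    · have hh := H3 ll (C3_of hρ hρ1 hv hv1 hk y3 heL2 c)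
      have := G3_le (kap := kap) (o := 1) (η := η) (y := y) (z := z) hρ hρ1 hv1 y3 heL0 heL2
      have hm := mul_nonneg hρ.le hh
      linarith
    · have hh := H23 rr ll (C2_of hρ hρ1 hv hv1 hk y2 heR2 c)
        (C3_of hρ hρ1 hv hv1 hk y3 heL2 c')
      have g1 := G2_le (kap := kap) (o := 1) (η := η) (y := y) (z := z) hρ hρ1 hv y2 heR0 heR2
      have g2 := G3_le (kap := kap) (o := 1) (η := η) (y := y) (z := z) hρ hρ1 hv1 y3 heL0 heL2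
      have hm := mul_nonneg hρ.le hh
      linarith

/-- the expression of `PWat` -/
noncomputable def body (τ t kap lp nu a b P R dR dL eR eL : ℝ) : ℝ :=
  FF τ a b t P R + τ * (a + b) * nu +
      (kap * ((1 - a ^ 2) / 2 * (P + τ * t / 2) + (1 - b ^ 2) / 2 * (R + τ * t / 2)) - τ * lp) *
        (((1 - a ^ 2) * P + (1 - b ^ 2) * R) / 2 - (a + b) * (t - 1 / 2)) -
      kap * |((1 - a ^ 2) * P + (1 - b ^ 2) * R) / 2 - (a + b) * (t - 1 / 2)| * (dR + dL) +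
      4 * eR * (|(1 - a ^ 2) / 2 * (P + τ * t / 2)| * dR + dR ^ 2) +
      4 * eL * (|(1 - b ^ 2) / 2 * (R + τ * t / 2)| * dL + dL ^ 2)

lemma FF_swap (τ a b t P R : ℝ) : FF τ a b t P R = FF τ b a t R P := by
  unfold FF
  have h : (1 - a ^ 2) * (1 - τ * b) + (1 - b ^ 2) * (1 - τ * a) =
    (1 - b ^ 2) * (1 - τ * a) + (1 - a ^ 2) * (1 - τ * b) := by ring
  rw [h]
  ring

lemma FF_flip (τ a b t P R : ℝ) : FF τ a b t P R = FF (-τ) (-a) (-b) t (-P) (-R) := by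
  unfold FF
  have h : (1 - (-a) ^ 2) * (1 - (-τ) * (-b)) + (1 - (-b) ^ 2) * (1 - (-τ) * (-a)) =
    (1 - a ^ 2) * (1 - τ * b) + (1 - b ^ 2) * (1 - τ * a) := by ring
  have h1 : 1 - (-τ) * (1 + (-a)) / 2 = 1 + τ * (1 - a) / 2 := by ring
  have h2 : 1 + (-τ) * (1 - (-a)) / 2 = 1 - τ * (1 + a) / 2 := by ring
  have h3 : 1 - (-τ) * (1 + (-b)) / 2 = 1 + τ * (1 - b) / 2 := by ring
  have h4 : 1 + (-τ) * (1 - (-b)) / 2 = 1 - τ * (1 + b) / 2 := by ring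
  rw [h, h1, h2, h3, h4]
  ring

lemma body_swap (τ t kap lp nu a b P R dR dL eR eL : ℝ) :
    body τ t kap lp nu a b P R dR dL eR eL = body τ t kap lp nu b a R P dL dR eL eR := by
  unfold body
  rw [FF_swap]
  have h : ((1 - a ^ 2) * P + (1 - b ^ 2) * R) / 2 - (a + b) * (t - 1 / 2) =
    ((1 - b ^ 2) * R + (1 - a ^ 2) * P) / 2 - (b + a) * (t - 1 / 2) := by ring
  rw [h]
  ring

lemma body_flip (τ t kap lp nu a b P R dR dL eR eL : ℝ) :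
    body τ t kap lp nu a b P R dR dL eR eL =
      body (-τ) t kap lp nu (-a) (-b) (-P) (-R) dR dL eR eL := by
  unfold body
  rw [FF_flip]
  have h : ((1 - (-a) ^ 2) * (-P) + (1 - (-b) ^ 2) * (-R)) / 2 - (-a + -b) * (t - 1 / 2) =
    -(((1 - a ^ 2) * P + (1 - b ^ 2) * R) / 2 - (a + b) * (t - 1 / 2)) := by ring
  have h2 : (1 - (-a) ^ 2) / 2 * (-P + -τ * t / 2) = -((1 - a ^ 2) / 2 * (P + τ * t / 2)) := by
    ring
  have h3 : (1 - (-b) ^ 2) / 2 * (-R + -τ * t / 2) = -((1 - b ^ 2) / 2 * (R + τ * t / 2)) := by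
    ring
  rw [h, h2, h3, abs_neg, abs_neg, abs_neg]
  ring

lemma Bx_flip {L τ a t P : ℝ} (h : Bx L τ a t P) : Bx L (-τ) (-a) t (-P) := by
  obtain ⟨h1, h2, h3, h4⟩ := h
  refine ⟨?_, ?_, ?_, ?_⟩ <;> linarith

/-- **`PWat` from the states with `b ≤ a`, `0 ≤ a + b` and both signs of the tilt** -/
theorem PWat_of_body {L τ t kap lp nu : ℝ}
    (key : ∀ s, s = τ ∨ s = -τ → ∀ ρ v P R dR dL eR eL : ℝ, 0 < ρ → ρ ≤ 1 → 0 ≤ v → v ≤ 1 →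
      Bx L s (1 - ρ * (1 - v)) t P → Bx L s (ρ * (1 + v) - 1) t R →
      0 ≤ dR → 0 ≤ dL → 0 ≤ eR → 0 ≤ eL →
      (eR * (2 * (1 - (1 - ρ * (1 - v))) * (1 - s * (1 + (1 - ρ * (1 - v))) / 2)) =
          2 + ((1 - ρ * (1 - v)) - (ρ * (1 + v) - 1)) ∨
        eR * (2 * (1 + (1 - ρ * (1 - v))) * (1 + s * (1 - (1 - ρ * (1 - v))) / 2)) =
          2 - ((1 - ρ * (1 - v)) - (ρ * (1 + v) - 1))) →
      (eL * (2 * (1 - (ρ * (1 + v) - 1)) * (1 - s * (1 + (ρ * (1 + v) - 1)) / 2)) =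
          2 - ((1 - ρ * (1 - v)) - (ρ * (1 + v) - 1)) ∨
        eL * (2 * (1 + (ρ * (1 + v) - 1)) * (1 + s * (1 - (ρ * (1 + v) - 1)) / 2)) =
          2 + ((1 - ρ * (1 - v)) - (ρ * (1 + v) - 1))) →
      0 ≤ body s t kap lp nu (1 - ρ * (1 - v)) (ρ * (1 + v) - 1) P R dR dL eR eL) :
    PWat L τ t kap lp nu := by
  have key2 : ∀ a b P R dR dL eR eL : ℝ, b ≤ a → -1 ≤ a → a ≤ 1 → -1 ≤ b → b ≤ 1 →
      Bx L τ a t P → Bx L τ b t R → 0 ≤ dR → 0 ≤ dL → 0 ≤ eR → 0 ≤ eL →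
      (eR * (2 * (1 - a) * (1 - τ * (1 + a) / 2)) = 2 + (a - b) ∨
        eR * (2 * (1 + a) * (1 + τ * (1 - a) / 2)) = 2 - (a - b)) →
      (eL * (2 * (1 - b) * (1 - τ * (1 + b) / 2)) = 2 - (a - b) ∨
        eL * (2 * (1 + b) * (1 + τ * (1 - b) / 2)) = 2 + (a - b)) →
      0 ≤ body τ t kap lp nu a b P R dR dL eR eL := by
    intro a b P R dR dL eR eL hab ha ha1 hb hb1 hB1 hB2 hdR hdL heR heL hcR hcL
    obtain ⟨ρ, hρe⟩ : ∃ ρ, ρ = 1 - (a - b) / 2 := ⟨_, rfl⟩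
    have hρ0 : 0 ≤ ρ := by rw [hρe]; linarith
    rcases hρ0.lt_or_eq with hρ | hρ
    · obtain ⟨v, hv⟩ : ∃ v, v = (a + b) / (2 * ρ) := ⟨_, rfl⟩
      have hρv : ρ * v = (a + b) / 2 := by rw [hv]; field_simp
      have ea : a = 1 - ρ * (1 - v) := by
        have : ρ * (1 - v) = ρ - (a + b) / 2 := by rw [← hρv]; ring
        rw [this, hρe]; ring
      have eb : b = ρ * (1 + v) - 1 := by
        have : ρ * (1 + v) = ρ + (a + b) / 2 := by rw [← hρv]; ring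
        rw [this, hρe]; ring
      have hρ1 : ρ ≤ 1 := by rw [hρe]; linarith
      have hv1 : v ≤ 1 := by
        rw [hv, div_le_one (by positivity), hρe]; linarith
      have hvm : -1 ≤ v := by
        rw [hv, le_div_iff₀ (by positivity), hρe]; linarith
      rcases le_total 0 v with hv0 | hv0
      · rw [ea] at hB1 hcR hcL ⊢
        rw [eb] at hB2 hcR hcL ⊢
        rw [← ea] at hcR hcL hB1 ⊢
        rw [← eb] at hcR hcL hB2 ⊢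
        have := key τ (Or.inl rfl) ρ v P R dR dL eR eL hρ hρ1 hv0 hv1
        rw [← ea, ← eb] at this
        exact this hB1 hB2 hdR hdL heR heL hcR hcL
      · have := key (-τ) (Or.inr rfl) ρ (-v) (-R) (-P) dL dR eL eR hρ hρ1 (by linarith)
          (by linarith)
        have ea' : 1 - ρ * (1 - -v) = -b := by rw [eb]; ring
        have eb' : ρ * (1 + -v) - 1 = -a := by rw [ea]; ring
        rw [ea', eb'] at this
        have h := this (Bx_flip hB2) (Bx_flip hB1) hdL hdR heL heR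
          (by
            rcases hcL with h | h
            · right; linear_combination h
            · left; linear_combination h)
          (by
            rcases hcR with h | h
            · right; linear_combination h
            · left; linear_combination h)
        rw [body_flip, body_swap]
        exact h
    · have ha' : a = 1 := by linarith
      have hb' : b = -1 := by linarith
      subst ha' hb'
      have e : body τ t kap lp nu 1 (-1) P R dR dL eR eL =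
          4 * eR * dR ^ 2 + 4 * eL * dL ^ 2 := by
        unfold body FF
        norm_num
      rw [e]
      positivity
  intro a b P R dR dL eR eL ha ha1 hb hb1 hB1 hB2 hdR hdL heR heL hcR hcL
  rcases le_total b a with hab | hab
  · exact key2 a b P R dR dL eR eL hab ha ha1 hb hb1 hB1 hB2 hdR hdL heR heL hcR hcL
  · have h := key2 b a R P dL dR eL eR hab hb hb1 ha ha1 hB2 hB1 hdL hdR heL heR
      (by
        rcases hcL with h | h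
        · left; linear_combination h
        · right; linear_combination h)
      (by
        rcases hcR with h | h
        · left; linear_combination h
        · right; linear_combination h)
    rw [body_swap] at h
    exact h

/-- **`PWat` from the case lists** (states with `0 ≤ v`, both signs of the tilt) -/
theorem PWat_of_cases {L τ t kap A B : ℝ} (hτ : 0 < τ) (hτ1 : τ < 1) (hk : 0 ≤ kap)
    (H : ∀ s, s = τ ∨ s = -τ → ∀ ρ v P R : ℝ, 0 < ρ → ρ ≤ 1 → 0 ≤ v → v ≤ 1 →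
      Bx L s (1 - ρ * (1 - v)) t P → Bx L s (ρ * (1 + v) - 1) t R →
      Cases kap A B ρ v s 1 (-R) ((P + R) / 2) (t - 1 / 2 - (1 - ρ) * R)) :
    PWat L τ t kap (A + B * t) (1 / 6 - t ^ 2 / 2) := by
  refine PWat_of_body ?_
  intro s hs ρ v P R dR dL eR eL hρ hρ1 hv hv1 hb1 hb2 hdR hdL heR heL hcR hcL
  have hs1 : -1 < s ∧ s < 1 := by rcases hs with h | h <;> rw [h] <;> constructor <;> linarith
  exact state_of_cases hs1.1 hs1.2 hρ hρ1 (by linarith) hv1 hk hdR hdL heR heL hcR hcL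
    (H s hs ρ v P R hρ hρ1 hv hv1 hb1 hb2)

end PB

end Pool.G1.Gap
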