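import Pool.Agent.Work.MP_b5407d_g1.Pl_PWB

/-!
# G1, line P-a: `PWat` from ONE case-free form per state (helper53, helper93, helper13)

The excursions are removed by `(κ|M| - 4 e |p|)₊² ≤ (κ M - 4 n e p)²`, `|n| ≤ 1`.
All weights are real numbers with scalar bounds:
`e1 .. e4` (energies), `dw` (D-term), `gR`, `gL` (`≥ ρ / c_i` for both arcs), `hR`, `hL`.
-/

set_option autoImplicit false

namespace Pool.G1.Gap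

namespace PB

/-- `(1 - v) (1 + a)` -/
noncomputable def xi (ρ v : ℝ) : ℝ := (1 - v) * (2 - ρ * (1 - v))

/-- `(1 + v) (1 - b)` -/
noncomputable def et (ρ v : ℝ) : ℝ := (1 + v) * (2 - ρ * (1 + v))

/-- `a P - b R` -/
noncomputable def lD (ρ v η y : ℝ) : ℝ := 2 * ρ * v * η + 2 * (1 - ρ * (1 - v)) * y

/-- `D_X / ρ` -/
noncomputable def Dp (ρ v τ : ℝ) : ℝ :=
  xi ρ v * (1 - τ * (ρ * (1 + v) - 1)) + et ρ v * (1 - τ * (1 - ρ * (1 - v)))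

/-- the base form without energies and D-term -/
noncomputable def F0 (kap A B ρ v τ o η y z : ℝ) : ℝ :=
  (xi ρ v + et ρ v) / 2 * (z - (1 - ρ) * η) ^ 2 + ρ * v ^ 2 * lt ρ o η z ^ 2 +
    2 * τ * v * (1 / 6 - (1 - ρ) ^ 2 / 2) * (z - (1 - ρ) * η) * (o / 2 + lt ρ o η z) +
    τ * ρ ^ 2 * v ^ 3 * o ^ 2 / 12 +
    2 * (1 - ρ) * (z - (1 - ρ) * η) * (xi ρ v * lP η y + et ρ v * (η / 2)) +
    τ * (1 - ρ) * ρ * v * lt ρ o η z * (xi ρ v * lP η y + et ρ v * (η / 2)) +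
    (-(ρ * v * o) - τ / 3 * (o / 2 - (z - (1 - ρ) * η)) + τ * (1 - ρ) ^ 2 * lt ρ o η z) *
      (xi ρ v * lP η y - et ρ v * (η / 2)) +
    2 * (1 - ρ) * xi ρ v *
      ((1 - ρ * (1 - v)) + τ * (1 + (1 - ρ * (1 - v)) ^ 2) / 2) * lP η y ^ 2 -
    2 * (1 - ρ) * et ρ v *
      ((ρ * (1 + v) - 1) + τ * (1 + (ρ * (1 + v) - 1) ^ 2) / 2) * (η / 2) ^ 2 +
    (kap * ρ * (xi ρ v * lP η y - et ρ v * (η / 2) +
        τ * (xi ρ v + et ρ v) / 4 * lt ρ o η z) -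
      τ * ((A - 1 / 3) * o + (B - 2 / 3) * lt ρ o η z)) * lN ρ v η y z

/-- **the case-free form** (everything divided by `ρ`) -/
noncomputable def Fr (kap A B ρ v τ e1 e2 e3 e4 dw g hR hL nR nL o η y z : ℝ) : ℝ :=
  F0 kap A B ρ v τ o η y z +
    (xi ρ v * e1 * (τ * G1 ρ v o η y z) ^ 2 + xi ρ v * e2 * (τ * G2 ρ v o η y z) ^ 2 +
      et ρ v * e3 * (τ * G3 ρ v o η z) ^ 2 + et ρ v * e4 * (τ * G4 ρ v o η z) ^ 2) +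
    dw * lD ρ v η y ^ 2 - kap ^ 2 / 16 * g * lN ρ v η y z ^ 2 +
    kap / 2 * ρ * lN ρ v η y z * (nR * xi ρ v * lp1 ρ τ o η y z + nL * et ρ v * lr1 ρ τ o η z) -
    ρ * hR * (nR * lp1 ρ τ o η y z) ^ 2 - ρ * hL * (nL * lr1 ρ τ o η z) ^ 2

lemma Fe_eq (kap A B ρ v τ i1 i2 i3 i4 o η y z : ℝ) :
    Fe kap A B ρ v τ i1 i2 i3 i4 o η y z = F0 kap A B ρ v τ o η y z +
      (xi ρ v * ((2 - ρ) * (2 - ρ * (1 - v)) / 16 * i1) * (τ * G1 ρ v o η y z) ^ 2 +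
        xi ρ v * (ρ * (ρ * (1 - v)) / 16 * i2) * (τ * G2 ρ v o η y z) ^ 2 +
        et ρ v * (ρ * (ρ * (1 + v)) / 16 * i3) * (τ * G3 ρ v o η z) ^ 2 +
        et ρ v * ((2 - ρ) * (2 - ρ * (1 + v)) / 16 * i4) * (τ * G4 ρ v o η z) ^ 2) := by
  unfold Fe F0 xi et
  generalize G1 ρ v o η y z = g1
  generalize G2 ρ v o η y z = g2
  generalize G3 ρ v o η z = g3
  generalize G4 ρ v o η z = g4
  generalize lN ρ v η y z = n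
  generalize lP η y = p
  generalize lt ρ o η z = t
  ring

/-- one chain, case-free -/
lemma elim_free {kap M p e e' d n : ℝ} (hk : 0 ≤ kap) (he : e' ≤ e) (he' : 0 < e') (hd : 0 ≤ d)
    (hn : |n| ≤ 1) :
    -((kap * M - 4 * n * e' * p) ^ 2 / (16 * e')) ≤
      -(kap * |M| * d) + 4 * e * (|p| * d + d ^ 2) := by
  have h1 : 4 * e' * (|p| * d + d ^ 2) ≤ 4 * e * (|p| * d + d ^ 2) := by
    have : 0 ≤ |p| * d + d ^ 2 := by positivity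
    nlinarith
  refine le_trans ?_ (by linarith : -(kap * |M| * d) + 4 * e' * (|p| * d + d ^ 2) ≤ _)
  have h3 : kap * |M| - 4 * e' * |p| ≤ |kap * M - 4 * n * e' * p| := by
    have e1 : |kap * M| = kap * |M| := by rw [abs_mul, abs_of_nonneg hk]
    have e2 : |4 * n * e' * p| ≤ 4 * e' * |p| := by
      have : |4 * n * e' * p| = |n| * (4 * e' * |p|) := by
        rw [abs_mul, abs_mul, abs_mul, abs_of_pos he']
        norm_num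
        ring
      rw [this]
      have h0 : 0 ≤ 4 * e' * |p| := by positivity
      nlinarith
    have e3 := abs_sub_abs_le_abs_sub (kap * M) (4 * n * e' * p)
    linarith
  rcases le_total (kap * |M|) (4 * e' * |p|) with h | h
  · have hsq : 0 ≤ (kap * M - 4 * n * e' * p) ^ 2 / (16 * e') := by positivity
    have h4 : kap * |M| * d ≤ 4 * e' * |p| * d := mul_le_mul_of_nonneg_right h hd
    have h5 : 0 ≤ 4 * e' * d ^ 2 := by positivity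
    linarith
  · have h4 : (kap * |M| - 4 * e' * |p|) ^ 2 ≤ (kap * M - 4 * n * e' * p) ^ 2 := by
      rw [← sq_abs (kap * M - 4 * n * e' * p)]
      have h0 : 0 ≤ kap * |M| - 4 * e' * |p| := by linarith
      exact pow_le_pow_left₀ h0 h3 2
    have h5 : (kap * |M| - 4 * e' * |p|) ^ 2 / (16 * e') ≤
        (kap * M - 4 * n * e' * p) ^ 2 / (16 * e') := by gcongr
    have h6 : -(kap * |M| * d) + 4 * e' * (|p| * d + d ^ 2) =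
        -((kap * |M| - 4 * e' * |p|) ^ 2 / (16 * e')) +
          (kap * |M| - 4 * e' * |p| - 8 * e' * d) ^ 2 / (16 * e') := by
      field_simp
      ring
    have h7 : 0 ≤ (kap * |M| - 4 * e' * |p| - 8 * e' * d) ^ 2 / (16 * e') := by positivity
    linarith

/-- the penalty of one chain in polynomial form -/
lemma pen_le {kap ρ N X π g h n : ℝ} (hρ : 0 < ρ) (hg : 0 < g) (hh : ρ * X ^ 2 ≤ h * g) :
    (kap * (ρ * N) - 4 * n * (ρ / g) * (ρ * X * π)) ^ 2 / (16 * (ρ / g)) ≤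
      ρ * (kap ^ 2 / 16 * g * N ^ 2 - kap / 2 * ρ * N * (n * X * π) + ρ * h * (n * π) ^ 2) := by
  have h1 : (kap * (ρ * N) - 4 * n * (ρ / g) * (ρ * X * π)) ^ 2 / (16 * (ρ / g)) =
      ρ * (kap ^ 2 / 16 * g * N ^ 2 - kap / 2 * ρ * N * (n * X * π) +
        ρ * (ρ * X ^ 2 / g) * (n * π) ^ 2) := by
    field_simp
    ring
  rw [h1]
  have h2 : ρ * X ^ 2 / g ≤ h := by rw [div_le_iff₀ hg]; exact hh
  have h3 : ρ * (ρ * X ^ 2 / g) * (n * π) ^ 2 ≤ ρ * h * (n * π) ^ 2 := by gcongr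
  nlinarith

lemma Dp_nonneg {ρ v τ : ℝ} (hτ : -1 < τ) (hτ1 : τ < 1)
    (hρ : 0 < ρ) (hρ1 : ρ ≤ 1) (hv : -1 ≤ v) (hv1 : v ≤ 1) :
    0 ≤ xi ρ v ∧ 0 ≤ et ρ v ∧ 0 < 1 - τ * (ρ * (1 + v) - 1) ∧ 0 < 1 - τ * (1 - ρ * (1 - v)) := by
  obtain ⟨q3, q4, hq1, hq2⟩ := q_nonneg hρ hρ1 hv hv1
  have q1 : 0 ≤ 1 - v := by linarith
  have q2 : 0 ≤ 1 + v := by linarith
  have h2 : |τ| < 1 := by rw [abs_lt]; constructor <;> linarith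
  refine ⟨by unfold xi; positivity, by unfold et; positivity, ?_, ?_⟩
  · have : |ρ * (1 + v) - 1| ≤ 1 := by rw [abs_le]; constructor <;> linarith
    have h3 : |τ * (ρ * (1 + v) - 1)| < 1 := by
      rw [abs_mul]
      calc |τ| * |ρ * (1 + v) - 1| ≤ |τ| * 1 := mul_le_mul_of_nonneg_left this (abs_nonneg _)
        _ < 1 := by linarith
    linarith [(abs_lt.1 h3).2]
  · have : |1 - ρ * (1 - v)| ≤ 1 := by rw [abs_le]; constructor <;> linarith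
    have h3 : |τ * (1 - ρ * (1 - v))| < 1 := by
      rw [abs_mul]
      calc |τ| * |1 - ρ * (1 - v)| ≤ |τ| * 1 := mul_le_mul_of_nonneg_left this (abs_nonneg _)
        _ < 1 := by linarith
    linarith [(abs_lt.1 h3).2]

/-- the exact D-term is at least `ρ dw (a P - b R)²` -/
lemma D_ge {ρ v τ P R dw : ℝ} (hτ : -1 < τ) (hτ1 : τ < 1)
    (hρ : 0 < ρ) (hρ1 : ρ ≤ 1) (hv : -1 ≤ v) (hv1 : v ≤ 1)
    (hd : 2 * dw * Dp ρ v τ ≤ (1 - τ ^ 2) * xi ρ v * et ρ v)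
    (hd0 : dw ≤ 0 ∨ 0 < xi ρ v ∨ 0 < et ρ v) :
    ρ * (dw * lD ρ v (-R) ((P + R) / 2) ^ 2) ≤
    1 / 2 * (1 - τ ^ 2) * (1 - (1 - ρ * (1 - v)) ^ 2) * (1 - (ρ * (1 + v) - 1) ^ 2) *
        ((1 - ρ * (1 - v)) * P - (ρ * (1 + v) - 1) * R) ^ 2 /
      ((1 - (1 - ρ * (1 - v)) ^ 2) * (1 - τ * (ρ * (1 + v) - 1)) +
        (1 - (ρ * (1 + v) - 1) ^ 2) * (1 - τ * (1 - ρ * (1 - v)))) := by
  obtain ⟨x1, x2, x3, x4⟩ := Dp_nonneg hτ hτ1 hρ hρ1 hv hv1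
  have e0 : lD ρ v (-R) ((P + R) / 2) = (1 - ρ * (1 - v)) * P - (ρ * (1 + v) - 1) * R := by
    unfold lD; ring
  have e1 : (1 - (1 - ρ * (1 - v)) ^ 2) = ρ * xi ρ v := by unfold xi; ring
  have e2 : (1 - (ρ * (1 + v) - 1) ^ 2) = ρ * et ρ v := by unfold et; ring
  rw [e0]
  rcases hd0 with h0 | h0
  · have := D_nonneg (P := P) (R := R) hτ hτ1 hρ hρ1 hv hv1
    refine le_trans ?_ this
    have h1 : 0 ≤ ρ * ((1 - ρ * (1 - v)) * P - (ρ * (1 + v) - 1) * R) ^ 2 := by positivity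
    nlinarith
  · have hDp : 0 < Dp ρ v τ := by
      unfold Dp
      rcases h0 with h0 | h0
      · have := mul_pos h0 x3
        have := mul_nonneg x2 x4.le
        linarith
      · have := mul_nonneg x1 x3.le
        have := mul_pos h0 x4
        linarith
    rw [e1, e2]
    have e3 : ρ * xi ρ v * (1 - τ * (ρ * (1 + v) - 1)) + ρ * et ρ v * (1 - τ * (1 - ρ * (1 - v))) =
        ρ * Dp ρ v τ := by unfold Dp; ring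
    rw [e3, le_div_iff₀ (by positivity)]
    have h1 : 0 ≤ ρ ^ 2 * ((1 - ρ * (1 - v)) * P - (ρ * (1 + v) - 1) * R) ^ 2 := by positivity
    nlinarith [mul_le_mul_of_nonneg_right hd h1]

/-- lower bound of the base form -/
lemma base_ge {kap A B ρ v τ t P R e1 e2 e3 e4 dw : ℝ} (hτ : -1 < τ) (hτ1 : τ < 1)
    (hρ : 0 < ρ) (hρ1 : ρ ≤ 1) (hv : -1 ≤ v) (hv1 : v ≤ 1)
    (he1 : 16 * e1 * Y1 ρ v τ ≤ (2 - ρ) * (2 - ρ * (1 - v)))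
    (he2 : 16 * e2 * Y2 ρ v τ ≤ ρ * (ρ * (1 - v)))
    (he3 : 16 * e3 * Y3 ρ v τ ≤ ρ * (ρ * (1 + v)))
    (he4 : 16 * e4 * Y4 ρ v τ ≤ (2 - ρ) * (2 - ρ * (1 + v)))
    (hd : 2 * dw * Dp ρ v τ ≤ (1 - τ ^ 2) * xi ρ v * et ρ v)
    (hd0 : dw ≤ 0 ∨ 0 < xi ρ v ∨ 0 < et ρ v) :
    ρ * (F0 kap A B ρ v τ 1 (-R) ((P + R) / 2) (t - 1 / 2 - (1 - ρ) * R) +
      (xi ρ v * e1 * (τ * G1 ρ v 1 (-R) ((P + R) / 2) (t - 1 / 2 - (1 - ρ) * R)) ^ 2 +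
        xi ρ v * e2 * (τ * G2 ρ v 1 (-R) ((P + R) / 2) (t - 1 / 2 - (1 - ρ) * R)) ^ 2 +
        et ρ v * e3 * (τ * G3 ρ v 1 (-R) (t - 1 / 2 - (1 - ρ) * R)) ^ 2 +
        et ρ v * e4 * (τ * G4 ρ v 1 (-R) (t - 1 / 2 - (1 - ρ) * R)) ^ 2) +
      dw * lD ρ v (-R) ((P + R) / 2) ^ 2) ≤
    FF τ (1 - ρ * (1 - v)) (ρ * (1 + v) - 1) t P R +
      τ * ((1 - ρ * (1 - v)) + (ρ * (1 + v) - 1)) * (1 / 6 - t ^ 2 / 2) +
      (kap * ((1 - (1 - ρ * (1 - v)) ^ 2) / 2 * (P + τ * t / 2) +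
          (1 - (ρ * (1 + v) - 1) ^ 2) / 2 * (R + τ * t / 2)) - τ * (A + B * t)) *
        (((1 - (1 - ρ * (1 - v)) ^ 2) * P + (1 - (ρ * (1 + v) - 1) ^ 2) * R) / 2 -
          ((1 - ρ * (1 - v)) + (ρ * (1 + v) - 1)) * (t - 1 / 2)) := by
  obtain ⟨y1, y2, y3, y4⟩ := Y_pos hτ hτ1 hρ hρ1 hv hv1
  obtain ⟨x1, x2, -, -⟩ := Dp_nonneg hτ hτ1 hρ hρ1 hv hv1
  rw [base_id y1.ne' y2.ne' y3.ne' y4.ne', Fe_eq]
  have hD := D_ge (P := P) (R := R) hτ hτ1 hρ hρ1 hv hv1 hd hd0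
  generalize G1 ρ v 1 (-R) ((P + R) / 2) (t - 1 / 2 - (1 - ρ) * R) = g1
  generalize G2 ρ v 1 (-R) ((P + R) / 2) (t - 1 / 2 - (1 - ρ) * R) = g2
  generalize G3 ρ v 1 (-R) (t - 1 / 2 - (1 - ρ) * R) = g3
  generalize G4 ρ v 1 (-R) (t - 1 / 2 - (1 - ρ) * R) = g4
  have b1 : e1 ≤ (2 - ρ) * (2 - ρ * (1 - v)) / 16 * (1 / Y1 ρ v τ) := by
    rw [mul_one_div, le_div_iff₀ y1]; linarith
  have b2 : e2 ≤ ρ * (ρ * (1 - v)) / 16 * (1 / Y2 ρ v τ) := by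
    rw [mul_one_div, le_div_iff₀ y2]; linarith
  have b3 : e3 ≤ ρ * (ρ * (1 + v)) / 16 * (1 / Y3 ρ v τ) := by
    rw [mul_one_div, le_div_iff₀ y3]; linarith
  have b4 : e4 ≤ (2 - ρ) * (2 - ρ * (1 + v)) / 16 * (1 / Y4 ρ v τ) := by
    rw [mul_one_div, le_div_iff₀ y4]; linarith
  have c1 : xi ρ v * e1 * (τ * g1) ^ 2 ≤
      xi ρ v * ((2 - ρ) * (2 - ρ * (1 - v)) / 16 * (1 / Y1 ρ v τ)) * (τ * g1) ^ 2 := by gcongr
  have c2 : xi ρ v * e2 * (τ * g2) ^ 2 ≤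
      xi ρ v * (ρ * (ρ * (1 - v)) / 16 * (1 / Y2 ρ v τ)) * (τ * g2) ^ 2 := by gcongr
  have c3 : et ρ v * e3 * (τ * g3) ^ 2 ≤
      et ρ v * (ρ * (ρ * (1 + v)) / 16 * (1 / Y3 ρ v τ)) * (τ * g3) ^ 2 := by gcongr
  have c4 : et ρ v * e4 * (τ * g4) ^ 2 ≤
      et ρ v * ((2 - ρ) * (2 - ρ * (1 + v)) / 16 * (1 / Y4 ρ v τ)) * (τ * g4) ^ 2 := by gcongr
  have d := mul_le_mul_of_nonneg_left (add_le_add (add_le_add (add_le_add c1 c2) c3) c4) hρ.le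
  linarith

set_option maxRecDepth 20000 in
/-- **one state from the case-free form** -/
theorem state_free {kap A B ρ v τ t P R dR dL eR eL e1 e2 e3 e4 dw gR gL hR hL nR nL : ℝ}
    (hτ : -1 < τ) (hτ1 : τ < 1)
    (hρ : 0 < ρ) (hρ1 : ρ ≤ 1) (hv : -1 ≤ v) (hv1 : v ≤ 1) (hk : 0 ≤ kap)
    (hdR : 0 ≤ dR) (hdL : 0 ≤ dL) (heR : 0 ≤ eR) (heL : 0 ≤ eL)
    (hcR : eR * (2 * (1 - (1 - ρ * (1 - v))) * (1 - τ * (1 + (1 - ρ * (1 - v))) / 2)) =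
        2 + ((1 - ρ * (1 - v)) - (ρ * (1 + v) - 1)) ∨
      eR * (2 * (1 + (1 - ρ * (1 - v))) * (1 + τ * (1 - (1 - ρ * (1 - v))) / 2)) =
        2 - ((1 - ρ * (1 - v)) - (ρ * (1 + v) - 1)))
    (hcL : eL * (2 * (1 - (ρ * (1 + v) - 1)) * (1 - τ * (1 + (ρ * (1 + v) - 1)) / 2)) =
        2 - ((1 - ρ * (1 - v)) - (ρ * (1 + v) - 1)) ∨
      eL * (2 * (1 + (ρ * (1 + v) - 1)) * (1 + τ * (1 - (ρ * (1 + v) - 1)) / 2)) =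
        2 + ((1 - ρ * (1 - v)) - (ρ * (1 + v) - 1)))
    (he1 : 16 * e1 * Y1 ρ v τ ≤ (2 - ρ) * (2 - ρ * (1 - v)))
    (he2 : 16 * e2 * Y2 ρ v τ ≤ ρ * (ρ * (1 - v)))
    (he3 : 16 * e3 * Y3 ρ v τ ≤ ρ * (ρ * (1 + v)))
    (he4 : 16 * e4 * Y4 ρ v τ ≤ (2 - ρ) * (2 - ρ * (1 + v)))
    (hd : 2 * dw * Dp ρ v τ ≤ (1 - τ ^ 2) * xi ρ v * et ρ v)
    (hd0 : dw ≤ 0 ∨ 0 < xi ρ v ∨ 0 < et ρ v)
    (hgR : 0 < gR) (hg1 : ρ ^ 2 * (1 - v) * Y1 ρ v τ ≤ (2 - ρ) * gR)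
    (hg2 : (2 - ρ * (1 - v)) * Y2 ρ v τ ≤ gR)
    (hgL : 0 < gL) (hg3 : (2 - ρ * (1 + v)) * Y3 ρ v τ ≤ gL)
    (hg4 : ρ ^ 2 * (1 + v) * Y4 ρ v τ ≤ (2 - ρ) * gL)
    (hhR : ρ * xi ρ v ^ 2 ≤ hR * gR) (hhL : ρ * et ρ v ^ 2 ≤ hL * gL)
    (hnR : |nR| ≤ 1) (hnL : |nL| ≤ 1)
    (H : 0 ≤ Fr kap A B ρ v τ e1 e2 e3 e4 dw (gR + gL) hR hL nR nL 1 (-R) ((P + R) / 2)
      (t - 1 / 2 - (1 - ρ) * R)) :
    0 ≤ body τ t kap (A + B * t) (1 / 6 - t ^ 2 / 2) (1 - ρ * (1 - v)) (ρ * (1 + v) - 1) P R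
      dR dL eR eL := by
  have hB := base_ge (kap := kap) (A := A) (B := B) (t := t) (P := P) (R := R) hτ hτ1 hρ hρ1 hv hv1
    he1 he2 he3 he4 hd hd0
  obtain ⟨η, hη⟩ : ∃ η, η = -R := ⟨_, rfl⟩
  obtain ⟨y, hy⟩ : ∃ y, y = (P + R) / 2 := ⟨_, rfl⟩
  obtain ⟨z, hz⟩ : ∃ z, z = t - 1 / 2 - (1 - ρ) * R := ⟨_, rfl⟩
  have hM : ((1 - (1 - ρ * (1 - v)) ^ 2) * P + (1 - (ρ * (1 + v) - 1) ^ 2) * R) / 2 -
          ((1 - ρ * (1 - v)) + (ρ * (1 + v) - 1)) * (t - 1 / 2) = ρ * lN ρ v η y z := by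
    rw [hη, hy, hz]; unfold lN lP; ring
  have hp : (1 - (1 - ρ * (1 - v)) ^ 2) / 2 * (P + τ * t / 2) =
      ρ * xi ρ v * lp1 ρ τ 1 η y z := by
    rw [hη, hy, hz]; unfold lp1 lP lt xi; ring
  have hr : (1 - (ρ * (1 + v) - 1) ^ 2) / 2 * (R + τ * t / 2) =
      ρ * et ρ v * lr1 ρ τ 1 η z := by
    rw [hη, hz]; unfold lr1 lt et; ring
  unfold body
  unfold Fr at H
  rw [← hη, ← hy, ← hz] at hB H
  rw [hM, hp, hr] at hB ⊢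
  have hcR' : eR * (ρ * (1 - v) * Y1 ρ v τ) = 2 - ρ ∨ eR * ((2 - ρ * (1 - v)) * Y2 ρ v τ) = ρ := by
    rcases hcR with h | h
    · left; unfold Y1; linear_combination h / 2
    · right; unfold Y2; linear_combination h / 2
  have hcL' : eL * (ρ * (1 + v) * Y4 ρ v τ) = 2 - ρ ∨ eL * ((2 - ρ * (1 + v)) * Y3 ρ v τ) = ρ := by
    rcases hcL with h | h
    · right; unfold Y3; linear_combination h / 2
    · left; unfold Y4; linear_combination h / 2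
  have heR' : ρ / gR ≤ eR := by
    rw [div_le_iff₀ hgR]
    rcases hcR' with h | h
    · have h1 := mul_le_mul_of_nonneg_left hg1 heR
      have h2 : (2 - ρ) * ρ ≤ (2 - ρ) * (eR * gR) := by
        calc (2 - ρ) * ρ = eR * (ρ ^ 2 * (1 - v) * Y1 ρ v τ) := by rw [← h]; ring
          _ ≤ _ := h1
          _ = _ := by ring
      exact le_of_mul_le_mul_left h2 (by linarith)
    · have h1 := mul_le_mul_of_nonneg_left hg2 heR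
      linarith
  have heL' : ρ / gL ≤ eL := by
    rw [div_le_iff₀ hgL]
    rcases hcL' with h | h
    · have h1 := mul_le_mul_of_nonneg_left hg4 heL
      have h2 : (2 - ρ) * ρ ≤ (2 - ρ) * (eL * gL) := by
        calc (2 - ρ) * ρ = eL * (ρ ^ 2 * (1 + v) * Y4 ρ v τ) := by rw [← h]; ring
          _ ≤ _ := h1
          _ = _ := by ring
      exact le_of_mul_le_mul_left h2 (by linarith)
    · have h1 := mul_le_mul_of_nonneg_left hg3 heL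
      linarith
  have kR := elim_free (M := ρ * lN ρ v η y z) (p := ρ * xi ρ v * lp1 ρ τ 1 η y z) hk heR'
    (by positivity) hdR hnR
  have kL := elim_free (M := ρ * lN ρ v η y z) (p := ρ * et ρ v * lr1 ρ τ 1 η z) hk heL'
    (by positivity) hdL hnL
  have pR := pen_le (kap := kap) (N := lN ρ v η y z) (X := xi ρ v) (π := lp1 ρ τ 1 η y z) (n := nR)
    hρ hgR hhR
  have pL := pen_le (kap := kap) (N := lN ρ v η y z) (X := et ρ v) (π := lr1 ρ τ 1 η z) (n := nL)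
    hρ hgL hhL
  have hH := mul_nonneg hρ.le H
  generalize FF τ (1 - ρ * (1 - v)) (ρ * (1 + v) - 1) t P R = F at hB ⊢
  generalize F0 kap A B ρ v τ 1 η y z = f0 at hB hH
  generalize G1 ρ v 1 η y z = g1 at hB hH
  generalize G2 ρ v 1 η y z = g2 at hB hH
  generalize G3 ρ v 1 η z = g3 at hB hH
  generalize G4 ρ v 1 η z = g4 at hB hH
  linarith

/-- **the case-free certificate at one state** -/
def FreeOK (kap A B ρ v τ o η y z : ℝ) : Prop :=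
  ∃ e1 e2 e3 e4 dw gR gL hR hL nR nL : ℝ,
    16 * e1 * Y1 ρ v τ ≤ (2 - ρ) * (2 - ρ * (1 - v)) ∧
    16 * e2 * Y2 ρ v τ ≤ ρ * (ρ * (1 - v)) ∧
    16 * e3 * Y3 ρ v τ ≤ ρ * (ρ * (1 + v)) ∧
    16 * e4 * Y4 ρ v τ ≤ (2 - ρ) * (2 - ρ * (1 + v)) ∧
    2 * dw * Dp ρ v τ ≤ (1 - τ ^ 2) * xi ρ v * et ρ v ∧
    (dw ≤ 0 ∨ 0 < xi ρ v ∨ 0 < et ρ v) ∧
    0 < gR ∧ ρ ^ 2 * (1 - v) * Y1 ρ v τ ≤ (2 - ρ) * gR ∧ (2 - ρ * (1 - v)) * Y2 ρ v τ ≤ gR ∧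
    0 < gL ∧ (2 - ρ * (1 + v)) * Y3 ρ v τ ≤ gL ∧ ρ ^ 2 * (1 + v) * Y4 ρ v τ ≤ (2 - ρ) * gL ∧
    ρ * xi ρ v ^ 2 ≤ hR * gR ∧ ρ * et ρ v ^ 2 ≤ hL * gL ∧ |nR| ≤ 1 ∧ |nL| ≤ 1 ∧
    0 ≤ Fr kap A B ρ v τ e1 e2 e3 e4 dw (gR + gL) hR hL nR nL o η y z

/-- **`PWat` from the case-free certificates** (states with `0 ≤ v`, both signs of the tilt) -/
theorem PWat_of_free {L τ t kap A B : ℝ} (hτ : 0 < τ) (hτ1 : τ < 1) (hk : 0 ≤ kap)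
    (H : ∀ s, s = τ ∨ s = -τ → ∀ ρ v P R : ℝ, 0 < ρ → ρ ≤ 1 → 0 ≤ v → v ≤ 1 →
      Bx L s (1 - ρ * (1 - v)) t P → Bx L s (ρ * (1 + v) - 1) t R →
      FreeOK kap A B ρ v s 1 (-R) ((P + R) / 2) (t - 1 / 2 - (1 - ρ) * R)) :
    PWat L τ t kap (A + B * t) (1 / 6 - t ^ 2 / 2) := by
  refine PWat_of_body ?_
  intro s hs ρ v P R dR dL eR eL hρ hρ1 hv hv1 hb1 hb2 hdR hdL heR heL hcR hcL
  have hs1 : -1 < s ∧ s < 1 := by rcases hs with h | h <;> rw [h] <;> constructor <;> linarith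
  obtain ⟨e1, e2, e3, e4, dw, gR, gL, hR, hL, nR, nL, h1, h2, h3, h4, h5, h6, h7, h8, h9, h10, h11,
    h12, h13, h14, h15, h16, h17⟩ := H s hs ρ v P R hρ hρ1 hv hv1 hb1 hb2
  exact state_free hs1.1 hs1.2 hρ hρ1 (by linarith) hv1 hk hdR hdL heR heL hcR hcL h1 h2 h3 h4 h5
    h6 h7 h8 h9 h10 h11 h12 h13 h14 h15 h16 h17

/-- **the pointwise certificate in helper53's form** (variables `p = η`, `y = P + R`, `z`): `(ρ, v, τ)` is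
good for the constants `kap, A, B` on the window `t ∈ [t0, t1]`, loads in `[0, 2/3]` -/
def OK53 (kap A B t0 t1 ρ v τ : ℝ) : Prop :=
  ∃ e1 e2 e3 e4 d gR gL hR hL nR nL m1 m3 mt : ℝ, ∃ ms : ℝ → ℝ,
    16 * e1 * Y1 ρ v τ ≤ (2 - ρ) * (2 - ρ * (1 - v)) ∧
    16 * e2 * Y2 ρ v τ ≤ ρ * (ρ * (1 - v)) ∧
    16 * e3 * Y3 ρ v τ ≤ ρ * (ρ * (1 + v)) ∧
    16 * e4 * Y4 ρ v τ ≤ (2 - ρ) * (2 - ρ * (1 + v)) ∧
    2 * d * Dp ρ v τ ≤ (1 - τ ^ 2) * (2 - ρ * (1 - v)) * et ρ v ∧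
    (2 - ρ * (1 - v)) * Y2 ρ v τ ≤ gR ∧ ρ ^ 2 * (1 - v) * Y1 ρ v τ ≤ (2 - ρ) * gR ∧
    (2 - ρ * (1 + v)) * Y3 ρ v τ ≤ gL ∧ ρ ^ 2 * (1 + v) * Y4 ρ v τ ≤ (2 - ρ) * gL ∧
    ρ * xi ρ v ^ 2 ≤ hR * gR ∧ ρ * et ρ v ^ 2 ≤ hL * gL ∧ |nR| ≤ 1 ∧ |nL| ≤ 1 ∧
    0 ≤ m1 ∧ 0 ≤ m3 ∧ 0 ≤ mt ∧ (∀ p, 0 ≤ ms p) ∧
    ∀ p y z : ℝ, 0 ≤ Fr kap A B ρ v τ e1 e2 e3 e4 ((1 - v) * d) (gR + gL) hR hL nR nL 1 p (y / 2) z -
      m1 * (G1 ρ v 1 p (y / 2) z * (2 / 3 * Y1 ρ v τ - G1 ρ v 1 p (y / 2) z)) -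
      m3 * (G3 ρ v 1 p z * (2 / 3 * Y3 ρ v τ - G3 ρ v 1 p z)) -
      mt * ((lt ρ 1 p z - t0) * (t1 - lt ρ 1 p z)) - ms p

lemma free_of_OK53 {kap A B t0 t1 ρ v τ t P R : ℝ} (hτ : -1 < τ) (hτ1 : τ < 1) (hρ : 0 < ρ)
    (hρ1 : ρ ≤ 1) (hv : 0 ≤ v) (hv1 : v ≤ 1) (ht0 : t0 ≤ t) (ht1 : t ≤ t1)
    (hb1 : Bx 0 τ (1 - ρ * (1 - v)) t P) (hb2 : Bx 0 τ (ρ * (1 + v) - 1) t R)
    (h : OK53 kap A B t0 t1 ρ v τ) :
    FreeOK kap A B ρ v τ 1 (-R) ((P + R) / 2) (t - 1 / 2 - (1 - ρ) * R) := by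
  obtain ⟨e1, e2, e3, e4, d, gR, gL, hR, hL, nR, nL, m1, m3, mt, ms, h1, h2, h3, h4, h5, h6, h7, h8,
    h9, h10, h11, h12, h13, h14, h15, h16, h17, h18⟩ := h
  obtain ⟨y1, y2, y3, y4⟩ := Y_pos hτ hτ1 hρ hρ1 (by linarith) hv1
  have q1 : 0 ≤ 1 - v := by linarith
  have qa : 1 ≤ 2 - ρ * (1 - v) := by nlinarith
  have hgR : 0 < gR := lt_of_lt_of_le (by positivity) h6
  have hgL : 0 < gL := by
    have h0 : 0 < (2 - ρ) * gL := lt_of_lt_of_le (by positivity) h9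
    exact pos_of_mul_pos_right (by linarith) (by linarith : (0:ℝ) ≤ 2 - ρ)
  refine ⟨e1, e2, e3, e4, (1 - v) * d, gR, gL, hR, hL, nR, nL, h1, h2, h3, h4, ?_, ?_, hgR, h7, h6,
    hgL, h8, h9, h10, h11, h12, h13, ?_⟩
  · have := mul_le_mul_of_nonneg_left h5 q1
    calc 2 * ((1 - v) * d) * Dp ρ v τ = (1 - v) * (2 * d * Dp ρ v τ) := by ring
      _ ≤ _ := this
      _ = _ := by unfold xi; ring
  · rcases q1.lt_or_eq with h0 | h0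
    · right; left
      unfold xi
      have : 0 < 2 - ρ * (1 - v) := by linarith
      positivity
    · left; rw [← h0]; simp
  · have hh := h18 (-R) (P + R) (t - 1 / 2 - (1 - ρ) * R)
    obtain ⟨b1, b2, -, -⟩ := hb1
    obtain ⟨c1, c2, -, -⟩ := hb2
    have eY1 : 1 - τ * (1 + (1 - ρ * (1 - v))) / 2 = Y1 ρ v τ := by unfold Y1; ring
    have eY3 : 1 - τ * (1 + (ρ * (1 + v) - 1)) / 2 = Y3 ρ v τ := by unfold Y3; ring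
    rw [eY1] at b1 b2
    rw [eY3] at c1 c2
    have eg1 : G1 ρ v 1 (-R) ((P + R) / 2) (t - 1 / 2 - (1 - ρ) * R) =
        t + (1 + (1 - ρ * (1 - v))) * P := by unfold G1 lt lP; ring
    have eg3 : G3 ρ v 1 (-R) (t - 1 / 2 - (1 - ρ) * R) =
        t + (1 + (ρ * (1 + v) - 1)) * R := by unfold G3 lt; ring
    have et : lt ρ 1 (-R) (t - 1 / 2 - (1 - ρ) * R) = t := by unfold lt; ring
    rw [eg1, eg3, et] at hh
    have k1 : 0 ≤ m1 * ((t + (1 + (1 - ρ * (1 - v))) * P) *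
        (2 / 3 * Y1 ρ v τ - (t + (1 + (1 - ρ * (1 - v))) * P))) :=
      mul_nonneg h14 (mul_nonneg (by linarith) (by linarith))
    have k3 : 0 ≤ m3 * ((t + (1 + (ρ * (1 + v) - 1)) * R) *
        (2 / 3 * Y3 ρ v τ - (t + (1 + (ρ * (1 + v) - 1)) * R))) :=
      mul_nonneg h15 (mul_nonneg (by linarith) (by linarith))
    have kt : 0 ≤ mt * ((t - t0) * (t1 - t)) :=
      mul_nonneg h16 (mul_nonneg (by linarith) (by linarith))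
    have km := h17 (-R)
    linarith

/-- **`PWat` from the pointwise certificates** -/
theorem PWat_of_OK53 {τ t t0 t1 kap A B : ℝ} (hτ : 0 < τ) (hτ1 : τ < 1) (hk : 0 ≤ kap)
    (ht0 : t0 ≤ t) (ht1 : t ≤ t1)
    (H : ∀ s, s = τ ∨ s = -τ → ∀ ρ v : ℝ, 0 < ρ → ρ ≤ 1 → 0 ≤ v → v ≤ 1 →
      OK53 kap A B t0 t1 ρ v s) :
    PWat 0 τ t kap (A + B * t) (1 / 6 - t ^ 2 / 2) := by
  refine PWat_of_free hτ hτ1 hk ?_
  intro s hs ρ v P R hρ hρ1 hv hv1 hb1 hb2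
  have hs1 : -1 < s ∧ s < 1 := by rcases hs with h | h <;> rw [h] <;> constructor <;> linarith
  exact free_of_OK53 hs1.1 hs1.2 hρ hρ1 hv hv1 ht0 ht1 hb1 hb2 (H s hs ρ v hρ hρ1 hv hv1)

/-- **the general pointwise certificate** (all four boxes): `(ρ, v, τ)` is good for the constants
`kap, A, B` on the window `t ∈ [t0, t1]`, loads in `[0, 2/3]`; variables `p = η`, `y = P + R`, `z` -/
def OKp (kap A B t0 t1 ρ v τ : ℝ) : Prop :=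
  ∃ e1 e2 e3 e4 d gR gL hR hL nR nL m1 m2 m3 m4 mt : ℝ, ∃ ms : ℝ → ℝ,
    16 * e1 * Y1 ρ v τ ≤ (2 - ρ) * (2 - ρ * (1 - v)) ∧
    16 * e2 * Y2 ρ v τ ≤ ρ * (ρ * (1 - v)) ∧
    16 * e3 * Y3 ρ v τ ≤ ρ * (ρ * (1 + v)) ∧
    16 * e4 * Y4 ρ v τ ≤ (2 - ρ) * (2 - ρ * (1 + v)) ∧
    2 * d * Dp ρ v τ ≤ (1 - τ ^ 2) * (2 - ρ * (1 - v)) * et ρ v ∧
    (2 - ρ * (1 - v)) * Y2 ρ v τ ≤ gR ∧ ρ ^ 2 * (1 - v) * Y1 ρ v τ ≤ (2 - ρ) * gR ∧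
    (2 - ρ * (1 + v)) * Y3 ρ v τ ≤ gL ∧ ρ ^ 2 * (1 + v) * Y4 ρ v τ ≤ (2 - ρ) * gL ∧
    ρ * xi ρ v ^ 2 ≤ hR * gR ∧ ρ * et ρ v ^ 2 ≤ hL * gL ∧ |nR| ≤ 1 ∧ |nL| ≤ 1 ∧
    0 ≤ m1 ∧ 0 ≤ m2 ∧ 0 ≤ m3 ∧ 0 ≤ m4 ∧ 0 ≤ mt ∧ (∀ p, 0 ≤ ms p) ∧
    ∀ p y z : ℝ, 0 ≤ Fr kap A B ρ v τ e1 e2 e3 e4 ((1 - v) * d) (gR + gL) hR hL nR nL 1 p (y / 2) z -
      m1 * (G1 ρ v 1 p (y / 2) z * (2 / 3 * Y1 ρ v τ - G1 ρ v 1 p (y / 2) z)) -
      m2 * (G2 ρ v 1 p (y / 2) z * (2 / 3 * Y2 ρ v τ - G2 ρ v 1 p (y / 2) z)) -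
      m3 * (G3 ρ v 1 p z * (2 / 3 * Y3 ρ v τ - G3 ρ v 1 p z)) -
      m4 * (G4 ρ v 1 p z * (2 / 3 * Y4 ρ v τ - G4 ρ v 1 p z)) -
      mt * ((lt ρ 1 p z - t0) * (t1 - lt ρ 1 p z)) - ms p

lemma free_of_OKp {kap A B t0 t1 ρ v τ t P R : ℝ} (hτ : -1 < τ) (hτ1 : τ < 1) (hρ : 0 < ρ)
    (hρ1 : ρ ≤ 1) (hv : 0 ≤ v) (hv1 : v ≤ 1) (ht0 : t0 ≤ t) (ht1 : t ≤ t1)
    (hb1 : Bx 0 τ (1 - ρ * (1 - v)) t P) (hb2 : Bx 0 τ (ρ * (1 + v) - 1) t R)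
    (h : OKp kap A B t0 t1 ρ v τ) :
    FreeOK kap A B ρ v τ 1 (-R) ((P + R) / 2) (t - 1 / 2 - (1 - ρ) * R) := by
  obtain ⟨e1, e2, e3, e4, d, gR, gL, hR, hL, nR, nL, m1, m2, m3, m4, mt, ms, h1, h2, h3, h4, h5,
    h6, h7, h8, h9, h10, h11, h12, h13, h14, h15, h16, h17, h18, h19, h20⟩ := h
  obtain ⟨y1, y2, y3, y4⟩ := Y_pos hτ hτ1 hρ hρ1 (by linarith) hv1
  have q1 : 0 ≤ 1 - v := by linarith
  have qa : 1 ≤ 2 - ρ * (1 - v) := by nlinarith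
  have hgR : 0 < gR := lt_of_lt_of_le (by positivity) h6
  have hgL : 0 < gL := by
    have h0 : 0 < (2 - ρ) * gL := lt_of_lt_of_le (by positivity) h9
    exact pos_of_mul_pos_right (by linarith) (by linarith : (0:ℝ) ≤ 2 - ρ)
  refine ⟨e1, e2, e3, e4, (1 - v) * d, gR, gL, hR, hL, nR, nL, h1, h2, h3, h4, ?_, ?_, hgR, h7, h6,
    hgL, h8, h9, h10, h11, h12, h13, ?_⟩
  · have := mul_le_mul_of_nonneg_left h5 q1
    calc 2 * ((1 - v) * d) * Dp ρ v τ = (1 - v) * (2 * d * Dp ρ v τ) := by ring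
      _ ≤ _ := this
      _ = _ := by unfold xi; ring
  · rcases q1.lt_or_eq with h0 | h0
    · right; left
      unfold xi
      have : 0 < 2 - ρ * (1 - v) := by linarith
      positivity
    · left; rw [← h0]; simp
  · have hh := h20 (-R) (P + R) (t - 1 / 2 - (1 - ρ) * R)
    obtain ⟨b1, b2, b3, b4⟩ := hb1
    obtain ⟨c1, c2, c3, c4⟩ := hb2
    have eY1 : 1 - τ * (1 + (1 - ρ * (1 - v))) / 2 = Y1 ρ v τ := by unfold Y1; ring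
    have eY2 : 1 + τ * (1 - (1 - ρ * (1 - v))) / 2 = Y2 ρ v τ := by unfold Y2; ring
    have eY3 : 1 - τ * (1 + (ρ * (1 + v) - 1)) / 2 = Y3 ρ v τ := by unfold Y3; ring
    have eY4 : 1 + τ * (1 - (ρ * (1 + v) - 1)) / 2 = Y4 ρ v τ := by unfold Y4; ring
    rw [eY1] at b1 b2
    rw [eY2] at b3 b4
    rw [eY3] at c1 c2
    rw [eY4] at c3 c4
    have eg1 : G1 ρ v 1 (-R) ((P + R) / 2) (t - 1 / 2 - (1 - ρ) * R) =
        t + (1 + (1 - ρ * (1 - v))) * P := by unfold G1 lt lP; ring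
    have eg2 : G2 ρ v 1 (-R) ((P + R) / 2) (t - 1 / 2 - (1 - ρ) * R) =
        t - (1 - (1 - ρ * (1 - v))) * P := by unfold G2 lt lP; ring
    have eg3 : G3 ρ v 1 (-R) (t - 1 / 2 - (1 - ρ) * R) =
        t + (1 + (ρ * (1 + v) - 1)) * R := by unfold G3 lt; ring
    have eg4 : G4 ρ v 1 (-R) (t - 1 / 2 - (1 - ρ) * R) =
        t - (1 - (ρ * (1 + v) - 1)) * R := by unfold G4 lt; ring
    have et : lt ρ 1 (-R) (t - 1 / 2 - (1 - ρ) * R) = t := by unfold lt; ring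
    rw [eg1, eg2, eg3, eg4, et] at hh
    have k1 : 0 ≤ m1 * ((t + (1 + (1 - ρ * (1 - v))) * P) *
        (2 / 3 * Y1 ρ v τ - (t + (1 + (1 - ρ * (1 - v))) * P))) :=
      mul_nonneg h14 (mul_nonneg (by linarith) (by linarith))
    have k2 : 0 ≤ m2 * ((t - (1 - (1 - ρ * (1 - v))) * P) *
        (2 / 3 * Y2 ρ v τ - (t - (1 - (1 - ρ * (1 - v))) * P))) :=
      mul_nonneg h15 (mul_nonneg (by linarith) (by linarith))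
    have k3 : 0 ≤ m3 * ((t + (1 + (ρ * (1 + v) - 1)) * R) *
        (2 / 3 * Y3 ρ v τ - (t + (1 + (ρ * (1 + v) - 1)) * R))) :=
      mul_nonneg h16 (mul_nonneg (by linarith) (by linarith))
    have k4 : 0 ≤ m4 * ((t - (1 - (ρ * (1 + v) - 1)) * R) *
        (2 / 3 * Y4 ρ v τ - (t - (1 - (ρ * (1 + v) - 1)) * R))) :=
      mul_nonneg h17 (mul_nonneg (by linarith) (by linarith))
    have kt : 0 ≤ mt * ((t - t0) * (t1 - t)) :=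
      mul_nonneg h18 (mul_nonneg (by linarith) (by linarith))
    have km := h19 (-R)
    linarith

/-- **`PWat` from the general pointwise certificates** -/
theorem PWat_of_OKp {τ t t0 t1 kap A B : ℝ} (hτ : 0 < τ) (hτ1 : τ < 1) (hk : 0 ≤ kap)
    (ht0 : t0 ≤ t) (ht1 : t ≤ t1)
    (H : ∀ s, s = τ ∨ s = -τ → ∀ ρ v : ℝ, 0 < ρ → ρ ≤ 1 → 0 ≤ v → v ≤ 1 →
      OKp kap A B t0 t1 ρ v s) :
    PWat 0 τ t kap (A + B * t) (1 / 6 - t ^ 2 / 2) := by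
  refine PWat_of_free hτ hτ1 hk ?_
  intro s hs ρ v P R hρ hρ1 hv hv1 hb1 hb2
  have hs1 : -1 < s ∧ s < 1 := by rcases hs with h | h <;> rw [h] <;> constructor <;> linarith
  exact free_of_OKp hs1.1 hs1.2 hρ hρ1 hv hv1 ht0 ht1 hb1 hb2 (H s hs ρ v hρ hρ1 hv hv1)

lemma OKp_of_OK53 {kap A B t0 t1 ρ v τ : ℝ} (h : OK53 kap A B t0 t1 ρ v τ) :
    OKp kap A B t0 t1 ρ v τ := by
  obtain ⟨e1, e2, e3, e4, d, gR, gL, hR, hL, nR, nL, m1, m3, mt, ms, h1, h2, h3, h4, h5, h6, h7, h8,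
    h9, h10, h11, h12, h13, h14, h15, h16, h17, h18⟩ := h
  refine ⟨e1, e2, e3, e4, d, gR, gL, hR, hL, nR, nL, m1, 0, m3, 0, mt, ms, h1, h2, h3, h4, h5, h6,
    h7, h8, h9, h10, h11, h12, h13, h14, le_rfl, h15, le_rfl, h16, h17, fun p y z => ?_⟩
  have := h18 p y z
  linarith

end PB
end Pool.G1.Gap
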