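import Mathlib

/-!
# G1, line P-a, energies with weights: admissible arc weights

`AW tau k0 k1 lo hi w`: on the arc `[lo, hi]` the weight `K x = k0 + k1 x` of the energy density
dominates the constant `w` in the sense of Cauchy-Schwarz, by a cubic `q` with `w ≤ K q` and
mean of `(1 - tau x) q` at most `1`.
-/

set_option autoImplicit false

namespace Pool.G1.Gap

/-- antiderivative of `1 - τ x` -/
noncomputable def Yx (tau x : ℝ) : ℝ := x - tau * x ^ 2 / 2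

/-- antiderivative of `x (1 - τ x)` -/
noncomputable def Mx (tau x : ℝ) : ℝ := x ^ 2 / 2 - tau * x ^ 3 / 3

/-- antiderivative of `(1 - τ x) (q0 + q1 x + q2 x² + q3 x³)` -/
noncomputable def Qx (tau q0 q1 q2 q3 x : ℝ) : ℝ :=
  q0 * x + (q1 - tau * q0) * x ^ 2 / 2 + (q2 - tau * q1) * x ^ 3 / 3 + (q3 - tau * q2) * x ^ 4 / 4 -
    tau * q3 * x ^ 5 / 5

/-- admissible arc weight -/
def AW (tau k0 k1 lo hi w : ℝ) : Prop :=
  ∃ q0 q1 q2 q3 : ℝ,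
    (∀ x, lo ≤ x → x ≤ hi → 0 ≤ k0 + k1 * x ∧ 0 ≤ q0 + q1 * x + q2 * x ^ 2 + q3 * x ^ 3 ∧
      w ≤ (k0 + k1 * x) * (q0 + q1 * x + q2 * x ^ 2 + q3 * x ^ 3)) ∧
    q0 * (hi - lo) + (q1 - tau * q0) * (hi ^ 2 - lo ^ 2) / 2 +
      (q2 - tau * q1) * (hi ^ 3 - lo ^ 3) / 3 + (q3 - tau * q2) * (hi ^ 4 - lo ^ 4) / 4 -
      tau * q3 * (hi ^ 5 - lo ^ 5) / 5 ≤ hi - lo

lemma hd_Yx (tau x : ℝ) : HasDerivAt (Yx tau) (1 - tau * x) x := by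
  have h := ((hasDerivAt_id x).sub (((hasDerivAt_pow 2 x).const_mul tau).div_const 2))
  refine h.congr_deriv ?_
  norm_num
  ring

lemma hd_Mx (tau x : ℝ) : HasDerivAt (Mx tau) (x * (1 - tau * x)) x := by
  have h := ((hasDerivAt_pow 2 x).div_const 2).sub (((hasDerivAt_pow 3 x).const_mul tau).div_const 3)
  refine h.congr_deriv ?_
  norm_num
  ring

lemma hd_Qx (tau q0 q1 q2 q3 x : ℝ) : HasDerivAt (Qx tau q0 q1 q2 q3)
    ((1 - tau * x) * (q0 + q1 * x + q2 * x ^ 2 + q3 * x ^ 3)) x := by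
  have h := ((((((hasDerivAt_id x).const_mul q0).add
    (((hasDerivAt_pow 2 x).const_mul (q1 - tau * q0)).div_const 2)).add
    (((hasDerivAt_pow 3 x).const_mul (q2 - tau * q1)).div_const 3)).add
    (((hasDerivAt_pow 4 x).const_mul (q3 - tau * q2)).div_const 4)).sub
    (((hasDerivAt_pow 5 x).const_mul (tau * q3)).div_const 5))
  refine h.congr_deriv ?_
  norm_num
  ring

lemma mono_of_hd {F f : ℝ → ℝ} (h : ∀ x, HasDerivAt F (f x) x) {x x' : ℝ} (hx : x ≤ x')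
    (hf : ∀ z, x ≤ z → z ≤ x' → 0 ≤ f z) : F x ≤ F x' := by
  have hc : ContinuousOn F (Set.Icc x x') := fun z _ => (h z).continuousAt.continuousWithinAt
  have hm : MonotoneOn F (Set.Icc x x') := by
    refine monotoneOn_of_deriv_nonneg (convex_Icc x x') hc
      (fun z _ => (h z).differentiableAt.differentiableWithinAt) (fun z hz => ?_)
    rw [(h z).deriv]
    rw [interior_Icc] at hz
    exact hf z hz.1.le hz.2.le
  exact hm ⟨le_rfl, hx⟩ ⟨hx, le_rfl⟩ hx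

/-- Cauchy-Schwarz on a piece of an arc, antiderivative form -/
lemma edge_cs {tau k0 k1 q0 q1 q2 q3 w x x' : ℝ} (hx : x ≤ x') (hw : 0 ≤ w)
    (hy : ∀ z, x ≤ z → z ≤ x' → 0 ≤ 1 - tau * z)
    (hK : ∀ z, x ≤ z → z ≤ x' → 0 ≤ k0 + k1 * z ∧ 0 ≤ q0 + q1 * z + q2 * z ^ 2 + q3 * z ^ 3 ∧
      w ≤ (k0 + k1 * z) * (q0 + q1 * z + q2 * z ^ 2 + q3 * z ^ 3)) :
    0 ≤ (k0 * Yx tau x' + k1 * Mx tau x') - (k0 * Yx tau x + k1 * Mx tau x) ∧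
      0 ≤ Qx tau q0 q1 q2 q3 x' - Qx tau q0 q1 q2 q3 x ∧
      w * (Yx tau x' - Yx tau x) ^ 2 ≤
        ((k0 * Yx tau x' + k1 * Mx tau x') - (k0 * Yx tau x + k1 * Mx tau x)) *
          (Qx tau q0 q1 q2 q3 x' - Qx tau q0 q1 q2 q3 x) := by
  have hdK : ∀ z, HasDerivAt (fun z => k0 * Yx tau z + k1 * Mx tau z)
      (k0 * (1 - tau * z) + k1 * (z * (1 - tau * z))) z := fun z =>
    ((hd_Yx tau z).const_mul k0).add ((hd_Mx tau z).const_mul k1)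
  have h1 := mono_of_hd hdK hx (fun z h1 h2 => by
    have e : k0 * (1 - tau * z) + k1 * (z * (1 - tau * z)) = (1 - tau * z) * (k0 + k1 * z) := by ring
    rw [e]
    exact mul_nonneg (hy z h1 h2) (hK z h1 h2).1)
  have h2 := mono_of_hd (hd_Qx tau q0 q1 q2 q3) hx (fun z h1 h2 =>
    mul_nonneg (hy z h1 h2) (hK z h1 h2).2.1)
  have c1 : 0 ≤ (k0 * Yx tau x' + k1 * Mx tau x') - (k0 * Yx tau x + k1 * Mx tau x) := by linarith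
  have c2 : 0 ≤ Qx tau q0 q1 q2 q3 x' - Qx tau q0 q1 q2 q3 x := by linarith
  refine ⟨c1, c2, ?_⟩
  rcases eq_or_lt_of_le hw with hw0 | hw0
  · rw [← hw0, zero_mul]
    exact mul_nonneg c1 c2
  have h3 : ∀ s : ℝ, 0 ≤ ((k0 * Yx tau x' + k1 * Mx tau x') - (k0 * Yx tau x + k1 * Mx tau x)) * (s * s) +
      (-2 * w * (Yx tau x' - Yx tau x)) * s +
        w * (Qx tau q0 q1 q2 q3 x' - Qx tau q0 q1 q2 q3 x) := by
    intro s
    have hdS : ∀ z, HasDerivAt (fun z => s ^ 2 * (k0 * Yx tau z + k1 * Mx tau z) +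
        (-2 * w * s) * Yx tau z + w * Qx tau q0 q1 q2 q3 z)
        (s ^ 2 * (k0 * (1 - tau * z) + k1 * (z * (1 - tau * z))) + (-2 * w * s) * (1 - tau * z) +
          w * ((1 - tau * z) * (q0 + q1 * z + q2 * z ^ 2 + q3 * z ^ 3))) z := fun z =>
      (((hdK z).const_mul (s ^ 2)).add ((hd_Yx tau z).const_mul (-2 * w * s))).add
        ((hd_Qx tau q0 q1 q2 q3 z).const_mul w)
    have h4 := mono_of_hd hdS hx (fun z h1 h2 => by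
      have e : s ^ 2 * (k0 * (1 - tau * z) + k1 * (z * (1 - tau * z))) + (-2 * w * s) * (1 - tau * z) +
          w * ((1 - tau * z) * (q0 + q1 * z + q2 * z ^ 2 + q3 * z ^ 3)) =
          (1 - tau * z) * ((k0 + k1 * z) * s ^ 2 - 2 * w * s +
            w * (q0 + q1 * z + q2 * z ^ 2 + q3 * z ^ 3)) := by ring
      rw [e]
      refine mul_nonneg (hy z h1 h2) ?_
      obtain ⟨g1, g2, g3⟩ := hK z h1 h2
      generalize k0 + k1 * z = K at g1 g3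
      generalize q0 + q1 * z + q2 * z ^ 2 + q3 * z ^ 3 = q at g2 g3
      rcases eq_or_lt_of_le g1 with hK0 | hK0
      · rw [← hK0, zero_mul] at g3
        linarith
      · have h5 : 0 ≤ K * (K * s ^ 2 - 2 * w * s + w * q) := by
          have : K * (K * s ^ 2 - 2 * w * s + w * q) = (K * s - w) ^ 2 + w * (K * q - w) := by ring
          rw [this]
          exact add_nonneg (sq_nonneg _) (mul_nonneg hw0.le (by linarith))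
        exact nonneg_of_mul_nonneg_right h5 hK0)
    nlinarith [h4]
  have h5 := discrim_le_zero h3
  unfold discrim at h5
  have h6 : w * (w * (Yx tau x' - Yx tau x) ^ 2) ≤
      w * (((k0 * Yx tau x' + k1 * Mx tau x') - (k0 * Yx tau x + k1 * Mx tau x)) *
          (Qx tau q0 q1 q2 q3 x' - Qx tau q0 q1 q2 q3 x)) := by nlinarith [h5]
  exact le_of_mul_le_mul_left h6 hw0

/-- (A) Cauchy-Schwarz on a piece of an arc, explicit form -/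
lemma edge_A {tau k0 k1 q0 q1 q2 q3 w x0 x1 : ℝ} (htau : 0 ≤ tau) (hx : x0 ≤ x1)
    (hx1 : tau * x1 < 1) (hw : 0 ≤ w)
    (hK : ∀ z, x0 ≤ z → z ≤ x1 → 0 ≤ k0 + k1 * z ∧ 0 ≤ q0 + q1 * z + q2 * z ^ 2 + q3 * z ^ 3 ∧
      w ≤ (k0 + k1 * z) * (q0 + q1 * z + q2 * z ^ 2 + q3 * z ^ 3)) :
    0 ≤ k0 * (x1 - x0) + (k1 - tau * k0) * (x1 ^ 2 - x0 ^ 2) / 2 -
        tau * k1 * (x1 ^ 3 - x0 ^ 3) / 3 ∧
      0 ≤ q0 * (x1 - x0) + (q1 - tau * q0) * (x1 ^ 2 - x0 ^ 2) / 2 +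
        (q2 - tau * q1) * (x1 ^ 3 - x0 ^ 3) / 3 + (q3 - tau * q2) * (x1 ^ 4 - x0 ^ 4) / 4 -
        tau * q3 * (x1 ^ 5 - x0 ^ 5) / 5 ∧
      w * ((x1 - x0) - tau * (x1 ^ 2 - x0 ^ 2) / 2) ^ 2 ≤
        (k0 * (x1 - x0) + (k1 - tau * k0) * (x1 ^ 2 - x0 ^ 2) / 2 -
          tau * k1 * (x1 ^ 3 - x0 ^ 3) / 3) *
        (q0 * (x1 - x0) + (q1 - tau * q0) * (x1 ^ 2 - x0 ^ 2) / 2 +
          (q2 - tau * q1) * (x1 ^ 3 - x0 ^ 3) / 3 + (q3 - tau * q2) * (x1 ^ 4 - x0 ^ 4) / 4 -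
          tau * q3 * (x1 ^ 5 - x0 ^ 5) / 5) := by
  obtain ⟨h1, h2, h3⟩ := edge_cs (tau := tau) hx hw (fun z _ h2 => by
    have := mul_le_mul_of_nonneg_left h2 htau
    linarith) hK
  have e1 : (k0 * Yx tau x1 + k1 * Mx tau x1) - (k0 * Yx tau x0 + k1 * Mx tau x0) =
      k0 * (x1 - x0) + (k1 - tau * k0) * (x1 ^ 2 - x0 ^ 2) / 2 -
        tau * k1 * (x1 ^ 3 - x0 ^ 3) / 3 := by unfold Yx Mx; ring
  have e2 : Qx tau q0 q1 q2 q3 x1 - Qx tau q0 q1 q2 q3 x0 =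
      q0 * (x1 - x0) + (q1 - tau * q0) * (x1 ^ 2 - x0 ^ 2) / 2 +
        (q2 - tau * q1) * (x1 ^ 3 - x0 ^ 3) / 3 + (q3 - tau * q2) * (x1 ^ 4 - x0 ^ 4) / 4 -
        tau * q3 * (x1 ^ 5 - x0 ^ 5) / 5 := by unfold Qx; ring
  have e3 : Yx tau x1 - Yx tau x0 = (x1 - x0) - tau * (x1 ^ 2 - x0 ^ 2) / 2 := by unfold Yx; ring
  rw [e1, e2, e3] at h3
  rw [e1] at h1
  rw [e2] at h2
  exact ⟨h1, h2, h3⟩

/-- (B) the Lobatto weight -/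
lemma AW_lobatto {tau k0 k1 lo hi w c h Kc yc : ℝ} (hc : c = (lo + hi) / 2) (hh : h = (hi - lo) / 2)
    (hh0 : 0 ≤ h) (hKc : Kc = k0 + k1 * c) (hK0 : 0 < Kc) (hk1 : |k1| * h < Kc)
    (hyc : yc = 1 - tau * c) (hw : 0 ≤ w)
    (hmain : w * (yc * (Kc ^ 3 - 2 / 3 * k1 ^ 2 * h ^ 2 * Kc) +
      tau * k1 * h ^ 2 * (Kc ^ 2 / 3 - 2 / 15 * k1 ^ 2 * h ^ 2)) ≤
        Kc ^ 2 * (Kc ^ 2 - k1 ^ 2 * h ^ 2)) :
    AW tau k0 k1 lo hi w := by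
  have hE : 0 < Kc ^ 2 - k1 ^ 2 * h ^ 2 := by
    have h1 : 0 ≤ |k1| * h := mul_nonneg (abs_nonneg _) hh0
    have h2 : (|k1| * h) ^ 2 < Kc ^ 2 := pow_lt_pow_left₀ hk1 h1 (by norm_num)
    rw [mul_pow, sq_abs] at h2
    linarith
  obtain ⟨E, hEe⟩ : ∃ E, E = Kc ^ 2 - k1 ^ 2 * h ^ 2 := ⟨_, rfl⟩
  rw [← hEe] at hE
  have hD : 0 < Kc ^ 2 * E := by positivity
  have hlo : lo = c - h := by rw [hc, hh]; ring
  have hhi : hi = c + h := by rw [hc, hh]; ring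
  refine ⟨w * (Kc * E + k1 * E * c + Kc * k1 ^ 2 * c ^ 2 + k1 ^ 3 * c ^ 3) / (Kc ^ 2 * E),
    w * (-k1 * E - 2 * Kc * k1 ^ 2 * c - 3 * k1 ^ 3 * c ^ 2) / (Kc ^ 2 * E),
    w * (Kc * k1 ^ 2 + 3 * k1 ^ 3 * c) / (Kc ^ 2 * E), w * (-k1 ^ 3) / (Kc ^ 2 * E), ?_, ?_⟩
  · intro x hx1 hx2
    have eq : w * (Kc * E + k1 * E * c + Kc * k1 ^ 2 * c ^ 2 + k1 ^ 3 * c ^ 3) / (Kc ^ 2 * E) +
        w * (-k1 * E - 2 * Kc * k1 ^ 2 * c - 3 * k1 ^ 3 * c ^ 2) / (Kc ^ 2 * E) * x +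
        w * (Kc * k1 ^ 2 + 3 * k1 ^ 3 * c) / (Kc ^ 2 * E) * x ^ 2 +
        w * (-k1 ^ 3) / (Kc ^ 2 * E) * x ^ 3 =
        w * ((Kc - k1 * (x - c)) * (E + k1 ^ 2 * (x - c) ^ 2)) / (Kc ^ 2 * E) := by
      field_simp
      ring
    rw [eq]
    obtain ⟨v, hv⟩ : ∃ v, v = x - c := ⟨_, rfl⟩
    have hK : k0 + k1 * x = Kc + k1 * v := by rw [hKc, hv]; ring
    rw [← hv, hK]
    have hvh : |v| ≤ h := by
      rw [abs_le, hv]
      constructor <;> linarith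
    have hkv : |k1 * v| < Kc := by
      rw [abs_mul]
      exact lt_of_le_of_lt (mul_le_mul_of_nonneg_left hvh (abs_nonneg _)) hk1
    have hkv1 := (abs_lt.mp hkv).1
    have hkv2 := (abs_lt.mp hkv).2
    have hv2 : v ^ 2 ≤ h ^ 2 := by
      rw [← sq_abs v]
      exact pow_le_pow_left₀ (abs_nonneg _) hvh 2
    have hEv : 0 ≤ E + k1 ^ 2 * v ^ 2 := by positivity
    refine ⟨by linarith, ?_, ?_⟩
    · exact div_nonneg (mul_nonneg hw (mul_nonneg (by linarith) hEv)) hD.le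
    · have e2 : (Kc + k1 * v) * (w * ((Kc - k1 * v) * (E + k1 ^ 2 * v ^ 2)) / (Kc ^ 2 * E)) =
          w + w * (k1 ^ 2 * v ^ 2 * (k1 ^ 2 * (h ^ 2 - v ^ 2))) / (Kc ^ 2 * E) := by
        rw [eq_comm, ← sub_eq_zero]
        have : w + w * (k1 ^ 2 * v ^ 2 * (k1 ^ 2 * (h ^ 2 - v ^ 2))) / (Kc ^ 2 * E) -
          (Kc + k1 * v) * (w * ((Kc - k1 * v) * (E + k1 ^ 2 * v ^ 2)) / (Kc ^ 2 * E)) =
          w * (Kc ^ 2 * E + k1 ^ 2 * v ^ 2 * (k1 ^ 2 * (h ^ 2 - v ^ 2)) -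
            (Kc + k1 * v) * ((Kc - k1 * v) * (E + k1 ^ 2 * v ^ 2))) / (Kc ^ 2 * E) := by
          field_simp
        rw [this]
        have h0 : Kc ^ 2 * E + k1 ^ 2 * v ^ 2 * (k1 ^ 2 * (h ^ 2 - v ^ 2)) -
            (Kc + k1 * v) * ((Kc - k1 * v) * (E + k1 ^ 2 * v ^ 2)) = 0 := by
          rw [hEe]; ring
        rw [h0, mul_zero, zero_div]
      rw [e2]
      have : 0 ≤ w * (k1 ^ 2 * v ^ 2 * (k1 ^ 2 * (h ^ 2 - v ^ 2))) / (Kc ^ 2 * E) :=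
        div_nonneg (mul_nonneg hw (mul_nonneg (by positivity)
          (mul_nonneg (sq_nonneg _) (by linarith)))) hD.le
      linarith
  · have e3 : w * (Kc * E + k1 * E * c + Kc * k1 ^ 2 * c ^ 2 + k1 ^ 3 * c ^ 3) / (Kc ^ 2 * E) * (hi - lo) +
        (w * (-k1 * E - 2 * Kc * k1 ^ 2 * c - 3 * k1 ^ 3 * c ^ 2) / (Kc ^ 2 * E) -
          tau * (w * (Kc * E + k1 * E * c + Kc * k1 ^ 2 * c ^ 2 + k1 ^ 3 * c ^ 3) / (Kc ^ 2 * E))) *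
          (hi ^ 2 - lo ^ 2) / 2 +
        (w * (Kc * k1 ^ 2 + 3 * k1 ^ 3 * c) / (Kc ^ 2 * E) -
          tau * (w * (-k1 * E - 2 * Kc * k1 ^ 2 * c - 3 * k1 ^ 3 * c ^ 2) / (Kc ^ 2 * E))) *
          (hi ^ 3 - lo ^ 3) / 3 +
        (w * (-k1 ^ 3) / (Kc ^ 2 * E) - tau * (w * (Kc * k1 ^ 2 + 3 * k1 ^ 3 * c) / (Kc ^ 2 * E))) *
          (hi ^ 4 - lo ^ 4) / 4 -
        tau * (w * (-k1 ^ 3) / (Kc ^ 2 * E)) * (hi ^ 5 - lo ^ 5) / 5 =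
        2 * h * (w * (yc * Kc * (E + k1 ^ 2 * h ^ 2 / 3) +
          tau * k1 * h ^ 2 * (E / 3 + k1 ^ 2 * h ^ 2 / 5)) / (Kc ^ 2 * E)) := by
      rw [hyc, hlo, hhi]
      field_simp
      ring
    rw [e3]
    have e4 : hi - lo = 2 * h * 1 := by rw [hh]; ring
    rw [e4]
    refine mul_le_mul_of_nonneg_left ?_ (by linarith)
    rw [div_le_one hD]
    calc _ = w * (yc * (Kc ^ 3 - 2 / 3 * k1 ^ 2 * h ^ 2 * Kc) +
      tau * k1 * h ^ 2 * (Kc ^ 2 / 3 - 2 / 15 * k1 ^ 2 * h ^ 2)) := by rw [hEe]; ring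
      _ ≤ _ := hmain
      _ = _ := by rw [hEe]

end Pool.G1.Gap
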