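import Pool.Agent.Work.MP_b5407d_g1.Pl_PW
import Pool.Agent.Work.MP_b5407d_g1.Pl_PWEa

/-!
# G1, line P: reduction with the first energy moment (`PWE`)

Extension of `Pl_PW`: the multiplier of the second closure contains a multiple `chi` of the first
moment of the squared load deviations, and the closure of the midrange multiplier is free (`m0`).
With `chi = 0`, `m0 = 1/2 - t` this is `PWat`.
-/

set_option autoImplicit false

open Finset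

namespace Pool.G1.Gap

/-- the reduced form with arc weights `w1, w2` (first chain, lower and upper arc), `w3, w4` -/
noncomputable def FE (tau a b t P R w1 w2 w3 w4 : ℝ) : ℝ :=
  1 / 2 * (1 - a ^ 2) * (t - 1 / 2 + a * P) ^ 2 + 1 / 2 * (1 - b ^ 2) * (t - 1 / 2 + b * R) ^ 2 +
    1 / 2 * (1 - tau ^ 2) * (1 - a ^ 2) * (1 - b ^ 2) * (a * P - b * R) ^ 2 /
      ((1 - a ^ 2) * (1 - tau * b) + (1 - b ^ 2) * (1 - tau * a)) -
    tau / 2 * (a * (1 - a ^ 2) * P ^ 2 + b * (1 - b ^ 2) * R ^ 2) -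
    tau / 24 * (a * (1 - a ^ 2) + b * (1 - b ^ 2)) +
    ((1 - a) / 8 * (tau * (1 + a) ^ 2 - (a + b)) *
        (t ^ 2 * (1 - tau * (1 + a) / 2) + 2 * t * (1 + a) * (P + tau * t / 2)) +
      (1 - a) * (1 + a) ^ 2 / 4 * (w1 - (1 + a)) * (P + tau * t / 2) ^ 2) +
    (-((1 + a) / 8) * (tau * (1 - a) ^ 2 - (a + b)) *
        (t ^ 2 * (1 + tau * (1 - a) / 2) - 2 * t * (1 - a) * (P + tau * t / 2)) +
      (1 + a) * (1 - a) ^ 2 / 4 * (w2 - (1 - a)) * (P + tau * t / 2) ^ 2) +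
    ((1 - b) / 8 * (tau * (1 + b) ^ 2 - (a + b)) *
        (t ^ 2 * (1 - tau * (1 + b) / 2) + 2 * t * (1 + b) * (R + tau * t / 2)) +
      (1 - b) * (1 + b) ^ 2 / 4 * (w3 - (1 + b)) * (R + tau * t / 2) ^ 2) +
    (-((1 + b) / 8) * (tau * (1 - b) ^ 2 - (a + b)) *
        (t ^ 2 * (1 + tau * (1 - b) / 2) - 2 * t * (1 - b) * (R + tau * t / 2)) +
      (1 + b) * (1 - b) ^ 2 / 4 * (w4 - (1 - b)) * (R + tau * t / 2) ^ 2)

/-- **the pointwise inequality with first energy moment** -/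
def PWE (L tau t kap lp nu chi m0 : ℝ) : Prop :=
  ∀ a b : ℝ, -1 ≤ a → a ≤ 1 → -1 ≤ b → b ≤ 1 →
    ∃ w1 w2 w3 w4 : ℝ, 0 ≤ w1 ∧ 0 ≤ w2 ∧ 0 ≤ w3 ∧ 0 ≤ w4 ∧
      AW tau ((2 + (a - b)) / 2) (chi * (a + b)) a 1 w1 ∧
      AW tau ((2 - (a - b)) / 2) (chi * (a + b)) (-1) a w2 ∧
      AW tau ((2 - (a - b)) / 2) (chi * (a + b)) b 1 w3 ∧
      AW tau ((2 + (a - b)) / 2) (chi * (a + b)) (-1) b w4 ∧
      ∀ P R dR dL eR eL : ℝ, Bx L tau a t P → Bx L tau b t R →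
        0 ≤ dR → 0 ≤ dL → 0 ≤ eR → 0 ≤ eL →
        (eR * (1 - a) = w1 ∨ eR * (1 + a) = w2) → (eL * (1 - b) = w3 ∨ eL * (1 + b) = w4) →
        0 ≤ FE tau a b t P R w1 w2 w3 w4 + tau * (a + b) * nu +
          (kap * ((1 - a ^ 2) / 2 * (P + tau * t / 2) + (1 - b ^ 2) / 2 * (R + tau * t / 2)) -
              tau * lp) * (((1 - a ^ 2) * P + (1 - b ^ 2) * R) / 2 + (a + b) * m0) -
          kap * |((1 - a ^ 2) * P + (1 - b ^ 2) * R) / 2 + (a + b) * m0| * (dR + dL) +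
          4 * eR * (|(1 - a ^ 2) / 2 * (P + tau * t / 2)| * dR + dR ^ 2) +
          4 * eL * (|(1 - b ^ 2) / 2 * (R + tau * t / 2)| * dL + dL ^ 2)

/-! ## weighted energies -/

/-- first moment of the squared loads -/
noncomputable def WI (s : ℝ) (y t : ℕ → ℝ) (k : ℕ) : ℝ :=
  ∑ i ∈ range k, (t i) ^ 2 *
    (((y (i + 1)) ^ 2 - (y i) ^ 2) / 2 - ((y (i + 1)) ^ 3 - (y i) ^ 3) / (3 * s))

/-- antiderivative of `(1 - τ x) q (x)` -/
noncomputable def JF (tau q0 q1 q2 q3 x : ℝ) : ℝ :=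
  q0 * x + (q1 - tau * q0) * x ^ 2 / 2 + (q2 - tau * q1) * x ^ 3 / 3 +
    (q3 - tau * q2) * x ^ 4 / 4 - tau * q3 * x ^ 5 / 5

lemma cs2w {w x y q1 q2 s1 s2 : ℝ} (hw : 0 ≤ w) (h1 : w * x ^ 2 ≤ q1 * s1) (h2 : w * y ^ 2 ≤ q2 * s2)
    (hq1 : 0 ≤ q1) (hq2 : 0 ≤ q2) (hs1 : 0 ≤ s1) (hs2 : 0 ≤ s2) :
    w * (x + y) ^ 2 ≤ (q1 + q2) * (s1 + s2) := by
  have h3 := cs2 (x := Real.sqrt w * x) (y := Real.sqrt w * y) (q1 := q1) (q2 := q2) (s1 := s1)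
    (s2 := s2) (by rw [mul_pow, Real.sq_sqrt hw]; exact h1)
    (by rw [mul_pow, Real.sq_sqrt hw]; exact h2) hq1 hq2 hs1 hs2
  calc w * (x + y) ^ 2 = (Real.sqrt w) ^ 2 * (x + y) ^ 2 := by rw [Real.sq_sqrt hw]
    _ = (Real.sqrt w * x + Real.sqrt w * y) ^ 2 := by ring
    _ ≤ _ := h3

/-- Cauchy-Schwarz for an arc with weights -/
lemma arcW {σ τ k0 k1 q0 q1 q2 q3 w : ℝ} (hσ : 0 < σ) (hτ0 : 0 < τ) (hτ1 : τ < 1) (hw : 0 ≤ w)
    {a : ℕ} {y : ℕ → ℝ} (hc : ChG (σ * (1 - τ)) (σ * (1 + τ)) a y) (t : ℕ → ℝ) {k l : ℕ}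
    (hkl : k ≤ l) (hl : l ≤ a)
    (h : ∀ x, (1 - y l / σ) / τ ≤ x → x ≤ (1 - y k / σ) / τ → 0 ≤ k0 + k1 * x ∧
      0 ≤ q0 + q1 * x + q2 * x ^ 2 + q3 * x ^ 3 ∧
      w ≤ (k0 + k1 * x) * (q0 + q1 * x + q2 * x ^ 2 + q3 * x ^ 3)) :
    0 ≤ k0 * (QI y t l - QI y t k) + k1 / τ * (WI σ y t l - WI σ y t k) ∧
    0 ≤ JF τ q0 q1 q2 q3 ((1 - y k / σ) / τ) - JF τ q0 q1 q2 q3 ((1 - y l / σ) / τ) ∧
    w * (PI y t l - PI y t k) ^ 2 ≤
      (k0 * (QI y t l - QI y t k) + k1 / τ * (WI σ y t l - WI σ y t k)) *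
      (σ ^ 2 * τ * (JF τ q0 q1 q2 q3 ((1 - y k / σ) / τ) -
        JF τ q0 q1 q2 q3 ((1 - y l / σ) / τ))) := by
  have hB : 0 < σ * (1 - τ) := mul_pos hσ (by linarith)
  induction l, hkl using Nat.le_induction with
  | base => simp
  | succ l hkl ih =>
    have hi := hc.inc l (by omega)
    have hpl := (QI_mono hc hB t (le_refl l) (by omega)).2.2.2
    have hkl' := (QI_mono hc hB t hkl (by omega)).2.2.1
    have hx1 : (1 - y (l + 1) / σ) / τ ≤ (1 - y l / σ) / τ := by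
      have : y l / σ ≤ y (l + 1) / σ := by gcongr
      gcongr
    have hx2 : (1 - y l / σ) / τ ≤ (1 - y k / σ) / τ := by
      have : y k / σ ≤ y l / σ := by gcongr
      gcongr
    obtain ⟨i1, i2, i3⟩ := ih (by omega) (fun x h1 h2 => h x (hx1.trans h1) h2)
    have hτx : τ * ((1 - y l / σ) / τ) < 1 := by
      rw [mul_div_cancel₀ _ hτ0.ne']
      have : 0 < y l / σ := div_pos hpl hσ
      linarith
    obtain ⟨e1, e2, e3⟩ := edge_A hτ0.le hx1 hτx hw (fun x h1 h2 => h x h1 (h2.trans hx2))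
    obtain ⟨u, hu⟩ : ∃ u, u = (1 - y l / σ) / τ := ⟨_, rfl⟩
    obtain ⟨v, hv⟩ : ∃ v, v = (1 - y (l + 1) / σ) / τ := ⟨_, rfl⟩
    have hyu : y l = σ * (1 - τ * u) := by rw [hu]; field_simp; ring
    have hyv : y (l + 1) = σ * (1 - τ * v) := by rw [hv]; field_simp; ring
    rw [← hu, ← hv] at e1 e2 e3
    rw [← hu] at i2 i3
    have hPI : PI y t (l + 1) = PI y t l + t l * (σ ^ 2 * τ * ((u - v) - τ * (u ^ 2 - v ^ 2) / 2)) := by
      unfold PI; rw [sum_range_succ, hyu, hyv]; ring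
    have hQI : QI y t (l + 1) = QI y t l +
        (t l) ^ 2 * (σ ^ 2 * τ * ((u - v) - τ * (u ^ 2 - v ^ 2) / 2)) := by
      unfold QI; rw [sum_range_succ, hyu, hyv]; ring
    have hWI : WI σ y t (l + 1) = WI σ y t l +
        (t l) ^ 2 * (σ ^ 2 * τ * (τ * ((u ^ 2 - v ^ 2) / 2 - τ * (u ^ 3 - v ^ 3) / 3))) := by
      have hWs : WI σ y t (l + 1) = WI σ y t l + (t l) ^ 2 *
          (((y (l + 1)) ^ 2 - (y l) ^ 2) / 2 - ((y (l + 1)) ^ 3 - (y l) ^ 3) / (3 * σ)) := by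
        unfold WI; rw [sum_range_succ]
      rw [hWs, hyu, hyv]; field_simp; ring
    rw [← hv, hPI, hQI, hWI]
    have hJ : ∀ X : ℝ, JF τ q0 q1 q2 q3 X - JF τ q0 q1 q2 q3 v =
        (JF τ q0 q1 q2 q3 X - JF τ q0 q1 q2 q3 u) + (q0 * (u - v) + (q1 - τ * q0) * (u ^ 2 - v ^ 2) / 2 +
      (q2 - τ * q1) * (u ^ 3 - v ^ 3) / 3 + (q3 - τ * q2) * (u ^ 4 - v ^ 4) / 4 -
      τ * q3 * (u ^ 5 - v ^ 5) / 5) := by intro X; unfold JF; ring
    rw [hJ]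
    have hE : k0 * (QI y t l + (t l) ^ 2 * (σ ^ 2 * τ * ((u - v) - τ * (u ^ 2 - v ^ 2) / 2)) - QI y t k) +
        k1 / τ * (WI σ y t l + (t l) ^ 2 * (σ ^ 2 * τ * (τ * ((u ^ 2 - v ^ 2) / 2 -
          τ * (u ^ 3 - v ^ 3) / 3))) - WI σ y t k) =
        (k0 * (QI y t l - QI y t k) + k1 / τ * (WI σ y t l - WI σ y t k)) +
        (t l) ^ 2 * (σ ^ 2 * τ) * (k0 * (u - v) + (k1 - τ * k0) * (u ^ 2 - v ^ 2) / 2 -
          τ * k1 * (u ^ 3 - v ^ 3) / 3) := by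
      field_simp
      ring
    rw [hE]
    have hst : 0 < σ ^ 2 * τ := by positivity
    have hE2 : 0 ≤ (t l) ^ 2 * (σ ^ 2 * τ) * (k0 * (u - v) + (k1 - τ * k0) * (u ^ 2 - v ^ 2) / 2 -
          τ * k1 * (u ^ 3 - v ^ 3) / 3) := by positivity
    generalize k0 * (u - v) + (k1 - τ * k0) * (u ^ 2 - v ^ 2) / 2 - τ * k1 * (u ^ 3 - v ^ 3) / 3 = KK at *
    generalize q0 * (u - v) + (q1 - τ * q0) * (u ^ 2 - v ^ 2) / 2 +
      (q2 - τ * q1) * (u ^ 3 - v ^ 3) / 3 + (q3 - τ * q2) * (u ^ 4 - v ^ 4) / 4 -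
      τ * q3 * (u ^ 5 - v ^ 5) / 5 = JJ at *
    generalize (u - v) - τ * (u ^ 2 - v ^ 2) / 2 = S at *
    refine ⟨by linarith, by linarith, ?_⟩
    have e4 : w * (t l * (σ ^ 2 * τ * S)) ^ 2 ≤ (t l) ^ 2 * (σ ^ 2 * τ) * KK * (σ ^ 2 * τ * JJ) := by
      have h5 := mul_le_mul_of_nonneg_left e3 (by positivity : 0 ≤ (t l) ^ 2 * (σ ^ 2 * τ) ^ 2)
      calc _ = (t l) ^ 2 * (σ ^ 2 * τ) ^ 2 * (w * S ^ 2) := by ring
        _ ≤ _ := h5
        _ = _ := by ring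
    have h6 := cs2w hw i3 e4 i1 hE2 (by positivity) (by positivity)
    calc _ = w * (PI y t l - PI y t k + t l * (σ ^ 2 * τ * S)) ^ 2 := by ring
      _ ≤ _ := h6
      _ = _ := by ring

/-- a path through an intermediate node -/
lemma path_midW {σ τ k0 k1 q0 q1 q2 q3 w : ℝ} (hσ : 0 < σ) (hτ0 : 0 < τ) (hτ1 : τ < 1) (hw : 0 ≤ w)
    {a : ℕ} {y : ℕ → ℝ} (hc : ChG (σ * (1 - τ)) (σ * (1 + τ)) a y) (t : ℕ → ℝ) {k m l : ℕ}
    (hkm : k ≤ m) (hml : m ≤ l) (hl : l ≤ a)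
    (h : ∀ x, (1 - y l / σ) / τ ≤ x → x ≤ (1 - y k / σ) / τ → 0 ≤ k0 + k1 * x ∧
      0 ≤ q0 + q1 * x + q2 * x ^ 2 + q3 * x ^ 3 ∧
      w ≤ (k0 + k1 * x) * (q0 + q1 * x + q2 * x ^ 2 + q3 * x ^ 3)) :
    w * (|PI y t m - PI y t k| + |PI y t l - PI y t m|) ^ 2 ≤
      (k0 * (QI y t l - QI y t k) + k1 / τ * (WI σ y t l - WI σ y t k)) *
      (σ ^ 2 * τ * (JF τ q0 q1 q2 q3 ((1 - y k / σ) / τ) -
        JF τ q0 q1 q2 q3 ((1 - y l / σ) / τ))) := by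
  have hB : 0 < σ * (1 - τ) := mul_pos hσ (by linarith)
  have h1 := (QI_mono hc hB t hkm (by omega)).2.2.1
  have h2 := (QI_mono hc hB t hml hl).2.2.1
  have hx1 : (1 - y l / σ) / τ ≤ (1 - y m / σ) / τ := by
    have : y m / σ ≤ y l / σ := by gcongr
    gcongr
  have hx2 : (1 - y m / σ) / τ ≤ (1 - y k / σ) / τ := by
    have : y k / σ ≤ y m / σ := by gcongr
    gcongr
  obtain ⟨a1, a2, a3⟩ := arcW hσ hτ0 hτ1 hw hc t hkm (by omega : m ≤ a)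
    (fun x h1 h2 => h x (hx1.trans h1) h2)
  obtain ⟨b1, b2, b3⟩ := arcW hσ hτ0 hτ1 hw hc t hml hl (fun x h1 h2 => h x h1 (h2.trans hx2))
  have := cs2w (x := |PI y t m - PI y t k|) (y := |PI y t l - PI y t m|) hw
    (by rw [sq_abs]; exact a3) (by rw [sq_abs]; exact b3) a1 b1 (by positivity) (by positivity)
  calc _ ≤ _ := this
    _ = _ := by ring

/-- **the midrange**, independent of the weights -/
lemma exists_mid2 {a : ℕ} {y : ℕ → ℝ} (t : ℕ → ℝ) : ∃ mid : ℝ, ∀ k, k ≤ a → ∃ m, m ≤ a ∧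
      |PI y t k| + 2 * |mid - PI y t k| ≤ |PI y t m| + |PI y t k - PI y t m| := by
  have hP0 : PI y t 0 = 0 := by simp [PI]
  obtain ⟨m1, hm1, hx⟩ := exists_max_image (range (a + 1)) (PI y t) ⟨0, by simp⟩
  obtain ⟨m2, hm2, hn⟩ := exists_min_image (range (a + 1)) (PI y t) ⟨0, by simp⟩
  simp only [mem_range] at hm1 hm2 hx hn
  have hx0 := hx 0 (by omega)
  have hn0 := hn 0 (by omega)
  rw [hP0] at hx0 hn0
  refine ⟨PI y t m1 + PI y t m2, fun k hk => ?_⟩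
  have hxk := hx k (by omega)
  have hnk := hn k (by omega)
  rcases le_total (PI y t m1 + PI y t m2) (PI y t k) with h | h
  · refine ⟨m2, by omega, ?_⟩
    rw [abs_of_nonpos (by linarith : PI y t m1 + PI y t m2 - PI y t k ≤ 0),
      abs_of_nonpos hn0, abs_of_nonneg (by linarith : 0 ≤ PI y t k - PI y t m2)]
    rcases abs_cases (PI y t k) with ⟨h1, _⟩ | ⟨h1, _⟩ <;> rw [h1] <;> linarith
  · refine ⟨m1, by omega, ?_⟩
    rw [abs_of_nonneg (by linarith : 0 ≤ PI y t m1 + PI y t m2 - PI y t k),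
      abs_of_nonneg hx0, abs_of_nonpos (by linarith : PI y t k - PI y t m1 ≤ 0)]
    rcases abs_cases (PI y t k) with ⟨h1, _⟩ | ⟨h1, _⟩ <;> rw [h1] <;> linarith

/-- energy of one arc with an excursion `d` -/
lemma arcD {σ τ l En J w p d e A : ℝ} (hσ : 0 < σ) (hτ : 0 < τ) (hl : 0 < l) (hEn : 0 ≤ En)
    (hJ : J ≤ l) (he : e * l = w)
    (hA : (2 * τ * σ ^ 2 * (|p| + 2 * d)) ^ 2 ≤ A ^ 2)
    (hw : 0 ≤ w) (h : w * A ^ 2 ≤ En * (σ ^ 2 * τ * J)) :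
    4 * τ ^ 2 * σ ^ 3 * (e * p ^ 2 + 4 * e * (|p| * d + d ^ 2)) ≤ σ * τ * En := by
  have h1 : w * (2 * τ * σ ^ 2 * (|p| + 2 * d)) ^ 2 ≤ En * (σ ^ 2 * τ * l) := by
    calc _ ≤ w * A ^ 2 := mul_le_mul_of_nonneg_left hA hw
      _ ≤ _ := h
      _ ≤ _ := by gcongr
  have h2 : |p| ^ 2 = p ^ 2 := sq_abs p
  have h3 : 4 * τ ^ 2 * σ ^ 3 * (e * p ^ 2 + 4 * e * (|p| * d + d ^ 2)) * (σ * l) =
      w * (2 * τ * σ ^ 2 * (|p| + 2 * d)) ^ 2 := by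
    rw [← he, ← h2]; ring
  have h4 : σ * τ * En * (σ * l) = En * (σ ^ 2 * τ * l) := by ring
  refine le_of_mul_le_mul_right (a := σ * l) ?_ (by positivity)
  rw [h3, h4]
  exact h1

/-- energy of one arc, no excursion; the arc may be empty -/
lemma arcN {σ τ l En J w p m : ℝ} (hσ : 0 < σ) (hτ : 0 < τ) (hl : 0 ≤ l) (hEn : 0 ≤ En)
    (hJ : J ≤ l) (hp : p = l * m) (hw : 0 ≤ w)
    (h : w * (2 * τ * σ ^ 2 * p) ^ 2 ≤ En * (σ ^ 2 * τ * J)) :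
    4 * τ ^ 2 * σ ^ 3 * (w * (l * m ^ 2)) ≤ σ * τ * En := by
  rcases eq_or_lt_of_le hl with h0 | h0
  · rw [← h0]
    have : 0 ≤ σ * τ * En := by positivity
    simpa using this
  · have := arcD (d := 0) (e := w / l) (A := 2 * τ * σ ^ 2 * p) hσ hτ h0 hEn hJ (by field_simp)
      (by rw [mul_zero, add_zero, mul_pow, sq_abs, ← mul_pow]) hw h
    have h5 : w / l * p ^ 2 = w * (l * m ^ 2) := by rw [hp]; field_simp
    rw [mul_zero, h5] at this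
    simpa using this

lemma chain_stateW {σ τ th L : ℝ} (hσ : 0 < σ) (hτ0 : 0 < τ) (hτ1 : τ < 1) {a : ℕ} {y : ℕ → ℝ}
    (hc : ChG (σ * (1 - τ)) (σ * (1 + τ)) a y) {t : ℕ → ℝ} (ht1 : ∀ i, L ≤ t i)
    (ht2 : ∀ i, t i ≤ 2 / 3) (hPI : PI y t a = 2 * τ * th * σ ^ 2) {mid : ℝ} {k : ℕ} (hk : k ≤ a)
    (hmid : ∃ m, m ≤ a ∧ |PI y (fun i => t i - th) k| + 2 * |mid - PI y (fun i => t i - th) k| ≤
      |PI y (fun i => t i - th) m| + |PI y (fun i => t i - th) k - PI y (fun i => t i - th) m|) :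
    ∃ u P d : ℝ, -1 ≤ u ∧ u ≤ 1 ∧ y k = σ * (1 - τ * u) ∧
      PI y t k = σ ^ 2 * τ * ((1 - u) * th + (1 - u ^ 2) * P) ∧ Bx L τ u th P ∧ 0 ≤ d ∧
      QI y t k = QI y (fun i => t i - th) k + σ ^ 2 * τ * (1 - u) *
        (th ^ 2 * (1 - τ * (1 + u) / 2) + 2 * th * (1 + u) * (P + τ * th / 2)) ∧
      QI y t a - QI y t k = QI y (fun i => t i - th) a - QI y (fun i => t i - th) k +
        σ ^ 2 * τ * (1 + u) *
        (th ^ 2 * (1 + τ * (1 - u) / 2) - 2 * th * (1 - u) * (P + τ * th / 2)) ∧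
      |mid - 2 * τ * σ ^ 2 * ((1 - u ^ 2) / 2 * (P + τ * th / 2))| = 2 * τ * σ ^ 2 * d ∧
      ∀ K1 K2 k1 w1 w2 : ℝ, 0 ≤ w1 → 0 ≤ w2 → AW τ K1 k1 u 1 w1 → AW τ K2 k1 (-1) u w2 →
        ∃ e : ℝ, 0 ≤ e ∧ (e * (1 - u) = w1 ∨ e * (1 + u) = w2) ∧
        4 * τ ^ 2 * σ ^ 3 * (w1 * ((1 - u) * ((1 + u) / 2 * (P + τ * th / 2)) ^ 2) +
          w2 * ((1 + u) * ((1 - u) / 2 * (P + τ * th / 2)) ^ 2) +
          4 * e * (|(1 - u ^ 2) / 2 * (P + τ * th / 2)| * d + d ^ 2)) ≤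
        σ * τ * (K1 * QI y (fun i => t i - th) k +
          K2 * (QI y (fun i => t i - th) a - QI y (fun i => t i - th) k) +
          k1 / τ * WI σ y (fun i => t i - th) a) := by
  have hB : 0 < σ * (1 - τ) := mul_pos hσ (by linarith)
  have hστ : 0 < σ * τ := mul_pos hσ hτ0
  have hu : ∃ u : ℝ, y k = σ * (1 - τ * u) := ⟨(1 - y k / σ) / τ, by field_simp; ring⟩
  obtain ⟨u, hyk⟩ := hu
  have hle1 := (QI_mono hc hB t (Nat.zero_le k) hk).2.2.1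
  have hle2 := (QI_mono hc hB t hk le_rfl).2.2.1
  have hP0 : PI y t 0 = 0 := by simp [PI]
  have hu1 : -1 ≤ u := by
    rw [hc.ya, hyk] at hle2
    have h6 : 1 - τ * u ≤ 1 + τ := le_of_mul_le_mul_left hle2 hσ
    by_contra hcon
    push Not at hcon
    nlinarith
  have hu2 : u ≤ 1 := by
    rw [hc.y0, hyk] at hle1
    have h6 : 1 - τ ≤ 1 - τ * u := le_of_mul_le_mul_left hle1 hσ
    by_contra hcon
    push Not at hcon
    nlinarith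
  have hk1 : 0 < k → u < 1 := by
    intro h
    have h5 := y_lt hc hB h hk
    rw [hc.y0, hyk] at h5
    have h6 : 1 - τ < 1 - τ * u := lt_of_mul_lt_mul_left h5 hσ.le
    nlinarith
  have hk2 : k < a → -1 < u := by
    intro h
    have h5 := y_lt hc hB h le_rfl
    rw [hc.ya, hyk] at h5
    have h6 : 1 - τ * u < 1 + τ := lt_of_mul_lt_mul_left h5 hσ.le
    nlinarith
  have hY1 : (y k ^ 2 - (σ * (1 - τ)) ^ 2) / 2 = σ ^ 2 * τ * (1 - u) * (1 - τ * (1 + u) / 2) := by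
    rw [hyk]; ring
  have hY2 : ((σ * (1 + τ)) ^ 2 - y k ^ 2) / 2 = σ ^ 2 * τ * (1 + u) * (1 + τ * (1 - u) / 2) := by
    rw [hyk]; ring
  have hb := PI_box hc hB ht1 ht2 (Nat.zero_le k) hk
  have hb' := PI_box hc hB ht1 ht2 hk le_rfl
  rw [hP0, hc.y0, sub_zero, hY1] at hb
  rw [hc.ya, hY2, hPI] at hb'
  have hPex : ∃ P : ℝ, PI y t k = σ ^ 2 * τ * ((1 - u) * th + (1 - u ^ 2) * P) ∧ Bx L τ u th P := by
    refine exP (by positivity) hu1 hu2 hb.1 hb.2 (by linarith [hb'.1]) (by linarith [hb'.2]) ?_ ?_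
      hτ0 hτ1
    · intro h
      have : k = 0 := by
        by_contra h0
        exact absurd (hk1 (by omega)) (by rw [h]; exact lt_irrefl _)
      rw [this, hP0]
    · intro h
      have : k = a := by
        by_contra h0
        exact absurd (hk2 (by omega)) (by rw [h]; exact lt_irrefl _)
      rw [this, hPI]; ring
  obtain ⟨P, hPk, hBx⟩ := hPex
  clear hb hb'
  have hD : PI y (fun i => t i - th) k = 2 * τ * σ ^ 2 * ((1 - u ^ 2) / 2 * (P + τ * th / 2)) := by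
    rw [PI_dev, hc.y0, hY1, hPk]; ring
  have hDa : PI y (fun i => t i - th) a = 0 := by
    rw [PI_dev, hc.y0, hc.ya, hPI]; ring
  have hD0 : PI y (fun i => t i - th) 0 = 0 := by simp [PI]
  have hQD0 : QI y (fun i => t i - th) 0 = 0 := by simp [QI]
  have hWD0 : WI σ y (fun i => t i - th) 0 = 0 := by simp [WI]
  have hQk : QI y t k = QI y (fun i => t i - th) k + σ ^ 2 * τ * (1 - u) *
        (th ^ 2 * (1 - τ * (1 + u) / 2) + 2 * th * (1 + u) * (P + τ * th / 2)) := by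
    rw [QI_dev, hc.y0, hY1, hPk]; ring
  have hQa : QI y t a - QI y t k = QI y (fun i => t i - th) a - QI y (fun i => t i - th) k +
        σ ^ 2 * τ * (1 + u) *
        (th ^ 2 * (1 + τ * (1 - u) / 2) - 2 * th * (1 - u) * (P + τ * th / 2)) := by
    have h1 : QI y (fun i => t i - th) a - QI y (fun i => t i - th) k =
      (QI y t a - QI y t k) - 2 * th * (PI y t a - PI y t k) +
      th ^ 2 * (σ ^ 2 * τ * (1 + u) * (1 + τ * (1 - u) / 2)) := by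
      rw [QI_dev, QI_dev, hc.ya, ← hY2]; ring
    rw [h1, hPI, hPk]; ring
  have hx0 : (1 - y 0 / σ) / τ = 1 := by rw [hc.y0]; field_simp; ring
  have hxa : (1 - y a / σ) / τ = -1 := by rw [hc.ya]; field_simp; ring
  have hxk : (1 - y k / σ) / τ = u := by rw [hyk]; field_simp; ring
  have h2 : 0 < 2 * τ * σ ^ 2 := by positivity
  refine ⟨u, P, |mid - 2 * τ * σ ^ 2 * ((1 - u ^ 2) / 2 * (P + τ * th / 2))| / (2 * τ * σ ^ 2),
    hu1, hu2, hyk, hPk, hBx, by positivity, hQk, hQa, by field_simp, ?_⟩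
  obtain ⟨m, hma, hm⟩ := hmid
  rw [hD] at hm
  obtain ⟨p, hp⟩ : ∃ p, p = (1 - u ^ 2) / 2 * (P + τ * th / 2) := ⟨_, rfl⟩
  rw [← hp] at hm hD ⊢
  obtain ⟨d, hd⟩ : ∃ d, d = |mid - 2 * τ * σ ^ 2 * p| / (2 * τ * σ ^ 2) := ⟨_, rfl⟩
  have hd0 : 0 ≤ d := by rw [hd]; positivity
  have hdm : |mid - 2 * τ * σ ^ 2 * p| = 2 * τ * σ ^ 2 * d := by rw [hd]; field_simp
  rw [← hd]
  rw [hdm, abs_mul, abs_of_pos h2] at hm
  have hm' : 2 * τ * σ ^ 2 * (|p| + 2 * d) ≤ |PI y (fun i => t i - th) m| +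
      |2 * τ * σ ^ 2 * p - PI y (fun i => t i - th) m| := by linarith
  have hnn : 0 ≤ 2 * τ * σ ^ 2 * (|p| + 2 * d) := by positivity
  clear hm hdm hd
  intro K1 K2 k1 w1 w2 hw1 hw2 hA1 hA2
  obtain ⟨q0, q1, q2, q3, hq, hJ⟩ := hA1
  obtain ⟨r0, r1, r2, r3, hr, hJ'⟩ := hA2
  have hJ1 : JF τ q0 q1 q2 q3 1 - JF τ q0 q1 q2 q3 u ≤ 1 - u := by
    refine le_trans (le_of_eq ?_) hJ
    unfold JF; ring
  have hJ2 : JF τ r0 r1 r2 r3 u - JF τ r0 r1 r2 r3 (-1) ≤ 1 + u := by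
    refine le_trans (le_of_eq ?_) (le_trans hJ' (by linarith))
    unfold JF; ring
  -- plain bounds
  obtain ⟨a1, a2, a3⟩ := arcW hσ hτ0 hτ1 hw1 hc (fun i => t i - th) (Nat.zero_le k) hk
    (k0 := K1) (k1 := k1) (q0 := q0) (q1 := q1) (q2 := q2) (q3 := q3) (by rw [hx0, hxk]; exact hq)
  obtain ⟨b1, b2, b3⟩ := arcW hσ hτ0 hτ1 hw2 hc (fun i => t i - th) hk le_rfl
    (k0 := K2) (k1 := k1) (q0 := r0) (q1 := r1) (q2 := r2) (q3 := r3) (by rw [hxa, hxk]; exact hr)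
  rw [hx0, hxk, hD, hD0, hQD0, hWD0, sub_zero, sub_zero, sub_zero] at a3
  rw [hQD0, hWD0, sub_zero, sub_zero] at a1
  rw [hxa, hxk, hD, hDa, zero_sub, neg_sq] at b3
  have n1 := arcN (m := (1 + u) / 2 * (P + τ * th / 2)) hσ hτ0 (by linarith : 0 ≤ 1 - u) a1 hJ1
    (by rw [hp]; ring) hw1 a3
  have n2 := arcN (m := (1 - u) / 2 * (P + τ * th / 2)) hσ hτ0 (by linarith : 0 ≤ 1 + u) b1 hJ2
    (by rw [hp]; ring) hw2 b3
  have hsum : σ * τ * (K1 * QI y (fun i => t i - th) k +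
          K2 * (QI y (fun i => t i - th) a - QI y (fun i => t i - th) k) +
          k1 / τ * WI σ y (fun i => t i - th) a) =
      σ * τ * (K1 * QI y (fun i => t i - th) k + k1 / τ * WI σ y (fun i => t i - th) k) +
      σ * τ * (K2 * (QI y (fun i => t i - th) a - QI y (fun i => t i - th) k) +
        k1 / τ * (WI σ y (fun i => t i - th) a - WI σ y (fun i => t i - th) k)) := by ring
  rw [hsum]
  have hq1 : ∀ l : ℝ, l ≠ 0 → p = l * ((2 - l) / 2 * (P + τ * th / 2)) → ∀ w : ℝ,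
      w / l * p ^ 2 = w * (l * ((2 - l) / 2 * (P + τ * th / 2)) ^ 2) := by
    intro l hl hpl w
    rw [hpl]; field_simp
  -- excursion in the upper arc
  have up : -1 < u → k ≤ m → ∃ e : ℝ, 0 ≤ e ∧ (e * (1 - u) = w1 ∨ e * (1 + u) = w2) ∧
        4 * τ ^ 2 * σ ^ 3 * (w1 * ((1 - u) * ((1 + u) / 2 * (P + τ * th / 2)) ^ 2) +
          w2 * ((1 + u) * ((1 - u) / 2 * (P + τ * th / 2)) ^ 2) +
          4 * e * (|p| * d + d ^ 2)) ≤
      σ * τ * (K1 * QI y (fun i => t i - th) k + k1 / τ * WI σ y (fun i => t i - th) k) +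
      σ * τ * (K2 * (QI y (fun i => t i - th) a - QI y (fun i => t i - th) k) +
        k1 / τ * (WI σ y (fun i => t i - th) a - WI σ y (fun i => t i - th) k)) := by
    intro hu3 hkm
    have hl : 0 < 1 + u := by linarith
    have hpm := path_midW hσ hτ0 hτ1 hw2 hc (fun i => t i - th) hkm hma le_rfl
      (k0 := K2) (k1 := k1) (q0 := r0) (q1 := r1) (q2 := r2) (q3 := r3) (by rw [hxa, hxk]; exact hr)
    rw [hxa, hxk, hD, hDa, zero_sub, abs_neg] at hpm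
    have hA : (2 * τ * σ ^ 2 * (|p| + 2 * d)) ^ 2 ≤
        (|PI y (fun i => t i - th) m - 2 * τ * σ ^ 2 * p| + |PI y (fun i => t i - th) m|) ^ 2 := by
      refine pow_le_pow_left₀ hnn ?_ 2
      rw [abs_sub_comm]; linarith
    have n3 := arcD (e := w2 / (1 + u)) hσ hτ0 hl b1 hJ2 (by field_simp) hA hw2 hpm
    rw [hq1 (1 + u) hl.ne' (by rw [hp]; ring) w2] at n3
    have h7 : (2 - (1 + u)) = 1 - u := by ring
    rw [h7] at n3
    exact ⟨w2 / (1 + u), by positivity, Or.inr (by field_simp), by linarith⟩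
  rcases lt_or_ge k m with hkm | hmk
  · exact up (hk2 (by omega)) hkm.le
  · rcases Nat.eq_zero_or_pos k with h | h
    · have hm0 : m = k := by omega
      exact up (hk2 (by have := hc.a0; omega)) hm0.ge
    · have hl : 0 < 1 - u := by linarith [hk1 h]
      have hpm := path_midW hσ hτ0 hτ1 hw1 hc (fun i => t i - th) (Nat.zero_le m) hmk hk
        (k0 := K1) (k1 := k1) (q0 := q0) (q1 := q1) (q2 := q2) (q3 := q3)
        (by rw [hx0, hxk]; exact hq)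
      rw [hx0, hxk, hD, hD0, hQD0, hWD0, sub_zero, sub_zero, sub_zero] at hpm
      have hA : (2 * τ * σ ^ 2 * (|p| + 2 * d)) ^ 2 ≤
          (|PI y (fun i => t i - th) m| + |2 * τ * σ ^ 2 * p - PI y (fun i => t i - th) m|) ^ 2 :=
        pow_le_pow_left₀ hnn hm' 2
      have n3 := arcD (e := w1 / (1 - u)) hσ hτ0 hl a1 hJ1 (by field_simp) hA hw1 hpm
      rw [hq1 (1 - u) hl.ne' (by rw [hp]; ring) w1] at n3
      have h7 : (2 - (1 - u)) = 1 + u := by ring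
      rw [h7] at n3
      exact ⟨w1 / (1 - u), by positivity, Or.inl (by field_simp), by linarith⟩

/-! ## the algebra -/

lemma arcE1 {τ u c t P w1 : ℝ} (hy : 0 < 1 - τ * (1 + u) / 2) :
    (1 - u) / 8 * (τ * (1 + u) ^ 2 - c) *
        (t ^ 2 * (1 - τ * (1 + u) / 2) + 2 * t * (1 + u) * (P + τ * t / 2)) +
      (1 - u) * (1 + u) ^ 2 / 4 * (w1 - (1 + u)) * (P + τ * t / 2) ^ 2 =
    1 / 8 * ((τ * (1 + u) ^ 2 - c) * ((1 - u) * (t + (1 + u) * P) ^ 2 / (1 - τ * (1 + u) / 2))) +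
      (2 + (2 * u - c)) / 8 * ((1 - u) *
        (t ^ 2 * (1 - τ * (1 + u) / 2) + 2 * t * (1 + u) * (P + τ * t / 2))) +
      w1 * ((1 - u) * ((1 + u) / 2 * (P + τ * t / 2)) ^ 2) -
      (2 + (2 * u - c)) * ((1 - u) * (t + (1 + u) * P) ^ 2 / (1 - τ * (1 + u) / 2)) / 8 := by
  obtain ⟨y, hy'⟩ : ∃ y, y = 1 - τ * (1 + u) / 2 := ⟨_, rfl⟩
  rw [← hy'] at hy ⊢
  have e1 : (2 + (2 * u - c)) * ((1 - u) * (t + (1 + u) * P) ^ 2 / y) / 8 =
      1 / 8 * ((τ * (1 + u) ^ 2 - c) * ((1 - u) * (t + (1 + u) * P) ^ 2 / y)) +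
        (1 - u ^ 2) * (t + (1 + u) * P) ^ 2 / 4 := by
    field_simp
    rw [hy']
    ring
  rw [hy']
  rw [hy'] at e1
  linear_combination e1

lemma arcE2 {τ u c t P w2 : ℝ} (hy : 0 < 1 + τ * (1 - u) / 2) :
    -((1 + u) / 8) * (τ * (1 - u) ^ 2 - c) *
        (t ^ 2 * (1 + τ * (1 - u) / 2) - 2 * t * (1 - u) * (P + τ * t / 2)) +
      (1 + u) * (1 - u) ^ 2 / 4 * (w2 - (1 - u)) * (P + τ * t / 2) ^ 2 =
    -(1 / 8 * ((τ * (1 - u) ^ 2 - c) * ((1 + u) * (t - (1 - u) * P) ^ 2 / (1 + τ * (1 - u) / 2)))) +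
      (2 - (2 * u - c)) / 8 * ((1 + u) *
        (t ^ 2 * (1 + τ * (1 - u) / 2) - 2 * t * (1 - u) * (P + τ * t / 2))) +
      w2 * ((1 + u) * ((1 - u) / 2 * (P + τ * t / 2)) ^ 2) -
      (2 - (2 * u - c)) * ((1 + u) * (t - (1 - u) * P) ^ 2 / (1 + τ * (1 - u) / 2)) / 8 := by
  obtain ⟨y, hy'⟩ : ∃ y, y = 1 + τ * (1 - u) / 2 := ⟨_, rfl⟩
  rw [← hy'] at hy ⊢
  have e1 : (2 - (2 * u - c)) * ((1 + u) * (t - (1 - u) * P) ^ 2 / y) / 8 =
      -(1 / 8 * ((τ * (1 - u) ^ 2 - c) * ((1 + u) * (t - (1 - u) * P) ^ 2 / y))) +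
        (1 - u ^ 2) * (t - (1 - u) * P) ^ 2 / 4 := by
    field_simp
    rw [hy']
    ring
  rw [hy']
  rw [hy'] at e1
  linear_combination e1

/-- the reduced form with weights is a lower bound -/
lemma FE_le {τ u w t P R V w1 w2 w3 w4 : ℝ} (hτ0 : 0 < τ) (hτ1 : τ < 1) (hu1 : -1 ≤ u) (hu2 : u ≤ 1)
    (hw1 : -1 ≤ w) (hw2 : w ≤ 1) :
    FE τ u w t P R w1 w2 w3 w4 ≤
      ((2 + (u - w)) / 8 * ((1 - u) *
          (t ^ 2 * (1 - τ * (1 + u) / 2) + 2 * t * (1 + u) * (P + τ * t / 2))) +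
        w1 * ((1 - u) * ((1 + u) / 2 * (P + τ * t / 2)) ^ 2)) +
      ((2 - (u - w)) / 8 * ((1 + u) *
          (t ^ 2 * (1 + τ * (1 - u) / 2) - 2 * t * (1 - u) * (P + τ * t / 2))) +
        w2 * ((1 + u) * ((1 - u) / 2 * (P + τ * t / 2)) ^ 2)) +
      ((2 - (u - w)) / 8 * ((1 - w) *
          (t ^ 2 * (1 - τ * (1 + w) / 2) + 2 * t * (1 + w) * (R + τ * t / 2))) +
        w3 * ((1 - w) * ((1 + w) / 2 * (R + τ * t / 2)) ^ 2)) +
      ((2 + (u - w)) / 8 * ((1 + w) *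
          (t ^ 2 * (1 + τ * (1 - w) / 2) - 2 * t * (1 - w) * (R + τ * t / 2))) +
        w4 * ((1 + w) * ((1 - w) / 2 * (R + τ * t / 2)) ^ 2)) +
      ((1 - u ^ 2) / (2 * (1 - τ ^ 2) * (1 - τ * u)) * (V - t) ^ 2 -
        (V - t) * u * (1 - u ^ 2) * P / (1 - τ * u) - (1 - u ^ 2) ^ 2 * P ^ 2 / (2 * (1 - τ * u)) +
        (1 - u ^ 2) / 8 - τ * u * (1 - u ^ 2) / 24 - t * (1 - u ^ 2) / 2 - u * (1 - u ^ 2) * P / 2) +
      ((1 - w ^ 2) / (2 * (1 - τ ^ 2) * (1 - τ * w)) * (V - t) ^ 2 -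
        (V - t) * w * (1 - w ^ 2) * R / (1 - τ * w) - (1 - w ^ 2) ^ 2 * R ^ 2 / (2 * (1 - τ * w)) +
        (1 - w ^ 2) / 8 - τ * w * (1 - w ^ 2) / 24 - t * (1 - w ^ 2) / 2 - w * (1 - w ^ 2) * R / 2) := by
  have hF := FF_le (t := t) (P := P) (R := R) (V := V) hτ0 hτ1 hu1 hu2 hw1 hw2
  have h1 : 0 < 1 - τ * (1 + u) / 2 := by nlinarith
  have h2 : 0 < 1 + τ * (1 - u) / 2 := by nlinarith
  have h3 : 0 < 1 - τ * (1 + w) / 2 := by nlinarith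
  have h4 : 0 < 1 + τ * (1 - w) / 2 := by nlinarith
  have a1 := arcE1 (t := t) (P := P) (c := u + w) (w1 := w1) h1
  have a2 := arcE2 (t := t) (P := P) (c := u + w) (w2 := w2) h2
  have a3 := arcE1 (t := t) (P := R) (c := u + w) (w1 := w3) h3
  have a4 := arcE2 (t := t) (P := R) (c := u + w) (w2 := w4) h4
  have r1 : 2 + (2 * u - (u + w)) = 2 + (u - w) := by ring
  have r2 : 2 - (2 * u - (u + w)) = 2 - (u - w) := by ring
  have r3 : 2 + (2 * w - (u + w)) = 2 - (u - w) := by ring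
  have r4 : 2 - (2 * w - (u + w)) = 2 + (u - w) := by ring
  rw [r1] at a1
  rw [r2] at a2
  rw [r3] at a3
  rw [r4] at a4
  unfold FE
  rw [a1, a2, a3, a4]
  unfold FF at hF
  linarith

lemma CC_mu (B T QR QL Pi ka lam mu del om al qa pa be qb pb : ℝ) :
    CC B T QR QL Pi ka lam (mu + del) om al qa pa be qb pb =
      CC B T QR QL Pi ka lam mu om al qa pa be qb pb + del * (al + be - B - T) := by
  unfold CC; ring

/-- **the reduction of the one-dimensional statement to `PWE`** (line P) -/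
theorem one_of_PWE {B T L : ℝ} {a b : ℕ} {y t z s : ℕ → ℝ} (hB : 0 < B) (hBT : B < T)
    (hy : ChG B T a y) (hz : ChG B T b z) (ht1 : ∀ i, L ≤ t i) (ht2 : ∀ i, t i ≤ 2 / 3)
    (hs1 : ∀ i, L ≤ s i) (hs2 : ∀ i, s i ≤ 2 / 3) (hPI : PI y t a = PI z s b) (ka : ℝ)
    {kap lp nu chi m0 : ℝ} (hkap : 0 ≤ kap)
    (hPW : PWE L ((T - B) / (T + B)) (2 * PI y t a / (T ^ 2 - B ^ 2)) kap lp nu chi m0) :
    ∃ lam mu om : ℝ, ∀ i, i ≤ a → ∀ j, j ≤ b →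
      0 ≤ CC B T (QI y t a) (QI z s b) (PI y t a) ka lam mu om (y i) (QI y t i) (PI y t i)
        (z j) (QI z s j) (PI z s j) := by
  obtain ⟨σ, hσe⟩ : ∃ σ, σ = (B + T) / 2 := ⟨_, rfl⟩
  obtain ⟨τ, hτe⟩ : ∃ τ, τ = (T - B) / (T + B) := ⟨_, rfl⟩
  obtain ⟨th, hthe⟩ : ∃ th, th = 2 * PI y t a / (T ^ 2 - B ^ 2) := ⟨_, rfl⟩
  rw [← hτe, ← hthe] at hPW
  have hTB : 0 < T + B := by linarith
  have hσ : 0 < σ := by rw [hσe]; linarith
  have hτ0 : 0 < τ := by rw [hτe]; exact div_pos (by linarith) hTB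
  have hτ1 : τ < 1 := by rw [hτe, div_lt_one hTB]; linarith
  have hBe : B = σ * (1 - τ) := by rw [hσe, hτe]; field_simp; ring
  have hTe : T = σ * (1 + τ) := by rw [hσe, hτe]; field_simp; ring
  have hPe : PI y t a = 2 * τ * th * σ ^ 2 := by
    have h1 : T ^ 2 - B ^ 2 = 4 * τ * σ ^ 2 := by rw [hBe, hTe]; ring
    rw [hthe, h1]; field_simp; ring
  have hPe' : PI z s b = 2 * τ * th * σ ^ 2 := by rw [← hPI, hPe]
  clear hσe hτe hthe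
  subst hBe hTe
  -- midranges
  obtain ⟨mid1, hm1⟩ := exists_mid2 (a := a) (y := y) (fun i => t i - th)
  obtain ⟨mid2, hm2⟩ := exists_mid2 (a := b) (y := z) (fun i => s i - th)
  obtain ⟨V, hV⟩ : ∃ V : ℝ, ka = σ ^ 2 * (V - τ * th) := ⟨ka / σ ^ 2 + τ * th, by field_simp; ring⟩
  obtain ⟨MM, hMM⟩ : ∃ MM : ℝ, mid1 + mid2 = 2 * τ * σ ^ 2 * MM :=
    ⟨(mid1 + mid2) / (2 * τ * σ ^ 2), by field_simp⟩
  refine ⟨σ * ((4 * V - 2) + 2 * τ * (kap * MM - τ * lp)),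
    ((Th (σ * (1 + τ)) (σ ^ 2 * (V + τ * th)) - Th (σ * (1 - τ)) (σ ^ 2 * (V - τ * th)) -
        σ * (4 * V - 2) * (2 * τ * th * σ ^ 2)) / (2 * σ * τ) -
        2 * σ ^ 2 * τ * (1 - th) * (kap * MM - τ * lp) - 4 * τ ^ 2 * σ ^ 2 * nu) +
      (-(2 * σ ^ 2 * τ * (2 * th + 2 * m0 - 1) * (kap * MM - τ * lp)) -
        chi / τ * (WI σ y (fun i => t i - th) a + WI σ z (fun i => s i - th) b)), 0,
    fun i hi j hj => ?_⟩
  obtain ⟨u, P, dR, hu1, hu2, hyi, hPi, hBx1, hdR, hq1, hq2, hdR', hen1⟩ :=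
    chain_stateW hσ hτ0 hτ1 hy ht1 ht2 hPe hi (hm1 i hi)
  obtain ⟨w, R, dL, hw1, hw2, hzj, hPj, hBx2, hdL, hq3, hq4, hdL', hen2⟩ :=
    chain_stateW hσ hτ0 hτ1 hz hs1 hs2 hPe' hj (hm2 j hj)
  obtain ⟨v1, v2, v3, v4, hv1, hv2, hv3, hv4, hA1, hA2, hA3, hA4, hF⟩ := hPW u w hu1 hu2 hw1 hw2
  obtain ⟨eR, heR0, heR, hE1⟩ := hen1 _ _ _ v1 v2 hv1 hv2 hA1 hA2
  obtain ⟨eL, heL0, heL, hE2⟩ := hen2 _ _ _ v3 v4 hv3 hv4 hA3 hA4
  have hmain := hF P R dR dL eR eL hBx1 hBx2 hdR hdL heR0 heL0 heR heL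
  have hFF := FE_le (t := th) (P := P) (R := R) (V := V) (w1 := v1) (w2 := v2) (w3 := v3)
    (w4 := v4) hτ0 hτ1 hu1 hu2 hw1 hw2
  have hid := CC_id (E1 := QI y t i) (E2 := QI y t a - QI y t i) (E3 := QI z s j)
    (E4 := QI z s b - QI z s j) (th := th) (P := P) (R := R) (V := V)
    (Lam := kap * MM - τ * lp) (nu := nu) hσ hτ0 hτ1 hu2 hw2
  rw [add_sub_cancel, add_sub_cancel] at hid
  rw [CC_mu, hyi, hzj, hPi, hPj, hPe, hV, hid]
  rw [hq2, hq4, hq1, hq3]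
  clear hid hen1 hen2 hm1 hm2 hyi hzj hPi hPj hPe hPe' hBx1 hBx2 heR heL hPW hF hA1 hA2 hA3 hA4
    hq1 hq2 hq3 hq4
  -- the multiplier
  have h2 : 0 < 2 * τ * σ ^ 2 := by positivity
  have hM : ((1 - u ^ 2) * P + (1 - w ^ 2) * R) / 2 - (u + w) * (th - 1 / 2) =
      (((1 - u ^ 2) * P + (1 - w ^ 2) * R) / 2 + (u + w) * m0) - (u + w) * (th + m0 - 1 / 2) := by
    ring
  rw [hM]
  generalize hp : (1 - u ^ 2) / 2 * (P + τ * th / 2) = p at *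
  generalize hr : (1 - w ^ 2) / 2 * (R + τ * th / 2) = r at *
  generalize ((1 - u ^ 2) * P + (1 - w ^ 2) * R) / 2 + (u + w) * m0 = M at *
  have hMd : |MM - (p + r)| ≤ dR + dL := by
    have h3 : 2 * τ * σ ^ 2 * |MM - (p + r)| ≤ 2 * τ * σ ^ 2 * (dR + dL) := by
      calc 2 * τ * σ ^ 2 * |MM - (p + r)| = |2 * τ * σ ^ 2 * (MM - (p + r))| := by
            rw [abs_mul, abs_of_pos h2]
        _ = |(mid1 - 2 * τ * σ ^ 2 * p) + (mid2 - 2 * τ * σ ^ 2 * r)| := by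
            congr 1; linear_combination -hMM
        _ ≤ |mid1 - 2 * τ * σ ^ 2 * p| + |mid2 - 2 * τ * σ ^ 2 * r| := abs_add_le _ _
        _ = 2 * τ * σ ^ 2 * (dR + dL) := by rw [hdR', hdL']; ring
    exact le_of_mul_le_mul_left h3 h2
  have hLM : (kap * (p + r) - τ * lp) * M - kap * |M| * (dR + dL) ≤ (kap * MM - τ * lp) * M := by
    have h4 : -(|MM - (p + r)| * |M|) ≤ (MM - (p + r)) * M := by
      rw [← abs_mul]; exact neg_abs_le _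
    have h5 : |MM - (p + r)| * |M| ≤ (dR + dL) * |M| :=
      mul_le_mul_of_nonneg_right hMd (abs_nonneg _)
    have h6 : kap * (-((dR + dL) * |M|)) ≤ kap * ((MM - (p + r)) * M) :=
      mul_le_mul_of_nonneg_left (by linarith) hkap
    linarith
  have h4 : 0 < 4 * τ ^ 2 * σ ^ 3 := by positivity
  have h5 := mul_le_mul_of_nonneg_left hLM h4.le
  have h6 := mul_le_mul_of_nonneg_left hFF h4.le
  have h7 := mul_nonneg h4.le hmain
  have hWt : chi * (u + w) / τ * WI σ y (fun i => t i - th) a * (σ * τ) +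
      chi * (u + w) / τ * WI σ z (fun i => s i - th) b * (σ * τ) +
      chi / τ * (WI σ y (fun i => t i - th) a + WI σ z (fun i => s i - th) b) *
        (σ * (1 - τ * u) + σ * (1 - τ * w) - σ * (1 - τ) - σ * (1 + τ)) = 0 := by
    field_simp; ring
  linarith

end Pool.G1.Gap
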