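import Pool.Agent.Work.MP_b5407d_g1.Pl_PW

/-!
# G1, line P-a, energies with weights: paths of a chain

Generic part of the reduction with the first moment of the energy density (helper13, notes 2455, 2485):
weighted energies `SW`, Cauchy-Schwarz along paths, and the midrange for all weights at once.
-/

set_option autoImplicit false

open Finset

namespace Pool.G1.Gap

lemma cs2w {w x y q1 q2 s1 s2 : ℝ} (hw : 0 ≤ w) (h1 : w * x ^ 2 ≤ q1 * s1) (h2 : w * y ^ 2 ≤ q2 * s2)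
    (hq1 : 0 ≤ q1) (hq2 : 0 ≤ q2) (hs1 : 0 ≤ s1) (hs2 : 0 ≤ s2) :
    w * (x + y) ^ 2 ≤ (q1 + q2) * (s1 + s2) := by
  have h3 : 2 * (w * (x * y)) ≤ q1 * s2 + q2 * s1 := by
    have h4 : (2 * (w * (x * y))) ^ 2 ≤ (q1 * s2 + q2 * s1) ^ 2 := by
      have h5 : (w * x ^ 2) * (w * y ^ 2) ≤ (q1 * s1) * (q2 * s2) :=
        mul_le_mul h1 h2 (mul_nonneg hw (sq_nonneg _)) (mul_nonneg hq1 hs1)
      nlinarith [sq_nonneg (q1 * s2 - q2 * s1)]
    have h6 : 0 ≤ q1 * s2 + q2 * s1 := by positivity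
    exact le_trans (le_abs_self _) (abs_le_of_sq_le_sq h4 h6)
  nlinarith

/-! ## paths with weights -/

/-- weighted energy; `W` is an antiderivative of the weight -/
noncomputable def SW (W : ℝ → ℝ) (y t : ℕ → ℝ) (k : ℕ) : ℝ :=
  ∑ i ∈ range k, (t i) ^ 2 * (W (y (i + 1)) - W (y i))

/-- Cauchy-Schwarz with the constant `w` on the edges `k, .., l - 1` -/
def CSr (w : ℝ) (W Om : ℝ → ℝ) (y : ℕ → ℝ) (k l : ℕ) : Prop :=
  ∀ i, k ≤ i → i < l → 0 ≤ W (y (i + 1)) - W (y i) ∧ 0 ≤ Om (y (i + 1)) - Om (y i) ∧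
    w * (((y (i + 1)) ^ 2 - (y i) ^ 2) / 2) ^ 2 ≤
      (W (y (i + 1)) - W (y i)) * (Om (y (i + 1)) - Om (y i))

lemma CSr.mono {w : ℝ} {W Om : ℝ → ℝ} {y : ℕ → ℝ} {k l k' l' : ℕ} (h : CSr w W Om y k l)
    (hk : k ≤ k') (hl : l' ≤ l) : CSr w W Om y k' l' :=
  fun i h1 h2 => h i (by omega) (by omega)

lemma SW_path {w : ℝ} (hw : 0 ≤ w) {W Om : ℝ → ℝ} {y : ℕ → ℝ} (t : ℕ → ℝ) {k l : ℕ} (hkl : k ≤ l)
    (h : CSr w W Om y k l) : 0 ≤ SW W y t l - SW W y t k ∧ 0 ≤ Om (y l) - Om (y k) ∧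
      w * (PI y t l - PI y t k) ^ 2 ≤ (SW W y t l - SW W y t k) * (Om (y l) - Om (y k)) := by
  induction l, hkl using Nat.le_induction with
  | base => simp
  | succ l hkl ih =>
    obtain ⟨h1, h2, h3⟩ := ih (h.mono le_rfl (by omega))
    obtain ⟨e1, e2, e3⟩ := h l hkl (by omega)
    have hPI : PI y t (l + 1) = PI y t l + t l * ((y (l + 1)) ^ 2 - (y l) ^ 2) / 2 := by
      unfold PI; rw [sum_range_succ]
    have hSW : SW W y t (l + 1) = SW W y t l + (t l) ^ 2 * (W (y (l + 1)) - W (y l)) := by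
      unfold SW; rw [sum_range_succ]
    have e4 : 0 ≤ (t l) ^ 2 * (W (y (l + 1)) - W (y l)) := mul_nonneg (sq_nonneg _) e1
    refine ⟨by rw [hSW]; linarith, by linarith, ?_⟩
    have h5 := cs2w hw (x := PI y t l - PI y t k) (y := t l * ((y (l + 1)) ^ 2 - (y l) ^ 2) / 2)
      (q1 := SW W y t l - SW W y t k) (q2 := (t l) ^ 2 * (W (y (l + 1)) - W (y l)))
      (s1 := Om (y l) - Om (y k)) (s2 := Om (y (l + 1)) - Om (y l)) h3
      (by
        have := mul_le_mul_of_nonneg_left e3 (sq_nonneg (t l))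
        calc _ = t l ^ 2 * (w * (((y (l + 1)) ^ 2 - (y l) ^ 2) / 2) ^ 2) := by ring
          _ ≤ _ := this
          _ = _ := by ring) h1 e4 h2 e2
    rw [hPI, hSW]
    calc _ = w * (PI y t l - PI y t k + t l * ((y (l + 1)) ^ 2 - (y l) ^ 2) / 2) ^ 2 := by ring
      _ ≤ _ := h5
      _ = _ := by ring

/-- a path through an intermediate node -/
lemma SW_mid {w : ℝ} (hw : 0 ≤ w) {W Om : ℝ → ℝ} {y : ℕ → ℝ} (t : ℕ → ℝ) {k m l : ℕ}
    (hkm : k ≤ m) (hml : m ≤ l) (h : CSr w W Om y k l) :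
    w * (|PI y t m - PI y t k| + |PI y t l - PI y t m|) ^ 2 ≤
      (SW W y t l - SW W y t k) * (Om (y l) - Om (y k)) := by
  obtain ⟨h1, h2, h3⟩ := SW_path hw t hkm (h.mono le_rfl hml)
  obtain ⟨h5, h6, h7⟩ := SW_path hw t hml (h.mono hkm le_rfl)
  have := cs2w hw (x := |PI y t m - PI y t k|) (y := |PI y t l - PI y t m|)
    (q1 := SW W y t m - SW W y t k) (q2 := SW W y t l - SW W y t m) (s1 := Om (y m) - Om (y k))
    (s2 := Om (y l) - Om (y m)) (by rw [sq_abs]; exact h3) (by rw [sq_abs]; exact h7)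
    h1 h5 h2 h6
  calc _ ≤ _ := this
    _ = _ := by ring

/-- **the midrange**, for all weights at once -/
lemma exists_midE {a : ℕ} (ha : 0 < a) {y : ℕ → ℝ} (t : ℕ → ℝ) (h0 : PI y t a = 0) :
    ∃ mid : ℝ, ∀ k, k ≤ a →
      (0 < k ∧ ∀ (w : ℝ) (W Om : ℝ → ℝ), 0 ≤ w → CSr w W Om y 0 k →
        w * (|PI y t k| + 2 * |mid - PI y t k|) ^ 2 ≤ SW W y t k * (Om (y k) - Om (y 0))) ∨
      (k < a ∧ ∀ (w : ℝ) (W Om : ℝ → ℝ), 0 ≤ w → CSr w W Om y k a →
        w * (|PI y t k| + 2 * |mid - PI y t k|) ^ 2 ≤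
          (SW W y t a - SW W y t k) * (Om (y a) - Om (y k))) := by
  have hP0 : PI y t 0 = 0 := by simp [PI]
  have hQ0 : ∀ W : ℝ → ℝ, SW W y t 0 = 0 := fun W => by simp [SW]
  obtain ⟨m1, hm1, hx⟩ := exists_max_image (range (a + 1)) (PI y t) ⟨0, by simp⟩
  obtain ⟨m2, hm2, hn⟩ := exists_min_image (range (a + 1)) (PI y t) ⟨0, by simp⟩
  simp only [mem_range] at hm1 hm2 hx hn
  have hx0 := hx 0 (by omega)
  have hn0 := hn 0 (by omega)
  rw [hP0] at hx0 hn0
  refine ⟨PI y t m1 + PI y t m2, fun k hk => ?_⟩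
  have hxk := hx k (by omega)
  have hnk := hn k (by omega)
  have hm : ∀ m, m ≤ a → |PI y t k| + 2 * |PI y t m1 + PI y t m2 - PI y t k| ≤
      |PI y t m| + |PI y t k - PI y t m| →
      (0 < k ∧ ∀ (w : ℝ) (W Om : ℝ → ℝ), 0 ≤ w → CSr w W Om y 0 k →
        w * (|PI y t k| + 2 * |PI y t m1 + PI y t m2 - PI y t k|) ^ 2 ≤
          SW W y t k * (Om (y k) - Om (y 0))) ∨
      (k < a ∧ ∀ (w : ℝ) (W Om : ℝ → ℝ), 0 ≤ w → CSr w W Om y k a →
        w * (|PI y t k| + 2 * |PI y t m1 + PI y t m2 - PI y t k|) ^ 2 ≤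
          (SW W y t a - SW W y t k) * (Om (y a) - Om (y k))) := by
    intro m hma hle
    have hnn : 0 ≤ |PI y t k| + 2 * |PI y t m1 + PI y t m2 - PI y t k| := by positivity
    rcases lt_or_ge k m with hkm | hmk
    · right
      refine ⟨by omega, fun w W Om hw hcs => ?_⟩
      have := SW_mid hw t hkm.le hma hcs
      rw [h0] at this
      refine le_trans (mul_le_mul_of_nonneg_left (pow_le_pow_left₀ hnn hle 2) hw) ?_
      calc _ = w * (|PI y t m - PI y t k| + |0 - PI y t m|) ^ 2 := by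
            rw [abs_sub_comm (PI y t m), zero_sub, abs_neg]; ring
        _ ≤ _ := this
    · rcases Nat.eq_zero_or_pos k with h | h
      · right
        have hm0 : m = 0 := by omega
        rw [hm0, h, hP0] at hle
        simp only [abs_zero, sub_zero, zero_add] at hle
        have hz : |PI y t m1 + PI y t m2| = 0 := le_antisymm (by linarith) (abs_nonneg _)
        refine ⟨by omega, fun w W Om hw hcs => ?_⟩
        obtain ⟨g1, g2, -⟩ := SW_path hw t (by omega : k ≤ a) hcs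
        have e : |PI y t k| + 2 * |PI y t m1 + PI y t m2 - PI y t k| = 0 := by
          rw [h, hP0]; simp [hz]
        rw [e]
        simpa using mul_nonneg g1 g2
      · left
        refine ⟨h, fun w W Om hw hcs => ?_⟩
        have := SW_mid hw t (Nat.zero_le m) hmk hcs
        rw [hP0, hQ0] at this
        refine le_trans (mul_le_mul_of_nonneg_left (pow_le_pow_left₀ hnn hle 2) hw) ?_
        simpa using this
  rcases le_total (PI y t m1 + PI y t m2) (PI y t k) with h | h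
  · refine hm m2 (by omega) ?_
    rw [abs_of_nonpos (by linarith : PI y t m1 + PI y t m2 - PI y t k ≤ 0),
      abs_of_nonpos hn0, abs_of_nonneg (by linarith : 0 ≤ PI y t k - PI y t m2)]
    rcases abs_cases (PI y t k) with ⟨h1, _⟩ | ⟨h1, _⟩ <;> rw [h1] <;> linarith
  · refine hm m1 (by omega) ?_
    rw [abs_of_nonneg (by linarith : 0 ≤ PI y t m1 + PI y t m2 - PI y t k),
      abs_of_nonneg hx0, abs_of_nonpos (by linarith : PI y t k - PI y t m1 ≤ 0)]
    rcases abs_cases (PI y t k) with ⟨h1, _⟩ | ⟨h1, _⟩ <;> rw [h1] <;> linarith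

end Pool.G1.Gap
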