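import Pool.Agent.Work.MP_b5407d_g1.Pl_PWEa
import Pool.Agent.Work.MP_b5407d_g1.Pl_PWEb

/-!
# G1, line P-a, energies with weights: transfer of admissible arc weights to the nodes of a chain
-/

set_option autoImplicit false

open Finset

namespace Pool.G1.Gap

/-- the normalised coordinate of a height -/
noncomputable def xo (σ τ y : ℝ) : ℝ := (1 - y / σ) / τ

/-- antiderivative (in the height `y`) of `y (k0 + k1 x)`, `y = σ (1 - τ x)` -/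
noncomputable def Wf (σ τ k0 k1 y : ℝ) : ℝ :=
  -(σ ^ 2 * τ) * (k0 * Yx τ (xo σ τ y) + k1 * Mx τ (xo σ τ y))

lemma xo_eq {σ τ x : ℝ} (hσ : σ ≠ 0) (hτ : τ ≠ 0) : xo σ τ (σ * (1 - τ * x)) = x := by
  unfold xo
  field_simp
  ring

lemma Yx_diff {σ τ : ℝ} (hσ : σ ≠ 0) (hτ : τ ≠ 0) (y y' : ℝ) :
    (y' ^ 2 - y ^ 2) / 2 = σ ^ 2 * τ * (Yx τ (xo σ τ y) - Yx τ (xo σ τ y')) := by
  unfold Yx xo
  field_simp
  ring

lemma Wf_diff {σ τ : ℝ} (hσ : σ ≠ 0) (hτ : τ ≠ 0) (k0 k1 y y' : ℝ) :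
    Wf σ τ k0 k1 y' - Wf σ τ k0 k1 y =
      k0 * ((y' ^ 2 - y ^ 2) / 2) + k1 * (Wf σ τ 0 1 y' - Wf σ τ 0 1 y) := by
  rw [Yx_diff hσ hτ]
  unfold Wf
  ring

/-- the weighted energy is a combination of the plain energy and of the moment -/
lemma SW_Wf {σ τ : ℝ} (hσ : σ ≠ 0) (hτ : τ ≠ 0) (k0 k1 : ℝ) (y t : ℕ → ℝ) (k : ℕ) :
    SW (Wf σ τ k0 k1) y t k = k0 * QI y t k + k1 * SW (Wf σ τ 0 1) y t k := by
  induction k with
  | zero => simp [SW, QI]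
  | succ k ih =>
    have h1 : ∀ W : ℝ → ℝ, SW W y t (k + 1) = SW W y t k + (t k) ^ 2 * (W (y (k + 1)) - W (y k)) :=
      fun W => by unfold SW; rw [sum_range_succ]
    have h2 : QI y t (k + 1) = QI y t k + (t k) ^ 2 * ((y (k + 1)) ^ 2 - (y k) ^ 2) / 2 := by
      unfold QI; rw [sum_range_succ]
    rw [h1, h1, h2, ih, Wf_diff hσ hτ]
    ring

/-- an admissible weight on the arc `[lo, hi]` gives Cauchy-Schwarz on the edges of the chain between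
the nodes `k` (`x = hi`) and `l` (`x = lo`) -/
lemma CSr_of_AW {σ τ k0 k1 lo hi w : ℝ} (hσ : 0 < σ) (hτ0 : 0 < τ) (hτ1 : τ < 1) (hhi : hi ≤ 1)
    (hw : 0 ≤ w) (hA : AW τ k0 k1 lo hi w) {B T : ℝ} {a : ℕ} {y : ℕ → ℝ} (hc : ChG B T a y)
    (hB : 0 < B) {k l : ℕ} (hla : l ≤ a) (hk : y k = σ * (1 - τ * hi))
    (hl : y l = σ * (1 - τ * lo)) :
    ∃ Om : ℝ → ℝ, CSr w (Wf σ τ k0 k1) Om y k l ∧ Om (y l) - Om (y k) ≤ σ ^ 2 * τ * (hi - lo) := by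
  obtain ⟨q0, q1, q2, q3, hq, hm⟩ := hA
  have hσ' : σ ≠ 0 := hσ.ne'
  have hτ' : τ ≠ 0 := hτ0.ne'
  have hc0 : 0 < σ ^ 2 * τ := by positivity
  refine ⟨fun y => -(σ ^ 2 * τ) * Qx τ q0 q1 q2 q3 (xo σ τ y), ?_, ?_⟩
  · intro i hi1 hi2
    -- the nodes are in the arc
    have m1 := (QI_mono hc hB (fun _ => 0) hi1 (by omega)).2.2.1
    have m2 := (QI_mono hc hB (fun _ => 0) (by omega : i + 1 ≤ l) hla).2.2.1
    have m3 := hc.inc i (by omega)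
    have hord : ∀ {p q : ℝ}, p ≤ q → xo σ τ q ≤ xo σ τ p := by
      intro p q h
      unfold xo
      have := div_le_div_of_nonneg_right h hσ.le
      exact div_le_div_of_nonneg_right (by linarith) hτ0.le
    have n1 : xo σ τ (y i) ≤ hi := by
      have := hord m1
      rwa [hk, xo_eq hσ' hτ'] at this
    have n2 : lo ≤ xo σ τ (y (i + 1)) := by
      have := hord m2
      rwa [hl, xo_eq hσ' hτ'] at this
    have n3 : xo σ τ (y (i + 1)) ≤ xo σ τ (y i) := hord m3.le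
    obtain ⟨c1, c2, c3⟩ := edge_cs (tau := τ) (q0 := q0) (q1 := q1) (q2 := q2) (q3 := q3)
      (k0 := k0) (k1 := k1) n3 hw (fun z _ h2 => by
        have h3 : z ≤ 1 := by linarith
        have := mul_le_mul_of_nonneg_left h3 hτ0.le
        linarith) (fun z h1 h2 => hq z (by linarith) (by linarith))
    have e1 : Wf σ τ k0 k1 (y (i + 1)) - Wf σ τ k0 k1 (y i) = σ ^ 2 * τ *
        ((k0 * Yx τ (xo σ τ (y i)) + k1 * Mx τ (xo σ τ (y i))) -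
          (k0 * Yx τ (xo σ τ (y (i + 1))) + k1 * Mx τ (xo σ τ (y (i + 1))))) := by
      unfold Wf; ring
    have e2 : -(σ ^ 2 * τ) * Qx τ q0 q1 q2 q3 (xo σ τ (y (i + 1))) -
        -(σ ^ 2 * τ) * Qx τ q0 q1 q2 q3 (xo σ τ (y i)) = σ ^ 2 * τ *
        (Qx τ q0 q1 q2 q3 (xo σ τ (y i)) - Qx τ q0 q1 q2 q3 (xo σ τ (y (i + 1)))) := by ring
    simp only
    rw [e1, e2, Yx_diff hσ' hτ']
    refine ⟨mul_nonneg hc0.le c1, mul_nonneg hc0.le c2, ?_⟩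
    calc w * (σ ^ 2 * τ * (Yx τ (xo σ τ (y i)) - Yx τ (xo σ τ (y (i + 1))))) ^ 2 =
        (σ ^ 2 * τ) ^ 2 * (w * (Yx τ (xo σ τ (y i)) - Yx τ (xo σ τ (y (i + 1)))) ^ 2) := by ring
      _ ≤ (σ ^ 2 * τ) ^ 2 * _ := mul_le_mul_of_nonneg_left c3 (sq_nonneg _)
      _ = _ := by ring
  · simp only
    rw [hk, hl, xo_eq hσ' hτ', xo_eq hσ' hτ']
    have e : -(σ ^ 2 * τ) * Qx τ q0 q1 q2 q3 lo - -(σ ^ 2 * τ) * Qx τ q0 q1 q2 q3 hi =
        σ ^ 2 * τ * (q0 * (hi - lo) + (q1 - τ * q0) * (hi ^ 2 - lo ^ 2) / 2 +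
      (q2 - τ * q1) * (hi ^ 3 - lo ^ 3) / 3 + (q3 - τ * q2) * (hi ^ 4 - lo ^ 4) / 4 -
      τ * q3 * (hi ^ 5 - lo ^ 5) / 5) := by unfold Qx; ring
    rw [e]
    exact mul_le_mul_of_nonneg_left hm hc0.le

/-- **energy of one arc with an excursion**: `p` the potential deviation at the state (normalised),
`d` the excursion, `len` the length of the arc; `e` is the constant of the excursion -/
lemma arc_energy {σ τ w len S Om p d : ℝ} (hσ : 0 < σ) (hτ0 : 0 < τ) (hlen : 0 < len)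
    (hS : 0 ≤ S) (hOm : Om ≤ σ ^ 2 * τ * len)
    (hE : w * (|2 * τ * σ ^ 2 * p| + 2 * (2 * τ * σ ^ 2 * d)) ^ 2 ≤ S * Om) :
    4 * τ ^ 2 * σ ^ 3 * (w / len * p ^ 2 + 4 * (w / len) * (|p| * d + d ^ 2)) ≤ σ * τ * S := by
  have h2 : 0 < 2 * τ * σ ^ 2 := by positivity
  rw [abs_mul, abs_of_pos h2] at hE
  have h3 : w * (2 * τ * σ ^ 2) ^ 2 * (|p| + 2 * d) ^ 2 ≤ S * (σ ^ 2 * τ * len) := by
    calc _ = w * (2 * τ * σ ^ 2 * |p| + 2 * (2 * τ * σ ^ 2 * d)) ^ 2 := by ring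
      _ ≤ S * Om := hE
      _ ≤ _ := mul_le_mul_of_nonneg_left hOm hS
  have h4 : (|p| + 2 * d) ^ 2 = p ^ 2 + 4 * (|p| * d + d ^ 2) := by
    have := sq_abs p
    nlinarith
  have h5 : 4 * τ ^ 2 * σ ^ 3 * (w / len * p ^ 2 + 4 * (w / len) * (|p| * d + d ^ 2)) =
      (w * (2 * τ * σ ^ 2) ^ 2 * (|p| + 2 * d) ^ 2) / (σ * len) := by
    rw [h4]
    field_simp
    ring
  rw [h5, div_le_iff₀ (by positivity)]
  calc _ ≤ _ := h3
    _ = _ := by ring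

end Pool.G1.Gap
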