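import Pool.Agent.Work.MP_b5407d_g1.Pl_PWF

/-!
# G1, line P-a: the cell form (helper93) and the pointwise certificate

`En` = the form with all multipliers, at numbers; `OKp_of_En` = the pointwise certificate from the
scalar bounds and `0 ≤ En`.
-/

set_option autoImplicit false

namespace Pool.G1.Gap

namespace PB

/-- **the cell form**: `g = gR + gL`, `m1 .. m4, mt` = values of the box multipliers, `sec` = value of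
the sector polynomial -/
noncomputable def En (kap A B t0 t1 ρ v τ e1 e2 e3 e4 d g hR hL nR1 nR2 nL1 nL2 R11 R12 R22
    L11 L12 L22 m1 m2 m3 m4 mt sec q0 q1 q2 p y z : ℝ) : ℝ :=
  F0 kap A B ρ v τ 1 p (y / 2) z +
    (xi ρ v * e1 * (τ * G1 ρ v 1 p (y / 2) z) ^ 2 + xi ρ v * e2 * (τ * G2 ρ v 1 p (y / 2) z) ^ 2 +
      et ρ v * e3 * (τ * G3 ρ v 1 p z) ^ 2 + et ρ v * e4 * (τ * G4 ρ v 1 p z) ^ 2) +
    (1 - v) * d * lD ρ v p (y / 2) ^ 2 - kap ^ 2 / 16 * g * lN ρ v p (y / 2) z ^ 2 +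
    kap / 2 * (nR1 * (ρ * xi ρ v * lN ρ v p (y / 2) z * (v * lp1 ρ τ 1 p (y / 2) z)) +
      nR2 * (ρ * xi ρ v * lN ρ v p (y / 2) z * (τ * lp1 ρ τ 1 p (y / 2) z)) +
      nL1 * (ρ * et ρ v * lN ρ v p (y / 2) z * (v * lr1 ρ τ 1 p z)) +
      nL2 * (ρ * et ρ v * lN ρ v p (y / 2) z * (τ * lr1 ρ τ 1 p z))) -
    ρ * hR * (R11 * (v * lp1 ρ τ 1 p (y / 2) z) ^ 2 +
      2 * R12 * ((v * lp1 ρ τ 1 p (y / 2) z) * (τ * lp1 ρ τ 1 p (y / 2) z)) +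
      R22 * (τ * lp1 ρ τ 1 p (y / 2) z) ^ 2) -
    ρ * hL * (L11 * (v * lr1 ρ τ 1 p z) ^ 2 +
      2 * L12 * ((v * lr1 ρ τ 1 p z) * (τ * lr1 ρ τ 1 p z)) + L22 * (τ * lr1 ρ τ 1 p z) ^ 2) -
    m1 * (G1 ρ v 1 p (y / 2) z * (2 / 3 * Y1 ρ v τ - G1 ρ v 1 p (y / 2) z)) -
    m2 * (G2 ρ v 1 p (y / 2) z * (2 / 3 * Y2 ρ v τ - G2 ρ v 1 p (y / 2) z)) -
    m3 * (G3 ρ v 1 p z * (2 / 3 * Y3 ρ v τ - G3 ρ v 1 p z)) -
    m4 * (G4 ρ v 1 p z * (2 / 3 * Y4 ρ v τ - G4 ρ v 1 p z)) -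
    mt * ((lt ρ 1 p z - t0) * (t1 - lt ρ 1 p z)) -
    ρ * sec * (q0 + 2 * q1 * p + q2 * p ^ 2)

/-- `[[a, b], [b, c]]` is positive semidefinite -/
lemma psd2_nonneg {a b c x y : ℝ} (ha : 0 ≤ a) (hc : 0 ≤ c) (hb : b ^ 2 ≤ a * c) :
    0 ≤ a * x ^ 2 + 2 * b * (x * y) + c * y ^ 2 := by
  rcases ha.lt_or_eq with h | h
  · have h1 : 0 ≤ (a * x + b * y) ^ 2 + (a * c - b ^ 2) * y ^ 2 := by
      have : 0 ≤ a * c - b ^ 2 := by linarith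
      positivity
    have h2 : a * (a * x ^ 2 + 2 * b * (x * y) + c * y ^ 2) =
        (a * x + b * y) ^ 2 + (a * c - b ^ 2) * y ^ 2 := by ring
    rw [← h2] at h1
    exact nonneg_of_mul_nonneg_right h1 h
  · have hb0 : b = 0 := by
      have h1 : b ^ 2 ≤ 0 := by rw [← h] at hb; linarith
      exact pow_eq_zero_iff (two_ne_zero) |>.1 (le_antisymm h1 (sq_nonneg b))
    rw [← h, hb0]
    have : 0 ≤ c * y ^ 2 := by positivity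
    linarith

/-- the box multiplier -/
lemma mult_nonneg {ρ v τ a b c : ℝ} (hρ : 0 < ρ) (hρ1 : ρ ≤ 1) (ha : 0 ≤ a) (hc : 0 ≤ c)
    (hb : b ^ 2 ≤ a * c) : 0 ≤ ρ * a * v ^ 2 + 2 * ρ * b * (v * τ) + c * τ ^ 2 := by
  have h1 := mul_nonneg hρ.le (psd2_nonneg (x := v) (y := τ) ha hc hb)
  have h2 : 0 ≤ (1 - ρ) * (c * τ ^ 2) := mul_nonneg (by linarith) (by positivity)
  linarith

/-- **the pointwise certificate from the cell form** -/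
theorem OKp_of_En {kap A B t0 t1 ρ v τ e1 e2 e3 e4 d gR gL hR hL nR1 nR2 nL1 nL2 R11 R12 R22
    L11 L12 L22 m1 m2 m3 m4 mt sec q0 q1 q2 : ℝ}
    (hτ : -1 < τ) (hτ1 : τ < 1) (hρ : 0 < ρ) (hρ1 : ρ ≤ 1) (hv : 0 ≤ v) (hv1 : v ≤ 1)
    (h1 : 0 ≤ (2 - ρ) * (2 - ρ * (1 - v)) - 16 * e1 * Y1 ρ v τ)
    (h2 : 0 ≤ ρ * (ρ * (1 - v)) - 16 * e2 * Y2 ρ v τ)
    (h3 : 0 ≤ ρ * (ρ * (1 + v)) - 16 * e3 * Y3 ρ v τ)
    (h4 : 0 ≤ (2 - ρ) * (2 - ρ * (1 + v)) - 16 * e4 * Y4 ρ v τ)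
    (h5 : 0 ≤ (1 - τ ^ 2) * (2 - ρ * (1 - v)) * et ρ v - 2 * d * Dp ρ v τ)
    (h6 : 0 ≤ gR - (2 - ρ * (1 - v)) * Y2 ρ v τ)
    (h7 : 0 ≤ (2 - ρ) * gR - ρ ^ 2 * (1 - v) * Y1 ρ v τ)
    (h8 : 0 ≤ gL - (2 - ρ * (1 + v)) * Y3 ρ v τ)
    (h9 : 0 ≤ (2 - ρ) * gL - ρ ^ 2 * (1 + v) * Y4 ρ v τ)
    (h10 : 0 ≤ hR * gR - ρ * xi ρ v ^ 2) (h11 : 0 ≤ hL * gL - ρ * et ρ v ^ 2)
    (h12 : 0 ≤ 1 - (nR1 * v + nR2 * τ)) (h12' : 0 ≤ 1 + (nR1 * v + nR2 * τ))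
    (h13 : 0 ≤ 1 - (nL1 * v + nL2 * τ)) (h13' : 0 ≤ 1 + (nL1 * v + nL2 * τ))
    (hR1 : 0 ≤ R11 - nR1 ^ 2) (hR2 : 0 ≤ R22 - nR2 ^ 2)
    (hR3 : (R12 - nR1 * nR2) ^ 2 ≤ (R11 - nR1 ^ 2) * (R22 - nR2 ^ 2))
    (hL1 : 0 ≤ L11 - nL1 ^ 2) (hL2 : 0 ≤ L22 - nL2 ^ 2)
    (hL3 : (L12 - nL1 * nL2) ^ 2 ≤ (L11 - nL1 ^ 2) * (L22 - nL2 ^ 2))
    (hm1 : 0 ≤ m1) (hm2 : 0 ≤ m2) (hm3 : 0 ≤ m3) (hm4 : 0 ≤ m4) (hmt : 0 ≤ mt)
    (hsec : 0 ≤ sec) (hq0 : 0 ≤ q0) (hq2 : 0 ≤ q2) (hq1 : q1 ^ 2 ≤ q0 * q2)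
    (H : ∀ p y z, 0 ≤ En kap A B t0 t1 ρ v τ e1 e2 e3 e4 d (gR + gL) hR hL nR1 nR2 nL1 nL2
      R11 R12 R22 L11 L12 L22 m1 m2 m3 m4 mt sec q0 q1 q2 p y z) :
    OKp kap A B t0 t1 ρ v τ := by
  obtain ⟨y1, y2, y3, y4⟩ := Y_pos hτ hτ1 hρ hρ1 (by linarith) hv1
  have qa : 1 ≤ 2 - ρ * (1 - v) := by nlinarith
  have hgR : 0 < gR := lt_of_lt_of_le (by positivity : 0 < (2 - ρ * (1 - v)) * Y2 ρ v τ)
    (by linarith)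
  have hgL : 0 < gL := by
    have h0 : 0 < (2 - ρ) * gL := lt_of_lt_of_le
      (by positivity : 0 < ρ ^ 2 * (1 + v) * Y4 ρ v τ) (by linarith)
    exact pos_of_mul_pos_right (by linarith) (by linarith : (0:ℝ) ≤ 2 - ρ)
  have hhR : 0 ≤ hR := by
    have h0 : 0 ≤ hR * gR := le_trans (by positivity : 0 ≤ ρ * xi ρ v ^ 2) (by linarith)
    exact nonneg_of_mul_nonneg_left h0 hgR
  have hhL : 0 ≤ hL := by
    have h0 : 0 ≤ hL * gL := le_trans (by positivity : 0 ≤ ρ * et ρ v ^ 2) (by linarith)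
    exact nonneg_of_mul_nonneg_left h0 hgL
  refine ⟨e1, e2, e3, e4, d, gR, gL, hR, hL, nR1 * v + nR2 * τ, nL1 * v + nL2 * τ, m1, m2, m3, m4,
    mt, fun p => ρ * sec * (q0 + 2 * q1 * p + q2 * p ^ 2), by linarith, by linarith, by linarith,
    by linarith, by linarith, by linarith, by linarith, by linarith, by linarith, by linarith,
    by linarith, abs_le.2 ⟨by linarith, by linarith⟩, abs_le.2 ⟨by linarith, by linarith⟩,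
    hm1, hm2, hm3, hm4, hmt, fun p => ?_, fun p y z => ?_⟩
  · have := psd2_nonneg (x := 1) (y := p) hq0 hq2 hq1
    have h0 : q0 + 2 * q1 * p + q2 * p ^ 2 = q0 * 1 ^ 2 + 2 * q1 * (1 * p) + q2 * p ^ 2 := by ring
    show 0 ≤ ρ * sec * (q0 + 2 * q1 * p + q2 * p ^ 2)
    rw [h0]
    positivity
  · have hH := H p y z
    unfold En at hH
    unfold Fr
    have kR := mul_nonneg (mul_nonneg hρ.le hhR)
      (mul_nonneg (psd2_nonneg (x := v) (y := τ) hR1 hR2 hR3) (sq_nonneg (lp1 ρ τ 1 p (y / 2) z)))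
    have kL := mul_nonneg (mul_nonneg hρ.le hhL)
      (mul_nonneg (psd2_nonneg (x := v) (y := τ) hL1 hL2 hL3) (sq_nonneg (lr1 ρ τ 1 p z)))
    generalize F0 kap A B ρ v τ 1 p (y / 2) z = f0 at hH ⊢
    generalize G1 ρ v 1 p (y / 2) z = g1 at hH ⊢
    generalize G2 ρ v 1 p (y / 2) z = g2 at hH ⊢
    generalize G3 ρ v 1 p z = g3 at hH ⊢
    generalize G4 ρ v 1 p z = g4 at hH ⊢
    generalize lN ρ v p (y / 2) z = n at hH ⊢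
    generalize lp1 ρ τ 1 p (y / 2) z = a at hH kR ⊢
    generalize lr1 ρ τ 1 p z = b at hH kL ⊢
    generalize xi ρ v = x at hH ⊢
    generalize et ρ v = e at hH ⊢
    generalize lt ρ 1 p z = t at hH ⊢
    generalize lD ρ v p (y / 2) = dd at hH ⊢
    linarith

end PB

end Pool.G1.Gap
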