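import Pool.Agent.Work.MP_b5407d_g1.Pl_PWH

/-!
# G1, line P-a: the scalar checks of a cell

Each scalar bound is a linear combination (integers of the cell) of fixed tables of monomials
`(i, j, k, 0, c)` = `c ρ^i v^j τ^k`.
-/

set_option autoImplicit false

namespace Pool.G1.Gap

namespace PB

/-- a monomial `c x^i y^j z^k` (times the entry `e` of a quadratic form) -/
abbrev Mono := ℕ × ℕ × ℕ × ℕ × ℤ

/-- value of a scalar table -/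
noncomputable def sev (x y z : ℝ) : List Mono → ℝ
  | [] => 0
  | (i, j, k, _, c) :: T => c * x ^ i * y ^ j * z ^ k + sev x y z T

/-- degrees (2, 2, 2) -/
def TE1 : List (List Mono) :=
  [[(0, 0, 0, 0, 4), (1, 0, 0, 0, -4), (1, 1, 0, 0, 2), (2, 0, 0, 0, 1), (2, 1, 0, 0, -1)],
   [(0, 0, 0, 0, -16), (0, 0, 1, 0, 16), (1, 0, 1, 0, -8), (1, 1, 1, 0, 8)],
   [(1, 0, 0, 0, -16), (1, 0, 1, 0, 16), (2, 0, 1, 0, -8), (2, 1, 1, 0, 8)],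
   [(0, 1, 0, 0, -16), (0, 1, 1, 0, 16), (1, 1, 1, 0, -8), (1, 2, 1, 0, 8)],
   [(0, 0, 1, 0, -16), (0, 0, 2, 0, 16), (1, 0, 2, 0, -8), (1, 1, 2, 0, 8)]]

/-- degrees (2, 2, 2) -/
def TE2 : List (List Mono) :=
  [[(2, 0, 0, 0, 1), (2, 1, 0, 0, -1)],
   [(0, 0, 0, 0, -16), (1, 0, 1, 0, -8), (1, 1, 1, 0, 8)],
   [(1, 0, 0, 0, -16), (2, 0, 1, 0, -8), (2, 1, 1, 0, 8)],
   [(0, 1, 0, 0, -16), (1, 1, 1, 0, -8), (1, 2, 1, 0, 8)],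
   [(0, 0, 1, 0, -16), (1, 0, 2, 0, -8), (1, 1, 2, 0, 8)]]

/-- degrees (2, 2, 2) -/
def TE3 : List (List Mono) :=
  [[(2, 0, 0, 0, 1), (2, 1, 0, 0, 1)],
   [(0, 0, 0, 0, -16), (1, 0, 1, 0, 8), (1, 1, 1, 0, 8)],
   [(1, 0, 0, 0, -16), (2, 0, 1, 0, 8), (2, 1, 1, 0, 8)],
   [(0, 1, 0, 0, -16), (1, 1, 1, 0, 8), (1, 2, 1, 0, 8)],
   [(0, 0, 1, 0, -16), (1, 0, 2, 0, 8), (1, 1, 2, 0, 8)]]

/-- degrees (2, 2, 2) -/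
def TE4 : List (List Mono) :=
  [[(0, 0, 0, 0, 4), (1, 0, 0, 0, -4), (1, 1, 0, 0, -2), (2, 0, 0, 0, 1), (2, 1, 0, 0, 1)],
   [(0, 0, 0, 0, -16), (0, 0, 1, 0, -16), (1, 0, 1, 0, 8), (1, 1, 1, 0, 8)],
   [(1, 0, 0, 0, -16), (1, 0, 1, 0, -16), (2, 0, 1, 0, 8), (2, 1, 1, 0, 8)],
   [(0, 1, 0, 0, -16), (0, 1, 1, 0, -16), (1, 1, 1, 0, 8), (1, 2, 1, 0, 8)],
   [(0, 0, 1, 0, -16), (0, 0, 2, 0, -16), (1, 0, 2, 0, 8), (1, 1, 2, 0, 8)]]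

/-- degrees (3, 4, 2) -/
def TD : List (List Mono) :=
  [[(0, 0, 0, 0, 4), (0, 0, 2, 0, -4), (0, 1, 0, 0, 4), (0, 1, 2, 0, -4), (1, 0, 0, 0, -4),
     (1, 0, 2, 0, 4), (1, 1, 0, 0, -4), (1, 1, 2, 0, 4), (2, 0, 0, 0, 1), (2, 0, 2, 0, -1),
     (2, 1, 0, 0, 1), (2, 1, 2, 0, -1), (2, 2, 0, 0, -1), (2, 2, 2, 0, 1), (2, 3, 0, 0, -1),
     (2, 3, 2, 0, 1)],
   [(0, 0, 0, 0, -8), (0, 1, 1, 0, 8), (1, 0, 0, 0, 4), (1, 1, 1, 0, -8), (1, 2, 0, 0, 4),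
     (2, 1, 1, 0, 4), (2, 3, 1, 0, -4)],
   [(1, 0, 0, 0, -8), (1, 1, 1, 0, 8), (2, 0, 0, 0, 4), (2, 1, 1, 0, -8), (2, 2, 0, 0, 4),
     (3, 1, 1, 0, 4), (3, 3, 1, 0, -4)],
   [(0, 1, 0, 0, -8), (0, 2, 1, 0, 8), (1, 1, 0, 0, 4), (1, 2, 1, 0, -8), (1, 3, 0, 0, 4),
     (2, 2, 1, 0, 4), (2, 4, 1, 0, -4)],
   [(0, 0, 1, 0, -8), (0, 1, 2, 0, 8), (1, 0, 1, 0, 4), (1, 1, 2, 0, -8), (1, 2, 1, 0, 4),
     (2, 1, 2, 0, 4), (2, 3, 2, 0, -4)]]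

/-- degrees (2, 2, 1) -/
def TGR1 : List (List Mono) :=
  [[(0, 0, 0, 0, -4), (1, 0, 0, 0, 2), (1, 0, 1, 0, -2), (1, 1, 0, 0, -2), (1, 1, 1, 0, 2),
     (2, 0, 1, 0, 1), (2, 1, 1, 0, -2), (2, 2, 1, 0, 1)],
   [(0, 0, 0, 0, 2)],
   [(1, 0, 0, 0, 2)],
   [(0, 1, 0, 0, 2)],
   [(0, 0, 1, 0, 2)]]

/-- degrees (3, 2, 1) -/
def TGR2 : List (List Mono) :=
  [[(2, 0, 0, 0, -2), (2, 0, 1, 0, 2), (2, 1, 0, 0, 2), (2, 1, 1, 0, -2), (3, 0, 1, 0, -1),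
     (3, 1, 1, 0, 2), (3, 2, 1, 0, -1)],
   [(0, 0, 0, 0, 4), (1, 0, 0, 0, -2)],
   [(1, 0, 0, 0, 4), (2, 0, 0, 0, -2)],
   [(0, 1, 0, 0, 4), (1, 1, 0, 0, -2)],
   [(0, 0, 1, 0, 4), (1, 0, 1, 0, -2)]]

/-- degrees (2, 2, 1) -/
def TGL1 : List (List Mono) :=
  [[(0, 0, 0, 0, -4), (1, 0, 0, 0, 2), (1, 0, 1, 0, 2), (1, 1, 0, 0, 2), (1, 1, 1, 0, 2),
     (2, 0, 1, 0, -1), (2, 1, 1, 0, -2), (2, 2, 1, 0, -1)],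
   [(0, 0, 0, 0, 2)],
   [(1, 0, 0, 0, 2)],
   [(0, 1, 0, 0, 2)],
   [(0, 0, 1, 0, 2)]]

/-- degrees (3, 2, 1) -/
def TGL2 : List (List Mono) :=
  [[(2, 0, 0, 0, -2), (2, 0, 1, 0, -2), (2, 1, 0, 0, -2), (2, 1, 1, 0, -2), (3, 0, 1, 0, 1),
     (3, 1, 1, 0, 2), (3, 2, 1, 0, 1)],
   [(0, 0, 0, 0, 4), (1, 0, 0, 0, -2)],
   [(1, 0, 0, 0, 4), (2, 0, 0, 0, -2)],
   [(0, 1, 0, 0, 4), (1, 1, 0, 0, -2)],
   [(0, 0, 1, 0, 4), (1, 0, 1, 0, -2)]]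

/-- degrees (3, 4, 1) -/
def THR : List (List Mono) :=
  [[(1, 0, 0, 0, -4), (1, 1, 0, 0, 8), (1, 2, 0, 0, -4), (2, 0, 0, 0, 4), (2, 1, 0, 0, -12),
     (2, 2, 0, 0, 12), (2, 3, 0, 0, -4), (3, 0, 0, 0, -1), (3, 1, 0, 0, 4), (3, 2, 0, 0, -6),
     (3, 3, 0, 0, 4), (3, 4, 0, 0, -1)],
   [(0, 0, 0, 0, 1)],
   [(1, 0, 0, 0, 1)],
   [(0, 1, 0, 0, 1)],
   [(0, 0, 1, 0, 1)],
   [(1, 0, 0, 0, 1)],
   [(2, 0, 0, 0, 1)],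
   [(1, 1, 0, 0, 1)],
   [(1, 0, 1, 0, 1)],
   [(0, 1, 0, 0, 1)],
   [(1, 1, 0, 0, 1)],
   [(0, 2, 0, 0, 1)],
   [(0, 1, 1, 0, 1)]]

/-- degrees (3, 4, 1) -/
def THL : List (List Mono) :=
  [[(1, 0, 0, 0, -4), (1, 1, 0, 0, -8), (1, 2, 0, 0, -4), (2, 0, 0, 0, 4), (2, 1, 0, 0, 12),
     (2, 2, 0, 0, 12), (2, 3, 0, 0, 4), (3, 0, 0, 0, -1), (3, 1, 0, 0, -4), (3, 2, 0, 0, -6),
     (3, 3, 0, 0, -4), (3, 4, 0, 0, -1)],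
   [(0, 0, 0, 0, 1)],
   [(1, 0, 0, 0, 1)],
   [(0, 1, 0, 0, 1)],
   [(0, 0, 1, 0, 1)],
   [(1, 0, 0, 0, 1)],
   [(2, 0, 0, 0, 1)],
   [(1, 1, 0, 0, 1)],
   [(1, 0, 1, 0, 1)],
   [(0, 1, 0, 0, 1)],
   [(1, 1, 0, 0, 1)],
   [(0, 2, 0, 0, 1)],
   [(0, 1, 1, 0, 1)]]

/-- degrees (0, 1, 1) -/
def TN : List (List Mono) :=
  [[(0, 0, 0, 0, 1)],
   [(0, 1, 0, 0, 1)],
   [(0, 0, 1, 0, 1)]]

/-- degrees (0, 1, 1) -/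
def TS : List (List Mono) :=
  [[(0, 1, 0, 0, 1)],
   [(0, 0, 1, 0, 1)]]

lemma E1_eq (x : A4) (ρ v τ : ℝ) :
    lc [4096, x.x0, x.x1, x.x2, x.x3] (TE1.map (sev ρ v τ)) =
      4096 * ((2 - ρ) * (2 - ρ * (1 - v)) - 16 * x.ev ρ v τ * Y1 ρ v τ) := by
  simp only [TE1, List.map, sev, lc, A4.ev, Y1]
  push_cast
  ring

lemma E2_eq (x : A4) (ρ v τ : ℝ) :
    lc [4096, x.x0, x.x1, x.x2, x.x3] (TE2.map (sev ρ v τ)) =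
      4096 * (ρ * (ρ * (1 - v)) - 16 * x.ev ρ v τ * Y2 ρ v τ) := by
  simp only [TE2, List.map, sev, lc, A4.ev, Y2]
  push_cast
  ring

lemma E3_eq (x : A4) (ρ v τ : ℝ) :
    lc [4096, x.x0, x.x1, x.x2, x.x3] (TE3.map (sev ρ v τ)) =
      4096 * (ρ * (ρ * (1 + v)) - 16 * x.ev ρ v τ * Y3 ρ v τ) := by
  simp only [TE3, List.map, sev, lc, A4.ev, Y3]
  push_cast
  ring

lemma E4_eq (x : A4) (ρ v τ : ℝ) :
    lc [4096, x.x0, x.x1, x.x2, x.x3] (TE4.map (sev ρ v τ)) =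
      4096 * ((2 - ρ) * (2 - ρ * (1 + v)) - 16 * x.ev ρ v τ * Y4 ρ v τ) := by
  simp only [TE4, List.map, sev, lc, A4.ev, Y4]
  push_cast
  ring

lemma D_eq (x : A4) (ρ v τ : ℝ) :
    lc [4096, x.x0, x.x1, x.x2, x.x3] (TD.map (sev ρ v τ)) =
      4096 * ((1 - τ ^ 2) * (2 - ρ * (1 - v)) * et ρ v - 2 * x.ev ρ v τ * Dp ρ v τ) := by
  simp only [TD, List.map, sev, lc, A4.ev, Dp, xi, et]
  push_cast
  ring

lemma GR1_eq (x : A4) (ρ v τ : ℝ) :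
    lc [4096, x.x0, x.x1, x.x2, x.x3] (TGR1.map (sev ρ v τ)) =
      8192 * (x.ev ρ v τ - (2 - ρ * (1 - v)) * Y2 ρ v τ) := by
  simp only [TGR1, List.map, sev, lc, A4.ev, Y2]
  push_cast
  ring

lemma GR2_eq (x : A4) (ρ v τ : ℝ) :
    lc [4096, x.x0, x.x1, x.x2, x.x3] (TGR2.map (sev ρ v τ)) =
      8192 * ((2 - ρ) * x.ev ρ v τ - ρ ^ 2 * (1 - v) * Y1 ρ v τ) := by
  simp only [TGR2, List.map, sev, lc, A4.ev, Y1]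
  push_cast
  ring

lemma GL1_eq (x : A4) (ρ v τ : ℝ) :
    lc [4096, x.x0, x.x1, x.x2, x.x3] (TGL1.map (sev ρ v τ)) =
      8192 * (x.ev ρ v τ - (2 - ρ * (1 + v)) * Y3 ρ v τ) := by
  simp only [TGL1, List.map, sev, lc, A4.ev, Y3]
  push_cast
  ring

lemma GL2_eq (x : A4) (ρ v τ : ℝ) :
    lc [4096, x.x0, x.x1, x.x2, x.x3] (TGL2.map (sev ρ v τ)) =
      8192 * ((2 - ρ) * x.ev ρ v τ - ρ ^ 2 * (1 + v) * Y4 ρ v τ) := by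
  simp only [TGL2, List.map, sev, lc, A4.ev, Y4]
  push_cast
  ring

lemma HR_eq (h : A3) (x : A4) (ρ v τ : ℝ) :
    lc [16777216, h.x0 * x.x0, h.x0 * x.x1, h.x0 * x.x2, h.x0 * x.x3,
      h.x1 * x.x0, h.x1 * x.x1, h.x1 * x.x2, h.x1 * x.x3,
      h.x2 * x.x0, h.x2 * x.x1, h.x2 * x.x2, h.x2 * x.x3] (THR.map (sev ρ v τ)) =
      16777216 * (h.ev ρ v * x.ev ρ v τ - ρ * xi ρ v ^ 2) := by
  simp only [THR, List.map, sev, lc, A4.ev, A3.ev, xi]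
  push_cast
  ring

lemma HL_eq (h : A3) (x : A4) (ρ v τ : ℝ) :
    lc [16777216, h.x0 * x.x0, h.x0 * x.x1, h.x0 * x.x2, h.x0 * x.x3,
      h.x1 * x.x0, h.x1 * x.x1, h.x1 * x.x2, h.x1 * x.x3,
      h.x2 * x.x0, h.x2 * x.x1, h.x2 * x.x2, h.x2 * x.x3] (THL.map (sev ρ v τ)) =
      16777216 * (h.ev ρ v * x.ev ρ v τ - ρ * et ρ v ^ 2) := by
  simp only [THL, List.map, sev, lc, A4.ev, A3.ev, et]
  push_cast
  ring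

lemma N_eq (m n : Int) (ρ v τ : ℝ) :
    lc [4096, m, n] (TN.map (sev ρ v τ)) = 4096 * (1 + (m / 4096 * v + n / 4096 * τ)) := by
  simp only [TN, List.map, sev, lc]
  push_cast
  ring

lemma N_eq' (m n : Int) (ρ v τ : ℝ) :
    lc [4096, -m, -n] (TN.map (sev ρ v τ)) = 4096 * (1 - (m / 4096 * v + n / 4096 * τ)) := by
  simp only [TN, List.map, sev, lc]
  push_cast
  ring

lemma S_eq (m n : Int) (ρ v τ : ℝ) :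
    lc [m, n] (TS.map (sev ρ v τ)) = 1024 * ((m * v + n * τ) / 1024) := by
  simp only [TS, List.map, sev, lc]
  push_cast
  ring

/-- the constants of an affine weight -/
def A4.cs (x : A4) : List Int := [4096, x.x0, x.x1, x.x2, x.x3]

/-- the products of two affine weights -/
def prodCs (h : A3) (x : A4) : List Int :=
  [16777216, h.x0 * x.x0, h.x0 * x.x1, h.x0 * x.x2, h.x0 * x.x3,
    h.x1 * x.x0, h.x1 * x.x1, h.x1 * x.x2, h.x1 * x.x3,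
    h.x2 * x.x0, h.x2 * x.x1, h.x2 * x.x2, h.x2 * x.x3]

/-- **the scalar checks of a cell** -/
def CellD.scal (c : CellD) : List (List Int × List (List Mono)) :=
  [(c.e1.cs, TE1), (c.e2.cs, TE2), (c.e3.cs, TE3), (c.e4.cs, TE4), (c.d.cs, TD),
   (c.gR.cs, TGR1), (c.gR.cs, TGR2), (c.gL.cs, TGL1), (c.gL.cs, TGL2),
   (prodCs c.hR c.gR, THR), (prodCs c.hL c.gL, THL),
   ([4096, c.nR1, c.nR2], TN), ([4096, -c.nR1, -c.nR2], TN),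
   ([4096, c.nL1, c.nL2], TN), ([4096, -c.nL1, -c.nL2], TN),
   ([c.sp1, c.sq1], TS), ([c.sp2, c.sq2], TS)]

/-- integer test of positive semidefiniteness -/
def psdI (a b c : Int) : Bool := decide (0 ≤ a) && decide (0 ≤ c) && decide (b * b ≤ a * c)

/-- **the integer conditions of a cell** -/
def CellD.ints (c : CellD) : Bool :=
  psdI (c.SR.x0 * 4096 - c.nR1 * c.nR1) (c.SR.x1 * 4096 - c.nR1 * c.nR2)
      (c.SR.x2 * 4096 - c.nR2 * c.nR2) &&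
    psdI (c.SL.x0 * 4096 - c.nL1 * c.nL1) (c.SL.x1 * 4096 - c.nL1 * c.nL2)
      (c.SL.x2 * 4096 - c.nL2 * c.nL2) &&
    psdI c.b1.x0 c.b1.x1 c.b1.x2 && psdI c.b2.x0 c.b2.x1 c.b2.x2 &&
    psdI c.b3.x0 c.b3.x1 c.b3.x2 && psdI c.b4.x0 c.b4.x1 c.b4.x2 &&
    psdI c.w.x0 c.w.x1 c.w.x2 && psdI c.q.x0 c.q.x1 c.q.x2

lemma psdI_real {a b c : Int} (h : psdI a b c = true) {D : ℝ} (hD : 0 < D) :
    0 ≤ (a : ℝ) / D ∧ 0 ≤ (c : ℝ) / D ∧ ((b : ℝ) / D) ^ 2 ≤ (a : ℝ) / D * ((c : ℝ) / D) := by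
  unfold psdI at h
  simp only [Bool.and_eq_true, decide_eq_true_eq] at h
  obtain ⟨⟨h1, h2⟩, h3⟩ := h
  have k1 : (0 : ℝ) ≤ a := by exact_mod_cast h1
  have k2 : (0 : ℝ) ≤ c := by exact_mod_cast h2
  have k3 : (b : ℝ) * b ≤ a * c := by exact_mod_cast h3
  refine ⟨by positivity, by positivity, ?_⟩
  have e1 : ((b : ℝ) / D) ^ 2 = (b : ℝ) * b / D ^ 2 := by field_simp
  have e2 : (a : ℝ) / D * ((c : ℝ) / D) = (a : ℝ) * c / D ^ 2 := by field_simp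
  rw [e1, e2]
  gcongr

lemma psdI_n {S11 S12 S22 n1 n2 : Int}
    (h : psdI (S11 * 4096 - n1 * n1) (S12 * 4096 - n1 * n2) (S22 * 4096 - n2 * n2) = true) :
    0 ≤ (S11 : ℝ) / 4096 - ((n1 : ℝ) / 4096) ^ 2 ∧ 0 ≤ (S22 : ℝ) / 4096 - ((n2 : ℝ) / 4096) ^ 2 ∧
      ((S12 : ℝ) / 4096 - (n1 : ℝ) / 4096 * ((n2 : ℝ) / 4096)) ^ 2 ≤
        ((S11 : ℝ) / 4096 - ((n1 : ℝ) / 4096) ^ 2) * ((S22 : ℝ) / 4096 - ((n2 : ℝ) / 4096) ^ 2) := by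
  obtain ⟨h1, h2, h3⟩ := psdI_real h (by norm_num : (0 : ℝ) < 16777216)
  push_cast at h1 h2 h3
  have e1 : ((S11 : ℝ) * 4096 - n1 * n1) / 16777216 = (S11 : ℝ) / 4096 - ((n1 : ℝ) / 4096) ^ 2 := by
    ring
  have e2 : ((S22 : ℝ) * 4096 - n2 * n2) / 16777216 = (S22 : ℝ) / 4096 - ((n2 : ℝ) / 4096) ^ 2 := by
    ring
  have e3 : ((S12 : ℝ) * 4096 - n1 * n2) / 16777216 =
      (S12 : ℝ) / 4096 - (n1 : ℝ) / 4096 * ((n2 : ℝ) / 4096) := by ring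
  rw [e1] at h1 h3
  rw [e2] at h2 h3
  rw [e3] at h3
  exact ⟨h1, h2, h3⟩

lemma mult_nn {x : A3} (h : psdI x.x0 x.x1 x.x2 = true) {ρ v τ : ℝ} (hρ : 0 < ρ) (hρ1 : ρ ≤ 1) :
    0 ≤ x.mult ρ v τ := by
  obtain ⟨h1, h2, h3⟩ := psdI_real h (by norm_num : (0 : ℝ) < 4096)
  exact mult_nonneg hρ hρ1 h1 h2 h3

/-- **the pointwise certificate from the linear combinations** -/
theorem OKp_of_lc {c : CellD} {ρ v τ : ℝ} (hτ : -1 < τ) (hτ1 : τ < 1) (hρ : 0 < ρ) (hρ1 : ρ ≤ 1)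
    (hv : 0 ≤ v) (hv1 : v ≤ 1) (hint : c.ints = true)
    (hs : ∀ f ∈ c.scal, 0 ≤ lc f.1 (f.2.map (sev ρ v τ)))
    (hm : ∀ p y z, 0 ≤ lc c.consts (exprs ρ v τ p y z)) :
    OKp (c.kap / 4096) (c.A / 4096) (c.B / 4096) (c.t0 / 4096) (c.t1 / 4096) ρ v τ := by
  unfold CellD.ints at hint
  simp only [Bool.and_eq_true] at hint
  obtain ⟨⟨⟨⟨⟨⟨⟨i1, i2⟩, i3⟩, i4⟩, i5⟩, i6⟩, i7⟩, i8⟩ := hint
  obtain ⟨r1, r2, r3⟩ := psdI_n i1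
  obtain ⟨l1, l2, l3⟩ := psdI_n i2
  obtain ⟨k1, k2, k3⟩ := psdI_real i8 (by norm_num : (0 : ℝ) < 4096)
  have s1 := hs (c.e1.cs, TE1) (by simp [CellD.scal])
  have s2 := hs (c.e2.cs, TE2) (by simp [CellD.scal])
  have s3 := hs (c.e3.cs, TE3) (by simp [CellD.scal])
  have s4 := hs (c.e4.cs, TE4) (by simp [CellD.scal])
  have s5 := hs (c.d.cs, TD) (by simp [CellD.scal])
  have s6 := hs (c.gR.cs, TGR1) (by simp [CellD.scal])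
  have s7 := hs (c.gR.cs, TGR2) (by simp [CellD.scal])
  have s8 := hs (c.gL.cs, TGL1) (by simp [CellD.scal])
  have s9 := hs (c.gL.cs, TGL2) (by simp [CellD.scal])
  have s10 := hs (prodCs c.hR c.gR, THR) (by simp [CellD.scal])
  have s11 := hs (prodCs c.hL c.gL, THL) (by simp [CellD.scal])
  have s12 := hs ([4096, c.nR1, c.nR2], TN) (by simp [CellD.scal])
  have s13 := hs ([4096, -c.nR1, -c.nR2], TN) (by simp [CellD.scal])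
  have s14 := hs ([4096, c.nL1, c.nL2], TN) (by simp [CellD.scal])
  have s15 := hs ([4096, -c.nL1, -c.nL2], TN) (by simp [CellD.scal])
  have s16 := hs ([c.sp1, c.sq1], TS) (by simp [CellD.scal])
  have s17 := hs ([c.sp2, c.sq2], TS) (by simp [CellD.scal])
  simp only [A4.cs, prodCs] at s1 s2 s3 s4 s5 s6 s7 s8 s9 s10 s11
  rw [E1_eq] at s1
  rw [E2_eq] at s2
  rw [E3_eq] at s3
  rw [E4_eq] at s4
  rw [D_eq] at s5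
  rw [GR1_eq] at s6
  rw [GR2_eq] at s7
  rw [GL1_eq] at s8
  rw [GL2_eq] at s9
  rw [HR_eq] at s10
  rw [HL_eq] at s11
  rw [N_eq] at s12
  rw [N_eq'] at s13
  rw [N_eq] at s14
  rw [N_eq'] at s15
  rw [S_eq] at s16
  rw [S_eq] at s17
  refine OKp_of_En (e1 := c.e1.ev ρ v τ) (e2 := c.e2.ev ρ v τ) (e3 := c.e3.ev ρ v τ)
    (e4 := c.e4.ev ρ v τ) (d := c.d.ev ρ v τ) (gR := c.gR.ev ρ v τ) (gL := c.gL.ev ρ v τ)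
    (hR := c.hR.ev ρ v) (hL := c.hL.ev ρ v) (nR1 := c.nR1 / 4096) (nR2 := c.nR2 / 4096)
    (nL1 := c.nL1 / 4096) (nL2 := c.nL2 / 4096) (R11 := c.SR.x0 / 4096) (R12 := c.SR.x1 / 4096)
    (R22 := c.SR.x2 / 4096) (L11 := c.SL.x0 / 4096) (L12 := c.SL.x1 / 4096)
    (L22 := c.SL.x2 / 4096) (m1 := c.b1.mult ρ v τ) (m2 := c.b2.mult ρ v τ)
    (m3 := c.b3.mult ρ v τ) (m4 := c.b4.mult ρ v τ) (mt := c.w.mult ρ v τ) (sec := c.sec v τ)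
    (q0 := c.q.x0 / 4096) (q1 := c.q.x1 / 4096) (q2 := c.q.x2 / 4096)
    hτ hτ1 hρ hρ1 hv hv1 ?_ ?_ ?_ ?_ ?_ ?_ ?_ ?_ ?_ ?_ ?_ ?_ ?_ ?_ ?_ r1 r2 r3 l1 l2 l3
    (mult_nn i3 hρ hρ1) (mult_nn i4 hρ hρ1) (mult_nn i5 hρ hρ1) (mult_nn i6 hρ hρ1)
    (mult_nn i7 hρ hρ1) ?_ k1 k2 k3 (fun p y z => ?_)
  · linarith
  · linarith
  · linarith
  · linarith
  · linarith
  · linarith
  · linarith
  · linarith
  · linarith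
  · linarith
  · linarith
  · linarith
  · linarith
  · linarith
  · linarith
  · unfold CellD.sec
    exact mul_nonneg (by linarith) (by linarith)
  · have h := hm p y z
    rw [lc_eq] at h
    have h2 : 0 ≤ c.En ρ v τ p y z := nonneg_of_mul_nonneg_right h (by norm_num)
    exact h2

end PB

end Pool.G1.Gap
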