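import Pool.Agent.Work.MP_b5407d_g1.Pl_CHEBdefs

/-!
# CHEB: the four-point algebra (section 4 of the note)
-/

set_option autoImplicit false

namespace Pool.G1.QUAD

/-- constant part of `Σ E_j^P` -/
noncomputable def KK (D0 D1 D2 D3 ρ0 ρ1 ρ2 ρ3 : ℝ) : ℝ :=
  ρ0 * (1 / D1 + D2 / (D3 * D0)) + ρ1 * (1 / D2 + D3 / (D0 * D1)) +
  ρ2 * (1 / D3 + D0 / (D1 * D2)) + ρ3 * (1 / D0 + D1 / (D2 * D3))

noncomputable def TT (D0 D1 D2 D3 ρ0 ρ1 ρ2 ρ3 : ℝ) : ℝ :=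
  (ρ0 + ρ1) / max D0 D1 + (ρ1 + ρ2) / max D1 D2 + (ρ2 + ρ3) / max D2 D3 + (ρ3 + ρ0) / max D3 D0

lemma quadA (D0 D1 D2 D3 ρ0 ρ1 ρ2 ρ3 : ℝ) (h0 : 0 < D0) (h1 : 0 < D1) (h2 : 0 < D2) (h3 : 0 < D3)
    (hD : D0 + D2 = D1 + D3) (r0 : 0 ≤ ρ0) (r1 : 0 ≤ ρ1) (r2 : 0 ≤ ρ2) (r3 : 0 ≤ ρ3)
    (m1 : D1 ≤ D0) (m3 : D3 ≤ D0) (m : D1 ≤ D3) :
    TT D0 D1 D2 D3 ρ0 ρ1 ρ2 ρ3 ≤ KK D0 D1 D2 D3 ρ0 ρ1 ρ2 ρ3 := by
  have e2 : D2 = D1 + D3 - D0 := by linarith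
  have h21 : D2 ≤ D1 := by linarith
  have h23 : D2 ≤ D3 := by linarith
  unfold TT
  rw [max_eq_left m1, max_eq_left h21, max_eq_right h23, max_eq_right m3]
  have e : KK D0 D1 D2 D3 ρ0 ρ1 ρ2 ρ3 -
      ((ρ0 + ρ1) / D0 + (ρ1 + ρ2) / D1 + (ρ2 + ρ3) / D3 + (ρ3 + ρ0) / D0) =
      ρ0 * ((D0 - D1) * (D3 - D1) / (D0 * D1 * D3)) +
      ρ1 * ((D1 * (D0 - D2) - D2 * (D0 - D3)) / (D0 * D1 * D2)) +
      ρ2 * ((D0 - D2) / (D1 * D2)) + ρ3 * ((D1 - D2) / (D2 * D3)) +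
      ρ0 * ((D0 + D2 - D1 - D3) * (D1) / (D0 * D1 * D3)) := by
    unfold KK; field_simp; ring
  have e' : D0 + D2 - D1 - D3 = 0 := by linarith
  rw [e'] at e
  have p0 : 0 ≤ ρ0 * ((D0 - D1) * (D3 - D1) / (D0 * D1 * D3)) :=
    mul_nonneg r0 (div_nonneg (mul_nonneg (by linarith) (by linarith)) (by positivity))
  have p1 : 0 ≤ ρ1 * ((D1 * (D0 - D2) - D2 * (D0 - D3)) / (D0 * D1 * D2)) := by
    refine mul_nonneg r1 (div_nonneg ?_ (by positivity))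
    have a1 : D2 * (D0 - D3) ≤ D1 * (D0 - D2) := by
      apply mul_le_mul h21 (by linarith) (by linarith) h1.le
    linarith
  have p2 : 0 ≤ ρ2 * ((D0 - D2) / (D1 * D2)) :=
    mul_nonneg r2 (div_nonneg (by linarith) (by positivity))
  have p3 : 0 ≤ ρ3 * ((D1 - D2) / (D2 * D3)) :=
    mul_nonneg r3 (div_nonneg (by linarith) (by positivity))
  have e0 : ρ0 * (0 * D1 / (D0 * D1 * D3)) = 0 := by simp
  rw [e0] at e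
  linarith

/-- the mirrored expression -/
lemma KK_mirror (D0 D1 D2 D3 ρ0 ρ1 ρ2 ρ3 : ℝ) (h0 : 0 < D0) (h1 : 0 < D1) (h2 : 0 < D2)
    (h3 : 0 < D3) (hD : D0 + D2 = D1 + D3) (hρ : ρ0 * D2 - ρ1 * D3 + ρ2 * D0 - ρ3 * D1 = 0) :
    KK D0 D1 D2 D3 ρ0 ρ1 ρ2 ρ3 = KK D0 D3 D2 D1 ρ0 ρ3 ρ2 ρ1 := by
  have e : KK D0 D1 D2 D3 ρ0 ρ1 ρ2 ρ3 - KK D0 D3 D2 D1 ρ0 ρ3 ρ2 ρ1 =
      (D3 - D1) * (D0 - D2) / (D0 * D1 * D2 * D3) * (ρ0 * D2 - ρ1 * D3 + ρ2 * D0 - ρ3 * D1) := by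
    unfold KK; field_simp; ring
  rw [hρ] at e
  linarith

lemma TT_mirror (D0 D1 D2 D3 ρ0 ρ1 ρ2 ρ3 : ℝ) :
    TT D0 D1 D2 D3 ρ0 ρ1 ρ2 ρ3 = TT D0 D3 D2 D1 ρ0 ρ3 ρ2 ρ1 := by
  unfold TT
  rw [max_comm D0 D1, max_comm D1 D2, max_comm D2 D3, max_comm D3 D0]
  ring

lemma quadB (D0 D1 D2 D3 ρ0 ρ1 ρ2 ρ3 : ℝ) (h0 : 0 < D0) (h1 : 0 < D1) (h2 : 0 < D2) (h3 : 0 < D3)
    (hD : D0 + D2 = D1 + D3) (r0 : 0 ≤ ρ0) (r1 : 0 ≤ ρ1) (r2 : 0 ≤ ρ2) (r3 : 0 ≤ ρ3)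
    (hρ : ρ0 * D2 - ρ1 * D3 + ρ2 * D0 - ρ3 * D1 = 0)
    (m1 : D1 ≤ D0) (m3 : D3 ≤ D0) :
    TT D0 D1 D2 D3 ρ0 ρ1 ρ2 ρ3 ≤ KK D0 D1 D2 D3 ρ0 ρ1 ρ2 ρ3 := by
  rcases le_total D1 D3 with m | m
  · exact quadA D0 D1 D2 D3 ρ0 ρ1 ρ2 ρ3 h0 h1 h2 h3 hD r0 r1 r2 r3 m1 m3 m
  · rw [KK_mirror D0 D1 D2 D3 ρ0 ρ1 ρ2 ρ3 h0 h1 h2 h3 hD hρ, TT_mirror]
    exact quadA D0 D3 D2 D1 ρ0 ρ3 ρ2 ρ1 h0 h3 h2 h1 (by linarith) r0 r3 r2 r1 m3 m1 m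

lemma KK_cyc (D0 D1 D2 D3 ρ0 ρ1 ρ2 ρ3 : ℝ) :
    KK D0 D1 D2 D3 ρ0 ρ1 ρ2 ρ3 = KK D1 D2 D3 D0 ρ1 ρ2 ρ3 ρ0 := by
  unfold KK; ring

lemma TT_cyc (D0 D1 D2 D3 ρ0 ρ1 ρ2 ρ3 : ℝ) :
    TT D0 D1 D2 D3 ρ0 ρ1 ρ2 ρ3 = TT D1 D2 D3 D0 ρ1 ρ2 ρ3 ρ0 := by
  unfold TT; ring

lemma quad (D0 D1 D2 D3 ρ0 ρ1 ρ2 ρ3 : ℝ) (h0 : 0 < D0) (h1 : 0 < D1) (h2 : 0 < D2) (h3 : 0 < D3)
    (hD : D0 + D2 = D1 + D3) (r0 : 0 ≤ ρ0) (r1 : 0 ≤ ρ1) (r2 : 0 ≤ ρ2) (r3 : 0 ≤ ρ3)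
    (hρ : ρ0 * D2 - ρ1 * D3 + ρ2 * D0 - ρ3 * D1 = 0) :
    TT D0 D1 D2 D3 ρ0 ρ1 ρ2 ρ3 ≤ KK D0 D1 D2 D3 ρ0 ρ1 ρ2 ρ3 := by
  rcases le_total D1 D0 with a | a
  · rcases le_total D3 D0 with b | b
    · exact quadB D0 D1 D2 D3 ρ0 ρ1 ρ2 ρ3 h0 h1 h2 h3 hD r0 r1 r2 r3 hρ a b
    · -- D3 ≥ D0 ≥ D1, D2 = D1 + D3 - D0 ≤ D3
      rw [KK_cyc, KK_cyc, KK_cyc, TT_cyc, TT_cyc, TT_cyc]
      exact quadB D3 D0 D1 D2 ρ3 ρ0 ρ1 ρ2 h3 h0 h1 h2 (by linarith) r3 r0 r1 r2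
        (by linarith) b (by linarith)
  · rcases le_total D1 D2 with b | b
    · -- D2 ≥ D1 ≥ D0, D3 = D0 + D2 - D1 ≤ D2
      rw [KK_cyc, KK_cyc, TT_cyc, TT_cyc]
      exact quadB D2 D3 D0 D1 ρ2 ρ3 ρ0 ρ1 h2 h3 h0 h1 (by linarith) r2 r3 r0 r1
        (by linarith) (by linarith) b
    · rw [KK_cyc, TT_cyc]
      exact quadB D1 D2 D3 D0 ρ1 ρ2 ρ3 ρ0 h1 h2 h3 h0 (by linarith) r1 r2 r3 r0
        (by linarith) b a

/-- excess `thm m = 2 - 1/m + ex m` -/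
noncomputable def ex (m : ℝ) : ℝ := if 1 ≤ m then (m - 1) ^ 2 / m else 0

lemma thm_ex (m : ℝ) (hm : 0 < m) : thm m = 2 - 1 / m + ex m := by
  unfold thm ex
  by_cases h : 1 ≤ m
  · rw [if_pos h, if_pos h]; field_simp; ring
  · rw [if_neg h, if_neg h]; ring

lemma ex_nonneg (m : ℝ) (hm : 0 < m) : 0 ≤ ex m := by
  unfold ex
  split_ifs
  · positivity
  · exact le_rfl

lemma ex_mono {m m' : ℝ} (hm : 0 < m) (h : m ≤ m') : ex m ≤ ex m' := by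
  have hm' : 0 < m' := by linarith
  by_cases h1 : 1 ≤ m
  · have h2 : 1 ≤ m' := by linarith
    unfold ex
    rw [if_pos h1, if_pos h2]
    have e : (m' - 1) ^ 2 / m' - (m - 1) ^ 2 / m = (m' - m) * (m * m' - 1) / (m * m') := by
      field_simp; ring
    have : 0 ≤ (m' - m) * (m * m' - 1) / (m * m') :=
      div_nonneg (mul_nonneg (by linarith) (by nlinarith)) (by positivity)
    linarith
  · have : ex m = 0 := by unfold ex; rw [if_neg h1]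
    rw [this]; exact ex_nonneg m' hm'

/-- `ex m + ex (1/m) = (m-1)^2/m` -/
lemma ex_inv (m : ℝ) (hm : 0 < m) : ex m + ex (1 / m) = (m - 1) ^ 2 / m := by
  unfold ex
  by_cases h : 1 ≤ m
  · rw [if_pos h]
    by_cases h' : 1 ≤ 1 / m
    · rw [if_pos h']
      rw [le_div_iff₀ hm] at h'
      have : m = 1 := by linarith
      subst this; norm_num
    · rw [if_neg h']; ring
  · have h' : 1 ≤ 1 / m := by rw [le_div_iff₀ hm]; linarith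
    rw [if_neg h, if_pos h']; field_simp; ring

/-- the side quantity -/
noncomputable def EP (Db Dc Dn ρp ρb ρc mb mc : ℝ) : ℝ :=
  (ρp - ρb - ρc) / Db + ρb / (mb * Db) + ρc * mc / Dc + ρc * Dn / (Db * Dc)

/-- near witness of `b` (`Dc ≤ Db`) -/
lemma sideN (Db Dc Dn ρp ρb ρc mb mc : ℝ) (hb : 0 < Db) (hc : 0 < Dc) (hn : 0 < Dn)
    (rc : 0 ≤ ρc) (hmb : 0 < mb) (hmc : 0 < mc) (h : Dc ≤ Db) :
    EP Db Dc Dn ρp ρb ρc mb mc - (ρb + ρc) / max Db Dc - ex mb * ρb / Db -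
        ex (1 / mc) * ρc / Dc ≤
      (ρp - thm mb * ρb - thm (Dc / (Db * mc + Dn)) * ρc) / Db := by
  have hq : 0 < Dc / (Db * mc + Dn) := by positivity
  rw [max_eq_left h, thm_ex mb hmb, thm_ex _ hq]
  have hle : ex (Dc / (Db * mc + Dn)) ≤ ex (1 / mc) := by
    refine ex_mono hq ?_
    rw [div_le_div_iff₀ (by positivity) hmc]
    nlinarith
  have h1 : ex (Dc / (Db * mc + Dn)) * ρc / Db ≤ ex (1 / mc) * ρc / Dc := by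
    rw [div_le_div_iff₀ hb hc]
    have a1 := ex_nonneg _ hq
    have a2 : 0 ≤ ex (1 / mc) := ex_nonneg _ (by positivity)
    exact mul_le_mul (mul_le_mul_of_nonneg_right hle rc) h hc.le (mul_nonneg a2 rc)
  have e : (ρp - (2 - 1 / mb + ex mb) * ρb -
      (2 - 1 / (Dc / (Db * mc + Dn)) + ex (Dc / (Db * mc + Dn))) * ρc) / Db =
      EP Db Dc Dn ρp ρb ρc mb mc - (ρb + ρc) / Db - ex mb * ρb / Db -
        ex (Dc / (Db * mc + Dn)) * ρc / Db := by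
    unfold EP; field_simp; ring
  rw [e]; linarith

/-- far witness (`Db ≤ Dc`) -/
lemma sideF (Dp Db Dc Dn ρp ρb ρc ρn mb mc : ℝ) (hp : 0 < Dp) (hb : 0 < Db) (hc : 0 < Dc)
    (rb : 0 ≤ ρb) (hmb : 0 < mb) (hmc : 0 < mc) (h : Db ≤ Dc)
    (hD : Db + Dn = Dp + Dc) (hρ : ρp * Dc - ρb * Dn + ρc * Dp - ρn * Db = 0) :
    EP Db Dc Dn ρp ρb ρc mb mc - (ρb + ρc) / max Db Dc - ex mb * ρb / Db -
        ex (1 / mc) * ρc / Dc ≤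
      (ρn - thm (mb * Db / (Dc + Dp * mb)) * ρb - thm (1 / mc) * ρc) / Dc := by
  have hq : 0 < mb * Db / (Dc + Dp * mb) := by positivity
  rw [max_eq_right h, thm_ex (1 / mc) (by positivity), thm_ex _ hq]
  have hle : ex (mb * Db / (Dc + Dp * mb)) ≤ ex mb := by
    refine ex_mono hq ?_
    rw [div_le_iff₀ (by positivity)]
    nlinarith [mul_pos hp hmb]
  have h1 : ex (mb * Db / (Dc + Dp * mb)) * ρb / Dc ≤ ex mb * ρb / Db := by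
    rw [div_le_div_iff₀ hc hb]
    have a1 := ex_nonneg _ hq
    have a2 : 0 ≤ ex mb := ex_nonneg _ hmb
    exact mul_le_mul (mul_le_mul_of_nonneg_right hle rb) h hb.le (mul_nonneg a2 rb)
  have e : (ρn - (2 - 1 / (mb * Db / (Dc + Dp * mb)) + ex (mb * Db / (Dc + Dp * mb))) * ρb -
      (2 - 1 / (1 / mc) + ex (1 / mc)) * ρc) / Dc =
      EP Db Dc Dn ρp ρb ρc mb mc - (ρb + ρc) / Dc - ex (mb * Db / (Dc + Dp * mb)) * ρb / Dc -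
        ex (1 / mc) * ρc / Dc - (ρp * Dc - ρb * Dn + ρc * Dp - ρn * Db) / (Db * Dc) +
        (Dp + Dc - Db - Dn) * (ρb + ρc) / (Db * Dc) := by
    unfold EP; field_simp; ring
  have e' : Dp + Dc - Db - Dn = 0 := by linarith
  rw [e, hρ, e']
  simp only [zero_div, zero_mul, sub_zero, add_zero]
  linarith

/-- scalar form of the total -/
lemma total (D0 D1 D2 D3 ρ0 ρ1 ρ2 ρ3 m0 m1 m2 m3 : ℝ)
    (h0 : 0 < D0) (h1 : 0 < D1) (h2 : 0 < D2) (h3 : 0 < D3)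
    (hD : D0 + D2 = D1 + D3) (r0 : 0 ≤ ρ0) (r1 : 0 ≤ ρ1) (r2 : 0 ≤ ρ2) (r3 : 0 ≤ ρ3)
    (hρ : ρ0 * D2 - ρ1 * D3 + ρ2 * D0 - ρ3 * D1 = 0)
    (k0 : 0 < m0) (k1 : 0 < m1) (k2 : 0 < m2) (k3 : 0 < m3) :
    0 ≤ (EP D0 D1 D2 ρ3 ρ0 ρ1 m0 m1 - (ρ0 + ρ1) / max D0 D1 - ex m0 * ρ0 / D0 -
        ex (1 / m1) * ρ1 / D1) +
      (EP D1 D2 D3 ρ0 ρ1 ρ2 m1 m2 - (ρ1 + ρ2) / max D1 D2 - ex m1 * ρ1 / D1 -
        ex (1 / m2) * ρ2 / D2) +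
      (EP D2 D3 D0 ρ1 ρ2 ρ3 m2 m3 - (ρ2 + ρ3) / max D2 D3 - ex m2 * ρ2 / D2 -
        ex (1 / m3) * ρ3 / D3) +
      (EP D3 D0 D1 ρ2 ρ3 ρ0 m3 m0 - (ρ3 + ρ0) / max D3 D0 - ex m3 * ρ3 / D3 -
        ex (1 / m0) * ρ0 / D0) := by
  have hq := quad D0 D1 D2 D3 ρ0 ρ1 ρ2 ρ3 h0 h1 h2 h3 hD r0 r1 r2 r3 hρ
  have e0 := ex_inv m0 k0
  have e1 := ex_inv m1 k1
  have e2 := ex_inv m2 k2
  have e3 := ex_inv m3 k3
  have f0 : ex (1 / m0) = (m0 - 1) ^ 2 / m0 - ex m0 := by linarith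
  have f1 : ex (1 / m1) = (m1 - 1) ^ 2 / m1 - ex m1 := by linarith
  have f2 : ex (1 / m2) = (m2 - 1) ^ 2 / m2 - ex m2 := by linarith
  have f3 : ex (1 / m3) = (m3 - 1) ^ 2 / m3 - ex m3 := by linarith
  rw [f0, f1, f2, f3]
  have hD1 : D1 = D0 + D2 - D3 := by linarith
  have key : (EP D0 D1 D2 ρ3 ρ0 ρ1 m0 m1 - ex m0 * ρ0 / D0 -
        ((m1 - 1) ^ 2 / m1 - ex m1) * ρ1 / D1) +
      (EP D1 D2 D3 ρ0 ρ1 ρ2 m1 m2 - ex m1 * ρ1 / D1 -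
        ((m2 - 1) ^ 2 / m2 - ex m2) * ρ2 / D2) +
      (EP D2 D3 D0 ρ1 ρ2 ρ3 m2 m3 - ex m2 * ρ2 / D2 -
        ((m3 - 1) ^ 2 / m3 - ex m3) * ρ3 / D3) +
      (EP D3 D0 D1 ρ2 ρ3 ρ0 m3 m0 - ex m3 * ρ3 / D3 -
        ((m0 - 1) ^ 2 / m0 - ex m0) * ρ0 / D0) =
      KK D0 D1 D2 D3 ρ0 ρ1 ρ2 ρ3 +
      (D0 + D2 - D1 - D3) * (ρ0 / (D0 * D3) * (-1) + ρ1 / (D1 * D0) + ρ2 / (D1 * D2) * (-1) +
        ρ3 / (D2 * D3)) := by
    unfold EP KK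
    generalize ex m0 = x0
    generalize ex m1 = x1
    generalize ex m2 = x2
    generalize ex m3 = x3
    field_simp
    ring
  have e' : D0 + D2 - D1 - D3 = 0 := by linarith
  rw [e', zero_mul, add_zero] at key
  unfold TT at hq
  linarith

/-- right side of the arc inequality, divided by the area -/
noncomputable def qval (a b c Lb Lc : R2) (r : ℝ × R2) : ℝ :=
  (af r a - thm (cp Lb (c - b) / cp (b - a) Lb) * af r b -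
    thm (cp (c - b) Lc / cp (c - a) Lc) * af r c) / cp (b - a) (c - a)

lemma side (pp pb pc pn Lb Lc : R2) (r : ℝ × R2)
    (hDb : 0 < cp (pb - pp) (pc - pb)) (hDc : 0 < cp (pc - pb) (pn - pc))
    (hDn : 0 < cp (pn - pc) (pp - pn)) (hDp : 0 < cp (pp - pn) (pb - pp))
    (hb1 : 0 < cp (pb - pp) Lb) (hb2 : 0 < cp Lb (pc - pb))
    (hc1 : 0 < cp (pc - pb) Lc) (hc2 : 0 < cp Lc (pn - pc))
    (rb : 0 ≤ af r pb) (rc : 0 ≤ af r pc) :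
    EP (cp (pb - pp) (pc - pb)) (cp (pc - pb) (pn - pc)) (cp (pn - pc) (pp - pn))
        (af r pp) (af r pb) (af r pc) (cp Lb (pc - pb) / cp (pb - pp) Lb)
        (cp Lc (pn - pc) / cp (pc - pb) Lc) -
      (af r pb + af r pc) / max (cp (pb - pp) (pc - pb)) (cp (pc - pb) (pn - pc)) -
      ex (cp Lb (pc - pb) / cp (pb - pp) Lb) * af r pb / cp (pb - pp) (pc - pb) -
      ex (1 / (cp Lc (pn - pc) / cp (pc - pb) Lc)) * af r pc / cp (pc - pb) (pn - pc) ≤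
      max (qval pp pb pc Lb Lc r) (qval pn pb pc Lb Lc r) := by
  have hmb : 0 < cp Lb (pc - pb) / cp (pb - pp) Lb := div_pos hb2 hb1
  have hmc : 0 < cp Lc (pn - pc) / cp (pc - pb) Lc := div_pos hc2 hc1
  rcases le_total (cp (pc - pb) (pn - pc)) (cp (pb - pp) (pc - pb)) with h | h
  · refine le_trans ?_ (le_max_left _ _)
    refine (sideN _ _ _ (af r pp) (af r pb) (af r pc) _ _ hDb hDc hDn rc hmb hmc h).trans
      (le_of_eq ?_)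
    have e1 : cp (pb - pp) (pc - pp) = cp (pb - pp) (pc - pb) := by
      simp only [cp, Prod.fst_sub, Prod.snd_sub]; ring
    have e2 : cp (pc - pb) (pn - pc) / (cp (pb - pp) (pc - pb) *
        (cp Lc (pn - pc) / cp (pc - pb) Lc) + cp (pn - pc) (pp - pn)) =
        cp (pc - pb) Lc / cp (pc - pp) Lc := by
      have e3 : cp (pc - pb) (pn - pc) * cp (pc - pp) Lc = cp (pb - pp) (pc - pb) *
          cp Lc (pn - pc) + cp (pn - pc) (pp - pn) * cp (pc - pb) Lc := by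
        simp only [cp, Prod.fst_sub, Prod.snd_sub]; ring
      have e4 : 0 < cp (pc - pp) Lc := by
        have : 0 < cp (pc - pb) (pn - pc) * cp (pc - pp) Lc := by rw [e3]; positivity
        exact (mul_pos_iff_of_pos_left hDc).mp this
      rw [div_eq_div_iff (by positivity) e4.ne', e3]
      field_simp
    unfold qval
    rw [e1, e2]
  · refine le_trans ?_ (le_max_right _ _)
    have hD : cp (pb - pp) (pc - pb) + cp (pn - pc) (pp - pn) =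
        cp (pp - pn) (pb - pp) + cp (pc - pb) (pn - pc) := by
      simp only [cp, Prod.fst_sub, Prod.snd_sub]; ring
    have hρ : af r pp * cp (pc - pb) (pn - pc) - af r pb * cp (pn - pc) (pp - pn) +
        af r pc * cp (pp - pn) (pb - pp) - af r pn * cp (pb - pp) (pc - pb) = 0 := by
      simp only [af, dp, cp, Prod.fst_sub, Prod.snd_sub]; ring
    refine (sideF (cp (pp - pn) (pb - pp)) _ _ _ (af r pp) (af r pb) (af r pc) (af r pn) _ _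
      hDp hDb hDc rb hmb hmc h hD hρ).trans (le_of_eq ?_)
    have e1 : cp (pb - pn) (pc - pn) = cp (pc - pb) (pn - pc) := by
      simp only [cp, Prod.fst_sub, Prod.snd_sub]; ring
    have e2 : cp Lb (pc - pb) / cp (pb - pp) Lb * cp (pb - pp) (pc - pb) /
        (cp (pc - pb) (pn - pc) + cp (pp - pn) (pb - pp) *
          (cp Lb (pc - pb) / cp (pb - pp) Lb)) =
        cp Lb (pc - pb) / cp (pb - pn) Lb := by
      have e3 : cp (pb - pp) (pc - pb) * cp (pb - pn) Lb = cp (pc - pb) (pn - pc) *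
          cp (pb - pp) Lb + cp (pp - pn) (pb - pp) * cp Lb (pc - pb) := by
        simp only [cp, Prod.fst_sub, Prod.snd_sub]; ring
      have e4 : 0 < cp (pb - pn) Lb := by
        have : 0 < cp (pb - pp) (pc - pb) * cp (pb - pn) Lb := by rw [e3]; positivity
        exact (mul_pos_iff_of_pos_left hDb).mp this
      have e5 : cp (pc - pb) (pn - pc) + cp (pp - pn) (pb - pp) *
          (cp Lb (pc - pb) / cp (pb - pp) Lb) =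
          cp (pb - pp) (pc - pb) * cp (pb - pn) Lb / cp (pb - pp) Lb := by
        rw [e3]; field_simp
      rw [e5]
      field_simp
    have e6 : 1 / (cp Lc (pn - pc) / cp (pc - pb) Lc) = cp (pc - pb) Lc / cp (pc - pn) Lc := by
      have e7 : cp (pc - pn) Lc = cp Lc (pn - pc) := by
        simp only [cp, Prod.fst_sub, Prod.snd_sub]; ring
      rw [e7, one_div_div]
    unfold qval
    rw [e1, e2, e6]

/-- the four-point inequality -/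
theorem QUAD (p0 p1 p2 p3 L0 L1 L2 L3 : R2) (r : ℝ × R2)
    (h1 : 0 < cp (p1 - p0) (p2 - p1)) (h2 : 0 < cp (p2 - p1) (p3 - p2))
    (h3 : 0 < cp (p3 - p2) (p0 - p3)) (h0 : 0 < cp (p0 - p3) (p1 - p0))
    (a0 : 0 < cp (p0 - p3) L0) (b0 : 0 < cp L0 (p1 - p0))
    (a1 : 0 < cp (p1 - p0) L1) (b1 : 0 < cp L1 (p2 - p1))
    (a2 : 0 < cp (p2 - p1) L2) (b2 : 0 < cp L2 (p3 - p2))
    (a3 : 0 < cp (p3 - p2) L3) (b3 : 0 < cp L3 (p0 - p3))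
    (r0 : 0 ≤ af r p0) (r1 : 0 ≤ af r p1) (r2 : 0 ≤ af r p2) (r3 : 0 ≤ af r p3) :
    0 ≤ max (qval p3 p0 p1 L0 L1 r) (qval p2 p0 p1 L0 L1 r) +
      max (qval p0 p1 p2 L1 L2 r) (qval p3 p1 p2 L1 L2 r) +
      max (qval p1 p2 p3 L2 L3 r) (qval p0 p2 p3 L2 L3 r) +
      max (qval p2 p3 p0 L3 L0 r) (qval p1 p3 p0 L3 L0 r) := by
  have s0 := side p3 p0 p1 p2 L0 L1 r h0 h1 h2 h3 a0 b0 a1 b1 r0 r1
  have s1 := side p0 p1 p2 p3 L1 L2 r h1 h2 h3 h0 a1 b1 a2 b2 r1 r2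
  have s2 := side p1 p2 p3 p0 L2 L3 r h2 h3 h0 h1 a2 b2 a3 b3 r2 r3
  have s3 := side p2 p3 p0 p1 L3 L0 r h3 h0 h1 h2 a3 b3 a0 b0 r3 r0
  have hD : cp (p0 - p3) (p1 - p0) + cp (p2 - p1) (p3 - p2) =
      cp (p1 - p0) (p2 - p1) + cp (p3 - p2) (p0 - p3) := by
    simp only [cp, Prod.fst_sub, Prod.snd_sub]; ring
  have hρ : af r p0 * cp (p2 - p1) (p3 - p2) - af r p1 * cp (p3 - p2) (p0 - p3) +
      af r p2 * cp (p0 - p3) (p1 - p0) - af r p3 * cp (p1 - p0) (p2 - p1) = 0 := by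
    simp only [af, dp, cp, Prod.fst_sub, Prod.snd_sub]; ring
  have ht := total _ _ _ _ (af r p0) (af r p1) (af r p2) (af r p3)
    (cp L0 (p1 - p0) / cp (p0 - p3) L0) (cp L1 (p2 - p1) / cp (p1 - p0) L1)
    (cp L2 (p3 - p2) / cp (p2 - p1) L2) (cp L3 (p0 - p3) / cp (p3 - p2) L3)
    h0 h1 h2 h3 hD r0 r1 r2 r3 hρ (div_pos b0 a0) (div_pos b1 a1) (div_pos b2 a2) (div_pos b3 a3)
  linarith

end Pool.G1.QUAD
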