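import Pool.Agent.Work.MP_b5407d_g1.Pl_SQK

/-!
# G1: Rogers-Shephard bound (RS) for closed real polygons over a convex polygon

`f i`, `i ∈ A ∪ B`, closed (`∑_A f + ∑_B f = 0`), `A` on one side and `B` on the other side of the line
spanned by `u`.  Then the sum of `|f i × f j|` over the pairs `A × B` is at most the sum over the ordered
pairs of `A × A` and of `B × B`  (`rs_vec`).

Polygon form `RS`: for closed labels `z` over `F` with vertices `P`,
`-24 |P| ≤ Σ_{ordered pairs} k_ij (|z_i z_j| - 3 z_i z_j)`, that is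
`-|P| ≤ (1/3) OPP - (1/6) SAME` with sums over unordered pairs.
-/

set_option autoImplicit false

namespace Pool.G1

variable {ι : Type*}

theorem cp_sum_right (a : R2) (s : Finset ι) (f : ι → R2) :
    cp a (∑ i ∈ s, f i) = ∑ i ∈ s, cp a (f i) := by
  classical
  induction s using Finset.induction_on with
  | empty => simp [cp]
  | insert i s hi ih =>
    rw [Finset.sum_insert hi, Finset.sum_insert hi, ← ih]
    simp only [cp, Prod.fst_add, Prod.snd_add]
    ring

theorem cp_pluecker (a b u g : R2) :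
    cp a b * cp u g = cp u b * cp a g - cp u a * cp b g := by
  simp only [cp]
  ring

theorem cp_zero_of_parallel {a b u : R2} (hu : u ≠ 0) (ha : cp u a = 0) (hb : cp u b = 0) :
    cp a b = 0 := by
  by_contra h
  apply hu
  have h1 : cp a b * u.1 = 0 := by
    have : cp a b * u.1 = cp u b * a.1 - cp u a * b.1 := by simp only [cp]; ring
    rw [this, ha, hb]; ring
  have h2 : cp a b * u.2 = 0 := by
    have : cp a b * u.2 = cp u b * a.2 - cp u a * b.2 := by simp only [cp]; ring
    rw [this, ha, hb]; ring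
  have h3 : u.1 = 0 := by
    rcases mul_eq_zero.1 h1 with h1 | h1
    · exact absurd h1 h
    · exact h1
  have h4 : u.2 = 0 := by
    rcases mul_eq_zero.1 h2 with h2 | h2
    · exact absurd h2 h
    · exact h2
  exact Prod.ext h3 h4

/-- Rogers-Shephard for closed families of plane vectors: the sum over opposite pairs is at most the
ordered sum over the pairs on the same side. -/
theorem rs_vec (A B : Finset ι) (f : ι → R2) (u : R2) (hu : u ≠ 0)
    (hsum : ∑ i ∈ A, f i + ∑ i ∈ B, f i = 0)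
    (hA : ∀ i ∈ A, 0 ≤ cp u (f i)) (hB : ∀ i ∈ B, cp u (f i) ≤ 0) :
    ∑ i ∈ A, ∑ j ∈ B, |cp (f i) (f j)| ≤
      ∑ i ∈ A, ∑ j ∈ A, |cp (f i) (f j)| + ∑ i ∈ B, ∑ j ∈ B, |cp (f i) (f j)| := by
  classical
  set G : R2 := ∑ i ∈ A, f i with hG
  have hG' : ∑ i ∈ B, f i = -G := by
    rw [eq_neg_iff_add_eq_zero, add_comm]; exact hsum
  set Y : ℝ := cp u G with hY
  have hYA : ∑ i ∈ A, cp u (f i) = Y := by rw [hY, hG, cp_sum_right]
  have hYB : ∑ i ∈ B, cp u (f i) = -Y := by
    rw [← cp_sum_right, hG', hY]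
    simp only [cp, Prod.fst_neg, Prod.snd_neg]; ring
  have hY0 : 0 ≤ Y := by rw [← hYA]; exact Finset.sum_nonneg hA
  have hAA : ∀ i, |cp (f i) G| ≤ ∑ j ∈ A, |cp (f i) (f j)| := by
    intro i
    rw [hG, cp_sum_right]
    exact Finset.abs_sum_le_sum_abs _ _
  have hBB : ∀ i, |cp (f i) G| ≤ ∑ j ∈ B, |cp (f i) (f j)| := by
    intro i
    have h1 : cp (f i) G = - cp (f i) (∑ j ∈ B, f j) := by
      rw [hG']
      simp only [cp, Prod.fst_neg, Prod.snd_neg]; ring
    rw [h1, abs_neg, cp_sum_right]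
    exact Finset.abs_sum_le_sum_abs _ _
  rcases hY0.eq_or_lt with h0 | hpos
  · -- all vectors are parallel to `u`
    have zA : ∀ i ∈ A, cp u (f i) = 0 := by
      have := (Finset.sum_eq_zero_iff_of_nonneg hA).1 (by rw [hYA, ← h0])
      exact this
    have zB : ∀ i ∈ B, cp u (f i) = 0 := by
      have h1 : ∑ i ∈ B, - cp u (f i) = 0 := by rw [Finset.sum_neg_distrib, hYB, ← h0]; simp
      have h2 := (Finset.sum_eq_zero_iff_of_nonneg
        (fun i hi => by have := hB i hi; linarith)).1 h1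
      intro i hi
      have := h2 i hi
      linarith
    have z : ∀ i ∈ A, ∀ j ∈ B, |cp (f i) (f j)| = 0 := by
      intro i hi j hj
      rw [abs_eq_zero]
      exact cp_zero_of_parallel hu (zA i hi) (zB j hj)
    rw [Finset.sum_eq_zero fun i hi => Finset.sum_eq_zero fun j hj => z i hi j hj]
    exact add_nonneg
      (Finset.sum_nonneg fun i _ => Finset.sum_nonneg fun j _ => abs_nonneg _)
      (Finset.sum_nonneg fun i _ => Finset.sum_nonneg fun j _ => abs_nonneg _)
  · have key : ∀ i ∈ A, ∀ j ∈ B,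
        Y * |cp (f i) (f j)| ≤ cp u (f i) * |cp (f j) G| + (- cp u (f j)) * |cp (f i) G| := by
      intro i hi j hj
      have h1 := cp_pluecker (f i) (f j) u G
      have h2 : Y * |cp (f i) (f j)| = |cp (f i) (f j) * cp u G| := by
        rw [abs_mul, ← hY, abs_of_pos hpos]; ring
      rw [h2, h1]
      have h3 : |cp u (f j) * cp (f i) G - cp u (f i) * cp (f j) G| ≤
          |cp u (f j) * cp (f i) G| + |cp u (f i) * cp (f j) G| := abs_sub _ _
      rw [abs_mul, abs_mul, abs_of_nonneg (hA i hi), abs_of_nonpos (hB j hj)] at h3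
      linarith
    have h4 : Y * ∑ i ∈ A, ∑ j ∈ B, |cp (f i) (f j)| ≤
        ∑ i ∈ A, ∑ j ∈ B, (cp u (f i) * |cp (f j) G| + (- cp u (f j)) * |cp (f i) G|) := by
      rw [Finset.mul_sum]
      refine Finset.sum_le_sum fun i hi => ?_
      rw [Finset.mul_sum]
      exact Finset.sum_le_sum fun j hj => key i hi j hj
    have h5 : ∑ i ∈ A, ∑ j ∈ B, (cp u (f i) * |cp (f j) G| + (- cp u (f j)) * |cp (f i) G|) =
        Y * (∑ j ∈ B, |cp (f j) G|) + Y * (∑ i ∈ A, |cp (f i) G|) := by
      simp only [Finset.sum_add_distrib]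
      have e1 : ∑ i ∈ A, ∑ j ∈ B, cp u (f i) * |cp (f j) G| = Y * ∑ j ∈ B, |cp (f j) G| := by
        rw [← hYA, Finset.sum_mul]
        refine Finset.sum_congr rfl fun i _ => ?_
        rw [Finset.mul_sum]
      have e2 : ∑ i ∈ A, ∑ j ∈ B, (-cp u (f j)) * |cp (f i) G| = Y * ∑ i ∈ A, |cp (f i) G| := by
        rw [Finset.mul_sum]
        refine Finset.sum_congr rfl fun i _ => ?_
        rw [← Finset.sum_mul, Finset.sum_neg_distrib, hYB, neg_neg]
      rw [e1, e2]
    have h6 : Y * ∑ i ∈ A, ∑ j ∈ B, |cp (f i) (f j)| ≤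
        Y * (∑ i ∈ A, |cp (f i) G| + ∑ j ∈ B, |cp (f j) G|) := by
      rw [h5] at h4; linarith
    have h7 := le_of_mul_le_mul_left h6 hpos
    refine h7.trans (add_le_add ?_ ?_)
    · exact Finset.sum_le_sum fun i _ => hAA i
    · exact Finset.sum_le_sum fun i _ => hBB i

/-- **(RS)** for closed labels, ordered pairs: `-24 |P| ≤ Σ k_ij (|z_i z_j| - 3 z_i z_j)`. -/
theorem RS {n : ℕ} {ν v : ℕ → R2} {ℓ : ℕ → ℝ} (h : Poly n ν v ℓ) (hinj : Order.Inj n ν)
    (z : ℕ → ℝ) (hz : ∀ k, z (k + n) = z k) (P : ℕ → R2) (hPp : ∀ k, P (k + n) = P k)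
    (hP : ∀ k, P (k + 1) = P k + (z k * ℓ k) • rt (ν k)) :
    -24 * ar n P ≤ ∑ j ∈ Finset.range n, ∑ k ∈ Finset.range n,
      (|z j * z k| - 3 * (z j * z k)) * (ℓ j * ℓ k * |cp (ν j) (ν k)|) := by
  classical
  obtain ⟨u, hu⟩ := Order.generic h
  have hu0 : u ≠ 0 := by
    intro h0
    apply hu 0
    rw [h0]
    simp [dp]
  have A := SQK.area_cut h hinj u hu z hz P hPp hP
  set f : ℕ → R2 := fun k => (z k * ℓ k) • rt (ν k) with hf
  have hcl : ∑ k ∈ Finset.range n, f k = 0 := by
    have e : ∀ k, f k = P (k + 1) - P k := by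
      intro k
      rw [hP k]
      simp [hf]
    rw [Finset.sum_congr rfl fun k _ => e k, Finset.sum_range_sub (fun k => P k)]
    have := hPp 0
    rw [zero_add] at this
    rw [this, sub_self]
  have hcu : ∀ k, cp u (f k) = ℓ k * (z k * dp u (ν k)) := by
    intro k
    simp only [hf, cp, dp, rt, Prod.smul_fst, Prod.smul_snd, smul_eq_mul]
    ring
  have hX : ∀ j k, |cp (f j) (f k)| = |z j * z k| * (ℓ j * ℓ k * |cp (ν j) (ν k)|) := by
    intro j k
    have e : cp (f j) (f k) = (z j * z k) * (ℓ j * ℓ k * cp (ν j) (ν k)) := by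
      simp only [hf, cp, rt, Prod.smul_fst, Prod.smul_snd, smul_eq_mul]
      ring
    have := (h.pos j).le
    have := (h.pos k).le
    rw [e, abs_mul, abs_mul (ℓ j * ℓ k), abs_mul (ℓ j) (ℓ k), abs_of_nonneg (h.pos j).le,
      abs_of_nonneg (h.pos k).le]
  set p : ℕ → Prop := fun k => 0 ≤ z k * dp u (ν k) with hp
  have R := rs_vec ((Finset.range n).filter p) ((Finset.range n).filter (fun k => ¬ p k)) f u hu0
    (by rw [Finset.sum_filter_add_sum_filter_not]; exact hcl)
    (by
      intro i hi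
      rw [hcu]
      exact mul_nonneg (h.pos i).le (Finset.mem_filter.1 hi).2)
    (by
      intro i hi
      rw [hcu]
      exact mul_nonpos_of_nonneg_of_nonpos (h.pos i).le (not_le.1 (Finset.mem_filter.1 hi).2).le)
  simp only [Finset.sum_filter] at R
  have R2 : ∑ j ∈ Finset.range n, ∑ k ∈ Finset.range n,
      (if p j then (if ¬ p k then |cp (f j) (f k)| else 0) else 0) ≤
      ∑ j ∈ Finset.range n, ∑ k ∈ Finset.range n,
        (if p j then (if p k then |cp (f j) (f k)| else 0) else 0) +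
      ∑ j ∈ Finset.range n, ∑ k ∈ Finset.range n,
        (if ¬ p j then (if ¬ p k then |cp (f j) (f k)| else 0) else 0) := by
    have e : ∀ (a : ℕ → Prop) [DecidablePred a] (g : ℕ → ℕ → ℝ),
        ∑ j ∈ Finset.range n, (if a j then ∑ k ∈ Finset.range n, g j k else 0) =
        ∑ j ∈ Finset.range n, ∑ k ∈ Finset.range n, (if a j then g j k else 0) := by
      intro a _ g
      refine Finset.sum_congr rfl fun j _ => ?_
      split_ifs
      · rfl
      · simp
    rw [e p, e p, e (fun k => ¬ p k)] at R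
    exact R
  have R3 : ∑ j ∈ Finset.range n, ∑ k ∈ Finset.range n,
      (if ¬ p j then (if p k then |cp (f j) (f k)| else 0) else 0) =
      ∑ j ∈ Finset.range n, ∑ k ∈ Finset.range n,
      (if p j then (if ¬ p k then |cp (f j) (f k)| else 0) else 0) := by
    rw [Finset.sum_comm]
    refine Finset.sum_congr rfl fun j _ => Finset.sum_congr rfl fun k _ => ?_
    have : |cp (f k) (f j)| = |cp (f j) (f k)| := by
      rw [← abs_neg]
      congr 1
      simp only [cp]; ring
    rw [this]
    split_ifs <;> rfl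
  have key : ∀ j k, (|z j * z k| - 3 * (z j * z k)) * (ℓ j * ℓ k * |cp (ν j) (ν k)|) +
      6 * (if 0 < dp u (ν j) * dp u (ν k) then z j * z k * (ℓ j * ℓ k * |cp (ν j) (ν k)|) else 0) =
      4 * (if p j then (if p k then |cp (f j) (f k)| else 0) else 0) +
      4 * (if ¬ p j then (if ¬ p k then |cp (f j) (f k)| else 0) else 0) -
      2 * (if p j then (if ¬ p k then |cp (f j) (f k)| else 0) else 0) -
      2 * (if ¬ p j then (if p k then |cp (f j) (f k)| else 0) else 0) := by
    intro j k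
    rw [hX]
    set w : ℝ := ℓ j * ℓ k * |cp (ν j) (ν k)| with hw
    rcases eq_or_ne (z j) 0 with hj | hj
    · simp [hj]
    rcases eq_or_ne (z k) 0 with hk | hk
    · simp [hk]
    have uj := hu j
    have uk := hu k
    rcases lt_or_gt_of_ne hj with zj | zj <;> rcases lt_or_gt_of_ne hk with zk | zk <;>
      rcases lt_or_gt_of_ne uj with dj | dj <;> rcases lt_or_gt_of_ne uk with dk | dk
    all_goals first
      | have q1 : 0 ≤ z j * dp u (ν j) := mul_nonneg_of_nonpos_of_nonpos zj.le dj.le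
      | have q1 : 0 ≤ z j * dp u (ν j) := mul_nonneg zj.le dj.le
      | have q1 : ¬ 0 ≤ z j * dp u (ν j) := not_le.2 (mul_neg_of_neg_of_pos zj dj)
      | have q1 : ¬ 0 ≤ z j * dp u (ν j) := not_le.2 (mul_neg_of_pos_of_neg zj dj)
    all_goals first
      | have q2 : 0 ≤ z k * dp u (ν k) := mul_nonneg_of_nonpos_of_nonpos zk.le dk.le
      | have q2 : 0 ≤ z k * dp u (ν k) := mul_nonneg zk.le dk.le
      | have q2 : ¬ 0 ≤ z k * dp u (ν k) := not_le.2 (mul_neg_of_neg_of_pos zk dk)
      | have q2 : ¬ 0 ≤ z k * dp u (ν k) := not_le.2 (mul_neg_of_pos_of_neg zk dk)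
    all_goals first
      | have q3 : 0 < dp u (ν j) * dp u (ν k) := mul_pos_of_neg_of_neg dj dk
      | have q3 : 0 < dp u (ν j) * dp u (ν k) := mul_pos dj dk
      | have q3 : ¬ 0 < dp u (ν j) * dp u (ν k) := not_lt.2 (mul_neg_of_neg_of_pos dj dk).le
      | have q3 : ¬ 0 < dp u (ν j) * dp u (ν k) := not_lt.2 (mul_neg_of_pos_of_neg dj dk).le
    all_goals first
      | have q4 : |z j * z k| = z j * z k := abs_of_pos (mul_pos_of_neg_of_neg zj zk)
      | have q4 : |z j * z k| = z j * z k := abs_of_pos (mul_pos zj zk)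
      | have q4 : |z j * z k| = -(z j * z k) := abs_of_neg (mul_neg_of_neg_of_pos zj zk)
      | have q4 : |z j * z k| = -(z j * z k) := abs_of_neg (mul_neg_of_pos_of_neg zj zk)
    all_goals
      simp only [hp, q1, q2, q3, q4, if_true, if_false, not_true_eq_false, not_false_eq_true]
      ring
  have S : ∑ j ∈ Finset.range n, ∑ k ∈ Finset.range n,
      (|z j * z k| - 3 * (z j * z k)) * (ℓ j * ℓ k * |cp (ν j) (ν k)|) + 6 * (4 * ar n P) =
      4 * ∑ j ∈ Finset.range n, ∑ k ∈ Finset.range n,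
        (if p j then (if p k then |cp (f j) (f k)| else 0) else 0) +
      4 * ∑ j ∈ Finset.range n, ∑ k ∈ Finset.range n,
        (if ¬ p j then (if ¬ p k then |cp (f j) (f k)| else 0) else 0) -
      2 * ∑ j ∈ Finset.range n, ∑ k ∈ Finset.range n,
        (if p j then (if ¬ p k then |cp (f j) (f k)| else 0) else 0) -
      2 * ∑ j ∈ Finset.range n, ∑ k ∈ Finset.range n,
        (if ¬ p j then (if p k then |cp (f j) (f k)| else 0) else 0) := by
    rw [A]
    simp only [Finset.mul_sum]
    simp only [← Finset.sum_add_distrib, ← Finset.sum_sub_distrib]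
    exact Finset.sum_congr rfl fun j _ => Finset.sum_congr rfl fun k _ => key j k
  rw [R3] at S
  linarith

end Pool.G1
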