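import Mathlib

set_option autoImplicit false
set_option linter.all false

namespace Pool.G1.SB

lemma cR00 (a t : ℝ) (a0 : 0 ≤ a) (a1 : a ≤ 1) (t0 : -1 ≤ t) (t1 : t ≤ 1) :
    0 ≤ (1/8) + (1/4) * a + ((-1/24)) * a * t + (1/8) * a ^ 2 + ((-1/12)) * a ^ 2 * t + ((-1/24)) * a ^ 3 * t := by
  obtain ⟨A, hA⟩ : ∃ A, A = a - 0 := ⟨_, rfl⟩
  obtain ⟨B, hB⟩ : ∃ B, B = 1 - a := ⟨_, rfl⟩
  obtain ⟨U, hU⟩ : ∃ U, U = t - (-1) := ⟨_, rfl⟩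
  obtain ⟨W, hW⟩ : ∃ W, W = 1 - t := ⟨_, rfl⟩
  have A0 : 0 ≤ A := by rw [hA]; linarith
  have B0 : 0 ≤ B := by rw [hB]; linarith
  have U0 : 0 ≤ U := by rw [hU]; linarith
  have W0 : 0 ≤ W := by rw [hW]; linarith
  have key : (1/8) + (1/4) * a + ((-1/24)) * a * t + (1/8) * a ^ 2 + ((-1/12)) * a ^ 2 * t + ((-1/24)) * a ^ 3 * t =
      (1/16) * B ^ 3 * W + (1/16) * B ^ 3 * U + (1/3) * A * B ^ 2 * W + (7/24) * A * B ^ 2 * U + (7/12) * A ^ 2 * B * W + (5/12) * A ^ 2 * B * U + (1/3) * A ^ 3 * W + (1/6) * A ^ 3 * U := by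
    rw [hA, hB, hU, hW]; ring
  rw [key]; positivity

lemma cR01 (a t : ℝ) (a0 : 0 ≤ a) (a1 : a ≤ 1) (t0 : -1 ≤ t) (t1 : t ≤ 1) :
    0 ≤ (141/1600) + (1/96) * t + (7/32) * a + ((-1/32)) * a * t + (209/1600) * a ^ 2 + ((-1/12)) * a ^ 2 * t + ((-1/24)) * a ^ 3 * t := by
  obtain ⟨A, hA⟩ : ∃ A, A = a - 0 := ⟨_, rfl⟩
  obtain ⟨B, hB⟩ : ∃ B, B = 1 - a := ⟨_, rfl⟩
  obtain ⟨U, hU⟩ : ∃ U, U = t - (-1) := ⟨_, rfl⟩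
  obtain ⟨W, hW⟩ : ∃ W, W = 1 - t := ⟨_, rfl⟩
  have A0 : 0 ≤ A := by rw [hA]; linarith
  have B0 : 0 ≤ B := by rw [hB]; linarith
  have U0 : 0 ≤ U := by rw [hU]; linarith
  have W0 : 0 ≤ W := by rw [hW]; linarith
  have key : (141/1600) + (1/96) * t + (7/32) * a + ((-1/32)) * a * t + (209/1600) * a ^ 2 + ((-1/12)) * a ^ 2 * t + ((-1/24)) * a ^ 3 * t =
      (373/9600) * B ^ 3 * W + (473/9600) * B ^ 3 * U + (773/3200) * A * B ^ 2 * W + (773/3200) * A * B ^ 2 * U + (2273/4800) * A ^ 2 * B * W + (1723/4800) * A ^ 2 * B * U + (7/24) * A ^ 3 * W + (7/48) * A ^ 3 * U := by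
    rw [hA, hB, hU, hW]; ring
  rw [key]; positivity

lemma cR02 (a t : ℝ) (a0 : 0 ≤ a) (a1 : a ≤ 1) (t0 : -1 ≤ t) (t1 : t ≤ 1) :
    0 ≤ (287/6400) + (947/38400) * t + (1209/6400) * a + ((-953/38400)) * a * t + (109/800) * a ^ 2 + ((-1/12)) * a ^ 2 * t + ((-1/24)) * a ^ 3 * t := by
  obtain ⟨A, hA⟩ : ∃ A, A = a - 0 := ⟨_, rfl⟩
  obtain ⟨B, hB⟩ : ∃ B, B = 1 - a := ⟨_, rfl⟩
  obtain ⟨U, hU⟩ : ∃ U, U = t - (-1) := ⟨_, rfl⟩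
  obtain ⟨W, hW⟩ : ∃ W, W = 1 - t := ⟨_, rfl⟩
  have A0 : 0 ≤ A := by rw [hA]; linarith
  have B0 : 0 ≤ B := by rw [hB]; linarith
  have U0 : 0 ≤ U := by rw [hU]; linarith
  have W0 : 0 ≤ W := by rw [hW]; linarith
  have key : (287/6400) + (947/38400) * t + (1209/6400) * a + ((-953/38400)) * a * t + (109/800) * a ^ 2 + ((-1/12)) * a ^ 2 * t + ((-1/24)) * a ^ 3 * t =
      (31/3072) * B ^ 3 * W + (2669/76800) * B ^ 3 * U + (2633/19200) * A * B ^ 2 * W + (3577/19200) * A * B ^ 2 * U + (9057/25600) * A ^ 2 * B * W + (7547/25600) * A ^ 2 * B * U + (3169/12800) * A ^ 3 * W + (1567/12800) * A ^ 3 * U := by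
    rw [hA, hB, hU, hW]; ring
  rw [key]; positivity

lemma cR10 (a t : ℝ) (a0 : 0 ≤ a) (a1 : a ≤ 1) (t0 : -1 ≤ t) (t1 : t ≤ 1) :
    0 ≤ (7/50) + ((-227/3600)) * t + (1/36) * t ^ 2 + (41/600) * a + ((-1/72)) * a * t + (1/18) * a * t ^ 2 + ((-17/300)) * a ^ 2 + (59/600) * a ^ 2 * t + (1/36) * a ^ 2 * t ^ 2 + (3/200) * a ^ 3 + (1/24) * a ^ 3 * t + ((-3/400)) * a ^ 4 * t := by
  obtain ⟨A, hA⟩ : ∃ A, A = a - 0 := ⟨_, rfl⟩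
  obtain ⟨B, hB⟩ : ∃ B, B = 1 - a := ⟨_, rfl⟩
  obtain ⟨U, hU⟩ : ∃ U, U = t - (-1) := ⟨_, rfl⟩
  obtain ⟨W, hW⟩ : ∃ W, W = 1 - t := ⟨_, rfl⟩
  have A0 : 0 ≤ A := by rw [hA]; linarith
  have B0 : 0 ≤ B := by rw [hB]; linarith
  have U0 : 0 ≤ U := by rw [hU]; linarith
  have W0 : 0 ≤ W := by rw [hW]; linarith
  have key : (7/50) + ((-227/3600)) * t + (1/36) * t ^ 2 + (41/600) * a + ((-1/72)) * a * t + (1/18) * a * t ^ 2 + ((-17/300)) * a ^ 2 + (59/600) * a ^ 2 * t + (1/36) * a ^ 2 * t ^ 2 + (3/200) * a ^ 3 + (1/24) * a ^ 3 * t + ((-3/400)) * a ^ 4 * t =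
      (277/4800) * B ^ 4 * W ^ 2 + (101/1800) * B ^ 4 * U * W + (377/14400) * B ^ 4 * U ^ 2 + (191/720) * A * B ^ 3 * W ^ 2 + (277/1200) * A * B ^ 3 * U * W + (119/900) * A * B ^ 3 * U ^ 2 + (94/225) * A ^ 2 * B ^ 2 * W ^ 2 + (1129/3600) * A ^ 2 * B ^ 2 * U * W + (37/144) * A ^ 2 * B ^ 2 * U ^ 2 + (19/72) * A ^ 3 * B * W ^ 2 + (1/6) * A ^ 3 * B * U * W + (17/72) * A ^ 3 * B * U ^ 2 + (1/18) * A ^ 4 * W ^ 2 + (1/36) * A ^ 4 * U * W + (1/12) * A ^ 4 * U ^ 2 := by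
    rw [hA, hB, hU, hW]; ring
  rw [key]; positivity

lemma cR11 (a t : ℝ) (a0 : 0 ≤ a) (a1 : a ≤ 1) (t0 : -1 ≤ t) (t1 : t ≤ 1) :
    0 ≤ (119/960) + ((-7/100)) * t + (1/32) * t ^ 2 + (89/2400) * a + (5/96) * a * t ^ 2 + ((-49/960)) * a ^ 2 + (59/600) * a ^ 2 * t + (1/48) * a ^ 2 * t ^ 2 + (3/200) * a ^ 3 + (1/24) * a ^ 3 * t + ((-3/400)) * a ^ 4 * t := by
  obtain ⟨A, hA⟩ : ∃ A, A = a - 0 := ⟨_, rfl⟩
  obtain ⟨B, hB⟩ : ∃ B, B = 1 - a := ⟨_, rfl⟩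
  obtain ⟨U, hU⟩ : ∃ U, U = t - (-1) := ⟨_, rfl⟩
  obtain ⟨W, hW⟩ : ∃ W, W = 1 - t := ⟨_, rfl⟩
  have A0 : 0 ≤ A := by rw [hA]; linarith
  have B0 : 0 ≤ B := by rw [hB]; linarith
  have U0 : 0 ≤ U := by rw [hU]; linarith
  have W0 : 0 ≤ W := by rw [hW]; linarith
  have key : (119/960) + ((-7/100)) * t + (1/32) * t ^ 2 + (89/2400) * a + (5/96) * a * t ^ 2 + ((-49/960)) * a ^ 2 + (59/600) * a ^ 2 * t + (1/48) * a ^ 2 * t ^ 2 + (3/200) * a ^ 3 + (1/24) * a ^ 3 * t + ((-3/400)) * a ^ 4 * t =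
      (1081/19200) * B ^ 4 * W ^ 2 + (89/1920) * B ^ 4 * U * W + (409/19200) * B ^ 4 * U ^ 2 + (99/400) * A * B ^ 3 * W ^ 2 + (427/2400) * A * B ^ 3 * U * W + (43/400) * A * B ^ 3 * U ^ 2 + (7153/19200) * A ^ 2 * B ^ 2 * W ^ 2 + (703/3200) * A ^ 2 * B ^ 2 * U * W + (271/1280) * A ^ 2 * B ^ 2 * U ^ 2 + (2123/9600) * A ^ 3 * B * W ^ 2 + (473/4800) * A ^ 3 * B * U * W + (641/3200) * A ^ 3 * B * U ^ 2 + (1/24) * A ^ 4 * W ^ 2 + (1/96) * A ^ 4 * U * W + (7/96) * A ^ 4 * U ^ 2 := by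
    rw [hA, hB, hU, hW]; ring
  rw [key]; positivity

lemma cR12 (a t : ℝ) (a0 : 0 ≤ a) (a1 : a ≤ 1) (t0 : -1 ≤ t) (t1 : t ≤ 1) :
    0 ≤ (1949/19200) + ((-8423/115200)) * t + (5/144) * t ^ 2 + (139/19200) * a + (1141/115200) * a * t + (7/144) * a * t ^ 2 + ((-109/2400)) * a ^ 2 + (59/600) * a ^ 2 * t + (1/72) * a ^ 2 * t ^ 2 + (3/200) * a ^ 3 + (1/24) * a ^ 3 * t + ((-3/400)) * a ^ 4 * t := by
  rcases le_total t (0) with h | h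
  · obtain ⟨A, hA⟩ : ∃ A, A = a - 0 := ⟨_, rfl⟩
    obtain ⟨B, hB⟩ : ∃ B, B = 1 - a := ⟨_, rfl⟩
    obtain ⟨U, hU⟩ : ∃ U, U = t - (-1) := ⟨_, rfl⟩
    obtain ⟨W, hW⟩ : ∃ W, W = 0 - t := ⟨_, rfl⟩
    have A0 : 0 ≤ A := by rw [hA]; linarith
    have B0 : 0 ≤ B := by rw [hB]; linarith
    have U0 : 0 ≤ U := by rw [hU]; linarith
    have W0 : 0 ≤ W := by rw [hW]; linarith
    have key : (1949/19200) + ((-8423/115200)) * t + (5/144) * t ^ 2 + (139/19200) * a + (1141/115200) * a * t + (7/144) * a * t ^ 2 + ((-109/2400)) * a ^ 2 + (59/600) * a ^ 2 * t + (1/72) * a ^ 2 * t ^ 2 + (3/200) * a ^ 3 + (1/24) * a ^ 3 * t + ((-3/400)) * a ^ 4 * t =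
        (8039/38400) * B ^ 4 * W ^ 2 + (31811/115200) * B ^ 4 * U * W + (1949/19200) * B ^ 4 * U ^ 2 + (101761/115200) * A * B ^ 3 * W ^ 2 + (127771/115200) * A * B ^ 3 * U * W + (529/1280) * A * B ^ 3 * U ^ 2 + (145621/115200) * A ^ 2 * B ^ 2 * W ^ 2 + (11377/7680) * A ^ 2 * B ^ 2 * U * W + (11239/19200) * A ^ 2 * B ^ 2 * U ^ 2 + (15871/23040) * A ^ 3 * B * W ^ 2 + (83897/115200) * A ^ 3 * B * U * W + (6757/19200) * A ^ 3 * B * U ^ 2 + (6121/57600) * A ^ 4 * W ^ 2 + (5033/57600) * A ^ 4 * U * W + (47/600) * A ^ 4 * U ^ 2 := by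
      rw [hA, hB, hU, hW]; ring
    rw [key]; positivity
  · obtain ⟨A, hA⟩ : ∃ A, A = a - 0 := ⟨_, rfl⟩
    obtain ⟨B, hB⟩ : ∃ B, B = 1 - a := ⟨_, rfl⟩
    obtain ⟨U, hU⟩ : ∃ U, U = t - 0 := ⟨_, rfl⟩
    obtain ⟨W, hW⟩ : ∃ W, W = 1 - t := ⟨_, rfl⟩
    have A0 : 0 ≤ A := by rw [hA]; linarith
    have B0 : 0 ≤ B := by rw [hB]; linarith
    have U0 : 0 ≤ U := by rw [hU]; linarith
    have W0 : 0 ≤ W := by rw [hW]; linarith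
    have key : (1949/19200) + ((-8423/115200)) * t + (5/144) * t ^ 2 + (139/19200) * a + (1141/115200) * a * t + (7/144) * a * t ^ 2 + ((-109/2400)) * a ^ 2 + (59/600) * a ^ 2 * t + (1/72) * a ^ 2 * t ^ 2 + (3/200) * a ^ 3 + (1/24) * a ^ 3 * t + ((-3/400)) * a ^ 4 * t =
        (1949/19200) * B ^ 4 * W ^ 2 + (2993/23040) * B ^ 4 * U * W + (7271/115200) * B ^ 4 * U ^ 2 + (529/1280) * A * B ^ 3 * W ^ 2 + (62669/115200) * A * B ^ 3 * U * W + (36659/115200) * A * B ^ 3 * U ^ 2 + (11239/19200) * A ^ 2 * B ^ 2 * W ^ 2 + (11009/12800) * A ^ 2 * B ^ 2 * U * W + (74047/115200) * A ^ 2 * B ^ 2 * U ^ 2 + (6757/19200) * A ^ 3 * B * W ^ 2 + (78271/115200) * A ^ 3 * B * U * W + (73729/115200) * A ^ 3 * B * U ^ 2 + (47/600) * A ^ 4 * W ^ 2 + (2603/11520) * A ^ 4 * U * W + (1567/6400) * A ^ 4 * U ^ 2 := by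
      rw [hA, hB, hU, hW]; ring
    rw [key]; positivity

lemma cR20 (a t : ℝ) (a0 : 0 ≤ a) (a1 : a ≤ 1) (t0 : -1 ≤ t) (t1 : t ≤ 1) :
    0 ≤ (79/1800) + (73/1800) * t + (49/450) * a + ((-11/72)) * a * t + (2/9) * a * t ^ 2 + ((-1/18)) * a * t ^ 3 + ((-229/1800)) * a ^ 2 + (17/150) * a ^ 2 * t + (2/9) * a ^ 2 * t ^ 2 + ((-1/9)) * a ^ 2 * t ^ 3 + (3/100) * a ^ 3 + (5/72) * a ^ 3 * t + ((-1/18)) * a ^ 3 * t ^ 3 + ((-3/200)) * a ^ 4 * t := by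
  rcases le_total t (0) with h | h
  · obtain ⟨A, hA⟩ : ∃ A, A = a - 0 := ⟨_, rfl⟩
    obtain ⟨B, hB⟩ : ∃ B, B = 1 - a := ⟨_, rfl⟩
    obtain ⟨U, hU⟩ : ∃ U, U = t - (-1) := ⟨_, rfl⟩
    obtain ⟨W, hW⟩ : ∃ W, W = 0 - t := ⟨_, rfl⟩
    have A0 : 0 ≤ A := by rw [hA]; linarith
    have B0 : 0 ≤ B := by rw [hB]; linarith
    have U0 : 0 ≤ U := by rw [hU]; linarith
    have W0 : 0 ≤ W := by rw [hW]; linarith
    have key : (79/1800) + (73/1800) * t + (49/450) * a + ((-11/72)) * a * t + (2/9) * a * t ^ 2 + ((-1/18)) * a * t ^ 3 + ((-229/1800)) * a ^ 2 + (17/150) * a ^ 2 * t + (2/9) * a ^ 2 * t ^ 2 + ((-1/9)) * a ^ 2 * t ^ 3 + (3/100) * a ^ 3 + (5/72) * a ^ 3 * t + ((-1/18)) * a ^ 3 * t ^ 3 + ((-3/200)) * a ^ 4 * t =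
        (1/300) * B ^ 4 * W ^ 3 + (91/1800) * B ^ 4 * U * W ^ 2 + (41/450) * B ^ 4 * U ^ 2 * W + (79/1800) * B ^ 4 * U ^ 3 + (199/360) * A * B ^ 3 * W ^ 3 + (317/300) * A * B ^ 3 * U * W ^ 2 + (1519/1800) * A * B ^ 3 * U ^ 2 * W + (64/225) * A * B ^ 3 * U ^ 3 + (779/450) * A ^ 2 * B ^ 2 * W ^ 3 + (893/360) * A ^ 2 * B ^ 2 * U * W ^ 2 + (149/100) * A ^ 2 * B ^ 2 * U ^ 2 * W + (833/1800) * A ^ 2 * B ^ 2 * U ^ 3 + (11/6) * A ^ 3 * B * W ^ 3 + (35/18) * A ^ 3 * B * U * W ^ 2 + (5/6) * A ^ 3 * B * U ^ 2 * W + (5/18) * A ^ 3 * B * U ^ 3 + (2/3) * A ^ 4 * W ^ 3 + (1/2) * A ^ 4 * U * W ^ 2 + (1/9) * A ^ 4 * U ^ 2 * W + (1/18) * A ^ 4 * U ^ 3 := by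
      rw [hA, hB, hU, hW]; ring
    rw [key]; positivity
  · obtain ⟨A, hA⟩ : ∃ A, A = a - 0 := ⟨_, rfl⟩
    obtain ⟨B, hB⟩ : ∃ B, B = 1 - a := ⟨_, rfl⟩
    obtain ⟨U, hU⟩ : ∃ U, U = t - 0 := ⟨_, rfl⟩
    obtain ⟨W, hW⟩ : ∃ W, W = 1 - t := ⟨_, rfl⟩
    have A0 : 0 ≤ A := by rw [hA]; linarith
    have B0 : 0 ≤ B := by rw [hB]; linarith
    have U0 : 0 ≤ U := by rw [hU]; linarith
    have W0 : 0 ≤ W := by rw [hW]; linarith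
    have key : (79/1800) + (73/1800) * t + (49/450) * a + ((-11/72)) * a * t + (2/9) * a * t ^ 2 + ((-1/18)) * a * t ^ 3 + ((-229/1800)) * a ^ 2 + (17/150) * a ^ 2 * t + (2/9) * a ^ 2 * t ^ 2 + ((-1/9)) * a ^ 2 * t ^ 3 + (3/100) * a ^ 3 + (5/72) * a ^ 3 * t + ((-1/18)) * a ^ 3 * t ^ 3 + ((-3/200)) * a ^ 4 * t =
        (79/1800) * B ^ 4 * W ^ 3 + (31/180) * B ^ 4 * U * W ^ 2 + (383/1800) * B ^ 4 * U ^ 2 * W + (19/225) * B ^ 4 * U ^ 3 + (64/225) * A * B ^ 3 * W ^ 3 + (1553/1800) * A * B ^ 3 * U * W ^ 2 + (197/180) * A * B ^ 3 * U ^ 2 * W + (829/1800) * A * B ^ 3 * U ^ 3 + (833/1800) * A ^ 2 * B ^ 2 * W ^ 3 + (193/150) * A ^ 2 * B ^ 2 * U * W ^ 2 + (3733/1800) * A ^ 2 * B ^ 2 * U ^ 2 * W + (35/36) * A ^ 2 * B ^ 2 * U ^ 3 + (5/18) * A ^ 3 * B * W ^ 3 + (5/6) * A ^ 3 * B * U * W ^ 2 + (35/18) * A ^ 3 * B * U ^ 2 *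 W + (17/18) * A ^ 3 * B * U ^ 3 + (1/18) * A ^ 4 * W ^ 3 + (2/9) * A ^ 4 * U * W ^ 2 + (13/18) * A ^ 4 * U ^ 2 * W + (1/3) * A ^ 4 * U ^ 3 := by
      rw [hA, hB, hU, hW]; ring
    rw [key]; positivity

lemma cR21 (a t : ℝ) (a0 : 0 ≤ a) (a1 : a ≤ 1) (t0 : -1 ≤ t) (t1 : t ≤ 1) :
    0 ≤ (701/14400) + (13/800) * t + (1/144) * t ^ 2 + (559/7200) * a + ((-13/96)) * a * t + (31/144) * a * t ^ 2 + ((-1/18)) * a * t ^ 3 + ((-1751/14400)) * a ^ 2 + (17/150) * a ^ 2 * t + (5/24) * a ^ 2 * t ^ 2 + ((-1/9)) * a ^ 2 * t ^ 3 + (3/100) * a ^ 3 + (5/72) * a ^ 3 * t + ((-1/18)) * a ^ 3 * t ^ 3 + ((-3/200)) * a ^ 4 * t := by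
  rcases le_total t (0) with h | h
  · obtain ⟨A, hA⟩ : ∃ A, A = a - 0 := ⟨_, rfl⟩
    obtain ⟨B, hB⟩ : ∃ B, B = 1 - a := ⟨_, rfl⟩
    obtain ⟨U, hU⟩ : ∃ U, U = t - (-1) := ⟨_, rfl⟩
    obtain ⟨W, hW⟩ : ∃ W, W = 0 - t := ⟨_, rfl⟩
    have A0 : 0 ≤ A := by rw [hA]; linarith
    have B0 : 0 ≤ B := by rw [hB]; linarith
    have U0 : 0 ≤ U := by rw [hU]; linarith
    have W0 : 0 ≤ W := by rw [hW]; linarith
    have key : (701/14400) + (13/800) * t + (1/144) * t ^ 2 + (559/7200) * a + ((-13/96)) * a * t + (31/144) * a * t ^ 2 + ((-1/18)) * a * t ^ 3 + ((-1751/14400)) * a ^ 2 + (17/150) * a ^ 2 * t + (5/24) * a ^ 2 * t ^ 2 + ((-1/9)) * a ^ 2 * t ^ 3 + (3/100) * a ^ 3 + (5/72) * a ^ 3 * t + ((-1/18)) * a ^ 3 * t ^ 3 + ((-3/200)) * a ^ 4 * t =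
        (63/1600) * B ^ 4 * W ^ 3 + (347/2880) * B ^ 4 * U * W ^ 2 + (623/4800) * B ^ 4 * U ^ 2 * W + (701/14400) * B ^ 4 * U ^ 3 + (2309/3600) * A * B ^ 3 * W ^ 3 + (8647/7200) * A * B ^ 3 * U * W ^ 2 + (71/80) * A * B ^ 3 * U ^ 2 * W + (1961/7200) * A * B ^ 3 * U ^ 3 + (25523/14400) * A ^ 2 * B ^ 2 * W ^ 3 + (799/320) * A ^ 2 * B ^ 2 * U * W ^ 2 + (2249/1600) * A ^ 2 * B ^ 2 * U ^ 2 * W + (5809/14400) * A ^ 2 * B ^ 2 * U ^ 3 + (12919/7200) * A ^ 3 * B * W ^ 3 + (3283/1800) * A ^ 3 * B * U * W ^ 2 + (4957/7200) * A ^ 3 * B * U ^ 2 * W + (193/900) * A ^ 3 * B * U ^ 3 + (23/36) * A ^ 4 * W ^ 3 + (7/16) * A ^ 4 * U * W ^ 2 + (1/18) * A ^ 4 * U ^ 2 * W + (5/144) * A ^ 4 * U ^ 3 := by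
      rw [hA, hB, hU, hW]; ring
    rw [key]; positivity
  · obtain ⟨A, hA⟩ : ∃ A, A = a - 0 := ⟨_, rfl⟩
    obtain ⟨B, hB⟩ : ∃ B, B = 1 - a := ⟨_, rfl⟩
    obtain ⟨U, hU⟩ : ∃ U, U = t - 0 := ⟨_, rfl⟩
    obtain ⟨W, hW⟩ : ∃ W, W = 1 - t := ⟨_, rfl⟩
    have A0 : 0 ≤ A := by rw [hA]; linarith
    have B0 : 0 ≤ B := by rw [hB]; linarith
    have U0 : 0 ≤ U := by rw [hU]; linarith
    have W0 : 0 ≤ W := by rw [hW]; linarith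
    have key : (701/14400) + (13/800) * t + (1/144) * t ^ 2 + (559/7200) * a + ((-13/96)) * a * t + (31/144) * a * t ^ 2 + ((-1/18)) * a * t ^ 3 + ((-1751/14400)) * a ^ 2 + (17/150) * a ^ 2 * t + (5/24) * a ^ 2 * t ^ 2 + ((-1/9)) * a ^ 2 * t ^ 3 + (3/100) * a ^ 3 + (5/72) * a ^ 3 * t + ((-1/18)) * a ^ 3 * t ^ 3 + ((-3/200)) * a ^ 4 * t =
        (701/14400) * B ^ 4 * W ^ 3 + (779/4800) * B ^ 4 * U * W ^ 2 + (2671/14400) * B ^ 4 * U ^ 2 * W + (23/320) * B ^ 4 * U ^ 3 + (1961/7200) * A * B ^ 3 * W ^ 3 + (56/75) * A * B ^ 3 * U * W ^ 2 + (6619/7200) * A * B ^ 3 * U ^ 2 * W + (701/1800) * A * B ^ 3 * U ^ 3 + (5809/14400) * A ^ 2 * B ^ 2 * W ^ 3 + (4871/4800) * A ^ 2 * B ^ 2 * U * W ^ 2 + (8233/4800) * A ^ 2 * B ^ 2 * U ^ 2 * W + (793/960) * A ^ 2 * B ^ 2 * U ^ 3 + (193/900) * A ^ 3 * B * W ^ 3 + (4307/7200) * A ^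 3 * B * U * W ^ 2 + (493/300) * A ^ 3 * B * U ^ 2 * W + (5869/7200) * A ^ 3 * B * U ^ 3 + (5/144) * A ^ 4 * W ^ 3 + (11/72) * A ^ 4 * U * W ^ 2 + (91/144) * A ^ 4 * U ^ 2 * W + (7/24) * A ^ 4 * U ^ 3 := by
      rw [hA, hB, hU, hW]; ring
    rw [key]; positivity

lemma cR22 (a t : ℝ) (a0 : 0 ≤ a) (a1 : a ≤ 1) (t0 : -1 ≤ t) (t1 : t ≤ 1) :
    0 ≤ (2711/57600) + ((-487/115200)) * t + (1/72) * t ^ 2 + (2753/57600) * a + ((-14059/115200)) * a * t + (5/24) * a * t ^ 2 + ((-1/18)) * a * t ^ 3 + ((-167/1440)) * a ^ 2 + (17/150) * a ^ 2 * t + (7/36) * a ^ 2 * t ^ 2 + ((-1/9)) * a ^ 2 * t ^ 3 + (3/100) * a ^ 3 + (5/72) * a ^ 3 * t + ((-1/18)) * a ^ 3 * t ^ 3 + ((-3/200)) * a ^ 4 * t := by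
  rcases le_total t (0) with h | h
  · rcases le_total a (1/2) with h | h
    · obtain ⟨A, hA⟩ : ∃ A, A = a - 0 := ⟨_, rfl⟩
      obtain ⟨B, hB⟩ : ∃ B, B = 1/2 - a := ⟨_, rfl⟩
      obtain ⟨U, hU⟩ : ∃ U, U = t - (-1) := ⟨_, rfl⟩
      obtain ⟨W, hW⟩ : ∃ W, W = 0 - t := ⟨_, rfl⟩
      have A0 : 0 ≤ A := by rw [hA]; linarith
      have B0 : 0 ≤ B := by rw [hB]; linarith
      have U0 : 0 ≤ U := by rw [hU]; linarith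
      have W0 : 0 ≤ W := by rw [hW]; linarith
      have key : (2711/57600) + ((-487/115200)) * t + (1/72) * t ^ 2 + (2753/57600) * a + ((-14059/115200)) * a * t + (5/24) * a * t ^ 2 + ((-1/18)) * a * t ^ 3 + ((-167/1440)) * a ^ 2 + (17/150) * a ^ 2 * t + (7/36) * a ^ 2 * t ^ 2 + ((-1/9)) * a ^ 2 * t ^ 3 + (3/100) * a ^ 3 + (5/72) * a ^ 3 * t + ((-1/18)) * a ^ 3 * t ^ 3 + ((-3/200)) * a ^ 4 * t =
          (2503/2400) * B ^ 4 * W ^ 3 + (157/60) * B ^ 4 * U * W ^ 2 + (16753/7200) * B ^ 4 * U ^ 2 * W + (2711/3600) * B ^ 4 * U ^ 3 + (36679/4800) * A * B ^ 3 * W ^ 3 + (54839/3600) * A * B ^ 3 * U * W ^ 2 + (18289/1600) * A * B ^ 3 * U ^ 2 * W + (8147/2400) * A * B ^ 3 * U ^ 3 + (5431/320) * A ^ 2 * B ^ 2 * W ^ 3 + (102523/3600) * A ^ 2 * B ^ 2 * U * W ^ 2 + (88733/4800) * A ^ 2 * B ^ 2 * U ^ 2 * W + (37451/7200) *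 A ^ 2 * B ^ 2 * U ^ 3 + (43843/2880) * A ^ 3 * B * W ^ 3 + (77857/3600) * A ^ 3 * B * U * W ^ 2 + (57737/4800) * A ^ 3 * B * U ^ 2 * W + (23699/7200) * A ^ 3 * B * U ^ 3 + (14011/2880) * A ^ 4 * W ^ 3 + (20861/3600) * A ^ 4 * U * W ^ 2 + (38323/14400) * A ^ 4 * U ^ 2 * W + (5267/7200) * A ^ 4 * U ^ 3 := by
        rw [hA, hB, hU, hW]; ring
      rw [key]; positivity
    · rcases le_total t ((-1/2)) with h | h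
      · obtain ⟨A, hA⟩ : ∃ A, A = a - 1/2 := ⟨_, rfl⟩
        obtain ⟨B, hB⟩ : ∃ B, B = 1 - a := ⟨_, rfl⟩
        obtain ⟨U, hU⟩ : ∃ U, U = t - (-1) := ⟨_, rfl⟩
        obtain ⟨W, hW⟩ : ∃ W, W = (-1/2) - t := ⟨_, rfl⟩
        have A0 : 0 ≤ A := by rw [hA]; linarith
        have B0 : 0 ≤ B := by rw [hB]; linarith
        have U0 : 0 ≤ U := by rw [hU]; linarith
        have W0 : 0 ≤ W := by rw [hW]; linarith
        have key : (2711/57600) + ((-487/115200)) * t + (1/72) * t ^ 2 + (2753/57600) * a + ((-14059/115200)) * a * t + (5/24) * a * t ^ 2 + ((-1/18)) * a * t ^ 3 + ((-167/1440)) * a ^ 2 + (17/150) * a ^ 2 * t + (7/36) * a ^ 2 * t ^ 2 + ((-1/9)) * a ^ 2 * t ^ 3 + (3/100) * a ^ 3 + (5/72) * a ^ 3 * t + ((-1/18)) * a ^ 3 * t ^ 3 + ((-3/200)) * a ^ 4 * t =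
            (14011/360) * B ^ 4 * W ^ 3 + (293609/3600) * B ^ 4 * U * W ^ 2 + (25961/450) * B ^ 4 * U ^ 2 * W + (5621/400) * B ^ 4 * U ^ 3 + (13649/72) * A * B ^ 3 * W ^ 3 + (153311/400) * A * B ^ 3 * U * W ^ 2 + (116831/450) * A * B ^ 3 * U ^ 2 * W + (216899/3600) * A * B ^ 3 * U ^ 3 + (2713/8) * A ^ 2 * B ^ 2 * W ^ 3 + (475091/720) * A ^ 2 * B ^ 2 * U * W ^ 2 + (38329/90) * A ^ 2 * B ^ 2 * U ^ 2 * W + (67231/720) * A ^ 2 * B ^ 2 * U ^ 3 + (478723/1800) * A ^ 3 * B * W ^ 3 + (198917/400) * A ^ 3 * B * U * W ^ 2 + (137021/450) * A ^ 3 * B * U ^ 2 * W + (74987/1200) * A ^ 3 * B * U ^ 3 + (34921/450) * A ^ 4 * W ^ 3 + (41839/300) * A ^ 4 * U * W ^ 2 + (6059/75) * A ^ 4 * U ^ 2 * W + (1537/100) * A ^ 4 * U ^ 3 := by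
          rw [hA, hB, hU, hW]; ring
        rw [key]; positivity
      · obtain ⟨A, hA⟩ : ∃ A, A = a - 1/2 := ⟨_, rfl⟩
        obtain ⟨B, hB⟩ : ∃ B, B = 1 - a := ⟨_, rfl⟩
        obtain ⟨U, hU⟩ : ∃ U, U = t - (-1/2) := ⟨_, rfl⟩
        obtain ⟨W, hW⟩ : ∃ W, W = 0 - t := ⟨_, rfl⟩
        have A0 : 0 ≤ A := by rw [hA]; linarith
        have B0 : 0 ≤ B := by rw [hB]; linarith
        have U0 : 0 ≤ U := by rw [hU]; linarith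
        have W0 : 0 ≤ W := by rw [hW]; linarith
        have key : (2711/57600) + ((-487/115200)) * t + (1/72) * t ^ 2 + (2753/57600) * a + ((-14059/115200)) * a * t + (5/24) * a * t ^ 2 + ((-1/18)) * a * t ^ 3 + ((-167/1440)) * a ^ 2 + (17/150) * a ^ 2 * t + (7/36) * a ^ 2 * t ^ 2 + ((-1/9)) * a ^ 2 * t ^ 3 + (3/100) * a ^ 3 + (5/72) * a ^ 3 * t + ((-1/18)) * a ^ 3 * t ^ 3 + ((-3/200)) * a ^ 4 * t =
            (5621/400) * B ^ 4 * W ^ 3 + (47923/1800) * B ^ 4 * U * W ^ 2 + (2797/144) * B ^ 4 * U ^ 2 * W + (5267/900) * B ^ 4 * U ^ 3 + (216899/3600) * A * B ^ 3 * W ^ 3 + (183373/1800) * A * B ^ 3 * U * W ^ 2 + (48799/720) * A * B ^ 3 * U ^ 2 * W + (18437/900) * A * B ^ 3 * U ^ 3 + (67231/720) * A ^ 2 * B ^ 2 * W ^ 3 + (48377/360) * A ^ 2 * B ^ 2 * U * W ^ 2 + (3689/48) * A ^ 2 * B ^ 2 * U ^ 2 * W + (4333/180)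 * A ^ 2 * B ^ 2 * U ^ 3 + (74987/1200) * A ^ 3 * B * W ^ 3 + (126799/1800) * A ^ 3 * B * U * W ^ 2 + (105113/3600) * A ^ 3 * B * U ^ 2 * W + (3173/300) * A ^ 3 * B * U ^ 3 + (1537/100) * A ^ 4 * W ^ 3 + (343/30) * A ^ 4 * U * W ^ 2 + (227/300) * A ^ 4 * U ^ 2 * W + (256/225) * A ^ 4 * U ^ 3 := by
          rw [hA, hB, hU, hW]; ring
        rw [key]; positivity
  · obtain ⟨A, hA⟩ : ∃ A, A = a - 0 := ⟨_, rfl⟩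
    obtain ⟨B, hB⟩ : ∃ B, B = 1 - a := ⟨_, rfl⟩
    obtain ⟨U, hU⟩ : ∃ U, U = t - 0 := ⟨_, rfl⟩
    obtain ⟨W, hW⟩ : ∃ W, W = 1 - t := ⟨_, rfl⟩
    have A0 : 0 ≤ A := by rw [hA]; linarith
    have B0 : 0 ≤ B := by rw [hB]; linarith
    have U0 : 0 ≤ U := by rw [hU]; linarith
    have W0 : 0 ≤ W := by rw [hW]; linarith
    have key : (2711/57600) + ((-487/115200)) * t + (1/72) * t ^ 2 + (2753/57600) * a + ((-14059/115200)) * a * t + (5/24) * a * t ^ 2 + ((-1/18)) * a * t ^ 3 + ((-167/1440)) * a ^ 2 + (17/150) * a ^ 2 * t + (7/36) * a ^ 2 * t ^ 2 + ((-1/9)) * a ^ 2 * t ^ 3 + (3/100) * a ^ 3 + (5/72) * a ^ 3 * t + ((-1/18)) * a ^ 3 * t ^ 3 + ((-3/200)) * a ^ 4 * t =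
        (2711/57600) * B ^ 4 * W ^ 3 + (15779/115200) * B ^ 4 * U * W ^ 2 + (4223/28800) * B ^ 4 * U ^ 2 * W + (1307/23040) * B ^ 4 * U ^ 3 + (13597/57600) * A * B ^ 3 * W ^ 3 + (2623/4608) * A * B ^ 3 * U * W ^ 2 + (833/1200) * A * B ^ 3 * U ^ 2 * W + (11729/38400) * A * B ^ 3 * U ^ 3 + (3569/11520) * A ^ 2 * B ^ 2 * W ^ 3 + (25009/38400) * A ^ 2 * B ^ 2 * U * W ^ 2 + (18373/14400) * A ^ 2 * B ^ 2 * U ^ 2 * W + (75647/115200) * A ^ 2 * B ^ 2 * U ^ 3 + (7471/57600) * A ^ 3 * B * W ^ 3 + (34813/115200) * A ^ 3 * B * U * W ^ 2 + (185/144) * A ^ 3 * B * U ^ 2 * W + (25643/38400) * A ^ 3 * B * U ^ 3 + (2/225) * A ^ 4 * W ^ 3 + (1309/19200) * A ^ 4 * U * W ^ 2 + (5053/9600) * A ^ 4 * U ^ 2 * W + (1567/6400) * A ^ 4 * U ^ 3 := by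
      rw [hA, hB, hU, hW]; ring
    rw [key]; positivity

lemma cS00 (a t : ℝ) (a0 : 0 ≤ a) (a1 : a ≤ 1) (t0 : -1 ≤ t) (t1 : t ≤ 1) :
    0 ≤ (1/8) + (1/4) * a + ((-1/24)) * a * t + (1/8) * a ^ 2 + ((-1/12)) * a ^ 2 * t + ((-1/24)) * a ^ 3 * t := by
  obtain ⟨A, hA⟩ : ∃ A, A = a - 0 := ⟨_, rfl⟩
  obtain ⟨B, hB⟩ : ∃ B, B = 1 - a := ⟨_, rfl⟩
  obtain ⟨U, hU⟩ : ∃ U, U = t - (-1) := ⟨_, rfl⟩
  obtain ⟨W, hW⟩ : ∃ W, W = 1 - t := ⟨_, rfl⟩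
  have A0 : 0 ≤ A := by rw [hA]; linarith
  have B0 : 0 ≤ B := by rw [hB]; linarith
  have U0 : 0 ≤ U := by rw [hU]; linarith
  have W0 : 0 ≤ W := by rw [hW]; linarith
  have key : (1/8) + (1/4) * a + ((-1/24)) * a * t + (1/8) * a ^ 2 + ((-1/12)) * a ^ 2 * t + ((-1/24)) * a ^ 3 * t =
      (1/16) * B ^ 3 * W + (1/16) * B ^ 3 * U + (1/3) * A * B ^ 2 * W + (7/24) * A * B ^ 2 * U + (7/12) * A ^ 2 * B * W + (5/12) * A ^ 2 * B * U + (1/3) * A ^ 3 * W + (1/6) * A ^ 3 * U := by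
    rw [hA, hB, hU, hW]; ring
  rw [key]; positivity

lemma cS01 (a t : ℝ) (a0 : 0 ≤ a) (a1 : a ≤ 1) (t0 : -1 ≤ t) (t1 : t ≤ 1) :
    0 ≤ (141/1600) + (1/96) * t + (341/1600) * a + ((-1/32)) * a * t + (1/8) * a ^ 2 + ((-1/12)) * a ^ 2 * t + ((-1/24)) * a ^ 3 * t := by
  obtain ⟨A, hA⟩ : ∃ A, A = a - 0 := ⟨_, rfl⟩
  obtain ⟨B, hB⟩ : ∃ B, B = 1 - a := ⟨_, rfl⟩
  obtain ⟨U, hU⟩ : ∃ U, U = t - (-1) := ⟨_, rfl⟩
  obtain ⟨W, hW⟩ : ∃ W, W = 1 - t := ⟨_, rfl⟩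
  have A0 : 0 ≤ A := by rw [hA]; linarith
  have B0 : 0 ≤ B := by rw [hB]; linarith
  have U0 : 0 ≤ U := by rw [hU]; linarith
  have W0 : 0 ≤ W := by rw [hW]; linarith
  have key : (141/1600) + (1/96) * t + (341/1600) * a + ((-1/32)) * a * t + (1/8) * a ^ 2 + ((-1/12)) * a ^ 2 * t + ((-1/24)) * a ^ 3 * t =
      (373/9600) * B ^ 3 * W + (473/9600) * B ^ 3 * U + (191/800) * A * B ^ 2 * W + (191/800) * A * B ^ 2 * U + (893/1920) * A ^ 2 * B * W + (673/1920) * A ^ 2 * B * U + (1373/4800) * A ^ 3 * W + (673/4800) * A ^ 3 * U := by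
    rw [hA, hB, hU, hW]; ring
  rw [key]; positivity

lemma cS02 (a t : ℝ) (a0 : 0 ≤ a) (a1 : a ≤ 1) (t0 : -1 ≤ t) (t1 : t ≤ 1) :
    0 ≤ (9/200) + (7/256) * t + (1739/12800) * a + ((-3/64)) * a * t + ((-639/12800)) * a ^ 2 + ((-1499/25600)) * a ^ 2 * t + ((-1603/12800)) * a ^ 3 + (3209/76800) * a ^ 3 * t + ((-1/12800)) * a ^ 4 + (3209/76800) * a ^ 4 * t + (1/25600) * a ^ 5 * t := by
  obtain ⟨A, hA⟩ : ∃ A, A = a - 0 := ⟨_, rfl⟩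
  obtain ⟨B, hB⟩ : ∃ B, B = 1 - a := ⟨_, rfl⟩
  obtain ⟨U, hU⟩ : ∃ U, U = t - (-1) := ⟨_, rfl⟩
  obtain ⟨W, hW⟩ : ∃ W, W = 1 - t := ⟨_, rfl⟩
  have A0 : 0 ≤ A := by rw [hA]; linarith
  have B0 : 0 ≤ B := by rw [hB]; linarith
  have U0 : 0 ≤ U := by rw [hU]; linarith
  have W0 : 0 ≤ W := by rw [hW]; linarith
  have key : (9/200) + (7/256) * t + (1739/12800) * a + ((-3/64)) * a * t + ((-639/12800)) * a ^ 2 + ((-1499/25600)) * a ^ 2 * t + ((-1603/12800)) * a ^ 3 + (3209/76800) * a ^ 3 * t + ((-1/12800)) * a ^ 4 + (3209/76800) * a ^ 4 * t + (1/25600) * a ^ 5 * t =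
      (113/12800) * B ^ 5 * W + (463/12800) * B ^ 5 * U + (3469/25600) * A * B ^ 4 * W + (5769/25600) * A * B ^ 4 * U + (23453/51200) * A ^ 2 * B ^ 3 * W + (4971/10240) * A ^ 2 * B ^ 3 * U + (43463/76800) * A ^ 3 * B ^ 2 * W + (32581/76800) * A ^ 3 * B ^ 2 * U + (3003/12800) * A ^ 4 * B * W + (1709/12800) * A ^ 4 * B * U + (1/19200) * A ^ 5 * W + (107/19200) * A ^ 5 * U := by
    rw [hA, hB, hU, hW]; ring
  rw [key]; positivity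

lemma cS10 (a t : ℝ) (a0 : 0 ≤ a) (a1 : a ≤ 1) (t0 : -1 ≤ t) (t1 : t ≤ 1) :
    0 ≤ (7/50) + ((-227/3600)) * t + (1/36) * t ^ 2 + (1/12) * a + ((-77/3600)) * a * t + (1/18) * a * t ^ 2 + ((-17/300)) * a ^ 2 + (109/1200) * a ^ 2 * t + (1/36) * a ^ 2 * t ^ 2 + (59/1200) * a ^ 3 * t := by
  obtain ⟨A, hA⟩ : ∃ A, A = a - 0 := ⟨_, rfl⟩
  obtain ⟨B, hB⟩ : ∃ B, B = 1 - a := ⟨_, rfl⟩
  obtain ⟨U, hU⟩ : ∃ U, U = t - (-1) := ⟨_, rfl⟩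
  obtain ⟨W, hW⟩ : ∃ W, W = 1 - t := ⟨_, rfl⟩
  have A0 : 0 ≤ A := by rw [hA]; linarith
  have B0 : 0 ≤ B := by rw [hB]; linarith
  have U0 : 0 ≤ U := by rw [hU]; linarith
  have W0 : 0 ≤ W := by rw [hW]; linarith
  have key : (7/50) + ((-227/3600)) * t + (1/36) * t ^ 2 + (1/12) * a + ((-77/3600)) * a * t + (1/18) * a * t ^ 2 + ((-17/300)) * a ^ 2 + (109/1200) * a ^ 2 * t + (1/36) * a ^ 2 * t ^ 2 + (59/1200) * a ^ 3 * t =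
      (277/4800) * B ^ 3 * W ^ 2 + (101/1800) * B ^ 3 * U * W + (377/14400) * B ^ 3 * U ^ 2 + (307/1440) * A * B ^ 2 * W ^ 2 + (41/225) * A * B ^ 2 * U * W + (259/2400) * A * B ^ 2 * U ^ 2 + (67/300) * A ^ 2 * B * W ^ 2 + (277/1800) * A ^ 2 * B * U * W + (11/72) * A ^ 2 * B * U ^ 2 + (1/18) * A ^ 3 * W ^ 2 + (1/36) * A ^ 3 * U * W + (1/12) * A ^ 3 * U ^ 2 := by
    rw [hA, hB, hU, hW]; ring
  rw [key]; positivity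

lemma cS11 (a t : ℝ) (a0 : 0 ≤ a) (a1 : a ≤ 1) (t0 : -1 ≤ t) (t1 : t ≤ 1) :
    0 ≤ (39/320) + ((-331/4800)) * t + (1/32) * t ^ 2 + (203/4800) * a + ((-7/1600)) * a * t + (5/96) * a * t ^ 2 + ((-47/800)) * a ^ 2 + (451/4800) * a ^ 2 * t + (1/48) * a ^ 2 * t ^ 2 + (241/4800) * a ^ 3 * t := by
  obtain ⟨A, hA⟩ : ∃ A, A = a - 0 := ⟨_, rfl⟩
  obtain ⟨B, hB⟩ : ∃ B, B = 1 - a := ⟨_, rfl⟩
  obtain ⟨U, hU⟩ : ∃ U, U = t - (-1) := ⟨_, rfl⟩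
  obtain ⟨W, hW⟩ : ∃ W, W = 1 - t := ⟨_, rfl⟩
  have A0 : 0 ≤ A := by rw [hA]; linarith
  have B0 : 0 ≤ B := by rw [hB]; linarith
  have U0 : 0 ≤ U := by rw [hU]; linarith
  have W0 : 0 ≤ W := by rw [hW]; linarith
  have key : (39/320) + ((-331/4800)) * t + (1/32) * t ^ 2 + (203/4800) * a + ((-7/1600)) * a * t + (5/96) * a * t ^ 2 + ((-47/800)) * a ^ 2 + (451/4800) * a ^ 2 * t + (1/48) * a ^ 2 * t ^ 2 + (241/4800) * a ^ 3 * t =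
      (533/9600) * B ^ 3 * W ^ 2 + (29/640) * B ^ 3 * U * W + (101/4800) * B ^ 3 * U ^ 2 + (153/800) * A * B ^ 2 * W ^ 2 + (629/4800) * A * B ^ 2 * U * W + (137/1600) * A * B ^ 2 * U ^ 2 + (1171/6400) * A ^ 2 * B * W ^ 2 + (829/9600) * A ^ 2 * B * U * W + (469/3840) * A ^ 2 * B * U ^ 2 + (111/3200) * A ^ 3 * W ^ 2 + (1/1600) * A ^ 3 * U * W + (673/9600) * A ^ 3 * U ^ 2 := by
    rw [hA, hB, hU, hW]; ring
  rw [key]; positivity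

lemma cS12 (a t : ℝ) (a0 : 0 ≤ a) (a1 : a ≤ 1) (t0 : -1 ≤ t) (t1 : t ≤ 1) :
    0 ≤ (39/400) + ((-3937/57600)) * t + (5/144) * t ^ 2 + ((-1173/12800)) * a + (79/960) * a * t + (1/72) * a * t ^ 2 + ((-2333/38400)) * a ^ 2 + (4073/46080) * a ^ 2 * t + ((-5/144)) * a ^ 2 * t ^ 2 + (2327/38400) * a ^ 3 + ((-3511/76800)) * a ^ 3 * t + ((-1/72)) * a ^ 3 * t ^ 2 + ((-1/12800)) * a ^ 4 + ((-1309/25600)) * a ^ 4 * t + (1/25600) * a ^ 5 * t := by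
  rcases le_total t (0) with h | h
  · obtain ⟨A, hA⟩ : ∃ A, A = a - 0 := ⟨_, rfl⟩
    obtain ⟨B, hB⟩ : ∃ B, B = 1 - a := ⟨_, rfl⟩
    obtain ⟨U, hU⟩ : ∃ U, U = t - (-1) := ⟨_, rfl⟩
    obtain ⟨W, hW⟩ : ∃ W, W = 0 - t := ⟨_, rfl⟩
    have A0 : 0 ≤ A := by rw [hA]; linarith
    have B0 : 0 ≤ B := by rw [hB]; linarith
    have U0 : 0 ≤ U := by rw [hU]; linarith
    have W0 : 0 ≤ W := by rw [hW]; linarith
    have key : (39/400) + ((-3937/57600)) * t + (5/144) * t ^ 2 + ((-1173/12800)) * a + (79/960) * a * t + (1/72) * a * t ^ 2 + ((-2333/38400)) * a ^ 2 + (4073/46080) * a ^ 2 * t + ((-5/144)) * a ^ 2 * t ^ 2 + (2327/38400) * a ^ 3 + ((-3511/76800)) * a ^ 3 * t + ((-1/72)) * a ^ 3 * t ^ 2 + ((-1/12800)) * a ^ 4 + ((-1309/25600)) * a ^ 4 * t + (1/25600) * a ^ 5 * t =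
        (3851/19200) * B ^ 5 * W ^ 2 + (15169/57600) * B ^ 5 * U * W + (39/400) * B ^ 5 * U ^ 2 + (97093/115200) * A * B ^ 4 * W ^ 2 + (15137/14400) * A * B ^ 4 * U * W + (5067/12800) * A * B ^ 4 * U ^ 2 + (272261/230400) * A ^ 2 * B ^ 3 * W ^ 2 + (104549/76800) * A ^ 2 * B ^ 3 * U * W + (21031/38400) * A ^ 2 * B ^ 3 * U ^ 2 + (67541/115200) * A ^ 3 * B ^ 2 * W ^ 2 + (66503/115200) * A ^ 3 * B ^ 2 * U * W + (5827/19200) * A ^ 3 * B ^ 2 * U ^ 2 + (2707/57600) * A ^ 4 * B * W ^ 2 + (551/57600) * A ^ 4 * B * U * W + (287/4800) * A ^ 4 * B * U ^ 2 + (1/9600) * A ^ 5 * W ^ 2 + (11/1920) * A ^ 5 * U * W + (9/1600) * A ^ 5 * U ^ 2 := by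
      rw [hA, hB, hU, hW]; ring
    rw [key]; positivity
  · obtain ⟨A, hA⟩ : ∃ A, A = a - 0 := ⟨_, rfl⟩
    obtain ⟨B, hB⟩ : ∃ B, B = 1 - a := ⟨_, rfl⟩
    obtain ⟨U, hU⟩ : ∃ U, U = t - 0 := ⟨_, rfl⟩
    obtain ⟨W, hW⟩ : ∃ W, W = 1 - t := ⟨_, rfl⟩
    have A0 : 0 ≤ A := by rw [hA]; linarith
    have B0 : 0 ≤ B := by rw [hB]; linarith
    have U0 : 0 ≤ U := by rw [hU]; linarith
    have W0 : 0 ≤ W := by rw [hW]; linarith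
    have key : (39/400) + ((-3937/57600)) * t + (5/144) * t ^ 2 + ((-1173/12800)) * a + (79/960) * a * t + (1/72) * a * t ^ 2 + ((-2333/38400)) * a ^ 2 + (4073/46080) * a ^ 2 * t + ((-5/144)) * a ^ 2 * t ^ 2 + (2327/38400) * a ^ 3 + ((-3511/76800)) * a ^ 3 * t + ((-1/72)) * a ^ 3 * t ^ 2 + ((-1/12800)) * a ^ 4 + ((-1309/25600)) * a ^ 4 * t + (1/25600) * a ^ 5 * t =
        (39/400) * B ^ 5 * W ^ 2 + (1459/11520) * B ^ 5 * U * W + (3679/57600) * B ^ 5 * U ^ 2 + (5067/12800) * A * B ^ 4 * W ^ 2 + (15329/28800) * A * B ^ 4 * U * W + (37313/115200) * A * B ^ 4 * U ^ 2 + (21031/38400) * A ^ 2 * B ^ 3 * W ^ 2 + (21233/25600) * A ^ 2 * B ^ 3 * U * W + (149711/230400) * A ^ 2 * B ^ 3 * U ^ 2 + (5827/19200) * A ^ 3 * B ^ 2 * W ^ 2 + (14669/23040) * A ^ 3 * B ^ 2 * U * W + (74383/115200) * A ^ 3 * B ^ 2 * U ^ 2 + (287/4800)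 * A ^ 4 * B * W ^ 2 + (529/2304) * A ^ 4 * B * U * W + (1709/6400) * A ^ 4 * B * U ^ 2 + (9/1600) * A ^ 5 * W ^ 2 + (161/9600) * A ^ 5 * U * W + (107/9600) * A ^ 5 * U ^ 2 := by
      rw [hA, hB, hU, hW]; ring
    rw [key]; positivity

lemma cS20 (a t : ℝ) (a0 : 0 ≤ a) (a1 : a ≤ 1) (t0 : -1 ≤ t) (t1 : t ≤ 1) :
    0 ≤ (79/1800) + (73/1800) * t + (5/36) * a + ((-151/900)) * a * t + (2/9) * a * t ^ 2 + ((-1/18)) * a * t ^ 3 + ((-229/1800)) * a ^ 2 + (59/600) * a ^ 2 * t + (2/9) * a ^ 2 * t ^ 2 + ((-1/9)) * a ^ 2 * t ^ 3 + (19/225) * a ^ 3 * t + ((-1/18)) * a ^ 3 * t ^ 3 := by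
  rcases le_total t (0) with h | h
  · obtain ⟨A, hA⟩ : ∃ A, A = a - 0 := ⟨_, rfl⟩
    obtain ⟨B, hB⟩ : ∃ B, B = 1 - a := ⟨_, rfl⟩
    obtain ⟨U, hU⟩ : ∃ U, U = t - (-1) := ⟨_, rfl⟩
    obtain ⟨W, hW⟩ : ∃ W, W = 0 - t := ⟨_, rfl⟩
    have A0 : 0 ≤ A := by rw [hA]; linarith
    have B0 : 0 ≤ B := by rw [hB]; linarith
    have U0 : 0 ≤ U := by rw [hU]; linarith
    have W0 : 0 ≤ W := by rw [hW]; linarith
    have key : (79/1800) + (73/1800) * t + (5/36) * a + ((-151/900)) * a * t + (2/9) * a * t ^ 2 + ((-1/18)) * a * t ^ 3 + ((-229/1800)) * a ^ 2 + (59/600) * a ^ 2 * t + (2/9) * a ^ 2 * t ^ 2 + ((-1/9)) * a ^ 2 * t ^ 3 + (19/225) * a ^ 3 * t + ((-1/18)) * a ^ 3 * t ^ 3 =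
        (1/300) * B ^ 3 * W ^ 3 + (91/1800) * B ^ 3 * U * W ^ 2 + (41/450) * B ^ 3 * U ^ 2 * W + (79/1800) * B ^ 3 * U ^ 3 + (107/180) * A * B ^ 2 * W ^ 3 + (2027/1800) * A * B ^ 2 * U * W ^ 2 + (193/225) * A * B ^ 2 * U ^ 2 * W + (487/1800) * A * B ^ 2 * U ^ 3 + (193/150) * A ^ 2 * B * W ^ 3 + (157/90) * A ^ 2 * B * U * W ^ 2 + (433/450) * A ^ 2 * B * U ^ 2 * W + (127/450) * A ^ 2 * B * U ^ 3 + (2/3) * A ^ 3 * W ^ 3 + (1/2) * A ^ 3 * U * W ^ 2 + (1/9) * A ^ 3 * U ^ 2 * W + (1/18) * A ^ 3 * U ^ 3 := by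
      rw [hA, hB, hU, hW]; ring
    rw [key]; positivity
  · obtain ⟨A, hA⟩ : ∃ A, A = a - 0 := ⟨_, rfl⟩
    obtain ⟨B, hB⟩ : ∃ B, B = 1 - a := ⟨_, rfl⟩
    obtain ⟨U, hU⟩ : ∃ U, U = t - 0 := ⟨_, rfl⟩
    obtain ⟨W, hW⟩ : ∃ W, W = 1 - t := ⟨_, rfl⟩
    have A0 : 0 ≤ A := by rw [hA]; linarith
    have B0 : 0 ≤ B := by rw [hB]; linarith
    have U0 : 0 ≤ U := by rw [hU]; linarith
    have W0 : 0 ≤ W := by rw [hW]; linarith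
    have key : (79/1800) + (73/1800) * t + (5/36) * a + ((-151/900)) * a * t + (2/9) * a * t ^ 2 + ((-1/18)) * a * t ^ 3 + ((-229/1800)) * a ^ 2 + (59/600) * a ^ 2 * t + (2/9) * a ^ 2 * t ^ 2 + ((-1/9)) * a ^ 2 * t ^ 3 + (19/225) * a ^ 3 * t + ((-1/18)) * a ^ 3 * t ^ 3 =
        (79/1800) * B ^ 3 * W ^ 3 + (31/180) * B ^ 3 * U * W ^ 2 + (383/1800) * B ^ 3 * U ^ 2 * W + (19/225) * B ^ 3 * U ^ 3 + (487/1800) * A * B ^ 2 * W ^ 3 + (689/900) * A * B ^ 2 * U * W ^ 2 + (113/120) * A * B ^ 2 * U ^ 2 * W + (88/225) * A * B ^ 2 * U ^ 3 + (127/450) * A ^ 2 * B * W ^ 3 + (329/450) * A ^ 2 * B * U * W ^ 2 + (577/450) * A ^ 2 * B * U ^ 2 * W + (11/18) * A ^ 2 * B * U ^ 3 + (1/18) * A ^ 3 * W ^ 3 + (2/9) * A ^ 3 * U * W ^ 2 + (13/18) * A ^ 3 * U ^ 2 * W + (1/3) * A ^ 3 * U ^ 3 := by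
      rw [hA, hB, hU, hW]; ring
    rw [key]; positivity

lemma cS21 (a t : ℝ) (a0 : 0 ≤ a) (a1 : a ≤ 1) (t0 : -1 ≤ t) (t1 : t ≤ 1) :
    0 ≤ (641/14400) + (11/600) * t + (1/144) * t ^ 2 + (1349/14400) * a + ((-173/1200)) * a * t + (31/144) * a * t ^ 2 + ((-1/18)) * a * t ^ 3 + ((-473/3600)) * a ^ 2 + (251/2400) * a ^ 2 * t + (5/24) * a ^ 2 * t ^ 2 + ((-1/9)) * a ^ 2 * t ^ 3 + (623/7200) * a ^ 3 * t + ((-1/18)) * a ^ 3 * t ^ 3 := by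
  rcases le_total t (0) with h | h
  · rcases le_total a (1/2) with h | h
    · obtain ⟨A, hA⟩ : ∃ A, A = a - 0 := ⟨_, rfl⟩
      obtain ⟨B, hB⟩ : ∃ B, B = 1/2 - a := ⟨_, rfl⟩
      obtain ⟨U, hU⟩ : ∃ U, U = t - (-1) := ⟨_, rfl⟩
      obtain ⟨W, hW⟩ : ∃ W, W = 0 - t := ⟨_, rfl⟩
      have A0 : 0 ≤ A := by rw [hA]; linarith
      have B0 : 0 ≤ B := by rw [hB]; linarith
      have U0 : 0 ≤ U := by rw [hU]; linarith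
      have W0 : 0 ≤ W := by rw [hW]; linarith
      have key : (641/14400) + (11/600) * t + (1/144) * t ^ 2 + (1349/14400) * a + ((-173/1200)) * a * t + (31/144) * a * t ^ 2 + ((-1/18)) * a * t ^ 3 + ((-473/3600)) * a ^ 2 + (251/2400) * a ^ 2 * t + (5/24) * a ^ 2 * t ^ 2 + ((-1/9)) * a ^ 2 * t ^ 3 + (623/7200) * a ^ 3 * t + ((-1/18)) * a ^ 3 * t ^ 3 =
          (53/200) * B ^ 3 * W ^ 3 + (299/360) * B ^ 3 * U * W ^ 2 + (553/600) * B ^ 3 * U ^ 2 * W + (641/1800) * B ^ 3 * U ^ 3 + (10187/3600) * A * B ^ 2 * W ^ 3 + (20269/3600) * A * B ^ 2 * U * W ^ 2 + (5359/1200) * A * B ^ 2 * U ^ 2 * W + (1039/720) * A * B ^ 2 * U ^ 3 + (18113/3600) * A ^ 2 * B * W ^ 3 + (7181/900) * A ^ 2 * B * U * W ^ 2 + (6203/1200) * A ^ 2 * B * U ^ 2 * W + (311/200) * A ^ 2 * B * U ^ 3 + (17537/7200) * A ^ 3 * W ^ 3 + (5411/1800) * A ^ 3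 * U * W ^ 2 + (11077/7200) * A ^ 3 * U ^ 2 * W + (337/720) * A ^ 3 * U ^ 3 := by
        rw [hA, hB, hU, hW]; ring
      rw [key]; positivity
    · rcases le_total t ((-1/2)) with h | h
      · obtain ⟨A, hA⟩ : ∃ A, A = a - 1/2 := ⟨_, rfl⟩
        obtain ⟨B, hB⟩ : ∃ B, B = 1 - a := ⟨_, rfl⟩
        obtain ⟨U, hU⟩ : ∃ U, U = t - (-1) := ⟨_, rfl⟩
        obtain ⟨W, hW⟩ : ∃ W, W = (-1/2) - t := ⟨_, rfl⟩
        have A0 : 0 ≤ A := by rw [hA]; linarith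
        have B0 : 0 ≤ B := by rw [hB]; linarith
        have U0 : 0 ≤ U := by rw [hU]; linarith
        have W0 : 0 ≤ W := by rw [hW]; linarith
        have key : (641/14400) + (11/600) * t + (1/144) * t ^ 2 + (1349/14400) * a + ((-173/1200)) * a * t + (31/144) * a * t ^ 2 + ((-1/18)) * a * t ^ 3 + ((-473/3600)) * a ^ 2 + (251/2400) * a ^ 2 * t + (5/24) * a ^ 2 * t ^ 2 + ((-1/9)) * a ^ 2 * t ^ 3 + (623/7200) * a ^ 3 * t + ((-1/18)) * a ^ 3 * t ^ 3 =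
            (17537/900) * B ^ 3 * W ^ 3 + (14851/360) * B ^ 3 * U * W ^ 2 + (6686/225) * B ^ 3 * U ^ 2 * W + (4469/600) * B ^ 3 * U ^ 3 + (17249/225) * A * B ^ 2 * W ^ 3 + (69851/450) * A * B ^ 2 * U * W ^ 2 + (47633/450) * A * B ^ 2 * U ^ 2 * W + (1123/45) * A * B ^ 2 * U ^ 3 + (4773/50) * A ^ 2 * B * W ^ 3 + (41027/225) * A ^ 2 * B * U * W ^ 2 + (25931/225) * A ^ 2 * B * U ^ 2 * W + (2233/90) * A ^ 2 * B * U ^ 3 + (8558/225) * A ^ 3 * W ^ 3 + (5048/75) * A ^ 3 * U * W ^ 2 + (8564/225) * A ^ 3 * U ^ 2 * W + (526/75) * A ^ 3 * U ^ 3 := by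
          rw [hA, hB, hU, hW]; ring
        rw [key]; positivity
      · rcases le_total a (3/4) with h | h
        · obtain ⟨A, hA⟩ : ∃ A, A = a - 1/2 := ⟨_, rfl⟩
          obtain ⟨B, hB⟩ : ∃ B, B = 3/4 - a := ⟨_, rfl⟩
          obtain ⟨U, hU⟩ : ∃ U, U = t - (-1/2) := ⟨_, rfl⟩
          obtain ⟨W, hW⟩ : ∃ W, W = 0 - t := ⟨_, rfl⟩
          have A0 : 0 ≤ A := by rw [hA]; linarith
          have B0 : 0 ≤ B := by rw [hB]; linarith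
          have U0 : 0 ≤ U := by rw [hU]; linarith
          have W0 : 0 ≤ W := by rw [hW]; linarith
          have key : (641/14400) + (11/600) * t + (1/144) * t ^ 2 + (1349/14400) * a + ((-173/1200)) * a * t + (31/144) * a * t ^ 2 + ((-1/18)) * a * t ^ 3 + ((-473/3600)) * a ^ 2 + (251/2400) * a ^ 2 * t + (5/24) * a ^ 2 * t ^ 2 + ((-1/9)) * a ^ 2 * t ^ 3 + (623/7200) * a ^ 3 * t + ((-1/18)) * a ^ 3 * t ^ 3 =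
              (4469/75) * B ^ 3 * W ^ 3 + (26954/225) * B ^ 3 * U * W ^ 2 + (21187/225) * B ^ 3 * U ^ 2 * W + (1348/45) * B ^ 3 * U ^ 3 + (85141/450) * A * B ^ 2 * W ^ 3 + (3197/9) * A * B ^ 2 * U * W ^ 2 + (39959/150) * A * B ^ 2 * U ^ 2 * W + (2126/25) * A * B ^ 2 * U ^ 3 + (174721/900) * A ^ 2 * B * W ^ 3 + (5987/18) * A ^ 2 * B * U * W ^ 2 + (23393/100) * A ^ 2 * B * U ^ 2 * W + (17102/225) * A ^ 2 * B * U ^ 3 + (38537/600) * A ^ 3 * W ^ 3 + (86843/900) * A ^ 3 * U * W ^ 2 + (12271/200) * A ^ 3 * U ^ 2 * W + (4708/225) * A ^ 3 * U ^ 3 := by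
            rw [hA, hB, hU, hW]; ring
          rw [key]; positivity
        · rcases le_total t ((-1/4)) with h | h
          · obtain ⟨A, hA⟩ : ∃ A, A = a - 3/4 := ⟨_, rfl⟩
            obtain ⟨B, hB⟩ : ∃ B, B = 1 - a := ⟨_, rfl⟩
            obtain ⟨U, hU⟩ : ∃ U, U = t - (-1/2) := ⟨_, rfl⟩
            obtain ⟨W, hW⟩ : ∃ W, W = (-1/4) - t := ⟨_, rfl⟩
            have A0 : 0 ≤ A := by rw [hA]; linarith
            have B0 : 0 ≤ B := by rw [hB]; linarith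
            have U0 : 0 ≤ U := by rw [hU]; linarith
            have W0 : 0 ≤ W := by rw [hW]; linarith
            have key : (641/14400) + (11/600) * t + (1/144) * t ^ 2 + (1349/14400) * a + ((-173/1200)) * a * t + (31/144) * a * t ^ 2 + ((-1/18)) * a * t ^ 3 + ((-473/3600)) * a ^ 2 + (251/2400) * a ^ 2 * t + (5/24) * a ^ 2 * t ^ 2 + ((-1/9)) * a ^ 2 * t ^ 3 + (623/7200) * a ^ 3 * t + ((-1/18)) * a ^ 3 * t ^ 3 =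
                (38537/75) * B ^ 3 * W ^ 3 + (520519/450) * B ^ 3 * U * W ^ 2 + (201161/225) * B ^ 3 * U ^ 2 * W + 243 * B ^ 3 * U ^ 3 + (344224/225) * A * B ^ 2 * W ^ 3 + (738044/225) * A * B ^ 2 * U * W ^ 2 + (540266/225) * A * B ^ 2 * U ^ 2 * W + (139796/225) * A * B ^ 2 * U ^ 3 + (330128/225) * A ^ 2 * B * W ^ 3 + (659608/225) * A ^ 2 * B * U * W ^ 2 + (442132/225) * A ^ 2 * B * U ^ 2 * W + (11628/25) * A ^ 2 * B * U ^ 3 + (33664/75) * A ^ 3 * W ^ 3 + (180416/225) * A ^ 3 * U * W ^ 2 + (33952/75) * A ^ 3 * U ^ 2 * W + (19232/225) * A ^ 3 * U ^ 3 := by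
              rw [hA, hB, hU, hW]; ring
            rw [key]; positivity
          · obtain ⟨A, hA⟩ : ∃ A, A = a - 3/4 := ⟨_, rfl⟩
            obtain ⟨B, hB⟩ : ∃ B, B = 1 - a := ⟨_, rfl⟩
            obtain ⟨U, hU⟩ : ∃ U, U = t - (-1/4) := ⟨_, rfl⟩
            obtain ⟨W, hW⟩ : ∃ W, W = 0 - t := ⟨_, rfl⟩
            have A0 : 0 ≤ A := by rw [hA]; linarith
            have B0 : 0 ≤ B := by rw [hB]; linarith
            have U0 : 0 ≤ U := by rw [hU]; linarith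
            have W0 : 0 ≤ W := by rw [hW]; linarith
            have key : (641/14400) + (11/600) * t + (1/144) * t ^ 2 + (1349/14400) * a + ((-173/1200)) * a * t + (31/144) * a * t ^ 2 + ((-1/18)) * a * t ^ 3 + ((-473/3600)) * a ^ 2 + (251/2400) * a ^ 2 * t + (5/24) * a ^ 2 * t ^ 2 + ((-1/9)) * a ^ 2 * t ^ 3 + (623/7200) * a ^ 3 * t + ((-1/18)) * a ^ 3 * t ^ 3 =
                243 * B ^ 3 * W ^ 3 + (126889/225) * B ^ 3 * U * W ^ 2 + (74477/150) * B ^ 3 * U ^ 2 * W + (37664/225) * B ^ 3 * U ^ 3 + (139796/225) * A * B ^ 2 * W ^ 3 + (59702/45) * A * B ^ 2 * U * W ^ 2 + (84844/75) * A * B ^ 2 * U ^ 2 * W + (89168/225) * A * B ^ 2 * U ^ 3 + (11628/25) * A ^ 2 * B * W ^ 3 + (37156/45) * A ^ 2 * B * U * W ^ 2 + (48968/75) * A ^ 2 * B * U ^ 2 * W + (57776/225) * A ^ 2 * B * U ^ 3 + (19232/225) * A ^ 3 * W ^ 3 + (1504/25)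 * A ^ 3 * U * W ^ 2 + (3776/225) * A ^ 3 * U ^ 2 * W + (6272/225) * A ^ 3 * U ^ 3 := by
              rw [hA, hB, hU, hW]; ring
            rw [key]; positivity
  · obtain ⟨A, hA⟩ : ∃ A, A = a - 0 := ⟨_, rfl⟩
    obtain ⟨B, hB⟩ : ∃ B, B = 1 - a := ⟨_, rfl⟩
    obtain ⟨U, hU⟩ : ∃ U, U = t - 0 := ⟨_, rfl⟩
    obtain ⟨W, hW⟩ : ∃ W, W = 1 - t := ⟨_, rfl⟩
    have A0 : 0 ≤ A := by rw [hA]; linarith
    have B0 : 0 ≤ B := by rw [hB]; linarith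
    have U0 : 0 ≤ U := by rw [hU]; linarith
    have W0 : 0 ≤ W := by rw [hW]; linarith
    have key : (641/14400) + (11/600) * t + (1/144) * t ^ 2 + (1349/14400) * a + ((-173/1200)) * a * t + (31/144) * a * t ^ 2 + ((-1/18)) * a * t ^ 3 + ((-473/3600)) * a ^ 2 + (251/2400) * a ^ 2 * t + (5/24) * a ^ 2 * t ^ 2 + ((-1/9)) * a ^ 2 * t ^ 3 + (623/7200) * a ^ 3 * t + ((-1/18)) * a ^ 3 * t ^ 3 =
        (641/14400) * B ^ 3 * W ^ 3 + (243/1600) * B ^ 3 * U * W ^ 2 + (2551/14400) * B ^ 3 * U ^ 2 * W + (67/960) * B ^ 3 * U ^ 3 + (409/1800) * A * B ^ 2 * W ^ 3 + (237/400) * A * B ^ 2 * U * W ^ 2 + (1331/1800) * A * B ^ 2 * U ^ 2 * W + (1147/3600) * A * B ^ 2 * U ^ 3 + (2729/14400) * A ^ 2 * B * W ^ 3 + (2111/4800) * A ^ 2 * B * U * W ^ 2 + (13979/14400) * A ^ 2 * B * U ^ 2 * W + (287/576) * A ^ 2 * B * U ^ 3 + (49/7200)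 * A ^ 3 * W ^ 3 + (617/7200) * A ^ 3 * U * W ^ 2 + (4187/7200) * A ^ 3 * U ^ 2 * W + (673/2400) * A ^ 3 * U ^ 3 := by
      rw [hA, hB, hU, hW]; ring
    rw [key]; positivity

lemma cS22 (a t : ℝ) (a0 : 0 ≤ a) (a1 : a ≤ 1) (t0 : -1 ≤ t) (t1 : t ≤ 1) :
    0 ≤ (7/180) + (151/57600) * t + (1/72) * t ^ 2 + (109/7680) * a + ((-39/320)) * a * t + (7/36) * a * t ^ 2 + ((-1/18)) * a * t ^ 3 + ((-21047/115200)) * a ^ 2 + (54221/230400) * a ^ 2 * t + ((-1/72)) * a ^ 2 * t ^ 2 + ((-1/18)) * a ^ 2 * t ^ 3 + (15589/115200) * a ^ 3 + ((-5093/230400)) * a ^ 3 * t + ((-7/36)) * a ^ 3 * t ^ 2 + (1/18) * a ^ 3 * t ^ 3 + ((-1/12800)) * a ^ 4 + ((-20389/230400)) * a ^ 4 * t + (1/18) * a ^ 4 * t ^ 3 + (1/25600) * a ^ 5 * t := by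
  rcases le_total t (0) with h | h
  · rcases le_total a (1/2) with h | h
    · obtain ⟨A, hA⟩ : ∃ A, A = a - 0 := ⟨_, rfl⟩
      obtain ⟨B, hB⟩ : ∃ B, B = 1/2 - a := ⟨_, rfl⟩
      obtain ⟨U, hU⟩ : ∃ U, U = t - (-1) := ⟨_, rfl⟩
      obtain ⟨W, hW⟩ : ∃ W, W = 0 - t := ⟨_, rfl⟩
      have A0 : 0 ≤ A := by rw [hA]; linarith
      have B0 : 0 ≤ B := by rw [hB]; linarith
      have U0 : 0 ≤ U := by rw [hU]; linarith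
      have W0 : 0 ≤ W := by rw [hW]; linarith
      have key : (7/180) + (151/57600) * t + (1/72) * t ^ 2 + (109/7680) * a + ((-39/320)) * a * t + (7/36) * a * t ^ 2 + ((-1/18)) * a * t ^ 3 + ((-21047/115200)) * a ^ 2 + (54221/230400) * a ^ 2 * t + ((-1/72)) * a ^ 2 * t ^ 2 + ((-1/18)) * a ^ 2 * t ^ 3 + (15589/115200) * a ^ 3 + ((-5093/230400)) * a ^ 3 * t + ((-7/36)) * a ^ 3 * t ^ 2 + (1/18) * a ^ 3 * t ^ 3 + ((-1/12800)) * a ^ 4 + ((-20389/230400)) * a ^ 4 * t + (1/18) * a ^ 4 * t ^ 3 + (1/25600) * a ^ 5 * t =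
          (321/200) * B ^ 5 * W ^ 3 + (401/100) * B ^ 5 * U * W ^ 2 + (6569/1800) * B ^ 5 * U ^ 2 * W + (56/45) * B ^ 5 * U ^ 3 + (6817/480) * A * B ^ 4 * W ^ 3 + (39949/1440) * A * B ^ 4 * U * W ^ 2 + (6013/288) * A * B ^ 4 * U ^ 2 * W + (9287/1440) * A * B ^ 4 * U ^ 3 + (14495/384) * A ^ 2 * B ^ 3 * W ^ 3 + (450779/7200) * A ^ 2 * B ^ 3 * U * W ^ 2 + (391219/9600) * A ^ 2 * B ^ 3 * U ^ 2 * W + (171233/14400) * A ^ 2 * B ^ 3 * U ^ 3 + (2517661/57600) * A ^ 3 * B ^ 2 * W ^ 3 + (4687/75) * A ^ 3 * B ^ 2 * U * W ^ 2 + (675683/19200) * A ^ 3 * B ^ 2 * U ^ 2 * W + (31883/3200) * A ^ 3 * B ^ 2 * U ^ 3 + (176837/7680) * A ^ 4 * B * W ^ 3 + (818929/28800) * A ^ 4 * B * U * W ^ 2 + (1563367/115200) * A ^ 4 * B * U ^ 2 * W + (73501/19200) * A ^ 4 * B * U ^ 3 + (1029089/230400) * A ^ 5 * W ^ 3 + (554971/115200) * A ^ 5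 * U * W ^ 2 + (438217/230400) * A ^ 5 * U ^ 2 * W + (31741/57600) * A ^ 5 * U ^ 3 := by
        rw [hA, hB, hU, hW]; ring
      rw [key]; positivity
    · rcases le_total t ((-1/2)) with h | h
      · obtain ⟨A, hA⟩ : ∃ A, A = a - 1/2 := ⟨_, rfl⟩
        obtain ⟨B, hB⟩ : ∃ B, B = 1 - a := ⟨_, rfl⟩
        obtain ⟨U, hU⟩ : ∃ U, U = t - (-1) := ⟨_, rfl⟩
        obtain ⟨W, hW⟩ : ∃ W, W = (-1/2) - t := ⟨_, rfl⟩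
        have A0 : 0 ≤ A := by rw [hA]; linarith
        have B0 : 0 ≤ B := by rw [hB]; linarith
        have U0 : 0 ≤ U := by rw [hU]; linarith
        have W0 : 0 ≤ W := by rw [hW]; linarith
        have key : (7/180) + (151/57600) * t + (1/72) * t ^ 2 + (109/7680) * a + ((-39/320)) * a * t + (7/36) * a * t ^ 2 + ((-1/18)) * a * t ^ 3 + ((-21047/115200)) * a ^ 2 + (54221/230400) * a ^ 2 * t + ((-1/72)) * a ^ 2 * t ^ 2 + ((-1/18)) * a ^ 2 * t ^ 3 + (15589/115200) * a ^ 3 + ((-5093/230400)) * a ^ 3 * t + ((-7/36)) * a ^ 3 * t ^ 2 + (1/18) * a ^ 3 * t ^ 3 + ((-1/12800)) * a ^ 4 + ((-20389/230400)) * a ^ 4 * t + (1/18) * a ^ 4 * t ^ 3 + (1/25600) * a ^ 5 * t =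
            (1029089/28800) * B ^ 5 * W ^ 3 + (4197209/57600) * B ^ 5 * U * W ^ 2 + (718171/14400) * B ^ 5 * U ^ 2 * W + (75117/6400) * B ^ 5 * U ^ 3 + (249289/1440) * A * B ^ 4 * W ^ 3 + (406361/1200) * A * B ^ 4 * U * W ^ 2 + (1581797/7200) * A * B ^ 4 * U ^ 2 * W + (87319/1800) * A * B ^ 4 * U ^ 3 + (244259/800) * A ^ 2 * B ^ 3 * W ^ 3 + (1638233/2880) * A ^ 2 * B ^ 3 * U * W ^ 2 + (621443/1800) * A ^ 2 * B ^ 3 * U ^ 2 * W + (1007441/14400) * A ^ 2 * B ^ 3 * U ^ 3 + (420709/1800) * A ^ 3 * B ^ 2 * W ^ 3 + (98837/240) * A ^ 3 * B ^ 2 * U * W ^ 2 + (103607/450) * A ^ 3 * B ^ 2 * U ^ 2 * W + (16591/400) * A ^ 3 * B ^ 2 * U ^ 3 + (29617/450) * A ^ 4 * B * W ^ 3 + (32863/300) * A ^ 4 * B * U * W ^ 2 + (4223/75) * A ^ 4 * B * U ^ 2 * W + (2707/300) * A ^ 4 * B * U ^ 3 + (2/75) * A ^ 5 * W ^ 3 + (59/75) * A ^ 5 *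 U * W ^ 2 + (112/75) * A ^ 5 * U ^ 2 * W + (11/15) * A ^ 5 * U ^ 3 := by
          rw [hA, hB, hU, hW]; ring
        rw [key]; positivity
      · rcases le_total a (3/4) with h | h
        · obtain ⟨A, hA⟩ : ∃ A, A = a - 1/2 := ⟨_, rfl⟩
          obtain ⟨B, hB⟩ : ∃ B, B = 3/4 - a := ⟨_, rfl⟩
          obtain ⟨U, hU⟩ : ∃ U, U = t - (-1/2) := ⟨_, rfl⟩
          obtain ⟨W, hW⟩ : ∃ W, W = 0 - t := ⟨_, rfl⟩
          have A0 : 0 ≤ A := by rw [hA]; linarith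
          have B0 : 0 ≤ B := by rw [hB]; linarith
          have U0 : 0 ≤ U := by rw [hU]; linarith
          have W0 : 0 ≤ W := by rw [hW]; linarith
          have key : (7/180) + (151/57600) * t + (1/72) * t ^ 2 + (109/7680) * a + ((-39/320)) * a * t + (7/36) * a * t ^ 2 + ((-1/18)) * a * t ^ 3 + ((-21047/115200)) * a ^ 2 + (54221/230400) * a ^ 2 * t + ((-1/72)) * a ^ 2 * t ^ 2 + ((-1/18)) * a ^ 2 * t ^ 3 + (15589/115200) * a ^ 3 + ((-5093/230400)) * a ^ 3 * t + ((-7/36)) * a ^ 3 * t ^ 2 + (1/18) * a ^ 3 * t ^ 3 + ((-1/12800)) * a ^ 4 + ((-20389/230400)) * a ^ 4 * t + (1/18) * a ^ 4 * t ^ 3 + (1/25600) * a ^ 5 * t =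
              (75117/200) * B ^ 5 * W ^ 3 + (591817/900) * B ^ 5 * U * W ^ 2 + (819109/1800) * B ^ 5 * U ^ 2 * W + (31741/225) * B ^ 5 * U ^ 3 + (6174473/3600) * A * B ^ 4 * W ^ 3 + (557169/200) * A * B ^ 4 * U * W ^ 2 + (1302773/720) * A * B ^ 4 * U ^ 2 * W + (42602/75) * A * B ^ 4 * U ^ 3 + (10983563/3600) * A ^ 2 * B ^ 3 * W ^ 3 + (2714353/600) * A ^ 2 * B ^ 3 * U * W ^ 2 + (1080083/400) * A ^ 2 * B ^ 3 * U ^ 2 * W + (21793/25) * A ^ 2 * B ^ 3 * U ^ 3 + (2111343/800) * A ^ 3 * B ^ 2 * W ^ 3 + (12612931/3600) * A ^ 3 * B ^ 2 * U * W ^ 2 + (4462621/2400) * A ^ 3 * B ^ 2 * U ^ 2 * W + (571511/900) * A ^ 3 * B ^ 2 * U ^ 3 + (31944341/28800) * A ^ 4 * B * W ^ 3 + (18629969/14400) * A ^ 4 * B * U * W ^ 2 + (16760453/28800) * A ^ 4 * B * U ^ 2 * W + (797807/3600) * A ^ 4 * B * U ^ 3 + (10451113/57600) * A ^ 5 * W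 ^ 3 + (5351233/28800) * A ^ 5 * U * W ^ 2 + (3939593/57600) * A ^ 5 * U ^ 2 * W + (22583/720) * A ^ 5 * U ^ 3 := by
            rw [hA, hB, hU, hW]; ring
          rw [key]; positivity
        · rcases le_total t ((-1/4)) with h | h
          · obtain ⟨A, hA⟩ : ∃ A, A = a - 3/4 := ⟨_, rfl⟩
            obtain ⟨B, hB⟩ : ∃ B, B = 1 - a := ⟨_, rfl⟩
            obtain ⟨U, hU⟩ : ∃ U, U = t - (-1/2) := ⟨_, rfl⟩
            obtain ⟨W, hW⟩ : ∃ W, W = (-1/4) - t := ⟨_, rfl⟩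
            have A0 : 0 ≤ A := by rw [hA]; linarith
            have B0 : 0 ≤ B := by rw [hB]; linarith
            have U0 : 0 ≤ U := by rw [hU]; linarith
            have W0 : 0 ≤ W := by rw [hW]; linarith
            have key : (7/180) + (151/57600) * t + (1/72) * t ^ 2 + (109/7680) * a + ((-39/320)) * a * t + (7/36) * a * t ^ 2 + ((-1/18)) * a * t ^ 3 + ((-21047/115200)) * a ^ 2 + (54221/230400) * a ^ 2 * t + ((-1/72)) * a ^ 2 * t ^ 2 + ((-1/18)) * a ^ 2 * t ^ 3 + (15589/115200) * a ^ 3 + ((-5093/230400)) * a ^ 3 * t + ((-7/36)) * a ^ 3 * t ^ 2 + (1/18) * a ^ 3 * t ^ 3 + ((-1/12800)) * a ^ 4 + ((-20389/230400)) * a ^ 4 * t + (1/18) * a ^ 4 * t ^ 3 + (1/25600) * a ^ 5 * t =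
                (10451113/7200) * B ^ 5 * W ^ 3 + (8411161/2880) * B ^ 5 * U * W ^ 2 + (2362411/1200) * B ^ 5 * U ^ 2 * W + (747217/1600) * B ^ 5 * U ^ 3 + (846301/150) * A * B ^ 4 * W ^ 3 + (1608043/150) * A * B ^ 4 * U * W ^ 2 + (3011749/450) * A * B ^ 4 * U ^ 2 * W + (219541/150) * A * B ^ 4 * U ^ 3 + (736897/90) * A ^ 2 * B ^ 3 * W ^ 3 + (13162613/900) * A ^ 2 * B ^ 3 * U * W ^ 2 + (1881779/225) * A ^ 2 * B ^ 3 * U ^ 2 * W + (499691/300) * A ^ 2 * B ^ 3 * U ^ 3 + (81508/15) * A ^ 3 * B ^ 2 * W ^ 3 + (2114926/225) * A ^ 3 * B ^ 2 * U * W ^ 2 + (393464/75) * A ^ 3 * B ^ 2 * U ^ 2 * W + (243286/225) * A ^ 3 * B ^ 2 * U ^ 3 + (40608/25) * A ^ 4 * B * W ^ 3 + (242096/75) * A ^ 4 * B * U * W ^ 2 + (35264/15) * A ^ 4 * B * U ^ 2 * W + (155344/225) * A ^ 4 * B * U ^ 3 + (2816/15) * A ^ 5 * W ^ 3 + (49024/75) * A ^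 5 * U * W ^ 2 + (55808/75) * A ^ 5 * U ^ 2 * W + (20864/75) * A ^ 5 * U ^ 3 := by
              rw [hA, hB, hU, hW]; ring
            rw [key]; positivity
          · obtain ⟨A, hA⟩ : ∃ A, A = a - 3/4 := ⟨_, rfl⟩
            obtain ⟨B, hB⟩ : ∃ B, B = 1 - a := ⟨_, rfl⟩
            obtain ⟨U, hU⟩ : ∃ U, U = t - (-1/4) := ⟨_, rfl⟩
            obtain ⟨W, hW⟩ : ∃ W, W = 0 - t := ⟨_, rfl⟩
            have A0 : 0 ≤ A := by rw [hA]; linarith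
            have B0 : 0 ≤ B := by rw [hB]; linarith
            have U0 : 0 ≤ U := by rw [hU]; linarith
            have W0 : 0 ≤ W := by rw [hW]; linarith
            have key : (7/180) + (151/57600) * t + (1/72) * t ^ 2 + (109/7680) * a + ((-39/320)) * a * t + (7/36) * a * t ^ 2 + ((-1/18)) * a * t ^ 3 + ((-21047/115200)) * a ^ 2 + (54221/230400) * a ^ 2 * t + ((-1/72)) * a ^ 2 * t ^ 2 + ((-1/18)) * a ^ 2 * t ^ 3 + (15589/115200) * a ^ 3 + ((-5093/230400)) * a ^ 3 * t + ((-7/36)) * a ^ 3 * t ^ 2 + (1/18) * a ^ 3 * t ^ 3 + ((-1/12800)) * a ^ 4 + ((-20389/230400)) * a ^ 4 * t + (1/18) * a ^ 4 * t ^ 3 + (1/25600) * a ^ 5 * t =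
                (747217/1600) * B ^ 5 * W ^ 3 + (2000131/2400) * B ^ 5 * U * W ^ 2 + (9359513/14400) * B ^ 5 * U ^ 2 * W + (22583/90) * B ^ 5 * U ^ 3 + (219541/150) * A * B ^ 4 * W ^ 3 + (939989/450) * A * B ^ 4 * U * W ^ 2 + (680609/450) * A * B ^ 4 * U ^ 2 * W + (331343/450) * A * B ^ 4 * U ^ 3 + (499691/300) * A ^ 2 * B ^ 3 * W ^ 3 + (733661/450) * A ^ 2 * B ^ 3 * U * W ^ 2 + (13907/12) * A ^ 2 * B ^ 3 * U ^ 2 * W + (210094/225) * A ^ 2 * B ^ 3 * U ^ 3 + (243286/225) * A ^ 3 * B ^ 2 * W ^ 3 + (31036/25) * A ^ 3 * B ^ 2 * U * W ^ 2 + (62558/45) * A ^ 3 * B ^ 2 * U ^ 2 * W + (231952/225) * A ^ 3 * B ^ 2 * U ^ 3 + (155344/225) * A ^ 4 * B * W ^ 3 + (134368/75) * A ^ 4 * B * U * W ^ 2 + (158192/75) * A ^ 4 * B * U ^ 2 * W + (214016/225) * A ^ 4 * B * U ^ 3 + (20864/75) * A ^ 5 * W ^ 3 + (69376/75) * A ^ 5 * U *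 W ^ 2 + (15232/15) * A ^ 5 * U ^ 2 * W + (9216/25) * A ^ 5 * U ^ 3 := by
              rw [hA, hB, hU, hW]; ring
            rw [key]; positivity
  · rcases le_total a (1/2) with h | h
    · obtain ⟨A, hA⟩ : ∃ A, A = a - 0 := ⟨_, rfl⟩
      obtain ⟨B, hB⟩ : ∃ B, B = 1/2 - a := ⟨_, rfl⟩
      obtain ⟨U, hU⟩ : ∃ U, U = t - 0 := ⟨_, rfl⟩
      obtain ⟨W, hW⟩ : ∃ W, W = 1 - t := ⟨_, rfl⟩
      have A0 : 0 ≤ A := by rw [hA]; linarith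
      have B0 : 0 ≤ B := by rw [hB]; linarith
      have U0 : 0 ≤ U := by rw [hU]; linarith
      have W0 : 0 ≤ W := by rw [hW]; linarith
      have key : (7/180) + (151/57600) * t + (1/72) * t ^ 2 + (109/7680) * a + ((-39/320)) * a * t + (7/36) * a * t ^ 2 + ((-1/18)) * a * t ^ 3 + ((-21047/115200)) * a ^ 2 + (54221/230400) * a ^ 2 * t + ((-1/72)) * a ^ 2 * t ^ 2 + ((-1/18)) * a ^ 2 * t ^ 3 + (15589/115200) * a ^ 3 + ((-5093/230400)) * a ^ 3 * t + ((-7/36)) * a ^ 3 * t ^ 2 + (1/18) * a ^ 3 * t ^ 3 + ((-1/12800)) * a ^ 4 + ((-20389/230400)) * a ^ 4 * t + (1/18) * a ^ 4 * t ^ 3 + (1/25600) * a ^ 5 * t =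
          (56/45) * B ^ 5 * W ^ 3 + (6871/1800) * B ^ 5 * U * W ^ 2 + (3911/900) * B ^ 5 * U ^ 2 * W + (3191/1800) * B ^ 5 * U ^ 3 + (9287/1440) * A * B ^ 4 * W ^ 3 + (25657/1440) * A * B ^ 4 * U * W ^ 2 + (31133/1440) * A * B ^ 4 * U ^ 2 * W + (13483/1440) * A * B ^ 4 * U ^ 3 + (171233/14400) * A ^ 2 * B ^ 3 * W ^ 3 + (293713/9600) * A ^ 2 * B ^ 3 * U * W ^ 2 + (7613/180) * A ^ 2 * B ^ 3 * U ^ 2 * W + (188069/9600) * A ^ 2 * B ^ 3 * U ^ 3 + (31883/3200) * A ^ 3 * B ^ 2 * W ^ 3 + (94421/3840) * A ^ 3 * B ^ 2 * U * W ^ 2 + (198179/4800) * A ^ 3 * B ^ 2 * U ^ 2 * W + (1164527/57600) * A ^ 3 * B ^ 2 * U ^ 3 + (73501/19200) * A ^ 4 * B * W ^ 3 + (1082669/115200) * A ^ 4 * B * U * W ^ 2 + (9643/480) * A ^ 4 * B * U ^ 2 * W + (1173457/115200) * A ^ 4 * B * U ^ 3 + (31741/57600) * A ^ 5 * W ^ 3 + (323567/230400) * A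 ^ 5 * U * W ^ 2 + (440321/115200) * A ^ 5 * U ^ 2 * W + (151213/76800) * A ^ 5 * U ^ 3 := by
        rw [hA, hB, hU, hW]; ring
      rw [key]; positivity
    · obtain ⟨A, hA⟩ : ∃ A, A = a - 1/2 := ⟨_, rfl⟩
      obtain ⟨B, hB⟩ : ∃ B, B = 1 - a := ⟨_, rfl⟩
      obtain ⟨U, hU⟩ : ∃ U, U = t - 0 := ⟨_, rfl⟩
      obtain ⟨W, hW⟩ : ∃ W, W = 1 - t := ⟨_, rfl⟩
      have A0 : 0 ≤ A := by rw [hA]; linarith
      have B0 : 0 ≤ B := by rw [hB]; linarith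
      have U0 : 0 ≤ U := by rw [hU]; linarith
      have W0 : 0 ≤ W := by rw [hW]; linarith
      have key : (7/180) + (151/57600) * t + (1/72) * t ^ 2 + (109/7680) * a + ((-39/320)) * a * t + (7/36) * a * t ^ 2 + ((-1/18)) * a * t ^ 3 + ((-21047/115200)) * a ^ 2 + (54221/230400) * a ^ 2 * t + ((-1/72)) * a ^ 2 * t ^ 2 + ((-1/18)) * a ^ 2 * t ^ 3 + (15589/115200) * a ^ 3 + ((-5093/230400)) * a ^ 3 * t + ((-7/36)) * a ^ 3 * t ^ 2 + (1/18) * a ^ 3 * t ^ 3 + ((-1/12800)) * a ^ 4 + ((-20389/230400)) * a ^ 4 * t + (1/18) * a ^ 4 * t ^ 3 + (1/25600) * a ^ 5 * t =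
          (31741/57600) * B ^ 5 * W ^ 3 + (323567/230400) * B ^ 5 * U * W ^ 2 + (440321/115200) * B ^ 5 * U ^ 2 * W + (151213/76800) * B ^ 5 * U ^ 3 + (96907/57600) * A * B ^ 4 * W ^ 3 + (267583/57600) * A * B ^ 4 * U * W ^ 2 + (208889/11520) * A * B ^ 4 * U ^ 2 * W + (547369/57600) * A * B ^ 4 * U ^ 3 + (7951/5760) * A ^ 2 * B ^ 3 * W ^ 3 + (35701/6400) * A ^ 2 * B ^ 3 * U * W ^ 2 + (240911/7200) * A ^ 2 * B ^ 3 * U ^ 2 * W + (1007089/57600) * A ^ 2 * B ^ 3 * U ^ 3 + (47/480) * A ^ 3 * B ^ 2 * W ^ 3 + (53731/14400) * A ^ 3 * B ^ 2 * U * W ^ 2 + (6538/225) * A ^ 3 * B ^ 2 * U ^ 2 * W + (70837/4800) * A ^ 3 * B ^ 2 * U ^ 3 + (13/450) * A ^ 4 * B * W ^ 3 + (2533/1200) * A ^ 4 * B * U * W ^ 2 + (6481/600) * A ^ 4 * B * U ^ 2 * W + (6197/1200) * A ^ 4 * B * U ^ 3 + (9/50) * A ^ 5 * W ^ 3 + (43/60) * A ^ 5 * U * W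 ^ 2 + (67/75) * A ^ 5 * U ^ 2 * W + (107/300) * A ^ 5 * U ^ 3 := by
        rw [hA, hB, hU, hW]; ring
      rw [key]; positivity

lemma pR (a t b g : ℝ) (a0 : 0 ≤ a) (a1 : a ≤ 1) (t0 : -1 ≤ t) (t1 : t ≤ 1)
    (b0 : 0 ≤ b) (b1 : b ≤ 1/8) (g0 : 0 ≤ g) (g1 : g ≤ 2 / 3) :
    0 ≤ (1 + a) ^ 2 * (1 - t * (1 + a) / 2) * g ^ 2 / 4 + (1 + a) * b ^ 2 * (1/10 - 1/100 * (1 + t / 2) - t / 12) + (1 + a) ^ 2 * (1 - 4 * b) / 8 - t * a * (1 + a) ^ 2 / 24 - (1 + a) * (a + t / 3 * (1 + 2 * b)) * ((1 - t * (1 + a) / 2) * g - b) / 2 - (1 + t * a) * ((1 - t * (1 + a) / 2) * g - b) ^ 2 / 2 - 9/200 * (1 - a) * (2 * b - (1 - a) * (1 - t * (1 + a) / 2) * g) * (1 + a) := by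
  have h00 := cR00 a t a0 a1 t0 t1
  have h01 := cR01 a t a0 a1 t0 t1
  have h02 := cR02 a t a0 a1 t0 t1
  have h10 := cR10 a t a0 a1 t0 t1
  have h11 := cR11 a t a0 a1 t0 t1
  have h12 := cR12 a t a0 a1 t0 t1
  have h20 := cR20 a t a0 a1 t0 t1
  have h21 := cR21 a t a0 a1 t0 t1
  have h22 := cR22 a t a0 a1 t0 t1
  have ra : 0 ≤ 1 - a := by linarith
  have rg : 0 ≤ 1 - 3 / 2 * g := by linarith
  have rb : 0 ≤ 1 - 8 * b := by linarith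
  obtain ⟨q00, e00⟩ : ∃ q, q = (1/8) + (1/4) * a + ((-1/24)) * a * t + (1/8) * a ^ 2 + ((-1/12)) * a ^ 2 * t + ((-1/24)) * a ^ 3 * t := ⟨_, rfl⟩
  rw [← e00] at h00
  obtain ⟨q01, e01⟩ : ∃ q, q = (141/1600) + (1/96) * t + (7/32) * a + ((-1/32)) * a * t + (209/1600) * a ^ 2 + ((-1/12)) * a ^ 2 * t + ((-1/24)) * a ^ 3 * t := ⟨_, rfl⟩
  rw [← e01] at h01
  obtain ⟨q02, e02⟩ : ∃ q, q = (287/6400) + (947/38400) * t + (1209/6400) * a + ((-953/38400)) * a * t + (109/800) * a ^ 2 + ((-1/12)) * a ^ 2 * t + ((-1/24)) * a ^ 3 * t := ⟨_, rfl⟩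
  rw [← e02] at h02
  obtain ⟨q10, e10⟩ : ∃ q, q = (7/50) + ((-227/3600)) * t + (1/36) * t ^ 2 + (41/600) * a + ((-1/72)) * a * t + (1/18) * a * t ^ 2 + ((-17/300)) * a ^ 2 + (59/600) * a ^ 2 * t + (1/36) * a ^ 2 * t ^ 2 + (3/200) * a ^ 3 + (1/24) * a ^ 3 * t + ((-3/400)) * a ^ 4 * t := ⟨_, rfl⟩
  rw [← e10] at h10
  obtain ⟨q11, e11⟩ : ∃ q, q = (119/960) + ((-7/100)) * t + (1/32) * t ^ 2 + (89/2400) * a + (5/96) * a * t ^ 2 + ((-49/960)) * a ^ 2 + (59/600) * a ^ 2 * t + (1/48) * a ^ 2 * t ^ 2 + (3/200) * a ^ 3 + (1/24) * a ^ 3 * t + ((-3/400)) * a ^ 4 * t := ⟨_, rfl⟩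
  rw [← e11] at h11
  obtain ⟨q12, e12⟩ : ∃ q, q = (1949/19200) + ((-8423/115200)) * t + (5/144) * t ^ 2 + (139/19200) * a + (1141/115200) * a * t + (7/144) * a * t ^ 2 + ((-109/2400)) * a ^ 2 + (59/600) * a ^ 2 * t + (1/72) * a ^ 2 * t ^ 2 + (3/200) * a ^ 3 + (1/24) * a ^ 3 * t + ((-3/400)) * a ^ 4 * t := ⟨_, rfl⟩
  rw [← e12] at h12
  obtain ⟨q20, e20⟩ : ∃ q, q = (79/1800) + (73/1800) * t + (49/450) * a + ((-11/72)) * a * t + (2/9) * a * t ^ 2 + ((-1/18)) * a * t ^ 3 + ((-229/1800)) * a ^ 2 + (17/150) * a ^ 2 * t + (2/9) * a ^ 2 * t ^ 2 + ((-1/9)) * a ^ 2 * t ^ 3 + (3/100) * a ^ 3 + (5/72) * a ^ 3 * t + ((-1/18)) * a ^ 3 * t ^ 3 + ((-3/200)) * a ^ 4 * t := ⟨_, rfl⟩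
  rw [← e20] at h20
  obtain ⟨q21, e21⟩ : ∃ q, q = (701/14400) + (13/800) * t + (1/144) * t ^ 2 + (559/7200) * a + ((-13/96)) * a * t + (31/144) * a * t ^ 2 + ((-1/18)) * a * t ^ 3 + ((-1751/14400)) * a ^ 2 + (17/150) * a ^ 2 * t + (5/24) * a ^ 2 * t ^ 2 + ((-1/9)) * a ^ 2 * t ^ 3 + (3/100) * a ^ 3 + (5/72) * a ^ 3 * t + ((-1/18)) * a ^ 3 * t ^ 3 + ((-3/200)) * a ^ 4 * t := ⟨_, rfl⟩
  rw [← e21] at h21
  obtain ⟨q22, e22⟩ : ∃ q, q = (2711/57600) + ((-487/115200)) * t + (1/72) * t ^ 2 + (2753/57600) * a + ((-14059/115200)) * a * t + (5/24) * a * t ^ 2 + ((-1/18)) * a * t ^ 3 + ((-167/1440)) * a ^ 2 + (17/150) * a ^ 2 * t + (7/36) * a ^ 2 * t ^ 2 + ((-1/9)) * a ^ 2 * t ^ 3 + (3/100) * a ^ 3 + (5/72) * a ^ 3 * t + ((-1/18)) * a ^ 3 * t ^ 3 + ((-3/200)) * a ^ 4 * t := ⟨_, rfl⟩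
  rw [← e22] at h22
  have key : (1 + a) ^ 2 * (1 - t * (1 + a) / 2) * g ^ 2 / 4 + (1 + a) * b ^ 2 * (1/10 - 1/100 * (1 + t / 2) - t / 12) + (1 + a) ^ 2 * (1 - 4 * b) / 8 - t * a * (1 + a) ^ 2 / 24 - (1 + a) * (a + t / 3 * (1 + 2 * b)) * ((1 - t * (1 + a) / 2) * g - b) / 2 - (1 + t * a) * ((1 - t * (1 + a) / 2) * g - b) ^ 2 / 2 - 9/200 * (1 - a) * (2 * b - (1 - a) * (1 - t * (1 + a) / 2) * g) * (1 + a) =
      1 * (1 - 3 / 2 * g) ^ 2 * (1 - 8 * b) ^ 2 * q00 +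
      2 * (1 - 3 / 2 * g) ^ 2 * (1 - 8 * b) ^ 1 * (8 * b) ^ 1 * q01 +
      1 * (1 - 3 / 2 * g) ^ 2 * (8 * b) ^ 2 * q02 +
      2 * (1 - 3 / 2 * g) ^ 1 * (3 / 2 * g) ^ 1 * (1 - 8 * b) ^ 2 * q10 +
      4 * (1 - 3 / 2 * g) ^ 1 * (3 / 2 * g) ^ 1 * (1 - 8 * b) ^ 1 * (8 * b) ^ 1 * q11 +
      2 * (1 - 3 / 2 * g) ^ 1 * (3 / 2 * g) ^ 1 * (8 * b) ^ 2 * q12 +
      1 * (3 / 2 * g) ^ 2 * (1 - 8 * b) ^ 2 * q20 +
      2 * (3 / 2 * g) ^ 2 * (1 - 8 * b) ^ 1 * (8 * b) ^ 1 * q21 +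
      1 * (3 / 2 * g) ^ 2 * (8 * b) ^ 2 * q22 := by
    rw [e00, e01, e02, e10, e11, e12, e20, e21, e22]; ring
  rw [key]; positivity

lemma pS (a t b g : ℝ) (a0 : 0 ≤ a) (a1 : a ≤ 1) (t0 : -1 ≤ t) (t1 : t ≤ 1)
    (b0 : 0 ≤ b) (b1 : b ≤ 1/8) (g0 : 0 ≤ g) (g1 : g ≤ 2 / 3) :
    0 ≤ (1 - a) * ((1 + a) ^ 2 * (1 - t * (1 + a) / 2) * g ^ 2 / 4 + (1 + a) ^ 2 * (1 - 4 * b) / 8 - t * a * (1 + a) ^ 2 / 24 - (1 + a) * (a + t / 3 * (1 + 2 * b)) * ((1 - t * (1 + a) / 2) * g - b) / 2 - (1 + t * a) * ((1 - t * (1 + a) / 2) * g - b) ^ 2 / 2 - 1/10 * (1 + a) ^ 2 * b * (1 - t * (1 + a) / 2) * g) + b ^ 2 * ((1 + a) * (1/10 * (1 + a) - 1/200 * (1 + a) ^ 2 * (a * (1 - t * a / 2)) + t * (1 + a) / 12)) - 9/200 * (1 - a) * (2 * b - (1 - a) * (1 - t * (1 + a) / 2) * g) * (1 + a) := by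
  have h00 := cS00 a t a0 a1 t0 t1
  have h01 := cS01 a t a0 a1 t0 t1
  have h02 := cS02 a t a0 a1 t0 t1
  have h10 := cS10 a t a0 a1 t0 t1
  have h11 := cS11 a t a0 a1 t0 t1
  have h12 := cS12 a t a0 a1 t0 t1
  have h20 := cS20 a t a0 a1 t0 t1
  have h21 := cS21 a t a0 a1 t0 t1
  have h22 := cS22 a t a0 a1 t0 t1
  have ra : 0 ≤ 1 - a := by linarith
  have rg : 0 ≤ 1 - 3 / 2 * g := by linarith
  have rb : 0 ≤ 1 - 8 * b := by linarith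
  obtain ⟨q00, e00⟩ : ∃ q, q = (1/8) + (1/4) * a + ((-1/24)) * a * t + (1/8) * a ^ 2 + ((-1/12)) * a ^ 2 * t + ((-1/24)) * a ^ 3 * t := ⟨_, rfl⟩
  rw [← e00] at h00
  obtain ⟨q01, e01⟩ : ∃ q, q = (141/1600) + (1/96) * t + (341/1600) * a + ((-1/32)) * a * t + (1/8) * a ^ 2 + ((-1/12)) * a ^ 2 * t + ((-1/24)) * a ^ 3 * t := ⟨_, rfl⟩
  rw [← e01] at h01
  obtain ⟨q02, e02⟩ : ∃ q, q = (9/200) + (7/256) * t + (1739/12800) * a + ((-3/64)) * a * t + ((-639/12800)) * a ^ 2 + ((-1499/25600)) * a ^ 2 * t + ((-1603/12800)) * a ^ 3 + (3209/76800) * a ^ 3 * t + ((-1/12800)) * a ^ 4 + (3209/76800) * a ^ 4 * t + (1/25600) * a ^ 5 * t := ⟨_, rfl⟩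
  rw [← e02] at h02
  obtain ⟨q10, e10⟩ : ∃ q, q = (7/50) + ((-227/3600)) * t + (1/36) * t ^ 2 + (1/12) * a + ((-77/3600)) * a * t + (1/18) * a * t ^ 2 + ((-17/300)) * a ^ 2 + (109/1200) * a ^ 2 * t + (1/36) * a ^ 2 * t ^ 2 + (59/1200) * a ^ 3 * t := ⟨_, rfl⟩
  rw [← e10] at h10
  obtain ⟨q11, e11⟩ : ∃ q, q = (39/320) + ((-331/4800)) * t + (1/32) * t ^ 2 + (203/4800) * a + ((-7/1600)) * a * t + (5/96) * a * t ^ 2 + ((-47/800)) * a ^ 2 + (451/4800) * a ^ 2 * t + (1/48) * a ^ 2 * t ^ 2 + (241/4800) * a ^ 3 * t := ⟨_, rfl⟩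
  rw [← e11] at h11
  obtain ⟨q12, e12⟩ : ∃ q, q = (39/400) + ((-3937/57600)) * t + (5/144) * t ^ 2 + ((-1173/12800)) * a + (79/960) * a * t + (1/72) * a * t ^ 2 + ((-2333/38400)) * a ^ 2 + (4073/46080) * a ^ 2 * t + ((-5/144)) * a ^ 2 * t ^ 2 + (2327/38400) * a ^ 3 + ((-3511/76800)) * a ^ 3 * t + ((-1/72)) * a ^ 3 * t ^ 2 + ((-1/12800)) * a ^ 4 + ((-1309/25600)) * a ^ 4 * t + (1/25600) * a ^ 5 * t := ⟨_, rfl⟩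
  rw [← e12] at h12
  obtain ⟨q20, e20⟩ : ∃ q, q = (79/1800) + (73/1800) * t + (5/36) * a + ((-151/900)) * a * t + (2/9) * a * t ^ 2 + ((-1/18)) * a * t ^ 3 + ((-229/1800)) * a ^ 2 + (59/600) * a ^ 2 * t + (2/9) * a ^ 2 * t ^ 2 + ((-1/9)) * a ^ 2 * t ^ 3 + (19/225) * a ^ 3 * t + ((-1/18)) * a ^ 3 * t ^ 3 := ⟨_, rfl⟩
  rw [← e20] at h20
  obtain ⟨q21, e21⟩ : ∃ q, q = (641/14400) + (11/600) * t + (1/144) * t ^ 2 + (1349/14400) * a + ((-173/1200)) * a * t + (31/144) * a * t ^ 2 + ((-1/18)) * a * t ^ 3 + ((-473/3600)) * a ^ 2 + (251/2400) * a ^ 2 * t + (5/24) * a ^ 2 * t ^ 2 + ((-1/9)) * a ^ 2 * t ^ 3 + (623/7200) * a ^ 3 * t + ((-1/18)) * a ^ 3 * t ^ 3 := ⟨_, rfl⟩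
  rw [← e21] at h21
  obtain ⟨q22, e22⟩ : ∃ q, q = (7/180) + (151/57600) * t + (1/72) * t ^ 2 + (109/7680) * a + ((-39/320)) * a * t + (7/36) * a * t ^ 2 + ((-1/18)) * a * t ^ 3 + ((-21047/115200)) * a ^ 2 + (54221/230400) * a ^ 2 * t + ((-1/72)) * a ^ 2 * t ^ 2 + ((-1/18)) * a ^ 2 * t ^ 3 + (15589/115200) * a ^ 3 + ((-5093/230400)) * a ^ 3 * t + ((-7/36)) * a ^ 3 * t ^ 2 + (1/18) * a ^ 3 * t ^ 3 + ((-1/12800)) * a ^ 4 + ((-20389/230400)) * a ^ 4 * t + (1/18) * a ^ 4 * t ^ 3 + (1/25600) * a ^ 5 * t := ⟨_, rfl⟩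
  rw [← e22] at h22
  have key : (1 - a) * ((1 + a) ^ 2 * (1 - t * (1 + a) / 2) * g ^ 2 / 4 + (1 + a) ^ 2 * (1 - 4 * b) / 8 - t * a * (1 + a) ^ 2 / 24 - (1 + a) * (a + t / 3 * (1 + 2 * b)) * ((1 - t * (1 + a) / 2) * g - b) / 2 - (1 + t * a) * ((1 - t * (1 + a) / 2) * g - b) ^ 2 / 2 - 1/10 * (1 + a) ^ 2 * b * (1 - t * (1 + a) / 2) * g) + b ^ 2 * ((1 + a) * (1/10 * (1 + a) - 1/200 * (1 + a) ^ 2 * (a * (1 - t * a / 2)) + t * (1 + a) / 12)) - 9/200 * (1 - a) * (2 * b - (1 - a) * (1 - t * (1 + a) / 2) * g) * (1 + a) =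
      1 * (1 - 3 / 2 * g) ^ 2 * (1 - 8 * b) ^ 2 * ((1 - a) * q00) +
      2 * (1 - 3 / 2 * g) ^ 2 * (1 - 8 * b) ^ 1 * (8 * b) ^ 1 * ((1 - a) * q01) +
      1 * (1 - 3 / 2 * g) ^ 2 * (8 * b) ^ 2 * q02 +
      2 * (1 - 3 / 2 * g) ^ 1 * (3 / 2 * g) ^ 1 * (1 - 8 * b) ^ 2 * ((1 - a) * q10) +
      4 * (1 - 3 / 2 * g) ^ 1 * (3 / 2 * g) ^ 1 * (1 - 8 * b) ^ 1 * (8 * b) ^ 1 * ((1 - a) * q11) +
      2 * (1 - 3 / 2 * g) ^ 1 * (3 / 2 * g) ^ 1 * (8 * b) ^ 2 * q12 +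
      1 * (3 / 2 * g) ^ 2 * (1 - 8 * b) ^ 2 * ((1 - a) * q20) +
      2 * (3 / 2 * g) ^ 2 * (1 - 8 * b) ^ 1 * (8 * b) ^ 1 * ((1 - a) * q21) +
      1 * (3 / 2 * g) ^ 2 * (8 * b) ^ 2 * q22 := by
    rw [e00, e01, e02, e10, e11, e12, e20, e21, e22]; ring
  rw [key]; positivity

end Pool.G1.SB
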