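import Pool.Agent.Work.MP_b5407d_g1.Pl_Cert
import Pool.Agent.Work.MP_b5407d_g1.PEU

/-!
# G1: test bodies for a general affine weight (helper59)

`F` a polygon of area `1` with centroid `0` (data `ν v ℓ`), `δ` velocities with `Σ ℓ δ = 2`.
A closed polygon `N` with edges parallel to those of `F`: vertices `z`, labels `y`, that is
`z (i+1) = z i + (y i * ℓ i) • rt (ν i)`; its support numbers are `su i = ν i . z i`, its edge midpoints
`md z i`.  If `Σ ℓ su = 0` (mixed area with `F` zero) then for EVERY affine `ρ ≥ 0` on `F`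

`A(ρ) ≤ β ρ(0) + ∇ρ . y - Σ ℓ_i (η_i + su_i / 2) (y_i ρ(m_i) + ∇ρ . m_i^N)`        (`test_body`)

where `β = bt`, `y = yy`, `η = et`; instead of `η` one may write `δ - h` (`test_body'`).  For labels `x` with
`Σ x_i ℓ_i ν_i = 0` there is such a polygon with `y = x - μ` (`exists_body`).
-/

set_option autoImplicit false

open Finset

namespace Pool.G1

namespace TEST

/-- a closed polygon with edges parallel to those of `F`: labels `y`, vertices `z` -/
structure Cl (n : ℕ) (ν : ℕ → R2) (ℓ y : ℕ → ℝ) (z : ℕ → R2) : Prop where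
  pz : ∀ i, z (i + n) = z i
  ed : ∀ i, z (i + 1) = z i + (y i * ℓ i) • rt (ν i)

/-- support numbers of the polygon `z` -/
noncomputable def su (ν z : ℕ → R2) (i : ℕ) : ℝ := dp (ν i) (z i)

/-- first variation of `∫_{e_i} ρ / ℓ_i` when the polygon `z` is added -/
noncomputable def fo (v : ℕ → R2) (r : ℝ × R2) (y : ℕ → ℝ) (z : ℕ → R2) (i : ℕ) : ℝ :=
  y i * af r (md v i) + dp r.2 (md z i)

variable {n : ℕ} {ν v z : ℕ → R2} {ℓ y : ℕ → ℝ}

lemma dp_rt (a : R2) : dp a (rt a) = 0 := by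
  simp only [dp, rt]; ring

lemma su_next (hz : Cl n ν ℓ y z) (i : ℕ) : su ν z i = dp (ν i) (z (i + 1)) := by
  unfold su
  rw [hz.ed, NRM.dp_add_right, NRM.dp_smul_right, dp_rt]; ring

lemma su_per (hP : Poly n ν v ℓ) (hz : Cl n ν ℓ y z) (i : ℕ) : su ν z (i + n) = su ν z i := by
  unfold su
  rw [hP.pν, hz.pz]

lemma ve_su (hP : Poly n ν v ℓ) (hz : Cl n ν ℓ y z) (i : ℕ) : ve ν (su ν z) i = z (i + 1) :=
  PEUaux.ve_dp hP i _ _ (su_next hz i) rfl

/-- labels are periodic -/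
lemma y_per (hP : Poly n ν v ℓ) (hz : Cl n ν ℓ y z) (i : ℕ) : y (i + n) = y i := by
  have h1 := hz.ed (i + n)
  have h2 := hz.ed i
  rw [show i + n + 1 = i + 1 + n by ring, hz.pz, hz.pz, h2, hP.pν, hP.pℓ] at h1
  have h3 : (y i * ℓ i) • rt (ν i) = (y (i + n) * ℓ i) • rt (ν i) := add_left_cancel h1
  have h4 : dp ((y i * ℓ i) • rt (ν i)) (rt (ν i)) =
      dp ((y (i + n) * ℓ i) • rt (ν i)) (rt (ν i)) := by rw [h3]
  rw [NRM.dp_smul_left, NRM.dp_smul_left] at h4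
  have h5 : dp (rt (ν i)) (rt (ν i)) = 1 := by
    have := hP.unit i
    simp only [dp, rt] at this ⊢
    linarith
  rw [h5, mul_one, mul_one] at h4
  exact mul_right_cancel₀ (hP.pos i).ne' h4.symm

/-- the second variation against the support numbers of a polygon -/
lemma B2_su (hP : Poly n ν v ℓ) (hz : Cl n ν ℓ y z) (r : ℝ × R2) (η : ℕ → ℝ)
    (hη : ∀ i, η (i + n) = η i) :
    B2 n ν v ℓ r η (su ν z) = ∑ i ∈ range n, ℓ i * η i * fo v r y z i := by
  set f : ℕ → ℝ := fun i => ℓ i * η i * fo v r y z i with hf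
  have hfp : ∀ i, f (i + n) = f i := by
    intro i
    simp only [hf, fo, md]
    rw [hη, hP.pℓ, y_per hP hz, show i + n + 1 = i + 1 + n by ring, hP.pv, hP.pv, hz.pz, hz.pz]
  rw [← PEUaux.shift hfp]
  unfold B2
  refine sum_congr rfl fun i _ => ?_
  rw [ve_su hP hz, ve_su hP hz]
  have e1 : dp (z (i + 1 + 1) - z (i + 1)) (rt (ν (i + 1))) = y (i + 1) * ℓ (i + 1) := by
    have hu := hP.unit (i + 1)
    rw [hz.ed (i + 1)]
    simp only [dp] at hu
    simp only [dp, rt, Prod.fst_sub, Prod.snd_sub, Prod.fst_add, Prod.snd_add,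
      Prod.smul_fst, Prod.smul_snd, smul_eq_mul]
    linear_combination y (i + 1) * ℓ (i + 1) * hu
  rw [e1]
  simp only [hf, fo, md, af, dp, Prod.fst_add, Prod.snd_add, Prod.smul_fst, Prod.smul_snd,
    smul_eq_mul]
  ring

lemma B2_add_r (hE : Stmt_PEU) (hP : Poly n ν v ℓ) (r : ℝ × R2) (f g h : ℕ → ℝ)
    (hf : ∀ i, f (i + n) = f i) (hg : ∀ i, g (i + n) = g i) (hh : ∀ i, h (i + n) = h i) :
    B2 n ν v ℓ r f (fun i => g i + h i) = B2 n ν v ℓ r f g + B2 n ν v ℓ r f h := by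
  obtain ⟨-, -, -, -, -, hsym, -, -⟩ := hE n ν v ℓ hP
  have hgh : ∀ i, (fun i => g i + h i) (i + n) = (fun i => g i + h i) i := fun i => by
    simp only [hg, hh]
  rw [hsym r f _ hf hgh, B2_add_left, hsym r f g hf hg, hsym r f h hf hh]

/-- test body bound for a general affine `ρ ≥ 0` -/
theorem test_body (hE : Stmt_PEU) (hM : Stmt_PMI) (hP : Poly n ν v ℓ) (har : ar n v = 1)
    (hcen : ∀ g : R2, J0 n v (0, g) = 0) (δ θ : ℕ → ℝ) (hδ : ∀ i, δ (i + n) = δ i)
    (hS : ∑ i ∈ range n, ℓ i * δ i = 2) (hz : Cl n ν ℓ y z)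
    (h0 : ∑ i ∈ range n, ℓ i * su ν z i = 0) (r : ℝ × R2) (hr : ∀ k, 0 ≤ af r (v k)) :
    AA n ν v ℓ δ θ r ≤ bt n ℓ δ θ * r.1 + dp r.2 (yy n v ℓ δ θ) -
      ∑ i ∈ range n, ℓ i * (et n ν v ℓ δ i + su ν z i / 2) * fo v r y z i := by
  have pe := et_per hP δ hδ
  have ps := su_per hP hz
  have hsum : ∑ i ∈ range n, ℓ i * (et n ν v ℓ δ i + su ν z i) = 0 := by
    have : ∑ i ∈ range n, ℓ i * (et n ν v ℓ δ i + su ν z i) =
        ∑ i ∈ range n, ℓ i * et n ν v ℓ δ i + ∑ i ∈ range n, ℓ i * su ν z i := by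
      rw [← sum_add_distrib]
      exact sum_congr rfl fun i _ => by ring
    rw [this, sum_et hE hP har hcen δ hS, h0]; ring
  have pes : ∀ i, (fun i => et n ν v ℓ δ i + su ν z i) (i + n) =
      (fun i => et n ν v ℓ δ i + su ν z i) i := fun i => by simp only [pe, ps]
  have hle := hM n ν v ℓ hP r hr (fun i => et n ν v ℓ δ i + su ν z i) pes hsum
  obtain ⟨-, -, -, -, -, hsym, -, -⟩ := hE n ν v ℓ hP
  unfold J2 at hle
  rw [B2_add_left, B2_add_r hE hP r _ _ _ pe pe ps, B2_add_r hE hP r _ _ _ ps pe ps,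
    hsym r (su ν z) (et n ν v ℓ δ) ps pe, B2_su hP hz r _ pe, B2_su hP hz r _ ps] at hle
  rw [AA_norm hE hP har hcen δ θ hδ hS]
  unfold J2
  have e1 : ∑ i ∈ range n, ℓ i * (et n ν v ℓ δ i + su ν z i / 2) * fo v r y z i =
      ∑ i ∈ range n, ℓ i * et n ν v ℓ δ i * fo v r y z i +
        1 / 2 * ∑ i ∈ range n, ℓ i * su ν z i * fo v r y z i := by
    rw [mul_sum, ← sum_add_distrib]
    exact sum_congr rfl fun i _ => by ring
  rw [e1]
  linarith

/-- translations do not contribute -/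
lemma sum_fo_nu (hE : Stmt_PEU) (hP : Poly n ν v ℓ) (hz : Cl n ν ℓ y z)
    (h0 : ∑ i ∈ range n, ℓ i * su ν z i = 0) (r : ℝ × R2) (c : R2) :
    ∑ i ∈ range n, ℓ i * dp (ν i) c * fo v r y z i = 0 := by
  obtain ⟨-, -, -, -, -, hsym, -, hBx⟩ := hE n ν v ℓ hP
  have pc : ∀ i, (fun i => dp (ν i) c) (i + n) = (fun i => dp (ν i) c) i := fun i => by
    simp only [hP.pν]
  have h1 := hBx c r (su ν z) (su_per hP hz)
  rw [hsym r _ _ (su_per hP hz) pc, B2_su hP hz r _ pc, h0, mul_zero] at h1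
  exact h1

/-- the same bound with `δ - h` instead of `η` -/
theorem test_body' (hE : Stmt_PEU) (hM : Stmt_PMI) (hP : Poly n ν v ℓ) (har : ar n v = 1)
    (hcen : ∀ g : R2, J0 n v (0, g) = 0) (δ θ : ℕ → ℝ) (hδ : ∀ i, δ (i + n) = δ i)
    (hS : ∑ i ∈ range n, ℓ i * δ i = 2) (hz : Cl n ν ℓ y z)
    (h0 : ∑ i ∈ range n, ℓ i * su ν z i = 0) (r : ℝ × R2) (hr : ∀ k, 0 ≤ af r (v k)) :
    AA n ν v ℓ δ θ r ≤ bt n ℓ δ θ * r.1 + dp r.2 (yy n v ℓ δ θ) -
      ∑ i ∈ range n, ℓ i * ((δ i - dp (ν i) (v i)) + su ν z i / 2) * fo v r y z i := by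
  have h1 := test_body hE hM hP har hcen δ θ hδ hS hz h0 r hr
  have h2 := sum_fo_nu hE hP hz h0 r (vc n v ℓ δ)
  have e1 : ∑ i ∈ range n, ℓ i * (et n ν v ℓ δ i + su ν z i / 2) * fo v r y z i =
      ∑ i ∈ range n, ℓ i * ((δ i - dp (ν i) (v i)) + su ν z i / 2) * fo v r y z i +
        ∑ i ∈ range n, ℓ i * dp (ν i) (vc n v ℓ δ) * fo v r y z i := by
    rw [← sum_add_distrib]
    refine sum_congr rfl fun i _ => ?_
    unfold et
    ring
  rw [e1, h2, add_zero] at h1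
  exact h1

/-- symmetry of the second variation for two polygons -/
lemma fo_symm (hE : Stmt_PEU) (hP : Poly n ν v ℓ) {y' : ℕ → ℝ} {z' : ℕ → R2}
    (hz : Cl n ν ℓ y z) (hz' : Cl n ν ℓ y' z') (r : ℝ × R2) :
    ∑ i ∈ range n, ℓ i * su ν z i * fo v r y' z' i =
      ∑ i ∈ range n, ℓ i * su ν z' i * fo v r y z i := by
  obtain ⟨-, -, -, -, -, hsym, -, -⟩ := hE n ν v ℓ hP
  rw [← B2_su hP hz' r _ (su_per hP hz), ← B2_su hP hz r _ (su_per hP hz')]
  exact hsym r _ _ (su_per hP hz) (su_per hP hz')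

/-- `F` itself is such a polygon -/
lemma cl_F (hP : Poly n ν v ℓ) : Cl n ν ℓ (fun _ => 1) v where
  pz := hP.pv
  ed i := by rw [hP.edge i, one_mul]

/-- linear combinations -/
lemma cl_comb {y' : ℕ → ℝ} {z' : ℕ → R2} (hz : Cl n ν ℓ y z) (hz' : Cl n ν ℓ y' z') (a b : ℝ) :
    Cl n ν ℓ (fun i => a * y i + b * y' i) (fun i => a • z i + b • z' i) where
  pz i := by rw [hz.pz, hz'.pz]
  ed i := by
    rw [hz.ed, hz'.ed]
    ext
    · simp only [Prod.fst_add, Prod.smul_fst, smul_eq_mul, rt]; ring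
    · simp only [Prod.snd_add, Prod.smul_snd, smul_eq_mul, rt]; ring

/-- translation -/
lemma cl_add (hz : Cl n ν ℓ y z) (c : R2) : Cl n ν ℓ y (fun i => z i + c) where
  pz i := by simp only [hz.pz]
  ed i := by simp only [hz.ed]; abel

/-- closed labels give a polygon -/
lemma exists_poly (hP : Poly n ν v ℓ) {x : ℕ → ℝ} (hx : ∀ i, x (i + n) = x i)
    (hc : ∑ i ∈ range n, (x i * ℓ i) • ν i = 0) : ∃ z : ℕ → R2, Cl n ν ℓ x z := by
  refine ⟨fun i => ∑ j ∈ range i, (x j * ℓ j) • rt (ν j), ?_, ?_⟩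
  · intro i
    have h0 : ∑ j ∈ range n, (x j * ℓ j) • rt (ν j) = 0 := by
      have h1 := congrArg Prod.fst hc
      have h2 := congrArg Prod.snd hc
      rw [Prod.fst_sum] at h1
      rw [Prod.snd_sum] at h2
      ext
      · rw [Prod.fst_sum]
        have : ∑ j ∈ range n, ((x j * ℓ j) • rt (ν j)).1 =
            -∑ j ∈ range n, ((x j * ℓ j) • ν j).2 := by
          rw [← sum_neg_distrib]
          exact sum_congr rfl fun j _ => by simp [rt]
        rw [this, h2]; simp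
      · rw [Prod.snd_sum]
        have : ∑ j ∈ range n, ((x j * ℓ j) • rt (ν j)).2 =
            ∑ j ∈ range n, ((x j * ℓ j) • ν j).1 :=
          sum_congr rfl fun j _ => by simp [rt]
        rw [this, h1]; rfl
    induction i with
    | zero => simp [h0]
    | succ k ih =>
      rw [show k + 1 + n = k + n + 1 by ring, sum_range_succ, sum_range_succ, ih, hx, hP.pℓ, hP.pν]
  · intro i
    rw [sum_range_succ]

/-- closed labels `x`: the polygon with labels `x - μ`, `μ` the mixed area of `F` and the polygon `x` -/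
theorem exists_body (hE : Stmt_PEU) (hP : Poly n ν v ℓ) (har : ar n v = 1) {x : ℕ → ℝ}
    (hx : ∀ i, x (i + n) = x i) (hc : ∑ i ∈ range n, (x i * ℓ i) • ν i = 0) :
    ∃ (μ : ℝ) (z : ℕ → R2), Cl n ν ℓ (fun i => x i - μ) z ∧
      μ = 1 / 2 * ∑ i ∈ range n, ℓ i * x i * dp (ν i) (v i) ∧
      ∑ i ∈ range n, ℓ i * su ν z i = 0 := by
  obtain ⟨z, hz⟩ := exists_poly hP hx hc
  set μ : ℝ := 1 / 2 * ∑ i ∈ range n, ℓ i * su ν z i with hμ
  refine ⟨μ, fun i => (1 : ℝ) • z i + (-μ) • v i, ?_, ?_, ?_⟩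
  · have h := cl_comb hz (cl_F hP) 1 (-μ)
    have e : (fun i => 1 * x i + -μ * 1) = fun i => x i - μ := by funext i; ring
    simp only [e] at h
    exact h
  · have h := fo_symm hE hP hz (cl_F hP) ((1, (0, 0)) : ℝ × R2)
    have e0 : ∀ q : R2, dp ((0, 0) : R2) q = 0 := fun q => by simp [dp]
    have e1 : ∀ q : R2, af ((1, (0, 0)) : ℝ × R2) q = 1 := fun q => by simp [af, dp]
    simp only [fo, e0, e1, add_zero, mul_one] at h
    rw [hμ, h]
    congr 1
    refine sum_congr rfl fun i _ => ?_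
    unfold su; ring
  · have hb := (hE n ν v ℓ hP).2.2.1 0
    rw [har] at hb
    have e : ∀ i, su ν (fun i => (1 : ℝ) • z i + (-μ) • v i) i =
        su ν z i + (-μ) * dp (ν i) (v i - 0) := by
      intro i
      unfold su
      rw [NRM.dp_add_right, NRM.dp_smul_right, NRM.dp_smul_right, sub_zero]; ring
    have : ∑ i ∈ range n, ℓ i * su ν (fun i => (1 : ℝ) • z i + (-μ) • v i) i =
        ∑ i ∈ range n, ℓ i * su ν z i + (-μ) * ∑ i ∈ range n, ℓ i * dp (ν i) (v i - 0) := by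
      rw [mul_sum, ← sum_add_distrib]
      exact sum_congr rfl fun i _ => by rw [e]; ring
    rw [this, hb, hμ]; ring

end TEST

end Pool.G1
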