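import Pool.Agent.Work.MP_b5407d_g1.Pl_TWOg

/-!
# G1, balanced case: the two-state statement in a gauge without `V` (`V* = k2 (B, T)`)

`Gauge1`: `V*` depends only on `B, T`; the multiplier `mu` of `c` is any function of `B, T, P_B, P_T`,
continuous in `P_T`.  `NEST_of_TWO1 : Stmt_TWO1 γ → Stmt_NEST L R`.  Instance `g1` (helper24, helper61):
`V* = σ/4`, `mu = -(2/σ)(P_T²/T + P_B²/B) + (2/(3σ²))(P_T - P_B)² - (T² + T B + B²)/6`.
Boundary states: a uniform load is added to both chains.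
-/

set_option autoImplicit false

open Finset Filter Topology

namespace Pool.G1.Gap

/-- `M = e - vs c` -/
noncomputable def eV (vs B T PB PT a p b q : ℝ) : ℝ := p + q - PB - PT - vs * (a + b - B - T)

/-- the two-state statement for fixed `B, T, P_B, P_T` and fixed numbers `vs`, `mu` -/
def TWat (B T PB PT vs mu : ℝ) : Prop :=
  ∀ a1 a2 b1 b2 m1 m2 p1 p2 q1 q2 : ℝ, B < a1 → a1 < a2 → a2 < T →
    B < b2 → b2 < b1 → b1 < T → 0 < m1 → 0 < m2 →
    m1 * eV vs B T PB PT a1 p1 b1 q1 + m2 * eV vs B T PB PT a2 p2 b2 q2 = 0 →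
    0 ≤ TWg mu B T a1 a2 b1 b2 m1 m2 PB PT p1 p2 q1 q2

/-- gauge with `V*` independent of the loads -/
structure Gauge1 where
  k2 : ℝ → ℝ → ℝ
  mu : ℝ → ℝ → ℝ → ℝ → ℝ
  cont : ∀ B T PB, Continuous fun x => mu B T PB x

/-- **the two-state statement** (strict data only) in the gauge `γ` -/
def Stmt_TWO1 (γ : Gauge1) : Prop :=
  ∀ B T PB PT : ℝ, 0 < B → B < T → TWat B T PB PT (γ.k2 B T) (γ.mu B T PB PT)

lemma CC_eqV (vs mu B T QR QL Pi ka lam al qa pa be qb pb : ℝ) :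
    CC B T QR QL Pi ka lam (mu - lam * vs) 0 al qa pa be qb pb =
    GM mu B T QR QL ka (ka + Pi) al qa (ka + pa) be qb (ka + pb) +
      lam * eV vs B T ka (ka + Pi) al (ka + pa) be (ka + pb) := by
  unfold CC GM eV
  ring

lemma GM_contA {B T : ℝ} {c r u κ ψ f g h k l m : ℝ → ℝ} {x : ℝ} (hc : ContinuousAt c x)
    (hr : ContinuousAt r x) (hu : ContinuousAt u x) (hκ : ContinuousAt κ x) (hψ : ContinuousAt ψ x)
    (hf : ContinuousAt f x) (hg : ContinuousAt g x)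
    (hh : ContinuousAt h x) (hk : ContinuousAt k x) (hl : ContinuousAt l x) (hm : ContinuousAt m x)
    (h0 : f x ≠ 0) (h1 : k x ≠ 0) :
    ContinuousAt (fun t => GM (c t) B T (r t) (u t) (κ t) (ψ t) (f t) (g t) (h t) (k t) (l t)
      (m t)) x := by
  unfold GM
  have t1 := Th_cont hf hh h0
  have t2 := Th_cont hk hm h1
  have t3 : ContinuousAt (fun t => 1 / 2 * ((g t + (u t - l t)) * ((T - f t) + (k t - B)) +
    ((r t - g t) + l t) * ((f t - B) + (T - k t)))) x := by fun_prop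
  have t5 : ContinuousAt (fun t => c t * (f t + k t - B - T)) x := by fun_prop
  have t6 : ContinuousAt (fun t => Th B (κ t)) x := by unfold Th; fun_prop
  have t7 : ContinuousAt (fun t => Th T (ψ t)) x := by unfold Th; fun_prop
  exact (t3.sub (((t1.sub t6).add t2).sub t7)).add t5

section
variable {B T Pi QR QL vs mu : ℝ} {P Q P' Q' : ℝ → ℝ}

lemma TW_le1 (L1 : Ld B T Pi QR P Q) (L2 : Ld B T Pi QL P' Q') (ka : ℝ)
    {a1 a2 b1 b2 m1 m2 : ℝ} (h1 : B < a1) (h2 : a1 < a2) (h3 : a2 < T)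
    (h4 : B < b2) (h5 : b2 < b1) (h6 : b1 < T) (hm1 : 0 ≤ m1) (hm2 : 0 ≤ m2) :
    TWg mu B T a1 a2 b1 b2 m1 m2 ka (ka + Pi) (ka + P a1) (ka + P a2) (ka + P' b1) (ka + P' b2) ≤
      m1 * GM mu B T QR QL ka (ka + Pi) a1 (Q a1) (ka + P a1) b1 (Q' b1) (ka + P' b1) +
      m2 * GM mu B T QR QL ka (ka + Pi) a2 (Q a2) (ka + P a2) b2 (Q' b2) (ka + P' b2) := by
  have e1 := L1.cs B a1 le_rfl h1 (by linarith)
  have e2 := L1.cs a1 a2 h1.le h2 h3.le
  have e3 := L1.cs a2 T (by linarith) h3 le_rfl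
  have f1 := L2.cs B b2 le_rfl h4 (by linarith)
  have f2 := L2.cs b2 b1 h4.le h5 h6.le
  have f3 := L2.cs b1 T (by linarith) h6 le_rfl
  rw [L1.P0, L1.Q0] at e1
  rw [L1.P1, L1.Q1] at e3
  rw [L2.P0, L2.Q0] at f1
  rw [L2.P1, L2.Q1] at f3
  have S1 : 0 ≤ (a1 - B) + (T - b1) := by linarith
  have S2 : 0 ≤ (a2 - B) + (T - b2) := by linarith
  have S1' : 0 ≤ 2 * (T - B) - ((a1 - B) + (T - b1)) := by linarith
  have S2' : 0 ≤ 2 * (T - B) - ((a2 - B) + (T - b2)) := by linarith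
  have n1 := mul_nonneg hm1 S1
  have n2 := mul_nonneg hm2 S2
  have n3 := mul_nonneg hm1 S1'
  have n4 := mul_nonneg hm2 S2'
  have W0 : 0 ≤ (m1 * (2 * (T - B) - ((a1 - B) + (T - b1))) +
    m2 * (2 * (T - B) - ((a2 - B) + (T - b2)))) / 2 := by linarith
  have W1 : 0 ≤ (m1 * ((a1 - B) + (T - b1)) + m2 * (2 * (T - B) - ((a2 - B) + (T - b2)))) / 2 := by
    linarith
  have W2 : 0 ≤ (m1 * ((a1 - B) + (T - b1)) + m2 * ((a2 - B) + (T - b2))) / 2 := by linarith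
  have g1 := mul_le_mul_of_nonneg_left e1 W0
  have g2 := mul_le_mul_of_nonneg_left e2 W1
  have g3 := mul_le_mul_of_nonneg_left e3 W2
  have g4 := mul_le_mul_of_nonneg_left f1 W2
  have g5 := mul_le_mul_of_nonneg_left f2 W1
  have g6 := mul_le_mul_of_nonneg_left f3 W0
  have k1 : ka + P a1 - ka = P a1 - 0 := by ring
  have k2 : ka + P a2 - (ka + P a1) = P a2 - P a1 := by ring
  have k3 : ka + Pi - (ka + P a2) = Pi - P a2 := by ring
  have k4 : ka + P' b2 - ka = P' b2 - 0 := by ring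
  have k5 : ka + P' b1 - (ka + P' b2) = P' b1 - P' b2 := by ring
  have k6 : ka + Pi - (ka + P' b1) = Pi - P' b1 := by ring
  unfold TWg GM
  rw [k1, k2, k3, k4, k5, k6]
  linarith

/-- a single interior state with `ê = 0` -/
lemma single_int1 {ka : ℝ} (h : TWat B T ka (ka + Pi) vs mu) (L1 : Ld B T Pi QR P Q)
    (L2 : Ld B T Pi QL P' Q') {al be : ℝ} (h1 : B < al) (h2 : al < T) (h3 : B < be) (h4 : be < T)
    (he : eV vs B T ka (ka + Pi) al (ka + P al) be (ka + P' be) = 0) :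
    0 ≤ GM mu B T QR QL ka (ka + Pi) al (Q al) (ka + P al) be (Q' be) (ka + P' be) := by
  obtain ⟨a2, ha1, ha2⟩ := exists_between h2
  obtain ⟨b2, hb1, hb2⟩ := exists_between h3
  obtain ⟨e2, he2⟩ : ∃ e2, e2 = eV vs B T ka (ka + Pi) a2 (ka + P a2) b2 (ka + P' b2) := ⟨_, rfl⟩
  have key : ∀ δ : ℝ, 0 < δ → 0 ≤ TWg mu B T al a2 be b2 1 δ ka (ka + Pi) (ka + P al) (ka + P a2)
      (ka + P' be - δ * e2) (ka + P' b2) := by
    intro δ hδ
    refine h al a2 be b2 1 δ (ka + P al) (ka + P a2) (ka + P' be - δ * e2)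
      (ka + P' b2) h1 ha1 ha2 hb1 hb2 h4 one_pos hδ ?_
    rw [← he2]
    have : eV vs B T ka (ka + Pi) al (ka + P al) be (ka + P' be - δ * e2) =
        eV vs B T ka (ka + Pi) al (ka + P al) be (ka + P' be) - δ * e2 := by unfold eV; ring
    rw [this, he]
    ring
  have hc : Continuous fun δ : ℝ => TWg mu B T al a2 be b2 1 δ ka (ka + Pi) (ka + P al) (ka + P a2)
      (ka + P' be - δ * e2) (ka + P' b2) := by
    unfold TWg Th
    fun_prop
  have hlim := (hc.tendsto 0).mono_left (nhdsWithin_le_nhds (s := Set.Ioi 0))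
  have h0 := ge_of_tendsto hlim (by filter_upwards [self_mem_nhdsWithin] with δ hδ using key δ hδ)
  have h5 := TW_le1 (mu := mu) L1 L2 ka (m1 := 1) (m2 := 0) h1 ha1 ha2 hb1 hb2 h4 zero_le_one le_rfl
  rw [zero_mul, sub_zero] at h0
  rw [zero_mul, one_mul, add_zero] at h5
  exact h0.trans h5


/-- adding a uniform load -/
lemma Ld_add (hB : 0 < B) (L1 : Ld B T Pi QR P Q) (δ : ℝ) :
    Ld B T (Pi + δ * ((T ^ 2 - B ^ 2) / 2)) (QR + 2 * δ * Pi + δ ^ 2 * ((T ^ 2 - B ^ 2) / 2))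
      (fun x => P x + δ * ((x ^ 2 - B ^ 2) / 2))
      (fun x => Q x + 2 * δ * P x + δ ^ 2 * ((x ^ 2 - B ^ 2) / 2)) := by
  have c1 := L1.cP
  have c2 := L1.cQ
  refine ⟨by fun_prop, by fun_prop, ?_, ?_, ?_, ?_, ?_⟩
  · simp only [L1.P0]; ring
  · simp only [L1.P0, L1.Q0]; ring
  · simp only [L1.P1]
  · simp only [L1.P1, L1.Q1]
  · intro u v hu huv hv
    have h1 := L1.cs u v hu huv hv
    have hY : 0 < (v ^ 2 - u ^ 2) / 2 := by nlinarith
    have e : (P v + δ * ((v ^ 2 - B ^ 2) / 2) - (P u + δ * ((u ^ 2 - B ^ 2) / 2))) ^ 2 /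
        ((v ^ 2 - u ^ 2) / 2) = (P v - P u) ^ 2 / ((v ^ 2 - u ^ 2) / 2) + 2 * δ * (P v - P u) +
          δ ^ 2 * ((v ^ 2 - u ^ 2) / 2) := by
      obtain ⟨Y, hYe⟩ : ∃ Y, Y = (v ^ 2 - u ^ 2) / 2 := ⟨_, rfl⟩
      have e1 : P v + δ * ((v ^ 2 - B ^ 2) / 2) - (P u + δ * ((u ^ 2 - B ^ 2) / 2)) =
          (P v - P u) + δ * Y := by rw [hYe]; ring
      rw [e1, ← hYe]
      rw [← hYe] at hY
      field_simp
      ring
    rw [e]
    linarith

/-- a single state with `M = 0` -/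
lemma single1 (γ : Gauge1) (h : Stmt_TWO1 γ) (hB : 0 < B) (hBT : B < T) (L1 : Ld B T Pi QR P Q)
    (L2 : Ld B T Pi QL P' Q') (ka : ℝ) {al be : ℝ} (h1 : B ≤ al) (h2 : al ≤ T) (h3 : B ≤ be)
    (h4 : be ≤ T) (he : eV (γ.k2 B T) B T ka (ka + Pi) al (ka + P al) be (ka + P' be) = 0) :
    0 ≤ GM (γ.mu B T ka (ka + Pi)) B T QR QL ka (ka + Pi) al (Q al) (ka + P al) be (Q' be)
      (ka + P' be) := by
  by_cases hint : (B < al ∧ al < T) ∧ (B < be ∧ be < T)
  · obtain ⟨⟨i1, i2⟩, i3, i4⟩ := hint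
    exact single_int1 (h B T ka (ka + Pi) hB hBT) L1 L2 i1 i2 i3 i4 he
  by_cases htr : (al = B ∧ be = T) ∨ (al = T ∧ be = B)
  · rcases htr with ⟨g1, g2⟩ | ⟨g1, g2⟩
    · rw [g1, g2, L1.Q0, L2.Q1, L1.P0, L2.P1]
      apply le_of_eq
      unfold GM
      rw [show B + T - B - T = 0 by ring]
      ring_nf
    · rw [g1, g2, L1.Q1, L2.Q0, L1.P1, L2.P0]
      apply le_of_eq
      unfold GM
      rw [show T + B - B - T = 0 by ring]
      ring_nf
  -- a nontrivial boundary state: move towards the centre, adding a uniform load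
  have hD : al ^ 2 + be ^ 2 - B ^ 2 - T ^ 2 ≠ 0 := by
    intro h0
    push Not at htr hint
    have sq1 : B ^ 2 ≤ al ^ 2 := by nlinarith
    have sq2 : B ^ 2 ≤ be ^ 2 := by nlinarith
    rcases h1.eq_or_lt with g1 | g1
    · have g2 : be ^ 2 = T ^ 2 := by rw [← g1] at h0; linarith
      have g3 : be = T := by nlinarith
      exact htr.1 g1.symm g3
    rcases h2.eq_or_lt with g2 | g2
    · have g3 : be ^ 2 = B ^ 2 := by rw [g2] at h0; linarith
      have g4 : be = B := by nlinarith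
      exact htr.2 g2 g4
    rcases h3.eq_or_lt with g3 | g3
    · have g4 : al ^ 2 = T ^ 2 := by rw [← g3] at h0; linarith
      have g5 : al = T := by nlinarith
      exact htr.2 g5 g3.symm
    have g4 := hint ⟨g1, g2⟩ g3
    have g5 : be = T := le_antisymm h4 g4
    have g6 : al ^ 2 = B ^ 2 := by rw [g5] at h0; linarith
    have g7 : al = B := by nlinarith
    exact htr.1 g7 g5
  obtain ⟨A, hA⟩ : ∃ A : ℝ → ℝ, A = fun ε => al + ε * ((B + T) / 2 - al) := ⟨_, rfl⟩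
  obtain ⟨A', hA'⟩ : ∃ A' : ℝ → ℝ, A' = fun ε => be + ε * ((B + T) / 2 - be) := ⟨_, rfl⟩
  obtain ⟨D, hDe⟩ : ∃ D : ℝ → ℝ, D = fun ε =>
    ((A ε) ^ 2 + (A' ε) ^ 2 - B ^ 2 - T ^ 2) / 2 := ⟨_, rfl⟩
  obtain ⟨δ, hδ⟩ : ∃ δ : ℝ → ℝ, δ = fun ε =>
    -(P (A ε) + P' (A' ε) - Pi - γ.k2 B T * (A ε + A' ε - B - T)) / D ε := ⟨_, rfl⟩
  have A0 : A 0 = al := by rw [hA]; ring
  have A0' : A' 0 = be := by rw [hA']; ring
  have D0 : D 0 ≠ 0 := by
    rw [hDe]; simp only; rw [A0, A0']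
    intro h0; apply hD; linarith
  have he' : P al + P' be - Pi - γ.k2 B T * (al + be - B - T) = 0 := by
    unfold eV at he; linarith
  have δ0 : δ 0 = 0 := by
    rw [hδ]; simp only; rw [A0, A0', he']; simp
  have cA : ContinuousAt A 0 := by rw [hA]; fun_prop
  have cA' : ContinuousAt A' 0 := by rw [hA']; fun_prop
  have cPA : ContinuousAt (fun ε => P (A ε)) 0 := L1.cP.continuousAt.comp cA
  have cQA : ContinuousAt (fun ε => Q (A ε)) 0 := L1.cQ.continuousAt.comp cA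
  have cPA' : ContinuousAt (fun ε => P' (A' ε)) 0 := L2.cP.continuousAt.comp cA'
  have cQA' : ContinuousAt (fun ε => Q' (A' ε)) 0 := L2.cQ.continuousAt.comp cA'
  have cD : ContinuousAt D 0 := by rw [hDe]; fun_prop
  have cδ : ContinuousAt δ 0 := by
    rw [hδ]
    have h6 : ContinuousAt (fun ε : ℝ =>
      -(P (A ε) + P' (A' ε) - Pi - γ.k2 B T * (A ε + A' ε - B - T))) 0 :=
      ((((cPA.add cPA').sub continuousAt_const).sub (continuousAt_const.mul
        (((cA.add cA').sub continuousAt_const).sub continuousAt_const)))).neg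
    exact h6.div cD D0
  have r1 : ContinuousAt (fun t => δ t * (((A t) ^ 2 - B ^ 2) / 2)) 0 := by fun_prop
  have r2 : ContinuousAt (fun t => δ t * (((A' t) ^ 2 - B ^ 2) / 2)) 0 := by fun_prop
  have r3 : ContinuousAt (fun t => (δ t) ^ 2 * (((A t) ^ 2 - B ^ 2) / 2)) 0 := by fun_prop
  have r4 : ContinuousAt (fun t => (δ t) ^ 2 * (((A' t) ^ 2 - B ^ 2) / 2)) 0 := by fun_prop
  have r5 : ContinuousAt (fun t => 2 * δ t) 0 := by fun_prop
  have s1 : ContinuousAt (fun t => ka + (P (A t) + δ t * (((A t) ^ 2 - B ^ 2) / 2))) 0 :=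
    continuousAt_const.add (cPA.add r1)
  have s2 : ContinuousAt (fun t => ka + (P' (A' t) + δ t * (((A' t) ^ 2 - B ^ 2) / 2))) 0 :=
    continuousAt_const.add (cPA'.add r2)
  have s3 : ContinuousAt (fun t => Q (A t) + 2 * δ t * P (A t) +
    (δ t) ^ 2 * (((A t) ^ 2 - B ^ 2) / 2)) 0 := (cQA.add (r5.mul cPA)).add r3
  have s4 : ContinuousAt (fun t => Q' (A' t) + 2 * δ t * P' (A' t) +
    (δ t) ^ 2 * (((A' t) ^ 2 - B ^ 2) / 2)) 0 := (cQA'.add (r5.mul cPA')).add r4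
  have s5 : ContinuousAt (fun t => ka + (Pi + δ t * ((T ^ 2 - B ^ 2) / 2))) 0 := by fun_prop
  have s6 : ContinuousAt (fun t => QR + 2 * δ t * Pi + (δ t) ^ 2 * ((T ^ 2 - B ^ 2) / 2)) 0 := by
    fun_prop
  have s7 : ContinuousAt (fun t => QL + 2 * δ t * Pi + (δ t) ^ 2 * ((T ^ 2 - B ^ 2) / 2)) 0 := by
    fun_prop
  have s8 : ContinuousAt (fun t => γ.mu B T ka (ka + (Pi + δ t * ((T ^ 2 - B ^ 2) / 2)))) 0 :=
    (γ.cont B T ka).continuousAt.comp s5
  have cG := GM_contA (B := B) (T := T) s8 s6 s7 (continuousAt_const (y := ka)) s5 cA s3 s1 cA' s4 s2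
    (by rw [A0]; linarith) (by rw [A0']; linarith)
  have cG2 := cG.tendsto.mono_left (nhdsWithin_le_nhds (s := Set.Ioi 0))
  rw [δ0, A0, A0'] at cG2
  have e1 : ∀ x y : ℝ, x + 2 * 0 * y + 0 ^ 2 * ((T ^ 2 - B ^ 2) / 2) = x := fun x y => by ring
  have e2 : ∀ x : ℝ, x + 0 * ((T ^ 2 - B ^ 2) / 2) = x := fun x => by ring
  have e3 : ∀ x y z : ℝ, x + 2 * 0 * y + 0 ^ 2 * ((z ^ 2 - B ^ 2) / 2) = x := fun x y z => by ring
  have e4 : ∀ x z : ℝ, x + 0 * ((z ^ 2 - B ^ 2) / 2) = x := fun x z => by ring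
  simp only [e3, e4] at cG2
  refine ge_of_tendsto cG2 ?_
  have ev : ∀ᶠ t : ℝ in 𝓝[>] 0, 0 < t ∧ t < 1 := by
    have := Ioo_mem_nhdsGT (one_pos : (0:ℝ) < 1)
    filter_upwards [this] with t ht using ht
  have evD : ∀ᶠ t : ℝ in 𝓝[>] 0, D t ≠ 0 :=
    (cD.eventually_ne D0).filter_mono nhdsWithin_le_nhds
  filter_upwards [ev, evD] with t ht hDt
  obtain ⟨t0, t1⟩ := ht
  have u1 : 0 < 1 - t := by linarith
  have v1 := mul_nonneg u1.le (by linarith : 0 ≤ al - B)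
  have v2 := mul_nonneg u1.le (by linarith : 0 ≤ T - al)
  have v3 := mul_nonneg u1.le (by linarith : 0 ≤ be - B)
  have v4 := mul_nonneg u1.le (by linarith : 0 ≤ T - be)
  have v5 := mul_pos t0 (by linarith : 0 < T - B)
  have w1 : B < A t := by rw [hA]; simp only; nlinarith
  have w2 : A t < T := by rw [hA]; simp only; nlinarith
  have w3 : B < A' t := by rw [hA']; simp only; nlinarith
  have w4 : A' t < T := by rw [hA']; simp only; nlinarith
  refine single_int1 (h B T ka _ hB hBT) (Ld_add hB L1 (δ t)) (Ld_add hB L2 (δ t)) w1 w2 w3 w4 ?_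
  have e5 : δ t * D t = -(P (A t) + P' (A' t) - Pi - γ.k2 B T * (A t + A' t - B - T)) := by
    rw [hδ]; simp only; exact div_mul_cancel₀ _ hDt
  have e6 : D t = ((A t) ^ 2 + (A' t) ^ 2 - B ^ 2 - T ^ 2) / 2 := by rw [hDe]
  rw [e6] at e5
  unfold eV
  linarith

/-- a nested pair of states with `ê` of opposite signs -/
lemma pair1 {ka : ℝ} (h : TWat B T ka (ka + Pi) vs mu) (hB : 0 < B) (hBT : B < T)
    (L1 : Ld B T Pi QR P Q) (L2 : Ld B T Pi QL P' Q') {a1 a2 b1 b2 : ℝ} (h1 : B ≤ a1) (h2 : a1 ≤ a2) (h3 : a2 ≤ T)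
    (h4 : B ≤ b2) (h5 : b2 ≤ b1) (h6 : b1 ≤ T)
    (he : eV vs B T ka (ka + Pi) a1 (ka + P a1) b1 (ka + P' b1) *
      eV vs B T ka (ka + Pi) a2 (ka + P a2) b2 (ka + P' b2) < 0) :
    0 ≤ |eV vs B T ka (ka + Pi) a2 (ka + P a2) b2 (ka + P' b2)| *
        GM mu B T QR QL ka (ka + Pi) a1 (Q a1) (ka + P a1) b1 (Q' b1) (ka + P' b1) +
      |eV vs B T ka (ka + Pi) a1 (ka + P a1) b1 (ka + P' b1)| *
        GM mu B T QR QL ka (ka + Pi) a2 (Q a2) (ka + P a2) b2 (Q' b2) (ka + P' b2) := by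
  obtain ⟨A1, hA1⟩ : ∃ A : ℝ → ℝ, A = fun ε => a1 + ε * ((2 * B + T) / 3 - a1) := ⟨_, rfl⟩
  obtain ⟨A2, hA2⟩ : ∃ A : ℝ → ℝ, A = fun ε => a2 + ε * ((B + 2 * T) / 3 - a2) := ⟨_, rfl⟩
  obtain ⟨B1, hB1⟩ : ∃ A : ℝ → ℝ, A = fun ε => b1 + ε * ((B + 2 * T) / 3 - b1) := ⟨_, rfl⟩
  obtain ⟨B2, hB2⟩ : ∃ A : ℝ → ℝ, A = fun ε => b2 + ε * ((2 * B + T) / 3 - b2) := ⟨_, rfl⟩
  have A10 : A1 0 = a1 := by rw [hA1]; ring
  have A20 : A2 0 = a2 := by rw [hA2]; ring
  have B10 : B1 0 = b1 := by rw [hB1]; ring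
  have B20 : B2 0 = b2 := by rw [hB2]; ring
  have cA1 : ContinuousAt A1 0 := by rw [hA1]; fun_prop
  have cA2 : ContinuousAt A2 0 := by rw [hA2]; fun_prop
  have cB1 : ContinuousAt B1 0 := by rw [hB1]; fun_prop
  have cB2 : ContinuousAt B2 0 := by rw [hB2]; fun_prop
  have pA1 : ContinuousAt (fun ε => ka + P (A1 ε)) 0 :=
    continuousAt_const.add (L1.cP.continuousAt.comp cA1)
  have pA2 : ContinuousAt (fun ε => ka + P (A2 ε)) 0 :=
    continuousAt_const.add (L1.cP.continuousAt.comp cA2)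
  have pB1 : ContinuousAt (fun ε => ka + P' (B1 ε)) 0 :=
    continuousAt_const.add (L2.cP.continuousAt.comp cB1)
  have pB2 : ContinuousAt (fun ε => ka + P' (B2 ε)) 0 :=
    continuousAt_const.add (L2.cP.continuousAt.comp cB2)
  have qA1 : ContinuousAt (fun ε => Q (A1 ε)) 0 := L1.cQ.continuousAt.comp cA1
  have qA2 : ContinuousAt (fun ε => Q (A2 ε)) 0 := L1.cQ.continuousAt.comp cA2
  have qB1 : ContinuousAt (fun ε => Q' (B1 ε)) 0 := L2.cQ.continuousAt.comp cB1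
  have qB2 : ContinuousAt (fun ε => Q' (B2 ε)) 0 := L2.cQ.continuousAt.comp cB2
  have G1 := GM_contA (B := B) (T := T) (continuousAt_const (y := mu)) (continuousAt_const (y := QR))
    (continuousAt_const (y := QL)) (continuousAt_const (y := ka)) (continuousAt_const (y := ka + Pi))
    cA1 qA1 pA1 cB1 qB1 pB1 (by rw [A10]; linarith) (by rw [B10]; linarith)
  have G2 := GM_contA (B := B) (T := T) (continuousAt_const (y := mu)) (continuousAt_const (y := QR))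
    (continuousAt_const (y := QL)) (continuousAt_const (y := ka)) (continuousAt_const (y := ka + Pi))
    cA2 qA2 pA2 cB2 qB2 pB2 (by rw [A20]; linarith) (by rw [B20]; linarith)
  have E1 : ContinuousAt (fun ε => eV vs B T ka (ka + Pi) (A1 ε) (ka + P (A1 ε)) (B1 ε)
      (ka + P' (B1 ε))) 0 := by unfold eV; fun_prop
  have E2 : ContinuousAt (fun ε => eV vs B T ka (ka + Pi) (A2 ε) (ka + P (A2 ε)) (B2 ε)
      (ka + P' (B2 ε))) 0 := by unfold eV; fun_prop
  have F0 : ContinuousAt (fun t =>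
      |eV vs B T ka (ka + Pi) (A2 t) (ka + P (A2 t)) (B2 t) (ka + P' (B2 t))| *
        GM mu B T QR QL ka (ka + Pi) (A1 t) (Q (A1 t)) (ka + P (A1 t)) (B1 t) (Q' (B1 t))
          (ka + P' (B1 t)) +
      |eV vs B T ka (ka + Pi) (A1 t) (ka + P (A1 t)) (B1 t) (ka + P' (B1 t))| *
        GM mu B T QR QL ka (ka + Pi) (A2 t) (Q (A2 t)) (ka + P (A2 t)) (B2 t) (Q' (B2 t))
          (ka + P' (B2 t))) 0 := (E2.abs.mul G1).add (E1.abs.mul G2)
  have F := F0.tendsto.mono_left (nhdsWithin_le_nhds (s := Set.Ioi 0))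
  have E12 : ContinuousAt (fun t => eV vs B T ka (ka + Pi) (A1 t) (ka + P (A1 t)) (B1 t)
      (ka + P' (B1 t)) * eV vs B T ka (ka + Pi) (A2 t) (ka + P (A2 t)) (B2 t) (ka + P' (B2 t))) 0 :=
    E1.mul E2
  have neg : ∀ᶠ t in 𝓝[>] (0:ℝ), eV vs B T ka (ka + Pi) (A1 t) (ka + P (A1 t)) (B1 t)
      (ka + P' (B1 t)) * eV vs B T ka (ka + Pi) (A2 t) (ka + P (A2 t)) (B2 t) (ka + P' (B2 t)) < 0 := by
    have h7 := E12.tendsto.eventually_lt_const (u := 0) (by
      simp only [A10, A20, B10, B20]; exact he)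
    exact h7.filter_mono nhdsWithin_le_nhds
  have R := ge_of_tendsto (b := (0:ℝ)) F (by
    have ev : ∀ᶠ t : ℝ in 𝓝[>] 0, 0 < t ∧ t < 1 := by
      have := Ioo_mem_nhdsGT (one_pos : (0:ℝ) < 1)
      filter_upwards [this] with t ht using ht
    filter_upwards [ev, neg] with t ht hn
    obtain ⟨t0, t1⟩ := ht
    have u1 : 0 < 1 - t := by linarith
    have v1 := mul_nonneg u1.le (by linarith : 0 ≤ a1 - B)
    have v2 := mul_nonneg u1.le (by linarith : 0 ≤ a2 - a1)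
    have v3 := mul_nonneg u1.le (by linarith : 0 ≤ T - a2)
    have v4 := mul_nonneg u1.le (by linarith : 0 ≤ b2 - B)
    have v5 := mul_nonneg u1.le (by linarith : 0 ≤ b1 - b2)
    have v6 := mul_nonneg u1.le (by linarith : 0 ≤ T - b1)
    have v7 := mul_pos t0 (by linarith : 0 < T - B)
    have w1 : B < A1 t := by rw [hA1]; simp only; nlinarith
    have w2 : A1 t < A2 t := by rw [hA1, hA2]; simp only; nlinarith
    have w3 : A2 t < T := by rw [hA2]; simp only; nlinarith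
    have w4 : B < B2 t := by rw [hB2]; simp only; nlinarith
    have w5 : B2 t < B1 t := by rw [hB1, hB2]; simp only; nlinarith
    have w6 : B1 t < T := by rw [hB1]; simp only; nlinarith
    have x1 : eV vs B T ka (ka + Pi) (A1 t) (ka + P (A1 t)) (B1 t) (ka + P' (B1 t)) ≠ 0 :=
      fun h0 => by rw [h0, zero_mul] at hn; exact lt_irrefl _ hn
    have x2 : eV vs B T ka (ka + Pi) (A2 t) (ka + P (A2 t)) (B2 t) (ka + P' (B2 t)) ≠ 0 :=
      fun h0 => by rw [h0, mul_zero] at hn; exact lt_irrefl _ hn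
    have y1 := abs_pos.mpr x1
    have y2 := abs_pos.mpr x2
    have k := TW_le1 (mu := mu) L1 L2 ka w1 w2 w3 w4 w5 w6 y2.le y1.le
    refine le_trans ?_ k
    refine h _ _ _ _ _ _ _ _ _ _ w1 w2 w3 w4 w5 w6 y2 y1 ?_
    rcases mul_neg_iff.mp hn with ⟨z1, z2⟩ | ⟨z1, z2⟩
    · rw [abs_of_pos z1, abs_of_neg z2]; ring
    · rw [abs_of_neg z1, abs_of_pos z2]; ring)
  simp only [A10, A20, B10, B20] at R
  exact R

end

/-- **reduction**: the two-state statement gives the one-dimensional statement for nested families -/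
theorem NEST_of_TWO1 (γ : Gauge1) (h : Stmt_TWO1 γ) (L R : ℝ) : Stmt_NEST L R := by
  intro B T a b y t z s hB hBT _ hy hz _ _ _ _ hbal ka _ _ _ _ S hS hN
  have L1 := Ld_of_chain hB hy t
  have L2 := Ld_of_chain hB hz s
  rw [← hbal] at L2
  have hQy : ∀ k, k ≤ a → PF y (fun i => (t i) ^ 2) a (y k) = QI y t k := fun k hk =>
    PF_node hy _ hk
  have hQz : ∀ k, k ≤ b → PF z (fun i => (s i) ^ 2) b (z k) = QI z s k := fun k hk =>
    PF_node hz _ hk
  have by1 : ∀ k, k ≤ a → B ≤ y k := fun k hk => by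
    have := hy.mono (Nat.zero_le k) hk; rwa [hy.y0] at this
  have by2 : ∀ k, k ≤ a → y k ≤ T := fun k hk => by
    have := hy.mono hk le_rfl; rwa [hy.ya] at this
  have bz1 : ∀ k, k ≤ b → B ≤ z k := fun k hk => by
    have := hz.mono (Nat.zero_le k) hk; rwa [hz.y0] at this
  have bz2 : ∀ k, k ≤ b → z k ≤ T := fun k hk => by
    have := hz.mono hk le_rfl; rwa [hz.ya] at this
  obtain ⟨lam, H⟩ := helly S
    (fun x => GM (γ.mu B T ka (ka + PI y t a)) B T (QI y t a) (QI z s b) ka (ka + PI y t a) (y x.1) (QI y t x.1)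
      (ka + PI y t x.1) (z x.2) (QI z s x.2) (ka + PI z s x.2))
    (fun x => eV (γ.k2 B T) B T ka (ka + PI y t a) (y x.1) (ka + PI y t x.1) (z x.2) (ka + PI z s x.2))
    (fun x hx he => by
      obtain ⟨k1, k2⟩ := hS x hx
      have := single1 γ h hB hBT L1 L2 ka (by1 _ k1) (by2 _ k1) (bz1 _ k2) (bz2 _ k2) (by
        rw [PF_node hy t k1, PF_node hz s k2]; exact he)
      rw [PF_node hy t k1, PF_node hz s k2, hQy _ k1, hQz _ k2] at this
      exact this)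
    (fun x hx x' hx' he => by
      obtain ⟨k1, k2⟩ := hS x hx
      obtain ⟨k3, k4⟩ := hS x' hx'
      rcases hN x hx x' hx' with ⟨n1, n2⟩ | ⟨n1, n2⟩
      · have := pair1 (h B T ka (ka + PI y t a) hB hBT) hB hBT L1 L2 (by1 _ k1) (hy.mono n1 k3) (by2 _ k3) (bz1 _ k4)
          (hz.mono n2 k2) (bz2 _ k2) (by
            rw [PF_node hy t k1, PF_node hz s k2, PF_node hy t k3, PF_node hz s k4]; exact he)
        rw [PF_node hy t k1, PF_node hz s k2, PF_node hy t k3, PF_node hz s k4, hQy _ k1, hQz _ k2,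
          hQy _ k3, hQz _ k4] at this
        exact this
      · have := pair1 (h B T ka (ka + PI y t a) hB hBT) hB hBT L1 L2 (by1 _ k3) (hy.mono n1 k1) (by2 _ k1) (bz1 _ k2)
          (hz.mono n2 k4) (bz2 _ k4) (by
            rw [PF_node hy t k1, PF_node hz s k2, PF_node hy t k3, PF_node hz s k4, mul_comm]
            exact he)
        rw [PF_node hy t k1, PF_node hz s k2, PF_node hy t k3, PF_node hz s k4, hQy _ k1, hQz _ k2,
          hQy _ k3, hQz _ k4] at this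
        rw [add_comm]
        exact this)
  refine ⟨lam, γ.mu B T ka (ka + PI y t a) - lam * γ.k2 B T, 0, fun x hx => ?_⟩
  rw [CC_eqV]
  exact H x hx

/-- the gauge of helper24 / helper61: `V* = σ/4` (NOTE: `Stmt_TWO1 g1` is FALSE, exact counterexample of
helper36 near the corner `B/σ → 1/2` with masses `1 : 10⁷`; kept only as an example),
`mu = -(2/σ)(P_T²/T + P_B²/B) + (2/(3σ²))(P_T - P_B)² - (T² + T B + B²)/6` -/
noncomputable def g1 : Gauge1 where
  k2 := fun B T => (B + T) / 4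
  mu := fun B T PB PT => -(2 / (B + T)) * (PT ^ 2 / T + PB ^ 2 / B) +
    2 / (3 * (B + T) ^ 2) * (PT - PB) ^ 2 - (T ^ 2 + T * B + B ^ 2) / 6
  cont := fun B T PB => by fun_prop

end Pool.G1.Gap
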