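import Pool.Agent.Work.MP_b5407d_g1.HUdef

/-!
# G1: Lemma (V) (unbalanced case of (S2+)), robust form

From the Euler relations, the weighted Minkowski inequality for `ρ = 1` and the hinge bound (H_u):
either one of the explicit functions `rk k = s_k + (2/3) q_k` satisfies `A ≤ 0`, or some nonnegative
combination `ρ` of them is balanced, `Σ θ_i (∫_{e_i} ρ) ν_i = 0`, and `A(ρ) > 0`.
-/

set_option autoImplicit false

open Finset

namespace Pool.G1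

/-- the functional of (S2+) -/
noncomputable def AA (n : ℕ) (ν v : ℕ → R2) (ℓ : ℕ → ℝ) (δ θ : ℕ → ℝ) (r : ℝ × R2) : ℝ :=
  T1 n v ℓ r δ θ - 2 * J1 n v ℓ r δ + 1 / 2 * J2 n ν v ℓ r δ + 2 * J0 n v r

/-- `q_k = 2 b_k - a_k`, i.e. `S q_k = 2 W_k S - 3 ∫ s_k` -/
noncomputable def qk (n : ℕ) (ν v : ℕ → R2) (W : ℕ → ℝ) (k : ℕ) : ℝ :=
  2 * W k - 3 * J0 n v (sk ν v (W k) k) / ar n v

/-- `ρ'_k = s_k + (2/3) q_k` -/
noncomputable def rk (n : ℕ) (ν v : ℕ → R2) (W : ℕ → ℝ) (k : ℕ) : ℝ × R2 :=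
  sk ν v (W k) k + (2 / 3 * qk n ν v W k) • ((1, (0, 0)) : ℝ × R2)

/-! ## linearity in `r` -/

lemma af_add (r r' : ℝ × R2) (x : R2) : af (r + r') x = af r x + af r' x := by
  simp only [af, dp, Prod.fst_add, Prod.snd_add]; ring

lemma af_smul (c : ℝ) (r : ℝ × R2) (x : R2) : af (c • r) x = c * af r x := by
  simp only [af, dp, Prod.smul_fst, Prod.smul_snd, smul_eq_mul]; ring

lemma EI_add (v : ℕ → R2) (ℓ : ℕ → ℝ) (r r' : ℝ × R2) (i : ℕ) :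
    EI v ℓ (r + r') i = EI v ℓ r i + EI v ℓ r' i := by
  simp only [EI, af_add]; ring

lemma EI_smul (v : ℕ → R2) (ℓ : ℕ → ℝ) (c : ℝ) (r : ℝ × R2) (i : ℕ) :
    EI v ℓ (c • r) i = c * EI v ℓ r i := by
  simp only [EI, af_smul]; ring

lemma EI_nonneg {v : ℕ → R2} {ℓ : ℕ → ℝ} {r : ℝ × R2} (hℓ : ∀ i, 0 < ℓ i)
    (hr : ∀ k, 0 ≤ af r (v k)) (i : ℕ) : 0 ≤ EI v ℓ r i := by
  unfold EI
  have := hr i; have := hr (i + 1); have := (hℓ i).le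
  positivity

lemma J0_add (n : ℕ) (v : ℕ → R2) (r r' : ℝ × R2) :
    J0 n v (r + r') = J0 n v r + J0 n v r' := by
  unfold J0
  rw [← sum_add_distrib]
  refine sum_congr rfl fun i _ => ?_
  rw [af_add, af_add, Prod.fst_add]; ring

lemma J0_smul (n : ℕ) (v : ℕ → R2) (c : ℝ) (r : ℝ × R2) :
    J0 n v (c • r) = c * J0 n v r := by
  unfold J0
  rw [mul_sum]
  refine sum_congr rfl fun i _ => ?_
  rw [af_smul, af_smul, Prod.smul_fst, smul_eq_mul]; ring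

lemma J1_add (n : ℕ) (v : ℕ → R2) (ℓ : ℕ → ℝ) (δ : ℕ → ℝ) (r r' : ℝ × R2) :
    J1 n v ℓ (r + r') δ = J1 n v ℓ r δ + J1 n v ℓ r' δ := by
  unfold J1
  rw [← sum_add_distrib]
  refine sum_congr rfl fun i _ => ?_
  rw [EI_add]; ring

lemma J1_smul (n : ℕ) (v : ℕ → R2) (ℓ : ℕ → ℝ) (δ : ℕ → ℝ) (c : ℝ) (r : ℝ × R2) :
    J1 n v ℓ (c • r) δ = c * J1 n v ℓ r δ := by
  unfold J1
  rw [mul_sum]
  refine sum_congr rfl fun i _ => ?_
  rw [EI_smul]; ring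

lemma T1_add (n : ℕ) (v : ℕ → R2) (ℓ : ℕ → ℝ) (δ θ : ℕ → ℝ) (r r' : ℝ × R2) :
    T1 n v ℓ (r + r') δ θ = T1 n v ℓ r δ θ + T1 n v ℓ r' δ θ := by
  unfold T1
  rw [← sum_add_distrib]
  refine sum_congr rfl fun i _ => ?_
  rw [EI_add]; ring

lemma T1_smul (n : ℕ) (v : ℕ → R2) (ℓ : ℕ → ℝ) (δ θ : ℕ → ℝ) (c : ℝ) (r : ℝ × R2) :
    T1 n v ℓ (c • r) δ θ = c * T1 n v ℓ r δ θ := by
  unfold T1
  rw [mul_sum]
  refine sum_congr rfl fun i _ => ?_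
  rw [EI_smul]; ring

lemma B2_add_r (n : ℕ) (ν v : ℕ → R2) (ℓ : ℕ → ℝ) (δ η : ℕ → ℝ) (r r' : ℝ × R2) :
    B2 n ν v ℓ (r + r') δ η = B2 n ν v ℓ r δ η + B2 n ν v ℓ r' δ η := by
  unfold B2
  rw [← sum_add_distrib]
  refine sum_congr rfl fun i _ => ?_
  rw [af_add, af_add, Prod.snd_add]
  simp only [dp, Prod.fst_add, Prod.snd_add]; ring

lemma B2_smul_r (n : ℕ) (ν v : ℕ → R2) (ℓ : ℕ → ℝ) (δ η : ℕ → ℝ) (c : ℝ) (r : ℝ × R2) :
    B2 n ν v ℓ (c • r) δ η = c * B2 n ν v ℓ r δ η := by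
  unfold B2
  rw [mul_sum]
  refine sum_congr rfl fun i _ => ?_
  rw [af_smul, af_smul, Prod.smul_snd]
  simp only [dp, Prod.smul_fst, Prod.smul_snd, smul_eq_mul]; ring

lemma B2_add_left (n : ℕ) (ν v : ℕ → R2) (ℓ : ℕ → ℝ) (r : ℝ × R2) (δ δ' η : ℕ → ℝ) :
    B2 n ν v ℓ r (fun i => δ i + δ' i) η = B2 n ν v ℓ r δ η + B2 n ν v ℓ r δ' η := by
  unfold B2
  rw [← sum_add_distrib]
  refine sum_congr rfl fun i _ => ?_
  ring

lemma AA_add (n : ℕ) (ν v : ℕ → R2) (ℓ : ℕ → ℝ) (δ θ : ℕ → ℝ) (r r' : ℝ × R2) :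
    AA n ν v ℓ δ θ (r + r') = AA n ν v ℓ δ θ r + AA n ν v ℓ δ θ r' := by
  unfold AA J2
  rw [T1_add, J1_add, B2_add_r, J0_add]; ring

lemma AA_smul (n : ℕ) (ν v : ℕ → R2) (ℓ : ℕ → ℝ) (δ θ : ℕ → ℝ) (c : ℝ) (r : ℝ × R2) :
    AA n ν v ℓ δ θ (c • r) = c * AA n ν v ℓ δ θ r := by
  unfold AA J2
  rw [T1_smul, J1_smul, B2_smul_r, J0_smul]; ring

lemma AA_zero (n : ℕ) (ν v : ℕ → R2) (ℓ : ℕ → ℝ) (δ θ : ℕ → ℝ) :
    AA n ν v ℓ δ θ 0 = 0 := by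
  have := AA_smul n ν v ℓ δ θ 0 0
  rw [zero_smul, zero_mul] at this; exact this

lemma EI_zero (v : ℕ → R2) (ℓ : ℕ → ℝ) (i : ℕ) : EI v ℓ 0 i = 0 := by
  have := EI_smul v ℓ 0 0 i
  rw [zero_smul, zero_mul] at this; exact this

lemma af_zero (x : R2) : af 0 x = 0 := by
  have := af_smul 0 0 x
  rw [zero_smul, zero_mul] at this; exact this

lemma AA_sum (n : ℕ) (ν v : ℕ → R2) (ℓ : ℕ → ℝ) (δ θ : ℕ → ℝ) (s : Finset ℕ) (c : ℕ → ℝ)
    (r : ℕ → ℝ × R2) :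
    AA n ν v ℓ δ θ (∑ k ∈ s, c k • r k) = ∑ k ∈ s, c k * AA n ν v ℓ δ θ (r k) := by
  classical
  induction s using Finset.induction_on with
  | empty => rw [sum_empty, sum_empty, AA_zero]
  | insert a s ha ih => rw [sum_insert ha, sum_insert ha, AA_add, AA_smul, ih]

lemma EI_sum (v : ℕ → R2) (ℓ : ℕ → ℝ) (s : Finset ℕ) (c : ℕ → ℝ) (r : ℕ → ℝ × R2) (i : ℕ) :
    EI v ℓ (∑ k ∈ s, c k • r k) i = ∑ k ∈ s, c k * EI v ℓ (r k) i := by
  classical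
  induction s using Finset.induction_on with
  | empty => rw [sum_empty, sum_empty, EI_zero]
  | insert a s ha ih => rw [sum_insert ha, sum_insert ha, EI_add, EI_smul, ih]

lemma af_sum (s : Finset ℕ) (c : ℕ → ℝ) (r : ℕ → ℝ × R2) (x : R2) :
    af (∑ k ∈ s, c k • r k) x = ∑ k ∈ s, c k * af (r k) x := by
  classical
  induction s using Finset.induction_on with
  | empty => rw [sum_empty, sum_empty, af_zero]
  | insert a s ha ih => rw [sum_insert ha, sum_insert ha, af_add, af_smul, ih]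

/-! ## values at `ρ = 1` -/

lemma J0_one (n : ℕ) (v : ℕ → R2) : J0 n v (1, (0, 0)) = ar n v := by
  unfold J0 ar
  refine sum_congr rfl fun i _ => ?_
  simp only [af, dp]; ring

lemma J1_one (n : ℕ) (v : ℕ → R2) (ℓ δ : ℕ → ℝ) :
    J1 n v ℓ (1, (0, 0)) δ = ∑ i ∈ range n, ℓ i * δ i := by
  unfold J1 EI
  refine sum_congr rfl fun i _ => ?_
  simp only [af, dp]; ring

/-! ## completing the square -/

lemma per_b {n : ℕ} {ν v : ℕ → R2} {ℓ : ℕ → ℝ} (hP : Poly n ν v ℓ) (x : R2) (i : ℕ) :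
    dp (ν (i + n)) (v (i + n) - x) = dp (ν i) (v i - x) := by
  rw [hP.pν, hP.pv]

lemma J2_shift (hE : Stmt_PEU) {n : ℕ} {ν v : ℕ → R2} {ℓ : ℕ → ℝ} (hP : Poly n ν v ℓ)
    (r : ℝ × R2) (δ : ℕ → ℝ) (hδ : ∀ i, δ (i + n) = δ i)
    (hS : ∑ i ∈ range n, ℓ i * δ i = 2 * ar n v) (x : R2) :
    J2 n ν v ℓ r δ =
      J2 n ν v ℓ r (fun i => δ i - dp (ν i) (v i - x)) + 4 * J1 n v ℓ r δ - 6 * J0 n v r := by
  obtain ⟨-, -, hb, hJb, -, hsym, hBb, -⟩ := hE n ν v ℓ hP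
  set b : ℕ → ℝ := fun i => dp (ν i) (v i - x) with hbdef
  set η : ℕ → ℝ := fun i => δ i - b i with hηdef
  have pb : ∀ i, b (i + n) = b i := fun i => per_b hP x i
  have pη : ∀ i, η (i + n) = η i := fun i => by simp only [hηdef, hδ, pb]
  have hdec : δ = fun i => η i + b i := by
    funext i; simp only [hηdef]; ring
  have h1 : B2 n ν v ℓ r δ δ = B2 n ν v ℓ r η δ + B2 n ν v ℓ r b δ := by
    conv_lhs => rw [show B2 n ν v ℓ r δ δ = B2 n ν v ℓ r (fun i => η i + b i) δ by rw [← hdec]]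
    rw [B2_add_left]
  have h2 : B2 n ν v ℓ r η δ = B2 n ν v ℓ r η η + B2 n ν v ℓ r b η := by
    rw [hsym r η δ pη hδ]
    rw [show B2 n ν v ℓ r δ η = B2 n ν v ℓ r (fun i => η i + b i) η by rw [← hdec]]
    rw [B2_add_left]
  have h3 : B2 n ν v ℓ r b η = B2 n ν v ℓ r η b := hsym r b η pb pη
  have h4 : B2 n ν v ℓ r b δ = B2 n ν v ℓ r δ b := hsym r b δ pb hδ
  have h5 := hBb x r η pη
  have h6 := hBb x r δ hδ
  have h7 : J1 n v ℓ r η = J1 n v ℓ r δ - (3 * J0 n v r - af r x * ar n v) := by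
    rw [← hJb x r]
    unfold J1
    rw [← sum_sub_distrib]
    refine sum_congr rfl fun i _ => ?_
    simp only [hηdef, hbdef]; ring
  have h8 : ∑ i ∈ range n, ℓ i * η i = 0 := by
    have : ∑ i ∈ range n, ℓ i * η i =
        ∑ i ∈ range n, ℓ i * δ i - ∑ i ∈ range n, ℓ i * dp (ν i) (v i - x) := by
      rw [← sum_sub_distrib]
      refine sum_congr rfl fun i _ => ?_
      simp only [hηdef, hbdef]; ring
    rw [this, hS, hb x]; ring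
  unfold J2
  rw [h1, h2, h3, h4]
  have h5' : B2 n ν v ℓ r η b = 2 * J1 n v ℓ r η - af r x * ∑ i ∈ range n, ℓ i * η i := h5
  have h6' : B2 n ν v ℓ r δ b = 2 * J1 n v ℓ r δ - af r x * ∑ i ∈ range n, ℓ i * δ i := h6
  rw [h5', h6', h8, h7, hS]; ring

/-- the point `p` with `Σ δ ∫_e ρ = 3 ∫ ρ - ρ(p) S` -/
lemma exists_pt {n : ℕ} {v : ℕ → R2} {ℓ : ℕ → ℝ} (hA : 0 < ar n v) (δ : ℕ → ℝ)
    (hS : ∑ i ∈ range n, ℓ i * δ i = 2 * ar n v) :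
    ∃ p : R2, ∀ r : ℝ × R2, J1 n v ℓ r δ = 3 * J0 n v r - af r p * ar n v := by
  refine ⟨((3 * J0 n v (0, (1, 0)) - J1 n v ℓ (0, (1, 0)) δ) / ar n v,
    (3 * J0 n v (0, (0, 1)) - J1 n v ℓ (0, (0, 1)) δ) / ar n v), fun r => ?_⟩
  have hr : r = r.1 • ((1, (0, 0)) : ℝ × R2) +
      (r.2.1 • ((0, (1, 0)) : ℝ × R2) + r.2.2 • ((0, (0, 1)) : ℝ × R2)) := by
    ext <;> simp
  have hJ1 : J1 n v ℓ r δ = r.1 * (2 * ar n v) +
      (r.2.1 * J1 n v ℓ (0, (1, 0)) δ + r.2.2 * J1 n v ℓ (0, (0, 1)) δ) := by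
    conv_lhs => rw [hr]
    rw [J1_add, J1_add, J1_smul, J1_smul, J1_smul, J1_one, hS]
  have hJ0 : J0 n v r = r.1 * ar n v +
      (r.2.1 * J0 n v (0, (1, 0)) + r.2.2 * J0 n v (0, (0, 1))) := by
    conv_lhs => rw [hr]
    rw [J0_add, J0_add, J0_smul, J0_smul, J0_smul, J0_one]
  rw [hJ1, hJ0]
  simp only [af, dp]
  field_simp
  ring

/-! ## Gordan's theorem in the plane -/

lemma gordan2 (n : ℕ) (E : ℕ → R2) :
    (∃ c : ℕ → ℝ, (∀ k, 0 ≤ c k) ∧ (∃ k, k < n ∧ 0 < c k) ∧ ∑ k ∈ range n, c k • E k = 0) ∨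
      (∃ w : R2, ∀ k, k < n → 0 < dp (E k) w) := by
  classical
  by_cases h : ∃ c : ℕ → ℝ, (∀ k, 0 ≤ c k) ∧ (∃ k, k < n ∧ 0 < c k) ∧
      ∑ k ∈ range n, c k • E k = 0
  · exact Or.inl h
  refine Or.inr ?_
  let L : (Fin n → ℝ) →ₗ[ℝ] R2 :=
    { toFun := fun c => ∑ k : Fin n, c k • E k
      map_add' := fun a b => by
        rw [← sum_add_distrib]; exact sum_congr rfl fun k _ => by rw [Pi.add_apply, add_smul]
      map_smul' := fun a b => by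
        rw [RingHom.id_apply, smul_sum]
        exact sum_congr rfl fun k _ => by rw [Pi.smul_apply, smul_eq_mul, mul_smul] }
  have hLc : Continuous L := LinearMap.continuous_of_finiteDimensional L
  have hK : IsCompact (L '' stdSimplex ℝ (Fin n)) := (isCompact_stdSimplex ℝ (Fin n)).image hLc
  have hC : Convex ℝ (L '' stdSimplex ℝ (Fin n)) := (convex_stdSimplex ℝ (Fin n)).linear_image L
  have h0 : (0 : R2) ∉ L '' stdSimplex ℝ (Fin n) := by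
    rintro ⟨c, hc, hL⟩
    apply h
    refine ⟨fun k => if hk : k < n then c ⟨k, hk⟩ else 0, ?_, ?_, ?_⟩
    · intro k
      by_cases hk : k < n
      · simp only [hk, dite_true]; exact hc.1 _
      · simp only [hk, dite_false]; exact le_refl _
    · by_contra hno
      have hz : ∀ k : Fin n, c k = 0 := by
        intro k
        by_contra hk
        apply hno
        refine ⟨k, k.2, ?_⟩
        simp only [k.2, dite_true]
        exact lt_of_le_of_ne (hc.1 k) (Ne.symm hk)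
      have hs := hc.2
      rw [sum_congr rfl fun k _ => hz k] at hs
      simp at hs
    · rw [sum_range (n := n)]
      have : L c = ∑ k : Fin n, c k • E k := rfl
      rw [this] at hL
      rw [← hL]
      refine sum_congr rfl fun k _ => ?_
      simp
  obtain ⟨f, u, hu, hf⟩ := geometric_hahn_banach_point_closed hC hK.isClosed h0
  rw [map_zero] at hu
  refine ⟨(f (1, 0), f (0, 1)), fun k hk => ?_⟩
  have hmem : E k ∈ L '' stdSimplex ℝ (Fin n) := by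
    refine ⟨Pi.single ⟨k, hk⟩ 1, single_mem_stdSimplex ℝ _, ?_⟩
    change ∑ j : Fin n, (Pi.single (⟨k, hk⟩ : Fin n) (1 : ℝ) : Fin n → ℝ) j • E j = E k
    rw [sum_eq_single (⟨k, hk⟩ : Fin n)]
    · rw [Pi.single_eq_same, one_smul]
    · intro j _ hj
      rw [Pi.single_eq_of_ne hj, zero_smul]
    · intro hno; exact absurd (mem_univ _) hno
  have hpos : 0 < f (E k) := hu.trans (hf _ hmem)
  have hdec : E k = (E k).1 • ((1, 0) : R2) + (E k).2 • ((0, 1) : R2) := by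
    ext <;> simp
  have : f (E k) = (E k).1 * f (1, 0) + (E k).2 * f (0, 1) := by
    conv_lhs => rw [hdec]
    rw [map_add, map_smul, map_smul, smul_eq_mul, smul_eq_mul]
  rw [this] at hpos
  simpa only [dp] using hpos

/-! ## the bounds -/

/-- `S D(ρ) = Σ δ_i (2/3 - θ_i) ∫_{e_i} ρ` -/
noncomputable def DD (n : ℕ) (v : ℕ → R2) (ℓ : ℕ → ℝ) (δ θ : ℕ → ℝ) (r : ℝ × R2) : ℝ :=
  ∑ i ∈ range n, δ i * (2 / 3 - θ i) * EI v ℓ r i

lemma DD_eq (n : ℕ) (v : ℕ → R2) (ℓ : ℕ → ℝ) (δ θ : ℕ → ℝ) (r : ℝ × R2) :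
    DD n v ℓ δ θ r = 2 / 3 * J1 n v ℓ r δ - T1 n v ℓ r δ θ := by
  unfold DD J1 T1
  rw [mul_sum, ← sum_sub_distrib]
  exact sum_congr rfl fun i _ => by ring

lemma DD_add (n : ℕ) (v : ℕ → R2) (ℓ : ℕ → ℝ) (δ θ : ℕ → ℝ) (r r' : ℝ × R2) :
    DD n v ℓ δ θ (r + r') = DD n v ℓ δ θ r + DD n v ℓ δ θ r' := by
  rw [DD_eq, DD_eq, DD_eq, J1_add, T1_add]; ring

lemma DD_smul (n : ℕ) (v : ℕ → R2) (ℓ : ℕ → ℝ) (δ θ : ℕ → ℝ) (c : ℝ) (r : ℝ × R2) :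
    DD n v ℓ δ θ (c • r) = c * DD n v ℓ δ θ r := by
  rw [DD_eq, DD_eq, J1_smul, T1_smul]; ring

/-- `η = δ - dist(p, .)` has vanishing first variation, for the point `p` of `exists_pt` -/
lemma J1_eta (hE : Stmt_PEU) {n : ℕ} {ν v : ℕ → R2} {ℓ : ℕ → ℝ} (hP : Poly n ν v ℓ)
    (δ : ℕ → ℝ) (p : R2)
    (hp : ∀ r : ℝ × R2, J1 n v ℓ r δ = 3 * J0 n v r - af r p * ar n v) (r : ℝ × R2) :
    J1 n v ℓ r (fun i => δ i - dp (ν i) (v i - p)) = 0 := by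
  obtain ⟨-, -, -, hJb, -⟩ := hE n ν v ℓ hP
  have h1 : J1 n v ℓ r (fun i => δ i - dp (ν i) (v i - p)) =
      J1 n v ℓ r δ - J1 n v ℓ r (fun i => dp (ν i) (v i - p)) := by
    unfold J1
    rw [← sum_sub_distrib]
    exact sum_congr rfl fun i _ => by ring
  rw [h1, hp r, hJb p r, sub_self]

lemma AA_sk_le (hE : Stmt_PEU) (hU : Stmt_HU) {n : ℕ} {ν v : ℕ → R2} {ℓ : ℕ → ℝ}
    (hP : Poly n ν v ℓ) (W : ℕ → ℝ) (hW1 : ∀ k j, dp (ν k) (v k - v j) ≤ W k)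
    (hW2 : ∀ k, ∃ j, dp (ν k) (v k - v j) = W k) (δ θ : ℕ → ℝ)
    (hδ : ∀ i, δ (i + n) = δ i) (hS : ∑ i ∈ range n, ℓ i * δ i = 2 * ar n v) (k : ℕ) :
    AA n ν v ℓ δ θ (sk ν v (W k) k) ≤
      2 / 3 * ar n v * δ k - DD n v ℓ δ θ (sk ν v (W k) k) -
        2 / 9 * (2 * W k * ar n v - 3 * J0 n v (sk ν v (W k) k)) := by
  have hA : 0 < ar n v := (hE n ν v ℓ hP).2.1
  obtain ⟨p, hp⟩ := exists_pt (ℓ := ℓ) hA δ hS
  have hη := J1_eta hE hP δ p hp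
  have pη : ∀ i, (fun i => δ i - dp (ν i) (v i - p)) (i + n) =
      (fun i => δ i - dp (ν i) (v i - p)) i := fun i => by
    change δ (i + n) - dp (ν (i + n)) (v (i + n) - p) = δ i - dp (ν i) (v i - p)
    rw [hδ, per_b hP]
  have h1 := hU n ν v ℓ hP k (W k) (hW1 k) (hW2 k) _ pη hη (-(1 / 3))
  have h2 := J2_shift hE hP (sk ν v (W k) k) δ hδ hS p
  have h3 := hp (sk ν v (W k) k)
  have h4 : af (sk ν v (W k) k) p = W k - dp (ν k) (v k - p) := by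
    simp only [af, sk, dp, Prod.fst_sub, Prod.snd_sub]; ring
  rw [h4] at h3
  unfold AA
  rw [DD_eq]
  rw [h2]
  have h1' : J2 n ν v ℓ (sk ν v (W k) k) (fun i => δ i - dp (ν i) (v i - p)) ≤
      -(4 * (-(1 / 3)) * ar n v * (δ k - dp (ν k) (v k - p))) +
        2 * (-(1 / 3)) ^ 2 * (2 * W k * ar n v - 3 * J0 n v (sk ν v (W k) k)) := h1
  nlinarith [h1', h3]

lemma q_nonneg (hE : Stmt_PEU) (hU : Stmt_HU) {n : ℕ} {ν v : ℕ → R2} {ℓ : ℕ → ℝ}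
    (hP : Poly n ν v ℓ) (W : ℕ → ℝ) (hW1 : ∀ k j, dp (ν k) (v k - v j) ≤ W k)
    (hW2 : ∀ k, ∃ j, dp (ν k) (v k - v j) = W k) (k : ℕ) : 0 ≤ qk n ν v W k := by
  have hA : 0 < ar n v := (hE n ν v ℓ hP).2.1
  have h1 := hU n ν v ℓ hP k (W k) (hW1 k) (hW2 k) (fun _ => 0) (fun _ => rfl)
    (fun r => by unfold J1; simp) 1
  have h2 : J2 n ν v ℓ (sk ν v (W k) k) (fun _ => 0) = 0 := by
    unfold J2 B2; simp
  rw [h2] at h1
  have h3 : 0 ≤ 2 * W k * ar n v - 3 * J0 n v (sk ν v (W k) k) := by linarith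
  have h4 : qk n ν v W k = (2 * W k * ar n v - 3 * J0 n v (sk ν v (W k) k)) / ar n v := by
    unfold qk; field_simp
  rw [h4]
  exact div_nonneg h3 hA.le

lemma AA_one_le (hE : Stmt_PEU) (hM : Stmt_PMI) {n : ℕ} {ν v : ℕ → R2} {ℓ : ℕ → ℝ}
    (hP : Poly n ν v ℓ) (δ θ : ℕ → ℝ)
    (hδ : ∀ i, δ (i + n) = δ i) (hS : ∑ i ∈ range n, ℓ i * δ i = 2 * ar n v) :
    AA n ν v ℓ δ θ (1, (0, 0)) ≤ 1 / 3 * ar n v - DD n v ℓ δ θ (1, (0, 0)) := by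
  have hb := (hE n ν v ℓ hP).2.2.1
  have h2 := J2_shift hE hP (1, (0, 0)) δ hδ hS 0
  have h3 : J2 n ν v ℓ (1, (0, 0)) (fun i => δ i - dp (ν i) (v i - 0)) ≤ 0 := by
    refine hM n ν v ℓ hP (1, (0, 0)) (fun k => ?_) _ (fun i => ?_) ?_
    · simp [af, dp]
    · rw [hδ, per_b hP]
    · have : ∑ i ∈ range n, ℓ i * (δ i - dp (ν i) (v i - 0)) =
          ∑ i ∈ range n, ℓ i * δ i - ∑ i ∈ range n, ℓ i * dp (ν i) (v i - 0) := by
        rw [← sum_sub_distrib]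
        exact sum_congr rfl fun i _ => by ring
      rw [this, hS, hb 0]; ring
  unfold AA
  rw [DD_eq, h2, J0_one, J1_one, hS]
  linarith

lemma AA_rk_le (hE : Stmt_PEU) (hM : Stmt_PMI) (hU : Stmt_HU) {n : ℕ} {ν v : ℕ → R2}
    {ℓ : ℕ → ℝ} (hP : Poly n ν v ℓ) (W : ℕ → ℝ) (hW1 : ∀ k j, dp (ν k) (v k - v j) ≤ W k)
    (hW2 : ∀ k, ∃ j, dp (ν k) (v k - v j) = W k) (δ θ : ℕ → ℝ)
    (hδ : ∀ i, δ (i + n) = δ i) (hS : ∑ i ∈ range n, ℓ i * δ i = 2 * ar n v) (k : ℕ) :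
    AA n ν v ℓ δ θ (rk n ν v W k) ≤
      2 / 3 * ar n v * δ k - DD n v ℓ δ θ (rk n ν v W k) := by
  have hA : 0 < ar n v := (hE n ν v ℓ hP).2.1
  have h1 := AA_sk_le hE hU hP W hW1 hW2 δ θ hδ hS k
  have h2 := AA_one_le hE hM hP δ θ hδ hS
  have h3 := q_nonneg hE hU hP W hW1 hW2 k
  have h4 : 2 * W k * ar n v - 3 * J0 n v (sk ν v (W k) k) = ar n v * qk n ν v W k := by
    unfold qk; field_simp
  rw [h4] at h1
  unfold rk
  rw [AA_add, AA_smul, DD_add, DD_smul]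
  have h5 : 2 / 3 * qk n ν v W k * AA n ν v ℓ δ θ (1, (0, 0)) ≤
      2 / 3 * qk n ν v W k * (1 / 3 * ar n v - DD n v ℓ δ θ (1, (0, 0))) :=
    mul_le_mul_of_nonneg_left h2 (by positivity)
  nlinarith [h1, h5]

lemma rk_nonneg (hE : Stmt_PEU) (hU : Stmt_HU) {n : ℕ} {ν v : ℕ → R2} {ℓ : ℕ → ℝ}
    (hP : Poly n ν v ℓ) (W : ℕ → ℝ) (hW1 : ∀ k j, dp (ν k) (v k - v j) ≤ W k)
    (hW2 : ∀ k, ∃ j, dp (ν k) (v k - v j) = W k) (k j : ℕ) :
    0 ≤ af (rk n ν v W k) (v j) := by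
  have h3 := q_nonneg hE hU hP W hW1 hW2 k
  unfold rk
  rw [af_add, af_smul]
  have h4 : af (sk ν v (W k) k) (v j) = W k - dp (ν k) (v k - v j) := by
    simp only [af, sk, dp, Prod.fst_sub, Prod.snd_sub]; ring
  have h5 : af ((1, (0, 0)) : ℝ × R2) (v j) = 1 := by simp [af, dp]
  rw [h4, h5]
  have := hW1 k j
  linarith

/-- some edge has `w . ν_k < 0` -/
lemma exists_neg (hE : Stmt_PEU) {n : ℕ} {ν v : ℕ → R2} {ℓ : ℕ → ℝ} (hP : Poly n ν v ℓ)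
    (w : R2) (hw : w ≠ 0) : ∃ k, k < n ∧ dp (ν k) w < 0 := by
  by_contra hno
  push Not at hno
  have hc := (hE n ν v ℓ hP).1
  have hs : ∑ i ∈ range n, ℓ i * dp (ν i) w = 0 := by
    have : ∑ i ∈ range n, ℓ i * dp (ν i) w = dp (∑ i ∈ range n, ℓ i • ν i) w := by
      unfold dp
      rw [Prod.fst_sum, Prod.snd_sum, sum_mul, sum_mul, ← sum_add_distrib]
      refine sum_congr rfl fun i _ => ?_
      simp only [Prod.smul_fst, Prod.smul_snd, smul_eq_mul]; ring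
    rw [this, hc]; simp [dp]
  have hz : ∀ i ∈ range n, ℓ i * dp (ν i) w = 0 :=
    (sum_eq_zero_iff_of_nonneg (fun i hi =>
      mul_nonneg (hP.pos i).le (hno i (mem_range.mp hi)))).mp hs
  have hn3 := hP.n3
  have h0 : dp (ν 0) w = 0 := by
    have := hz 0 (mem_range.mpr (by omega))
    exact (mul_eq_zero.mp this).resolve_left (hP.pos 0).ne'
  have h1 : dp (ν 1) w = 0 := by
    have := hz 1 (mem_range.mpr (by omega))
    exact (mul_eq_zero.mp this).resolve_left (hP.pos 1).ne'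
  have ht := hP.turn 0
  rw [zero_add] at ht
  apply hw
  have hc1 : cp (ν 0) (ν 1) * w.1 = 0 := by
    have : cp (ν 0) (ν 1) * w.1 = (ν 1).2 * dp (ν 0) w - (ν 0).2 * dp (ν 1) w := by
      unfold cp dp; ring
    rw [this, h0, h1]; ring
  have hc2 : cp (ν 0) (ν 1) * w.2 = 0 := by
    have : cp (ν 0) (ν 1) * w.2 = (ν 0).1 * dp (ν 1) w - (ν 1).1 * dp (ν 0) w := by
      unfold cp dp; ring
    rw [this, h0, h1]; ring
  ext
  · exact (mul_eq_zero.mp hc1).resolve_left ht.ne'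
  · exact (mul_eq_zero.mp hc2).resolve_left ht.ne'

/-- Lemma (V), robust form of helper61 and helper57. -/
def Stmt_V : Prop :=
  ∀ (n : ℕ) (ν v : ℕ → R2) (ℓ : ℕ → ℝ), Poly n ν v ℓ → ∀ W : ℕ → ℝ,
    (∀ k j, dp (ν k) (v k - v j) ≤ W k) → (∀ k, ∃ j, dp (ν k) (v k - v j) = W k) →
    ∀ δ θ : ℕ → ℝ, (∀ i, δ (i + n) = δ i) → (∀ i, 0 ≤ δ i) → (∀ i, θ i ≤ 2 / 3) →
    ∑ i ∈ range n, ℓ i * δ i = 2 * ar n v →
    (∀ k, 0 ≤ qk n ν v W k) ∧ (∀ k j, 0 ≤ af (rk n ν v W k) (v j)) ∧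
    ((∃ k, k < n ∧ AA n ν v ℓ δ θ (rk n ν v W k) ≤ 0) ∨
      ∃ c : ℕ → ℝ, (∀ k, 0 ≤ c k) ∧ (∃ k, k < n ∧ 0 < c k) ∧
        ∑ i ∈ range n, (θ i * EI v ℓ (∑ k ∈ range n, c k • rk n ν v W k) i) • ν i = 0 ∧
        0 < AA n ν v ℓ δ θ (∑ k ∈ range n, c k • rk n ν v W k))

theorem blk_V (hE : Stmt_PEU) (hM : Stmt_PMI) (hU : Stmt_HU) : Stmt_V := by
  intro n ν v ℓ hP W hW1 hW2 δ θ hδ hδ0 hθ hS
  refine ⟨q_nonneg hE hU hP W hW1 hW2, rk_nonneg hE hU hP W hW1 hW2, ?_⟩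
  have hA : 0 < ar n v := (hE n ν v ℓ hP).2.1
  by_cases hall : ∃ k, k < n ∧ AA n ν v ℓ δ θ (rk n ν v W k) ≤ 0
  · exact Or.inl hall
  refine Or.inr ?_
  push Not at hall
  rcases gordan2 n (fun k => ∑ i ∈ range n, (θ i * EI v ℓ (rk n ν v W k) i) • ν i) with
    ⟨c, hc0, hc1, hc2⟩ | ⟨w, hw⟩
  · refine ⟨c, hc0, hc1, ?_, ?_⟩
    · rw [← hc2]
      simp only [EI_sum, smul_sum]
      rw [sum_comm]
      refine sum_congr rfl fun i _ => ?_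
      rw [mul_sum, sum_smul]
      refine sum_congr rfl fun k _ => ?_
      rw [smul_smul]; congr 1; ring
    · rw [AA_sum]
      obtain ⟨k, hk, hck⟩ := hc1
      refine sum_pos' (fun j hj => mul_nonneg (hc0 j) (hall j (mem_range.mp hj)).le)
        ⟨k, mem_range.mpr hk, mul_pos hck (hall k hk)⟩
  · exfalso
    have hn3 := hP.n3
    have hw0 : w ≠ 0 := by
      rintro rfl
      have := hw 0 (by omega)
      simp [dp] at this
    obtain ⟨k0, hk0, hk0w⟩ := exists_neg hE hP w hw0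
    obtain ⟨k, hkm, hkmin⟩ := exists_min_image ((range n).filter fun k => dp (ν k) w < 0)
      (fun k => δ k / (-dp (ν k) w)) ⟨k0, mem_filter.mpr ⟨mem_range.mpr hk0, hk0w⟩⟩
    rw [mem_filter, mem_range] at hkm
    obtain ⟨hkn, hkw⟩ := hkm
    have hmin : ∀ i, i < n → dp (ν i) w < 0 → δ k * (-dp (ν i) w) ≤ δ i * (-dp (ν k) w) := by
      intro i hi hiw
      have := hkmin i (mem_filter.mpr ⟨mem_range.mpr hi, hiw⟩)
      rw [div_le_div_iff₀ (by linarith) (by linarith)] at this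
      exact this
    have hr := rk_nonneg hE hU hP W hW1 hW2 k
    have hEI : ∀ i, 0 ≤ EI v ℓ (rk n ν v W k) i := fun i => EI_nonneg hP.pos hr i
    -- the balance functional
    have hE1 : 0 < ∑ i ∈ range n, θ i * EI v ℓ (rk n ν v W k) i * dp (ν i) w := by
      have := hw k hkn
      have heq : dp (∑ i ∈ range n, (θ i * EI v ℓ (rk n ν v W k) i) • ν i) w =
          ∑ i ∈ range n, θ i * EI v ℓ (rk n ν v W k) i * dp (ν i) w := by
        unfold dp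
        rw [Prod.fst_sum, Prod.snd_sum, sum_mul, sum_mul, ← sum_add_distrib]
        refine sum_congr rfl fun i _ => ?_
        simp only [Prod.smul_fst, Prod.smul_snd, smul_eq_mul]; ring
      rw [← heq]; exact this
    have hE2 : ∑ i ∈ range n, dp (ν i) w * EI v ℓ (rk n ν v W k) i =
        dp (ν k) w * ar n v := by
      have := (hE n ν v ℓ hP).2.2.2.2.1 w (rk n ν v W k)
      have h2 : (rk n ν v W k).2 = ν k := by
        unfold rk sk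
        ext <;> simp
      rw [h2] at this
      exact this
    have hpt : ∀ i ∈ range n,
        δ k * ((-dp (ν i) w) * (2 / 3 - θ i) * EI v ℓ (rk n ν v W k) i) ≤
          (-dp (ν k) w) * (δ i * (2 / 3 - θ i) * EI v ℓ (rk n ν v W k) i) := by
      intro i hi
      have hi' := mem_range.mp hi
      have hnn : 0 ≤ (2 / 3 - θ i) * EI v ℓ (rk n ν v W k) i :=
        mul_nonneg (by linarith [hθ i]) (hEI i)
      by_cases hiw : dp (ν i) w < 0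
      · have := mul_le_mul_of_nonneg_right (hmin i hi' hiw) hnn
        nlinarith [this]
      · push Not at hiw
        have h1 : 0 ≤ δ k * dp (ν i) w * ((2 / 3 - θ i) * EI v ℓ (rk n ν v W k) i) :=
          mul_nonneg (mul_nonneg (hδ0 k) hiw) hnn
        have h2 : 0 ≤ (-dp (ν k) w) * δ i * ((2 / 3 - θ i) * EI v ℓ (rk n ν v W k) i) :=
          mul_nonneg (mul_nonneg (by linarith) (hδ0 i)) hnn
        nlinarith [h1, h2]
    have hsum := sum_le_sum hpt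
    rw [← mul_sum, ← mul_sum] at hsum
    have hL : ∑ i ∈ range n, (-dp (ν i) w) * (2 / 3 - θ i) * EI v ℓ (rk n ν v W k) i =
        -(2 / 3) * (dp (ν k) w * ar n v) +
          ∑ i ∈ range n, θ i * EI v ℓ (rk n ν v W k) i * dp (ν i) w := by
      rw [← hE2, mul_sum, ← sum_add_distrib]
      exact sum_congr rfl fun i _ => by ring
    have hDD : ∑ i ∈ range n, δ i * (2 / 3 - θ i) * EI v ℓ (rk n ν v W k) i =
        DD n v ℓ δ θ (rk n ν v W k) := rfl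
    rw [hL, hDD] at hsum
    have hle := AA_rk_le hE hM hU hP W hW1 hW2 δ θ hδ hS k
    have hpos := hall k hkn
    have hD : DD n v ℓ δ θ (rk n ν v W k) < 2 / 3 * ar n v * δ k := by linarith
    have h1 : (-dp (ν k) w) * DD n v ℓ δ θ (rk n ν v W k) <
        (-dp (ν k) w) * (2 / 3 * ar n v * δ k) :=
      mul_lt_mul_of_pos_left hD (by linarith)
    have h2 : 0 ≤ δ k * ∑ i ∈ range n, θ i * EI v ℓ (rk n ν v W k) i * dp (ν i) w :=
      mul_nonneg (hδ0 k) hE1.le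
    nlinarith [hsum, h1, h2]

/-! ## widths exist; (S2+) from Lemma (V) and the balanced case -/

lemma v_mod {n : ℕ} {ν v : ℕ → R2} {ℓ : ℕ → ℝ} (hP : Poly n ν v ℓ) (j : ℕ) :
    v j = v (j % n) := by
  have h : ∀ m i : ℕ, v (i + m * n) = v i := by
    intro m
    induction m with
    | zero => intro i; rw [Nat.zero_mul, Nat.add_zero]
    | succ m ih => intro i; rw [Nat.succ_mul, ← Nat.add_assoc, hP.pv, ih]
  conv_lhs => rw [← Nat.mod_add_div' j n]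
  rw [h]

lemma exists_W {n : ℕ} {ν v : ℕ → R2} {ℓ : ℕ → ℝ} (hP : Poly n ν v ℓ) :
    ∃ W : ℕ → ℝ, (∀ k j, dp (ν k) (v k - v j) ≤ W k) ∧
      (∀ k, ∃ j, dp (ν k) (v k - v j) = W k) := by
  have hn3 := hP.n3
  have hex : ∀ k, ∃ Wk : ℝ, (∀ j, dp (ν k) (v k - v j) ≤ Wk) ∧
      (∃ j, dp (ν k) (v k - v j) = Wk) := by
    intro k
    obtain ⟨j, -, hj⟩ := exists_max_image (range n) (fun j => dp (ν k) (v k - v j))
      ⟨0, mem_range.mpr (by omega)⟩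
    refine ⟨dp (ν k) (v k - v j), fun i => ?_, j, rfl⟩
    rw [v_mod hP i]
    exact hj (i % n) (mem_range.mpr (Nat.mod_lt _ (by omega)))
  choose W hW using hex
  exact ⟨W, fun k => (hW k).1, fun k => (hW k).2⟩

lemma rk_ne_zero {n : ℕ} {ν v : ℕ → R2} {ℓ : ℕ → ℝ} (hP : Poly n ν v ℓ) (W : ℕ → ℝ) (k : ℕ) :
    rk n ν v W k ≠ 0 := by
  intro h
  have h2 : (rk n ν v W k).2 = ν k := by
    unfold rk sk
    ext <;> simp
  rw [h] at h2
  have h3 := hP.unit k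
  rw [← h2] at h3
  simp [dp] at h3

/-- The balanced case: if a nonnegative combination `ρ` of the functions `rk k` is balanced, some affine
`r ≥ 0` has `A(r) ≤ 0` (in the intended application `r = ρ`). -/
def Stmt_BAL : Prop :=
  ∀ (n : ℕ) (ν v : ℕ → R2) (ℓ : ℕ → ℝ), Poly n ν v ℓ → ∀ W : ℕ → ℝ,
    (∀ k j, dp (ν k) (v k - v j) ≤ W k) → (∀ k, ∃ j, dp (ν k) (v k - v j) = W k) →
    ∀ δ θ : ℕ → ℝ, (∀ i, δ (i + n) = δ i) → (∀ i, θ (i + n) = θ i) → (∀ i, 0 ≤ δ i) →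
    (∀ i, 0 ≤ θ i) → (∀ i, θ i ≤ 2 / 3) → (∀ i, θ i * W i ≤ δ i) →
    ∑ i ∈ range n, ℓ i * δ i = 2 * ar n v →
    ∀ c : ℕ → ℝ, (∀ k, 0 ≤ c k) → (∃ k, k < n ∧ 0 < c k) →
    ∑ i ∈ range n, (θ i * EI v ℓ (∑ k ∈ range n, c k • rk n ν v W k) i) • ν i = 0 →
    0 < AA n ν v ℓ δ θ (∑ k ∈ range n, c k • rk n ν v W k) →
    ∃ r : ℝ × R2, r ≠ 0 ∧ (∀ k, 0 ≤ af r (v k)) ∧ AA n ν v ℓ δ θ r ≤ 0

theorem S2_of_V_BAL (hV : Stmt_V) (hB : Stmt_BAL) : Stmt_S2 := by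
  intro n ν v ℓ hP δ θ hδ hθ hδ0 hθ0 hθ2 hθW hS
  obtain ⟨W, hW1, hW2⟩ := exists_W hP
  obtain ⟨-, hr, h⟩ := hV n ν v ℓ hP W hW1 hW2 δ θ hδ hδ0 hθ2 hS
  rcases h with ⟨k, -, hk⟩ | ⟨c, hc0, hc1, hc2, hc3⟩
  · exact ⟨rk n ν v W k, rk_ne_zero hP W k, hr k, hk⟩
  · refine hB n ν v ℓ hP W hW1 hW2 δ θ hδ hθ hδ0 hθ0 hθ2 (fun i => ?_) hS c hc0 hc1 hc2 hc3
    obtain ⟨j, hj⟩ := hW2 i
    rw [← hj]
    exact hθW i j

end Pool.G1
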