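import Mathlib.Analysis.Normed.Order.Lattice
import Mathlib.Topology.Algebra.Order.Field
import Mathlib.Topology.Order.DenselyOrdered
import Mathlib.Tactic

/-!
# G1: a small kernel checker for polynomial 6x6 forms in three variables (matrix Bernstein)

Entries of the form are polynomials in three variables, given as nested coefficient lists.  On a box
`[lo/D, hi/D]^3` one substitutes `x = (lo + hi t) / (D (1 + t))`, `t ≥ 0`, clears denominators, and checks that
every coefficient matrix (in the three `t`'s) is positive semidefinite by a division-free elimination.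
-/

set_option autoImplicit false

namespace Pool.G1.ZB

/-! ## generic lists -/

/-- padded sum of lists -/
noncomputable def addG {α : Type} (f : α → α → α) (l : List α) : List α → List α :=
  List.rec (motive := fun _ => List α → List α) (fun m => m)
    (fun a l ih m => List.rec (motive := fun _ => List α) (a :: l) (fun b m' _ => f a b :: ih m') m) l

/-- map -/
noncomputable def mapG {α β : Type} (g : α → β) (l : List α) : List β :=
  List.rec (motive := fun _ => List β) [] (fun a _ ih => g a :: ih) l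

/-- evaluation of a coefficient list with coefficient evaluation `φ` -/
noncomputable def evG {α : Type} (φ : α → ℝ) (x : ℝ) : List α → ℝ
  | [] => 0
  | a :: l => φ a + x * evG φ x l

@[simp] lemma addG_nil {α : Type} (f : α → α → α) (m : List α) : addG f [] m = m := rfl
@[simp] lemma addG_cons_nil {α : Type} (f : α → α → α) (a : α) (l : List α) :
    addG f (a :: l) [] = a :: l := rfl
@[simp] lemma addG_cons {α : Type} (f : α → α → α) (a b : α) (l m : List α) :
    addG f (a :: l) (b :: m) = f a b :: addG f l m := rfl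
@[simp] lemma mapG_nil {α β : Type} (g : α → β) : mapG g [] = [] := rfl
@[simp] lemma mapG_cons {α β : Type} (g : α → β) (a : α) (l : List α) :
    mapG g (a :: l) = g a :: mapG g l := rfl
@[simp] lemma evG_nil {α : Type} (φ : α → ℝ) (x : ℝ) : evG φ x [] = 0 := rfl
@[simp] lemma evG_cons {α : Type} (φ : α → ℝ) (x : ℝ) (a : α) (l : List α) :
    evG φ x (a :: l) = φ a + x * evG φ x l := rfl

lemma evG_addG {α : Type} {φ : α → ℝ} {f : α → α → α} (hf : ∀ a b, φ (f a b) = φ a + φ b) (x : ℝ) :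
    ∀ l m : List α, evG φ x (addG f l m) = evG φ x l + evG φ x m := by
  intro l
  induction l with
  | nil => intro m; simp
  | cons a l ih =>
    intro m
    cases m with
    | nil => simp
    | cons b m => simp [hf, ih]; ring

lemma evG_mapG {α : Type} {φ : α → ℝ} {g : α → α} {c : ℝ} (hg : ∀ a, φ (g a) = c * φ a) (x : ℝ) :
    ∀ l : List α, evG φ x (mapG g l) = c * evG φ x l := by
  intro l
  induction l with
  | nil => simp
  | cons a l ih => simp [hg, ih]; ring

lemma continuous_evG {α X : Type} [TopologicalSpace X] {φ : X → α → ℝ} {x : X → ℝ}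
    (hφ : ∀ a, Continuous fun s => φ s a) (hx : Continuous x) :
    ∀ l : List α, Continuous fun s => evG (φ s) (x s) l := by
  intro l
  induction l with
  | nil => exact continuous_const
  | cons a l ih => exact (hφ a).add (hx.mul ih)

/-! ## the three levels -/

/-- evaluation of the three levels -/
noncomputable def e1 (x3 : ℝ) : List ℤ → ℝ := evG (fun a : ℤ => (a : ℝ)) x3
noncomputable def e2 (x2 x3 : ℝ) : List (List ℤ) → ℝ := evG (e1 x3) x2
noncomputable def e3 (x1 x2 x3 : ℝ) : List (List (List ℤ)) → ℝ := evG (e2 x2 x3) x1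

noncomputable def a1 : List ℤ → List ℤ → List ℤ := addG (fun a b => Int.add a b)
noncomputable def a2 : List (List ℤ) → List (List ℤ) → List (List ℤ) := addG a1
noncomputable def a3 : List (List (List ℤ)) → List (List (List ℤ)) → List (List (List ℤ)) := addG a2
noncomputable def s1 (c : ℤ) : List ℤ → List ℤ := mapG (fun a => Int.mul c a)
noncomputable def s2 (c : ℤ) : List (List ℤ) → List (List ℤ) := mapG (s1 c)
noncomputable def s3 (c : ℤ) : List (List (List ℤ)) → List (List (List ℤ)) := mapG (s2 c)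

lemma e1_a1 (x3 : ℝ) (l m : List ℤ) : e1 x3 (a1 l m) = e1 x3 l + e1 x3 m :=
  evG_addG (fun a b => by show ((a + b : ℤ) : ℝ) = _; push_cast; ring) x3 l m
lemma e2_a2 (x2 x3 : ℝ) (l m : List (List ℤ)) : e2 x2 x3 (a2 l m) = e2 x2 x3 l + e2 x2 x3 m :=
  evG_addG (e1_a1 x3) x2 l m
lemma e3_a3 (x1 x2 x3 : ℝ) (l m : List (List (List ℤ))) :
    e3 x1 x2 x3 (a3 l m) = e3 x1 x2 x3 l + e3 x1 x2 x3 m :=
  evG_addG (e2_a2 x2 x3) x1 l m
lemma e1_s1 (x3 : ℝ) (c : ℤ) (l : List ℤ) : e1 x3 (s1 c l) = c * e1 x3 l :=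
  evG_mapG (fun a => by show ((c * a : ℤ) : ℝ) = _; push_cast; ring) x3 l
lemma e2_s2 (x2 x3 : ℝ) (c : ℤ) (l : List (List ℤ)) : e2 x2 x3 (s2 c l) = c * e2 x2 x3 l :=
  evG_mapG (e1_s1 x3 c) x2 l
lemma e3_s3 (x1 x2 x3 : ℝ) (c : ℤ) (l : List (List (List ℤ))) :
    e3 x1 x2 x3 (s3 c l) = c * e3 x1 x2 x3 l :=
  evG_mapG (e2_s2 x2 x3 c) x1 l

/-! ## conversion to the Bernstein-like basis -/

/-- multiplication of a coefficient list (in `t`) by `lo + hi t`, with carry -/
noncomputable def mlG (lo hi : ℤ) (l : List ℤ) : ℤ → List ℤ :=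
  List.rec (motive := fun _ => ℤ → List ℤ) (fun c => [c])
    (fun a _ ih c => Int.add c (Int.mul lo a) :: ih (Int.mul hi a)) l

lemma mlG_ev (lo hi : ℤ) (t : ℝ) : ∀ (l : List ℤ) (c : ℤ),
    e1 t (mlG lo hi l c) = c + (lo + hi * t) * e1 t l := by
  intro l
  induction l with
  | nil => intro c; show evG _ t [c] = _; simp [e1]
  | cons a l ih =>
    intro c
    have h := ih (hi * a)
    have e : e1 t (mlG lo hi (a :: l) c) = ((c + lo * a : ℤ) : ℝ) + t * e1 t (mlG lo hi l (hi * a)) := rfl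
    have e' : e1 t (a :: l) = (a : ℝ) + t * e1 t l := rfl
    rw [e, h, e']
    push_cast
    ring

/-- the columns `X^k Y^(n-k)`, `X = lo + hi t`, `Y = D (1 + t)` -/
noncomputable def cols (lo hi D : ℤ) (n : ℕ) : List (List ℤ) :=
  Nat.rec (motive := fun _ => List (List ℤ)) [[1]]
    (fun _ ih => mlG D D (List.rec (motive := fun _ => List ℤ) [] (fun h _ _ => h) ih) 0 ::
      mapG (fun l => mlG lo hi l 0) ih) n

/-- conversion: `∑ a_k • col_k` -/
noncomputable def cvG {α : Type} (f : α → α → α) (s : ℤ → α → α) (l : List α) : List (List ℤ) → List α :=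
  List.rec (motive := fun _ => List (List ℤ) → List α) (fun _ => [])
    (fun a _ ih cs => List.rec (motive := fun _ => List α) []
      (fun c cs' _ => addG f (mapG (fun x => s x a) c) (ih cs')) cs) l

/-- `l` is not longer than `cs` -/
noncomputable def leB {α β : Type} (l : List α) : List β → Bool :=
  List.rec (motive := fun _ => List β → Bool) (fun _ => true)
    (fun _ _ ih cs => List.rec (motive := fun _ => Bool) false (fun _ cs' _ => ih cs') cs) l

/-- the columns are `w X^k Y^(n-k)` -/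
def Good (X Y t : ℝ) : ℕ → ℝ → List (List ℤ) → Prop
  | _, _, [] => False
  | 0, w, c :: cs => e1 t c = w ∧ cs = []
  | n + 1, w, c :: cs => e1 t c = w * Y ^ (n + 1) ∧ Good X Y t n (w * X) cs

lemma Good.map {X Y t : ℝ} {g : List ℤ → List ℤ} {c : ℝ} (hg : ∀ l, e1 t (g l) = c * e1 t l) :
    ∀ {n : ℕ} {w : ℝ} {cs : List (List ℤ)}, Good X Y t n w cs → Good X Y t n (c * w) (mapG g cs) := by
  intro n
  induction n with
  | zero =>
    intro w cs h
    cases cs with
    | nil => exact h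
    | cons a cs =>
      obtain ⟨h1, h2⟩ := h
      subst h2
      exact ⟨by rw [hg, h1], rfl⟩
  | succ n ih =>
    intro w cs h
    cases cs with
    | nil => exact h
    | cons a cs =>
      obtain ⟨h1, h2⟩ := h
      refine ⟨by rw [hg, h1]; ring, ?_⟩
      have := ih h2
      rwa [← mul_assoc] at this

lemma good_cols (lo hi D : ℤ) (t : ℝ) : ∀ n : ℕ,
    Good (lo + hi * t) (D * (1 + t)) t n 1 (cols lo hi D n) := by
  intro n
  induction n with
  | zero => exact ⟨by simp [e1], rfl⟩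
  | succ n ih =>
    have hm : Good (lo + hi * t) (D * (1 + t)) t n ((lo + hi * t) * 1)
        (mapG (fun l => mlG lo hi l 0) (cols lo hi D n)) :=
      Good.map (fun l => by rw [mlG_ev]; push_cast; ring) ih
    refine ⟨?_, by rw [mul_one] at hm; rw [one_mul]; exact hm⟩
    have hh : ∀ cs : List (List ℤ), Good (lo + hi * t) (D * (1 + t)) t n 1 cs →
        e1 t (List.rec (motive := fun _ => List ℤ) [] (fun h _ _ => h) cs) = (D * (1 + t)) ^ n := by
      intro cs hcs
      cases n with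
      | zero =>
        cases cs with
        | nil => exact hcs.elim
        | cons a cs => simpa using hcs.1
      | succ n =>
        cases cs with
        | nil => exact hcs.elim
        | cons a cs => simpa using hcs.1
    rw [mlG_ev]
    have h2 := hh _ ih
    have h3 : (List.rec (motive := fun _ => List ℤ) [] (fun h _ _ => h)
        (Nat.rec (motive := fun _ => List (List ℤ)) [[1]]
          (fun _ ih => mlG D D (List.rec (motive := fun _ => List ℤ) [] (fun h _ _ => h) ih) 0 ::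
            mapG (fun l => mlG lo hi l 0) ih) n)) =
        List.rec (motive := fun _ => List ℤ) [] (fun h _ _ => h) (cols lo hi D n) := rfl
    rw [h3, h2]
    push_cast
    ring

lemma cvG_ev {α : Type} {φ : α → ℝ} {f : α → α → α} {s : ℤ → α → α}
    (hf : ∀ a b, φ (f a b) = φ a + φ b) (hs : ∀ c a, φ (s c a) = c * φ a) {X Y t : ℝ} (hY : Y ≠ 0) :
    ∀ (l : List α) (cs : List (List ℤ)) (n : ℕ) (w : ℝ), Good X Y t n w cs → leB l cs = true →
      evG φ t (cvG f s l cs) = w * Y ^ n * evG φ (X / Y) l := by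
  have hmap : ∀ (a : α) (c : List ℤ), evG φ t (mapG (fun x => s x a) c) = e1 t c * φ a := by
    intro a c
    induction c with
    | nil => simp [e1]
    | cons x c ih =>
      have e' : e1 t (x :: c) = (x : ℝ) + t * e1 t c := rfl
      rw [e', mapG_cons, evG_cons, ih, hs]
      ring
  intro l
  induction l with
  | nil =>
    intro cs n w _ _
    show evG φ t [] = _
    simp
  | cons a l ih =>
    intro cs n w hG hl
    cases cs with
    | nil => exact absurd hl (by show ¬ (false = true); simp)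
    | cons c cs =>
      have hl' : leB l cs = true := hl
      have e : cvG f s (a :: l) (c :: cs) = addG f (mapG (fun x => s x a) c) (cvG f s l cs) := rfl
      rw [e, evG_addG hf, hmap, evG_cons]
      cases n with
      | zero =>
        obtain ⟨h1, h2⟩ := hG
        subst h2
        cases l with
        | nil =>
          have : evG φ t (cvG f s ([] : List α) []) = 0 := rfl
          rw [this, h1]
          simp
        | cons b l => exact absurd hl' (by show ¬ (false = true); simp)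
      | succ n =>
        obtain ⟨h1, h2⟩ := hG
        rw [h1, ih cs n (w * X) h2 hl']
        have : (w * X) * Y ^ n * evG φ (X / Y) l = w * Y ^ (n + 1) * (X / Y * evG φ (X / Y) l) := by
          field_simp
          ring
        rw [this]
        ring

/-! ## gathering -/

/-- all lists empty -/
noncomputable def allE {α : Type} (Ls : List (List α)) : Bool :=
  List.rec (motive := fun _ => Bool) true
    (fun l _ ih => List.rec (motive := fun _ => Bool) ih (fun _ _ _ => false) l) Ls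

/-- heads with default -/
noncomputable def hds {α : Type} (d : α) (Ls : List (List α)) : List α :=
  mapG (fun l => List.rec (motive := fun _ => α) d (fun a _ _ => a) l) Ls

/-- tails -/
noncomputable def tls {α : Type} (Ls : List (List α)) : List (List α) :=
  mapG (fun l => List.rec (motive := fun _ => List α) [] (fun _ m _ => m) l) Ls

/-- check all coefficients with `f` -/
noncomputable def chk {α : Type} (d : α) (f : List α → Bool) (n : ℕ) : List (List α) → Bool :=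
  Nat.rec (motive := fun _ => List (List α) → Bool) (fun Ls => allE Ls)
    (fun _ ih Ls => cond (f (hds d Ls)) (ih (tls Ls)) false) n

/-- weighted sum of evaluations -/
noncomputable def dotG {α : Type} (φ : α → ℝ) : List ℝ → List α → ℝ
  | w :: ws, a :: l => w * φ a + dotG φ ws l
  | _, _ => 0

lemma dotG_hd_tl {α : Type} {φ : α → ℝ} {d : α} (hd : φ d = 0) (t : ℝ) : ∀ (ws : List ℝ) (Ls : List (List α)),
    dotG (evG φ t) ws Ls = dotG φ ws (hds d Ls) + t * dotG (evG φ t) ws (tls Ls) := by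
  intro ws
  induction ws with
  | nil => intro Ls; simp [dotG]
  | cons w ws ih =>
    intro Ls
    cases Ls with
    | nil => simp [dotG, hds, tls]
    | cons l Ls =>
      have e1' : hds d (l :: Ls) =
        List.rec (motive := fun _ => α) d (fun a _ _ => a) l :: hds d Ls := rfl
      have e2' : tls (l :: Ls) =
        List.rec (motive := fun _ => List α) [] (fun _ m _ => m) l :: tls Ls := rfl
      rw [e1', e2']
      cases l with
      | nil =>
        show w * evG φ t [] + dotG (evG φ t) ws Ls = (w * φ d + dotG φ ws (hds d Ls)) +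
          t * (w * evG φ t [] + dotG (evG φ t) ws (tls Ls))
        rw [ih, hd]
        simp only [evG_nil]
        ring
      | cons a l =>
        show w * evG φ t (a :: l) + dotG (evG φ t) ws Ls = (w * φ a + dotG φ ws (hds d Ls)) +
          t * (w * evG φ t l + dotG (evG φ t) ws (tls Ls))
        rw [ih, evG_cons]
        ring

lemma dotG_allE {α : Type} (φ : α → ℝ) (t : ℝ) : ∀ (ws : List ℝ) (Ls : List (List α)),
    allE Ls = true → dotG (evG φ t) ws Ls = 0 := by
  intro ws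
  induction ws with
  | nil => intro Ls _; simp [dotG]
  | cons w ws ih =>
    intro Ls h
    cases Ls with
    | nil => simp [dotG]
    | cons l Ls =>
      cases l with
      | nil =>
        have h' : allE Ls = true := h
        show w * evG φ t [] + dotG (evG φ t) ws Ls = 0
        rw [ih Ls h']; simp
      | cons a l => exact absurd h (by show ¬ (false = true); simp)

lemma chk_sound {α : Type} {φ : α → ℝ} {d : α} (hd : φ d = 0) {f : List α → Bool} {ws : List ℝ}
    (hf : ∀ l, f l = true → 0 ≤ dotG φ ws l) {t : ℝ} (ht : 0 ≤ t) : ∀ (n : ℕ) (Ls : List (List α)),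
    chk d f n Ls = true → 0 ≤ dotG (evG φ t) ws Ls := by
  intro n
  induction n with
  | zero =>
    intro Ls h
    rw [dotG_allE φ t ws Ls h]
  | succ n ih =>
    intro Ls h
    have h' : cond (f (hds d Ls)) (chk d f n (tls Ls)) false = true := h
    cases hb : f (hds d Ls) with
    | false => rw [hb] at h'; exact absurd h' (by simp)
    | true =>
      rw [hb] at h'
      rw [dotG_hd_tl hd t]
      exact add_nonneg (hf _ hb) (mul_nonneg ht (ih _ h'))

/-! ## positive semidefinite check -/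

/-- zero test -/
noncomputable def isZ (a : ℤ) : Bool :=
  Int.rec (motive := fun _ => Bool) (fun n => Nat.beq n 0) (fun _ => false) a
/-- positivity test -/
noncomputable def isP (a : ℤ) : Bool :=
  Int.rec (motive := fun _ => Bool) (fun n => Nat.blt 0 n) (fun _ => false) a

lemma isZ_eq {a : ℤ} (h : isZ a = true) : (a : ℝ) = 0 := by
  cases a with
  | ofNat n =>
    have h' : Nat.beq n 0 = true := h
    have : n = 0 := Nat.eq_of_beq_eq_true h'
    subst this; simp
  | negSucc n => exact absurd h (by show ¬ (false = true); simp)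

lemma isP_pos {a : ℤ} (h : isP a = true) : (0 : ℝ) < a := by
  cases a with
  | ofNat n =>
    have h' : Nat.blt 0 n = true := h
    have : 0 < n := by simpa [Nat.blt_eq] using h'
    simpa using this
  | negSucc n => exact absurd h (by show ¬ (false = true); simp)

lemma cnd {a b : Bool} (h : cond a b false = true) : a = true ∧ b = true := by
  cases a <;> simp_all

lemma isub (a b : ℤ) : Int.sub a b = a - b := rfl
lemma imul (a b : ℤ) : Int.mul a b = a * b := rfl

/-- 1x1 -/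
noncomputable def p1 (m00 : ℤ) : Bool := cond (isZ m00) true (isP m00)

lemma p1_sound {m00 : ℤ} (h : p1 m00 = true) (z0 : ℝ) : 0 ≤ m00 * z0 ^ 2 := by
  unfold p1 at h
  cases hz : isZ m00 with
  | true => rw [isZ_eq hz]; simp
  | false =>
    rw [hz] at h
    have h1 : isP m00 = true := h
    have := isP_pos h1
    positivity

/-- 2x2 -/
noncomputable def p2 (m00 m01 m11 : ℤ) : Bool :=
  cond (isZ m00) (cond (isZ m01) (p1 m11) false)
    (cond (isP m00) (p1 (Int.sub (Int.mul m00 m11) (Int.mul m01 m01))) false)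

lemma p2_sound {m00 m01 m11 : ℤ} (h : p2 m00 m01 m11 = true) (z0 z1 : ℝ) :
    0 ≤ m00 * z0 ^ 2 + m11 * z1 ^ 2 + 2 * (m01 * (z0 * z1)) := by
  unfold p2 at h
  cases hz : isZ m00 with
  | true =>
    rw [hz, cond_true] at h
    obtain ⟨hz1, h⟩ := cnd h
    have e := p1_sound h z1
    rw [isZ_eq hz, isZ_eq hz1]
    linarith
  | false =>
    rw [hz, cond_false] at h
    obtain ⟨hp, h⟩ := cnd h
    have hm := isP_pos hp
    have e := p1_sound h z1
    simp only [isub, imul, Int.cast_sub, Int.cast_mul] at e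
    have e2 : (m00 : ℝ) * (m00 * z0 ^ 2 + m11 * z1 ^ 2 + 2 * (m01 * (z0 * z1))) = (m00 * z0 + m01 * z1) ^ 2 + (((m00 : ℝ) * m11 - m01 * m01) * z1 ^ 2) := by ring
    refine nonneg_of_mul_nonneg_right (a := (m00 : ℝ)) ?_ hm
    rw [e2]
    exact add_nonneg (sq_nonneg _) e

/-- 3x3 -/
noncomputable def p3 (m00 m01 m02 m11 m12 m22 : ℤ) : Bool :=
  cond (isZ m00) (cond (isZ m01) (cond (isZ m02) (p2 m11 m12 m22) false) false)
    (cond (isP m00) (p2 (Int.sub (Int.mul m00 m11) (Int.mul m01 m01)) (Int.sub (Int.mul m00 m12) (Int.mul m01 m02)) (Int.sub (Int.mul m00 m22) (Int.mul m02 m02))) false)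

lemma p3_sound {m00 m01 m02 m11 m12 m22 : ℤ} (h : p3 m00 m01 m02 m11 m12 m22 = true) (z0 z1 z2 : ℝ) :
    0 ≤ m00 * z0 ^ 2 + m11 * z1 ^ 2 + m22 * z2 ^ 2 + 2 * (m01 * (z0 * z1) + m02 * (z0 * z2) + m12 * (z1 * z2)) := by
  unfold p3 at h
  cases hz : isZ m00 with
  | true =>
    rw [hz, cond_true] at h
    obtain ⟨hz1, h⟩ := cnd h
    obtain ⟨hz2, h⟩ := cnd h
    have e := p2_sound h z1 z2
    rw [isZ_eq hz, isZ_eq hz1, isZ_eq hz2]
    linarith
  | false =>
    rw [hz, cond_false] at h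
    obtain ⟨hp, h⟩ := cnd h
    have hm := isP_pos hp
    have e := p2_sound h z1 z2
    simp only [isub, imul, Int.cast_sub, Int.cast_mul] at e
    have e2 : (m00 : ℝ) * (m00 * z0 ^ 2 + m11 * z1 ^ 2 + m22 * z2 ^ 2 + 2 * (m01 * (z0 * z1) + m02 * (z0 * z2) + m12 * (z1 * z2))) = (m00 * z0 + m01 * z1 + m02 * z2) ^ 2 + (((m00 : ℝ) * m11 - m01 * m01) * z1 ^ 2 + ((m00 : ℝ) * m22 - m02 * m02) * z2 ^ 2 + 2 * (((m00 : ℝ) * m12 - m01 * m02) * (z1 * z2))) := by ring
    refine nonneg_of_mul_nonneg_right (a := (m00 : ℝ)) ?_ hm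
    rw [e2]
    exact add_nonneg (sq_nonneg _) e

/-- 4x4 -/
noncomputable def p4 (m00 m01 m02 m03 m11 m12 m13 m22 m23 m33 : ℤ) : Bool :=
  cond (isZ m00) (cond (isZ m01) (cond (isZ m02) (cond (isZ m03) (p3 m11 m12 m13 m22 m23 m33) false) false) false)
    (cond (isP m00) (p3 (Int.sub (Int.mul m00 m11) (Int.mul m01 m01)) (Int.sub (Int.mul m00 m12) (Int.mul m01 m02)) (Int.sub (Int.mul m00 m13) (Int.mul m01 m03)) (Int.sub (Int.mul m00 m22) (Int.mul m02 m02)) (Int.sub (Int.mul m00 m23) (Int.mul m02 m03)) (Int.sub (Int.mul m00 m33) (Int.mul m03 m03))) false)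

lemma p4_sound {m00 m01 m02 m03 m11 m12 m13 m22 m23 m33 : ℤ} (h : p4 m00 m01 m02 m03 m11 m12 m13 m22 m23 m33 = true) (z0 z1 z2 z3 : ℝ) :
    0 ≤ m00 * z0 ^ 2 + m11 * z1 ^ 2 + m22 * z2 ^ 2 + m33 * z3 ^ 2 + 2 * (m01 * (z0 * z1) + m02 * (z0 * z2) + m03 * (z0 * z3) + m12 * (z1 * z2) + m13 * (z1 * z3) + m23 * (z2 * z3)) := by
  unfold p4 at h
  cases hz : isZ m00 with
  | true =>
    rw [hz, cond_true] at h
    obtain ⟨hz1, h⟩ := cnd h
    obtain ⟨hz2, h⟩ := cnd h
    obtain ⟨hz3, h⟩ := cnd h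
    have e := p3_sound h z1 z2 z3
    rw [isZ_eq hz, isZ_eq hz1, isZ_eq hz2, isZ_eq hz3]
    linarith
  | false =>
    rw [hz, cond_false] at h
    obtain ⟨hp, h⟩ := cnd h
    have hm := isP_pos hp
    have e := p3_sound h z1 z2 z3
    simp only [isub, imul, Int.cast_sub, Int.cast_mul] at e
    have e2 : (m00 : ℝ) * (m00 * z0 ^ 2 + m11 * z1 ^ 2 + m22 * z2 ^ 2 + m33 * z3 ^ 2 + 2 * (m01 * (z0 * z1) + m02 * (z0 * z2) + m03 * (z0 * z3) + m12 * (z1 * z2) + m13 * (z1 * z3) + m23 * (z2 * z3))) = (m00 * z0 + m01 * z1 + m02 * z2 + m03 * z3) ^ 2 + (((m00 : ℝ) * m11 - m01 * m01) * z1 ^ 2 + ((m00 : ℝ) * m22 - m02 * m02) * z2 ^ 2 + ((m00 : ℝ) * m33 - m03 * m03) * z3 ^ 2 + 2 * (((m00 : ℝ) * m12 - m01 * m02) * (z1 * z2) + ((m00 : ℝ) * m13 - m01 * m03) * (z1 * z3) + ((m00 : ℝ) * m23 - m02 * m03) * (z2 * z3))) := by ring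
    refine nonneg_of_mul_nonneg_right (a := (m00 : ℝ)) ?_ hm
    rw [e2]
    exact add_nonneg (sq_nonneg _) e

/-- 5x5 -/
noncomputable def p5 (m00 m01 m02 m03 m04 m11 m12 m13 m14 m22 m23 m24 m33 m34 m44 : ℤ) : Bool :=
  cond (isZ m00) (cond (isZ m01) (cond (isZ m02) (cond (isZ m03) (cond (isZ m04) (p4 m11 m12 m13 m14 m22 m23 m24 m33 m34 m44) false) false) false) false)
    (cond (isP m00) (p4 (Int.sub (Int.mul m00 m11) (Int.mul m01 m01)) (Int.sub (Int.mul m00 m12) (Int.mul m01 m02)) (Int.sub (Int.mul m00 m13) (Int.mul m01 m03)) (Int.sub (Int.mul m00 m14) (Int.mul m01 m04)) (Int.sub (Int.mul m00 m22) (Int.mul m02 m02)) (Int.sub (Int.mul m00 m23) (Int.mul m02 m03)) (Int.sub (Int.mul m00 m24) (Int.mul m02 m04)) (Int.sub (Int.mul m00 m33) (Int.mul m03 m03)) (Int.sub (Int.mul m00 m34) (Int.mul m03 m04)) (Int.sub (Int.mul m00 m44) (Int.mul m04 m04))) false)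

lemma p5_sound {m00 m01 m02 m03 m04 m11 m12 m13 m14 m22 m23 m24 m33 m34 m44 : ℤ} (h : p5 m00 m01 m02 m03 m04 m11 m12 m13 m14 m22 m23 m24 m33 m34 m44 = true) (z0 z1 z2 z3 z4 : ℝ) :
    0 ≤ m00 * z0 ^ 2 + m11 * z1 ^ 2 + m22 * z2 ^ 2 + m33 * z3 ^ 2 + m44 * z4 ^ 2 + 2 * (m01 * (z0 * z1) + m02 * (z0 * z2) + m03 * (z0 * z3) + m04 * (z0 * z4) + m12 * (z1 * z2) + m13 * (z1 * z3) + m14 * (z1 * z4) + m23 * (z2 * z3) + m24 * (z2 * z4) + m34 * (z3 * z4)) := by
  unfold p5 at h
  cases hz : isZ m00 with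
  | true =>
    rw [hz, cond_true] at h
    obtain ⟨hz1, h⟩ := cnd h
    obtain ⟨hz2, h⟩ := cnd h
    obtain ⟨hz3, h⟩ := cnd h
    obtain ⟨hz4, h⟩ := cnd h
    have e := p4_sound h z1 z2 z3 z4
    rw [isZ_eq hz, isZ_eq hz1, isZ_eq hz2, isZ_eq hz3, isZ_eq hz4]
    linarith
  | false =>
    rw [hz, cond_false] at h
    obtain ⟨hp, h⟩ := cnd h
    have hm := isP_pos hp
    have e := p4_sound h z1 z2 z3 z4
    simp only [isub, imul, Int.cast_sub, Int.cast_mul] at e
    have e2 : (m00 : ℝ) * (m00 * z0 ^ 2 + m11 * z1 ^ 2 + m22 * z2 ^ 2 + m33 * z3 ^ 2 + m44 * z4 ^ 2 + 2 * (m01 * (z0 * z1) + m02 * (z0 * z2) + m03 * (z0 * z3) + m04 * (z0 * z4) + m12 * (z1 * z2) + m13 * (z1 * z3) + m14 * (z1 * z4) + m23 * (z2 * z3) + m24 * (z2 * z4) + m34 * (z3 * z4))) = (m00 * z0 + m01 * z1 + m02 * z2 + m03 * z3 + m04 * z4) ^ 2 + (((m00 : ℝ) * m11 - m01 * m01) * z1 ^ 2 + ((m00 : ℝ) * m22 - m02 * m02) * z2 ^ 2 + ((m00 : ℝ) * m33 - m03 * m03) * z3 ^ 2 + ((m00 : ℝ) *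 m44 - m04 * m04) * z4 ^ 2 + 2 * (((m00 : ℝ) * m12 - m01 * m02) * (z1 * z2) + ((m00 : ℝ) * m13 - m01 * m03) * (z1 * z3) + ((m00 : ℝ) * m14 - m01 * m04) * (z1 * z4) + ((m00 : ℝ) * m23 - m02 * m03) * (z2 * z3) + ((m00 : ℝ) * m24 - m02 * m04) * (z2 * z4) + ((m00 : ℝ) * m34 - m03 * m04) * (z3 * z4))) := by ring
    refine nonneg_of_mul_nonneg_right (a := (m00 : ℝ)) ?_ hm
    rw [e2]
    exact add_nonneg (sq_nonneg _) e

/-- 6x6 -/
noncomputable def p6 (m00 m01 m02 m03 m04 m05 m11 m12 m13 m14 m15 m22 m23 m24 m25 m33 m34 m35 m44 m45 m55 : ℤ) : Bool :=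
  cond (isZ m00) (cond (isZ m01) (cond (isZ m02) (cond (isZ m03) (cond (isZ m04) (cond (isZ m05) (p5 m11 m12 m13 m14 m15 m22 m23 m24 m25 m33 m34 m35 m44 m45 m55) false) false) false) false) false)
    (cond (isP m00) (p5 (Int.sub (Int.mul m00 m11) (Int.mul m01 m01)) (Int.sub (Int.mul m00 m12) (Int.mul m01 m02)) (Int.sub (Int.mul m00 m13) (Int.mul m01 m03)) (Int.sub (Int.mul m00 m14) (Int.mul m01 m04)) (Int.sub (Int.mul m00 m15) (Int.mul m01 m05)) (Int.sub (Int.mul m00 m22) (Int.mul m02 m02)) (Int.sub (Int.mul m00 m23) (Int.mul m02 m03)) (Int.sub (Int.mul m00 m24) (Int.mul m02 m04)) (Int.sub (Int.mul m00 m25) (Int.mul m02 m05)) (Int.sub (Int.mul m00 m33) (Int.mul m03 m03)) (Int.sub (Int.mul m00 m34) (Int.mul m03 m04)) (Int.sub (Int.mul m00 m35) (Int.mul m03 m05)) (Int.sub (Int.mul m00 m44) (Int.mul m04 m04)) (Int.sub (Int.mul m00 m45) (Int.mul m04 m05)) (Int.sub (Int.mul m00 m55) (Int.mul m05 m05))) false)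

lemma p6_sound {m00 m01 m02 m03 m04 m05 m11 m12 m13 m14 m15 m22 m23 m24 m25 m33 m34 m35 m44 m45 m55 : ℤ} (h : p6 m00 m01 m02 m03 m04 m05 m11 m12 m13 m14 m15 m22 m23 m24 m25 m33 m34 m35 m44 m45 m55 = true) (z0 z1 z2 z3 z4 z5 : ℝ) :
    0 ≤ m00 * z0 ^ 2 + m11 * z1 ^ 2 + m22 * z2 ^ 2 + m33 * z3 ^ 2 + m44 * z4 ^ 2 + m55 * z5 ^ 2 + 2 * (m01 * (z0 * z1) + m02 * (z0 * z2) + m03 * (z0 * z3) + m04 * (z0 * z4) + m05 * (z0 * z5) + m12 * (z1 * z2) + m13 * (z1 * z3) + m14 * (z1 * z4) + m15 * (z1 * z5) + m23 * (z2 * z3) + m24 * (z2 * z4) + m25 * (z2 * z5) + m34 * (z3 * z4) + m35 * (z3 * z5) + m45 * (z4 * z5)) := by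
  unfold p6 at h
  cases hz : isZ m00 with
  | true =>
    rw [hz, cond_true] at h
    obtain ⟨hz1, h⟩ := cnd h
    obtain ⟨hz2, h⟩ := cnd h
    obtain ⟨hz3, h⟩ := cnd h
    obtain ⟨hz4, h⟩ := cnd h
    obtain ⟨hz5, h⟩ := cnd h
    have e := p5_sound h z1 z2 z3 z4 z5
    rw [isZ_eq hz, isZ_eq hz1, isZ_eq hz2, isZ_eq hz3, isZ_eq hz4, isZ_eq hz5]
    linarith
  | false =>
    rw [hz, cond_false] at h
    obtain ⟨hp, h⟩ := cnd h
    have hm := isP_pos hp
    have e := p5_sound h z1 z2 z3 z4 z5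
    simp only [isub, imul, Int.cast_sub, Int.cast_mul] at e
    have e2 : (m00 : ℝ) * (m00 * z0 ^ 2 + m11 * z1 ^ 2 + m22 * z2 ^ 2 + m33 * z3 ^ 2 + m44 * z4 ^ 2 + m55 * z5 ^ 2 + 2 * (m01 * (z0 * z1) + m02 * (z0 * z2) + m03 * (z0 * z3) + m04 * (z0 * z4) + m05 * (z0 * z5) + m12 * (z1 * z2) + m13 * (z1 * z3) + m14 * (z1 * z4) + m15 * (z1 * z5) + m23 * (z2 * z3) + m24 * (z2 * z4) + m25 * (z2 * z5) + m34 * (z3 * z4) + m35 * (z3 * z5) + m45 * (z4 * z5))) = (m00 * z0 + m01 * z1 + m02 * z2 + m03 * z3 + m04 * z4 + m05 * z5) ^ 2 + (((m00 : ℝ) * m11 - m01 * m01) * z1 ^ 2 + ((m00 : ℝ) * m22 - m02 * m02) * z2 ^ 2 + ((m00 : ℝ) * m33 - m03 * m03) * z3 ^ 2 + ((m00 : ℝ) * m44 - m04 * m04) * z4 ^ 2 + ((m00 : ℝ) * m55 - m05 * m05) * z5 ^ 2 + 2 * (((m00 : ℝ) * m12 - m01 * m02) * (z1 * z2) + ((m00 : ℝ) * m13 - m01 * m03) * (z1 * z3) + ((m00 : ℝ) * m14 - m01 * m04) * (z1 * z4) + ((m00 : ℝ) * m15 - m01 * m05) * (z1 * z5) + ((m00 : ℝ) * m23 - m02 * m03) * (z2 * z3)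 + ((m00 : ℝ) * m24 - m02 * m04) * (z2 * z4) + ((m00 : ℝ) * m25 - m02 * m05) * (z2 * z5) + ((m00 : ℝ) * m34 - m03 * m04) * (z3 * z4) + ((m00 : ℝ) * m35 - m03 * m05) * (z3 * z5) + ((m00 : ℝ) * m45 - m04 * m05) * (z4 * z5))) := by ring
    refine nonneg_of_mul_nonneg_right (a := (m00 : ℝ)) ?_ hm
    rw [e2]
    exact add_nonneg (sq_nonneg _) e

/-- destructor -/
noncomputable def un (l : List ℤ) (k : ℤ → List ℤ → Bool) : Bool :=
  List.rec (motive := fun _ => Bool) false (fun a l _ => k a l) l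

/-- check of a form given by the list of its 21 coefficients -/
noncomputable def psdL (l : List ℤ) : Bool :=
  un l fun c00 l =>
  un l fun c01 l =>
  un l fun c02 l =>
  un l fun c03 l =>
  un l fun c04 l =>
  un l fun c05 l =>
  un l fun c11 l =>
  un l fun c12 l =>
  un l fun c13 l =>
  un l fun c14 l =>
  un l fun c15 l =>
  un l fun c22 l =>
  un l fun c23 l =>
  un l fun c24 l =>
  un l fun c25 l =>
  un l fun c33 l =>
  un l fun c34 l =>
  un l fun c35 l =>
  un l fun c44 l =>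
  un l fun c45 l =>
  un l fun c55 _ =>
  p6 (Int.mul 2 c00) c01 c02 c03 c04 c05 (Int.mul 2 c11) c12 c13 c14 c15 (Int.mul 2 c22) c23 c24 c25 (Int.mul 2 c33) c34 c35 (Int.mul 2 c44) c45 (Int.mul 2 c55)

lemma un_ex {l : List ℤ} {k : ℤ → List ℤ → Bool} (h : un l k = true) :
    ∃ a m, l = a :: m ∧ k a m = true := by
  cases l with
  | nil => exact absurd h (by show ¬ (false = true); simp)
  | cons a m => exact ⟨a, m, rfl, h⟩

/-- the 21 monomials -/
def mons (z0 z1 z2 z3 z4 z5 : ℝ) : List ℝ :=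
  [z0 * z0, z0 * z1, z0 * z2, z0 * z3, z0 * z4, z0 * z5, z1 * z1, z1 * z2, z1 * z3, z1 * z4, z1 * z5, z2 * z2, z2 * z3, z2 * z4, z2 * z5, z3 * z3, z3 * z4, z3 * z5, z4 * z4, z4 * z5, z5 * z5]

lemma psdL_sound (z0 z1 z2 z3 z4 z5 : ℝ) (l : List ℤ) (h0 : psdL l = true) :
    0 ≤ dotG (fun a : ℤ => (a : ℝ)) (mons z0 z1 z2 z3 z4 z5) l := by
  unfold psdL at h0
  obtain ⟨c00, l0, e0, h1⟩ := un_ex h0
  clear h0
  subst e0
  obtain ⟨c01, l1, e1, h2⟩ := un_ex h1
  clear h1
  subst e1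
  obtain ⟨c02, l2, e2, h3⟩ := un_ex h2
  clear h2
  subst e2
  obtain ⟨c03, l3, e3, h4⟩ := un_ex h3
  clear h3
  subst e3
  obtain ⟨c04, l4, e4, h5⟩ := un_ex h4
  clear h4
  subst e4
  obtain ⟨c05, l5, e5, h6⟩ := un_ex h5
  clear h5
  subst e5
  obtain ⟨c11, l6, e6, h7⟩ := un_ex h6
  clear h6
  subst e6
  obtain ⟨c12, l7, e7, h8⟩ := un_ex h7
  clear h7
  subst e7
  obtain ⟨c13, l8, e8, h9⟩ := un_ex h8
  clear h8
  subst e8
  obtain ⟨c14, l9, e9, h10⟩ := un_ex h9
  clear h9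
  subst e9
  obtain ⟨c15, l10, e10, h11⟩ := un_ex h10
  clear h10
  subst e10
  obtain ⟨c22, l11, e11, h12⟩ := un_ex h11
  clear h11
  subst e11
  obtain ⟨c23, l12, e12, h13⟩ := un_ex h12
  clear h12
  subst e12
  obtain ⟨c24, l13, e13, h14⟩ := un_ex h13
  clear h13
  subst e13
  obtain ⟨c25, l14, e14, h15⟩ := un_ex h14
  clear h14
  subst e14
  obtain ⟨c33, l15, e15, h16⟩ := un_ex h15
  clear h15
  subst e15
  obtain ⟨c34, l16, e16, h17⟩ := un_ex h16
  clear h16
  subst e16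
  obtain ⟨c35, l17, e17, h18⟩ := un_ex h17
  clear h17
  subst e17
  obtain ⟨c44, l18, e18, h19⟩ := un_ex h18
  clear h18
  subst e18
  obtain ⟨c45, l19, e19, h20⟩ := un_ex h19
  clear h19
  subst e19
  obtain ⟨c55, l20, e20, h21⟩ := un_ex h20
  clear h20
  subst e20
  have e := p6_sound h21 z0 z1 z2 z3 z4 z5
  simp only [imul, Int.cast_mul, Int.cast_ofNat] at e
  unfold mons
  simp only [dotG]
  linarith

/-! ## tables, cells -/

/-- tables: 21 nested coefficient lists -/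
abbrev Tab := List (List (List (List ℤ)))

/-- semantics of a table -/
noncomputable def semT (T : Tab) (x1 x2 x3 z0 z1 z2 z3 z4 z5 : ℝ) : ℝ :=
  dotG (e3 x1 x2 x3) (mons z0 z1 z2 z3 z4 z5) T

/-- linear combination of tables -/
noncomputable def comb (cT : List (ℤ × Tab)) : Tab :=
  List.rec (motive := fun _ => Tab) []
    (fun p _ ih => addG a3 (mapG (s3 p.1) p.2) ih) cT

/-- semantics of a linear combination -/
noncomputable def semC (cT : List (ℤ × Tab)) (x1 x2 x3 z0 z1 z2 z3 z4 z5 : ℝ) : ℝ :=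
  match cT with
  | [] => 0
  | p :: l => p.1 * semT p.2 x1 x2 x3 z0 z1 z2 z3 z4 z5 + semC l x1 x2 x3 z0 z1 z2 z3 z4 z5

lemma dotG_addG {α : Type} {φ : α → ℝ} {f : α → α → α} (hf : ∀ a b, φ (f a b) = φ a + φ b) :
    ∀ (ws : List ℝ) (l m : List α), dotG φ ws (addG f l m) = dotG φ ws l + dotG φ ws m := by
  intro ws
  induction ws with
  | nil => intro l m; simp [dotG]
  | cons w ws ih =>
    intro l m
    cases l with
    | nil => simp [dotG]
    | cons a l =>
      cases m with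
      | nil => simp [dotG]
      | cons b m => simp [dotG, ih, hf]; ring

lemma dotG_mapG {α β : Type} {φ : α → ℝ} {ψ : β → ℝ} {g : β → α} {c : ℝ}
    (hg : ∀ a, φ (g a) = c * ψ a) :
    ∀ (ws : List ℝ) (l : List β), dotG φ ws (mapG g l) = c * dotG ψ ws l := by
  intro ws
  induction ws with
  | nil => intro l; simp [dotG]
  | cons w ws ih =>
    intro l
    cases l with
    | nil => simp [dotG]
    | cons a l => simp [dotG, ih, hg]; ring

lemma comb_sem (cT : List (ℤ × Tab)) (x1 x2 x3 z0 z1 z2 z3 z4 z5 : ℝ) :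
    semT (comb cT) x1 x2 x3 z0 z1 z2 z3 z4 z5 = semC cT x1 x2 x3 z0 z1 z2 z3 z4 z5 := by
  induction cT with
  | nil => simp [semT, semC, comb, mons, dotG]
  | cons p l ih =>
    have e : comb (p :: l) = addG a3 (mapG (s3 p.1) p.2) (comb l) := rfl
    unfold semT at ih
    rw [semT, e, dotG_addG (e3_a3 x1 x2 x3), dotG_mapG (e3_s3 x1 x2 x3 p.1), semC, ih]
    rfl

/-- all elements satisfy `f` -/
noncomputable def allG {α : Type} (f : α → Bool) (l : List α) : Bool :=
  List.rec (motive := fun _ => Bool) true (fun a _ ih => cond (f a) ih false) l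

lemma allG_cons {α : Type} {f : α → Bool} {a : α} {l : List α} (h : allG f (a :: l) = true) :
    f a = true ∧ allG f l = true := cnd h

/-- conversions of the three levels -/
noncomputable def cv1 (c3 : List (List ℤ)) (l : List ℤ) : List ℤ :=
  cvG (fun a b => Int.add a b) (fun a b => Int.mul a b) l c3
noncomputable def cv2 (c2 c3 : List (List ℤ)) (l : List (List ℤ)) : List (List ℤ) :=
  cvG a1 s1 (mapG (cv1 c3) l) c2
noncomputable def cv3 (c1 c2 c3 : List (List ℤ)) (l : List (List (List ℤ))) : List (List (List ℤ)) :=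
  cvG a2 s2 (mapG (cv2 c2 c3) l) c1

/-- length checks -/
noncomputable def lb1 (c3 : List (List ℤ)) (l : List ℤ) : Bool := leB l c3
noncomputable def lb2 (c2 c3 : List (List ℤ)) (l : List (List ℤ)) : Bool :=
  cond (leB l c2) (allG (lb1 c3) l) false
noncomputable def lb3 (c1 c2 c3 : List (List ℤ)) (l : List (List (List ℤ))) : Bool :=
  cond (leB l c1) (allG (lb2 c2 c3) l) false

lemma leB_mapG {α β γ : Type} (g : α → γ) : ∀ (l : List α) (cs : List β),
    leB l cs = true → leB (mapG g l) cs = true := by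
  intro l
  induction l with
  | nil => intro cs h; rfl
  | cons a l ih =>
    intro cs h
    cases cs with
    | nil => exact absurd h (by show ¬ (false = true); simp)
    | cons b cs => exact ih cs h

lemma evG_map {α β : Type} {φ : α → ℝ} {ψ : β → ℝ} {g : β → α} {f : β → Bool} {c : ℝ} (x : ℝ)
    (hg : ∀ a, f a = true → φ (g a) = c * ψ a) : ∀ l : List β, allG f l = true →
    evG φ x (mapG g l) = c * evG ψ x l := by
  intro l
  induction l with
  | nil => intro _; simp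
  | cons a l ih =>
    intro h
    obtain ⟨h1, h2⟩ := allG_cons h
    simp [hg a h1, ih h2]; ring

lemma cv1_ev {X Y t : ℝ} (hY : Y ≠ 0) {n : ℕ} {cs : List (List ℤ)} (hG : Good X Y t n 1 cs)
    (l : List ℤ) (hl : lb1 cs l = true) : e1 t (cv1 cs l) = Y ^ n * e1 (X / Y) l := by
  have := cvG_ev (φ := fun a : ℤ => (a : ℝ)) (f := fun a b => Int.add a b)
    (s := fun a b => Int.mul a b) (fun a b => by show ((a + b : ℤ) : ℝ) = _; push_cast; ring)
    (fun a b => by show ((a * b : ℤ) : ℝ) = _; push_cast; ring) hY l cs n 1 hG hl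
  rw [one_mul] at this
  exact this

lemma cv2_ev {X Y t : ℝ} (hY : Y ≠ 0) {n : ℕ} {cs : List (List ℤ)} (hG : Good X Y t n 1 cs)
    {X' Y' t' : ℝ} (hY' : Y' ≠ 0) {n' : ℕ} {cs' : List (List ℤ)} (hG' : Good X' Y' t' n' 1 cs')
    (l : List (List ℤ)) (hl : lb2 cs cs' l = true) :
    e2 t t' (cv2 cs cs' l) = Y ^ n * (Y' ^ n' * e2 (X / Y) (X' / Y') l) := by
  obtain ⟨h1, h2⟩ := cnd hl
  have := cvG_ev (φ := e1 t') (f := a1) (s := s1) (e1_a1 t') (e1_s1 t') hY (mapG (cv1 cs') l) cs n 1 hG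
    (leB_mapG _ _ _ h1)
  rw [one_mul] at this
  have e := evG_map (φ := e1 t') (ψ := e1 (X' / Y')) (g := cv1 cs') (f := lb1 cs') (c := Y' ^ n')
    (X / Y) (fun a ha => cv1_ev hY' hG' a ha) l h2
  rw [e] at this
  exact this

lemma cv3_ev {X Y t : ℝ} (hY : Y ≠ 0) {n : ℕ} {cs : List (List ℤ)} (hG : Good X Y t n 1 cs)
    {X' Y' t' : ℝ} (hY' : Y' ≠ 0) {n' : ℕ} {cs' : List (List ℤ)} (hG' : Good X' Y' t' n' 1 cs')
    {X'' Y'' t'' : ℝ} (hY'' : Y'' ≠ 0) {n'' : ℕ} {cs'' : List (List ℤ)}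
    (hG'' : Good X'' Y'' t'' n'' 1 cs'')
    (l : List (List (List ℤ))) (hl : lb3 cs cs' cs'' l = true) :
    e3 t t' t'' (cv3 cs cs' cs'' l) =
      (Y ^ n * (Y' ^ n' * Y'' ^ n'')) * e3 (X / Y) (X' / Y') (X'' / Y'') l := by
  obtain ⟨h1, h2⟩ := cnd hl
  have := cvG_ev (φ := e2 t' t'') (f := a2) (s := s2) (e2_a2 t' t'') (e2_s2 t' t'') hY
    (mapG (cv2 cs' cs'') l) cs n 1 hG (leB_mapG _ _ _ h1)
  rw [one_mul] at this
  have e := evG_map (φ := e2 t' t'') (ψ := e2 (X' / Y') (X'' / Y'')) (g := cv2 cs' cs'')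
    (f := lb2 cs' cs'') (c := Y' ^ n' * Y'' ^ n'')
    (X / Y) (fun a ha => by rw [cv2_ev hY' hG' hY'' hG'' a ha]; ring) l h2
  rw [e] at this
  rw [mul_assoc]
  exact this

/-- box in one variable -/
structure Ax where
  lo : ℤ
  hi : ℤ
  D : ℤ
  n : ℕ

/-- the columns of an axis -/
noncomputable def Ax.cs (a : Ax) : List (List ℤ) := cols a.lo a.hi a.D a.n

/-- validity -/
noncomputable def Ax.ok (a : Ax) : Bool := cond (isP a.D) (isP (Int.sub a.hi a.lo)) false

/-- the core check of a form -/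
noncomputable def core (c1 c2 c3 : List (List ℤ)) (n1 n2 n3 : ℕ) (T : Tab) : Bool :=
  cond (allG (lb3 c1 c2 c3) T)
    (chk [] (chk [] (chk 0 psdL (n3 + 1)) (n2 + 1)) (n1 + 1) (mapG (cv3 c1 c2 c3) T)) false

/-- **the cell check** -/
noncomputable def cellOK (cT : List (ℤ × Tab)) (x y w : Ax) : Bool :=
  cond x.ok (cond y.ok (cond w.ok (core x.cs y.cs w.cs x.n y.n w.n (comb cT)) false) false) false

lemma closeAx {lo hi D : ℝ} (hD : 0 < D) (hlt : 0 < hi - lo) {G : ℝ → ℝ} (hG : Continuous G)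
    (h : ∀ t, 0 ≤ t → 0 ≤ G ((lo + hi * t) / (D * (1 + t)))) {x : ℝ} (h0 : lo / D ≤ x)
    (h1 : x ≤ hi / D) : 0 ≤ G x := by
  have hcl : IsClosed {x | 0 ≤ G x} := isClosed_le continuous_const hG
  have hlt' : lo / D < hi / D := by
    rw [div_lt_div_iff_of_pos_right hD]; linarith
  have hsub : Set.Ico (lo / D) (hi / D) ⊆ {x | 0 ≤ G x} := by
    intro y hy
    obtain ⟨hy0, hy1⟩ := hy
    rw [div_le_iff₀ hD] at hy0
    rw [lt_div_iff₀ hD] at hy1
    have hd : 0 < hi - y * D := by linarith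
    have ht : 0 ≤ (y * D - lo) / (hi - y * D) := div_nonneg (by linarith) hd.le
    have := h _ ht
    have e : (lo + hi * ((y * D - lo) / (hi - y * D))) / (D * (1 + (y * D - lo) / (hi - y * D))) = y := by
      have h3 : (1 + (y * D - lo) / (hi - y * D)) = (hi - lo) / (hi - y * D) := by
        field_simp; ring
      have h4 : (lo + hi * ((y * D - lo) / (hi - y * D))) = (hi - lo) * (y * D) / (hi - y * D) := by
        field_simp; ring
      rw [h3, h4]
      have := hd.ne'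
      have := hD.ne'
      have := hlt.ne'
      field_simp
    rw [e] at this
    exact this
  have := hcl.closure_subset_iff.mpr hsub
  rw [closure_Ico hlt'.ne] at this
  exact this ⟨h0, h1⟩

lemma continuous_dotG {α X : Type} [TopologicalSpace X] {φ : X → α → ℝ}
    (hφ : ∀ a, Continuous fun s => φ s a) : ∀ (ws : List ℝ) (l : List α),
    Continuous fun s => dotG (φ s) ws l := by
  intro ws
  induction ws with
  | nil => intro l; simpa [dotG] using continuous_const
  | cons w ws ih =>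
    intro l
    cases l with
    | nil => simpa [dotG] using continuous_const
    | cons a l => exact (continuous_const.mul (hφ a)).add (ih l)

lemma continuous_semT (T : Tab) (z0 z1 z2 z3 z4 z5 : ℝ) {X : Type} [TopologicalSpace X]
    {x1 x2 x3 : X → ℝ} (h1 : Continuous x1) (h2 : Continuous x2) (h3 : Continuous x3) :
    Continuous fun s => semT T (x1 s) (x2 s) (x3 s) z0 z1 z2 z3 z4 z5 :=
  continuous_dotG (φ := fun s => e3 (x1 s) (x2 s) (x3 s))
    (fun a => continuous_evG (φ := fun s => e2 (x2 s) (x3 s))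
      (fun b => continuous_evG (φ := fun s => e1 (x3 s))
        (fun c => continuous_evG (φ := fun _ => fun a : ℤ => (a : ℝ)) (fun d => continuous_const) h3 c)
        h2 b) h1 a) _ T

lemma dotG_map_all {α β : Type} {φ : α → ℝ} {ψ : β → ℝ} {g : β → α} {f : β → Bool} {c : ℝ}
    (hg : ∀ a, f a = true → φ (g a) = c * ψ a) :
    ∀ (ws : List ℝ) (l : List β), allG f l = true → dotG φ ws (mapG g l) = c * dotG ψ ws l := by
  intro ws
  induction ws with
  | nil => intro l _; simp [dotG]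
  | cons w ws ih =>
    intro l h
    cases l with
    | nil => simp [dotG]
    | cons a l =>
      obtain ⟨h1, h2⟩ := allG_cons h
      simp [dotG, ih l h2, hg a h1]; ring

/-- **soundness of the cell check** -/
theorem cell_sound {cT : List (ℤ × Tab)} {x y w : Ax} (h : cellOK cT x y w = true)
    {x1 x2 x3 : ℝ} (h1 : (x.lo : ℝ) / x.D ≤ x1) (h1' : x1 ≤ (x.hi : ℝ) / x.D)
    (h2 : (y.lo : ℝ) / y.D ≤ x2) (h2' : x2 ≤ (y.hi : ℝ) / y.D)
    (h3 : (w.lo : ℝ) / w.D ≤ x3) (h3' : x3 ≤ (w.hi : ℝ) / w.D) (z0 z1 z2 z3 z4 z5 : ℝ) :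
    0 ≤ semC cT x1 x2 x3 z0 z1 z2 z3 z4 z5 := by
  obtain ⟨hx, h⟩ := cnd h
  obtain ⟨hy, h⟩ := cnd h
  obtain ⟨hw, h⟩ := cnd h
  obtain ⟨dx, ex⟩ := cnd hx
  obtain ⟨dy, ey⟩ := cnd hy
  obtain ⟨dw, ew⟩ := cnd hw
  obtain ⟨hl, h⟩ := cnd h
  have dx := isP_pos dx
  have dy := isP_pos dy
  have dw := isP_pos dw
  have ex := isP_pos ex
  have ey := isP_pos ey
  have ew := isP_pos ew
  rw [isub, Int.cast_sub] at ex ey ew
  rw [← comb_sem]
  have main : ∀ t1 t2 t3 : ℝ, 0 ≤ t1 → 0 ≤ t2 → 0 ≤ t3 →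
      0 ≤ semT (comb cT) ((x.lo + x.hi * t1) / (x.D * (1 + t1))) ((y.lo + y.hi * t2) / (y.D * (1 + t2)))
        ((w.lo + w.hi * t3) / (w.D * (1 + t3))) z0 z1 z2 z3 z4 z5 := by
    intro t1 t2 t3 ht1 ht2 ht3
    have Y1 : (0 : ℝ) < x.D * (1 + t1) := by positivity
    have Y2 : (0 : ℝ) < y.D * (1 + t2) := by positivity
    have Y3 : (0 : ℝ) < w.D * (1 + t3) := by positivity
    have c := chk_sound (φ := e2 t2 t3) (d := []) (by simp [e2]) (ws := mons z0 z1 z2 z3 z4 z5)
      (fun l hl => chk_sound (φ := e1 t3) (d := []) (by simp [e1]) (ws := mons z0 z1 z2 z3 z4 z5)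
        (fun l hl => chk_sound (φ := fun a : ℤ => (a : ℝ)) (d := 0) (by simp)
          (ws := mons z0 z1 z2 z3 z4 z5) (psdL_sound z0 z1 z2 z3 z4 z5) ht3 _ l hl) ht2 _ l hl) ht1 _ _ h
    have e := dotG_map_all (φ := e3 t1 t2 t3)
      (fun a ha => cv3_ev Y1.ne' (good_cols x.lo x.hi x.D t1 x.n) Y2.ne' (good_cols y.lo y.hi y.D t2 y.n)
        Y3.ne' (good_cols w.lo w.hi w.D t3 w.n) a ha) (mons z0 z1 z2 z3 z4 z5) (comb cT) hl
    have c' : 0 ≤ dotG (e3 t1 t2 t3) (mons z0 z1 z2 z3 z4 z5)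
        (mapG (cv3 x.cs y.cs w.cs) (comb cT)) := c
    rw [show (mapG (cv3 x.cs y.cs w.cs) (comb cT)) = (mapG (cv3 (cols x.lo x.hi x.D x.n)
      (cols y.lo y.hi y.D y.n) (cols w.lo w.hi w.D w.n)) (comb cT)) from rfl, e] at c'
    exact nonneg_of_mul_nonneg_right c' (by positivity)
  have s1 : ∀ t2 t3 : ℝ, 0 ≤ t2 → 0 ≤ t3 → 0 ≤ semT (comb cT) x1 ((y.lo + y.hi * t2) / (y.D * (1 + t2)))
        ((w.lo + w.hi * t3) / (w.D * (1 + t3))) z0 z1 z2 z3 z4 z5 := by
    intro t2 t3 ht2 ht3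
    exact closeAx dx ex (continuous_semT (comb cT) z0 z1 z2 z3 z4 z5 continuous_id continuous_const
      continuous_const) (fun t ht => main t t2 t3 ht ht2 ht3) h1 h1'
  have s2 : ∀ t3 : ℝ, 0 ≤ t3 → 0 ≤ semT (comb cT) x1 x2
        ((w.lo + w.hi * t3) / (w.D * (1 + t3))) z0 z1 z2 z3 z4 z5 := by
    intro t3 ht3
    exact closeAx dy ey (continuous_semT (comb cT) z0 z1 z2 z3 z4 z5 continuous_const continuous_id
      continuous_const) (fun t ht => s1 t t3 ht ht3) h2 h2'
  exact closeAx dw ew (continuous_semT (comb cT) z0 z1 z2 z3 z4 z5 continuous_const continuous_const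
      continuous_id) (fun t ht => s2 t ht) h3 h3'

end Pool.G1.ZB
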