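import Pool.Agent.Work.MP_b5407d_g1.Pl_ZI1

/-!
# G1, P2: cells checked by the kernel
-/

set_option autoImplicit false
set_option maxRecDepth 100000

namespace Pool.G1.ZB
open Pool.G1.Gap

theorem cl1a3 : cellOK [(1024, T1_base), (-1806, T1_er), (144, T1_c1r), (-17328, T1_cbr), (-3072, T1_cE1), (1176, T1_t1), (128, T1_t2), (1000, T1_s3), (8586, T1_tb)]
    ⟨1, 2, 4, 6⟩ ⟨0, 1, 1, 7⟩ ⟨0, 1, 2, 5⟩ = true := by decide +kernel

lemma gd1a3 {r u τ : ℝ} (h1 : (1 / 4) ≤ r) (h1' : r ≤ (1 / 2)) (h2 : 0 ≤ u)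
    (h2' : u ≤ 1) (h3 : 0 ≤ τ) (h3' : τ ≤ (1 / 2)) :
    Gc1 (-301 / 512) (3 / 512) (-361 / 512) (-1) r u τ := by
  refine ⟨(147 / 1024), (1 / 64), 0, 0, 0, (125 / 1024), (1431 / 1024), by norm_num, by norm_num, by norm_num, by norm_num,
    by norm_num, by norm_num, by norm_num, ?_⟩
  intro β x δ x' δ'
  have h := cell_sound cl1a3 (x1 := r) (x2 := u) (x3 := τ) (by push_cast; linarith)
    (by push_cast; linarith) (by push_cast; linarith) (by push_cast; linarith)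
    (by push_cast; linarith) (by push_cast; linarith) 1 β x δ x' δ'
  simp only [semC] at h
  push_cast at h
  unfold Br1
  linarith

theorem cl1a4 : cellOK [(1024, T1_base), (-1806, T1_er), (144, T1_c1r), (-17328, T1_cbr), (-3072, T1_cE1), (1000, T1_t1), (664, T1_t2), (1264, T1_s3), (11838, T1_tb)]
    ⟨1, 2, 2, 6⟩ ⟨0, 1, 1, 7⟩ ⟨0, 1, 2, 5⟩ = true := by decide +kernel

lemma gd1a4 {r u τ : ℝ} (h1 : (1 / 2) ≤ r) (h1' : r ≤ 1) (h2 : 0 ≤ u)
    (h2' : u ≤ 1) (h3 : 0 ≤ τ) (h3' : τ ≤ (1 / 2)) :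
    Gc1 (-301 / 512) (3 / 512) (-361 / 512) (-1) r u τ := by
  refine ⟨(125 / 1024), (83 / 1024), 0, 0, 0, (79 / 512), (1973 / 1024), by norm_num, by norm_num, by norm_num, by norm_num,
    by norm_num, by norm_num, by norm_num, ?_⟩
  intro β x δ x' δ'
  have h := cell_sound cl1a4 (x1 := r) (x2 := u) (x3 := τ) (by push_cast; linarith)
    (by push_cast; linarith) (by push_cast; linarith) (by push_cast; linarith)
    (by push_cast; linarith) (by push_cast; linarith) 1 β x δ x' δ'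
  simp only [semC] at h
  push_cast at h
  unfold Br1
  linarith

end Pool.G1.ZB
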