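import Pool.Agent.Work.MP_b5407d_g1.Pl_ZI2

/-!
# G1, P2: cells checked by the kernel
-/

set_option autoImplicit false
set_option maxRecDepth 100000

namespace Pool.G1.ZB
open Pool.G1.Gap

theorem cl2a3 : cellOK [(1024, T2_base), (-1806, T2_er), (144, T2_c1r), (-17328, T2_cbr), (-3072, T2_cE1), (1240, T2_t1), (840, T2_s3), (7230, T2_tb)]
    ⟨1, 2, 16, 6⟩ ⟨0, 1, 1, 7⟩ ⟨1, 2, 16, 5⟩ = true := by decide +kernel

lemma gd2a3 {r u τ : ℝ} (h1 : (1 / 16) ≤ r) (h1' : r ≤ (1 / 8)) (h2 : 0 ≤ u)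
    (h2' : u ≤ 1) (h3 : (1 / 16) ≤ τ) (h3' : τ ≤ (1 / 8)) :
    Gc2 (-301 / 512) (3 / 512) (-361 / 512) (-1) r u τ := by
  refine ⟨(155 / 1024), 0, 0, 0, 0, (105 / 1024), (1205 / 1024), by norm_num, by norm_num, by norm_num, by norm_num,
    by norm_num, by norm_num, by norm_num, ?_⟩
  intro β x δ x' δ'
  have h := cell_sound cl2a3 (x1 := r) (x2 := u) (x3 := τ) (by push_cast; linarith)
    (by push_cast; linarith) (by push_cast; linarith) (by push_cast; linarith)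
    (by push_cast; linarith) (by push_cast; linarith) 1 β x δ x' δ'
  simp only [semC] at h
  push_cast at h
  unfold Br2
  linarith

theorem cl2a4 : cellOK [(1024, T2_base), (-1806, T2_er), (144, T2_c1r), (-17328, T2_cbr), (-3072, T2_cE1), (1480, T2_t1), (872, T2_s3), (5064, T2_tb)]
    ⟨0, 1, 8, 6⟩ ⟨0, 1, 1, 7⟩ ⟨1, 2, 8, 5⟩ = true := by decide +kernel

lemma gd2a4 {r u τ : ℝ} (h1 : 0 ≤ r) (h1' : r ≤ (1 / 8)) (h2 : 0 ≤ u)
    (h2' : u ≤ 1) (h3 : (1 / 8) ≤ τ) (h3' : τ ≤ (1 / 4)) :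
    Gc2 (-301 / 512) (3 / 512) (-361 / 512) (-1) r u τ := by
  refine ⟨(185 / 1024), 0, 0, 0, 0, (109 / 1024), (211 / 256), by norm_num, by norm_num, by norm_num, by norm_num,
    by norm_num, by norm_num, by norm_num, ?_⟩
  intro β x δ x' δ'
  have h := cell_sound cl2a4 (x1 := r) (x2 := u) (x3 := τ) (by push_cast; linarith)
    (by push_cast; linarith) (by push_cast; linarith) (by push_cast; linarith)
    (by push_cast; linarith) (by push_cast; linarith) 1 β x δ x' δ'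
  simp only [semC] at h
  push_cast at h
  unfold Br2
  linarith

theorem cl2a5 : cellOK [(1024, T2_base), (-1806, T2_er), (144, T2_c1r), (-17328, T2_cbr), (-3072, T2_cE1), (1200, T2_t1), (936, T2_s3), (7206, T2_tb)]
    ⟨1, 2, 8, 6⟩ ⟨0, 1, 1, 7⟩ ⟨0, 1, 4, 5⟩ = true := by decide +kernel

lemma gd2a5 {r u τ : ℝ} (h1 : (1 / 8) ≤ r) (h1' : r ≤ (1 / 4)) (h2 : 0 ≤ u)
    (h2' : u ≤ 1) (h3 : 0 ≤ τ) (h3' : τ ≤ (1 / 4)) :
    Gc2 (-301 / 512) (3 / 512) (-361 / 512) (-1) r u τ := by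
  refine ⟨(75 / 512), 0, 0, 0, 0, (117 / 1024), (1201 / 1024), by norm_num, by norm_num, by norm_num, by norm_num,
    by norm_num, by norm_num, by norm_num, ?_⟩
  intro β x δ x' δ'
  have h := cell_sound cl2a5 (x1 := r) (x2 := u) (x3 := τ) (by push_cast; linarith)
    (by push_cast; linarith) (by push_cast; linarith) (by push_cast; linarith)
    (by push_cast; linarith) (by push_cast; linarith) 1 β x δ x' δ'
  simp only [semC] at h
  push_cast at h
  unfold Br2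
  linarith

end Pool.G1.ZB
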