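import Pool.Agent.Work.MP_b5407d_g1.Pl_ZI2

/-!
# G1, P2: cells checked by the kernel
-/

set_option autoImplicit false
set_option maxRecDepth 100000

namespace Pool.G1.ZB
open Pool.G1.Gap

theorem cl2a6 : cellOK [(1024, T2_base), (-1806, T2_er), (144, T2_c1r), (-17328, T2_cbr), (-3072, T2_cE1), (1576, T2_t1), (72, T2_s2), (824, T2_s3), (7332, T2_tb)]
    ⟨0, 1, 4, 6⟩ ⟨0, 1, 1, 7⟩ ⟨1, 2, 4, 5⟩ = true := by decide +kernel

lemma gd2a6 {r u τ : ℝ} (h1 : 0 ≤ r) (h1' : r ≤ (1 / 4)) (h2 : 0 ≤ u)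
    (h2' : u ≤ 1) (h3 : (1 / 4) ≤ τ) (h3' : τ ≤ (1 / 2)) :
    Gc2 (-301 / 512) (3 / 512) (-361 / 512) (-1) r u τ := by
  refine ⟨(197 / 1024), 0, 0, 0, (9 / 1024), (103 / 1024), (611 / 512), by norm_num, by norm_num, by norm_num, by norm_num,
    by norm_num, by norm_num, by norm_num, ?_⟩
  intro β x δ x' δ'
  have h := cell_sound cl2a6 (x1 := r) (x2 := u) (x3 := τ) (by push_cast; linarith)
    (by push_cast; linarith) (by push_cast; linarith) (by push_cast; linarith)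
    (by push_cast; linarith) (by push_cast; linarith) 1 β x δ x' δ'
  simp only [semC] at h
  push_cast at h
  unfold Br2
  linarith

theorem cl2a7 : cellOK [(1024, T2_base), (-1806, T2_er), (144, T2_c1r), (-17328, T2_cbr), (-3072, T2_cE1), (1552, T2_t1), (288, T2_s2), (944, T2_s3), (12750, T2_tb)]
    ⟨1, 2, 4, 6⟩ ⟨0, 1, 1, 7⟩ ⟨0, 1, 2, 5⟩ = true := by decide +kernel

lemma gd2a7 {r u τ : ℝ} (h1 : (1 / 4) ≤ r) (h1' : r ≤ (1 / 2)) (h2 : 0 ≤ u)
    (h2' : u ≤ 1) (h3 : 0 ≤ τ) (h3' : τ ≤ (1 / 2)) :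
    Gc2 (-301 / 512) (3 / 512) (-361 / 512) (-1) r u τ := by
  refine ⟨(97 / 512), 0, 0, 0, (9 / 256), (59 / 512), (2125 / 1024), by norm_num, by norm_num, by norm_num, by norm_num,
    by norm_num, by norm_num, by norm_num, ?_⟩
  intro β x δ x' δ'
  have h := cell_sound cl2a7 (x1 := r) (x2 := u) (x3 := τ) (by push_cast; linarith)
    (by push_cast; linarith) (by push_cast; linarith) (by push_cast; linarith)
    (by push_cast; linarith) (by push_cast; linarith) 1 β x δ x' δ'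
  simp only [semC] at h
  push_cast at h
  unfold Br2
  linarith

theorem cl2a8 : cellOK [(1024, T2_base), (-1806, T2_er), (144, T2_c1r), (-17328, T2_cbr), (-3072, T2_cE1), (1856, T2_t1), (1096, T2_s2), (872, T2_s3), (14988, T2_tb)]
    ⟨1, 2, 2, 6⟩ ⟨0, 1, 1, 7⟩ ⟨0, 1, 2, 5⟩ = true := by decide +kernel

lemma gd2a8 {r u τ : ℝ} (h1 : (1 / 2) ≤ r) (h1' : r ≤ 1) (h2 : 0 ≤ u)
    (h2' : u ≤ 1) (h3 : 0 ≤ τ) (h3' : τ ≤ (1 / 2)) :
    Gc2 (-301 / 512) (3 / 512) (-361 / 512) (-1) r u τ := by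
  refine ⟨(29 / 128), 0, 0, 0, (137 / 1024), (109 / 1024), (1249 / 512), by norm_num, by norm_num, by norm_num, by norm_num,
    by norm_num, by norm_num, by norm_num, ?_⟩
  intro β x δ x' δ'
  have h := cell_sound cl2a8 (x1 := r) (x2 := u) (x3 := τ) (by push_cast; linarith)
    (by push_cast; linarith) (by push_cast; linarith) (by push_cast; linarith)
    (by push_cast; linarith) (by push_cast; linarith) 1 β x δ x' δ'
  simp only [semC] at h
  push_cast at h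
  unfold Br2
  linarith

end Pool.G1.ZB
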