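import Pool.Agent.Work.MP_b5407d_g1.Pl_ZI2

/-!
# G1, P2: cells checked by the kernel
-/

set_option autoImplicit false
set_option maxRecDepth 100000

namespace Pool.G1.ZB
open Pool.G1.Gap

theorem cl2b0 : cellOK [(1024, T2_base), (-3138, T2_er), (-288, T2_c1r), (-15312, T2_cbr), (-2328, T2_cE1), (5400, T2_t1), (112, T2_t2), (1672, T2_s2), (736, T2_s3), (22590, T2_tb)]
    ⟨0, 1, 2, 6⟩ ⟨0, 1, 1, 7⟩ ⟨1, 2, 2, 5⟩ = true := by decide +kernel

lemma gd2b0 {r u τ : ℝ} (h1 : 0 ≤ r) (h1' : r ≤ (1 / 2)) (h2 : 0 ≤ u)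
    (h2' : u ≤ 1) (h3 : (1 / 2) ≤ τ) (h3' : τ ≤ 1) :
    Gc2 (-523 / 512) (-3 / 256) (-319 / 512) (-97 / 128) r u τ := by
  refine ⟨(675 / 1024), (7 / 512), 0, 0, (209 / 1024), (23 / 256), (3765 / 1024), by norm_num, by norm_num, by norm_num, by norm_num,
    by norm_num, by norm_num, by norm_num, ?_⟩
  intro β x δ x' δ'
  have h := cell_sound cl2b0 (x1 := r) (x2 := u) (x3 := τ) (by push_cast; linarith)
    (by push_cast; linarith) (by push_cast; linarith) (by push_cast; linarith)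
    (by push_cast; linarith) (by push_cast; linarith) 1 β x δ x' δ'
  simp only [semC] at h
  push_cast at h
  unfold Br2
  linarith

theorem cl2b1 : cellOK [(1024, T2_base), (-3138, T2_er), (-288, T2_c1r), (-15312, T2_cbr), (-2328, T2_cE1), (4464, T2_t1), (152, T2_t2), (64, T2_s1), (2224, T2_s2), (872, T2_s3), (22878, T2_tb)]
    ⟨1, 2, 2, 6⟩ ⟨0, 1, 1, 7⟩ ⟨1, 2, 2, 5⟩ = true := by decide +kernel

lemma gd2b1 {r u τ : ℝ} (h1 : (1 / 2) ≤ r) (h1' : r ≤ 1) (h2 : 0 ≤ u)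
    (h2' : u ≤ 1) (h3 : (1 / 2) ≤ τ) (h3' : τ ≤ 1) :
    Gc2 (-523 / 512) (-3 / 256) (-319 / 512) (-97 / 128) r u τ := by
  refine ⟨(279 / 512), (19 / 1024), 0, (1 / 128), (139 / 512), (109 / 1024), (3813 / 1024), by norm_num, by norm_num, by norm_num, by norm_num,
    by norm_num, by norm_num, by norm_num, ?_⟩
  intro β x δ x' δ'
  have h := cell_sound cl2b1 (x1 := r) (x2 := u) (x3 := τ) (by push_cast; linarith)
    (by push_cast; linarith) (by push_cast; linarith) (by push_cast; linarith)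
    (by push_cast; linarith) (by push_cast; linarith) 1 β x δ x' δ'
  simp only [semC] at h
  push_cast at h
  unfold Br2
  linarith

end Pool.G1.ZB
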