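import Pool.Agent.Work.MP_b5407d_g1.Pl_ZI3

/-!
# G1, P2: cells checked by the kernel
-/

set_option autoImplicit false
set_option maxRecDepth 100000

namespace Pool.G1.ZB
open Pool.G1.Gap

theorem cl3b0 : cellOK [(1024, T3_base), (-3138, T3_er), (-288, T3_c1r), (-15312, T3_cbr), (-2328, T3_cE1), (2328, T3_t1), (1408, T3_t2), (2920, T3_s1), (224, T3_s2), (16326, T3_tb)]
    ⟨0, 1, 2, 7⟩ ⟨0, 1, 1, 7⟩ ⟨1, 2, 2, 5⟩ = true := by decide +kernel

lemma gd3b0 {r u τ : ℝ} (h1 : 0 ≤ r) (h1' : r ≤ (1 / 2)) (h2 : 0 ≤ u)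
    (h2' : u ≤ 1) (h3 : (1 / 2) ≤ τ) (h3' : τ ≤ 1) :
    Gc3 (-523 / 512) (-3 / 256) (-319 / 512) (-97 / 128) r u τ := by
  refine ⟨(291 / 1024), (11 / 64), 0, (365 / 1024), (7 / 256), 0, (2721 / 1024), by norm_num, by norm_num, by norm_num, by norm_num,
    by norm_num, by norm_num, by norm_num, ?_⟩
  intro β x δ x' δ'
  have h := cell_sound cl3b0 (x1 := r) (x2 := u) (x3 := τ) (by push_cast; linarith)
    (by push_cast; linarith) (by push_cast; linarith) (by push_cast; linarith)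
    (by push_cast; linarith) (by push_cast; linarith) 1 β x δ x' δ'
  simp only [semC] at h
  push_cast at h
  unfold Br3
  linarith

theorem cl3b1 : cellOK [(1024, T3_base), (-3138, T3_er), (-288, T3_c1r), (-15312, T3_cbr), (-2328, T3_cE1), (5008, T3_t1), (24, T3_t2), (2568, T3_s1), (368, T3_s2), (14898, T3_tb)]
    ⟨1, 2, 2, 7⟩ ⟨0, 1, 1, 7⟩ ⟨1, 2, 2, 5⟩ = true := by decide +kernel

lemma gd3b1 {r u τ : ℝ} (h1 : (1 / 2) ≤ r) (h1' : r ≤ 1) (h2 : 0 ≤ u)
    (h2' : u ≤ 1) (h3 : (1 / 2) ≤ τ) (h3' : τ ≤ 1) :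
    Gc3 (-523 / 512) (-3 / 256) (-319 / 512) (-97 / 128) r u τ := by
  refine ⟨(313 / 512), (3 / 1024), 0, (321 / 1024), (23 / 512), 0, (2483 / 1024), by norm_num, by norm_num, by norm_num, by norm_num,
    by norm_num, by norm_num, by norm_num, ?_⟩
  intro β x δ x' δ'
  have h := cell_sound cl3b1 (x1 := r) (x2 := u) (x3 := τ) (by push_cast; linarith)
    (by push_cast; linarith) (by push_cast; linarith) (by push_cast; linarith)
    (by push_cast; linarith) (by push_cast; linarith) 1 β x δ x' δ'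
  simp only [semC] at h
  push_cast at h
  unfold Br3
  linarith

end Pool.G1.ZB
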