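import Pool.Agent.Work.MP_b5407d_g1.Pl_ZI4

/-!
# G1, P2: cells checked by the kernel
-/

set_option autoImplicit false
set_option maxRecDepth 100000

namespace Pool.G1.ZB
open Pool.G1.Gap

theorem cl4a0 : cellOK [(1024, T4_base), (-1806, T4_er), (144, T4_c1r), (-17328, T4_cbr), (-3072, T4_cE1), (88, T4_t2), (864, T4_t3), (96, T4_s2), (1112, T4_s3), (10452, T4_tb)]
    ⟨0, 1, 2, 7⟩ ⟨0, 1, 2, 7⟩ ⟨0, 1, 2, 5⟩ = true := by decide +kernel

lemma gd4a0 {r u τ : ℝ} (h1 : 0 ≤ r) (h1' : r ≤ (1 / 2)) (h2 : 0 ≤ u)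
    (h2' : u ≤ (1 / 2)) (h3 : 0 ≤ τ) (h3' : τ ≤ (1 / 2)) :
    Gc4 (-301 / 512) (3 / 512) (-361 / 512) (-1) r u τ := by
  refine ⟨0, (11 / 1024), (27 / 256), 0, (3 / 256), (139 / 1024), (871 / 512), by norm_num, by norm_num, by norm_num, by norm_num,
    by norm_num, by norm_num, by norm_num, ?_⟩
  intro β x δ x' δ'
  have h := cell_sound cl4a0 (x1 := r) (x2 := u) (x3 := τ) (by push_cast; linarith)
    (by push_cast; linarith) (by push_cast; linarith) (by push_cast; linarith)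
    (by push_cast; linarith) (by push_cast; linarith) 1 β x δ x' δ'
  simp only [semC] at h
  push_cast at h
  unfold Br4
  linarith

theorem cl4a1 : cellOK [(1024, T4_base), (-1806, T4_er), (144, T4_c1r), (-17328, T4_cbr), (-3072, T4_cE1), (960, T4_t3), (1520, T4_s3), (7932, T4_tb)]
    ⟨0, 1, 2, 7⟩ ⟨1, 2, 2, 7⟩ ⟨0, 1, 2, 5⟩ = true := by decide +kernel

lemma gd4a1 {r u τ : ℝ} (h1 : 0 ≤ r) (h1' : r ≤ (1 / 2)) (h2 : (1 / 2) ≤ u)
    (h2' : u ≤ 1) (h3 : 0 ≤ τ) (h3' : τ ≤ (1 / 2)) :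
    Gc4 (-301 / 512) (3 / 512) (-361 / 512) (-1) r u τ := by
  refine ⟨0, 0, (15 / 128), 0, 0, (95 / 512), (661 / 512), by norm_num, by norm_num, by norm_num, by norm_num,
    by norm_num, by norm_num, by norm_num, ?_⟩
  intro β x δ x' δ'
  have h := cell_sound cl4a1 (x1 := r) (x2 := u) (x3 := τ) (by push_cast; linarith)
    (by push_cast; linarith) (by push_cast; linarith) (by push_cast; linarith)
    (by push_cast; linarith) (by push_cast; linarith) 1 β x δ x' δ'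
  simp only [semC] at h
  push_cast at h
  unfold Br4
  linarith

theorem cl4a2 : cellOK [(1024, T4_base), (-1806, T4_er), (144, T4_c1r), (-17328, T4_cbr), (-3072, T4_cE1), (1368, T4_t3), (1368, T4_s3), (1218, T4_tb)]
    ⟨1, 2, 2, 7⟩ ⟨1, 2, 2, 7⟩ ⟨0, 1, 2, 5⟩ = true := by decide +kernel

lemma gd4a2 {r u τ : ℝ} (h1 : (1 / 2) ≤ r) (h1' : r ≤ 1) (h2 : (1 / 2) ≤ u)
    (h2' : u ≤ 1) (h3 : 0 ≤ τ) (h3' : τ ≤ (1 / 2)) :
    Gc4 (-301 / 512) (3 / 512) (-361 / 512) (-1) r u τ := by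
  refine ⟨0, 0, (171 / 1024), 0, 0, (171 / 1024), (203 / 1024), by norm_num, by norm_num, by norm_num, by norm_num,
    by norm_num, by norm_num, by norm_num, ?_⟩
  intro β x δ x' δ'
  have h := cell_sound cl4a2 (x1 := r) (x2 := u) (x3 := τ) (by push_cast; linarith)
    (by push_cast; linarith) (by push_cast; linarith) (by push_cast; linarith)
    (by push_cast; linarith) (by push_cast; linarith) 1 β x δ x' δ'
  simp only [semC] at h
  push_cast at h
  unfold Br4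
  linarith

end Pool.G1.ZB
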