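import Pool.Agent.Work.MP_b5407d_g1.Pl_ZI4

/-!
# G1, P2: cells checked by the kernel
-/

set_option autoImplicit false
set_option maxRecDepth 100000

namespace Pool.G1.ZB
open Pool.G1.Gap

theorem cl4b0 : cellOK [(1024, T4_base), (-3138, T4_er), (-288, T4_c1r), (-15312, T4_cbr), (-2328, T4_cE1), (384, T4_t1), (392, T4_t2), (792, T4_t3), (296, T4_s1), (216, T4_s2), (1160, T4_s3), (12738, T4_tb)]
    ⟨0, 1, 2, 7⟩ ⟨0, 1, 1, 7⟩ ⟨1, 2, 2, 5⟩ = true := by decide +kernel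

lemma gd4b0 {r u τ : ℝ} (h1 : 0 ≤ r) (h1' : r ≤ (1 / 2)) (h2 : 0 ≤ u)
    (h2' : u ≤ 1) (h3 : (1 / 2) ≤ τ) (h3' : τ ≤ 1) :
    Gc4 (-523 / 512) (-3 / 256) (-319 / 512) (-97 / 128) r u τ := by
  refine ⟨(3 / 64), (49 / 1024), (99 / 1024), (37 / 1024), (27 / 1024), (145 / 1024), (2123 / 1024), by norm_num, by norm_num, by norm_num, by norm_num,
    by norm_num, by norm_num, by norm_num, ?_⟩
  intro β x δ x' δ'
  have h := cell_sound cl4b0 (x1 := r) (x2 := u) (x3 := τ) (by push_cast; linarith)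
    (by push_cast; linarith) (by push_cast; linarith) (by push_cast; linarith)
    (by push_cast; linarith) (by push_cast; linarith) 1 β x δ x' δ'
  simp only [semC] at h
  push_cast at h
  unfold Br4
  linarith

theorem cl4b1 : cellOK [(1024, T4_base), (-3138, T4_er), (-288, T4_c1r), (-15312, T4_cbr), (-2328, T4_cE1), (1208, T4_t3), (1160, T4_s3), (8172, T4_tb)]
    ⟨1, 2, 2, 7⟩ ⟨0, 1, 1, 7⟩ ⟨1, 2, 2, 5⟩ = true := by decide +kernel

lemma gd4b1 {r u τ : ℝ} (h1 : (1 / 2) ≤ r) (h1' : r ≤ 1) (h2 : 0 ≤ u)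
    (h2' : u ≤ 1) (h3 : (1 / 2) ≤ τ) (h3' : τ ≤ 1) :
    Gc4 (-523 / 512) (-3 / 256) (-319 / 512) (-97 / 128) r u τ := by
  refine ⟨0, 0, (151 / 1024), 0, 0, (145 / 1024), (681 / 512), by norm_num, by norm_num, by norm_num, by norm_num,
    by norm_num, by norm_num, by norm_num, ?_⟩
  intro β x δ x' δ'
  have h := cell_sound cl4b1 (x1 := r) (x2 := u) (x3 := τ) (by push_cast; linarith)
    (by push_cast; linarith) (by push_cast; linarith) (by push_cast; linarith)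
    (by push_cast; linarith) (by push_cast; linarith) 1 β x δ x' δ'
  simp only [semC] at h
  push_cast at h
  unfold Br4
  linarith

end Pool.G1.ZB
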