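import Pool.Agent.Work.MP_b5407d_g1.Pl_FORMX
import Pool.Agent.Work.MP_b5407d_g1.Pl_ZB

/-!
# G1, P2: the pieces of the form `FX`
-/

set_option autoImplicit false

namespace Pool.G1.ZB
open Pool.G1.Gap

lemma e1_nil (x3 : ℝ) : e1 x3 [] = 0 := rfl
lemma e1_cons (x3 : ℝ) (a : ℤ) (l : List ℤ) : e1 x3 (a :: l) = a + x3 * e1 x3 l := rfl
lemma e2_nil (x2 x3 : ℝ) : e2 x2 x3 [] = 0 := rfl
lemma e2_cons (x2 x3 : ℝ) (a : List ℤ) (l : List (List ℤ)) :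
    e2 x2 x3 (a :: l) = e1 x3 a + x2 * e2 x2 x3 l := rfl
lemma e3_nil (x1 x2 x3 : ℝ) : e3 x1 x2 x3 [] = 0 := rfl
lemma e3_cons (x1 x2 x3 : ℝ) (a : List (List ℤ)) (l : List (List (List ℤ))) :
    e3 x1 x2 x3 (a :: l) = e2 x2 x3 a + x1 * e3 x1 x2 x3 l := rfl
lemma dotG_nil' {α : Type} (φ : α → ℝ) (l : List α) : dotG φ [] l = 0 := by simp [dotG]
lemma dotG_cons' {α : Type} (φ : α → ℝ) (w : ℝ) (ws : List ℝ) (a : α) (l : List α) :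
    dotG φ (w :: ws) (a :: l) = w * φ a + dotG φ ws l := rfl

/-- the base piece of `FX` -/
noncomputable def FXb (τ a b N1 N2 N3 k2 N1' N2' N3' k2' β x δ x' δ' : ℝ) : ℝ :=
  EX N1 N2 N3 k2 ((2 + (a - b)) / 8) ((2 - (a - b) + 2 * (a - b) * k2) / 8) ((2 - (a - b)) / 8)
    0 0 0 β x δ +
  EX N1' N2' N3' k2' ((2 - (a - b)) / 8) ((2 + (a - b) - 2 * (a - b) * k2') / 8) ((2 + (a - b)) / 8)
    0 0 0 β x' δ' -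
  2 * (1 - a ^ 2) * (1 + τ * a) * Px τ a β x ^ 2 - 2 * (1 - b ^ 2) * (1 + τ * b) * Px τ b β x' ^ 2 +
  (2 - a ^ 2 - b ^ 2) / 8 - (2 - a ^ 2 - b ^ 2) * β / 2 -
  τ * (a * (1 - a ^ 2) + b * (1 - b ^ 2)) / 24 -
  (a * (1 - a ^ 2) * Px τ a β x + b * (1 - b ^ 2) * Px τ b β x') -
  τ / 3 * ((1 - a ^ 2) * Px τ a β x + (1 - b ^ 2) * Px τ b β x') * (1 + 2 * β) +
  τ / 6 * (a + b) * β ^ 2

/-- the `er` piece of `FX` -/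
noncomputable def FXer (τ a b N1 N2 N3 k2 N1' N2' N3' k2' β x δ x' δ' : ℝ) : ℝ :=
  (rX N1 N2 N3 k2 β x δ + rX N1' N2' N3' k2' β x' δ') *
    ((1 - a ^ 2) * Px τ a β x + (1 - b ^ 2) * Px τ b β x' - (a + b) * β / 2)

/-- the `c1r` piece of `FX` -/
noncomputable def FXc1r (a b N1 N2 N3 k2 N1' N2' N3' k2' β x δ x' δ' : ℝ) : ℝ :=
  (a + b) * (rX N1 N2 N3 k2 β x δ + rX N1' N2' N3' k2' β x' δ')

/-- the `cE1` piece of `FX` -/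
noncomputable def FXcE1 (τ a b N1 N2 N3 k2 N1' N2' N3' k2' β x δ x' δ' : ℝ) : ℝ :=
  (a + b) * ((-(N1 * gx1 N1 N2 N3 k2 β x δ ^ 2) + (2 * k2 - 1) * (N2 * gx2 N1 N2 N3 k2 β x δ ^ 2) +
    N3 * gx3 N1 N2 N3 k2 β x δ ^ 2) / 8 +
  (-(N1' * gx1 N1' N2' N3' k2' β x' δ' ^ 2) + (2 * k2' - 1) * (N2' * gx2 N1' N2' N3' k2' β x' δ' ^ 2) +
    N3' * gx3 N1' N2' N3' k2' β x' δ' ^ 2) / 8 +
  (τ * β ^ 2 / 4 - β * (rX N1 N2 N3 k2 β x δ + rX N1' N2' N3' k2' β x' δ')))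

/-- the piece of a local multiplier -/
noncomputable def FXt (N g : ℝ) : ℝ := N * (g * (g - 2 / 3))

lemma FX_split (er c1r cbr cE1 τ a b b0 b1 N1 N2 N3 k2 N1' N2' N3' k2' t1 t2 t3 t1' t2' t3' tb : ℝ)
    (β x δ x' δ' : ℝ) :
    FX er c1r cbr cE1 τ a b b0 b1 N1 N2 N3 k2 N1' N2' N3' k2' t1 t2 t3 t1' t2' t3' tb β x δ x' δ' =
    FXb τ a b N1 N2 N3 k2 N1' N2' N3' k2' β x δ x' δ' +
    er * FXer τ a b N1 N2 N3 k2 N1' N2' N3' k2' β x δ x' δ' +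
    (c1r + cbr * β) * FXc1r a b N1 N2 N3 k2 N1' N2' N3' k2' β x δ x' δ' +
    cE1 * FXcE1 τ a b N1 N2 N3 k2 N1' N2' N3' k2' β x δ x' δ' +
    t1 * FXt N1 (gx1 N1 N2 N3 k2 β x δ) + t2 * FXt N2 (gx2 N1 N2 N3 k2 β x δ) +
    t3 * FXt N3 (gx3 N1 N2 N3 k2 β x δ) + t1' * FXt N1' (gx1 N1' N2' N3' k2' β x' δ') +
    t2' * FXt N2' (gx2 N1' N2' N3' k2' β x' δ') + t3' * FXt N3' (gx3 N1' N2' N3' k2' β x' δ') -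
    tb * ((β - b0) * (b1 - β)) := by
  unfold FX FXb FXer FXc1r FXcE1 EX FXt
  ring

/-- the certificate statement at one `(τ, a, b)`, for all `β` in `[1/8, 1/4]` -/
def GoodX (er c1r cbr cE1 τ a b N1 N2 N3 k2 N1' N2' N3' k2' : ℝ) : Prop :=
  ∃ t1 t2 t3 t1' t2' t3' tb : ℝ,
    0 ≤ t1 ∧ 0 ≤ t2 ∧ 0 ≤ t3 ∧ 0 ≤ t1' ∧ 0 ≤ t2' ∧ 0 ≤ t3' ∧ 0 ≤ tb ∧
    ∀ β x δ x' δ' : ℝ,
      0 ≤ FX er c1r cbr cE1 τ a b (1 / 8) (1 / 4) N1 N2 N3 k2 N1' N2' N3' k2' t1 t2 t3 t1' t2' t3' tb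
        β x δ x' δ'

end Pool.G1.ZB
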