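import Pool.Agent.Work.MP_b5407d_g1.Pl_ZB

/-!
# G1, P2: tables of the form `FX` in chart 1
-/

set_option autoImplicit false

namespace Pool.G1.ZB

/-- table -/
noncomputable def T1_base : Tab := [
  [[[48, -16], [48, 16]], [[-24, 24], [], [-24, -24]], [[0, -8], [], [], [0, 8]]],
  [[[-192, 96, 32], [-192, -96, 32]], [[96, -144, -16], [], [96, 144, -16]], [[0, 48], [], [],
    [0, -48]]],
  [[[-192, 128, 64]], [[288, -448, 0, 32]], [[-96, 384, -160, -32]], [[0, -96, 120, 8]], [[0, 0,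
    -24]]],
  [],
  [[[], [192, 128, -64]], [[], [], [-288, -448, 0, 32]], [[], [], [], [96, 384, 160, -32]], [[],
    [], [], [], [0, -96, -120, 8]], [[], [], [], [], [], [0, 0, 24]]],
  [],
  [[[192, -128, 16, -48], [192, 128, 16, 48]], [[-48, 96, -8, 72], [-96], [-48, -96, -8, -72]],
    [[0, -24, 0, -24], [0, -24], [0, 24], [0, 24, 0, 24]]],
  [[[384, -320, 128, -192]], [[-384, 736, -384, 448, -96], [-192, 192]], [[96, -480, 352, -352,
    192], [96, -288, 96]], [[0, 96, -144, 88, -120], [0, 96, -96]], [[0, 0, 24, 0, 24], [0, 0,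
    24]]],
  [],
  [[[], [-384, -320, -128, -192]], [[], [192, 192], [384, 736, 384, 448, 96]], [[], [], [-96,
    -288, -96], [-96, -480, -352, -352, -192]], [[], [], [], [0, 96, 96], [0, 96, 144, 88, 120]],
    [[], [], [], [], [0, 0, -24], [0, 0, -24, 0, -24]]],
  [],
  [[[192, -192, 192, -192]], [[-384, 768, -672, 672, -192], [-96, 96]], [[240, -912, 1008, -960,
    528, -48], [144, -336, 144]], [[-48, 432, -720, 672, -552, 120], [-48, 288, -288, 48]], [[0,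
    -72, 252, -240, 252, -108], [0, -72, 180, -72]], [[0, 0, -36, 48, -42, 42], [0, 0, -36, 36]],
    [[0, 0, 0, -6, 0, -6], [0, 0, 0, -6]]],
  [],
  [],
  [],
  [[[48, 0, -12], [48, 0, -12]], [[-72, 48, 30, -6], [-72, 48, 30, -6]], [[24, -72, -12, 15],
    [24, -72, -12, 15]], [[0, 24, -12, -12], [0, 24, -12, -12]], [[0, 0, 6, 3], [0, 0, 6, 3]]],
  [],
  [],
  [[[], [192, 192, 192, 192]], [[], [-96, -96], [-384, -768, -672, -672, -192]], [[], [], [144,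
    336, 144], [240, 912, 1008, 960, 528, 48]], [[], [], [], [-48, -288, -288, -48], [-48, -432,
    -720, -672, -552, -120]], [[], [], [], [], [0, 72, 180, 72], [0, 72, 252, 240, 252, 108]],
    [[], [], [], [], [], [0, 0, -36, -36], [0, 0, -36, -48, -42, -42]], [[], [], [], [], [], [],
    [0, 0, 0, 6], [0, 0, 0, 6, 0, 6]]],
  [],
  [[[48, 0, -12], [48, 0, -12]], [[], [-72, -48, 30, 6], [-72, -48, 30, 6]], [[], [], [24, 72,
    -12, -15], [24, 72, -12, -15]], [[], [], [], [0, -24, -12, 12], [0, -24, -12, 12]], [[], [],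
    [], [], [0, 0, 6, -3], [0, 0, 6, -3]]]]

/-- table -/
noncomputable def T1_er : Tab := [
  [],
  [],
  [],
  [],
  [],
  [],
  [[[0, 16, -16], [0, -16, -16]], [[0, 0, 8], [], [0, 0, 8]]],
  [[[0, 32, -32]], [[-16, 8, 48, -24], [16, 8, -16, -8]], [[0, -16, -8, 24], [0, 8, 12, 4], [0,
    -8, 4, 4]], [[0, 0, -4, -6], [], [0, 0, -4, -2]]],
  [[[-16, 16, 4, -4], [16, 16, -4, -4]], [[16, -32, 0, 10], [-16, -8, 16, 8], [0, -8, 0, 2]],
    [[0, 16, -8, -8], [0, -8, -12, -4], [0, 8, -4, -4]], [[0, 0, 4, 2], [], [0, 0, 4, 2]]],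
  [[[], [0, 32, 32]], [[], [-16, 8, 16, -8], [16, 8, -48, -24]], [[], [0, -8, -4, 4], [0, 8, -12,
    4], [0, -16, 8, 24]], [[], [], [0, 0, 4, -2], [], [0, 0, 4, -6]]],
  [[[16, -16, -4, 4], [-16, -16, 4, 4]], [[0, 8, 0, -2], [-16, 8, 16, -8], [16, 32, 0, -10]],
    [[], [0, -8, -4, 4], [0, 8, -12, 4], [0, -16, -8, 8]], [[], [], [0, 0, 4, -2], [], [0, 0, 4,
    -2]]],
  [[], [[-32, 48, 0, -16]], [[16, -72, 40, 24, -8]], [[0, 24, -44, -4, 12]], [[0, 0, 12, -6,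
    -6]], [[0, 0, 0, 2, 1]]],
  [[[-32, 32, 8, -8]], [[48, -96, 12, 28, -4]], [[-16, 88, -56, -28, 12]], [[0, -24, 48, 4,
    -13]], [[0, 0, -12, 6, 6]], [[0, 0, 0, -2, -1]]],
  [[], [[], [-64, 0, 64]], [[], [16, -56, -40, 24, -8], [16, 56, -40, -24, -8]], [[], [0, 16, -8,
    -16, 8], [0, 0, 56, 0, 8], [0, -16, -8, 16, 8]], [[], [0, 0, 4, 2, -2], [0, 0, -8, 12, -4],
    [0, 0, -8, -12, -4], [0, 0, 4, -2, -2]], [[], [], [0, 0, 0, -2, 1], [], [0, 0, 0, 2, 1]]],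
  [[[32, -32, -8, 8]], [[-16, 48, -12, -12, 4], [-32, 16, 32, -16]], [[0, -16, 16, 4, -4], [16,
    -40, -16, 32, -8], [0, 16, -24, 8]], [[0, 0, -4, 0, 1], [0, 16, -8, -16, 8], [0, -8, 28, -20,
    4]], [[], [0, 0, 4, 2, -2], [0, 0, -8, 12, -4]], [[], [], [0, 0, 0, -2, 1]]],
  [],
  [[[], [-32, -32, 8, 8]], [[], [32, 16, -32, -16], [16, 48, 12, -12, -4]], [[], [0, 16, 24, 8],
    [-16, -40, 16, 32, 8], [0, -16, -16, 4, 4]], [[], [], [0, -8, -28, -20, -4], [0, 16, 8, -16,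
    -8], [0, 0, 4, 0, -1]], [[], [], [], [0, 0, 8, 12, 4], [0, 0, -4, 2, 2]], [[], [], [], [],
    [0, 0, 0, -2, -1]]],
  [],
  [[], [[], [], [-32, -48, 0, 16]], [[], [], [], [16, 72, 40, -24, -8]], [[], [], [], [], [0,
    -24, -44, 4, 12]], [[], [], [], [], [], [0, 0, 12, 6, -6]], [[], [], [], [], [], [], [0, 0,
    0, -2, 1]]],
  [[[], [32, 32, -8, -8]], [[], [], [-48, -96, -12, 28, 4]], [[], [], [], [16, 88, 56, -28,
    -12]], [[], [], [], [], [0, -24, -48, 4, 13]], [[], [], [], [], [], [0, 0, 12, 6, -6]], [[],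
    [], [], [], [], [], [0, 0, 0, -2, 1]]],
  []]

/-- table -/
noncomputable def T1_c1r : Tab := [
  [],
  [[[0, -4], [0, 4]]],
  [[], [[4, -2, -2], [-4, 2, 2]], [[0, 2, 1], [0, -2, -1]]],
  [[[4, 0, -1], [-4, 0, 1]], [[-4, 2, 2], [4, -2, -2]], [[0, -2, -1], [0, 2, 1]]],
  [[], [[], [4, 2, -2], [-4, -2, 2]], [[], [], [0, -2, 1], [0, 2, -1]]],
  [[[-4, 0, 1], [4, 0, -1]], [[], [4, 2, -2], [-4, -2, 2]], [[], [], [0, -2, 1], [0, 2, -1]]],
  [],
  [],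
  [],
  [],
  [],
  [],
  [],
  [],
  [],
  [],
  [],
  [],
  [],
  [],
  []]

/-- table -/
noncomputable def T1_cbr : Tab := [
  [],
  [],
  [],
  [],
  [],
  [],
  [[[0, -4], [0, 4]]],
  [[], [[4, -2, -2], [-4, 2, 2]], [[0, 2, 1], [0, -2, -1]]],
  [[[4, 0, -1], [-4, 0, 1]], [[-4, 2, 2], [4, -2, -2]], [[0, -2, -1], [0, 2, 1]]],
  [[], [[], [4, 2, -2], [-4, -2, 2]], [[], [], [0, -2, 1], [0, 2, -1]]],
  [[[-4, 0, 1], [4, 0, -1]], [[], [4, 2, -2], [-4, -2, 2]], [[], [], [0, -2, 1], [0, 2, -1]]],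
  [],
  [],
  [],
  [],
  [],
  [],
  [],
  [],
  [],
  []]

/-- table -/
noncomputable def T1_cE1 : Tab := [
  [],
  [],
  [],
  [],
  [],
  [],
  [],
  [],
  [],
  [],
  [],
  [[], [[32, -32], [-32, 32]], [[-32, 72, -16, -8], [32, -72, 16, 8]], [[0, -32, 24, 8], [0, 32,
    -24, -8]], [[0, 0, -8, -2], [0, 0, 8, 2]]],
  [[], [[-32, 32, 8, -8], [32, -32, -8, 8]], [[32, -64, 0, 20], [-32, 64, 0, -20]], [[0, 32, -16,
    -16], [0, -32, 16, 16]], [[0, 0, 8, 4], [0, 0, -8, -4]]],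
  [],
  [],
  [[[0, 8, 0, -2], [0, -8, 0, 2]], [[8, -16, 2, 6], [-8, 16, -2, -6]], [[-8, 16, -4, -7], [8,
    -16, 4, 7]], [[0, -8, 4, 4], [0, 8, -4, -4]], [[0, 0, -2, -1], [0, 0, 2, 1]]],
  [],
  [],
  [[], [[], [-32, -32], [32, 32]], [[], [], [32, 72, 16, -8], [-32, -72, -16, 8]], [[], [], [],
    [0, -32, -24, 8], [0, 32, 24, -8]], [[], [], [], [], [0, 0, 8, -2], [0, 0, -8, 2]]],
  [[], [[], [-32, -32, 8, 8], [32, 32, -8, -8]], [[], [], [32, 64, 0, -20], [-32, -64, 0, 20]],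
    [[], [], [], [0, -32, -16, 16], [0, 32, 16, -16]], [[], [], [], [], [0, 0, 8, -4], [0, 0, -8,
    4]]],
  [[[0, 8, 0, -2], [0, -8, 0, 2]], [[], [-8, -16, -2, 6], [8, 16, 2, -6]], [[], [], [8, 16, 4,
    -7], [-8, -16, -4, 7]], [[], [], [], [0, -8, -4, 4], [0, 8, 4, -4]], [[], [], [], [], [0, 0,
    2, -1], [0, 0, -2, 1]]]]

/-- table -/
noncomputable def T1_t1 : Tab := [
  [],
  [[[-16, 16]], [[0, -8]]],
  [[[-32, 32]], [[16, -48, 16]], [[0, 16, -16]], [[0, 0, 4]]],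
  [],
  [],
  [],
  [[[24, -24]], [[0, 12]]],
  [[[96, -96]], [[-48, 144, -48]], [[0, -48, 48]], [[0, 0, -12]]],
  [],
  [],
  [],
  [[[96, -96]], [[-96, 240, -96]], [[24, -168, 168, -24]], [[0, 36, -96, 36]], [[0, 0, 18, -18]],
    [[0, 0, 0, 3]]],
  [],
  [],
  [],
  [],
  [],
  [],
  [],
  [],
  []]

/-- table -/
noncomputable def T1_t2 : Tab := [
  [],
  [[[-16, 8]], [[16, -16]], [[0, 8]]],
  [[], [[16, -24, 8]], [[-16, 40, -20]], [[0, -16, 16]], [[0, 0, -4]]],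
  [[[-16, 0, 4]], [[16, -8, -8]], [[0, 8, 4]]],
  [],
  [],
  [[[24, -12]], [[-24, 24]], [[0, -12]]],
  [[], [[-48, 72, -24]], [[48, -120, 60]], [[0, 48, -48]], [[0, 0, 12]]],
  [[[48, 0, -12]], [[-48, 24, 24]], [[0, -24, -12]]],
  [],
  [],
  [[], [], [[24, -60, 48, -12]], [[-24, 96, -108, 36]], [[0, -36, 78, -39]], [[0, 0, -18, 18]],
    [[0, 0, 0, -3]]],
  [[], [[-48, 48, 12, -12]], [[48, -96, 0, 30]], [[0, 48, -24, -24]], [[0, 0, 12, 6]]],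
  [],
  [],
  [[[24, 12, -6, -3]], [[-24, 0, 18, 6]], [[0, -12, -12, -3]]],
  [],
  [],
  [],
  [],
  []]

/-- table -/
noncomputable def T1_t3 : Tab := [
  [],
  [[[-16, -8]]],
  [[], [[16, -8, -8]], [[0, 8, 4]]],
  [[[16, 0, -4]], [[-16, 8, 8]], [[0, -8, -4]]],
  [],
  [],
  [[[24, 12]]],
  [[], [[-48, 24, 24]], [[0, -24, -12]]],
  [[[-48, 0, 12]], [[48, -24, -24]], [[0, 24, 12]]],
  [],
  [],
  [[], [], [[24, -36, 0, 12]], [[0, 24, -12, -12]], [[0, 0, 6, 3]]],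
  [[], [[48, -48, -12, 12]], [[-48, 96, 0, -30]], [[0, -48, 24, 24]], [[0, 0, -12, -6]]],
  [],
  [],
  [[[24, -12, -6, 3]], [[-48, 48, 12, -12]], [[24, -60, 0, 18]], [[0, 24, -12, -12]], [[0, 0, 6,
    3]]],
  [],
  [],
  [],
  [],
  []]

/-- table -/
noncomputable def T1_s1 : Tab := [
  [],
  [[[-16, 8]]],
  [],
  [],
  [[], [[], [-16, -8, 8]], [[], [], [0, 8, -4]]],
  [[[16, 0, -4]], [[], [-16, -8, 8]], [[], [], [0, 8, -4]]],
  [[[24, -12]]],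
  [],
  [],
  [[], [[], [48, 24, -24]], [[], [], [0, -24, 12]]],
  [[[-48, 0, 12]], [[], [48, 24, -24]], [[], [], [0, -24, 12]]],
  [],
  [],
  [],
  [],
  [],
  [],
  [],
  [[], [], [[], [], [24, 36, 0, -12]], [[], [], [], [0, -24, -12, 12]], [[], [], [], [], [0, 0,
    6, -3]]],
  [[], [[], [-48, -48, 12, 12]], [[], [], [48, 96, 0, -30]], [[], [], [], [0, -48, -24, 24]],
    [[], [], [], [], [0, 0, 12, -6]]],
  [[[24, 12, -6, -3]], [[], [-48, -48, 12, 12]], [[], [], [24, 60, 0, -18]], [[], [], [], [0,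
    -24, -12, 12]], [[], [], [], [], [0, 0, 6, -3]]]]

/-- table -/
noncomputable def T1_s2 : Tab := [
  [],
  [[[-16, -8]], [[], [16, 16]], [[], [], [0, -8]]],
  [],
  [],
  [[], [[], [-16, -24, -8]], [[], [], [16, 40, 20]], [[], [], [], [0, -16, -16]], [[], [], [],
    [], [0, 0, 4]]],
  [[[-16, 0, 4]], [[], [16, 8, -8]], [[], [], [0, -8, 4]]],
  [[[24, 12]], [[], [-24, -24]], [[], [], [0, 12]]],
  [],
  [],
  [[], [[], [48, 72, 24]], [[], [], [-48, -120, -60]], [[], [], [], [0, 48, 48]], [[], [], [],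
    [], [0, 0, -12]]],
  [[[48, 0, -12]], [[], [-48, -24, 24]], [[], [], [0, 24, -12]]],
  [],
  [],
  [],
  [],
  [],
  [],
  [],
  [[], [], [[], [], [24, 60, 48, 12]], [[], [], [], [-24, -96, -108, -36]], [[], [], [], [], [0,
    36, 78, 39]], [[], [], [], [], [], [0, 0, -18, -18]], [[], [], [], [], [], [], [0, 0, 0, 3]]],
  [[], [[], [48, 48, -12, -12]], [[], [], [-48, -96, 0, 30]], [[], [], [], [0, 48, 24, -24]],
    [[], [], [], [], [0, 0, -12, 6]]],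
  [[[24, -12, -6, 3]], [[], [-24, 0, 18, -6]], [[], [], [0, 12, -12, 3]]]]

/-- table -/
noncomputable def T1_s3 : Tab := [
  [],
  [[[], [-16, -16]], [[], [], [0, 8]]],
  [],
  [],
  [[[], [32, 32]], [[], [], [-16, -48, -16]], [[], [], [], [0, 16, 16]], [[], [], [], [], [0, 0,
    -4]]],
  [],
  [[[], [24, 24]], [[], [], [0, -12]]],
  [],
  [],
  [[[], [-96, -96]], [[], [], [48, 144, 48]], [[], [], [], [0, -48, -48]], [[], [], [], [], [0,
    0, 12]]],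
  [],
  [],
  [],
  [],
  [],
  [],
  [],
  [],
  [[[], [96, 96]], [[], [], [-96, -240, -96]], [[], [], [], [24, 168, 168, 24]], [[], [], [], [],
    [0, -36, -96, -36]], [[], [], [], [], [], [0, 0, 18, 18]], [[], [], [], [], [], [], [0, 0, 0,
    -3]]],
  [],
  []]

/-- table -/
noncomputable def T1_tb : Tab := [
  [[[1]]],
  [[[-12]]],
  [],
  [],
  [],
  [],
  [[[32]]],
  [],
  [],
  [],
  [],
  [],
  [],
  [],
  [],
  [],
  [],
  [],
  [],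
  [],
  []]

end Pool.G1.ZB
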