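import Pool.Agent.Work.MP_b5407d_g1.Pl_ZB

/-!
# G1, P2: tables of the form `FX` in chart 2
-/

set_option autoImplicit false

namespace Pool.G1.ZB

/-- table -/
noncomputable def T2_base : Tab := [
  [[[48, 16], [48, -16]], [[-24, -24], [], [-24, 24]], [[0, 8], [], [], [0, -8]]],
  [[[-192, -96, 32], [-192, 96, 32]], [[96, 144, -16], [], [96, -144, -16]], [[0, -48], [], [],
    [0, 48]]],
  [[[], [-192, 128, 64]], [[], [], [288, -448, 0, 32]], [[], [], [], [-96, 384, -160, -32]], [[],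
    [], [], [], [0, -96, 120, 8]], [[], [], [], [], [], [0, 0, -24]]],
  [],
  [[[192, 128, -64]], [[-288, -448, 0, 32]], [[96, 384, 160, -32]], [[0, -96, -120, 8]], [[0, 0,
    24]]],
  [],
  [[[192, 128, 16, 48], [192, -128, 16, -48]], [[-48, -96, -8, -72], [-96], [-48, 96, -8, 72]],
    [[0, 24, 0, 24], [0, 24], [0, -24], [0, -24, 0, -24]]],
  [[[], [384, -320, 128, -192]], [[], [-192, 192], [-384, 736, -384, 448, -96]], [[], [], [96,
    -288, 96], [96, -480, 352, -352, 192]], [[], [], [], [0, 96, -96], [0, 96, -144, 88, -120]],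
    [[], [], [], [], [0, 0, 24], [0, 0, 24, 0, 24]]],
  [],
  [[[-384, -320, -128, -192]], [[384, 736, 384, 448, 96], [192, 192]], [[-96, -480, -352, -352,
    -192], [-96, -288, -96]], [[0, 96, 144, 88, 120], [0, 96, 96]], [[0, 0, -24, 0, -24], [0, 0,
    -24]]],
  [],
  [[[], [192, -192, 192, -192]], [[], [-96, 96], [-384, 768, -672, 672, -192]], [[], [], [144,
    -336, 144], [240, -912, 1008, -960, 528, -48]], [[], [], [], [-48, 288, -288, 48], [-48, 432,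
    -720, 672, -552, 120]], [[], [], [], [], [0, -72, 180, -72], [0, -72, 252, -240, 252, -108]],
    [[], [], [], [], [], [0, 0, -36, 36], [0, 0, -36, 48, -42, 42]], [[], [], [], [], [], [], [0,
    0, 0, -6], [0, 0, 0, -6, 0, -6]]],
  [],
  [],
  [],
  [[[48, 0, -12], [48, 0, -12]], [[], [-72, 48, 30, -6], [-72, 48, 30, -6]], [[], [], [24, -72,
    -12, 15], [24, -72, -12, 15]], [[], [], [], [0, 24, -12, -12], [0, 24, -12, -12]], [[], [],
    [], [], [0, 0, 6, 3], [0, 0, 6, 3]]],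
  [],
  [],
  [[[192, 192, 192, 192]], [[-384, -768, -672, -672, -192], [-96, -96]], [[240, 912, 1008, 960,
    528, 48], [144, 336, 144]], [[-48, -432, -720, -672, -552, -120], [-48, -288, -288, -48]],
    [[0, 72, 252, 240, 252, 108], [0, 72, 180, 72]], [[0, 0, -36, -48, -42, -42], [0, 0, -36,
    -36]], [[0, 0, 0, 6, 0, 6], [0, 0, 0, 6]]],
  [],
  [[[48, 0, -12], [48, 0, -12]], [[-72, -48, 30, 6], [-72, -48, 30, 6]], [[24, 72, -12, -15],
    [24, 72, -12, -15]], [[0, -24, -12, 12], [0, -24, -12, 12]], [[0, 0, 6, -3], [0, 0, 6, -3]]]]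

/-- table -/
noncomputable def T2_er : Tab := [
  [],
  [],
  [],
  [],
  [],
  [],
  [[[0, -16, -16], [0, 16, -16]], [[0, 0, 8], [], [0, 0, 8]]],
  [[[], [0, 32, -32]], [[], [16, 8, -16, -8], [-16, 8, 48, -24]], [[], [0, -8, 4, 4], [0, 8, 12,
    4], [0, -16, -8, 24]], [[], [], [0, 0, -4, -2], [], [0, 0, -4, -6]]],
  [[[16, 16, -4, -4], [-16, 16, 4, -4]], [[0, -8, 0, 2], [-16, -8, 16, 8], [16, -32, 0, 10]],
    [[], [0, 8, -4, -4], [0, -8, -12, -4], [0, 16, -8, -8]], [[], [], [0, 0, 4, 2], [], [0, 0, 4,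
    2]]],
  [[[0, 32, 32]], [[16, 8, -48, -24], [-16, 8, 16, -8]], [[0, -16, 8, 24], [0, 8, -12, 4], [0,
    -8, -4, 4]], [[0, 0, 4, -6], [], [0, 0, 4, -2]]],
  [[[-16, -16, 4, 4], [16, -16, -4, 4]], [[16, 32, 0, -10], [-16, 8, 16, -8], [0, 8, 0, -2]],
    [[0, -16, -8, 8], [0, 8, -12, 4], [0, -8, -4, 4]], [[0, 0, 4, -2], [], [0, 0, 4, -2]]],
  [[], [[], [], [-32, 48, 0, -16]], [[], [], [], [16, -72, 40, 24, -8]], [[], [], [], [], [0, 24,
    -44, -4, 12]], [[], [], [], [], [], [0, 0, 12, -6, -6]], [[], [], [], [], [], [], [0, 0, 0,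
    2, 1]]],
  [[[], [-32, 32, 8, -8]], [[], [], [48, -96, 12, 28, -4]], [[], [], [], [-16, 88, -56, -28,
    12]], [[], [], [], [], [0, -24, 48, 4, -13]], [[], [], [], [], [], [0, 0, -12, 6, 6]], [[],
    [], [], [], [], [], [0, 0, 0, -2, -1]]],
  [[], [[], [-64, 0, 64]], [[], [16, 56, -40, -24, -8], [16, -56, -40, 24, -8]], [[], [0, -16,
    -8, 16, 8], [0, 0, 56, 0, 8], [0, 16, -8, -16, 8]], [[], [0, 0, 4, -2, -2], [0, 0, -8, -12,
    -4], [0, 0, -8, 12, -4], [0, 0, 4, 2, -2]], [[], [], [0, 0, 0, 2, 1], [], [0, 0, 0, -2, 1]]],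
  [[[], [32, -32, -8, 8]], [[], [-32, 16, 32, -16], [-16, 48, -12, -12, 4]], [[], [0, 16, -24,
    8], [16, -40, -16, 32, -8], [0, -16, 16, 4, -4]], [[], [], [0, -8, 28, -20, 4], [0, 16, -8,
    -16, 8], [0, 0, -4, 0, 1]], [[], [], [], [0, 0, -8, 12, -4], [0, 0, 4, 2, -2]], [[], [], [],
    [], [0, 0, 0, -2, 1]]],
  [],
  [[[-32, -32, 8, 8]], [[16, 48, 12, -12, -4], [32, 16, -32, -16]], [[0, -16, -16, 4, 4], [-16,
    -40, 16, 32, 8], [0, 16, 24, 8]], [[0, 0, 4, 0, -1], [0, 16, 8, -16, -8], [0, -8, -28, -20,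
    -4]], [[], [0, 0, -4, 2, 2], [0, 0, 8, 12, 4]], [[], [], [0, 0, 0, -2, -1]]],
  [],
  [[], [[-32, -48, 0, 16]], [[16, 72, 40, -24, -8]], [[0, -24, -44, 4, 12]], [[0, 0, 12, 6, -6]],
    [[0, 0, 0, -2, 1]]],
  [[[32, 32, -8, -8]], [[-48, -96, -12, 28, 4]], [[16, 88, 56, -28, -12]], [[0, -24, -48, 4,
    13]], [[0, 0, 12, 6, -6]], [[0, 0, 0, -2, 1]]],
  []]

/-- table -/
noncomputable def T2_c1r : Tab := [
  [],
  [[[0, 4], [0, -4]]],
  [[], [[], [-4, 2, 2], [4, -2, -2]], [[], [], [0, -2, -1], [0, 2, 1]]],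
  [[[-4, 0, 1], [4, 0, -1]], [[], [4, -2, -2], [-4, 2, 2]], [[], [], [0, 2, 1], [0, -2, -1]]],
  [[], [[-4, -2, 2], [4, 2, -2]], [[0, 2, -1], [0, -2, 1]]],
  [[[4, 0, -1], [-4, 0, 1]], [[-4, -2, 2], [4, 2, -2]], [[0, 2, -1], [0, -2, 1]]],
  [],
  [],
  [],
  [],
  [],
  [],
  [],
  [],
  [],
  [],
  [],
  [],
  [],
  [],
  []]

/-- table -/
noncomputable def T2_cbr : Tab := [
  [],
  [],
  [],
  [],
  [],
  [],
  [[[0, 4], [0, -4]]],
  [[], [[], [-4, 2, 2], [4, -2, -2]], [[], [], [0, -2, -1], [0, 2, 1]]],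
  [[[-4, 0, 1], [4, 0, -1]], [[], [4, -2, -2], [-4, 2, 2]], [[], [], [0, 2, 1], [0, -2, -1]]],
  [[], [[-4, -2, 2], [4, 2, -2]], [[0, 2, -1], [0, -2, 1]]],
  [[[4, 0, -1], [-4, 0, 1]], [[-4, -2, 2], [4, 2, -2]], [[0, 2, -1], [0, -2, 1]]],
  [],
  [],
  [],
  [],
  [],
  [],
  [],
  [],
  [],
  []]

/-- table -/
noncomputable def T2_cE1 : Tab := [
  [],
  [],
  [],
  [],
  [],
  [],
  [],
  [],
  [],
  [],
  [],
  [[], [[], [-32, 32], [32, -32]], [[], [], [32, -72, 16, 8], [-32, 72, -16, -8]], [[], [], [],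
    [0, 32, -24, -8], [0, -32, 24, 8]], [[], [], [], [], [0, 0, 8, 2], [0, 0, -8, -2]]],
  [[], [[], [32, -32, -8, 8], [-32, 32, 8, -8]], [[], [], [-32, 64, 0, -20], [32, -64, 0, 20]],
    [[], [], [], [0, -32, 16, 16], [0, 32, -16, -16]], [[], [], [], [], [0, 0, -8, -4], [0, 0, 8,
    4]]],
  [],
  [],
  [[[0, -8, 0, 2], [0, 8, 0, -2]], [[], [-8, 16, -2, -6], [8, -16, 2, 6]], [[], [], [8, -16, 4,
    7], [-8, 16, -4, -7]], [[], [], [], [0, 8, -4, -4], [0, -8, 4, 4]], [[], [], [], [], [0, 0,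
    2, 1], [0, 0, -2, -1]]],
  [],
  [],
  [[], [[32, 32], [-32, -32]], [[-32, -72, -16, 8], [32, 72, 16, -8]], [[0, 32, 24, -8], [0, -32,
    -24, 8]], [[0, 0, -8, 2], [0, 0, 8, -2]]],
  [[], [[32, 32, -8, -8], [-32, -32, 8, 8]], [[-32, -64, 0, 20], [32, 64, 0, -20]], [[0, 32, 16,
    -16], [0, -32, -16, 16]], [[0, 0, -8, 4], [0, 0, 8, -4]]],
  [[[0, -8, 0, 2], [0, 8, 0, -2]], [[8, 16, 2, -6], [-8, -16, -2, 6]], [[-8, -16, -4, 7], [8, 16,
    4, -7]], [[0, 8, 4, -4], [0, -8, -4, 4]], [[0, 0, -2, 1], [0, 0, 2, -1]]]]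

/-- table -/
noncomputable def T2_t1 : Tab := [
  [],
  [[[], [-16, 16]], [[], [], [0, -8]]],
  [[[], [-32, 32]], [[], [], [16, -48, 16]], [[], [], [], [0, 16, -16]], [[], [], [], [], [0, 0,
    4]]],
  [],
  [],
  [],
  [[[], [24, -24]], [[], [], [0, 12]]],
  [[[], [96, -96]], [[], [], [-48, 144, -48]], [[], [], [], [0, -48, 48]], [[], [], [], [], [0,
    0, -12]]],
  [],
  [],
  [],
  [[[], [96, -96]], [[], [], [-96, 240, -96]], [[], [], [], [24, -168, 168, -24]], [[], [], [],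
    [], [0, 36, -96, 36]], [[], [], [], [], [], [0, 0, 18, -18]], [[], [], [], [], [], [], [0, 0,
    0, 3]]],
  [],
  [],
  [],
  [],
  [],
  [],
  [],
  [],
  []]

/-- table -/
noncomputable def T2_t2 : Tab := [
  [],
  [[[-16, 8]], [[], [16, -16]], [[], [], [0, 8]]],
  [[], [[], [16, -24, 8]], [[], [], [-16, 40, -20]], [[], [], [], [0, -16, 16]], [[], [], [], [],
    [0, 0, -4]]],
  [[[-16, 0, 4]], [[], [16, -8, -8]], [[], [], [0, 8, 4]]],
  [],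
  [],
  [[[24, -12]], [[], [-24, 24]], [[], [], [0, -12]]],
  [[], [[], [-48, 72, -24]], [[], [], [48, -120, 60]], [[], [], [], [0, 48, -48]], [[], [], [],
    [], [0, 0, 12]]],
  [[[48, 0, -12]], [[], [-48, 24, 24]], [[], [], [0, -24, -12]]],
  [],
  [],
  [[], [], [[], [], [24, -60, 48, -12]], [[], [], [], [-24, 96, -108, 36]], [[], [], [], [], [0,
    -36, 78, -39]], [[], [], [], [], [], [0, 0, -18, 18]], [[], [], [], [], [], [], [0, 0, 0,
    -3]]],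
  [[], [[], [-48, 48, 12, -12]], [[], [], [48, -96, 0, 30]], [[], [], [], [0, 48, -24, -24]],
    [[], [], [], [], [0, 0, 12, 6]]],
  [],
  [],
  [[[24, 12, -6, -3]], [[], [-24, 0, 18, 6]], [[], [], [0, -12, -12, -3]]],
  [],
  [],
  [],
  [],
  []]

/-- table -/
noncomputable def T2_t3 : Tab := [
  [],
  [[[-16, -8]]],
  [[], [[], [16, -8, -8]], [[], [], [0, 8, 4]]],
  [[[16, 0, -4]], [[], [-16, 8, 8]], [[], [], [0, -8, -4]]],
  [],
  [],
  [[[24, 12]]],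
  [[], [[], [-48, 24, 24]], [[], [], [0, -24, -12]]],
  [[[-48, 0, 12]], [[], [48, -24, -24]], [[], [], [0, 24, 12]]],
  [],
  [],
  [[], [], [[], [], [24, -36, 0, 12]], [[], [], [], [0, 24, -12, -12]], [[], [], [], [], [0, 0,
    6, 3]]],
  [[], [[], [48, -48, -12, 12]], [[], [], [-48, 96, 0, -30]], [[], [], [], [0, -48, 24, 24]],
    [[], [], [], [], [0, 0, -12, -6]]],
  [],
  [],
  [[[24, -12, -6, 3]], [[], [-48, 48, 12, -12]], [[], [], [24, -60, 0, 18]], [[], [], [], [0, 24,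
    -12, -12]], [[], [], [], [], [0, 0, 6, 3]]],
  [],
  [],
  [],
  [],
  []]

/-- table -/
noncomputable def T2_s1 : Tab := [
  [],
  [[[-16, 8]]],
  [],
  [],
  [[], [[-16, -8, 8]], [[0, 8, -4]]],
  [[[16, 0, -4]], [[-16, -8, 8]], [[0, 8, -4]]],
  [[[24, -12]]],
  [],
  [],
  [[], [[48, 24, -24]], [[0, -24, 12]]],
  [[[-48, 0, 12]], [[48, 24, -24]], [[0, -24, 12]]],
  [],
  [],
  [],
  [],
  [],
  [],
  [],
  [[], [], [[24, 36, 0, -12]], [[0, -24, -12, 12]], [[0, 0, 6, -3]]],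
  [[], [[-48, -48, 12, 12]], [[48, 96, 0, -30]], [[0, -48, -24, 24]], [[0, 0, 12, -6]]],
  [[[24, 12, -6, -3]], [[-48, -48, 12, 12]], [[24, 60, 0, -18]], [[0, -24, -12, 12]], [[0, 0, 6,
    -3]]]]

/-- table -/
noncomputable def T2_s2 : Tab := [
  [],
  [[[-16, -8]], [[16, 16]], [[0, -8]]],
  [],
  [],
  [[], [[-16, -24, -8]], [[16, 40, 20]], [[0, -16, -16]], [[0, 0, 4]]],
  [[[-16, 0, 4]], [[16, 8, -8]], [[0, -8, 4]]],
  [[[24, 12]], [[-24, -24]], [[0, 12]]],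
  [],
  [],
  [[], [[48, 72, 24]], [[-48, -120, -60]], [[0, 48, 48]], [[0, 0, -12]]],
  [[[48, 0, -12]], [[-48, -24, 24]], [[0, 24, -12]]],
  [],
  [],
  [],
  [],
  [],
  [],
  [],
  [[], [], [[24, 60, 48, 12]], [[-24, -96, -108, -36]], [[0, 36, 78, 39]], [[0, 0, -18, -18]],
    [[0, 0, 0, 3]]],
  [[], [[48, 48, -12, -12]], [[-48, -96, 0, 30]], [[0, 48, 24, -24]], [[0, 0, -12, 6]]],
  [[[24, -12, -6, 3]], [[-24, 0, 18, -6]], [[0, 12, -12, 3]]]]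

/-- table -/
noncomputable def T2_s3 : Tab := [
  [],
  [[[-16, -16]], [[0, 8]]],
  [],
  [],
  [[[32, 32]], [[-16, -48, -16]], [[0, 16, 16]], [[0, 0, -4]]],
  [],
  [[[24, 24]], [[0, -12]]],
  [],
  [],
  [[[-96, -96]], [[48, 144, 48]], [[0, -48, -48]], [[0, 0, 12]]],
  [],
  [],
  [],
  [],
  [],
  [],
  [],
  [],
  [[[96, 96]], [[-96, -240, -96]], [[24, 168, 168, 24]], [[0, -36, -96, -36]], [[0, 0, 18, 18]],
    [[0, 0, 0, -3]]],
  [],
  []]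

/-- table -/
noncomputable def T2_tb : Tab := [
  [[[1]]],
  [[[-12]]],
  [],
  [],
  [],
  [],
  [[[32]]],
  [],
  [],
  [],
  [],
  [],
  [],
  [],
  [],
  [],
  [],
  [],
  [],
  [],
  []]

end Pool.G1.ZB
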