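import Pool.Agent.Work.MP_b5407d_g1.Pl_ZF
import Pool.Agent.Work.MP_b5407d_g1.Pl_ZT2

/-!
# G1, P2: the form `FX` in chart 2
-/

set_option autoImplicit false

namespace Pool.G1.ZB
open Pool.G1.Gap

lemma T2_base_eq (r u τ β x δ x' δ' : ℝ) :
    r * semT T2_base r u τ 1 β x δ x' δ' =
      192 * FXb τ (1 - r * u) (r - 1) ((1 - (1 - r * u)) * (1 - τ * (1 + (1 - r * u)) / 2)) ((1 - r * u) * (1 - τ * (1 - r * u) / 2)) (1 + τ / 2) 0 (1 - τ / 2) (-((r - 1) * (1 - τ * (r - 1) / 2))) ((1 + (r - 1)) * (1 + τ * (1 - (r - 1)) / 2)) 1 β x δ x' δ' := by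
  simp only [semT, T2_base, mons, dotG_cons', dotG_nil', e3_nil, e3_cons, e2_nil, e2_cons, e1_nil, e1_cons,
    Int.cast_ofNat, Int.cast_neg, Int.cast_zero, Int.cast_one]
  unfold FXb EX gx1 gx2 gx3 Px
  ring

lemma T2_er_eq (r u τ β x δ x' δ' : ℝ) :
    r * semT T2_er r u τ 1 β x δ x' δ' =
      64 * FXer τ (1 - r * u) (r - 1) ((1 - (1 - r * u)) * (1 - τ * (1 + (1 - r * u)) / 2)) ((1 - r * u) * (1 - τ * (1 - r * u) / 2)) (1 + τ / 2) 0 (1 - τ / 2) (-((r - 1) * (1 - τ * (r - 1) / 2))) ((1 + (r - 1)) * (1 + τ * (1 - (r - 1)) / 2)) 1 β x δ x' δ' := by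
  simp only [semT, T2_er, mons, dotG_cons', dotG_nil', e3_nil, e3_cons, e2_nil, e2_cons, e1_nil, e1_cons,
    Int.cast_ofNat, Int.cast_neg, Int.cast_zero, Int.cast_one]
  unfold FXer rX gx1 gx2 gx3 Px
  ring

lemma T2_c1r_eq (r u τ β x δ x' δ' : ℝ) :
    r * semT T2_c1r r u τ 1 β x δ x' δ' =
      8 * FXc1r (1 - r * u) (r - 1) ((1 - (1 - r * u)) * (1 - τ * (1 + (1 - r * u)) / 2)) ((1 - r * u) * (1 - τ * (1 - r * u) / 2)) (1 + τ / 2) 0 (1 - τ / 2) (-((r - 1) * (1 - τ * (r - 1) / 2))) ((1 + (r - 1)) * (1 + τ * (1 - (r - 1)) / 2)) 1 β x δ x' δ' := by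
  simp only [semT, T2_c1r, mons, dotG_cons', dotG_nil', e3_nil, e3_cons, e2_nil, e2_cons, e1_nil, e1_cons,
    Int.cast_ofNat, Int.cast_neg, Int.cast_zero, Int.cast_one]
  unfold FXc1r rX gx1 gx2 gx3
  ring

lemma T2_cbr_eq (r u τ β x δ x' δ' : ℝ) :
    r * semT T2_cbr r u τ 1 β x δ x' δ' =
      8 * (β * FXc1r (1 - r * u) (r - 1) ((1 - (1 - r * u)) * (1 - τ * (1 + (1 - r * u)) / 2)) ((1 - r * u) * (1 - τ * (1 - r * u) / 2)) (1 + τ / 2) 0 (1 - τ / 2) (-((r - 1) * (1 - τ * (r - 1) / 2))) ((1 + (r - 1)) * (1 + τ * (1 - (r - 1)) / 2)) 1 β x δ x' δ') := by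
  simp only [semT, T2_cbr, mons, dotG_cons', dotG_nil', e3_nil, e3_cons, e2_nil, e2_cons, e1_nil, e1_cons,
    Int.cast_ofNat, Int.cast_neg, Int.cast_zero, Int.cast_one]
  unfold FXc1r rX gx1 gx2 gx3
  ring

lemma T2_cE1_eq (r u τ β x δ x' δ' : ℝ) :
    r * semT T2_cE1 r u τ 1 β x δ x' δ' =
      64 * FXcE1 τ (1 - r * u) (r - 1) ((1 - (1 - r * u)) * (1 - τ * (1 + (1 - r * u)) / 2)) ((1 - r * u) * (1 - τ * (1 - r * u) / 2)) (1 + τ / 2) 0 (1 - τ / 2) (-((r - 1) * (1 - τ * (r - 1) / 2))) ((1 + (r - 1)) * (1 + τ * (1 - (r - 1)) / 2)) 1 β x δ x' δ' := by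
  simp only [semT, T2_cE1, mons, dotG_cons', dotG_nil', e3_nil, e3_cons, e2_nil, e2_cons, e1_nil, e1_cons,
    Int.cast_ofNat, Int.cast_neg, Int.cast_zero, Int.cast_one]
  unfold FXcE1 rX gx1 gx2 gx3
  ring

lemma T2_t1_eq (r u τ β x δ x' δ' : ℝ) :
    r * semT T2_t1 r u τ 1 β x δ x' δ' =
      24 * FXt ((1 - (1 - r * u)) * (1 - τ * (1 + (1 - r * u)) / 2)) (gx1 ((1 - (1 - r * u)) * (1 - τ * (1 + (1 - r * u)) / 2)) ((1 - r * u) * (1 - τ * (1 - r * u) / 2)) (1 + τ / 2) 0 β x δ) := by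
  simp only [semT, T2_t1, mons, dotG_cons', dotG_nil', e3_nil, e3_cons, e2_nil, e2_cons, e1_nil, e1_cons,
    Int.cast_ofNat, Int.cast_neg, Int.cast_zero, Int.cast_one]
  unfold FXt gx1
  ring

lemma T2_t2_eq (r u τ β x δ x' δ' : ℝ) :
    semT T2_t2 r u τ 1 β x δ x' δ' =
      24 * FXt ((1 - r * u) * (1 - τ * (1 - r * u) / 2)) (gx2 ((1 - (1 - r * u)) * (1 - τ * (1 + (1 - r * u)) / 2)) ((1 - r * u) * (1 - τ * (1 - r * u) / 2)) (1 + τ / 2) 0 β x δ) := by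
  simp only [semT, T2_t2, mons, dotG_cons', dotG_nil', e3_nil, e3_cons, e2_nil, e2_cons, e1_nil, e1_cons,
    Int.cast_ofNat, Int.cast_neg, Int.cast_zero, Int.cast_one]
  unfold FXt gx2
  ring

lemma T2_t3_eq (r u τ β x δ x' δ' : ℝ) :
    semT T2_t3 r u τ 1 β x δ x' δ' =
      24 * FXt (1 + τ / 2) (gx3 ((1 - (1 - r * u)) * (1 - τ * (1 + (1 - r * u)) / 2)) ((1 - r * u) * (1 - τ * (1 - r * u) / 2)) (1 + τ / 2) 0 β x δ) := by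
  simp only [semT, T2_t3, mons, dotG_cons', dotG_nil', e3_nil, e3_cons, e2_nil, e2_cons, e1_nil, e1_cons,
    Int.cast_ofNat, Int.cast_neg, Int.cast_zero, Int.cast_one]
  unfold FXt gx3
  ring

lemma T2_s1_eq (r u τ β x δ x' δ' : ℝ) :
    semT T2_s1 r u τ 1 β x δ x' δ' =
      24 * FXt (1 - τ / 2) (gx1 (1 - τ / 2) (-((r - 1) * (1 - τ * (r - 1) / 2))) ((1 + (r - 1)) * (1 + τ * (1 - (r - 1)) / 2)) 1 β x' δ') := by
  simp only [semT, T2_s1, mons, dotG_cons', dotG_nil', e3_nil, e3_cons, e2_nil, e2_cons, e1_nil, e1_cons,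
    Int.cast_ofNat, Int.cast_neg, Int.cast_zero, Int.cast_one]
  unfold FXt gx1
  ring

lemma T2_s2_eq (r u τ β x δ x' δ' : ℝ) :
    semT T2_s2 r u τ 1 β x δ x' δ' =
      24 * FXt (-((r - 1) * (1 - τ * (r - 1) / 2))) (gx2 (1 - τ / 2) (-((r - 1) * (1 - τ * (r - 1) / 2))) ((1 + (r - 1)) * (1 + τ * (1 - (r - 1)) / 2)) 1 β x' δ') := by
  simp only [semT, T2_s2, mons, dotG_cons', dotG_nil', e3_nil, e3_cons, e2_nil, e2_cons, e1_nil, e1_cons,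
    Int.cast_ofNat, Int.cast_neg, Int.cast_zero, Int.cast_one]
  unfold FXt gx2
  ring

lemma T2_s3_eq (r u τ β x δ x' δ' : ℝ) :
    r * semT T2_s3 r u τ 1 β x δ x' δ' =
      24 * FXt ((1 + (r - 1)) * (1 + τ * (1 - (r - 1)) / 2)) (gx3 (1 - τ / 2) (-((r - 1) * (1 - τ * (r - 1) / 2))) ((1 + (r - 1)) * (1 + τ * (1 - (r - 1)) / 2)) 1 β x' δ') := by
  simp only [semT, T2_s3, mons, dotG_cons', dotG_nil', e3_nil, e3_cons, e2_nil, e2_cons, e1_nil, e1_cons,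
    Int.cast_ofNat, Int.cast_neg, Int.cast_zero, Int.cast_one]
  unfold FXt gx3
  ring

lemma T2_tb_eq (r u τ β x δ x' δ' : ℝ) :
    semT T2_tb r u τ 1 β x δ x' δ' =
      32 * (-((β - 1 / 8) * (1 / 4 - β))) := by
  simp only [semT, T2_tb, mons, dotG_cons', dotG_nil', e3_nil, e3_cons, e2_nil, e2_cons, e1_nil, e1_cons,
    Int.cast_ofNat, Int.cast_neg, Int.cast_zero, Int.cast_one]
  ring

/-- the form in chart 2 -/
noncomputable def Br2 (er c1r cbr cE1 t1 t2 t3 t1' t2' t3' tb r u τ β x δ x' δ' : ℝ) : ℝ :=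
  semT T2_base r u τ 1 β x δ x' δ' / 192 +
  er * (semT T2_er r u τ 1 β x δ x' δ' / 64) +
  c1r * (semT T2_c1r r u τ 1 β x δ x' δ' / 8) +
  cbr * (semT T2_cbr r u τ 1 β x δ x' δ' / 8) +
  cE1 * (semT T2_cE1 r u τ 1 β x δ x' δ' / 64) +
  t1 * (semT T2_t1 r u τ 1 β x δ x' δ' / 24) +
  t2 * (semT T2_t2 r u τ 1 β x δ x' δ' / 24) +
  t3 * (semT T2_t3 r u τ 1 β x δ x' δ' / 24) +
  t1' * (semT T2_s1 r u τ 1 β x δ x' δ' / 24) +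
  t2' * (semT T2_s2 r u τ 1 β x δ x' δ' / 24) +
  t3' * (semT T2_s3 r u τ 1 β x δ x' δ' / 24) +
  tb * (semT T2_tb r u τ 1 β x δ x' δ' / 32)

lemma FX_chart2 (er c1r cbr cE1 t1 t2 t3 t1' t2' t3' tb r u τ β x δ x' δ' : ℝ) :
    FX er c1r cbr cE1 τ (1 - r * u) (r - 1) (1 / 8) (1 / 4) ((1 - (1 - r * u)) * (1 - τ * (1 + (1 - r * u)) / 2)) ((1 - r * u) * (1 - τ * (1 - r * u) / 2)) (1 + τ / 2) 0 (1 - τ / 2) (-((r - 1) * (1 - τ * (r - 1) / 2))) ((1 + (r - 1)) * (1 + τ * (1 - (r - 1)) / 2)) 1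
      t1 (r * t2) (r * t3) (r * t1') (r * t2') t3' (r * tb) β x δ x' δ' =
      r * Br2 er c1r cbr cE1 t1 t2 t3 t1' t2' t3' tb r u τ β x δ x' δ' := by
  rw [FX_split]
  unfold Br2
  linear_combination (-(1 / 192)) * T2_base_eq r u τ β x δ x' δ' +
    (-(er / 64)) * T2_er_eq r u τ β x δ x' δ' +
    (-(c1r / 8)) * T2_c1r_eq r u τ β x δ x' δ' +
    (-(cbr / 8)) * T2_cbr_eq r u τ β x δ x' δ' +
    (-(cE1 / 64)) * T2_cE1_eq r u τ β x δ x' δ' +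
    (-(t1 / 24)) * T2_t1_eq r u τ β x δ x' δ' +
    (r * (-(t2 / 24))) * T2_t2_eq r u τ β x δ x' δ' +
    (r * (-(t3 / 24))) * T2_t3_eq r u τ β x δ x' δ' +
    (r * (-(t1' / 24))) * T2_s1_eq r u τ β x δ x' δ' +
    (r * (-(t2' / 24))) * T2_s2_eq r u τ β x δ x' δ' +
    (-(t3' / 24)) * T2_s3_eq r u τ β x δ x' δ' +
    (r * (-(tb / 32))) * T2_tb_eq r u τ β x δ x' δ'

/-- a good point of chart 2 -/
def Gc2 (er c1r cbr cE1 r u τ : ℝ) : Prop :=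
  ∃ t1 t2 t3 t1' t2' t3' tb : ℝ,
    0 ≤ t1 ∧ 0 ≤ t2 ∧ 0 ≤ t3 ∧ 0 ≤ t1' ∧ 0 ≤ t2' ∧ 0 ≤ t3' ∧ 0 ≤ tb ∧
    ∀ β x δ x' δ' : ℝ, 0 ≤ Br2 er c1r cbr cE1 t1 t2 t3 t1' t2' t3' tb r u τ β x δ x' δ'

lemma GoodX_of_Gc2 {er c1r cbr cE1 r u τ : ℝ} (hr : 0 ≤ r) (h : Gc2 er c1r cbr cE1 r u τ) :
    GoodX er c1r cbr cE1 τ (1 - r * u) (r - 1) ((1 - (1 - r * u)) * (1 - τ * (1 + (1 - r * u)) / 2)) ((1 - r * u) * (1 - τ * (1 - r * u) / 2)) (1 + τ / 2) 0 (1 - τ / 2) (-((r - 1) * (1 - τ * (r - 1) / 2))) ((1 + (r - 1)) * (1 + τ * (1 - (r - 1)) / 2)) 1 := by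
  obtain ⟨t1, t2, t3, t1', t2', t3', tb, h1, h2, h3, h1', h2', h3', hb, H⟩ := h
  refine ⟨t1, r * t2, r * t3, r * t1', r * t2', t3', r * tb, h1, mul_nonneg hr h2, mul_nonneg hr h3,
    mul_nonneg hr h1', mul_nonneg hr h2', h3', mul_nonneg hr hb, ?_⟩
  intro β x δ x' δ'
  rw [FX_chart2]
  exact mul_nonneg hr (H β x δ x' δ')

end Pool.G1.ZB
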