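import Pool.Agent.Work.MP_b5407d_g1.Pl_ZB

/-!
# G1, P2: tables of the form `FX` in chart 3
-/

set_option autoImplicit false

namespace Pool.G1.ZB

/-- table -/
noncomputable def T3_base : Tab := [
  [[[48], [0, -8], [-24], [0, 8]], [[0, -8]], [[-24]], [[0, 8]]],
  [[[-192, 0, 32], [0, 48], [96, 0, -16], [0, -48]], [[0, 48]], [[96, 0, -16]], [[0, -48]]],
  [[[0, -32, 0, 8]], [[-96, 0, 56]], [[0, 128, 0, -16]], [[96, 0, -80]], [[0, -96, 0, 8]], [[0,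
    0, 24]]],
  [],
  [[[0, -32, 0, 8], [-96, 0, 56], [0, 128, 0, -16], [96, 0, -80], [0, -96, 0, 8], [0, 0, 24]]],
  [],
  [[[192, 0, 16], [0, 32, 0, -24], [-48, 0, -8], [0, 24, 0, 24]], [[0, 32, 0, -24], [96], [0,
    -24]], [[-48, 0, -8], [0, -24]], [[0, 24, 0, 24]]],
  [[[0, 32, 0, -8], [-96, 0, 24]], [[96, 0, 40, 0, -24], [0, 96]], [[0, -128, 0, -80], [96, 0,
    -48]], [[-96, 0, -16, 0, 48], [0, -96]], [[0, 96, 0, 88], [0, 0, 24]], [[0, 0, -24, 0, -24]]],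
  [],
  [[[0, 32, 0, -8], [96, 0, 40, 0, -24], [0, -128, 0, -80], [-96, 0, -16, 0, 48], [0, 96, 0, 88],
    [0, 0, -24, 0, -24]], [[-96, 0, 24], [0, 96], [96, 0, -48], [0, -96], [0, 0, 24]]],
  [],
  [[[0, 0, 24, 0, -6], [0, -24, 0, 6]], [[0, 24, 0, -6, 0, -6], [-48, 0, 36]], [[48, 0, 12, 0,
    -30], [0, 96, 0, -18]], [[0, -96, 0, -78, 0, 18], [48, 0, -72]], [[-48, 0, 0, 0, 78], [0,
    -72, 0, 18]], [[0, 72, 0, 78, 0, -18], [0, 0, 36]], [[0, 0, -36, 0, -42], [0, 0, 0, -6]],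
    [[0, 0, 0, 6, 0, 6]]],
  [],
  [],
  [],
  [[], [[48, 48, 12], [24, 24, 6]], [[24, -24, -30, -6], [24, 0, -12, -3]], [[-24, -48, -12, 3],
    [0, -24, -12]], [[0, 24, 24, 6], [0, 0, 6, 3]], [[0, 0, -6, -3]]],
  [],
  [],
  [[[0, 0, 24, 0, -6], [0, 24, 0, -6, 0, -6], [48, 0, 12, 0, -30], [0, -96, 0, -78, 0, 18], [-48,
    0, 0, 0, 78], [0, 72, 0, 78, 0, -18], [0, 0, -36, 0, -42], [0, 0, 0, 6, 0, 6]], [[0, -24, 0,
    6], [-48, 0, 36], [0, 96, 0, -18], [48, 0, -72], [0, -72, 0, 18], [0, 0, 36], [0, 0, 0, -6]]],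
  [],
  [[[], [48, 48, 12], [24, -24, -30, -6], [-24, -48, -12, 3], [0, 24, 24, 6], [0, 0, -6, -3]],
    [[], [24, 24, 6], [24, 0, -12, -3], [0, -24, -12], [0, 0, 6, 3]]]]

/-- table -/
noncomputable def T3_er : Tab := [
  [],
  [],
  [],
  [],
  [],
  [],
  [[[0, 0, -16], [0, -16], [0, 0, 8]], [[0, -16]], [[0, 0, 8]]],
  [[[0, 32, 0, -8], [16, 0, -4], [0, -8, 0, 2]], [[16, -16, -28], [-16, -8], [0, 8, 4]], [[-16,
    -32, 8, 14], [0, 8, 4], [0, 0, -4, -2]], [[0, 16, 24]], [[0, 0, -4, -6]]],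
  [[], [[0, 16, 8], [16, 8], [0, -8, -4]], [[16, 8, -8, -4], [0, -8, -4], [0, 0, 4, 2]], [[0,
    -16, -8]], [[0, 0, 4, 2]]],
  [[[0, 32, 0, -8], [16, -16, -28], [-16, -32, 8, 14], [0, 16, 24], [0, 0, -4, -6]], [[16, 0,
    -4], [-16, -8], [0, 8, 4]], [[0, -8, 0, 2], [0, 8, 4], [0, 0, -4, -2]]],
  [[[], [0, 16, 8], [16, 8, -8, -4], [0, -16, -8], [0, 0, 4, 2]], [[], [16, 8], [0, -8, -4]],
    [[], [0, -8, -4], [0, 0, 4, 2]]],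
  [[[-16, 0, 8, 0, -1]], [[16, 24, -4, -6]], [[16, -24, -24, 2, 3]], [[-16, -24, 16, 12]], [[0,
    24, 16, -4, -3]], [[0, 0, -12, -6]], [[0, 0, 0, 2, 1]]],
  [[], [[-16, -8, 4, 2]], [[0, 24, 12, -2, -1]], [[16, 8, -16, -8]], [[0, -24, -12, 4, 2]], [[0,
    0, 12, 6]], [[0, 0, 0, -2, -1]]],
  [[[-32, 0, 16, 0, -2], [16, 24, -4, -6], [16, -8, -16, 2, 3], [0, -16, 0, 4], [0, 0, 4, 0,
    -1]], [[16, 24, -4, -6], [0, -32, -16], [-16, -8, 16, 8], [0, 16, 8], [0, 0, -4, -2]], [[16,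
    -8, -16, 2, 3], [-16, -8, 16, 8], [0, 16, 8, -8, -4], [0, 0, -8, -4], [0, 0, 0, 2, 1]], [[0,
    -16, 0, 4], [0, 16, 8], [0, 0, -8, -4]], [[0, 0, 4, 0, -1], [0, 0, -4, -2], [0, 0, 0, 2, 1]]],
  [[[], [-16, -8, 4, 2], [0, 8, 4, -2, -1]], [[], [0, 16, 8], [0, 0, -8, -4]], [[], [16, 8, -8,
    -4], [0, -8, -4, 4, 2]], [[], [0, -16, -8], [0, 0, 8, 4]], [[], [0, 0, 4, 2], [0, 0, 0, -2,
    -1]]],
  [],
  [[], [[-16, -8, 4, 2], [0, 16, 8], [16, 8, -8, -4], [0, -16, -8], [0, 0, 4, 2]], [[0, 8, 4, -2,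
    -1], [0, 0, -8, -4], [0, -8, -4, 4, 2], [0, 0, 8, 4], [0, 0, 0, -2, -1]]],
  [],
  [[[-16, 0, 8, 0, -1], [16, 24, -4, -6], [16, -24, -24, 2, 3], [-16, -24, 16, 12], [0, 24, 16,
    -4, -3], [0, 0, -12, -6], [0, 0, 0, 2, 1]]],
  [[[], [-16, -8, 4, 2], [0, 24, 12, -2, -1], [16, 8, -16, -8], [0, -24, -12, 4, 2], [0, 0, 12,
    6], [0, 0, 0, -2, -1]]],
  []]

/-- table -/
noncomputable def T3_c1r : Tab := [
  [],
  [[[], [0, 4]], [[0, 4]]],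
  [[[], [-4, 0, 1]], [[-4, 0, 1], [4, 2]], [[4, 2], [0, -2, -1]], [[0, -2, -1]]],
  [[], [[], [-4, -2]], [[-4, -2], [0, 2, 1]], [[0, 2, 1]]],
  [[[], [-4, 0, 1], [4, 2], [0, -2, -1]], [[-4, 0, 1], [4, 2], [0, -2, -1]]],
  [[[], [], [-4, -2], [0, 2, 1]], [[], [-4, -2], [0, 2, 1]]],
  [],
  [],
  [],
  [],
  [],
  [],
  [],
  [],
  [],
  [],
  [],
  [],
  [],
  [],
  []]

/-- table -/
noncomputable def T3_cbr : Tab := [
  [],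
  [],
  [],
  [],
  [],
  [],
  [[[], [0, 4]], [[0, 4]]],
  [[[], [-4, 0, 1]], [[-4, 0, 1], [4, 2]], [[4, 2], [0, -2, -1]], [[0, -2, -1]]],
  [[], [[], [-4, -2]], [[-4, -2], [0, 2, 1]], [[0, 2, 1]]],
  [[[], [-4, 0, 1], [4, 2], [0, -2, -1]], [[-4, 0, 1], [4, 2], [0, -2, -1]]],
  [[[], [], [-4, -2], [0, 2, 1]], [[], [-4, -2], [0, 2, 1]]],
  [],
  [],
  [],
  [],
  [],
  [],
  [],
  [],
  [],
  []]

/-- table -/
noncomputable def T3_cE1 : Tab := [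
  [],
  [],
  [],
  [],
  [],
  [],
  [],
  [],
  [],
  [],
  [],
  [[[], [0, -8, 0, 2]], [[0, -8, 0, 2], [-32, 16, 8]], [[-32, 16, 8], [32, 24, -8, -4]], [[32,
    24, -8, -4], [0, -32, -8]], [[0, -32, -8], [0, 0, 8, 2]], [[0, 0, 8, 2]]],
  [[], [[], [32, 0, -8]], [[32, 0, -8], [-32, -32, 0, 4]], [[-32, -32, 0, 4], [0, 32, 16]], [[0,
    32, 16], [0, 0, -8, -4]], [[0, 0, -8, -4]]],
  [],
  [],
  [[], [[], [-8, -8, -2]], [[-8, -8, -2], [8, 8, 4, 1]], [[8, 8, 4, 1], [0, -8, -4]], [[0, -8,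
    -4], [0, 0, 2, 1]], [[0, 0, 2, 1]]],
  [],
  [],
  [[[], [0, -8, 0, 2], [-32, 16, 8], [32, 24, -8, -4], [0, -32, -8], [0, 0, 8, 2]], [[0, -8, 0,
    2], [-32, 16, 8], [32, 24, -8, -4], [0, -32, -8], [0, 0, 8, 2]]],
  [[[], [], [32, 0, -8], [-32, -32, 0, 4], [0, 32, 16], [0, 0, -8, -4]], [[], [32, 0, -8], [-32,
    -32, 0, 4], [0, 32, 16], [0, 0, -8, -4]]],
  [[[], [], [-8, -8, -2], [8, 8, 4, 1], [0, -8, -4], [0, 0, 2, 1]], [[], [-8, -8, -2], [8, 8, 4,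
    1], [0, -8, -4], [0, 0, 2, 1]]]]

/-- table -/
noncomputable def T3_t1 : Tab := [
  [],
  [[[-16, 8]], [[16]], [[0, -8]]],
  [[[-16, 0, 4]], [[0, 16]], [[16, 0, -8]], [[0, -16]], [[0, 0, 4]]],
  [],
  [],
  [],
  [[[24, -12]], [[-24]], [[0, 12]]],
  [[[48, 0, -12]], [[0, -48]], [[-48, 0, 24]], [[0, 48]], [[0, 0, -12]]],
  [],
  [],
  [],
  [[[24, 12, -6, -3]], [[24, -24, -18]], [[-24, -48, 12, 9]], [[-24, 24, 36]], [[0, 36, -6, -9]],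
    [[0, 0, -18]], [[0, 0, 0, 3]]],
  [],
  [],
  [],
  [],
  [],
  [],
  [],
  [],
  []]

/-- table -/
noncomputable def T3_t2 : Tab := [
  [],
  [[], [[-16]], [[0, 8]]],
  [[], [[16, -8]], [[-16, -8, 4]], [[0, 16]], [[0, 0, -4]]],
  [[], [[-16, -8]], [[0, 8, 4]]],
  [],
  [],
  [[], [[24]], [[0, -12]]],
  [[], [[-48, 24]], [[48, 24, -12]], [[0, -48]], [[0, 0, 12]]],
  [[], [[48, 24]], [[0, -24, -12]]],
  [],
  [],
  [[], [[24, -24, 6]], [[-48, 12, 12, -3]], [[24, 48, -24]], [[0, -36, -12, 6]], [[0, 0, 18]],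
    [[0, 0, 0, -3]]],
  [[], [[-48, 0, 12]], [[48, 48, 0, -6]], [[0, -48, -24]], [[0, 0, 12, 6]]],
  [],
  [],
  [[], [[24, 24, 6]], [[0, -12, -12, -3]]],
  [],
  [],
  [],
  [],
  []]

/-- table -/
noncomputable def T3_t3 : Tab := [
  [],
  [[[-16, -8]]],
  [[[16, 0, -4]], [[-16, -8]], [[0, 8, 4]]],
  [[], [[16, 8]], [[0, -8, -4]]],
  [],
  [],
  [[[24, 12]]],
  [[[-48, 0, 12]], [[48, 24]], [[0, -24, -12]]],
  [[], [[-48, -24]], [[0, 24, 12]]],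
  [],
  [],
  [[[24, -12, -6, 3]], [[-48, 0, 12]], [[24, 36, 0, -6]], [[0, -24, -12]], [[0, 0, 6, 3]]],
  [[], [[48, 0, -12]], [[-48, -48, 0, 6]], [[0, 48, 24]], [[0, 0, -12, -6]]],
  [],
  [],
  [[], [], [[24, 12]], [[0, -24, -12]], [[0, 0, 6, 3]]],
  [],
  [],
  [],
  [],
  []]

/-- table -/
noncomputable def T3_s1 : Tab := [
  [],
  [[[-16, 8], [16], [0, -8]]],
  [],
  [],
  [[[-16, 0, 4], [0, 16], [16, 0, -8], [0, -16], [0, 0, 4]]],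
  [],
  [[[24, -12], [-24], [0, 12]]],
  [],
  [],
  [[[48, 0, -12], [0, -48], [-48, 0, 24], [0, 48], [0, 0, -12]]],
  [],
  [],
  [],
  [],
  [],
  [],
  [],
  [],
  [[[24, 12, -6, -3], [24, -24, -18], [-24, -48, 12, 9], [-24, 24, 36], [0, 36, -6, -9], [0, 0,
    -18], [0, 0, 0, 3]]],
  [],
  []]

/-- table -/
noncomputable def T3_s2 : Tab := [
  [],
  [[[], [-16], [0, 8]]],
  [],
  [],
  [[[], [16, -8], [-16, -8, 4], [0, 16], [0, 0, -4]]],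
  [[[], [-16, -8], [0, 8, 4]]],
  [[[], [24], [0, -12]]],
  [],
  [],
  [[[], [-48, 24], [48, 24, -12], [0, -48], [0, 0, 12]]],
  [[[], [48, 24], [0, -24, -12]]],
  [],
  [],
  [],
  [],
  [],
  [],
  [],
  [[[], [24, -24, 6], [-48, 12, 12, -3], [24, 48, -24], [0, -36, -12, 6], [0, 0, 18], [0, 0, 0,
    -3]]],
  [[[], [-48, 0, 12], [48, 48, 0, -6], [0, -48, -24], [0, 0, 12, 6]]],
  [[[], [24, 24, 6], [0, -12, -12, -3]]]]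

/-- table -/
noncomputable def T3_s3 : Tab := [
  [],
  [[[-16, -8]]],
  [],
  [],
  [[[16, 0, -4], [-16, -8], [0, 8, 4]]],
  [[[], [16, 8], [0, -8, -4]]],
  [[[24, 12]]],
  [],
  [],
  [[[-48, 0, 12], [48, 24], [0, -24, -12]]],
  [[[], [-48, -24], [0, 24, 12]]],
  [],
  [],
  [],
  [],
  [],
  [],
  [],
  [[[24, -12, -6, 3], [-48, 0, 12], [24, 36, 0, -6], [0, -24, -12], [0, 0, 6, 3]]],
  [[[], [48, 0, -12], [-48, -48, 0, 6], [0, 48, 24], [0, 0, -12, -6]]],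
  [[[], [], [24, 12], [0, -24, -12], [0, 0, 6, 3]]]]

/-- table -/
noncomputable def T3_tb : Tab := [
  [[[1]]],
  [[[-12]]],
  [],
  [],
  [],
  [],
  [[[32]]],
  [],
  [],
  [],
  [],
  [],
  [],
  [],
  [],
  [],
  [],
  [],
  [],
  [],
  []]

end Pool.G1.ZB
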