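import Pool.Agent.Work.MP_b5407d_g1.Pl_ZF
import Pool.Agent.Work.MP_b5407d_g1.Pl_ZT3

/-!
# G1, P2: the form `FX` in chart 3
-/

set_option autoImplicit false

namespace Pool.G1.ZB
open Pool.G1.Gap

lemma T3_base_eq (r u τ β x δ x' δ' : ℝ) :
    semT T3_base r u τ 1 β x δ x' δ' =
      192 * FXb τ r u ((1 - r) * (1 - τ * (1 + r) / 2)) (r * (1 - τ * r / 2)) (1 + τ / 2) 0 ((1 - u) * (1 - τ * (1 + u) / 2)) (u * (1 - τ * u / 2)) (1 + τ / 2) 0 β x δ x' δ' := by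
  simp only [semT, T3_base, mons, dotG_cons', dotG_nil', e3_nil, e3_cons, e2_nil, e2_cons, e1_nil, e1_cons,
    Int.cast_ofNat, Int.cast_neg, Int.cast_zero, Int.cast_one]
  unfold FXb EX gx1 gx2 gx3 Px
  ring

lemma T3_er_eq (r u τ β x δ x' δ' : ℝ) :
    semT T3_er r u τ 1 β x δ x' δ' =
      64 * FXer τ r u ((1 - r) * (1 - τ * (1 + r) / 2)) (r * (1 - τ * r / 2)) (1 + τ / 2) 0 ((1 - u) * (1 - τ * (1 + u) / 2)) (u * (1 - τ * u / 2)) (1 + τ / 2) 0 β x δ x' δ' := by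
  simp only [semT, T3_er, mons, dotG_cons', dotG_nil', e3_nil, e3_cons, e2_nil, e2_cons, e1_nil, e1_cons,
    Int.cast_ofNat, Int.cast_neg, Int.cast_zero, Int.cast_one]
  unfold FXer rX gx1 gx2 gx3 Px
  ring

lemma T3_c1r_eq (r u τ β x δ x' δ' : ℝ) :
    semT T3_c1r r u τ 1 β x δ x' δ' =
      8 * FXc1r r u ((1 - r) * (1 - τ * (1 + r) / 2)) (r * (1 - τ * r / 2)) (1 + τ / 2) 0 ((1 - u) * (1 - τ * (1 + u) / 2)) (u * (1 - τ * u / 2)) (1 + τ / 2) 0 β x δ x' δ' := by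
  simp only [semT, T3_c1r, mons, dotG_cons', dotG_nil', e3_nil, e3_cons, e2_nil, e2_cons, e1_nil, e1_cons,
    Int.cast_ofNat, Int.cast_neg, Int.cast_zero, Int.cast_one]
  unfold FXc1r rX gx1 gx2 gx3
  ring

lemma T3_cbr_eq (r u τ β x δ x' δ' : ℝ) :
    semT T3_cbr r u τ 1 β x δ x' δ' =
      8 * (β * FXc1r r u ((1 - r) * (1 - τ * (1 + r) / 2)) (r * (1 - τ * r / 2)) (1 + τ / 2) 0 ((1 - u) * (1 - τ * (1 + u) / 2)) (u * (1 - τ * u / 2)) (1 + τ / 2) 0 β x δ x' δ') := by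
  simp only [semT, T3_cbr, mons, dotG_cons', dotG_nil', e3_nil, e3_cons, e2_nil, e2_cons, e1_nil, e1_cons,
    Int.cast_ofNat, Int.cast_neg, Int.cast_zero, Int.cast_one]
  unfold FXc1r rX gx1 gx2 gx3
  ring

lemma T3_cE1_eq (r u τ β x δ x' δ' : ℝ) :
    semT T3_cE1 r u τ 1 β x δ x' δ' =
      64 * FXcE1 τ r u ((1 - r) * (1 - τ * (1 + r) / 2)) (r * (1 - τ * r / 2)) (1 + τ / 2) 0 ((1 - u) * (1 - τ * (1 + u) / 2)) (u * (1 - τ * u / 2)) (1 + τ / 2) 0 β x δ x' δ' := by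
  simp only [semT, T3_cE1, mons, dotG_cons', dotG_nil', e3_nil, e3_cons, e2_nil, e2_cons, e1_nil, e1_cons,
    Int.cast_ofNat, Int.cast_neg, Int.cast_zero, Int.cast_one]
  unfold FXcE1 rX gx1 gx2 gx3
  ring

lemma T3_t1_eq (r u τ β x δ x' δ' : ℝ) :
    semT T3_t1 r u τ 1 β x δ x' δ' =
      24 * FXt ((1 - r) * (1 - τ * (1 + r) / 2)) (gx1 ((1 - r) * (1 - τ * (1 + r) / 2)) (r * (1 - τ * r / 2)) (1 + τ / 2) 0 β x δ) := by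
  simp only [semT, T3_t1, mons, dotG_cons', dotG_nil', e3_nil, e3_cons, e2_nil, e2_cons, e1_nil, e1_cons,
    Int.cast_ofNat, Int.cast_neg, Int.cast_zero, Int.cast_one]
  unfold FXt gx1
  ring

lemma T3_t2_eq (r u τ β x δ x' δ' : ℝ) :
    semT T3_t2 r u τ 1 β x δ x' δ' =
      24 * FXt (r * (1 - τ * r / 2)) (gx2 ((1 - r) * (1 - τ * (1 + r) / 2)) (r * (1 - τ * r / 2)) (1 + τ / 2) 0 β x δ) := by
  simp only [semT, T3_t2, mons, dotG_cons', dotG_nil', e3_nil, e3_cons, e2_nil, e2_cons, e1_nil, e1_cons,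
    Int.cast_ofNat, Int.cast_neg, Int.cast_zero, Int.cast_one]
  unfold FXt gx2
  ring

lemma T3_t3_eq (r u τ β x δ x' δ' : ℝ) :
    semT T3_t3 r u τ 1 β x δ x' δ' =
      24 * FXt (1 + τ / 2) (gx3 ((1 - r) * (1 - τ * (1 + r) / 2)) (r * (1 - τ * r / 2)) (1 + τ / 2) 0 β x δ) := by
  simp only [semT, T3_t3, mons, dotG_cons', dotG_nil', e3_nil, e3_cons, e2_nil, e2_cons, e1_nil, e1_cons,
    Int.cast_ofNat, Int.cast_neg, Int.cast_zero, Int.cast_one]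
  unfold FXt gx3
  ring

lemma T3_s1_eq (r u τ β x δ x' δ' : ℝ) :
    semT T3_s1 r u τ 1 β x δ x' δ' =
      24 * FXt ((1 - u) * (1 - τ * (1 + u) / 2)) (gx1 ((1 - u) * (1 - τ * (1 + u) / 2)) (u * (1 - τ * u / 2)) (1 + τ / 2) 0 β x' δ') := by
  simp only [semT, T3_s1, mons, dotG_cons', dotG_nil', e3_nil, e3_cons, e2_nil, e2_cons, e1_nil, e1_cons,
    Int.cast_ofNat, Int.cast_neg, Int.cast_zero, Int.cast_one]
  unfold FXt gx1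
  ring

lemma T3_s2_eq (r u τ β x δ x' δ' : ℝ) :
    semT T3_s2 r u τ 1 β x δ x' δ' =
      24 * FXt (u * (1 - τ * u / 2)) (gx2 ((1 - u) * (1 - τ * (1 + u) / 2)) (u * (1 - τ * u / 2)) (1 + τ / 2) 0 β x' δ') := by
  simp only [semT, T3_s2, mons, dotG_cons', dotG_nil', e3_nil, e3_cons, e2_nil, e2_cons, e1_nil, e1_cons,
    Int.cast_ofNat, Int.cast_neg, Int.cast_zero, Int.cast_one]
  unfold FXt gx2
  ring

lemma T3_s3_eq (r u τ β x δ x' δ' : ℝ) :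
    semT T3_s3 r u τ 1 β x δ x' δ' =
      24 * FXt (1 + τ / 2) (gx3 ((1 - u) * (1 - τ * (1 + u) / 2)) (u * (1 - τ * u / 2)) (1 + τ / 2) 0 β x' δ') := by
  simp only [semT, T3_s3, mons, dotG_cons', dotG_nil', e3_nil, e3_cons, e2_nil, e2_cons, e1_nil, e1_cons,
    Int.cast_ofNat, Int.cast_neg, Int.cast_zero, Int.cast_one]
  unfold FXt gx3
  ring

lemma T3_tb_eq (r u τ β x δ x' δ' : ℝ) :
    semT T3_tb r u τ 1 β x δ x' δ' =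
      32 * (-((β - 1 / 8) * (1 / 4 - β))) := by
  simp only [semT, T3_tb, mons, dotG_cons', dotG_nil', e3_nil, e3_cons, e2_nil, e2_cons, e1_nil, e1_cons,
    Int.cast_ofNat, Int.cast_neg, Int.cast_zero, Int.cast_one]
  ring

/-- the form in chart 3 -/
noncomputable def Br3 (er c1r cbr cE1 t1 t2 t3 t1' t2' t3' tb r u τ β x δ x' δ' : ℝ) : ℝ :=
  semT T3_base r u τ 1 β x δ x' δ' / 192 +
  er * (semT T3_er r u τ 1 β x δ x' δ' / 64) +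
  c1r * (semT T3_c1r r u τ 1 β x δ x' δ' / 8) +
  cbr * (semT T3_cbr r u τ 1 β x δ x' δ' / 8) +
  cE1 * (semT T3_cE1 r u τ 1 β x δ x' δ' / 64) +
  t1 * (semT T3_t1 r u τ 1 β x δ x' δ' / 24) +
  t2 * (semT T3_t2 r u τ 1 β x δ x' δ' / 24) +
  t3 * (semT T3_t3 r u τ 1 β x δ x' δ' / 24) +
  t1' * (semT T3_s1 r u τ 1 β x δ x' δ' / 24) +
  t2' * (semT T3_s2 r u τ 1 β x δ x' δ' / 24) +
  t3' * (semT T3_s3 r u τ 1 β x δ x' δ' / 24) +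
  tb * (semT T3_tb r u τ 1 β x δ x' δ' / 32)

lemma FX_chart3 (er c1r cbr cE1 t1 t2 t3 t1' t2' t3' tb r u τ β x δ x' δ' : ℝ) :
    FX er c1r cbr cE1 τ r u (1 / 8) (1 / 4) ((1 - r) * (1 - τ * (1 + r) / 2)) (r * (1 - τ * r / 2)) (1 + τ / 2) 0 ((1 - u) * (1 - τ * (1 + u) / 2)) (u * (1 - τ * u / 2)) (1 + τ / 2) 0
      t1 t2 t3 t1' t2' t3' tb β x δ x' δ' =
      Br3 er c1r cbr cE1 t1 t2 t3 t1' t2' t3' tb r u τ β x δ x' δ' := by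
  rw [FX_split]
  unfold Br3
  linear_combination (-(1 / 192)) * T3_base_eq r u τ β x δ x' δ' +
    (-(er / 64)) * T3_er_eq r u τ β x δ x' δ' +
    (-(c1r / 8)) * T3_c1r_eq r u τ β x δ x' δ' +
    (-(cbr / 8)) * T3_cbr_eq r u τ β x δ x' δ' +
    (-(cE1 / 64)) * T3_cE1_eq r u τ β x δ x' δ' +
    (-(t1 / 24)) * T3_t1_eq r u τ β x δ x' δ' +
    (-(t2 / 24)) * T3_t2_eq r u τ β x δ x' δ' +
    (-(t3 / 24)) * T3_t3_eq r u τ β x δ x' δ' +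
    (-(t1' / 24)) * T3_s1_eq r u τ β x δ x' δ' +
    (-(t2' / 24)) * T3_s2_eq r u τ β x δ x' δ' +
    (-(t3' / 24)) * T3_s3_eq r u τ β x δ x' δ' +
    (-(tb / 32)) * T3_tb_eq r u τ β x δ x' δ'

/-- a good point of chart 3 -/
def Gc3 (er c1r cbr cE1 r u τ : ℝ) : Prop :=
  ∃ t1 t2 t3 t1' t2' t3' tb : ℝ,
    0 ≤ t1 ∧ 0 ≤ t2 ∧ 0 ≤ t3 ∧ 0 ≤ t1' ∧ 0 ≤ t2' ∧ 0 ≤ t3' ∧ 0 ≤ tb ∧
    ∀ β x δ x' δ' : ℝ, 0 ≤ Br3 er c1r cbr cE1 t1 t2 t3 t1' t2' t3' tb r u τ β x δ x' δ'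

lemma GoodX_of_Gc3 {er c1r cbr cE1 r u τ : ℝ} (h : Gc3 er c1r cbr cE1 r u τ) :
    GoodX er c1r cbr cE1 τ r u ((1 - r) * (1 - τ * (1 + r) / 2)) (r * (1 - τ * r / 2)) (1 + τ / 2) 0 ((1 - u) * (1 - τ * (1 + u) / 2)) (u * (1 - τ * u / 2)) (1 + τ / 2) 0 := by
  obtain ⟨t1, t2, t3, t1', t2', t3', tb, h1, h2, h3, h1', h2', h3', hb, H⟩ := h
  refine ⟨t1, t2, t3, t1', t2', t3', tb, h1, h2, h3, h1', h2', h3', hb, ?_⟩
  intro β x δ x' δ'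
  rw [FX_chart3]
  exact H β x δ x' δ'

end Pool.G1.ZB
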