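import Pool.Agent.Work.MP_b5407d_g1.Pl_ZB

/-!
# G1, P2: tables of the form `FX` in chart 4
-/

set_option autoImplicit false

namespace Pool.G1.ZB

/-- table -/
noncomputable def T4_base : Tab := [
  [[[48], [0, 8], [-24], [0, -8]], [[0, 8]], [[-24]], [[0, -8]]],
  [[[-192, 0, 32], [0, -48], [96, 0, -16], [0, 48]], [[0, -48]], [[96, 0, -16]], [[0, 48]]],
  [[[0, -32, 0, 8]], [[96, 0, -56]], [[0, 128, 0, -16]], [[-96, 0, 80]], [[0, -96, 0, 8]], [[0,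
    0, -24]]],
  [],
  [[[0, -32, 0, 8], [96, 0, -56], [0, 128, 0, -16], [-96, 0, 80], [0, -96, 0, 8], [0, 0, -24]]],
  [],
  [[[192, 0, 16], [0, -32, 0, 24], [-48, 0, -8], [0, -24, 0, -24]], [[0, -32, 0, 24], [96], [0,
    24]], [[-48, 0, -8], [0, 24]], [[0, -24, 0, -24]]],
  [[[0, 32, 0, -8], [96, 0, -24]], [[-96, 0, -40, 0, 24], [0, 96]], [[0, -128, 0, -80], [-96, 0,
    48]], [[96, 0, 16, 0, -48], [0, -96]], [[0, 96, 0, 88], [0, 0, -24]], [[0, 0, 24, 0, 24]]],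
  [],
  [[[0, 32, 0, -8], [-96, 0, -40, 0, 24], [0, -128, 0, -80], [96, 0, 16, 0, -48], [0, 96, 0, 88],
    [0, 0, 24, 0, 24]], [[96, 0, -24], [0, 96], [-96, 0, 48], [0, -96], [0, 0, -24]]],
  [],
  [[[0, 0, 24, 0, -6], [0, 24, 0, -6]], [[0, -24, 0, 6, 0, 6], [-48, 0, 36]], [[48, 0, 12, 0,
    -30], [0, -96, 0, 18]], [[0, 96, 0, 78, 0, -18], [48, 0, -72]], [[-48, 0, 0, 0, 78], [0, 72,
    0, -18]], [[0, -72, 0, -78, 0, 18], [0, 0, 36]], [[0, 0, -36, 0, -42], [0, 0, 0, 6]], [[0, 0,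
    0, -6, 0, -6]]],
  [],
  [],
  [],
  [[], [[48, -48, 12], [24, -24, 6]], [[24, 24, -30, 6], [24, 0, -12, 3]], [[-24, 48, -12, -3],
    [0, 24, -12]], [[0, -24, 24, -6], [0, 0, 6, -3]], [[0, 0, -6, 3]]],
  [],
  [],
  [[[0, 0, 24, 0, -6], [0, -24, 0, 6, 0, 6], [48, 0, 12, 0, -30], [0, 96, 0, 78, 0, -18], [-48,
    0, 0, 0, 78], [0, -72, 0, -78, 0, 18], [0, 0, -36, 0, -42], [0, 0, 0, -6, 0, -6]], [[0, 24,
    0, -6], [-48, 0, 36], [0, -96, 0, 18], [48, 0, -72], [0, 72, 0, -18], [0, 0, 36], [0, 0, 0,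
    6]]],
  [],
  [[[], [48, -48, 12], [24, 24, -30, 6], [-24, 48, -12, -3], [0, -24, 24, -6], [0, 0, -6, 3]],
    [[], [24, -24, 6], [24, 0, -12, 3], [0, 24, -12], [0, 0, 6, -3]]]]

/-- table -/
noncomputable def T4_er : Tab := [
  [],
  [],
  [],
  [],
  [],
  [],
  [[[0, 0, -16], [0, 16], [0, 0, 8]], [[0, 16]], [[0, 0, 8]]],
  [[[0, 32, 0, -8], [-16, 0, 4], [0, -8, 0, 2]], [[-16, -16, 28], [16, -8], [0, 8, -4]], [[16,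
    -32, -8, 14], [0, 8, -4], [0, 0, 4, -2]], [[0, 16, -24]], [[0, 0, 4, -6]]],
  [[], [[0, -16, 8], [16, -8], [0, 8, -4]], [[16, -8, -8, 4], [0, 8, -4], [0, 0, 4, -2]], [[0,
    16, -8]], [[0, 0, 4, -2]]],
  [[[0, 32, 0, -8], [-16, -16, 28], [16, -32, -8, 14], [0, 16, -24], [0, 0, 4, -6]], [[-16, 0,
    4], [16, -8], [0, 8, -4]], [[0, -8, 0, 2], [0, 8, -4], [0, 0, 4, -2]]],
  [[[], [0, -16, 8], [16, -8, -8, 4], [0, 16, -8], [0, 0, 4, -2]], [[], [16, -8], [0, 8, -4]],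
    [[], [0, 8, -4], [0, 0, 4, -2]]],
  [[[-16, 0, 8, 0, -1]], [[16, -24, -4, 6]], [[16, 24, -24, -2, 3]], [[-16, 24, 16, -12]], [[0,
    -24, 16, 4, -3]], [[0, 0, -12, 6]], [[0, 0, 0, -2, 1]]],
  [[], [[16, -8, -4, 2]], [[0, 24, -12, -2, 1]], [[-16, 8, 16, -8]], [[0, -24, 12, 4, -2]], [[0,
    0, -12, 6]], [[0, 0, 0, -2, 1]]],
  [[[-32, 0, 16, 0, -2], [16, -24, -4, 6], [16, 8, -16, -2, 3], [0, 16, 0, -4], [0, 0, 4, 0,
    -1]], [[16, -24, -4, 6], [0, 32, -16], [-16, 8, 16, -8], [0, -16, 8], [0, 0, -4, 2]], [[16,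
    8, -16, -2, 3], [-16, 8, 16, -8], [0, -16, 8, 8, -4], [0, 0, -8, 4], [0, 0, 0, -2, 1]], [[0,
    16, 0, -4], [0, -16, 8], [0, 0, -8, 4]], [[0, 0, 4, 0, -1], [0, 0, -4, 2], [0, 0, 0, -2, 1]]],
  [[[], [16, -8, -4, 2], [0, 8, -4, -2, 1]], [[], [0, 16, -8], [0, 0, 8, -4]], [[], [-16, 8, 8,
    -4], [0, -8, 4, 4, -2]], [[], [0, -16, 8], [0, 0, -8, 4]], [[], [0, 0, -4, 2], [0, 0, 0, -2,
    1]]],
  [],
  [[], [[16, -8, -4, 2], [0, 16, -8], [-16, 8, 8, -4], [0, -16, 8], [0, 0, -4, 2]], [[0, 8, -4,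
    -2, 1], [0, 0, 8, -4], [0, -8, 4, 4, -2], [0, 0, -8, 4], [0, 0, 0, -2, 1]]],
  [],
  [[[-16, 0, 8, 0, -1], [16, -24, -4, 6], [16, 24, -24, -2, 3], [-16, 24, 16, -12], [0, -24, 16,
    4, -3], [0, 0, -12, 6], [0, 0, 0, -2, 1]]],
  [[[], [16, -8, -4, 2], [0, 24, -12, -2, 1], [-16, 8, 16, -8], [0, -24, 12, 4, -2], [0, 0, -12,
    6], [0, 0, 0, -2, 1]]],
  []]

/-- table -/
noncomputable def T4_c1r : Tab := [
  [],
  [[[], [0, -4]], [[0, -4]]],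
  [[[], [4, 0, -1]], [[4, 0, -1], [-4, 2]], [[-4, 2], [0, -2, 1]], [[0, -2, 1]]],
  [[], [[], [-4, 2]], [[-4, 2], [0, -2, 1]], [[0, -2, 1]]],
  [[[], [4, 0, -1], [-4, 2], [0, -2, 1]], [[4, 0, -1], [-4, 2], [0, -2, 1]]],
  [[[], [], [-4, 2], [0, -2, 1]], [[], [-4, 2], [0, -2, 1]]],
  [],
  [],
  [],
  [],
  [],
  [],
  [],
  [],
  [],
  [],
  [],
  [],
  [],
  [],
  []]

/-- table -/
noncomputable def T4_cbr : Tab := [
  [],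
  [],
  [],
  [],
  [],
  [],
  [[[], [0, -4]], [[0, -4]]],
  [[[], [4, 0, -1]], [[4, 0, -1], [-4, 2]], [[-4, 2], [0, -2, 1]], [[0, -2, 1]]],
  [[], [[], [-4, 2]], [[-4, 2], [0, -2, 1]], [[0, -2, 1]]],
  [[[], [4, 0, -1], [-4, 2], [0, -2, 1]], [[4, 0, -1], [-4, 2], [0, -2, 1]]],
  [[[], [], [-4, 2], [0, -2, 1]], [[], [-4, 2], [0, -2, 1]]],
  [],
  [],
  [],
  [],
  [],
  [],
  [],
  [],
  [],
  []]

/-- table -/
noncomputable def T4_cE1 : Tab := [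
  [],
  [],
  [],
  [],
  [],
  [],
  [],
  [],
  [],
  [],
  [],
  [[[], [0, 8, 0, -2]], [[0, 8, 0, -2], [-32, -16, 8]], [[-32, -16, 8], [32, -24, -8, 4]], [[32,
    -24, -8, 4], [0, 32, -8]], [[0, 32, -8], [0, 0, 8, -2]], [[0, 0, 8, -2]]],
  [[], [[], [-32, 0, 8]], [[-32, 0, 8], [32, -32, 0, 4]], [[32, -32, 0, 4], [0, 32, -16]], [[0,
    32, -16], [0, 0, 8, -4]], [[0, 0, 8, -4]]],
  [],
  [],
  [[], [[], [-8, 8, -2]], [[-8, 8, -2], [8, -8, 4, -1]], [[8, -8, 4, -1], [0, 8, -4]], [[0, 8,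
    -4], [0, 0, 2, -1]], [[0, 0, 2, -1]]],
  [],
  [],
  [[[], [0, 8, 0, -2], [-32, -16, 8], [32, -24, -8, 4], [0, 32, -8], [0, 0, 8, -2]], [[0, 8, 0,
    -2], [-32, -16, 8], [32, -24, -8, 4], [0, 32, -8], [0, 0, 8, -2]]],
  [[[], [], [-32, 0, 8], [32, -32, 0, 4], [0, 32, -16], [0, 0, 8, -4]], [[], [-32, 0, 8], [32,
    -32, 0, 4], [0, 32, -16], [0, 0, 8, -4]]],
  [[[], [], [-8, 8, -2], [8, -8, 4, -1], [0, 8, -4], [0, 0, 2, -1]], [[], [-8, 8, -2], [8, -8, 4,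
    -1], [0, 8, -4], [0, 0, 2, -1]]]]

/-- table -/
noncomputable def T4_t1 : Tab := [
  [],
  [[[-16, 8]]],
  [[[-16, 0, 4]], [[16, -8]], [[0, 8, -4]]],
  [[], [[16, -8]], [[0, 8, -4]]],
  [],
  [],
  [[[24, -12]]],
  [[[48, 0, -12]], [[-48, 24]], [[0, -24, 12]]],
  [[], [[-48, 24]], [[0, -24, 12]]],
  [],
  [],
  [[[24, 12, -6, -3]], [[-48, 0, 12]], [[24, -36, 0, 6]], [[0, 24, -12]], [[0, 0, 6, -3]]],
  [[], [[-48, 0, 12]], [[48, -48, 0, 6]], [[0, 48, -24]], [[0, 0, 12, -6]]],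
  [],
  [],
  [[], [], [[24, -12]], [[0, 24, -12]], [[0, 0, 6, -3]]],
  [],
  [],
  [],
  [],
  []]

/-- table -/
noncomputable def T4_t2 : Tab := [
  [],
  [[], [[-16]], [[0, -8]]],
  [[], [[-16, -8]], [[16, -8, -4]], [[0, 16]], [[0, 0, 4]]],
  [[], [[-16, 8]], [[0, -8, 4]]],
  [],
  [],
  [[], [[24]], [[0, 12]]],
  [[], [[48, 24]], [[-48, 24, 12]], [[0, -48]], [[0, 0, -12]]],
  [[], [[48, -24]], [[0, 24, -12]]],
  [],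
  [],
  [[], [[24, 24, 6]], [[-48, -12, 12, 3]], [[24, -48, -24]], [[0, 36, -12, -6]], [[0, 0, 18]],
    [[0, 0, 0, 3]]],
  [[], [[48, 0, -12]], [[-48, 48, 0, -6]], [[0, -48, 24]], [[0, 0, -12, 6]]],
  [],
  [],
  [[], [[24, -24, 6]], [[0, 12, -12, 3]]],
  [],
  [],
  [],
  [],
  []]

/-- table -/
noncomputable def T4_t3 : Tab := [
  [],
  [[[-16, -8]], [[16]], [[0, 8]]],
  [[[16, 0, -4]], [[0, 16]], [[-16, 0, 8]], [[0, -16]], [[0, 0, -4]]],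
  [],
  [],
  [],
  [[[24, 12]], [[-24]], [[0, -12]]],
  [[[-48, 0, 12]], [[0, -48]], [[48, 0, -24]], [[0, 48]], [[0, 0, 12]]],
  [],
  [],
  [],
  [[[24, -12, -6, 3]], [[24, 24, -18]], [[-24, 48, 12, -9]], [[-24, -24, 36]], [[0, -36, -6, 9]],
    [[0, 0, -18]], [[0, 0, 0, -3]]],
  [],
  [],
  [],
  [],
  [],
  [],
  [],
  [],
  []]

/-- table -/
noncomputable def T4_s1 : Tab := [
  [],
  [[[-16, 8]]],
  [],
  [],
  [[[-16, 0, 4], [16, -8], [0, 8, -4]]],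
  [[[], [16, -8], [0, 8, -4]]],
  [[[24, -12]]],
  [],
  [],
  [[[48, 0, -12], [-48, 24], [0, -24, 12]]],
  [[[], [-48, 24], [0, -24, 12]]],
  [],
  [],
  [],
  [],
  [],
  [],
  [],
  [[[24, 12, -6, -3], [-48, 0, 12], [24, -36, 0, 6], [0, 24, -12], [0, 0, 6, -3]]],
  [[[], [-48, 0, 12], [48, -48, 0, 6], [0, 48, -24], [0, 0, 12, -6]]],
  [[[], [], [24, -12], [0, 24, -12], [0, 0, 6, -3]]]]

/-- table -/
noncomputable def T4_s2 : Tab := [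
  [],
  [[[], [-16], [0, -8]]],
  [],
  [],
  [[[], [-16, -8], [16, -8, -4], [0, 16], [0, 0, 4]]],
  [[[], [-16, 8], [0, -8, 4]]],
  [[[], [24], [0, 12]]],
  [],
  [],
  [[[], [48, 24], [-48, 24, 12], [0, -48], [0, 0, -12]]],
  [[[], [48, -24], [0, 24, -12]]],
  [],
  [],
  [],
  [],
  [],
  [],
  [],
  [[[], [24, 24, 6], [-48, -12, 12, 3], [24, -48, -24], [0, 36, -12, -6], [0, 0, 18], [0, 0, 0,
    3]]],
  [[[], [48, 0, -12], [-48, 48, 0, -6], [0, -48, 24], [0, 0, -12, 6]]],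
  [[[], [24, -24, 6], [0, 12, -12, 3]]]]

/-- table -/
noncomputable def T4_s3 : Tab := [
  [],
  [[[-16, -8], [16], [0, 8]]],
  [],
  [],
  [[[16, 0, -4], [0, 16], [-16, 0, 8], [0, -16], [0, 0, -4]]],
  [],
  [[[24, 12], [-24], [0, -12]]],
  [],
  [],
  [[[-48, 0, 12], [0, -48], [48, 0, -24], [0, 48], [0, 0, 12]]],
  [],
  [],
  [],
  [],
  [],
  [],
  [],
  [],
  [[[24, -12, -6, 3], [24, 24, -18], [-24, 48, 12, -9], [-24, -24, 36], [0, -36, -6, 9], [0, 0,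
    -18], [0, 0, 0, -3]]],
  [],
  []]

/-- table -/
noncomputable def T4_tb : Tab := [
  [[[1]]],
  [[[-12]]],
  [],
  [],
  [],
  [],
  [[[32]]],
  [],
  [],
  [],
  [],
  [],
  [],
  [],
  [],
  [],
  [],
  [],
  [],
  [],
  []]

end Pool.G1.ZB
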