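import Pool.Agent.Work.MP_b5407d_g1.Pl_ZC1a0
import Pool.Agent.Work.MP_b5407d_g1.Pl_ZC1a1
import Pool.Agent.Work.MP_b5407d_g1.Pl_ZC1b0
import Pool.Agent.Work.MP_b5407d_g1.Pl_ZC2a0
import Pool.Agent.Work.MP_b5407d_g1.Pl_ZC2a1
import Pool.Agent.Work.MP_b5407d_g1.Pl_ZC2a2
import Pool.Agent.Work.MP_b5407d_g1.Pl_ZC2b0
import Pool.Agent.Work.MP_b5407d_g1.Pl_ZC3a0
import Pool.Agent.Work.MP_b5407d_g1.Pl_ZC3b0
import Pool.Agent.Work.MP_b5407d_g1.Pl_ZC4a0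
import Pool.Agent.Work.MP_b5407d_g1.Pl_ZC4b0

/-!
# G1, P2: the certificate for `β ∈ [1/8, 1/4]`, all `τ`
-/

set_option autoImplicit false

namespace Pool.G1.ZB
open Pool.G1.Gap

/-- chart 1, `τ ≤ 1/2` -/
lemma ch1a {r u τ : ℝ} (h1 : 0 ≤ r) (h1' : r ≤ 1) (h2 : 0 ≤ u) (h2' : u ≤ 1) (h3 : 0 ≤ τ)
    (h3' : τ ≤ 1 / 2) : Gc1 (-301 / 512) (3 / 512) (-361 / 512) (-1) r u τ := by
  rcases le_total r (1 / 2) with k1 | k1
  · rcases le_total r (1 / 4) with k2 | k2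
    · rcases le_total τ (1 / 4) with k3 | k3
      · rcases le_total r (1 / 8) with k4 | k4
        · exact gd1a0 h1 k4 h2 h2' h3 k3
        · exact gd1a1 k4 k2 h2 h2' h3 k3
      · exact gd1a2 h1 k2 h2 h2' k3 h3'
    · exact gd1a3 k2 k1 h2 h2' h3 h3'
  · exact gd1a4 k1 h1' h2 h2' h3 h3'

/-- chart 1, `τ ≥ 1/2` -/
lemma ch1b {r u τ : ℝ} (h1 : 0 ≤ r) (h1' : r ≤ 1) (h2 : 0 ≤ u) (h2' : u ≤ 1) (h3 : 1 / 2 ≤ τ)
    (h3' : τ ≤ 1) : Gc1 (-523 / 512) (-3 / 256) (-319 / 512) (-97 / 128) r u τ :=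
  gd1b0 h1 h1' h2 h2' h3 h3'

/-- chart 2, `τ ≤ 1/2` -/
lemma ch2a {r u τ : ℝ} (h1 : 0 ≤ r) (h1' : r ≤ 1) (h2 : 0 ≤ u) (h2' : u ≤ 1) (h3 : 0 ≤ τ)
    (h3' : τ ≤ 1 / 2) : Gc2 (-301 / 512) (3 / 512) (-361 / 512) (-1) r u τ := by
  rcases le_total r (1 / 2) with k1 | k1
  · rcases le_total r (1 / 4) with k2 | k2
    · rcases le_total τ (1 / 4) with k3 | k3
      · rcases le_total r (1 / 8) with k4 | k4
        · rcases le_total τ (1 / 8) with k5 | k5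
          · rcases le_total τ (1 / 16) with k6 | k6
            · rcases le_total r (1 / 16) with k7 | k7
              · exact gd2a0 h1 k7 h2 h2' h3 k6
              · exact gd2a1 k7 k4 h2 h2' h3 k6
            · rcases le_total r (1 / 16) with k7 | k7
              · exact gd2a2 h1 k7 h2 h2' k6 k5
              · exact gd2a3 k7 k4 h2 h2' k6 k5
          · exact gd2a4 h1 k4 h2 h2' k5 k3
        · exact gd2a5 k4 k2 h2 h2' h3 k3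
      · exact gd2a6 h1 k2 h2 h2' k3 h3'
    · exact gd2a7 k2 k1 h2 h2' h3 h3'
  · exact gd2a8 k1 h1' h2 h2' h3 h3'

/-- chart 2, `τ ≥ 1/2` -/
lemma ch2b {r u τ : ℝ} (h1 : 0 ≤ r) (h1' : r ≤ 1) (h2 : 0 ≤ u) (h2' : u ≤ 1) (h3 : 1 / 2 ≤ τ)
    (h3' : τ ≤ 1) : Gc2 (-523 / 512) (-3 / 256) (-319 / 512) (-97 / 128) r u τ := by
  rcases le_total r (1 / 2) with k1 | k1
  · exact gd2b0 h1 k1 h2 h2' h3 h3'
  · exact gd2b1 k1 h1' h2 h2' h3 h3'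

/-- chart 3, `τ ≤ 1/2` -/
lemma ch3a {r u τ : ℝ} (h1' : r ≤ 1) (h2 : 0 ≤ u) (h2' : u ≤ r) (h3 : 0 ≤ τ)
    (h3' : τ ≤ 1 / 2) : Gc3 (-301 / 512) (3 / 512) (-361 / 512) (-1) r u τ := by
  rcases le_total r (1 / 2) with k1 | k1
  · exact gd3a0 (h2.trans h2') k1 h2 (h2'.trans k1) h3 h3'
  · rcases le_total u (1 / 2) with k2 | k2
    · exact gd3a1 k1 h1' h2 k2 h3 h3'
    · exact gd3a2 k1 h1' k2 (h2'.trans h1') h3 h3'

/-- chart 3, `τ ≥ 1/2` -/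
lemma ch3b {r u τ : ℝ} (h1' : r ≤ 1) (h2 : 0 ≤ u) (h2' : u ≤ r) (h3 : 1 / 2 ≤ τ)
    (h3' : τ ≤ 1) : Gc3 (-523 / 512) (-3 / 256) (-319 / 512) (-97 / 128) r u τ := by
  rcases le_total r (1 / 2) with k1 | k1
  · exact gd3b0 (h2.trans h2') k1 h2 (h2'.trans h1') h3 h3'
  · exact gd3b1 k1 h1' h2 (h2'.trans h1') h3 h3'

/-- chart 4, `τ ≤ 1/2` -/
lemma ch4a {r u τ : ℝ} (h1 : 0 ≤ r) (h1' : r ≤ u) (h2' : u ≤ 1) (h3 : 0 ≤ τ)
    (h3' : τ ≤ 1 / 2) : Gc4 (-301 / 512) (3 / 512) (-361 / 512) (-1) r u τ := by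
  rcases le_total u (1 / 2) with k1 | k1
  · exact gd4a0 h1 (h1'.trans k1) (h1.trans h1') k1 h3 h3'
  · rcases le_total r (1 / 2) with k2 | k2
    · exact gd4a1 h1 k2 k1 h2' h3 h3'
    · exact gd4a2 k2 (h1'.trans h2') k1 h2' h3 h3'

/-- chart 4, `τ ≥ 1/2` -/
lemma ch4b {r u τ : ℝ} (h1 : 0 ≤ r) (h1' : r ≤ u) (h2' : u ≤ 1) (h3 : 1 / 2 ≤ τ)
    (h3' : τ ≤ 1) : Gc4 (-523 / 512) (-3 / 256) (-319 / 512) (-97 / 128) r u τ := by
  rcases le_total r (1 / 2) with k1 | k1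
  · exact gd4b0 h1 k1 (h1.trans h1') h2' h3 h3'
  · exact gd4b1 k1 (h1'.trans h2') (h1.trans h1') h2' h3 h3'

/-- the four charts together -/
lemma good_all {er c1r cbr cE1 τ : ℝ}
    (g1 : ∀ r u : ℝ, 0 ≤ r → r ≤ 1 → 0 ≤ u → u ≤ 1 → Gc1 er c1r cbr cE1 r u τ)
    (g2 : ∀ r u : ℝ, 0 ≤ r → r ≤ 1 → 0 ≤ u → u ≤ 1 → Gc2 er c1r cbr cE1 r u τ)
    (g3 : ∀ r u : ℝ, r ≤ 1 → 0 ≤ u → u ≤ r → Gc3 er c1r cbr cE1 r u τ)
    (g4 : ∀ r u : ℝ, 0 ≤ r → r ≤ u → u ≤ 1 → Gc4 er c1r cbr cE1 r u τ)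
    {a b N1 N2 N3 k2 N1' N2' N3' k2' : ℝ} (hb : -1 ≤ b) (hab : b ≤ a) (ha : a ≤ 1)
    (G : Geo τ a N1 N2 N3 k2) (G' : Geo τ b N1' N2' N3' k2') :
    GoodX er c1r cbr cE1 τ a b N1 N2 N3 k2 N1' N2' N3' k2' := by
  rcases G with ⟨ha0, rfl, rfl, rfl, rfl⟩ | ⟨ha0, rfl, rfl, rfl, rfl⟩
  · rcases G' with ⟨hb0, rfl, rfl, rfl, rfl⟩ | ⟨hb0, rfl, rfl, rfl, rfl⟩
    · exact GoodX_of_Gc3 (g3 a b ha hb0 hab)
    · rcases le_total (1 + b) (1 - a) with h | h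
      · -- chart 1
        obtain ⟨r, hr⟩ : ∃ r, r = 1 - a := ⟨_, rfl⟩
        have hr0 : 0 ≤ r := by linarith
        have hr1 : r ≤ 1 := by linarith
        obtain ⟨u, hu0, hu1, hu⟩ : ∃ u, 0 ≤ u ∧ u ≤ 1 ∧ b = r * u - 1 := by
          rcases eq_or_lt_of_le hr0 with h0 | h0
          · exact ⟨0, le_rfl, zero_le_one, by nlinarith⟩
          · refine ⟨(1 + b) / r, div_nonneg (by linarith) hr0, ?_, ?_⟩
            · rw [div_le_one h0]; linarith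
            · field_simp; ring
        have e : a = 1 - r := by linarith
        subst e
        subst hu
        exact GoodX_of_Gc1 hr0 (g1 r u hr0 hr1 hu0 hu1)
      · obtain ⟨r, hr⟩ : ∃ r, r = 1 + b := ⟨_, rfl⟩
        have hr0 : 0 ≤ r := by linarith
        have hr1 : r ≤ 1 := by linarith
        obtain ⟨u, hu0, hu1, hu⟩ : ∃ u, 0 ≤ u ∧ u ≤ 1 ∧ a = 1 - r * u := by
          rcases eq_or_lt_of_le hr0 with h0 | h0
          · exact ⟨0, le_rfl, zero_le_one, by nlinarith⟩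
          · refine ⟨(1 - a) / r, div_nonneg (by linarith) hr0, ?_, ?_⟩
            · rw [div_le_one h0]; linarith
            · field_simp; ring
        have e : b = r - 1 := by linarith
        subst e
        subst hu
        exact GoodX_of_Gc2 hr0 (g2 r u hr0 hr1 hu0 hu1)
  · rcases G' with ⟨hb0, rfl, rfl, rfl, rfl⟩ | ⟨hb0, rfl, rfl, rfl, rfl⟩
    · -- a = b = 0
      have e1 : a = 0 := by linarith
      have e2 : b = 0 := by linarith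
      subst e1
      subst e2
      obtain ⟨t1, t2, t3, t1', t2', t3', tb, h1, h2, h3, h1', h2', h3', hb', H⟩ :=
        GoodX_of_Gc3 (g3 0 0 zero_le_one le_rfl le_rfl)
      refine ⟨t1, t2, t3, t1', t2', t3', tb, h1, h2, h3, h1', h2', h3', hb', ?_⟩
      intro β x δ x' δ'
      have := H β x δ x' δ'
      have e : FX er c1r cbr cE1 τ 0 0 (1 / 8) (1 / 4) (1 - τ / 2) (-(0 * (1 - τ * 0 / 2)))
          ((1 + 0) * (1 + τ * (1 - 0) / 2)) 1 ((1 - 0) * (1 - τ * (1 + 0) / 2)) (0 * (1 - τ * 0 / 2))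
          (1 + τ / 2) 0 t1 t2 t3 t1' t2' t3' tb β x δ x' δ' =
          FX er c1r cbr cE1 τ 0 0 (1 / 8) (1 / 4) ((1 - 0) * (1 - τ * (1 + 0) / 2)) (0 * (1 - τ * 0 / 2))
          (1 + τ / 2) 0 ((1 - 0) * (1 - τ * (1 + 0) / 2)) (0 * (1 - τ * 0 / 2))
          (1 + τ / 2) 0 t1 t2 t3 t1' t2' t3' tb β x δ x' δ' := by
        unfold FX EX rX gx1 gx2 gx3 Px
        ring
      rw [e]
      exact this
    · have h := GoodX_of_Gc4 (g4 (-a) (-b) (by linarith) (by linarith) (by linarith))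
      simpa only [neg_neg] using h

/-- weights are nonnegative -/
lemma good_cert {er c1r cbr cE1 τ β : ℝ} (hc0 : -1 ≤ cE1) (hc1 : cE1 ≤ 1)
    (hβ0 : 1 / 8 ≤ β) (hβ1 : β ≤ 1 / 4)
    (H : ∀ a b N1 N2 N3 k2 N1' N2' N3' k2' : ℝ, -1 ≤ b → b ≤ a → a ≤ 1 →
      Geo τ a N1 N2 N3 k2 → Geo τ b N1' N2' N3' k2' →
      GoodX er c1r cbr cE1 τ a b N1 N2 N3 k2 N1' N2' N3' k2') : CERTXat τ β := by
  refine ⟨er, c1r, cbr, cE1, 1 / 8, 1 / 4, hβ0, hβ1, ?_⟩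
  intro a b hb hab ha N1 N2 N3 k2 N1' N2' N3' k2' G G'
  obtain ⟨t1, t2, t3, t1', t2', t3', tb, h1, h2, h3, h1', h2', h3', hb', K⟩ :=
    H a b N1 N2 N3 k2 N1' N2' N3' k2' hb hab ha G G'
  have q1 : 0 ≤ (1 - cE1) * (1 + a) := mul_nonneg (by linarith) (by linarith)
  have q2 : 0 ≤ (1 + cE1) * (1 + a) := mul_nonneg (by linarith) (by linarith)
  have q3 : 0 ≤ (1 - cE1) * (1 - a) := mul_nonneg (by linarith) (by linarith)
  have q4 : 0 ≤ (1 + cE1) * (1 - a) := mul_nonneg (by linarith) (by linarith)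
  have r1 : 0 ≤ (1 - cE1) * (1 + b) := mul_nonneg (by linarith) (by linarith)
  have r2 : 0 ≤ (1 + cE1) * (1 + b) := mul_nonneg (by linarith) (by linarith)
  have r3 : 0 ≤ (1 - cE1) * (1 - b) := mul_nonneg (by linarith) (by linarith)
  have r4 : 0 ≤ (1 + cE1) * (1 - b) := mul_nonneg (by linarith) (by linarith)
  have w2 : 0 ≤ (2 - (a - b) + 2 * (a - b) * k2) / 8 + (a + b) * ((2 * k2 - 1) * cE1) / 8 + t2 := by
    rcases G with ⟨_, _, _, _, rfl⟩ | ⟨_, _, _, _, rfl⟩ <;> linarith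
  have w2' : 0 ≤ (2 + (a - b) - 2 * (a - b) * k2') / 8 + (a + b) * ((2 * k2' - 1) * cE1) / 8 + t2' := by
    rcases G' with ⟨_, _, _, _, rfl⟩ | ⟨_, _, _, _, rfl⟩ <;> linarith
  exact ⟨t1, t2, t3, t1', t2', t3', tb, h1, h2, h3, h1', h2', h3', hb', by linarith, w2, by linarith,
    by linarith, w2', by linarith, fun x δ x' δ' => K β x δ x' δ'⟩

/-- **P2: the certificate for `β ∈ [1/8, 1/4]`** -/
theorem CERTXat_P2 {τ β : ℝ} (hτ0 : 0 < τ) (hτ1 : τ < 1) (hβ0 : 1 / 8 ≤ β) (hβ1 : β ≤ 1 / 4) :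
    CERTXat τ β := by
  rcases le_total τ (1 / 2) with h | h
  · refine good_cert (er := -301 / 512) (c1r := 3 / 512) (cbr := -361 / 512) (cE1 := -1) le_rfl
      (by norm_num) hβ0 hβ1 ?_
    intro a b N1 N2 N3 k2 N1' N2' N3' k2' hb hab ha G G'
    exact good_all (fun r u h1 h1' h2 h2' => ch1a h1 h1' h2 h2' hτ0.le h)
      (fun r u h1 h1' h2 h2' => ch2a h1 h1' h2 h2' hτ0.le h)
      (fun r u h1' h2 h2' => ch3a h1' h2 h2' hτ0.le h)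
      (fun r u h1 h1' h2' => ch4a h1 h1' h2' hτ0.le h) hb hab ha G G'
  · refine good_cert (er := -523 / 512) (c1r := -3 / 256) (cbr := -319 / 512) (cE1 := -97 / 128)
      (by norm_num) (by norm_num) hβ0 hβ1 ?_
    intro a b N1 N2 N3 k2 N1' N2' N3' k2' hb hab ha G G'
    exact good_all (fun r u h1 h1' h2 h2' => ch1b h1 h1' h2 h2' h hτ1.le)
      (fun r u h1 h1' h2 h2' => ch2b h1 h1' h2 h2' h hτ1.le)
      (fun r u h1' h2 h2' => ch3b h1' h2 h2' h hτ1.le)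
      (fun r u h1 h1' h2' => ch4b h1 h1' h2' h hτ1.le) hb hab ha G G'

/-- **P2: `FIN6at` for `β ∈ [1/8, 1/4]`, all `τ ∈ (0, 1)`** -/
theorem FIN6at_P2 {τ β : ℝ} (hτ0 : 0 < τ) (hτ1 : τ < 1) (hβ0 : 1 / 8 ≤ β) (hβ1 : β ≤ 1 / 4) :
    FIN6at 0 τ β :=
  FIN6at_of_CERTXat hτ0 hτ1 (by linarith) (by linarith) (CERTXat_P2 hτ0 hτ1 hβ0 hβ1)

end Pool.G1.ZB
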