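import Pool.Agent.Work.MP_b5407d_t3.COO
import Pool.Agent.Work.MP_b5407d_t3.BND
import Pool.Agent.Work.MP_b5407d_t3.LAMF
import Pool.Agent.Work.MP_b5407d_t3.LAMC
import Pool.Agent.Work.MP_b5407d_t3.VIN
import Pool.Agent.Work.MP_b5407d_t3.SF
import Pool.Agent.Work.MP_b5407d_t3.HF
import Pool.Agent.Work.MP_b5407d_t3.HOM
import Pool.Agent.Work.MP_b5407d_t3.PAR
import Pool.Agent.Work.MP_b5407d_t3.DV1
import Pool.Agent.Work.MP_b5407d_t3.PARH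
import Pool.Agent.Work.MP_b5407d_t3.DVS
import Pool.Agent.Work.MP_b5407d_t3.SGN
import Pool.Agent.Work.MP_b5407d_t3.SLB
import Pool.Agent.Work.MP_b5407d_t3.TCH
import Pool.Agent.Work.MP_b5407d_t3.BM2
import Pool.Agent.Work.MP_b5407d_t3.SQC
import Pool.Agent.Work.MP_b5407d_t3.PWL
import Pool.Agent.Work.MP_b5407d_t3.CU1
import Pool.Agent.Work.MP_b5407d_t3.KN1
import Pool.Agent.Work.MP_b5407d_t3.KN2
import Pool.Agent.Work.MP_b5407d_t3.KNC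
import Pool.Agent.Work.MP_b5407d_t3.KN0
import Pool.Agent.Work.MP_b5407d_t3.KNG
import Pool.Agent.Work.MP_b5407d_t3.KN3
import Pool.Agent.Work.MP_b5407d_t3.KN4
import Pool.Agent.Work.MP_b5407d_t3.KN5
import Pool.Agent.Work.MP_b5407d_t3.KNK
import Pool.Agent.Work.MP_b5407d_t3.VA1
import Pool.Agent.Work.MP_b5407d_t3.VA2
import Pool.Agent.Work.MP_b5407d_t3.VA3
import Pool.Agent.Work.MP_b5407d_t3.VA4
import Pool.Agent.Work.MP_b5407d_t3.VAN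
import Pool.Agent.Work.MP_b5407d_t3.GAP
import Pool.Agent.Work.MP_b5407d_t3.CALC
import Pool.Agent.Work.MP_b5407d_t3.RED

/-! # Closed forms of the T3 blocks `DVS`, `CALC`, `GAP`, `RED` used by G1 -/

set_option autoImplicit false

namespace Pool.G1.T3C

open Pool.T3

theorem all : Stmt_DVS ∧ Stmt_CALC ∧ Stmt_GAP ∧ Stmt_RED := by
  have hCOO := stmt_COO
  have hBND := stmt_BND
  have hLAMF := stmt_LAMF
  have hLAMC := stmt_LAMC hLAMF
  have hVIN := stmt_VIN hCOO hBND hLAMC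
  have hSF := stmt_SF hVIN hLAMC
  have hHF := stmt_HF hSF hLAMC
  have hHOM := stmt_HOM hSF hHF hLAMC hBND
  have hPAR := stmt_PAR
  have hDV1 := stmt_DV1 hSF hLAMC hPAR
  have hPARH := stmt_PARH hPAR
  have hDVS := stmt_DVS hHOM hDV1 hHF hLAMC hPARH
  have hSGN := stmt_SGN hSF hHF hLAMC hLAMF hCOO hDVS
  have hSLB := stmt_SLB hDVS hBND
  have hTCH := stmt_TCH hSF hCOO hBND
  have hBM2 := stmt_BM2 hSF hCOO hBND hLAMF hLAMC
  have hSQC := stmt_SQC hBM2 hDVS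
  have hPWL := stmt_PWL hLAMF hHF
  have hCU1 := stmt_CU1 hPWL hDVS hHOM
  have hKN1 := stmt_KN1 hLAMF
  have hKN2 := stmt_KN2 hKN1 hHF hDVS
  have hKNC := stmt_KNC
  have hKN0 := stmt_KN0 hLAMF hKNC
  have hKNG := stmt_KNG hKNC hSF hCOO
  have hKN3 := stmt_KN3 hKNC hKN0 hKN1 hKNG hKN2 hHF
  have hKN4 := stmt_KN4 hKN2 hKN3 hCU1 hDVS
  have hKN5 := stmt_KN5
  have hKNK := stmt_KNK hCU1 hKN4 hKN5 hDVS
  have hVA1 := stmt_VA1 hSF hCOO hLAMF hLAMC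
  have hVA2 := stmt_VA2 hBND hVA1
  have hVA3 := stmt_VA3 hVA2 hSF hHF hDVS hCOO hLAMC
  have hVA4 := stmt_VA4 hVA2 hHF hCOO
  have hVAN := stmt_VAN hVA3 hVA4 hSGN hDVS
  have hGAP := stmt_GAP hDVS hTCH hSGN hBND
  have hCALC := stmt_CALC hDVS hHOM hSGN hSLB hTCH hSQC hKNK hVAN hGAP
  have hRED := stmt_RED hSF hHF hLAMF hLAMC hDVS hSGN hCOO hBND
  exact ⟨hDVS, hCALC, hGAP, hRED⟩

theorem DVS : Stmt_DVS := all.1
theorem CALC : Stmt_CALC := all.2.1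
theorem GAP : Stmt_GAP := all.2.2.1
theorem RED : Stmt_RED := all.2.2.2

end Pool.G1.T3C
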